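import Pool.Agent.Lib.MP_afdd4d_co.K10.E6.Dat

/-!
# The entries
-/

namespace Pool.Agent.Lib.MP_afdd4d_co.K10.E6

open K8

set_option maxRecDepth 100000
set_option exponentiation.threshold 10000000

theorem be12 : allN (fun i => allN (E.beG D al tabA (Nat.add 48 i)) 1024) 4 = true := by decide +kernel

end Pool.Agent.Lib.MP_afdd4d_co.K10.E6
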