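import Pool.Agent.Lib.MP_afdd4d_co.K10.E6.Dat
import Pool.Agent.Lib.MP_afdd4d_co.K10.E6.Mk
import Pool.Agent.Lib.MP_afdd4d_co.K8.F6Bl5
import Pool.Agent.Lib.MP_afdd4d_co.K10.E6.P0
import Pool.Agent.Lib.MP_afdd4d_co.K10.E6.P1
import Pool.Agent.Lib.MP_afdd4d_co.K10.E6.P2
import Pool.Agent.Lib.MP_afdd4d_co.K10.E6.P3
import Pool.Agent.Lib.MP_afdd4d_co.K10.E6.P4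
import Pool.Agent.Lib.MP_afdd4d_co.K10.E6.P5
import Pool.Agent.Lib.MP_afdd4d_co.K10.E6.P6
import Pool.Agent.Lib.MP_afdd4d_co.K10.E6.P7
import Pool.Agent.Lib.MP_afdd4d_co.K10.E6.P8
import Pool.Agent.Lib.MP_afdd4d_co.K10.E6.P9
import Pool.Agent.Lib.MP_afdd4d_co.K10.E6.P10
import Pool.Agent.Lib.MP_afdd4d_co.K10.E6.P11
import Pool.Agent.Lib.MP_afdd4d_co.K10.E6.P12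
import Pool.Agent.Lib.MP_afdd4d_co.K10.E6.P13
import Pool.Agent.Lib.MP_afdd4d_co.K10.E6.P14
import Pool.Agent.Lib.MP_afdd4d_co.K10.E6.P15
import Pool.Agent.Lib.MP_afdd4d_co.K10.E6.P16
import Pool.Agent.Lib.MP_afdd4d_co.K10.E6.P17
import Pool.Agent.Lib.MP_afdd4d_co.K10.E6.P18
import Pool.Agent.Lib.MP_afdd4d_co.K10.E6.P19
import Pool.Agent.Lib.MP_afdd4d_co.K10.E6.P20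
import Pool.Agent.Lib.MP_afdd4d_co.K10.E6.P21
import Pool.Agent.Lib.MP_afdd4d_co.K10.E6.P22
import Pool.Agent.Lib.MP_afdd4d_co.K10.E6.P23
import Pool.Agent.Lib.MP_afdd4d_co.K10.E6.P24
import Pool.Agent.Lib.MP_afdd4d_co.K10.E6.P25
import Pool.Agent.Lib.MP_afdd4d_co.K10.E6.P26
import Pool.Agent.Lib.MP_afdd4d_co.K10.E6.P27
import Pool.Agent.Lib.MP_afdd4d_co.K10.E6.P28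
import Pool.Agent.Lib.MP_afdd4d_co.K10.E6.P29
import Pool.Agent.Lib.MP_afdd4d_co.K10.E6.P30
import Pool.Agent.Lib.MP_afdd4d_co.K10.E6.P31
import Pool.Agent.Lib.MP_afdd4d_co.K10.E6.P32

/-!
# Tables
-/

namespace Pool.Agent.Lib.MP_afdd4d_co.K10.E6

open K8

set_option maxRecDepth 100000
set_option exponentiation.threshold 10000000

/-- The slices of the chunk 0. -/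
noncomputable def c0 : List (List ℕ) := [
  [p0_0,
   p0_1,
   s5_6 (s1_2 p0_1),
   p0_3,
   s4_6 (s0_2 p0_1),
   s4_5 (s0_1 p0_3),
   s4_6 (s0_2 p0_3),
   x6_7 (x6_5 (x6_4 (x2_3 (x2_1 (x2_0 (n5 (n4 p0_31)))))))],
  [s5_7 (s1_3 p0_1),
   s6_7 (s2_3 p0_3),
   s5_7 (s1_3 p0_3),
   x5_7 (x5_6 (x5_4 (x1_3 (x1_2 (x1_0 (n4 p0_1)))))),
   x7_6 (x7_5 (x7_4 (x3_2 (x3_1 (x3_0 (n4 p0_15)))))),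
   p0_13,
   s5_6 (s1_2 p0_13),
   p0_15],
  [s4_7 (s0_3 p0_1),
   s6_7 (s4_5 (s2_3 (s0_1 p0_3))),
   x7_6 (x7_5 (x7_4 (s4_5 (x3_2 (x3_1 (x3_0 (s0_1 (n4 p0_15)))))))),
   s6_7 (s2_3 p0_13),
   s5_7 (s4_7 (s1_3 (s0_3 p0_3))),
   x4_7 (x4_6 (x4_5 (x0_3 (x0_2 (x0_1 (n5 p0_1)))))),
   s5_6 (s4_6 (s1_2 (s0_2 p0_13))),
   s4_5 (s0_1 p0_15)],
  [s6_7 (s4_6 (s2_3 (s0_2 p0_3))),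
   x7_6 (x7_5 (x7_4 (x3_2 (x3_1 (x3_0 (n5 (n4 p0_31))))))),
   s6_7 (s5_6 (s2_3 (s1_2 p0_13))),
   s6_7 (s2_3 p0_15),
   s4_7 (s0_3 p0_13),
   s6_7 (s4_5 (s2_3 (s0_1 p0_15))),
   s5_7 (x4_7 (x4_6 (x4_5 (s1_3 (x0_3 (x0_2 (x0_1 (n6 (n5 p0_3))))))))),
   p0_31],
  [s5_7 (s4_6 (s1_3 (s0_2 p0_1))),
   x7_6 (x7_5 (x7_4 (s4_6 (x3_2 (x3_1 (x3_0 (s0_2 (n4 p0_15)))))))),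
   s5_7 (s4_6 (s1_3 (s0_2 p0_3))),
   s6_7 (s5_7 (s2_3 (s1_3 p0_13))),
   s6_7 (s4_7 (s2_3 (s0_3 p0_3))),
   s4_6 (s0_2 p0_13),
   s5_6 (x4_7 (x4_6 (x4_5 (s1_2 (x0_3 (x0_2 (x0_1 (n5 p0_1)))))))),
   s4_6 (s0_2 p0_15)],
  [s5_7 (s4_5 (s1_3 (s0_1 p0_3))),
   s5_7 (s1_3 p0_13),
   x6_7 (x6_5 (x6_4 (s5_7 (x2_3 (x2_1 (x2_0 (s1_3 (n5 (n4 p0_31))))))))),
   s5_7 (s1_3 p0_15),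
   s5_7 (s4_6 (s1_3 (s0_2 p0_13))),
   s6_7 (x4_7 (x4_6 (x4_5 (s2_3 (x0_3 (x0_2 (x0_1 (n6 (n5 p0_3))))))))),
   s5_7 (s4_6 (s1_3 (s0_2 p0_15))),
   s5_6 (s1_2 p0_31)],
  [s4_7 (s0_3 p0_3),
   s5_7 (s4_7 (s1_3 (s0_3 p0_13))),
   s6_7 (s5_6 (s4_7 (s2_3 (s1_2 (s0_3 p0_13))))),
   x4_7 (x4_6 (x4_5 (x0_3 (x0_2 (x0_1 (n6 (n5 p0_3))))))),
   x6_7 (x6_5 (x6_4 (s4_7 (x2_3 (x2_1 (x2_0 (s0_3 (n5 (n4 p0_31))))))))),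
   s5_7 (s4_7 (s1_3 (s0_3 p0_15))),
   s6_7 (s4_7 (s2_3 (s0_3 p0_15))),
   s4_6 (s0_2 p0_31)],
  [s5_7 (x4_7 (x4_6 (x4_5 (s1_3 (x0_3 (x0_2 (x0_1 (n5 p0_1)))))))),
   s6_7 (s4_6 (s2_3 (s0_2 p0_15))),
   s5_7 (s4_5 (s1_3 (s0_1 p0_15))),
   s5_7 (s1_3 p0_31),
   s4_7 (s0_3 p0_15),
   s4_7 (s0_3 p0_31),
   s5_7 (s4_6 (s1_3 (s0_2 p0_31))),
   p0_63]]

theorem k0 : eqNN c0 (slO 64 (D.chG 0 0) 8) = true := by decide +kernel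

/-- The slices of the chunk 1. -/
noncomputable def c1 : List (List ℕ) := [
  [tr p0_1,
   p1_1,
   p1_2,
   p1_3,
   s4_5 (s0_1 p1_2),
   s4_5 (s0_1 p1_3),
   p1_6,
   p1_7],
  [s6_7 (s2_3 p1_2),
   s6_7 (s2_3 p1_3),
   x6_7 (x6_5 (x6_4 (x2_3 (x2_1 (x2_0 (n4 p1_3)))))),
   x6_7 (x6_5 (x6_4 (x2_3 (x2_1 (x2_0 (n4 p1_2)))))),
   p1_12,
   x6_7 (x6_5 (x6_4 (x2_3 (x2_1 (x2_0 (n5 p1_28)))))),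
   s6_7 (s4_5 (s2_3 (s0_1 p1_28))),
   x7_6 (x7_5 (x7_4 (x3_2 (x3_1 (x3_0 (n4 p1_12))))))],
  [s6_7 (s4_5 (s2_3 (s0_1 p1_2))),
   s6_7 (s4_5 (s2_3 (s0_1 p1_3))),
   s6_7 (s2_3 p1_12),
   x6_7 (x6_5 (x6_4 (s4_5 (x2_3 (x2_1 (x2_0 (s0_1 (n5 p1_28)))))))),
   x6_7 (x6_5 (x6_4 (s4_5 (x2_3 (x2_1 (x2_0 (s0_1 (n4 p1_3)))))))),
   x6_7 (x6_5 (x6_4 (s4_5 (x2_3 (x2_1 (x2_0 (s0_1 (n4 p1_2)))))))),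
   s6_7 (s2_3 p1_28),
   x7_6 (x7_5 (x7_4 (s6_7 (x3_2 (x3_1 (x3_0 (s2_3 (n5 p1_12))))))))],
  [s6_7 (s2_3 p1_6),
   s6_7 (s2_3 p1_7),
   s4_5 (s0_1 p1_28),
   x6_7 (x6_5 (x6_4 (s4_5 (x2_3 (x2_1 (x2_0 (s0_1 (n5 p1_12)))))))),
   p1_28,
   x6_7 (x6_5 (x6_4 (x2_3 (x2_1 (x2_0 (n5 p1_12)))))),
   x6_7 (x6_5 (x6_4 (x2_3 (x2_1 (x2_0 (n5 (n4 p1_6))))))),
   x6_7 (x6_5 (x6_4 (x2_3 (x2_1 (x2_0 (n5 (n4 p1_7)))))))],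
  [x7_6 (x7_5 (x7_4 (x3_2 (x3_1 (x3_0 (n6 p1_38)))))),
   p1_33,
   s6_7 (s4_5 (s2_3 (s0_1 p1_48))),
   s6_7 (s2_3 p1_41),
   s6_7 (s2_3 p1_48),
   s6_7 (s4_5 (s2_3 (s0_1 p1_41))),
   p1_38,
   x7_6 (x7_5 (x7_4 (x3_2 (x3_1 (x3_0 (n6 p1_33))))))],
  [s4_5 (s0_1 p1_48),
   p1_41,
   p1_42,
   x6_7 (x6_5 (x6_4 (s4_5 (x2_3 (x2_1 (x2_0 (s0_1 (n7 (n5 p1_60))))))))),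
   x7_6 (x7_5 (x7_4 (x3_2 (x3_1 (x3_0 (n6 (n4 p1_41))))))),
   x7_6 (x7_5 (x7_4 (s4_5 (x3_2 (x3_1 (x3_0 (s0_1 (n6 (n5 p1_48))))))))),
   s6_7 (s4_5 (s2_3 (s0_1 p1_60))),
   x7_6 (x7_5 (x7_4 (x3_2 (x3_1 (x3_0 (n6 (n4 p1_42)))))))],
  [p1_48,
   s4_5 (s0_1 p1_41),
   x7_6 (x7_5 (x7_4 (s4_5 (x3_2 (x3_1 (x3_0 (s0_1 (n6 (n4 p1_41))))))))),
   x7_6 (x7_5 (x7_4 (x3_2 (x3_1 (x3_0 (n6 (n5 p1_48))))))),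
   s4_5 (s0_1 p1_42),
   x6_7 (x6_5 (x6_4 (x2_3 (x2_1 (x2_0 (n7 (n5 p1_60))))))),
   s6_7 (s2_3 p1_60),
   x7_6 (x7_5 (x7_4 (s4_5 (x3_2 (x3_1 (x3_0 (s0_1 (n6 (n4 p1_42)))))))))],
  [s6_7 (s2_3 p1_38),
   x6_7 (x6_5 (x6_4 (x2_3 (x2_1 (x2_0 (n7 p1_33)))))),
   s4_5 (s0_1 p1_60),
   x6_7 (x6_5 (x6_4 (x2_3 (x2_1 (x2_0 (n7 (n4 p1_42))))))),
   p1_60,
   x6_7 (x6_5 (x6_4 (s4_5 (x2_3 (x2_1 (x2_0 (s0_1 (n7 (n4 p1_42))))))))),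
   p1_62,
   tr p6_1]]

theorem k1 : eqNN c1 (slO 64 (D.chG 0 1) 8) = true := by decide +kernel

/-- The slices of the chunk 2. -/
noncomputable def c2 : List (List ℕ) := [
  [tr p0_3,
   tr p1_3,
   s3_7 (s2_5 (s1_6 (s0_4 p1_3))),
   p2_3,
   s3_7 (s2_4 (s1_5 (s0_6 p1_6))),
   p2_5,
   s5_6 (s1_2 p2_5),
   tr p3_3],
  [x6_7 (x6_5 (x6_4 (s5_6 (x3_2 (x3_1 (x3_0 (s3_6 (x2_6 (x2_1 (x2_0 (s2_5 (s1_7 (s0_4 (n4 p1_3)))))))))))))),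
   p2_9,
   s5_6 (s1_2 p2_9),
   x5_7 (x5_6 (x5_4 (s3_6 (s2_7 (x1_7 (x1_6 (x1_0 (s1_5 (s0_4 (n4 (n0 p1_3))))))))))),
   p2_12,
   tr p5_3,
   s3_7 (s2_5 (s1_6 (s0_4 p5_3))),
   x7_6 (x7_5 (x7_4 (x3_2 (x3_1 (x3_0 (n4 p2_12))))))],
  [s3_4 (s2_6 (s1_5 (s0_7 p1_48))),
   x6_7 (x6_5 (x6_4 (s5_7 (x2_3 (x2_1 (x2_0 (s1_3 (n0 p2_24)))))))),
   p2_18,
   x7_6 (x7_5 (x7_4 (s5_6 (x3_2 (x3_1 (x3_0 (s1_2 (n6 p2_37)))))))),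
   s5_7 (s4_6 (s3_6 (s2_5 (s1_4 (s0_7 p2_24))))),
   x7_6 (x7_5 (x7_4 (x3_2 (x3_1 (x3_0 (s3_4 (s2_6 (s1_5 (s0_7 (n1 p1_48)))))))))),
   s5_6 (s1_2 p2_37),
   x7_6 (x7_5 (x7_4 (x3_2 (x3_1 (x3_0 (n5 p2_18))))))],
  [p2_24,
   s3_6 (s2_7 (s1_5 (s0_4 p3_9))),
   x7_6 (x7_5 (x7_4 (x3_2 (x3_1 (x3_0 (n5 (n4 p2_28))))))),
   x6_7 (x6_5 (x6_4 (s5_7 (x2_3 (x2_1 (x2_0 (s1_3 (n4 (n0 p2_18))))))))),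
   p2_28,
   x7_6 (x7_5 (x7_4 (x6_7 (x6_5 (x6_4 (s5_7 (x3_2 (x3_1 (x3_0 (x2_3 (x2_1 (x2_0 (s1_3 (n7 (n0 p2_18))))))))))))))),
   x7_6 (x7_5 (x7_4 (x3_2 (x3_1 (x3_0 (n5 (n4 p2_24))))))),
   x7_6 (x7_5 (x7_4 (x3_2 (x3_1 (x3_0 (s3_6 (s2_7 (s1_5 (s0_4 (n1 (n0 p3_9)))))))))))],
  [s3_4 (s2_5 (s1_6 (s0_7 p1_48))),
   s5_6 (s1_2 p2_18),
   x7_6 (x7_5 (x7_4 (s6_7 (s4_6 (x3_2 (x3_1 (x3_0 (s3_6 (s2_4 (s1_5 (s0_7 (n0 p2_24)))))))))))),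
   x7_6 (x7_5 (x7_4 (x3_2 (x3_1 (x3_0 (n6 p2_37)))))),
   s6_7 (s4_6 (s3_6 (s2_4 (s1_5 (s0_7 p2_24))))),
   p2_37,
   x7_6 (x7_5 (x7_4 (x3_2 (x3_1 (x3_0 (s3_4 (s2_5 (s1_6 (s0_7 (n1 p1_48)))))))))),
   x7_6 (x7_5 (x7_4 (s5_6 (x3_2 (x3_1 (x3_0 (s1_2 (n5 p2_18))))))))],
  [s5_6 (s1_2 p2_24),
   x6_7 (x6_5 (x6_4 (s5_7 (x2_3 (x2_1 (x2_0 (s1_3 (n5 (n0 p2_28))))))))),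
   s6_7 (s5_6 (s3_6 (s2_5 (s1_7 (s0_4 p3_9))))),
   x7_6 (x7_5 (x7_4 (s6_7 (x5_7 (x5_6 (x5_4 (x3_2 (x3_1 (x3_0 (s2_3 (x1_3 (x1_2 (x1_0 (n4 (n0 p2_18))))))))))))))),
   s5_6 (s1_2 p2_28),
   x7_6 (x7_5 (x7_4 (s5_6 (x3_2 (x3_1 (x3_0 (s1_2 (n5 (n4 p2_24))))))))),
   s6_7 (x5_7 (x5_6 (x5_4 (s2_3 (x1_3 (x1_2 (x1_0 (n7 (n0 p2_18))))))))),
   x5_7 (x5_6 (x5_4 (s3_7 (s2_6 (x1_7 (x1_6 (x1_0 (s1_5 (s0_4 (n4 (n2 (n0 p3_9))))))))))))],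
  [x6_7 (x6_5 (x6_4 (s5_7 (x2_3 (x2_1 (x2_0 (s1_3 (n5 (n0 p2_5))))))))),
   x5_7 (x5_6 (x5_4 (s3_6 (s2_7 (x1_7 (x1_6 (x1_0 (s1_5 (s0_4 (n4 (n2 (n0 p5_3)))))))))))),
   x7_6 (x7_5 (x7_4 (x6_7 (x6_5 (x6_4 (s5_6 (s3_6 (x2_6 (x2_1 (x2_0 (s2_5 (s1_7 (s0_4 (n4 (n2 (n0 p5_3)))))))))))))))),
   s6_7 (x5_7 (x5_6 (x5_4 (s2_3 (x1_3 (x1_2 (x1_0 (n6 (n4 (n0 p2_5)))))))))),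
   s3_4 (s2_6 (s1_5 (s0_7 p3_48))),
   p2_53,
   s5_6 (s1_2 p2_53),
   x7_6 (x7_5 (x7_4 (x3_2 (x3_1 (x3_0 (s3_4 (s2_6 (s1_5 (s0_7 (n2 (n1 p3_48)))))))))))],
  [x6_7 (x6_5 (x6_4 (s3_5 (x2_5 (x2_1 (x2_0 (s2_4 (s1_7 (s0_6 (n6 (n1 p1_6))))))))))),
   x6_7 (x6_5 (x6_4 (s5_7 (x2_3 (x2_1 (x2_0 (s1_3 (n5 (n0 p2_12))))))))),
   s6_7 (x5_7 (x5_6 (x5_4 (s2_3 (x1_3 (x1_2 (x1_0 (n6 (n0 p2_12))))))))),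
   x5_7 (x5_6 (x5_4 (s3_6 (s2_7 (x1_7 (x1_6 (x1_0 (s1_5 (s0_4 (n4 (n2 (n0 p3_3)))))))))))),
   p2_60,
   x6_7 (x6_5 (x6_4 (s5_7 (s4_6 (s3_6 (x2_6 (x2_1 (x2_0 (s2_5 (s1_4 (s0_7 (n7 (n2 (n0 p3_48)))))))))))))),
   x7_6 (x7_5 (x7_4 (s6_7 (x5_7 (x5_6 (x5_4 (s4_6 (s3_6 (x2_6 (x2_1 (x2_0 (s2_5 (x1_6 (x1_5 (x1_0 (s1_4 (s0_7 (n7 (n2 (n0 p3_48)))))))))))))))))))),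
   tr p6_3]]

theorem k2 : eqNN c2 (slO 64 (D.chG 0 3) 8) = true := by decide +kernel

/-- The slices of the chunk 3. -/
noncomputable def c3 : List (List ℕ) := [
  [x6_7 (x6_5 (x6_4 (s3_7 (x2_7 (x2_1 (x2_0 (s2_6 (s1_5 (s0_4 (n5 (n4 p0_31))))))))))),
   tr p1_7,
   s3_7 (s2_5 (s1_6 (s0_4 p1_7))),
   p3_3,
   s3_7 (s2_4 (s1_5 (s0_6 p1_7))),
   s4_5 (s0_1 p3_3),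
   s4_6 (s0_2 p3_3),
   p3_7],
  [s3_5 (s2_6 (s1_7 (s0_4 p1_42))),
   p3_9,
   s5_6 (s1_2 p3_9),
   x7_6 (x7_5 (x7_4 (x3_2 (x3_1 (x3_0 (s3_5 (s2_6 (s1_7 (s0_4 (n0 p1_42)))))))))),
   p3_12,
   tr p5_7,
   s3_7 (s2_5 (s1_6 (s0_4 p5_7))),
   x7_6 (x7_5 (x7_4 (x3_2 (x3_1 (x3_0 (n4 p3_12))))))],
  [s5_6 (s4_7 (s3_5 (s2_7 (s1_4 (s0_6 p1_42))))),
   s4_5 (s0_1 p3_9),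
   s4_5 (s0_1 p3_12),
   s3_7 (s2_6 (s1_4 (s0_5 p5_7))),
   s5_6 (s4_6 (s1_2 (s0_2 p3_9))),
   x7_6 (x7_5 (x7_4 (s5_6 (s4_7 (x3_2 (x3_1 (x3_0 (s3_5 (s2_7 (s1_4 (s0_6 (n0 p1_42)))))))))))),
   s5_6 (s4_5 (s3_7 (s2_5 (s1_4 (s0_6 p5_7))))),
   x7_6 (x7_5 (x7_4 (s4_5 (x3_2 (x3_1 (x3_0 (s0_1 (n4 p3_12))))))))],
  [s4_6 (s0_2 p3_48),
   p3_25,
   s4_5 (s0_1 p3_28),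
   s5_6 (s4_5 (s1_2 (s0_1 p3_53))),
   p3_28,
   s4_6 (s0_2 p3_53),
   x7_6 (x7_5 (x7_4 (s4_6 (x3_2 (x3_1 (x3_0 (s0_2 (n6 (n5 p3_48))))))))),
   x7_6 (x7_5 (x7_4 (x3_2 (x3_1 (x3_0 (n5 (n4 p3_25)))))))],
  [s3_5 (s2_4 (s1_7 (s0_6 p1_42))),
   s4_6 (s0_2 p3_12),
   s5_6 (s4_5 (s1_2 (s0_1 p3_9))),
   s5_6 (s4_6 (s3_7 (s2_4 (s1_6 (s0_5 p5_7))))),
   s4_6 (s0_2 p3_9),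
   s3_7 (s2_4 (s1_5 (s0_6 p5_7))),
   x7_6 (x7_5 (x7_4 (x3_2 (x3_1 (x3_0 (s3_5 (s2_4 (s1_7 (s0_6 (n0 p1_42)))))))))),
   x7_6 (x7_5 (x7_4 (s4_6 (x3_2 (x3_1 (x3_0 (s0_2 (n4 p3_12))))))))],
  [s4_5 (s0_1 p3_48),
   s5_6 (s4_5 (s1_2 (s0_1 p3_28))),
   s5_6 (s1_2 p3_25),
   s4_5 (s0_1 p3_53),
   s5_6 (s1_2 p3_28),
   x7_6 (x7_5 (x7_4 (s4_5 (x3_2 (x3_1 (x3_0 (s0_1 (n6 (n5 p3_48))))))))),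
   s5_6 (s4_6 (s1_2 (s0_2 p3_53))),
   x7_6 (x7_5 (x7_4 (s5_6 (x3_2 (x3_1 (x3_0 (s1_2 (n5 (n4 p3_25)))))))))],
  [p3_48,
   s4_6 (s0_2 p3_28),
   s5_6 (s4_6 (s1_2 (s0_2 p3_28))),
   x7_6 (x7_5 (x7_4 (x3_2 (x3_1 (x3_0 (n6 (n5 p3_48))))))),
   s4_6 (s0_2 p3_25),
   p3_53,
   s5_6 (s1_2 p3_53),
   x7_6 (x7_5 (x7_4 (s4_6 (x3_2 (x3_1 (x3_0 (s0_2 (n5 (n4 p3_25)))))))))],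
  [x4_7 (x4_6 (x4_5 (s3_5 (s2_6 (s1_7 (x0_7 (x0_6 (x0_5 (s0_4 (n7 (n6 (n1 p1_62)))))))))))),
   s4_6 (s0_2 p3_60),
   s4_5 (s0_1 p3_60),
   p3_59,
   p3_60,
   s4_5 (s0_1 p3_59),
   s4_6 (s0_2 p3_59),
   x6_7 (x6_5 (x6_4 (s3_7 (x2_7 (x2_1 (x2_0 (s2_6 (s1_5 (s0_4 (n5 (n4 (n3 (n1 (n0 p6_31))))))))))))))]]

theorem k3 : eqNN c3 (slO 64 (D.chG 0 7) 8) = true := by decide +kernel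

end Pool.Agent.Lib.MP_afdd4d_co.K10.E6
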