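import Pool.Agent.Lib.MP_afdd4d_co.K10.E6.Dat
import Pool.Agent.Lib.MP_afdd4d_co.K10.E6.Mk
import Pool.Agent.Lib.MP_afdd4d_co.K8.F6Bl5
import Pool.Agent.Lib.MP_afdd4d_co.K10.E6.P0
import Pool.Agent.Lib.MP_afdd4d_co.K10.E6.P1
import Pool.Agent.Lib.MP_afdd4d_co.K10.E6.P2
import Pool.Agent.Lib.MP_afdd4d_co.K10.E6.P3
import Pool.Agent.Lib.MP_afdd4d_co.K10.E6.P4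
import Pool.Agent.Lib.MP_afdd4d_co.K10.E6.P5
import Pool.Agent.Lib.MP_afdd4d_co.K10.E6.P6
import Pool.Agent.Lib.MP_afdd4d_co.K10.E6.P7
import Pool.Agent.Lib.MP_afdd4d_co.K10.E6.P8
import Pool.Agent.Lib.MP_afdd4d_co.K10.E6.P9
import Pool.Agent.Lib.MP_afdd4d_co.K10.E6.P10
import Pool.Agent.Lib.MP_afdd4d_co.K10.E6.P11
import Pool.Agent.Lib.MP_afdd4d_co.K10.E6.P12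
import Pool.Agent.Lib.MP_afdd4d_co.K10.E6.P13
import Pool.Agent.Lib.MP_afdd4d_co.K10.E6.P14
import Pool.Agent.Lib.MP_afdd4d_co.K10.E6.P15
import Pool.Agent.Lib.MP_afdd4d_co.K10.E6.P16
import Pool.Agent.Lib.MP_afdd4d_co.K10.E6.P17
import Pool.Agent.Lib.MP_afdd4d_co.K10.E6.P18
import Pool.Agent.Lib.MP_afdd4d_co.K10.E6.P19
import Pool.Agent.Lib.MP_afdd4d_co.K10.E6.P20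
import Pool.Agent.Lib.MP_afdd4d_co.K10.E6.P21
import Pool.Agent.Lib.MP_afdd4d_co.K10.E6.P22
import Pool.Agent.Lib.MP_afdd4d_co.K10.E6.P23
import Pool.Agent.Lib.MP_afdd4d_co.K10.E6.P24
import Pool.Agent.Lib.MP_afdd4d_co.K10.E6.P25
import Pool.Agent.Lib.MP_afdd4d_co.K10.E6.P26
import Pool.Agent.Lib.MP_afdd4d_co.K10.E6.P27
import Pool.Agent.Lib.MP_afdd4d_co.K10.E6.P28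
import Pool.Agent.Lib.MP_afdd4d_co.K10.E6.P29
import Pool.Agent.Lib.MP_afdd4d_co.K10.E6.P30
import Pool.Agent.Lib.MP_afdd4d_co.K10.E6.P31
import Pool.Agent.Lib.MP_afdd4d_co.K10.E6.P32

/-!
# Tables
-/

namespace Pool.Agent.Lib.MP_afdd4d_co.K10.E6

open K8

set_option maxRecDepth 100000
set_option exponentiation.threshold 10000000

/-- The slices of the chunk 4. -/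
noncomputable def c4 : List (List ℕ) := [
  [x7_6 (x7_5 (x7_4 (x3_2 (x3_1 (x3_0 (tr (n4 p0_15))))))),
   tr p1_12,
   s3_7 (s2_5 (s1_6 (s0_4 p1_12))),
   tr p2_12,
   s3_7 (s2_4 (s1_5 (s0_6 p1_33))),
   s3_7 (s2_6 (s1_4 (s0_5 p2_18))),
   s5_6 (s4_6 (s3_7 (s2_4 (s1_6 (s0_5 p2_18))))),
   tr p3_12],
  [s3_5 (s2_6 (s1_7 (s0_4 p1_33))),
   s3_6 (s2_7 (s1_5 (s0_4 p2_18))),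
   s6_7 (s5_6 (s3_6 (s2_5 (s1_7 (s0_4 p2_18))))),
   x5_7 (x5_6 (x5_4 (s3_6 (s2_7 (x1_7 (x1_6 (x1_0 (s1_4 (s0_5 (n7 (n1 p1_60))))))))))),
   p4_12,
   tr p5_12,
   s3_7 (s2_5 (s1_6 (s0_4 p5_12))),
   p4_15],
  [s3_4 (s2_6 (s1_5 (s0_7 p1_12))),
   s3_6 (s2_7 (s1_4 (s0_5 p2_12))),
   p4_18,
   s3_6 (s2_7 (s1_5 (s0_4 p5_18))),
   s5_7 (s4_5 (s3_5 (s2_6 (s1_4 (s0_7 p2_18))))),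
   x4_7 (x4_6 (x4_5 (s3_7 (s2_6 (s1_5 (x0_7 (x0_6 (x0_5 (s0_4 (n7 (n1 p1_60))))))))))),
   s5_6 (s4_5 (s3_7 (s2_5 (s1_4 (s0_6 p5_33))))),
   p4_23],
  [s6_7 (s4_7 (s3_4 (s2_7 (s1_5 (s0_6 p2_18))))),
   s3_6 (s2_7 (s1_4 (s0_5 p3_12))),
   s6_7 (s5_7 (s3_5 (s2_7 (s1_6 (s0_4 p5_33))))),
   s6_7 (s4_5 (s2_3 (s0_1 p4_23))),
   s3_4 (s2_6 (s1_5 (s0_7 p5_12))),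
   s6_7 (s4_5 (s2_3 (s0_1 p4_15))),
   x4_7 (x4_6 (x4_5 (s3_5 (s2_6 (s1_7 (x0_7 (x0_6 (x0_5 (s0_4 (n5 (n2 (n1 p2_53)))))))))))),
   x6_7 (x6_5 (x6_4 (s3_7 (x2_7 (x2_1 (x2_0 (s2_4 (s1_5 (s0_6 (n5 (n2 (n1 p3_53))))))))))))],
  [s3_5 (s2_4 (s1_7 (s0_6 p1_12))),
   s5_6 (s1_2 p4_18),
   s3_5 (s2_4 (s1_7 (s0_6 p2_12))),
   s6_7 (s5_6 (s3_6 (s2_5 (s1_7 (s0_4 p5_18))))),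
   s6_7 (s4_5 (s3_5 (s2_4 (s1_6 (s0_7 p2_18))))),
   s3_7 (s2_4 (s1_5 (s0_6 p5_33))),
   x4_7 (x4_6 (x4_5 (s3_7 (s2_5 (s1_6 (x0_7 (x0_6 (x0_5 (s0_4 (n7 (n1 p1_60))))))))))),
   s5_6 (s1_2 p4_23)],
  [s6_7 (s4_5 (s3_4 (s2_5 (s1_7 (s0_6 p2_18))))),
   s3_5 (s2_6 (s1_7 (s0_4 p5_33))),
   s3_5 (s2_4 (s1_7 (s0_6 p3_12))),
   s6_7 (s5_7 (s4_5 (s2_3 (s1_3 (s0_1 p4_23))))),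
   s3_5 (s2_4 (s1_7 (s0_6 p5_12))),
   s6_7 (s5_7 (x4_7 (x4_6 (x4_5 (s3_5 (s2_7 (s1_6 (x0_7 (x0_6 (x0_5 (s0_4 (n5 (n2 (n1 p2_53)))))))))))))),
   s5_7 (s4_6 (s1_3 (s0_2 p4_15))),
   x7_6 (x7_5 (x7_4 (s5_7 (s4_7 (x3_2 (x3_1 (x3_0 (s3_4 (s2_6 (s1_7 (s0_5 (n5 (n2 (n1 p3_53))))))))))))))],
  [s3_4 (s2_6 (s1_5 (s0_7 p2_12))),
   s5_7 (s4_5 (s3_5 (s2_6 (s1_4 (s0_7 p5_18))))),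
   s6_7 (s4_5 (s3_5 (s2_4 (s1_6 (s0_7 p5_18))))),
   x4_7 (x4_6 (x4_5 (s3_7 (s2_6 (s1_5 (x0_7 (x0_6 (x0_5 (s0_4 (n7 (n2 (n1 p2_60)))))))))))),
   s3_4 (s2_6 (s1_5 (s0_7 p3_12))),
   s4_7 (s0_3 p4_23),
   s5_6 (s4_7 (s1_2 (s0_3 p4_23))),
   x4_7 (x4_6 (x4_5 (s3_7 (s2_6 (s1_5 (x0_7 (x0_6 (x0_5 (s0_4 (n7 (n2 (n1 p3_60))))))))))))],
  [x6_7 (x6_5 (x6_4 (s3_5 (x2_5 (x2_1 (x2_0 (s2_4 (s1_7 (s0_6 (n7 (n1 p1_60))))))))))),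
   s6_7 (s5_6 (s4_6 (s2_3 (s1_2 (s0_2 p4_23))))),
   s5_7 (s4_6 (s1_3 (s0_2 p4_23))),
   x5_7 (x5_6 (x5_4 (s3_6 (s2_7 (x1_7 (x1_6 (x1_0 (s1_4 (s0_5 (n7 (n2 (n1 p3_60)))))))))))),
   s4_7 (s0_3 p4_15),
   s6_7 (s5_7 (x4_7 (x4_6 (x4_5 (s3_5 (s2_7 (s1_6 (x0_7 (x0_6 (x0_5 (s0_4 (n5 (n2 (n1 p3_53)))))))))))))),
   x4_7 (x4_6 (x4_5 (s3_5 (s2_6 (s1_7 (x0_7 (x0_6 (x0_5 (s0_4 (n5 (n2 (n1 p3_53)))))))))))),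
   x7_6 (x7_5 (x7_4 (x3_2 (x3_1 (x3_0 (tr (n4 (n2 (n1 (n0 p6_15))))))))))]]

theorem k4 : eqNN c4 (slO 64 (D.chG 0 12) 8) = true := by decide +kernel

/-- The slices of the chunk 5. -/
noncomputable def c5 : List (List ℕ) := [
  [tr p0_13,
   x6_7 (x6_5 (x6_4 (s3_7 (x2_7 (x2_1 (x2_0 (s2_6 (s1_5 (s0_4 (n5 p1_28)))))))))),
   s5_6 (s4_7 (s3_6 (s2_4 (s1_7 (s0_5 p1_28))))),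
   p5_3,
   s5_7 (s4_6 (s3_6 (s2_5 (s1_4 (s0_7 p1_41))))),
   x7_6 (x7_5 (x7_4 (s5_6 (s4_5 (x3_2 (x3_1 (x3_0 (s3_7 (s2_5 (s1_4 (s0_6 (n6 p2_37)))))))))))),
   s3_7 (s2_4 (s1_5 (s0_6 p2_37))),
   p5_7],
  [s3_5 (s2_6 (s1_7 (s0_4 p1_41))),
   x5_7 (x5_6 (x5_4 (s3_7 (s2_6 (x1_7 (x1_6 (x1_0 (s1_5 (s0_4 (n6 (n4 (n0 p2_37)))))))))))),
   x6_7 (x6_5 (x6_4 (s3_7 (x2_7 (x2_1 (x2_0 (s2_6 (s1_5 (s0_4 (n5 (n0 p2_28))))))))))),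
   x5_7 (x5_6 (x5_4 (s3_6 (s2_7 (x1_7 (x1_6 (x1_0 (s1_4 (s0_5 (n7 (n5 (n1 p1_41)))))))))))),
   p5_12,
   p5_13,
   x6_7 (x6_5 (x6_4 (s4_7 (x2_3 (x2_1 (x2_0 (s0_3 (n7 (n5 (n1 p5_37)))))))))),
   x7_6 (x7_5 (x7_4 (s5_6 (x3_2 (x3_1 (x3_0 (s1_2 (n4 (n0 p5_12)))))))))],
  [s3_4 (s2_6 (s1_5 (s0_7 p1_28))),
   s6_7 (s4_5 (s2_3 (s0_1 p5_3))),
   p5_18,
   x7_6 (x7_5 (x7_4 (s5_6 (x3_2 (x3_1 (x3_0 (s1_2 (n6 (n0 p5_37))))))))),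
   x7_6 (x7_5 (x7_4 (x3_2 (x3_1 (x3_0 (s3_6 (s2_7 (s1_4 (s0_5 (n5 (n0 p2_28))))))))))),
   x4_7 (x4_6 (x4_5 (s3_7 (s2_6 (s1_5 (x0_7 (x0_6 (x0_5 (s0_4 (n7 (n5 (n1 p1_41)))))))))))),
   p5_22,
   x7_6 (x7_5 (x7_4 (s5_6 (x3_2 (x3_1 (x3_0 (s1_2 (n6 (n0 p5_33)))))))))],
  [s5_7 (s4_6 (s3_4 (s2_7 (s1_6 (s0_5 p2_37))))),
   s6_7 (s4_5 (s2_3 (s0_1 p5_7))),
   s6_7 (s4_5 (s2_3 (s0_1 p5_22))),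
   x6_7 (x6_5 (x6_4 (s4_7 (x2_3 (x2_1 (x2_0 (s0_3 (n7 (n1 p5_33))))))))),
   s5_7 (x4_7 (x4_6 (x4_5 (s1_3 (x0_3 (x0_2 (x0_1 (n5 (n3 (n1 p5_37)))))))))),
   x6_7 (x6_5 (x6_4 (s4_7 (x2_3 (x2_1 (x2_0 (s0_3 (n5 (n1 p5_12))))))))),
   s5_7 (x4_7 (x4_6 (x4_5 (s1_3 (x0_3 (x0_2 (x0_1 (n6 (n5 (n3 (n1 p5_3))))))))))),
   x6_7 (x6_5 (x6_4 (s3_7 (x2_7 (x2_1 (x2_0 (s2_6 (s1_5 (s0_4 (n5 (n1 (n0 p3_28))))))))))))],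
  [x7_6 (x7_5 (x7_4 (x4_7 (x4_6 (x4_5 (x3_2 (x3_1 (x3_0 (s3_7 (s2_5 (s1_6 (x0_7 (x0_6 (x0_5 (s0_4 (n6 (n4 p1_41))))))))))))))))),
   p5_33,
   s5_6 (s4_7 (s3_6 (s2_4 (s1_7 (s0_5 p2_28))))),
   s5_6 (s4_6 (s3_7 (s2_4 (s1_6 (s0_5 p5_22))))),
   x5_7 (x5_6 (x5_4 (s4_6 (x1_3 (x1_2 (x1_0 (s0_2 (n4 (n2 (n0 p5_3)))))))))),
   p5_37,
   x7_6 (x7_5 (x7_4 (x3_2 (x3_1 (x3_0 (s3_4 (s2_5 (s1_6 (s0_7 (n7 (n1 p1_28))))))))))),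
   x7_6 (x7_5 (x7_4 (s5_6 (x3_2 (x3_1 (x3_0 (s1_2 (n5 (n0 p5_18)))))))))],
  [x6_7 (x6_5 (x6_4 (s4_7 (x2_3 (x2_1 (x2_0 (s0_3 (n4 (n1 p5_3))))))))),
   s6_7 (s4_5 (s2_3 (s0_1 p5_37))),
   s5_6 (s4_7 (s3_6 (s2_4 (s1_7 (s0_5 p3_28))))),
   x5_7 (x5_6 (x5_4 (s4_6 (x1_3 (x1_2 (x1_0 (s0_2 (n6 (n2 (n0 p5_12)))))))))),
   x6_7 (x6_5 (x6_4 (s4_7 (x2_3 (x2_1 (x2_0 (s0_3 (n5 (n4 (n1 p5_22)))))))))),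
   x7_6 (x7_5 (x7_4 (s5_7 (s4_7 (x3_2 (x3_1 (x3_0 (s3_4 (s2_6 (s1_7 (s0_5 (n5 (n2 (n1 p2_37)))))))))))))),
   x5_7 (x5_6 (x5_4 (s4_6 (x1_3 (x1_2 (x1_0 (s0_2 (n4 (n2 (n0 p5_33)))))))))),
   x5_7 (x5_6 (x5_4 (s4_6 (x1_3 (x1_2 (x1_0 (s0_2 (n6 (n4 (n2 (n0 p5_7)))))))))))],
  [s3_4 (s2_6 (s1_5 (s0_7 p2_28))),
   s6_7 (s4_7 (s3_4 (s2_7 (s1_5 (s0_6 p5_22))))),
   p5_50,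
   x6_7 (x6_5 (x6_4 (s3_5 (x2_5 (x2_1 (x2_0 (s2_4 (s1_7 (s0_6 (n7 (n2 (n1 p2_28)))))))))))),
   s3_4 (s2_6 (s1_5 (s0_7 p3_28))),
   s5_7 (x4_7 (x4_6 (x4_5 (s1_3 (x0_3 (x0_2 (x0_1 (n7 (n3 (n1 p5_12)))))))))),
   s5_7 (x4_7 (x4_6 (x4_5 (s1_3 (x0_3 (x0_2 (x0_1 (n6 (n3 (n1 p5_18)))))))))),
   x7_6 (x7_5 (x7_4 (x3_2 (x3_1 (x3_0 (s3_4 (s2_5 (s1_6 (s0_7 (n7 (n2 (n1 p3_28))))))))))))],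
  [x6_7 (x6_5 (x6_4 (s3_5 (x2_5 (x2_1 (x2_0 (s2_4 (s1_7 (s0_6 (n7 (n1 p1_28))))))))))),
   x6_7 (x6_5 (x6_4 (s4_7 (x2_3 (x2_1 (x2_0 (s0_3 (n4 (n1 p5_18))))))))),
   x5_7 (x5_6 (x5_4 (s4_6 (x1_3 (x1_2 (x1_0 (s0_2 (n7 (n2 (n0 p5_18)))))))))),
   x6_7 (x6_5 (x6_4 (s3_5 (x2_5 (x2_1 (x2_0 (s2_4 (s1_7 (s0_6 (n7 (n2 (n1 p3_28)))))))))))),
   s5_7 (x4_7 (x4_6 (x4_5 (s1_3 (x0_3 (x0_2 (x0_1 (n5 (n3 (n1 p5_33)))))))))),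
   x6_7 (x6_5 (x6_4 (s4_7 (x2_3 (x2_1 (x2_0 (s0_3 (n5 (n4 (n1 p5_7)))))))))),
   s5_7 (x4_7 (x4_6 (x4_5 (s1_3 (x0_3 (x0_2 (x0_1 (n6 (n5 (n3 (n1 p5_7))))))))))),
   tr p6_13]]

theorem k5 : eqNN c5 (slO 64 (D.chG 0 13) 8) = true := by decide +kernel

/-- The slices of the chunk 6. -/
noncomputable def c6 : List (List ℕ) := [
  [tr p0_63,
   p6_1,
   s5_6 (s1_2 p6_1),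
   p6_3,
   s4_6 (s0_2 p6_1),
   s4_5 (s0_1 p6_3),
   s4_6 (s0_2 p6_3),
   x6_7 (x6_5 (x6_4 (x2_3 (x2_1 (x2_0 (n5 (n4 (n3 (n1 (n0 p6_31))))))))))],
  [s5_7 (s1_3 p6_1),
   s6_7 (s2_3 p6_3),
   s5_7 (s1_3 p6_3),
   x5_7 (x5_6 (x5_4 (x1_3 (x1_2 (x1_0 (n4 (n3 (n2 (n0 p6_1))))))))),
   x7_6 (x7_5 (x7_4 (x3_2 (x3_1 (x3_0 (n4 (n2 (n1 (n0 p6_15))))))))),
   p6_13,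
   s5_6 (s1_2 p6_13),
   p6_15],
  [s4_7 (s0_3 p6_1),
   s6_7 (s4_5 (s2_3 (s0_1 p6_3))),
   x7_6 (x7_5 (x7_4 (s4_5 (x3_2 (x3_1 (x3_0 (s0_1 (n4 (n2 (n1 (n0 p6_15))))))))))),
   s6_7 (s2_3 p6_13),
   s5_7 (s4_7 (s1_3 (s0_3 p6_3))),
   x4_7 (x4_6 (x4_5 (x0_3 (x0_2 (x0_1 (n5 (n3 (n2 (n1 p6_1))))))))),
   s5_6 (s4_6 (s1_2 (s0_2 p6_13))),
   s4_5 (s0_1 p6_15)],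
  [s6_7 (s4_6 (s2_3 (s0_2 p6_3))),
   x7_6 (x7_5 (x7_4 (x3_2 (x3_1 (x3_0 (n5 (n4 (n2 (n1 (n0 p6_31)))))))))),
   s6_7 (s5_6 (s2_3 (s1_2 p6_13))),
   s6_7 (s2_3 p6_15),
   s4_7 (s0_3 p6_13),
   s6_7 (s4_5 (s2_3 (s0_1 p6_15))),
   s5_7 (x4_7 (x4_6 (x4_5 (s1_3 (x0_3 (x0_2 (x0_1 (n6 (n5 (n3 (n2 (n1 p6_3)))))))))))),
   p6_31],
  [s5_7 (s4_6 (s1_3 (s0_2 p6_1))),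
   x7_6 (x7_5 (x7_4 (s4_6 (x3_2 (x3_1 (x3_0 (s0_2 (n4 (n2 (n1 (n0 p6_15))))))))))),
   s5_7 (s4_6 (s1_3 (s0_2 p6_3))),
   s6_7 (s5_7 (s2_3 (s1_3 p6_13))),
   s6_7 (s4_7 (s2_3 (s0_3 p6_3))),
   s4_6 (s0_2 p6_13),
   s5_6 (x4_7 (x4_6 (x4_5 (s1_2 (x0_3 (x0_2 (x0_1 (n5 (n3 (n2 (n1 p6_1))))))))))),
   s4_6 (s0_2 p6_15)],
  [s5_7 (s4_5 (s1_3 (s0_1 p6_3))),
   s5_7 (s1_3 p6_13),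
   x6_7 (x6_5 (x6_4 (s5_7 (x2_3 (x2_1 (x2_0 (s1_3 (n5 (n4 (n3 (n1 (n0 p6_31)))))))))))),
   s5_7 (s1_3 p6_15),
   s5_7 (s4_6 (s1_3 (s0_2 p6_13))),
   s6_7 (x4_7 (x4_6 (x4_5 (s2_3 (x0_3 (x0_2 (x0_1 (n6 (n5 (n3 (n2 (n1 p6_3)))))))))))),
   s5_7 (s4_6 (s1_3 (s0_2 p6_15))),
   s5_6 (s1_2 p6_31)],
  [s4_7 (s0_3 p6_3),
   s5_7 (s4_7 (s1_3 (s0_3 p6_13))),
   s6_7 (s5_6 (s4_7 (s2_3 (s1_2 (s0_3 p6_13))))),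
   x4_7 (x4_6 (x4_5 (x0_3 (x0_2 (x0_1 (n6 (n5 (n3 (n2 (n1 p6_3)))))))))),
   x6_7 (x6_5 (x6_4 (s4_7 (x2_3 (x2_1 (x2_0 (s0_3 (n5 (n4 (n3 (n1 (n0 p6_31)))))))))))),
   s5_7 (s4_7 (s1_3 (s0_3 p6_15))),
   s6_7 (s4_7 (s2_3 (s0_3 p6_15))),
   s4_6 (s0_2 p6_31)],
  [s5_7 (x4_7 (x4_6 (x4_5 (s1_3 (x0_3 (x0_2 (x0_1 (n5 (n3 (n2 (n1 p6_1))))))))))),
   s6_7 (s4_6 (s2_3 (s0_2 p6_15))),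
   s5_7 (s4_5 (s1_3 (s0_1 p6_15))),
   s5_7 (s1_3 p6_31),
   s4_7 (s0_3 p6_15),
   s4_7 (s0_3 p6_31),
   s5_7 (s4_6 (s1_3 (s0_2 p6_31))),
   p6_63]]

theorem k6 : eqNN c6 (slO 64 (D.chG 0 63) 8) = true := by decide +kernel

/-- The slices of the chunk 7. -/
noncomputable def c7 : List (List ℕ) := [
  [p7_0,
   p7_1,
   s5_6 (s1_2 p7_1),
   p7_3,
   s4_6 (s0_2 p7_1),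
   s4_5 (s0_1 p7_3),
   s4_6 (s0_2 p7_3),
   p7_7],
  [p7_8,
   p7_9,
   s5_6 (s1_2 p7_9),
   x7_6 (x7_5 (x7_4 (x3_2 (x3_1 (x3_0 (n4 p7_8)))))),
   p7_12,
   p7_13,
   s5_6 (s1_2 p7_13),
   x7_6 (x7_5 (x7_4 (x3_2 (x3_1 (x3_0 (n4 p7_12))))))],
  [s4_5 (s0_1 p7_8),
   s4_5 (s0_1 p7_9),
   s4_5 (s0_1 p7_12),
   s4_5 (s0_1 p7_13),
   s5_6 (s4_6 (s1_2 (s0_2 p7_9))),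
   x7_6 (x7_5 (x7_4 (s4_5 (x3_2 (x3_1 (x3_0 (s0_1 (n4 p7_8)))))))),
   s5_6 (s4_6 (s1_2 (s0_2 p7_13))),
   x7_6 (x7_5 (x7_4 (s4_5 (x3_2 (x3_1 (x3_0 (s0_1 (n4 p7_12))))))))],
  [p7_24,
   p7_25,
   p7_26,
   p7_27,
   s4_5 (s0_1 p7_26),
   s4_5 (s0_1 p7_27),
   x7_6 (x7_5 (x7_4 (x3_2 (x3_1 (x3_0 (n5 (n4 p7_24))))))),
   x7_6 (x7_5 (x7_4 (x3_2 (x3_1 (x3_0 (n5 (n4 p7_25)))))))],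
  [s4_6 (s0_2 p7_8),
   s4_6 (s0_2 p7_12),
   s5_6 (s4_5 (s1_2 (s0_1 p7_9))),
   s5_6 (s4_5 (s1_2 (s0_1 p7_13))),
   s4_6 (s0_2 p7_9),
   s4_6 (s0_2 p7_13),
   x7_6 (x7_5 (x7_4 (s4_6 (x3_2 (x3_1 (x3_0 (s0_2 (n4 p7_8)))))))),
   x7_6 (x7_5 (x7_4 (s4_6 (x3_2 (x3_1 (x3_0 (s0_2 (n4 p7_12))))))))],
  [s5_6 (s1_2 p7_24),
   s5_6 (s1_2 p7_26),
   s5_6 (s1_2 p7_25),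
   s5_6 (s1_2 p7_27),
   s5_6 (s4_5 (s1_2 (s0_1 p7_26))),
   x7_6 (x7_5 (x7_4 (s5_6 (x3_2 (x3_1 (x3_0 (s1_2 (n5 (n4 p7_24))))))))),
   s5_6 (s4_5 (s1_2 (s0_1 p7_27))),
   x7_6 (x7_5 (x7_4 (s5_6 (x3_2 (x3_1 (x3_0 (s1_2 (n5 (n4 p7_25)))))))))],
  [s4_6 (s0_2 p7_24),
   s5_6 (s4_6 (s1_2 (s0_2 p7_26))),
   s4_6 (s0_2 p7_26),
   x7_6 (x7_5 (x7_4 (s4_6 (x3_2 (x3_1 (x3_0 (s0_2 (n5 (n4 p7_24))))))))),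
   s4_6 (s0_2 p7_25),
   s5_6 (s4_6 (s1_2 (s0_2 p7_27))),
   s4_6 (s0_2 p7_27),
   x7_6 (x7_5 (x7_4 (s4_6 (x3_2 (x3_1 (x3_0 (s0_2 (n5 (n4 p7_25)))))))))],
  [p7_56,
   p7_57,
   s5_6 (s1_2 p7_57),
   p7_59,
   s4_6 (s0_2 p7_57),
   s4_5 (s0_1 p7_59),
   s4_6 (s0_2 p7_59),
   p7_63]]

theorem k7 : eqNN c7 (slO 64 (D.chG 1 0) 8) = true := by decide +kernel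

end Pool.Agent.Lib.MP_afdd4d_co.K10.E6
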