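import Pool.Agent.Lib.MP_afdd4d_co.K10.E6.Dat
import Pool.Agent.Lib.MP_afdd4d_co.K10.E6.Mk
import Pool.Agent.Lib.MP_afdd4d_co.K8.F6Bl5
import Pool.Agent.Lib.MP_afdd4d_co.K10.E6.P0
import Pool.Agent.Lib.MP_afdd4d_co.K10.E6.P1
import Pool.Agent.Lib.MP_afdd4d_co.K10.E6.P2
import Pool.Agent.Lib.MP_afdd4d_co.K10.E6.P3
import Pool.Agent.Lib.MP_afdd4d_co.K10.E6.P4
import Pool.Agent.Lib.MP_afdd4d_co.K10.E6.P5
import Pool.Agent.Lib.MP_afdd4d_co.K10.E6.P6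
import Pool.Agent.Lib.MP_afdd4d_co.K10.E6.P7
import Pool.Agent.Lib.MP_afdd4d_co.K10.E6.P8
import Pool.Agent.Lib.MP_afdd4d_co.K10.E6.P9
import Pool.Agent.Lib.MP_afdd4d_co.K10.E6.P10
import Pool.Agent.Lib.MP_afdd4d_co.K10.E6.P11
import Pool.Agent.Lib.MP_afdd4d_co.K10.E6.P12
import Pool.Agent.Lib.MP_afdd4d_co.K10.E6.P13
import Pool.Agent.Lib.MP_afdd4d_co.K10.E6.P14
import Pool.Agent.Lib.MP_afdd4d_co.K10.E6.P15
import Pool.Agent.Lib.MP_afdd4d_co.K10.E6.P16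
import Pool.Agent.Lib.MP_afdd4d_co.K10.E6.P17
import Pool.Agent.Lib.MP_afdd4d_co.K10.E6.P18
import Pool.Agent.Lib.MP_afdd4d_co.K10.E6.P19
import Pool.Agent.Lib.MP_afdd4d_co.K10.E6.P20
import Pool.Agent.Lib.MP_afdd4d_co.K10.E6.P21
import Pool.Agent.Lib.MP_afdd4d_co.K10.E6.P22
import Pool.Agent.Lib.MP_afdd4d_co.K10.E6.P23
import Pool.Agent.Lib.MP_afdd4d_co.K10.E6.P24
import Pool.Agent.Lib.MP_afdd4d_co.K10.E6.P25
import Pool.Agent.Lib.MP_afdd4d_co.K10.E6.P26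
import Pool.Agent.Lib.MP_afdd4d_co.K10.E6.P27
import Pool.Agent.Lib.MP_afdd4d_co.K10.E6.P28
import Pool.Agent.Lib.MP_afdd4d_co.K10.E6.P29
import Pool.Agent.Lib.MP_afdd4d_co.K10.E6.P30
import Pool.Agent.Lib.MP_afdd4d_co.K10.E6.P31
import Pool.Agent.Lib.MP_afdd4d_co.K10.E6.P32

/-!
# Tables
-/

namespace Pool.Agent.Lib.MP_afdd4d_co.K10.E6

open K8

set_option maxRecDepth 100000
set_option exponentiation.threshold 10000000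

/-- The slices of the chunk 40. -/
noncomputable def c40 : List (List ℕ) := [
  [tr p23_35,
   tr p24_35,
   tr p25_35,
   tr p26_35,
   s3_7 (s2_6 (s1_4 (s0_5 p25_37))),
   s3_7 (s2_6 (s1_4 (s0_5 p26_37))),
   tr p27_35,
   tr p28_35],
  [s3_6 (s2_7 (s1_5 (s0_4 p25_41))),
   s3_6 (s2_7 (s1_5 (s0_4 p26_41))),
   tr p29_35,
   tr p30_35,
   tr p31_35,
   tr p32_35,
   tr p33_35,
   tr p34_35],
  [s3_6 (s2_7 (s1_4 (s0_5 p25_49))),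
   s3_6 (s2_7 (s1_4 (s0_5 p26_49))),
   s3_7 (s2_6 (s1_4 (s0_5 p31_37))),
   s3_7 (s2_6 (s1_4 (s0_5 p32_37))),
   s3_7 (s2_6 (s1_4 (s0_5 p29_37))),
   s3_7 (s2_6 (s1_4 (s0_5 p30_37))),
   s3_7 (s2_6 (s1_4 (s0_5 p33_37))),
   s3_7 (s2_6 (s1_4 (s0_5 p34_37)))],
  [s3_6 (s2_7 (s1_5 (s0_4 p27_41))),
   s3_6 (s2_7 (s1_5 (s0_4 p28_41))),
   s3_6 (s2_7 (s1_5 (s0_4 p33_41))),
   s3_6 (s2_7 (s1_5 (s0_4 p34_41))),
   s3_6 (s2_7 (s1_4 (s0_5 p33_49))),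
   s3_6 (s2_7 (s1_4 (s0_5 p34_49))),
   tr p35_35,
   tr p36_35],
  [tr p37_35,
   tr p38_35,
   tr p39_35,
   p40_35,
   s3_7 (s2_6 (s1_4 (s0_5 p39_37))),
   p40_37,
   tr p41_35,
   tr p42_35],
  [s3_6 (s2_7 (s1_5 (s0_4 p39_41))),
   p40_41,
   tr p43_35,
   tr p44_35,
   p40_44,
   p40_45,
   p40_46,
   p40_47],
  [s3_6 (s2_7 (s1_4 (s0_5 p39_49))),
   p40_49,
   p40_50,
   p40_51,
   s3_7 (s2_6 (s1_4 (s0_5 p43_37))),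
   s3_7 (s2_6 (s1_4 (s0_5 p44_37))),
   p40_54,
   p40_55],
  [s3_6 (s2_7 (s1_5 (s0_4 p41_41))),
   s3_6 (s2_7 (s1_5 (s0_4 p42_41))),
   p40_58,
   p40_59,
   p40_60,
   p40_61,
   tr p49_35,
   tr p50_35]]

theorem k40 : eqNN c40 (slO 64 (D.chG 3 35) 8) = true := by decide +kernel

/-- The slices of the chunk 41. -/
noncomputable def c41 : List (List ℕ) := [
  [tr p23_38,
   tr p24_38,
   p41_2,
   p41_3,
   s4_5 (s0_1 p41_2),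
   s4_5 (s0_1 p41_3),
   tr p27_38,
   tr p28_38],
  [p41_8,
   p41_9,
   tr p29_38,
   tr p30_38,
   p41_12,
   p41_13,
   p41_14,
   p41_15],
  [s4_5 (s0_1 p41_8),
   s4_5 (s0_1 p41_9),
   s4_5 (s0_1 p41_12),
   s4_5 (s0_1 p41_13),
   s3_7 (s2_6 (s1_4 (s0_5 p29_38))),
   s3_7 (s2_6 (s1_4 (s0_5 p30_38))),
   s4_5 (s0_1 p41_14),
   s4_5 (s0_1 p41_15)],
  [s3_6 (s2_7 (s1_5 (s0_4 p27_56))),
   s3_6 (s2_7 (s1_5 (s0_4 p28_56))),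
   p41_26,
   p41_27,
   s4_5 (s0_1 p41_26),
   s4_5 (s0_1 p41_27),
   tr p35_38,
   tr p36_38],
  [tr p37_38,
   tr p38_38,
   p41_34,
   p41_35,
   s4_5 (s0_1 p41_34),
   s4_5 (s0_1 p41_35),
   p41_38,
   p41_39],
  [p41_40,
   p41_41,
   p41_42,
   p41_43,
   p41_44,
   p41_45,
   p41_46,
   p41_47],
  [s4_5 (s0_1 p41_40),
   s4_5 (s0_1 p41_41),
   s4_5 (s0_1 p41_44),
   s4_5 (s0_1 p41_45),
   s4_5 (s0_1 p41_42),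
   s4_5 (s0_1 p41_43),
   s4_5 (s0_1 p41_46),
   s4_5 (s0_1 p41_47)],
  [p41_56,
   p41_57,
   p41_58,
   p41_59,
   s4_5 (s0_1 p41_58),
   s4_5 (s0_1 p41_59),
   tr p49_38,
   tr p50_38]]

theorem k41 : eqNN c41 (slO 64 (D.chG 3 38) 8) = true := by decide +kernel

/-- The slices of the chunk 42. -/
noncomputable def c42 : List (List ℕ) := [
  [tr p23_39,
   tr p24_39,
   p42_2,
   p42_3,
   s4_5 (s0_1 p42_2),
   s4_5 (s0_1 p42_3),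
   tr p27_39,
   tr p28_39],
  [p42_8,
   p42_9,
   tr p29_39,
   tr p30_39,
   p42_12,
   p42_13,
   p42_14,
   p42_15],
  [s4_5 (s0_1 p42_8),
   s4_5 (s0_1 p42_9),
   s4_5 (s0_1 p42_12),
   s4_5 (s0_1 p42_13),
   s3_7 (s2_6 (s1_4 (s0_5 p29_39))),
   s3_7 (s2_6 (s1_4 (s0_5 p30_39))),
   s4_5 (s0_1 p42_14),
   s4_5 (s0_1 p42_15)],
  [s3_6 (s2_7 (s1_5 (s0_4 p27_57))),
   s3_6 (s2_7 (s1_5 (s0_4 p28_57))),
   p42_26,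
   p42_27,
   s4_5 (s0_1 p42_26),
   s4_5 (s0_1 p42_27),
   tr p35_39,
   tr p36_39],
  [tr p37_39,
   tr p38_39,
   p42_34,
   p42_35,
   s4_5 (s0_1 p42_34),
   s4_5 (s0_1 p42_35),
   tr p41_39,
   p42_39],
  [p42_40,
   p42_41,
   p42_42,
   p42_43,
   p42_44,
   p42_45,
   p42_46,
   p42_47],
  [s4_5 (s0_1 p42_40),
   s4_5 (s0_1 p42_41),
   s4_5 (s0_1 p42_44),
   s4_5 (s0_1 p42_45),
   s4_5 (s0_1 p42_42),
   s4_5 (s0_1 p42_43),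
   s4_5 (s0_1 p42_46),
   s4_5 (s0_1 p42_47)],
  [s3_6 (s2_7 (s1_5 (s0_4 p41_57))),
   p42_57,
   p42_58,
   p42_59,
   s4_5 (s0_1 p42_58),
   s4_5 (s0_1 p42_59),
   tr p49_39,
   tr p50_39]]

theorem k42 : eqNN c42 (slO 64 (D.chG 3 39) 8) = true := by decide +kernel

/-- The slices of the chunk 43. -/
noncomputable def c43 : List (List ℕ) := [
  [tr p23_42,
   tr p24_42,
   p43_2,
   p43_3,
   p43_4,
   p43_5,
   tr p27_42,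
   tr p28_42],
  [s6_7 (s2_3 p43_2),
   s6_7 (s2_3 p43_3),
   tr p29_42,
   tr p30_42,
   p43_12,
   p43_13,
   p43_14,
   p43_15],
  [s6_7 (s2_3 p43_4),
   s6_7 (s2_3 p43_5),
   s6_7 (s2_3 p43_12),
   s6_7 (s2_3 p43_13),
   s3_7 (s2_6 (s1_4 (s0_5 p29_52))),
   s3_7 (s2_6 (s1_4 (s0_5 p30_52))),
   p43_22,
   p43_23],
  [s3_6 (s2_7 (s1_5 (s0_4 p27_42))),
   s3_6 (s2_7 (s1_5 (s0_4 p28_42))),
   s6_7 (s2_3 p43_14),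
   s6_7 (s2_3 p43_15),
   s6_7 (s2_3 p43_22),
   s6_7 (s2_3 p43_23),
   tr p35_42,
   tr p36_42],
  [tr p37_42,
   tr p38_42,
   p43_34,
   p43_35,
   p43_36,
   p43_37,
   tr p41_42,
   tr p42_42],
  [s6_7 (s2_3 p43_34),
   s6_7 (s2_3 p43_35),
   p43_42,
   p43_43,
   p43_44,
   p43_45,
   p43_46,
   p43_47],
  [s6_7 (s2_3 p43_36),
   s6_7 (s2_3 p43_37),
   s6_7 (s2_3 p43_44),
   s6_7 (s2_3 p43_45),
   p43_52,
   p43_53,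
   p43_54,
   p43_55],
  [s3_6 (s2_7 (s1_5 (s0_4 p41_42))),
   s3_6 (s2_7 (s1_5 (s0_4 p42_42))),
   s6_7 (s2_3 p43_46),
   s6_7 (s2_3 p43_47),
   s6_7 (s2_3 p43_54),
   s6_7 (s2_3 p43_55),
   tr p49_42,
   tr p50_42]]

theorem k43 : eqNN c43 (slO 64 (D.chG 3 42) 8) = true := by decide +kernel

end Pool.Agent.Lib.MP_afdd4d_co.K10.E6
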