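import Pool.Agent.Lib.MP_afdd4d_co.K10.E6.Dat
import Pool.Agent.Lib.MP_afdd4d_co.K10.E6.Mk
import Pool.Agent.Lib.MP_afdd4d_co.K8.F6Bl5
import Pool.Agent.Lib.MP_afdd4d_co.K10.E6.P0
import Pool.Agent.Lib.MP_afdd4d_co.K10.E6.P1
import Pool.Agent.Lib.MP_afdd4d_co.K10.E6.P2
import Pool.Agent.Lib.MP_afdd4d_co.K10.E6.P3
import Pool.Agent.Lib.MP_afdd4d_co.K10.E6.P4
import Pool.Agent.Lib.MP_afdd4d_co.K10.E6.P5
import Pool.Agent.Lib.MP_afdd4d_co.K10.E6.P6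
import Pool.Agent.Lib.MP_afdd4d_co.K10.E6.P7
import Pool.Agent.Lib.MP_afdd4d_co.K10.E6.P8
import Pool.Agent.Lib.MP_afdd4d_co.K10.E6.P9
import Pool.Agent.Lib.MP_afdd4d_co.K10.E6.P10
import Pool.Agent.Lib.MP_afdd4d_co.K10.E6.P11
import Pool.Agent.Lib.MP_afdd4d_co.K10.E6.P12
import Pool.Agent.Lib.MP_afdd4d_co.K10.E6.P13
import Pool.Agent.Lib.MP_afdd4d_co.K10.E6.P14
import Pool.Agent.Lib.MP_afdd4d_co.K10.E6.P15
import Pool.Agent.Lib.MP_afdd4d_co.K10.E6.P16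
import Pool.Agent.Lib.MP_afdd4d_co.K10.E6.P17
import Pool.Agent.Lib.MP_afdd4d_co.K10.E6.P18
import Pool.Agent.Lib.MP_afdd4d_co.K10.E6.P19
import Pool.Agent.Lib.MP_afdd4d_co.K10.E6.P20
import Pool.Agent.Lib.MP_afdd4d_co.K10.E6.P21
import Pool.Agent.Lib.MP_afdd4d_co.K10.E6.P22
import Pool.Agent.Lib.MP_afdd4d_co.K10.E6.P23
import Pool.Agent.Lib.MP_afdd4d_co.K10.E6.P24
import Pool.Agent.Lib.MP_afdd4d_co.K10.E6.P25
import Pool.Agent.Lib.MP_afdd4d_co.K10.E6.P26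
import Pool.Agent.Lib.MP_afdd4d_co.K10.E6.P27
import Pool.Agent.Lib.MP_afdd4d_co.K10.E6.P28
import Pool.Agent.Lib.MP_afdd4d_co.K10.E6.P29
import Pool.Agent.Lib.MP_afdd4d_co.K10.E6.P30
import Pool.Agent.Lib.MP_afdd4d_co.K10.E6.P31
import Pool.Agent.Lib.MP_afdd4d_co.K10.E6.P32

/-!
# Tables
-/

namespace Pool.Agent.Lib.MP_afdd4d_co.K10.E6

open K8

set_option maxRecDepth 100000
set_option exponentiation.threshold 10000000

/-- The slices of the chunk 400. -/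
noncomputable def c400 : List (List ℕ) := [
  [tr p380_24,
   tr p381_24,
   s3_7 (s2_5 (s1_6 (s0_4 p381_40))),
   tr p382_24,
   tr p383_24,
   tr p384_24,
   s3_7 (s2_5 (s1_6 (s0_4 p384_40))),
   tr p385_24],
  [tr p386_24,
   tr p387_24,
   s3_7 (s2_5 (s1_6 (s0_4 p387_40))),
   tr p388_24,
   tr p389_24,
   tr p390_24,
   s3_7 (s2_5 (s1_6 (s0_4 p390_40))),
   tr p391_24],
  [tr p392_24,
   tr p393_24,
   tr p394_24,
   tr p395_24,
   tr p396_24,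
   tr p397_24,
   tr p398_24,
   tr p399_24],
  [p400_24,
   p400_25,
   p400_26,
   p400_27,
   p400_28,
   p400_29,
   p400_30,
   p400_31],
  [s3_7 (s2_5 (s1_6 (s0_4 p392_40))),
   s3_7 (s2_5 (s1_6 (s0_4 p394_40))),
   s3_7 (s2_5 (s1_6 (s0_4 p393_40))),
   s3_7 (s2_5 (s1_6 (s0_4 p395_40))),
   s3_7 (s2_5 (s1_6 (s0_4 p396_40))),
   s3_7 (s2_5 (s1_6 (s0_4 p398_40))),
   s3_7 (s2_5 (s1_6 (s0_4 p397_40))),
   s3_7 (s2_5 (s1_6 (s0_4 p399_40)))],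
  [p400_40,
   p400_41,
   p400_42,
   p400_43,
   p400_44,
   p400_45,
   p400_46,
   p400_47],
  [tr p408_24,
   p400_49,
   p400_50,
   tr p410_24,
   tr p411_24,
   p400_53,
   p400_54,
   tr p413_24],
  [tr p414_24,
   p400_57,
   p400_58,
   tr p416_24,
   tr p417_24,
   p400_61,
   p400_62,
   tr p419_24]]

theorem k400 : eqNN c400 (slO 64 (D.chG 57 24) 8) = true := by decide +kernel

/-- The slices of the chunk 401. -/
noncomputable def c401 : List (List ℕ) := [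
  [tr p380_25,
   tr p381_25,
   s3_7 (s2_5 (s1_6 (s0_4 p381_42))),
   tr p382_25,
   tr p383_25,
   tr p384_25,
   s3_7 (s2_5 (s1_6 (s0_4 p384_42))),
   tr p385_25],
  [tr p386_25,
   tr p387_25,
   s3_7 (s2_5 (s1_6 (s0_4 p387_42))),
   tr p388_25,
   tr p389_25,
   tr p390_25,
   s3_7 (s2_5 (s1_6 (s0_4 p390_42))),
   tr p391_25],
  [tr p392_25,
   tr p393_25,
   tr p394_25,
   tr p395_25,
   tr p396_25,
   tr p397_25,
   tr p398_25,
   tr p399_25],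
  [tr p400_25,
   p401_25,
   p401_26,
   p401_27,
   p401_28,
   p401_29,
   p401_30,
   p401_31],
  [s3_7 (s2_5 (s1_6 (s0_4 p392_42))),
   s3_7 (s2_5 (s1_6 (s0_4 p394_42))),
   s3_7 (s2_5 (s1_6 (s0_4 p393_42))),
   s3_7 (s2_5 (s1_6 (s0_4 p395_42))),
   s3_7 (s2_5 (s1_6 (s0_4 p396_42))),
   s3_7 (s2_5 (s1_6 (s0_4 p398_42))),
   s3_7 (s2_5 (s1_6 (s0_4 p397_42))),
   s3_7 (s2_5 (s1_6 (s0_4 p399_42)))],
  [s3_7 (s2_5 (s1_6 (s0_4 p400_42))),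
   p401_41,
   p401_42,
   p401_43,
   p401_44,
   p401_45,
   p401_46,
   p401_47],
  [tr p408_25,
   p401_49,
   p401_50,
   tr p410_25,
   tr p411_25,
   p401_53,
   p401_54,
   tr p413_25],
  [tr p414_25,
   p401_57,
   p401_58,
   tr p416_25,
   tr p417_25,
   p401_61,
   p401_62,
   tr p419_25]]

theorem k401 : eqNN c401 (slO 64 (D.chG 57 25) 8) = true := by decide +kernel

/-- The slices of the chunk 402. -/
noncomputable def c402 : List (List ℕ) := [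
  [tr p380_26,
   tr p381_26,
   s3_7 (s2_5 (s1_6 (s0_4 p381_41))),
   tr p382_26,
   tr p383_26,
   tr p384_26,
   s3_7 (s2_5 (s1_6 (s0_4 p384_41))),
   tr p385_26],
  [tr p386_26,
   tr p387_26,
   s3_7 (s2_5 (s1_6 (s0_4 p387_41))),
   tr p388_26,
   tr p389_26,
   tr p390_26,
   s3_7 (s2_5 (s1_6 (s0_4 p390_41))),
   tr p391_26],
  [tr p392_26,
   tr p393_26,
   tr p394_26,
   tr p395_26,
   tr p396_26,
   tr p397_26,
   tr p398_26,
   tr p399_26],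
  [tr p400_26,
   tr p401_26,
   p402_26,
   p402_27,
   p402_28,
   p402_29,
   p402_30,
   p402_31],
  [s3_7 (s2_5 (s1_6 (s0_4 p392_41))),
   s3_7 (s2_5 (s1_6 (s0_4 p394_41))),
   s3_7 (s2_5 (s1_6 (s0_4 p393_41))),
   s3_7 (s2_5 (s1_6 (s0_4 p395_41))),
   s3_7 (s2_5 (s1_6 (s0_4 p396_41))),
   s3_7 (s2_5 (s1_6 (s0_4 p398_41))),
   s3_7 (s2_5 (s1_6 (s0_4 p397_41))),
   s3_7 (s2_5 (s1_6 (s0_4 p399_41)))],
  [s3_7 (s2_5 (s1_6 (s0_4 p400_41))),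
   p402_41,
   s3_7 (s2_5 (s1_6 (s0_4 p401_41))),
   p402_43,
   p402_44,
   p402_45,
   p402_46,
   p402_47],
  [tr p408_26,
   p402_49,
   p402_50,
   tr p410_26,
   tr p411_26,
   p402_53,
   p402_54,
   tr p413_26],
  [tr p414_26,
   p402_57,
   p402_58,
   tr p416_26,
   tr p417_26,
   p402_61,
   p402_62,
   tr p419_26]]

theorem k402 : eqNN c402 (slO 64 (D.chG 57 26) 8) = true := by decide +kernel

/-- The slices of the chunk 403. -/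
noncomputable def c403 : List (List ℕ) := [
  [tr p380_27,
   tr p381_27,
   s3_7 (s2_5 (s1_6 (s0_4 p381_43))),
   tr p382_27,
   tr p383_27,
   tr p384_27,
   s3_7 (s2_5 (s1_6 (s0_4 p384_43))),
   tr p385_27],
  [tr p386_27,
   tr p387_27,
   s3_7 (s2_5 (s1_6 (s0_4 p387_43))),
   tr p388_27,
   tr p389_27,
   tr p390_27,
   s3_7 (s2_5 (s1_6 (s0_4 p390_43))),
   tr p391_27],
  [tr p392_27,
   tr p393_27,
   tr p394_27,
   tr p395_27,
   tr p396_27,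
   tr p397_27,
   tr p398_27,
   tr p399_27],
  [tr p400_27,
   tr p401_27,
   tr p402_27,
   p403_27,
   p403_28,
   p403_29,
   p403_30,
   p403_31],
  [s3_7 (s2_5 (s1_6 (s0_4 p392_43))),
   s3_7 (s2_5 (s1_6 (s0_4 p394_43))),
   s3_7 (s2_5 (s1_6 (s0_4 p393_43))),
   s3_7 (s2_5 (s1_6 (s0_4 p395_43))),
   s3_7 (s2_5 (s1_6 (s0_4 p396_43))),
   s3_7 (s2_5 (s1_6 (s0_4 p398_43))),
   s3_7 (s2_5 (s1_6 (s0_4 p397_43))),
   s3_7 (s2_5 (s1_6 (s0_4 p399_43)))],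
  [s3_7 (s2_5 (s1_6 (s0_4 p400_43))),
   s3_7 (s2_5 (s1_6 (s0_4 p402_43))),
   s3_7 (s2_5 (s1_6 (s0_4 p401_43))),
   p403_43,
   p403_44,
   p403_45,
   p403_46,
   p403_47],
  [tr p408_27,
   p403_49,
   p403_50,
   tr p410_27,
   tr p411_27,
   p403_53,
   p403_54,
   tr p413_27],
  [tr p414_27,
   p403_57,
   p403_58,
   tr p416_27,
   tr p417_27,
   p403_61,
   p403_62,
   tr p419_27]]

theorem k403 : eqNN c403 (slO 64 (D.chG 57 27) 8) = true := by decide +kernel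

end Pool.Agent.Lib.MP_afdd4d_co.K10.E6
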