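import Pool.Agent.Lib.MP_afdd4d_co.K10.E6.Dat
import Pool.Agent.Lib.MP_afdd4d_co.K10.E6.Mk
import Pool.Agent.Lib.MP_afdd4d_co.K8.F6Bl5
import Pool.Agent.Lib.MP_afdd4d_co.K10.E6.P0
import Pool.Agent.Lib.MP_afdd4d_co.K10.E6.P1
import Pool.Agent.Lib.MP_afdd4d_co.K10.E6.P2
import Pool.Agent.Lib.MP_afdd4d_co.K10.E6.P3
import Pool.Agent.Lib.MP_afdd4d_co.K10.E6.P4
import Pool.Agent.Lib.MP_afdd4d_co.K10.E6.P5
import Pool.Agent.Lib.MP_afdd4d_co.K10.E6.P6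
import Pool.Agent.Lib.MP_afdd4d_co.K10.E6.P7
import Pool.Agent.Lib.MP_afdd4d_co.K10.E6.P8
import Pool.Agent.Lib.MP_afdd4d_co.K10.E6.P9
import Pool.Agent.Lib.MP_afdd4d_co.K10.E6.P10
import Pool.Agent.Lib.MP_afdd4d_co.K10.E6.P11
import Pool.Agent.Lib.MP_afdd4d_co.K10.E6.P12
import Pool.Agent.Lib.MP_afdd4d_co.K10.E6.P13
import Pool.Agent.Lib.MP_afdd4d_co.K10.E6.P14
import Pool.Agent.Lib.MP_afdd4d_co.K10.E6.P15
import Pool.Agent.Lib.MP_afdd4d_co.K10.E6.P16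
import Pool.Agent.Lib.MP_afdd4d_co.K10.E6.P17
import Pool.Agent.Lib.MP_afdd4d_co.K10.E6.P18
import Pool.Agent.Lib.MP_afdd4d_co.K10.E6.P19
import Pool.Agent.Lib.MP_afdd4d_co.K10.E6.P20
import Pool.Agent.Lib.MP_afdd4d_co.K10.E6.P21
import Pool.Agent.Lib.MP_afdd4d_co.K10.E6.P22
import Pool.Agent.Lib.MP_afdd4d_co.K10.E6.P23
import Pool.Agent.Lib.MP_afdd4d_co.K10.E6.P24
import Pool.Agent.Lib.MP_afdd4d_co.K10.E6.P25
import Pool.Agent.Lib.MP_afdd4d_co.K10.E6.P26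
import Pool.Agent.Lib.MP_afdd4d_co.K10.E6.P27
import Pool.Agent.Lib.MP_afdd4d_co.K10.E6.P28
import Pool.Agent.Lib.MP_afdd4d_co.K10.E6.P29
import Pool.Agent.Lib.MP_afdd4d_co.K10.E6.P30
import Pool.Agent.Lib.MP_afdd4d_co.K10.E6.P31
import Pool.Agent.Lib.MP_afdd4d_co.K10.E6.P32

/-!
# Tables
-/

namespace Pool.Agent.Lib.MP_afdd4d_co.K10.E6

open K8

set_option maxRecDepth 100000
set_option exponentiation.threshold 10000000

/-- The slices of the chunk 404. -/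
noncomputable def c404 : List (List ℕ) := [
  [tr p380_28,
   tr p381_28,
   s3_7 (s2_5 (s1_6 (s0_4 p381_44))),
   tr p382_28,
   tr p383_28,
   tr p384_28,
   s3_7 (s2_5 (s1_6 (s0_4 p384_44))),
   tr p385_28],
  [tr p386_28,
   tr p387_28,
   s3_7 (s2_5 (s1_6 (s0_4 p387_44))),
   tr p388_28,
   tr p389_28,
   tr p390_28,
   s3_7 (s2_5 (s1_6 (s0_4 p390_44))),
   tr p391_28],
  [tr p392_28,
   tr p393_28,
   tr p394_28,
   tr p395_28,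
   tr p396_28,
   tr p397_28,
   tr p398_28,
   tr p399_28],
  [tr p400_28,
   tr p401_28,
   tr p402_28,
   tr p403_28,
   p404_28,
   p404_29,
   p404_30,
   p404_31],
  [s3_7 (s2_5 (s1_6 (s0_4 p392_44))),
   s3_7 (s2_5 (s1_6 (s0_4 p394_44))),
   s3_7 (s2_5 (s1_6 (s0_4 p393_44))),
   s3_7 (s2_5 (s1_6 (s0_4 p395_44))),
   s3_7 (s2_5 (s1_6 (s0_4 p396_44))),
   s3_7 (s2_5 (s1_6 (s0_4 p398_44))),
   s3_7 (s2_5 (s1_6 (s0_4 p397_44))),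
   s3_7 (s2_5 (s1_6 (s0_4 p399_44)))],
  [s3_7 (s2_5 (s1_6 (s0_4 p400_44))),
   s3_7 (s2_5 (s1_6 (s0_4 p402_44))),
   s3_7 (s2_5 (s1_6 (s0_4 p401_44))),
   s3_7 (s2_5 (s1_6 (s0_4 p403_44))),
   p404_44,
   p404_45,
   p404_46,
   p404_47],
  [tr p408_28,
   p404_49,
   p404_50,
   tr p410_28,
   tr p411_28,
   p404_53,
   p404_54,
   tr p413_28],
  [tr p414_28,
   p404_57,
   p404_58,
   tr p416_28,
   tr p417_28,
   p404_61,
   p404_62,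
   tr p419_28]]

theorem k404 : eqNN c404 (slO 64 (D.chG 57 28) 8) = true := by decide +kernel

/-- The slices of the chunk 405. -/
noncomputable def c405 : List (List ℕ) := [
  [tr p380_29,
   tr p381_29,
   s3_7 (s2_5 (s1_6 (s0_4 p381_46))),
   tr p382_29,
   tr p383_29,
   tr p384_29,
   s3_7 (s2_5 (s1_6 (s0_4 p384_46))),
   tr p385_29],
  [tr p386_29,
   tr p387_29,
   s3_7 (s2_5 (s1_6 (s0_4 p387_46))),
   tr p388_29,
   tr p389_29,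
   tr p390_29,
   s3_7 (s2_5 (s1_6 (s0_4 p390_46))),
   tr p391_29],
  [tr p392_29,
   tr p393_29,
   tr p394_29,
   tr p395_29,
   tr p396_29,
   tr p397_29,
   tr p398_29,
   tr p399_29],
  [tr p400_29,
   tr p401_29,
   tr p402_29,
   tr p403_29,
   tr p404_29,
   p405_29,
   p405_30,
   p405_31],
  [s3_7 (s2_5 (s1_6 (s0_4 p392_46))),
   s3_7 (s2_5 (s1_6 (s0_4 p394_46))),
   s3_7 (s2_5 (s1_6 (s0_4 p393_46))),
   s3_7 (s2_5 (s1_6 (s0_4 p395_46))),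
   s3_7 (s2_5 (s1_6 (s0_4 p396_46))),
   s3_7 (s2_5 (s1_6 (s0_4 p398_46))),
   s3_7 (s2_5 (s1_6 (s0_4 p397_46))),
   s3_7 (s2_5 (s1_6 (s0_4 p399_46)))],
  [s3_7 (s2_5 (s1_6 (s0_4 p400_46))),
   s3_7 (s2_5 (s1_6 (s0_4 p402_46))),
   s3_7 (s2_5 (s1_6 (s0_4 p401_46))),
   s3_7 (s2_5 (s1_6 (s0_4 p403_46))),
   s3_7 (s2_5 (s1_6 (s0_4 p404_46))),
   p405_45,
   p405_46,
   p405_47],
  [tr p408_29,
   p405_49,
   p405_50,
   tr p410_29,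
   tr p411_29,
   p405_53,
   p405_54,
   tr p413_29],
  [tr p414_29,
   p405_57,
   p405_58,
   tr p416_29,
   tr p417_29,
   p405_61,
   p405_62,
   tr p419_29]]

theorem k405 : eqNN c405 (slO 64 (D.chG 57 29) 8) = true := by decide +kernel

/-- The slices of the chunk 406. -/
noncomputable def c406 : List (List ℕ) := [
  [tr p380_30,
   tr p381_30,
   s3_7 (s2_5 (s1_6 (s0_4 p381_45))),
   tr p382_30,
   tr p383_30,
   tr p384_30,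
   s3_7 (s2_5 (s1_6 (s0_4 p384_45))),
   tr p385_30],
  [tr p386_30,
   tr p387_30,
   s3_7 (s2_5 (s1_6 (s0_4 p387_45))),
   tr p388_30,
   tr p389_30,
   tr p390_30,
   s3_7 (s2_5 (s1_6 (s0_4 p390_45))),
   tr p391_30],
  [tr p392_30,
   tr p393_30,
   tr p394_30,
   tr p395_30,
   tr p396_30,
   tr p397_30,
   tr p398_30,
   tr p399_30],
  [tr p400_30,
   tr p401_30,
   tr p402_30,
   tr p403_30,
   tr p404_30,
   tr p405_30,
   p406_30,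
   p406_31],
  [s3_7 (s2_5 (s1_6 (s0_4 p392_45))),
   s3_7 (s2_5 (s1_6 (s0_4 p394_45))),
   s3_7 (s2_5 (s1_6 (s0_4 p393_45))),
   s3_7 (s2_5 (s1_6 (s0_4 p395_45))),
   s3_7 (s2_5 (s1_6 (s0_4 p396_45))),
   s3_7 (s2_5 (s1_6 (s0_4 p398_45))),
   s3_7 (s2_5 (s1_6 (s0_4 p397_45))),
   s3_7 (s2_5 (s1_6 (s0_4 p399_45)))],
  [s3_7 (s2_5 (s1_6 (s0_4 p400_45))),
   s3_7 (s2_5 (s1_6 (s0_4 p402_45))),
   s3_7 (s2_5 (s1_6 (s0_4 p401_45))),
   s3_7 (s2_5 (s1_6 (s0_4 p403_45))),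
   s3_7 (s2_5 (s1_6 (s0_4 p404_45))),
   p406_45,
   s3_7 (s2_5 (s1_6 (s0_4 p405_45))),
   p406_47],
  [tr p408_30,
   p406_49,
   p406_50,
   tr p410_30,
   tr p411_30,
   p406_53,
   p406_54,
   tr p413_30],
  [tr p414_30,
   p406_57,
   p406_58,
   tr p416_30,
   tr p417_30,
   p406_61,
   p406_62,
   tr p419_30]]

theorem k406 : eqNN c406 (slO 64 (D.chG 57 30) 8) = true := by decide +kernel

/-- The slices of the chunk 407. -/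
noncomputable def c407 : List (List ℕ) := [
  [tr p380_31,
   tr p381_31,
   s3_7 (s2_5 (s1_6 (s0_4 p381_47))),
   tr p382_31,
   tr p383_31,
   tr p384_31,
   s3_7 (s2_5 (s1_6 (s0_4 p384_47))),
   tr p385_31],
  [tr p386_31,
   tr p387_31,
   s3_7 (s2_5 (s1_6 (s0_4 p387_47))),
   tr p388_31,
   tr p389_31,
   tr p390_31,
   s3_7 (s2_5 (s1_6 (s0_4 p390_47))),
   tr p391_31],
  [tr p392_31,
   tr p393_31,
   tr p394_31,
   tr p395_31,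
   tr p396_31,
   tr p397_31,
   tr p398_31,
   tr p399_31],
  [tr p400_31,
   tr p401_31,
   tr p402_31,
   tr p403_31,
   tr p404_31,
   tr p405_31,
   tr p406_31,
   p407_31],
  [s3_7 (s2_5 (s1_6 (s0_4 p392_47))),
   s3_7 (s2_5 (s1_6 (s0_4 p394_47))),
   s3_7 (s2_5 (s1_6 (s0_4 p393_47))),
   s3_7 (s2_5 (s1_6 (s0_4 p395_47))),
   s3_7 (s2_5 (s1_6 (s0_4 p396_47))),
   s3_7 (s2_5 (s1_6 (s0_4 p398_47))),
   s3_7 (s2_5 (s1_6 (s0_4 p397_47))),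
   s3_7 (s2_5 (s1_6 (s0_4 p399_47)))],
  [s3_7 (s2_5 (s1_6 (s0_4 p400_47))),
   s3_7 (s2_5 (s1_6 (s0_4 p402_47))),
   s3_7 (s2_5 (s1_6 (s0_4 p401_47))),
   s3_7 (s2_5 (s1_6 (s0_4 p403_47))),
   s3_7 (s2_5 (s1_6 (s0_4 p404_47))),
   s3_7 (s2_5 (s1_6 (s0_4 p406_47))),
   s3_7 (s2_5 (s1_6 (s0_4 p405_47))),
   p407_47],
  [tr p408_31,
   p407_49,
   p407_50,
   tr p410_31,
   tr p411_31,
   p407_53,
   p407_54,
   tr p413_31],
  [tr p414_31,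
   p407_57,
   p407_58,
   tr p416_31,
   tr p417_31,
   p407_61,
   p407_62,
   tr p419_31]]

theorem k407 : eqNN c407 (slO 64 (D.chG 57 31) 8) = true := by decide +kernel

end Pool.Agent.Lib.MP_afdd4d_co.K10.E6
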