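import Pool.Agent.Lib.MP_afdd4d_co.K10.E6.Dat
import Pool.Agent.Lib.MP_afdd4d_co.K10.E6.Mk
import Pool.Agent.Lib.MP_afdd4d_co.K8.F6Bl5
import Pool.Agent.Lib.MP_afdd4d_co.K10.E6.P0
import Pool.Agent.Lib.MP_afdd4d_co.K10.E6.P1
import Pool.Agent.Lib.MP_afdd4d_co.K10.E6.P2
import Pool.Agent.Lib.MP_afdd4d_co.K10.E6.P3
import Pool.Agent.Lib.MP_afdd4d_co.K10.E6.P4
import Pool.Agent.Lib.MP_afdd4d_co.K10.E6.P5
import Pool.Agent.Lib.MP_afdd4d_co.K10.E6.P6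
import Pool.Agent.Lib.MP_afdd4d_co.K10.E6.P7
import Pool.Agent.Lib.MP_afdd4d_co.K10.E6.P8
import Pool.Agent.Lib.MP_afdd4d_co.K10.E6.P9
import Pool.Agent.Lib.MP_afdd4d_co.K10.E6.P10
import Pool.Agent.Lib.MP_afdd4d_co.K10.E6.P11
import Pool.Agent.Lib.MP_afdd4d_co.K10.E6.P12
import Pool.Agent.Lib.MP_afdd4d_co.K10.E6.P13
import Pool.Agent.Lib.MP_afdd4d_co.K10.E6.P14
import Pool.Agent.Lib.MP_afdd4d_co.K10.E6.P15
import Pool.Agent.Lib.MP_afdd4d_co.K10.E6.P16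
import Pool.Agent.Lib.MP_afdd4d_co.K10.E6.P17
import Pool.Agent.Lib.MP_afdd4d_co.K10.E6.P18
import Pool.Agent.Lib.MP_afdd4d_co.K10.E6.P19
import Pool.Agent.Lib.MP_afdd4d_co.K10.E6.P20
import Pool.Agent.Lib.MP_afdd4d_co.K10.E6.P21
import Pool.Agent.Lib.MP_afdd4d_co.K10.E6.P22
import Pool.Agent.Lib.MP_afdd4d_co.K10.E6.P23
import Pool.Agent.Lib.MP_afdd4d_co.K10.E6.P24
import Pool.Agent.Lib.MP_afdd4d_co.K10.E6.P25
import Pool.Agent.Lib.MP_afdd4d_co.K10.E6.P26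
import Pool.Agent.Lib.MP_afdd4d_co.K10.E6.P27
import Pool.Agent.Lib.MP_afdd4d_co.K10.E6.P28
import Pool.Agent.Lib.MP_afdd4d_co.K10.E6.P29
import Pool.Agent.Lib.MP_afdd4d_co.K10.E6.P30
import Pool.Agent.Lib.MP_afdd4d_co.K10.E6.P31
import Pool.Agent.Lib.MP_afdd4d_co.K10.E6.P32

/-!
# Tables
-/

namespace Pool.Agent.Lib.MP_afdd4d_co.K10.E6

open K8

set_option maxRecDepth 100000
set_option exponentiation.threshold 10000000

/-- The slices of the chunk 408. -/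
noncomputable def c408 : List (List ℕ) := [
  [tr p380_48,
   p408_1,
   s5_6 (s1_2 p408_1),
   tr p382_48,
   tr p383_48,
   p408_5,
   s5_6 (s1_2 p408_5),
   tr p385_48],
  [tr p386_48,
   p408_9,
   s5_6 (s1_2 p408_9),
   tr p388_48,
   tr p389_48,
   p408_13,
   s5_6 (s1_2 p408_13),
   tr p391_48],
  [p408_16,
   p408_17,
   p408_18,
   p408_19,
   p408_20,
   p408_21,
   p408_22,
   p408_23],
  [p408_24,
   p408_25,
   p408_26,
   p408_27,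
   p408_28,
   p408_29,
   p408_30,
   p408_31],
  [s5_6 (s1_2 p408_16),
   s5_6 (s1_2 p408_18),
   s5_6 (s1_2 p408_17),
   s5_6 (s1_2 p408_19),
   s5_6 (s1_2 p408_20),
   s5_6 (s1_2 p408_22),
   s5_6 (s1_2 p408_21),
   s5_6 (s1_2 p408_23)],
  [s5_6 (s1_2 p408_24),
   s5_6 (s1_2 p408_26),
   s5_6 (s1_2 p408_25),
   s5_6 (s1_2 p408_27),
   s5_6 (s1_2 p408_28),
   s5_6 (s1_2 p408_30),
   s5_6 (s1_2 p408_29),
   s5_6 (s1_2 p408_31)],
  [p408_48,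
   p408_49,
   s5_6 (s1_2 p408_49),
   p408_51,
   p408_52,
   p408_53,
   s5_6 (s1_2 p408_53),
   p408_55],
  [p408_56,
   p408_57,
   s5_6 (s1_2 p408_57),
   p408_59,
   p408_60,
   p408_61,
   s5_6 (s1_2 p408_61),
   p408_63]]

theorem k408 : eqNN c408 (slO 64 (D.chG 57 48) 8) = true := by decide +kernel

/-- The slices of the chunk 409. -/
noncomputable def c409 : List (List ℕ) := [
  [tr p380_49,
   tr p381_49,
   s3_7 (s2_5 (s1_6 (s0_4 p381_50))),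
   tr p382_49,
   tr p383_49,
   tr p384_49,
   s3_7 (s2_5 (s1_6 (s0_4 p384_50))),
   tr p385_49],
  [tr p386_49,
   tr p387_49,
   s3_7 (s2_5 (s1_6 (s0_4 p387_50))),
   tr p388_49,
   tr p389_49,
   tr p390_49,
   s3_7 (s2_5 (s1_6 (s0_4 p390_50))),
   tr p391_49],
  [tr p392_49,
   tr p393_49,
   tr p394_49,
   tr p395_49,
   tr p396_49,
   tr p397_49,
   tr p398_49,
   tr p399_49],
  [tr p400_49,
   tr p401_49,
   tr p402_49,
   tr p403_49,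
   tr p404_49,
   tr p405_49,
   tr p406_49,
   tr p407_49],
  [s3_7 (s2_5 (s1_6 (s0_4 p392_50))),
   s3_7 (s2_5 (s1_6 (s0_4 p394_50))),
   s3_7 (s2_5 (s1_6 (s0_4 p393_50))),
   s3_7 (s2_5 (s1_6 (s0_4 p395_50))),
   s3_7 (s2_5 (s1_6 (s0_4 p396_50))),
   s3_7 (s2_5 (s1_6 (s0_4 p398_50))),
   s3_7 (s2_5 (s1_6 (s0_4 p397_50))),
   s3_7 (s2_5 (s1_6 (s0_4 p399_50)))],
  [s3_7 (s2_5 (s1_6 (s0_4 p400_50))),
   s3_7 (s2_5 (s1_6 (s0_4 p402_50))),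
   s3_7 (s2_5 (s1_6 (s0_4 p401_50))),
   s3_7 (s2_5 (s1_6 (s0_4 p403_50))),
   s3_7 (s2_5 (s1_6 (s0_4 p404_50))),
   s3_7 (s2_5 (s1_6 (s0_4 p406_50))),
   s3_7 (s2_5 (s1_6 (s0_4 p405_50))),
   s3_7 (s2_5 (s1_6 (s0_4 p407_50)))],
  [tr p408_49,
   p409_49,
   p409_50,
   tr p410_49,
   tr p411_49,
   p409_53,
   p409_54,
   tr p413_49],
  [tr p414_49,
   p409_57,
   p409_58,
   tr p416_49,
   tr p417_49,
   p409_61,
   p409_62,
   tr p419_49]]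

theorem k409 : eqNN c409 (slO 64 (D.chG 57 49) 8) = true := by decide +kernel

/-- The slices of the chunk 410. -/
noncomputable def c410 : List (List ℕ) := [
  [tr p380_51,
   p410_1,
   s5_6 (s1_2 p410_1),
   tr p382_51,
   tr p383_51,
   p410_5,
   s5_6 (s1_2 p410_5),
   tr p385_51],
  [tr p386_51,
   p410_9,
   s5_6 (s1_2 p410_9),
   tr p388_51,
   tr p389_51,
   p410_13,
   s5_6 (s1_2 p410_13),
   tr p391_51],
  [p410_16,
   p410_17,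
   p410_18,
   p410_19,
   p410_20,
   p410_21,
   p410_22,
   p410_23],
  [p410_24,
   p410_25,
   p410_26,
   p410_27,
   p410_28,
   p410_29,
   p410_30,
   p410_31],
  [s5_6 (s1_2 p410_16),
   s5_6 (s1_2 p410_18),
   s5_6 (s1_2 p410_17),
   s5_6 (s1_2 p410_19),
   s5_6 (s1_2 p410_20),
   s5_6 (s1_2 p410_22),
   s5_6 (s1_2 p410_21),
   s5_6 (s1_2 p410_23)],
  [s5_6 (s1_2 p410_24),
   s5_6 (s1_2 p410_26),
   s5_6 (s1_2 p410_25),
   s5_6 (s1_2 p410_27),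
   s5_6 (s1_2 p410_28),
   s5_6 (s1_2 p410_30),
   s5_6 (s1_2 p410_29),
   s5_6 (s1_2 p410_31)],
  [tr p408_51,
   p410_49,
   s5_6 (s1_2 p410_49),
   p410_51,
   p410_52,
   p410_53,
   s5_6 (s1_2 p410_53),
   p410_55],
  [p410_56,
   p410_57,
   s5_6 (s1_2 p410_57),
   p410_59,
   p410_60,
   p410_61,
   s5_6 (s1_2 p410_61),
   p410_63]]

theorem k410 : eqNN c410 (slO 64 (D.chG 57 51) 8) = true := by decide +kernel

/-- The slices of the chunk 411. -/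
noncomputable def c411 : List (List ℕ) := [
  [tr p380_52,
   p411_1,
   s5_6 (s1_2 p411_1),
   tr p382_52,
   tr p383_52,
   p411_5,
   s5_6 (s1_2 p411_5),
   tr p385_52],
  [tr p386_52,
   p411_9,
   s5_6 (s1_2 p411_9),
   tr p388_52,
   tr p389_52,
   p411_13,
   s5_6 (s1_2 p411_13),
   tr p391_52],
  [p411_16,
   p411_17,
   p411_18,
   p411_19,
   p411_20,
   p411_21,
   p411_22,
   p411_23],
  [p411_24,
   p411_25,
   p411_26,
   p411_27,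
   p411_28,
   p411_29,
   p411_30,
   p411_31],
  [s5_6 (s1_2 p411_16),
   s5_6 (s1_2 p411_18),
   s5_6 (s1_2 p411_17),
   s5_6 (s1_2 p411_19),
   s5_6 (s1_2 p411_20),
   s5_6 (s1_2 p411_22),
   s5_6 (s1_2 p411_21),
   s5_6 (s1_2 p411_23)],
  [s5_6 (s1_2 p411_24),
   s5_6 (s1_2 p411_26),
   s5_6 (s1_2 p411_25),
   s5_6 (s1_2 p411_27),
   s5_6 (s1_2 p411_28),
   s5_6 (s1_2 p411_30),
   s5_6 (s1_2 p411_29),
   s5_6 (s1_2 p411_31)],
  [tr p408_52,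
   p411_49,
   s5_6 (s1_2 p411_49),
   tr p410_52,
   p411_52,
   p411_53,
   s5_6 (s1_2 p411_53),
   p411_55],
  [p411_56,
   p411_57,
   s5_6 (s1_2 p411_57),
   p411_59,
   p411_60,
   p411_61,
   s5_6 (s1_2 p411_61),
   p411_63]]

theorem k411 : eqNN c411 (slO 64 (D.chG 57 52) 8) = true := by decide +kernel

end Pool.Agent.Lib.MP_afdd4d_co.K10.E6
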