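import Pool.Agent.Lib.MP_afdd4d_co.K10.E6.Dat
import Pool.Agent.Lib.MP_afdd4d_co.K10.E6.Mk
import Pool.Agent.Lib.MP_afdd4d_co.K8.F6Bl5
import Pool.Agent.Lib.MP_afdd4d_co.K10.E6.P0
import Pool.Agent.Lib.MP_afdd4d_co.K10.E6.P1
import Pool.Agent.Lib.MP_afdd4d_co.K10.E6.P2
import Pool.Agent.Lib.MP_afdd4d_co.K10.E6.P3
import Pool.Agent.Lib.MP_afdd4d_co.K10.E6.P4
import Pool.Agent.Lib.MP_afdd4d_co.K10.E6.P5
import Pool.Agent.Lib.MP_afdd4d_co.K10.E6.P6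
import Pool.Agent.Lib.MP_afdd4d_co.K10.E6.P7
import Pool.Agent.Lib.MP_afdd4d_co.K10.E6.P8
import Pool.Agent.Lib.MP_afdd4d_co.K10.E6.P9
import Pool.Agent.Lib.MP_afdd4d_co.K10.E6.P10
import Pool.Agent.Lib.MP_afdd4d_co.K10.E6.P11
import Pool.Agent.Lib.MP_afdd4d_co.K10.E6.P12
import Pool.Agent.Lib.MP_afdd4d_co.K10.E6.P13
import Pool.Agent.Lib.MP_afdd4d_co.K10.E6.P14
import Pool.Agent.Lib.MP_afdd4d_co.K10.E6.P15
import Pool.Agent.Lib.MP_afdd4d_co.K10.E6.P16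
import Pool.Agent.Lib.MP_afdd4d_co.K10.E6.P17
import Pool.Agent.Lib.MP_afdd4d_co.K10.E6.P18
import Pool.Agent.Lib.MP_afdd4d_co.K10.E6.P19
import Pool.Agent.Lib.MP_afdd4d_co.K10.E6.P20
import Pool.Agent.Lib.MP_afdd4d_co.K10.E6.P21
import Pool.Agent.Lib.MP_afdd4d_co.K10.E6.P22
import Pool.Agent.Lib.MP_afdd4d_co.K10.E6.P23
import Pool.Agent.Lib.MP_afdd4d_co.K10.E6.P24
import Pool.Agent.Lib.MP_afdd4d_co.K10.E6.P25
import Pool.Agent.Lib.MP_afdd4d_co.K10.E6.P26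
import Pool.Agent.Lib.MP_afdd4d_co.K10.E6.P27
import Pool.Agent.Lib.MP_afdd4d_co.K10.E6.P28
import Pool.Agent.Lib.MP_afdd4d_co.K10.E6.P29
import Pool.Agent.Lib.MP_afdd4d_co.K10.E6.P30
import Pool.Agent.Lib.MP_afdd4d_co.K10.E6.P31
import Pool.Agent.Lib.MP_afdd4d_co.K10.E6.P32

/-!
# Tables
-/

namespace Pool.Agent.Lib.MP_afdd4d_co.K10.E6

open K8

set_option maxRecDepth 100000
set_option exponentiation.threshold 10000000

/-- The slices of the chunk 412. -/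
noncomputable def c412 : List (List ℕ) := [
  [tr p380_53,
   tr p381_53,
   s3_7 (s2_5 (s1_6 (s0_4 p381_54))),
   tr p382_53,
   tr p383_53,
   tr p384_53,
   s3_7 (s2_5 (s1_6 (s0_4 p384_54))),
   tr p385_53],
  [tr p386_53,
   tr p387_53,
   s3_7 (s2_5 (s1_6 (s0_4 p387_54))),
   tr p388_53,
   tr p389_53,
   tr p390_53,
   s3_7 (s2_5 (s1_6 (s0_4 p390_54))),
   tr p391_53],
  [tr p392_53,
   tr p393_53,
   tr p394_53,
   tr p395_53,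
   tr p396_53,
   tr p397_53,
   tr p398_53,
   tr p399_53],
  [tr p400_53,
   tr p401_53,
   tr p402_53,
   tr p403_53,
   tr p404_53,
   tr p405_53,
   tr p406_53,
   tr p407_53],
  [s3_7 (s2_5 (s1_6 (s0_4 p392_54))),
   s3_7 (s2_5 (s1_6 (s0_4 p394_54))),
   s3_7 (s2_5 (s1_6 (s0_4 p393_54))),
   s3_7 (s2_5 (s1_6 (s0_4 p395_54))),
   s3_7 (s2_5 (s1_6 (s0_4 p396_54))),
   s3_7 (s2_5 (s1_6 (s0_4 p398_54))),
   s3_7 (s2_5 (s1_6 (s0_4 p397_54))),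
   s3_7 (s2_5 (s1_6 (s0_4 p399_54)))],
  [s3_7 (s2_5 (s1_6 (s0_4 p400_54))),
   s3_7 (s2_5 (s1_6 (s0_4 p402_54))),
   s3_7 (s2_5 (s1_6 (s0_4 p401_54))),
   s3_7 (s2_5 (s1_6 (s0_4 p403_54))),
   s3_7 (s2_5 (s1_6 (s0_4 p404_54))),
   s3_7 (s2_5 (s1_6 (s0_4 p406_54))),
   s3_7 (s2_5 (s1_6 (s0_4 p405_54))),
   s3_7 (s2_5 (s1_6 (s0_4 p407_54)))],
  [tr p408_53,
   tr p409_53,
   s3_7 (s2_5 (s1_6 (s0_4 p409_54))),
   tr p410_53,
   tr p411_53,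
   p412_53,
   p412_54,
   tr p413_53],
  [tr p414_53,
   p412_57,
   p412_58,
   tr p416_53,
   tr p417_53,
   p412_61,
   p412_62,
   tr p419_53]]

theorem k412 : eqNN c412 (slO 64 (D.chG 57 53) 8) = true := by decide +kernel

/-- The slices of the chunk 413. -/
noncomputable def c413 : List (List ℕ) := [
  [tr p380_55,
   p413_1,
   s5_6 (s1_2 p413_1),
   tr p382_55,
   tr p383_55,
   p413_5,
   s5_6 (s1_2 p413_5),
   tr p385_55],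
  [tr p386_55,
   p413_9,
   s5_6 (s1_2 p413_9),
   tr p388_55,
   tr p389_55,
   p413_13,
   s5_6 (s1_2 p413_13),
   tr p391_55],
  [p413_16,
   p413_17,
   p413_18,
   p413_19,
   p413_20,
   p413_21,
   p413_22,
   p413_23],
  [p413_24,
   p413_25,
   p413_26,
   p413_27,
   p413_28,
   p413_29,
   p413_30,
   p413_31],
  [s5_6 (s1_2 p413_16),
   s5_6 (s1_2 p413_18),
   s5_6 (s1_2 p413_17),
   s5_6 (s1_2 p413_19),
   s5_6 (s1_2 p413_20),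
   s5_6 (s1_2 p413_22),
   s5_6 (s1_2 p413_21),
   s5_6 (s1_2 p413_23)],
  [s5_6 (s1_2 p413_24),
   s5_6 (s1_2 p413_26),
   s5_6 (s1_2 p413_25),
   s5_6 (s1_2 p413_27),
   s5_6 (s1_2 p413_28),
   s5_6 (s1_2 p413_30),
   s5_6 (s1_2 p413_29),
   s5_6 (s1_2 p413_31)],
  [tr p408_55,
   p413_49,
   s5_6 (s1_2 p413_49),
   tr p410_55,
   tr p411_55,
   p413_53,
   s5_6 (s1_2 p413_53),
   p413_55],
  [p413_56,
   p413_57,
   s5_6 (s1_2 p413_57),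
   p413_59,
   p413_60,
   p413_61,
   s5_6 (s1_2 p413_61),
   p413_63]]

theorem k413 : eqNN c413 (slO 64 (D.chG 57 55) 8) = true := by decide +kernel

/-- The slices of the chunk 414. -/
noncomputable def c414 : List (List ℕ) := [
  [tr p380_56,
   p414_1,
   s5_6 (s1_2 p414_1),
   tr p382_56,
   tr p383_56,
   p414_5,
   s5_6 (s1_2 p414_5),
   tr p385_56],
  [tr p386_56,
   p414_9,
   s5_6 (s1_2 p414_9),
   tr p388_56,
   tr p389_56,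
   p414_13,
   s5_6 (s1_2 p414_13),
   tr p391_56],
  [p414_16,
   p414_17,
   p414_18,
   p414_19,
   p414_20,
   p414_21,
   p414_22,
   p414_23],
  [p414_24,
   p414_25,
   p414_26,
   p414_27,
   p414_28,
   p414_29,
   p414_30,
   p414_31],
  [s5_6 (s1_2 p414_16),
   s5_6 (s1_2 p414_18),
   s5_6 (s1_2 p414_17),
   s5_6 (s1_2 p414_19),
   s5_6 (s1_2 p414_20),
   s5_6 (s1_2 p414_22),
   s5_6 (s1_2 p414_21),
   s5_6 (s1_2 p414_23)],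
  [s5_6 (s1_2 p414_24),
   s5_6 (s1_2 p414_26),
   s5_6 (s1_2 p414_25),
   s5_6 (s1_2 p414_27),
   s5_6 (s1_2 p414_28),
   s5_6 (s1_2 p414_30),
   s5_6 (s1_2 p414_29),
   s5_6 (s1_2 p414_31)],
  [tr p408_56,
   p414_49,
   s5_6 (s1_2 p414_49),
   tr p410_56,
   tr p411_56,
   p414_53,
   s5_6 (s1_2 p414_53),
   tr p413_56],
  [p414_56,
   p414_57,
   s5_6 (s1_2 p414_57),
   p414_59,
   p414_60,
   p414_61,
   s5_6 (s1_2 p414_61),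
   p414_63]]

theorem k414 : eqNN c414 (slO 64 (D.chG 57 56) 8) = true := by decide +kernel

/-- The slices of the chunk 415. -/
noncomputable def c415 : List (List ℕ) := [
  [tr p380_57,
   tr p381_57,
   s3_7 (s2_5 (s1_6 (s0_4 p381_58))),
   tr p382_57,
   tr p383_57,
   tr p384_57,
   s3_7 (s2_5 (s1_6 (s0_4 p384_58))),
   tr p385_57],
  [tr p386_57,
   tr p387_57,
   s3_7 (s2_5 (s1_6 (s0_4 p387_58))),
   tr p388_57,
   tr p389_57,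
   tr p390_57,
   s3_7 (s2_5 (s1_6 (s0_4 p390_58))),
   tr p391_57],
  [tr p392_57,
   tr p393_57,
   tr p394_57,
   tr p395_57,
   tr p396_57,
   tr p397_57,
   tr p398_57,
   tr p399_57],
  [tr p400_57,
   tr p401_57,
   tr p402_57,
   tr p403_57,
   tr p404_57,
   tr p405_57,
   tr p406_57,
   tr p407_57],
  [s3_7 (s2_5 (s1_6 (s0_4 p392_58))),
   s3_7 (s2_5 (s1_6 (s0_4 p394_58))),
   s3_7 (s2_5 (s1_6 (s0_4 p393_58))),
   s3_7 (s2_5 (s1_6 (s0_4 p395_58))),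
   s3_7 (s2_5 (s1_6 (s0_4 p396_58))),
   s3_7 (s2_5 (s1_6 (s0_4 p398_58))),
   s3_7 (s2_5 (s1_6 (s0_4 p397_58))),
   s3_7 (s2_5 (s1_6 (s0_4 p399_58)))],
  [s3_7 (s2_5 (s1_6 (s0_4 p400_58))),
   s3_7 (s2_5 (s1_6 (s0_4 p402_58))),
   s3_7 (s2_5 (s1_6 (s0_4 p401_58))),
   s3_7 (s2_5 (s1_6 (s0_4 p403_58))),
   s3_7 (s2_5 (s1_6 (s0_4 p404_58))),
   s3_7 (s2_5 (s1_6 (s0_4 p406_58))),
   s3_7 (s2_5 (s1_6 (s0_4 p405_58))),
   s3_7 (s2_5 (s1_6 (s0_4 p407_58)))],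
  [tr p408_57,
   tr p409_57,
   s3_7 (s2_5 (s1_6 (s0_4 p409_58))),
   tr p410_57,
   tr p411_57,
   tr p412_57,
   s3_7 (s2_5 (s1_6 (s0_4 p412_58))),
   tr p413_57],
  [tr p414_57,
   p415_57,
   p415_58,
   tr p416_57,
   tr p417_57,
   p415_61,
   p415_62,
   tr p419_57]]

theorem k415 : eqNN c415 (slO 64 (D.chG 57 57) 8) = true := by decide +kernel

end Pool.Agent.Lib.MP_afdd4d_co.K10.E6
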