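import Pool.Agent.Lib.MP_afdd4d_co.K10.E6.Dat
import Pool.Agent.Lib.MP_afdd4d_co.K10.E6.Mk
import Pool.Agent.Lib.MP_afdd4d_co.K8.F6Bl5
import Pool.Agent.Lib.MP_afdd4d_co.K10.E6.P0
import Pool.Agent.Lib.MP_afdd4d_co.K10.E6.P1
import Pool.Agent.Lib.MP_afdd4d_co.K10.E6.P2
import Pool.Agent.Lib.MP_afdd4d_co.K10.E6.P3
import Pool.Agent.Lib.MP_afdd4d_co.K10.E6.P4
import Pool.Agent.Lib.MP_afdd4d_co.K10.E6.P5
import Pool.Agent.Lib.MP_afdd4d_co.K10.E6.P6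
import Pool.Agent.Lib.MP_afdd4d_co.K10.E6.P7
import Pool.Agent.Lib.MP_afdd4d_co.K10.E6.P8
import Pool.Agent.Lib.MP_afdd4d_co.K10.E6.P9
import Pool.Agent.Lib.MP_afdd4d_co.K10.E6.P10
import Pool.Agent.Lib.MP_afdd4d_co.K10.E6.P11
import Pool.Agent.Lib.MP_afdd4d_co.K10.E6.P12
import Pool.Agent.Lib.MP_afdd4d_co.K10.E6.P13
import Pool.Agent.Lib.MP_afdd4d_co.K10.E6.P14
import Pool.Agent.Lib.MP_afdd4d_co.K10.E6.P15
import Pool.Agent.Lib.MP_afdd4d_co.K10.E6.P16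
import Pool.Agent.Lib.MP_afdd4d_co.K10.E6.P17
import Pool.Agent.Lib.MP_afdd4d_co.K10.E6.P18
import Pool.Agent.Lib.MP_afdd4d_co.K10.E6.P19
import Pool.Agent.Lib.MP_afdd4d_co.K10.E6.P20
import Pool.Agent.Lib.MP_afdd4d_co.K10.E6.P21
import Pool.Agent.Lib.MP_afdd4d_co.K10.E6.P22
import Pool.Agent.Lib.MP_afdd4d_co.K10.E6.P23
import Pool.Agent.Lib.MP_afdd4d_co.K10.E6.P24
import Pool.Agent.Lib.MP_afdd4d_co.K10.E6.P25
import Pool.Agent.Lib.MP_afdd4d_co.K10.E6.P26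
import Pool.Agent.Lib.MP_afdd4d_co.K10.E6.P27
import Pool.Agent.Lib.MP_afdd4d_co.K10.E6.P28
import Pool.Agent.Lib.MP_afdd4d_co.K10.E6.P29
import Pool.Agent.Lib.MP_afdd4d_co.K10.E6.P30
import Pool.Agent.Lib.MP_afdd4d_co.K10.E6.P31
import Pool.Agent.Lib.MP_afdd4d_co.K10.E6.P32

/-!
# Tables
-/

namespace Pool.Agent.Lib.MP_afdd4d_co.K10.E6

open K8

set_option maxRecDepth 100000
set_option exponentiation.threshold 10000000

/-- The slices of the chunk 416. -/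
noncomputable def c416 : List (List ℕ) := [
  [tr p380_59,
   p416_1,
   s5_6 (s1_2 p416_1),
   tr p382_59,
   tr p383_59,
   p416_5,
   s5_6 (s1_2 p416_5),
   tr p385_59],
  [tr p386_59,
   p416_9,
   s5_6 (s1_2 p416_9),
   tr p388_59,
   tr p389_59,
   p416_13,
   s5_6 (s1_2 p416_13),
   tr p391_59],
  [p416_16,
   p416_17,
   p416_18,
   p416_19,
   p416_20,
   p416_21,
   p416_22,
   p416_23],
  [p416_24,
   p416_25,
   p416_26,
   p416_27,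
   p416_28,
   p416_29,
   p416_30,
   p416_31],
  [s5_6 (s1_2 p416_16),
   s5_6 (s1_2 p416_18),
   s5_6 (s1_2 p416_17),
   s5_6 (s1_2 p416_19),
   s5_6 (s1_2 p416_20),
   s5_6 (s1_2 p416_22),
   s5_6 (s1_2 p416_21),
   s5_6 (s1_2 p416_23)],
  [s5_6 (s1_2 p416_24),
   s5_6 (s1_2 p416_26),
   s5_6 (s1_2 p416_25),
   s5_6 (s1_2 p416_27),
   s5_6 (s1_2 p416_28),
   s5_6 (s1_2 p416_30),
   s5_6 (s1_2 p416_29),
   s5_6 (s1_2 p416_31)],
  [tr p408_59,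
   p416_49,
   s5_6 (s1_2 p416_49),
   tr p410_59,
   tr p411_59,
   p416_53,
   s5_6 (s1_2 p416_53),
   tr p413_59],
  [tr p414_59,
   p416_57,
   s5_6 (s1_2 p416_57),
   p416_59,
   p416_60,
   p416_61,
   s5_6 (s1_2 p416_61),
   p416_63]]

theorem k416 : eqNN c416 (slO 64 (D.chG 57 59) 8) = true := by decide +kernel

/-- The slices of the chunk 417. -/
noncomputable def c417 : List (List ℕ) := [
  [tr p380_60,
   p417_1,
   s5_6 (s1_2 p417_1),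
   tr p382_60,
   tr p383_60,
   p417_5,
   s5_6 (s1_2 p417_5),
   tr p385_60],
  [tr p386_60,
   p417_9,
   s5_6 (s1_2 p417_9),
   tr p388_60,
   tr p389_60,
   p417_13,
   s5_6 (s1_2 p417_13),
   tr p391_60],
  [p417_16,
   p417_17,
   p417_18,
   p417_19,
   p417_20,
   p417_21,
   p417_22,
   p417_23],
  [p417_24,
   p417_25,
   p417_26,
   p417_27,
   p417_28,
   p417_29,
   p417_30,
   p417_31],
  [s5_6 (s1_2 p417_16),
   s5_6 (s1_2 p417_18),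
   s5_6 (s1_2 p417_17),
   s5_6 (s1_2 p417_19),
   s5_6 (s1_2 p417_20),
   s5_6 (s1_2 p417_22),
   s5_6 (s1_2 p417_21),
   s5_6 (s1_2 p417_23)],
  [s5_6 (s1_2 p417_24),
   s5_6 (s1_2 p417_26),
   s5_6 (s1_2 p417_25),
   s5_6 (s1_2 p417_27),
   s5_6 (s1_2 p417_28),
   s5_6 (s1_2 p417_30),
   s5_6 (s1_2 p417_29),
   s5_6 (s1_2 p417_31)],
  [tr p408_60,
   p417_49,
   s5_6 (s1_2 p417_49),
   tr p410_60,
   tr p411_60,
   p417_53,
   s5_6 (s1_2 p417_53),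
   tr p413_60],
  [tr p414_60,
   p417_57,
   s5_6 (s1_2 p417_57),
   tr p416_60,
   p417_60,
   p417_61,
   s5_6 (s1_2 p417_61),
   p417_63]]

theorem k417 : eqNN c417 (slO 64 (D.chG 57 60) 8) = true := by decide +kernel

/-- The slices of the chunk 418. -/
noncomputable def c418 : List (List ℕ) := [
  [tr p380_61,
   tr p381_61,
   s3_7 (s2_5 (s1_6 (s0_4 p381_62))),
   tr p382_61,
   tr p383_61,
   tr p384_61,
   s3_7 (s2_5 (s1_6 (s0_4 p384_62))),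
   tr p385_61],
  [tr p386_61,
   tr p387_61,
   s3_7 (s2_5 (s1_6 (s0_4 p387_62))),
   tr p388_61,
   tr p389_61,
   tr p390_61,
   s3_7 (s2_5 (s1_6 (s0_4 p390_62))),
   tr p391_61],
  [tr p392_61,
   tr p393_61,
   tr p394_61,
   tr p395_61,
   tr p396_61,
   tr p397_61,
   tr p398_61,
   tr p399_61],
  [tr p400_61,
   tr p401_61,
   tr p402_61,
   tr p403_61,
   tr p404_61,
   tr p405_61,
   tr p406_61,
   tr p407_61],
  [s3_7 (s2_5 (s1_6 (s0_4 p392_62))),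
   s3_7 (s2_5 (s1_6 (s0_4 p394_62))),
   s3_7 (s2_5 (s1_6 (s0_4 p393_62))),
   s3_7 (s2_5 (s1_6 (s0_4 p395_62))),
   s3_7 (s2_5 (s1_6 (s0_4 p396_62))),
   s3_7 (s2_5 (s1_6 (s0_4 p398_62))),
   s3_7 (s2_5 (s1_6 (s0_4 p397_62))),
   s3_7 (s2_5 (s1_6 (s0_4 p399_62)))],
  [s3_7 (s2_5 (s1_6 (s0_4 p400_62))),
   s3_7 (s2_5 (s1_6 (s0_4 p402_62))),
   s3_7 (s2_5 (s1_6 (s0_4 p401_62))),
   s3_7 (s2_5 (s1_6 (s0_4 p403_62))),
   s3_7 (s2_5 (s1_6 (s0_4 p404_62))),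
   s3_7 (s2_5 (s1_6 (s0_4 p406_62))),
   s3_7 (s2_5 (s1_6 (s0_4 p405_62))),
   s3_7 (s2_5 (s1_6 (s0_4 p407_62)))],
  [tr p408_61,
   tr p409_61,
   s3_7 (s2_5 (s1_6 (s0_4 p409_62))),
   tr p410_61,
   tr p411_61,
   tr p412_61,
   s3_7 (s2_5 (s1_6 (s0_4 p412_62))),
   tr p413_61],
  [tr p414_61,
   tr p415_61,
   s3_7 (s2_5 (s1_6 (s0_4 p415_62))),
   tr p416_61,
   tr p417_61,
   p418_61,
   p418_62,
   tr p419_61]]

theorem k418 : eqNN c418 (slO 64 (D.chG 57 61) 8) = true := by decide +kernel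

/-- The slices of the chunk 419. -/
noncomputable def c419 : List (List ℕ) := [
  [tr p380_63,
   p419_1,
   s5_6 (s1_2 p419_1),
   tr p382_63,
   tr p383_63,
   p419_5,
   s5_6 (s1_2 p419_5),
   tr p385_63],
  [tr p386_63,
   p419_9,
   s5_6 (s1_2 p419_9),
   tr p388_63,
   tr p389_63,
   p419_13,
   s5_6 (s1_2 p419_13),
   tr p391_63],
  [p419_16,
   p419_17,
   p419_18,
   p419_19,
   p419_20,
   p419_21,
   p419_22,
   p419_23],
  [p419_24,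
   p419_25,
   p419_26,
   p419_27,
   p419_28,
   p419_29,
   p419_30,
   p419_31],
  [s5_6 (s1_2 p419_16),
   s5_6 (s1_2 p419_18),
   s5_6 (s1_2 p419_17),
   s5_6 (s1_2 p419_19),
   s5_6 (s1_2 p419_20),
   s5_6 (s1_2 p419_22),
   s5_6 (s1_2 p419_21),
   s5_6 (s1_2 p419_23)],
  [s5_6 (s1_2 p419_24),
   s5_6 (s1_2 p419_26),
   s5_6 (s1_2 p419_25),
   s5_6 (s1_2 p419_27),
   s5_6 (s1_2 p419_28),
   s5_6 (s1_2 p419_30),
   s5_6 (s1_2 p419_29),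
   s5_6 (s1_2 p419_31)],
  [tr p408_63,
   p419_49,
   s5_6 (s1_2 p419_49),
   tr p410_63,
   tr p411_63,
   p419_53,
   s5_6 (s1_2 p419_53),
   tr p413_63],
  [tr p414_63,
   p419_57,
   s5_6 (s1_2 p419_57),
   tr p416_63,
   tr p417_63,
   p419_61,
   s5_6 (s1_2 p419_61),
   p419_63]]

theorem k419 : eqNN c419 (slO 64 (D.chG 57 63) 8) = true := by decide +kernel

end Pool.Agent.Lib.MP_afdd4d_co.K10.E6
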