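import Pool.Agent.Lib.MP_afdd4d_co.K10.E6.Dat
import Pool.Agent.Lib.MP_afdd4d_co.K10.E6.Mk
import Pool.Agent.Lib.MP_afdd4d_co.K8.F6Bl5
import Pool.Agent.Lib.MP_afdd4d_co.K10.E6.P0
import Pool.Agent.Lib.MP_afdd4d_co.K10.E6.P1
import Pool.Agent.Lib.MP_afdd4d_co.K10.E6.P2
import Pool.Agent.Lib.MP_afdd4d_co.K10.E6.P3
import Pool.Agent.Lib.MP_afdd4d_co.K10.E6.P4
import Pool.Agent.Lib.MP_afdd4d_co.K10.E6.P5
import Pool.Agent.Lib.MP_afdd4d_co.K10.E6.P6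
import Pool.Agent.Lib.MP_afdd4d_co.K10.E6.P7
import Pool.Agent.Lib.MP_afdd4d_co.K10.E6.P8
import Pool.Agent.Lib.MP_afdd4d_co.K10.E6.P9
import Pool.Agent.Lib.MP_afdd4d_co.K10.E6.P10
import Pool.Agent.Lib.MP_afdd4d_co.K10.E6.P11
import Pool.Agent.Lib.MP_afdd4d_co.K10.E6.P12
import Pool.Agent.Lib.MP_afdd4d_co.K10.E6.P13
import Pool.Agent.Lib.MP_afdd4d_co.K10.E6.P14
import Pool.Agent.Lib.MP_afdd4d_co.K10.E6.P15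
import Pool.Agent.Lib.MP_afdd4d_co.K10.E6.P16
import Pool.Agent.Lib.MP_afdd4d_co.K10.E6.P17
import Pool.Agent.Lib.MP_afdd4d_co.K10.E6.P18
import Pool.Agent.Lib.MP_afdd4d_co.K10.E6.P19
import Pool.Agent.Lib.MP_afdd4d_co.K10.E6.P20
import Pool.Agent.Lib.MP_afdd4d_co.K10.E6.P21
import Pool.Agent.Lib.MP_afdd4d_co.K10.E6.P22
import Pool.Agent.Lib.MP_afdd4d_co.K10.E6.P23
import Pool.Agent.Lib.MP_afdd4d_co.K10.E6.P24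
import Pool.Agent.Lib.MP_afdd4d_co.K10.E6.P25
import Pool.Agent.Lib.MP_afdd4d_co.K10.E6.P26
import Pool.Agent.Lib.MP_afdd4d_co.K10.E6.P27
import Pool.Agent.Lib.MP_afdd4d_co.K10.E6.P28
import Pool.Agent.Lib.MP_afdd4d_co.K10.E6.P29
import Pool.Agent.Lib.MP_afdd4d_co.K10.E6.P30
import Pool.Agent.Lib.MP_afdd4d_co.K10.E6.P31
import Pool.Agent.Lib.MP_afdd4d_co.K10.E6.P32

/-!
# Tables
-/

namespace Pool.Agent.Lib.MP_afdd4d_co.K10.E6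

open K8

set_option maxRecDepth 100000
set_option exponentiation.threshold 10000000

/-- The slices of the chunk 420. -/
noncomputable def c420 : List (List ℕ) := [
  [p420_0,
   tr p421_0,
   p420_2,
   tr p423_0,
   tr p424_0,
   p420_5,
   tr p425_0,
   p420_7],
  [p420_8,
   p420_9,
   p420_10,
   p420_11,
   p420_12,
   p420_13,
   p420_14,
   p420_15],
  [tr p434_0,
   p420_17,
   tr p436_0,
   p420_19,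
   p420_20,
   tr p438_0,
   p420_22,
   tr p439_0],
  [p420_24,
   p420_25,
   p420_26,
   p420_27,
   p420_28,
   p420_29,
   p420_30,
   p420_31],
  [p420_32,
   p420_33,
   p420_34,
   p420_35,
   p420_36,
   p420_37,
   p420_38,
   p420_39],
  [tr p448_0,
   p420_41,
   tr p450_0,
   p420_43,
   p420_44,
   tr p452_0,
   p420_46,
   tr p453_0],
  [p420_48,
   p420_49,
   p420_50,
   p420_51,
   p420_52,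
   p420_53,
   p420_54,
   p420_55],
  [p420_56,
   tr p455_0,
   p420_58,
   tr p457_0,
   tr p458_0,
   p420_61,
   tr p459_0,
   p420_63]]

theorem k420 : eqNN c420 (slO 64 (D.chG 58 0) 8) = true := by decide +kernel

/-- The slices of the chunk 421. -/
noncomputable def c421 : List (List ℕ) := [
  [p421_0,
   p421_1,
   p421_2,
   p421_3,
   p421_4,
   x7_6 (x7_5 (x7_4 (s4_6 (x3_2 (x3_1 (x3_0 (s0_2 p421_0))))))),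
   p421_6,
   x7_6 (x7_5 (x7_4 (s4_6 (x3_2 (x3_1 (x3_0 (s0_2 p421_2)))))))],
  [p421_8,
   p421_9,
   p421_10,
   p421_11,
   p421_12,
   p421_13,
   p421_14,
   p421_15],
  [p421_16,
   p421_17,
   p421_18,
   p421_19,
   x7_6 (x7_5 (x7_4 (s4_6 (x3_2 (x3_1 (x3_0 (s0_2 (n5 p421_17)))))))),
   p421_21,
   x7_6 (x7_5 (x7_4 (s4_6 (x3_2 (x3_1 (x3_0 (s0_2 (n5 p421_19)))))))),
   p421_23],
  [p421_24,
   p421_25,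
   p421_26,
   p421_27,
   p421_28,
   p421_29,
   p421_30,
   p421_31],
  [x7_6 (x7_5 (x7_4 (s4_6 (x3_2 (x3_1 (x3_0 (s0_2 (n4 p421_14)))))))),
   x7_6 (x7_5 (x7_4 (s4_6 (x3_2 (x3_1 (x3_0 (s0_2 (n4 p421_10)))))))),
   x7_6 (x7_5 (x7_4 (s4_6 (x3_2 (x3_1 (x3_0 (s0_2 (n4 p421_12)))))))),
   x7_6 (x7_5 (x7_4 (s4_6 (x3_2 (x3_1 (x3_0 (s0_2 (n4 p421_8)))))))),
   x7_6 (x7_5 (x7_4 (s4_6 (x3_2 (x3_1 (x3_0 (s0_2 (n4 p421_15)))))))),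
   x7_6 (x7_5 (x7_4 (s4_6 (x3_2 (x3_1 (x3_0 (s0_2 (n4 p421_11)))))))),
   x7_6 (x7_5 (x7_4 (s4_6 (x3_2 (x3_1 (x3_0 (s0_2 (n4 p421_13)))))))),
   x7_6 (x7_5 (x7_4 (s4_6 (x3_2 (x3_1 (x3_0 (s0_2 (n4 p421_9))))))))],
  [p421_40,
   p421_41,
   p421_42,
   p421_43,
   x7_6 (x7_5 (x7_4 (s4_6 (x3_2 (x3_1 (x3_0 (s0_2 (n6 (n4 p421_41))))))))),
   p421_45,
   x7_6 (x7_5 (x7_4 (s4_6 (x3_2 (x3_1 (x3_0 (s0_2 (n6 (n4 p421_43))))))))),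
   p421_47],
  [x7_6 (x7_5 (x7_4 (s4_6 (x3_2 (x3_1 (x3_0 (s0_2 (n5 (n4 p421_27))))))))),
   x7_6 (x7_5 (x7_4 (s4_6 (x3_2 (x3_1 (x3_0 (s0_2 (n5 (n4 p421_31))))))))),
   x7_6 (x7_5 (x7_4 (s4_6 (x3_2 (x3_1 (x3_0 (s0_2 (n5 (n4 p421_25))))))))),
   x7_6 (x7_5 (x7_4 (s4_6 (x3_2 (x3_1 (x3_0 (s0_2 (n5 (n4 p421_29))))))))),
   x7_6 (x7_5 (x7_4 (s4_6 (x3_2 (x3_1 (x3_0 (s0_2 (n5 (n4 p421_26))))))))),
   x7_6 (x7_5 (x7_4 (s4_6 (x3_2 (x3_1 (x3_0 (s0_2 (n5 (n4 p421_30))))))))),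
   x7_6 (x7_5 (x7_4 (s4_6 (x3_2 (x3_1 (x3_0 (s0_2 (n5 (n4 p421_24))))))))),
   x7_6 (x7_5 (x7_4 (s4_6 (x3_2 (x3_1 (x3_0 (s0_2 (n5 (n4 p421_28)))))))))],
  [p421_56,
   p421_57,
   p421_58,
   p421_59,
   p421_60,
   x7_6 (x7_5 (x7_4 (s4_6 (x3_2 (x3_1 (x3_0 (s0_2 (n6 (n5 (n4 p421_56)))))))))),
   p421_62,
   x7_6 (x7_5 (x7_4 (s4_6 (x3_2 (x3_1 (x3_0 (s0_2 (n6 (n5 (n4 p421_58))))))))))]]

theorem k421 : eqNN c421 (slO 64 (D.chG 58 1) 8) = true := by decide +kernel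

/-- The slices of the chunk 422. -/
noncomputable def c422 : List (List ℕ) := [
  [tr p420_2,
   tr p421_2,
   p422_2,
   tr p423_2,
   tr p424_2,
   x7_6 (x7_5 (x7_4 (x3_2 (x3_1 (x3_0 (s3_7 (s2_4 (s1_5 (s0_6 p420_7))))))))),
   tr p425_2,
   p422_7],
  [p422_8,
   p422_9,
   p422_10,
   p422_11,
   p422_12,
   p422_13,
   p422_14,
   p422_15],
  [tr p434_2,
   p422_17,
   tr p436_2,
   p422_19,
   p422_20,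
   tr p438_2,
   p422_22,
   tr p439_2],
  [p422_24,
   p422_25,
   p422_26,
   p422_27,
   p422_28,
   p422_29,
   p422_30,
   p422_31],
  [p422_32,
   p422_33,
   p422_34,
   p422_35,
   p422_36,
   p422_37,
   p422_38,
   p422_39],
  [tr p448_2,
   p422_41,
   tr p450_2,
   p422_43,
   p422_44,
   tr p452_2,
   p422_46,
   tr p453_2],
  [p422_48,
   p422_49,
   p422_50,
   p422_51,
   p422_52,
   p422_53,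
   p422_54,
   p422_55],
  [p422_56,
   tr p455_2,
   p422_58,
   tr p457_2,
   tr p458_2,
   p422_61,
   tr p459_2,
   p422_63]]

theorem k422 : eqNN c422 (slO 64 (D.chG 58 2) 8) = true := by decide +kernel

/-- The slices of the chunk 423. -/
noncomputable def c423 : List (List ℕ) := [
  [p423_0,
   tr p421_3,
   p423_2,
   p423_3,
   p423_4,
   x7_6 (x7_5 (x7_4 (s4_6 (x3_2 (x3_1 (x3_0 (s0_2 p423_0))))))),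
   p423_6,
   x7_6 (x7_5 (x7_4 (s4_6 (x3_2 (x3_1 (x3_0 (s0_2 p423_2)))))))],
  [p423_8,
   p423_9,
   p423_10,
   p423_11,
   p423_12,
   p423_13,
   p423_14,
   p423_15],
  [p423_16,
   p423_17,
   p423_18,
   p423_19,
   x7_6 (x7_5 (x7_4 (s4_6 (x3_2 (x3_1 (x3_0 (s0_2 (n5 p423_17)))))))),
   p423_21,
   x7_6 (x7_5 (x7_4 (s4_6 (x3_2 (x3_1 (x3_0 (s0_2 (n5 p423_19)))))))),
   p423_23],
  [p423_24,
   p423_25,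
   p423_26,
   p423_27,
   p423_28,
   p423_29,
   p423_30,
   p423_31],
  [x7_6 (x7_5 (x7_4 (s4_6 (x3_2 (x3_1 (x3_0 (s0_2 (n4 p423_14)))))))),
   x7_6 (x7_5 (x7_4 (s4_6 (x3_2 (x3_1 (x3_0 (s0_2 (n4 p423_10)))))))),
   x7_6 (x7_5 (x7_4 (s4_6 (x3_2 (x3_1 (x3_0 (s0_2 (n4 p423_12)))))))),
   x7_6 (x7_5 (x7_4 (s4_6 (x3_2 (x3_1 (x3_0 (s0_2 (n4 p423_8)))))))),
   x7_6 (x7_5 (x7_4 (s4_6 (x3_2 (x3_1 (x3_0 (s0_2 (n4 p423_15)))))))),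
   x7_6 (x7_5 (x7_4 (s4_6 (x3_2 (x3_1 (x3_0 (s0_2 (n4 p423_11)))))))),
   x7_6 (x7_5 (x7_4 (s4_6 (x3_2 (x3_1 (x3_0 (s0_2 (n4 p423_13)))))))),
   x7_6 (x7_5 (x7_4 (s4_6 (x3_2 (x3_1 (x3_0 (s0_2 (n4 p423_9))))))))],
  [p423_40,
   p423_41,
   p423_42,
   p423_43,
   x7_6 (x7_5 (x7_4 (s4_6 (x3_2 (x3_1 (x3_0 (s0_2 (n6 (n4 p423_41))))))))),
   p423_45,
   x7_6 (x7_5 (x7_4 (s4_6 (x3_2 (x3_1 (x3_0 (s0_2 (n6 (n4 p423_43))))))))),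
   p423_47],
  [x7_6 (x7_5 (x7_4 (s4_6 (x3_2 (x3_1 (x3_0 (s0_2 (n5 (n4 p423_27))))))))),
   x7_6 (x7_5 (x7_4 (s4_6 (x3_2 (x3_1 (x3_0 (s0_2 (n5 (n4 p423_31))))))))),
   x7_6 (x7_5 (x7_4 (s4_6 (x3_2 (x3_1 (x3_0 (s0_2 (n5 (n4 p423_25))))))))),
   x7_6 (x7_5 (x7_4 (s4_6 (x3_2 (x3_1 (x3_0 (s0_2 (n5 (n4 p423_29))))))))),
   x7_6 (x7_5 (x7_4 (s4_6 (x3_2 (x3_1 (x3_0 (s0_2 (n5 (n4 p423_26))))))))),
   x7_6 (x7_5 (x7_4 (s4_6 (x3_2 (x3_1 (x3_0 (s0_2 (n5 (n4 p423_30))))))))),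
   x7_6 (x7_5 (x7_4 (s4_6 (x3_2 (x3_1 (x3_0 (s0_2 (n5 (n4 p423_24))))))))),
   x7_6 (x7_5 (x7_4 (s4_6 (x3_2 (x3_1 (x3_0 (s0_2 (n5 (n4 p423_28)))))))))],
  [p423_56,
   p423_57,
   p423_58,
   p423_59,
   p423_60,
   x7_6 (x7_5 (x7_4 (s4_6 (x3_2 (x3_1 (x3_0 (s0_2 (n6 (n5 (n4 p423_56)))))))))),
   p423_62,
   x7_6 (x7_5 (x7_4 (s4_6 (x3_2 (x3_1 (x3_0 (s0_2 (n6 (n5 (n4 p423_58))))))))))]]

theorem k423 : eqNN c423 (slO 64 (D.chG 58 3) 8) = true := by decide +kernel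

end Pool.Agent.Lib.MP_afdd4d_co.K10.E6
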