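import Pool.Agent.Lib.MP_afdd4d_co.K10.E6.Dat
import Pool.Agent.Lib.MP_afdd4d_co.K10.E6.Mk
import Pool.Agent.Lib.MP_afdd4d_co.K8.F6Bl5
import Pool.Agent.Lib.MP_afdd4d_co.K10.E6.P0
import Pool.Agent.Lib.MP_afdd4d_co.K10.E6.P1
import Pool.Agent.Lib.MP_afdd4d_co.K10.E6.P2
import Pool.Agent.Lib.MP_afdd4d_co.K10.E6.P3
import Pool.Agent.Lib.MP_afdd4d_co.K10.E6.P4
import Pool.Agent.Lib.MP_afdd4d_co.K10.E6.P5
import Pool.Agent.Lib.MP_afdd4d_co.K10.E6.P6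
import Pool.Agent.Lib.MP_afdd4d_co.K10.E6.P7
import Pool.Agent.Lib.MP_afdd4d_co.K10.E6.P8
import Pool.Agent.Lib.MP_afdd4d_co.K10.E6.P9
import Pool.Agent.Lib.MP_afdd4d_co.K10.E6.P10
import Pool.Agent.Lib.MP_afdd4d_co.K10.E6.P11
import Pool.Agent.Lib.MP_afdd4d_co.K10.E6.P12
import Pool.Agent.Lib.MP_afdd4d_co.K10.E6.P13
import Pool.Agent.Lib.MP_afdd4d_co.K10.E6.P14
import Pool.Agent.Lib.MP_afdd4d_co.K10.E6.P15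
import Pool.Agent.Lib.MP_afdd4d_co.K10.E6.P16
import Pool.Agent.Lib.MP_afdd4d_co.K10.E6.P17
import Pool.Agent.Lib.MP_afdd4d_co.K10.E6.P18
import Pool.Agent.Lib.MP_afdd4d_co.K10.E6.P19
import Pool.Agent.Lib.MP_afdd4d_co.K10.E6.P20
import Pool.Agent.Lib.MP_afdd4d_co.K10.E6.P21
import Pool.Agent.Lib.MP_afdd4d_co.K10.E6.P22
import Pool.Agent.Lib.MP_afdd4d_co.K10.E6.P23
import Pool.Agent.Lib.MP_afdd4d_co.K10.E6.P24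
import Pool.Agent.Lib.MP_afdd4d_co.K10.E6.P25
import Pool.Agent.Lib.MP_afdd4d_co.K10.E6.P26
import Pool.Agent.Lib.MP_afdd4d_co.K10.E6.P27
import Pool.Agent.Lib.MP_afdd4d_co.K10.E6.P28
import Pool.Agent.Lib.MP_afdd4d_co.K10.E6.P29
import Pool.Agent.Lib.MP_afdd4d_co.K10.E6.P30
import Pool.Agent.Lib.MP_afdd4d_co.K10.E6.P31
import Pool.Agent.Lib.MP_afdd4d_co.K10.E6.P32

/-!
# Tables
-/

namespace Pool.Agent.Lib.MP_afdd4d_co.K10.E6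

open K8

set_option maxRecDepth 100000
set_option exponentiation.threshold 10000000

/-- The slices of the chunk 424. -/
noncomputable def c424 : List (List ℕ) := [
  [p424_0,
   tr p421_4,
   p424_2,
   tr p423_4,
   p424_4,
   x7_6 (x7_5 (x7_4 (s4_6 (x3_2 (x3_1 (x3_0 (s0_2 p424_0))))))),
   p424_6,
   x7_6 (x7_5 (x7_4 (s4_6 (x3_2 (x3_1 (x3_0 (s0_2 p424_2)))))))],
  [p424_8,
   p424_9,
   p424_10,
   p424_11,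
   p424_12,
   p424_13,
   p424_14,
   p424_15],
  [p424_16,
   p424_17,
   p424_18,
   p424_19,
   x7_6 (x7_5 (x7_4 (s4_6 (x3_2 (x3_1 (x3_0 (s0_2 (n5 p424_17)))))))),
   p424_21,
   x7_6 (x7_5 (x7_4 (s4_6 (x3_2 (x3_1 (x3_0 (s0_2 (n5 p424_19)))))))),
   p424_23],
  [p424_24,
   p424_25,
   p424_26,
   p424_27,
   p424_28,
   p424_29,
   p424_30,
   p424_31],
  [x7_6 (x7_5 (x7_4 (s4_6 (x3_2 (x3_1 (x3_0 (s0_2 (n4 p424_14)))))))),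
   x7_6 (x7_5 (x7_4 (s4_6 (x3_2 (x3_1 (x3_0 (s0_2 (n4 p424_10)))))))),
   x7_6 (x7_5 (x7_4 (s4_6 (x3_2 (x3_1 (x3_0 (s0_2 (n4 p424_12)))))))),
   x7_6 (x7_5 (x7_4 (s4_6 (x3_2 (x3_1 (x3_0 (s0_2 (n4 p424_8)))))))),
   x7_6 (x7_5 (x7_4 (s4_6 (x3_2 (x3_1 (x3_0 (s0_2 (n4 p424_15)))))))),
   x7_6 (x7_5 (x7_4 (s4_6 (x3_2 (x3_1 (x3_0 (s0_2 (n4 p424_11)))))))),
   x7_6 (x7_5 (x7_4 (s4_6 (x3_2 (x3_1 (x3_0 (s0_2 (n4 p424_13)))))))),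
   x7_6 (x7_5 (x7_4 (s4_6 (x3_2 (x3_1 (x3_0 (s0_2 (n4 p424_9))))))))],
  [p424_40,
   p424_41,
   p424_42,
   p424_43,
   x7_6 (x7_5 (x7_4 (s4_6 (x3_2 (x3_1 (x3_0 (s0_2 (n6 (n4 p424_41))))))))),
   p424_45,
   x7_6 (x7_5 (x7_4 (s4_6 (x3_2 (x3_1 (x3_0 (s0_2 (n6 (n4 p424_43))))))))),
   p424_47],
  [x7_6 (x7_5 (x7_4 (s4_6 (x3_2 (x3_1 (x3_0 (s0_2 (n5 (n4 p424_27))))))))),
   x7_6 (x7_5 (x7_4 (s4_6 (x3_2 (x3_1 (x3_0 (s0_2 (n5 (n4 p424_31))))))))),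
   x7_6 (x7_5 (x7_4 (s4_6 (x3_2 (x3_1 (x3_0 (s0_2 (n5 (n4 p424_25))))))))),
   x7_6 (x7_5 (x7_4 (s4_6 (x3_2 (x3_1 (x3_0 (s0_2 (n5 (n4 p424_29))))))))),
   x7_6 (x7_5 (x7_4 (s4_6 (x3_2 (x3_1 (x3_0 (s0_2 (n5 (n4 p424_26))))))))),
   x7_6 (x7_5 (x7_4 (s4_6 (x3_2 (x3_1 (x3_0 (s0_2 (n5 (n4 p424_30))))))))),
   x7_6 (x7_5 (x7_4 (s4_6 (x3_2 (x3_1 (x3_0 (s0_2 (n5 (n4 p424_24))))))))),
   x7_6 (x7_5 (x7_4 (s4_6 (x3_2 (x3_1 (x3_0 (s0_2 (n5 (n4 p424_28)))))))))],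
  [p424_56,
   p424_57,
   p424_58,
   p424_59,
   p424_60,
   x7_6 (x7_5 (x7_4 (s4_6 (x3_2 (x3_1 (x3_0 (s0_2 (n6 (n5 (n4 p424_56)))))))))),
   p424_62,
   x7_6 (x7_5 (x7_4 (s4_6 (x3_2 (x3_1 (x3_0 (s0_2 (n6 (n5 (n4 p424_58))))))))))]]

theorem k424 : eqNN c424 (slO 64 (D.chG 58 4) 8) = true := by decide +kernel

/-- The slices of the chunk 425. -/
noncomputable def c425 : List (List ℕ) := [
  [p425_0,
   tr p421_6,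
   p425_2,
   tr p423_6,
   tr p424_6,
   x7_6 (x7_5 (x7_4 (s4_6 (x3_2 (x3_1 (x3_0 (s0_2 p425_0))))))),
   p425_6,
   x7_6 (x7_5 (x7_4 (s4_6 (x3_2 (x3_1 (x3_0 (s0_2 p425_2)))))))],
  [p425_8,
   p425_9,
   p425_10,
   p425_11,
   p425_12,
   p425_13,
   p425_14,
   p425_15],
  [p425_16,
   p425_17,
   p425_18,
   p425_19,
   x7_6 (x7_5 (x7_4 (s4_6 (x3_2 (x3_1 (x3_0 (s0_2 (n5 p425_17)))))))),
   p425_21,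
   x7_6 (x7_5 (x7_4 (s4_6 (x3_2 (x3_1 (x3_0 (s0_2 (n5 p425_19)))))))),
   p425_23],
  [p425_24,
   p425_25,
   p425_26,
   p425_27,
   p425_28,
   p425_29,
   p425_30,
   p425_31],
  [x7_6 (x7_5 (x7_4 (s4_6 (x3_2 (x3_1 (x3_0 (s0_2 (n4 p425_14)))))))),
   x7_6 (x7_5 (x7_4 (s4_6 (x3_2 (x3_1 (x3_0 (s0_2 (n4 p425_10)))))))),
   x7_6 (x7_5 (x7_4 (s4_6 (x3_2 (x3_1 (x3_0 (s0_2 (n4 p425_12)))))))),
   x7_6 (x7_5 (x7_4 (s4_6 (x3_2 (x3_1 (x3_0 (s0_2 (n4 p425_8)))))))),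
   x7_6 (x7_5 (x7_4 (s4_6 (x3_2 (x3_1 (x3_0 (s0_2 (n4 p425_15)))))))),
   x7_6 (x7_5 (x7_4 (s4_6 (x3_2 (x3_1 (x3_0 (s0_2 (n4 p425_11)))))))),
   x7_6 (x7_5 (x7_4 (s4_6 (x3_2 (x3_1 (x3_0 (s0_2 (n4 p425_13)))))))),
   x7_6 (x7_5 (x7_4 (s4_6 (x3_2 (x3_1 (x3_0 (s0_2 (n4 p425_9))))))))],
  [p425_40,
   p425_41,
   p425_42,
   p425_43,
   x7_6 (x7_5 (x7_4 (s4_6 (x3_2 (x3_1 (x3_0 (s0_2 (n6 (n4 p425_41))))))))),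
   p425_45,
   x7_6 (x7_5 (x7_4 (s4_6 (x3_2 (x3_1 (x3_0 (s0_2 (n6 (n4 p425_43))))))))),
   p425_47],
  [x7_6 (x7_5 (x7_4 (s4_6 (x3_2 (x3_1 (x3_0 (s0_2 (n5 (n4 p425_27))))))))),
   x7_6 (x7_5 (x7_4 (s4_6 (x3_2 (x3_1 (x3_0 (s0_2 (n5 (n4 p425_31))))))))),
   x7_6 (x7_5 (x7_4 (s4_6 (x3_2 (x3_1 (x3_0 (s0_2 (n5 (n4 p425_25))))))))),
   x7_6 (x7_5 (x7_4 (s4_6 (x3_2 (x3_1 (x3_0 (s0_2 (n5 (n4 p425_29))))))))),
   x7_6 (x7_5 (x7_4 (s4_6 (x3_2 (x3_1 (x3_0 (s0_2 (n5 (n4 p425_26))))))))),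
   x7_6 (x7_5 (x7_4 (s4_6 (x3_2 (x3_1 (x3_0 (s0_2 (n5 (n4 p425_30))))))))),
   x7_6 (x7_5 (x7_4 (s4_6 (x3_2 (x3_1 (x3_0 (s0_2 (n5 (n4 p425_24))))))))),
   x7_6 (x7_5 (x7_4 (s4_6 (x3_2 (x3_1 (x3_0 (s0_2 (n5 (n4 p425_28)))))))))],
  [p425_56,
   p425_57,
   p425_58,
   p425_59,
   p425_60,
   x7_6 (x7_5 (x7_4 (s4_6 (x3_2 (x3_1 (x3_0 (s0_2 (n6 (n5 (n4 p425_56)))))))))),
   p425_62,
   x7_6 (x7_5 (x7_4 (s4_6 (x3_2 (x3_1 (x3_0 (s0_2 (n6 (n5 (n4 p425_58))))))))))]]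

theorem k425 : eqNN c425 (slO 64 (D.chG 58 6) 8) = true := by decide +kernel

/-- The slices of the chunk 426. -/
noncomputable def c426 : List (List ℕ) := [
  [tr p420_8,
   tr p421_8,
   tr p422_8,
   tr p423_8,
   tr p424_8,
   x7_6 (x7_5 (x7_4 (x3_2 (x3_1 (x3_0 (s3_7 (s2_4 (s1_5 (s0_6 (n6 p420_35)))))))))),
   tr p425_8,
   x7_6 (x7_5 (x7_4 (x3_2 (x3_1 (x3_0 (s3_7 (s2_4 (s1_5 (s0_6 (n6 p422_35))))))))))],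
  [p426_8,
   p426_9,
   p426_10,
   p426_11,
   p426_12,
   p426_13,
   p426_14,
   p426_15],
  [tr p434_8,
   p426_17,
   tr p436_8,
   p426_19,
   p426_20,
   tr p438_8,
   p426_22,
   tr p439_8],
  [p426_24,
   p426_25,
   p426_26,
   p426_27,
   p426_28,
   p426_29,
   p426_30,
   p426_31],
  [p426_32,
   p426_33,
   p426_34,
   p426_35,
   p426_36,
   p426_37,
   p426_38,
   p426_39],
  [tr p448_8,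
   p426_41,
   tr p450_8,
   p426_43,
   p426_44,
   tr p452_8,
   p426_46,
   tr p453_8],
  [p426_48,
   p426_49,
   p426_50,
   p426_51,
   p426_52,
   p426_53,
   p426_54,
   p426_55],
  [p426_56,
   tr p455_8,
   p426_58,
   tr p457_8,
   tr p458_8,
   p426_61,
   tr p459_8,
   p426_63]]

theorem k426 : eqNN c426 (slO 64 (D.chG 58 8) 8) = true := by decide +kernel

/-- The slices of the chunk 427. -/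
noncomputable def c427 : List (List ℕ) := [
  [tr p420_9,
   tr p421_9,
   tr p422_9,
   tr p423_9,
   tr p424_9,
   x7_6 (x7_5 (x7_4 (x3_2 (x3_1 (x3_0 (s3_7 (s2_4 (s1_5 (s0_6 (n6 p420_39)))))))))),
   tr p425_9,
   x7_6 (x7_5 (x7_4 (x3_2 (x3_1 (x3_0 (s3_7 (s2_4 (s1_5 (s0_6 (n6 p422_39))))))))))],
  [tr p426_9,
   p427_9,
   p427_10,
   p427_11,
   p427_12,
   p427_13,
   p427_14,
   p427_15],
  [tr p434_9,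
   p427_17,
   tr p436_9,
   p427_19,
   p427_20,
   tr p438_9,
   p427_22,
   tr p439_9],
  [p427_24,
   p427_25,
   p427_26,
   p427_27,
   p427_28,
   p427_29,
   p427_30,
   p427_31],
  [p427_32,
   p427_33,
   p427_34,
   x7_6 (x7_5 (x7_4 (x3_2 (x3_1 (x3_0 (s3_7 (s2_4 (s1_5 (s0_6 (n6 (n0 p426_39))))))))))),
   p427_36,
   p427_37,
   p427_38,
   p427_39],
  [tr p448_9,
   p427_41,
   tr p450_9,
   p427_43,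
   p427_44,
   tr p452_9,
   p427_46,
   tr p453_9],
  [p427_48,
   p427_49,
   p427_50,
   p427_51,
   p427_52,
   p427_53,
   p427_54,
   p427_55],
  [p427_56,
   tr p455_9,
   p427_58,
   tr p457_9,
   tr p458_9,
   p427_61,
   tr p459_9,
   p427_63]]

theorem k427 : eqNN c427 (slO 64 (D.chG 58 9) 8) = true := by decide +kernel

end Pool.Agent.Lib.MP_afdd4d_co.K10.E6
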