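import Pool.Agent.Lib.MP_afdd4d_co.K10.E6.Dat
import Pool.Agent.Lib.MP_afdd4d_co.K10.E6.Mk
import Pool.Agent.Lib.MP_afdd4d_co.K8.F6Bl5
import Pool.Agent.Lib.MP_afdd4d_co.K10.E6.P0
import Pool.Agent.Lib.MP_afdd4d_co.K10.E6.P1
import Pool.Agent.Lib.MP_afdd4d_co.K10.E6.P2
import Pool.Agent.Lib.MP_afdd4d_co.K10.E6.P3
import Pool.Agent.Lib.MP_afdd4d_co.K10.E6.P4
import Pool.Agent.Lib.MP_afdd4d_co.K10.E6.P5
import Pool.Agent.Lib.MP_afdd4d_co.K10.E6.P6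
import Pool.Agent.Lib.MP_afdd4d_co.K10.E6.P7
import Pool.Agent.Lib.MP_afdd4d_co.K10.E6.P8
import Pool.Agent.Lib.MP_afdd4d_co.K10.E6.P9
import Pool.Agent.Lib.MP_afdd4d_co.K10.E6.P10
import Pool.Agent.Lib.MP_afdd4d_co.K10.E6.P11
import Pool.Agent.Lib.MP_afdd4d_co.K10.E6.P12
import Pool.Agent.Lib.MP_afdd4d_co.K10.E6.P13
import Pool.Agent.Lib.MP_afdd4d_co.K10.E6.P14
import Pool.Agent.Lib.MP_afdd4d_co.K10.E6.P15
import Pool.Agent.Lib.MP_afdd4d_co.K10.E6.P16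
import Pool.Agent.Lib.MP_afdd4d_co.K10.E6.P17
import Pool.Agent.Lib.MP_afdd4d_co.K10.E6.P18
import Pool.Agent.Lib.MP_afdd4d_co.K10.E6.P19
import Pool.Agent.Lib.MP_afdd4d_co.K10.E6.P20
import Pool.Agent.Lib.MP_afdd4d_co.K10.E6.P21
import Pool.Agent.Lib.MP_afdd4d_co.K10.E6.P22
import Pool.Agent.Lib.MP_afdd4d_co.K10.E6.P23
import Pool.Agent.Lib.MP_afdd4d_co.K10.E6.P24
import Pool.Agent.Lib.MP_afdd4d_co.K10.E6.P25
import Pool.Agent.Lib.MP_afdd4d_co.K10.E6.P26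
import Pool.Agent.Lib.MP_afdd4d_co.K10.E6.P27
import Pool.Agent.Lib.MP_afdd4d_co.K10.E6.P28
import Pool.Agent.Lib.MP_afdd4d_co.K10.E6.P29
import Pool.Agent.Lib.MP_afdd4d_co.K10.E6.P30
import Pool.Agent.Lib.MP_afdd4d_co.K10.E6.P31
import Pool.Agent.Lib.MP_afdd4d_co.K10.E6.P32

/-!
# Tables
-/

namespace Pool.Agent.Lib.MP_afdd4d_co.K10.E6

open K8

set_option maxRecDepth 100000
set_option exponentiation.threshold 10000000

/-- The slices of the chunk 428. -/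
noncomputable def c428 : List (List ℕ) := [
  [tr p420_10,
   tr p421_10,
   tr p422_10,
   tr p423_10,
   tr p424_10,
   x7_6 (x7_5 (x7_4 (x3_2 (x3_1 (x3_0 (s3_7 (s2_4 (s1_5 (s0_6 (n6 p420_33)))))))))),
   tr p425_10,
   x7_6 (x7_5 (x7_4 (x3_2 (x3_1 (x3_0 (s3_7 (s2_4 (s1_5 (s0_6 (n6 p422_33))))))))))],
  [tr p426_10,
   tr p427_10,
   p428_10,
   p428_11,
   p428_12,
   p428_13,
   p428_14,
   p428_15],
  [tr p434_10,
   p428_17,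
   tr p436_10,
   p428_19,
   p428_20,
   tr p438_10,
   p428_22,
   tr p439_10],
  [p428_24,
   p428_25,
   p428_26,
   p428_27,
   p428_28,
   p428_29,
   p428_30,
   p428_31],
  [p428_32,
   p428_33,
   p428_34,
   x7_6 (x7_5 (x7_4 (x3_2 (x3_1 (x3_0 (s3_7 (s2_4 (s1_5 (s0_6 (n6 (n0 p426_33))))))))))),
   p428_36,
   p428_37,
   p428_38,
   x7_6 (x7_5 (x7_4 (x3_2 (x3_1 (x3_0 (s3_7 (s2_4 (s1_5 (s0_6 (n6 (n0 p427_33)))))))))))],
  [tr p448_10,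
   p428_41,
   tr p450_10,
   p428_43,
   p428_44,
   tr p452_10,
   p428_46,
   tr p453_10],
  [p428_48,
   p428_49,
   p428_50,
   p428_51,
   p428_52,
   p428_53,
   p428_54,
   p428_55],
  [p428_56,
   tr p455_10,
   p428_58,
   tr p457_10,
   tr p458_10,
   p428_61,
   tr p459_10,
   p428_63]]

theorem k428 : eqNN c428 (slO 64 (D.chG 58 10) 8) = true := by decide +kernel

/-- The slices of the chunk 429. -/
noncomputable def c429 : List (List ℕ) := [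
  [tr p420_11,
   tr p421_11,
   tr p422_11,
   tr p423_11,
   tr p424_11,
   x7_6 (x7_5 (x7_4 (x3_2 (x3_1 (x3_0 (s3_7 (s2_4 (s1_5 (s0_6 (n6 p420_37)))))))))),
   tr p425_11,
   x7_6 (x7_5 (x7_4 (x3_2 (x3_1 (x3_0 (s3_7 (s2_4 (s1_5 (s0_6 (n6 p422_37))))))))))],
  [tr p426_11,
   tr p427_11,
   tr p428_11,
   p429_11,
   p429_12,
   p429_13,
   p429_14,
   p429_15],
  [tr p434_11,
   p429_17,
   tr p436_11,
   p429_19,
   p429_20,
   tr p438_11,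
   p429_22,
   tr p439_11],
  [p429_24,
   p429_25,
   p429_26,
   p429_27,
   p429_28,
   p429_29,
   p429_30,
   p429_31],
  [p429_32,
   x7_6 (x7_5 (x7_4 (x3_2 (x3_1 (x3_0 (s3_7 (s2_4 (s1_5 (s0_6 (n6 (n0 p428_37))))))))))),
   p429_34,
   x7_6 (x7_5 (x7_4 (x3_2 (x3_1 (x3_0 (s3_7 (s2_4 (s1_5 (s0_6 (n6 (n0 p426_37))))))))))),
   p429_36,
   p429_37,
   p429_38,
   x7_6 (x7_5 (x7_4 (x3_2 (x3_1 (x3_0 (s3_7 (s2_4 (s1_5 (s0_6 (n6 (n0 p427_37)))))))))))],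
  [tr p448_11,
   p429_41,
   tr p450_11,
   p429_43,
   p429_44,
   tr p452_11,
   p429_46,
   tr p453_11],
  [p429_48,
   p429_49,
   p429_50,
   p429_51,
   p429_52,
   p429_53,
   p429_54,
   p429_55],
  [p429_56,
   tr p455_11,
   p429_58,
   tr p457_11,
   tr p458_11,
   p429_61,
   tr p459_11,
   p429_63]]

theorem k429 : eqNN c429 (slO 64 (D.chG 58 11) 8) = true := by decide +kernel

/-- The slices of the chunk 430. -/
noncomputable def c430 : List (List ℕ) := [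
  [tr p420_12,
   tr p421_12,
   tr p422_12,
   tr p423_12,
   tr p424_12,
   x7_6 (x7_5 (x7_4 (x3_2 (x3_1 (x3_0 (s3_7 (s2_4 (s1_5 (s0_6 (n6 p420_34)))))))))),
   tr p425_12,
   x7_6 (x7_5 (x7_4 (x3_2 (x3_1 (x3_0 (s3_7 (s2_4 (s1_5 (s0_6 (n6 p422_34))))))))))],
  [tr p426_12,
   tr p427_12,
   tr p428_12,
   tr p429_12,
   p430_12,
   p430_13,
   p430_14,
   p430_15],
  [tr p434_12,
   p430_17,
   tr p436_12,
   p430_19,
   p430_20,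
   tr p438_12,
   p430_22,
   tr p439_12],
  [p430_24,
   p430_25,
   p430_26,
   p430_27,
   p430_28,
   p430_29,
   p430_30,
   p430_31],
  [p430_32,
   x7_6 (x7_5 (x7_4 (x3_2 (x3_1 (x3_0 (s3_7 (s2_4 (s1_5 (s0_6 (n6 (n0 p428_34))))))))))),
   p430_34,
   x7_6 (x7_5 (x7_4 (x3_2 (x3_1 (x3_0 (s3_7 (s2_4 (s1_5 (s0_6 (n6 (n0 p426_34))))))))))),
   p430_36,
   x7_6 (x7_5 (x7_4 (x3_2 (x3_1 (x3_0 (s3_7 (s2_4 (s1_5 (s0_6 (n6 (n0 p429_34))))))))))),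
   p430_38,
   x7_6 (x7_5 (x7_4 (x3_2 (x3_1 (x3_0 (s3_7 (s2_4 (s1_5 (s0_6 (n6 (n0 p427_34)))))))))))],
  [tr p448_12,
   p430_41,
   tr p450_12,
   p430_43,
   p430_44,
   tr p452_12,
   p430_46,
   tr p453_12],
  [p430_48,
   p430_49,
   p430_50,
   p430_51,
   p430_52,
   p430_53,
   p430_54,
   p430_55],
  [p430_56,
   tr p455_12,
   p430_58,
   tr p457_12,
   tr p458_12,
   p430_61,
   tr p459_12,
   p430_63]]

theorem k430 : eqNN c430 (slO 64 (D.chG 58 12) 8) = true := by decide +kernel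

/-- The slices of the chunk 431. -/
noncomputable def c431 : List (List ℕ) := [
  [tr p420_13,
   tr p421_13,
   tr p422_13,
   tr p423_13,
   tr p424_13,
   x7_6 (x7_5 (x7_4 (x3_2 (x3_1 (x3_0 (s3_7 (s2_4 (s1_5 (s0_6 (n6 p420_38)))))))))),
   tr p425_13,
   x7_6 (x7_5 (x7_4 (x3_2 (x3_1 (x3_0 (s3_7 (s2_4 (s1_5 (s0_6 (n6 p422_38))))))))))],
  [tr p426_13,
   tr p427_13,
   tr p428_13,
   tr p429_13,
   tr p430_13,
   p431_13,
   p431_14,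
   p431_15],
  [tr p434_13,
   p431_17,
   tr p436_13,
   p431_19,
   p431_20,
   tr p438_13,
   p431_22,
   tr p439_13],
  [p431_24,
   p431_25,
   p431_26,
   p431_27,
   p431_28,
   p431_29,
   p431_30,
   p431_31],
  [p431_32,
   x7_6 (x7_5 (x7_4 (x3_2 (x3_1 (x3_0 (s3_7 (s2_4 (s1_5 (s0_6 (n6 (n0 p428_38))))))))))),
   x7_6 (x7_5 (x7_4 (x3_2 (x3_1 (x3_0 (s3_7 (s2_4 (s1_5 (s0_6 (n6 (n0 p430_38))))))))))),
   x7_6 (x7_5 (x7_4 (x3_2 (x3_1 (x3_0 (s3_7 (s2_4 (s1_5 (s0_6 (n6 (n0 p426_38))))))))))),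
   p431_36,
   x7_6 (x7_5 (x7_4 (x3_2 (x3_1 (x3_0 (s3_7 (s2_4 (s1_5 (s0_6 (n6 (n0 p429_38))))))))))),
   p431_38,
   x7_6 (x7_5 (x7_4 (x3_2 (x3_1 (x3_0 (s3_7 (s2_4 (s1_5 (s0_6 (n6 (n0 p427_38)))))))))))],
  [tr p448_13,
   p431_41,
   tr p450_13,
   p431_43,
   p431_44,
   tr p452_13,
   p431_46,
   tr p453_13],
  [p431_48,
   p431_49,
   p431_50,
   p431_51,
   p431_52,
   p431_53,
   p431_54,
   p431_55],
  [p431_56,
   tr p455_13,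
   p431_58,
   tr p457_13,
   tr p458_13,
   p431_61,
   tr p459_13,
   p431_63]]

theorem k431 : eqNN c431 (slO 64 (D.chG 58 13) 8) = true := by decide +kernel

end Pool.Agent.Lib.MP_afdd4d_co.K10.E6
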