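import Pool.Agent.Lib.MP_afdd4d_co.K10.E6.Dat
import Pool.Agent.Lib.MP_afdd4d_co.K10.E6.Mk
import Pool.Agent.Lib.MP_afdd4d_co.K8.F6Bl5
import Pool.Agent.Lib.MP_afdd4d_co.K10.E6.P0
import Pool.Agent.Lib.MP_afdd4d_co.K10.E6.P1
import Pool.Agent.Lib.MP_afdd4d_co.K10.E6.P2
import Pool.Agent.Lib.MP_afdd4d_co.K10.E6.P3
import Pool.Agent.Lib.MP_afdd4d_co.K10.E6.P4
import Pool.Agent.Lib.MP_afdd4d_co.K10.E6.P5
import Pool.Agent.Lib.MP_afdd4d_co.K10.E6.P6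
import Pool.Agent.Lib.MP_afdd4d_co.K10.E6.P7
import Pool.Agent.Lib.MP_afdd4d_co.K10.E6.P8
import Pool.Agent.Lib.MP_afdd4d_co.K10.E6.P9
import Pool.Agent.Lib.MP_afdd4d_co.K10.E6.P10
import Pool.Agent.Lib.MP_afdd4d_co.K10.E6.P11
import Pool.Agent.Lib.MP_afdd4d_co.K10.E6.P12
import Pool.Agent.Lib.MP_afdd4d_co.K10.E6.P13
import Pool.Agent.Lib.MP_afdd4d_co.K10.E6.P14
import Pool.Agent.Lib.MP_afdd4d_co.K10.E6.P15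
import Pool.Agent.Lib.MP_afdd4d_co.K10.E6.P16
import Pool.Agent.Lib.MP_afdd4d_co.K10.E6.P17
import Pool.Agent.Lib.MP_afdd4d_co.K10.E6.P18
import Pool.Agent.Lib.MP_afdd4d_co.K10.E6.P19
import Pool.Agent.Lib.MP_afdd4d_co.K10.E6.P20
import Pool.Agent.Lib.MP_afdd4d_co.K10.E6.P21
import Pool.Agent.Lib.MP_afdd4d_co.K10.E6.P22
import Pool.Agent.Lib.MP_afdd4d_co.K10.E6.P23
import Pool.Agent.Lib.MP_afdd4d_co.K10.E6.P24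
import Pool.Agent.Lib.MP_afdd4d_co.K10.E6.P25
import Pool.Agent.Lib.MP_afdd4d_co.K10.E6.P26
import Pool.Agent.Lib.MP_afdd4d_co.K10.E6.P27
import Pool.Agent.Lib.MP_afdd4d_co.K10.E6.P28
import Pool.Agent.Lib.MP_afdd4d_co.K10.E6.P29
import Pool.Agent.Lib.MP_afdd4d_co.K10.E6.P30
import Pool.Agent.Lib.MP_afdd4d_co.K10.E6.P31
import Pool.Agent.Lib.MP_afdd4d_co.K10.E6.P32

/-!
# Tables
-/

namespace Pool.Agent.Lib.MP_afdd4d_co.K10.E6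

open K8

set_option maxRecDepth 100000
set_option exponentiation.threshold 10000000

/-- The slices of the chunk 432. -/
noncomputable def c432 : List (List ℕ) := [
  [tr p420_14,
   tr p421_14,
   tr p422_14,
   tr p423_14,
   tr p424_14,
   x7_6 (x7_5 (x7_4 (x3_2 (x3_1 (x3_0 (s3_7 (s2_4 (s1_5 (s0_6 (n6 p420_32)))))))))),
   tr p425_14,
   x7_6 (x7_5 (x7_4 (x3_2 (x3_1 (x3_0 (s3_7 (s2_4 (s1_5 (s0_6 (n6 p422_32))))))))))],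
  [tr p426_14,
   tr p427_14,
   tr p428_14,
   tr p429_14,
   tr p430_14,
   tr p431_14,
   p432_14,
   p432_15],
  [tr p434_14,
   p432_17,
   tr p436_14,
   p432_19,
   p432_20,
   tr p438_14,
   p432_22,
   tr p439_14],
  [p432_24,
   p432_25,
   p432_26,
   p432_27,
   p432_28,
   p432_29,
   p432_30,
   p432_31],
  [p432_32,
   x7_6 (x7_5 (x7_4 (x3_2 (x3_1 (x3_0 (s3_7 (s2_4 (s1_5 (s0_6 (n6 (n0 p428_32))))))))))),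
   x7_6 (x7_5 (x7_4 (x3_2 (x3_1 (x3_0 (s3_7 (s2_4 (s1_5 (s0_6 (n6 (n0 p430_32))))))))))),
   x7_6 (x7_5 (x7_4 (x3_2 (x3_1 (x3_0 (s3_7 (s2_4 (s1_5 (s0_6 (n6 (n0 p426_32))))))))))),
   p432_36,
   x7_6 (x7_5 (x7_4 (x3_2 (x3_1 (x3_0 (s3_7 (s2_4 (s1_5 (s0_6 (n6 (n0 p429_32))))))))))),
   x7_6 (x7_5 (x7_4 (x3_2 (x3_1 (x3_0 (s3_7 (s2_4 (s1_5 (s0_6 (n6 (n0 p431_32))))))))))),
   x7_6 (x7_5 (x7_4 (x3_2 (x3_1 (x3_0 (s3_7 (s2_4 (s1_5 (s0_6 (n6 (n0 p427_32)))))))))))],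
  [tr p448_14,
   p432_41,
   tr p450_14,
   p432_43,
   p432_44,
   tr p452_14,
   p432_46,
   tr p453_14],
  [p432_48,
   p432_49,
   p432_50,
   p432_51,
   p432_52,
   p432_53,
   p432_54,
   p432_55],
  [p432_56,
   tr p455_14,
   p432_58,
   tr p457_14,
   tr p458_14,
   p432_61,
   tr p459_14,
   p432_63]]

theorem k432 : eqNN c432 (slO 64 (D.chG 58 14) 8) = true := by decide +kernel

/-- The slices of the chunk 433. -/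
noncomputable def c433 : List (List ℕ) := [
  [tr p420_15,
   tr p421_15,
   tr p422_15,
   tr p423_15,
   tr p424_15,
   x7_6 (x7_5 (x7_4 (x3_2 (x3_1 (x3_0 (s3_7 (s2_4 (s1_5 (s0_6 (n6 p420_36)))))))))),
   tr p425_15,
   x7_6 (x7_5 (x7_4 (x3_2 (x3_1 (x3_0 (s3_7 (s2_4 (s1_5 (s0_6 (n6 p422_36))))))))))],
  [tr p426_15,
   tr p427_15,
   tr p428_15,
   tr p429_15,
   tr p430_15,
   tr p431_15,
   tr p432_15,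
   p433_15],
  [tr p434_15,
   p433_17,
   tr p436_15,
   p433_19,
   p433_20,
   tr p438_15,
   p433_22,
   tr p439_15],
  [p433_24,
   p433_25,
   p433_26,
   p433_27,
   p433_28,
   p433_29,
   p433_30,
   p433_31],
  [x7_6 (x7_5 (x7_4 (x3_2 (x3_1 (x3_0 (s3_7 (s2_4 (s1_5 (s0_6 (n6 (n0 p432_36))))))))))),
   x7_6 (x7_5 (x7_4 (x3_2 (x3_1 (x3_0 (s3_7 (s2_4 (s1_5 (s0_6 (n6 (n0 p428_36))))))))))),
   x7_6 (x7_5 (x7_4 (x3_2 (x3_1 (x3_0 (s3_7 (s2_4 (s1_5 (s0_6 (n6 (n0 p430_36))))))))))),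
   x7_6 (x7_5 (x7_4 (x3_2 (x3_1 (x3_0 (s3_7 (s2_4 (s1_5 (s0_6 (n6 (n0 p426_36))))))))))),
   p433_36,
   x7_6 (x7_5 (x7_4 (x3_2 (x3_1 (x3_0 (s3_7 (s2_4 (s1_5 (s0_6 (n6 (n0 p429_36))))))))))),
   x7_6 (x7_5 (x7_4 (x3_2 (x3_1 (x3_0 (s3_7 (s2_4 (s1_5 (s0_6 (n6 (n0 p431_36))))))))))),
   x7_6 (x7_5 (x7_4 (x3_2 (x3_1 (x3_0 (s3_7 (s2_4 (s1_5 (s0_6 (n6 (n0 p427_36)))))))))))],
  [tr p448_15,
   p433_41,
   tr p450_15,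
   p433_43,
   p433_44,
   tr p452_15,
   p433_46,
   tr p453_15],
  [p433_48,
   p433_49,
   p433_50,
   p433_51,
   p433_52,
   p433_53,
   p433_54,
   p433_55],
  [p433_56,
   tr p455_15,
   p433_58,
   tr p457_15,
   tr p458_15,
   p433_61,
   tr p459_15,
   p433_63]]

theorem k433 : eqNN c433 (slO 64 (D.chG 58 15) 8) = true := by decide +kernel

/-- The slices of the chunk 434. -/
noncomputable def c434 : List (List ℕ) := [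
  [p434_0,
   tr p421_16,
   p434_2,
   tr p423_16,
   tr p424_16,
   x7_6 (x7_5 (x7_4 (s4_6 (x3_2 (x3_1 (x3_0 (s0_2 (n1 p434_0)))))))),
   tr p425_16,
   x7_6 (x7_5 (x7_4 (s4_6 (x3_2 (x3_1 (x3_0 (s0_2 (n1 p434_2))))))))],
  [p434_8,
   p434_9,
   p434_10,
   p434_11,
   p434_12,
   p434_13,
   p434_14,
   p434_15],
  [p434_16,
   p434_17,
   p434_18,
   p434_19,
   x7_6 (x7_5 (x7_4 (s4_6 (x3_2 (x3_1 (x3_0 (s0_2 (n5 (n1 p434_17))))))))),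
   p434_21,
   x7_6 (x7_5 (x7_4 (s4_6 (x3_2 (x3_1 (x3_0 (s0_2 (n5 (n1 p434_19))))))))),
   p434_23],
  [p434_24,
   p434_25,
   p434_26,
   p434_27,
   p434_28,
   p434_29,
   p434_30,
   p434_31],
  [x7_6 (x7_5 (x7_4 (s4_6 (x3_2 (x3_1 (x3_0 (s0_2 (n4 (n1 p434_14))))))))),
   x7_6 (x7_5 (x7_4 (s4_6 (x3_2 (x3_1 (x3_0 (s0_2 (n4 (n1 p434_10))))))))),
   x7_6 (x7_5 (x7_4 (s4_6 (x3_2 (x3_1 (x3_0 (s0_2 (n4 (n1 p434_12))))))))),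
   x7_6 (x7_5 (x7_4 (s4_6 (x3_2 (x3_1 (x3_0 (s0_2 (n4 (n1 p434_8))))))))),
   x7_6 (x7_5 (x7_4 (s4_6 (x3_2 (x3_1 (x3_0 (s0_2 (n4 (n1 p434_15))))))))),
   x7_6 (x7_5 (x7_4 (s4_6 (x3_2 (x3_1 (x3_0 (s0_2 (n4 (n1 p434_11))))))))),
   x7_6 (x7_5 (x7_4 (s4_6 (x3_2 (x3_1 (x3_0 (s0_2 (n4 (n1 p434_13))))))))),
   x7_6 (x7_5 (x7_4 (s4_6 (x3_2 (x3_1 (x3_0 (s0_2 (n4 (n1 p434_9)))))))))],
  [p434_40,
   p434_41,
   p434_42,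
   p434_43,
   x7_6 (x7_5 (x7_4 (s4_6 (x3_2 (x3_1 (x3_0 (s0_2 (n6 (n4 (n1 p434_41)))))))))),
   p434_45,
   x7_6 (x7_5 (x7_4 (s4_6 (x3_2 (x3_1 (x3_0 (s0_2 (n6 (n4 (n1 p434_43)))))))))),
   p434_47],
  [x7_6 (x7_5 (x7_4 (s4_6 (x3_2 (x3_1 (x3_0 (s0_2 (n5 (n4 (n1 p434_27)))))))))),
   x7_6 (x7_5 (x7_4 (s4_6 (x3_2 (x3_1 (x3_0 (s0_2 (n5 (n4 (n1 p434_31)))))))))),
   x7_6 (x7_5 (x7_4 (s4_6 (x3_2 (x3_1 (x3_0 (s0_2 (n5 (n4 (n1 p434_25)))))))))),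
   x7_6 (x7_5 (x7_4 (s4_6 (x3_2 (x3_1 (x3_0 (s0_2 (n5 (n4 (n1 p434_29)))))))))),
   x7_6 (x7_5 (x7_4 (s4_6 (x3_2 (x3_1 (x3_0 (s0_2 (n5 (n4 (n1 p434_26)))))))))),
   x7_6 (x7_5 (x7_4 (s4_6 (x3_2 (x3_1 (x3_0 (s0_2 (n5 (n4 (n1 p434_30)))))))))),
   x7_6 (x7_5 (x7_4 (s4_6 (x3_2 (x3_1 (x3_0 (s0_2 (n5 (n4 (n1 p434_24)))))))))),
   x7_6 (x7_5 (x7_4 (s4_6 (x3_2 (x3_1 (x3_0 (s0_2 (n5 (n4 (n1 p434_28))))))))))],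
  [p434_56,
   p434_57,
   p434_58,
   p434_59,
   p434_60,
   x7_6 (x7_5 (x7_4 (s4_6 (x3_2 (x3_1 (x3_0 (s0_2 (n6 (n5 (n4 (n1 p434_56))))))))))),
   p434_62,
   x7_6 (x7_5 (x7_4 (s4_6 (x3_2 (x3_1 (x3_0 (s0_2 (n6 (n5 (n4 (n1 p434_58)))))))))))]]

theorem k434 : eqNN c434 (slO 64 (D.chG 58 16) 8) = true := by decide +kernel

/-- The slices of the chunk 435. -/
noncomputable def c435 : List (List ℕ) := [
  [tr p420_17,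
   tr p421_17,
   tr p422_17,
   tr p423_17,
   tr p424_17,
   x7_6 (x7_5 (x7_4 (x3_2 (x3_1 (x3_0 (s3_7 (s2_4 (s1_5 (s0_6 (n5 p420_20)))))))))),
   tr p425_17,
   x7_6 (x7_5 (x7_4 (x3_2 (x3_1 (x3_0 (s3_7 (s2_4 (s1_5 (s0_6 (n5 p422_20))))))))))],
  [tr p426_17,
   tr p427_17,
   tr p428_17,
   tr p429_17,
   tr p430_17,
   tr p431_17,
   tr p432_17,
   tr p433_17],
  [tr p434_17,
   p435_17,
   tr p436_17,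
   p435_19,
   p435_20,
   tr p438_17,
   p435_22,
   tr p439_17],
  [p435_24,
   p435_25,
   p435_26,
   p435_27,
   p435_28,
   p435_29,
   p435_30,
   p435_31],
  [x7_6 (x7_5 (x7_4 (x3_2 (x3_1 (x3_0 (s3_7 (s2_4 (s1_5 (s0_6 (n5 (n0 p432_20))))))))))),
   x7_6 (x7_5 (x7_4 (x3_2 (x3_1 (x3_0 (s3_7 (s2_4 (s1_5 (s0_6 (n5 (n0 p428_20))))))))))),
   x7_6 (x7_5 (x7_4 (x3_2 (x3_1 (x3_0 (s3_7 (s2_4 (s1_5 (s0_6 (n5 (n0 p430_20))))))))))),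
   x7_6 (x7_5 (x7_4 (x3_2 (x3_1 (x3_0 (s3_7 (s2_4 (s1_5 (s0_6 (n5 (n0 p426_20))))))))))),
   x7_6 (x7_5 (x7_4 (x3_2 (x3_1 (x3_0 (s3_7 (s2_4 (s1_5 (s0_6 (n5 (n0 p433_20))))))))))),
   x7_6 (x7_5 (x7_4 (x3_2 (x3_1 (x3_0 (s3_7 (s2_4 (s1_5 (s0_6 (n5 (n0 p429_20))))))))))),
   x7_6 (x7_5 (x7_4 (x3_2 (x3_1 (x3_0 (s3_7 (s2_4 (s1_5 (s0_6 (n5 (n0 p431_20))))))))))),
   x7_6 (x7_5 (x7_4 (x3_2 (x3_1 (x3_0 (s3_7 (s2_4 (s1_5 (s0_6 (n5 (n0 p427_20)))))))))))],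
  [tr p448_17,
   p435_41,
   tr p450_17,
   p435_43,
   p435_44,
   tr p452_17,
   p435_46,
   tr p453_17],
  [p435_48,
   p435_49,
   p435_50,
   p435_51,
   p435_52,
   p435_53,
   p435_54,
   p435_55],
  [p435_56,
   tr p455_17,
   p435_58,
   tr p457_17,
   tr p458_17,
   p435_61,
   tr p459_17,
   p435_63]]

theorem k435 : eqNN c435 (slO 64 (D.chG 58 17) 8) = true := by decide +kernel

end Pool.Agent.Lib.MP_afdd4d_co.K10.E6
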