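import Pool.Agent.Lib.MP_afdd4d_co.K10.E6.Dat
import Pool.Agent.Lib.MP_afdd4d_co.K10.E6.Mk
import Pool.Agent.Lib.MP_afdd4d_co.K8.F6Bl5
import Pool.Agent.Lib.MP_afdd4d_co.K10.E6.P0
import Pool.Agent.Lib.MP_afdd4d_co.K10.E6.P1
import Pool.Agent.Lib.MP_afdd4d_co.K10.E6.P2
import Pool.Agent.Lib.MP_afdd4d_co.K10.E6.P3
import Pool.Agent.Lib.MP_afdd4d_co.K10.E6.P4
import Pool.Agent.Lib.MP_afdd4d_co.K10.E6.P5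
import Pool.Agent.Lib.MP_afdd4d_co.K10.E6.P6
import Pool.Agent.Lib.MP_afdd4d_co.K10.E6.P7
import Pool.Agent.Lib.MP_afdd4d_co.K10.E6.P8
import Pool.Agent.Lib.MP_afdd4d_co.K10.E6.P9
import Pool.Agent.Lib.MP_afdd4d_co.K10.E6.P10
import Pool.Agent.Lib.MP_afdd4d_co.K10.E6.P11
import Pool.Agent.Lib.MP_afdd4d_co.K10.E6.P12
import Pool.Agent.Lib.MP_afdd4d_co.K10.E6.P13
import Pool.Agent.Lib.MP_afdd4d_co.K10.E6.P14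
import Pool.Agent.Lib.MP_afdd4d_co.K10.E6.P15
import Pool.Agent.Lib.MP_afdd4d_co.K10.E6.P16
import Pool.Agent.Lib.MP_afdd4d_co.K10.E6.P17
import Pool.Agent.Lib.MP_afdd4d_co.K10.E6.P18
import Pool.Agent.Lib.MP_afdd4d_co.K10.E6.P19
import Pool.Agent.Lib.MP_afdd4d_co.K10.E6.P20
import Pool.Agent.Lib.MP_afdd4d_co.K10.E6.P21
import Pool.Agent.Lib.MP_afdd4d_co.K10.E6.P22
import Pool.Agent.Lib.MP_afdd4d_co.K10.E6.P23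
import Pool.Agent.Lib.MP_afdd4d_co.K10.E6.P24
import Pool.Agent.Lib.MP_afdd4d_co.K10.E6.P25
import Pool.Agent.Lib.MP_afdd4d_co.K10.E6.P26
import Pool.Agent.Lib.MP_afdd4d_co.K10.E6.P27
import Pool.Agent.Lib.MP_afdd4d_co.K10.E6.P28
import Pool.Agent.Lib.MP_afdd4d_co.K10.E6.P29
import Pool.Agent.Lib.MP_afdd4d_co.K10.E6.P30
import Pool.Agent.Lib.MP_afdd4d_co.K10.E6.P31
import Pool.Agent.Lib.MP_afdd4d_co.K10.E6.P32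

/-!
# Tables
-/

namespace Pool.Agent.Lib.MP_afdd4d_co.K10.E6

open K8

set_option maxRecDepth 100000
set_option exponentiation.threshold 10000000

/-- The slices of the chunk 436. -/
noncomputable def c436 : List (List ℕ) := [
  [p436_0,
   tr p421_18,
   p436_2,
   tr p423_18,
   tr p424_18,
   x7_6 (x7_5 (x7_4 (s4_6 (x3_2 (x3_1 (x3_0 (s0_2 (n1 p436_0)))))))),
   tr p425_18,
   x7_6 (x7_5 (x7_4 (s4_6 (x3_2 (x3_1 (x3_0 (s0_2 (n1 p436_2))))))))],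
  [p436_8,
   p436_9,
   p436_10,
   p436_11,
   p436_12,
   p436_13,
   p436_14,
   p436_15],
  [tr p434_18,
   p436_17,
   p436_18,
   p436_19,
   x7_6 (x7_5 (x7_4 (s4_6 (x3_2 (x3_1 (x3_0 (s0_2 (n5 (n1 p436_17))))))))),
   p436_21,
   x7_6 (x7_5 (x7_4 (s4_6 (x3_2 (x3_1 (x3_0 (s0_2 (n5 (n1 p436_19))))))))),
   p436_23],
  [p436_24,
   p436_25,
   p436_26,
   p436_27,
   p436_28,
   p436_29,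
   p436_30,
   p436_31],
  [x7_6 (x7_5 (x7_4 (s4_6 (x3_2 (x3_1 (x3_0 (s0_2 (n4 (n1 p436_14))))))))),
   x7_6 (x7_5 (x7_4 (s4_6 (x3_2 (x3_1 (x3_0 (s0_2 (n4 (n1 p436_10))))))))),
   x7_6 (x7_5 (x7_4 (s4_6 (x3_2 (x3_1 (x3_0 (s0_2 (n4 (n1 p436_12))))))))),
   x7_6 (x7_5 (x7_4 (s4_6 (x3_2 (x3_1 (x3_0 (s0_2 (n4 (n1 p436_8))))))))),
   x7_6 (x7_5 (x7_4 (s4_6 (x3_2 (x3_1 (x3_0 (s0_2 (n4 (n1 p436_15))))))))),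
   x7_6 (x7_5 (x7_4 (s4_6 (x3_2 (x3_1 (x3_0 (s0_2 (n4 (n1 p436_11))))))))),
   x7_6 (x7_5 (x7_4 (s4_6 (x3_2 (x3_1 (x3_0 (s0_2 (n4 (n1 p436_13))))))))),
   x7_6 (x7_5 (x7_4 (s4_6 (x3_2 (x3_1 (x3_0 (s0_2 (n4 (n1 p436_9)))))))))],
  [p436_40,
   p436_41,
   p436_42,
   p436_43,
   x7_6 (x7_5 (x7_4 (s4_6 (x3_2 (x3_1 (x3_0 (s0_2 (n6 (n4 (n1 p436_41)))))))))),
   p436_45,
   x7_6 (x7_5 (x7_4 (s4_6 (x3_2 (x3_1 (x3_0 (s0_2 (n6 (n4 (n1 p436_43)))))))))),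
   p436_47],
  [x7_6 (x7_5 (x7_4 (s4_6 (x3_2 (x3_1 (x3_0 (s0_2 (n5 (n4 (n1 p436_27)))))))))),
   x7_6 (x7_5 (x7_4 (s4_6 (x3_2 (x3_1 (x3_0 (s0_2 (n5 (n4 (n1 p436_31)))))))))),
   x7_6 (x7_5 (x7_4 (s4_6 (x3_2 (x3_1 (x3_0 (s0_2 (n5 (n4 (n1 p436_25)))))))))),
   x7_6 (x7_5 (x7_4 (s4_6 (x3_2 (x3_1 (x3_0 (s0_2 (n5 (n4 (n1 p436_29)))))))))),
   x7_6 (x7_5 (x7_4 (s4_6 (x3_2 (x3_1 (x3_0 (s0_2 (n5 (n4 (n1 p436_26)))))))))),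
   x7_6 (x7_5 (x7_4 (s4_6 (x3_2 (x3_1 (x3_0 (s0_2 (n5 (n4 (n1 p436_30)))))))))),
   x7_6 (x7_5 (x7_4 (s4_6 (x3_2 (x3_1 (x3_0 (s0_2 (n5 (n4 (n1 p436_24)))))))))),
   x7_6 (x7_5 (x7_4 (s4_6 (x3_2 (x3_1 (x3_0 (s0_2 (n5 (n4 (n1 p436_28))))))))))],
  [p436_56,
   p436_57,
   p436_58,
   p436_59,
   p436_60,
   x7_6 (x7_5 (x7_4 (s4_6 (x3_2 (x3_1 (x3_0 (s0_2 (n6 (n5 (n4 (n1 p436_56))))))))))),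
   p436_62,
   x7_6 (x7_5 (x7_4 (s4_6 (x3_2 (x3_1 (x3_0 (s0_2 (n6 (n5 (n4 (n1 p436_58)))))))))))]]

theorem k436 : eqNN c436 (slO 64 (D.chG 58 18) 8) = true := by decide +kernel

/-- The slices of the chunk 437. -/
noncomputable def c437 : List (List ℕ) := [
  [tr p420_19,
   tr p421_19,
   tr p422_19,
   tr p423_19,
   tr p424_19,
   x7_6 (x7_5 (x7_4 (x3_2 (x3_1 (x3_0 (s3_7 (s2_4 (s1_5 (s0_6 (n5 p420_22)))))))))),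
   tr p425_19,
   x7_6 (x7_5 (x7_4 (x3_2 (x3_1 (x3_0 (s3_7 (s2_4 (s1_5 (s0_6 (n5 p422_22))))))))))],
  [tr p426_19,
   tr p427_19,
   tr p428_19,
   tr p429_19,
   tr p430_19,
   tr p431_19,
   tr p432_19,
   tr p433_19],
  [tr p434_19,
   tr p435_19,
   tr p436_19,
   p437_19,
   x7_6 (x7_5 (x7_4 (x3_2 (x3_1 (x3_0 (s3_7 (s2_4 (s1_5 (s0_6 (n5 (n1 p435_22))))))))))),
   tr p438_19,
   p437_22,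
   tr p439_19],
  [p437_24,
   p437_25,
   p437_26,
   p437_27,
   p437_28,
   p437_29,
   p437_30,
   p437_31],
  [x7_6 (x7_5 (x7_4 (x3_2 (x3_1 (x3_0 (s3_7 (s2_4 (s1_5 (s0_6 (n5 (n0 p432_22))))))))))),
   x7_6 (x7_5 (x7_4 (x3_2 (x3_1 (x3_0 (s3_7 (s2_4 (s1_5 (s0_6 (n5 (n0 p428_22))))))))))),
   x7_6 (x7_5 (x7_4 (x3_2 (x3_1 (x3_0 (s3_7 (s2_4 (s1_5 (s0_6 (n5 (n0 p430_22))))))))))),
   x7_6 (x7_5 (x7_4 (x3_2 (x3_1 (x3_0 (s3_7 (s2_4 (s1_5 (s0_6 (n5 (n0 p426_22))))))))))),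
   x7_6 (x7_5 (x7_4 (x3_2 (x3_1 (x3_0 (s3_7 (s2_4 (s1_5 (s0_6 (n5 (n0 p433_22))))))))))),
   x7_6 (x7_5 (x7_4 (x3_2 (x3_1 (x3_0 (s3_7 (s2_4 (s1_5 (s0_6 (n5 (n0 p429_22))))))))))),
   x7_6 (x7_5 (x7_4 (x3_2 (x3_1 (x3_0 (s3_7 (s2_4 (s1_5 (s0_6 (n5 (n0 p431_22))))))))))),
   x7_6 (x7_5 (x7_4 (x3_2 (x3_1 (x3_0 (s3_7 (s2_4 (s1_5 (s0_6 (n5 (n0 p427_22)))))))))))],
  [tr p448_19,
   p437_41,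
   tr p450_19,
   p437_43,
   p437_44,
   tr p452_19,
   p437_46,
   tr p453_19],
  [p437_48,
   p437_49,
   p437_50,
   p437_51,
   p437_52,
   p437_53,
   p437_54,
   p437_55],
  [p437_56,
   tr p455_19,
   p437_58,
   tr p457_19,
   tr p458_19,
   p437_61,
   tr p459_19,
   p437_63]]

theorem k437 : eqNN c437 (slO 64 (D.chG 58 19) 8) = true := by decide +kernel

/-- The slices of the chunk 438. -/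
noncomputable def c438 : List (List ℕ) := [
  [p438_0,
   tr p421_21,
   p438_2,
   tr p423_21,
   tr p424_21,
   x7_6 (x7_5 (x7_4 (s4_6 (x3_2 (x3_1 (x3_0 (s0_2 (n1 p438_0)))))))),
   tr p425_21,
   x7_6 (x7_5 (x7_4 (s4_6 (x3_2 (x3_1 (x3_0 (s0_2 (n1 p438_2))))))))],
  [p438_8,
   p438_9,
   p438_10,
   p438_11,
   p438_12,
   p438_13,
   p438_14,
   p438_15],
  [tr p434_21,
   p438_17,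
   tr p436_21,
   p438_19,
   x7_6 (x7_5 (x7_4 (s4_6 (x3_2 (x3_1 (x3_0 (s0_2 (n5 (n1 p438_17))))))))),
   p438_21,
   x7_6 (x7_5 (x7_4 (s4_6 (x3_2 (x3_1 (x3_0 (s0_2 (n5 (n1 p438_19))))))))),
   p438_23],
  [p438_24,
   p438_25,
   p438_26,
   p438_27,
   p438_28,
   p438_29,
   p438_30,
   p438_31],
  [x7_6 (x7_5 (x7_4 (s4_6 (x3_2 (x3_1 (x3_0 (s0_2 (n4 (n1 p438_14))))))))),
   x7_6 (x7_5 (x7_4 (s4_6 (x3_2 (x3_1 (x3_0 (s0_2 (n4 (n1 p438_10))))))))),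
   x7_6 (x7_5 (x7_4 (s4_6 (x3_2 (x3_1 (x3_0 (s0_2 (n4 (n1 p438_12))))))))),
   x7_6 (x7_5 (x7_4 (s4_6 (x3_2 (x3_1 (x3_0 (s0_2 (n4 (n1 p438_8))))))))),
   x7_6 (x7_5 (x7_4 (s4_6 (x3_2 (x3_1 (x3_0 (s0_2 (n4 (n1 p438_15))))))))),
   x7_6 (x7_5 (x7_4 (s4_6 (x3_2 (x3_1 (x3_0 (s0_2 (n4 (n1 p438_11))))))))),
   x7_6 (x7_5 (x7_4 (s4_6 (x3_2 (x3_1 (x3_0 (s0_2 (n4 (n1 p438_13))))))))),
   x7_6 (x7_5 (x7_4 (s4_6 (x3_2 (x3_1 (x3_0 (s0_2 (n4 (n1 p438_9)))))))))],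
  [p438_40,
   p438_41,
   p438_42,
   p438_43,
   x7_6 (x7_5 (x7_4 (s4_6 (x3_2 (x3_1 (x3_0 (s0_2 (n6 (n4 (n1 p438_41)))))))))),
   p438_45,
   x7_6 (x7_5 (x7_4 (s4_6 (x3_2 (x3_1 (x3_0 (s0_2 (n6 (n4 (n1 p438_43)))))))))),
   p438_47],
  [x7_6 (x7_5 (x7_4 (s4_6 (x3_2 (x3_1 (x3_0 (s0_2 (n5 (n4 (n1 p438_27)))))))))),
   x7_6 (x7_5 (x7_4 (s4_6 (x3_2 (x3_1 (x3_0 (s0_2 (n5 (n4 (n1 p438_31)))))))))),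
   x7_6 (x7_5 (x7_4 (s4_6 (x3_2 (x3_1 (x3_0 (s0_2 (n5 (n4 (n1 p438_25)))))))))),
   x7_6 (x7_5 (x7_4 (s4_6 (x3_2 (x3_1 (x3_0 (s0_2 (n5 (n4 (n1 p438_29)))))))))),
   x7_6 (x7_5 (x7_4 (s4_6 (x3_2 (x3_1 (x3_0 (s0_2 (n5 (n4 (n1 p438_26)))))))))),
   x7_6 (x7_5 (x7_4 (s4_6 (x3_2 (x3_1 (x3_0 (s0_2 (n5 (n4 (n1 p438_30)))))))))),
   x7_6 (x7_5 (x7_4 (s4_6 (x3_2 (x3_1 (x3_0 (s0_2 (n5 (n4 (n1 p438_24)))))))))),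
   x7_6 (x7_5 (x7_4 (s4_6 (x3_2 (x3_1 (x3_0 (s0_2 (n5 (n4 (n1 p438_28))))))))))],
  [p438_56,
   p438_57,
   p438_58,
   p438_59,
   p438_60,
   x7_6 (x7_5 (x7_4 (s4_6 (x3_2 (x3_1 (x3_0 (s0_2 (n6 (n5 (n4 (n1 p438_56))))))))))),
   p438_62,
   x7_6 (x7_5 (x7_4 (s4_6 (x3_2 (x3_1 (x3_0 (s0_2 (n6 (n5 (n4 (n1 p438_58)))))))))))]]

theorem k438 : eqNN c438 (slO 64 (D.chG 58 21) 8) = true := by decide +kernel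

/-- The slices of the chunk 439. -/
noncomputable def c439 : List (List ℕ) := [
  [p439_0,
   tr p421_23,
   p439_2,
   tr p423_23,
   tr p424_23,
   x7_6 (x7_5 (x7_4 (s4_6 (x3_2 (x3_1 (x3_0 (s0_2 (n1 p439_0)))))))),
   tr p425_23,
   x7_6 (x7_5 (x7_4 (s4_6 (x3_2 (x3_1 (x3_0 (s0_2 (n1 p439_2))))))))],
  [p439_8,
   p439_9,
   p439_10,
   p439_11,
   p439_12,
   p439_13,
   p439_14,
   p439_15],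
  [tr p434_23,
   p439_17,
   tr p436_23,
   p439_19,
   x7_6 (x7_5 (x7_4 (s4_6 (x3_2 (x3_1 (x3_0 (s0_2 (n5 (n1 p439_17))))))))),
   tr p438_23,
   x7_6 (x7_5 (x7_4 (s4_6 (x3_2 (x3_1 (x3_0 (s0_2 (n5 (n1 p439_19))))))))),
   p439_23],
  [p439_24,
   p439_25,
   p439_26,
   p439_27,
   p439_28,
   p439_29,
   p439_30,
   p439_31],
  [x7_6 (x7_5 (x7_4 (s4_6 (x3_2 (x3_1 (x3_0 (s0_2 (n4 (n1 p439_14))))))))),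
   x7_6 (x7_5 (x7_4 (s4_6 (x3_2 (x3_1 (x3_0 (s0_2 (n4 (n1 p439_10))))))))),
   x7_6 (x7_5 (x7_4 (s4_6 (x3_2 (x3_1 (x3_0 (s0_2 (n4 (n1 p439_12))))))))),
   x7_6 (x7_5 (x7_4 (s4_6 (x3_2 (x3_1 (x3_0 (s0_2 (n4 (n1 p439_8))))))))),
   x7_6 (x7_5 (x7_4 (s4_6 (x3_2 (x3_1 (x3_0 (s0_2 (n4 (n1 p439_15))))))))),
   x7_6 (x7_5 (x7_4 (s4_6 (x3_2 (x3_1 (x3_0 (s0_2 (n4 (n1 p439_11))))))))),
   x7_6 (x7_5 (x7_4 (s4_6 (x3_2 (x3_1 (x3_0 (s0_2 (n4 (n1 p439_13))))))))),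
   x7_6 (x7_5 (x7_4 (s4_6 (x3_2 (x3_1 (x3_0 (s0_2 (n4 (n1 p439_9)))))))))],
  [p439_40,
   p439_41,
   p439_42,
   p439_43,
   x7_6 (x7_5 (x7_4 (s4_6 (x3_2 (x3_1 (x3_0 (s0_2 (n6 (n4 (n1 p439_41)))))))))),
   p439_45,
   x7_6 (x7_5 (x7_4 (s4_6 (x3_2 (x3_1 (x3_0 (s0_2 (n6 (n4 (n1 p439_43)))))))))),
   p439_47],
  [x7_6 (x7_5 (x7_4 (s4_6 (x3_2 (x3_1 (x3_0 (s0_2 (n5 (n4 (n1 p439_27)))))))))),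
   x7_6 (x7_5 (x7_4 (s4_6 (x3_2 (x3_1 (x3_0 (s0_2 (n5 (n4 (n1 p439_31)))))))))),
   x7_6 (x7_5 (x7_4 (s4_6 (x3_2 (x3_1 (x3_0 (s0_2 (n5 (n4 (n1 p439_25)))))))))),
   x7_6 (x7_5 (x7_4 (s4_6 (x3_2 (x3_1 (x3_0 (s0_2 (n5 (n4 (n1 p439_29)))))))))),
   x7_6 (x7_5 (x7_4 (s4_6 (x3_2 (x3_1 (x3_0 (s0_2 (n5 (n4 (n1 p439_26)))))))))),
   x7_6 (x7_5 (x7_4 (s4_6 (x3_2 (x3_1 (x3_0 (s0_2 (n5 (n4 (n1 p439_30)))))))))),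
   x7_6 (x7_5 (x7_4 (s4_6 (x3_2 (x3_1 (x3_0 (s0_2 (n5 (n4 (n1 p439_24)))))))))),
   x7_6 (x7_5 (x7_4 (s4_6 (x3_2 (x3_1 (x3_0 (s0_2 (n5 (n4 (n1 p439_28))))))))))],
  [p439_56,
   p439_57,
   p439_58,
   p439_59,
   p439_60,
   x7_6 (x7_5 (x7_4 (s4_6 (x3_2 (x3_1 (x3_0 (s0_2 (n6 (n5 (n4 (n1 p439_56))))))))))),
   p439_62,
   x7_6 (x7_5 (x7_4 (s4_6 (x3_2 (x3_1 (x3_0 (s0_2 (n6 (n5 (n4 (n1 p439_58)))))))))))]]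

theorem k439 : eqNN c439 (slO 64 (D.chG 58 23) 8) = true := by decide +kernel

end Pool.Agent.Lib.MP_afdd4d_co.K10.E6
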