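import Pool.Agent.Lib.MP_afdd4d_co.K10.E6.Dat
import Pool.Agent.Lib.MP_afdd4d_co.K10.E6.Mk
import Pool.Agent.Lib.MP_afdd4d_co.K8.F6Bl5
import Pool.Agent.Lib.MP_afdd4d_co.K10.E6.P0
import Pool.Agent.Lib.MP_afdd4d_co.K10.E6.P1
import Pool.Agent.Lib.MP_afdd4d_co.K10.E6.P2
import Pool.Agent.Lib.MP_afdd4d_co.K10.E6.P3
import Pool.Agent.Lib.MP_afdd4d_co.K10.E6.P4
import Pool.Agent.Lib.MP_afdd4d_co.K10.E6.P5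
import Pool.Agent.Lib.MP_afdd4d_co.K10.E6.P6
import Pool.Agent.Lib.MP_afdd4d_co.K10.E6.P7
import Pool.Agent.Lib.MP_afdd4d_co.K10.E6.P8
import Pool.Agent.Lib.MP_afdd4d_co.K10.E6.P9
import Pool.Agent.Lib.MP_afdd4d_co.K10.E6.P10
import Pool.Agent.Lib.MP_afdd4d_co.K10.E6.P11
import Pool.Agent.Lib.MP_afdd4d_co.K10.E6.P12
import Pool.Agent.Lib.MP_afdd4d_co.K10.E6.P13
import Pool.Agent.Lib.MP_afdd4d_co.K10.E6.P14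
import Pool.Agent.Lib.MP_afdd4d_co.K10.E6.P15
import Pool.Agent.Lib.MP_afdd4d_co.K10.E6.P16
import Pool.Agent.Lib.MP_afdd4d_co.K10.E6.P17
import Pool.Agent.Lib.MP_afdd4d_co.K10.E6.P18
import Pool.Agent.Lib.MP_afdd4d_co.K10.E6.P19
import Pool.Agent.Lib.MP_afdd4d_co.K10.E6.P20
import Pool.Agent.Lib.MP_afdd4d_co.K10.E6.P21
import Pool.Agent.Lib.MP_afdd4d_co.K10.E6.P22
import Pool.Agent.Lib.MP_afdd4d_co.K10.E6.P23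
import Pool.Agent.Lib.MP_afdd4d_co.K10.E6.P24
import Pool.Agent.Lib.MP_afdd4d_co.K10.E6.P25
import Pool.Agent.Lib.MP_afdd4d_co.K10.E6.P26
import Pool.Agent.Lib.MP_afdd4d_co.K10.E6.P27
import Pool.Agent.Lib.MP_afdd4d_co.K10.E6.P28
import Pool.Agent.Lib.MP_afdd4d_co.K10.E6.P29
import Pool.Agent.Lib.MP_afdd4d_co.K10.E6.P30
import Pool.Agent.Lib.MP_afdd4d_co.K10.E6.P31
import Pool.Agent.Lib.MP_afdd4d_co.K10.E6.P32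

/-!
# Tables
-/

namespace Pool.Agent.Lib.MP_afdd4d_co.K10.E6

open K8

set_option maxRecDepth 100000
set_option exponentiation.threshold 10000000

/-- The slices of the chunk 44. -/
noncomputable def c44 : List (List ℕ) := [
  [tr p23_43,
   tr p24_43,
   p44_2,
   p44_3,
   p44_4,
   p44_5,
   tr p27_43,
   tr p28_43],
  [s6_7 (s2_3 p44_2),
   s6_7 (s2_3 p44_3),
   tr p29_43,
   tr p30_43,
   p44_12,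
   p44_13,
   p44_14,
   p44_15],
  [s6_7 (s2_3 p44_4),
   s6_7 (s2_3 p44_5),
   s6_7 (s2_3 p44_12),
   s6_7 (s2_3 p44_13),
   s3_7 (s2_6 (s1_4 (s0_5 p29_53))),
   s3_7 (s2_6 (s1_4 (s0_5 p30_53))),
   p44_22,
   p44_23],
  [s3_6 (s2_7 (s1_5 (s0_4 p27_43))),
   s3_6 (s2_7 (s1_5 (s0_4 p28_43))),
   s6_7 (s2_3 p44_14),
   s6_7 (s2_3 p44_15),
   s6_7 (s2_3 p44_22),
   s6_7 (s2_3 p44_23),
   tr p35_43,
   tr p36_43],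
  [tr p37_43,
   tr p38_43,
   p44_34,
   p44_35,
   p44_36,
   p44_37,
   tr p41_43,
   tr p42_43],
  [s6_7 (s2_3 p44_34),
   s6_7 (s2_3 p44_35),
   tr p43_43,
   p44_43,
   p44_44,
   p44_45,
   p44_46,
   p44_47],
  [s6_7 (s2_3 p44_36),
   s6_7 (s2_3 p44_37),
   s6_7 (s2_3 p44_44),
   s6_7 (s2_3 p44_45),
   s3_7 (s2_6 (s1_4 (s0_5 p43_53))),
   p44_53,
   p44_54,
   p44_55],
  [s3_6 (s2_7 (s1_5 (s0_4 p41_43))),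
   s3_6 (s2_7 (s1_5 (s0_4 p42_43))),
   s6_7 (s2_3 p44_46),
   s6_7 (s2_3 p44_47),
   s6_7 (s2_3 p44_54),
   s6_7 (s2_3 p44_55),
   tr p49_43,
   tr p50_43]]

theorem k44 : eqNN c44 (slO 64 (D.chG 3 43) 8) = true := by decide +kernel

/-- The slices of the chunk 45. -/
noncomputable def c45 : List (List ℕ) := [
  [tr p23_44,
   tr p24_44,
   tr p25_44,
   tr p26_44,
   s3_7 (s2_6 (s1_4 (s0_5 p25_50))),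
   s3_7 (s2_6 (s1_4 (s0_5 p26_50))),
   tr p27_44,
   tr p28_44],
  [s3_6 (s2_7 (s1_5 (s0_4 p25_50))),
   s3_6 (s2_7 (s1_5 (s0_4 p26_50))),
   tr p29_44,
   tr p30_44,
   tr p31_44,
   tr p32_44,
   tr p33_44,
   tr p34_44],
  [s3_6 (s2_7 (s1_4 (s0_5 p25_44))),
   s3_6 (s2_7 (s1_4 (s0_5 p26_44))),
   s3_6 (s2_7 (s1_5 (s0_4 p31_50))),
   s3_6 (s2_7 (s1_5 (s0_4 p32_50))),
   s3_6 (s2_7 (s1_4 (s0_5 p29_44))),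
   s3_6 (s2_7 (s1_4 (s0_5 p30_44))),
   s3_7 (s2_6 (s1_4 (s0_5 p33_50))),
   s3_7 (s2_6 (s1_4 (s0_5 p34_50)))],
  [s3_6 (s2_7 (s1_4 (s0_5 p27_44))),
   s3_6 (s2_7 (s1_4 (s0_5 p28_44))),
   s3_6 (s2_7 (s1_5 (s0_4 p33_50))),
   s3_6 (s2_7 (s1_5 (s0_4 p34_50))),
   s3_6 (s2_7 (s1_4 (s0_5 p33_44))),
   s3_6 (s2_7 (s1_4 (s0_5 p34_44))),
   tr p35_44,
   tr p36_44],
  [tr p37_44,
   tr p38_44,
   tr p39_44,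
   tr p40_44,
   s3_7 (s2_6 (s1_4 (s0_5 p39_50))),
   s3_7 (s2_6 (s1_4 (s0_5 p40_50))),
   tr p41_44,
   tr p42_44],
  [s3_6 (s2_7 (s1_5 (s0_4 p39_50))),
   s3_6 (s2_7 (s1_5 (s0_4 p40_50))),
   tr p43_44,
   tr p44_44,
   p45_44,
   p45_45,
   p45_46,
   p45_47],
  [s3_6 (s2_7 (s1_4 (s0_5 p39_44))),
   s3_6 (s2_7 (s1_4 (s0_5 p40_44))),
   p45_50,
   p45_51,
   s3_6 (s2_7 (s1_4 (s0_5 p43_44))),
   s3_6 (s2_7 (s1_4 (s0_5 p44_44))),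
   p45_54,
   p45_55],
  [s3_6 (s2_7 (s1_4 (s0_5 p41_44))),
   s3_6 (s2_7 (s1_4 (s0_5 p42_44))),
   s6_7 (s4_5 (s2_3 (s0_1 p45_54))),
   s6_7 (s4_5 (s2_3 (s0_1 p45_55))),
   s6_7 (s4_5 (s2_3 (s0_1 p45_46))),
   s6_7 (s4_5 (s2_3 (s0_1 p45_47))),
   tr p49_44,
   tr p50_44]]

theorem k45 : eqNN c45 (slO 64 (D.chG 3 44) 8) = true := by decide +kernel

/-- The slices of the chunk 46. -/
noncomputable def c46 : List (List ℕ) := [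
  [tr p23_45,
   tr p24_45,
   tr p25_45,
   tr p26_45,
   s3_7 (s2_6 (s1_4 (s0_5 p25_51))),
   s3_7 (s2_6 (s1_4 (s0_5 p26_51))),
   tr p27_45,
   tr p28_45],
  [s3_6 (s2_7 (s1_5 (s0_4 p25_51))),
   s3_6 (s2_7 (s1_5 (s0_4 p26_51))),
   tr p29_45,
   tr p30_45,
   tr p31_45,
   tr p32_45,
   tr p33_45,
   tr p34_45],
  [s3_6 (s2_7 (s1_4 (s0_5 p25_45))),
   s3_6 (s2_7 (s1_4 (s0_5 p26_45))),
   s3_6 (s2_7 (s1_5 (s0_4 p31_51))),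
   s3_6 (s2_7 (s1_5 (s0_4 p32_51))),
   s3_6 (s2_7 (s1_4 (s0_5 p29_45))),
   s3_6 (s2_7 (s1_4 (s0_5 p30_45))),
   s3_7 (s2_6 (s1_4 (s0_5 p33_51))),
   s3_7 (s2_6 (s1_4 (s0_5 p34_51)))],
  [s3_6 (s2_7 (s1_4 (s0_5 p27_45))),
   s3_6 (s2_7 (s1_4 (s0_5 p28_45))),
   s3_6 (s2_7 (s1_5 (s0_4 p33_51))),
   s3_6 (s2_7 (s1_5 (s0_4 p34_51))),
   s3_6 (s2_7 (s1_4 (s0_5 p33_45))),
   s3_6 (s2_7 (s1_4 (s0_5 p34_45))),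
   tr p35_45,
   tr p36_45],
  [tr p37_45,
   tr p38_45,
   tr p39_45,
   tr p40_45,
   s3_7 (s2_6 (s1_4 (s0_5 p39_51))),
   s3_7 (s2_6 (s1_4 (s0_5 p40_51))),
   tr p41_45,
   tr p42_45],
  [s3_6 (s2_7 (s1_5 (s0_4 p39_51))),
   s3_6 (s2_7 (s1_5 (s0_4 p40_51))),
   tr p43_45,
   tr p44_45,
   tr p45_45,
   p46_45,
   p46_46,
   p46_47],
  [s3_6 (s2_7 (s1_4 (s0_5 p39_45))),
   s3_6 (s2_7 (s1_4 (s0_5 p40_45))),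
   s3_6 (s2_7 (s1_5 (s0_4 p45_51))),
   p46_51,
   s3_6 (s2_7 (s1_4 (s0_5 p43_45))),
   s3_6 (s2_7 (s1_4 (s0_5 p44_45))),
   p46_54,
   p46_55],
  [s3_6 (s2_7 (s1_4 (s0_5 p41_45))),
   s3_6 (s2_7 (s1_4 (s0_5 p42_45))),
   s6_7 (s4_5 (s2_3 (s0_1 p46_54))),
   s6_7 (s4_5 (s2_3 (s0_1 p46_55))),
   s6_7 (s4_5 (s2_3 (s0_1 p46_46))),
   s6_7 (s4_5 (s2_3 (s0_1 p46_47))),
   tr p49_45,
   tr p50_45]]

theorem k46 : eqNN c46 (slO 64 (D.chG 3 45) 8) = true := by decide +kernel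

/-- The slices of the chunk 47. -/
noncomputable def c47 : List (List ℕ) := [
  [tr p23_46,
   tr p24_46,
   tr p25_46,
   tr p26_46,
   s3_7 (s2_6 (s1_4 (s0_5 p25_54))),
   s3_7 (s2_6 (s1_4 (s0_5 p26_54))),
   tr p27_46,
   tr p28_46],
  [s3_6 (s2_7 (s1_5 (s0_4 p25_58))),
   s3_6 (s2_7 (s1_5 (s0_4 p26_58))),
   tr p29_46,
   tr p30_46,
   tr p31_46,
   tr p32_46,
   tr p33_46,
   tr p34_46],
  [s3_6 (s2_7 (s1_4 (s0_5 p25_60))),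
   s3_6 (s2_7 (s1_4 (s0_5 p26_60))),
   s3_7 (s2_6 (s1_4 (s0_5 p31_54))),
   s3_7 (s2_6 (s1_4 (s0_5 p32_54))),
   s3_7 (s2_6 (s1_4 (s0_5 p29_54))),
   s3_7 (s2_6 (s1_4 (s0_5 p30_54))),
   s3_7 (s2_6 (s1_4 (s0_5 p33_54))),
   s3_7 (s2_6 (s1_4 (s0_5 p34_54)))],
  [s3_6 (s2_7 (s1_5 (s0_4 p27_58))),
   s3_6 (s2_7 (s1_5 (s0_4 p28_58))),
   s3_6 (s2_7 (s1_5 (s0_4 p33_58))),
   s3_6 (s2_7 (s1_5 (s0_4 p34_58))),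
   s3_6 (s2_7 (s1_4 (s0_5 p33_60))),
   s3_6 (s2_7 (s1_4 (s0_5 p34_60))),
   tr p35_46,
   tr p36_46],
  [tr p37_46,
   tr p38_46,
   tr p39_46,
   tr p40_46,
   s3_7 (s2_6 (s1_4 (s0_5 p39_54))),
   s3_7 (s2_6 (s1_4 (s0_5 p40_54))),
   tr p41_46,
   tr p42_46],
  [s3_6 (s2_7 (s1_5 (s0_4 p39_58))),
   s3_6 (s2_7 (s1_5 (s0_4 p40_58))),
   tr p43_46,
   tr p44_46,
   tr p45_46,
   tr p46_46,
   p47_46,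
   p47_47],
  [s3_6 (s2_7 (s1_4 (s0_5 p39_60))),
   s3_6 (s2_7 (s1_4 (s0_5 p40_60))),
   s3_7 (s2_6 (s1_4 (s0_5 p45_54))),
   s3_7 (s2_6 (s1_4 (s0_5 p46_54))),
   s3_7 (s2_6 (s1_4 (s0_5 p43_54))),
   s3_7 (s2_6 (s1_4 (s0_5 p44_54))),
   p47_54,
   p47_55],
  [s3_6 (s2_7 (s1_5 (s0_4 p41_58))),
   s3_6 (s2_7 (s1_5 (s0_4 p42_58))),
   p47_58,
   p47_59,
   p47_60,
   p47_61,
   tr p49_46,
   tr p50_46]]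

theorem k47 : eqNN c47 (slO 64 (D.chG 3 46) 8) = true := by decide +kernel

end Pool.Agent.Lib.MP_afdd4d_co.K10.E6
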