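import Pool.Agent.Lib.MP_afdd4d_co.K10.E6.Dat
import Pool.Agent.Lib.MP_afdd4d_co.K10.E6.Mk
import Pool.Agent.Lib.MP_afdd4d_co.K8.F6Bl5
import Pool.Agent.Lib.MP_afdd4d_co.K10.E6.P0
import Pool.Agent.Lib.MP_afdd4d_co.K10.E6.P1
import Pool.Agent.Lib.MP_afdd4d_co.K10.E6.P2
import Pool.Agent.Lib.MP_afdd4d_co.K10.E6.P3
import Pool.Agent.Lib.MP_afdd4d_co.K10.E6.P4
import Pool.Agent.Lib.MP_afdd4d_co.K10.E6.P5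
import Pool.Agent.Lib.MP_afdd4d_co.K10.E6.P6
import Pool.Agent.Lib.MP_afdd4d_co.K10.E6.P7
import Pool.Agent.Lib.MP_afdd4d_co.K10.E6.P8
import Pool.Agent.Lib.MP_afdd4d_co.K10.E6.P9
import Pool.Agent.Lib.MP_afdd4d_co.K10.E6.P10
import Pool.Agent.Lib.MP_afdd4d_co.K10.E6.P11
import Pool.Agent.Lib.MP_afdd4d_co.K10.E6.P12
import Pool.Agent.Lib.MP_afdd4d_co.K10.E6.P13
import Pool.Agent.Lib.MP_afdd4d_co.K10.E6.P14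
import Pool.Agent.Lib.MP_afdd4d_co.K10.E6.P15
import Pool.Agent.Lib.MP_afdd4d_co.K10.E6.P16
import Pool.Agent.Lib.MP_afdd4d_co.K10.E6.P17
import Pool.Agent.Lib.MP_afdd4d_co.K10.E6.P18
import Pool.Agent.Lib.MP_afdd4d_co.K10.E6.P19
import Pool.Agent.Lib.MP_afdd4d_co.K10.E6.P20
import Pool.Agent.Lib.MP_afdd4d_co.K10.E6.P21
import Pool.Agent.Lib.MP_afdd4d_co.K10.E6.P22
import Pool.Agent.Lib.MP_afdd4d_co.K10.E6.P23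
import Pool.Agent.Lib.MP_afdd4d_co.K10.E6.P24
import Pool.Agent.Lib.MP_afdd4d_co.K10.E6.P25
import Pool.Agent.Lib.MP_afdd4d_co.K10.E6.P26
import Pool.Agent.Lib.MP_afdd4d_co.K10.E6.P27
import Pool.Agent.Lib.MP_afdd4d_co.K10.E6.P28
import Pool.Agent.Lib.MP_afdd4d_co.K10.E6.P29
import Pool.Agent.Lib.MP_afdd4d_co.K10.E6.P30
import Pool.Agent.Lib.MP_afdd4d_co.K10.E6.P31
import Pool.Agent.Lib.MP_afdd4d_co.K10.E6.P32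

/-!
# Tables
-/

namespace Pool.Agent.Lib.MP_afdd4d_co.K10.E6

open K8

set_option maxRecDepth 100000
set_option exponentiation.threshold 10000000

/-- The slices of the chunk 440. -/
noncomputable def c440 : List (List ℕ) := [
  [tr p420_24,
   tr p421_24,
   tr p422_24,
   tr p423_24,
   tr p424_24,
   x7_6 (x7_5 (x7_4 (x3_2 (x3_1 (x3_0 (s3_7 (s2_4 (s1_5 (s0_6 (n6 (n5 p420_54))))))))))),
   tr p425_24,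
   x7_6 (x7_5 (x7_4 (x3_2 (x3_1 (x3_0 (s3_7 (s2_4 (s1_5 (s0_6 (n6 (n5 p422_54)))))))))))],
  [tr p426_24,
   tr p427_24,
   tr p428_24,
   tr p429_24,
   tr p430_24,
   tr p431_24,
   tr p432_24,
   tr p433_24],
  [tr p434_24,
   tr p435_24,
   tr p436_24,
   tr p437_24,
   x7_6 (x7_5 (x7_4 (x3_2 (x3_1 (x3_0 (s3_7 (s2_4 (s1_5 (s0_6 (n6 (n5 (n1 p435_54)))))))))))),
   tr p438_24,
   x7_6 (x7_5 (x7_4 (x3_2 (x3_1 (x3_0 (s3_7 (s2_4 (s1_5 (s0_6 (n6 (n5 (n1 p437_54)))))))))))),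
   tr p439_24],
  [p440_24,
   p440_25,
   p440_26,
   p440_27,
   p440_28,
   p440_29,
   p440_30,
   p440_31],
  [x7_6 (x7_5 (x7_4 (x3_2 (x3_1 (x3_0 (s3_7 (s2_4 (s1_5 (s0_6 (n6 (n5 (n0 p432_54)))))))))))),
   x7_6 (x7_5 (x7_4 (x3_2 (x3_1 (x3_0 (s3_7 (s2_4 (s1_5 (s0_6 (n6 (n5 (n0 p428_54)))))))))))),
   x7_6 (x7_5 (x7_4 (x3_2 (x3_1 (x3_0 (s3_7 (s2_4 (s1_5 (s0_6 (n6 (n5 (n0 p430_54)))))))))))),
   x7_6 (x7_5 (x7_4 (x3_2 (x3_1 (x3_0 (s3_7 (s2_4 (s1_5 (s0_6 (n6 (n5 (n0 p426_54)))))))))))),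
   x7_6 (x7_5 (x7_4 (x3_2 (x3_1 (x3_0 (s3_7 (s2_4 (s1_5 (s0_6 (n6 (n5 (n0 p433_54)))))))))))),
   x7_6 (x7_5 (x7_4 (x3_2 (x3_1 (x3_0 (s3_7 (s2_4 (s1_5 (s0_6 (n6 (n5 (n0 p429_54)))))))))))),
   x7_6 (x7_5 (x7_4 (x3_2 (x3_1 (x3_0 (s3_7 (s2_4 (s1_5 (s0_6 (n6 (n5 (n0 p431_54)))))))))))),
   x7_6 (x7_5 (x7_4 (x3_2 (x3_1 (x3_0 (s3_7 (s2_4 (s1_5 (s0_6 (n6 (n5 (n0 p427_54))))))))))))],
  [tr p448_24,
   p440_41,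
   tr p450_24,
   p440_43,
   p440_44,
   tr p452_24,
   p440_46,
   tr p453_24],
  [p440_48,
   p440_49,
   p440_50,
   p440_51,
   p440_52,
   p440_53,
   p440_54,
   p440_55],
  [p440_56,
   tr p455_24,
   p440_58,
   tr p457_24,
   tr p458_24,
   p440_61,
   tr p459_24,
   p440_63]]

theorem k440 : eqNN c440 (slO 64 (D.chG 58 24) 8) = true := by decide +kernel

/-- The slices of the chunk 441. -/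
noncomputable def c441 : List (List ℕ) := [
  [tr p420_25,
   tr p421_25,
   tr p422_25,
   tr p423_25,
   tr p424_25,
   x7_6 (x7_5 (x7_4 (x3_2 (x3_1 (x3_0 (s3_7 (s2_4 (s1_5 (s0_6 (n6 (n5 p420_50))))))))))),
   tr p425_25,
   x7_6 (x7_5 (x7_4 (x3_2 (x3_1 (x3_0 (s3_7 (s2_4 (s1_5 (s0_6 (n6 (n5 p422_50)))))))))))],
  [tr p426_25,
   tr p427_25,
   tr p428_25,
   tr p429_25,
   tr p430_25,
   tr p431_25,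
   tr p432_25,
   tr p433_25],
  [tr p434_25,
   tr p435_25,
   tr p436_25,
   tr p437_25,
   x7_6 (x7_5 (x7_4 (x3_2 (x3_1 (x3_0 (s3_7 (s2_4 (s1_5 (s0_6 (n6 (n5 (n1 p435_50)))))))))))),
   tr p438_25,
   x7_6 (x7_5 (x7_4 (x3_2 (x3_1 (x3_0 (s3_7 (s2_4 (s1_5 (s0_6 (n6 (n5 (n1 p437_50)))))))))))),
   tr p439_25],
  [tr p440_25,
   p441_25,
   p441_26,
   p441_27,
   p441_28,
   p441_29,
   p441_30,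
   p441_31],
  [x7_6 (x7_5 (x7_4 (x3_2 (x3_1 (x3_0 (s3_7 (s2_4 (s1_5 (s0_6 (n6 (n5 (n0 p432_50)))))))))))),
   x7_6 (x7_5 (x7_4 (x3_2 (x3_1 (x3_0 (s3_7 (s2_4 (s1_5 (s0_6 (n6 (n5 (n0 p428_50)))))))))))),
   x7_6 (x7_5 (x7_4 (x3_2 (x3_1 (x3_0 (s3_7 (s2_4 (s1_5 (s0_6 (n6 (n5 (n0 p430_50)))))))))))),
   x7_6 (x7_5 (x7_4 (x3_2 (x3_1 (x3_0 (s3_7 (s2_4 (s1_5 (s0_6 (n6 (n5 (n0 p426_50)))))))))))),
   x7_6 (x7_5 (x7_4 (x3_2 (x3_1 (x3_0 (s3_7 (s2_4 (s1_5 (s0_6 (n6 (n5 (n0 p433_50)))))))))))),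
   x7_6 (x7_5 (x7_4 (x3_2 (x3_1 (x3_0 (s3_7 (s2_4 (s1_5 (s0_6 (n6 (n5 (n0 p429_50)))))))))))),
   x7_6 (x7_5 (x7_4 (x3_2 (x3_1 (x3_0 (s3_7 (s2_4 (s1_5 (s0_6 (n6 (n5 (n0 p431_50)))))))))))),
   x7_6 (x7_5 (x7_4 (x3_2 (x3_1 (x3_0 (s3_7 (s2_4 (s1_5 (s0_6 (n6 (n5 (n0 p427_50))))))))))))],
  [tr p448_25,
   p441_41,
   tr p450_25,
   p441_43,
   p441_44,
   tr p452_25,
   p441_46,
   tr p453_25],
  [p441_48,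
   p441_49,
   p441_50,
   p441_51,
   p441_52,
   p441_53,
   x7_6 (x7_5 (x7_4 (x3_2 (x3_1 (x3_0 (s3_7 (s2_4 (s1_5 (s0_6 (n6 (n5 (n1 (n0 p440_50))))))))))))),
   p441_55],
  [p441_56,
   tr p455_25,
   p441_58,
   tr p457_25,
   tr p458_25,
   p441_61,
   tr p459_25,
   p441_63]]

theorem k441 : eqNN c441 (slO 64 (D.chG 58 25) 8) = true := by decide +kernel

/-- The slices of the chunk 442. -/
noncomputable def c442 : List (List ℕ) := [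
  [tr p420_26,
   tr p421_26,
   tr p422_26,
   tr p423_26,
   tr p424_26,
   x7_6 (x7_5 (x7_4 (x3_2 (x3_1 (x3_0 (s3_7 (s2_4 (s1_5 (s0_6 (n6 (n5 p420_52))))))))))),
   tr p425_26,
   x7_6 (x7_5 (x7_4 (x3_2 (x3_1 (x3_0 (s3_7 (s2_4 (s1_5 (s0_6 (n6 (n5 p422_52)))))))))))],
  [tr p426_26,
   tr p427_26,
   tr p428_26,
   tr p429_26,
   tr p430_26,
   tr p431_26,
   tr p432_26,
   tr p433_26],
  [tr p434_26,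
   tr p435_26,
   tr p436_26,
   tr p437_26,
   x7_6 (x7_5 (x7_4 (x3_2 (x3_1 (x3_0 (s3_7 (s2_4 (s1_5 (s0_6 (n6 (n5 (n1 p435_52)))))))))))),
   tr p438_26,
   x7_6 (x7_5 (x7_4 (x3_2 (x3_1 (x3_0 (s3_7 (s2_4 (s1_5 (s0_6 (n6 (n5 (n1 p437_52)))))))))))),
   tr p439_26],
  [tr p440_26,
   tr p441_26,
   p442_26,
   p442_27,
   p442_28,
   p442_29,
   p442_30,
   p442_31],
  [x7_6 (x7_5 (x7_4 (x3_2 (x3_1 (x3_0 (s3_7 (s2_4 (s1_5 (s0_6 (n6 (n5 (n0 p432_52)))))))))))),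
   x7_6 (x7_5 (x7_4 (x3_2 (x3_1 (x3_0 (s3_7 (s2_4 (s1_5 (s0_6 (n6 (n5 (n0 p428_52)))))))))))),
   x7_6 (x7_5 (x7_4 (x3_2 (x3_1 (x3_0 (s3_7 (s2_4 (s1_5 (s0_6 (n6 (n5 (n0 p430_52)))))))))))),
   x7_6 (x7_5 (x7_4 (x3_2 (x3_1 (x3_0 (s3_7 (s2_4 (s1_5 (s0_6 (n6 (n5 (n0 p426_52)))))))))))),
   x7_6 (x7_5 (x7_4 (x3_2 (x3_1 (x3_0 (s3_7 (s2_4 (s1_5 (s0_6 (n6 (n5 (n0 p433_52)))))))))))),
   x7_6 (x7_5 (x7_4 (x3_2 (x3_1 (x3_0 (s3_7 (s2_4 (s1_5 (s0_6 (n6 (n5 (n0 p429_52)))))))))))),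
   x7_6 (x7_5 (x7_4 (x3_2 (x3_1 (x3_0 (s3_7 (s2_4 (s1_5 (s0_6 (n6 (n5 (n0 p431_52)))))))))))),
   x7_6 (x7_5 (x7_4 (x3_2 (x3_1 (x3_0 (s3_7 (s2_4 (s1_5 (s0_6 (n6 (n5 (n0 p427_52))))))))))))],
  [tr p448_26,
   p442_41,
   tr p450_26,
   p442_43,
   p442_44,
   tr p452_26,
   p442_46,
   tr p453_26],
  [p442_48,
   p442_49,
   x7_6 (x7_5 (x7_4 (x3_2 (x3_1 (x3_0 (s3_7 (s2_4 (s1_5 (s0_6 (n6 (n5 (n1 (n0 p441_52))))))))))))),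
   p442_51,
   p442_52,
   p442_53,
   x7_6 (x7_5 (x7_4 (x3_2 (x3_1 (x3_0 (s3_7 (s2_4 (s1_5 (s0_6 (n6 (n5 (n1 (n0 p440_52))))))))))))),
   p442_55],
  [p442_56,
   tr p455_26,
   p442_58,
   tr p457_26,
   tr p458_26,
   p442_61,
   tr p459_26,
   p442_63]]

theorem k442 : eqNN c442 (slO 64 (D.chG 58 26) 8) = true := by decide +kernel

/-- The slices of the chunk 443. -/
noncomputable def c443 : List (List ℕ) := [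
  [tr p420_27,
   tr p421_27,
   tr p422_27,
   tr p423_27,
   tr p424_27,
   x7_6 (x7_5 (x7_4 (x3_2 (x3_1 (x3_0 (s3_7 (s2_4 (s1_5 (s0_6 (n6 (n5 p420_48))))))))))),
   tr p425_27,
   x7_6 (x7_5 (x7_4 (x3_2 (x3_1 (x3_0 (s3_7 (s2_4 (s1_5 (s0_6 (n6 (n5 p422_48)))))))))))],
  [tr p426_27,
   tr p427_27,
   tr p428_27,
   tr p429_27,
   tr p430_27,
   tr p431_27,
   tr p432_27,
   tr p433_27],
  [tr p434_27,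
   tr p435_27,
   tr p436_27,
   tr p437_27,
   x7_6 (x7_5 (x7_4 (x3_2 (x3_1 (x3_0 (s3_7 (s2_4 (s1_5 (s0_6 (n6 (n5 (n1 p435_48)))))))))))),
   tr p438_27,
   x7_6 (x7_5 (x7_4 (x3_2 (x3_1 (x3_0 (s3_7 (s2_4 (s1_5 (s0_6 (n6 (n5 (n1 p437_48)))))))))))),
   tr p439_27],
  [tr p440_27,
   tr p441_27,
   tr p442_27,
   p443_27,
   p443_28,
   p443_29,
   p443_30,
   p443_31],
  [x7_6 (x7_5 (x7_4 (x3_2 (x3_1 (x3_0 (s3_7 (s2_4 (s1_5 (s0_6 (n6 (n5 (n0 p432_48)))))))))))),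
   x7_6 (x7_5 (x7_4 (x3_2 (x3_1 (x3_0 (s3_7 (s2_4 (s1_5 (s0_6 (n6 (n5 (n0 p428_48)))))))))))),
   x7_6 (x7_5 (x7_4 (x3_2 (x3_1 (x3_0 (s3_7 (s2_4 (s1_5 (s0_6 (n6 (n5 (n0 p430_48)))))))))))),
   x7_6 (x7_5 (x7_4 (x3_2 (x3_1 (x3_0 (s3_7 (s2_4 (s1_5 (s0_6 (n6 (n5 (n0 p426_48)))))))))))),
   x7_6 (x7_5 (x7_4 (x3_2 (x3_1 (x3_0 (s3_7 (s2_4 (s1_5 (s0_6 (n6 (n5 (n0 p433_48)))))))))))),
   x7_6 (x7_5 (x7_4 (x3_2 (x3_1 (x3_0 (s3_7 (s2_4 (s1_5 (s0_6 (n6 (n5 (n0 p429_48)))))))))))),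
   x7_6 (x7_5 (x7_4 (x3_2 (x3_1 (x3_0 (s3_7 (s2_4 (s1_5 (s0_6 (n6 (n5 (n0 p431_48)))))))))))),
   x7_6 (x7_5 (x7_4 (x3_2 (x3_1 (x3_0 (s3_7 (s2_4 (s1_5 (s0_6 (n6 (n5 (n0 p427_48))))))))))))],
  [tr p448_27,
   p443_41,
   tr p450_27,
   p443_43,
   p443_44,
   tr p452_27,
   p443_46,
   tr p453_27],
  [p443_48,
   p443_49,
   x7_6 (x7_5 (x7_4 (x3_2 (x3_1 (x3_0 (s3_7 (s2_4 (s1_5 (s0_6 (n6 (n5 (n1 (n0 p441_48))))))))))))),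
   p443_51,
   x7_6 (x7_5 (x7_4 (x3_2 (x3_1 (x3_0 (s3_7 (s2_4 (s1_5 (s0_6 (n6 (n5 (n1 (n0 p442_48))))))))))))),
   p443_53,
   x7_6 (x7_5 (x7_4 (x3_2 (x3_1 (x3_0 (s3_7 (s2_4 (s1_5 (s0_6 (n6 (n5 (n1 (n0 p440_48))))))))))))),
   p443_55],
  [p443_56,
   tr p455_27,
   p443_58,
   tr p457_27,
   tr p458_27,
   p443_61,
   tr p459_27,
   p443_63]]

theorem k443 : eqNN c443 (slO 64 (D.chG 58 27) 8) = true := by decide +kernel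

end Pool.Agent.Lib.MP_afdd4d_co.K10.E6
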