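import Pool.Agent.Lib.MP_afdd4d_co.K10.E6.Dat
import Pool.Agent.Lib.MP_afdd4d_co.K10.E6.Mk
import Pool.Agent.Lib.MP_afdd4d_co.K8.F6Bl5
import Pool.Agent.Lib.MP_afdd4d_co.K10.E6.P0
import Pool.Agent.Lib.MP_afdd4d_co.K10.E6.P1
import Pool.Agent.Lib.MP_afdd4d_co.K10.E6.P2
import Pool.Agent.Lib.MP_afdd4d_co.K10.E6.P3
import Pool.Agent.Lib.MP_afdd4d_co.K10.E6.P4
import Pool.Agent.Lib.MP_afdd4d_co.K10.E6.P5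
import Pool.Agent.Lib.MP_afdd4d_co.K10.E6.P6
import Pool.Agent.Lib.MP_afdd4d_co.K10.E6.P7
import Pool.Agent.Lib.MP_afdd4d_co.K10.E6.P8
import Pool.Agent.Lib.MP_afdd4d_co.K10.E6.P9
import Pool.Agent.Lib.MP_afdd4d_co.K10.E6.P10
import Pool.Agent.Lib.MP_afdd4d_co.K10.E6.P11
import Pool.Agent.Lib.MP_afdd4d_co.K10.E6.P12
import Pool.Agent.Lib.MP_afdd4d_co.K10.E6.P13
import Pool.Agent.Lib.MP_afdd4d_co.K10.E6.P14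
import Pool.Agent.Lib.MP_afdd4d_co.K10.E6.P15
import Pool.Agent.Lib.MP_afdd4d_co.K10.E6.P16
import Pool.Agent.Lib.MP_afdd4d_co.K10.E6.P17
import Pool.Agent.Lib.MP_afdd4d_co.K10.E6.P18
import Pool.Agent.Lib.MP_afdd4d_co.K10.E6.P19
import Pool.Agent.Lib.MP_afdd4d_co.K10.E6.P20
import Pool.Agent.Lib.MP_afdd4d_co.K10.E6.P21
import Pool.Agent.Lib.MP_afdd4d_co.K10.E6.P22
import Pool.Agent.Lib.MP_afdd4d_co.K10.E6.P23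
import Pool.Agent.Lib.MP_afdd4d_co.K10.E6.P24
import Pool.Agent.Lib.MP_afdd4d_co.K10.E6.P25
import Pool.Agent.Lib.MP_afdd4d_co.K10.E6.P26
import Pool.Agent.Lib.MP_afdd4d_co.K10.E6.P27
import Pool.Agent.Lib.MP_afdd4d_co.K10.E6.P28
import Pool.Agent.Lib.MP_afdd4d_co.K10.E6.P29
import Pool.Agent.Lib.MP_afdd4d_co.K10.E6.P30
import Pool.Agent.Lib.MP_afdd4d_co.K10.E6.P31
import Pool.Agent.Lib.MP_afdd4d_co.K10.E6.P32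

/-!
# Tables
-/

namespace Pool.Agent.Lib.MP_afdd4d_co.K10.E6

open K8

set_option maxRecDepth 100000
set_option exponentiation.threshold 10000000

/-- The slices of the chunk 444. -/
noncomputable def c444 : List (List ℕ) := [
  [tr p420_28,
   tr p421_28,
   tr p422_28,
   tr p423_28,
   tr p424_28,
   x7_6 (x7_5 (x7_4 (x3_2 (x3_1 (x3_0 (s3_7 (s2_4 (s1_5 (s0_6 (n6 (n5 p420_55))))))))))),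
   tr p425_28,
   x7_6 (x7_5 (x7_4 (x3_2 (x3_1 (x3_0 (s3_7 (s2_4 (s1_5 (s0_6 (n6 (n5 p422_55)))))))))))],
  [tr p426_28,
   tr p427_28,
   tr p428_28,
   tr p429_28,
   tr p430_28,
   tr p431_28,
   tr p432_28,
   tr p433_28],
  [tr p434_28,
   tr p435_28,
   tr p436_28,
   tr p437_28,
   x7_6 (x7_5 (x7_4 (x3_2 (x3_1 (x3_0 (s3_7 (s2_4 (s1_5 (s0_6 (n6 (n5 (n1 p435_55)))))))))))),
   tr p438_28,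
   x7_6 (x7_5 (x7_4 (x3_2 (x3_1 (x3_0 (s3_7 (s2_4 (s1_5 (s0_6 (n6 (n5 (n1 p437_55)))))))))))),
   tr p439_28],
  [tr p440_28,
   tr p441_28,
   tr p442_28,
   tr p443_28,
   p444_28,
   p444_29,
   p444_30,
   p444_31],
  [x7_6 (x7_5 (x7_4 (x3_2 (x3_1 (x3_0 (s3_7 (s2_4 (s1_5 (s0_6 (n6 (n5 (n0 p432_55)))))))))))),
   x7_6 (x7_5 (x7_4 (x3_2 (x3_1 (x3_0 (s3_7 (s2_4 (s1_5 (s0_6 (n6 (n5 (n0 p428_55)))))))))))),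
   x7_6 (x7_5 (x7_4 (x3_2 (x3_1 (x3_0 (s3_7 (s2_4 (s1_5 (s0_6 (n6 (n5 (n0 p430_55)))))))))))),
   x7_6 (x7_5 (x7_4 (x3_2 (x3_1 (x3_0 (s3_7 (s2_4 (s1_5 (s0_6 (n6 (n5 (n0 p426_55)))))))))))),
   x7_6 (x7_5 (x7_4 (x3_2 (x3_1 (x3_0 (s3_7 (s2_4 (s1_5 (s0_6 (n6 (n5 (n0 p433_55)))))))))))),
   x7_6 (x7_5 (x7_4 (x3_2 (x3_1 (x3_0 (s3_7 (s2_4 (s1_5 (s0_6 (n6 (n5 (n0 p429_55)))))))))))),
   x7_6 (x7_5 (x7_4 (x3_2 (x3_1 (x3_0 (s3_7 (s2_4 (s1_5 (s0_6 (n6 (n5 (n0 p431_55)))))))))))),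
   x7_6 (x7_5 (x7_4 (x3_2 (x3_1 (x3_0 (s3_7 (s2_4 (s1_5 (s0_6 (n6 (n5 (n0 p427_55))))))))))))],
  [tr p448_28,
   p444_41,
   tr p450_28,
   p444_43,
   p444_44,
   tr p452_28,
   p444_46,
   tr p453_28],
  [x7_6 (x7_5 (x7_4 (x3_2 (x3_1 (x3_0 (s3_7 (s2_4 (s1_5 (s0_6 (n6 (n5 (n1 (n0 p443_55))))))))))))),
   p444_49,
   x7_6 (x7_5 (x7_4 (x3_2 (x3_1 (x3_0 (s3_7 (s2_4 (s1_5 (s0_6 (n6 (n5 (n1 (n0 p441_55))))))))))))),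
   p444_51,
   x7_6 (x7_5 (x7_4 (x3_2 (x3_1 (x3_0 (s3_7 (s2_4 (s1_5 (s0_6 (n6 (n5 (n1 (n0 p442_55))))))))))))),
   p444_53,
   x7_6 (x7_5 (x7_4 (x3_2 (x3_1 (x3_0 (s3_7 (s2_4 (s1_5 (s0_6 (n6 (n5 (n1 (n0 p440_55))))))))))))),
   p444_55],
  [p444_56,
   tr p455_28,
   p444_58,
   tr p457_28,
   tr p458_28,
   p444_61,
   tr p459_28,
   p444_63]]

theorem k444 : eqNN c444 (slO 64 (D.chG 58 28) 8) = true := by decide +kernel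

/-- The slices of the chunk 445. -/
noncomputable def c445 : List (List ℕ) := [
  [tr p420_29,
   tr p421_29,
   tr p422_29,
   tr p423_29,
   tr p424_29,
   x7_6 (x7_5 (x7_4 (x3_2 (x3_1 (x3_0 (s3_7 (s2_4 (s1_5 (s0_6 (n6 (n5 p420_51))))))))))),
   tr p425_29,
   x7_6 (x7_5 (x7_4 (x3_2 (x3_1 (x3_0 (s3_7 (s2_4 (s1_5 (s0_6 (n6 (n5 p422_51)))))))))))],
  [tr p426_29,
   tr p427_29,
   tr p428_29,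
   tr p429_29,
   tr p430_29,
   tr p431_29,
   tr p432_29,
   tr p433_29],
  [tr p434_29,
   tr p435_29,
   tr p436_29,
   tr p437_29,
   x7_6 (x7_5 (x7_4 (x3_2 (x3_1 (x3_0 (s3_7 (s2_4 (s1_5 (s0_6 (n6 (n5 (n1 p435_51)))))))))))),
   tr p438_29,
   x7_6 (x7_5 (x7_4 (x3_2 (x3_1 (x3_0 (s3_7 (s2_4 (s1_5 (s0_6 (n6 (n5 (n1 p437_51)))))))))))),
   tr p439_29],
  [tr p440_29,
   tr p441_29,
   tr p442_29,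
   tr p443_29,
   tr p444_29,
   p445_29,
   p445_30,
   p445_31],
  [x7_6 (x7_5 (x7_4 (x3_2 (x3_1 (x3_0 (s3_7 (s2_4 (s1_5 (s0_6 (n6 (n5 (n0 p432_51)))))))))))),
   x7_6 (x7_5 (x7_4 (x3_2 (x3_1 (x3_0 (s3_7 (s2_4 (s1_5 (s0_6 (n6 (n5 (n0 p428_51)))))))))))),
   x7_6 (x7_5 (x7_4 (x3_2 (x3_1 (x3_0 (s3_7 (s2_4 (s1_5 (s0_6 (n6 (n5 (n0 p430_51)))))))))))),
   x7_6 (x7_5 (x7_4 (x3_2 (x3_1 (x3_0 (s3_7 (s2_4 (s1_5 (s0_6 (n6 (n5 (n0 p426_51)))))))))))),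
   x7_6 (x7_5 (x7_4 (x3_2 (x3_1 (x3_0 (s3_7 (s2_4 (s1_5 (s0_6 (n6 (n5 (n0 p433_51)))))))))))),
   x7_6 (x7_5 (x7_4 (x3_2 (x3_1 (x3_0 (s3_7 (s2_4 (s1_5 (s0_6 (n6 (n5 (n0 p429_51)))))))))))),
   x7_6 (x7_5 (x7_4 (x3_2 (x3_1 (x3_0 (s3_7 (s2_4 (s1_5 (s0_6 (n6 (n5 (n0 p431_51)))))))))))),
   x7_6 (x7_5 (x7_4 (x3_2 (x3_1 (x3_0 (s3_7 (s2_4 (s1_5 (s0_6 (n6 (n5 (n0 p427_51))))))))))))],
  [tr p448_29,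
   p445_41,
   tr p450_29,
   p445_43,
   p445_44,
   tr p452_29,
   p445_46,
   tr p453_29],
  [x7_6 (x7_5 (x7_4 (x3_2 (x3_1 (x3_0 (s3_7 (s2_4 (s1_5 (s0_6 (n6 (n5 (n1 (n0 p443_51))))))))))))),
   p445_49,
   x7_6 (x7_5 (x7_4 (x3_2 (x3_1 (x3_0 (s3_7 (s2_4 (s1_5 (s0_6 (n6 (n5 (n1 (n0 p441_51))))))))))))),
   p445_51,
   x7_6 (x7_5 (x7_4 (x3_2 (x3_1 (x3_0 (s3_7 (s2_4 (s1_5 (s0_6 (n6 (n5 (n1 (n0 p442_51))))))))))))),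
   p445_53,
   x7_6 (x7_5 (x7_4 (x3_2 (x3_1 (x3_0 (s3_7 (s2_4 (s1_5 (s0_6 (n6 (n5 (n1 (n0 p440_51))))))))))))),
   x7_6 (x7_5 (x7_4 (x3_2 (x3_1 (x3_0 (s3_7 (s2_4 (s1_5 (s0_6 (n6 (n5 (n1 (n0 p444_51)))))))))))))],
  [p445_56,
   tr p455_29,
   p445_58,
   tr p457_29,
   tr p458_29,
   p445_61,
   tr p459_29,
   p445_63]]

theorem k445 : eqNN c445 (slO 64 (D.chG 58 29) 8) = true := by decide +kernel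

/-- The slices of the chunk 446. -/
noncomputable def c446 : List (List ℕ) := [
  [tr p420_30,
   tr p421_30,
   tr p422_30,
   tr p423_30,
   tr p424_30,
   x7_6 (x7_5 (x7_4 (x3_2 (x3_1 (x3_0 (s3_7 (s2_4 (s1_5 (s0_6 (n6 (n5 p420_53))))))))))),
   tr p425_30,
   x7_6 (x7_5 (x7_4 (x3_2 (x3_1 (x3_0 (s3_7 (s2_4 (s1_5 (s0_6 (n6 (n5 p422_53)))))))))))],
  [tr p426_30,
   tr p427_30,
   tr p428_30,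
   tr p429_30,
   tr p430_30,
   tr p431_30,
   tr p432_30,
   tr p433_30],
  [tr p434_30,
   tr p435_30,
   tr p436_30,
   tr p437_30,
   x7_6 (x7_5 (x7_4 (x3_2 (x3_1 (x3_0 (s3_7 (s2_4 (s1_5 (s0_6 (n6 (n5 (n1 p435_53)))))))))))),
   tr p438_30,
   x7_6 (x7_5 (x7_4 (x3_2 (x3_1 (x3_0 (s3_7 (s2_4 (s1_5 (s0_6 (n6 (n5 (n1 p437_53)))))))))))),
   tr p439_30],
  [tr p440_30,
   tr p441_30,
   tr p442_30,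
   tr p443_30,
   tr p444_30,
   tr p445_30,
   p446_30,
   p446_31],
  [x7_6 (x7_5 (x7_4 (x3_2 (x3_1 (x3_0 (s3_7 (s2_4 (s1_5 (s0_6 (n6 (n5 (n0 p432_53)))))))))))),
   x7_6 (x7_5 (x7_4 (x3_2 (x3_1 (x3_0 (s3_7 (s2_4 (s1_5 (s0_6 (n6 (n5 (n0 p428_53)))))))))))),
   x7_6 (x7_5 (x7_4 (x3_2 (x3_1 (x3_0 (s3_7 (s2_4 (s1_5 (s0_6 (n6 (n5 (n0 p430_53)))))))))))),
   x7_6 (x7_5 (x7_4 (x3_2 (x3_1 (x3_0 (s3_7 (s2_4 (s1_5 (s0_6 (n6 (n5 (n0 p426_53)))))))))))),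
   x7_6 (x7_5 (x7_4 (x3_2 (x3_1 (x3_0 (s3_7 (s2_4 (s1_5 (s0_6 (n6 (n5 (n0 p433_53)))))))))))),
   x7_6 (x7_5 (x7_4 (x3_2 (x3_1 (x3_0 (s3_7 (s2_4 (s1_5 (s0_6 (n6 (n5 (n0 p429_53)))))))))))),
   x7_6 (x7_5 (x7_4 (x3_2 (x3_1 (x3_0 (s3_7 (s2_4 (s1_5 (s0_6 (n6 (n5 (n0 p431_53)))))))))))),
   x7_6 (x7_5 (x7_4 (x3_2 (x3_1 (x3_0 (s3_7 (s2_4 (s1_5 (s0_6 (n6 (n5 (n0 p427_53))))))))))))],
  [tr p448_30,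
   p446_41,
   tr p450_30,
   p446_43,
   p446_44,
   tr p452_30,
   p446_46,
   tr p453_30],
  [x7_6 (x7_5 (x7_4 (x3_2 (x3_1 (x3_0 (s3_7 (s2_4 (s1_5 (s0_6 (n6 (n5 (n1 (n0 p443_53))))))))))))),
   p446_49,
   x7_6 (x7_5 (x7_4 (x3_2 (x3_1 (x3_0 (s3_7 (s2_4 (s1_5 (s0_6 (n6 (n5 (n1 (n0 p441_53))))))))))))),
   x7_6 (x7_5 (x7_4 (x3_2 (x3_1 (x3_0 (s3_7 (s2_4 (s1_5 (s0_6 (n6 (n5 (n1 (n0 p445_53))))))))))))),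
   x7_6 (x7_5 (x7_4 (x3_2 (x3_1 (x3_0 (s3_7 (s2_4 (s1_5 (s0_6 (n6 (n5 (n1 (n0 p442_53))))))))))))),
   p446_53,
   x7_6 (x7_5 (x7_4 (x3_2 (x3_1 (x3_0 (s3_7 (s2_4 (s1_5 (s0_6 (n6 (n5 (n1 (n0 p440_53))))))))))))),
   x7_6 (x7_5 (x7_4 (x3_2 (x3_1 (x3_0 (s3_7 (s2_4 (s1_5 (s0_6 (n6 (n5 (n1 (n0 p444_53)))))))))))))],
  [p446_56,
   tr p455_30,
   p446_58,
   tr p457_30,
   tr p458_30,
   p446_61,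
   tr p459_30,
   p446_63]]

theorem k446 : eqNN c446 (slO 64 (D.chG 58 30) 8) = true := by decide +kernel

/-- The slices of the chunk 447. -/
noncomputable def c447 : List (List ℕ) := [
  [tr p420_31,
   tr p421_31,
   tr p422_31,
   tr p423_31,
   tr p424_31,
   x7_6 (x7_5 (x7_4 (x3_2 (x3_1 (x3_0 (s3_7 (s2_4 (s1_5 (s0_6 (n6 (n5 p420_49))))))))))),
   tr p425_31,
   x7_6 (x7_5 (x7_4 (x3_2 (x3_1 (x3_0 (s3_7 (s2_4 (s1_5 (s0_6 (n6 (n5 p422_49)))))))))))],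
  [tr p426_31,
   tr p427_31,
   tr p428_31,
   tr p429_31,
   tr p430_31,
   tr p431_31,
   tr p432_31,
   tr p433_31],
  [tr p434_31,
   tr p435_31,
   tr p436_31,
   tr p437_31,
   x7_6 (x7_5 (x7_4 (x3_2 (x3_1 (x3_0 (s3_7 (s2_4 (s1_5 (s0_6 (n6 (n5 (n1 p435_49)))))))))))),
   tr p438_31,
   x7_6 (x7_5 (x7_4 (x3_2 (x3_1 (x3_0 (s3_7 (s2_4 (s1_5 (s0_6 (n6 (n5 (n1 p437_49)))))))))))),
   tr p439_31],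
  [tr p440_31,
   tr p441_31,
   tr p442_31,
   tr p443_31,
   tr p444_31,
   tr p445_31,
   tr p446_31,
   p447_31],
  [x7_6 (x7_5 (x7_4 (x3_2 (x3_1 (x3_0 (s3_7 (s2_4 (s1_5 (s0_6 (n6 (n5 (n0 p432_49)))))))))))),
   x7_6 (x7_5 (x7_4 (x3_2 (x3_1 (x3_0 (s3_7 (s2_4 (s1_5 (s0_6 (n6 (n5 (n0 p428_49)))))))))))),
   x7_6 (x7_5 (x7_4 (x3_2 (x3_1 (x3_0 (s3_7 (s2_4 (s1_5 (s0_6 (n6 (n5 (n0 p430_49)))))))))))),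
   x7_6 (x7_5 (x7_4 (x3_2 (x3_1 (x3_0 (s3_7 (s2_4 (s1_5 (s0_6 (n6 (n5 (n0 p426_49)))))))))))),
   x7_6 (x7_5 (x7_4 (x3_2 (x3_1 (x3_0 (s3_7 (s2_4 (s1_5 (s0_6 (n6 (n5 (n0 p433_49)))))))))))),
   x7_6 (x7_5 (x7_4 (x3_2 (x3_1 (x3_0 (s3_7 (s2_4 (s1_5 (s0_6 (n6 (n5 (n0 p429_49)))))))))))),
   x7_6 (x7_5 (x7_4 (x3_2 (x3_1 (x3_0 (s3_7 (s2_4 (s1_5 (s0_6 (n6 (n5 (n0 p431_49)))))))))))),
   x7_6 (x7_5 (x7_4 (x3_2 (x3_1 (x3_0 (s3_7 (s2_4 (s1_5 (s0_6 (n6 (n5 (n0 p427_49))))))))))))],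
  [tr p448_31,
   p447_41,
   tr p450_31,
   p447_43,
   p447_44,
   tr p452_31,
   p447_46,
   tr p453_31],
  [x7_6 (x7_5 (x7_4 (x3_2 (x3_1 (x3_0 (s3_7 (s2_4 (s1_5 (s0_6 (n6 (n5 (n1 (n0 p443_49))))))))))))),
   p447_49,
   x7_6 (x7_5 (x7_4 (x3_2 (x3_1 (x3_0 (s3_7 (s2_4 (s1_5 (s0_6 (n6 (n5 (n1 (n0 p441_49))))))))))))),
   x7_6 (x7_5 (x7_4 (x3_2 (x3_1 (x3_0 (s3_7 (s2_4 (s1_5 (s0_6 (n6 (n5 (n1 (n0 p445_49))))))))))))),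
   x7_6 (x7_5 (x7_4 (x3_2 (x3_1 (x3_0 (s3_7 (s2_4 (s1_5 (s0_6 (n6 (n5 (n1 (n0 p442_49))))))))))))),
   x7_6 (x7_5 (x7_4 (x3_2 (x3_1 (x3_0 (s3_7 (s2_4 (s1_5 (s0_6 (n6 (n5 (n1 (n0 p446_49))))))))))))),
   x7_6 (x7_5 (x7_4 (x3_2 (x3_1 (x3_0 (s3_7 (s2_4 (s1_5 (s0_6 (n6 (n5 (n1 (n0 p440_49))))))))))))),
   x7_6 (x7_5 (x7_4 (x3_2 (x3_1 (x3_0 (s3_7 (s2_4 (s1_5 (s0_6 (n6 (n5 (n1 (n0 p444_49)))))))))))))],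
  [p447_56,
   tr p455_31,
   p447_58,
   tr p457_31,
   tr p458_31,
   p447_61,
   tr p459_31,
   p447_63]]

theorem k447 : eqNN c447 (slO 64 (D.chG 58 31) 8) = true := by decide +kernel

end Pool.Agent.Lib.MP_afdd4d_co.K10.E6
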