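import Pool.Agent.Lib.MP_afdd4d_co.K10.E6.Dat
import Pool.Agent.Lib.MP_afdd4d_co.K10.E6.Mk
import Pool.Agent.Lib.MP_afdd4d_co.K8.F6Bl5
import Pool.Agent.Lib.MP_afdd4d_co.K10.E6.P0
import Pool.Agent.Lib.MP_afdd4d_co.K10.E6.P1
import Pool.Agent.Lib.MP_afdd4d_co.K10.E6.P2
import Pool.Agent.Lib.MP_afdd4d_co.K10.E6.P3
import Pool.Agent.Lib.MP_afdd4d_co.K10.E6.P4
import Pool.Agent.Lib.MP_afdd4d_co.K10.E6.P5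
import Pool.Agent.Lib.MP_afdd4d_co.K10.E6.P6
import Pool.Agent.Lib.MP_afdd4d_co.K10.E6.P7
import Pool.Agent.Lib.MP_afdd4d_co.K10.E6.P8
import Pool.Agent.Lib.MP_afdd4d_co.K10.E6.P9
import Pool.Agent.Lib.MP_afdd4d_co.K10.E6.P10
import Pool.Agent.Lib.MP_afdd4d_co.K10.E6.P11
import Pool.Agent.Lib.MP_afdd4d_co.K10.E6.P12
import Pool.Agent.Lib.MP_afdd4d_co.K10.E6.P13
import Pool.Agent.Lib.MP_afdd4d_co.K10.E6.P14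
import Pool.Agent.Lib.MP_afdd4d_co.K10.E6.P15
import Pool.Agent.Lib.MP_afdd4d_co.K10.E6.P16
import Pool.Agent.Lib.MP_afdd4d_co.K10.E6.P17
import Pool.Agent.Lib.MP_afdd4d_co.K10.E6.P18
import Pool.Agent.Lib.MP_afdd4d_co.K10.E6.P19
import Pool.Agent.Lib.MP_afdd4d_co.K10.E6.P20
import Pool.Agent.Lib.MP_afdd4d_co.K10.E6.P21
import Pool.Agent.Lib.MP_afdd4d_co.K10.E6.P22
import Pool.Agent.Lib.MP_afdd4d_co.K10.E6.P23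
import Pool.Agent.Lib.MP_afdd4d_co.K10.E6.P24
import Pool.Agent.Lib.MP_afdd4d_co.K10.E6.P25
import Pool.Agent.Lib.MP_afdd4d_co.K10.E6.P26
import Pool.Agent.Lib.MP_afdd4d_co.K10.E6.P27
import Pool.Agent.Lib.MP_afdd4d_co.K10.E6.P28
import Pool.Agent.Lib.MP_afdd4d_co.K10.E6.P29
import Pool.Agent.Lib.MP_afdd4d_co.K10.E6.P30
import Pool.Agent.Lib.MP_afdd4d_co.K10.E6.P31
import Pool.Agent.Lib.MP_afdd4d_co.K10.E6.P32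

/-!
# Tables
-/

namespace Pool.Agent.Lib.MP_afdd4d_co.K10.E6

open K8

set_option maxRecDepth 100000
set_option exponentiation.threshold 10000000

/-- The slices of the chunk 448. -/
noncomputable def c448 : List (List ℕ) := [
  [p448_0,
   tr p421_40,
   p448_2,
   tr p423_40,
   tr p424_40,
   x7_6 (x7_5 (x7_4 (s4_6 (x3_2 (x3_1 (x3_0 (s0_2 (n2 (n0 p448_0))))))))),
   tr p425_40,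
   x7_6 (x7_5 (x7_4 (s4_6 (x3_2 (x3_1 (x3_0 (s0_2 (n2 (n0 p448_2)))))))))],
  [p448_8,
   p448_9,
   p448_10,
   p448_11,
   p448_12,
   p448_13,
   p448_14,
   p448_15],
  [tr p434_40,
   p448_17,
   tr p436_40,
   p448_19,
   x7_6 (x7_5 (x7_4 (s4_6 (x3_2 (x3_1 (x3_0 (s0_2 (n5 (n2 (n0 p448_17)))))))))),
   tr p438_40,
   x7_6 (x7_5 (x7_4 (s4_6 (x3_2 (x3_1 (x3_0 (s0_2 (n5 (n2 (n0 p448_19)))))))))),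
   tr p439_40],
  [p448_24,
   p448_25,
   p448_26,
   p448_27,
   p448_28,
   p448_29,
   p448_30,
   p448_31],
  [x7_6 (x7_5 (x7_4 (s4_6 (x3_2 (x3_1 (x3_0 (s0_2 (n4 (n2 (n0 p448_14)))))))))),
   x7_6 (x7_5 (x7_4 (s4_6 (x3_2 (x3_1 (x3_0 (s0_2 (n4 (n2 (n0 p448_10)))))))))),
   x7_6 (x7_5 (x7_4 (s4_6 (x3_2 (x3_1 (x3_0 (s0_2 (n4 (n2 (n0 p448_12)))))))))),
   x7_6 (x7_5 (x7_4 (s4_6 (x3_2 (x3_1 (x3_0 (s0_2 (n4 (n2 (n0 p448_8)))))))))),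
   x7_6 (x7_5 (x7_4 (s4_6 (x3_2 (x3_1 (x3_0 (s0_2 (n4 (n2 (n0 p448_15)))))))))),
   x7_6 (x7_5 (x7_4 (s4_6 (x3_2 (x3_1 (x3_0 (s0_2 (n4 (n2 (n0 p448_11)))))))))),
   x7_6 (x7_5 (x7_4 (s4_6 (x3_2 (x3_1 (x3_0 (s0_2 (n4 (n2 (n0 p448_13)))))))))),
   x7_6 (x7_5 (x7_4 (s4_6 (x3_2 (x3_1 (x3_0 (s0_2 (n4 (n2 (n0 p448_9))))))))))],
  [p448_40,
   p448_41,
   p448_42,
   p448_43,
   x7_6 (x7_5 (x7_4 (s4_6 (x3_2 (x3_1 (x3_0 (s0_2 (n6 (n4 (n2 (n0 p448_41))))))))))),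
   p448_45,
   x7_6 (x7_5 (x7_4 (s4_6 (x3_2 (x3_1 (x3_0 (s0_2 (n6 (n4 (n2 (n0 p448_43))))))))))),
   p448_47],
  [x7_6 (x7_5 (x7_4 (s4_6 (x3_2 (x3_1 (x3_0 (s0_2 (n5 (n4 (n2 (n0 p448_27))))))))))),
   x7_6 (x7_5 (x7_4 (s4_6 (x3_2 (x3_1 (x3_0 (s0_2 (n5 (n4 (n2 (n0 p448_31))))))))))),
   x7_6 (x7_5 (x7_4 (s4_6 (x3_2 (x3_1 (x3_0 (s0_2 (n5 (n4 (n2 (n0 p448_25))))))))))),
   x7_6 (x7_5 (x7_4 (s4_6 (x3_2 (x3_1 (x3_0 (s0_2 (n5 (n4 (n2 (n0 p448_29))))))))))),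
   x7_6 (x7_5 (x7_4 (s4_6 (x3_2 (x3_1 (x3_0 (s0_2 (n5 (n4 (n2 (n0 p448_26))))))))))),
   x7_6 (x7_5 (x7_4 (s4_6 (x3_2 (x3_1 (x3_0 (s0_2 (n5 (n4 (n2 (n0 p448_30))))))))))),
   x7_6 (x7_5 (x7_4 (s4_6 (x3_2 (x3_1 (x3_0 (s0_2 (n5 (n4 (n2 (n0 p448_24))))))))))),
   x7_6 (x7_5 (x7_4 (s4_6 (x3_2 (x3_1 (x3_0 (s0_2 (n5 (n4 (n2 (n0 p448_28)))))))))))],
  [p448_56,
   p448_57,
   p448_58,
   p448_59,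
   p448_60,
   x7_6 (x7_5 (x7_4 (s4_6 (x3_2 (x3_1 (x3_0 (s0_2 (n6 (n5 (n4 (n2 (n0 p448_56)))))))))))),
   p448_62,
   x7_6 (x7_5 (x7_4 (s4_6 (x3_2 (x3_1 (x3_0 (s0_2 (n6 (n5 (n4 (n2 (n0 p448_58))))))))))))]]

theorem k448 : eqNN c448 (slO 64 (D.chG 58 40) 8) = true := by decide +kernel

/-- The slices of the chunk 449. -/
noncomputable def c449 : List (List ℕ) := [
  [tr p420_41,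
   tr p421_41,
   tr p422_41,
   tr p423_41,
   tr p424_41,
   x7_6 (x7_5 (x7_4 (x3_2 (x3_1 (x3_0 (s3_7 (s2_4 (s1_5 (s0_6 (n6 (n4 p420_44))))))))))),
   tr p425_41,
   x7_6 (x7_5 (x7_4 (x3_2 (x3_1 (x3_0 (s3_7 (s2_4 (s1_5 (s0_6 (n6 (n4 p422_44)))))))))))],
  [tr p426_41,
   tr p427_41,
   tr p428_41,
   tr p429_41,
   tr p430_41,
   tr p431_41,
   tr p432_41,
   tr p433_41],
  [tr p434_41,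
   tr p435_41,
   tr p436_41,
   tr p437_41,
   x7_6 (x7_5 (x7_4 (x3_2 (x3_1 (x3_0 (s3_7 (s2_4 (s1_5 (s0_6 (n6 (n4 (n1 p435_44)))))))))))),
   tr p438_41,
   x7_6 (x7_5 (x7_4 (x3_2 (x3_1 (x3_0 (s3_7 (s2_4 (s1_5 (s0_6 (n6 (n4 (n1 p437_44)))))))))))),
   tr p439_41],
  [tr p440_41,
   tr p441_41,
   tr p442_41,
   tr p443_41,
   tr p444_41,
   tr p445_41,
   tr p446_41,
   tr p447_41],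
  [x7_6 (x7_5 (x7_4 (x3_2 (x3_1 (x3_0 (s3_7 (s2_4 (s1_5 (s0_6 (n6 (n4 (n0 p432_44)))))))))))),
   x7_6 (x7_5 (x7_4 (x3_2 (x3_1 (x3_0 (s3_7 (s2_4 (s1_5 (s0_6 (n6 (n4 (n0 p428_44)))))))))))),
   x7_6 (x7_5 (x7_4 (x3_2 (x3_1 (x3_0 (s3_7 (s2_4 (s1_5 (s0_6 (n6 (n4 (n0 p430_44)))))))))))),
   x7_6 (x7_5 (x7_4 (x3_2 (x3_1 (x3_0 (s3_7 (s2_4 (s1_5 (s0_6 (n6 (n4 (n0 p426_44)))))))))))),
   x7_6 (x7_5 (x7_4 (x3_2 (x3_1 (x3_0 (s3_7 (s2_4 (s1_5 (s0_6 (n6 (n4 (n0 p433_44)))))))))))),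
   x7_6 (x7_5 (x7_4 (x3_2 (x3_1 (x3_0 (s3_7 (s2_4 (s1_5 (s0_6 (n6 (n4 (n0 p429_44)))))))))))),
   x7_6 (x7_5 (x7_4 (x3_2 (x3_1 (x3_0 (s3_7 (s2_4 (s1_5 (s0_6 (n6 (n4 (n0 p431_44)))))))))))),
   x7_6 (x7_5 (x7_4 (x3_2 (x3_1 (x3_0 (s3_7 (s2_4 (s1_5 (s0_6 (n6 (n4 (n0 p427_44))))))))))))],
  [tr p448_41,
   p449_41,
   tr p450_41,
   p449_43,
   p449_44,
   tr p452_41,
   p449_46,
   tr p453_41],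
  [x7_6 (x7_5 (x7_4 (x3_2 (x3_1 (x3_0 (s3_7 (s2_4 (s1_5 (s0_6 (n6 (n4 (n1 (n0 p443_44))))))))))))),
   x7_6 (x7_5 (x7_4 (x3_2 (x3_1 (x3_0 (s3_7 (s2_4 (s1_5 (s0_6 (n6 (n4 (n1 (n0 p447_44))))))))))))),
   x7_6 (x7_5 (x7_4 (x3_2 (x3_1 (x3_0 (s3_7 (s2_4 (s1_5 (s0_6 (n6 (n4 (n1 (n0 p441_44))))))))))))),
   x7_6 (x7_5 (x7_4 (x3_2 (x3_1 (x3_0 (s3_7 (s2_4 (s1_5 (s0_6 (n6 (n4 (n1 (n0 p445_44))))))))))))),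
   x7_6 (x7_5 (x7_4 (x3_2 (x3_1 (x3_0 (s3_7 (s2_4 (s1_5 (s0_6 (n6 (n4 (n1 (n0 p442_44))))))))))))),
   x7_6 (x7_5 (x7_4 (x3_2 (x3_1 (x3_0 (s3_7 (s2_4 (s1_5 (s0_6 (n6 (n4 (n1 (n0 p446_44))))))))))))),
   x7_6 (x7_5 (x7_4 (x3_2 (x3_1 (x3_0 (s3_7 (s2_4 (s1_5 (s0_6 (n6 (n4 (n1 (n0 p440_44))))))))))))),
   x7_6 (x7_5 (x7_4 (x3_2 (x3_1 (x3_0 (s3_7 (s2_4 (s1_5 (s0_6 (n6 (n4 (n1 (n0 p444_44)))))))))))))],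
  [p449_56,
   tr p455_41,
   p449_58,
   tr p457_41,
   tr p458_41,
   p449_61,
   tr p459_41,
   p449_63]]

theorem k449 : eqNN c449 (slO 64 (D.chG 58 41) 8) = true := by decide +kernel

/-- The slices of the chunk 450. -/
noncomputable def c450 : List (List ℕ) := [
  [p450_0,
   tr p421_42,
   p450_2,
   tr p423_42,
   tr p424_42,
   x7_6 (x7_5 (x7_4 (s4_6 (x3_2 (x3_1 (x3_0 (s0_2 (n2 (n0 p450_0))))))))),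
   tr p425_42,
   x7_6 (x7_5 (x7_4 (s4_6 (x3_2 (x3_1 (x3_0 (s0_2 (n2 (n0 p450_2)))))))))],
  [p450_8,
   p450_9,
   p450_10,
   p450_11,
   p450_12,
   p450_13,
   p450_14,
   p450_15],
  [tr p434_42,
   p450_17,
   tr p436_42,
   p450_19,
   x7_6 (x7_5 (x7_4 (s4_6 (x3_2 (x3_1 (x3_0 (s0_2 (n5 (n2 (n0 p450_17)))))))))),
   tr p438_42,
   x7_6 (x7_5 (x7_4 (s4_6 (x3_2 (x3_1 (x3_0 (s0_2 (n5 (n2 (n0 p450_19)))))))))),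
   tr p439_42],
  [p450_24,
   p450_25,
   p450_26,
   p450_27,
   p450_28,
   p450_29,
   p450_30,
   p450_31],
  [x7_6 (x7_5 (x7_4 (s4_6 (x3_2 (x3_1 (x3_0 (s0_2 (n4 (n2 (n0 p450_14)))))))))),
   x7_6 (x7_5 (x7_4 (s4_6 (x3_2 (x3_1 (x3_0 (s0_2 (n4 (n2 (n0 p450_10)))))))))),
   x7_6 (x7_5 (x7_4 (s4_6 (x3_2 (x3_1 (x3_0 (s0_2 (n4 (n2 (n0 p450_12)))))))))),
   x7_6 (x7_5 (x7_4 (s4_6 (x3_2 (x3_1 (x3_0 (s0_2 (n4 (n2 (n0 p450_8)))))))))),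
   x7_6 (x7_5 (x7_4 (s4_6 (x3_2 (x3_1 (x3_0 (s0_2 (n4 (n2 (n0 p450_15)))))))))),
   x7_6 (x7_5 (x7_4 (s4_6 (x3_2 (x3_1 (x3_0 (s0_2 (n4 (n2 (n0 p450_11)))))))))),
   x7_6 (x7_5 (x7_4 (s4_6 (x3_2 (x3_1 (x3_0 (s0_2 (n4 (n2 (n0 p450_13)))))))))),
   x7_6 (x7_5 (x7_4 (s4_6 (x3_2 (x3_1 (x3_0 (s0_2 (n4 (n2 (n0 p450_9))))))))))],
  [tr p448_42,
   p450_41,
   p450_42,
   p450_43,
   x7_6 (x7_5 (x7_4 (s4_6 (x3_2 (x3_1 (x3_0 (s0_2 (n6 (n4 (n2 (n0 p450_41))))))))))),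
   p450_45,
   x7_6 (x7_5 (x7_4 (s4_6 (x3_2 (x3_1 (x3_0 (s0_2 (n6 (n4 (n2 (n0 p450_43))))))))))),
   p450_47],
  [x7_6 (x7_5 (x7_4 (s4_6 (x3_2 (x3_1 (x3_0 (s0_2 (n5 (n4 (n2 (n0 p450_27))))))))))),
   x7_6 (x7_5 (x7_4 (s4_6 (x3_2 (x3_1 (x3_0 (s0_2 (n5 (n4 (n2 (n0 p450_31))))))))))),
   x7_6 (x7_5 (x7_4 (s4_6 (x3_2 (x3_1 (x3_0 (s0_2 (n5 (n4 (n2 (n0 p450_25))))))))))),
   x7_6 (x7_5 (x7_4 (s4_6 (x3_2 (x3_1 (x3_0 (s0_2 (n5 (n4 (n2 (n0 p450_29))))))))))),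
   x7_6 (x7_5 (x7_4 (s4_6 (x3_2 (x3_1 (x3_0 (s0_2 (n5 (n4 (n2 (n0 p450_26))))))))))),
   x7_6 (x7_5 (x7_4 (s4_6 (x3_2 (x3_1 (x3_0 (s0_2 (n5 (n4 (n2 (n0 p450_30))))))))))),
   x7_6 (x7_5 (x7_4 (s4_6 (x3_2 (x3_1 (x3_0 (s0_2 (n5 (n4 (n2 (n0 p450_24))))))))))),
   x7_6 (x7_5 (x7_4 (s4_6 (x3_2 (x3_1 (x3_0 (s0_2 (n5 (n4 (n2 (n0 p450_28)))))))))))],
  [p450_56,
   p450_57,
   p450_58,
   p450_59,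
   p450_60,
   x7_6 (x7_5 (x7_4 (s4_6 (x3_2 (x3_1 (x3_0 (s0_2 (n6 (n5 (n4 (n2 (n0 p450_56)))))))))))),
   p450_62,
   x7_6 (x7_5 (x7_4 (s4_6 (x3_2 (x3_1 (x3_0 (s0_2 (n6 (n5 (n4 (n2 (n0 p450_58))))))))))))]]

theorem k450 : eqNN c450 (slO 64 (D.chG 58 42) 8) = true := by decide +kernel

/-- The slices of the chunk 451. -/
noncomputable def c451 : List (List ℕ) := [
  [tr p420_43,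
   tr p421_43,
   tr p422_43,
   tr p423_43,
   tr p424_43,
   x7_6 (x7_5 (x7_4 (x3_2 (x3_1 (x3_0 (s3_7 (s2_4 (s1_5 (s0_6 (n6 (n4 p420_46))))))))))),
   tr p425_43,
   x7_6 (x7_5 (x7_4 (x3_2 (x3_1 (x3_0 (s3_7 (s2_4 (s1_5 (s0_6 (n6 (n4 p422_46)))))))))))],
  [tr p426_43,
   tr p427_43,
   tr p428_43,
   tr p429_43,
   tr p430_43,
   tr p431_43,
   tr p432_43,
   tr p433_43],
  [tr p434_43,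
   tr p435_43,
   tr p436_43,
   tr p437_43,
   x7_6 (x7_5 (x7_4 (x3_2 (x3_1 (x3_0 (s3_7 (s2_4 (s1_5 (s0_6 (n6 (n4 (n1 p435_46)))))))))))),
   tr p438_43,
   x7_6 (x7_5 (x7_4 (x3_2 (x3_1 (x3_0 (s3_7 (s2_4 (s1_5 (s0_6 (n6 (n4 (n1 p437_46)))))))))))),
   tr p439_43],
  [tr p440_43,
   tr p441_43,
   tr p442_43,
   tr p443_43,
   tr p444_43,
   tr p445_43,
   tr p446_43,
   tr p447_43],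
  [x7_6 (x7_5 (x7_4 (x3_2 (x3_1 (x3_0 (s3_7 (s2_4 (s1_5 (s0_6 (n6 (n4 (n0 p432_46)))))))))))),
   x7_6 (x7_5 (x7_4 (x3_2 (x3_1 (x3_0 (s3_7 (s2_4 (s1_5 (s0_6 (n6 (n4 (n0 p428_46)))))))))))),
   x7_6 (x7_5 (x7_4 (x3_2 (x3_1 (x3_0 (s3_7 (s2_4 (s1_5 (s0_6 (n6 (n4 (n0 p430_46)))))))))))),
   x7_6 (x7_5 (x7_4 (x3_2 (x3_1 (x3_0 (s3_7 (s2_4 (s1_5 (s0_6 (n6 (n4 (n0 p426_46)))))))))))),
   x7_6 (x7_5 (x7_4 (x3_2 (x3_1 (x3_0 (s3_7 (s2_4 (s1_5 (s0_6 (n6 (n4 (n0 p433_46)))))))))))),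
   x7_6 (x7_5 (x7_4 (x3_2 (x3_1 (x3_0 (s3_7 (s2_4 (s1_5 (s0_6 (n6 (n4 (n0 p429_46)))))))))))),
   x7_6 (x7_5 (x7_4 (x3_2 (x3_1 (x3_0 (s3_7 (s2_4 (s1_5 (s0_6 (n6 (n4 (n0 p431_46)))))))))))),
   x7_6 (x7_5 (x7_4 (x3_2 (x3_1 (x3_0 (s3_7 (s2_4 (s1_5 (s0_6 (n6 (n4 (n0 p427_46))))))))))))],
  [tr p448_43,
   tr p449_43,
   tr p450_43,
   p451_43,
   x7_6 (x7_5 (x7_4 (x3_2 (x3_1 (x3_0 (s3_7 (s2_4 (s1_5 (s0_6 (n6 (n4 (n2 (n0 p449_46))))))))))))),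
   tr p452_43,
   p451_46,
   tr p453_43],
  [x7_6 (x7_5 (x7_4 (x3_2 (x3_1 (x3_0 (s3_7 (s2_4 (s1_5 (s0_6 (n6 (n4 (n1 (n0 p443_46))))))))))))),
   x7_6 (x7_5 (x7_4 (x3_2 (x3_1 (x3_0 (s3_7 (s2_4 (s1_5 (s0_6 (n6 (n4 (n1 (n0 p447_46))))))))))))),
   x7_6 (x7_5 (x7_4 (x3_2 (x3_1 (x3_0 (s3_7 (s2_4 (s1_5 (s0_6 (n6 (n4 (n1 (n0 p441_46))))))))))))),
   x7_6 (x7_5 (x7_4 (x3_2 (x3_1 (x3_0 (s3_7 (s2_4 (s1_5 (s0_6 (n6 (n4 (n1 (n0 p445_46))))))))))))),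
   x7_6 (x7_5 (x7_4 (x3_2 (x3_1 (x3_0 (s3_7 (s2_4 (s1_5 (s0_6 (n6 (n4 (n1 (n0 p442_46))))))))))))),
   x7_6 (x7_5 (x7_4 (x3_2 (x3_1 (x3_0 (s3_7 (s2_4 (s1_5 (s0_6 (n6 (n4 (n1 (n0 p446_46))))))))))))),
   x7_6 (x7_5 (x7_4 (x3_2 (x3_1 (x3_0 (s3_7 (s2_4 (s1_5 (s0_6 (n6 (n4 (n1 (n0 p440_46))))))))))))),
   x7_6 (x7_5 (x7_4 (x3_2 (x3_1 (x3_0 (s3_7 (s2_4 (s1_5 (s0_6 (n6 (n4 (n1 (n0 p444_46)))))))))))))],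
  [p451_56,
   tr p455_43,
   p451_58,
   tr p457_43,
   tr p458_43,
   p451_61,
   tr p459_43,
   p451_63]]

theorem k451 : eqNN c451 (slO 64 (D.chG 58 43) 8) = true := by decide +kernel

end Pool.Agent.Lib.MP_afdd4d_co.K10.E6
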