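import Pool.Agent.Lib.MP_afdd4d_co.K10.E6.Dat
import Pool.Agent.Lib.MP_afdd4d_co.K10.E6.Mk
import Pool.Agent.Lib.MP_afdd4d_co.K8.F6Bl5
import Pool.Agent.Lib.MP_afdd4d_co.K10.E6.P0
import Pool.Agent.Lib.MP_afdd4d_co.K10.E6.P1
import Pool.Agent.Lib.MP_afdd4d_co.K10.E6.P2
import Pool.Agent.Lib.MP_afdd4d_co.K10.E6.P3
import Pool.Agent.Lib.MP_afdd4d_co.K10.E6.P4
import Pool.Agent.Lib.MP_afdd4d_co.K10.E6.P5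
import Pool.Agent.Lib.MP_afdd4d_co.K10.E6.P6
import Pool.Agent.Lib.MP_afdd4d_co.K10.E6.P7
import Pool.Agent.Lib.MP_afdd4d_co.K10.E6.P8
import Pool.Agent.Lib.MP_afdd4d_co.K10.E6.P9
import Pool.Agent.Lib.MP_afdd4d_co.K10.E6.P10
import Pool.Agent.Lib.MP_afdd4d_co.K10.E6.P11
import Pool.Agent.Lib.MP_afdd4d_co.K10.E6.P12
import Pool.Agent.Lib.MP_afdd4d_co.K10.E6.P13
import Pool.Agent.Lib.MP_afdd4d_co.K10.E6.P14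
import Pool.Agent.Lib.MP_afdd4d_co.K10.E6.P15
import Pool.Agent.Lib.MP_afdd4d_co.K10.E6.P16
import Pool.Agent.Lib.MP_afdd4d_co.K10.E6.P17
import Pool.Agent.Lib.MP_afdd4d_co.K10.E6.P18
import Pool.Agent.Lib.MP_afdd4d_co.K10.E6.P19
import Pool.Agent.Lib.MP_afdd4d_co.K10.E6.P20
import Pool.Agent.Lib.MP_afdd4d_co.K10.E6.P21
import Pool.Agent.Lib.MP_afdd4d_co.K10.E6.P22
import Pool.Agent.Lib.MP_afdd4d_co.K10.E6.P23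
import Pool.Agent.Lib.MP_afdd4d_co.K10.E6.P24
import Pool.Agent.Lib.MP_afdd4d_co.K10.E6.P25
import Pool.Agent.Lib.MP_afdd4d_co.K10.E6.P26
import Pool.Agent.Lib.MP_afdd4d_co.K10.E6.P27
import Pool.Agent.Lib.MP_afdd4d_co.K10.E6.P28
import Pool.Agent.Lib.MP_afdd4d_co.K10.E6.P29
import Pool.Agent.Lib.MP_afdd4d_co.K10.E6.P30
import Pool.Agent.Lib.MP_afdd4d_co.K10.E6.P31
import Pool.Agent.Lib.MP_afdd4d_co.K10.E6.P32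

/-!
# Tables
-/

namespace Pool.Agent.Lib.MP_afdd4d_co.K10.E6

open K8

set_option maxRecDepth 100000
set_option exponentiation.threshold 10000000

/-- The slices of the chunk 452. -/
noncomputable def c452 : List (List ℕ) := [
  [p452_0,
   tr p421_45,
   p452_2,
   tr p423_45,
   tr p424_45,
   x7_6 (x7_5 (x7_4 (s4_6 (x3_2 (x3_1 (x3_0 (s0_2 (n2 (n0 p452_0))))))))),
   tr p425_45,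
   x7_6 (x7_5 (x7_4 (s4_6 (x3_2 (x3_1 (x3_0 (s0_2 (n2 (n0 p452_2)))))))))],
  [p452_8,
   p452_9,
   p452_10,
   p452_11,
   p452_12,
   p452_13,
   p452_14,
   p452_15],
  [tr p434_45,
   p452_17,
   tr p436_45,
   p452_19,
   x7_6 (x7_5 (x7_4 (s4_6 (x3_2 (x3_1 (x3_0 (s0_2 (n5 (n2 (n0 p452_17)))))))))),
   tr p438_45,
   x7_6 (x7_5 (x7_4 (s4_6 (x3_2 (x3_1 (x3_0 (s0_2 (n5 (n2 (n0 p452_19)))))))))),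
   tr p439_45],
  [p452_24,
   p452_25,
   p452_26,
   p452_27,
   p452_28,
   p452_29,
   p452_30,
   p452_31],
  [x7_6 (x7_5 (x7_4 (s4_6 (x3_2 (x3_1 (x3_0 (s0_2 (n4 (n2 (n0 p452_14)))))))))),
   x7_6 (x7_5 (x7_4 (s4_6 (x3_2 (x3_1 (x3_0 (s0_2 (n4 (n2 (n0 p452_10)))))))))),
   x7_6 (x7_5 (x7_4 (s4_6 (x3_2 (x3_1 (x3_0 (s0_2 (n4 (n2 (n0 p452_12)))))))))),
   x7_6 (x7_5 (x7_4 (s4_6 (x3_2 (x3_1 (x3_0 (s0_2 (n4 (n2 (n0 p452_8)))))))))),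
   x7_6 (x7_5 (x7_4 (s4_6 (x3_2 (x3_1 (x3_0 (s0_2 (n4 (n2 (n0 p452_15)))))))))),
   x7_6 (x7_5 (x7_4 (s4_6 (x3_2 (x3_1 (x3_0 (s0_2 (n4 (n2 (n0 p452_11)))))))))),
   x7_6 (x7_5 (x7_4 (s4_6 (x3_2 (x3_1 (x3_0 (s0_2 (n4 (n2 (n0 p452_13)))))))))),
   x7_6 (x7_5 (x7_4 (s4_6 (x3_2 (x3_1 (x3_0 (s0_2 (n4 (n2 (n0 p452_9))))))))))],
  [tr p448_45,
   p452_41,
   tr p450_45,
   p452_43,
   x7_6 (x7_5 (x7_4 (s4_6 (x3_2 (x3_1 (x3_0 (s0_2 (n6 (n4 (n2 (n0 p452_41))))))))))),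
   p452_45,
   x7_6 (x7_5 (x7_4 (s4_6 (x3_2 (x3_1 (x3_0 (s0_2 (n6 (n4 (n2 (n0 p452_43))))))))))),
   p452_47],
  [x7_6 (x7_5 (x7_4 (s4_6 (x3_2 (x3_1 (x3_0 (s0_2 (n5 (n4 (n2 (n0 p452_27))))))))))),
   x7_6 (x7_5 (x7_4 (s4_6 (x3_2 (x3_1 (x3_0 (s0_2 (n5 (n4 (n2 (n0 p452_31))))))))))),
   x7_6 (x7_5 (x7_4 (s4_6 (x3_2 (x3_1 (x3_0 (s0_2 (n5 (n4 (n2 (n0 p452_25))))))))))),
   x7_6 (x7_5 (x7_4 (s4_6 (x3_2 (x3_1 (x3_0 (s0_2 (n5 (n4 (n2 (n0 p452_29))))))))))),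
   x7_6 (x7_5 (x7_4 (s4_6 (x3_2 (x3_1 (x3_0 (s0_2 (n5 (n4 (n2 (n0 p452_26))))))))))),
   x7_6 (x7_5 (x7_4 (s4_6 (x3_2 (x3_1 (x3_0 (s0_2 (n5 (n4 (n2 (n0 p452_30))))))))))),
   x7_6 (x7_5 (x7_4 (s4_6 (x3_2 (x3_1 (x3_0 (s0_2 (n5 (n4 (n2 (n0 p452_24))))))))))),
   x7_6 (x7_5 (x7_4 (s4_6 (x3_2 (x3_1 (x3_0 (s0_2 (n5 (n4 (n2 (n0 p452_28)))))))))))],
  [p452_56,
   p452_57,
   p452_58,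
   p452_59,
   p452_60,
   x7_6 (x7_5 (x7_4 (s4_6 (x3_2 (x3_1 (x3_0 (s0_2 (n6 (n5 (n4 (n2 (n0 p452_56)))))))))))),
   p452_62,
   x7_6 (x7_5 (x7_4 (s4_6 (x3_2 (x3_1 (x3_0 (s0_2 (n6 (n5 (n4 (n2 (n0 p452_58))))))))))))]]

theorem k452 : eqNN c452 (slO 64 (D.chG 58 45) 8) = true := by decide +kernel

/-- The slices of the chunk 453. -/
noncomputable def c453 : List (List ℕ) := [
  [p453_0,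
   tr p421_47,
   p453_2,
   tr p423_47,
   tr p424_47,
   x7_6 (x7_5 (x7_4 (s4_6 (x3_2 (x3_1 (x3_0 (s0_2 (n2 (n0 p453_0))))))))),
   tr p425_47,
   x7_6 (x7_5 (x7_4 (s4_6 (x3_2 (x3_1 (x3_0 (s0_2 (n2 (n0 p453_2)))))))))],
  [p453_8,
   p453_9,
   p453_10,
   p453_11,
   p453_12,
   p453_13,
   p453_14,
   p453_15],
  [tr p434_47,
   p453_17,
   tr p436_47,
   p453_19,
   x7_6 (x7_5 (x7_4 (s4_6 (x3_2 (x3_1 (x3_0 (s0_2 (n5 (n2 (n0 p453_17)))))))))),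
   tr p438_47,
   x7_6 (x7_5 (x7_4 (s4_6 (x3_2 (x3_1 (x3_0 (s0_2 (n5 (n2 (n0 p453_19)))))))))),
   tr p439_47],
  [p453_24,
   p453_25,
   p453_26,
   p453_27,
   p453_28,
   p453_29,
   p453_30,
   p453_31],
  [x7_6 (x7_5 (x7_4 (s4_6 (x3_2 (x3_1 (x3_0 (s0_2 (n4 (n2 (n0 p453_14)))))))))),
   x7_6 (x7_5 (x7_4 (s4_6 (x3_2 (x3_1 (x3_0 (s0_2 (n4 (n2 (n0 p453_10)))))))))),
   x7_6 (x7_5 (x7_4 (s4_6 (x3_2 (x3_1 (x3_0 (s0_2 (n4 (n2 (n0 p453_12)))))))))),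
   x7_6 (x7_5 (x7_4 (s4_6 (x3_2 (x3_1 (x3_0 (s0_2 (n4 (n2 (n0 p453_8)))))))))),
   x7_6 (x7_5 (x7_4 (s4_6 (x3_2 (x3_1 (x3_0 (s0_2 (n4 (n2 (n0 p453_15)))))))))),
   x7_6 (x7_5 (x7_4 (s4_6 (x3_2 (x3_1 (x3_0 (s0_2 (n4 (n2 (n0 p453_11)))))))))),
   x7_6 (x7_5 (x7_4 (s4_6 (x3_2 (x3_1 (x3_0 (s0_2 (n4 (n2 (n0 p453_13)))))))))),
   x7_6 (x7_5 (x7_4 (s4_6 (x3_2 (x3_1 (x3_0 (s0_2 (n4 (n2 (n0 p453_9))))))))))],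
  [tr p448_47,
   p453_41,
   tr p450_47,
   p453_43,
   x7_6 (x7_5 (x7_4 (s4_6 (x3_2 (x3_1 (x3_0 (s0_2 (n6 (n4 (n2 (n0 p453_41))))))))))),
   tr p452_47,
   x7_6 (x7_5 (x7_4 (s4_6 (x3_2 (x3_1 (x3_0 (s0_2 (n6 (n4 (n2 (n0 p453_43))))))))))),
   p453_47],
  [x7_6 (x7_5 (x7_4 (s4_6 (x3_2 (x3_1 (x3_0 (s0_2 (n5 (n4 (n2 (n0 p453_27))))))))))),
   x7_6 (x7_5 (x7_4 (s4_6 (x3_2 (x3_1 (x3_0 (s0_2 (n5 (n4 (n2 (n0 p453_31))))))))))),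
   x7_6 (x7_5 (x7_4 (s4_6 (x3_2 (x3_1 (x3_0 (s0_2 (n5 (n4 (n2 (n0 p453_25))))))))))),
   x7_6 (x7_5 (x7_4 (s4_6 (x3_2 (x3_1 (x3_0 (s0_2 (n5 (n4 (n2 (n0 p453_29))))))))))),
   x7_6 (x7_5 (x7_4 (s4_6 (x3_2 (x3_1 (x3_0 (s0_2 (n5 (n4 (n2 (n0 p453_26))))))))))),
   x7_6 (x7_5 (x7_4 (s4_6 (x3_2 (x3_1 (x3_0 (s0_2 (n5 (n4 (n2 (n0 p453_30))))))))))),
   x7_6 (x7_5 (x7_4 (s4_6 (x3_2 (x3_1 (x3_0 (s0_2 (n5 (n4 (n2 (n0 p453_24))))))))))),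
   x7_6 (x7_5 (x7_4 (s4_6 (x3_2 (x3_1 (x3_0 (s0_2 (n5 (n4 (n2 (n0 p453_28)))))))))))],
  [p453_56,
   p453_57,
   p453_58,
   p453_59,
   p453_60,
   x7_6 (x7_5 (x7_4 (s4_6 (x3_2 (x3_1 (x3_0 (s0_2 (n6 (n5 (n4 (n2 (n0 p453_56)))))))))))),
   p453_62,
   x7_6 (x7_5 (x7_4 (s4_6 (x3_2 (x3_1 (x3_0 (s0_2 (n6 (n5 (n4 (n2 (n0 p453_58))))))))))))]]

theorem k453 : eqNN c453 (slO 64 (D.chG 58 47) 8) = true := by decide +kernel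

/-- The slices of the chunk 454. -/
noncomputable def c454 : List (List ℕ) := [
  [tr p420_56,
   tr p421_56,
   tr p422_56,
   tr p423_56,
   tr p424_56,
   x7_6 (x7_5 (x7_4 (x3_2 (x3_1 (x3_0 (s3_7 (s2_4 (s1_5 (s0_6 (n6 (n5 (n4 p420_61)))))))))))),
   tr p425_56,
   x7_6 (x7_5 (x7_4 (x3_2 (x3_1 (x3_0 (s3_7 (s2_4 (s1_5 (s0_6 (n6 (n5 (n4 p422_61))))))))))))],
  [tr p426_56,
   tr p427_56,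
   tr p428_56,
   tr p429_56,
   tr p430_56,
   tr p431_56,
   tr p432_56,
   tr p433_56],
  [tr p434_56,
   tr p435_56,
   tr p436_56,
   tr p437_56,
   x7_6 (x7_5 (x7_4 (x3_2 (x3_1 (x3_0 (s3_7 (s2_4 (s1_5 (s0_6 (n6 (n5 (n4 (n1 p435_61))))))))))))),
   tr p438_56,
   x7_6 (x7_5 (x7_4 (x3_2 (x3_1 (x3_0 (s3_7 (s2_4 (s1_5 (s0_6 (n6 (n5 (n4 (n1 p437_61))))))))))))),
   tr p439_56],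
  [tr p440_56,
   tr p441_56,
   tr p442_56,
   tr p443_56,
   tr p444_56,
   tr p445_56,
   tr p446_56,
   tr p447_56],
  [x7_6 (x7_5 (x7_4 (x3_2 (x3_1 (x3_0 (s3_7 (s2_4 (s1_5 (s0_6 (n6 (n5 (n4 (n0 p432_61))))))))))))),
   x7_6 (x7_5 (x7_4 (x3_2 (x3_1 (x3_0 (s3_7 (s2_4 (s1_5 (s0_6 (n6 (n5 (n4 (n0 p428_61))))))))))))),
   x7_6 (x7_5 (x7_4 (x3_2 (x3_1 (x3_0 (s3_7 (s2_4 (s1_5 (s0_6 (n6 (n5 (n4 (n0 p430_61))))))))))))),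
   x7_6 (x7_5 (x7_4 (x3_2 (x3_1 (x3_0 (s3_7 (s2_4 (s1_5 (s0_6 (n6 (n5 (n4 (n0 p426_61))))))))))))),
   x7_6 (x7_5 (x7_4 (x3_2 (x3_1 (x3_0 (s3_7 (s2_4 (s1_5 (s0_6 (n6 (n5 (n4 (n0 p433_61))))))))))))),
   x7_6 (x7_5 (x7_4 (x3_2 (x3_1 (x3_0 (s3_7 (s2_4 (s1_5 (s0_6 (n6 (n5 (n4 (n0 p429_61))))))))))))),
   x7_6 (x7_5 (x7_4 (x3_2 (x3_1 (x3_0 (s3_7 (s2_4 (s1_5 (s0_6 (n6 (n5 (n4 (n0 p431_61))))))))))))),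
   x7_6 (x7_5 (x7_4 (x3_2 (x3_1 (x3_0 (s3_7 (s2_4 (s1_5 (s0_6 (n6 (n5 (n4 (n0 p427_61)))))))))))))],
  [tr p448_56,
   tr p449_56,
   tr p450_56,
   tr p451_56,
   x7_6 (x7_5 (x7_4 (x3_2 (x3_1 (x3_0 (s3_7 (s2_4 (s1_5 (s0_6 (n6 (n5 (n4 (n2 (n0 p449_61)))))))))))))),
   tr p452_56,
   x7_6 (x7_5 (x7_4 (x3_2 (x3_1 (x3_0 (s3_7 (s2_4 (s1_5 (s0_6 (n6 (n5 (n4 (n2 (n0 p451_61)))))))))))))),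
   tr p453_56],
  [x7_6 (x7_5 (x7_4 (x3_2 (x3_1 (x3_0 (s3_7 (s2_4 (s1_5 (s0_6 (n6 (n5 (n4 (n1 (n0 p443_61)))))))))))))),
   x7_6 (x7_5 (x7_4 (x3_2 (x3_1 (x3_0 (s3_7 (s2_4 (s1_5 (s0_6 (n6 (n5 (n4 (n1 (n0 p447_61)))))))))))))),
   x7_6 (x7_5 (x7_4 (x3_2 (x3_1 (x3_0 (s3_7 (s2_4 (s1_5 (s0_6 (n6 (n5 (n4 (n1 (n0 p441_61)))))))))))))),
   x7_6 (x7_5 (x7_4 (x3_2 (x3_1 (x3_0 (s3_7 (s2_4 (s1_5 (s0_6 (n6 (n5 (n4 (n1 (n0 p445_61)))))))))))))),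
   x7_6 (x7_5 (x7_4 (x3_2 (x3_1 (x3_0 (s3_7 (s2_4 (s1_5 (s0_6 (n6 (n5 (n4 (n1 (n0 p442_61)))))))))))))),
   x7_6 (x7_5 (x7_4 (x3_2 (x3_1 (x3_0 (s3_7 (s2_4 (s1_5 (s0_6 (n6 (n5 (n4 (n1 (n0 p446_61)))))))))))))),
   x7_6 (x7_5 (x7_4 (x3_2 (x3_1 (x3_0 (s3_7 (s2_4 (s1_5 (s0_6 (n6 (n5 (n4 (n1 (n0 p440_61)))))))))))))),
   x7_6 (x7_5 (x7_4 (x3_2 (x3_1 (x3_0 (s3_7 (s2_4 (s1_5 (s0_6 (n6 (n5 (n4 (n1 (n0 p444_61))))))))))))))],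
  [p454_56,
   tr p455_56,
   p454_58,
   tr p457_56,
   tr p458_56,
   p454_61,
   tr p459_56,
   p454_63]]

theorem k454 : eqNN c454 (slO 64 (D.chG 58 56) 8) = true := by decide +kernel

/-- The slices of the chunk 455. -/
noncomputable def c455 : List (List ℕ) := [
  [p455_0,
   tr p421_57,
   p455_2,
   tr p423_57,
   tr p424_57,
   x7_6 (x7_5 (x7_4 (s4_6 (x3_2 (x3_1 (x3_0 (s0_2 (n2 (n1 (n0 p455_0)))))))))),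
   tr p425_57,
   x7_6 (x7_5 (x7_4 (s4_6 (x3_2 (x3_1 (x3_0 (s0_2 (n2 (n1 (n0 p455_2))))))))))],
  [p455_8,
   p455_9,
   p455_10,
   p455_11,
   p455_12,
   p455_13,
   p455_14,
   p455_15],
  [tr p434_57,
   p455_17,
   tr p436_57,
   p455_19,
   x7_6 (x7_5 (x7_4 (s4_6 (x3_2 (x3_1 (x3_0 (s0_2 (n5 (n2 (n1 (n0 p455_17))))))))))),
   tr p438_57,
   x7_6 (x7_5 (x7_4 (s4_6 (x3_2 (x3_1 (x3_0 (s0_2 (n5 (n2 (n1 (n0 p455_19))))))))))),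
   tr p439_57],
  [p455_24,
   p455_25,
   p455_26,
   p455_27,
   p455_28,
   p455_29,
   p455_30,
   p455_31],
  [x7_6 (x7_5 (x7_4 (s4_6 (x3_2 (x3_1 (x3_0 (s0_2 (n4 (n2 (n1 (n0 p455_14))))))))))),
   x7_6 (x7_5 (x7_4 (s4_6 (x3_2 (x3_1 (x3_0 (s0_2 (n4 (n2 (n1 (n0 p455_10))))))))))),
   x7_6 (x7_5 (x7_4 (s4_6 (x3_2 (x3_1 (x3_0 (s0_2 (n4 (n2 (n1 (n0 p455_12))))))))))),
   x7_6 (x7_5 (x7_4 (s4_6 (x3_2 (x3_1 (x3_0 (s0_2 (n4 (n2 (n1 (n0 p455_8))))))))))),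
   x7_6 (x7_5 (x7_4 (s4_6 (x3_2 (x3_1 (x3_0 (s0_2 (n4 (n2 (n1 (n0 p455_15))))))))))),
   x7_6 (x7_5 (x7_4 (s4_6 (x3_2 (x3_1 (x3_0 (s0_2 (n4 (n2 (n1 (n0 p455_11))))))))))),
   x7_6 (x7_5 (x7_4 (s4_6 (x3_2 (x3_1 (x3_0 (s0_2 (n4 (n2 (n1 (n0 p455_13))))))))))),
   x7_6 (x7_5 (x7_4 (s4_6 (x3_2 (x3_1 (x3_0 (s0_2 (n4 (n2 (n1 (n0 p455_9)))))))))))],
  [tr p448_57,
   p455_41,
   tr p450_57,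
   p455_43,
   x7_6 (x7_5 (x7_4 (s4_6 (x3_2 (x3_1 (x3_0 (s0_2 (n6 (n4 (n2 (n1 (n0 p455_41)))))))))))),
   tr p452_57,
   x7_6 (x7_5 (x7_4 (s4_6 (x3_2 (x3_1 (x3_0 (s0_2 (n6 (n4 (n2 (n1 (n0 p455_43)))))))))))),
   tr p453_57],
  [x7_6 (x7_5 (x7_4 (s4_6 (x3_2 (x3_1 (x3_0 (s0_2 (n5 (n4 (n2 (n1 (n0 p455_27)))))))))))),
   x7_6 (x7_5 (x7_4 (s4_6 (x3_2 (x3_1 (x3_0 (s0_2 (n5 (n4 (n2 (n1 (n0 p455_31)))))))))))),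
   x7_6 (x7_5 (x7_4 (s4_6 (x3_2 (x3_1 (x3_0 (s0_2 (n5 (n4 (n2 (n1 (n0 p455_25)))))))))))),
   x7_6 (x7_5 (x7_4 (s4_6 (x3_2 (x3_1 (x3_0 (s0_2 (n5 (n4 (n2 (n1 (n0 p455_29)))))))))))),
   x7_6 (x7_5 (x7_4 (s4_6 (x3_2 (x3_1 (x3_0 (s0_2 (n5 (n4 (n2 (n1 (n0 p455_26)))))))))))),
   x7_6 (x7_5 (x7_4 (s4_6 (x3_2 (x3_1 (x3_0 (s0_2 (n5 (n4 (n2 (n1 (n0 p455_30)))))))))))),
   x7_6 (x7_5 (x7_4 (s4_6 (x3_2 (x3_1 (x3_0 (s0_2 (n5 (n4 (n2 (n1 (n0 p455_24)))))))))))),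
   x7_6 (x7_5 (x7_4 (s4_6 (x3_2 (x3_1 (x3_0 (s0_2 (n5 (n4 (n2 (n1 (n0 p455_28))))))))))))],
  [p455_56,
   p455_57,
   p455_58,
   p455_59,
   p455_60,
   x7_6 (x7_5 (x7_4 (s4_6 (x3_2 (x3_1 (x3_0 (s0_2 (n6 (n5 (n4 (n2 (n1 (n0 p455_56))))))))))))),
   p455_62,
   x7_6 (x7_5 (x7_4 (s4_6 (x3_2 (x3_1 (x3_0 (s0_2 (n6 (n5 (n4 (n2 (n1 (n0 p455_58)))))))))))))]]

theorem k455 : eqNN c455 (slO 64 (D.chG 58 57) 8) = true := by decide +kernel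

end Pool.Agent.Lib.MP_afdd4d_co.K10.E6
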