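import Pool.Agent.Lib.MP_afdd4d_co.K10.E6.Dat
import Pool.Agent.Lib.MP_afdd4d_co.K10.E6.Mk
import Pool.Agent.Lib.MP_afdd4d_co.K8.F6Bl5
import Pool.Agent.Lib.MP_afdd4d_co.K10.E6.P0
import Pool.Agent.Lib.MP_afdd4d_co.K10.E6.P1
import Pool.Agent.Lib.MP_afdd4d_co.K10.E6.P2
import Pool.Agent.Lib.MP_afdd4d_co.K10.E6.P3
import Pool.Agent.Lib.MP_afdd4d_co.K10.E6.P4
import Pool.Agent.Lib.MP_afdd4d_co.K10.E6.P5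
import Pool.Agent.Lib.MP_afdd4d_co.K10.E6.P6
import Pool.Agent.Lib.MP_afdd4d_co.K10.E6.P7
import Pool.Agent.Lib.MP_afdd4d_co.K10.E6.P8
import Pool.Agent.Lib.MP_afdd4d_co.K10.E6.P9
import Pool.Agent.Lib.MP_afdd4d_co.K10.E6.P10
import Pool.Agent.Lib.MP_afdd4d_co.K10.E6.P11
import Pool.Agent.Lib.MP_afdd4d_co.K10.E6.P12
import Pool.Agent.Lib.MP_afdd4d_co.K10.E6.P13
import Pool.Agent.Lib.MP_afdd4d_co.K10.E6.P14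
import Pool.Agent.Lib.MP_afdd4d_co.K10.E6.P15
import Pool.Agent.Lib.MP_afdd4d_co.K10.E6.P16
import Pool.Agent.Lib.MP_afdd4d_co.K10.E6.P17
import Pool.Agent.Lib.MP_afdd4d_co.K10.E6.P18
import Pool.Agent.Lib.MP_afdd4d_co.K10.E6.P19
import Pool.Agent.Lib.MP_afdd4d_co.K10.E6.P20
import Pool.Agent.Lib.MP_afdd4d_co.K10.E6.P21
import Pool.Agent.Lib.MP_afdd4d_co.K10.E6.P22
import Pool.Agent.Lib.MP_afdd4d_co.K10.E6.P23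
import Pool.Agent.Lib.MP_afdd4d_co.K10.E6.P24
import Pool.Agent.Lib.MP_afdd4d_co.K10.E6.P25
import Pool.Agent.Lib.MP_afdd4d_co.K10.E6.P26
import Pool.Agent.Lib.MP_afdd4d_co.K10.E6.P27
import Pool.Agent.Lib.MP_afdd4d_co.K10.E6.P28
import Pool.Agent.Lib.MP_afdd4d_co.K10.E6.P29
import Pool.Agent.Lib.MP_afdd4d_co.K10.E6.P30
import Pool.Agent.Lib.MP_afdd4d_co.K10.E6.P31
import Pool.Agent.Lib.MP_afdd4d_co.K10.E6.P32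

/-!
# Tables
-/

namespace Pool.Agent.Lib.MP_afdd4d_co.K10.E6

open K8

set_option maxRecDepth 100000
set_option exponentiation.threshold 10000000

/-- The slices of the chunk 456. -/
noncomputable def c456 : List (List ℕ) := [
  [tr p420_58,
   tr p421_58,
   tr p422_58,
   tr p423_58,
   tr p424_58,
   x7_6 (x7_5 (x7_4 (x3_2 (x3_1 (x3_0 (s3_7 (s2_4 (s1_5 (s0_6 (n6 (n5 (n4 p420_63)))))))))))),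
   tr p425_58,
   x7_6 (x7_5 (x7_4 (x3_2 (x3_1 (x3_0 (s3_7 (s2_4 (s1_5 (s0_6 (n6 (n5 (n4 p422_63))))))))))))],
  [tr p426_58,
   tr p427_58,
   tr p428_58,
   tr p429_58,
   tr p430_58,
   tr p431_58,
   tr p432_58,
   tr p433_58],
  [tr p434_58,
   tr p435_58,
   tr p436_58,
   tr p437_58,
   x7_6 (x7_5 (x7_4 (x3_2 (x3_1 (x3_0 (s3_7 (s2_4 (s1_5 (s0_6 (n6 (n5 (n4 (n1 p435_63))))))))))))),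
   tr p438_58,
   x7_6 (x7_5 (x7_4 (x3_2 (x3_1 (x3_0 (s3_7 (s2_4 (s1_5 (s0_6 (n6 (n5 (n4 (n1 p437_63))))))))))))),
   tr p439_58],
  [tr p440_58,
   tr p441_58,
   tr p442_58,
   tr p443_58,
   tr p444_58,
   tr p445_58,
   tr p446_58,
   tr p447_58],
  [x7_6 (x7_5 (x7_4 (x3_2 (x3_1 (x3_0 (s3_7 (s2_4 (s1_5 (s0_6 (n6 (n5 (n4 (n0 p432_63))))))))))))),
   x7_6 (x7_5 (x7_4 (x3_2 (x3_1 (x3_0 (s3_7 (s2_4 (s1_5 (s0_6 (n6 (n5 (n4 (n0 p428_63))))))))))))),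
   x7_6 (x7_5 (x7_4 (x3_2 (x3_1 (x3_0 (s3_7 (s2_4 (s1_5 (s0_6 (n6 (n5 (n4 (n0 p430_63))))))))))))),
   x7_6 (x7_5 (x7_4 (x3_2 (x3_1 (x3_0 (s3_7 (s2_4 (s1_5 (s0_6 (n6 (n5 (n4 (n0 p426_63))))))))))))),
   x7_6 (x7_5 (x7_4 (x3_2 (x3_1 (x3_0 (s3_7 (s2_4 (s1_5 (s0_6 (n6 (n5 (n4 (n0 p433_63))))))))))))),
   x7_6 (x7_5 (x7_4 (x3_2 (x3_1 (x3_0 (s3_7 (s2_4 (s1_5 (s0_6 (n6 (n5 (n4 (n0 p429_63))))))))))))),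
   x7_6 (x7_5 (x7_4 (x3_2 (x3_1 (x3_0 (s3_7 (s2_4 (s1_5 (s0_6 (n6 (n5 (n4 (n0 p431_63))))))))))))),
   x7_6 (x7_5 (x7_4 (x3_2 (x3_1 (x3_0 (s3_7 (s2_4 (s1_5 (s0_6 (n6 (n5 (n4 (n0 p427_63)))))))))))))],
  [tr p448_58,
   tr p449_58,
   tr p450_58,
   tr p451_58,
   x7_6 (x7_5 (x7_4 (x3_2 (x3_1 (x3_0 (s3_7 (s2_4 (s1_5 (s0_6 (n6 (n5 (n4 (n2 (n0 p449_63)))))))))))))),
   tr p452_58,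
   x7_6 (x7_5 (x7_4 (x3_2 (x3_1 (x3_0 (s3_7 (s2_4 (s1_5 (s0_6 (n6 (n5 (n4 (n2 (n0 p451_63)))))))))))))),
   tr p453_58],
  [x7_6 (x7_5 (x7_4 (x3_2 (x3_1 (x3_0 (s3_7 (s2_4 (s1_5 (s0_6 (n6 (n5 (n4 (n1 (n0 p443_63)))))))))))))),
   x7_6 (x7_5 (x7_4 (x3_2 (x3_1 (x3_0 (s3_7 (s2_4 (s1_5 (s0_6 (n6 (n5 (n4 (n1 (n0 p447_63)))))))))))))),
   x7_6 (x7_5 (x7_4 (x3_2 (x3_1 (x3_0 (s3_7 (s2_4 (s1_5 (s0_6 (n6 (n5 (n4 (n1 (n0 p441_63)))))))))))))),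
   x7_6 (x7_5 (x7_4 (x3_2 (x3_1 (x3_0 (s3_7 (s2_4 (s1_5 (s0_6 (n6 (n5 (n4 (n1 (n0 p445_63)))))))))))))),
   x7_6 (x7_5 (x7_4 (x3_2 (x3_1 (x3_0 (s3_7 (s2_4 (s1_5 (s0_6 (n6 (n5 (n4 (n1 (n0 p442_63)))))))))))))),
   x7_6 (x7_5 (x7_4 (x3_2 (x3_1 (x3_0 (s3_7 (s2_4 (s1_5 (s0_6 (n6 (n5 (n4 (n1 (n0 p446_63)))))))))))))),
   x7_6 (x7_5 (x7_4 (x3_2 (x3_1 (x3_0 (s3_7 (s2_4 (s1_5 (s0_6 (n6 (n5 (n4 (n1 (n0 p440_63)))))))))))))),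
   x7_6 (x7_5 (x7_4 (x3_2 (x3_1 (x3_0 (s3_7 (s2_4 (s1_5 (s0_6 (n6 (n5 (n4 (n1 (n0 p444_63))))))))))))))],
  [tr p454_58,
   tr p455_58,
   p456_58,
   tr p457_58,
   tr p458_58,
   x7_6 (x7_5 (x7_4 (x3_2 (x3_1 (x3_0 (s3_7 (s2_4 (s1_5 (s0_6 (n6 (n5 (n4 (n2 (n1 (n0 p454_63))))))))))))))),
   tr p459_58,
   p456_63]]

theorem k456 : eqNN c456 (slO 64 (D.chG 58 58) 8) = true := by decide +kernel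

/-- The slices of the chunk 457. -/
noncomputable def c457 : List (List ℕ) := [
  [p457_0,
   tr p421_59,
   p457_2,
   tr p423_59,
   tr p424_59,
   x7_6 (x7_5 (x7_4 (s4_6 (x3_2 (x3_1 (x3_0 (s0_2 (n2 (n1 (n0 p457_0)))))))))),
   tr p425_59,
   x7_6 (x7_5 (x7_4 (s4_6 (x3_2 (x3_1 (x3_0 (s0_2 (n2 (n1 (n0 p457_2))))))))))],
  [p457_8,
   p457_9,
   p457_10,
   p457_11,
   p457_12,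
   p457_13,
   p457_14,
   p457_15],
  [tr p434_59,
   p457_17,
   tr p436_59,
   p457_19,
   x7_6 (x7_5 (x7_4 (s4_6 (x3_2 (x3_1 (x3_0 (s0_2 (n5 (n2 (n1 (n0 p457_17))))))))))),
   tr p438_59,
   x7_6 (x7_5 (x7_4 (s4_6 (x3_2 (x3_1 (x3_0 (s0_2 (n5 (n2 (n1 (n0 p457_19))))))))))),
   tr p439_59],
  [p457_24,
   p457_25,
   p457_26,
   p457_27,
   p457_28,
   p457_29,
   p457_30,
   p457_31],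
  [x7_6 (x7_5 (x7_4 (s4_6 (x3_2 (x3_1 (x3_0 (s0_2 (n4 (n2 (n1 (n0 p457_14))))))))))),
   x7_6 (x7_5 (x7_4 (s4_6 (x3_2 (x3_1 (x3_0 (s0_2 (n4 (n2 (n1 (n0 p457_10))))))))))),
   x7_6 (x7_5 (x7_4 (s4_6 (x3_2 (x3_1 (x3_0 (s0_2 (n4 (n2 (n1 (n0 p457_12))))))))))),
   x7_6 (x7_5 (x7_4 (s4_6 (x3_2 (x3_1 (x3_0 (s0_2 (n4 (n2 (n1 (n0 p457_8))))))))))),
   x7_6 (x7_5 (x7_4 (s4_6 (x3_2 (x3_1 (x3_0 (s0_2 (n4 (n2 (n1 (n0 p457_15))))))))))),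
   x7_6 (x7_5 (x7_4 (s4_6 (x3_2 (x3_1 (x3_0 (s0_2 (n4 (n2 (n1 (n0 p457_11))))))))))),
   x7_6 (x7_5 (x7_4 (s4_6 (x3_2 (x3_1 (x3_0 (s0_2 (n4 (n2 (n1 (n0 p457_13))))))))))),
   x7_6 (x7_5 (x7_4 (s4_6 (x3_2 (x3_1 (x3_0 (s0_2 (n4 (n2 (n1 (n0 p457_9)))))))))))],
  [tr p448_59,
   p457_41,
   tr p450_59,
   p457_43,
   x7_6 (x7_5 (x7_4 (s4_6 (x3_2 (x3_1 (x3_0 (s0_2 (n6 (n4 (n2 (n1 (n0 p457_41)))))))))))),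
   tr p452_59,
   x7_6 (x7_5 (x7_4 (s4_6 (x3_2 (x3_1 (x3_0 (s0_2 (n6 (n4 (n2 (n1 (n0 p457_43)))))))))))),
   tr p453_59],
  [x7_6 (x7_5 (x7_4 (s4_6 (x3_2 (x3_1 (x3_0 (s0_2 (n5 (n4 (n2 (n1 (n0 p457_27)))))))))))),
   x7_6 (x7_5 (x7_4 (s4_6 (x3_2 (x3_1 (x3_0 (s0_2 (n5 (n4 (n2 (n1 (n0 p457_31)))))))))))),
   x7_6 (x7_5 (x7_4 (s4_6 (x3_2 (x3_1 (x3_0 (s0_2 (n5 (n4 (n2 (n1 (n0 p457_25)))))))))))),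
   x7_6 (x7_5 (x7_4 (s4_6 (x3_2 (x3_1 (x3_0 (s0_2 (n5 (n4 (n2 (n1 (n0 p457_29)))))))))))),
   x7_6 (x7_5 (x7_4 (s4_6 (x3_2 (x3_1 (x3_0 (s0_2 (n5 (n4 (n2 (n1 (n0 p457_26)))))))))))),
   x7_6 (x7_5 (x7_4 (s4_6 (x3_2 (x3_1 (x3_0 (s0_2 (n5 (n4 (n2 (n1 (n0 p457_30)))))))))))),
   x7_6 (x7_5 (x7_4 (s4_6 (x3_2 (x3_1 (x3_0 (s0_2 (n5 (n4 (n2 (n1 (n0 p457_24)))))))))))),
   x7_6 (x7_5 (x7_4 (s4_6 (x3_2 (x3_1 (x3_0 (s0_2 (n5 (n4 (n2 (n1 (n0 p457_28))))))))))))],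
  [p457_56,
   tr p455_59,
   p457_58,
   p457_59,
   p457_60,
   x7_6 (x7_5 (x7_4 (s4_6 (x3_2 (x3_1 (x3_0 (s0_2 (n6 (n5 (n4 (n2 (n1 (n0 p457_56))))))))))))),
   p457_62,
   x7_6 (x7_5 (x7_4 (s4_6 (x3_2 (x3_1 (x3_0 (s0_2 (n6 (n5 (n4 (n2 (n1 (n0 p457_58)))))))))))))]]

theorem k457 : eqNN c457 (slO 64 (D.chG 58 59) 8) = true := by decide +kernel

/-- The slices of the chunk 458. -/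
noncomputable def c458 : List (List ℕ) := [
  [p458_0,
   tr p421_60,
   p458_2,
   tr p423_60,
   tr p424_60,
   x7_6 (x7_5 (x7_4 (s4_6 (x3_2 (x3_1 (x3_0 (s0_2 (n2 (n1 (n0 p458_0)))))))))),
   tr p425_60,
   x7_6 (x7_5 (x7_4 (s4_6 (x3_2 (x3_1 (x3_0 (s0_2 (n2 (n1 (n0 p458_2))))))))))],
  [p458_8,
   p458_9,
   p458_10,
   p458_11,
   p458_12,
   p458_13,
   p458_14,
   p458_15],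
  [tr p434_60,
   p458_17,
   tr p436_60,
   p458_19,
   x7_6 (x7_5 (x7_4 (s4_6 (x3_2 (x3_1 (x3_0 (s0_2 (n5 (n2 (n1 (n0 p458_17))))))))))),
   tr p438_60,
   x7_6 (x7_5 (x7_4 (s4_6 (x3_2 (x3_1 (x3_0 (s0_2 (n5 (n2 (n1 (n0 p458_19))))))))))),
   tr p439_60],
  [p458_24,
   p458_25,
   p458_26,
   p458_27,
   p458_28,
   p458_29,
   p458_30,
   p458_31],
  [x7_6 (x7_5 (x7_4 (s4_6 (x3_2 (x3_1 (x3_0 (s0_2 (n4 (n2 (n1 (n0 p458_14))))))))))),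
   x7_6 (x7_5 (x7_4 (s4_6 (x3_2 (x3_1 (x3_0 (s0_2 (n4 (n2 (n1 (n0 p458_10))))))))))),
   x7_6 (x7_5 (x7_4 (s4_6 (x3_2 (x3_1 (x3_0 (s0_2 (n4 (n2 (n1 (n0 p458_12))))))))))),
   x7_6 (x7_5 (x7_4 (s4_6 (x3_2 (x3_1 (x3_0 (s0_2 (n4 (n2 (n1 (n0 p458_8))))))))))),
   x7_6 (x7_5 (x7_4 (s4_6 (x3_2 (x3_1 (x3_0 (s0_2 (n4 (n2 (n1 (n0 p458_15))))))))))),
   x7_6 (x7_5 (x7_4 (s4_6 (x3_2 (x3_1 (x3_0 (s0_2 (n4 (n2 (n1 (n0 p458_11))))))))))),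
   x7_6 (x7_5 (x7_4 (s4_6 (x3_2 (x3_1 (x3_0 (s0_2 (n4 (n2 (n1 (n0 p458_13))))))))))),
   x7_6 (x7_5 (x7_4 (s4_6 (x3_2 (x3_1 (x3_0 (s0_2 (n4 (n2 (n1 (n0 p458_9)))))))))))],
  [tr p448_60,
   p458_41,
   tr p450_60,
   p458_43,
   x7_6 (x7_5 (x7_4 (s4_6 (x3_2 (x3_1 (x3_0 (s0_2 (n6 (n4 (n2 (n1 (n0 p458_41)))))))))))),
   tr p452_60,
   x7_6 (x7_5 (x7_4 (s4_6 (x3_2 (x3_1 (x3_0 (s0_2 (n6 (n4 (n2 (n1 (n0 p458_43)))))))))))),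
   tr p453_60],
  [x7_6 (x7_5 (x7_4 (s4_6 (x3_2 (x3_1 (x3_0 (s0_2 (n5 (n4 (n2 (n1 (n0 p458_27)))))))))))),
   x7_6 (x7_5 (x7_4 (s4_6 (x3_2 (x3_1 (x3_0 (s0_2 (n5 (n4 (n2 (n1 (n0 p458_31)))))))))))),
   x7_6 (x7_5 (x7_4 (s4_6 (x3_2 (x3_1 (x3_0 (s0_2 (n5 (n4 (n2 (n1 (n0 p458_25)))))))))))),
   x7_6 (x7_5 (x7_4 (s4_6 (x3_2 (x3_1 (x3_0 (s0_2 (n5 (n4 (n2 (n1 (n0 p458_29)))))))))))),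
   x7_6 (x7_5 (x7_4 (s4_6 (x3_2 (x3_1 (x3_0 (s0_2 (n5 (n4 (n2 (n1 (n0 p458_26)))))))))))),
   x7_6 (x7_5 (x7_4 (s4_6 (x3_2 (x3_1 (x3_0 (s0_2 (n5 (n4 (n2 (n1 (n0 p458_30)))))))))))),
   x7_6 (x7_5 (x7_4 (s4_6 (x3_2 (x3_1 (x3_0 (s0_2 (n5 (n4 (n2 (n1 (n0 p458_24)))))))))))),
   x7_6 (x7_5 (x7_4 (s4_6 (x3_2 (x3_1 (x3_0 (s0_2 (n5 (n4 (n2 (n1 (n0 p458_28))))))))))))],
  [p458_56,
   tr p455_60,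
   p458_58,
   tr p457_60,
   p458_60,
   x7_6 (x7_5 (x7_4 (s4_6 (x3_2 (x3_1 (x3_0 (s0_2 (n6 (n5 (n4 (n2 (n1 (n0 p458_56))))))))))))),
   p458_62,
   x7_6 (x7_5 (x7_4 (s4_6 (x3_2 (x3_1 (x3_0 (s0_2 (n6 (n5 (n4 (n2 (n1 (n0 p458_58)))))))))))))]]

theorem k458 : eqNN c458 (slO 64 (D.chG 58 60) 8) = true := by decide +kernel

/-- The slices of the chunk 459. -/
noncomputable def c459 : List (List ℕ) := [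
  [p459_0,
   tr p421_62,
   p459_2,
   tr p423_62,
   tr p424_62,
   x7_6 (x7_5 (x7_4 (s4_6 (x3_2 (x3_1 (x3_0 (s0_2 (n2 (n1 (n0 p459_0)))))))))),
   tr p425_62,
   x7_6 (x7_5 (x7_4 (s4_6 (x3_2 (x3_1 (x3_0 (s0_2 (n2 (n1 (n0 p459_2))))))))))],
  [p459_8,
   p459_9,
   p459_10,
   p459_11,
   p459_12,
   p459_13,
   p459_14,
   p459_15],
  [tr p434_62,
   p459_17,
   tr p436_62,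
   p459_19,
   x7_6 (x7_5 (x7_4 (s4_6 (x3_2 (x3_1 (x3_0 (s0_2 (n5 (n2 (n1 (n0 p459_17))))))))))),
   tr p438_62,
   x7_6 (x7_5 (x7_4 (s4_6 (x3_2 (x3_1 (x3_0 (s0_2 (n5 (n2 (n1 (n0 p459_19))))))))))),
   tr p439_62],
  [p459_24,
   p459_25,
   p459_26,
   p459_27,
   p459_28,
   p459_29,
   p459_30,
   p459_31],
  [x7_6 (x7_5 (x7_4 (s4_6 (x3_2 (x3_1 (x3_0 (s0_2 (n4 (n2 (n1 (n0 p459_14))))))))))),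
   x7_6 (x7_5 (x7_4 (s4_6 (x3_2 (x3_1 (x3_0 (s0_2 (n4 (n2 (n1 (n0 p459_10))))))))))),
   x7_6 (x7_5 (x7_4 (s4_6 (x3_2 (x3_1 (x3_0 (s0_2 (n4 (n2 (n1 (n0 p459_12))))))))))),
   x7_6 (x7_5 (x7_4 (s4_6 (x3_2 (x3_1 (x3_0 (s0_2 (n4 (n2 (n1 (n0 p459_8))))))))))),
   x7_6 (x7_5 (x7_4 (s4_6 (x3_2 (x3_1 (x3_0 (s0_2 (n4 (n2 (n1 (n0 p459_15))))))))))),
   x7_6 (x7_5 (x7_4 (s4_6 (x3_2 (x3_1 (x3_0 (s0_2 (n4 (n2 (n1 (n0 p459_11))))))))))),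
   x7_6 (x7_5 (x7_4 (s4_6 (x3_2 (x3_1 (x3_0 (s0_2 (n4 (n2 (n1 (n0 p459_13))))))))))),
   x7_6 (x7_5 (x7_4 (s4_6 (x3_2 (x3_1 (x3_0 (s0_2 (n4 (n2 (n1 (n0 p459_9)))))))))))],
  [tr p448_62,
   p459_41,
   tr p450_62,
   p459_43,
   x7_6 (x7_5 (x7_4 (s4_6 (x3_2 (x3_1 (x3_0 (s0_2 (n6 (n4 (n2 (n1 (n0 p459_41)))))))))))),
   tr p452_62,
   x7_6 (x7_5 (x7_4 (s4_6 (x3_2 (x3_1 (x3_0 (s0_2 (n6 (n4 (n2 (n1 (n0 p459_43)))))))))))),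
   tr p453_62],
  [x7_6 (x7_5 (x7_4 (s4_6 (x3_2 (x3_1 (x3_0 (s0_2 (n5 (n4 (n2 (n1 (n0 p459_27)))))))))))),
   x7_6 (x7_5 (x7_4 (s4_6 (x3_2 (x3_1 (x3_0 (s0_2 (n5 (n4 (n2 (n1 (n0 p459_31)))))))))))),
   x7_6 (x7_5 (x7_4 (s4_6 (x3_2 (x3_1 (x3_0 (s0_2 (n5 (n4 (n2 (n1 (n0 p459_25)))))))))))),
   x7_6 (x7_5 (x7_4 (s4_6 (x3_2 (x3_1 (x3_0 (s0_2 (n5 (n4 (n2 (n1 (n0 p459_29)))))))))))),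
   x7_6 (x7_5 (x7_4 (s4_6 (x3_2 (x3_1 (x3_0 (s0_2 (n5 (n4 (n2 (n1 (n0 p459_26)))))))))))),
   x7_6 (x7_5 (x7_4 (s4_6 (x3_2 (x3_1 (x3_0 (s0_2 (n5 (n4 (n2 (n1 (n0 p459_30)))))))))))),
   x7_6 (x7_5 (x7_4 (s4_6 (x3_2 (x3_1 (x3_0 (s0_2 (n5 (n4 (n2 (n1 (n0 p459_24)))))))))))),
   x7_6 (x7_5 (x7_4 (s4_6 (x3_2 (x3_1 (x3_0 (s0_2 (n5 (n4 (n2 (n1 (n0 p459_28))))))))))))],
  [p459_56,
   tr p455_62,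
   p459_58,
   tr p457_62,
   tr p458_62,
   x7_6 (x7_5 (x7_4 (s4_6 (x3_2 (x3_1 (x3_0 (s0_2 (n6 (n5 (n4 (n2 (n1 (n0 p459_56))))))))))))),
   p459_62,
   x7_6 (x7_5 (x7_4 (s4_6 (x3_2 (x3_1 (x3_0 (s0_2 (n6 (n5 (n4 (n2 (n1 (n0 p459_58)))))))))))))]]

theorem k459 : eqNN c459 (slO 64 (D.chG 58 62) 8) = true := by decide +kernel

end Pool.Agent.Lib.MP_afdd4d_co.K10.E6
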