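import Pool.Agent.Lib.MP_afdd4d_co.K10.E6.Dat
import Pool.Agent.Lib.MP_afdd4d_co.K10.E6.Mk
import Pool.Agent.Lib.MP_afdd4d_co.K8.F6Bl5
import Pool.Agent.Lib.MP_afdd4d_co.K10.E6.P0
import Pool.Agent.Lib.MP_afdd4d_co.K10.E6.P1
import Pool.Agent.Lib.MP_afdd4d_co.K10.E6.P2
import Pool.Agent.Lib.MP_afdd4d_co.K10.E6.P3
import Pool.Agent.Lib.MP_afdd4d_co.K10.E6.P4
import Pool.Agent.Lib.MP_afdd4d_co.K10.E6.P5
import Pool.Agent.Lib.MP_afdd4d_co.K10.E6.P6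
import Pool.Agent.Lib.MP_afdd4d_co.K10.E6.P7
import Pool.Agent.Lib.MP_afdd4d_co.K10.E6.P8
import Pool.Agent.Lib.MP_afdd4d_co.K10.E6.P9
import Pool.Agent.Lib.MP_afdd4d_co.K10.E6.P10
import Pool.Agent.Lib.MP_afdd4d_co.K10.E6.P11
import Pool.Agent.Lib.MP_afdd4d_co.K10.E6.P12
import Pool.Agent.Lib.MP_afdd4d_co.K10.E6.P13
import Pool.Agent.Lib.MP_afdd4d_co.K10.E6.P14
import Pool.Agent.Lib.MP_afdd4d_co.K10.E6.P15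
import Pool.Agent.Lib.MP_afdd4d_co.K10.E6.P16
import Pool.Agent.Lib.MP_afdd4d_co.K10.E6.P17
import Pool.Agent.Lib.MP_afdd4d_co.K10.E6.P18
import Pool.Agent.Lib.MP_afdd4d_co.K10.E6.P19
import Pool.Agent.Lib.MP_afdd4d_co.K10.E6.P20
import Pool.Agent.Lib.MP_afdd4d_co.K10.E6.P21
import Pool.Agent.Lib.MP_afdd4d_co.K10.E6.P22
import Pool.Agent.Lib.MP_afdd4d_co.K10.E6.P23
import Pool.Agent.Lib.MP_afdd4d_co.K10.E6.P24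
import Pool.Agent.Lib.MP_afdd4d_co.K10.E6.P25
import Pool.Agent.Lib.MP_afdd4d_co.K10.E6.P26
import Pool.Agent.Lib.MP_afdd4d_co.K10.E6.P27
import Pool.Agent.Lib.MP_afdd4d_co.K10.E6.P28
import Pool.Agent.Lib.MP_afdd4d_co.K10.E6.P29
import Pool.Agent.Lib.MP_afdd4d_co.K10.E6.P30
import Pool.Agent.Lib.MP_afdd4d_co.K10.E6.P31
import Pool.Agent.Lib.MP_afdd4d_co.K10.E6.P32

/-!
# Tables
-/

namespace Pool.Agent.Lib.MP_afdd4d_co.K10.E6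

open K8

set_option maxRecDepth 100000
set_option exponentiation.threshold 10000000

/-- The slices of the chunk 460. -/
noncomputable def c460 : List (List ℕ) := [
  [p460_0,
   tr p461_0,
   p460_2,
   tr p463_0,
   tr p464_0,
   p460_5,
   tr p465_0,
   p460_7],
  [p460_8,
   p460_9,
   p460_10,
   p460_11,
   p460_12,
   p460_13,
   p460_14,
   p460_15],
  [tr p474_0,
   p460_17,
   tr p476_0,
   p460_19,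
   p460_20,
   tr p478_0,
   p460_22,
   tr p479_0],
  [p460_24,
   p460_25,
   p460_26,
   p460_27,
   p460_28,
   p460_29,
   p460_30,
   p460_31],
  [p460_32,
   p460_33,
   p460_34,
   p460_35,
   p460_36,
   p460_37,
   p460_38,
   p460_39],
  [tr p488_0,
   p460_41,
   tr p490_0,
   p460_43,
   p460_44,
   tr p492_0,
   p460_46,
   tr p493_0],
  [p460_48,
   p460_49,
   p460_50,
   p460_51,
   p460_52,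
   p460_53,
   p460_54,
   p460_55],
  [p460_56,
   tr p495_0,
   p460_58,
   tr p497_0,
   tr p498_0,
   p460_61,
   tr p499_0,
   p460_63]]

theorem k460 : eqNN c460 (slO 64 (D.chG 59 0) 8) = true := by decide +kernel

/-- The slices of the chunk 461. -/
noncomputable def c461 : List (List ℕ) := [
  [p461_0,
   p461_1,
   p461_2,
   p461_3,
   p461_4,
   x7_6 (x7_5 (x7_4 (s4_6 (x3_2 (x3_1 (x3_0 (s0_2 p461_0))))))),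
   p461_6,
   x7_6 (x7_5 (x7_4 (s4_6 (x3_2 (x3_1 (x3_0 (s0_2 p461_2)))))))],
  [p461_8,
   p461_9,
   p461_10,
   p461_11,
   p461_12,
   p461_13,
   p461_14,
   p461_15],
  [p461_16,
   p461_17,
   p461_18,
   p461_19,
   x7_6 (x7_5 (x7_4 (s4_6 (x3_2 (x3_1 (x3_0 (s0_2 (n5 p461_17)))))))),
   p461_21,
   x7_6 (x7_5 (x7_4 (s4_6 (x3_2 (x3_1 (x3_0 (s0_2 (n5 p461_19)))))))),
   p461_23],
  [p461_24,
   p461_25,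
   p461_26,
   p461_27,
   p461_28,
   p461_29,
   p461_30,
   p461_31],
  [x7_6 (x7_5 (x7_4 (s4_6 (x3_2 (x3_1 (x3_0 (s0_2 (n4 p461_14)))))))),
   x7_6 (x7_5 (x7_4 (s4_6 (x3_2 (x3_1 (x3_0 (s0_2 (n4 p461_10)))))))),
   x7_6 (x7_5 (x7_4 (s4_6 (x3_2 (x3_1 (x3_0 (s0_2 (n4 p461_12)))))))),
   x7_6 (x7_5 (x7_4 (s4_6 (x3_2 (x3_1 (x3_0 (s0_2 (n4 p461_8)))))))),
   x7_6 (x7_5 (x7_4 (s4_6 (x3_2 (x3_1 (x3_0 (s0_2 (n4 p461_15)))))))),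
   x7_6 (x7_5 (x7_4 (s4_6 (x3_2 (x3_1 (x3_0 (s0_2 (n4 p461_11)))))))),
   x7_6 (x7_5 (x7_4 (s4_6 (x3_2 (x3_1 (x3_0 (s0_2 (n4 p461_13)))))))),
   x7_6 (x7_5 (x7_4 (s4_6 (x3_2 (x3_1 (x3_0 (s0_2 (n4 p461_9))))))))],
  [p461_40,
   p461_41,
   p461_42,
   p461_43,
   x7_6 (x7_5 (x7_4 (s4_6 (x3_2 (x3_1 (x3_0 (s0_2 (n6 (n4 p461_41))))))))),
   p461_45,
   x7_6 (x7_5 (x7_4 (s4_6 (x3_2 (x3_1 (x3_0 (s0_2 (n6 (n4 p461_43))))))))),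
   p461_47],
  [x7_6 (x7_5 (x7_4 (s4_6 (x3_2 (x3_1 (x3_0 (s0_2 (n5 (n4 p461_27))))))))),
   x7_6 (x7_5 (x7_4 (s4_6 (x3_2 (x3_1 (x3_0 (s0_2 (n5 (n4 p461_31))))))))),
   x7_6 (x7_5 (x7_4 (s4_6 (x3_2 (x3_1 (x3_0 (s0_2 (n5 (n4 p461_25))))))))),
   x7_6 (x7_5 (x7_4 (s4_6 (x3_2 (x3_1 (x3_0 (s0_2 (n5 (n4 p461_29))))))))),
   x7_6 (x7_5 (x7_4 (s4_6 (x3_2 (x3_1 (x3_0 (s0_2 (n5 (n4 p461_26))))))))),
   x7_6 (x7_5 (x7_4 (s4_6 (x3_2 (x3_1 (x3_0 (s0_2 (n5 (n4 p461_30))))))))),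
   x7_6 (x7_5 (x7_4 (s4_6 (x3_2 (x3_1 (x3_0 (s0_2 (n5 (n4 p461_24))))))))),
   x7_6 (x7_5 (x7_4 (s4_6 (x3_2 (x3_1 (x3_0 (s0_2 (n5 (n4 p461_28)))))))))],
  [p461_56,
   p461_57,
   p461_58,
   p461_59,
   p461_60,
   x7_6 (x7_5 (x7_4 (s4_6 (x3_2 (x3_1 (x3_0 (s0_2 (n6 (n5 (n4 p461_56)))))))))),
   p461_62,
   x7_6 (x7_5 (x7_4 (s4_6 (x3_2 (x3_1 (x3_0 (s0_2 (n6 (n5 (n4 p461_58))))))))))]]

theorem k461 : eqNN c461 (slO 64 (D.chG 59 1) 8) = true := by decide +kernel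

/-- The slices of the chunk 462. -/
noncomputable def c462 : List (List ℕ) := [
  [tr p460_2,
   tr p461_2,
   p462_2,
   tr p463_2,
   tr p464_2,
   x7_6 (x7_5 (x7_4 (x3_2 (x3_1 (x3_0 (s3_7 (s2_4 (s1_5 (s0_6 p460_7))))))))),
   tr p465_2,
   p462_7],
  [p462_8,
   p462_9,
   p462_10,
   p462_11,
   p462_12,
   p462_13,
   p462_14,
   p462_15],
  [tr p474_2,
   p462_17,
   tr p476_2,
   p462_19,
   p462_20,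
   tr p478_2,
   p462_22,
   tr p479_2],
  [p462_24,
   p462_25,
   p462_26,
   p462_27,
   p462_28,
   p462_29,
   p462_30,
   p462_31],
  [p462_32,
   p462_33,
   p462_34,
   p462_35,
   p462_36,
   p462_37,
   p462_38,
   p462_39],
  [tr p488_2,
   p462_41,
   tr p490_2,
   p462_43,
   p462_44,
   tr p492_2,
   p462_46,
   tr p493_2],
  [p462_48,
   p462_49,
   p462_50,
   p462_51,
   p462_52,
   p462_53,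
   p462_54,
   p462_55],
  [p462_56,
   tr p495_2,
   p462_58,
   tr p497_2,
   tr p498_2,
   p462_61,
   tr p499_2,
   p462_63]]

theorem k462 : eqNN c462 (slO 64 (D.chG 59 2) 8) = true := by decide +kernel

/-- The slices of the chunk 463. -/
noncomputable def c463 : List (List ℕ) := [
  [p463_0,
   tr p461_3,
   p463_2,
   p463_3,
   p463_4,
   x7_6 (x7_5 (x7_4 (s4_6 (x3_2 (x3_1 (x3_0 (s0_2 p463_0))))))),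
   p463_6,
   x7_6 (x7_5 (x7_4 (s4_6 (x3_2 (x3_1 (x3_0 (s0_2 p463_2)))))))],
  [p463_8,
   p463_9,
   p463_10,
   p463_11,
   p463_12,
   p463_13,
   p463_14,
   p463_15],
  [p463_16,
   p463_17,
   p463_18,
   p463_19,
   x7_6 (x7_5 (x7_4 (s4_6 (x3_2 (x3_1 (x3_0 (s0_2 (n5 p463_17)))))))),
   p463_21,
   x7_6 (x7_5 (x7_4 (s4_6 (x3_2 (x3_1 (x3_0 (s0_2 (n5 p463_19)))))))),
   p463_23],
  [p463_24,
   p463_25,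
   p463_26,
   p463_27,
   p463_28,
   p463_29,
   p463_30,
   p463_31],
  [x7_6 (x7_5 (x7_4 (s4_6 (x3_2 (x3_1 (x3_0 (s0_2 (n4 p463_14)))))))),
   x7_6 (x7_5 (x7_4 (s4_6 (x3_2 (x3_1 (x3_0 (s0_2 (n4 p463_10)))))))),
   x7_6 (x7_5 (x7_4 (s4_6 (x3_2 (x3_1 (x3_0 (s0_2 (n4 p463_12)))))))),
   x7_6 (x7_5 (x7_4 (s4_6 (x3_2 (x3_1 (x3_0 (s0_2 (n4 p463_8)))))))),
   x7_6 (x7_5 (x7_4 (s4_6 (x3_2 (x3_1 (x3_0 (s0_2 (n4 p463_15)))))))),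
   x7_6 (x7_5 (x7_4 (s4_6 (x3_2 (x3_1 (x3_0 (s0_2 (n4 p463_11)))))))),
   x7_6 (x7_5 (x7_4 (s4_6 (x3_2 (x3_1 (x3_0 (s0_2 (n4 p463_13)))))))),
   x7_6 (x7_5 (x7_4 (s4_6 (x3_2 (x3_1 (x3_0 (s0_2 (n4 p463_9))))))))],
  [p463_40,
   p463_41,
   p463_42,
   p463_43,
   x7_6 (x7_5 (x7_4 (s4_6 (x3_2 (x3_1 (x3_0 (s0_2 (n6 (n4 p463_41))))))))),
   p463_45,
   x7_6 (x7_5 (x7_4 (s4_6 (x3_2 (x3_1 (x3_0 (s0_2 (n6 (n4 p463_43))))))))),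
   p463_47],
  [x7_6 (x7_5 (x7_4 (s4_6 (x3_2 (x3_1 (x3_0 (s0_2 (n5 (n4 p463_27))))))))),
   x7_6 (x7_5 (x7_4 (s4_6 (x3_2 (x3_1 (x3_0 (s0_2 (n5 (n4 p463_31))))))))),
   x7_6 (x7_5 (x7_4 (s4_6 (x3_2 (x3_1 (x3_0 (s0_2 (n5 (n4 p463_25))))))))),
   x7_6 (x7_5 (x7_4 (s4_6 (x3_2 (x3_1 (x3_0 (s0_2 (n5 (n4 p463_29))))))))),
   x7_6 (x7_5 (x7_4 (s4_6 (x3_2 (x3_1 (x3_0 (s0_2 (n5 (n4 p463_26))))))))),
   x7_6 (x7_5 (x7_4 (s4_6 (x3_2 (x3_1 (x3_0 (s0_2 (n5 (n4 p463_30))))))))),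
   x7_6 (x7_5 (x7_4 (s4_6 (x3_2 (x3_1 (x3_0 (s0_2 (n5 (n4 p463_24))))))))),
   x7_6 (x7_5 (x7_4 (s4_6 (x3_2 (x3_1 (x3_0 (s0_2 (n5 (n4 p463_28)))))))))],
  [p463_56,
   p463_57,
   p463_58,
   p463_59,
   p463_60,
   x7_6 (x7_5 (x7_4 (s4_6 (x3_2 (x3_1 (x3_0 (s0_2 (n6 (n5 (n4 p463_56)))))))))),
   p463_62,
   x7_6 (x7_5 (x7_4 (s4_6 (x3_2 (x3_1 (x3_0 (s0_2 (n6 (n5 (n4 p463_58))))))))))]]

theorem k463 : eqNN c463 (slO 64 (D.chG 59 3) 8) = true := by decide +kernel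

end Pool.Agent.Lib.MP_afdd4d_co.K10.E6
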