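import Pool.Agent.Lib.MP_afdd4d_co.K10.E6.Dat
import Pool.Agent.Lib.MP_afdd4d_co.K10.E6.Mk
import Pool.Agent.Lib.MP_afdd4d_co.K8.F6Bl5
import Pool.Agent.Lib.MP_afdd4d_co.K10.E6.P0
import Pool.Agent.Lib.MP_afdd4d_co.K10.E6.P1
import Pool.Agent.Lib.MP_afdd4d_co.K10.E6.P2
import Pool.Agent.Lib.MP_afdd4d_co.K10.E6.P3
import Pool.Agent.Lib.MP_afdd4d_co.K10.E6.P4
import Pool.Agent.Lib.MP_afdd4d_co.K10.E6.P5
import Pool.Agent.Lib.MP_afdd4d_co.K10.E6.P6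
import Pool.Agent.Lib.MP_afdd4d_co.K10.E6.P7
import Pool.Agent.Lib.MP_afdd4d_co.K10.E6.P8
import Pool.Agent.Lib.MP_afdd4d_co.K10.E6.P9
import Pool.Agent.Lib.MP_afdd4d_co.K10.E6.P10
import Pool.Agent.Lib.MP_afdd4d_co.K10.E6.P11
import Pool.Agent.Lib.MP_afdd4d_co.K10.E6.P12
import Pool.Agent.Lib.MP_afdd4d_co.K10.E6.P13
import Pool.Agent.Lib.MP_afdd4d_co.K10.E6.P14
import Pool.Agent.Lib.MP_afdd4d_co.K10.E6.P15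
import Pool.Agent.Lib.MP_afdd4d_co.K10.E6.P16
import Pool.Agent.Lib.MP_afdd4d_co.K10.E6.P17
import Pool.Agent.Lib.MP_afdd4d_co.K10.E6.P18
import Pool.Agent.Lib.MP_afdd4d_co.K10.E6.P19
import Pool.Agent.Lib.MP_afdd4d_co.K10.E6.P20
import Pool.Agent.Lib.MP_afdd4d_co.K10.E6.P21
import Pool.Agent.Lib.MP_afdd4d_co.K10.E6.P22
import Pool.Agent.Lib.MP_afdd4d_co.K10.E6.P23
import Pool.Agent.Lib.MP_afdd4d_co.K10.E6.P24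
import Pool.Agent.Lib.MP_afdd4d_co.K10.E6.P25
import Pool.Agent.Lib.MP_afdd4d_co.K10.E6.P26
import Pool.Agent.Lib.MP_afdd4d_co.K10.E6.P27
import Pool.Agent.Lib.MP_afdd4d_co.K10.E6.P28
import Pool.Agent.Lib.MP_afdd4d_co.K10.E6.P29
import Pool.Agent.Lib.MP_afdd4d_co.K10.E6.P30
import Pool.Agent.Lib.MP_afdd4d_co.K10.E6.P31
import Pool.Agent.Lib.MP_afdd4d_co.K10.E6.P32

/-!
# Tables
-/

namespace Pool.Agent.Lib.MP_afdd4d_co.K10.E6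

open K8

set_option maxRecDepth 100000
set_option exponentiation.threshold 10000000

/-- The slices of the chunk 464. -/
noncomputable def c464 : List (List ℕ) := [
  [p464_0,
   tr p461_4,
   p464_2,
   tr p463_4,
   p464_4,
   x7_6 (x7_5 (x7_4 (s4_6 (x3_2 (x3_1 (x3_0 (s0_2 p464_0))))))),
   p464_6,
   x7_6 (x7_5 (x7_4 (s4_6 (x3_2 (x3_1 (x3_0 (s0_2 p464_2)))))))],
  [p464_8,
   p464_9,
   p464_10,
   p464_11,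
   p464_12,
   p464_13,
   p464_14,
   p464_15],
  [p464_16,
   p464_17,
   p464_18,
   p464_19,
   x7_6 (x7_5 (x7_4 (s4_6 (x3_2 (x3_1 (x3_0 (s0_2 (n5 p464_17)))))))),
   p464_21,
   x7_6 (x7_5 (x7_4 (s4_6 (x3_2 (x3_1 (x3_0 (s0_2 (n5 p464_19)))))))),
   p464_23],
  [p464_24,
   p464_25,
   p464_26,
   p464_27,
   p464_28,
   p464_29,
   p464_30,
   p464_31],
  [x7_6 (x7_5 (x7_4 (s4_6 (x3_2 (x3_1 (x3_0 (s0_2 (n4 p464_14)))))))),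
   x7_6 (x7_5 (x7_4 (s4_6 (x3_2 (x3_1 (x3_0 (s0_2 (n4 p464_10)))))))),
   x7_6 (x7_5 (x7_4 (s4_6 (x3_2 (x3_1 (x3_0 (s0_2 (n4 p464_12)))))))),
   x7_6 (x7_5 (x7_4 (s4_6 (x3_2 (x3_1 (x3_0 (s0_2 (n4 p464_8)))))))),
   x7_6 (x7_5 (x7_4 (s4_6 (x3_2 (x3_1 (x3_0 (s0_2 (n4 p464_15)))))))),
   x7_6 (x7_5 (x7_4 (s4_6 (x3_2 (x3_1 (x3_0 (s0_2 (n4 p464_11)))))))),
   x7_6 (x7_5 (x7_4 (s4_6 (x3_2 (x3_1 (x3_0 (s0_2 (n4 p464_13)))))))),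
   x7_6 (x7_5 (x7_4 (s4_6 (x3_2 (x3_1 (x3_0 (s0_2 (n4 p464_9))))))))],
  [p464_40,
   p464_41,
   p464_42,
   p464_43,
   x7_6 (x7_5 (x7_4 (s4_6 (x3_2 (x3_1 (x3_0 (s0_2 (n6 (n4 p464_41))))))))),
   p464_45,
   x7_6 (x7_5 (x7_4 (s4_6 (x3_2 (x3_1 (x3_0 (s0_2 (n6 (n4 p464_43))))))))),
   p464_47],
  [x7_6 (x7_5 (x7_4 (s4_6 (x3_2 (x3_1 (x3_0 (s0_2 (n5 (n4 p464_27))))))))),
   x7_6 (x7_5 (x7_4 (s4_6 (x3_2 (x3_1 (x3_0 (s0_2 (n5 (n4 p464_31))))))))),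
   x7_6 (x7_5 (x7_4 (s4_6 (x3_2 (x3_1 (x3_0 (s0_2 (n5 (n4 p464_25))))))))),
   x7_6 (x7_5 (x7_4 (s4_6 (x3_2 (x3_1 (x3_0 (s0_2 (n5 (n4 p464_29))))))))),
   x7_6 (x7_5 (x7_4 (s4_6 (x3_2 (x3_1 (x3_0 (s0_2 (n5 (n4 p464_26))))))))),
   x7_6 (x7_5 (x7_4 (s4_6 (x3_2 (x3_1 (x3_0 (s0_2 (n5 (n4 p464_30))))))))),
   x7_6 (x7_5 (x7_4 (s4_6 (x3_2 (x3_1 (x3_0 (s0_2 (n5 (n4 p464_24))))))))),
   x7_6 (x7_5 (x7_4 (s4_6 (x3_2 (x3_1 (x3_0 (s0_2 (n5 (n4 p464_28)))))))))],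
  [p464_56,
   p464_57,
   p464_58,
   p464_59,
   p464_60,
   x7_6 (x7_5 (x7_4 (s4_6 (x3_2 (x3_1 (x3_0 (s0_2 (n6 (n5 (n4 p464_56)))))))))),
   p464_62,
   x7_6 (x7_5 (x7_4 (s4_6 (x3_2 (x3_1 (x3_0 (s0_2 (n6 (n5 (n4 p464_58))))))))))]]

theorem k464 : eqNN c464 (slO 64 (D.chG 59 4) 8) = true := by decide +kernel

/-- The slices of the chunk 465. -/
noncomputable def c465 : List (List ℕ) := [
  [p465_0,
   tr p461_6,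
   p465_2,
   tr p463_6,
   tr p464_6,
   x7_6 (x7_5 (x7_4 (s4_6 (x3_2 (x3_1 (x3_0 (s0_2 p465_0))))))),
   p465_6,
   x7_6 (x7_5 (x7_4 (s4_6 (x3_2 (x3_1 (x3_0 (s0_2 p465_2)))))))],
  [p465_8,
   p465_9,
   p465_10,
   p465_11,
   p465_12,
   p465_13,
   p465_14,
   p465_15],
  [p465_16,
   p465_17,
   p465_18,
   p465_19,
   x7_6 (x7_5 (x7_4 (s4_6 (x3_2 (x3_1 (x3_0 (s0_2 (n5 p465_17)))))))),
   p465_21,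
   x7_6 (x7_5 (x7_4 (s4_6 (x3_2 (x3_1 (x3_0 (s0_2 (n5 p465_19)))))))),
   p465_23],
  [p465_24,
   p465_25,
   p465_26,
   p465_27,
   p465_28,
   p465_29,
   p465_30,
   p465_31],
  [x7_6 (x7_5 (x7_4 (s4_6 (x3_2 (x3_1 (x3_0 (s0_2 (n4 p465_14)))))))),
   x7_6 (x7_5 (x7_4 (s4_6 (x3_2 (x3_1 (x3_0 (s0_2 (n4 p465_10)))))))),
   x7_6 (x7_5 (x7_4 (s4_6 (x3_2 (x3_1 (x3_0 (s0_2 (n4 p465_12)))))))),
   x7_6 (x7_5 (x7_4 (s4_6 (x3_2 (x3_1 (x3_0 (s0_2 (n4 p465_8)))))))),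
   x7_6 (x7_5 (x7_4 (s4_6 (x3_2 (x3_1 (x3_0 (s0_2 (n4 p465_15)))))))),
   x7_6 (x7_5 (x7_4 (s4_6 (x3_2 (x3_1 (x3_0 (s0_2 (n4 p465_11)))))))),
   x7_6 (x7_5 (x7_4 (s4_6 (x3_2 (x3_1 (x3_0 (s0_2 (n4 p465_13)))))))),
   x7_6 (x7_5 (x7_4 (s4_6 (x3_2 (x3_1 (x3_0 (s0_2 (n4 p465_9))))))))],
  [p465_40,
   p465_41,
   p465_42,
   p465_43,
   x7_6 (x7_5 (x7_4 (s4_6 (x3_2 (x3_1 (x3_0 (s0_2 (n6 (n4 p465_41))))))))),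
   p465_45,
   x7_6 (x7_5 (x7_4 (s4_6 (x3_2 (x3_1 (x3_0 (s0_2 (n6 (n4 p465_43))))))))),
   p465_47],
  [x7_6 (x7_5 (x7_4 (s4_6 (x3_2 (x3_1 (x3_0 (s0_2 (n5 (n4 p465_27))))))))),
   x7_6 (x7_5 (x7_4 (s4_6 (x3_2 (x3_1 (x3_0 (s0_2 (n5 (n4 p465_31))))))))),
   x7_6 (x7_5 (x7_4 (s4_6 (x3_2 (x3_1 (x3_0 (s0_2 (n5 (n4 p465_25))))))))),
   x7_6 (x7_5 (x7_4 (s4_6 (x3_2 (x3_1 (x3_0 (s0_2 (n5 (n4 p465_29))))))))),
   x7_6 (x7_5 (x7_4 (s4_6 (x3_2 (x3_1 (x3_0 (s0_2 (n5 (n4 p465_26))))))))),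
   x7_6 (x7_5 (x7_4 (s4_6 (x3_2 (x3_1 (x3_0 (s0_2 (n5 (n4 p465_30))))))))),
   x7_6 (x7_5 (x7_4 (s4_6 (x3_2 (x3_1 (x3_0 (s0_2 (n5 (n4 p465_24))))))))),
   x7_6 (x7_5 (x7_4 (s4_6 (x3_2 (x3_1 (x3_0 (s0_2 (n5 (n4 p465_28)))))))))],
  [p465_56,
   p465_57,
   p465_58,
   p465_59,
   p465_60,
   x7_6 (x7_5 (x7_4 (s4_6 (x3_2 (x3_1 (x3_0 (s0_2 (n6 (n5 (n4 p465_56)))))))))),
   p465_62,
   x7_6 (x7_5 (x7_4 (s4_6 (x3_2 (x3_1 (x3_0 (s0_2 (n6 (n5 (n4 p465_58))))))))))]]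

theorem k465 : eqNN c465 (slO 64 (D.chG 59 6) 8) = true := by decide +kernel

/-- The slices of the chunk 466. -/
noncomputable def c466 : List (List ℕ) := [
  [tr p460_8,
   tr p461_8,
   tr p462_8,
   tr p463_8,
   tr p464_8,
   x7_6 (x7_5 (x7_4 (x3_2 (x3_1 (x3_0 (s3_7 (s2_4 (s1_5 (s0_6 (n6 p460_35)))))))))),
   tr p465_8,
   x7_6 (x7_5 (x7_4 (x3_2 (x3_1 (x3_0 (s3_7 (s2_4 (s1_5 (s0_6 (n6 p462_35))))))))))],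
  [p466_8,
   p466_9,
   p466_10,
   p466_11,
   p466_12,
   p466_13,
   p466_14,
   p466_15],
  [tr p474_8,
   p466_17,
   tr p476_8,
   p466_19,
   p466_20,
   tr p478_8,
   p466_22,
   tr p479_8],
  [p466_24,
   p466_25,
   p466_26,
   p466_27,
   p466_28,
   p466_29,
   p466_30,
   p466_31],
  [p466_32,
   p466_33,
   p466_34,
   p466_35,
   p466_36,
   p466_37,
   p466_38,
   p466_39],
  [tr p488_8,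
   p466_41,
   tr p490_8,
   p466_43,
   p466_44,
   tr p492_8,
   p466_46,
   tr p493_8],
  [p466_48,
   p466_49,
   p466_50,
   p466_51,
   p466_52,
   p466_53,
   p466_54,
   p466_55],
  [p466_56,
   tr p495_8,
   p466_58,
   tr p497_8,
   tr p498_8,
   p466_61,
   tr p499_8,
   p466_63]]

theorem k466 : eqNN c466 (slO 64 (D.chG 59 8) 8) = true := by decide +kernel

/-- The slices of the chunk 467. -/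
noncomputable def c467 : List (List ℕ) := [
  [tr p460_9,
   tr p461_9,
   tr p462_9,
   tr p463_9,
   tr p464_9,
   x7_6 (x7_5 (x7_4 (x3_2 (x3_1 (x3_0 (s3_7 (s2_4 (s1_5 (s0_6 (n6 p460_39)))))))))),
   tr p465_9,
   x7_6 (x7_5 (x7_4 (x3_2 (x3_1 (x3_0 (s3_7 (s2_4 (s1_5 (s0_6 (n6 p462_39))))))))))],
  [tr p466_9,
   p467_9,
   p467_10,
   p467_11,
   p467_12,
   p467_13,
   p467_14,
   p467_15],
  [tr p474_9,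
   p467_17,
   tr p476_9,
   p467_19,
   p467_20,
   tr p478_9,
   p467_22,
   tr p479_9],
  [p467_24,
   p467_25,
   p467_26,
   p467_27,
   p467_28,
   p467_29,
   p467_30,
   p467_31],
  [p467_32,
   p467_33,
   p467_34,
   x7_6 (x7_5 (x7_4 (x3_2 (x3_1 (x3_0 (s3_7 (s2_4 (s1_5 (s0_6 (n6 (n0 p466_39))))))))))),
   p467_36,
   p467_37,
   p467_38,
   p467_39],
  [tr p488_9,
   p467_41,
   tr p490_9,
   p467_43,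
   p467_44,
   tr p492_9,
   p467_46,
   tr p493_9],
  [p467_48,
   p467_49,
   p467_50,
   p467_51,
   p467_52,
   p467_53,
   p467_54,
   p467_55],
  [p467_56,
   tr p495_9,
   p467_58,
   tr p497_9,
   tr p498_9,
   p467_61,
   tr p499_9,
   p467_63]]

theorem k467 : eqNN c467 (slO 64 (D.chG 59 9) 8) = true := by decide +kernel

end Pool.Agent.Lib.MP_afdd4d_co.K10.E6
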