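import Pool.Agent.Lib.MP_afdd4d_co.K10.E6.Dat
import Pool.Agent.Lib.MP_afdd4d_co.K10.E6.Mk
import Pool.Agent.Lib.MP_afdd4d_co.K8.F6Bl5
import Pool.Agent.Lib.MP_afdd4d_co.K10.E6.P0
import Pool.Agent.Lib.MP_afdd4d_co.K10.E6.P1
import Pool.Agent.Lib.MP_afdd4d_co.K10.E6.P2
import Pool.Agent.Lib.MP_afdd4d_co.K10.E6.P3
import Pool.Agent.Lib.MP_afdd4d_co.K10.E6.P4
import Pool.Agent.Lib.MP_afdd4d_co.K10.E6.P5
import Pool.Agent.Lib.MP_afdd4d_co.K10.E6.P6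
import Pool.Agent.Lib.MP_afdd4d_co.K10.E6.P7
import Pool.Agent.Lib.MP_afdd4d_co.K10.E6.P8
import Pool.Agent.Lib.MP_afdd4d_co.K10.E6.P9
import Pool.Agent.Lib.MP_afdd4d_co.K10.E6.P10
import Pool.Agent.Lib.MP_afdd4d_co.K10.E6.P11
import Pool.Agent.Lib.MP_afdd4d_co.K10.E6.P12
import Pool.Agent.Lib.MP_afdd4d_co.K10.E6.P13
import Pool.Agent.Lib.MP_afdd4d_co.K10.E6.P14
import Pool.Agent.Lib.MP_afdd4d_co.K10.E6.P15
import Pool.Agent.Lib.MP_afdd4d_co.K10.E6.P16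
import Pool.Agent.Lib.MP_afdd4d_co.K10.E6.P17
import Pool.Agent.Lib.MP_afdd4d_co.K10.E6.P18
import Pool.Agent.Lib.MP_afdd4d_co.K10.E6.P19
import Pool.Agent.Lib.MP_afdd4d_co.K10.E6.P20
import Pool.Agent.Lib.MP_afdd4d_co.K10.E6.P21
import Pool.Agent.Lib.MP_afdd4d_co.K10.E6.P22
import Pool.Agent.Lib.MP_afdd4d_co.K10.E6.P23
import Pool.Agent.Lib.MP_afdd4d_co.K10.E6.P24
import Pool.Agent.Lib.MP_afdd4d_co.K10.E6.P25
import Pool.Agent.Lib.MP_afdd4d_co.K10.E6.P26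
import Pool.Agent.Lib.MP_afdd4d_co.K10.E6.P27
import Pool.Agent.Lib.MP_afdd4d_co.K10.E6.P28
import Pool.Agent.Lib.MP_afdd4d_co.K10.E6.P29
import Pool.Agent.Lib.MP_afdd4d_co.K10.E6.P30
import Pool.Agent.Lib.MP_afdd4d_co.K10.E6.P31
import Pool.Agent.Lib.MP_afdd4d_co.K10.E6.P32

/-!
# Tables
-/

namespace Pool.Agent.Lib.MP_afdd4d_co.K10.E6

open K8

set_option maxRecDepth 100000
set_option exponentiation.threshold 10000000

/-- The slices of the chunk 468. -/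
noncomputable def c468 : List (List ℕ) := [
  [tr p460_10,
   tr p461_10,
   tr p462_10,
   tr p463_10,
   tr p464_10,
   x7_6 (x7_5 (x7_4 (x3_2 (x3_1 (x3_0 (s3_7 (s2_4 (s1_5 (s0_6 (n6 p460_33)))))))))),
   tr p465_10,
   x7_6 (x7_5 (x7_4 (x3_2 (x3_1 (x3_0 (s3_7 (s2_4 (s1_5 (s0_6 (n6 p462_33))))))))))],
  [tr p466_10,
   tr p467_10,
   p468_10,
   p468_11,
   p468_12,
   p468_13,
   p468_14,
   p468_15],
  [tr p474_10,
   p468_17,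
   tr p476_10,
   p468_19,
   p468_20,
   tr p478_10,
   p468_22,
   tr p479_10],
  [p468_24,
   p468_25,
   p468_26,
   p468_27,
   p468_28,
   p468_29,
   p468_30,
   p468_31],
  [p468_32,
   p468_33,
   p468_34,
   x7_6 (x7_5 (x7_4 (x3_2 (x3_1 (x3_0 (s3_7 (s2_4 (s1_5 (s0_6 (n6 (n0 p466_33))))))))))),
   p468_36,
   p468_37,
   p468_38,
   x7_6 (x7_5 (x7_4 (x3_2 (x3_1 (x3_0 (s3_7 (s2_4 (s1_5 (s0_6 (n6 (n0 p467_33)))))))))))],
  [tr p488_10,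
   p468_41,
   tr p490_10,
   p468_43,
   p468_44,
   tr p492_10,
   p468_46,
   tr p493_10],
  [p468_48,
   p468_49,
   p468_50,
   p468_51,
   p468_52,
   p468_53,
   p468_54,
   p468_55],
  [p468_56,
   tr p495_10,
   p468_58,
   tr p497_10,
   tr p498_10,
   p468_61,
   tr p499_10,
   p468_63]]

theorem k468 : eqNN c468 (slO 64 (D.chG 59 10) 8) = true := by decide +kernel

/-- The slices of the chunk 469. -/
noncomputable def c469 : List (List ℕ) := [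
  [tr p460_11,
   tr p461_11,
   tr p462_11,
   tr p463_11,
   tr p464_11,
   x7_6 (x7_5 (x7_4 (x3_2 (x3_1 (x3_0 (s3_7 (s2_4 (s1_5 (s0_6 (n6 p460_37)))))))))),
   tr p465_11,
   x7_6 (x7_5 (x7_4 (x3_2 (x3_1 (x3_0 (s3_7 (s2_4 (s1_5 (s0_6 (n6 p462_37))))))))))],
  [tr p466_11,
   tr p467_11,
   tr p468_11,
   p469_11,
   p469_12,
   p469_13,
   p469_14,
   p469_15],
  [tr p474_11,
   p469_17,
   tr p476_11,
   p469_19,
   p469_20,
   tr p478_11,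
   p469_22,
   tr p479_11],
  [p469_24,
   p469_25,
   p469_26,
   p469_27,
   p469_28,
   p469_29,
   p469_30,
   p469_31],
  [p469_32,
   x7_6 (x7_5 (x7_4 (x3_2 (x3_1 (x3_0 (s3_7 (s2_4 (s1_5 (s0_6 (n6 (n0 p468_37))))))))))),
   p469_34,
   x7_6 (x7_5 (x7_4 (x3_2 (x3_1 (x3_0 (s3_7 (s2_4 (s1_5 (s0_6 (n6 (n0 p466_37))))))))))),
   p469_36,
   p469_37,
   p469_38,
   x7_6 (x7_5 (x7_4 (x3_2 (x3_1 (x3_0 (s3_7 (s2_4 (s1_5 (s0_6 (n6 (n0 p467_37)))))))))))],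
  [tr p488_11,
   p469_41,
   tr p490_11,
   p469_43,
   p469_44,
   tr p492_11,
   p469_46,
   tr p493_11],
  [p469_48,
   p469_49,
   p469_50,
   p469_51,
   p469_52,
   p469_53,
   p469_54,
   p469_55],
  [p469_56,
   tr p495_11,
   p469_58,
   tr p497_11,
   tr p498_11,
   p469_61,
   tr p499_11,
   p469_63]]

theorem k469 : eqNN c469 (slO 64 (D.chG 59 11) 8) = true := by decide +kernel

/-- The slices of the chunk 470. -/
noncomputable def c470 : List (List ℕ) := [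
  [tr p460_12,
   tr p461_12,
   tr p462_12,
   tr p463_12,
   tr p464_12,
   x7_6 (x7_5 (x7_4 (x3_2 (x3_1 (x3_0 (s3_7 (s2_4 (s1_5 (s0_6 (n6 p460_34)))))))))),
   tr p465_12,
   x7_6 (x7_5 (x7_4 (x3_2 (x3_1 (x3_0 (s3_7 (s2_4 (s1_5 (s0_6 (n6 p462_34))))))))))],
  [tr p466_12,
   tr p467_12,
   tr p468_12,
   tr p469_12,
   p470_12,
   p470_13,
   p470_14,
   p470_15],
  [tr p474_12,
   p470_17,
   tr p476_12,
   p470_19,
   p470_20,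
   tr p478_12,
   p470_22,
   tr p479_12],
  [p470_24,
   p470_25,
   p470_26,
   p470_27,
   p470_28,
   p470_29,
   p470_30,
   p470_31],
  [p470_32,
   x7_6 (x7_5 (x7_4 (x3_2 (x3_1 (x3_0 (s3_7 (s2_4 (s1_5 (s0_6 (n6 (n0 p468_34))))))))))),
   p470_34,
   x7_6 (x7_5 (x7_4 (x3_2 (x3_1 (x3_0 (s3_7 (s2_4 (s1_5 (s0_6 (n6 (n0 p466_34))))))))))),
   p470_36,
   x7_6 (x7_5 (x7_4 (x3_2 (x3_1 (x3_0 (s3_7 (s2_4 (s1_5 (s0_6 (n6 (n0 p469_34))))))))))),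
   p470_38,
   x7_6 (x7_5 (x7_4 (x3_2 (x3_1 (x3_0 (s3_7 (s2_4 (s1_5 (s0_6 (n6 (n0 p467_34)))))))))))],
  [tr p488_12,
   p470_41,
   tr p490_12,
   p470_43,
   p470_44,
   tr p492_12,
   p470_46,
   tr p493_12],
  [p470_48,
   p470_49,
   p470_50,
   p470_51,
   p470_52,
   p470_53,
   p470_54,
   p470_55],
  [p470_56,
   tr p495_12,
   p470_58,
   tr p497_12,
   tr p498_12,
   p470_61,
   tr p499_12,
   p470_63]]

theorem k470 : eqNN c470 (slO 64 (D.chG 59 12) 8) = true := by decide +kernel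

/-- The slices of the chunk 471. -/
noncomputable def c471 : List (List ℕ) := [
  [tr p460_13,
   tr p461_13,
   tr p462_13,
   tr p463_13,
   tr p464_13,
   x7_6 (x7_5 (x7_4 (x3_2 (x3_1 (x3_0 (s3_7 (s2_4 (s1_5 (s0_6 (n6 p460_38)))))))))),
   tr p465_13,
   x7_6 (x7_5 (x7_4 (x3_2 (x3_1 (x3_0 (s3_7 (s2_4 (s1_5 (s0_6 (n6 p462_38))))))))))],
  [tr p466_13,
   tr p467_13,
   tr p468_13,
   tr p469_13,
   tr p470_13,
   p471_13,
   p471_14,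
   p471_15],
  [tr p474_13,
   p471_17,
   tr p476_13,
   p471_19,
   p471_20,
   tr p478_13,
   p471_22,
   tr p479_13],
  [p471_24,
   p471_25,
   p471_26,
   p471_27,
   p471_28,
   p471_29,
   p471_30,
   p471_31],
  [p471_32,
   x7_6 (x7_5 (x7_4 (x3_2 (x3_1 (x3_0 (s3_7 (s2_4 (s1_5 (s0_6 (n6 (n0 p468_38))))))))))),
   x7_6 (x7_5 (x7_4 (x3_2 (x3_1 (x3_0 (s3_7 (s2_4 (s1_5 (s0_6 (n6 (n0 p470_38))))))))))),
   x7_6 (x7_5 (x7_4 (x3_2 (x3_1 (x3_0 (s3_7 (s2_4 (s1_5 (s0_6 (n6 (n0 p466_38))))))))))),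
   p471_36,
   x7_6 (x7_5 (x7_4 (x3_2 (x3_1 (x3_0 (s3_7 (s2_4 (s1_5 (s0_6 (n6 (n0 p469_38))))))))))),
   p471_38,
   x7_6 (x7_5 (x7_4 (x3_2 (x3_1 (x3_0 (s3_7 (s2_4 (s1_5 (s0_6 (n6 (n0 p467_38)))))))))))],
  [tr p488_13,
   p471_41,
   tr p490_13,
   p471_43,
   p471_44,
   tr p492_13,
   p471_46,
   tr p493_13],
  [p471_48,
   p471_49,
   p471_50,
   p471_51,
   p471_52,
   p471_53,
   p471_54,
   p471_55],
  [p471_56,
   tr p495_13,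
   p471_58,
   tr p497_13,
   tr p498_13,
   p471_61,
   tr p499_13,
   p471_63]]

theorem k471 : eqNN c471 (slO 64 (D.chG 59 13) 8) = true := by decide +kernel

end Pool.Agent.Lib.MP_afdd4d_co.K10.E6
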