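import Pool.Agent.Lib.MP_afdd4d_co.K10.E6.Dat
import Pool.Agent.Lib.MP_afdd4d_co.K10.E6.Mk
import Pool.Agent.Lib.MP_afdd4d_co.K8.F6Bl5
import Pool.Agent.Lib.MP_afdd4d_co.K10.E6.P0
import Pool.Agent.Lib.MP_afdd4d_co.K10.E6.P1
import Pool.Agent.Lib.MP_afdd4d_co.K10.E6.P2
import Pool.Agent.Lib.MP_afdd4d_co.K10.E6.P3
import Pool.Agent.Lib.MP_afdd4d_co.K10.E6.P4
import Pool.Agent.Lib.MP_afdd4d_co.K10.E6.P5
import Pool.Agent.Lib.MP_afdd4d_co.K10.E6.P6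
import Pool.Agent.Lib.MP_afdd4d_co.K10.E6.P7
import Pool.Agent.Lib.MP_afdd4d_co.K10.E6.P8
import Pool.Agent.Lib.MP_afdd4d_co.K10.E6.P9
import Pool.Agent.Lib.MP_afdd4d_co.K10.E6.P10
import Pool.Agent.Lib.MP_afdd4d_co.K10.E6.P11
import Pool.Agent.Lib.MP_afdd4d_co.K10.E6.P12
import Pool.Agent.Lib.MP_afdd4d_co.K10.E6.P13
import Pool.Agent.Lib.MP_afdd4d_co.K10.E6.P14
import Pool.Agent.Lib.MP_afdd4d_co.K10.E6.P15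
import Pool.Agent.Lib.MP_afdd4d_co.K10.E6.P16
import Pool.Agent.Lib.MP_afdd4d_co.K10.E6.P17
import Pool.Agent.Lib.MP_afdd4d_co.K10.E6.P18
import Pool.Agent.Lib.MP_afdd4d_co.K10.E6.P19
import Pool.Agent.Lib.MP_afdd4d_co.K10.E6.P20
import Pool.Agent.Lib.MP_afdd4d_co.K10.E6.P21
import Pool.Agent.Lib.MP_afdd4d_co.K10.E6.P22
import Pool.Agent.Lib.MP_afdd4d_co.K10.E6.P23
import Pool.Agent.Lib.MP_afdd4d_co.K10.E6.P24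
import Pool.Agent.Lib.MP_afdd4d_co.K10.E6.P25
import Pool.Agent.Lib.MP_afdd4d_co.K10.E6.P26
import Pool.Agent.Lib.MP_afdd4d_co.K10.E6.P27
import Pool.Agent.Lib.MP_afdd4d_co.K10.E6.P28
import Pool.Agent.Lib.MP_afdd4d_co.K10.E6.P29
import Pool.Agent.Lib.MP_afdd4d_co.K10.E6.P30
import Pool.Agent.Lib.MP_afdd4d_co.K10.E6.P31
import Pool.Agent.Lib.MP_afdd4d_co.K10.E6.P32

/-!
# Tables
-/

namespace Pool.Agent.Lib.MP_afdd4d_co.K10.E6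

open K8

set_option maxRecDepth 100000
set_option exponentiation.threshold 10000000

/-- The slices of the chunk 472. -/
noncomputable def c472 : List (List ℕ) := [
  [tr p460_14,
   tr p461_14,
   tr p462_14,
   tr p463_14,
   tr p464_14,
   x7_6 (x7_5 (x7_4 (x3_2 (x3_1 (x3_0 (s3_7 (s2_4 (s1_5 (s0_6 (n6 p460_32)))))))))),
   tr p465_14,
   x7_6 (x7_5 (x7_4 (x3_2 (x3_1 (x3_0 (s3_7 (s2_4 (s1_5 (s0_6 (n6 p462_32))))))))))],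
  [tr p466_14,
   tr p467_14,
   tr p468_14,
   tr p469_14,
   tr p470_14,
   tr p471_14,
   p472_14,
   p472_15],
  [tr p474_14,
   p472_17,
   tr p476_14,
   p472_19,
   p472_20,
   tr p478_14,
   p472_22,
   tr p479_14],
  [p472_24,
   p472_25,
   p472_26,
   p472_27,
   p472_28,
   p472_29,
   p472_30,
   p472_31],
  [p472_32,
   x7_6 (x7_5 (x7_4 (x3_2 (x3_1 (x3_0 (s3_7 (s2_4 (s1_5 (s0_6 (n6 (n0 p468_32))))))))))),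
   x7_6 (x7_5 (x7_4 (x3_2 (x3_1 (x3_0 (s3_7 (s2_4 (s1_5 (s0_6 (n6 (n0 p470_32))))))))))),
   x7_6 (x7_5 (x7_4 (x3_2 (x3_1 (x3_0 (s3_7 (s2_4 (s1_5 (s0_6 (n6 (n0 p466_32))))))))))),
   p472_36,
   x7_6 (x7_5 (x7_4 (x3_2 (x3_1 (x3_0 (s3_7 (s2_4 (s1_5 (s0_6 (n6 (n0 p469_32))))))))))),
   x7_6 (x7_5 (x7_4 (x3_2 (x3_1 (x3_0 (s3_7 (s2_4 (s1_5 (s0_6 (n6 (n0 p471_32))))))))))),
   x7_6 (x7_5 (x7_4 (x3_2 (x3_1 (x3_0 (s3_7 (s2_4 (s1_5 (s0_6 (n6 (n0 p467_32)))))))))))],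
  [tr p488_14,
   p472_41,
   tr p490_14,
   p472_43,
   p472_44,
   tr p492_14,
   p472_46,
   tr p493_14],
  [p472_48,
   p472_49,
   p472_50,
   p472_51,
   p472_52,
   p472_53,
   p472_54,
   p472_55],
  [p472_56,
   tr p495_14,
   p472_58,
   tr p497_14,
   tr p498_14,
   p472_61,
   tr p499_14,
   p472_63]]

theorem k472 : eqNN c472 (slO 64 (D.chG 59 14) 8) = true := by decide +kernel

/-- The slices of the chunk 473. -/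
noncomputable def c473 : List (List ℕ) := [
  [tr p460_15,
   tr p461_15,
   tr p462_15,
   tr p463_15,
   tr p464_15,
   x7_6 (x7_5 (x7_4 (x3_2 (x3_1 (x3_0 (s3_7 (s2_4 (s1_5 (s0_6 (n6 p460_36)))))))))),
   tr p465_15,
   x7_6 (x7_5 (x7_4 (x3_2 (x3_1 (x3_0 (s3_7 (s2_4 (s1_5 (s0_6 (n6 p462_36))))))))))],
  [tr p466_15,
   tr p467_15,
   tr p468_15,
   tr p469_15,
   tr p470_15,
   tr p471_15,
   tr p472_15,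
   p473_15],
  [tr p474_15,
   p473_17,
   tr p476_15,
   p473_19,
   p473_20,
   tr p478_15,
   p473_22,
   tr p479_15],
  [p473_24,
   p473_25,
   p473_26,
   p473_27,
   p473_28,
   p473_29,
   p473_30,
   p473_31],
  [x7_6 (x7_5 (x7_4 (x3_2 (x3_1 (x3_0 (s3_7 (s2_4 (s1_5 (s0_6 (n6 (n0 p472_36))))))))))),
   x7_6 (x7_5 (x7_4 (x3_2 (x3_1 (x3_0 (s3_7 (s2_4 (s1_5 (s0_6 (n6 (n0 p468_36))))))))))),
   x7_6 (x7_5 (x7_4 (x3_2 (x3_1 (x3_0 (s3_7 (s2_4 (s1_5 (s0_6 (n6 (n0 p470_36))))))))))),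
   x7_6 (x7_5 (x7_4 (x3_2 (x3_1 (x3_0 (s3_7 (s2_4 (s1_5 (s0_6 (n6 (n0 p466_36))))))))))),
   p473_36,
   x7_6 (x7_5 (x7_4 (x3_2 (x3_1 (x3_0 (s3_7 (s2_4 (s1_5 (s0_6 (n6 (n0 p469_36))))))))))),
   x7_6 (x7_5 (x7_4 (x3_2 (x3_1 (x3_0 (s3_7 (s2_4 (s1_5 (s0_6 (n6 (n0 p471_36))))))))))),
   x7_6 (x7_5 (x7_4 (x3_2 (x3_1 (x3_0 (s3_7 (s2_4 (s1_5 (s0_6 (n6 (n0 p467_36)))))))))))],
  [tr p488_15,
   p473_41,
   tr p490_15,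
   p473_43,
   p473_44,
   tr p492_15,
   p473_46,
   tr p493_15],
  [p473_48,
   p473_49,
   p473_50,
   p473_51,
   p473_52,
   p473_53,
   p473_54,
   p473_55],
  [p473_56,
   tr p495_15,
   p473_58,
   tr p497_15,
   tr p498_15,
   p473_61,
   tr p499_15,
   p473_63]]

theorem k473 : eqNN c473 (slO 64 (D.chG 59 15) 8) = true := by decide +kernel

/-- The slices of the chunk 474. -/
noncomputable def c474 : List (List ℕ) := [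
  [p474_0,
   tr p461_16,
   p474_2,
   tr p463_16,
   tr p464_16,
   x7_6 (x7_5 (x7_4 (s4_6 (x3_2 (x3_1 (x3_0 (s0_2 (n1 p474_0)))))))),
   tr p465_16,
   x7_6 (x7_5 (x7_4 (s4_6 (x3_2 (x3_1 (x3_0 (s0_2 (n1 p474_2))))))))],
  [p474_8,
   p474_9,
   p474_10,
   p474_11,
   p474_12,
   p474_13,
   p474_14,
   p474_15],
  [p474_16,
   p474_17,
   p474_18,
   p474_19,
   x7_6 (x7_5 (x7_4 (s4_6 (x3_2 (x3_1 (x3_0 (s0_2 (n5 (n1 p474_17))))))))),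
   p474_21,
   x7_6 (x7_5 (x7_4 (s4_6 (x3_2 (x3_1 (x3_0 (s0_2 (n5 (n1 p474_19))))))))),
   p474_23],
  [p474_24,
   p474_25,
   p474_26,
   p474_27,
   p474_28,
   p474_29,
   p474_30,
   p474_31],
  [x7_6 (x7_5 (x7_4 (s4_6 (x3_2 (x3_1 (x3_0 (s0_2 (n4 (n1 p474_14))))))))),
   x7_6 (x7_5 (x7_4 (s4_6 (x3_2 (x3_1 (x3_0 (s0_2 (n4 (n1 p474_10))))))))),
   x7_6 (x7_5 (x7_4 (s4_6 (x3_2 (x3_1 (x3_0 (s0_2 (n4 (n1 p474_12))))))))),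
   x7_6 (x7_5 (x7_4 (s4_6 (x3_2 (x3_1 (x3_0 (s0_2 (n4 (n1 p474_8))))))))),
   x7_6 (x7_5 (x7_4 (s4_6 (x3_2 (x3_1 (x3_0 (s0_2 (n4 (n1 p474_15))))))))),
   x7_6 (x7_5 (x7_4 (s4_6 (x3_2 (x3_1 (x3_0 (s0_2 (n4 (n1 p474_11))))))))),
   x7_6 (x7_5 (x7_4 (s4_6 (x3_2 (x3_1 (x3_0 (s0_2 (n4 (n1 p474_13))))))))),
   x7_6 (x7_5 (x7_4 (s4_6 (x3_2 (x3_1 (x3_0 (s0_2 (n4 (n1 p474_9)))))))))],
  [p474_40,
   p474_41,
   p474_42,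
   p474_43,
   x7_6 (x7_5 (x7_4 (s4_6 (x3_2 (x3_1 (x3_0 (s0_2 (n6 (n4 (n1 p474_41)))))))))),
   p474_45,
   x7_6 (x7_5 (x7_4 (s4_6 (x3_2 (x3_1 (x3_0 (s0_2 (n6 (n4 (n1 p474_43)))))))))),
   p474_47],
  [x7_6 (x7_5 (x7_4 (s4_6 (x3_2 (x3_1 (x3_0 (s0_2 (n5 (n4 (n1 p474_27)))))))))),
   x7_6 (x7_5 (x7_4 (s4_6 (x3_2 (x3_1 (x3_0 (s0_2 (n5 (n4 (n1 p474_31)))))))))),
   x7_6 (x7_5 (x7_4 (s4_6 (x3_2 (x3_1 (x3_0 (s0_2 (n5 (n4 (n1 p474_25)))))))))),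
   x7_6 (x7_5 (x7_4 (s4_6 (x3_2 (x3_1 (x3_0 (s0_2 (n5 (n4 (n1 p474_29)))))))))),
   x7_6 (x7_5 (x7_4 (s4_6 (x3_2 (x3_1 (x3_0 (s0_2 (n5 (n4 (n1 p474_26)))))))))),
   x7_6 (x7_5 (x7_4 (s4_6 (x3_2 (x3_1 (x3_0 (s0_2 (n5 (n4 (n1 p474_30)))))))))),
   x7_6 (x7_5 (x7_4 (s4_6 (x3_2 (x3_1 (x3_0 (s0_2 (n5 (n4 (n1 p474_24)))))))))),
   x7_6 (x7_5 (x7_4 (s4_6 (x3_2 (x3_1 (x3_0 (s0_2 (n5 (n4 (n1 p474_28))))))))))],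
  [p474_56,
   p474_57,
   p474_58,
   p474_59,
   p474_60,
   x7_6 (x7_5 (x7_4 (s4_6 (x3_2 (x3_1 (x3_0 (s0_2 (n6 (n5 (n4 (n1 p474_56))))))))))),
   p474_62,
   x7_6 (x7_5 (x7_4 (s4_6 (x3_2 (x3_1 (x3_0 (s0_2 (n6 (n5 (n4 (n1 p474_58)))))))))))]]

theorem k474 : eqNN c474 (slO 64 (D.chG 59 16) 8) = true := by decide +kernel

/-- The slices of the chunk 475. -/
noncomputable def c475 : List (List ℕ) := [
  [tr p460_17,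
   tr p461_17,
   tr p462_17,
   tr p463_17,
   tr p464_17,
   x7_6 (x7_5 (x7_4 (x3_2 (x3_1 (x3_0 (s3_7 (s2_4 (s1_5 (s0_6 (n5 p460_20)))))))))),
   tr p465_17,
   x7_6 (x7_5 (x7_4 (x3_2 (x3_1 (x3_0 (s3_7 (s2_4 (s1_5 (s0_6 (n5 p462_20))))))))))],
  [tr p466_17,
   tr p467_17,
   tr p468_17,
   tr p469_17,
   tr p470_17,
   tr p471_17,
   tr p472_17,
   tr p473_17],
  [tr p474_17,
   p475_17,
   tr p476_17,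
   p475_19,
   p475_20,
   tr p478_17,
   p475_22,
   tr p479_17],
  [p475_24,
   p475_25,
   p475_26,
   p475_27,
   p475_28,
   p475_29,
   p475_30,
   p475_31],
  [x7_6 (x7_5 (x7_4 (x3_2 (x3_1 (x3_0 (s3_7 (s2_4 (s1_5 (s0_6 (n5 (n0 p472_20))))))))))),
   x7_6 (x7_5 (x7_4 (x3_2 (x3_1 (x3_0 (s3_7 (s2_4 (s1_5 (s0_6 (n5 (n0 p468_20))))))))))),
   x7_6 (x7_5 (x7_4 (x3_2 (x3_1 (x3_0 (s3_7 (s2_4 (s1_5 (s0_6 (n5 (n0 p470_20))))))))))),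
   x7_6 (x7_5 (x7_4 (x3_2 (x3_1 (x3_0 (s3_7 (s2_4 (s1_5 (s0_6 (n5 (n0 p466_20))))))))))),
   x7_6 (x7_5 (x7_4 (x3_2 (x3_1 (x3_0 (s3_7 (s2_4 (s1_5 (s0_6 (n5 (n0 p473_20))))))))))),
   x7_6 (x7_5 (x7_4 (x3_2 (x3_1 (x3_0 (s3_7 (s2_4 (s1_5 (s0_6 (n5 (n0 p469_20))))))))))),
   x7_6 (x7_5 (x7_4 (x3_2 (x3_1 (x3_0 (s3_7 (s2_4 (s1_5 (s0_6 (n5 (n0 p471_20))))))))))),
   x7_6 (x7_5 (x7_4 (x3_2 (x3_1 (x3_0 (s3_7 (s2_4 (s1_5 (s0_6 (n5 (n0 p467_20)))))))))))],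
  [tr p488_17,
   p475_41,
   tr p490_17,
   p475_43,
   p475_44,
   tr p492_17,
   p475_46,
   tr p493_17],
  [p475_48,
   p475_49,
   p475_50,
   p475_51,
   p475_52,
   p475_53,
   p475_54,
   p475_55],
  [p475_56,
   tr p495_17,
   p475_58,
   tr p497_17,
   tr p498_17,
   p475_61,
   tr p499_17,
   p475_63]]

theorem k475 : eqNN c475 (slO 64 (D.chG 59 17) 8) = true := by decide +kernel

end Pool.Agent.Lib.MP_afdd4d_co.K10.E6
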