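import Pool.Agent.Lib.MP_afdd4d_co.K10.E6.Dat
import Pool.Agent.Lib.MP_afdd4d_co.K10.E6.Mk
import Pool.Agent.Lib.MP_afdd4d_co.K8.F6Bl5
import Pool.Agent.Lib.MP_afdd4d_co.K10.E6.P0
import Pool.Agent.Lib.MP_afdd4d_co.K10.E6.P1
import Pool.Agent.Lib.MP_afdd4d_co.K10.E6.P2
import Pool.Agent.Lib.MP_afdd4d_co.K10.E6.P3
import Pool.Agent.Lib.MP_afdd4d_co.K10.E6.P4
import Pool.Agent.Lib.MP_afdd4d_co.K10.E6.P5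
import Pool.Agent.Lib.MP_afdd4d_co.K10.E6.P6
import Pool.Agent.Lib.MP_afdd4d_co.K10.E6.P7
import Pool.Agent.Lib.MP_afdd4d_co.K10.E6.P8
import Pool.Agent.Lib.MP_afdd4d_co.K10.E6.P9
import Pool.Agent.Lib.MP_afdd4d_co.K10.E6.P10
import Pool.Agent.Lib.MP_afdd4d_co.K10.E6.P11
import Pool.Agent.Lib.MP_afdd4d_co.K10.E6.P12
import Pool.Agent.Lib.MP_afdd4d_co.K10.E6.P13
import Pool.Agent.Lib.MP_afdd4d_co.K10.E6.P14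
import Pool.Agent.Lib.MP_afdd4d_co.K10.E6.P15
import Pool.Agent.Lib.MP_afdd4d_co.K10.E6.P16
import Pool.Agent.Lib.MP_afdd4d_co.K10.E6.P17
import Pool.Agent.Lib.MP_afdd4d_co.K10.E6.P18
import Pool.Agent.Lib.MP_afdd4d_co.K10.E6.P19
import Pool.Agent.Lib.MP_afdd4d_co.K10.E6.P20
import Pool.Agent.Lib.MP_afdd4d_co.K10.E6.P21
import Pool.Agent.Lib.MP_afdd4d_co.K10.E6.P22
import Pool.Agent.Lib.MP_afdd4d_co.K10.E6.P23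
import Pool.Agent.Lib.MP_afdd4d_co.K10.E6.P24
import Pool.Agent.Lib.MP_afdd4d_co.K10.E6.P25
import Pool.Agent.Lib.MP_afdd4d_co.K10.E6.P26
import Pool.Agent.Lib.MP_afdd4d_co.K10.E6.P27
import Pool.Agent.Lib.MP_afdd4d_co.K10.E6.P28
import Pool.Agent.Lib.MP_afdd4d_co.K10.E6.P29
import Pool.Agent.Lib.MP_afdd4d_co.K10.E6.P30
import Pool.Agent.Lib.MP_afdd4d_co.K10.E6.P31
import Pool.Agent.Lib.MP_afdd4d_co.K10.E6.P32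

/-!
# Tables
-/

namespace Pool.Agent.Lib.MP_afdd4d_co.K10.E6

open K8

set_option maxRecDepth 100000
set_option exponentiation.threshold 10000000

/-- The slices of the chunk 48. -/
noncomputable def c48 : List (List ℕ) := [
  [tr p23_47,
   tr p24_47,
   tr p25_47,
   tr p26_47,
   s3_7 (s2_6 (s1_4 (s0_5 p25_55))),
   s3_7 (s2_6 (s1_4 (s0_5 p26_55))),
   tr p27_47,
   tr p28_47],
  [s3_6 (s2_7 (s1_5 (s0_4 p25_59))),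
   s3_6 (s2_7 (s1_5 (s0_4 p26_59))),
   tr p29_47,
   tr p30_47,
   tr p31_47,
   tr p32_47,
   tr p33_47,
   tr p34_47],
  [s3_6 (s2_7 (s1_4 (s0_5 p25_61))),
   s3_6 (s2_7 (s1_4 (s0_5 p26_61))),
   s3_7 (s2_6 (s1_4 (s0_5 p31_55))),
   s3_7 (s2_6 (s1_4 (s0_5 p32_55))),
   s3_7 (s2_6 (s1_4 (s0_5 p29_55))),
   s3_7 (s2_6 (s1_4 (s0_5 p30_55))),
   s3_7 (s2_6 (s1_4 (s0_5 p33_55))),
   s3_7 (s2_6 (s1_4 (s0_5 p34_55)))],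
  [s3_6 (s2_7 (s1_5 (s0_4 p27_59))),
   s3_6 (s2_7 (s1_5 (s0_4 p28_59))),
   s3_6 (s2_7 (s1_5 (s0_4 p33_59))),
   s3_6 (s2_7 (s1_5 (s0_4 p34_59))),
   s3_6 (s2_7 (s1_4 (s0_5 p33_61))),
   s3_6 (s2_7 (s1_4 (s0_5 p34_61))),
   tr p35_47,
   tr p36_47],
  [tr p37_47,
   tr p38_47,
   tr p39_47,
   tr p40_47,
   s3_7 (s2_6 (s1_4 (s0_5 p39_55))),
   s3_7 (s2_6 (s1_4 (s0_5 p40_55))),
   tr p41_47,
   tr p42_47],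
  [s3_6 (s2_7 (s1_5 (s0_4 p39_59))),
   s3_6 (s2_7 (s1_5 (s0_4 p40_59))),
   tr p43_47,
   tr p44_47,
   tr p45_47,
   tr p46_47,
   tr p47_47,
   p48_47],
  [s3_6 (s2_7 (s1_4 (s0_5 p39_61))),
   s3_6 (s2_7 (s1_4 (s0_5 p40_61))),
   s3_7 (s2_6 (s1_4 (s0_5 p45_55))),
   s3_7 (s2_6 (s1_4 (s0_5 p46_55))),
   s3_7 (s2_6 (s1_4 (s0_5 p43_55))),
   s3_7 (s2_6 (s1_4 (s0_5 p44_55))),
   s3_7 (s2_6 (s1_4 (s0_5 p47_55))),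
   p48_55],
  [s3_6 (s2_7 (s1_5 (s0_4 p41_59))),
   s3_6 (s2_7 (s1_5 (s0_4 p42_59))),
   s3_6 (s2_7 (s1_5 (s0_4 p47_59))),
   p48_59,
   s3_6 (s2_7 (s1_4 (s0_5 p47_61))),
   p48_61,
   tr p49_47,
   tr p50_47]]

theorem k48 : eqNN c48 (slO 64 (D.chG 3 47) 8) = true := by decide +kernel

/-- The slices of the chunk 49. -/
noncomputable def c49 : List (List ℕ) := [
  [tr p23_62,
   tr p24_62,
   p49_2,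
   p49_3,
   s4_5 (s0_1 p49_2),
   s4_5 (s0_1 p49_3),
   p49_6,
   p49_7],
  [s6_7 (s2_3 p49_2),
   s6_7 (s2_3 p49_3),
   p49_10,
   p49_11,
   p49_12,
   p49_13,
   p49_14,
   p49_15],
  [s6_7 (s4_5 (s2_3 (s0_1 p49_2))),
   s6_7 (s4_5 (s2_3 (s0_1 p49_3))),
   s6_7 (s2_3 p49_12),
   s6_7 (s2_3 p49_13),
   s4_5 (s0_1 p49_10),
   s4_5 (s0_1 p49_11),
   s4_5 (s0_1 p49_14),
   s4_5 (s0_1 p49_15)],
  [s6_7 (s2_3 p49_6),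
   s6_7 (s2_3 p49_7),
   s6_7 (s2_3 p49_14),
   s6_7 (s2_3 p49_15),
   s6_7 (s4_5 (s2_3 (s0_1 p49_14))),
   s6_7 (s4_5 (s2_3 (s0_1 p49_15))),
   tr p35_62,
   tr p36_62],
  [tr p37_62,
   tr p38_62,
   p49_34,
   p49_35,
   s4_5 (s0_1 p49_34),
   s4_5 (s0_1 p49_35),
   p49_38,
   p49_39],
  [s6_7 (s2_3 p49_34),
   s6_7 (s2_3 p49_35),
   p49_42,
   p49_43,
   p49_44,
   p49_45,
   p49_46,
   p49_47],
  [s6_7 (s4_5 (s2_3 (s0_1 p49_34))),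
   s6_7 (s4_5 (s2_3 (s0_1 p49_35))),
   s6_7 (s2_3 p49_44),
   s6_7 (s2_3 p49_45),
   s4_5 (s0_1 p49_42),
   s4_5 (s0_1 p49_43),
   s4_5 (s0_1 p49_46),
   s4_5 (s0_1 p49_47)],
  [s6_7 (s2_3 p49_38),
   s6_7 (s2_3 p49_39),
   s6_7 (s2_3 p49_46),
   s6_7 (s2_3 p49_47),
   s6_7 (s4_5 (s2_3 (s0_1 p49_46))),
   s6_7 (s4_5 (s2_3 (s0_1 p49_47))),
   p49_62,
   p49_63]]

theorem k49 : eqNN c49 (slO 64 (D.chG 3 62) 8) = true := by decide +kernel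

/-- The slices of the chunk 50. -/
noncomputable def c50 : List (List ℕ) := [
  [tr p23_63,
   tr p24_63,
   p50_2,
   p50_3,
   s4_5 (s0_1 p50_2),
   s4_5 (s0_1 p50_3),
   p50_6,
   p50_7],
  [s6_7 (s2_3 p50_2),
   s6_7 (s2_3 p50_3),
   p50_10,
   p50_11,
   p50_12,
   p50_13,
   p50_14,
   p50_15],
  [s6_7 (s4_5 (s2_3 (s0_1 p50_2))),
   s6_7 (s4_5 (s2_3 (s0_1 p50_3))),
   s6_7 (s2_3 p50_12),
   s6_7 (s2_3 p50_13),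
   s4_5 (s0_1 p50_10),
   s4_5 (s0_1 p50_11),
   s4_5 (s0_1 p50_14),
   s4_5 (s0_1 p50_15)],
  [s6_7 (s2_3 p50_6),
   s6_7 (s2_3 p50_7),
   s6_7 (s2_3 p50_14),
   s6_7 (s2_3 p50_15),
   s6_7 (s4_5 (s2_3 (s0_1 p50_14))),
   s6_7 (s4_5 (s2_3 (s0_1 p50_15))),
   tr p35_63,
   tr p36_63],
  [tr p37_63,
   tr p38_63,
   p50_34,
   p50_35,
   s4_5 (s0_1 p50_34),
   s4_5 (s0_1 p50_35),
   p50_38,
   p50_39],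
  [s6_7 (s2_3 p50_34),
   s6_7 (s2_3 p50_35),
   p50_42,
   p50_43,
   p50_44,
   p50_45,
   p50_46,
   p50_47],
  [s6_7 (s4_5 (s2_3 (s0_1 p50_34))),
   s6_7 (s4_5 (s2_3 (s0_1 p50_35))),
   s6_7 (s2_3 p50_44),
   s6_7 (s2_3 p50_45),
   s4_5 (s0_1 p50_42),
   s4_5 (s0_1 p50_43),
   s4_5 (s0_1 p50_46),
   s4_5 (s0_1 p50_47)],
  [s6_7 (s2_3 p50_38),
   s6_7 (s2_3 p50_39),
   s6_7 (s2_3 p50_46),
   s6_7 (s2_3 p50_47),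
   s6_7 (s4_5 (s2_3 (s0_1 p50_46))),
   s6_7 (s4_5 (s2_3 (s0_1 p50_47))),
   tr p49_63,
   p50_63]]

theorem k50 : eqNN c50 (slO 64 (D.chG 3 63) 8) = true := by decide +kernel

/-- The slices of the chunk 51. -/
noncomputable def c51 : List (List ℕ) := [
  [p51_0,
   p51_1,
   s5_6 (s1_2 p51_1),
   p51_3,
   p51_4,
   p51_5,
   s5_6 (s1_2 p51_5),
   p51_7],
  [s5_7 (s1_3 p51_1),
   s6_7 (s2_3 p51_3),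
   s5_7 (s1_3 p51_3),
   p51_11,
   p51_12,
   p51_13,
   s5_6 (s1_2 p51_13),
   p51_15],
  [s6_7 (s2_3 p51_4),
   s6_7 (s2_3 p51_5),
   s6_7 (s2_3 p51_12),
   s6_7 (s2_3 p51_13),
   p51_20,
   p51_21,
   p51_22,
   p51_23],
  [s6_7 (s5_6 (s2_3 (s1_2 p51_5))),
   s6_7 (s2_3 p51_7),
   s6_7 (s5_6 (s2_3 (s1_2 p51_13))),
   s6_7 (s2_3 p51_15),
   s6_7 (s2_3 p51_22),
   s6_7 (s2_3 p51_23),
   p51_30,
   p51_31],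
  [s5_7 (s1_3 p51_4),
   s5_7 (s1_3 p51_12),
   s6_7 (s5_7 (s2_3 (s1_3 p51_5))),
   s6_7 (s5_7 (s2_3 (s1_3 p51_13))),
   s5_6 (s1_2 p51_20),
   s5_6 (s1_2 p51_22),
   s5_6 (s1_2 p51_21),
   s5_6 (s1_2 p51_23)],
  [s5_7 (s1_3 p51_5),
   s5_7 (s1_3 p51_13),
   s5_7 (s1_3 p51_7),
   s5_7 (s1_3 p51_15),
   s6_7 (s5_7 (s2_3 (s1_3 p51_22))),
   s5_6 (s1_2 p51_30),
   s6_7 (s5_7 (s2_3 (s1_3 p51_23))),
   s5_6 (s1_2 p51_31)],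
  [s5_7 (s1_3 p51_20),
   s6_7 (s5_6 (s2_3 (s1_2 p51_22))),
   s5_7 (s1_3 p51_22),
   s5_7 (s1_3 p51_30),
   p51_52,
   p51_53,
   s5_6 (s1_2 p51_53),
   p51_55],
  [s5_7 (s1_3 p51_21),
   s6_7 (s5_6 (s2_3 (s1_2 p51_23))),
   s5_7 (s1_3 p51_23),
   s5_7 (s1_3 p51_31),
   s5_7 (s1_3 p51_53),
   s6_7 (s2_3 p51_55),
   s5_7 (s1_3 p51_55),
   p51_63]]

theorem k51 : eqNN c51 (slO 64 (D.chG 7 0) 8) = true := by decide +kernel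

end Pool.Agent.Lib.MP_afdd4d_co.K10.E6
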