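import Pool.Agent.Lib.MP_afdd4d_co.K10.E6.Dat
import Pool.Agent.Lib.MP_afdd4d_co.K10.E6.Mk
import Pool.Agent.Lib.MP_afdd4d_co.K8.F6Bl5
import Pool.Agent.Lib.MP_afdd4d_co.K10.E6.P0
import Pool.Agent.Lib.MP_afdd4d_co.K10.E6.P1
import Pool.Agent.Lib.MP_afdd4d_co.K10.E6.P2
import Pool.Agent.Lib.MP_afdd4d_co.K10.E6.P3
import Pool.Agent.Lib.MP_afdd4d_co.K10.E6.P4
import Pool.Agent.Lib.MP_afdd4d_co.K10.E6.P5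
import Pool.Agent.Lib.MP_afdd4d_co.K10.E6.P6
import Pool.Agent.Lib.MP_afdd4d_co.K10.E6.P7
import Pool.Agent.Lib.MP_afdd4d_co.K10.E6.P8
import Pool.Agent.Lib.MP_afdd4d_co.K10.E6.P9
import Pool.Agent.Lib.MP_afdd4d_co.K10.E6.P10
import Pool.Agent.Lib.MP_afdd4d_co.K10.E6.P11
import Pool.Agent.Lib.MP_afdd4d_co.K10.E6.P12
import Pool.Agent.Lib.MP_afdd4d_co.K10.E6.P13
import Pool.Agent.Lib.MP_afdd4d_co.K10.E6.P14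
import Pool.Agent.Lib.MP_afdd4d_co.K10.E6.P15
import Pool.Agent.Lib.MP_afdd4d_co.K10.E6.P16
import Pool.Agent.Lib.MP_afdd4d_co.K10.E6.P17
import Pool.Agent.Lib.MP_afdd4d_co.K10.E6.P18
import Pool.Agent.Lib.MP_afdd4d_co.K10.E6.P19
import Pool.Agent.Lib.MP_afdd4d_co.K10.E6.P20
import Pool.Agent.Lib.MP_afdd4d_co.K10.E6.P21
import Pool.Agent.Lib.MP_afdd4d_co.K10.E6.P22
import Pool.Agent.Lib.MP_afdd4d_co.K10.E6.P23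
import Pool.Agent.Lib.MP_afdd4d_co.K10.E6.P24
import Pool.Agent.Lib.MP_afdd4d_co.K10.E6.P25
import Pool.Agent.Lib.MP_afdd4d_co.K10.E6.P26
import Pool.Agent.Lib.MP_afdd4d_co.K10.E6.P27
import Pool.Agent.Lib.MP_afdd4d_co.K10.E6.P28
import Pool.Agent.Lib.MP_afdd4d_co.K10.E6.P29
import Pool.Agent.Lib.MP_afdd4d_co.K10.E6.P30
import Pool.Agent.Lib.MP_afdd4d_co.K10.E6.P31
import Pool.Agent.Lib.MP_afdd4d_co.K10.E6.P32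

/-!
# Tables
-/

namespace Pool.Agent.Lib.MP_afdd4d_co.K10.E6

open K8

set_option maxRecDepth 100000
set_option exponentiation.threshold 10000000

/-- The slices of the chunk 480. -/
noncomputable def c480 : List (List ℕ) := [
  [tr p460_24,
   tr p461_24,
   tr p462_24,
   tr p463_24,
   tr p464_24,
   x7_6 (x7_5 (x7_4 (x3_2 (x3_1 (x3_0 (s3_7 (s2_4 (s1_5 (s0_6 (n6 (n5 p460_54))))))))))),
   tr p465_24,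
   x7_6 (x7_5 (x7_4 (x3_2 (x3_1 (x3_0 (s3_7 (s2_4 (s1_5 (s0_6 (n6 (n5 p462_54)))))))))))],
  [tr p466_24,
   tr p467_24,
   tr p468_24,
   tr p469_24,
   tr p470_24,
   tr p471_24,
   tr p472_24,
   tr p473_24],
  [tr p474_24,
   tr p475_24,
   tr p476_24,
   tr p477_24,
   x7_6 (x7_5 (x7_4 (x3_2 (x3_1 (x3_0 (s3_7 (s2_4 (s1_5 (s0_6 (n6 (n5 (n1 p475_54)))))))))))),
   tr p478_24,
   x7_6 (x7_5 (x7_4 (x3_2 (x3_1 (x3_0 (s3_7 (s2_4 (s1_5 (s0_6 (n6 (n5 (n1 p477_54)))))))))))),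
   tr p479_24],
  [p480_24,
   p480_25,
   p480_26,
   p480_27,
   p480_28,
   p480_29,
   p480_30,
   p480_31],
  [x7_6 (x7_5 (x7_4 (x3_2 (x3_1 (x3_0 (s3_7 (s2_4 (s1_5 (s0_6 (n6 (n5 (n0 p472_54)))))))))))),
   x7_6 (x7_5 (x7_4 (x3_2 (x3_1 (x3_0 (s3_7 (s2_4 (s1_5 (s0_6 (n6 (n5 (n0 p468_54)))))))))))),
   x7_6 (x7_5 (x7_4 (x3_2 (x3_1 (x3_0 (s3_7 (s2_4 (s1_5 (s0_6 (n6 (n5 (n0 p470_54)))))))))))),
   x7_6 (x7_5 (x7_4 (x3_2 (x3_1 (x3_0 (s3_7 (s2_4 (s1_5 (s0_6 (n6 (n5 (n0 p466_54)))))))))))),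
   x7_6 (x7_5 (x7_4 (x3_2 (x3_1 (x3_0 (s3_7 (s2_4 (s1_5 (s0_6 (n6 (n5 (n0 p473_54)))))))))))),
   x7_6 (x7_5 (x7_4 (x3_2 (x3_1 (x3_0 (s3_7 (s2_4 (s1_5 (s0_6 (n6 (n5 (n0 p469_54)))))))))))),
   x7_6 (x7_5 (x7_4 (x3_2 (x3_1 (x3_0 (s3_7 (s2_4 (s1_5 (s0_6 (n6 (n5 (n0 p471_54)))))))))))),
   x7_6 (x7_5 (x7_4 (x3_2 (x3_1 (x3_0 (s3_7 (s2_4 (s1_5 (s0_6 (n6 (n5 (n0 p467_54))))))))))))],
  [tr p488_24,
   p480_41,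
   tr p490_24,
   p480_43,
   p480_44,
   tr p492_24,
   p480_46,
   tr p493_24],
  [p480_48,
   p480_49,
   p480_50,
   p480_51,
   p480_52,
   p480_53,
   p480_54,
   p480_55],
  [p480_56,
   tr p495_24,
   p480_58,
   tr p497_24,
   tr p498_24,
   p480_61,
   tr p499_24,
   p480_63]]

theorem k480 : eqNN c480 (slO 64 (D.chG 59 24) 8) = true := by decide +kernel

/-- The slices of the chunk 481. -/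
noncomputable def c481 : List (List ℕ) := [
  [tr p460_25,
   tr p461_25,
   tr p462_25,
   tr p463_25,
   tr p464_25,
   x7_6 (x7_5 (x7_4 (x3_2 (x3_1 (x3_0 (s3_7 (s2_4 (s1_5 (s0_6 (n6 (n5 p460_50))))))))))),
   tr p465_25,
   x7_6 (x7_5 (x7_4 (x3_2 (x3_1 (x3_0 (s3_7 (s2_4 (s1_5 (s0_6 (n6 (n5 p462_50)))))))))))],
  [tr p466_25,
   tr p467_25,
   tr p468_25,
   tr p469_25,
   tr p470_25,
   tr p471_25,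
   tr p472_25,
   tr p473_25],
  [tr p474_25,
   tr p475_25,
   tr p476_25,
   tr p477_25,
   x7_6 (x7_5 (x7_4 (x3_2 (x3_1 (x3_0 (s3_7 (s2_4 (s1_5 (s0_6 (n6 (n5 (n1 p475_50)))))))))))),
   tr p478_25,
   x7_6 (x7_5 (x7_4 (x3_2 (x3_1 (x3_0 (s3_7 (s2_4 (s1_5 (s0_6 (n6 (n5 (n1 p477_50)))))))))))),
   tr p479_25],
  [tr p480_25,
   p481_25,
   p481_26,
   p481_27,
   p481_28,
   p481_29,
   p481_30,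
   p481_31],
  [x7_6 (x7_5 (x7_4 (x3_2 (x3_1 (x3_0 (s3_7 (s2_4 (s1_5 (s0_6 (n6 (n5 (n0 p472_50)))))))))))),
   x7_6 (x7_5 (x7_4 (x3_2 (x3_1 (x3_0 (s3_7 (s2_4 (s1_5 (s0_6 (n6 (n5 (n0 p468_50)))))))))))),
   x7_6 (x7_5 (x7_4 (x3_2 (x3_1 (x3_0 (s3_7 (s2_4 (s1_5 (s0_6 (n6 (n5 (n0 p470_50)))))))))))),
   x7_6 (x7_5 (x7_4 (x3_2 (x3_1 (x3_0 (s3_7 (s2_4 (s1_5 (s0_6 (n6 (n5 (n0 p466_50)))))))))))),
   x7_6 (x7_5 (x7_4 (x3_2 (x3_1 (x3_0 (s3_7 (s2_4 (s1_5 (s0_6 (n6 (n5 (n0 p473_50)))))))))))),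
   x7_6 (x7_5 (x7_4 (x3_2 (x3_1 (x3_0 (s3_7 (s2_4 (s1_5 (s0_6 (n6 (n5 (n0 p469_50)))))))))))),
   x7_6 (x7_5 (x7_4 (x3_2 (x3_1 (x3_0 (s3_7 (s2_4 (s1_5 (s0_6 (n6 (n5 (n0 p471_50)))))))))))),
   x7_6 (x7_5 (x7_4 (x3_2 (x3_1 (x3_0 (s3_7 (s2_4 (s1_5 (s0_6 (n6 (n5 (n0 p467_50))))))))))))],
  [tr p488_25,
   p481_41,
   tr p490_25,
   p481_43,
   p481_44,
   tr p492_25,
   p481_46,
   tr p493_25],
  [p481_48,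
   p481_49,
   p481_50,
   p481_51,
   p481_52,
   p481_53,
   x7_6 (x7_5 (x7_4 (x3_2 (x3_1 (x3_0 (s3_7 (s2_4 (s1_5 (s0_6 (n6 (n5 (n1 (n0 p480_50))))))))))))),
   p481_55],
  [p481_56,
   tr p495_25,
   p481_58,
   tr p497_25,
   tr p498_25,
   p481_61,
   tr p499_25,
   p481_63]]

theorem k481 : eqNN c481 (slO 64 (D.chG 59 25) 8) = true := by decide +kernel

/-- The slices of the chunk 482. -/
noncomputable def c482 : List (List ℕ) := [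
  [tr p460_26,
   tr p461_26,
   tr p462_26,
   tr p463_26,
   tr p464_26,
   x7_6 (x7_5 (x7_4 (x3_2 (x3_1 (x3_0 (s3_7 (s2_4 (s1_5 (s0_6 (n6 (n5 p460_52))))))))))),
   tr p465_26,
   x7_6 (x7_5 (x7_4 (x3_2 (x3_1 (x3_0 (s3_7 (s2_4 (s1_5 (s0_6 (n6 (n5 p462_52)))))))))))],
  [tr p466_26,
   tr p467_26,
   tr p468_26,
   tr p469_26,
   tr p470_26,
   tr p471_26,
   tr p472_26,
   tr p473_26],
  [tr p474_26,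
   tr p475_26,
   tr p476_26,
   tr p477_26,
   x7_6 (x7_5 (x7_4 (x3_2 (x3_1 (x3_0 (s3_7 (s2_4 (s1_5 (s0_6 (n6 (n5 (n1 p475_52)))))))))))),
   tr p478_26,
   x7_6 (x7_5 (x7_4 (x3_2 (x3_1 (x3_0 (s3_7 (s2_4 (s1_5 (s0_6 (n6 (n5 (n1 p477_52)))))))))))),
   tr p479_26],
  [tr p480_26,
   tr p481_26,
   p482_26,
   p482_27,
   p482_28,
   p482_29,
   p482_30,
   p482_31],
  [x7_6 (x7_5 (x7_4 (x3_2 (x3_1 (x3_0 (s3_7 (s2_4 (s1_5 (s0_6 (n6 (n5 (n0 p472_52)))))))))))),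
   x7_6 (x7_5 (x7_4 (x3_2 (x3_1 (x3_0 (s3_7 (s2_4 (s1_5 (s0_6 (n6 (n5 (n0 p468_52)))))))))))),
   x7_6 (x7_5 (x7_4 (x3_2 (x3_1 (x3_0 (s3_7 (s2_4 (s1_5 (s0_6 (n6 (n5 (n0 p470_52)))))))))))),
   x7_6 (x7_5 (x7_4 (x3_2 (x3_1 (x3_0 (s3_7 (s2_4 (s1_5 (s0_6 (n6 (n5 (n0 p466_52)))))))))))),
   x7_6 (x7_5 (x7_4 (x3_2 (x3_1 (x3_0 (s3_7 (s2_4 (s1_5 (s0_6 (n6 (n5 (n0 p473_52)))))))))))),
   x7_6 (x7_5 (x7_4 (x3_2 (x3_1 (x3_0 (s3_7 (s2_4 (s1_5 (s0_6 (n6 (n5 (n0 p469_52)))))))))))),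
   x7_6 (x7_5 (x7_4 (x3_2 (x3_1 (x3_0 (s3_7 (s2_4 (s1_5 (s0_6 (n6 (n5 (n0 p471_52)))))))))))),
   x7_6 (x7_5 (x7_4 (x3_2 (x3_1 (x3_0 (s3_7 (s2_4 (s1_5 (s0_6 (n6 (n5 (n0 p467_52))))))))))))],
  [tr p488_26,
   p482_41,
   tr p490_26,
   p482_43,
   p482_44,
   tr p492_26,
   p482_46,
   tr p493_26],
  [p482_48,
   p482_49,
   x7_6 (x7_5 (x7_4 (x3_2 (x3_1 (x3_0 (s3_7 (s2_4 (s1_5 (s0_6 (n6 (n5 (n1 (n0 p481_52))))))))))))),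
   p482_51,
   p482_52,
   p482_53,
   x7_6 (x7_5 (x7_4 (x3_2 (x3_1 (x3_0 (s3_7 (s2_4 (s1_5 (s0_6 (n6 (n5 (n1 (n0 p480_52))))))))))))),
   p482_55],
  [p482_56,
   tr p495_26,
   p482_58,
   tr p497_26,
   tr p498_26,
   p482_61,
   tr p499_26,
   p482_63]]

theorem k482 : eqNN c482 (slO 64 (D.chG 59 26) 8) = true := by decide +kernel

/-- The slices of the chunk 483. -/
noncomputable def c483 : List (List ℕ) := [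
  [tr p460_27,
   tr p461_27,
   tr p462_27,
   tr p463_27,
   tr p464_27,
   x7_6 (x7_5 (x7_4 (x3_2 (x3_1 (x3_0 (s3_7 (s2_4 (s1_5 (s0_6 (n6 (n5 p460_48))))))))))),
   tr p465_27,
   x7_6 (x7_5 (x7_4 (x3_2 (x3_1 (x3_0 (s3_7 (s2_4 (s1_5 (s0_6 (n6 (n5 p462_48)))))))))))],
  [tr p466_27,
   tr p467_27,
   tr p468_27,
   tr p469_27,
   tr p470_27,
   tr p471_27,
   tr p472_27,
   tr p473_27],
  [tr p474_27,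
   tr p475_27,
   tr p476_27,
   tr p477_27,
   x7_6 (x7_5 (x7_4 (x3_2 (x3_1 (x3_0 (s3_7 (s2_4 (s1_5 (s0_6 (n6 (n5 (n1 p475_48)))))))))))),
   tr p478_27,
   x7_6 (x7_5 (x7_4 (x3_2 (x3_1 (x3_0 (s3_7 (s2_4 (s1_5 (s0_6 (n6 (n5 (n1 p477_48)))))))))))),
   tr p479_27],
  [tr p480_27,
   tr p481_27,
   tr p482_27,
   p483_27,
   p483_28,
   p483_29,
   p483_30,
   p483_31],
  [x7_6 (x7_5 (x7_4 (x3_2 (x3_1 (x3_0 (s3_7 (s2_4 (s1_5 (s0_6 (n6 (n5 (n0 p472_48)))))))))))),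
   x7_6 (x7_5 (x7_4 (x3_2 (x3_1 (x3_0 (s3_7 (s2_4 (s1_5 (s0_6 (n6 (n5 (n0 p468_48)))))))))))),
   x7_6 (x7_5 (x7_4 (x3_2 (x3_1 (x3_0 (s3_7 (s2_4 (s1_5 (s0_6 (n6 (n5 (n0 p470_48)))))))))))),
   x7_6 (x7_5 (x7_4 (x3_2 (x3_1 (x3_0 (s3_7 (s2_4 (s1_5 (s0_6 (n6 (n5 (n0 p466_48)))))))))))),
   x7_6 (x7_5 (x7_4 (x3_2 (x3_1 (x3_0 (s3_7 (s2_4 (s1_5 (s0_6 (n6 (n5 (n0 p473_48)))))))))))),
   x7_6 (x7_5 (x7_4 (x3_2 (x3_1 (x3_0 (s3_7 (s2_4 (s1_5 (s0_6 (n6 (n5 (n0 p469_48)))))))))))),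
   x7_6 (x7_5 (x7_4 (x3_2 (x3_1 (x3_0 (s3_7 (s2_4 (s1_5 (s0_6 (n6 (n5 (n0 p471_48)))))))))))),
   x7_6 (x7_5 (x7_4 (x3_2 (x3_1 (x3_0 (s3_7 (s2_4 (s1_5 (s0_6 (n6 (n5 (n0 p467_48))))))))))))],
  [tr p488_27,
   p483_41,
   tr p490_27,
   p483_43,
   p483_44,
   tr p492_27,
   p483_46,
   tr p493_27],
  [p483_48,
   p483_49,
   x7_6 (x7_5 (x7_4 (x3_2 (x3_1 (x3_0 (s3_7 (s2_4 (s1_5 (s0_6 (n6 (n5 (n1 (n0 p481_48))))))))))))),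
   p483_51,
   x7_6 (x7_5 (x7_4 (x3_2 (x3_1 (x3_0 (s3_7 (s2_4 (s1_5 (s0_6 (n6 (n5 (n1 (n0 p482_48))))))))))))),
   p483_53,
   x7_6 (x7_5 (x7_4 (x3_2 (x3_1 (x3_0 (s3_7 (s2_4 (s1_5 (s0_6 (n6 (n5 (n1 (n0 p480_48))))))))))))),
   p483_55],
  [p483_56,
   tr p495_27,
   p483_58,
   tr p497_27,
   tr p498_27,
   p483_61,
   tr p499_27,
   p483_63]]

theorem k483 : eqNN c483 (slO 64 (D.chG 59 27) 8) = true := by decide +kernel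

end Pool.Agent.Lib.MP_afdd4d_co.K10.E6
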