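import Pool.Agent.Lib.MP_afdd4d_co.K10.E6.Dat
import Pool.Agent.Lib.MP_afdd4d_co.K10.E6.Mk
import Pool.Agent.Lib.MP_afdd4d_co.K8.F6Bl5
import Pool.Agent.Lib.MP_afdd4d_co.K10.E6.P0
import Pool.Agent.Lib.MP_afdd4d_co.K10.E6.P1
import Pool.Agent.Lib.MP_afdd4d_co.K10.E6.P2
import Pool.Agent.Lib.MP_afdd4d_co.K10.E6.P3
import Pool.Agent.Lib.MP_afdd4d_co.K10.E6.P4
import Pool.Agent.Lib.MP_afdd4d_co.K10.E6.P5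
import Pool.Agent.Lib.MP_afdd4d_co.K10.E6.P6
import Pool.Agent.Lib.MP_afdd4d_co.K10.E6.P7
import Pool.Agent.Lib.MP_afdd4d_co.K10.E6.P8
import Pool.Agent.Lib.MP_afdd4d_co.K10.E6.P9
import Pool.Agent.Lib.MP_afdd4d_co.K10.E6.P10
import Pool.Agent.Lib.MP_afdd4d_co.K10.E6.P11
import Pool.Agent.Lib.MP_afdd4d_co.K10.E6.P12
import Pool.Agent.Lib.MP_afdd4d_co.K10.E6.P13
import Pool.Agent.Lib.MP_afdd4d_co.K10.E6.P14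
import Pool.Agent.Lib.MP_afdd4d_co.K10.E6.P15
import Pool.Agent.Lib.MP_afdd4d_co.K10.E6.P16
import Pool.Agent.Lib.MP_afdd4d_co.K10.E6.P17
import Pool.Agent.Lib.MP_afdd4d_co.K10.E6.P18
import Pool.Agent.Lib.MP_afdd4d_co.K10.E6.P19
import Pool.Agent.Lib.MP_afdd4d_co.K10.E6.P20
import Pool.Agent.Lib.MP_afdd4d_co.K10.E6.P21
import Pool.Agent.Lib.MP_afdd4d_co.K10.E6.P22
import Pool.Agent.Lib.MP_afdd4d_co.K10.E6.P23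
import Pool.Agent.Lib.MP_afdd4d_co.K10.E6.P24
import Pool.Agent.Lib.MP_afdd4d_co.K10.E6.P25
import Pool.Agent.Lib.MP_afdd4d_co.K10.E6.P26
import Pool.Agent.Lib.MP_afdd4d_co.K10.E6.P27
import Pool.Agent.Lib.MP_afdd4d_co.K10.E6.P28
import Pool.Agent.Lib.MP_afdd4d_co.K10.E6.P29
import Pool.Agent.Lib.MP_afdd4d_co.K10.E6.P30
import Pool.Agent.Lib.MP_afdd4d_co.K10.E6.P31
import Pool.Agent.Lib.MP_afdd4d_co.K10.E6.P32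

/-!
# Tables
-/

namespace Pool.Agent.Lib.MP_afdd4d_co.K10.E6

open K8

set_option maxRecDepth 100000
set_option exponentiation.threshold 10000000

/-- The slices of the chunk 500. -/
noncomputable def c500 : List (List ℕ) := [
  [p500_0,
   p500_1,
   s5_6 (s1_2 p500_1),
   p500_3,
   s4_6 (s0_2 p500_1),
   s4_5 (s0_1 p500_3),
   s4_6 (s0_2 p500_3),
   p500_7],
  [p500_8,
   p500_9,
   s5_6 (s1_2 p500_9),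
   x7_6 (x7_5 (x7_4 (x3_2 (x3_1 (x3_0 (n4 p500_8)))))),
   p500_12,
   p500_13,
   s5_6 (s1_2 p500_13),
   x7_6 (x7_5 (x7_4 (x3_2 (x3_1 (x3_0 (n4 p500_12))))))],
  [s4_5 (s0_1 p500_8),
   s4_5 (s0_1 p500_9),
   s4_5 (s0_1 p500_12),
   s4_5 (s0_1 p500_13),
   s5_6 (s4_6 (s1_2 (s0_2 p500_9))),
   x7_6 (x7_5 (x7_4 (s4_5 (x3_2 (x3_1 (x3_0 (s0_1 (n4 p500_8)))))))),
   s5_6 (s4_6 (s1_2 (s0_2 p500_13))),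
   x7_6 (x7_5 (x7_4 (s4_5 (x3_2 (x3_1 (x3_0 (s0_1 (n4 p500_12))))))))],
  [p500_24,
   p500_25,
   p500_26,
   p500_27,
   s4_5 (s0_1 p500_26),
   s4_5 (s0_1 p500_27),
   x7_6 (x7_5 (x7_4 (x3_2 (x3_1 (x3_0 (n5 (n4 p500_24))))))),
   x7_6 (x7_5 (x7_4 (x3_2 (x3_1 (x3_0 (n5 (n4 p500_25)))))))],
  [s4_6 (s0_2 p500_8),
   s4_6 (s0_2 p500_12),
   s5_6 (s4_5 (s1_2 (s0_1 p500_9))),
   s5_6 (s4_5 (s1_2 (s0_1 p500_13))),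
   s4_6 (s0_2 p500_9),
   s4_6 (s0_2 p500_13),
   x7_6 (x7_5 (x7_4 (s4_6 (x3_2 (x3_1 (x3_0 (s0_2 (n4 p500_8)))))))),
   x7_6 (x7_5 (x7_4 (s4_6 (x3_2 (x3_1 (x3_0 (s0_2 (n4 p500_12))))))))],
  [s5_6 (s1_2 p500_24),
   s5_6 (s1_2 p500_26),
   s5_6 (s1_2 p500_25),
   s5_6 (s1_2 p500_27),
   s5_6 (s4_5 (s1_2 (s0_1 p500_26))),
   x7_6 (x7_5 (x7_4 (s5_6 (x3_2 (x3_1 (x3_0 (s1_2 (n5 (n4 p500_24))))))))),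
   s5_6 (s4_5 (s1_2 (s0_1 p500_27))),
   x7_6 (x7_5 (x7_4 (s5_6 (x3_2 (x3_1 (x3_0 (s1_2 (n5 (n4 p500_25)))))))))],
  [s4_6 (s0_2 p500_24),
   s5_6 (s4_6 (s1_2 (s0_2 p500_26))),
   s4_6 (s0_2 p500_26),
   x7_6 (x7_5 (x7_4 (s4_6 (x3_2 (x3_1 (x3_0 (s0_2 (n5 (n4 p500_24))))))))),
   s4_6 (s0_2 p500_25),
   s5_6 (s4_6 (s1_2 (s0_2 p500_27))),
   s4_6 (s0_2 p500_27),
   x7_6 (x7_5 (x7_4 (s4_6 (x3_2 (x3_1 (x3_0 (s0_2 (n5 (n4 p500_25)))))))))],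
  [p500_56,
   p500_57,
   s5_6 (s1_2 p500_57),
   p500_59,
   s4_6 (s0_2 p500_57),
   s4_5 (s0_1 p500_59),
   s4_6 (s0_2 p500_59),
   p500_63]]

theorem k500 : eqNN c500 (slO 64 (D.chG 112 0) 8) = true := by decide +kernel

/-- The slices of the chunk 501. -/
noncomputable def c501 : List (List ℕ) := [
  [tr p500_1,
   p501_1,
   p501_2,
   p501_3,
   s4_5 (s0_1 p501_2),
   s4_5 (s0_1 p501_3),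
   p501_6,
   tr p503_1],
  [p501_8,
   p501_9,
   x7_6 (x7_5 (x7_4 (x3_2 (x3_1 (x3_0 (n4 p501_9)))))),
   x7_6 (x7_5 (x7_4 (x3_2 (x3_1 (x3_0 (n4 p501_8)))))),
   p501_12,
   p501_13,
   x7_6 (x7_5 (x7_4 (x3_2 (x3_1 (x3_0 (n4 p501_13)))))),
   x7_6 (x7_5 (x7_4 (x3_2 (x3_1 (x3_0 (n4 p501_12))))))],
  [s4_5 (s0_1 p501_8),
   s4_5 (s0_1 p501_9),
   s4_5 (s0_1 p501_12),
   s4_5 (s0_1 p501_13),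
   x7_6 (x7_5 (x7_4 (s4_5 (x3_2 (x3_1 (x3_0 (s0_1 (n4 p501_9)))))))),
   x7_6 (x7_5 (x7_4 (s4_5 (x3_2 (x3_1 (x3_0 (s0_1 (n4 p501_8)))))))),
   x7_6 (x7_5 (x7_4 (s4_5 (x3_2 (x3_1 (x3_0 (s0_1 (n4 p501_13)))))))),
   x7_6 (x7_5 (x7_4 (s4_5 (x3_2 (x3_1 (x3_0 (s0_1 (n4 p501_12))))))))],
  [p501_24,
   p501_25,
   p501_26,
   p501_27,
   s4_5 (s0_1 p501_26),
   s4_5 (s0_1 p501_27),
   x7_6 (x7_5 (x7_4 (x3_2 (x3_1 (x3_0 (n5 (n4 p501_24))))))),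
   x7_6 (x7_5 (x7_4 (x3_2 (x3_1 (x3_0 (n5 (n4 p501_25)))))))],
  [p501_32,
   p501_33,
   s4_5 (s0_1 p501_36),
   s4_5 (s0_1 p501_37),
   p501_36,
   p501_37,
   x7_6 (x7_5 (x7_4 (x3_2 (x3_1 (x3_0 (n6 p501_32)))))),
   x7_6 (x7_5 (x7_4 (x3_2 (x3_1 (x3_0 (n6 p501_33))))))],
  [p501_40,
   p501_41,
   p501_42,
   p501_43,
   x7_6 (x7_5 (x7_4 (x3_2 (x3_1 (x3_0 (n6 (n4 p501_41))))))),
   x7_6 (x7_5 (x7_4 (x3_2 (x3_1 (x3_0 (n6 (n4 p501_40))))))),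
   x7_6 (x7_5 (x7_4 (x3_2 (x3_1 (x3_0 (n6 (n4 p501_43))))))),
   x7_6 (x7_5 (x7_4 (x3_2 (x3_1 (x3_0 (n6 (n4 p501_42)))))))],
  [s4_5 (s0_1 p501_40),
   s4_5 (s0_1 p501_41),
   x7_6 (x7_5 (x7_4 (s4_5 (x3_2 (x3_1 (x3_0 (s0_1 (n6 (n4 p501_41))))))))),
   x7_6 (x7_5 (x7_4 (s4_5 (x3_2 (x3_1 (x3_0 (s0_1 (n6 (n4 p501_40))))))))),
   s4_5 (s0_1 p501_42),
   s4_5 (s0_1 p501_43),
   x7_6 (x7_5 (x7_4 (s4_5 (x3_2 (x3_1 (x3_0 (s0_1 (n6 (n4 p501_43))))))))),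
   x7_6 (x7_5 (x7_4 (s4_5 (x3_2 (x3_1 (x3_0 (s0_1 (n6 (n4 p501_42)))))))))],
  [tr p512_1,
   p501_57,
   p501_58,
   p501_59,
   s4_5 (s0_1 p501_58),
   s4_5 (s0_1 p501_59),
   p501_62,
   tr p515_1]]

theorem k501 : eqNN c501 (slO 64 (D.chG 112 1) 8) = true := by decide +kernel

/-- The slices of the chunk 502. -/
noncomputable def c502 : List (List ℕ) := [
  [tr p500_3,
   tr p501_3,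
   s3_7 (s2_5 (s1_6 (s0_4 p501_3))),
   p502_3,
   s3_7 (s2_4 (s1_5 (s0_6 p501_6))),
   p502_5,
   s5_6 (s1_2 p502_5),
   tr p503_3],
  [p502_8,
   p502_9,
   s5_6 (s1_2 p502_9),
   x7_6 (x7_5 (x7_4 (x3_2 (x3_1 (x3_0 (n4 p502_8)))))),
   p502_12,
   p502_13,
   s5_6 (s1_2 p502_13),
   x7_6 (x7_5 (x7_4 (x3_2 (x3_1 (x3_0 (n4 p502_12))))))],
  [p502_16,
   p502_17,
   p502_18,
   p502_19,
   x7_6 (x7_5 (x7_4 (x3_2 (x3_1 (x3_0 (n5 p502_17)))))),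
   x7_6 (x7_5 (x7_4 (x3_2 (x3_1 (x3_0 (n5 p502_16)))))),
   x7_6 (x7_5 (x7_4 (x3_2 (x3_1 (x3_0 (n5 p502_19)))))),
   x7_6 (x7_5 (x7_4 (x3_2 (x3_1 (x3_0 (n5 p502_18))))))],
  [p502_24,
   p502_25,
   p502_26,
   p502_27,
   x7_6 (x7_5 (x7_4 (x3_2 (x3_1 (x3_0 (n5 (n4 p502_26))))))),
   x7_6 (x7_5 (x7_4 (x3_2 (x3_1 (x3_0 (n5 (n4 p502_27))))))),
   x7_6 (x7_5 (x7_4 (x3_2 (x3_1 (x3_0 (n5 (n4 p502_24))))))),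
   x7_6 (x7_5 (x7_4 (x3_2 (x3_1 (x3_0 (n5 (n4 p502_25)))))))],
  [s5_6 (s1_2 p502_16),
   s5_6 (s1_2 p502_18),
   s5_6 (s1_2 p502_17),
   s5_6 (s1_2 p502_19),
   x7_6 (x7_5 (x7_4 (s5_6 (x3_2 (x3_1 (x3_0 (s1_2 (n5 p502_17)))))))),
   x7_6 (x7_5 (x7_4 (s5_6 (x3_2 (x3_1 (x3_0 (s1_2 (n5 p502_19)))))))),
   x7_6 (x7_5 (x7_4 (s5_6 (x3_2 (x3_1 (x3_0 (s1_2 (n5 p502_16)))))))),
   x7_6 (x7_5 (x7_4 (s5_6 (x3_2 (x3_1 (x3_0 (s1_2 (n5 p502_18))))))))],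
  [s5_6 (s1_2 p502_24),
   s5_6 (s1_2 p502_26),
   s5_6 (s1_2 p502_25),
   s5_6 (s1_2 p502_27),
   x7_6 (x7_5 (x7_4 (s5_6 (x3_2 (x3_1 (x3_0 (s1_2 (n5 (n4 p502_26))))))))),
   x7_6 (x7_5 (x7_4 (s5_6 (x3_2 (x3_1 (x3_0 (s1_2 (n5 (n4 p502_24))))))))),
   x7_6 (x7_5 (x7_4 (s5_6 (x3_2 (x3_1 (x3_0 (s1_2 (n5 (n4 p502_27))))))))),
   x7_6 (x7_5 (x7_4 (s5_6 (x3_2 (x3_1 (x3_0 (s1_2 (n5 (n4 p502_25)))))))))],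
  [p502_48,
   s5_6 (s1_2 p502_50),
   p502_50,
   x7_6 (x7_5 (x7_4 (x3_2 (x3_1 (x3_0 (n6 (n5 p502_48))))))),
   p502_52,
   s5_6 (s1_2 p502_54),
   p502_54,
   x7_6 (x7_5 (x7_4 (x3_2 (x3_1 (x3_0 (n6 (n5 p502_52)))))))],
  [tr p512_3,
   p502_57,
   s5_6 (s1_2 p502_57),
   p502_59,
   p502_60,
   p502_61,
   s5_6 (s1_2 p502_61),
   tr p515_3]]

theorem k502 : eqNN c502 (slO 64 (D.chG 112 3) 8) = true := by decide +kernel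

/-- The slices of the chunk 503. -/
noncomputable def c503 : List (List ℕ) := [
  [tr p500_7,
   p503_1,
   s5_6 (s1_2 p503_1),
   p503_3,
   s4_6 (s0_2 p503_1),
   s4_5 (s0_1 p503_3),
   s4_6 (s0_2 p503_3),
   p503_7],
  [p503_8,
   p503_9,
   s5_6 (s1_2 p503_9),
   x7_6 (x7_5 (x7_4 (x3_2 (x3_1 (x3_0 (n4 p503_8)))))),
   p503_12,
   p503_13,
   s5_6 (s1_2 p503_13),
   x7_6 (x7_5 (x7_4 (x3_2 (x3_1 (x3_0 (n4 p503_12))))))],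
  [s4_5 (s0_1 p503_8),
   s4_5 (s0_1 p503_9),
   s4_5 (s0_1 p503_12),
   s4_5 (s0_1 p503_13),
   s5_6 (s4_6 (s1_2 (s0_2 p503_9))),
   x7_6 (x7_5 (x7_4 (s4_5 (x3_2 (x3_1 (x3_0 (s0_1 (n4 p503_8)))))))),
   s5_6 (s4_6 (s1_2 (s0_2 p503_13))),
   x7_6 (x7_5 (x7_4 (s4_5 (x3_2 (x3_1 (x3_0 (s0_1 (n4 p503_12))))))))],
  [p503_24,
   p503_25,
   p503_26,
   p503_27,
   s4_5 (s0_1 p503_26),
   s4_5 (s0_1 p503_27),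
   x7_6 (x7_5 (x7_4 (x3_2 (x3_1 (x3_0 (n5 (n4 p503_24))))))),
   x7_6 (x7_5 (x7_4 (x3_2 (x3_1 (x3_0 (n5 (n4 p503_25)))))))],
  [s4_6 (s0_2 p503_8),
   s4_6 (s0_2 p503_12),
   s5_6 (s4_5 (s1_2 (s0_1 p503_9))),
   s5_6 (s4_5 (s1_2 (s0_1 p503_13))),
   s4_6 (s0_2 p503_9),
   s4_6 (s0_2 p503_13),
   x7_6 (x7_5 (x7_4 (s4_6 (x3_2 (x3_1 (x3_0 (s0_2 (n4 p503_8)))))))),
   x7_6 (x7_5 (x7_4 (s4_6 (x3_2 (x3_1 (x3_0 (s0_2 (n4 p503_12))))))))],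
  [s5_6 (s1_2 p503_24),
   s5_6 (s1_2 p503_26),
   s5_6 (s1_2 p503_25),
   s5_6 (s1_2 p503_27),
   s5_6 (s4_5 (s1_2 (s0_1 p503_26))),
   x7_6 (x7_5 (x7_4 (s5_6 (x3_2 (x3_1 (x3_0 (s1_2 (n5 (n4 p503_24))))))))),
   s5_6 (s4_5 (s1_2 (s0_1 p503_27))),
   x7_6 (x7_5 (x7_4 (s5_6 (x3_2 (x3_1 (x3_0 (s1_2 (n5 (n4 p503_25)))))))))],
  [s4_6 (s0_2 p503_24),
   s5_6 (s4_6 (s1_2 (s0_2 p503_26))),
   s4_6 (s0_2 p503_26),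
   x7_6 (x7_5 (x7_4 (s4_6 (x3_2 (x3_1 (x3_0 (s0_2 (n5 (n4 p503_24))))))))),
   s4_6 (s0_2 p503_25),
   s5_6 (s4_6 (s1_2 (s0_2 p503_27))),
   s4_6 (s0_2 p503_27),
   x7_6 (x7_5 (x7_4 (s4_6 (x3_2 (x3_1 (x3_0 (s0_2 (n5 (n4 p503_25)))))))))],
  [p503_56,
   p503_57,
   s5_6 (s1_2 p503_57),
   p503_59,
   s4_6 (s0_2 p503_57),
   s4_5 (s0_1 p503_59),
   s4_6 (s0_2 p503_59),
   p503_63]]

theorem k503 : eqNN c503 (slO 64 (D.chG 112 7) 8) = true := by decide +kernel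

end Pool.Agent.Lib.MP_afdd4d_co.K10.E6
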