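import Pool.Agent.Lib.MP_afdd4d_co.K10.E6.Dat
import Pool.Agent.Lib.MP_afdd4d_co.K10.E6.Mk
import Pool.Agent.Lib.MP_afdd4d_co.K8.F6Bl5
import Pool.Agent.Lib.MP_afdd4d_co.K10.E6.P0
import Pool.Agent.Lib.MP_afdd4d_co.K10.E6.P1
import Pool.Agent.Lib.MP_afdd4d_co.K10.E6.P2
import Pool.Agent.Lib.MP_afdd4d_co.K10.E6.P3
import Pool.Agent.Lib.MP_afdd4d_co.K10.E6.P4
import Pool.Agent.Lib.MP_afdd4d_co.K10.E6.P5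
import Pool.Agent.Lib.MP_afdd4d_co.K10.E6.P6
import Pool.Agent.Lib.MP_afdd4d_co.K10.E6.P7
import Pool.Agent.Lib.MP_afdd4d_co.K10.E6.P8
import Pool.Agent.Lib.MP_afdd4d_co.K10.E6.P9
import Pool.Agent.Lib.MP_afdd4d_co.K10.E6.P10
import Pool.Agent.Lib.MP_afdd4d_co.K10.E6.P11
import Pool.Agent.Lib.MP_afdd4d_co.K10.E6.P12
import Pool.Agent.Lib.MP_afdd4d_co.K10.E6.P13
import Pool.Agent.Lib.MP_afdd4d_co.K10.E6.P14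
import Pool.Agent.Lib.MP_afdd4d_co.K10.E6.P15
import Pool.Agent.Lib.MP_afdd4d_co.K10.E6.P16
import Pool.Agent.Lib.MP_afdd4d_co.K10.E6.P17
import Pool.Agent.Lib.MP_afdd4d_co.K10.E6.P18
import Pool.Agent.Lib.MP_afdd4d_co.K10.E6.P19
import Pool.Agent.Lib.MP_afdd4d_co.K10.E6.P20
import Pool.Agent.Lib.MP_afdd4d_co.K10.E6.P21
import Pool.Agent.Lib.MP_afdd4d_co.K10.E6.P22
import Pool.Agent.Lib.MP_afdd4d_co.K10.E6.P23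
import Pool.Agent.Lib.MP_afdd4d_co.K10.E6.P24
import Pool.Agent.Lib.MP_afdd4d_co.K10.E6.P25
import Pool.Agent.Lib.MP_afdd4d_co.K10.E6.P26
import Pool.Agent.Lib.MP_afdd4d_co.K10.E6.P27
import Pool.Agent.Lib.MP_afdd4d_co.K10.E6.P28
import Pool.Agent.Lib.MP_afdd4d_co.K10.E6.P29
import Pool.Agent.Lib.MP_afdd4d_co.K10.E6.P30
import Pool.Agent.Lib.MP_afdd4d_co.K10.E6.P31
import Pool.Agent.Lib.MP_afdd4d_co.K10.E6.P32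

/-!
# Tables
-/

namespace Pool.Agent.Lib.MP_afdd4d_co.K10.E6

open K8

set_option maxRecDepth 100000
set_option exponentiation.threshold 10000000

/-- The slices of the chunk 504. -/
noncomputable def c504 : List (List ℕ) := [
  [tr p500_8,
   tr p501_8,
   s3_7 (s2_5 (s1_6 (s0_4 p501_8))),
   tr p502_8,
   s3_7 (s2_4 (s1_5 (s0_6 p501_32))),
   s3_7 (s2_6 (s1_4 (s0_5 p502_16))),
   s5_6 (s4_6 (s3_7 (s2_4 (s1_6 (s0_5 p502_16))))),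
   tr p503_8],
  [p504_8,
   p504_9,
   s5_6 (s1_2 p504_9),
   p504_11,
   p504_12,
   p504_13,
   s5_6 (s1_2 p504_13),
   p504_15],
  [p504_16,
   p504_17,
   p504_18,
   p504_19,
   p504_20,
   p504_21,
   p504_22,
   p504_23],
  [p504_24,
   p504_25,
   p504_26,
   p504_27,
   p504_28,
   p504_29,
   p504_30,
   p504_31],
  [s5_6 (s1_2 p504_16),
   s5_6 (s1_2 p504_18),
   s5_6 (s1_2 p504_17),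
   s5_6 (s1_2 p504_19),
   s5_6 (s1_2 p504_20),
   s5_6 (s1_2 p504_22),
   s5_6 (s1_2 p504_21),
   s5_6 (s1_2 p504_23)],
  [s5_6 (s1_2 p504_24),
   s5_6 (s1_2 p504_26),
   s5_6 (s1_2 p504_25),
   s5_6 (s1_2 p504_27),
   s5_6 (s1_2 p504_28),
   s5_6 (s1_2 p504_30),
   s5_6 (s1_2 p504_29),
   s5_6 (s1_2 p504_31)],
  [p504_48,
   p504_49,
   s5_6 (s1_2 p504_49),
   p504_51,
   p504_52,
   p504_53,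
   s5_6 (s1_2 p504_53),
   p504_55],
  [tr p512_8,
   tr p513_8,
   s3_7 (s2_5 (s1_6 (s0_4 p513_8))),
   tr p514_8,
   s3_7 (s2_4 (s1_5 (s0_6 p513_32))),
   s3_7 (s2_6 (s1_4 (s0_5 p514_16))),
   s5_6 (s4_6 (s3_7 (s2_4 (s1_6 (s0_5 p514_16))))),
   tr p515_8]]

theorem k504 : eqNN c504 (slO 64 (D.chG 112 8) 8) = true := by decide +kernel

/-- The slices of the chunk 505. -/
noncomputable def c505 : List (List ℕ) := [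
  [tr p500_9,
   tr p501_9,
   x7_6 (x7_5 (x7_4 (x3_2 (x3_1 (x3_0 (s3_7 (s2_5 (s1_6 (s0_4 (n4 p501_9)))))))))),
   tr p502_9,
   s3_7 (s2_4 (s1_5 (s0_6 p501_36))),
   s3_7 (s2_6 (s1_4 (s0_5 p502_17))),
   x7_6 (x7_5 (x7_4 (s5_6 (s4_6 (x3_2 (x3_1 (x3_0 (s3_7 (s2_4 (s1_6 (s0_5 (n5 p502_17)))))))))))),
   tr p503_9],
  [tr p504_9,
   p505_9,
   p505_10,
   x7_6 (x7_5 (x7_4 (x3_2 (x3_1 (x3_0 (s3_7 (s2_5 (s1_6 (s0_4 (n4 (n0 p504_9))))))))))),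
   p505_12,
   p505_13,
   p505_14,
   x7_6 (x7_5 (x7_4 (s5_6 (x3_2 (x3_1 (x3_0 (s1_2 (n4 (n0 p505_12)))))))))],
  [s3_7 (s2_6 (s1_4 (s0_5 p504_17))),
   p505_17,
   p505_18,
   p505_19,
   p505_20,
   x7_6 (x7_5 (x7_4 (x3_2 (x3_1 (x3_0 (s3_7 (s2_6 (s1_4 (s0_5 (n5 (n0 p504_20))))))))))),
   p505_22,
   x7_6 (x7_5 (x7_4 (s5_6 (x3_2 (x3_1 (x3_0 (s1_2 (n6 (n0 p505_33)))))))))],
  [p505_24,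
   p505_25,
   p505_26,
   p505_27,
   p505_28,
   p505_29,
   x7_6 (x7_5 (x7_4 (x3_2 (x3_1 (x3_0 (tr (n4 (n1 (n0 p508_10))))))))),
   x7_6 (x7_5 (x7_4 (x3_2 (x3_1 (x3_0 (tr (n4 (n1 (n0 p509_10)))))))))],
  [s5_6 (s4_6 (s3_7 (s2_4 (s1_6 (s0_5 p504_20))))),
   p505_33,
   s5_6 (s4_6 (s3_7 (s2_4 (s1_6 (s0_5 p505_20))))),
   x7_6 (x7_5 (x7_4 (s5_6 (x3_2 (x3_1 (x3_0 (s1_2 (n5 (n0 p505_22))))))))),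
   x7_6 (x7_5 (x7_4 (s5_6 (x3_2 (x3_1 (x3_0 (s1_2 (n5 (n0 p505_17))))))))),
   x7_6 (x7_5 (x7_4 (s5_6 (x3_2 (x3_1 (x3_0 (s1_2 (n5 (n0 p505_19))))))))),
   x7_6 (x7_5 (x7_4 (s5_6 (s4_6 (x3_2 (x3_1 (x3_0 (s3_7 (s2_4 (s1_6 (s0_5 (n5 (n0 p504_17))))))))))))),
   x7_6 (x7_5 (x7_4 (s5_6 (x3_2 (x3_1 (x3_0 (s1_2 (n5 (n0 p505_18)))))))))],
  [s3_7 (s2_5 (s1_6 (s0_4 p508_10))),
   x7_6 (x7_5 (x7_4 (s5_6 (x3_2 (x3_1 (x3_0 (s1_2 (n5 (n4 (n0 p505_28)))))))))),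
   s3_7 (s2_5 (s1_6 (s0_4 p509_10))),
   x7_6 (x7_5 (x7_4 (s5_6 (x3_2 (x3_1 (x3_0 (s1_2 (n5 (n4 (n0 p505_29)))))))))),
   x7_6 (x7_5 (x7_4 (s5_6 (x3_2 (x3_1 (x3_0 (s1_2 (n5 (n4 (n0 p505_26)))))))))),
   x7_6 (x7_5 (x7_4 (s5_6 (x3_2 (x3_1 (x3_0 (s1_2 (n5 (n4 (n0 p505_24)))))))))),
   x7_6 (x7_5 (x7_4 (s5_6 (x3_2 (x3_1 (x3_0 (s1_2 (n5 (n4 (n0 p505_27)))))))))),
   x7_6 (x7_5 (x7_4 (s5_6 (x3_2 (x3_1 (x3_0 (s1_2 (n5 (n4 (n0 p505_25))))))))))],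
  [p505_48,
   p505_49,
   p505_50,
   x7_6 (x7_5 (x7_4 (s5_6 (x3_2 (x3_1 (x3_0 (s1_2 (n6 (n5 (n0 p505_48)))))))))),
   p505_52,
   p505_53,
   p505_54,
   x7_6 (x7_5 (x7_4 (s5_6 (x3_2 (x3_1 (x3_0 (s1_2 (n6 (n5 (n0 p505_52))))))))))],
  [tr p512_9,
   tr p513_9,
   x7_6 (x7_5 (x7_4 (x3_2 (x3_1 (x3_0 (s3_7 (s2_5 (s1_6 (s0_4 (n4 (n2 (n1 (n0 p513_9))))))))))))),
   tr p514_9,
   s3_7 (s2_4 (s1_5 (s0_6 p513_36))),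
   s3_7 (s2_6 (s1_4 (s0_5 p514_17))),
   x7_6 (x7_5 (x7_4 (s5_6 (s4_6 (x3_2 (x3_1 (x3_0 (s3_7 (s2_4 (s1_6 (s0_5 (n5 (n2 (n1 (n0 p514_17))))))))))))))),
   tr p515_9]]

theorem k505 : eqNN c505 (slO 64 (D.chG 112 9) 8) = true := by decide +kernel

/-- The slices of the chunk 506. -/
noncomputable def c506 : List (List ℕ) := [
  [tr p500_12,
   tr p501_12,
   s3_7 (s2_5 (s1_6 (s0_4 p501_12))),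
   tr p502_12,
   s3_7 (s2_4 (s1_5 (s0_6 p501_33))),
   s3_7 (s2_6 (s1_4 (s0_5 p502_18))),
   s5_6 (s4_6 (s3_7 (s2_4 (s1_6 (s0_5 p502_18))))),
   tr p503_12],
  [tr p504_12,
   tr p505_12,
   s3_7 (s2_5 (s1_6 (s0_4 p505_12))),
   x7_6 (x7_5 (x7_4 (x3_2 (x3_1 (x3_0 (tr (n4 (n0 p504_15)))))))),
   p506_12,
   p506_13,
   s5_6 (s1_2 p506_13),
   p506_15],
  [s3_7 (s2_6 (s1_4 (s0_5 p504_18))),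
   s3_7 (s2_6 (s1_4 (s0_5 p505_18))),
   p506_18,
   p506_19,
   s5_6 (s4_5 (s3_7 (s2_5 (s1_4 (s0_6 p505_33))))),
   x7_6 (x7_5 (x7_4 (x3_2 (x3_1 (x3_0 (s3_7 (s2_6 (s1_4 (s0_5 (n5 (n0 p504_23))))))))))),
   p506_22,
   p506_23],
  [p506_24,
   p506_25,
   p506_26,
   p506_27,
   p506_28,
   p506_29,
   p506_30,
   p506_31],
  [s5_6 (s4_6 (s3_7 (s2_4 (s1_6 (s0_5 p504_18))))),
   s5_6 (s1_2 p506_18),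
   s5_6 (s4_6 (s3_7 (s2_4 (s1_6 (s0_5 p505_18))))),
   s5_6 (s1_2 p506_19),
   s3_7 (s2_4 (s1_5 (s0_6 p505_33))),
   s5_6 (s1_2 p506_22),
   x7_6 (x7_5 (x7_4 (s5_6 (s4_6 (x3_2 (x3_1 (x3_0 (s3_7 (s2_4 (s1_6 (s0_5 (n5 (n0 p504_23))))))))))))),
   s5_6 (s1_2 p506_23)],
  [s5_6 (s1_2 p506_24),
   s5_6 (s1_2 p506_26),
   s5_6 (s1_2 p506_25),
   s5_6 (s1_2 p506_27),
   s5_6 (s1_2 p506_28),
   s5_6 (s1_2 p506_30),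
   s5_6 (s1_2 p506_29),
   s5_6 (s1_2 p506_31)],
  [p506_48,
   p506_49,
   s5_6 (s1_2 p506_49),
   p506_51,
   p506_52,
   p506_53,
   s5_6 (s1_2 p506_53),
   p506_55],
  [tr p512_12,
   tr p513_12,
   s3_7 (s2_5 (s1_6 (s0_4 p513_12))),
   tr p514_12,
   s3_7 (s2_4 (s1_5 (s0_6 p513_33))),
   s3_7 (s2_6 (s1_4 (s0_5 p514_18))),
   s5_6 (s4_6 (s3_7 (s2_4 (s1_6 (s0_5 p514_18))))),
   tr p515_12]]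

theorem k506 : eqNN c506 (slO 64 (D.chG 112 12) 8) = true := by decide +kernel

/-- The slices of the chunk 507. -/
noncomputable def c507 : List (List ℕ) := [
  [tr p500_13,
   tr p501_13,
   x7_6 (x7_5 (x7_4 (x3_2 (x3_1 (x3_0 (s3_7 (s2_5 (s1_6 (s0_4 (n4 p501_13)))))))))),
   tr p502_13,
   s3_7 (s2_4 (s1_5 (s0_6 p501_37))),
   s3_7 (s2_6 (s1_4 (s0_5 p502_19))),
   x7_6 (x7_5 (x7_4 (s5_6 (s4_6 (x3_2 (x3_1 (x3_0 (s3_7 (s2_4 (s1_6 (s0_5 (n5 p502_19)))))))))))),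
   tr p503_13],
  [tr p504_13,
   tr p505_13,
   s3_7 (s2_5 (s1_6 (s0_4 p505_14))),
   x7_6 (x7_5 (x7_4 (x3_2 (x3_1 (x3_0 (s3_7 (s2_5 (s1_6 (s0_4 (n4 (n0 p504_13))))))))))),
   tr p506_13,
   p507_13,
   p507_14,
   x7_6 (x7_5 (x7_4 (x3_2 (x3_1 (x3_0 (s3_7 (s2_5 (s1_6 (s0_4 (n4 (n0 p506_13)))))))))))],
  [s3_7 (s2_6 (s1_4 (s0_5 p504_19))),
   s3_7 (s2_6 (s1_4 (s0_5 p505_19))),
   s3_7 (s2_6 (s1_4 (s0_5 p506_19))),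
   p507_19,
   x7_6 (x7_5 (x7_4 (x3_2 (x3_1 (x3_0 (s3_7 (s2_6 (s1_4 (s0_5 (n5 (n0 p505_22))))))))))),
   x7_6 (x7_5 (x7_4 (x3_2 (x3_1 (x3_0 (s3_7 (s2_6 (s1_4 (s0_5 (n5 (n0 p504_22))))))))))),
   p507_22,
   x7_6 (x7_5 (x7_4 (x3_2 (x3_1 (x3_0 (s3_7 (s2_6 (s1_4 (s0_5 (n5 (n0 p506_22)))))))))))],
  [p507_24,
   p507_25,
   p507_26,
   p507_27,
   p507_28,
   p507_29,
   x7_6 (x7_5 (x7_4 (x3_2 (x3_1 (x3_0 (tr (n4 (n1 (n0 p508_14))))))))),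
   x7_6 (x7_5 (x7_4 (x3_2 (x3_1 (x3_0 (tr (n4 (n1 (n0 p509_14)))))))))],
  [s5_6 (s4_6 (s3_7 (s2_4 (s1_6 (s0_5 p504_22))))),
   s5_6 (s4_6 (s3_7 (s2_4 (s1_6 (s0_5 p506_22))))),
   s5_6 (s4_6 (s3_7 (s2_4 (s1_6 (s0_5 p505_22))))),
   s5_6 (s4_6 (s3_7 (s2_4 (s1_6 (s0_5 p507_22))))),
   x7_6 (x7_5 (x7_4 (s5_6 (s4_6 (x3_2 (x3_1 (x3_0 (s3_7 (s2_4 (s1_6 (s0_5 (n5 (n0 p505_19))))))))))))),
   x7_6 (x7_5 (x7_4 (s5_6 (x3_2 (x3_1 (x3_0 (s1_2 (n5 (n0 p507_19))))))))),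
   x7_6 (x7_5 (x7_4 (s5_6 (s4_6 (x3_2 (x3_1 (x3_0 (s3_7 (s2_4 (s1_6 (s0_5 (n5 (n0 p504_19))))))))))))),
   x7_6 (x7_5 (x7_4 (s5_6 (s4_6 (x3_2 (x3_1 (x3_0 (s3_7 (s2_4 (s1_6 (s0_5 (n5 (n0 p506_19)))))))))))))],
  [s3_7 (s2_5 (s1_6 (s0_4 p508_14))),
   x7_6 (x7_5 (x7_4 (s5_6 (x3_2 (x3_1 (x3_0 (s1_2 (n5 (n4 (n0 p507_28)))))))))),
   s3_7 (s2_5 (s1_6 (s0_4 p509_14))),
   x7_6 (x7_5 (x7_4 (s5_6 (x3_2 (x3_1 (x3_0 (s1_2 (n5 (n4 (n0 p507_29)))))))))),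
   x7_6 (x7_5 (x7_4 (s5_6 (x3_2 (x3_1 (x3_0 (s1_2 (n5 (n4 (n0 p507_26)))))))))),
   x7_6 (x7_5 (x7_4 (s5_6 (x3_2 (x3_1 (x3_0 (s1_2 (n5 (n4 (n0 p507_24)))))))))),
   x7_6 (x7_5 (x7_4 (s5_6 (x3_2 (x3_1 (x3_0 (s1_2 (n5 (n4 (n0 p507_27)))))))))),
   x7_6 (x7_5 (x7_4 (s5_6 (x3_2 (x3_1 (x3_0 (s1_2 (n5 (n4 (n0 p507_25))))))))))],
  [p507_48,
   p507_49,
   p507_50,
   x7_6 (x7_5 (x7_4 (s5_6 (x3_2 (x3_1 (x3_0 (s1_2 (n6 (n5 (n0 p507_48)))))))))),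
   p507_52,
   p507_53,
   p507_54,
   x7_6 (x7_5 (x7_4 (s5_6 (x3_2 (x3_1 (x3_0 (s1_2 (n6 (n5 (n0 p507_52))))))))))],
  [tr p512_13,
   tr p513_13,
   x7_6 (x7_5 (x7_4 (x3_2 (x3_1 (x3_0 (s3_7 (s2_5 (s1_6 (s0_4 (n4 (n2 (n1 (n0 p513_13))))))))))))),
   tr p514_13,
   s3_7 (s2_4 (s1_5 (s0_6 p513_37))),
   s3_7 (s2_6 (s1_4 (s0_5 p514_19))),
   x7_6 (x7_5 (x7_4 (s5_6 (s4_6 (x3_2 (x3_1 (x3_0 (s3_7 (s2_4 (s1_6 (s0_5 (n5 (n2 (n1 (n0 p514_19))))))))))))))),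
   tr p515_13]]

theorem k507 : eqNN c507 (slO 64 (D.chG 112 13) 8) = true := by decide +kernel

end Pool.Agent.Lib.MP_afdd4d_co.K10.E6
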