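import Pool.Agent.Lib.MP_afdd4d_co.K10.E6.Dat
import Pool.Agent.Lib.MP_afdd4d_co.K10.E6.Mk
import Pool.Agent.Lib.MP_afdd4d_co.K8.F6Bl5
import Pool.Agent.Lib.MP_afdd4d_co.K10.E6.P0
import Pool.Agent.Lib.MP_afdd4d_co.K10.E6.P1
import Pool.Agent.Lib.MP_afdd4d_co.K10.E6.P2
import Pool.Agent.Lib.MP_afdd4d_co.K10.E6.P3
import Pool.Agent.Lib.MP_afdd4d_co.K10.E6.P4
import Pool.Agent.Lib.MP_afdd4d_co.K10.E6.P5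
import Pool.Agent.Lib.MP_afdd4d_co.K10.E6.P6
import Pool.Agent.Lib.MP_afdd4d_co.K10.E6.P7
import Pool.Agent.Lib.MP_afdd4d_co.K10.E6.P8
import Pool.Agent.Lib.MP_afdd4d_co.K10.E6.P9
import Pool.Agent.Lib.MP_afdd4d_co.K10.E6.P10
import Pool.Agent.Lib.MP_afdd4d_co.K10.E6.P11
import Pool.Agent.Lib.MP_afdd4d_co.K10.E6.P12
import Pool.Agent.Lib.MP_afdd4d_co.K10.E6.P13
import Pool.Agent.Lib.MP_afdd4d_co.K10.E6.P14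
import Pool.Agent.Lib.MP_afdd4d_co.K10.E6.P15
import Pool.Agent.Lib.MP_afdd4d_co.K10.E6.P16
import Pool.Agent.Lib.MP_afdd4d_co.K10.E6.P17
import Pool.Agent.Lib.MP_afdd4d_co.K10.E6.P18
import Pool.Agent.Lib.MP_afdd4d_co.K10.E6.P19
import Pool.Agent.Lib.MP_afdd4d_co.K10.E6.P20
import Pool.Agent.Lib.MP_afdd4d_co.K10.E6.P21
import Pool.Agent.Lib.MP_afdd4d_co.K10.E6.P22
import Pool.Agent.Lib.MP_afdd4d_co.K10.E6.P23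
import Pool.Agent.Lib.MP_afdd4d_co.K10.E6.P24
import Pool.Agent.Lib.MP_afdd4d_co.K10.E6.P25
import Pool.Agent.Lib.MP_afdd4d_co.K10.E6.P26
import Pool.Agent.Lib.MP_afdd4d_co.K10.E6.P27
import Pool.Agent.Lib.MP_afdd4d_co.K10.E6.P28
import Pool.Agent.Lib.MP_afdd4d_co.K10.E6.P29
import Pool.Agent.Lib.MP_afdd4d_co.K10.E6.P30
import Pool.Agent.Lib.MP_afdd4d_co.K10.E6.P31
import Pool.Agent.Lib.MP_afdd4d_co.K10.E6.P32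

/-!
# Tables
-/

namespace Pool.Agent.Lib.MP_afdd4d_co.K10.E6

open K8

set_option maxRecDepth 100000
set_option exponentiation.threshold 10000000

/-- The slices of the chunk 508. -/
noncomputable def c508 : List (List ℕ) := [
  [tr p500_24,
   tr p501_24,
   s3_7 (s2_5 (s1_6 (s0_4 p501_40))),
   tr p502_24,
   s5_6 (s4_5 (s3_7 (s2_5 (s1_4 (s0_6 p501_40))))),
   s3_7 (s2_6 (s1_4 (s0_5 p502_24))),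
   s3_7 (s2_4 (s1_5 (s0_6 p502_48))),
   tr p503_24],
  [tr p504_24,
   tr p505_24,
   p508_10,
   x7_6 (x7_5 (x7_4 (x3_2 (x3_1 (x3_0 (tr (n5 (n4 (n0 p504_30))))))))),
   tr p506_24,
   tr p507_24,
   p508_14,
   x7_6 (x7_5 (x7_4 (x3_2 (x3_1 (x3_0 (tr (n5 (n4 (n0 p506_30)))))))))],
  [s3_7 (s2_6 (s1_4 (s0_5 p504_24))),
   s3_7 (s2_6 (s1_4 (s0_5 p505_24))),
   s3_7 (s2_6 (s1_4 (s0_5 p506_24))),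
   s3_7 (s2_6 (s1_4 (s0_5 p507_24))),
   s4_5 (s0_1 p508_10),
   x7_6 (x7_5 (x7_4 (x3_2 (x3_1 (x3_0 (s3_7 (s2_6 (s1_4 (s0_5 (n5 (n4 (n0 p504_30)))))))))))),
   s4_5 (s0_1 p508_14),
   x7_6 (x7_5 (x7_4 (x3_2 (x3_1 (x3_0 (s3_7 (s2_6 (s1_4 (s0_5 (n5 (n4 (n0 p506_30))))))))))))],
  [p508_24,
   p508_25,
   p508_26,
   p508_27,
   s4_5 (s0_1 p508_26),
   s4_5 (s0_1 p508_27),
   p508_30,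
   p508_31],
  [s3_7 (s2_4 (s1_5 (s0_6 p504_48))),
   s3_7 (s2_4 (s1_5 (s0_6 p506_48))),
   s5_6 (s4_6 (s3_7 (s2_4 (s1_6 (s0_5 p505_48))))),
   s5_6 (s4_6 (s3_7 (s2_4 (s1_6 (s0_5 p507_48))))),
   s3_7 (s2_4 (s1_5 (s0_6 p505_48))),
   s3_7 (s2_4 (s1_5 (s0_6 p507_48))),
   x7_6 (x7_5 (x7_4 (x3_2 (x3_1 (x3_0 (s3_7 (s2_4 (s1_5 (s0_6 (n6 (n5 (n0 p504_51)))))))))))),
   x7_6 (x7_5 (x7_4 (x3_2 (x3_1 (x3_0 (s3_7 (s2_4 (s1_5 (s0_6 (n6 (n5 (n0 p506_51))))))))))))],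
  [p508_40,
   p508_41,
   p508_42,
   p508_43,
   p508_44,
   p508_45,
   p508_46,
   p508_47],
  [s4_5 (s0_1 p508_40),
   s4_5 (s0_1 p508_41),
   s4_5 (s0_1 p508_44),
   s4_5 (s0_1 p508_45),
   s4_5 (s0_1 p508_42),
   s4_5 (s0_1 p508_43),
   s4_5 (s0_1 p508_46),
   s4_5 (s0_1 p508_47)],
  [tr p512_24,
   tr p513_24,
   s3_7 (s2_5 (s1_6 (s0_4 p513_40))),
   tr p514_24,
   s5_6 (s4_5 (s3_7 (s2_5 (s1_4 (s0_6 p513_40))))),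
   s3_7 (s2_6 (s1_4 (s0_5 p514_24))),
   s3_7 (s2_4 (s1_5 (s0_6 p514_48))),
   tr p515_24]]

theorem k508 : eqNN c508 (slO 64 (D.chG 112 24) 8) = true := by decide +kernel

/-- The slices of the chunk 509. -/
noncomputable def c509 : List (List ℕ) := [
  [tr p500_25,
   tr p501_25,
   s3_7 (s2_5 (s1_6 (s0_4 p501_42))),
   tr p502_25,
   s5_6 (s4_5 (s3_7 (s2_5 (s1_4 (s0_6 p501_42))))),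
   s3_7 (s2_6 (s1_4 (s0_5 p502_25))),
   s3_7 (s2_4 (s1_5 (s0_6 p502_52))),
   tr p503_25],
  [tr p504_25,
   tr p505_25,
   p509_10,
   x7_6 (x7_5 (x7_4 (x3_2 (x3_1 (x3_0 (tr (n5 (n4 (n0 p504_31))))))))),
   tr p506_25,
   tr p507_25,
   p509_14,
   x7_6 (x7_5 (x7_4 (x3_2 (x3_1 (x3_0 (tr (n5 (n4 (n0 p506_31)))))))))],
  [s3_7 (s2_6 (s1_4 (s0_5 p504_25))),
   s3_7 (s2_6 (s1_4 (s0_5 p505_25))),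
   s3_7 (s2_6 (s1_4 (s0_5 p506_25))),
   s3_7 (s2_6 (s1_4 (s0_5 p507_25))),
   s4_5 (s0_1 p509_10),
   x7_6 (x7_5 (x7_4 (x3_2 (x3_1 (x3_0 (s3_7 (s2_6 (s1_4 (s0_5 (n5 (n4 (n0 p504_31)))))))))))),
   s4_5 (s0_1 p509_14),
   x7_6 (x7_5 (x7_4 (x3_2 (x3_1 (x3_0 (s3_7 (s2_6 (s1_4 (s0_5 (n5 (n4 (n0 p506_31))))))))))))],
  [tr p508_25,
   p509_25,
   p509_26,
   p509_27,
   s4_5 (s0_1 p509_26),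
   s4_5 (s0_1 p509_27),
   x7_6 (x7_5 (x7_4 (x3_2 (x3_1 (x3_0 (tr (n5 (n4 (n1 (n0 p508_31)))))))))),
   p509_31],
  [s3_7 (s2_4 (s1_5 (s0_6 p504_52))),
   s3_7 (s2_4 (s1_5 (s0_6 p506_52))),
   s5_6 (s4_6 (s3_7 (s2_4 (s1_6 (s0_5 p505_52))))),
   s5_6 (s4_6 (s3_7 (s2_4 (s1_6 (s0_5 p507_52))))),
   s3_7 (s2_4 (s1_5 (s0_6 p505_52))),
   s3_7 (s2_4 (s1_5 (s0_6 p507_52))),
   x7_6 (x7_5 (x7_4 (x3_2 (x3_1 (x3_0 (s3_7 (s2_4 (s1_5 (s0_6 (n6 (n5 (n0 p504_55)))))))))))),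
   x7_6 (x7_5 (x7_4 (x3_2 (x3_1 (x3_0 (s3_7 (s2_4 (s1_5 (s0_6 (n6 (n5 (n0 p506_55))))))))))))],
  [s3_7 (s2_5 (s1_6 (s0_4 p508_42))),
   p509_41,
   p509_42,
   p509_43,
   p509_44,
   x7_6 (x7_5 (x7_4 (x3_2 (x3_1 (x3_0 (s3_7 (s2_5 (s1_6 (s0_4 (n6 (n4 (n1 (n0 p508_47))))))))))))),
   p509_46,
   p509_47],
  [s5_6 (s4_5 (s3_7 (s2_5 (s1_4 (s0_6 p508_42))))),
   s4_5 (s0_1 p509_41),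
   s4_5 (s0_1 p509_44),
   x7_6 (x7_5 (x7_4 (s5_6 (s4_5 (x3_2 (x3_1 (x3_0 (s3_7 (s2_5 (s1_4 (s0_6 (n6 (n4 (n1 (n0 p508_47))))))))))))))),
   s4_5 (s0_1 p509_42),
   s4_5 (s0_1 p509_43),
   s4_5 (s0_1 p509_46),
   s4_5 (s0_1 p509_47)],
  [tr p512_25,
   tr p513_25,
   s3_7 (s2_5 (s1_6 (s0_4 p513_42))),
   tr p514_25,
   s5_6 (s4_5 (s3_7 (s2_5 (s1_4 (s0_6 p513_42))))),
   s3_7 (s2_6 (s1_4 (s0_5 p514_25))),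
   s3_7 (s2_4 (s1_5 (s0_6 p514_52))),
   tr p515_25]]

theorem k509 : eqNN c509 (slO 64 (D.chG 112 25) 8) = true := by decide +kernel

/-- The slices of the chunk 510. -/
noncomputable def c510 : List (List ℕ) := [
  [tr p500_26,
   tr p501_26,
   s3_7 (s2_5 (s1_6 (s0_4 p501_41))),
   tr p502_26,
   x7_6 (x7_5 (x7_4 (s5_6 (s4_5 (x3_2 (x3_1 (x3_0 (s3_7 (s2_5 (s1_4 (s0_6 (n6 (n4 p501_41))))))))))))),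
   x7_6 (x7_5 (x7_4 (x3_2 (x3_1 (x3_0 (s3_7 (s2_6 (s1_4 (s0_5 (n5 (n4 p502_26))))))))))),
   s3_7 (s2_4 (s1_5 (s0_6 p502_50))),
   tr p503_26],
  [tr p504_26,
   tr p505_26,
   x7_6 (x7_5 (x7_4 (x3_2 (x3_1 (x3_0 (tr (n5 (n4 (n0 p505_28))))))))),
   x7_6 (x7_5 (x7_4 (x3_2 (x3_1 (x3_0 (tr (n5 (n4 (n0 p504_28))))))))),
   tr p506_26,
   tr p507_26,
   x7_6 (x7_5 (x7_4 (x3_2 (x3_1 (x3_0 (tr (n5 (n4 (n0 p507_28))))))))),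
   x7_6 (x7_5 (x7_4 (x3_2 (x3_1 (x3_0 (tr (n5 (n4 (n0 p506_28)))))))))],
  [s3_7 (s2_6 (s1_4 (s0_5 p504_28))),
   s3_7 (s2_6 (s1_4 (s0_5 p505_28))),
   s3_7 (s2_6 (s1_4 (s0_5 p506_28))),
   s3_7 (s2_6 (s1_4 (s0_5 p507_28))),
   x7_6 (x7_5 (x7_4 (x3_2 (x3_1 (x3_0 (s3_7 (s2_6 (s1_4 (s0_5 (n5 (n4 (n0 p505_26)))))))))))),
   x7_6 (x7_5 (x7_4 (x3_2 (x3_1 (x3_0 (s3_7 (s2_6 (s1_4 (s0_5 (n5 (n4 (n0 p504_26)))))))))))),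
   x7_6 (x7_5 (x7_4 (x3_2 (x3_1 (x3_0 (s3_7 (s2_6 (s1_4 (s0_5 (n5 (n4 (n0 p507_26)))))))))))),
   x7_6 (x7_5 (x7_4 (x3_2 (x3_1 (x3_0 (s3_7 (s2_6 (s1_4 (s0_5 (n5 (n4 (n0 p506_26))))))))))))],
  [tr p508_26,
   tr p509_26,
   p510_26,
   p510_27,
   p510_28,
   p510_29,
   x7_6 (x7_5 (x7_4 (x3_2 (x3_1 (x3_0 (s3_7 (s2_6 (s1_4 (s0_5 (n5 (n4 (n1 (n0 p508_26))))))))))))),
   x7_6 (x7_5 (x7_4 (x3_2 (x3_1 (x3_0 (s3_7 (s2_6 (s1_4 (s0_5 (n5 (n4 (n1 (n0 p509_26)))))))))))))],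
  [s5_6 (s4_6 (s3_7 (s2_4 (s1_6 (s0_5 p504_49))))),
   s5_6 (s4_6 (s3_7 (s2_4 (s1_6 (s0_5 p506_49))))),
   s5_6 (s4_6 (s3_7 (s2_4 (s1_6 (s0_5 p505_49))))),
   s5_6 (s4_6 (s3_7 (s2_4 (s1_6 (s0_5 p507_49))))),
   s3_7 (s2_4 (s1_5 (s0_6 p505_50))),
   s3_7 (s2_4 (s1_5 (s0_6 p507_50))),
   x7_6 (x7_5 (x7_4 (x3_2 (x3_1 (x3_0 (s3_7 (s2_4 (s1_5 (s0_6 (n6 (n5 (n0 p504_49)))))))))))),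
   x7_6 (x7_5 (x7_4 (x3_2 (x3_1 (x3_0 (s3_7 (s2_4 (s1_5 (s0_6 (n6 (n5 (n0 p506_49))))))))))))],
  [s3_7 (s2_5 (s1_6 (s0_4 p508_41))),
   p510_41,
   s3_7 (s2_5 (s1_6 (s0_4 p509_41))),
   p510_43,
   p510_44,
   x7_6 (x7_5 (x7_4 (x3_2 (x3_1 (x3_0 (s3_7 (s2_5 (s1_6 (s0_4 (n6 (n4 (n1 (n0 p508_44))))))))))))),
   p510_46,
   x7_6 (x7_5 (x7_4 (x3_2 (x3_1 (x3_0 (s3_7 (s2_5 (s1_6 (s0_4 (n6 (n4 (n1 (n0 p509_44)))))))))))))],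
  [s5_6 (s4_5 (s3_7 (s2_5 (s1_4 (s0_6 p508_44))))),
   s5_6 (s4_5 (s3_7 (s2_5 (s1_4 (s0_6 p510_44))))),
   x7_6 (x7_5 (x7_4 (s4_5 (x3_2 (x3_1 (x3_0 (s0_1 (n6 (n4 (n1 (n0 p510_41))))))))))),
   x7_6 (x7_5 (x7_4 (s5_6 (s4_5 (x3_2 (x3_1 (x3_0 (s3_7 (s2_5 (s1_4 (s0_6 (n6 (n4 (n1 (n0 p508_41))))))))))))))),
   s5_6 (s4_5 (s3_7 (s2_5 (s1_4 (s0_6 p509_44))))),
   x7_6 (x7_5 (x7_4 (s4_5 (x3_2 (x3_1 (x3_0 (s0_1 (n6 (n4 (n1 (n0 p510_46))))))))))),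
   x7_6 (x7_5 (x7_4 (s4_5 (x3_2 (x3_1 (x3_0 (s0_1 (n6 (n4 (n1 (n0 p510_43))))))))))),
   x7_6 (x7_5 (x7_4 (s5_6 (s4_5 (x3_2 (x3_1 (x3_0 (s3_7 (s2_5 (s1_4 (s0_6 (n6 (n4 (n1 (n0 p509_41)))))))))))))))],
  [tr p512_26,
   tr p513_26,
   s3_7 (s2_5 (s1_6 (s0_4 p513_41))),
   tr p514_26,
   x7_6 (x7_5 (x7_4 (s5_6 (s4_5 (x3_2 (x3_1 (x3_0 (s3_7 (s2_5 (s1_4 (s0_6 (n6 (n4 (n2 (n1 (n0 p513_41)))))))))))))))),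
   x7_6 (x7_5 (x7_4 (x3_2 (x3_1 (x3_0 (s3_7 (s2_6 (s1_4 (s0_5 (n5 (n4 (n2 (n1 (n0 p514_26)))))))))))))),
   s3_7 (s2_4 (s1_5 (s0_6 p514_50))),
   tr p515_26]]

theorem k510 : eqNN c510 (slO 64 (D.chG 112 26) 8) = true := by decide +kernel

/-- The slices of the chunk 511. -/
noncomputable def c511 : List (List ℕ) := [
  [tr p500_27,
   tr p501_27,
   s3_7 (s2_5 (s1_6 (s0_4 p501_43))),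
   tr p502_27,
   x7_6 (x7_5 (x7_4 (s5_6 (s4_5 (x3_2 (x3_1 (x3_0 (s3_7 (s2_5 (s1_4 (s0_6 (n6 (n4 p501_43))))))))))))),
   x7_6 (x7_5 (x7_4 (x3_2 (x3_1 (x3_0 (s3_7 (s2_6 (s1_4 (s0_5 (n5 (n4 p502_27))))))))))),
   s3_7 (s2_4 (s1_5 (s0_6 p502_54))),
   tr p503_27],
  [tr p504_27,
   tr p505_27,
   x7_6 (x7_5 (x7_4 (x3_2 (x3_1 (x3_0 (tr (n5 (n4 (n0 p505_29))))))))),
   x7_6 (x7_5 (x7_4 (x3_2 (x3_1 (x3_0 (tr (n5 (n4 (n0 p504_29))))))))),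
   tr p506_27,
   tr p507_27,
   x7_6 (x7_5 (x7_4 (x3_2 (x3_1 (x3_0 (tr (n5 (n4 (n0 p507_29))))))))),
   x7_6 (x7_5 (x7_4 (x3_2 (x3_1 (x3_0 (tr (n5 (n4 (n0 p506_29)))))))))],
  [s3_7 (s2_6 (s1_4 (s0_5 p504_29))),
   s3_7 (s2_6 (s1_4 (s0_5 p505_29))),
   s3_7 (s2_6 (s1_4 (s0_5 p506_29))),
   s3_7 (s2_6 (s1_4 (s0_5 p507_29))),
   x7_6 (x7_5 (x7_4 (x3_2 (x3_1 (x3_0 (s3_7 (s2_6 (s1_4 (s0_5 (n5 (n4 (n0 p505_27)))))))))))),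
   x7_6 (x7_5 (x7_4 (x3_2 (x3_1 (x3_0 (s3_7 (s2_6 (s1_4 (s0_5 (n5 (n4 (n0 p504_27)))))))))))),
   x7_6 (x7_5 (x7_4 (x3_2 (x3_1 (x3_0 (s3_7 (s2_6 (s1_4 (s0_5 (n5 (n4 (n0 p507_27)))))))))))),
   x7_6 (x7_5 (x7_4 (x3_2 (x3_1 (x3_0 (s3_7 (s2_6 (s1_4 (s0_5 (n5 (n4 (n0 p506_27))))))))))))],
  [tr p508_27,
   tr p509_27,
   tr p510_27,
   p511_27,
   s3_7 (s2_6 (s1_4 (s0_5 p510_29))),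
   p511_29,
   x7_6 (x7_5 (x7_4 (x3_2 (x3_1 (x3_0 (s3_7 (s2_6 (s1_4 (s0_5 (n5 (n4 (n1 (n0 p508_27))))))))))))),
   x7_6 (x7_5 (x7_4 (x3_2 (x3_1 (x3_0 (s3_7 (s2_6 (s1_4 (s0_5 (n5 (n4 (n1 (n0 p509_27)))))))))))))],
  [s5_6 (s4_6 (s3_7 (s2_4 (s1_6 (s0_5 p504_53))))),
   s5_6 (s4_6 (s3_7 (s2_4 (s1_6 (s0_5 p506_53))))),
   s5_6 (s4_6 (s3_7 (s2_4 (s1_6 (s0_5 p505_53))))),
   s5_6 (s4_6 (s3_7 (s2_4 (s1_6 (s0_5 p507_53))))),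
   s3_7 (s2_4 (s1_5 (s0_6 p505_54))),
   s3_7 (s2_4 (s1_5 (s0_6 p507_54))),
   x7_6 (x7_5 (x7_4 (x3_2 (x3_1 (x3_0 (s3_7 (s2_4 (s1_5 (s0_6 (n6 (n5 (n0 p504_53)))))))))))),
   x7_6 (x7_5 (x7_4 (x3_2 (x3_1 (x3_0 (s3_7 (s2_4 (s1_5 (s0_6 (n6 (n5 (n0 p506_53))))))))))))],
  [s3_7 (s2_5 (s1_6 (s0_4 p508_43))),
   s3_7 (s2_5 (s1_6 (s0_4 p510_43))),
   s3_7 (s2_5 (s1_6 (s0_4 p509_43))),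
   p511_43,
   x7_6 (x7_5 (x7_4 (x3_2 (x3_1 (x3_0 (s3_7 (s2_5 (s1_6 (s0_4 (n6 (n4 (n1 (n0 p510_46))))))))))))),
   x7_6 (x7_5 (x7_4 (x3_2 (x3_1 (x3_0 (s3_7 (s2_5 (s1_6 (s0_4 (n6 (n4 (n1 (n0 p508_46))))))))))))),
   p511_46,
   x7_6 (x7_5 (x7_4 (x3_2 (x3_1 (x3_0 (s3_7 (s2_5 (s1_6 (s0_4 (n6 (n4 (n1 (n0 p509_46)))))))))))))],
  [s5_6 (s4_5 (s3_7 (s2_5 (s1_4 (s0_6 p508_46))))),
   s5_6 (s4_5 (s3_7 (s2_5 (s1_4 (s0_6 p510_46))))),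
   x7_6 (x7_5 (x7_4 (s5_6 (s4_5 (x3_2 (x3_1 (x3_0 (s3_7 (s2_5 (s1_4 (s0_6 (n6 (n4 (n1 (n0 p510_43))))))))))))))),
   x7_6 (x7_5 (x7_4 (s5_6 (s4_5 (x3_2 (x3_1 (x3_0 (s3_7 (s2_5 (s1_4 (s0_6 (n6 (n4 (n1 (n0 p508_43))))))))))))))),
   s5_6 (s4_5 (s3_7 (s2_5 (s1_4 (s0_6 p509_46))))),
   s5_6 (s4_5 (s3_7 (s2_5 (s1_4 (s0_6 p511_46))))),
   x7_6 (x7_5 (x7_4 (s4_5 (x3_2 (x3_1 (x3_0 (s0_1 (n6 (n4 (n1 (n0 p511_43))))))))))),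
   x7_6 (x7_5 (x7_4 (s5_6 (s4_5 (x3_2 (x3_1 (x3_0 (s3_7 (s2_5 (s1_4 (s0_6 (n6 (n4 (n1 (n0 p509_43)))))))))))))))],
  [tr p512_27,
   tr p513_27,
   s3_7 (s2_5 (s1_6 (s0_4 p513_43))),
   tr p514_27,
   x7_6 (x7_5 (x7_4 (s5_6 (s4_5 (x3_2 (x3_1 (x3_0 (s3_7 (s2_5 (s1_4 (s0_6 (n6 (n4 (n2 (n1 (n0 p513_43)))))))))))))))),
   x7_6 (x7_5 (x7_4 (x3_2 (x3_1 (x3_0 (s3_7 (s2_6 (s1_4 (s0_5 (n5 (n4 (n2 (n1 (n0 p514_27)))))))))))))),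
   s3_7 (s2_4 (s1_5 (s0_6 p514_54))),
   tr p515_27]]

theorem k511 : eqNN c511 (slO 64 (D.chG 112 27) 8) = true := by decide +kernel

end Pool.Agent.Lib.MP_afdd4d_co.K10.E6
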