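import Pool.Agent.Lib.MP_afdd4d_co.K10.E6.Dat
import Pool.Agent.Lib.MP_afdd4d_co.K10.E6.Mk
import Pool.Agent.Lib.MP_afdd4d_co.K8.F6Bl5
import Pool.Agent.Lib.MP_afdd4d_co.K10.E6.P0
import Pool.Agent.Lib.MP_afdd4d_co.K10.E6.P1
import Pool.Agent.Lib.MP_afdd4d_co.K10.E6.P2
import Pool.Agent.Lib.MP_afdd4d_co.K10.E6.P3
import Pool.Agent.Lib.MP_afdd4d_co.K10.E6.P4
import Pool.Agent.Lib.MP_afdd4d_co.K10.E6.P5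
import Pool.Agent.Lib.MP_afdd4d_co.K10.E6.P6
import Pool.Agent.Lib.MP_afdd4d_co.K10.E6.P7
import Pool.Agent.Lib.MP_afdd4d_co.K10.E6.P8
import Pool.Agent.Lib.MP_afdd4d_co.K10.E6.P9
import Pool.Agent.Lib.MP_afdd4d_co.K10.E6.P10
import Pool.Agent.Lib.MP_afdd4d_co.K10.E6.P11
import Pool.Agent.Lib.MP_afdd4d_co.K10.E6.P12
import Pool.Agent.Lib.MP_afdd4d_co.K10.E6.P13
import Pool.Agent.Lib.MP_afdd4d_co.K10.E6.P14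
import Pool.Agent.Lib.MP_afdd4d_co.K10.E6.P15
import Pool.Agent.Lib.MP_afdd4d_co.K10.E6.P16
import Pool.Agent.Lib.MP_afdd4d_co.K10.E6.P17
import Pool.Agent.Lib.MP_afdd4d_co.K10.E6.P18
import Pool.Agent.Lib.MP_afdd4d_co.K10.E6.P19
import Pool.Agent.Lib.MP_afdd4d_co.K10.E6.P20
import Pool.Agent.Lib.MP_afdd4d_co.K10.E6.P21
import Pool.Agent.Lib.MP_afdd4d_co.K10.E6.P22
import Pool.Agent.Lib.MP_afdd4d_co.K10.E6.P23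
import Pool.Agent.Lib.MP_afdd4d_co.K10.E6.P24
import Pool.Agent.Lib.MP_afdd4d_co.K10.E6.P25
import Pool.Agent.Lib.MP_afdd4d_co.K10.E6.P26
import Pool.Agent.Lib.MP_afdd4d_co.K10.E6.P27
import Pool.Agent.Lib.MP_afdd4d_co.K10.E6.P28
import Pool.Agent.Lib.MP_afdd4d_co.K10.E6.P29
import Pool.Agent.Lib.MP_afdd4d_co.K10.E6.P30
import Pool.Agent.Lib.MP_afdd4d_co.K10.E6.P31
import Pool.Agent.Lib.MP_afdd4d_co.K10.E6.P32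

/-!
# Tables
-/

namespace Pool.Agent.Lib.MP_afdd4d_co.K10.E6

open K8

set_option maxRecDepth 100000
set_option exponentiation.threshold 10000000

/-- The slices of the chunk 512. -/
noncomputable def c512 : List (List ℕ) := [
  [tr p500_56,
   p512_1,
   s5_6 (s1_2 p512_1),
   p512_3,
   s4_6 (s0_2 p512_1),
   s4_5 (s0_1 p512_3),
   s4_6 (s0_2 p512_3),
   tr p503_56],
  [p512_8,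
   p512_9,
   s5_6 (s1_2 p512_9),
   x7_6 (x7_5 (x7_4 (x3_2 (x3_1 (x3_0 (n4 (n2 (n1 (n0 p512_8))))))))),
   p512_12,
   p512_13,
   s5_6 (s1_2 p512_13),
   x7_6 (x7_5 (x7_4 (x3_2 (x3_1 (x3_0 (n4 (n2 (n1 (n0 p512_12)))))))))],
  [s4_5 (s0_1 p512_8),
   s4_5 (s0_1 p512_9),
   s4_5 (s0_1 p512_12),
   s4_5 (s0_1 p512_13),
   s5_6 (s4_6 (s1_2 (s0_2 p512_9))),
   x7_6 (x7_5 (x7_4 (s4_5 (x3_2 (x3_1 (x3_0 (s0_1 (n4 (n2 (n1 (n0 p512_8))))))))))),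
   s5_6 (s4_6 (s1_2 (s0_2 p512_13))),
   x7_6 (x7_5 (x7_4 (s4_5 (x3_2 (x3_1 (x3_0 (s0_1 (n4 (n2 (n1 (n0 p512_12)))))))))))],
  [p512_24,
   p512_25,
   p512_26,
   p512_27,
   s4_5 (s0_1 p512_26),
   s4_5 (s0_1 p512_27),
   x7_6 (x7_5 (x7_4 (x3_2 (x3_1 (x3_0 (n5 (n4 (n2 (n1 (n0 p512_24)))))))))),
   x7_6 (x7_5 (x7_4 (x3_2 (x3_1 (x3_0 (n5 (n4 (n2 (n1 (n0 p512_25))))))))))],
  [s4_6 (s0_2 p512_8),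
   s4_6 (s0_2 p512_12),
   s5_6 (s4_5 (s1_2 (s0_1 p512_9))),
   s5_6 (s4_5 (s1_2 (s0_1 p512_13))),
   s4_6 (s0_2 p512_9),
   s4_6 (s0_2 p512_13),
   x7_6 (x7_5 (x7_4 (s4_6 (x3_2 (x3_1 (x3_0 (s0_2 (n4 (n2 (n1 (n0 p512_8))))))))))),
   x7_6 (x7_5 (x7_4 (s4_6 (x3_2 (x3_1 (x3_0 (s0_2 (n4 (n2 (n1 (n0 p512_12)))))))))))],
  [s5_6 (s1_2 p512_24),
   s5_6 (s1_2 p512_26),
   s5_6 (s1_2 p512_25),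
   s5_6 (s1_2 p512_27),
   s5_6 (s4_5 (s1_2 (s0_1 p512_26))),
   x7_6 (x7_5 (x7_4 (s5_6 (x3_2 (x3_1 (x3_0 (s1_2 (n5 (n4 (n2 (n1 (n0 p512_24)))))))))))),
   s5_6 (s4_5 (s1_2 (s0_1 p512_27))),
   x7_6 (x7_5 (x7_4 (s5_6 (x3_2 (x3_1 (x3_0 (s1_2 (n5 (n4 (n2 (n1 (n0 p512_25))))))))))))],
  [s4_6 (s0_2 p512_24),
   s5_6 (s4_6 (s1_2 (s0_2 p512_26))),
   s4_6 (s0_2 p512_26),
   x7_6 (x7_5 (x7_4 (s4_6 (x3_2 (x3_1 (x3_0 (s0_2 (n5 (n4 (n2 (n1 (n0 p512_24)))))))))))),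
   s4_6 (s0_2 p512_25),
   s5_6 (s4_6 (s1_2 (s0_2 p512_27))),
   s4_6 (s0_2 p512_27),
   x7_6 (x7_5 (x7_4 (s4_6 (x3_2 (x3_1 (x3_0 (s0_2 (n5 (n4 (n2 (n1 (n0 p512_25))))))))))))],
  [p512_56,
   p512_57,
   s5_6 (s1_2 p512_57),
   p512_59,
   s4_6 (s0_2 p512_57),
   s4_5 (s0_1 p512_59),
   s4_6 (s0_2 p512_59),
   p512_63]]

theorem k512 : eqNN c512 (slO 64 (D.chG 112 56) 8) = true := by decide +kernel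

/-- The slices of the chunk 513. -/
noncomputable def c513 : List (List ℕ) := [
  [tr p500_57,
   tr p501_57,
   s3_7 (s2_5 (s1_6 (s0_4 p501_58))),
   tr p502_57,
   s5_6 (s4_5 (s3_7 (s2_5 (s1_4 (s0_6 p501_58))))),
   s3_7 (s2_6 (s1_4 (s0_5 p502_57))),
   s3_7 (s2_4 (s1_5 (s0_6 p502_60))),
   tr p503_57],
  [p513_8,
   p513_9,
   x7_6 (x7_5 (x7_4 (x3_2 (x3_1 (x3_0 (n4 (n2 (n1 (n0 p513_9))))))))),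
   x7_6 (x7_5 (x7_4 (x3_2 (x3_1 (x3_0 (n4 (n2 (n1 (n0 p513_8))))))))),
   p513_12,
   p513_13,
   x7_6 (x7_5 (x7_4 (x3_2 (x3_1 (x3_0 (n4 (n2 (n1 (n0 p513_13))))))))),
   x7_6 (x7_5 (x7_4 (x3_2 (x3_1 (x3_0 (n4 (n2 (n1 (n0 p513_12)))))))))],
  [s4_5 (s0_1 p513_8),
   s4_5 (s0_1 p513_9),
   s4_5 (s0_1 p513_12),
   s4_5 (s0_1 p513_13),
   x7_6 (x7_5 (x7_4 (s4_5 (x3_2 (x3_1 (x3_0 (s0_1 (n4 (n2 (n1 (n0 p513_9))))))))))),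
   x7_6 (x7_5 (x7_4 (s4_5 (x3_2 (x3_1 (x3_0 (s0_1 (n4 (n2 (n1 (n0 p513_8))))))))))),
   x7_6 (x7_5 (x7_4 (s4_5 (x3_2 (x3_1 (x3_0 (s0_1 (n4 (n2 (n1 (n0 p513_13))))))))))),
   x7_6 (x7_5 (x7_4 (s4_5 (x3_2 (x3_1 (x3_0 (s0_1 (n4 (n2 (n1 (n0 p513_12)))))))))))],
  [p513_24,
   p513_25,
   p513_26,
   p513_27,
   s4_5 (s0_1 p513_26),
   s4_5 (s0_1 p513_27),
   x7_6 (x7_5 (x7_4 (x3_2 (x3_1 (x3_0 (n5 (n4 (n2 (n1 (n0 p513_24)))))))))),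
   x7_6 (x7_5 (x7_4 (x3_2 (x3_1 (x3_0 (n5 (n4 (n2 (n1 (n0 p513_25))))))))))],
  [p513_32,
   p513_33,
   s4_5 (s0_1 p513_36),
   s4_5 (s0_1 p513_37),
   p513_36,
   p513_37,
   x7_6 (x7_5 (x7_4 (x3_2 (x3_1 (x3_0 (n6 (n2 (n1 (n0 p513_32))))))))),
   x7_6 (x7_5 (x7_4 (x3_2 (x3_1 (x3_0 (n6 (n2 (n1 (n0 p513_33)))))))))],
  [p513_40,
   p513_41,
   p513_42,
   p513_43,
   x7_6 (x7_5 (x7_4 (x3_2 (x3_1 (x3_0 (n6 (n4 (n2 (n1 (n0 p513_41)))))))))),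
   x7_6 (x7_5 (x7_4 (x3_2 (x3_1 (x3_0 (n6 (n4 (n2 (n1 (n0 p513_40)))))))))),
   x7_6 (x7_5 (x7_4 (x3_2 (x3_1 (x3_0 (n6 (n4 (n2 (n1 (n0 p513_43)))))))))),
   x7_6 (x7_5 (x7_4 (x3_2 (x3_1 (x3_0 (n6 (n4 (n2 (n1 (n0 p513_42))))))))))],
  [s4_5 (s0_1 p513_40),
   s4_5 (s0_1 p513_41),
   x7_6 (x7_5 (x7_4 (s4_5 (x3_2 (x3_1 (x3_0 (s0_1 (n6 (n4 (n2 (n1 (n0 p513_41)))))))))))),
   x7_6 (x7_5 (x7_4 (s4_5 (x3_2 (x3_1 (x3_0 (s0_1 (n6 (n4 (n2 (n1 (n0 p513_40)))))))))))),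
   s4_5 (s0_1 p513_42),
   s4_5 (s0_1 p513_43),
   x7_6 (x7_5 (x7_4 (s4_5 (x3_2 (x3_1 (x3_0 (s0_1 (n6 (n4 (n2 (n1 (n0 p513_43)))))))))))),
   x7_6 (x7_5 (x7_4 (s4_5 (x3_2 (x3_1 (x3_0 (s0_1 (n6 (n4 (n2 (n1 (n0 p513_42))))))))))))],
  [tr p512_57,
   p513_57,
   p513_58,
   p513_59,
   s4_5 (s0_1 p513_58),
   s4_5 (s0_1 p513_59),
   p513_62,
   tr p515_57]]

theorem k513 : eqNN c513 (slO 64 (D.chG 112 57) 8) = true := by decide +kernel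

/-- The slices of the chunk 514. -/
noncomputable def c514 : List (List ℕ) := [
  [tr p500_59,
   tr p501_59,
   s3_7 (s2_5 (s1_6 (s0_4 p501_59))),
   tr p502_59,
   s3_7 (s2_4 (s1_5 (s0_6 p501_62))),
   s3_7 (s2_6 (s1_4 (s0_5 p502_61))),
   s5_6 (s4_6 (s3_7 (s2_4 (s1_6 (s0_5 p502_61))))),
   tr p503_59],
  [p514_8,
   p514_9,
   s5_6 (s1_2 p514_9),
   x7_6 (x7_5 (x7_4 (x3_2 (x3_1 (x3_0 (n4 (n2 (n1 (n0 p514_8))))))))),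
   p514_12,
   p514_13,
   s5_6 (s1_2 p514_13),
   x7_6 (x7_5 (x7_4 (x3_2 (x3_1 (x3_0 (n4 (n2 (n1 (n0 p514_12)))))))))],
  [p514_16,
   p514_17,
   p514_18,
   p514_19,
   x7_6 (x7_5 (x7_4 (x3_2 (x3_1 (x3_0 (n5 (n2 (n1 (n0 p514_17))))))))),
   x7_6 (x7_5 (x7_4 (x3_2 (x3_1 (x3_0 (n5 (n2 (n1 (n0 p514_16))))))))),
   x7_6 (x7_5 (x7_4 (x3_2 (x3_1 (x3_0 (n5 (n2 (n1 (n0 p514_19))))))))),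
   x7_6 (x7_5 (x7_4 (x3_2 (x3_1 (x3_0 (n5 (n2 (n1 (n0 p514_18)))))))))],
  [p514_24,
   p514_25,
   p514_26,
   p514_27,
   x7_6 (x7_5 (x7_4 (x3_2 (x3_1 (x3_0 (n5 (n4 (n2 (n1 (n0 p514_26)))))))))),
   x7_6 (x7_5 (x7_4 (x3_2 (x3_1 (x3_0 (n5 (n4 (n2 (n1 (n0 p514_27)))))))))),
   x7_6 (x7_5 (x7_4 (x3_2 (x3_1 (x3_0 (n5 (n4 (n2 (n1 (n0 p514_24)))))))))),
   x7_6 (x7_5 (x7_4 (x3_2 (x3_1 (x3_0 (n5 (n4 (n2 (n1 (n0 p514_25))))))))))],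
  [s5_6 (s1_2 p514_16),
   s5_6 (s1_2 p514_18),
   s5_6 (s1_2 p514_17),
   s5_6 (s1_2 p514_19),
   x7_6 (x7_5 (x7_4 (s5_6 (x3_2 (x3_1 (x3_0 (s1_2 (n5 (n2 (n1 (n0 p514_17))))))))))),
   x7_6 (x7_5 (x7_4 (s5_6 (x3_2 (x3_1 (x3_0 (s1_2 (n5 (n2 (n1 (n0 p514_19))))))))))),
   x7_6 (x7_5 (x7_4 (s5_6 (x3_2 (x3_1 (x3_0 (s1_2 (n5 (n2 (n1 (n0 p514_16))))))))))),
   x7_6 (x7_5 (x7_4 (s5_6 (x3_2 (x3_1 (x3_0 (s1_2 (n5 (n2 (n1 (n0 p514_18)))))))))))],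
  [s5_6 (s1_2 p514_24),
   s5_6 (s1_2 p514_26),
   s5_6 (s1_2 p514_25),
   s5_6 (s1_2 p514_27),
   x7_6 (x7_5 (x7_4 (s5_6 (x3_2 (x3_1 (x3_0 (s1_2 (n5 (n4 (n2 (n1 (n0 p514_26)))))))))))),
   x7_6 (x7_5 (x7_4 (s5_6 (x3_2 (x3_1 (x3_0 (s1_2 (n5 (n4 (n2 (n1 (n0 p514_24)))))))))))),
   x7_6 (x7_5 (x7_4 (s5_6 (x3_2 (x3_1 (x3_0 (s1_2 (n5 (n4 (n2 (n1 (n0 p514_27)))))))))))),
   x7_6 (x7_5 (x7_4 (s5_6 (x3_2 (x3_1 (x3_0 (s1_2 (n5 (n4 (n2 (n1 (n0 p514_25))))))))))))],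
  [p514_48,
   s5_6 (s1_2 p514_50),
   p514_50,
   x7_6 (x7_5 (x7_4 (x3_2 (x3_1 (x3_0 (n6 (n5 (n2 (n1 (n0 p514_48)))))))))),
   p514_52,
   s5_6 (s1_2 p514_54),
   p514_54,
   x7_6 (x7_5 (x7_4 (x3_2 (x3_1 (x3_0 (n6 (n5 (n2 (n1 (n0 p514_52))))))))))],
  [tr p512_59,
   tr p513_59,
   s3_7 (s2_5 (s1_6 (s0_4 p513_59))),
   p514_59,
   s3_7 (s2_4 (s1_5 (s0_6 p513_62))),
   p514_61,
   s5_6 (s1_2 p514_61),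
   tr p515_59]]

theorem k514 : eqNN c514 (slO 64 (D.chG 112 59) 8) = true := by decide +kernel

/-- The slices of the chunk 515. -/
noncomputable def c515 : List (List ℕ) := [
  [tr p500_63,
   p515_1,
   s5_6 (s1_2 p515_1),
   p515_3,
   s4_6 (s0_2 p515_1),
   s4_5 (s0_1 p515_3),
   s4_6 (s0_2 p515_3),
   tr p503_63],
  [p515_8,
   p515_9,
   s5_6 (s1_2 p515_9),
   x7_6 (x7_5 (x7_4 (x3_2 (x3_1 (x3_0 (n4 (n2 (n1 (n0 p515_8))))))))),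
   p515_12,
   p515_13,
   s5_6 (s1_2 p515_13),
   x7_6 (x7_5 (x7_4 (x3_2 (x3_1 (x3_0 (n4 (n2 (n1 (n0 p515_12)))))))))],
  [s4_5 (s0_1 p515_8),
   s4_5 (s0_1 p515_9),
   s4_5 (s0_1 p515_12),
   s4_5 (s0_1 p515_13),
   s5_6 (s4_6 (s1_2 (s0_2 p515_9))),
   x7_6 (x7_5 (x7_4 (s4_5 (x3_2 (x3_1 (x3_0 (s0_1 (n4 (n2 (n1 (n0 p515_8))))))))))),
   s5_6 (s4_6 (s1_2 (s0_2 p515_13))),
   x7_6 (x7_5 (x7_4 (s4_5 (x3_2 (x3_1 (x3_0 (s0_1 (n4 (n2 (n1 (n0 p515_12)))))))))))],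
  [p515_24,
   p515_25,
   p515_26,
   p515_27,
   s4_5 (s0_1 p515_26),
   s4_5 (s0_1 p515_27),
   x7_6 (x7_5 (x7_4 (x3_2 (x3_1 (x3_0 (n5 (n4 (n2 (n1 (n0 p515_24)))))))))),
   x7_6 (x7_5 (x7_4 (x3_2 (x3_1 (x3_0 (n5 (n4 (n2 (n1 (n0 p515_25))))))))))],
  [s4_6 (s0_2 p515_8),
   s4_6 (s0_2 p515_12),
   s5_6 (s4_5 (s1_2 (s0_1 p515_9))),
   s5_6 (s4_5 (s1_2 (s0_1 p515_13))),
   s4_6 (s0_2 p515_9),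
   s4_6 (s0_2 p515_13),
   x7_6 (x7_5 (x7_4 (s4_6 (x3_2 (x3_1 (x3_0 (s0_2 (n4 (n2 (n1 (n0 p515_8))))))))))),
   x7_6 (x7_5 (x7_4 (s4_6 (x3_2 (x3_1 (x3_0 (s0_2 (n4 (n2 (n1 (n0 p515_12)))))))))))],
  [s5_6 (s1_2 p515_24),
   s5_6 (s1_2 p515_26),
   s5_6 (s1_2 p515_25),
   s5_6 (s1_2 p515_27),
   s5_6 (s4_5 (s1_2 (s0_1 p515_26))),
   x7_6 (x7_5 (x7_4 (s5_6 (x3_2 (x3_1 (x3_0 (s1_2 (n5 (n4 (n2 (n1 (n0 p515_24)))))))))))),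
   s5_6 (s4_5 (s1_2 (s0_1 p515_27))),
   x7_6 (x7_5 (x7_4 (s5_6 (x3_2 (x3_1 (x3_0 (s1_2 (n5 (n4 (n2 (n1 (n0 p515_25))))))))))))],
  [s4_6 (s0_2 p515_24),
   s5_6 (s4_6 (s1_2 (s0_2 p515_26))),
   s4_6 (s0_2 p515_26),
   x7_6 (x7_5 (x7_4 (s4_6 (x3_2 (x3_1 (x3_0 (s0_2 (n5 (n4 (n2 (n1 (n0 p515_24)))))))))))),
   s4_6 (s0_2 p515_25),
   s5_6 (s4_6 (s1_2 (s0_2 p515_27))),
   s4_6 (s0_2 p515_27),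
   x7_6 (x7_5 (x7_4 (s4_6 (x3_2 (x3_1 (x3_0 (s0_2 (n5 (n4 (n2 (n1 (n0 p515_25))))))))))))],
  [tr p512_63,
   p515_57,
   s5_6 (s1_2 p515_57),
   p515_59,
   s4_6 (s0_2 p515_57),
   s4_5 (s0_1 p515_59),
   s4_6 (s0_2 p515_59),
   p515_63]]

theorem k515 : eqNN c515 (slO 64 (D.chG 112 63) 8) = true := by decide +kernel

end Pool.Agent.Lib.MP_afdd4d_co.K10.E6
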