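import Pool.Agent.Lib.MP_afdd4d_co.K10.E6.Dat
import Pool.Agent.Lib.MP_afdd4d_co.K10.E6.Mk
import Pool.Agent.Lib.MP_afdd4d_co.K8.F6Bl5
import Pool.Agent.Lib.MP_afdd4d_co.K10.E6.P0
import Pool.Agent.Lib.MP_afdd4d_co.K10.E6.P1
import Pool.Agent.Lib.MP_afdd4d_co.K10.E6.P2
import Pool.Agent.Lib.MP_afdd4d_co.K10.E6.P3
import Pool.Agent.Lib.MP_afdd4d_co.K10.E6.P4
import Pool.Agent.Lib.MP_afdd4d_co.K10.E6.P5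
import Pool.Agent.Lib.MP_afdd4d_co.K10.E6.P6
import Pool.Agent.Lib.MP_afdd4d_co.K10.E6.P7
import Pool.Agent.Lib.MP_afdd4d_co.K10.E6.P8
import Pool.Agent.Lib.MP_afdd4d_co.K10.E6.P9
import Pool.Agent.Lib.MP_afdd4d_co.K10.E6.P10
import Pool.Agent.Lib.MP_afdd4d_co.K10.E6.P11
import Pool.Agent.Lib.MP_afdd4d_co.K10.E6.P12
import Pool.Agent.Lib.MP_afdd4d_co.K10.E6.P13
import Pool.Agent.Lib.MP_afdd4d_co.K10.E6.P14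
import Pool.Agent.Lib.MP_afdd4d_co.K10.E6.P15
import Pool.Agent.Lib.MP_afdd4d_co.K10.E6.P16
import Pool.Agent.Lib.MP_afdd4d_co.K10.E6.P17
import Pool.Agent.Lib.MP_afdd4d_co.K10.E6.P18
import Pool.Agent.Lib.MP_afdd4d_co.K10.E6.P19
import Pool.Agent.Lib.MP_afdd4d_co.K10.E6.P20
import Pool.Agent.Lib.MP_afdd4d_co.K10.E6.P21
import Pool.Agent.Lib.MP_afdd4d_co.K10.E6.P22
import Pool.Agent.Lib.MP_afdd4d_co.K10.E6.P23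
import Pool.Agent.Lib.MP_afdd4d_co.K10.E6.P24
import Pool.Agent.Lib.MP_afdd4d_co.K10.E6.P25
import Pool.Agent.Lib.MP_afdd4d_co.K10.E6.P26
import Pool.Agent.Lib.MP_afdd4d_co.K10.E6.P27
import Pool.Agent.Lib.MP_afdd4d_co.K10.E6.P28
import Pool.Agent.Lib.MP_afdd4d_co.K10.E6.P29
import Pool.Agent.Lib.MP_afdd4d_co.K10.E6.P30
import Pool.Agent.Lib.MP_afdd4d_co.K10.E6.P31
import Pool.Agent.Lib.MP_afdd4d_co.K10.E6.P32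

/-!
# Tables
-/

namespace Pool.Agent.Lib.MP_afdd4d_co.K10.E6

open K8

set_option maxRecDepth 100000
set_option exponentiation.threshold 10000000

/-- The slices of the chunk 516. -/
noncomputable def c516 : List (List ℕ) := [
  [p516_0,
   p516_1,
   s5_6 (s1_2 p516_1),
   p516_3,
   s4_6 (s0_2 p516_1),
   s4_5 (s0_1 p516_3),
   s4_6 (s0_2 p516_3),
   p516_7],
  [p516_8,
   p516_9,
   s5_6 (s1_2 p516_9),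
   x7_6 (x7_5 (x7_4 (x3_2 (x3_1 (x3_0 (n4 p516_8)))))),
   p516_12,
   p516_13,
   s5_6 (s1_2 p516_13),
   x7_6 (x7_5 (x7_4 (x3_2 (x3_1 (x3_0 (n4 p516_12))))))],
  [s4_5 (s0_1 p516_8),
   s4_5 (s0_1 p516_9),
   s4_5 (s0_1 p516_12),
   s4_5 (s0_1 p516_13),
   s5_6 (s4_6 (s1_2 (s0_2 p516_9))),
   x7_6 (x7_5 (x7_4 (s4_5 (x3_2 (x3_1 (x3_0 (s0_1 (n4 p516_8)))))))),
   s5_6 (s4_6 (s1_2 (s0_2 p516_13))),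
   x7_6 (x7_5 (x7_4 (s4_5 (x3_2 (x3_1 (x3_0 (s0_1 (n4 p516_12))))))))],
  [p516_24,
   p516_25,
   p516_26,
   p516_27,
   s4_5 (s0_1 p516_26),
   s4_5 (s0_1 p516_27),
   x7_6 (x7_5 (x7_4 (x3_2 (x3_1 (x3_0 (n5 (n4 p516_24))))))),
   x7_6 (x7_5 (x7_4 (x3_2 (x3_1 (x3_0 (n5 (n4 p516_25)))))))],
  [s4_6 (s0_2 p516_8),
   s4_6 (s0_2 p516_12),
   s5_6 (s4_5 (s1_2 (s0_1 p516_9))),
   s5_6 (s4_5 (s1_2 (s0_1 p516_13))),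
   s4_6 (s0_2 p516_9),
   s4_6 (s0_2 p516_13),
   x7_6 (x7_5 (x7_4 (s4_6 (x3_2 (x3_1 (x3_0 (s0_2 (n4 p516_8)))))))),
   x7_6 (x7_5 (x7_4 (s4_6 (x3_2 (x3_1 (x3_0 (s0_2 (n4 p516_12))))))))],
  [s5_6 (s1_2 p516_24),
   s5_6 (s1_2 p516_26),
   s5_6 (s1_2 p516_25),
   s5_6 (s1_2 p516_27),
   s5_6 (s4_5 (s1_2 (s0_1 p516_26))),
   x7_6 (x7_5 (x7_4 (s5_6 (x3_2 (x3_1 (x3_0 (s1_2 (n5 (n4 p516_24))))))))),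
   s5_6 (s4_5 (s1_2 (s0_1 p516_27))),
   x7_6 (x7_5 (x7_4 (s5_6 (x3_2 (x3_1 (x3_0 (s1_2 (n5 (n4 p516_25)))))))))],
  [s4_6 (s0_2 p516_24),
   s5_6 (s4_6 (s1_2 (s0_2 p516_26))),
   s4_6 (s0_2 p516_26),
   x7_6 (x7_5 (x7_4 (s4_6 (x3_2 (x3_1 (x3_0 (s0_2 (n5 (n4 p516_24))))))))),
   s4_6 (s0_2 p516_25),
   s5_6 (s4_6 (s1_2 (s0_2 p516_27))),
   s4_6 (s0_2 p516_27),
   x7_6 (x7_5 (x7_4 (s4_6 (x3_2 (x3_1 (x3_0 (s0_2 (n5 (n4 p516_25)))))))))],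
  [p516_56,
   p516_57,
   s5_6 (s1_2 p516_57),
   p516_59,
   s4_6 (s0_2 p516_57),
   s4_5 (s0_1 p516_59),
   s4_6 (s0_2 p516_59),
   p516_63]]

theorem k516 : eqNN c516 (slO 64 (D.chG 113 0) 8) = true := by decide +kernel

/-- The slices of the chunk 517. -/
noncomputable def c517 : List (List ℕ) := [
  [tr p516_1,
   p517_1,
   p517_2,
   p517_3,
   s4_5 (s0_1 p517_2),
   s4_5 (s0_1 p517_3),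
   p517_6,
   tr p519_1],
  [p517_8,
   p517_9,
   x7_6 (x7_5 (x7_4 (x3_2 (x3_1 (x3_0 (n4 p517_9)))))),
   x7_6 (x7_5 (x7_4 (x3_2 (x3_1 (x3_0 (n4 p517_8)))))),
   p517_12,
   p517_13,
   x7_6 (x7_5 (x7_4 (x3_2 (x3_1 (x3_0 (n4 p517_13)))))),
   x7_6 (x7_5 (x7_4 (x3_2 (x3_1 (x3_0 (n4 p517_12))))))],
  [s4_5 (s0_1 p517_8),
   s4_5 (s0_1 p517_9),
   s4_5 (s0_1 p517_12),
   s4_5 (s0_1 p517_13),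
   x7_6 (x7_5 (x7_4 (s4_5 (x3_2 (x3_1 (x3_0 (s0_1 (n4 p517_9)))))))),
   x7_6 (x7_5 (x7_4 (s4_5 (x3_2 (x3_1 (x3_0 (s0_1 (n4 p517_8)))))))),
   x7_6 (x7_5 (x7_4 (s4_5 (x3_2 (x3_1 (x3_0 (s0_1 (n4 p517_13)))))))),
   x7_6 (x7_5 (x7_4 (s4_5 (x3_2 (x3_1 (x3_0 (s0_1 (n4 p517_12))))))))],
  [p517_24,
   p517_25,
   p517_26,
   p517_27,
   s4_5 (s0_1 p517_26),
   s4_5 (s0_1 p517_27),
   x7_6 (x7_5 (x7_4 (x3_2 (x3_1 (x3_0 (n5 (n4 p517_24))))))),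
   x7_6 (x7_5 (x7_4 (x3_2 (x3_1 (x3_0 (n5 (n4 p517_25)))))))],
  [p517_32,
   p517_33,
   s4_5 (s0_1 p517_36),
   s4_5 (s0_1 p517_37),
   p517_36,
   p517_37,
   x7_6 (x7_5 (x7_4 (x3_2 (x3_1 (x3_0 (n6 p517_32)))))),
   x7_6 (x7_5 (x7_4 (x3_2 (x3_1 (x3_0 (n6 p517_33))))))],
  [p517_40,
   p517_41,
   p517_42,
   p517_43,
   x7_6 (x7_5 (x7_4 (x3_2 (x3_1 (x3_0 (n6 (n4 p517_41))))))),
   x7_6 (x7_5 (x7_4 (x3_2 (x3_1 (x3_0 (n6 (n4 p517_40))))))),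
   x7_6 (x7_5 (x7_4 (x3_2 (x3_1 (x3_0 (n6 (n4 p517_43))))))),
   x7_6 (x7_5 (x7_4 (x3_2 (x3_1 (x3_0 (n6 (n4 p517_42)))))))],
  [s4_5 (s0_1 p517_40),
   s4_5 (s0_1 p517_41),
   x7_6 (x7_5 (x7_4 (s4_5 (x3_2 (x3_1 (x3_0 (s0_1 (n6 (n4 p517_41))))))))),
   x7_6 (x7_5 (x7_4 (s4_5 (x3_2 (x3_1 (x3_0 (s0_1 (n6 (n4 p517_40))))))))),
   s4_5 (s0_1 p517_42),
   s4_5 (s0_1 p517_43),
   x7_6 (x7_5 (x7_4 (s4_5 (x3_2 (x3_1 (x3_0 (s0_1 (n6 (n4 p517_43))))))))),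
   x7_6 (x7_5 (x7_4 (s4_5 (x3_2 (x3_1 (x3_0 (s0_1 (n6 (n4 p517_42)))))))))],
  [tr p528_1,
   p517_57,
   p517_58,
   p517_59,
   s4_5 (s0_1 p517_58),
   s4_5 (s0_1 p517_59),
   p517_62,
   tr p531_1]]

theorem k517 : eqNN c517 (slO 64 (D.chG 113 1) 8) = true := by decide +kernel

/-- The slices of the chunk 518. -/
noncomputable def c518 : List (List ℕ) := [
  [tr p516_3,
   tr p517_3,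
   s3_7 (s2_5 (s1_6 (s0_4 p517_3))),
   p518_3,
   s3_7 (s2_4 (s1_5 (s0_6 p517_6))),
   p518_5,
   s5_6 (s1_2 p518_5),
   tr p519_3],
  [p518_8,
   p518_9,
   s5_6 (s1_2 p518_9),
   x7_6 (x7_5 (x7_4 (x3_2 (x3_1 (x3_0 (n4 p518_8)))))),
   p518_12,
   p518_13,
   s5_6 (s1_2 p518_13),
   x7_6 (x7_5 (x7_4 (x3_2 (x3_1 (x3_0 (n4 p518_12))))))],
  [p518_16,
   p518_17,
   p518_18,
   p518_19,
   x7_6 (x7_5 (x7_4 (x3_2 (x3_1 (x3_0 (n5 p518_17)))))),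
   x7_6 (x7_5 (x7_4 (x3_2 (x3_1 (x3_0 (n5 p518_16)))))),
   x7_6 (x7_5 (x7_4 (x3_2 (x3_1 (x3_0 (n5 p518_19)))))),
   x7_6 (x7_5 (x7_4 (x3_2 (x3_1 (x3_0 (n5 p518_18))))))],
  [p518_24,
   p518_25,
   p518_26,
   p518_27,
   x7_6 (x7_5 (x7_4 (x3_2 (x3_1 (x3_0 (n5 (n4 p518_26))))))),
   x7_6 (x7_5 (x7_4 (x3_2 (x3_1 (x3_0 (n5 (n4 p518_27))))))),
   x7_6 (x7_5 (x7_4 (x3_2 (x3_1 (x3_0 (n5 (n4 p518_24))))))),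
   x7_6 (x7_5 (x7_4 (x3_2 (x3_1 (x3_0 (n5 (n4 p518_25)))))))],
  [s5_6 (s1_2 p518_16),
   s5_6 (s1_2 p518_18),
   s5_6 (s1_2 p518_17),
   s5_6 (s1_2 p518_19),
   x7_6 (x7_5 (x7_4 (s5_6 (x3_2 (x3_1 (x3_0 (s1_2 (n5 p518_17)))))))),
   x7_6 (x7_5 (x7_4 (s5_6 (x3_2 (x3_1 (x3_0 (s1_2 (n5 p518_19)))))))),
   x7_6 (x7_5 (x7_4 (s5_6 (x3_2 (x3_1 (x3_0 (s1_2 (n5 p518_16)))))))),
   x7_6 (x7_5 (x7_4 (s5_6 (x3_2 (x3_1 (x3_0 (s1_2 (n5 p518_18))))))))],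
  [s5_6 (s1_2 p518_24),
   s5_6 (s1_2 p518_26),
   s5_6 (s1_2 p518_25),
   s5_6 (s1_2 p518_27),
   x7_6 (x7_5 (x7_4 (s5_6 (x3_2 (x3_1 (x3_0 (s1_2 (n5 (n4 p518_26))))))))),
   x7_6 (x7_5 (x7_4 (s5_6 (x3_2 (x3_1 (x3_0 (s1_2 (n5 (n4 p518_24))))))))),
   x7_6 (x7_5 (x7_4 (s5_6 (x3_2 (x3_1 (x3_0 (s1_2 (n5 (n4 p518_27))))))))),
   x7_6 (x7_5 (x7_4 (s5_6 (x3_2 (x3_1 (x3_0 (s1_2 (n5 (n4 p518_25)))))))))],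
  [p518_48,
   s5_6 (s1_2 p518_50),
   p518_50,
   x7_6 (x7_5 (x7_4 (x3_2 (x3_1 (x3_0 (n6 (n5 p518_48))))))),
   p518_52,
   s5_6 (s1_2 p518_54),
   p518_54,
   x7_6 (x7_5 (x7_4 (x3_2 (x3_1 (x3_0 (n6 (n5 p518_52)))))))],
  [tr p528_3,
   p518_57,
   s5_6 (s1_2 p518_57),
   p518_59,
   p518_60,
   p518_61,
   s5_6 (s1_2 p518_61),
   tr p531_3]]

theorem k518 : eqNN c518 (slO 64 (D.chG 113 3) 8) = true := by decide +kernel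

/-- The slices of the chunk 519. -/
noncomputable def c519 : List (List ℕ) := [
  [tr p516_7,
   p519_1,
   s5_6 (s1_2 p519_1),
   p519_3,
   s4_6 (s0_2 p519_1),
   s4_5 (s0_1 p519_3),
   s4_6 (s0_2 p519_3),
   p519_7],
  [p519_8,
   p519_9,
   s5_6 (s1_2 p519_9),
   x7_6 (x7_5 (x7_4 (x3_2 (x3_1 (x3_0 (n4 p519_8)))))),
   p519_12,
   p519_13,
   s5_6 (s1_2 p519_13),
   x7_6 (x7_5 (x7_4 (x3_2 (x3_1 (x3_0 (n4 p519_12))))))],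
  [s4_5 (s0_1 p519_8),
   s4_5 (s0_1 p519_9),
   s4_5 (s0_1 p519_12),
   s4_5 (s0_1 p519_13),
   s5_6 (s4_6 (s1_2 (s0_2 p519_9))),
   x7_6 (x7_5 (x7_4 (s4_5 (x3_2 (x3_1 (x3_0 (s0_1 (n4 p519_8)))))))),
   s5_6 (s4_6 (s1_2 (s0_2 p519_13))),
   x7_6 (x7_5 (x7_4 (s4_5 (x3_2 (x3_1 (x3_0 (s0_1 (n4 p519_12))))))))],
  [p519_24,
   p519_25,
   p519_26,
   p519_27,
   s4_5 (s0_1 p519_26),
   s4_5 (s0_1 p519_27),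
   x7_6 (x7_5 (x7_4 (x3_2 (x3_1 (x3_0 (n5 (n4 p519_24))))))),
   x7_6 (x7_5 (x7_4 (x3_2 (x3_1 (x3_0 (n5 (n4 p519_25)))))))],
  [s4_6 (s0_2 p519_8),
   s4_6 (s0_2 p519_12),
   s5_6 (s4_5 (s1_2 (s0_1 p519_9))),
   s5_6 (s4_5 (s1_2 (s0_1 p519_13))),
   s4_6 (s0_2 p519_9),
   s4_6 (s0_2 p519_13),
   x7_6 (x7_5 (x7_4 (s4_6 (x3_2 (x3_1 (x3_0 (s0_2 (n4 p519_8)))))))),
   x7_6 (x7_5 (x7_4 (s4_6 (x3_2 (x3_1 (x3_0 (s0_2 (n4 p519_12))))))))],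
  [s5_6 (s1_2 p519_24),
   s5_6 (s1_2 p519_26),
   s5_6 (s1_2 p519_25),
   s5_6 (s1_2 p519_27),
   s5_6 (s4_5 (s1_2 (s0_1 p519_26))),
   x7_6 (x7_5 (x7_4 (s5_6 (x3_2 (x3_1 (x3_0 (s1_2 (n5 (n4 p519_24))))))))),
   s5_6 (s4_5 (s1_2 (s0_1 p519_27))),
   x7_6 (x7_5 (x7_4 (s5_6 (x3_2 (x3_1 (x3_0 (s1_2 (n5 (n4 p519_25)))))))))],
  [s4_6 (s0_2 p519_24),
   s5_6 (s4_6 (s1_2 (s0_2 p519_26))),
   s4_6 (s0_2 p519_26),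
   x7_6 (x7_5 (x7_4 (s4_6 (x3_2 (x3_1 (x3_0 (s0_2 (n5 (n4 p519_24))))))))),
   s4_6 (s0_2 p519_25),
   s5_6 (s4_6 (s1_2 (s0_2 p519_27))),
   s4_6 (s0_2 p519_27),
   x7_6 (x7_5 (x7_4 (s4_6 (x3_2 (x3_1 (x3_0 (s0_2 (n5 (n4 p519_25)))))))))],
  [p519_56,
   p519_57,
   s5_6 (s1_2 p519_57),
   p519_59,
   s4_6 (s0_2 p519_57),
   s4_5 (s0_1 p519_59),
   s4_6 (s0_2 p519_59),
   p519_63]]

theorem k519 : eqNN c519 (slO 64 (D.chG 113 7) 8) = true := by decide +kernel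

end Pool.Agent.Lib.MP_afdd4d_co.K10.E6
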