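import Pool.Agent.Lib.MP_afdd4d_co.K10.E6.Dat
import Pool.Agent.Lib.MP_afdd4d_co.K10.E6.Mk
import Pool.Agent.Lib.MP_afdd4d_co.K8.F6Bl5
import Pool.Agent.Lib.MP_afdd4d_co.K10.E6.P0
import Pool.Agent.Lib.MP_afdd4d_co.K10.E6.P1
import Pool.Agent.Lib.MP_afdd4d_co.K10.E6.P2
import Pool.Agent.Lib.MP_afdd4d_co.K10.E6.P3
import Pool.Agent.Lib.MP_afdd4d_co.K10.E6.P4
import Pool.Agent.Lib.MP_afdd4d_co.K10.E6.P5
import Pool.Agent.Lib.MP_afdd4d_co.K10.E6.P6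
import Pool.Agent.Lib.MP_afdd4d_co.K10.E6.P7
import Pool.Agent.Lib.MP_afdd4d_co.K10.E6.P8
import Pool.Agent.Lib.MP_afdd4d_co.K10.E6.P9
import Pool.Agent.Lib.MP_afdd4d_co.K10.E6.P10
import Pool.Agent.Lib.MP_afdd4d_co.K10.E6.P11
import Pool.Agent.Lib.MP_afdd4d_co.K10.E6.P12
import Pool.Agent.Lib.MP_afdd4d_co.K10.E6.P13
import Pool.Agent.Lib.MP_afdd4d_co.K10.E6.P14
import Pool.Agent.Lib.MP_afdd4d_co.K10.E6.P15
import Pool.Agent.Lib.MP_afdd4d_co.K10.E6.P16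
import Pool.Agent.Lib.MP_afdd4d_co.K10.E6.P17
import Pool.Agent.Lib.MP_afdd4d_co.K10.E6.P18
import Pool.Agent.Lib.MP_afdd4d_co.K10.E6.P19
import Pool.Agent.Lib.MP_afdd4d_co.K10.E6.P20
import Pool.Agent.Lib.MP_afdd4d_co.K10.E6.P21
import Pool.Agent.Lib.MP_afdd4d_co.K10.E6.P22
import Pool.Agent.Lib.MP_afdd4d_co.K10.E6.P23
import Pool.Agent.Lib.MP_afdd4d_co.K10.E6.P24
import Pool.Agent.Lib.MP_afdd4d_co.K10.E6.P25
import Pool.Agent.Lib.MP_afdd4d_co.K10.E6.P26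
import Pool.Agent.Lib.MP_afdd4d_co.K10.E6.P27
import Pool.Agent.Lib.MP_afdd4d_co.K10.E6.P28
import Pool.Agent.Lib.MP_afdd4d_co.K10.E6.P29
import Pool.Agent.Lib.MP_afdd4d_co.K10.E6.P30
import Pool.Agent.Lib.MP_afdd4d_co.K10.E6.P31
import Pool.Agent.Lib.MP_afdd4d_co.K10.E6.P32

/-!
# Tables
-/

namespace Pool.Agent.Lib.MP_afdd4d_co.K10.E6

open K8

set_option maxRecDepth 100000
set_option exponentiation.threshold 10000000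

/-- The slices of the chunk 52. -/
noncomputable def c52 : List (List ℕ) := [
  [tr p51_1,
   p52_1,
   p52_2,
   p52_3,
   p52_4,
   p52_5,
   p52_6,
   p52_7],
  [s6_7 (s2_3 p52_2),
   s6_7 (s2_3 p52_3),
   p52_10,
   tr p57_1,
   p52_12,
   p52_13,
   p52_14,
   p52_15],
  [s6_7 (s2_3 p52_4),
   s6_7 (s2_3 p52_5),
   s6_7 (s2_3 p52_12),
   s6_7 (s2_3 p52_13),
   p52_20,
   p52_21,
   p52_22,
   p52_23],
  [s6_7 (s2_3 p52_6),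
   s6_7 (s2_3 p52_7),
   s6_7 (s2_3 p52_14),
   s6_7 (s2_3 p52_15),
   s6_7 (s2_3 p52_22),
   s6_7 (s2_3 p52_23),
   p52_30,
   p52_31],
  [p52_32,
   p52_33,
   s6_7 (s2_3 p52_40),
   s6_7 (s2_3 p52_41),
   p52_36,
   p52_37,
   p52_38,
   p52_39],
  [p52_40,
   p52_41,
   p52_42,
   p52_43,
   s6_7 (s2_3 p52_50),
   p52_45,
   s6_7 (s2_3 p52_58),
   p52_47],
  [s6_7 (s2_3 p52_36),
   s6_7 (s2_3 p52_37),
   p52_50,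
   s6_7 (s2_3 p52_45),
   tr p67_1,
   p52_53,
   p52_54,
   p52_55],
  [s6_7 (s2_3 p52_38),
   s6_7 (s2_3 p52_39),
   p52_58,
   s6_7 (s2_3 p52_47),
   s6_7 (s2_3 p52_54),
   s6_7 (s2_3 p52_55),
   p52_62,
   tr p70_1]]

theorem k52 : eqNN c52 (slO 64 (D.chG 7 1) 8) = true := by decide +kernel

/-- The slices of the chunk 53. -/
noncomputable def c53 : List (List ℕ) := [
  [tr p51_3,
   tr p52_3,
   s3_7 (s2_5 (s1_6 (s0_4 p52_3))),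
   p53_3,
   p53_4,
   p53_5,
   s5_6 (s1_2 p53_5),
   p53_7],
  [s3_5 (s2_6 (s1_7 (s0_4 p52_10))),
   p53_9,
   s5_6 (s1_2 p53_9),
   tr p57_3,
   p53_12,
   p53_13,
   s5_6 (s1_2 p53_13),
   p53_15],
  [p53_16,
   p53_17,
   p53_18,
   p53_19,
   p53_20,
   p53_21,
   p53_22,
   p53_23],
  [s5_6 (s1_2 p53_40),
   p53_25,
   s5_6 (s1_2 p53_41),
   p53_27,
   p53_28,
   p53_29,
   p53_30,
   p53_31],
  [s5_6 (s1_2 p53_16),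
   s5_6 (s1_2 p53_18),
   s5_6 (s1_2 p53_17),
   s5_6 (s1_2 p53_19),
   s5_6 (s1_2 p53_20),
   s5_6 (s1_2 p53_22),
   s5_6 (s1_2 p53_21),
   s5_6 (s1_2 p53_23)],
  [p53_40,
   p53_41,
   s5_6 (s1_2 p53_25),
   s5_6 (s1_2 p53_27),
   s5_6 (s1_2 p53_28),
   s5_6 (s1_2 p53_30),
   s5_6 (s1_2 p53_29),
   s5_6 (s1_2 p53_31)],
  [p53_48,
   s5_6 (s1_2 p53_50),
   p53_50,
   p53_51,
   tr p67_3,
   p53_53,
   s5_6 (s1_2 p53_53),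
   p53_55],
  [p53_56,
   s5_6 (s1_2 p53_58),
   p53_58,
   p53_59,
   p53_60,
   p53_61,
   s5_6 (s1_2 p53_61),
   tr p70_3]]

theorem k53 : eqNN c53 (slO 64 (D.chG 7 3) 8) = true := by decide +kernel

/-- The slices of the chunk 54. -/
noncomputable def c54 : List (List ℕ) := [
  [tr p51_4,
   tr p52_4,
   s3_7 (s2_5 (s1_6 (s0_4 p52_4))),
   tr p53_4,
   p54_4,
   p54_5,
   s5_6 (s1_2 p54_5),
   p54_7],
  [s3_5 (s2_6 (s1_7 (s0_4 p52_32))),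
   s3_6 (s2_7 (s1_5 (s0_4 p53_16))),
   s6_7 (s5_6 (s3_6 (s2_5 (s1_7 (s0_4 p53_16))))),
   tr p57_4,
   p54_12,
   p54_13,
   s5_6 (s1_2 p54_13),
   p54_15],
  [p54_16,
   p54_17,
   p54_18,
   p54_19,
   p54_20,
   p54_21,
   p54_22,
   p54_23],
  [s5_6 (s1_2 p54_40),
   p54_25,
   s5_6 (s1_2 p54_41),
   p54_27,
   p54_28,
   p54_29,
   p54_30,
   p54_31],
  [s5_6 (s1_2 p54_16),
   s5_6 (s1_2 p54_18),
   s5_6 (s1_2 p54_17),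
   s5_6 (s1_2 p54_19),
   s5_6 (s1_2 p54_20),
   s5_6 (s1_2 p54_22),
   s5_6 (s1_2 p54_21),
   s5_6 (s1_2 p54_23)],
  [p54_40,
   p54_41,
   s5_6 (s1_2 p54_25),
   s5_6 (s1_2 p54_27),
   s5_6 (s1_2 p54_28),
   s5_6 (s1_2 p54_30),
   s5_6 (s1_2 p54_29),
   s5_6 (s1_2 p54_31)],
  [p54_48,
   s5_6 (s1_2 p54_50),
   p54_50,
   p54_51,
   tr p67_4,
   p54_53,
   s5_6 (s1_2 p54_53),
   p54_55],
  [p54_56,
   s5_6 (s1_2 p54_58),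
   p54_58,
   p54_59,
   p54_60,
   p54_61,
   s5_6 (s1_2 p54_61),
   tr p70_4]]

theorem k54 : eqNN c54 (slO 64 (D.chG 7 4) 8) = true := by decide +kernel

/-- The slices of the chunk 55. -/
noncomputable def c55 : List (List ℕ) := [
  [tr p51_5,
   tr p52_5,
   s3_7 (s2_5 (s1_6 (s0_4 p52_6))),
   tr p53_5,
   tr p54_5,
   p55_5,
   p55_6,
   tr p56_5],
  [s3_5 (s2_6 (s1_7 (s0_4 p52_40))),
   s3_6 (s2_7 (s1_5 (s0_4 p53_17))),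
   s3_5 (s2_6 (s1_7 (s0_4 p53_40))),
   tr p57_5,
   tr p58_5,
   p55_13,
   p55_14,
   tr p60_5],
  [s3_6 (s2_7 (s1_5 (s0_4 p54_17))),
   p55_17,
   s3_6 (s2_7 (s1_5 (s0_4 p58_17))),
   p55_19,
   tr p61_5,
   tr p62_5,
   p55_22,
   p55_23],
  [p55_24,
   s3_6 (s2_7 (s1_5 (s0_4 p56_17))),
   p55_26,
   s3_6 (s2_7 (s1_5 (s0_4 p60_17))),
   p55_28,
   p55_29,
   tr p65_5,
   tr p66_5],
  [s3_5 (s2_6 (s1_7 (s0_4 p54_40))),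
   s3_5 (s2_6 (s1_7 (s0_4 p58_40))),
   s6_7 (s5_6 (s3_6 (s2_5 (s1_7 (s0_4 p55_24))))),
   p55_35,
   s3_7 (s2_5 (s1_6 (s0_4 p61_6))),
   p55_37,
   s3_7 (s2_5 (s1_6 (s0_4 p62_6))),
   p55_39],
  [p55_40,
   p55_41,
   s3_5 (s2_6 (s1_7 (s0_4 p56_40))),
   s3_5 (s2_6 (s1_7 (s0_4 p60_40))),
   p55_44,
   s3_7 (s2_5 (s1_6 (s0_4 p65_6))),
   p55_46,
   s3_7 (s2_5 (s1_6 (s0_4 p66_6)))],
  [s3_5 (s2_6 (s1_7 (s0_4 p61_40))),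
   p55_49,
   p55_50,
   s3_5 (s2_6 (s1_7 (s0_4 p65_40))),
   tr p67_5,
   tr p68_5,
   s3_7 (s2_5 (s1_6 (s0_4 p68_6))),
   tr p69_5],
  [s3_5 (s2_6 (s1_7 (s0_4 p62_40))),
   p55_57,
   p55_58,
   s3_5 (s2_6 (s1_7 (s0_4 p66_40))),
   s3_5 (s2_6 (s1_7 (s0_4 p68_40))),
   s3_6 (s2_7 (s1_5 (s0_4 p69_17))),
   s3_5 (s2_6 (s1_7 (s0_4 p69_40))),
   tr p70_5]]

theorem k55 : eqNN c55 (slO 64 (D.chG 7 5) 8) = true := by decide +kernel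

end Pool.Agent.Lib.MP_afdd4d_co.K10.E6
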