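import Pool.Agent.Lib.MP_afdd4d_co.K10.E6.Dat
import Pool.Agent.Lib.MP_afdd4d_co.K10.E6.Mk
import Pool.Agent.Lib.MP_afdd4d_co.K8.F6Bl5
import Pool.Agent.Lib.MP_afdd4d_co.K10.E6.P0
import Pool.Agent.Lib.MP_afdd4d_co.K10.E6.P1
import Pool.Agent.Lib.MP_afdd4d_co.K10.E6.P2
import Pool.Agent.Lib.MP_afdd4d_co.K10.E6.P3
import Pool.Agent.Lib.MP_afdd4d_co.K10.E6.P4
import Pool.Agent.Lib.MP_afdd4d_co.K10.E6.P5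
import Pool.Agent.Lib.MP_afdd4d_co.K10.E6.P6
import Pool.Agent.Lib.MP_afdd4d_co.K10.E6.P7
import Pool.Agent.Lib.MP_afdd4d_co.K10.E6.P8
import Pool.Agent.Lib.MP_afdd4d_co.K10.E6.P9
import Pool.Agent.Lib.MP_afdd4d_co.K10.E6.P10
import Pool.Agent.Lib.MP_afdd4d_co.K10.E6.P11
import Pool.Agent.Lib.MP_afdd4d_co.K10.E6.P12
import Pool.Agent.Lib.MP_afdd4d_co.K10.E6.P13
import Pool.Agent.Lib.MP_afdd4d_co.K10.E6.P14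
import Pool.Agent.Lib.MP_afdd4d_co.K10.E6.P15
import Pool.Agent.Lib.MP_afdd4d_co.K10.E6.P16
import Pool.Agent.Lib.MP_afdd4d_co.K10.E6.P17
import Pool.Agent.Lib.MP_afdd4d_co.K10.E6.P18
import Pool.Agent.Lib.MP_afdd4d_co.K10.E6.P19
import Pool.Agent.Lib.MP_afdd4d_co.K10.E6.P20
import Pool.Agent.Lib.MP_afdd4d_co.K10.E6.P21
import Pool.Agent.Lib.MP_afdd4d_co.K10.E6.P22
import Pool.Agent.Lib.MP_afdd4d_co.K10.E6.P23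
import Pool.Agent.Lib.MP_afdd4d_co.K10.E6.P24
import Pool.Agent.Lib.MP_afdd4d_co.K10.E6.P25
import Pool.Agent.Lib.MP_afdd4d_co.K10.E6.P26
import Pool.Agent.Lib.MP_afdd4d_co.K10.E6.P27
import Pool.Agent.Lib.MP_afdd4d_co.K10.E6.P28
import Pool.Agent.Lib.MP_afdd4d_co.K10.E6.P29
import Pool.Agent.Lib.MP_afdd4d_co.K10.E6.P30
import Pool.Agent.Lib.MP_afdd4d_co.K10.E6.P31
import Pool.Agent.Lib.MP_afdd4d_co.K10.E6.P32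

/-!
# Tables
-/

namespace Pool.Agent.Lib.MP_afdd4d_co.K10.E6

open K8

set_option maxRecDepth 100000
set_option exponentiation.threshold 10000000

/-- The slices of the chunk 520. -/
noncomputable def c520 : List (List ℕ) := [
  [tr p516_8,
   tr p517_8,
   s3_7 (s2_5 (s1_6 (s0_4 p517_8))),
   tr p518_8,
   s3_7 (s2_4 (s1_5 (s0_6 p517_32))),
   s3_7 (s2_6 (s1_4 (s0_5 p518_16))),
   s5_6 (s4_6 (s3_7 (s2_4 (s1_6 (s0_5 p518_16))))),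
   tr p519_8],
  [p520_8,
   p520_9,
   s5_6 (s1_2 p520_9),
   p520_11,
   p520_12,
   p520_13,
   s5_6 (s1_2 p520_13),
   p520_15],
  [p520_16,
   p520_17,
   p520_18,
   p520_19,
   p520_20,
   p520_21,
   p520_22,
   p520_23],
  [p520_24,
   p520_25,
   p520_26,
   p520_27,
   p520_28,
   p520_29,
   p520_30,
   p520_31],
  [s5_6 (s1_2 p520_16),
   s5_6 (s1_2 p520_18),
   s5_6 (s1_2 p520_17),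
   s5_6 (s1_2 p520_19),
   s5_6 (s1_2 p520_20),
   s5_6 (s1_2 p520_22),
   s5_6 (s1_2 p520_21),
   s5_6 (s1_2 p520_23)],
  [s5_6 (s1_2 p520_24),
   s5_6 (s1_2 p520_26),
   s5_6 (s1_2 p520_25),
   s5_6 (s1_2 p520_27),
   s5_6 (s1_2 p520_28),
   s5_6 (s1_2 p520_30),
   s5_6 (s1_2 p520_29),
   s5_6 (s1_2 p520_31)],
  [p520_48,
   p520_49,
   s5_6 (s1_2 p520_49),
   p520_51,
   p520_52,
   p520_53,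
   s5_6 (s1_2 p520_53),
   p520_55],
  [tr p528_8,
   tr p529_8,
   s3_7 (s2_5 (s1_6 (s0_4 p529_8))),
   tr p530_8,
   s3_7 (s2_4 (s1_5 (s0_6 p529_32))),
   s3_7 (s2_6 (s1_4 (s0_5 p530_16))),
   s5_6 (s4_6 (s3_7 (s2_4 (s1_6 (s0_5 p530_16))))),
   tr p531_8]]

theorem k520 : eqNN c520 (slO 64 (D.chG 113 8) 8) = true := by decide +kernel

/-- The slices of the chunk 521. -/
noncomputable def c521 : List (List ℕ) := [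
  [tr p516_9,
   tr p517_9,
   x7_6 (x7_5 (x7_4 (x3_2 (x3_1 (x3_0 (s3_7 (s2_5 (s1_6 (s0_4 (n4 p517_9)))))))))),
   tr p518_9,
   s3_7 (s2_4 (s1_5 (s0_6 p517_36))),
   s3_7 (s2_6 (s1_4 (s0_5 p518_17))),
   x7_6 (x7_5 (x7_4 (s5_6 (s4_6 (x3_2 (x3_1 (x3_0 (s3_7 (s2_4 (s1_6 (s0_5 (n5 p518_17)))))))))))),
   tr p519_9],
  [tr p520_9,
   p521_9,
   p521_10,
   x7_6 (x7_5 (x7_4 (x3_2 (x3_1 (x3_0 (s3_7 (s2_5 (s1_6 (s0_4 (n4 (n0 p520_9))))))))))),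
   p521_12,
   p521_13,
   p521_14,
   x7_6 (x7_5 (x7_4 (s5_6 (x3_2 (x3_1 (x3_0 (s1_2 (n4 (n0 p521_12)))))))))],
  [s3_7 (s2_6 (s1_4 (s0_5 p520_17))),
   p521_17,
   p521_18,
   p521_19,
   p521_20,
   x7_6 (x7_5 (x7_4 (x3_2 (x3_1 (x3_0 (s3_7 (s2_6 (s1_4 (s0_5 (n5 (n0 p520_20))))))))))),
   p521_22,
   x7_6 (x7_5 (x7_4 (s5_6 (x3_2 (x3_1 (x3_0 (s1_2 (n6 (n0 p521_33)))))))))],
  [p521_24,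
   p521_25,
   p521_26,
   p521_27,
   p521_28,
   p521_29,
   x7_6 (x7_5 (x7_4 (x3_2 (x3_1 (x3_0 (tr (n4 (n1 (n0 p524_10))))))))),
   x7_6 (x7_5 (x7_4 (x3_2 (x3_1 (x3_0 (tr (n4 (n1 (n0 p525_10)))))))))],
  [s5_6 (s4_6 (s3_7 (s2_4 (s1_6 (s0_5 p520_20))))),
   p521_33,
   s5_6 (s4_6 (s3_7 (s2_4 (s1_6 (s0_5 p521_20))))),
   x7_6 (x7_5 (x7_4 (s5_6 (x3_2 (x3_1 (x3_0 (s1_2 (n5 (n0 p521_22))))))))),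
   x7_6 (x7_5 (x7_4 (s5_6 (x3_2 (x3_1 (x3_0 (s1_2 (n5 (n0 p521_17))))))))),
   x7_6 (x7_5 (x7_4 (s5_6 (x3_2 (x3_1 (x3_0 (s1_2 (n5 (n0 p521_19))))))))),
   x7_6 (x7_5 (x7_4 (s5_6 (s4_6 (x3_2 (x3_1 (x3_0 (s3_7 (s2_4 (s1_6 (s0_5 (n5 (n0 p520_17))))))))))))),
   x7_6 (x7_5 (x7_4 (s5_6 (x3_2 (x3_1 (x3_0 (s1_2 (n5 (n0 p521_18)))))))))],
  [s3_7 (s2_5 (s1_6 (s0_4 p524_10))),
   x7_6 (x7_5 (x7_4 (s5_6 (x3_2 (x3_1 (x3_0 (s1_2 (n5 (n4 (n0 p521_28)))))))))),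
   s3_7 (s2_5 (s1_6 (s0_4 p525_10))),
   x7_6 (x7_5 (x7_4 (s5_6 (x3_2 (x3_1 (x3_0 (s1_2 (n5 (n4 (n0 p521_29)))))))))),
   x7_6 (x7_5 (x7_4 (s5_6 (x3_2 (x3_1 (x3_0 (s1_2 (n5 (n4 (n0 p521_26)))))))))),
   x7_6 (x7_5 (x7_4 (s5_6 (x3_2 (x3_1 (x3_0 (s1_2 (n5 (n4 (n0 p521_24)))))))))),
   x7_6 (x7_5 (x7_4 (s5_6 (x3_2 (x3_1 (x3_0 (s1_2 (n5 (n4 (n0 p521_27)))))))))),
   x7_6 (x7_5 (x7_4 (s5_6 (x3_2 (x3_1 (x3_0 (s1_2 (n5 (n4 (n0 p521_25))))))))))],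
  [p521_48,
   p521_49,
   p521_50,
   x7_6 (x7_5 (x7_4 (s5_6 (x3_2 (x3_1 (x3_0 (s1_2 (n6 (n5 (n0 p521_48)))))))))),
   p521_52,
   p521_53,
   p521_54,
   x7_6 (x7_5 (x7_4 (s5_6 (x3_2 (x3_1 (x3_0 (s1_2 (n6 (n5 (n0 p521_52))))))))))],
  [tr p528_9,
   tr p529_9,
   x7_6 (x7_5 (x7_4 (x3_2 (x3_1 (x3_0 (s3_7 (s2_5 (s1_6 (s0_4 (n4 (n2 (n1 (n0 p529_9))))))))))))),
   tr p530_9,
   s3_7 (s2_4 (s1_5 (s0_6 p529_36))),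
   s3_7 (s2_6 (s1_4 (s0_5 p530_17))),
   x7_6 (x7_5 (x7_4 (s5_6 (s4_6 (x3_2 (x3_1 (x3_0 (s3_7 (s2_4 (s1_6 (s0_5 (n5 (n2 (n1 (n0 p530_17))))))))))))))),
   tr p531_9]]

theorem k521 : eqNN c521 (slO 64 (D.chG 113 9) 8) = true := by decide +kernel

/-- The slices of the chunk 522. -/
noncomputable def c522 : List (List ℕ) := [
  [tr p516_12,
   tr p517_12,
   s3_7 (s2_5 (s1_6 (s0_4 p517_12))),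
   tr p518_12,
   s3_7 (s2_4 (s1_5 (s0_6 p517_33))),
   s3_7 (s2_6 (s1_4 (s0_5 p518_18))),
   s5_6 (s4_6 (s3_7 (s2_4 (s1_6 (s0_5 p518_18))))),
   tr p519_12],
  [tr p520_12,
   tr p521_12,
   s3_7 (s2_5 (s1_6 (s0_4 p521_12))),
   x7_6 (x7_5 (x7_4 (x3_2 (x3_1 (x3_0 (tr (n4 (n0 p520_15)))))))),
   p522_12,
   p522_13,
   s5_6 (s1_2 p522_13),
   p522_15],
  [s3_7 (s2_6 (s1_4 (s0_5 p520_18))),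
   s3_7 (s2_6 (s1_4 (s0_5 p521_18))),
   p522_18,
   p522_19,
   s5_6 (s4_5 (s3_7 (s2_5 (s1_4 (s0_6 p521_33))))),
   x7_6 (x7_5 (x7_4 (x3_2 (x3_1 (x3_0 (s3_7 (s2_6 (s1_4 (s0_5 (n5 (n0 p520_23))))))))))),
   p522_22,
   p522_23],
  [p522_24,
   p522_25,
   p522_26,
   p522_27,
   p522_28,
   p522_29,
   p522_30,
   p522_31],
  [s5_6 (s4_6 (s3_7 (s2_4 (s1_6 (s0_5 p520_18))))),
   s5_6 (s1_2 p522_18),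
   s5_6 (s4_6 (s3_7 (s2_4 (s1_6 (s0_5 p521_18))))),
   s5_6 (s1_2 p522_19),
   s3_7 (s2_4 (s1_5 (s0_6 p521_33))),
   s5_6 (s1_2 p522_22),
   x7_6 (x7_5 (x7_4 (s5_6 (s4_6 (x3_2 (x3_1 (x3_0 (s3_7 (s2_4 (s1_6 (s0_5 (n5 (n0 p520_23))))))))))))),
   s5_6 (s1_2 p522_23)],
  [s5_6 (s1_2 p522_24),
   s5_6 (s1_2 p522_26),
   s5_6 (s1_2 p522_25),
   s5_6 (s1_2 p522_27),
   s5_6 (s1_2 p522_28),
   s5_6 (s1_2 p522_30),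
   s5_6 (s1_2 p522_29),
   s5_6 (s1_2 p522_31)],
  [p522_48,
   p522_49,
   s5_6 (s1_2 p522_49),
   p522_51,
   p522_52,
   p522_53,
   s5_6 (s1_2 p522_53),
   p522_55],
  [tr p528_12,
   tr p529_12,
   s3_7 (s2_5 (s1_6 (s0_4 p529_12))),
   tr p530_12,
   s3_7 (s2_4 (s1_5 (s0_6 p529_33))),
   s3_7 (s2_6 (s1_4 (s0_5 p530_18))),
   s5_6 (s4_6 (s3_7 (s2_4 (s1_6 (s0_5 p530_18))))),
   tr p531_12]]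

theorem k522 : eqNN c522 (slO 64 (D.chG 113 12) 8) = true := by decide +kernel

/-- The slices of the chunk 523. -/
noncomputable def c523 : List (List ℕ) := [
  [tr p516_13,
   tr p517_13,
   x7_6 (x7_5 (x7_4 (x3_2 (x3_1 (x3_0 (s3_7 (s2_5 (s1_6 (s0_4 (n4 p517_13)))))))))),
   tr p518_13,
   s3_7 (s2_4 (s1_5 (s0_6 p517_37))),
   s3_7 (s2_6 (s1_4 (s0_5 p518_19))),
   x7_6 (x7_5 (x7_4 (s5_6 (s4_6 (x3_2 (x3_1 (x3_0 (s3_7 (s2_4 (s1_6 (s0_5 (n5 p518_19)))))))))))),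
   tr p519_13],
  [tr p520_13,
   tr p521_13,
   s3_7 (s2_5 (s1_6 (s0_4 p521_14))),
   x7_6 (x7_5 (x7_4 (x3_2 (x3_1 (x3_0 (s3_7 (s2_5 (s1_6 (s0_4 (n4 (n0 p520_13))))))))))),
   tr p522_13,
   p523_13,
   p523_14,
   x7_6 (x7_5 (x7_4 (x3_2 (x3_1 (x3_0 (s3_7 (s2_5 (s1_6 (s0_4 (n4 (n0 p522_13)))))))))))],
  [s3_7 (s2_6 (s1_4 (s0_5 p520_19))),
   s3_7 (s2_6 (s1_4 (s0_5 p521_19))),
   s3_7 (s2_6 (s1_4 (s0_5 p522_19))),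
   p523_19,
   x7_6 (x7_5 (x7_4 (x3_2 (x3_1 (x3_0 (s3_7 (s2_6 (s1_4 (s0_5 (n5 (n0 p521_22))))))))))),
   x7_6 (x7_5 (x7_4 (x3_2 (x3_1 (x3_0 (s3_7 (s2_6 (s1_4 (s0_5 (n5 (n0 p520_22))))))))))),
   p523_22,
   x7_6 (x7_5 (x7_4 (x3_2 (x3_1 (x3_0 (s3_7 (s2_6 (s1_4 (s0_5 (n5 (n0 p522_22)))))))))))],
  [p523_24,
   p523_25,
   p523_26,
   p523_27,
   p523_28,
   p523_29,
   x7_6 (x7_5 (x7_4 (x3_2 (x3_1 (x3_0 (tr (n4 (n1 (n0 p524_14))))))))),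
   x7_6 (x7_5 (x7_4 (x3_2 (x3_1 (x3_0 (tr (n4 (n1 (n0 p525_14)))))))))],
  [s5_6 (s4_6 (s3_7 (s2_4 (s1_6 (s0_5 p520_22))))),
   s5_6 (s4_6 (s3_7 (s2_4 (s1_6 (s0_5 p522_22))))),
   s5_6 (s4_6 (s3_7 (s2_4 (s1_6 (s0_5 p521_22))))),
   s5_6 (s4_6 (s3_7 (s2_4 (s1_6 (s0_5 p523_22))))),
   x7_6 (x7_5 (x7_4 (s5_6 (s4_6 (x3_2 (x3_1 (x3_0 (s3_7 (s2_4 (s1_6 (s0_5 (n5 (n0 p521_19))))))))))))),
   x7_6 (x7_5 (x7_4 (s5_6 (x3_2 (x3_1 (x3_0 (s1_2 (n5 (n0 p523_19))))))))),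
   x7_6 (x7_5 (x7_4 (s5_6 (s4_6 (x3_2 (x3_1 (x3_0 (s3_7 (s2_4 (s1_6 (s0_5 (n5 (n0 p520_19))))))))))))),
   x7_6 (x7_5 (x7_4 (s5_6 (s4_6 (x3_2 (x3_1 (x3_0 (s3_7 (s2_4 (s1_6 (s0_5 (n5 (n0 p522_19)))))))))))))],
  [s3_7 (s2_5 (s1_6 (s0_4 p524_14))),
   x7_6 (x7_5 (x7_4 (s5_6 (x3_2 (x3_1 (x3_0 (s1_2 (n5 (n4 (n0 p523_28)))))))))),
   s3_7 (s2_5 (s1_6 (s0_4 p525_14))),
   x7_6 (x7_5 (x7_4 (s5_6 (x3_2 (x3_1 (x3_0 (s1_2 (n5 (n4 (n0 p523_29)))))))))),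
   x7_6 (x7_5 (x7_4 (s5_6 (x3_2 (x3_1 (x3_0 (s1_2 (n5 (n4 (n0 p523_26)))))))))),
   x7_6 (x7_5 (x7_4 (s5_6 (x3_2 (x3_1 (x3_0 (s1_2 (n5 (n4 (n0 p523_24)))))))))),
   x7_6 (x7_5 (x7_4 (s5_6 (x3_2 (x3_1 (x3_0 (s1_2 (n5 (n4 (n0 p523_27)))))))))),
   x7_6 (x7_5 (x7_4 (s5_6 (x3_2 (x3_1 (x3_0 (s1_2 (n5 (n4 (n0 p523_25))))))))))],
  [p523_48,
   p523_49,
   p523_50,
   x7_6 (x7_5 (x7_4 (s5_6 (x3_2 (x3_1 (x3_0 (s1_2 (n6 (n5 (n0 p523_48)))))))))),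
   p523_52,
   p523_53,
   p523_54,
   x7_6 (x7_5 (x7_4 (s5_6 (x3_2 (x3_1 (x3_0 (s1_2 (n6 (n5 (n0 p523_52))))))))))],
  [tr p528_13,
   tr p529_13,
   x7_6 (x7_5 (x7_4 (x3_2 (x3_1 (x3_0 (s3_7 (s2_5 (s1_6 (s0_4 (n4 (n2 (n1 (n0 p529_13))))))))))))),
   tr p530_13,
   s3_7 (s2_4 (s1_5 (s0_6 p529_37))),
   s3_7 (s2_6 (s1_4 (s0_5 p530_19))),
   x7_6 (x7_5 (x7_4 (s5_6 (s4_6 (x3_2 (x3_1 (x3_0 (s3_7 (s2_4 (s1_6 (s0_5 (n5 (n2 (n1 (n0 p530_19))))))))))))))),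
   tr p531_13]]

theorem k523 : eqNN c523 (slO 64 (D.chG 113 13) 8) = true := by decide +kernel

end Pool.Agent.Lib.MP_afdd4d_co.K10.E6
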