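import Pool.Agent.Lib.MP_afdd4d_co.K10.E6.Dat
import Pool.Agent.Lib.MP_afdd4d_co.K10.E6.Mk
import Pool.Agent.Lib.MP_afdd4d_co.K8.F6Bl5
import Pool.Agent.Lib.MP_afdd4d_co.K10.E6.P0
import Pool.Agent.Lib.MP_afdd4d_co.K10.E6.P1
import Pool.Agent.Lib.MP_afdd4d_co.K10.E6.P2
import Pool.Agent.Lib.MP_afdd4d_co.K10.E6.P3
import Pool.Agent.Lib.MP_afdd4d_co.K10.E6.P4
import Pool.Agent.Lib.MP_afdd4d_co.K10.E6.P5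
import Pool.Agent.Lib.MP_afdd4d_co.K10.E6.P6
import Pool.Agent.Lib.MP_afdd4d_co.K10.E6.P7
import Pool.Agent.Lib.MP_afdd4d_co.K10.E6.P8
import Pool.Agent.Lib.MP_afdd4d_co.K10.E6.P9
import Pool.Agent.Lib.MP_afdd4d_co.K10.E6.P10
import Pool.Agent.Lib.MP_afdd4d_co.K10.E6.P11
import Pool.Agent.Lib.MP_afdd4d_co.K10.E6.P12
import Pool.Agent.Lib.MP_afdd4d_co.K10.E6.P13
import Pool.Agent.Lib.MP_afdd4d_co.K10.E6.P14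
import Pool.Agent.Lib.MP_afdd4d_co.K10.E6.P15
import Pool.Agent.Lib.MP_afdd4d_co.K10.E6.P16
import Pool.Agent.Lib.MP_afdd4d_co.K10.E6.P17
import Pool.Agent.Lib.MP_afdd4d_co.K10.E6.P18
import Pool.Agent.Lib.MP_afdd4d_co.K10.E6.P19
import Pool.Agent.Lib.MP_afdd4d_co.K10.E6.P20
import Pool.Agent.Lib.MP_afdd4d_co.K10.E6.P21
import Pool.Agent.Lib.MP_afdd4d_co.K10.E6.P22
import Pool.Agent.Lib.MP_afdd4d_co.K10.E6.P23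
import Pool.Agent.Lib.MP_afdd4d_co.K10.E6.P24
import Pool.Agent.Lib.MP_afdd4d_co.K10.E6.P25
import Pool.Agent.Lib.MP_afdd4d_co.K10.E6.P26
import Pool.Agent.Lib.MP_afdd4d_co.K10.E6.P27
import Pool.Agent.Lib.MP_afdd4d_co.K10.E6.P28
import Pool.Agent.Lib.MP_afdd4d_co.K10.E6.P29
import Pool.Agent.Lib.MP_afdd4d_co.K10.E6.P30
import Pool.Agent.Lib.MP_afdd4d_co.K10.E6.P31
import Pool.Agent.Lib.MP_afdd4d_co.K10.E6.P32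

/-!
# Tables
-/

namespace Pool.Agent.Lib.MP_afdd4d_co.K10.E6

open K8

set_option maxRecDepth 100000
set_option exponentiation.threshold 10000000

/-- The slices of the chunk 524. -/
noncomputable def c524 : List (List ℕ) := [
  [tr p516_24,
   tr p517_24,
   s3_7 (s2_5 (s1_6 (s0_4 p517_40))),
   tr p518_24,
   s5_6 (s4_5 (s3_7 (s2_5 (s1_4 (s0_6 p517_40))))),
   s3_7 (s2_6 (s1_4 (s0_5 p518_24))),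
   s3_7 (s2_4 (s1_5 (s0_6 p518_48))),
   tr p519_24],
  [tr p520_24,
   tr p521_24,
   p524_10,
   x7_6 (x7_5 (x7_4 (x3_2 (x3_1 (x3_0 (tr (n5 (n4 (n0 p520_30))))))))),
   tr p522_24,
   tr p523_24,
   p524_14,
   x7_6 (x7_5 (x7_4 (x3_2 (x3_1 (x3_0 (tr (n5 (n4 (n0 p522_30)))))))))],
  [s3_7 (s2_6 (s1_4 (s0_5 p520_24))),
   s3_7 (s2_6 (s1_4 (s0_5 p521_24))),
   s3_7 (s2_6 (s1_4 (s0_5 p522_24))),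
   s3_7 (s2_6 (s1_4 (s0_5 p523_24))),
   s4_5 (s0_1 p524_10),
   x7_6 (x7_5 (x7_4 (x3_2 (x3_1 (x3_0 (s3_7 (s2_6 (s1_4 (s0_5 (n5 (n4 (n0 p520_30)))))))))))),
   s4_5 (s0_1 p524_14),
   x7_6 (x7_5 (x7_4 (x3_2 (x3_1 (x3_0 (s3_7 (s2_6 (s1_4 (s0_5 (n5 (n4 (n0 p522_30))))))))))))],
  [p524_24,
   p524_25,
   p524_26,
   p524_27,
   s4_5 (s0_1 p524_26),
   s4_5 (s0_1 p524_27),
   p524_30,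
   p524_31],
  [s3_7 (s2_4 (s1_5 (s0_6 p520_48))),
   s3_7 (s2_4 (s1_5 (s0_6 p522_48))),
   s5_6 (s4_6 (s3_7 (s2_4 (s1_6 (s0_5 p521_48))))),
   s5_6 (s4_6 (s3_7 (s2_4 (s1_6 (s0_5 p523_48))))),
   s3_7 (s2_4 (s1_5 (s0_6 p521_48))),
   s3_7 (s2_4 (s1_5 (s0_6 p523_48))),
   x7_6 (x7_5 (x7_4 (x3_2 (x3_1 (x3_0 (s3_7 (s2_4 (s1_5 (s0_6 (n6 (n5 (n0 p520_51)))))))))))),
   x7_6 (x7_5 (x7_4 (x3_2 (x3_1 (x3_0 (s3_7 (s2_4 (s1_5 (s0_6 (n6 (n5 (n0 p522_51))))))))))))],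
  [p524_40,
   p524_41,
   p524_42,
   p524_43,
   p524_44,
   p524_45,
   p524_46,
   p524_47],
  [s4_5 (s0_1 p524_40),
   s4_5 (s0_1 p524_41),
   s4_5 (s0_1 p524_44),
   s4_5 (s0_1 p524_45),
   s4_5 (s0_1 p524_42),
   s4_5 (s0_1 p524_43),
   s4_5 (s0_1 p524_46),
   s4_5 (s0_1 p524_47)],
  [tr p528_24,
   tr p529_24,
   s3_7 (s2_5 (s1_6 (s0_4 p529_40))),
   tr p530_24,
   s5_6 (s4_5 (s3_7 (s2_5 (s1_4 (s0_6 p529_40))))),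
   s3_7 (s2_6 (s1_4 (s0_5 p530_24))),
   s3_7 (s2_4 (s1_5 (s0_6 p530_48))),
   tr p531_24]]

theorem k524 : eqNN c524 (slO 64 (D.chG 113 24) 8) = true := by decide +kernel

/-- The slices of the chunk 525. -/
noncomputable def c525 : List (List ℕ) := [
  [tr p516_25,
   tr p517_25,
   s3_7 (s2_5 (s1_6 (s0_4 p517_42))),
   tr p518_25,
   s5_6 (s4_5 (s3_7 (s2_5 (s1_4 (s0_6 p517_42))))),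
   s3_7 (s2_6 (s1_4 (s0_5 p518_25))),
   s3_7 (s2_4 (s1_5 (s0_6 p518_52))),
   tr p519_25],
  [tr p520_25,
   tr p521_25,
   p525_10,
   x7_6 (x7_5 (x7_4 (x3_2 (x3_1 (x3_0 (tr (n5 (n4 (n0 p520_31))))))))),
   tr p522_25,
   tr p523_25,
   p525_14,
   x7_6 (x7_5 (x7_4 (x3_2 (x3_1 (x3_0 (tr (n5 (n4 (n0 p522_31)))))))))],
  [s3_7 (s2_6 (s1_4 (s0_5 p520_25))),
   s3_7 (s2_6 (s1_4 (s0_5 p521_25))),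
   s3_7 (s2_6 (s1_4 (s0_5 p522_25))),
   s3_7 (s2_6 (s1_4 (s0_5 p523_25))),
   s4_5 (s0_1 p525_10),
   x7_6 (x7_5 (x7_4 (x3_2 (x3_1 (x3_0 (s3_7 (s2_6 (s1_4 (s0_5 (n5 (n4 (n0 p520_31)))))))))))),
   s4_5 (s0_1 p525_14),
   x7_6 (x7_5 (x7_4 (x3_2 (x3_1 (x3_0 (s3_7 (s2_6 (s1_4 (s0_5 (n5 (n4 (n0 p522_31))))))))))))],
  [tr p524_25,
   p525_25,
   p525_26,
   p525_27,
   s4_5 (s0_1 p525_26),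
   s4_5 (s0_1 p525_27),
   x7_6 (x7_5 (x7_4 (x3_2 (x3_1 (x3_0 (tr (n5 (n4 (n1 (n0 p524_31)))))))))),
   p525_31],
  [s3_7 (s2_4 (s1_5 (s0_6 p520_52))),
   s3_7 (s2_4 (s1_5 (s0_6 p522_52))),
   s5_6 (s4_6 (s3_7 (s2_4 (s1_6 (s0_5 p521_52))))),
   s5_6 (s4_6 (s3_7 (s2_4 (s1_6 (s0_5 p523_52))))),
   s3_7 (s2_4 (s1_5 (s0_6 p521_52))),
   s3_7 (s2_4 (s1_5 (s0_6 p523_52))),
   x7_6 (x7_5 (x7_4 (x3_2 (x3_1 (x3_0 (s3_7 (s2_4 (s1_5 (s0_6 (n6 (n5 (n0 p520_55)))))))))))),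
   x7_6 (x7_5 (x7_4 (x3_2 (x3_1 (x3_0 (s3_7 (s2_4 (s1_5 (s0_6 (n6 (n5 (n0 p522_55))))))))))))],
  [s3_7 (s2_5 (s1_6 (s0_4 p524_42))),
   p525_41,
   p525_42,
   p525_43,
   p525_44,
   x7_6 (x7_5 (x7_4 (x3_2 (x3_1 (x3_0 (s3_7 (s2_5 (s1_6 (s0_4 (n6 (n4 (n1 (n0 p524_47))))))))))))),
   p525_46,
   p525_47],
  [s5_6 (s4_5 (s3_7 (s2_5 (s1_4 (s0_6 p524_42))))),
   s4_5 (s0_1 p525_41),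
   s4_5 (s0_1 p525_44),
   x7_6 (x7_5 (x7_4 (s5_6 (s4_5 (x3_2 (x3_1 (x3_0 (s3_7 (s2_5 (s1_4 (s0_6 (n6 (n4 (n1 (n0 p524_47))))))))))))))),
   s4_5 (s0_1 p525_42),
   s4_5 (s0_1 p525_43),
   s4_5 (s0_1 p525_46),
   s4_5 (s0_1 p525_47)],
  [tr p528_25,
   tr p529_25,
   s3_7 (s2_5 (s1_6 (s0_4 p529_42))),
   tr p530_25,
   s5_6 (s4_5 (s3_7 (s2_5 (s1_4 (s0_6 p529_42))))),
   s3_7 (s2_6 (s1_4 (s0_5 p530_25))),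
   s3_7 (s2_4 (s1_5 (s0_6 p530_52))),
   tr p531_25]]

theorem k525 : eqNN c525 (slO 64 (D.chG 113 25) 8) = true := by decide +kernel

/-- The slices of the chunk 526. -/
noncomputable def c526 : List (List ℕ) := [
  [tr p516_26,
   tr p517_26,
   s3_7 (s2_5 (s1_6 (s0_4 p517_41))),
   tr p518_26,
   x7_6 (x7_5 (x7_4 (s5_6 (s4_5 (x3_2 (x3_1 (x3_0 (s3_7 (s2_5 (s1_4 (s0_6 (n6 (n4 p517_41))))))))))))),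
   x7_6 (x7_5 (x7_4 (x3_2 (x3_1 (x3_0 (s3_7 (s2_6 (s1_4 (s0_5 (n5 (n4 p518_26))))))))))),
   s3_7 (s2_4 (s1_5 (s0_6 p518_50))),
   tr p519_26],
  [tr p520_26,
   tr p521_26,
   x7_6 (x7_5 (x7_4 (x3_2 (x3_1 (x3_0 (tr (n5 (n4 (n0 p521_28))))))))),
   x7_6 (x7_5 (x7_4 (x3_2 (x3_1 (x3_0 (tr (n5 (n4 (n0 p520_28))))))))),
   tr p522_26,
   tr p523_26,
   x7_6 (x7_5 (x7_4 (x3_2 (x3_1 (x3_0 (tr (n5 (n4 (n0 p523_28))))))))),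
   x7_6 (x7_5 (x7_4 (x3_2 (x3_1 (x3_0 (tr (n5 (n4 (n0 p522_28)))))))))],
  [s3_7 (s2_6 (s1_4 (s0_5 p520_28))),
   s3_7 (s2_6 (s1_4 (s0_5 p521_28))),
   s3_7 (s2_6 (s1_4 (s0_5 p522_28))),
   s3_7 (s2_6 (s1_4 (s0_5 p523_28))),
   x7_6 (x7_5 (x7_4 (x3_2 (x3_1 (x3_0 (s3_7 (s2_6 (s1_4 (s0_5 (n5 (n4 (n0 p521_26)))))))))))),
   x7_6 (x7_5 (x7_4 (x3_2 (x3_1 (x3_0 (s3_7 (s2_6 (s1_4 (s0_5 (n5 (n4 (n0 p520_26)))))))))))),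
   x7_6 (x7_5 (x7_4 (x3_2 (x3_1 (x3_0 (s3_7 (s2_6 (s1_4 (s0_5 (n5 (n4 (n0 p523_26)))))))))))),
   x7_6 (x7_5 (x7_4 (x3_2 (x3_1 (x3_0 (s3_7 (s2_6 (s1_4 (s0_5 (n5 (n4 (n0 p522_26))))))))))))],
  [tr p524_26,
   tr p525_26,
   p526_26,
   p526_27,
   p526_28,
   p526_29,
   x7_6 (x7_5 (x7_4 (x3_2 (x3_1 (x3_0 (s3_7 (s2_6 (s1_4 (s0_5 (n5 (n4 (n1 (n0 p524_26))))))))))))),
   x7_6 (x7_5 (x7_4 (x3_2 (x3_1 (x3_0 (s3_7 (s2_6 (s1_4 (s0_5 (n5 (n4 (n1 (n0 p525_26)))))))))))))],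
  [s5_6 (s4_6 (s3_7 (s2_4 (s1_6 (s0_5 p520_49))))),
   s5_6 (s4_6 (s3_7 (s2_4 (s1_6 (s0_5 p522_49))))),
   s5_6 (s4_6 (s3_7 (s2_4 (s1_6 (s0_5 p521_49))))),
   s5_6 (s4_6 (s3_7 (s2_4 (s1_6 (s0_5 p523_49))))),
   s3_7 (s2_4 (s1_5 (s0_6 p521_50))),
   s3_7 (s2_4 (s1_5 (s0_6 p523_50))),
   x7_6 (x7_5 (x7_4 (x3_2 (x3_1 (x3_0 (s3_7 (s2_4 (s1_5 (s0_6 (n6 (n5 (n0 p520_49)))))))))))),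
   x7_6 (x7_5 (x7_4 (x3_2 (x3_1 (x3_0 (s3_7 (s2_4 (s1_5 (s0_6 (n6 (n5 (n0 p522_49))))))))))))],
  [s3_7 (s2_5 (s1_6 (s0_4 p524_41))),
   p526_41,
   s3_7 (s2_5 (s1_6 (s0_4 p525_41))),
   p526_43,
   p526_44,
   x7_6 (x7_5 (x7_4 (x3_2 (x3_1 (x3_0 (s3_7 (s2_5 (s1_6 (s0_4 (n6 (n4 (n1 (n0 p524_44))))))))))))),
   p526_46,
   x7_6 (x7_5 (x7_4 (x3_2 (x3_1 (x3_0 (s3_7 (s2_5 (s1_6 (s0_4 (n6 (n4 (n1 (n0 p525_44)))))))))))))],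
  [s5_6 (s4_5 (s3_7 (s2_5 (s1_4 (s0_6 p524_44))))),
   s5_6 (s4_5 (s3_7 (s2_5 (s1_4 (s0_6 p526_44))))),
   x7_6 (x7_5 (x7_4 (s4_5 (x3_2 (x3_1 (x3_0 (s0_1 (n6 (n4 (n1 (n0 p526_41))))))))))),
   x7_6 (x7_5 (x7_4 (s5_6 (s4_5 (x3_2 (x3_1 (x3_0 (s3_7 (s2_5 (s1_4 (s0_6 (n6 (n4 (n1 (n0 p524_41))))))))))))))),
   s5_6 (s4_5 (s3_7 (s2_5 (s1_4 (s0_6 p525_44))))),
   x7_6 (x7_5 (x7_4 (s4_5 (x3_2 (x3_1 (x3_0 (s0_1 (n6 (n4 (n1 (n0 p526_46))))))))))),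
   x7_6 (x7_5 (x7_4 (s4_5 (x3_2 (x3_1 (x3_0 (s0_1 (n6 (n4 (n1 (n0 p526_43))))))))))),
   x7_6 (x7_5 (x7_4 (s5_6 (s4_5 (x3_2 (x3_1 (x3_0 (s3_7 (s2_5 (s1_4 (s0_6 (n6 (n4 (n1 (n0 p525_41)))))))))))))))],
  [tr p528_26,
   tr p529_26,
   s3_7 (s2_5 (s1_6 (s0_4 p529_41))),
   tr p530_26,
   x7_6 (x7_5 (x7_4 (s5_6 (s4_5 (x3_2 (x3_1 (x3_0 (s3_7 (s2_5 (s1_4 (s0_6 (n6 (n4 (n2 (n1 (n0 p529_41)))))))))))))))),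
   x7_6 (x7_5 (x7_4 (x3_2 (x3_1 (x3_0 (s3_7 (s2_6 (s1_4 (s0_5 (n5 (n4 (n2 (n1 (n0 p530_26)))))))))))))),
   s3_7 (s2_4 (s1_5 (s0_6 p530_50))),
   tr p531_26]]

theorem k526 : eqNN c526 (slO 64 (D.chG 113 26) 8) = true := by decide +kernel

/-- The slices of the chunk 527. -/
noncomputable def c527 : List (List ℕ) := [
  [tr p516_27,
   tr p517_27,
   s3_7 (s2_5 (s1_6 (s0_4 p517_43))),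
   tr p518_27,
   x7_6 (x7_5 (x7_4 (s5_6 (s4_5 (x3_2 (x3_1 (x3_0 (s3_7 (s2_5 (s1_4 (s0_6 (n6 (n4 p517_43))))))))))))),
   x7_6 (x7_5 (x7_4 (x3_2 (x3_1 (x3_0 (s3_7 (s2_6 (s1_4 (s0_5 (n5 (n4 p518_27))))))))))),
   s3_7 (s2_4 (s1_5 (s0_6 p518_54))),
   tr p519_27],
  [tr p520_27,
   tr p521_27,
   x7_6 (x7_5 (x7_4 (x3_2 (x3_1 (x3_0 (tr (n5 (n4 (n0 p521_29))))))))),
   x7_6 (x7_5 (x7_4 (x3_2 (x3_1 (x3_0 (tr (n5 (n4 (n0 p520_29))))))))),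
   tr p522_27,
   tr p523_27,
   x7_6 (x7_5 (x7_4 (x3_2 (x3_1 (x3_0 (tr (n5 (n4 (n0 p523_29))))))))),
   x7_6 (x7_5 (x7_4 (x3_2 (x3_1 (x3_0 (tr (n5 (n4 (n0 p522_29)))))))))],
  [s3_7 (s2_6 (s1_4 (s0_5 p520_29))),
   s3_7 (s2_6 (s1_4 (s0_5 p521_29))),
   s3_7 (s2_6 (s1_4 (s0_5 p522_29))),
   s3_7 (s2_6 (s1_4 (s0_5 p523_29))),
   x7_6 (x7_5 (x7_4 (x3_2 (x3_1 (x3_0 (s3_7 (s2_6 (s1_4 (s0_5 (n5 (n4 (n0 p521_27)))))))))))),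
   x7_6 (x7_5 (x7_4 (x3_2 (x3_1 (x3_0 (s3_7 (s2_6 (s1_4 (s0_5 (n5 (n4 (n0 p520_27)))))))))))),
   x7_6 (x7_5 (x7_4 (x3_2 (x3_1 (x3_0 (s3_7 (s2_6 (s1_4 (s0_5 (n5 (n4 (n0 p523_27)))))))))))),
   x7_6 (x7_5 (x7_4 (x3_2 (x3_1 (x3_0 (s3_7 (s2_6 (s1_4 (s0_5 (n5 (n4 (n0 p522_27))))))))))))],
  [tr p524_27,
   tr p525_27,
   tr p526_27,
   p527_27,
   s3_7 (s2_6 (s1_4 (s0_5 p526_29))),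
   p527_29,
   x7_6 (x7_5 (x7_4 (x3_2 (x3_1 (x3_0 (s3_7 (s2_6 (s1_4 (s0_5 (n5 (n4 (n1 (n0 p524_27))))))))))))),
   x7_6 (x7_5 (x7_4 (x3_2 (x3_1 (x3_0 (s3_7 (s2_6 (s1_4 (s0_5 (n5 (n4 (n1 (n0 p525_27)))))))))))))],
  [s5_6 (s4_6 (s3_7 (s2_4 (s1_6 (s0_5 p520_53))))),
   s5_6 (s4_6 (s3_7 (s2_4 (s1_6 (s0_5 p522_53))))),
   s5_6 (s4_6 (s3_7 (s2_4 (s1_6 (s0_5 p521_53))))),
   s5_6 (s4_6 (s3_7 (s2_4 (s1_6 (s0_5 p523_53))))),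
   s3_7 (s2_4 (s1_5 (s0_6 p521_54))),
   s3_7 (s2_4 (s1_5 (s0_6 p523_54))),
   x7_6 (x7_5 (x7_4 (x3_2 (x3_1 (x3_0 (s3_7 (s2_4 (s1_5 (s0_6 (n6 (n5 (n0 p520_53)))))))))))),
   x7_6 (x7_5 (x7_4 (x3_2 (x3_1 (x3_0 (s3_7 (s2_4 (s1_5 (s0_6 (n6 (n5 (n0 p522_53))))))))))))],
  [s3_7 (s2_5 (s1_6 (s0_4 p524_43))),
   s3_7 (s2_5 (s1_6 (s0_4 p526_43))),
   s3_7 (s2_5 (s1_6 (s0_4 p525_43))),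
   p527_43,
   x7_6 (x7_5 (x7_4 (x3_2 (x3_1 (x3_0 (s3_7 (s2_5 (s1_6 (s0_4 (n6 (n4 (n1 (n0 p526_46))))))))))))),
   x7_6 (x7_5 (x7_4 (x3_2 (x3_1 (x3_0 (s3_7 (s2_5 (s1_6 (s0_4 (n6 (n4 (n1 (n0 p524_46))))))))))))),
   p527_46,
   x7_6 (x7_5 (x7_4 (x3_2 (x3_1 (x3_0 (s3_7 (s2_5 (s1_6 (s0_4 (n6 (n4 (n1 (n0 p525_46)))))))))))))],
  [s5_6 (s4_5 (s3_7 (s2_5 (s1_4 (s0_6 p524_46))))),
   s5_6 (s4_5 (s3_7 (s2_5 (s1_4 (s0_6 p526_46))))),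
   x7_6 (x7_5 (x7_4 (s5_6 (s4_5 (x3_2 (x3_1 (x3_0 (s3_7 (s2_5 (s1_4 (s0_6 (n6 (n4 (n1 (n0 p526_43))))))))))))))),
   x7_6 (x7_5 (x7_4 (s5_6 (s4_5 (x3_2 (x3_1 (x3_0 (s3_7 (s2_5 (s1_4 (s0_6 (n6 (n4 (n1 (n0 p524_43))))))))))))))),
   s5_6 (s4_5 (s3_7 (s2_5 (s1_4 (s0_6 p525_46))))),
   s5_6 (s4_5 (s3_7 (s2_5 (s1_4 (s0_6 p527_46))))),
   x7_6 (x7_5 (x7_4 (s4_5 (x3_2 (x3_1 (x3_0 (s0_1 (n6 (n4 (n1 (n0 p527_43))))))))))),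
   x7_6 (x7_5 (x7_4 (s5_6 (s4_5 (x3_2 (x3_1 (x3_0 (s3_7 (s2_5 (s1_4 (s0_6 (n6 (n4 (n1 (n0 p525_43)))))))))))))))],
  [tr p528_27,
   tr p529_27,
   s3_7 (s2_5 (s1_6 (s0_4 p529_43))),
   tr p530_27,
   x7_6 (x7_5 (x7_4 (s5_6 (s4_5 (x3_2 (x3_1 (x3_0 (s3_7 (s2_5 (s1_4 (s0_6 (n6 (n4 (n2 (n1 (n0 p529_43)))))))))))))))),
   x7_6 (x7_5 (x7_4 (x3_2 (x3_1 (x3_0 (s3_7 (s2_6 (s1_4 (s0_5 (n5 (n4 (n2 (n1 (n0 p530_27)))))))))))))),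
   s3_7 (s2_4 (s1_5 (s0_6 p530_54))),
   tr p531_27]]

theorem k527 : eqNN c527 (slO 64 (D.chG 113 27) 8) = true := by decide +kernel

end Pool.Agent.Lib.MP_afdd4d_co.K10.E6
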