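import Pool.Agent.Lib.MP_afdd4d_co.K10.E6.Dat
import Pool.Agent.Lib.MP_afdd4d_co.K10.E6.Mk
import Pool.Agent.Lib.MP_afdd4d_co.K8.F6Bl5
import Pool.Agent.Lib.MP_afdd4d_co.K10.E6.P0
import Pool.Agent.Lib.MP_afdd4d_co.K10.E6.P1
import Pool.Agent.Lib.MP_afdd4d_co.K10.E6.P2
import Pool.Agent.Lib.MP_afdd4d_co.K10.E6.P3
import Pool.Agent.Lib.MP_afdd4d_co.K10.E6.P4
import Pool.Agent.Lib.MP_afdd4d_co.K10.E6.P5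
import Pool.Agent.Lib.MP_afdd4d_co.K10.E6.P6
import Pool.Agent.Lib.MP_afdd4d_co.K10.E6.P7
import Pool.Agent.Lib.MP_afdd4d_co.K10.E6.P8
import Pool.Agent.Lib.MP_afdd4d_co.K10.E6.P9
import Pool.Agent.Lib.MP_afdd4d_co.K10.E6.P10
import Pool.Agent.Lib.MP_afdd4d_co.K10.E6.P11
import Pool.Agent.Lib.MP_afdd4d_co.K10.E6.P12
import Pool.Agent.Lib.MP_afdd4d_co.K10.E6.P13
import Pool.Agent.Lib.MP_afdd4d_co.K10.E6.P14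
import Pool.Agent.Lib.MP_afdd4d_co.K10.E6.P15
import Pool.Agent.Lib.MP_afdd4d_co.K10.E6.P16
import Pool.Agent.Lib.MP_afdd4d_co.K10.E6.P17
import Pool.Agent.Lib.MP_afdd4d_co.K10.E6.P18
import Pool.Agent.Lib.MP_afdd4d_co.K10.E6.P19
import Pool.Agent.Lib.MP_afdd4d_co.K10.E6.P20
import Pool.Agent.Lib.MP_afdd4d_co.K10.E6.P21
import Pool.Agent.Lib.MP_afdd4d_co.K10.E6.P22
import Pool.Agent.Lib.MP_afdd4d_co.K10.E6.P23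
import Pool.Agent.Lib.MP_afdd4d_co.K10.E6.P24
import Pool.Agent.Lib.MP_afdd4d_co.K10.E6.P25
import Pool.Agent.Lib.MP_afdd4d_co.K10.E6.P26
import Pool.Agent.Lib.MP_afdd4d_co.K10.E6.P27
import Pool.Agent.Lib.MP_afdd4d_co.K10.E6.P28
import Pool.Agent.Lib.MP_afdd4d_co.K10.E6.P29
import Pool.Agent.Lib.MP_afdd4d_co.K10.E6.P30
import Pool.Agent.Lib.MP_afdd4d_co.K10.E6.P31
import Pool.Agent.Lib.MP_afdd4d_co.K10.E6.P32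

/-!
# Tables
-/

namespace Pool.Agent.Lib.MP_afdd4d_co.K10.E6

open K8

set_option maxRecDepth 100000
set_option exponentiation.threshold 10000000

/-- The slices of the chunk 528. -/
noncomputable def c528 : List (List ℕ) := [
  [tr p516_56,
   p528_1,
   s5_6 (s1_2 p528_1),
   p528_3,
   s4_6 (s0_2 p528_1),
   s4_5 (s0_1 p528_3),
   s4_6 (s0_2 p528_3),
   tr p519_56],
  [p528_8,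
   p528_9,
   s5_6 (s1_2 p528_9),
   x7_6 (x7_5 (x7_4 (x3_2 (x3_1 (x3_0 (n4 (n2 (n1 (n0 p528_8))))))))),
   p528_12,
   p528_13,
   s5_6 (s1_2 p528_13),
   x7_6 (x7_5 (x7_4 (x3_2 (x3_1 (x3_0 (n4 (n2 (n1 (n0 p528_12)))))))))],
  [s4_5 (s0_1 p528_8),
   s4_5 (s0_1 p528_9),
   s4_5 (s0_1 p528_12),
   s4_5 (s0_1 p528_13),
   s5_6 (s4_6 (s1_2 (s0_2 p528_9))),
   x7_6 (x7_5 (x7_4 (s4_5 (x3_2 (x3_1 (x3_0 (s0_1 (n4 (n2 (n1 (n0 p528_8))))))))))),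
   s5_6 (s4_6 (s1_2 (s0_2 p528_13))),
   x7_6 (x7_5 (x7_4 (s4_5 (x3_2 (x3_1 (x3_0 (s0_1 (n4 (n2 (n1 (n0 p528_12)))))))))))],
  [p528_24,
   p528_25,
   p528_26,
   p528_27,
   s4_5 (s0_1 p528_26),
   s4_5 (s0_1 p528_27),
   x7_6 (x7_5 (x7_4 (x3_2 (x3_1 (x3_0 (n5 (n4 (n2 (n1 (n0 p528_24)))))))))),
   x7_6 (x7_5 (x7_4 (x3_2 (x3_1 (x3_0 (n5 (n4 (n2 (n1 (n0 p528_25))))))))))],
  [s4_6 (s0_2 p528_8),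
   s4_6 (s0_2 p528_12),
   s5_6 (s4_5 (s1_2 (s0_1 p528_9))),
   s5_6 (s4_5 (s1_2 (s0_1 p528_13))),
   s4_6 (s0_2 p528_9),
   s4_6 (s0_2 p528_13),
   x7_6 (x7_5 (x7_4 (s4_6 (x3_2 (x3_1 (x3_0 (s0_2 (n4 (n2 (n1 (n0 p528_8))))))))))),
   x7_6 (x7_5 (x7_4 (s4_6 (x3_2 (x3_1 (x3_0 (s0_2 (n4 (n2 (n1 (n0 p528_12)))))))))))],
  [s5_6 (s1_2 p528_24),
   s5_6 (s1_2 p528_26),
   s5_6 (s1_2 p528_25),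
   s5_6 (s1_2 p528_27),
   s5_6 (s4_5 (s1_2 (s0_1 p528_26))),
   x7_6 (x7_5 (x7_4 (s5_6 (x3_2 (x3_1 (x3_0 (s1_2 (n5 (n4 (n2 (n1 (n0 p528_24)))))))))))),
   s5_6 (s4_5 (s1_2 (s0_1 p528_27))),
   x7_6 (x7_5 (x7_4 (s5_6 (x3_2 (x3_1 (x3_0 (s1_2 (n5 (n4 (n2 (n1 (n0 p528_25))))))))))))],
  [s4_6 (s0_2 p528_24),
   s5_6 (s4_6 (s1_2 (s0_2 p528_26))),
   s4_6 (s0_2 p528_26),
   x7_6 (x7_5 (x7_4 (s4_6 (x3_2 (x3_1 (x3_0 (s0_2 (n5 (n4 (n2 (n1 (n0 p528_24)))))))))))),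
   s4_6 (s0_2 p528_25),
   s5_6 (s4_6 (s1_2 (s0_2 p528_27))),
   s4_6 (s0_2 p528_27),
   x7_6 (x7_5 (x7_4 (s4_6 (x3_2 (x3_1 (x3_0 (s0_2 (n5 (n4 (n2 (n1 (n0 p528_25))))))))))))],
  [p528_56,
   p528_57,
   s5_6 (s1_2 p528_57),
   p528_59,
   s4_6 (s0_2 p528_57),
   s4_5 (s0_1 p528_59),
   s4_6 (s0_2 p528_59),
   p528_63]]

theorem k528 : eqNN c528 (slO 64 (D.chG 113 56) 8) = true := by decide +kernel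

/-- The slices of the chunk 529. -/
noncomputable def c529 : List (List ℕ) := [
  [tr p516_57,
   tr p517_57,
   s3_7 (s2_5 (s1_6 (s0_4 p517_58))),
   tr p518_57,
   s5_6 (s4_5 (s3_7 (s2_5 (s1_4 (s0_6 p517_58))))),
   s3_7 (s2_6 (s1_4 (s0_5 p518_57))),
   s3_7 (s2_4 (s1_5 (s0_6 p518_60))),
   tr p519_57],
  [p529_8,
   p529_9,
   x7_6 (x7_5 (x7_4 (x3_2 (x3_1 (x3_0 (n4 (n2 (n1 (n0 p529_9))))))))),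
   x7_6 (x7_5 (x7_4 (x3_2 (x3_1 (x3_0 (n4 (n2 (n1 (n0 p529_8))))))))),
   p529_12,
   p529_13,
   x7_6 (x7_5 (x7_4 (x3_2 (x3_1 (x3_0 (n4 (n2 (n1 (n0 p529_13))))))))),
   x7_6 (x7_5 (x7_4 (x3_2 (x3_1 (x3_0 (n4 (n2 (n1 (n0 p529_12)))))))))],
  [s4_5 (s0_1 p529_8),
   s4_5 (s0_1 p529_9),
   s4_5 (s0_1 p529_12),
   s4_5 (s0_1 p529_13),
   x7_6 (x7_5 (x7_4 (s4_5 (x3_2 (x3_1 (x3_0 (s0_1 (n4 (n2 (n1 (n0 p529_9))))))))))),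
   x7_6 (x7_5 (x7_4 (s4_5 (x3_2 (x3_1 (x3_0 (s0_1 (n4 (n2 (n1 (n0 p529_8))))))))))),
   x7_6 (x7_5 (x7_4 (s4_5 (x3_2 (x3_1 (x3_0 (s0_1 (n4 (n2 (n1 (n0 p529_13))))))))))),
   x7_6 (x7_5 (x7_4 (s4_5 (x3_2 (x3_1 (x3_0 (s0_1 (n4 (n2 (n1 (n0 p529_12)))))))))))],
  [p529_24,
   p529_25,
   p529_26,
   p529_27,
   s4_5 (s0_1 p529_26),
   s4_5 (s0_1 p529_27),
   x7_6 (x7_5 (x7_4 (x3_2 (x3_1 (x3_0 (n5 (n4 (n2 (n1 (n0 p529_24)))))))))),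
   x7_6 (x7_5 (x7_4 (x3_2 (x3_1 (x3_0 (n5 (n4 (n2 (n1 (n0 p529_25))))))))))],
  [p529_32,
   p529_33,
   s4_5 (s0_1 p529_36),
   s4_5 (s0_1 p529_37),
   p529_36,
   p529_37,
   x7_6 (x7_5 (x7_4 (x3_2 (x3_1 (x3_0 (n6 (n2 (n1 (n0 p529_32))))))))),
   x7_6 (x7_5 (x7_4 (x3_2 (x3_1 (x3_0 (n6 (n2 (n1 (n0 p529_33)))))))))],
  [p529_40,
   p529_41,
   p529_42,
   p529_43,
   x7_6 (x7_5 (x7_4 (x3_2 (x3_1 (x3_0 (n6 (n4 (n2 (n1 (n0 p529_41)))))))))),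
   x7_6 (x7_5 (x7_4 (x3_2 (x3_1 (x3_0 (n6 (n4 (n2 (n1 (n0 p529_40)))))))))),
   x7_6 (x7_5 (x7_4 (x3_2 (x3_1 (x3_0 (n6 (n4 (n2 (n1 (n0 p529_43)))))))))),
   x7_6 (x7_5 (x7_4 (x3_2 (x3_1 (x3_0 (n6 (n4 (n2 (n1 (n0 p529_42))))))))))],
  [s4_5 (s0_1 p529_40),
   s4_5 (s0_1 p529_41),
   x7_6 (x7_5 (x7_4 (s4_5 (x3_2 (x3_1 (x3_0 (s0_1 (n6 (n4 (n2 (n1 (n0 p529_41)))))))))))),
   x7_6 (x7_5 (x7_4 (s4_5 (x3_2 (x3_1 (x3_0 (s0_1 (n6 (n4 (n2 (n1 (n0 p529_40)))))))))))),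
   s4_5 (s0_1 p529_42),
   s4_5 (s0_1 p529_43),
   x7_6 (x7_5 (x7_4 (s4_5 (x3_2 (x3_1 (x3_0 (s0_1 (n6 (n4 (n2 (n1 (n0 p529_43)))))))))))),
   x7_6 (x7_5 (x7_4 (s4_5 (x3_2 (x3_1 (x3_0 (s0_1 (n6 (n4 (n2 (n1 (n0 p529_42))))))))))))],
  [tr p528_57,
   p529_57,
   p529_58,
   p529_59,
   s4_5 (s0_1 p529_58),
   s4_5 (s0_1 p529_59),
   p529_62,
   tr p531_57]]

theorem k529 : eqNN c529 (slO 64 (D.chG 113 57) 8) = true := by decide +kernel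

/-- The slices of the chunk 530. -/
noncomputable def c530 : List (List ℕ) := [
  [tr p516_59,
   tr p517_59,
   s3_7 (s2_5 (s1_6 (s0_4 p517_59))),
   tr p518_59,
   s3_7 (s2_4 (s1_5 (s0_6 p517_62))),
   s3_7 (s2_6 (s1_4 (s0_5 p518_61))),
   s5_6 (s4_6 (s3_7 (s2_4 (s1_6 (s0_5 p518_61))))),
   tr p519_59],
  [p530_8,
   p530_9,
   s5_6 (s1_2 p530_9),
   x7_6 (x7_5 (x7_4 (x3_2 (x3_1 (x3_0 (n4 (n2 (n1 (n0 p530_8))))))))),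
   p530_12,
   p530_13,
   s5_6 (s1_2 p530_13),
   x7_6 (x7_5 (x7_4 (x3_2 (x3_1 (x3_0 (n4 (n2 (n1 (n0 p530_12)))))))))],
  [p530_16,
   p530_17,
   p530_18,
   p530_19,
   x7_6 (x7_5 (x7_4 (x3_2 (x3_1 (x3_0 (n5 (n2 (n1 (n0 p530_17))))))))),
   x7_6 (x7_5 (x7_4 (x3_2 (x3_1 (x3_0 (n5 (n2 (n1 (n0 p530_16))))))))),
   x7_6 (x7_5 (x7_4 (x3_2 (x3_1 (x3_0 (n5 (n2 (n1 (n0 p530_19))))))))),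
   x7_6 (x7_5 (x7_4 (x3_2 (x3_1 (x3_0 (n5 (n2 (n1 (n0 p530_18)))))))))],
  [p530_24,
   p530_25,
   p530_26,
   p530_27,
   x7_6 (x7_5 (x7_4 (x3_2 (x3_1 (x3_0 (n5 (n4 (n2 (n1 (n0 p530_26)))))))))),
   x7_6 (x7_5 (x7_4 (x3_2 (x3_1 (x3_0 (n5 (n4 (n2 (n1 (n0 p530_27)))))))))),
   x7_6 (x7_5 (x7_4 (x3_2 (x3_1 (x3_0 (n5 (n4 (n2 (n1 (n0 p530_24)))))))))),
   x7_6 (x7_5 (x7_4 (x3_2 (x3_1 (x3_0 (n5 (n4 (n2 (n1 (n0 p530_25))))))))))],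
  [s5_6 (s1_2 p530_16),
   s5_6 (s1_2 p530_18),
   s5_6 (s1_2 p530_17),
   s5_6 (s1_2 p530_19),
   x7_6 (x7_5 (x7_4 (s5_6 (x3_2 (x3_1 (x3_0 (s1_2 (n5 (n2 (n1 (n0 p530_17))))))))))),
   x7_6 (x7_5 (x7_4 (s5_6 (x3_2 (x3_1 (x3_0 (s1_2 (n5 (n2 (n1 (n0 p530_19))))))))))),
   x7_6 (x7_5 (x7_4 (s5_6 (x3_2 (x3_1 (x3_0 (s1_2 (n5 (n2 (n1 (n0 p530_16))))))))))),
   x7_6 (x7_5 (x7_4 (s5_6 (x3_2 (x3_1 (x3_0 (s1_2 (n5 (n2 (n1 (n0 p530_18)))))))))))],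
  [s5_6 (s1_2 p530_24),
   s5_6 (s1_2 p530_26),
   s5_6 (s1_2 p530_25),
   s5_6 (s1_2 p530_27),
   x7_6 (x7_5 (x7_4 (s5_6 (x3_2 (x3_1 (x3_0 (s1_2 (n5 (n4 (n2 (n1 (n0 p530_26)))))))))))),
   x7_6 (x7_5 (x7_4 (s5_6 (x3_2 (x3_1 (x3_0 (s1_2 (n5 (n4 (n2 (n1 (n0 p530_24)))))))))))),
   x7_6 (x7_5 (x7_4 (s5_6 (x3_2 (x3_1 (x3_0 (s1_2 (n5 (n4 (n2 (n1 (n0 p530_27)))))))))))),
   x7_6 (x7_5 (x7_4 (s5_6 (x3_2 (x3_1 (x3_0 (s1_2 (n5 (n4 (n2 (n1 (n0 p530_25))))))))))))],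
  [p530_48,
   s5_6 (s1_2 p530_50),
   p530_50,
   x7_6 (x7_5 (x7_4 (x3_2 (x3_1 (x3_0 (n6 (n5 (n2 (n1 (n0 p530_48)))))))))),
   p530_52,
   s5_6 (s1_2 p530_54),
   p530_54,
   x7_6 (x7_5 (x7_4 (x3_2 (x3_1 (x3_0 (n6 (n5 (n2 (n1 (n0 p530_52))))))))))],
  [tr p528_59,
   tr p529_59,
   s3_7 (s2_5 (s1_6 (s0_4 p529_59))),
   p530_59,
   s3_7 (s2_4 (s1_5 (s0_6 p529_62))),
   p530_61,
   s5_6 (s1_2 p530_61),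
   tr p531_59]]

theorem k530 : eqNN c530 (slO 64 (D.chG 113 59) 8) = true := by decide +kernel

/-- The slices of the chunk 531. -/
noncomputable def c531 : List (List ℕ) := [
  [tr p516_63,
   p531_1,
   s5_6 (s1_2 p531_1),
   p531_3,
   s4_6 (s0_2 p531_1),
   s4_5 (s0_1 p531_3),
   s4_6 (s0_2 p531_3),
   tr p519_63],
  [p531_8,
   p531_9,
   s5_6 (s1_2 p531_9),
   x7_6 (x7_5 (x7_4 (x3_2 (x3_1 (x3_0 (n4 (n2 (n1 (n0 p531_8))))))))),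
   p531_12,
   p531_13,
   s5_6 (s1_2 p531_13),
   x7_6 (x7_5 (x7_4 (x3_2 (x3_1 (x3_0 (n4 (n2 (n1 (n0 p531_12)))))))))],
  [s4_5 (s0_1 p531_8),
   s4_5 (s0_1 p531_9),
   s4_5 (s0_1 p531_12),
   s4_5 (s0_1 p531_13),
   s5_6 (s4_6 (s1_2 (s0_2 p531_9))),
   x7_6 (x7_5 (x7_4 (s4_5 (x3_2 (x3_1 (x3_0 (s0_1 (n4 (n2 (n1 (n0 p531_8))))))))))),
   s5_6 (s4_6 (s1_2 (s0_2 p531_13))),
   x7_6 (x7_5 (x7_4 (s4_5 (x3_2 (x3_1 (x3_0 (s0_1 (n4 (n2 (n1 (n0 p531_12)))))))))))],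
  [p531_24,
   p531_25,
   p531_26,
   p531_27,
   s4_5 (s0_1 p531_26),
   s4_5 (s0_1 p531_27),
   x7_6 (x7_5 (x7_4 (x3_2 (x3_1 (x3_0 (n5 (n4 (n2 (n1 (n0 p531_24)))))))))),
   x7_6 (x7_5 (x7_4 (x3_2 (x3_1 (x3_0 (n5 (n4 (n2 (n1 (n0 p531_25))))))))))],
  [s4_6 (s0_2 p531_8),
   s4_6 (s0_2 p531_12),
   s5_6 (s4_5 (s1_2 (s0_1 p531_9))),
   s5_6 (s4_5 (s1_2 (s0_1 p531_13))),
   s4_6 (s0_2 p531_9),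
   s4_6 (s0_2 p531_13),
   x7_6 (x7_5 (x7_4 (s4_6 (x3_2 (x3_1 (x3_0 (s0_2 (n4 (n2 (n1 (n0 p531_8))))))))))),
   x7_6 (x7_5 (x7_4 (s4_6 (x3_2 (x3_1 (x3_0 (s0_2 (n4 (n2 (n1 (n0 p531_12)))))))))))],
  [s5_6 (s1_2 p531_24),
   s5_6 (s1_2 p531_26),
   s5_6 (s1_2 p531_25),
   s5_6 (s1_2 p531_27),
   s5_6 (s4_5 (s1_2 (s0_1 p531_26))),
   x7_6 (x7_5 (x7_4 (s5_6 (x3_2 (x3_1 (x3_0 (s1_2 (n5 (n4 (n2 (n1 (n0 p531_24)))))))))))),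
   s5_6 (s4_5 (s1_2 (s0_1 p531_27))),
   x7_6 (x7_5 (x7_4 (s5_6 (x3_2 (x3_1 (x3_0 (s1_2 (n5 (n4 (n2 (n1 (n0 p531_25))))))))))))],
  [s4_6 (s0_2 p531_24),
   s5_6 (s4_6 (s1_2 (s0_2 p531_26))),
   s4_6 (s0_2 p531_26),
   x7_6 (x7_5 (x7_4 (s4_6 (x3_2 (x3_1 (x3_0 (s0_2 (n5 (n4 (n2 (n1 (n0 p531_24)))))))))))),
   s4_6 (s0_2 p531_25),
   s5_6 (s4_6 (s1_2 (s0_2 p531_27))),
   s4_6 (s0_2 p531_27),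
   x7_6 (x7_5 (x7_4 (s4_6 (x3_2 (x3_1 (x3_0 (s0_2 (n5 (n4 (n2 (n1 (n0 p531_25))))))))))))],
  [tr p528_63,
   p531_57,
   s5_6 (s1_2 p531_57),
   p531_59,
   s4_6 (s0_2 p531_57),
   s4_5 (s0_1 p531_59),
   s4_6 (s0_2 p531_59),
   p531_63]]

theorem k531 : eqNN c531 (slO 64 (D.chG 113 63) 8) = true := by decide +kernel

end Pool.Agent.Lib.MP_afdd4d_co.K10.E6
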