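import Pool.Agent.Lib.MP_afdd4d_co.K10.E6.Dat
import Pool.Agent.Lib.MP_afdd4d_co.K10.E6.Mk
import Pool.Agent.Lib.MP_afdd4d_co.K8.F6Bl5
import Pool.Agent.Lib.MP_afdd4d_co.K10.E6.P0
import Pool.Agent.Lib.MP_afdd4d_co.K10.E6.P1
import Pool.Agent.Lib.MP_afdd4d_co.K10.E6.P2
import Pool.Agent.Lib.MP_afdd4d_co.K10.E6.P3
import Pool.Agent.Lib.MP_afdd4d_co.K10.E6.P4
import Pool.Agent.Lib.MP_afdd4d_co.K10.E6.P5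
import Pool.Agent.Lib.MP_afdd4d_co.K10.E6.P6
import Pool.Agent.Lib.MP_afdd4d_co.K10.E6.P7
import Pool.Agent.Lib.MP_afdd4d_co.K10.E6.P8
import Pool.Agent.Lib.MP_afdd4d_co.K10.E6.P9
import Pool.Agent.Lib.MP_afdd4d_co.K10.E6.P10
import Pool.Agent.Lib.MP_afdd4d_co.K10.E6.P11
import Pool.Agent.Lib.MP_afdd4d_co.K10.E6.P12
import Pool.Agent.Lib.MP_afdd4d_co.K10.E6.P13
import Pool.Agent.Lib.MP_afdd4d_co.K10.E6.P14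
import Pool.Agent.Lib.MP_afdd4d_co.K10.E6.P15
import Pool.Agent.Lib.MP_afdd4d_co.K10.E6.P16
import Pool.Agent.Lib.MP_afdd4d_co.K10.E6.P17
import Pool.Agent.Lib.MP_afdd4d_co.K10.E6.P18
import Pool.Agent.Lib.MP_afdd4d_co.K10.E6.P19
import Pool.Agent.Lib.MP_afdd4d_co.K10.E6.P20
import Pool.Agent.Lib.MP_afdd4d_co.K10.E6.P21
import Pool.Agent.Lib.MP_afdd4d_co.K10.E6.P22
import Pool.Agent.Lib.MP_afdd4d_co.K10.E6.P23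
import Pool.Agent.Lib.MP_afdd4d_co.K10.E6.P24
import Pool.Agent.Lib.MP_afdd4d_co.K10.E6.P25
import Pool.Agent.Lib.MP_afdd4d_co.K10.E6.P26
import Pool.Agent.Lib.MP_afdd4d_co.K10.E6.P27
import Pool.Agent.Lib.MP_afdd4d_co.K10.E6.P28
import Pool.Agent.Lib.MP_afdd4d_co.K10.E6.P29
import Pool.Agent.Lib.MP_afdd4d_co.K10.E6.P30
import Pool.Agent.Lib.MP_afdd4d_co.K10.E6.P31
import Pool.Agent.Lib.MP_afdd4d_co.K10.E6.P32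

/-!
# Tables
-/

namespace Pool.Agent.Lib.MP_afdd4d_co.K10.E6

open K8

set_option maxRecDepth 100000
set_option exponentiation.threshold 10000000

/-- The slices of the chunk 532. -/
noncomputable def c532 : List (List ℕ) := [
  [p532_0,
   tr p533_0,
   s3_7 (s2_5 (s1_6 (s0_4 p533_0))),
   p532_3,
   p532_4,
   p532_5,
   s5_6 (s1_2 p532_5),
   p532_7],
  [s3_5 (s2_6 (s1_7 (s0_4 p533_0))),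
   s6_7 (s2_3 p532_3),
   s5_7 (s1_3 p532_3),
   x7_6 (x7_5 (x7_4 (x3_2 (x3_1 (x3_0 (tr (n4 p536_3))))))),
   p532_12,
   p532_13,
   s5_6 (s1_2 p532_13),
   p532_15],
  [s6_7 (s2_3 p532_4),
   s6_7 (s2_3 p532_5),
   s6_7 (s2_3 p532_12),
   s6_7 (s2_3 p532_13),
   s5_6 (s1_2 p532_36),
   p532_21,
   s6_7 (s5_6 (s2_3 (s1_2 p532_44))),
   s6_7 (s5_7 (s2_3 (s1_3 p532_57)))],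
  [s6_7 (s5_6 (s2_3 (s1_2 p532_5))),
   s6_7 (s2_3 p532_7),
   s6_7 (s5_6 (s2_3 (s1_2 p532_13))),
   s6_7 (s2_3 p532_15),
   s5_6 (s1_2 p532_44),
   s5_7 (s1_3 p532_57),
   s5_6 (s1_2 p532_45),
   s5_6 (s1_2 p532_47)],
  [s5_7 (s1_3 p532_4),
   s5_7 (s1_3 p532_12),
   s6_7 (s5_7 (s2_3 (s1_3 p532_5))),
   s6_7 (s5_7 (s2_3 (s1_3 p532_13))),
   p532_36,
   s5_7 (s1_3 p532_44),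
   s5_6 (s1_2 p532_21),
   s6_7 (s2_3 p532_57)],
  [s5_7 (s1_3 p532_5),
   s5_7 (s1_3 p532_13),
   s5_7 (s1_3 p532_7),
   s5_7 (s1_3 p532_15),
   p532_44,
   p532_45,
   s6_7 (s5_6 (s2_3 (s1_2 p532_57))),
   p532_47],
  [s6_7 (s2_3 p532_36),
   s6_7 (s5_7 (s2_3 (s1_3 p532_44))),
   s6_7 (s2_3 p532_44),
   s6_7 (s2_3 p532_45),
   x7_6 (x7_5 (x7_4 (x3_2 (x3_1 (x3_0 (tr (n4 (n2 (n1 (n0 p540_3)))))))))),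
   tr p541_0,
   s3_7 (s2_5 (s1_6 (s0_4 p541_0))),
   tr p542_0],
  [s5_7 (s1_3 p532_21),
   p532_57,
   s5_6 (s1_2 p532_57),
   s6_7 (s2_3 p532_47),
   s3_5 (s2_6 (s1_7 (s0_4 p541_0))),
   s3_6 (s2_7 (s1_5 (s0_4 p542_0))),
   s3_5 (s2_6 (s1_7 (s0_4 p542_0))),
   p532_63]]

theorem k532 : eqNN c532 (slO 64 (D.chG 183 0) 8) = true := by decide +kernel

/-- The slices of the chunk 533. -/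
noncomputable def c533 : List (List ℕ) := [
  [p533_0,
   p533_1,
   p533_2,
   x7_6 (x7_5 (x7_4 (s5_6 (x3_2 (x3_1 (x3_0 (s1_2 (n4 (n0 p533_0))))))))),
   p533_4,
   p533_5,
   p533_6,
   x7_6 (x7_5 (x7_4 (s5_6 (x3_2 (x3_1 (x3_0 (s1_2 (n4 (n0 p533_4)))))))))],
  [s6_7 (s2_3 p533_2),
   x6_7 (x6_5 (x6_4 (s5_7 (x2_3 (x2_1 (x2_0 (s1_3 (n4 (n0 p533_0))))))))),
   x5_7 (x5_6 (x5_4 (x1_3 (x1_2 (x1_0 (n4 p533_0)))))),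
   tr p536_1,
   p533_12,
   p533_13,
   x7_6 (x7_5 (x7_4 (s5_6 (x3_2 (x3_1 (x3_0 (s1_2 (n0 p533_13)))))))),
   p533_15],
  [s6_7 (s2_3 p533_4),
   s6_7 (s2_3 p533_5),
   s6_7 (s2_3 p533_12),
   s6_7 (s2_3 p533_13),
   x6_7 (x6_5 (x6_4 (s5_7 (x2_3 (x2_1 (x2_0 (s1_3 (n7 (n4 (n0 p533_33)))))))))),
   x6_7 (x6_5 (x6_4 (s5_7 (x2_3 (x2_1 (x2_0 (s1_3 (n7 (n4 (n0 p533_41)))))))))),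
   x7_6 (x7_5 (x7_4 (s5_6 (x3_2 (x3_1 (x3_0 (s1_2 (n6 (n4 (n0 p533_32)))))))))),
   x7_6 (x7_5 (x7_4 (s6_7 (s5_7 (x3_2 (x3_1 (x3_0 (s2_3 (s1_3 (n7 (n4 (n0 p533_40))))))))))))],
  [s6_7 (s2_3 p533_6),
   x7_6 (x7_5 (x7_4 (x6_7 (x6_5 (x6_4 (s5_6 (x3_2 (x3_1 (x3_0 (x2_3 (x2_1 (x2_0 (s1_2 (n4 (n0 p533_4))))))))))))))),
   x7_6 (x7_5 (x7_4 (x6_7 (x6_5 (x6_4 (s5_6 (x3_2 (x3_1 (x3_0 (x2_3 (x2_1 (x2_0 (s1_2 (n0 p533_13)))))))))))))),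
   s6_7 (s2_3 p533_15),
   x6_7 (x6_5 (x6_4 (s5_7 (x2_3 (x2_1 (x2_0 (s1_3 (n7 (n4 (n0 p533_32)))))))))),
   x7_6 (x7_5 (x7_4 (s5_6 (x3_2 (x3_1 (x3_0 (s1_2 (n6 (n0 p533_40))))))))),
   x6_7 (x6_5 (x6_4 (s5_7 (x2_3 (x2_1 (x2_0 (s1_3 (n7 (n0 p533_43))))))))),
   x7_6 (x7_5 (x7_4 (s5_6 (x3_2 (x3_1 (x3_0 (s1_2 (n6 (n0 p533_41)))))))))],
  [p533_32,
   p533_33,
   s6_7 (s2_3 p533_40),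
   s6_7 (s2_3 p533_41),
   x5_7 (x5_6 (x5_4 (x1_3 (x1_2 (x1_0 (n6 (n4 p533_12))))))),
   x7_6 (x7_5 (x7_4 (s6_7 (s5_7 (x3_2 (x3_1 (x3_0 (s2_3 (s1_3 (n5 (n4 (n0 p533_4)))))))))))),
   x7_6 (x7_5 (x7_4 (s6_7 (s5_7 (x3_2 (x3_1 (x3_0 (s2_3 (s1_3 (n5 (n4 (n0 p533_13)))))))))))),
   x5_7 (x5_6 (x5_4 (x1_3 (x1_2 (x1_0 (n6 p533_5))))))],
  [p533_40,
   p533_41,
   x5_7 (x5_6 (x5_4 (x1_3 (x1_2 (x1_0 (n4 p533_32)))))),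
   p533_43,
   x5_7 (x5_6 (x5_4 (x1_3 (x1_2 (x1_0 (n6 (n4 p533_4))))))),
   x5_7 (x5_6 (x5_4 (x1_3 (x1_2 (x1_0 (n6 p533_15)))))),
   x5_7 (x5_6 (x5_4 (x1_3 (x1_2 (x1_0 (n6 (n4 p533_6))))))),
   x5_7 (x5_6 (x5_4 (x1_3 (x1_2 (x1_0 (n6 p533_13))))))],
  [s6_7 (x5_7 (x5_6 (x5_4 (s2_3 (x1_3 (x1_2 (x1_0 (n6 (n4 p533_12))))))))),
   x6_7 (x6_5 (x6_4 (s5_7 (x2_3 (x2_1 (x2_0 (s1_3 (n5 (n4 (n0 p533_4)))))))))),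
   s6_7 (x5_7 (x5_6 (x5_4 (s2_3 (x1_3 (x1_2 (x1_0 (n6 (n4 p533_4))))))))),
   s6_7 (x5_7 (x5_6 (x5_4 (s2_3 (x1_3 (x1_2 (x1_0 (n6 p533_15)))))))),
   tr p540_1,
   x7_6 (x7_5 (x7_4 (s5_6 (x3_2 (x3_1 (x3_0 (s1_2 (n6 (n5 (n4 (n0 p533_54))))))))))),
   p533_54,
   p533_55],
  [x6_7 (x6_5 (x6_4 (s5_7 (x2_3 (x2_1 (x2_0 (s1_3 (n5 (n4 (n0 p533_13)))))))))),
   s6_7 (x5_7 (x5_6 (x5_4 (s2_3 (x1_3 (x1_2 (x1_0 (n6 p533_5)))))))),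
   s6_7 (x5_7 (x5_6 (x5_4 (s2_3 (x1_3 (x1_2 (x1_0 (n6 (n4 p533_6))))))))),
   s6_7 (x5_7 (x5_6 (x5_4 (s2_3 (x1_3 (x1_2 (x1_0 (n6 p533_13)))))))),
   s6_7 (s2_3 p533_54),
   s6_7 (s2_3 p533_55),
   p533_62,
   x6_7 (x6_5 (x6_4 (s5_7 (x2_3 (x2_1 (x2_0 (s1_3 (n7 (n5 (n0 p533_54))))))))))]]

theorem k533 : eqNN c533 (slO 64 (D.chG 183 1) 8) = true := by decide +kernel

/-- The slices of the chunk 534. -/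
noncomputable def c534 : List (List ℕ) := [
  [tr p532_4,
   tr p533_4,
   s3_7 (s2_5 (s1_6 (s0_4 p533_4))),
   x7_6 (x7_5 (x7_4 (x3_2 (x3_1 (x3_0 (tr (n4 (n0 p532_7)))))))),
   p534_4,
   p534_5,
   s5_6 (s1_2 p534_5),
   p534_7],
  [s3_5 (s2_6 (s1_7 (s0_4 p533_32))),
   x6_7 (x6_5 (x6_4 (s3_7 (x2_7 (x2_1 (x2_0 (s2_5 (s1_6 (s0_4 (n6 (n4 (n0 p532_44)))))))))))),
   x5_7 (x5_6 (x5_4 (s3_7 (s2_6 (x1_7 (x1_6 (x1_0 (s1_5 (s0_4 (n6 (n4 (n0 p532_44)))))))))))),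
   x5_7 (x5_6 (x5_4 (s3_6 (s2_7 (x1_7 (x1_6 (x1_0 (s1_5 (s0_4 (n7 (n4 p536_50))))))))))),
   tr p537_4,
   tr p538_4,
   s3_7 (s2_5 (s1_6 (s0_4 p538_4))),
   tr p539_4],
  [p534_16,
   p534_17,
   s3_6 (s2_7 (s1_5 (s0_4 p537_16))),
   p534_19,
   x7_6 (x7_5 (x7_4 (x3_2 (x3_1 (x3_0 (s3_6 (s2_7 (s1_5 (s0_4 (n4 (n1 (n0 p537_25)))))))))))),
   p534_21,
   x7_6 (x7_5 (x7_4 (x3_2 (x3_1 (x3_0 (s3_6 (s2_7 (s1_5 (s0_4 (n4 (n1 (n0 p534_25)))))))))))),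
   s5_6 (s1_2 p534_39)],
  [p534_24,
   p534_25,
   s5_6 (s1_2 p534_41),
   s3_6 (s2_7 (s1_5 (s0_4 p539_16))),
   p534_28,
   s5_6 (s1_2 p534_46),
   x7_6 (x7_5 (x7_4 (x3_2 (x3_1 (x3_0 (s3_6 (s2_7 (s1_5 (s0_4 (n4 (n1 p539_25))))))))))),
   s5_6 (s1_2 p534_47)],
  [s5_6 (s1_2 p534_16),
   s6_7 (s5_6 (s3_6 (s2_5 (s1_7 (s0_4 p537_16))))),
   s5_6 (s1_2 p534_17),
   s5_6 (s1_2 p534_19),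
   x7_6 (x7_5 (x7_4 (s6_7 (s5_6 (x3_2 (x3_1 (x3_0 (s3_6 (s2_5 (s1_7 (s0_4 (n4 (n1 (n0 p537_25)))))))))))))),
   x7_6 (x7_5 (x7_4 (s6_7 (s5_6 (x3_2 (x3_1 (x3_0 (s3_6 (s2_5 (s1_7 (s0_4 (n4 (n1 (n0 p534_25)))))))))))))),
   s5_6 (s1_2 p534_21),
   p534_39],
  [s5_6 (s1_2 p534_24),
   p534_41,
   s5_6 (s1_2 p534_25),
   s6_7 (s5_6 (s3_6 (s2_5 (s1_7 (s0_4 p539_16))))),
   s5_6 (s1_2 p534_28),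
   x7_6 (x7_5 (x7_4 (s6_7 (s5_6 (x3_2 (x3_1 (x3_0 (s3_6 (s2_5 (s1_7 (s0_4 (n4 (n1 p539_25))))))))))))),
   p534_46,
   p534_47],
  [x5_7 (x5_6 (x5_4 (s3_6 (s2_7 (x1_7 (x1_6 (x1_0 (s1_5 (s0_4 (n7 (n4 (n2 (n0 p537_50))))))))))))),
   p534_49,
   s5_6 (s1_2 p534_49),
   x5_7 (x5_6 (x5_4 (s3_6 (s2_7 (x1_7 (x1_6 (x1_0 (s1_5 (s0_4 (n7 (n4 (n2 p539_50)))))))))))),
   x5_7 (x5_6 (x5_4 (s3_6 (s2_7 (x1_7 (x1_6 (x1_0 (s1_5 (s0_4 (n7 (n4 (n3 (n2 (n0 p540_50)))))))))))))),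
   tr p541_4,
   s3_7 (s2_5 (s1_6 (s0_4 p541_4))),
   tr p542_4],
  [p534_56,
   p534_57,
   s5_6 (s1_2 p534_57),
   p534_59,
   s3_5 (s2_6 (s1_7 (s0_4 p541_32))),
   s3_6 (s2_7 (s1_5 (s0_4 p542_16))),
   s6_7 (s5_6 (s3_6 (s2_5 (s1_7 (s0_4 p542_16))))),
   x5_7 (x5_6 (x5_4 (s3_7 (s2_6 (x1_7 (x1_6 (x1_0 (s1_5 (s0_4 (n6 (n4 (n3 (n2 p541_44)))))))))))))]]

theorem k534 : eqNN c534 (slO 64 (D.chG 183 4) 8) = true := by decide +kernel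

/-- The slices of the chunk 535. -/
noncomputable def c535 : List (List ℕ) := [
  [tr p532_5,
   tr p533_5,
   s3_7 (s2_5 (s1_6 (s0_4 p533_6))),
   x7_6 (x7_5 (x7_4 (x3_2 (x3_1 (x3_0 (s3_7 (s2_5 (s1_6 (s0_4 (n4 (n0 p532_5))))))))))),
   tr p534_5,
   p535_5,
   p535_6,
   x7_6 (x7_5 (x7_4 (x3_2 (x3_1 (x3_0 (s3_7 (s2_5 (s1_6 (s0_4 (n4 (n0 p534_5)))))))))))],
  [s3_5 (s2_6 (s1_7 (s0_4 p533_40))),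
   x6_7 (x6_5 (x6_4 (s5_6 (x3_2 (x3_1 (x3_0 (s3_6 (x2_6 (x2_1 (x2_0 (s2_5 (s1_7 (s0_4 (n7 (n4 (n0 p532_57)))))))))))))))),
   x5_7 (x5_6 (x5_4 (s3_6 (s2_7 (x1_7 (x1_6 (x1_0 (s1_5 (s0_4 (n7 (n0 p532_57))))))))))),
   s3_6 (s2_7 (s1_5 (s0_4 p536_17))),
   tr p537_5,
   tr p538_5,
   x7_6 (x7_5 (x7_4 (x3_2 (x3_1 (x3_0 (s3_7 (s2_5 (s1_6 (s0_4 (n4 p538_5)))))))))),
   tr p539_5],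
  [s3_6 (s2_7 (s1_5 (s0_4 p534_17))),
   p535_17,
   s3_6 (s2_7 (s1_5 (s0_4 p537_17))),
   p535_19,
   x7_6 (x7_5 (x7_4 (x3_2 (x3_1 (x3_0 (s3_6 (s2_7 (s1_5 (s0_4 (n4 (n1 (n0 p537_24)))))))))))),
   x7_6 (x7_5 (x7_4 (x3_2 (x3_1 (x3_0 (s3_6 (s2_7 (s1_5 (s0_4 (n4 (n1 (n0 p538_24)))))))))))),
   x7_6 (x7_5 (x7_4 (x3_2 (x3_1 (x3_0 (s3_6 (s2_7 (s1_5 (s0_4 (n4 (n1 (n0 p534_24)))))))))))),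
   x7_6 (x7_5 (x7_4 (x3_2 (x3_1 (x3_0 (s3_6 (s2_7 (s1_5 (s0_4 (n4 (n1 (n0 p535_24))))))))))))],
  [p535_24,
   x7_6 (x7_5 (x7_4 (x6_7 (x6_5 (x6_4 (x3_2 (x3_1 (x3_0 (s3_7 (x2_7 (x2_1 (x2_0 (s2_5 (s1_6 (s0_4 (n6 (n4 (n0 p534_39)))))))))))))))))),
   s6_7 (s5_7 (s3_5 (s2_7 (s1_6 (s0_4 p538_34))))),
   s3_6 (s2_7 (s1_5 (s0_4 p539_17))),
   x6_7 (x6_5 (x6_4 (s3_7 (x2_7 (x2_1 (x2_0 (s2_5 (s1_6 (s0_4 (n6 (n4 (n2 (n0 p534_46))))))))))))),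
   p535_29,
   x7_6 (x7_5 (x7_4 (x3_2 (x3_1 (x3_0 (s3_6 (s2_7 (s1_5 (s0_4 (n4 (n1 p539_24))))))))))),
   x7_6 (x7_5 (x7_4 (s5_6 (x3_2 (x3_1 (x3_0 (s1_2 (n6 (n0 p535_41)))))))))],
  [s6_7 (s5_6 (s3_6 (s2_5 (s1_7 (s0_4 p534_24))))),
   s6_7 (s5_6 (s3_6 (s2_5 (s1_7 (s0_4 p537_24))))),
   s6_7 (s5_6 (s3_6 (s2_5 (s1_7 (s0_4 p535_24))))),
   s6_7 (s5_6 (s3_6 (s2_5 (s1_7 (s0_4 p538_24))))),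
   x7_6 (x7_5 (x7_4 (s6_7 (s5_6 (x3_2 (x3_1 (x3_0 (s3_6 (s2_5 (s1_7 (s0_4 (n4 (n1 (n0 p537_17)))))))))))))),
   x7_6 (x7_5 (x7_4 (s6_7 (s5_6 (x3_2 (x3_1 (x3_0 (s3_6 (s2_5 (s1_7 (s0_4 (n4 (n1 (n0 p534_17)))))))))))))),
   x7_6 (x7_5 (x7_4 (s5_6 (x3_2 (x3_1 (x3_0 (s1_2 (n5 (n4 (n0 p535_19)))))))))),
   x7_6 (x7_5 (x7_4 (s5_6 (x3_2 (x3_1 (x3_0 (s1_2 (n5 (n4 (n0 p535_17))))))))))],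
  [x7_6 (x7_5 (x7_4 (s5_6 (x3_2 (x3_1 (x3_0 (s1_2 (n5 (n0 p535_29))))))))),
   p535_41,
   x7_6 (x7_5 (x7_4 (x5_7 (x5_6 (x5_4 (x3_2 (x3_1 (x3_0 (s3_7 (s2_6 (x1_7 (x1_6 (x1_0 (s1_5 (s0_4 (n6 (n0 p534_46))))))))))))))))),
   s6_7 (s5_6 (s3_6 (s2_5 (s1_7 (s0_4 p539_24))))),
   x5_7 (x5_6 (x5_4 (s3_7 (s2_6 (x1_7 (x1_6 (x1_0 (s1_5 (s0_4 (n6 (n2 (n0 p534_39)))))))))))),
   x7_6 (x7_5 (x7_4 (s6_7 (s5_6 (x3_2 (x3_1 (x3_0 (s3_6 (s2_5 (s1_7 (s0_4 (n4 (n1 p539_17))))))))))))),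
   x7_6 (x7_5 (x7_4 (s5_6 (x3_2 (x3_1 (x3_0 (s1_2 (n5 (n0 p535_24))))))))),
   x7_6 (x7_5 (x7_4 (x3_2 (x3_1 (x3_0 (s3_5 (s2_6 (s1_7 (s0_4 (n4 (n2 p538_34)))))))))))],
  [x5_7 (x5_6 (x5_4 (s3_6 (s2_7 (x1_7 (x1_6 (x1_0 (s1_5 (s0_4 (n7 (n2 (n0 p537_57)))))))))))),
   x6_7 (x6_5 (x6_4 (s5_6 (x3_2 (x3_1 (x3_0 (s3_6 (x2_6 (x2_1 (x2_0 (s2_5 (s1_7 (s0_4 (n7 (n4 (n1 (n0 p534_57))))))))))))))))),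
   x5_7 (x5_6 (x5_4 (s3_6 (s2_7 (x1_7 (x1_6 (x1_0 (s1_5 (s0_4 (n7 (n2 (n0 p534_57)))))))))))),
   x5_7 (x5_6 (x5_4 (s3_6 (s2_7 (x1_7 (x1_6 (x1_0 (s1_5 (s0_4 (n7 (n2 p539_57))))))))))),
   s3_6 (s2_7 (s1_5 (s0_4 p540_17))),
   x7_6 (x7_5 (x7_4 (x3_2 (x3_1 (x3_0 (tr (n4 (n2 (n1 (n0 p541_6)))))))))),
   s3_7 (s2_5 (s1_6 (s0_4 p541_6))),
   tr p542_5],
  [x6_7 (x6_5 (x6_4 (s5_6 (x3_2 (x3_1 (x3_0 (s3_6 (x2_6 (x2_1 (x2_0 (s2_5 (s1_7 (s0_4 (n7 (n4 (n1 (n0 p538_57))))))))))))))))),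
   p535_57,
   p535_58,
   x5_7 (x5_6 (x5_4 (s3_6 (s2_7 (x1_7 (x1_6 (x1_0 (s1_5 (s0_4 (n7 (n2 p538_57))))))))))),
   s6_7 (s5_7 (s3_5 (s2_7 (s1_6 (s0_4 p541_34))))),
   s3_6 (s2_7 (s1_5 (s0_4 p542_17))),
   s3_5 (s2_6 (s1_7 (s0_4 p542_40))),
   x7_6 (x7_5 (x7_4 (x3_2 (x3_1 (x3_0 (s3_5 (s2_6 (s1_7 (s0_4 (n4 (n3 (n2 p541_34))))))))))))]]

theorem k535 : eqNN c535 (slO 64 (D.chG 183 5) 8) = true := by decide +kernel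

end Pool.Agent.Lib.MP_afdd4d_co.K10.E6
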