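import Pool.Agent.Lib.MP_afdd4d_co.K10.E6.Dat
import Pool.Agent.Lib.MP_afdd4d_co.K10.E6.Mk
import Pool.Agent.Lib.MP_afdd4d_co.K8.F6Bl5
import Pool.Agent.Lib.MP_afdd4d_co.K10.E6.P0
import Pool.Agent.Lib.MP_afdd4d_co.K10.E6.P1
import Pool.Agent.Lib.MP_afdd4d_co.K10.E6.P2
import Pool.Agent.Lib.MP_afdd4d_co.K10.E6.P3
import Pool.Agent.Lib.MP_afdd4d_co.K10.E6.P4
import Pool.Agent.Lib.MP_afdd4d_co.K10.E6.P5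
import Pool.Agent.Lib.MP_afdd4d_co.K10.E6.P6
import Pool.Agent.Lib.MP_afdd4d_co.K10.E6.P7
import Pool.Agent.Lib.MP_afdd4d_co.K10.E6.P8
import Pool.Agent.Lib.MP_afdd4d_co.K10.E6.P9
import Pool.Agent.Lib.MP_afdd4d_co.K10.E6.P10
import Pool.Agent.Lib.MP_afdd4d_co.K10.E6.P11
import Pool.Agent.Lib.MP_afdd4d_co.K10.E6.P12
import Pool.Agent.Lib.MP_afdd4d_co.K10.E6.P13
import Pool.Agent.Lib.MP_afdd4d_co.K10.E6.P14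
import Pool.Agent.Lib.MP_afdd4d_co.K10.E6.P15
import Pool.Agent.Lib.MP_afdd4d_co.K10.E6.P16
import Pool.Agent.Lib.MP_afdd4d_co.K10.E6.P17
import Pool.Agent.Lib.MP_afdd4d_co.K10.E6.P18
import Pool.Agent.Lib.MP_afdd4d_co.K10.E6.P19
import Pool.Agent.Lib.MP_afdd4d_co.K10.E6.P20
import Pool.Agent.Lib.MP_afdd4d_co.K10.E6.P21
import Pool.Agent.Lib.MP_afdd4d_co.K10.E6.P22
import Pool.Agent.Lib.MP_afdd4d_co.K10.E6.P23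
import Pool.Agent.Lib.MP_afdd4d_co.K10.E6.P24
import Pool.Agent.Lib.MP_afdd4d_co.K10.E6.P25
import Pool.Agent.Lib.MP_afdd4d_co.K10.E6.P26
import Pool.Agent.Lib.MP_afdd4d_co.K10.E6.P27
import Pool.Agent.Lib.MP_afdd4d_co.K10.E6.P28
import Pool.Agent.Lib.MP_afdd4d_co.K10.E6.P29
import Pool.Agent.Lib.MP_afdd4d_co.K10.E6.P30
import Pool.Agent.Lib.MP_afdd4d_co.K10.E6.P31
import Pool.Agent.Lib.MP_afdd4d_co.K10.E6.P32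

/-!
# Tables
-/

namespace Pool.Agent.Lib.MP_afdd4d_co.K10.E6

open K8

set_option maxRecDepth 100000
set_option exponentiation.threshold 10000000

/-- The slices of the chunk 536. -/
noncomputable def c536 : List (List ℕ) := [
  [x7_6 (x7_5 (x7_4 (x3_2 (x3_1 (x3_0 (n4 p536_3)))))),
   p536_1,
   s5_6 (s1_2 p536_1),
   p536_3,
   s6_7 (x5_7 (x5_6 (x5_4 (s2_3 (x1_3 (x1_2 (x1_0 (n7 (n4 p536_50))))))))),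
   s6_7 (s2_3 p536_17),
   s6_7 (s5_7 (s2_3 (s1_3 p536_17))),
   x6_7 (x6_5 (x6_4 (s5_7 (x2_3 (x2_1 (x2_0 (s1_3 (n7 p536_50))))))))],
  [s5_7 (s1_3 p536_1),
   s6_7 (s2_3 p536_3),
   s5_7 (s1_3 p536_3),
   p536_11,
   p536_12,
   p536_13,
   s5_6 (s1_2 p536_13),
   p536_15],
  [x5_7 (x5_6 (x5_4 (x1_3 (x1_2 (x1_0 (n7 (n4 p536_50))))))),
   p536_17,
   s6_7 (s2_3 p536_12),
   s6_7 (s2_3 p536_13),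
   x6_7 (x6_5 (x6_4 (x2_3 (x2_1 (x2_0 (n5 (n4 p536_12))))))),
   x6_7 (x6_5 (x6_4 (x2_3 (x2_1 (x2_0 (n5 (n4 p536_13))))))),
   s5_7 (s1_3 p536_50),
   x7_6 (x7_5 (x7_4 (x3_2 (x3_1 (x3_0 (n5 (n4 p536_17)))))))],
  [s5_7 (s1_3 p536_17),
   x7_6 (x7_5 (x7_4 (s6_7 (s5_7 (x3_2 (x3_1 (x3_0 (s2_3 (s1_3 (n7 p536_50)))))))))),
   s6_7 (s5_6 (s2_3 (s1_2 p536_13))),
   s6_7 (s2_3 p536_15),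
   s6_7 (s5_7 (s2_3 (s1_3 p536_50))),
   x7_6 (x7_5 (x7_4 (s5_7 (x3_2 (x3_1 (x3_0 (s1_3 (n7 p536_17)))))))),
   x6_7 (x6_5 (x6_4 (x2_3 (x2_1 (x2_0 (n5 p536_15)))))),
   x6_7 (x6_5 (x6_4 (s5_6 (x2_3 (x2_1 (x2_0 (s1_2 (n6 p536_13))))))))],
  [x6_7 (x6_5 (x6_4 (s5_6 (x2_3 (x2_1 (x2_0 (s1_2 (n7 (n4 p536_50))))))))),
   s5_7 (s1_3 p536_12),
   s5_6 (s1_2 p536_17),
   s6_7 (s5_7 (s2_3 (s1_3 p536_13))),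
   x5_7 (x5_6 (x5_4 (x1_3 (x1_2 (x1_0 (n6 (n4 p536_12))))))),
   s6_7 (s5_6 (s2_3 (s1_2 p536_50))),
   x7_6 (x7_5 (x7_4 (s6_7 (s5_7 (x3_2 (x3_1 (x3_0 (s2_3 (s1_3 (n5 (n4 p536_13))))))))))),
   s6_7 (x5_7 (x5_6 (x5_4 (s2_3 (x1_3 (x1_2 (x1_0 (n7 p536_17))))))))],
  [s6_7 (s5_6 (s2_3 (s1_2 p536_17))),
   s5_7 (s1_3 p536_13),
   x6_7 (x6_5 (x6_4 (x2_3 (x2_1 (x2_0 (n7 p536_50)))))),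
   s5_7 (s1_3 p536_15),
   s6_7 (s2_3 p536_50),
   x5_7 (x5_6 (x5_4 (x1_3 (x1_2 (x1_0 (n6 p536_15)))))),
   x7_6 (x7_5 (x7_4 (s6_7 (s5_6 (x3_2 (x3_1 (x3_0 (s2_3 (s1_2 (n7 p536_17)))))))))),
   x5_7 (x5_6 (x5_4 (x1_3 (x1_2 (x1_0 (n6 p536_13))))))],
  [s6_7 (x5_7 (x5_6 (x5_4 (s2_3 (x1_3 (x1_2 (x1_0 (n6 (n4 p536_12))))))))),
   s5_6 (s1_2 p536_50),
   p536_50,
   s6_7 (x5_7 (x5_6 (x5_4 (s2_3 (x1_3 (x1_2 (x1_0 (n6 p536_15)))))))),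
   p536_52,
   p536_53,
   s5_6 (s1_2 p536_53),
   p536_55],
  [x6_7 (x6_5 (x6_4 (s5_7 (x2_3 (x2_1 (x2_0 (s1_3 (n5 (n4 p536_13))))))))),
   x5_7 (x5_6 (x5_4 (x1_3 (x1_2 (x1_0 (n7 p536_17)))))),
   x6_7 (x6_5 (x6_4 (s5_6 (x2_3 (x2_1 (x2_0 (s1_2 (n7 p536_17)))))))),
   s6_7 (x5_7 (x5_6 (x5_4 (s2_3 (x1_3 (x1_2 (x1_0 (n6 p536_13)))))))),
   s5_7 (s1_3 p536_53),
   s6_7 (s2_3 p536_55),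
   s5_7 (s1_3 p536_55),
   x5_7 (x5_6 (x5_4 (x1_3 (x1_2 (x1_0 (n7 (n6 p536_53)))))))]]

theorem k536 : eqNN c536 (slO 64 (D.chG 183 11) 8) = true := by decide +kernel

/-- The slices of the chunk 537. -/
noncomputable def c537 : List (List ℕ) := [
  [tr p532_12,
   tr p533_12,
   s3_7 (s2_5 (s1_6 (s0_4 p533_12))),
   x7_6 (x7_5 (x7_4 (x3_2 (x3_1 (x3_0 (tr (n0 p532_12))))))),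
   p537_4,
   p537_5,
   s5_6 (s1_2 p537_5),
   x7_6 (x7_5 (x7_4 (x3_2 (x3_1 (x3_0 (n4 p537_4))))))],
  [s3_5 (s2_6 (s1_7 (s0_4 p533_33))),
   x6_7 (x6_5 (x6_4 (s3_7 (x2_7 (x2_1 (x2_0 (s2_5 (s1_6 (s0_4 (n6 (n4 (n0 p532_36)))))))))))),
   x5_7 (x5_6 (x5_4 (s3_7 (s2_6 (x1_7 (x1_6 (x1_0 (s1_5 (s0_4 (n6 (n4 (n0 p532_36)))))))))))),
   tr p536_12,
   p537_12,
   p537_13,
   s5_6 (s1_2 p537_13),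
   p537_15],
  [p537_16,
   p537_17,
   p537_18,
   p537_19,
   x7_6 (x7_5 (x7_4 (x3_2 (x3_1 (x3_0 (n5 (n4 p537_18))))))),
   x7_6 (x7_5 (x7_4 (x3_2 (x3_1 (x3_0 (n5 (n4 p537_19))))))),
   x7_6 (x7_5 (x7_4 (x3_2 (x3_1 (x3_0 (n5 (n4 p537_16))))))),
   x7_6 (x7_5 (x7_4 (x3_2 (x3_1 (x3_0 (n5 (n4 p537_17)))))))],
  [p537_24,
   p537_25,
   s5_6 (s1_2 p537_41),
   p537_27,
   x7_6 (x7_5 (x7_4 (x3_2 (x3_1 (x3_0 (n5 p537_25)))))),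
   x7_6 (x7_5 (x7_4 (x3_2 (x3_1 (x3_0 (n5 p537_24)))))),
   x7_6 (x7_5 (x7_4 (x3_2 (x3_1 (x3_0 (n5 p537_27)))))),
   x7_6 (x7_5 (x7_4 (s5_6 (x3_2 (x3_1 (x3_0 (s1_2 (n6 p537_41))))))))],
  [s5_6 (s1_2 p537_16),
   s5_6 (s1_2 p537_18),
   s5_6 (s1_2 p537_17),
   s5_6 (s1_2 p537_19),
   x7_6 (x7_5 (x7_4 (s5_6 (x3_2 (x3_1 (x3_0 (s1_2 (n5 (n4 p537_18))))))))),
   x7_6 (x7_5 (x7_4 (s5_6 (x3_2 (x3_1 (x3_0 (s1_2 (n5 (n4 p537_16))))))))),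
   x7_6 (x7_5 (x7_4 (s5_6 (x3_2 (x3_1 (x3_0 (s1_2 (n5 (n4 p537_19))))))))),
   x7_6 (x7_5 (x7_4 (s5_6 (x3_2 (x3_1 (x3_0 (s1_2 (n5 (n4 p537_17)))))))))],
  [s5_6 (s1_2 p537_24),
   p537_41,
   s5_6 (s1_2 p537_25),
   s5_6 (s1_2 p537_27),
   x7_6 (x7_5 (x7_4 (s5_6 (x3_2 (x3_1 (x3_0 (s1_2 (n5 p537_25)))))))),
   x7_6 (x7_5 (x7_4 (s5_6 (x3_2 (x3_1 (x3_0 (s1_2 (n5 p537_27)))))))),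
   x7_6 (x7_5 (x7_4 (s5_6 (x3_2 (x3_1 (x3_0 (s1_2 (n5 p537_24)))))))),
   x7_6 (x7_5 (x7_4 (x3_2 (x3_1 (x3_0 (n6 p537_41))))))],
  [p537_48,
   s5_6 (s1_2 p537_50),
   p537_50,
   p537_51,
   tr p540_12,
   tr p541_12,
   s3_7 (s2_5 (s1_6 (s0_4 p541_12))),
   tr p542_12],
  [x7_6 (x7_5 (x7_4 (x3_2 (x3_1 (x3_0 (n6 (n5 p537_59))))))),
   p537_57,
   s5_6 (s1_2 p537_57),
   p537_59,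
   s3_5 (s2_6 (s1_7 (s0_4 p541_33))),
   s3_6 (s2_7 (s1_5 (s0_4 p542_18))),
   s6_7 (s5_6 (s3_6 (s2_5 (s1_7 (s0_4 p542_18))))),
   x7_6 (x7_5 (x7_4 (x3_2 (x3_1 (x3_0 (s3_5 (s2_6 (s1_7 (s0_4 (n3 (n2 p541_33)))))))))))]]

theorem k537 : eqNN c537 (slO 64 (D.chG 183 12) 8) = true := by decide +kernel

/-- The slices of the chunk 538. -/
noncomputable def c538 : List (List ℕ) := [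
  [tr p532_13,
   tr p533_13,
   x7_6 (x7_5 (x7_4 (x3_2 (x3_1 (x3_0 (tr (n0 p533_13))))))),
   x7_6 (x7_5 (x7_4 (x3_2 (x3_1 (x3_0 (tr (n0 p532_13))))))),
   p538_4,
   p538_5,
   x7_6 (x7_5 (x7_4 (x3_2 (x3_1 (x3_0 (n4 p538_5)))))),
   x7_6 (x7_5 (x7_4 (x3_2 (x3_1 (x3_0 (n4 p538_4))))))],
  [s3_5 (s2_6 (s1_7 (s0_4 p533_41))),
   x6_7 (x6_5 (x6_4 (s3_7 (x2_7 (x2_1 (x2_0 (s2_6 (s1_5 (s0_4 (n5 (n4 (n0 p532_21)))))))))))),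
   x5_7 (x5_6 (x5_4 (s3_7 (s2_6 (x1_7 (x1_6 (x1_0 (s1_5 (s0_4 (n6 (n0 p532_47))))))))))),
   tr p536_13,
   tr p537_13,
   p538_13,
   p538_14,
   tr p539_13],
  [s3_6 (s2_7 (s1_5 (s0_4 p534_19))),
   s3_6 (s2_7 (s1_5 (s0_4 p535_19))),
   s3_6 (s2_7 (s1_5 (s0_4 p537_19))),
   p538_19,
   x7_6 (x7_5 (x7_4 (x3_2 (x3_1 (x3_0 (s3_6 (s2_7 (s1_5 (s0_4 (n1 (n0 p537_19))))))))))),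
   x7_6 (x7_5 (x7_4 (x3_2 (x3_1 (x3_0 (n5 (n4 p538_19))))))),
   x7_6 (x7_5 (x7_4 (x3_2 (x3_1 (x3_0 (s3_6 (s2_7 (s1_5 (s0_4 (n1 (n0 p534_19))))))))))),
   x7_6 (x7_5 (x7_4 (x3_2 (x3_1 (x3_0 (s3_6 (s2_7 (s1_5 (s0_4 (n1 (n0 p535_19)))))))))))],
  [p538_24,
   x7_6 (x7_5 (x7_4 (x6_7 (x6_5 (x6_4 (x3_2 (x3_1 (x3_0 (s3_7 (x2_7 (x2_1 (x2_0 (s2_6 (s1_5 (s0_4 (n5 (n4 (n0 p534_21)))))))))))))))))),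
   p538_26,
   s3_6 (s2_7 (s1_5 (s0_4 p539_19))),
   x6_7 (x6_5 (x6_4 (s3_7 (x2_7 (x2_1 (x2_0 (s2_6 (s1_5 (s0_4 (n5 (n4 (n1 (n0 p534_21))))))))))))),
   x7_6 (x7_5 (x7_4 (x3_2 (x3_1 (x3_0 (n5 p538_24)))))),
   x7_6 (x7_5 (x7_4 (x3_2 (x3_1 (x3_0 (s3_6 (s2_7 (s1_5 (s0_4 (n1 p539_19)))))))))),
   x7_6 (x7_5 (x7_4 (x3_2 (x3_1 (x3_0 (n5 p538_26))))))],
  [s3_5 (s2_6 (s1_7 (s0_4 p534_41))),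
   s3_5 (s2_6 (s1_7 (s0_4 p537_41))),
   p538_34,
   s6_7 (s5_6 (s3_6 (s2_5 (s1_7 (s0_4 p538_26))))),
   x7_6 (x7_5 (x7_4 (x3_2 (x3_1 (x3_0 (s3_5 (s2_6 (s1_7 (s0_4 (n2 (n0 p537_41))))))))))),
   x7_6 (x7_5 (x7_4 (x3_2 (x3_1 (x3_0 (s3_5 (s2_6 (s1_7 (s0_4 (n2 (n0 p534_41))))))))))),
   x7_6 (x7_5 (x7_4 (s6_7 (s5_6 (x3_2 (x3_1 (x3_0 (s3_6 (s2_5 (s1_7 (s0_4 (n1 (n0 p538_26))))))))))))),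
   x7_6 (x7_5 (x7_4 (x3_2 (x3_1 (x3_0 (n6 (n4 p538_34)))))))],
  [s3_5 (s2_6 (s1_7 (s0_4 p535_41))),
   p538_41,
   x7_6 (x7_5 (x7_4 (x5_7 (x5_6 (x5_4 (x3_2 (x3_1 (x3_0 (s3_7 (s2_6 (x1_7 (x1_6 (x1_0 (s1_5 (s0_4 (n6 (n0 p534_47))))))))))))))))),
   s3_5 (s2_6 (s1_7 (s0_4 p539_41))),
   x5_7 (x5_6 (x5_4 (s3_7 (s2_6 (x1_7 (x1_6 (x1_0 (s1_5 (s0_4 (n6 (n2 (n0 p534_47)))))))))))),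
   x7_6 (x7_5 (x7_4 (x3_2 (x3_1 (x3_0 (s3_5 (s2_6 (s1_7 (s0_4 (n2 p539_41)))))))))),
   x7_6 (x7_5 (x7_4 (x3_2 (x3_1 (x3_0 (s3_5 (s2_6 (s1_7 (s0_4 (n2 p535_41)))))))))),
   x7_6 (x7_5 (x7_4 (x3_2 (x3_1 (x3_0 (n6 p538_41))))))],
  [x5_7 (x5_6 (x5_4 (s3_6 (s2_7 (x1_7 (x1_6 (x1_0 (s1_5 (s0_4 (n7 (n2 (n0 p537_59)))))))))))),
   x7_6 (x7_5 (x7_4 (x6_7 (x6_5 (x6_4 (s5_6 (s3_6 (x2_6 (x2_1 (x2_0 (s2_5 (s1_7 (s0_4 (n7 (n4 (n2 (n0 p534_56))))))))))))))))),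
   x5_7 (x5_6 (x5_4 (s3_6 (s2_7 (x1_7 (x1_6 (x1_0 (s1_5 (s0_4 (n7 (n2 (n0 p534_59)))))))))))),
   x5_7 (x5_6 (x5_4 (s3_6 (s2_7 (x1_7 (x1_6 (x1_0 (s1_5 (s0_4 (n7 (n2 p539_59))))))))))),
   tr p540_13,
   tr p541_13,
   s3_7 (s2_5 (s1_6 (s0_4 p541_14))),
   tr p542_13],
  [p538_56,
   p538_57,
   x7_6 (x7_5 (x7_4 (x3_2 (x3_1 (x3_0 (n6 (n5 p538_57))))))),
   x7_6 (x7_5 (x7_4 (x3_2 (x3_1 (x3_0 (n6 (n5 p538_56))))))),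
   s3_5 (s2_6 (s1_7 (s0_4 p541_41))),
   s3_6 (s2_7 (s1_5 (s0_4 p542_19))),
   x7_6 (x7_5 (x7_4 (x3_2 (x3_1 (x3_0 (s3_6 (s2_7 (s1_5 (s0_4 (n3 (n1 p542_19))))))))))),
   x7_6 (x7_5 (x7_4 (x3_2 (x3_1 (x3_0 (s3_5 (s2_6 (s1_7 (s0_4 (n3 (n2 p541_41)))))))))))]]

theorem k538 : eqNN c538 (slO 64 (D.chG 183 13) 8) = true := by decide +kernel

/-- The slices of the chunk 539. -/
noncomputable def c539 : List (List ℕ) := [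
  [tr p532_15,
   tr p533_15,
   s3_7 (s2_5 (s1_6 (s0_4 p533_15))),
   x7_6 (x7_5 (x7_4 (x3_2 (x3_1 (x3_0 (tr (n0 p532_15))))))),
   p539_4,
   p539_5,
   s5_6 (s1_2 p539_5),
   x7_6 (x7_5 (x7_4 (x3_2 (x3_1 (x3_0 (n4 p539_4))))))],
  [s3_5 (s2_6 (s1_7 (s0_4 p533_43))),
   x6_7 (x6_5 (x6_4 (s3_7 (x2_7 (x2_1 (x2_0 (s2_5 (s1_6 (s0_4 (n6 (n0 p532_45))))))))))),
   x5_7 (x5_6 (x5_4 (s3_7 (s2_6 (x1_7 (x1_6 (x1_0 (s1_5 (s0_4 (n6 (n0 p532_45))))))))))),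
   tr p536_15,
   tr p537_15,
   p539_13,
   s5_6 (s1_2 p539_13),
   p539_15],
  [p539_16,
   p539_17,
   s3_6 (s2_7 (s1_5 (s0_4 p537_27))),
   p539_19,
   x7_6 (x7_5 (x7_4 (x3_2 (x3_1 (x3_0 (s3_6 (s2_7 (s1_5 (s0_4 (n1 (n0 p537_27))))))))))),
   x7_6 (x7_5 (x7_4 (x3_2 (x3_1 (x3_0 (n5 (n4 p539_19))))))),
   x7_6 (x7_5 (x7_4 (x3_2 (x3_1 (x3_0 (n5 (n4 p539_16))))))),
   x7_6 (x7_5 (x7_4 (x3_2 (x3_1 (x3_0 (n5 (n4 p539_17)))))))],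
  [p539_24,
   p539_25,
   s5_6 (s1_2 p539_41),
   p539_27,
   x7_6 (x7_5 (x7_4 (x3_2 (x3_1 (x3_0 (n5 p539_25)))))),
   x7_6 (x7_5 (x7_4 (x3_2 (x3_1 (x3_0 (n5 p539_24)))))),
   x7_6 (x7_5 (x7_4 (x3_2 (x3_1 (x3_0 (n5 p539_27)))))),
   x7_6 (x7_5 (x7_4 (s5_6 (x3_2 (x3_1 (x3_0 (s1_2 (n6 p539_41))))))))],
  [s5_6 (s1_2 p539_16),
   s6_7 (s5_6 (s3_6 (s2_5 (s1_7 (s0_4 p537_27))))),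
   s5_6 (s1_2 p539_17),
   s5_6 (s1_2 p539_19),
   x7_6 (x7_5 (x7_4 (s6_7 (s5_6 (x3_2 (x3_1 (x3_0 (s3_6 (s2_5 (s1_7 (s0_4 (n1 (n0 p537_27))))))))))))),
   x7_6 (x7_5 (x7_4 (s5_6 (x3_2 (x3_1 (x3_0 (s1_2 (n5 (n4 p539_16))))))))),
   x7_6 (x7_5 (x7_4 (s5_6 (x3_2 (x3_1 (x3_0 (s1_2 (n5 (n4 p539_19))))))))),
   x7_6 (x7_5 (x7_4 (s5_6 (x3_2 (x3_1 (x3_0 (s1_2 (n5 (n4 p539_17)))))))))],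
  [s5_6 (s1_2 p539_24),
   p539_41,
   s5_6 (s1_2 p539_25),
   s5_6 (s1_2 p539_27),
   x7_6 (x7_5 (x7_4 (s5_6 (x3_2 (x3_1 (x3_0 (s1_2 (n5 p539_25)))))))),
   x7_6 (x7_5 (x7_4 (s5_6 (x3_2 (x3_1 (x3_0 (s1_2 (n5 p539_27)))))))),
   x7_6 (x7_5 (x7_4 (s5_6 (x3_2 (x3_1 (x3_0 (s1_2 (n5 p539_24)))))))),
   x7_6 (x7_5 (x7_4 (x3_2 (x3_1 (x3_0 (n6 p539_41))))))],
  [x5_7 (x5_6 (x5_4 (s3_6 (s2_7 (x1_7 (x1_6 (x1_0 (s1_5 (s0_4 (n7 (n2 (n0 p537_51)))))))))))),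
   s5_6 (s1_2 p539_50),
   p539_50,
   p539_51,
   tr p540_15,
   tr p541_15,
   s3_7 (s2_5 (s1_6 (s0_4 p541_15))),
   tr p542_15],
  [x7_6 (x7_5 (x7_4 (x3_2 (x3_1 (x3_0 (n6 (n5 p539_59))))))),
   p539_57,
   s5_6 (s1_2 p539_57),
   p539_59,
   s3_5 (s2_6 (s1_7 (s0_4 p541_43))),
   s3_6 (s2_7 (s1_5 (s0_4 p542_27))),
   s6_7 (s5_6 (s3_6 (s2_5 (s1_7 (s0_4 p542_27))))),
   x7_6 (x7_5 (x7_4 (x3_2 (x3_1 (x3_0 (s3_5 (s2_6 (s1_7 (s0_4 (n3 (n2 p541_43)))))))))))]]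

theorem k539 : eqNN c539 (slO 64 (D.chG 183 15) 8) = true := by decide +kernel

end Pool.Agent.Lib.MP_afdd4d_co.K10.E6
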