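import Pool.Agent.Lib.MP_afdd4d_co.K10.E6.Dat
import Pool.Agent.Lib.MP_afdd4d_co.K10.E6.Mk
import Pool.Agent.Lib.MP_afdd4d_co.K8.F6Bl5
import Pool.Agent.Lib.MP_afdd4d_co.K10.E6.P0
import Pool.Agent.Lib.MP_afdd4d_co.K10.E6.P1
import Pool.Agent.Lib.MP_afdd4d_co.K10.E6.P2
import Pool.Agent.Lib.MP_afdd4d_co.K10.E6.P3
import Pool.Agent.Lib.MP_afdd4d_co.K10.E6.P4
import Pool.Agent.Lib.MP_afdd4d_co.K10.E6.P5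
import Pool.Agent.Lib.MP_afdd4d_co.K10.E6.P6
import Pool.Agent.Lib.MP_afdd4d_co.K10.E6.P7
import Pool.Agent.Lib.MP_afdd4d_co.K10.E6.P8
import Pool.Agent.Lib.MP_afdd4d_co.K10.E6.P9
import Pool.Agent.Lib.MP_afdd4d_co.K10.E6.P10
import Pool.Agent.Lib.MP_afdd4d_co.K10.E6.P11
import Pool.Agent.Lib.MP_afdd4d_co.K10.E6.P12
import Pool.Agent.Lib.MP_afdd4d_co.K10.E6.P13
import Pool.Agent.Lib.MP_afdd4d_co.K10.E6.P14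
import Pool.Agent.Lib.MP_afdd4d_co.K10.E6.P15
import Pool.Agent.Lib.MP_afdd4d_co.K10.E6.P16
import Pool.Agent.Lib.MP_afdd4d_co.K10.E6.P17
import Pool.Agent.Lib.MP_afdd4d_co.K10.E6.P18
import Pool.Agent.Lib.MP_afdd4d_co.K10.E6.P19
import Pool.Agent.Lib.MP_afdd4d_co.K10.E6.P20
import Pool.Agent.Lib.MP_afdd4d_co.K10.E6.P21
import Pool.Agent.Lib.MP_afdd4d_co.K10.E6.P22
import Pool.Agent.Lib.MP_afdd4d_co.K10.E6.P23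
import Pool.Agent.Lib.MP_afdd4d_co.K10.E6.P24
import Pool.Agent.Lib.MP_afdd4d_co.K10.E6.P25
import Pool.Agent.Lib.MP_afdd4d_co.K10.E6.P26
import Pool.Agent.Lib.MP_afdd4d_co.K10.E6.P27
import Pool.Agent.Lib.MP_afdd4d_co.K10.E6.P28
import Pool.Agent.Lib.MP_afdd4d_co.K10.E6.P29
import Pool.Agent.Lib.MP_afdd4d_co.K10.E6.P30
import Pool.Agent.Lib.MP_afdd4d_co.K10.E6.P31
import Pool.Agent.Lib.MP_afdd4d_co.K10.E6.P32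

/-!
# Tables
-/

namespace Pool.Agent.Lib.MP_afdd4d_co.K10.E6

open K8

set_option maxRecDepth 100000
set_option exponentiation.threshold 10000000

/-- The slices of the chunk 540. -/
noncomputable def c540 : List (List ℕ) := [
  [x7_6 (x7_5 (x7_4 (x3_2 (x3_1 (x3_0 (n4 (n2 (n1 (n0 p540_3))))))))),
   p540_1,
   s5_6 (s1_2 p540_1),
   p540_3,
   s6_7 (x5_7 (x5_6 (x5_4 (s2_3 (x1_3 (x1_2 (x1_0 (n7 (n4 (n3 (n2 (n0 p540_50)))))))))))),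
   s6_7 (s2_3 p540_17),
   s6_7 (s5_7 (s2_3 (s1_3 p540_17))),
   x6_7 (x6_5 (x6_4 (s5_7 (x2_3 (x2_1 (x2_0 (s1_3 (n7 (n3 (n1 (n0 p540_50)))))))))))],
  [s5_7 (s1_3 p540_1),
   s6_7 (s2_3 p540_3),
   s5_7 (s1_3 p540_3),
   tr p536_52,
   p540_12,
   p540_13,
   s5_6 (s1_2 p540_13),
   p540_15],
  [x5_7 (x5_6 (x5_4 (x1_3 (x1_2 (x1_0 (n7 (n4 (n3 (n2 (n0 p540_50)))))))))),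
   p540_17,
   s6_7 (s2_3 p540_12),
   s6_7 (s2_3 p540_13),
   x6_7 (x6_5 (x6_4 (x2_3 (x2_1 (x2_0 (n5 (n4 (n3 (n1 (n0 p540_12)))))))))),
   x6_7 (x6_5 (x6_4 (x2_3 (x2_1 (x2_0 (n5 (n4 (n3 (n1 (n0 p540_13)))))))))),
   s5_7 (s1_3 p540_50),
   x7_6 (x7_5 (x7_4 (x3_2 (x3_1 (x3_0 (n5 (n4 (n2 (n1 (n0 p540_17))))))))))],
  [s5_7 (s1_3 p540_17),
   x7_6 (x7_5 (x7_4 (s6_7 (s5_7 (x3_2 (x3_1 (x3_0 (s2_3 (s1_3 (n7 (n3 (n1 (n0 p540_50))))))))))))),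
   s6_7 (s5_6 (s2_3 (s1_2 p540_13))),
   s6_7 (s2_3 p540_15),
   s6_7 (s5_7 (s2_3 (s1_3 p540_50))),
   x7_6 (x7_5 (x7_4 (s5_7 (x3_2 (x3_1 (x3_0 (s1_3 (n7 (n3 (n2 (n0 p540_17))))))))))),
   x6_7 (x6_5 (x6_4 (x2_3 (x2_1 (x2_0 (n5 (n3 (n1 (n0 p540_15))))))))),
   x6_7 (x6_5 (x6_4 (s5_6 (x2_3 (x2_1 (x2_0 (s1_2 (n6 (n3 (n2 (n0 p540_13)))))))))))],
  [x6_7 (x6_5 (x6_4 (s5_6 (x2_3 (x2_1 (x2_0 (s1_2 (n7 (n4 (n3 (n2 (n0 p540_50)))))))))))),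
   s5_7 (s1_3 p540_12),
   s5_6 (s1_2 p540_17),
   s6_7 (s5_7 (s2_3 (s1_3 p540_13))),
   x5_7 (x5_6 (x5_4 (x1_3 (x1_2 (x1_0 (n6 (n4 (n3 (n2 (n0 p540_12)))))))))),
   s6_7 (s5_6 (s2_3 (s1_2 p540_50))),
   x7_6 (x7_5 (x7_4 (s6_7 (s5_7 (x3_2 (x3_1 (x3_0 (s2_3 (s1_3 (n5 (n4 (n3 (n1 (n0 p540_13)))))))))))))),
   s6_7 (x5_7 (x5_6 (x5_4 (s2_3 (x1_3 (x1_2 (x1_0 (n7 (n3 (n2 (n0 p540_17)))))))))))],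
  [s6_7 (s5_6 (s2_3 (s1_2 p540_17))),
   s5_7 (s1_3 p540_13),
   x6_7 (x6_5 (x6_4 (x2_3 (x2_1 (x2_0 (n7 (n3 (n1 (n0 p540_50))))))))),
   s5_7 (s1_3 p540_15),
   s6_7 (s2_3 p540_50),
   x5_7 (x5_6 (x5_4 (x1_3 (x1_2 (x1_0 (n6 (n3 (n2 (n0 p540_15))))))))),
   x7_6 (x7_5 (x7_4 (s6_7 (s5_6 (x3_2 (x3_1 (x3_0 (s2_3 (s1_2 (n7 (n3 (n2 (n0 p540_17))))))))))))),
   x5_7 (x5_6 (x5_4 (x1_3 (x1_2 (x1_0 (n6 (n3 (n2 (n0 p540_13)))))))))],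
  [s6_7 (x5_7 (x5_6 (x5_4 (s2_3 (x1_3 (x1_2 (x1_0 (n6 (n4 (n3 (n2 (n0 p540_12)))))))))))),
   s5_6 (s1_2 p540_50),
   p540_50,
   s6_7 (x5_7 (x5_6 (x5_4 (s2_3 (x1_3 (x1_2 (x1_0 (n6 (n3 (n2 (n0 p540_15))))))))))),
   p540_52,
   p540_53,
   s5_6 (s1_2 p540_53),
   p540_55],
  [x6_7 (x6_5 (x6_4 (s5_7 (x2_3 (x2_1 (x2_0 (s1_3 (n5 (n4 (n3 (n1 (n0 p540_13)))))))))))),
   x5_7 (x5_6 (x5_4 (x1_3 (x1_2 (x1_0 (n7 (n3 (n2 (n0 p540_17))))))))),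
   x6_7 (x6_5 (x6_4 (s5_6 (x2_3 (x2_1 (x2_0 (s1_2 (n7 (n3 (n2 (n0 p540_17))))))))))),
   s6_7 (x5_7 (x5_6 (x5_4 (s2_3 (x1_3 (x1_2 (x1_0 (n6 (n3 (n2 (n0 p540_13))))))))))),
   s5_7 (s1_3 p540_53),
   s6_7 (s2_3 p540_55),
   s5_7 (s1_3 p540_55),
   x5_7 (x5_6 (x5_4 (x1_3 (x1_2 (x1_0 (n7 (n6 (n3 (n2 (n0 p540_53))))))))))]]

theorem k540 : eqNN c540 (slO 64 (D.chG 183 52) 8) = true := by decide +kernel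

/-- The slices of the chunk 541. -/
noncomputable def c541 : List (List ℕ) := [
  [p541_0,
   x7_6 (x7_5 (x7_4 (x3_2 (x3_1 (x3_0 (s3_7 (s2_5 (s1_6 (s0_4 (n6 (n5 (n4 (n0 p533_54))))))))))))),
   s3_7 (s2_5 (s1_6 (s0_4 p533_54))),
   x7_6 (x7_5 (x7_4 (x3_2 (x3_1 (x3_0 (n4 (n2 (n1 (n0 p541_0))))))))),
   p541_4,
   x7_6 (x7_5 (x7_4 (x3_2 (x3_1 (x3_0 (n4 (n2 (n1 (n0 p541_6))))))))),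
   p541_6,
   x7_6 (x7_5 (x7_4 (x3_2 (x3_1 (x3_0 (n4 (n2 (n1 (n0 p541_4)))))))))],
  [s6_7 (s5_7 (s3_5 (s2_7 (s1_6 (s0_4 p533_54))))),
   x6_7 (x6_5 (x6_4 (x2_3 (x2_1 (x2_0 (n4 (n3 (n1 (n0 p541_0))))))))),
   x5_7 (x5_6 (x5_4 (s3_7 (s2_6 (x1_7 (x1_6 (x1_0 (s1_5 (s0_4 (n7 (n6 (n0 p532_63)))))))))))),
   tr p536_53,
   p541_12,
   p541_13,
   p541_14,
   p541_15],
  [s6_7 (s2_3 p541_4),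
   x7_6 (x7_5 (x7_4 (x6_7 (x6_5 (x6_4 (x3_2 (x3_1 (x3_0 (x2_3 (x2_1 (x2_0 (n4 (n2 (n1 (n0 p541_6))))))))))))))),
   s6_7 (s2_3 p541_12),
   s6_7 (s2_3 p541_13),
   x6_7 (x6_5 (x6_4 (x2_3 (x2_1 (x2_0 (n5 (n4 (n3 (n1 (n0 p541_12)))))))))),
   x6_7 (x6_5 (x6_4 (x2_3 (x2_1 (x2_0 (n5 (n4 (n3 (n1 (n0 p541_13)))))))))),
   x7_6 (x7_5 (x7_4 (s6_7 (x3_2 (x3_1 (x3_0 (s2_3 (n5 (n4 (n3 (n1 (n0 p541_4)))))))))))),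
   x6_7 (x6_5 (x6_4 (x2_3 (x2_1 (x2_0 (n5 (n3 (n1 (n0 p541_6)))))))))],
  [s6_7 (s2_3 p541_6),
   x7_6 (x7_5 (x7_4 (x6_7 (x6_5 (x6_4 (x3_2 (x3_1 (x3_0 (x2_3 (x2_1 (x2_0 (n4 (n2 (n1 (n0 p541_4))))))))))))))),
   s6_7 (s2_3 p541_14),
   s6_7 (s2_3 p541_15),
   x6_7 (x6_5 (x6_4 (x2_3 (x2_1 (x2_0 (n5 (n4 (n3 (n1 (n0 p541_4)))))))))),
   x7_6 (x7_5 (x7_4 (s6_7 (x3_2 (x3_1 (x3_0 (s2_3 (n5 (n3 (n1 (n0 p541_6))))))))))),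
   x6_7 (x6_5 (x6_4 (x2_3 (x2_1 (x2_0 (n5 (n3 (n1 (n0 p541_15))))))))),
   x6_7 (x6_5 (x6_4 (x2_3 (x2_1 (x2_0 (n5 (n3 (n1 (n0 p541_14)))))))))],
  [p541_32,
   p541_33,
   p541_34,
   s6_7 (s2_3 p541_41),
   x7_6 (x7_5 (x7_4 (x3_2 (x3_1 (x3_0 (n6 (n4 (n2 (n1 (n0 p541_33)))))))))),
   x7_6 (x7_5 (x7_4 (x3_2 (x3_1 (x3_0 (n6 (n4 (n2 (n1 (n0 p541_32)))))))))),
   x7_6 (x7_5 (x7_4 (s6_7 (x3_2 (x3_1 (x3_0 (s2_3 (n7 (n4 (n3 (n1 (n0 p541_41)))))))))))),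
   x7_6 (x7_5 (x7_4 (x3_2 (x3_1 (x3_0 (n6 (n4 (n2 (n1 (n0 p541_34))))))))))],
  [s6_7 (s2_3 p541_34),
   p541_41,
   x7_6 (x7_5 (x7_4 (x3_2 (x3_1 (x3_0 (n6 (n2 (n1 (n0 p541_44))))))))),
   p541_43,
   p541_44,
   x7_6 (x7_5 (x7_4 (x3_2 (x3_1 (x3_0 (n6 (n2 (n1 (n0 p541_43))))))))),
   x7_6 (x7_5 (x7_4 (s6_7 (x3_2 (x3_1 (x3_0 (s2_3 (n7 (n3 (n1 (n0 p541_34))))))))))),
   x7_6 (x7_5 (x7_4 (x3_2 (x3_1 (x3_0 (n6 (n2 (n1 (n0 p541_41)))))))))],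
  [x6_7 (x6_5 (x6_4 (x2_3 (x2_1 (x2_0 (n7 (n4 (n3 (n1 (n0 p541_33)))))))))),
   x6_7 (x6_5 (x6_4 (x2_3 (x2_1 (x2_0 (n7 (n4 (n3 (n1 (n0 p541_32)))))))))),
   s6_7 (s2_3 p541_44),
   x6_7 (x6_5 (x6_4 (x2_3 (x2_1 (x2_0 (n7 (n3 (n1 (n0 p541_43))))))))),
   tr p540_53,
   p541_53,
   p541_54,
   tr p542_53],
  [x6_7 (x6_5 (x6_4 (x2_3 (x2_1 (x2_0 (n7 (n4 (n3 (n1 (n0 p541_41)))))))))),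
   x7_6 (x7_5 (x7_4 (x6_7 (x6_5 (x6_4 (x3_2 (x3_1 (x3_0 (x2_3 (x2_1 (x2_0 (n6 (n4 (n2 (n1 (n0 p541_34)))))))))))))))),
   x6_7 (x6_5 (x6_4 (x2_3 (x2_1 (x2_0 (n7 (n3 (n1 (n0 p541_34))))))))),
   x7_6 (x7_5 (x7_4 (x6_7 (x6_5 (x6_4 (x3_2 (x3_1 (x3_0 (x2_3 (x2_1 (x2_0 (n6 (n2 (n1 (n0 p541_41))))))))))))))),
   s6_7 (s2_3 p541_54),
   s3_6 (s2_7 (s1_5 (s0_4 p542_53))),
   x6_7 (x6_5 (x6_4 (s3_7 (x2_7 (x2_1 (x2_0 (s2_6 (s1_5 (s0_4 (n7 (n5 (n4 (n3 (n1 p542_53)))))))))))))),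
   x6_7 (x6_5 (x6_4 (x2_3 (x2_1 (x2_0 (n7 (n5 (n3 (n1 (n0 p541_54))))))))))]]

theorem k541 : eqNN c541 (slO 64 (D.chG 183 53) 8) = true := by decide +kernel

/-- The slices of the chunk 542. -/
noncomputable def c542 : List (List ℕ) := [
  [p542_0,
   tr p533_55,
   s3_7 (s2_5 (s1_6 (s0_4 p533_55))),
   x7_6 (x7_5 (x7_4 (x3_2 (x3_1 (x3_0 (n4 (n2 (n1 (n0 p542_0))))))))),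
   p542_4,
   p542_5,
   s5_6 (s1_2 p542_5),
   x7_6 (x7_5 (x7_4 (x3_2 (x3_1 (x3_0 (n4 (n2 (n1 (n0 p542_4)))))))))],
  [s3_5 (s2_6 (s1_7 (s0_4 p533_62))),
   x6_7 (x6_5 (x6_4 (s5_7 (x2_3 (x2_1 (x2_0 (s1_3 (n4 (n3 (n1 p542_0)))))))))),
   s6_7 (x5_7 (x5_6 (x5_4 (s2_3 (x1_3 (x1_2 (x1_0 (n4 (n3 (n2 p542_0)))))))))),
   tr p536_55,
   p542_12,
   p542_13,
   s5_6 (s1_2 p542_13),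
   p542_15],
  [p542_16,
   p542_17,
   p542_18,
   p542_19,
   x7_6 (x7_5 (x7_4 (x3_2 (x3_1 (x3_0 (n5 (n4 (n2 (n1 (n0 p542_18)))))))))),
   x7_6 (x7_5 (x7_4 (x3_2 (x3_1 (x3_0 (n5 (n4 (n2 (n1 (n0 p542_19)))))))))),
   x7_6 (x7_5 (x7_4 (x3_2 (x3_1 (x3_0 (n5 (n4 (n2 (n1 (n0 p542_16)))))))))),
   x7_6 (x7_5 (x7_4 (x3_2 (x3_1 (x3_0 (n5 (n4 (n2 (n1 (n0 p542_17))))))))))],
  [s5_6 (s1_2 p542_40),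
   x6_7 (x6_5 (x6_4 (s5_7 (x2_3 (x2_1 (x2_0 (s1_3 (n4 (n3 (n1 p542_16)))))))))),
   x6_7 (x6_5 (x6_4 (s5_7 (x2_3 (x2_1 (x2_0 (s1_3 (n3 (n1 p542_19))))))))),
   p542_27,
   x7_6 (x7_5 (x7_4 (x6_7 (x6_5 (x6_4 (s5_7 (x3_2 (x3_1 (x3_0 (x2_3 (x2_1 (x2_0 (s1_3 (n7 (n4 (n3 (n2 p542_16))))))))))))))))),
   x6_7 (x6_5 (x6_4 (s5_7 (x2_3 (x2_1 (x2_0 (s1_3 (n7 (n4 (n3 (n1 p542_40))))))))))),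
   x7_6 (x7_5 (x7_4 (x3_2 (x3_1 (x3_0 (n5 (n2 (n1 (n0 p542_27))))))))),
   x7_6 (x7_5 (x7_4 (x6_7 (x6_5 (x6_4 (s5_7 (x3_2 (x3_1 (x3_0 (x2_3 (x2_1 (x2_0 (s1_3 (n7 (n3 (n2 p542_19))))))))))))))))],
  [s5_6 (s1_2 p542_16),
   s5_6 (s1_2 p542_18),
   s5_6 (s1_2 p542_17),
   s5_6 (s1_2 p542_19),
   s6_7 (x5_7 (x5_6 (x5_4 (s2_3 (x1_3 (x1_2 (x1_0 (n7 (n4 (n3 (n2 p542_18))))))))))),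
   x7_6 (x7_5 (x7_4 (s5_6 (x3_2 (x3_1 (x3_0 (s1_2 (n5 (n4 (n2 (n1 (n0 p542_16)))))))))))),
   x7_6 (x7_5 (x7_4 (s5_6 (x3_2 (x3_1 (x3_0 (s1_2 (n5 (n4 (n2 (n1 (n0 p542_19)))))))))))),
   s6_7 (x5_7 (x5_6 (x5_4 (s2_3 (x1_3 (x1_2 (x1_0 (n7 (n3 (n2 p542_17))))))))))],
  [p542_40,
   x7_6 (x7_5 (x7_4 (s6_7 (x5_7 (x5_6 (x5_4 (x3_2 (x3_1 (x3_0 (s2_3 (x1_3 (x1_2 (x1_0 (n3 (n1 p542_19))))))))))))))),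
   x7_6 (x7_5 (x7_4 (s6_7 (x5_7 (x5_6 (x5_4 (x3_2 (x3_1 (x3_0 (s2_3 (x1_3 (x1_2 (x1_0 (n4 (n3 (n1 p542_16)))))))))))))))),
   s5_6 (s1_2 p542_27),
   s6_7 (x5_7 (x5_6 (x5_4 (s2_3 (x1_3 (x1_2 (x1_0 (n7 (n4 (n3 (n2 p542_16))))))))))),
   s6_7 (x5_7 (x5_6 (x5_4 (s2_3 (x1_3 (x1_2 (x1_0 (n7 (n3 (n2 p542_27)))))))))),
   x7_6 (x7_5 (x7_4 (x3_2 (x3_1 (x3_0 (n6 (n2 (n1 (n0 p542_40))))))))),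
   s6_7 (x5_7 (x5_6 (x5_4 (s2_3 (x1_3 (x1_2 (x1_0 (n7 (n3 (n2 p542_19))))))))))],
  [s6_7 (x5_7 (x5_6 (x5_4 (s2_3 (x1_3 (x1_2 (x1_0 (n6 (n4 (n3 (n2 p542_12))))))))))),
   x6_7 (x6_5 (x6_4 (s5_7 (x2_3 (x2_1 (x2_0 (s1_3 (n5 (n4 (n3 (n1 p542_4))))))))))),
   s6_7 (x5_7 (x5_6 (x5_4 (s2_3 (x1_3 (x1_2 (x1_0 (n6 (n4 (n3 (n2 p542_4))))))))))),
   s6_7 (x5_7 (x5_6 (x5_4 (s2_3 (x1_3 (x1_2 (x1_0 (n6 (n3 (n2 p542_15)))))))))),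
   tr p540_55,
   p542_53,
   s5_6 (s1_2 p542_53),
   p542_55],
  [x6_7 (x6_5 (x6_4 (s5_7 (x2_3 (x2_1 (x2_0 (s1_3 (n5 (n4 (n3 (n1 p542_13))))))))))),
   s6_7 (x5_7 (x5_6 (x5_4 (s2_3 (x1_3 (x1_2 (x1_0 (n6 (n3 (n2 p542_5)))))))))),
   x7_6 (x7_5 (x7_4 (x6_7 (x6_5 (x6_4 (s5_7 (x3_2 (x3_1 (x3_0 (x2_3 (x2_1 (x2_0 (s1_3 (n6 (n3 (n2 p542_5)))))))))))))))),
   s6_7 (x5_7 (x5_6 (x5_4 (s2_3 (x1_3 (x1_2 (x1_0 (n6 (n3 (n2 p542_13)))))))))),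
   x6_7 (x6_5 (x6_4 (s5_7 (x2_3 (x2_1 (x2_0 (s1_3 (n7 (n5 (n4 (n3 (n1 p542_53)))))))))))),
   p542_61,
   s5_6 (s1_2 p542_61),
   s6_7 (x5_7 (x5_6 (x5_4 (s2_3 (x1_3 (x1_2 (x1_0 (n7 (n6 (n3 (n2 p542_53)))))))))))]]

theorem k542 : eqNN c542 (slO 64 (D.chG 183 55) 8) = true := by decide +kernel

/-- The slices of the chunk 543. -/
noncomputable def c543 : List (List ℕ) := [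
  [p543_0,
   p543_1,
   s5_6 (s1_2 p543_1),
   p543_3,
   p543_4,
   p543_5,
   s5_6 (s1_2 p543_5),
   p543_7],
  [s5_7 (s1_3 p543_1),
   s6_7 (s2_3 p543_3),
   s5_7 (s1_3 p543_3),
   p543_11,
   p543_12,
   p543_13,
   s5_6 (s1_2 p543_13),
   p543_15],
  [s6_7 (s2_3 p543_4),
   s6_7 (s2_3 p543_5),
   s6_7 (s2_3 p543_12),
   s6_7 (s2_3 p543_13),
   p543_20,
   x4_7 (x4_6 (x4_5 (x0_3 (x0_2 (x0_1 (n7 (n6 (n3 (n2 (n1 p543_1)))))))))),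
   p543_22,
   p543_23],
  [s6_7 (s5_6 (s2_3 (s1_2 p543_5))),
   s6_7 (s2_3 p543_7),
   s6_7 (s5_6 (s2_3 (s1_2 p543_13))),
   s6_7 (s2_3 p543_15),
   s6_7 (s2_3 p543_22),
   s6_7 (s2_3 p543_23),
   s5_7 (x4_7 (x4_6 (x4_5 (s1_3 (x0_3 (x0_2 (x0_1 (n7 (n3 (n2 (n1 p543_3))))))))))),
   p543_31],
  [s5_7 (s1_3 p543_4),
   s5_7 (s1_3 p543_12),
   s6_7 (s5_7 (s2_3 (s1_3 p543_5))),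
   s6_7 (s5_7 (s2_3 (s1_3 p543_13))),
   s5_6 (s1_2 p543_20),
   s5_6 (s1_2 p543_22),
   s5_6 (x4_7 (x4_6 (x4_5 (s1_2 (x0_3 (x0_2 (x0_1 (n7 (n6 (n3 (n2 (n1 p543_1)))))))))))),
   s5_6 (s1_2 p543_23)],
  [s5_7 (s1_3 p543_5),
   s5_7 (s1_3 p543_13),
   s5_7 (s1_3 p543_7),
   s5_7 (s1_3 p543_15),
   s6_7 (s5_7 (s2_3 (s1_3 p543_22))),
   s6_7 (x4_7 (x4_6 (x4_5 (s2_3 (x0_3 (x0_2 (x0_1 (n7 (n3 (n2 (n1 p543_3))))))))))),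
   s6_7 (s5_7 (s2_3 (s1_3 p543_23))),
   s5_6 (s1_2 p543_31)],
  [s5_7 (s1_3 p543_20),
   s6_7 (s5_6 (s2_3 (s1_2 p543_22))),
   s5_7 (s1_3 p543_22),
   x4_7 (x4_6 (x4_5 (x0_3 (x0_2 (x0_1 (n7 (n3 (n2 (n1 p543_3))))))))),
   p543_52,
   s5_7 (x4_7 (x4_6 (x4_5 (s1_3 (x0_3 (x0_2 (x0_1 (n6 (n5 (n3 (n2 (n1 p543_12)))))))))))),
   s6_7 (x4_7 (x4_6 (x4_5 (s2_3 (x0_3 (x0_2 (x0_1 (n6 (n5 (n3 (n2 (n1 p543_12)))))))))))),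
   x4_7 (x4_6 (x4_5 (x0_3 (x0_2 (x0_1 (n7 (n3 (n2 (n1 p543_7)))))))))],
  [s5_7 (x4_7 (x4_6 (x4_5 (s1_3 (x0_3 (x0_2 (x0_1 (n7 (n6 (n3 (n2 (n1 p543_1)))))))))))),
   s6_7 (s5_6 (s2_3 (s1_2 p543_23))),
   s5_7 (s1_3 p543_23),
   s5_7 (s1_3 p543_31),
   x4_7 (x4_6 (x4_5 (x0_3 (x0_2 (x0_1 (n6 (n5 (n3 (n2 (n1 p543_12)))))))))),
   s6_7 (x4_7 (x4_6 (x4_5 (s2_3 (x0_3 (x0_2 (x0_1 (n7 (n3 (n2 (n1 p543_7))))))))))),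
   s5_7 (x4_7 (x4_6 (x4_5 (s1_3 (x0_3 (x0_2 (x0_1 (n7 (n3 (n2 (n1 p543_7))))))))))),
   p543_63]]

theorem k543 : eqNN c543 (slO 64 (D.chG 184 0) 8) = true := by decide +kernel

end Pool.Agent.Lib.MP_afdd4d_co.K10.E6
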