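import Pool.Agent.Lib.MP_afdd4d_co.K10.E6.Dat
import Pool.Agent.Lib.MP_afdd4d_co.K10.E6.Mk
import Pool.Agent.Lib.MP_afdd4d_co.K8.F6Bl5
import Pool.Agent.Lib.MP_afdd4d_co.K10.E6.P0
import Pool.Agent.Lib.MP_afdd4d_co.K10.E6.P1
import Pool.Agent.Lib.MP_afdd4d_co.K10.E6.P2
import Pool.Agent.Lib.MP_afdd4d_co.K10.E6.P3
import Pool.Agent.Lib.MP_afdd4d_co.K10.E6.P4
import Pool.Agent.Lib.MP_afdd4d_co.K10.E6.P5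
import Pool.Agent.Lib.MP_afdd4d_co.K10.E6.P6
import Pool.Agent.Lib.MP_afdd4d_co.K10.E6.P7
import Pool.Agent.Lib.MP_afdd4d_co.K10.E6.P8
import Pool.Agent.Lib.MP_afdd4d_co.K10.E6.P9
import Pool.Agent.Lib.MP_afdd4d_co.K10.E6.P10
import Pool.Agent.Lib.MP_afdd4d_co.K10.E6.P11
import Pool.Agent.Lib.MP_afdd4d_co.K10.E6.P12
import Pool.Agent.Lib.MP_afdd4d_co.K10.E6.P13
import Pool.Agent.Lib.MP_afdd4d_co.K10.E6.P14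
import Pool.Agent.Lib.MP_afdd4d_co.K10.E6.P15
import Pool.Agent.Lib.MP_afdd4d_co.K10.E6.P16
import Pool.Agent.Lib.MP_afdd4d_co.K10.E6.P17
import Pool.Agent.Lib.MP_afdd4d_co.K10.E6.P18
import Pool.Agent.Lib.MP_afdd4d_co.K10.E6.P19
import Pool.Agent.Lib.MP_afdd4d_co.K10.E6.P20
import Pool.Agent.Lib.MP_afdd4d_co.K10.E6.P21
import Pool.Agent.Lib.MP_afdd4d_co.K10.E6.P22
import Pool.Agent.Lib.MP_afdd4d_co.K10.E6.P23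
import Pool.Agent.Lib.MP_afdd4d_co.K10.E6.P24
import Pool.Agent.Lib.MP_afdd4d_co.K10.E6.P25
import Pool.Agent.Lib.MP_afdd4d_co.K10.E6.P26
import Pool.Agent.Lib.MP_afdd4d_co.K10.E6.P27
import Pool.Agent.Lib.MP_afdd4d_co.K10.E6.P28
import Pool.Agent.Lib.MP_afdd4d_co.K10.E6.P29
import Pool.Agent.Lib.MP_afdd4d_co.K10.E6.P30
import Pool.Agent.Lib.MP_afdd4d_co.K10.E6.P31
import Pool.Agent.Lib.MP_afdd4d_co.K10.E6.P32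

/-!
# Tables
-/

namespace Pool.Agent.Lib.MP_afdd4d_co.K10.E6

open K8

set_option maxRecDepth 100000
set_option exponentiation.threshold 10000000

/-- The slices of the chunk 544. -/
noncomputable def c544 : List (List ℕ) := [
  [tr p543_1,
   p544_1,
   p544_2,
   p544_3,
   tr p546_1,
   p544_5,
   p544_6,
   p544_7],
  [s6_7 (s2_3 p544_2),
   s6_7 (s2_3 p544_3),
   p544_10,
   tr p549_1,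
   p544_12,
   p544_13,
   p544_14,
   tr p552_1],
  [s3_6 (s2_7 (s1_5 (s0_4 p546_1))),
   s6_7 (s2_3 p544_5),
   s6_7 (s2_3 p544_12),
   s6_7 (s2_3 p544_13),
   tr p553_1,
   p544_21,
   p544_22,
   p544_23],
  [s6_7 (s2_3 p544_6),
   s6_7 (s2_3 p544_7),
   s6_7 (s2_3 p544_14),
   s3_6 (s2_7 (s1_5 (s0_4 p552_1))),
   s6_7 (s2_3 p544_22),
   s6_7 (s2_3 p544_23),
   p544_30,
   tr p556_1],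
  [s3_5 (s2_6 (s1_7 (s0_4 p546_8))),
   p544_33,
   p544_34,
   s6_7 (s2_3 p544_41),
   s3_7 (s2_5 (s1_6 (s0_4 p553_2))),
   p544_37,
   p544_38,
   p544_39],
  [s6_7 (s2_3 p544_34),
   p544_41,
   p544_42,
   s3_5 (s2_6 (s1_7 (s0_4 p552_8))),
   s6_7 (s2_3 p544_50),
   s6_7 (s2_3 p544_51),
   p544_46,
   s3_7 (s2_5 (s1_6 (s0_4 p556_2)))],
  [s6_7 (s5_7 (s3_5 (s2_7 (s1_6 (s0_4 p553_2))))),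
   s6_7 (s2_3 p544_37),
   p544_50,
   p544_51,
   tr p557_1,
   p544_53,
   s6_7 (s2_3 p544_60),
   p544_55],
  [s6_7 (s2_3 p544_38),
   s6_7 (s2_3 p544_39),
   s6_7 (s2_3 p544_46),
   s6_7 (s5_7 (s3_5 (s2_7 (s1_6 (s0_4 p556_2))))),
   p544_60,
   s6_7 (s2_3 p544_55),
   p544_62,
   tr p558_1]]

theorem k544 : eqNN c544 (slO 64 (D.chG 184 1) 8) = true := by decide +kernel

/-- The slices of the chunk 545. -/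
noncomputable def c545 : List (List ℕ) := [
  [tr p543_3,
   tr p544_3,
   s3_7 (s2_5 (s1_6 (s0_4 p544_3))),
   p545_3,
   tr p546_3,
   p545_5,
   s5_6 (s1_2 p545_5),
   p545_7],
  [s3_5 (s2_6 (s1_7 (s0_4 p544_10))),
   p545_9,
   s5_6 (s1_2 p545_9),
   tr p549_3,
   p545_12,
   p545_13,
   s5_6 (s1_2 p545_13),
   tr p552_3],
  [s3_6 (s2_7 (s1_5 (s0_4 p546_9))),
   p545_17,
   p545_18,
   p545_19,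
   tr p553_3,
   x4_7 (x4_6 (x4_5 (s3_7 (s2_6 (s1_5 (x0_7 (x0_6 (x0_5 (s0_4 (n7 (n3 (n2 p544_51)))))))))))),
   p545_22,
   p545_23],
  [p545_24,
   p545_25,
   s5_6 (s1_2 p545_41),
   s3_6 (s2_7 (s1_5 (s0_4 p552_9))),
   p545_28,
   p545_29,
   p545_30,
   tr p556_3],
  [s6_7 (s5_6 (s3_6 (s2_5 (s1_7 (s0_4 p546_9))))),
   s5_6 (s1_2 p545_18),
   s5_6 (s1_2 p545_17),
   s5_6 (s1_2 p545_19),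
   s3_7 (s2_5 (s1_6 (s0_4 p553_3))),
   s5_6 (s1_2 p545_22),
   x4_7 (x4_6 (x4_5 (s3_7 (s2_5 (s1_6 (x0_7 (x0_6 (x0_5 (s0_4 (n7 (n3 (n2 p544_51)))))))))))),
   s5_6 (s1_2 p545_23)],
  [s5_6 (s1_2 p545_24),
   p545_41,
   s5_6 (s1_2 p545_25),
   s6_7 (s5_6 (s3_6 (s2_5 (s1_7 (s0_4 p552_9))))),
   s5_6 (s1_2 p545_28),
   s5_6 (s1_2 p545_30),
   s5_6 (s1_2 p545_29),
   s3_7 (s2_5 (s1_6 (s0_4 p556_3)))],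
  [s3_5 (s2_6 (s1_7 (s0_4 p553_10))),
   s5_6 (s1_2 p545_50),
   p545_50,
   p545_51,
   tr p557_3,
   p545_53,
   s5_6 (s1_2 p545_53),
   p545_55],
  [x4_7 (x4_6 (x4_5 (s3_5 (s2_6 (s1_7 (x0_7 (x0_6 (x0_5 (s0_4 (n5 (n3 (n2 p544_30)))))))))))),
   p545_57,
   s5_6 (s1_2 p545_57),
   s3_5 (s2_6 (s1_7 (s0_4 p556_10))),
   p545_60,
   p545_61,
   s5_6 (s1_2 p545_61),
   tr p558_3]]

theorem k545 : eqNN c545 (slO 64 (D.chG 184 3) 8) = true := by decide +kernel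

/-- The slices of the chunk 546. -/
noncomputable def c546 : List (List ℕ) := [
  [tr p543_4,
   p546_1,
   s5_6 (s1_2 p546_1),
   p546_3,
   p546_4,
   p546_5,
   s5_6 (s1_2 p546_5),
   p546_7],
  [p546_8,
   p546_9,
   s5_6 (s1_2 p546_9),
   tr p549_4,
   p546_12,
   p546_13,
   s5_6 (s1_2 p546_13),
   p546_15],
  [p546_16,
   x4_7 (x4_6 (x4_5 (x0_3 (x0_2 (x0_1 (n7 (n6 (n3 (n2 (n1 p546_5)))))))))),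
   p546_18,
   p546_19,
   p546_20,
   x4_7 (x4_6 (x4_5 (x0_3 (x0_2 (x0_1 (n7 (n6 (n3 (n2 (n1 p546_1)))))))))),
   p546_22,
   p546_23],
  [s5_6 (s1_2 p546_40),
   p546_25,
   s5_6 (x4_7 (x4_6 (x4_5 (s1_2 (x0_3 (x0_2 (x0_1 (n6 (n3 (n2 (n1 p546_13))))))))))),
   p546_27,
   p546_28,
   p546_29,
   s5_6 (x4_7 (x4_6 (x4_5 (s1_2 (x0_3 (x0_2 (x0_1 (n6 (n3 (n2 (n1 p546_9))))))))))),
   p546_31],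
  [s5_6 (s1_2 p546_16),
   s5_6 (s1_2 p546_18),
   s5_6 (x4_7 (x4_6 (x4_5 (s1_2 (x0_3 (x0_2 (x0_1 (n7 (n6 (n3 (n2 (n1 p546_5)))))))))))),
   s5_6 (s1_2 p546_19),
   s5_6 (s1_2 p546_20),
   s5_6 (s1_2 p546_22),
   s5_6 (x4_7 (x4_6 (x4_5 (s1_2 (x0_3 (x0_2 (x0_1 (n7 (n6 (n3 (n2 (n1 p546_1)))))))))))),
   s5_6 (s1_2 p546_23)],
  [p546_40,
   x4_7 (x4_6 (x4_5 (x0_3 (x0_2 (x0_1 (n6 (n3 (n2 (n1 p546_13))))))))),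
   s5_6 (s1_2 p546_25),
   s5_6 (s1_2 p546_27),
   s5_6 (s1_2 p546_28),
   x4_7 (x4_6 (x4_5 (x0_3 (x0_2 (x0_1 (n6 (n3 (n2 (n1 p546_9))))))))),
   s5_6 (s1_2 p546_29),
   s5_6 (s1_2 p546_31)],
  [p546_48,
   s5_6 (x4_7 (x4_6 (x4_5 (s1_2 (x0_3 (x0_2 (x0_1 (n7 (n5 (n3 (n2 (n1 p546_22)))))))))))),
   x4_7 (x4_6 (x4_5 (x0_3 (x0_2 (x0_1 (n7 (n5 (n3 (n2 (n1 p546_22)))))))))),
   x4_7 (x4_6 (x4_5 (x0_3 (x0_2 (x0_1 (n7 (n3 (n2 (n1 p546_3))))))))),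
   tr p557_4,
   s5_6 (x4_7 (x4_6 (x4_5 (s1_2 (x0_3 (x0_2 (x0_1 (n7 (n5 (n3 (n2 (n1 p546_18)))))))))))),
   x4_7 (x4_6 (x4_5 (x0_3 (x0_2 (x0_1 (n7 (n5 (n3 (n2 (n1 p546_18)))))))))),
   x4_7 (x4_6 (x4_5 (x0_3 (x0_2 (x0_1 (n7 (n3 (n2 (n1 p546_7)))))))))],
  [x4_7 (x4_6 (x4_5 (x0_3 (x0_2 (x0_1 (n6 (n5 (n3 (n2 (n1 p546_8)))))))))),
   x4_7 (x4_6 (x4_5 (x0_3 (x0_2 (x0_1 (n6 (n3 (n2 (n1 p546_29))))))))),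
   s5_6 (x4_7 (x4_6 (x4_5 (s1_2 (x0_3 (x0_2 (x0_1 (n6 (n3 (n2 (n1 p546_29))))))))))),
   p546_59,
   x4_7 (x4_6 (x4_5 (x0_3 (x0_2 (x0_1 (n6 (n5 (n3 (n2 (n1 p546_12)))))))))),
   x4_7 (x4_6 (x4_5 (x0_3 (x0_2 (x0_1 (n6 (n3 (n2 (n1 p546_25))))))))),
   s5_6 (x4_7 (x4_6 (x4_5 (s1_2 (x0_3 (x0_2 (x0_1 (n6 (n3 (n2 (n1 p546_25))))))))))),
   tr p558_4]]

theorem k546 : eqNN c546 (slO 64 (D.chG 184 4) 8) = true := by decide +kernel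

/-- The slices of the chunk 547. -/
noncomputable def c547 : List (List ℕ) := [
  [tr p543_5,
   tr p544_5,
   s3_7 (s2_5 (s1_6 (s0_4 p544_6))),
   tr p545_5,
   tr p546_5,
   p547_5,
   p547_6,
   p547_7],
  [s6_7 (s5_7 (s3_5 (s2_7 (s1_6 (s0_4 p544_34))))),
   s3_6 (s2_7 (s1_5 (s0_4 p545_17))),
   s6_7 (s5_6 (s3_6 (s2_5 (s1_7 (s0_4 p545_24))))),
   tr p549_5,
   p547_12,
   p547_13,
   p547_14,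
   tr p552_5],
  [x4_7 (x4_6 (x4_5 (s3_6 (s2_7 (s1_5 (x0_7 (x0_6 (x0_5 (s0_4 (n7 (n6 (n3 (n2 (n1 p546_5)))))))))))))),
   p547_17,
   s3_6 (s2_7 (s1_5 (s0_4 p550_17))),
   s6_7 (x4_7 (x4_6 (x4_5 (s2_3 (x0_3 (x0_2 (x0_1 (n6 (n3 (n2 p547_41)))))))))),
   tr p553_5,
   x4_7 (x4_6 (x4_5 (s3_6 (s2_7 (s1_5 (x0_7 (x0_6 (x0_5 (s0_4 (n7 (n6 (n3 (n2 p544_5))))))))))))),
   p547_22,
   p547_23],
  [p547_24,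
   s3_6 (s2_7 (s1_5 (s0_4 p548_17))),
   p547_26,
   x4_7 (x4_6 (x4_5 (s3_6 (s2_7 (s1_5 (x0_7 (x0_6 (x0_5 (s0_4 (n7 (n6 p552_5))))))))))),
   s6_7 (x4_7 (x4_6 (x4_5 (s2_3 (x0_3 (x0_2 (x0_1 (n7 (n5 (n3 (n2 p547_50))))))))))),
   s6_7 (x4_7 (x4_6 (x4_5 (s2_3 (x0_3 (x0_2 (x0_1 (n7 (n3 (n2 p547_39)))))))))),
   x4_7 (x4_6 (x4_5 (s3_5 (s2_6 (s1_7 (x0_7 (x0_6 (x0_5 (s0_4 (n6 (n5 (n3 p545_24)))))))))))),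
   tr p556_5],
  [s3_5 (s2_6 (s1_7 (s0_4 p546_40))),
   p547_33,
   s6_7 (s5_6 (s3_6 (s2_5 (s1_7 (s0_4 p547_24))))),
   s6_7 (x4_7 (x4_6 (x4_5 (s2_3 (x0_3 (x0_2 (x0_1 (n6 (n3 (n2 p547_13)))))))))),
   s3_7 (s2_5 (s1_6 (s0_4 p553_6))),
   p547_37,
   x4_7 (x4_6 (x4_5 (s3_7 (s2_5 (s1_6 (x0_7 (x0_6 (x0_5 (s0_4 (n7 (n5 (n3 (n2 p544_34))))))))))))),
   p547_39],
  [s6_7 (x4_7 (x4_6 (x4_5 (s2_3 (x0_3 (x0_2 (x0_1 (n7 (n5 (n3 (n2 p547_6))))))))))),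
   p547_41,
   p547_42,
   s3_5 (s2_6 (s1_7 (s0_4 p552_40))),
   s6_7 (x4_7 (x4_6 (x4_5 (s2_3 (x0_3 (x0_2 (x0_1 (n7 (n5 (n3 (n2 p547_22))))))))))),
   x4_7 (x4_6 (x4_5 (s3_6 (s2_7 (s1_5 (x0_7 (x0_6 (x0_5 (s0_4 (n7 (n6 (n3 p545_5)))))))))))),
   p547_46,
   s3_7 (s2_5 (s1_6 (s0_4 p556_6)))],
  [s6_7 (s5_7 (x4_7 (x4_6 (x4_5 (s3_5 (s2_7 (s1_6 (x0_7 (x0_6 (x0_5 (s0_4 (n7 (n5 (n3 (n2 (n1 p553_6)))))))))))))))),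
   p547_49,
   p547_50,
   x4_7 (x4_6 (x4_5 (s3_7 (s2_6 (s1_5 (x0_7 (x0_6 (x0_5 (s0_4 (n7 (n6 (n3 p545_17)))))))))))),
   tr p557_5,
   s6_7 (x4_7 (x4_6 (x4_5 (s2_3 (x0_3 (x0_2 (x0_1 (n7 (n6 (n3 (n2 p547_33))))))))))),
   s6_7 (x4_7 (x4_6 (x4_5 (s2_3 (x0_3 (x0_2 (x0_1 (n6 (n5 (n3 (n2 p547_12))))))))))),
   x4_7 (x4_6 (x4_5 (s3_7 (s2_6 (s1_5 (x0_7 (x0_6 (x0_5 (s0_4 (n7 (n6 (n3 p548_17))))))))))))],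
  [s6_7 (s5_7 (x4_7 (x4_6 (x4_5 (s3_5 (s2_7 (s1_6 (x0_7 (x0_6 (x0_5 (s0_4 (n7 (n5 (n3 (n2 p544_6))))))))))))))),
   s6_7 (x4_7 (x4_6 (x4_5 (s2_3 (x0_3 (x0_2 (x0_1 (n7 (n3 (n2 p547_23)))))))))),
   p547_58,
   s6_7 (s5_7 (x4_7 (x4_6 (x4_5 (s3_5 (s2_7 (s1_6 (x0_7 (x0_6 (x0_5 (s0_4 (n7 (n5 p556_6))))))))))))),
   x4_7 (x4_6 (x4_5 (s3_7 (s2_6 (s1_5 (x0_7 (x0_6 (x0_5 (s0_4 (n7 (n6 (n2 (n1 p550_17))))))))))))),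
   s6_7 (x4_7 (x4_6 (x4_5 (s2_3 (x0_3 (x0_2 (x0_1 (n7 (n3 (n2 p547_7)))))))))),
   s6_7 (x4_7 (x4_6 (x4_5 (s2_3 (x0_3 (x0_2 (x0_1 (n5 (n3 (n2 p547_42)))))))))),
   tr p558_5]]

theorem k547 : eqNN c547 (slO 64 (D.chG 184 5) 8) = true := by decide +kernel

end Pool.Agent.Lib.MP_afdd4d_co.K10.E6
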