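import Pool.Agent.Lib.MP_afdd4d_co.K10.E6.Dat
import Pool.Agent.Lib.MP_afdd4d_co.K10.E6.Mk
import Pool.Agent.Lib.MP_afdd4d_co.K8.F6Bl5
import Pool.Agent.Lib.MP_afdd4d_co.K10.E6.P0
import Pool.Agent.Lib.MP_afdd4d_co.K10.E6.P1
import Pool.Agent.Lib.MP_afdd4d_co.K10.E6.P2
import Pool.Agent.Lib.MP_afdd4d_co.K10.E6.P3
import Pool.Agent.Lib.MP_afdd4d_co.K10.E6.P4
import Pool.Agent.Lib.MP_afdd4d_co.K10.E6.P5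
import Pool.Agent.Lib.MP_afdd4d_co.K10.E6.P6
import Pool.Agent.Lib.MP_afdd4d_co.K10.E6.P7
import Pool.Agent.Lib.MP_afdd4d_co.K10.E6.P8
import Pool.Agent.Lib.MP_afdd4d_co.K10.E6.P9
import Pool.Agent.Lib.MP_afdd4d_co.K10.E6.P10
import Pool.Agent.Lib.MP_afdd4d_co.K10.E6.P11
import Pool.Agent.Lib.MP_afdd4d_co.K10.E6.P12
import Pool.Agent.Lib.MP_afdd4d_co.K10.E6.P13
import Pool.Agent.Lib.MP_afdd4d_co.K10.E6.P14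
import Pool.Agent.Lib.MP_afdd4d_co.K10.E6.P15
import Pool.Agent.Lib.MP_afdd4d_co.K10.E6.P16
import Pool.Agent.Lib.MP_afdd4d_co.K10.E6.P17
import Pool.Agent.Lib.MP_afdd4d_co.K10.E6.P18
import Pool.Agent.Lib.MP_afdd4d_co.K10.E6.P19
import Pool.Agent.Lib.MP_afdd4d_co.K10.E6.P20
import Pool.Agent.Lib.MP_afdd4d_co.K10.E6.P21
import Pool.Agent.Lib.MP_afdd4d_co.K10.E6.P22
import Pool.Agent.Lib.MP_afdd4d_co.K10.E6.P23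
import Pool.Agent.Lib.MP_afdd4d_co.K10.E6.P24
import Pool.Agent.Lib.MP_afdd4d_co.K10.E6.P25
import Pool.Agent.Lib.MP_afdd4d_co.K10.E6.P26
import Pool.Agent.Lib.MP_afdd4d_co.K10.E6.P27
import Pool.Agent.Lib.MP_afdd4d_co.K10.E6.P28
import Pool.Agent.Lib.MP_afdd4d_co.K10.E6.P29
import Pool.Agent.Lib.MP_afdd4d_co.K10.E6.P30
import Pool.Agent.Lib.MP_afdd4d_co.K10.E6.P31
import Pool.Agent.Lib.MP_afdd4d_co.K10.E6.P32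

/-!
# Tables
-/

namespace Pool.Agent.Lib.MP_afdd4d_co.K10.E6

open K8

set_option maxRecDepth 100000
set_option exponentiation.threshold 10000000

/-- The slices of the chunk 548. -/
noncomputable def c548 : List (List ℕ) := [
  [tr p543_7,
   tr p544_7,
   s3_7 (s2_5 (s1_6 (s0_4 p544_7))),
   tr p545_7,
   tr p546_7,
   tr p547_7,
   s3_7 (s2_5 (s1_6 (s0_4 p547_7))),
   p548_7],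
  [s3_5 (s2_6 (s1_7 (s0_4 p544_42))),
   s3_6 (s2_7 (s1_5 (s0_4 p545_25))),
   s6_7 (s5_6 (s3_6 (s2_5 (s1_7 (s0_4 p545_25))))),
   tr p549_7,
   p548_12,
   p548_13,
   s5_6 (s1_2 p548_13),
   tr p552_7],
  [s3_6 (s2_7 (s1_5 (s0_4 p546_25))),
   p548_17,
   p548_18,
   p548_19,
   tr p553_7,
   x4_7 (x4_6 (x4_5 (s3_7 (s2_6 (s1_5 (x0_7 (x0_6 (x0_5 (s0_4 (n7 (n3 (n2 p544_55)))))))))))),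
   p548_22,
   p548_23],
  [s6_7 (s5_7 (s3_5 (s2_7 (s1_6 (s0_4 p547_42))))),
   p548_25,
   s5_6 (s1_2 p548_41),
   s3_6 (s2_7 (s1_5 (s0_4 p552_25))),
   p548_28,
   p548_29,
   s6_7 (s5_6 (x4_7 (x4_6 (x4_5 (s3_6 (s2_5 (s1_7 (x0_7 (x0_6 (x0_5 (s0_4 (n6 (n3 p545_61))))))))))))),
   tr p556_7],
  [s6_7 (s5_6 (s3_6 (s2_5 (s1_7 (s0_4 p546_25))))),
   s5_6 (s1_2 p548_18),
   s5_6 (s1_2 p548_17),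
   s5_6 (s1_2 p548_19),
   s3_7 (s2_5 (s1_6 (s0_4 p553_7))),
   s5_6 (s1_2 p548_22),
   x4_7 (x4_6 (x4_5 (s3_7 (s2_5 (s1_6 (x0_7 (x0_6 (x0_5 (s0_4 (n7 (n3 (n2 p544_55)))))))))))),
   s5_6 (s1_2 p548_23)],
  [s3_5 (s2_6 (s1_7 (s0_4 p547_42))),
   p548_41,
   s5_6 (s1_2 p548_25),
   s6_7 (s5_6 (s3_6 (s2_5 (s1_7 (s0_4 p552_25))))),
   s5_6 (s1_2 p548_28),
   x4_7 (x4_6 (x4_5 (s3_6 (s2_7 (s1_5 (x0_7 (x0_6 (x0_5 (s0_4 (n6 (n3 p545_61))))))))))),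
   s5_6 (s1_2 p548_29),
   s3_7 (s2_5 (s1_6 (s0_4 p556_7)))],
  [s3_5 (s2_6 (s1_7 (s0_4 p553_42))),
   s5_6 (s1_2 p548_50),
   p548_50,
   x4_7 (x4_6 (x4_5 (s3_7 (s2_6 (s1_5 (x0_7 (x0_6 (x0_5 (s0_4 (n7 (n3 p545_55))))))))))),
   tr p557_7,
   p548_53,
   s5_6 (s1_2 p548_53),
   p548_55],
  [x4_7 (x4_6 (x4_5 (s3_5 (s2_6 (s1_7 (x0_7 (x0_6 (x0_5 (s0_4 (n5 (n3 (n2 p544_62)))))))))))),
   p548_57,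
   s5_6 (s1_2 p548_57),
   s3_5 (s2_6 (s1_7 (s0_4 p556_42))),
   p548_60,
   p548_61,
   s5_6 (s1_2 p548_61),
   tr p558_7]]

theorem k548 : eqNN c548 (slO 64 (D.chG 184 7) 8) = true := by decide +kernel

/-- The slices of the chunk 549. -/
noncomputable def c549 : List (List ℕ) := [
  [tr p543_11,
   p549_1,
   s5_6 (s1_2 p549_1),
   p549_3,
   p549_4,
   p549_5,
   s5_6 (s1_2 p549_5),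
   p549_7],
  [s5_7 (s1_3 p549_1),
   s6_7 (s2_3 p549_3),
   s5_7 (s1_3 p549_3),
   p549_11,
   p549_12,
   p549_13,
   s5_6 (s1_2 p549_13),
   p549_15],
  [s6_7 (s2_3 p549_4),
   s6_7 (s2_3 p549_5),
   s6_7 (s2_3 p549_12),
   s6_7 (s2_3 p549_13),
   p549_20,
   x4_7 (x4_6 (x4_5 (x0_3 (x0_2 (x0_1 (n7 (n6 p549_1))))))),
   p549_22,
   p549_23],
  [s6_7 (s5_6 (s2_3 (s1_2 p549_5))),
   s6_7 (s2_3 p549_7),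
   s6_7 (s5_6 (s2_3 (s1_2 p549_13))),
   s6_7 (s2_3 p549_15),
   s6_7 (s2_3 p549_22),
   s6_7 (s2_3 p549_23),
   s5_7 (x4_7 (x4_6 (x4_5 (s1_3 (x0_3 (x0_2 (x0_1 (n7 p549_3)))))))),
   p549_31],
  [s5_7 (s1_3 p549_4),
   s5_7 (s1_3 p549_12),
   s6_7 (s5_7 (s2_3 (s1_3 p549_5))),
   s6_7 (s5_7 (s2_3 (s1_3 p549_13))),
   s5_6 (s1_2 p549_20),
   s5_6 (s1_2 p549_22),
   s5_6 (x4_7 (x4_6 (x4_5 (s1_2 (x0_3 (x0_2 (x0_1 (n7 (n6 p549_1))))))))),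
   s5_6 (s1_2 p549_23)],
  [s5_7 (s1_3 p549_5),
   s5_7 (s1_3 p549_13),
   s5_7 (s1_3 p549_7),
   s5_7 (s1_3 p549_15),
   s6_7 (s5_7 (s2_3 (s1_3 p549_22))),
   s6_7 (x4_7 (x4_6 (x4_5 (s2_3 (x0_3 (x0_2 (x0_1 (n7 p549_3)))))))),
   s6_7 (s5_7 (s2_3 (s1_3 p549_23))),
   s5_6 (s1_2 p549_31)],
  [s5_7 (s1_3 p549_20),
   s6_7 (s5_6 (s2_3 (s1_2 p549_22))),
   s5_7 (s1_3 p549_22),
   x4_7 (x4_6 (x4_5 (x0_3 (x0_2 (x0_1 (n7 p549_3)))))),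
   p549_52,
   s5_7 (x4_7 (x4_6 (x4_5 (s1_3 (x0_3 (x0_2 (x0_1 (n6 (n5 p549_12))))))))),
   s6_7 (x4_7 (x4_6 (x4_5 (s2_3 (x0_3 (x0_2 (x0_1 (n6 (n5 p549_12))))))))),
   x4_7 (x4_6 (x4_5 (x0_3 (x0_2 (x0_1 (n7 p549_7))))))],
  [s5_7 (x4_7 (x4_6 (x4_5 (s1_3 (x0_3 (x0_2 (x0_1 (n7 (n6 p549_1))))))))),
   s6_7 (s5_6 (s2_3 (s1_2 p549_23))),
   s5_7 (s1_3 p549_23),
   s5_7 (s1_3 p549_31),
   x4_7 (x4_6 (x4_5 (x0_3 (x0_2 (x0_1 (n6 (n5 p549_12))))))),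
   s6_7 (x4_7 (x4_6 (x4_5 (s2_3 (x0_3 (x0_2 (x0_1 (n7 p549_7)))))))),
   s5_7 (x4_7 (x4_6 (x4_5 (s1_3 (x0_3 (x0_2 (x0_1 (n7 p549_7)))))))),
   p549_63]]

theorem k549 : eqNN c549 (slO 64 (D.chG 184 11) 8) = true := by decide +kernel

/-- The slices of the chunk 550. -/
noncomputable def c550 : List (List ℕ) := [
  [tr p543_12,
   tr p544_12,
   s3_7 (s2_5 (s1_6 (s0_4 p544_12))),
   tr p545_12,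
   tr p546_12,
   tr p547_12,
   s3_7 (s2_5 (s1_6 (s0_4 p547_12))),
   tr p548_12],
  [s3_5 (s2_6 (s1_7 (s0_4 p544_33))),
   s3_6 (s2_7 (s1_5 (s0_4 p545_18))),
   s6_7 (s5_6 (s3_6 (s2_5 (s1_7 (s0_4 p545_18))))),
   tr p549_12,
   p550_12,
   p550_13,
   s5_6 (s1_2 p550_13),
   tr p552_12],
  [s3_6 (s2_7 (s1_5 (s0_4 p546_18))),
   p550_17,
   p550_18,
   p550_19,
   tr p553_12,
   x4_7 (x4_6 (x4_5 (s3_7 (s2_6 (s1_5 (x0_7 (x0_6 (x0_5 (s0_4 (n6 (n5 (n3 (n2 p544_60))))))))))))),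
   p550_22,
   p550_23],
  [s6_7 (s5_7 (s3_5 (s2_7 (s1_6 (s0_4 p547_33))))),
   s3_6 (s2_7 (s1_5 (s0_4 p548_18))),
   s5_6 (s1_2 p550_41),
   s3_6 (s2_7 (s1_5 (s0_4 p552_18))),
   p550_28,
   p550_29,
   x4_7 (x4_6 (x4_5 (s3_5 (s2_6 (s1_7 (x0_7 (x0_6 (x0_5 (s0_4 (n7 (n6 (n3 p545_53)))))))))))),
   tr p556_12],
  [s6_7 (s5_6 (s3_6 (s2_5 (s1_7 (s0_4 p546_18))))),
   s5_6 (s1_2 p550_18),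
   s5_6 (s1_2 p550_17),
   s5_6 (s1_2 p550_19),
   s3_7 (s2_5 (s1_6 (s0_4 p553_12))),
   s5_6 (s1_2 p550_22),
   x4_7 (x4_6 (x4_5 (s3_7 (s2_5 (s1_6 (x0_7 (x0_6 (x0_5 (s0_4 (n6 (n5 (n3 (n2 p544_60))))))))))))),
   s5_6 (s1_2 p550_23)],
  [s3_5 (s2_6 (s1_7 (s0_4 p547_33))),
   p550_41,
   s6_7 (s5_6 (s3_6 (s2_5 (s1_7 (s0_4 p548_18))))),
   s6_7 (s5_6 (s3_6 (s2_5 (s1_7 (s0_4 p552_18))))),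
   s5_6 (s1_2 p550_28),
   s6_7 (s5_7 (x4_7 (x4_6 (x4_5 (s3_5 (s2_7 (s1_6 (x0_7 (x0_6 (x0_5 (s0_4 (n7 (n6 (n3 p545_53)))))))))))))),
   s5_6 (s1_2 p550_29),
   s3_7 (s2_5 (s1_6 (s0_4 p556_12)))],
  [s3_5 (s2_6 (s1_7 (s0_4 p553_33))),
   s5_6 (s1_2 p550_50),
   p550_50,
   x4_7 (x4_6 (x4_5 (s3_7 (s2_6 (s1_5 (x0_7 (x0_6 (x0_5 (s0_4 (n6 (n5 (n3 p545_60)))))))))))),
   tr p557_12,
   p550_53,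
   s5_6 (s1_2 p550_53),
   x4_7 (x4_6 (x4_5 (s3_7 (s2_6 (s1_5 (x0_7 (x0_6 (x0_5 (s0_4 (n6 (n5 (n3 p548_60))))))))))))],
  [x4_7 (x4_6 (x4_5 (s3_5 (s2_6 (s1_7 (x0_7 (x0_6 (x0_5 (s0_4 (n7 (n6 (n3 (n2 p544_53))))))))))))),
   p550_57,
   s5_6 (s1_2 p550_57),
   s3_5 (s2_6 (s1_7 (s0_4 p556_33))),
   p550_60,
   s6_7 (s5_7 (x4_7 (x4_6 (x4_5 (s3_5 (s2_7 (s1_6 (x0_7 (x0_6 (x0_5 (s0_4 (n7 (n6 (n3 p548_53)))))))))))))),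
   x4_7 (x4_6 (x4_5 (s3_5 (s2_6 (s1_7 (x0_7 (x0_6 (x0_5 (s0_4 (n7 (n6 (n3 p548_53)))))))))))),
   tr p558_12]]

theorem k550 : eqNN c550 (slO 64 (D.chG 184 12) 8) = true := by decide +kernel

/-- The slices of the chunk 551. -/
noncomputable def c551 : List (List ℕ) := [
  [tr p543_13,
   tr p544_13,
   s3_7 (s2_5 (s1_6 (s0_4 p544_14))),
   tr p545_13,
   tr p546_13,
   tr p547_13,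
   s3_7 (s2_5 (s1_6 (s0_4 p547_14))),
   tr p548_13],
  [s3_5 (s2_6 (s1_7 (s0_4 p544_41))),
   s3_6 (s2_7 (s1_5 (s0_4 p545_19))),
   s3_5 (s2_6 (s1_7 (s0_4 p545_41))),
   tr p549_13,
   tr p550_13,
   p551_13,
   p551_14,
   tr p552_13],
  [s3_6 (s2_7 (s1_5 (s0_4 p546_19))),
   x4_7 (x4_6 (x4_5 (s3_7 (s2_6 (s1_5 (x0_7 (x0_6 (x0_5 (s0_4 (n6 (n3 (n2 p547_41)))))))))))),
   s3_6 (s2_7 (s1_5 (s0_4 p550_19))),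
   s5_7 (x4_7 (x4_6 (x4_5 (s1_3 (x0_3 (x0_2 (x0_1 (n5 (n2 p551_14))))))))),
   tr p553_13,
   x4_7 (x4_6 (x4_5 (s3_7 (s2_6 (s1_5 (x0_7 (x0_6 (x0_5 (s0_4 (n6 (n3 (n2 p544_41)))))))))))),
   p551_22,
   p551_23],
  [x4_7 (x4_6 (x4_5 (s3_5 (s2_6 (s1_7 (x0_7 (x0_6 (x0_5 (s0_4 (n6 (n3 (n2 p547_13)))))))))))),
   s3_6 (s2_7 (s1_5 (s0_4 p548_19))),
   p551_26,
   s3_6 (s2_7 (s1_5 (s0_4 p552_19))),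
   p551_28,
   p551_29,
   x4_7 (x4_6 (x4_5 (s3_5 (s2_6 (s1_7 (x0_7 (x0_6 (x0_5 (s0_4 (n6 (n3 p545_13))))))))))),
   tr p556_13],
  [x4_7 (x4_6 (x4_5 (s3_5 (s2_6 (s1_7 (x0_7 (x0_6 (x0_5 (s0_4 (n6 (n3 (n2 (n1 p546_13))))))))))))),
   s3_5 (s2_6 (s1_7 (s0_4 p550_41))),
   s6_7 (s5_6 (s3_6 (s2_5 (s1_7 (s0_4 p547_26))))),
   s6_7 (s5_6 (s3_6 (s2_5 (s1_7 (s0_4 p551_26))))),
   s3_7 (s2_5 (s1_6 (s0_4 p553_14))),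
   s5_7 (x4_7 (x4_6 (x4_5 (s1_3 (x0_3 (x0_2 (x0_1 (n6 (n5 (n2 p551_28)))))))))),
   s6_7 (s5_6 (x4_7 (x4_6 (x4_5 (s3_6 (s2_5 (s1_7 (x0_7 (x0_6 (x0_5 (s0_4 (n5 (n3 (n2 p544_14)))))))))))))),
   p551_39],
  [s3_5 (s2_6 (s1_7 (s0_4 p547_41))),
   p551_41,
   s3_5 (s2_6 (s1_7 (s0_4 p548_41))),
   x4_7 (x4_6 (x4_5 (s3_5 (s2_6 (s1_7 (x0_7 (x0_6 (x0_5 (s0_4 (n6 p552_13)))))))))),
   p551_44,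
   s6_7 (s5_7 (x4_7 (x4_6 (x4_5 (s3_5 (s2_7 (s1_6 (x0_7 (x0_6 (x0_5 (s0_4 (n7 (n3 p545_19))))))))))))),
   s5_7 (x4_7 (x4_6 (x4_5 (s1_3 (x0_3 (x0_2 (x0_1 (n7 (n2 p551_23))))))))),
   s3_7 (s2_5 (s1_6 (s0_4 p556_14)))],
  [x4_7 (x4_6 (x4_5 (s3_5 (s2_6 (s1_7 (x0_7 (x0_6 (x0_5 (s0_4 (n6 (n3 (n2 (n1 p553_13))))))))))))),
   s5_7 (x4_7 (x4_6 (x4_5 (s1_3 (x0_3 (x0_2 (x0_1 (n6 (n5 (n2 p551_44)))))))))),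
   p551_50,
   x4_7 (x4_6 (x4_5 (s3_7 (s2_6 (s1_5 (x0_7 (x0_6 (x0_5 (s0_4 (n6 (n3 p545_41))))))))))),
   tr p557_13,
   x4_7 (x4_6 (x4_5 (s3_5 (s2_6 (s1_7 (x0_7 (x0_6 (x0_5 (s0_4 (n6 (n2 (n1 p550_13)))))))))))),
   s6_7 (s5_7 (x4_7 (x4_6 (x4_5 (s3_5 (s2_7 (s1_6 (x0_7 (x0_6 (x0_5 (s0_4 (n7 (n2 (n1 p550_19)))))))))))))),
   x4_7 (x4_6 (x4_5 (s3_7 (s2_6 (s1_5 (x0_7 (x0_6 (x0_5 (s0_4 (n6 (n3 p548_41)))))))))))],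
  [x4_7 (x4_6 (x4_5 (s3_5 (s2_6 (s1_7 (x0_7 (x0_6 (x0_5 (s0_4 (n6 (n3 (n2 p544_13)))))))))))),
   p551_57,
   s5_7 (x4_7 (x4_6 (x4_5 (s1_3 (x0_3 (x0_2 (x0_1 (n7 (n2 p551_39))))))))),
   x4_7 (x4_6 (x4_5 (s3_5 (s2_6 (s1_7 (x0_7 (x0_6 (x0_5 (s0_4 (n6 p556_13)))))))))),
   x4_7 (x4_6 (x4_5 (s3_7 (s2_6 (s1_5 (x0_7 (x0_6 (x0_5 (s0_4 (n6 (n2 (n1 p550_41)))))))))))),
   s6_7 (s5_7 (x4_7 (x4_6 (x4_5 (s3_5 (s2_7 (s1_6 (x0_7 (x0_6 (x0_5 (s0_4 (n7 (n3 p548_19))))))))))))),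
   x4_7 (x4_6 (x4_5 (s3_5 (s2_6 (s1_7 (x0_7 (x0_6 (x0_5 (s0_4 (n6 (n3 p548_13))))))))))),
   tr p558_13]]

theorem k551 : eqNN c551 (slO 64 (D.chG 184 13) 8) = true := by decide +kernel

end Pool.Agent.Lib.MP_afdd4d_co.K10.E6
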