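import Pool.Agent.Lib.MP_afdd4d_co.K10.E6.Dat
import Pool.Agent.Lib.MP_afdd4d_co.K10.E6.Mk
import Pool.Agent.Lib.MP_afdd4d_co.K8.F6Bl5
import Pool.Agent.Lib.MP_afdd4d_co.K10.E6.P0
import Pool.Agent.Lib.MP_afdd4d_co.K10.E6.P1
import Pool.Agent.Lib.MP_afdd4d_co.K10.E6.P2
import Pool.Agent.Lib.MP_afdd4d_co.K10.E6.P3
import Pool.Agent.Lib.MP_afdd4d_co.K10.E6.P4
import Pool.Agent.Lib.MP_afdd4d_co.K10.E6.P5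
import Pool.Agent.Lib.MP_afdd4d_co.K10.E6.P6
import Pool.Agent.Lib.MP_afdd4d_co.K10.E6.P7
import Pool.Agent.Lib.MP_afdd4d_co.K10.E6.P8
import Pool.Agent.Lib.MP_afdd4d_co.K10.E6.P9
import Pool.Agent.Lib.MP_afdd4d_co.K10.E6.P10
import Pool.Agent.Lib.MP_afdd4d_co.K10.E6.P11
import Pool.Agent.Lib.MP_afdd4d_co.K10.E6.P12
import Pool.Agent.Lib.MP_afdd4d_co.K10.E6.P13
import Pool.Agent.Lib.MP_afdd4d_co.K10.E6.P14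
import Pool.Agent.Lib.MP_afdd4d_co.K10.E6.P15
import Pool.Agent.Lib.MP_afdd4d_co.K10.E6.P16
import Pool.Agent.Lib.MP_afdd4d_co.K10.E6.P17
import Pool.Agent.Lib.MP_afdd4d_co.K10.E6.P18
import Pool.Agent.Lib.MP_afdd4d_co.K10.E6.P19
import Pool.Agent.Lib.MP_afdd4d_co.K10.E6.P20
import Pool.Agent.Lib.MP_afdd4d_co.K10.E6.P21
import Pool.Agent.Lib.MP_afdd4d_co.K10.E6.P22
import Pool.Agent.Lib.MP_afdd4d_co.K10.E6.P23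
import Pool.Agent.Lib.MP_afdd4d_co.K10.E6.P24
import Pool.Agent.Lib.MP_afdd4d_co.K10.E6.P25
import Pool.Agent.Lib.MP_afdd4d_co.K10.E6.P26
import Pool.Agent.Lib.MP_afdd4d_co.K10.E6.P27
import Pool.Agent.Lib.MP_afdd4d_co.K10.E6.P28
import Pool.Agent.Lib.MP_afdd4d_co.K10.E6.P29
import Pool.Agent.Lib.MP_afdd4d_co.K10.E6.P30
import Pool.Agent.Lib.MP_afdd4d_co.K10.E6.P31
import Pool.Agent.Lib.MP_afdd4d_co.K10.E6.P32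

/-!
# Tables
-/

namespace Pool.Agent.Lib.MP_afdd4d_co.K10.E6

open K8

set_option maxRecDepth 100000
set_option exponentiation.threshold 10000000

/-- The slices of the chunk 552. -/
noncomputable def c552 : List (List ℕ) := [
  [tr p543_15,
   p552_1,
   s5_6 (s1_2 p552_1),
   p552_3,
   tr p546_15,
   p552_5,
   s5_6 (s1_2 p552_5),
   p552_7],
  [p552_8,
   p552_9,
   s5_6 (s1_2 p552_9),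
   tr p549_15,
   p552_12,
   p552_13,
   s5_6 (s1_2 p552_13),
   p552_15],
  [s3_6 (s2_7 (s1_5 (s0_4 p546_27))),
   x4_7 (x4_6 (x4_5 (x0_3 (x0_2 (x0_1 (n7 (n6 p552_5))))))),
   p552_18,
   p552_19,
   p552_20,
   x4_7 (x4_6 (x4_5 (x0_3 (x0_2 (x0_1 (n7 (n6 p552_1))))))),
   p552_22,
   p552_23],
  [s5_6 (s1_2 p552_40),
   p552_25,
   s5_6 (x4_7 (x4_6 (x4_5 (s1_2 (x0_3 (x0_2 (x0_1 (n6 p552_13)))))))),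
   p552_27,
   p552_28,
   p552_29,
   s5_6 (x4_7 (x4_6 (x4_5 (s1_2 (x0_3 (x0_2 (x0_1 (n6 p552_9)))))))),
   p552_31],
  [s6_7 (s5_6 (s3_6 (s2_5 (s1_7 (s0_4 p546_27))))),
   s5_6 (s1_2 p552_18),
   s5_6 (x4_7 (x4_6 (x4_5 (s1_2 (x0_3 (x0_2 (x0_1 (n7 (n6 p552_5))))))))),
   s5_6 (s1_2 p552_19),
   s5_6 (s1_2 p552_20),
   s5_6 (s1_2 p552_22),
   s5_6 (x4_7 (x4_6 (x4_5 (s1_2 (x0_3 (x0_2 (x0_1 (n7 (n6 p552_1))))))))),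
   s5_6 (s1_2 p552_23)],
  [p552_40,
   x4_7 (x4_6 (x4_5 (x0_3 (x0_2 (x0_1 (n6 p552_13)))))),
   s5_6 (s1_2 p552_25),
   s5_6 (s1_2 p552_27),
   s5_6 (s1_2 p552_28),
   x4_7 (x4_6 (x4_5 (x0_3 (x0_2 (x0_1 (n6 p552_9)))))),
   s5_6 (s1_2 p552_29),
   s5_6 (s1_2 p552_31)],
  [p552_48,
   s5_6 (x4_7 (x4_6 (x4_5 (s1_2 (x0_3 (x0_2 (x0_1 (n7 (n5 p552_22))))))))),
   x4_7 (x4_6 (x4_5 (x0_3 (x0_2 (x0_1 (n7 (n5 p552_22))))))),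
   x4_7 (x4_6 (x4_5 (x0_3 (x0_2 (x0_1 (n7 p552_3)))))),
   tr p557_15,
   s5_6 (x4_7 (x4_6 (x4_5 (s1_2 (x0_3 (x0_2 (x0_1 (n7 (n5 p552_18))))))))),
   x4_7 (x4_6 (x4_5 (x0_3 (x0_2 (x0_1 (n7 (n5 p552_18))))))),
   x4_7 (x4_6 (x4_5 (x0_3 (x0_2 (x0_1 (n7 p552_7))))))],
  [x4_7 (x4_6 (x4_5 (x0_3 (x0_2 (x0_1 (n6 (n5 p552_8))))))),
   x4_7 (x4_6 (x4_5 (x0_3 (x0_2 (x0_1 (n6 p552_29)))))),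
   s5_6 (x4_7 (x4_6 (x4_5 (s1_2 (x0_3 (x0_2 (x0_1 (n6 p552_29)))))))),
   p552_59,
   x4_7 (x4_6 (x4_5 (x0_3 (x0_2 (x0_1 (n6 (n5 p552_12))))))),
   x4_7 (x4_6 (x4_5 (x0_3 (x0_2 (x0_1 (n6 p552_25)))))),
   s5_6 (x4_7 (x4_6 (x4_5 (s1_2 (x0_3 (x0_2 (x0_1 (n6 p552_25)))))))),
   tr p558_15]]

theorem k552 : eqNN c552 (slO 64 (D.chG 184 15) 8) = true := by decide +kernel

/-- The slices of the chunk 553. -/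
noncomputable def c553 : List (List ℕ) := [
  [tr p543_20,
   p553_1,
   p553_2,
   p553_3,
   tr p546_20,
   p553_5,
   p553_6,
   p553_7],
  [s6_7 (s2_3 p553_2),
   s6_7 (s2_3 p553_3),
   p553_10,
   tr p549_20,
   p553_12,
   p553_13,
   p553_14,
   tr p552_20],
  [s3_6 (s2_7 (s1_5 (s0_4 p546_20))),
   s6_7 (s2_3 p553_5),
   s6_7 (s2_3 p553_12),
   s6_7 (s2_3 p553_13),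
   p553_20,
   x4_7 (x4_6 (x4_5 (x0_3 (x0_2 (x0_1 (n7 (n6 (n3 (n2 (n1 p553_1)))))))))),
   p553_22,
   p553_23],
  [s6_7 (s2_3 p553_6),
   s6_7 (s2_3 p553_7),
   s6_7 (s2_3 p553_14),
   s3_6 (s2_7 (s1_5 (s0_4 p552_20))),
   s6_7 (s2_3 p553_22),
   s6_7 (s2_3 p553_23),
   x4_7 (x4_6 (x4_5 (x0_3 (x0_2 (x0_1 (n5 (n3 (n2 (n1 p553_10))))))))),
   p553_31],
  [s3_5 (s2_6 (s1_7 (s0_4 p546_48))),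
   p553_33,
   x4_7 (x4_6 (x4_5 (x0_3 (x0_2 (x0_1 (n7 (n5 (n3 (n2 (n1 p553_6)))))))))),
   s6_7 (x4_7 (x4_6 (x4_5 (s2_3 (x0_3 (x0_2 (x0_1 (n6 (n3 (n2 (n1 p553_13))))))))))),
   p553_36,
   p553_37,
   x4_7 (x4_6 (x4_5 (x0_3 (x0_2 (x0_1 (n7 (n5 (n3 (n2 (n1 p553_2)))))))))),
   x4_7 (x4_6 (x4_5 (x0_3 (x0_2 (x0_1 (n7 (n3 (n2 (n1 p553_23)))))))))],
  [s6_7 (x4_7 (x4_6 (x4_5 (s2_3 (x0_3 (x0_2 (x0_1 (n7 (n5 (n3 (n2 (n1 p553_6)))))))))))),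
   x4_7 (x4_6 (x4_5 (x0_3 (x0_2 (x0_1 (n6 (n3 (n2 (n1 p553_13))))))))),
   p553_42,
   s3_5 (s2_6 (s1_7 (s0_4 p552_48))),
   s6_7 (x4_7 (x4_6 (x4_5 (s2_3 (x0_3 (x0_2 (x0_1 (n7 (n5 (n3 (n2 (n1 p553_22)))))))))))),
   s6_7 (x4_7 (x4_6 (x4_5 (s2_3 (x0_3 (x0_2 (x0_1 (n7 (n3 (n2 (n1 p553_3))))))))))),
   s6_7 (s2_3 p553_58),
   p553_47],
  [s6_7 (s2_3 p553_36),
   s6_7 (s2_3 p553_37),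
   x4_7 (x4_6 (x4_5 (x0_3 (x0_2 (x0_1 (n7 (n5 (n3 (n2 (n1 p553_22)))))))))),
   x4_7 (x4_6 (x4_5 (x0_3 (x0_2 (x0_1 (n7 (n3 (n2 (n1 p553_3))))))))),
   tr p557_20,
   x4_7 (x4_6 (x4_5 (x0_3 (x0_2 (x0_1 (n7 (n6 (n3 (n2 (n1 p553_33)))))))))),
   s6_7 (x4_7 (x4_6 (x4_5 (s2_3 (x0_3 (x0_2 (x0_1 (n6 (n5 (n3 (n2 (n1 p553_12)))))))))))),
   x4_7 (x4_6 (x4_5 (x0_3 (x0_2 (x0_1 (n7 (n3 (n2 (n1 p553_7)))))))))],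
  [s6_7 (x4_7 (x4_6 (x4_5 (s2_3 (x0_3 (x0_2 (x0_1 (n7 (n5 (n3 (n2 (n1 p553_2)))))))))))),
   s6_7 (x4_7 (x4_6 (x4_5 (s2_3 (x0_3 (x0_2 (x0_1 (n7 (n3 (n2 (n1 p553_23))))))))))),
   p553_58,
   s6_7 (s2_3 p553_47),
   x4_7 (x4_6 (x4_5 (x0_3 (x0_2 (x0_1 (n6 (n5 (n3 (n2 (n1 p553_12)))))))))),
   s6_7 (x4_7 (x4_6 (x4_5 (s2_3 (x0_3 (x0_2 (x0_1 (n7 (n3 (n2 (n1 p553_7))))))))))),
   x4_7 (x4_6 (x4_5 (x0_3 (x0_2 (x0_1 (n5 (n3 (n2 (n1 p553_42))))))))),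
   tr p558_20]]

theorem k553 : eqNN c553 (slO 64 (D.chG 184 20) 8) = true := by decide +kernel

/-- The slices of the chunk 554. -/
noncomputable def c554 : List (List ℕ) := [
  [tr p543_22,
   tr p544_22,
   s3_7 (s2_5 (s1_6 (s0_4 p544_37))),
   tr p545_22,
   tr p546_22,
   tr p547_22,
   s3_7 (s2_5 (s1_6 (s0_4 p547_37))),
   tr p548_22],
  [s3_5 (s2_6 (s1_7 (s0_4 p544_50))),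
   s3_6 (s2_7 (s1_5 (s0_4 p545_28))),
   s3_5 (s2_6 (s1_7 (s0_4 p545_50))),
   tr p549_22,
   tr p550_22,
   tr p551_22,
   s6_7 (s5_7 (x4_7 (x4_6 (x4_5 (s3_5 (s2_7 (s1_6 (x0_7 (x0_6 (x0_5 (s0_4 (n6 (n5 (n2 p551_28)))))))))))))),
   tr p552_22],
  [s3_6 (s2_7 (s1_5 (s0_4 p546_28))),
   x4_7 (x4_6 (x4_5 (s3_7 (s2_6 (s1_5 (x0_7 (x0_6 (x0_5 (s0_4 (n7 (n5 (n3 (n2 p547_50))))))))))))),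
   s3_6 (s2_7 (s1_5 (s0_4 p550_28))),
   s3_6 (s2_7 (s1_5 (s0_4 p551_28))),
   tr p553_22,
   x4_7 (x4_6 (x4_5 (s3_7 (s2_6 (s1_5 (x0_7 (x0_6 (x0_5 (s0_4 (n7 (n5 (n3 (n2 p544_50))))))))))))),
   p554_22,
   p554_23],
  [x4_7 (x4_6 (x4_5 (s3_5 (s2_6 (s1_7 (x0_7 (x0_6 (x0_5 (s0_4 (n7 (n5 (n3 (n2 p547_22))))))))))))),
   s3_6 (s2_7 (s1_5 (s0_4 p548_28))),
   s6_7 (s5_7 (s3_5 (s2_7 (s1_6 (s0_4 p551_44))))),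
   s3_6 (s2_7 (s1_5 (s0_4 p552_28))),
   p554_28,
   p554_29,
   x4_7 (x4_6 (x4_5 (s3_5 (s2_6 (s1_7 (x0_7 (x0_6 (x0_5 (s0_4 (n7 (n5 (n3 p545_22)))))))))))),
   tr p556_22],
  [x4_7 (x4_6 (x4_5 (s3_5 (s2_6 (s1_7 (x0_7 (x0_6 (x0_5 (s0_4 (n7 (n5 (n3 (n2 (n1 p546_22)))))))))))))),
   s3_5 (s2_6 (s1_7 (s0_4 p550_50))),
   s6_7 (s5_6 (s3_6 (s2_5 (s1_7 (s0_4 p547_49))))),
   x4_7 (x4_6 (x4_5 (s3_6 (s2_7 (s1_5 (x0_7 (x0_6 (x0_5 (s0_4 (n6 (n5 (n2 p551_44)))))))))))),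
   s3_7 (s2_5 (s1_6 (s0_4 p553_37))),
   s5_7 (x4_7 (x4_6 (x4_5 (s1_3 (x0_3 (x0_2 (x0_1 (n6 (n5 (n3 (n1 p554_28))))))))))),
   s6_7 (s5_6 (x4_7 (x4_6 (x4_5 (s3_6 (s2_5 (s1_7 (x0_7 (x0_6 (x0_5 (s0_4 (n7 (n6 (n3 (n2 p544_37))))))))))))))),
   p554_39],
  [s3_5 (s2_6 (s1_7 (s0_4 p547_50))),
   s3_5 (s2_6 (s1_7 (s0_4 p551_50))),
   s3_5 (s2_6 (s1_7 (s0_4 p548_50))),
   x4_7 (x4_6 (x4_5 (s3_5 (s2_6 (s1_7 (x0_7 (x0_6 (x0_5 (s0_4 (n7 (n5 p552_22))))))))))),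
   p554_44,
   s6_7 (s5_7 (x4_7 (x4_6 (x4_5 (s3_5 (s2_7 (s1_6 (x0_7 (x0_6 (x0_5 (s0_4 (n6 (n5 (n3 p545_28)))))))))))))),
   s5_7 (x4_7 (x4_6 (x4_5 (s1_3 (x0_3 (x0_2 (x0_1 (n7 (n3 (n1 p554_23)))))))))),
   s3_7 (s2_5 (s1_6 (s0_4 p556_37)))],
  [x4_7 (x4_6 (x4_5 (s3_5 (s2_6 (s1_7 (x0_7 (x0_6 (x0_5 (s0_4 (n7 (n5 (n3 (n2 (n1 p553_22)))))))))))))),
   s6_7 (s5_7 (s3_5 (s2_7 (s1_6 (s0_4 p554_44))))),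
   p554_50,
   x4_7 (x4_6 (x4_5 (s3_7 (s2_6 (s1_5 (x0_7 (x0_6 (x0_5 (s0_4 (n7 (n5 (n3 p545_50)))))))))))),
   tr p557_22,
   x4_7 (x4_6 (x4_5 (s3_5 (s2_6 (s1_7 (x0_7 (x0_6 (x0_5 (s0_4 (n7 (n5 (n2 (n1 p550_22))))))))))))),
   s6_7 (s5_7 (x4_7 (x4_6 (x4_5 (s3_5 (s2_7 (s1_6 (x0_7 (x0_6 (x0_5 (s0_4 (n6 (n5 (n2 (n1 p550_28))))))))))))))),
   x4_7 (x4_6 (x4_5 (s3_7 (s2_6 (s1_5 (x0_7 (x0_6 (x0_5 (s0_4 (n7 (n5 (n3 p548_50))))))))))))],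
  [x4_7 (x4_6 (x4_5 (s3_5 (s2_6 (s1_7 (x0_7 (x0_6 (x0_5 (s0_4 (n7 (n5 (n3 (n2 p544_22))))))))))))),
   p554_57,
   s5_7 (x4_7 (x4_6 (x4_5 (s1_3 (x0_3 (x0_2 (x0_1 (n7 (n3 (n1 p554_39)))))))))),
   x4_7 (x4_6 (x4_5 (s3_5 (s2_6 (s1_7 (x0_7 (x0_6 (x0_5 (s0_4 (n7 (n5 p556_22))))))))))),
   x4_7 (x4_6 (x4_5 (s3_7 (s2_6 (s1_5 (x0_7 (x0_6 (x0_5 (s0_4 (n7 (n5 (n2 (n1 p550_50))))))))))))),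
   s6_7 (s5_7 (x4_7 (x4_6 (x4_5 (s3_5 (s2_7 (s1_6 (x0_7 (x0_6 (x0_5 (s0_4 (n6 (n5 (n3 p548_28)))))))))))))),
   x4_7 (x4_6 (x4_5 (s3_5 (s2_6 (s1_7 (x0_7 (x0_6 (x0_5 (s0_4 (n7 (n5 (n3 p548_22)))))))))))),
   tr p558_22]]

theorem k554 : eqNN c554 (slO 64 (D.chG 184 22) 8) = true := by decide +kernel

/-- The slices of the chunk 555. -/
noncomputable def c555 : List (List ℕ) := [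
  [tr p543_23,
   tr p544_23,
   s3_7 (s2_5 (s1_6 (s0_4 p544_39))),
   tr p545_23,
   tr p546_23,
   tr p547_23,
   s3_7 (s2_5 (s1_6 (s0_4 p547_39))),
   tr p548_23],
  [s6_7 (s5_7 (s3_5 (s2_7 (s1_6 (s0_4 p544_46))))),
   s3_6 (s2_7 (s1_5 (s0_4 p545_29))),
   s6_7 (s5_6 (s3_6 (s2_5 (s1_7 (s0_4 p545_57))))),
   tr p549_23,
   tr p550_23,
   tr p551_23,
   s3_7 (s2_5 (s1_6 (s0_4 p551_39))),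
   tr p552_23],
  [s3_6 (s2_7 (s1_5 (s0_4 p546_29))),
   x4_7 (x4_6 (x4_5 (s3_7 (s2_6 (s1_5 (x0_7 (x0_6 (x0_5 (s0_4 (n7 (n3 (n2 p547_39)))))))))))),
   s3_6 (s2_7 (s1_5 (s0_4 p550_29))),
   s3_6 (s2_7 (s1_5 (s0_4 p551_29))),
   tr p553_23,
   x4_7 (x4_6 (x4_5 (s3_7 (s2_6 (s1_5 (x0_7 (x0_6 (x0_5 (s0_4 (n7 (n3 (n2 p544_39)))))))))))),
   tr p554_23,
   p555_23],
  [s6_7 (s5_7 (s3_5 (s2_7 (s1_6 (s0_4 p547_46))))),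
   s3_6 (s2_7 (s1_5 (s0_4 p548_29))),
   x4_7 (x4_6 (x4_5 (s3_7 (s2_5 (s1_6 (x0_7 (x0_6 (x0_5 (s0_4 (n7 (n2 p551_23))))))))))),
   s3_6 (s2_7 (s1_5 (s0_4 p552_29))),
   s3_6 (s2_7 (s1_5 (s0_4 p554_29))),
   p555_29,
   s6_7 (s5_6 (x4_7 (x4_6 (x4_5 (s3_6 (s2_5 (s1_7 (x0_7 (x0_6 (x0_5 (s0_4 (n6 (n3 p545_29))))))))))))),
   tr p556_23],
  [s6_7 (s5_6 (x4_7 (x4_6 (x4_5 (s3_6 (s2_5 (s1_7 (x0_7 (x0_6 (x0_5 (s0_4 (n6 (n3 (n2 (n1 p546_29))))))))))))))),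
   s6_7 (s5_6 (s3_6 (s2_5 (s1_7 (s0_4 p550_57))))),
   x4_7 (x4_6 (x4_5 (s3_7 (s2_5 (s1_6 (x0_7 (x0_6 (x0_5 (s0_4 (n7 (n3 (n2 p547_23)))))))))))),
   s6_7 (s5_6 (s3_6 (s2_5 (s1_7 (s0_4 p551_57))))),
   x4_7 (x4_6 (x4_5 (s3_7 (s2_5 (s1_6 (x0_7 (x0_6 (x0_5 (s0_4 (n7 (n3 (n2 (n1 p553_23))))))))))))),
   s3_7 (s2_5 (s1_6 (s0_4 p554_39))),
   x4_7 (x4_6 (x4_5 (s3_7 (s2_5 (s1_6 (x0_7 (x0_6 (x0_5 (s0_4 (n7 (n3 (n2 p544_23)))))))))))),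
   p555_39],
  [s3_5 (s2_6 (s1_7 (s0_4 p547_58))),
   x4_7 (x4_6 (x4_5 (s3_7 (s2_6 (s1_5 (x0_7 (x0_6 (x0_5 (s0_4 (n7 (n2 p551_39))))))))))),
   s6_7 (s5_6 (s3_6 (s2_5 (s1_7 (s0_4 p548_57))))),
   s6_7 (s5_6 (x4_7 (x4_6 (x4_5 (s3_6 (s2_5 (s1_7 (x0_7 (x0_6 (x0_5 (s0_4 (n6 p552_29)))))))))))),
   s6_7 (s5_6 (s3_6 (s2_5 (s1_7 (s0_4 p554_57))))),
   x4_7 (x4_6 (x4_5 (s3_6 (s2_7 (s1_5 (x0_7 (x0_6 (x0_5 (s0_4 (n6 (n3 p545_57))))))))))),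
   p555_46,
   x4_7 (x4_6 (x4_5 (s3_7 (s2_5 (s1_6 (x0_7 (x0_6 (x0_5 (s0_4 (n7 p556_23))))))))))],
  [s3_5 (s2_6 (s1_7 (s0_4 p553_58))),
   x4_7 (x4_6 (x4_5 (s3_7 (s2_5 (s1_6 (x0_7 (x0_6 (x0_5 (s0_4 (n7 (n3 (n1 p554_23)))))))))))),
   x4_7 (x4_6 (x4_5 (s3_7 (s2_6 (s1_5 (x0_7 (x0_6 (x0_5 (s0_4 (n7 (n3 (n1 p554_39)))))))))))),
   x4_7 (x4_6 (x4_5 (s3_7 (s2_5 (s1_6 (x0_7 (x0_6 (x0_5 (s0_4 (n7 (n3 p545_23))))))))))),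
   tr p557_23,
   s6_7 (s5_6 (x4_7 (x4_6 (x4_5 (s3_6 (s2_5 (s1_7 (x0_7 (x0_6 (x0_5 (s0_4 (n6 (n2 (n1 p550_29)))))))))))))),
   x4_7 (x4_6 (x4_5 (s3_6 (s2_7 (s1_5 (x0_7 (x0_6 (x0_5 (s0_4 (n6 (n2 (n1 p550_57)))))))))))),
   x4_7 (x4_6 (x4_5 (s3_7 (s2_5 (s1_6 (x0_7 (x0_6 (x0_5 (s0_4 (n7 (n3 p548_23)))))))))))],
  [x4_7 (x4_6 (x4_5 (s3_5 (s2_6 (s1_7 (x0_7 (x0_6 (x0_5 (s0_4 (n5 (n3 (n2 p544_46)))))))))))),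
   s6_7 (s5_7 (s3_5 (s2_7 (s1_6 (s0_4 p555_46))))),
   s5_6 (x4_7 (x4_6 (x4_5 (s1_2 (x0_3 (x0_2 (x0_1 (n6 (n3 p555_29))))))))),
   s3_5 (s2_6 (s1_7 (s0_4 p556_58))),
   x4_7 (x4_6 (x4_5 (s3_7 (s2_5 (s1_6 (x0_7 (x0_6 (x0_5 (s0_4 (n7 (n2 (n1 p550_23)))))))))))),
   x4_7 (x4_6 (x4_5 (s3_6 (s2_7 (s1_5 (x0_7 (x0_6 (x0_5 (s0_4 (n6 (n3 p548_57))))))))))),
   s6_7 (s5_6 (x4_7 (x4_6 (x4_5 (s3_6 (s2_5 (s1_7 (x0_7 (x0_6 (x0_5 (s0_4 (n6 (n3 p548_29))))))))))))),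
   tr p558_23]]

theorem k555 : eqNN c555 (slO 64 (D.chG 184 23) 8) = true := by decide +kernel

end Pool.Agent.Lib.MP_afdd4d_co.K10.E6
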