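import Pool.Agent.Lib.MP_afdd4d_co.K10.E6.Dat
import Pool.Agent.Lib.MP_afdd4d_co.K10.E6.Mk
import Pool.Agent.Lib.MP_afdd4d_co.K8.F6Bl5
import Pool.Agent.Lib.MP_afdd4d_co.K10.E6.P0
import Pool.Agent.Lib.MP_afdd4d_co.K10.E6.P1
import Pool.Agent.Lib.MP_afdd4d_co.K10.E6.P2
import Pool.Agent.Lib.MP_afdd4d_co.K10.E6.P3
import Pool.Agent.Lib.MP_afdd4d_co.K10.E6.P4
import Pool.Agent.Lib.MP_afdd4d_co.K10.E6.P5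
import Pool.Agent.Lib.MP_afdd4d_co.K10.E6.P6
import Pool.Agent.Lib.MP_afdd4d_co.K10.E6.P7
import Pool.Agent.Lib.MP_afdd4d_co.K10.E6.P8
import Pool.Agent.Lib.MP_afdd4d_co.K10.E6.P9
import Pool.Agent.Lib.MP_afdd4d_co.K10.E6.P10
import Pool.Agent.Lib.MP_afdd4d_co.K10.E6.P11
import Pool.Agent.Lib.MP_afdd4d_co.K10.E6.P12
import Pool.Agent.Lib.MP_afdd4d_co.K10.E6.P13
import Pool.Agent.Lib.MP_afdd4d_co.K10.E6.P14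
import Pool.Agent.Lib.MP_afdd4d_co.K10.E6.P15
import Pool.Agent.Lib.MP_afdd4d_co.K10.E6.P16
import Pool.Agent.Lib.MP_afdd4d_co.K10.E6.P17
import Pool.Agent.Lib.MP_afdd4d_co.K10.E6.P18
import Pool.Agent.Lib.MP_afdd4d_co.K10.E6.P19
import Pool.Agent.Lib.MP_afdd4d_co.K10.E6.P20
import Pool.Agent.Lib.MP_afdd4d_co.K10.E6.P21
import Pool.Agent.Lib.MP_afdd4d_co.K10.E6.P22
import Pool.Agent.Lib.MP_afdd4d_co.K10.E6.P23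
import Pool.Agent.Lib.MP_afdd4d_co.K10.E6.P24
import Pool.Agent.Lib.MP_afdd4d_co.K10.E6.P25
import Pool.Agent.Lib.MP_afdd4d_co.K10.E6.P26
import Pool.Agent.Lib.MP_afdd4d_co.K10.E6.P27
import Pool.Agent.Lib.MP_afdd4d_co.K10.E6.P28
import Pool.Agent.Lib.MP_afdd4d_co.K10.E6.P29
import Pool.Agent.Lib.MP_afdd4d_co.K10.E6.P30
import Pool.Agent.Lib.MP_afdd4d_co.K10.E6.P31
import Pool.Agent.Lib.MP_afdd4d_co.K10.E6.P32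

/-!
# Tables
-/

namespace Pool.Agent.Lib.MP_afdd4d_co.K10.E6

open K8

set_option maxRecDepth 100000
set_option exponentiation.threshold 10000000

/-- The slices of the chunk 556. -/
noncomputable def c556 : List (List ℕ) := [
  [tr p543_31,
   p556_1,
   p556_2,
   p556_3,
   tr p546_31,
   p556_5,
   p556_6,
   p556_7],
  [s6_7 (s2_3 p556_2),
   s6_7 (s2_3 p556_3),
   p556_10,
   tr p549_31,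
   p556_12,
   p556_13,
   p556_14,
   tr p552_31],
  [s3_6 (s2_7 (s1_5 (s0_4 p546_31))),
   s6_7 (s2_3 p556_5),
   s6_7 (s2_3 p556_12),
   s6_7 (s2_3 p556_13),
   tr p553_31,
   x4_7 (x4_6 (x4_5 (x0_3 (x0_2 (x0_1 (n7 (n6 p556_1))))))),
   p556_22,
   p556_23],
  [s6_7 (s2_3 p556_6),
   s6_7 (s2_3 p556_7),
   s6_7 (s2_3 p556_14),
   s3_6 (s2_7 (s1_5 (s0_4 p552_31))),
   s6_7 (s2_3 p556_22),
   s6_7 (s2_3 p556_23),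
   x4_7 (x4_6 (x4_5 (x0_3 (x0_2 (x0_1 (n5 p556_10)))))),
   p556_31],
  [s3_5 (s2_6 (s1_7 (s0_4 p546_59))),
   p556_33,
   x4_7 (x4_6 (x4_5 (x0_3 (x0_2 (x0_1 (n7 (n5 p556_6))))))),
   s6_7 (x4_7 (x4_6 (x4_5 (s2_3 (x0_3 (x0_2 (x0_1 (n6 p556_13)))))))),
   s3_7 (s2_5 (s1_6 (s0_4 p553_47))),
   p556_37,
   x4_7 (x4_6 (x4_5 (x0_3 (x0_2 (x0_1 (n7 (n5 p556_2))))))),
   x4_7 (x4_6 (x4_5 (x0_3 (x0_2 (x0_1 (n7 p556_23))))))],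
  [s6_7 (x4_7 (x4_6 (x4_5 (s2_3 (x0_3 (x0_2 (x0_1 (n7 (n5 p556_6))))))))),
   x4_7 (x4_6 (x4_5 (x0_3 (x0_2 (x0_1 (n6 p556_13)))))),
   p556_42,
   s3_5 (s2_6 (s1_7 (s0_4 p552_59))),
   s6_7 (x4_7 (x4_6 (x4_5 (s2_3 (x0_3 (x0_2 (x0_1 (n7 (n5 p556_22))))))))),
   s6_7 (x4_7 (x4_6 (x4_5 (s2_3 (x0_3 (x0_2 (x0_1 (n7 p556_3)))))))),
   s6_7 (s2_3 p556_58),
   p556_47],
  [s6_7 (s5_7 (s3_5 (s2_7 (s1_6 (s0_4 p553_47))))),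
   s6_7 (s2_3 p556_37),
   x4_7 (x4_6 (x4_5 (x0_3 (x0_2 (x0_1 (n7 (n5 p556_22))))))),
   x4_7 (x4_6 (x4_5 (x0_3 (x0_2 (x0_1 (n7 p556_3)))))),
   tr p557_31,
   x4_7 (x4_6 (x4_5 (x0_3 (x0_2 (x0_1 (n7 (n6 p556_33))))))),
   s6_7 (x4_7 (x4_6 (x4_5 (s2_3 (x0_3 (x0_2 (x0_1 (n6 (n5 p556_12))))))))),
   x4_7 (x4_6 (x4_5 (x0_3 (x0_2 (x0_1 (n7 p556_7))))))],
  [s6_7 (x4_7 (x4_6 (x4_5 (s2_3 (x0_3 (x0_2 (x0_1 (n7 (n5 p556_2))))))))),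
   s6_7 (x4_7 (x4_6 (x4_5 (s2_3 (x0_3 (x0_2 (x0_1 (n7 p556_23)))))))),
   p556_58,
   s6_7 (s2_3 p556_47),
   x4_7 (x4_6 (x4_5 (x0_3 (x0_2 (x0_1 (n6 (n5 p556_12))))))),
   s6_7 (x4_7 (x4_6 (x4_5 (s2_3 (x0_3 (x0_2 (x0_1 (n7 p556_7)))))))),
   x4_7 (x4_6 (x4_5 (x0_3 (x0_2 (x0_1 (n5 p556_42)))))),
   tr p558_31]]

theorem k556 : eqNN c556 (slO 64 (D.chG 184 31) 8) = true := by decide +kernel

/-- The slices of the chunk 557. -/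
noncomputable def c557 : List (List ℕ) := [
  [tr p543_52,
   p557_1,
   s5_6 (s1_2 p557_1),
   p557_3,
   p557_4,
   p557_5,
   s5_6 (s1_2 p557_5),
   p557_7],
  [s5_7 (s1_3 p557_1),
   s6_7 (s2_3 p557_3),
   s5_7 (s1_3 p557_3),
   tr p549_52,
   p557_12,
   p557_13,
   s5_6 (s1_2 p557_13),
   p557_15],
  [s6_7 (s2_3 p557_4),
   s6_7 (s2_3 p557_5),
   s6_7 (s2_3 p557_12),
   s6_7 (s2_3 p557_13),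
   p557_20,
   x4_7 (x4_6 (x4_5 (x0_3 (x0_2 (x0_1 (n7 (n6 (n3 (n2 (n1 p557_1)))))))))),
   p557_22,
   p557_23],
  [s6_7 (s5_6 (s2_3 (s1_2 p557_5))),
   s6_7 (s2_3 p557_7),
   s6_7 (s5_6 (s2_3 (s1_2 p557_13))),
   s6_7 (s2_3 p557_15),
   s6_7 (s2_3 p557_22),
   s6_7 (s2_3 p557_23),
   s5_7 (x4_7 (x4_6 (x4_5 (s1_3 (x0_3 (x0_2 (x0_1 (n7 (n3 (n2 (n1 p557_3))))))))))),
   p557_31],
  [s5_7 (s1_3 p557_4),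
   s5_7 (s1_3 p557_12),
   s6_7 (s5_7 (s2_3 (s1_3 p557_5))),
   s6_7 (s5_7 (s2_3 (s1_3 p557_13))),
   s5_6 (s1_2 p557_20),
   s5_6 (s1_2 p557_22),
   s5_6 (x4_7 (x4_6 (x4_5 (s1_2 (x0_3 (x0_2 (x0_1 (n7 (n6 (n3 (n2 (n1 p557_1)))))))))))),
   s5_6 (s1_2 p557_23)],
  [s5_7 (s1_3 p557_5),
   s5_7 (s1_3 p557_13),
   s5_7 (s1_3 p557_7),
   s5_7 (s1_3 p557_15),
   s6_7 (s5_7 (s2_3 (s1_3 p557_22))),
   s6_7 (x4_7 (x4_6 (x4_5 (s2_3 (x0_3 (x0_2 (x0_1 (n7 (n3 (n2 (n1 p557_3))))))))))),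
   s6_7 (s5_7 (s2_3 (s1_3 p557_23))),
   s5_6 (s1_2 p557_31)],
  [s5_7 (s1_3 p557_20),
   s6_7 (s5_6 (s2_3 (s1_2 p557_22))),
   s5_7 (s1_3 p557_22),
   x4_7 (x4_6 (x4_5 (x0_3 (x0_2 (x0_1 (n7 (n3 (n2 (n1 p557_3))))))))),
   p557_52,
   s5_7 (x4_7 (x4_6 (x4_5 (s1_3 (x0_3 (x0_2 (x0_1 (n6 (n5 (n3 (n2 (n1 p557_12)))))))))))),
   s6_7 (x4_7 (x4_6 (x4_5 (s2_3 (x0_3 (x0_2 (x0_1 (n6 (n5 (n3 (n2 (n1 p557_12)))))))))))),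
   x4_7 (x4_6 (x4_5 (x0_3 (x0_2 (x0_1 (n7 (n3 (n2 (n1 p557_7)))))))))],
  [s5_7 (x4_7 (x4_6 (x4_5 (s1_3 (x0_3 (x0_2 (x0_1 (n7 (n6 (n3 (n2 (n1 p557_1)))))))))))),
   s6_7 (s5_6 (s2_3 (s1_2 p557_23))),
   s5_7 (s1_3 p557_23),
   s5_7 (s1_3 p557_31),
   x4_7 (x4_6 (x4_5 (x0_3 (x0_2 (x0_1 (n6 (n5 (n3 (n2 (n1 p557_12)))))))))),
   s6_7 (x4_7 (x4_6 (x4_5 (s2_3 (x0_3 (x0_2 (x0_1 (n7 (n3 (n2 (n1 p557_7))))))))))),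
   s5_7 (x4_7 (x4_6 (x4_5 (s1_3 (x0_3 (x0_2 (x0_1 (n7 (n3 (n2 (n1 p557_7))))))))))),
   p557_63]]

theorem k557 : eqNN c557 (slO 64 (D.chG 184 52) 8) = true := by decide +kernel

/-- The slices of the chunk 558. -/
noncomputable def c558 : List (List ℕ) := [
  [tr p543_63,
   p558_1,
   s5_6 (s1_2 p558_1),
   p558_3,
   p558_4,
   p558_5,
   s5_6 (s1_2 p558_5),
   p558_7],
  [s5_7 (s1_3 p558_1),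
   s6_7 (s2_3 p558_3),
   s5_7 (s1_3 p558_3),
   tr p549_63,
   p558_12,
   p558_13,
   s5_6 (s1_2 p558_13),
   p558_15],
  [s6_7 (s2_3 p558_4),
   s6_7 (s2_3 p558_5),
   s6_7 (s2_3 p558_12),
   s6_7 (s2_3 p558_13),
   p558_20,
   x4_7 (x4_6 (x4_5 (x0_3 (x0_2 (x0_1 (n7 (n6 p558_1))))))),
   p558_22,
   p558_23],
  [s6_7 (s5_6 (s2_3 (s1_2 p558_5))),
   s6_7 (s2_3 p558_7),
   s6_7 (s5_6 (s2_3 (s1_2 p558_13))),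
   s6_7 (s2_3 p558_15),
   s6_7 (s2_3 p558_22),
   s6_7 (s2_3 p558_23),
   s5_7 (x4_7 (x4_6 (x4_5 (s1_3 (x0_3 (x0_2 (x0_1 (n7 p558_3)))))))),
   p558_31],
  [s5_7 (s1_3 p558_4),
   s5_7 (s1_3 p558_12),
   s6_7 (s5_7 (s2_3 (s1_3 p558_5))),
   s6_7 (s5_7 (s2_3 (s1_3 p558_13))),
   s5_6 (s1_2 p558_20),
   s5_6 (s1_2 p558_22),
   s5_6 (x4_7 (x4_6 (x4_5 (s1_2 (x0_3 (x0_2 (x0_1 (n7 (n6 p558_1))))))))),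
   s5_6 (s1_2 p558_23)],
  [s5_7 (s1_3 p558_5),
   s5_7 (s1_3 p558_13),
   s5_7 (s1_3 p558_7),
   s5_7 (s1_3 p558_15),
   s6_7 (s5_7 (s2_3 (s1_3 p558_22))),
   s6_7 (x4_7 (x4_6 (x4_5 (s2_3 (x0_3 (x0_2 (x0_1 (n7 p558_3)))))))),
   s6_7 (s5_7 (s2_3 (s1_3 p558_23))),
   s5_6 (s1_2 p558_31)],
  [s5_7 (s1_3 p558_20),
   s6_7 (s5_6 (s2_3 (s1_2 p558_22))),
   s5_7 (s1_3 p558_22),
   x4_7 (x4_6 (x4_5 (x0_3 (x0_2 (x0_1 (n7 p558_3)))))),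
   tr p557_63,
   s5_7 (x4_7 (x4_6 (x4_5 (s1_3 (x0_3 (x0_2 (x0_1 (n6 (n5 p558_12))))))))),
   s6_7 (x4_7 (x4_6 (x4_5 (s2_3 (x0_3 (x0_2 (x0_1 (n6 (n5 p558_12))))))))),
   x4_7 (x4_6 (x4_5 (x0_3 (x0_2 (x0_1 (n7 p558_7))))))],
  [s5_7 (x4_7 (x4_6 (x4_5 (s1_3 (x0_3 (x0_2 (x0_1 (n7 (n6 p558_1))))))))),
   s6_7 (s5_6 (s2_3 (s1_2 p558_23))),
   s5_7 (s1_3 p558_23),
   s5_7 (s1_3 p558_31),
   x4_7 (x4_6 (x4_5 (x0_3 (x0_2 (x0_1 (n6 (n5 p558_12))))))),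
   s6_7 (x4_7 (x4_6 (x4_5 (s2_3 (x0_3 (x0_2 (x0_1 (n7 p558_7)))))))),
   s5_7 (x4_7 (x4_6 (x4_5 (s1_3 (x0_3 (x0_2 (x0_1 (n7 p558_7)))))))),
   p558_63]]

theorem k558 : eqNN c558 (slO 64 (D.chG 184 63) 8) = true := by decide +kernel

/-- The slices of the chunk 559. -/
noncomputable def c559 : List (List ℕ) := [
  [p559_0,
   p559_1,
   s5_6 (s1_2 p559_1),
   p559_3,
   p559_4,
   p559_5,
   s5_6 (s1_2 p559_5),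
   p559_7],
  [p559_8,
   p559_9,
   s5_6 (s1_2 p559_9),
   p559_11,
   p559_12,
   p559_13,
   s5_6 (s1_2 p559_13),
   p559_15],
  [p559_16,
   p559_17,
   p559_18,
   p559_19,
   p559_20,
   p559_21,
   p559_22,
   p559_23],
  [p559_24,
   p559_25,
   p559_26,
   p559_27,
   p559_28,
   p559_29,
   p559_30,
   p559_31],
  [s5_6 (s1_2 p559_16),
   s5_6 (s1_2 p559_18),
   s5_6 (s1_2 p559_17),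
   s5_6 (s1_2 p559_19),
   s5_6 (s1_2 p559_20),
   s5_6 (s1_2 p559_22),
   s5_6 (s1_2 p559_21),
   s5_6 (s1_2 p559_23)],
  [s5_6 (s1_2 p559_24),
   s5_6 (s1_2 p559_26),
   s5_6 (s1_2 p559_25),
   s5_6 (s1_2 p559_27),
   s5_6 (s1_2 p559_28),
   s5_6 (s1_2 p559_30),
   s5_6 (s1_2 p559_29),
   s5_6 (s1_2 p559_31)],
  [p559_48,
   p559_49,
   s5_6 (s1_2 p559_49),
   p559_51,
   p559_52,
   p559_53,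
   s5_6 (s1_2 p559_53),
   p559_55],
  [p559_56,
   p559_57,
   s5_6 (s1_2 p559_57),
   p559_59,
   p559_60,
   p559_61,
   s5_6 (s1_2 p559_61),
   p559_63]]

theorem k559 : eqNN c559 (slO 64 (D.chG 185 0) 8) = true := by decide +kernel

end Pool.Agent.Lib.MP_afdd4d_co.K10.E6
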