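import Pool.Agent.Lib.MP_afdd4d_co.K10.E6.Dat
import Pool.Agent.Lib.MP_afdd4d_co.K10.E6.Mk
import Pool.Agent.Lib.MP_afdd4d_co.K8.F6Bl5
import Pool.Agent.Lib.MP_afdd4d_co.K10.E6.P0
import Pool.Agent.Lib.MP_afdd4d_co.K10.E6.P1
import Pool.Agent.Lib.MP_afdd4d_co.K10.E6.P2
import Pool.Agent.Lib.MP_afdd4d_co.K10.E6.P3
import Pool.Agent.Lib.MP_afdd4d_co.K10.E6.P4
import Pool.Agent.Lib.MP_afdd4d_co.K10.E6.P5
import Pool.Agent.Lib.MP_afdd4d_co.K10.E6.P6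
import Pool.Agent.Lib.MP_afdd4d_co.K10.E6.P7
import Pool.Agent.Lib.MP_afdd4d_co.K10.E6.P8
import Pool.Agent.Lib.MP_afdd4d_co.K10.E6.P9
import Pool.Agent.Lib.MP_afdd4d_co.K10.E6.P10
import Pool.Agent.Lib.MP_afdd4d_co.K10.E6.P11
import Pool.Agent.Lib.MP_afdd4d_co.K10.E6.P12
import Pool.Agent.Lib.MP_afdd4d_co.K10.E6.P13
import Pool.Agent.Lib.MP_afdd4d_co.K10.E6.P14
import Pool.Agent.Lib.MP_afdd4d_co.K10.E6.P15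
import Pool.Agent.Lib.MP_afdd4d_co.K10.E6.P16
import Pool.Agent.Lib.MP_afdd4d_co.K10.E6.P17
import Pool.Agent.Lib.MP_afdd4d_co.K10.E6.P18
import Pool.Agent.Lib.MP_afdd4d_co.K10.E6.P19
import Pool.Agent.Lib.MP_afdd4d_co.K10.E6.P20
import Pool.Agent.Lib.MP_afdd4d_co.K10.E6.P21
import Pool.Agent.Lib.MP_afdd4d_co.K10.E6.P22
import Pool.Agent.Lib.MP_afdd4d_co.K10.E6.P23
import Pool.Agent.Lib.MP_afdd4d_co.K10.E6.P24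
import Pool.Agent.Lib.MP_afdd4d_co.K10.E6.P25
import Pool.Agent.Lib.MP_afdd4d_co.K10.E6.P26
import Pool.Agent.Lib.MP_afdd4d_co.K10.E6.P27
import Pool.Agent.Lib.MP_afdd4d_co.K10.E6.P28
import Pool.Agent.Lib.MP_afdd4d_co.K10.E6.P29
import Pool.Agent.Lib.MP_afdd4d_co.K10.E6.P30
import Pool.Agent.Lib.MP_afdd4d_co.K10.E6.P31
import Pool.Agent.Lib.MP_afdd4d_co.K10.E6.P32

/-!
# Tables
-/

namespace Pool.Agent.Lib.MP_afdd4d_co.K10.E6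

open K8

set_option maxRecDepth 100000
set_option exponentiation.threshold 10000000

/-- The slices of the chunk 56. -/
noncomputable def c56 : List (List ℕ) := [
  [tr p51_7,
   tr p52_7,
   s3_7 (s2_5 (s1_6 (s0_4 p52_7))),
   tr p53_7,
   tr p54_7,
   p56_5,
   s5_6 (s1_2 p56_5),
   p56_7],
  [s3_5 (s2_6 (s1_7 (s0_4 p52_42))),
   s3_6 (s2_7 (s1_5 (s0_4 p53_25))),
   s6_7 (s5_6 (s3_6 (s2_5 (s1_7 (s0_4 p53_25))))),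
   tr p57_7,
   p56_12,
   p56_13,
   s5_6 (s1_2 p56_13),
   p56_15],
  [s3_6 (s2_7 (s1_5 (s0_4 p54_25))),
   p56_17,
   p56_18,
   p56_19,
   p56_20,
   p56_21,
   p56_22,
   p56_23],
  [s5_6 (s1_2 p56_40),
   p56_25,
   s5_6 (s1_2 p56_41),
   p56_27,
   p56_28,
   p56_29,
   p56_30,
   p56_31],
  [s6_7 (s5_6 (s3_6 (s2_5 (s1_7 (s0_4 p54_25))))),
   s5_6 (s1_2 p56_18),
   s5_6 (s1_2 p56_17),
   s5_6 (s1_2 p56_19),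
   s5_6 (s1_2 p56_20),
   s5_6 (s1_2 p56_22),
   s5_6 (s1_2 p56_21),
   s5_6 (s1_2 p56_23)],
  [p56_40,
   p56_41,
   s5_6 (s1_2 p56_25),
   s5_6 (s1_2 p56_27),
   s5_6 (s1_2 p56_28),
   s5_6 (s1_2 p56_30),
   s5_6 (s1_2 p56_29),
   s5_6 (s1_2 p56_31)],
  [p56_48,
   s5_6 (s1_2 p56_50),
   p56_50,
   p56_51,
   tr p67_7,
   p56_53,
   s5_6 (s1_2 p56_53),
   p56_55],
  [p56_56,
   s5_6 (s1_2 p56_58),
   p56_58,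
   p56_59,
   p56_60,
   p56_61,
   s5_6 (s1_2 p56_61),
   tr p70_7]]

theorem k56 : eqNN c56 (slO 64 (D.chG 7 7) 8) = true := by decide +kernel

/-- The slices of the chunk 57. -/
noncomputable def c57 : List (List ℕ) := [
  [tr p51_11,
   p57_1,
   s5_6 (s1_2 p57_1),
   p57_3,
   p57_4,
   p57_5,
   s5_6 (s1_2 p57_5),
   p57_7],
  [s5_7 (s1_3 p57_1),
   s6_7 (s2_3 p57_3),
   s5_7 (s1_3 p57_3),
   p57_11,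
   p57_12,
   p57_13,
   s5_6 (s1_2 p57_13),
   p57_15],
  [s6_7 (s2_3 p57_4),
   s6_7 (s2_3 p57_5),
   s6_7 (s2_3 p57_12),
   s6_7 (s2_3 p57_13),
   p57_20,
   p57_21,
   p57_22,
   p57_23],
  [s6_7 (s5_6 (s2_3 (s1_2 p57_5))),
   s6_7 (s2_3 p57_7),
   s6_7 (s5_6 (s2_3 (s1_2 p57_13))),
   s6_7 (s2_3 p57_15),
   s6_7 (s2_3 p57_22),
   s6_7 (s2_3 p57_23),
   p57_30,
   p57_31],
  [s5_7 (s1_3 p57_4),
   s5_7 (s1_3 p57_12),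
   s6_7 (s5_7 (s2_3 (s1_3 p57_5))),
   s6_7 (s5_7 (s2_3 (s1_3 p57_13))),
   s5_6 (s1_2 p57_20),
   s5_6 (s1_2 p57_22),
   s5_6 (s1_2 p57_21),
   s5_6 (s1_2 p57_23)],
  [s5_7 (s1_3 p57_5),
   s5_7 (s1_3 p57_13),
   s5_7 (s1_3 p57_7),
   s5_7 (s1_3 p57_15),
   s6_7 (s5_7 (s2_3 (s1_3 p57_22))),
   s5_6 (s1_2 p57_30),
   s6_7 (s5_7 (s2_3 (s1_3 p57_23))),
   s5_6 (s1_2 p57_31)],
  [s5_7 (s1_3 p57_20),
   s6_7 (s5_6 (s2_3 (s1_2 p57_22))),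
   s5_7 (s1_3 p57_22),
   s5_7 (s1_3 p57_30),
   p57_52,
   p57_53,
   s5_6 (s1_2 p57_53),
   p57_55],
  [s5_7 (s1_3 p57_21),
   s6_7 (s5_6 (s2_3 (s1_2 p57_23))),
   s5_7 (s1_3 p57_23),
   s5_7 (s1_3 p57_31),
   s5_7 (s1_3 p57_53),
   s6_7 (s2_3 p57_55),
   s5_7 (s1_3 p57_55),
   p57_63]]

theorem k57 : eqNN c57 (slO 64 (D.chG 7 11) 8) = true := by decide +kernel

/-- The slices of the chunk 58. -/
noncomputable def c58 : List (List ℕ) := [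
  [tr p51_12,
   tr p52_12,
   s3_7 (s2_5 (s1_6 (s0_4 p52_12))),
   tr p53_12,
   tr p54_12,
   p58_5,
   s5_6 (s1_2 p58_5),
   tr p56_12],
  [s3_5 (s2_6 (s1_7 (s0_4 p52_33))),
   s3_6 (s2_7 (s1_5 (s0_4 p53_18))),
   s6_7 (s5_6 (s3_6 (s2_5 (s1_7 (s0_4 p53_18))))),
   tr p57_12,
   p58_12,
   p58_13,
   s5_6 (s1_2 p58_13),
   p58_15],
  [s3_6 (s2_7 (s1_5 (s0_4 p54_18))),
   p58_17,
   p58_18,
   p58_19,
   p58_20,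
   p58_21,
   p58_22,
   p58_23],
  [s5_6 (s1_2 p58_40),
   s3_6 (s2_7 (s1_5 (s0_4 p56_18))),
   s5_6 (s1_2 p58_41),
   p58_27,
   p58_28,
   p58_29,
   p58_30,
   p58_31],
  [s6_7 (s5_6 (s3_6 (s2_5 (s1_7 (s0_4 p54_18))))),
   s5_6 (s1_2 p58_18),
   s5_6 (s1_2 p58_17),
   s5_6 (s1_2 p58_19),
   s5_6 (s1_2 p58_20),
   s5_6 (s1_2 p58_22),
   s5_6 (s1_2 p58_21),
   s5_6 (s1_2 p58_23)],
  [p58_40,
   p58_41,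
   s6_7 (s5_6 (s3_6 (s2_5 (s1_7 (s0_4 p56_18))))),
   s5_6 (s1_2 p58_27),
   s5_6 (s1_2 p58_28),
   s5_6 (s1_2 p58_30),
   s5_6 (s1_2 p58_29),
   s5_6 (s1_2 p58_31)],
  [p58_48,
   s5_6 (s1_2 p58_50),
   p58_50,
   p58_51,
   tr p67_12,
   p58_53,
   s5_6 (s1_2 p58_53),
   p58_55],
  [p58_56,
   s5_6 (s1_2 p58_58),
   p58_58,
   p58_59,
   p58_60,
   p58_61,
   s5_6 (s1_2 p58_61),
   tr p70_12]]

theorem k58 : eqNN c58 (slO 64 (D.chG 7 12) 8) = true := by decide +kernel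

/-- The slices of the chunk 59. -/
noncomputable def c59 : List (List ℕ) := [
  [tr p51_13,
   tr p52_13,
   s3_7 (s2_5 (s1_6 (s0_4 p52_14))),
   tr p53_13,
   tr p54_13,
   tr p55_13,
   s3_7 (s2_5 (s1_6 (s0_4 p55_14))),
   tr p56_13],
  [s3_5 (s2_6 (s1_7 (s0_4 p52_41))),
   s3_6 (s2_7 (s1_5 (s0_4 p53_19))),
   s3_5 (s2_6 (s1_7 (s0_4 p53_41))),
   tr p57_13,
   tr p58_13,
   p59_13,
   p59_14,
   tr p60_13],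
  [s3_6 (s2_7 (s1_5 (s0_4 p54_19))),
   s3_6 (s2_7 (s1_5 (s0_4 p55_19))),
   s3_6 (s2_7 (s1_5 (s0_4 p58_19))),
   p59_19,
   tr p61_13,
   tr p62_13,
   p59_22,
   p59_23],
  [s6_7 (s5_7 (s3_5 (s2_7 (s1_6 (s0_4 p55_35))))),
   s3_6 (s2_7 (s1_5 (s0_4 p56_19))),
   p59_26,
   s3_6 (s2_7 (s1_5 (s0_4 p60_19))),
   p59_28,
   p59_29,
   tr p65_13,
   tr p66_13],
  [s3_5 (s2_6 (s1_7 (s0_4 p54_41))),
   s3_5 (s2_6 (s1_7 (s0_4 p58_41))),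
   s6_7 (s5_6 (s3_6 (s2_5 (s1_7 (s0_4 p55_26))))),
   s6_7 (s5_6 (s3_6 (s2_5 (s1_7 (s0_4 p59_26))))),
   s3_7 (s2_5 (s1_6 (s0_4 p61_14))),
   p59_37,
   s3_7 (s2_5 (s1_6 (s0_4 p62_14))),
   p59_39],
  [s3_5 (s2_6 (s1_7 (s0_4 p55_41))),
   p59_41,
   s3_5 (s2_6 (s1_7 (s0_4 p56_41))),
   s3_5 (s2_6 (s1_7 (s0_4 p60_41))),
   p59_44,
   s3_7 (s2_5 (s1_6 (s0_4 p65_14))),
   p59_46,
   s3_7 (s2_5 (s1_6 (s0_4 p66_14)))],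
  [s3_5 (s2_6 (s1_7 (s0_4 p61_41))),
   p59_49,
   p59_50,
   s3_5 (s2_6 (s1_7 (s0_4 p65_41))),
   tr p67_13,
   tr p68_13,
   s3_7 (s2_5 (s1_6 (s0_4 p68_14))),
   tr p69_13],
  [s3_5 (s2_6 (s1_7 (s0_4 p62_41))),
   p59_57,
   p59_58,
   s3_5 (s2_6 (s1_7 (s0_4 p66_41))),
   s3_5 (s2_6 (s1_7 (s0_4 p68_41))),
   s3_6 (s2_7 (s1_5 (s0_4 p69_19))),
   s3_5 (s2_6 (s1_7 (s0_4 p69_41))),
   tr p70_13]]

theorem k59 : eqNN c59 (slO 64 (D.chG 7 13) 8) = true := by decide +kernel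

end Pool.Agent.Lib.MP_afdd4d_co.K10.E6
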