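import Pool.Agent.Lib.MP_afdd4d_co.K10.E6.Dat
import Pool.Agent.Lib.MP_afdd4d_co.K10.E6.Mk
import Pool.Agent.Lib.MP_afdd4d_co.K8.F6Bl5
import Pool.Agent.Lib.MP_afdd4d_co.K10.E6.P0
import Pool.Agent.Lib.MP_afdd4d_co.K10.E6.P1
import Pool.Agent.Lib.MP_afdd4d_co.K10.E6.P2
import Pool.Agent.Lib.MP_afdd4d_co.K10.E6.P3
import Pool.Agent.Lib.MP_afdd4d_co.K10.E6.P4
import Pool.Agent.Lib.MP_afdd4d_co.K10.E6.P5
import Pool.Agent.Lib.MP_afdd4d_co.K10.E6.P6
import Pool.Agent.Lib.MP_afdd4d_co.K10.E6.P7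
import Pool.Agent.Lib.MP_afdd4d_co.K10.E6.P8
import Pool.Agent.Lib.MP_afdd4d_co.K10.E6.P9
import Pool.Agent.Lib.MP_afdd4d_co.K10.E6.P10
import Pool.Agent.Lib.MP_afdd4d_co.K10.E6.P11
import Pool.Agent.Lib.MP_afdd4d_co.K10.E6.P12
import Pool.Agent.Lib.MP_afdd4d_co.K10.E6.P13
import Pool.Agent.Lib.MP_afdd4d_co.K10.E6.P14
import Pool.Agent.Lib.MP_afdd4d_co.K10.E6.P15
import Pool.Agent.Lib.MP_afdd4d_co.K10.E6.P16
import Pool.Agent.Lib.MP_afdd4d_co.K10.E6.P17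
import Pool.Agent.Lib.MP_afdd4d_co.K10.E6.P18
import Pool.Agent.Lib.MP_afdd4d_co.K10.E6.P19
import Pool.Agent.Lib.MP_afdd4d_co.K10.E6.P20
import Pool.Agent.Lib.MP_afdd4d_co.K10.E6.P21
import Pool.Agent.Lib.MP_afdd4d_co.K10.E6.P22
import Pool.Agent.Lib.MP_afdd4d_co.K10.E6.P23
import Pool.Agent.Lib.MP_afdd4d_co.K10.E6.P24
import Pool.Agent.Lib.MP_afdd4d_co.K10.E6.P25
import Pool.Agent.Lib.MP_afdd4d_co.K10.E6.P26
import Pool.Agent.Lib.MP_afdd4d_co.K10.E6.P27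
import Pool.Agent.Lib.MP_afdd4d_co.K10.E6.P28
import Pool.Agent.Lib.MP_afdd4d_co.K10.E6.P29
import Pool.Agent.Lib.MP_afdd4d_co.K10.E6.P30
import Pool.Agent.Lib.MP_afdd4d_co.K10.E6.P31
import Pool.Agent.Lib.MP_afdd4d_co.K10.E6.P32

/-!
# Tables
-/

namespace Pool.Agent.Lib.MP_afdd4d_co.K10.E6

open K8

set_option maxRecDepth 100000
set_option exponentiation.threshold 10000000

/-- The slices of the chunk 560. -/
noncomputable def c560 : List (List ℕ) := [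
  [tr p559_1,
   p560_1,
   p560_2,
   tr p561_1,
   tr p562_1,
   p560_5,
   p560_6,
   tr p564_1],
  [tr p565_1,
   p560_9,
   p560_10,
   tr p567_1,
   tr p568_1,
   p560_13,
   p560_14,
   tr p570_1],
  [p560_16,
   p560_17,
   p560_18,
   p560_19,
   p560_20,
   p560_21,
   p560_22,
   p560_23],
  [p560_24,
   p560_25,
   p560_26,
   p560_27,
   p560_28,
   p560_29,
   p560_30,
   p560_31],
  [p560_32,
   p560_33,
   p560_34,
   p560_35,
   p560_36,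
   p560_37,
   p560_38,
   p560_39],
  [p560_40,
   p560_41,
   p560_42,
   p560_43,
   p560_44,
   p560_45,
   p560_46,
   p560_47],
  [tr p587_1,
   p560_49,
   p560_50,
   tr p589_1,
   tr p590_1,
   p560_53,
   p560_54,
   tr p592_1],
  [tr p593_1,
   p560_57,
   p560_58,
   tr p595_1,
   tr p596_1,
   p560_61,
   p560_62,
   tr p598_1]]

theorem k560 : eqNN c560 (slO 64 (D.chG 185 1) 8) = true := by decide +kernel

/-- The slices of the chunk 561. -/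
noncomputable def c561 : List (List ℕ) := [
  [tr p559_3,
   p561_1,
   s5_6 (s1_2 p561_1),
   p561_3,
   p561_4,
   p561_5,
   s5_6 (s1_2 p561_5),
   p561_7],
  [p561_8,
   p561_9,
   s5_6 (s1_2 p561_9),
   p561_11,
   p561_12,
   p561_13,
   s5_6 (s1_2 p561_13),
   p561_15],
  [p561_16,
   p561_17,
   p561_18,
   p561_19,
   p561_20,
   p561_21,
   p561_22,
   p561_23],
  [p561_24,
   p561_25,
   p561_26,
   p561_27,
   p561_28,
   p561_29,
   p561_30,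
   p561_31],
  [s5_6 (s1_2 p561_16),
   s5_6 (s1_2 p561_18),
   s5_6 (s1_2 p561_17),
   s5_6 (s1_2 p561_19),
   s5_6 (s1_2 p561_20),
   s5_6 (s1_2 p561_22),
   s5_6 (s1_2 p561_21),
   s5_6 (s1_2 p561_23)],
  [s5_6 (s1_2 p561_24),
   s5_6 (s1_2 p561_26),
   s5_6 (s1_2 p561_25),
   s5_6 (s1_2 p561_27),
   s5_6 (s1_2 p561_28),
   s5_6 (s1_2 p561_30),
   s5_6 (s1_2 p561_29),
   s5_6 (s1_2 p561_31)],
  [p561_48,
   p561_49,
   s5_6 (s1_2 p561_49),
   p561_51,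
   p561_52,
   p561_53,
   s5_6 (s1_2 p561_53),
   p561_55],
  [p561_56,
   p561_57,
   s5_6 (s1_2 p561_57),
   p561_59,
   p561_60,
   p561_61,
   s5_6 (s1_2 p561_61),
   p561_63]]

theorem k561 : eqNN c561 (slO 64 (D.chG 185 3) 8) = true := by decide +kernel

/-- The slices of the chunk 562. -/
noncomputable def c562 : List (List ℕ) := [
  [tr p559_4,
   p562_1,
   s5_6 (s1_2 p562_1),
   tr p561_4,
   p562_4,
   p562_5,
   s5_6 (s1_2 p562_5),
   p562_7],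
  [p562_8,
   p562_9,
   s5_6 (s1_2 p562_9),
   p562_11,
   p562_12,
   p562_13,
   s5_6 (s1_2 p562_13),
   p562_15],
  [p562_16,
   p562_17,
   p562_18,
   p562_19,
   p562_20,
   p562_21,
   p562_22,
   p562_23],
  [p562_24,
   p562_25,
   p562_26,
   p562_27,
   p562_28,
   p562_29,
   p562_30,
   p562_31],
  [s5_6 (s1_2 p562_16),
   s5_6 (s1_2 p562_18),
   s5_6 (s1_2 p562_17),
   s5_6 (s1_2 p562_19),
   s5_6 (s1_2 p562_20),
   s5_6 (s1_2 p562_22),
   s5_6 (s1_2 p562_21),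
   s5_6 (s1_2 p562_23)],
  [s5_6 (s1_2 p562_24),
   s5_6 (s1_2 p562_26),
   s5_6 (s1_2 p562_25),
   s5_6 (s1_2 p562_27),
   s5_6 (s1_2 p562_28),
   s5_6 (s1_2 p562_30),
   s5_6 (s1_2 p562_29),
   s5_6 (s1_2 p562_31)],
  [p562_48,
   p562_49,
   s5_6 (s1_2 p562_49),
   p562_51,
   p562_52,
   p562_53,
   s5_6 (s1_2 p562_53),
   p562_55],
  [p562_56,
   p562_57,
   s5_6 (s1_2 p562_57),
   p562_59,
   p562_60,
   p562_61,
   s5_6 (s1_2 p562_61),
   p562_63]]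

theorem k562 : eqNN c562 (slO 64 (D.chG 185 4) 8) = true := by decide +kernel

/-- The slices of the chunk 563. -/
noncomputable def c563 : List (List ℕ) := [
  [tr p559_5,
   tr p560_5,
   s3_7 (s2_5 (s1_6 (s0_4 p560_6))),
   tr p561_5,
   tr p562_5,
   p563_5,
   p563_6,
   tr p564_5],
  [tr p565_5,
   p563_9,
   p563_10,
   tr p567_5,
   tr p568_5,
   p563_13,
   p563_14,
   tr p570_5],
  [p563_16,
   p563_17,
   p563_18,
   p563_19,
   p563_20,
   p563_21,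
   p563_22,
   p563_23],
  [p563_24,
   p563_25,
   p563_26,
   p563_27,
   p563_28,
   p563_29,
   p563_30,
   p563_31],
  [p563_32,
   p563_33,
   p563_34,
   p563_35,
   p563_36,
   p563_37,
   p563_38,
   p563_39],
  [p563_40,
   p563_41,
   p563_42,
   p563_43,
   p563_44,
   p563_45,
   p563_46,
   p563_47],
  [tr p587_5,
   p563_49,
   p563_50,
   tr p589_5,
   tr p590_5,
   p563_53,
   p563_54,
   tr p592_5],
  [tr p593_5,
   p563_57,
   p563_58,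
   tr p595_5,
   tr p596_5,
   p563_61,
   p563_62,
   tr p598_5]]

theorem k563 : eqNN c563 (slO 64 (D.chG 185 5) 8) = true := by decide +kernel

end Pool.Agent.Lib.MP_afdd4d_co.K10.E6
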