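import Pool.Agent.Lib.MP_afdd4d_co.K10.E6.Dat
import Pool.Agent.Lib.MP_afdd4d_co.K10.E6.Mk
import Pool.Agent.Lib.MP_afdd4d_co.K8.F6Bl5
import Pool.Agent.Lib.MP_afdd4d_co.K10.E6.P0
import Pool.Agent.Lib.MP_afdd4d_co.K10.E6.P1
import Pool.Agent.Lib.MP_afdd4d_co.K10.E6.P2
import Pool.Agent.Lib.MP_afdd4d_co.K10.E6.P3
import Pool.Agent.Lib.MP_afdd4d_co.K10.E6.P4
import Pool.Agent.Lib.MP_afdd4d_co.K10.E6.P5
import Pool.Agent.Lib.MP_afdd4d_co.K10.E6.P6
import Pool.Agent.Lib.MP_afdd4d_co.K10.E6.P7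
import Pool.Agent.Lib.MP_afdd4d_co.K10.E6.P8
import Pool.Agent.Lib.MP_afdd4d_co.K10.E6.P9
import Pool.Agent.Lib.MP_afdd4d_co.K10.E6.P10
import Pool.Agent.Lib.MP_afdd4d_co.K10.E6.P11
import Pool.Agent.Lib.MP_afdd4d_co.K10.E6.P12
import Pool.Agent.Lib.MP_afdd4d_co.K10.E6.P13
import Pool.Agent.Lib.MP_afdd4d_co.K10.E6.P14
import Pool.Agent.Lib.MP_afdd4d_co.K10.E6.P15
import Pool.Agent.Lib.MP_afdd4d_co.K10.E6.P16
import Pool.Agent.Lib.MP_afdd4d_co.K10.E6.P17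
import Pool.Agent.Lib.MP_afdd4d_co.K10.E6.P18
import Pool.Agent.Lib.MP_afdd4d_co.K10.E6.P19
import Pool.Agent.Lib.MP_afdd4d_co.K10.E6.P20
import Pool.Agent.Lib.MP_afdd4d_co.K10.E6.P21
import Pool.Agent.Lib.MP_afdd4d_co.K10.E6.P22
import Pool.Agent.Lib.MP_afdd4d_co.K10.E6.P23
import Pool.Agent.Lib.MP_afdd4d_co.K10.E6.P24
import Pool.Agent.Lib.MP_afdd4d_co.K10.E6.P25
import Pool.Agent.Lib.MP_afdd4d_co.K10.E6.P26
import Pool.Agent.Lib.MP_afdd4d_co.K10.E6.P27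
import Pool.Agent.Lib.MP_afdd4d_co.K10.E6.P28
import Pool.Agent.Lib.MP_afdd4d_co.K10.E6.P29
import Pool.Agent.Lib.MP_afdd4d_co.K10.E6.P30
import Pool.Agent.Lib.MP_afdd4d_co.K10.E6.P31
import Pool.Agent.Lib.MP_afdd4d_co.K10.E6.P32

/-!
# Tables
-/

namespace Pool.Agent.Lib.MP_afdd4d_co.K10.E6

open K8

set_option maxRecDepth 100000
set_option exponentiation.threshold 10000000

/-- The slices of the chunk 564. -/
noncomputable def c564 : List (List ℕ) := [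
  [tr p559_7,
   p564_1,
   s5_6 (s1_2 p564_1),
   tr p561_7,
   tr p562_7,
   p564_5,
   s5_6 (s1_2 p564_5),
   p564_7],
  [p564_8,
   p564_9,
   s5_6 (s1_2 p564_9),
   p564_11,
   p564_12,
   p564_13,
   s5_6 (s1_2 p564_13),
   p564_15],
  [p564_16,
   p564_17,
   p564_18,
   p564_19,
   p564_20,
   p564_21,
   p564_22,
   p564_23],
  [p564_24,
   p564_25,
   p564_26,
   p564_27,
   p564_28,
   p564_29,
   p564_30,
   p564_31],
  [s5_6 (s1_2 p564_16),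
   s5_6 (s1_2 p564_18),
   s5_6 (s1_2 p564_17),
   s5_6 (s1_2 p564_19),
   s5_6 (s1_2 p564_20),
   s5_6 (s1_2 p564_22),
   s5_6 (s1_2 p564_21),
   s5_6 (s1_2 p564_23)],
  [s5_6 (s1_2 p564_24),
   s5_6 (s1_2 p564_26),
   s5_6 (s1_2 p564_25),
   s5_6 (s1_2 p564_27),
   s5_6 (s1_2 p564_28),
   s5_6 (s1_2 p564_30),
   s5_6 (s1_2 p564_29),
   s5_6 (s1_2 p564_31)],
  [p564_48,
   p564_49,
   s5_6 (s1_2 p564_49),
   p564_51,
   p564_52,
   p564_53,
   s5_6 (s1_2 p564_53),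
   p564_55],
  [p564_56,
   p564_57,
   s5_6 (s1_2 p564_57),
   p564_59,
   p564_60,
   p564_61,
   s5_6 (s1_2 p564_61),
   p564_63]]

theorem k564 : eqNN c564 (slO 64 (D.chG 185 7) 8) = true := by decide +kernel

/-- The slices of the chunk 565. -/
noncomputable def c565 : List (List ℕ) := [
  [tr p559_8,
   p565_1,
   s5_6 (s1_2 p565_1),
   tr p561_8,
   tr p562_8,
   p565_5,
   s5_6 (s1_2 p565_5),
   tr p564_8],
  [p565_8,
   p565_9,
   s5_6 (s1_2 p565_9),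
   p565_11,
   p565_12,
   p565_13,
   s5_6 (s1_2 p565_13),
   p565_15],
  [p565_16,
   p565_17,
   p565_18,
   p565_19,
   p565_20,
   p565_21,
   p565_22,
   p565_23],
  [p565_24,
   p565_25,
   p565_26,
   p565_27,
   p565_28,
   p565_29,
   p565_30,
   p565_31],
  [s5_6 (s1_2 p565_16),
   s5_6 (s1_2 p565_18),
   s5_6 (s1_2 p565_17),
   s5_6 (s1_2 p565_19),
   s5_6 (s1_2 p565_20),
   s5_6 (s1_2 p565_22),
   s5_6 (s1_2 p565_21),
   s5_6 (s1_2 p565_23)],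
  [s5_6 (s1_2 p565_24),
   s5_6 (s1_2 p565_26),
   s5_6 (s1_2 p565_25),
   s5_6 (s1_2 p565_27),
   s5_6 (s1_2 p565_28),
   s5_6 (s1_2 p565_30),
   s5_6 (s1_2 p565_29),
   s5_6 (s1_2 p565_31)],
  [p565_48,
   p565_49,
   s5_6 (s1_2 p565_49),
   p565_51,
   p565_52,
   p565_53,
   s5_6 (s1_2 p565_53),
   p565_55],
  [p565_56,
   p565_57,
   s5_6 (s1_2 p565_57),
   p565_59,
   p565_60,
   p565_61,
   s5_6 (s1_2 p565_61),
   p565_63]]

theorem k565 : eqNN c565 (slO 64 (D.chG 185 8) 8) = true := by decide +kernel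

/-- The slices of the chunk 566. -/
noncomputable def c566 : List (List ℕ) := [
  [tr p559_9,
   tr p560_9,
   s3_7 (s2_5 (s1_6 (s0_4 p560_10))),
   tr p561_9,
   tr p562_9,
   tr p563_9,
   s3_7 (s2_5 (s1_6 (s0_4 p563_10))),
   tr p564_9],
  [tr p565_9,
   p566_9,
   p566_10,
   tr p567_9,
   tr p568_9,
   p566_13,
   p566_14,
   tr p570_9],
  [p566_16,
   p566_17,
   p566_18,
   p566_19,
   p566_20,
   p566_21,
   p566_22,
   p566_23],
  [p566_24,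
   p566_25,
   p566_26,
   p566_27,
   p566_28,
   p566_29,
   p566_30,
   p566_31],
  [p566_32,
   p566_33,
   p566_34,
   p566_35,
   p566_36,
   p566_37,
   p566_38,
   p566_39],
  [p566_40,
   p566_41,
   p566_42,
   p566_43,
   p566_44,
   p566_45,
   p566_46,
   p566_47],
  [tr p587_9,
   p566_49,
   p566_50,
   tr p589_9,
   tr p590_9,
   p566_53,
   p566_54,
   tr p592_9],
  [tr p593_9,
   p566_57,
   p566_58,
   tr p595_9,
   tr p596_9,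
   p566_61,
   p566_62,
   tr p598_9]]

theorem k566 : eqNN c566 (slO 64 (D.chG 185 9) 8) = true := by decide +kernel

/-- The slices of the chunk 567. -/
noncomputable def c567 : List (List ℕ) := [
  [tr p559_11,
   p567_1,
   s5_6 (s1_2 p567_1),
   tr p561_11,
   tr p562_11,
   p567_5,
   s5_6 (s1_2 p567_5),
   tr p564_11],
  [tr p565_11,
   p567_9,
   s5_6 (s1_2 p567_9),
   p567_11,
   p567_12,
   p567_13,
   s5_6 (s1_2 p567_13),
   p567_15],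
  [p567_16,
   p567_17,
   p567_18,
   p567_19,
   p567_20,
   p567_21,
   p567_22,
   p567_23],
  [p567_24,
   p567_25,
   p567_26,
   p567_27,
   p567_28,
   p567_29,
   p567_30,
   p567_31],
  [s5_6 (s1_2 p567_16),
   s5_6 (s1_2 p567_18),
   s5_6 (s1_2 p567_17),
   s5_6 (s1_2 p567_19),
   s5_6 (s1_2 p567_20),
   s5_6 (s1_2 p567_22),
   s5_6 (s1_2 p567_21),
   s5_6 (s1_2 p567_23)],
  [s5_6 (s1_2 p567_24),
   s5_6 (s1_2 p567_26),
   s5_6 (s1_2 p567_25),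
   s5_6 (s1_2 p567_27),
   s5_6 (s1_2 p567_28),
   s5_6 (s1_2 p567_30),
   s5_6 (s1_2 p567_29),
   s5_6 (s1_2 p567_31)],
  [p567_48,
   p567_49,
   s5_6 (s1_2 p567_49),
   p567_51,
   p567_52,
   p567_53,
   s5_6 (s1_2 p567_53),
   p567_55],
  [p567_56,
   p567_57,
   s5_6 (s1_2 p567_57),
   p567_59,
   p567_60,
   p567_61,
   s5_6 (s1_2 p567_61),
   p567_63]]

theorem k567 : eqNN c567 (slO 64 (D.chG 185 11) 8) = true := by decide +kernel

end Pool.Agent.Lib.MP_afdd4d_co.K10.E6
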