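import Pool.Agent.Lib.MP_afdd4d_co.K10.E6.Dat
import Pool.Agent.Lib.MP_afdd4d_co.K10.E6.Mk
import Pool.Agent.Lib.MP_afdd4d_co.K8.F6Bl5
import Pool.Agent.Lib.MP_afdd4d_co.K10.E6.P0
import Pool.Agent.Lib.MP_afdd4d_co.K10.E6.P1
import Pool.Agent.Lib.MP_afdd4d_co.K10.E6.P2
import Pool.Agent.Lib.MP_afdd4d_co.K10.E6.P3
import Pool.Agent.Lib.MP_afdd4d_co.K10.E6.P4
import Pool.Agent.Lib.MP_afdd4d_co.K10.E6.P5
import Pool.Agent.Lib.MP_afdd4d_co.K10.E6.P6
import Pool.Agent.Lib.MP_afdd4d_co.K10.E6.P7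
import Pool.Agent.Lib.MP_afdd4d_co.K10.E6.P8
import Pool.Agent.Lib.MP_afdd4d_co.K10.E6.P9
import Pool.Agent.Lib.MP_afdd4d_co.K10.E6.P10
import Pool.Agent.Lib.MP_afdd4d_co.K10.E6.P11
import Pool.Agent.Lib.MP_afdd4d_co.K10.E6.P12
import Pool.Agent.Lib.MP_afdd4d_co.K10.E6.P13
import Pool.Agent.Lib.MP_afdd4d_co.K10.E6.P14
import Pool.Agent.Lib.MP_afdd4d_co.K10.E6.P15
import Pool.Agent.Lib.MP_afdd4d_co.K10.E6.P16
import Pool.Agent.Lib.MP_afdd4d_co.K10.E6.P17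
import Pool.Agent.Lib.MP_afdd4d_co.K10.E6.P18
import Pool.Agent.Lib.MP_afdd4d_co.K10.E6.P19
import Pool.Agent.Lib.MP_afdd4d_co.K10.E6.P20
import Pool.Agent.Lib.MP_afdd4d_co.K10.E6.P21
import Pool.Agent.Lib.MP_afdd4d_co.K10.E6.P22
import Pool.Agent.Lib.MP_afdd4d_co.K10.E6.P23
import Pool.Agent.Lib.MP_afdd4d_co.K10.E6.P24
import Pool.Agent.Lib.MP_afdd4d_co.K10.E6.P25
import Pool.Agent.Lib.MP_afdd4d_co.K10.E6.P26
import Pool.Agent.Lib.MP_afdd4d_co.K10.E6.P27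
import Pool.Agent.Lib.MP_afdd4d_co.K10.E6.P28
import Pool.Agent.Lib.MP_afdd4d_co.K10.E6.P29
import Pool.Agent.Lib.MP_afdd4d_co.K10.E6.P30
import Pool.Agent.Lib.MP_afdd4d_co.K10.E6.P31
import Pool.Agent.Lib.MP_afdd4d_co.K10.E6.P32

/-!
# Tables
-/

namespace Pool.Agent.Lib.MP_afdd4d_co.K10.E6

open K8

set_option maxRecDepth 100000
set_option exponentiation.threshold 10000000

/-- The slices of the chunk 568. -/
noncomputable def c568 : List (List ℕ) := [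
  [tr p559_12,
   p568_1,
   s5_6 (s1_2 p568_1),
   tr p561_12,
   tr p562_12,
   p568_5,
   s5_6 (s1_2 p568_5),
   tr p564_12],
  [tr p565_12,
   p568_9,
   s5_6 (s1_2 p568_9),
   tr p567_12,
   p568_12,
   p568_13,
   s5_6 (s1_2 p568_13),
   p568_15],
  [p568_16,
   p568_17,
   p568_18,
   p568_19,
   p568_20,
   p568_21,
   p568_22,
   p568_23],
  [p568_24,
   p568_25,
   p568_26,
   p568_27,
   p568_28,
   p568_29,
   p568_30,
   p568_31],
  [s5_6 (s1_2 p568_16),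
   s5_6 (s1_2 p568_18),
   s5_6 (s1_2 p568_17),
   s5_6 (s1_2 p568_19),
   s5_6 (s1_2 p568_20),
   s5_6 (s1_2 p568_22),
   s5_6 (s1_2 p568_21),
   s5_6 (s1_2 p568_23)],
  [s5_6 (s1_2 p568_24),
   s5_6 (s1_2 p568_26),
   s5_6 (s1_2 p568_25),
   s5_6 (s1_2 p568_27),
   s5_6 (s1_2 p568_28),
   s5_6 (s1_2 p568_30),
   s5_6 (s1_2 p568_29),
   s5_6 (s1_2 p568_31)],
  [p568_48,
   p568_49,
   s5_6 (s1_2 p568_49),
   p568_51,
   p568_52,
   p568_53,
   s5_6 (s1_2 p568_53),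
   p568_55],
  [p568_56,
   p568_57,
   s5_6 (s1_2 p568_57),
   p568_59,
   p568_60,
   p568_61,
   s5_6 (s1_2 p568_61),
   p568_63]]

theorem k568 : eqNN c568 (slO 64 (D.chG 185 12) 8) = true := by decide +kernel

/-- The slices of the chunk 569. -/
noncomputable def c569 : List (List ℕ) := [
  [tr p559_13,
   tr p560_13,
   s3_7 (s2_5 (s1_6 (s0_4 p560_14))),
   tr p561_13,
   tr p562_13,
   tr p563_13,
   s3_7 (s2_5 (s1_6 (s0_4 p563_14))),
   tr p564_13],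
  [tr p565_13,
   tr p566_13,
   s3_7 (s2_5 (s1_6 (s0_4 p566_14))),
   tr p567_13,
   tr p568_13,
   p569_13,
   p569_14,
   tr p570_13],
  [p569_16,
   p569_17,
   p569_18,
   p569_19,
   p569_20,
   p569_21,
   p569_22,
   p569_23],
  [p569_24,
   p569_25,
   p569_26,
   p569_27,
   p569_28,
   p569_29,
   p569_30,
   p569_31],
  [p569_32,
   p569_33,
   p569_34,
   p569_35,
   p569_36,
   p569_37,
   p569_38,
   p569_39],
  [p569_40,
   p569_41,
   p569_42,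
   p569_43,
   p569_44,
   p569_45,
   p569_46,
   p569_47],
  [tr p587_13,
   p569_49,
   p569_50,
   tr p589_13,
   tr p590_13,
   p569_53,
   p569_54,
   tr p592_13],
  [tr p593_13,
   p569_57,
   p569_58,
   tr p595_13,
   tr p596_13,
   p569_61,
   p569_62,
   tr p598_13]]

theorem k569 : eqNN c569 (slO 64 (D.chG 185 13) 8) = true := by decide +kernel

/-- The slices of the chunk 570. -/
noncomputable def c570 : List (List ℕ) := [
  [tr p559_15,
   p570_1,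
   s5_6 (s1_2 p570_1),
   tr p561_15,
   tr p562_15,
   p570_5,
   s5_6 (s1_2 p570_5),
   tr p564_15],
  [tr p565_15,
   p570_9,
   s5_6 (s1_2 p570_9),
   tr p567_15,
   tr p568_15,
   p570_13,
   s5_6 (s1_2 p570_13),
   p570_15],
  [p570_16,
   p570_17,
   p570_18,
   p570_19,
   p570_20,
   p570_21,
   p570_22,
   p570_23],
  [p570_24,
   p570_25,
   p570_26,
   p570_27,
   p570_28,
   p570_29,
   p570_30,
   p570_31],
  [s5_6 (s1_2 p570_16),
   s5_6 (s1_2 p570_18),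
   s5_6 (s1_2 p570_17),
   s5_6 (s1_2 p570_19),
   s5_6 (s1_2 p570_20),
   s5_6 (s1_2 p570_22),
   s5_6 (s1_2 p570_21),
   s5_6 (s1_2 p570_23)],
  [s5_6 (s1_2 p570_24),
   s5_6 (s1_2 p570_26),
   s5_6 (s1_2 p570_25),
   s5_6 (s1_2 p570_27),
   s5_6 (s1_2 p570_28),
   s5_6 (s1_2 p570_30),
   s5_6 (s1_2 p570_29),
   s5_6 (s1_2 p570_31)],
  [p570_48,
   p570_49,
   s5_6 (s1_2 p570_49),
   p570_51,
   p570_52,
   p570_53,
   s5_6 (s1_2 p570_53),
   p570_55],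
  [p570_56,
   p570_57,
   s5_6 (s1_2 p570_57),
   p570_59,
   p570_60,
   p570_61,
   s5_6 (s1_2 p570_61),
   p570_63]]

theorem k570 : eqNN c570 (slO 64 (D.chG 185 15) 8) = true := by decide +kernel

/-- The slices of the chunk 571. -/
noncomputable def c571 : List (List ℕ) := [
  [tr p559_16,
   tr p560_16,
   s3_7 (s2_5 (s1_6 (s0_4 p560_32))),
   tr p561_16,
   tr p562_16,
   tr p563_16,
   s3_7 (s2_5 (s1_6 (s0_4 p563_32))),
   tr p564_16],
  [tr p565_16,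
   tr p566_16,
   s3_7 (s2_5 (s1_6 (s0_4 p566_32))),
   tr p567_16,
   tr p568_16,
   tr p569_16,
   s3_7 (s2_5 (s1_6 (s0_4 p569_32))),
   tr p570_16],
  [p571_16,
   p571_17,
   p571_18,
   p571_19,
   p571_20,
   p571_21,
   p571_22,
   p571_23],
  [p571_24,
   p571_25,
   p571_26,
   p571_27,
   p571_28,
   p571_29,
   p571_30,
   p571_31],
  [p571_32,
   p571_33,
   p571_34,
   p571_35,
   p571_36,
   p571_37,
   p571_38,
   p571_39],
  [p571_40,
   p571_41,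
   p571_42,
   p571_43,
   p571_44,
   p571_45,
   p571_46,
   p571_47],
  [tr p587_16,
   p571_49,
   p571_50,
   tr p589_16,
   tr p590_16,
   p571_53,
   p571_54,
   tr p592_16],
  [tr p593_16,
   p571_57,
   p571_58,
   tr p595_16,
   tr p596_16,
   p571_61,
   p571_62,
   tr p598_16]]

theorem k571 : eqNN c571 (slO 64 (D.chG 185 16) 8) = true := by decide +kernel

end Pool.Agent.Lib.MP_afdd4d_co.K10.E6
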