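import Pool.Agent.Lib.MP_afdd4d_co.K10.E6.Dat
import Pool.Agent.Lib.MP_afdd4d_co.K10.E6.Mk
import Pool.Agent.Lib.MP_afdd4d_co.K8.F6Bl5
import Pool.Agent.Lib.MP_afdd4d_co.K10.E6.P0
import Pool.Agent.Lib.MP_afdd4d_co.K10.E6.P1
import Pool.Agent.Lib.MP_afdd4d_co.K10.E6.P2
import Pool.Agent.Lib.MP_afdd4d_co.K10.E6.P3
import Pool.Agent.Lib.MP_afdd4d_co.K10.E6.P4
import Pool.Agent.Lib.MP_afdd4d_co.K10.E6.P5
import Pool.Agent.Lib.MP_afdd4d_co.K10.E6.P6
import Pool.Agent.Lib.MP_afdd4d_co.K10.E6.P7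
import Pool.Agent.Lib.MP_afdd4d_co.K10.E6.P8
import Pool.Agent.Lib.MP_afdd4d_co.K10.E6.P9
import Pool.Agent.Lib.MP_afdd4d_co.K10.E6.P10
import Pool.Agent.Lib.MP_afdd4d_co.K10.E6.P11
import Pool.Agent.Lib.MP_afdd4d_co.K10.E6.P12
import Pool.Agent.Lib.MP_afdd4d_co.K10.E6.P13
import Pool.Agent.Lib.MP_afdd4d_co.K10.E6.P14
import Pool.Agent.Lib.MP_afdd4d_co.K10.E6.P15
import Pool.Agent.Lib.MP_afdd4d_co.K10.E6.P16
import Pool.Agent.Lib.MP_afdd4d_co.K10.E6.P17
import Pool.Agent.Lib.MP_afdd4d_co.K10.E6.P18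
import Pool.Agent.Lib.MP_afdd4d_co.K10.E6.P19
import Pool.Agent.Lib.MP_afdd4d_co.K10.E6.P20
import Pool.Agent.Lib.MP_afdd4d_co.K10.E6.P21
import Pool.Agent.Lib.MP_afdd4d_co.K10.E6.P22
import Pool.Agent.Lib.MP_afdd4d_co.K10.E6.P23
import Pool.Agent.Lib.MP_afdd4d_co.K10.E6.P24
import Pool.Agent.Lib.MP_afdd4d_co.K10.E6.P25
import Pool.Agent.Lib.MP_afdd4d_co.K10.E6.P26
import Pool.Agent.Lib.MP_afdd4d_co.K10.E6.P27
import Pool.Agent.Lib.MP_afdd4d_co.K10.E6.P28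
import Pool.Agent.Lib.MP_afdd4d_co.K10.E6.P29
import Pool.Agent.Lib.MP_afdd4d_co.K10.E6.P30
import Pool.Agent.Lib.MP_afdd4d_co.K10.E6.P31
import Pool.Agent.Lib.MP_afdd4d_co.K10.E6.P32

/-!
# Tables
-/

namespace Pool.Agent.Lib.MP_afdd4d_co.K10.E6

open K8

set_option maxRecDepth 100000
set_option exponentiation.threshold 10000000

/-- The slices of the chunk 572. -/
noncomputable def c572 : List (List ℕ) := [
  [tr p559_17,
   tr p560_17,
   s3_7 (s2_5 (s1_6 (s0_4 p560_34))),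
   tr p561_17,
   tr p562_17,
   tr p563_17,
   s3_7 (s2_5 (s1_6 (s0_4 p563_34))),
   tr p564_17],
  [tr p565_17,
   tr p566_17,
   s3_7 (s2_5 (s1_6 (s0_4 p566_34))),
   tr p567_17,
   tr p568_17,
   tr p569_17,
   s3_7 (s2_5 (s1_6 (s0_4 p569_34))),
   tr p570_17],
  [tr p571_17,
   p572_17,
   p572_18,
   p572_19,
   p572_20,
   p572_21,
   p572_22,
   p572_23],
  [p572_24,
   p572_25,
   p572_26,
   p572_27,
   p572_28,
   p572_29,
   p572_30,
   p572_31],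
  [s3_7 (s2_5 (s1_6 (s0_4 p571_34))),
   p572_33,
   p572_34,
   p572_35,
   p572_36,
   p572_37,
   p572_38,
   p572_39],
  [p572_40,
   p572_41,
   p572_42,
   p572_43,
   p572_44,
   p572_45,
   p572_46,
   p572_47],
  [tr p587_17,
   p572_49,
   p572_50,
   tr p589_17,
   tr p590_17,
   p572_53,
   p572_54,
   tr p592_17],
  [tr p593_17,
   p572_57,
   p572_58,
   tr p595_17,
   tr p596_17,
   p572_61,
   p572_62,
   tr p598_17]]

theorem k572 : eqNN c572 (slO 64 (D.chG 185 17) 8) = true := by decide +kernel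

/-- The slices of the chunk 573. -/
noncomputable def c573 : List (List ℕ) := [
  [tr p559_18,
   tr p560_18,
   s3_7 (s2_5 (s1_6 (s0_4 p560_33))),
   tr p561_18,
   tr p562_18,
   tr p563_18,
   s3_7 (s2_5 (s1_6 (s0_4 p563_33))),
   tr p564_18],
  [tr p565_18,
   tr p566_18,
   s3_7 (s2_5 (s1_6 (s0_4 p566_33))),
   tr p567_18,
   tr p568_18,
   tr p569_18,
   s3_7 (s2_5 (s1_6 (s0_4 p569_33))),
   tr p570_18],
  [tr p571_18,
   tr p572_18,
   p573_18,
   p573_19,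
   p573_20,
   p573_21,
   p573_22,
   p573_23],
  [p573_24,
   p573_25,
   p573_26,
   p573_27,
   p573_28,
   p573_29,
   p573_30,
   p573_31],
  [s3_7 (s2_5 (s1_6 (s0_4 p571_33))),
   p573_33,
   s3_7 (s2_5 (s1_6 (s0_4 p572_33))),
   p573_35,
   p573_36,
   p573_37,
   p573_38,
   p573_39],
  [p573_40,
   p573_41,
   p573_42,
   p573_43,
   p573_44,
   p573_45,
   p573_46,
   p573_47],
  [tr p587_18,
   p573_49,
   p573_50,
   tr p589_18,
   tr p590_18,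
   p573_53,
   p573_54,
   tr p592_18],
  [tr p593_18,
   p573_57,
   p573_58,
   tr p595_18,
   tr p596_18,
   p573_61,
   p573_62,
   tr p598_18]]

theorem k573 : eqNN c573 (slO 64 (D.chG 185 18) 8) = true := by decide +kernel

/-- The slices of the chunk 574. -/
noncomputable def c574 : List (List ℕ) := [
  [tr p559_19,
   tr p560_19,
   s3_7 (s2_5 (s1_6 (s0_4 p560_35))),
   tr p561_19,
   tr p562_19,
   tr p563_19,
   s3_7 (s2_5 (s1_6 (s0_4 p563_35))),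
   tr p564_19],
  [tr p565_19,
   tr p566_19,
   s3_7 (s2_5 (s1_6 (s0_4 p566_35))),
   tr p567_19,
   tr p568_19,
   tr p569_19,
   s3_7 (s2_5 (s1_6 (s0_4 p569_35))),
   tr p570_19],
  [tr p571_19,
   tr p572_19,
   tr p573_19,
   p574_19,
   p574_20,
   p574_21,
   p574_22,
   p574_23],
  [p574_24,
   p574_25,
   p574_26,
   p574_27,
   p574_28,
   p574_29,
   p574_30,
   p574_31],
  [s3_7 (s2_5 (s1_6 (s0_4 p571_35))),
   s3_7 (s2_5 (s1_6 (s0_4 p573_35))),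
   s3_7 (s2_5 (s1_6 (s0_4 p572_35))),
   p574_35,
   p574_36,
   p574_37,
   p574_38,
   p574_39],
  [p574_40,
   p574_41,
   p574_42,
   p574_43,
   p574_44,
   p574_45,
   p574_46,
   p574_47],
  [tr p587_19,
   p574_49,
   p574_50,
   tr p589_19,
   tr p590_19,
   p574_53,
   p574_54,
   tr p592_19],
  [tr p593_19,
   p574_57,
   p574_58,
   tr p595_19,
   tr p596_19,
   p574_61,
   p574_62,
   tr p598_19]]

theorem k574 : eqNN c574 (slO 64 (D.chG 185 19) 8) = true := by decide +kernel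

/-- The slices of the chunk 575. -/
noncomputable def c575 : List (List ℕ) := [
  [tr p559_20,
   tr p560_20,
   s3_7 (s2_5 (s1_6 (s0_4 p560_36))),
   tr p561_20,
   tr p562_20,
   tr p563_20,
   s3_7 (s2_5 (s1_6 (s0_4 p563_36))),
   tr p564_20],
  [tr p565_20,
   tr p566_20,
   s3_7 (s2_5 (s1_6 (s0_4 p566_36))),
   tr p567_20,
   tr p568_20,
   tr p569_20,
   s3_7 (s2_5 (s1_6 (s0_4 p569_36))),
   tr p570_20],
  [tr p571_20,
   tr p572_20,
   tr p573_20,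
   tr p574_20,
   p575_20,
   p575_21,
   p575_22,
   p575_23],
  [p575_24,
   p575_25,
   p575_26,
   p575_27,
   p575_28,
   p575_29,
   p575_30,
   p575_31],
  [s3_7 (s2_5 (s1_6 (s0_4 p571_36))),
   s3_7 (s2_5 (s1_6 (s0_4 p573_36))),
   s3_7 (s2_5 (s1_6 (s0_4 p572_36))),
   s3_7 (s2_5 (s1_6 (s0_4 p574_36))),
   p575_36,
   p575_37,
   p575_38,
   p575_39],
  [p575_40,
   p575_41,
   p575_42,
   p575_43,
   p575_44,
   p575_45,
   p575_46,
   p575_47],
  [tr p587_20,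
   p575_49,
   p575_50,
   tr p589_20,
   tr p590_20,
   p575_53,
   p575_54,
   tr p592_20],
  [tr p593_20,
   p575_57,
   p575_58,
   tr p595_20,
   tr p596_20,
   p575_61,
   p575_62,
   tr p598_20]]

theorem k575 : eqNN c575 (slO 64 (D.chG 185 20) 8) = true := by decide +kernel

end Pool.Agent.Lib.MP_afdd4d_co.K10.E6
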