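import Pool.Agent.Lib.MP_afdd4d_co.K10.E6.Dat
import Pool.Agent.Lib.MP_afdd4d_co.K10.E6.Mk
import Pool.Agent.Lib.MP_afdd4d_co.K8.F6Bl5
import Pool.Agent.Lib.MP_afdd4d_co.K10.E6.P0
import Pool.Agent.Lib.MP_afdd4d_co.K10.E6.P1
import Pool.Agent.Lib.MP_afdd4d_co.K10.E6.P2
import Pool.Agent.Lib.MP_afdd4d_co.K10.E6.P3
import Pool.Agent.Lib.MP_afdd4d_co.K10.E6.P4
import Pool.Agent.Lib.MP_afdd4d_co.K10.E6.P5
import Pool.Agent.Lib.MP_afdd4d_co.K10.E6.P6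
import Pool.Agent.Lib.MP_afdd4d_co.K10.E6.P7
import Pool.Agent.Lib.MP_afdd4d_co.K10.E6.P8
import Pool.Agent.Lib.MP_afdd4d_co.K10.E6.P9
import Pool.Agent.Lib.MP_afdd4d_co.K10.E6.P10
import Pool.Agent.Lib.MP_afdd4d_co.K10.E6.P11
import Pool.Agent.Lib.MP_afdd4d_co.K10.E6.P12
import Pool.Agent.Lib.MP_afdd4d_co.K10.E6.P13
import Pool.Agent.Lib.MP_afdd4d_co.K10.E6.P14
import Pool.Agent.Lib.MP_afdd4d_co.K10.E6.P15
import Pool.Agent.Lib.MP_afdd4d_co.K10.E6.P16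
import Pool.Agent.Lib.MP_afdd4d_co.K10.E6.P17
import Pool.Agent.Lib.MP_afdd4d_co.K10.E6.P18
import Pool.Agent.Lib.MP_afdd4d_co.K10.E6.P19
import Pool.Agent.Lib.MP_afdd4d_co.K10.E6.P20
import Pool.Agent.Lib.MP_afdd4d_co.K10.E6.P21
import Pool.Agent.Lib.MP_afdd4d_co.K10.E6.P22
import Pool.Agent.Lib.MP_afdd4d_co.K10.E6.P23
import Pool.Agent.Lib.MP_afdd4d_co.K10.E6.P24
import Pool.Agent.Lib.MP_afdd4d_co.K10.E6.P25
import Pool.Agent.Lib.MP_afdd4d_co.K10.E6.P26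
import Pool.Agent.Lib.MP_afdd4d_co.K10.E6.P27
import Pool.Agent.Lib.MP_afdd4d_co.K10.E6.P28
import Pool.Agent.Lib.MP_afdd4d_co.K10.E6.P29
import Pool.Agent.Lib.MP_afdd4d_co.K10.E6.P30
import Pool.Agent.Lib.MP_afdd4d_co.K10.E6.P31
import Pool.Agent.Lib.MP_afdd4d_co.K10.E6.P32

/-!
# Tables
-/

namespace Pool.Agent.Lib.MP_afdd4d_co.K10.E6

open K8

set_option maxRecDepth 100000
set_option exponentiation.threshold 10000000

/-- The slices of the chunk 576. -/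
noncomputable def c576 : List (List ℕ) := [
  [tr p559_21,
   tr p560_21,
   s3_7 (s2_5 (s1_6 (s0_4 p560_38))),
   tr p561_21,
   tr p562_21,
   tr p563_21,
   s3_7 (s2_5 (s1_6 (s0_4 p563_38))),
   tr p564_21],
  [tr p565_21,
   tr p566_21,
   s3_7 (s2_5 (s1_6 (s0_4 p566_38))),
   tr p567_21,
   tr p568_21,
   tr p569_21,
   s3_7 (s2_5 (s1_6 (s0_4 p569_38))),
   tr p570_21],
  [tr p571_21,
   tr p572_21,
   tr p573_21,
   tr p574_21,
   tr p575_21,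
   p576_21,
   p576_22,
   p576_23],
  [p576_24,
   p576_25,
   p576_26,
   p576_27,
   p576_28,
   p576_29,
   p576_30,
   p576_31],
  [s3_7 (s2_5 (s1_6 (s0_4 p571_38))),
   s3_7 (s2_5 (s1_6 (s0_4 p573_38))),
   s3_7 (s2_5 (s1_6 (s0_4 p572_38))),
   s3_7 (s2_5 (s1_6 (s0_4 p574_38))),
   s3_7 (s2_5 (s1_6 (s0_4 p575_38))),
   p576_37,
   p576_38,
   p576_39],
  [p576_40,
   p576_41,
   p576_42,
   p576_43,
   p576_44,
   p576_45,
   p576_46,
   p576_47],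
  [tr p587_21,
   p576_49,
   p576_50,
   tr p589_21,
   tr p590_21,
   p576_53,
   p576_54,
   tr p592_21],
  [tr p593_21,
   p576_57,
   p576_58,
   tr p595_21,
   tr p596_21,
   p576_61,
   p576_62,
   tr p598_21]]

theorem k576 : eqNN c576 (slO 64 (D.chG 185 21) 8) = true := by decide +kernel

/-- The slices of the chunk 577. -/
noncomputable def c577 : List (List ℕ) := [
  [tr p559_22,
   tr p560_22,
   s3_7 (s2_5 (s1_6 (s0_4 p560_37))),
   tr p561_22,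
   tr p562_22,
   tr p563_22,
   s3_7 (s2_5 (s1_6 (s0_4 p563_37))),
   tr p564_22],
  [tr p565_22,
   tr p566_22,
   s3_7 (s2_5 (s1_6 (s0_4 p566_37))),
   tr p567_22,
   tr p568_22,
   tr p569_22,
   s3_7 (s2_5 (s1_6 (s0_4 p569_37))),
   tr p570_22],
  [tr p571_22,
   tr p572_22,
   tr p573_22,
   tr p574_22,
   tr p575_22,
   tr p576_22,
   p577_22,
   p577_23],
  [p577_24,
   p577_25,
   p577_26,
   p577_27,
   p577_28,
   p577_29,
   p577_30,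
   p577_31],
  [s3_7 (s2_5 (s1_6 (s0_4 p571_37))),
   s3_7 (s2_5 (s1_6 (s0_4 p573_37))),
   s3_7 (s2_5 (s1_6 (s0_4 p572_37))),
   s3_7 (s2_5 (s1_6 (s0_4 p574_37))),
   s3_7 (s2_5 (s1_6 (s0_4 p575_37))),
   p577_37,
   s3_7 (s2_5 (s1_6 (s0_4 p576_37))),
   p577_39],
  [p577_40,
   p577_41,
   p577_42,
   p577_43,
   p577_44,
   p577_45,
   p577_46,
   p577_47],
  [tr p587_22,
   p577_49,
   p577_50,
   tr p589_22,
   tr p590_22,
   p577_53,
   p577_54,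
   tr p592_22],
  [tr p593_22,
   p577_57,
   p577_58,
   tr p595_22,
   tr p596_22,
   p577_61,
   p577_62,
   tr p598_22]]

theorem k577 : eqNN c577 (slO 64 (D.chG 185 22) 8) = true := by decide +kernel

/-- The slices of the chunk 578. -/
noncomputable def c578 : List (List ℕ) := [
  [tr p559_23,
   tr p560_23,
   s3_7 (s2_5 (s1_6 (s0_4 p560_39))),
   tr p561_23,
   tr p562_23,
   tr p563_23,
   s3_7 (s2_5 (s1_6 (s0_4 p563_39))),
   tr p564_23],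
  [tr p565_23,
   tr p566_23,
   s3_7 (s2_5 (s1_6 (s0_4 p566_39))),
   tr p567_23,
   tr p568_23,
   tr p569_23,
   s3_7 (s2_5 (s1_6 (s0_4 p569_39))),
   tr p570_23],
  [tr p571_23,
   tr p572_23,
   tr p573_23,
   tr p574_23,
   tr p575_23,
   tr p576_23,
   tr p577_23,
   p578_23],
  [p578_24,
   p578_25,
   p578_26,
   p578_27,
   p578_28,
   p578_29,
   p578_30,
   p578_31],
  [s3_7 (s2_5 (s1_6 (s0_4 p571_39))),
   s3_7 (s2_5 (s1_6 (s0_4 p573_39))),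
   s3_7 (s2_5 (s1_6 (s0_4 p572_39))),
   s3_7 (s2_5 (s1_6 (s0_4 p574_39))),
   s3_7 (s2_5 (s1_6 (s0_4 p575_39))),
   s3_7 (s2_5 (s1_6 (s0_4 p577_39))),
   s3_7 (s2_5 (s1_6 (s0_4 p576_39))),
   p578_39],
  [p578_40,
   p578_41,
   p578_42,
   p578_43,
   p578_44,
   p578_45,
   p578_46,
   p578_47],
  [tr p587_23,
   p578_49,
   p578_50,
   tr p589_23,
   tr p590_23,
   p578_53,
   p578_54,
   tr p592_23],
  [tr p593_23,
   p578_57,
   p578_58,
   tr p595_23,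
   tr p596_23,
   p578_61,
   p578_62,
   tr p598_23]]

theorem k578 : eqNN c578 (slO 64 (D.chG 185 23) 8) = true := by decide +kernel

/-- The slices of the chunk 579. -/
noncomputable def c579 : List (List ℕ) := [
  [tr p559_24,
   tr p560_24,
   s3_7 (s2_5 (s1_6 (s0_4 p560_40))),
   tr p561_24,
   tr p562_24,
   tr p563_24,
   s3_7 (s2_5 (s1_6 (s0_4 p563_40))),
   tr p564_24],
  [tr p565_24,
   tr p566_24,
   s3_7 (s2_5 (s1_6 (s0_4 p566_40))),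
   tr p567_24,
   tr p568_24,
   tr p569_24,
   s3_7 (s2_5 (s1_6 (s0_4 p569_40))),
   tr p570_24],
  [tr p571_24,
   tr p572_24,
   tr p573_24,
   tr p574_24,
   tr p575_24,
   tr p576_24,
   tr p577_24,
   tr p578_24],
  [p579_24,
   p579_25,
   p579_26,
   p579_27,
   p579_28,
   p579_29,
   p579_30,
   p579_31],
  [s3_7 (s2_5 (s1_6 (s0_4 p571_40))),
   s3_7 (s2_5 (s1_6 (s0_4 p573_40))),
   s3_7 (s2_5 (s1_6 (s0_4 p572_40))),
   s3_7 (s2_5 (s1_6 (s0_4 p574_40))),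
   s3_7 (s2_5 (s1_6 (s0_4 p575_40))),
   s3_7 (s2_5 (s1_6 (s0_4 p577_40))),
   s3_7 (s2_5 (s1_6 (s0_4 p576_40))),
   s3_7 (s2_5 (s1_6 (s0_4 p578_40)))],
  [p579_40,
   p579_41,
   p579_42,
   p579_43,
   p579_44,
   p579_45,
   p579_46,
   p579_47],
  [tr p587_24,
   p579_49,
   p579_50,
   tr p589_24,
   tr p590_24,
   p579_53,
   p579_54,
   tr p592_24],
  [tr p593_24,
   p579_57,
   p579_58,
   tr p595_24,
   tr p596_24,
   p579_61,
   p579_62,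
   tr p598_24]]

theorem k579 : eqNN c579 (slO 64 (D.chG 185 24) 8) = true := by decide +kernel

end Pool.Agent.Lib.MP_afdd4d_co.K10.E6
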