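import Pool.Agent.Lib.MP_afdd4d_co.K10.E6.Dat
import Pool.Agent.Lib.MP_afdd4d_co.K10.E6.Mk
import Pool.Agent.Lib.MP_afdd4d_co.K8.F6Bl5
import Pool.Agent.Lib.MP_afdd4d_co.K10.E6.P0
import Pool.Agent.Lib.MP_afdd4d_co.K10.E6.P1
import Pool.Agent.Lib.MP_afdd4d_co.K10.E6.P2
import Pool.Agent.Lib.MP_afdd4d_co.K10.E6.P3
import Pool.Agent.Lib.MP_afdd4d_co.K10.E6.P4
import Pool.Agent.Lib.MP_afdd4d_co.K10.E6.P5
import Pool.Agent.Lib.MP_afdd4d_co.K10.E6.P6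
import Pool.Agent.Lib.MP_afdd4d_co.K10.E6.P7
import Pool.Agent.Lib.MP_afdd4d_co.K10.E6.P8
import Pool.Agent.Lib.MP_afdd4d_co.K10.E6.P9
import Pool.Agent.Lib.MP_afdd4d_co.K10.E6.P10
import Pool.Agent.Lib.MP_afdd4d_co.K10.E6.P11
import Pool.Agent.Lib.MP_afdd4d_co.K10.E6.P12
import Pool.Agent.Lib.MP_afdd4d_co.K10.E6.P13
import Pool.Agent.Lib.MP_afdd4d_co.K10.E6.P14
import Pool.Agent.Lib.MP_afdd4d_co.K10.E6.P15
import Pool.Agent.Lib.MP_afdd4d_co.K10.E6.P16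
import Pool.Agent.Lib.MP_afdd4d_co.K10.E6.P17
import Pool.Agent.Lib.MP_afdd4d_co.K10.E6.P18
import Pool.Agent.Lib.MP_afdd4d_co.K10.E6.P19
import Pool.Agent.Lib.MP_afdd4d_co.K10.E6.P20
import Pool.Agent.Lib.MP_afdd4d_co.K10.E6.P21
import Pool.Agent.Lib.MP_afdd4d_co.K10.E6.P22
import Pool.Agent.Lib.MP_afdd4d_co.K10.E6.P23
import Pool.Agent.Lib.MP_afdd4d_co.K10.E6.P24
import Pool.Agent.Lib.MP_afdd4d_co.K10.E6.P25
import Pool.Agent.Lib.MP_afdd4d_co.K10.E6.P26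
import Pool.Agent.Lib.MP_afdd4d_co.K10.E6.P27
import Pool.Agent.Lib.MP_afdd4d_co.K10.E6.P28
import Pool.Agent.Lib.MP_afdd4d_co.K10.E6.P29
import Pool.Agent.Lib.MP_afdd4d_co.K10.E6.P30
import Pool.Agent.Lib.MP_afdd4d_co.K10.E6.P31
import Pool.Agent.Lib.MP_afdd4d_co.K10.E6.P32

/-!
# Tables
-/

namespace Pool.Agent.Lib.MP_afdd4d_co.K10.E6

open K8

set_option maxRecDepth 100000
set_option exponentiation.threshold 10000000

/-- The slices of the chunk 580. -/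
noncomputable def c580 : List (List ℕ) := [
  [tr p559_25,
   tr p560_25,
   s3_7 (s2_5 (s1_6 (s0_4 p560_42))),
   tr p561_25,
   tr p562_25,
   tr p563_25,
   s3_7 (s2_5 (s1_6 (s0_4 p563_42))),
   tr p564_25],
  [tr p565_25,
   tr p566_25,
   s3_7 (s2_5 (s1_6 (s0_4 p566_42))),
   tr p567_25,
   tr p568_25,
   tr p569_25,
   s3_7 (s2_5 (s1_6 (s0_4 p569_42))),
   tr p570_25],
  [tr p571_25,
   tr p572_25,
   tr p573_25,
   tr p574_25,
   tr p575_25,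
   tr p576_25,
   tr p577_25,
   tr p578_25],
  [tr p579_25,
   p580_25,
   p580_26,
   p580_27,
   p580_28,
   p580_29,
   p580_30,
   p580_31],
  [s3_7 (s2_5 (s1_6 (s0_4 p571_42))),
   s3_7 (s2_5 (s1_6 (s0_4 p573_42))),
   s3_7 (s2_5 (s1_6 (s0_4 p572_42))),
   s3_7 (s2_5 (s1_6 (s0_4 p574_42))),
   s3_7 (s2_5 (s1_6 (s0_4 p575_42))),
   s3_7 (s2_5 (s1_6 (s0_4 p577_42))),
   s3_7 (s2_5 (s1_6 (s0_4 p576_42))),
   s3_7 (s2_5 (s1_6 (s0_4 p578_42)))],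
  [s3_7 (s2_5 (s1_6 (s0_4 p579_42))),
   p580_41,
   p580_42,
   p580_43,
   p580_44,
   p580_45,
   p580_46,
   p580_47],
  [tr p587_25,
   p580_49,
   p580_50,
   tr p589_25,
   tr p590_25,
   p580_53,
   p580_54,
   tr p592_25],
  [tr p593_25,
   p580_57,
   p580_58,
   tr p595_25,
   tr p596_25,
   p580_61,
   p580_62,
   tr p598_25]]

theorem k580 : eqNN c580 (slO 64 (D.chG 185 25) 8) = true := by decide +kernel

/-- The slices of the chunk 581. -/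
noncomputable def c581 : List (List ℕ) := [
  [tr p559_26,
   tr p560_26,
   s3_7 (s2_5 (s1_6 (s0_4 p560_41))),
   tr p561_26,
   tr p562_26,
   tr p563_26,
   s3_7 (s2_5 (s1_6 (s0_4 p563_41))),
   tr p564_26],
  [tr p565_26,
   tr p566_26,
   s3_7 (s2_5 (s1_6 (s0_4 p566_41))),
   tr p567_26,
   tr p568_26,
   tr p569_26,
   s3_7 (s2_5 (s1_6 (s0_4 p569_41))),
   tr p570_26],
  [tr p571_26,
   tr p572_26,
   tr p573_26,
   tr p574_26,
   tr p575_26,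
   tr p576_26,
   tr p577_26,
   tr p578_26],
  [tr p579_26,
   tr p580_26,
   p581_26,
   p581_27,
   p581_28,
   p581_29,
   p581_30,
   p581_31],
  [s3_7 (s2_5 (s1_6 (s0_4 p571_41))),
   s3_7 (s2_5 (s1_6 (s0_4 p573_41))),
   s3_7 (s2_5 (s1_6 (s0_4 p572_41))),
   s3_7 (s2_5 (s1_6 (s0_4 p574_41))),
   s3_7 (s2_5 (s1_6 (s0_4 p575_41))),
   s3_7 (s2_5 (s1_6 (s0_4 p577_41))),
   s3_7 (s2_5 (s1_6 (s0_4 p576_41))),
   s3_7 (s2_5 (s1_6 (s0_4 p578_41)))],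
  [s3_7 (s2_5 (s1_6 (s0_4 p579_41))),
   p581_41,
   s3_7 (s2_5 (s1_6 (s0_4 p580_41))),
   p581_43,
   p581_44,
   p581_45,
   p581_46,
   p581_47],
  [tr p587_26,
   p581_49,
   p581_50,
   tr p589_26,
   tr p590_26,
   p581_53,
   p581_54,
   tr p592_26],
  [tr p593_26,
   p581_57,
   p581_58,
   tr p595_26,
   tr p596_26,
   p581_61,
   p581_62,
   tr p598_26]]

theorem k581 : eqNN c581 (slO 64 (D.chG 185 26) 8) = true := by decide +kernel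

/-- The slices of the chunk 582. -/
noncomputable def c582 : List (List ℕ) := [
  [tr p559_27,
   tr p560_27,
   s3_7 (s2_5 (s1_6 (s0_4 p560_43))),
   tr p561_27,
   tr p562_27,
   tr p563_27,
   s3_7 (s2_5 (s1_6 (s0_4 p563_43))),
   tr p564_27],
  [tr p565_27,
   tr p566_27,
   s3_7 (s2_5 (s1_6 (s0_4 p566_43))),
   tr p567_27,
   tr p568_27,
   tr p569_27,
   s3_7 (s2_5 (s1_6 (s0_4 p569_43))),
   tr p570_27],
  [tr p571_27,
   tr p572_27,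
   tr p573_27,
   tr p574_27,
   tr p575_27,
   tr p576_27,
   tr p577_27,
   tr p578_27],
  [tr p579_27,
   tr p580_27,
   tr p581_27,
   p582_27,
   p582_28,
   p582_29,
   p582_30,
   p582_31],
  [s3_7 (s2_5 (s1_6 (s0_4 p571_43))),
   s3_7 (s2_5 (s1_6 (s0_4 p573_43))),
   s3_7 (s2_5 (s1_6 (s0_4 p572_43))),
   s3_7 (s2_5 (s1_6 (s0_4 p574_43))),
   s3_7 (s2_5 (s1_6 (s0_4 p575_43))),
   s3_7 (s2_5 (s1_6 (s0_4 p577_43))),
   s3_7 (s2_5 (s1_6 (s0_4 p576_43))),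
   s3_7 (s2_5 (s1_6 (s0_4 p578_43)))],
  [s3_7 (s2_5 (s1_6 (s0_4 p579_43))),
   s3_7 (s2_5 (s1_6 (s0_4 p581_43))),
   s3_7 (s2_5 (s1_6 (s0_4 p580_43))),
   p582_43,
   p582_44,
   p582_45,
   p582_46,
   p582_47],
  [tr p587_27,
   p582_49,
   p582_50,
   tr p589_27,
   tr p590_27,
   p582_53,
   p582_54,
   tr p592_27],
  [tr p593_27,
   p582_57,
   p582_58,
   tr p595_27,
   tr p596_27,
   p582_61,
   p582_62,
   tr p598_27]]

theorem k582 : eqNN c582 (slO 64 (D.chG 185 27) 8) = true := by decide +kernel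

/-- The slices of the chunk 583. -/
noncomputable def c583 : List (List ℕ) := [
  [tr p559_28,
   tr p560_28,
   s3_7 (s2_5 (s1_6 (s0_4 p560_44))),
   tr p561_28,
   tr p562_28,
   tr p563_28,
   s3_7 (s2_5 (s1_6 (s0_4 p563_44))),
   tr p564_28],
  [tr p565_28,
   tr p566_28,
   s3_7 (s2_5 (s1_6 (s0_4 p566_44))),
   tr p567_28,
   tr p568_28,
   tr p569_28,
   s3_7 (s2_5 (s1_6 (s0_4 p569_44))),
   tr p570_28],
  [tr p571_28,
   tr p572_28,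
   tr p573_28,
   tr p574_28,
   tr p575_28,
   tr p576_28,
   tr p577_28,
   tr p578_28],
  [tr p579_28,
   tr p580_28,
   tr p581_28,
   tr p582_28,
   p583_28,
   p583_29,
   p583_30,
   p583_31],
  [s3_7 (s2_5 (s1_6 (s0_4 p571_44))),
   s3_7 (s2_5 (s1_6 (s0_4 p573_44))),
   s3_7 (s2_5 (s1_6 (s0_4 p572_44))),
   s3_7 (s2_5 (s1_6 (s0_4 p574_44))),
   s3_7 (s2_5 (s1_6 (s0_4 p575_44))),
   s3_7 (s2_5 (s1_6 (s0_4 p577_44))),
   s3_7 (s2_5 (s1_6 (s0_4 p576_44))),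
   s3_7 (s2_5 (s1_6 (s0_4 p578_44)))],
  [s3_7 (s2_5 (s1_6 (s0_4 p579_44))),
   s3_7 (s2_5 (s1_6 (s0_4 p581_44))),
   s3_7 (s2_5 (s1_6 (s0_4 p580_44))),
   s3_7 (s2_5 (s1_6 (s0_4 p582_44))),
   p583_44,
   p583_45,
   p583_46,
   p583_47],
  [tr p587_28,
   p583_49,
   p583_50,
   tr p589_28,
   tr p590_28,
   p583_53,
   p583_54,
   tr p592_28],
  [tr p593_28,
   p583_57,
   p583_58,
   tr p595_28,
   tr p596_28,
   p583_61,
   p583_62,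
   tr p598_28]]

theorem k583 : eqNN c583 (slO 64 (D.chG 185 28) 8) = true := by decide +kernel

end Pool.Agent.Lib.MP_afdd4d_co.K10.E6
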