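import Pool.Agent.Lib.MP_afdd4d_co.K10.E6.Dat
import Pool.Agent.Lib.MP_afdd4d_co.K10.E6.Mk
import Pool.Agent.Lib.MP_afdd4d_co.K8.F6Bl5
import Pool.Agent.Lib.MP_afdd4d_co.K10.E6.P0
import Pool.Agent.Lib.MP_afdd4d_co.K10.E6.P1
import Pool.Agent.Lib.MP_afdd4d_co.K10.E6.P2
import Pool.Agent.Lib.MP_afdd4d_co.K10.E6.P3
import Pool.Agent.Lib.MP_afdd4d_co.K10.E6.P4
import Pool.Agent.Lib.MP_afdd4d_co.K10.E6.P5
import Pool.Agent.Lib.MP_afdd4d_co.K10.E6.P6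
import Pool.Agent.Lib.MP_afdd4d_co.K10.E6.P7
import Pool.Agent.Lib.MP_afdd4d_co.K10.E6.P8
import Pool.Agent.Lib.MP_afdd4d_co.K10.E6.P9
import Pool.Agent.Lib.MP_afdd4d_co.K10.E6.P10
import Pool.Agent.Lib.MP_afdd4d_co.K10.E6.P11
import Pool.Agent.Lib.MP_afdd4d_co.K10.E6.P12
import Pool.Agent.Lib.MP_afdd4d_co.K10.E6.P13
import Pool.Agent.Lib.MP_afdd4d_co.K10.E6.P14
import Pool.Agent.Lib.MP_afdd4d_co.K10.E6.P15
import Pool.Agent.Lib.MP_afdd4d_co.K10.E6.P16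
import Pool.Agent.Lib.MP_afdd4d_co.K10.E6.P17
import Pool.Agent.Lib.MP_afdd4d_co.K10.E6.P18
import Pool.Agent.Lib.MP_afdd4d_co.K10.E6.P19
import Pool.Agent.Lib.MP_afdd4d_co.K10.E6.P20
import Pool.Agent.Lib.MP_afdd4d_co.K10.E6.P21
import Pool.Agent.Lib.MP_afdd4d_co.K10.E6.P22
import Pool.Agent.Lib.MP_afdd4d_co.K10.E6.P23
import Pool.Agent.Lib.MP_afdd4d_co.K10.E6.P24
import Pool.Agent.Lib.MP_afdd4d_co.K10.E6.P25
import Pool.Agent.Lib.MP_afdd4d_co.K10.E6.P26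
import Pool.Agent.Lib.MP_afdd4d_co.K10.E6.P27
import Pool.Agent.Lib.MP_afdd4d_co.K10.E6.P28
import Pool.Agent.Lib.MP_afdd4d_co.K10.E6.P29
import Pool.Agent.Lib.MP_afdd4d_co.K10.E6.P30
import Pool.Agent.Lib.MP_afdd4d_co.K10.E6.P31
import Pool.Agent.Lib.MP_afdd4d_co.K10.E6.P32

/-!
# Tables
-/

namespace Pool.Agent.Lib.MP_afdd4d_co.K10.E6

open K8

set_option maxRecDepth 100000
set_option exponentiation.threshold 10000000

/-- The slices of the chunk 584. -/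
noncomputable def c584 : List (List ℕ) := [
  [tr p559_29,
   tr p560_29,
   s3_7 (s2_5 (s1_6 (s0_4 p560_46))),
   tr p561_29,
   tr p562_29,
   tr p563_29,
   s3_7 (s2_5 (s1_6 (s0_4 p563_46))),
   tr p564_29],
  [tr p565_29,
   tr p566_29,
   s3_7 (s2_5 (s1_6 (s0_4 p566_46))),
   tr p567_29,
   tr p568_29,
   tr p569_29,
   s3_7 (s2_5 (s1_6 (s0_4 p569_46))),
   tr p570_29],
  [tr p571_29,
   tr p572_29,
   tr p573_29,
   tr p574_29,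
   tr p575_29,
   tr p576_29,
   tr p577_29,
   tr p578_29],
  [tr p579_29,
   tr p580_29,
   tr p581_29,
   tr p582_29,
   tr p583_29,
   p584_29,
   p584_30,
   p584_31],
  [s3_7 (s2_5 (s1_6 (s0_4 p571_46))),
   s3_7 (s2_5 (s1_6 (s0_4 p573_46))),
   s3_7 (s2_5 (s1_6 (s0_4 p572_46))),
   s3_7 (s2_5 (s1_6 (s0_4 p574_46))),
   s3_7 (s2_5 (s1_6 (s0_4 p575_46))),
   s3_7 (s2_5 (s1_6 (s0_4 p577_46))),
   s3_7 (s2_5 (s1_6 (s0_4 p576_46))),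
   s3_7 (s2_5 (s1_6 (s0_4 p578_46)))],
  [s3_7 (s2_5 (s1_6 (s0_4 p579_46))),
   s3_7 (s2_5 (s1_6 (s0_4 p581_46))),
   s3_7 (s2_5 (s1_6 (s0_4 p580_46))),
   s3_7 (s2_5 (s1_6 (s0_4 p582_46))),
   s3_7 (s2_5 (s1_6 (s0_4 p583_46))),
   p584_45,
   p584_46,
   p584_47],
  [tr p587_29,
   p584_49,
   p584_50,
   tr p589_29,
   tr p590_29,
   p584_53,
   p584_54,
   tr p592_29],
  [tr p593_29,
   p584_57,
   p584_58,
   tr p595_29,
   tr p596_29,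
   p584_61,
   p584_62,
   tr p598_29]]

theorem k584 : eqNN c584 (slO 64 (D.chG 185 29) 8) = true := by decide +kernel

/-- The slices of the chunk 585. -/
noncomputable def c585 : List (List ℕ) := [
  [tr p559_30,
   tr p560_30,
   s3_7 (s2_5 (s1_6 (s0_4 p560_45))),
   tr p561_30,
   tr p562_30,
   tr p563_30,
   s3_7 (s2_5 (s1_6 (s0_4 p563_45))),
   tr p564_30],
  [tr p565_30,
   tr p566_30,
   s3_7 (s2_5 (s1_6 (s0_4 p566_45))),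
   tr p567_30,
   tr p568_30,
   tr p569_30,
   s3_7 (s2_5 (s1_6 (s0_4 p569_45))),
   tr p570_30],
  [tr p571_30,
   tr p572_30,
   tr p573_30,
   tr p574_30,
   tr p575_30,
   tr p576_30,
   tr p577_30,
   tr p578_30],
  [tr p579_30,
   tr p580_30,
   tr p581_30,
   tr p582_30,
   tr p583_30,
   tr p584_30,
   p585_30,
   p585_31],
  [s3_7 (s2_5 (s1_6 (s0_4 p571_45))),
   s3_7 (s2_5 (s1_6 (s0_4 p573_45))),
   s3_7 (s2_5 (s1_6 (s0_4 p572_45))),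
   s3_7 (s2_5 (s1_6 (s0_4 p574_45))),
   s3_7 (s2_5 (s1_6 (s0_4 p575_45))),
   s3_7 (s2_5 (s1_6 (s0_4 p577_45))),
   s3_7 (s2_5 (s1_6 (s0_4 p576_45))),
   s3_7 (s2_5 (s1_6 (s0_4 p578_45)))],
  [s3_7 (s2_5 (s1_6 (s0_4 p579_45))),
   s3_7 (s2_5 (s1_6 (s0_4 p581_45))),
   s3_7 (s2_5 (s1_6 (s0_4 p580_45))),
   s3_7 (s2_5 (s1_6 (s0_4 p582_45))),
   s3_7 (s2_5 (s1_6 (s0_4 p583_45))),
   p585_45,
   s3_7 (s2_5 (s1_6 (s0_4 p584_45))),
   p585_47],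
  [tr p587_30,
   p585_49,
   p585_50,
   tr p589_30,
   tr p590_30,
   p585_53,
   p585_54,
   tr p592_30],
  [tr p593_30,
   p585_57,
   p585_58,
   tr p595_30,
   tr p596_30,
   p585_61,
   p585_62,
   tr p598_30]]

theorem k585 : eqNN c585 (slO 64 (D.chG 185 30) 8) = true := by decide +kernel

/-- The slices of the chunk 586. -/
noncomputable def c586 : List (List ℕ) := [
  [tr p559_31,
   tr p560_31,
   s3_7 (s2_5 (s1_6 (s0_4 p560_47))),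
   tr p561_31,
   tr p562_31,
   tr p563_31,
   s3_7 (s2_5 (s1_6 (s0_4 p563_47))),
   tr p564_31],
  [tr p565_31,
   tr p566_31,
   s3_7 (s2_5 (s1_6 (s0_4 p566_47))),
   tr p567_31,
   tr p568_31,
   tr p569_31,
   s3_7 (s2_5 (s1_6 (s0_4 p569_47))),
   tr p570_31],
  [tr p571_31,
   tr p572_31,
   tr p573_31,
   tr p574_31,
   tr p575_31,
   tr p576_31,
   tr p577_31,
   tr p578_31],
  [tr p579_31,
   tr p580_31,
   tr p581_31,
   tr p582_31,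
   tr p583_31,
   tr p584_31,
   tr p585_31,
   p586_31],
  [s3_7 (s2_5 (s1_6 (s0_4 p571_47))),
   s3_7 (s2_5 (s1_6 (s0_4 p573_47))),
   s3_7 (s2_5 (s1_6 (s0_4 p572_47))),
   s3_7 (s2_5 (s1_6 (s0_4 p574_47))),
   s3_7 (s2_5 (s1_6 (s0_4 p575_47))),
   s3_7 (s2_5 (s1_6 (s0_4 p577_47))),
   s3_7 (s2_5 (s1_6 (s0_4 p576_47))),
   s3_7 (s2_5 (s1_6 (s0_4 p578_47)))],
  [s3_7 (s2_5 (s1_6 (s0_4 p579_47))),
   s3_7 (s2_5 (s1_6 (s0_4 p581_47))),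
   s3_7 (s2_5 (s1_6 (s0_4 p580_47))),
   s3_7 (s2_5 (s1_6 (s0_4 p582_47))),
   s3_7 (s2_5 (s1_6 (s0_4 p583_47))),
   s3_7 (s2_5 (s1_6 (s0_4 p585_47))),
   s3_7 (s2_5 (s1_6 (s0_4 p584_47))),
   p586_47],
  [tr p587_31,
   p586_49,
   p586_50,
   tr p589_31,
   tr p590_31,
   p586_53,
   p586_54,
   tr p592_31],
  [tr p593_31,
   p586_57,
   p586_58,
   tr p595_31,
   tr p596_31,
   p586_61,
   p586_62,
   tr p598_31]]

theorem k586 : eqNN c586 (slO 64 (D.chG 185 31) 8) = true := by decide +kernel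

/-- The slices of the chunk 587. -/
noncomputable def c587 : List (List ℕ) := [
  [tr p559_48,
   p587_1,
   s5_6 (s1_2 p587_1),
   tr p561_48,
   tr p562_48,
   p587_5,
   s5_6 (s1_2 p587_5),
   tr p564_48],
  [tr p565_48,
   p587_9,
   s5_6 (s1_2 p587_9),
   tr p567_48,
   tr p568_48,
   p587_13,
   s5_6 (s1_2 p587_13),
   tr p570_48],
  [p587_16,
   p587_17,
   p587_18,
   p587_19,
   p587_20,
   p587_21,
   p587_22,
   p587_23],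
  [p587_24,
   p587_25,
   p587_26,
   p587_27,
   p587_28,
   p587_29,
   p587_30,
   p587_31],
  [s5_6 (s1_2 p587_16),
   s5_6 (s1_2 p587_18),
   s5_6 (s1_2 p587_17),
   s5_6 (s1_2 p587_19),
   s5_6 (s1_2 p587_20),
   s5_6 (s1_2 p587_22),
   s5_6 (s1_2 p587_21),
   s5_6 (s1_2 p587_23)],
  [s5_6 (s1_2 p587_24),
   s5_6 (s1_2 p587_26),
   s5_6 (s1_2 p587_25),
   s5_6 (s1_2 p587_27),
   s5_6 (s1_2 p587_28),
   s5_6 (s1_2 p587_30),
   s5_6 (s1_2 p587_29),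
   s5_6 (s1_2 p587_31)],
  [p587_48,
   p587_49,
   s5_6 (s1_2 p587_49),
   p587_51,
   p587_52,
   p587_53,
   s5_6 (s1_2 p587_53),
   p587_55],
  [p587_56,
   p587_57,
   s5_6 (s1_2 p587_57),
   p587_59,
   p587_60,
   p587_61,
   s5_6 (s1_2 p587_61),
   p587_63]]

theorem k587 : eqNN c587 (slO 64 (D.chG 185 48) 8) = true := by decide +kernel

end Pool.Agent.Lib.MP_afdd4d_co.K10.E6
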