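import Pool.Agent.Lib.MP_afdd4d_co.K10.E6.Dat
import Pool.Agent.Lib.MP_afdd4d_co.K10.E6.Mk
import Pool.Agent.Lib.MP_afdd4d_co.K8.F6Bl5
import Pool.Agent.Lib.MP_afdd4d_co.K10.E6.P0
import Pool.Agent.Lib.MP_afdd4d_co.K10.E6.P1
import Pool.Agent.Lib.MP_afdd4d_co.K10.E6.P2
import Pool.Agent.Lib.MP_afdd4d_co.K10.E6.P3
import Pool.Agent.Lib.MP_afdd4d_co.K10.E6.P4
import Pool.Agent.Lib.MP_afdd4d_co.K10.E6.P5
import Pool.Agent.Lib.MP_afdd4d_co.K10.E6.P6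
import Pool.Agent.Lib.MP_afdd4d_co.K10.E6.P7
import Pool.Agent.Lib.MP_afdd4d_co.K10.E6.P8
import Pool.Agent.Lib.MP_afdd4d_co.K10.E6.P9
import Pool.Agent.Lib.MP_afdd4d_co.K10.E6.P10
import Pool.Agent.Lib.MP_afdd4d_co.K10.E6.P11
import Pool.Agent.Lib.MP_afdd4d_co.K10.E6.P12
import Pool.Agent.Lib.MP_afdd4d_co.K10.E6.P13
import Pool.Agent.Lib.MP_afdd4d_co.K10.E6.P14
import Pool.Agent.Lib.MP_afdd4d_co.K10.E6.P15
import Pool.Agent.Lib.MP_afdd4d_co.K10.E6.P16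
import Pool.Agent.Lib.MP_afdd4d_co.K10.E6.P17
import Pool.Agent.Lib.MP_afdd4d_co.K10.E6.P18
import Pool.Agent.Lib.MP_afdd4d_co.K10.E6.P19
import Pool.Agent.Lib.MP_afdd4d_co.K10.E6.P20
import Pool.Agent.Lib.MP_afdd4d_co.K10.E6.P21
import Pool.Agent.Lib.MP_afdd4d_co.K10.E6.P22
import Pool.Agent.Lib.MP_afdd4d_co.K10.E6.P23
import Pool.Agent.Lib.MP_afdd4d_co.K10.E6.P24
import Pool.Agent.Lib.MP_afdd4d_co.K10.E6.P25
import Pool.Agent.Lib.MP_afdd4d_co.K10.E6.P26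
import Pool.Agent.Lib.MP_afdd4d_co.K10.E6.P27
import Pool.Agent.Lib.MP_afdd4d_co.K10.E6.P28
import Pool.Agent.Lib.MP_afdd4d_co.K10.E6.P29
import Pool.Agent.Lib.MP_afdd4d_co.K10.E6.P30
import Pool.Agent.Lib.MP_afdd4d_co.K10.E6.P31
import Pool.Agent.Lib.MP_afdd4d_co.K10.E6.P32

/-!
# Tables
-/

namespace Pool.Agent.Lib.MP_afdd4d_co.K10.E6

open K8

set_option maxRecDepth 100000
set_option exponentiation.threshold 10000000

/-- The slices of the chunk 588. -/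
noncomputable def c588 : List (List ℕ) := [
  [tr p559_49,
   tr p560_49,
   s3_7 (s2_5 (s1_6 (s0_4 p560_50))),
   tr p561_49,
   tr p562_49,
   tr p563_49,
   s3_7 (s2_5 (s1_6 (s0_4 p563_50))),
   tr p564_49],
  [tr p565_49,
   tr p566_49,
   s3_7 (s2_5 (s1_6 (s0_4 p566_50))),
   tr p567_49,
   tr p568_49,
   tr p569_49,
   s3_7 (s2_5 (s1_6 (s0_4 p569_50))),
   tr p570_49],
  [tr p571_49,
   tr p572_49,
   tr p573_49,
   tr p574_49,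
   tr p575_49,
   tr p576_49,
   tr p577_49,
   tr p578_49],
  [tr p579_49,
   tr p580_49,
   tr p581_49,
   tr p582_49,
   tr p583_49,
   tr p584_49,
   tr p585_49,
   tr p586_49],
  [s3_7 (s2_5 (s1_6 (s0_4 p571_50))),
   s3_7 (s2_5 (s1_6 (s0_4 p573_50))),
   s3_7 (s2_5 (s1_6 (s0_4 p572_50))),
   s3_7 (s2_5 (s1_6 (s0_4 p574_50))),
   s3_7 (s2_5 (s1_6 (s0_4 p575_50))),
   s3_7 (s2_5 (s1_6 (s0_4 p577_50))),
   s3_7 (s2_5 (s1_6 (s0_4 p576_50))),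
   s3_7 (s2_5 (s1_6 (s0_4 p578_50)))],
  [s3_7 (s2_5 (s1_6 (s0_4 p579_50))),
   s3_7 (s2_5 (s1_6 (s0_4 p581_50))),
   s3_7 (s2_5 (s1_6 (s0_4 p580_50))),
   s3_7 (s2_5 (s1_6 (s0_4 p582_50))),
   s3_7 (s2_5 (s1_6 (s0_4 p583_50))),
   s3_7 (s2_5 (s1_6 (s0_4 p585_50))),
   s3_7 (s2_5 (s1_6 (s0_4 p584_50))),
   s3_7 (s2_5 (s1_6 (s0_4 p586_50)))],
  [tr p587_49,
   p588_49,
   p588_50,
   tr p589_49,
   tr p590_49,
   p588_53,
   p588_54,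
   tr p592_49],
  [tr p593_49,
   p588_57,
   p588_58,
   tr p595_49,
   tr p596_49,
   p588_61,
   p588_62,
   tr p598_49]]

theorem k588 : eqNN c588 (slO 64 (D.chG 185 49) 8) = true := by decide +kernel

/-- The slices of the chunk 589. -/
noncomputable def c589 : List (List ℕ) := [
  [tr p559_51,
   p589_1,
   s5_6 (s1_2 p589_1),
   tr p561_51,
   tr p562_51,
   p589_5,
   s5_6 (s1_2 p589_5),
   tr p564_51],
  [tr p565_51,
   p589_9,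
   s5_6 (s1_2 p589_9),
   tr p567_51,
   tr p568_51,
   p589_13,
   s5_6 (s1_2 p589_13),
   tr p570_51],
  [p589_16,
   p589_17,
   p589_18,
   p589_19,
   p589_20,
   p589_21,
   p589_22,
   p589_23],
  [p589_24,
   p589_25,
   p589_26,
   p589_27,
   p589_28,
   p589_29,
   p589_30,
   p589_31],
  [s5_6 (s1_2 p589_16),
   s5_6 (s1_2 p589_18),
   s5_6 (s1_2 p589_17),
   s5_6 (s1_2 p589_19),
   s5_6 (s1_2 p589_20),
   s5_6 (s1_2 p589_22),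
   s5_6 (s1_2 p589_21),
   s5_6 (s1_2 p589_23)],
  [s5_6 (s1_2 p589_24),
   s5_6 (s1_2 p589_26),
   s5_6 (s1_2 p589_25),
   s5_6 (s1_2 p589_27),
   s5_6 (s1_2 p589_28),
   s5_6 (s1_2 p589_30),
   s5_6 (s1_2 p589_29),
   s5_6 (s1_2 p589_31)],
  [tr p587_51,
   p589_49,
   s5_6 (s1_2 p589_49),
   p589_51,
   p589_52,
   p589_53,
   s5_6 (s1_2 p589_53),
   p589_55],
  [p589_56,
   p589_57,
   s5_6 (s1_2 p589_57),
   p589_59,
   p589_60,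
   p589_61,
   s5_6 (s1_2 p589_61),
   p589_63]]

theorem k589 : eqNN c589 (slO 64 (D.chG 185 51) 8) = true := by decide +kernel

/-- The slices of the chunk 590. -/
noncomputable def c590 : List (List ℕ) := [
  [tr p559_52,
   p590_1,
   s5_6 (s1_2 p590_1),
   tr p561_52,
   tr p562_52,
   p590_5,
   s5_6 (s1_2 p590_5),
   tr p564_52],
  [tr p565_52,
   p590_9,
   s5_6 (s1_2 p590_9),
   tr p567_52,
   tr p568_52,
   p590_13,
   s5_6 (s1_2 p590_13),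
   tr p570_52],
  [p590_16,
   p590_17,
   p590_18,
   p590_19,
   p590_20,
   p590_21,
   p590_22,
   p590_23],
  [p590_24,
   p590_25,
   p590_26,
   p590_27,
   p590_28,
   p590_29,
   p590_30,
   p590_31],
  [s5_6 (s1_2 p590_16),
   s5_6 (s1_2 p590_18),
   s5_6 (s1_2 p590_17),
   s5_6 (s1_2 p590_19),
   s5_6 (s1_2 p590_20),
   s5_6 (s1_2 p590_22),
   s5_6 (s1_2 p590_21),
   s5_6 (s1_2 p590_23)],
  [s5_6 (s1_2 p590_24),
   s5_6 (s1_2 p590_26),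
   s5_6 (s1_2 p590_25),
   s5_6 (s1_2 p590_27),
   s5_6 (s1_2 p590_28),
   s5_6 (s1_2 p590_30),
   s5_6 (s1_2 p590_29),
   s5_6 (s1_2 p590_31)],
  [tr p587_52,
   p590_49,
   s5_6 (s1_2 p590_49),
   tr p589_52,
   p590_52,
   p590_53,
   s5_6 (s1_2 p590_53),
   p590_55],
  [p590_56,
   p590_57,
   s5_6 (s1_2 p590_57),
   p590_59,
   p590_60,
   p590_61,
   s5_6 (s1_2 p590_61),
   p590_63]]

theorem k590 : eqNN c590 (slO 64 (D.chG 185 52) 8) = true := by decide +kernel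

/-- The slices of the chunk 591. -/
noncomputable def c591 : List (List ℕ) := [
  [tr p559_53,
   tr p560_53,
   s3_7 (s2_5 (s1_6 (s0_4 p560_54))),
   tr p561_53,
   tr p562_53,
   tr p563_53,
   s3_7 (s2_5 (s1_6 (s0_4 p563_54))),
   tr p564_53],
  [tr p565_53,
   tr p566_53,
   s3_7 (s2_5 (s1_6 (s0_4 p566_54))),
   tr p567_53,
   tr p568_53,
   tr p569_53,
   s3_7 (s2_5 (s1_6 (s0_4 p569_54))),
   tr p570_53],
  [tr p571_53,
   tr p572_53,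
   tr p573_53,
   tr p574_53,
   tr p575_53,
   tr p576_53,
   tr p577_53,
   tr p578_53],
  [tr p579_53,
   tr p580_53,
   tr p581_53,
   tr p582_53,
   tr p583_53,
   tr p584_53,
   tr p585_53,
   tr p586_53],
  [s3_7 (s2_5 (s1_6 (s0_4 p571_54))),
   s3_7 (s2_5 (s1_6 (s0_4 p573_54))),
   s3_7 (s2_5 (s1_6 (s0_4 p572_54))),
   s3_7 (s2_5 (s1_6 (s0_4 p574_54))),
   s3_7 (s2_5 (s1_6 (s0_4 p575_54))),
   s3_7 (s2_5 (s1_6 (s0_4 p577_54))),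
   s3_7 (s2_5 (s1_6 (s0_4 p576_54))),
   s3_7 (s2_5 (s1_6 (s0_4 p578_54)))],
  [s3_7 (s2_5 (s1_6 (s0_4 p579_54))),
   s3_7 (s2_5 (s1_6 (s0_4 p581_54))),
   s3_7 (s2_5 (s1_6 (s0_4 p580_54))),
   s3_7 (s2_5 (s1_6 (s0_4 p582_54))),
   s3_7 (s2_5 (s1_6 (s0_4 p583_54))),
   s3_7 (s2_5 (s1_6 (s0_4 p585_54))),
   s3_7 (s2_5 (s1_6 (s0_4 p584_54))),
   s3_7 (s2_5 (s1_6 (s0_4 p586_54)))],
  [tr p587_53,
   tr p588_53,
   s3_7 (s2_5 (s1_6 (s0_4 p588_54))),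
   tr p589_53,
   tr p590_53,
   p591_53,
   p591_54,
   tr p592_53],
  [tr p593_53,
   p591_57,
   p591_58,
   tr p595_53,
   tr p596_53,
   p591_61,
   p591_62,
   tr p598_53]]

theorem k591 : eqNN c591 (slO 64 (D.chG 185 53) 8) = true := by decide +kernel

end Pool.Agent.Lib.MP_afdd4d_co.K10.E6
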