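import Pool.Agent.Lib.MP_afdd4d_co.K10.E6.Dat
import Pool.Agent.Lib.MP_afdd4d_co.K10.E6.Mk
import Pool.Agent.Lib.MP_afdd4d_co.K8.F6Bl5
import Pool.Agent.Lib.MP_afdd4d_co.K10.E6.P0
import Pool.Agent.Lib.MP_afdd4d_co.K10.E6.P1
import Pool.Agent.Lib.MP_afdd4d_co.K10.E6.P2
import Pool.Agent.Lib.MP_afdd4d_co.K10.E6.P3
import Pool.Agent.Lib.MP_afdd4d_co.K10.E6.P4
import Pool.Agent.Lib.MP_afdd4d_co.K10.E6.P5
import Pool.Agent.Lib.MP_afdd4d_co.K10.E6.P6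
import Pool.Agent.Lib.MP_afdd4d_co.K10.E6.P7
import Pool.Agent.Lib.MP_afdd4d_co.K10.E6.P8
import Pool.Agent.Lib.MP_afdd4d_co.K10.E6.P9
import Pool.Agent.Lib.MP_afdd4d_co.K10.E6.P10
import Pool.Agent.Lib.MP_afdd4d_co.K10.E6.P11
import Pool.Agent.Lib.MP_afdd4d_co.K10.E6.P12
import Pool.Agent.Lib.MP_afdd4d_co.K10.E6.P13
import Pool.Agent.Lib.MP_afdd4d_co.K10.E6.P14
import Pool.Agent.Lib.MP_afdd4d_co.K10.E6.P15
import Pool.Agent.Lib.MP_afdd4d_co.K10.E6.P16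
import Pool.Agent.Lib.MP_afdd4d_co.K10.E6.P17
import Pool.Agent.Lib.MP_afdd4d_co.K10.E6.P18
import Pool.Agent.Lib.MP_afdd4d_co.K10.E6.P19
import Pool.Agent.Lib.MP_afdd4d_co.K10.E6.P20
import Pool.Agent.Lib.MP_afdd4d_co.K10.E6.P21
import Pool.Agent.Lib.MP_afdd4d_co.K10.E6.P22
import Pool.Agent.Lib.MP_afdd4d_co.K10.E6.P23
import Pool.Agent.Lib.MP_afdd4d_co.K10.E6.P24
import Pool.Agent.Lib.MP_afdd4d_co.K10.E6.P25
import Pool.Agent.Lib.MP_afdd4d_co.K10.E6.P26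
import Pool.Agent.Lib.MP_afdd4d_co.K10.E6.P27
import Pool.Agent.Lib.MP_afdd4d_co.K10.E6.P28
import Pool.Agent.Lib.MP_afdd4d_co.K10.E6.P29
import Pool.Agent.Lib.MP_afdd4d_co.K10.E6.P30
import Pool.Agent.Lib.MP_afdd4d_co.K10.E6.P31
import Pool.Agent.Lib.MP_afdd4d_co.K10.E6.P32

/-!
# Tables
-/

namespace Pool.Agent.Lib.MP_afdd4d_co.K10.E6

open K8

set_option maxRecDepth 100000
set_option exponentiation.threshold 10000000

/-- The slices of the chunk 592. -/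
noncomputable def c592 : List (List ℕ) := [
  [tr p559_55,
   p592_1,
   s5_6 (s1_2 p592_1),
   tr p561_55,
   tr p562_55,
   p592_5,
   s5_6 (s1_2 p592_5),
   tr p564_55],
  [tr p565_55,
   p592_9,
   s5_6 (s1_2 p592_9),
   tr p567_55,
   tr p568_55,
   p592_13,
   s5_6 (s1_2 p592_13),
   tr p570_55],
  [p592_16,
   p592_17,
   p592_18,
   p592_19,
   p592_20,
   p592_21,
   p592_22,
   p592_23],
  [p592_24,
   p592_25,
   p592_26,
   p592_27,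
   p592_28,
   p592_29,
   p592_30,
   p592_31],
  [s5_6 (s1_2 p592_16),
   s5_6 (s1_2 p592_18),
   s5_6 (s1_2 p592_17),
   s5_6 (s1_2 p592_19),
   s5_6 (s1_2 p592_20),
   s5_6 (s1_2 p592_22),
   s5_6 (s1_2 p592_21),
   s5_6 (s1_2 p592_23)],
  [s5_6 (s1_2 p592_24),
   s5_6 (s1_2 p592_26),
   s5_6 (s1_2 p592_25),
   s5_6 (s1_2 p592_27),
   s5_6 (s1_2 p592_28),
   s5_6 (s1_2 p592_30),
   s5_6 (s1_2 p592_29),
   s5_6 (s1_2 p592_31)],
  [tr p587_55,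
   p592_49,
   s5_6 (s1_2 p592_49),
   tr p589_55,
   tr p590_55,
   p592_53,
   s5_6 (s1_2 p592_53),
   p592_55],
  [p592_56,
   p592_57,
   s5_6 (s1_2 p592_57),
   p592_59,
   p592_60,
   p592_61,
   s5_6 (s1_2 p592_61),
   p592_63]]

theorem k592 : eqNN c592 (slO 64 (D.chG 185 55) 8) = true := by decide +kernel

/-- The slices of the chunk 593. -/
noncomputable def c593 : List (List ℕ) := [
  [tr p559_56,
   p593_1,
   s5_6 (s1_2 p593_1),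
   tr p561_56,
   tr p562_56,
   p593_5,
   s5_6 (s1_2 p593_5),
   tr p564_56],
  [tr p565_56,
   p593_9,
   s5_6 (s1_2 p593_9),
   tr p567_56,
   tr p568_56,
   p593_13,
   s5_6 (s1_2 p593_13),
   tr p570_56],
  [p593_16,
   p593_17,
   p593_18,
   p593_19,
   p593_20,
   p593_21,
   p593_22,
   p593_23],
  [p593_24,
   p593_25,
   p593_26,
   p593_27,
   p593_28,
   p593_29,
   p593_30,
   p593_31],
  [s5_6 (s1_2 p593_16),
   s5_6 (s1_2 p593_18),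
   s5_6 (s1_2 p593_17),
   s5_6 (s1_2 p593_19),
   s5_6 (s1_2 p593_20),
   s5_6 (s1_2 p593_22),
   s5_6 (s1_2 p593_21),
   s5_6 (s1_2 p593_23)],
  [s5_6 (s1_2 p593_24),
   s5_6 (s1_2 p593_26),
   s5_6 (s1_2 p593_25),
   s5_6 (s1_2 p593_27),
   s5_6 (s1_2 p593_28),
   s5_6 (s1_2 p593_30),
   s5_6 (s1_2 p593_29),
   s5_6 (s1_2 p593_31)],
  [tr p587_56,
   p593_49,
   s5_6 (s1_2 p593_49),
   tr p589_56,
   tr p590_56,
   p593_53,
   s5_6 (s1_2 p593_53),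
   tr p592_56],
  [p593_56,
   p593_57,
   s5_6 (s1_2 p593_57),
   p593_59,
   p593_60,
   p593_61,
   s5_6 (s1_2 p593_61),
   p593_63]]

theorem k593 : eqNN c593 (slO 64 (D.chG 185 56) 8) = true := by decide +kernel

/-- The slices of the chunk 594. -/
noncomputable def c594 : List (List ℕ) := [
  [tr p559_57,
   tr p560_57,
   s3_7 (s2_5 (s1_6 (s0_4 p560_58))),
   tr p561_57,
   tr p562_57,
   tr p563_57,
   s3_7 (s2_5 (s1_6 (s0_4 p563_58))),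
   tr p564_57],
  [tr p565_57,
   tr p566_57,
   s3_7 (s2_5 (s1_6 (s0_4 p566_58))),
   tr p567_57,
   tr p568_57,
   tr p569_57,
   s3_7 (s2_5 (s1_6 (s0_4 p569_58))),
   tr p570_57],
  [tr p571_57,
   tr p572_57,
   tr p573_57,
   tr p574_57,
   tr p575_57,
   tr p576_57,
   tr p577_57,
   tr p578_57],
  [tr p579_57,
   tr p580_57,
   tr p581_57,
   tr p582_57,
   tr p583_57,
   tr p584_57,
   tr p585_57,
   tr p586_57],
  [s3_7 (s2_5 (s1_6 (s0_4 p571_58))),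
   s3_7 (s2_5 (s1_6 (s0_4 p573_58))),
   s3_7 (s2_5 (s1_6 (s0_4 p572_58))),
   s3_7 (s2_5 (s1_6 (s0_4 p574_58))),
   s3_7 (s2_5 (s1_6 (s0_4 p575_58))),
   s3_7 (s2_5 (s1_6 (s0_4 p577_58))),
   s3_7 (s2_5 (s1_6 (s0_4 p576_58))),
   s3_7 (s2_5 (s1_6 (s0_4 p578_58)))],
  [s3_7 (s2_5 (s1_6 (s0_4 p579_58))),
   s3_7 (s2_5 (s1_6 (s0_4 p581_58))),
   s3_7 (s2_5 (s1_6 (s0_4 p580_58))),
   s3_7 (s2_5 (s1_6 (s0_4 p582_58))),
   s3_7 (s2_5 (s1_6 (s0_4 p583_58))),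
   s3_7 (s2_5 (s1_6 (s0_4 p585_58))),
   s3_7 (s2_5 (s1_6 (s0_4 p584_58))),
   s3_7 (s2_5 (s1_6 (s0_4 p586_58)))],
  [tr p587_57,
   tr p588_57,
   s3_7 (s2_5 (s1_6 (s0_4 p588_58))),
   tr p589_57,
   tr p590_57,
   tr p591_57,
   s3_7 (s2_5 (s1_6 (s0_4 p591_58))),
   tr p592_57],
  [tr p593_57,
   p594_57,
   p594_58,
   tr p595_57,
   tr p596_57,
   p594_61,
   p594_62,
   tr p598_57]]

theorem k594 : eqNN c594 (slO 64 (D.chG 185 57) 8) = true := by decide +kernel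

/-- The slices of the chunk 595. -/
noncomputable def c595 : List (List ℕ) := [
  [tr p559_59,
   p595_1,
   s5_6 (s1_2 p595_1),
   tr p561_59,
   tr p562_59,
   p595_5,
   s5_6 (s1_2 p595_5),
   tr p564_59],
  [tr p565_59,
   p595_9,
   s5_6 (s1_2 p595_9),
   tr p567_59,
   tr p568_59,
   p595_13,
   s5_6 (s1_2 p595_13),
   tr p570_59],
  [p595_16,
   p595_17,
   p595_18,
   p595_19,
   p595_20,
   p595_21,
   p595_22,
   p595_23],
  [p595_24,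
   p595_25,
   p595_26,
   p595_27,
   p595_28,
   p595_29,
   p595_30,
   p595_31],
  [s5_6 (s1_2 p595_16),
   s5_6 (s1_2 p595_18),
   s5_6 (s1_2 p595_17),
   s5_6 (s1_2 p595_19),
   s5_6 (s1_2 p595_20),
   s5_6 (s1_2 p595_22),
   s5_6 (s1_2 p595_21),
   s5_6 (s1_2 p595_23)],
  [s5_6 (s1_2 p595_24),
   s5_6 (s1_2 p595_26),
   s5_6 (s1_2 p595_25),
   s5_6 (s1_2 p595_27),
   s5_6 (s1_2 p595_28),
   s5_6 (s1_2 p595_30),
   s5_6 (s1_2 p595_29),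
   s5_6 (s1_2 p595_31)],
  [tr p587_59,
   p595_49,
   s5_6 (s1_2 p595_49),
   tr p589_59,
   tr p590_59,
   p595_53,
   s5_6 (s1_2 p595_53),
   tr p592_59],
  [tr p593_59,
   p595_57,
   s5_6 (s1_2 p595_57),
   p595_59,
   p595_60,
   p595_61,
   s5_6 (s1_2 p595_61),
   p595_63]]

theorem k595 : eqNN c595 (slO 64 (D.chG 185 59) 8) = true := by decide +kernel

end Pool.Agent.Lib.MP_afdd4d_co.K10.E6
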