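import Pool.Agent.Lib.MP_afdd4d_co.K10.E6.Dat
import Pool.Agent.Lib.MP_afdd4d_co.K10.E6.Mk
import Pool.Agent.Lib.MP_afdd4d_co.K8.F6Bl5
import Pool.Agent.Lib.MP_afdd4d_co.K10.E6.P0
import Pool.Agent.Lib.MP_afdd4d_co.K10.E6.P1
import Pool.Agent.Lib.MP_afdd4d_co.K10.E6.P2
import Pool.Agent.Lib.MP_afdd4d_co.K10.E6.P3
import Pool.Agent.Lib.MP_afdd4d_co.K10.E6.P4
import Pool.Agent.Lib.MP_afdd4d_co.K10.E6.P5
import Pool.Agent.Lib.MP_afdd4d_co.K10.E6.P6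
import Pool.Agent.Lib.MP_afdd4d_co.K10.E6.P7
import Pool.Agent.Lib.MP_afdd4d_co.K10.E6.P8
import Pool.Agent.Lib.MP_afdd4d_co.K10.E6.P9
import Pool.Agent.Lib.MP_afdd4d_co.K10.E6.P10
import Pool.Agent.Lib.MP_afdd4d_co.K10.E6.P11
import Pool.Agent.Lib.MP_afdd4d_co.K10.E6.P12
import Pool.Agent.Lib.MP_afdd4d_co.K10.E6.P13
import Pool.Agent.Lib.MP_afdd4d_co.K10.E6.P14
import Pool.Agent.Lib.MP_afdd4d_co.K10.E6.P15
import Pool.Agent.Lib.MP_afdd4d_co.K10.E6.P16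
import Pool.Agent.Lib.MP_afdd4d_co.K10.E6.P17
import Pool.Agent.Lib.MP_afdd4d_co.K10.E6.P18
import Pool.Agent.Lib.MP_afdd4d_co.K10.E6.P19
import Pool.Agent.Lib.MP_afdd4d_co.K10.E6.P20
import Pool.Agent.Lib.MP_afdd4d_co.K10.E6.P21
import Pool.Agent.Lib.MP_afdd4d_co.K10.E6.P22
import Pool.Agent.Lib.MP_afdd4d_co.K10.E6.P23
import Pool.Agent.Lib.MP_afdd4d_co.K10.E6.P24
import Pool.Agent.Lib.MP_afdd4d_co.K10.E6.P25
import Pool.Agent.Lib.MP_afdd4d_co.K10.E6.P26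
import Pool.Agent.Lib.MP_afdd4d_co.K10.E6.P27
import Pool.Agent.Lib.MP_afdd4d_co.K10.E6.P28
import Pool.Agent.Lib.MP_afdd4d_co.K10.E6.P29
import Pool.Agent.Lib.MP_afdd4d_co.K10.E6.P30
import Pool.Agent.Lib.MP_afdd4d_co.K10.E6.P31
import Pool.Agent.Lib.MP_afdd4d_co.K10.E6.P32

/-!
# Tables
-/

namespace Pool.Agent.Lib.MP_afdd4d_co.K10.E6

open K8

set_option maxRecDepth 100000
set_option exponentiation.threshold 10000000

/-- The slices of the chunk 596. -/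
noncomputable def c596 : List (List ℕ) := [
  [tr p559_60,
   p596_1,
   s5_6 (s1_2 p596_1),
   tr p561_60,
   tr p562_60,
   p596_5,
   s5_6 (s1_2 p596_5),
   tr p564_60],
  [tr p565_60,
   p596_9,
   s5_6 (s1_2 p596_9),
   tr p567_60,
   tr p568_60,
   p596_13,
   s5_6 (s1_2 p596_13),
   tr p570_60],
  [p596_16,
   p596_17,
   p596_18,
   p596_19,
   p596_20,
   p596_21,
   p596_22,
   p596_23],
  [p596_24,
   p596_25,
   p596_26,
   p596_27,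
   p596_28,
   p596_29,
   p596_30,
   p596_31],
  [s5_6 (s1_2 p596_16),
   s5_6 (s1_2 p596_18),
   s5_6 (s1_2 p596_17),
   s5_6 (s1_2 p596_19),
   s5_6 (s1_2 p596_20),
   s5_6 (s1_2 p596_22),
   s5_6 (s1_2 p596_21),
   s5_6 (s1_2 p596_23)],
  [s5_6 (s1_2 p596_24),
   s5_6 (s1_2 p596_26),
   s5_6 (s1_2 p596_25),
   s5_6 (s1_2 p596_27),
   s5_6 (s1_2 p596_28),
   s5_6 (s1_2 p596_30),
   s5_6 (s1_2 p596_29),
   s5_6 (s1_2 p596_31)],
  [tr p587_60,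
   p596_49,
   s5_6 (s1_2 p596_49),
   tr p589_60,
   tr p590_60,
   p596_53,
   s5_6 (s1_2 p596_53),
   tr p592_60],
  [tr p593_60,
   p596_57,
   s5_6 (s1_2 p596_57),
   tr p595_60,
   p596_60,
   p596_61,
   s5_6 (s1_2 p596_61),
   p596_63]]

theorem k596 : eqNN c596 (slO 64 (D.chG 185 60) 8) = true := by decide +kernel

/-- The slices of the chunk 597. -/
noncomputable def c597 : List (List ℕ) := [
  [tr p559_61,
   tr p560_61,
   s3_7 (s2_5 (s1_6 (s0_4 p560_62))),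
   tr p561_61,
   tr p562_61,
   tr p563_61,
   s3_7 (s2_5 (s1_6 (s0_4 p563_62))),
   tr p564_61],
  [tr p565_61,
   tr p566_61,
   s3_7 (s2_5 (s1_6 (s0_4 p566_62))),
   tr p567_61,
   tr p568_61,
   tr p569_61,
   s3_7 (s2_5 (s1_6 (s0_4 p569_62))),
   tr p570_61],
  [tr p571_61,
   tr p572_61,
   tr p573_61,
   tr p574_61,
   tr p575_61,
   tr p576_61,
   tr p577_61,
   tr p578_61],
  [tr p579_61,
   tr p580_61,
   tr p581_61,
   tr p582_61,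
   tr p583_61,
   tr p584_61,
   tr p585_61,
   tr p586_61],
  [s3_7 (s2_5 (s1_6 (s0_4 p571_62))),
   s3_7 (s2_5 (s1_6 (s0_4 p573_62))),
   s3_7 (s2_5 (s1_6 (s0_4 p572_62))),
   s3_7 (s2_5 (s1_6 (s0_4 p574_62))),
   s3_7 (s2_5 (s1_6 (s0_4 p575_62))),
   s3_7 (s2_5 (s1_6 (s0_4 p577_62))),
   s3_7 (s2_5 (s1_6 (s0_4 p576_62))),
   s3_7 (s2_5 (s1_6 (s0_4 p578_62)))],
  [s3_7 (s2_5 (s1_6 (s0_4 p579_62))),
   s3_7 (s2_5 (s1_6 (s0_4 p581_62))),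
   s3_7 (s2_5 (s1_6 (s0_4 p580_62))),
   s3_7 (s2_5 (s1_6 (s0_4 p582_62))),
   s3_7 (s2_5 (s1_6 (s0_4 p583_62))),
   s3_7 (s2_5 (s1_6 (s0_4 p585_62))),
   s3_7 (s2_5 (s1_6 (s0_4 p584_62))),
   s3_7 (s2_5 (s1_6 (s0_4 p586_62)))],
  [tr p587_61,
   tr p588_61,
   s3_7 (s2_5 (s1_6 (s0_4 p588_62))),
   tr p589_61,
   tr p590_61,
   tr p591_61,
   s3_7 (s2_5 (s1_6 (s0_4 p591_62))),
   tr p592_61],
  [tr p593_61,
   tr p594_61,
   s3_7 (s2_5 (s1_6 (s0_4 p594_62))),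
   tr p595_61,
   tr p596_61,
   p597_61,
   p597_62,
   tr p598_61]]

theorem k597 : eqNN c597 (slO 64 (D.chG 185 61) 8) = true := by decide +kernel

/-- The slices of the chunk 598. -/
noncomputable def c598 : List (List ℕ) := [
  [tr p559_63,
   p598_1,
   s5_6 (s1_2 p598_1),
   tr p561_63,
   tr p562_63,
   p598_5,
   s5_6 (s1_2 p598_5),
   tr p564_63],
  [tr p565_63,
   p598_9,
   s5_6 (s1_2 p598_9),
   tr p567_63,
   tr p568_63,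
   p598_13,
   s5_6 (s1_2 p598_13),
   tr p570_63],
  [p598_16,
   p598_17,
   p598_18,
   p598_19,
   p598_20,
   p598_21,
   p598_22,
   p598_23],
  [p598_24,
   p598_25,
   p598_26,
   p598_27,
   p598_28,
   p598_29,
   p598_30,
   p598_31],
  [s5_6 (s1_2 p598_16),
   s5_6 (s1_2 p598_18),
   s5_6 (s1_2 p598_17),
   s5_6 (s1_2 p598_19),
   s5_6 (s1_2 p598_20),
   s5_6 (s1_2 p598_22),
   s5_6 (s1_2 p598_21),
   s5_6 (s1_2 p598_23)],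
  [s5_6 (s1_2 p598_24),
   s5_6 (s1_2 p598_26),
   s5_6 (s1_2 p598_25),
   s5_6 (s1_2 p598_27),
   s5_6 (s1_2 p598_28),
   s5_6 (s1_2 p598_30),
   s5_6 (s1_2 p598_29),
   s5_6 (s1_2 p598_31)],
  [tr p587_63,
   p598_49,
   s5_6 (s1_2 p598_49),
   tr p589_63,
   tr p590_63,
   p598_53,
   s5_6 (s1_2 p598_53),
   tr p592_63],
  [tr p593_63,
   p598_57,
   s5_6 (s1_2 p598_57),
   tr p595_63,
   tr p596_63,
   p598_61,
   s5_6 (s1_2 p598_61),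
   p598_63]]

theorem k598 : eqNN c598 (slO 64 (D.chG 185 63) 8) = true := by decide +kernel

/-- The slices of the chunk 599. -/
noncomputable def c599 : List (List ℕ) := [
  [p599_0,
   p599_1,
   p599_2,
   p599_3,
   p599_4,
   p599_5,
   p599_6,
   p599_7],
  [s6_7 (s2_3 p599_2),
   s6_7 (s2_3 p599_3),
   p599_10,
   p599_11,
   p599_12,
   p599_13,
   p599_14,
   p599_15],
  [s6_7 (s2_3 p599_4),
   s6_7 (s2_3 p599_5),
   s6_7 (s2_3 p599_12),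
   s6_7 (s2_3 p599_13),
   p599_20,
   p599_21,
   p599_22,
   p599_23],
  [s6_7 (s2_3 p599_6),
   s6_7 (s2_3 p599_7),
   s6_7 (s2_3 p599_14),
   s6_7 (s2_3 p599_15),
   s6_7 (s2_3 p599_22),
   s6_7 (s2_3 p599_23),
   p599_30,
   p599_31],
  [p599_32,
   p599_33,
   p599_34,
   p599_35,
   p599_36,
   p599_37,
   p599_38,
   p599_39],
  [s6_7 (s2_3 p599_34),
   s6_7 (s2_3 p599_35),
   p599_42,
   p599_43,
   p599_44,
   p599_45,
   p599_46,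
   p599_47],
  [s6_7 (s2_3 p599_36),
   s6_7 (s2_3 p599_37),
   s6_7 (s2_3 p599_44),
   s6_7 (s2_3 p599_45),
   p599_52,
   p599_53,
   p599_54,
   p599_55],
  [s6_7 (s2_3 p599_38),
   s6_7 (s2_3 p599_39),
   s6_7 (s2_3 p599_46),
   s6_7 (s2_3 p599_47),
   s6_7 (s2_3 p599_54),
   s6_7 (s2_3 p599_55),
   p599_62,
   p599_63]]

theorem k599 : eqNN c599 (slO 64 (D.chG 187 0) 8) = true := by decide +kernel

end Pool.Agent.Lib.MP_afdd4d_co.K10.E6
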