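import Pool.Agent.Lib.MP_afdd4d_co.K10.E6.Dat
import Pool.Agent.Lib.MP_afdd4d_co.K10.E6.Mk
import Pool.Agent.Lib.MP_afdd4d_co.K8.F6Bl5
import Pool.Agent.Lib.MP_afdd4d_co.K10.E6.P0
import Pool.Agent.Lib.MP_afdd4d_co.K10.E6.P1
import Pool.Agent.Lib.MP_afdd4d_co.K10.E6.P2
import Pool.Agent.Lib.MP_afdd4d_co.K10.E6.P3
import Pool.Agent.Lib.MP_afdd4d_co.K10.E6.P4
import Pool.Agent.Lib.MP_afdd4d_co.K10.E6.P5
import Pool.Agent.Lib.MP_afdd4d_co.K10.E6.P6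
import Pool.Agent.Lib.MP_afdd4d_co.K10.E6.P7
import Pool.Agent.Lib.MP_afdd4d_co.K10.E6.P8
import Pool.Agent.Lib.MP_afdd4d_co.K10.E6.P9
import Pool.Agent.Lib.MP_afdd4d_co.K10.E6.P10
import Pool.Agent.Lib.MP_afdd4d_co.K10.E6.P11
import Pool.Agent.Lib.MP_afdd4d_co.K10.E6.P12
import Pool.Agent.Lib.MP_afdd4d_co.K10.E6.P13
import Pool.Agent.Lib.MP_afdd4d_co.K10.E6.P14
import Pool.Agent.Lib.MP_afdd4d_co.K10.E6.P15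
import Pool.Agent.Lib.MP_afdd4d_co.K10.E6.P16
import Pool.Agent.Lib.MP_afdd4d_co.K10.E6.P17
import Pool.Agent.Lib.MP_afdd4d_co.K10.E6.P18
import Pool.Agent.Lib.MP_afdd4d_co.K10.E6.P19
import Pool.Agent.Lib.MP_afdd4d_co.K10.E6.P20
import Pool.Agent.Lib.MP_afdd4d_co.K10.E6.P21
import Pool.Agent.Lib.MP_afdd4d_co.K10.E6.P22
import Pool.Agent.Lib.MP_afdd4d_co.K10.E6.P23
import Pool.Agent.Lib.MP_afdd4d_co.K10.E6.P24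
import Pool.Agent.Lib.MP_afdd4d_co.K10.E6.P25
import Pool.Agent.Lib.MP_afdd4d_co.K10.E6.P26
import Pool.Agent.Lib.MP_afdd4d_co.K10.E6.P27
import Pool.Agent.Lib.MP_afdd4d_co.K10.E6.P28
import Pool.Agent.Lib.MP_afdd4d_co.K10.E6.P29
import Pool.Agent.Lib.MP_afdd4d_co.K10.E6.P30
import Pool.Agent.Lib.MP_afdd4d_co.K10.E6.P31
import Pool.Agent.Lib.MP_afdd4d_co.K10.E6.P32

/-!
# Tables
-/

namespace Pool.Agent.Lib.MP_afdd4d_co.K10.E6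

open K8

set_option maxRecDepth 100000
set_option exponentiation.threshold 10000000

/-- The slices of the chunk 60. -/
noncomputable def c60 : List (List ℕ) := [
  [tr p51_15,
   tr p52_15,
   s3_7 (s2_5 (s1_6 (s0_4 p52_15))),
   tr p53_15,
   tr p54_15,
   p60_5,
   s5_6 (s1_2 p60_5),
   tr p56_15],
  [s3_5 (s2_6 (s1_7 (s0_4 p52_43))),
   s3_6 (s2_7 (s1_5 (s0_4 p53_27))),
   s6_7 (s5_6 (s3_6 (s2_5 (s1_7 (s0_4 p53_27))))),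
   tr p57_15,
   tr p58_15,
   p60_13,
   s5_6 (s1_2 p60_13),
   p60_15],
  [s3_6 (s2_7 (s1_5 (s0_4 p54_27))),
   p60_17,
   s3_6 (s2_7 (s1_5 (s0_4 p58_27))),
   p60_19,
   p60_20,
   p60_21,
   p60_22,
   p60_23],
  [s5_6 (s1_2 p60_40),
   s3_6 (s2_7 (s1_5 (s0_4 p56_27))),
   s5_6 (s1_2 p60_41),
   p60_27,
   p60_28,
   p60_29,
   p60_30,
   p60_31],
  [s6_7 (s5_6 (s3_6 (s2_5 (s1_7 (s0_4 p54_27))))),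
   s6_7 (s5_6 (s3_6 (s2_5 (s1_7 (s0_4 p58_27))))),
   s5_6 (s1_2 p60_17),
   s5_6 (s1_2 p60_19),
   s5_6 (s1_2 p60_20),
   s5_6 (s1_2 p60_22),
   s5_6 (s1_2 p60_21),
   s5_6 (s1_2 p60_23)],
  [p60_40,
   p60_41,
   s6_7 (s5_6 (s3_6 (s2_5 (s1_7 (s0_4 p56_27))))),
   s5_6 (s1_2 p60_27),
   s5_6 (s1_2 p60_28),
   s5_6 (s1_2 p60_30),
   s5_6 (s1_2 p60_29),
   s5_6 (s1_2 p60_31)],
  [p60_48,
   s5_6 (s1_2 p60_50),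
   p60_50,
   p60_51,
   tr p67_15,
   p60_53,
   s5_6 (s1_2 p60_53),
   p60_55],
  [p60_56,
   s5_6 (s1_2 p60_58),
   p60_58,
   p60_59,
   p60_60,
   p60_61,
   s5_6 (s1_2 p60_61),
   tr p70_15]]

theorem k60 : eqNN c60 (slO 64 (D.chG 7 15) 8) = true := by decide +kernel

/-- The slices of the chunk 61. -/
noncomputable def c61 : List (List ℕ) := [
  [tr p51_20,
   tr p52_20,
   s3_7 (s2_5 (s1_6 (s0_4 p52_36))),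
   tr p53_20,
   tr p54_20,
   p61_5,
   p61_6,
   tr p56_20],
  [s6_7 (s5_7 (s3_5 (s2_7 (s1_6 (s0_4 p52_36))))),
   s3_6 (s2_7 (s1_5 (s0_4 p53_20))),
   s3_5 (s2_6 (s1_7 (s0_4 p53_48))),
   tr p57_20,
   tr p58_20,
   p61_13,
   p61_14,
   tr p60_20],
  [s3_6 (s2_7 (s1_5 (s0_4 p54_20))),
   s6_7 (s2_3 p61_5),
   s3_6 (s2_7 (s1_5 (s0_4 p58_20))),
   s6_7 (s2_3 p61_13),
   p61_20,
   p61_21,
   p61_22,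
   p61_23],
  [s6_7 (s2_3 p61_6),
   s3_6 (s2_7 (s1_5 (s0_4 p56_20))),
   s6_7 (s2_3 p61_14),
   s3_6 (s2_7 (s1_5 (s0_4 p60_20))),
   s6_7 (s2_3 p61_22),
   s6_7 (s2_3 p61_23),
   p61_30,
   p61_31],
  [s3_5 (s2_6 (s1_7 (s0_4 p54_48))),
   s3_5 (s2_6 (s1_7 (s0_4 p58_48))),
   s6_7 (s2_3 p61_40),
   s6_7 (s2_3 p61_41),
   p61_36,
   p61_37,
   p61_38,
   p61_39],
  [p61_40,
   p61_41,
   s3_5 (s2_6 (s1_7 (s0_4 p56_48))),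
   s3_5 (s2_6 (s1_7 (s0_4 p60_48))),
   s6_7 (s2_3 p61_50),
   p61_45,
   s6_7 (s2_3 p61_58),
   p61_47],
  [s6_7 (s2_3 p61_36),
   s6_7 (s2_3 p61_37),
   p61_50,
   s6_7 (s2_3 p61_45),
   tr p67_20,
   p61_53,
   p61_54,
   p61_55],
  [s6_7 (s2_3 p61_38),
   s6_7 (s2_3 p61_39),
   p61_58,
   s6_7 (s2_3 p61_47),
   s6_7 (s2_3 p61_54),
   s6_7 (s2_3 p61_55),
   p61_62,
   tr p70_20]]

theorem k61 : eqNN c61 (slO 64 (D.chG 7 20) 8) = true := by decide +kernel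

/-- The slices of the chunk 62. -/
noncomputable def c62 : List (List ℕ) := [
  [tr p51_21,
   tr p52_21,
   s3_7 (s2_5 (s1_6 (s0_4 p52_38))),
   tr p53_21,
   tr p54_21,
   p62_5,
   p62_6,
   tr p56_21],
  [s6_7 (s5_7 (s3_5 (s2_7 (s1_6 (s0_4 p52_38))))),
   s3_6 (s2_7 (s1_5 (s0_4 p53_21))),
   s3_5 (s2_6 (s1_7 (s0_4 p53_56))),
   tr p57_21,
   tr p58_21,
   p62_13,
   p62_14,
   tr p60_21],
  [s3_6 (s2_7 (s1_5 (s0_4 p54_21))),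
   s6_7 (s2_3 p62_5),
   s3_6 (s2_7 (s1_5 (s0_4 p58_21))),
   s6_7 (s2_3 p62_13),
   tr p61_21,
   p62_21,
   p62_22,
   p62_23],
  [s6_7 (s2_3 p62_6),
   s3_6 (s2_7 (s1_5 (s0_4 p56_21))),
   s6_7 (s2_3 p62_14),
   s3_6 (s2_7 (s1_5 (s0_4 p60_21))),
   s6_7 (s2_3 p62_22),
   s6_7 (s2_3 p62_23),
   p62_30,
   p62_31],
  [s3_5 (s2_6 (s1_7 (s0_4 p54_56))),
   s3_5 (s2_6 (s1_7 (s0_4 p58_56))),
   s6_7 (s2_3 p62_40),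
   s6_7 (s2_3 p62_41),
   s3_7 (s2_5 (s1_6 (s0_4 p61_38))),
   p62_37,
   p62_38,
   p62_39],
  [p62_40,
   p62_41,
   s3_5 (s2_6 (s1_7 (s0_4 p56_56))),
   s3_5 (s2_6 (s1_7 (s0_4 p60_56))),
   s6_7 (s2_3 p62_50),
   p62_45,
   s6_7 (s2_3 p62_58),
   p62_47],
  [s6_7 (s5_7 (s3_5 (s2_7 (s1_6 (s0_4 p61_38))))),
   s6_7 (s2_3 p62_37),
   p62_50,
   s6_7 (s2_3 p62_45),
   tr p67_21,
   p62_53,
   p62_54,
   p62_55],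
  [s6_7 (s2_3 p62_38),
   s6_7 (s2_3 p62_39),
   p62_58,
   s6_7 (s2_3 p62_47),
   s6_7 (s2_3 p62_54),
   s6_7 (s2_3 p62_55),
   p62_62,
   tr p70_21]]

theorem k62 : eqNN c62 (slO 64 (D.chG 7 21) 8) = true := by decide +kernel

/-- The slices of the chunk 63. -/
noncomputable def c63 : List (List ℕ) := [
  [tr p51_22,
   tr p52_22,
   s3_7 (s2_5 (s1_6 (s0_4 p52_37))),
   tr p53_22,
   tr p54_22,
   tr p55_22,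
   s3_7 (s2_5 (s1_6 (s0_4 p55_37))),
   tr p56_22],
  [s3_5 (s2_6 (s1_7 (s0_4 p52_50))),
   s3_6 (s2_7 (s1_5 (s0_4 p53_28))),
   s3_5 (s2_6 (s1_7 (s0_4 p53_50))),
   tr p57_22,
   tr p58_22,
   tr p59_22,
   s3_7 (s2_5 (s1_6 (s0_4 p59_37))),
   tr p60_22],
  [s3_6 (s2_7 (s1_5 (s0_4 p54_28))),
   s3_6 (s2_7 (s1_5 (s0_4 p55_28))),
   s3_6 (s2_7 (s1_5 (s0_4 p58_28))),
   s3_6 (s2_7 (s1_5 (s0_4 p59_28))),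
   tr p61_22,
   tr p62_22,
   p63_22,
   p63_23],
  [s6_7 (s5_7 (s3_5 (s2_7 (s1_6 (s0_4 p55_44))))),
   s3_6 (s2_7 (s1_5 (s0_4 p56_28))),
   s6_7 (s5_7 (s3_5 (s2_7 (s1_6 (s0_4 p59_44))))),
   s3_6 (s2_7 (s1_5 (s0_4 p60_28))),
   p63_28,
   p63_29,
   tr p65_22,
   tr p66_22],
  [s3_5 (s2_6 (s1_7 (s0_4 p54_50))),
   s3_5 (s2_6 (s1_7 (s0_4 p58_50))),
   s6_7 (s5_6 (s3_6 (s2_5 (s1_7 (s0_4 p55_49))))),
   s6_7 (s5_6 (s3_6 (s2_5 (s1_7 (s0_4 p59_49))))),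
   s3_7 (s2_5 (s1_6 (s0_4 p61_37))),
   p63_37,
   s3_7 (s2_5 (s1_6 (s0_4 p62_37))),
   p63_39],
  [s3_5 (s2_6 (s1_7 (s0_4 p55_50))),
   s3_5 (s2_6 (s1_7 (s0_4 p59_50))),
   s3_5 (s2_6 (s1_7 (s0_4 p56_50))),
   s3_5 (s2_6 (s1_7 (s0_4 p60_50))),
   p63_44,
   s3_7 (s2_5 (s1_6 (s0_4 p65_37))),
   p63_46,
   s3_7 (s2_5 (s1_6 (s0_4 p66_37)))],
  [s3_5 (s2_6 (s1_7 (s0_4 p61_50))),
   s6_7 (s5_7 (s3_5 (s2_7 (s1_6 (s0_4 p63_44))))),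
   p63_50,
   s3_5 (s2_6 (s1_7 (s0_4 p65_50))),
   tr p67_22,
   tr p68_22,
   s3_7 (s2_5 (s1_6 (s0_4 p68_37))),
   tr p69_22],
  [s3_5 (s2_6 (s1_7 (s0_4 p62_50))),
   p63_57,
   p63_58,
   s3_5 (s2_6 (s1_7 (s0_4 p66_50))),
   s3_5 (s2_6 (s1_7 (s0_4 p68_50))),
   s3_6 (s2_7 (s1_5 (s0_4 p69_28))),
   s3_5 (s2_6 (s1_7 (s0_4 p69_50))),
   tr p70_22]]

theorem k63 : eqNN c63 (slO 64 (D.chG 7 22) 8) = true := by decide +kernel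

end Pool.Agent.Lib.MP_afdd4d_co.K10.E6
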