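import Pool.Agent.Lib.MP_afdd4d_co.K10.E6.Dat
import Pool.Agent.Lib.MP_afdd4d_co.K10.E6.Mk
import Pool.Agent.Lib.MP_afdd4d_co.K8.F6Bl5
import Pool.Agent.Lib.MP_afdd4d_co.K10.E6.P0
import Pool.Agent.Lib.MP_afdd4d_co.K10.E6.P1
import Pool.Agent.Lib.MP_afdd4d_co.K10.E6.P2
import Pool.Agent.Lib.MP_afdd4d_co.K10.E6.P3
import Pool.Agent.Lib.MP_afdd4d_co.K10.E6.P4
import Pool.Agent.Lib.MP_afdd4d_co.K10.E6.P5
import Pool.Agent.Lib.MP_afdd4d_co.K10.E6.P6
import Pool.Agent.Lib.MP_afdd4d_co.K10.E6.P7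
import Pool.Agent.Lib.MP_afdd4d_co.K10.E6.P8
import Pool.Agent.Lib.MP_afdd4d_co.K10.E6.P9
import Pool.Agent.Lib.MP_afdd4d_co.K10.E6.P10
import Pool.Agent.Lib.MP_afdd4d_co.K10.E6.P11
import Pool.Agent.Lib.MP_afdd4d_co.K10.E6.P12
import Pool.Agent.Lib.MP_afdd4d_co.K10.E6.P13
import Pool.Agent.Lib.MP_afdd4d_co.K10.E6.P14
import Pool.Agent.Lib.MP_afdd4d_co.K10.E6.P15
import Pool.Agent.Lib.MP_afdd4d_co.K10.E6.P16
import Pool.Agent.Lib.MP_afdd4d_co.K10.E6.P17
import Pool.Agent.Lib.MP_afdd4d_co.K10.E6.P18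
import Pool.Agent.Lib.MP_afdd4d_co.K10.E6.P19
import Pool.Agent.Lib.MP_afdd4d_co.K10.E6.P20
import Pool.Agent.Lib.MP_afdd4d_co.K10.E6.P21
import Pool.Agent.Lib.MP_afdd4d_co.K10.E6.P22
import Pool.Agent.Lib.MP_afdd4d_co.K10.E6.P23
import Pool.Agent.Lib.MP_afdd4d_co.K10.E6.P24
import Pool.Agent.Lib.MP_afdd4d_co.K10.E6.P25
import Pool.Agent.Lib.MP_afdd4d_co.K10.E6.P26
import Pool.Agent.Lib.MP_afdd4d_co.K10.E6.P27
import Pool.Agent.Lib.MP_afdd4d_co.K10.E6.P28
import Pool.Agent.Lib.MP_afdd4d_co.K10.E6.P29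
import Pool.Agent.Lib.MP_afdd4d_co.K10.E6.P30
import Pool.Agent.Lib.MP_afdd4d_co.K10.E6.P31
import Pool.Agent.Lib.MP_afdd4d_co.K10.E6.P32

/-!
# Tables
-/

namespace Pool.Agent.Lib.MP_afdd4d_co.K10.E6

open K8

set_option maxRecDepth 100000
set_option exponentiation.threshold 10000000

/-- The slices of the chunk 600. -/
noncomputable def c600 : List (List ℕ) := [
  [tr p599_1,
   p600_1,
   p600_2,
   p600_3,
   p600_4,
   p600_5,
   p600_6,
   p600_7],
  [s6_7 (s2_3 p600_2),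
   s6_7 (s2_3 p600_3),
   p600_10,
   p600_11,
   p600_12,
   p600_13,
   p600_14,
   p600_15],
  [s6_7 (s2_3 p600_4),
   s6_7 (s2_3 p600_5),
   s6_7 (s2_3 p600_12),
   s6_7 (s2_3 p600_13),
   p600_20,
   p600_21,
   p600_22,
   p600_23],
  [s6_7 (s2_3 p600_6),
   s6_7 (s2_3 p600_7),
   s6_7 (s2_3 p600_14),
   s6_7 (s2_3 p600_15),
   s6_7 (s2_3 p600_22),
   s6_7 (s2_3 p600_23),
   p600_30,
   p600_31],
  [p600_32,
   p600_33,
   p600_34,
   p600_35,
   p600_36,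
   p600_37,
   p600_38,
   p600_39],
  [s6_7 (s2_3 p600_34),
   s6_7 (s2_3 p600_35),
   p600_42,
   p600_43,
   p600_44,
   p600_45,
   p600_46,
   p600_47],
  [s6_7 (s2_3 p600_36),
   s6_7 (s2_3 p600_37),
   s6_7 (s2_3 p600_44),
   s6_7 (s2_3 p600_45),
   p600_52,
   p600_53,
   p600_54,
   p600_55],
  [s6_7 (s2_3 p600_38),
   s6_7 (s2_3 p600_39),
   s6_7 (s2_3 p600_46),
   s6_7 (s2_3 p600_47),
   s6_7 (s2_3 p600_54),
   s6_7 (s2_3 p600_55),
   p600_62,
   p600_63]]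

theorem k600 : eqNN c600 (slO 64 (D.chG 187 1) 8) = true := by decide +kernel

/-- The slices of the chunk 601. -/
noncomputable def c601 : List (List ℕ) := [
  [tr p599_2,
   tr p600_2,
   p601_2,
   p601_3,
   p601_4,
   p601_5,
   p601_6,
   p601_7],
  [p601_8,
   p601_9,
   tr p607_2,
   tr p608_2,
   p601_12,
   p601_13,
   p601_14,
   p601_15],
  [p601_16,
   p601_17,
   p601_18,
   p601_19,
   tr p613_2,
   tr p614_2,
   p601_22,
   p601_23],
  [p601_24,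
   p601_25,
   p601_26,
   p601_27,
   p601_28,
   p601_29,
   tr p617_2,
   tr p618_2],
  [tr p619_2,
   tr p620_2,
   p601_34,
   p601_35,
   p601_36,
   p601_37,
   p601_38,
   p601_39],
  [p601_40,
   p601_41,
   tr p627_2,
   tr p628_2,
   p601_44,
   p601_45,
   p601_46,
   p601_47],
  [p601_48,
   p601_49,
   p601_50,
   p601_51,
   tr p633_2,
   tr p634_2,
   p601_54,
   p601_55],
  [p601_56,
   p601_57,
   p601_58,
   p601_59,
   p601_60,
   p601_61,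
   tr p637_2,
   tr p638_2]]

theorem k601 : eqNN c601 (slO 64 (D.chG 187 2) 8) = true := by decide +kernel

/-- The slices of the chunk 602. -/
noncomputable def c602 : List (List ℕ) := [
  [tr p599_3,
   tr p600_3,
   tr p601_3,
   p602_3,
   p602_4,
   p602_5,
   p602_6,
   p602_7],
  [s3_6 (s2_7 (s1_5 (s0_4 p601_9))),
   p602_9,
   tr p607_3,
   tr p608_3,
   p602_12,
   p602_13,
   p602_14,
   p602_15],
  [p602_16,
   p602_17,
   p602_18,
   p602_19,
   tr p613_3,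
   tr p614_3,
   p602_22,
   p602_23],
  [p602_24,
   p602_25,
   p602_26,
   p602_27,
   p602_28,
   p602_29,
   tr p617_3,
   tr p618_3],
  [tr p619_3,
   tr p620_3,
   p602_34,
   p602_35,
   p602_36,
   p602_37,
   p602_38,
   p602_39],
  [p602_40,
   p602_41,
   tr p627_3,
   tr p628_3,
   p602_44,
   p602_45,
   p602_46,
   p602_47],
  [p602_48,
   p602_49,
   p602_50,
   p602_51,
   tr p633_3,
   tr p634_3,
   p602_54,
   p602_55],
  [p602_56,
   p602_57,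
   p602_58,
   p602_59,
   p602_60,
   p602_61,
   tr p637_3,
   tr p638_3]]

theorem k602 : eqNN c602 (slO 64 (D.chG 187 3) 8) = true := by decide +kernel

/-- The slices of the chunk 603. -/
noncomputable def c603 : List (List ℕ) := [
  [tr p599_4,
   tr p600_4,
   tr p601_4,
   tr p602_4,
   p603_4,
   p603_5,
   p603_6,
   p603_7],
  [s3_6 (s2_7 (s1_5 (s0_4 p601_16))),
   s3_6 (s2_7 (s1_5 (s0_4 p602_16))),
   tr p607_4,
   tr p608_4,
   p603_12,
   p603_13,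
   p603_14,
   p603_15],
  [p603_16,
   p603_17,
   p603_18,
   p603_19,
   tr p613_4,
   tr p614_4,
   p603_22,
   p603_23],
  [p603_24,
   p603_25,
   p603_26,
   p603_27,
   p603_28,
   p603_29,
   tr p617_4,
   tr p618_4],
  [tr p619_4,
   tr p620_4,
   p603_34,
   p603_35,
   p603_36,
   p603_37,
   p603_38,
   p603_39],
  [p603_40,
   p603_41,
   tr p627_4,
   tr p628_4,
   p603_44,
   p603_45,
   p603_46,
   p603_47],
  [p603_48,
   p603_49,
   p603_50,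
   p603_51,
   tr p633_4,
   tr p634_4,
   p603_54,
   p603_55],
  [p603_56,
   p603_57,
   p603_58,
   p603_59,
   p603_60,
   p603_61,
   tr p637_4,
   tr p638_4]]

theorem k603 : eqNN c603 (slO 64 (D.chG 187 4) 8) = true := by decide +kernel

end Pool.Agent.Lib.MP_afdd4d_co.K10.E6
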