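import Pool.Agent.Lib.MP_afdd4d_co.K10.E6.Dat
import Pool.Agent.Lib.MP_afdd4d_co.K10.E6.Mk
import Pool.Agent.Lib.MP_afdd4d_co.K8.F6Bl5
import Pool.Agent.Lib.MP_afdd4d_co.K10.E6.P0
import Pool.Agent.Lib.MP_afdd4d_co.K10.E6.P1
import Pool.Agent.Lib.MP_afdd4d_co.K10.E6.P2
import Pool.Agent.Lib.MP_afdd4d_co.K10.E6.P3
import Pool.Agent.Lib.MP_afdd4d_co.K10.E6.P4
import Pool.Agent.Lib.MP_afdd4d_co.K10.E6.P5
import Pool.Agent.Lib.MP_afdd4d_co.K10.E6.P6
import Pool.Agent.Lib.MP_afdd4d_co.K10.E6.P7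
import Pool.Agent.Lib.MP_afdd4d_co.K10.E6.P8
import Pool.Agent.Lib.MP_afdd4d_co.K10.E6.P9
import Pool.Agent.Lib.MP_afdd4d_co.K10.E6.P10
import Pool.Agent.Lib.MP_afdd4d_co.K10.E6.P11
import Pool.Agent.Lib.MP_afdd4d_co.K10.E6.P12
import Pool.Agent.Lib.MP_afdd4d_co.K10.E6.P13
import Pool.Agent.Lib.MP_afdd4d_co.K10.E6.P14
import Pool.Agent.Lib.MP_afdd4d_co.K10.E6.P15
import Pool.Agent.Lib.MP_afdd4d_co.K10.E6.P16
import Pool.Agent.Lib.MP_afdd4d_co.K10.E6.P17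
import Pool.Agent.Lib.MP_afdd4d_co.K10.E6.P18
import Pool.Agent.Lib.MP_afdd4d_co.K10.E6.P19
import Pool.Agent.Lib.MP_afdd4d_co.K10.E6.P20
import Pool.Agent.Lib.MP_afdd4d_co.K10.E6.P21
import Pool.Agent.Lib.MP_afdd4d_co.K10.E6.P22
import Pool.Agent.Lib.MP_afdd4d_co.K10.E6.P23
import Pool.Agent.Lib.MP_afdd4d_co.K10.E6.P24
import Pool.Agent.Lib.MP_afdd4d_co.K10.E6.P25
import Pool.Agent.Lib.MP_afdd4d_co.K10.E6.P26
import Pool.Agent.Lib.MP_afdd4d_co.K10.E6.P27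
import Pool.Agent.Lib.MP_afdd4d_co.K10.E6.P28
import Pool.Agent.Lib.MP_afdd4d_co.K10.E6.P29
import Pool.Agent.Lib.MP_afdd4d_co.K10.E6.P30
import Pool.Agent.Lib.MP_afdd4d_co.K10.E6.P31
import Pool.Agent.Lib.MP_afdd4d_co.K10.E6.P32

/-!
# Tables
-/

namespace Pool.Agent.Lib.MP_afdd4d_co.K10.E6

open K8

set_option maxRecDepth 100000
set_option exponentiation.threshold 10000000

/-- The slices of the chunk 604. -/
noncomputable def c604 : List (List ℕ) := [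
  [tr p599_5,
   tr p600_5,
   tr p601_5,
   tr p602_5,
   tr p603_5,
   p604_5,
   p604_6,
   p604_7],
  [s3_6 (s2_7 (s1_5 (s0_4 p601_17))),
   s3_6 (s2_7 (s1_5 (s0_4 p602_17))),
   tr p607_5,
   tr p608_5,
   p604_12,
   p604_13,
   p604_14,
   p604_15],
  [s3_6 (s2_7 (s1_5 (s0_4 p603_17))),
   p604_17,
   p604_18,
   p604_19,
   tr p613_5,
   tr p614_5,
   p604_22,
   p604_23],
  [p604_24,
   p604_25,
   p604_26,
   p604_27,
   p604_28,
   p604_29,
   tr p617_5,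
   tr p618_5],
  [tr p619_5,
   tr p620_5,
   p604_34,
   p604_35,
   p604_36,
   p604_37,
   p604_38,
   p604_39],
  [p604_40,
   p604_41,
   tr p627_5,
   tr p628_5,
   p604_44,
   p604_45,
   p604_46,
   p604_47],
  [p604_48,
   p604_49,
   p604_50,
   p604_51,
   tr p633_5,
   tr p634_5,
   p604_54,
   p604_55],
  [p604_56,
   p604_57,
   p604_58,
   p604_59,
   p604_60,
   p604_61,
   tr p637_5,
   tr p638_5]]

theorem k604 : eqNN c604 (slO 64 (D.chG 187 5) 8) = true := by decide +kernel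

/-- The slices of the chunk 605. -/
noncomputable def c605 : List (List ℕ) := [
  [tr p599_6,
   tr p600_6,
   tr p601_6,
   tr p602_6,
   tr p603_6,
   tr p604_6,
   p605_6,
   p605_7],
  [s3_6 (s2_7 (s1_5 (s0_4 p601_24))),
   s3_6 (s2_7 (s1_5 (s0_4 p602_24))),
   tr p607_6,
   tr p608_6,
   p605_12,
   p605_13,
   p605_14,
   p605_15],
  [s3_6 (s2_7 (s1_5 (s0_4 p603_24))),
   s3_6 (s2_7 (s1_5 (s0_4 p604_24))),
   p605_18,
   p605_19,
   tr p613_6,
   tr p614_6,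
   p605_22,
   p605_23],
  [p605_24,
   p605_25,
   p605_26,
   p605_27,
   p605_28,
   p605_29,
   tr p617_6,
   tr p618_6],
  [tr p619_6,
   tr p620_6,
   p605_34,
   p605_35,
   p605_36,
   p605_37,
   p605_38,
   p605_39],
  [p605_40,
   p605_41,
   tr p627_6,
   tr p628_6,
   p605_44,
   p605_45,
   p605_46,
   p605_47],
  [p605_48,
   p605_49,
   p605_50,
   p605_51,
   tr p633_6,
   tr p634_6,
   p605_54,
   p605_55],
  [p605_56,
   p605_57,
   p605_58,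
   p605_59,
   p605_60,
   p605_61,
   tr p637_6,
   tr p638_6]]

theorem k605 : eqNN c605 (slO 64 (D.chG 187 6) 8) = true := by decide +kernel

/-- The slices of the chunk 606. -/
noncomputable def c606 : List (List ℕ) := [
  [tr p599_7,
   tr p600_7,
   tr p601_7,
   tr p602_7,
   tr p603_7,
   tr p604_7,
   tr p605_7,
   p606_7],
  [s3_6 (s2_7 (s1_5 (s0_4 p601_25))),
   s3_6 (s2_7 (s1_5 (s0_4 p602_25))),
   tr p607_7,
   tr p608_7,
   p606_12,
   p606_13,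
   p606_14,
   p606_15],
  [s3_6 (s2_7 (s1_5 (s0_4 p603_25))),
   s3_6 (s2_7 (s1_5 (s0_4 p604_25))),
   p606_18,
   p606_19,
   tr p613_7,
   tr p614_7,
   p606_22,
   p606_23],
  [s3_6 (s2_7 (s1_5 (s0_4 p605_25))),
   p606_25,
   p606_26,
   p606_27,
   p606_28,
   p606_29,
   tr p617_7,
   tr p618_7],
  [tr p619_7,
   tr p620_7,
   p606_34,
   p606_35,
   p606_36,
   p606_37,
   p606_38,
   p606_39],
  [p606_40,
   p606_41,
   tr p627_7,
   tr p628_7,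
   p606_44,
   p606_45,
   p606_46,
   p606_47],
  [p606_48,
   p606_49,
   p606_50,
   p606_51,
   tr p633_7,
   tr p634_7,
   p606_54,
   p606_55],
  [p606_56,
   p606_57,
   p606_58,
   p606_59,
   p606_60,
   p606_61,
   tr p637_7,
   tr p638_7]]

theorem k606 : eqNN c606 (slO 64 (D.chG 187 7) 8) = true := by decide +kernel

/-- The slices of the chunk 607. -/
noncomputable def c607 : List (List ℕ) := [
  [tr p599_10,
   tr p600_10,
   p607_2,
   p607_3,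
   p607_4,
   p607_5,
   p607_6,
   p607_7],
  [s6_7 (s2_3 p607_2),
   s6_7 (s2_3 p607_3),
   p607_10,
   p607_11,
   p607_12,
   p607_13,
   p607_14,
   p607_15],
  [s6_7 (s2_3 p607_4),
   s6_7 (s2_3 p607_5),
   s6_7 (s2_3 p607_12),
   s6_7 (s2_3 p607_13),
   p607_20,
   p607_21,
   p607_22,
   p607_23],
  [s6_7 (s2_3 p607_6),
   s6_7 (s2_3 p607_7),
   s6_7 (s2_3 p607_14),
   s6_7 (s2_3 p607_15),
   s6_7 (s2_3 p607_22),
   s6_7 (s2_3 p607_23),
   p607_30,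
   p607_31],
  [p607_32,
   p607_33,
   p607_34,
   p607_35,
   p607_36,
   p607_37,
   p607_38,
   p607_39],
  [s6_7 (s2_3 p607_34),
   s6_7 (s2_3 p607_35),
   p607_42,
   p607_43,
   p607_44,
   p607_45,
   p607_46,
   p607_47],
  [s6_7 (s2_3 p607_36),
   s6_7 (s2_3 p607_37),
   s6_7 (s2_3 p607_44),
   s6_7 (s2_3 p607_45),
   p607_52,
   p607_53,
   p607_54,
   p607_55],
  [s6_7 (s2_3 p607_38),
   s6_7 (s2_3 p607_39),
   s6_7 (s2_3 p607_46),
   s6_7 (s2_3 p607_47),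
   s6_7 (s2_3 p607_54),
   s6_7 (s2_3 p607_55),
   p607_62,
   p607_63]]

theorem k607 : eqNN c607 (slO 64 (D.chG 187 10) 8) = true := by decide +kernel

end Pool.Agent.Lib.MP_afdd4d_co.K10.E6
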