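import Pool.Agent.Lib.MP_afdd4d_co.K10.E6.Dat
import Pool.Agent.Lib.MP_afdd4d_co.K10.E6.Mk
import Pool.Agent.Lib.MP_afdd4d_co.K8.F6Bl5
import Pool.Agent.Lib.MP_afdd4d_co.K10.E6.P0
import Pool.Agent.Lib.MP_afdd4d_co.K10.E6.P1
import Pool.Agent.Lib.MP_afdd4d_co.K10.E6.P2
import Pool.Agent.Lib.MP_afdd4d_co.K10.E6.P3
import Pool.Agent.Lib.MP_afdd4d_co.K10.E6.P4
import Pool.Agent.Lib.MP_afdd4d_co.K10.E6.P5
import Pool.Agent.Lib.MP_afdd4d_co.K10.E6.P6
import Pool.Agent.Lib.MP_afdd4d_co.K10.E6.P7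
import Pool.Agent.Lib.MP_afdd4d_co.K10.E6.P8
import Pool.Agent.Lib.MP_afdd4d_co.K10.E6.P9
import Pool.Agent.Lib.MP_afdd4d_co.K10.E6.P10
import Pool.Agent.Lib.MP_afdd4d_co.K10.E6.P11
import Pool.Agent.Lib.MP_afdd4d_co.K10.E6.P12
import Pool.Agent.Lib.MP_afdd4d_co.K10.E6.P13
import Pool.Agent.Lib.MP_afdd4d_co.K10.E6.P14
import Pool.Agent.Lib.MP_afdd4d_co.K10.E6.P15
import Pool.Agent.Lib.MP_afdd4d_co.K10.E6.P16
import Pool.Agent.Lib.MP_afdd4d_co.K10.E6.P17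
import Pool.Agent.Lib.MP_afdd4d_co.K10.E6.P18
import Pool.Agent.Lib.MP_afdd4d_co.K10.E6.P19
import Pool.Agent.Lib.MP_afdd4d_co.K10.E6.P20
import Pool.Agent.Lib.MP_afdd4d_co.K10.E6.P21
import Pool.Agent.Lib.MP_afdd4d_co.K10.E6.P22
import Pool.Agent.Lib.MP_afdd4d_co.K10.E6.P23
import Pool.Agent.Lib.MP_afdd4d_co.K10.E6.P24
import Pool.Agent.Lib.MP_afdd4d_co.K10.E6.P25
import Pool.Agent.Lib.MP_afdd4d_co.K10.E6.P26
import Pool.Agent.Lib.MP_afdd4d_co.K10.E6.P27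
import Pool.Agent.Lib.MP_afdd4d_co.K10.E6.P28
import Pool.Agent.Lib.MP_afdd4d_co.K10.E6.P29
import Pool.Agent.Lib.MP_afdd4d_co.K10.E6.P30
import Pool.Agent.Lib.MP_afdd4d_co.K10.E6.P31
import Pool.Agent.Lib.MP_afdd4d_co.K10.E6.P32

/-!
# Tables
-/

namespace Pool.Agent.Lib.MP_afdd4d_co.K10.E6

open K8

set_option maxRecDepth 100000
set_option exponentiation.threshold 10000000

/-- The slices of the chunk 608. -/
noncomputable def c608 : List (List ℕ) := [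
  [tr p599_11,
   tr p600_11,
   p608_2,
   p608_3,
   p608_4,
   p608_5,
   p608_6,
   p608_7],
  [s6_7 (s2_3 p608_2),
   s6_7 (s2_3 p608_3),
   tr p607_11,
   p608_11,
   p608_12,
   p608_13,
   p608_14,
   p608_15],
  [s6_7 (s2_3 p608_4),
   s6_7 (s2_3 p608_5),
   s6_7 (s2_3 p608_12),
   s6_7 (s2_3 p608_13),
   p608_20,
   p608_21,
   p608_22,
   p608_23],
  [s6_7 (s2_3 p608_6),
   s6_7 (s2_3 p608_7),
   s6_7 (s2_3 p608_14),
   s6_7 (s2_3 p608_15),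
   s6_7 (s2_3 p608_22),
   s6_7 (s2_3 p608_23),
   p608_30,
   p608_31],
  [p608_32,
   p608_33,
   p608_34,
   p608_35,
   p608_36,
   p608_37,
   p608_38,
   p608_39],
  [s6_7 (s2_3 p608_34),
   s6_7 (s2_3 p608_35),
   p608_42,
   p608_43,
   p608_44,
   p608_45,
   p608_46,
   p608_47],
  [s6_7 (s2_3 p608_36),
   s6_7 (s2_3 p608_37),
   s6_7 (s2_3 p608_44),
   s6_7 (s2_3 p608_45),
   p608_52,
   p608_53,
   p608_54,
   p608_55],
  [s6_7 (s2_3 p608_38),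
   s6_7 (s2_3 p608_39),
   s6_7 (s2_3 p608_46),
   s6_7 (s2_3 p608_47),
   s6_7 (s2_3 p608_54),
   s6_7 (s2_3 p608_55),
   p608_62,
   p608_63]]

theorem k608 : eqNN c608 (slO 64 (D.chG 187 11) 8) = true := by decide +kernel

/-- The slices of the chunk 609. -/
noncomputable def c609 : List (List ℕ) := [
  [tr p599_12,
   tr p600_12,
   tr p601_12,
   tr p602_12,
   tr p603_12,
   tr p604_12,
   tr p605_12,
   tr p606_12],
  [s3_6 (s2_7 (s1_5 (s0_4 p601_18))),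
   s3_6 (s2_7 (s1_5 (s0_4 p602_18))),
   tr p607_12,
   tr p608_12,
   p609_12,
   p609_13,
   p609_14,
   p609_15],
  [s3_6 (s2_7 (s1_5 (s0_4 p603_18))),
   s3_6 (s2_7 (s1_5 (s0_4 p604_18))),
   p609_18,
   p609_19,
   tr p613_12,
   tr p614_12,
   p609_22,
   p609_23],
  [s3_6 (s2_7 (s1_5 (s0_4 p605_18))),
   s3_6 (s2_7 (s1_5 (s0_4 p606_18))),
   p609_26,
   p609_27,
   p609_28,
   p609_29,
   tr p617_12,
   tr p618_12],
  [tr p619_12,
   tr p620_12,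
   p609_34,
   p609_35,
   p609_36,
   p609_37,
   p609_38,
   p609_39],
  [p609_40,
   p609_41,
   tr p627_12,
   tr p628_12,
   p609_44,
   p609_45,
   p609_46,
   p609_47],
  [p609_48,
   p609_49,
   p609_50,
   p609_51,
   tr p633_12,
   tr p634_12,
   p609_54,
   p609_55],
  [p609_56,
   p609_57,
   p609_58,
   p609_59,
   p609_60,
   p609_61,
   tr p637_12,
   tr p638_12]]

theorem k609 : eqNN c609 (slO 64 (D.chG 187 12) 8) = true := by decide +kernel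

/-- The slices of the chunk 610. -/
noncomputable def c610 : List (List ℕ) := [
  [tr p599_13,
   tr p600_13,
   tr p601_13,
   tr p602_13,
   tr p603_13,
   tr p604_13,
   tr p605_13,
   tr p606_13],
  [s3_6 (s2_7 (s1_5 (s0_4 p601_19))),
   s3_6 (s2_7 (s1_5 (s0_4 p602_19))),
   tr p607_13,
   tr p608_13,
   tr p609_13,
   p610_13,
   p610_14,
   p610_15],
  [s3_6 (s2_7 (s1_5 (s0_4 p603_19))),
   s3_6 (s2_7 (s1_5 (s0_4 p604_19))),
   s3_6 (s2_7 (s1_5 (s0_4 p609_19))),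
   p610_19,
   tr p613_13,
   tr p614_13,
   p610_22,
   p610_23],
  [s3_6 (s2_7 (s1_5 (s0_4 p605_19))),
   s3_6 (s2_7 (s1_5 (s0_4 p606_19))),
   p610_26,
   p610_27,
   p610_28,
   p610_29,
   tr p617_13,
   tr p618_13],
  [tr p619_13,
   tr p620_13,
   p610_34,
   p610_35,
   p610_36,
   p610_37,
   p610_38,
   p610_39],
  [p610_40,
   p610_41,
   tr p627_13,
   tr p628_13,
   p610_44,
   p610_45,
   p610_46,
   p610_47],
  [p610_48,
   p610_49,
   p610_50,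
   p610_51,
   tr p633_13,
   tr p634_13,
   p610_54,
   p610_55],
  [p610_56,
   p610_57,
   p610_58,
   p610_59,
   p610_60,
   p610_61,
   tr p637_13,
   tr p638_13]]

theorem k610 : eqNN c610 (slO 64 (D.chG 187 13) 8) = true := by decide +kernel

/-- The slices of the chunk 611. -/
noncomputable def c611 : List (List ℕ) := [
  [tr p599_14,
   tr p600_14,
   tr p601_14,
   tr p602_14,
   tr p603_14,
   tr p604_14,
   tr p605_14,
   tr p606_14],
  [s3_6 (s2_7 (s1_5 (s0_4 p601_26))),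
   s3_6 (s2_7 (s1_5 (s0_4 p602_26))),
   tr p607_14,
   tr p608_14,
   tr p609_14,
   tr p610_14,
   p611_14,
   p611_15],
  [s3_6 (s2_7 (s1_5 (s0_4 p603_26))),
   s3_6 (s2_7 (s1_5 (s0_4 p604_26))),
   s3_6 (s2_7 (s1_5 (s0_4 p609_26))),
   s3_6 (s2_7 (s1_5 (s0_4 p610_26))),
   tr p613_14,
   tr p614_14,
   p611_22,
   p611_23],
  [s3_6 (s2_7 (s1_5 (s0_4 p605_26))),
   s3_6 (s2_7 (s1_5 (s0_4 p606_26))),
   p611_26,
   p611_27,
   p611_28,
   p611_29,
   tr p617_14,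
   tr p618_14],
  [tr p619_14,
   tr p620_14,
   p611_34,
   p611_35,
   p611_36,
   p611_37,
   p611_38,
   p611_39],
  [p611_40,
   p611_41,
   tr p627_14,
   tr p628_14,
   p611_44,
   p611_45,
   p611_46,
   p611_47],
  [p611_48,
   p611_49,
   p611_50,
   p611_51,
   tr p633_14,
   tr p634_14,
   p611_54,
   p611_55],
  [p611_56,
   p611_57,
   p611_58,
   p611_59,
   p611_60,
   p611_61,
   tr p637_14,
   tr p638_14]]

theorem k611 : eqNN c611 (slO 64 (D.chG 187 14) 8) = true := by decide +kernel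

end Pool.Agent.Lib.MP_afdd4d_co.K10.E6
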