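import Pool.Agent.Lib.MP_afdd4d_co.K10.E6.Dat
import Pool.Agent.Lib.MP_afdd4d_co.K10.E6.Mk
import Pool.Agent.Lib.MP_afdd4d_co.K8.F6Bl5
import Pool.Agent.Lib.MP_afdd4d_co.K10.E6.P0
import Pool.Agent.Lib.MP_afdd4d_co.K10.E6.P1
import Pool.Agent.Lib.MP_afdd4d_co.K10.E6.P2
import Pool.Agent.Lib.MP_afdd4d_co.K10.E6.P3
import Pool.Agent.Lib.MP_afdd4d_co.K10.E6.P4
import Pool.Agent.Lib.MP_afdd4d_co.K10.E6.P5
import Pool.Agent.Lib.MP_afdd4d_co.K10.E6.P6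
import Pool.Agent.Lib.MP_afdd4d_co.K10.E6.P7
import Pool.Agent.Lib.MP_afdd4d_co.K10.E6.P8
import Pool.Agent.Lib.MP_afdd4d_co.K10.E6.P9
import Pool.Agent.Lib.MP_afdd4d_co.K10.E6.P10
import Pool.Agent.Lib.MP_afdd4d_co.K10.E6.P11
import Pool.Agent.Lib.MP_afdd4d_co.K10.E6.P12
import Pool.Agent.Lib.MP_afdd4d_co.K10.E6.P13
import Pool.Agent.Lib.MP_afdd4d_co.K10.E6.P14
import Pool.Agent.Lib.MP_afdd4d_co.K10.E6.P15
import Pool.Agent.Lib.MP_afdd4d_co.K10.E6.P16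
import Pool.Agent.Lib.MP_afdd4d_co.K10.E6.P17
import Pool.Agent.Lib.MP_afdd4d_co.K10.E6.P18
import Pool.Agent.Lib.MP_afdd4d_co.K10.E6.P19
import Pool.Agent.Lib.MP_afdd4d_co.K10.E6.P20
import Pool.Agent.Lib.MP_afdd4d_co.K10.E6.P21
import Pool.Agent.Lib.MP_afdd4d_co.K10.E6.P22
import Pool.Agent.Lib.MP_afdd4d_co.K10.E6.P23
import Pool.Agent.Lib.MP_afdd4d_co.K10.E6.P24
import Pool.Agent.Lib.MP_afdd4d_co.K10.E6.P25
import Pool.Agent.Lib.MP_afdd4d_co.K10.E6.P26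
import Pool.Agent.Lib.MP_afdd4d_co.K10.E6.P27
import Pool.Agent.Lib.MP_afdd4d_co.K10.E6.P28
import Pool.Agent.Lib.MP_afdd4d_co.K10.E6.P29
import Pool.Agent.Lib.MP_afdd4d_co.K10.E6.P30
import Pool.Agent.Lib.MP_afdd4d_co.K10.E6.P31
import Pool.Agent.Lib.MP_afdd4d_co.K10.E6.P32

/-!
# Tables
-/

namespace Pool.Agent.Lib.MP_afdd4d_co.K10.E6

open K8

set_option maxRecDepth 100000
set_option exponentiation.threshold 10000000

/-- The slices of the chunk 612. -/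
noncomputable def c612 : List (List ℕ) := [
  [tr p599_15,
   tr p600_15,
   tr p601_15,
   tr p602_15,
   tr p603_15,
   tr p604_15,
   tr p605_15,
   tr p606_15],
  [s3_6 (s2_7 (s1_5 (s0_4 p601_27))),
   s3_6 (s2_7 (s1_5 (s0_4 p602_27))),
   tr p607_15,
   tr p608_15,
   tr p609_15,
   tr p610_15,
   tr p611_15,
   p612_15],
  [s3_6 (s2_7 (s1_5 (s0_4 p603_27))),
   s3_6 (s2_7 (s1_5 (s0_4 p604_27))),
   s3_6 (s2_7 (s1_5 (s0_4 p609_27))),
   s3_6 (s2_7 (s1_5 (s0_4 p610_27))),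
   tr p613_15,
   tr p614_15,
   p612_22,
   p612_23],
  [s3_6 (s2_7 (s1_5 (s0_4 p605_27))),
   s3_6 (s2_7 (s1_5 (s0_4 p606_27))),
   s3_6 (s2_7 (s1_5 (s0_4 p611_27))),
   p612_27,
   p612_28,
   p612_29,
   tr p617_15,
   tr p618_15],
  [tr p619_15,
   tr p620_15,
   p612_34,
   p612_35,
   p612_36,
   p612_37,
   p612_38,
   p612_39],
  [p612_40,
   p612_41,
   tr p627_15,
   tr p628_15,
   p612_44,
   p612_45,
   p612_46,
   p612_47],
  [p612_48,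
   p612_49,
   p612_50,
   p612_51,
   tr p633_15,
   tr p634_15,
   p612_54,
   p612_55],
  [p612_56,
   p612_57,
   p612_58,
   p612_59,
   p612_60,
   p612_61,
   tr p637_15,
   tr p638_15]]

theorem k612 : eqNN c612 (slO 64 (D.chG 187 15) 8) = true := by decide +kernel

/-- The slices of the chunk 613. -/
noncomputable def c613 : List (List ℕ) := [
  [tr p599_20,
   tr p600_20,
   p613_2,
   p613_3,
   p613_4,
   p613_5,
   p613_6,
   p613_7],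
  [s6_7 (s2_3 p613_2),
   s6_7 (s2_3 p613_3),
   tr p607_20,
   tr p608_20,
   p613_12,
   p613_13,
   p613_14,
   p613_15],
  [s6_7 (s2_3 p613_4),
   s6_7 (s2_3 p613_5),
   s6_7 (s2_3 p613_12),
   s6_7 (s2_3 p613_13),
   p613_20,
   p613_21,
   p613_22,
   p613_23],
  [s6_7 (s2_3 p613_6),
   s6_7 (s2_3 p613_7),
   s6_7 (s2_3 p613_14),
   s6_7 (s2_3 p613_15),
   s6_7 (s2_3 p613_22),
   s6_7 (s2_3 p613_23),
   p613_30,
   p613_31],
  [p613_32,
   p613_33,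
   p613_34,
   p613_35,
   p613_36,
   p613_37,
   p613_38,
   p613_39],
  [s6_7 (s2_3 p613_34),
   s6_7 (s2_3 p613_35),
   p613_42,
   p613_43,
   p613_44,
   p613_45,
   p613_46,
   p613_47],
  [s6_7 (s2_3 p613_36),
   s6_7 (s2_3 p613_37),
   s6_7 (s2_3 p613_44),
   s6_7 (s2_3 p613_45),
   p613_52,
   p613_53,
   p613_54,
   p613_55],
  [s6_7 (s2_3 p613_38),
   s6_7 (s2_3 p613_39),
   s6_7 (s2_3 p613_46),
   s6_7 (s2_3 p613_47),
   s6_7 (s2_3 p613_54),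
   s6_7 (s2_3 p613_55),
   p613_62,
   p613_63]]

theorem k613 : eqNN c613 (slO 64 (D.chG 187 20) 8) = true := by decide +kernel

/-- The slices of the chunk 614. -/
noncomputable def c614 : List (List ℕ) := [
  [tr p599_21,
   tr p600_21,
   p614_2,
   p614_3,
   p614_4,
   p614_5,
   p614_6,
   p614_7],
  [s6_7 (s2_3 p614_2),
   s6_7 (s2_3 p614_3),
   tr p607_21,
   tr p608_21,
   p614_12,
   p614_13,
   p614_14,
   p614_15],
  [s6_7 (s2_3 p614_4),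
   s6_7 (s2_3 p614_5),
   s6_7 (s2_3 p614_12),
   s6_7 (s2_3 p614_13),
   tr p613_21,
   p614_21,
   p614_22,
   p614_23],
  [s6_7 (s2_3 p614_6),
   s6_7 (s2_3 p614_7),
   s6_7 (s2_3 p614_14),
   s6_7 (s2_3 p614_15),
   s6_7 (s2_3 p614_22),
   s6_7 (s2_3 p614_23),
   p614_30,
   p614_31],
  [p614_32,
   p614_33,
   p614_34,
   p614_35,
   p614_36,
   p614_37,
   p614_38,
   p614_39],
  [s6_7 (s2_3 p614_34),
   s6_7 (s2_3 p614_35),
   p614_42,
   p614_43,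
   p614_44,
   p614_45,
   p614_46,
   p614_47],
  [s6_7 (s2_3 p614_36),
   s6_7 (s2_3 p614_37),
   s6_7 (s2_3 p614_44),
   s6_7 (s2_3 p614_45),
   p614_52,
   p614_53,
   p614_54,
   p614_55],
  [s6_7 (s2_3 p614_38),
   s6_7 (s2_3 p614_39),
   s6_7 (s2_3 p614_46),
   s6_7 (s2_3 p614_47),
   s6_7 (s2_3 p614_54),
   s6_7 (s2_3 p614_55),
   p614_62,
   p614_63]]

theorem k614 : eqNN c614 (slO 64 (D.chG 187 21) 8) = true := by decide +kernel

/-- The slices of the chunk 615. -/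
noncomputable def c615 : List (List ℕ) := [
  [tr p599_22,
   tr p600_22,
   tr p601_22,
   tr p602_22,
   tr p603_22,
   tr p604_22,
   tr p605_22,
   tr p606_22],
  [s3_6 (s2_7 (s1_5 (s0_4 p601_28))),
   s3_6 (s2_7 (s1_5 (s0_4 p602_28))),
   tr p607_22,
   tr p608_22,
   tr p609_22,
   tr p610_22,
   tr p611_22,
   tr p612_22],
  [s3_6 (s2_7 (s1_5 (s0_4 p603_28))),
   s3_6 (s2_7 (s1_5 (s0_4 p604_28))),
   s3_6 (s2_7 (s1_5 (s0_4 p609_28))),
   s3_6 (s2_7 (s1_5 (s0_4 p610_28))),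
   tr p613_22,
   tr p614_22,
   p615_22,
   p615_23],
  [s3_6 (s2_7 (s1_5 (s0_4 p605_28))),
   s3_6 (s2_7 (s1_5 (s0_4 p606_28))),
   s3_6 (s2_7 (s1_5 (s0_4 p611_28))),
   s3_6 (s2_7 (s1_5 (s0_4 p612_28))),
   p615_28,
   p615_29,
   tr p617_22,
   tr p618_22],
  [tr p619_22,
   tr p620_22,
   p615_34,
   p615_35,
   p615_36,
   p615_37,
   p615_38,
   p615_39],
  [p615_40,
   p615_41,
   tr p627_22,
   tr p628_22,
   p615_44,
   p615_45,
   p615_46,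
   p615_47],
  [p615_48,
   p615_49,
   p615_50,
   p615_51,
   tr p633_22,
   tr p634_22,
   p615_54,
   p615_55],
  [p615_56,
   p615_57,
   p615_58,
   p615_59,
   p615_60,
   p615_61,
   tr p637_22,
   tr p638_22]]

theorem k615 : eqNN c615 (slO 64 (D.chG 187 22) 8) = true := by decide +kernel

end Pool.Agent.Lib.MP_afdd4d_co.K10.E6
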