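import Pool.Agent.Lib.MP_afdd4d_co.K10.E6.Dat
import Pool.Agent.Lib.MP_afdd4d_co.K10.E6.Mk
import Pool.Agent.Lib.MP_afdd4d_co.K8.F6Bl5
import Pool.Agent.Lib.MP_afdd4d_co.K10.E6.P0
import Pool.Agent.Lib.MP_afdd4d_co.K10.E6.P1
import Pool.Agent.Lib.MP_afdd4d_co.K10.E6.P2
import Pool.Agent.Lib.MP_afdd4d_co.K10.E6.P3
import Pool.Agent.Lib.MP_afdd4d_co.K10.E6.P4
import Pool.Agent.Lib.MP_afdd4d_co.K10.E6.P5
import Pool.Agent.Lib.MP_afdd4d_co.K10.E6.P6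
import Pool.Agent.Lib.MP_afdd4d_co.K10.E6.P7
import Pool.Agent.Lib.MP_afdd4d_co.K10.E6.P8
import Pool.Agent.Lib.MP_afdd4d_co.K10.E6.P9
import Pool.Agent.Lib.MP_afdd4d_co.K10.E6.P10
import Pool.Agent.Lib.MP_afdd4d_co.K10.E6.P11
import Pool.Agent.Lib.MP_afdd4d_co.K10.E6.P12
import Pool.Agent.Lib.MP_afdd4d_co.K10.E6.P13
import Pool.Agent.Lib.MP_afdd4d_co.K10.E6.P14
import Pool.Agent.Lib.MP_afdd4d_co.K10.E6.P15
import Pool.Agent.Lib.MP_afdd4d_co.K10.E6.P16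
import Pool.Agent.Lib.MP_afdd4d_co.K10.E6.P17
import Pool.Agent.Lib.MP_afdd4d_co.K10.E6.P18
import Pool.Agent.Lib.MP_afdd4d_co.K10.E6.P19
import Pool.Agent.Lib.MP_afdd4d_co.K10.E6.P20
import Pool.Agent.Lib.MP_afdd4d_co.K10.E6.P21
import Pool.Agent.Lib.MP_afdd4d_co.K10.E6.P22
import Pool.Agent.Lib.MP_afdd4d_co.K10.E6.P23
import Pool.Agent.Lib.MP_afdd4d_co.K10.E6.P24
import Pool.Agent.Lib.MP_afdd4d_co.K10.E6.P25
import Pool.Agent.Lib.MP_afdd4d_co.K10.E6.P26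
import Pool.Agent.Lib.MP_afdd4d_co.K10.E6.P27
import Pool.Agent.Lib.MP_afdd4d_co.K10.E6.P28
import Pool.Agent.Lib.MP_afdd4d_co.K10.E6.P29
import Pool.Agent.Lib.MP_afdd4d_co.K10.E6.P30
import Pool.Agent.Lib.MP_afdd4d_co.K10.E6.P31
import Pool.Agent.Lib.MP_afdd4d_co.K10.E6.P32

/-!
# Tables
-/

namespace Pool.Agent.Lib.MP_afdd4d_co.K10.E6

open K8

set_option maxRecDepth 100000
set_option exponentiation.threshold 10000000

/-- The slices of the chunk 616. -/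
noncomputable def c616 : List (List ℕ) := [
  [tr p599_23,
   tr p600_23,
   tr p601_23,
   tr p602_23,
   tr p603_23,
   tr p604_23,
   tr p605_23,
   tr p606_23],
  [s3_6 (s2_7 (s1_5 (s0_4 p601_29))),
   s3_6 (s2_7 (s1_5 (s0_4 p602_29))),
   tr p607_23,
   tr p608_23,
   tr p609_23,
   tr p610_23,
   tr p611_23,
   tr p612_23],
  [s3_6 (s2_7 (s1_5 (s0_4 p603_29))),
   s3_6 (s2_7 (s1_5 (s0_4 p604_29))),
   s3_6 (s2_7 (s1_5 (s0_4 p609_29))),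
   s3_6 (s2_7 (s1_5 (s0_4 p610_29))),
   tr p613_23,
   tr p614_23,
   tr p615_23,
   p616_23],
  [s3_6 (s2_7 (s1_5 (s0_4 p605_29))),
   s3_6 (s2_7 (s1_5 (s0_4 p606_29))),
   s3_6 (s2_7 (s1_5 (s0_4 p611_29))),
   s3_6 (s2_7 (s1_5 (s0_4 p612_29))),
   s3_6 (s2_7 (s1_5 (s0_4 p615_29))),
   p616_29,
   tr p617_23,
   tr p618_23],
  [tr p619_23,
   tr p620_23,
   p616_34,
   p616_35,
   p616_36,
   p616_37,
   p616_38,
   p616_39],
  [p616_40,
   p616_41,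
   tr p627_23,
   tr p628_23,
   p616_44,
   p616_45,
   p616_46,
   p616_47],
  [p616_48,
   p616_49,
   p616_50,
   p616_51,
   tr p633_23,
   tr p634_23,
   p616_54,
   p616_55],
  [p616_56,
   p616_57,
   p616_58,
   p616_59,
   p616_60,
   p616_61,
   tr p637_23,
   tr p638_23]]

theorem k616 : eqNN c616 (slO 64 (D.chG 187 23) 8) = true := by decide +kernel

/-- The slices of the chunk 617. -/
noncomputable def c617 : List (List ℕ) := [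
  [tr p599_30,
   tr p600_30,
   p617_2,
   p617_3,
   p617_4,
   p617_5,
   p617_6,
   p617_7],
  [s6_7 (s2_3 p617_2),
   s6_7 (s2_3 p617_3),
   tr p607_30,
   tr p608_30,
   p617_12,
   p617_13,
   p617_14,
   p617_15],
  [s6_7 (s2_3 p617_4),
   s6_7 (s2_3 p617_5),
   s6_7 (s2_3 p617_12),
   s6_7 (s2_3 p617_13),
   tr p613_30,
   tr p614_30,
   p617_22,
   p617_23],
  [s6_7 (s2_3 p617_6),
   s6_7 (s2_3 p617_7),
   s6_7 (s2_3 p617_14),
   s6_7 (s2_3 p617_15),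
   s6_7 (s2_3 p617_22),
   s6_7 (s2_3 p617_23),
   p617_30,
   p617_31],
  [p617_32,
   p617_33,
   p617_34,
   p617_35,
   p617_36,
   p617_37,
   p617_38,
   p617_39],
  [s6_7 (s2_3 p617_34),
   s6_7 (s2_3 p617_35),
   p617_42,
   p617_43,
   p617_44,
   p617_45,
   p617_46,
   p617_47],
  [s6_7 (s2_3 p617_36),
   s6_7 (s2_3 p617_37),
   s6_7 (s2_3 p617_44),
   s6_7 (s2_3 p617_45),
   p617_52,
   p617_53,
   p617_54,
   p617_55],
  [s6_7 (s2_3 p617_38),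
   s6_7 (s2_3 p617_39),
   s6_7 (s2_3 p617_46),
   s6_7 (s2_3 p617_47),
   s6_7 (s2_3 p617_54),
   s6_7 (s2_3 p617_55),
   p617_62,
   p617_63]]

theorem k617 : eqNN c617 (slO 64 (D.chG 187 30) 8) = true := by decide +kernel

/-- The slices of the chunk 618. -/
noncomputable def c618 : List (List ℕ) := [
  [tr p599_31,
   tr p600_31,
   p618_2,
   p618_3,
   p618_4,
   p618_5,
   p618_6,
   p618_7],
  [s6_7 (s2_3 p618_2),
   s6_7 (s2_3 p618_3),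
   tr p607_31,
   tr p608_31,
   p618_12,
   p618_13,
   p618_14,
   p618_15],
  [s6_7 (s2_3 p618_4),
   s6_7 (s2_3 p618_5),
   s6_7 (s2_3 p618_12),
   s6_7 (s2_3 p618_13),
   tr p613_31,
   tr p614_31,
   p618_22,
   p618_23],
  [s6_7 (s2_3 p618_6),
   s6_7 (s2_3 p618_7),
   s6_7 (s2_3 p618_14),
   s6_7 (s2_3 p618_15),
   s6_7 (s2_3 p618_22),
   s6_7 (s2_3 p618_23),
   tr p617_31,
   p618_31],
  [p618_32,
   p618_33,
   p618_34,
   p618_35,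
   p618_36,
   p618_37,
   p618_38,
   p618_39],
  [s6_7 (s2_3 p618_34),
   s6_7 (s2_3 p618_35),
   p618_42,
   p618_43,
   p618_44,
   p618_45,
   p618_46,
   p618_47],
  [s6_7 (s2_3 p618_36),
   s6_7 (s2_3 p618_37),
   s6_7 (s2_3 p618_44),
   s6_7 (s2_3 p618_45),
   p618_52,
   p618_53,
   p618_54,
   p618_55],
  [s6_7 (s2_3 p618_38),
   s6_7 (s2_3 p618_39),
   s6_7 (s2_3 p618_46),
   s6_7 (s2_3 p618_47),
   s6_7 (s2_3 p618_54),
   s6_7 (s2_3 p618_55),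
   p618_62,
   p618_63]]

theorem k618 : eqNN c618 (slO 64 (D.chG 187 31) 8) = true := by decide +kernel

/-- The slices of the chunk 619. -/
noncomputable def c619 : List (List ℕ) := [
  [tr p599_32,
   tr p600_32,
   p619_2,
   p619_3,
   p619_4,
   p619_5,
   p619_6,
   p619_7],
  [s6_7 (s2_3 p619_2),
   s6_7 (s2_3 p619_3),
   tr p607_32,
   tr p608_32,
   p619_12,
   p619_13,
   p619_14,
   p619_15],
  [s6_7 (s2_3 p619_4),
   s6_7 (s2_3 p619_5),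
   s6_7 (s2_3 p619_12),
   s6_7 (s2_3 p619_13),
   tr p613_32,
   tr p614_32,
   p619_22,
   p619_23],
  [s6_7 (s2_3 p619_6),
   s6_7 (s2_3 p619_7),
   s6_7 (s2_3 p619_14),
   s6_7 (s2_3 p619_15),
   s6_7 (s2_3 p619_22),
   s6_7 (s2_3 p619_23),
   tr p617_32,
   tr p618_32],
  [p619_32,
   p619_33,
   p619_34,
   p619_35,
   p619_36,
   p619_37,
   p619_38,
   p619_39],
  [s6_7 (s2_3 p619_34),
   s6_7 (s2_3 p619_35),
   p619_42,
   p619_43,
   p619_44,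
   p619_45,
   p619_46,
   p619_47],
  [s6_7 (s2_3 p619_36),
   s6_7 (s2_3 p619_37),
   s6_7 (s2_3 p619_44),
   s6_7 (s2_3 p619_45),
   p619_52,
   p619_53,
   p619_54,
   p619_55],
  [s6_7 (s2_3 p619_38),
   s6_7 (s2_3 p619_39),
   s6_7 (s2_3 p619_46),
   s6_7 (s2_3 p619_47),
   s6_7 (s2_3 p619_54),
   s6_7 (s2_3 p619_55),
   p619_62,
   p619_63]]

theorem k619 : eqNN c619 (slO 64 (D.chG 187 32) 8) = true := by decide +kernel

end Pool.Agent.Lib.MP_afdd4d_co.K10.E6
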