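import Pool.Agent.Lib.MP_afdd4d_co.K10.E6.Dat
import Pool.Agent.Lib.MP_afdd4d_co.K10.E6.Mk
import Pool.Agent.Lib.MP_afdd4d_co.K8.F6Bl5
import Pool.Agent.Lib.MP_afdd4d_co.K10.E6.P0
import Pool.Agent.Lib.MP_afdd4d_co.K10.E6.P1
import Pool.Agent.Lib.MP_afdd4d_co.K10.E6.P2
import Pool.Agent.Lib.MP_afdd4d_co.K10.E6.P3
import Pool.Agent.Lib.MP_afdd4d_co.K10.E6.P4
import Pool.Agent.Lib.MP_afdd4d_co.K10.E6.P5
import Pool.Agent.Lib.MP_afdd4d_co.K10.E6.P6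
import Pool.Agent.Lib.MP_afdd4d_co.K10.E6.P7
import Pool.Agent.Lib.MP_afdd4d_co.K10.E6.P8
import Pool.Agent.Lib.MP_afdd4d_co.K10.E6.P9
import Pool.Agent.Lib.MP_afdd4d_co.K10.E6.P10
import Pool.Agent.Lib.MP_afdd4d_co.K10.E6.P11
import Pool.Agent.Lib.MP_afdd4d_co.K10.E6.P12
import Pool.Agent.Lib.MP_afdd4d_co.K10.E6.P13
import Pool.Agent.Lib.MP_afdd4d_co.K10.E6.P14
import Pool.Agent.Lib.MP_afdd4d_co.K10.E6.P15
import Pool.Agent.Lib.MP_afdd4d_co.K10.E6.P16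
import Pool.Agent.Lib.MP_afdd4d_co.K10.E6.P17
import Pool.Agent.Lib.MP_afdd4d_co.K10.E6.P18
import Pool.Agent.Lib.MP_afdd4d_co.K10.E6.P19
import Pool.Agent.Lib.MP_afdd4d_co.K10.E6.P20
import Pool.Agent.Lib.MP_afdd4d_co.K10.E6.P21
import Pool.Agent.Lib.MP_afdd4d_co.K10.E6.P22
import Pool.Agent.Lib.MP_afdd4d_co.K10.E6.P23
import Pool.Agent.Lib.MP_afdd4d_co.K10.E6.P24
import Pool.Agent.Lib.MP_afdd4d_co.K10.E6.P25
import Pool.Agent.Lib.MP_afdd4d_co.K10.E6.P26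
import Pool.Agent.Lib.MP_afdd4d_co.K10.E6.P27
import Pool.Agent.Lib.MP_afdd4d_co.K10.E6.P28
import Pool.Agent.Lib.MP_afdd4d_co.K10.E6.P29
import Pool.Agent.Lib.MP_afdd4d_co.K10.E6.P30
import Pool.Agent.Lib.MP_afdd4d_co.K10.E6.P31
import Pool.Agent.Lib.MP_afdd4d_co.K10.E6.P32

/-!
# Tables
-/

namespace Pool.Agent.Lib.MP_afdd4d_co.K10.E6

open K8

set_option maxRecDepth 100000
set_option exponentiation.threshold 10000000

/-- The slices of the chunk 620. -/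
noncomputable def c620 : List (List ℕ) := [
  [tr p599_33,
   tr p600_33,
   p620_2,
   p620_3,
   p620_4,
   p620_5,
   p620_6,
   p620_7],
  [s6_7 (s2_3 p620_2),
   s6_7 (s2_3 p620_3),
   tr p607_33,
   tr p608_33,
   p620_12,
   p620_13,
   p620_14,
   p620_15],
  [s6_7 (s2_3 p620_4),
   s6_7 (s2_3 p620_5),
   s6_7 (s2_3 p620_12),
   s6_7 (s2_3 p620_13),
   tr p613_33,
   tr p614_33,
   p620_22,
   p620_23],
  [s6_7 (s2_3 p620_6),
   s6_7 (s2_3 p620_7),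
   s6_7 (s2_3 p620_14),
   s6_7 (s2_3 p620_15),
   s6_7 (s2_3 p620_22),
   s6_7 (s2_3 p620_23),
   tr p617_33,
   tr p618_33],
  [tr p619_33,
   p620_33,
   p620_34,
   p620_35,
   p620_36,
   p620_37,
   p620_38,
   p620_39],
  [s6_7 (s2_3 p620_34),
   s6_7 (s2_3 p620_35),
   p620_42,
   p620_43,
   p620_44,
   p620_45,
   p620_46,
   p620_47],
  [s6_7 (s2_3 p620_36),
   s6_7 (s2_3 p620_37),
   s6_7 (s2_3 p620_44),
   s6_7 (s2_3 p620_45),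
   p620_52,
   p620_53,
   p620_54,
   p620_55],
  [s6_7 (s2_3 p620_38),
   s6_7 (s2_3 p620_39),
   s6_7 (s2_3 p620_46),
   s6_7 (s2_3 p620_47),
   s6_7 (s2_3 p620_54),
   s6_7 (s2_3 p620_55),
   p620_62,
   p620_63]]

theorem k620 : eqNN c620 (slO 64 (D.chG 187 33) 8) = true := by decide +kernel

/-- The slices of the chunk 621. -/
noncomputable def c621 : List (List ℕ) := [
  [tr p599_34,
   tr p600_34,
   tr p601_34,
   tr p602_34,
   tr p603_34,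
   tr p604_34,
   tr p605_34,
   tr p606_34],
  [s3_6 (s2_7 (s1_5 (s0_4 p601_40))),
   s3_6 (s2_7 (s1_5 (s0_4 p602_40))),
   tr p607_34,
   tr p608_34,
   tr p609_34,
   tr p610_34,
   tr p611_34,
   tr p612_34],
  [s3_6 (s2_7 (s1_5 (s0_4 p603_40))),
   s3_6 (s2_7 (s1_5 (s0_4 p604_40))),
   s3_6 (s2_7 (s1_5 (s0_4 p609_40))),
   s3_6 (s2_7 (s1_5 (s0_4 p610_40))),
   tr p613_34,
   tr p614_34,
   tr p615_34,
   tr p616_34],
  [s3_6 (s2_7 (s1_5 (s0_4 p605_40))),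
   s3_6 (s2_7 (s1_5 (s0_4 p606_40))),
   s3_6 (s2_7 (s1_5 (s0_4 p611_40))),
   s3_6 (s2_7 (s1_5 (s0_4 p612_40))),
   s3_6 (s2_7 (s1_5 (s0_4 p615_40))),
   s3_6 (s2_7 (s1_5 (s0_4 p616_40))),
   tr p617_34,
   tr p618_34],
  [tr p619_34,
   tr p620_34,
   p621_34,
   p621_35,
   p621_36,
   p621_37,
   p621_38,
   p621_39],
  [p621_40,
   p621_41,
   tr p627_34,
   tr p628_34,
   p621_44,
   p621_45,
   p621_46,
   p621_47],
  [p621_48,
   p621_49,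
   p621_50,
   p621_51,
   tr p633_34,
   tr p634_34,
   p621_54,
   p621_55],
  [p621_56,
   p621_57,
   p621_58,
   p621_59,
   p621_60,
   p621_61,
   tr p637_34,
   tr p638_34]]

theorem k621 : eqNN c621 (slO 64 (D.chG 187 34) 8) = true := by decide +kernel

/-- The slices of the chunk 622. -/
noncomputable def c622 : List (List ℕ) := [
  [tr p599_35,
   tr p600_35,
   tr p601_35,
   tr p602_35,
   tr p603_35,
   tr p604_35,
   tr p605_35,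
   tr p606_35],
  [s3_6 (s2_7 (s1_5 (s0_4 p601_41))),
   s3_6 (s2_7 (s1_5 (s0_4 p602_41))),
   tr p607_35,
   tr p608_35,
   tr p609_35,
   tr p610_35,
   tr p611_35,
   tr p612_35],
  [s3_6 (s2_7 (s1_5 (s0_4 p603_41))),
   s3_6 (s2_7 (s1_5 (s0_4 p604_41))),
   s3_6 (s2_7 (s1_5 (s0_4 p609_41))),
   s3_6 (s2_7 (s1_5 (s0_4 p610_41))),
   tr p613_35,
   tr p614_35,
   tr p615_35,
   tr p616_35],
  [s3_6 (s2_7 (s1_5 (s0_4 p605_41))),
   s3_6 (s2_7 (s1_5 (s0_4 p606_41))),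
   s3_6 (s2_7 (s1_5 (s0_4 p611_41))),
   s3_6 (s2_7 (s1_5 (s0_4 p612_41))),
   s3_6 (s2_7 (s1_5 (s0_4 p615_41))),
   s3_6 (s2_7 (s1_5 (s0_4 p616_41))),
   tr p617_35,
   tr p618_35],
  [tr p619_35,
   tr p620_35,
   tr p621_35,
   p622_35,
   p622_36,
   p622_37,
   p622_38,
   p622_39],
  [s3_6 (s2_7 (s1_5 (s0_4 p621_41))),
   p622_41,
   tr p627_35,
   tr p628_35,
   p622_44,
   p622_45,
   p622_46,
   p622_47],
  [p622_48,
   p622_49,
   p622_50,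
   p622_51,
   tr p633_35,
   tr p634_35,
   p622_54,
   p622_55],
  [p622_56,
   p622_57,
   p622_58,
   p622_59,
   p622_60,
   p622_61,
   tr p637_35,
   tr p638_35]]

theorem k622 : eqNN c622 (slO 64 (D.chG 187 35) 8) = true := by decide +kernel

/-- The slices of the chunk 623. -/
noncomputable def c623 : List (List ℕ) := [
  [tr p599_36,
   tr p600_36,
   tr p601_36,
   tr p602_36,
   tr p603_36,
   tr p604_36,
   tr p605_36,
   tr p606_36],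
  [s3_6 (s2_7 (s1_5 (s0_4 p601_48))),
   s3_6 (s2_7 (s1_5 (s0_4 p602_48))),
   tr p607_36,
   tr p608_36,
   tr p609_36,
   tr p610_36,
   tr p611_36,
   tr p612_36],
  [s3_6 (s2_7 (s1_5 (s0_4 p603_48))),
   s3_6 (s2_7 (s1_5 (s0_4 p604_48))),
   s3_6 (s2_7 (s1_5 (s0_4 p609_48))),
   s3_6 (s2_7 (s1_5 (s0_4 p610_48))),
   tr p613_36,
   tr p614_36,
   tr p615_36,
   tr p616_36],
  [s3_6 (s2_7 (s1_5 (s0_4 p605_48))),
   s3_6 (s2_7 (s1_5 (s0_4 p606_48))),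
   s3_6 (s2_7 (s1_5 (s0_4 p611_48))),
   s3_6 (s2_7 (s1_5 (s0_4 p612_48))),
   s3_6 (s2_7 (s1_5 (s0_4 p615_48))),
   s3_6 (s2_7 (s1_5 (s0_4 p616_48))),
   tr p617_36,
   tr p618_36],
  [tr p619_36,
   tr p620_36,
   tr p621_36,
   tr p622_36,
   p623_36,
   p623_37,
   p623_38,
   p623_39],
  [s3_6 (s2_7 (s1_5 (s0_4 p621_48))),
   s3_6 (s2_7 (s1_5 (s0_4 p622_48))),
   tr p627_36,
   tr p628_36,
   p623_44,
   p623_45,
   p623_46,
   p623_47],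
  [p623_48,
   p623_49,
   p623_50,
   p623_51,
   tr p633_36,
   tr p634_36,
   p623_54,
   p623_55],
  [p623_56,
   p623_57,
   p623_58,
   p623_59,
   p623_60,
   p623_61,
   tr p637_36,
   tr p638_36]]

theorem k623 : eqNN c623 (slO 64 (D.chG 187 36) 8) = true := by decide +kernel

end Pool.Agent.Lib.MP_afdd4d_co.K10.E6
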