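import Pool.Agent.Lib.MP_afdd4d_co.K10.E6.Dat
import Pool.Agent.Lib.MP_afdd4d_co.K10.E6.Mk
import Pool.Agent.Lib.MP_afdd4d_co.K8.F6Bl5
import Pool.Agent.Lib.MP_afdd4d_co.K10.E6.P0
import Pool.Agent.Lib.MP_afdd4d_co.K10.E6.P1
import Pool.Agent.Lib.MP_afdd4d_co.K10.E6.P2
import Pool.Agent.Lib.MP_afdd4d_co.K10.E6.P3
import Pool.Agent.Lib.MP_afdd4d_co.K10.E6.P4
import Pool.Agent.Lib.MP_afdd4d_co.K10.E6.P5
import Pool.Agent.Lib.MP_afdd4d_co.K10.E6.P6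
import Pool.Agent.Lib.MP_afdd4d_co.K10.E6.P7
import Pool.Agent.Lib.MP_afdd4d_co.K10.E6.P8
import Pool.Agent.Lib.MP_afdd4d_co.K10.E6.P9
import Pool.Agent.Lib.MP_afdd4d_co.K10.E6.P10
import Pool.Agent.Lib.MP_afdd4d_co.K10.E6.P11
import Pool.Agent.Lib.MP_afdd4d_co.K10.E6.P12
import Pool.Agent.Lib.MP_afdd4d_co.K10.E6.P13
import Pool.Agent.Lib.MP_afdd4d_co.K10.E6.P14
import Pool.Agent.Lib.MP_afdd4d_co.K10.E6.P15
import Pool.Agent.Lib.MP_afdd4d_co.K10.E6.P16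
import Pool.Agent.Lib.MP_afdd4d_co.K10.E6.P17
import Pool.Agent.Lib.MP_afdd4d_co.K10.E6.P18
import Pool.Agent.Lib.MP_afdd4d_co.K10.E6.P19
import Pool.Agent.Lib.MP_afdd4d_co.K10.E6.P20
import Pool.Agent.Lib.MP_afdd4d_co.K10.E6.P21
import Pool.Agent.Lib.MP_afdd4d_co.K10.E6.P22
import Pool.Agent.Lib.MP_afdd4d_co.K10.E6.P23
import Pool.Agent.Lib.MP_afdd4d_co.K10.E6.P24
import Pool.Agent.Lib.MP_afdd4d_co.K10.E6.P25
import Pool.Agent.Lib.MP_afdd4d_co.K10.E6.P26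
import Pool.Agent.Lib.MP_afdd4d_co.K10.E6.P27
import Pool.Agent.Lib.MP_afdd4d_co.K10.E6.P28
import Pool.Agent.Lib.MP_afdd4d_co.K10.E6.P29
import Pool.Agent.Lib.MP_afdd4d_co.K10.E6.P30
import Pool.Agent.Lib.MP_afdd4d_co.K10.E6.P31
import Pool.Agent.Lib.MP_afdd4d_co.K10.E6.P32

/-!
# Tables
-/

namespace Pool.Agent.Lib.MP_afdd4d_co.K10.E6

open K8

set_option maxRecDepth 100000
set_option exponentiation.threshold 10000000

/-- The slices of the chunk 624. -/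
noncomputable def c624 : List (List ℕ) := [
  [tr p599_37,
   tr p600_37,
   tr p601_37,
   tr p602_37,
   tr p603_37,
   tr p604_37,
   tr p605_37,
   tr p606_37],
  [s3_6 (s2_7 (s1_5 (s0_4 p601_49))),
   s3_6 (s2_7 (s1_5 (s0_4 p602_49))),
   tr p607_37,
   tr p608_37,
   tr p609_37,
   tr p610_37,
   tr p611_37,
   tr p612_37],
  [s3_6 (s2_7 (s1_5 (s0_4 p603_49))),
   s3_6 (s2_7 (s1_5 (s0_4 p604_49))),
   s3_6 (s2_7 (s1_5 (s0_4 p609_49))),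
   s3_6 (s2_7 (s1_5 (s0_4 p610_49))),
   tr p613_37,
   tr p614_37,
   tr p615_37,
   tr p616_37],
  [s3_6 (s2_7 (s1_5 (s0_4 p605_49))),
   s3_6 (s2_7 (s1_5 (s0_4 p606_49))),
   s3_6 (s2_7 (s1_5 (s0_4 p611_49))),
   s3_6 (s2_7 (s1_5 (s0_4 p612_49))),
   s3_6 (s2_7 (s1_5 (s0_4 p615_49))),
   s3_6 (s2_7 (s1_5 (s0_4 p616_49))),
   tr p617_37,
   tr p618_37],
  [tr p619_37,
   tr p620_37,
   tr p621_37,
   tr p622_37,
   tr p623_37,
   p624_37,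
   p624_38,
   p624_39],
  [s3_6 (s2_7 (s1_5 (s0_4 p621_49))),
   s3_6 (s2_7 (s1_5 (s0_4 p622_49))),
   tr p627_37,
   tr p628_37,
   p624_44,
   p624_45,
   p624_46,
   p624_47],
  [s3_6 (s2_7 (s1_5 (s0_4 p623_49))),
   p624_49,
   p624_50,
   p624_51,
   tr p633_37,
   tr p634_37,
   p624_54,
   p624_55],
  [p624_56,
   p624_57,
   p624_58,
   p624_59,
   p624_60,
   p624_61,
   tr p637_37,
   tr p638_37]]

theorem k624 : eqNN c624 (slO 64 (D.chG 187 37) 8) = true := by decide +kernel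

/-- The slices of the chunk 625. -/
noncomputable def c625 : List (List ℕ) := [
  [tr p599_38,
   tr p600_38,
   tr p601_38,
   tr p602_38,
   tr p603_38,
   tr p604_38,
   tr p605_38,
   tr p606_38],
  [s3_6 (s2_7 (s1_5 (s0_4 p601_56))),
   s3_6 (s2_7 (s1_5 (s0_4 p602_56))),
   tr p607_38,
   tr p608_38,
   tr p609_38,
   tr p610_38,
   tr p611_38,
   tr p612_38],
  [s3_6 (s2_7 (s1_5 (s0_4 p603_56))),
   s3_6 (s2_7 (s1_5 (s0_4 p604_56))),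
   s3_6 (s2_7 (s1_5 (s0_4 p609_56))),
   s3_6 (s2_7 (s1_5 (s0_4 p610_56))),
   tr p613_38,
   tr p614_38,
   tr p615_38,
   tr p616_38],
  [s3_6 (s2_7 (s1_5 (s0_4 p605_56))),
   s3_6 (s2_7 (s1_5 (s0_4 p606_56))),
   s3_6 (s2_7 (s1_5 (s0_4 p611_56))),
   s3_6 (s2_7 (s1_5 (s0_4 p612_56))),
   s3_6 (s2_7 (s1_5 (s0_4 p615_56))),
   s3_6 (s2_7 (s1_5 (s0_4 p616_56))),
   tr p617_38,
   tr p618_38],
  [tr p619_38,
   tr p620_38,
   tr p621_38,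
   tr p622_38,
   tr p623_38,
   tr p624_38,
   p625_38,
   p625_39],
  [s3_6 (s2_7 (s1_5 (s0_4 p621_56))),
   s3_6 (s2_7 (s1_5 (s0_4 p622_56))),
   tr p627_38,
   tr p628_38,
   p625_44,
   p625_45,
   p625_46,
   p625_47],
  [s3_6 (s2_7 (s1_5 (s0_4 p623_56))),
   s3_6 (s2_7 (s1_5 (s0_4 p624_56))),
   p625_50,
   p625_51,
   tr p633_38,
   tr p634_38,
   p625_54,
   p625_55],
  [p625_56,
   p625_57,
   p625_58,
   p625_59,
   p625_60,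
   p625_61,
   tr p637_38,
   tr p638_38]]

theorem k625 : eqNN c625 (slO 64 (D.chG 187 38) 8) = true := by decide +kernel

/-- The slices of the chunk 626. -/
noncomputable def c626 : List (List ℕ) := [
  [tr p599_39,
   tr p600_39,
   tr p601_39,
   tr p602_39,
   tr p603_39,
   tr p604_39,
   tr p605_39,
   tr p606_39],
  [s3_6 (s2_7 (s1_5 (s0_4 p601_57))),
   s3_6 (s2_7 (s1_5 (s0_4 p602_57))),
   tr p607_39,
   tr p608_39,
   tr p609_39,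
   tr p610_39,
   tr p611_39,
   tr p612_39],
  [s3_6 (s2_7 (s1_5 (s0_4 p603_57))),
   s3_6 (s2_7 (s1_5 (s0_4 p604_57))),
   s3_6 (s2_7 (s1_5 (s0_4 p609_57))),
   s3_6 (s2_7 (s1_5 (s0_4 p610_57))),
   tr p613_39,
   tr p614_39,
   tr p615_39,
   tr p616_39],
  [s3_6 (s2_7 (s1_5 (s0_4 p605_57))),
   s3_6 (s2_7 (s1_5 (s0_4 p606_57))),
   s3_6 (s2_7 (s1_5 (s0_4 p611_57))),
   s3_6 (s2_7 (s1_5 (s0_4 p612_57))),
   s3_6 (s2_7 (s1_5 (s0_4 p615_57))),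
   s3_6 (s2_7 (s1_5 (s0_4 p616_57))),
   tr p617_39,
   tr p618_39],
  [tr p619_39,
   tr p620_39,
   tr p621_39,
   tr p622_39,
   tr p623_39,
   tr p624_39,
   tr p625_39,
   p626_39],
  [s3_6 (s2_7 (s1_5 (s0_4 p621_57))),
   s3_6 (s2_7 (s1_5 (s0_4 p622_57))),
   tr p627_39,
   tr p628_39,
   p626_44,
   p626_45,
   p626_46,
   p626_47],
  [s3_6 (s2_7 (s1_5 (s0_4 p623_57))),
   s3_6 (s2_7 (s1_5 (s0_4 p624_57))),
   p626_50,
   p626_51,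
   tr p633_39,
   tr p634_39,
   p626_54,
   p626_55],
  [s3_6 (s2_7 (s1_5 (s0_4 p625_57))),
   p626_57,
   p626_58,
   p626_59,
   p626_60,
   p626_61,
   tr p637_39,
   tr p638_39]]

theorem k626 : eqNN c626 (slO 64 (D.chG 187 39) 8) = true := by decide +kernel

/-- The slices of the chunk 627. -/
noncomputable def c627 : List (List ℕ) := [
  [tr p599_42,
   tr p600_42,
   p627_2,
   p627_3,
   p627_4,
   p627_5,
   p627_6,
   p627_7],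
  [s6_7 (s2_3 p627_2),
   s6_7 (s2_3 p627_3),
   tr p607_42,
   tr p608_42,
   p627_12,
   p627_13,
   p627_14,
   p627_15],
  [s6_7 (s2_3 p627_4),
   s6_7 (s2_3 p627_5),
   s6_7 (s2_3 p627_12),
   s6_7 (s2_3 p627_13),
   tr p613_42,
   tr p614_42,
   p627_22,
   p627_23],
  [s6_7 (s2_3 p627_6),
   s6_7 (s2_3 p627_7),
   s6_7 (s2_3 p627_14),
   s6_7 (s2_3 p627_15),
   s6_7 (s2_3 p627_22),
   s6_7 (s2_3 p627_23),
   tr p617_42,
   tr p618_42],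
  [tr p619_42,
   tr p620_42,
   p627_34,
   p627_35,
   p627_36,
   p627_37,
   p627_38,
   p627_39],
  [s6_7 (s2_3 p627_34),
   s6_7 (s2_3 p627_35),
   p627_42,
   p627_43,
   p627_44,
   p627_45,
   p627_46,
   p627_47],
  [s6_7 (s2_3 p627_36),
   s6_7 (s2_3 p627_37),
   s6_7 (s2_3 p627_44),
   s6_7 (s2_3 p627_45),
   p627_52,
   p627_53,
   p627_54,
   p627_55],
  [s6_7 (s2_3 p627_38),
   s6_7 (s2_3 p627_39),
   s6_7 (s2_3 p627_46),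
   s6_7 (s2_3 p627_47),
   s6_7 (s2_3 p627_54),
   s6_7 (s2_3 p627_55),
   p627_62,
   p627_63]]

theorem k627 : eqNN c627 (slO 64 (D.chG 187 42) 8) = true := by decide +kernel

end Pool.Agent.Lib.MP_afdd4d_co.K10.E6
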