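import Pool.Agent.Lib.MP_afdd4d_co.K10.E6.Dat
import Pool.Agent.Lib.MP_afdd4d_co.K10.E6.Mk
import Pool.Agent.Lib.MP_afdd4d_co.K8.F6Bl5
import Pool.Agent.Lib.MP_afdd4d_co.K10.E6.P0
import Pool.Agent.Lib.MP_afdd4d_co.K10.E6.P1
import Pool.Agent.Lib.MP_afdd4d_co.K10.E6.P2
import Pool.Agent.Lib.MP_afdd4d_co.K10.E6.P3
import Pool.Agent.Lib.MP_afdd4d_co.K10.E6.P4
import Pool.Agent.Lib.MP_afdd4d_co.K10.E6.P5
import Pool.Agent.Lib.MP_afdd4d_co.K10.E6.P6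
import Pool.Agent.Lib.MP_afdd4d_co.K10.E6.P7
import Pool.Agent.Lib.MP_afdd4d_co.K10.E6.P8
import Pool.Agent.Lib.MP_afdd4d_co.K10.E6.P9
import Pool.Agent.Lib.MP_afdd4d_co.K10.E6.P10
import Pool.Agent.Lib.MP_afdd4d_co.K10.E6.P11
import Pool.Agent.Lib.MP_afdd4d_co.K10.E6.P12
import Pool.Agent.Lib.MP_afdd4d_co.K10.E6.P13
import Pool.Agent.Lib.MP_afdd4d_co.K10.E6.P14
import Pool.Agent.Lib.MP_afdd4d_co.K10.E6.P15
import Pool.Agent.Lib.MP_afdd4d_co.K10.E6.P16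
import Pool.Agent.Lib.MP_afdd4d_co.K10.E6.P17
import Pool.Agent.Lib.MP_afdd4d_co.K10.E6.P18
import Pool.Agent.Lib.MP_afdd4d_co.K10.E6.P19
import Pool.Agent.Lib.MP_afdd4d_co.K10.E6.P20
import Pool.Agent.Lib.MP_afdd4d_co.K10.E6.P21
import Pool.Agent.Lib.MP_afdd4d_co.K10.E6.P22
import Pool.Agent.Lib.MP_afdd4d_co.K10.E6.P23
import Pool.Agent.Lib.MP_afdd4d_co.K10.E6.P24
import Pool.Agent.Lib.MP_afdd4d_co.K10.E6.P25
import Pool.Agent.Lib.MP_afdd4d_co.K10.E6.P26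
import Pool.Agent.Lib.MP_afdd4d_co.K10.E6.P27
import Pool.Agent.Lib.MP_afdd4d_co.K10.E6.P28
import Pool.Agent.Lib.MP_afdd4d_co.K10.E6.P29
import Pool.Agent.Lib.MP_afdd4d_co.K10.E6.P30
import Pool.Agent.Lib.MP_afdd4d_co.K10.E6.P31
import Pool.Agent.Lib.MP_afdd4d_co.K10.E6.P32

/-!
# Tables
-/

namespace Pool.Agent.Lib.MP_afdd4d_co.K10.E6

open K8

set_option maxRecDepth 100000
set_option exponentiation.threshold 10000000

/-- The slices of the chunk 628. -/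
noncomputable def c628 : List (List ℕ) := [
  [tr p599_43,
   tr p600_43,
   p628_2,
   p628_3,
   p628_4,
   p628_5,
   p628_6,
   p628_7],
  [s6_7 (s2_3 p628_2),
   s6_7 (s2_3 p628_3),
   tr p607_43,
   tr p608_43,
   p628_12,
   p628_13,
   p628_14,
   p628_15],
  [s6_7 (s2_3 p628_4),
   s6_7 (s2_3 p628_5),
   s6_7 (s2_3 p628_12),
   s6_7 (s2_3 p628_13),
   tr p613_43,
   tr p614_43,
   p628_22,
   p628_23],
  [s6_7 (s2_3 p628_6),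
   s6_7 (s2_3 p628_7),
   s6_7 (s2_3 p628_14),
   s6_7 (s2_3 p628_15),
   s6_7 (s2_3 p628_22),
   s6_7 (s2_3 p628_23),
   tr p617_43,
   tr p618_43],
  [tr p619_43,
   tr p620_43,
   p628_34,
   p628_35,
   p628_36,
   p628_37,
   p628_38,
   p628_39],
  [s6_7 (s2_3 p628_34),
   s6_7 (s2_3 p628_35),
   tr p627_43,
   p628_43,
   p628_44,
   p628_45,
   p628_46,
   p628_47],
  [s6_7 (s2_3 p628_36),
   s6_7 (s2_3 p628_37),
   s6_7 (s2_3 p628_44),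
   s6_7 (s2_3 p628_45),
   p628_52,
   p628_53,
   p628_54,
   p628_55],
  [s6_7 (s2_3 p628_38),
   s6_7 (s2_3 p628_39),
   s6_7 (s2_3 p628_46),
   s6_7 (s2_3 p628_47),
   s6_7 (s2_3 p628_54),
   s6_7 (s2_3 p628_55),
   p628_62,
   p628_63]]

theorem k628 : eqNN c628 (slO 64 (D.chG 187 43) 8) = true := by decide +kernel

/-- The slices of the chunk 629. -/
noncomputable def c629 : List (List ℕ) := [
  [tr p599_44,
   tr p600_44,
   tr p601_44,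
   tr p602_44,
   tr p603_44,
   tr p604_44,
   tr p605_44,
   tr p606_44],
  [s3_6 (s2_7 (s1_5 (s0_4 p601_50))),
   s3_6 (s2_7 (s1_5 (s0_4 p602_50))),
   tr p607_44,
   tr p608_44,
   tr p609_44,
   tr p610_44,
   tr p611_44,
   tr p612_44],
  [s3_6 (s2_7 (s1_5 (s0_4 p603_50))),
   s3_6 (s2_7 (s1_5 (s0_4 p604_50))),
   s3_6 (s2_7 (s1_5 (s0_4 p609_50))),
   s3_6 (s2_7 (s1_5 (s0_4 p610_50))),
   tr p613_44,
   tr p614_44,
   tr p615_44,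
   tr p616_44],
  [s3_6 (s2_7 (s1_5 (s0_4 p605_50))),
   s3_6 (s2_7 (s1_5 (s0_4 p606_50))),
   s3_6 (s2_7 (s1_5 (s0_4 p611_50))),
   s3_6 (s2_7 (s1_5 (s0_4 p612_50))),
   s3_6 (s2_7 (s1_5 (s0_4 p615_50))),
   s3_6 (s2_7 (s1_5 (s0_4 p616_50))),
   tr p617_44,
   tr p618_44],
  [tr p619_44,
   tr p620_44,
   tr p621_44,
   tr p622_44,
   tr p623_44,
   tr p624_44,
   tr p625_44,
   tr p626_44],
  [s3_6 (s2_7 (s1_5 (s0_4 p621_50))),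
   s3_6 (s2_7 (s1_5 (s0_4 p622_50))),
   tr p627_44,
   tr p628_44,
   p629_44,
   p629_45,
   p629_46,
   p629_47],
  [s3_6 (s2_7 (s1_5 (s0_4 p623_50))),
   s3_6 (s2_7 (s1_5 (s0_4 p624_50))),
   p629_50,
   p629_51,
   tr p633_44,
   tr p634_44,
   p629_54,
   p629_55],
  [s3_6 (s2_7 (s1_5 (s0_4 p625_50))),
   s3_6 (s2_7 (s1_5 (s0_4 p626_50))),
   p629_58,
   p629_59,
   p629_60,
   p629_61,
   tr p637_44,
   tr p638_44]]

theorem k629 : eqNN c629 (slO 64 (D.chG 187 44) 8) = true := by decide +kernel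

/-- The slices of the chunk 630. -/
noncomputable def c630 : List (List ℕ) := [
  [tr p599_45,
   tr p600_45,
   tr p601_45,
   tr p602_45,
   tr p603_45,
   tr p604_45,
   tr p605_45,
   tr p606_45],
  [s3_6 (s2_7 (s1_5 (s0_4 p601_51))),
   s3_6 (s2_7 (s1_5 (s0_4 p602_51))),
   tr p607_45,
   tr p608_45,
   tr p609_45,
   tr p610_45,
   tr p611_45,
   tr p612_45],
  [s3_6 (s2_7 (s1_5 (s0_4 p603_51))),
   s3_6 (s2_7 (s1_5 (s0_4 p604_51))),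
   s3_6 (s2_7 (s1_5 (s0_4 p609_51))),
   s3_6 (s2_7 (s1_5 (s0_4 p610_51))),
   tr p613_45,
   tr p614_45,
   tr p615_45,
   tr p616_45],
  [s3_6 (s2_7 (s1_5 (s0_4 p605_51))),
   s3_6 (s2_7 (s1_5 (s0_4 p606_51))),
   s3_6 (s2_7 (s1_5 (s0_4 p611_51))),
   s3_6 (s2_7 (s1_5 (s0_4 p612_51))),
   s3_6 (s2_7 (s1_5 (s0_4 p615_51))),
   s3_6 (s2_7 (s1_5 (s0_4 p616_51))),
   tr p617_45,
   tr p618_45],
  [tr p619_45,
   tr p620_45,
   tr p621_45,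
   tr p622_45,
   tr p623_45,
   tr p624_45,
   tr p625_45,
   tr p626_45],
  [s3_6 (s2_7 (s1_5 (s0_4 p621_51))),
   s3_6 (s2_7 (s1_5 (s0_4 p622_51))),
   tr p627_45,
   tr p628_45,
   tr p629_45,
   p630_45,
   p630_46,
   p630_47],
  [s3_6 (s2_7 (s1_5 (s0_4 p623_51))),
   s3_6 (s2_7 (s1_5 (s0_4 p624_51))),
   s3_6 (s2_7 (s1_5 (s0_4 p629_51))),
   p630_51,
   tr p633_45,
   tr p634_45,
   p630_54,
   p630_55],
  [s3_6 (s2_7 (s1_5 (s0_4 p625_51))),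
   s3_6 (s2_7 (s1_5 (s0_4 p626_51))),
   p630_58,
   p630_59,
   p630_60,
   p630_61,
   tr p637_45,
   tr p638_45]]

theorem k630 : eqNN c630 (slO 64 (D.chG 187 45) 8) = true := by decide +kernel

/-- The slices of the chunk 631. -/
noncomputable def c631 : List (List ℕ) := [
  [tr p599_46,
   tr p600_46,
   tr p601_46,
   tr p602_46,
   tr p603_46,
   tr p604_46,
   tr p605_46,
   tr p606_46],
  [s3_6 (s2_7 (s1_5 (s0_4 p601_58))),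
   s3_6 (s2_7 (s1_5 (s0_4 p602_58))),
   tr p607_46,
   tr p608_46,
   tr p609_46,
   tr p610_46,
   tr p611_46,
   tr p612_46],
  [s3_6 (s2_7 (s1_5 (s0_4 p603_58))),
   s3_6 (s2_7 (s1_5 (s0_4 p604_58))),
   s3_6 (s2_7 (s1_5 (s0_4 p609_58))),
   s3_6 (s2_7 (s1_5 (s0_4 p610_58))),
   tr p613_46,
   tr p614_46,
   tr p615_46,
   tr p616_46],
  [s3_6 (s2_7 (s1_5 (s0_4 p605_58))),
   s3_6 (s2_7 (s1_5 (s0_4 p606_58))),
   s3_6 (s2_7 (s1_5 (s0_4 p611_58))),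
   s3_6 (s2_7 (s1_5 (s0_4 p612_58))),
   s3_6 (s2_7 (s1_5 (s0_4 p615_58))),
   s3_6 (s2_7 (s1_5 (s0_4 p616_58))),
   tr p617_46,
   tr p618_46],
  [tr p619_46,
   tr p620_46,
   tr p621_46,
   tr p622_46,
   tr p623_46,
   tr p624_46,
   tr p625_46,
   tr p626_46],
  [s3_6 (s2_7 (s1_5 (s0_4 p621_58))),
   s3_6 (s2_7 (s1_5 (s0_4 p622_58))),
   tr p627_46,
   tr p628_46,
   tr p629_46,
   tr p630_46,
   p631_46,
   p631_47],
  [s3_6 (s2_7 (s1_5 (s0_4 p623_58))),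
   s3_6 (s2_7 (s1_5 (s0_4 p624_58))),
   s3_6 (s2_7 (s1_5 (s0_4 p629_58))),
   s3_6 (s2_7 (s1_5 (s0_4 p630_58))),
   tr p633_46,
   tr p634_46,
   p631_54,
   p631_55],
  [s3_6 (s2_7 (s1_5 (s0_4 p625_58))),
   s3_6 (s2_7 (s1_5 (s0_4 p626_58))),
   p631_58,
   p631_59,
   p631_60,
   p631_61,
   tr p637_46,
   tr p638_46]]

theorem k631 : eqNN c631 (slO 64 (D.chG 187 46) 8) = true := by decide +kernel

end Pool.Agent.Lib.MP_afdd4d_co.K10.E6
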