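import Pool.Agent.Lib.MP_afdd4d_co.K10.E6.Dat
import Pool.Agent.Lib.MP_afdd4d_co.K10.E6.Mk
import Pool.Agent.Lib.MP_afdd4d_co.K8.F6Bl5
import Pool.Agent.Lib.MP_afdd4d_co.K10.E6.P0
import Pool.Agent.Lib.MP_afdd4d_co.K10.E6.P1
import Pool.Agent.Lib.MP_afdd4d_co.K10.E6.P2
import Pool.Agent.Lib.MP_afdd4d_co.K10.E6.P3
import Pool.Agent.Lib.MP_afdd4d_co.K10.E6.P4
import Pool.Agent.Lib.MP_afdd4d_co.K10.E6.P5
import Pool.Agent.Lib.MP_afdd4d_co.K10.E6.P6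
import Pool.Agent.Lib.MP_afdd4d_co.K10.E6.P7
import Pool.Agent.Lib.MP_afdd4d_co.K10.E6.P8
import Pool.Agent.Lib.MP_afdd4d_co.K10.E6.P9
import Pool.Agent.Lib.MP_afdd4d_co.K10.E6.P10
import Pool.Agent.Lib.MP_afdd4d_co.K10.E6.P11
import Pool.Agent.Lib.MP_afdd4d_co.K10.E6.P12
import Pool.Agent.Lib.MP_afdd4d_co.K10.E6.P13
import Pool.Agent.Lib.MP_afdd4d_co.K10.E6.P14
import Pool.Agent.Lib.MP_afdd4d_co.K10.E6.P15
import Pool.Agent.Lib.MP_afdd4d_co.K10.E6.P16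
import Pool.Agent.Lib.MP_afdd4d_co.K10.E6.P17
import Pool.Agent.Lib.MP_afdd4d_co.K10.E6.P18
import Pool.Agent.Lib.MP_afdd4d_co.K10.E6.P19
import Pool.Agent.Lib.MP_afdd4d_co.K10.E6.P20
import Pool.Agent.Lib.MP_afdd4d_co.K10.E6.P21
import Pool.Agent.Lib.MP_afdd4d_co.K10.E6.P22
import Pool.Agent.Lib.MP_afdd4d_co.K10.E6.P23
import Pool.Agent.Lib.MP_afdd4d_co.K10.E6.P24
import Pool.Agent.Lib.MP_afdd4d_co.K10.E6.P25
import Pool.Agent.Lib.MP_afdd4d_co.K10.E6.P26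
import Pool.Agent.Lib.MP_afdd4d_co.K10.E6.P27
import Pool.Agent.Lib.MP_afdd4d_co.K10.E6.P28
import Pool.Agent.Lib.MP_afdd4d_co.K10.E6.P29
import Pool.Agent.Lib.MP_afdd4d_co.K10.E6.P30
import Pool.Agent.Lib.MP_afdd4d_co.K10.E6.P31
import Pool.Agent.Lib.MP_afdd4d_co.K10.E6.P32

/-!
# Tables
-/

namespace Pool.Agent.Lib.MP_afdd4d_co.K10.E6

open K8

set_option maxRecDepth 100000
set_option exponentiation.threshold 10000000

/-- The slices of the chunk 632. -/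
noncomputable def c632 : List (List ℕ) := [
  [tr p599_47,
   tr p600_47,
   tr p601_47,
   tr p602_47,
   tr p603_47,
   tr p604_47,
   tr p605_47,
   tr p606_47],
  [s3_6 (s2_7 (s1_5 (s0_4 p601_59))),
   s3_6 (s2_7 (s1_5 (s0_4 p602_59))),
   tr p607_47,
   tr p608_47,
   tr p609_47,
   tr p610_47,
   tr p611_47,
   tr p612_47],
  [s3_6 (s2_7 (s1_5 (s0_4 p603_59))),
   s3_6 (s2_7 (s1_5 (s0_4 p604_59))),
   s3_6 (s2_7 (s1_5 (s0_4 p609_59))),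
   s3_6 (s2_7 (s1_5 (s0_4 p610_59))),
   tr p613_47,
   tr p614_47,
   tr p615_47,
   tr p616_47],
  [s3_6 (s2_7 (s1_5 (s0_4 p605_59))),
   s3_6 (s2_7 (s1_5 (s0_4 p606_59))),
   s3_6 (s2_7 (s1_5 (s0_4 p611_59))),
   s3_6 (s2_7 (s1_5 (s0_4 p612_59))),
   s3_6 (s2_7 (s1_5 (s0_4 p615_59))),
   s3_6 (s2_7 (s1_5 (s0_4 p616_59))),
   tr p617_47,
   tr p618_47],
  [tr p619_47,
   tr p620_47,
   tr p621_47,
   tr p622_47,
   tr p623_47,
   tr p624_47,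
   tr p625_47,
   tr p626_47],
  [s3_6 (s2_7 (s1_5 (s0_4 p621_59))),
   s3_6 (s2_7 (s1_5 (s0_4 p622_59))),
   tr p627_47,
   tr p628_47,
   tr p629_47,
   tr p630_47,
   tr p631_47,
   p632_47],
  [s3_6 (s2_7 (s1_5 (s0_4 p623_59))),
   s3_6 (s2_7 (s1_5 (s0_4 p624_59))),
   s3_6 (s2_7 (s1_5 (s0_4 p629_59))),
   s3_6 (s2_7 (s1_5 (s0_4 p630_59))),
   tr p633_47,
   tr p634_47,
   p632_54,
   p632_55],
  [s3_6 (s2_7 (s1_5 (s0_4 p625_59))),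
   s3_6 (s2_7 (s1_5 (s0_4 p626_59))),
   s3_6 (s2_7 (s1_5 (s0_4 p631_59))),
   p632_59,
   p632_60,
   p632_61,
   tr p637_47,
   tr p638_47]]

theorem k632 : eqNN c632 (slO 64 (D.chG 187 47) 8) = true := by decide +kernel

/-- The slices of the chunk 633. -/
noncomputable def c633 : List (List ℕ) := [
  [tr p599_52,
   tr p600_52,
   p633_2,
   p633_3,
   p633_4,
   p633_5,
   p633_6,
   p633_7],
  [s6_7 (s2_3 p633_2),
   s6_7 (s2_3 p633_3),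
   tr p607_52,
   tr p608_52,
   p633_12,
   p633_13,
   p633_14,
   p633_15],
  [s6_7 (s2_3 p633_4),
   s6_7 (s2_3 p633_5),
   s6_7 (s2_3 p633_12),
   s6_7 (s2_3 p633_13),
   tr p613_52,
   tr p614_52,
   p633_22,
   p633_23],
  [s6_7 (s2_3 p633_6),
   s6_7 (s2_3 p633_7),
   s6_7 (s2_3 p633_14),
   s6_7 (s2_3 p633_15),
   s6_7 (s2_3 p633_22),
   s6_7 (s2_3 p633_23),
   tr p617_52,
   tr p618_52],
  [tr p619_52,
   tr p620_52,
   p633_34,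
   p633_35,
   p633_36,
   p633_37,
   p633_38,
   p633_39],
  [s6_7 (s2_3 p633_34),
   s6_7 (s2_3 p633_35),
   tr p627_52,
   tr p628_52,
   p633_44,
   p633_45,
   p633_46,
   p633_47],
  [s6_7 (s2_3 p633_36),
   s6_7 (s2_3 p633_37),
   s6_7 (s2_3 p633_44),
   s6_7 (s2_3 p633_45),
   p633_52,
   p633_53,
   p633_54,
   p633_55],
  [s6_7 (s2_3 p633_38),
   s6_7 (s2_3 p633_39),
   s6_7 (s2_3 p633_46),
   s6_7 (s2_3 p633_47),
   s6_7 (s2_3 p633_54),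
   s6_7 (s2_3 p633_55),
   p633_62,
   p633_63]]

theorem k633 : eqNN c633 (slO 64 (D.chG 187 52) 8) = true := by decide +kernel

/-- The slices of the chunk 634. -/
noncomputable def c634 : List (List ℕ) := [
  [tr p599_53,
   tr p600_53,
   p634_2,
   p634_3,
   p634_4,
   p634_5,
   p634_6,
   p634_7],
  [s6_7 (s2_3 p634_2),
   s6_7 (s2_3 p634_3),
   tr p607_53,
   tr p608_53,
   p634_12,
   p634_13,
   p634_14,
   p634_15],
  [s6_7 (s2_3 p634_4),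
   s6_7 (s2_3 p634_5),
   s6_7 (s2_3 p634_12),
   s6_7 (s2_3 p634_13),
   tr p613_53,
   tr p614_53,
   p634_22,
   p634_23],
  [s6_7 (s2_3 p634_6),
   s6_7 (s2_3 p634_7),
   s6_7 (s2_3 p634_14),
   s6_7 (s2_3 p634_15),
   s6_7 (s2_3 p634_22),
   s6_7 (s2_3 p634_23),
   tr p617_53,
   tr p618_53],
  [tr p619_53,
   tr p620_53,
   p634_34,
   p634_35,
   p634_36,
   p634_37,
   p634_38,
   p634_39],
  [s6_7 (s2_3 p634_34),
   s6_7 (s2_3 p634_35),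
   tr p627_53,
   tr p628_53,
   p634_44,
   p634_45,
   p634_46,
   p634_47],
  [s6_7 (s2_3 p634_36),
   s6_7 (s2_3 p634_37),
   s6_7 (s2_3 p634_44),
   s6_7 (s2_3 p634_45),
   tr p633_53,
   p634_53,
   p634_54,
   p634_55],
  [s6_7 (s2_3 p634_38),
   s6_7 (s2_3 p634_39),
   s6_7 (s2_3 p634_46),
   s6_7 (s2_3 p634_47),
   s6_7 (s2_3 p634_54),
   s6_7 (s2_3 p634_55),
   p634_62,
   p634_63]]

theorem k634 : eqNN c634 (slO 64 (D.chG 187 53) 8) = true := by decide +kernel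

/-- The slices of the chunk 635. -/
noncomputable def c635 : List (List ℕ) := [
  [tr p599_54,
   tr p600_54,
   tr p601_54,
   tr p602_54,
   tr p603_54,
   tr p604_54,
   tr p605_54,
   tr p606_54],
  [s3_6 (s2_7 (s1_5 (s0_4 p601_60))),
   s3_6 (s2_7 (s1_5 (s0_4 p602_60))),
   tr p607_54,
   tr p608_54,
   tr p609_54,
   tr p610_54,
   tr p611_54,
   tr p612_54],
  [s3_6 (s2_7 (s1_5 (s0_4 p603_60))),
   s3_6 (s2_7 (s1_5 (s0_4 p604_60))),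
   s3_6 (s2_7 (s1_5 (s0_4 p609_60))),
   s3_6 (s2_7 (s1_5 (s0_4 p610_60))),
   tr p613_54,
   tr p614_54,
   tr p615_54,
   tr p616_54],
  [s3_6 (s2_7 (s1_5 (s0_4 p605_60))),
   s3_6 (s2_7 (s1_5 (s0_4 p606_60))),
   s3_6 (s2_7 (s1_5 (s0_4 p611_60))),
   s3_6 (s2_7 (s1_5 (s0_4 p612_60))),
   s3_6 (s2_7 (s1_5 (s0_4 p615_60))),
   s3_6 (s2_7 (s1_5 (s0_4 p616_60))),
   tr p617_54,
   tr p618_54],
  [tr p619_54,
   tr p620_54,
   tr p621_54,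
   tr p622_54,
   tr p623_54,
   tr p624_54,
   tr p625_54,
   tr p626_54],
  [s3_6 (s2_7 (s1_5 (s0_4 p621_60))),
   s3_6 (s2_7 (s1_5 (s0_4 p622_60))),
   tr p627_54,
   tr p628_54,
   tr p629_54,
   tr p630_54,
   tr p631_54,
   tr p632_54],
  [s3_6 (s2_7 (s1_5 (s0_4 p623_60))),
   s3_6 (s2_7 (s1_5 (s0_4 p624_60))),
   s3_6 (s2_7 (s1_5 (s0_4 p629_60))),
   s3_6 (s2_7 (s1_5 (s0_4 p630_60))),
   tr p633_54,
   tr p634_54,
   p635_54,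
   p635_55],
  [s3_6 (s2_7 (s1_5 (s0_4 p625_60))),
   s3_6 (s2_7 (s1_5 (s0_4 p626_60))),
   s3_6 (s2_7 (s1_5 (s0_4 p631_60))),
   s3_6 (s2_7 (s1_5 (s0_4 p632_60))),
   p635_60,
   p635_61,
   tr p637_54,
   tr p638_54]]

theorem k635 : eqNN c635 (slO 64 (D.chG 187 54) 8) = true := by decide +kernel

end Pool.Agent.Lib.MP_afdd4d_co.K10.E6
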