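import Pool.Agent.Lib.MP_afdd4d_co.K10.E6.Dat
import Pool.Agent.Lib.MP_afdd4d_co.K10.E6.Mk
import Pool.Agent.Lib.MP_afdd4d_co.K8.F6Bl5
import Pool.Agent.Lib.MP_afdd4d_co.K10.E6.P0
import Pool.Agent.Lib.MP_afdd4d_co.K10.E6.P1
import Pool.Agent.Lib.MP_afdd4d_co.K10.E6.P2
import Pool.Agent.Lib.MP_afdd4d_co.K10.E6.P3
import Pool.Agent.Lib.MP_afdd4d_co.K10.E6.P4
import Pool.Agent.Lib.MP_afdd4d_co.K10.E6.P5
import Pool.Agent.Lib.MP_afdd4d_co.K10.E6.P6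
import Pool.Agent.Lib.MP_afdd4d_co.K10.E6.P7
import Pool.Agent.Lib.MP_afdd4d_co.K10.E6.P8
import Pool.Agent.Lib.MP_afdd4d_co.K10.E6.P9
import Pool.Agent.Lib.MP_afdd4d_co.K10.E6.P10
import Pool.Agent.Lib.MP_afdd4d_co.K10.E6.P11
import Pool.Agent.Lib.MP_afdd4d_co.K10.E6.P12
import Pool.Agent.Lib.MP_afdd4d_co.K10.E6.P13
import Pool.Agent.Lib.MP_afdd4d_co.K10.E6.P14
import Pool.Agent.Lib.MP_afdd4d_co.K10.E6.P15
import Pool.Agent.Lib.MP_afdd4d_co.K10.E6.P16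
import Pool.Agent.Lib.MP_afdd4d_co.K10.E6.P17
import Pool.Agent.Lib.MP_afdd4d_co.K10.E6.P18
import Pool.Agent.Lib.MP_afdd4d_co.K10.E6.P19
import Pool.Agent.Lib.MP_afdd4d_co.K10.E6.P20
import Pool.Agent.Lib.MP_afdd4d_co.K10.E6.P21
import Pool.Agent.Lib.MP_afdd4d_co.K10.E6.P22
import Pool.Agent.Lib.MP_afdd4d_co.K10.E6.P23
import Pool.Agent.Lib.MP_afdd4d_co.K10.E6.P24
import Pool.Agent.Lib.MP_afdd4d_co.K10.E6.P25
import Pool.Agent.Lib.MP_afdd4d_co.K10.E6.P26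
import Pool.Agent.Lib.MP_afdd4d_co.K10.E6.P27
import Pool.Agent.Lib.MP_afdd4d_co.K10.E6.P28
import Pool.Agent.Lib.MP_afdd4d_co.K10.E6.P29
import Pool.Agent.Lib.MP_afdd4d_co.K10.E6.P30
import Pool.Agent.Lib.MP_afdd4d_co.K10.E6.P31
import Pool.Agent.Lib.MP_afdd4d_co.K10.E6.P32

/-!
# Tables
-/

namespace Pool.Agent.Lib.MP_afdd4d_co.K10.E6

open K8

set_option maxRecDepth 100000
set_option exponentiation.threshold 10000000

/-- The slices of the chunk 636. -/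
noncomputable def c636 : List (List ℕ) := [
  [tr p599_55,
   tr p600_55,
   tr p601_55,
   tr p602_55,
   tr p603_55,
   tr p604_55,
   tr p605_55,
   tr p606_55],
  [s3_6 (s2_7 (s1_5 (s0_4 p601_61))),
   s3_6 (s2_7 (s1_5 (s0_4 p602_61))),
   tr p607_55,
   tr p608_55,
   tr p609_55,
   tr p610_55,
   tr p611_55,
   tr p612_55],
  [s3_6 (s2_7 (s1_5 (s0_4 p603_61))),
   s3_6 (s2_7 (s1_5 (s0_4 p604_61))),
   s3_6 (s2_7 (s1_5 (s0_4 p609_61))),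
   s3_6 (s2_7 (s1_5 (s0_4 p610_61))),
   tr p613_55,
   tr p614_55,
   tr p615_55,
   tr p616_55],
  [s3_6 (s2_7 (s1_5 (s0_4 p605_61))),
   s3_6 (s2_7 (s1_5 (s0_4 p606_61))),
   s3_6 (s2_7 (s1_5 (s0_4 p611_61))),
   s3_6 (s2_7 (s1_5 (s0_4 p612_61))),
   s3_6 (s2_7 (s1_5 (s0_4 p615_61))),
   s3_6 (s2_7 (s1_5 (s0_4 p616_61))),
   tr p617_55,
   tr p618_55],
  [tr p619_55,
   tr p620_55,
   tr p621_55,
   tr p622_55,
   tr p623_55,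
   tr p624_55,
   tr p625_55,
   tr p626_55],
  [s3_6 (s2_7 (s1_5 (s0_4 p621_61))),
   s3_6 (s2_7 (s1_5 (s0_4 p622_61))),
   tr p627_55,
   tr p628_55,
   tr p629_55,
   tr p630_55,
   tr p631_55,
   tr p632_55],
  [s3_6 (s2_7 (s1_5 (s0_4 p623_61))),
   s3_6 (s2_7 (s1_5 (s0_4 p624_61))),
   s3_6 (s2_7 (s1_5 (s0_4 p629_61))),
   s3_6 (s2_7 (s1_5 (s0_4 p630_61))),
   tr p633_55,
   tr p634_55,
   tr p635_55,
   p636_55],
  [s3_6 (s2_7 (s1_5 (s0_4 p625_61))),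
   s3_6 (s2_7 (s1_5 (s0_4 p626_61))),
   s3_6 (s2_7 (s1_5 (s0_4 p631_61))),
   s3_6 (s2_7 (s1_5 (s0_4 p632_61))),
   s3_6 (s2_7 (s1_5 (s0_4 p635_61))),
   p636_61,
   tr p637_55,
   tr p638_55]]

theorem k636 : eqNN c636 (slO 64 (D.chG 187 55) 8) = true := by decide +kernel

/-- The slices of the chunk 637. -/
noncomputable def c637 : List (List ℕ) := [
  [tr p599_62,
   tr p600_62,
   p637_2,
   p637_3,
   p637_4,
   p637_5,
   p637_6,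
   p637_7],
  [s6_7 (s2_3 p637_2),
   s6_7 (s2_3 p637_3),
   tr p607_62,
   tr p608_62,
   p637_12,
   p637_13,
   p637_14,
   p637_15],
  [s6_7 (s2_3 p637_4),
   s6_7 (s2_3 p637_5),
   s6_7 (s2_3 p637_12),
   s6_7 (s2_3 p637_13),
   tr p613_62,
   tr p614_62,
   p637_22,
   p637_23],
  [s6_7 (s2_3 p637_6),
   s6_7 (s2_3 p637_7),
   s6_7 (s2_3 p637_14),
   s6_7 (s2_3 p637_15),
   s6_7 (s2_3 p637_22),
   s6_7 (s2_3 p637_23),
   tr p617_62,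
   tr p618_62],
  [tr p619_62,
   tr p620_62,
   p637_34,
   p637_35,
   p637_36,
   p637_37,
   p637_38,
   p637_39],
  [s6_7 (s2_3 p637_34),
   s6_7 (s2_3 p637_35),
   tr p627_62,
   tr p628_62,
   p637_44,
   p637_45,
   p637_46,
   p637_47],
  [s6_7 (s2_3 p637_36),
   s6_7 (s2_3 p637_37),
   s6_7 (s2_3 p637_44),
   s6_7 (s2_3 p637_45),
   tr p633_62,
   tr p634_62,
   p637_54,
   p637_55],
  [s6_7 (s2_3 p637_38),
   s6_7 (s2_3 p637_39),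
   s6_7 (s2_3 p637_46),
   s6_7 (s2_3 p637_47),
   s6_7 (s2_3 p637_54),
   s6_7 (s2_3 p637_55),
   p637_62,
   p637_63]]

theorem k637 : eqNN c637 (slO 64 (D.chG 187 62) 8) = true := by decide +kernel

/-- The slices of the chunk 638. -/
noncomputable def c638 : List (List ℕ) := [
  [tr p599_63,
   tr p600_63,
   p638_2,
   p638_3,
   p638_4,
   p638_5,
   p638_6,
   p638_7],
  [s6_7 (s2_3 p638_2),
   s6_7 (s2_3 p638_3),
   tr p607_63,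
   tr p608_63,
   p638_12,
   p638_13,
   p638_14,
   p638_15],
  [s6_7 (s2_3 p638_4),
   s6_7 (s2_3 p638_5),
   s6_7 (s2_3 p638_12),
   s6_7 (s2_3 p638_13),
   tr p613_63,
   tr p614_63,
   p638_22,
   p638_23],
  [s6_7 (s2_3 p638_6),
   s6_7 (s2_3 p638_7),
   s6_7 (s2_3 p638_14),
   s6_7 (s2_3 p638_15),
   s6_7 (s2_3 p638_22),
   s6_7 (s2_3 p638_23),
   tr p617_63,
   tr p618_63],
  [tr p619_63,
   tr p620_63,
   p638_34,
   p638_35,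
   p638_36,
   p638_37,
   p638_38,
   p638_39],
  [s6_7 (s2_3 p638_34),
   s6_7 (s2_3 p638_35),
   tr p627_63,
   tr p628_63,
   p638_44,
   p638_45,
   p638_46,
   p638_47],
  [s6_7 (s2_3 p638_36),
   s6_7 (s2_3 p638_37),
   s6_7 (s2_3 p638_44),
   s6_7 (s2_3 p638_45),
   tr p633_63,
   tr p634_63,
   p638_54,
   p638_55],
  [s6_7 (s2_3 p638_38),
   s6_7 (s2_3 p638_39),
   s6_7 (s2_3 p638_46),
   s6_7 (s2_3 p638_47),
   s6_7 (s2_3 p638_54),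
   s6_7 (s2_3 p638_55),
   tr p637_63,
   p638_63]]

theorem k638 : eqNN c638 (slO 64 (D.chG 187 63) 8) = true := by decide +kernel

/-- The slices of the chunk 639. -/
noncomputable def c639 : List (List ℕ) := [
  [p639_0,
   p639_1,
   s5_6 (s1_2 p639_1),
   p639_3,
   p639_4,
   p639_5,
   s5_6 (s1_2 p639_5),
   p639_7],
  [s5_7 (s1_3 p639_1),
   s6_7 (s2_3 p639_3),
   s5_7 (s1_3 p639_3),
   p639_11,
   p639_12,
   p639_13,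
   s5_6 (s1_2 p639_13),
   p639_15],
  [s6_7 (s2_3 p639_4),
   s6_7 (s2_3 p639_5),
   s6_7 (s2_3 p639_12),
   s6_7 (s2_3 p639_13),
   p639_20,
   p639_21,
   p639_22,
   p639_23],
  [s6_7 (s5_6 (s2_3 (s1_2 p639_5))),
   s6_7 (s2_3 p639_7),
   s6_7 (s5_6 (s2_3 (s1_2 p639_13))),
   s6_7 (s2_3 p639_15),
   s6_7 (s2_3 p639_22),
   s6_7 (s2_3 p639_23),
   p639_30,
   p639_31],
  [s5_7 (s1_3 p639_4),
   s5_7 (s1_3 p639_12),
   s6_7 (s5_7 (s2_3 (s1_3 p639_5))),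
   s6_7 (s5_7 (s2_3 (s1_3 p639_13))),
   s5_6 (s1_2 p639_20),
   s5_6 (s1_2 p639_22),
   s5_6 (s1_2 p639_21),
   s5_6 (s1_2 p639_23)],
  [s5_7 (s1_3 p639_5),
   s5_7 (s1_3 p639_13),
   s5_7 (s1_3 p639_7),
   s5_7 (s1_3 p639_15),
   s6_7 (s5_7 (s2_3 (s1_3 p639_22))),
   s5_6 (s1_2 p639_30),
   s6_7 (s5_7 (s2_3 (s1_3 p639_23))),
   s5_6 (s1_2 p639_31)],
  [s5_7 (s1_3 p639_20),
   s6_7 (s5_6 (s2_3 (s1_2 p639_22))),
   s5_7 (s1_3 p639_22),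
   s5_7 (s1_3 p639_30),
   p639_52,
   p639_53,
   s5_6 (s1_2 p639_53),
   p639_55],
  [s5_7 (s1_3 p639_21),
   s6_7 (s5_6 (s2_3 (s1_2 p639_23))),
   s5_7 (s1_3 p639_23),
   s5_7 (s1_3 p639_31),
   s5_7 (s1_3 p639_53),
   s6_7 (s2_3 p639_55),
   s5_7 (s1_3 p639_55),
   p639_63]]

theorem k639 : eqNN c639 (slO 64 (D.chG 191 0) 8) = true := by decide +kernel

end Pool.Agent.Lib.MP_afdd4d_co.K10.E6
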