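import Pool.Agent.Lib.MP_afdd4d_co.K10.E6.Dat
import Pool.Agent.Lib.MP_afdd4d_co.K10.E6.Mk
import Pool.Agent.Lib.MP_afdd4d_co.K8.F6Bl5
import Pool.Agent.Lib.MP_afdd4d_co.K10.E6.P0
import Pool.Agent.Lib.MP_afdd4d_co.K10.E6.P1
import Pool.Agent.Lib.MP_afdd4d_co.K10.E6.P2
import Pool.Agent.Lib.MP_afdd4d_co.K10.E6.P3
import Pool.Agent.Lib.MP_afdd4d_co.K10.E6.P4
import Pool.Agent.Lib.MP_afdd4d_co.K10.E6.P5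
import Pool.Agent.Lib.MP_afdd4d_co.K10.E6.P6
import Pool.Agent.Lib.MP_afdd4d_co.K10.E6.P7
import Pool.Agent.Lib.MP_afdd4d_co.K10.E6.P8
import Pool.Agent.Lib.MP_afdd4d_co.K10.E6.P9
import Pool.Agent.Lib.MP_afdd4d_co.K10.E6.P10
import Pool.Agent.Lib.MP_afdd4d_co.K10.E6.P11
import Pool.Agent.Lib.MP_afdd4d_co.K10.E6.P12
import Pool.Agent.Lib.MP_afdd4d_co.K10.E6.P13
import Pool.Agent.Lib.MP_afdd4d_co.K10.E6.P14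
import Pool.Agent.Lib.MP_afdd4d_co.K10.E6.P15
import Pool.Agent.Lib.MP_afdd4d_co.K10.E6.P16
import Pool.Agent.Lib.MP_afdd4d_co.K10.E6.P17
import Pool.Agent.Lib.MP_afdd4d_co.K10.E6.P18
import Pool.Agent.Lib.MP_afdd4d_co.K10.E6.P19
import Pool.Agent.Lib.MP_afdd4d_co.K10.E6.P20
import Pool.Agent.Lib.MP_afdd4d_co.K10.E6.P21
import Pool.Agent.Lib.MP_afdd4d_co.K10.E6.P22
import Pool.Agent.Lib.MP_afdd4d_co.K10.E6.P23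
import Pool.Agent.Lib.MP_afdd4d_co.K10.E6.P24
import Pool.Agent.Lib.MP_afdd4d_co.K10.E6.P25
import Pool.Agent.Lib.MP_afdd4d_co.K10.E6.P26
import Pool.Agent.Lib.MP_afdd4d_co.K10.E6.P27
import Pool.Agent.Lib.MP_afdd4d_co.K10.E6.P28
import Pool.Agent.Lib.MP_afdd4d_co.K10.E6.P29
import Pool.Agent.Lib.MP_afdd4d_co.K10.E6.P30
import Pool.Agent.Lib.MP_afdd4d_co.K10.E6.P31
import Pool.Agent.Lib.MP_afdd4d_co.K10.E6.P32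

/-!
# Tables
-/

namespace Pool.Agent.Lib.MP_afdd4d_co.K10.E6

open K8

set_option maxRecDepth 100000
set_option exponentiation.threshold 10000000

/-- The slices of the chunk 64. -/
noncomputable def c64 : List (List ℕ) := [
  [tr p51_23,
   tr p52_23,
   s3_7 (s2_5 (s1_6 (s0_4 p52_39))),
   tr p53_23,
   tr p54_23,
   tr p55_23,
   s3_7 (s2_5 (s1_6 (s0_4 p55_39))),
   tr p56_23],
  [s3_5 (s2_6 (s1_7 (s0_4 p52_58))),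
   s3_6 (s2_7 (s1_5 (s0_4 p53_29))),
   s3_5 (s2_6 (s1_7 (s0_4 p53_58))),
   tr p57_23,
   tr p58_23,
   tr p59_23,
   s3_7 (s2_5 (s1_6 (s0_4 p59_39))),
   tr p60_23],
  [s3_6 (s2_7 (s1_5 (s0_4 p54_29))),
   s3_6 (s2_7 (s1_5 (s0_4 p55_29))),
   s3_6 (s2_7 (s1_5 (s0_4 p58_29))),
   s3_6 (s2_7 (s1_5 (s0_4 p59_29))),
   tr p61_23,
   tr p62_23,
   tr p63_23,
   p64_23],
  [s6_7 (s5_7 (s3_5 (s2_7 (s1_6 (s0_4 p55_46))))),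
   s3_6 (s2_7 (s1_5 (s0_4 p56_29))),
   s6_7 (s5_7 (s3_5 (s2_7 (s1_6 (s0_4 p59_46))))),
   s3_6 (s2_7 (s1_5 (s0_4 p60_29))),
   s3_6 (s2_7 (s1_5 (s0_4 p63_29))),
   p64_29,
   tr p65_23,
   tr p66_23],
  [s3_5 (s2_6 (s1_7 (s0_4 p54_58))),
   s3_5 (s2_6 (s1_7 (s0_4 p58_58))),
   s6_7 (s5_6 (s3_6 (s2_5 (s1_7 (s0_4 p55_57))))),
   s6_7 (s5_6 (s3_6 (s2_5 (s1_7 (s0_4 p59_57))))),
   s3_7 (s2_5 (s1_6 (s0_4 p61_39))),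
   s3_7 (s2_5 (s1_6 (s0_4 p63_39))),
   s3_7 (s2_5 (s1_6 (s0_4 p62_39))),
   p64_39],
  [s3_5 (s2_6 (s1_7 (s0_4 p55_58))),
   s3_5 (s2_6 (s1_7 (s0_4 p59_58))),
   s3_5 (s2_6 (s1_7 (s0_4 p56_58))),
   s3_5 (s2_6 (s1_7 (s0_4 p60_58))),
   s6_7 (s5_6 (s3_6 (s2_5 (s1_7 (s0_4 p63_57))))),
   s3_7 (s2_5 (s1_6 (s0_4 p65_39))),
   p64_46,
   s3_7 (s2_5 (s1_6 (s0_4 p66_39)))],
  [s3_5 (s2_6 (s1_7 (s0_4 p61_58))),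
   s6_7 (s5_7 (s3_5 (s2_7 (s1_6 (s0_4 p63_46))))),
   s3_5 (s2_6 (s1_7 (s0_4 p63_58))),
   s3_5 (s2_6 (s1_7 (s0_4 p65_58))),
   tr p67_23,
   tr p68_23,
   s3_7 (s2_5 (s1_6 (s0_4 p68_39))),
   tr p69_23],
  [s3_5 (s2_6 (s1_7 (s0_4 p62_58))),
   s6_7 (s5_7 (s3_5 (s2_7 (s1_6 (s0_4 p64_46))))),
   p64_58,
   s3_5 (s2_6 (s1_7 (s0_4 p66_58))),
   s3_5 (s2_6 (s1_7 (s0_4 p68_58))),
   s3_6 (s2_7 (s1_5 (s0_4 p69_29))),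
   s3_5 (s2_6 (s1_7 (s0_4 p69_58))),
   tr p70_23]]

theorem k64 : eqNN c64 (slO 64 (D.chG 7 23) 8) = true := by decide +kernel

/-- The slices of the chunk 65. -/
noncomputable def c65 : List (List ℕ) := [
  [tr p51_30,
   tr p52_30,
   s3_7 (s2_5 (s1_6 (s0_4 p52_45))),
   tr p53_30,
   tr p54_30,
   p65_5,
   p65_6,
   tr p56_30],
  [s6_7 (s5_7 (s3_5 (s2_7 (s1_6 (s0_4 p52_45))))),
   s3_6 (s2_7 (s1_5 (s0_4 p53_30))),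
   s3_5 (s2_6 (s1_7 (s0_4 p53_51))),
   tr p57_30,
   tr p58_30,
   p65_13,
   p65_14,
   tr p60_30],
  [s3_6 (s2_7 (s1_5 (s0_4 p54_30))),
   s6_7 (s2_3 p65_5),
   s3_6 (s2_7 (s1_5 (s0_4 p58_30))),
   s6_7 (s2_3 p65_13),
   tr p61_30,
   tr p62_30,
   p65_22,
   p65_23],
  [s6_7 (s2_3 p65_6),
   s3_6 (s2_7 (s1_5 (s0_4 p56_30))),
   s6_7 (s2_3 p65_14),
   s3_6 (s2_7 (s1_5 (s0_4 p60_30))),
   s6_7 (s2_3 p65_22),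
   s6_7 (s2_3 p65_23),
   p65_30,
   p65_31],
  [s3_5 (s2_6 (s1_7 (s0_4 p54_51))),
   s3_5 (s2_6 (s1_7 (s0_4 p58_51))),
   s6_7 (s2_3 p65_40),
   s6_7 (s2_3 p65_41),
   s3_7 (s2_5 (s1_6 (s0_4 p61_45))),
   p65_37,
   s3_7 (s2_5 (s1_6 (s0_4 p62_45))),
   p65_39],
  [p65_40,
   p65_41,
   s3_5 (s2_6 (s1_7 (s0_4 p56_51))),
   s3_5 (s2_6 (s1_7 (s0_4 p60_51))),
   s6_7 (s2_3 p65_50),
   p65_45,
   s6_7 (s2_3 p65_58),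
   p65_47],
  [s6_7 (s5_7 (s3_5 (s2_7 (s1_6 (s0_4 p61_45))))),
   s6_7 (s2_3 p65_37),
   p65_50,
   s6_7 (s2_3 p65_45),
   tr p67_30,
   p65_53,
   p65_54,
   p65_55],
  [s6_7 (s5_7 (s3_5 (s2_7 (s1_6 (s0_4 p62_45))))),
   s6_7 (s2_3 p65_39),
   p65_58,
   s6_7 (s2_3 p65_47),
   s6_7 (s2_3 p65_54),
   s6_7 (s2_3 p65_55),
   p65_62,
   tr p70_30]]

theorem k65 : eqNN c65 (slO 64 (D.chG 7 30) 8) = true := by decide +kernel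

/-- The slices of the chunk 66. -/
noncomputable def c66 : List (List ℕ) := [
  [tr p51_31,
   tr p52_31,
   s3_7 (s2_5 (s1_6 (s0_4 p52_47))),
   tr p53_31,
   tr p54_31,
   p66_5,
   p66_6,
   tr p56_31],
  [s6_7 (s5_7 (s3_5 (s2_7 (s1_6 (s0_4 p52_47))))),
   s3_6 (s2_7 (s1_5 (s0_4 p53_31))),
   s3_5 (s2_6 (s1_7 (s0_4 p53_59))),
   tr p57_31,
   tr p58_31,
   p66_13,
   p66_14,
   tr p60_31],
  [s3_6 (s2_7 (s1_5 (s0_4 p54_31))),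
   s6_7 (s2_3 p66_5),
   s3_6 (s2_7 (s1_5 (s0_4 p58_31))),
   s6_7 (s2_3 p66_13),
   tr p61_31,
   tr p62_31,
   p66_22,
   p66_23],
  [s6_7 (s2_3 p66_6),
   s3_6 (s2_7 (s1_5 (s0_4 p56_31))),
   s6_7 (s2_3 p66_14),
   s3_6 (s2_7 (s1_5 (s0_4 p60_31))),
   s6_7 (s2_3 p66_22),
   s6_7 (s2_3 p66_23),
   tr p65_31,
   p66_31],
  [s3_5 (s2_6 (s1_7 (s0_4 p54_59))),
   s3_5 (s2_6 (s1_7 (s0_4 p58_59))),
   s6_7 (s2_3 p66_40),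
   s6_7 (s2_3 p66_41),
   s3_7 (s2_5 (s1_6 (s0_4 p61_47))),
   p66_37,
   s3_7 (s2_5 (s1_6 (s0_4 p62_47))),
   p66_39],
  [p66_40,
   p66_41,
   s3_5 (s2_6 (s1_7 (s0_4 p56_59))),
   s3_5 (s2_6 (s1_7 (s0_4 p60_59))),
   s6_7 (s2_3 p66_50),
   s3_7 (s2_5 (s1_6 (s0_4 p65_47))),
   s6_7 (s2_3 p66_58),
   p66_47],
  [s6_7 (s5_7 (s3_5 (s2_7 (s1_6 (s0_4 p61_47))))),
   s6_7 (s2_3 p66_37),
   p66_50,
   s6_7 (s5_7 (s3_5 (s2_7 (s1_6 (s0_4 p65_47))))),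
   tr p67_31,
   p66_53,
   p66_54,
   p66_55],
  [s6_7 (s5_7 (s3_5 (s2_7 (s1_6 (s0_4 p62_47))))),
   s6_7 (s2_3 p66_39),
   p66_58,
   s6_7 (s2_3 p66_47),
   s6_7 (s2_3 p66_54),
   s6_7 (s2_3 p66_55),
   p66_62,
   tr p70_31]]

theorem k66 : eqNN c66 (slO 64 (D.chG 7 31) 8) = true := by decide +kernel

/-- The slices of the chunk 67. -/
noncomputable def c67 : List (List ℕ) := [
  [tr p51_52,
   p67_1,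
   s5_6 (s1_2 p67_1),
   p67_3,
   p67_4,
   p67_5,
   s5_6 (s1_2 p67_5),
   p67_7],
  [s5_7 (s1_3 p67_1),
   s6_7 (s2_3 p67_3),
   s5_7 (s1_3 p67_3),
   tr p57_52,
   p67_12,
   p67_13,
   s5_6 (s1_2 p67_13),
   p67_15],
  [s6_7 (s2_3 p67_4),
   s6_7 (s2_3 p67_5),
   s6_7 (s2_3 p67_12),
   s6_7 (s2_3 p67_13),
   p67_20,
   p67_21,
   p67_22,
   p67_23],
  [s6_7 (s5_6 (s2_3 (s1_2 p67_5))),
   s6_7 (s2_3 p67_7),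
   s6_7 (s5_6 (s2_3 (s1_2 p67_13))),
   s6_7 (s2_3 p67_15),
   s6_7 (s2_3 p67_22),
   s6_7 (s2_3 p67_23),
   p67_30,
   p67_31],
  [s5_7 (s1_3 p67_4),
   s5_7 (s1_3 p67_12),
   s6_7 (s5_7 (s2_3 (s1_3 p67_5))),
   s6_7 (s5_7 (s2_3 (s1_3 p67_13))),
   s5_6 (s1_2 p67_20),
   s5_6 (s1_2 p67_22),
   s5_6 (s1_2 p67_21),
   s5_6 (s1_2 p67_23)],
  [s5_7 (s1_3 p67_5),
   s5_7 (s1_3 p67_13),
   s5_7 (s1_3 p67_7),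
   s5_7 (s1_3 p67_15),
   s6_7 (s5_7 (s2_3 (s1_3 p67_22))),
   s5_6 (s1_2 p67_30),
   s6_7 (s5_7 (s2_3 (s1_3 p67_23))),
   s5_6 (s1_2 p67_31)],
  [s5_7 (s1_3 p67_20),
   s6_7 (s5_6 (s2_3 (s1_2 p67_22))),
   s5_7 (s1_3 p67_22),
   s5_7 (s1_3 p67_30),
   p67_52,
   p67_53,
   s5_6 (s1_2 p67_53),
   p67_55],
  [s5_7 (s1_3 p67_21),
   s6_7 (s5_6 (s2_3 (s1_2 p67_23))),
   s5_7 (s1_3 p67_23),
   s5_7 (s1_3 p67_31),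
   s5_7 (s1_3 p67_53),
   s6_7 (s2_3 p67_55),
   s5_7 (s1_3 p67_55),
   p67_63]]

theorem k67 : eqNN c67 (slO 64 (D.chG 7 52) 8) = true := by decide +kernel

end Pool.Agent.Lib.MP_afdd4d_co.K10.E6
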