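import Pool.Agent.Lib.MP_afdd4d_co.K10.E6.Dat
import Pool.Agent.Lib.MP_afdd4d_co.K10.E6.Mk
import Pool.Agent.Lib.MP_afdd4d_co.K8.F6Bl5
import Pool.Agent.Lib.MP_afdd4d_co.K10.E6.P0
import Pool.Agent.Lib.MP_afdd4d_co.K10.E6.P1
import Pool.Agent.Lib.MP_afdd4d_co.K10.E6.P2
import Pool.Agent.Lib.MP_afdd4d_co.K10.E6.P3
import Pool.Agent.Lib.MP_afdd4d_co.K10.E6.P4
import Pool.Agent.Lib.MP_afdd4d_co.K10.E6.P5
import Pool.Agent.Lib.MP_afdd4d_co.K10.E6.P6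
import Pool.Agent.Lib.MP_afdd4d_co.K10.E6.P7
import Pool.Agent.Lib.MP_afdd4d_co.K10.E6.P8
import Pool.Agent.Lib.MP_afdd4d_co.K10.E6.P9
import Pool.Agent.Lib.MP_afdd4d_co.K10.E6.P10
import Pool.Agent.Lib.MP_afdd4d_co.K10.E6.P11
import Pool.Agent.Lib.MP_afdd4d_co.K10.E6.P12
import Pool.Agent.Lib.MP_afdd4d_co.K10.E6.P13
import Pool.Agent.Lib.MP_afdd4d_co.K10.E6.P14
import Pool.Agent.Lib.MP_afdd4d_co.K10.E6.P15
import Pool.Agent.Lib.MP_afdd4d_co.K10.E6.P16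
import Pool.Agent.Lib.MP_afdd4d_co.K10.E6.P17
import Pool.Agent.Lib.MP_afdd4d_co.K10.E6.P18
import Pool.Agent.Lib.MP_afdd4d_co.K10.E6.P19
import Pool.Agent.Lib.MP_afdd4d_co.K10.E6.P20
import Pool.Agent.Lib.MP_afdd4d_co.K10.E6.P21
import Pool.Agent.Lib.MP_afdd4d_co.K10.E6.P22
import Pool.Agent.Lib.MP_afdd4d_co.K10.E6.P23
import Pool.Agent.Lib.MP_afdd4d_co.K10.E6.P24
import Pool.Agent.Lib.MP_afdd4d_co.K10.E6.P25
import Pool.Agent.Lib.MP_afdd4d_co.K10.E6.P26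
import Pool.Agent.Lib.MP_afdd4d_co.K10.E6.P27
import Pool.Agent.Lib.MP_afdd4d_co.K10.E6.P28
import Pool.Agent.Lib.MP_afdd4d_co.K10.E6.P29
import Pool.Agent.Lib.MP_afdd4d_co.K10.E6.P30
import Pool.Agent.Lib.MP_afdd4d_co.K10.E6.P31
import Pool.Agent.Lib.MP_afdd4d_co.K10.E6.P32

/-!
# Tables
-/

namespace Pool.Agent.Lib.MP_afdd4d_co.K10.E6

open K8

set_option maxRecDepth 100000
set_option exponentiation.threshold 10000000

/-- The slices of the chunk 640. -/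
noncomputable def c640 : List (List ℕ) := [
  [tr p639_1,
   p640_1,
   p640_2,
   p640_3,
   p640_4,
   p640_5,
   p640_6,
   p640_7],
  [s6_7 (s2_3 p640_2),
   s6_7 (s2_3 p640_3),
   p640_10,
   tr p645_1,
   p640_12,
   p640_13,
   p640_14,
   p640_15],
  [s6_7 (s2_3 p640_4),
   s6_7 (s2_3 p640_5),
   s6_7 (s2_3 p640_12),
   s6_7 (s2_3 p640_13),
   p640_20,
   p640_21,
   p640_22,
   p640_23],
  [s6_7 (s2_3 p640_6),
   s6_7 (s2_3 p640_7),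
   s6_7 (s2_3 p640_14),
   s6_7 (s2_3 p640_15),
   s6_7 (s2_3 p640_22),
   s6_7 (s2_3 p640_23),
   p640_30,
   p640_31],
  [p640_32,
   p640_33,
   s6_7 (s2_3 p640_40),
   s6_7 (s2_3 p640_41),
   p640_36,
   p640_37,
   p640_38,
   p640_39],
  [p640_40,
   p640_41,
   p640_42,
   p640_43,
   s6_7 (s2_3 p640_50),
   p640_45,
   s6_7 (s2_3 p640_58),
   p640_47],
  [s6_7 (s2_3 p640_36),
   s6_7 (s2_3 p640_37),
   p640_50,
   s6_7 (s2_3 p640_45),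
   tr p655_1,
   p640_53,
   p640_54,
   p640_55],
  [s6_7 (s2_3 p640_38),
   s6_7 (s2_3 p640_39),
   p640_58,
   s6_7 (s2_3 p640_47),
   s6_7 (s2_3 p640_54),
   s6_7 (s2_3 p640_55),
   p640_62,
   tr p658_1]]

theorem k640 : eqNN c640 (slO 64 (D.chG 191 1) 8) = true := by decide +kernel

/-- The slices of the chunk 641. -/
noncomputable def c641 : List (List ℕ) := [
  [tr p639_3,
   tr p640_3,
   s3_7 (s2_5 (s1_6 (s0_4 p640_3))),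
   p641_3,
   p641_4,
   p641_5,
   s5_6 (s1_2 p641_5),
   p641_7],
  [s3_5 (s2_6 (s1_7 (s0_4 p640_10))),
   p641_9,
   s5_6 (s1_2 p641_9),
   tr p645_3,
   p641_12,
   p641_13,
   s5_6 (s1_2 p641_13),
   p641_15],
  [p641_16,
   p641_17,
   p641_18,
   p641_19,
   p641_20,
   p641_21,
   p641_22,
   p641_23],
  [s5_6 (s1_2 p641_40),
   p641_25,
   s5_6 (s1_2 p641_41),
   p641_27,
   p641_28,
   p641_29,
   p641_30,
   p641_31],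
  [s5_6 (s1_2 p641_16),
   s5_6 (s1_2 p641_18),
   s5_6 (s1_2 p641_17),
   s5_6 (s1_2 p641_19),
   s5_6 (s1_2 p641_20),
   s5_6 (s1_2 p641_22),
   s5_6 (s1_2 p641_21),
   s5_6 (s1_2 p641_23)],
  [p641_40,
   p641_41,
   s5_6 (s1_2 p641_25),
   s5_6 (s1_2 p641_27),
   s5_6 (s1_2 p641_28),
   s5_6 (s1_2 p641_30),
   s5_6 (s1_2 p641_29),
   s5_6 (s1_2 p641_31)],
  [p641_48,
   s5_6 (s1_2 p641_50),
   p641_50,
   p641_51,
   tr p655_3,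
   p641_53,
   s5_6 (s1_2 p641_53),
   p641_55],
  [p641_56,
   s5_6 (s1_2 p641_58),
   p641_58,
   p641_59,
   p641_60,
   p641_61,
   s5_6 (s1_2 p641_61),
   tr p658_3]]

theorem k641 : eqNN c641 (slO 64 (D.chG 191 3) 8) = true := by decide +kernel

/-- The slices of the chunk 642. -/
noncomputable def c642 : List (List ℕ) := [
  [tr p639_4,
   tr p640_4,
   s3_7 (s2_5 (s1_6 (s0_4 p640_4))),
   tr p641_4,
   p642_4,
   p642_5,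
   s5_6 (s1_2 p642_5),
   p642_7],
  [s3_5 (s2_6 (s1_7 (s0_4 p640_32))),
   s3_6 (s2_7 (s1_5 (s0_4 p641_16))),
   s6_7 (s5_6 (s3_6 (s2_5 (s1_7 (s0_4 p641_16))))),
   tr p645_4,
   p642_12,
   p642_13,
   s5_6 (s1_2 p642_13),
   p642_15],
  [p642_16,
   p642_17,
   p642_18,
   p642_19,
   p642_20,
   p642_21,
   p642_22,
   p642_23],
  [s5_6 (s1_2 p642_40),
   p642_25,
   s5_6 (s1_2 p642_41),
   p642_27,
   p642_28,
   p642_29,
   p642_30,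
   p642_31],
  [s5_6 (s1_2 p642_16),
   s5_6 (s1_2 p642_18),
   s5_6 (s1_2 p642_17),
   s5_6 (s1_2 p642_19),
   s5_6 (s1_2 p642_20),
   s5_6 (s1_2 p642_22),
   s5_6 (s1_2 p642_21),
   s5_6 (s1_2 p642_23)],
  [p642_40,
   p642_41,
   s5_6 (s1_2 p642_25),
   s5_6 (s1_2 p642_27),
   s5_6 (s1_2 p642_28),
   s5_6 (s1_2 p642_30),
   s5_6 (s1_2 p642_29),
   s5_6 (s1_2 p642_31)],
  [p642_48,
   s5_6 (s1_2 p642_50),
   p642_50,
   p642_51,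
   tr p655_4,
   p642_53,
   s5_6 (s1_2 p642_53),
   p642_55],
  [p642_56,
   s5_6 (s1_2 p642_58),
   p642_58,
   p642_59,
   p642_60,
   p642_61,
   s5_6 (s1_2 p642_61),
   tr p658_4]]

theorem k642 : eqNN c642 (slO 64 (D.chG 191 4) 8) = true := by decide +kernel

/-- The slices of the chunk 643. -/
noncomputable def c643 : List (List ℕ) := [
  [tr p639_5,
   tr p640_5,
   s3_7 (s2_5 (s1_6 (s0_4 p640_6))),
   tr p641_5,
   tr p642_5,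
   p643_5,
   p643_6,
   tr p644_5],
  [s3_5 (s2_6 (s1_7 (s0_4 p640_40))),
   s3_6 (s2_7 (s1_5 (s0_4 p641_17))),
   s3_5 (s2_6 (s1_7 (s0_4 p641_40))),
   tr p645_5,
   tr p646_5,
   p643_13,
   p643_14,
   tr p648_5],
  [s3_6 (s2_7 (s1_5 (s0_4 p642_17))),
   p643_17,
   s3_6 (s2_7 (s1_5 (s0_4 p646_17))),
   p643_19,
   tr p649_5,
   tr p650_5,
   p643_22,
   p643_23],
  [p643_24,
   s3_6 (s2_7 (s1_5 (s0_4 p644_17))),
   p643_26,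
   s3_6 (s2_7 (s1_5 (s0_4 p648_17))),
   p643_28,
   p643_29,
   tr p653_5,
   tr p654_5],
  [s3_5 (s2_6 (s1_7 (s0_4 p642_40))),
   s3_5 (s2_6 (s1_7 (s0_4 p646_40))),
   s6_7 (s5_6 (s3_6 (s2_5 (s1_7 (s0_4 p643_24))))),
   p643_35,
   s3_7 (s2_5 (s1_6 (s0_4 p649_6))),
   p643_37,
   s3_7 (s2_5 (s1_6 (s0_4 p650_6))),
   p643_39],
  [p643_40,
   p643_41,
   s3_5 (s2_6 (s1_7 (s0_4 p644_40))),
   s3_5 (s2_6 (s1_7 (s0_4 p648_40))),
   p643_44,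
   s3_7 (s2_5 (s1_6 (s0_4 p653_6))),
   p643_46,
   s3_7 (s2_5 (s1_6 (s0_4 p654_6)))],
  [s3_5 (s2_6 (s1_7 (s0_4 p649_40))),
   p643_49,
   p643_50,
   s3_5 (s2_6 (s1_7 (s0_4 p653_40))),
   tr p655_5,
   tr p656_5,
   s3_7 (s2_5 (s1_6 (s0_4 p656_6))),
   tr p657_5],
  [s3_5 (s2_6 (s1_7 (s0_4 p650_40))),
   p643_57,
   p643_58,
   s3_5 (s2_6 (s1_7 (s0_4 p654_40))),
   s3_5 (s2_6 (s1_7 (s0_4 p656_40))),
   s3_6 (s2_7 (s1_5 (s0_4 p657_17))),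
   s3_5 (s2_6 (s1_7 (s0_4 p657_40))),
   tr p658_5]]

theorem k643 : eqNN c643 (slO 64 (D.chG 191 5) 8) = true := by decide +kernel

end Pool.Agent.Lib.MP_afdd4d_co.K10.E6
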