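import Pool.Agent.Lib.MP_afdd4d_co.K10.E6.Dat
import Pool.Agent.Lib.MP_afdd4d_co.K10.E6.Mk
import Pool.Agent.Lib.MP_afdd4d_co.K8.F6Bl5
import Pool.Agent.Lib.MP_afdd4d_co.K10.E6.P0
import Pool.Agent.Lib.MP_afdd4d_co.K10.E6.P1
import Pool.Agent.Lib.MP_afdd4d_co.K10.E6.P2
import Pool.Agent.Lib.MP_afdd4d_co.K10.E6.P3
import Pool.Agent.Lib.MP_afdd4d_co.K10.E6.P4
import Pool.Agent.Lib.MP_afdd4d_co.K10.E6.P5
import Pool.Agent.Lib.MP_afdd4d_co.K10.E6.P6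
import Pool.Agent.Lib.MP_afdd4d_co.K10.E6.P7
import Pool.Agent.Lib.MP_afdd4d_co.K10.E6.P8
import Pool.Agent.Lib.MP_afdd4d_co.K10.E6.P9
import Pool.Agent.Lib.MP_afdd4d_co.K10.E6.P10
import Pool.Agent.Lib.MP_afdd4d_co.K10.E6.P11
import Pool.Agent.Lib.MP_afdd4d_co.K10.E6.P12
import Pool.Agent.Lib.MP_afdd4d_co.K10.E6.P13
import Pool.Agent.Lib.MP_afdd4d_co.K10.E6.P14
import Pool.Agent.Lib.MP_afdd4d_co.K10.E6.P15
import Pool.Agent.Lib.MP_afdd4d_co.K10.E6.P16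
import Pool.Agent.Lib.MP_afdd4d_co.K10.E6.P17
import Pool.Agent.Lib.MP_afdd4d_co.K10.E6.P18
import Pool.Agent.Lib.MP_afdd4d_co.K10.E6.P19
import Pool.Agent.Lib.MP_afdd4d_co.K10.E6.P20
import Pool.Agent.Lib.MP_afdd4d_co.K10.E6.P21
import Pool.Agent.Lib.MP_afdd4d_co.K10.E6.P22
import Pool.Agent.Lib.MP_afdd4d_co.K10.E6.P23
import Pool.Agent.Lib.MP_afdd4d_co.K10.E6.P24
import Pool.Agent.Lib.MP_afdd4d_co.K10.E6.P25
import Pool.Agent.Lib.MP_afdd4d_co.K10.E6.P26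
import Pool.Agent.Lib.MP_afdd4d_co.K10.E6.P27
import Pool.Agent.Lib.MP_afdd4d_co.K10.E6.P28
import Pool.Agent.Lib.MP_afdd4d_co.K10.E6.P29
import Pool.Agent.Lib.MP_afdd4d_co.K10.E6.P30
import Pool.Agent.Lib.MP_afdd4d_co.K10.E6.P31
import Pool.Agent.Lib.MP_afdd4d_co.K10.E6.P32

/-!
# Tables
-/

namespace Pool.Agent.Lib.MP_afdd4d_co.K10.E6

open K8

set_option maxRecDepth 100000
set_option exponentiation.threshold 10000000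

/-- The slices of the chunk 644. -/
noncomputable def c644 : List (List ℕ) := [
  [tr p639_7,
   tr p640_7,
   s3_7 (s2_5 (s1_6 (s0_4 p640_7))),
   tr p641_7,
   tr p642_7,
   p644_5,
   s5_6 (s1_2 p644_5),
   p644_7],
  [s3_5 (s2_6 (s1_7 (s0_4 p640_42))),
   s3_6 (s2_7 (s1_5 (s0_4 p641_25))),
   s6_7 (s5_6 (s3_6 (s2_5 (s1_7 (s0_4 p641_25))))),
   tr p645_7,
   p644_12,
   p644_13,
   s5_6 (s1_2 p644_13),
   p644_15],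
  [s3_6 (s2_7 (s1_5 (s0_4 p642_25))),
   p644_17,
   p644_18,
   p644_19,
   p644_20,
   p644_21,
   p644_22,
   p644_23],
  [s5_6 (s1_2 p644_40),
   p644_25,
   s5_6 (s1_2 p644_41),
   p644_27,
   p644_28,
   p644_29,
   p644_30,
   p644_31],
  [s6_7 (s5_6 (s3_6 (s2_5 (s1_7 (s0_4 p642_25))))),
   s5_6 (s1_2 p644_18),
   s5_6 (s1_2 p644_17),
   s5_6 (s1_2 p644_19),
   s5_6 (s1_2 p644_20),
   s5_6 (s1_2 p644_22),
   s5_6 (s1_2 p644_21),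
   s5_6 (s1_2 p644_23)],
  [p644_40,
   p644_41,
   s5_6 (s1_2 p644_25),
   s5_6 (s1_2 p644_27),
   s5_6 (s1_2 p644_28),
   s5_6 (s1_2 p644_30),
   s5_6 (s1_2 p644_29),
   s5_6 (s1_2 p644_31)],
  [p644_48,
   s5_6 (s1_2 p644_50),
   p644_50,
   p644_51,
   tr p655_7,
   p644_53,
   s5_6 (s1_2 p644_53),
   p644_55],
  [p644_56,
   s5_6 (s1_2 p644_58),
   p644_58,
   p644_59,
   p644_60,
   p644_61,
   s5_6 (s1_2 p644_61),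
   tr p658_7]]

theorem k644 : eqNN c644 (slO 64 (D.chG 191 7) 8) = true := by decide +kernel

/-- The slices of the chunk 645. -/
noncomputable def c645 : List (List ℕ) := [
  [tr p639_11,
   p645_1,
   s5_6 (s1_2 p645_1),
   p645_3,
   p645_4,
   p645_5,
   s5_6 (s1_2 p645_5),
   p645_7],
  [s5_7 (s1_3 p645_1),
   s6_7 (s2_3 p645_3),
   s5_7 (s1_3 p645_3),
   p645_11,
   p645_12,
   p645_13,
   s5_6 (s1_2 p645_13),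
   p645_15],
  [s6_7 (s2_3 p645_4),
   s6_7 (s2_3 p645_5),
   s6_7 (s2_3 p645_12),
   s6_7 (s2_3 p645_13),
   p645_20,
   p645_21,
   p645_22,
   p645_23],
  [s6_7 (s5_6 (s2_3 (s1_2 p645_5))),
   s6_7 (s2_3 p645_7),
   s6_7 (s5_6 (s2_3 (s1_2 p645_13))),
   s6_7 (s2_3 p645_15),
   s6_7 (s2_3 p645_22),
   s6_7 (s2_3 p645_23),
   p645_30,
   p645_31],
  [s5_7 (s1_3 p645_4),
   s5_7 (s1_3 p645_12),
   s6_7 (s5_7 (s2_3 (s1_3 p645_5))),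
   s6_7 (s5_7 (s2_3 (s1_3 p645_13))),
   s5_6 (s1_2 p645_20),
   s5_6 (s1_2 p645_22),
   s5_6 (s1_2 p645_21),
   s5_6 (s1_2 p645_23)],
  [s5_7 (s1_3 p645_5),
   s5_7 (s1_3 p645_13),
   s5_7 (s1_3 p645_7),
   s5_7 (s1_3 p645_15),
   s6_7 (s5_7 (s2_3 (s1_3 p645_22))),
   s5_6 (s1_2 p645_30),
   s6_7 (s5_7 (s2_3 (s1_3 p645_23))),
   s5_6 (s1_2 p645_31)],
  [s5_7 (s1_3 p645_20),
   s6_7 (s5_6 (s2_3 (s1_2 p645_22))),
   s5_7 (s1_3 p645_22),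
   s5_7 (s1_3 p645_30),
   p645_52,
   p645_53,
   s5_6 (s1_2 p645_53),
   p645_55],
  [s5_7 (s1_3 p645_21),
   s6_7 (s5_6 (s2_3 (s1_2 p645_23))),
   s5_7 (s1_3 p645_23),
   s5_7 (s1_3 p645_31),
   s5_7 (s1_3 p645_53),
   s6_7 (s2_3 p645_55),
   s5_7 (s1_3 p645_55),
   p645_63]]

theorem k645 : eqNN c645 (slO 64 (D.chG 191 11) 8) = true := by decide +kernel

/-- The slices of the chunk 646. -/
noncomputable def c646 : List (List ℕ) := [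
  [tr p639_12,
   tr p640_12,
   s3_7 (s2_5 (s1_6 (s0_4 p640_12))),
   tr p641_12,
   tr p642_12,
   p646_5,
   s5_6 (s1_2 p646_5),
   tr p644_12],
  [s3_5 (s2_6 (s1_7 (s0_4 p640_33))),
   s3_6 (s2_7 (s1_5 (s0_4 p641_18))),
   s6_7 (s5_6 (s3_6 (s2_5 (s1_7 (s0_4 p641_18))))),
   tr p645_12,
   p646_12,
   p646_13,
   s5_6 (s1_2 p646_13),
   p646_15],
  [s3_6 (s2_7 (s1_5 (s0_4 p642_18))),
   p646_17,
   p646_18,
   p646_19,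
   p646_20,
   p646_21,
   p646_22,
   p646_23],
  [s5_6 (s1_2 p646_40),
   s3_6 (s2_7 (s1_5 (s0_4 p644_18))),
   s5_6 (s1_2 p646_41),
   p646_27,
   p646_28,
   p646_29,
   p646_30,
   p646_31],
  [s6_7 (s5_6 (s3_6 (s2_5 (s1_7 (s0_4 p642_18))))),
   s5_6 (s1_2 p646_18),
   s5_6 (s1_2 p646_17),
   s5_6 (s1_2 p646_19),
   s5_6 (s1_2 p646_20),
   s5_6 (s1_2 p646_22),
   s5_6 (s1_2 p646_21),
   s5_6 (s1_2 p646_23)],
  [p646_40,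
   p646_41,
   s6_7 (s5_6 (s3_6 (s2_5 (s1_7 (s0_4 p644_18))))),
   s5_6 (s1_2 p646_27),
   s5_6 (s1_2 p646_28),
   s5_6 (s1_2 p646_30),
   s5_6 (s1_2 p646_29),
   s5_6 (s1_2 p646_31)],
  [p646_48,
   s5_6 (s1_2 p646_50),
   p646_50,
   p646_51,
   tr p655_12,
   p646_53,
   s5_6 (s1_2 p646_53),
   p646_55],
  [p646_56,
   s5_6 (s1_2 p646_58),
   p646_58,
   p646_59,
   p646_60,
   p646_61,
   s5_6 (s1_2 p646_61),
   tr p658_12]]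

theorem k646 : eqNN c646 (slO 64 (D.chG 191 12) 8) = true := by decide +kernel

/-- The slices of the chunk 647. -/
noncomputable def c647 : List (List ℕ) := [
  [tr p639_13,
   tr p640_13,
   s3_7 (s2_5 (s1_6 (s0_4 p640_14))),
   tr p641_13,
   tr p642_13,
   tr p643_13,
   s3_7 (s2_5 (s1_6 (s0_4 p643_14))),
   tr p644_13],
  [s3_5 (s2_6 (s1_7 (s0_4 p640_41))),
   s3_6 (s2_7 (s1_5 (s0_4 p641_19))),
   s3_5 (s2_6 (s1_7 (s0_4 p641_41))),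
   tr p645_13,
   tr p646_13,
   p647_13,
   p647_14,
   tr p648_13],
  [s3_6 (s2_7 (s1_5 (s0_4 p642_19))),
   s3_6 (s2_7 (s1_5 (s0_4 p643_19))),
   s3_6 (s2_7 (s1_5 (s0_4 p646_19))),
   p647_19,
   tr p649_13,
   tr p650_13,
   p647_22,
   p647_23],
  [s6_7 (s5_7 (s3_5 (s2_7 (s1_6 (s0_4 p643_35))))),
   s3_6 (s2_7 (s1_5 (s0_4 p644_19))),
   p647_26,
   s3_6 (s2_7 (s1_5 (s0_4 p648_19))),
   p647_28,
   p647_29,
   tr p653_13,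
   tr p654_13],
  [s3_5 (s2_6 (s1_7 (s0_4 p642_41))),
   s3_5 (s2_6 (s1_7 (s0_4 p646_41))),
   s6_7 (s5_6 (s3_6 (s2_5 (s1_7 (s0_4 p643_26))))),
   s6_7 (s5_6 (s3_6 (s2_5 (s1_7 (s0_4 p647_26))))),
   s3_7 (s2_5 (s1_6 (s0_4 p649_14))),
   p647_37,
   s3_7 (s2_5 (s1_6 (s0_4 p650_14))),
   p647_39],
  [s3_5 (s2_6 (s1_7 (s0_4 p643_41))),
   p647_41,
   s3_5 (s2_6 (s1_7 (s0_4 p644_41))),
   s3_5 (s2_6 (s1_7 (s0_4 p648_41))),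
   p647_44,
   s3_7 (s2_5 (s1_6 (s0_4 p653_14))),
   p647_46,
   s3_7 (s2_5 (s1_6 (s0_4 p654_14)))],
  [s3_5 (s2_6 (s1_7 (s0_4 p649_41))),
   p647_49,
   p647_50,
   s3_5 (s2_6 (s1_7 (s0_4 p653_41))),
   tr p655_13,
   tr p656_13,
   s3_7 (s2_5 (s1_6 (s0_4 p656_14))),
   tr p657_13],
  [s3_5 (s2_6 (s1_7 (s0_4 p650_41))),
   p647_57,
   p647_58,
   s3_5 (s2_6 (s1_7 (s0_4 p654_41))),
   s3_5 (s2_6 (s1_7 (s0_4 p656_41))),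
   s3_6 (s2_7 (s1_5 (s0_4 p657_19))),
   s3_5 (s2_6 (s1_7 (s0_4 p657_41))),
   tr p658_13]]

theorem k647 : eqNN c647 (slO 64 (D.chG 191 13) 8) = true := by decide +kernel

end Pool.Agent.Lib.MP_afdd4d_co.K10.E6
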