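import Pool.Agent.Lib.MP_afdd4d_co.K10.E6.Dat
import Pool.Agent.Lib.MP_afdd4d_co.K10.E6.Mk
import Pool.Agent.Lib.MP_afdd4d_co.K8.F6Bl5
import Pool.Agent.Lib.MP_afdd4d_co.K10.E6.P0
import Pool.Agent.Lib.MP_afdd4d_co.K10.E6.P1
import Pool.Agent.Lib.MP_afdd4d_co.K10.E6.P2
import Pool.Agent.Lib.MP_afdd4d_co.K10.E6.P3
import Pool.Agent.Lib.MP_afdd4d_co.K10.E6.P4
import Pool.Agent.Lib.MP_afdd4d_co.K10.E6.P5
import Pool.Agent.Lib.MP_afdd4d_co.K10.E6.P6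
import Pool.Agent.Lib.MP_afdd4d_co.K10.E6.P7
import Pool.Agent.Lib.MP_afdd4d_co.K10.E6.P8
import Pool.Agent.Lib.MP_afdd4d_co.K10.E6.P9
import Pool.Agent.Lib.MP_afdd4d_co.K10.E6.P10
import Pool.Agent.Lib.MP_afdd4d_co.K10.E6.P11
import Pool.Agent.Lib.MP_afdd4d_co.K10.E6.P12
import Pool.Agent.Lib.MP_afdd4d_co.K10.E6.P13
import Pool.Agent.Lib.MP_afdd4d_co.K10.E6.P14
import Pool.Agent.Lib.MP_afdd4d_co.K10.E6.P15
import Pool.Agent.Lib.MP_afdd4d_co.K10.E6.P16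
import Pool.Agent.Lib.MP_afdd4d_co.K10.E6.P17
import Pool.Agent.Lib.MP_afdd4d_co.K10.E6.P18
import Pool.Agent.Lib.MP_afdd4d_co.K10.E6.P19
import Pool.Agent.Lib.MP_afdd4d_co.K10.E6.P20
import Pool.Agent.Lib.MP_afdd4d_co.K10.E6.P21
import Pool.Agent.Lib.MP_afdd4d_co.K10.E6.P22
import Pool.Agent.Lib.MP_afdd4d_co.K10.E6.P23
import Pool.Agent.Lib.MP_afdd4d_co.K10.E6.P24
import Pool.Agent.Lib.MP_afdd4d_co.K10.E6.P25
import Pool.Agent.Lib.MP_afdd4d_co.K10.E6.P26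
import Pool.Agent.Lib.MP_afdd4d_co.K10.E6.P27
import Pool.Agent.Lib.MP_afdd4d_co.K10.E6.P28
import Pool.Agent.Lib.MP_afdd4d_co.K10.E6.P29
import Pool.Agent.Lib.MP_afdd4d_co.K10.E6.P30
import Pool.Agent.Lib.MP_afdd4d_co.K10.E6.P31
import Pool.Agent.Lib.MP_afdd4d_co.K10.E6.P32

/-!
# Tables
-/

namespace Pool.Agent.Lib.MP_afdd4d_co.K10.E6

open K8

set_option maxRecDepth 100000
set_option exponentiation.threshold 10000000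

/-- The slices of the chunk 648. -/
noncomputable def c648 : List (List ℕ) := [
  [tr p639_15,
   tr p640_15,
   s3_7 (s2_5 (s1_6 (s0_4 p640_15))),
   tr p641_15,
   tr p642_15,
   p648_5,
   s5_6 (s1_2 p648_5),
   tr p644_15],
  [s3_5 (s2_6 (s1_7 (s0_4 p640_43))),
   s3_6 (s2_7 (s1_5 (s0_4 p641_27))),
   s6_7 (s5_6 (s3_6 (s2_5 (s1_7 (s0_4 p641_27))))),
   tr p645_15,
   tr p646_15,
   p648_13,
   s5_6 (s1_2 p648_13),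
   p648_15],
  [s3_6 (s2_7 (s1_5 (s0_4 p642_27))),
   p648_17,
   s3_6 (s2_7 (s1_5 (s0_4 p646_27))),
   p648_19,
   p648_20,
   p648_21,
   p648_22,
   p648_23],
  [s5_6 (s1_2 p648_40),
   s3_6 (s2_7 (s1_5 (s0_4 p644_27))),
   s5_6 (s1_2 p648_41),
   p648_27,
   p648_28,
   p648_29,
   p648_30,
   p648_31],
  [s6_7 (s5_6 (s3_6 (s2_5 (s1_7 (s0_4 p642_27))))),
   s6_7 (s5_6 (s3_6 (s2_5 (s1_7 (s0_4 p646_27))))),
   s5_6 (s1_2 p648_17),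
   s5_6 (s1_2 p648_19),
   s5_6 (s1_2 p648_20),
   s5_6 (s1_2 p648_22),
   s5_6 (s1_2 p648_21),
   s5_6 (s1_2 p648_23)],
  [p648_40,
   p648_41,
   s6_7 (s5_6 (s3_6 (s2_5 (s1_7 (s0_4 p644_27))))),
   s5_6 (s1_2 p648_27),
   s5_6 (s1_2 p648_28),
   s5_6 (s1_2 p648_30),
   s5_6 (s1_2 p648_29),
   s5_6 (s1_2 p648_31)],
  [p648_48,
   s5_6 (s1_2 p648_50),
   p648_50,
   p648_51,
   tr p655_15,
   p648_53,
   s5_6 (s1_2 p648_53),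
   p648_55],
  [p648_56,
   s5_6 (s1_2 p648_58),
   p648_58,
   p648_59,
   p648_60,
   p648_61,
   s5_6 (s1_2 p648_61),
   tr p658_15]]

theorem k648 : eqNN c648 (slO 64 (D.chG 191 15) 8) = true := by decide +kernel

/-- The slices of the chunk 649. -/
noncomputable def c649 : List (List ℕ) := [
  [tr p639_20,
   tr p640_20,
   s3_7 (s2_5 (s1_6 (s0_4 p640_36))),
   tr p641_20,
   tr p642_20,
   p649_5,
   p649_6,
   tr p644_20],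
  [s6_7 (s5_7 (s3_5 (s2_7 (s1_6 (s0_4 p640_36))))),
   s3_6 (s2_7 (s1_5 (s0_4 p641_20))),
   s3_5 (s2_6 (s1_7 (s0_4 p641_48))),
   tr p645_20,
   tr p646_20,
   p649_13,
   p649_14,
   tr p648_20],
  [s3_6 (s2_7 (s1_5 (s0_4 p642_20))),
   s6_7 (s2_3 p649_5),
   s3_6 (s2_7 (s1_5 (s0_4 p646_20))),
   s6_7 (s2_3 p649_13),
   p649_20,
   p649_21,
   p649_22,
   p649_23],
  [s6_7 (s2_3 p649_6),
   s3_6 (s2_7 (s1_5 (s0_4 p644_20))),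
   s6_7 (s2_3 p649_14),
   s3_6 (s2_7 (s1_5 (s0_4 p648_20))),
   s6_7 (s2_3 p649_22),
   s6_7 (s2_3 p649_23),
   p649_30,
   p649_31],
  [s3_5 (s2_6 (s1_7 (s0_4 p642_48))),
   s3_5 (s2_6 (s1_7 (s0_4 p646_48))),
   s6_7 (s2_3 p649_40),
   s6_7 (s2_3 p649_41),
   p649_36,
   p649_37,
   p649_38,
   p649_39],
  [p649_40,
   p649_41,
   s3_5 (s2_6 (s1_7 (s0_4 p644_48))),
   s3_5 (s2_6 (s1_7 (s0_4 p648_48))),
   s6_7 (s2_3 p649_50),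
   p649_45,
   s6_7 (s2_3 p649_58),
   p649_47],
  [s6_7 (s2_3 p649_36),
   s6_7 (s2_3 p649_37),
   p649_50,
   s6_7 (s2_3 p649_45),
   tr p655_20,
   p649_53,
   p649_54,
   p649_55],
  [s6_7 (s2_3 p649_38),
   s6_7 (s2_3 p649_39),
   p649_58,
   s6_7 (s2_3 p649_47),
   s6_7 (s2_3 p649_54),
   s6_7 (s2_3 p649_55),
   p649_62,
   tr p658_20]]

theorem k649 : eqNN c649 (slO 64 (D.chG 191 20) 8) = true := by decide +kernel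

/-- The slices of the chunk 650. -/
noncomputable def c650 : List (List ℕ) := [
  [tr p639_21,
   tr p640_21,
   s3_7 (s2_5 (s1_6 (s0_4 p640_38))),
   tr p641_21,
   tr p642_21,
   p650_5,
   p650_6,
   tr p644_21],
  [s6_7 (s5_7 (s3_5 (s2_7 (s1_6 (s0_4 p640_38))))),
   s3_6 (s2_7 (s1_5 (s0_4 p641_21))),
   s3_5 (s2_6 (s1_7 (s0_4 p641_56))),
   tr p645_21,
   tr p646_21,
   p650_13,
   p650_14,
   tr p648_21],
  [s3_6 (s2_7 (s1_5 (s0_4 p642_21))),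
   s6_7 (s2_3 p650_5),
   s3_6 (s2_7 (s1_5 (s0_4 p646_21))),
   s6_7 (s2_3 p650_13),
   tr p649_21,
   p650_21,
   p650_22,
   p650_23],
  [s6_7 (s2_3 p650_6),
   s3_6 (s2_7 (s1_5 (s0_4 p644_21))),
   s6_7 (s2_3 p650_14),
   s3_6 (s2_7 (s1_5 (s0_4 p648_21))),
   s6_7 (s2_3 p650_22),
   s6_7 (s2_3 p650_23),
   p650_30,
   p650_31],
  [s3_5 (s2_6 (s1_7 (s0_4 p642_56))),
   s3_5 (s2_6 (s1_7 (s0_4 p646_56))),
   s6_7 (s2_3 p650_40),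
   s6_7 (s2_3 p650_41),
   s3_7 (s2_5 (s1_6 (s0_4 p649_38))),
   p650_37,
   p650_38,
   p650_39],
  [p650_40,
   p650_41,
   s3_5 (s2_6 (s1_7 (s0_4 p644_56))),
   s3_5 (s2_6 (s1_7 (s0_4 p648_56))),
   s6_7 (s2_3 p650_50),
   p650_45,
   s6_7 (s2_3 p650_58),
   p650_47],
  [s6_7 (s5_7 (s3_5 (s2_7 (s1_6 (s0_4 p649_38))))),
   s6_7 (s2_3 p650_37),
   p650_50,
   s6_7 (s2_3 p650_45),
   tr p655_21,
   p650_53,
   p650_54,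
   p650_55],
  [s6_7 (s2_3 p650_38),
   s6_7 (s2_3 p650_39),
   p650_58,
   s6_7 (s2_3 p650_47),
   s6_7 (s2_3 p650_54),
   s6_7 (s2_3 p650_55),
   p650_62,
   tr p658_21]]

theorem k650 : eqNN c650 (slO 64 (D.chG 191 21) 8) = true := by decide +kernel

/-- The slices of the chunk 651. -/
noncomputable def c651 : List (List ℕ) := [
  [tr p639_22,
   tr p640_22,
   s3_7 (s2_5 (s1_6 (s0_4 p640_37))),
   tr p641_22,
   tr p642_22,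
   tr p643_22,
   s3_7 (s2_5 (s1_6 (s0_4 p643_37))),
   tr p644_22],
  [s3_5 (s2_6 (s1_7 (s0_4 p640_50))),
   s3_6 (s2_7 (s1_5 (s0_4 p641_28))),
   s3_5 (s2_6 (s1_7 (s0_4 p641_50))),
   tr p645_22,
   tr p646_22,
   tr p647_22,
   s3_7 (s2_5 (s1_6 (s0_4 p647_37))),
   tr p648_22],
  [s3_6 (s2_7 (s1_5 (s0_4 p642_28))),
   s3_6 (s2_7 (s1_5 (s0_4 p643_28))),
   s3_6 (s2_7 (s1_5 (s0_4 p646_28))),
   s3_6 (s2_7 (s1_5 (s0_4 p647_28))),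
   tr p649_22,
   tr p650_22,
   p651_22,
   p651_23],
  [s6_7 (s5_7 (s3_5 (s2_7 (s1_6 (s0_4 p643_44))))),
   s3_6 (s2_7 (s1_5 (s0_4 p644_28))),
   s6_7 (s5_7 (s3_5 (s2_7 (s1_6 (s0_4 p647_44))))),
   s3_6 (s2_7 (s1_5 (s0_4 p648_28))),
   p651_28,
   p651_29,
   tr p653_22,
   tr p654_22],
  [s3_5 (s2_6 (s1_7 (s0_4 p642_50))),
   s3_5 (s2_6 (s1_7 (s0_4 p646_50))),
   s6_7 (s5_6 (s3_6 (s2_5 (s1_7 (s0_4 p643_49))))),
   s6_7 (s5_6 (s3_6 (s2_5 (s1_7 (s0_4 p647_49))))),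
   s3_7 (s2_5 (s1_6 (s0_4 p649_37))),
   p651_37,
   s3_7 (s2_5 (s1_6 (s0_4 p650_37))),
   p651_39],
  [s3_5 (s2_6 (s1_7 (s0_4 p643_50))),
   s3_5 (s2_6 (s1_7 (s0_4 p647_50))),
   s3_5 (s2_6 (s1_7 (s0_4 p644_50))),
   s3_5 (s2_6 (s1_7 (s0_4 p648_50))),
   p651_44,
   s3_7 (s2_5 (s1_6 (s0_4 p653_37))),
   p651_46,
   s3_7 (s2_5 (s1_6 (s0_4 p654_37)))],
  [s3_5 (s2_6 (s1_7 (s0_4 p649_50))),
   s6_7 (s5_7 (s3_5 (s2_7 (s1_6 (s0_4 p651_44))))),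
   p651_50,
   s3_5 (s2_6 (s1_7 (s0_4 p653_50))),
   tr p655_22,
   tr p656_22,
   s3_7 (s2_5 (s1_6 (s0_4 p656_37))),
   tr p657_22],
  [s3_5 (s2_6 (s1_7 (s0_4 p650_50))),
   p651_57,
   p651_58,
   s3_5 (s2_6 (s1_7 (s0_4 p654_50))),
   s3_5 (s2_6 (s1_7 (s0_4 p656_50))),
   s3_6 (s2_7 (s1_5 (s0_4 p657_28))),
   s3_5 (s2_6 (s1_7 (s0_4 p657_50))),
   tr p658_22]]

theorem k651 : eqNN c651 (slO 64 (D.chG 191 22) 8) = true := by decide +kernel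

end Pool.Agent.Lib.MP_afdd4d_co.K10.E6
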