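import Pool.Agent.Lib.MP_afdd4d_co.K10.E6.Dat
import Pool.Agent.Lib.MP_afdd4d_co.K10.E6.Mk
import Pool.Agent.Lib.MP_afdd4d_co.K8.F6Bl5
import Pool.Agent.Lib.MP_afdd4d_co.K10.E6.P0
import Pool.Agent.Lib.MP_afdd4d_co.K10.E6.P1
import Pool.Agent.Lib.MP_afdd4d_co.K10.E6.P2
import Pool.Agent.Lib.MP_afdd4d_co.K10.E6.P3
import Pool.Agent.Lib.MP_afdd4d_co.K10.E6.P4
import Pool.Agent.Lib.MP_afdd4d_co.K10.E6.P5
import Pool.Agent.Lib.MP_afdd4d_co.K10.E6.P6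
import Pool.Agent.Lib.MP_afdd4d_co.K10.E6.P7
import Pool.Agent.Lib.MP_afdd4d_co.K10.E6.P8
import Pool.Agent.Lib.MP_afdd4d_co.K10.E6.P9
import Pool.Agent.Lib.MP_afdd4d_co.K10.E6.P10
import Pool.Agent.Lib.MP_afdd4d_co.K10.E6.P11
import Pool.Agent.Lib.MP_afdd4d_co.K10.E6.P12
import Pool.Agent.Lib.MP_afdd4d_co.K10.E6.P13
import Pool.Agent.Lib.MP_afdd4d_co.K10.E6.P14
import Pool.Agent.Lib.MP_afdd4d_co.K10.E6.P15
import Pool.Agent.Lib.MP_afdd4d_co.K10.E6.P16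
import Pool.Agent.Lib.MP_afdd4d_co.K10.E6.P17
import Pool.Agent.Lib.MP_afdd4d_co.K10.E6.P18
import Pool.Agent.Lib.MP_afdd4d_co.K10.E6.P19
import Pool.Agent.Lib.MP_afdd4d_co.K10.E6.P20
import Pool.Agent.Lib.MP_afdd4d_co.K10.E6.P21
import Pool.Agent.Lib.MP_afdd4d_co.K10.E6.P22
import Pool.Agent.Lib.MP_afdd4d_co.K10.E6.P23
import Pool.Agent.Lib.MP_afdd4d_co.K10.E6.P24
import Pool.Agent.Lib.MP_afdd4d_co.K10.E6.P25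
import Pool.Agent.Lib.MP_afdd4d_co.K10.E6.P26
import Pool.Agent.Lib.MP_afdd4d_co.K10.E6.P27
import Pool.Agent.Lib.MP_afdd4d_co.K10.E6.P28
import Pool.Agent.Lib.MP_afdd4d_co.K10.E6.P29
import Pool.Agent.Lib.MP_afdd4d_co.K10.E6.P30
import Pool.Agent.Lib.MP_afdd4d_co.K10.E6.P31
import Pool.Agent.Lib.MP_afdd4d_co.K10.E6.P32

/-!
# Tables
-/

namespace Pool.Agent.Lib.MP_afdd4d_co.K10.E6

open K8

set_option maxRecDepth 100000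
set_option exponentiation.threshold 10000000

/-- The slices of the chunk 652. -/
noncomputable def c652 : List (List ℕ) := [
  [tr p639_23,
   tr p640_23,
   s3_7 (s2_5 (s1_6 (s0_4 p640_39))),
   tr p641_23,
   tr p642_23,
   tr p643_23,
   s3_7 (s2_5 (s1_6 (s0_4 p643_39))),
   tr p644_23],
  [s3_5 (s2_6 (s1_7 (s0_4 p640_58))),
   s3_6 (s2_7 (s1_5 (s0_4 p641_29))),
   s3_5 (s2_6 (s1_7 (s0_4 p641_58))),
   tr p645_23,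
   tr p646_23,
   tr p647_23,
   s3_7 (s2_5 (s1_6 (s0_4 p647_39))),
   tr p648_23],
  [s3_6 (s2_7 (s1_5 (s0_4 p642_29))),
   s3_6 (s2_7 (s1_5 (s0_4 p643_29))),
   s3_6 (s2_7 (s1_5 (s0_4 p646_29))),
   s3_6 (s2_7 (s1_5 (s0_4 p647_29))),
   tr p649_23,
   tr p650_23,
   tr p651_23,
   p652_23],
  [s6_7 (s5_7 (s3_5 (s2_7 (s1_6 (s0_4 p643_46))))),
   s3_6 (s2_7 (s1_5 (s0_4 p644_29))),
   s6_7 (s5_7 (s3_5 (s2_7 (s1_6 (s0_4 p647_46))))),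
   s3_6 (s2_7 (s1_5 (s0_4 p648_29))),
   s3_6 (s2_7 (s1_5 (s0_4 p651_29))),
   p652_29,
   tr p653_23,
   tr p654_23],
  [s3_5 (s2_6 (s1_7 (s0_4 p642_58))),
   s3_5 (s2_6 (s1_7 (s0_4 p646_58))),
   s6_7 (s5_6 (s3_6 (s2_5 (s1_7 (s0_4 p643_57))))),
   s6_7 (s5_6 (s3_6 (s2_5 (s1_7 (s0_4 p647_57))))),
   s3_7 (s2_5 (s1_6 (s0_4 p649_39))),
   s3_7 (s2_5 (s1_6 (s0_4 p651_39))),
   s3_7 (s2_5 (s1_6 (s0_4 p650_39))),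
   p652_39],
  [s3_5 (s2_6 (s1_7 (s0_4 p643_58))),
   s3_5 (s2_6 (s1_7 (s0_4 p647_58))),
   s3_5 (s2_6 (s1_7 (s0_4 p644_58))),
   s3_5 (s2_6 (s1_7 (s0_4 p648_58))),
   s6_7 (s5_6 (s3_6 (s2_5 (s1_7 (s0_4 p651_57))))),
   s3_7 (s2_5 (s1_6 (s0_4 p653_39))),
   p652_46,
   s3_7 (s2_5 (s1_6 (s0_4 p654_39)))],
  [s3_5 (s2_6 (s1_7 (s0_4 p649_58))),
   s6_7 (s5_7 (s3_5 (s2_7 (s1_6 (s0_4 p651_46))))),
   s3_5 (s2_6 (s1_7 (s0_4 p651_58))),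
   s3_5 (s2_6 (s1_7 (s0_4 p653_58))),
   tr p655_23,
   tr p656_23,
   s3_7 (s2_5 (s1_6 (s0_4 p656_39))),
   tr p657_23],
  [s3_5 (s2_6 (s1_7 (s0_4 p650_58))),
   s6_7 (s5_7 (s3_5 (s2_7 (s1_6 (s0_4 p652_46))))),
   p652_58,
   s3_5 (s2_6 (s1_7 (s0_4 p654_58))),
   s3_5 (s2_6 (s1_7 (s0_4 p656_58))),
   s3_6 (s2_7 (s1_5 (s0_4 p657_29))),
   s3_5 (s2_6 (s1_7 (s0_4 p657_58))),
   tr p658_23]]

theorem k652 : eqNN c652 (slO 64 (D.chG 191 23) 8) = true := by decide +kernel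

/-- The slices of the chunk 653. -/
noncomputable def c653 : List (List ℕ) := [
  [tr p639_30,
   tr p640_30,
   s3_7 (s2_5 (s1_6 (s0_4 p640_45))),
   tr p641_30,
   tr p642_30,
   p653_5,
   p653_6,
   tr p644_30],
  [s6_7 (s5_7 (s3_5 (s2_7 (s1_6 (s0_4 p640_45))))),
   s3_6 (s2_7 (s1_5 (s0_4 p641_30))),
   s3_5 (s2_6 (s1_7 (s0_4 p641_51))),
   tr p645_30,
   tr p646_30,
   p653_13,
   p653_14,
   tr p648_30],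
  [s3_6 (s2_7 (s1_5 (s0_4 p642_30))),
   s6_7 (s2_3 p653_5),
   s3_6 (s2_7 (s1_5 (s0_4 p646_30))),
   s6_7 (s2_3 p653_13),
   tr p649_30,
   tr p650_30,
   p653_22,
   p653_23],
  [s6_7 (s2_3 p653_6),
   s3_6 (s2_7 (s1_5 (s0_4 p644_30))),
   s6_7 (s2_3 p653_14),
   s3_6 (s2_7 (s1_5 (s0_4 p648_30))),
   s6_7 (s2_3 p653_22),
   s6_7 (s2_3 p653_23),
   p653_30,
   p653_31],
  [s3_5 (s2_6 (s1_7 (s0_4 p642_51))),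
   s3_5 (s2_6 (s1_7 (s0_4 p646_51))),
   s6_7 (s2_3 p653_40),
   s6_7 (s2_3 p653_41),
   s3_7 (s2_5 (s1_6 (s0_4 p649_45))),
   p653_37,
   s3_7 (s2_5 (s1_6 (s0_4 p650_45))),
   p653_39],
  [p653_40,
   p653_41,
   s3_5 (s2_6 (s1_7 (s0_4 p644_51))),
   s3_5 (s2_6 (s1_7 (s0_4 p648_51))),
   s6_7 (s2_3 p653_50),
   p653_45,
   s6_7 (s2_3 p653_58),
   p653_47],
  [s6_7 (s5_7 (s3_5 (s2_7 (s1_6 (s0_4 p649_45))))),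
   s6_7 (s2_3 p653_37),
   p653_50,
   s6_7 (s2_3 p653_45),
   tr p655_30,
   p653_53,
   p653_54,
   p653_55],
  [s6_7 (s5_7 (s3_5 (s2_7 (s1_6 (s0_4 p650_45))))),
   s6_7 (s2_3 p653_39),
   p653_58,
   s6_7 (s2_3 p653_47),
   s6_7 (s2_3 p653_54),
   s6_7 (s2_3 p653_55),
   p653_62,
   tr p658_30]]

theorem k653 : eqNN c653 (slO 64 (D.chG 191 30) 8) = true := by decide +kernel

/-- The slices of the chunk 654. -/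
noncomputable def c654 : List (List ℕ) := [
  [tr p639_31,
   tr p640_31,
   s3_7 (s2_5 (s1_6 (s0_4 p640_47))),
   tr p641_31,
   tr p642_31,
   p654_5,
   p654_6,
   tr p644_31],
  [s6_7 (s5_7 (s3_5 (s2_7 (s1_6 (s0_4 p640_47))))),
   s3_6 (s2_7 (s1_5 (s0_4 p641_31))),
   s3_5 (s2_6 (s1_7 (s0_4 p641_59))),
   tr p645_31,
   tr p646_31,
   p654_13,
   p654_14,
   tr p648_31],
  [s3_6 (s2_7 (s1_5 (s0_4 p642_31))),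
   s6_7 (s2_3 p654_5),
   s3_6 (s2_7 (s1_5 (s0_4 p646_31))),
   s6_7 (s2_3 p654_13),
   tr p649_31,
   tr p650_31,
   p654_22,
   p654_23],
  [s6_7 (s2_3 p654_6),
   s3_6 (s2_7 (s1_5 (s0_4 p644_31))),
   s6_7 (s2_3 p654_14),
   s3_6 (s2_7 (s1_5 (s0_4 p648_31))),
   s6_7 (s2_3 p654_22),
   s6_7 (s2_3 p654_23),
   tr p653_31,
   p654_31],
  [s3_5 (s2_6 (s1_7 (s0_4 p642_59))),
   s3_5 (s2_6 (s1_7 (s0_4 p646_59))),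
   s6_7 (s2_3 p654_40),
   s6_7 (s2_3 p654_41),
   s3_7 (s2_5 (s1_6 (s0_4 p649_47))),
   p654_37,
   s3_7 (s2_5 (s1_6 (s0_4 p650_47))),
   p654_39],
  [p654_40,
   p654_41,
   s3_5 (s2_6 (s1_7 (s0_4 p644_59))),
   s3_5 (s2_6 (s1_7 (s0_4 p648_59))),
   s6_7 (s2_3 p654_50),
   s3_7 (s2_5 (s1_6 (s0_4 p653_47))),
   s6_7 (s2_3 p654_58),
   p654_47],
  [s6_7 (s5_7 (s3_5 (s2_7 (s1_6 (s0_4 p649_47))))),
   s6_7 (s2_3 p654_37),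
   p654_50,
   s6_7 (s5_7 (s3_5 (s2_7 (s1_6 (s0_4 p653_47))))),
   tr p655_31,
   p654_53,
   p654_54,
   p654_55],
  [s6_7 (s5_7 (s3_5 (s2_7 (s1_6 (s0_4 p650_47))))),
   s6_7 (s2_3 p654_39),
   p654_58,
   s6_7 (s2_3 p654_47),
   s6_7 (s2_3 p654_54),
   s6_7 (s2_3 p654_55),
   p654_62,
   tr p658_31]]

theorem k654 : eqNN c654 (slO 64 (D.chG 191 31) 8) = true := by decide +kernel

/-- The slices of the chunk 655. -/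
noncomputable def c655 : List (List ℕ) := [
  [tr p639_52,
   p655_1,
   s5_6 (s1_2 p655_1),
   p655_3,
   p655_4,
   p655_5,
   s5_6 (s1_2 p655_5),
   p655_7],
  [s5_7 (s1_3 p655_1),
   s6_7 (s2_3 p655_3),
   s5_7 (s1_3 p655_3),
   tr p645_52,
   p655_12,
   p655_13,
   s5_6 (s1_2 p655_13),
   p655_15],
  [s6_7 (s2_3 p655_4),
   s6_7 (s2_3 p655_5),
   s6_7 (s2_3 p655_12),
   s6_7 (s2_3 p655_13),
   p655_20,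
   p655_21,
   p655_22,
   p655_23],
  [s6_7 (s5_6 (s2_3 (s1_2 p655_5))),
   s6_7 (s2_3 p655_7),
   s6_7 (s5_6 (s2_3 (s1_2 p655_13))),
   s6_7 (s2_3 p655_15),
   s6_7 (s2_3 p655_22),
   s6_7 (s2_3 p655_23),
   p655_30,
   p655_31],
  [s5_7 (s1_3 p655_4),
   s5_7 (s1_3 p655_12),
   s6_7 (s5_7 (s2_3 (s1_3 p655_5))),
   s6_7 (s5_7 (s2_3 (s1_3 p655_13))),
   s5_6 (s1_2 p655_20),
   s5_6 (s1_2 p655_22),
   s5_6 (s1_2 p655_21),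
   s5_6 (s1_2 p655_23)],
  [s5_7 (s1_3 p655_5),
   s5_7 (s1_3 p655_13),
   s5_7 (s1_3 p655_7),
   s5_7 (s1_3 p655_15),
   s6_7 (s5_7 (s2_3 (s1_3 p655_22))),
   s5_6 (s1_2 p655_30),
   s6_7 (s5_7 (s2_3 (s1_3 p655_23))),
   s5_6 (s1_2 p655_31)],
  [s5_7 (s1_3 p655_20),
   s6_7 (s5_6 (s2_3 (s1_2 p655_22))),
   s5_7 (s1_3 p655_22),
   s5_7 (s1_3 p655_30),
   p655_52,
   p655_53,
   s5_6 (s1_2 p655_53),
   p655_55],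
  [s5_7 (s1_3 p655_21),
   s6_7 (s5_6 (s2_3 (s1_2 p655_23))),
   s5_7 (s1_3 p655_23),
   s5_7 (s1_3 p655_31),
   s5_7 (s1_3 p655_53),
   s6_7 (s2_3 p655_55),
   s5_7 (s1_3 p655_55),
   p655_63]]

theorem k655 : eqNN c655 (slO 64 (D.chG 191 52) 8) = true := by decide +kernel

end Pool.Agent.Lib.MP_afdd4d_co.K10.E6
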