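import Pool.Agent.Lib.MP_afdd4d_co.K10.E6.Dat
import Pool.Agent.Lib.MP_afdd4d_co.K10.E6.Mk
import Pool.Agent.Lib.MP_afdd4d_co.K8.F6Bl5
import Pool.Agent.Lib.MP_afdd4d_co.K10.E6.P0
import Pool.Agent.Lib.MP_afdd4d_co.K10.E6.P1
import Pool.Agent.Lib.MP_afdd4d_co.K10.E6.P2
import Pool.Agent.Lib.MP_afdd4d_co.K10.E6.P3
import Pool.Agent.Lib.MP_afdd4d_co.K10.E6.P4
import Pool.Agent.Lib.MP_afdd4d_co.K10.E6.P5
import Pool.Agent.Lib.MP_afdd4d_co.K10.E6.P6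
import Pool.Agent.Lib.MP_afdd4d_co.K10.E6.P7
import Pool.Agent.Lib.MP_afdd4d_co.K10.E6.P8
import Pool.Agent.Lib.MP_afdd4d_co.K10.E6.P9
import Pool.Agent.Lib.MP_afdd4d_co.K10.E6.P10
import Pool.Agent.Lib.MP_afdd4d_co.K10.E6.P11
import Pool.Agent.Lib.MP_afdd4d_co.K10.E6.P12
import Pool.Agent.Lib.MP_afdd4d_co.K10.E6.P13
import Pool.Agent.Lib.MP_afdd4d_co.K10.E6.P14
import Pool.Agent.Lib.MP_afdd4d_co.K10.E6.P15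
import Pool.Agent.Lib.MP_afdd4d_co.K10.E6.P16
import Pool.Agent.Lib.MP_afdd4d_co.K10.E6.P17
import Pool.Agent.Lib.MP_afdd4d_co.K10.E6.P18
import Pool.Agent.Lib.MP_afdd4d_co.K10.E6.P19
import Pool.Agent.Lib.MP_afdd4d_co.K10.E6.P20
import Pool.Agent.Lib.MP_afdd4d_co.K10.E6.P21
import Pool.Agent.Lib.MP_afdd4d_co.K10.E6.P22
import Pool.Agent.Lib.MP_afdd4d_co.K10.E6.P23
import Pool.Agent.Lib.MP_afdd4d_co.K10.E6.P24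
import Pool.Agent.Lib.MP_afdd4d_co.K10.E6.P25
import Pool.Agent.Lib.MP_afdd4d_co.K10.E6.P26
import Pool.Agent.Lib.MP_afdd4d_co.K10.E6.P27
import Pool.Agent.Lib.MP_afdd4d_co.K10.E6.P28
import Pool.Agent.Lib.MP_afdd4d_co.K10.E6.P29
import Pool.Agent.Lib.MP_afdd4d_co.K10.E6.P30
import Pool.Agent.Lib.MP_afdd4d_co.K10.E6.P31
import Pool.Agent.Lib.MP_afdd4d_co.K10.E6.P32

/-!
# Tables
-/

namespace Pool.Agent.Lib.MP_afdd4d_co.K10.E6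

open K8

set_option maxRecDepth 100000
set_option exponentiation.threshold 10000000

/-- The slices of the chunk 656. -/
noncomputable def c656 : List (List ℕ) := [
  [tr p639_53,
   tr p640_53,
   s3_7 (s2_5 (s1_6 (s0_4 p640_54))),
   tr p641_53,
   tr p642_53,
   p656_5,
   p656_6,
   tr p644_53],
  [s6_7 (s5_7 (s3_5 (s2_7 (s1_6 (s0_4 p640_54))))),
   s3_6 (s2_7 (s1_5 (s0_4 p641_53))),
   s3_5 (s2_6 (s1_7 (s0_4 p641_60))),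
   tr p645_53,
   tr p646_53,
   p656_13,
   p656_14,
   tr p648_53],
  [s3_6 (s2_7 (s1_5 (s0_4 p642_53))),
   s6_7 (s2_3 p656_5),
   s3_6 (s2_7 (s1_5 (s0_4 p646_53))),
   s6_7 (s2_3 p656_13),
   tr p649_53,
   tr p650_53,
   p656_22,
   p656_23],
  [s6_7 (s2_3 p656_6),
   s3_6 (s2_7 (s1_5 (s0_4 p644_53))),
   s6_7 (s2_3 p656_14),
   s3_6 (s2_7 (s1_5 (s0_4 p648_53))),
   s6_7 (s2_3 p656_22),
   s6_7 (s2_3 p656_23),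
   tr p653_53,
   tr p654_53],
  [s3_5 (s2_6 (s1_7 (s0_4 p642_60))),
   s3_5 (s2_6 (s1_7 (s0_4 p646_60))),
   s6_7 (s2_3 p656_40),
   s6_7 (s2_3 p656_41),
   s3_7 (s2_5 (s1_6 (s0_4 p649_54))),
   p656_37,
   s3_7 (s2_5 (s1_6 (s0_4 p650_54))),
   p656_39],
  [p656_40,
   p656_41,
   s3_5 (s2_6 (s1_7 (s0_4 p644_60))),
   s3_5 (s2_6 (s1_7 (s0_4 p648_60))),
   s6_7 (s2_3 p656_50),
   s3_7 (s2_5 (s1_6 (s0_4 p653_54))),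
   s6_7 (s2_3 p656_58),
   s3_7 (s2_5 (s1_6 (s0_4 p654_54)))],
  [s6_7 (s5_7 (s3_5 (s2_7 (s1_6 (s0_4 p649_54))))),
   s6_7 (s2_3 p656_37),
   p656_50,
   s6_7 (s5_7 (s3_5 (s2_7 (s1_6 (s0_4 p653_54))))),
   tr p655_53,
   p656_53,
   p656_54,
   p656_55],
  [s6_7 (s5_7 (s3_5 (s2_7 (s1_6 (s0_4 p650_54))))),
   s6_7 (s2_3 p656_39),
   p656_58,
   s6_7 (s5_7 (s3_5 (s2_7 (s1_6 (s0_4 p654_54))))),
   s6_7 (s2_3 p656_54),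
   s6_7 (s2_3 p656_55),
   p656_62,
   tr p658_53]]

theorem k656 : eqNN c656 (slO 64 (D.chG 191 53) 8) = true := by decide +kernel

/-- The slices of the chunk 657. -/
noncomputable def c657 : List (List ℕ) := [
  [tr p639_55,
   tr p640_55,
   s3_7 (s2_5 (s1_6 (s0_4 p640_55))),
   tr p641_55,
   tr p642_55,
   p657_5,
   s5_6 (s1_2 p657_5),
   tr p644_55],
  [s3_5 (s2_6 (s1_7 (s0_4 p640_62))),
   s3_6 (s2_7 (s1_5 (s0_4 p641_61))),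
   s6_7 (s5_6 (s3_6 (s2_5 (s1_7 (s0_4 p641_61))))),
   tr p645_55,
   tr p646_55,
   p657_13,
   s5_6 (s1_2 p657_13),
   tr p648_55],
  [s3_6 (s2_7 (s1_5 (s0_4 p642_61))),
   p657_17,
   s3_6 (s2_7 (s1_5 (s0_4 p646_61))),
   p657_19,
   tr p649_55,
   tr p650_55,
   p657_22,
   p657_23],
  [s5_6 (s1_2 p657_40),
   s3_6 (s2_7 (s1_5 (s0_4 p644_61))),
   s5_6 (s1_2 p657_41),
   s3_6 (s2_7 (s1_5 (s0_4 p648_61))),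
   p657_28,
   p657_29,
   tr p653_55,
   tr p654_55],
  [s6_7 (s5_6 (s3_6 (s2_5 (s1_7 (s0_4 p642_61))))),
   s6_7 (s5_6 (s3_6 (s2_5 (s1_7 (s0_4 p646_61))))),
   s5_6 (s1_2 p657_17),
   s5_6 (s1_2 p657_19),
   s3_7 (s2_5 (s1_6 (s0_4 p649_55))),
   s5_6 (s1_2 p657_22),
   s3_7 (s2_5 (s1_6 (s0_4 p650_55))),
   s5_6 (s1_2 p657_23)],
  [p657_40,
   p657_41,
   s6_7 (s5_6 (s3_6 (s2_5 (s1_7 (s0_4 p644_61))))),
   s6_7 (s5_6 (s3_6 (s2_5 (s1_7 (s0_4 p648_61))))),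
   s5_6 (s1_2 p657_28),
   s3_7 (s2_5 (s1_6 (s0_4 p653_55))),
   s5_6 (s1_2 p657_29),
   s3_7 (s2_5 (s1_6 (s0_4 p654_55)))],
  [s3_5 (s2_6 (s1_7 (s0_4 p649_62))),
   s5_6 (s1_2 p657_50),
   p657_50,
   s3_5 (s2_6 (s1_7 (s0_4 p653_62))),
   tr p655_55,
   tr p656_55,
   s3_7 (s2_5 (s1_6 (s0_4 p656_55))),
   p657_55],
  [s3_5 (s2_6 (s1_7 (s0_4 p650_62))),
   s5_6 (s1_2 p657_58),
   p657_58,
   s3_5 (s2_6 (s1_7 (s0_4 p654_62))),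
   s3_5 (s2_6 (s1_7 (s0_4 p656_62))),
   p657_61,
   s5_6 (s1_2 p657_61),
   tr p658_55]]

theorem k657 : eqNN c657 (slO 64 (D.chG 191 55) 8) = true := by decide +kernel

/-- The slices of the chunk 658. -/
noncomputable def c658 : List (List ℕ) := [
  [tr p639_63,
   p658_1,
   s5_6 (s1_2 p658_1),
   p658_3,
   p658_4,
   p658_5,
   s5_6 (s1_2 p658_5),
   p658_7],
  [s5_7 (s1_3 p658_1),
   s6_7 (s2_3 p658_3),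
   s5_7 (s1_3 p658_3),
   tr p645_63,
   p658_12,
   p658_13,
   s5_6 (s1_2 p658_13),
   p658_15],
  [s6_7 (s2_3 p658_4),
   s6_7 (s2_3 p658_5),
   s6_7 (s2_3 p658_12),
   s6_7 (s2_3 p658_13),
   p658_20,
   p658_21,
   p658_22,
   p658_23],
  [s6_7 (s5_6 (s2_3 (s1_2 p658_5))),
   s6_7 (s2_3 p658_7),
   s6_7 (s5_6 (s2_3 (s1_2 p658_13))),
   s6_7 (s2_3 p658_15),
   s6_7 (s2_3 p658_22),
   s6_7 (s2_3 p658_23),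
   p658_30,
   p658_31],
  [s5_7 (s1_3 p658_4),
   s5_7 (s1_3 p658_12),
   s6_7 (s5_7 (s2_3 (s1_3 p658_5))),
   s6_7 (s5_7 (s2_3 (s1_3 p658_13))),
   s5_6 (s1_2 p658_20),
   s5_6 (s1_2 p658_22),
   s5_6 (s1_2 p658_21),
   s5_6 (s1_2 p658_23)],
  [s5_7 (s1_3 p658_5),
   s5_7 (s1_3 p658_13),
   s5_7 (s1_3 p658_7),
   s5_7 (s1_3 p658_15),
   s6_7 (s5_7 (s2_3 (s1_3 p658_22))),
   s5_6 (s1_2 p658_30),
   s6_7 (s5_7 (s2_3 (s1_3 p658_23))),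
   s5_6 (s1_2 p658_31)],
  [s5_7 (s1_3 p658_20),
   s6_7 (s5_6 (s2_3 (s1_2 p658_22))),
   s5_7 (s1_3 p658_22),
   s5_7 (s1_3 p658_30),
   tr p655_63,
   p658_53,
   s5_6 (s1_2 p658_53),
   p658_55],
  [s5_7 (s1_3 p658_21),
   s6_7 (s5_6 (s2_3 (s1_2 p658_23))),
   s5_7 (s1_3 p658_23),
   s5_7 (s1_3 p658_31),
   s5_7 (s1_3 p658_53),
   s6_7 (s2_3 p658_55),
   s5_7 (s1_3 p658_55),
   p658_63]]

theorem k658 : eqNN c658 (slO 64 (D.chG 191 63) 8) = true := by decide +kernel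

/-- The slices of the chunk 659. -/
noncomputable def c659 : List (List ℕ) := [
  [p659_0,
   p659_1,
   s5_6 (s1_2 p659_1),
   p659_3,
   p659_4,
   p659_5,
   s5_6 (s1_2 p659_5),
   p659_7],
  [s6_7 (s4_5 (s2_3 (s0_1 p659_4))),
   s6_7 (s4_5 (s2_3 (s0_1 p659_5))),
   s6_7 (s5_7 (s4_5 (s2_3 (s1_3 (s0_1 p659_5))))),
   p659_11,
   p659_12,
   p659_13,
   s5_6 (s1_2 p659_13),
   p659_15],
  [s4_7 (s0_3 p659_1),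
   s6_7 (s4_5 (s2_3 (s0_1 p659_3))),
   p659_18,
   p659_19,
   s4_7 (s0_3 p659_5),
   s6_7 (s4_5 (s2_3 (s0_1 p659_11))),
   p659_22,
   p659_23],
  [s6_7 (s5_6 (s4_6 (s2_3 (s1_2 (s0_2 p659_5))))),
   s6_7 (s4_5 (s2_3 (s0_1 p659_7))),
   s6_7 (s4_5 (s2_3 (s0_1 p659_22))),
   s6_7 (s4_5 (s2_3 (s0_1 p659_23))),
   s4_7 (s0_3 p659_13),
   s6_7 (s4_5 (s2_3 (s0_1 p659_15))),
   p659_30,
   p659_31],
  [s5_7 (s4_6 (s1_3 (s0_2 p659_1))),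
   s5_6 (s1_2 p659_18),
   s5_7 (s4_6 (s1_3 (s0_2 p659_3))),
   s5_6 (s1_2 p659_19),
   s5_6 (s4_7 (s1_2 (s0_3 p659_5))),
   s5_6 (s1_2 p659_22),
   s5_7 (s4_6 (s1_3 (s0_2 p659_11))),
   s5_6 (s1_2 p659_23)],
  [s5_7 (s4_6 (s1_3 (s0_2 p659_5))),
   s6_7 (s5_6 (s4_6 (s2_3 (s1_2 (s0_2 p659_22))))),
   s5_7 (s4_6 (s1_3 (s0_2 p659_7))),
   s6_7 (s5_7 (s4_5 (s2_3 (s1_3 (s0_1 p659_23))))),
   s5_7 (s4_6 (s1_3 (s0_2 p659_13))),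
   s5_6 (s1_2 p659_30),
   s5_7 (s4_6 (s1_3 (s0_2 p659_15))),
   s5_6 (s1_2 p659_31)],
  [s4_7 (s0_3 p659_3),
   s4_7 (s0_3 p659_19),
   s5_7 (s4_6 (s1_3 (s0_2 p659_19))),
   p659_51,
   s4_7 (s0_3 p659_7),
   s4_7 (s0_3 p659_23),
   s5_6 (s4_7 (s1_2 (s0_3 p659_23))),
   p659_55],
  [s4_7 (s0_3 p659_11),
   s6_7 (s5_6 (s4_6 (s2_3 (s1_2 (s0_2 p659_23))))),
   s5_7 (s4_6 (s1_3 (s0_2 p659_23))),
   s6_7 (s4_5 (s2_3 (s0_1 p659_55))),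
   s4_7 (s0_3 p659_15),
   s4_7 (s0_3 p659_31),
   s5_7 (s4_6 (s1_3 (s0_2 p659_31))),
   p659_63]]

theorem k659 : eqNN c659 (slO 64 (D.chG 192 0) 8) = true := by decide +kernel

end Pool.Agent.Lib.MP_afdd4d_co.K10.E6
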