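import Pool.Agent.Lib.MP_afdd4d_co.K10.E6.Dat
import Pool.Agent.Lib.MP_afdd4d_co.K10.E6.Mk
import Pool.Agent.Lib.MP_afdd4d_co.K8.F6Bl5
import Pool.Agent.Lib.MP_afdd4d_co.K10.E6.P0
import Pool.Agent.Lib.MP_afdd4d_co.K10.E6.P1
import Pool.Agent.Lib.MP_afdd4d_co.K10.E6.P2
import Pool.Agent.Lib.MP_afdd4d_co.K10.E6.P3
import Pool.Agent.Lib.MP_afdd4d_co.K10.E6.P4
import Pool.Agent.Lib.MP_afdd4d_co.K10.E6.P5
import Pool.Agent.Lib.MP_afdd4d_co.K10.E6.P6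
import Pool.Agent.Lib.MP_afdd4d_co.K10.E6.P7
import Pool.Agent.Lib.MP_afdd4d_co.K10.E6.P8
import Pool.Agent.Lib.MP_afdd4d_co.K10.E6.P9
import Pool.Agent.Lib.MP_afdd4d_co.K10.E6.P10
import Pool.Agent.Lib.MP_afdd4d_co.K10.E6.P11
import Pool.Agent.Lib.MP_afdd4d_co.K10.E6.P12
import Pool.Agent.Lib.MP_afdd4d_co.K10.E6.P13
import Pool.Agent.Lib.MP_afdd4d_co.K10.E6.P14
import Pool.Agent.Lib.MP_afdd4d_co.K10.E6.P15
import Pool.Agent.Lib.MP_afdd4d_co.K10.E6.P16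
import Pool.Agent.Lib.MP_afdd4d_co.K10.E6.P17
import Pool.Agent.Lib.MP_afdd4d_co.K10.E6.P18
import Pool.Agent.Lib.MP_afdd4d_co.K10.E6.P19
import Pool.Agent.Lib.MP_afdd4d_co.K10.E6.P20
import Pool.Agent.Lib.MP_afdd4d_co.K10.E6.P21
import Pool.Agent.Lib.MP_afdd4d_co.K10.E6.P22
import Pool.Agent.Lib.MP_afdd4d_co.K10.E6.P23
import Pool.Agent.Lib.MP_afdd4d_co.K10.E6.P24
import Pool.Agent.Lib.MP_afdd4d_co.K10.E6.P25
import Pool.Agent.Lib.MP_afdd4d_co.K10.E6.P26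
import Pool.Agent.Lib.MP_afdd4d_co.K10.E6.P27
import Pool.Agent.Lib.MP_afdd4d_co.K10.E6.P28
import Pool.Agent.Lib.MP_afdd4d_co.K10.E6.P29
import Pool.Agent.Lib.MP_afdd4d_co.K10.E6.P30
import Pool.Agent.Lib.MP_afdd4d_co.K10.E6.P31
import Pool.Agent.Lib.MP_afdd4d_co.K10.E6.P32

/-!
# Tables
-/

namespace Pool.Agent.Lib.MP_afdd4d_co.K10.E6

open K8

set_option maxRecDepth 100000
set_option exponentiation.threshold 10000000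

/-- The slices of the chunk 660. -/
noncomputable def c660 : List (List ℕ) := [
  [tr p659_1,
   p660_1,
   p660_2,
   tr p661_1,
   tr p662_1,
   p660_5,
   p660_6,
   tr p664_1],
  [s3_6 (s2_7 (s1_4 (s0_5 p662_1))),
   s6_7 (s4_5 (s2_3 (s0_1 p660_5))),
   s6_7 (s4_5 (s2_3 (s0_1 p660_20))),
   tr p665_1,
   tr p666_1,
   p660_13,
   p660_14,
   tr p668_1],
  [s6_7 (s4_5 (s2_3 (s0_1 p660_2))),
   s3_6 (s2_7 (s1_4 (s0_5 p661_1))),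
   p660_18,
   p660_19,
   p660_20,
   s3_6 (s2_7 (s1_4 (s0_5 p665_1))),
   p660_22,
   p660_23],
  [s6_7 (s4_5 (s2_3 (s0_1 p660_6))),
   s3_6 (s2_7 (s1_4 (s0_5 p664_1))),
   s6_7 (s4_5 (s2_3 (s0_1 p660_22))),
   s6_7 (s4_5 (s2_3 (s0_1 p660_23))),
   s6_7 (s4_5 (s2_3 (s0_1 p660_14))),
   s3_6 (s2_7 (s1_4 (s0_5 p668_1))),
   p660_30,
   p660_31],
  [p660_32,
   p660_33,
   s3_5 (s2_4 (s1_7 (s0_6 p661_32))),
   p660_35,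
   p660_36,
   p660_37,
   s3_5 (s2_4 (s1_7 (s0_6 p665_32))),
   p660_39],
  [s6_7 (s4_5 (s2_3 (s0_1 p660_36))),
   s6_7 (s4_5 (s2_3 (s0_1 p660_37))),
   s3_5 (s2_4 (s1_7 (s0_6 p664_32))),
   s6_7 (s4_5 (s2_3 (s0_1 p660_53))),
   p660_44,
   p660_45,
   s3_5 (s2_4 (s1_7 (s0_6 p668_32))),
   p660_47],
  [s3_4 (s2_5 (s1_6 (s0_7 p661_32))),
   s6_7 (s4_5 (s2_3 (s0_1 p660_35))),
   p660_50,
   tr p675_1,
   s3_4 (s2_5 (s1_6 (s0_7 p664_32))),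
   p660_53,
   p660_54,
   tr p676_1],
  [s3_4 (s2_5 (s1_6 (s0_7 p665_32))),
   s6_7 (s4_5 (s2_3 (s0_1 p660_39))),
   s6_7 (s4_5 (s2_3 (s0_1 p660_54))),
   s3_6 (s2_7 (s1_4 (s0_5 p676_1))),
   s3_4 (s2_5 (s1_6 (s0_7 p668_32))),
   s6_7 (s4_5 (s2_3 (s0_1 p660_47))),
   p660_62,
   tr p677_1]]

theorem k660 : eqNN c660 (slO 64 (D.chG 192 1) 8) = true := by decide +kernel

/-- The slices of the chunk 661. -/
noncomputable def c661 : List (List ℕ) := [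
  [tr p659_3,
   p661_1,
   s5_6 (s1_2 p661_1),
   p661_3,
   tr p662_3,
   p661_5,
   s5_6 (s1_2 p661_5),
   p661_7],
  [s3_6 (s2_7 (s1_4 (s0_5 p662_17))),
   p661_9,
   s5_6 (s1_2 p661_9),
   p661_11,
   tr p666_3,
   p661_13,
   s5_6 (s1_2 p661_13),
   p661_15],
  [s5_6 (s1_2 p661_32),
   p661_17,
   p661_18,
   p661_19,
   p661_20,
   p661_21,
   p661_22,
   p661_23],
  [s5_6 (s1_2 p661_40),
   p661_25,
   p661_26,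
   p661_27,
   s5_6 (s1_2 p661_44),
   p661_29,
   p661_30,
   p661_31],
  [p661_32,
   s5_6 (s1_2 p661_18),
   s5_6 (s1_2 p661_17),
   s5_6 (s1_2 p661_19),
   s5_6 (s1_2 p661_20),
   s5_6 (s1_2 p661_22),
   s5_6 (s1_2 p661_21),
   s5_6 (s1_2 p661_23)],
  [p661_40,
   s5_6 (s1_2 p661_26),
   s5_6 (s1_2 p661_25),
   s5_6 (s1_2 p661_27),
   p661_44,
   s5_6 (s1_2 p661_30),
   s5_6 (s1_2 p661_29),
   s5_6 (s1_2 p661_31)],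
  [p661_48,
   s5_6 (s1_2 p661_50),
   p661_50,
   tr p675_3,
   p661_52,
   p661_53,
   s5_6 (s1_2 p661_53),
   tr p676_3],
  [p661_56,
   s5_6 (s1_2 p661_58),
   p661_58,
   s3_6 (s2_7 (s1_4 (s0_5 p676_17))),
   p661_60,
   s5_6 (s1_2 p661_62),
   p661_62,
   tr p677_3]]

theorem k661 : eqNN c661 (slO 64 (D.chG 192 3) 8) = true := by decide +kernel

/-- The slices of the chunk 662. -/
noncomputable def c662 : List (List ℕ) := [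
  [tr p659_4,
   p662_1,
   s5_6 (s1_2 p662_1),
   p662_3,
   p662_4,
   p662_5,
   s5_6 (s1_2 p662_5),
   p662_7],
  [p662_8,
   p662_9,
   s5_6 (s1_2 p662_9),
   p662_11,
   p662_12,
   p662_13,
   s5_6 (s1_2 p662_13),
   p662_15],
  [s4_7 (s0_3 p662_1),
   p662_17,
   p662_18,
   p662_19,
   s4_7 (s0_3 p662_5),
   p662_21,
   p662_22,
   p662_23],
  [s4_7 (s0_3 p662_9),
   p662_25,
   p662_26,
   p662_27,
   s4_7 (s0_3 p662_13),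
   p662_29,
   p662_30,
   p662_31],
  [s5_6 (s4_7 (s1_2 (s0_3 p662_1))),
   s5_6 (s1_2 p662_18),
   s5_6 (s1_2 p662_17),
   s5_6 (s1_2 p662_19),
   s5_6 (s4_7 (s1_2 (s0_3 p662_5))),
   s5_6 (s1_2 p662_22),
   s5_6 (s1_2 p662_21),
   s5_6 (s1_2 p662_23)],
  [s5_6 (s4_7 (s1_2 (s0_3 p662_9))),
   s5_6 (s1_2 p662_26),
   s5_6 (s1_2 p662_25),
   s5_6 (s1_2 p662_27),
   s5_6 (s4_7 (s1_2 (s0_3 p662_13))),
   s5_6 (s1_2 p662_30),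
   s5_6 (s1_2 p662_29),
   s5_6 (s1_2 p662_31)],
  [s4_7 (s0_3 p662_3),
   s4_7 (s0_3 p662_19),
   s5_6 (s4_7 (s1_2 (s0_3 p662_19))),
   p662_51,
   s4_7 (s0_3 p662_7),
   s4_7 (s0_3 p662_23),
   s5_6 (s4_7 (s1_2 (s0_3 p662_23))),
   p662_55],
  [s4_7 (s0_3 p662_11),
   s4_7 (s0_3 p662_27),
   s5_6 (s4_7 (s1_2 (s0_3 p662_27))),
   p662_59,
   s4_7 (s0_3 p662_15),
   s4_7 (s0_3 p662_31),
   s5_6 (s4_7 (s1_2 (s0_3 p662_31))),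
   p662_63]]

theorem k662 : eqNN c662 (slO 64 (D.chG 192 4) 8) = true := by decide +kernel

/-- The slices of the chunk 663. -/
noncomputable def c663 : List (List ℕ) := [
  [tr p659_5,
   tr p660_5,
   s3_7 (s2_5 (s1_6 (s0_4 p660_6))),
   tr p661_5,
   tr p662_5,
   p663_5,
   p663_6,
   tr p664_5],
  [s3_6 (s2_7 (s1_4 (s0_5 p662_9))),
   p663_9,
   p663_10,
   tr p665_5,
   tr p666_5,
   p663_13,
   s3_7 (s2_5 (s1_6 (s0_4 p667_6))),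
   tr p668_5],
  [s3_4 (s2_6 (s1_5 (s0_7 p660_20))),
   s3_6 (s2_7 (s1_4 (s0_5 p661_9))),
   p663_18,
   p663_19,
   p663_20,
   s3_6 (s2_7 (s1_4 (s0_5 p665_9))),
   p663_22,
   p663_23],
  [s5_6 (s4_7 (s3_5 (s2_7 (s1_4 (s0_6 p663_10))))),
   s3_6 (s2_7 (s1_4 (s0_5 p664_9))),
   p663_26,
   p663_27,
   s3_4 (s2_6 (s1_5 (s0_7 p667_20))),
   s3_6 (s2_7 (s1_4 (s0_5 p668_9))),
   p663_30,
   p663_31],
  [s3_4 (s2_5 (s1_6 (s0_7 p660_36))),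
   s3_7 (s2_5 (s1_6 (s0_4 p669_6))),
   s3_5 (s2_4 (s1_7 (s0_6 p661_40))),
   s3_7 (s2_5 (s1_6 (s0_4 p670_6))),
   p663_36,
   p663_37,
   s3_5 (s2_4 (s1_7 (s0_6 p665_40))),
   p663_39],
  [p663_40,
   s5_6 (s4_7 (s3_5 (s2_7 (s1_4 (s0_6 p671_10))))),
   s3_5 (s2_4 (s1_7 (s0_6 p664_40))),
   p663_43,
   p663_44,
   s3_7 (s2_5 (s1_6 (s0_4 p673_6))),
   s3_5 (s2_4 (s1_7 (s0_6 p668_40))),
   s3_7 (s2_5 (s1_6 (s0_4 p674_6)))],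
  [s3_4 (s2_6 (s1_5 (s0_7 p661_20))),
   s3_4 (s2_6 (s1_5 (s0_7 p670_20))),
   p663_50,
   tr p675_5,
   s3_4 (s2_6 (s1_5 (s0_7 p664_20))),
   p663_53,
   p663_54,
   tr p676_5],
  [s3_4 (s2_6 (s1_5 (s0_7 p665_20))),
   p663_57,
   p663_58,
   s3_6 (s2_7 (s1_4 (s0_5 p676_9))),
   s3_4 (s2_6 (s1_5 (s0_7 p668_20))),
   s3_4 (s2_6 (s1_5 (s0_7 p674_20))),
   p663_62,
   tr p677_5]]

theorem k663 : eqNN c663 (slO 64 (D.chG 192 5) 8) = true := by decide +kernel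

end Pool.Agent.Lib.MP_afdd4d_co.K10.E6
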