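import Pool.Agent.Lib.MP_afdd4d_co.K10.E6.Dat
import Pool.Agent.Lib.MP_afdd4d_co.K10.E6.Mk
import Pool.Agent.Lib.MP_afdd4d_co.K8.F6Bl5
import Pool.Agent.Lib.MP_afdd4d_co.K10.E6.P0
import Pool.Agent.Lib.MP_afdd4d_co.K10.E6.P1
import Pool.Agent.Lib.MP_afdd4d_co.K10.E6.P2
import Pool.Agent.Lib.MP_afdd4d_co.K10.E6.P3
import Pool.Agent.Lib.MP_afdd4d_co.K10.E6.P4
import Pool.Agent.Lib.MP_afdd4d_co.K10.E6.P5
import Pool.Agent.Lib.MP_afdd4d_co.K10.E6.P6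
import Pool.Agent.Lib.MP_afdd4d_co.K10.E6.P7
import Pool.Agent.Lib.MP_afdd4d_co.K10.E6.P8
import Pool.Agent.Lib.MP_afdd4d_co.K10.E6.P9
import Pool.Agent.Lib.MP_afdd4d_co.K10.E6.P10
import Pool.Agent.Lib.MP_afdd4d_co.K10.E6.P11
import Pool.Agent.Lib.MP_afdd4d_co.K10.E6.P12
import Pool.Agent.Lib.MP_afdd4d_co.K10.E6.P13
import Pool.Agent.Lib.MP_afdd4d_co.K10.E6.P14
import Pool.Agent.Lib.MP_afdd4d_co.K10.E6.P15
import Pool.Agent.Lib.MP_afdd4d_co.K10.E6.P16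
import Pool.Agent.Lib.MP_afdd4d_co.K10.E6.P17
import Pool.Agent.Lib.MP_afdd4d_co.K10.E6.P18
import Pool.Agent.Lib.MP_afdd4d_co.K10.E6.P19
import Pool.Agent.Lib.MP_afdd4d_co.K10.E6.P20
import Pool.Agent.Lib.MP_afdd4d_co.K10.E6.P21
import Pool.Agent.Lib.MP_afdd4d_co.K10.E6.P22
import Pool.Agent.Lib.MP_afdd4d_co.K10.E6.P23
import Pool.Agent.Lib.MP_afdd4d_co.K10.E6.P24
import Pool.Agent.Lib.MP_afdd4d_co.K10.E6.P25
import Pool.Agent.Lib.MP_afdd4d_co.K10.E6.P26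
import Pool.Agent.Lib.MP_afdd4d_co.K10.E6.P27
import Pool.Agent.Lib.MP_afdd4d_co.K10.E6.P28
import Pool.Agent.Lib.MP_afdd4d_co.K10.E6.P29
import Pool.Agent.Lib.MP_afdd4d_co.K10.E6.P30
import Pool.Agent.Lib.MP_afdd4d_co.K10.E6.P31
import Pool.Agent.Lib.MP_afdd4d_co.K10.E6.P32

/-!
# Tables
-/

namespace Pool.Agent.Lib.MP_afdd4d_co.K10.E6

open K8

set_option maxRecDepth 100000
set_option exponentiation.threshold 10000000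

/-- The slices of the chunk 664. -/
noncomputable def c664 : List (List ℕ) := [
  [tr p659_7,
   p664_1,
   s5_6 (s1_2 p664_1),
   tr p661_7,
   tr p662_7,
   p664_5,
   s5_6 (s1_2 p664_5),
   p664_7],
  [s3_6 (s2_7 (s1_4 (s0_5 p662_25))),
   p664_9,
   s5_6 (s1_2 p664_9),
   p664_11,
   tr p666_7,
   p664_13,
   s5_6 (s1_2 p664_13),
   p664_15],
  [s5_6 (s1_2 p664_32),
   s3_6 (s2_7 (s1_4 (s0_5 p661_25))),
   p664_18,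
   p664_19,
   p664_20,
   p664_21,
   p664_22,
   p664_23],
  [s5_6 (s1_2 p664_40),
   p664_25,
   p664_26,
   p664_27,
   s5_6 (s1_2 p664_44),
   p664_29,
   p664_30,
   p664_31],
  [p664_32,
   s5_6 (s1_2 p664_18),
   s5_6 (s4_7 (s3_6 (s2_4 (s1_7 (s0_5 p661_25))))),
   s5_6 (s1_2 p664_19),
   s5_6 (s1_2 p664_20),
   s5_6 (s1_2 p664_22),
   s5_6 (s1_2 p664_21),
   s5_6 (s1_2 p664_23)],
  [p664_40,
   s5_6 (s1_2 p664_26),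
   s5_6 (s1_2 p664_25),
   s5_6 (s1_2 p664_27),
   p664_44,
   s5_6 (s1_2 p664_30),
   s5_6 (s1_2 p664_29),
   s5_6 (s1_2 p664_31)],
  [s3_4 (s2_6 (s1_5 (s0_7 p661_52))),
   s5_6 (s1_2 p664_50),
   p664_50,
   tr p675_7,
   p664_52,
   p664_53,
   s5_6 (s1_2 p664_53),
   tr p676_7],
  [p664_56,
   s5_6 (s1_2 p664_58),
   p664_58,
   s3_6 (s2_7 (s1_4 (s0_5 p676_25))),
   p664_60,
   s5_6 (s1_2 p664_62),
   p664_62,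
   tr p677_7]]

theorem k664 : eqNN c664 (slO 64 (D.chG 192 7) 8) = true := by decide +kernel

/-- The slices of the chunk 665. -/
noncomputable def c665 : List (List ℕ) := [
  [tr p659_11,
   p665_1,
   s5_6 (s1_2 p665_1),
   tr p661_11,
   tr p662_11,
   p665_5,
   s5_6 (s1_2 p665_5),
   tr p664_11],
  [s3_6 (s2_7 (s1_4 (s0_5 p662_21))),
   p665_9,
   s5_6 (s1_2 p665_9),
   p665_11,
   tr p666_11,
   p665_13,
   s5_6 (s1_2 p665_13),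
   p665_15],
  [s5_6 (s1_2 p665_32),
   s3_6 (s2_7 (s1_4 (s0_5 p661_21))),
   p665_18,
   p665_19,
   p665_20,
   p665_21,
   p665_22,
   p665_23],
  [s5_6 (s1_2 p665_40),
   s3_6 (s2_7 (s1_4 (s0_5 p664_21))),
   p665_26,
   p665_27,
   s5_6 (s1_2 p665_44),
   p665_29,
   p665_30,
   p665_31],
  [p665_32,
   s5_6 (s1_2 p665_18),
   s5_6 (s4_7 (s3_6 (s2_4 (s1_7 (s0_5 p661_21))))),
   s5_6 (s1_2 p665_19),
   s5_6 (s1_2 p665_20),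
   s5_6 (s1_2 p665_22),
   s5_6 (s1_2 p665_21),
   s5_6 (s1_2 p665_23)],
  [p665_40,
   s5_6 (s1_2 p665_26),
   s5_6 (s4_7 (s3_6 (s2_4 (s1_7 (s0_5 p664_21))))),
   s5_6 (s1_2 p665_27),
   p665_44,
   s5_6 (s1_2 p665_30),
   s5_6 (s1_2 p665_29),
   s5_6 (s1_2 p665_31)],
  [s3_4 (s2_6 (s1_5 (s0_7 p661_56))),
   s5_6 (s1_2 p665_50),
   p665_50,
   tr p675_11,
   s3_4 (s2_6 (s1_5 (s0_7 p664_56))),
   p665_53,
   s5_6 (s1_2 p665_53),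
   tr p676_11],
  [p665_56,
   s5_6 (s1_2 p665_58),
   p665_58,
   s3_6 (s2_7 (s1_4 (s0_5 p676_21))),
   p665_60,
   s5_6 (s1_2 p665_62),
   p665_62,
   tr p677_11]]

theorem k665 : eqNN c665 (slO 64 (D.chG 192 11) 8) = true := by decide +kernel

/-- The slices of the chunk 666. -/
noncomputable def c666 : List (List ℕ) := [
  [tr p659_12,
   p666_1,
   s5_6 (s1_2 p666_1),
   p666_3,
   tr p662_12,
   p666_5,
   s5_6 (s1_2 p666_5),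
   p666_7],
  [s3_6 (s2_7 (s1_4 (s0_5 p662_12))),
   s6_7 (s4_5 (s2_3 (s0_1 p666_5))),
   s6_7 (s5_7 (s4_5 (s2_3 (s1_3 (s0_1 p666_5))))),
   p666_11,
   p666_12,
   p666_13,
   s5_6 (s1_2 p666_13),
   p666_15],
  [s4_7 (s0_3 p666_1),
   s6_7 (s4_5 (s2_3 (s0_1 p666_3))),
   p666_18,
   p666_19,
   s4_7 (s0_3 p666_5),
   s6_7 (s4_5 (s2_3 (s0_1 p666_11))),
   p666_22,
   p666_23],
  [s6_7 (s5_6 (s4_6 (s2_3 (s1_2 (s0_2 p666_5))))),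
   s6_7 (s4_5 (s2_3 (s0_1 p666_7))),
   s6_7 (s4_5 (s2_3 (s0_1 p666_22))),
   s6_7 (s4_5 (s2_3 (s0_1 p666_23))),
   s4_7 (s0_3 p666_13),
   s6_7 (s4_5 (s2_3 (s0_1 p666_15))),
   p666_30,
   p666_31],
  [s5_7 (s4_6 (s1_3 (s0_2 p666_1))),
   s5_6 (s1_2 p666_18),
   s5_7 (s4_6 (s1_3 (s0_2 p666_3))),
   s5_6 (s1_2 p666_19),
   s5_6 (s4_7 (s1_2 (s0_3 p666_5))),
   s5_6 (s1_2 p666_22),
   s5_7 (s4_6 (s1_3 (s0_2 p666_11))),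
   s5_6 (s1_2 p666_23)],
  [s5_7 (s4_6 (s1_3 (s0_2 p666_5))),
   s6_7 (s5_6 (s4_6 (s2_3 (s1_2 (s0_2 p666_22))))),
   s5_7 (s4_6 (s1_3 (s0_2 p666_7))),
   s6_7 (s5_7 (s4_5 (s2_3 (s1_3 (s0_1 p666_23))))),
   s5_7 (s4_6 (s1_3 (s0_2 p666_13))),
   s5_6 (s1_2 p666_30),
   s5_7 (s4_6 (s1_3 (s0_2 p666_15))),
   s5_6 (s1_2 p666_31)],
  [s4_7 (s0_3 p666_3),
   s4_7 (s0_3 p666_19),
   s5_7 (s4_6 (s1_3 (s0_2 p666_19))),
   p666_51,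
   s4_7 (s0_3 p666_7),
   s4_7 (s0_3 p666_23),
   s5_6 (s4_7 (s1_2 (s0_3 p666_23))),
   p666_55],
  [s4_7 (s0_3 p666_11),
   s6_7 (s5_6 (s4_6 (s2_3 (s1_2 (s0_2 p666_23))))),
   s5_7 (s4_6 (s1_3 (s0_2 p666_23))),
   s6_7 (s4_5 (s2_3 (s0_1 p666_55))),
   s4_7 (s0_3 p666_15),
   s4_7 (s0_3 p666_31),
   s5_7 (s4_6 (s1_3 (s0_2 p666_31))),
   p666_63]]

theorem k666 : eqNN c666 (slO 64 (D.chG 192 12) 8) = true := by decide +kernel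

/-- The slices of the chunk 667. -/
noncomputable def c667 : List (List ℕ) := [
  [tr p659_13,
   tr p660_13,
   s3_7 (s2_5 (s1_6 (s0_4 p660_14))),
   tr p661_13,
   tr p662_13,
   tr p663_13,
   p667_6,
   tr p664_13],
  [s3_6 (s2_7 (s1_4 (s0_5 p662_13))),
   s3_6 (s2_7 (s1_4 (s0_5 p663_13))),
   s6_7 (s4_5 (s2_3 (s0_1 p667_20))),
   tr p665_13,
   tr p666_13,
   p667_13,
   p667_14,
   tr p668_13],
  [s5_6 (s4_7 (s3_5 (s2_7 (s1_4 (s0_6 p660_14))))),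
   s3_6 (s2_7 (s1_4 (s0_5 p661_13))),
   p667_18,
   p667_19,
   p667_20,
   s3_6 (s2_7 (s1_4 (s0_5 p665_13))),
   p667_22,
   p667_23],
  [s6_7 (s4_5 (s2_3 (s0_1 p667_6))),
   s3_6 (s2_7 (s1_4 (s0_5 p664_13))),
   s6_7 (s4_5 (s2_3 (s0_1 p667_22))),
   s6_7 (s4_5 (s2_3 (s0_1 p667_23))),
   s6_7 (s4_5 (s2_3 (s0_1 p667_14))),
   s3_6 (s2_7 (s1_4 (s0_5 p668_13))),
   p667_30,
   p667_31],
  [s3_5 (s2_4 (s1_7 (s0_6 p660_44))),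
   p667_33,
   s3_5 (s2_4 (s1_7 (s0_6 p661_44))),
   p667_35,
   s3_4 (s2_5 (s1_6 (s0_7 p663_44))),
   p667_37,
   s3_5 (s2_4 (s1_7 (s0_6 p665_44))),
   p667_39],
  [s3_5 (s2_4 (s1_7 (s0_6 p663_44))),
   s6_7 (s4_5 (s2_3 (s0_1 p667_37))),
   s3_5 (s2_4 (s1_7 (s0_6 p664_44))),
   s6_7 (s4_5 (s2_3 (s0_1 p667_53))),
   p667_44,
   p667_45,
   s3_5 (s2_4 (s1_7 (s0_6 p668_44))),
   p667_47],
  [s3_4 (s2_5 (s1_6 (s0_7 p661_44))),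
   s6_7 (s4_5 (s2_3 (s0_1 p667_35))),
   p667_50,
   tr p675_13,
   s3_4 (s2_5 (s1_6 (s0_7 p664_44))),
   p667_53,
   p667_54,
   tr p676_13],
  [s3_4 (s2_5 (s1_6 (s0_7 p665_44))),
   s6_7 (s4_5 (s2_3 (s0_1 p667_39))),
   s6_7 (s4_5 (s2_3 (s0_1 p667_54))),
   s3_6 (s2_7 (s1_4 (s0_5 p676_13))),
   s3_4 (s2_5 (s1_6 (s0_7 p668_44))),
   s6_7 (s4_5 (s2_3 (s0_1 p667_47))),
   p667_62,
   tr p677_13]]

theorem k667 : eqNN c667 (slO 64 (D.chG 192 13) 8) = true := by decide +kernel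

end Pool.Agent.Lib.MP_afdd4d_co.K10.E6
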