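import Pool.Agent.Lib.MP_afdd4d_co.K10.E6.Dat
import Pool.Agent.Lib.MP_afdd4d_co.K10.E6.Mk
import Pool.Agent.Lib.MP_afdd4d_co.K8.F6Bl5
import Pool.Agent.Lib.MP_afdd4d_co.K10.E6.P0
import Pool.Agent.Lib.MP_afdd4d_co.K10.E6.P1
import Pool.Agent.Lib.MP_afdd4d_co.K10.E6.P2
import Pool.Agent.Lib.MP_afdd4d_co.K10.E6.P3
import Pool.Agent.Lib.MP_afdd4d_co.K10.E6.P4
import Pool.Agent.Lib.MP_afdd4d_co.K10.E6.P5
import Pool.Agent.Lib.MP_afdd4d_co.K10.E6.P6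
import Pool.Agent.Lib.MP_afdd4d_co.K10.E6.P7
import Pool.Agent.Lib.MP_afdd4d_co.K10.E6.P8
import Pool.Agent.Lib.MP_afdd4d_co.K10.E6.P9
import Pool.Agent.Lib.MP_afdd4d_co.K10.E6.P10
import Pool.Agent.Lib.MP_afdd4d_co.K10.E6.P11
import Pool.Agent.Lib.MP_afdd4d_co.K10.E6.P12
import Pool.Agent.Lib.MP_afdd4d_co.K10.E6.P13
import Pool.Agent.Lib.MP_afdd4d_co.K10.E6.P14
import Pool.Agent.Lib.MP_afdd4d_co.K10.E6.P15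
import Pool.Agent.Lib.MP_afdd4d_co.K10.E6.P16
import Pool.Agent.Lib.MP_afdd4d_co.K10.E6.P17
import Pool.Agent.Lib.MP_afdd4d_co.K10.E6.P18
import Pool.Agent.Lib.MP_afdd4d_co.K10.E6.P19
import Pool.Agent.Lib.MP_afdd4d_co.K10.E6.P20
import Pool.Agent.Lib.MP_afdd4d_co.K10.E6.P21
import Pool.Agent.Lib.MP_afdd4d_co.K10.E6.P22
import Pool.Agent.Lib.MP_afdd4d_co.K10.E6.P23
import Pool.Agent.Lib.MP_afdd4d_co.K10.E6.P24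
import Pool.Agent.Lib.MP_afdd4d_co.K10.E6.P25
import Pool.Agent.Lib.MP_afdd4d_co.K10.E6.P26
import Pool.Agent.Lib.MP_afdd4d_co.K10.E6.P27
import Pool.Agent.Lib.MP_afdd4d_co.K10.E6.P28
import Pool.Agent.Lib.MP_afdd4d_co.K10.E6.P29
import Pool.Agent.Lib.MP_afdd4d_co.K10.E6.P30
import Pool.Agent.Lib.MP_afdd4d_co.K10.E6.P31
import Pool.Agent.Lib.MP_afdd4d_co.K10.E6.P32

/-!
# Tables
-/

namespace Pool.Agent.Lib.MP_afdd4d_co.K10.E6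

open K8

set_option maxRecDepth 100000
set_option exponentiation.threshold 10000000

/-- The slices of the chunk 668. -/
noncomputable def c668 : List (List ℕ) := [
  [tr p659_15,
   p668_1,
   s5_6 (s1_2 p668_1),
   tr p661_15,
   tr p662_15,
   p668_5,
   s5_6 (s1_2 p668_5),
   tr p664_15],
  [s3_6 (s2_7 (s1_4 (s0_5 p662_29))),
   p668_9,
   s5_6 (s1_2 p668_9),
   tr p665_15,
   tr p666_15,
   p668_13,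
   s5_6 (s1_2 p668_13),
   p668_15],
  [s5_6 (s1_2 p668_32),
   s3_6 (s2_7 (s1_4 (s0_5 p661_29))),
   p668_18,
   p668_19,
   p668_20,
   s3_6 (s2_7 (s1_4 (s0_5 p665_29))),
   p668_22,
   p668_23],
  [s5_6 (s1_2 p668_40),
   s3_6 (s2_7 (s1_4 (s0_5 p664_29))),
   p668_26,
   p668_27,
   s5_6 (s1_2 p668_44),
   p668_29,
   p668_30,
   p668_31],
  [p668_32,
   s5_6 (s1_2 p668_18),
   s5_6 (s4_7 (s3_6 (s2_4 (s1_7 (s0_5 p661_29))))),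
   s5_6 (s1_2 p668_19),
   s5_6 (s1_2 p668_20),
   s5_6 (s1_2 p668_22),
   s5_6 (s4_7 (s3_6 (s2_4 (s1_7 (s0_5 p665_29))))),
   s5_6 (s1_2 p668_23)],
  [p668_40,
   s5_6 (s1_2 p668_26),
   s5_6 (s4_7 (s3_6 (s2_4 (s1_7 (s0_5 p664_29))))),
   s5_6 (s1_2 p668_27),
   p668_44,
   s5_6 (s1_2 p668_30),
   s5_6 (s1_2 p668_29),
   s5_6 (s1_2 p668_31)],
  [s3_4 (s2_6 (s1_5 (s0_7 p661_60))),
   s5_6 (s1_2 p668_50),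
   p668_50,
   tr p675_15,
   s3_4 (s2_6 (s1_5 (s0_7 p664_60))),
   p668_53,
   s5_6 (s1_2 p668_53),
   tr p676_15],
  [s3_4 (s2_6 (s1_5 (s0_7 p665_60))),
   s5_6 (s1_2 p668_58),
   p668_58,
   s3_6 (s2_7 (s1_4 (s0_5 p676_29))),
   p668_60,
   s5_6 (s1_2 p668_62),
   p668_62,
   tr p677_15]]

theorem k668 : eqNN c668 (slO 64 (D.chG 192 15) 8) = true := by decide +kernel

/-- The slices of the chunk 669. -/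
noncomputable def c669 : List (List ℕ) := [
  [tr p659_18,
   tr p660_18,
   s3_7 (s2_5 (s1_6 (s0_4 p660_33))),
   tr p661_18,
   tr p662_18,
   tr p663_18,
   p669_6,
   tr p664_18],
  [s3_6 (s2_7 (s1_4 (s0_5 p662_18))),
   s3_6 (s2_7 (s1_4 (s0_5 p663_18))),
   s5_7 (s4_6 (s1_3 (s0_2 p669_6))),
   tr p665_18,
   tr p666_18,
   tr p667_18,
   s3_7 (s2_5 (s1_6 (s0_4 p667_33))),
   tr p668_18],
  [s3_4 (s2_6 (s1_5 (s0_7 p660_33))),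
   s3_6 (s2_7 (s1_4 (s0_5 p661_18))),
   p669_18,
   p669_19,
   s5_6 (s4_7 (s1_2 (s0_3 p669_6))),
   s3_6 (s2_7 (s1_4 (s0_5 p665_18))),
   p669_22,
   p669_23],
  [s6_7 (s4_5 (s2_3 (s0_1 p669_6))),
   s3_6 (s2_7 (s1_4 (s0_5 p664_18))),
   s6_7 (s4_5 (s2_3 (s0_1 p669_22))),
   s6_7 (s4_5 (s2_3 (s0_1 p669_23))),
   s3_4 (s2_6 (s1_5 (s0_7 p667_33))),
   s3_6 (s2_7 (s1_4 (s0_5 p668_18))),
   p669_30,
   p669_31],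
  [s3_5 (s2_4 (s1_7 (s0_6 p660_18))),
   p669_33,
   s3_5 (s2_4 (s1_7 (s0_6 p661_18))),
   p669_35,
   s3_4 (s2_5 (s1_6 (s0_7 p663_18))),
   p669_37,
   s3_5 (s2_4 (s1_7 (s0_6 p665_18))),
   p669_39],
  [s3_5 (s2_4 (s1_7 (s0_6 p663_18))),
   s6_7 (s4_5 (s2_3 (s0_1 p669_37))),
   s3_5 (s2_4 (s1_7 (s0_6 p664_18))),
   s5_7 (s4_6 (s1_3 (s0_2 p669_39))),
   s3_5 (s2_4 (s1_7 (s0_6 p667_18))),
   p669_45,
   s3_5 (s2_4 (s1_7 (s0_6 p668_18))),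
   p669_47],
  [s3_4 (s2_5 (s1_6 (s0_7 p661_18))),
   s6_7 (s4_5 (s2_3 (s0_1 p669_35))),
   s5_7 (s4_6 (s1_3 (s0_2 p669_19))),
   tr p675_18,
   s3_4 (s2_5 (s1_6 (s0_7 p664_18))),
   s5_6 (s4_7 (s1_2 (s0_3 p669_39))),
   s5_6 (s4_7 (s1_2 (s0_3 p669_23))),
   tr p676_18],
  [s3_4 (s2_5 (s1_6 (s0_7 p665_18))),
   s6_7 (s4_5 (s2_3 (s0_1 p669_39))),
   s5_7 (s4_6 (s1_3 (s0_2 p669_23))),
   s3_6 (s2_7 (s1_4 (s0_5 p676_18))),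
   s3_4 (s2_5 (s1_6 (s0_7 p668_18))),
   s6_7 (s4_5 (s2_3 (s0_1 p669_47))),
   s5_7 (s4_6 (s1_3 (s0_2 p669_31))),
   tr p677_18]]

theorem k669 : eqNN c669 (slO 64 (D.chG 192 18) 8) = true := by decide +kernel

/-- The slices of the chunk 670. -/
noncomputable def c670 : List (List ℕ) := [
  [tr p659_19,
   tr p660_19,
   s3_7 (s2_5 (s1_6 (s0_4 p660_35))),
   tr p661_19,
   tr p662_19,
   tr p663_19,
   p670_6,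
   tr p664_19],
  [s3_6 (s2_7 (s1_4 (s0_5 p662_19))),
   s3_6 (s2_7 (s1_4 (s0_5 p663_19))),
   s6_7 (s4_5 (s2_3 (s0_1 p670_20))),
   tr p665_19,
   tr p666_19,
   tr p667_19,
   s3_7 (s2_5 (s1_6 (s0_4 p667_35))),
   tr p668_19],
  [s5_6 (s4_7 (s3_5 (s2_7 (s1_4 (s0_6 p660_35))))),
   s3_6 (s2_7 (s1_4 (s0_5 p661_19))),
   tr p669_19,
   p670_19,
   p670_20,
   s3_6 (s2_7 (s1_4 (s0_5 p665_19))),
   p670_22,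
   p670_23],
  [s6_7 (s4_5 (s2_3 (s0_1 p670_6))),
   s3_6 (s2_7 (s1_4 (s0_5 p664_19))),
   s6_7 (s4_5 (s2_3 (s0_1 p670_22))),
   s6_7 (s4_5 (s2_3 (s0_1 p670_23))),
   s5_6 (s4_7 (s3_5 (s2_7 (s1_4 (s0_6 p667_35))))),
   s3_6 (s2_7 (s1_4 (s0_5 p668_19))),
   p670_30,
   p670_31],
  [s3_5 (s2_4 (s1_7 (s0_6 p660_50))),
   s3_7 (s2_5 (s1_6 (s0_4 p669_35))),
   s3_5 (s2_4 (s1_7 (s0_6 p661_50))),
   p670_35,
   s3_4 (s2_5 (s1_6 (s0_7 p663_50))),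
   p670_37,
   s3_5 (s2_4 (s1_7 (s0_6 p665_50))),
   p670_39],
  [s3_5 (s2_4 (s1_7 (s0_6 p663_50))),
   s6_7 (s4_5 (s2_3 (s0_1 p670_37))),
   s3_5 (s2_4 (s1_7 (s0_6 p664_50))),
   s6_7 (s4_5 (s2_3 (s0_1 p670_53))),
   s3_5 (s2_4 (s1_7 (s0_6 p667_50))),
   p670_45,
   s3_5 (s2_4 (s1_7 (s0_6 p668_50))),
   p670_47],
  [s3_4 (s2_5 (s1_6 (s0_7 p661_50))),
   s6_7 (s4_5 (s2_3 (s0_1 p670_35))),
   p670_50,
   tr p675_19,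
   s3_4 (s2_5 (s1_6 (s0_7 p664_50))),
   p670_53,
   p670_54,
   tr p676_19],
  [s3_4 (s2_5 (s1_6 (s0_7 p665_50))),
   s6_7 (s4_5 (s2_3 (s0_1 p670_39))),
   s6_7 (s4_5 (s2_3 (s0_1 p670_54))),
   s3_6 (s2_7 (s1_4 (s0_5 p676_19))),
   s3_4 (s2_5 (s1_6 (s0_7 p668_50))),
   s6_7 (s4_5 (s2_3 (s0_1 p670_47))),
   p670_62,
   tr p677_19]]

theorem k670 : eqNN c670 (slO 64 (D.chG 192 19) 8) = true := by decide +kernel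

/-- The slices of the chunk 671. -/
noncomputable def c671 : List (List ℕ) := [
  [tr p659_22,
   tr p660_22,
   s3_7 (s2_5 (s1_6 (s0_4 p660_37))),
   tr p661_22,
   tr p662_22,
   tr p663_22,
   s3_7 (s2_5 (s1_6 (s0_4 p663_37))),
   tr p664_22],
  [s3_6 (s2_7 (s1_4 (s0_5 p662_26))),
   s3_6 (s2_7 (s1_4 (s0_5 p663_26))),
   p671_10,
   tr p665_22,
   tr p666_22,
   tr p667_22,
   s3_7 (s2_5 (s1_6 (s0_4 p667_37))),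
   tr p668_22],
  [s3_4 (s2_6 (s1_5 (s0_7 p660_37))),
   s3_6 (s2_7 (s1_4 (s0_5 p661_26))),
   tr p669_22,
   tr p670_22,
   s3_4 (s2_6 (s1_5 (s0_7 p663_37))),
   s3_6 (s2_7 (s1_4 (s0_5 p665_26))),
   p671_22,
   p671_23],
  [s5_6 (s4_7 (s1_2 (s0_3 p671_10))),
   s3_6 (s2_7 (s1_4 (s0_5 p664_26))),
   p671_26,
   p671_27,
   s3_4 (s2_6 (s1_5 (s0_7 p667_37))),
   s3_6 (s2_7 (s1_4 (s0_5 p668_26))),
   p671_30,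
   p671_31],
  [s3_4 (s2_5 (s1_6 (s0_7 p660_22))),
   s3_7 (s2_5 (s1_6 (s0_4 p669_37))),
   s3_5 (s2_4 (s1_7 (s0_6 p661_26))),
   s3_7 (s2_5 (s1_6 (s0_4 p670_37))),
   s3_4 (s2_5 (s1_6 (s0_7 p663_22))),
   p671_37,
   s3_5 (s2_4 (s1_7 (s0_6 p665_26))),
   p671_39],
  [s3_5 (s2_4 (s1_7 (s0_6 p663_26))),
   p671_41,
   s3_5 (s2_4 (s1_7 (s0_6 p664_26))),
   p671_43,
   s3_4 (s2_5 (s1_6 (s0_7 p667_22))),
   s3_7 (s2_5 (s1_6 (s0_4 p673_37))),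
   s3_5 (s2_4 (s1_7 (s0_6 p668_26))),
   s3_7 (s2_5 (s1_6 (s0_4 p674_37)))],
  [s3_4 (s2_5 (s1_6 (s0_7 p661_22))),
   s3_4 (s2_6 (s1_5 (s0_7 p670_37))),
   s3_4 (s2_5 (s1_6 (s0_7 p670_22))),
   tr p675_22,
   s3_4 (s2_5 (s1_6 (s0_7 p664_22))),
   s5_6 (s4_7 (s1_2 (s0_3 p671_39))),
   s5_6 (s4_7 (s1_2 (s0_3 p671_23))),
   tr p676_22],
  [s3_4 (s2_5 (s1_6 (s0_7 p665_22))),
   s5_6 (s4_7 (s1_2 (s0_3 p671_43))),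
   s5_6 (s4_7 (s1_2 (s0_3 p671_27))),
   s3_6 (s2_7 (s1_4 (s0_5 p676_26))),
   s3_4 (s2_5 (s1_6 (s0_7 p668_22))),
   s3_4 (s2_6 (s1_5 (s0_7 p674_37))),
   s5_6 (s4_7 (s1_2 (s0_3 p671_31))),
   tr p677_22]]

theorem k671 : eqNN c671 (slO 64 (D.chG 192 22) 8) = true := by decide +kernel

end Pool.Agent.Lib.MP_afdd4d_co.K10.E6
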