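import Pool.Agent.Lib.MP_afdd4d_co.K10.E6.Dat
import Pool.Agent.Lib.MP_afdd4d_co.K10.E6.Mk
import Pool.Agent.Lib.MP_afdd4d_co.K8.F6Bl5
import Pool.Agent.Lib.MP_afdd4d_co.K10.E6.P0
import Pool.Agent.Lib.MP_afdd4d_co.K10.E6.P1
import Pool.Agent.Lib.MP_afdd4d_co.K10.E6.P2
import Pool.Agent.Lib.MP_afdd4d_co.K10.E6.P3
import Pool.Agent.Lib.MP_afdd4d_co.K10.E6.P4
import Pool.Agent.Lib.MP_afdd4d_co.K10.E6.P5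
import Pool.Agent.Lib.MP_afdd4d_co.K10.E6.P6
import Pool.Agent.Lib.MP_afdd4d_co.K10.E6.P7
import Pool.Agent.Lib.MP_afdd4d_co.K10.E6.P8
import Pool.Agent.Lib.MP_afdd4d_co.K10.E6.P9
import Pool.Agent.Lib.MP_afdd4d_co.K10.E6.P10
import Pool.Agent.Lib.MP_afdd4d_co.K10.E6.P11
import Pool.Agent.Lib.MP_afdd4d_co.K10.E6.P12
import Pool.Agent.Lib.MP_afdd4d_co.K10.E6.P13
import Pool.Agent.Lib.MP_afdd4d_co.K10.E6.P14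
import Pool.Agent.Lib.MP_afdd4d_co.K10.E6.P15
import Pool.Agent.Lib.MP_afdd4d_co.K10.E6.P16
import Pool.Agent.Lib.MP_afdd4d_co.K10.E6.P17
import Pool.Agent.Lib.MP_afdd4d_co.K10.E6.P18
import Pool.Agent.Lib.MP_afdd4d_co.K10.E6.P19
import Pool.Agent.Lib.MP_afdd4d_co.K10.E6.P20
import Pool.Agent.Lib.MP_afdd4d_co.K10.E6.P21
import Pool.Agent.Lib.MP_afdd4d_co.K10.E6.P22
import Pool.Agent.Lib.MP_afdd4d_co.K10.E6.P23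
import Pool.Agent.Lib.MP_afdd4d_co.K10.E6.P24
import Pool.Agent.Lib.MP_afdd4d_co.K10.E6.P25
import Pool.Agent.Lib.MP_afdd4d_co.K10.E6.P26
import Pool.Agent.Lib.MP_afdd4d_co.K10.E6.P27
import Pool.Agent.Lib.MP_afdd4d_co.K10.E6.P28
import Pool.Agent.Lib.MP_afdd4d_co.K10.E6.P29
import Pool.Agent.Lib.MP_afdd4d_co.K10.E6.P30
import Pool.Agent.Lib.MP_afdd4d_co.K10.E6.P31
import Pool.Agent.Lib.MP_afdd4d_co.K10.E6.P32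

/-!
# Tables
-/

namespace Pool.Agent.Lib.MP_afdd4d_co.K10.E6

open K8

set_option maxRecDepth 100000
set_option exponentiation.threshold 10000000

/-- The slices of the chunk 672. -/
noncomputable def c672 : List (List ℕ) := [
  [tr p659_23,
   tr p660_23,
   s3_7 (s2_5 (s1_6 (s0_4 p660_39))),
   tr p661_23,
   tr p662_23,
   tr p663_23,
   s3_7 (s2_5 (s1_6 (s0_4 p663_39))),
   tr p664_23],
  [s3_6 (s2_7 (s1_4 (s0_5 p662_27))),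
   s3_6 (s2_7 (s1_4 (s0_5 p663_27))),
   s5_6 (s4_7 (s3_6 (s2_4 (s1_7 (s0_5 p663_57))))),
   tr p665_23,
   tr p666_23,
   tr p667_23,
   s3_7 (s2_5 (s1_6 (s0_4 p667_39))),
   tr p668_23],
  [s3_4 (s2_6 (s1_5 (s0_7 p660_53))),
   s3_6 (s2_7 (s1_4 (s0_5 p661_27))),
   tr p669_23,
   tr p670_23,
   s3_4 (s2_6 (s1_5 (s0_7 p663_53))),
   s3_6 (s2_7 (s1_4 (s0_5 p665_27))),
   tr p671_23,
   p672_23],
  [s5_6 (s4_7 (s3_5 (s2_7 (s1_4 (s0_6 p663_43))))),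
   s3_6 (s2_7 (s1_4 (s0_5 p664_27))),
   s3_6 (s2_7 (s1_4 (s0_5 p671_27))),
   p672_27,
   s3_4 (s2_6 (s1_5 (s0_7 p667_53))),
   s3_6 (s2_7 (s1_4 (s0_5 p668_27))),
   p672_30,
   p672_31],
  [s3_4 (s2_5 (s1_6 (s0_7 p660_54))),
   s3_7 (s2_5 (s1_6 (s0_4 p669_39))),
   s3_5 (s2_4 (s1_7 (s0_6 p661_58))),
   s3_7 (s2_5 (s1_6 (s0_4 p670_39))),
   s3_4 (s2_5 (s1_6 (s0_7 p663_54))),
   s3_7 (s2_5 (s1_6 (s0_4 p671_39))),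
   s3_5 (s2_4 (s1_7 (s0_6 p665_58))),
   p672_39],
  [s3_5 (s2_4 (s1_7 (s0_6 p663_58))),
   s5_6 (s4_7 (s3_5 (s2_7 (s1_4 (s0_6 p671_43))))),
   s3_5 (s2_4 (s1_7 (s0_6 p664_58))),
   p672_43,
   s3_4 (s2_5 (s1_6 (s0_7 p667_54))),
   s3_7 (s2_5 (s1_6 (s0_4 p673_39))),
   s3_5 (s2_4 (s1_7 (s0_6 p668_58))),
   s3_7 (s2_5 (s1_6 (s0_4 p674_39)))],
  [s3_4 (s2_6 (s1_5 (s0_7 p661_53))),
   s3_4 (s2_6 (s1_5 (s0_7 p670_53))),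
   s3_4 (s2_5 (s1_6 (s0_7 p670_54))),
   tr p675_23,
   s3_4 (s2_6 (s1_5 (s0_7 p664_53))),
   p672_53,
   p672_54,
   tr p676_23],
  [s3_4 (s2_6 (s1_5 (s0_7 p665_53))),
   s5_6 (s4_7 (s3_5 (s2_7 (s1_4 (s0_6 p672_43))))),
   p672_58,
   s3_6 (s2_7 (s1_4 (s0_5 p676_27))),
   s3_4 (s2_6 (s1_5 (s0_7 p668_53))),
   s3_4 (s2_6 (s1_5 (s0_7 p674_53))),
   p672_62,
   tr p677_23]]

theorem k672 : eqNN c672 (slO 64 (D.chG 192 23) 8) = true := by decide +kernel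

/-- The slices of the chunk 673. -/
noncomputable def c673 : List (List ℕ) := [
  [tr p659_30,
   tr p660_30,
   s3_7 (s2_5 (s1_6 (s0_4 p660_45))),
   tr p661_30,
   tr p662_30,
   tr p663_30,
   p673_6,
   tr p664_30],
  [s3_6 (s2_7 (s1_4 (s0_5 p662_30))),
   s3_6 (s2_7 (s1_4 (s0_5 p663_30))),
   s5_7 (s4_6 (s1_3 (s0_2 p673_6))),
   tr p665_30,
   tr p666_30,
   tr p667_30,
   s3_7 (s2_5 (s1_6 (s0_4 p667_45))),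
   tr p668_30],
  [s3_4 (s2_6 (s1_5 (s0_7 p660_45))),
   s3_6 (s2_7 (s1_4 (s0_5 p661_30))),
   tr p669_30,
   tr p670_30,
   s5_6 (s4_7 (s1_2 (s0_3 p673_6))),
   s3_6 (s2_7 (s1_4 (s0_5 p665_30))),
   tr p671_30,
   tr p672_30],
  [s6_7 (s4_5 (s2_3 (s0_1 p673_6))),
   s3_6 (s2_7 (s1_4 (s0_5 p664_30))),
   s3_6 (s2_7 (s1_4 (s0_5 p671_30))),
   s3_6 (s2_7 (s1_4 (s0_5 p672_30))),
   s3_4 (s2_6 (s1_5 (s0_7 p667_45))),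
   s3_6 (s2_7 (s1_4 (s0_5 p668_30))),
   p673_30,
   p673_31],
  [s3_5 (s2_4 (s1_7 (s0_6 p660_30))),
   s3_7 (s2_5 (s1_6 (s0_4 p669_45))),
   s3_5 (s2_4 (s1_7 (s0_6 p661_30))),
   s3_7 (s2_5 (s1_6 (s0_4 p670_45))),
   s3_4 (s2_5 (s1_6 (s0_7 p663_30))),
   p673_37,
   s3_5 (s2_4 (s1_7 (s0_6 p665_30))),
   p673_39],
  [s3_5 (s2_4 (s1_7 (s0_6 p663_30))),
   s6_7 (s4_5 (s2_3 (s0_1 p673_37))),
   s3_5 (s2_4 (s1_7 (s0_6 p664_30))),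
   s5_7 (s4_6 (s1_3 (s0_2 p673_39))),
   s3_5 (s2_4 (s1_7 (s0_6 p667_30))),
   p673_45,
   s3_5 (s2_4 (s1_7 (s0_6 p668_30))),
   p673_47],
  [s3_4 (s2_5 (s1_6 (s0_7 p661_30))),
   s3_4 (s2_6 (s1_5 (s0_7 p670_45))),
   s3_5 (s2_4 (s1_7 (s0_6 p670_30))),
   tr p675_30,
   s3_4 (s2_5 (s1_6 (s0_7 p664_30))),
   s5_6 (s4_7 (s1_2 (s0_3 p673_39))),
   s3_4 (s2_5 (s1_6 (s0_7 p672_30))),
   tr p676_30],
  [s3_4 (s2_5 (s1_6 (s0_7 p665_30))),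
   s6_7 (s4_5 (s2_3 (s0_1 p673_39))),
   s3_5 (s2_4 (s1_7 (s0_6 p672_30))),
   s3_6 (s2_7 (s1_4 (s0_5 p676_30))),
   s3_4 (s2_5 (s1_6 (s0_7 p668_30))),
   s6_7 (s4_5 (s2_3 (s0_1 p673_47))),
   s5_7 (s4_6 (s1_3 (s0_2 p673_31))),
   tr p677_30]]

theorem k673 : eqNN c673 (slO 64 (D.chG 192 30) 8) = true := by decide +kernel

/-- The slices of the chunk 674. -/
noncomputable def c674 : List (List ℕ) := [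
  [tr p659_31,
   tr p660_31,
   s3_7 (s2_5 (s1_6 (s0_4 p660_47))),
   tr p661_31,
   tr p662_31,
   tr p663_31,
   p674_6,
   tr p664_31],
  [s3_6 (s2_7 (s1_4 (s0_5 p662_31))),
   s3_6 (s2_7 (s1_4 (s0_5 p663_31))),
   s6_7 (s4_5 (s2_3 (s0_1 p674_20))),
   tr p665_31,
   tr p666_31,
   tr p667_31,
   s3_7 (s2_5 (s1_6 (s0_4 p667_47))),
   tr p668_31],
  [s5_6 (s4_7 (s3_5 (s2_7 (s1_4 (s0_6 p660_47))))),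
   s3_6 (s2_7 (s1_4 (s0_5 p661_31))),
   tr p669_31,
   tr p670_31,
   p674_20,
   s3_6 (s2_7 (s1_4 (s0_5 p665_31))),
   tr p671_31,
   tr p672_31],
  [s6_7 (s4_5 (s2_3 (s0_1 p674_6))),
   s3_6 (s2_7 (s1_4 (s0_5 p664_31))),
   s3_6 (s2_7 (s1_4 (s0_5 p671_31))),
   s3_6 (s2_7 (s1_4 (s0_5 p672_31))),
   s5_6 (s4_7 (s3_5 (s2_7 (s1_4 (s0_6 p667_47))))),
   s3_6 (s2_7 (s1_4 (s0_5 p668_31))),
   tr p673_31,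
   p674_31],
  [s3_5 (s2_4 (s1_7 (s0_6 p660_62))),
   s3_7 (s2_5 (s1_6 (s0_4 p669_47))),
   s3_5 (s2_4 (s1_7 (s0_6 p661_62))),
   s3_7 (s2_5 (s1_6 (s0_4 p670_47))),
   s3_4 (s2_5 (s1_6 (s0_7 p663_62))),
   p674_37,
   s3_5 (s2_4 (s1_7 (s0_6 p665_62))),
   p674_39],
  [s3_5 (s2_4 (s1_7 (s0_6 p663_62))),
   s6_7 (s4_5 (s2_3 (s0_1 p674_37))),
   s3_5 (s2_4 (s1_7 (s0_6 p664_62))),
   s6_7 (s4_5 (s2_3 (s0_1 p674_53))),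
   s3_5 (s2_4 (s1_7 (s0_6 p667_62))),
   s3_7 (s2_5 (s1_6 (s0_4 p673_47))),
   s3_5 (s2_4 (s1_7 (s0_6 p668_62))),
   p674_47],
  [s3_4 (s2_5 (s1_6 (s0_7 p661_62))),
   s5_6 (s4_7 (s3_5 (s2_7 (s1_4 (s0_6 p670_47))))),
   s3_5 (s2_4 (s1_7 (s0_6 p670_62))),
   tr p675_31,
   s3_4 (s2_5 (s1_6 (s0_7 p664_62))),
   p674_53,
   s3_4 (s2_5 (s1_6 (s0_7 p672_62))),
   tr p676_31],
  [s3_4 (s2_5 (s1_6 (s0_7 p665_62))),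
   s6_7 (s4_5 (s2_3 (s0_1 p674_39))),
   s3_5 (s2_4 (s1_7 (s0_6 p672_62))),
   s3_6 (s2_7 (s1_4 (s0_5 p676_31))),
   s3_4 (s2_5 (s1_6 (s0_7 p668_62))),
   s6_7 (s4_5 (s2_3 (s0_1 p674_47))),
   p674_62,
   tr p677_31]]

theorem k674 : eqNN c674 (slO 64 (D.chG 192 31) 8) = true := by decide +kernel

/-- The slices of the chunk 675. -/
noncomputable def c675 : List (List ℕ) := [
  [tr p659_51,
   p675_1,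
   s5_6 (s1_2 p675_1),
   p675_3,
   tr p662_51,
   p675_5,
   s5_6 (s1_2 p675_5),
   p675_7],
  [s3_6 (s2_7 (s1_4 (s0_5 p662_51))),
   s6_7 (s4_5 (s2_3 (s0_1 p675_5))),
   s6_7 (s5_7 (s4_5 (s2_3 (s1_3 (s0_1 p675_5))))),
   p675_11,
   tr p666_51,
   p675_13,
   s5_6 (s1_2 p675_13),
   p675_15],
  [s4_7 (s0_3 p675_1),
   s6_7 (s4_5 (s2_3 (s0_1 p675_3))),
   p675_18,
   p675_19,
   s4_7 (s0_3 p675_5),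
   s6_7 (s4_5 (s2_3 (s0_1 p675_11))),
   p675_22,
   p675_23],
  [s6_7 (s5_6 (s4_6 (s2_3 (s1_2 (s0_2 p675_5))))),
   s6_7 (s4_5 (s2_3 (s0_1 p675_7))),
   s6_7 (s4_5 (s2_3 (s0_1 p675_22))),
   s6_7 (s4_5 (s2_3 (s0_1 p675_23))),
   s4_7 (s0_3 p675_13),
   s6_7 (s4_5 (s2_3 (s0_1 p675_15))),
   p675_30,
   p675_31],
  [s5_7 (s4_6 (s1_3 (s0_2 p675_1))),
   s5_6 (s1_2 p675_18),
   s5_7 (s4_6 (s1_3 (s0_2 p675_3))),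
   s5_6 (s1_2 p675_19),
   s5_6 (s4_7 (s1_2 (s0_3 p675_5))),
   s5_6 (s1_2 p675_22),
   s5_7 (s4_6 (s1_3 (s0_2 p675_11))),
   s5_6 (s1_2 p675_23)],
  [s5_7 (s4_6 (s1_3 (s0_2 p675_5))),
   s6_7 (s5_6 (s4_6 (s2_3 (s1_2 (s0_2 p675_22))))),
   s5_7 (s4_6 (s1_3 (s0_2 p675_7))),
   s6_7 (s5_7 (s4_5 (s2_3 (s1_3 (s0_1 p675_23))))),
   s5_7 (s4_6 (s1_3 (s0_2 p675_13))),
   s5_6 (s1_2 p675_30),
   s5_7 (s4_6 (s1_3 (s0_2 p675_15))),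
   s5_6 (s1_2 p675_31)],
  [s4_7 (s0_3 p675_3),
   s4_7 (s0_3 p675_19),
   s5_7 (s4_6 (s1_3 (s0_2 p675_19))),
   p675_51,
   s4_7 (s0_3 p675_7),
   s4_7 (s0_3 p675_23),
   s5_6 (s4_7 (s1_2 (s0_3 p675_23))),
   p675_55],
  [s4_7 (s0_3 p675_11),
   s6_7 (s5_6 (s4_6 (s2_3 (s1_2 (s0_2 p675_23))))),
   s5_7 (s4_6 (s1_3 (s0_2 p675_23))),
   s6_7 (s4_5 (s2_3 (s0_1 p675_55))),
   s4_7 (s0_3 p675_15),
   s4_7 (s0_3 p675_31),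
   s5_7 (s4_6 (s1_3 (s0_2 p675_31))),
   p675_63]]

theorem k675 : eqNN c675 (slO 64 (D.chG 192 51) 8) = true := by decide +kernel

end Pool.Agent.Lib.MP_afdd4d_co.K10.E6
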