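import Pool.Agent.Lib.MP_afdd4d_co.K10.E6.Dat
import Pool.Agent.Lib.MP_afdd4d_co.K10.E6.Mk
import Pool.Agent.Lib.MP_afdd4d_co.K8.F6Bl5
import Pool.Agent.Lib.MP_afdd4d_co.K10.E6.P0
import Pool.Agent.Lib.MP_afdd4d_co.K10.E6.P1
import Pool.Agent.Lib.MP_afdd4d_co.K10.E6.P2
import Pool.Agent.Lib.MP_afdd4d_co.K10.E6.P3
import Pool.Agent.Lib.MP_afdd4d_co.K10.E6.P4
import Pool.Agent.Lib.MP_afdd4d_co.K10.E6.P5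
import Pool.Agent.Lib.MP_afdd4d_co.K10.E6.P6
import Pool.Agent.Lib.MP_afdd4d_co.K10.E6.P7
import Pool.Agent.Lib.MP_afdd4d_co.K10.E6.P8
import Pool.Agent.Lib.MP_afdd4d_co.K10.E6.P9
import Pool.Agent.Lib.MP_afdd4d_co.K10.E6.P10
import Pool.Agent.Lib.MP_afdd4d_co.K10.E6.P11
import Pool.Agent.Lib.MP_afdd4d_co.K10.E6.P12
import Pool.Agent.Lib.MP_afdd4d_co.K10.E6.P13
import Pool.Agent.Lib.MP_afdd4d_co.K10.E6.P14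
import Pool.Agent.Lib.MP_afdd4d_co.K10.E6.P15
import Pool.Agent.Lib.MP_afdd4d_co.K10.E6.P16
import Pool.Agent.Lib.MP_afdd4d_co.K10.E6.P17
import Pool.Agent.Lib.MP_afdd4d_co.K10.E6.P18
import Pool.Agent.Lib.MP_afdd4d_co.K10.E6.P19
import Pool.Agent.Lib.MP_afdd4d_co.K10.E6.P20
import Pool.Agent.Lib.MP_afdd4d_co.K10.E6.P21
import Pool.Agent.Lib.MP_afdd4d_co.K10.E6.P22
import Pool.Agent.Lib.MP_afdd4d_co.K10.E6.P23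
import Pool.Agent.Lib.MP_afdd4d_co.K10.E6.P24
import Pool.Agent.Lib.MP_afdd4d_co.K10.E6.P25
import Pool.Agent.Lib.MP_afdd4d_co.K10.E6.P26
import Pool.Agent.Lib.MP_afdd4d_co.K10.E6.P27
import Pool.Agent.Lib.MP_afdd4d_co.K10.E6.P28
import Pool.Agent.Lib.MP_afdd4d_co.K10.E6.P29
import Pool.Agent.Lib.MP_afdd4d_co.K10.E6.P30
import Pool.Agent.Lib.MP_afdd4d_co.K10.E6.P31
import Pool.Agent.Lib.MP_afdd4d_co.K10.E6.P32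

/-!
# Tables
-/

namespace Pool.Agent.Lib.MP_afdd4d_co.K10.E6

open K8

set_option maxRecDepth 100000
set_option exponentiation.threshold 10000000

/-- The slices of the chunk 676. -/
noncomputable def c676 : List (List ℕ) := [
  [tr p659_55,
   p676_1,
   s5_6 (s1_2 p676_1),
   p676_3,
   tr p662_55,
   p676_5,
   s5_6 (s1_2 p676_5),
   p676_7],
  [s3_6 (s2_7 (s1_4 (s0_5 p662_59))),
   p676_9,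
   s5_6 (s1_2 p676_9),
   p676_11,
   tr p666_55,
   p676_13,
   s5_6 (s1_2 p676_13),
   p676_15],
  [s4_7 (s0_3 p676_1),
   p676_17,
   p676_18,
   p676_19,
   s4_7 (s0_3 p676_5),
   p676_21,
   p676_22,
   p676_23],
  [s4_7 (s0_3 p676_9),
   p676_25,
   p676_26,
   p676_27,
   s4_7 (s0_3 p676_13),
   p676_29,
   p676_30,
   p676_31],
  [s5_6 (s4_7 (s1_2 (s0_3 p676_1))),
   s5_6 (s1_2 p676_18),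
   s5_6 (s1_2 p676_17),
   s5_6 (s1_2 p676_19),
   s5_6 (s4_7 (s1_2 (s0_3 p676_5))),
   s5_6 (s1_2 p676_22),
   s5_6 (s1_2 p676_21),
   s5_6 (s1_2 p676_23)],
  [s5_6 (s4_7 (s1_2 (s0_3 p676_9))),
   s5_6 (s1_2 p676_26),
   s5_6 (s1_2 p676_25),
   s5_6 (s1_2 p676_27),
   s5_6 (s4_7 (s1_2 (s0_3 p676_13))),
   s5_6 (s1_2 p676_30),
   s5_6 (s1_2 p676_29),
   s5_6 (s1_2 p676_31)],
  [s4_7 (s0_3 p676_3),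
   s4_7 (s0_3 p676_19),
   s5_6 (s4_7 (s1_2 (s0_3 p676_19))),
   tr p675_55,
   s4_7 (s0_3 p676_7),
   s4_7 (s0_3 p676_23),
   s5_6 (s4_7 (s1_2 (s0_3 p676_23))),
   p676_55],
  [s4_7 (s0_3 p676_11),
   s4_7 (s0_3 p676_27),
   s5_6 (s4_7 (s1_2 (s0_3 p676_27))),
   p676_59,
   s4_7 (s0_3 p676_15),
   s4_7 (s0_3 p676_31),
   s5_6 (s4_7 (s1_2 (s0_3 p676_31))),
   p676_63]]

theorem k676 : eqNN c676 (slO 64 (D.chG 192 55) 8) = true := by decide +kernel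

/-- The slices of the chunk 677. -/
noncomputable def c677 : List (List ℕ) := [
  [tr p659_63,
   p677_1,
   s5_6 (s1_2 p677_1),
   p677_3,
   tr p662_63,
   p677_5,
   s5_6 (s1_2 p677_5),
   p677_7],
  [s3_6 (s2_7 (s1_4 (s0_5 p662_63))),
   s6_7 (s4_5 (s2_3 (s0_1 p677_5))),
   s6_7 (s5_7 (s4_5 (s2_3 (s1_3 (s0_1 p677_5))))),
   p677_11,
   tr p666_63,
   p677_13,
   s5_6 (s1_2 p677_13),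
   p677_15],
  [s4_7 (s0_3 p677_1),
   s6_7 (s4_5 (s2_3 (s0_1 p677_3))),
   p677_18,
   p677_19,
   s4_7 (s0_3 p677_5),
   s6_7 (s4_5 (s2_3 (s0_1 p677_11))),
   p677_22,
   p677_23],
  [s6_7 (s5_6 (s4_6 (s2_3 (s1_2 (s0_2 p677_5))))),
   s6_7 (s4_5 (s2_3 (s0_1 p677_7))),
   s6_7 (s4_5 (s2_3 (s0_1 p677_22))),
   s6_7 (s4_5 (s2_3 (s0_1 p677_23))),
   s4_7 (s0_3 p677_13),
   s6_7 (s4_5 (s2_3 (s0_1 p677_15))),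
   p677_30,
   p677_31],
  [s5_7 (s4_6 (s1_3 (s0_2 p677_1))),
   s5_6 (s1_2 p677_18),
   s5_7 (s4_6 (s1_3 (s0_2 p677_3))),
   s5_6 (s1_2 p677_19),
   s5_6 (s4_7 (s1_2 (s0_3 p677_5))),
   s5_6 (s1_2 p677_22),
   s5_7 (s4_6 (s1_3 (s0_2 p677_11))),
   s5_6 (s1_2 p677_23)],
  [s5_7 (s4_6 (s1_3 (s0_2 p677_5))),
   s6_7 (s5_6 (s4_6 (s2_3 (s1_2 (s0_2 p677_22))))),
   s5_7 (s4_6 (s1_3 (s0_2 p677_7))),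
   s6_7 (s5_7 (s4_5 (s2_3 (s1_3 (s0_1 p677_23))))),
   s5_7 (s4_6 (s1_3 (s0_2 p677_13))),
   s5_6 (s1_2 p677_30),
   s5_7 (s4_6 (s1_3 (s0_2 p677_15))),
   s5_6 (s1_2 p677_31)],
  [s4_7 (s0_3 p677_3),
   s4_7 (s0_3 p677_19),
   s5_7 (s4_6 (s1_3 (s0_2 p677_19))),
   tr p675_63,
   s4_7 (s0_3 p677_7),
   s4_7 (s0_3 p677_23),
   s5_6 (s4_7 (s1_2 (s0_3 p677_23))),
   tr p676_63],
  [s4_7 (s0_3 p677_11),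
   s6_7 (s5_6 (s4_6 (s2_3 (s1_2 (s0_2 p677_23))))),
   s5_7 (s4_6 (s1_3 (s0_2 p677_23))),
   s3_6 (s2_7 (s1_4 (s0_5 p676_63))),
   s4_7 (s0_3 p677_15),
   s4_7 (s0_3 p677_31),
   s5_7 (s4_6 (s1_3 (s0_2 p677_31))),
   p677_63]]

theorem k677 : eqNN c677 (slO 64 (D.chG 192 63) 8) = true := by decide +kernel

/-- The slices of the chunk 678. -/
noncomputable def c678 : List (List ℕ) := [
  [p678_0,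
   p678_1,
   x7_6 (x7_5 (x7_4 (s5_6 (x3_2 (x3_1 (x3_0 (s1_2 (n4 (n0 p678_1))))))))),
   p678_3,
   p678_4,
   p678_5,
   x7_6 (x7_5 (x7_4 (s5_6 (x3_2 (x3_1 (x3_0 (s1_2 (n4 (n0 p678_5))))))))),
   p678_7],
  [s6_7 (s4_5 (s2_3 (s0_1 p678_4))),
   s6_7 (s4_5 (s2_3 (s0_1 p678_5))),
   p678_10,
   x5_7 (x5_6 (x5_4 (s4_6 (x1_3 (x1_2 (x1_0 (s0_2 (n4 (n2 (n0 p678_4)))))))))),
   p678_12,
   p678_13,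
   p678_14,
   x7_6 (x7_5 (x7_4 (s5_6 (x3_2 (x3_1 (x3_0 (s1_2 (n0 p678_12))))))))],
  [x6_7 (x6_5 (x6_4 (s4_7 (x2_3 (x2_1 (x2_0 (s0_3 (n5 (n1 p678_1))))))))),
   s6_7 (s4_5 (s2_3 (s0_1 p678_3))),
   x7_6 (x7_5 (x7_4 (s5_6 (x3_2 (x3_1 (x3_0 (s1_2 (n6 (n4 (n0 p678_39)))))))))),
   s5_7 (x4_7 (x4_6 (x4_5 (s1_3 (x0_3 (x0_2 (x0_1 (n6 (n5 (n3 (n1 p678_14))))))))))),
   s6_7 (s4_5 (s2_3 (s0_1 p678_10))),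
   x6_7 (x6_5 (x6_4 (s4_7 (x2_3 (x2_1 (x2_0 (s0_3 (n1 p678_4)))))))),
   p678_22,
   p678_23],
  [s5_7 (x4_7 (x4_6 (x4_5 (s1_3 (x0_3 (x0_2 (x0_1 (n7 (n3 (n1 p678_5)))))))))),
   s6_7 (s4_5 (s2_3 (s0_1 p678_7))),
   s6_7 (s4_5 (s2_3 (s0_1 p678_22))),
   s6_7 (s4_5 (s2_3 (s0_1 p678_23))),
   s6_7 (s4_5 (s2_3 (s0_1 p678_14))),
   x6_7 (x6_5 (x6_4 (s4_7 (x2_3 (x2_1 (x2_0 (s0_3 (n1 p678_12)))))))),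
   s5_7 (x4_7 (x4_6 (x4_5 (s1_3 (x0_3 (x0_2 (x0_1 (n7 (n6 (n3 (n1 p678_3))))))))))),
   p678_31],
  [s5_7 (x4_7 (x4_6 (x4_5 (s1_3 (x0_3 (x0_2 (x0_1 (n7 (n5 (n3 (n1 p678_4))))))))))),
   x7_6 (x7_5 (x7_4 (s5_6 (x3_2 (x3_1 (x3_0 (s1_2 (n5 (n4 (n0 p678_23)))))))))),
   x5_7 (x5_6 (x5_4 (s4_6 (x1_3 (x1_2 (x1_0 (s0_2 (n6 (n4 (n2 (n0 p678_10))))))))))),
   x7_6 (x7_5 (x7_4 (s5_6 (x3_2 (x3_1 (x3_0 (s1_2 (n5 (n4 (n0 p678_22)))))))))),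
   x5_7 (x5_6 (x5_4 (s4_6 (x1_3 (x1_2 (x1_0 (s0_2 (n6 (n2 (n0 p678_3)))))))))),
   x6_7 (x6_5 (x6_4 (s4_7 (x2_3 (x2_1 (x2_0 (s0_3 (n4 (n1 p678_14))))))))),
   x5_7 (x5_6 (x5_4 (s4_6 (x1_3 (x1_2 (x1_0 (s0_2 (n6 (n2 (n0 p678_1)))))))))),
   p678_39],
  [x6_7 (x6_5 (x6_4 (s4_7 (x2_3 (x2_1 (x2_0 (s0_3 (n5 (n4 (n1 p678_3)))))))))),
   x5_7 (x5_6 (x5_4 (s4_6 (x1_3 (x1_2 (x1_0 (s0_2 (n4 (n2 (n0 p678_14)))))))))),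
   x7_6 (x7_5 (x7_4 (s5_6 (x3_2 (x3_1 (x3_0 (s1_2 (n5 (n0 p678_31))))))))),
   x5_7 (x5_6 (x5_4 (s4_6 (x1_3 (x1_2 (x1_0 (s0_2 (n4 (n2 (n0 p678_12)))))))))),
   x6_7 (x6_5 (x6_4 (s4_7 (x2_3 (x2_1 (x2_0 (s0_3 (n4 (n1 p678_22))))))))),
   x5_7 (x5_6 (x5_4 (s4_6 (x1_3 (x1_2 (x1_0 (s0_2 (n2 (n0 p678_5))))))))),
   s5_7 (x4_7 (x4_6 (x4_5 (s1_3 (x0_3 (x0_2 (x0_1 (n7 (n6 (n3 (n1 p678_23))))))))))),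
   x5_7 (x5_6 (x5_4 (s4_6 (x1_3 (x1_2 (x1_0 (s0_2 (n2 (n0 p678_7)))))))))],
  [x6_7 (x6_5 (x6_4 (s4_7 (x2_3 (x2_1 (x2_0 (s0_3 (n5 (n4 (n1 p678_10)))))))))),
   x5_7 (x5_6 (x5_4 (s4_6 (x1_3 (x1_2 (x1_0 (s0_2 (n7 (n4 (n2 (n0 p678_22))))))))))),
   p678_50,
   s5_7 (x4_7 (x4_6 (x4_5 (s1_3 (x0_3 (x0_2 (x0_1 (n6 (n5 (n3 (n1 p678_10))))))))))),
   x6_7 (x6_5 (x6_4 (s4_7 (x2_3 (x2_1 (x2_0 (s0_3 (n4 (n1 p678_31))))))))),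
   s5_7 (x4_7 (x4_6 (x4_5 (s1_3 (x0_3 (x0_2 (x0_1 (n5 (n3 (n1 p678_12)))))))))),
   x6_7 (x6_5 (x6_4 (s4_7 (x2_3 (x2_1 (x2_0 (s0_3 (n7 (n4 (n1 p678_39)))))))))),
   x5_7 (x5_6 (x5_4 (s4_6 (x1_3 (x1_2 (x1_0 (s0_2 (n7 (n2 (n0 p678_31))))))))))],
  [s5_7 (x4_7 (x4_6 (x4_5 (s1_3 (x0_3 (x0_2 (x0_1 (n7 (n3 (n1 p678_1)))))))))),
   s6_7 (s4_5 (s2_3 (s0_1 p678_39))),
   s5_7 (x4_7 (x4_6 (x4_5 (s1_3 (x0_3 (x0_2 (x0_1 (n7 (n6 (n3 (n1 p678_39))))))))))),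
   s5_7 (x4_7 (x4_6 (x4_5 (s1_3 (x0_3 (x0_2 (x0_1 (n6 (n3 (n1 p678_31)))))))))),
   x6_7 (x6_5 (x6_4 (s4_7 (x2_3 (x2_1 (x2_0 (s0_3 (n4 (n1 p678_23))))))))),
   x6_7 (x6_5 (x6_4 (s4_7 (x2_3 (x2_1 (x2_0 (s0_3 (n4 (n1 p678_7))))))))),
   s5_7 (x4_7 (x4_6 (x4_5 (s1_3 (x0_3 (x0_2 (x0_1 (n7 (n6 (n3 (n1 p678_7))))))))))),
   p678_63]]

theorem k678 : eqNN c678 (slO 64 (D.chG 208 0) 8) = true := by decide +kernel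

/-- The slices of the chunk 679. -/
noncomputable def c679 : List (List ℕ) := [
  [tr p678_1,
   p679_1,
   p679_2,
   tr p680_1,
   tr p681_1,
   tr p682_1,
   s6_7 (s4_5 (s2_3 (s0_1 p679_24))),
   tr p683_1],
  [s3_6 (s2_7 (s1_4 (s0_5 p681_1))),
   s3_6 (s2_7 (s1_4 (s0_5 p682_1))),
   tr p684_1,
   s6_7 (s4_5 (s2_3 (s0_1 p679_21))),
   p679_12,
   tr p686_1,
   tr p687_1,
   s6_7 (s4_5 (s2_3 (s0_1 p679_29)))],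
  [s6_7 (s4_5 (s2_3 (s0_1 p679_2))),
   s3_6 (s2_7 (s1_4 (s0_5 p680_1))),
   p679_18,
   p679_19,
   s3_6 (s2_7 (s1_4 (s0_5 p684_1))),
   p679_21,
   tr p689_1,
   tr p690_1],
  [p679_24,
   s3_6 (s2_7 (s1_4 (s0_5 p683_1))),
   s3_6 (s2_7 (s1_4 (s0_5 p689_1))),
   s3_6 (s2_7 (s1_4 (s0_5 p690_1))),
   s3_6 (s2_7 (s1_4 (s0_5 p687_1))),
   p679_29,
   p679_30,
   p679_31],
  [p679_32,
   p679_33,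
   s6_7 (s4_5 (s2_3 (s0_1 p679_48))),
   p679_35,
   s6_7 (s4_5 (s2_3 (s0_1 p679_40))),
   p679_37,
   p679_38,
   s6_7 (s4_5 (s2_3 (s0_1 p679_57)))],
  [p679_40,
   s6_7 (s4_5 (s2_3 (s0_1 p679_37))),
   s6_7 (s4_5 (s2_3 (s0_1 p679_52))),
   s6_7 (s4_5 (s2_3 (s0_1 p679_53))),
   x7_6 (x7_5 (x7_4 (s5_6 (s4_7 (x3_2 (x3_1 (x3_0 (s3_6 (s2_4 (s1_7 (s0_5 (n5 (n0 p689_16))))))))))))),
   p679_45,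
   p679_46,
   s6_7 (s4_5 (s2_3 (s0_1 p679_61)))],
  [p679_48,
   s6_7 (s4_5 (s2_3 (s0_1 p679_35))),
   tr p692_1,
   p679_51,
   p679_52,
   p679_53,
   p679_54,
   s6_7 (s4_5 (s2_3 (s0_1 p679_59)))],
  [s6_7 (s4_5 (s2_3 (s0_1 p679_38))),
   p679_57,
   s6_7 (s4_5 (s2_3 (s0_1 p679_54))),
   p679_59,
   s6_7 (s4_5 (s2_3 (s0_1 p679_46))),
   p679_61,
   p679_62,
   tr p693_1]]

theorem k679 : eqNN c679 (slO 64 (D.chG 208 1) 8) = true := by decide +kernel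

end Pool.Agent.Lib.MP_afdd4d_co.K10.E6
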