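import Pool.Agent.Lib.MP_afdd4d_co.K10.E6.Dat
import Pool.Agent.Lib.MP_afdd4d_co.K10.E6.Mk
import Pool.Agent.Lib.MP_afdd4d_co.K8.F6Bl5
import Pool.Agent.Lib.MP_afdd4d_co.K10.E6.P0
import Pool.Agent.Lib.MP_afdd4d_co.K10.E6.P1
import Pool.Agent.Lib.MP_afdd4d_co.K10.E6.P2
import Pool.Agent.Lib.MP_afdd4d_co.K10.E6.P3
import Pool.Agent.Lib.MP_afdd4d_co.K10.E6.P4
import Pool.Agent.Lib.MP_afdd4d_co.K10.E6.P5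
import Pool.Agent.Lib.MP_afdd4d_co.K10.E6.P6
import Pool.Agent.Lib.MP_afdd4d_co.K10.E6.P7
import Pool.Agent.Lib.MP_afdd4d_co.K10.E6.P8
import Pool.Agent.Lib.MP_afdd4d_co.K10.E6.P9
import Pool.Agent.Lib.MP_afdd4d_co.K10.E6.P10
import Pool.Agent.Lib.MP_afdd4d_co.K10.E6.P11
import Pool.Agent.Lib.MP_afdd4d_co.K10.E6.P12
import Pool.Agent.Lib.MP_afdd4d_co.K10.E6.P13
import Pool.Agent.Lib.MP_afdd4d_co.K10.E6.P14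
import Pool.Agent.Lib.MP_afdd4d_co.K10.E6.P15
import Pool.Agent.Lib.MP_afdd4d_co.K10.E6.P16
import Pool.Agent.Lib.MP_afdd4d_co.K10.E6.P17
import Pool.Agent.Lib.MP_afdd4d_co.K10.E6.P18
import Pool.Agent.Lib.MP_afdd4d_co.K10.E6.P19
import Pool.Agent.Lib.MP_afdd4d_co.K10.E6.P20
import Pool.Agent.Lib.MP_afdd4d_co.K10.E6.P21
import Pool.Agent.Lib.MP_afdd4d_co.K10.E6.P22
import Pool.Agent.Lib.MP_afdd4d_co.K10.E6.P23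
import Pool.Agent.Lib.MP_afdd4d_co.K10.E6.P24
import Pool.Agent.Lib.MP_afdd4d_co.K10.E6.P25
import Pool.Agent.Lib.MP_afdd4d_co.K10.E6.P26
import Pool.Agent.Lib.MP_afdd4d_co.K10.E6.P27
import Pool.Agent.Lib.MP_afdd4d_co.K10.E6.P28
import Pool.Agent.Lib.MP_afdd4d_co.K10.E6.P29
import Pool.Agent.Lib.MP_afdd4d_co.K10.E6.P30
import Pool.Agent.Lib.MP_afdd4d_co.K10.E6.P31
import Pool.Agent.Lib.MP_afdd4d_co.K10.E6.P32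

/-!
# Tables
-/

namespace Pool.Agent.Lib.MP_afdd4d_co.K10.E6

open K8

set_option maxRecDepth 100000
set_option exponentiation.threshold 10000000

/-- The slices of the chunk 68. -/
noncomputable def c68 : List (List ℕ) := [
  [tr p51_53,
   tr p52_53,
   s3_7 (s2_5 (s1_6 (s0_4 p52_54))),
   tr p53_53,
   tr p54_53,
   p68_5,
   p68_6,
   tr p56_53],
  [s6_7 (s5_7 (s3_5 (s2_7 (s1_6 (s0_4 p52_54))))),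
   s3_6 (s2_7 (s1_5 (s0_4 p53_53))),
   s3_5 (s2_6 (s1_7 (s0_4 p53_60))),
   tr p57_53,
   tr p58_53,
   p68_13,
   p68_14,
   tr p60_53],
  [s3_6 (s2_7 (s1_5 (s0_4 p54_53))),
   s6_7 (s2_3 p68_5),
   s3_6 (s2_7 (s1_5 (s0_4 p58_53))),
   s6_7 (s2_3 p68_13),
   tr p61_53,
   tr p62_53,
   p68_22,
   p68_23],
  [s6_7 (s2_3 p68_6),
   s3_6 (s2_7 (s1_5 (s0_4 p56_53))),
   s6_7 (s2_3 p68_14),
   s3_6 (s2_7 (s1_5 (s0_4 p60_53))),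
   s6_7 (s2_3 p68_22),
   s6_7 (s2_3 p68_23),
   tr p65_53,
   tr p66_53],
  [s3_5 (s2_6 (s1_7 (s0_4 p54_60))),
   s3_5 (s2_6 (s1_7 (s0_4 p58_60))),
   s6_7 (s2_3 p68_40),
   s6_7 (s2_3 p68_41),
   s3_7 (s2_5 (s1_6 (s0_4 p61_54))),
   p68_37,
   s3_7 (s2_5 (s1_6 (s0_4 p62_54))),
   p68_39],
  [p68_40,
   p68_41,
   s3_5 (s2_6 (s1_7 (s0_4 p56_60))),
   s3_5 (s2_6 (s1_7 (s0_4 p60_60))),
   s6_7 (s2_3 p68_50),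
   s3_7 (s2_5 (s1_6 (s0_4 p65_54))),
   s6_7 (s2_3 p68_58),
   s3_7 (s2_5 (s1_6 (s0_4 p66_54)))],
  [s6_7 (s5_7 (s3_5 (s2_7 (s1_6 (s0_4 p61_54))))),
   s6_7 (s2_3 p68_37),
   p68_50,
   s6_7 (s5_7 (s3_5 (s2_7 (s1_6 (s0_4 p65_54))))),
   tr p67_53,
   p68_53,
   p68_54,
   p68_55],
  [s6_7 (s5_7 (s3_5 (s2_7 (s1_6 (s0_4 p62_54))))),
   s6_7 (s2_3 p68_39),
   p68_58,
   s6_7 (s5_7 (s3_5 (s2_7 (s1_6 (s0_4 p66_54))))),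
   s6_7 (s2_3 p68_54),
   s6_7 (s2_3 p68_55),
   p68_62,
   tr p70_53]]

theorem k68 : eqNN c68 (slO 64 (D.chG 7 53) 8) = true := by decide +kernel

/-- The slices of the chunk 69. -/
noncomputable def c69 : List (List ℕ) := [
  [tr p51_55,
   tr p52_55,
   s3_7 (s2_5 (s1_6 (s0_4 p52_55))),
   tr p53_55,
   tr p54_55,
   p69_5,
   s5_6 (s1_2 p69_5),
   tr p56_55],
  [s3_5 (s2_6 (s1_7 (s0_4 p52_62))),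
   s3_6 (s2_7 (s1_5 (s0_4 p53_61))),
   s6_7 (s5_6 (s3_6 (s2_5 (s1_7 (s0_4 p53_61))))),
   tr p57_55,
   tr p58_55,
   p69_13,
   s5_6 (s1_2 p69_13),
   tr p60_55],
  [s3_6 (s2_7 (s1_5 (s0_4 p54_61))),
   p69_17,
   s3_6 (s2_7 (s1_5 (s0_4 p58_61))),
   p69_19,
   tr p61_55,
   tr p62_55,
   p69_22,
   p69_23],
  [s5_6 (s1_2 p69_40),
   s3_6 (s2_7 (s1_5 (s0_4 p56_61))),
   s5_6 (s1_2 p69_41),
   s3_6 (s2_7 (s1_5 (s0_4 p60_61))),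
   p69_28,
   p69_29,
   tr p65_55,
   tr p66_55],
  [s6_7 (s5_6 (s3_6 (s2_5 (s1_7 (s0_4 p54_61))))),
   s6_7 (s5_6 (s3_6 (s2_5 (s1_7 (s0_4 p58_61))))),
   s5_6 (s1_2 p69_17),
   s5_6 (s1_2 p69_19),
   s3_7 (s2_5 (s1_6 (s0_4 p61_55))),
   s5_6 (s1_2 p69_22),
   s3_7 (s2_5 (s1_6 (s0_4 p62_55))),
   s5_6 (s1_2 p69_23)],
  [p69_40,
   p69_41,
   s6_7 (s5_6 (s3_6 (s2_5 (s1_7 (s0_4 p56_61))))),
   s6_7 (s5_6 (s3_6 (s2_5 (s1_7 (s0_4 p60_61))))),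
   s5_6 (s1_2 p69_28),
   s3_7 (s2_5 (s1_6 (s0_4 p65_55))),
   s5_6 (s1_2 p69_29),
   s3_7 (s2_5 (s1_6 (s0_4 p66_55)))],
  [s3_5 (s2_6 (s1_7 (s0_4 p61_62))),
   s5_6 (s1_2 p69_50),
   p69_50,
   s3_5 (s2_6 (s1_7 (s0_4 p65_62))),
   tr p67_55,
   tr p68_55,
   s3_7 (s2_5 (s1_6 (s0_4 p68_55))),
   p69_55],
  [s3_5 (s2_6 (s1_7 (s0_4 p62_62))),
   s5_6 (s1_2 p69_58),
   p69_58,
   s3_5 (s2_6 (s1_7 (s0_4 p66_62))),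
   s3_5 (s2_6 (s1_7 (s0_4 p68_62))),
   p69_61,
   s5_6 (s1_2 p69_61),
   tr p70_55]]

theorem k69 : eqNN c69 (slO 64 (D.chG 7 55) 8) = true := by decide +kernel

/-- The slices of the chunk 70. -/
noncomputable def c70 : List (List ℕ) := [
  [tr p51_63,
   p70_1,
   s5_6 (s1_2 p70_1),
   p70_3,
   p70_4,
   p70_5,
   s5_6 (s1_2 p70_5),
   p70_7],
  [s5_7 (s1_3 p70_1),
   s6_7 (s2_3 p70_3),
   s5_7 (s1_3 p70_3),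
   tr p57_63,
   p70_12,
   p70_13,
   s5_6 (s1_2 p70_13),
   p70_15],
  [s6_7 (s2_3 p70_4),
   s6_7 (s2_3 p70_5),
   s6_7 (s2_3 p70_12),
   s6_7 (s2_3 p70_13),
   p70_20,
   p70_21,
   p70_22,
   p70_23],
  [s6_7 (s5_6 (s2_3 (s1_2 p70_5))),
   s6_7 (s2_3 p70_7),
   s6_7 (s5_6 (s2_3 (s1_2 p70_13))),
   s6_7 (s2_3 p70_15),
   s6_7 (s2_3 p70_22),
   s6_7 (s2_3 p70_23),
   p70_30,
   p70_31],
  [s5_7 (s1_3 p70_4),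
   s5_7 (s1_3 p70_12),
   s6_7 (s5_7 (s2_3 (s1_3 p70_5))),
   s6_7 (s5_7 (s2_3 (s1_3 p70_13))),
   s5_6 (s1_2 p70_20),
   s5_6 (s1_2 p70_22),
   s5_6 (s1_2 p70_21),
   s5_6 (s1_2 p70_23)],
  [s5_7 (s1_3 p70_5),
   s5_7 (s1_3 p70_13),
   s5_7 (s1_3 p70_7),
   s5_7 (s1_3 p70_15),
   s6_7 (s5_7 (s2_3 (s1_3 p70_22))),
   s5_6 (s1_2 p70_30),
   s6_7 (s5_7 (s2_3 (s1_3 p70_23))),
   s5_6 (s1_2 p70_31)],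
  [s5_7 (s1_3 p70_20),
   s6_7 (s5_6 (s2_3 (s1_2 p70_22))),
   s5_7 (s1_3 p70_22),
   s5_7 (s1_3 p70_30),
   tr p67_63,
   p70_53,
   s5_6 (s1_2 p70_53),
   p70_55],
  [s5_7 (s1_3 p70_21),
   s6_7 (s5_6 (s2_3 (s1_2 p70_23))),
   s5_7 (s1_3 p70_23),
   s5_7 (s1_3 p70_31),
   s5_7 (s1_3 p70_53),
   s6_7 (s2_3 p70_55),
   s5_7 (s1_3 p70_55),
   p70_63]]

theorem k70 : eqNN c70 (slO 64 (D.chG 7 63) 8) = true := by decide +kernel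

/-- The slices of the chunk 71. -/
noncomputable def c71 : List (List ℕ) := [
  [p71_0,
   p71_1,
   s5_6 (s1_2 p71_1),
   p71_3,
   s4_6 (s0_2 p71_1),
   s4_5 (s0_1 p71_3),
   s4_6 (s0_2 p71_3),
   p71_7],
  [s5_7 (s1_3 p71_1),
   s6_7 (s2_3 p71_3),
   s5_7 (s1_3 p71_3),
   p71_11,
   p71_12,
   p71_13,
   s5_6 (s1_2 p71_13),
   p71_15],
  [s4_7 (s0_3 p71_1),
   s6_7 (s4_5 (s2_3 (s0_1 p71_3))),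
   s6_7 (s2_3 p71_12),
   s6_7 (s2_3 p71_13),
   s5_7 (s4_7 (s1_3 (s0_3 p71_3))),
   s4_5 (s0_1 p71_11),
   s5_6 (s4_6 (s1_2 (s0_2 p71_13))),
   s4_5 (s0_1 p71_15)],
  [s6_7 (s4_6 (s2_3 (s0_2 p71_3))),
   s6_7 (s2_3 p71_7),
   s6_7 (s5_6 (s2_3 (s1_2 p71_13))),
   s6_7 (s2_3 p71_15),
   s4_7 (s0_3 p71_13),
   s6_7 (s4_5 (s2_3 (s0_1 p71_15))),
   p71_30,
   p71_31],
  [s5_7 (s4_6 (s1_3 (s0_2 p71_1))),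
   s5_7 (s1_3 p71_12),
   s5_7 (s4_6 (s1_3 (s0_2 p71_3))),
   s6_7 (s5_7 (s2_3 (s1_3 p71_13))),
   s6_7 (s4_7 (s2_3 (s0_3 p71_3))),
   s4_6 (s0_2 p71_13),
   s4_6 (s0_2 p71_11),
   s4_6 (s0_2 p71_15)],
  [s5_7 (s4_5 (s1_3 (s0_1 p71_3))),
   s5_7 (s1_3 p71_13),
   s5_7 (s1_3 p71_7),
   s5_7 (s1_3 p71_15),
   s5_7 (s4_6 (s1_3 (s0_2 p71_13))),
   s5_6 (s1_2 p71_30),
   s5_7 (s4_6 (s1_3 (s0_2 p71_15))),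
   s5_6 (s1_2 p71_31)],
  [s4_7 (s0_3 p71_3),
   s5_7 (s4_7 (s1_3 (s0_3 p71_13))),
   s6_7 (s5_6 (s4_7 (s2_3 (s1_2 (s0_3 p71_13))))),
   s5_7 (s1_3 p71_30),
   s4_7 (s0_3 p71_7),
   s5_7 (s4_7 (s1_3 (s0_3 p71_15))),
   s6_7 (s4_7 (s2_3 (s0_3 p71_15))),
   s4_6 (s0_2 p71_31)],
  [s4_7 (s0_3 p71_11),
   s6_7 (s4_6 (s2_3 (s0_2 p71_15))),
   s5_7 (s4_5 (s1_3 (s0_1 p71_15))),
   s5_7 (s1_3 p71_31),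
   s4_7 (s0_3 p71_15),
   s4_7 (s0_3 p71_31),
   s5_7 (s4_6 (s1_3 (s0_2 p71_31))),
   p71_63]]

theorem k71 : eqNN c71 (slO 64 (D.chG 15 0) 8) = true := by decide +kernel

end Pool.Agent.Lib.MP_afdd4d_co.K10.E6
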