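import Pool.Agent.Lib.MP_afdd4d_co.K10.E6.Dat
import Pool.Agent.Lib.MP_afdd4d_co.K10.E6.Mk
import Pool.Agent.Lib.MP_afdd4d_co.K8.F6Bl5
import Pool.Agent.Lib.MP_afdd4d_co.K10.E6.P0
import Pool.Agent.Lib.MP_afdd4d_co.K10.E6.P1
import Pool.Agent.Lib.MP_afdd4d_co.K10.E6.P2
import Pool.Agent.Lib.MP_afdd4d_co.K10.E6.P3
import Pool.Agent.Lib.MP_afdd4d_co.K10.E6.P4
import Pool.Agent.Lib.MP_afdd4d_co.K10.E6.P5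
import Pool.Agent.Lib.MP_afdd4d_co.K10.E6.P6
import Pool.Agent.Lib.MP_afdd4d_co.K10.E6.P7
import Pool.Agent.Lib.MP_afdd4d_co.K10.E6.P8
import Pool.Agent.Lib.MP_afdd4d_co.K10.E6.P9
import Pool.Agent.Lib.MP_afdd4d_co.K10.E6.P10
import Pool.Agent.Lib.MP_afdd4d_co.K10.E6.P11
import Pool.Agent.Lib.MP_afdd4d_co.K10.E6.P12
import Pool.Agent.Lib.MP_afdd4d_co.K10.E6.P13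
import Pool.Agent.Lib.MP_afdd4d_co.K10.E6.P14
import Pool.Agent.Lib.MP_afdd4d_co.K10.E6.P15
import Pool.Agent.Lib.MP_afdd4d_co.K10.E6.P16
import Pool.Agent.Lib.MP_afdd4d_co.K10.E6.P17
import Pool.Agent.Lib.MP_afdd4d_co.K10.E6.P18
import Pool.Agent.Lib.MP_afdd4d_co.K10.E6.P19
import Pool.Agent.Lib.MP_afdd4d_co.K10.E6.P20
import Pool.Agent.Lib.MP_afdd4d_co.K10.E6.P21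
import Pool.Agent.Lib.MP_afdd4d_co.K10.E6.P22
import Pool.Agent.Lib.MP_afdd4d_co.K10.E6.P23
import Pool.Agent.Lib.MP_afdd4d_co.K10.E6.P24
import Pool.Agent.Lib.MP_afdd4d_co.K10.E6.P25
import Pool.Agent.Lib.MP_afdd4d_co.K10.E6.P26
import Pool.Agent.Lib.MP_afdd4d_co.K10.E6.P27
import Pool.Agent.Lib.MP_afdd4d_co.K10.E6.P28
import Pool.Agent.Lib.MP_afdd4d_co.K10.E6.P29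
import Pool.Agent.Lib.MP_afdd4d_co.K10.E6.P30
import Pool.Agent.Lib.MP_afdd4d_co.K10.E6.P31
import Pool.Agent.Lib.MP_afdd4d_co.K10.E6.P32

/-!
# Tables
-/

namespace Pool.Agent.Lib.MP_afdd4d_co.K10.E6

open K8

set_option maxRecDepth 100000
set_option exponentiation.threshold 10000000

/-- The slices of the chunk 680. -/
noncomputable def c680 : List (List ℕ) := [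
  [tr p678_3,
   p680_1,
   x7_6 (x7_5 (x7_4 (s5_6 (x3_2 (x3_1 (x3_0 (s1_2 (n4 (n0 p680_1))))))))),
   p680_3,
   p680_4,
   tr p682_3,
   x7_6 (x7_5 (x7_4 (x3_2 (x3_1 (x3_0 (s3_7 (s2_5 (s1_6 (s0_4 (n4 (n0 p682_3))))))))))),
   p680_7],
  [p680_8,
   p680_9,
   p680_10,
   x7_6 (x7_5 (x7_4 (s5_6 (x3_2 (x3_1 (x3_0 (s1_2 (n0 p680_8)))))))),
   p680_12,
   tr p686_3,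
   p680_14,
   x7_6 (x7_5 (x7_4 (s5_6 (x3_2 (x3_1 (x3_0 (s1_2 (n0 p680_12))))))))],
  [x6_7 (x6_5 (x6_4 (s4_6 (x3_2 (x3_1 (x3_0 (s3_6 (x2_6 (x2_1 (x2_0 (s2_4 (s1_5 (s0_7 (n7 (n5 (n1 p679_40)))))))))))))))),
   p680_17,
   p680_18,
   x7_6 (x7_5 (x7_4 (x5_7 (x5_6 (x5_4 (s4_6 (s3_6 (s2_5 (x1_6 (x1_5 (x1_0 (s1_4 (s0_7 (n5 (n2 (n1 p687_40)))))))))))))))),
   p680_20,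
   x6_7 (x6_5 (x6_4 (s4_6 (x3_2 (x3_1 (x3_0 (s3_6 (x2_6 (x2_1 (x2_0 (s2_4 (s1_5 (s0_7 (n7 (n5 p681_40))))))))))))))),
   p680_22,
   tr p690_3],
  [p680_24,
   p680_25,
   s3_6 (s2_7 (s1_4 (s0_5 p689_17))),
   s3_6 (s2_7 (s1_4 (s0_5 p690_17))),
   p680_28,
   x6_7 (x6_5 (x6_4 (s4_6 (x3_2 (x3_1 (x3_0 (s3_6 (x2_6 (x2_1 (x2_0 (s2_4 (s1_5 (s0_7 (n7 (n5 p685_40))))))))))))))),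
   p680_30,
   p680_31],
  [x7_6 (x7_5 (x7_4 (x5_7 (x5_6 (x5_4 (s4_6 (s3_6 (s2_5 (x1_6 (x1_5 (x1_0 (s1_4 (s0_7 (n5 (n3 (n1 p681_40)))))))))))))))),
   x7_6 (x7_5 (x7_4 (x3_2 (x3_1 (x3_0 (s3_7 (s2_5 (s1_6 (s0_4 (n4 (n1 (n0 p690_3)))))))))))),
   x7_6 (x7_5 (x7_4 (s5_6 (x3_2 (x3_1 (x3_0 (s1_2 (n5 (n4 (n0 p680_20)))))))))),
   x7_6 (x7_5 (x7_4 (s5_6 (x3_2 (x3_1 (x3_0 (s1_2 (n5 (n4 (n0 p680_22)))))))))),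
   x7_6 (x7_5 (x7_4 (s5_6 (x3_2 (x3_1 (x3_0 (s1_2 (n5 (n4 (n0 p680_17)))))))))),
   x6_7 (x6_5 (x6_4 (s4_6 (x3_2 (x3_1 (x3_0 (s3_6 (x2_6 (x2_1 (x2_0 (s2_4 (s1_5 (s0_7 (n7 (n5 (n0 p687_40)))))))))))))))),
   x7_6 (x7_5 (x7_4 (x5_7 (x5_6 (x5_4 (s4_6 (s3_6 (s2_5 (x1_6 (x1_5 (x1_0 (s1_4 (s0_7 (n5 (n3 p679_40))))))))))))))),
   x7_6 (x7_5 (x7_4 (s5_6 (x3_2 (x3_1 (x3_0 (s1_2 (n5 (n4 (n0 p680_18))))))))))],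
  [x7_6 (x7_5 (x7_4 (s5_6 (x3_2 (x3_1 (x3_0 (s1_2 (n5 (n0 p680_30))))))))),
   x7_6 (x7_5 (x7_4 (s5_6 (x3_2 (x3_1 (x3_0 (s1_2 (n5 (n0 p680_28))))))))),
   x7_6 (x7_5 (x7_4 (s5_6 (x3_2 (x3_1 (x3_0 (s1_2 (n5 (n0 p680_31))))))))),
   x7_6 (x7_5 (x7_4 (x5_7 (x5_6 (x5_4 (s4_6 (s3_6 (s2_5 (x1_6 (x1_5 (x1_0 (s1_4 (s0_7 (n5 (n1 p685_40))))))))))))))),
   x7_6 (x7_5 (x7_4 (s5_6 (s4_7 (x3_2 (x3_1 (x3_0 (s3_6 (s2_4 (s1_7 (s0_5 (n5 (n0 p689_17))))))))))))),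
   x7_6 (x7_5 (x7_4 (s5_6 (x3_2 (x3_1 (x3_0 (s1_2 (n5 (n0 p680_24))))))))),
   x7_6 (x7_5 (x7_4 (s5_6 (s4_7 (x3_2 (x3_1 (x3_0 (s3_6 (s2_4 (s1_7 (s0_5 (n5 (n0 p690_17))))))))))))),
   x7_6 (x7_5 (x7_4 (s5_6 (x3_2 (x3_1 (x3_0 (s1_2 (n5 (n0 p680_25)))))))))],
  [x6_7 (x6_5 (x6_4 (s4_6 (x3_2 (x3_1 (x3_0 (s3_6 (x2_6 (x2_1 (x2_0 (s2_4 (s1_5 (s0_7 (n7 (n5 (n1 (n0 p684_40))))))))))))))))),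
   p680_49,
   tr p692_3,
   x7_6 (x7_5 (x7_4 (x5_7 (x5_6 (x5_4 (s4_6 (s3_6 (s2_5 (x1_6 (x1_5 (x1_0 (s1_4 (s0_7 (n5 (n2 (n1 p684_40)))))))))))))))),
   x6_7 (x6_5 (x6_4 (s4_6 (x3_2 (x3_1 (x3_0 (s3_6 (x2_6 (x2_1 (x2_0 (s2_4 (s1_5 (s0_7 (n7 (n5 (n0 p691_40)))))))))))))))),
   p680_53,
   p680_54,
   x7_6 (x7_5 (x7_4 (x5_7 (x5_6 (x5_4 (s4_6 (s3_6 (s2_5 (x1_6 (x1_5 (x1_0 (s1_4 (s0_7 (n5 (n2 p691_40)))))))))))))))],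
  [x4_7 (x4_6 (x4_5 (s3_5 (s2_6 (s1_7 (x0_7 (x0_6 (x0_5 (s0_4 (n6 (n5 (n3 p679_30)))))))))))),
   x6_7 (x6_5 (x6_4 (s4_6 (x3_2 (x3_1 (x3_0 (s3_6 (x2_6 (x2_1 (x2_0 (s2_4 (s1_5 (s0_7 (n7 (n5 (n1 (n0 p688_40))))))))))))))))),
   x7_6 (x7_5 (x7_4 (x5_7 (x5_6 (x5_4 (s4_6 (s3_6 (s2_5 (x1_6 (x1_5 (x1_0 (s1_4 (s0_7 (n5 (n3 (n2 (n1 p688_40))))))))))))))))),
   p680_59,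
   p680_60,
   p680_61,
   x7_6 (x7_5 (x7_4 (s5_6 (x3_2 (x3_1 (x3_0 (s1_2 (n6 (n5 (n0 p680_61)))))))))),
   tr p693_3]]

theorem k680 : eqNN c680 (slO 64 (D.chG 208 3) 8) = true := by decide +kernel

/-- The slices of the chunk 681. -/
noncomputable def c681 : List (List ℕ) := [
  [tr p678_4,
   p681_1,
   x7_6 (x7_5 (x7_4 (s5_6 (x3_2 (x3_1 (x3_0 (s1_2 (n4 (n0 p681_1))))))))),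
   tr p680_4,
   p681_4,
   tr p682_4,
   x7_6 (x7_5 (x7_4 (x3_2 (x3_1 (x3_0 (s3_7 (s2_5 (s1_6 (s0_4 (n4 (n0 p682_4))))))))))),
   p681_7],
  [p681_8,
   p681_9,
   p681_10,
   x7_6 (x7_5 (x7_4 (s5_6 (x3_2 (x3_1 (x3_0 (s1_2 (n0 p681_8)))))))),
   p681_12,
   tr p686_4,
   p681_14,
   x7_6 (x7_5 (x7_4 (s5_6 (x3_2 (x3_1 (x3_0 (s1_2 (n0 p681_12))))))))],
  [x6_7 (x6_5 (x6_4 (s4_6 (x3_2 (x3_1 (x3_0 (s3_6 (x2_6 (x2_1 (x2_0 (s2_4 (s1_5 (s0_7 (n1 p679_21)))))))))))))),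
   s3_6 (s2_7 (s1_4 (s0_5 p680_8))),
   p681_18,
   x7_6 (x7_5 (x7_4 (x5_7 (x5_6 (x5_4 (s4_6 (s3_6 (s2_5 (x1_6 (x1_5 (x1_0 (s1_4 (s0_7 (n7 (n2 (n1 p687_21)))))))))))))))),
   p681_20,
   p681_21,
   p681_22,
   tr p690_4],
  [p681_24,
   p681_25,
   s3_6 (s2_7 (s1_4 (s0_5 p689_8))),
   s3_6 (s2_7 (s1_4 (s0_5 p690_8))),
   p681_28,
   x6_7 (x6_5 (x6_4 (s4_6 (x3_2 (x3_1 (x3_0 (s3_6 (x2_6 (x2_1 (x2_0 (s2_4 (s1_5 (s0_7 p685_21))))))))))))),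
   x7_6 (x7_5 (x7_4 (s5_6 (x3_2 (x3_1 (x3_0 (s1_2 (n6 (n0 p681_40))))))))),
   p681_31],
  [x7_6 (x7_5 (x7_4 (s5_6 (x3_2 (x3_1 (x3_0 (s1_2 (n5 (n4 (n0 p681_21)))))))))),
   x7_6 (x7_5 (x7_4 (x3_2 (x3_1 (x3_0 (s3_7 (s2_5 (s1_6 (s0_4 (n4 (n1 (n0 p690_4)))))))))))),
   x7_6 (x7_5 (x7_4 (s5_6 (x3_2 (x3_1 (x3_0 (s1_2 (n5 (n4 (n0 p681_20)))))))))),
   x7_6 (x7_5 (x7_4 (s5_6 (x3_2 (x3_1 (x3_0 (s1_2 (n5 (n4 (n0 p681_22)))))))))),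
   x7_6 (x7_5 (x7_4 (s5_6 (s4_7 (x3_2 (x3_1 (x3_0 (s3_6 (s2_4 (s1_7 (s0_5 (n5 (n1 (n0 p680_8)))))))))))))),
   x6_7 (x6_5 (x6_4 (s4_6 (x3_2 (x3_1 (x3_0 (s3_6 (x2_6 (x2_1 (x2_0 (s2_4 (s1_5 (s0_7 (n0 p687_21)))))))))))))),
   x7_6 (x7_5 (x7_4 (x5_7 (x5_6 (x5_4 (s4_6 (s3_6 (s2_5 (x1_6 (x1_5 (x1_0 (s1_4 (s0_7 (n7 (n3 p679_21))))))))))))))),
   x7_6 (x7_5 (x7_4 (s5_6 (x3_2 (x3_1 (x3_0 (s1_2 (n5 (n4 (n0 p681_18))))))))))],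
  [p681_40,
   x7_6 (x7_5 (x7_4 (s5_6 (x3_2 (x3_1 (x3_0 (s1_2 (n5 (n0 p681_28))))))))),
   x7_6 (x7_5 (x7_4 (s5_6 (x3_2 (x3_1 (x3_0 (s1_2 (n5 (n0 p681_31))))))))),
   x7_6 (x7_5 (x7_4 (x5_7 (x5_6 (x5_4 (s4_6 (s3_6 (s2_5 (x1_6 (x1_5 (x1_0 (s1_4 (s0_7 (n7 (n1 p685_21))))))))))))))),
   x7_6 (x7_5 (x7_4 (s5_6 (s4_7 (x3_2 (x3_1 (x3_0 (s3_6 (s2_4 (s1_7 (s0_5 (n5 (n0 p689_8))))))))))))),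
   x7_6 (x7_5 (x7_4 (s5_6 (x3_2 (x3_1 (x3_0 (s1_2 (n5 (n0 p681_24))))))))),
   x7_6 (x7_5 (x7_4 (s5_6 (s4_7 (x3_2 (x3_1 (x3_0 (s3_6 (s2_4 (s1_7 (s0_5 (n5 (n0 p690_8))))))))))))),
   x7_6 (x7_5 (x7_4 (s5_6 (x3_2 (x3_1 (x3_0 (s1_2 (n5 (n0 p681_25)))))))))],
  [x6_7 (x6_5 (x6_4 (s4_6 (x3_2 (x3_1 (x3_0 (s3_6 (x2_6 (x2_1 (x2_0 (s2_4 (s1_5 (s0_7 (n1 (n0 p684_21))))))))))))))),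
   p681_49,
   tr p692_4,
   x7_6 (x7_5 (x7_4 (x5_7 (x5_6 (x5_4 (s4_6 (s3_6 (s2_5 (x1_6 (x1_5 (x1_0 (s1_4 (s0_7 (n7 (n2 (n1 p684_21)))))))))))))))),
   x6_7 (x6_5 (x6_4 (s4_6 (x3_2 (x3_1 (x3_0 (s3_6 (x2_6 (x2_1 (x2_0 (s2_4 (s1_5 (s0_7 (n0 p691_21)))))))))))))),
   p681_53,
   p681_54,
   x7_6 (x7_5 (x7_4 (x5_7 (x5_6 (x5_4 (s4_6 (s3_6 (s2_5 (x1_6 (x1_5 (x1_0 (s1_4 (s0_7 (n7 (n2 p691_21)))))))))))))))],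
  [x4_7 (x4_6 (x4_5 (s3_5 (s2_6 (s1_7 (x0_7 (x0_6 (x0_5 (s0_4 (n7 (n5 (n3 p679_32)))))))))))),
   x6_7 (x6_5 (x6_4 (s4_6 (x3_2 (x3_1 (x3_0 (s3_6 (x2_6 (x2_1 (x2_0 (s2_4 (s1_5 (s0_7 (n1 (n0 p688_21))))))))))))))),
   x7_6 (x7_5 (x7_4 (x5_7 (x5_6 (x5_4 (s4_6 (s3_6 (s2_5 (x1_6 (x1_5 (x1_0 (s1_4 (s0_7 (n7 (n3 (n2 (n1 p688_21))))))))))))))))),
   p681_59,
   p681_60,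
   p681_61,
   x7_6 (x7_5 (x7_4 (s5_6 (x3_2 (x3_1 (x3_0 (s1_2 (n6 (n5 (n0 p681_61)))))))))),
   tr p693_4]]

theorem k681 : eqNN c681 (slO 64 (D.chG 208 4) 8) = true := by decide +kernel

/-- The slices of the chunk 682. -/
noncomputable def c682 : List (List ℕ) := [
  [tr p678_5,
   p682_1,
   x7_6 (x7_5 (x7_4 (s5_6 (s4_7 (x3_2 (x3_1 (x3_0 (s3_6 (s2_4 (s1_7 (s0_5 (n5 (n1 p679_24))))))))))))),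
   p682_3,
   p682_4,
   p682_5,
   p682_6,
   p682_7],
  [s3_6 (s2_7 (s1_4 (s0_5 p681_9))),
   p682_9,
   p682_10,
   x7_6 (x7_5 (x7_4 (s5_6 (s4_7 (x3_2 (x3_1 (x3_0 (s3_6 (s2_4 (s1_7 (s0_5 (n5 p681_24)))))))))))),
   p682_12,
   tr p686_5,
   p682_14,
   x7_6 (x7_5 (x7_4 (s5_6 (s4_7 (x3_2 (x3_1 (x3_0 (s3_6 (s2_4 (s1_7 (s0_5 (n5 p685_24))))))))))))],
  [x6_7 (x6_5 (x6_4 (s4_7 (x2_3 (x2_1 (x2_0 (s0_3 (n5 p682_1)))))))),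
   s3_6 (s2_7 (s1_4 (s0_5 p680_9))),
   p682_18,
   x4_7 (x4_6 (x4_5 (s3_5 (s2_6 (s1_7 (x0_7 (x0_6 (x0_5 (s0_4 (n5 (n2 (n1 p687_24)))))))))))),
   p682_20,
   x6_7 (x6_5 (x6_4 (s4_7 (x2_3 (x2_1 (x2_0 (s0_3 p682_4))))))),
   p682_22,
   p682_23],
  [x6_7 (x6_5 (x6_4 (s4_7 (x2_3 (x2_1 (x2_0 (s0_3 (n5 p682_9)))))))),
   p682_25,
   p682_26,
   p682_27,
   p682_28,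
   x6_7 (x6_5 (x6_4 (s4_7 (x2_3 (x2_1 (x2_0 (s0_3 p682_12))))))),
   x4_7 (x4_6 (x4_5 (s3_5 (s2_6 (s1_7 (x0_7 (x0_6 (x0_5 (s0_4 (n5 (n3 (n2 p680_24)))))))))))),
   p682_31],
  [x4_7 (x4_6 (x4_5 (s3_5 (s2_6 (s1_7 (x0_7 (x0_6 (x0_5 (s0_4 (n5 (n3 (n1 p681_24)))))))))))),
   x6_7 (x6_5 (x6_4 (s4_7 (x2_3 (x2_1 (x2_0 (s0_3 (n5 (n4 p682_27))))))))),
   x7_6 (x7_5 (x7_4 (s5_6 (s4_7 (x3_2 (x3_1 (x3_0 (s3_6 (s2_4 (s1_7 (s0_5 (n5 (n1 (n0 p684_24)))))))))))))),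
   p682_35,
   x7_6 (x7_5 (x7_4 (s5_6 (s4_7 (x3_2 (x3_1 (x3_0 (s3_6 (s2_4 (s1_7 (s0_5 (n5 (n1 (n0 p680_24)))))))))))))),
   x6_7 (x6_5 (x6_4 (s4_7 (x2_3 (x2_1 (x2_0 (s0_3 (n4 p682_14)))))))),
   x7_6 (x7_5 (x7_4 (x5_7 (x5_6 (x5_4 (s4_6 (s3_6 (s2_5 (x1_6 (x1_5 (x1_0 (s1_4 (s0_7 (n3 p679_45)))))))))))))),
   x7_6 (x7_5 (x7_4 (s5_6 (s4_7 (x3_2 (x3_1 (x3_0 (s3_6 (s2_4 (s1_7 (s0_5 (n5 (n1 (n0 p688_24))))))))))))))],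
  [x6_7 (x6_5 (x6_4 (s4_7 (x2_3 (x2_1 (x2_0 (s0_3 (n5 (n4 p682_3))))))))),
   x7_6 (x7_5 (x7_4 (s5_6 (s4_7 (x3_2 (x3_1 (x3_0 (s3_6 (s2_4 (s1_7 (s0_5 (n5 (n0 p687_24))))))))))))),
   x7_6 (x7_5 (x7_4 (s5_6 (s4_7 (x3_2 (x3_1 (x3_0 (s3_6 (s2_4 (s1_7 (s0_5 (n5 (n0 p691_24))))))))))))),
   p682_43,
   x6_7 (x6_5 (x6_4 (s4_7 (x2_3 (x2_1 (x2_0 (s0_3 (n4 p682_22)))))))),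
   x6_7 (x6_5 (x6_4 (s4_7 (x2_3 (x2_1 (x2_0 (s0_3 (n4 p682_6)))))))),
   p682_46,
   x7_6 (x7_5 (x7_4 (s5_6 (s4_7 (x3_2 (x3_1 (x3_0 (s3_6 (s2_4 (s1_7 (s0_5 (n5 (n0 p683_24)))))))))))))],
  [x6_7 (x6_5 (x6_4 (s4_7 (x2_3 (x2_1 (x2_0 (s0_3 (n5 (n4 p682_10))))))))),
   x6_7 (x6_5 (x6_4 (s4_7 (x2_3 (x2_1 (x2_0 (s0_3 (n5 (n4 p682_26))))))))),
   tr p692_5,
   x4_7 (x4_6 (x4_5 (s3_5 (s2_6 (s1_7 (x0_7 (x0_6 (x0_5 (s0_4 (n5 (n2 (n1 p684_24)))))))))))),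
   x6_7 (x6_5 (x6_4 (s4_7 (x2_3 (x2_1 (x2_0 (s0_3 (n4 p682_31)))))))),
   x4_7 (x4_6 (x4_5 (s3_5 (s2_6 (s1_7 (x0_7 (x0_6 (x0_5 (s0_4 (n5 (n1 p685_24))))))))))),
   x4_7 (x4_6 (x4_5 (s3_5 (s2_6 (s1_7 (x0_7 (x0_6 (x0_5 (s0_4 (n5 (n3 (n2 (n1 p688_24))))))))))))),
   p682_55],
  [x4_7 (x4_6 (x4_5 (s3_5 (s2_6 (s1_7 (x0_7 (x0_6 (x0_5 (s0_4 (n5 (n3 p679_24))))))))))),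
   x6_7 (x6_5 (x6_4 (s4_7 (x2_3 (x2_1 (x2_0 (s0_3 (n5 (n4 p682_18))))))))),
   p682_58,
   x4_7 (x4_6 (x4_5 (s3_5 (s2_6 (s1_7 (x0_7 (x0_6 (x0_5 (s0_4 (n5 (n2 p691_24))))))))))),
   x6_7 (x6_5 (x6_4 (s4_7 (x2_3 (x2_1 (x2_0 (s0_3 (n4 p682_23)))))))),
   x6_7 (x6_5 (x6_4 (s4_7 (x2_3 (x2_1 (x2_0 (s0_3 (n4 p682_7)))))))),
   x4_7 (x4_6 (x4_5 (s3_5 (s2_6 (s1_7 (x0_7 (x0_6 (x0_5 (s0_4 (n5 (n3 (n2 p683_24)))))))))))),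
   tr p693_5]]

theorem k682 : eqNN c682 (slO 64 (D.chG 208 5) 8) = true := by decide +kernel

/-- The slices of the chunk 683. -/
noncomputable def c683 : List (List ℕ) := [
  [tr p678_7,
   p683_1,
   x7_6 (x7_5 (x7_4 (s5_6 (x3_2 (x3_1 (x3_0 (s1_2 (n4 (n0 p683_1))))))))),
   tr p680_7,
   tr p681_7,
   tr p682_7,
   x7_6 (x7_5 (x7_4 (x3_2 (x3_1 (x3_0 (s3_7 (s2_5 (s1_6 (s0_4 (n4 (n0 p682_7))))))))))),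
   p683_7],
  [s3_6 (s2_7 (s1_4 (s0_5 p681_25))),
   s3_6 (s2_7 (s1_4 (s0_5 p682_25))),
   p683_10,
   x7_6 (x7_5 (x7_4 (s5_6 (s4_7 (x3_2 (x3_1 (x3_0 (s3_6 (s2_4 (s1_7 (s0_5 (n5 p681_25)))))))))))),
   p683_12,
   tr p686_7,
   p683_14,
   x7_6 (x7_5 (x7_4 (s5_6 (x3_2 (x3_1 (x3_0 (s1_2 (n0 p683_12))))))))],
  [x6_7 (x6_5 (x6_4 (s4_6 (x3_2 (x3_1 (x3_0 (s3_6 (x2_6 (x2_1 (x2_0 (s2_4 (s1_5 (s0_7 (n7 (n1 p679_61))))))))))))))),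
   s3_6 (s2_7 (s1_4 (s0_5 p680_25))),
   p683_18,
   x7_6 (x7_5 (x7_4 (x5_7 (x5_6 (x5_4 (s4_6 (s3_6 (s2_5 (x1_6 (x1_5 (x1_0 (s1_4 (s0_7 (n2 (n1 p687_61))))))))))))))),
   p683_20,
   x6_7 (x6_5 (x6_4 (s4_6 (x3_2 (x3_1 (x3_0 (s3_6 (x2_6 (x2_1 (x2_0 (s2_4 (s1_5 (s0_7 (n7 p681_61)))))))))))))),
   p683_22,
   tr p690_7],
  [p683_24,
   p683_25,
   s3_6 (s2_7 (s1_4 (s0_5 p689_25))),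
   s3_6 (s2_7 (s1_4 (s0_5 p690_25))),
   p683_28,
   x6_7 (x6_5 (x6_4 (s4_6 (x3_2 (x3_1 (x3_0 (s3_6 (x2_6 (x2_1 (x2_0 (s2_4 (s1_5 (s0_7 (n7 p685_61)))))))))))))),
   x7_6 (x7_5 (x7_4 (x5_7 (x5_6 (x5_4 (s4_6 (s3_6 (s2_5 (x1_6 (x1_5 (x1_0 (s1_4 (s0_7 (n3 (n2 p680_61))))))))))))))),
   p683_31],
  [x7_6 (x7_5 (x7_4 (x5_7 (x5_6 (x5_4 (s4_6 (s3_6 (s2_5 (x1_6 (x1_5 (x1_0 (s1_4 (s0_7 (n3 (n1 p681_61))))))))))))))),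
   x7_6 (x7_5 (x7_4 (x3_2 (x3_1 (x3_0 (s3_7 (s2_5 (s1_6 (s0_4 (n4 (n1 (n0 p690_7)))))))))))),
   x7_6 (x7_5 (x7_4 (s5_6 (x3_2 (x3_1 (x3_0 (s1_2 (n5 (n4 (n0 p683_20)))))))))),
   x7_6 (x7_5 (x7_4 (s5_6 (x3_2 (x3_1 (x3_0 (s1_2 (n5 (n4 (n0 p683_22)))))))))),
   x7_6 (x7_5 (x7_4 (s5_6 (s4_7 (x3_2 (x3_1 (x3_0 (s3_6 (s2_4 (s1_7 (s0_5 (n5 (n1 (n0 p680_25)))))))))))))),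
   x6_7 (x6_5 (x6_4 (s4_6 (x3_2 (x3_1 (x3_0 (s3_6 (x2_6 (x2_1 (x2_0 (s2_4 (s1_5 (s0_7 (n7 (n0 p687_61))))))))))))))),
   x7_6 (x7_5 (x7_4 (x5_7 (x5_6 (x5_4 (s4_6 (s3_6 (s2_5 (x1_6 (x1_5 (x1_0 (s1_4 (s0_7 (n3 p679_61)))))))))))))),
   x7_6 (x7_5 (x7_4 (s5_6 (x3_2 (x3_1 (x3_0 (s1_2 (n5 (n4 (n0 p683_18))))))))))],
  [x6_7 (x6_5 (x6_4 (s4_6 (x3_2 (x3_1 (x3_0 (s3_6 (x2_6 (x2_1 (x2_0 (s2_4 (s1_5 (s0_7 (n7 (n1 (n0 p680_61)))))))))))))))),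
   x7_6 (x7_5 (x7_4 (s5_6 (x3_2 (x3_1 (x3_0 (s1_2 (n5 (n0 p683_28))))))))),
   x7_6 (x7_5 (x7_4 (s5_6 (x3_2 (x3_1 (x3_0 (s1_2 (n5 (n0 p683_31))))))))),
   x7_6 (x7_5 (x7_4 (x5_7 (x5_6 (x5_4 (s4_6 (s3_6 (s2_5 (x1_6 (x1_5 (x1_0 (s1_4 (s0_7 (n1 p685_61)))))))))))))),
   x7_6 (x7_5 (x7_4 (s5_6 (s4_7 (x3_2 (x3_1 (x3_0 (s3_6 (s2_4 (s1_7 (s0_5 (n5 (n0 p689_25))))))))))))),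
   x7_6 (x7_5 (x7_4 (s5_6 (x3_2 (x3_1 (x3_0 (s1_2 (n5 (n0 p683_24))))))))),
   x7_6 (x7_5 (x7_4 (s5_6 (s4_7 (x3_2 (x3_1 (x3_0 (s3_6 (s2_4 (s1_7 (s0_5 (n5 (n0 p690_25))))))))))))),
   x7_6 (x7_5 (x7_4 (s5_6 (x3_2 (x3_1 (x3_0 (s1_2 (n5 (n0 p683_25)))))))))],
  [x6_7 (x6_5 (x6_4 (s4_6 (x3_2 (x3_1 (x3_0 (s3_6 (x2_6 (x2_1 (x2_0 (s2_4 (s1_5 (s0_7 (n7 (n1 (n0 p684_61)))))))))))))))),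
   p683_49,
   tr p692_7,
   x7_6 (x7_5 (x7_4 (x5_7 (x5_6 (x5_4 (s4_6 (s3_6 (s2_5 (x1_6 (x1_5 (x1_0 (s1_4 (s0_7 (n2 (n1 p684_61))))))))))))))),
   x6_7 (x6_5 (x6_4 (s4_6 (x3_2 (x3_1 (x3_0 (s3_6 (x2_6 (x2_1 (x2_0 (s2_4 (s1_5 (s0_7 (n7 (n0 p691_61))))))))))))))),
   p683_53,
   p683_54,
   x7_6 (x7_5 (x7_4 (x5_7 (x5_6 (x5_4 (s4_6 (s3_6 (s2_5 (x1_6 (x1_5 (x1_0 (s1_4 (s0_7 (n2 p691_61))))))))))))))],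
  [x4_7 (x4_6 (x4_5 (s3_5 (s2_6 (s1_7 (x0_7 (x0_6 (x0_5 (s0_4 (n6 (n5 (n3 p679_62)))))))))))),
   x6_7 (x6_5 (x6_4 (s4_6 (x3_2 (x3_1 (x3_0 (s3_6 (x2_6 (x2_1 (x2_0 (s2_4 (s1_5 (s0_7 (n7 (n1 (n0 p688_61)))))))))))))))),
   x7_6 (x7_5 (x7_4 (x5_7 (x5_6 (x5_4 (s4_6 (s3_6 (s2_5 (x1_6 (x1_5 (x1_0 (s1_4 (s0_7 (n3 (n2 (n1 p688_61)))))))))))))))),
   p683_59,
   p683_60,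
   p683_61,
   x7_6 (x7_5 (x7_4 (s5_6 (x3_2 (x3_1 (x3_0 (s1_2 (n6 (n5 (n0 p683_61)))))))))),
   tr p693_7]]

theorem k683 : eqNN c683 (slO 64 (D.chG 208 7) 8) = true := by decide +kernel

end Pool.Agent.Lib.MP_afdd4d_co.K10.E6
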