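import Pool.Agent.Lib.MP_afdd4d_co.K10.E6.Dat
import Pool.Agent.Lib.MP_afdd4d_co.K10.E6.Mk
import Pool.Agent.Lib.MP_afdd4d_co.K8.F6Bl5
import Pool.Agent.Lib.MP_afdd4d_co.K10.E6.P0
import Pool.Agent.Lib.MP_afdd4d_co.K10.E6.P1
import Pool.Agent.Lib.MP_afdd4d_co.K10.E6.P2
import Pool.Agent.Lib.MP_afdd4d_co.K10.E6.P3
import Pool.Agent.Lib.MP_afdd4d_co.K10.E6.P4
import Pool.Agent.Lib.MP_afdd4d_co.K10.E6.P5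
import Pool.Agent.Lib.MP_afdd4d_co.K10.E6.P6
import Pool.Agent.Lib.MP_afdd4d_co.K10.E6.P7
import Pool.Agent.Lib.MP_afdd4d_co.K10.E6.P8
import Pool.Agent.Lib.MP_afdd4d_co.K10.E6.P9
import Pool.Agent.Lib.MP_afdd4d_co.K10.E6.P10
import Pool.Agent.Lib.MP_afdd4d_co.K10.E6.P11
import Pool.Agent.Lib.MP_afdd4d_co.K10.E6.P12
import Pool.Agent.Lib.MP_afdd4d_co.K10.E6.P13
import Pool.Agent.Lib.MP_afdd4d_co.K10.E6.P14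
import Pool.Agent.Lib.MP_afdd4d_co.K10.E6.P15
import Pool.Agent.Lib.MP_afdd4d_co.K10.E6.P16
import Pool.Agent.Lib.MP_afdd4d_co.K10.E6.P17
import Pool.Agent.Lib.MP_afdd4d_co.K10.E6.P18
import Pool.Agent.Lib.MP_afdd4d_co.K10.E6.P19
import Pool.Agent.Lib.MP_afdd4d_co.K10.E6.P20
import Pool.Agent.Lib.MP_afdd4d_co.K10.E6.P21
import Pool.Agent.Lib.MP_afdd4d_co.K10.E6.P22
import Pool.Agent.Lib.MP_afdd4d_co.K10.E6.P23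
import Pool.Agent.Lib.MP_afdd4d_co.K10.E6.P24
import Pool.Agent.Lib.MP_afdd4d_co.K10.E6.P25
import Pool.Agent.Lib.MP_afdd4d_co.K10.E6.P26
import Pool.Agent.Lib.MP_afdd4d_co.K10.E6.P27
import Pool.Agent.Lib.MP_afdd4d_co.K10.E6.P28
import Pool.Agent.Lib.MP_afdd4d_co.K10.E6.P29
import Pool.Agent.Lib.MP_afdd4d_co.K10.E6.P30
import Pool.Agent.Lib.MP_afdd4d_co.K10.E6.P31
import Pool.Agent.Lib.MP_afdd4d_co.K10.E6.P32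

/-!
# Tables
-/

namespace Pool.Agent.Lib.MP_afdd4d_co.K10.E6

open K8

set_option maxRecDepth 100000
set_option exponentiation.threshold 10000000

/-- The slices of the chunk 684. -/
noncomputable def c684 : List (List ℕ) := [
  [tr p678_10,
   p684_1,
   x7_6 (x7_5 (x7_4 (s5_6 (x3_2 (x3_1 (x3_0 (s1_2 (n4 p684_1)))))))),
   tr p680_10,
   tr p681_10,
   tr p682_10,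
   x7_6 (x7_5 (x7_4 (x3_2 (x3_1 (x3_0 (s3_7 (s2_5 (s1_6 (s0_4 (n0 p682_10)))))))))),
   tr p683_10],
  [s3_6 (s2_7 (s1_4 (s0_5 p681_20))),
   s3_6 (s2_7 (s1_4 (s0_5 p682_20))),
   p684_10,
   x7_6 (x7_5 (x7_4 (s5_6 (s4_7 (x3_2 (x3_1 (x3_0 (s3_6 (s2_4 (s1_7 (s0_5 p681_20))))))))))),
   p684_12,
   tr p686_10,
   p684_14,
   x7_6 (x7_5 (x7_4 (s5_6 (x3_2 (x3_1 (x3_0 (s1_2 p684_12)))))))],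
  [x6_7 (x6_5 (x6_4 (s4_6 (x3_2 (x3_1 (x3_0 (s3_6 (x2_6 (x2_1 (x2_0 (s2_4 (s1_5 (s0_7 (n7 (n5 (n1 p679_48)))))))))))))))),
   s3_6 (s2_7 (s1_4 (s0_5 p680_20))),
   p684_18,
   x7_6 (x7_5 (x7_4 (s5_6 (x3_2 (x3_1 (x3_0 (s1_2 (n6 (n4 p684_37))))))))),
   p684_20,
   p684_21,
   p684_22,
   tr p690_10],
  [p684_24,
   s3_6 (s2_7 (s1_4 (s0_5 p683_20))),
   s3_6 (s2_7 (s1_4 (s0_5 p689_20))),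
   s3_6 (s2_7 (s1_4 (s0_5 p690_20))),
   p684_28,
   x6_7 (x6_5 (x6_4 (s4_6 (x3_2 (x3_1 (x3_0 (s3_6 (x2_6 (x2_1 (x2_0 (s2_4 (s1_5 (s0_7 (n7 (n5 p685_48))))))))))))))),
   x7_6 (x7_5 (x7_4 (s5_6 (x3_2 (x3_1 (x3_0 (s1_2 (n6 p684_40)))))))),
   p684_31],
  [x7_6 (x7_5 (x7_4 (s5_6 (x3_2 (x3_1 (x3_0 (s1_2 (n5 (n4 p684_21))))))))),
   x7_6 (x7_5 (x7_4 (x3_2 (x3_1 (x3_0 (s3_7 (s2_5 (s1_6 (s0_4 (n1 (n0 p690_10))))))))))),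
   x7_6 (x7_5 (x7_4 (s5_6 (x3_2 (x3_1 (x3_0 (s1_2 (n5 (n4 p684_20))))))))),
   x7_6 (x7_5 (x7_4 (s5_6 (x3_2 (x3_1 (x3_0 (s1_2 (n5 (n4 p684_22))))))))),
   x7_6 (x7_5 (x7_4 (s5_6 (s4_7 (x3_2 (x3_1 (x3_0 (s3_6 (s2_4 (s1_7 (s0_5 (n1 (n0 p680_20))))))))))))),
   p684_37,
   x7_6 (x7_5 (x7_4 (x5_7 (x5_6 (x5_4 (s4_6 (s3_6 (s2_5 (x1_6 (x1_5 (x1_0 (s1_4 (s0_7 (n7 (n5 (n3 p679_48)))))))))))))))),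
   x7_6 (x7_5 (x7_4 (s5_6 (x3_2 (x3_1 (x3_0 (s1_2 (n5 (n4 p684_18)))))))))],
  [p684_40,
   x7_6 (x7_5 (x7_4 (s5_6 (x3_2 (x3_1 (x3_0 (s1_2 (n5 p684_28)))))))),
   x7_6 (x7_5 (x7_4 (s5_6 (x3_2 (x3_1 (x3_0 (s1_2 (n5 p684_31)))))))),
   x7_6 (x7_5 (x7_4 (x5_7 (x5_6 (x5_4 (s4_6 (s3_6 (s2_5 (x1_6 (x1_5 (x1_0 (s1_4 (s0_7 (n7 (n5 (n1 p685_48)))))))))))))))),
   x7_6 (x7_5 (x7_4 (s5_6 (s4_7 (x3_2 (x3_1 (x3_0 (s3_6 (s2_4 (s1_7 (s0_5 (n0 p689_20)))))))))))),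
   x7_6 (x7_5 (x7_4 (s5_6 (x3_2 (x3_1 (x3_0 (s1_2 (n5 p684_24)))))))),
   x7_6 (x7_5 (x7_4 (s5_6 (s4_7 (x3_2 (x3_1 (x3_0 (s3_6 (s2_4 (s1_7 (s0_5 (n0 p690_20)))))))))))),
   x7_6 (x7_5 (x7_4 (s5_6 (s4_7 (x3_2 (x3_1 (x3_0 (s3_6 (s2_4 (s1_7 (s0_5 (n0 p683_20))))))))))))],
  [p684_48,
   p684_49,
   tr p692_10,
   x7_6 (x7_5 (x7_4 (s5_6 (x3_2 (x3_1 (x3_0 (s1_2 (n6 (n5 (n4 p684_48)))))))))),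
   x6_7 (x6_5 (x6_4 (s4_6 (x3_2 (x3_1 (x3_0 (s3_6 (x2_6 (x2_1 (x2_0 (s2_4 (s1_5 (s0_7 (n7 (n5 (n0 p691_48)))))))))))))))),
   p684_53,
   p684_54,
   x7_6 (x7_5 (x7_4 (x5_7 (x5_6 (x5_4 (s4_6 (s3_6 (s2_5 (x1_6 (x1_5 (x1_0 (s1_4 (s0_7 (n7 (n5 (n2 p691_48))))))))))))))))],
  [x4_7 (x4_6 (x4_5 (s3_5 (s2_6 (s1_7 (x0_7 (x0_6 (x0_5 (s0_4 (n7 (n6 (n3 p679_51)))))))))))),
   x6_7 (x6_5 (x6_4 (s4_6 (x3_2 (x3_1 (x3_0 (s3_6 (x2_6 (x2_1 (x2_0 (s2_4 (s1_5 (s0_7 (n7 (n5 (n1 (n0 p688_48))))))))))))))))),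
   x7_6 (x7_5 (x7_4 (x5_7 (x5_6 (x5_4 (s4_6 (s3_6 (s2_5 (x1_6 (x1_5 (x1_0 (s1_4 (s0_7 (n7 (n5 (n3 (n2 (n1 p688_48)))))))))))))))))),
   p684_59,
   p684_60,
   p684_61,
   x7_6 (x7_5 (x7_4 (s5_6 (x3_2 (x3_1 (x3_0 (s1_2 (n6 (n5 p684_61))))))))),
   tr p693_10]]

theorem k684 : eqNN c684 (slO 64 (D.chG 208 10) 8) = true := by decide +kernel

/-- The slices of the chunk 685. -/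
noncomputable def c685 : List (List ℕ) := [
  [tr p678_12,
   tr p679_12,
   x7_6 (x7_5 (x7_4 (s5_6 (s4_7 (x3_2 (x3_1 (x3_0 (s3_6 (s2_4 (s1_7 (s0_5 (n1 p679_29)))))))))))),
   tr p680_12,
   tr p681_12,
   tr p682_12,
   s6_7 (s4_5 (s2_3 (s0_1 p685_24))),
   tr p683_12],
  [s3_6 (s2_7 (s1_4 (s0_5 p681_12))),
   s3_6 (s2_7 (s1_4 (s0_5 p682_12))),
   tr p684_12,
   s6_7 (s4_5 (s2_3 (s0_1 p685_21))),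
   p685_12,
   tr p686_12,
   tr p687_12,
   p685_15],
  [x6_7 (x6_5 (x6_4 (s4_6 (x3_2 (x3_1 (x3_0 (s3_6 (x2_6 (x2_1 (x2_0 (s2_4 (s1_5 (s0_7 (n1 p679_29)))))))))))))),
   s3_6 (s2_7 (s1_4 (s0_5 p680_12))),
   p685_18,
   p685_19,
   s3_6 (s2_7 (s1_4 (s0_5 p684_12))),
   p685_21,
   tr p689_12,
   tr p690_12],
  [p685_24,
   s3_6 (s2_7 (s1_4 (s0_5 p683_12))),
   s3_6 (s2_7 (s1_4 (s0_5 p689_12))),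
   s3_6 (s2_7 (s1_4 (s0_5 p690_12))),
   s3_6 (s2_7 (s1_4 (s0_5 p687_12))),
   s6_7 (s4_5 (s2_3 (s0_1 p685_15))),
   x4_7 (x4_6 (x4_5 (s3_5 (s2_6 (s1_7 (x0_7 (x0_6 (x0_5 (s0_4 (n7 (n3 (n2 p680_53)))))))))))),
   p685_31],
  [x4_7 (x4_6 (x4_5 (s3_5 (s2_6 (s1_7 (x0_7 (x0_6 (x0_5 (s0_4 (n7 (n3 (n1 p681_53)))))))))))),
   p685_33,
   s6_7 (s4_5 (s2_3 (s0_1 p685_48))),
   p685_35,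
   s6_7 (s4_5 (s2_3 (s0_1 p685_40))),
   p685_37,
   x7_6 (x7_5 (x7_4 (x5_7 (x5_6 (x5_4 (s4_6 (s3_6 (s2_5 (x1_6 (x1_5 (x1_0 (s1_4 (s0_7 (n7 (n3 p679_53))))))))))))))),
   s6_7 (s4_5 (s2_3 (s0_1 p685_57)))],
  [p685_40,
   s6_7 (s4_5 (s2_3 (s0_1 p685_37))),
   s6_7 (s4_5 (s2_3 (s0_1 p685_52))),
   p685_43,
   x7_6 (x7_5 (x7_4 (s5_6 (s4_7 (x3_2 (x3_1 (x3_0 (s3_6 (s2_4 (s1_7 (s0_5 (n0 p689_29)))))))))))),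
   x5_7 (x5_6 (x5_4 (s4_5 (s3_7 (x2_7 (x2_1 (x2_0 (s2_5 (x1_7 (x1_5 (x1_0 (s1_4 (s0_6 (n6 p682_43)))))))))))))),
   p685_46,
   s6_7 (s4_5 (s2_3 (s0_1 p685_61)))],
  [p685_48,
   s6_7 (s4_5 (s2_3 (s0_1 p685_35))),
   tr p692_12,
   x4_7 (x4_6 (x4_5 (s3_5 (s2_6 (s1_7 (x0_7 (x0_6 (x0_5 (s0_4 (n7 (n2 (n1 p684_53)))))))))))),
   p685_52,
   s6_7 (s4_5 (s2_3 (s0_1 p685_43))),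
   p685_54,
   s6_7 (s4_5 (s2_3 (s0_1 p685_59)))],
  [x4_7 (x4_6 (x4_5 (s3_5 (s2_6 (s1_7 (x0_7 (x0_6 (x0_5 (s0_4 (n7 (n3 p679_53))))))))))),
   p685_57,
   s6_7 (s4_5 (s2_3 (s0_1 p685_54))),
   p685_59,
   s6_7 (s4_5 (s2_3 (s0_1 p685_46))),
   p685_61,
   x4_7 (x4_6 (x4_5 (s3_5 (s2_6 (s1_7 (x0_7 (x0_6 (x0_5 (s0_4 (n7 (n3 (n2 p683_53)))))))))))),
   tr p693_12]]

theorem k685 : eqNN c685 (slO 64 (D.chG 208 12) 8) = true := by decide +kernel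

/-- The slices of the chunk 686. -/
noncomputable def c686 : List (List ℕ) := [
  [tr p678_13,
   p686_1,
   x7_6 (x7_5 (x7_4 (s5_6 (x3_2 (x3_1 (x3_0 (s1_2 (n4 p686_1)))))))),
   p686_3,
   p686_4,
   p686_5,
   x7_6 (x7_5 (x7_4 (s5_6 (x3_2 (x3_1 (x3_0 (s1_2 (n4 p686_5)))))))),
   p686_7],
  [s6_7 (s4_5 (s2_3 (s0_1 p686_4))),
   s6_7 (s4_5 (s2_3 (s0_1 p686_5))),
   p686_10,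
   x5_7 (x5_6 (x5_4 (s4_6 (x1_3 (x1_2 (x1_0 (s0_2 (n4 p686_4)))))))),
   p686_12,
   p686_13,
   p686_14,
   x7_6 (x7_5 (x7_4 (s5_6 (x3_2 (x3_1 (x3_0 (s1_2 p686_12)))))))],
  [x6_7 (x6_5 (x6_4 (s4_7 (x2_3 (x2_1 (x2_0 (s0_3 (n5 p686_1)))))))),
   s6_7 (s4_5 (s2_3 (s0_1 p686_3))),
   p686_18,
   s5_7 (x4_7 (x4_6 (x4_5 (s1_3 (x0_3 (x0_2 (x0_1 (n6 (n5 p686_14))))))))),
   s6_7 (s4_5 (s2_3 (s0_1 p686_10))),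
   x6_7 (x6_5 (x6_4 (s4_7 (x2_3 (x2_1 (x2_0 (s0_3 p686_4))))))),
   p686_22,
   p686_23],
  [s5_7 (x4_7 (x4_6 (x4_5 (s1_3 (x0_3 (x0_2 (x0_1 (n7 p686_5)))))))),
   s6_7 (s4_5 (s2_3 (s0_1 p686_7))),
   s6_7 (s4_5 (s2_3 (s0_1 p686_22))),
   s6_7 (s4_5 (s2_3 (s0_1 p686_23))),
   s6_7 (s4_5 (s2_3 (s0_1 p686_14))),
   x6_7 (x6_5 (x6_4 (s4_7 (x2_3 (x2_1 (x2_0 (s0_3 p686_12))))))),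
   s5_7 (x4_7 (x4_6 (x4_5 (s1_3 (x0_3 (x0_2 (x0_1 (n7 (n6 p686_3))))))))),
   p686_31],
  [s5_7 (x4_7 (x4_6 (x4_5 (s1_3 (x0_3 (x0_2 (x0_1 (n7 (n5 p686_4))))))))),
   x7_6 (x7_5 (x7_4 (s5_6 (x3_2 (x3_1 (x3_0 (s1_2 (n5 (n4 p686_23))))))))),
   x5_7 (x5_6 (x5_4 (s4_6 (x1_3 (x1_2 (x1_0 (s0_2 (n6 (n4 p686_10))))))))),
   x7_6 (x7_5 (x7_4 (s5_6 (x3_2 (x3_1 (x3_0 (s1_2 (n5 (n4 p686_22))))))))),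
   x5_7 (x5_6 (x5_4 (s4_6 (x1_3 (x1_2 (x1_0 (s0_2 (n6 p686_3)))))))),
   x6_7 (x6_5 (x6_4 (s4_7 (x2_3 (x2_1 (x2_0 (s0_3 (n4 p686_14)))))))),
   x5_7 (x5_6 (x5_4 (s4_6 (x1_3 (x1_2 (x1_0 (s0_2 (n6 p686_1)))))))),
   x7_6 (x7_5 (x7_4 (s5_6 (x3_2 (x3_1 (x3_0 (s1_2 (n5 (n4 p686_18)))))))))],
  [x6_7 (x6_5 (x6_4 (s4_7 (x2_3 (x2_1 (x2_0 (s0_3 (n5 (n4 p686_3))))))))),
   x5_7 (x5_6 (x5_4 (s4_6 (x1_3 (x1_2 (x1_0 (s0_2 (n4 p686_14)))))))),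
   x7_6 (x7_5 (x7_4 (s5_6 (x3_2 (x3_1 (x3_0 (s1_2 (n5 p686_31)))))))),
   x5_7 (x5_6 (x5_4 (s4_6 (x1_3 (x1_2 (x1_0 (s0_2 (n4 p686_12)))))))),
   x6_7 (x6_5 (x6_4 (s4_7 (x2_3 (x2_1 (x2_0 (s0_3 (n4 p686_22)))))))),
   x5_7 (x5_6 (x5_4 (s4_6 (x1_3 (x1_2 (x1_0 (s0_2 p686_5))))))),
   s5_7 (x4_7 (x4_6 (x4_5 (s1_3 (x0_3 (x0_2 (x0_1 (n7 (n6 p686_23))))))))),
   x5_7 (x5_6 (x5_4 (s4_6 (x1_3 (x1_2 (x1_0 (s0_2 p686_7)))))))],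
  [x6_7 (x6_5 (x6_4 (s4_7 (x2_3 (x2_1 (x2_0 (s0_3 (n5 (n4 p686_10))))))))),
   x5_7 (x5_6 (x5_4 (s4_6 (x1_3 (x1_2 (x1_0 (s0_2 (n7 (n4 p686_22))))))))),
   p686_50,
   s5_7 (x4_7 (x4_6 (x4_5 (s1_3 (x0_3 (x0_2 (x0_1 (n6 (n5 p686_10))))))))),
   x6_7 (x6_5 (x6_4 (s4_7 (x2_3 (x2_1 (x2_0 (s0_3 (n4 p686_31)))))))),
   s5_7 (x4_7 (x4_6 (x4_5 (s1_3 (x0_3 (x0_2 (x0_1 (n5 p686_12)))))))),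
   s5_7 (x4_7 (x4_6 (x4_5 (s1_3 (x0_3 (x0_2 (x0_1 (n7 (n6 (n5 p686_18)))))))))),
   x5_7 (x5_6 (x5_4 (s4_6 (x1_3 (x1_2 (x1_0 (s0_2 (n7 p686_31))))))))],
  [s5_7 (x4_7 (x4_6 (x4_5 (s1_3 (x0_3 (x0_2 (x0_1 (n7 p686_1)))))))),
   x6_7 (x6_5 (x6_4 (s4_7 (x2_3 (x2_1 (x2_0 (s0_3 (n5 (n4 p686_18))))))))),
   x5_7 (x5_6 (x5_4 (s4_6 (x1_3 (x1_2 (x1_0 (s0_2 (n7 (n6 (n4 p686_18)))))))))),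
   s5_7 (x4_7 (x4_6 (x4_5 (s1_3 (x0_3 (x0_2 (x0_1 (n6 p686_31)))))))),
   x6_7 (x6_5 (x6_4 (s4_7 (x2_3 (x2_1 (x2_0 (s0_3 (n4 p686_23)))))))),
   x6_7 (x6_5 (x6_4 (s4_7 (x2_3 (x2_1 (x2_0 (s0_3 (n4 p686_7)))))))),
   s5_7 (x4_7 (x4_6 (x4_5 (s1_3 (x0_3 (x0_2 (x0_1 (n7 (n6 p686_7))))))))),
   p686_63]]

theorem k686 : eqNN c686 (slO 64 (D.chG 208 13) 8) = true := by decide +kernel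

/-- The slices of the chunk 687. -/
noncomputable def c687 : List (List ℕ) := [
  [tr p678_14,
   p687_1,
   x7_6 (x7_5 (x7_4 (s5_6 (x3_2 (x3_1 (x3_0 (s1_2 (n4 p687_1)))))))),
   tr p680_14,
   tr p681_14,
   tr p682_14,
   x7_6 (x7_5 (x7_4 (x3_2 (x3_1 (x3_0 (s3_7 (s2_5 (s1_6 (s0_4 (n0 p682_14)))))))))),
   tr p683_14],
  [s3_6 (s2_7 (s1_4 (s0_5 p681_28))),
   s3_6 (s2_7 (s1_4 (s0_5 p682_28))),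
   tr p684_14,
   x7_6 (x7_5 (x7_4 (s5_6 (s4_7 (x3_2 (x3_1 (x3_0 (s3_6 (s2_4 (s1_7 (s0_5 p681_28))))))))))),
   p687_12,
   tr p686_14,
   p687_14,
   x7_6 (x7_5 (x7_4 (s5_6 (x3_2 (x3_1 (x3_0 (s1_2 p687_12)))))))],
  [x6_7 (x6_5 (x6_4 (s4_6 (x3_2 (x3_1 (x3_0 (s3_6 (x2_6 (x2_1 (x2_0 (s2_4 (s1_5 (s0_7 (n7 (n1 p679_37))))))))))))))),
   s3_6 (s2_7 (s1_4 (s0_5 p680_28))),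
   p687_18,
   p687_19,
   s3_6 (s2_7 (s1_4 (s0_5 p684_28))),
   p687_21,
   p687_22,
   tr p690_14],
  [p687_24,
   s3_6 (s2_7 (s1_4 (s0_5 p683_28))),
   s3_6 (s2_7 (s1_4 (s0_5 p689_28))),
   s3_6 (s2_7 (s1_4 (s0_5 p690_28))),
   p687_28,
   x6_7 (x6_5 (x6_4 (s4_6 (x3_2 (x3_1 (x3_0 (s3_6 (x2_6 (x2_1 (x2_0 (s2_4 (s1_5 (s0_7 (n7 p685_37)))))))))))))),
   x7_6 (x7_5 (x7_4 (s5_6 (x3_2 (x3_1 (x3_0 (s1_2 (n6 p687_40)))))))),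
   p687_31],
  [x7_6 (x7_5 (x7_4 (s5_6 (x3_2 (x3_1 (x3_0 (s1_2 (n5 (n4 p687_21))))))))),
   x7_6 (x7_5 (x7_4 (x3_2 (x3_1 (x3_0 (s3_7 (s2_5 (s1_6 (s0_4 (n1 (n0 p690_14))))))))))),
   x7_6 (x7_5 (x7_4 (s5_6 (s4_7 (x3_2 (x3_1 (x3_0 (s3_6 (s2_4 (s1_7 (s0_5 (n1 (n0 p684_28))))))))))))),
   x7_6 (x7_5 (x7_4 (s5_6 (x3_2 (x3_1 (x3_0 (s1_2 (n5 (n4 p687_22))))))))),
   x7_6 (x7_5 (x7_4 (s5_6 (s4_7 (x3_2 (x3_1 (x3_0 (s3_6 (s2_4 (s1_7 (s0_5 (n1 (n0 p680_28))))))))))))),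
   x7_6 (x7_5 (x7_4 (s5_6 (x3_2 (x3_1 (x3_0 (s1_2 (n5 (n4 p687_19))))))))),
   x7_6 (x7_5 (x7_4 (x5_7 (x5_6 (x5_4 (s4_6 (s3_6 (s2_5 (x1_6 (x1_5 (x1_0 (s1_4 (s0_7 (n7 (n3 p679_37))))))))))))))),
   x7_6 (x7_5 (x7_4 (s5_6 (x3_2 (x3_1 (x3_0 (s1_2 (n5 (n4 p687_18)))))))))],
  [p687_40,
   x7_6 (x7_5 (x7_4 (s5_6 (x3_2 (x3_1 (x3_0 (s1_2 (n5 p687_28)))))))),
   x7_6 (x7_5 (x7_4 (s5_6 (x3_2 (x3_1 (x3_0 (s1_2 (n5 p687_31)))))))),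
   x7_6 (x7_5 (x7_4 (x5_7 (x5_6 (x5_4 (s4_6 (s3_6 (s2_5 (x1_6 (x1_5 (x1_0 (s1_4 (s0_7 (n7 (n1 p685_37))))))))))))))),
   x7_6 (x7_5 (x7_4 (s5_6 (s4_7 (x3_2 (x3_1 (x3_0 (s3_6 (s2_4 (s1_7 (s0_5 (n0 p689_28)))))))))))),
   x7_6 (x7_5 (x7_4 (s5_6 (x3_2 (x3_1 (x3_0 (s1_2 (n5 p687_24)))))))),
   x7_6 (x7_5 (x7_4 (s5_6 (s4_7 (x3_2 (x3_1 (x3_0 (s3_6 (s2_4 (s1_7 (s0_5 (n0 p690_28)))))))))))),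
   x7_6 (x7_5 (x7_4 (s5_6 (s4_7 (x3_2 (x3_1 (x3_0 (s3_6 (s2_4 (s1_7 (s0_5 (n0 p683_28))))))))))))],
  [x6_7 (x6_5 (x6_4 (s4_6 (x3_2 (x3_1 (x3_0 (s3_6 (x2_6 (x2_1 (x2_0 (s2_4 (s1_5 (s0_7 (n7 (n1 (n0 p684_37)))))))))))))))),
   p687_49,
   tr p692_14,
   x7_6 (x7_5 (x7_4 (x5_7 (x5_6 (x5_4 (s4_6 (s3_6 (s2_5 (x1_6 (x1_5 (x1_0 (s1_4 (s0_7 (n7 (n2 (n1 p684_37)))))))))))))))),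
   x6_7 (x6_5 (x6_4 (s4_6 (x3_2 (x3_1 (x3_0 (s3_6 (x2_6 (x2_1 (x2_0 (s2_4 (s1_5 (s0_7 (n7 (n0 p691_37))))))))))))))),
   x4_7 (x4_6 (x4_5 (s3_5 (s2_6 (s1_7 (x0_7 (x0_6 (x0_5 (s0_4 (n7 (n6 (n1 p685_19)))))))))))),
   p687_54,
   x7_6 (x7_5 (x7_4 (x5_7 (x5_6 (x5_4 (s4_6 (s3_6 (s2_5 (x1_6 (x1_5 (x1_0 (s1_4 (s0_7 (n7 (n2 p691_37)))))))))))))))],
  [x4_7 (x4_6 (x4_5 (s3_5 (s2_6 (s1_7 (x0_7 (x0_6 (x0_5 (s0_4 (n7 (n6 (n3 p679_19)))))))))))),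
   x6_7 (x6_5 (x6_4 (s4_6 (x3_2 (x3_1 (x3_0 (s3_6 (x2_6 (x2_1 (x2_0 (s2_4 (s1_5 (s0_7 (n7 (n1 (n0 p688_37)))))))))))))))),
   x7_6 (x7_5 (x7_4 (x5_7 (x5_6 (x5_4 (s4_6 (s3_6 (s2_5 (x1_6 (x1_5 (x1_0 (s1_4 (s0_7 (n7 (n3 (n2 (n1 p688_37))))))))))))))))),
   p687_59,
   p687_60,
   p687_61,
   x7_6 (x7_5 (x7_4 (s5_6 (x3_2 (x3_1 (x3_0 (s1_2 (n6 (n5 p687_61))))))))),
   tr p693_14]]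

theorem k687 : eqNN c687 (slO 64 (D.chG 208 14) 8) = true := by decide +kernel

end Pool.Agent.Lib.MP_afdd4d_co.K10.E6
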