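import Pool.Agent.Lib.MP_afdd4d_co.K10.E6.Dat
import Pool.Agent.Lib.MP_afdd4d_co.K10.E6.Mk
import Pool.Agent.Lib.MP_afdd4d_co.K8.F6Bl5
import Pool.Agent.Lib.MP_afdd4d_co.K10.E6.P0
import Pool.Agent.Lib.MP_afdd4d_co.K10.E6.P1
import Pool.Agent.Lib.MP_afdd4d_co.K10.E6.P2
import Pool.Agent.Lib.MP_afdd4d_co.K10.E6.P3
import Pool.Agent.Lib.MP_afdd4d_co.K10.E6.P4
import Pool.Agent.Lib.MP_afdd4d_co.K10.E6.P5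
import Pool.Agent.Lib.MP_afdd4d_co.K10.E6.P6
import Pool.Agent.Lib.MP_afdd4d_co.K10.E6.P7
import Pool.Agent.Lib.MP_afdd4d_co.K10.E6.P8
import Pool.Agent.Lib.MP_afdd4d_co.K10.E6.P9
import Pool.Agent.Lib.MP_afdd4d_co.K10.E6.P10
import Pool.Agent.Lib.MP_afdd4d_co.K10.E6.P11
import Pool.Agent.Lib.MP_afdd4d_co.K10.E6.P12
import Pool.Agent.Lib.MP_afdd4d_co.K10.E6.P13
import Pool.Agent.Lib.MP_afdd4d_co.K10.E6.P14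
import Pool.Agent.Lib.MP_afdd4d_co.K10.E6.P15
import Pool.Agent.Lib.MP_afdd4d_co.K10.E6.P16
import Pool.Agent.Lib.MP_afdd4d_co.K10.E6.P17
import Pool.Agent.Lib.MP_afdd4d_co.K10.E6.P18
import Pool.Agent.Lib.MP_afdd4d_co.K10.E6.P19
import Pool.Agent.Lib.MP_afdd4d_co.K10.E6.P20
import Pool.Agent.Lib.MP_afdd4d_co.K10.E6.P21
import Pool.Agent.Lib.MP_afdd4d_co.K10.E6.P22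
import Pool.Agent.Lib.MP_afdd4d_co.K10.E6.P23
import Pool.Agent.Lib.MP_afdd4d_co.K10.E6.P24
import Pool.Agent.Lib.MP_afdd4d_co.K10.E6.P25
import Pool.Agent.Lib.MP_afdd4d_co.K10.E6.P26
import Pool.Agent.Lib.MP_afdd4d_co.K10.E6.P27
import Pool.Agent.Lib.MP_afdd4d_co.K10.E6.P28
import Pool.Agent.Lib.MP_afdd4d_co.K10.E6.P29
import Pool.Agent.Lib.MP_afdd4d_co.K10.E6.P30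
import Pool.Agent.Lib.MP_afdd4d_co.K10.E6.P31
import Pool.Agent.Lib.MP_afdd4d_co.K10.E6.P32

/-!
# Tables
-/

namespace Pool.Agent.Lib.MP_afdd4d_co.K10.E6

open K8

set_option maxRecDepth 100000
set_option exponentiation.threshold 10000000

/-- The slices of the chunk 688. -/
noncomputable def c688 : List (List ℕ) := [
  [x7_6 (x7_5 (x7_4 (x3_2 (x3_1 (x3_0 (s3_7 (s2_5 (s1_6 (s0_4 (n6 (n4 (n0 p678_39)))))))))))),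
   tr p679_18,
   x7_6 (x7_5 (x7_4 (s5_6 (s4_7 (x3_2 (x3_1 (x3_0 (s3_6 (s2_4 (s1_7 (s0_5 (n7 (n5 (n1 p679_57)))))))))))))),
   tr p680_18,
   tr p681_18,
   tr p682_18,
   s6_7 (s4_5 (s2_3 (s0_1 p688_24))),
   tr p683_18],
  [s3_6 (s2_7 (s1_4 (s0_5 p681_18))),
   s3_6 (s2_7 (s1_4 (s0_5 p682_18))),
   tr p684_18,
   s6_7 (s4_5 (s2_3 (s0_1 p688_21))),
   tr p685_18,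
   tr p686_18,
   tr p687_18,
   x7_6 (x7_5 (x7_4 (s5_6 (s4_7 (x3_2 (x3_1 (x3_0 (s3_6 (s2_4 (s1_7 (s0_5 (n7 (n5 p685_57)))))))))))))],
  [x6_7 (x6_5 (x6_4 (s4_6 (x3_2 (x3_1 (x3_0 (s3_6 (x2_6 (x2_1 (x2_0 (s2_4 (s1_5 (s0_7 (n7 (n5 (n1 p679_57)))))))))))))))),
   s3_6 (s2_7 (s1_4 (s0_5 p680_18))),
   p688_18,
   x4_7 (x4_6 (x4_5 (s3_5 (s2_6 (s1_7 (x0_7 (x0_6 (x0_5 (s0_4 (n7 (n6 (n5 (n2 (n1 p687_54)))))))))))))),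
   s3_6 (s2_7 (s1_4 (s0_5 p684_18))),
   p688_21,
   tr p689_18,
   tr p690_18],
  [p688_24,
   s3_6 (s2_7 (s1_4 (s0_5 p683_18))),
   s3_6 (s2_7 (s1_4 (s0_5 p689_18))),
   s3_6 (s2_7 (s1_4 (s0_5 p690_18))),
   s3_6 (s2_7 (s1_4 (s0_5 p687_18))),
   x6_7 (x6_5 (x6_4 (s4_6 (x3_2 (x3_1 (x3_0 (s3_6 (x2_6 (x2_1 (x2_0 (s2_4 (s1_5 (s0_7 (n7 (n5 p685_57))))))))))))))),
   x4_7 (x4_6 (x4_5 (s3_5 (s2_6 (s1_7 (x0_7 (x0_6 (x0_5 (s0_4 (n7 (n6 (n5 (n3 (n2 p680_54)))))))))))))),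
   p688_31],
  [x4_7 (x4_6 (x4_5 (s3_5 (s2_6 (s1_7 (x0_7 (x0_6 (x0_5 (s0_4 (n7 (n6 (n5 (n3 (n1 p681_54)))))))))))))),
   p688_33,
   s6_7 (s4_5 (s2_3 (s0_1 p688_48))),
   p688_35,
   s6_7 (s4_5 (s2_3 (s0_1 p688_40))),
   p688_37,
   x7_6 (x7_5 (x7_4 (x5_7 (x5_6 (x5_4 (s4_6 (s3_6 (s2_5 (x1_6 (x1_5 (x1_0 (s1_4 (s0_7 (n7 (n6 (n5 (n3 p679_54))))))))))))))))),
   p688_39],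
  [p688_40,
   s6_7 (s4_5 (s2_3 (s0_1 p688_37))),
   s6_7 (s4_5 (s2_3 (s0_1 p688_52))),
   x7_6 (x7_5 (x7_4 (x5_7 (x5_6 (x5_4 (s4_6 (s3_6 (s2_5 (x1_6 (x1_5 (x1_0 (s1_4 (s0_7 (n7 (n6 (n5 (n1 p685_54))))))))))))))))),
   x7_6 (x7_5 (x7_4 (s5_6 (s4_7 (x3_2 (x3_1 (x3_0 (s3_6 (s2_4 (s1_7 (s0_5 (n7 (n5 (n0 p689_57)))))))))))))),
   x5_7 (x5_6 (x5_4 (s4_5 (s3_7 (x2_7 (x2_1 (x2_0 (s2_5 (x1_7 (x1_5 (x1_0 (s1_4 (s0_6 (n7 (n6 (n4 p682_58)))))))))))))))),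
   p688_46,
   s6_7 (s4_5 (s2_3 (s0_1 p688_61)))],
  [p688_48,
   s6_7 (s4_5 (s2_3 (s0_1 p688_35))),
   tr p692_18,
   x4_7 (x4_6 (x4_5 (s3_5 (s2_6 (s1_7 (x0_7 (x0_6 (x0_5 (s0_4 (n7 (n6 (n5 (n2 (n1 p684_54)))))))))))))),
   p688_52,
   x4_7 (x4_6 (x4_5 (s3_5 (s2_6 (s1_7 (x0_7 (x0_6 (x0_5 (s0_4 (n7 (n6 (n5 (n1 p685_54))))))))))))),
   p688_54,
   s6_7 (s4_5 (s2_3 (s0_1 p688_59)))],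
  [x4_7 (x4_6 (x4_5 (s3_5 (s2_6 (s1_7 (x0_7 (x0_6 (x0_5 (s0_4 (n7 (n6 (n5 (n3 p679_54))))))))))))),
   s6_7 (s4_5 (s2_3 (s0_1 p688_39))),
   s6_7 (s4_5 (s2_3 (s0_1 p688_54))),
   p688_59,
   s6_7 (s4_5 (s2_3 (s0_1 p688_46))),
   p688_61,
   x4_7 (x4_6 (x4_5 (s3_5 (s2_6 (s1_7 (x0_7 (x0_6 (x0_5 (s0_4 (n7 (n6 (n5 (n3 (n2 p683_54)))))))))))))),
   tr p693_18]]

theorem k688 : eqNN c688 (slO 64 (D.chG 208 18) 8) = true := by decide +kernel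

/-- The slices of the chunk 689. -/
noncomputable def c689 : List (List ℕ) := [
  [tr p678_22,
   p689_1,
   x7_6 (x7_5 (x7_4 (x3_2 (x3_1 (x3_0 (s3_7 (s2_5 (s1_6 (s0_4 (n6 (n4 (n0 p679_35)))))))))))),
   tr p680_22,
   tr p681_22,
   tr p682_22,
   x7_6 (x7_5 (x7_4 (x3_2 (x3_1 (x3_0 (s3_7 (s2_5 (s1_6 (s0_4 (n6 (n4 (n0 p682_35)))))))))))),
   tr p683_22],
  [p689_8,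
   s3_6 (s2_7 (s1_4 (s0_5 p682_26))),
   tr p684_22,
   x7_6 (x7_5 (x7_4 (s5_6 (s4_7 (x3_2 (x3_1 (x3_0 (s3_6 (s2_4 (s1_7 (s0_5 (n7 (n5 p681_49))))))))))))),
   p689_12,
   tr p686_22,
   tr p687_22,
   x7_6 (x7_5 (x7_4 (x3_2 (x3_1 (x3_0 (s3_7 (s2_5 (s1_6 (s0_4 (n6 (n4 p685_35)))))))))))],
  [p689_16,
   p689_17,
   p689_18,
   x4_7 (x4_6 (x4_5 (s3_5 (s2_6 (s1_7 (x0_7 (x0_6 (x0_5 (s0_4 (n7 (n6 (n5 (n2 (n1 p687_22)))))))))))))),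
   p689_20,
   s5_7 (x4_7 (x4_6 (x4_5 (s1_3 (x0_3 (x0_2 (x0_1 (n5 (n3 (n2 (n1 p689_8))))))))))),
   p689_22,
   tr p690_22],
  [x4_7 (x4_6 (x4_5 (s3_5 (s2_6 (s1_7 (x0_7 (x0_6 (x0_5 (s0_4 (n7 (n6 (n5 (n3 p682_22))))))))))))),
   p689_25,
   p689_26,
   p689_27,
   p689_28,
   p689_29,
   x4_7 (x4_6 (x4_5 (s3_5 (s2_6 (s1_7 (x0_7 (x0_6 (x0_5 (s0_4 (n7 (n6 (n5 (n3 (n2 p680_22)))))))))))))),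
   p689_31],
  [x4_7 (x4_6 (x4_5 (s3_5 (s2_6 (s1_7 (x0_7 (x0_6 (x0_5 (s0_4 (n7 (n6 (n5 (n3 (n1 p681_22)))))))))))))),
   p689_33,
   x7_6 (x7_5 (x7_4 (s5_6 (s4_7 (x3_2 (x3_1 (x3_0 (s3_6 (s2_4 (s1_7 (s0_5 (n7 (n5 (n1 (n0 p684_49))))))))))))))),
   s5_7 (x4_7 (x4_6 (x4_5 (s1_3 (x0_3 (x0_2 (x0_1 (n6 (n5 (n3 (n2 (n1 p689_26)))))))))))),
   x7_6 (x7_5 (x7_4 (s5_6 (s4_7 (x3_2 (x3_1 (x3_0 (s3_6 (s2_4 (s1_7 (s0_5 (n7 (n5 (n1 (n0 p680_49))))))))))))))),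
   s5_7 (x4_7 (x4_6 (x4_5 (s1_3 (x0_3 (x0_2 (x0_1 (n5 (n3 (n2 (n1 p689_28))))))))))),
   x7_6 (x7_5 (x7_4 (x5_7 (x5_6 (x5_4 (s4_6 (s3_6 (s2_5 (x1_6 (x1_5 (x1_0 (s1_4 (s0_7 (n7 (n6 (n3 p679_35)))))))))))))))),
   x7_6 (x7_5 (x7_4 (x3_2 (x3_1 (x3_0 (s3_7 (s2_5 (s1_6 (s0_4 (n6 (n4 (n1 (n0 p688_35)))))))))))))],
  [s5_7 (x4_7 (x4_6 (x4_5 (s1_3 (x0_3 (x0_2 (x0_1 (n7 (n3 (n2 (n1 p689_17))))))))))),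
   x7_6 (x7_5 (x7_4 (s5_6 (s4_7 (x3_2 (x3_1 (x3_0 (s3_6 (s2_4 (s1_7 (s0_5 (n7 (n5 (n0 p687_49)))))))))))))),
   x7_6 (x7_5 (x7_4 (x3_2 (x3_1 (x3_0 (s3_7 (s2_5 (s1_6 (s0_4 (n6 (n4 (n1 p691_35)))))))))))),
   x7_6 (x7_5 (x7_4 (x5_7 (x5_6 (x5_4 (s4_6 (s3_6 (s2_5 (x1_6 (x1_5 (x1_0 (s1_4 (s0_7 (n7 (n6 (n1 p685_35)))))))))))))))),
   p689_44,
   x7_6 (x7_5 (x7_4 (s6_7 (s5_7 (x4_7 (x4_6 (x4_5 (x3_2 (x3_1 (x3_0 (s3_5 (s2_7 (s1_6 (x0_7 (x0_6 (x0_5 (s0_4 (n7 (n6 (n4 p682_26)))))))))))))))))))),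
   x4_7 (x4_6 (x4_5 (s3_5 (s2_6 (s1_7 (x0_7 (x0_6 (x0_5 (s0_4 (n7 (n6 (n5 (n3 (n2 p690_22)))))))))))))),
   x7_6 (x7_5 (x7_4 (s5_6 (s4_7 (x3_2 (x3_1 (x3_0 (s3_6 (s2_4 (s1_7 (s0_5 (n7 (n5 (n0 p683_49))))))))))))))],
  [s5_7 (x4_7 (x4_6 (x4_5 (s1_3 (x0_3 (x0_2 (x0_1 (n7 (n5 (n3 (n2 (n1 p689_20)))))))))))),
   s5_7 (x4_7 (x4_6 (x4_5 (s1_3 (x0_3 (x0_2 (x0_1 (n5 (n3 (n2 (n1 p689_44))))))))))),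
   tr p692_22,
   x4_7 (x4_6 (x4_5 (s3_5 (s2_6 (s1_7 (x0_7 (x0_6 (x0_5 (s0_4 (n7 (n6 (n5 (n2 (n1 p684_22)))))))))))))),
   p689_52,
   s5_7 (x4_7 (x4_6 (x4_5 (s1_3 (x0_3 (x0_2 (x0_1 (n5 (n3 (n2 (n1 p689_12))))))))))),
   s5_7 (x4_7 (x4_6 (x4_5 (s1_3 (x0_3 (x0_2 (x0_1 (n7 (n6 (n5 (n3 (n2 (n1 p689_18))))))))))))),
   x7_6 (x7_5 (x7_4 (x5_7 (x5_6 (x5_4 (s4_6 (s3_6 (s2_5 (x1_6 (x1_5 (x1_0 (s1_4 (s0_7 (n7 (n6 (n2 p691_35))))))))))))))))],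
  [s5_7 (x4_7 (x4_6 (x4_5 (s1_3 (x0_3 (x0_2 (x0_1 (n7 (n3 (n2 (n1 p689_1))))))))))),
   p689_57,
   x7_6 (x7_5 (x7_4 (x5_7 (x5_6 (x5_4 (s4_6 (s3_6 (s2_5 (x1_6 (x1_5 (x1_0 (s1_4 (s0_7 (n7 (n6 (n3 (n2 (n1 p688_35)))))))))))))))))),
   s5_7 (x4_7 (x4_6 (x4_5 (s1_3 (x0_3 (x0_2 (x0_1 (n6 (n3 (n2 (n1 p689_31))))))))))),
   s5_7 (x4_7 (x4_6 (x4_5 (s1_3 (x0_3 (x0_2 (x0_1 (n7 (n3 (n2 (n1 p689_33))))))))))),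
   s5_7 (x4_7 (x4_6 (x4_5 (s1_3 (x0_3 (x0_2 (x0_1 (n3 (n2 (n1 p689_25)))))))))),
   x4_7 (x4_6 (x4_5 (s3_5 (s2_6 (s1_7 (x0_7 (x0_6 (x0_5 (s0_4 (n7 (n6 (n5 (n3 (n2 p683_22)))))))))))))),
   tr p693_22]]

theorem k689 : eqNN c689 (slO 64 (D.chG 208 22) 8) = true := by decide +kernel

/-- The slices of the chunk 690. -/
noncomputable def c690 : List (List ℕ) := [
  [tr p678_23,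
   p690_1,
   x7_6 (x7_5 (x7_4 (x3_2 (x3_1 (x3_0 (s3_7 (s2_5 (s1_6 (s0_4 (n6 (n4 (n0 p679_33)))))))))))),
   p690_3,
   p690_4,
   tr p682_23,
   x7_6 (x7_5 (x7_4 (x5_7 (x5_6 (x5_4 (s4_6 (s3_6 (s2_5 (x1_6 (x1_5 (x1_0 (s1_4 (s0_7 (n6 (n3 p682_27))))))))))))))),
   p690_7],
  [p690_8,
   s3_6 (s2_7 (s1_4 (s0_5 p682_27))),
   p690_10,
   x5_7 (x5_6 (x5_4 (s4_6 (x1_3 (x1_2 (x1_0 (s0_2 (n4 (n3 p690_4))))))))),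
   p690_12,
   tr p686_23,
   p690_14,
   x7_6 (x7_5 (x7_4 (x3_2 (x3_1 (x3_0 (s3_7 (s2_5 (s1_6 (s0_4 (n6 (n4 p685_33)))))))))))],
  [x7_6 (x7_5 (x7_4 (x6_7 (x6_5 (x6_4 (s5_6 (s4_5 (x3_2 (x3_1 (x3_0 (s3_7 (x2_7 (x2_1 (x2_0 (s2_5 (s1_4 (s0_6 (n6 (n0 p679_46))))))))))))))))))),
   p690_17,
   p690_18,
   x5_7 (x5_6 (x5_4 (s4_6 (x1_3 (x1_2 (x1_0 (s0_2 (n7 (n4 (n3 p690_28)))))))))),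
   p690_20,
   x6_7 (x6_5 (x6_4 (s4_6 (x3_2 (x3_1 (x3_0 (s3_6 (x2_6 (x2_1 (x2_0 (s2_4 (s1_5 (s0_7 (n7 p681_60)))))))))))))),
   p690_22,
   p690_23],
  [x4_7 (x4_6 (x4_5 (s3_5 (s2_6 (s1_7 (x0_7 (x0_6 (x0_5 (s0_4 (n6 (n5 (n3 p682_46)))))))))))),
   p690_25,
   s3_6 (s2_7 (s1_4 (s0_5 p689_27))),
   p690_27,
   p690_28,
   x7_6 (x7_5 (x7_4 (x6_7 (x6_5 (x6_4 (s5_6 (s4_5 (x3_2 (x3_1 (x3_0 (s3_7 (x2_7 (x2_1 (x2_0 (s2_5 (s1_4 (s0_6 (n6 p685_46)))))))))))))))))),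
   x5_7 (x5_6 (x5_4 (s4_6 (x1_3 (x1_2 (x1_0 (s0_2 (n7 (n6 (n3 p690_17)))))))))),
   p690_31],
  [x5_7 (x5_6 (x5_4 (s4_6 (x1_3 (x1_2 (x1_0 (s0_2 (n6 (n4 (n3 p690_8)))))))))),
   p690_33,
   x5_7 (x5_6 (x5_4 (s4_6 (x1_3 (x1_2 (x1_0 (s0_2 (n6 (n4 (n3 p690_10)))))))))),
   x7_6 (x7_5 (x7_4 (x3_2 (x3_1 (x3_0 (s3_7 (s2_5 (s1_6 (s0_4 (n6 (n4 (n1 (n0 p689_33))))))))))))),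
   x5_7 (x5_6 (x5_4 (s4_6 (x1_3 (x1_2 (x1_0 (s0_2 (n6 (n3 p690_3))))))))),
   x6_7 (x6_5 (x6_4 (s4_6 (x3_2 (x3_1 (x3_0 (s3_6 (x2_6 (x2_1 (x2_0 (s2_4 (s1_5 (s0_7 (n7 (n0 p687_60))))))))))))))),
   x5_7 (x5_6 (x5_4 (s4_6 (x1_3 (x1_2 (x1_0 (s0_2 (n6 (n3 p690_1))))))))),
   x7_6 (x7_5 (x7_4 (x3_2 (x3_1 (x3_0 (s3_7 (s2_5 (s1_6 (s0_4 (n6 (n4 (n1 (n0 p688_33)))))))))))))],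
  [x6_7 (x6_5 (x6_4 (s4_6 (x3_2 (x3_1 (x3_0 (s3_6 (x2_6 (x2_1 (x2_0 (s2_4 (s1_5 (s0_7 (n7 (n1 (n0 p680_60)))))))))))))))),
   x5_7 (x5_6 (x5_4 (s4_6 (x1_3 (x1_2 (x1_0 (s0_2 (n4 (n3 p690_14))))))))),
   p690_42,
   x5_7 (x5_6 (x5_4 (s4_6 (x1_3 (x1_2 (x1_0 (s0_2 (n4 (n3 p690_12))))))))),
   x7_6 (x7_5 (x7_4 (s5_6 (s4_7 (x3_2 (x3_1 (x3_0 (s3_6 (s2_4 (s1_7 (s0_5 (n7 (n5 (n0 p689_33)))))))))))))),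
   x5_7 (x5_6 (x5_4 (s4_5 (s3_7 (x2_7 (x2_1 (x2_0 (s2_5 (x1_7 (x1_5 (x1_0 (s1_4 (s0_6 (n7 p682_23)))))))))))))),
   x5_7 (x5_6 (x5_4 (s4_6 (x1_3 (x1_2 (x1_0 (s0_2 (n6 (n3 p690_33))))))))),
   x5_7 (x5_6 (x5_4 (s4_6 (x1_3 (x1_2 (x1_0 (s0_2 (n3 p690_7))))))))],
  [x6_7 (x6_5 (x6_4 (s4_6 (x3_2 (x3_1 (x3_0 (s3_6 (x2_6 (x2_1 (x2_0 (s2_4 (s1_5 (s0_7 (n7 (n1 (n0 p684_60)))))))))))))))),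
   x5_7 (x5_6 (x5_4 (s4_6 (x1_3 (x1_2 (x1_0 (s0_2 (n7 (n4 (n3 p690_22)))))))))),
   tr p692_23,
   x5_7 (x5_6 (x5_4 (s4_6 (x1_3 (x1_2 (x1_0 (s0_2 (n7 (n4 (n3 p690_20)))))))))),
   x7_6 (x7_5 (x7_4 (x6_7 (x6_5 (x6_4 (s5_6 (s4_5 (x3_2 (x3_1 (x3_0 (s3_7 (x2_7 (x2_1 (x2_0 (s2_5 (s1_4 (s0_6 (n6 (n1 p691_46))))))))))))))))))),
   x4_7 (x4_6 (x4_5 (s3_5 (s2_6 (s1_7 (x0_7 (x0_6 (x0_5 (s0_4 (n6 (n5 (n1 p685_46)))))))))))),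
   x4_7 (x4_6 (x4_5 (s3_5 (s2_6 (s1_7 (x0_7 (x0_6 (x0_5 (s0_4 (n6 (n5 (n3 (n2 (n1 p688_46)))))))))))))),
   x5_7 (x5_6 (x5_4 (s4_6 (x1_3 (x1_2 (x1_0 (s0_2 (n7 (n3 p690_31)))))))))],
  [x4_7 (x4_6 (x4_5 (s3_5 (s2_6 (s1_7 (x0_7 (x0_6 (x0_5 (s0_4 (n6 (n5 (n3 p679_46)))))))))))),
   x7_6 (x7_5 (x7_4 (x6_7 (x6_5 (x6_4 (s5_6 (s4_5 (x3_2 (x3_1 (x3_0 (s3_7 (x2_7 (x2_1 (x2_0 (s2_5 (s1_4 (s0_6 (n6 (n1 (n0 p688_46)))))))))))))))))))),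
   x5_7 (x5_6 (x5_4 (s4_6 (x1_3 (x1_2 (x1_0 (s0_2 (n7 (n6 (n4 (n3 p690_18))))))))))),
   x4_7 (x4_6 (x4_5 (s3_5 (s2_6 (s1_7 (x0_7 (x0_6 (x0_5 (s0_4 (n6 (n5 (n2 p691_46)))))))))))),
   x5_7 (x5_6 (x5_4 (s4_6 (x1_3 (x1_2 (x1_0 (s0_2 (n7 (n6 (n3 p690_27)))))))))),
   x6_7 (x6_5 (x6_4 (s4_6 (x3_2 (x3_1 (x3_0 (s3_6 (x2_6 (x2_1 (x2_0 (s2_4 (s1_5 (s0_7 (n7 (n0 p683_60))))))))))))))),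
   x5_7 (x5_6 (x5_4 (s4_6 (x1_3 (x1_2 (x1_0 (s0_2 (n7 (n6 (n3 p690_25)))))))))),
   tr p693_23]]

theorem k690 : eqNN c690 (slO 64 (D.chG 208 23) 8) = true := by decide +kernel

/-- The slices of the chunk 691. -/
noncomputable def c691 : List (List ℕ) := [
  [tr p678_31,
   tr p679_31,
   x7_6 (x7_5 (x7_4 (s5_6 (s4_7 (x3_2 (x3_1 (x3_0 (s3_6 (s2_4 (s1_7 (s0_5 (n7 (n1 p679_52))))))))))))),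
   tr p680_31,
   tr p681_31,
   tr p682_31,
   s6_7 (s4_5 (s2_3 (s0_1 p691_24))),
   tr p683_31],
  [s3_6 (s2_7 (s1_4 (s0_5 p681_31))),
   s3_6 (s2_7 (s1_4 (s0_5 p682_31))),
   tr p684_31,
   s6_7 (s4_5 (s2_3 (s0_1 p691_21))),
   tr p685_31,
   tr p686_31,
   tr p687_31,
   x7_6 (x7_5 (x7_4 (s5_6 (s4_7 (x3_2 (x3_1 (x3_0 (s3_6 (s2_4 (s1_7 (s0_5 (n7 p685_52))))))))))))],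
  [x6_7 (x6_5 (x6_4 (s4_6 (x3_2 (x3_1 (x3_0 (s3_6 (x2_6 (x2_1 (x2_0 (s2_4 (s1_5 (s0_7 (n7 (n1 p679_52))))))))))))))),
   s3_6 (s2_7 (s1_4 (s0_5 p680_31))),
   tr p688_31,
   x4_7 (x4_6 (x4_5 (s3_5 (s2_6 (s1_7 (x0_7 (x0_6 (x0_5 (s0_4 (n6 (n2 (n1 p687_59)))))))))))),
   s3_6 (s2_7 (s1_4 (s0_5 p684_31))),
   p691_21,
   tr p689_31,
   tr p690_31],
  [p691_24,
   s3_6 (s2_7 (s1_4 (s0_5 p683_31))),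
   s3_6 (s2_7 (s1_4 (s0_5 p689_31))),
   s3_6 (s2_7 (s1_4 (s0_5 p690_31))),
   s3_6 (s2_7 (s1_4 (s0_5 p687_31))),
   x6_7 (x6_5 (x6_4 (s4_6 (x3_2 (x3_1 (x3_0 (s3_6 (x2_6 (x2_1 (x2_0 (s2_4 (s1_5 (s0_7 (n7 p685_52)))))))))))))),
   x4_7 (x4_6 (x4_5 (s3_5 (s2_6 (s1_7 (x0_7 (x0_6 (x0_5 (s0_4 (n6 (n3 (n2 p680_59)))))))))))),
   p691_31],
  [x4_7 (x4_6 (x4_5 (s3_5 (s2_6 (s1_7 (x0_7 (x0_6 (x0_5 (s0_4 (n6 (n3 (n1 p681_59)))))))))))),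
   x7_6 (x7_5 (x7_4 (x3_2 (x3_1 (x3_0 (s3_7 (s2_5 (s1_6 (s0_4 (n6 (n1 (n0 p690_42)))))))))))),
   s6_7 (s4_5 (s2_3 (s0_1 p691_48))),
   p691_35,
   s6_7 (s4_5 (s2_3 (s0_1 p691_40))),
   p691_37,
   x7_6 (x7_5 (x7_4 (x5_7 (x5_6 (x5_4 (s4_6 (s3_6 (s2_5 (x1_6 (x1_5 (x1_0 (s1_4 (s0_7 (n6 (n3 p679_59))))))))))))))),
   x7_6 (x7_5 (x7_4 (s5_6 (s4_7 (x3_2 (x3_1 (x3_0 (s3_6 (s2_4 (s1_7 (s0_5 (n7 (n1 (n0 p688_52))))))))))))))],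
  [p691_40,
   s6_7 (s4_5 (s2_3 (s0_1 p691_37))),
   p691_42,
   x7_6 (x7_5 (x7_4 (x5_7 (x5_6 (x5_4 (s4_6 (s3_6 (s2_5 (x1_6 (x1_5 (x1_0 (s1_4 (s0_7 (n6 (n1 p685_59))))))))))))))),
   x7_6 (x7_5 (x7_4 (s5_6 (s4_7 (x3_2 (x3_1 (x3_0 (s3_6 (s2_4 (s1_7 (s0_5 (n7 (n0 p689_52))))))))))))),
   x5_7 (x5_6 (x5_4 (s4_5 (s3_7 (x2_7 (x2_1 (x2_0 (s2_5 (x1_7 (x1_5 (x1_0 (s1_4 (s0_6 (n7 p682_55)))))))))))))),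
   p691_46,
   s6_7 (s4_5 (s2_3 (s0_1 p691_61)))],
  [p691_48,
   s6_7 (s4_5 (s2_3 (s0_1 p691_35))),
   tr p692_31,
   x4_7 (x4_6 (x4_5 (s3_5 (s2_6 (s1_7 (x0_7 (x0_6 (x0_5 (s0_4 (n6 (n2 (n1 p684_59)))))))))))),
   s6_7 (s4_5 (s2_3 (s0_1 p691_42))),
   x4_7 (x4_6 (x4_5 (s3_5 (s2_6 (s1_7 (x0_7 (x0_6 (x0_5 (s0_4 (n6 (n1 p685_59))))))))))),
   x4_7 (x4_6 (x4_5 (s3_5 (s2_6 (s1_7 (x0_7 (x0_6 (x0_5 (s0_4 (n6 (n3 (n2 (n1 p688_59))))))))))))),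
   p691_55],
  [x4_7 (x4_6 (x4_5 (s3_5 (s2_6 (s1_7 (x0_7 (x0_6 (x0_5 (s0_4 (n6 (n3 p679_59))))))))))),
   x6_7 (x6_5 (x6_4 (s4_6 (x3_2 (x3_1 (x3_0 (s3_6 (x2_6 (x2_1 (x2_0 (s2_4 (s1_5 (s0_7 (n7 (n1 (n0 p688_52)))))))))))))))),
   x7_6 (x7_5 (x7_4 (x5_7 (x5_6 (x5_4 (s4_6 (s3_6 (s2_5 (x1_6 (x1_5 (x1_0 (s1_4 (s0_7 (n6 (n3 (n2 (n1 p688_59))))))))))))))))),
   s6_7 (s4_5 (s2_3 (s0_1 p691_55))),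
   s6_7 (s4_5 (s2_3 (s0_1 p691_46))),
   p691_61,
   x4_7 (x4_6 (x4_5 (s3_5 (s2_6 (s1_7 (x0_7 (x0_6 (x0_5 (s0_4 (n6 (n3 (n2 p683_59)))))))))))),
   tr p693_31]]

theorem k691 : eqNN c691 (slO 64 (D.chG 208 31) 8) = true := by decide +kernel

end Pool.Agent.Lib.MP_afdd4d_co.K10.E6
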