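import Pool.Agent.Lib.MP_afdd4d_co.K10.E6.Dat
import Pool.Agent.Lib.MP_afdd4d_co.K10.E6.Mk
import Pool.Agent.Lib.MP_afdd4d_co.K8.F6Bl5
import Pool.Agent.Lib.MP_afdd4d_co.K10.E6.P0
import Pool.Agent.Lib.MP_afdd4d_co.K10.E6.P1
import Pool.Agent.Lib.MP_afdd4d_co.K10.E6.P2
import Pool.Agent.Lib.MP_afdd4d_co.K10.E6.P3
import Pool.Agent.Lib.MP_afdd4d_co.K10.E6.P4
import Pool.Agent.Lib.MP_afdd4d_co.K10.E6.P5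
import Pool.Agent.Lib.MP_afdd4d_co.K10.E6.P6
import Pool.Agent.Lib.MP_afdd4d_co.K10.E6.P7
import Pool.Agent.Lib.MP_afdd4d_co.K10.E6.P8
import Pool.Agent.Lib.MP_afdd4d_co.K10.E6.P9
import Pool.Agent.Lib.MP_afdd4d_co.K10.E6.P10
import Pool.Agent.Lib.MP_afdd4d_co.K10.E6.P11
import Pool.Agent.Lib.MP_afdd4d_co.K10.E6.P12
import Pool.Agent.Lib.MP_afdd4d_co.K10.E6.P13
import Pool.Agent.Lib.MP_afdd4d_co.K10.E6.P14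
import Pool.Agent.Lib.MP_afdd4d_co.K10.E6.P15
import Pool.Agent.Lib.MP_afdd4d_co.K10.E6.P16
import Pool.Agent.Lib.MP_afdd4d_co.K10.E6.P17
import Pool.Agent.Lib.MP_afdd4d_co.K10.E6.P18
import Pool.Agent.Lib.MP_afdd4d_co.K10.E6.P19
import Pool.Agent.Lib.MP_afdd4d_co.K10.E6.P20
import Pool.Agent.Lib.MP_afdd4d_co.K10.E6.P21
import Pool.Agent.Lib.MP_afdd4d_co.K10.E6.P22
import Pool.Agent.Lib.MP_afdd4d_co.K10.E6.P23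
import Pool.Agent.Lib.MP_afdd4d_co.K10.E6.P24
import Pool.Agent.Lib.MP_afdd4d_co.K10.E6.P25
import Pool.Agent.Lib.MP_afdd4d_co.K10.E6.P26
import Pool.Agent.Lib.MP_afdd4d_co.K10.E6.P27
import Pool.Agent.Lib.MP_afdd4d_co.K10.E6.P28
import Pool.Agent.Lib.MP_afdd4d_co.K10.E6.P29
import Pool.Agent.Lib.MP_afdd4d_co.K10.E6.P30
import Pool.Agent.Lib.MP_afdd4d_co.K10.E6.P31
import Pool.Agent.Lib.MP_afdd4d_co.K10.E6.P32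

/-!
# Tables
-/

namespace Pool.Agent.Lib.MP_afdd4d_co.K10.E6

open K8

set_option maxRecDepth 100000
set_option exponentiation.threshold 10000000

/-- The slices of the chunk 692. -/
noncomputable def c692 : List (List ℕ) := [
  [tr p678_50,
   p692_1,
   x7_6 (x7_5 (x7_4 (s5_6 (x3_2 (x3_1 (x3_0 (s1_2 (n4 (n2 (n1 (n0 p692_1))))))))))),
   p692_3,
   p692_4,
   p692_5,
   x7_6 (x7_5 (x7_4 (s5_6 (x3_2 (x3_1 (x3_0 (s1_2 (n4 (n2 (n1 (n0 p692_5))))))))))),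
   p692_7],
  [s6_7 (s4_5 (s2_3 (s0_1 p692_4))),
   s6_7 (s4_5 (s2_3 (s0_1 p692_5))),
   p692_10,
   x5_7 (x5_6 (x5_4 (s4_6 (x1_3 (x1_2 (x1_0 (s0_2 (n4 (n3 (n2 (n0 p692_4))))))))))),
   p692_12,
   tr p686_50,
   p692_14,
   x7_6 (x7_5 (x7_4 (s5_6 (x3_2 (x3_1 (x3_0 (s1_2 (n2 (n1 (n0 p692_12))))))))))],
  [x6_7 (x6_5 (x6_4 (s4_7 (x2_3 (x2_1 (x2_0 (s0_3 (n5 (n3 (n1 (n0 p692_1))))))))))),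
   s6_7 (s4_5 (s2_3 (s0_1 p692_3))),
   p692_18,
   s5_7 (x4_7 (x4_6 (x4_5 (s1_3 (x0_3 (x0_2 (x0_1 (n6 (n5 (n3 (n2 (n1 p692_14)))))))))))),
   s6_7 (s4_5 (s2_3 (s0_1 p692_10))),
   x6_7 (x6_5 (x6_4 (s4_7 (x2_3 (x2_1 (x2_0 (s0_3 (n3 (n1 (n0 p692_4)))))))))),
   p692_22,
   p692_23],
  [s5_7 (x4_7 (x4_6 (x4_5 (s1_3 (x0_3 (x0_2 (x0_1 (n7 (n3 (n2 (n1 p692_5))))))))))),
   s6_7 (s4_5 (s2_3 (s0_1 p692_7))),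
   s6_7 (s4_5 (s2_3 (s0_1 p692_22))),
   s6_7 (s4_5 (s2_3 (s0_1 p692_23))),
   s6_7 (s4_5 (s2_3 (s0_1 p692_14))),
   x6_7 (x6_5 (x6_4 (s4_7 (x2_3 (x2_1 (x2_0 (s0_3 (n3 (n1 (n0 p692_12)))))))))),
   s5_7 (x4_7 (x4_6 (x4_5 (s1_3 (x0_3 (x0_2 (x0_1 (n7 (n6 (n3 (n2 (n1 p692_3)))))))))))),
   p692_31],
  [s5_7 (x4_7 (x4_6 (x4_5 (s1_3 (x0_3 (x0_2 (x0_1 (n7 (n5 (n3 (n2 (n1 p692_4)))))))))))),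
   x7_6 (x7_5 (x7_4 (s5_6 (x3_2 (x3_1 (x3_0 (s1_2 (n5 (n4 (n2 (n1 (n0 p692_23)))))))))))),
   x5_7 (x5_6 (x5_4 (s4_6 (x1_3 (x1_2 (x1_0 (s0_2 (n6 (n4 (n3 (n2 (n0 p692_10)))))))))))),
   x7_6 (x7_5 (x7_4 (s5_6 (x3_2 (x3_1 (x3_0 (s1_2 (n5 (n4 (n2 (n1 (n0 p692_22)))))))))))),
   x5_7 (x5_6 (x5_4 (s4_6 (x1_3 (x1_2 (x1_0 (s0_2 (n6 (n3 (n2 (n0 p692_3))))))))))),
   x6_7 (x6_5 (x6_4 (s4_7 (x2_3 (x2_1 (x2_0 (s0_3 (n4 (n3 (n1 (n0 p692_14))))))))))),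
   x5_7 (x5_6 (x5_4 (s4_6 (x1_3 (x1_2 (x1_0 (s0_2 (n6 (n3 (n2 (n0 p692_1))))))))))),
   x7_6 (x7_5 (x7_4 (s5_6 (x3_2 (x3_1 (x3_0 (s1_2 (n5 (n4 (n2 (n1 (n0 p692_18))))))))))))],
  [x6_7 (x6_5 (x6_4 (s4_7 (x2_3 (x2_1 (x2_0 (s0_3 (n5 (n4 (n3 (n1 (n0 p692_3)))))))))))),
   x5_7 (x5_6 (x5_4 (s4_6 (x1_3 (x1_2 (x1_0 (s0_2 (n4 (n3 (n2 (n0 p692_14))))))))))),
   x7_6 (x7_5 (x7_4 (s5_6 (x3_2 (x3_1 (x3_0 (s1_2 (n5 (n2 (n1 (n0 p692_31))))))))))),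
   x5_7 (x5_6 (x5_4 (s4_6 (x1_3 (x1_2 (x1_0 (s0_2 (n4 (n3 (n2 (n0 p692_12))))))))))),
   x6_7 (x6_5 (x6_4 (s4_7 (x2_3 (x2_1 (x2_0 (s0_3 (n4 (n3 (n1 (n0 p692_22))))))))))),
   x5_7 (x5_6 (x5_4 (s4_6 (x1_3 (x1_2 (x1_0 (s0_2 (n3 (n2 (n0 p692_5)))))))))),
   s5_7 (x4_7 (x4_6 (x4_5 (s1_3 (x0_3 (x0_2 (x0_1 (n7 (n6 (n3 (n2 (n1 p692_23)))))))))))),
   x5_7 (x5_6 (x5_4 (s4_6 (x1_3 (x1_2 (x1_0 (s0_2 (n3 (n2 (n0 p692_7))))))))))],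
  [x6_7 (x6_5 (x6_4 (s4_7 (x2_3 (x2_1 (x2_0 (s0_3 (n5 (n4 (n3 (n1 (n0 p692_10)))))))))))),
   x5_7 (x5_6 (x5_4 (s4_6 (x1_3 (x1_2 (x1_0 (s0_2 (n7 (n4 (n3 (n2 (n0 p692_22)))))))))))),
   p692_50,
   s5_7 (x4_7 (x4_6 (x4_5 (s1_3 (x0_3 (x0_2 (x0_1 (n6 (n5 (n3 (n2 (n1 p692_10)))))))))))),
   x6_7 (x6_5 (x6_4 (s4_7 (x2_3 (x2_1 (x2_0 (s0_3 (n4 (n3 (n1 (n0 p692_31))))))))))),
   s5_7 (x4_7 (x4_6 (x4_5 (s1_3 (x0_3 (x0_2 (x0_1 (n5 (n3 (n2 (n1 p692_12))))))))))),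
   s5_7 (x4_7 (x4_6 (x4_5 (s1_3 (x0_3 (x0_2 (x0_1 (n7 (n6 (n5 (n3 (n2 (n1 p692_18))))))))))))),
   x5_7 (x5_6 (x5_4 (s4_6 (x1_3 (x1_2 (x1_0 (s0_2 (n7 (n3 (n2 (n0 p692_31)))))))))))],
  [s5_7 (x4_7 (x4_6 (x4_5 (s1_3 (x0_3 (x0_2 (x0_1 (n7 (n3 (n2 (n1 p692_1))))))))))),
   x6_7 (x6_5 (x6_4 (s4_7 (x2_3 (x2_1 (x2_0 (s0_3 (n5 (n4 (n3 (n1 (n0 p692_18)))))))))))),
   x5_7 (x5_6 (x5_4 (s4_6 (x1_3 (x1_2 (x1_0 (s0_2 (n7 (n6 (n4 (n3 (n2 (n0 p692_18))))))))))))),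
   s5_7 (x4_7 (x4_6 (x4_5 (s1_3 (x0_3 (x0_2 (x0_1 (n6 (n3 (n2 (n1 p692_31))))))))))),
   x6_7 (x6_5 (x6_4 (s4_7 (x2_3 (x2_1 (x2_0 (s0_3 (n4 (n3 (n1 (n0 p692_23))))))))))),
   x6_7 (x6_5 (x6_4 (s4_7 (x2_3 (x2_1 (x2_0 (s0_3 (n4 (n3 (n1 (n0 p692_7))))))))))),
   s5_7 (x4_7 (x4_6 (x4_5 (s1_3 (x0_3 (x0_2 (x0_1 (n7 (n6 (n3 (n2 (n1 p692_7)))))))))))),
   p692_63]]

theorem k692 : eqNN c692 (slO 64 (D.chG 208 50) 8) = true := by decide +kernel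

/-- The slices of the chunk 693. -/
noncomputable def c693 : List (List ℕ) := [
  [tr p678_63,
   p693_1,
   x7_6 (x7_5 (x7_4 (s5_6 (x3_2 (x3_1 (x3_0 (s1_2 (n4 (n2 (n1 p693_1)))))))))),
   p693_3,
   p693_4,
   p693_5,
   x7_6 (x7_5 (x7_4 (s5_6 (x3_2 (x3_1 (x3_0 (s1_2 (n4 (n2 (n1 p693_5)))))))))),
   p693_7],
  [s6_7 (s4_5 (s2_3 (s0_1 p693_4))),
   s6_7 (s4_5 (s2_3 (s0_1 p693_5))),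
   p693_10,
   x5_7 (x5_6 (x5_4 (s4_6 (x1_3 (x1_2 (x1_0 (s0_2 (n4 (n3 p693_4))))))))),
   p693_12,
   tr p686_63,
   p693_14,
   x7_6 (x7_5 (x7_4 (s5_6 (x3_2 (x3_1 (x3_0 (s1_2 (n2 (n1 p693_12)))))))))],
  [x6_7 (x6_5 (x6_4 (s4_7 (x2_3 (x2_1 (x2_0 (s0_3 (n5 (n3 (n0 p693_1)))))))))),
   s6_7 (s4_5 (s2_3 (s0_1 p693_3))),
   p693_18,
   s5_7 (x4_7 (x4_6 (x4_5 (s1_3 (x0_3 (x0_2 (x0_1 (n6 (n5 (n2 p693_14)))))))))),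
   s6_7 (s4_5 (s2_3 (s0_1 p693_10))),
   x6_7 (x6_5 (x6_4 (s4_7 (x2_3 (x2_1 (x2_0 (s0_3 (n3 (n0 p693_4))))))))),
   p693_22,
   p693_23],
  [s5_7 (x4_7 (x4_6 (x4_5 (s1_3 (x0_3 (x0_2 (x0_1 (n7 (n2 p693_5))))))))),
   s6_7 (s4_5 (s2_3 (s0_1 p693_7))),
   s6_7 (s4_5 (s2_3 (s0_1 p693_22))),
   s6_7 (s4_5 (s2_3 (s0_1 p693_23))),
   s6_7 (s4_5 (s2_3 (s0_1 p693_14))),
   x6_7 (x6_5 (x6_4 (s4_7 (x2_3 (x2_1 (x2_0 (s0_3 (n3 (n0 p693_12))))))))),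
   s5_7 (x4_7 (x4_6 (x4_5 (s1_3 (x0_3 (x0_2 (x0_1 (n7 (n6 (n2 p693_3)))))))))),
   p693_31],
  [s5_7 (x4_7 (x4_6 (x4_5 (s1_3 (x0_3 (x0_2 (x0_1 (n7 (n5 (n2 p693_4)))))))))),
   x7_6 (x7_5 (x7_4 (s5_6 (x3_2 (x3_1 (x3_0 (s1_2 (n5 (n4 (n2 (n1 p693_23))))))))))),
   x5_7 (x5_6 (x5_4 (s4_6 (x1_3 (x1_2 (x1_0 (s0_2 (n6 (n4 (n3 p693_10)))))))))),
   x7_6 (x7_5 (x7_4 (s5_6 (x3_2 (x3_1 (x3_0 (s1_2 (n5 (n4 (n2 (n1 p693_22))))))))))),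
   x5_7 (x5_6 (x5_4 (s4_6 (x1_3 (x1_2 (x1_0 (s0_2 (n6 (n3 p693_3))))))))),
   x6_7 (x6_5 (x6_4 (s4_7 (x2_3 (x2_1 (x2_0 (s0_3 (n4 (n3 (n0 p693_14)))))))))),
   x5_7 (x5_6 (x5_4 (s4_6 (x1_3 (x1_2 (x1_0 (s0_2 (n6 (n3 p693_1))))))))),
   x7_6 (x7_5 (x7_4 (s5_6 (x3_2 (x3_1 (x3_0 (s1_2 (n5 (n4 (n2 (n1 p693_18)))))))))))],
  [x6_7 (x6_5 (x6_4 (s4_7 (x2_3 (x2_1 (x2_0 (s0_3 (n5 (n4 (n3 (n0 p693_3))))))))))),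
   x5_7 (x5_6 (x5_4 (s4_6 (x1_3 (x1_2 (x1_0 (s0_2 (n4 (n3 p693_14))))))))),
   x7_6 (x7_5 (x7_4 (s5_6 (x3_2 (x3_1 (x3_0 (s1_2 (n5 (n2 (n1 p693_31)))))))))),
   x5_7 (x5_6 (x5_4 (s4_6 (x1_3 (x1_2 (x1_0 (s0_2 (n4 (n3 p693_12))))))))),
   x6_7 (x6_5 (x6_4 (s4_7 (x2_3 (x2_1 (x2_0 (s0_3 (n4 (n3 (n0 p693_22)))))))))),
   x5_7 (x5_6 (x5_4 (s4_6 (x1_3 (x1_2 (x1_0 (s0_2 (n3 p693_5)))))))),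
   s5_7 (x4_7 (x4_6 (x4_5 (s1_3 (x0_3 (x0_2 (x0_1 (n7 (n6 (n2 p693_23)))))))))),
   x5_7 (x5_6 (x5_4 (s4_6 (x1_3 (x1_2 (x1_0 (s0_2 (n3 p693_7))))))))],
  [x6_7 (x6_5 (x6_4 (s4_7 (x2_3 (x2_1 (x2_0 (s0_3 (n5 (n4 (n3 (n0 p693_10))))))))))),
   x5_7 (x5_6 (x5_4 (s4_6 (x1_3 (x1_2 (x1_0 (s0_2 (n7 (n4 (n3 p693_22)))))))))),
   tr p692_63,
   s5_7 (x4_7 (x4_6 (x4_5 (s1_3 (x0_3 (x0_2 (x0_1 (n6 (n5 (n2 p693_10)))))))))),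
   x6_7 (x6_5 (x6_4 (s4_7 (x2_3 (x2_1 (x2_0 (s0_3 (n4 (n3 (n0 p693_31)))))))))),
   s5_7 (x4_7 (x4_6 (x4_5 (s1_3 (x0_3 (x0_2 (x0_1 (n5 (n2 p693_12))))))))),
   s5_7 (x4_7 (x4_6 (x4_5 (s1_3 (x0_3 (x0_2 (x0_1 (n7 (n6 (n5 (n2 p693_18))))))))))),
   x5_7 (x5_6 (x5_4 (s4_6 (x1_3 (x1_2 (x1_0 (s0_2 (n7 (n3 p693_31)))))))))],
  [s5_7 (x4_7 (x4_6 (x4_5 (s1_3 (x0_3 (x0_2 (x0_1 (n7 (n2 p693_1))))))))),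
   x6_7 (x6_5 (x6_4 (s4_7 (x2_3 (x2_1 (x2_0 (s0_3 (n5 (n4 (n3 (n0 p693_18))))))))))),
   x5_7 (x5_6 (x5_4 (s4_6 (x1_3 (x1_2 (x1_0 (s0_2 (n7 (n6 (n4 (n3 p693_18))))))))))),
   s5_7 (x4_7 (x4_6 (x4_5 (s1_3 (x0_3 (x0_2 (x0_1 (n6 (n2 p693_31))))))))),
   x6_7 (x6_5 (x6_4 (s4_7 (x2_3 (x2_1 (x2_0 (s0_3 (n4 (n3 (n0 p693_23)))))))))),
   x6_7 (x6_5 (x6_4 (s4_7 (x2_3 (x2_1 (x2_0 (s0_3 (n4 (n3 (n0 p693_7)))))))))),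
   s5_7 (x4_7 (x4_6 (x4_5 (s1_3 (x0_3 (x0_2 (x0_1 (n7 (n6 (n2 p693_7)))))))))),
   p693_63]]

theorem k693 : eqNN c693 (slO 64 (D.chG 208 63) 8) = true := by decide +kernel

/-- The slices of the chunk 694. -/
noncomputable def c694 : List (List ℕ) := [
  [p694_0,
   p694_1,
   x7_6 (x7_5 (x7_4 (s5_6 (x3_2 (x3_1 (x3_0 (s1_2 (n4 (n0 p694_1))))))))),
   p694_3,
   p694_4,
   p694_5,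
   x7_6 (x7_5 (x7_4 (s5_6 (x3_2 (x3_1 (x3_0 (s1_2 (n4 (n0 p694_5))))))))),
   p694_7],
  [p694_8,
   p694_9,
   p694_10,
   x7_6 (x7_5 (x7_4 (s5_6 (x3_2 (x3_1 (x3_0 (s1_2 (n0 p694_8)))))))),
   p694_12,
   p694_13,
   p694_14,
   x7_6 (x7_5 (x7_4 (s5_6 (x3_2 (x3_1 (x3_0 (s1_2 (n0 p694_12))))))))],
  [p694_16,
   p694_17,
   p694_18,
   p694_19,
   p694_20,
   p694_21,
   p694_22,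
   p694_23],
  [p694_24,
   p694_25,
   p694_26,
   p694_27,
   p694_28,
   p694_29,
   p694_30,
   p694_31],
  [x7_6 (x7_5 (x7_4 (s5_6 (x3_2 (x3_1 (x3_0 (s1_2 (n5 (n4 (n0 p694_21)))))))))),
   x7_6 (x7_5 (x7_4 (s5_6 (x3_2 (x3_1 (x3_0 (s1_2 (n5 (n4 (n0 p694_23)))))))))),
   x7_6 (x7_5 (x7_4 (s5_6 (x3_2 (x3_1 (x3_0 (s1_2 (n5 (n4 (n0 p694_20)))))))))),
   x7_6 (x7_5 (x7_4 (s5_6 (x3_2 (x3_1 (x3_0 (s1_2 (n5 (n4 (n0 p694_22)))))))))),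
   x7_6 (x7_5 (x7_4 (s5_6 (x3_2 (x3_1 (x3_0 (s1_2 (n5 (n4 (n0 p694_17)))))))))),
   x7_6 (x7_5 (x7_4 (s5_6 (x3_2 (x3_1 (x3_0 (s1_2 (n5 (n4 (n0 p694_19)))))))))),
   x7_6 (x7_5 (x7_4 (s5_6 (x3_2 (x3_1 (x3_0 (s1_2 (n5 (n4 (n0 p694_16)))))))))),
   x7_6 (x7_5 (x7_4 (s5_6 (x3_2 (x3_1 (x3_0 (s1_2 (n5 (n4 (n0 p694_18))))))))))],
  [x7_6 (x7_5 (x7_4 (s5_6 (x3_2 (x3_1 (x3_0 (s1_2 (n5 (n0 p694_30))))))))),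
   x7_6 (x7_5 (x7_4 (s5_6 (x3_2 (x3_1 (x3_0 (s1_2 (n5 (n0 p694_28))))))))),
   x7_6 (x7_5 (x7_4 (s5_6 (x3_2 (x3_1 (x3_0 (s1_2 (n5 (n0 p694_31))))))))),
   x7_6 (x7_5 (x7_4 (s5_6 (x3_2 (x3_1 (x3_0 (s1_2 (n5 (n0 p694_29))))))))),
   x7_6 (x7_5 (x7_4 (s5_6 (x3_2 (x3_1 (x3_0 (s1_2 (n5 (n0 p694_26))))))))),
   x7_6 (x7_5 (x7_4 (s5_6 (x3_2 (x3_1 (x3_0 (s1_2 (n5 (n0 p694_24))))))))),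
   x7_6 (x7_5 (x7_4 (s5_6 (x3_2 (x3_1 (x3_0 (s1_2 (n5 (n0 p694_27))))))))),
   x7_6 (x7_5 (x7_4 (s5_6 (x3_2 (x3_1 (x3_0 (s1_2 (n5 (n0 p694_25)))))))))],
  [p694_48,
   p694_49,
   p694_50,
   x7_6 (x7_5 (x7_4 (s5_6 (x3_2 (x3_1 (x3_0 (s1_2 (n6 (n5 (n4 (n0 p694_48))))))))))),
   p694_52,
   p694_53,
   p694_54,
   x7_6 (x7_5 (x7_4 (s5_6 (x3_2 (x3_1 (x3_0 (s1_2 (n6 (n5 (n4 (n0 p694_52)))))))))))],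
  [p694_56,
   p694_57,
   x7_6 (x7_5 (x7_4 (s5_6 (x3_2 (x3_1 (x3_0 (s1_2 (n6 (n5 (n0 p694_57)))))))))),
   p694_59,
   p694_60,
   p694_61,
   x7_6 (x7_5 (x7_4 (s5_6 (x3_2 (x3_1 (x3_0 (s1_2 (n6 (n5 (n0 p694_61)))))))))),
   p694_63]]

theorem k694 : eqNN c694 (slO 64 (D.chG 209 0) 8) = true := by decide +kernel

/-- The slices of the chunk 695. -/
noncomputable def c695 : List (List ℕ) := [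
  [tr p694_1,
   p695_1,
   p695_2,
   tr p696_1,
   tr p697_1,
   p695_5,
   p695_6,
   tr p699_1],
  [p695_8,
   tr p701_1,
   tr p702_1,
   p695_11,
   p695_12,
   tr p704_1,
   tr p705_1,
   p695_15],
  [p695_16,
   p695_17,
   p695_18,
   p695_19,
   p695_20,
   p695_21,
   p695_22,
   p695_23],
  [p695_24,
   p695_25,
   p695_26,
   p695_27,
   p695_28,
   p695_29,
   p695_30,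
   p695_31],
  [p695_32,
   p695_33,
   p695_34,
   p695_35,
   p695_36,
   p695_37,
   p695_38,
   p695_39],
  [p695_40,
   p695_41,
   p695_42,
   p695_43,
   p695_44,
   p695_45,
   p695_46,
   p695_47],
  [p695_48,
   tr p723_1,
   tr p724_1,
   p695_51,
   p695_52,
   tr p726_1,
   tr p727_1,
   p695_55],
  [tr p728_1,
   p695_57,
   p695_58,
   tr p730_1,
   tr p731_1,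
   p695_61,
   p695_62,
   tr p733_1]]

theorem k695 : eqNN c695 (slO 64 (D.chG 209 1) 8) = true := by decide +kernel

end Pool.Agent.Lib.MP_afdd4d_co.K10.E6
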