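import Pool.Agent.Lib.MP_afdd4d_co.K10.E6.Dat
import Pool.Agent.Lib.MP_afdd4d_co.K10.E6.Mk
import Pool.Agent.Lib.MP_afdd4d_co.K8.F6Bl5
import Pool.Agent.Lib.MP_afdd4d_co.K10.E6.P0
import Pool.Agent.Lib.MP_afdd4d_co.K10.E6.P1
import Pool.Agent.Lib.MP_afdd4d_co.K10.E6.P2
import Pool.Agent.Lib.MP_afdd4d_co.K10.E6.P3
import Pool.Agent.Lib.MP_afdd4d_co.K10.E6.P4
import Pool.Agent.Lib.MP_afdd4d_co.K10.E6.P5
import Pool.Agent.Lib.MP_afdd4d_co.K10.E6.P6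
import Pool.Agent.Lib.MP_afdd4d_co.K10.E6.P7
import Pool.Agent.Lib.MP_afdd4d_co.K10.E6.P8
import Pool.Agent.Lib.MP_afdd4d_co.K10.E6.P9
import Pool.Agent.Lib.MP_afdd4d_co.K10.E6.P10
import Pool.Agent.Lib.MP_afdd4d_co.K10.E6.P11
import Pool.Agent.Lib.MP_afdd4d_co.K10.E6.P12
import Pool.Agent.Lib.MP_afdd4d_co.K10.E6.P13
import Pool.Agent.Lib.MP_afdd4d_co.K10.E6.P14
import Pool.Agent.Lib.MP_afdd4d_co.K10.E6.P15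
import Pool.Agent.Lib.MP_afdd4d_co.K10.E6.P16
import Pool.Agent.Lib.MP_afdd4d_co.K10.E6.P17
import Pool.Agent.Lib.MP_afdd4d_co.K10.E6.P18
import Pool.Agent.Lib.MP_afdd4d_co.K10.E6.P19
import Pool.Agent.Lib.MP_afdd4d_co.K10.E6.P20
import Pool.Agent.Lib.MP_afdd4d_co.K10.E6.P21
import Pool.Agent.Lib.MP_afdd4d_co.K10.E6.P22
import Pool.Agent.Lib.MP_afdd4d_co.K10.E6.P23
import Pool.Agent.Lib.MP_afdd4d_co.K10.E6.P24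
import Pool.Agent.Lib.MP_afdd4d_co.K10.E6.P25
import Pool.Agent.Lib.MP_afdd4d_co.K10.E6.P26
import Pool.Agent.Lib.MP_afdd4d_co.K10.E6.P27
import Pool.Agent.Lib.MP_afdd4d_co.K10.E6.P28
import Pool.Agent.Lib.MP_afdd4d_co.K10.E6.P29
import Pool.Agent.Lib.MP_afdd4d_co.K10.E6.P30
import Pool.Agent.Lib.MP_afdd4d_co.K10.E6.P31
import Pool.Agent.Lib.MP_afdd4d_co.K10.E6.P32

/-!
# Tables
-/

namespace Pool.Agent.Lib.MP_afdd4d_co.K10.E6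

open K8

set_option maxRecDepth 100000
set_option exponentiation.threshold 10000000

/-- The slices of the chunk 700. -/
noncomputable def c700 : List (List ℕ) := [
  [tr p694_8,
   tr p695_8,
   x7_6 (x7_5 (x7_4 (x3_2 (x3_1 (x3_0 (s3_7 (s2_5 (s1_6 (s0_4 (n0 p695_11)))))))))),
   tr p696_8,
   tr p697_8,
   tr p698_8,
   x7_6 (x7_5 (x7_4 (x3_2 (x3_1 (x3_0 (s3_7 (s2_5 (s1_6 (s0_4 (n0 p698_11)))))))))),
   tr p699_8],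
  [p700_8,
   tr p701_8,
   tr p702_8,
   p700_11,
   p700_12,
   tr p704_8,
   tr p705_8,
   p700_15],
  [p700_16,
   p700_17,
   p700_18,
   p700_19,
   p700_20,
   p700_21,
   p700_22,
   p700_23],
  [p700_24,
   p700_25,
   p700_26,
   p700_27,
   p700_28,
   p700_29,
   p700_30,
   p700_31],
  [p700_32,
   p700_33,
   p700_34,
   p700_35,
   p700_36,
   p700_37,
   p700_38,
   p700_39],
  [p700_40,
   p700_41,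
   p700_42,
   p700_43,
   p700_44,
   p700_45,
   p700_46,
   p700_47],
  [p700_48,
   tr p723_8,
   tr p724_8,
   p700_51,
   p700_52,
   tr p726_8,
   tr p727_8,
   p700_55],
  [tr p728_8,
   p700_57,
   p700_58,
   tr p730_8,
   tr p731_8,
   p700_61,
   p700_62,
   tr p733_8]]

theorem k700 : eqNN c700 (slO 64 (D.chG 209 8) 8) = true := by decide +kernel

/-- The slices of the chunk 701. -/
noncomputable def c701 : List (List ℕ) := [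
  [tr p694_9,
   p701_1,
   x7_6 (x7_5 (x7_4 (s5_6 (x3_2 (x3_1 (x3_0 (s1_2 (n4 p701_1)))))))),
   tr p696_9,
   tr p697_9,
   p701_5,
   x7_6 (x7_5 (x7_4 (s5_6 (x3_2 (x3_1 (x3_0 (s1_2 (n4 p701_5)))))))),
   tr p699_9],
  [p701_8,
   p701_9,
   p701_10,
   x7_6 (x7_5 (x7_4 (s5_6 (x3_2 (x3_1 (x3_0 (s1_2 p701_8))))))),
   p701_12,
   p701_13,
   p701_14,
   x7_6 (x7_5 (x7_4 (s5_6 (x3_2 (x3_1 (x3_0 (s1_2 p701_12)))))))],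
  [p701_16,
   p701_17,
   p701_18,
   p701_19,
   p701_20,
   p701_21,
   p701_22,
   p701_23],
  [p701_24,
   p701_25,
   p701_26,
   p701_27,
   p701_28,
   p701_29,
   p701_30,
   p701_31],
  [x7_6 (x7_5 (x7_4 (s5_6 (x3_2 (x3_1 (x3_0 (s1_2 (n5 (n4 p701_21))))))))),
   x7_6 (x7_5 (x7_4 (s5_6 (x3_2 (x3_1 (x3_0 (s1_2 (n5 (n4 p701_23))))))))),
   x7_6 (x7_5 (x7_4 (s5_6 (x3_2 (x3_1 (x3_0 (s1_2 (n5 (n4 p701_20))))))))),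
   x7_6 (x7_5 (x7_4 (s5_6 (x3_2 (x3_1 (x3_0 (s1_2 (n5 (n4 p701_22))))))))),
   x7_6 (x7_5 (x7_4 (s5_6 (x3_2 (x3_1 (x3_0 (s1_2 (n5 (n4 p701_17))))))))),
   x7_6 (x7_5 (x7_4 (s5_6 (x3_2 (x3_1 (x3_0 (s1_2 (n5 (n4 p701_19))))))))),
   x7_6 (x7_5 (x7_4 (s5_6 (x3_2 (x3_1 (x3_0 (s1_2 (n5 (n4 p701_16))))))))),
   x7_6 (x7_5 (x7_4 (s5_6 (x3_2 (x3_1 (x3_0 (s1_2 (n5 (n4 p701_18)))))))))],
  [x7_6 (x7_5 (x7_4 (s5_6 (x3_2 (x3_1 (x3_0 (s1_2 (n5 p701_30)))))))),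
   x7_6 (x7_5 (x7_4 (s5_6 (x3_2 (x3_1 (x3_0 (s1_2 (n5 p701_28)))))))),
   x7_6 (x7_5 (x7_4 (s5_6 (x3_2 (x3_1 (x3_0 (s1_2 (n5 p701_31)))))))),
   x7_6 (x7_5 (x7_4 (s5_6 (x3_2 (x3_1 (x3_0 (s1_2 (n5 p701_29)))))))),
   x7_6 (x7_5 (x7_4 (s5_6 (x3_2 (x3_1 (x3_0 (s1_2 (n5 p701_26)))))))),
   x7_6 (x7_5 (x7_4 (s5_6 (x3_2 (x3_1 (x3_0 (s1_2 (n5 p701_24)))))))),
   x7_6 (x7_5 (x7_4 (s5_6 (x3_2 (x3_1 (x3_0 (s1_2 (n5 p701_27)))))))),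
   x7_6 (x7_5 (x7_4 (s5_6 (x3_2 (x3_1 (x3_0 (s1_2 (n5 p701_25))))))))],
  [p701_48,
   p701_49,
   p701_50,
   x7_6 (x7_5 (x7_4 (s5_6 (x3_2 (x3_1 (x3_0 (s1_2 (n6 (n5 (n4 p701_48)))))))))),
   p701_52,
   p701_53,
   p701_54,
   x7_6 (x7_5 (x7_4 (s5_6 (x3_2 (x3_1 (x3_0 (s1_2 (n6 (n5 (n4 p701_52))))))))))],
  [p701_56,
   p701_57,
   x7_6 (x7_5 (x7_4 (s5_6 (x3_2 (x3_1 (x3_0 (s1_2 (n6 (n5 p701_57))))))))),
   p701_59,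
   p701_60,
   p701_61,
   x7_6 (x7_5 (x7_4 (s5_6 (x3_2 (x3_1 (x3_0 (s1_2 (n6 (n5 p701_61))))))))),
   p701_63]]

theorem k701 : eqNN c701 (slO 64 (D.chG 209 9) 8) = true := by decide +kernel

/-- The slices of the chunk 702. -/
noncomputable def c702 : List (List ℕ) := [
  [tr p694_10,
   p702_1,
   x7_6 (x7_5 (x7_4 (s5_6 (x3_2 (x3_1 (x3_0 (s1_2 (n4 p702_1)))))))),
   tr p696_10,
   tr p697_10,
   p702_5,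
   x7_6 (x7_5 (x7_4 (s5_6 (x3_2 (x3_1 (x3_0 (s1_2 (n4 p702_5)))))))),
   tr p699_10],
  [p702_8,
   tr p701_10,
   p702_10,
   x7_6 (x7_5 (x7_4 (s5_6 (x3_2 (x3_1 (x3_0 (s1_2 p702_8))))))),
   p702_12,
   p702_13,
   p702_14,
   x7_6 (x7_5 (x7_4 (s5_6 (x3_2 (x3_1 (x3_0 (s1_2 p702_12)))))))],
  [p702_16,
   p702_17,
   p702_18,
   p702_19,
   p702_20,
   p702_21,
   p702_22,
   p702_23],
  [p702_24,
   p702_25,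
   p702_26,
   p702_27,
   p702_28,
   p702_29,
   p702_30,
   p702_31],
  [x7_6 (x7_5 (x7_4 (s5_6 (x3_2 (x3_1 (x3_0 (s1_2 (n5 (n4 p702_21))))))))),
   x7_6 (x7_5 (x7_4 (s5_6 (x3_2 (x3_1 (x3_0 (s1_2 (n5 (n4 p702_23))))))))),
   x7_6 (x7_5 (x7_4 (s5_6 (x3_2 (x3_1 (x3_0 (s1_2 (n5 (n4 p702_20))))))))),
   x7_6 (x7_5 (x7_4 (s5_6 (x3_2 (x3_1 (x3_0 (s1_2 (n5 (n4 p702_22))))))))),
   x7_6 (x7_5 (x7_4 (s5_6 (x3_2 (x3_1 (x3_0 (s1_2 (n5 (n4 p702_17))))))))),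
   x7_6 (x7_5 (x7_4 (s5_6 (x3_2 (x3_1 (x3_0 (s1_2 (n5 (n4 p702_19))))))))),
   x7_6 (x7_5 (x7_4 (s5_6 (x3_2 (x3_1 (x3_0 (s1_2 (n5 (n4 p702_16))))))))),
   x7_6 (x7_5 (x7_4 (s5_6 (x3_2 (x3_1 (x3_0 (s1_2 (n5 (n4 p702_18)))))))))],
  [x7_6 (x7_5 (x7_4 (s5_6 (x3_2 (x3_1 (x3_0 (s1_2 (n5 p702_30)))))))),
   x7_6 (x7_5 (x7_4 (s5_6 (x3_2 (x3_1 (x3_0 (s1_2 (n5 p702_28)))))))),
   x7_6 (x7_5 (x7_4 (s5_6 (x3_2 (x3_1 (x3_0 (s1_2 (n5 p702_31)))))))),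
   x7_6 (x7_5 (x7_4 (s5_6 (x3_2 (x3_1 (x3_0 (s1_2 (n5 p702_29)))))))),
   x7_6 (x7_5 (x7_4 (s5_6 (x3_2 (x3_1 (x3_0 (s1_2 (n5 p702_26)))))))),
   x7_6 (x7_5 (x7_4 (s5_6 (x3_2 (x3_1 (x3_0 (s1_2 (n5 p702_24)))))))),
   x7_6 (x7_5 (x7_4 (s5_6 (x3_2 (x3_1 (x3_0 (s1_2 (n5 p702_27)))))))),
   x7_6 (x7_5 (x7_4 (s5_6 (x3_2 (x3_1 (x3_0 (s1_2 (n5 p702_25))))))))],
  [p702_48,
   p702_49,
   p702_50,
   x7_6 (x7_5 (x7_4 (s5_6 (x3_2 (x3_1 (x3_0 (s1_2 (n6 (n5 (n4 p702_48)))))))))),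
   p702_52,
   p702_53,
   p702_54,
   x7_6 (x7_5 (x7_4 (s5_6 (x3_2 (x3_1 (x3_0 (s1_2 (n6 (n5 (n4 p702_52))))))))))],
  [p702_56,
   p702_57,
   x7_6 (x7_5 (x7_4 (s5_6 (x3_2 (x3_1 (x3_0 (s1_2 (n6 (n5 p702_57))))))))),
   p702_59,
   p702_60,
   p702_61,
   x7_6 (x7_5 (x7_4 (s5_6 (x3_2 (x3_1 (x3_0 (s1_2 (n6 (n5 p702_61))))))))),
   p702_63]]

theorem k702 : eqNN c702 (slO 64 (D.chG 209 10) 8) = true := by decide +kernel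

/-- The slices of the chunk 703. -/
noncomputable def c703 : List (List ℕ) := [
  [tr p694_12,
   tr p695_12,
   x7_6 (x7_5 (x7_4 (x3_2 (x3_1 (x3_0 (s3_7 (s2_5 (s1_6 (s0_4 (n0 p695_15)))))))))),
   tr p696_12,
   tr p697_12,
   tr p698_12,
   x7_6 (x7_5 (x7_4 (x3_2 (x3_1 (x3_0 (s3_7 (s2_5 (s1_6 (s0_4 (n0 p698_15)))))))))),
   tr p699_12],
  [tr p700_12,
   tr p701_12,
   tr p702_12,
   x7_6 (x7_5 (x7_4 (x3_2 (x3_1 (x3_0 (s3_7 (s2_5 (s1_6 (s0_4 p700_15))))))))),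
   p703_12,
   tr p704_12,
   tr p705_12,
   p703_15],
  [p703_16,
   p703_17,
   p703_18,
   p703_19,
   p703_20,
   p703_21,
   p703_22,
   p703_23],
  [p703_24,
   p703_25,
   p703_26,
   p703_27,
   p703_28,
   p703_29,
   p703_30,
   p703_31],
  [p703_32,
   p703_33,
   p703_34,
   p703_35,
   p703_36,
   p703_37,
   p703_38,
   p703_39],
  [p703_40,
   p703_41,
   p703_42,
   p703_43,
   p703_44,
   p703_45,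
   p703_46,
   p703_47],
  [p703_48,
   tr p723_12,
   tr p724_12,
   p703_51,
   p703_52,
   tr p726_12,
   tr p727_12,
   p703_55],
  [tr p728_12,
   p703_57,
   p703_58,
   tr p730_12,
   tr p731_12,
   p703_61,
   p703_62,
   tr p733_12]]

theorem k703 : eqNN c703 (slO 64 (D.chG 209 12) 8) = true := by decide +kernel

end Pool.Agent.Lib.MP_afdd4d_co.K10.E6
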