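import Pool.Agent.Lib.MP_afdd4d_co.K10.E6.Dat
import Pool.Agent.Lib.MP_afdd4d_co.K10.E6.Mk
import Pool.Agent.Lib.MP_afdd4d_co.K8.F6Bl5
import Pool.Agent.Lib.MP_afdd4d_co.K10.E6.P0
import Pool.Agent.Lib.MP_afdd4d_co.K10.E6.P1
import Pool.Agent.Lib.MP_afdd4d_co.K10.E6.P2
import Pool.Agent.Lib.MP_afdd4d_co.K10.E6.P3
import Pool.Agent.Lib.MP_afdd4d_co.K10.E6.P4
import Pool.Agent.Lib.MP_afdd4d_co.K10.E6.P5
import Pool.Agent.Lib.MP_afdd4d_co.K10.E6.P6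
import Pool.Agent.Lib.MP_afdd4d_co.K10.E6.P7
import Pool.Agent.Lib.MP_afdd4d_co.K10.E6.P8
import Pool.Agent.Lib.MP_afdd4d_co.K10.E6.P9
import Pool.Agent.Lib.MP_afdd4d_co.K10.E6.P10
import Pool.Agent.Lib.MP_afdd4d_co.K10.E6.P11
import Pool.Agent.Lib.MP_afdd4d_co.K10.E6.P12
import Pool.Agent.Lib.MP_afdd4d_co.K10.E6.P13
import Pool.Agent.Lib.MP_afdd4d_co.K10.E6.P14
import Pool.Agent.Lib.MP_afdd4d_co.K10.E6.P15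
import Pool.Agent.Lib.MP_afdd4d_co.K10.E6.P16
import Pool.Agent.Lib.MP_afdd4d_co.K10.E6.P17
import Pool.Agent.Lib.MP_afdd4d_co.K10.E6.P18
import Pool.Agent.Lib.MP_afdd4d_co.K10.E6.P19
import Pool.Agent.Lib.MP_afdd4d_co.K10.E6.P20
import Pool.Agent.Lib.MP_afdd4d_co.K10.E6.P21
import Pool.Agent.Lib.MP_afdd4d_co.K10.E6.P22
import Pool.Agent.Lib.MP_afdd4d_co.K10.E6.P23
import Pool.Agent.Lib.MP_afdd4d_co.K10.E6.P24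
import Pool.Agent.Lib.MP_afdd4d_co.K10.E6.P25
import Pool.Agent.Lib.MP_afdd4d_co.K10.E6.P26
import Pool.Agent.Lib.MP_afdd4d_co.K10.E6.P27
import Pool.Agent.Lib.MP_afdd4d_co.K10.E6.P28
import Pool.Agent.Lib.MP_afdd4d_co.K10.E6.P29
import Pool.Agent.Lib.MP_afdd4d_co.K10.E6.P30
import Pool.Agent.Lib.MP_afdd4d_co.K10.E6.P31
import Pool.Agent.Lib.MP_afdd4d_co.K10.E6.P32

/-!
# Tables
-/

namespace Pool.Agent.Lib.MP_afdd4d_co.K10.E6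

open K8

set_option maxRecDepth 100000
set_option exponentiation.threshold 10000000

/-- The slices of the chunk 704. -/
noncomputable def c704 : List (List ℕ) := [
  [tr p694_13,
   p704_1,
   x7_6 (x7_5 (x7_4 (s5_6 (x3_2 (x3_1 (x3_0 (s1_2 (n4 p704_1)))))))),
   tr p696_13,
   tr p697_13,
   p704_5,
   x7_6 (x7_5 (x7_4 (s5_6 (x3_2 (x3_1 (x3_0 (s1_2 (n4 p704_5)))))))),
   tr p699_13],
  [p704_8,
   tr p701_13,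
   tr p702_13,
   x7_6 (x7_5 (x7_4 (s5_6 (x3_2 (x3_1 (x3_0 (s1_2 p704_8))))))),
   p704_12,
   p704_13,
   p704_14,
   x7_6 (x7_5 (x7_4 (s5_6 (x3_2 (x3_1 (x3_0 (s1_2 p704_12)))))))],
  [p704_16,
   p704_17,
   p704_18,
   p704_19,
   p704_20,
   p704_21,
   p704_22,
   p704_23],
  [p704_24,
   p704_25,
   p704_26,
   p704_27,
   p704_28,
   p704_29,
   p704_30,
   p704_31],
  [x7_6 (x7_5 (x7_4 (s5_6 (x3_2 (x3_1 (x3_0 (s1_2 (n5 (n4 p704_21))))))))),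
   x7_6 (x7_5 (x7_4 (s5_6 (x3_2 (x3_1 (x3_0 (s1_2 (n5 (n4 p704_23))))))))),
   x7_6 (x7_5 (x7_4 (s5_6 (x3_2 (x3_1 (x3_0 (s1_2 (n5 (n4 p704_20))))))))),
   x7_6 (x7_5 (x7_4 (s5_6 (x3_2 (x3_1 (x3_0 (s1_2 (n5 (n4 p704_22))))))))),
   x7_6 (x7_5 (x7_4 (s5_6 (x3_2 (x3_1 (x3_0 (s1_2 (n5 (n4 p704_17))))))))),
   x7_6 (x7_5 (x7_4 (s5_6 (x3_2 (x3_1 (x3_0 (s1_2 (n5 (n4 p704_19))))))))),
   x7_6 (x7_5 (x7_4 (s5_6 (x3_2 (x3_1 (x3_0 (s1_2 (n5 (n4 p704_16))))))))),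
   x7_6 (x7_5 (x7_4 (s5_6 (x3_2 (x3_1 (x3_0 (s1_2 (n5 (n4 p704_18)))))))))],
  [x7_6 (x7_5 (x7_4 (s5_6 (x3_2 (x3_1 (x3_0 (s1_2 (n5 p704_30)))))))),
   x7_6 (x7_5 (x7_4 (s5_6 (x3_2 (x3_1 (x3_0 (s1_2 (n5 p704_28)))))))),
   x7_6 (x7_5 (x7_4 (s5_6 (x3_2 (x3_1 (x3_0 (s1_2 (n5 p704_31)))))))),
   x7_6 (x7_5 (x7_4 (s5_6 (x3_2 (x3_1 (x3_0 (s1_2 (n5 p704_29)))))))),
   x7_6 (x7_5 (x7_4 (s5_6 (x3_2 (x3_1 (x3_0 (s1_2 (n5 p704_26)))))))),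
   x7_6 (x7_5 (x7_4 (s5_6 (x3_2 (x3_1 (x3_0 (s1_2 (n5 p704_24)))))))),
   x7_6 (x7_5 (x7_4 (s5_6 (x3_2 (x3_1 (x3_0 (s1_2 (n5 p704_27)))))))),
   x7_6 (x7_5 (x7_4 (s5_6 (x3_2 (x3_1 (x3_0 (s1_2 (n5 p704_25))))))))],
  [p704_48,
   p704_49,
   p704_50,
   x7_6 (x7_5 (x7_4 (s5_6 (x3_2 (x3_1 (x3_0 (s1_2 (n6 (n5 (n4 p704_48)))))))))),
   p704_52,
   p704_53,
   p704_54,
   x7_6 (x7_5 (x7_4 (s5_6 (x3_2 (x3_1 (x3_0 (s1_2 (n6 (n5 (n4 p704_52))))))))))],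
  [p704_56,
   p704_57,
   x7_6 (x7_5 (x7_4 (s5_6 (x3_2 (x3_1 (x3_0 (s1_2 (n6 (n5 p704_57))))))))),
   p704_59,
   p704_60,
   p704_61,
   x7_6 (x7_5 (x7_4 (s5_6 (x3_2 (x3_1 (x3_0 (s1_2 (n6 (n5 p704_61))))))))),
   p704_63]]

theorem k704 : eqNN c704 (slO 64 (D.chG 209 13) 8) = true := by decide +kernel

/-- The slices of the chunk 705. -/
noncomputable def c705 : List (List ℕ) := [
  [tr p694_14,
   p705_1,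
   x7_6 (x7_5 (x7_4 (s5_6 (x3_2 (x3_1 (x3_0 (s1_2 (n4 p705_1)))))))),
   tr p696_14,
   tr p697_14,
   p705_5,
   x7_6 (x7_5 (x7_4 (s5_6 (x3_2 (x3_1 (x3_0 (s1_2 (n4 p705_5)))))))),
   tr p699_14],
  [p705_8,
   tr p701_14,
   tr p702_14,
   x7_6 (x7_5 (x7_4 (s5_6 (x3_2 (x3_1 (x3_0 (s1_2 p705_8))))))),
   p705_12,
   tr p704_14,
   p705_14,
   x7_6 (x7_5 (x7_4 (s5_6 (x3_2 (x3_1 (x3_0 (s1_2 p705_12)))))))],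
  [p705_16,
   p705_17,
   p705_18,
   p705_19,
   p705_20,
   p705_21,
   p705_22,
   p705_23],
  [p705_24,
   p705_25,
   p705_26,
   p705_27,
   p705_28,
   p705_29,
   p705_30,
   p705_31],
  [x7_6 (x7_5 (x7_4 (s5_6 (x3_2 (x3_1 (x3_0 (s1_2 (n5 (n4 p705_21))))))))),
   x7_6 (x7_5 (x7_4 (s5_6 (x3_2 (x3_1 (x3_0 (s1_2 (n5 (n4 p705_23))))))))),
   x7_6 (x7_5 (x7_4 (s5_6 (x3_2 (x3_1 (x3_0 (s1_2 (n5 (n4 p705_20))))))))),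
   x7_6 (x7_5 (x7_4 (s5_6 (x3_2 (x3_1 (x3_0 (s1_2 (n5 (n4 p705_22))))))))),
   x7_6 (x7_5 (x7_4 (s5_6 (x3_2 (x3_1 (x3_0 (s1_2 (n5 (n4 p705_17))))))))),
   x7_6 (x7_5 (x7_4 (s5_6 (x3_2 (x3_1 (x3_0 (s1_2 (n5 (n4 p705_19))))))))),
   x7_6 (x7_5 (x7_4 (s5_6 (x3_2 (x3_1 (x3_0 (s1_2 (n5 (n4 p705_16))))))))),
   x7_6 (x7_5 (x7_4 (s5_6 (x3_2 (x3_1 (x3_0 (s1_2 (n5 (n4 p705_18)))))))))],
  [x7_6 (x7_5 (x7_4 (s5_6 (x3_2 (x3_1 (x3_0 (s1_2 (n5 p705_30)))))))),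
   x7_6 (x7_5 (x7_4 (s5_6 (x3_2 (x3_1 (x3_0 (s1_2 (n5 p705_28)))))))),
   x7_6 (x7_5 (x7_4 (s5_6 (x3_2 (x3_1 (x3_0 (s1_2 (n5 p705_31)))))))),
   x7_6 (x7_5 (x7_4 (s5_6 (x3_2 (x3_1 (x3_0 (s1_2 (n5 p705_29)))))))),
   x7_6 (x7_5 (x7_4 (s5_6 (x3_2 (x3_1 (x3_0 (s1_2 (n5 p705_26)))))))),
   x7_6 (x7_5 (x7_4 (s5_6 (x3_2 (x3_1 (x3_0 (s1_2 (n5 p705_24)))))))),
   x7_6 (x7_5 (x7_4 (s5_6 (x3_2 (x3_1 (x3_0 (s1_2 (n5 p705_27)))))))),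
   x7_6 (x7_5 (x7_4 (s5_6 (x3_2 (x3_1 (x3_0 (s1_2 (n5 p705_25))))))))],
  [p705_48,
   p705_49,
   p705_50,
   x7_6 (x7_5 (x7_4 (s5_6 (x3_2 (x3_1 (x3_0 (s1_2 (n6 (n5 (n4 p705_48)))))))))),
   p705_52,
   p705_53,
   p705_54,
   x7_6 (x7_5 (x7_4 (s5_6 (x3_2 (x3_1 (x3_0 (s1_2 (n6 (n5 (n4 p705_52))))))))))],
  [p705_56,
   p705_57,
   x7_6 (x7_5 (x7_4 (s5_6 (x3_2 (x3_1 (x3_0 (s1_2 (n6 (n5 p705_57))))))))),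
   p705_59,
   p705_60,
   p705_61,
   x7_6 (x7_5 (x7_4 (s5_6 (x3_2 (x3_1 (x3_0 (s1_2 (n6 (n5 p705_61))))))))),
   p705_63]]

theorem k705 : eqNN c705 (slO 64 (D.chG 209 14) 8) = true := by decide +kernel

/-- The slices of the chunk 706. -/
noncomputable def c706 : List (List ℕ) := [
  [tr p694_16,
   tr p695_16,
   x7_6 (x7_5 (x7_4 (x3_2 (x3_1 (x3_0 (s3_7 (s2_5 (s1_6 (s0_4 (n6 (n4 (n0 p695_38)))))))))))),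
   tr p696_16,
   tr p697_16,
   tr p698_16,
   x7_6 (x7_5 (x7_4 (x3_2 (x3_1 (x3_0 (s3_7 (s2_5 (s1_6 (s0_4 (n6 (n4 (n0 p698_38)))))))))))),
   tr p699_16],
  [tr p700_16,
   tr p701_16,
   tr p702_16,
   x7_6 (x7_5 (x7_4 (x3_2 (x3_1 (x3_0 (s3_7 (s2_5 (s1_6 (s0_4 (n6 (n4 p700_38))))))))))),
   tr p703_16,
   tr p704_16,
   tr p705_16,
   x7_6 (x7_5 (x7_4 (x3_2 (x3_1 (x3_0 (s3_7 (s2_5 (s1_6 (s0_4 (n6 (n4 p703_38)))))))))))],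
  [p706_16,
   p706_17,
   p706_18,
   p706_19,
   p706_20,
   p706_21,
   p706_22,
   p706_23],
  [p706_24,
   p706_25,
   p706_26,
   p706_27,
   p706_28,
   p706_29,
   p706_30,
   p706_31],
  [p706_32,
   p706_33,
   p706_34,
   p706_35,
   p706_36,
   p706_37,
   p706_38,
   p706_39],
  [p706_40,
   p706_41,
   p706_42,
   p706_43,
   p706_44,
   p706_45,
   p706_46,
   p706_47],
  [p706_48,
   tr p723_16,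
   tr p724_16,
   p706_51,
   p706_52,
   tr p726_16,
   tr p727_16,
   p706_55],
  [tr p728_16,
   p706_57,
   p706_58,
   tr p730_16,
   tr p731_16,
   p706_61,
   p706_62,
   tr p733_16]]

theorem k706 : eqNN c706 (slO 64 (D.chG 209 16) 8) = true := by decide +kernel

/-- The slices of the chunk 707. -/
noncomputable def c707 : List (List ℕ) := [
  [tr p694_17,
   tr p695_17,
   x7_6 (x7_5 (x7_4 (x3_2 (x3_1 (x3_0 (s3_7 (s2_5 (s1_6 (s0_4 (n6 (n4 (n0 p695_36)))))))))))),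
   tr p696_17,
   tr p697_17,
   tr p698_17,
   x7_6 (x7_5 (x7_4 (x3_2 (x3_1 (x3_0 (s3_7 (s2_5 (s1_6 (s0_4 (n6 (n4 (n0 p698_36)))))))))))),
   tr p699_17],
  [tr p700_17,
   tr p701_17,
   tr p702_17,
   x7_6 (x7_5 (x7_4 (x3_2 (x3_1 (x3_0 (s3_7 (s2_5 (s1_6 (s0_4 (n6 (n4 p700_36))))))))))),
   tr p703_17,
   tr p704_17,
   tr p705_17,
   x7_6 (x7_5 (x7_4 (x3_2 (x3_1 (x3_0 (s3_7 (s2_5 (s1_6 (s0_4 (n6 (n4 p703_36)))))))))))],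
  [tr p706_17,
   p707_17,
   p707_18,
   p707_19,
   p707_20,
   p707_21,
   p707_22,
   p707_23],
  [p707_24,
   p707_25,
   p707_26,
   p707_27,
   p707_28,
   p707_29,
   p707_30,
   p707_31],
  [p707_32,
   p707_33,
   p707_34,
   p707_35,
   p707_36,
   p707_37,
   x7_6 (x7_5 (x7_4 (x3_2 (x3_1 (x3_0 (s3_7 (s2_5 (s1_6 (s0_4 (n6 (n4 (n1 (n0 p706_36))))))))))))),
   p707_39],
  [p707_40,
   p707_41,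
   p707_42,
   p707_43,
   p707_44,
   p707_45,
   p707_46,
   p707_47],
  [p707_48,
   tr p723_17,
   tr p724_17,
   p707_51,
   p707_52,
   tr p726_17,
   tr p727_17,
   p707_55],
  [tr p728_17,
   p707_57,
   p707_58,
   tr p730_17,
   tr p731_17,
   p707_61,
   p707_62,
   tr p733_17]]

theorem k707 : eqNN c707 (slO 64 (D.chG 209 17) 8) = true := by decide +kernel

end Pool.Agent.Lib.MP_afdd4d_co.K10.E6
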