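import Pool.Agent.Lib.MP_afdd4d_co.K10.E6.Dat
import Pool.Agent.Lib.MP_afdd4d_co.K10.E6.Mk
import Pool.Agent.Lib.MP_afdd4d_co.K8.F6Bl5
import Pool.Agent.Lib.MP_afdd4d_co.K10.E6.P0
import Pool.Agent.Lib.MP_afdd4d_co.K10.E6.P1
import Pool.Agent.Lib.MP_afdd4d_co.K10.E6.P2
import Pool.Agent.Lib.MP_afdd4d_co.K10.E6.P3
import Pool.Agent.Lib.MP_afdd4d_co.K10.E6.P4
import Pool.Agent.Lib.MP_afdd4d_co.K10.E6.P5
import Pool.Agent.Lib.MP_afdd4d_co.K10.E6.P6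
import Pool.Agent.Lib.MP_afdd4d_co.K10.E6.P7
import Pool.Agent.Lib.MP_afdd4d_co.K10.E6.P8
import Pool.Agent.Lib.MP_afdd4d_co.K10.E6.P9
import Pool.Agent.Lib.MP_afdd4d_co.K10.E6.P10
import Pool.Agent.Lib.MP_afdd4d_co.K10.E6.P11
import Pool.Agent.Lib.MP_afdd4d_co.K10.E6.P12
import Pool.Agent.Lib.MP_afdd4d_co.K10.E6.P13
import Pool.Agent.Lib.MP_afdd4d_co.K10.E6.P14
import Pool.Agent.Lib.MP_afdd4d_co.K10.E6.P15
import Pool.Agent.Lib.MP_afdd4d_co.K10.E6.P16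
import Pool.Agent.Lib.MP_afdd4d_co.K10.E6.P17
import Pool.Agent.Lib.MP_afdd4d_co.K10.E6.P18
import Pool.Agent.Lib.MP_afdd4d_co.K10.E6.P19
import Pool.Agent.Lib.MP_afdd4d_co.K10.E6.P20
import Pool.Agent.Lib.MP_afdd4d_co.K10.E6.P21
import Pool.Agent.Lib.MP_afdd4d_co.K10.E6.P22
import Pool.Agent.Lib.MP_afdd4d_co.K10.E6.P23
import Pool.Agent.Lib.MP_afdd4d_co.K10.E6.P24
import Pool.Agent.Lib.MP_afdd4d_co.K10.E6.P25
import Pool.Agent.Lib.MP_afdd4d_co.K10.E6.P26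
import Pool.Agent.Lib.MP_afdd4d_co.K10.E6.P27
import Pool.Agent.Lib.MP_afdd4d_co.K10.E6.P28
import Pool.Agent.Lib.MP_afdd4d_co.K10.E6.P29
import Pool.Agent.Lib.MP_afdd4d_co.K10.E6.P30
import Pool.Agent.Lib.MP_afdd4d_co.K10.E6.P31
import Pool.Agent.Lib.MP_afdd4d_co.K10.E6.P32

/-!
# Tables
-/

namespace Pool.Agent.Lib.MP_afdd4d_co.K10.E6

open K8

set_option maxRecDepth 100000
set_option exponentiation.threshold 10000000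

/-- The slices of the chunk 708. -/
noncomputable def c708 : List (List ℕ) := [
  [tr p694_18,
   tr p695_18,
   x7_6 (x7_5 (x7_4 (x3_2 (x3_1 (x3_0 (s3_7 (s2_5 (s1_6 (s0_4 (n6 (n4 (n0 p695_39)))))))))))),
   tr p696_18,
   tr p697_18,
   tr p698_18,
   x7_6 (x7_5 (x7_4 (x3_2 (x3_1 (x3_0 (s3_7 (s2_5 (s1_6 (s0_4 (n6 (n4 (n0 p698_39)))))))))))),
   tr p699_18],
  [tr p700_18,
   tr p701_18,
   tr p702_18,
   x7_6 (x7_5 (x7_4 (x3_2 (x3_1 (x3_0 (s3_7 (s2_5 (s1_6 (s0_4 (n6 (n4 p700_39))))))))))),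
   tr p703_18,
   tr p704_18,
   tr p705_18,
   x7_6 (x7_5 (x7_4 (x3_2 (x3_1 (x3_0 (s3_7 (s2_5 (s1_6 (s0_4 (n6 (n4 p703_39)))))))))))],
  [tr p706_18,
   tr p707_18,
   p708_18,
   p708_19,
   p708_20,
   p708_21,
   p708_22,
   p708_23],
  [p708_24,
   p708_25,
   p708_26,
   p708_27,
   p708_28,
   p708_29,
   p708_30,
   p708_31],
  [p708_32,
   p708_33,
   p708_34,
   p708_35,
   x7_6 (x7_5 (x7_4 (x3_2 (x3_1 (x3_0 (s3_7 (s2_5 (s1_6 (s0_4 (n6 (n4 (n1 (n0 p707_39))))))))))))),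
   p708_37,
   x7_6 (x7_5 (x7_4 (x3_2 (x3_1 (x3_0 (s3_7 (s2_5 (s1_6 (s0_4 (n6 (n4 (n1 (n0 p706_39))))))))))))),
   p708_39],
  [p708_40,
   p708_41,
   p708_42,
   p708_43,
   p708_44,
   p708_45,
   p708_46,
   p708_47],
  [p708_48,
   tr p723_18,
   tr p724_18,
   p708_51,
   p708_52,
   tr p726_18,
   tr p727_18,
   p708_55],
  [tr p728_18,
   p708_57,
   p708_58,
   tr p730_18,
   tr p731_18,
   p708_61,
   p708_62,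
   tr p733_18]]

theorem k708 : eqNN c708 (slO 64 (D.chG 209 18) 8) = true := by decide +kernel

/-- The slices of the chunk 709. -/
noncomputable def c709 : List (List ℕ) := [
  [tr p694_19,
   tr p695_19,
   x7_6 (x7_5 (x7_4 (x3_2 (x3_1 (x3_0 (s3_7 (s2_5 (s1_6 (s0_4 (n6 (n4 (n0 p695_37)))))))))))),
   tr p696_19,
   tr p697_19,
   tr p698_19,
   x7_6 (x7_5 (x7_4 (x3_2 (x3_1 (x3_0 (s3_7 (s2_5 (s1_6 (s0_4 (n6 (n4 (n0 p698_37)))))))))))),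
   tr p699_19],
  [tr p700_19,
   tr p701_19,
   tr p702_19,
   x7_6 (x7_5 (x7_4 (x3_2 (x3_1 (x3_0 (s3_7 (s2_5 (s1_6 (s0_4 (n6 (n4 p700_37))))))))))),
   tr p703_19,
   tr p704_19,
   tr p705_19,
   x7_6 (x7_5 (x7_4 (x3_2 (x3_1 (x3_0 (s3_7 (s2_5 (s1_6 (s0_4 (n6 (n4 p703_37)))))))))))],
  [tr p706_19,
   tr p707_19,
   tr p708_19,
   p709_19,
   p709_20,
   p709_21,
   p709_22,
   p709_23],
  [p709_24,
   p709_25,
   p709_26,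
   p709_27,
   p709_28,
   p709_29,
   p709_30,
   p709_31],
  [p709_32,
   p709_33,
   p709_34,
   p709_35,
   x7_6 (x7_5 (x7_4 (x3_2 (x3_1 (x3_0 (s3_7 (s2_5 (s1_6 (s0_4 (n6 (n4 (n1 (n0 p707_37))))))))))))),
   p709_37,
   x7_6 (x7_5 (x7_4 (x3_2 (x3_1 (x3_0 (s3_7 (s2_5 (s1_6 (s0_4 (n6 (n4 (n1 (n0 p706_37))))))))))))),
   x7_6 (x7_5 (x7_4 (x3_2 (x3_1 (x3_0 (s3_7 (s2_5 (s1_6 (s0_4 (n6 (n4 (n1 (n0 p708_37)))))))))))))],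
  [p709_40,
   p709_41,
   p709_42,
   p709_43,
   p709_44,
   p709_45,
   p709_46,
   p709_47],
  [p709_48,
   tr p723_19,
   tr p724_19,
   p709_51,
   p709_52,
   tr p726_19,
   tr p727_19,
   p709_55],
  [tr p728_19,
   p709_57,
   p709_58,
   tr p730_19,
   tr p731_19,
   p709_61,
   p709_62,
   tr p733_19]]

theorem k709 : eqNN c709 (slO 64 (D.chG 209 19) 8) = true := by decide +kernel

/-- The slices of the chunk 710. -/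
noncomputable def c710 : List (List ℕ) := [
  [tr p694_20,
   tr p695_20,
   x7_6 (x7_5 (x7_4 (x3_2 (x3_1 (x3_0 (s3_7 (s2_5 (s1_6 (s0_4 (n6 (n4 (n0 p695_34)))))))))))),
   tr p696_20,
   tr p697_20,
   tr p698_20,
   x7_6 (x7_5 (x7_4 (x3_2 (x3_1 (x3_0 (s3_7 (s2_5 (s1_6 (s0_4 (n6 (n4 (n0 p698_34)))))))))))),
   tr p699_20],
  [tr p700_20,
   tr p701_20,
   tr p702_20,
   x7_6 (x7_5 (x7_4 (x3_2 (x3_1 (x3_0 (s3_7 (s2_5 (s1_6 (s0_4 (n6 (n4 p700_34))))))))))),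
   tr p703_20,
   tr p704_20,
   tr p705_20,
   x7_6 (x7_5 (x7_4 (x3_2 (x3_1 (x3_0 (s3_7 (s2_5 (s1_6 (s0_4 (n6 (n4 p703_34)))))))))))],
  [tr p706_20,
   tr p707_20,
   tr p708_20,
   tr p709_20,
   p710_20,
   p710_21,
   p710_22,
   p710_23],
  [p710_24,
   p710_25,
   p710_26,
   p710_27,
   p710_28,
   p710_29,
   p710_30,
   p710_31],
  [p710_32,
   p710_33,
   p710_34,
   p710_35,
   x7_6 (x7_5 (x7_4 (x3_2 (x3_1 (x3_0 (s3_7 (s2_5 (s1_6 (s0_4 (n6 (n4 (n1 (n0 p707_34))))))))))))),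
   x7_6 (x7_5 (x7_4 (x3_2 (x3_1 (x3_0 (s3_7 (s2_5 (s1_6 (s0_4 (n6 (n4 (n1 (n0 p709_34))))))))))))),
   x7_6 (x7_5 (x7_4 (x3_2 (x3_1 (x3_0 (s3_7 (s2_5 (s1_6 (s0_4 (n6 (n4 (n1 (n0 p706_34))))))))))))),
   x7_6 (x7_5 (x7_4 (x3_2 (x3_1 (x3_0 (s3_7 (s2_5 (s1_6 (s0_4 (n6 (n4 (n1 (n0 p708_34)))))))))))))],
  [p710_40,
   p710_41,
   p710_42,
   p710_43,
   p710_44,
   p710_45,
   p710_46,
   p710_47],
  [p710_48,
   tr p723_20,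
   tr p724_20,
   p710_51,
   p710_52,
   tr p726_20,
   tr p727_20,
   p710_55],
  [tr p728_20,
   p710_57,
   p710_58,
   tr p730_20,
   tr p731_20,
   p710_61,
   p710_62,
   tr p733_20]]

theorem k710 : eqNN c710 (slO 64 (D.chG 209 20) 8) = true := by decide +kernel

/-- The slices of the chunk 711. -/
noncomputable def c711 : List (List ℕ) := [
  [tr p694_21,
   tr p695_21,
   x7_6 (x7_5 (x7_4 (x3_2 (x3_1 (x3_0 (s3_7 (s2_5 (s1_6 (s0_4 (n6 (n4 (n0 p695_32)))))))))))),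
   tr p696_21,
   tr p697_21,
   tr p698_21,
   x7_6 (x7_5 (x7_4 (x3_2 (x3_1 (x3_0 (s3_7 (s2_5 (s1_6 (s0_4 (n6 (n4 (n0 p698_32)))))))))))),
   tr p699_21],
  [tr p700_21,
   tr p701_21,
   tr p702_21,
   x7_6 (x7_5 (x7_4 (x3_2 (x3_1 (x3_0 (s3_7 (s2_5 (s1_6 (s0_4 (n6 (n4 p700_32))))))))))),
   tr p703_21,
   tr p704_21,
   tr p705_21,
   x7_6 (x7_5 (x7_4 (x3_2 (x3_1 (x3_0 (s3_7 (s2_5 (s1_6 (s0_4 (n6 (n4 p703_32)))))))))))],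
  [tr p706_21,
   tr p707_21,
   tr p708_21,
   tr p709_21,
   tr p710_21,
   p711_21,
   p711_22,
   p711_23],
  [p711_24,
   p711_25,
   p711_26,
   p711_27,
   p711_28,
   p711_29,
   p711_30,
   p711_31],
  [p711_32,
   p711_33,
   x7_6 (x7_5 (x7_4 (x3_2 (x3_1 (x3_0 (s3_7 (s2_5 (s1_6 (s0_4 (n6 (n4 (n1 (n0 p710_32))))))))))))),
   p711_35,
   x7_6 (x7_5 (x7_4 (x3_2 (x3_1 (x3_0 (s3_7 (s2_5 (s1_6 (s0_4 (n6 (n4 (n1 (n0 p707_32))))))))))))),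
   x7_6 (x7_5 (x7_4 (x3_2 (x3_1 (x3_0 (s3_7 (s2_5 (s1_6 (s0_4 (n6 (n4 (n1 (n0 p709_32))))))))))))),
   x7_6 (x7_5 (x7_4 (x3_2 (x3_1 (x3_0 (s3_7 (s2_5 (s1_6 (s0_4 (n6 (n4 (n1 (n0 p706_32))))))))))))),
   x7_6 (x7_5 (x7_4 (x3_2 (x3_1 (x3_0 (s3_7 (s2_5 (s1_6 (s0_4 (n6 (n4 (n1 (n0 p708_32)))))))))))))],
  [p711_40,
   p711_41,
   p711_42,
   p711_43,
   p711_44,
   p711_45,
   p711_46,
   p711_47],
  [p711_48,
   tr p723_21,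
   tr p724_21,
   p711_51,
   p711_52,
   tr p726_21,
   tr p727_21,
   p711_55],
  [tr p728_21,
   p711_57,
   p711_58,
   tr p730_21,
   tr p731_21,
   p711_61,
   p711_62,
   tr p733_21]]

theorem k711 : eqNN c711 (slO 64 (D.chG 209 21) 8) = true := by decide +kernel

end Pool.Agent.Lib.MP_afdd4d_co.K10.E6
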