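import Pool.Agent.Lib.MP_afdd4d_co.K10.E6.Dat
import Pool.Agent.Lib.MP_afdd4d_co.K10.E6.Mk
import Pool.Agent.Lib.MP_afdd4d_co.K8.F6Bl5
import Pool.Agent.Lib.MP_afdd4d_co.K10.E6.P0
import Pool.Agent.Lib.MP_afdd4d_co.K10.E6.P1
import Pool.Agent.Lib.MP_afdd4d_co.K10.E6.P2
import Pool.Agent.Lib.MP_afdd4d_co.K10.E6.P3
import Pool.Agent.Lib.MP_afdd4d_co.K10.E6.P4
import Pool.Agent.Lib.MP_afdd4d_co.K10.E6.P5
import Pool.Agent.Lib.MP_afdd4d_co.K10.E6.P6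
import Pool.Agent.Lib.MP_afdd4d_co.K10.E6.P7
import Pool.Agent.Lib.MP_afdd4d_co.K10.E6.P8
import Pool.Agent.Lib.MP_afdd4d_co.K10.E6.P9
import Pool.Agent.Lib.MP_afdd4d_co.K10.E6.P10
import Pool.Agent.Lib.MP_afdd4d_co.K10.E6.P11
import Pool.Agent.Lib.MP_afdd4d_co.K10.E6.P12
import Pool.Agent.Lib.MP_afdd4d_co.K10.E6.P13
import Pool.Agent.Lib.MP_afdd4d_co.K10.E6.P14
import Pool.Agent.Lib.MP_afdd4d_co.K10.E6.P15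
import Pool.Agent.Lib.MP_afdd4d_co.K10.E6.P16
import Pool.Agent.Lib.MP_afdd4d_co.K10.E6.P17
import Pool.Agent.Lib.MP_afdd4d_co.K10.E6.P18
import Pool.Agent.Lib.MP_afdd4d_co.K10.E6.P19
import Pool.Agent.Lib.MP_afdd4d_co.K10.E6.P20
import Pool.Agent.Lib.MP_afdd4d_co.K10.E6.P21
import Pool.Agent.Lib.MP_afdd4d_co.K10.E6.P22
import Pool.Agent.Lib.MP_afdd4d_co.K10.E6.P23
import Pool.Agent.Lib.MP_afdd4d_co.K10.E6.P24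
import Pool.Agent.Lib.MP_afdd4d_co.K10.E6.P25
import Pool.Agent.Lib.MP_afdd4d_co.K10.E6.P26
import Pool.Agent.Lib.MP_afdd4d_co.K10.E6.P27
import Pool.Agent.Lib.MP_afdd4d_co.K10.E6.P28
import Pool.Agent.Lib.MP_afdd4d_co.K10.E6.P29
import Pool.Agent.Lib.MP_afdd4d_co.K10.E6.P30
import Pool.Agent.Lib.MP_afdd4d_co.K10.E6.P31
import Pool.Agent.Lib.MP_afdd4d_co.K10.E6.P32

/-!
# Tables
-/

namespace Pool.Agent.Lib.MP_afdd4d_co.K10.E6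

open K8

set_option maxRecDepth 100000
set_option exponentiation.threshold 10000000

/-- The slices of the chunk 712. -/
noncomputable def c712 : List (List ℕ) := [
  [tr p694_22,
   tr p695_22,
   x7_6 (x7_5 (x7_4 (x3_2 (x3_1 (x3_0 (s3_7 (s2_5 (s1_6 (s0_4 (n6 (n4 (n0 p695_35)))))))))))),
   tr p696_22,
   tr p697_22,
   tr p698_22,
   x7_6 (x7_5 (x7_4 (x3_2 (x3_1 (x3_0 (s3_7 (s2_5 (s1_6 (s0_4 (n6 (n4 (n0 p698_35)))))))))))),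
   tr p699_22],
  [tr p700_22,
   tr p701_22,
   tr p702_22,
   x7_6 (x7_5 (x7_4 (x3_2 (x3_1 (x3_0 (s3_7 (s2_5 (s1_6 (s0_4 (n6 (n4 p700_35))))))))))),
   tr p703_22,
   tr p704_22,
   tr p705_22,
   x7_6 (x7_5 (x7_4 (x3_2 (x3_1 (x3_0 (s3_7 (s2_5 (s1_6 (s0_4 (n6 (n4 p703_35)))))))))))],
  [tr p706_22,
   tr p707_22,
   tr p708_22,
   tr p709_22,
   tr p710_22,
   tr p711_22,
   p712_22,
   p712_23],
  [p712_24,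
   p712_25,
   p712_26,
   p712_27,
   p712_28,
   p712_29,
   p712_30,
   p712_31],
  [x7_6 (x7_5 (x7_4 (x3_2 (x3_1 (x3_0 (s3_7 (s2_5 (s1_6 (s0_4 (n6 (n4 (n1 (n0 p711_35))))))))))))),
   p712_33,
   x7_6 (x7_5 (x7_4 (x3_2 (x3_1 (x3_0 (s3_7 (s2_5 (s1_6 (s0_4 (n6 (n4 (n1 (n0 p710_35))))))))))))),
   p712_35,
   x7_6 (x7_5 (x7_4 (x3_2 (x3_1 (x3_0 (s3_7 (s2_5 (s1_6 (s0_4 (n6 (n4 (n1 (n0 p707_35))))))))))))),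
   x7_6 (x7_5 (x7_4 (x3_2 (x3_1 (x3_0 (s3_7 (s2_5 (s1_6 (s0_4 (n6 (n4 (n1 (n0 p709_35))))))))))))),
   x7_6 (x7_5 (x7_4 (x3_2 (x3_1 (x3_0 (s3_7 (s2_5 (s1_6 (s0_4 (n6 (n4 (n1 (n0 p706_35))))))))))))),
   x7_6 (x7_5 (x7_4 (x3_2 (x3_1 (x3_0 (s3_7 (s2_5 (s1_6 (s0_4 (n6 (n4 (n1 (n0 p708_35)))))))))))))],
  [p712_40,
   p712_41,
   p712_42,
   p712_43,
   p712_44,
   p712_45,
   p712_46,
   p712_47],
  [p712_48,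
   tr p723_22,
   tr p724_22,
   p712_51,
   p712_52,
   tr p726_22,
   tr p727_22,
   p712_55],
  [tr p728_22,
   p712_57,
   p712_58,
   tr p730_22,
   tr p731_22,
   p712_61,
   p712_62,
   tr p733_22]]

theorem k712 : eqNN c712 (slO 64 (D.chG 209 22) 8) = true := by decide +kernel

/-- The slices of the chunk 713. -/
noncomputable def c713 : List (List ℕ) := [
  [tr p694_23,
   tr p695_23,
   x7_6 (x7_5 (x7_4 (x3_2 (x3_1 (x3_0 (s3_7 (s2_5 (s1_6 (s0_4 (n6 (n4 (n0 p695_33)))))))))))),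
   tr p696_23,
   tr p697_23,
   tr p698_23,
   x7_6 (x7_5 (x7_4 (x3_2 (x3_1 (x3_0 (s3_7 (s2_5 (s1_6 (s0_4 (n6 (n4 (n0 p698_33)))))))))))),
   tr p699_23],
  [tr p700_23,
   tr p701_23,
   tr p702_23,
   x7_6 (x7_5 (x7_4 (x3_2 (x3_1 (x3_0 (s3_7 (s2_5 (s1_6 (s0_4 (n6 (n4 p700_33))))))))))),
   tr p703_23,
   tr p704_23,
   tr p705_23,
   x7_6 (x7_5 (x7_4 (x3_2 (x3_1 (x3_0 (s3_7 (s2_5 (s1_6 (s0_4 (n6 (n4 p703_33)))))))))))],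
  [tr p706_23,
   tr p707_23,
   tr p708_23,
   tr p709_23,
   tr p710_23,
   tr p711_23,
   tr p712_23,
   p713_23],
  [p713_24,
   p713_25,
   p713_26,
   p713_27,
   p713_28,
   p713_29,
   p713_30,
   p713_31],
  [x7_6 (x7_5 (x7_4 (x3_2 (x3_1 (x3_0 (s3_7 (s2_5 (s1_6 (s0_4 (n6 (n4 (n1 (n0 p711_33))))))))))))),
   p713_33,
   x7_6 (x7_5 (x7_4 (x3_2 (x3_1 (x3_0 (s3_7 (s2_5 (s1_6 (s0_4 (n6 (n4 (n1 (n0 p710_33))))))))))))),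
   x7_6 (x7_5 (x7_4 (x3_2 (x3_1 (x3_0 (s3_7 (s2_5 (s1_6 (s0_4 (n6 (n4 (n1 (n0 p712_33))))))))))))),
   x7_6 (x7_5 (x7_4 (x3_2 (x3_1 (x3_0 (s3_7 (s2_5 (s1_6 (s0_4 (n6 (n4 (n1 (n0 p707_33))))))))))))),
   x7_6 (x7_5 (x7_4 (x3_2 (x3_1 (x3_0 (s3_7 (s2_5 (s1_6 (s0_4 (n6 (n4 (n1 (n0 p709_33))))))))))))),
   x7_6 (x7_5 (x7_4 (x3_2 (x3_1 (x3_0 (s3_7 (s2_5 (s1_6 (s0_4 (n6 (n4 (n1 (n0 p706_33))))))))))))),
   x7_6 (x7_5 (x7_4 (x3_2 (x3_1 (x3_0 (s3_7 (s2_5 (s1_6 (s0_4 (n6 (n4 (n1 (n0 p708_33)))))))))))))],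
  [p713_40,
   p713_41,
   p713_42,
   p713_43,
   p713_44,
   p713_45,
   p713_46,
   p713_47],
  [p713_48,
   tr p723_23,
   tr p724_23,
   p713_51,
   p713_52,
   tr p726_23,
   tr p727_23,
   p713_55],
  [tr p728_23,
   p713_57,
   p713_58,
   tr p730_23,
   tr p731_23,
   p713_61,
   p713_62,
   tr p733_23]]

theorem k713 : eqNN c713 (slO 64 (D.chG 209 23) 8) = true := by decide +kernel

/-- The slices of the chunk 714. -/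
noncomputable def c714 : List (List ℕ) := [
  [tr p694_24,
   tr p695_24,
   x7_6 (x7_5 (x7_4 (x3_2 (x3_1 (x3_0 (s3_7 (s2_5 (s1_6 (s0_4 (n6 (n0 p695_45))))))))))),
   tr p696_24,
   tr p697_24,
   tr p698_24,
   x7_6 (x7_5 (x7_4 (x3_2 (x3_1 (x3_0 (s3_7 (s2_5 (s1_6 (s0_4 (n6 (n0 p698_45))))))))))),
   tr p699_24],
  [tr p700_24,
   tr p701_24,
   tr p702_24,
   x7_6 (x7_5 (x7_4 (x3_2 (x3_1 (x3_0 (s3_7 (s2_5 (s1_6 (s0_4 (n6 p700_45)))))))))),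
   tr p703_24,
   tr p704_24,
   tr p705_24,
   x7_6 (x7_5 (x7_4 (x3_2 (x3_1 (x3_0 (s3_7 (s2_5 (s1_6 (s0_4 (n6 p703_45))))))))))],
  [tr p706_24,
   tr p707_24,
   tr p708_24,
   tr p709_24,
   tr p710_24,
   tr p711_24,
   tr p712_24,
   tr p713_24],
  [p714_24,
   p714_25,
   p714_26,
   p714_27,
   p714_28,
   p714_29,
   p714_30,
   p714_31],
  [x7_6 (x7_5 (x7_4 (x3_2 (x3_1 (x3_0 (s3_7 (s2_5 (s1_6 (s0_4 (n6 (n1 (n0 p711_45)))))))))))),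
   x7_6 (x7_5 (x7_4 (x3_2 (x3_1 (x3_0 (s3_7 (s2_5 (s1_6 (s0_4 (n6 (n1 (n0 p713_45)))))))))))),
   x7_6 (x7_5 (x7_4 (x3_2 (x3_1 (x3_0 (s3_7 (s2_5 (s1_6 (s0_4 (n6 (n1 (n0 p710_45)))))))))))),
   x7_6 (x7_5 (x7_4 (x3_2 (x3_1 (x3_0 (s3_7 (s2_5 (s1_6 (s0_4 (n6 (n1 (n0 p712_45)))))))))))),
   x7_6 (x7_5 (x7_4 (x3_2 (x3_1 (x3_0 (s3_7 (s2_5 (s1_6 (s0_4 (n6 (n1 (n0 p707_45)))))))))))),
   x7_6 (x7_5 (x7_4 (x3_2 (x3_1 (x3_0 (s3_7 (s2_5 (s1_6 (s0_4 (n6 (n1 (n0 p709_45)))))))))))),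
   x7_6 (x7_5 (x7_4 (x3_2 (x3_1 (x3_0 (s3_7 (s2_5 (s1_6 (s0_4 (n6 (n1 (n0 p706_45)))))))))))),
   x7_6 (x7_5 (x7_4 (x3_2 (x3_1 (x3_0 (s3_7 (s2_5 (s1_6 (s0_4 (n6 (n1 (n0 p708_45))))))))))))],
  [p714_40,
   p714_41,
   p714_42,
   p714_43,
   p714_44,
   p714_45,
   p714_46,
   p714_47],
  [p714_48,
   tr p723_24,
   tr p724_24,
   p714_51,
   p714_52,
   tr p726_24,
   tr p727_24,
   p714_55],
  [tr p728_24,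
   p714_57,
   p714_58,
   tr p730_24,
   tr p731_24,
   p714_61,
   p714_62,
   tr p733_24]]

theorem k714 : eqNN c714 (slO 64 (D.chG 209 24) 8) = true := by decide +kernel

/-- The slices of the chunk 715. -/
noncomputable def c715 : List (List ℕ) := [
  [tr p694_25,
   tr p695_25,
   x7_6 (x7_5 (x7_4 (x3_2 (x3_1 (x3_0 (s3_7 (s2_5 (s1_6 (s0_4 (n6 (n0 p695_47))))))))))),
   tr p696_25,
   tr p697_25,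
   tr p698_25,
   x7_6 (x7_5 (x7_4 (x3_2 (x3_1 (x3_0 (s3_7 (s2_5 (s1_6 (s0_4 (n6 (n0 p698_47))))))))))),
   tr p699_25],
  [tr p700_25,
   tr p701_25,
   tr p702_25,
   x7_6 (x7_5 (x7_4 (x3_2 (x3_1 (x3_0 (s3_7 (s2_5 (s1_6 (s0_4 (n6 p700_47)))))))))),
   tr p703_25,
   tr p704_25,
   tr p705_25,
   x7_6 (x7_5 (x7_4 (x3_2 (x3_1 (x3_0 (s3_7 (s2_5 (s1_6 (s0_4 (n6 p703_47))))))))))],
  [tr p706_25,
   tr p707_25,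
   tr p708_25,
   tr p709_25,
   tr p710_25,
   tr p711_25,
   tr p712_25,
   tr p713_25],
  [tr p714_25,
   p715_25,
   p715_26,
   p715_27,
   p715_28,
   p715_29,
   p715_30,
   p715_31],
  [x7_6 (x7_5 (x7_4 (x3_2 (x3_1 (x3_0 (s3_7 (s2_5 (s1_6 (s0_4 (n6 (n1 (n0 p711_47)))))))))))),
   x7_6 (x7_5 (x7_4 (x3_2 (x3_1 (x3_0 (s3_7 (s2_5 (s1_6 (s0_4 (n6 (n1 (n0 p713_47)))))))))))),
   x7_6 (x7_5 (x7_4 (x3_2 (x3_1 (x3_0 (s3_7 (s2_5 (s1_6 (s0_4 (n6 (n1 (n0 p710_47)))))))))))),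
   x7_6 (x7_5 (x7_4 (x3_2 (x3_1 (x3_0 (s3_7 (s2_5 (s1_6 (s0_4 (n6 (n1 (n0 p712_47)))))))))))),
   x7_6 (x7_5 (x7_4 (x3_2 (x3_1 (x3_0 (s3_7 (s2_5 (s1_6 (s0_4 (n6 (n1 (n0 p707_47)))))))))))),
   x7_6 (x7_5 (x7_4 (x3_2 (x3_1 (x3_0 (s3_7 (s2_5 (s1_6 (s0_4 (n6 (n1 (n0 p709_47)))))))))))),
   x7_6 (x7_5 (x7_4 (x3_2 (x3_1 (x3_0 (s3_7 (s2_5 (s1_6 (s0_4 (n6 (n1 (n0 p706_47)))))))))))),
   x7_6 (x7_5 (x7_4 (x3_2 (x3_1 (x3_0 (s3_7 (s2_5 (s1_6 (s0_4 (n6 (n1 (n0 p708_47))))))))))))],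
  [p715_40,
   p715_41,
   p715_42,
   p715_43,
   p715_44,
   x7_6 (x7_5 (x7_4 (x3_2 (x3_1 (x3_0 (s3_7 (s2_5 (s1_6 (s0_4 (n6 (n1 p714_47))))))))))),
   p715_46,
   p715_47],
  [p715_48,
   tr p723_25,
   tr p724_25,
   p715_51,
   p715_52,
   tr p726_25,
   tr p727_25,
   p715_55],
  [tr p728_25,
   p715_57,
   p715_58,
   tr p730_25,
   tr p731_25,
   p715_61,
   p715_62,
   tr p733_25]]

theorem k715 : eqNN c715 (slO 64 (D.chG 209 25) 8) = true := by decide +kernel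

end Pool.Agent.Lib.MP_afdd4d_co.K10.E6
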