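import Pool.Agent.Lib.MP_afdd4d_co.K10.E6.Dat
import Pool.Agent.Lib.MP_afdd4d_co.K10.E6.Mk
import Pool.Agent.Lib.MP_afdd4d_co.K8.F6Bl5
import Pool.Agent.Lib.MP_afdd4d_co.K10.E6.P0
import Pool.Agent.Lib.MP_afdd4d_co.K10.E6.P1
import Pool.Agent.Lib.MP_afdd4d_co.K10.E6.P2
import Pool.Agent.Lib.MP_afdd4d_co.K10.E6.P3
import Pool.Agent.Lib.MP_afdd4d_co.K10.E6.P4
import Pool.Agent.Lib.MP_afdd4d_co.K10.E6.P5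
import Pool.Agent.Lib.MP_afdd4d_co.K10.E6.P6
import Pool.Agent.Lib.MP_afdd4d_co.K10.E6.P7
import Pool.Agent.Lib.MP_afdd4d_co.K10.E6.P8
import Pool.Agent.Lib.MP_afdd4d_co.K10.E6.P9
import Pool.Agent.Lib.MP_afdd4d_co.K10.E6.P10
import Pool.Agent.Lib.MP_afdd4d_co.K10.E6.P11
import Pool.Agent.Lib.MP_afdd4d_co.K10.E6.P12
import Pool.Agent.Lib.MP_afdd4d_co.K10.E6.P13
import Pool.Agent.Lib.MP_afdd4d_co.K10.E6.P14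
import Pool.Agent.Lib.MP_afdd4d_co.K10.E6.P15
import Pool.Agent.Lib.MP_afdd4d_co.K10.E6.P16
import Pool.Agent.Lib.MP_afdd4d_co.K10.E6.P17
import Pool.Agent.Lib.MP_afdd4d_co.K10.E6.P18
import Pool.Agent.Lib.MP_afdd4d_co.K10.E6.P19
import Pool.Agent.Lib.MP_afdd4d_co.K10.E6.P20
import Pool.Agent.Lib.MP_afdd4d_co.K10.E6.P21
import Pool.Agent.Lib.MP_afdd4d_co.K10.E6.P22
import Pool.Agent.Lib.MP_afdd4d_co.K10.E6.P23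
import Pool.Agent.Lib.MP_afdd4d_co.K10.E6.P24
import Pool.Agent.Lib.MP_afdd4d_co.K10.E6.P25
import Pool.Agent.Lib.MP_afdd4d_co.K10.E6.P26
import Pool.Agent.Lib.MP_afdd4d_co.K10.E6.P27
import Pool.Agent.Lib.MP_afdd4d_co.K10.E6.P28
import Pool.Agent.Lib.MP_afdd4d_co.K10.E6.P29
import Pool.Agent.Lib.MP_afdd4d_co.K10.E6.P30
import Pool.Agent.Lib.MP_afdd4d_co.K10.E6.P31
import Pool.Agent.Lib.MP_afdd4d_co.K10.E6.P32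

/-!
# Tables
-/

namespace Pool.Agent.Lib.MP_afdd4d_co.K10.E6

open K8

set_option maxRecDepth 100000
set_option exponentiation.threshold 10000000

/-- The slices of the chunk 716. -/
noncomputable def c716 : List (List ℕ) := [
  [tr p694_26,
   tr p695_26,
   x7_6 (x7_5 (x7_4 (x3_2 (x3_1 (x3_0 (s3_7 (s2_5 (s1_6 (s0_4 (n6 (n0 p695_44))))))))))),
   tr p696_26,
   tr p697_26,
   tr p698_26,
   x7_6 (x7_5 (x7_4 (x3_2 (x3_1 (x3_0 (s3_7 (s2_5 (s1_6 (s0_4 (n6 (n0 p698_44))))))))))),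
   tr p699_26],
  [tr p700_26,
   tr p701_26,
   tr p702_26,
   x7_6 (x7_5 (x7_4 (x3_2 (x3_1 (x3_0 (s3_7 (s2_5 (s1_6 (s0_4 (n6 p700_44)))))))))),
   tr p703_26,
   tr p704_26,
   tr p705_26,
   x7_6 (x7_5 (x7_4 (x3_2 (x3_1 (x3_0 (s3_7 (s2_5 (s1_6 (s0_4 (n6 p703_44))))))))))],
  [tr p706_26,
   tr p707_26,
   tr p708_26,
   tr p709_26,
   tr p710_26,
   tr p711_26,
   tr p712_26,
   tr p713_26],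
  [tr p714_26,
   tr p715_26,
   p716_26,
   p716_27,
   p716_28,
   p716_29,
   p716_30,
   p716_31],
  [x7_6 (x7_5 (x7_4 (x3_2 (x3_1 (x3_0 (s3_7 (s2_5 (s1_6 (s0_4 (n6 (n1 (n0 p711_44)))))))))))),
   x7_6 (x7_5 (x7_4 (x3_2 (x3_1 (x3_0 (s3_7 (s2_5 (s1_6 (s0_4 (n6 (n1 (n0 p713_44)))))))))))),
   x7_6 (x7_5 (x7_4 (x3_2 (x3_1 (x3_0 (s3_7 (s2_5 (s1_6 (s0_4 (n6 (n1 (n0 p710_44)))))))))))),
   x7_6 (x7_5 (x7_4 (x3_2 (x3_1 (x3_0 (s3_7 (s2_5 (s1_6 (s0_4 (n6 (n1 (n0 p712_44)))))))))))),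
   x7_6 (x7_5 (x7_4 (x3_2 (x3_1 (x3_0 (s3_7 (s2_5 (s1_6 (s0_4 (n6 (n1 (n0 p707_44)))))))))))),
   x7_6 (x7_5 (x7_4 (x3_2 (x3_1 (x3_0 (s3_7 (s2_5 (s1_6 (s0_4 (n6 (n1 (n0 p709_44)))))))))))),
   x7_6 (x7_5 (x7_4 (x3_2 (x3_1 (x3_0 (s3_7 (s2_5 (s1_6 (s0_4 (n6 (n1 (n0 p706_44)))))))))))),
   x7_6 (x7_5 (x7_4 (x3_2 (x3_1 (x3_0 (s3_7 (s2_5 (s1_6 (s0_4 (n6 (n1 (n0 p708_44))))))))))))],
  [p716_40,
   p716_41,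
   p716_42,
   p716_43,
   p716_44,
   x7_6 (x7_5 (x7_4 (x3_2 (x3_1 (x3_0 (s3_7 (s2_5 (s1_6 (s0_4 (n6 (n1 p714_44))))))))))),
   p716_46,
   x7_6 (x7_5 (x7_4 (x3_2 (x3_1 (x3_0 (s3_7 (s2_5 (s1_6 (s0_4 (n6 (n1 p715_44)))))))))))],
  [p716_48,
   tr p723_26,
   tr p724_26,
   p716_51,
   p716_52,
   tr p726_26,
   tr p727_26,
   p716_55],
  [tr p728_26,
   p716_57,
   p716_58,
   tr p730_26,
   tr p731_26,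
   p716_61,
   p716_62,
   tr p733_26]]

theorem k716 : eqNN c716 (slO 64 (D.chG 209 26) 8) = true := by decide +kernel

/-- The slices of the chunk 717. -/
noncomputable def c717 : List (List ℕ) := [
  [tr p694_27,
   tr p695_27,
   x7_6 (x7_5 (x7_4 (x3_2 (x3_1 (x3_0 (s3_7 (s2_5 (s1_6 (s0_4 (n6 (n0 p695_46))))))))))),
   tr p696_27,
   tr p697_27,
   tr p698_27,
   x7_6 (x7_5 (x7_4 (x3_2 (x3_1 (x3_0 (s3_7 (s2_5 (s1_6 (s0_4 (n6 (n0 p698_46))))))))))),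
   tr p699_27],
  [tr p700_27,
   tr p701_27,
   tr p702_27,
   x7_6 (x7_5 (x7_4 (x3_2 (x3_1 (x3_0 (s3_7 (s2_5 (s1_6 (s0_4 (n6 p700_46)))))))))),
   tr p703_27,
   tr p704_27,
   tr p705_27,
   x7_6 (x7_5 (x7_4 (x3_2 (x3_1 (x3_0 (s3_7 (s2_5 (s1_6 (s0_4 (n6 p703_46))))))))))],
  [tr p706_27,
   tr p707_27,
   tr p708_27,
   tr p709_27,
   tr p710_27,
   tr p711_27,
   tr p712_27,
   tr p713_27],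
  [tr p714_27,
   tr p715_27,
   tr p716_27,
   p717_27,
   p717_28,
   p717_29,
   p717_30,
   p717_31],
  [x7_6 (x7_5 (x7_4 (x3_2 (x3_1 (x3_0 (s3_7 (s2_5 (s1_6 (s0_4 (n6 (n1 (n0 p711_46)))))))))))),
   x7_6 (x7_5 (x7_4 (x3_2 (x3_1 (x3_0 (s3_7 (s2_5 (s1_6 (s0_4 (n6 (n1 (n0 p713_46)))))))))))),
   x7_6 (x7_5 (x7_4 (x3_2 (x3_1 (x3_0 (s3_7 (s2_5 (s1_6 (s0_4 (n6 (n1 (n0 p710_46)))))))))))),
   x7_6 (x7_5 (x7_4 (x3_2 (x3_1 (x3_0 (s3_7 (s2_5 (s1_6 (s0_4 (n6 (n1 (n0 p712_46)))))))))))),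
   x7_6 (x7_5 (x7_4 (x3_2 (x3_1 (x3_0 (s3_7 (s2_5 (s1_6 (s0_4 (n6 (n1 (n0 p707_46)))))))))))),
   x7_6 (x7_5 (x7_4 (x3_2 (x3_1 (x3_0 (s3_7 (s2_5 (s1_6 (s0_4 (n6 (n1 (n0 p709_46)))))))))))),
   x7_6 (x7_5 (x7_4 (x3_2 (x3_1 (x3_0 (s3_7 (s2_5 (s1_6 (s0_4 (n6 (n1 (n0 p706_46)))))))))))),
   x7_6 (x7_5 (x7_4 (x3_2 (x3_1 (x3_0 (s3_7 (s2_5 (s1_6 (s0_4 (n6 (n1 (n0 p708_46))))))))))))],
  [p717_40,
   p717_41,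
   p717_42,
   p717_43,
   x7_6 (x7_5 (x7_4 (x3_2 (x3_1 (x3_0 (s3_7 (s2_5 (s1_6 (s0_4 (n6 (n1 p716_46))))))))))),
   x7_6 (x7_5 (x7_4 (x3_2 (x3_1 (x3_0 (s3_7 (s2_5 (s1_6 (s0_4 (n6 (n1 p714_46))))))))))),
   p717_46,
   x7_6 (x7_5 (x7_4 (x3_2 (x3_1 (x3_0 (s3_7 (s2_5 (s1_6 (s0_4 (n6 (n1 p715_46)))))))))))],
  [p717_48,
   tr p723_27,
   tr p724_27,
   p717_51,
   p717_52,
   tr p726_27,
   tr p727_27,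
   p717_55],
  [tr p728_27,
   p717_57,
   p717_58,
   tr p730_27,
   tr p731_27,
   p717_61,
   p717_62,
   tr p733_27]]

theorem k717 : eqNN c717 (slO 64 (D.chG 209 27) 8) = true := by decide +kernel

/-- The slices of the chunk 718. -/
noncomputable def c718 : List (List ℕ) := [
  [tr p694_28,
   tr p695_28,
   x7_6 (x7_5 (x7_4 (x3_2 (x3_1 (x3_0 (s3_7 (s2_5 (s1_6 (s0_4 (n6 (n0 p695_41))))))))))),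
   tr p696_28,
   tr p697_28,
   tr p698_28,
   x7_6 (x7_5 (x7_4 (x3_2 (x3_1 (x3_0 (s3_7 (s2_5 (s1_6 (s0_4 (n6 (n0 p698_41))))))))))),
   tr p699_28],
  [tr p700_28,
   tr p701_28,
   tr p702_28,
   x7_6 (x7_5 (x7_4 (x3_2 (x3_1 (x3_0 (s3_7 (s2_5 (s1_6 (s0_4 (n6 p700_41)))))))))),
   tr p703_28,
   tr p704_28,
   tr p705_28,
   x7_6 (x7_5 (x7_4 (x3_2 (x3_1 (x3_0 (s3_7 (s2_5 (s1_6 (s0_4 (n6 p703_41))))))))))],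
  [tr p706_28,
   tr p707_28,
   tr p708_28,
   tr p709_28,
   tr p710_28,
   tr p711_28,
   tr p712_28,
   tr p713_28],
  [tr p714_28,
   tr p715_28,
   tr p716_28,
   tr p717_28,
   p718_28,
   p718_29,
   p718_30,
   p718_31],
  [x7_6 (x7_5 (x7_4 (x3_2 (x3_1 (x3_0 (s3_7 (s2_5 (s1_6 (s0_4 (n6 (n1 (n0 p711_41)))))))))))),
   x7_6 (x7_5 (x7_4 (x3_2 (x3_1 (x3_0 (s3_7 (s2_5 (s1_6 (s0_4 (n6 (n1 (n0 p713_41)))))))))))),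
   x7_6 (x7_5 (x7_4 (x3_2 (x3_1 (x3_0 (s3_7 (s2_5 (s1_6 (s0_4 (n6 (n1 (n0 p710_41)))))))))))),
   x7_6 (x7_5 (x7_4 (x3_2 (x3_1 (x3_0 (s3_7 (s2_5 (s1_6 (s0_4 (n6 (n1 (n0 p712_41)))))))))))),
   x7_6 (x7_5 (x7_4 (x3_2 (x3_1 (x3_0 (s3_7 (s2_5 (s1_6 (s0_4 (n6 (n1 (n0 p707_41)))))))))))),
   x7_6 (x7_5 (x7_4 (x3_2 (x3_1 (x3_0 (s3_7 (s2_5 (s1_6 (s0_4 (n6 (n1 (n0 p709_41)))))))))))),
   x7_6 (x7_5 (x7_4 (x3_2 (x3_1 (x3_0 (s3_7 (s2_5 (s1_6 (s0_4 (n6 (n1 (n0 p706_41)))))))))))),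
   x7_6 (x7_5 (x7_4 (x3_2 (x3_1 (x3_0 (s3_7 (s2_5 (s1_6 (s0_4 (n6 (n1 (n0 p708_41))))))))))))],
  [p718_40,
   p718_41,
   p718_42,
   p718_43,
   x7_6 (x7_5 (x7_4 (x3_2 (x3_1 (x3_0 (s3_7 (s2_5 (s1_6 (s0_4 (n6 (n1 p716_41))))))))))),
   x7_6 (x7_5 (x7_4 (x3_2 (x3_1 (x3_0 (s3_7 (s2_5 (s1_6 (s0_4 (n6 (n1 p714_41))))))))))),
   x7_6 (x7_5 (x7_4 (x3_2 (x3_1 (x3_0 (s3_7 (s2_5 (s1_6 (s0_4 (n6 (n1 p717_41))))))))))),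
   x7_6 (x7_5 (x7_4 (x3_2 (x3_1 (x3_0 (s3_7 (s2_5 (s1_6 (s0_4 (n6 (n1 p715_41)))))))))))],
  [p718_48,
   tr p723_28,
   tr p724_28,
   p718_51,
   p718_52,
   tr p726_28,
   tr p727_28,
   p718_55],
  [tr p728_28,
   p718_57,
   p718_58,
   tr p730_28,
   tr p731_28,
   p718_61,
   p718_62,
   tr p733_28]]

theorem k718 : eqNN c718 (slO 64 (D.chG 209 28) 8) = true := by decide +kernel

/-- The slices of the chunk 719. -/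
noncomputable def c719 : List (List ℕ) := [
  [tr p694_29,
   tr p695_29,
   x7_6 (x7_5 (x7_4 (x3_2 (x3_1 (x3_0 (s3_7 (s2_5 (s1_6 (s0_4 (n6 (n0 p695_43))))))))))),
   tr p696_29,
   tr p697_29,
   tr p698_29,
   x7_6 (x7_5 (x7_4 (x3_2 (x3_1 (x3_0 (s3_7 (s2_5 (s1_6 (s0_4 (n6 (n0 p698_43))))))))))),
   tr p699_29],
  [tr p700_29,
   tr p701_29,
   tr p702_29,
   x7_6 (x7_5 (x7_4 (x3_2 (x3_1 (x3_0 (s3_7 (s2_5 (s1_6 (s0_4 (n6 p700_43)))))))))),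
   tr p703_29,
   tr p704_29,
   tr p705_29,
   x7_6 (x7_5 (x7_4 (x3_2 (x3_1 (x3_0 (s3_7 (s2_5 (s1_6 (s0_4 (n6 p703_43))))))))))],
  [tr p706_29,
   tr p707_29,
   tr p708_29,
   tr p709_29,
   tr p710_29,
   tr p711_29,
   tr p712_29,
   tr p713_29],
  [tr p714_29,
   tr p715_29,
   tr p716_29,
   tr p717_29,
   tr p718_29,
   p719_29,
   p719_30,
   p719_31],
  [x7_6 (x7_5 (x7_4 (x3_2 (x3_1 (x3_0 (s3_7 (s2_5 (s1_6 (s0_4 (n6 (n1 (n0 p711_43)))))))))))),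
   x7_6 (x7_5 (x7_4 (x3_2 (x3_1 (x3_0 (s3_7 (s2_5 (s1_6 (s0_4 (n6 (n1 (n0 p713_43)))))))))))),
   x7_6 (x7_5 (x7_4 (x3_2 (x3_1 (x3_0 (s3_7 (s2_5 (s1_6 (s0_4 (n6 (n1 (n0 p710_43)))))))))))),
   x7_6 (x7_5 (x7_4 (x3_2 (x3_1 (x3_0 (s3_7 (s2_5 (s1_6 (s0_4 (n6 (n1 (n0 p712_43)))))))))))),
   x7_6 (x7_5 (x7_4 (x3_2 (x3_1 (x3_0 (s3_7 (s2_5 (s1_6 (s0_4 (n6 (n1 (n0 p707_43)))))))))))),
   x7_6 (x7_5 (x7_4 (x3_2 (x3_1 (x3_0 (s3_7 (s2_5 (s1_6 (s0_4 (n6 (n1 (n0 p709_43)))))))))))),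
   x7_6 (x7_5 (x7_4 (x3_2 (x3_1 (x3_0 (s3_7 (s2_5 (s1_6 (s0_4 (n6 (n1 (n0 p706_43)))))))))))),
   x7_6 (x7_5 (x7_4 (x3_2 (x3_1 (x3_0 (s3_7 (s2_5 (s1_6 (s0_4 (n6 (n1 (n0 p708_43))))))))))))],
  [p719_40,
   x7_6 (x7_5 (x7_4 (x3_2 (x3_1 (x3_0 (s3_7 (s2_5 (s1_6 (s0_4 (n6 (n1 p718_43))))))))))),
   p719_42,
   p719_43,
   x7_6 (x7_5 (x7_4 (x3_2 (x3_1 (x3_0 (s3_7 (s2_5 (s1_6 (s0_4 (n6 (n1 p716_43))))))))))),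
   x7_6 (x7_5 (x7_4 (x3_2 (x3_1 (x3_0 (s3_7 (s2_5 (s1_6 (s0_4 (n6 (n1 p714_43))))))))))),
   x7_6 (x7_5 (x7_4 (x3_2 (x3_1 (x3_0 (s3_7 (s2_5 (s1_6 (s0_4 (n6 (n1 p717_43))))))))))),
   x7_6 (x7_5 (x7_4 (x3_2 (x3_1 (x3_0 (s3_7 (s2_5 (s1_6 (s0_4 (n6 (n1 p715_43)))))))))))],
  [p719_48,
   tr p723_29,
   tr p724_29,
   p719_51,
   p719_52,
   tr p726_29,
   tr p727_29,
   p719_55],
  [tr p728_29,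
   p719_57,
   p719_58,
   tr p730_29,
   tr p731_29,
   p719_61,
   p719_62,
   tr p733_29]]

theorem k719 : eqNN c719 (slO 64 (D.chG 209 29) 8) = true := by decide +kernel

end Pool.Agent.Lib.MP_afdd4d_co.K10.E6
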