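import Pool.Agent.Lib.MP_afdd4d_co.K10.E6.Dat
import Pool.Agent.Lib.MP_afdd4d_co.K10.E6.Mk
import Pool.Agent.Lib.MP_afdd4d_co.K8.F6Bl5
import Pool.Agent.Lib.MP_afdd4d_co.K10.E6.P0
import Pool.Agent.Lib.MP_afdd4d_co.K10.E6.P1
import Pool.Agent.Lib.MP_afdd4d_co.K10.E6.P2
import Pool.Agent.Lib.MP_afdd4d_co.K10.E6.P3
import Pool.Agent.Lib.MP_afdd4d_co.K10.E6.P4
import Pool.Agent.Lib.MP_afdd4d_co.K10.E6.P5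
import Pool.Agent.Lib.MP_afdd4d_co.K10.E6.P6
import Pool.Agent.Lib.MP_afdd4d_co.K10.E6.P7
import Pool.Agent.Lib.MP_afdd4d_co.K10.E6.P8
import Pool.Agent.Lib.MP_afdd4d_co.K10.E6.P9
import Pool.Agent.Lib.MP_afdd4d_co.K10.E6.P10
import Pool.Agent.Lib.MP_afdd4d_co.K10.E6.P11
import Pool.Agent.Lib.MP_afdd4d_co.K10.E6.P12
import Pool.Agent.Lib.MP_afdd4d_co.K10.E6.P13
import Pool.Agent.Lib.MP_afdd4d_co.K10.E6.P14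
import Pool.Agent.Lib.MP_afdd4d_co.K10.E6.P15
import Pool.Agent.Lib.MP_afdd4d_co.K10.E6.P16
import Pool.Agent.Lib.MP_afdd4d_co.K10.E6.P17
import Pool.Agent.Lib.MP_afdd4d_co.K10.E6.P18
import Pool.Agent.Lib.MP_afdd4d_co.K10.E6.P19
import Pool.Agent.Lib.MP_afdd4d_co.K10.E6.P20
import Pool.Agent.Lib.MP_afdd4d_co.K10.E6.P21
import Pool.Agent.Lib.MP_afdd4d_co.K10.E6.P22
import Pool.Agent.Lib.MP_afdd4d_co.K10.E6.P23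
import Pool.Agent.Lib.MP_afdd4d_co.K10.E6.P24
import Pool.Agent.Lib.MP_afdd4d_co.K10.E6.P25
import Pool.Agent.Lib.MP_afdd4d_co.K10.E6.P26
import Pool.Agent.Lib.MP_afdd4d_co.K10.E6.P27
import Pool.Agent.Lib.MP_afdd4d_co.K10.E6.P28
import Pool.Agent.Lib.MP_afdd4d_co.K10.E6.P29
import Pool.Agent.Lib.MP_afdd4d_co.K10.E6.P30
import Pool.Agent.Lib.MP_afdd4d_co.K10.E6.P31
import Pool.Agent.Lib.MP_afdd4d_co.K10.E6.P32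

/-!
# Tables
-/

namespace Pool.Agent.Lib.MP_afdd4d_co.K10.E6

open K8

set_option maxRecDepth 100000
set_option exponentiation.threshold 10000000

/-- The slices of the chunk 72. -/
noncomputable def c72 : List (List ℕ) := [
  [tr p71_1,
   p72_1,
   p72_2,
   p72_3,
   s4_5 (s0_1 p72_2),
   s4_5 (s0_1 p72_3),
   p72_6,
   tr p74_1],
  [s6_7 (s2_3 p72_2),
   s6_7 (s2_3 p72_3),
   p72_10,
   tr p75_1,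
   tr p76_1,
   p72_13,
   p72_14,
   p72_15],
  [s6_7 (s4_5 (s2_3 (s0_1 p72_2))),
   s6_7 (s4_5 (s2_3 (s0_1 p72_3))),
   s3_6 (s2_7 (s1_5 (s0_4 p76_1))),
   s6_7 (s2_3 p72_13),
   s4_5 (s0_1 p72_10),
   s3_7 (s2_6 (s1_4 (s0_5 p75_1))),
   s4_5 (s0_1 p72_14),
   s4_5 (s0_1 p72_15)],
  [s6_7 (s2_3 p72_6),
   s3_6 (s2_7 (s1_5 (s0_4 p74_1))),
   s6_7 (s2_3 p72_14),
   s6_7 (s2_3 p72_15),
   s6_7 (s4_5 (s2_3 (s0_1 p72_14))),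
   s6_7 (s4_5 (s2_3 (s0_1 p72_15))),
   p72_30,
   p72_31],
  [p72_32,
   p72_33,
   s6_7 (s4_5 (s2_3 (s0_1 p72_48))),
   s4_5 (s0_1 p72_37),
   s6_7 (s2_3 p72_48),
   p72_37,
   s3_5 (s2_4 (s1_7 (s0_6 p75_32))),
   p72_39],
  [s4_5 (s0_1 p72_48),
   s6_7 (s4_5 (s2_3 (s0_1 p72_37))),
   s3_5 (s2_4 (s1_7 (s0_6 p74_32))),
   p72_43,
   p72_44,
   s3_7 (s2_5 (s1_6 (s0_4 p79_2))),
   s6_7 (s4_5 (s2_3 (s0_1 p72_60))),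
   p72_47],
  [p72_48,
   s6_7 (s2_3 p72_37),
   s6_7 (s2_3 p72_44),
   s6_7 (s5_7 (s3_5 (s2_7 (s1_6 (s0_4 p79_2))))),
   s3_4 (s2_5 (s1_6 (s0_7 p74_32))),
   s4_5 (s0_1 p72_43),
   s6_7 (s2_3 p72_60),
   s4_5 (s0_1 p72_47)],
  [s3_4 (s2_5 (s1_6 (s0_7 p75_32))),
   s6_7 (s2_3 p72_39),
   s4_5 (s0_1 p72_60),
   s6_7 (s2_3 p72_47),
   p72_60,
   s6_7 (s4_5 (s2_3 (s0_1 p72_47))),
   p72_62,
   tr p81_1]]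

theorem k72 : eqNN c72 (slO 64 (D.chG 15 1) 8) = true := by decide +kernel

/-- The slices of the chunk 73. -/
noncomputable def c73 : List (List ℕ) := [
  [tr p71_3,
   tr p72_3,
   s3_7 (s2_5 (s1_6 (s0_4 p72_3))),
   p73_3,
   s3_7 (s2_4 (s1_5 (s0_6 p72_6))),
   p73_5,
   s5_6 (s1_2 p73_5),
   tr p74_3],
  [s3_5 (s2_6 (s1_7 (s0_4 p72_10))),
   p73_9,
   s5_6 (s1_2 p73_9),
   tr p75_3,
   tr p76_3,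
   p73_13,
   s5_6 (s1_2 p73_13),
   p73_15],
  [s3_4 (s2_6 (s1_5 (s0_7 p72_48))),
   p73_17,
   s3_7 (s2_6 (s1_4 (s0_5 p76_5))),
   p73_19,
   p73_20,
   s3_7 (s2_6 (s1_4 (s0_5 p75_5))),
   s5_6 (s1_2 p73_37),
   p73_23],
  [s5_7 (s4_6 (s3_4 (s2_7 (s1_6 (s0_5 p73_20))))),
   s3_6 (s2_7 (s1_5 (s0_4 p74_9))),
   s5_6 (s1_2 p73_41),
   p73_27,
   s5_6 (s1_2 p73_44),
   p73_29,
   tr p79_3,
   tr p80_3],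
  [s3_4 (s2_5 (s1_6 (s0_7 p72_48))),
   s5_6 (s4_6 (s3_7 (s2_4 (s1_6 (s0_5 p76_5))))),
   s5_6 (s1_2 p73_17),
   s5_6 (s1_2 p73_19),
   s5_6 (s1_2 p73_20),
   p73_37,
   s5_6 (s4_6 (s3_7 (s2_4 (s1_6 (s0_5 p75_5))))),
   s5_6 (s1_2 p73_23)],
  [s5_7 (s4_7 (s3_4 (s2_6 (s1_7 (s0_5 p73_20))))),
   p73_41,
   s6_7 (s5_6 (s3_6 (s2_5 (s1_7 (s0_4 p74_9))))),
   s5_6 (s1_2 p73_27),
   p73_44,
   s3_7 (s2_5 (s1_6 (s0_4 p79_3))),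
   s5_6 (s1_2 p73_29),
   s3_7 (s2_5 (s1_6 (s0_4 p80_3)))],
  [p73_48,
   p73_49,
   s5_6 (s1_2 p73_49),
   s3_7 (s2_4 (s1_5 (s0_6 p79_6))),
   s3_4 (s2_6 (s1_5 (s0_7 p74_48))),
   p73_53,
   s5_6 (s1_2 p73_53),
   s3_7 (s2_4 (s1_5 (s0_6 p80_6)))],
  [s3_4 (s2_6 (s1_5 (s0_7 p75_48))),
   p73_57,
   s5_6 (s1_2 p73_57),
   s3_5 (s2_6 (s1_7 (s0_4 p80_10))),
   p73_60,
   s3_4 (s2_6 (s1_5 (s0_7 p80_48))),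
   s3_4 (s2_5 (s1_6 (s0_7 p80_48))),
   tr p81_3]]

theorem k73 : eqNN c73 (slO 64 (D.chG 15 3) 8) = true := by decide +kernel

/-- The slices of the chunk 74. -/
noncomputable def c74 : List (List ℕ) := [
  [tr p71_7,
   p74_1,
   s5_6 (s1_2 p74_1),
   p74_3,
   s4_6 (s0_2 p74_1),
   s4_5 (s0_1 p74_3),
   s4_6 (s0_2 p74_3),
   p74_7],
  [s4_6 (s0_2 p74_32),
   p74_9,
   s5_6 (s1_2 p74_9),
   p74_11,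
   p74_12,
   p74_13,
   s5_6 (s1_2 p74_13),
   p74_15],
  [s5_6 (s1_2 p74_32),
   s4_5 (s0_1 p74_9),
   s4_5 (s0_1 p74_12),
   s4_5 (s0_1 p74_13),
   s5_6 (s4_6 (s1_2 (s0_2 p74_9))),
   s4_5 (s0_1 p74_11),
   s5_6 (s4_6 (s1_2 (s0_2 p74_13))),
   s4_5 (s0_1 p74_15)],
  [s4_6 (s0_2 p74_48),
   p74_25,
   s5_6 (s4_6 (s1_2 (s0_2 p74_44))),
   p74_27,
   s5_6 (s1_2 p74_44),
   s4_5 (s0_1 p74_27),
   p74_30,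
   p74_31],
  [p74_32,
   s4_6 (s0_2 p74_12),
   s5_6 (s4_5 (s1_2 (s0_1 p74_9))),
   s5_6 (s4_5 (s1_2 (s0_1 p74_13))),
   s4_6 (s0_2 p74_9),
   s4_6 (s0_2 p74_13),
   s4_6 (s0_2 p74_11),
   s4_6 (s0_2 p74_15)],
  [s4_5 (s0_1 p74_48),
   s4_6 (s0_2 p74_44),
   s5_6 (s1_2 p74_25),
   s5_6 (s1_2 p74_27),
   p74_44,
   s5_6 (s1_2 p74_30),
   s5_6 (s4_5 (s1_2 (s0_1 p74_27))),
   s5_6 (s1_2 p74_31)],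
  [p74_48,
   s5_6 (s4_5 (s1_2 (s0_1 p74_44))),
   s4_5 (s0_1 p74_44),
   s4_6 (s0_2 p74_30),
   s4_6 (s0_2 p74_25),
   s5_6 (s4_6 (s1_2 (s0_2 p74_27))),
   s4_6 (s0_2 p74_27),
   s4_6 (s0_2 p74_31)],
  [p74_56,
   s4_6 (s0_2 p74_60),
   s4_5 (s0_1 p74_60),
   s4_6 (s0_2 p74_62),
   p74_60,
   s5_6 (s1_2 p74_62),
   p74_62,
   tr p81_7]]

theorem k74 : eqNN c74 (slO 64 (D.chG 15 7) 8) = true := by decide +kernel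

/-- The slices of the chunk 75. -/
noncomputable def c75 : List (List ℕ) := [
  [tr p71_11,
   p75_1,
   s5_6 (s1_2 p75_1),
   p75_3,
   s5_7 (s1_3 p75_32),
   p75_5,
   s5_6 (s1_2 p75_5),
   tr p74_11],
  [s5_7 (s1_3 p75_1),
   s6_7 (s2_3 p75_3),
   s5_7 (s1_3 p75_3),
   p75_11,
   p75_12,
   p75_13,
   s5_6 (s1_2 p75_13),
   p75_15],
  [s5_6 (s1_2 p75_32),
   s6_7 (s2_3 p75_5),
   s6_7 (s2_3 p75_12),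
   s6_7 (s2_3 p75_13),
   s5_7 (s1_3 p75_48),
   p75_21,
   s6_7 (s5_6 (s2_3 (s1_2 p75_44))),
   p75_23],
  [s6_7 (s5_6 (s2_3 (s1_2 p75_5))),
   s3_6 (s2_7 (s1_5 (s0_4 p74_11))),
   s6_7 (s5_6 (s2_3 (s1_2 p75_13))),
   s6_7 (s2_3 p75_15),
   s5_6 (s1_2 p75_44),
   s6_7 (s2_3 p75_23),
   p75_30,
   p75_31],
  [p75_32,
   s5_7 (s1_3 p75_12),
   s6_7 (s5_7 (s2_3 (s1_3 p75_5))),
   s6_7 (s5_7 (s2_3 (s1_3 p75_13))),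
   s6_7 (s2_3 p75_48),
   s5_7 (s1_3 p75_44),
   s5_6 (s1_2 p75_21),
   s5_6 (s1_2 p75_23)],
  [s5_7 (s1_3 p75_5),
   s5_7 (s1_3 p75_13),
   s3_5 (s2_6 (s1_7 (s0_4 p74_11))),
   s5_7 (s1_3 p75_15),
   p75_44,
   s5_6 (s1_2 p75_30),
   s6_7 (s5_7 (s2_3 (s1_3 p75_23))),
   s5_6 (s1_2 p75_31)],
  [p75_48,
   s6_7 (s5_7 (s2_3 (s1_3 p75_44))),
   s6_7 (s2_3 p75_44),
   s5_7 (s1_3 p75_30),
   s3_4 (s2_6 (s1_5 (s0_7 p74_56))),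
   s5_7 (s1_3 p75_60),
   s6_7 (s2_3 p75_60),
   s5_7 (s1_3 p75_62)],
  [s5_7 (s1_3 p75_21),
   s6_7 (s5_6 (s2_3 (s1_2 p75_23))),
   s5_7 (s1_3 p75_23),
   s5_7 (s1_3 p75_31),
   p75_60,
   s5_6 (s1_2 p75_62),
   p75_62,
   tr p81_11]]

theorem k75 : eqNN c75 (slO 64 (D.chG 15 11) 8) = true := by decide +kernel

end Pool.Agent.Lib.MP_afdd4d_co.K10.E6
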