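import Pool.Agent.Lib.MP_afdd4d_co.K10.E6.Dat
import Pool.Agent.Lib.MP_afdd4d_co.K10.E6.Mk
import Pool.Agent.Lib.MP_afdd4d_co.K8.F6Bl5
import Pool.Agent.Lib.MP_afdd4d_co.K10.E6.P0
import Pool.Agent.Lib.MP_afdd4d_co.K10.E6.P1
import Pool.Agent.Lib.MP_afdd4d_co.K10.E6.P2
import Pool.Agent.Lib.MP_afdd4d_co.K10.E6.P3
import Pool.Agent.Lib.MP_afdd4d_co.K10.E6.P4
import Pool.Agent.Lib.MP_afdd4d_co.K10.E6.P5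
import Pool.Agent.Lib.MP_afdd4d_co.K10.E6.P6
import Pool.Agent.Lib.MP_afdd4d_co.K10.E6.P7
import Pool.Agent.Lib.MP_afdd4d_co.K10.E6.P8
import Pool.Agent.Lib.MP_afdd4d_co.K10.E6.P9
import Pool.Agent.Lib.MP_afdd4d_co.K10.E6.P10
import Pool.Agent.Lib.MP_afdd4d_co.K10.E6.P11
import Pool.Agent.Lib.MP_afdd4d_co.K10.E6.P12
import Pool.Agent.Lib.MP_afdd4d_co.K10.E6.P13
import Pool.Agent.Lib.MP_afdd4d_co.K10.E6.P14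
import Pool.Agent.Lib.MP_afdd4d_co.K10.E6.P15
import Pool.Agent.Lib.MP_afdd4d_co.K10.E6.P16
import Pool.Agent.Lib.MP_afdd4d_co.K10.E6.P17
import Pool.Agent.Lib.MP_afdd4d_co.K10.E6.P18
import Pool.Agent.Lib.MP_afdd4d_co.K10.E6.P19
import Pool.Agent.Lib.MP_afdd4d_co.K10.E6.P20
import Pool.Agent.Lib.MP_afdd4d_co.K10.E6.P21
import Pool.Agent.Lib.MP_afdd4d_co.K10.E6.P22
import Pool.Agent.Lib.MP_afdd4d_co.K10.E6.P23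
import Pool.Agent.Lib.MP_afdd4d_co.K10.E6.P24
import Pool.Agent.Lib.MP_afdd4d_co.K10.E6.P25
import Pool.Agent.Lib.MP_afdd4d_co.K10.E6.P26
import Pool.Agent.Lib.MP_afdd4d_co.K10.E6.P27
import Pool.Agent.Lib.MP_afdd4d_co.K10.E6.P28
import Pool.Agent.Lib.MP_afdd4d_co.K10.E6.P29
import Pool.Agent.Lib.MP_afdd4d_co.K10.E6.P30
import Pool.Agent.Lib.MP_afdd4d_co.K10.E6.P31
import Pool.Agent.Lib.MP_afdd4d_co.K10.E6.P32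

/-!
# Tables
-/

namespace Pool.Agent.Lib.MP_afdd4d_co.K10.E6

open K8

set_option maxRecDepth 100000
set_option exponentiation.threshold 10000000

/-- The slices of the chunk 732. -/
noncomputable def c732 : List (List ℕ) := [
  [tr p694_61,
   tr p695_61,
   x7_6 (x7_5 (x7_4 (x3_2 (x3_1 (x3_0 (s3_7 (s2_5 (s1_6 (s0_4 (n6 (n5 (n0 p695_62)))))))))))),
   tr p696_61,
   tr p697_61,
   tr p698_61,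
   x7_6 (x7_5 (x7_4 (x3_2 (x3_1 (x3_0 (s3_7 (s2_5 (s1_6 (s0_4 (n6 (n5 (n0 p698_62)))))))))))),
   tr p699_61],
  [tr p700_61,
   tr p701_61,
   tr p702_61,
   x7_6 (x7_5 (x7_4 (x3_2 (x3_1 (x3_0 (s3_7 (s2_5 (s1_6 (s0_4 (n6 (n5 p700_62))))))))))),
   tr p703_61,
   tr p704_61,
   tr p705_61,
   x7_6 (x7_5 (x7_4 (x3_2 (x3_1 (x3_0 (s3_7 (s2_5 (s1_6 (s0_4 (n6 (n5 p703_62)))))))))))],
  [tr p706_61,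
   tr p707_61,
   tr p708_61,
   tr p709_61,
   tr p710_61,
   tr p711_61,
   tr p712_61,
   tr p713_61],
  [tr p714_61,
   tr p715_61,
   tr p716_61,
   tr p717_61,
   tr p718_61,
   tr p719_61,
   tr p720_61,
   tr p721_61],
  [x7_6 (x7_5 (x7_4 (x3_2 (x3_1 (x3_0 (s3_7 (s2_5 (s1_6 (s0_4 (n6 (n5 (n1 (n0 p711_62))))))))))))),
   x7_6 (x7_5 (x7_4 (x3_2 (x3_1 (x3_0 (s3_7 (s2_5 (s1_6 (s0_4 (n6 (n5 (n1 (n0 p713_62))))))))))))),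
   x7_6 (x7_5 (x7_4 (x3_2 (x3_1 (x3_0 (s3_7 (s2_5 (s1_6 (s0_4 (n6 (n5 (n1 (n0 p710_62))))))))))))),
   x7_6 (x7_5 (x7_4 (x3_2 (x3_1 (x3_0 (s3_7 (s2_5 (s1_6 (s0_4 (n6 (n5 (n1 (n0 p712_62))))))))))))),
   x7_6 (x7_5 (x7_4 (x3_2 (x3_1 (x3_0 (s3_7 (s2_5 (s1_6 (s0_4 (n6 (n5 (n1 (n0 p707_62))))))))))))),
   x7_6 (x7_5 (x7_4 (x3_2 (x3_1 (x3_0 (s3_7 (s2_5 (s1_6 (s0_4 (n6 (n5 (n1 (n0 p709_62))))))))))))),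
   x7_6 (x7_5 (x7_4 (x3_2 (x3_1 (x3_0 (s3_7 (s2_5 (s1_6 (s0_4 (n6 (n5 (n1 (n0 p706_62))))))))))))),
   x7_6 (x7_5 (x7_4 (x3_2 (x3_1 (x3_0 (s3_7 (s2_5 (s1_6 (s0_4 (n6 (n5 (n1 (n0 p708_62)))))))))))))],
  [x7_6 (x7_5 (x7_4 (x3_2 (x3_1 (x3_0 (s3_7 (s2_5 (s1_6 (s0_4 (n6 (n5 (n1 p720_62)))))))))))),
   x7_6 (x7_5 (x7_4 (x3_2 (x3_1 (x3_0 (s3_7 (s2_5 (s1_6 (s0_4 (n6 (n5 (n1 p718_62)))))))))))),
   x7_6 (x7_5 (x7_4 (x3_2 (x3_1 (x3_0 (s3_7 (s2_5 (s1_6 (s0_4 (n6 (n5 (n1 p721_62)))))))))))),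
   x7_6 (x7_5 (x7_4 (x3_2 (x3_1 (x3_0 (s3_7 (s2_5 (s1_6 (s0_4 (n6 (n5 (n1 p719_62)))))))))))),
   x7_6 (x7_5 (x7_4 (x3_2 (x3_1 (x3_0 (s3_7 (s2_5 (s1_6 (s0_4 (n6 (n5 (n1 p716_62)))))))))))),
   x7_6 (x7_5 (x7_4 (x3_2 (x3_1 (x3_0 (s3_7 (s2_5 (s1_6 (s0_4 (n6 (n5 (n1 p714_62)))))))))))),
   x7_6 (x7_5 (x7_4 (x3_2 (x3_1 (x3_0 (s3_7 (s2_5 (s1_6 (s0_4 (n6 (n5 (n1 p717_62)))))))))))),
   x7_6 (x7_5 (x7_4 (x3_2 (x3_1 (x3_0 (s3_7 (s2_5 (s1_6 (s0_4 (n6 (n5 (n1 p715_62))))))))))))],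
  [tr p722_61,
   tr p723_61,
   tr p724_61,
   x7_6 (x7_5 (x7_4 (x3_2 (x3_1 (x3_0 (s3_7 (s2_5 (s1_6 (s0_4 (n6 (n5 (n2 (n1 (n0 p722_62)))))))))))))),
   tr p725_61,
   tr p726_61,
   tr p727_61,
   x7_6 (x7_5 (x7_4 (x3_2 (x3_1 (x3_0 (s3_7 (s2_5 (s1_6 (s0_4 (n6 (n5 (n2 (n1 (n0 p725_62))))))))))))))],
  [tr p728_61,
   tr p729_61,
   x7_6 (x7_5 (x7_4 (x3_2 (x3_1 (x3_0 (s3_7 (s2_5 (s1_6 (s0_4 (n6 (n5 (n2 (n1 p729_62))))))))))))),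
   tr p730_61,
   tr p731_61,
   p732_61,
   p732_62,
   tr p733_61]]

theorem k732 : eqNN c732 (slO 64 (D.chG 209 61) 8) = true := by decide +kernel

/-- The slices of the chunk 733. -/
noncomputable def c733 : List (List ℕ) := [
  [tr p694_63,
   p733_1,
   x7_6 (x7_5 (x7_4 (s5_6 (x3_2 (x3_1 (x3_0 (s1_2 (n4 (n2 (n1 p733_1)))))))))),
   tr p696_63,
   tr p697_63,
   p733_5,
   x7_6 (x7_5 (x7_4 (s5_6 (x3_2 (x3_1 (x3_0 (s1_2 (n4 (n2 (n1 p733_5)))))))))),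
   tr p699_63],
  [p733_8,
   tr p701_63,
   tr p702_63,
   x7_6 (x7_5 (x7_4 (s5_6 (x3_2 (x3_1 (x3_0 (s1_2 (n2 (n1 p733_8))))))))),
   p733_12,
   tr p704_63,
   tr p705_63,
   x7_6 (x7_5 (x7_4 (s5_6 (x3_2 (x3_1 (x3_0 (s1_2 (n2 (n1 p733_12)))))))))],
  [p733_16,
   p733_17,
   p733_18,
   p733_19,
   p733_20,
   p733_21,
   p733_22,
   p733_23],
  [p733_24,
   p733_25,
   p733_26,
   p733_27,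
   p733_28,
   p733_29,
   p733_30,
   p733_31],
  [x7_6 (x7_5 (x7_4 (s5_6 (x3_2 (x3_1 (x3_0 (s1_2 (n5 (n4 (n2 (n1 p733_21))))))))))),
   x7_6 (x7_5 (x7_4 (s5_6 (x3_2 (x3_1 (x3_0 (s1_2 (n5 (n4 (n2 (n1 p733_23))))))))))),
   x7_6 (x7_5 (x7_4 (s5_6 (x3_2 (x3_1 (x3_0 (s1_2 (n5 (n4 (n2 (n1 p733_20))))))))))),
   x7_6 (x7_5 (x7_4 (s5_6 (x3_2 (x3_1 (x3_0 (s1_2 (n5 (n4 (n2 (n1 p733_22))))))))))),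
   x7_6 (x7_5 (x7_4 (s5_6 (x3_2 (x3_1 (x3_0 (s1_2 (n5 (n4 (n2 (n1 p733_17))))))))))),
   x7_6 (x7_5 (x7_4 (s5_6 (x3_2 (x3_1 (x3_0 (s1_2 (n5 (n4 (n2 (n1 p733_19))))))))))),
   x7_6 (x7_5 (x7_4 (s5_6 (x3_2 (x3_1 (x3_0 (s1_2 (n5 (n4 (n2 (n1 p733_16))))))))))),
   x7_6 (x7_5 (x7_4 (s5_6 (x3_2 (x3_1 (x3_0 (s1_2 (n5 (n4 (n2 (n1 p733_18)))))))))))],
  [x7_6 (x7_5 (x7_4 (s5_6 (x3_2 (x3_1 (x3_0 (s1_2 (n5 (n2 (n1 p733_30)))))))))),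
   x7_6 (x7_5 (x7_4 (s5_6 (x3_2 (x3_1 (x3_0 (s1_2 (n5 (n2 (n1 p733_28)))))))))),
   x7_6 (x7_5 (x7_4 (s5_6 (x3_2 (x3_1 (x3_0 (s1_2 (n5 (n2 (n1 p733_31)))))))))),
   x7_6 (x7_5 (x7_4 (s5_6 (x3_2 (x3_1 (x3_0 (s1_2 (n5 (n2 (n1 p733_29)))))))))),
   x7_6 (x7_5 (x7_4 (s5_6 (x3_2 (x3_1 (x3_0 (s1_2 (n5 (n2 (n1 p733_26)))))))))),
   x7_6 (x7_5 (x7_4 (s5_6 (x3_2 (x3_1 (x3_0 (s1_2 (n5 (n2 (n1 p733_24)))))))))),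
   x7_6 (x7_5 (x7_4 (s5_6 (x3_2 (x3_1 (x3_0 (s1_2 (n5 (n2 (n1 p733_27)))))))))),
   x7_6 (x7_5 (x7_4 (s5_6 (x3_2 (x3_1 (x3_0 (s1_2 (n5 (n2 (n1 p733_25))))))))))],
  [p733_48,
   tr p723_63,
   tr p724_63,
   x7_6 (x7_5 (x7_4 (s5_6 (x3_2 (x3_1 (x3_0 (s1_2 (n6 (n5 (n4 (n2 (n1 p733_48)))))))))))),
   p733_52,
   tr p726_63,
   tr p727_63,
   x7_6 (x7_5 (x7_4 (s5_6 (x3_2 (x3_1 (x3_0 (s1_2 (n6 (n5 (n4 (n2 (n1 p733_52))))))))))))],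
  [tr p728_63,
   p733_57,
   x7_6 (x7_5 (x7_4 (s5_6 (x3_2 (x3_1 (x3_0 (s1_2 (n6 (n5 (n2 (n1 p733_57))))))))))),
   tr p730_63,
   tr p731_63,
   p733_61,
   x7_6 (x7_5 (x7_4 (s5_6 (x3_2 (x3_1 (x3_0 (s1_2 (n6 (n5 (n2 (n1 p733_61))))))))))),
   p733_63]]

theorem k733 : eqNN c733 (slO 64 (D.chG 209 63) 8) = true := by decide +kernel

/-- The slices of the chunk 734. -/
noncomputable def c734 : List (List ℕ) := [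
  [p734_0,
   p734_1,
   p734_2,
   p734_3,
   p734_4,
   p734_5,
   p734_6,
   p734_7],
  [s6_7 (s4_5 (s2_3 (s0_1 p734_4))),
   s6_7 (s4_5 (s2_3 (s0_1 p734_5))),
   p734_10,
   p734_11,
   p734_12,
   p734_13,
   p734_14,
   p734_15],
  [s6_7 (s4_5 (s2_3 (s0_1 p734_2))),
   s6_7 (s4_5 (s2_3 (s0_1 p734_3))),
   p734_18,
   p734_19,
   s6_7 (s4_5 (s2_3 (s0_1 p734_10))),
   s6_7 (s4_5 (s2_3 (s0_1 p734_11))),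
   p734_22,
   p734_23],
  [s6_7 (s4_5 (s2_3 (s0_1 p734_6))),
   s6_7 (s4_5 (s2_3 (s0_1 p734_7))),
   s6_7 (s4_5 (s2_3 (s0_1 p734_22))),
   s6_7 (s4_5 (s2_3 (s0_1 p734_23))),
   s6_7 (s4_5 (s2_3 (s0_1 p734_14))),
   s6_7 (s4_5 (s2_3 (s0_1 p734_15))),
   p734_30,
   p734_31],
  [p734_32,
   p734_33,
   p734_34,
   p734_35,
   p734_36,
   p734_37,
   p734_38,
   p734_39],
  [s6_7 (s4_5 (s2_3 (s0_1 p734_36))),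
   s6_7 (s4_5 (s2_3 (s0_1 p734_37))),
   p734_42,
   p734_43,
   p734_44,
   p734_45,
   p734_46,
   p734_47],
  [s6_7 (s4_5 (s2_3 (s0_1 p734_34))),
   s6_7 (s4_5 (s2_3 (s0_1 p734_35))),
   p734_50,
   p734_51,
   s6_7 (s4_5 (s2_3 (s0_1 p734_42))),
   s6_7 (s4_5 (s2_3 (s0_1 p734_43))),
   p734_54,
   p734_55],
  [s6_7 (s4_5 (s2_3 (s0_1 p734_38))),
   s6_7 (s4_5 (s2_3 (s0_1 p734_39))),
   s6_7 (s4_5 (s2_3 (s0_1 p734_54))),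
   s6_7 (s4_5 (s2_3 (s0_1 p734_55))),
   s6_7 (s4_5 (s2_3 (s0_1 p734_46))),
   s6_7 (s4_5 (s2_3 (s0_1 p734_47))),
   p734_62,
   p734_63]]

theorem k734 : eqNN c734 (slO 64 (D.chG 211 0) 8) = true := by decide +kernel

/-- The slices of the chunk 735. -/
noncomputable def c735 : List (List ℕ) := [
  [tr p734_1,
   p735_1,
   p735_2,
   p735_3,
   p735_4,
   p735_5,
   p735_6,
   p735_7],
  [s6_7 (s4_5 (s2_3 (s0_1 p735_4))),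
   s6_7 (s4_5 (s2_3 (s0_1 p735_5))),
   p735_10,
   p735_11,
   p735_12,
   p735_13,
   p735_14,
   p735_15],
  [s6_7 (s4_5 (s2_3 (s0_1 p735_2))),
   s6_7 (s4_5 (s2_3 (s0_1 p735_3))),
   p735_18,
   p735_19,
   s6_7 (s4_5 (s2_3 (s0_1 p735_10))),
   s6_7 (s4_5 (s2_3 (s0_1 p735_11))),
   p735_22,
   p735_23],
  [s6_7 (s4_5 (s2_3 (s0_1 p735_6))),
   s6_7 (s4_5 (s2_3 (s0_1 p735_7))),
   s6_7 (s4_5 (s2_3 (s0_1 p735_22))),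
   s6_7 (s4_5 (s2_3 (s0_1 p735_23))),
   s6_7 (s4_5 (s2_3 (s0_1 p735_14))),
   s6_7 (s4_5 (s2_3 (s0_1 p735_15))),
   p735_30,
   p735_31],
  [p735_32,
   p735_33,
   p735_34,
   p735_35,
   p735_36,
   p735_37,
   p735_38,
   p735_39],
  [s6_7 (s4_5 (s2_3 (s0_1 p735_36))),
   s6_7 (s4_5 (s2_3 (s0_1 p735_37))),
   p735_42,
   p735_43,
   p735_44,
   p735_45,
   p735_46,
   p735_47],
  [s6_7 (s4_5 (s2_3 (s0_1 p735_34))),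
   s6_7 (s4_5 (s2_3 (s0_1 p735_35))),
   p735_50,
   p735_51,
   s6_7 (s4_5 (s2_3 (s0_1 p735_42))),
   s6_7 (s4_5 (s2_3 (s0_1 p735_43))),
   p735_54,
   p735_55],
  [s6_7 (s4_5 (s2_3 (s0_1 p735_38))),
   s6_7 (s4_5 (s2_3 (s0_1 p735_39))),
   s6_7 (s4_5 (s2_3 (s0_1 p735_54))),
   s6_7 (s4_5 (s2_3 (s0_1 p735_55))),
   s6_7 (s4_5 (s2_3 (s0_1 p735_46))),
   s6_7 (s4_5 (s2_3 (s0_1 p735_47))),
   p735_62,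
   p735_63]]

theorem k735 : eqNN c735 (slO 64 (D.chG 211 1) 8) = true := by decide +kernel

end Pool.Agent.Lib.MP_afdd4d_co.K10.E6
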