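import Pool.Agent.Lib.MP_afdd4d_co.K10.E6.Dat
import Pool.Agent.Lib.MP_afdd4d_co.K10.E6.Mk
import Pool.Agent.Lib.MP_afdd4d_co.K8.F6Bl5
import Pool.Agent.Lib.MP_afdd4d_co.K10.E6.P0
import Pool.Agent.Lib.MP_afdd4d_co.K10.E6.P1
import Pool.Agent.Lib.MP_afdd4d_co.K10.E6.P2
import Pool.Agent.Lib.MP_afdd4d_co.K10.E6.P3
import Pool.Agent.Lib.MP_afdd4d_co.K10.E6.P4
import Pool.Agent.Lib.MP_afdd4d_co.K10.E6.P5
import Pool.Agent.Lib.MP_afdd4d_co.K10.E6.P6
import Pool.Agent.Lib.MP_afdd4d_co.K10.E6.P7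
import Pool.Agent.Lib.MP_afdd4d_co.K10.E6.P8
import Pool.Agent.Lib.MP_afdd4d_co.K10.E6.P9
import Pool.Agent.Lib.MP_afdd4d_co.K10.E6.P10
import Pool.Agent.Lib.MP_afdd4d_co.K10.E6.P11
import Pool.Agent.Lib.MP_afdd4d_co.K10.E6.P12
import Pool.Agent.Lib.MP_afdd4d_co.K10.E6.P13
import Pool.Agent.Lib.MP_afdd4d_co.K10.E6.P14
import Pool.Agent.Lib.MP_afdd4d_co.K10.E6.P15
import Pool.Agent.Lib.MP_afdd4d_co.K10.E6.P16
import Pool.Agent.Lib.MP_afdd4d_co.K10.E6.P17
import Pool.Agent.Lib.MP_afdd4d_co.K10.E6.P18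
import Pool.Agent.Lib.MP_afdd4d_co.K10.E6.P19
import Pool.Agent.Lib.MP_afdd4d_co.K10.E6.P20
import Pool.Agent.Lib.MP_afdd4d_co.K10.E6.P21
import Pool.Agent.Lib.MP_afdd4d_co.K10.E6.P22
import Pool.Agent.Lib.MP_afdd4d_co.K10.E6.P23
import Pool.Agent.Lib.MP_afdd4d_co.K10.E6.P24
import Pool.Agent.Lib.MP_afdd4d_co.K10.E6.P25
import Pool.Agent.Lib.MP_afdd4d_co.K10.E6.P26
import Pool.Agent.Lib.MP_afdd4d_co.K10.E6.P27
import Pool.Agent.Lib.MP_afdd4d_co.K10.E6.P28
import Pool.Agent.Lib.MP_afdd4d_co.K10.E6.P29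
import Pool.Agent.Lib.MP_afdd4d_co.K10.E6.P30
import Pool.Agent.Lib.MP_afdd4d_co.K10.E6.P31
import Pool.Agent.Lib.MP_afdd4d_co.K10.E6.P32

/-!
# Tables
-/

namespace Pool.Agent.Lib.MP_afdd4d_co.K10.E6

open K8

set_option maxRecDepth 100000
set_option exponentiation.threshold 10000000

/-- The slices of the chunk 736. -/
noncomputable def c736 : List (List ℕ) := [
  [tr p734_2,
   tr p735_2,
   p736_2,
   p736_3,
   p736_4,
   p736_5,
   p736_6,
   p736_7],
  [p736_8,
   p736_9,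
   p736_10,
   p736_11,
   p736_12,
   p736_13,
   p736_14,
   p736_15],
  [p736_16,
   p736_17,
   p736_18,
   p736_19,
   p736_20,
   p736_21,
   p736_22,
   p736_23],
  [p736_24,
   p736_25,
   p736_26,
   p736_27,
   p736_28,
   p736_29,
   p736_30,
   p736_31],
  [p736_32,
   p736_33,
   p736_34,
   p736_35,
   p736_36,
   p736_37,
   p736_38,
   p736_39],
  [p736_40,
   p736_41,
   p736_42,
   p736_43,
   p736_44,
   p736_45,
   p736_46,
   p736_47],
  [p736_48,
   p736_49,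
   p736_50,
   p736_51,
   p736_52,
   p736_53,
   p736_54,
   p736_55],
  [p736_56,
   p736_57,
   p736_58,
   p736_59,
   p736_60,
   p736_61,
   p736_62,
   p736_63]]

theorem k736 : eqNN c736 (slO 64 (D.chG 211 2) 8) = true := by decide +kernel

/-- The slices of the chunk 737. -/
noncomputable def c737 : List (List ℕ) := [
  [tr p734_3,
   tr p735_3,
   tr p736_3,
   p737_3,
   p737_4,
   p737_5,
   p737_6,
   p737_7],
  [p737_8,
   p737_9,
   p737_10,
   p737_11,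
   p737_12,
   p737_13,
   p737_14,
   p737_15],
  [s3_6 (s2_7 (s1_4 (s0_5 p736_17))),
   p737_17,
   p737_18,
   p737_19,
   p737_20,
   p737_21,
   p737_22,
   p737_23],
  [p737_24,
   p737_25,
   p737_26,
   p737_27,
   p737_28,
   p737_29,
   p737_30,
   p737_31],
  [p737_32,
   p737_33,
   p737_34,
   p737_35,
   p737_36,
   p737_37,
   p737_38,
   p737_39],
  [p737_40,
   p737_41,
   p737_42,
   p737_43,
   p737_44,
   p737_45,
   p737_46,
   p737_47],
  [p737_48,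
   p737_49,
   p737_50,
   p737_51,
   p737_52,
   p737_53,
   p737_54,
   p737_55],
  [p737_56,
   p737_57,
   p737_58,
   p737_59,
   p737_60,
   p737_61,
   p737_62,
   p737_63]]

theorem k737 : eqNN c737 (slO 64 (D.chG 211 3) 8) = true := by decide +kernel

/-- The slices of the chunk 738. -/
noncomputable def c738 : List (List ℕ) := [
  [tr p734_4,
   tr p735_4,
   tr p736_4,
   tr p737_4,
   p738_4,
   p738_5,
   p738_6,
   p738_7],
  [p738_8,
   p738_9,
   p738_10,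
   p738_11,
   p738_12,
   p738_13,
   p738_14,
   p738_15],
  [s3_6 (s2_7 (s1_4 (s0_5 p736_8))),
   s3_6 (s2_7 (s1_4 (s0_5 p737_8))),
   p738_18,
   p738_19,
   p738_20,
   p738_21,
   p738_22,
   p738_23],
  [p738_24,
   p738_25,
   p738_26,
   p738_27,
   p738_28,
   p738_29,
   p738_30,
   p738_31],
  [p738_32,
   p738_33,
   p738_34,
   p738_35,
   p738_36,
   p738_37,
   p738_38,
   p738_39],
  [p738_40,
   p738_41,
   p738_42,
   p738_43,
   p738_44,
   p738_45,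
   p738_46,
   p738_47],
  [p738_48,
   p738_49,
   p738_50,
   p738_51,
   p738_52,
   p738_53,
   p738_54,
   p738_55],
  [p738_56,
   p738_57,
   p738_58,
   p738_59,
   p738_60,
   p738_61,
   p738_62,
   p738_63]]

theorem k738 : eqNN c738 (slO 64 (D.chG 211 4) 8) = true := by decide +kernel

/-- The slices of the chunk 739. -/
noncomputable def c739 : List (List ℕ) := [
  [tr p734_5,
   tr p735_5,
   tr p736_5,
   tr p737_5,
   tr p738_5,
   p739_5,
   p739_6,
   p739_7],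
  [s3_6 (s2_7 (s1_4 (s0_5 p738_9))),
   p739_9,
   p739_10,
   p739_11,
   p739_12,
   p739_13,
   p739_14,
   p739_15],
  [s3_6 (s2_7 (s1_4 (s0_5 p736_9))),
   s3_6 (s2_7 (s1_4 (s0_5 p737_9))),
   p739_18,
   p739_19,
   p739_20,
   p739_21,
   p739_22,
   p739_23],
  [p739_24,
   p739_25,
   p739_26,
   p739_27,
   p739_28,
   p739_29,
   p739_30,
   p739_31],
  [p739_32,
   p739_33,
   p739_34,
   p739_35,
   p739_36,
   p739_37,
   p739_38,
   p739_39],
  [p739_40,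
   p739_41,
   p739_42,
   p739_43,
   p739_44,
   p739_45,
   p739_46,
   p739_47],
  [p739_48,
   p739_49,
   p739_50,
   p739_51,
   p739_52,
   p739_53,
   p739_54,
   p739_55],
  [p739_56,
   p739_57,
   p739_58,
   p739_59,
   p739_60,
   p739_61,
   p739_62,
   p739_63]]

theorem k739 : eqNN c739 (slO 64 (D.chG 211 5) 8) = true := by decide +kernel

end Pool.Agent.Lib.MP_afdd4d_co.K10.E6
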