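import Pool.Agent.Lib.MP_afdd4d_co.K10.E6.Dat
import Pool.Agent.Lib.MP_afdd4d_co.K10.E6.Mk
import Pool.Agent.Lib.MP_afdd4d_co.K8.F6Bl5
import Pool.Agent.Lib.MP_afdd4d_co.K10.E6.P0
import Pool.Agent.Lib.MP_afdd4d_co.K10.E6.P1
import Pool.Agent.Lib.MP_afdd4d_co.K10.E6.P2
import Pool.Agent.Lib.MP_afdd4d_co.K10.E6.P3
import Pool.Agent.Lib.MP_afdd4d_co.K10.E6.P4
import Pool.Agent.Lib.MP_afdd4d_co.K10.E6.P5
import Pool.Agent.Lib.MP_afdd4d_co.K10.E6.P6
import Pool.Agent.Lib.MP_afdd4d_co.K10.E6.P7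
import Pool.Agent.Lib.MP_afdd4d_co.K10.E6.P8
import Pool.Agent.Lib.MP_afdd4d_co.K10.E6.P9
import Pool.Agent.Lib.MP_afdd4d_co.K10.E6.P10
import Pool.Agent.Lib.MP_afdd4d_co.K10.E6.P11
import Pool.Agent.Lib.MP_afdd4d_co.K10.E6.P12
import Pool.Agent.Lib.MP_afdd4d_co.K10.E6.P13
import Pool.Agent.Lib.MP_afdd4d_co.K10.E6.P14
import Pool.Agent.Lib.MP_afdd4d_co.K10.E6.P15
import Pool.Agent.Lib.MP_afdd4d_co.K10.E6.P16
import Pool.Agent.Lib.MP_afdd4d_co.K10.E6.P17
import Pool.Agent.Lib.MP_afdd4d_co.K10.E6.P18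
import Pool.Agent.Lib.MP_afdd4d_co.K10.E6.P19
import Pool.Agent.Lib.MP_afdd4d_co.K10.E6.P20
import Pool.Agent.Lib.MP_afdd4d_co.K10.E6.P21
import Pool.Agent.Lib.MP_afdd4d_co.K10.E6.P22
import Pool.Agent.Lib.MP_afdd4d_co.K10.E6.P23
import Pool.Agent.Lib.MP_afdd4d_co.K10.E6.P24
import Pool.Agent.Lib.MP_afdd4d_co.K10.E6.P25
import Pool.Agent.Lib.MP_afdd4d_co.K10.E6.P26
import Pool.Agent.Lib.MP_afdd4d_co.K10.E6.P27
import Pool.Agent.Lib.MP_afdd4d_co.K10.E6.P28
import Pool.Agent.Lib.MP_afdd4d_co.K10.E6.P29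
import Pool.Agent.Lib.MP_afdd4d_co.K10.E6.P30
import Pool.Agent.Lib.MP_afdd4d_co.K10.E6.P31
import Pool.Agent.Lib.MP_afdd4d_co.K10.E6.P32

/-!
# Tables
-/

namespace Pool.Agent.Lib.MP_afdd4d_co.K10.E6

open K8

set_option maxRecDepth 100000
set_option exponentiation.threshold 10000000

/-- The slices of the chunk 740. -/
noncomputable def c740 : List (List ℕ) := [
  [tr p734_6,
   tr p735_6,
   tr p736_6,
   tr p737_6,
   tr p738_6,
   tr p739_6,
   p740_6,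
   p740_7],
  [s3_6 (s2_7 (s1_4 (s0_5 p738_24))),
   s3_6 (s2_7 (s1_4 (s0_5 p739_24))),
   p740_10,
   p740_11,
   p740_12,
   p740_13,
   p740_14,
   p740_15],
  [s3_6 (s2_7 (s1_4 (s0_5 p736_24))),
   s3_6 (s2_7 (s1_4 (s0_5 p737_24))),
   p740_18,
   p740_19,
   p740_20,
   p740_21,
   p740_22,
   p740_23],
  [p740_24,
   p740_25,
   p740_26,
   p740_27,
   p740_28,
   p740_29,
   p740_30,
   p740_31],
  [p740_32,
   p740_33,
   p740_34,
   p740_35,
   p740_36,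
   p740_37,
   p740_38,
   p740_39],
  [p740_40,
   p740_41,
   p740_42,
   p740_43,
   p740_44,
   p740_45,
   p740_46,
   p740_47],
  [p740_48,
   p740_49,
   p740_50,
   p740_51,
   p740_52,
   p740_53,
   p740_54,
   p740_55],
  [p740_56,
   p740_57,
   p740_58,
   p740_59,
   p740_60,
   p740_61,
   p740_62,
   p740_63]]

theorem k740 : eqNN c740 (slO 64 (D.chG 211 6) 8) = true := by decide +kernel

/-- The slices of the chunk 741. -/
noncomputable def c741 : List (List ℕ) := [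
  [tr p734_7,
   tr p735_7,
   tr p736_7,
   tr p737_7,
   tr p738_7,
   tr p739_7,
   tr p740_7,
   p741_7],
  [s3_6 (s2_7 (s1_4 (s0_5 p738_25))),
   s3_6 (s2_7 (s1_4 (s0_5 p739_25))),
   p741_10,
   p741_11,
   p741_12,
   p741_13,
   p741_14,
   p741_15],
  [s3_6 (s2_7 (s1_4 (s0_5 p736_25))),
   s3_6 (s2_7 (s1_4 (s0_5 p737_25))),
   p741_18,
   p741_19,
   p741_20,
   p741_21,
   p741_22,
   p741_23],
  [s3_6 (s2_7 (s1_4 (s0_5 p740_25))),
   p741_25,
   p741_26,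
   p741_27,
   p741_28,
   p741_29,
   p741_30,
   p741_31],
  [p741_32,
   p741_33,
   p741_34,
   p741_35,
   p741_36,
   p741_37,
   p741_38,
   p741_39],
  [p741_40,
   p741_41,
   p741_42,
   p741_43,
   p741_44,
   p741_45,
   p741_46,
   p741_47],
  [p741_48,
   p741_49,
   p741_50,
   p741_51,
   p741_52,
   p741_53,
   p741_54,
   p741_55],
  [p741_56,
   p741_57,
   p741_58,
   p741_59,
   p741_60,
   p741_61,
   p741_62,
   p741_63]]

theorem k741 : eqNN c741 (slO 64 (D.chG 211 7) 8) = true := by decide +kernel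

/-- The slices of the chunk 742. -/
noncomputable def c742 : List (List ℕ) := [
  [tr p734_10,
   tr p735_10,
   tr p736_10,
   tr p737_10,
   tr p738_10,
   tr p739_10,
   tr p740_10,
   tr p741_10],
  [s3_6 (s2_7 (s1_4 (s0_5 p738_20))),
   s3_6 (s2_7 (s1_4 (s0_5 p739_20))),
   p742_10,
   p742_11,
   p742_12,
   p742_13,
   p742_14,
   p742_15],
  [s3_6 (s2_7 (s1_4 (s0_5 p736_20))),
   s3_6 (s2_7 (s1_4 (s0_5 p737_20))),
   p742_18,
   p742_19,
   p742_20,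
   p742_21,
   p742_22,
   p742_23],
  [s3_6 (s2_7 (s1_4 (s0_5 p740_20))),
   s3_6 (s2_7 (s1_4 (s0_5 p741_20))),
   p742_26,
   p742_27,
   p742_28,
   p742_29,
   p742_30,
   p742_31],
  [p742_32,
   p742_33,
   p742_34,
   p742_35,
   p742_36,
   p742_37,
   p742_38,
   p742_39],
  [p742_40,
   p742_41,
   p742_42,
   p742_43,
   p742_44,
   p742_45,
   p742_46,
   p742_47],
  [p742_48,
   p742_49,
   p742_50,
   p742_51,
   p742_52,
   p742_53,
   p742_54,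
   p742_55],
  [p742_56,
   p742_57,
   p742_58,
   p742_59,
   p742_60,
   p742_61,
   p742_62,
   p742_63]]

theorem k742 : eqNN c742 (slO 64 (D.chG 211 10) 8) = true := by decide +kernel

/-- The slices of the chunk 743. -/
noncomputable def c743 : List (List ℕ) := [
  [tr p734_11,
   tr p735_11,
   tr p736_11,
   tr p737_11,
   tr p738_11,
   tr p739_11,
   tr p740_11,
   tr p741_11],
  [s3_6 (s2_7 (s1_4 (s0_5 p738_21))),
   s3_6 (s2_7 (s1_4 (s0_5 p739_21))),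
   tr p742_11,
   p743_11,
   p743_12,
   p743_13,
   p743_14,
   p743_15],
  [s3_6 (s2_7 (s1_4 (s0_5 p736_21))),
   s3_6 (s2_7 (s1_4 (s0_5 p737_21))),
   p743_18,
   p743_19,
   s3_6 (s2_7 (s1_4 (s0_5 p742_21))),
   p743_21,
   p743_22,
   p743_23],
  [s3_6 (s2_7 (s1_4 (s0_5 p740_21))),
   s3_6 (s2_7 (s1_4 (s0_5 p741_21))),
   p743_26,
   p743_27,
   p743_28,
   p743_29,
   p743_30,
   p743_31],
  [p743_32,
   p743_33,
   p743_34,
   p743_35,
   p743_36,
   p743_37,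
   p743_38,
   p743_39],
  [p743_40,
   p743_41,
   p743_42,
   p743_43,
   p743_44,
   p743_45,
   p743_46,
   p743_47],
  [p743_48,
   p743_49,
   p743_50,
   p743_51,
   p743_52,
   p743_53,
   p743_54,
   p743_55],
  [p743_56,
   p743_57,
   p743_58,
   p743_59,
   p743_60,
   p743_61,
   p743_62,
   p743_63]]

theorem k743 : eqNN c743 (slO 64 (D.chG 211 11) 8) = true := by decide +kernel

end Pool.Agent.Lib.MP_afdd4d_co.K10.E6
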