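import Pool.Agent.Lib.MP_afdd4d_co.K10.E6.Dat
import Pool.Agent.Lib.MP_afdd4d_co.K10.E6.Mk
import Pool.Agent.Lib.MP_afdd4d_co.K8.F6Bl5
import Pool.Agent.Lib.MP_afdd4d_co.K10.E6.P0
import Pool.Agent.Lib.MP_afdd4d_co.K10.E6.P1
import Pool.Agent.Lib.MP_afdd4d_co.K10.E6.P2
import Pool.Agent.Lib.MP_afdd4d_co.K10.E6.P3
import Pool.Agent.Lib.MP_afdd4d_co.K10.E6.P4
import Pool.Agent.Lib.MP_afdd4d_co.K10.E6.P5
import Pool.Agent.Lib.MP_afdd4d_co.K10.E6.P6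
import Pool.Agent.Lib.MP_afdd4d_co.K10.E6.P7
import Pool.Agent.Lib.MP_afdd4d_co.K10.E6.P8
import Pool.Agent.Lib.MP_afdd4d_co.K10.E6.P9
import Pool.Agent.Lib.MP_afdd4d_co.K10.E6.P10
import Pool.Agent.Lib.MP_afdd4d_co.K10.E6.P11
import Pool.Agent.Lib.MP_afdd4d_co.K10.E6.P12
import Pool.Agent.Lib.MP_afdd4d_co.K10.E6.P13
import Pool.Agent.Lib.MP_afdd4d_co.K10.E6.P14
import Pool.Agent.Lib.MP_afdd4d_co.K10.E6.P15
import Pool.Agent.Lib.MP_afdd4d_co.K10.E6.P16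
import Pool.Agent.Lib.MP_afdd4d_co.K10.E6.P17
import Pool.Agent.Lib.MP_afdd4d_co.K10.E6.P18
import Pool.Agent.Lib.MP_afdd4d_co.K10.E6.P19
import Pool.Agent.Lib.MP_afdd4d_co.K10.E6.P20
import Pool.Agent.Lib.MP_afdd4d_co.K10.E6.P21
import Pool.Agent.Lib.MP_afdd4d_co.K10.E6.P22
import Pool.Agent.Lib.MP_afdd4d_co.K10.E6.P23
import Pool.Agent.Lib.MP_afdd4d_co.K10.E6.P24
import Pool.Agent.Lib.MP_afdd4d_co.K10.E6.P25
import Pool.Agent.Lib.MP_afdd4d_co.K10.E6.P26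
import Pool.Agent.Lib.MP_afdd4d_co.K10.E6.P27
import Pool.Agent.Lib.MP_afdd4d_co.K10.E6.P28
import Pool.Agent.Lib.MP_afdd4d_co.K10.E6.P29
import Pool.Agent.Lib.MP_afdd4d_co.K10.E6.P30
import Pool.Agent.Lib.MP_afdd4d_co.K10.E6.P31
import Pool.Agent.Lib.MP_afdd4d_co.K10.E6.P32

/-!
# Tables
-/

namespace Pool.Agent.Lib.MP_afdd4d_co.K10.E6

open K8

set_option maxRecDepth 100000
set_option exponentiation.threshold 10000000

/-- The slices of the chunk 744. -/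
noncomputable def c744 : List (List ℕ) := [
  [tr p734_12,
   tr p735_12,
   tr p736_12,
   tr p737_12,
   tr p738_12,
   tr p739_12,
   tr p740_12,
   tr p741_12],
  [s3_6 (s2_7 (s1_4 (s0_5 p738_12))),
   s3_6 (s2_7 (s1_4 (s0_5 p739_12))),
   tr p742_12,
   tr p743_12,
   p744_12,
   p744_13,
   p744_14,
   p744_15],
  [s3_6 (s2_7 (s1_4 (s0_5 p736_12))),
   s3_6 (s2_7 (s1_4 (s0_5 p737_12))),
   p744_18,
   p744_19,
   s3_6 (s2_7 (s1_4 (s0_5 p742_12))),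
   s3_6 (s2_7 (s1_4 (s0_5 p743_12))),
   p744_22,
   p744_23],
  [s3_6 (s2_7 (s1_4 (s0_5 p740_12))),
   s3_6 (s2_7 (s1_4 (s0_5 p741_12))),
   s6_7 (s4_5 (s2_3 (s0_1 p744_22))),
   s6_7 (s4_5 (s2_3 (s0_1 p744_23))),
   s6_7 (s4_5 (s2_3 (s0_1 p744_14))),
   s6_7 (s4_5 (s2_3 (s0_1 p744_15))),
   p744_30,
   p744_31],
  [p744_32,
   p744_33,
   p744_34,
   p744_35,
   p744_36,
   p744_37,
   p744_38,
   p744_39],
  [s6_7 (s4_5 (s2_3 (s0_1 p744_36))),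
   s6_7 (s4_5 (s2_3 (s0_1 p744_37))),
   p744_42,
   p744_43,
   p744_44,
   p744_45,
   p744_46,
   p744_47],
  [s6_7 (s4_5 (s2_3 (s0_1 p744_34))),
   s6_7 (s4_5 (s2_3 (s0_1 p744_35))),
   p744_50,
   p744_51,
   s6_7 (s4_5 (s2_3 (s0_1 p744_42))),
   s6_7 (s4_5 (s2_3 (s0_1 p744_43))),
   p744_54,
   p744_55],
  [s6_7 (s4_5 (s2_3 (s0_1 p744_38))),
   s6_7 (s4_5 (s2_3 (s0_1 p744_39))),
   s6_7 (s4_5 (s2_3 (s0_1 p744_54))),
   s6_7 (s4_5 (s2_3 (s0_1 p744_55))),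
   s6_7 (s4_5 (s2_3 (s0_1 p744_46))),
   s6_7 (s4_5 (s2_3 (s0_1 p744_47))),
   p744_62,
   p744_63]]

theorem k744 : eqNN c744 (slO 64 (D.chG 211 12) 8) = true := by decide +kernel

/-- The slices of the chunk 745. -/
noncomputable def c745 : List (List ℕ) := [
  [tr p734_13,
   tr p735_13,
   tr p736_13,
   tr p737_13,
   tr p738_13,
   tr p739_13,
   tr p740_13,
   tr p741_13],
  [s3_6 (s2_7 (s1_4 (s0_5 p738_13))),
   s3_6 (s2_7 (s1_4 (s0_5 p739_13))),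
   tr p742_13,
   tr p743_13,
   tr p744_13,
   p745_13,
   p745_14,
   p745_15],
  [s3_6 (s2_7 (s1_4 (s0_5 p736_13))),
   s3_6 (s2_7 (s1_4 (s0_5 p737_13))),
   p745_18,
   p745_19,
   s3_6 (s2_7 (s1_4 (s0_5 p742_13))),
   s3_6 (s2_7 (s1_4 (s0_5 p743_13))),
   p745_22,
   p745_23],
  [s3_6 (s2_7 (s1_4 (s0_5 p740_13))),
   s3_6 (s2_7 (s1_4 (s0_5 p741_13))),
   s6_7 (s4_5 (s2_3 (s0_1 p745_22))),
   s6_7 (s4_5 (s2_3 (s0_1 p745_23))),
   s6_7 (s4_5 (s2_3 (s0_1 p745_14))),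
   s6_7 (s4_5 (s2_3 (s0_1 p745_15))),
   p745_30,
   p745_31],
  [p745_32,
   p745_33,
   p745_34,
   p745_35,
   p745_36,
   p745_37,
   p745_38,
   p745_39],
  [s6_7 (s4_5 (s2_3 (s0_1 p745_36))),
   s6_7 (s4_5 (s2_3 (s0_1 p745_37))),
   p745_42,
   p745_43,
   p745_44,
   p745_45,
   p745_46,
   p745_47],
  [s6_7 (s4_5 (s2_3 (s0_1 p745_34))),
   s6_7 (s4_5 (s2_3 (s0_1 p745_35))),
   p745_50,
   p745_51,
   s6_7 (s4_5 (s2_3 (s0_1 p745_42))),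
   s6_7 (s4_5 (s2_3 (s0_1 p745_43))),
   p745_54,
   p745_55],
  [s6_7 (s4_5 (s2_3 (s0_1 p745_38))),
   s6_7 (s4_5 (s2_3 (s0_1 p745_39))),
   s6_7 (s4_5 (s2_3 (s0_1 p745_54))),
   s6_7 (s4_5 (s2_3 (s0_1 p745_55))),
   s6_7 (s4_5 (s2_3 (s0_1 p745_46))),
   s6_7 (s4_5 (s2_3 (s0_1 p745_47))),
   p745_62,
   p745_63]]

theorem k745 : eqNN c745 (slO 64 (D.chG 211 13) 8) = true := by decide +kernel

/-- The slices of the chunk 746. -/
noncomputable def c746 : List (List ℕ) := [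
  [tr p734_14,
   tr p735_14,
   tr p736_14,
   tr p737_14,
   tr p738_14,
   tr p739_14,
   tr p740_14,
   tr p741_14],
  [s3_6 (s2_7 (s1_4 (s0_5 p738_28))),
   s3_6 (s2_7 (s1_4 (s0_5 p739_28))),
   tr p742_14,
   tr p743_14,
   tr p744_14,
   tr p745_14,
   p746_14,
   p746_15],
  [s3_6 (s2_7 (s1_4 (s0_5 p736_28))),
   s3_6 (s2_7 (s1_4 (s0_5 p737_28))),
   p746_18,
   p746_19,
   s3_6 (s2_7 (s1_4 (s0_5 p742_28))),
   s3_6 (s2_7 (s1_4 (s0_5 p743_28))),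
   p746_22,
   p746_23],
  [s3_6 (s2_7 (s1_4 (s0_5 p740_28))),
   s3_6 (s2_7 (s1_4 (s0_5 p741_28))),
   p746_26,
   p746_27,
   p746_28,
   p746_29,
   p746_30,
   p746_31],
  [p746_32,
   p746_33,
   p746_34,
   p746_35,
   p746_36,
   p746_37,
   p746_38,
   p746_39],
  [p746_40,
   p746_41,
   p746_42,
   p746_43,
   p746_44,
   p746_45,
   p746_46,
   p746_47],
  [p746_48,
   p746_49,
   p746_50,
   p746_51,
   p746_52,
   p746_53,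
   p746_54,
   p746_55],
  [p746_56,
   p746_57,
   p746_58,
   p746_59,
   p746_60,
   p746_61,
   p746_62,
   p746_63]]

theorem k746 : eqNN c746 (slO 64 (D.chG 211 14) 8) = true := by decide +kernel

/-- The slices of the chunk 747. -/
noncomputable def c747 : List (List ℕ) := [
  [tr p734_15,
   tr p735_15,
   tr p736_15,
   tr p737_15,
   tr p738_15,
   tr p739_15,
   tr p740_15,
   tr p741_15],
  [s3_6 (s2_7 (s1_4 (s0_5 p738_29))),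
   s3_6 (s2_7 (s1_4 (s0_5 p739_29))),
   tr p742_15,
   tr p743_15,
   tr p744_15,
   tr p745_15,
   tr p746_15,
   p747_15],
  [s3_6 (s2_7 (s1_4 (s0_5 p736_29))),
   s3_6 (s2_7 (s1_4 (s0_5 p737_29))),
   p747_18,
   p747_19,
   s3_6 (s2_7 (s1_4 (s0_5 p742_29))),
   s3_6 (s2_7 (s1_4 (s0_5 p743_29))),
   p747_22,
   p747_23],
  [s3_6 (s2_7 (s1_4 (s0_5 p740_29))),
   s3_6 (s2_7 (s1_4 (s0_5 p741_29))),
   p747_26,
   p747_27,
   s3_6 (s2_7 (s1_4 (s0_5 p746_29))),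
   p747_29,
   p747_30,
   p747_31],
  [p747_32,
   p747_33,
   p747_34,
   p747_35,
   p747_36,
   p747_37,
   p747_38,
   p747_39],
  [p747_40,
   p747_41,
   p747_42,
   p747_43,
   p747_44,
   p747_45,
   p747_46,
   p747_47],
  [p747_48,
   p747_49,
   p747_50,
   p747_51,
   p747_52,
   p747_53,
   p747_54,
   p747_55],
  [p747_56,
   p747_57,
   p747_58,
   p747_59,
   p747_60,
   p747_61,
   p747_62,
   p747_63]]

theorem k747 : eqNN c747 (slO 64 (D.chG 211 15) 8) = true := by decide +kernel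

end Pool.Agent.Lib.MP_afdd4d_co.K10.E6
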