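import Pool.Agent.Lib.MP_afdd4d_co.K10.E6.Dat
import Pool.Agent.Lib.MP_afdd4d_co.K10.E6.Mk
import Pool.Agent.Lib.MP_afdd4d_co.K8.F6Bl5
import Pool.Agent.Lib.MP_afdd4d_co.K10.E6.P0
import Pool.Agent.Lib.MP_afdd4d_co.K10.E6.P1
import Pool.Agent.Lib.MP_afdd4d_co.K10.E6.P2
import Pool.Agent.Lib.MP_afdd4d_co.K10.E6.P3
import Pool.Agent.Lib.MP_afdd4d_co.K10.E6.P4
import Pool.Agent.Lib.MP_afdd4d_co.K10.E6.P5
import Pool.Agent.Lib.MP_afdd4d_co.K10.E6.P6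
import Pool.Agent.Lib.MP_afdd4d_co.K10.E6.P7
import Pool.Agent.Lib.MP_afdd4d_co.K10.E6.P8
import Pool.Agent.Lib.MP_afdd4d_co.K10.E6.P9
import Pool.Agent.Lib.MP_afdd4d_co.K10.E6.P10
import Pool.Agent.Lib.MP_afdd4d_co.K10.E6.P11
import Pool.Agent.Lib.MP_afdd4d_co.K10.E6.P12
import Pool.Agent.Lib.MP_afdd4d_co.K10.E6.P13
import Pool.Agent.Lib.MP_afdd4d_co.K10.E6.P14
import Pool.Agent.Lib.MP_afdd4d_co.K10.E6.P15
import Pool.Agent.Lib.MP_afdd4d_co.K10.E6.P16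
import Pool.Agent.Lib.MP_afdd4d_co.K10.E6.P17
import Pool.Agent.Lib.MP_afdd4d_co.K10.E6.P18
import Pool.Agent.Lib.MP_afdd4d_co.K10.E6.P19
import Pool.Agent.Lib.MP_afdd4d_co.K10.E6.P20
import Pool.Agent.Lib.MP_afdd4d_co.K10.E6.P21
import Pool.Agent.Lib.MP_afdd4d_co.K10.E6.P22
import Pool.Agent.Lib.MP_afdd4d_co.K10.E6.P23
import Pool.Agent.Lib.MP_afdd4d_co.K10.E6.P24
import Pool.Agent.Lib.MP_afdd4d_co.K10.E6.P25
import Pool.Agent.Lib.MP_afdd4d_co.K10.E6.P26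
import Pool.Agent.Lib.MP_afdd4d_co.K10.E6.P27
import Pool.Agent.Lib.MP_afdd4d_co.K10.E6.P28
import Pool.Agent.Lib.MP_afdd4d_co.K10.E6.P29
import Pool.Agent.Lib.MP_afdd4d_co.K10.E6.P30
import Pool.Agent.Lib.MP_afdd4d_co.K10.E6.P31
import Pool.Agent.Lib.MP_afdd4d_co.K10.E6.P32

/-!
# Tables
-/

namespace Pool.Agent.Lib.MP_afdd4d_co.K10.E6

open K8

set_option maxRecDepth 100000
set_option exponentiation.threshold 10000000

/-- The slices of the chunk 748. -/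
noncomputable def c748 : List (List ℕ) := [
  [tr p734_18,
   tr p735_18,
   tr p736_18,
   tr p737_18,
   tr p738_18,
   tr p739_18,
   tr p740_18,
   tr p741_18],
  [s3_6 (s2_7 (s1_4 (s0_5 p738_18))),
   s3_6 (s2_7 (s1_4 (s0_5 p739_18))),
   tr p742_18,
   tr p743_18,
   tr p744_18,
   tr p745_18,
   tr p746_18,
   tr p747_18],
  [s3_6 (s2_7 (s1_4 (s0_5 p736_18))),
   s3_6 (s2_7 (s1_4 (s0_5 p737_18))),
   p748_18,
   p748_19,
   s3_6 (s2_7 (s1_4 (s0_5 p742_18))),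
   s3_6 (s2_7 (s1_4 (s0_5 p743_18))),
   p748_22,
   p748_23],
  [s3_6 (s2_7 (s1_4 (s0_5 p740_18))),
   s3_6 (s2_7 (s1_4 (s0_5 p741_18))),
   s6_7 (s4_5 (s2_3 (s0_1 p748_22))),
   s6_7 (s4_5 (s2_3 (s0_1 p748_23))),
   s3_6 (s2_7 (s1_4 (s0_5 p746_18))),
   s3_6 (s2_7 (s1_4 (s0_5 p747_18))),
   p748_30,
   p748_31],
  [p748_32,
   p748_33,
   p748_34,
   p748_35,
   p748_36,
   p748_37,
   p748_38,
   p748_39],
  [s6_7 (s4_5 (s2_3 (s0_1 p748_36))),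
   s6_7 (s4_5 (s2_3 (s0_1 p748_37))),
   p748_42,
   p748_43,
   p748_44,
   p748_45,
   p748_46,
   p748_47],
  [s6_7 (s4_5 (s2_3 (s0_1 p748_34))),
   s6_7 (s4_5 (s2_3 (s0_1 p748_35))),
   p748_50,
   p748_51,
   s6_7 (s4_5 (s2_3 (s0_1 p748_42))),
   s6_7 (s4_5 (s2_3 (s0_1 p748_43))),
   p748_54,
   p748_55],
  [s6_7 (s4_5 (s2_3 (s0_1 p748_38))),
   s6_7 (s4_5 (s2_3 (s0_1 p748_39))),
   s6_7 (s4_5 (s2_3 (s0_1 p748_54))),
   s6_7 (s4_5 (s2_3 (s0_1 p748_55))),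
   s6_7 (s4_5 (s2_3 (s0_1 p748_46))),
   s6_7 (s4_5 (s2_3 (s0_1 p748_47))),
   p748_62,
   p748_63]]

theorem k748 : eqNN c748 (slO 64 (D.chG 211 18) 8) = true := by decide +kernel

/-- The slices of the chunk 749. -/
noncomputable def c749 : List (List ℕ) := [
  [tr p734_19,
   tr p735_19,
   tr p736_19,
   tr p737_19,
   tr p738_19,
   tr p739_19,
   tr p740_19,
   tr p741_19],
  [s3_6 (s2_7 (s1_4 (s0_5 p738_19))),
   s3_6 (s2_7 (s1_4 (s0_5 p739_19))),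
   tr p742_19,
   tr p743_19,
   tr p744_19,
   tr p745_19,
   tr p746_19,
   tr p747_19],
  [s3_6 (s2_7 (s1_4 (s0_5 p736_19))),
   s3_6 (s2_7 (s1_4 (s0_5 p737_19))),
   tr p748_19,
   p749_19,
   s3_6 (s2_7 (s1_4 (s0_5 p742_19))),
   s3_6 (s2_7 (s1_4 (s0_5 p743_19))),
   p749_22,
   p749_23],
  [s3_6 (s2_7 (s1_4 (s0_5 p740_19))),
   s3_6 (s2_7 (s1_4 (s0_5 p741_19))),
   s6_7 (s4_5 (s2_3 (s0_1 p749_22))),
   s6_7 (s4_5 (s2_3 (s0_1 p749_23))),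
   s3_6 (s2_7 (s1_4 (s0_5 p746_19))),
   s3_6 (s2_7 (s1_4 (s0_5 p747_19))),
   p749_30,
   p749_31],
  [p749_32,
   p749_33,
   p749_34,
   p749_35,
   p749_36,
   p749_37,
   p749_38,
   p749_39],
  [s6_7 (s4_5 (s2_3 (s0_1 p749_36))),
   s6_7 (s4_5 (s2_3 (s0_1 p749_37))),
   p749_42,
   p749_43,
   p749_44,
   p749_45,
   p749_46,
   p749_47],
  [s6_7 (s4_5 (s2_3 (s0_1 p749_34))),
   s6_7 (s4_5 (s2_3 (s0_1 p749_35))),
   p749_50,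
   p749_51,
   s6_7 (s4_5 (s2_3 (s0_1 p749_42))),
   s6_7 (s4_5 (s2_3 (s0_1 p749_43))),
   p749_54,
   p749_55],
  [s6_7 (s4_5 (s2_3 (s0_1 p749_38))),
   s6_7 (s4_5 (s2_3 (s0_1 p749_39))),
   s6_7 (s4_5 (s2_3 (s0_1 p749_54))),
   s6_7 (s4_5 (s2_3 (s0_1 p749_55))),
   s6_7 (s4_5 (s2_3 (s0_1 p749_46))),
   s6_7 (s4_5 (s2_3 (s0_1 p749_47))),
   p749_62,
   p749_63]]

theorem k749 : eqNN c749 (slO 64 (D.chG 211 19) 8) = true := by decide +kernel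

/-- The slices of the chunk 750. -/
noncomputable def c750 : List (List ℕ) := [
  [tr p734_22,
   tr p735_22,
   tr p736_22,
   tr p737_22,
   tr p738_22,
   tr p739_22,
   tr p740_22,
   tr p741_22],
  [s3_6 (s2_7 (s1_4 (s0_5 p738_26))),
   s3_6 (s2_7 (s1_4 (s0_5 p739_26))),
   tr p742_22,
   tr p743_22,
   tr p744_22,
   tr p745_22,
   tr p746_22,
   tr p747_22],
  [s3_6 (s2_7 (s1_4 (s0_5 p736_26))),
   s3_6 (s2_7 (s1_4 (s0_5 p737_26))),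
   tr p748_22,
   tr p749_22,
   s3_6 (s2_7 (s1_4 (s0_5 p742_26))),
   s3_6 (s2_7 (s1_4 (s0_5 p743_26))),
   p750_22,
   p750_23],
  [s3_6 (s2_7 (s1_4 (s0_5 p740_26))),
   s3_6 (s2_7 (s1_4 (s0_5 p741_26))),
   p750_26,
   p750_27,
   s3_6 (s2_7 (s1_4 (s0_5 p746_26))),
   s3_6 (s2_7 (s1_4 (s0_5 p747_26))),
   p750_30,
   p750_31],
  [p750_32,
   p750_33,
   p750_34,
   p750_35,
   p750_36,
   p750_37,
   p750_38,
   p750_39],
  [p750_40,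
   p750_41,
   p750_42,
   p750_43,
   p750_44,
   p750_45,
   p750_46,
   p750_47],
  [p750_48,
   p750_49,
   p750_50,
   p750_51,
   p750_52,
   p750_53,
   p750_54,
   p750_55],
  [p750_56,
   p750_57,
   p750_58,
   p750_59,
   p750_60,
   p750_61,
   p750_62,
   p750_63]]

theorem k750 : eqNN c750 (slO 64 (D.chG 211 22) 8) = true := by decide +kernel

/-- The slices of the chunk 751. -/
noncomputable def c751 : List (List ℕ) := [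
  [tr p734_23,
   tr p735_23,
   tr p736_23,
   tr p737_23,
   tr p738_23,
   tr p739_23,
   tr p740_23,
   tr p741_23],
  [s3_6 (s2_7 (s1_4 (s0_5 p738_27))),
   s3_6 (s2_7 (s1_4 (s0_5 p739_27))),
   tr p742_23,
   tr p743_23,
   tr p744_23,
   tr p745_23,
   tr p746_23,
   tr p747_23],
  [s3_6 (s2_7 (s1_4 (s0_5 p736_27))),
   s3_6 (s2_7 (s1_4 (s0_5 p737_27))),
   tr p748_23,
   tr p749_23,
   s3_6 (s2_7 (s1_4 (s0_5 p742_27))),
   s3_6 (s2_7 (s1_4 (s0_5 p743_27))),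
   tr p750_23,
   p751_23],
  [s3_6 (s2_7 (s1_4 (s0_5 p740_27))),
   s3_6 (s2_7 (s1_4 (s0_5 p741_27))),
   s3_6 (s2_7 (s1_4 (s0_5 p750_27))),
   p751_27,
   s3_6 (s2_7 (s1_4 (s0_5 p746_27))),
   s3_6 (s2_7 (s1_4 (s0_5 p747_27))),
   p751_30,
   p751_31],
  [p751_32,
   p751_33,
   p751_34,
   p751_35,
   p751_36,
   p751_37,
   p751_38,
   p751_39],
  [p751_40,
   p751_41,
   p751_42,
   p751_43,
   p751_44,
   p751_45,
   p751_46,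
   p751_47],
  [p751_48,
   p751_49,
   p751_50,
   p751_51,
   p751_52,
   p751_53,
   p751_54,
   p751_55],
  [p751_56,
   p751_57,
   p751_58,
   p751_59,
   p751_60,
   p751_61,
   p751_62,
   p751_63]]

theorem k751 : eqNN c751 (slO 64 (D.chG 211 23) 8) = true := by decide +kernel

end Pool.Agent.Lib.MP_afdd4d_co.K10.E6
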