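import Pool.Agent.Lib.MP_afdd4d_co.K10.E6.Dat
import Pool.Agent.Lib.MP_afdd4d_co.K10.E6.Mk
import Pool.Agent.Lib.MP_afdd4d_co.K8.F6Bl5
import Pool.Agent.Lib.MP_afdd4d_co.K10.E6.P0
import Pool.Agent.Lib.MP_afdd4d_co.K10.E6.P1
import Pool.Agent.Lib.MP_afdd4d_co.K10.E6.P2
import Pool.Agent.Lib.MP_afdd4d_co.K10.E6.P3
import Pool.Agent.Lib.MP_afdd4d_co.K10.E6.P4
import Pool.Agent.Lib.MP_afdd4d_co.K10.E6.P5
import Pool.Agent.Lib.MP_afdd4d_co.K10.E6.P6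
import Pool.Agent.Lib.MP_afdd4d_co.K10.E6.P7
import Pool.Agent.Lib.MP_afdd4d_co.K10.E6.P8
import Pool.Agent.Lib.MP_afdd4d_co.K10.E6.P9
import Pool.Agent.Lib.MP_afdd4d_co.K10.E6.P10
import Pool.Agent.Lib.MP_afdd4d_co.K10.E6.P11
import Pool.Agent.Lib.MP_afdd4d_co.K10.E6.P12
import Pool.Agent.Lib.MP_afdd4d_co.K10.E6.P13
import Pool.Agent.Lib.MP_afdd4d_co.K10.E6.P14
import Pool.Agent.Lib.MP_afdd4d_co.K10.E6.P15
import Pool.Agent.Lib.MP_afdd4d_co.K10.E6.P16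
import Pool.Agent.Lib.MP_afdd4d_co.K10.E6.P17
import Pool.Agent.Lib.MP_afdd4d_co.K10.E6.P18
import Pool.Agent.Lib.MP_afdd4d_co.K10.E6.P19
import Pool.Agent.Lib.MP_afdd4d_co.K10.E6.P20
import Pool.Agent.Lib.MP_afdd4d_co.K10.E6.P21
import Pool.Agent.Lib.MP_afdd4d_co.K10.E6.P22
import Pool.Agent.Lib.MP_afdd4d_co.K10.E6.P23
import Pool.Agent.Lib.MP_afdd4d_co.K10.E6.P24
import Pool.Agent.Lib.MP_afdd4d_co.K10.E6.P25
import Pool.Agent.Lib.MP_afdd4d_co.K10.E6.P26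
import Pool.Agent.Lib.MP_afdd4d_co.K10.E6.P27
import Pool.Agent.Lib.MP_afdd4d_co.K10.E6.P28
import Pool.Agent.Lib.MP_afdd4d_co.K10.E6.P29
import Pool.Agent.Lib.MP_afdd4d_co.K10.E6.P30
import Pool.Agent.Lib.MP_afdd4d_co.K10.E6.P31
import Pool.Agent.Lib.MP_afdd4d_co.K10.E6.P32

/-!
# Tables
-/

namespace Pool.Agent.Lib.MP_afdd4d_co.K10.E6

open K8

set_option maxRecDepth 100000
set_option exponentiation.threshold 10000000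

/-- The slices of the chunk 752. -/
noncomputable def c752 : List (List ℕ) := [
  [tr p734_30,
   tr p735_30,
   tr p736_30,
   tr p737_30,
   tr p738_30,
   tr p739_30,
   tr p740_30,
   tr p741_30],
  [s3_6 (s2_7 (s1_4 (s0_5 p738_30))),
   s3_6 (s2_7 (s1_4 (s0_5 p739_30))),
   tr p742_30,
   tr p743_30,
   tr p744_30,
   tr p745_30,
   tr p746_30,
   tr p747_30],
  [s3_6 (s2_7 (s1_4 (s0_5 p736_30))),
   s3_6 (s2_7 (s1_4 (s0_5 p737_30))),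
   tr p748_30,
   tr p749_30,
   s3_6 (s2_7 (s1_4 (s0_5 p742_30))),
   s3_6 (s2_7 (s1_4 (s0_5 p743_30))),
   tr p750_30,
   tr p751_30],
  [s3_6 (s2_7 (s1_4 (s0_5 p740_30))),
   s3_6 (s2_7 (s1_4 (s0_5 p741_30))),
   s3_6 (s2_7 (s1_4 (s0_5 p750_30))),
   s3_6 (s2_7 (s1_4 (s0_5 p751_30))),
   s3_6 (s2_7 (s1_4 (s0_5 p746_30))),
   s3_6 (s2_7 (s1_4 (s0_5 p747_30))),
   p752_30,
   p752_31],
  [p752_32,
   p752_33,
   p752_34,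
   p752_35,
   p752_36,
   p752_37,
   p752_38,
   p752_39],
  [s6_7 (s4_5 (s2_3 (s0_1 p752_36))),
   s6_7 (s4_5 (s2_3 (s0_1 p752_37))),
   p752_42,
   p752_43,
   p752_44,
   p752_45,
   p752_46,
   p752_47],
  [s6_7 (s4_5 (s2_3 (s0_1 p752_34))),
   s6_7 (s4_5 (s2_3 (s0_1 p752_35))),
   p752_50,
   p752_51,
   s6_7 (s4_5 (s2_3 (s0_1 p752_42))),
   s6_7 (s4_5 (s2_3 (s0_1 p752_43))),
   p752_54,
   p752_55],
  [s6_7 (s4_5 (s2_3 (s0_1 p752_38))),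
   s6_7 (s4_5 (s2_3 (s0_1 p752_39))),
   s6_7 (s4_5 (s2_3 (s0_1 p752_54))),
   s6_7 (s4_5 (s2_3 (s0_1 p752_55))),
   s6_7 (s4_5 (s2_3 (s0_1 p752_46))),
   s6_7 (s4_5 (s2_3 (s0_1 p752_47))),
   p752_62,
   p752_63]]

theorem k752 : eqNN c752 (slO 64 (D.chG 211 30) 8) = true := by decide +kernel

/-- The slices of the chunk 753. -/
noncomputable def c753 : List (List ℕ) := [
  [tr p734_31,
   tr p735_31,
   tr p736_31,
   tr p737_31,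
   tr p738_31,
   tr p739_31,
   tr p740_31,
   tr p741_31],
  [s3_6 (s2_7 (s1_4 (s0_5 p738_31))),
   s3_6 (s2_7 (s1_4 (s0_5 p739_31))),
   tr p742_31,
   tr p743_31,
   tr p744_31,
   tr p745_31,
   tr p746_31,
   tr p747_31],
  [s3_6 (s2_7 (s1_4 (s0_5 p736_31))),
   s3_6 (s2_7 (s1_4 (s0_5 p737_31))),
   tr p748_31,
   tr p749_31,
   s3_6 (s2_7 (s1_4 (s0_5 p742_31))),
   s3_6 (s2_7 (s1_4 (s0_5 p743_31))),
   tr p750_31,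
   tr p751_31],
  [s3_6 (s2_7 (s1_4 (s0_5 p740_31))),
   s3_6 (s2_7 (s1_4 (s0_5 p741_31))),
   s3_6 (s2_7 (s1_4 (s0_5 p750_31))),
   s3_6 (s2_7 (s1_4 (s0_5 p751_31))),
   s3_6 (s2_7 (s1_4 (s0_5 p746_31))),
   s3_6 (s2_7 (s1_4 (s0_5 p747_31))),
   tr p752_31,
   p753_31],
  [p753_32,
   p753_33,
   p753_34,
   p753_35,
   p753_36,
   p753_37,
   p753_38,
   p753_39],
  [s6_7 (s4_5 (s2_3 (s0_1 p753_36))),
   s6_7 (s4_5 (s2_3 (s0_1 p753_37))),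
   p753_42,
   p753_43,
   p753_44,
   p753_45,
   p753_46,
   p753_47],
  [s6_7 (s4_5 (s2_3 (s0_1 p753_34))),
   s6_7 (s4_5 (s2_3 (s0_1 p753_35))),
   p753_50,
   p753_51,
   s6_7 (s4_5 (s2_3 (s0_1 p753_42))),
   s6_7 (s4_5 (s2_3 (s0_1 p753_43))),
   p753_54,
   p753_55],
  [s6_7 (s4_5 (s2_3 (s0_1 p753_38))),
   s6_7 (s4_5 (s2_3 (s0_1 p753_39))),
   s6_7 (s4_5 (s2_3 (s0_1 p753_54))),
   s6_7 (s4_5 (s2_3 (s0_1 p753_55))),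
   s6_7 (s4_5 (s2_3 (s0_1 p753_46))),
   s6_7 (s4_5 (s2_3 (s0_1 p753_47))),
   p753_62,
   p753_63]]

theorem k753 : eqNN c753 (slO 64 (D.chG 211 31) 8) = true := by decide +kernel

/-- The slices of the chunk 754. -/
noncomputable def c754 : List (List ℕ) := [
  [tr p734_32,
   tr p735_32,
   tr p736_32,
   tr p737_32,
   tr p738_32,
   tr p739_32,
   tr p740_32,
   tr p741_32],
  [s3_6 (s2_7 (s1_4 (s0_5 p738_32))),
   s3_6 (s2_7 (s1_4 (s0_5 p739_32))),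
   tr p742_32,
   tr p743_32,
   tr p744_32,
   tr p745_32,
   tr p746_32,
   tr p747_32],
  [s3_6 (s2_7 (s1_4 (s0_5 p736_32))),
   s3_6 (s2_7 (s1_4 (s0_5 p737_32))),
   tr p748_32,
   tr p749_32,
   s3_6 (s2_7 (s1_4 (s0_5 p742_32))),
   s3_6 (s2_7 (s1_4 (s0_5 p743_32))),
   tr p750_32,
   tr p751_32],
  [s3_6 (s2_7 (s1_4 (s0_5 p740_32))),
   s3_6 (s2_7 (s1_4 (s0_5 p741_32))),
   s3_6 (s2_7 (s1_4 (s0_5 p750_32))),
   s3_6 (s2_7 (s1_4 (s0_5 p751_32))),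
   s3_6 (s2_7 (s1_4 (s0_5 p746_32))),
   s3_6 (s2_7 (s1_4 (s0_5 p747_32))),
   tr p752_32,
   tr p753_32],
  [p754_32,
   p754_33,
   p754_34,
   p754_35,
   p754_36,
   p754_37,
   p754_38,
   p754_39],
  [s6_7 (s4_5 (s2_3 (s0_1 p754_36))),
   s6_7 (s4_5 (s2_3 (s0_1 p754_37))),
   p754_42,
   p754_43,
   p754_44,
   p754_45,
   p754_46,
   p754_47],
  [s6_7 (s4_5 (s2_3 (s0_1 p754_34))),
   s6_7 (s4_5 (s2_3 (s0_1 p754_35))),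
   p754_50,
   p754_51,
   s6_7 (s4_5 (s2_3 (s0_1 p754_42))),
   s6_7 (s4_5 (s2_3 (s0_1 p754_43))),
   p754_54,
   p754_55],
  [s6_7 (s4_5 (s2_3 (s0_1 p754_38))),
   s6_7 (s4_5 (s2_3 (s0_1 p754_39))),
   s6_7 (s4_5 (s2_3 (s0_1 p754_54))),
   s6_7 (s4_5 (s2_3 (s0_1 p754_55))),
   s6_7 (s4_5 (s2_3 (s0_1 p754_46))),
   s6_7 (s4_5 (s2_3 (s0_1 p754_47))),
   p754_62,
   p754_63]]

theorem k754 : eqNN c754 (slO 64 (D.chG 211 32) 8) = true := by decide +kernel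

/-- The slices of the chunk 755. -/
noncomputable def c755 : List (List ℕ) := [
  [tr p734_33,
   tr p735_33,
   tr p736_33,
   tr p737_33,
   tr p738_33,
   tr p739_33,
   tr p740_33,
   tr p741_33],
  [s3_6 (s2_7 (s1_4 (s0_5 p738_33))),
   s3_6 (s2_7 (s1_4 (s0_5 p739_33))),
   tr p742_33,
   tr p743_33,
   tr p744_33,
   tr p745_33,
   tr p746_33,
   tr p747_33],
  [s3_6 (s2_7 (s1_4 (s0_5 p736_33))),
   s3_6 (s2_7 (s1_4 (s0_5 p737_33))),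
   tr p748_33,
   tr p749_33,
   s3_6 (s2_7 (s1_4 (s0_5 p742_33))),
   s3_6 (s2_7 (s1_4 (s0_5 p743_33))),
   tr p750_33,
   tr p751_33],
  [s3_6 (s2_7 (s1_4 (s0_5 p740_33))),
   s3_6 (s2_7 (s1_4 (s0_5 p741_33))),
   s3_6 (s2_7 (s1_4 (s0_5 p750_33))),
   s3_6 (s2_7 (s1_4 (s0_5 p751_33))),
   s3_6 (s2_7 (s1_4 (s0_5 p746_33))),
   s3_6 (s2_7 (s1_4 (s0_5 p747_33))),
   tr p752_33,
   tr p753_33],
  [tr p754_33,
   p755_33,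
   p755_34,
   p755_35,
   p755_36,
   p755_37,
   p755_38,
   p755_39],
  [s6_7 (s4_5 (s2_3 (s0_1 p755_36))),
   s6_7 (s4_5 (s2_3 (s0_1 p755_37))),
   p755_42,
   p755_43,
   p755_44,
   p755_45,
   p755_46,
   p755_47],
  [s6_7 (s4_5 (s2_3 (s0_1 p755_34))),
   s6_7 (s4_5 (s2_3 (s0_1 p755_35))),
   p755_50,
   p755_51,
   s6_7 (s4_5 (s2_3 (s0_1 p755_42))),
   s6_7 (s4_5 (s2_3 (s0_1 p755_43))),
   p755_54,
   p755_55],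
  [s6_7 (s4_5 (s2_3 (s0_1 p755_38))),
   s6_7 (s4_5 (s2_3 (s0_1 p755_39))),
   s6_7 (s4_5 (s2_3 (s0_1 p755_54))),
   s6_7 (s4_5 (s2_3 (s0_1 p755_55))),
   s6_7 (s4_5 (s2_3 (s0_1 p755_46))),
   s6_7 (s4_5 (s2_3 (s0_1 p755_47))),
   p755_62,
   p755_63]]

theorem k755 : eqNN c755 (slO 64 (D.chG 211 33) 8) = true := by decide +kernel

end Pool.Agent.Lib.MP_afdd4d_co.K10.E6
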