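import Pool.Agent.Lib.MP_afdd4d_co.K10.E6.Dat
import Pool.Agent.Lib.MP_afdd4d_co.K10.E6.Mk
import Pool.Agent.Lib.MP_afdd4d_co.K8.F6Bl5
import Pool.Agent.Lib.MP_afdd4d_co.K10.E6.P0
import Pool.Agent.Lib.MP_afdd4d_co.K10.E6.P1
import Pool.Agent.Lib.MP_afdd4d_co.K10.E6.P2
import Pool.Agent.Lib.MP_afdd4d_co.K10.E6.P3
import Pool.Agent.Lib.MP_afdd4d_co.K10.E6.P4
import Pool.Agent.Lib.MP_afdd4d_co.K10.E6.P5
import Pool.Agent.Lib.MP_afdd4d_co.K10.E6.P6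
import Pool.Agent.Lib.MP_afdd4d_co.K10.E6.P7
import Pool.Agent.Lib.MP_afdd4d_co.K10.E6.P8
import Pool.Agent.Lib.MP_afdd4d_co.K10.E6.P9
import Pool.Agent.Lib.MP_afdd4d_co.K10.E6.P10
import Pool.Agent.Lib.MP_afdd4d_co.K10.E6.P11
import Pool.Agent.Lib.MP_afdd4d_co.K10.E6.P12
import Pool.Agent.Lib.MP_afdd4d_co.K10.E6.P13
import Pool.Agent.Lib.MP_afdd4d_co.K10.E6.P14
import Pool.Agent.Lib.MP_afdd4d_co.K10.E6.P15
import Pool.Agent.Lib.MP_afdd4d_co.K10.E6.P16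
import Pool.Agent.Lib.MP_afdd4d_co.K10.E6.P17
import Pool.Agent.Lib.MP_afdd4d_co.K10.E6.P18
import Pool.Agent.Lib.MP_afdd4d_co.K10.E6.P19
import Pool.Agent.Lib.MP_afdd4d_co.K10.E6.P20
import Pool.Agent.Lib.MP_afdd4d_co.K10.E6.P21
import Pool.Agent.Lib.MP_afdd4d_co.K10.E6.P22
import Pool.Agent.Lib.MP_afdd4d_co.K10.E6.P23
import Pool.Agent.Lib.MP_afdd4d_co.K10.E6.P24
import Pool.Agent.Lib.MP_afdd4d_co.K10.E6.P25
import Pool.Agent.Lib.MP_afdd4d_co.K10.E6.P26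
import Pool.Agent.Lib.MP_afdd4d_co.K10.E6.P27
import Pool.Agent.Lib.MP_afdd4d_co.K10.E6.P28
import Pool.Agent.Lib.MP_afdd4d_co.K10.E6.P29
import Pool.Agent.Lib.MP_afdd4d_co.K10.E6.P30
import Pool.Agent.Lib.MP_afdd4d_co.K10.E6.P31
import Pool.Agent.Lib.MP_afdd4d_co.K10.E6.P32

/-!
# Tables
-/

namespace Pool.Agent.Lib.MP_afdd4d_co.K10.E6

open K8

set_option maxRecDepth 100000
set_option exponentiation.threshold 10000000

/-- The slices of the chunk 756. -/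
noncomputable def c756 : List (List ℕ) := [
  [tr p734_34,
   tr p735_34,
   tr p736_34,
   tr p737_34,
   tr p738_34,
   tr p739_34,
   tr p740_34,
   tr p741_34],
  [s3_6 (s2_7 (s1_4 (s0_5 p738_48))),
   s3_6 (s2_7 (s1_4 (s0_5 p739_48))),
   tr p742_34,
   tr p743_34,
   tr p744_34,
   tr p745_34,
   tr p746_34,
   tr p747_34],
  [s3_6 (s2_7 (s1_4 (s0_5 p736_48))),
   s3_6 (s2_7 (s1_4 (s0_5 p737_48))),
   tr p748_34,
   tr p749_34,
   s3_6 (s2_7 (s1_4 (s0_5 p742_48))),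
   s3_6 (s2_7 (s1_4 (s0_5 p743_48))),
   tr p750_34,
   tr p751_34],
  [s3_6 (s2_7 (s1_4 (s0_5 p740_48))),
   s3_6 (s2_7 (s1_4 (s0_5 p741_48))),
   s3_6 (s2_7 (s1_4 (s0_5 p750_48))),
   s3_6 (s2_7 (s1_4 (s0_5 p751_48))),
   s3_6 (s2_7 (s1_4 (s0_5 p746_48))),
   s3_6 (s2_7 (s1_4 (s0_5 p747_48))),
   tr p752_34,
   tr p753_34],
  [tr p754_34,
   tr p755_34,
   p756_34,
   p756_35,
   p756_36,
   p756_37,
   p756_38,
   p756_39],
  [p756_40,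
   p756_41,
   p756_42,
   p756_43,
   p756_44,
   p756_45,
   p756_46,
   p756_47],
  [p756_48,
   p756_49,
   p756_50,
   p756_51,
   p756_52,
   p756_53,
   p756_54,
   p756_55],
  [p756_56,
   p756_57,
   p756_58,
   p756_59,
   p756_60,
   p756_61,
   p756_62,
   p756_63]]

theorem k756 : eqNN c756 (slO 64 (D.chG 211 34) 8) = true := by decide +kernel

/-- The slices of the chunk 757. -/
noncomputable def c757 : List (List ℕ) := [
  [tr p734_35,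
   tr p735_35,
   tr p736_35,
   tr p737_35,
   tr p738_35,
   tr p739_35,
   tr p740_35,
   tr p741_35],
  [s3_6 (s2_7 (s1_4 (s0_5 p738_49))),
   s3_6 (s2_7 (s1_4 (s0_5 p739_49))),
   tr p742_35,
   tr p743_35,
   tr p744_35,
   tr p745_35,
   tr p746_35,
   tr p747_35],
  [s3_6 (s2_7 (s1_4 (s0_5 p736_49))),
   s3_6 (s2_7 (s1_4 (s0_5 p737_49))),
   tr p748_35,
   tr p749_35,
   s3_6 (s2_7 (s1_4 (s0_5 p742_49))),
   s3_6 (s2_7 (s1_4 (s0_5 p743_49))),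
   tr p750_35,
   tr p751_35],
  [s3_6 (s2_7 (s1_4 (s0_5 p740_49))),
   s3_6 (s2_7 (s1_4 (s0_5 p741_49))),
   s3_6 (s2_7 (s1_4 (s0_5 p750_49))),
   s3_6 (s2_7 (s1_4 (s0_5 p751_49))),
   s3_6 (s2_7 (s1_4 (s0_5 p746_49))),
   s3_6 (s2_7 (s1_4 (s0_5 p747_49))),
   tr p752_35,
   tr p753_35],
  [tr p754_35,
   tr p755_35,
   tr p756_35,
   p757_35,
   p757_36,
   p757_37,
   p757_38,
   p757_39],
  [p757_40,
   p757_41,
   p757_42,
   p757_43,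
   p757_44,
   p757_45,
   p757_46,
   p757_47],
  [s3_6 (s2_7 (s1_4 (s0_5 p756_49))),
   p757_49,
   p757_50,
   p757_51,
   p757_52,
   p757_53,
   p757_54,
   p757_55],
  [p757_56,
   p757_57,
   p757_58,
   p757_59,
   p757_60,
   p757_61,
   p757_62,
   p757_63]]

theorem k757 : eqNN c757 (slO 64 (D.chG 211 35) 8) = true := by decide +kernel

/-- The slices of the chunk 758. -/
noncomputable def c758 : List (List ℕ) := [
  [tr p734_36,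
   tr p735_36,
   tr p736_36,
   tr p737_36,
   tr p738_36,
   tr p739_36,
   tr p740_36,
   tr p741_36],
  [s3_6 (s2_7 (s1_4 (s0_5 p738_40))),
   s3_6 (s2_7 (s1_4 (s0_5 p739_40))),
   tr p742_36,
   tr p743_36,
   tr p744_36,
   tr p745_36,
   tr p746_36,
   tr p747_36],
  [s3_6 (s2_7 (s1_4 (s0_5 p736_40))),
   s3_6 (s2_7 (s1_4 (s0_5 p737_40))),
   tr p748_36,
   tr p749_36,
   s3_6 (s2_7 (s1_4 (s0_5 p742_40))),
   s3_6 (s2_7 (s1_4 (s0_5 p743_40))),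
   tr p750_36,
   tr p751_36],
  [s3_6 (s2_7 (s1_4 (s0_5 p740_40))),
   s3_6 (s2_7 (s1_4 (s0_5 p741_40))),
   s3_6 (s2_7 (s1_4 (s0_5 p750_40))),
   s3_6 (s2_7 (s1_4 (s0_5 p751_40))),
   s3_6 (s2_7 (s1_4 (s0_5 p746_40))),
   s3_6 (s2_7 (s1_4 (s0_5 p747_40))),
   tr p752_36,
   tr p753_36],
  [tr p754_36,
   tr p755_36,
   tr p756_36,
   tr p757_36,
   p758_36,
   p758_37,
   p758_38,
   p758_39],
  [p758_40,
   p758_41,
   p758_42,
   p758_43,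
   p758_44,
   p758_45,
   p758_46,
   p758_47],
  [s3_6 (s2_7 (s1_4 (s0_5 p756_40))),
   s3_6 (s2_7 (s1_4 (s0_5 p757_40))),
   p758_50,
   p758_51,
   p758_52,
   p758_53,
   p758_54,
   p758_55],
  [p758_56,
   p758_57,
   p758_58,
   p758_59,
   p758_60,
   p758_61,
   p758_62,
   p758_63]]

theorem k758 : eqNN c758 (slO 64 (D.chG 211 36) 8) = true := by decide +kernel

/-- The slices of the chunk 759. -/
noncomputable def c759 : List (List ℕ) := [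
  [tr p734_37,
   tr p735_37,
   tr p736_37,
   tr p737_37,
   tr p738_37,
   tr p739_37,
   tr p740_37,
   tr p741_37],
  [s3_6 (s2_7 (s1_4 (s0_5 p738_41))),
   s3_6 (s2_7 (s1_4 (s0_5 p739_41))),
   tr p742_37,
   tr p743_37,
   tr p744_37,
   tr p745_37,
   tr p746_37,
   tr p747_37],
  [s3_6 (s2_7 (s1_4 (s0_5 p736_41))),
   s3_6 (s2_7 (s1_4 (s0_5 p737_41))),
   tr p748_37,
   tr p749_37,
   s3_6 (s2_7 (s1_4 (s0_5 p742_41))),
   s3_6 (s2_7 (s1_4 (s0_5 p743_41))),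
   tr p750_37,
   tr p751_37],
  [s3_6 (s2_7 (s1_4 (s0_5 p740_41))),
   s3_6 (s2_7 (s1_4 (s0_5 p741_41))),
   s3_6 (s2_7 (s1_4 (s0_5 p750_41))),
   s3_6 (s2_7 (s1_4 (s0_5 p751_41))),
   s3_6 (s2_7 (s1_4 (s0_5 p746_41))),
   s3_6 (s2_7 (s1_4 (s0_5 p747_41))),
   tr p752_37,
   tr p753_37],
  [tr p754_37,
   tr p755_37,
   tr p756_37,
   tr p757_37,
   tr p758_37,
   p759_37,
   p759_38,
   p759_39],
  [s3_6 (s2_7 (s1_4 (s0_5 p758_41))),
   p759_41,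
   p759_42,
   p759_43,
   p759_44,
   p759_45,
   p759_46,
   p759_47],
  [s3_6 (s2_7 (s1_4 (s0_5 p756_41))),
   s3_6 (s2_7 (s1_4 (s0_5 p757_41))),
   p759_50,
   p759_51,
   p759_52,
   p759_53,
   p759_54,
   p759_55],
  [p759_56,
   p759_57,
   p759_58,
   p759_59,
   p759_60,
   p759_61,
   p759_62,
   p759_63]]

theorem k759 : eqNN c759 (slO 64 (D.chG 211 37) 8) = true := by decide +kernel

end Pool.Agent.Lib.MP_afdd4d_co.K10.E6
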