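import Pool.Agent.Lib.MP_afdd4d_co.K10.E6.Dat
import Pool.Agent.Lib.MP_afdd4d_co.K10.E6.Mk
import Pool.Agent.Lib.MP_afdd4d_co.K8.F6Bl5
import Pool.Agent.Lib.MP_afdd4d_co.K10.E6.P0
import Pool.Agent.Lib.MP_afdd4d_co.K10.E6.P1
import Pool.Agent.Lib.MP_afdd4d_co.K10.E6.P2
import Pool.Agent.Lib.MP_afdd4d_co.K10.E6.P3
import Pool.Agent.Lib.MP_afdd4d_co.K10.E6.P4
import Pool.Agent.Lib.MP_afdd4d_co.K10.E6.P5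
import Pool.Agent.Lib.MP_afdd4d_co.K10.E6.P6
import Pool.Agent.Lib.MP_afdd4d_co.K10.E6.P7
import Pool.Agent.Lib.MP_afdd4d_co.K10.E6.P8
import Pool.Agent.Lib.MP_afdd4d_co.K10.E6.P9
import Pool.Agent.Lib.MP_afdd4d_co.K10.E6.P10
import Pool.Agent.Lib.MP_afdd4d_co.K10.E6.P11
import Pool.Agent.Lib.MP_afdd4d_co.K10.E6.P12
import Pool.Agent.Lib.MP_afdd4d_co.K10.E6.P13
import Pool.Agent.Lib.MP_afdd4d_co.K10.E6.P14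
import Pool.Agent.Lib.MP_afdd4d_co.K10.E6.P15
import Pool.Agent.Lib.MP_afdd4d_co.K10.E6.P16
import Pool.Agent.Lib.MP_afdd4d_co.K10.E6.P17
import Pool.Agent.Lib.MP_afdd4d_co.K10.E6.P18
import Pool.Agent.Lib.MP_afdd4d_co.K10.E6.P19
import Pool.Agent.Lib.MP_afdd4d_co.K10.E6.P20
import Pool.Agent.Lib.MP_afdd4d_co.K10.E6.P21
import Pool.Agent.Lib.MP_afdd4d_co.K10.E6.P22
import Pool.Agent.Lib.MP_afdd4d_co.K10.E6.P23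
import Pool.Agent.Lib.MP_afdd4d_co.K10.E6.P24
import Pool.Agent.Lib.MP_afdd4d_co.K10.E6.P25
import Pool.Agent.Lib.MP_afdd4d_co.K10.E6.P26
import Pool.Agent.Lib.MP_afdd4d_co.K10.E6.P27
import Pool.Agent.Lib.MP_afdd4d_co.K10.E6.P28
import Pool.Agent.Lib.MP_afdd4d_co.K10.E6.P29
import Pool.Agent.Lib.MP_afdd4d_co.K10.E6.P30
import Pool.Agent.Lib.MP_afdd4d_co.K10.E6.P31
import Pool.Agent.Lib.MP_afdd4d_co.K10.E6.P32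

/-!
# Tables
-/

namespace Pool.Agent.Lib.MP_afdd4d_co.K10.E6

open K8

set_option maxRecDepth 100000
set_option exponentiation.threshold 10000000

/-- The slices of the chunk 76. -/
noncomputable def c76 : List (List ℕ) := [
  [tr p71_12,
   p76_1,
   s5_6 (s1_2 p76_1),
   p76_3,
   s3_7 (s2_4 (s1_5 (s0_6 p72_33))),
   p76_5,
   s5_6 (s1_2 p76_5),
   tr p74_12],
  [s3_5 (s2_6 (s1_7 (s0_4 p72_33))),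
   s6_7 (s4_5 (s2_3 (s0_1 p76_5))),
   s6_7 (s5_7 (s4_5 (s2_3 (s1_3 (s0_1 p76_5))))),
   tr p75_12,
   p76_12,
   p76_13,
   s5_6 (s1_2 p76_13),
   p76_15],
  [s4_7 (s0_3 p76_1),
   s6_7 (s4_5 (s2_3 (s0_1 p76_3))),
   p76_18,
   p76_19,
   s4_7 (s0_3 p76_5),
   s3_6 (s2_7 (s1_4 (s0_5 p75_12))),
   s5_6 (s1_2 p76_37),
   p76_23],
  [s6_7 (s5_6 (s4_6 (s2_3 (s1_2 (s0_2 p76_5))))),
   s3_6 (s2_7 (s1_4 (s0_5 p74_12))),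
   s6_7 (s5_6 (s4_6 (s2_3 (s1_2 (s0_2 p76_37))))),
   s6_7 (s4_5 (s2_3 (s0_1 p76_23))),
   s4_7 (s0_3 p76_13),
   s6_7 (s4_5 (s2_3 (s0_1 p76_15))),
   p76_30,
   p76_31],
  [s5_7 (s4_6 (s1_3 (s0_2 p76_1))),
   s5_6 (s1_2 p76_18),
   s5_7 (s4_6 (s1_3 (s0_2 p76_3))),
   s5_6 (s1_2 p76_19),
   s5_6 (s4_7 (s1_2 (s0_3 p76_5))),
   p76_37,
   s3_5 (s2_4 (s1_7 (s0_6 p75_12))),
   s5_6 (s1_2 p76_23)],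
  [s5_7 (s4_6 (s1_3 (s0_2 p76_5))),
   s6_7 (s4_5 (s2_3 (s0_1 p76_37))),
   s3_5 (s2_4 (s1_7 (s0_6 p74_12))),
   s6_7 (s5_7 (s4_5 (s2_3 (s1_3 (s0_1 p76_23))))),
   s5_7 (s4_6 (s1_3 (s0_2 p76_13))),
   s5_6 (s1_2 p76_30),
   s5_7 (s4_6 (s1_3 (s0_2 p76_15))),
   s5_6 (s1_2 p76_31)],
  [s4_7 (s0_3 p76_3),
   s4_7 (s0_3 p76_19),
   s5_7 (s4_6 (s1_3 (s0_2 p76_19))),
   p76_51,
   s3_4 (s2_6 (s1_5 (s0_7 p74_12))),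
   s4_7 (s0_3 p76_23),
   s5_6 (s4_7 (s1_2 (s0_3 p76_23))),
   p76_55],
  [s3_4 (s2_6 (s1_5 (s0_7 p75_12))),
   s6_7 (s5_6 (s4_6 (s2_3 (s1_2 (s0_2 p76_23))))),
   s5_7 (s4_6 (s1_3 (s0_2 p76_23))),
   s6_7 (s4_5 (s2_3 (s0_1 p76_55))),
   s4_7 (s0_3 p76_15),
   s4_7 (s0_3 p76_31),
   s5_7 (s4_6 (s1_3 (s0_2 p76_31))),
   tr p81_12]]

theorem k76 : eqNN c76 (slO 64 (D.chG 15 12) 8) = true := by decide +kernel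

/-- The slices of the chunk 77. -/
noncomputable def c77 : List (List ℕ) := [
  [tr p71_13,
   tr p72_13,
   s3_7 (s2_5 (s1_6 (s0_4 p72_14))),
   tr p73_13,
   s3_7 (s2_4 (s1_5 (s0_6 p72_37))),
   s3_7 (s2_6 (s1_4 (s0_5 p73_19))),
   s3_7 (s2_4 (s1_5 (s0_6 p73_37))),
   tr p74_13],
  [s5_7 (s4_6 (s3_4 (s2_7 (s1_6 (s0_5 p72_37))))),
   s3_6 (s2_7 (s1_5 (s0_4 p73_19))),
   s3_5 (s2_6 (s1_7 (s0_4 p73_41))),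
   tr p75_13,
   tr p76_13,
   p77_13,
   p77_14,
   tr p78_13],
  [s5_6 (s4_7 (s3_5 (s2_7 (s1_4 (s0_6 p72_14))))),
   s3_6 (s2_7 (s1_4 (s0_5 p73_13))),
   s3_6 (s2_7 (s1_5 (s0_4 p76_19))),
   p77_19,
   s5_7 (s4_6 (s3_6 (s2_5 (s1_4 (s0_7 p73_41))))),
   s3_6 (s2_7 (s1_4 (s0_5 p75_13))),
   p77_22,
   s3_7 (s2_6 (s1_4 (s0_5 p78_19)))],
  [s5_7 (s4_6 (s3_4 (s2_7 (s1_6 (s0_5 p73_37))))),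
   s3_6 (s2_7 (s1_4 (s0_5 p74_13))),
   s6_7 (s4_5 (s2_3 (s0_1 p77_22))),
   s3_6 (s2_7 (s1_5 (s0_4 p78_19))),
   s6_7 (s4_5 (s2_3 (s0_1 p77_14))),
   s3_6 (s2_7 (s1_4 (s0_5 p78_13))),
   tr p79_13,
   tr p80_13],
  [s3_5 (s2_4 (s1_7 (s0_6 p72_44))),
   s3_7 (s2_4 (s1_5 (s0_6 p76_37))),
   s3_5 (s2_4 (s1_7 (s0_6 p73_44))),
   s5_6 (s4_6 (s3_7 (s2_4 (s1_6 (s0_5 p77_22))))),
   s6_7 (s4_6 (s3_6 (s2_4 (s1_5 (s0_7 p73_49))))),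
   p77_37,
   s3_5 (s2_4 (s1_7 (s0_6 p75_44))),
   s3_7 (s2_4 (s1_5 (s0_6 p78_37)))],
  [s5_7 (s4_7 (s3_4 (s2_6 (s1_7 (s0_5 p73_49))))),
   s6_7 (s4_5 (s2_3 (s0_1 p77_37))),
   s3_5 (s2_4 (s1_7 (s0_6 p74_44))),
   s3_5 (s2_6 (s1_7 (s0_4 p78_41))),
   p77_44,
   s3_7 (s2_5 (s1_6 (s0_4 p79_14))),
   s3_5 (s2_4 (s1_7 (s0_6 p78_44))),
   s3_7 (s2_5 (s1_6 (s0_4 p80_14)))],
  [s3_4 (s2_5 (s1_6 (s0_7 p73_44))),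
   s6_7 (s4_7 (s3_4 (s2_7 (s1_5 (s0_6 p77_22))))),
   p77_50,
   s3_7 (s2_4 (s1_5 (s0_6 p79_37))),
   s3_4 (s2_5 (s1_6 (s0_7 p74_44))),
   s5_7 (s4_6 (s3_6 (s2_5 (s1_4 (s0_7 p78_41))))),
   s6_7 (s4_6 (s3_6 (s2_4 (s1_5 (s0_7 p78_49))))),
   s3_7 (s2_4 (s1_5 (s0_6 p80_37)))],
  [s3_4 (s2_5 (s1_6 (s0_7 p75_44))),
   s5_7 (s4_6 (s3_4 (s2_7 (s1_6 (s0_5 p78_37))))),
   s5_7 (s4_7 (s3_4 (s2_6 (s1_7 (s0_5 p78_49))))),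
   s5_7 (s4_6 (s3_4 (s2_7 (s1_6 (s0_5 p80_37))))),
   s3_4 (s2_5 (s1_6 (s0_7 p78_44))),
   s5_6 (s4_7 (s3_5 (s2_7 (s1_4 (s0_6 p80_14))))),
   s3_5 (s2_4 (s1_7 (s0_6 p80_44))),
   tr p81_13]]

theorem k77 : eqNN c77 (slO 64 (D.chG 15 13) 8) = true := by decide +kernel

/-- The slices of the chunk 78. -/
noncomputable def c78 : List (List ℕ) := [
  [tr p71_15,
   tr p72_15,
   s3_7 (s2_5 (s1_6 (s0_4 p72_15))),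
   tr p73_15,
   s3_7 (s2_4 (s1_5 (s0_6 p72_39))),
   s3_7 (s2_6 (s1_4 (s0_5 p73_23))),
   s5_6 (s4_6 (s3_7 (s2_4 (s1_6 (s0_5 p73_23))))),
   tr p74_15],
  [s3_5 (s2_6 (s1_7 (s0_4 p72_43))),
   s3_6 (s2_7 (s1_5 (s0_4 p73_27))),
   s6_7 (s5_6 (s3_6 (s2_5 (s1_7 (s0_4 p73_27))))),
   tr p75_15,
   tr p76_15,
   p78_13,
   s5_6 (s1_2 p78_13),
   p78_15],
  [s3_4 (s2_6 (s1_5 (s0_7 p72_60))),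
   s3_6 (s2_7 (s1_4 (s0_5 p73_29))),
   s3_7 (s2_6 (s1_4 (s0_5 p76_23))),
   p78_19,
   s5_7 (s4_6 (s3_6 (s2_5 (s1_4 (s0_7 p73_57))))),
   s3_7 (s2_6 (s1_4 (s0_5 p75_23))),
   s5_6 (s1_2 p78_37),
   p78_23],
  [s5_7 (s4_6 (s3_4 (s2_7 (s1_6 (s0_5 p73_53))))),
   s3_6 (s2_7 (s1_5 (s0_4 p74_27))),
   s5_6 (s1_2 p78_41),
   p78_27,
   s5_6 (s1_2 p78_44),
   p78_29,
   tr p79_15,
   tr p80_15],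
  [s3_4 (s2_5 (s1_6 (s0_7 p72_60))),
   s5_6 (s4_6 (s3_7 (s2_4 (s1_6 (s0_5 p76_23))))),
   s5_6 (s4_7 (s3_6 (s2_4 (s1_7 (s0_5 p73_29))))),
   s5_6 (s1_2 p78_19),
   s6_7 (s4_6 (s3_6 (s2_4 (s1_5 (s0_7 p73_57))))),
   p78_37,
   s5_6 (s4_6 (s3_7 (s2_4 (s1_6 (s0_5 p75_23))))),
   s5_6 (s1_2 p78_23)],
  [s5_7 (s4_7 (s3_4 (s2_6 (s1_7 (s0_5 p73_53))))),
   p78_41,
   s6_7 (s5_6 (s3_6 (s2_5 (s1_7 (s0_4 p74_27))))),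
   s5_6 (s1_2 p78_27),
   p78_44,
   s3_7 (s2_5 (s1_6 (s0_4 p79_15))),
   s5_6 (s1_2 p78_29),
   s3_7 (s2_5 (s1_6 (s0_4 p80_15)))],
  [s3_4 (s2_6 (s1_5 (s0_7 p73_60))),
   p78_49,
   s5_6 (s1_2 p78_49),
   s3_7 (s2_4 (s1_5 (s0_6 p79_39))),
   s3_4 (s2_6 (s1_5 (s0_7 p74_60))),
   p78_53,
   s5_6 (s1_2 p78_53),
   s3_7 (s2_4 (s1_5 (s0_6 p80_39)))],
  [s3_4 (s2_6 (s1_5 (s0_7 p75_60))),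
   s5_7 (s4_6 (s3_4 (s2_7 (s1_6 (s0_5 p78_53))))),
   s5_7 (s4_7 (s3_4 (s2_6 (s1_7 (s0_5 p78_53))))),
   s3_5 (s2_6 (s1_7 (s0_4 p80_43))),
   p78_60,
   s3_4 (s2_6 (s1_5 (s0_7 p80_60))),
   s3_4 (s2_5 (s1_6 (s0_7 p80_60))),
   tr p81_15]]

theorem k78 : eqNN c78 (slO 64 (D.chG 15 15) 8) = true := by decide +kernel

/-- The slices of the chunk 79. -/
noncomputable def c79 : List (List ℕ) := [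
  [tr p71_30,
   tr p72_30,
   p79_2,
   p79_3,
   s4_5 (s0_1 p79_2),
   s4_5 (s0_1 p79_3),
   p79_6,
   tr p74_30],
  [s6_7 (s2_3 p79_2),
   s6_7 (s2_3 p79_3),
   s5_7 (s4_6 (s1_3 (s0_2 p79_6))),
   tr p75_30,
   tr p76_30,
   p79_13,
   p79_14,
   p79_15],
  [s6_7 (s4_5 (s2_3 (s0_1 p79_2))),
   s6_7 (s4_5 (s2_3 (s0_1 p79_3))),
   s3_6 (s2_7 (s1_5 (s0_4 p76_30))),
   s6_7 (s2_3 p79_13),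
   s5_6 (s4_7 (s1_2 (s0_3 p79_6))),
   s3_7 (s2_6 (s1_4 (s0_5 p75_30))),
   s4_5 (s0_1 p79_14),
   s4_5 (s0_1 p79_15)],
  [s6_7 (s2_3 p79_6),
   s3_6 (s2_7 (s1_5 (s0_4 p74_30))),
   s6_7 (s2_3 p79_14),
   s6_7 (s2_3 p79_15),
   s6_7 (s4_5 (s2_3 (s0_1 p79_14))),
   s6_7 (s4_5 (s2_3 (s0_1 p79_15))),
   p79_30,
   p79_31],
  [s3_5 (s2_4 (s1_7 (s0_6 p72_30))),
   s3_5 (s2_6 (s1_7 (s0_4 p76_51))),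
   s5_7 (s4_6 (s1_3 (s0_2 p79_3))),
   s4_5 (s0_1 p79_37),
   s6_7 (s5_6 (s4_7 (s2_3 (s1_2 (s0_3 p79_3))))),
   p79_37,
   s3_5 (s2_4 (s1_7 (s0_6 p75_30))),
   p79_39],
  [s6_7 (s5_7 (s4_6 (s2_3 (s1_3 (s0_2 p79_3))))),
   s6_7 (s4_5 (s2_3 (s0_1 p79_37))),
   s3_5 (s2_4 (s1_7 (s0_6 p74_30))),
   s5_7 (s4_6 (s1_3 (s0_2 p79_39))),
   s5_7 (s4_6 (s1_3 (s0_2 p79_13))),
   p79_45,
   s5_7 (s4_6 (s1_3 (s0_2 p79_15))),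
   p79_47],
  [s5_6 (s4_7 (s1_2 (s0_3 p79_3))),
   s6_7 (s2_3 p79_37),
   s6_7 (s5_6 (s4_7 (s2_3 (s1_2 (s0_3 p79_13))))),
   s6_7 (s2_3 p79_45),
   s3_4 (s2_5 (s1_6 (s0_7 p74_30))),
   s5_6 (s4_7 (s1_2 (s0_3 p79_39))),
   s6_7 (s5_6 (s4_7 (s2_3 (s1_2 (s0_3 p79_15))))),
   s4_5 (s0_1 p79_47)],
  [s3_4 (s2_5 (s1_6 (s0_7 p75_30))),
   s6_7 (s2_3 p79_39),
   s6_7 (s5_7 (s4_6 (s2_3 (s1_3 (s0_2 p79_15))))),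
   s6_7 (s2_3 p79_47),
   s5_6 (s4_7 (s1_2 (s0_3 p79_15))),
   s6_7 (s4_5 (s2_3 (s0_1 p79_47))),
   s5_7 (s4_6 (s1_3 (s0_2 p79_31))),
   tr p81_30]]

theorem k79 : eqNN c79 (slO 64 (D.chG 15 30) 8) = true := by decide +kernel

end Pool.Agent.Lib.MP_afdd4d_co.K10.E6
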