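import Pool.Agent.Lib.MP_afdd4d_co.K10.E6.Dat
import Pool.Agent.Lib.MP_afdd4d_co.K10.E6.Mk
import Pool.Agent.Lib.MP_afdd4d_co.K8.F6Bl5
import Pool.Agent.Lib.MP_afdd4d_co.K10.E6.P0
import Pool.Agent.Lib.MP_afdd4d_co.K10.E6.P1
import Pool.Agent.Lib.MP_afdd4d_co.K10.E6.P2
import Pool.Agent.Lib.MP_afdd4d_co.K10.E6.P3
import Pool.Agent.Lib.MP_afdd4d_co.K10.E6.P4
import Pool.Agent.Lib.MP_afdd4d_co.K10.E6.P5
import Pool.Agent.Lib.MP_afdd4d_co.K10.E6.P6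
import Pool.Agent.Lib.MP_afdd4d_co.K10.E6.P7
import Pool.Agent.Lib.MP_afdd4d_co.K10.E6.P8
import Pool.Agent.Lib.MP_afdd4d_co.K10.E6.P9
import Pool.Agent.Lib.MP_afdd4d_co.K10.E6.P10
import Pool.Agent.Lib.MP_afdd4d_co.K10.E6.P11
import Pool.Agent.Lib.MP_afdd4d_co.K10.E6.P12
import Pool.Agent.Lib.MP_afdd4d_co.K10.E6.P13
import Pool.Agent.Lib.MP_afdd4d_co.K10.E6.P14
import Pool.Agent.Lib.MP_afdd4d_co.K10.E6.P15
import Pool.Agent.Lib.MP_afdd4d_co.K10.E6.P16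
import Pool.Agent.Lib.MP_afdd4d_co.K10.E6.P17
import Pool.Agent.Lib.MP_afdd4d_co.K10.E6.P18
import Pool.Agent.Lib.MP_afdd4d_co.K10.E6.P19
import Pool.Agent.Lib.MP_afdd4d_co.K10.E6.P20
import Pool.Agent.Lib.MP_afdd4d_co.K10.E6.P21
import Pool.Agent.Lib.MP_afdd4d_co.K10.E6.P22
import Pool.Agent.Lib.MP_afdd4d_co.K10.E6.P23
import Pool.Agent.Lib.MP_afdd4d_co.K10.E6.P24
import Pool.Agent.Lib.MP_afdd4d_co.K10.E6.P25
import Pool.Agent.Lib.MP_afdd4d_co.K10.E6.P26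
import Pool.Agent.Lib.MP_afdd4d_co.K10.E6.P27
import Pool.Agent.Lib.MP_afdd4d_co.K10.E6.P28
import Pool.Agent.Lib.MP_afdd4d_co.K10.E6.P29
import Pool.Agent.Lib.MP_afdd4d_co.K10.E6.P30
import Pool.Agent.Lib.MP_afdd4d_co.K10.E6.P31
import Pool.Agent.Lib.MP_afdd4d_co.K10.E6.P32

/-!
# Tables
-/

namespace Pool.Agent.Lib.MP_afdd4d_co.K10.E6

open K8

set_option maxRecDepth 100000
set_option exponentiation.threshold 10000000

/-- The slices of the chunk 760. -/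
noncomputable def c760 : List (List ℕ) := [
  [tr p734_38,
   tr p735_38,
   tr p736_38,
   tr p737_38,
   tr p738_38,
   tr p739_38,
   tr p740_38,
   tr p741_38],
  [s3_6 (s2_7 (s1_4 (s0_5 p738_56))),
   s3_6 (s2_7 (s1_4 (s0_5 p739_56))),
   tr p742_38,
   tr p743_38,
   tr p744_38,
   tr p745_38,
   tr p746_38,
   tr p747_38],
  [s3_6 (s2_7 (s1_4 (s0_5 p736_56))),
   s3_6 (s2_7 (s1_4 (s0_5 p737_56))),
   tr p748_38,
   tr p749_38,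
   s3_6 (s2_7 (s1_4 (s0_5 p742_56))),
   s3_6 (s2_7 (s1_4 (s0_5 p743_56))),
   tr p750_38,
   tr p751_38],
  [s3_6 (s2_7 (s1_4 (s0_5 p740_56))),
   s3_6 (s2_7 (s1_4 (s0_5 p741_56))),
   s3_6 (s2_7 (s1_4 (s0_5 p750_56))),
   s3_6 (s2_7 (s1_4 (s0_5 p751_56))),
   s3_6 (s2_7 (s1_4 (s0_5 p746_56))),
   s3_6 (s2_7 (s1_4 (s0_5 p747_56))),
   tr p752_38,
   tr p753_38],
  [tr p754_38,
   tr p755_38,
   tr p756_38,
   tr p757_38,
   tr p758_38,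
   tr p759_38,
   p760_38,
   p760_39],
  [s3_6 (s2_7 (s1_4 (s0_5 p758_56))),
   s3_6 (s2_7 (s1_4 (s0_5 p759_56))),
   p760_42,
   p760_43,
   p760_44,
   p760_45,
   p760_46,
   p760_47],
  [s3_6 (s2_7 (s1_4 (s0_5 p756_56))),
   s3_6 (s2_7 (s1_4 (s0_5 p757_56))),
   p760_50,
   p760_51,
   p760_52,
   p760_53,
   p760_54,
   p760_55],
  [p760_56,
   p760_57,
   p760_58,
   p760_59,
   p760_60,
   p760_61,
   p760_62,
   p760_63]]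

theorem k760 : eqNN c760 (slO 64 (D.chG 211 38) 8) = true := by decide +kernel

/-- The slices of the chunk 761. -/
noncomputable def c761 : List (List ℕ) := [
  [tr p734_39,
   tr p735_39,
   tr p736_39,
   tr p737_39,
   tr p738_39,
   tr p739_39,
   tr p740_39,
   tr p741_39],
  [s3_6 (s2_7 (s1_4 (s0_5 p738_57))),
   s3_6 (s2_7 (s1_4 (s0_5 p739_57))),
   tr p742_39,
   tr p743_39,
   tr p744_39,
   tr p745_39,
   tr p746_39,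
   tr p747_39],
  [s3_6 (s2_7 (s1_4 (s0_5 p736_57))),
   s3_6 (s2_7 (s1_4 (s0_5 p737_57))),
   tr p748_39,
   tr p749_39,
   s3_6 (s2_7 (s1_4 (s0_5 p742_57))),
   s3_6 (s2_7 (s1_4 (s0_5 p743_57))),
   tr p750_39,
   tr p751_39],
  [s3_6 (s2_7 (s1_4 (s0_5 p740_57))),
   s3_6 (s2_7 (s1_4 (s0_5 p741_57))),
   s3_6 (s2_7 (s1_4 (s0_5 p750_57))),
   s3_6 (s2_7 (s1_4 (s0_5 p751_57))),
   s3_6 (s2_7 (s1_4 (s0_5 p746_57))),
   s3_6 (s2_7 (s1_4 (s0_5 p747_57))),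
   tr p752_39,
   tr p753_39],
  [tr p754_39,
   tr p755_39,
   tr p756_39,
   tr p757_39,
   tr p758_39,
   tr p759_39,
   tr p760_39,
   p761_39],
  [s3_6 (s2_7 (s1_4 (s0_5 p758_57))),
   s3_6 (s2_7 (s1_4 (s0_5 p759_57))),
   p761_42,
   p761_43,
   p761_44,
   p761_45,
   p761_46,
   p761_47],
  [s3_6 (s2_7 (s1_4 (s0_5 p756_57))),
   s3_6 (s2_7 (s1_4 (s0_5 p757_57))),
   p761_50,
   p761_51,
   p761_52,
   p761_53,
   p761_54,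
   p761_55],
  [s3_6 (s2_7 (s1_4 (s0_5 p760_57))),
   p761_57,
   p761_58,
   p761_59,
   p761_60,
   p761_61,
   p761_62,
   p761_63]]

theorem k761 : eqNN c761 (slO 64 (D.chG 211 39) 8) = true := by decide +kernel

/-- The slices of the chunk 762. -/
noncomputable def c762 : List (List ℕ) := [
  [tr p734_42,
   tr p735_42,
   tr p736_42,
   tr p737_42,
   tr p738_42,
   tr p739_42,
   tr p740_42,
   tr p741_42],
  [s3_6 (s2_7 (s1_4 (s0_5 p738_52))),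
   s3_6 (s2_7 (s1_4 (s0_5 p739_52))),
   tr p742_42,
   tr p743_42,
   tr p744_42,
   tr p745_42,
   tr p746_42,
   tr p747_42],
  [s3_6 (s2_7 (s1_4 (s0_5 p736_52))),
   s3_6 (s2_7 (s1_4 (s0_5 p737_52))),
   tr p748_42,
   tr p749_42,
   s3_6 (s2_7 (s1_4 (s0_5 p742_52))),
   s3_6 (s2_7 (s1_4 (s0_5 p743_52))),
   tr p750_42,
   tr p751_42],
  [s3_6 (s2_7 (s1_4 (s0_5 p740_52))),
   s3_6 (s2_7 (s1_4 (s0_5 p741_52))),
   s3_6 (s2_7 (s1_4 (s0_5 p750_52))),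
   s3_6 (s2_7 (s1_4 (s0_5 p751_52))),
   s3_6 (s2_7 (s1_4 (s0_5 p746_52))),
   s3_6 (s2_7 (s1_4 (s0_5 p747_52))),
   tr p752_42,
   tr p753_42],
  [tr p754_42,
   tr p755_42,
   tr p756_42,
   tr p757_42,
   tr p758_42,
   tr p759_42,
   tr p760_42,
   tr p761_42],
  [s3_6 (s2_7 (s1_4 (s0_5 p758_52))),
   s3_6 (s2_7 (s1_4 (s0_5 p759_52))),
   p762_42,
   p762_43,
   p762_44,
   p762_45,
   p762_46,
   p762_47],
  [s3_6 (s2_7 (s1_4 (s0_5 p756_52))),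
   s3_6 (s2_7 (s1_4 (s0_5 p757_52))),
   p762_50,
   p762_51,
   p762_52,
   p762_53,
   p762_54,
   p762_55],
  [s3_6 (s2_7 (s1_4 (s0_5 p760_52))),
   s3_6 (s2_7 (s1_4 (s0_5 p761_52))),
   p762_58,
   p762_59,
   p762_60,
   p762_61,
   p762_62,
   p762_63]]

theorem k762 : eqNN c762 (slO 64 (D.chG 211 42) 8) = true := by decide +kernel

/-- The slices of the chunk 763. -/
noncomputable def c763 : List (List ℕ) := [
  [tr p734_43,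
   tr p735_43,
   tr p736_43,
   tr p737_43,
   tr p738_43,
   tr p739_43,
   tr p740_43,
   tr p741_43],
  [s3_6 (s2_7 (s1_4 (s0_5 p738_53))),
   s3_6 (s2_7 (s1_4 (s0_5 p739_53))),
   tr p742_43,
   tr p743_43,
   tr p744_43,
   tr p745_43,
   tr p746_43,
   tr p747_43],
  [s3_6 (s2_7 (s1_4 (s0_5 p736_53))),
   s3_6 (s2_7 (s1_4 (s0_5 p737_53))),
   tr p748_43,
   tr p749_43,
   s3_6 (s2_7 (s1_4 (s0_5 p742_53))),
   s3_6 (s2_7 (s1_4 (s0_5 p743_53))),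
   tr p750_43,
   tr p751_43],
  [s3_6 (s2_7 (s1_4 (s0_5 p740_53))),
   s3_6 (s2_7 (s1_4 (s0_5 p741_53))),
   s3_6 (s2_7 (s1_4 (s0_5 p750_53))),
   s3_6 (s2_7 (s1_4 (s0_5 p751_53))),
   s3_6 (s2_7 (s1_4 (s0_5 p746_53))),
   s3_6 (s2_7 (s1_4 (s0_5 p747_53))),
   tr p752_43,
   tr p753_43],
  [tr p754_43,
   tr p755_43,
   tr p756_43,
   tr p757_43,
   tr p758_43,
   tr p759_43,
   tr p760_43,
   tr p761_43],
  [s3_6 (s2_7 (s1_4 (s0_5 p758_53))),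
   s3_6 (s2_7 (s1_4 (s0_5 p759_53))),
   tr p762_43,
   p763_43,
   p763_44,
   p763_45,
   p763_46,
   p763_47],
  [s3_6 (s2_7 (s1_4 (s0_5 p756_53))),
   s3_6 (s2_7 (s1_4 (s0_5 p757_53))),
   p763_50,
   p763_51,
   s3_6 (s2_7 (s1_4 (s0_5 p762_53))),
   p763_53,
   p763_54,
   p763_55],
  [s3_6 (s2_7 (s1_4 (s0_5 p760_53))),
   s3_6 (s2_7 (s1_4 (s0_5 p761_53))),
   p763_58,
   p763_59,
   p763_60,
   p763_61,
   p763_62,
   p763_63]]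

theorem k763 : eqNN c763 (slO 64 (D.chG 211 43) 8) = true := by decide +kernel

end Pool.Agent.Lib.MP_afdd4d_co.K10.E6
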