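import Pool.Agent.Lib.MP_afdd4d_co.K10.E6.Dat
import Pool.Agent.Lib.MP_afdd4d_co.K10.E6.Mk
import Pool.Agent.Lib.MP_afdd4d_co.K8.F6Bl5
import Pool.Agent.Lib.MP_afdd4d_co.K10.E6.P0
import Pool.Agent.Lib.MP_afdd4d_co.K10.E6.P1
import Pool.Agent.Lib.MP_afdd4d_co.K10.E6.P2
import Pool.Agent.Lib.MP_afdd4d_co.K10.E6.P3
import Pool.Agent.Lib.MP_afdd4d_co.K10.E6.P4
import Pool.Agent.Lib.MP_afdd4d_co.K10.E6.P5
import Pool.Agent.Lib.MP_afdd4d_co.K10.E6.P6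
import Pool.Agent.Lib.MP_afdd4d_co.K10.E6.P7
import Pool.Agent.Lib.MP_afdd4d_co.K10.E6.P8
import Pool.Agent.Lib.MP_afdd4d_co.K10.E6.P9
import Pool.Agent.Lib.MP_afdd4d_co.K10.E6.P10
import Pool.Agent.Lib.MP_afdd4d_co.K10.E6.P11
import Pool.Agent.Lib.MP_afdd4d_co.K10.E6.P12
import Pool.Agent.Lib.MP_afdd4d_co.K10.E6.P13
import Pool.Agent.Lib.MP_afdd4d_co.K10.E6.P14
import Pool.Agent.Lib.MP_afdd4d_co.K10.E6.P15
import Pool.Agent.Lib.MP_afdd4d_co.K10.E6.P16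
import Pool.Agent.Lib.MP_afdd4d_co.K10.E6.P17
import Pool.Agent.Lib.MP_afdd4d_co.K10.E6.P18
import Pool.Agent.Lib.MP_afdd4d_co.K10.E6.P19
import Pool.Agent.Lib.MP_afdd4d_co.K10.E6.P20
import Pool.Agent.Lib.MP_afdd4d_co.K10.E6.P21
import Pool.Agent.Lib.MP_afdd4d_co.K10.E6.P22
import Pool.Agent.Lib.MP_afdd4d_co.K10.E6.P23
import Pool.Agent.Lib.MP_afdd4d_co.K10.E6.P24
import Pool.Agent.Lib.MP_afdd4d_co.K10.E6.P25
import Pool.Agent.Lib.MP_afdd4d_co.K10.E6.P26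
import Pool.Agent.Lib.MP_afdd4d_co.K10.E6.P27
import Pool.Agent.Lib.MP_afdd4d_co.K10.E6.P28
import Pool.Agent.Lib.MP_afdd4d_co.K10.E6.P29
import Pool.Agent.Lib.MP_afdd4d_co.K10.E6.P30
import Pool.Agent.Lib.MP_afdd4d_co.K10.E6.P31
import Pool.Agent.Lib.MP_afdd4d_co.K10.E6.P32

/-!
# Tables
-/

namespace Pool.Agent.Lib.MP_afdd4d_co.K10.E6

open K8

set_option maxRecDepth 100000
set_option exponentiation.threshold 10000000

/-- The slices of the chunk 764. -/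
noncomputable def c764 : List (List ℕ) := [
  [tr p734_44,
   tr p735_44,
   tr p736_44,
   tr p737_44,
   tr p738_44,
   tr p739_44,
   tr p740_44,
   tr p741_44],
  [s3_6 (s2_7 (s1_4 (s0_5 p738_44))),
   s3_6 (s2_7 (s1_4 (s0_5 p739_44))),
   tr p742_44,
   tr p743_44,
   tr p744_44,
   tr p745_44,
   tr p746_44,
   tr p747_44],
  [s3_6 (s2_7 (s1_4 (s0_5 p736_44))),
   s3_6 (s2_7 (s1_4 (s0_5 p737_44))),
   tr p748_44,
   tr p749_44,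
   s3_6 (s2_7 (s1_4 (s0_5 p742_44))),
   s3_6 (s2_7 (s1_4 (s0_5 p743_44))),
   tr p750_44,
   tr p751_44],
  [s3_6 (s2_7 (s1_4 (s0_5 p740_44))),
   s3_6 (s2_7 (s1_4 (s0_5 p741_44))),
   s3_6 (s2_7 (s1_4 (s0_5 p750_44))),
   s3_6 (s2_7 (s1_4 (s0_5 p751_44))),
   s3_6 (s2_7 (s1_4 (s0_5 p746_44))),
   s3_6 (s2_7 (s1_4 (s0_5 p747_44))),
   tr p752_44,
   tr p753_44],
  [tr p754_44,
   tr p755_44,
   tr p756_44,
   tr p757_44,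
   tr p758_44,
   tr p759_44,
   tr p760_44,
   tr p761_44],
  [s3_6 (s2_7 (s1_4 (s0_5 p758_44))),
   s3_6 (s2_7 (s1_4 (s0_5 p759_44))),
   tr p762_44,
   tr p763_44,
   p764_44,
   p764_45,
   p764_46,
   p764_47],
  [s3_6 (s2_7 (s1_4 (s0_5 p756_44))),
   s3_6 (s2_7 (s1_4 (s0_5 p757_44))),
   p764_50,
   p764_51,
   s3_6 (s2_7 (s1_4 (s0_5 p762_44))),
   s3_6 (s2_7 (s1_4 (s0_5 p763_44))),
   p764_54,
   p764_55],
  [s3_6 (s2_7 (s1_4 (s0_5 p760_44))),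
   s3_6 (s2_7 (s1_4 (s0_5 p761_44))),
   s6_7 (s4_5 (s2_3 (s0_1 p764_54))),
   s6_7 (s4_5 (s2_3 (s0_1 p764_55))),
   s6_7 (s4_5 (s2_3 (s0_1 p764_46))),
   s6_7 (s4_5 (s2_3 (s0_1 p764_47))),
   p764_62,
   p764_63]]

theorem k764 : eqNN c764 (slO 64 (D.chG 211 44) 8) = true := by decide +kernel

/-- The slices of the chunk 765. -/
noncomputable def c765 : List (List ℕ) := [
  [tr p734_45,
   tr p735_45,
   tr p736_45,
   tr p737_45,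
   tr p738_45,
   tr p739_45,
   tr p740_45,
   tr p741_45],
  [s3_6 (s2_7 (s1_4 (s0_5 p738_45))),
   s3_6 (s2_7 (s1_4 (s0_5 p739_45))),
   tr p742_45,
   tr p743_45,
   tr p744_45,
   tr p745_45,
   tr p746_45,
   tr p747_45],
  [s3_6 (s2_7 (s1_4 (s0_5 p736_45))),
   s3_6 (s2_7 (s1_4 (s0_5 p737_45))),
   tr p748_45,
   tr p749_45,
   s3_6 (s2_7 (s1_4 (s0_5 p742_45))),
   s3_6 (s2_7 (s1_4 (s0_5 p743_45))),
   tr p750_45,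
   tr p751_45],
  [s3_6 (s2_7 (s1_4 (s0_5 p740_45))),
   s3_6 (s2_7 (s1_4 (s0_5 p741_45))),
   s3_6 (s2_7 (s1_4 (s0_5 p750_45))),
   s3_6 (s2_7 (s1_4 (s0_5 p751_45))),
   s3_6 (s2_7 (s1_4 (s0_5 p746_45))),
   s3_6 (s2_7 (s1_4 (s0_5 p747_45))),
   tr p752_45,
   tr p753_45],
  [tr p754_45,
   tr p755_45,
   tr p756_45,
   tr p757_45,
   tr p758_45,
   tr p759_45,
   tr p760_45,
   tr p761_45],
  [s3_6 (s2_7 (s1_4 (s0_5 p758_45))),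
   s3_6 (s2_7 (s1_4 (s0_5 p759_45))),
   tr p762_45,
   tr p763_45,
   tr p764_45,
   p765_45,
   p765_46,
   p765_47],
  [s3_6 (s2_7 (s1_4 (s0_5 p756_45))),
   s3_6 (s2_7 (s1_4 (s0_5 p757_45))),
   p765_50,
   p765_51,
   s3_6 (s2_7 (s1_4 (s0_5 p762_45))),
   s3_6 (s2_7 (s1_4 (s0_5 p763_45))),
   p765_54,
   p765_55],
  [s3_6 (s2_7 (s1_4 (s0_5 p760_45))),
   s3_6 (s2_7 (s1_4 (s0_5 p761_45))),
   s6_7 (s4_5 (s2_3 (s0_1 p765_54))),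
   s6_7 (s4_5 (s2_3 (s0_1 p765_55))),
   s6_7 (s4_5 (s2_3 (s0_1 p765_46))),
   s6_7 (s4_5 (s2_3 (s0_1 p765_47))),
   p765_62,
   p765_63]]

theorem k765 : eqNN c765 (slO 64 (D.chG 211 45) 8) = true := by decide +kernel

/-- The slices of the chunk 766. -/
noncomputable def c766 : List (List ℕ) := [
  [tr p734_46,
   tr p735_46,
   tr p736_46,
   tr p737_46,
   tr p738_46,
   tr p739_46,
   tr p740_46,
   tr p741_46],
  [s3_6 (s2_7 (s1_4 (s0_5 p738_60))),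
   s3_6 (s2_7 (s1_4 (s0_5 p739_60))),
   tr p742_46,
   tr p743_46,
   tr p744_46,
   tr p745_46,
   tr p746_46,
   tr p747_46],
  [s3_6 (s2_7 (s1_4 (s0_5 p736_60))),
   s3_6 (s2_7 (s1_4 (s0_5 p737_60))),
   tr p748_46,
   tr p749_46,
   s3_6 (s2_7 (s1_4 (s0_5 p742_60))),
   s3_6 (s2_7 (s1_4 (s0_5 p743_60))),
   tr p750_46,
   tr p751_46],
  [s3_6 (s2_7 (s1_4 (s0_5 p740_60))),
   s3_6 (s2_7 (s1_4 (s0_5 p741_60))),
   s3_6 (s2_7 (s1_4 (s0_5 p750_60))),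
   s3_6 (s2_7 (s1_4 (s0_5 p751_60))),
   s3_6 (s2_7 (s1_4 (s0_5 p746_60))),
   s3_6 (s2_7 (s1_4 (s0_5 p747_60))),
   tr p752_46,
   tr p753_46],
  [tr p754_46,
   tr p755_46,
   tr p756_46,
   tr p757_46,
   tr p758_46,
   tr p759_46,
   tr p760_46,
   tr p761_46],
  [s3_6 (s2_7 (s1_4 (s0_5 p758_60))),
   s3_6 (s2_7 (s1_4 (s0_5 p759_60))),
   tr p762_46,
   tr p763_46,
   tr p764_46,
   tr p765_46,
   p766_46,
   p766_47],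
  [s3_6 (s2_7 (s1_4 (s0_5 p756_60))),
   s3_6 (s2_7 (s1_4 (s0_5 p757_60))),
   p766_50,
   p766_51,
   s3_6 (s2_7 (s1_4 (s0_5 p762_60))),
   s3_6 (s2_7 (s1_4 (s0_5 p763_60))),
   p766_54,
   p766_55],
  [s3_6 (s2_7 (s1_4 (s0_5 p760_60))),
   s3_6 (s2_7 (s1_4 (s0_5 p761_60))),
   p766_58,
   p766_59,
   p766_60,
   p766_61,
   p766_62,
   p766_63]]

theorem k766 : eqNN c766 (slO 64 (D.chG 211 46) 8) = true := by decide +kernel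

/-- The slices of the chunk 767. -/
noncomputable def c767 : List (List ℕ) := [
  [tr p734_47,
   tr p735_47,
   tr p736_47,
   tr p737_47,
   tr p738_47,
   tr p739_47,
   tr p740_47,
   tr p741_47],
  [s3_6 (s2_7 (s1_4 (s0_5 p738_61))),
   s3_6 (s2_7 (s1_4 (s0_5 p739_61))),
   tr p742_47,
   tr p743_47,
   tr p744_47,
   tr p745_47,
   tr p746_47,
   tr p747_47],
  [s3_6 (s2_7 (s1_4 (s0_5 p736_61))),
   s3_6 (s2_7 (s1_4 (s0_5 p737_61))),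
   tr p748_47,
   tr p749_47,
   s3_6 (s2_7 (s1_4 (s0_5 p742_61))),
   s3_6 (s2_7 (s1_4 (s0_5 p743_61))),
   tr p750_47,
   tr p751_47],
  [s3_6 (s2_7 (s1_4 (s0_5 p740_61))),
   s3_6 (s2_7 (s1_4 (s0_5 p741_61))),
   s3_6 (s2_7 (s1_4 (s0_5 p750_61))),
   s3_6 (s2_7 (s1_4 (s0_5 p751_61))),
   s3_6 (s2_7 (s1_4 (s0_5 p746_61))),
   s3_6 (s2_7 (s1_4 (s0_5 p747_61))),
   tr p752_47,
   tr p753_47],
  [tr p754_47,
   tr p755_47,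
   tr p756_47,
   tr p757_47,
   tr p758_47,
   tr p759_47,
   tr p760_47,
   tr p761_47],
  [s3_6 (s2_7 (s1_4 (s0_5 p758_61))),
   s3_6 (s2_7 (s1_4 (s0_5 p759_61))),
   tr p762_47,
   tr p763_47,
   tr p764_47,
   tr p765_47,
   tr p766_47,
   p767_47],
  [s3_6 (s2_7 (s1_4 (s0_5 p756_61))),
   s3_6 (s2_7 (s1_4 (s0_5 p757_61))),
   p767_50,
   p767_51,
   s3_6 (s2_7 (s1_4 (s0_5 p762_61))),
   s3_6 (s2_7 (s1_4 (s0_5 p763_61))),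
   p767_54,
   p767_55],
  [s3_6 (s2_7 (s1_4 (s0_5 p760_61))),
   s3_6 (s2_7 (s1_4 (s0_5 p761_61))),
   p767_58,
   p767_59,
   s3_6 (s2_7 (s1_4 (s0_5 p766_61))),
   p767_61,
   p767_62,
   p767_63]]

theorem k767 : eqNN c767 (slO 64 (D.chG 211 47) 8) = true := by decide +kernel

end Pool.Agent.Lib.MP_afdd4d_co.K10.E6
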