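import Pool.Agent.Lib.MP_afdd4d_co.K10.E6.Dat
import Pool.Agent.Lib.MP_afdd4d_co.K10.E6.Mk
import Pool.Agent.Lib.MP_afdd4d_co.K8.F6Bl5
import Pool.Agent.Lib.MP_afdd4d_co.K10.E6.P0
import Pool.Agent.Lib.MP_afdd4d_co.K10.E6.P1
import Pool.Agent.Lib.MP_afdd4d_co.K10.E6.P2
import Pool.Agent.Lib.MP_afdd4d_co.K10.E6.P3
import Pool.Agent.Lib.MP_afdd4d_co.K10.E6.P4
import Pool.Agent.Lib.MP_afdd4d_co.K10.E6.P5
import Pool.Agent.Lib.MP_afdd4d_co.K10.E6.P6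
import Pool.Agent.Lib.MP_afdd4d_co.K10.E6.P7
import Pool.Agent.Lib.MP_afdd4d_co.K10.E6.P8
import Pool.Agent.Lib.MP_afdd4d_co.K10.E6.P9
import Pool.Agent.Lib.MP_afdd4d_co.K10.E6.P10
import Pool.Agent.Lib.MP_afdd4d_co.K10.E6.P11
import Pool.Agent.Lib.MP_afdd4d_co.K10.E6.P12
import Pool.Agent.Lib.MP_afdd4d_co.K10.E6.P13
import Pool.Agent.Lib.MP_afdd4d_co.K10.E6.P14
import Pool.Agent.Lib.MP_afdd4d_co.K10.E6.P15
import Pool.Agent.Lib.MP_afdd4d_co.K10.E6.P16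
import Pool.Agent.Lib.MP_afdd4d_co.K10.E6.P17
import Pool.Agent.Lib.MP_afdd4d_co.K10.E6.P18
import Pool.Agent.Lib.MP_afdd4d_co.K10.E6.P19
import Pool.Agent.Lib.MP_afdd4d_co.K10.E6.P20
import Pool.Agent.Lib.MP_afdd4d_co.K10.E6.P21
import Pool.Agent.Lib.MP_afdd4d_co.K10.E6.P22
import Pool.Agent.Lib.MP_afdd4d_co.K10.E6.P23
import Pool.Agent.Lib.MP_afdd4d_co.K10.E6.P24
import Pool.Agent.Lib.MP_afdd4d_co.K10.E6.P25
import Pool.Agent.Lib.MP_afdd4d_co.K10.E6.P26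
import Pool.Agent.Lib.MP_afdd4d_co.K10.E6.P27
import Pool.Agent.Lib.MP_afdd4d_co.K10.E6.P28
import Pool.Agent.Lib.MP_afdd4d_co.K10.E6.P29
import Pool.Agent.Lib.MP_afdd4d_co.K10.E6.P30
import Pool.Agent.Lib.MP_afdd4d_co.K10.E6.P31
import Pool.Agent.Lib.MP_afdd4d_co.K10.E6.P32

/-!
# Tables
-/

namespace Pool.Agent.Lib.MP_afdd4d_co.K10.E6

open K8

set_option maxRecDepth 100000
set_option exponentiation.threshold 10000000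

/-- The slices of the chunk 768. -/
noncomputable def c768 : List (List ℕ) := [
  [tr p734_50,
   tr p735_50,
   tr p736_50,
   tr p737_50,
   tr p738_50,
   tr p739_50,
   tr p740_50,
   tr p741_50],
  [s3_6 (s2_7 (s1_4 (s0_5 p738_50))),
   s3_6 (s2_7 (s1_4 (s0_5 p739_50))),
   tr p742_50,
   tr p743_50,
   tr p744_50,
   tr p745_50,
   tr p746_50,
   tr p747_50],
  [s3_6 (s2_7 (s1_4 (s0_5 p736_50))),
   s3_6 (s2_7 (s1_4 (s0_5 p737_50))),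
   tr p748_50,
   tr p749_50,
   s3_6 (s2_7 (s1_4 (s0_5 p742_50))),
   s3_6 (s2_7 (s1_4 (s0_5 p743_50))),
   tr p750_50,
   tr p751_50],
  [s3_6 (s2_7 (s1_4 (s0_5 p740_50))),
   s3_6 (s2_7 (s1_4 (s0_5 p741_50))),
   s3_6 (s2_7 (s1_4 (s0_5 p750_50))),
   s3_6 (s2_7 (s1_4 (s0_5 p751_50))),
   s3_6 (s2_7 (s1_4 (s0_5 p746_50))),
   s3_6 (s2_7 (s1_4 (s0_5 p747_50))),
   tr p752_50,
   tr p753_50],
  [tr p754_50,
   tr p755_50,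
   tr p756_50,
   tr p757_50,
   tr p758_50,
   tr p759_50,
   tr p760_50,
   tr p761_50],
  [s3_6 (s2_7 (s1_4 (s0_5 p758_50))),
   s3_6 (s2_7 (s1_4 (s0_5 p759_50))),
   tr p762_50,
   tr p763_50,
   tr p764_50,
   tr p765_50,
   tr p766_50,
   tr p767_50],
  [s3_6 (s2_7 (s1_4 (s0_5 p756_50))),
   s3_6 (s2_7 (s1_4 (s0_5 p757_50))),
   p768_50,
   p768_51,
   s3_6 (s2_7 (s1_4 (s0_5 p762_50))),
   s3_6 (s2_7 (s1_4 (s0_5 p763_50))),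
   p768_54,
   p768_55],
  [s3_6 (s2_7 (s1_4 (s0_5 p760_50))),
   s3_6 (s2_7 (s1_4 (s0_5 p761_50))),
   s6_7 (s4_5 (s2_3 (s0_1 p768_54))),
   s6_7 (s4_5 (s2_3 (s0_1 p768_55))),
   s3_6 (s2_7 (s1_4 (s0_5 p766_50))),
   s3_6 (s2_7 (s1_4 (s0_5 p767_50))),
   p768_62,
   p768_63]]

theorem k768 : eqNN c768 (slO 64 (D.chG 211 50) 8) = true := by decide +kernel

/-- The slices of the chunk 769. -/
noncomputable def c769 : List (List ℕ) := [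
  [tr p734_51,
   tr p735_51,
   tr p736_51,
   tr p737_51,
   tr p738_51,
   tr p739_51,
   tr p740_51,
   tr p741_51],
  [s3_6 (s2_7 (s1_4 (s0_5 p738_51))),
   s3_6 (s2_7 (s1_4 (s0_5 p739_51))),
   tr p742_51,
   tr p743_51,
   tr p744_51,
   tr p745_51,
   tr p746_51,
   tr p747_51],
  [s3_6 (s2_7 (s1_4 (s0_5 p736_51))),
   s3_6 (s2_7 (s1_4 (s0_5 p737_51))),
   tr p748_51,
   tr p749_51,
   s3_6 (s2_7 (s1_4 (s0_5 p742_51))),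
   s3_6 (s2_7 (s1_4 (s0_5 p743_51))),
   tr p750_51,
   tr p751_51],
  [s3_6 (s2_7 (s1_4 (s0_5 p740_51))),
   s3_6 (s2_7 (s1_4 (s0_5 p741_51))),
   s3_6 (s2_7 (s1_4 (s0_5 p750_51))),
   s3_6 (s2_7 (s1_4 (s0_5 p751_51))),
   s3_6 (s2_7 (s1_4 (s0_5 p746_51))),
   s3_6 (s2_7 (s1_4 (s0_5 p747_51))),
   tr p752_51,
   tr p753_51],
  [tr p754_51,
   tr p755_51,
   tr p756_51,
   tr p757_51,
   tr p758_51,
   tr p759_51,
   tr p760_51,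
   tr p761_51],
  [s3_6 (s2_7 (s1_4 (s0_5 p758_51))),
   s3_6 (s2_7 (s1_4 (s0_5 p759_51))),
   tr p762_51,
   tr p763_51,
   tr p764_51,
   tr p765_51,
   tr p766_51,
   tr p767_51],
  [s3_6 (s2_7 (s1_4 (s0_5 p756_51))),
   s3_6 (s2_7 (s1_4 (s0_5 p757_51))),
   tr p768_51,
   p769_51,
   s3_6 (s2_7 (s1_4 (s0_5 p762_51))),
   s3_6 (s2_7 (s1_4 (s0_5 p763_51))),
   p769_54,
   p769_55],
  [s3_6 (s2_7 (s1_4 (s0_5 p760_51))),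
   s3_6 (s2_7 (s1_4 (s0_5 p761_51))),
   s6_7 (s4_5 (s2_3 (s0_1 p769_54))),
   s6_7 (s4_5 (s2_3 (s0_1 p769_55))),
   s3_6 (s2_7 (s1_4 (s0_5 p766_51))),
   s3_6 (s2_7 (s1_4 (s0_5 p767_51))),
   p769_62,
   p769_63]]

theorem k769 : eqNN c769 (slO 64 (D.chG 211 51) 8) = true := by decide +kernel

/-- The slices of the chunk 770. -/
noncomputable def c770 : List (List ℕ) := [
  [tr p734_54,
   tr p735_54,
   tr p736_54,
   tr p737_54,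
   tr p738_54,
   tr p739_54,
   tr p740_54,
   tr p741_54],
  [s3_6 (s2_7 (s1_4 (s0_5 p738_58))),
   s3_6 (s2_7 (s1_4 (s0_5 p739_58))),
   tr p742_54,
   tr p743_54,
   tr p744_54,
   tr p745_54,
   tr p746_54,
   tr p747_54],
  [s3_6 (s2_7 (s1_4 (s0_5 p736_58))),
   s3_6 (s2_7 (s1_4 (s0_5 p737_58))),
   tr p748_54,
   tr p749_54,
   s3_6 (s2_7 (s1_4 (s0_5 p742_58))),
   s3_6 (s2_7 (s1_4 (s0_5 p743_58))),
   tr p750_54,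
   tr p751_54],
  [s3_6 (s2_7 (s1_4 (s0_5 p740_58))),
   s3_6 (s2_7 (s1_4 (s0_5 p741_58))),
   s3_6 (s2_7 (s1_4 (s0_5 p750_58))),
   s3_6 (s2_7 (s1_4 (s0_5 p751_58))),
   s3_6 (s2_7 (s1_4 (s0_5 p746_58))),
   s3_6 (s2_7 (s1_4 (s0_5 p747_58))),
   tr p752_54,
   tr p753_54],
  [tr p754_54,
   tr p755_54,
   tr p756_54,
   tr p757_54,
   tr p758_54,
   tr p759_54,
   tr p760_54,
   tr p761_54],
  [s3_6 (s2_7 (s1_4 (s0_5 p758_58))),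
   s3_6 (s2_7 (s1_4 (s0_5 p759_58))),
   tr p762_54,
   tr p763_54,
   tr p764_54,
   tr p765_54,
   tr p766_54,
   tr p767_54],
  [s3_6 (s2_7 (s1_4 (s0_5 p756_58))),
   s3_6 (s2_7 (s1_4 (s0_5 p757_58))),
   tr p768_54,
   tr p769_54,
   s3_6 (s2_7 (s1_4 (s0_5 p762_58))),
   s3_6 (s2_7 (s1_4 (s0_5 p763_58))),
   p770_54,
   p770_55],
  [s3_6 (s2_7 (s1_4 (s0_5 p760_58))),
   s3_6 (s2_7 (s1_4 (s0_5 p761_58))),
   p770_58,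
   p770_59,
   s3_6 (s2_7 (s1_4 (s0_5 p766_58))),
   s3_6 (s2_7 (s1_4 (s0_5 p767_58))),
   p770_62,
   p770_63]]

theorem k770 : eqNN c770 (slO 64 (D.chG 211 54) 8) = true := by decide +kernel

/-- The slices of the chunk 771. -/
noncomputable def c771 : List (List ℕ) := [
  [tr p734_55,
   tr p735_55,
   tr p736_55,
   tr p737_55,
   tr p738_55,
   tr p739_55,
   tr p740_55,
   tr p741_55],
  [s3_6 (s2_7 (s1_4 (s0_5 p738_59))),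
   s3_6 (s2_7 (s1_4 (s0_5 p739_59))),
   tr p742_55,
   tr p743_55,
   tr p744_55,
   tr p745_55,
   tr p746_55,
   tr p747_55],
  [s3_6 (s2_7 (s1_4 (s0_5 p736_59))),
   s3_6 (s2_7 (s1_4 (s0_5 p737_59))),
   tr p748_55,
   tr p749_55,
   s3_6 (s2_7 (s1_4 (s0_5 p742_59))),
   s3_6 (s2_7 (s1_4 (s0_5 p743_59))),
   tr p750_55,
   tr p751_55],
  [s3_6 (s2_7 (s1_4 (s0_5 p740_59))),
   s3_6 (s2_7 (s1_4 (s0_5 p741_59))),
   s3_6 (s2_7 (s1_4 (s0_5 p750_59))),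
   s3_6 (s2_7 (s1_4 (s0_5 p751_59))),
   s3_6 (s2_7 (s1_4 (s0_5 p746_59))),
   s3_6 (s2_7 (s1_4 (s0_5 p747_59))),
   tr p752_55,
   tr p753_55],
  [tr p754_55,
   tr p755_55,
   tr p756_55,
   tr p757_55,
   tr p758_55,
   tr p759_55,
   tr p760_55,
   tr p761_55],
  [s3_6 (s2_7 (s1_4 (s0_5 p758_59))),
   s3_6 (s2_7 (s1_4 (s0_5 p759_59))),
   tr p762_55,
   tr p763_55,
   tr p764_55,
   tr p765_55,
   tr p766_55,
   tr p767_55],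
  [s3_6 (s2_7 (s1_4 (s0_5 p756_59))),
   s3_6 (s2_7 (s1_4 (s0_5 p757_59))),
   tr p768_55,
   tr p769_55,
   s3_6 (s2_7 (s1_4 (s0_5 p762_59))),
   s3_6 (s2_7 (s1_4 (s0_5 p763_59))),
   tr p770_55,
   p771_55],
  [s3_6 (s2_7 (s1_4 (s0_5 p760_59))),
   s3_6 (s2_7 (s1_4 (s0_5 p761_59))),
   s3_6 (s2_7 (s1_4 (s0_5 p770_59))),
   p771_59,
   s3_6 (s2_7 (s1_4 (s0_5 p766_59))),
   s3_6 (s2_7 (s1_4 (s0_5 p767_59))),
   p771_62,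
   p771_63]]

theorem k771 : eqNN c771 (slO 64 (D.chG 211 55) 8) = true := by decide +kernel

end Pool.Agent.Lib.MP_afdd4d_co.K10.E6
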