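import Pool.Agent.Lib.MP_afdd4d_co.K10.E6.Dat
import Pool.Agent.Lib.MP_afdd4d_co.K10.E6.Mk
import Pool.Agent.Lib.MP_afdd4d_co.K8.F6Bl5
import Pool.Agent.Lib.MP_afdd4d_co.K10.E6.P0
import Pool.Agent.Lib.MP_afdd4d_co.K10.E6.P1
import Pool.Agent.Lib.MP_afdd4d_co.K10.E6.P2
import Pool.Agent.Lib.MP_afdd4d_co.K10.E6.P3
import Pool.Agent.Lib.MP_afdd4d_co.K10.E6.P4
import Pool.Agent.Lib.MP_afdd4d_co.K10.E6.P5
import Pool.Agent.Lib.MP_afdd4d_co.K10.E6.P6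
import Pool.Agent.Lib.MP_afdd4d_co.K10.E6.P7
import Pool.Agent.Lib.MP_afdd4d_co.K10.E6.P8
import Pool.Agent.Lib.MP_afdd4d_co.K10.E6.P9
import Pool.Agent.Lib.MP_afdd4d_co.K10.E6.P10
import Pool.Agent.Lib.MP_afdd4d_co.K10.E6.P11
import Pool.Agent.Lib.MP_afdd4d_co.K10.E6.P12
import Pool.Agent.Lib.MP_afdd4d_co.K10.E6.P13
import Pool.Agent.Lib.MP_afdd4d_co.K10.E6.P14
import Pool.Agent.Lib.MP_afdd4d_co.K10.E6.P15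
import Pool.Agent.Lib.MP_afdd4d_co.K10.E6.P16
import Pool.Agent.Lib.MP_afdd4d_co.K10.E6.P17
import Pool.Agent.Lib.MP_afdd4d_co.K10.E6.P18
import Pool.Agent.Lib.MP_afdd4d_co.K10.E6.P19
import Pool.Agent.Lib.MP_afdd4d_co.K10.E6.P20
import Pool.Agent.Lib.MP_afdd4d_co.K10.E6.P21
import Pool.Agent.Lib.MP_afdd4d_co.K10.E6.P22
import Pool.Agent.Lib.MP_afdd4d_co.K10.E6.P23
import Pool.Agent.Lib.MP_afdd4d_co.K10.E6.P24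
import Pool.Agent.Lib.MP_afdd4d_co.K10.E6.P25
import Pool.Agent.Lib.MP_afdd4d_co.K10.E6.P26
import Pool.Agent.Lib.MP_afdd4d_co.K10.E6.P27
import Pool.Agent.Lib.MP_afdd4d_co.K10.E6.P28
import Pool.Agent.Lib.MP_afdd4d_co.K10.E6.P29
import Pool.Agent.Lib.MP_afdd4d_co.K10.E6.P30
import Pool.Agent.Lib.MP_afdd4d_co.K10.E6.P31
import Pool.Agent.Lib.MP_afdd4d_co.K10.E6.P32

/-!
# Tables
-/

namespace Pool.Agent.Lib.MP_afdd4d_co.K10.E6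

open K8

set_option maxRecDepth 100000
set_option exponentiation.threshold 10000000

/-- The slices of the chunk 772. -/
noncomputable def c772 : List (List ℕ) := [
  [tr p734_62,
   tr p735_62,
   tr p736_62,
   tr p737_62,
   tr p738_62,
   tr p739_62,
   tr p740_62,
   tr p741_62],
  [s3_6 (s2_7 (s1_4 (s0_5 p738_62))),
   s3_6 (s2_7 (s1_4 (s0_5 p739_62))),
   tr p742_62,
   tr p743_62,
   tr p744_62,
   tr p745_62,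
   tr p746_62,
   tr p747_62],
  [s3_6 (s2_7 (s1_4 (s0_5 p736_62))),
   s3_6 (s2_7 (s1_4 (s0_5 p737_62))),
   tr p748_62,
   tr p749_62,
   s3_6 (s2_7 (s1_4 (s0_5 p742_62))),
   s3_6 (s2_7 (s1_4 (s0_5 p743_62))),
   tr p750_62,
   tr p751_62],
  [s3_6 (s2_7 (s1_4 (s0_5 p740_62))),
   s3_6 (s2_7 (s1_4 (s0_5 p741_62))),
   s3_6 (s2_7 (s1_4 (s0_5 p750_62))),
   s3_6 (s2_7 (s1_4 (s0_5 p751_62))),
   s3_6 (s2_7 (s1_4 (s0_5 p746_62))),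
   s3_6 (s2_7 (s1_4 (s0_5 p747_62))),
   tr p752_62,
   tr p753_62],
  [tr p754_62,
   tr p755_62,
   tr p756_62,
   tr p757_62,
   tr p758_62,
   tr p759_62,
   tr p760_62,
   tr p761_62],
  [s3_6 (s2_7 (s1_4 (s0_5 p758_62))),
   s3_6 (s2_7 (s1_4 (s0_5 p759_62))),
   tr p762_62,
   tr p763_62,
   tr p764_62,
   tr p765_62,
   tr p766_62,
   tr p767_62],
  [s3_6 (s2_7 (s1_4 (s0_5 p756_62))),
   s3_6 (s2_7 (s1_4 (s0_5 p757_62))),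
   tr p768_62,
   tr p769_62,
   s3_6 (s2_7 (s1_4 (s0_5 p762_62))),
   s3_6 (s2_7 (s1_4 (s0_5 p763_62))),
   tr p770_62,
   tr p771_62],
  [s3_6 (s2_7 (s1_4 (s0_5 p760_62))),
   s3_6 (s2_7 (s1_4 (s0_5 p761_62))),
   s3_6 (s2_7 (s1_4 (s0_5 p770_62))),
   s3_6 (s2_7 (s1_4 (s0_5 p771_62))),
   s3_6 (s2_7 (s1_4 (s0_5 p766_62))),
   s3_6 (s2_7 (s1_4 (s0_5 p767_62))),
   p772_62,
   p772_63]]

theorem k772 : eqNN c772 (slO 64 (D.chG 211 62) 8) = true := by decide +kernel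

/-- The slices of the chunk 773. -/
noncomputable def c773 : List (List ℕ) := [
  [tr p734_63,
   tr p735_63,
   tr p736_63,
   tr p737_63,
   tr p738_63,
   tr p739_63,
   tr p740_63,
   tr p741_63],
  [s3_6 (s2_7 (s1_4 (s0_5 p738_63))),
   s3_6 (s2_7 (s1_4 (s0_5 p739_63))),
   tr p742_63,
   tr p743_63,
   tr p744_63,
   tr p745_63,
   tr p746_63,
   tr p747_63],
  [s3_6 (s2_7 (s1_4 (s0_5 p736_63))),
   s3_6 (s2_7 (s1_4 (s0_5 p737_63))),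
   tr p748_63,
   tr p749_63,
   s3_6 (s2_7 (s1_4 (s0_5 p742_63))),
   s3_6 (s2_7 (s1_4 (s0_5 p743_63))),
   tr p750_63,
   tr p751_63],
  [s3_6 (s2_7 (s1_4 (s0_5 p740_63))),
   s3_6 (s2_7 (s1_4 (s0_5 p741_63))),
   s3_6 (s2_7 (s1_4 (s0_5 p750_63))),
   s3_6 (s2_7 (s1_4 (s0_5 p751_63))),
   s3_6 (s2_7 (s1_4 (s0_5 p746_63))),
   s3_6 (s2_7 (s1_4 (s0_5 p747_63))),
   tr p752_63,
   tr p753_63],
  [tr p754_63,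
   tr p755_63,
   tr p756_63,
   tr p757_63,
   tr p758_63,
   tr p759_63,
   tr p760_63,
   tr p761_63],
  [s3_6 (s2_7 (s1_4 (s0_5 p758_63))),
   s3_6 (s2_7 (s1_4 (s0_5 p759_63))),
   tr p762_63,
   tr p763_63,
   tr p764_63,
   tr p765_63,
   tr p766_63,
   tr p767_63],
  [s3_6 (s2_7 (s1_4 (s0_5 p756_63))),
   s3_6 (s2_7 (s1_4 (s0_5 p757_63))),
   tr p768_63,
   tr p769_63,
   s3_6 (s2_7 (s1_4 (s0_5 p762_63))),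
   s3_6 (s2_7 (s1_4 (s0_5 p763_63))),
   tr p770_63,
   tr p771_63],
  [s3_6 (s2_7 (s1_4 (s0_5 p760_63))),
   s3_6 (s2_7 (s1_4 (s0_5 p761_63))),
   s3_6 (s2_7 (s1_4 (s0_5 p770_63))),
   s3_6 (s2_7 (s1_4 (s0_5 p771_63))),
   s3_6 (s2_7 (s1_4 (s0_5 p766_63))),
   s3_6 (s2_7 (s1_4 (s0_5 p767_63))),
   tr p772_63,
   p773_63]]

theorem k773 : eqNN c773 (slO 64 (D.chG 211 63) 8) = true := by decide +kernel

/-- The slices of the chunk 774. -/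
noncomputable def c774 : List (List ℕ) := [
  [p774_0,
   p774_1,
   s5_6 (s1_2 p774_1),
   p774_3,
   p774_4,
   p774_5,
   s5_6 (s1_2 p774_5),
   p774_7],
  [tr p778_0,
   tr p779_0,
   s3_7 (s2_5 (s1_6 (s0_4 p779_0))),
   tr p780_0,
   tr p781_0,
   tr p782_0,
   s3_7 (s2_5 (s1_6 (s0_4 p782_0))),
   tr p783_0],
  [p774_16,
   p774_17,
   p774_18,
   p774_19,
   p774_20,
   p774_21,
   p774_22,
   p774_23],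
  [p774_24,
   p774_25,
   p774_26,
   p774_27,
   p774_28,
   p774_29,
   p774_30,
   p774_31],
  [s5_6 (s1_2 p774_16),
   s5_6 (s1_2 p774_18),
   s5_6 (s1_2 p774_17),
   s5_6 (s1_2 p774_19),
   s5_6 (s1_2 p774_20),
   s5_6 (s1_2 p774_22),
   s5_6 (s1_2 p774_21),
   s5_6 (s1_2 p774_23)],
  [s5_6 (s1_2 p774_24),
   s5_6 (s1_2 p774_26),
   s5_6 (s1_2 p774_25),
   s5_6 (s1_2 p774_27),
   s5_6 (s1_2 p774_28),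
   s5_6 (s1_2 p774_30),
   s5_6 (s1_2 p774_29),
   s5_6 (s1_2 p774_31)],
  [tr p792_0,
   tr p793_0,
   s3_7 (s2_5 (s1_6 (s0_4 p793_0))),
   tr p794_0,
   tr p795_0,
   tr p796_0,
   s3_7 (s2_5 (s1_6 (s0_4 p796_0))),
   tr p797_0],
  [p774_56,
   p774_57,
   s5_6 (s1_2 p774_57),
   p774_59,
   p774_60,
   p774_61,
   s5_6 (s1_2 p774_61),
   p774_63]]

theorem k774 : eqNN c774 (slO 64 (D.chG 246 0) 8) = true := by decide +kernel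

/-- The slices of the chunk 775. -/
noncomputable def c775 : List (List ℕ) := [
  [tr p774_1,
   p775_1,
   p775_2,
   x7_6 (x7_5 (x7_4 (x3_2 (x3_1 (x3_0 (s3_7 (s2_5 (s1_6 (s0_4 (n4 (n0 p774_1))))))))))),
   p775_4,
   p775_5,
   p775_6,
   x7_6 (x7_5 (x7_4 (s5_6 (x3_2 (x3_1 (x3_0 (s1_2 (n4 (n0 p775_4)))))))))],
  [tr p778_1,
   tr p779_1,
   x7_6 (x7_5 (x7_4 (x3_2 (x3_1 (x3_0 (s3_7 (s2_5 (s1_6 (s0_4 (n4 p779_1)))))))))),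
   tr p780_1,
   tr p781_1,
   tr p782_1,
   x7_6 (x7_5 (x7_4 (x3_2 (x3_1 (x3_0 (s3_7 (s2_5 (s1_6 (s0_4 (n4 p782_1)))))))))),
   tr p783_1],
  [p775_16,
   p775_17,
   p775_18,
   p775_19,
   x7_6 (x7_5 (x7_4 (s5_6 (x3_2 (x3_1 (x3_0 (s1_2 (n6 (n4 (n0 p775_33)))))))))),
   x7_6 (x7_5 (x7_4 (s5_6 (x3_2 (x3_1 (x3_0 (s1_2 (n6 (n4 (n0 p775_35)))))))))),
   x7_6 (x7_5 (x7_4 (s5_6 (x3_2 (x3_1 (x3_0 (s1_2 (n6 (n4 (n0 p775_32)))))))))),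
   x7_6 (x7_5 (x7_4 (s5_6 (x3_2 (x3_1 (x3_0 (s1_2 (n6 (n4 (n0 p775_34))))))))))],
  [p775_24,
   p775_25,
   p775_26,
   p775_27,
   x7_6 (x7_5 (x7_4 (s5_6 (x3_2 (x3_1 (x3_0 (s1_2 (n6 (n0 p775_42))))))))),
   x7_6 (x7_5 (x7_4 (s5_6 (x3_2 (x3_1 (x3_0 (s1_2 (n6 (n0 p775_40))))))))),
   x7_6 (x7_5 (x7_4 (s5_6 (x3_2 (x3_1 (x3_0 (s1_2 (n6 (n0 p775_43))))))))),
   x7_6 (x7_5 (x7_4 (s5_6 (x3_2 (x3_1 (x3_0 (s1_2 (n6 (n0 p775_41)))))))))],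
  [p775_32,
   p775_33,
   p775_34,
   p775_35,
   x7_6 (x7_5 (x7_4 (s5_6 (x3_2 (x3_1 (x3_0 (s1_2 (n5 (n4 (n0 p775_18)))))))))),
   x7_6 (x7_5 (x7_4 (s5_6 (x3_2 (x3_1 (x3_0 (s1_2 (n5 (n4 (n0 p775_16)))))))))),
   x7_6 (x7_5 (x7_4 (s5_6 (x3_2 (x3_1 (x3_0 (s1_2 (n5 (n4 (n0 p775_19)))))))))),
   x7_6 (x7_5 (x7_4 (s5_6 (x3_2 (x3_1 (x3_0 (s1_2 (n5 (n4 (n0 p775_17))))))))))],
  [p775_40,
   p775_41,
   p775_42,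
   p775_43,
   x7_6 (x7_5 (x7_4 (s5_6 (x3_2 (x3_1 (x3_0 (s1_2 (n5 (n0 p775_25))))))))),
   x7_6 (x7_5 (x7_4 (s5_6 (x3_2 (x3_1 (x3_0 (s1_2 (n5 (n0 p775_27))))))))),
   x7_6 (x7_5 (x7_4 (s5_6 (x3_2 (x3_1 (x3_0 (s1_2 (n5 (n0 p775_24))))))))),
   x7_6 (x7_5 (x7_4 (s5_6 (x3_2 (x3_1 (x3_0 (s1_2 (n5 (n0 p775_26)))))))))],
  [tr p792_1,
   tr p793_1,
   x7_6 (x7_5 (x7_4 (x3_2 (x3_1 (x3_0 (s3_7 (s2_5 (s1_6 (s0_4 (n4 (n2 (n1 (n0 p793_1))))))))))))),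
   tr p794_1,
   tr p795_1,
   tr p796_1,
   x7_6 (x7_5 (x7_4 (x3_2 (x3_1 (x3_0 (s3_7 (s2_5 (s1_6 (s0_4 (n4 (n2 (n1 (n0 p796_1))))))))))))),
   tr p797_1],
  [p775_56,
   p775_57,
   p775_58,
   x7_6 (x7_5 (x7_4 (s5_6 (x3_2 (x3_1 (x3_0 (s1_2 (n6 (n5 (n0 p775_56)))))))))),
   p775_60,
   p775_61,
   p775_62,
   x7_6 (x7_5 (x7_4 (s5_6 (x3_2 (x3_1 (x3_0 (s1_2 (n6 (n5 (n0 p775_60))))))))))]]

theorem k775 : eqNN c775 (slO 64 (D.chG 246 1) 8) = true := by decide +kernel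

end Pool.Agent.Lib.MP_afdd4d_co.K10.E6
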