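import Pool.Agent.Lib.MP_afdd4d_co.K10.E6.Dat
import Pool.Agent.Lib.MP_afdd4d_co.K10.E6.Mk
import Pool.Agent.Lib.MP_afdd4d_co.K8.F6Bl5
import Pool.Agent.Lib.MP_afdd4d_co.K10.E6.P0
import Pool.Agent.Lib.MP_afdd4d_co.K10.E6.P1
import Pool.Agent.Lib.MP_afdd4d_co.K10.E6.P2
import Pool.Agent.Lib.MP_afdd4d_co.K10.E6.P3
import Pool.Agent.Lib.MP_afdd4d_co.K10.E6.P4
import Pool.Agent.Lib.MP_afdd4d_co.K10.E6.P5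
import Pool.Agent.Lib.MP_afdd4d_co.K10.E6.P6
import Pool.Agent.Lib.MP_afdd4d_co.K10.E6.P7
import Pool.Agent.Lib.MP_afdd4d_co.K10.E6.P8
import Pool.Agent.Lib.MP_afdd4d_co.K10.E6.P9
import Pool.Agent.Lib.MP_afdd4d_co.K10.E6.P10
import Pool.Agent.Lib.MP_afdd4d_co.K10.E6.P11
import Pool.Agent.Lib.MP_afdd4d_co.K10.E6.P12
import Pool.Agent.Lib.MP_afdd4d_co.K10.E6.P13
import Pool.Agent.Lib.MP_afdd4d_co.K10.E6.P14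
import Pool.Agent.Lib.MP_afdd4d_co.K10.E6.P15
import Pool.Agent.Lib.MP_afdd4d_co.K10.E6.P16
import Pool.Agent.Lib.MP_afdd4d_co.K10.E6.P17
import Pool.Agent.Lib.MP_afdd4d_co.K10.E6.P18
import Pool.Agent.Lib.MP_afdd4d_co.K10.E6.P19
import Pool.Agent.Lib.MP_afdd4d_co.K10.E6.P20
import Pool.Agent.Lib.MP_afdd4d_co.K10.E6.P21
import Pool.Agent.Lib.MP_afdd4d_co.K10.E6.P22
import Pool.Agent.Lib.MP_afdd4d_co.K10.E6.P23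
import Pool.Agent.Lib.MP_afdd4d_co.K10.E6.P24
import Pool.Agent.Lib.MP_afdd4d_co.K10.E6.P25
import Pool.Agent.Lib.MP_afdd4d_co.K10.E6.P26
import Pool.Agent.Lib.MP_afdd4d_co.K10.E6.P27
import Pool.Agent.Lib.MP_afdd4d_co.K10.E6.P28
import Pool.Agent.Lib.MP_afdd4d_co.K10.E6.P29
import Pool.Agent.Lib.MP_afdd4d_co.K10.E6.P30
import Pool.Agent.Lib.MP_afdd4d_co.K10.E6.P31
import Pool.Agent.Lib.MP_afdd4d_co.K10.E6.P32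

/-!
# Tables
-/

namespace Pool.Agent.Lib.MP_afdd4d_co.K10.E6

open K8

set_option maxRecDepth 100000
set_option exponentiation.threshold 10000000

/-- The slices of the chunk 776. -/
noncomputable def c776 : List (List ℕ) := [
  [tr p774_4,
   tr p775_4,
   s3_7 (s2_5 (s1_6 (s0_4 p775_4))),
   x7_6 (x7_5 (x7_4 (x3_2 (x3_1 (x3_0 (tr (n4 (n0 p774_7)))))))),
   p776_4,
   p776_5,
   s5_6 (s1_2 p776_5),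
   p776_7],
  [tr p778_4,
   tr p779_4,
   s3_7 (s2_5 (s1_6 (s0_4 p779_4))),
   tr p780_4,
   tr p781_4,
   tr p782_4,
   s3_7 (s2_5 (s1_6 (s0_4 p782_4))),
   tr p783_4],
  [p776_16,
   p776_17,
   p776_18,
   p776_19,
   p776_20,
   p776_21,
   p776_22,
   p776_23],
  [p776_24,
   p776_25,
   p776_26,
   p776_27,
   p776_28,
   p776_29,
   p776_30,
   p776_31],
  [s5_6 (s1_2 p776_16),
   s5_6 (s1_2 p776_18),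
   s5_6 (s1_2 p776_17),
   s5_6 (s1_2 p776_19),
   s5_6 (s1_2 p776_20),
   s5_6 (s1_2 p776_22),
   s5_6 (s1_2 p776_21),
   s5_6 (s1_2 p776_23)],
  [s5_6 (s1_2 p776_24),
   s5_6 (s1_2 p776_26),
   s5_6 (s1_2 p776_25),
   s5_6 (s1_2 p776_27),
   s5_6 (s1_2 p776_28),
   s5_6 (s1_2 p776_30),
   s5_6 (s1_2 p776_29),
   s5_6 (s1_2 p776_31)],
  [tr p792_4,
   tr p793_4,
   s3_7 (s2_5 (s1_6 (s0_4 p793_4))),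
   tr p794_4,
   tr p795_4,
   tr p796_4,
   s3_7 (s2_5 (s1_6 (s0_4 p796_4))),
   tr p797_4],
  [p776_56,
   p776_57,
   s5_6 (s1_2 p776_57),
   p776_59,
   p776_60,
   p776_61,
   s5_6 (s1_2 p776_61),
   p776_63]]

theorem k776 : eqNN c776 (slO 64 (D.chG 246 4) 8) = true := by decide +kernel

/-- The slices of the chunk 777. -/
noncomputable def c777 : List (List ℕ) := [
  [tr p774_5,
   tr p775_5,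
   s3_7 (s2_5 (s1_6 (s0_4 p775_6))),
   x7_6 (x7_5 (x7_4 (x3_2 (x3_1 (x3_0 (s3_7 (s2_5 (s1_6 (s0_4 (n4 (n0 p774_5))))))))))),
   tr p776_5,
   p777_5,
   p777_6,
   x7_6 (x7_5 (x7_4 (x3_2 (x3_1 (x3_0 (s3_7 (s2_5 (s1_6 (s0_4 (n4 (n0 p776_5)))))))))))],
  [tr p778_5,
   tr p779_5,
   x7_6 (x7_5 (x7_4 (x3_2 (x3_1 (x3_0 (s3_7 (s2_5 (s1_6 (s0_4 (n4 p779_5)))))))))),
   tr p780_5,
   tr p781_5,
   tr p782_5,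
   x7_6 (x7_5 (x7_4 (x3_2 (x3_1 (x3_0 (s3_7 (s2_5 (s1_6 (s0_4 (n4 p782_5)))))))))),
   tr p783_5],
  [p777_16,
   p777_17,
   p777_18,
   p777_19,
   x7_6 (x7_5 (x7_4 (s5_6 (x3_2 (x3_1 (x3_0 (s1_2 (n6 (n4 (n0 p777_33)))))))))),
   x7_6 (x7_5 (x7_4 (s5_6 (x3_2 (x3_1 (x3_0 (s1_2 (n6 (n4 (n0 p777_35)))))))))),
   x7_6 (x7_5 (x7_4 (s5_6 (x3_2 (x3_1 (x3_0 (s1_2 (n6 (n4 (n0 p777_32)))))))))),
   x7_6 (x7_5 (x7_4 (s5_6 (x3_2 (x3_1 (x3_0 (s1_2 (n6 (n4 (n0 p777_34))))))))))],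
  [p777_24,
   p777_25,
   p777_26,
   p777_27,
   x7_6 (x7_5 (x7_4 (s5_6 (x3_2 (x3_1 (x3_0 (s1_2 (n6 (n0 p777_42))))))))),
   x7_6 (x7_5 (x7_4 (s5_6 (x3_2 (x3_1 (x3_0 (s1_2 (n6 (n0 p777_40))))))))),
   x7_6 (x7_5 (x7_4 (s5_6 (x3_2 (x3_1 (x3_0 (s1_2 (n6 (n0 p777_43))))))))),
   x7_6 (x7_5 (x7_4 (s5_6 (x3_2 (x3_1 (x3_0 (s1_2 (n6 (n0 p777_41)))))))))],
  [p777_32,
   p777_33,
   p777_34,
   p777_35,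
   x7_6 (x7_5 (x7_4 (s5_6 (x3_2 (x3_1 (x3_0 (s1_2 (n5 (n4 (n0 p777_18)))))))))),
   x7_6 (x7_5 (x7_4 (s5_6 (x3_2 (x3_1 (x3_0 (s1_2 (n5 (n4 (n0 p777_16)))))))))),
   x7_6 (x7_5 (x7_4 (s5_6 (x3_2 (x3_1 (x3_0 (s1_2 (n5 (n4 (n0 p777_19)))))))))),
   x7_6 (x7_5 (x7_4 (s5_6 (x3_2 (x3_1 (x3_0 (s1_2 (n5 (n4 (n0 p777_17))))))))))],
  [p777_40,
   p777_41,
   p777_42,
   p777_43,
   x7_6 (x7_5 (x7_4 (s5_6 (x3_2 (x3_1 (x3_0 (s1_2 (n5 (n0 p777_25))))))))),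
   x7_6 (x7_5 (x7_4 (s5_6 (x3_2 (x3_1 (x3_0 (s1_2 (n5 (n0 p777_27))))))))),
   x7_6 (x7_5 (x7_4 (s5_6 (x3_2 (x3_1 (x3_0 (s1_2 (n5 (n0 p777_24))))))))),
   x7_6 (x7_5 (x7_4 (s5_6 (x3_2 (x3_1 (x3_0 (s1_2 (n5 (n0 p777_26)))))))))],
  [tr p792_5,
   tr p793_5,
   x7_6 (x7_5 (x7_4 (x3_2 (x3_1 (x3_0 (s3_7 (s2_5 (s1_6 (s0_4 (n4 (n2 (n1 (n0 p793_5))))))))))))),
   tr p794_5,
   tr p795_5,
   tr p796_5,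
   x7_6 (x7_5 (x7_4 (x3_2 (x3_1 (x3_0 (s3_7 (s2_5 (s1_6 (s0_4 (n4 (n2 (n1 (n0 p796_5))))))))))))),
   tr p797_5],
  [p777_56,
   p777_57,
   p777_58,
   x7_6 (x7_5 (x7_4 (s5_6 (x3_2 (x3_1 (x3_0 (s1_2 (n6 (n5 (n0 p777_56)))))))))),
   p777_60,
   p777_61,
   p777_62,
   x7_6 (x7_5 (x7_4 (s5_6 (x3_2 (x3_1 (x3_0 (s1_2 (n6 (n5 (n0 p777_60))))))))))]]

theorem k777 : eqNN c777 (slO 64 (D.chG 246 5) 8) = true := by decide +kernel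

/-- The slices of the chunk 778. -/
noncomputable def c778 : List (List ℕ) := [
  [p778_0,
   p778_1,
   s5_6 (s1_2 p778_1),
   x7_6 (x7_5 (x7_4 (x3_2 (x3_1 (x3_0 (n4 p778_0)))))),
   p778_4,
   p778_5,
   s5_6 (s1_2 p778_5),
   x7_6 (x7_5 (x7_4 (x3_2 (x3_1 (x3_0 (n4 p778_4))))))],
  [p778_8,
   p778_9,
   s5_6 (s1_2 p778_9),
   p778_11,
   p778_12,
   p778_13,
   s5_6 (s1_2 p778_13),
   p778_15],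
  [p778_16,
   p778_17,
   p778_18,
   p778_19,
   x7_6 (x7_5 (x7_4 (x3_2 (x3_1 (x3_0 (n5 (n4 p778_18))))))),
   x7_6 (x7_5 (x7_4 (x3_2 (x3_1 (x3_0 (n5 (n4 p778_19))))))),
   x7_6 (x7_5 (x7_4 (x3_2 (x3_1 (x3_0 (n5 (n4 p778_16))))))),
   x7_6 (x7_5 (x7_4 (x3_2 (x3_1 (x3_0 (n5 (n4 p778_17)))))))],
  [p778_24,
   p778_25,
   p778_26,
   p778_27,
   x7_6 (x7_5 (x7_4 (x3_2 (x3_1 (x3_0 (n5 p778_25)))))),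
   x7_6 (x7_5 (x7_4 (x3_2 (x3_1 (x3_0 (n5 p778_24)))))),
   x7_6 (x7_5 (x7_4 (x3_2 (x3_1 (x3_0 (n5 p778_27)))))),
   x7_6 (x7_5 (x7_4 (x3_2 (x3_1 (x3_0 (n5 p778_26))))))],
  [s5_6 (s1_2 p778_16),
   s5_6 (s1_2 p778_18),
   s5_6 (s1_2 p778_17),
   s5_6 (s1_2 p778_19),
   x7_6 (x7_5 (x7_4 (s5_6 (x3_2 (x3_1 (x3_0 (s1_2 (n5 (n4 p778_18))))))))),
   x7_6 (x7_5 (x7_4 (s5_6 (x3_2 (x3_1 (x3_0 (s1_2 (n5 (n4 p778_16))))))))),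
   x7_6 (x7_5 (x7_4 (s5_6 (x3_2 (x3_1 (x3_0 (s1_2 (n5 (n4 p778_19))))))))),
   x7_6 (x7_5 (x7_4 (s5_6 (x3_2 (x3_1 (x3_0 (s1_2 (n5 (n4 p778_17)))))))))],
  [s5_6 (s1_2 p778_24),
   s5_6 (s1_2 p778_26),
   s5_6 (s1_2 p778_25),
   s5_6 (s1_2 p778_27),
   x7_6 (x7_5 (x7_4 (s5_6 (x3_2 (x3_1 (x3_0 (s1_2 (n5 p778_25)))))))),
   x7_6 (x7_5 (x7_4 (s5_6 (x3_2 (x3_1 (x3_0 (s1_2 (n5 p778_27)))))))),
   x7_6 (x7_5 (x7_4 (s5_6 (x3_2 (x3_1 (x3_0 (s1_2 (n5 p778_24)))))))),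
   x7_6 (x7_5 (x7_4 (s5_6 (x3_2 (x3_1 (x3_0 (s1_2 (n5 p778_26))))))))],
  [p778_48,
   p778_49,
   s5_6 (s1_2 p778_49),
   p778_51,
   p778_52,
   p778_53,
   s5_6 (s1_2 p778_53),
   p778_55],
  [p778_56,
   p778_57,
   s5_6 (s1_2 p778_57),
   x7_6 (x7_5 (x7_4 (x3_2 (x3_1 (x3_0 (n6 (n5 p778_56))))))),
   p778_60,
   p778_61,
   s5_6 (s1_2 p778_61),
   x7_6 (x7_5 (x7_4 (x3_2 (x3_1 (x3_0 (n6 (n5 p778_60)))))))]]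

theorem k778 : eqNN c778 (slO 64 (D.chG 246 8) 8) = true := by decide +kernel

/-- The slices of the chunk 779. -/
noncomputable def c779 : List (List ℕ) := [
  [p779_0,
   p779_1,
   x7_6 (x7_5 (x7_4 (x3_2 (x3_1 (x3_0 (n4 p779_1)))))),
   x7_6 (x7_5 (x7_4 (x3_2 (x3_1 (x3_0 (n4 p779_0)))))),
   p779_4,
   p779_5,
   x7_6 (x7_5 (x7_4 (x3_2 (x3_1 (x3_0 (n4 p779_5)))))),
   x7_6 (x7_5 (x7_4 (x3_2 (x3_1 (x3_0 (n4 p779_4))))))],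
  [tr p778_9,
   p779_9,
   p779_10,
   tr p780_9,
   tr p781_9,
   p779_13,
   p779_14,
   tr p783_9],
  [p779_16,
   p779_17,
   p779_18,
   p779_19,
   x7_6 (x7_5 (x7_4 (x3_2 (x3_1 (x3_0 (n5 (n4 p779_18))))))),
   x7_6 (x7_5 (x7_4 (x3_2 (x3_1 (x3_0 (n5 (n4 p779_19))))))),
   x7_6 (x7_5 (x7_4 (x3_2 (x3_1 (x3_0 (n5 (n4 p779_16))))))),
   x7_6 (x7_5 (x7_4 (x3_2 (x3_1 (x3_0 (n5 (n4 p779_17)))))))],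
  [p779_24,
   p779_25,
   p779_26,
   p779_27,
   x7_6 (x7_5 (x7_4 (x3_2 (x3_1 (x3_0 (n5 p779_25)))))),
   x7_6 (x7_5 (x7_4 (x3_2 (x3_1 (x3_0 (n5 p779_24)))))),
   x7_6 (x7_5 (x7_4 (x3_2 (x3_1 (x3_0 (n5 p779_27)))))),
   x7_6 (x7_5 (x7_4 (x3_2 (x3_1 (x3_0 (n5 p779_26))))))],
  [p779_32,
   p779_33,
   p779_34,
   p779_35,
   x7_6 (x7_5 (x7_4 (x3_2 (x3_1 (x3_0 (n6 (n4 p779_33))))))),
   x7_6 (x7_5 (x7_4 (x3_2 (x3_1 (x3_0 (n6 (n4 p779_32))))))),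
   x7_6 (x7_5 (x7_4 (x3_2 (x3_1 (x3_0 (n6 (n4 p779_35))))))),
   x7_6 (x7_5 (x7_4 (x3_2 (x3_1 (x3_0 (n6 (n4 p779_34)))))))],
  [p779_40,
   p779_41,
   p779_42,
   p779_43,
   x7_6 (x7_5 (x7_4 (x3_2 (x3_1 (x3_0 (n6 p779_42)))))),
   x7_6 (x7_5 (x7_4 (x3_2 (x3_1 (x3_0 (n6 p779_43)))))),
   x7_6 (x7_5 (x7_4 (x3_2 (x3_1 (x3_0 (n6 p779_40)))))),
   x7_6 (x7_5 (x7_4 (x3_2 (x3_1 (x3_0 (n6 p779_41))))))],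
  [tr p792_9,
   p779_49,
   p779_50,
   tr p794_9,
   tr p795_9,
   p779_53,
   p779_54,
   tr p797_9],
  [p779_56,
   p779_57,
   x7_6 (x7_5 (x7_4 (x3_2 (x3_1 (x3_0 (n6 (n5 p779_57))))))),
   x7_6 (x7_5 (x7_4 (x3_2 (x3_1 (x3_0 (n6 (n5 p779_56))))))),
   p779_60,
   p779_61,
   x7_6 (x7_5 (x7_4 (x3_2 (x3_1 (x3_0 (n6 (n5 p779_61))))))),
   x7_6 (x7_5 (x7_4 (x3_2 (x3_1 (x3_0 (n6 (n5 p779_60)))))))]]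

theorem k779 : eqNN c779 (slO 64 (D.chG 246 9) 8) = true := by decide +kernel

end Pool.Agent.Lib.MP_afdd4d_co.K10.E6
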