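import Pool.Agent.Lib.MP_afdd4d_co.K10.E6.Dat
import Pool.Agent.Lib.MP_afdd4d_co.K10.E6.Mk
import Pool.Agent.Lib.MP_afdd4d_co.K8.F6Bl5
import Pool.Agent.Lib.MP_afdd4d_co.K10.E6.P0
import Pool.Agent.Lib.MP_afdd4d_co.K10.E6.P1
import Pool.Agent.Lib.MP_afdd4d_co.K10.E6.P2
import Pool.Agent.Lib.MP_afdd4d_co.K10.E6.P3
import Pool.Agent.Lib.MP_afdd4d_co.K10.E6.P4
import Pool.Agent.Lib.MP_afdd4d_co.K10.E6.P5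
import Pool.Agent.Lib.MP_afdd4d_co.K10.E6.P6
import Pool.Agent.Lib.MP_afdd4d_co.K10.E6.P7
import Pool.Agent.Lib.MP_afdd4d_co.K10.E6.P8
import Pool.Agent.Lib.MP_afdd4d_co.K10.E6.P9
import Pool.Agent.Lib.MP_afdd4d_co.K10.E6.P10
import Pool.Agent.Lib.MP_afdd4d_co.K10.E6.P11
import Pool.Agent.Lib.MP_afdd4d_co.K10.E6.P12
import Pool.Agent.Lib.MP_afdd4d_co.K10.E6.P13
import Pool.Agent.Lib.MP_afdd4d_co.K10.E6.P14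
import Pool.Agent.Lib.MP_afdd4d_co.K10.E6.P15
import Pool.Agent.Lib.MP_afdd4d_co.K10.E6.P16
import Pool.Agent.Lib.MP_afdd4d_co.K10.E6.P17
import Pool.Agent.Lib.MP_afdd4d_co.K10.E6.P18
import Pool.Agent.Lib.MP_afdd4d_co.K10.E6.P19
import Pool.Agent.Lib.MP_afdd4d_co.K10.E6.P20
import Pool.Agent.Lib.MP_afdd4d_co.K10.E6.P21
import Pool.Agent.Lib.MP_afdd4d_co.K10.E6.P22
import Pool.Agent.Lib.MP_afdd4d_co.K10.E6.P23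
import Pool.Agent.Lib.MP_afdd4d_co.K10.E6.P24
import Pool.Agent.Lib.MP_afdd4d_co.K10.E6.P25
import Pool.Agent.Lib.MP_afdd4d_co.K10.E6.P26
import Pool.Agent.Lib.MP_afdd4d_co.K10.E6.P27
import Pool.Agent.Lib.MP_afdd4d_co.K10.E6.P28
import Pool.Agent.Lib.MP_afdd4d_co.K10.E6.P29
import Pool.Agent.Lib.MP_afdd4d_co.K10.E6.P30
import Pool.Agent.Lib.MP_afdd4d_co.K10.E6.P31
import Pool.Agent.Lib.MP_afdd4d_co.K10.E6.P32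

/-!
# Tables
-/

namespace Pool.Agent.Lib.MP_afdd4d_co.K10.E6

open K8

set_option maxRecDepth 100000
set_option exponentiation.threshold 10000000

/-- The slices of the chunk 780. -/
noncomputable def c780 : List (List ℕ) := [
  [p780_0,
   p780_1,
   s5_6 (s1_2 p780_1),
   x7_6 (x7_5 (x7_4 (x3_2 (x3_1 (x3_0 (n4 p780_0)))))),
   p780_4,
   p780_5,
   s5_6 (s1_2 p780_5),
   x7_6 (x7_5 (x7_4 (x3_2 (x3_1 (x3_0 (n4 p780_4))))))],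
  [tr p778_11,
   p780_9,
   s5_6 (s1_2 p780_9),
   p780_11,
   p780_12,
   p780_13,
   s5_6 (s1_2 p780_13),
   p780_15],
  [p780_16,
   p780_17,
   p780_18,
   p780_19,
   x7_6 (x7_5 (x7_4 (x3_2 (x3_1 (x3_0 (n5 (n4 p780_18))))))),
   x7_6 (x7_5 (x7_4 (x3_2 (x3_1 (x3_0 (n5 (n4 p780_19))))))),
   x7_6 (x7_5 (x7_4 (x3_2 (x3_1 (x3_0 (n5 (n4 p780_16))))))),
   x7_6 (x7_5 (x7_4 (x3_2 (x3_1 (x3_0 (n5 (n4 p780_17)))))))],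
  [p780_24,
   p780_25,
   p780_26,
   p780_27,
   x7_6 (x7_5 (x7_4 (x3_2 (x3_1 (x3_0 (n5 p780_25)))))),
   x7_6 (x7_5 (x7_4 (x3_2 (x3_1 (x3_0 (n5 p780_24)))))),
   x7_6 (x7_5 (x7_4 (x3_2 (x3_1 (x3_0 (n5 p780_27)))))),
   x7_6 (x7_5 (x7_4 (x3_2 (x3_1 (x3_0 (n5 p780_26))))))],
  [s5_6 (s1_2 p780_16),
   s5_6 (s1_2 p780_18),
   s5_6 (s1_2 p780_17),
   s5_6 (s1_2 p780_19),
   x7_6 (x7_5 (x7_4 (s5_6 (x3_2 (x3_1 (x3_0 (s1_2 (n5 (n4 p780_18))))))))),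
   x7_6 (x7_5 (x7_4 (s5_6 (x3_2 (x3_1 (x3_0 (s1_2 (n5 (n4 p780_16))))))))),
   x7_6 (x7_5 (x7_4 (s5_6 (x3_2 (x3_1 (x3_0 (s1_2 (n5 (n4 p780_19))))))))),
   x7_6 (x7_5 (x7_4 (s5_6 (x3_2 (x3_1 (x3_0 (s1_2 (n5 (n4 p780_17)))))))))],
  [s5_6 (s1_2 p780_24),
   s5_6 (s1_2 p780_26),
   s5_6 (s1_2 p780_25),
   s5_6 (s1_2 p780_27),
   x7_6 (x7_5 (x7_4 (s5_6 (x3_2 (x3_1 (x3_0 (s1_2 (n5 p780_25)))))))),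
   x7_6 (x7_5 (x7_4 (s5_6 (x3_2 (x3_1 (x3_0 (s1_2 (n5 p780_27)))))))),
   x7_6 (x7_5 (x7_4 (s5_6 (x3_2 (x3_1 (x3_0 (s1_2 (n5 p780_24)))))))),
   x7_6 (x7_5 (x7_4 (s5_6 (x3_2 (x3_1 (x3_0 (s1_2 (n5 p780_26))))))))],
  [p780_48,
   p780_49,
   s5_6 (s1_2 p780_49),
   p780_51,
   p780_52,
   p780_53,
   s5_6 (s1_2 p780_53),
   p780_55],
  [p780_56,
   p780_57,
   s5_6 (s1_2 p780_57),
   x7_6 (x7_5 (x7_4 (x3_2 (x3_1 (x3_0 (n6 (n5 p780_56))))))),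
   p780_60,
   p780_61,
   s5_6 (s1_2 p780_61),
   x7_6 (x7_5 (x7_4 (x3_2 (x3_1 (x3_0 (n6 (n5 p780_60)))))))]]

theorem k780 : eqNN c780 (slO 64 (D.chG 246 11) 8) = true := by decide +kernel

/-- The slices of the chunk 781. -/
noncomputable def c781 : List (List ℕ) := [
  [p781_0,
   p781_1,
   s5_6 (s1_2 p781_1),
   x7_6 (x7_5 (x7_4 (x3_2 (x3_1 (x3_0 (n4 p781_0)))))),
   p781_4,
   p781_5,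
   s5_6 (s1_2 p781_5),
   x7_6 (x7_5 (x7_4 (x3_2 (x3_1 (x3_0 (n4 p781_4))))))],
  [tr p778_12,
   p781_9,
   s5_6 (s1_2 p781_9),
   tr p780_12,
   p781_12,
   p781_13,
   s5_6 (s1_2 p781_13),
   p781_15],
  [p781_16,
   p781_17,
   p781_18,
   p781_19,
   x7_6 (x7_5 (x7_4 (x3_2 (x3_1 (x3_0 (n5 (n4 p781_18))))))),
   x7_6 (x7_5 (x7_4 (x3_2 (x3_1 (x3_0 (n5 (n4 p781_19))))))),
   x7_6 (x7_5 (x7_4 (x3_2 (x3_1 (x3_0 (n5 (n4 p781_16))))))),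
   x7_6 (x7_5 (x7_4 (x3_2 (x3_1 (x3_0 (n5 (n4 p781_17)))))))],
  [p781_24,
   p781_25,
   p781_26,
   p781_27,
   x7_6 (x7_5 (x7_4 (x3_2 (x3_1 (x3_0 (n5 p781_25)))))),
   x7_6 (x7_5 (x7_4 (x3_2 (x3_1 (x3_0 (n5 p781_24)))))),
   x7_6 (x7_5 (x7_4 (x3_2 (x3_1 (x3_0 (n5 p781_27)))))),
   x7_6 (x7_5 (x7_4 (x3_2 (x3_1 (x3_0 (n5 p781_26))))))],
  [s5_6 (s1_2 p781_16),
   s5_6 (s1_2 p781_18),
   s5_6 (s1_2 p781_17),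
   s5_6 (s1_2 p781_19),
   x7_6 (x7_5 (x7_4 (s5_6 (x3_2 (x3_1 (x3_0 (s1_2 (n5 (n4 p781_18))))))))),
   x7_6 (x7_5 (x7_4 (s5_6 (x3_2 (x3_1 (x3_0 (s1_2 (n5 (n4 p781_16))))))))),
   x7_6 (x7_5 (x7_4 (s5_6 (x3_2 (x3_1 (x3_0 (s1_2 (n5 (n4 p781_19))))))))),
   x7_6 (x7_5 (x7_4 (s5_6 (x3_2 (x3_1 (x3_0 (s1_2 (n5 (n4 p781_17)))))))))],
  [s5_6 (s1_2 p781_24),
   s5_6 (s1_2 p781_26),
   s5_6 (s1_2 p781_25),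
   s5_6 (s1_2 p781_27),
   x7_6 (x7_5 (x7_4 (s5_6 (x3_2 (x3_1 (x3_0 (s1_2 (n5 p781_25)))))))),
   x7_6 (x7_5 (x7_4 (s5_6 (x3_2 (x3_1 (x3_0 (s1_2 (n5 p781_27)))))))),
   x7_6 (x7_5 (x7_4 (s5_6 (x3_2 (x3_1 (x3_0 (s1_2 (n5 p781_24)))))))),
   x7_6 (x7_5 (x7_4 (s5_6 (x3_2 (x3_1 (x3_0 (s1_2 (n5 p781_26))))))))],
  [p781_48,
   p781_49,
   s5_6 (s1_2 p781_49),
   p781_51,
   p781_52,
   p781_53,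
   s5_6 (s1_2 p781_53),
   p781_55],
  [p781_56,
   p781_57,
   s5_6 (s1_2 p781_57),
   x7_6 (x7_5 (x7_4 (x3_2 (x3_1 (x3_0 (n6 (n5 p781_56))))))),
   p781_60,
   p781_61,
   s5_6 (s1_2 p781_61),
   x7_6 (x7_5 (x7_4 (x3_2 (x3_1 (x3_0 (n6 (n5 p781_60)))))))]]

theorem k781 : eqNN c781 (slO 64 (D.chG 246 12) 8) = true := by decide +kernel

/-- The slices of the chunk 782. -/
noncomputable def c782 : List (List ℕ) := [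
  [p782_0,
   p782_1,
   x7_6 (x7_5 (x7_4 (x3_2 (x3_1 (x3_0 (n4 p782_1)))))),
   x7_6 (x7_5 (x7_4 (x3_2 (x3_1 (x3_0 (n4 p782_0)))))),
   p782_4,
   p782_5,
   x7_6 (x7_5 (x7_4 (x3_2 (x3_1 (x3_0 (n4 p782_5)))))),
   x7_6 (x7_5 (x7_4 (x3_2 (x3_1 (x3_0 (n4 p782_4))))))],
  [tr p778_13,
   tr p779_13,
   s3_7 (s2_5 (s1_6 (s0_4 p779_14))),
   tr p780_13,
   tr p781_13,
   p782_13,
   p782_14,
   tr p783_13],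
  [p782_16,
   p782_17,
   p782_18,
   p782_19,
   x7_6 (x7_5 (x7_4 (x3_2 (x3_1 (x3_0 (n5 (n4 p782_18))))))),
   x7_6 (x7_5 (x7_4 (x3_2 (x3_1 (x3_0 (n5 (n4 p782_19))))))),
   x7_6 (x7_5 (x7_4 (x3_2 (x3_1 (x3_0 (n5 (n4 p782_16))))))),
   x7_6 (x7_5 (x7_4 (x3_2 (x3_1 (x3_0 (n5 (n4 p782_17)))))))],
  [p782_24,
   p782_25,
   p782_26,
   p782_27,
   x7_6 (x7_5 (x7_4 (x3_2 (x3_1 (x3_0 (n5 p782_25)))))),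
   x7_6 (x7_5 (x7_4 (x3_2 (x3_1 (x3_0 (n5 p782_24)))))),
   x7_6 (x7_5 (x7_4 (x3_2 (x3_1 (x3_0 (n5 p782_27)))))),
   x7_6 (x7_5 (x7_4 (x3_2 (x3_1 (x3_0 (n5 p782_26))))))],
  [p782_32,
   p782_33,
   p782_34,
   p782_35,
   x7_6 (x7_5 (x7_4 (x3_2 (x3_1 (x3_0 (n6 (n4 p782_33))))))),
   x7_6 (x7_5 (x7_4 (x3_2 (x3_1 (x3_0 (n6 (n4 p782_32))))))),
   x7_6 (x7_5 (x7_4 (x3_2 (x3_1 (x3_0 (n6 (n4 p782_35))))))),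
   x7_6 (x7_5 (x7_4 (x3_2 (x3_1 (x3_0 (n6 (n4 p782_34)))))))],
  [p782_40,
   p782_41,
   p782_42,
   p782_43,
   x7_6 (x7_5 (x7_4 (x3_2 (x3_1 (x3_0 (n6 p782_42)))))),
   x7_6 (x7_5 (x7_4 (x3_2 (x3_1 (x3_0 (n6 p782_43)))))),
   x7_6 (x7_5 (x7_4 (x3_2 (x3_1 (x3_0 (n6 p782_40)))))),
   x7_6 (x7_5 (x7_4 (x3_2 (x3_1 (x3_0 (n6 p782_41))))))],
  [tr p792_13,
   p782_49,
   p782_50,
   tr p794_13,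
   tr p795_13,
   p782_53,
   p782_54,
   tr p797_13],
  [p782_56,
   p782_57,
   x7_6 (x7_5 (x7_4 (x3_2 (x3_1 (x3_0 (n6 (n5 p782_57))))))),
   x7_6 (x7_5 (x7_4 (x3_2 (x3_1 (x3_0 (n6 (n5 p782_56))))))),
   p782_60,
   p782_61,
   x7_6 (x7_5 (x7_4 (x3_2 (x3_1 (x3_0 (n6 (n5 p782_61))))))),
   x7_6 (x7_5 (x7_4 (x3_2 (x3_1 (x3_0 (n6 (n5 p782_60)))))))]]

theorem k782 : eqNN c782 (slO 64 (D.chG 246 13) 8) = true := by decide +kernel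

/-- The slices of the chunk 783. -/
noncomputable def c783 : List (List ℕ) := [
  [p783_0,
   p783_1,
   s5_6 (s1_2 p783_1),
   x7_6 (x7_5 (x7_4 (x3_2 (x3_1 (x3_0 (n4 p783_0)))))),
   p783_4,
   p783_5,
   s5_6 (s1_2 p783_5),
   x7_6 (x7_5 (x7_4 (x3_2 (x3_1 (x3_0 (n4 p783_4))))))],
  [tr p778_15,
   p783_9,
   s5_6 (s1_2 p783_9),
   tr p780_15,
   tr p781_15,
   p783_13,
   s5_6 (s1_2 p783_13),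
   p783_15],
  [p783_16,
   p783_17,
   p783_18,
   p783_19,
   x7_6 (x7_5 (x7_4 (x3_2 (x3_1 (x3_0 (n5 (n4 p783_18))))))),
   x7_6 (x7_5 (x7_4 (x3_2 (x3_1 (x3_0 (n5 (n4 p783_19))))))),
   x7_6 (x7_5 (x7_4 (x3_2 (x3_1 (x3_0 (n5 (n4 p783_16))))))),
   x7_6 (x7_5 (x7_4 (x3_2 (x3_1 (x3_0 (n5 (n4 p783_17)))))))],
  [p783_24,
   p783_25,
   p783_26,
   p783_27,
   x7_6 (x7_5 (x7_4 (x3_2 (x3_1 (x3_0 (n5 p783_25)))))),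
   x7_6 (x7_5 (x7_4 (x3_2 (x3_1 (x3_0 (n5 p783_24)))))),
   x7_6 (x7_5 (x7_4 (x3_2 (x3_1 (x3_0 (n5 p783_27)))))),
   x7_6 (x7_5 (x7_4 (x3_2 (x3_1 (x3_0 (n5 p783_26))))))],
  [s5_6 (s1_2 p783_16),
   s5_6 (s1_2 p783_18),
   s5_6 (s1_2 p783_17),
   s5_6 (s1_2 p783_19),
   x7_6 (x7_5 (x7_4 (s5_6 (x3_2 (x3_1 (x3_0 (s1_2 (n5 (n4 p783_18))))))))),
   x7_6 (x7_5 (x7_4 (s5_6 (x3_2 (x3_1 (x3_0 (s1_2 (n5 (n4 p783_16))))))))),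
   x7_6 (x7_5 (x7_4 (s5_6 (x3_2 (x3_1 (x3_0 (s1_2 (n5 (n4 p783_19))))))))),
   x7_6 (x7_5 (x7_4 (s5_6 (x3_2 (x3_1 (x3_0 (s1_2 (n5 (n4 p783_17)))))))))],
  [s5_6 (s1_2 p783_24),
   s5_6 (s1_2 p783_26),
   s5_6 (s1_2 p783_25),
   s5_6 (s1_2 p783_27),
   x7_6 (x7_5 (x7_4 (s5_6 (x3_2 (x3_1 (x3_0 (s1_2 (n5 p783_25)))))))),
   x7_6 (x7_5 (x7_4 (s5_6 (x3_2 (x3_1 (x3_0 (s1_2 (n5 p783_27)))))))),
   x7_6 (x7_5 (x7_4 (s5_6 (x3_2 (x3_1 (x3_0 (s1_2 (n5 p783_24)))))))),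
   x7_6 (x7_5 (x7_4 (s5_6 (x3_2 (x3_1 (x3_0 (s1_2 (n5 p783_26))))))))],
  [p783_48,
   p783_49,
   s5_6 (s1_2 p783_49),
   p783_51,
   p783_52,
   p783_53,
   s5_6 (s1_2 p783_53),
   p783_55],
  [p783_56,
   p783_57,
   s5_6 (s1_2 p783_57),
   x7_6 (x7_5 (x7_4 (x3_2 (x3_1 (x3_0 (n6 (n5 p783_56))))))),
   p783_60,
   p783_61,
   s5_6 (s1_2 p783_61),
   x7_6 (x7_5 (x7_4 (x3_2 (x3_1 (x3_0 (n6 (n5 p783_60)))))))]]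

theorem k783 : eqNN c783 (slO 64 (D.chG 246 15) 8) = true := by decide +kernel

end Pool.Agent.Lib.MP_afdd4d_co.K10.E6
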