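import Pool.Agent.Lib.MP_afdd4d_co.K10.E6.Dat
import Pool.Agent.Lib.MP_afdd4d_co.K10.E6.Mk
import Pool.Agent.Lib.MP_afdd4d_co.K8.F6Bl5
import Pool.Agent.Lib.MP_afdd4d_co.K10.E6.P0
import Pool.Agent.Lib.MP_afdd4d_co.K10.E6.P1
import Pool.Agent.Lib.MP_afdd4d_co.K10.E6.P2
import Pool.Agent.Lib.MP_afdd4d_co.K10.E6.P3
import Pool.Agent.Lib.MP_afdd4d_co.K10.E6.P4
import Pool.Agent.Lib.MP_afdd4d_co.K10.E6.P5
import Pool.Agent.Lib.MP_afdd4d_co.K10.E6.P6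
import Pool.Agent.Lib.MP_afdd4d_co.K10.E6.P7
import Pool.Agent.Lib.MP_afdd4d_co.K10.E6.P8
import Pool.Agent.Lib.MP_afdd4d_co.K10.E6.P9
import Pool.Agent.Lib.MP_afdd4d_co.K10.E6.P10
import Pool.Agent.Lib.MP_afdd4d_co.K10.E6.P11
import Pool.Agent.Lib.MP_afdd4d_co.K10.E6.P12
import Pool.Agent.Lib.MP_afdd4d_co.K10.E6.P13
import Pool.Agent.Lib.MP_afdd4d_co.K10.E6.P14
import Pool.Agent.Lib.MP_afdd4d_co.K10.E6.P15
import Pool.Agent.Lib.MP_afdd4d_co.K10.E6.P16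
import Pool.Agent.Lib.MP_afdd4d_co.K10.E6.P17
import Pool.Agent.Lib.MP_afdd4d_co.K10.E6.P18
import Pool.Agent.Lib.MP_afdd4d_co.K10.E6.P19
import Pool.Agent.Lib.MP_afdd4d_co.K10.E6.P20
import Pool.Agent.Lib.MP_afdd4d_co.K10.E6.P21
import Pool.Agent.Lib.MP_afdd4d_co.K10.E6.P22
import Pool.Agent.Lib.MP_afdd4d_co.K10.E6.P23
import Pool.Agent.Lib.MP_afdd4d_co.K10.E6.P24
import Pool.Agent.Lib.MP_afdd4d_co.K10.E6.P25
import Pool.Agent.Lib.MP_afdd4d_co.K10.E6.P26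
import Pool.Agent.Lib.MP_afdd4d_co.K10.E6.P27
import Pool.Agent.Lib.MP_afdd4d_co.K10.E6.P28
import Pool.Agent.Lib.MP_afdd4d_co.K10.E6.P29
import Pool.Agent.Lib.MP_afdd4d_co.K10.E6.P30
import Pool.Agent.Lib.MP_afdd4d_co.K10.E6.P31
import Pool.Agent.Lib.MP_afdd4d_co.K10.E6.P32

/-!
# Tables
-/

namespace Pool.Agent.Lib.MP_afdd4d_co.K10.E6

open K8

set_option maxRecDepth 100000
set_option exponentiation.threshold 10000000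

/-- The slices of the chunk 784. -/
noncomputable def c784 : List (List ℕ) := [
  [tr p774_16,
   tr p775_16,
   s3_7 (s2_5 (s1_6 (s0_4 p775_32))),
   x7_6 (x7_5 (x7_4 (x3_2 (x3_1 (x3_0 (tr (n5 (n4 (n0 p774_22))))))))),
   tr p776_16,
   tr p777_16,
   s3_7 (s2_5 (s1_6 (s0_4 p777_32))),
   x7_6 (x7_5 (x7_4 (x3_2 (x3_1 (x3_0 (tr (n5 (n4 (n0 p776_22)))))))))],
  [tr p778_16,
   tr p779_16,
   s3_7 (s2_5 (s1_6 (s0_4 p779_32))),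
   tr p780_16,
   tr p781_16,
   tr p782_16,
   s3_7 (s2_5 (s1_6 (s0_4 p782_32))),
   tr p783_16],
  [p784_16,
   p784_17,
   p784_18,
   p784_19,
   p784_20,
   p784_21,
   p784_22,
   p784_23],
  [p784_24,
   p784_25,
   p784_26,
   p784_27,
   p784_28,
   p784_29,
   p784_30,
   p784_31],
  [p784_32,
   p784_33,
   p784_34,
   p784_35,
   p784_36,
   p784_37,
   p784_38,
   p784_39],
  [p784_40,
   p784_41,
   p784_42,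
   p784_43,
   p784_44,
   p784_45,
   p784_46,
   p784_47],
  [tr p792_16,
   tr p793_16,
   s3_7 (s2_5 (s1_6 (s0_4 p793_32))),
   tr p794_16,
   tr p795_16,
   tr p796_16,
   s3_7 (s2_5 (s1_6 (s0_4 p796_32))),
   tr p797_16],
  [tr p798_16,
   tr p799_16,
   s3_7 (s2_5 (s1_6 (s0_4 p799_32))),
   x7_6 (x7_5 (x7_4 (x3_2 (x3_1 (x3_0 (tr (n5 (n4 (n2 (n1 p798_22)))))))))),
   tr p800_16,
   tr p801_16,
   s3_7 (s2_5 (s1_6 (s0_4 p801_32))),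
   x7_6 (x7_5 (x7_4 (x3_2 (x3_1 (x3_0 (tr (n5 (n4 (n2 (n1 p800_22))))))))))]]

theorem k784 : eqNN c784 (slO 64 (D.chG 246 16) 8) = true := by decide +kernel

/-- The slices of the chunk 785. -/
noncomputable def c785 : List (List ℕ) := [
  [tr p774_17,
   tr p775_17,
   s3_7 (s2_5 (s1_6 (s0_4 p775_34))),
   x7_6 (x7_5 (x7_4 (x3_2 (x3_1 (x3_0 (tr (n5 (n4 (n0 p774_23))))))))),
   tr p776_17,
   tr p777_17,
   s3_7 (s2_5 (s1_6 (s0_4 p777_34))),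
   x7_6 (x7_5 (x7_4 (x3_2 (x3_1 (x3_0 (tr (n5 (n4 (n0 p776_23)))))))))],
  [tr p778_17,
   tr p779_17,
   s3_7 (s2_5 (s1_6 (s0_4 p779_34))),
   tr p780_17,
   tr p781_17,
   tr p782_17,
   s3_7 (s2_5 (s1_6 (s0_4 p782_34))),
   tr p783_17],
  [tr p784_17,
   p785_17,
   p785_18,
   p785_19,
   p785_20,
   p785_21,
   x7_6 (x7_5 (x7_4 (x3_2 (x3_1 (x3_0 (tr (n5 (n4 (n1 (n0 p784_23)))))))))),
   p785_23],
  [p785_24,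
   p785_25,
   p785_26,
   p785_27,
   p785_28,
   p785_29,
   p785_30,
   p785_31],
  [s3_7 (s2_5 (s1_6 (s0_4 p784_34))),
   p785_33,
   p785_34,
   p785_35,
   p785_36,
   x7_6 (x7_5 (x7_4 (x3_2 (x3_1 (x3_0 (s3_7 (s2_5 (s1_6 (s0_4 (n6 (n4 (n1 (n0 p784_39))))))))))))),
   p785_38,
   p785_39],
  [p785_40,
   p785_41,
   p785_42,
   p785_43,
   p785_44,
   p785_45,
   p785_46,
   p785_47],
  [tr p792_17,
   tr p793_17,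
   s3_7 (s2_5 (s1_6 (s0_4 p793_34))),
   tr p794_17,
   tr p795_17,
   tr p796_17,
   s3_7 (s2_5 (s1_6 (s0_4 p796_34))),
   tr p797_17],
  [tr p798_17,
   tr p799_17,
   s3_7 (s2_5 (s1_6 (s0_4 p799_34))),
   x7_6 (x7_5 (x7_4 (x3_2 (x3_1 (x3_0 (tr (n5 (n4 (n2 (n1 p798_23)))))))))),
   tr p800_17,
   tr p801_17,
   s3_7 (s2_5 (s1_6 (s0_4 p801_34))),
   x7_6 (x7_5 (x7_4 (x3_2 (x3_1 (x3_0 (tr (n5 (n4 (n2 (n1 p800_23))))))))))]]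

theorem k785 : eqNN c785 (slO 64 (D.chG 246 17) 8) = true := by decide +kernel

/-- The slices of the chunk 786. -/
noncomputable def c786 : List (List ℕ) := [
  [tr p774_18,
   tr p775_18,
   s3_7 (s2_5 (s1_6 (s0_4 p775_33))),
   x7_6 (x7_5 (x7_4 (x3_2 (x3_1 (x3_0 (tr (n5 (n4 (n0 p774_20))))))))),
   tr p776_18,
   tr p777_18,
   s3_7 (s2_5 (s1_6 (s0_4 p777_33))),
   x7_6 (x7_5 (x7_4 (x3_2 (x3_1 (x3_0 (tr (n5 (n4 (n0 p776_20)))))))))],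
  [tr p778_18,
   tr p779_18,
   s3_7 (s2_5 (s1_6 (s0_4 p779_33))),
   tr p780_18,
   tr p781_18,
   tr p782_18,
   s3_7 (s2_5 (s1_6 (s0_4 p782_33))),
   tr p783_18],
  [tr p784_18,
   tr p785_18,
   p786_18,
   p786_19,
   p786_20,
   p786_21,
   x7_6 (x7_5 (x7_4 (x3_2 (x3_1 (x3_0 (tr (n5 (n4 (n1 (n0 p784_20)))))))))),
   x7_6 (x7_5 (x7_4 (x3_2 (x3_1 (x3_0 (tr (n5 (n4 (n1 (n0 p785_20))))))))))],
  [p786_24,
   p786_25,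
   p786_26,
   p786_27,
   p786_28,
   p786_29,
   p786_30,
   p786_31],
  [s3_7 (s2_5 (s1_6 (s0_4 p784_33))),
   p786_33,
   s3_7 (s2_5 (s1_6 (s0_4 p785_33))),
   p786_35,
   p786_36,
   x7_6 (x7_5 (x7_4 (x3_2 (x3_1 (x3_0 (s3_7 (s2_5 (s1_6 (s0_4 (n6 (n4 (n1 (n0 p784_36))))))))))))),
   p786_38,
   x7_6 (x7_5 (x7_4 (x3_2 (x3_1 (x3_0 (s3_7 (s2_5 (s1_6 (s0_4 (n6 (n4 (n1 (n0 p785_36)))))))))))))],
  [p786_40,
   p786_41,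
   p786_42,
   p786_43,
   p786_44,
   p786_45,
   p786_46,
   p786_47],
  [tr p792_18,
   tr p793_18,
   s3_7 (s2_5 (s1_6 (s0_4 p793_33))),
   tr p794_18,
   tr p795_18,
   tr p796_18,
   s3_7 (s2_5 (s1_6 (s0_4 p796_33))),
   tr p797_18],
  [tr p798_18,
   tr p799_18,
   s3_7 (s2_5 (s1_6 (s0_4 p799_33))),
   x7_6 (x7_5 (x7_4 (x3_2 (x3_1 (x3_0 (tr (n5 (n4 (n2 (n1 p798_20)))))))))),
   tr p800_18,
   tr p801_18,
   s3_7 (s2_5 (s1_6 (s0_4 p801_33))),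
   x7_6 (x7_5 (x7_4 (x3_2 (x3_1 (x3_0 (tr (n5 (n4 (n2 (n1 p800_20))))))))))]]

theorem k786 : eqNN c786 (slO 64 (D.chG 246 18) 8) = true := by decide +kernel

/-- The slices of the chunk 787. -/
noncomputable def c787 : List (List ℕ) := [
  [tr p774_19,
   tr p775_19,
   s3_7 (s2_5 (s1_6 (s0_4 p775_35))),
   x7_6 (x7_5 (x7_4 (x3_2 (x3_1 (x3_0 (tr (n5 (n4 (n0 p774_21))))))))),
   tr p776_19,
   tr p777_19,
   s3_7 (s2_5 (s1_6 (s0_4 p777_35))),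
   x7_6 (x7_5 (x7_4 (x3_2 (x3_1 (x3_0 (tr (n5 (n4 (n0 p776_21)))))))))],
  [tr p778_19,
   tr p779_19,
   s3_7 (s2_5 (s1_6 (s0_4 p779_35))),
   tr p780_19,
   tr p781_19,
   tr p782_19,
   s3_7 (s2_5 (s1_6 (s0_4 p782_35))),
   tr p783_19],
  [tr p784_19,
   tr p785_19,
   tr p786_19,
   p787_19,
   x7_6 (x7_5 (x7_4 (x3_2 (x3_1 (x3_0 (tr (n5 (n4 (n1 (n0 p786_21)))))))))),
   p787_21,
   x7_6 (x7_5 (x7_4 (x3_2 (x3_1 (x3_0 (tr (n5 (n4 (n1 (n0 p784_21)))))))))),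
   x7_6 (x7_5 (x7_4 (x3_2 (x3_1 (x3_0 (tr (n5 (n4 (n1 (n0 p785_21))))))))))],
  [p787_24,
   p787_25,
   p787_26,
   p787_27,
   p787_28,
   p787_29,
   p787_30,
   p787_31],
  [s3_7 (s2_5 (s1_6 (s0_4 p784_35))),
   s3_7 (s2_5 (s1_6 (s0_4 p786_35))),
   s3_7 (s2_5 (s1_6 (s0_4 p785_35))),
   p787_35,
   x7_6 (x7_5 (x7_4 (x3_2 (x3_1 (x3_0 (s3_7 (s2_5 (s1_6 (s0_4 (n6 (n4 (n1 (n0 p786_38))))))))))))),
   x7_6 (x7_5 (x7_4 (x3_2 (x3_1 (x3_0 (s3_7 (s2_5 (s1_6 (s0_4 (n6 (n4 (n1 (n0 p784_38))))))))))))),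
   p787_38,
   x7_6 (x7_5 (x7_4 (x3_2 (x3_1 (x3_0 (s3_7 (s2_5 (s1_6 (s0_4 (n6 (n4 (n1 (n0 p785_38)))))))))))))],
  [p787_40,
   p787_41,
   p787_42,
   p787_43,
   p787_44,
   p787_45,
   p787_46,
   p787_47],
  [tr p792_19,
   tr p793_19,
   s3_7 (s2_5 (s1_6 (s0_4 p793_35))),
   tr p794_19,
   tr p795_19,
   tr p796_19,
   s3_7 (s2_5 (s1_6 (s0_4 p796_35))),
   tr p797_19],
  [tr p798_19,
   tr p799_19,
   s3_7 (s2_5 (s1_6 (s0_4 p799_35))),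
   x7_6 (x7_5 (x7_4 (x3_2 (x3_1 (x3_0 (tr (n5 (n4 (n2 (n1 p798_21)))))))))),
   tr p800_19,
   tr p801_19,
   s3_7 (s2_5 (s1_6 (s0_4 p801_35))),
   x7_6 (x7_5 (x7_4 (x3_2 (x3_1 (x3_0 (tr (n5 (n4 (n2 (n1 p800_21))))))))))]]

theorem k787 : eqNN c787 (slO 64 (D.chG 246 19) 8) = true := by decide +kernel

end Pool.Agent.Lib.MP_afdd4d_co.K10.E6
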