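import Pool.Agent.Lib.MP_afdd4d_co.K10.E6.Dat
import Pool.Agent.Lib.MP_afdd4d_co.K10.E6.Mk
import Pool.Agent.Lib.MP_afdd4d_co.K8.F6Bl5
import Pool.Agent.Lib.MP_afdd4d_co.K10.E6.P0
import Pool.Agent.Lib.MP_afdd4d_co.K10.E6.P1
import Pool.Agent.Lib.MP_afdd4d_co.K10.E6.P2
import Pool.Agent.Lib.MP_afdd4d_co.K10.E6.P3
import Pool.Agent.Lib.MP_afdd4d_co.K10.E6.P4
import Pool.Agent.Lib.MP_afdd4d_co.K10.E6.P5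
import Pool.Agent.Lib.MP_afdd4d_co.K10.E6.P6
import Pool.Agent.Lib.MP_afdd4d_co.K10.E6.P7
import Pool.Agent.Lib.MP_afdd4d_co.K10.E6.P8
import Pool.Agent.Lib.MP_afdd4d_co.K10.E6.P9
import Pool.Agent.Lib.MP_afdd4d_co.K10.E6.P10
import Pool.Agent.Lib.MP_afdd4d_co.K10.E6.P11
import Pool.Agent.Lib.MP_afdd4d_co.K10.E6.P12
import Pool.Agent.Lib.MP_afdd4d_co.K10.E6.P13
import Pool.Agent.Lib.MP_afdd4d_co.K10.E6.P14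
import Pool.Agent.Lib.MP_afdd4d_co.K10.E6.P15
import Pool.Agent.Lib.MP_afdd4d_co.K10.E6.P16
import Pool.Agent.Lib.MP_afdd4d_co.K10.E6.P17
import Pool.Agent.Lib.MP_afdd4d_co.K10.E6.P18
import Pool.Agent.Lib.MP_afdd4d_co.K10.E6.P19
import Pool.Agent.Lib.MP_afdd4d_co.K10.E6.P20
import Pool.Agent.Lib.MP_afdd4d_co.K10.E6.P21
import Pool.Agent.Lib.MP_afdd4d_co.K10.E6.P22
import Pool.Agent.Lib.MP_afdd4d_co.K10.E6.P23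
import Pool.Agent.Lib.MP_afdd4d_co.K10.E6.P24
import Pool.Agent.Lib.MP_afdd4d_co.K10.E6.P25
import Pool.Agent.Lib.MP_afdd4d_co.K10.E6.P26
import Pool.Agent.Lib.MP_afdd4d_co.K10.E6.P27
import Pool.Agent.Lib.MP_afdd4d_co.K10.E6.P28
import Pool.Agent.Lib.MP_afdd4d_co.K10.E6.P29
import Pool.Agent.Lib.MP_afdd4d_co.K10.E6.P30
import Pool.Agent.Lib.MP_afdd4d_co.K10.E6.P31
import Pool.Agent.Lib.MP_afdd4d_co.K10.E6.P32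

/-!
# Tables
-/

namespace Pool.Agent.Lib.MP_afdd4d_co.K10.E6

open K8

set_option maxRecDepth 100000
set_option exponentiation.threshold 10000000

/-- The slices of the chunk 788. -/
noncomputable def c788 : List (List ℕ) := [
  [tr p774_24,
   tr p775_24,
   s3_7 (s2_5 (s1_6 (s0_4 p775_40))),
   x7_6 (x7_5 (x7_4 (x3_2 (x3_1 (x3_0 (tr (n5 (n0 p774_29)))))))),
   tr p776_24,
   tr p777_24,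
   s3_7 (s2_5 (s1_6 (s0_4 p777_40))),
   x7_6 (x7_5 (x7_4 (x3_2 (x3_1 (x3_0 (tr (n5 (n0 p776_29))))))))],
  [tr p778_24,
   tr p779_24,
   s3_7 (s2_5 (s1_6 (s0_4 p779_40))),
   tr p780_24,
   tr p781_24,
   tr p782_24,
   s3_7 (s2_5 (s1_6 (s0_4 p782_40))),
   tr p783_24],
  [tr p784_24,
   tr p785_24,
   tr p786_24,
   tr p787_24,
   x7_6 (x7_5 (x7_4 (x3_2 (x3_1 (x3_0 (tr (n5 (n1 (n0 p786_29))))))))),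
   x7_6 (x7_5 (x7_4 (x3_2 (x3_1 (x3_0 (tr (n5 (n1 (n0 p787_29))))))))),
   x7_6 (x7_5 (x7_4 (x3_2 (x3_1 (x3_0 (tr (n5 (n1 (n0 p784_29))))))))),
   x7_6 (x7_5 (x7_4 (x3_2 (x3_1 (x3_0 (tr (n5 (n1 (n0 p785_29)))))))))],
  [p788_24,
   p788_25,
   p788_26,
   p788_27,
   p788_28,
   p788_29,
   p788_30,
   p788_31],
  [s3_7 (s2_5 (s1_6 (s0_4 p784_40))),
   s3_7 (s2_5 (s1_6 (s0_4 p786_40))),
   s3_7 (s2_5 (s1_6 (s0_4 p785_40))),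
   s3_7 (s2_5 (s1_6 (s0_4 p787_40))),
   x7_6 (x7_5 (x7_4 (x3_2 (x3_1 (x3_0 (s3_7 (s2_5 (s1_6 (s0_4 (n6 (n1 (n0 p786_46)))))))))))),
   x7_6 (x7_5 (x7_4 (x3_2 (x3_1 (x3_0 (s3_7 (s2_5 (s1_6 (s0_4 (n6 (n1 (n0 p784_46)))))))))))),
   x7_6 (x7_5 (x7_4 (x3_2 (x3_1 (x3_0 (s3_7 (s2_5 (s1_6 (s0_4 (n6 (n1 (n0 p787_46)))))))))))),
   x7_6 (x7_5 (x7_4 (x3_2 (x3_1 (x3_0 (s3_7 (s2_5 (s1_6 (s0_4 (n6 (n1 (n0 p785_46))))))))))))],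
  [p788_40,
   p788_41,
   p788_42,
   p788_43,
   p788_44,
   p788_45,
   p788_46,
   p788_47],
  [tr p792_24,
   tr p793_24,
   s3_7 (s2_5 (s1_6 (s0_4 p793_40))),
   tr p794_24,
   tr p795_24,
   tr p796_24,
   s3_7 (s2_5 (s1_6 (s0_4 p796_40))),
   tr p797_24],
  [tr p798_24,
   tr p799_24,
   s3_7 (s2_5 (s1_6 (s0_4 p799_40))),
   x7_6 (x7_5 (x7_4 (x3_2 (x3_1 (x3_0 (tr (n5 (n2 (n1 p798_29))))))))),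
   tr p800_24,
   tr p801_24,
   s3_7 (s2_5 (s1_6 (s0_4 p801_40))),
   x7_6 (x7_5 (x7_4 (x3_2 (x3_1 (x3_0 (tr (n5 (n2 (n1 p800_29)))))))))]]

theorem k788 : eqNN c788 (slO 64 (D.chG 246 24) 8) = true := by decide +kernel

/-- The slices of the chunk 789. -/
noncomputable def c789 : List (List ℕ) := [
  [tr p774_25,
   tr p775_25,
   s3_7 (s2_5 (s1_6 (s0_4 p775_42))),
   x7_6 (x7_5 (x7_4 (x3_2 (x3_1 (x3_0 (tr (n5 (n0 p774_28)))))))),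
   tr p776_25,
   tr p777_25,
   s3_7 (s2_5 (s1_6 (s0_4 p777_42))),
   x7_6 (x7_5 (x7_4 (x3_2 (x3_1 (x3_0 (tr (n5 (n0 p776_28))))))))],
  [tr p778_25,
   tr p779_25,
   s3_7 (s2_5 (s1_6 (s0_4 p779_42))),
   tr p780_25,
   tr p781_25,
   tr p782_25,
   s3_7 (s2_5 (s1_6 (s0_4 p782_42))),
   tr p783_25],
  [tr p784_25,
   tr p785_25,
   tr p786_25,
   tr p787_25,
   x7_6 (x7_5 (x7_4 (x3_2 (x3_1 (x3_0 (tr (n5 (n1 (n0 p786_28))))))))),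
   x7_6 (x7_5 (x7_4 (x3_2 (x3_1 (x3_0 (tr (n5 (n1 (n0 p787_28))))))))),
   x7_6 (x7_5 (x7_4 (x3_2 (x3_1 (x3_0 (tr (n5 (n1 (n0 p784_28))))))))),
   x7_6 (x7_5 (x7_4 (x3_2 (x3_1 (x3_0 (tr (n5 (n1 (n0 p785_28)))))))))],
  [tr p788_25,
   p789_25,
   p789_26,
   p789_27,
   p789_28,
   x7_6 (x7_5 (x7_4 (x3_2 (x3_1 (x3_0 (tr (n5 (n1 p788_28)))))))),
   p789_30,
   p789_31],
  [s3_7 (s2_5 (s1_6 (s0_4 p784_42))),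
   s3_7 (s2_5 (s1_6 (s0_4 p786_42))),
   s3_7 (s2_5 (s1_6 (s0_4 p785_42))),
   s3_7 (s2_5 (s1_6 (s0_4 p787_42))),
   x7_6 (x7_5 (x7_4 (x3_2 (x3_1 (x3_0 (s3_7 (s2_5 (s1_6 (s0_4 (n6 (n1 (n0 p786_44)))))))))))),
   x7_6 (x7_5 (x7_4 (x3_2 (x3_1 (x3_0 (s3_7 (s2_5 (s1_6 (s0_4 (n6 (n1 (n0 p784_44)))))))))))),
   x7_6 (x7_5 (x7_4 (x3_2 (x3_1 (x3_0 (s3_7 (s2_5 (s1_6 (s0_4 (n6 (n1 (n0 p787_44)))))))))))),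
   x7_6 (x7_5 (x7_4 (x3_2 (x3_1 (x3_0 (s3_7 (s2_5 (s1_6 (s0_4 (n6 (n1 (n0 p785_44))))))))))))],
  [s3_7 (s2_5 (s1_6 (s0_4 p788_42))),
   p789_41,
   p789_42,
   p789_43,
   p789_44,
   p789_45,
   x7_6 (x7_5 (x7_4 (x3_2 (x3_1 (x3_0 (s3_7 (s2_5 (s1_6 (s0_4 (n6 (n1 p788_44))))))))))),
   p789_47],
  [tr p792_25,
   tr p793_25,
   s3_7 (s2_5 (s1_6 (s0_4 p793_42))),
   tr p794_25,
   tr p795_25,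
   tr p796_25,
   s3_7 (s2_5 (s1_6 (s0_4 p796_42))),
   tr p797_25],
  [tr p798_25,
   tr p799_25,
   s3_7 (s2_5 (s1_6 (s0_4 p799_42))),
   x7_6 (x7_5 (x7_4 (x3_2 (x3_1 (x3_0 (tr (n5 (n2 (n1 p798_28))))))))),
   tr p800_25,
   tr p801_25,
   s3_7 (s2_5 (s1_6 (s0_4 p801_42))),
   x7_6 (x7_5 (x7_4 (x3_2 (x3_1 (x3_0 (tr (n5 (n2 (n1 p800_28)))))))))]]

theorem k789 : eqNN c789 (slO 64 (D.chG 246 25) 8) = true := by decide +kernel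

/-- The slices of the chunk 790. -/
noncomputable def c790 : List (List ℕ) := [
  [tr p774_26,
   tr p775_26,
   s3_7 (s2_5 (s1_6 (s0_4 p775_41))),
   x7_6 (x7_5 (x7_4 (x3_2 (x3_1 (x3_0 (tr (n5 (n0 p774_31)))))))),
   tr p776_26,
   tr p777_26,
   s3_7 (s2_5 (s1_6 (s0_4 p777_41))),
   x7_6 (x7_5 (x7_4 (x3_2 (x3_1 (x3_0 (tr (n5 (n0 p776_31))))))))],
  [tr p778_26,
   tr p779_26,
   s3_7 (s2_5 (s1_6 (s0_4 p779_41))),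
   tr p780_26,
   tr p781_26,
   tr p782_26,
   s3_7 (s2_5 (s1_6 (s0_4 p782_41))),
   tr p783_26],
  [tr p784_26,
   tr p785_26,
   tr p786_26,
   tr p787_26,
   x7_6 (x7_5 (x7_4 (x3_2 (x3_1 (x3_0 (tr (n5 (n1 (n0 p786_31))))))))),
   x7_6 (x7_5 (x7_4 (x3_2 (x3_1 (x3_0 (tr (n5 (n1 (n0 p787_31))))))))),
   x7_6 (x7_5 (x7_4 (x3_2 (x3_1 (x3_0 (tr (n5 (n1 (n0 p784_31))))))))),
   x7_6 (x7_5 (x7_4 (x3_2 (x3_1 (x3_0 (tr (n5 (n1 (n0 p785_31)))))))))],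
  [tr p788_26,
   tr p789_26,
   p790_26,
   p790_27,
   x7_6 (x7_5 (x7_4 (x3_2 (x3_1 (x3_0 (tr (n5 (n1 p789_31)))))))),
   x7_6 (x7_5 (x7_4 (x3_2 (x3_1 (x3_0 (tr (n5 (n1 p788_31)))))))),
   p790_30,
   p790_31],
  [s3_7 (s2_5 (s1_6 (s0_4 p784_41))),
   s3_7 (s2_5 (s1_6 (s0_4 p786_41))),
   s3_7 (s2_5 (s1_6 (s0_4 p785_41))),
   s3_7 (s2_5 (s1_6 (s0_4 p787_41))),
   x7_6 (x7_5 (x7_4 (x3_2 (x3_1 (x3_0 (s3_7 (s2_5 (s1_6 (s0_4 (n6 (n1 (n0 p786_47)))))))))))),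
   x7_6 (x7_5 (x7_4 (x3_2 (x3_1 (x3_0 (s3_7 (s2_5 (s1_6 (s0_4 (n6 (n1 (n0 p784_47)))))))))))),
   x7_6 (x7_5 (x7_4 (x3_2 (x3_1 (x3_0 (s3_7 (s2_5 (s1_6 (s0_4 (n6 (n1 (n0 p787_47)))))))))))),
   x7_6 (x7_5 (x7_4 (x3_2 (x3_1 (x3_0 (s3_7 (s2_5 (s1_6 (s0_4 (n6 (n1 (n0 p785_47))))))))))))],
  [s3_7 (s2_5 (s1_6 (s0_4 p788_41))),
   p790_41,
   s3_7 (s2_5 (s1_6 (s0_4 p789_41))),
   p790_43,
   x7_6 (x7_5 (x7_4 (x3_2 (x3_1 (x3_0 (s3_7 (s2_5 (s1_6 (s0_4 (n6 (n1 p789_47))))))))))),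
   p790_45,
   x7_6 (x7_5 (x7_4 (x3_2 (x3_1 (x3_0 (s3_7 (s2_5 (s1_6 (s0_4 (n6 (n1 p788_47))))))))))),
   p790_47],
  [tr p792_26,
   tr p793_26,
   s3_7 (s2_5 (s1_6 (s0_4 p793_41))),
   tr p794_26,
   tr p795_26,
   tr p796_26,
   s3_7 (s2_5 (s1_6 (s0_4 p796_41))),
   tr p797_26],
  [tr p798_26,
   tr p799_26,
   s3_7 (s2_5 (s1_6 (s0_4 p799_41))),
   x7_6 (x7_5 (x7_4 (x3_2 (x3_1 (x3_0 (tr (n5 (n2 (n1 p798_31))))))))),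
   tr p800_26,
   tr p801_26,
   s3_7 (s2_5 (s1_6 (s0_4 p801_41))),
   x7_6 (x7_5 (x7_4 (x3_2 (x3_1 (x3_0 (tr (n5 (n2 (n1 p800_31)))))))))]]

theorem k790 : eqNN c790 (slO 64 (D.chG 246 26) 8) = true := by decide +kernel

/-- The slices of the chunk 791. -/
noncomputable def c791 : List (List ℕ) := [
  [tr p774_27,
   tr p775_27,
   s3_7 (s2_5 (s1_6 (s0_4 p775_43))),
   x7_6 (x7_5 (x7_4 (x3_2 (x3_1 (x3_0 (tr (n5 (n0 p774_30)))))))),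
   tr p776_27,
   tr p777_27,
   s3_7 (s2_5 (s1_6 (s0_4 p777_43))),
   x7_6 (x7_5 (x7_4 (x3_2 (x3_1 (x3_0 (tr (n5 (n0 p776_30))))))))],
  [tr p778_27,
   tr p779_27,
   s3_7 (s2_5 (s1_6 (s0_4 p779_43))),
   tr p780_27,
   tr p781_27,
   tr p782_27,
   s3_7 (s2_5 (s1_6 (s0_4 p782_43))),
   tr p783_27],
  [tr p784_27,
   tr p785_27,
   tr p786_27,
   tr p787_27,
   x7_6 (x7_5 (x7_4 (x3_2 (x3_1 (x3_0 (tr (n5 (n1 (n0 p786_30))))))))),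
   x7_6 (x7_5 (x7_4 (x3_2 (x3_1 (x3_0 (tr (n5 (n1 (n0 p787_30))))))))),
   x7_6 (x7_5 (x7_4 (x3_2 (x3_1 (x3_0 (tr (n5 (n1 (n0 p784_30))))))))),
   x7_6 (x7_5 (x7_4 (x3_2 (x3_1 (x3_0 (tr (n5 (n1 (n0 p785_30)))))))))],
  [tr p788_27,
   tr p789_27,
   tr p790_27,
   p791_27,
   x7_6 (x7_5 (x7_4 (x3_2 (x3_1 (x3_0 (tr (n5 (n1 p789_30)))))))),
   x7_6 (x7_5 (x7_4 (x3_2 (x3_1 (x3_0 (tr (n5 (n1 p788_30)))))))),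
   p791_30,
   x7_6 (x7_5 (x7_4 (x3_2 (x3_1 (x3_0 (tr (n5 (n1 p790_30))))))))],
  [s3_7 (s2_5 (s1_6 (s0_4 p784_43))),
   s3_7 (s2_5 (s1_6 (s0_4 p786_43))),
   s3_7 (s2_5 (s1_6 (s0_4 p785_43))),
   s3_7 (s2_5 (s1_6 (s0_4 p787_43))),
   x7_6 (x7_5 (x7_4 (x3_2 (x3_1 (x3_0 (s3_7 (s2_5 (s1_6 (s0_4 (n6 (n1 (n0 p786_45)))))))))))),
   x7_6 (x7_5 (x7_4 (x3_2 (x3_1 (x3_0 (s3_7 (s2_5 (s1_6 (s0_4 (n6 (n1 (n0 p784_45)))))))))))),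
   x7_6 (x7_5 (x7_4 (x3_2 (x3_1 (x3_0 (s3_7 (s2_5 (s1_6 (s0_4 (n6 (n1 (n0 p787_45)))))))))))),
   x7_6 (x7_5 (x7_4 (x3_2 (x3_1 (x3_0 (s3_7 (s2_5 (s1_6 (s0_4 (n6 (n1 (n0 p785_45))))))))))))],
  [s3_7 (s2_5 (s1_6 (s0_4 p788_43))),
   s3_7 (s2_5 (s1_6 (s0_4 p790_43))),
   s3_7 (s2_5 (s1_6 (s0_4 p789_43))),
   p791_43,
   x7_6 (x7_5 (x7_4 (x3_2 (x3_1 (x3_0 (s3_7 (s2_5 (s1_6 (s0_4 (n6 (n1 p789_45))))))))))),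
   p791_45,
   x7_6 (x7_5 (x7_4 (x3_2 (x3_1 (x3_0 (s3_7 (s2_5 (s1_6 (s0_4 (n6 (n1 p788_45))))))))))),
   x7_6 (x7_5 (x7_4 (x3_2 (x3_1 (x3_0 (s3_7 (s2_5 (s1_6 (s0_4 (n6 (n1 p790_45)))))))))))],
  [tr p792_27,
   tr p793_27,
   s3_7 (s2_5 (s1_6 (s0_4 p793_43))),
   tr p794_27,
   tr p795_27,
   tr p796_27,
   s3_7 (s2_5 (s1_6 (s0_4 p796_43))),
   tr p797_27],
  [tr p798_27,
   tr p799_27,
   s3_7 (s2_5 (s1_6 (s0_4 p799_43))),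
   x7_6 (x7_5 (x7_4 (x3_2 (x3_1 (x3_0 (tr (n5 (n2 (n1 p798_30))))))))),
   tr p800_27,
   tr p801_27,
   s3_7 (s2_5 (s1_6 (s0_4 p801_43))),
   x7_6 (x7_5 (x7_4 (x3_2 (x3_1 (x3_0 (tr (n5 (n2 (n1 p800_30)))))))))]]

theorem k791 : eqNN c791 (slO 64 (D.chG 246 27) 8) = true := by decide +kernel

end Pool.Agent.Lib.MP_afdd4d_co.K10.E6
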