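import Pool.Agent.Lib.MP_afdd4d_co.K10.E6.Dat
import Pool.Agent.Lib.MP_afdd4d_co.K10.E6.Mk
import Pool.Agent.Lib.MP_afdd4d_co.K8.F6Bl5
import Pool.Agent.Lib.MP_afdd4d_co.K10.E6.P0
import Pool.Agent.Lib.MP_afdd4d_co.K10.E6.P1
import Pool.Agent.Lib.MP_afdd4d_co.K10.E6.P2
import Pool.Agent.Lib.MP_afdd4d_co.K10.E6.P3
import Pool.Agent.Lib.MP_afdd4d_co.K10.E6.P4
import Pool.Agent.Lib.MP_afdd4d_co.K10.E6.P5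
import Pool.Agent.Lib.MP_afdd4d_co.K10.E6.P6
import Pool.Agent.Lib.MP_afdd4d_co.K10.E6.P7
import Pool.Agent.Lib.MP_afdd4d_co.K10.E6.P8
import Pool.Agent.Lib.MP_afdd4d_co.K10.E6.P9
import Pool.Agent.Lib.MP_afdd4d_co.K10.E6.P10
import Pool.Agent.Lib.MP_afdd4d_co.K10.E6.P11
import Pool.Agent.Lib.MP_afdd4d_co.K10.E6.P12
import Pool.Agent.Lib.MP_afdd4d_co.K10.E6.P13
import Pool.Agent.Lib.MP_afdd4d_co.K10.E6.P14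
import Pool.Agent.Lib.MP_afdd4d_co.K10.E6.P15
import Pool.Agent.Lib.MP_afdd4d_co.K10.E6.P16
import Pool.Agent.Lib.MP_afdd4d_co.K10.E6.P17
import Pool.Agent.Lib.MP_afdd4d_co.K10.E6.P18
import Pool.Agent.Lib.MP_afdd4d_co.K10.E6.P19
import Pool.Agent.Lib.MP_afdd4d_co.K10.E6.P20
import Pool.Agent.Lib.MP_afdd4d_co.K10.E6.P21
import Pool.Agent.Lib.MP_afdd4d_co.K10.E6.P22
import Pool.Agent.Lib.MP_afdd4d_co.K10.E6.P23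
import Pool.Agent.Lib.MP_afdd4d_co.K10.E6.P24
import Pool.Agent.Lib.MP_afdd4d_co.K10.E6.P25
import Pool.Agent.Lib.MP_afdd4d_co.K10.E6.P26
import Pool.Agent.Lib.MP_afdd4d_co.K10.E6.P27
import Pool.Agent.Lib.MP_afdd4d_co.K10.E6.P28
import Pool.Agent.Lib.MP_afdd4d_co.K10.E6.P29
import Pool.Agent.Lib.MP_afdd4d_co.K10.E6.P30
import Pool.Agent.Lib.MP_afdd4d_co.K10.E6.P31
import Pool.Agent.Lib.MP_afdd4d_co.K10.E6.P32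

/-!
# Tables
-/

namespace Pool.Agent.Lib.MP_afdd4d_co.K10.E6

open K8

set_option maxRecDepth 100000
set_option exponentiation.threshold 10000000

/-- The slices of the chunk 792. -/
noncomputable def c792 : List (List ℕ) := [
  [p792_0,
   p792_1,
   s5_6 (s1_2 p792_1),
   x7_6 (x7_5 (x7_4 (x3_2 (x3_1 (x3_0 (n4 (n2 (n1 (n0 p792_0))))))))),
   p792_4,
   p792_5,
   s5_6 (s1_2 p792_5),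
   x7_6 (x7_5 (x7_4 (x3_2 (x3_1 (x3_0 (n4 (n2 (n1 (n0 p792_4)))))))))],
  [tr p778_48,
   p792_9,
   s5_6 (s1_2 p792_9),
   tr p780_48,
   tr p781_48,
   p792_13,
   s5_6 (s1_2 p792_13),
   tr p783_48],
  [p792_16,
   p792_17,
   p792_18,
   p792_19,
   x7_6 (x7_5 (x7_4 (x3_2 (x3_1 (x3_0 (n5 (n4 (n2 (n1 (n0 p792_18)))))))))),
   x7_6 (x7_5 (x7_4 (x3_2 (x3_1 (x3_0 (n5 (n4 (n2 (n1 (n0 p792_19)))))))))),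
   x7_6 (x7_5 (x7_4 (x3_2 (x3_1 (x3_0 (n5 (n4 (n2 (n1 (n0 p792_16)))))))))),
   x7_6 (x7_5 (x7_4 (x3_2 (x3_1 (x3_0 (n5 (n4 (n2 (n1 (n0 p792_17))))))))))],
  [p792_24,
   p792_25,
   p792_26,
   p792_27,
   x7_6 (x7_5 (x7_4 (x3_2 (x3_1 (x3_0 (n5 (n2 (n1 (n0 p792_25))))))))),
   x7_6 (x7_5 (x7_4 (x3_2 (x3_1 (x3_0 (n5 (n2 (n1 (n0 p792_24))))))))),
   x7_6 (x7_5 (x7_4 (x3_2 (x3_1 (x3_0 (n5 (n2 (n1 (n0 p792_27))))))))),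
   x7_6 (x7_5 (x7_4 (x3_2 (x3_1 (x3_0 (n5 (n2 (n1 (n0 p792_26)))))))))],
  [s5_6 (s1_2 p792_16),
   s5_6 (s1_2 p792_18),
   s5_6 (s1_2 p792_17),
   s5_6 (s1_2 p792_19),
   x7_6 (x7_5 (x7_4 (s5_6 (x3_2 (x3_1 (x3_0 (s1_2 (n5 (n4 (n2 (n1 (n0 p792_18)))))))))))),
   x7_6 (x7_5 (x7_4 (s5_6 (x3_2 (x3_1 (x3_0 (s1_2 (n5 (n4 (n2 (n1 (n0 p792_16)))))))))))),
   x7_6 (x7_5 (x7_4 (s5_6 (x3_2 (x3_1 (x3_0 (s1_2 (n5 (n4 (n2 (n1 (n0 p792_19)))))))))))),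
   x7_6 (x7_5 (x7_4 (s5_6 (x3_2 (x3_1 (x3_0 (s1_2 (n5 (n4 (n2 (n1 (n0 p792_17))))))))))))],
  [s5_6 (s1_2 p792_24),
   s5_6 (s1_2 p792_26),
   s5_6 (s1_2 p792_25),
   s5_6 (s1_2 p792_27),
   x7_6 (x7_5 (x7_4 (s5_6 (x3_2 (x3_1 (x3_0 (s1_2 (n5 (n2 (n1 (n0 p792_25))))))))))),
   x7_6 (x7_5 (x7_4 (s5_6 (x3_2 (x3_1 (x3_0 (s1_2 (n5 (n2 (n1 (n0 p792_27))))))))))),
   x7_6 (x7_5 (x7_4 (s5_6 (x3_2 (x3_1 (x3_0 (s1_2 (n5 (n2 (n1 (n0 p792_24))))))))))),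
   x7_6 (x7_5 (x7_4 (s5_6 (x3_2 (x3_1 (x3_0 (s1_2 (n5 (n2 (n1 (n0 p792_26)))))))))))],
  [p792_48,
   p792_49,
   s5_6 (s1_2 p792_49),
   p792_51,
   p792_52,
   p792_53,
   s5_6 (s1_2 p792_53),
   p792_55],
  [p792_56,
   p792_57,
   s5_6 (s1_2 p792_57),
   x7_6 (x7_5 (x7_4 (x3_2 (x3_1 (x3_0 (n6 (n5 (n2 (n1 (n0 p792_56)))))))))),
   p792_60,
   p792_61,
   s5_6 (s1_2 p792_61),
   x7_6 (x7_5 (x7_4 (x3_2 (x3_1 (x3_0 (n6 (n5 (n2 (n1 (n0 p792_60))))))))))]]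

theorem k792 : eqNN c792 (slO 64 (D.chG 246 48) 8) = true := by decide +kernel

/-- The slices of the chunk 793. -/
noncomputable def c793 : List (List ℕ) := [
  [p793_0,
   p793_1,
   x7_6 (x7_5 (x7_4 (x3_2 (x3_1 (x3_0 (n4 (n2 (n1 (n0 p793_1))))))))),
   x7_6 (x7_5 (x7_4 (x3_2 (x3_1 (x3_0 (n4 (n2 (n1 (n0 p793_0))))))))),
   p793_4,
   p793_5,
   x7_6 (x7_5 (x7_4 (x3_2 (x3_1 (x3_0 (n4 (n2 (n1 (n0 p793_5))))))))),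
   x7_6 (x7_5 (x7_4 (x3_2 (x3_1 (x3_0 (n4 (n2 (n1 (n0 p793_4)))))))))],
  [tr p778_49,
   tr p779_49,
   s3_7 (s2_5 (s1_6 (s0_4 p779_50))),
   tr p780_49,
   tr p781_49,
   tr p782_49,
   s3_7 (s2_5 (s1_6 (s0_4 p782_50))),
   tr p783_49],
  [p793_16,
   p793_17,
   p793_18,
   p793_19,
   x7_6 (x7_5 (x7_4 (x3_2 (x3_1 (x3_0 (n5 (n4 (n2 (n1 (n0 p793_18)))))))))),
   x7_6 (x7_5 (x7_4 (x3_2 (x3_1 (x3_0 (n5 (n4 (n2 (n1 (n0 p793_19)))))))))),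
   x7_6 (x7_5 (x7_4 (x3_2 (x3_1 (x3_0 (n5 (n4 (n2 (n1 (n0 p793_16)))))))))),
   x7_6 (x7_5 (x7_4 (x3_2 (x3_1 (x3_0 (n5 (n4 (n2 (n1 (n0 p793_17))))))))))],
  [p793_24,
   p793_25,
   p793_26,
   p793_27,
   x7_6 (x7_5 (x7_4 (x3_2 (x3_1 (x3_0 (n5 (n2 (n1 (n0 p793_25))))))))),
   x7_6 (x7_5 (x7_4 (x3_2 (x3_1 (x3_0 (n5 (n2 (n1 (n0 p793_24))))))))),
   x7_6 (x7_5 (x7_4 (x3_2 (x3_1 (x3_0 (n5 (n2 (n1 (n0 p793_27))))))))),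
   x7_6 (x7_5 (x7_4 (x3_2 (x3_1 (x3_0 (n5 (n2 (n1 (n0 p793_26)))))))))],
  [p793_32,
   p793_33,
   p793_34,
   p793_35,
   x7_6 (x7_5 (x7_4 (x3_2 (x3_1 (x3_0 (n6 (n4 (n2 (n1 (n0 p793_33)))))))))),
   x7_6 (x7_5 (x7_4 (x3_2 (x3_1 (x3_0 (n6 (n4 (n2 (n1 (n0 p793_32)))))))))),
   x7_6 (x7_5 (x7_4 (x3_2 (x3_1 (x3_0 (n6 (n4 (n2 (n1 (n0 p793_35)))))))))),
   x7_6 (x7_5 (x7_4 (x3_2 (x3_1 (x3_0 (n6 (n4 (n2 (n1 (n0 p793_34))))))))))],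
  [p793_40,
   p793_41,
   p793_42,
   p793_43,
   x7_6 (x7_5 (x7_4 (x3_2 (x3_1 (x3_0 (n6 (n2 (n1 (n0 p793_42))))))))),
   x7_6 (x7_5 (x7_4 (x3_2 (x3_1 (x3_0 (n6 (n2 (n1 (n0 p793_43))))))))),
   x7_6 (x7_5 (x7_4 (x3_2 (x3_1 (x3_0 (n6 (n2 (n1 (n0 p793_40))))))))),
   x7_6 (x7_5 (x7_4 (x3_2 (x3_1 (x3_0 (n6 (n2 (n1 (n0 p793_41)))))))))],
  [tr p792_49,
   p793_49,
   p793_50,
   tr p794_49,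
   tr p795_49,
   p793_53,
   p793_54,
   tr p797_49],
  [p793_56,
   p793_57,
   x7_6 (x7_5 (x7_4 (x3_2 (x3_1 (x3_0 (n6 (n5 (n2 (n1 (n0 p793_57)))))))))),
   x7_6 (x7_5 (x7_4 (x3_2 (x3_1 (x3_0 (n6 (n5 (n2 (n1 (n0 p793_56)))))))))),
   p793_60,
   p793_61,
   x7_6 (x7_5 (x7_4 (x3_2 (x3_1 (x3_0 (n6 (n5 (n2 (n1 (n0 p793_61)))))))))),
   x7_6 (x7_5 (x7_4 (x3_2 (x3_1 (x3_0 (n6 (n5 (n2 (n1 (n0 p793_60))))))))))]]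

theorem k793 : eqNN c793 (slO 64 (D.chG 246 49) 8) = true := by decide +kernel

/-- The slices of the chunk 794. -/
noncomputable def c794 : List (List ℕ) := [
  [p794_0,
   p794_1,
   s5_6 (s1_2 p794_1),
   x7_6 (x7_5 (x7_4 (x3_2 (x3_1 (x3_0 (n4 (n2 (n1 (n0 p794_0))))))))),
   p794_4,
   p794_5,
   s5_6 (s1_2 p794_5),
   x7_6 (x7_5 (x7_4 (x3_2 (x3_1 (x3_0 (n4 (n2 (n1 (n0 p794_4)))))))))],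
  [tr p778_51,
   p794_9,
   s5_6 (s1_2 p794_9),
   tr p780_51,
   tr p781_51,
   p794_13,
   s5_6 (s1_2 p794_13),
   tr p783_51],
  [p794_16,
   p794_17,
   p794_18,
   p794_19,
   x7_6 (x7_5 (x7_4 (x3_2 (x3_1 (x3_0 (n5 (n4 (n2 (n1 (n0 p794_18)))))))))),
   x7_6 (x7_5 (x7_4 (x3_2 (x3_1 (x3_0 (n5 (n4 (n2 (n1 (n0 p794_19)))))))))),
   x7_6 (x7_5 (x7_4 (x3_2 (x3_1 (x3_0 (n5 (n4 (n2 (n1 (n0 p794_16)))))))))),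
   x7_6 (x7_5 (x7_4 (x3_2 (x3_1 (x3_0 (n5 (n4 (n2 (n1 (n0 p794_17))))))))))],
  [p794_24,
   p794_25,
   p794_26,
   p794_27,
   x7_6 (x7_5 (x7_4 (x3_2 (x3_1 (x3_0 (n5 (n2 (n1 (n0 p794_25))))))))),
   x7_6 (x7_5 (x7_4 (x3_2 (x3_1 (x3_0 (n5 (n2 (n1 (n0 p794_24))))))))),
   x7_6 (x7_5 (x7_4 (x3_2 (x3_1 (x3_0 (n5 (n2 (n1 (n0 p794_27))))))))),
   x7_6 (x7_5 (x7_4 (x3_2 (x3_1 (x3_0 (n5 (n2 (n1 (n0 p794_26)))))))))],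
  [s5_6 (s1_2 p794_16),
   s5_6 (s1_2 p794_18),
   s5_6 (s1_2 p794_17),
   s5_6 (s1_2 p794_19),
   x7_6 (x7_5 (x7_4 (s5_6 (x3_2 (x3_1 (x3_0 (s1_2 (n5 (n4 (n2 (n1 (n0 p794_18)))))))))))),
   x7_6 (x7_5 (x7_4 (s5_6 (x3_2 (x3_1 (x3_0 (s1_2 (n5 (n4 (n2 (n1 (n0 p794_16)))))))))))),
   x7_6 (x7_5 (x7_4 (s5_6 (x3_2 (x3_1 (x3_0 (s1_2 (n5 (n4 (n2 (n1 (n0 p794_19)))))))))))),
   x7_6 (x7_5 (x7_4 (s5_6 (x3_2 (x3_1 (x3_0 (s1_2 (n5 (n4 (n2 (n1 (n0 p794_17))))))))))))],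
  [s5_6 (s1_2 p794_24),
   s5_6 (s1_2 p794_26),
   s5_6 (s1_2 p794_25),
   s5_6 (s1_2 p794_27),
   x7_6 (x7_5 (x7_4 (s5_6 (x3_2 (x3_1 (x3_0 (s1_2 (n5 (n2 (n1 (n0 p794_25))))))))))),
   x7_6 (x7_5 (x7_4 (s5_6 (x3_2 (x3_1 (x3_0 (s1_2 (n5 (n2 (n1 (n0 p794_27))))))))))),
   x7_6 (x7_5 (x7_4 (s5_6 (x3_2 (x3_1 (x3_0 (s1_2 (n5 (n2 (n1 (n0 p794_24))))))))))),
   x7_6 (x7_5 (x7_4 (s5_6 (x3_2 (x3_1 (x3_0 (s1_2 (n5 (n2 (n1 (n0 p794_26)))))))))))],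
  [tr p792_51,
   p794_49,
   s5_6 (s1_2 p794_49),
   p794_51,
   p794_52,
   p794_53,
   s5_6 (s1_2 p794_53),
   p794_55],
  [p794_56,
   p794_57,
   s5_6 (s1_2 p794_57),
   x7_6 (x7_5 (x7_4 (x3_2 (x3_1 (x3_0 (n6 (n5 (n2 (n1 (n0 p794_56)))))))))),
   p794_60,
   p794_61,
   s5_6 (s1_2 p794_61),
   x7_6 (x7_5 (x7_4 (x3_2 (x3_1 (x3_0 (n6 (n5 (n2 (n1 (n0 p794_60))))))))))]]

theorem k794 : eqNN c794 (slO 64 (D.chG 246 51) 8) = true := by decide +kernel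

/-- The slices of the chunk 795. -/
noncomputable def c795 : List (List ℕ) := [
  [p795_0,
   p795_1,
   s5_6 (s1_2 p795_1),
   x7_6 (x7_5 (x7_4 (x3_2 (x3_1 (x3_0 (n4 (n2 (n1 (n0 p795_0))))))))),
   p795_4,
   p795_5,
   s5_6 (s1_2 p795_5),
   x7_6 (x7_5 (x7_4 (x3_2 (x3_1 (x3_0 (n4 (n2 (n1 (n0 p795_4)))))))))],
  [tr p778_52,
   p795_9,
   s5_6 (s1_2 p795_9),
   tr p780_52,
   tr p781_52,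
   p795_13,
   s5_6 (s1_2 p795_13),
   tr p783_52],
  [p795_16,
   p795_17,
   p795_18,
   p795_19,
   x7_6 (x7_5 (x7_4 (x3_2 (x3_1 (x3_0 (n5 (n4 (n2 (n1 (n0 p795_18)))))))))),
   x7_6 (x7_5 (x7_4 (x3_2 (x3_1 (x3_0 (n5 (n4 (n2 (n1 (n0 p795_19)))))))))),
   x7_6 (x7_5 (x7_4 (x3_2 (x3_1 (x3_0 (n5 (n4 (n2 (n1 (n0 p795_16)))))))))),
   x7_6 (x7_5 (x7_4 (x3_2 (x3_1 (x3_0 (n5 (n4 (n2 (n1 (n0 p795_17))))))))))],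
  [p795_24,
   p795_25,
   p795_26,
   p795_27,
   x7_6 (x7_5 (x7_4 (x3_2 (x3_1 (x3_0 (n5 (n2 (n1 (n0 p795_25))))))))),
   x7_6 (x7_5 (x7_4 (x3_2 (x3_1 (x3_0 (n5 (n2 (n1 (n0 p795_24))))))))),
   x7_6 (x7_5 (x7_4 (x3_2 (x3_1 (x3_0 (n5 (n2 (n1 (n0 p795_27))))))))),
   x7_6 (x7_5 (x7_4 (x3_2 (x3_1 (x3_0 (n5 (n2 (n1 (n0 p795_26)))))))))],
  [s5_6 (s1_2 p795_16),
   s5_6 (s1_2 p795_18),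
   s5_6 (s1_2 p795_17),
   s5_6 (s1_2 p795_19),
   x7_6 (x7_5 (x7_4 (s5_6 (x3_2 (x3_1 (x3_0 (s1_2 (n5 (n4 (n2 (n1 (n0 p795_18)))))))))))),
   x7_6 (x7_5 (x7_4 (s5_6 (x3_2 (x3_1 (x3_0 (s1_2 (n5 (n4 (n2 (n1 (n0 p795_16)))))))))))),
   x7_6 (x7_5 (x7_4 (s5_6 (x3_2 (x3_1 (x3_0 (s1_2 (n5 (n4 (n2 (n1 (n0 p795_19)))))))))))),
   x7_6 (x7_5 (x7_4 (s5_6 (x3_2 (x3_1 (x3_0 (s1_2 (n5 (n4 (n2 (n1 (n0 p795_17))))))))))))],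
  [s5_6 (s1_2 p795_24),
   s5_6 (s1_2 p795_26),
   s5_6 (s1_2 p795_25),
   s5_6 (s1_2 p795_27),
   x7_6 (x7_5 (x7_4 (s5_6 (x3_2 (x3_1 (x3_0 (s1_2 (n5 (n2 (n1 (n0 p795_25))))))))))),
   x7_6 (x7_5 (x7_4 (s5_6 (x3_2 (x3_1 (x3_0 (s1_2 (n5 (n2 (n1 (n0 p795_27))))))))))),
   x7_6 (x7_5 (x7_4 (s5_6 (x3_2 (x3_1 (x3_0 (s1_2 (n5 (n2 (n1 (n0 p795_24))))))))))),
   x7_6 (x7_5 (x7_4 (s5_6 (x3_2 (x3_1 (x3_0 (s1_2 (n5 (n2 (n1 (n0 p795_26)))))))))))],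
  [tr p792_52,
   p795_49,
   s5_6 (s1_2 p795_49),
   tr p794_52,
   p795_52,
   p795_53,
   s5_6 (s1_2 p795_53),
   p795_55],
  [p795_56,
   p795_57,
   s5_6 (s1_2 p795_57),
   x7_6 (x7_5 (x7_4 (x3_2 (x3_1 (x3_0 (n6 (n5 (n2 (n1 (n0 p795_56)))))))))),
   p795_60,
   p795_61,
   s5_6 (s1_2 p795_61),
   x7_6 (x7_5 (x7_4 (x3_2 (x3_1 (x3_0 (n6 (n5 (n2 (n1 (n0 p795_60))))))))))]]

theorem k795 : eqNN c795 (slO 64 (D.chG 246 52) 8) = true := by decide +kernel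

end Pool.Agent.Lib.MP_afdd4d_co.K10.E6
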