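import Pool.Agent.Lib.MP_afdd4d_co.K10.E6.Dat
import Pool.Agent.Lib.MP_afdd4d_co.K10.E6.Mk
import Pool.Agent.Lib.MP_afdd4d_co.K8.F6Bl5
import Pool.Agent.Lib.MP_afdd4d_co.K10.E6.P0
import Pool.Agent.Lib.MP_afdd4d_co.K10.E6.P1
import Pool.Agent.Lib.MP_afdd4d_co.K10.E6.P2
import Pool.Agent.Lib.MP_afdd4d_co.K10.E6.P3
import Pool.Agent.Lib.MP_afdd4d_co.K10.E6.P4
import Pool.Agent.Lib.MP_afdd4d_co.K10.E6.P5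
import Pool.Agent.Lib.MP_afdd4d_co.K10.E6.P6
import Pool.Agent.Lib.MP_afdd4d_co.K10.E6.P7
import Pool.Agent.Lib.MP_afdd4d_co.K10.E6.P8
import Pool.Agent.Lib.MP_afdd4d_co.K10.E6.P9
import Pool.Agent.Lib.MP_afdd4d_co.K10.E6.P10
import Pool.Agent.Lib.MP_afdd4d_co.K10.E6.P11
import Pool.Agent.Lib.MP_afdd4d_co.K10.E6.P12
import Pool.Agent.Lib.MP_afdd4d_co.K10.E6.P13
import Pool.Agent.Lib.MP_afdd4d_co.K10.E6.P14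
import Pool.Agent.Lib.MP_afdd4d_co.K10.E6.P15
import Pool.Agent.Lib.MP_afdd4d_co.K10.E6.P16
import Pool.Agent.Lib.MP_afdd4d_co.K10.E6.P17
import Pool.Agent.Lib.MP_afdd4d_co.K10.E6.P18
import Pool.Agent.Lib.MP_afdd4d_co.K10.E6.P19
import Pool.Agent.Lib.MP_afdd4d_co.K10.E6.P20
import Pool.Agent.Lib.MP_afdd4d_co.K10.E6.P21
import Pool.Agent.Lib.MP_afdd4d_co.K10.E6.P22
import Pool.Agent.Lib.MP_afdd4d_co.K10.E6.P23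
import Pool.Agent.Lib.MP_afdd4d_co.K10.E6.P24
import Pool.Agent.Lib.MP_afdd4d_co.K10.E6.P25
import Pool.Agent.Lib.MP_afdd4d_co.K10.E6.P26
import Pool.Agent.Lib.MP_afdd4d_co.K10.E6.P27
import Pool.Agent.Lib.MP_afdd4d_co.K10.E6.P28
import Pool.Agent.Lib.MP_afdd4d_co.K10.E6.P29
import Pool.Agent.Lib.MP_afdd4d_co.K10.E6.P30
import Pool.Agent.Lib.MP_afdd4d_co.K10.E6.P31
import Pool.Agent.Lib.MP_afdd4d_co.K10.E6.P32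

/-!
# Tables
-/

namespace Pool.Agent.Lib.MP_afdd4d_co.K10.E6

open K8

set_option maxRecDepth 100000
set_option exponentiation.threshold 10000000

/-- The slices of the chunk 796. -/
noncomputable def c796 : List (List ℕ) := [
  [p796_0,
   p796_1,
   x7_6 (x7_5 (x7_4 (x3_2 (x3_1 (x3_0 (n4 (n2 (n1 (n0 p796_1))))))))),
   x7_6 (x7_5 (x7_4 (x3_2 (x3_1 (x3_0 (n4 (n2 (n1 (n0 p796_0))))))))),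
   p796_4,
   p796_5,
   x7_6 (x7_5 (x7_4 (x3_2 (x3_1 (x3_0 (n4 (n2 (n1 (n0 p796_5))))))))),
   x7_6 (x7_5 (x7_4 (x3_2 (x3_1 (x3_0 (n4 (n2 (n1 (n0 p796_4)))))))))],
  [tr p778_53,
   tr p779_53,
   s3_7 (s2_5 (s1_6 (s0_4 p779_54))),
   tr p780_53,
   tr p781_53,
   tr p782_53,
   s3_7 (s2_5 (s1_6 (s0_4 p782_54))),
   tr p783_53],
  [p796_16,
   p796_17,
   p796_18,
   p796_19,
   x7_6 (x7_5 (x7_4 (x3_2 (x3_1 (x3_0 (n5 (n4 (n2 (n1 (n0 p796_18)))))))))),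
   x7_6 (x7_5 (x7_4 (x3_2 (x3_1 (x3_0 (n5 (n4 (n2 (n1 (n0 p796_19)))))))))),
   x7_6 (x7_5 (x7_4 (x3_2 (x3_1 (x3_0 (n5 (n4 (n2 (n1 (n0 p796_16)))))))))),
   x7_6 (x7_5 (x7_4 (x3_2 (x3_1 (x3_0 (n5 (n4 (n2 (n1 (n0 p796_17))))))))))],
  [p796_24,
   p796_25,
   p796_26,
   p796_27,
   x7_6 (x7_5 (x7_4 (x3_2 (x3_1 (x3_0 (n5 (n2 (n1 (n0 p796_25))))))))),
   x7_6 (x7_5 (x7_4 (x3_2 (x3_1 (x3_0 (n5 (n2 (n1 (n0 p796_24))))))))),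
   x7_6 (x7_5 (x7_4 (x3_2 (x3_1 (x3_0 (n5 (n2 (n1 (n0 p796_27))))))))),
   x7_6 (x7_5 (x7_4 (x3_2 (x3_1 (x3_0 (n5 (n2 (n1 (n0 p796_26)))))))))],
  [p796_32,
   p796_33,
   p796_34,
   p796_35,
   x7_6 (x7_5 (x7_4 (x3_2 (x3_1 (x3_0 (n6 (n4 (n2 (n1 (n0 p796_33)))))))))),
   x7_6 (x7_5 (x7_4 (x3_2 (x3_1 (x3_0 (n6 (n4 (n2 (n1 (n0 p796_32)))))))))),
   x7_6 (x7_5 (x7_4 (x3_2 (x3_1 (x3_0 (n6 (n4 (n2 (n1 (n0 p796_35)))))))))),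
   x7_6 (x7_5 (x7_4 (x3_2 (x3_1 (x3_0 (n6 (n4 (n2 (n1 (n0 p796_34))))))))))],
  [p796_40,
   p796_41,
   p796_42,
   p796_43,
   x7_6 (x7_5 (x7_4 (x3_2 (x3_1 (x3_0 (n6 (n2 (n1 (n0 p796_42))))))))),
   x7_6 (x7_5 (x7_4 (x3_2 (x3_1 (x3_0 (n6 (n2 (n1 (n0 p796_43))))))))),
   x7_6 (x7_5 (x7_4 (x3_2 (x3_1 (x3_0 (n6 (n2 (n1 (n0 p796_40))))))))),
   x7_6 (x7_5 (x7_4 (x3_2 (x3_1 (x3_0 (n6 (n2 (n1 (n0 p796_41)))))))))],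
  [tr p792_53,
   tr p793_53,
   s3_7 (s2_5 (s1_6 (s0_4 p793_54))),
   tr p794_53,
   tr p795_53,
   p796_53,
   p796_54,
   tr p797_53],
  [p796_56,
   p796_57,
   x7_6 (x7_5 (x7_4 (x3_2 (x3_1 (x3_0 (n6 (n5 (n2 (n1 (n0 p796_57)))))))))),
   x7_6 (x7_5 (x7_4 (x3_2 (x3_1 (x3_0 (n6 (n5 (n2 (n1 (n0 p796_56)))))))))),
   p796_60,
   p796_61,
   x7_6 (x7_5 (x7_4 (x3_2 (x3_1 (x3_0 (n6 (n5 (n2 (n1 (n0 p796_61)))))))))),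
   x7_6 (x7_5 (x7_4 (x3_2 (x3_1 (x3_0 (n6 (n5 (n2 (n1 (n0 p796_60))))))))))]]

theorem k796 : eqNN c796 (slO 64 (D.chG 246 53) 8) = true := by decide +kernel

/-- The slices of the chunk 797. -/
noncomputable def c797 : List (List ℕ) := [
  [p797_0,
   p797_1,
   s5_6 (s1_2 p797_1),
   x7_6 (x7_5 (x7_4 (x3_2 (x3_1 (x3_0 (n4 (n2 (n1 (n0 p797_0))))))))),
   p797_4,
   p797_5,
   s5_6 (s1_2 p797_5),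
   x7_6 (x7_5 (x7_4 (x3_2 (x3_1 (x3_0 (n4 (n2 (n1 (n0 p797_4)))))))))],
  [tr p778_55,
   p797_9,
   s5_6 (s1_2 p797_9),
   tr p780_55,
   tr p781_55,
   p797_13,
   s5_6 (s1_2 p797_13),
   tr p783_55],
  [p797_16,
   p797_17,
   p797_18,
   p797_19,
   x7_6 (x7_5 (x7_4 (x3_2 (x3_1 (x3_0 (n5 (n4 (n2 (n1 (n0 p797_18)))))))))),
   x7_6 (x7_5 (x7_4 (x3_2 (x3_1 (x3_0 (n5 (n4 (n2 (n1 (n0 p797_19)))))))))),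
   x7_6 (x7_5 (x7_4 (x3_2 (x3_1 (x3_0 (n5 (n4 (n2 (n1 (n0 p797_16)))))))))),
   x7_6 (x7_5 (x7_4 (x3_2 (x3_1 (x3_0 (n5 (n4 (n2 (n1 (n0 p797_17))))))))))],
  [p797_24,
   p797_25,
   p797_26,
   p797_27,
   x7_6 (x7_5 (x7_4 (x3_2 (x3_1 (x3_0 (n5 (n2 (n1 (n0 p797_25))))))))),
   x7_6 (x7_5 (x7_4 (x3_2 (x3_1 (x3_0 (n5 (n2 (n1 (n0 p797_24))))))))),
   x7_6 (x7_5 (x7_4 (x3_2 (x3_1 (x3_0 (n5 (n2 (n1 (n0 p797_27))))))))),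
   x7_6 (x7_5 (x7_4 (x3_2 (x3_1 (x3_0 (n5 (n2 (n1 (n0 p797_26)))))))))],
  [s5_6 (s1_2 p797_16),
   s5_6 (s1_2 p797_18),
   s5_6 (s1_2 p797_17),
   s5_6 (s1_2 p797_19),
   x7_6 (x7_5 (x7_4 (s5_6 (x3_2 (x3_1 (x3_0 (s1_2 (n5 (n4 (n2 (n1 (n0 p797_18)))))))))))),
   x7_6 (x7_5 (x7_4 (s5_6 (x3_2 (x3_1 (x3_0 (s1_2 (n5 (n4 (n2 (n1 (n0 p797_16)))))))))))),
   x7_6 (x7_5 (x7_4 (s5_6 (x3_2 (x3_1 (x3_0 (s1_2 (n5 (n4 (n2 (n1 (n0 p797_19)))))))))))),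
   x7_6 (x7_5 (x7_4 (s5_6 (x3_2 (x3_1 (x3_0 (s1_2 (n5 (n4 (n2 (n1 (n0 p797_17))))))))))))],
  [s5_6 (s1_2 p797_24),
   s5_6 (s1_2 p797_26),
   s5_6 (s1_2 p797_25),
   s5_6 (s1_2 p797_27),
   x7_6 (x7_5 (x7_4 (s5_6 (x3_2 (x3_1 (x3_0 (s1_2 (n5 (n2 (n1 (n0 p797_25))))))))))),
   x7_6 (x7_5 (x7_4 (s5_6 (x3_2 (x3_1 (x3_0 (s1_2 (n5 (n2 (n1 (n0 p797_27))))))))))),
   x7_6 (x7_5 (x7_4 (s5_6 (x3_2 (x3_1 (x3_0 (s1_2 (n5 (n2 (n1 (n0 p797_24))))))))))),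
   x7_6 (x7_5 (x7_4 (s5_6 (x3_2 (x3_1 (x3_0 (s1_2 (n5 (n2 (n1 (n0 p797_26)))))))))))],
  [tr p792_55,
   p797_49,
   s5_6 (s1_2 p797_49),
   tr p794_55,
   tr p795_55,
   p797_53,
   s5_6 (s1_2 p797_53),
   p797_55],
  [p797_56,
   p797_57,
   s5_6 (s1_2 p797_57),
   x7_6 (x7_5 (x7_4 (x3_2 (x3_1 (x3_0 (n6 (n5 (n2 (n1 (n0 p797_56)))))))))),
   p797_60,
   p797_61,
   s5_6 (s1_2 p797_61),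
   x7_6 (x7_5 (x7_4 (x3_2 (x3_1 (x3_0 (n6 (n5 (n2 (n1 (n0 p797_60))))))))))]]

theorem k797 : eqNN c797 (slO 64 (D.chG 246 55) 8) = true := by decide +kernel

/-- The slices of the chunk 798. -/
noncomputable def c798 : List (List ℕ) := [
  [tr p774_56,
   tr p775_56,
   s3_7 (s2_5 (s1_6 (s0_4 p775_56))),
   x7_6 (x7_5 (x7_4 (x3_2 (x3_1 (x3_0 (tr (n6 (n5 (n0 p774_59))))))))),
   tr p776_56,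
   tr p777_56,
   s3_7 (s2_5 (s1_6 (s0_4 p777_56))),
   x7_6 (x7_5 (x7_4 (x3_2 (x3_1 (x3_0 (tr (n6 (n5 (n0 p776_59)))))))))],
  [tr p778_56,
   tr p779_56,
   s3_7 (s2_5 (s1_6 (s0_4 p779_56))),
   tr p780_56,
   tr p781_56,
   tr p782_56,
   s3_7 (s2_5 (s1_6 (s0_4 p782_56))),
   tr p783_56],
  [p798_16,
   p798_17,
   p798_18,
   p798_19,
   p798_20,
   p798_21,
   p798_22,
   p798_23],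
  [p798_24,
   p798_25,
   p798_26,
   p798_27,
   p798_28,
   p798_29,
   p798_30,
   p798_31],
  [s5_6 (s1_2 p798_16),
   s5_6 (s1_2 p798_18),
   s5_6 (s1_2 p798_17),
   s5_6 (s1_2 p798_19),
   s5_6 (s1_2 p798_20),
   s5_6 (s1_2 p798_22),
   s5_6 (s1_2 p798_21),
   s5_6 (s1_2 p798_23)],
  [s5_6 (s1_2 p798_24),
   s5_6 (s1_2 p798_26),
   s5_6 (s1_2 p798_25),
   s5_6 (s1_2 p798_27),
   s5_6 (s1_2 p798_28),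
   s5_6 (s1_2 p798_30),
   s5_6 (s1_2 p798_29),
   s5_6 (s1_2 p798_31)],
  [tr p792_56,
   tr p793_56,
   s3_7 (s2_5 (s1_6 (s0_4 p793_56))),
   tr p794_56,
   tr p795_56,
   tr p796_56,
   s3_7 (s2_5 (s1_6 (s0_4 p796_56))),
   tr p797_56],
  [p798_56,
   p798_57,
   s5_6 (s1_2 p798_57),
   p798_59,
   p798_60,
   p798_61,
   s5_6 (s1_2 p798_61),
   p798_63]]

theorem k798 : eqNN c798 (slO 64 (D.chG 246 56) 8) = true := by decide +kernel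

/-- The slices of the chunk 799. -/
noncomputable def c799 : List (List ℕ) := [
  [tr p774_57,
   tr p775_57,
   s3_7 (s2_5 (s1_6 (s0_4 p775_58))),
   x7_6 (x7_5 (x7_4 (x3_2 (x3_1 (x3_0 (s3_7 (s2_5 (s1_6 (s0_4 (n6 (n5 (n0 p774_57)))))))))))),
   tr p776_57,
   tr p777_57,
   s3_7 (s2_5 (s1_6 (s0_4 p777_58))),
   x7_6 (x7_5 (x7_4 (x3_2 (x3_1 (x3_0 (s3_7 (s2_5 (s1_6 (s0_4 (n6 (n5 (n0 p776_57))))))))))))],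
  [tr p778_57,
   tr p779_57,
   x7_6 (x7_5 (x7_4 (x3_2 (x3_1 (x3_0 (s3_7 (s2_5 (s1_6 (s0_4 (n6 (n5 p779_57))))))))))),
   tr p780_57,
   tr p781_57,
   tr p782_57,
   x7_6 (x7_5 (x7_4 (x3_2 (x3_1 (x3_0 (s3_7 (s2_5 (s1_6 (s0_4 (n6 (n5 p782_57))))))))))),
   tr p783_57],
  [p799_16,
   p799_17,
   p799_18,
   p799_19,
   x7_6 (x7_5 (x7_4 (s5_6 (x3_2 (x3_1 (x3_0 (s1_2 (n6 (n4 (n2 (n1 p799_33))))))))))),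
   x7_6 (x7_5 (x7_4 (s5_6 (x3_2 (x3_1 (x3_0 (s1_2 (n6 (n4 (n2 (n1 p799_35))))))))))),
   x7_6 (x7_5 (x7_4 (s5_6 (x3_2 (x3_1 (x3_0 (s1_2 (n6 (n4 (n2 (n1 p799_32))))))))))),
   x7_6 (x7_5 (x7_4 (s5_6 (x3_2 (x3_1 (x3_0 (s1_2 (n6 (n4 (n2 (n1 p799_34)))))))))))],
  [p799_24,
   p799_25,
   p799_26,
   p799_27,
   x7_6 (x7_5 (x7_4 (s5_6 (x3_2 (x3_1 (x3_0 (s1_2 (n6 (n2 (n1 p799_42)))))))))),
   x7_6 (x7_5 (x7_4 (s5_6 (x3_2 (x3_1 (x3_0 (s1_2 (n6 (n2 (n1 p799_40)))))))))),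
   x7_6 (x7_5 (x7_4 (s5_6 (x3_2 (x3_1 (x3_0 (s1_2 (n6 (n2 (n1 p799_43)))))))))),
   x7_6 (x7_5 (x7_4 (s5_6 (x3_2 (x3_1 (x3_0 (s1_2 (n6 (n2 (n1 p799_41))))))))))],
  [p799_32,
   p799_33,
   p799_34,
   p799_35,
   x7_6 (x7_5 (x7_4 (s5_6 (x3_2 (x3_1 (x3_0 (s1_2 (n5 (n4 (n2 (n1 p799_18))))))))))),
   x7_6 (x7_5 (x7_4 (s5_6 (x3_2 (x3_1 (x3_0 (s1_2 (n5 (n4 (n2 (n1 p799_16))))))))))),
   x7_6 (x7_5 (x7_4 (s5_6 (x3_2 (x3_1 (x3_0 (s1_2 (n5 (n4 (n2 (n1 p799_19))))))))))),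
   x7_6 (x7_5 (x7_4 (s5_6 (x3_2 (x3_1 (x3_0 (s1_2 (n5 (n4 (n2 (n1 p799_17)))))))))))],
  [p799_40,
   p799_41,
   p799_42,
   p799_43,
   x7_6 (x7_5 (x7_4 (s5_6 (x3_2 (x3_1 (x3_0 (s1_2 (n5 (n2 (n1 p799_25)))))))))),
   x7_6 (x7_5 (x7_4 (s5_6 (x3_2 (x3_1 (x3_0 (s1_2 (n5 (n2 (n1 p799_27)))))))))),
   x7_6 (x7_5 (x7_4 (s5_6 (x3_2 (x3_1 (x3_0 (s1_2 (n5 (n2 (n1 p799_24)))))))))),
   x7_6 (x7_5 (x7_4 (s5_6 (x3_2 (x3_1 (x3_0 (s1_2 (n5 (n2 (n1 p799_26))))))))))],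
  [tr p792_57,
   tr p793_57,
   x7_6 (x7_5 (x7_4 (x3_2 (x3_1 (x3_0 (s3_7 (s2_5 (s1_6 (s0_4 (n6 (n5 (n2 (n1 (n0 p793_57)))))))))))))),
   tr p794_57,
   tr p795_57,
   tr p796_57,
   x7_6 (x7_5 (x7_4 (x3_2 (x3_1 (x3_0 (s3_7 (s2_5 (s1_6 (s0_4 (n6 (n5 (n2 (n1 (n0 p796_57)))))))))))))),
   tr p797_57],
  [tr p798_57,
   p799_57,
   p799_58,
   x7_6 (x7_5 (x7_4 (x3_2 (x3_1 (x3_0 (s3_7 (s2_5 (s1_6 (s0_4 (n6 (n5 (n2 (n1 p798_57))))))))))))),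
   p799_60,
   p799_61,
   p799_62,
   x7_6 (x7_5 (x7_4 (s5_6 (x3_2 (x3_1 (x3_0 (s1_2 (n6 (n5 (n2 (n1 p799_60)))))))))))]]

theorem k799 : eqNN c799 (slO 64 (D.chG 246 57) 8) = true := by decide +kernel

end Pool.Agent.Lib.MP_afdd4d_co.K10.E6
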