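import Pool.Agent.Lib.MP_afdd4d_co.K10.E6.Dat
import Pool.Agent.Lib.MP_afdd4d_co.K10.E6.Mk
import Pool.Agent.Lib.MP_afdd4d_co.K8.F6Bl5
import Pool.Agent.Lib.MP_afdd4d_co.K10.E6.P0
import Pool.Agent.Lib.MP_afdd4d_co.K10.E6.P1
import Pool.Agent.Lib.MP_afdd4d_co.K10.E6.P2
import Pool.Agent.Lib.MP_afdd4d_co.K10.E6.P3
import Pool.Agent.Lib.MP_afdd4d_co.K10.E6.P4
import Pool.Agent.Lib.MP_afdd4d_co.K10.E6.P5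
import Pool.Agent.Lib.MP_afdd4d_co.K10.E6.P6
import Pool.Agent.Lib.MP_afdd4d_co.K10.E6.P7
import Pool.Agent.Lib.MP_afdd4d_co.K10.E6.P8
import Pool.Agent.Lib.MP_afdd4d_co.K10.E6.P9
import Pool.Agent.Lib.MP_afdd4d_co.K10.E6.P10
import Pool.Agent.Lib.MP_afdd4d_co.K10.E6.P11
import Pool.Agent.Lib.MP_afdd4d_co.K10.E6.P12
import Pool.Agent.Lib.MP_afdd4d_co.K10.E6.P13
import Pool.Agent.Lib.MP_afdd4d_co.K10.E6.P14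
import Pool.Agent.Lib.MP_afdd4d_co.K10.E6.P15
import Pool.Agent.Lib.MP_afdd4d_co.K10.E6.P16
import Pool.Agent.Lib.MP_afdd4d_co.K10.E6.P17
import Pool.Agent.Lib.MP_afdd4d_co.K10.E6.P18
import Pool.Agent.Lib.MP_afdd4d_co.K10.E6.P19
import Pool.Agent.Lib.MP_afdd4d_co.K10.E6.P20
import Pool.Agent.Lib.MP_afdd4d_co.K10.E6.P21
import Pool.Agent.Lib.MP_afdd4d_co.K10.E6.P22
import Pool.Agent.Lib.MP_afdd4d_co.K10.E6.P23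
import Pool.Agent.Lib.MP_afdd4d_co.K10.E6.P24
import Pool.Agent.Lib.MP_afdd4d_co.K10.E6.P25
import Pool.Agent.Lib.MP_afdd4d_co.K10.E6.P26
import Pool.Agent.Lib.MP_afdd4d_co.K10.E6.P27
import Pool.Agent.Lib.MP_afdd4d_co.K10.E6.P28
import Pool.Agent.Lib.MP_afdd4d_co.K10.E6.P29
import Pool.Agent.Lib.MP_afdd4d_co.K10.E6.P30
import Pool.Agent.Lib.MP_afdd4d_co.K10.E6.P31
import Pool.Agent.Lib.MP_afdd4d_co.K10.E6.P32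

/-!
# Tables
-/

namespace Pool.Agent.Lib.MP_afdd4d_co.K10.E6

open K8

set_option maxRecDepth 100000
set_option exponentiation.threshold 10000000

/-- The slices of the chunk 8. -/
noncomputable def c8 : List (List ℕ) := [
  [tr p7_1,
   p8_1,
   p8_2,
   p8_3,
   s4_5 (s0_1 p8_2),
   s4_5 (s0_1 p8_3),
   p8_6,
   tr p10_1],
  [p8_8,
   p8_9,
   x7_6 (x7_5 (x7_4 (x3_2 (x3_1 (x3_0 (n4 p8_9)))))),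
   x7_6 (x7_5 (x7_4 (x3_2 (x3_1 (x3_0 (n4 p8_8)))))),
   p8_12,
   p8_13,
   x7_6 (x7_5 (x7_4 (x3_2 (x3_1 (x3_0 (n4 p8_13)))))),
   x7_6 (x7_5 (x7_4 (x3_2 (x3_1 (x3_0 (n4 p8_12))))))],
  [s4_5 (s0_1 p8_8),
   s4_5 (s0_1 p8_9),
   s4_5 (s0_1 p8_12),
   s4_5 (s0_1 p8_13),
   x7_6 (x7_5 (x7_4 (s4_5 (x3_2 (x3_1 (x3_0 (s0_1 (n4 p8_9)))))))),
   x7_6 (x7_5 (x7_4 (s4_5 (x3_2 (x3_1 (x3_0 (s0_1 (n4 p8_8)))))))),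
   x7_6 (x7_5 (x7_4 (s4_5 (x3_2 (x3_1 (x3_0 (s0_1 (n4 p8_13)))))))),
   x7_6 (x7_5 (x7_4 (s4_5 (x3_2 (x3_1 (x3_0 (s0_1 (n4 p8_12))))))))],
  [p8_24,
   p8_25,
   p8_26,
   p8_27,
   s4_5 (s0_1 p8_26),
   s4_5 (s0_1 p8_27),
   x7_6 (x7_5 (x7_4 (x3_2 (x3_1 (x3_0 (n5 (n4 p8_24))))))),
   x7_6 (x7_5 (x7_4 (x3_2 (x3_1 (x3_0 (n5 (n4 p8_25)))))))],
  [p8_32,
   p8_33,
   s4_5 (s0_1 p8_36),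
   s4_5 (s0_1 p8_37),
   p8_36,
   p8_37,
   x7_6 (x7_5 (x7_4 (x3_2 (x3_1 (x3_0 (n6 p8_32)))))),
   x7_6 (x7_5 (x7_4 (x3_2 (x3_1 (x3_0 (n6 p8_33))))))],
  [p8_40,
   p8_41,
   p8_42,
   p8_43,
   x7_6 (x7_5 (x7_4 (x3_2 (x3_1 (x3_0 (n6 (n4 p8_41))))))),
   x7_6 (x7_5 (x7_4 (x3_2 (x3_1 (x3_0 (n6 (n4 p8_40))))))),
   x7_6 (x7_5 (x7_4 (x3_2 (x3_1 (x3_0 (n6 (n4 p8_43))))))),
   x7_6 (x7_5 (x7_4 (x3_2 (x3_1 (x3_0 (n6 (n4 p8_42)))))))],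
  [s4_5 (s0_1 p8_40),
   s4_5 (s0_1 p8_41),
   x7_6 (x7_5 (x7_4 (s4_5 (x3_2 (x3_1 (x3_0 (s0_1 (n6 (n4 p8_41))))))))),
   x7_6 (x7_5 (x7_4 (s4_5 (x3_2 (x3_1 (x3_0 (s0_1 (n6 (n4 p8_40))))))))),
   s4_5 (s0_1 p8_42),
   s4_5 (s0_1 p8_43),
   x7_6 (x7_5 (x7_4 (s4_5 (x3_2 (x3_1 (x3_0 (s0_1 (n6 (n4 p8_43))))))))),
   x7_6 (x7_5 (x7_4 (s4_5 (x3_2 (x3_1 (x3_0 (s0_1 (n6 (n4 p8_42)))))))))],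
  [tr p19_1,
   p8_57,
   p8_58,
   p8_59,
   s4_5 (s0_1 p8_58),
   s4_5 (s0_1 p8_59),
   p8_62,
   tr p22_1]]

theorem k8 : eqNN c8 (slO 64 (D.chG 1 1) 8) = true := by decide +kernel

/-- The slices of the chunk 9. -/
noncomputable def c9 : List (List ℕ) := [
  [tr p7_3,
   tr p8_3,
   s3_7 (s2_5 (s1_6 (s0_4 p8_3))),
   p9_3,
   s3_7 (s2_4 (s1_5 (s0_6 p8_6))),
   p9_5,
   s5_6 (s1_2 p9_5),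
   tr p10_3],
  [p9_8,
   p9_9,
   s5_6 (s1_2 p9_9),
   x7_6 (x7_5 (x7_4 (x3_2 (x3_1 (x3_0 (n4 p9_8)))))),
   p9_12,
   p9_13,
   s5_6 (s1_2 p9_13),
   x7_6 (x7_5 (x7_4 (x3_2 (x3_1 (x3_0 (n4 p9_12))))))],
  [p9_16,
   p9_17,
   p9_18,
   p9_19,
   x7_6 (x7_5 (x7_4 (x3_2 (x3_1 (x3_0 (n5 p9_17)))))),
   x7_6 (x7_5 (x7_4 (x3_2 (x3_1 (x3_0 (n5 p9_16)))))),
   x7_6 (x7_5 (x7_4 (x3_2 (x3_1 (x3_0 (n5 p9_19)))))),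
   x7_6 (x7_5 (x7_4 (x3_2 (x3_1 (x3_0 (n5 p9_18))))))],
  [p9_24,
   p9_25,
   p9_26,
   p9_27,
   x7_6 (x7_5 (x7_4 (x3_2 (x3_1 (x3_0 (n5 (n4 p9_26))))))),
   x7_6 (x7_5 (x7_4 (x3_2 (x3_1 (x3_0 (n5 (n4 p9_27))))))),
   x7_6 (x7_5 (x7_4 (x3_2 (x3_1 (x3_0 (n5 (n4 p9_24))))))),
   x7_6 (x7_5 (x7_4 (x3_2 (x3_1 (x3_0 (n5 (n4 p9_25)))))))],
  [s5_6 (s1_2 p9_16),
   s5_6 (s1_2 p9_18),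
   s5_6 (s1_2 p9_17),
   s5_6 (s1_2 p9_19),
   x7_6 (x7_5 (x7_4 (s5_6 (x3_2 (x3_1 (x3_0 (s1_2 (n5 p9_17)))))))),
   x7_6 (x7_5 (x7_4 (s5_6 (x3_2 (x3_1 (x3_0 (s1_2 (n5 p9_19)))))))),
   x7_6 (x7_5 (x7_4 (s5_6 (x3_2 (x3_1 (x3_0 (s1_2 (n5 p9_16)))))))),
   x7_6 (x7_5 (x7_4 (s5_6 (x3_2 (x3_1 (x3_0 (s1_2 (n5 p9_18))))))))],
  [s5_6 (s1_2 p9_24),
   s5_6 (s1_2 p9_26),
   s5_6 (s1_2 p9_25),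
   s5_6 (s1_2 p9_27),
   x7_6 (x7_5 (x7_4 (s5_6 (x3_2 (x3_1 (x3_0 (s1_2 (n5 (n4 p9_26))))))))),
   x7_6 (x7_5 (x7_4 (s5_6 (x3_2 (x3_1 (x3_0 (s1_2 (n5 (n4 p9_24))))))))),
   x7_6 (x7_5 (x7_4 (s5_6 (x3_2 (x3_1 (x3_0 (s1_2 (n5 (n4 p9_27))))))))),
   x7_6 (x7_5 (x7_4 (s5_6 (x3_2 (x3_1 (x3_0 (s1_2 (n5 (n4 p9_25)))))))))],
  [p9_48,
   s5_6 (s1_2 p9_50),
   p9_50,
   x7_6 (x7_5 (x7_4 (x3_2 (x3_1 (x3_0 (n6 (n5 p9_48))))))),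
   p9_52,
   s5_6 (s1_2 p9_54),
   p9_54,
   x7_6 (x7_5 (x7_4 (x3_2 (x3_1 (x3_0 (n6 (n5 p9_52)))))))],
  [tr p19_3,
   p9_57,
   s5_6 (s1_2 p9_57),
   p9_59,
   p9_60,
   p9_61,
   s5_6 (s1_2 p9_61),
   tr p22_3]]

theorem k9 : eqNN c9 (slO 64 (D.chG 1 3) 8) = true := by decide +kernel

/-- The slices of the chunk 10. -/
noncomputable def c10 : List (List ℕ) := [
  [tr p7_7,
   p10_1,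
   s5_6 (s1_2 p10_1),
   p10_3,
   s4_6 (s0_2 p10_1),
   s4_5 (s0_1 p10_3),
   s4_6 (s0_2 p10_3),
   p10_7],
  [p10_8,
   p10_9,
   s5_6 (s1_2 p10_9),
   x7_6 (x7_5 (x7_4 (x3_2 (x3_1 (x3_0 (n4 p10_8)))))),
   p10_12,
   p10_13,
   s5_6 (s1_2 p10_13),
   x7_6 (x7_5 (x7_4 (x3_2 (x3_1 (x3_0 (n4 p10_12))))))],
  [s4_5 (s0_1 p10_8),
   s4_5 (s0_1 p10_9),
   s4_5 (s0_1 p10_12),
   s4_5 (s0_1 p10_13),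
   s5_6 (s4_6 (s1_2 (s0_2 p10_9))),
   x7_6 (x7_5 (x7_4 (s4_5 (x3_2 (x3_1 (x3_0 (s0_1 (n4 p10_8)))))))),
   s5_6 (s4_6 (s1_2 (s0_2 p10_13))),
   x7_6 (x7_5 (x7_4 (s4_5 (x3_2 (x3_1 (x3_0 (s0_1 (n4 p10_12))))))))],
  [p10_24,
   p10_25,
   p10_26,
   p10_27,
   s4_5 (s0_1 p10_26),
   s4_5 (s0_1 p10_27),
   x7_6 (x7_5 (x7_4 (x3_2 (x3_1 (x3_0 (n5 (n4 p10_24))))))),
   x7_6 (x7_5 (x7_4 (x3_2 (x3_1 (x3_0 (n5 (n4 p10_25)))))))],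
  [s4_6 (s0_2 p10_8),
   s4_6 (s0_2 p10_12),
   s5_6 (s4_5 (s1_2 (s0_1 p10_9))),
   s5_6 (s4_5 (s1_2 (s0_1 p10_13))),
   s4_6 (s0_2 p10_9),
   s4_6 (s0_2 p10_13),
   x7_6 (x7_5 (x7_4 (s4_6 (x3_2 (x3_1 (x3_0 (s0_2 (n4 p10_8)))))))),
   x7_6 (x7_5 (x7_4 (s4_6 (x3_2 (x3_1 (x3_0 (s0_2 (n4 p10_12))))))))],
  [s5_6 (s1_2 p10_24),
   s5_6 (s1_2 p10_26),
   s5_6 (s1_2 p10_25),
   s5_6 (s1_2 p10_27),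
   s5_6 (s4_5 (s1_2 (s0_1 p10_26))),
   x7_6 (x7_5 (x7_4 (s5_6 (x3_2 (x3_1 (x3_0 (s1_2 (n5 (n4 p10_24))))))))),
   s5_6 (s4_5 (s1_2 (s0_1 p10_27))),
   x7_6 (x7_5 (x7_4 (s5_6 (x3_2 (x3_1 (x3_0 (s1_2 (n5 (n4 p10_25)))))))))],
  [s4_6 (s0_2 p10_24),
   s5_6 (s4_6 (s1_2 (s0_2 p10_26))),
   s4_6 (s0_2 p10_26),
   x7_6 (x7_5 (x7_4 (s4_6 (x3_2 (x3_1 (x3_0 (s0_2 (n5 (n4 p10_24))))))))),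
   s4_6 (s0_2 p10_25),
   s5_6 (s4_6 (s1_2 (s0_2 p10_27))),
   s4_6 (s0_2 p10_27),
   x7_6 (x7_5 (x7_4 (s4_6 (x3_2 (x3_1 (x3_0 (s0_2 (n5 (n4 p10_25)))))))))],
  [p10_56,
   p10_57,
   s5_6 (s1_2 p10_57),
   p10_59,
   s4_6 (s0_2 p10_57),
   s4_5 (s0_1 p10_59),
   s4_6 (s0_2 p10_59),
   p10_63]]

theorem k10 : eqNN c10 (slO 64 (D.chG 1 7) 8) = true := by decide +kernel

/-- The slices of the chunk 11. -/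
noncomputable def c11 : List (List ℕ) := [
  [tr p7_8,
   tr p8_8,
   s3_7 (s2_5 (s1_6 (s0_4 p8_8))),
   tr p9_8,
   s3_7 (s2_4 (s1_5 (s0_6 p8_32))),
   s3_7 (s2_6 (s1_4 (s0_5 p9_16))),
   s5_6 (s4_6 (s3_7 (s2_4 (s1_6 (s0_5 p9_16))))),
   tr p10_8],
  [p11_8,
   p11_9,
   s5_6 (s1_2 p11_9),
   p11_11,
   p11_12,
   p11_13,
   s5_6 (s1_2 p11_13),
   p11_15],
  [p11_16,
   p11_17,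
   p11_18,
   p11_19,
   p11_20,
   p11_21,
   p11_22,
   p11_23],
  [p11_24,
   p11_25,
   p11_26,
   p11_27,
   p11_28,
   p11_29,
   p11_30,
   p11_31],
  [s5_6 (s1_2 p11_16),
   s5_6 (s1_2 p11_18),
   s5_6 (s1_2 p11_17),
   s5_6 (s1_2 p11_19),
   s5_6 (s1_2 p11_20),
   s5_6 (s1_2 p11_22),
   s5_6 (s1_2 p11_21),
   s5_6 (s1_2 p11_23)],
  [s5_6 (s1_2 p11_24),
   s5_6 (s1_2 p11_26),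
   s5_6 (s1_2 p11_25),
   s5_6 (s1_2 p11_27),
   s5_6 (s1_2 p11_28),
   s5_6 (s1_2 p11_30),
   s5_6 (s1_2 p11_29),
   s5_6 (s1_2 p11_31)],
  [p11_48,
   p11_49,
   s5_6 (s1_2 p11_49),
   p11_51,
   p11_52,
   p11_53,
   s5_6 (s1_2 p11_53),
   p11_55],
  [tr p19_8,
   tr p20_8,
   s3_7 (s2_5 (s1_6 (s0_4 p20_8))),
   tr p21_8,
   s3_7 (s2_4 (s1_5 (s0_6 p20_32))),
   s3_7 (s2_6 (s1_4 (s0_5 p21_16))),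
   s5_6 (s4_6 (s3_7 (s2_4 (s1_6 (s0_5 p21_16))))),
   tr p22_8]]

theorem k11 : eqNN c11 (slO 64 (D.chG 1 8) 8) = true := by decide +kernel

end Pool.Agent.Lib.MP_afdd4d_co.K10.E6
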