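import Pool.Agent.Lib.MP_afdd4d_co.K10.E6.Dat
import Pool.Agent.Lib.MP_afdd4d_co.K10.E6.Mk
import Pool.Agent.Lib.MP_afdd4d_co.K8.F6Bl5
import Pool.Agent.Lib.MP_afdd4d_co.K10.E6.P0
import Pool.Agent.Lib.MP_afdd4d_co.K10.E6.P1
import Pool.Agent.Lib.MP_afdd4d_co.K10.E6.P2
import Pool.Agent.Lib.MP_afdd4d_co.K10.E6.P3
import Pool.Agent.Lib.MP_afdd4d_co.K10.E6.P4
import Pool.Agent.Lib.MP_afdd4d_co.K10.E6.P5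
import Pool.Agent.Lib.MP_afdd4d_co.K10.E6.P6
import Pool.Agent.Lib.MP_afdd4d_co.K10.E6.P7
import Pool.Agent.Lib.MP_afdd4d_co.K10.E6.P8
import Pool.Agent.Lib.MP_afdd4d_co.K10.E6.P9
import Pool.Agent.Lib.MP_afdd4d_co.K10.E6.P10
import Pool.Agent.Lib.MP_afdd4d_co.K10.E6.P11
import Pool.Agent.Lib.MP_afdd4d_co.K10.E6.P12
import Pool.Agent.Lib.MP_afdd4d_co.K10.E6.P13
import Pool.Agent.Lib.MP_afdd4d_co.K10.E6.P14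
import Pool.Agent.Lib.MP_afdd4d_co.K10.E6.P15
import Pool.Agent.Lib.MP_afdd4d_co.K10.E6.P16
import Pool.Agent.Lib.MP_afdd4d_co.K10.E6.P17
import Pool.Agent.Lib.MP_afdd4d_co.K10.E6.P18
import Pool.Agent.Lib.MP_afdd4d_co.K10.E6.P19
import Pool.Agent.Lib.MP_afdd4d_co.K10.E6.P20
import Pool.Agent.Lib.MP_afdd4d_co.K10.E6.P21
import Pool.Agent.Lib.MP_afdd4d_co.K10.E6.P22
import Pool.Agent.Lib.MP_afdd4d_co.K10.E6.P23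
import Pool.Agent.Lib.MP_afdd4d_co.K10.E6.P24
import Pool.Agent.Lib.MP_afdd4d_co.K10.E6.P25
import Pool.Agent.Lib.MP_afdd4d_co.K10.E6.P26
import Pool.Agent.Lib.MP_afdd4d_co.K10.E6.P27
import Pool.Agent.Lib.MP_afdd4d_co.K10.E6.P28
import Pool.Agent.Lib.MP_afdd4d_co.K10.E6.P29
import Pool.Agent.Lib.MP_afdd4d_co.K10.E6.P30
import Pool.Agent.Lib.MP_afdd4d_co.K10.E6.P31
import Pool.Agent.Lib.MP_afdd4d_co.K10.E6.P32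

/-!
# Tables
-/

namespace Pool.Agent.Lib.MP_afdd4d_co.K10.E6

open K8

set_option maxRecDepth 100000
set_option exponentiation.threshold 10000000

/-- The slices of the chunk 80. -/
noncomputable def c80 : List (List ℕ) := [
  [tr p71_31,
   tr p72_31,
   s3_7 (s2_5 (s1_6 (s0_4 p72_47))),
   p80_3,
   s5_6 (s4_5 (s3_7 (s2_5 (s1_4 (s0_6 p72_47))))),
   s4_5 (s0_1 p80_3),
   p80_6,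
   tr p74_31],
  [s6_7 (s5_7 (s3_5 (s2_7 (s1_6 (s0_4 p72_47))))),
   s6_7 (s2_3 p80_3),
   p80_10,
   tr p75_31,
   tr p76_31,
   p80_13,
   p80_14,
   p80_15],
  [s5_6 (s4_7 (s3_5 (s2_7 (s1_4 (s0_6 p72_47))))),
   s6_7 (s4_5 (s2_3 (s0_1 p80_3))),
   s3_6 (s2_7 (s1_5 (s0_4 p76_31))),
   s6_7 (s2_3 p80_13),
   s4_5 (s0_1 p80_10),
   s3_7 (s2_6 (s1_4 (s0_5 p75_31))),
   s4_5 (s0_1 p80_14),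
   s4_5 (s0_1 p80_15)],
  [s6_7 (s2_3 p80_6),
   s3_6 (s2_7 (s1_5 (s0_4 p74_31))),
   s6_7 (s2_3 p80_14),
   s6_7 (s2_3 p80_15),
   s6_7 (s4_5 (s2_3 (s0_1 p80_14))),
   s6_7 (s4_5 (s2_3 (s0_1 p80_15))),
   tr p79_31,
   p80_31],
  [s3_5 (s2_4 (s1_7 (s0_6 p72_62))),
   s3_7 (s2_4 (s1_5 (s0_6 p76_55))),
   s6_7 (s4_5 (s2_3 (s0_1 p80_48))),
   s4_5 (s0_1 p80_37),
   s6_7 (s2_3 p80_48),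
   p80_37,
   s3_5 (s2_4 (s1_7 (s0_6 p75_62))),
   p80_39],
  [s4_5 (s0_1 p80_48),
   s6_7 (s4_5 (s2_3 (s0_1 p80_37))),
   s3_5 (s2_4 (s1_7 (s0_6 p74_62))),
   p80_43,
   p80_44,
   s3_7 (s2_5 (s1_6 (s0_4 p79_47))),
   s6_7 (s4_5 (s2_3 (s0_1 p80_60))),
   p80_47],
  [p80_48,
   s6_7 (s2_3 p80_37),
   s6_7 (s2_3 p80_44),
   s6_7 (s5_7 (s3_5 (s2_7 (s1_6 (s0_4 p79_47))))),
   s3_4 (s2_5 (s1_6 (s0_7 p74_62))),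
   s4_5 (s0_1 p80_43),
   s6_7 (s2_3 p80_60),
   s4_5 (s0_1 p80_47)],
  [s3_4 (s2_5 (s1_6 (s0_7 p75_62))),
   s6_7 (s2_3 p80_39),
   s4_5 (s0_1 p80_60),
   s6_7 (s2_3 p80_47),
   p80_60,
   s6_7 (s4_5 (s2_3 (s0_1 p80_47))),
   p80_62,
   tr p81_31]]

theorem k80 : eqNN c80 (slO 64 (D.chG 15 31) 8) = true := by decide +kernel

/-- The slices of the chunk 81. -/
noncomputable def c81 : List (List ℕ) := [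
  [tr p71_63,
   p81_1,
   s5_6 (s1_2 p81_1),
   p81_3,
   s4_6 (s0_2 p81_1),
   s4_5 (s0_1 p81_3),
   s4_6 (s0_2 p81_3),
   p81_7],
  [s5_7 (s1_3 p81_1),
   s6_7 (s2_3 p81_3),
   s5_7 (s1_3 p81_3),
   p81_11,
   p81_12,
   p81_13,
   s5_6 (s1_2 p81_13),
   p81_15],
  [s4_7 (s0_3 p81_1),
   s6_7 (s4_5 (s2_3 (s0_1 p81_3))),
   s6_7 (s2_3 p81_12),
   s6_7 (s2_3 p81_13),
   s5_7 (s4_7 (s1_3 (s0_3 p81_3))),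
   s4_5 (s0_1 p81_11),
   s5_6 (s4_6 (s1_2 (s0_2 p81_13))),
   s4_5 (s0_1 p81_15)],
  [s6_7 (s4_6 (s2_3 (s0_2 p81_3))),
   s6_7 (s2_3 p81_7),
   s6_7 (s5_6 (s2_3 (s1_2 p81_13))),
   s6_7 (s2_3 p81_15),
   s4_7 (s0_3 p81_13),
   s6_7 (s4_5 (s2_3 (s0_1 p81_15))),
   p81_30,
   p81_31],
  [s5_7 (s4_6 (s1_3 (s0_2 p81_1))),
   s5_7 (s1_3 p81_12),
   s5_7 (s4_6 (s1_3 (s0_2 p81_3))),
   s6_7 (s5_7 (s2_3 (s1_3 p81_13))),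
   s6_7 (s4_7 (s2_3 (s0_3 p81_3))),
   s4_6 (s0_2 p81_13),
   s4_6 (s0_2 p81_11),
   s4_6 (s0_2 p81_15)],
  [s5_7 (s4_5 (s1_3 (s0_1 p81_3))),
   s5_7 (s1_3 p81_13),
   s5_7 (s1_3 p81_7),
   s5_7 (s1_3 p81_15),
   s5_7 (s4_6 (s1_3 (s0_2 p81_13))),
   s5_6 (s1_2 p81_30),
   s5_7 (s4_6 (s1_3 (s0_2 p81_15))),
   s5_6 (s1_2 p81_31)],
  [s4_7 (s0_3 p81_3),
   s5_7 (s4_7 (s1_3 (s0_3 p81_13))),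
   s6_7 (s5_6 (s4_7 (s2_3 (s1_2 (s0_3 p81_13))))),
   s5_7 (s1_3 p81_30),
   s4_7 (s0_3 p81_7),
   s5_7 (s4_7 (s1_3 (s0_3 p81_15))),
   s6_7 (s4_7 (s2_3 (s0_3 p81_15))),
   s4_6 (s0_2 p81_31)],
  [s4_7 (s0_3 p81_11),
   s6_7 (s4_6 (s2_3 (s0_2 p81_15))),
   s5_7 (s4_5 (s1_3 (s0_1 p81_15))),
   s5_7 (s1_3 p81_31),
   s4_7 (s0_3 p81_15),
   s4_7 (s0_3 p81_31),
   s5_7 (s4_6 (s1_3 (s0_2 p81_31))),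
   p81_63]]

theorem k81 : eqNN c81 (slO 64 (D.chG 15 63) 8) = true := by decide +kernel

/-- The slices of the chunk 82. -/
noncomputable def c82 : List (List ℕ) := [
  [p82_0,
   p82_1,
   p82_2,
   p82_3,
   s4_5 (s0_1 p82_2),
   s4_5 (s0_1 p82_3),
   p82_6,
   p82_7],
  [s6_7 (s2_3 p82_2),
   s6_7 (s2_3 p82_3),
   x6_7 (x6_5 (x6_4 (x2_3 (x2_1 (x2_0 (n4 p82_3)))))),
   x6_7 (x6_5 (x6_4 (x2_3 (x2_1 (x2_0 (n4 p82_2)))))),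
   x7_6 (x7_5 (x7_4 (x3_2 (x3_1 (x3_0 (n4 p82_15)))))),
   x7_6 (x7_5 (x7_4 (x3_2 (x3_1 (x3_0 (n4 p82_14)))))),
   p82_14,
   p82_15],
  [s6_7 (s4_5 (s2_3 (s0_1 p82_2))),
   s6_7 (s4_5 (s2_3 (s0_1 p82_3))),
   x7_6 (x7_5 (x7_4 (s4_5 (x3_2 (x3_1 (x3_0 (s0_1 (n4 p82_15)))))))),
   x7_6 (x7_5 (x7_4 (s4_5 (x3_2 (x3_1 (x3_0 (s0_1 (n4 p82_14)))))))),
   x6_7 (x6_5 (x6_4 (s4_5 (x2_3 (x2_1 (x2_0 (s0_1 (n4 p82_3)))))))),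
   x6_7 (x6_5 (x6_4 (s4_5 (x2_3 (x2_1 (x2_0 (s0_1 (n4 p82_2)))))))),
   s4_5 (s0_1 p82_14),
   s4_5 (s0_1 p82_15)],
  [s6_7 (s2_3 p82_6),
   s6_7 (s2_3 p82_7),
   s6_7 (s2_3 p82_14),
   s6_7 (s2_3 p82_15),
   s6_7 (s4_5 (s2_3 (s0_1 p82_14))),
   s6_7 (s4_5 (s2_3 (s0_1 p82_15))),
   x6_7 (x6_5 (x6_4 (x2_3 (x2_1 (x2_0 (n5 (n4 p82_6))))))),
   x6_7 (x6_5 (x6_4 (x2_3 (x2_1 (x2_0 (n5 (n4 p82_7)))))))],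
  [p82_32,
   p82_33,
   p82_34,
   p82_35,
   s4_5 (s0_1 p82_34),
   s4_5 (s0_1 p82_35),
   x7_6 (x7_5 (x7_4 (x3_2 (x3_1 (x3_0 (n6 p82_32)))))),
   x7_6 (x7_5 (x7_4 (x3_2 (x3_1 (x3_0 (n6 p82_33))))))],
  [s6_7 (s2_3 p82_34),
   s6_7 (s2_3 p82_35),
   x7_6 (x7_5 (x7_4 (x3_2 (x3_1 (x3_0 (n6 (n4 p82_47))))))),
   x7_6 (x7_5 (x7_4 (x3_2 (x3_1 (x3_0 (n6 (n4 p82_46))))))),
   x6_7 (x6_5 (x6_4 (s4_5 (x2_3 (x2_1 (x2_0 (s0_1 (n7 (n4 p82_35))))))))),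
   x6_7 (x6_5 (x6_4 (s4_5 (x2_3 (x2_1 (x2_0 (s0_1 (n7 (n4 p82_34))))))))),
   p82_46,
   p82_47],
  [s6_7 (s4_5 (s2_3 (s0_1 p82_34))),
   s6_7 (s4_5 (s2_3 (s0_1 p82_35))),
   x6_7 (x6_5 (x6_4 (x2_3 (x2_1 (x2_0 (n7 (n4 p82_35))))))),
   x6_7 (x6_5 (x6_4 (x2_3 (x2_1 (x2_0 (n7 (n4 p82_34))))))),
   x7_6 (x7_5 (x7_4 (s4_5 (x3_2 (x3_1 (x3_0 (s0_1 (n6 (n4 p82_47))))))))),
   x7_6 (x7_5 (x7_4 (s4_5 (x3_2 (x3_1 (x3_0 (s0_1 (n6 (n4 p82_46))))))))),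
   s4_5 (s0_1 p82_46),
   s4_5 (s0_1 p82_47)],
  [x6_7 (x6_5 (x6_4 (x2_3 (x2_1 (x2_0 (n7 p82_32)))))),
   x6_7 (x6_5 (x6_4 (x2_3 (x2_1 (x2_0 (n7 p82_33)))))),
   s6_7 (s2_3 p82_46),
   s6_7 (s2_3 p82_47),
   s6_7 (s4_5 (s2_3 (s0_1 p82_46))),
   s6_7 (s4_5 (s2_3 (s0_1 p82_47))),
   p82_62,
   p82_63]]

theorem k82 : eqNN c82 (slO 64 (D.chG 16 0) 8) = true := by decide +kernel

/-- The slices of the chunk 83. -/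
noncomputable def c83 : List (List ℕ) := [
  [tr p82_1,
   p83_1,
   p83_2,
   p83_3,
   s4_5 (s0_1 p83_2),
   s4_5 (s0_1 p83_3),
   p83_6,
   p83_7],
  [s6_7 (s2_3 p83_2),
   s6_7 (s2_3 p83_3),
   x6_7 (x6_5 (x6_4 (x2_3 (x2_1 (x2_0 (n4 p83_3)))))),
   x6_7 (x6_5 (x6_4 (x2_3 (x2_1 (x2_0 (n4 p83_2)))))),
   x7_6 (x7_5 (x7_4 (x3_2 (x3_1 (x3_0 (n4 p83_15)))))),
   x7_6 (x7_5 (x7_4 (x3_2 (x3_1 (x3_0 (n4 p83_14)))))),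
   p83_14,
   p83_15],
  [s6_7 (s4_5 (s2_3 (s0_1 p83_2))),
   s6_7 (s4_5 (s2_3 (s0_1 p83_3))),
   x7_6 (x7_5 (x7_4 (s4_5 (x3_2 (x3_1 (x3_0 (s0_1 (n4 p83_15)))))))),
   x7_6 (x7_5 (x7_4 (s4_5 (x3_2 (x3_1 (x3_0 (s0_1 (n4 p83_14)))))))),
   x6_7 (x6_5 (x6_4 (s4_5 (x2_3 (x2_1 (x2_0 (s0_1 (n4 p83_3)))))))),
   x6_7 (x6_5 (x6_4 (s4_5 (x2_3 (x2_1 (x2_0 (s0_1 (n4 p83_2)))))))),
   s4_5 (s0_1 p83_14),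
   s4_5 (s0_1 p83_15)],
  [s6_7 (s2_3 p83_6),
   s6_7 (s2_3 p83_7),
   s6_7 (s2_3 p83_14),
   s6_7 (s2_3 p83_15),
   s6_7 (s4_5 (s2_3 (s0_1 p83_14))),
   s6_7 (s4_5 (s2_3 (s0_1 p83_15))),
   x6_7 (x6_5 (x6_4 (x2_3 (x2_1 (x2_0 (n5 (n4 p83_6))))))),
   x6_7 (x6_5 (x6_4 (x2_3 (x2_1 (x2_0 (n5 (n4 p83_7)))))))],
  [p83_32,
   p83_33,
   p83_34,
   p83_35,
   s4_5 (s0_1 p83_34),
   s4_5 (s0_1 p83_35),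
   x7_6 (x7_5 (x7_4 (x3_2 (x3_1 (x3_0 (n6 p83_32)))))),
   x7_6 (x7_5 (x7_4 (x3_2 (x3_1 (x3_0 (n6 p83_33))))))],
  [s6_7 (s2_3 p83_34),
   s6_7 (s2_3 p83_35),
   x7_6 (x7_5 (x7_4 (x3_2 (x3_1 (x3_0 (n6 (n4 p83_47))))))),
   x7_6 (x7_5 (x7_4 (x3_2 (x3_1 (x3_0 (n6 (n4 p83_46))))))),
   x6_7 (x6_5 (x6_4 (s4_5 (x2_3 (x2_1 (x2_0 (s0_1 (n7 (n4 p83_35))))))))),
   x6_7 (x6_5 (x6_4 (s4_5 (x2_3 (x2_1 (x2_0 (s0_1 (n7 (n4 p83_34))))))))),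
   p83_46,
   p83_47],
  [s6_7 (s4_5 (s2_3 (s0_1 p83_34))),
   s6_7 (s4_5 (s2_3 (s0_1 p83_35))),
   x6_7 (x6_5 (x6_4 (x2_3 (x2_1 (x2_0 (n7 (n4 p83_35))))))),
   x6_7 (x6_5 (x6_4 (x2_3 (x2_1 (x2_0 (n7 (n4 p83_34))))))),
   x7_6 (x7_5 (x7_4 (s4_5 (x3_2 (x3_1 (x3_0 (s0_1 (n6 (n4 p83_47))))))))),
   x7_6 (x7_5 (x7_4 (s4_5 (x3_2 (x3_1 (x3_0 (s0_1 (n6 (n4 p83_46))))))))),
   s4_5 (s0_1 p83_46),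
   s4_5 (s0_1 p83_47)],
  [x6_7 (x6_5 (x6_4 (x2_3 (x2_1 (x2_0 (n7 p83_32)))))),
   x6_7 (x6_5 (x6_4 (x2_3 (x2_1 (x2_0 (n7 p83_33)))))),
   s6_7 (s2_3 p83_46),
   s6_7 (s2_3 p83_47),
   s6_7 (s4_5 (s2_3 (s0_1 p83_46))),
   s6_7 (s4_5 (s2_3 (s0_1 p83_47))),
   p83_62,
   p83_63]]

theorem k83 : eqNN c83 (slO 64 (D.chG 16 1) 8) = true := by decide +kernel

end Pool.Agent.Lib.MP_afdd4d_co.K10.E6
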