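import Pool.Agent.Lib.MP_afdd4d_co.K10.E6.Dat
import Pool.Agent.Lib.MP_afdd4d_co.K10.E6.Mk
import Pool.Agent.Lib.MP_afdd4d_co.K8.F6Bl5
import Pool.Agent.Lib.MP_afdd4d_co.K10.E6.P0
import Pool.Agent.Lib.MP_afdd4d_co.K10.E6.P1
import Pool.Agent.Lib.MP_afdd4d_co.K10.E6.P2
import Pool.Agent.Lib.MP_afdd4d_co.K10.E6.P3
import Pool.Agent.Lib.MP_afdd4d_co.K10.E6.P4
import Pool.Agent.Lib.MP_afdd4d_co.K10.E6.P5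
import Pool.Agent.Lib.MP_afdd4d_co.K10.E6.P6
import Pool.Agent.Lib.MP_afdd4d_co.K10.E6.P7
import Pool.Agent.Lib.MP_afdd4d_co.K10.E6.P8
import Pool.Agent.Lib.MP_afdd4d_co.K10.E6.P9
import Pool.Agent.Lib.MP_afdd4d_co.K10.E6.P10
import Pool.Agent.Lib.MP_afdd4d_co.K10.E6.P11
import Pool.Agent.Lib.MP_afdd4d_co.K10.E6.P12
import Pool.Agent.Lib.MP_afdd4d_co.K10.E6.P13
import Pool.Agent.Lib.MP_afdd4d_co.K10.E6.P14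
import Pool.Agent.Lib.MP_afdd4d_co.K10.E6.P15
import Pool.Agent.Lib.MP_afdd4d_co.K10.E6.P16
import Pool.Agent.Lib.MP_afdd4d_co.K10.E6.P17
import Pool.Agent.Lib.MP_afdd4d_co.K10.E6.P18
import Pool.Agent.Lib.MP_afdd4d_co.K10.E6.P19
import Pool.Agent.Lib.MP_afdd4d_co.K10.E6.P20
import Pool.Agent.Lib.MP_afdd4d_co.K10.E6.P21
import Pool.Agent.Lib.MP_afdd4d_co.K10.E6.P22
import Pool.Agent.Lib.MP_afdd4d_co.K10.E6.P23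
import Pool.Agent.Lib.MP_afdd4d_co.K10.E6.P24
import Pool.Agent.Lib.MP_afdd4d_co.K10.E6.P25
import Pool.Agent.Lib.MP_afdd4d_co.K10.E6.P26
import Pool.Agent.Lib.MP_afdd4d_co.K10.E6.P27
import Pool.Agent.Lib.MP_afdd4d_co.K10.E6.P28
import Pool.Agent.Lib.MP_afdd4d_co.K10.E6.P29
import Pool.Agent.Lib.MP_afdd4d_co.K10.E6.P30
import Pool.Agent.Lib.MP_afdd4d_co.K10.E6.P31
import Pool.Agent.Lib.MP_afdd4d_co.K10.E6.P32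

/-!
# Tables
-/

namespace Pool.Agent.Lib.MP_afdd4d_co.K10.E6

open K8

set_option maxRecDepth 100000
set_option exponentiation.threshold 10000000

/-- The slices of the chunk 800. -/
noncomputable def c800 : List (List ℕ) := [
  [tr p774_60,
   tr p775_60,
   s3_7 (s2_5 (s1_6 (s0_4 p775_60))),
   x7_6 (x7_5 (x7_4 (x3_2 (x3_1 (x3_0 (tr (n6 (n5 (n0 p774_63))))))))),
   tr p776_60,
   tr p777_60,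
   s3_7 (s2_5 (s1_6 (s0_4 p777_60))),
   x7_6 (x7_5 (x7_4 (x3_2 (x3_1 (x3_0 (tr (n6 (n5 (n0 p776_63)))))))))],
  [tr p778_60,
   tr p779_60,
   s3_7 (s2_5 (s1_6 (s0_4 p779_60))),
   tr p780_60,
   tr p781_60,
   tr p782_60,
   s3_7 (s2_5 (s1_6 (s0_4 p782_60))),
   tr p783_60],
  [p800_16,
   p800_17,
   p800_18,
   p800_19,
   p800_20,
   p800_21,
   p800_22,
   p800_23],
  [p800_24,
   p800_25,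
   p800_26,
   p800_27,
   p800_28,
   p800_29,
   p800_30,
   p800_31],
  [s5_6 (s1_2 p800_16),
   s5_6 (s1_2 p800_18),
   s5_6 (s1_2 p800_17),
   s5_6 (s1_2 p800_19),
   s5_6 (s1_2 p800_20),
   s5_6 (s1_2 p800_22),
   s5_6 (s1_2 p800_21),
   s5_6 (s1_2 p800_23)],
  [s5_6 (s1_2 p800_24),
   s5_6 (s1_2 p800_26),
   s5_6 (s1_2 p800_25),
   s5_6 (s1_2 p800_27),
   s5_6 (s1_2 p800_28),
   s5_6 (s1_2 p800_30),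
   s5_6 (s1_2 p800_29),
   s5_6 (s1_2 p800_31)],
  [tr p792_60,
   tr p793_60,
   s3_7 (s2_5 (s1_6 (s0_4 p793_60))),
   tr p794_60,
   tr p795_60,
   tr p796_60,
   s3_7 (s2_5 (s1_6 (s0_4 p796_60))),
   tr p797_60],
  [tr p798_60,
   tr p799_60,
   s3_7 (s2_5 (s1_6 (s0_4 p799_60))),
   x7_6 (x7_5 (x7_4 (x3_2 (x3_1 (x3_0 (tr (n6 (n5 (n2 (n1 p798_63)))))))))),
   p800_60,
   p800_61,
   s5_6 (s1_2 p800_61),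
   p800_63]]

theorem k800 : eqNN c800 (slO 64 (D.chG 246 60) 8) = true := by decide +kernel

/-- The slices of the chunk 801. -/
noncomputable def c801 : List (List ℕ) := [
  [tr p774_61,
   tr p775_61,
   s3_7 (s2_5 (s1_6 (s0_4 p775_62))),
   x7_6 (x7_5 (x7_4 (x3_2 (x3_1 (x3_0 (s3_7 (s2_5 (s1_6 (s0_4 (n6 (n5 (n0 p774_61)))))))))))),
   tr p776_61,
   tr p777_61,
   s3_7 (s2_5 (s1_6 (s0_4 p777_62))),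
   x7_6 (x7_5 (x7_4 (x3_2 (x3_1 (x3_0 (s3_7 (s2_5 (s1_6 (s0_4 (n6 (n5 (n0 p776_61))))))))))))],
  [tr p778_61,
   tr p779_61,
   x7_6 (x7_5 (x7_4 (x3_2 (x3_1 (x3_0 (s3_7 (s2_5 (s1_6 (s0_4 (n6 (n5 p779_61))))))))))),
   tr p780_61,
   tr p781_61,
   tr p782_61,
   x7_6 (x7_5 (x7_4 (x3_2 (x3_1 (x3_0 (s3_7 (s2_5 (s1_6 (s0_4 (n6 (n5 p782_61))))))))))),
   tr p783_61],
  [p801_16,
   p801_17,
   p801_18,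
   p801_19,
   x7_6 (x7_5 (x7_4 (s5_6 (x3_2 (x3_1 (x3_0 (s1_2 (n6 (n4 (n2 (n1 p801_33))))))))))),
   x7_6 (x7_5 (x7_4 (s5_6 (x3_2 (x3_1 (x3_0 (s1_2 (n6 (n4 (n2 (n1 p801_35))))))))))),
   x7_6 (x7_5 (x7_4 (s5_6 (x3_2 (x3_1 (x3_0 (s1_2 (n6 (n4 (n2 (n1 p801_32))))))))))),
   x7_6 (x7_5 (x7_4 (s5_6 (x3_2 (x3_1 (x3_0 (s1_2 (n6 (n4 (n2 (n1 p801_34)))))))))))],
  [p801_24,
   p801_25,
   p801_26,
   p801_27,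
   x7_6 (x7_5 (x7_4 (s5_6 (x3_2 (x3_1 (x3_0 (s1_2 (n6 (n2 (n1 p801_42)))))))))),
   x7_6 (x7_5 (x7_4 (s5_6 (x3_2 (x3_1 (x3_0 (s1_2 (n6 (n2 (n1 p801_40)))))))))),
   x7_6 (x7_5 (x7_4 (s5_6 (x3_2 (x3_1 (x3_0 (s1_2 (n6 (n2 (n1 p801_43)))))))))),
   x7_6 (x7_5 (x7_4 (s5_6 (x3_2 (x3_1 (x3_0 (s1_2 (n6 (n2 (n1 p801_41))))))))))],
  [p801_32,
   p801_33,
   p801_34,
   p801_35,
   x7_6 (x7_5 (x7_4 (s5_6 (x3_2 (x3_1 (x3_0 (s1_2 (n5 (n4 (n2 (n1 p801_18))))))))))),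
   x7_6 (x7_5 (x7_4 (s5_6 (x3_2 (x3_1 (x3_0 (s1_2 (n5 (n4 (n2 (n1 p801_16))))))))))),
   x7_6 (x7_5 (x7_4 (s5_6 (x3_2 (x3_1 (x3_0 (s1_2 (n5 (n4 (n2 (n1 p801_19))))))))))),
   x7_6 (x7_5 (x7_4 (s5_6 (x3_2 (x3_1 (x3_0 (s1_2 (n5 (n4 (n2 (n1 p801_17)))))))))))],
  [p801_40,
   p801_41,
   p801_42,
   p801_43,
   x7_6 (x7_5 (x7_4 (s5_6 (x3_2 (x3_1 (x3_0 (s1_2 (n5 (n2 (n1 p801_25)))))))))),
   x7_6 (x7_5 (x7_4 (s5_6 (x3_2 (x3_1 (x3_0 (s1_2 (n5 (n2 (n1 p801_27)))))))))),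
   x7_6 (x7_5 (x7_4 (s5_6 (x3_2 (x3_1 (x3_0 (s1_2 (n5 (n2 (n1 p801_24)))))))))),
   x7_6 (x7_5 (x7_4 (s5_6 (x3_2 (x3_1 (x3_0 (s1_2 (n5 (n2 (n1 p801_26))))))))))],
  [tr p792_61,
   tr p793_61,
   x7_6 (x7_5 (x7_4 (x3_2 (x3_1 (x3_0 (s3_7 (s2_5 (s1_6 (s0_4 (n6 (n5 (n2 (n1 (n0 p793_61)))))))))))))),
   tr p794_61,
   tr p795_61,
   tr p796_61,
   x7_6 (x7_5 (x7_4 (x3_2 (x3_1 (x3_0 (s3_7 (s2_5 (s1_6 (s0_4 (n6 (n5 (n2 (n1 (n0 p796_61)))))))))))))),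
   tr p797_61],
  [tr p798_61,
   tr p799_61,
   s3_7 (s2_5 (s1_6 (s0_4 p799_62))),
   x7_6 (x7_5 (x7_4 (x3_2 (x3_1 (x3_0 (s3_7 (s2_5 (s1_6 (s0_4 (n6 (n5 (n2 (n1 p798_61))))))))))))),
   tr p800_61,
   p801_61,
   p801_62,
   x7_6 (x7_5 (x7_4 (x3_2 (x3_1 (x3_0 (s3_7 (s2_5 (s1_6 (s0_4 (n6 (n5 (n2 (n1 p800_61)))))))))))))]]

theorem k801 : eqNN c801 (slO 64 (D.chG 246 61) 8) = true := by decide +kernel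

/-- The slices of the chunk 802. -/
noncomputable def c802 : List (List ℕ) := [
  [p802_0,
   p802_1,
   s5_6 (s1_2 p802_1),
   p802_3,
   p802_4,
   p802_5,
   s5_6 (s1_2 p802_5),
   p802_7],
  [tr p806_0,
   tr p807_0,
   s3_7 (s2_5 (s1_6 (s0_4 p807_0))),
   tr p808_0,
   tr p809_0,
   tr p810_0,
   s3_7 (s2_5 (s1_6 (s0_4 p810_0))),
   tr p811_0],
  [p802_16,
   p802_17,
   p802_18,
   p802_19,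
   p802_20,
   p802_21,
   p802_22,
   p802_23],
  [p802_24,
   p802_25,
   p802_26,
   p802_27,
   p802_28,
   p802_29,
   p802_30,
   p802_31],
  [s5_6 (s1_2 p802_16),
   s5_6 (s1_2 p802_18),
   s5_6 (s1_2 p802_17),
   s5_6 (s1_2 p802_19),
   s5_6 (s1_2 p802_20),
   s5_6 (s1_2 p802_22),
   s5_6 (s1_2 p802_21),
   s5_6 (s1_2 p802_23)],
  [s5_6 (s1_2 p802_24),
   s5_6 (s1_2 p802_26),
   s5_6 (s1_2 p802_25),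
   s5_6 (s1_2 p802_27),
   s5_6 (s1_2 p802_28),
   s5_6 (s1_2 p802_30),
   s5_6 (s1_2 p802_29),
   s5_6 (s1_2 p802_31)],
  [tr p820_0,
   tr p821_0,
   s3_7 (s2_5 (s1_6 (s0_4 p821_0))),
   tr p822_0,
   tr p823_0,
   tr p824_0,
   s3_7 (s2_5 (s1_6 (s0_4 p824_0))),
   tr p825_0],
  [p802_56,
   p802_57,
   s5_6 (s1_2 p802_57),
   p802_59,
   p802_60,
   p802_61,
   s5_6 (s1_2 p802_61),
   p802_63]]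

theorem k802 : eqNN c802 (slO 64 (D.chG 247 0) 8) = true := by decide +kernel

/-- The slices of the chunk 803. -/
noncomputable def c803 : List (List ℕ) := [
  [tr p802_1,
   p803_1,
   p803_2,
   x7_6 (x7_5 (x7_4 (x3_2 (x3_1 (x3_0 (s3_7 (s2_5 (s1_6 (s0_4 (n4 (n0 p802_1))))))))))),
   p803_4,
   p803_5,
   p803_6,
   x7_6 (x7_5 (x7_4 (s5_6 (x3_2 (x3_1 (x3_0 (s1_2 (n4 (n0 p803_4)))))))))],
  [tr p806_1,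
   tr p807_1,
   x7_6 (x7_5 (x7_4 (x3_2 (x3_1 (x3_0 (s3_7 (s2_5 (s1_6 (s0_4 (n4 p807_1)))))))))),
   tr p808_1,
   tr p809_1,
   tr p810_1,
   x7_6 (x7_5 (x7_4 (x3_2 (x3_1 (x3_0 (s3_7 (s2_5 (s1_6 (s0_4 (n4 p810_1)))))))))),
   tr p811_1],
  [p803_16,
   p803_17,
   p803_18,
   p803_19,
   x7_6 (x7_5 (x7_4 (s5_6 (x3_2 (x3_1 (x3_0 (s1_2 (n6 (n4 (n0 p803_33)))))))))),
   x7_6 (x7_5 (x7_4 (s5_6 (x3_2 (x3_1 (x3_0 (s1_2 (n6 (n4 (n0 p803_35)))))))))),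
   x7_6 (x7_5 (x7_4 (s5_6 (x3_2 (x3_1 (x3_0 (s1_2 (n6 (n4 (n0 p803_32)))))))))),
   x7_6 (x7_5 (x7_4 (s5_6 (x3_2 (x3_1 (x3_0 (s1_2 (n6 (n4 (n0 p803_34))))))))))],
  [p803_24,
   p803_25,
   p803_26,
   p803_27,
   x7_6 (x7_5 (x7_4 (s5_6 (x3_2 (x3_1 (x3_0 (s1_2 (n6 (n0 p803_42))))))))),
   x7_6 (x7_5 (x7_4 (s5_6 (x3_2 (x3_1 (x3_0 (s1_2 (n6 (n0 p803_40))))))))),
   x7_6 (x7_5 (x7_4 (s5_6 (x3_2 (x3_1 (x3_0 (s1_2 (n6 (n0 p803_43))))))))),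
   x7_6 (x7_5 (x7_4 (s5_6 (x3_2 (x3_1 (x3_0 (s1_2 (n6 (n0 p803_41)))))))))],
  [p803_32,
   p803_33,
   p803_34,
   p803_35,
   x7_6 (x7_5 (x7_4 (s5_6 (x3_2 (x3_1 (x3_0 (s1_2 (n5 (n4 (n0 p803_18)))))))))),
   x7_6 (x7_5 (x7_4 (s5_6 (x3_2 (x3_1 (x3_0 (s1_2 (n5 (n4 (n0 p803_16)))))))))),
   x7_6 (x7_5 (x7_4 (s5_6 (x3_2 (x3_1 (x3_0 (s1_2 (n5 (n4 (n0 p803_19)))))))))),
   x7_6 (x7_5 (x7_4 (s5_6 (x3_2 (x3_1 (x3_0 (s1_2 (n5 (n4 (n0 p803_17))))))))))],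
  [p803_40,
   p803_41,
   p803_42,
   p803_43,
   x7_6 (x7_5 (x7_4 (s5_6 (x3_2 (x3_1 (x3_0 (s1_2 (n5 (n0 p803_25))))))))),
   x7_6 (x7_5 (x7_4 (s5_6 (x3_2 (x3_1 (x3_0 (s1_2 (n5 (n0 p803_27))))))))),
   x7_6 (x7_5 (x7_4 (s5_6 (x3_2 (x3_1 (x3_0 (s1_2 (n5 (n0 p803_24))))))))),
   x7_6 (x7_5 (x7_4 (s5_6 (x3_2 (x3_1 (x3_0 (s1_2 (n5 (n0 p803_26)))))))))],
  [tr p820_1,
   tr p821_1,
   x7_6 (x7_5 (x7_4 (x3_2 (x3_1 (x3_0 (s3_7 (s2_5 (s1_6 (s0_4 (n4 (n2 (n1 (n0 p821_1))))))))))))),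
   tr p822_1,
   tr p823_1,
   tr p824_1,
   x7_6 (x7_5 (x7_4 (x3_2 (x3_1 (x3_0 (s3_7 (s2_5 (s1_6 (s0_4 (n4 (n2 (n1 (n0 p824_1))))))))))))),
   tr p825_1],
  [p803_56,
   p803_57,
   p803_58,
   x7_6 (x7_5 (x7_4 (s5_6 (x3_2 (x3_1 (x3_0 (s1_2 (n6 (n5 (n0 p803_56)))))))))),
   p803_60,
   p803_61,
   p803_62,
   x7_6 (x7_5 (x7_4 (s5_6 (x3_2 (x3_1 (x3_0 (s1_2 (n6 (n5 (n0 p803_60))))))))))]]

theorem k803 : eqNN c803 (slO 64 (D.chG 247 1) 8) = true := by decide +kernel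

end Pool.Agent.Lib.MP_afdd4d_co.K10.E6
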