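import Pool.Agent.Lib.MP_afdd4d_co.K10.E6.Dat
import Pool.Agent.Lib.MP_afdd4d_co.K10.E6.Mk
import Pool.Agent.Lib.MP_afdd4d_co.K8.F6Bl5
import Pool.Agent.Lib.MP_afdd4d_co.K10.E6.P0
import Pool.Agent.Lib.MP_afdd4d_co.K10.E6.P1
import Pool.Agent.Lib.MP_afdd4d_co.K10.E6.P2
import Pool.Agent.Lib.MP_afdd4d_co.K10.E6.P3
import Pool.Agent.Lib.MP_afdd4d_co.K10.E6.P4
import Pool.Agent.Lib.MP_afdd4d_co.K10.E6.P5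
import Pool.Agent.Lib.MP_afdd4d_co.K10.E6.P6
import Pool.Agent.Lib.MP_afdd4d_co.K10.E6.P7
import Pool.Agent.Lib.MP_afdd4d_co.K10.E6.P8
import Pool.Agent.Lib.MP_afdd4d_co.K10.E6.P9
import Pool.Agent.Lib.MP_afdd4d_co.K10.E6.P10
import Pool.Agent.Lib.MP_afdd4d_co.K10.E6.P11
import Pool.Agent.Lib.MP_afdd4d_co.K10.E6.P12
import Pool.Agent.Lib.MP_afdd4d_co.K10.E6.P13
import Pool.Agent.Lib.MP_afdd4d_co.K10.E6.P14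
import Pool.Agent.Lib.MP_afdd4d_co.K10.E6.P15
import Pool.Agent.Lib.MP_afdd4d_co.K10.E6.P16
import Pool.Agent.Lib.MP_afdd4d_co.K10.E6.P17
import Pool.Agent.Lib.MP_afdd4d_co.K10.E6.P18
import Pool.Agent.Lib.MP_afdd4d_co.K10.E6.P19
import Pool.Agent.Lib.MP_afdd4d_co.K10.E6.P20
import Pool.Agent.Lib.MP_afdd4d_co.K10.E6.P21
import Pool.Agent.Lib.MP_afdd4d_co.K10.E6.P22
import Pool.Agent.Lib.MP_afdd4d_co.K10.E6.P23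
import Pool.Agent.Lib.MP_afdd4d_co.K10.E6.P24
import Pool.Agent.Lib.MP_afdd4d_co.K10.E6.P25
import Pool.Agent.Lib.MP_afdd4d_co.K10.E6.P26
import Pool.Agent.Lib.MP_afdd4d_co.K10.E6.P27
import Pool.Agent.Lib.MP_afdd4d_co.K10.E6.P28
import Pool.Agent.Lib.MP_afdd4d_co.K10.E6.P29
import Pool.Agent.Lib.MP_afdd4d_co.K10.E6.P30
import Pool.Agent.Lib.MP_afdd4d_co.K10.E6.P31
import Pool.Agent.Lib.MP_afdd4d_co.K10.E6.P32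

/-!
# Tables
-/

namespace Pool.Agent.Lib.MP_afdd4d_co.K10.E6

open K8

set_option maxRecDepth 100000
set_option exponentiation.threshold 10000000

/-- The slices of the chunk 804. -/
noncomputable def c804 : List (List ℕ) := [
  [tr p802_4,
   tr p803_4,
   s3_7 (s2_5 (s1_6 (s0_4 p803_4))),
   x7_6 (x7_5 (x7_4 (x3_2 (x3_1 (x3_0 (tr (n4 (n0 p802_7)))))))),
   p804_4,
   p804_5,
   s5_6 (s1_2 p804_5),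
   p804_7],
  [tr p806_4,
   tr p807_4,
   s3_7 (s2_5 (s1_6 (s0_4 p807_4))),
   tr p808_4,
   tr p809_4,
   tr p810_4,
   s3_7 (s2_5 (s1_6 (s0_4 p810_4))),
   tr p811_4],
  [p804_16,
   p804_17,
   p804_18,
   p804_19,
   p804_20,
   p804_21,
   p804_22,
   p804_23],
  [p804_24,
   p804_25,
   p804_26,
   p804_27,
   p804_28,
   p804_29,
   p804_30,
   p804_31],
  [s5_6 (s1_2 p804_16),
   s5_6 (s1_2 p804_18),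
   s5_6 (s1_2 p804_17),
   s5_6 (s1_2 p804_19),
   s5_6 (s1_2 p804_20),
   s5_6 (s1_2 p804_22),
   s5_6 (s1_2 p804_21),
   s5_6 (s1_2 p804_23)],
  [s5_6 (s1_2 p804_24),
   s5_6 (s1_2 p804_26),
   s5_6 (s1_2 p804_25),
   s5_6 (s1_2 p804_27),
   s5_6 (s1_2 p804_28),
   s5_6 (s1_2 p804_30),
   s5_6 (s1_2 p804_29),
   s5_6 (s1_2 p804_31)],
  [tr p820_4,
   tr p821_4,
   s3_7 (s2_5 (s1_6 (s0_4 p821_4))),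
   tr p822_4,
   tr p823_4,
   tr p824_4,
   s3_7 (s2_5 (s1_6 (s0_4 p824_4))),
   tr p825_4],
  [p804_56,
   p804_57,
   s5_6 (s1_2 p804_57),
   p804_59,
   p804_60,
   p804_61,
   s5_6 (s1_2 p804_61),
   p804_63]]

theorem k804 : eqNN c804 (slO 64 (D.chG 247 4) 8) = true := by decide +kernel

/-- The slices of the chunk 805. -/
noncomputable def c805 : List (List ℕ) := [
  [tr p802_5,
   tr p803_5,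
   s3_7 (s2_5 (s1_6 (s0_4 p803_6))),
   x7_6 (x7_5 (x7_4 (x3_2 (x3_1 (x3_0 (s3_7 (s2_5 (s1_6 (s0_4 (n4 (n0 p802_5))))))))))),
   tr p804_5,
   p805_5,
   p805_6,
   x7_6 (x7_5 (x7_4 (x3_2 (x3_1 (x3_0 (s3_7 (s2_5 (s1_6 (s0_4 (n4 (n0 p804_5)))))))))))],
  [tr p806_5,
   tr p807_5,
   x7_6 (x7_5 (x7_4 (x3_2 (x3_1 (x3_0 (s3_7 (s2_5 (s1_6 (s0_4 (n4 p807_5)))))))))),
   tr p808_5,
   tr p809_5,
   tr p810_5,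
   x7_6 (x7_5 (x7_4 (x3_2 (x3_1 (x3_0 (s3_7 (s2_5 (s1_6 (s0_4 (n4 p810_5)))))))))),
   tr p811_5],
  [p805_16,
   p805_17,
   p805_18,
   p805_19,
   x7_6 (x7_5 (x7_4 (s5_6 (x3_2 (x3_1 (x3_0 (s1_2 (n6 (n4 (n0 p805_33)))))))))),
   x7_6 (x7_5 (x7_4 (s5_6 (x3_2 (x3_1 (x3_0 (s1_2 (n6 (n4 (n0 p805_35)))))))))),
   x7_6 (x7_5 (x7_4 (s5_6 (x3_2 (x3_1 (x3_0 (s1_2 (n6 (n4 (n0 p805_32)))))))))),
   x7_6 (x7_5 (x7_4 (s5_6 (x3_2 (x3_1 (x3_0 (s1_2 (n6 (n4 (n0 p805_34))))))))))],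
  [p805_24,
   p805_25,
   p805_26,
   p805_27,
   x7_6 (x7_5 (x7_4 (s5_6 (x3_2 (x3_1 (x3_0 (s1_2 (n6 (n0 p805_42))))))))),
   x7_6 (x7_5 (x7_4 (s5_6 (x3_2 (x3_1 (x3_0 (s1_2 (n6 (n0 p805_40))))))))),
   x7_6 (x7_5 (x7_4 (s5_6 (x3_2 (x3_1 (x3_0 (s1_2 (n6 (n0 p805_43))))))))),
   x7_6 (x7_5 (x7_4 (s5_6 (x3_2 (x3_1 (x3_0 (s1_2 (n6 (n0 p805_41)))))))))],
  [p805_32,
   p805_33,
   p805_34,
   p805_35,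
   x7_6 (x7_5 (x7_4 (s5_6 (x3_2 (x3_1 (x3_0 (s1_2 (n5 (n4 (n0 p805_18)))))))))),
   x7_6 (x7_5 (x7_4 (s5_6 (x3_2 (x3_1 (x3_0 (s1_2 (n5 (n4 (n0 p805_16)))))))))),
   x7_6 (x7_5 (x7_4 (s5_6 (x3_2 (x3_1 (x3_0 (s1_2 (n5 (n4 (n0 p805_19)))))))))),
   x7_6 (x7_5 (x7_4 (s5_6 (x3_2 (x3_1 (x3_0 (s1_2 (n5 (n4 (n0 p805_17))))))))))],
  [p805_40,
   p805_41,
   p805_42,
   p805_43,
   x7_6 (x7_5 (x7_4 (s5_6 (x3_2 (x3_1 (x3_0 (s1_2 (n5 (n0 p805_25))))))))),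
   x7_6 (x7_5 (x7_4 (s5_6 (x3_2 (x3_1 (x3_0 (s1_2 (n5 (n0 p805_27))))))))),
   x7_6 (x7_5 (x7_4 (s5_6 (x3_2 (x3_1 (x3_0 (s1_2 (n5 (n0 p805_24))))))))),
   x7_6 (x7_5 (x7_4 (s5_6 (x3_2 (x3_1 (x3_0 (s1_2 (n5 (n0 p805_26)))))))))],
  [tr p820_5,
   tr p821_5,
   x7_6 (x7_5 (x7_4 (x3_2 (x3_1 (x3_0 (s3_7 (s2_5 (s1_6 (s0_4 (n4 (n2 (n1 (n0 p821_5))))))))))))),
   tr p822_5,
   tr p823_5,
   tr p824_5,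
   x7_6 (x7_5 (x7_4 (x3_2 (x3_1 (x3_0 (s3_7 (s2_5 (s1_6 (s0_4 (n4 (n2 (n1 (n0 p824_5))))))))))))),
   tr p825_5],
  [p805_56,
   p805_57,
   p805_58,
   x7_6 (x7_5 (x7_4 (s5_6 (x3_2 (x3_1 (x3_0 (s1_2 (n6 (n5 (n0 p805_56)))))))))),
   p805_60,
   p805_61,
   p805_62,
   x7_6 (x7_5 (x7_4 (s5_6 (x3_2 (x3_1 (x3_0 (s1_2 (n6 (n5 (n0 p805_60))))))))))]]

theorem k805 : eqNN c805 (slO 64 (D.chG 247 5) 8) = true := by decide +kernel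

/-- The slices of the chunk 806. -/
noncomputable def c806 : List (List ℕ) := [
  [p806_0,
   p806_1,
   s5_6 (s1_2 p806_1),
   x7_6 (x7_5 (x7_4 (x3_2 (x3_1 (x3_0 (n4 p806_0)))))),
   p806_4,
   p806_5,
   s5_6 (s1_2 p806_5),
   x7_6 (x7_5 (x7_4 (x3_2 (x3_1 (x3_0 (n4 p806_4))))))],
  [p806_8,
   p806_9,
   s5_6 (s1_2 p806_9),
   p806_11,
   p806_12,
   p806_13,
   s5_6 (s1_2 p806_13),
   p806_15],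
  [p806_16,
   p806_17,
   p806_18,
   p806_19,
   x7_6 (x7_5 (x7_4 (x3_2 (x3_1 (x3_0 (n5 (n4 p806_18))))))),
   x7_6 (x7_5 (x7_4 (x3_2 (x3_1 (x3_0 (n5 (n4 p806_19))))))),
   x7_6 (x7_5 (x7_4 (x3_2 (x3_1 (x3_0 (n5 (n4 p806_16))))))),
   x7_6 (x7_5 (x7_4 (x3_2 (x3_1 (x3_0 (n5 (n4 p806_17)))))))],
  [p806_24,
   p806_25,
   p806_26,
   p806_27,
   x7_6 (x7_5 (x7_4 (x3_2 (x3_1 (x3_0 (n5 p806_25)))))),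
   x7_6 (x7_5 (x7_4 (x3_2 (x3_1 (x3_0 (n5 p806_24)))))),
   x7_6 (x7_5 (x7_4 (x3_2 (x3_1 (x3_0 (n5 p806_27)))))),
   x7_6 (x7_5 (x7_4 (x3_2 (x3_1 (x3_0 (n5 p806_26))))))],
  [s5_6 (s1_2 p806_16),
   s5_6 (s1_2 p806_18),
   s5_6 (s1_2 p806_17),
   s5_6 (s1_2 p806_19),
   x7_6 (x7_5 (x7_4 (s5_6 (x3_2 (x3_1 (x3_0 (s1_2 (n5 (n4 p806_18))))))))),
   x7_6 (x7_5 (x7_4 (s5_6 (x3_2 (x3_1 (x3_0 (s1_2 (n5 (n4 p806_16))))))))),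
   x7_6 (x7_5 (x7_4 (s5_6 (x3_2 (x3_1 (x3_0 (s1_2 (n5 (n4 p806_19))))))))),
   x7_6 (x7_5 (x7_4 (s5_6 (x3_2 (x3_1 (x3_0 (s1_2 (n5 (n4 p806_17)))))))))],
  [s5_6 (s1_2 p806_24),
   s5_6 (s1_2 p806_26),
   s5_6 (s1_2 p806_25),
   s5_6 (s1_2 p806_27),
   x7_6 (x7_5 (x7_4 (s5_6 (x3_2 (x3_1 (x3_0 (s1_2 (n5 p806_25)))))))),
   x7_6 (x7_5 (x7_4 (s5_6 (x3_2 (x3_1 (x3_0 (s1_2 (n5 p806_27)))))))),
   x7_6 (x7_5 (x7_4 (s5_6 (x3_2 (x3_1 (x3_0 (s1_2 (n5 p806_24)))))))),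
   x7_6 (x7_5 (x7_4 (s5_6 (x3_2 (x3_1 (x3_0 (s1_2 (n5 p806_26))))))))],
  [p806_48,
   p806_49,
   s5_6 (s1_2 p806_49),
   p806_51,
   p806_52,
   p806_53,
   s5_6 (s1_2 p806_53),
   p806_55],
  [p806_56,
   p806_57,
   s5_6 (s1_2 p806_57),
   x7_6 (x7_5 (x7_4 (x3_2 (x3_1 (x3_0 (n6 (n5 p806_56))))))),
   p806_60,
   p806_61,
   s5_6 (s1_2 p806_61),
   x7_6 (x7_5 (x7_4 (x3_2 (x3_1 (x3_0 (n6 (n5 p806_60)))))))]]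

theorem k806 : eqNN c806 (slO 64 (D.chG 247 8) 8) = true := by decide +kernel

/-- The slices of the chunk 807. -/
noncomputable def c807 : List (List ℕ) := [
  [p807_0,
   p807_1,
   x7_6 (x7_5 (x7_4 (x3_2 (x3_1 (x3_0 (n4 p807_1)))))),
   x7_6 (x7_5 (x7_4 (x3_2 (x3_1 (x3_0 (n4 p807_0)))))),
   p807_4,
   p807_5,
   x7_6 (x7_5 (x7_4 (x3_2 (x3_1 (x3_0 (n4 p807_5)))))),
   x7_6 (x7_5 (x7_4 (x3_2 (x3_1 (x3_0 (n4 p807_4))))))],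
  [tr p806_9,
   p807_9,
   p807_10,
   tr p808_9,
   tr p809_9,
   p807_13,
   p807_14,
   tr p811_9],
  [p807_16,
   p807_17,
   p807_18,
   p807_19,
   x7_6 (x7_5 (x7_4 (x3_2 (x3_1 (x3_0 (n5 (n4 p807_18))))))),
   x7_6 (x7_5 (x7_4 (x3_2 (x3_1 (x3_0 (n5 (n4 p807_19))))))),
   x7_6 (x7_5 (x7_4 (x3_2 (x3_1 (x3_0 (n5 (n4 p807_16))))))),
   x7_6 (x7_5 (x7_4 (x3_2 (x3_1 (x3_0 (n5 (n4 p807_17)))))))],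
  [p807_24,
   p807_25,
   p807_26,
   p807_27,
   x7_6 (x7_5 (x7_4 (x3_2 (x3_1 (x3_0 (n5 p807_25)))))),
   x7_6 (x7_5 (x7_4 (x3_2 (x3_1 (x3_0 (n5 p807_24)))))),
   x7_6 (x7_5 (x7_4 (x3_2 (x3_1 (x3_0 (n5 p807_27)))))),
   x7_6 (x7_5 (x7_4 (x3_2 (x3_1 (x3_0 (n5 p807_26))))))],
  [p807_32,
   p807_33,
   p807_34,
   p807_35,
   x7_6 (x7_5 (x7_4 (x3_2 (x3_1 (x3_0 (n6 (n4 p807_33))))))),
   x7_6 (x7_5 (x7_4 (x3_2 (x3_1 (x3_0 (n6 (n4 p807_32))))))),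
   x7_6 (x7_5 (x7_4 (x3_2 (x3_1 (x3_0 (n6 (n4 p807_35))))))),
   x7_6 (x7_5 (x7_4 (x3_2 (x3_1 (x3_0 (n6 (n4 p807_34)))))))],
  [p807_40,
   p807_41,
   p807_42,
   p807_43,
   x7_6 (x7_5 (x7_4 (x3_2 (x3_1 (x3_0 (n6 p807_42)))))),
   x7_6 (x7_5 (x7_4 (x3_2 (x3_1 (x3_0 (n6 p807_43)))))),
   x7_6 (x7_5 (x7_4 (x3_2 (x3_1 (x3_0 (n6 p807_40)))))),
   x7_6 (x7_5 (x7_4 (x3_2 (x3_1 (x3_0 (n6 p807_41))))))],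
  [tr p820_9,
   p807_49,
   p807_50,
   tr p822_9,
   tr p823_9,
   p807_53,
   p807_54,
   tr p825_9],
  [p807_56,
   p807_57,
   x7_6 (x7_5 (x7_4 (x3_2 (x3_1 (x3_0 (n6 (n5 p807_57))))))),
   x7_6 (x7_5 (x7_4 (x3_2 (x3_1 (x3_0 (n6 (n5 p807_56))))))),
   p807_60,
   p807_61,
   x7_6 (x7_5 (x7_4 (x3_2 (x3_1 (x3_0 (n6 (n5 p807_61))))))),
   x7_6 (x7_5 (x7_4 (x3_2 (x3_1 (x3_0 (n6 (n5 p807_60)))))))]]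

theorem k807 : eqNN c807 (slO 64 (D.chG 247 9) 8) = true := by decide +kernel

end Pool.Agent.Lib.MP_afdd4d_co.K10.E6
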