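import Pool.Agent.Lib.MP_afdd4d_co.K10.E6.Dat
import Pool.Agent.Lib.MP_afdd4d_co.K10.E6.Mk
import Pool.Agent.Lib.MP_afdd4d_co.K8.F6Bl5
import Pool.Agent.Lib.MP_afdd4d_co.K10.E6.P0
import Pool.Agent.Lib.MP_afdd4d_co.K10.E6.P1
import Pool.Agent.Lib.MP_afdd4d_co.K10.E6.P2
import Pool.Agent.Lib.MP_afdd4d_co.K10.E6.P3
import Pool.Agent.Lib.MP_afdd4d_co.K10.E6.P4
import Pool.Agent.Lib.MP_afdd4d_co.K10.E6.P5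
import Pool.Agent.Lib.MP_afdd4d_co.K10.E6.P6
import Pool.Agent.Lib.MP_afdd4d_co.K10.E6.P7
import Pool.Agent.Lib.MP_afdd4d_co.K10.E6.P8
import Pool.Agent.Lib.MP_afdd4d_co.K10.E6.P9
import Pool.Agent.Lib.MP_afdd4d_co.K10.E6.P10
import Pool.Agent.Lib.MP_afdd4d_co.K10.E6.P11
import Pool.Agent.Lib.MP_afdd4d_co.K10.E6.P12
import Pool.Agent.Lib.MP_afdd4d_co.K10.E6.P13
import Pool.Agent.Lib.MP_afdd4d_co.K10.E6.P14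
import Pool.Agent.Lib.MP_afdd4d_co.K10.E6.P15
import Pool.Agent.Lib.MP_afdd4d_co.K10.E6.P16
import Pool.Agent.Lib.MP_afdd4d_co.K10.E6.P17
import Pool.Agent.Lib.MP_afdd4d_co.K10.E6.P18
import Pool.Agent.Lib.MP_afdd4d_co.K10.E6.P19
import Pool.Agent.Lib.MP_afdd4d_co.K10.E6.P20
import Pool.Agent.Lib.MP_afdd4d_co.K10.E6.P21
import Pool.Agent.Lib.MP_afdd4d_co.K10.E6.P22
import Pool.Agent.Lib.MP_afdd4d_co.K10.E6.P23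
import Pool.Agent.Lib.MP_afdd4d_co.K10.E6.P24
import Pool.Agent.Lib.MP_afdd4d_co.K10.E6.P25
import Pool.Agent.Lib.MP_afdd4d_co.K10.E6.P26
import Pool.Agent.Lib.MP_afdd4d_co.K10.E6.P27
import Pool.Agent.Lib.MP_afdd4d_co.K10.E6.P28
import Pool.Agent.Lib.MP_afdd4d_co.K10.E6.P29
import Pool.Agent.Lib.MP_afdd4d_co.K10.E6.P30
import Pool.Agent.Lib.MP_afdd4d_co.K10.E6.P31
import Pool.Agent.Lib.MP_afdd4d_co.K10.E6.P32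

/-!
# Tables
-/

namespace Pool.Agent.Lib.MP_afdd4d_co.K10.E6

open K8

set_option maxRecDepth 100000
set_option exponentiation.threshold 10000000

/-- The slices of the chunk 808. -/
noncomputable def c808 : List (List ℕ) := [
  [p808_0,
   p808_1,
   s5_6 (s1_2 p808_1),
   x7_6 (x7_5 (x7_4 (x3_2 (x3_1 (x3_0 (n4 p808_0)))))),
   p808_4,
   p808_5,
   s5_6 (s1_2 p808_5),
   x7_6 (x7_5 (x7_4 (x3_2 (x3_1 (x3_0 (n4 p808_4))))))],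
  [tr p806_11,
   p808_9,
   s5_6 (s1_2 p808_9),
   p808_11,
   p808_12,
   p808_13,
   s5_6 (s1_2 p808_13),
   p808_15],
  [p808_16,
   p808_17,
   p808_18,
   p808_19,
   x7_6 (x7_5 (x7_4 (x3_2 (x3_1 (x3_0 (n5 (n4 p808_18))))))),
   x7_6 (x7_5 (x7_4 (x3_2 (x3_1 (x3_0 (n5 (n4 p808_19))))))),
   x7_6 (x7_5 (x7_4 (x3_2 (x3_1 (x3_0 (n5 (n4 p808_16))))))),
   x7_6 (x7_5 (x7_4 (x3_2 (x3_1 (x3_0 (n5 (n4 p808_17)))))))],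
  [p808_24,
   p808_25,
   p808_26,
   p808_27,
   x7_6 (x7_5 (x7_4 (x3_2 (x3_1 (x3_0 (n5 p808_25)))))),
   x7_6 (x7_5 (x7_4 (x3_2 (x3_1 (x3_0 (n5 p808_24)))))),
   x7_6 (x7_5 (x7_4 (x3_2 (x3_1 (x3_0 (n5 p808_27)))))),
   x7_6 (x7_5 (x7_4 (x3_2 (x3_1 (x3_0 (n5 p808_26))))))],
  [s5_6 (s1_2 p808_16),
   s5_6 (s1_2 p808_18),
   s5_6 (s1_2 p808_17),
   s5_6 (s1_2 p808_19),
   x7_6 (x7_5 (x7_4 (s5_6 (x3_2 (x3_1 (x3_0 (s1_2 (n5 (n4 p808_18))))))))),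
   x7_6 (x7_5 (x7_4 (s5_6 (x3_2 (x3_1 (x3_0 (s1_2 (n5 (n4 p808_16))))))))),
   x7_6 (x7_5 (x7_4 (s5_6 (x3_2 (x3_1 (x3_0 (s1_2 (n5 (n4 p808_19))))))))),
   x7_6 (x7_5 (x7_4 (s5_6 (x3_2 (x3_1 (x3_0 (s1_2 (n5 (n4 p808_17)))))))))],
  [s5_6 (s1_2 p808_24),
   s5_6 (s1_2 p808_26),
   s5_6 (s1_2 p808_25),
   s5_6 (s1_2 p808_27),
   x7_6 (x7_5 (x7_4 (s5_6 (x3_2 (x3_1 (x3_0 (s1_2 (n5 p808_25)))))))),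
   x7_6 (x7_5 (x7_4 (s5_6 (x3_2 (x3_1 (x3_0 (s1_2 (n5 p808_27)))))))),
   x7_6 (x7_5 (x7_4 (s5_6 (x3_2 (x3_1 (x3_0 (s1_2 (n5 p808_24)))))))),
   x7_6 (x7_5 (x7_4 (s5_6 (x3_2 (x3_1 (x3_0 (s1_2 (n5 p808_26))))))))],
  [p808_48,
   p808_49,
   s5_6 (s1_2 p808_49),
   p808_51,
   p808_52,
   p808_53,
   s5_6 (s1_2 p808_53),
   p808_55],
  [p808_56,
   p808_57,
   s5_6 (s1_2 p808_57),
   x7_6 (x7_5 (x7_4 (x3_2 (x3_1 (x3_0 (n6 (n5 p808_56))))))),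
   p808_60,
   p808_61,
   s5_6 (s1_2 p808_61),
   x7_6 (x7_5 (x7_4 (x3_2 (x3_1 (x3_0 (n6 (n5 p808_60)))))))]]

theorem k808 : eqNN c808 (slO 64 (D.chG 247 11) 8) = true := by decide +kernel

/-- The slices of the chunk 809. -/
noncomputable def c809 : List (List ℕ) := [
  [p809_0,
   p809_1,
   s5_6 (s1_2 p809_1),
   x7_6 (x7_5 (x7_4 (x3_2 (x3_1 (x3_0 (n4 p809_0)))))),
   p809_4,
   p809_5,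
   s5_6 (s1_2 p809_5),
   x7_6 (x7_5 (x7_4 (x3_2 (x3_1 (x3_0 (n4 p809_4))))))],
  [tr p806_12,
   p809_9,
   s5_6 (s1_2 p809_9),
   tr p808_12,
   p809_12,
   p809_13,
   s5_6 (s1_2 p809_13),
   p809_15],
  [p809_16,
   p809_17,
   p809_18,
   p809_19,
   x7_6 (x7_5 (x7_4 (x3_2 (x3_1 (x3_0 (n5 (n4 p809_18))))))),
   x7_6 (x7_5 (x7_4 (x3_2 (x3_1 (x3_0 (n5 (n4 p809_19))))))),
   x7_6 (x7_5 (x7_4 (x3_2 (x3_1 (x3_0 (n5 (n4 p809_16))))))),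
   x7_6 (x7_5 (x7_4 (x3_2 (x3_1 (x3_0 (n5 (n4 p809_17)))))))],
  [p809_24,
   p809_25,
   p809_26,
   p809_27,
   x7_6 (x7_5 (x7_4 (x3_2 (x3_1 (x3_0 (n5 p809_25)))))),
   x7_6 (x7_5 (x7_4 (x3_2 (x3_1 (x3_0 (n5 p809_24)))))),
   x7_6 (x7_5 (x7_4 (x3_2 (x3_1 (x3_0 (n5 p809_27)))))),
   x7_6 (x7_5 (x7_4 (x3_2 (x3_1 (x3_0 (n5 p809_26))))))],
  [s5_6 (s1_2 p809_16),
   s5_6 (s1_2 p809_18),
   s5_6 (s1_2 p809_17),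
   s5_6 (s1_2 p809_19),
   x7_6 (x7_5 (x7_4 (s5_6 (x3_2 (x3_1 (x3_0 (s1_2 (n5 (n4 p809_18))))))))),
   x7_6 (x7_5 (x7_4 (s5_6 (x3_2 (x3_1 (x3_0 (s1_2 (n5 (n4 p809_16))))))))),
   x7_6 (x7_5 (x7_4 (s5_6 (x3_2 (x3_1 (x3_0 (s1_2 (n5 (n4 p809_19))))))))),
   x7_6 (x7_5 (x7_4 (s5_6 (x3_2 (x3_1 (x3_0 (s1_2 (n5 (n4 p809_17)))))))))],
  [s5_6 (s1_2 p809_24),
   s5_6 (s1_2 p809_26),
   s5_6 (s1_2 p809_25),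
   s5_6 (s1_2 p809_27),
   x7_6 (x7_5 (x7_4 (s5_6 (x3_2 (x3_1 (x3_0 (s1_2 (n5 p809_25)))))))),
   x7_6 (x7_5 (x7_4 (s5_6 (x3_2 (x3_1 (x3_0 (s1_2 (n5 p809_27)))))))),
   x7_6 (x7_5 (x7_4 (s5_6 (x3_2 (x3_1 (x3_0 (s1_2 (n5 p809_24)))))))),
   x7_6 (x7_5 (x7_4 (s5_6 (x3_2 (x3_1 (x3_0 (s1_2 (n5 p809_26))))))))],
  [p809_48,
   p809_49,
   s5_6 (s1_2 p809_49),
   p809_51,
   p809_52,
   p809_53,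
   s5_6 (s1_2 p809_53),
   p809_55],
  [p809_56,
   p809_57,
   s5_6 (s1_2 p809_57),
   x7_6 (x7_5 (x7_4 (x3_2 (x3_1 (x3_0 (n6 (n5 p809_56))))))),
   p809_60,
   p809_61,
   s5_6 (s1_2 p809_61),
   x7_6 (x7_5 (x7_4 (x3_2 (x3_1 (x3_0 (n6 (n5 p809_60)))))))]]

theorem k809 : eqNN c809 (slO 64 (D.chG 247 12) 8) = true := by decide +kernel

/-- The slices of the chunk 810. -/
noncomputable def c810 : List (List ℕ) := [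
  [p810_0,
   p810_1,
   x7_6 (x7_5 (x7_4 (x3_2 (x3_1 (x3_0 (n4 p810_1)))))),
   x7_6 (x7_5 (x7_4 (x3_2 (x3_1 (x3_0 (n4 p810_0)))))),
   p810_4,
   p810_5,
   x7_6 (x7_5 (x7_4 (x3_2 (x3_1 (x3_0 (n4 p810_5)))))),
   x7_6 (x7_5 (x7_4 (x3_2 (x3_1 (x3_0 (n4 p810_4))))))],
  [tr p806_13,
   tr p807_13,
   s3_7 (s2_5 (s1_6 (s0_4 p807_14))),
   tr p808_13,
   tr p809_13,
   p810_13,
   p810_14,
   tr p811_13],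
  [p810_16,
   p810_17,
   p810_18,
   p810_19,
   x7_6 (x7_5 (x7_4 (x3_2 (x3_1 (x3_0 (n5 (n4 p810_18))))))),
   x7_6 (x7_5 (x7_4 (x3_2 (x3_1 (x3_0 (n5 (n4 p810_19))))))),
   x7_6 (x7_5 (x7_4 (x3_2 (x3_1 (x3_0 (n5 (n4 p810_16))))))),
   x7_6 (x7_5 (x7_4 (x3_2 (x3_1 (x3_0 (n5 (n4 p810_17)))))))],
  [p810_24,
   p810_25,
   p810_26,
   p810_27,
   x7_6 (x7_5 (x7_4 (x3_2 (x3_1 (x3_0 (n5 p810_25)))))),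
   x7_6 (x7_5 (x7_4 (x3_2 (x3_1 (x3_0 (n5 p810_24)))))),
   x7_6 (x7_5 (x7_4 (x3_2 (x3_1 (x3_0 (n5 p810_27)))))),
   x7_6 (x7_5 (x7_4 (x3_2 (x3_1 (x3_0 (n5 p810_26))))))],
  [p810_32,
   p810_33,
   p810_34,
   p810_35,
   x7_6 (x7_5 (x7_4 (x3_2 (x3_1 (x3_0 (n6 (n4 p810_33))))))),
   x7_6 (x7_5 (x7_4 (x3_2 (x3_1 (x3_0 (n6 (n4 p810_32))))))),
   x7_6 (x7_5 (x7_4 (x3_2 (x3_1 (x3_0 (n6 (n4 p810_35))))))),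
   x7_6 (x7_5 (x7_4 (x3_2 (x3_1 (x3_0 (n6 (n4 p810_34)))))))],
  [p810_40,
   p810_41,
   p810_42,
   p810_43,
   x7_6 (x7_5 (x7_4 (x3_2 (x3_1 (x3_0 (n6 p810_42)))))),
   x7_6 (x7_5 (x7_4 (x3_2 (x3_1 (x3_0 (n6 p810_43)))))),
   x7_6 (x7_5 (x7_4 (x3_2 (x3_1 (x3_0 (n6 p810_40)))))),
   x7_6 (x7_5 (x7_4 (x3_2 (x3_1 (x3_0 (n6 p810_41))))))],
  [tr p820_13,
   p810_49,
   p810_50,
   tr p822_13,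
   tr p823_13,
   p810_53,
   p810_54,
   tr p825_13],
  [p810_56,
   p810_57,
   x7_6 (x7_5 (x7_4 (x3_2 (x3_1 (x3_0 (n6 (n5 p810_57))))))),
   x7_6 (x7_5 (x7_4 (x3_2 (x3_1 (x3_0 (n6 (n5 p810_56))))))),
   p810_60,
   p810_61,
   x7_6 (x7_5 (x7_4 (x3_2 (x3_1 (x3_0 (n6 (n5 p810_61))))))),
   x7_6 (x7_5 (x7_4 (x3_2 (x3_1 (x3_0 (n6 (n5 p810_60)))))))]]

theorem k810 : eqNN c810 (slO 64 (D.chG 247 13) 8) = true := by decide +kernel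

/-- The slices of the chunk 811. -/
noncomputable def c811 : List (List ℕ) := [
  [p811_0,
   p811_1,
   s5_6 (s1_2 p811_1),
   x7_6 (x7_5 (x7_4 (x3_2 (x3_1 (x3_0 (n4 p811_0)))))),
   p811_4,
   p811_5,
   s5_6 (s1_2 p811_5),
   x7_6 (x7_5 (x7_4 (x3_2 (x3_1 (x3_0 (n4 p811_4))))))],
  [tr p806_15,
   p811_9,
   s5_6 (s1_2 p811_9),
   tr p808_15,
   tr p809_15,
   p811_13,
   s5_6 (s1_2 p811_13),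
   p811_15],
  [p811_16,
   p811_17,
   p811_18,
   p811_19,
   x7_6 (x7_5 (x7_4 (x3_2 (x3_1 (x3_0 (n5 (n4 p811_18))))))),
   x7_6 (x7_5 (x7_4 (x3_2 (x3_1 (x3_0 (n5 (n4 p811_19))))))),
   x7_6 (x7_5 (x7_4 (x3_2 (x3_1 (x3_0 (n5 (n4 p811_16))))))),
   x7_6 (x7_5 (x7_4 (x3_2 (x3_1 (x3_0 (n5 (n4 p811_17)))))))],
  [p811_24,
   p811_25,
   p811_26,
   p811_27,
   x7_6 (x7_5 (x7_4 (x3_2 (x3_1 (x3_0 (n5 p811_25)))))),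
   x7_6 (x7_5 (x7_4 (x3_2 (x3_1 (x3_0 (n5 p811_24)))))),
   x7_6 (x7_5 (x7_4 (x3_2 (x3_1 (x3_0 (n5 p811_27)))))),
   x7_6 (x7_5 (x7_4 (x3_2 (x3_1 (x3_0 (n5 p811_26))))))],
  [s5_6 (s1_2 p811_16),
   s5_6 (s1_2 p811_18),
   s5_6 (s1_2 p811_17),
   s5_6 (s1_2 p811_19),
   x7_6 (x7_5 (x7_4 (s5_6 (x3_2 (x3_1 (x3_0 (s1_2 (n5 (n4 p811_18))))))))),
   x7_6 (x7_5 (x7_4 (s5_6 (x3_2 (x3_1 (x3_0 (s1_2 (n5 (n4 p811_16))))))))),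
   x7_6 (x7_5 (x7_4 (s5_6 (x3_2 (x3_1 (x3_0 (s1_2 (n5 (n4 p811_19))))))))),
   x7_6 (x7_5 (x7_4 (s5_6 (x3_2 (x3_1 (x3_0 (s1_2 (n5 (n4 p811_17)))))))))],
  [s5_6 (s1_2 p811_24),
   s5_6 (s1_2 p811_26),
   s5_6 (s1_2 p811_25),
   s5_6 (s1_2 p811_27),
   x7_6 (x7_5 (x7_4 (s5_6 (x3_2 (x3_1 (x3_0 (s1_2 (n5 p811_25)))))))),
   x7_6 (x7_5 (x7_4 (s5_6 (x3_2 (x3_1 (x3_0 (s1_2 (n5 p811_27)))))))),
   x7_6 (x7_5 (x7_4 (s5_6 (x3_2 (x3_1 (x3_0 (s1_2 (n5 p811_24)))))))),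
   x7_6 (x7_5 (x7_4 (s5_6 (x3_2 (x3_1 (x3_0 (s1_2 (n5 p811_26))))))))],
  [p811_48,
   p811_49,
   s5_6 (s1_2 p811_49),
   p811_51,
   p811_52,
   p811_53,
   s5_6 (s1_2 p811_53),
   p811_55],
  [p811_56,
   p811_57,
   s5_6 (s1_2 p811_57),
   x7_6 (x7_5 (x7_4 (x3_2 (x3_1 (x3_0 (n6 (n5 p811_56))))))),
   p811_60,
   p811_61,
   s5_6 (s1_2 p811_61),
   x7_6 (x7_5 (x7_4 (x3_2 (x3_1 (x3_0 (n6 (n5 p811_60)))))))]]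

theorem k811 : eqNN c811 (slO 64 (D.chG 247 15) 8) = true := by decide +kernel

end Pool.Agent.Lib.MP_afdd4d_co.K10.E6
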