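import Pool.Agent.Lib.MP_afdd4d_co.K10.E6.Dat
import Pool.Agent.Lib.MP_afdd4d_co.K10.E6.Mk
import Pool.Agent.Lib.MP_afdd4d_co.K8.F6Bl5
import Pool.Agent.Lib.MP_afdd4d_co.K10.E6.P0
import Pool.Agent.Lib.MP_afdd4d_co.K10.E6.P1
import Pool.Agent.Lib.MP_afdd4d_co.K10.E6.P2
import Pool.Agent.Lib.MP_afdd4d_co.K10.E6.P3
import Pool.Agent.Lib.MP_afdd4d_co.K10.E6.P4
import Pool.Agent.Lib.MP_afdd4d_co.K10.E6.P5
import Pool.Agent.Lib.MP_afdd4d_co.K10.E6.P6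
import Pool.Agent.Lib.MP_afdd4d_co.K10.E6.P7
import Pool.Agent.Lib.MP_afdd4d_co.K10.E6.P8
import Pool.Agent.Lib.MP_afdd4d_co.K10.E6.P9
import Pool.Agent.Lib.MP_afdd4d_co.K10.E6.P10
import Pool.Agent.Lib.MP_afdd4d_co.K10.E6.P11
import Pool.Agent.Lib.MP_afdd4d_co.K10.E6.P12
import Pool.Agent.Lib.MP_afdd4d_co.K10.E6.P13
import Pool.Agent.Lib.MP_afdd4d_co.K10.E6.P14
import Pool.Agent.Lib.MP_afdd4d_co.K10.E6.P15
import Pool.Agent.Lib.MP_afdd4d_co.K10.E6.P16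
import Pool.Agent.Lib.MP_afdd4d_co.K10.E6.P17
import Pool.Agent.Lib.MP_afdd4d_co.K10.E6.P18
import Pool.Agent.Lib.MP_afdd4d_co.K10.E6.P19
import Pool.Agent.Lib.MP_afdd4d_co.K10.E6.P20
import Pool.Agent.Lib.MP_afdd4d_co.K10.E6.P21
import Pool.Agent.Lib.MP_afdd4d_co.K10.E6.P22
import Pool.Agent.Lib.MP_afdd4d_co.K10.E6.P23
import Pool.Agent.Lib.MP_afdd4d_co.K10.E6.P24
import Pool.Agent.Lib.MP_afdd4d_co.K10.E6.P25
import Pool.Agent.Lib.MP_afdd4d_co.K10.E6.P26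
import Pool.Agent.Lib.MP_afdd4d_co.K10.E6.P27
import Pool.Agent.Lib.MP_afdd4d_co.K10.E6.P28
import Pool.Agent.Lib.MP_afdd4d_co.K10.E6.P29
import Pool.Agent.Lib.MP_afdd4d_co.K10.E6.P30
import Pool.Agent.Lib.MP_afdd4d_co.K10.E6.P31
import Pool.Agent.Lib.MP_afdd4d_co.K10.E6.P32

/-!
# Tables
-/

namespace Pool.Agent.Lib.MP_afdd4d_co.K10.E6

open K8

set_option maxRecDepth 100000
set_option exponentiation.threshold 10000000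

/-- The slices of the chunk 812. -/
noncomputable def c812 : List (List ℕ) := [
  [tr p802_16,
   tr p803_16,
   s3_7 (s2_5 (s1_6 (s0_4 p803_32))),
   x7_6 (x7_5 (x7_4 (x3_2 (x3_1 (x3_0 (tr (n5 (n4 (n0 p802_22))))))))),
   tr p804_16,
   tr p805_16,
   s3_7 (s2_5 (s1_6 (s0_4 p805_32))),
   x7_6 (x7_5 (x7_4 (x3_2 (x3_1 (x3_0 (tr (n5 (n4 (n0 p804_22)))))))))],
  [tr p806_16,
   tr p807_16,
   s3_7 (s2_5 (s1_6 (s0_4 p807_32))),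
   tr p808_16,
   tr p809_16,
   tr p810_16,
   s3_7 (s2_5 (s1_6 (s0_4 p810_32))),
   tr p811_16],
  [p812_16,
   p812_17,
   p812_18,
   p812_19,
   p812_20,
   p812_21,
   p812_22,
   p812_23],
  [p812_24,
   p812_25,
   p812_26,
   p812_27,
   p812_28,
   p812_29,
   p812_30,
   p812_31],
  [p812_32,
   p812_33,
   p812_34,
   p812_35,
   p812_36,
   p812_37,
   p812_38,
   p812_39],
  [p812_40,
   p812_41,
   p812_42,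
   p812_43,
   p812_44,
   p812_45,
   p812_46,
   p812_47],
  [tr p820_16,
   tr p821_16,
   s3_7 (s2_5 (s1_6 (s0_4 p821_32))),
   tr p822_16,
   tr p823_16,
   tr p824_16,
   s3_7 (s2_5 (s1_6 (s0_4 p824_32))),
   tr p825_16],
  [tr p826_16,
   tr p827_16,
   s3_7 (s2_5 (s1_6 (s0_4 p827_32))),
   x7_6 (x7_5 (x7_4 (x3_2 (x3_1 (x3_0 (tr (n5 (n4 (n2 (n1 p826_22)))))))))),
   tr p828_16,
   tr p829_16,
   s3_7 (s2_5 (s1_6 (s0_4 p829_32))),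
   x7_6 (x7_5 (x7_4 (x3_2 (x3_1 (x3_0 (tr (n5 (n4 (n2 (n1 p828_22))))))))))]]

theorem k812 : eqNN c812 (slO 64 (D.chG 247 16) 8) = true := by decide +kernel

/-- The slices of the chunk 813. -/
noncomputable def c813 : List (List ℕ) := [
  [tr p802_17,
   tr p803_17,
   s3_7 (s2_5 (s1_6 (s0_4 p803_34))),
   x7_6 (x7_5 (x7_4 (x3_2 (x3_1 (x3_0 (tr (n5 (n4 (n0 p802_23))))))))),
   tr p804_17,
   tr p805_17,
   s3_7 (s2_5 (s1_6 (s0_4 p805_34))),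
   x7_6 (x7_5 (x7_4 (x3_2 (x3_1 (x3_0 (tr (n5 (n4 (n0 p804_23)))))))))],
  [tr p806_17,
   tr p807_17,
   s3_7 (s2_5 (s1_6 (s0_4 p807_34))),
   tr p808_17,
   tr p809_17,
   tr p810_17,
   s3_7 (s2_5 (s1_6 (s0_4 p810_34))),
   tr p811_17],
  [tr p812_17,
   p813_17,
   p813_18,
   p813_19,
   p813_20,
   p813_21,
   x7_6 (x7_5 (x7_4 (x3_2 (x3_1 (x3_0 (tr (n5 (n4 (n1 (n0 p812_23)))))))))),
   p813_23],
  [p813_24,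
   p813_25,
   p813_26,
   p813_27,
   p813_28,
   p813_29,
   p813_30,
   p813_31],
  [s3_7 (s2_5 (s1_6 (s0_4 p812_34))),
   p813_33,
   p813_34,
   p813_35,
   p813_36,
   x7_6 (x7_5 (x7_4 (x3_2 (x3_1 (x3_0 (s3_7 (s2_5 (s1_6 (s0_4 (n6 (n4 (n1 (n0 p812_39))))))))))))),
   p813_38,
   p813_39],
  [p813_40,
   p813_41,
   p813_42,
   p813_43,
   p813_44,
   p813_45,
   p813_46,
   p813_47],
  [tr p820_17,
   tr p821_17,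
   s3_7 (s2_5 (s1_6 (s0_4 p821_34))),
   tr p822_17,
   tr p823_17,
   tr p824_17,
   s3_7 (s2_5 (s1_6 (s0_4 p824_34))),
   tr p825_17],
  [tr p826_17,
   tr p827_17,
   s3_7 (s2_5 (s1_6 (s0_4 p827_34))),
   x7_6 (x7_5 (x7_4 (x3_2 (x3_1 (x3_0 (tr (n5 (n4 (n2 (n1 p826_23)))))))))),
   tr p828_17,
   tr p829_17,
   s3_7 (s2_5 (s1_6 (s0_4 p829_34))),
   x7_6 (x7_5 (x7_4 (x3_2 (x3_1 (x3_0 (tr (n5 (n4 (n2 (n1 p828_23))))))))))]]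

theorem k813 : eqNN c813 (slO 64 (D.chG 247 17) 8) = true := by decide +kernel

/-- The slices of the chunk 814. -/
noncomputable def c814 : List (List ℕ) := [
  [tr p802_18,
   tr p803_18,
   s3_7 (s2_5 (s1_6 (s0_4 p803_33))),
   x7_6 (x7_5 (x7_4 (x3_2 (x3_1 (x3_0 (tr (n5 (n4 (n0 p802_20))))))))),
   tr p804_18,
   tr p805_18,
   s3_7 (s2_5 (s1_6 (s0_4 p805_33))),
   x7_6 (x7_5 (x7_4 (x3_2 (x3_1 (x3_0 (tr (n5 (n4 (n0 p804_20)))))))))],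
  [tr p806_18,
   tr p807_18,
   s3_7 (s2_5 (s1_6 (s0_4 p807_33))),
   tr p808_18,
   tr p809_18,
   tr p810_18,
   s3_7 (s2_5 (s1_6 (s0_4 p810_33))),
   tr p811_18],
  [tr p812_18,
   tr p813_18,
   p814_18,
   p814_19,
   p814_20,
   p814_21,
   x7_6 (x7_5 (x7_4 (x3_2 (x3_1 (x3_0 (tr (n5 (n4 (n1 (n0 p812_20)))))))))),
   x7_6 (x7_5 (x7_4 (x3_2 (x3_1 (x3_0 (tr (n5 (n4 (n1 (n0 p813_20))))))))))],
  [p814_24,
   p814_25,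
   p814_26,
   p814_27,
   p814_28,
   p814_29,
   p814_30,
   p814_31],
  [s3_7 (s2_5 (s1_6 (s0_4 p812_33))),
   p814_33,
   s3_7 (s2_5 (s1_6 (s0_4 p813_33))),
   p814_35,
   p814_36,
   x7_6 (x7_5 (x7_4 (x3_2 (x3_1 (x3_0 (s3_7 (s2_5 (s1_6 (s0_4 (n6 (n4 (n1 (n0 p812_36))))))))))))),
   p814_38,
   x7_6 (x7_5 (x7_4 (x3_2 (x3_1 (x3_0 (s3_7 (s2_5 (s1_6 (s0_4 (n6 (n4 (n1 (n0 p813_36)))))))))))))],
  [p814_40,
   p814_41,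
   p814_42,
   p814_43,
   p814_44,
   p814_45,
   p814_46,
   p814_47],
  [tr p820_18,
   tr p821_18,
   s3_7 (s2_5 (s1_6 (s0_4 p821_33))),
   tr p822_18,
   tr p823_18,
   tr p824_18,
   s3_7 (s2_5 (s1_6 (s0_4 p824_33))),
   tr p825_18],
  [tr p826_18,
   tr p827_18,
   s3_7 (s2_5 (s1_6 (s0_4 p827_33))),
   x7_6 (x7_5 (x7_4 (x3_2 (x3_1 (x3_0 (tr (n5 (n4 (n2 (n1 p826_20)))))))))),
   tr p828_18,
   tr p829_18,
   s3_7 (s2_5 (s1_6 (s0_4 p829_33))),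
   x7_6 (x7_5 (x7_4 (x3_2 (x3_1 (x3_0 (tr (n5 (n4 (n2 (n1 p828_20))))))))))]]

theorem k814 : eqNN c814 (slO 64 (D.chG 247 18) 8) = true := by decide +kernel

/-- The slices of the chunk 815. -/
noncomputable def c815 : List (List ℕ) := [
  [tr p802_19,
   tr p803_19,
   s3_7 (s2_5 (s1_6 (s0_4 p803_35))),
   x7_6 (x7_5 (x7_4 (x3_2 (x3_1 (x3_0 (tr (n5 (n4 (n0 p802_21))))))))),
   tr p804_19,
   tr p805_19,
   s3_7 (s2_5 (s1_6 (s0_4 p805_35))),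
   x7_6 (x7_5 (x7_4 (x3_2 (x3_1 (x3_0 (tr (n5 (n4 (n0 p804_21)))))))))],
  [tr p806_19,
   tr p807_19,
   s3_7 (s2_5 (s1_6 (s0_4 p807_35))),
   tr p808_19,
   tr p809_19,
   tr p810_19,
   s3_7 (s2_5 (s1_6 (s0_4 p810_35))),
   tr p811_19],
  [tr p812_19,
   tr p813_19,
   tr p814_19,
   p815_19,
   x7_6 (x7_5 (x7_4 (x3_2 (x3_1 (x3_0 (tr (n5 (n4 (n1 (n0 p814_21)))))))))),
   p815_21,
   x7_6 (x7_5 (x7_4 (x3_2 (x3_1 (x3_0 (tr (n5 (n4 (n1 (n0 p812_21)))))))))),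
   x7_6 (x7_5 (x7_4 (x3_2 (x3_1 (x3_0 (tr (n5 (n4 (n1 (n0 p813_21))))))))))],
  [p815_24,
   p815_25,
   p815_26,
   p815_27,
   p815_28,
   p815_29,
   p815_30,
   p815_31],
  [s3_7 (s2_5 (s1_6 (s0_4 p812_35))),
   s3_7 (s2_5 (s1_6 (s0_4 p814_35))),
   s3_7 (s2_5 (s1_6 (s0_4 p813_35))),
   p815_35,
   x7_6 (x7_5 (x7_4 (x3_2 (x3_1 (x3_0 (s3_7 (s2_5 (s1_6 (s0_4 (n6 (n4 (n1 (n0 p814_38))))))))))))),
   x7_6 (x7_5 (x7_4 (x3_2 (x3_1 (x3_0 (s3_7 (s2_5 (s1_6 (s0_4 (n6 (n4 (n1 (n0 p812_38))))))))))))),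
   p815_38,
   x7_6 (x7_5 (x7_4 (x3_2 (x3_1 (x3_0 (s3_7 (s2_5 (s1_6 (s0_4 (n6 (n4 (n1 (n0 p813_38)))))))))))))],
  [p815_40,
   p815_41,
   p815_42,
   p815_43,
   p815_44,
   p815_45,
   p815_46,
   p815_47],
  [tr p820_19,
   tr p821_19,
   s3_7 (s2_5 (s1_6 (s0_4 p821_35))),
   tr p822_19,
   tr p823_19,
   tr p824_19,
   s3_7 (s2_5 (s1_6 (s0_4 p824_35))),
   tr p825_19],
  [tr p826_19,
   tr p827_19,
   s3_7 (s2_5 (s1_6 (s0_4 p827_35))),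
   x7_6 (x7_5 (x7_4 (x3_2 (x3_1 (x3_0 (tr (n5 (n4 (n2 (n1 p826_21)))))))))),
   tr p828_19,
   tr p829_19,
   s3_7 (s2_5 (s1_6 (s0_4 p829_35))),
   x7_6 (x7_5 (x7_4 (x3_2 (x3_1 (x3_0 (tr (n5 (n4 (n2 (n1 p828_21))))))))))]]

theorem k815 : eqNN c815 (slO 64 (D.chG 247 19) 8) = true := by decide +kernel

end Pool.Agent.Lib.MP_afdd4d_co.K10.E6
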