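import Pool.Agent.Lib.MP_afdd4d_co.K10.E6.Dat
import Pool.Agent.Lib.MP_afdd4d_co.K10.E6.Mk
import Pool.Agent.Lib.MP_afdd4d_co.K8.F6Bl5
import Pool.Agent.Lib.MP_afdd4d_co.K10.E6.P0
import Pool.Agent.Lib.MP_afdd4d_co.K10.E6.P1
import Pool.Agent.Lib.MP_afdd4d_co.K10.E6.P2
import Pool.Agent.Lib.MP_afdd4d_co.K10.E6.P3
import Pool.Agent.Lib.MP_afdd4d_co.K10.E6.P4
import Pool.Agent.Lib.MP_afdd4d_co.K10.E6.P5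
import Pool.Agent.Lib.MP_afdd4d_co.K10.E6.P6
import Pool.Agent.Lib.MP_afdd4d_co.K10.E6.P7
import Pool.Agent.Lib.MP_afdd4d_co.K10.E6.P8
import Pool.Agent.Lib.MP_afdd4d_co.K10.E6.P9
import Pool.Agent.Lib.MP_afdd4d_co.K10.E6.P10
import Pool.Agent.Lib.MP_afdd4d_co.K10.E6.P11
import Pool.Agent.Lib.MP_afdd4d_co.K10.E6.P12
import Pool.Agent.Lib.MP_afdd4d_co.K10.E6.P13
import Pool.Agent.Lib.MP_afdd4d_co.K10.E6.P14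
import Pool.Agent.Lib.MP_afdd4d_co.K10.E6.P15
import Pool.Agent.Lib.MP_afdd4d_co.K10.E6.P16
import Pool.Agent.Lib.MP_afdd4d_co.K10.E6.P17
import Pool.Agent.Lib.MP_afdd4d_co.K10.E6.P18
import Pool.Agent.Lib.MP_afdd4d_co.K10.E6.P19
import Pool.Agent.Lib.MP_afdd4d_co.K10.E6.P20
import Pool.Agent.Lib.MP_afdd4d_co.K10.E6.P21
import Pool.Agent.Lib.MP_afdd4d_co.K10.E6.P22
import Pool.Agent.Lib.MP_afdd4d_co.K10.E6.P23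
import Pool.Agent.Lib.MP_afdd4d_co.K10.E6.P24
import Pool.Agent.Lib.MP_afdd4d_co.K10.E6.P25
import Pool.Agent.Lib.MP_afdd4d_co.K10.E6.P26
import Pool.Agent.Lib.MP_afdd4d_co.K10.E6.P27
import Pool.Agent.Lib.MP_afdd4d_co.K10.E6.P28
import Pool.Agent.Lib.MP_afdd4d_co.K10.E6.P29
import Pool.Agent.Lib.MP_afdd4d_co.K10.E6.P30
import Pool.Agent.Lib.MP_afdd4d_co.K10.E6.P31
import Pool.Agent.Lib.MP_afdd4d_co.K10.E6.P32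

/-!
# Tables
-/

namespace Pool.Agent.Lib.MP_afdd4d_co.K10.E6

open K8

set_option maxRecDepth 100000
set_option exponentiation.threshold 10000000

/-- The slices of the chunk 816. -/
noncomputable def c816 : List (List ℕ) := [
  [tr p802_24,
   tr p803_24,
   s3_7 (s2_5 (s1_6 (s0_4 p803_40))),
   x7_6 (x7_5 (x7_4 (x3_2 (x3_1 (x3_0 (tr (n5 (n0 p802_29)))))))),
   tr p804_24,
   tr p805_24,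
   s3_7 (s2_5 (s1_6 (s0_4 p805_40))),
   x7_6 (x7_5 (x7_4 (x3_2 (x3_1 (x3_0 (tr (n5 (n0 p804_29))))))))],
  [tr p806_24,
   tr p807_24,
   s3_7 (s2_5 (s1_6 (s0_4 p807_40))),
   tr p808_24,
   tr p809_24,
   tr p810_24,
   s3_7 (s2_5 (s1_6 (s0_4 p810_40))),
   tr p811_24],
  [tr p812_24,
   tr p813_24,
   tr p814_24,
   tr p815_24,
   x7_6 (x7_5 (x7_4 (x3_2 (x3_1 (x3_0 (tr (n5 (n1 (n0 p814_29))))))))),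
   x7_6 (x7_5 (x7_4 (x3_2 (x3_1 (x3_0 (tr (n5 (n1 (n0 p815_29))))))))),
   x7_6 (x7_5 (x7_4 (x3_2 (x3_1 (x3_0 (tr (n5 (n1 (n0 p812_29))))))))),
   x7_6 (x7_5 (x7_4 (x3_2 (x3_1 (x3_0 (tr (n5 (n1 (n0 p813_29)))))))))],
  [p816_24,
   p816_25,
   p816_26,
   p816_27,
   p816_28,
   p816_29,
   p816_30,
   p816_31],
  [s3_7 (s2_5 (s1_6 (s0_4 p812_40))),
   s3_7 (s2_5 (s1_6 (s0_4 p814_40))),
   s3_7 (s2_5 (s1_6 (s0_4 p813_40))),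
   s3_7 (s2_5 (s1_6 (s0_4 p815_40))),
   x7_6 (x7_5 (x7_4 (x3_2 (x3_1 (x3_0 (s3_7 (s2_5 (s1_6 (s0_4 (n6 (n1 (n0 p814_46)))))))))))),
   x7_6 (x7_5 (x7_4 (x3_2 (x3_1 (x3_0 (s3_7 (s2_5 (s1_6 (s0_4 (n6 (n1 (n0 p812_46)))))))))))),
   x7_6 (x7_5 (x7_4 (x3_2 (x3_1 (x3_0 (s3_7 (s2_5 (s1_6 (s0_4 (n6 (n1 (n0 p815_46)))))))))))),
   x7_6 (x7_5 (x7_4 (x3_2 (x3_1 (x3_0 (s3_7 (s2_5 (s1_6 (s0_4 (n6 (n1 (n0 p813_46))))))))))))],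
  [p816_40,
   p816_41,
   p816_42,
   p816_43,
   p816_44,
   p816_45,
   p816_46,
   p816_47],
  [tr p820_24,
   tr p821_24,
   s3_7 (s2_5 (s1_6 (s0_4 p821_40))),
   tr p822_24,
   tr p823_24,
   tr p824_24,
   s3_7 (s2_5 (s1_6 (s0_4 p824_40))),
   tr p825_24],
  [tr p826_24,
   tr p827_24,
   s3_7 (s2_5 (s1_6 (s0_4 p827_40))),
   x7_6 (x7_5 (x7_4 (x3_2 (x3_1 (x3_0 (tr (n5 (n2 (n1 p826_29))))))))),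
   tr p828_24,
   tr p829_24,
   s3_7 (s2_5 (s1_6 (s0_4 p829_40))),
   x7_6 (x7_5 (x7_4 (x3_2 (x3_1 (x3_0 (tr (n5 (n2 (n1 p828_29)))))))))]]

theorem k816 : eqNN c816 (slO 64 (D.chG 247 24) 8) = true := by decide +kernel

/-- The slices of the chunk 817. -/
noncomputable def c817 : List (List ℕ) := [
  [tr p802_25,
   tr p803_25,
   s3_7 (s2_5 (s1_6 (s0_4 p803_42))),
   x7_6 (x7_5 (x7_4 (x3_2 (x3_1 (x3_0 (tr (n5 (n0 p802_28)))))))),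
   tr p804_25,
   tr p805_25,
   s3_7 (s2_5 (s1_6 (s0_4 p805_42))),
   x7_6 (x7_5 (x7_4 (x3_2 (x3_1 (x3_0 (tr (n5 (n0 p804_28))))))))],
  [tr p806_25,
   tr p807_25,
   s3_7 (s2_5 (s1_6 (s0_4 p807_42))),
   tr p808_25,
   tr p809_25,
   tr p810_25,
   s3_7 (s2_5 (s1_6 (s0_4 p810_42))),
   tr p811_25],
  [tr p812_25,
   tr p813_25,
   tr p814_25,
   tr p815_25,
   x7_6 (x7_5 (x7_4 (x3_2 (x3_1 (x3_0 (tr (n5 (n1 (n0 p814_28))))))))),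
   x7_6 (x7_5 (x7_4 (x3_2 (x3_1 (x3_0 (tr (n5 (n1 (n0 p815_28))))))))),
   x7_6 (x7_5 (x7_4 (x3_2 (x3_1 (x3_0 (tr (n5 (n1 (n0 p812_28))))))))),
   x7_6 (x7_5 (x7_4 (x3_2 (x3_1 (x3_0 (tr (n5 (n1 (n0 p813_28)))))))))],
  [tr p816_25,
   p817_25,
   p817_26,
   p817_27,
   p817_28,
   x7_6 (x7_5 (x7_4 (x3_2 (x3_1 (x3_0 (tr (n5 (n1 p816_28)))))))),
   p817_30,
   p817_31],
  [s3_7 (s2_5 (s1_6 (s0_4 p812_42))),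
   s3_7 (s2_5 (s1_6 (s0_4 p814_42))),
   s3_7 (s2_5 (s1_6 (s0_4 p813_42))),
   s3_7 (s2_5 (s1_6 (s0_4 p815_42))),
   x7_6 (x7_5 (x7_4 (x3_2 (x3_1 (x3_0 (s3_7 (s2_5 (s1_6 (s0_4 (n6 (n1 (n0 p814_44)))))))))))),
   x7_6 (x7_5 (x7_4 (x3_2 (x3_1 (x3_0 (s3_7 (s2_5 (s1_6 (s0_4 (n6 (n1 (n0 p812_44)))))))))))),
   x7_6 (x7_5 (x7_4 (x3_2 (x3_1 (x3_0 (s3_7 (s2_5 (s1_6 (s0_4 (n6 (n1 (n0 p815_44)))))))))))),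
   x7_6 (x7_5 (x7_4 (x3_2 (x3_1 (x3_0 (s3_7 (s2_5 (s1_6 (s0_4 (n6 (n1 (n0 p813_44))))))))))))],
  [s3_7 (s2_5 (s1_6 (s0_4 p816_42))),
   p817_41,
   p817_42,
   p817_43,
   p817_44,
   p817_45,
   x7_6 (x7_5 (x7_4 (x3_2 (x3_1 (x3_0 (s3_7 (s2_5 (s1_6 (s0_4 (n6 (n1 p816_44))))))))))),
   p817_47],
  [tr p820_25,
   tr p821_25,
   s3_7 (s2_5 (s1_6 (s0_4 p821_42))),
   tr p822_25,
   tr p823_25,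
   tr p824_25,
   s3_7 (s2_5 (s1_6 (s0_4 p824_42))),
   tr p825_25],
  [tr p826_25,
   tr p827_25,
   s3_7 (s2_5 (s1_6 (s0_4 p827_42))),
   x7_6 (x7_5 (x7_4 (x3_2 (x3_1 (x3_0 (tr (n5 (n2 (n1 p826_28))))))))),
   tr p828_25,
   tr p829_25,
   s3_7 (s2_5 (s1_6 (s0_4 p829_42))),
   x7_6 (x7_5 (x7_4 (x3_2 (x3_1 (x3_0 (tr (n5 (n2 (n1 p828_28)))))))))]]

theorem k817 : eqNN c817 (slO 64 (D.chG 247 25) 8) = true := by decide +kernel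

/-- The slices of the chunk 818. -/
noncomputable def c818 : List (List ℕ) := [
  [tr p802_26,
   tr p803_26,
   s3_7 (s2_5 (s1_6 (s0_4 p803_41))),
   x7_6 (x7_5 (x7_4 (x3_2 (x3_1 (x3_0 (tr (n5 (n0 p802_31)))))))),
   tr p804_26,
   tr p805_26,
   s3_7 (s2_5 (s1_6 (s0_4 p805_41))),
   x7_6 (x7_5 (x7_4 (x3_2 (x3_1 (x3_0 (tr (n5 (n0 p804_31))))))))],
  [tr p806_26,
   tr p807_26,
   s3_7 (s2_5 (s1_6 (s0_4 p807_41))),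
   tr p808_26,
   tr p809_26,
   tr p810_26,
   s3_7 (s2_5 (s1_6 (s0_4 p810_41))),
   tr p811_26],
  [tr p812_26,
   tr p813_26,
   tr p814_26,
   tr p815_26,
   x7_6 (x7_5 (x7_4 (x3_2 (x3_1 (x3_0 (tr (n5 (n1 (n0 p814_31))))))))),
   x7_6 (x7_5 (x7_4 (x3_2 (x3_1 (x3_0 (tr (n5 (n1 (n0 p815_31))))))))),
   x7_6 (x7_5 (x7_4 (x3_2 (x3_1 (x3_0 (tr (n5 (n1 (n0 p812_31))))))))),
   x7_6 (x7_5 (x7_4 (x3_2 (x3_1 (x3_0 (tr (n5 (n1 (n0 p813_31)))))))))],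
  [tr p816_26,
   tr p817_26,
   p818_26,
   p818_27,
   x7_6 (x7_5 (x7_4 (x3_2 (x3_1 (x3_0 (tr (n5 (n1 p817_31)))))))),
   x7_6 (x7_5 (x7_4 (x3_2 (x3_1 (x3_0 (tr (n5 (n1 p816_31)))))))),
   p818_30,
   p818_31],
  [s3_7 (s2_5 (s1_6 (s0_4 p812_41))),
   s3_7 (s2_5 (s1_6 (s0_4 p814_41))),
   s3_7 (s2_5 (s1_6 (s0_4 p813_41))),
   s3_7 (s2_5 (s1_6 (s0_4 p815_41))),
   x7_6 (x7_5 (x7_4 (x3_2 (x3_1 (x3_0 (s3_7 (s2_5 (s1_6 (s0_4 (n6 (n1 (n0 p814_47)))))))))))),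
   x7_6 (x7_5 (x7_4 (x3_2 (x3_1 (x3_0 (s3_7 (s2_5 (s1_6 (s0_4 (n6 (n1 (n0 p812_47)))))))))))),
   x7_6 (x7_5 (x7_4 (x3_2 (x3_1 (x3_0 (s3_7 (s2_5 (s1_6 (s0_4 (n6 (n1 (n0 p815_47)))))))))))),
   x7_6 (x7_5 (x7_4 (x3_2 (x3_1 (x3_0 (s3_7 (s2_5 (s1_6 (s0_4 (n6 (n1 (n0 p813_47))))))))))))],
  [s3_7 (s2_5 (s1_6 (s0_4 p816_41))),
   p818_41,
   s3_7 (s2_5 (s1_6 (s0_4 p817_41))),
   p818_43,
   x7_6 (x7_5 (x7_4 (x3_2 (x3_1 (x3_0 (s3_7 (s2_5 (s1_6 (s0_4 (n6 (n1 p817_47))))))))))),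
   p818_45,
   x7_6 (x7_5 (x7_4 (x3_2 (x3_1 (x3_0 (s3_7 (s2_5 (s1_6 (s0_4 (n6 (n1 p816_47))))))))))),
   p818_47],
  [tr p820_26,
   tr p821_26,
   s3_7 (s2_5 (s1_6 (s0_4 p821_41))),
   tr p822_26,
   tr p823_26,
   tr p824_26,
   s3_7 (s2_5 (s1_6 (s0_4 p824_41))),
   tr p825_26],
  [tr p826_26,
   tr p827_26,
   s3_7 (s2_5 (s1_6 (s0_4 p827_41))),
   x7_6 (x7_5 (x7_4 (x3_2 (x3_1 (x3_0 (tr (n5 (n2 (n1 p826_31))))))))),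
   tr p828_26,
   tr p829_26,
   s3_7 (s2_5 (s1_6 (s0_4 p829_41))),
   x7_6 (x7_5 (x7_4 (x3_2 (x3_1 (x3_0 (tr (n5 (n2 (n1 p828_31)))))))))]]

theorem k818 : eqNN c818 (slO 64 (D.chG 247 26) 8) = true := by decide +kernel

/-- The slices of the chunk 819. -/
noncomputable def c819 : List (List ℕ) := [
  [tr p802_27,
   tr p803_27,
   s3_7 (s2_5 (s1_6 (s0_4 p803_43))),
   x7_6 (x7_5 (x7_4 (x3_2 (x3_1 (x3_0 (tr (n5 (n0 p802_30)))))))),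
   tr p804_27,
   tr p805_27,
   s3_7 (s2_5 (s1_6 (s0_4 p805_43))),
   x7_6 (x7_5 (x7_4 (x3_2 (x3_1 (x3_0 (tr (n5 (n0 p804_30))))))))],
  [tr p806_27,
   tr p807_27,
   s3_7 (s2_5 (s1_6 (s0_4 p807_43))),
   tr p808_27,
   tr p809_27,
   tr p810_27,
   s3_7 (s2_5 (s1_6 (s0_4 p810_43))),
   tr p811_27],
  [tr p812_27,
   tr p813_27,
   tr p814_27,
   tr p815_27,
   x7_6 (x7_5 (x7_4 (x3_2 (x3_1 (x3_0 (tr (n5 (n1 (n0 p814_30))))))))),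
   x7_6 (x7_5 (x7_4 (x3_2 (x3_1 (x3_0 (tr (n5 (n1 (n0 p815_30))))))))),
   x7_6 (x7_5 (x7_4 (x3_2 (x3_1 (x3_0 (tr (n5 (n1 (n0 p812_30))))))))),
   x7_6 (x7_5 (x7_4 (x3_2 (x3_1 (x3_0 (tr (n5 (n1 (n0 p813_30)))))))))],
  [tr p816_27,
   tr p817_27,
   tr p818_27,
   p819_27,
   x7_6 (x7_5 (x7_4 (x3_2 (x3_1 (x3_0 (tr (n5 (n1 p817_30)))))))),
   x7_6 (x7_5 (x7_4 (x3_2 (x3_1 (x3_0 (tr (n5 (n1 p816_30)))))))),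
   p819_30,
   x7_6 (x7_5 (x7_4 (x3_2 (x3_1 (x3_0 (tr (n5 (n1 p818_30))))))))],
  [s3_7 (s2_5 (s1_6 (s0_4 p812_43))),
   s3_7 (s2_5 (s1_6 (s0_4 p814_43))),
   s3_7 (s2_5 (s1_6 (s0_4 p813_43))),
   s3_7 (s2_5 (s1_6 (s0_4 p815_43))),
   x7_6 (x7_5 (x7_4 (x3_2 (x3_1 (x3_0 (s3_7 (s2_5 (s1_6 (s0_4 (n6 (n1 (n0 p814_45)))))))))))),
   x7_6 (x7_5 (x7_4 (x3_2 (x3_1 (x3_0 (s3_7 (s2_5 (s1_6 (s0_4 (n6 (n1 (n0 p812_45)))))))))))),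
   x7_6 (x7_5 (x7_4 (x3_2 (x3_1 (x3_0 (s3_7 (s2_5 (s1_6 (s0_4 (n6 (n1 (n0 p815_45)))))))))))),
   x7_6 (x7_5 (x7_4 (x3_2 (x3_1 (x3_0 (s3_7 (s2_5 (s1_6 (s0_4 (n6 (n1 (n0 p813_45))))))))))))],
  [s3_7 (s2_5 (s1_6 (s0_4 p816_43))),
   s3_7 (s2_5 (s1_6 (s0_4 p818_43))),
   s3_7 (s2_5 (s1_6 (s0_4 p817_43))),
   p819_43,
   x7_6 (x7_5 (x7_4 (x3_2 (x3_1 (x3_0 (s3_7 (s2_5 (s1_6 (s0_4 (n6 (n1 p817_45))))))))))),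
   p819_45,
   x7_6 (x7_5 (x7_4 (x3_2 (x3_1 (x3_0 (s3_7 (s2_5 (s1_6 (s0_4 (n6 (n1 p816_45))))))))))),
   x7_6 (x7_5 (x7_4 (x3_2 (x3_1 (x3_0 (s3_7 (s2_5 (s1_6 (s0_4 (n6 (n1 p818_45)))))))))))],
  [tr p820_27,
   tr p821_27,
   s3_7 (s2_5 (s1_6 (s0_4 p821_43))),
   tr p822_27,
   tr p823_27,
   tr p824_27,
   s3_7 (s2_5 (s1_6 (s0_4 p824_43))),
   tr p825_27],
  [tr p826_27,
   tr p827_27,
   s3_7 (s2_5 (s1_6 (s0_4 p827_43))),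
   x7_6 (x7_5 (x7_4 (x3_2 (x3_1 (x3_0 (tr (n5 (n2 (n1 p826_30))))))))),
   tr p828_27,
   tr p829_27,
   s3_7 (s2_5 (s1_6 (s0_4 p829_43))),
   x7_6 (x7_5 (x7_4 (x3_2 (x3_1 (x3_0 (tr (n5 (n2 (n1 p828_30)))))))))]]

theorem k819 : eqNN c819 (slO 64 (D.chG 247 27) 8) = true := by decide +kernel

end Pool.Agent.Lib.MP_afdd4d_co.K10.E6
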