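import Pool.Agent.Lib.MP_afdd4d_co.K10.E6.Dat
import Pool.Agent.Lib.MP_afdd4d_co.K10.E6.Mk
import Pool.Agent.Lib.MP_afdd4d_co.K8.F6Bl5
import Pool.Agent.Lib.MP_afdd4d_co.K10.E6.P0
import Pool.Agent.Lib.MP_afdd4d_co.K10.E6.P1
import Pool.Agent.Lib.MP_afdd4d_co.K10.E6.P2
import Pool.Agent.Lib.MP_afdd4d_co.K10.E6.P3
import Pool.Agent.Lib.MP_afdd4d_co.K10.E6.P4
import Pool.Agent.Lib.MP_afdd4d_co.K10.E6.P5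
import Pool.Agent.Lib.MP_afdd4d_co.K10.E6.P6
import Pool.Agent.Lib.MP_afdd4d_co.K10.E6.P7
import Pool.Agent.Lib.MP_afdd4d_co.K10.E6.P8
import Pool.Agent.Lib.MP_afdd4d_co.K10.E6.P9
import Pool.Agent.Lib.MP_afdd4d_co.K10.E6.P10
import Pool.Agent.Lib.MP_afdd4d_co.K10.E6.P11
import Pool.Agent.Lib.MP_afdd4d_co.K10.E6.P12
import Pool.Agent.Lib.MP_afdd4d_co.K10.E6.P13
import Pool.Agent.Lib.MP_afdd4d_co.K10.E6.P14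
import Pool.Agent.Lib.MP_afdd4d_co.K10.E6.P15
import Pool.Agent.Lib.MP_afdd4d_co.K10.E6.P16
import Pool.Agent.Lib.MP_afdd4d_co.K10.E6.P17
import Pool.Agent.Lib.MP_afdd4d_co.K10.E6.P18
import Pool.Agent.Lib.MP_afdd4d_co.K10.E6.P19
import Pool.Agent.Lib.MP_afdd4d_co.K10.E6.P20
import Pool.Agent.Lib.MP_afdd4d_co.K10.E6.P21
import Pool.Agent.Lib.MP_afdd4d_co.K10.E6.P22
import Pool.Agent.Lib.MP_afdd4d_co.K10.E6.P23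
import Pool.Agent.Lib.MP_afdd4d_co.K10.E6.P24
import Pool.Agent.Lib.MP_afdd4d_co.K10.E6.P25
import Pool.Agent.Lib.MP_afdd4d_co.K10.E6.P26
import Pool.Agent.Lib.MP_afdd4d_co.K10.E6.P27
import Pool.Agent.Lib.MP_afdd4d_co.K10.E6.P28
import Pool.Agent.Lib.MP_afdd4d_co.K10.E6.P29
import Pool.Agent.Lib.MP_afdd4d_co.K10.E6.P30
import Pool.Agent.Lib.MP_afdd4d_co.K10.E6.P31
import Pool.Agent.Lib.MP_afdd4d_co.K10.E6.P32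

/-!
# Tables
-/

namespace Pool.Agent.Lib.MP_afdd4d_co.K10.E6

open K8

set_option maxRecDepth 100000
set_option exponentiation.threshold 10000000

/-- The slices of the chunk 824. -/
noncomputable def c824 : List (List ℕ) := [
  [p824_0,
   p824_1,
   x7_6 (x7_5 (x7_4 (x3_2 (x3_1 (x3_0 (n4 (n2 (n1 (n0 p824_1))))))))),
   x7_6 (x7_5 (x7_4 (x3_2 (x3_1 (x3_0 (n4 (n2 (n1 (n0 p824_0))))))))),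
   p824_4,
   p824_5,
   x7_6 (x7_5 (x7_4 (x3_2 (x3_1 (x3_0 (n4 (n2 (n1 (n0 p824_5))))))))),
   x7_6 (x7_5 (x7_4 (x3_2 (x3_1 (x3_0 (n4 (n2 (n1 (n0 p824_4)))))))))],
  [tr p806_53,
   tr p807_53,
   s3_7 (s2_5 (s1_6 (s0_4 p807_54))),
   tr p808_53,
   tr p809_53,
   tr p810_53,
   s3_7 (s2_5 (s1_6 (s0_4 p810_54))),
   tr p811_53],
  [p824_16,
   p824_17,
   p824_18,
   p824_19,
   x7_6 (x7_5 (x7_4 (x3_2 (x3_1 (x3_0 (n5 (n4 (n2 (n1 (n0 p824_18)))))))))),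
   x7_6 (x7_5 (x7_4 (x3_2 (x3_1 (x3_0 (n5 (n4 (n2 (n1 (n0 p824_19)))))))))),
   x7_6 (x7_5 (x7_4 (x3_2 (x3_1 (x3_0 (n5 (n4 (n2 (n1 (n0 p824_16)))))))))),
   x7_6 (x7_5 (x7_4 (x3_2 (x3_1 (x3_0 (n5 (n4 (n2 (n1 (n0 p824_17))))))))))],
  [p824_24,
   p824_25,
   p824_26,
   p824_27,
   x7_6 (x7_5 (x7_4 (x3_2 (x3_1 (x3_0 (n5 (n2 (n1 (n0 p824_25))))))))),
   x7_6 (x7_5 (x7_4 (x3_2 (x3_1 (x3_0 (n5 (n2 (n1 (n0 p824_24))))))))),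
   x7_6 (x7_5 (x7_4 (x3_2 (x3_1 (x3_0 (n5 (n2 (n1 (n0 p824_27))))))))),
   x7_6 (x7_5 (x7_4 (x3_2 (x3_1 (x3_0 (n5 (n2 (n1 (n0 p824_26)))))))))],
  [p824_32,
   p824_33,
   p824_34,
   p824_35,
   x7_6 (x7_5 (x7_4 (x3_2 (x3_1 (x3_0 (n6 (n4 (n2 (n1 (n0 p824_33)))))))))),
   x7_6 (x7_5 (x7_4 (x3_2 (x3_1 (x3_0 (n6 (n4 (n2 (n1 (n0 p824_32)))))))))),
   x7_6 (x7_5 (x7_4 (x3_2 (x3_1 (x3_0 (n6 (n4 (n2 (n1 (n0 p824_35)))))))))),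
   x7_6 (x7_5 (x7_4 (x3_2 (x3_1 (x3_0 (n6 (n4 (n2 (n1 (n0 p824_34))))))))))],
  [p824_40,
   p824_41,
   p824_42,
   p824_43,
   x7_6 (x7_5 (x7_4 (x3_2 (x3_1 (x3_0 (n6 (n2 (n1 (n0 p824_42))))))))),
   x7_6 (x7_5 (x7_4 (x3_2 (x3_1 (x3_0 (n6 (n2 (n1 (n0 p824_43))))))))),
   x7_6 (x7_5 (x7_4 (x3_2 (x3_1 (x3_0 (n6 (n2 (n1 (n0 p824_40))))))))),
   x7_6 (x7_5 (x7_4 (x3_2 (x3_1 (x3_0 (n6 (n2 (n1 (n0 p824_41)))))))))],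
  [tr p820_53,
   tr p821_53,
   s3_7 (s2_5 (s1_6 (s0_4 p821_54))),
   tr p822_53,
   tr p823_53,
   p824_53,
   p824_54,
   tr p825_53],
  [p824_56,
   p824_57,
   x7_6 (x7_5 (x7_4 (x3_2 (x3_1 (x3_0 (n6 (n5 (n2 (n1 (n0 p824_57)))))))))),
   x7_6 (x7_5 (x7_4 (x3_2 (x3_1 (x3_0 (n6 (n5 (n2 (n1 (n0 p824_56)))))))))),
   p824_60,
   p824_61,
   x7_6 (x7_5 (x7_4 (x3_2 (x3_1 (x3_0 (n6 (n5 (n2 (n1 (n0 p824_61)))))))))),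
   x7_6 (x7_5 (x7_4 (x3_2 (x3_1 (x3_0 (n6 (n5 (n2 (n1 (n0 p824_60))))))))))]]

theorem k824 : eqNN c824 (slO 64 (D.chG 247 53) 8) = true := by decide +kernel

/-- The slices of the chunk 825. -/
noncomputable def c825 : List (List ℕ) := [
  [p825_0,
   p825_1,
   s5_6 (s1_2 p825_1),
   x7_6 (x7_5 (x7_4 (x3_2 (x3_1 (x3_0 (n4 (n2 (n1 (n0 p825_0))))))))),
   p825_4,
   p825_5,
   s5_6 (s1_2 p825_5),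
   x7_6 (x7_5 (x7_4 (x3_2 (x3_1 (x3_0 (n4 (n2 (n1 (n0 p825_4)))))))))],
  [tr p806_55,
   p825_9,
   s5_6 (s1_2 p825_9),
   tr p808_55,
   tr p809_55,
   p825_13,
   s5_6 (s1_2 p825_13),
   tr p811_55],
  [p825_16,
   p825_17,
   p825_18,
   p825_19,
   x7_6 (x7_5 (x7_4 (x3_2 (x3_1 (x3_0 (n5 (n4 (n2 (n1 (n0 p825_18)))))))))),
   x7_6 (x7_5 (x7_4 (x3_2 (x3_1 (x3_0 (n5 (n4 (n2 (n1 (n0 p825_19)))))))))),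
   x7_6 (x7_5 (x7_4 (x3_2 (x3_1 (x3_0 (n5 (n4 (n2 (n1 (n0 p825_16)))))))))),
   x7_6 (x7_5 (x7_4 (x3_2 (x3_1 (x3_0 (n5 (n4 (n2 (n1 (n0 p825_17))))))))))],
  [p825_24,
   p825_25,
   p825_26,
   p825_27,
   x7_6 (x7_5 (x7_4 (x3_2 (x3_1 (x3_0 (n5 (n2 (n1 (n0 p825_25))))))))),
   x7_6 (x7_5 (x7_4 (x3_2 (x3_1 (x3_0 (n5 (n2 (n1 (n0 p825_24))))))))),
   x7_6 (x7_5 (x7_4 (x3_2 (x3_1 (x3_0 (n5 (n2 (n1 (n0 p825_27))))))))),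
   x7_6 (x7_5 (x7_4 (x3_2 (x3_1 (x3_0 (n5 (n2 (n1 (n0 p825_26)))))))))],
  [s5_6 (s1_2 p825_16),
   s5_6 (s1_2 p825_18),
   s5_6 (s1_2 p825_17),
   s5_6 (s1_2 p825_19),
   x7_6 (x7_5 (x7_4 (s5_6 (x3_2 (x3_1 (x3_0 (s1_2 (n5 (n4 (n2 (n1 (n0 p825_18)))))))))))),
   x7_6 (x7_5 (x7_4 (s5_6 (x3_2 (x3_1 (x3_0 (s1_2 (n5 (n4 (n2 (n1 (n0 p825_16)))))))))))),
   x7_6 (x7_5 (x7_4 (s5_6 (x3_2 (x3_1 (x3_0 (s1_2 (n5 (n4 (n2 (n1 (n0 p825_19)))))))))))),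
   x7_6 (x7_5 (x7_4 (s5_6 (x3_2 (x3_1 (x3_0 (s1_2 (n5 (n4 (n2 (n1 (n0 p825_17))))))))))))],
  [s5_6 (s1_2 p825_24),
   s5_6 (s1_2 p825_26),
   s5_6 (s1_2 p825_25),
   s5_6 (s1_2 p825_27),
   x7_6 (x7_5 (x7_4 (s5_6 (x3_2 (x3_1 (x3_0 (s1_2 (n5 (n2 (n1 (n0 p825_25))))))))))),
   x7_6 (x7_5 (x7_4 (s5_6 (x3_2 (x3_1 (x3_0 (s1_2 (n5 (n2 (n1 (n0 p825_27))))))))))),
   x7_6 (x7_5 (x7_4 (s5_6 (x3_2 (x3_1 (x3_0 (s1_2 (n5 (n2 (n1 (n0 p825_24))))))))))),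
   x7_6 (x7_5 (x7_4 (s5_6 (x3_2 (x3_1 (x3_0 (s1_2 (n5 (n2 (n1 (n0 p825_26)))))))))))],
  [tr p820_55,
   p825_49,
   s5_6 (s1_2 p825_49),
   tr p822_55,
   tr p823_55,
   p825_53,
   s5_6 (s1_2 p825_53),
   p825_55],
  [p825_56,
   p825_57,
   s5_6 (s1_2 p825_57),
   x7_6 (x7_5 (x7_4 (x3_2 (x3_1 (x3_0 (n6 (n5 (n2 (n1 (n0 p825_56)))))))))),
   p825_60,
   p825_61,
   s5_6 (s1_2 p825_61),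
   x7_6 (x7_5 (x7_4 (x3_2 (x3_1 (x3_0 (n6 (n5 (n2 (n1 (n0 p825_60))))))))))]]

theorem k825 : eqNN c825 (slO 64 (D.chG 247 55) 8) = true := by decide +kernel

/-- The slices of the chunk 826. -/
noncomputable def c826 : List (List ℕ) := [
  [tr p802_56,
   tr p803_56,
   s3_7 (s2_5 (s1_6 (s0_4 p803_56))),
   x7_6 (x7_5 (x7_4 (x3_2 (x3_1 (x3_0 (tr (n6 (n5 (n0 p802_59))))))))),
   tr p804_56,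
   tr p805_56,
   s3_7 (s2_5 (s1_6 (s0_4 p805_56))),
   x7_6 (x7_5 (x7_4 (x3_2 (x3_1 (x3_0 (tr (n6 (n5 (n0 p804_59)))))))))],
  [tr p806_56,
   tr p807_56,
   s3_7 (s2_5 (s1_6 (s0_4 p807_56))),
   tr p808_56,
   tr p809_56,
   tr p810_56,
   s3_7 (s2_5 (s1_6 (s0_4 p810_56))),
   tr p811_56],
  [p826_16,
   p826_17,
   p826_18,
   p826_19,
   p826_20,
   p826_21,
   p826_22,
   p826_23],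
  [p826_24,
   p826_25,
   p826_26,
   p826_27,
   p826_28,
   p826_29,
   p826_30,
   p826_31],
  [s5_6 (s1_2 p826_16),
   s5_6 (s1_2 p826_18),
   s5_6 (s1_2 p826_17),
   s5_6 (s1_2 p826_19),
   s5_6 (s1_2 p826_20),
   s5_6 (s1_2 p826_22),
   s5_6 (s1_2 p826_21),
   s5_6 (s1_2 p826_23)],
  [s5_6 (s1_2 p826_24),
   s5_6 (s1_2 p826_26),
   s5_6 (s1_2 p826_25),
   s5_6 (s1_2 p826_27),
   s5_6 (s1_2 p826_28),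
   s5_6 (s1_2 p826_30),
   s5_6 (s1_2 p826_29),
   s5_6 (s1_2 p826_31)],
  [tr p820_56,
   tr p821_56,
   s3_7 (s2_5 (s1_6 (s0_4 p821_56))),
   tr p822_56,
   tr p823_56,
   tr p824_56,
   s3_7 (s2_5 (s1_6 (s0_4 p824_56))),
   tr p825_56],
  [p826_56,
   p826_57,
   s5_6 (s1_2 p826_57),
   p826_59,
   p826_60,
   p826_61,
   s5_6 (s1_2 p826_61),
   p826_63]]

theorem k826 : eqNN c826 (slO 64 (D.chG 247 56) 8) = true := by decide +kernel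

/-- The slices of the chunk 827. -/
noncomputable def c827 : List (List ℕ) := [
  [tr p802_57,
   tr p803_57,
   s3_7 (s2_5 (s1_6 (s0_4 p803_58))),
   x7_6 (x7_5 (x7_4 (x3_2 (x3_1 (x3_0 (s3_7 (s2_5 (s1_6 (s0_4 (n6 (n5 (n0 p802_57)))))))))))),
   tr p804_57,
   tr p805_57,
   s3_7 (s2_5 (s1_6 (s0_4 p805_58))),
   x7_6 (x7_5 (x7_4 (x3_2 (x3_1 (x3_0 (s3_7 (s2_5 (s1_6 (s0_4 (n6 (n5 (n0 p804_57))))))))))))],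
  [tr p806_57,
   tr p807_57,
   x7_6 (x7_5 (x7_4 (x3_2 (x3_1 (x3_0 (s3_7 (s2_5 (s1_6 (s0_4 (n6 (n5 p807_57))))))))))),
   tr p808_57,
   tr p809_57,
   tr p810_57,
   x7_6 (x7_5 (x7_4 (x3_2 (x3_1 (x3_0 (s3_7 (s2_5 (s1_6 (s0_4 (n6 (n5 p810_57))))))))))),
   tr p811_57],
  [p827_16,
   p827_17,
   p827_18,
   p827_19,
   x7_6 (x7_5 (x7_4 (s5_6 (x3_2 (x3_1 (x3_0 (s1_2 (n6 (n4 (n2 (n1 p827_33))))))))))),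
   x7_6 (x7_5 (x7_4 (s5_6 (x3_2 (x3_1 (x3_0 (s1_2 (n6 (n4 (n2 (n1 p827_35))))))))))),
   x7_6 (x7_5 (x7_4 (s5_6 (x3_2 (x3_1 (x3_0 (s1_2 (n6 (n4 (n2 (n1 p827_32))))))))))),
   x7_6 (x7_5 (x7_4 (s5_6 (x3_2 (x3_1 (x3_0 (s1_2 (n6 (n4 (n2 (n1 p827_34)))))))))))],
  [p827_24,
   p827_25,
   p827_26,
   p827_27,
   x7_6 (x7_5 (x7_4 (s5_6 (x3_2 (x3_1 (x3_0 (s1_2 (n6 (n2 (n1 p827_42)))))))))),
   x7_6 (x7_5 (x7_4 (s5_6 (x3_2 (x3_1 (x3_0 (s1_2 (n6 (n2 (n1 p827_40)))))))))),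
   x7_6 (x7_5 (x7_4 (s5_6 (x3_2 (x3_1 (x3_0 (s1_2 (n6 (n2 (n1 p827_43)))))))))),
   x7_6 (x7_5 (x7_4 (s5_6 (x3_2 (x3_1 (x3_0 (s1_2 (n6 (n2 (n1 p827_41))))))))))],
  [p827_32,
   p827_33,
   p827_34,
   p827_35,
   x7_6 (x7_5 (x7_4 (s5_6 (x3_2 (x3_1 (x3_0 (s1_2 (n5 (n4 (n2 (n1 p827_18))))))))))),
   x7_6 (x7_5 (x7_4 (s5_6 (x3_2 (x3_1 (x3_0 (s1_2 (n5 (n4 (n2 (n1 p827_16))))))))))),
   x7_6 (x7_5 (x7_4 (s5_6 (x3_2 (x3_1 (x3_0 (s1_2 (n5 (n4 (n2 (n1 p827_19))))))))))),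
   x7_6 (x7_5 (x7_4 (s5_6 (x3_2 (x3_1 (x3_0 (s1_2 (n5 (n4 (n2 (n1 p827_17)))))))))))],
  [p827_40,
   p827_41,
   p827_42,
   p827_43,
   x7_6 (x7_5 (x7_4 (s5_6 (x3_2 (x3_1 (x3_0 (s1_2 (n5 (n2 (n1 p827_25)))))))))),
   x7_6 (x7_5 (x7_4 (s5_6 (x3_2 (x3_1 (x3_0 (s1_2 (n5 (n2 (n1 p827_27)))))))))),
   x7_6 (x7_5 (x7_4 (s5_6 (x3_2 (x3_1 (x3_0 (s1_2 (n5 (n2 (n1 p827_24)))))))))),
   x7_6 (x7_5 (x7_4 (s5_6 (x3_2 (x3_1 (x3_0 (s1_2 (n5 (n2 (n1 p827_26))))))))))],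
  [tr p820_57,
   tr p821_57,
   x7_6 (x7_5 (x7_4 (x3_2 (x3_1 (x3_0 (s3_7 (s2_5 (s1_6 (s0_4 (n6 (n5 (n2 (n1 (n0 p821_57)))))))))))))),
   tr p822_57,
   tr p823_57,
   tr p824_57,
   x7_6 (x7_5 (x7_4 (x3_2 (x3_1 (x3_0 (s3_7 (s2_5 (s1_6 (s0_4 (n6 (n5 (n2 (n1 (n0 p824_57)))))))))))))),
   tr p825_57],
  [tr p826_57,
   p827_57,
   p827_58,
   x7_6 (x7_5 (x7_4 (x3_2 (x3_1 (x3_0 (s3_7 (s2_5 (s1_6 (s0_4 (n6 (n5 (n2 (n1 p826_57))))))))))))),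
   p827_60,
   p827_61,
   p827_62,
   x7_6 (x7_5 (x7_4 (s5_6 (x3_2 (x3_1 (x3_0 (s1_2 (n6 (n5 (n2 (n1 p827_60)))))))))))]]

theorem k827 : eqNN c827 (slO 64 (D.chG 247 57) 8) = true := by decide +kernel

end Pool.Agent.Lib.MP_afdd4d_co.K10.E6
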