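import Pool.Agent.Lib.MP_afdd4d_co.K10.E6.Dat
import Pool.Agent.Lib.MP_afdd4d_co.K10.E6.Mk
import Pool.Agent.Lib.MP_afdd4d_co.K8.F6Bl5
import Pool.Agent.Lib.MP_afdd4d_co.K10.E6.P0
import Pool.Agent.Lib.MP_afdd4d_co.K10.E6.P1
import Pool.Agent.Lib.MP_afdd4d_co.K10.E6.P2
import Pool.Agent.Lib.MP_afdd4d_co.K10.E6.P3
import Pool.Agent.Lib.MP_afdd4d_co.K10.E6.P4
import Pool.Agent.Lib.MP_afdd4d_co.K10.E6.P5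
import Pool.Agent.Lib.MP_afdd4d_co.K10.E6.P6
import Pool.Agent.Lib.MP_afdd4d_co.K10.E6.P7
import Pool.Agent.Lib.MP_afdd4d_co.K10.E6.P8
import Pool.Agent.Lib.MP_afdd4d_co.K10.E6.P9
import Pool.Agent.Lib.MP_afdd4d_co.K10.E6.P10
import Pool.Agent.Lib.MP_afdd4d_co.K10.E6.P11
import Pool.Agent.Lib.MP_afdd4d_co.K10.E6.P12
import Pool.Agent.Lib.MP_afdd4d_co.K10.E6.P13
import Pool.Agent.Lib.MP_afdd4d_co.K10.E6.P14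
import Pool.Agent.Lib.MP_afdd4d_co.K10.E6.P15
import Pool.Agent.Lib.MP_afdd4d_co.K10.E6.P16
import Pool.Agent.Lib.MP_afdd4d_co.K10.E6.P17
import Pool.Agent.Lib.MP_afdd4d_co.K10.E6.P18
import Pool.Agent.Lib.MP_afdd4d_co.K10.E6.P19
import Pool.Agent.Lib.MP_afdd4d_co.K10.E6.P20
import Pool.Agent.Lib.MP_afdd4d_co.K10.E6.P21
import Pool.Agent.Lib.MP_afdd4d_co.K10.E6.P22
import Pool.Agent.Lib.MP_afdd4d_co.K10.E6.P23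
import Pool.Agent.Lib.MP_afdd4d_co.K10.E6.P24
import Pool.Agent.Lib.MP_afdd4d_co.K10.E6.P25
import Pool.Agent.Lib.MP_afdd4d_co.K10.E6.P26
import Pool.Agent.Lib.MP_afdd4d_co.K10.E6.P27
import Pool.Agent.Lib.MP_afdd4d_co.K10.E6.P28
import Pool.Agent.Lib.MP_afdd4d_co.K10.E6.P29
import Pool.Agent.Lib.MP_afdd4d_co.K10.E6.P30
import Pool.Agent.Lib.MP_afdd4d_co.K10.E6.P31
import Pool.Agent.Lib.MP_afdd4d_co.K10.E6.P32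

/-!
# Tables
-/

namespace Pool.Agent.Lib.MP_afdd4d_co.K10.E6

open K8

set_option maxRecDepth 100000
set_option exponentiation.threshold 10000000

/-- The slices of the chunk 828. -/
noncomputable def c828 : List (List ℕ) := [
  [tr p802_60,
   tr p803_60,
   s3_7 (s2_5 (s1_6 (s0_4 p803_60))),
   x7_6 (x7_5 (x7_4 (x3_2 (x3_1 (x3_0 (tr (n6 (n5 (n0 p802_63))))))))),
   tr p804_60,
   tr p805_60,
   s3_7 (s2_5 (s1_6 (s0_4 p805_60))),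
   x7_6 (x7_5 (x7_4 (x3_2 (x3_1 (x3_0 (tr (n6 (n5 (n0 p804_63)))))))))],
  [tr p806_60,
   tr p807_60,
   s3_7 (s2_5 (s1_6 (s0_4 p807_60))),
   tr p808_60,
   tr p809_60,
   tr p810_60,
   s3_7 (s2_5 (s1_6 (s0_4 p810_60))),
   tr p811_60],
  [p828_16,
   p828_17,
   p828_18,
   p828_19,
   p828_20,
   p828_21,
   p828_22,
   p828_23],
  [p828_24,
   p828_25,
   p828_26,
   p828_27,
   p828_28,
   p828_29,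
   p828_30,
   p828_31],
  [s5_6 (s1_2 p828_16),
   s5_6 (s1_2 p828_18),
   s5_6 (s1_2 p828_17),
   s5_6 (s1_2 p828_19),
   s5_6 (s1_2 p828_20),
   s5_6 (s1_2 p828_22),
   s5_6 (s1_2 p828_21),
   s5_6 (s1_2 p828_23)],
  [s5_6 (s1_2 p828_24),
   s5_6 (s1_2 p828_26),
   s5_6 (s1_2 p828_25),
   s5_6 (s1_2 p828_27),
   s5_6 (s1_2 p828_28),
   s5_6 (s1_2 p828_30),
   s5_6 (s1_2 p828_29),
   s5_6 (s1_2 p828_31)],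
  [tr p820_60,
   tr p821_60,
   s3_7 (s2_5 (s1_6 (s0_4 p821_60))),
   tr p822_60,
   tr p823_60,
   tr p824_60,
   s3_7 (s2_5 (s1_6 (s0_4 p824_60))),
   tr p825_60],
  [tr p826_60,
   tr p827_60,
   s3_7 (s2_5 (s1_6 (s0_4 p827_60))),
   x7_6 (x7_5 (x7_4 (x3_2 (x3_1 (x3_0 (tr (n6 (n5 (n2 (n1 p826_63)))))))))),
   p828_60,
   p828_61,
   s5_6 (s1_2 p828_61),
   p828_63]]

theorem k828 : eqNN c828 (slO 64 (D.chG 247 60) 8) = true := by decide +kernel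

/-- The slices of the chunk 829. -/
noncomputable def c829 : List (List ℕ) := [
  [tr p802_61,
   tr p803_61,
   s3_7 (s2_5 (s1_6 (s0_4 p803_62))),
   x7_6 (x7_5 (x7_4 (x3_2 (x3_1 (x3_0 (s3_7 (s2_5 (s1_6 (s0_4 (n6 (n5 (n0 p802_61)))))))))))),
   tr p804_61,
   tr p805_61,
   s3_7 (s2_5 (s1_6 (s0_4 p805_62))),
   x7_6 (x7_5 (x7_4 (x3_2 (x3_1 (x3_0 (s3_7 (s2_5 (s1_6 (s0_4 (n6 (n5 (n0 p804_61))))))))))))],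
  [tr p806_61,
   tr p807_61,
   x7_6 (x7_5 (x7_4 (x3_2 (x3_1 (x3_0 (s3_7 (s2_5 (s1_6 (s0_4 (n6 (n5 p807_61))))))))))),
   tr p808_61,
   tr p809_61,
   tr p810_61,
   x7_6 (x7_5 (x7_4 (x3_2 (x3_1 (x3_0 (s3_7 (s2_5 (s1_6 (s0_4 (n6 (n5 p810_61))))))))))),
   tr p811_61],
  [p829_16,
   p829_17,
   p829_18,
   p829_19,
   x7_6 (x7_5 (x7_4 (s5_6 (x3_2 (x3_1 (x3_0 (s1_2 (n6 (n4 (n2 (n1 p829_33))))))))))),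
   x7_6 (x7_5 (x7_4 (s5_6 (x3_2 (x3_1 (x3_0 (s1_2 (n6 (n4 (n2 (n1 p829_35))))))))))),
   x7_6 (x7_5 (x7_4 (s5_6 (x3_2 (x3_1 (x3_0 (s1_2 (n6 (n4 (n2 (n1 p829_32))))))))))),
   x7_6 (x7_5 (x7_4 (s5_6 (x3_2 (x3_1 (x3_0 (s1_2 (n6 (n4 (n2 (n1 p829_34)))))))))))],
  [p829_24,
   p829_25,
   p829_26,
   p829_27,
   x7_6 (x7_5 (x7_4 (s5_6 (x3_2 (x3_1 (x3_0 (s1_2 (n6 (n2 (n1 p829_42)))))))))),
   x7_6 (x7_5 (x7_4 (s5_6 (x3_2 (x3_1 (x3_0 (s1_2 (n6 (n2 (n1 p829_40)))))))))),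
   x7_6 (x7_5 (x7_4 (s5_6 (x3_2 (x3_1 (x3_0 (s1_2 (n6 (n2 (n1 p829_43)))))))))),
   x7_6 (x7_5 (x7_4 (s5_6 (x3_2 (x3_1 (x3_0 (s1_2 (n6 (n2 (n1 p829_41))))))))))],
  [p829_32,
   p829_33,
   p829_34,
   p829_35,
   x7_6 (x7_5 (x7_4 (s5_6 (x3_2 (x3_1 (x3_0 (s1_2 (n5 (n4 (n2 (n1 p829_18))))))))))),
   x7_6 (x7_5 (x7_4 (s5_6 (x3_2 (x3_1 (x3_0 (s1_2 (n5 (n4 (n2 (n1 p829_16))))))))))),
   x7_6 (x7_5 (x7_4 (s5_6 (x3_2 (x3_1 (x3_0 (s1_2 (n5 (n4 (n2 (n1 p829_19))))))))))),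
   x7_6 (x7_5 (x7_4 (s5_6 (x3_2 (x3_1 (x3_0 (s1_2 (n5 (n4 (n2 (n1 p829_17)))))))))))],
  [p829_40,
   p829_41,
   p829_42,
   p829_43,
   x7_6 (x7_5 (x7_4 (s5_6 (x3_2 (x3_1 (x3_0 (s1_2 (n5 (n2 (n1 p829_25)))))))))),
   x7_6 (x7_5 (x7_4 (s5_6 (x3_2 (x3_1 (x3_0 (s1_2 (n5 (n2 (n1 p829_27)))))))))),
   x7_6 (x7_5 (x7_4 (s5_6 (x3_2 (x3_1 (x3_0 (s1_2 (n5 (n2 (n1 p829_24)))))))))),
   x7_6 (x7_5 (x7_4 (s5_6 (x3_2 (x3_1 (x3_0 (s1_2 (n5 (n2 (n1 p829_26))))))))))],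
  [tr p820_61,
   tr p821_61,
   x7_6 (x7_5 (x7_4 (x3_2 (x3_1 (x3_0 (s3_7 (s2_5 (s1_6 (s0_4 (n6 (n5 (n2 (n1 (n0 p821_61)))))))))))))),
   tr p822_61,
   tr p823_61,
   tr p824_61,
   x7_6 (x7_5 (x7_4 (x3_2 (x3_1 (x3_0 (s3_7 (s2_5 (s1_6 (s0_4 (n6 (n5 (n2 (n1 (n0 p824_61)))))))))))))),
   tr p825_61],
  [tr p826_61,
   tr p827_61,
   s3_7 (s2_5 (s1_6 (s0_4 p827_62))),
   x7_6 (x7_5 (x7_4 (x3_2 (x3_1 (x3_0 (s3_7 (s2_5 (s1_6 (s0_4 (n6 (n5 (n2 (n1 p826_61))))))))))))),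
   tr p828_61,
   p829_61,
   p829_62,
   x7_6 (x7_5 (x7_4 (x3_2 (x3_1 (x3_0 (s3_7 (s2_5 (s1_6 (s0_4 (n6 (n5 (n2 (n1 p828_61)))))))))))))]]

theorem k829 : eqNN c829 (slO 64 (D.chG 247 61) 8) = true := by decide +kernel

/-- The slices of the chunk 830. -/
noncomputable def c830 : List (List ℕ) := [
  [p830_0,
   p830_1,
   p830_2,
   p830_3,
   s4_5 (s0_1 p830_2),
   s4_5 (s0_1 p830_3),
   p830_6,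
   p830_7],
  [s6_7 (s2_3 p830_2),
   s6_7 (s2_3 p830_3),
   s5_7 (s4_6 (s1_3 (s0_2 p830_6))),
   p830_11,
   p830_12,
   p830_13,
   p830_14,
   p830_15],
  [s6_7 (s4_5 (s2_3 (s0_1 p830_2))),
   s6_7 (s4_5 (s2_3 (s0_1 p830_3))),
   s6_7 (s2_3 p830_12),
   s6_7 (s2_3 p830_13),
   s5_6 (s4_7 (s1_2 (s0_3 p830_6))),
   s4_5 (s0_1 p830_11),
   s4_5 (s0_1 p830_14),
   s4_5 (s0_1 p830_15)],
  [s6_7 (s2_3 p830_6),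
   s6_7 (s2_3 p830_7),
   s6_7 (s2_3 p830_14),
   s6_7 (s2_3 p830_15),
   s6_7 (s4_5 (s2_3 (s0_1 p830_14))),
   s6_7 (s4_5 (s2_3 (s0_1 p830_15))),
   p830_30,
   p830_31],
  [s5_7 (s4_6 (s1_3 (s0_2 p830_1))),
   p830_33,
   s5_7 (s4_6 (s1_3 (s0_2 p830_3))),
   p830_35,
   s6_7 (s5_6 (s4_7 (s2_3 (s1_2 (s0_3 p830_3))))),
   s4_5 (s0_1 p830_35),
   s5_7 (s4_6 (s1_3 (s0_2 p830_11))),
   p830_39],
  [s6_7 (s5_7 (s4_6 (s2_3 (s1_3 (s0_2 p830_3))))),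
   s6_7 (s2_3 p830_35),
   s5_7 (s4_6 (s1_3 (s0_2 p830_7))),
   s5_7 (s4_6 (s1_3 (s0_2 p830_39))),
   s5_7 (s4_6 (s1_3 (s0_2 p830_13))),
   p830_45,
   s5_7 (s4_6 (s1_3 (s0_2 p830_15))),
   p830_47],
  [s5_6 (s4_7 (s1_2 (s0_3 p830_3))),
   s6_7 (s4_5 (s2_3 (s0_1 p830_35))),
   s6_7 (s5_6 (s4_7 (s2_3 (s1_2 (s0_3 p830_13))))),
   s6_7 (s2_3 p830_45),
   s5_6 (s4_7 (s1_2 (s0_3 p830_7))),
   s5_6 (s4_7 (s1_2 (s0_3 p830_39))),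
   s6_7 (s5_6 (s4_7 (s2_3 (s1_2 (s0_3 p830_15))))),
   s4_5 (s0_1 p830_47)],
  [s5_6 (s4_7 (s1_2 (s0_3 p830_11))),
   s6_7 (s2_3 p830_39),
   s6_7 (s5_7 (s4_6 (s2_3 (s1_3 (s0_2 p830_15))))),
   s6_7 (s2_3 p830_47),
   s5_6 (s4_7 (s1_2 (s0_3 p830_15))),
   s6_7 (s4_5 (s2_3 (s0_1 p830_47))),
   s5_7 (s4_6 (s1_3 (s0_2 p830_31))),
   p830_63]]

theorem k830 : eqNN c830 (slO 64 (D.chG 495 0) 8) = true := by decide +kernel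

/-- The slices of the chunk 831. -/
noncomputable def c831 : List (List ℕ) := [
  [tr p830_1,
   p831_1,
   p831_2,
   p831_3,
   s4_5 (s0_1 p831_2),
   s4_5 (s0_1 p831_3),
   p831_6,
   p831_7],
  [s6_7 (s2_3 p831_2),
   s6_7 (s2_3 p831_3),
   p831_10,
   p831_11,
   p831_12,
   p831_13,
   p831_14,
   p831_15],
  [s6_7 (s4_5 (s2_3 (s0_1 p831_2))),
   s6_7 (s4_5 (s2_3 (s0_1 p831_3))),
   s6_7 (s2_3 p831_12),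
   s6_7 (s2_3 p831_13),
   s4_5 (s0_1 p831_10),
   s4_5 (s0_1 p831_11),
   s4_5 (s0_1 p831_14),
   s4_5 (s0_1 p831_15)],
  [s6_7 (s2_3 p831_6),
   s6_7 (s2_3 p831_7),
   s6_7 (s2_3 p831_14),
   s6_7 (s2_3 p831_15),
   s6_7 (s4_5 (s2_3 (s0_1 p831_14))),
   s6_7 (s4_5 (s2_3 (s0_1 p831_15))),
   p831_30,
   p831_31],
  [p831_32,
   p831_33,
   p831_34,
   p831_35,
   s4_5 (s0_1 p831_34),
   s4_5 (s0_1 p831_35),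
   p831_38,
   p831_39],
  [s6_7 (s2_3 p831_34),
   s6_7 (s2_3 p831_35),
   p831_42,
   p831_43,
   p831_44,
   p831_45,
   p831_46,
   p831_47],
  [s6_7 (s4_5 (s2_3 (s0_1 p831_34))),
   s6_7 (s4_5 (s2_3 (s0_1 p831_35))),
   s6_7 (s2_3 p831_44),
   s6_7 (s2_3 p831_45),
   s4_5 (s0_1 p831_42),
   s4_5 (s0_1 p831_43),
   s4_5 (s0_1 p831_46),
   s4_5 (s0_1 p831_47)],
  [s6_7 (s2_3 p831_38),
   s6_7 (s2_3 p831_39),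
   s6_7 (s2_3 p831_46),
   s6_7 (s2_3 p831_47),
   s6_7 (s4_5 (s2_3 (s0_1 p831_46))),
   s6_7 (s4_5 (s2_3 (s0_1 p831_47))),
   p831_62,
   p831_63]]

theorem k831 : eqNN c831 (slO 64 (D.chG 495 1) 8) = true := by decide +kernel

end Pool.Agent.Lib.MP_afdd4d_co.K10.E6
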