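import Pool.Agent.Lib.MP_afdd4d_co.K10.E6.Dat
import Pool.Agent.Lib.MP_afdd4d_co.K10.E6.Mk
import Pool.Agent.Lib.MP_afdd4d_co.K8.F6Bl5
import Pool.Agent.Lib.MP_afdd4d_co.K10.E6.P0
import Pool.Agent.Lib.MP_afdd4d_co.K10.E6.P1
import Pool.Agent.Lib.MP_afdd4d_co.K10.E6.P2
import Pool.Agent.Lib.MP_afdd4d_co.K10.E6.P3
import Pool.Agent.Lib.MP_afdd4d_co.K10.E6.P4
import Pool.Agent.Lib.MP_afdd4d_co.K10.E6.P5
import Pool.Agent.Lib.MP_afdd4d_co.K10.E6.P6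
import Pool.Agent.Lib.MP_afdd4d_co.K10.E6.P7
import Pool.Agent.Lib.MP_afdd4d_co.K10.E6.P8
import Pool.Agent.Lib.MP_afdd4d_co.K10.E6.P9
import Pool.Agent.Lib.MP_afdd4d_co.K10.E6.P10
import Pool.Agent.Lib.MP_afdd4d_co.K10.E6.P11
import Pool.Agent.Lib.MP_afdd4d_co.K10.E6.P12
import Pool.Agent.Lib.MP_afdd4d_co.K10.E6.P13
import Pool.Agent.Lib.MP_afdd4d_co.K10.E6.P14
import Pool.Agent.Lib.MP_afdd4d_co.K10.E6.P15
import Pool.Agent.Lib.MP_afdd4d_co.K10.E6.P16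
import Pool.Agent.Lib.MP_afdd4d_co.K10.E6.P17
import Pool.Agent.Lib.MP_afdd4d_co.K10.E6.P18
import Pool.Agent.Lib.MP_afdd4d_co.K10.E6.P19
import Pool.Agent.Lib.MP_afdd4d_co.K10.E6.P20
import Pool.Agent.Lib.MP_afdd4d_co.K10.E6.P21
import Pool.Agent.Lib.MP_afdd4d_co.K10.E6.P22
import Pool.Agent.Lib.MP_afdd4d_co.K10.E6.P23
import Pool.Agent.Lib.MP_afdd4d_co.K10.E6.P24
import Pool.Agent.Lib.MP_afdd4d_co.K10.E6.P25
import Pool.Agent.Lib.MP_afdd4d_co.K10.E6.P26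
import Pool.Agent.Lib.MP_afdd4d_co.K10.E6.P27
import Pool.Agent.Lib.MP_afdd4d_co.K10.E6.P28
import Pool.Agent.Lib.MP_afdd4d_co.K10.E6.P29
import Pool.Agent.Lib.MP_afdd4d_co.K10.E6.P30
import Pool.Agent.Lib.MP_afdd4d_co.K10.E6.P31
import Pool.Agent.Lib.MP_afdd4d_co.K10.E6.P32

/-!
# Tables
-/

namespace Pool.Agent.Lib.MP_afdd4d_co.K10.E6

open K8

set_option maxRecDepth 100000
set_option exponentiation.threshold 10000000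

/-- The slices of the chunk 832. -/
noncomputable def c832 : List (List ℕ) := [
  [tr p830_2,
   tr p831_2,
   p832_2,
   p832_3,
   p832_4,
   p832_5,
   tr p834_2,
   tr p835_2],
  [s5_7 (s4_6 (s1_3 (s0_2 p832_4))),
   p832_9,
   s3_5 (s2_4 (s1_7 (s0_6 p834_2))),
   tr p836_2,
   p832_12,
   p832_13,
   p832_14,
   p832_15],
  [p832_16,
   p832_17,
   p832_18,
   p832_19,
   s3_4 (s2_5 (s1_6 (s0_7 p834_16))),
   s3_6 (s2_7 (s1_4 (s0_5 p836_16))),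
   p832_22,
   p832_23],
  [s3_6 (s2_7 (s1_4 (s0_5 p834_16))),
   s3_6 (s2_7 (s1_4 (s0_5 p835_16))),
   s5_7 (s4_6 (s1_3 (s0_2 p832_22))),
   p832_27,
   p832_28,
   p832_29,
   tr p841_2,
   tr p842_2],
  [s3_5 (s2_4 (s1_7 (s0_6 p831_2))),
   tr p843_2,
   s5_7 (s4_6 (s1_3 (s0_2 p832_3))),
   p832_35,
   s5_7 (s4_6 (s1_3 (s0_2 p832_9))),
   p832_37,
   s3_5 (s2_4 (s1_7 (s0_6 p836_2))),
   tr p845_2],
  [s5_7 (s4_6 (s1_3 (s0_2 p832_5))),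
   s5_7 (s4_6 (s1_3 (s0_2 p832_37))),
   s3_5 (s2_4 (s1_7 (s0_6 p835_2))),
   s3_5 (s2_4 (s1_7 (s0_6 p845_2))),
   s5_7 (s4_6 (s1_3 (s0_2 p832_13))),
   p832_45,
   s5_7 (s4_6 (s1_3 (s0_2 p832_15))),
   p832_47],
  [s5_7 (s4_6 (s1_3 (s0_2 p832_17))),
   p832_49,
   s5_7 (s4_6 (s1_3 (s0_2 p832_19))),
   p832_51,
   s3_4 (s2_5 (s1_6 (s0_7 p835_16))),
   s3_4 (s2_5 (s1_6 (s0_7 p845_16))),
   s5_7 (s4_6 (s1_3 (s0_2 p832_27))),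
   p832_55],
  [s3_4 (s2_5 (s1_6 (s0_7 p836_16))),
   s3_6 (s2_7 (s1_4 (s0_5 p845_16))),
   s5_7 (s4_6 (s1_3 (s0_2 p832_23))),
   s5_7 (s4_6 (s1_3 (s0_2 p832_55))),
   s5_7 (s4_6 (s1_3 (s0_2 p832_29))),
   p832_61,
   s3_5 (s2_4 (s1_7 (s0_6 p842_2))),
   tr p848_2]]

theorem k832 : eqNN c832 (slO 64 (D.chG 495 2) 8) = true := by decide +kernel

/-- The slices of the chunk 833. -/
noncomputable def c833 : List (List ℕ) := [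
  [tr p830_3,
   tr p831_3,
   tr p832_3,
   p833_3,
   s3_7 (s2_6 (s1_4 (s0_5 p832_5))),
   p833_5,
   tr p834_3,
   tr p835_3],
  [s3_6 (s2_7 (s1_5 (s0_4 p832_9))),
   p833_9,
   s3_5 (s2_4 (s1_7 (s0_6 p834_34))),
   tr p836_3,
   p833_12,
   p833_13,
   p833_14,
   p833_15],
  [s3_6 (s2_7 (s1_4 (s0_5 p832_17))),
   p833_17,
   s3_7 (s2_6 (s1_4 (s0_5 p837_5))),
   p833_19,
   s3_4 (s2_5 (s1_6 (s0_7 p834_48))),
   s3_7 (s2_6 (s1_4 (s0_5 p836_5))),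
   s3_7 (s2_6 (s1_4 (s0_5 p839_5))),
   p833_23],
  [s3_6 (s2_7 (s1_5 (s0_4 p834_9))),
   s3_6 (s2_7 (s1_5 (s0_4 p835_9))),
   s3_6 (s2_7 (s1_5 (s0_4 p839_9))),
   p833_27,
   p833_28,
   p833_29,
   tr p841_3,
   tr p842_3],
  [s3_5 (s2_4 (s1_7 (s0_6 p831_34))),
   tr p843_3,
   p833_34,
   p833_35,
   p833_36,
   s3_7 (s2_6 (s1_4 (s0_5 p844_5))),
   s3_5 (s2_4 (s1_7 (s0_6 p836_34))),
   tr p845_3],
  [s6_7 (s4_5 (s3_4 (s2_5 (s1_7 (s0_6 p833_36))))),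
   s3_6 (s2_7 (s1_5 (s0_4 p844_9))),
   s3_5 (s2_4 (s1_7 (s0_6 p835_34))),
   s3_5 (s2_4 (s1_7 (s0_6 p845_34))),
   p833_44,
   p833_45,
   p833_46,
   p833_47],
  [p833_48,
   p833_49,
   s6_7 (s4_5 (s3_4 (s2_5 (s1_7 (s0_6 p838_36))))),
   s3_7 (s2_6 (s1_4 (s0_5 p846_5))),
   s3_4 (s2_5 (s1_6 (s0_7 p835_48))),
   s3_4 (s2_5 (s1_6 (s0_7 p845_48))),
   p833_54,
   s3_7 (s2_6 (s1_4 (s0_5 p847_5)))],
  [s3_4 (s2_5 (s1_6 (s0_7 p836_48))),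
   s3_6 (s2_7 (s1_5 (s0_4 p845_9))),
   p833_58,
   s3_6 (s2_7 (s1_5 (s0_4 p847_9))),
   p833_60,
   p833_61,
   s3_5 (s2_4 (s1_7 (s0_6 p842_34))),
   tr p848_3]]

theorem k833 : eqNN c833 (slO 64 (D.chG 495 3) 8) = true := by decide +kernel

/-- The slices of the chunk 834. -/
noncomputable def c834 : List (List ℕ) := [
  [tr p830_6,
   tr p831_6,
   p834_2,
   p834_3,
   s4_5 (s0_1 p834_2),
   s4_5 (s0_1 p834_3),
   p834_6,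
   p834_7],
  [s4_5 (s0_1 p834_16),
   p834_9,
   p834_10,
   p834_11,
   p834_12,
   p834_13,
   p834_14,
   p834_15],
  [p834_16,
   s4_5 (s0_1 p834_9),
   s4_5 (s0_1 p834_12),
   s4_5 (s0_1 p834_13),
   s4_5 (s0_1 p834_10),
   s4_5 (s0_1 p834_11),
   s4_5 (s0_1 p834_14),
   s4_5 (s0_1 p834_15)],
  [p834_24,
   p834_25,
   s4_5 (s0_1 p834_28),
   p834_27,
   p834_28,
   s4_5 (s0_1 p834_27),
   tr p841_6,
   tr p842_6],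
  [s3_5 (s2_4 (s1_7 (s0_6 p831_10))),
   tr p843_6,
   p834_34,
   p834_35,
   s4_5 (s0_1 p834_34),
   s4_5 (s0_1 p834_35),
   p834_38,
   p834_39],
  [s4_5 (s0_1 p834_48),
   s4_5 (s0_1 p834_49),
   p834_42,
   p834_43,
   p834_44,
   p834_45,
   p834_46,
   p834_47],
  [p834_48,
   p834_49,
   s4_5 (s0_1 p834_44),
   s4_5 (s0_1 p834_45),
   s4_5 (s0_1 p834_42),
   s4_5 (s0_1 p834_43),
   s4_5 (s0_1 p834_46),
   s4_5 (s0_1 p834_47)],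
  [p834_56,
   p834_57,
   s4_5 (s0_1 p834_60),
   s4_5 (s0_1 p834_61),
   p834_60,
   p834_61,
   s3_5 (s2_4 (s1_7 (s0_6 p842_10))),
   tr p848_6]]

theorem k834 : eqNN c834 (slO 64 (D.chG 495 6) 8) = true := by decide +kernel

/-- The slices of the chunk 835. -/
noncomputable def c835 : List (List ℕ) := [
  [tr p830_7,
   tr p831_7,
   p835_2,
   p835_3,
   s4_5 (s0_1 p835_2),
   s4_5 (s0_1 p835_3),
   tr p834_7,
   p835_7],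
  [s4_5 (s0_1 p835_16),
   p835_9,
   s3_5 (s2_4 (s1_7 (s0_6 p834_42))),
   p835_11,
   p835_12,
   p835_13,
   p835_14,
   p835_15],
  [p835_16,
   s4_5 (s0_1 p835_9),
   s4_5 (s0_1 p835_12),
   s4_5 (s0_1 p835_13),
   s6_7 (s4_5 (s3_5 (s2_4 (s1_6 (s0_7 p834_42))))),
   s4_5 (s0_1 p835_11),
   s4_5 (s0_1 p835_14),
   s4_5 (s0_1 p835_15)],
  [s3_6 (s2_7 (s1_5 (s0_4 p834_25))),
   p835_25,
   s4_5 (s0_1 p835_28),
   p835_27,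
   p835_28,
   s4_5 (s0_1 p835_27),
   tr p841_7,
   tr p842_7],
  [s3_5 (s2_4 (s1_7 (s0_6 p831_42))),
   tr p843_7,
   p835_34,
   p835_35,
   s4_5 (s0_1 p835_34),
   s4_5 (s0_1 p835_35),
   p835_38,
   p835_39],
  [s4_5 (s0_1 p835_48),
   s4_5 (s0_1 p835_49),
   p835_42,
   p835_43,
   p835_44,
   p835_45,
   p835_46,
   p835_47],
  [p835_48,
   p835_49,
   s4_5 (s0_1 p835_44),
   s4_5 (s0_1 p835_45),
   s4_5 (s0_1 p835_42),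
   s4_5 (s0_1 p835_43),
   s4_5 (s0_1 p835_46),
   s4_5 (s0_1 p835_47)],
  [p835_56,
   p835_57,
   s4_5 (s0_1 p835_60),
   s4_5 (s0_1 p835_61),
   p835_60,
   p835_61,
   s3_5 (s2_4 (s1_7 (s0_6 p842_42))),
   tr p848_7]]

theorem k835 : eqNN c835 (slO 64 (D.chG 495 7) 8) = true := by decide +kernel

end Pool.Agent.Lib.MP_afdd4d_co.K10.E6
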