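import Pool.Agent.Lib.MP_afdd4d_co.K10.E6.Dat
import Pool.Agent.Lib.MP_afdd4d_co.K10.E6.Mk
import Pool.Agent.Lib.MP_afdd4d_co.K8.F6Bl5
import Pool.Agent.Lib.MP_afdd4d_co.K10.E6.P0
import Pool.Agent.Lib.MP_afdd4d_co.K10.E6.P1
import Pool.Agent.Lib.MP_afdd4d_co.K10.E6.P2
import Pool.Agent.Lib.MP_afdd4d_co.K10.E6.P3
import Pool.Agent.Lib.MP_afdd4d_co.K10.E6.P4
import Pool.Agent.Lib.MP_afdd4d_co.K10.E6.P5
import Pool.Agent.Lib.MP_afdd4d_co.K10.E6.P6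
import Pool.Agent.Lib.MP_afdd4d_co.K10.E6.P7
import Pool.Agent.Lib.MP_afdd4d_co.K10.E6.P8
import Pool.Agent.Lib.MP_afdd4d_co.K10.E6.P9
import Pool.Agent.Lib.MP_afdd4d_co.K10.E6.P10
import Pool.Agent.Lib.MP_afdd4d_co.K10.E6.P11
import Pool.Agent.Lib.MP_afdd4d_co.K10.E6.P12
import Pool.Agent.Lib.MP_afdd4d_co.K10.E6.P13
import Pool.Agent.Lib.MP_afdd4d_co.K10.E6.P14
import Pool.Agent.Lib.MP_afdd4d_co.K10.E6.P15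
import Pool.Agent.Lib.MP_afdd4d_co.K10.E6.P16
import Pool.Agent.Lib.MP_afdd4d_co.K10.E6.P17
import Pool.Agent.Lib.MP_afdd4d_co.K10.E6.P18
import Pool.Agent.Lib.MP_afdd4d_co.K10.E6.P19
import Pool.Agent.Lib.MP_afdd4d_co.K10.E6.P20
import Pool.Agent.Lib.MP_afdd4d_co.K10.E6.P21
import Pool.Agent.Lib.MP_afdd4d_co.K10.E6.P22
import Pool.Agent.Lib.MP_afdd4d_co.K10.E6.P23
import Pool.Agent.Lib.MP_afdd4d_co.K10.E6.P24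
import Pool.Agent.Lib.MP_afdd4d_co.K10.E6.P25
import Pool.Agent.Lib.MP_afdd4d_co.K10.E6.P26
import Pool.Agent.Lib.MP_afdd4d_co.K10.E6.P27
import Pool.Agent.Lib.MP_afdd4d_co.K10.E6.P28
import Pool.Agent.Lib.MP_afdd4d_co.K10.E6.P29
import Pool.Agent.Lib.MP_afdd4d_co.K10.E6.P30
import Pool.Agent.Lib.MP_afdd4d_co.K10.E6.P31
import Pool.Agent.Lib.MP_afdd4d_co.K10.E6.P32

/-!
# Tables
-/

namespace Pool.Agent.Lib.MP_afdd4d_co.K10.E6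

open K8

set_option maxRecDepth 100000
set_option exponentiation.threshold 10000000

/-- The slices of the chunk 836. -/
noncomputable def c836 : List (List ℕ) := [
  [tr p830_11,
   tr p831_11,
   p836_2,
   p836_3,
   s6_7 (s2_3 p836_16),
   p836_5,
   tr p834_11,
   tr p835_11],
  [s6_7 (s2_3 p836_2),
   s6_7 (s2_3 p836_3),
   s3_5 (s2_4 (s1_7 (s0_6 p834_38))),
   p836_11,
   p836_12,
   p836_13,
   p836_14,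
   p836_15],
  [p836_16,
   s6_7 (s2_3 p836_5),
   s6_7 (s2_3 p836_12),
   s6_7 (s2_3 p836_13),
   s3_4 (s2_5 (s1_6 (s0_7 p834_56))),
   p836_21,
   s6_7 (s2_3 p836_28),
   p836_23],
  [s3_6 (s2_7 (s1_5 (s0_4 p834_11))),
   s3_6 (s2_7 (s1_5 (s0_4 p835_11))),
   s6_7 (s2_3 p836_14),
   s6_7 (s2_3 p836_15),
   p836_28,
   s6_7 (s2_3 p836_23),
   tr p841_11,
   tr p842_11],
  [s3_5 (s2_4 (s1_7 (s0_6 p831_38))),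
   tr p843_11,
   p836_34,
   p836_35,
   s6_7 (s2_3 p836_48),
   s6_7 (s2_3 p836_49),
   p836_38,
   p836_39],
  [s6_7 (s2_3 p836_34),
   s6_7 (s2_3 p836_35),
   s3_5 (s2_4 (s1_7 (s0_6 p835_38))),
   p836_43,
   p836_44,
   p836_45,
   p836_46,
   p836_47],
  [p836_48,
   p836_49,
   s6_7 (s2_3 p836_44),
   s6_7 (s2_3 p836_45),
   s3_4 (s2_5 (s1_6 (s0_7 p835_56))),
   p836_53,
   s6_7 (s2_3 p836_60),
   s6_7 (s2_3 p836_61)],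
  [s6_7 (s2_3 p836_38),
   s6_7 (s2_3 p836_39),
   s6_7 (s2_3 p836_46),
   s6_7 (s2_3 p836_47),
   p836_60,
   p836_61,
   s3_5 (s2_4 (s1_7 (s0_6 p842_38))),
   tr p848_11]]

theorem k836 : eqNN c836 (slO 64 (D.chG 495 11) 8) = true := by decide +kernel

/-- The slices of the chunk 837. -/
noncomputable def c837 : List (List ℕ) := [
  [tr p830_12,
   tr p831_12,
   tr p832_12,
   tr p833_12,
   s3_7 (s2_6 (s1_4 (s0_5 p832_18))),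
   p837_5,
   tr p834_12,
   tr p835_12],
  [s3_6 (s2_7 (s1_5 (s0_4 p832_18))),
   s6_7 (s4_5 (s2_3 (s0_1 p837_5))),
   s3_5 (s2_4 (s1_7 (s0_6 p834_12))),
   tr p836_12,
   p837_12,
   p837_13,
   p837_14,
   p837_15],
  [s3_6 (s2_7 (s1_4 (s0_5 p832_12))),
   s3_6 (s2_7 (s1_4 (s0_5 p833_12))),
   p837_18,
   p837_19,
   s3_4 (s2_5 (s1_6 (s0_7 p834_12))),
   s3_6 (s2_7 (s1_4 (s0_5 p836_12))),
   p837_22,
   p837_23],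
  [s3_6 (s2_7 (s1_4 (s0_5 p834_12))),
   s3_6 (s2_7 (s1_4 (s0_5 p835_12))),
   s6_7 (s4_5 (s2_3 (s0_1 p837_22))),
   s6_7 (s4_5 (s2_3 (s0_1 p837_23))),
   s6_7 (s4_5 (s2_3 (s0_1 p837_14))),
   s6_7 (s4_5 (s2_3 (s0_1 p837_15))),
   tr p841_12,
   tr p842_12],
  [s3_5 (s2_4 (s1_7 (s0_6 p831_12))),
   tr p843_12,
   s3_5 (s2_4 (s1_7 (s0_6 p833_12))),
   p837_35,
   s5_6 (s4_7 (s1_2 (s0_3 p837_5))),
   p837_37,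
   s3_5 (s2_4 (s1_7 (s0_6 p836_12))),
   tr p845_12],
  [s5_7 (s4_6 (s1_3 (s0_2 p837_5))),
   s6_7 (s4_5 (s2_3 (s0_1 p837_37))),
   s3_5 (s2_4 (s1_7 (s0_6 p835_12))),
   s3_5 (s2_4 (s1_7 (s0_6 p845_12))),
   s5_7 (s4_6 (s1_3 (s0_2 p837_13))),
   p837_45,
   s5_7 (s4_6 (s1_3 (s0_2 p837_15))),
   p837_47],
  [s3_4 (s2_5 (s1_6 (s0_7 p833_12))),
   s6_7 (s4_5 (s2_3 (s0_1 p837_35))),
   s5_7 (s4_6 (s1_3 (s0_2 p837_19))),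
   p837_51,
   s3_4 (s2_5 (s1_6 (s0_7 p835_12))),
   s3_4 (s2_5 (s1_6 (s0_7 p845_12))),
   s5_6 (s4_7 (s1_2 (s0_3 p837_23))),
   p837_55],
  [s3_4 (s2_5 (s1_6 (s0_7 p836_12))),
   s3_6 (s2_7 (s1_4 (s0_5 p845_12))),
   s5_7 (s4_6 (s1_3 (s0_2 p837_23))),
   s6_7 (s4_5 (s2_3 (s0_1 p837_55))),
   s5_6 (s4_7 (s1_2 (s0_3 p837_15))),
   s6_7 (s4_5 (s2_3 (s0_1 p837_47))),
   s3_5 (s2_4 (s1_7 (s0_6 p842_12))),
   tr p848_12]]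

theorem k837 : eqNN c837 (slO 64 (D.chG 495 12) 8) = true := by decide +kernel

/-- The slices of the chunk 838. -/
noncomputable def c838 : List (List ℕ) := [
  [tr p830_13,
   tr p831_13,
   tr p832_13,
   tr p833_13,
   s3_7 (s2_6 (s1_4 (s0_5 p832_19))),
   s3_7 (s2_6 (s1_4 (s0_5 p833_19))),
   tr p834_13,
   tr p835_13],
  [s3_6 (s2_7 (s1_5 (s0_4 p832_19))),
   s3_6 (s2_7 (s1_5 (s0_4 p833_19))),
   s3_5 (s2_4 (s1_7 (s0_6 p834_44))),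
   tr p836_13,
   tr p837_13,
   p838_13,
   p838_14,
   p838_15],
  [s3_6 (s2_7 (s1_4 (s0_5 p832_13))),
   s3_6 (s2_7 (s1_4 (s0_5 p833_13))),
   s3_6 (s2_7 (s1_5 (s0_4 p837_19))),
   p838_19,
   s3_4 (s2_5 (s1_6 (s0_7 p834_44))),
   s3_6 (s2_7 (s1_4 (s0_5 p836_13))),
   s3_7 (s2_6 (s1_4 (s0_5 p839_19))),
   p838_23],
  [s3_6 (s2_7 (s1_4 (s0_5 p834_13))),
   s3_6 (s2_7 (s1_4 (s0_5 p835_13))),
   s3_6 (s2_7 (s1_5 (s0_4 p839_19))),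
   s6_7 (s4_5 (s2_3 (s0_1 p838_23))),
   s6_7 (s4_5 (s2_3 (s0_1 p838_14))),
   s6_7 (s4_5 (s2_3 (s0_1 p838_15))),
   tr p841_13,
   tr p842_13],
  [s3_5 (s2_4 (s1_7 (s0_6 p831_44))),
   tr p843_13,
   s3_5 (s2_4 (s1_7 (s0_6 p833_44))),
   p838_35,
   p838_36,
   s3_7 (s2_6 (s1_4 (s0_5 p844_19))),
   s3_5 (s2_4 (s1_7 (s0_6 p836_44))),
   tr p845_13],
  [s6_7 (s4_5 (s2_3 (s0_1 p838_36))),
   s3_6 (s2_7 (s1_5 (s0_4 p844_19))),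
   s3_5 (s2_4 (s1_7 (s0_6 p835_44))),
   s3_5 (s2_4 (s1_7 (s0_6 p845_44))),
   p838_44,
   p838_45,
   p838_46,
   p838_47],
  [s3_4 (s2_5 (s1_6 (s0_7 p833_44))),
   s6_7 (s4_5 (s2_3 (s0_1 p838_35))),
   p838_50,
   s3_6 (s2_7 (s1_5 (s0_4 p846_19))),
   s3_4 (s2_5 (s1_6 (s0_7 p835_44))),
   s3_4 (s2_5 (s1_6 (s0_7 p845_44))),
   p838_54,
   s3_7 (s2_6 (s1_4 (s0_5 p847_19)))],
  [s3_4 (s2_5 (s1_6 (s0_7 p836_44))),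
   s3_6 (s2_7 (s1_4 (s0_5 p845_13))),
   s6_7 (s4_5 (s2_3 (s0_1 p838_54))),
   s3_6 (s2_7 (s1_5 (s0_4 p847_19))),
   s6_7 (s4_5 (s2_3 (s0_1 p838_46))),
   s6_7 (s4_5 (s2_3 (s0_1 p838_47))),
   s3_5 (s2_4 (s1_7 (s0_6 p842_44))),
   tr p848_13]]

theorem k838 : eqNN c838 (slO 64 (D.chG 495 13) 8) = true := by decide +kernel

/-- The slices of the chunk 839. -/
noncomputable def c839 : List (List ℕ) := [
  [tr p830_14,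
   tr p831_14,
   tr p832_14,
   tr p833_14,
   s3_7 (s2_6 (s1_4 (s0_5 p832_22))),
   p839_5,
   tr p834_14,
   tr p835_14],
  [s6_7 (s4_5 (s3_4 (s2_5 (s1_7 (s0_6 p832_22))))),
   p839_9,
   s3_5 (s2_4 (s1_7 (s0_6 p834_14))),
   tr p836_14,
   tr p837_14,
   tr p838_14,
   p839_14,
   p839_15],
  [s3_6 (s2_7 (s1_4 (s0_5 p832_28))),
   s3_6 (s2_7 (s1_4 (s0_5 p833_28))),
   s3_7 (s2_6 (s1_4 (s0_5 p837_22))),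
   p839_19,
   s3_4 (s2_5 (s1_6 (s0_7 p834_28))),
   s3_6 (s2_7 (s1_4 (s0_5 p836_28))),
   p839_22,
   p839_23],
  [s3_6 (s2_7 (s1_4 (s0_5 p834_28))),
   s3_6 (s2_7 (s1_4 (s0_5 p835_28))),
   s5_7 (s4_6 (s1_3 (s0_2 p839_22))),
   p839_27,
   p839_28,
   p839_29,
   tr p841_14,
   tr p842_14],
  [s3_5 (s2_4 (s1_7 (s0_6 p831_14))),
   tr p843_14,
   s3_5 (s2_4 (s1_7 (s0_6 p833_14))),
   p839_35,
   s5_7 (s4_6 (s1_3 (s0_2 p839_9))),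
   p839_37,
   s3_5 (s2_4 (s1_7 (s0_6 p836_14))),
   tr p845_14],
  [s5_7 (s4_6 (s1_3 (s0_2 p839_5))),
   s5_7 (s4_6 (s1_3 (s0_2 p839_37))),
   s3_5 (s2_4 (s1_7 (s0_6 p835_14))),
   s3_5 (s2_4 (s1_7 (s0_6 p845_14))),
   s3_5 (s2_4 (s1_7 (s0_6 p838_14))),
   p839_45,
   s5_7 (s4_6 (s1_3 (s0_2 p839_15))),
   p839_47],
  [s3_4 (s2_5 (s1_6 (s0_7 p833_28))),
   p839_49,
   s5_7 (s4_6 (s1_3 (s0_2 p839_19))),
   p839_51,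
   s3_4 (s2_5 (s1_6 (s0_7 p835_28))),
   s3_4 (s2_5 (s1_6 (s0_7 p845_28))),
   s5_7 (s4_6 (s1_3 (s0_2 p839_27))),
   p839_55],
  [s3_4 (s2_5 (s1_6 (s0_7 p836_28))),
   s3_6 (s2_7 (s1_4 (s0_5 p845_28))),
   s5_7 (s4_6 (s1_3 (s0_2 p839_23))),
   s5_7 (s4_6 (s1_3 (s0_2 p839_55))),
   s5_7 (s4_6 (s1_3 (s0_2 p839_29))),
   p839_61,
   s3_5 (s2_4 (s1_7 (s0_6 p842_14))),
   tr p848_14]]

theorem k839 : eqNN c839 (slO 64 (D.chG 495 14) 8) = true := by decide +kernel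

end Pool.Agent.Lib.MP_afdd4d_co.K10.E6
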