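import Pool.Agent.Lib.MP_afdd4d_co.K10.E6.Dat
import Pool.Agent.Lib.MP_afdd4d_co.K10.E6.Mk
import Pool.Agent.Lib.MP_afdd4d_co.K8.F6Bl5
import Pool.Agent.Lib.MP_afdd4d_co.K10.E6.P0
import Pool.Agent.Lib.MP_afdd4d_co.K10.E6.P1
import Pool.Agent.Lib.MP_afdd4d_co.K10.E6.P2
import Pool.Agent.Lib.MP_afdd4d_co.K10.E6.P3
import Pool.Agent.Lib.MP_afdd4d_co.K10.E6.P4
import Pool.Agent.Lib.MP_afdd4d_co.K10.E6.P5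
import Pool.Agent.Lib.MP_afdd4d_co.K10.E6.P6
import Pool.Agent.Lib.MP_afdd4d_co.K10.E6.P7
import Pool.Agent.Lib.MP_afdd4d_co.K10.E6.P8
import Pool.Agent.Lib.MP_afdd4d_co.K10.E6.P9
import Pool.Agent.Lib.MP_afdd4d_co.K10.E6.P10
import Pool.Agent.Lib.MP_afdd4d_co.K10.E6.P11
import Pool.Agent.Lib.MP_afdd4d_co.K10.E6.P12
import Pool.Agent.Lib.MP_afdd4d_co.K10.E6.P13
import Pool.Agent.Lib.MP_afdd4d_co.K10.E6.P14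
import Pool.Agent.Lib.MP_afdd4d_co.K10.E6.P15
import Pool.Agent.Lib.MP_afdd4d_co.K10.E6.P16
import Pool.Agent.Lib.MP_afdd4d_co.K10.E6.P17
import Pool.Agent.Lib.MP_afdd4d_co.K10.E6.P18
import Pool.Agent.Lib.MP_afdd4d_co.K10.E6.P19
import Pool.Agent.Lib.MP_afdd4d_co.K10.E6.P20
import Pool.Agent.Lib.MP_afdd4d_co.K10.E6.P21
import Pool.Agent.Lib.MP_afdd4d_co.K10.E6.P22
import Pool.Agent.Lib.MP_afdd4d_co.K10.E6.P23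
import Pool.Agent.Lib.MP_afdd4d_co.K10.E6.P24
import Pool.Agent.Lib.MP_afdd4d_co.K10.E6.P25
import Pool.Agent.Lib.MP_afdd4d_co.K10.E6.P26
import Pool.Agent.Lib.MP_afdd4d_co.K10.E6.P27
import Pool.Agent.Lib.MP_afdd4d_co.K10.E6.P28
import Pool.Agent.Lib.MP_afdd4d_co.K10.E6.P29
import Pool.Agent.Lib.MP_afdd4d_co.K10.E6.P30
import Pool.Agent.Lib.MP_afdd4d_co.K10.E6.P31
import Pool.Agent.Lib.MP_afdd4d_co.K10.E6.P32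

/-!
# Tables
-/

namespace Pool.Agent.Lib.MP_afdd4d_co.K10.E6

open K8

set_option maxRecDepth 100000
set_option exponentiation.threshold 10000000

/-- The slices of the chunk 84. -/
noncomputable def c84 : List (List ℕ) := [
  [tr p82_2,
   tr p83_2,
   p84_2,
   p84_3,
   p84_4,
   p84_5,
   tr p86_2,
   tr p87_2],
  [p84_8,
   p84_9,
   x7_6 (x7_5 (x7_4 (x3_2 (x3_1 (x3_0 (n4 p84_9)))))),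
   x7_6 (x7_5 (x7_4 (x3_2 (x3_1 (x3_0 (n4 p84_8)))))),
   p84_12,
   p84_13,
   x7_6 (x7_5 (x7_4 (x3_2 (x3_1 (x3_0 (n4 p84_13)))))),
   x7_6 (x7_5 (x7_4 (x3_2 (x3_1 (x3_0 (n4 p84_12))))))],
  [p84_16,
   p84_17,
   p84_18,
   p84_19,
   x7_6 (x7_5 (x7_4 (x3_2 (x3_1 (x3_0 (n5 p84_17)))))),
   x7_6 (x7_5 (x7_4 (x3_2 (x3_1 (x3_0 (n5 p84_16)))))),
   x7_6 (x7_5 (x7_4 (x3_2 (x3_1 (x3_0 (n5 p84_19)))))),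
   x7_6 (x7_5 (x7_4 (x3_2 (x3_1 (x3_0 (n5 p84_18))))))],
  [s3_6 (s2_7 (s1_5 (s0_4 p86_8))),
   s3_6 (s2_7 (s1_5 (s0_4 p87_8))),
   p84_26,
   p84_27,
   x7_6 (x7_5 (x7_4 (x3_2 (x3_1 (x3_0 (n5 (n4 p84_26))))))),
   x7_6 (x7_5 (x7_4 (x3_2 (x3_1 (x3_0 (n5 (n4 p84_27))))))),
   x7_6 (x7_5 (x7_4 (x3_2 (x3_1 (x3_0 (s3_6 (s2_7 (s1_5 (s0_4 (n1 (n0 p86_8))))))))))),
   x7_6 (x7_5 (x7_4 (x3_2 (x3_1 (x3_0 (s3_6 (s2_7 (s1_5 (s0_4 (n1 (n0 p87_8)))))))))))],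
  [p84_32,
   p84_33,
   p84_34,
   p84_35,
   x7_6 (x7_5 (x7_4 (x3_2 (x3_1 (x3_0 (n6 p84_34)))))),
   x7_6 (x7_5 (x7_4 (x3_2 (x3_1 (x3_0 (n6 p84_35)))))),
   x7_6 (x7_5 (x7_4 (x3_2 (x3_1 (x3_0 (n6 p84_32)))))),
   x7_6 (x7_5 (x7_4 (x3_2 (x3_1 (x3_0 (n6 p84_33))))))],
  [p84_40,
   p84_41,
   p84_42,
   p84_43,
   x7_6 (x7_5 (x7_4 (x3_2 (x3_1 (x3_0 (n6 (n4 p84_41))))))),
   x7_6 (x7_5 (x7_4 (x3_2 (x3_1 (x3_0 (n6 (n4 p84_40))))))),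
   x7_6 (x7_5 (x7_4 (x3_2 (x3_1 (x3_0 (n6 (n4 p84_43))))))),
   x7_6 (x7_5 (x7_4 (x3_2 (x3_1 (x3_0 (n6 (n4 p84_42)))))))],
  [p84_48,
   p84_49,
   x7_6 (x7_5 (x7_4 (x3_2 (x3_1 (x3_0 (n6 (n5 p84_49))))))),
   x7_6 (x7_5 (x7_4 (x3_2 (x3_1 (x3_0 (n6 (n5 p84_48))))))),
   p84_52,
   p84_53,
   x7_6 (x7_5 (x7_4 (x3_2 (x3_1 (x3_0 (n6 (n5 p84_53))))))),
   x7_6 (x7_5 (x7_4 (x3_2 (x3_1 (x3_0 (n6 (n5 p84_52)))))))],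
  [x6_7 (x6_5 (x6_4 (s3_7 (x2_7 (x2_1 (x2_0 (s2_6 (s1_5 (s0_4 (n4 (n3 p90_11))))))))))),
   x6_7 (x6_5 (x6_4 (s3_7 (x2_7 (x2_1 (x2_0 (s2_6 (s1_5 (s0_4 (n4 (n3 p91_11))))))))))),
   p84_58,
   p84_59,
   p84_60,
   p84_61,
   tr p96_2,
   tr p97_2]]

theorem k84 : eqNN c84 (slO 64 (D.chG 16 2) 8) = true := by decide +kernel

/-- The slices of the chunk 85. -/
noncomputable def c85 : List (List ℕ) := [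
  [tr p82_3,
   tr p83_3,
   tr p84_3,
   p85_3,
   s3_7 (s2_6 (s1_4 (s0_5 p84_5))),
   p85_5,
   tr p86_3,
   tr p87_3],
  [s3_6 (s2_7 (s1_5 (s0_4 p84_9))),
   p85_9,
   x7_6 (x7_5 (x7_4 (x3_2 (x3_1 (x3_0 (n4 p85_9)))))),
   x7_6 (x7_5 (x7_4 (x3_2 (x3_1 (x3_0 (s3_6 (s2_7 (s1_5 (s0_4 (n0 p84_9)))))))))),
   p85_12,
   p85_13,
   x7_6 (x7_5 (x7_4 (x3_2 (x3_1 (x3_0 (n4 p85_13)))))),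
   x7_6 (x7_5 (x7_4 (x3_2 (x3_1 (x3_0 (n4 p85_12))))))],
  [s3_6 (s2_7 (s1_4 (s0_5 p84_17))),
   p85_17,
   p85_18,
   p85_19,
   x7_6 (x7_5 (x7_4 (x3_2 (x3_1 (x3_0 (n5 p85_17)))))),
   x7_6 (x7_5 (x7_4 (x3_2 (x3_1 (x3_0 (s3_6 (s2_7 (s1_4 (s0_5 (n0 p84_17)))))))))),
   x7_6 (x7_5 (x7_4 (x3_2 (x3_1 (x3_0 (n5 p85_19)))))),
   x7_6 (x7_5 (x7_4 (x3_2 (x3_1 (x3_0 (n5 p85_18))))))],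
  [s3_6 (s2_7 (s1_5 (s0_4 p86_9))),
   s3_6 (s2_7 (s1_5 (s0_4 p87_9))),
   p85_26,
   p85_27,
   x7_6 (x7_5 (x7_4 (x3_2 (x3_1 (x3_0 (n5 (n4 p85_26))))))),
   x7_6 (x7_5 (x7_4 (x3_2 (x3_1 (x3_0 (n5 (n4 p85_27))))))),
   x7_6 (x7_5 (x7_4 (x3_2 (x3_1 (x3_0 (s3_6 (s2_7 (s1_5 (s0_4 (n1 (n0 p86_9))))))))))),
   x7_6 (x7_5 (x7_4 (x3_2 (x3_1 (x3_0 (s3_6 (s2_7 (s1_5 (s0_4 (n1 (n0 p87_9)))))))))))],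
  [p85_32,
   p85_33,
   p85_34,
   p85_35,
   x7_6 (x7_5 (x7_4 (x3_2 (x3_1 (x3_0 (n6 p85_34)))))),
   x7_6 (x7_5 (x7_4 (x3_2 (x3_1 (x3_0 (n6 p85_35)))))),
   x7_6 (x7_5 (x7_4 (x3_2 (x3_1 (x3_0 (n6 p85_32)))))),
   x7_6 (x7_5 (x7_4 (x3_2 (x3_1 (x3_0 (n6 p85_33))))))],
  [p85_40,
   p85_41,
   p85_42,
   p85_43,
   x7_6 (x7_5 (x7_4 (x3_2 (x3_1 (x3_0 (n6 (n4 p85_41))))))),
   x7_6 (x7_5 (x7_4 (x3_2 (x3_1 (x3_0 (n6 (n4 p85_40))))))),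
   x7_6 (x7_5 (x7_4 (x3_2 (x3_1 (x3_0 (n6 (n4 p85_43))))))),
   x7_6 (x7_5 (x7_4 (x3_2 (x3_1 (x3_0 (n6 (n4 p85_42)))))))],
  [p85_48,
   p85_49,
   x7_6 (x7_5 (x7_4 (x3_2 (x3_1 (x3_0 (n6 (n5 p85_49))))))),
   x7_6 (x7_5 (x7_4 (x3_2 (x3_1 (x3_0 (n6 (n5 p85_48))))))),
   p85_52,
   p85_53,
   x7_6 (x7_5 (x7_4 (x3_2 (x3_1 (x3_0 (n6 (n5 p85_53))))))),
   x7_6 (x7_5 (x7_4 (x3_2 (x3_1 (x3_0 (n6 (n5 p85_52)))))))],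
  [x6_7 (x6_5 (x6_4 (s3_7 (x2_7 (x2_1 (x2_0 (s2_6 (s1_5 (s0_4 (n4 (n3 p90_10))))))))))),
   x6_7 (x6_5 (x6_4 (s3_7 (x2_7 (x2_1 (x2_0 (s2_6 (s1_5 (s0_4 (n4 (n3 p91_10))))))))))),
   p85_58,
   p85_59,
   p85_60,
   p85_61,
   tr p96_3,
   tr p97_3]]

theorem k85 : eqNN c85 (slO 64 (D.chG 16 3) 8) = true := by decide +kernel

/-- The slices of the chunk 86. -/
noncomputable def c86 : List (List ℕ) := [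
  [tr p82_6,
   tr p83_6,
   p86_2,
   p86_3,
   s4_5 (s0_1 p86_2),
   s4_5 (s0_1 p86_3),
   p86_6,
   p86_7],
  [p86_8,
   p86_9,
   x7_6 (x7_5 (x7_4 (x3_2 (x3_1 (x3_0 (n4 p86_9)))))),
   x7_6 (x7_5 (x7_4 (x3_2 (x3_1 (x3_0 (n4 p86_8)))))),
   p86_12,
   p86_13,
   x7_6 (x7_5 (x7_4 (x3_2 (x3_1 (x3_0 (n4 p86_13)))))),
   x7_6 (x7_5 (x7_4 (x3_2 (x3_1 (x3_0 (n4 p86_12))))))],
  [s4_5 (s0_1 p86_8),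
   s4_5 (s0_1 p86_9),
   s4_5 (s0_1 p86_12),
   s4_5 (s0_1 p86_13),
   x7_6 (x7_5 (x7_4 (s4_5 (x3_2 (x3_1 (x3_0 (s0_1 (n4 p86_9)))))))),
   x7_6 (x7_5 (x7_4 (s4_5 (x3_2 (x3_1 (x3_0 (s0_1 (n4 p86_8)))))))),
   x7_6 (x7_5 (x7_4 (s4_5 (x3_2 (x3_1 (x3_0 (s0_1 (n4 p86_13)))))))),
   x7_6 (x7_5 (x7_4 (s4_5 (x3_2 (x3_1 (x3_0 (s0_1 (n4 p86_12))))))))],
  [p86_24,
   p86_25,
   p86_26,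
   p86_27,
   s4_5 (s0_1 p86_26),
   s4_5 (s0_1 p86_27),
   x7_6 (x7_5 (x7_4 (x3_2 (x3_1 (x3_0 (n5 (n4 p86_24))))))),
   x7_6 (x7_5 (x7_4 (x3_2 (x3_1 (x3_0 (n5 (n4 p86_25)))))))],
  [p86_32,
   p86_33,
   p86_34,
   p86_35,
   s4_5 (s0_1 p86_34),
   s4_5 (s0_1 p86_35),
   x7_6 (x7_5 (x7_4 (x3_2 (x3_1 (x3_0 (n6 p86_32)))))),
   x7_6 (x7_5 (x7_4 (x3_2 (x3_1 (x3_0 (n6 p86_33))))))],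
  [p86_40,
   p86_41,
   p86_42,
   p86_43,
   x7_6 (x7_5 (x7_4 (x3_2 (x3_1 (x3_0 (n6 (n4 p86_41))))))),
   x7_6 (x7_5 (x7_4 (x3_2 (x3_1 (x3_0 (n6 (n4 p86_40))))))),
   x7_6 (x7_5 (x7_4 (x3_2 (x3_1 (x3_0 (n6 (n4 p86_43))))))),
   x7_6 (x7_5 (x7_4 (x3_2 (x3_1 (x3_0 (n6 (n4 p86_42)))))))],
  [s4_5 (s0_1 p86_40),
   s4_5 (s0_1 p86_41),
   x7_6 (x7_5 (x7_4 (s4_5 (x3_2 (x3_1 (x3_0 (s0_1 (n6 (n4 p86_41))))))))),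
   x7_6 (x7_5 (x7_4 (s4_5 (x3_2 (x3_1 (x3_0 (s0_1 (n6 (n4 p86_40))))))))),
   s4_5 (s0_1 p86_42),
   s4_5 (s0_1 p86_43),
   x7_6 (x7_5 (x7_4 (s4_5 (x3_2 (x3_1 (x3_0 (s0_1 (n6 (n4 p86_43))))))))),
   x7_6 (x7_5 (x7_4 (s4_5 (x3_2 (x3_1 (x3_0 (s0_1 (n6 (n4 p86_42)))))))))],
  [p86_56,
   p86_57,
   p86_58,
   p86_59,
   s4_5 (s0_1 p86_58),
   s4_5 (s0_1 p86_59),
   tr p96_6,
   tr p97_6]]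

theorem k86 : eqNN c86 (slO 64 (D.chG 16 6) 8) = true := by decide +kernel

/-- The slices of the chunk 87. -/
noncomputable def c87 : List (List ℕ) := [
  [tr p82_7,
   tr p83_7,
   p87_2,
   p87_3,
   s4_5 (s0_1 p87_2),
   s4_5 (s0_1 p87_3),
   tr p86_7,
   p87_7],
  [p87_8,
   p87_9,
   x7_6 (x7_5 (x7_4 (x3_2 (x3_1 (x3_0 (n4 p87_9)))))),
   x7_6 (x7_5 (x7_4 (x3_2 (x3_1 (x3_0 (n4 p87_8)))))),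
   p87_12,
   p87_13,
   x7_6 (x7_5 (x7_4 (x3_2 (x3_1 (x3_0 (n4 p87_13)))))),
   x7_6 (x7_5 (x7_4 (x3_2 (x3_1 (x3_0 (n4 p87_12))))))],
  [s4_5 (s0_1 p87_8),
   s4_5 (s0_1 p87_9),
   s4_5 (s0_1 p87_12),
   s4_5 (s0_1 p87_13),
   x7_6 (x7_5 (x7_4 (s4_5 (x3_2 (x3_1 (x3_0 (s0_1 (n4 p87_9)))))))),
   x7_6 (x7_5 (x7_4 (s4_5 (x3_2 (x3_1 (x3_0 (s0_1 (n4 p87_8)))))))),
   x7_6 (x7_5 (x7_4 (s4_5 (x3_2 (x3_1 (x3_0 (s0_1 (n4 p87_13)))))))),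
   x7_6 (x7_5 (x7_4 (s4_5 (x3_2 (x3_1 (x3_0 (s0_1 (n4 p87_12))))))))],
  [s3_6 (s2_7 (s1_5 (s0_4 p86_25))),
   p87_25,
   p87_26,
   p87_27,
   s4_5 (s0_1 p87_26),
   s4_5 (s0_1 p87_27),
   x7_6 (x7_5 (x7_4 (x3_2 (x3_1 (x3_0 (s3_6 (s2_7 (s1_5 (s0_4 (n1 (n0 p86_25))))))))))),
   x7_6 (x7_5 (x7_4 (x3_2 (x3_1 (x3_0 (n5 (n4 p87_25)))))))],
  [p87_32,
   p87_33,
   p87_34,
   p87_35,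
   s4_5 (s0_1 p87_34),
   s4_5 (s0_1 p87_35),
   x7_6 (x7_5 (x7_4 (x3_2 (x3_1 (x3_0 (n6 p87_32)))))),
   x7_6 (x7_5 (x7_4 (x3_2 (x3_1 (x3_0 (n6 p87_33))))))],
  [p87_40,
   p87_41,
   p87_42,
   p87_43,
   x7_6 (x7_5 (x7_4 (x3_2 (x3_1 (x3_0 (n6 (n4 p87_41))))))),
   x7_6 (x7_5 (x7_4 (x3_2 (x3_1 (x3_0 (n6 (n4 p87_40))))))),
   x7_6 (x7_5 (x7_4 (x3_2 (x3_1 (x3_0 (n6 (n4 p87_43))))))),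
   x7_6 (x7_5 (x7_4 (x3_2 (x3_1 (x3_0 (n6 (n4 p87_42)))))))],
  [s4_5 (s0_1 p87_40),
   s4_5 (s0_1 p87_41),
   x7_6 (x7_5 (x7_4 (s4_5 (x3_2 (x3_1 (x3_0 (s0_1 (n6 (n4 p87_41))))))))),
   x7_6 (x7_5 (x7_4 (s4_5 (x3_2 (x3_1 (x3_0 (s0_1 (n6 (n4 p87_40))))))))),
   s4_5 (s0_1 p87_42),
   s4_5 (s0_1 p87_43),
   x7_6 (x7_5 (x7_4 (s4_5 (x3_2 (x3_1 (x3_0 (s0_1 (n6 (n4 p87_43))))))))),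
   x7_6 (x7_5 (x7_4 (s4_5 (x3_2 (x3_1 (x3_0 (s0_1 (n6 (n4 p87_42)))))))))],
  [p87_56,
   p87_57,
   p87_58,
   p87_59,
   s4_5 (s0_1 p87_58),
   s4_5 (s0_1 p87_59),
   tr p96_7,
   tr p97_7]]

theorem k87 : eqNN c87 (slO 64 (D.chG 16 7) 8) = true := by decide +kernel

end Pool.Agent.Lib.MP_afdd4d_co.K10.E6
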