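import Pool.Agent.Lib.MP_afdd4d_co.K10.E6.Dat
import Pool.Agent.Lib.MP_afdd4d_co.K10.E6.Mk
import Pool.Agent.Lib.MP_afdd4d_co.K8.F6Bl5
import Pool.Agent.Lib.MP_afdd4d_co.K10.E6.P0
import Pool.Agent.Lib.MP_afdd4d_co.K10.E6.P1
import Pool.Agent.Lib.MP_afdd4d_co.K10.E6.P2
import Pool.Agent.Lib.MP_afdd4d_co.K10.E6.P3
import Pool.Agent.Lib.MP_afdd4d_co.K10.E6.P4
import Pool.Agent.Lib.MP_afdd4d_co.K10.E6.P5
import Pool.Agent.Lib.MP_afdd4d_co.K10.E6.P6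
import Pool.Agent.Lib.MP_afdd4d_co.K10.E6.P7
import Pool.Agent.Lib.MP_afdd4d_co.K10.E6.P8
import Pool.Agent.Lib.MP_afdd4d_co.K10.E6.P9
import Pool.Agent.Lib.MP_afdd4d_co.K10.E6.P10
import Pool.Agent.Lib.MP_afdd4d_co.K10.E6.P11
import Pool.Agent.Lib.MP_afdd4d_co.K10.E6.P12
import Pool.Agent.Lib.MP_afdd4d_co.K10.E6.P13
import Pool.Agent.Lib.MP_afdd4d_co.K10.E6.P14
import Pool.Agent.Lib.MP_afdd4d_co.K10.E6.P15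
import Pool.Agent.Lib.MP_afdd4d_co.K10.E6.P16
import Pool.Agent.Lib.MP_afdd4d_co.K10.E6.P17
import Pool.Agent.Lib.MP_afdd4d_co.K10.E6.P18
import Pool.Agent.Lib.MP_afdd4d_co.K10.E6.P19
import Pool.Agent.Lib.MP_afdd4d_co.K10.E6.P20
import Pool.Agent.Lib.MP_afdd4d_co.K10.E6.P21
import Pool.Agent.Lib.MP_afdd4d_co.K10.E6.P22
import Pool.Agent.Lib.MP_afdd4d_co.K10.E6.P23
import Pool.Agent.Lib.MP_afdd4d_co.K10.E6.P24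
import Pool.Agent.Lib.MP_afdd4d_co.K10.E6.P25
import Pool.Agent.Lib.MP_afdd4d_co.K10.E6.P26
import Pool.Agent.Lib.MP_afdd4d_co.K10.E6.P27
import Pool.Agent.Lib.MP_afdd4d_co.K10.E6.P28
import Pool.Agent.Lib.MP_afdd4d_co.K10.E6.P29
import Pool.Agent.Lib.MP_afdd4d_co.K10.E6.P30
import Pool.Agent.Lib.MP_afdd4d_co.K10.E6.P31
import Pool.Agent.Lib.MP_afdd4d_co.K10.E6.P32

/-!
# Tables
-/

namespace Pool.Agent.Lib.MP_afdd4d_co.K10.E6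

open K8

set_option maxRecDepth 100000
set_option exponentiation.threshold 10000000

/-- The slices of the chunk 840. -/
noncomputable def c840 : List (List ℕ) := [
  [tr p830_15,
   tr p831_15,
   tr p832_15,
   tr p833_15,
   s3_7 (s2_6 (s1_4 (s0_5 p832_23))),
   s3_7 (s2_6 (s1_4 (s0_5 p833_23))),
   tr p834_15,
   tr p835_15],
  [s3_6 (s2_7 (s1_5 (s0_4 p832_27))),
   s3_6 (s2_7 (s1_5 (s0_4 p833_27))),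
   s3_5 (s2_4 (s1_7 (s0_6 p834_46))),
   tr p836_15,
   tr p837_15,
   tr p838_15,
   tr p839_15,
   p840_15],
  [s3_6 (s2_7 (s1_4 (s0_5 p832_29))),
   s3_6 (s2_7 (s1_4 (s0_5 p833_29))),
   s3_7 (s2_6 (s1_4 (s0_5 p837_23))),
   s3_7 (s2_6 (s1_4 (s0_5 p838_23))),
   s3_4 (s2_5 (s1_6 (s0_7 p834_60))),
   s3_7 (s2_6 (s1_4 (s0_5 p836_23))),
   s3_7 (s2_6 (s1_4 (s0_5 p839_23))),
   p840_23],
  [s3_6 (s2_7 (s1_5 (s0_4 p834_27))),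
   s3_6 (s2_7 (s1_5 (s0_4 p835_27))),
   s3_6 (s2_7 (s1_5 (s0_4 p839_27))),
   p840_27,
   s3_6 (s2_7 (s1_4 (s0_5 p839_29))),
   p840_29,
   tr p841_15,
   tr p842_15],
  [s3_5 (s2_4 (s1_7 (s0_6 p831_46))),
   tr p843_15,
   s3_5 (s2_4 (s1_7 (s0_6 p833_46))),
   p840_35,
   s6_7 (s4_5 (s3_5 (s2_4 (s1_6 (s0_7 p833_58))))),
   s3_7 (s2_6 (s1_4 (s0_5 p844_23))),
   s3_5 (s2_4 (s1_7 (s0_6 p836_46))),
   tr p845_15],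
  [s6_7 (s4_5 (s3_4 (s2_5 (s1_7 (s0_6 p833_54))))),
   s3_6 (s2_7 (s1_5 (s0_4 p844_27))),
   s3_5 (s2_4 (s1_7 (s0_6 p835_46))),
   s3_5 (s2_4 (s1_7 (s0_6 p845_46))),
   s3_5 (s2_4 (s1_7 (s0_6 p838_46))),
   p840_45,
   p840_46,
   p840_47],
  [s3_4 (s2_5 (s1_6 (s0_7 p833_60))),
   p840_49,
   s6_7 (s4_5 (s3_4 (s2_5 (s1_7 (s0_6 p838_54))))),
   s3_7 (s2_6 (s1_4 (s0_5 p846_23))),
   s3_4 (s2_5 (s1_6 (s0_7 p835_60))),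
   s3_4 (s2_5 (s1_6 (s0_7 p845_60))),
   p840_54,
   s3_7 (s2_6 (s1_4 (s0_5 p847_23)))],
  [s3_4 (s2_5 (s1_6 (s0_7 p836_60))),
   s3_6 (s2_7 (s1_5 (s0_4 p845_27))),
   s6_7 (s4_5 (s3_4 (s2_5 (s1_7 (s0_6 p840_54))))),
   s3_6 (s2_7 (s1_5 (s0_4 p847_27))),
   p840_60,
   p840_61,
   s3_5 (s2_4 (s1_7 (s0_6 p842_46))),
   tr p848_15]]

theorem k840 : eqNN c840 (slO 64 (D.chG 495 15) 8) = true := by decide +kernel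

/-- The slices of the chunk 841. -/
noncomputable def c841 : List (List ℕ) := [
  [tr p830_30,
   tr p831_30,
   p841_2,
   p841_3,
   s4_5 (s0_1 p841_2),
   s4_5 (s0_1 p841_3),
   p841_6,
   p841_7],
  [s6_7 (s2_3 p841_2),
   s6_7 (s2_3 p841_3),
   s5_7 (s4_6 (s1_3 (s0_2 p841_6))),
   p841_11,
   p841_12,
   p841_13,
   p841_14,
   p841_15],
  [s6_7 (s4_5 (s2_3 (s0_1 p841_2))),
   s6_7 (s4_5 (s2_3 (s0_1 p841_3))),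
   s6_7 (s2_3 p841_12),
   s6_7 (s2_3 p841_13),
   s5_6 (s4_7 (s1_2 (s0_3 p841_6))),
   s4_5 (s0_1 p841_11),
   s4_5 (s0_1 p841_14),
   s4_5 (s0_1 p841_15)],
  [s6_7 (s2_3 p841_6),
   s6_7 (s2_3 p841_7),
   s6_7 (s2_3 p841_14),
   s6_7 (s2_3 p841_15),
   s6_7 (s4_5 (s2_3 (s0_1 p841_14))),
   s6_7 (s4_5 (s2_3 (s0_1 p841_15))),
   p841_30,
   p841_31],
  [s3_5 (s2_4 (s1_7 (s0_6 p831_30))),
   p841_33,
   s5_7 (s4_6 (s1_3 (s0_2 p841_3))),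
   p841_35,
   s6_7 (s5_6 (s4_7 (s2_3 (s1_2 (s0_3 p841_3))))),
   s4_5 (s0_1 p841_35),
   s5_7 (s4_6 (s1_3 (s0_2 p841_11))),
   p841_39],
  [s6_7 (s5_7 (s4_6 (s2_3 (s1_3 (s0_2 p841_3))))),
   s6_7 (s2_3 p841_35),
   s5_7 (s4_6 (s1_3 (s0_2 p841_7))),
   s5_7 (s4_6 (s1_3 (s0_2 p841_39))),
   s5_7 (s4_6 (s1_3 (s0_2 p841_13))),
   p841_45,
   s5_7 (s4_6 (s1_3 (s0_2 p841_15))),
   p841_47],
  [s5_6 (s4_7 (s1_2 (s0_3 p841_3))),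
   s6_7 (s4_5 (s2_3 (s0_1 p841_35))),
   s6_7 (s5_6 (s4_7 (s2_3 (s1_2 (s0_3 p841_13))))),
   s6_7 (s2_3 p841_45),
   s5_6 (s4_7 (s1_2 (s0_3 p841_7))),
   s5_6 (s4_7 (s1_2 (s0_3 p841_39))),
   s6_7 (s5_6 (s4_7 (s2_3 (s1_2 (s0_3 p841_15))))),
   s4_5 (s0_1 p841_47)],
  [s5_6 (s4_7 (s1_2 (s0_3 p841_11))),
   s6_7 (s2_3 p841_39),
   s6_7 (s5_7 (s4_6 (s2_3 (s1_3 (s0_2 p841_15))))),
   s6_7 (s2_3 p841_47),
   s5_6 (s4_7 (s1_2 (s0_3 p841_15))),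
   s6_7 (s4_5 (s2_3 (s0_1 p841_47))),
   s5_7 (s4_6 (s1_3 (s0_2 p841_31))),
   p841_63]]

theorem k841 : eqNN c841 (slO 64 (D.chG 495 30) 8) = true := by decide +kernel

/-- The slices of the chunk 842. -/
noncomputable def c842 : List (List ℕ) := [
  [tr p830_31,
   tr p831_31,
   p842_2,
   p842_3,
   s4_5 (s0_1 p842_2),
   s4_5 (s0_1 p842_3),
   p842_6,
   p842_7],
  [s6_7 (s2_3 p842_2),
   s6_7 (s2_3 p842_3),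
   p842_10,
   p842_11,
   p842_12,
   p842_13,
   p842_14,
   p842_15],
  [s6_7 (s4_5 (s2_3 (s0_1 p842_2))),
   s6_7 (s4_5 (s2_3 (s0_1 p842_3))),
   s6_7 (s2_3 p842_12),
   s6_7 (s2_3 p842_13),
   s4_5 (s0_1 p842_10),
   s4_5 (s0_1 p842_11),
   s4_5 (s0_1 p842_14),
   s4_5 (s0_1 p842_15)],
  [s6_7 (s2_3 p842_6),
   s6_7 (s2_3 p842_7),
   s6_7 (s2_3 p842_14),
   s6_7 (s2_3 p842_15),
   s6_7 (s4_5 (s2_3 (s0_1 p842_14))),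
   s6_7 (s4_5 (s2_3 (s0_1 p842_15))),
   tr p841_31,
   p842_31],
  [s3_5 (s2_4 (s1_7 (s0_6 p831_62))),
   p842_33,
   p842_34,
   p842_35,
   s4_5 (s0_1 p842_34),
   s4_5 (s0_1 p842_35),
   p842_38,
   p842_39],
  [s6_7 (s2_3 p842_34),
   s6_7 (s2_3 p842_35),
   p842_42,
   p842_43,
   p842_44,
   p842_45,
   p842_46,
   p842_47],
  [s6_7 (s4_5 (s2_3 (s0_1 p842_34))),
   s6_7 (s4_5 (s2_3 (s0_1 p842_35))),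
   s6_7 (s2_3 p842_44),
   s6_7 (s2_3 p842_45),
   s4_5 (s0_1 p842_42),
   s4_5 (s0_1 p842_43),
   s4_5 (s0_1 p842_46),
   s4_5 (s0_1 p842_47)],
  [s6_7 (s2_3 p842_38),
   s6_7 (s2_3 p842_39),
   s6_7 (s2_3 p842_46),
   s6_7 (s2_3 p842_47),
   s6_7 (s4_5 (s2_3 (s0_1 p842_46))),
   s6_7 (s4_5 (s2_3 (s0_1 p842_47))),
   p842_62,
   p842_63]]

theorem k842 : eqNN c842 (slO 64 (D.chG 495 31) 8) = true := by decide +kernel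

/-- The slices of the chunk 843. -/
noncomputable def c843 : List (List ℕ) := [
  [tr p830_33,
   tr p831_33,
   p843_2,
   p843_3,
   s4_5 (s0_1 p843_2),
   s4_5 (s0_1 p843_3),
   p843_6,
   p843_7],
  [s6_7 (s2_3 p843_2),
   s6_7 (s2_3 p843_3),
   s5_7 (s4_6 (s1_3 (s0_2 p843_6))),
   p843_11,
   p843_12,
   p843_13,
   p843_14,
   p843_15],
  [s6_7 (s4_5 (s2_3 (s0_1 p843_2))),
   s6_7 (s4_5 (s2_3 (s0_1 p843_3))),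
   s6_7 (s2_3 p843_12),
   s6_7 (s2_3 p843_13),
   s5_6 (s4_7 (s1_2 (s0_3 p843_6))),
   s4_5 (s0_1 p843_11),
   s4_5 (s0_1 p843_14),
   s4_5 (s0_1 p843_15)],
  [s6_7 (s2_3 p843_6),
   s6_7 (s2_3 p843_7),
   s6_7 (s2_3 p843_14),
   s6_7 (s2_3 p843_15),
   s6_7 (s4_5 (s2_3 (s0_1 p843_14))),
   s6_7 (s4_5 (s2_3 (s0_1 p843_15))),
   tr p841_33,
   tr p842_33],
  [s3_5 (s2_4 (s1_7 (s0_6 p831_33))),
   p843_33,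
   s5_7 (s4_6 (s1_3 (s0_2 p843_3))),
   p843_35,
   s6_7 (s5_6 (s4_7 (s2_3 (s1_2 (s0_3 p843_3))))),
   s4_5 (s0_1 p843_35),
   s5_7 (s4_6 (s1_3 (s0_2 p843_11))),
   p843_39],
  [s6_7 (s5_7 (s4_6 (s2_3 (s1_3 (s0_2 p843_3))))),
   s6_7 (s2_3 p843_35),
   s5_7 (s4_6 (s1_3 (s0_2 p843_7))),
   s5_7 (s4_6 (s1_3 (s0_2 p843_39))),
   s5_7 (s4_6 (s1_3 (s0_2 p843_13))),
   p843_45,
   s5_7 (s4_6 (s1_3 (s0_2 p843_15))),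
   p843_47],
  [s5_6 (s4_7 (s1_2 (s0_3 p843_3))),
   s6_7 (s4_5 (s2_3 (s0_1 p843_35))),
   s6_7 (s5_6 (s4_7 (s2_3 (s1_2 (s0_3 p843_13))))),
   s6_7 (s2_3 p843_45),
   s5_6 (s4_7 (s1_2 (s0_3 p843_7))),
   s5_6 (s4_7 (s1_2 (s0_3 p843_39))),
   s6_7 (s5_6 (s4_7 (s2_3 (s1_2 (s0_3 p843_15))))),
   s4_5 (s0_1 p843_47)],
  [s5_6 (s4_7 (s1_2 (s0_3 p843_11))),
   s6_7 (s2_3 p843_39),
   s6_7 (s5_7 (s4_6 (s2_3 (s1_3 (s0_2 p843_15))))),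
   s6_7 (s2_3 p843_47),
   s5_6 (s4_7 (s1_2 (s0_3 p843_15))),
   s6_7 (s4_5 (s2_3 (s0_1 p843_47))),
   s3_5 (s2_4 (s1_7 (s0_6 p842_33))),
   p843_63]]

theorem k843 : eqNN c843 (slO 64 (D.chG 495 33) 8) = true := by decide +kernel

end Pool.Agent.Lib.MP_afdd4d_co.K10.E6
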