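import Pool.Agent.Lib.MP_afdd4d_co.K10.E6.Dat
import Pool.Agent.Lib.MP_afdd4d_co.K10.E6.Mk
import Pool.Agent.Lib.MP_afdd4d_co.K8.F6Bl5
import Pool.Agent.Lib.MP_afdd4d_co.K10.E6.P0
import Pool.Agent.Lib.MP_afdd4d_co.K10.E6.P1
import Pool.Agent.Lib.MP_afdd4d_co.K10.E6.P2
import Pool.Agent.Lib.MP_afdd4d_co.K10.E6.P3
import Pool.Agent.Lib.MP_afdd4d_co.K10.E6.P4
import Pool.Agent.Lib.MP_afdd4d_co.K10.E6.P5
import Pool.Agent.Lib.MP_afdd4d_co.K10.E6.P6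
import Pool.Agent.Lib.MP_afdd4d_co.K10.E6.P7
import Pool.Agent.Lib.MP_afdd4d_co.K10.E6.P8
import Pool.Agent.Lib.MP_afdd4d_co.K10.E6.P9
import Pool.Agent.Lib.MP_afdd4d_co.K10.E6.P10
import Pool.Agent.Lib.MP_afdd4d_co.K10.E6.P11
import Pool.Agent.Lib.MP_afdd4d_co.K10.E6.P12
import Pool.Agent.Lib.MP_afdd4d_co.K10.E6.P13
import Pool.Agent.Lib.MP_afdd4d_co.K10.E6.P14
import Pool.Agent.Lib.MP_afdd4d_co.K10.E6.P15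
import Pool.Agent.Lib.MP_afdd4d_co.K10.E6.P16
import Pool.Agent.Lib.MP_afdd4d_co.K10.E6.P17
import Pool.Agent.Lib.MP_afdd4d_co.K10.E6.P18
import Pool.Agent.Lib.MP_afdd4d_co.K10.E6.P19
import Pool.Agent.Lib.MP_afdd4d_co.K10.E6.P20
import Pool.Agent.Lib.MP_afdd4d_co.K10.E6.P21
import Pool.Agent.Lib.MP_afdd4d_co.K10.E6.P22
import Pool.Agent.Lib.MP_afdd4d_co.K10.E6.P23
import Pool.Agent.Lib.MP_afdd4d_co.K10.E6.P24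
import Pool.Agent.Lib.MP_afdd4d_co.K10.E6.P25
import Pool.Agent.Lib.MP_afdd4d_co.K10.E6.P26
import Pool.Agent.Lib.MP_afdd4d_co.K10.E6.P27
import Pool.Agent.Lib.MP_afdd4d_co.K10.E6.P28
import Pool.Agent.Lib.MP_afdd4d_co.K10.E6.P29
import Pool.Agent.Lib.MP_afdd4d_co.K10.E6.P30
import Pool.Agent.Lib.MP_afdd4d_co.K10.E6.P31
import Pool.Agent.Lib.MP_afdd4d_co.K10.E6.P32

/-!
# Tables
-/

namespace Pool.Agent.Lib.MP_afdd4d_co.K10.E6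

open K8

set_option maxRecDepth 100000
set_option exponentiation.threshold 10000000

/-- The slices of the chunk 844. -/
noncomputable def c844 : List (List ℕ) := [
  [tr p830_35,
   tr p831_35,
   tr p832_35,
   tr p833_35,
   s3_7 (s2_6 (s1_4 (s0_5 p832_37))),
   p844_5,
   tr p834_35,
   tr p835_35],
  [s6_7 (s4_5 (s3_4 (s2_5 (s1_7 (s0_6 p832_37))))),
   p844_9,
   s3_5 (s2_4 (s1_7 (s0_6 p834_35))),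
   tr p836_35,
   tr p837_35,
   tr p838_35,
   tr p839_35,
   tr p840_35],
  [s3_6 (s2_7 (s1_4 (s0_5 p832_49))),
   s3_6 (s2_7 (s1_4 (s0_5 p833_49))),
   s3_7 (s2_6 (s1_4 (s0_5 p837_37))),
   p844_19,
   s3_4 (s2_5 (s1_6 (s0_7 p834_49))),
   s3_6 (s2_7 (s1_4 (s0_5 p836_49))),
   s3_7 (s2_6 (s1_4 (s0_5 p839_37))),
   p844_23],
  [s3_6 (s2_7 (s1_4 (s0_5 p834_49))),
   s3_6 (s2_7 (s1_4 (s0_5 p835_49))),
   s6_7 (s4_5 (s3_4 (s2_5 (s1_7 (s0_6 p839_37))))),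
   p844_27,
   s3_6 (s2_7 (s1_4 (s0_5 p839_49))),
   s3_6 (s2_7 (s1_4 (s0_5 p840_49))),
   tr p841_35,
   tr p842_35],
  [s3_5 (s2_4 (s1_7 (s0_6 p831_35))),
   tr p843_35,
   s3_5 (s2_4 (s1_7 (s0_6 p833_35))),
   p844_35,
   s5_7 (s4_6 (s1_3 (s0_2 p844_9))),
   p844_37,
   s3_5 (s2_4 (s1_7 (s0_6 p836_35))),
   tr p845_35],
  [s5_7 (s4_6 (s1_3 (s0_2 p844_5))),
   s5_7 (s4_6 (s1_3 (s0_2 p844_37))),
   s3_5 (s2_4 (s1_7 (s0_6 p835_35))),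
   s3_5 (s2_4 (s1_7 (s0_6 p845_35))),
   s3_5 (s2_4 (s1_7 (s0_6 p838_35))),
   p844_45,
   s3_5 (s2_4 (s1_7 (s0_6 p840_35))),
   p844_47],
  [s3_4 (s2_5 (s1_6 (s0_7 p833_49))),
   p844_49,
   s5_7 (s4_6 (s1_3 (s0_2 p844_19))),
   p844_51,
   s3_4 (s2_5 (s1_6 (s0_7 p835_49))),
   s3_4 (s2_5 (s1_6 (s0_7 p845_49))),
   s5_7 (s4_6 (s1_3 (s0_2 p844_27))),
   p844_55],
  [s3_4 (s2_5 (s1_6 (s0_7 p836_49))),
   s3_6 (s2_7 (s1_4 (s0_5 p845_49))),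
   s5_7 (s4_6 (s1_3 (s0_2 p844_23))),
   s5_7 (s4_6 (s1_3 (s0_2 p844_55))),
   s3_4 (s2_5 (s1_6 (s0_7 p840_49))),
   p844_61,
   s3_5 (s2_4 (s1_7 (s0_6 p842_35))),
   tr p848_35]]

theorem k844 : eqNN c844 (slO 64 (D.chG 495 35) 8) = true := by decide +kernel

/-- The slices of the chunk 845. -/
noncomputable def c845 : List (List ℕ) := [
  [tr p830_39,
   tr p831_39,
   p845_2,
   p845_3,
   s4_5 (s0_1 p845_2),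
   s4_5 (s0_1 p845_3),
   tr p834_39,
   tr p835_39],
  [s4_5 (s0_1 p845_16),
   p845_9,
   s3_5 (s2_4 (s1_7 (s0_6 p834_43))),
   tr p836_39,
   p845_12,
   p845_13,
   p845_14,
   p845_15],
  [p845_16,
   s4_5 (s0_1 p845_9),
   s4_5 (s0_1 p845_12),
   s4_5 (s0_1 p845_13),
   s6_7 (s4_5 (s3_5 (s2_4 (s1_6 (s0_7 p834_43))))),
   s3_7 (s2_6 (s1_4 (s0_5 p836_39))),
   s4_5 (s0_1 p845_14),
   s4_5 (s0_1 p845_15)],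
  [s3_6 (s2_7 (s1_5 (s0_4 p834_57))),
   s3_6 (s2_7 (s1_5 (s0_4 p835_57))),
   s4_5 (s0_1 p845_28),
   p845_27,
   p845_28,
   s4_5 (s0_1 p845_27),
   tr p841_39,
   tr p842_39],
  [s3_5 (s2_4 (s1_7 (s0_6 p831_43))),
   tr p843_39,
   p845_34,
   p845_35,
   s4_5 (s0_1 p845_34),
   s4_5 (s0_1 p845_35),
   s3_5 (s2_4 (s1_7 (s0_6 p836_43))),
   p845_39],
  [s4_5 (s0_1 p845_48),
   s4_5 (s0_1 p845_49),
   s3_5 (s2_4 (s1_7 (s0_6 p835_43))),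
   p845_43,
   p845_44,
   p845_45,
   p845_46,
   p845_47],
  [p845_48,
   p845_49,
   s4_5 (s0_1 p845_44),
   s4_5 (s0_1 p845_45),
   s6_7 (s4_5 (s3_5 (s2_4 (s1_6 (s0_7 p835_43))))),
   s4_5 (s0_1 p845_43),
   s4_5 (s0_1 p845_46),
   s4_5 (s0_1 p845_47)],
  [s3_4 (s2_5 (s1_6 (s0_7 p836_53))),
   p845_57,
   s4_5 (s0_1 p845_60),
   s4_5 (s0_1 p845_61),
   p845_60,
   p845_61,
   s3_5 (s2_4 (s1_7 (s0_6 p842_43))),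
   tr p848_39]]

theorem k845 : eqNN c845 (slO 64 (D.chG 495 39) 8) = true := by decide +kernel

/-- The slices of the chunk 846. -/
noncomputable def c846 : List (List ℕ) := [
  [tr p830_45,
   tr p831_45,
   tr p832_45,
   tr p833_45,
   s3_7 (s2_6 (s1_4 (s0_5 p832_51))),
   p846_5,
   tr p834_45,
   tr p835_45],
  [s3_6 (s2_7 (s1_5 (s0_4 p832_51))),
   s6_7 (s4_5 (s2_3 (s0_1 p846_5))),
   s3_5 (s2_4 (s1_7 (s0_6 p834_45))),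
   tr p836_45,
   tr p837_45,
   tr p838_45,
   tr p839_45,
   tr p840_45],
  [s3_6 (s2_7 (s1_4 (s0_5 p832_45))),
   s3_6 (s2_7 (s1_4 (s0_5 p833_45))),
   s3_6 (s2_7 (s1_5 (s0_4 p837_51))),
   p846_19,
   s3_4 (s2_5 (s1_6 (s0_7 p834_45))),
   s3_6 (s2_7 (s1_4 (s0_5 p836_45))),
   s3_7 (s2_6 (s1_4 (s0_5 p839_51))),
   p846_23],
  [s3_6 (s2_7 (s1_4 (s0_5 p834_45))),
   s3_6 (s2_7 (s1_4 (s0_5 p835_45))),
   s3_6 (s2_7 (s1_5 (s0_4 p839_51))),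
   s6_7 (s4_5 (s2_3 (s0_1 p846_23))),
   s3_6 (s2_7 (s1_4 (s0_5 p839_45))),
   s3_6 (s2_7 (s1_4 (s0_5 p840_45))),
   tr p841_45,
   tr p842_45],
  [s3_5 (s2_4 (s1_7 (s0_6 p831_45))),
   tr p843_45,
   s3_5 (s2_4 (s1_7 (s0_6 p833_45))),
   tr p844_45,
   s5_6 (s4_7 (s1_2 (s0_3 p846_5))),
   s3_7 (s2_6 (s1_4 (s0_5 p844_51))),
   s3_5 (s2_4 (s1_7 (s0_6 p836_45))),
   tr p845_45],
  [s5_7 (s4_6 (s1_3 (s0_2 p846_5))),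
   s3_6 (s2_7 (s1_5 (s0_4 p844_51))),
   s3_5 (s2_4 (s1_7 (s0_6 p835_45))),
   s3_5 (s2_4 (s1_7 (s0_6 p845_45))),
   s3_5 (s2_4 (s1_7 (s0_6 p838_45))),
   p846_45,
   s3_5 (s2_4 (s1_7 (s0_6 p840_45))),
   p846_47],
  [s3_4 (s2_5 (s1_6 (s0_7 p833_45))),
   s3_6 (s2_7 (s1_4 (s0_5 p844_45))),
   s5_7 (s4_6 (s1_3 (s0_2 p846_19))),
   p846_51,
   s3_4 (s2_5 (s1_6 (s0_7 p835_45))),
   s3_4 (s2_5 (s1_6 (s0_7 p845_45))),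
   s5_6 (s4_7 (s1_2 (s0_3 p846_23))),
   p846_55],
  [s3_4 (s2_5 (s1_6 (s0_7 p836_45))),
   s3_6 (s2_7 (s1_4 (s0_5 p845_45))),
   s5_7 (s4_6 (s1_3 (s0_2 p846_23))),
   s6_7 (s4_5 (s2_3 (s0_1 p846_55))),
   s3_4 (s2_5 (s1_6 (s0_7 p840_45))),
   s6_7 (s4_5 (s2_3 (s0_1 p846_47))),
   s3_5 (s2_4 (s1_7 (s0_6 p842_45))),
   tr p848_45]]

theorem k846 : eqNN c846 (slO 64 (D.chG 495 45) 8) = true := by decide +kernel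

/-- The slices of the chunk 847. -/
noncomputable def c847 : List (List ℕ) := [
  [tr p830_47,
   tr p831_47,
   tr p832_47,
   tr p833_47,
   s3_7 (s2_6 (s1_4 (s0_5 p832_55))),
   p847_5,
   tr p834_47,
   tr p835_47],
  [s6_7 (s4_5 (s3_4 (s2_5 (s1_7 (s0_6 p832_55))))),
   p847_9,
   s3_5 (s2_4 (s1_7 (s0_6 p834_47))),
   tr p836_47,
   tr p837_47,
   tr p838_47,
   tr p839_47,
   tr p840_47],
  [s3_6 (s2_7 (s1_4 (s0_5 p832_61))),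
   s3_6 (s2_7 (s1_4 (s0_5 p833_61))),
   s3_7 (s2_6 (s1_4 (s0_5 p837_55))),
   p847_19,
   s3_4 (s2_5 (s1_6 (s0_7 p834_61))),
   s3_6 (s2_7 (s1_4 (s0_5 p836_61))),
   s3_7 (s2_6 (s1_4 (s0_5 p839_55))),
   p847_23],
  [s3_6 (s2_7 (s1_4 (s0_5 p834_61))),
   s3_6 (s2_7 (s1_4 (s0_5 p835_61))),
   s6_7 (s4_5 (s3_4 (s2_5 (s1_7 (s0_6 p839_55))))),
   p847_27,
   s3_6 (s2_7 (s1_4 (s0_5 p839_61))),
   s3_6 (s2_7 (s1_4 (s0_5 p840_61))),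
   tr p841_47,
   tr p842_47],
  [s3_5 (s2_4 (s1_7 (s0_6 p831_47))),
   tr p843_47,
   s3_5 (s2_4 (s1_7 (s0_6 p833_47))),
   tr p844_47,
   s5_7 (s4_6 (s1_3 (s0_2 p847_9))),
   s3_7 (s2_6 (s1_4 (s0_5 p844_55))),
   s3_5 (s2_4 (s1_7 (s0_6 p836_47))),
   tr p845_47],
  [s5_7 (s4_6 (s1_3 (s0_2 p847_5))),
   s6_7 (s4_5 (s3_4 (s2_5 (s1_7 (s0_6 p844_55))))),
   s3_5 (s2_4 (s1_7 (s0_6 p835_47))),
   s3_5 (s2_4 (s1_7 (s0_6 p845_47))),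
   s3_5 (s2_4 (s1_7 (s0_6 p838_47))),
   tr p846_47,
   s3_5 (s2_4 (s1_7 (s0_6 p840_47))),
   p847_47],
  [s3_4 (s2_5 (s1_6 (s0_7 p833_61))),
   s3_6 (s2_7 (s1_4 (s0_5 p844_61))),
   s5_7 (s4_6 (s1_3 (s0_2 p847_19))),
   s3_7 (s2_6 (s1_4 (s0_5 p846_55))),
   s3_4 (s2_5 (s1_6 (s0_7 p835_61))),
   s3_4 (s2_5 (s1_6 (s0_7 p845_61))),
   s5_7 (s4_6 (s1_3 (s0_2 p847_27))),
   p847_55],
  [s3_4 (s2_5 (s1_6 (s0_7 p836_61))),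
   s3_6 (s2_7 (s1_4 (s0_5 p845_61))),
   s5_7 (s4_6 (s1_3 (s0_2 p847_23))),
   s5_7 (s4_6 (s1_3 (s0_2 p847_55))),
   s3_4 (s2_5 (s1_6 (s0_7 p840_61))),
   p847_61,
   s3_5 (s2_4 (s1_7 (s0_6 p842_47))),
   tr p848_47]]

theorem k847 : eqNN c847 (slO 64 (D.chG 495 47) 8) = true := by decide +kernel

end Pool.Agent.Lib.MP_afdd4d_co.K10.E6
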