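import Pool.Agent.Lib.MP_afdd4d_co.K10.E6.Dat
import Pool.Agent.Lib.MP_afdd4d_co.K10.E6.Mk
import Pool.Agent.Lib.MP_afdd4d_co.K8.F6Bl5
import Pool.Agent.Lib.MP_afdd4d_co.K10.E6.P0
import Pool.Agent.Lib.MP_afdd4d_co.K10.E6.P1
import Pool.Agent.Lib.MP_afdd4d_co.K10.E6.P2
import Pool.Agent.Lib.MP_afdd4d_co.K10.E6.P3
import Pool.Agent.Lib.MP_afdd4d_co.K10.E6.P4
import Pool.Agent.Lib.MP_afdd4d_co.K10.E6.P5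
import Pool.Agent.Lib.MP_afdd4d_co.K10.E6.P6
import Pool.Agent.Lib.MP_afdd4d_co.K10.E6.P7
import Pool.Agent.Lib.MP_afdd4d_co.K10.E6.P8
import Pool.Agent.Lib.MP_afdd4d_co.K10.E6.P9
import Pool.Agent.Lib.MP_afdd4d_co.K10.E6.P10
import Pool.Agent.Lib.MP_afdd4d_co.K10.E6.P11
import Pool.Agent.Lib.MP_afdd4d_co.K10.E6.P12
import Pool.Agent.Lib.MP_afdd4d_co.K10.E6.P13
import Pool.Agent.Lib.MP_afdd4d_co.K10.E6.P14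
import Pool.Agent.Lib.MP_afdd4d_co.K10.E6.P15
import Pool.Agent.Lib.MP_afdd4d_co.K10.E6.P16
import Pool.Agent.Lib.MP_afdd4d_co.K10.E6.P17
import Pool.Agent.Lib.MP_afdd4d_co.K10.E6.P18
import Pool.Agent.Lib.MP_afdd4d_co.K10.E6.P19
import Pool.Agent.Lib.MP_afdd4d_co.K10.E6.P20
import Pool.Agent.Lib.MP_afdd4d_co.K10.E6.P21
import Pool.Agent.Lib.MP_afdd4d_co.K10.E6.P22
import Pool.Agent.Lib.MP_afdd4d_co.K10.E6.P23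
import Pool.Agent.Lib.MP_afdd4d_co.K10.E6.P24
import Pool.Agent.Lib.MP_afdd4d_co.K10.E6.P25
import Pool.Agent.Lib.MP_afdd4d_co.K10.E6.P26
import Pool.Agent.Lib.MP_afdd4d_co.K10.E6.P27
import Pool.Agent.Lib.MP_afdd4d_co.K10.E6.P28
import Pool.Agent.Lib.MP_afdd4d_co.K10.E6.P29
import Pool.Agent.Lib.MP_afdd4d_co.K10.E6.P30
import Pool.Agent.Lib.MP_afdd4d_co.K10.E6.P31
import Pool.Agent.Lib.MP_afdd4d_co.K10.E6.P32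

/-!
# Tables
-/

namespace Pool.Agent.Lib.MP_afdd4d_co.K10.E6

open K8

set_option maxRecDepth 100000
set_option exponentiation.threshold 10000000

/-- The slices of the chunk 848. -/
noncomputable def c848 : List (List ℕ) := [
  [tr p830_63,
   tr p831_63,
   p848_2,
   p848_3,
   s4_5 (s0_1 p848_2),
   s4_5 (s0_1 p848_3),
   p848_6,
   p848_7],
  [s6_7 (s2_3 p848_2),
   s6_7 (s2_3 p848_3),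
   s5_7 (s4_6 (s1_3 (s0_2 p848_6))),
   p848_11,
   p848_12,
   p848_13,
   p848_14,
   p848_15],
  [s6_7 (s4_5 (s2_3 (s0_1 p848_2))),
   s6_7 (s4_5 (s2_3 (s0_1 p848_3))),
   s6_7 (s2_3 p848_12),
   s6_7 (s2_3 p848_13),
   s5_6 (s4_7 (s1_2 (s0_3 p848_6))),
   s4_5 (s0_1 p848_11),
   s4_5 (s0_1 p848_14),
   s4_5 (s0_1 p848_15)],
  [s6_7 (s2_3 p848_6),
   s6_7 (s2_3 p848_7),
   s6_7 (s2_3 p848_14),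
   s6_7 (s2_3 p848_15),
   s6_7 (s4_5 (s2_3 (s0_1 p848_14))),
   s6_7 (s4_5 (s2_3 (s0_1 p848_15))),
   tr p841_63,
   tr p842_63],
  [s3_5 (s2_4 (s1_7 (s0_6 p831_63))),
   tr p843_63,
   s5_7 (s4_6 (s1_3 (s0_2 p848_3))),
   p848_35,
   s6_7 (s5_6 (s4_7 (s2_3 (s1_2 (s0_3 p848_3))))),
   s4_5 (s0_1 p848_35),
   s5_7 (s4_6 (s1_3 (s0_2 p848_11))),
   p848_39],
  [s6_7 (s5_7 (s4_6 (s2_3 (s1_3 (s0_2 p848_3))))),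
   s6_7 (s2_3 p848_35),
   s5_7 (s4_6 (s1_3 (s0_2 p848_7))),
   s5_7 (s4_6 (s1_3 (s0_2 p848_39))),
   s5_7 (s4_6 (s1_3 (s0_2 p848_13))),
   p848_45,
   s5_7 (s4_6 (s1_3 (s0_2 p848_15))),
   p848_47],
  [s5_6 (s4_7 (s1_2 (s0_3 p848_3))),
   s6_7 (s4_5 (s2_3 (s0_1 p848_35))),
   s6_7 (s5_6 (s4_7 (s2_3 (s1_2 (s0_3 p848_13))))),
   s6_7 (s2_3 p848_45),
   s5_6 (s4_7 (s1_2 (s0_3 p848_7))),
   s5_6 (s4_7 (s1_2 (s0_3 p848_39))),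
   s6_7 (s5_6 (s4_7 (s2_3 (s1_2 (s0_3 p848_15))))),
   s4_5 (s0_1 p848_47)],
  [s5_6 (s4_7 (s1_2 (s0_3 p848_11))),
   s6_7 (s2_3 p848_39),
   s6_7 (s5_7 (s4_6 (s2_3 (s1_3 (s0_2 p848_15))))),
   s6_7 (s2_3 p848_47),
   s5_6 (s4_7 (s1_2 (s0_3 p848_15))),
   s6_7 (s4_5 (s2_3 (s0_1 p848_47))),
   s3_5 (s2_4 (s1_7 (s0_6 p842_63))),
   p848_63]]

theorem k848 : eqNN c848 (slO 64 (D.chG 495 63) 8) = true := by decide +kernel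

/-- The slices of the chunk 849. -/
noncomputable def c849 : List (List ℕ) := [
  [p849_0,
   p849_1,
   p849_2,
   p849_3,
   s4_5 (s0_1 p849_2),
   s4_5 (s0_1 p849_3),
   p849_6,
   s6_7 (s2_3 p849_25)],
  [s6_7 (s2_3 p849_2),
   s6_7 (s2_3 p849_3),
   p849_10,
   p849_11,
   p849_12,
   p849_13,
   s6_7 (s2_3 p849_26),
   s6_7 (s2_3 p849_27)],
  [s6_7 (s4_5 (s2_3 (s0_1 p849_2))),
   s6_7 (s4_5 (s2_3 (s0_1 p849_3))),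
   s6_7 (s2_3 p849_12),
   s6_7 (s2_3 p849_13),
   s4_5 (s0_1 p849_10),
   s4_5 (s0_1 p849_11),
   s6_7 (s4_5 (s2_3 (s0_1 p849_26))),
   s6_7 (s4_5 (s2_3 (s0_1 p849_27)))],
  [s6_7 (s2_3 p849_6),
   p849_25,
   p849_26,
   p849_27,
   s4_5 (s0_1 p849_26),
   s4_5 (s0_1 p849_27),
   tr p855_0,
   tr p856_0],
  [tr p857_0,
   tr p858_0,
   p849_34,
   p849_35,
   s4_5 (s0_1 p849_34),
   s4_5 (s0_1 p849_35),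
   tr p861_0,
   tr p862_0],
  [s6_7 (s2_3 p849_34),
   s6_7 (s2_3 p849_35),
   p849_42,
   p849_43,
   p849_44,
   p849_45,
   s6_7 (s2_3 p849_58),
   s6_7 (s2_3 p849_59)],
  [s6_7 (s4_5 (s2_3 (s0_1 p849_34))),
   s6_7 (s4_5 (s2_3 (s0_1 p849_35))),
   s6_7 (s2_3 p849_44),
   s6_7 (s2_3 p849_45),
   s4_5 (s0_1 p849_42),
   s4_5 (s0_1 p849_43),
   s6_7 (s4_5 (s2_3 (s0_1 p849_58))),
   s6_7 (s4_5 (s2_3 (s0_1 p849_59)))],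
  [s3_6 (s2_7 (s1_5 (s0_4 p861_0))),
   s3_6 (s2_7 (s1_5 (s0_4 p862_0))),
   p849_58,
   p849_59,
   s4_5 (s0_1 p849_58),
   s4_5 (s0_1 p849_59),
   p849_62,
   p849_63]]

theorem k849 : eqNN c849 (slO 64 (D.chG 508 0) 8) = true := by decide +kernel

/-- The slices of the chunk 850. -/
noncomputable def c850 : List (List ℕ) := [
  [tr p849_1,
   p850_1,
   p850_2,
   p850_3,
   s4_5 (s0_1 p850_2),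
   s4_5 (s0_1 p850_3),
   x7_6 (x7_5 (x7_4 (x3_2 (x3_1 (x3_0 (s3_6 (s2_7 (s1_5 (s0_4 (n5 (n4 (n1 (n0 p849_25))))))))))))),
   p850_7],
  [s6_7 (s2_3 p850_2),
   s6_7 (s2_3 p850_3),
   p850_10,
   p850_11,
   p850_12,
   p850_13,
   s6_7 (s2_3 p850_26),
   s6_7 (s2_3 p850_27)],
  [s6_7 (s4_5 (s2_3 (s0_1 p850_2))),
   s6_7 (s4_5 (s2_3 (s0_1 p850_3))),
   s6_7 (s2_3 p850_12),
   s6_7 (s2_3 p850_13),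
   s4_5 (s0_1 p850_10),
   s4_5 (s0_1 p850_11),
   s6_7 (s4_5 (s2_3 (s0_1 p850_26))),
   s6_7 (s4_5 (s2_3 (s0_1 p850_27)))],
  [x6_7 (x6_5 (x6_4 (s3_7 (x2_7 (x2_1 (x2_0 (s2_6 (s1_5 (s0_4 (n5 (n4 (n1 (n0 p849_25))))))))))))),
   s6_7 (s2_3 p850_7),
   p850_26,
   p850_27,
   s4_5 (s0_1 p850_26),
   s4_5 (s0_1 p850_27),
   tr p855_1,
   tr p856_1],
  [tr p857_1,
   tr p858_1,
   p850_34,
   p850_35,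
   s4_5 (s0_1 p850_34),
   s4_5 (s0_1 p850_35),
   tr p861_1,
   tr p862_1],
  [s6_7 (s2_3 p850_34),
   s6_7 (s2_3 p850_35),
   p850_42,
   p850_43,
   p850_44,
   p850_45,
   s6_7 (s2_3 p850_58),
   s6_7 (s2_3 p850_59)],
  [s6_7 (s4_5 (s2_3 (s0_1 p850_34))),
   s6_7 (s4_5 (s2_3 (s0_1 p850_35))),
   s6_7 (s2_3 p850_44),
   s6_7 (s2_3 p850_45),
   s4_5 (s0_1 p850_42),
   s4_5 (s0_1 p850_43),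
   s6_7 (s4_5 (s2_3 (s0_1 p850_58))),
   s6_7 (s4_5 (s2_3 (s0_1 p850_59)))],
  [s3_6 (s2_7 (s1_5 (s0_4 p861_1))),
   s3_6 (s2_7 (s1_5 (s0_4 p862_1))),
   p850_58,
   p850_59,
   s4_5 (s0_1 p850_58),
   s4_5 (s0_1 p850_59),
   p850_62,
   p850_63]]

theorem k850 : eqNN c850 (slO 64 (D.chG 508 1) 8) = true := by decide +kernel

/-- The slices of the chunk 851. -/
noncomputable def c851 : List (List ℕ) := [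
  [tr p849_2,
   tr p850_2,
   p851_2,
   p851_3,
   p851_4,
   p851_5,
   x7_6 (x7_5 (x7_4 (x3_2 (x3_1 (x3_0 (s3_7 (s2_6 (s1_4 (s0_5 (n5 (n4 (n1 (n0 p849_2))))))))))))),
   x7_6 (x7_5 (x7_4 (x3_2 (x3_1 (x3_0 (s3_7 (s2_6 (s1_4 (s0_5 (n5 (n4 (n1 (n0 p850_2)))))))))))))],
  [p851_8,
   p851_9,
   p851_10,
   p851_11,
   x7_6 (x7_5 (x7_4 (s4_5 (x3_2 (x3_1 (x3_0 (s0_1 (n4 (n1 (n0 p851_17)))))))))),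
   p851_13,
   x7_6 (x7_5 (x7_4 (s4_5 (x3_2 (x3_1 (x3_0 (s0_1 (n4 (n1 (n0 p851_21)))))))))),
   x7_6 (x7_5 (x7_4 (s4_5 (x3_2 (x3_1 (x3_0 (s0_1 (n4 (n1 (n0 p851_20))))))))))],
  [x7_6 (x7_5 (x7_4 (s4_5 (x3_2 (x3_1 (x3_0 (s0_1 (n5 (n1 (n0 p851_13)))))))))),
   p851_17,
   x7_6 (x7_5 (x7_4 (s4_5 (x3_2 (x3_1 (x3_0 (s0_1 (n5 (n1 (n0 p851_9)))))))))),
   x7_6 (x7_5 (x7_4 (s4_5 (x3_2 (x3_1 (x3_0 (s0_1 (n5 (n1 (n0 p851_8)))))))))),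
   p851_20,
   p851_21,
   x7_6 (x7_5 (x7_4 (s4_5 (x3_2 (x3_1 (x3_0 (s0_1 (n5 (n1 (n0 p851_11)))))))))),
   x7_6 (x7_5 (x7_4 (s4_5 (x3_2 (x3_1 (x3_0 (s0_1 (n5 (n1 (n0 p851_10))))))))))],
  [x6_7 (x6_5 (x6_4 (s3_7 (x2_7 (x2_1 (x2_0 (s2_6 (s1_4 (s0_5 (n4 (n1 (n0 p849_13)))))))))))),
   x6_7 (x6_5 (x6_4 (s3_7 (x2_7 (x2_1 (x2_0 (s2_6 (s1_4 (s0_5 (n4 (n1 (n0 p850_13)))))))))))),
   x7_6 (x7_5 (x7_4 (x6_7 (x6_5 (x6_4 (x3_2 (x3_1 (x3_0 (s3_7 (x2_7 (x2_1 (x2_0 (s2_6 (s1_5 (s0_4 (n5 (n1 p854_13))))))))))))))))),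
   x7_6 (x7_5 (x7_4 (x6_7 (x6_5 (x6_4 (x3_2 (x3_1 (x3_0 (s3_7 (x2_7 (x2_1 (x2_0 (s2_6 (s1_5 (s0_4 (n5 (n1 p853_13))))))))))))))))),
   x6_7 (x6_5 (x6_4 (s3_7 (x2_7 (x2_1 (x2_0 (s2_6 (s1_4 (s0_5 (n4 (n1 p854_13))))))))))),
   x6_7 (x6_5 (x6_4 (s3_7 (x2_7 (x2_1 (x2_0 (s2_6 (s1_4 (s0_5 (n4 (n1 p853_13))))))))))),
   tr p855_2,
   tr p856_2],
  [tr p857_2,
   tr p858_2,
   tr p859_2,
   tr p860_2,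
   x7_6 (x7_5 (x7_4 (x3_2 (x3_1 (x3_0 (s3_7 (s2_6 (s1_4 (s0_5 (n5 (n4 (n2 (n1 (n0 p859_2)))))))))))))),
   x7_6 (x7_5 (x7_4 (x3_2 (x3_1 (x3_0 (s3_7 (s2_6 (s1_4 (s0_5 (n5 (n4 (n2 (n1 (n0 p860_2)))))))))))))),
   tr p861_2,
   tr p862_2],
  [s3_6 (s2_7 (s1_5 (s0_4 p859_8))),
   s3_6 (s2_7 (s1_5 (s0_4 p860_8))),
   x7_6 (x7_5 (x7_4 (x3_2 (x3_1 (x3_0 (s3_6 (s2_7 (s1_5 (s0_4 (n5 (n4 (n3 (n1 p860_16))))))))))))),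
   x7_6 (x7_5 (x7_4 (x3_2 (x3_1 (x3_0 (s3_6 (s2_7 (s1_5 (s0_4 (n5 (n4 (n3 (n1 p859_16))))))))))))),
   p851_44,
   p851_45,
   x7_6 (x7_5 (x7_4 (s4_5 (x3_2 (x3_1 (x3_0 (s0_1 (n6 (n4 (n1 (n0 p851_51))))))))))),
   x7_6 (x7_5 (x7_4 (s4_5 (x3_2 (x3_1 (x3_0 (s0_1 (n6 (n4 (n1 (n0 p851_50)))))))))))],
  [s3_6 (s2_7 (s1_4 (s0_5 p859_16))),
   s3_6 (s2_7 (s1_4 (s0_5 p860_16))),
   p851_50,
   p851_51,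
   x7_6 (x7_5 (x7_4 (x3_2 (x3_1 (x3_0 (s3_6 (s2_7 (s1_4 (s0_5 (n5 (n4 (n3 (n1 p860_8))))))))))))),
   x7_6 (x7_5 (x7_4 (x3_2 (x3_1 (x3_0 (s3_6 (s2_7 (s1_4 (s0_5 (n5 (n4 (n3 (n1 p859_8))))))))))))),
   x7_6 (x7_5 (x7_4 (s4_5 (x3_2 (x3_1 (x3_0 (s0_1 (n6 (n5 (n1 (n0 p851_45))))))))))),
   x7_6 (x7_5 (x7_4 (s4_5 (x3_2 (x3_1 (x3_0 (s0_1 (n6 (n5 (n1 (n0 p851_44)))))))))))],
  [s3_6 (s2_7 (s1_5 (s0_4 p861_8))),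
   s3_6 (s2_7 (s1_5 (s0_4 p862_8))),
   p851_58,
   p851_59,
   p851_60,
   p851_61,
   x7_6 (x7_5 (x7_4 (x3_2 (x3_1 (x3_0 (s3_6 (s2_7 (s1_4 (s0_5 (n5 (n4 (n3 p861_8)))))))))))),
   x7_6 (x7_5 (x7_4 (x3_2 (x3_1 (x3_0 (s3_6 (s2_7 (s1_4 (s0_5 (n5 (n4 (n3 p862_8))))))))))))]]

theorem k851 : eqNN c851 (slO 64 (D.chG 508 2) 8) = true := by decide +kernel

end Pool.Agent.Lib.MP_afdd4d_co.K10.E6
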