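import Pool.Agent.Lib.MP_afdd4d_co.K10.E6.Dat
import Pool.Agent.Lib.MP_afdd4d_co.K10.E6.Mk
import Pool.Agent.Lib.MP_afdd4d_co.K8.F6Bl5
import Pool.Agent.Lib.MP_afdd4d_co.K10.E6.P0
import Pool.Agent.Lib.MP_afdd4d_co.K10.E6.P1
import Pool.Agent.Lib.MP_afdd4d_co.K10.E6.P2
import Pool.Agent.Lib.MP_afdd4d_co.K10.E6.P3
import Pool.Agent.Lib.MP_afdd4d_co.K10.E6.P4
import Pool.Agent.Lib.MP_afdd4d_co.K10.E6.P5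
import Pool.Agent.Lib.MP_afdd4d_co.K10.E6.P6
import Pool.Agent.Lib.MP_afdd4d_co.K10.E6.P7
import Pool.Agent.Lib.MP_afdd4d_co.K10.E6.P8
import Pool.Agent.Lib.MP_afdd4d_co.K10.E6.P9
import Pool.Agent.Lib.MP_afdd4d_co.K10.E6.P10
import Pool.Agent.Lib.MP_afdd4d_co.K10.E6.P11
import Pool.Agent.Lib.MP_afdd4d_co.K10.E6.P12
import Pool.Agent.Lib.MP_afdd4d_co.K10.E6.P13
import Pool.Agent.Lib.MP_afdd4d_co.K10.E6.P14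
import Pool.Agent.Lib.MP_afdd4d_co.K10.E6.P15
import Pool.Agent.Lib.MP_afdd4d_co.K10.E6.P16
import Pool.Agent.Lib.MP_afdd4d_co.K10.E6.P17
import Pool.Agent.Lib.MP_afdd4d_co.K10.E6.P18
import Pool.Agent.Lib.MP_afdd4d_co.K10.E6.P19
import Pool.Agent.Lib.MP_afdd4d_co.K10.E6.P20
import Pool.Agent.Lib.MP_afdd4d_co.K10.E6.P21
import Pool.Agent.Lib.MP_afdd4d_co.K10.E6.P22
import Pool.Agent.Lib.MP_afdd4d_co.K10.E6.P23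
import Pool.Agent.Lib.MP_afdd4d_co.K10.E6.P24
import Pool.Agent.Lib.MP_afdd4d_co.K10.E6.P25
import Pool.Agent.Lib.MP_afdd4d_co.K10.E6.P26
import Pool.Agent.Lib.MP_afdd4d_co.K10.E6.P27
import Pool.Agent.Lib.MP_afdd4d_co.K10.E6.P28
import Pool.Agent.Lib.MP_afdd4d_co.K10.E6.P29
import Pool.Agent.Lib.MP_afdd4d_co.K10.E6.P30
import Pool.Agent.Lib.MP_afdd4d_co.K10.E6.P31
import Pool.Agent.Lib.MP_afdd4d_co.K10.E6.P32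

/-!
# Tables
-/

namespace Pool.Agent.Lib.MP_afdd4d_co.K10.E6

open K8

set_option maxRecDepth 100000
set_option exponentiation.threshold 10000000

/-- The slices of the chunk 852. -/
noncomputable def c852 : List (List ℕ) := [
  [tr p849_3,
   tr p850_3,
   tr p851_3,
   p852_3,
   s3_7 (s2_6 (s1_4 (s0_5 p851_5))),
   p852_5,
   x7_6 (x7_5 (x7_4 (x3_2 (x3_1 (x3_0 (s3_7 (s2_6 (s1_4 (s0_5 (n5 (n4 (n1 (n0 p849_3))))))))))))),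
   x7_6 (x7_5 (x7_4 (x3_2 (x3_1 (x3_0 (s3_7 (s2_6 (s1_4 (s0_5 (n5 (n4 (n1 (n0 p850_3)))))))))))))],
  [s3_6 (s2_7 (s1_5 (s0_4 p851_9))),
   p852_9,
   p852_10,
   p852_11,
   p852_12,
   x7_6 (x7_5 (x7_4 (x3_2 (x3_1 (x3_0 (s3_6 (s2_7 (s1_5 (s0_4 (n5 (n4 (n1 p851_17)))))))))))),
   x7_6 (x7_5 (x7_4 (s4_5 (x3_2 (x3_1 (x3_0 (s0_1 (n4 (n1 (n0 p852_21)))))))))),
   x7_6 (x7_5 (x7_4 (s4_5 (x3_2 (x3_1 (x3_0 (s0_1 (n4 (n1 (n0 p852_20))))))))))],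
  [s3_6 (s2_7 (s1_4 (s0_5 p851_17))),
   x7_6 (x7_5 (x7_4 (s4_5 (x3_2 (x3_1 (x3_0 (s0_1 (n5 (n1 (n0 p852_12)))))))))),
   x7_6 (x7_5 (x7_4 (s4_5 (x3_2 (x3_1 (x3_0 (s0_1 (n5 (n1 (n0 p852_9)))))))))),
   x7_6 (x7_5 (x7_4 (x3_2 (x3_1 (x3_0 (s3_6 (s2_7 (s1_4 (s0_5 (n5 (n4 (n1 p851_9)))))))))))),
   p852_20,
   p852_21,
   x7_6 (x7_5 (x7_4 (s4_5 (x3_2 (x3_1 (x3_0 (s0_1 (n5 (n1 (n0 p852_11)))))))))),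
   x7_6 (x7_5 (x7_4 (s4_5 (x3_2 (x3_1 (x3_0 (s0_1 (n5 (n1 (n0 p852_10))))))))))],
  [x6_7 (x6_5 (x6_4 (s3_7 (x2_7 (x2_1 (x2_0 (s2_6 (s1_4 (s0_5 (n4 (n1 (n0 p849_12)))))))))))),
   x6_7 (x6_5 (x6_4 (s3_7 (x2_7 (x2_1 (x2_0 (s2_6 (s1_4 (s0_5 (n4 (n1 (n0 p850_12)))))))))))),
   x7_6 (x7_5 (x7_4 (x6_7 (x6_5 (x6_4 (x3_2 (x3_1 (x3_0 (s3_7 (x2_7 (x2_1 (x2_0 (s2_6 (s1_5 (s0_4 (n5 (n1 p854_12))))))))))))))))),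
   x7_6 (x7_5 (x7_4 (x6_7 (x6_5 (x6_4 (x3_2 (x3_1 (x3_0 (s3_7 (x2_7 (x2_1 (x2_0 (s2_6 (s1_5 (s0_4 (n5 (n1 p853_12))))))))))))))))),
   x6_7 (x6_5 (x6_4 (s3_7 (x2_7 (x2_1 (x2_0 (s2_6 (s1_4 (s0_5 (n4 (n1 p854_12))))))))))),
   x6_7 (x6_5 (x6_4 (s3_7 (x2_7 (x2_1 (x2_0 (s2_6 (s1_4 (s0_5 (n4 (n1 p853_12))))))))))),
   tr p855_3,
   tr p856_3],
  [tr p857_3,
   tr p858_3,
   tr p859_3,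
   tr p860_3,
   x7_6 (x7_5 (x7_4 (x3_2 (x3_1 (x3_0 (s3_7 (s2_6 (s1_4 (s0_5 (n5 (n4 (n2 (n1 (n0 p859_3)))))))))))))),
   x7_6 (x7_5 (x7_4 (x3_2 (x3_1 (x3_0 (s3_7 (s2_6 (s1_4 (s0_5 (n5 (n4 (n2 (n1 (n0 p860_3)))))))))))))),
   tr p861_3,
   tr p862_3],
  [s3_6 (s2_7 (s1_5 (s0_4 p859_9))),
   s3_6 (s2_7 (s1_5 (s0_4 p860_9))),
   x7_6 (x7_5 (x7_4 (x3_2 (x3_1 (x3_0 (s3_6 (s2_7 (s1_5 (s0_4 (n5 (n4 (n3 (n1 p860_17))))))))))))),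
   x7_6 (x7_5 (x7_4 (x3_2 (x3_1 (x3_0 (s3_6 (s2_7 (s1_5 (s0_4 (n5 (n4 (n3 (n1 p859_17))))))))))))),
   p852_44,
   p852_45,
   x7_6 (x7_5 (x7_4 (s4_5 (x3_2 (x3_1 (x3_0 (s0_1 (n6 (n4 (n1 (n0 p852_51))))))))))),
   x7_6 (x7_5 (x7_4 (s4_5 (x3_2 (x3_1 (x3_0 (s0_1 (n6 (n4 (n1 (n0 p852_50)))))))))))],
  [s3_6 (s2_7 (s1_4 (s0_5 p859_17))),
   s3_6 (s2_7 (s1_4 (s0_5 p860_17))),
   p852_50,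
   p852_51,
   x7_6 (x7_5 (x7_4 (x3_2 (x3_1 (x3_0 (s3_6 (s2_7 (s1_4 (s0_5 (n5 (n4 (n3 (n1 p860_9))))))))))))),
   x7_6 (x7_5 (x7_4 (x3_2 (x3_1 (x3_0 (s3_6 (s2_7 (s1_4 (s0_5 (n5 (n4 (n3 (n1 p859_9))))))))))))),
   x7_6 (x7_5 (x7_4 (s4_5 (x3_2 (x3_1 (x3_0 (s0_1 (n6 (n5 (n1 (n0 p852_45))))))))))),
   x7_6 (x7_5 (x7_4 (s4_5 (x3_2 (x3_1 (x3_0 (s0_1 (n6 (n5 (n1 (n0 p852_44)))))))))))],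
  [s3_6 (s2_7 (s1_5 (s0_4 p861_9))),
   s3_6 (s2_7 (s1_5 (s0_4 p862_9))),
   p852_58,
   p852_59,
   p852_60,
   p852_61,
   x7_6 (x7_5 (x7_4 (x3_2 (x3_1 (x3_0 (s3_6 (s2_7 (s1_4 (s0_5 (n5 (n4 (n3 p861_9)))))))))))),
   x7_6 (x7_5 (x7_4 (x3_2 (x3_1 (x3_0 (s3_6 (s2_7 (s1_4 (s0_5 (n5 (n4 (n3 p862_9))))))))))))]]

theorem k852 : eqNN c852 (slO 64 (D.chG 508 3) 8) = true := by decide +kernel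

/-- The slices of the chunk 853. -/
noncomputable def c853 : List (List ℕ) := [
  [tr p849_10,
   tr p850_10,
   tr p851_10,
   tr p852_10,
   s3_7 (s2_6 (s1_4 (s0_5 p851_20))),
   s3_7 (s2_6 (s1_4 (s0_5 p852_20))),
   x7_6 (x7_5 (x7_4 (x3_2 (x3_1 (x3_0 (s3_6 (s2_7 (s1_5 (s0_4 (n5 (n1 (n0 p849_27)))))))))))),
   x7_6 (x7_5 (x7_4 (x3_2 (x3_1 (x3_0 (s3_6 (s2_7 (s1_5 (s0_4 (n5 (n1 (n0 p850_27))))))))))))],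
  [s3_6 (s2_7 (s1_5 (s0_4 p851_10))),
   s3_6 (s2_7 (s1_5 (s0_4 p852_10))),
   p853_10,
   p853_11,
   p853_12,
   p853_13,
   s6_7 (s2_3 p853_26),
   p853_15],
  [s3_6 (s2_7 (s1_4 (s0_5 p851_20))),
   s3_6 (s2_7 (s1_4 (s0_5 p852_20))),
   s6_7 (s2_3 p853_12),
   s6_7 (s2_3 p853_13),
   p853_20,
   p853_21,
   s6_7 (s2_3 p853_28),
   p853_23],
  [x6_7 (x6_5 (x6_4 (s3_7 (x2_7 (x2_1 (x2_0 (s2_6 (s1_5 (s0_4 (n5 (n1 (n0 p849_27)))))))))))),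
   x6_7 (x6_5 (x6_4 (s3_7 (x2_7 (x2_1 (x2_0 (s2_6 (s1_5 (s0_4 (n5 (n1 (n0 p850_27)))))))))))),
   p853_26,
   s6_7 (s2_3 p853_15),
   p853_28,
   s6_7 (s2_3 p853_23),
   x7_6 (x7_5 (x7_4 (x3_2 (x3_1 (x3_0 (tr (n5 p855_15))))))),
   x7_6 (x7_5 (x7_4 (x3_2 (x3_1 (x3_0 (tr (n5 p856_15)))))))],
  [x7_6 (x7_5 (x7_4 (x3_2 (x3_1 (x3_0 (tr (n5 (n2 (n1 (n0 p857_15)))))))))),
   x7_6 (x7_5 (x7_4 (x3_2 (x3_1 (x3_0 (tr (n5 (n2 (n1 (n0 p858_15)))))))))),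
   tr p859_10,
   tr p860_10,
   s3_7 (s2_6 (s1_4 (s0_5 p859_20))),
   s3_7 (s2_6 (s1_4 (s0_5 p860_20))),
   tr p861_10,
   tr p862_10],
  [s3_6 (s2_7 (s1_5 (s0_4 p859_10))),
   s3_6 (s2_7 (s1_5 (s0_4 p860_10))),
   p853_42,
   p853_43,
   p853_44,
   p853_45,
   s6_7 (s2_3 p853_58),
   s6_7 (s2_3 p853_59)],
  [s3_6 (s2_7 (s1_4 (s0_5 p859_20))),
   s3_6 (s2_7 (s1_4 (s0_5 p860_20))),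
   s6_7 (s2_3 p853_44),
   s6_7 (s2_3 p853_45),
   p853_52,
   p853_53,
   s6_7 (s2_3 p853_60),
   s6_7 (s2_3 p853_61)],
  [s3_6 (s2_7 (s1_5 (s0_4 p861_10))),
   s3_6 (s2_7 (s1_5 (s0_4 p862_10))),
   p853_58,
   p853_59,
   p853_60,
   p853_61,
   x6_7 (x6_5 (x6_4 (s3_7 (x2_7 (x2_1 (x2_0 (s2_6 (s1_5 (s0_4 (n5 (n3 p861_27))))))))))),
   x6_7 (x6_5 (x6_4 (s3_7 (x2_7 (x2_1 (x2_0 (s2_6 (s1_5 (s0_4 (n5 (n3 p862_27)))))))))))]]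

theorem k853 : eqNN c853 (slO 64 (D.chG 508 10) 8) = true := by decide +kernel

/-- The slices of the chunk 854. -/
noncomputable def c854 : List (List ℕ) := [
  [tr p849_11,
   tr p850_11,
   tr p851_11,
   tr p852_11,
   s3_7 (s2_6 (s1_4 (s0_5 p851_21))),
   s3_7 (s2_6 (s1_4 (s0_5 p852_21))),
   x7_6 (x7_5 (x7_4 (x3_2 (x3_1 (x3_0 (s3_6 (s2_7 (s1_5 (s0_4 (n5 (n1 (n0 p849_26)))))))))))),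
   x7_6 (x7_5 (x7_4 (x3_2 (x3_1 (x3_0 (s3_6 (s2_7 (s1_5 (s0_4 (n5 (n1 (n0 p850_26))))))))))))],
  [s3_6 (s2_7 (s1_5 (s0_4 p851_11))),
   s3_6 (s2_7 (s1_5 (s0_4 p852_11))),
   tr p853_11,
   p854_11,
   p854_12,
   p854_13,
   p854_14,
   x7_6 (x7_5 (x7_4 (x3_2 (x3_1 (x3_0 (s3_6 (s2_7 (s1_5 (s0_4 (n5 (n1 p853_26)))))))))))],
  [s3_6 (s2_7 (s1_4 (s0_5 p851_21))),
   s3_6 (s2_7 (s1_4 (s0_5 p852_21))),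
   s6_7 (s2_3 p854_12),
   s6_7 (s2_3 p854_13),
   s3_7 (s2_6 (s1_4 (s0_5 p853_21))),
   p854_21,
   p854_22,
   x7_6 (x7_5 (x7_4 (x3_2 (x3_1 (x3_0 (s3_6 (s2_7 (s1_4 (s0_5 (n4 (n1 p853_28)))))))))))],
  [x6_7 (x6_5 (x6_4 (s3_7 (x2_7 (x2_1 (x2_0 (s2_6 (s1_5 (s0_4 (n5 (n1 (n0 p849_26)))))))))))),
   x6_7 (x6_5 (x6_4 (s3_7 (x2_7 (x2_1 (x2_0 (s2_6 (s1_5 (s0_4 (n5 (n1 (n0 p850_26)))))))))))),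
   s6_7 (s2_3 p854_14),
   x6_7 (x6_5 (x6_4 (s3_7 (x2_7 (x2_1 (x2_0 (s2_6 (s1_5 (s0_4 (n5 (n1 p853_26))))))))))),
   s6_7 (s2_3 p854_22),
   x6_7 (x6_5 (x6_4 (s3_7 (x2_7 (x2_1 (x2_0 (s2_6 (s1_4 (s0_5 (n4 (n1 p853_28))))))))))),
   x7_6 (x7_5 (x7_4 (x3_2 (x3_1 (x3_0 (tr (n5 p855_14))))))),
   x7_6 (x7_5 (x7_4 (x3_2 (x3_1 (x3_0 (tr (n5 p856_14)))))))],
  [x7_6 (x7_5 (x7_4 (x3_2 (x3_1 (x3_0 (tr (n5 (n2 (n1 (n0 p857_14)))))))))),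
   x7_6 (x7_5 (x7_4 (x3_2 (x3_1 (x3_0 (tr (n5 (n2 (n1 (n0 p858_14)))))))))),
   tr p859_11,
   tr p860_11,
   s3_7 (s2_6 (s1_4 (s0_5 p859_21))),
   s3_7 (s2_6 (s1_4 (s0_5 p860_21))),
   tr p861_11,
   tr p862_11],
  [s3_6 (s2_7 (s1_5 (s0_4 p859_11))),
   s3_6 (s2_7 (s1_5 (s0_4 p860_11))),
   p854_42,
   p854_43,
   p854_44,
   p854_45,
   s6_7 (s2_3 p854_58),
   s6_7 (s2_3 p854_59)],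
  [s3_6 (s2_7 (s1_4 (s0_5 p859_21))),
   s3_6 (s2_7 (s1_4 (s0_5 p860_21))),
   s6_7 (s2_3 p854_44),
   s6_7 (s2_3 p854_45),
   p854_52,
   p854_53,
   s6_7 (s2_3 p854_60),
   s6_7 (s2_3 p854_61)],
  [s3_6 (s2_7 (s1_5 (s0_4 p861_11))),
   s3_6 (s2_7 (s1_5 (s0_4 p862_11))),
   p854_58,
   p854_59,
   p854_60,
   p854_61,
   x6_7 (x6_5 (x6_4 (s3_7 (x2_7 (x2_1 (x2_0 (s2_6 (s1_5 (s0_4 (n5 (n3 p861_26))))))))))),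
   x6_7 (x6_5 (x6_4 (s3_7 (x2_7 (x2_1 (x2_0 (s2_6 (s1_5 (s0_4 (n5 (n3 p862_26)))))))))))]]

theorem k854 : eqNN c854 (slO 64 (D.chG 508 11) 8) = true := by decide +kernel

/-- The slices of the chunk 855. -/
noncomputable def c855 : List (List ℕ) := [
  [p855_0,
   p855_1,
   p855_2,
   p855_3,
   s4_5 (s0_1 p855_2),
   s4_5 (s0_1 p855_3),
   x7_6 (x7_5 (x7_4 (x3_2 (x3_1 (x3_0 (n5 (n4 p855_0))))))),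
   x7_6 (x7_5 (x7_4 (x3_2 (x3_1 (x3_0 (n5 (n4 p855_1)))))))],
  [s6_7 (s2_3 p855_2),
   s6_7 (s2_3 p855_3),
   x7_6 (x7_5 (x7_4 (x3_2 (x3_1 (x3_0 (n5 p855_15)))))),
   x7_6 (x7_5 (x7_4 (x3_2 (x3_1 (x3_0 (n5 p855_14)))))),
   x6_7 (x6_5 (x6_4 (s4_5 (x2_3 (x2_1 (x2_0 (s0_1 (n5 p855_3)))))))),
   x6_7 (x6_5 (x6_4 (s4_5 (x2_3 (x2_1 (x2_0 (s0_1 (n5 p855_2)))))))),
   p855_14,
   p855_15],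
  [s6_7 (s4_5 (s2_3 (s0_1 p855_2))),
   s6_7 (s4_5 (s2_3 (s0_1 p855_3))),
   x6_7 (x6_5 (x6_4 (x2_3 (x2_1 (x2_0 (n5 p855_3)))))),
   x6_7 (x6_5 (x6_4 (x2_3 (x2_1 (x2_0 (n5 p855_2)))))),
   x7_6 (x7_5 (x7_4 (s4_5 (x3_2 (x3_1 (x3_0 (s0_1 (n5 p855_15)))))))),
   x7_6 (x7_5 (x7_4 (s4_5 (x3_2 (x3_1 (x3_0 (s0_1 (n5 p855_14)))))))),
   s4_5 (s0_1 p855_14),
   s4_5 (s0_1 p855_15)],
  [x6_7 (x6_5 (x6_4 (x2_3 (x2_1 (x2_0 (n5 (n4 p855_0))))))),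
   x6_7 (x6_5 (x6_4 (x2_3 (x2_1 (x2_0 (n5 (n4 p855_1))))))),
   s6_7 (s2_3 p855_14),
   s6_7 (s2_3 p855_15),
   s6_7 (s4_5 (s2_3 (s0_1 p855_14))),
   s6_7 (s4_5 (s2_3 (s0_1 p855_15))),
   p855_30,
   p855_31],
  [p855_32,
   p855_33,
   p855_34,
   p855_35,
   s4_5 (s0_1 p855_34),
   s4_5 (s0_1 p855_35),
   p855_38,
   p855_39],
  [s6_7 (s2_3 p855_34),
   s6_7 (s2_3 p855_35),
   x6_7 (x6_5 (x6_4 (x2_3 (x2_1 (x2_0 (n7 (n5 p855_35))))))),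
   x6_7 (x6_5 (x6_4 (x2_3 (x2_1 (x2_0 (n7 (n5 p855_34))))))),
   x7_6 (x7_5 (x7_4 (x3_2 (x3_1 (x3_0 (n6 (n5 p855_47))))))),
   x7_6 (x7_5 (x7_4 (x3_2 (x3_1 (x3_0 (n6 (n5 p855_46))))))),
   p855_46,
   p855_47],
  [s6_7 (s4_5 (s2_3 (s0_1 p855_34))),
   s6_7 (s4_5 (s2_3 (s0_1 p855_35))),
   x7_6 (x7_5 (x7_4 (s4_5 (x3_2 (x3_1 (x3_0 (s0_1 (n6 (n5 p855_47))))))))),
   x7_6 (x7_5 (x7_4 (s4_5 (x3_2 (x3_1 (x3_0 (s0_1 (n6 (n5 p855_46))))))))),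
   x6_7 (x6_5 (x6_4 (s4_5 (x2_3 (x2_1 (x2_0 (s0_1 (n7 (n5 p855_35))))))))),
   x6_7 (x6_5 (x6_4 (s4_5 (x2_3 (x2_1 (x2_0 (s0_1 (n7 (n5 p855_34))))))))),
   s4_5 (s0_1 p855_46),
   s4_5 (s0_1 p855_47)],
  [s6_7 (s2_3 p855_38),
   s6_7 (s2_3 p855_39),
   s6_7 (s2_3 p855_46),
   s6_7 (s2_3 p855_47),
   s6_7 (s4_5 (s2_3 (s0_1 p855_46))),
   s6_7 (s4_5 (s2_3 (s0_1 p855_47))),
   x6_7 (x6_5 (x6_4 (x2_3 (x2_1 (x2_0 (n7 p855_38)))))),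
   x6_7 (x6_5 (x6_4 (x2_3 (x2_1 (x2_0 (n7 p855_39))))))]]

theorem k855 : eqNN c855 (slO 64 (D.chG 508 30) 8) = true := by decide +kernel

end Pool.Agent.Lib.MP_afdd4d_co.K10.E6
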