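import Pool.Agent.Lib.MP_afdd4d_co.K10.E6.Dat
import Pool.Agent.Lib.MP_afdd4d_co.K10.E6.Mk
import Pool.Agent.Lib.MP_afdd4d_co.K8.F6Bl5
import Pool.Agent.Lib.MP_afdd4d_co.K10.E6.P0
import Pool.Agent.Lib.MP_afdd4d_co.K10.E6.P1
import Pool.Agent.Lib.MP_afdd4d_co.K10.E6.P2
import Pool.Agent.Lib.MP_afdd4d_co.K10.E6.P3
import Pool.Agent.Lib.MP_afdd4d_co.K10.E6.P4
import Pool.Agent.Lib.MP_afdd4d_co.K10.E6.P5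
import Pool.Agent.Lib.MP_afdd4d_co.K10.E6.P6
import Pool.Agent.Lib.MP_afdd4d_co.K10.E6.P7
import Pool.Agent.Lib.MP_afdd4d_co.K10.E6.P8
import Pool.Agent.Lib.MP_afdd4d_co.K10.E6.P9
import Pool.Agent.Lib.MP_afdd4d_co.K10.E6.P10
import Pool.Agent.Lib.MP_afdd4d_co.K10.E6.P11
import Pool.Agent.Lib.MP_afdd4d_co.K10.E6.P12
import Pool.Agent.Lib.MP_afdd4d_co.K10.E6.P13
import Pool.Agent.Lib.MP_afdd4d_co.K10.E6.P14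
import Pool.Agent.Lib.MP_afdd4d_co.K10.E6.P15
import Pool.Agent.Lib.MP_afdd4d_co.K10.E6.P16
import Pool.Agent.Lib.MP_afdd4d_co.K10.E6.P17
import Pool.Agent.Lib.MP_afdd4d_co.K10.E6.P18
import Pool.Agent.Lib.MP_afdd4d_co.K10.E6.P19
import Pool.Agent.Lib.MP_afdd4d_co.K10.E6.P20
import Pool.Agent.Lib.MP_afdd4d_co.K10.E6.P21
import Pool.Agent.Lib.MP_afdd4d_co.K10.E6.P22
import Pool.Agent.Lib.MP_afdd4d_co.K10.E6.P23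
import Pool.Agent.Lib.MP_afdd4d_co.K10.E6.P24
import Pool.Agent.Lib.MP_afdd4d_co.K10.E6.P25
import Pool.Agent.Lib.MP_afdd4d_co.K10.E6.P26
import Pool.Agent.Lib.MP_afdd4d_co.K10.E6.P27
import Pool.Agent.Lib.MP_afdd4d_co.K10.E6.P28
import Pool.Agent.Lib.MP_afdd4d_co.K10.E6.P29
import Pool.Agent.Lib.MP_afdd4d_co.K10.E6.P30
import Pool.Agent.Lib.MP_afdd4d_co.K10.E6.P31
import Pool.Agent.Lib.MP_afdd4d_co.K10.E6.P32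

/-!
# Tables
-/

namespace Pool.Agent.Lib.MP_afdd4d_co.K10.E6

open K8

set_option maxRecDepth 100000
set_option exponentiation.threshold 10000000

/-- The slices of the chunk 856. -/
noncomputable def c856 : List (List ℕ) := [
  [p856_0,
   p856_1,
   p856_2,
   p856_3,
   s4_5 (s0_1 p856_2),
   s4_5 (s0_1 p856_3),
   x7_6 (x7_5 (x7_4 (x3_2 (x3_1 (x3_0 (n5 (n4 p856_0))))))),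
   x7_6 (x7_5 (x7_4 (x3_2 (x3_1 (x3_0 (n5 (n4 p856_1)))))))],
  [s6_7 (s2_3 p856_2),
   s6_7 (s2_3 p856_3),
   x7_6 (x7_5 (x7_4 (x3_2 (x3_1 (x3_0 (n5 p856_15)))))),
   x7_6 (x7_5 (x7_4 (x3_2 (x3_1 (x3_0 (n5 p856_14)))))),
   x6_7 (x6_5 (x6_4 (s4_5 (x2_3 (x2_1 (x2_0 (s0_1 (n5 p856_3)))))))),
   x6_7 (x6_5 (x6_4 (s4_5 (x2_3 (x2_1 (x2_0 (s0_1 (n5 p856_2)))))))),
   p856_14,
   p856_15],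
  [s6_7 (s4_5 (s2_3 (s0_1 p856_2))),
   s6_7 (s4_5 (s2_3 (s0_1 p856_3))),
   x6_7 (x6_5 (x6_4 (x2_3 (x2_1 (x2_0 (n5 p856_3)))))),
   x6_7 (x6_5 (x6_4 (x2_3 (x2_1 (x2_0 (n5 p856_2)))))),
   x7_6 (x7_5 (x7_4 (s4_5 (x3_2 (x3_1 (x3_0 (s0_1 (n5 p856_15)))))))),
   x7_6 (x7_5 (x7_4 (s4_5 (x3_2 (x3_1 (x3_0 (s0_1 (n5 p856_14)))))))),
   s4_5 (s0_1 p856_14),
   s4_5 (s0_1 p856_15)],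
  [x6_7 (x6_5 (x6_4 (x2_3 (x2_1 (x2_0 (n5 (n4 p856_0))))))),
   x6_7 (x6_5 (x6_4 (x2_3 (x2_1 (x2_0 (n5 (n4 p856_1))))))),
   s6_7 (s2_3 p856_14),
   s6_7 (s2_3 p856_15),
   s6_7 (s4_5 (s2_3 (s0_1 p856_14))),
   s6_7 (s4_5 (s2_3 (s0_1 p856_15))),
   tr p855_31,
   p856_31],
  [p856_32,
   p856_33,
   p856_34,
   p856_35,
   s4_5 (s0_1 p856_34),
   s4_5 (s0_1 p856_35),
   p856_38,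
   p856_39],
  [s6_7 (s2_3 p856_34),
   s6_7 (s2_3 p856_35),
   x6_7 (x6_5 (x6_4 (x2_3 (x2_1 (x2_0 (n7 (n5 p856_35))))))),
   x6_7 (x6_5 (x6_4 (x2_3 (x2_1 (x2_0 (n7 (n5 p856_34))))))),
   x7_6 (x7_5 (x7_4 (x3_2 (x3_1 (x3_0 (n6 (n5 p856_47))))))),
   x7_6 (x7_5 (x7_4 (x3_2 (x3_1 (x3_0 (n6 (n5 p856_46))))))),
   p856_46,
   p856_47],
  [s6_7 (s4_5 (s2_3 (s0_1 p856_34))),
   s6_7 (s4_5 (s2_3 (s0_1 p856_35))),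
   x7_6 (x7_5 (x7_4 (s4_5 (x3_2 (x3_1 (x3_0 (s0_1 (n6 (n5 p856_47))))))))),
   x7_6 (x7_5 (x7_4 (s4_5 (x3_2 (x3_1 (x3_0 (s0_1 (n6 (n5 p856_46))))))))),
   x6_7 (x6_5 (x6_4 (s4_5 (x2_3 (x2_1 (x2_0 (s0_1 (n7 (n5 p856_35))))))))),
   x6_7 (x6_5 (x6_4 (s4_5 (x2_3 (x2_1 (x2_0 (s0_1 (n7 (n5 p856_34))))))))),
   s4_5 (s0_1 p856_46),
   s4_5 (s0_1 p856_47)],
  [s6_7 (s2_3 p856_38),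
   s6_7 (s2_3 p856_39),
   s6_7 (s2_3 p856_46),
   s6_7 (s2_3 p856_47),
   s6_7 (s4_5 (s2_3 (s0_1 p856_46))),
   s6_7 (s4_5 (s2_3 (s0_1 p856_47))),
   x6_7 (x6_5 (x6_4 (x2_3 (x2_1 (x2_0 (n7 p856_38)))))),
   x6_7 (x6_5 (x6_4 (x2_3 (x2_1 (x2_0 (n7 p856_39))))))]]

theorem k856 : eqNN c856 (slO 64 (D.chG 508 31) 8) = true := by decide +kernel

/-- The slices of the chunk 857. -/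
noncomputable def c857 : List (List ℕ) := [
  [p857_0,
   p857_1,
   p857_2,
   p857_3,
   s4_5 (s0_1 p857_2),
   s4_5 (s0_1 p857_3),
   x7_6 (x7_5 (x7_4 (x3_2 (x3_1 (x3_0 (n5 (n4 (n2 (n1 (n0 p857_0)))))))))),
   x7_6 (x7_5 (x7_4 (x3_2 (x3_1 (x3_0 (n5 (n4 (n2 (n1 (n0 p857_1))))))))))],
  [s6_7 (s2_3 p857_2),
   s6_7 (s2_3 p857_3),
   x7_6 (x7_5 (x7_4 (x3_2 (x3_1 (x3_0 (n5 (n2 (n1 (n0 p857_15))))))))),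
   x7_6 (x7_5 (x7_4 (x3_2 (x3_1 (x3_0 (n5 (n2 (n1 (n0 p857_14))))))))),
   x6_7 (x6_5 (x6_4 (s4_5 (x2_3 (x2_1 (x2_0 (s0_1 (n5 (n3 (n1 (n0 p857_3))))))))))),
   x6_7 (x6_5 (x6_4 (s4_5 (x2_3 (x2_1 (x2_0 (s0_1 (n5 (n3 (n1 (n0 p857_2))))))))))),
   p857_14,
   p857_15],
  [s6_7 (s4_5 (s2_3 (s0_1 p857_2))),
   s6_7 (s4_5 (s2_3 (s0_1 p857_3))),
   x6_7 (x6_5 (x6_4 (x2_3 (x2_1 (x2_0 (n5 (n3 (n1 (n0 p857_3))))))))),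
   x6_7 (x6_5 (x6_4 (x2_3 (x2_1 (x2_0 (n5 (n3 (n1 (n0 p857_2))))))))),
   x7_6 (x7_5 (x7_4 (s4_5 (x3_2 (x3_1 (x3_0 (s0_1 (n5 (n2 (n1 (n0 p857_15))))))))))),
   x7_6 (x7_5 (x7_4 (s4_5 (x3_2 (x3_1 (x3_0 (s0_1 (n5 (n2 (n1 (n0 p857_14))))))))))),
   s4_5 (s0_1 p857_14),
   s4_5 (s0_1 p857_15)],
  [x6_7 (x6_5 (x6_4 (x2_3 (x2_1 (x2_0 (n5 (n4 (n3 (n1 (n0 p857_0)))))))))),
   x6_7 (x6_5 (x6_4 (x2_3 (x2_1 (x2_0 (n5 (n4 (n3 (n1 (n0 p857_1)))))))))),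
   s6_7 (s2_3 p857_14),
   s6_7 (s2_3 p857_15),
   s6_7 (s4_5 (s2_3 (s0_1 p857_14))),
   s6_7 (s4_5 (s2_3 (s0_1 p857_15))),
   tr p855_32,
   tr p856_32],
  [p857_32,
   p857_33,
   p857_34,
   p857_35,
   s4_5 (s0_1 p857_34),
   s4_5 (s0_1 p857_35),
   p857_38,
   p857_39],
  [s6_7 (s2_3 p857_34),
   s6_7 (s2_3 p857_35),
   x6_7 (x6_5 (x6_4 (x2_3 (x2_1 (x2_0 (n7 (n5 (n3 (n1 (n0 p857_35)))))))))),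
   x6_7 (x6_5 (x6_4 (x2_3 (x2_1 (x2_0 (n7 (n5 (n3 (n1 (n0 p857_34)))))))))),
   x7_6 (x7_5 (x7_4 (x3_2 (x3_1 (x3_0 (n6 (n5 (n2 (n1 (n0 p857_47)))))))))),
   x7_6 (x7_5 (x7_4 (x3_2 (x3_1 (x3_0 (n6 (n5 (n2 (n1 (n0 p857_46)))))))))),
   p857_46,
   p857_47],
  [s6_7 (s4_5 (s2_3 (s0_1 p857_34))),
   s6_7 (s4_5 (s2_3 (s0_1 p857_35))),
   x7_6 (x7_5 (x7_4 (s4_5 (x3_2 (x3_1 (x3_0 (s0_1 (n6 (n5 (n2 (n1 (n0 p857_47)))))))))))),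
   x7_6 (x7_5 (x7_4 (s4_5 (x3_2 (x3_1 (x3_0 (s0_1 (n6 (n5 (n2 (n1 (n0 p857_46)))))))))))),
   x6_7 (x6_5 (x6_4 (s4_5 (x2_3 (x2_1 (x2_0 (s0_1 (n7 (n5 (n3 (n1 (n0 p857_35)))))))))))),
   x6_7 (x6_5 (x6_4 (s4_5 (x2_3 (x2_1 (x2_0 (s0_1 (n7 (n5 (n3 (n1 (n0 p857_34)))))))))))),
   s4_5 (s0_1 p857_46),
   s4_5 (s0_1 p857_47)],
  [s6_7 (s2_3 p857_38),
   s6_7 (s2_3 p857_39),
   s6_7 (s2_3 p857_46),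
   s6_7 (s2_3 p857_47),
   s6_7 (s4_5 (s2_3 (s0_1 p857_46))),
   s6_7 (s4_5 (s2_3 (s0_1 p857_47))),
   x6_7 (x6_5 (x6_4 (x2_3 (x2_1 (x2_0 (n7 (n3 (n1 (n0 p857_38))))))))),
   x6_7 (x6_5 (x6_4 (x2_3 (x2_1 (x2_0 (n7 (n3 (n1 (n0 p857_39)))))))))]]

theorem k857 : eqNN c857 (slO 64 (D.chG 508 32) 8) = true := by decide +kernel

/-- The slices of the chunk 858. -/
noncomputable def c858 : List (List ℕ) := [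
  [p858_0,
   p858_1,
   p858_2,
   p858_3,
   s4_5 (s0_1 p858_2),
   s4_5 (s0_1 p858_3),
   x7_6 (x7_5 (x7_4 (x3_2 (x3_1 (x3_0 (n5 (n4 (n2 (n1 (n0 p858_0)))))))))),
   x7_6 (x7_5 (x7_4 (x3_2 (x3_1 (x3_0 (n5 (n4 (n2 (n1 (n0 p858_1))))))))))],
  [s6_7 (s2_3 p858_2),
   s6_7 (s2_3 p858_3),
   x7_6 (x7_5 (x7_4 (x3_2 (x3_1 (x3_0 (n5 (n2 (n1 (n0 p858_15))))))))),
   x7_6 (x7_5 (x7_4 (x3_2 (x3_1 (x3_0 (n5 (n2 (n1 (n0 p858_14))))))))),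
   x6_7 (x6_5 (x6_4 (s4_5 (x2_3 (x2_1 (x2_0 (s0_1 (n5 (n3 (n1 (n0 p858_3))))))))))),
   x6_7 (x6_5 (x6_4 (s4_5 (x2_3 (x2_1 (x2_0 (s0_1 (n5 (n3 (n1 (n0 p858_2))))))))))),
   p858_14,
   p858_15],
  [s6_7 (s4_5 (s2_3 (s0_1 p858_2))),
   s6_7 (s4_5 (s2_3 (s0_1 p858_3))),
   x6_7 (x6_5 (x6_4 (x2_3 (x2_1 (x2_0 (n5 (n3 (n1 (n0 p858_3))))))))),
   x6_7 (x6_5 (x6_4 (x2_3 (x2_1 (x2_0 (n5 (n3 (n1 (n0 p858_2))))))))),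
   x7_6 (x7_5 (x7_4 (s4_5 (x3_2 (x3_1 (x3_0 (s0_1 (n5 (n2 (n1 (n0 p858_15))))))))))),
   x7_6 (x7_5 (x7_4 (s4_5 (x3_2 (x3_1 (x3_0 (s0_1 (n5 (n2 (n1 (n0 p858_14))))))))))),
   s4_5 (s0_1 p858_14),
   s4_5 (s0_1 p858_15)],
  [x6_7 (x6_5 (x6_4 (x2_3 (x2_1 (x2_0 (n5 (n4 (n3 (n1 (n0 p858_0)))))))))),
   x6_7 (x6_5 (x6_4 (x2_3 (x2_1 (x2_0 (n5 (n4 (n3 (n1 (n0 p858_1)))))))))),
   s6_7 (s2_3 p858_14),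
   s6_7 (s2_3 p858_15),
   s6_7 (s4_5 (s2_3 (s0_1 p858_14))),
   s6_7 (s4_5 (s2_3 (s0_1 p858_15))),
   tr p855_33,
   tr p856_33],
  [tr p857_33,
   p858_33,
   p858_34,
   p858_35,
   s4_5 (s0_1 p858_34),
   s4_5 (s0_1 p858_35),
   p858_38,
   p858_39],
  [s6_7 (s2_3 p858_34),
   s6_7 (s2_3 p858_35),
   x6_7 (x6_5 (x6_4 (x2_3 (x2_1 (x2_0 (n7 (n5 (n3 (n1 (n0 p858_35)))))))))),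
   x6_7 (x6_5 (x6_4 (x2_3 (x2_1 (x2_0 (n7 (n5 (n3 (n1 (n0 p858_34)))))))))),
   x7_6 (x7_5 (x7_4 (x3_2 (x3_1 (x3_0 (n6 (n5 (n2 (n1 (n0 p858_47)))))))))),
   x7_6 (x7_5 (x7_4 (x3_2 (x3_1 (x3_0 (n6 (n5 (n2 (n1 (n0 p858_46)))))))))),
   p858_46,
   p858_47],
  [s6_7 (s4_5 (s2_3 (s0_1 p858_34))),
   s6_7 (s4_5 (s2_3 (s0_1 p858_35))),
   x7_6 (x7_5 (x7_4 (s4_5 (x3_2 (x3_1 (x3_0 (s0_1 (n6 (n5 (n2 (n1 (n0 p858_47)))))))))))),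
   x7_6 (x7_5 (x7_4 (s4_5 (x3_2 (x3_1 (x3_0 (s0_1 (n6 (n5 (n2 (n1 (n0 p858_46)))))))))))),
   x6_7 (x6_5 (x6_4 (s4_5 (x2_3 (x2_1 (x2_0 (s0_1 (n7 (n5 (n3 (n1 (n0 p858_35)))))))))))),
   x6_7 (x6_5 (x6_4 (s4_5 (x2_3 (x2_1 (x2_0 (s0_1 (n7 (n5 (n3 (n1 (n0 p858_34)))))))))))),
   s4_5 (s0_1 p858_46),
   s4_5 (s0_1 p858_47)],
  [s6_7 (s2_3 p858_38),
   s6_7 (s2_3 p858_39),
   s6_7 (s2_3 p858_46),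
   s6_7 (s2_3 p858_47),
   s6_7 (s4_5 (s2_3 (s0_1 p858_46))),
   s6_7 (s4_5 (s2_3 (s0_1 p858_47))),
   x6_7 (x6_5 (x6_4 (x2_3 (x2_1 (x2_0 (n7 (n3 (n1 (n0 p858_38))))))))),
   x6_7 (x6_5 (x6_4 (x2_3 (x2_1 (x2_0 (n7 (n3 (n1 (n0 p858_39)))))))))]]

theorem k858 : eqNN c858 (slO 64 (D.chG 508 33) 8) = true := by decide +kernel

/-- The slices of the chunk 859. -/
noncomputable def c859 : List (List ℕ) := [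
  [tr p849_34,
   tr p850_34,
   p859_2,
   p859_3,
   x7_6 (x7_5 (x7_4 (x3_2 (x3_1 (x3_0 (n5 (n4 (n2 (n1 (n0 p859_2)))))))))),
   x7_6 (x7_5 (x7_4 (x3_2 (x3_1 (x3_0 (n5 (n4 (n2 (n1 (n0 p859_3)))))))))),
   x7_6 (x7_5 (x7_4 (x3_2 (x3_1 (x3_0 (tr (n6 (n5 (n4 (n1 (n0 p849_34))))))))))),
   x7_6 (x7_5 (x7_4 (x3_2 (x3_1 (x3_0 (tr (n6 (n5 (n4 (n1 (n0 p850_34)))))))))))],
  [p859_8,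
   p859_9,
   p859_10,
   p859_11,
   x7_6 (x7_5 (x7_4 (x3_2 (x3_1 (x3_0 (n5 (n2 (n1 (n0 p859_9))))))))),
   x7_6 (x7_5 (x7_4 (x3_2 (x3_1 (x3_0 (n5 (n2 (n1 (n0 p859_8))))))))),
   x7_6 (x7_5 (x7_4 (x3_2 (x3_1 (x3_0 (n5 (n2 (n1 (n0 p859_11))))))))),
   x7_6 (x7_5 (x7_4 (x3_2 (x3_1 (x3_0 (n5 (n2 (n1 (n0 p859_10)))))))))],
  [p859_16,
   p859_17,
   x7_6 (x7_5 (x7_4 (x3_2 (x3_1 (x3_0 (n4 (n2 (n1 (n0 p859_17))))))))),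
   x7_6 (x7_5 (x7_4 (x3_2 (x3_1 (x3_0 (n4 (n2 (n1 (n0 p859_16))))))))),
   p859_20,
   p859_21,
   x7_6 (x7_5 (x7_4 (x3_2 (x3_1 (x3_0 (n4 (n2 (n1 (n0 p859_21))))))))),
   x7_6 (x7_5 (x7_4 (x3_2 (x3_1 (x3_0 (n4 (n2 (n1 (n0 p859_20)))))))))],
  [x6_7 (x6_5 (x6_4 (s3_7 (x2_7 (x2_1 (x2_0 (s2_6 (s1_5 (s0_4 (n7 (n5 (n1 (n0 p849_43))))))))))))),
   x6_7 (x6_5 (x6_4 (s3_7 (x2_7 (x2_1 (x2_0 (s2_6 (s1_5 (s0_4 (n7 (n5 (n1 (n0 p850_43))))))))))))),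
   x6_7 (x6_5 (x6_4 (s3_7 (x2_7 (x2_1 (x2_0 (s2_6 (s1_5 (s0_4 (n7 (n5 (n1 p854_43)))))))))))),
   x6_7 (x6_5 (x6_4 (s3_7 (x2_7 (x2_1 (x2_0 (s2_6 (s1_5 (s0_4 (n7 (n5 (n1 p853_43)))))))))))),
   x6_7 (x6_5 (x6_4 (s3_7 (x2_7 (x2_1 (x2_0 (s2_6 (s1_4 (s0_5 (n7 (n4 (n1 p854_53)))))))))))),
   x6_7 (x6_5 (x6_4 (s3_7 (x2_7 (x2_1 (x2_0 (s2_6 (s1_4 (s0_5 (n7 (n4 (n1 p853_53)))))))))))),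
   tr p855_34,
   tr p856_34],
  [tr p857_34,
   tr p858_34,
   p859_34,
   p859_35,
   p859_36,
   p859_37,
   tr p861_34,
   tr p862_34],
  [p859_40,
   p859_41,
   x7_6 (x7_5 (x7_4 (x3_2 (x3_1 (x3_0 (n6 (n5 (n2 (n1 (n0 p859_41)))))))))),
   x7_6 (x7_5 (x7_4 (x3_2 (x3_1 (x3_0 (n6 (n5 (n2 (n1 (n0 p859_40)))))))))),
   p859_44,
   p859_45,
   x7_6 (x7_5 (x7_4 (x3_2 (x3_1 (x3_0 (n6 (n5 (n2 (n1 (n0 p859_45)))))))))),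
   x7_6 (x7_5 (x7_4 (x3_2 (x3_1 (x3_0 (n6 (n5 (n2 (n1 (n0 p859_44))))))))))],
  [p859_48,
   p859_49,
   p859_50,
   p859_51,
   x7_6 (x7_5 (x7_4 (x3_2 (x3_1 (x3_0 (n6 (n4 (n2 (n1 (n0 p859_49)))))))))),
   x7_6 (x7_5 (x7_4 (x3_2 (x3_1 (x3_0 (n6 (n4 (n2 (n1 (n0 p859_48)))))))))),
   x7_6 (x7_5 (x7_4 (x3_2 (x3_1 (x3_0 (n6 (n4 (n2 (n1 (n0 p859_51)))))))))),
   x7_6 (x7_5 (x7_4 (x3_2 (x3_1 (x3_0 (n6 (n4 (n2 (n1 (n0 p859_50))))))))))],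
  [s3_6 (s2_7 (s1_5 (s0_4 p861_40))),
   s3_6 (s2_7 (s1_5 (s0_4 p862_40))),
   p859_58,
   p859_59,
   x7_6 (x7_5 (x7_4 (x3_2 (x3_1 (x3_0 (n6 (n2 (n1 (n0 p859_58))))))))),
   x7_6 (x7_5 (x7_4 (x3_2 (x3_1 (x3_0 (n6 (n2 (n1 (n0 p859_59))))))))),
   x7_6 (x7_5 (x7_4 (x3_2 (x3_1 (x3_0 (s3_6 (s2_7 (s1_5 (s0_4 (n7 (n5 (n4 (n3 p861_40))))))))))))),
   x7_6 (x7_5 (x7_4 (x3_2 (x3_1 (x3_0 (s3_6 (s2_7 (s1_5 (s0_4 (n7 (n5 (n4 (n3 p862_40)))))))))))))]]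

theorem k859 : eqNN c859 (slO 64 (D.chG 508 34) 8) = true := by decide +kernel

end Pool.Agent.Lib.MP_afdd4d_co.K10.E6
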