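import Pool.Agent.Lib.MP_afdd4d_co.K10.E6.Dat
import Pool.Agent.Lib.MP_afdd4d_co.K10.E6.Mk
import Pool.Agent.Lib.MP_afdd4d_co.K8.F6Bl5
import Pool.Agent.Lib.MP_afdd4d_co.K10.E6.P0
import Pool.Agent.Lib.MP_afdd4d_co.K10.E6.P1
import Pool.Agent.Lib.MP_afdd4d_co.K10.E6.P2
import Pool.Agent.Lib.MP_afdd4d_co.K10.E6.P3
import Pool.Agent.Lib.MP_afdd4d_co.K10.E6.P4
import Pool.Agent.Lib.MP_afdd4d_co.K10.E6.P5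
import Pool.Agent.Lib.MP_afdd4d_co.K10.E6.P6
import Pool.Agent.Lib.MP_afdd4d_co.K10.E6.P7
import Pool.Agent.Lib.MP_afdd4d_co.K10.E6.P8
import Pool.Agent.Lib.MP_afdd4d_co.K10.E6.P9
import Pool.Agent.Lib.MP_afdd4d_co.K10.E6.P10
import Pool.Agent.Lib.MP_afdd4d_co.K10.E6.P11
import Pool.Agent.Lib.MP_afdd4d_co.K10.E6.P12
import Pool.Agent.Lib.MP_afdd4d_co.K10.E6.P13
import Pool.Agent.Lib.MP_afdd4d_co.K10.E6.P14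
import Pool.Agent.Lib.MP_afdd4d_co.K10.E6.P15
import Pool.Agent.Lib.MP_afdd4d_co.K10.E6.P16
import Pool.Agent.Lib.MP_afdd4d_co.K10.E6.P17
import Pool.Agent.Lib.MP_afdd4d_co.K10.E6.P18
import Pool.Agent.Lib.MP_afdd4d_co.K10.E6.P19
import Pool.Agent.Lib.MP_afdd4d_co.K10.E6.P20
import Pool.Agent.Lib.MP_afdd4d_co.K10.E6.P21
import Pool.Agent.Lib.MP_afdd4d_co.K10.E6.P22
import Pool.Agent.Lib.MP_afdd4d_co.K10.E6.P23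
import Pool.Agent.Lib.MP_afdd4d_co.K10.E6.P24
import Pool.Agent.Lib.MP_afdd4d_co.K10.E6.P25
import Pool.Agent.Lib.MP_afdd4d_co.K10.E6.P26
import Pool.Agent.Lib.MP_afdd4d_co.K10.E6.P27
import Pool.Agent.Lib.MP_afdd4d_co.K10.E6.P28
import Pool.Agent.Lib.MP_afdd4d_co.K10.E6.P29
import Pool.Agent.Lib.MP_afdd4d_co.K10.E6.P30
import Pool.Agent.Lib.MP_afdd4d_co.K10.E6.P31
import Pool.Agent.Lib.MP_afdd4d_co.K10.E6.P32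

/-!
# Tables
-/

namespace Pool.Agent.Lib.MP_afdd4d_co.K10.E6

open K8

set_option maxRecDepth 100000
set_option exponentiation.threshold 10000000

/-- The slices of the chunk 860. -/
noncomputable def c860 : List (List ℕ) := [
  [tr p849_35,
   tr p850_35,
   p860_2,
   p860_3,
   x7_6 (x7_5 (x7_4 (x3_2 (x3_1 (x3_0 (n5 (n4 (n2 (n1 (n0 p860_2)))))))))),
   x7_6 (x7_5 (x7_4 (x3_2 (x3_1 (x3_0 (n5 (n4 (n2 (n1 (n0 p860_3)))))))))),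
   x7_6 (x7_5 (x7_4 (x3_2 (x3_1 (x3_0 (tr (n6 (n5 (n4 (n1 (n0 p849_35))))))))))),
   x7_6 (x7_5 (x7_4 (x3_2 (x3_1 (x3_0 (tr (n6 (n5 (n4 (n1 (n0 p850_35)))))))))))],
  [p860_8,
   p860_9,
   p860_10,
   p860_11,
   x7_6 (x7_5 (x7_4 (x3_2 (x3_1 (x3_0 (n5 (n2 (n1 (n0 p860_9))))))))),
   x7_6 (x7_5 (x7_4 (x3_2 (x3_1 (x3_0 (n5 (n2 (n1 (n0 p860_8))))))))),
   x7_6 (x7_5 (x7_4 (x3_2 (x3_1 (x3_0 (n5 (n2 (n1 (n0 p860_11))))))))),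
   x7_6 (x7_5 (x7_4 (x3_2 (x3_1 (x3_0 (n5 (n2 (n1 (n0 p860_10)))))))))],
  [p860_16,
   p860_17,
   x7_6 (x7_5 (x7_4 (x3_2 (x3_1 (x3_0 (n4 (n2 (n1 (n0 p860_17))))))))),
   x7_6 (x7_5 (x7_4 (x3_2 (x3_1 (x3_0 (n4 (n2 (n1 (n0 p860_16))))))))),
   p860_20,
   p860_21,
   x7_6 (x7_5 (x7_4 (x3_2 (x3_1 (x3_0 (n4 (n2 (n1 (n0 p860_21))))))))),
   x7_6 (x7_5 (x7_4 (x3_2 (x3_1 (x3_0 (n4 (n2 (n1 (n0 p860_20)))))))))],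
  [x6_7 (x6_5 (x6_4 (s3_7 (x2_7 (x2_1 (x2_0 (s2_6 (s1_5 (s0_4 (n7 (n5 (n1 (n0 p849_42))))))))))))),
   x6_7 (x6_5 (x6_4 (s3_7 (x2_7 (x2_1 (x2_0 (s2_6 (s1_5 (s0_4 (n7 (n5 (n1 (n0 p850_42))))))))))))),
   x6_7 (x6_5 (x6_4 (s3_7 (x2_7 (x2_1 (x2_0 (s2_6 (s1_5 (s0_4 (n7 (n5 (n1 p854_42)))))))))))),
   x6_7 (x6_5 (x6_4 (s3_7 (x2_7 (x2_1 (x2_0 (s2_6 (s1_5 (s0_4 (n7 (n5 (n1 p853_42)))))))))))),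
   x6_7 (x6_5 (x6_4 (s3_7 (x2_7 (x2_1 (x2_0 (s2_6 (s1_4 (s0_5 (n7 (n4 (n1 p854_52)))))))))))),
   x6_7 (x6_5 (x6_4 (s3_7 (x2_7 (x2_1 (x2_0 (s2_6 (s1_4 (s0_5 (n7 (n4 (n1 p853_52)))))))))))),
   tr p855_35,
   tr p856_35],
  [tr p857_35,
   tr p858_35,
   tr p859_35,
   p860_35,
   s3_7 (s2_6 (s1_4 (s0_5 p859_37))),
   p860_37,
   tr p861_35,
   tr p862_35],
  [s3_6 (s2_7 (s1_5 (s0_4 p859_41))),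
   p860_41,
   x7_6 (x7_5 (x7_4 (x3_2 (x3_1 (x3_0 (n6 (n5 (n2 (n1 (n0 p860_41)))))))))),
   x7_6 (x7_5 (x7_4 (x3_2 (x3_1 (x3_0 (s3_6 (s2_7 (s1_5 (s0_4 (n7 (n5 (n4 (n3 (n1 p859_41)))))))))))))),
   p860_44,
   p860_45,
   x7_6 (x7_5 (x7_4 (x3_2 (x3_1 (x3_0 (n6 (n5 (n2 (n1 (n0 p860_45)))))))))),
   x7_6 (x7_5 (x7_4 (x3_2 (x3_1 (x3_0 (n6 (n5 (n2 (n1 (n0 p860_44))))))))))],
  [s3_6 (s2_7 (s1_4 (s0_5 p859_49))),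
   p860_49,
   p860_50,
   p860_51,
   x7_6 (x7_5 (x7_4 (x3_2 (x3_1 (x3_0 (n6 (n4 (n2 (n1 (n0 p860_49)))))))))),
   x7_6 (x7_5 (x7_4 (x3_2 (x3_1 (x3_0 (s3_6 (s2_7 (s1_4 (s0_5 (n7 (n5 (n4 (n3 (n1 p859_49)))))))))))))),
   x7_6 (x7_5 (x7_4 (x3_2 (x3_1 (x3_0 (n6 (n4 (n2 (n1 (n0 p860_51)))))))))),
   x7_6 (x7_5 (x7_4 (x3_2 (x3_1 (x3_0 (n6 (n4 (n2 (n1 (n0 p860_50))))))))))],
  [s3_6 (s2_7 (s1_5 (s0_4 p861_41))),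
   s3_6 (s2_7 (s1_5 (s0_4 p862_41))),
   p860_58,
   p860_59,
   x7_6 (x7_5 (x7_4 (x3_2 (x3_1 (x3_0 (n6 (n2 (n1 (n0 p860_58))))))))),
   x7_6 (x7_5 (x7_4 (x3_2 (x3_1 (x3_0 (n6 (n2 (n1 (n0 p860_59))))))))),
   x7_6 (x7_5 (x7_4 (x3_2 (x3_1 (x3_0 (s3_6 (s2_7 (s1_5 (s0_4 (n7 (n5 (n4 (n3 p861_41))))))))))))),
   x7_6 (x7_5 (x7_4 (x3_2 (x3_1 (x3_0 (s3_6 (s2_7 (s1_5 (s0_4 (n7 (n5 (n4 (n3 p862_41)))))))))))))]]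

theorem k860 : eqNN c860 (slO 64 (D.chG 508 35) 8) = true := by decide +kernel

/-- The slices of the chunk 861. -/
noncomputable def c861 : List (List ℕ) := [
  [p861_0,
   p861_1,
   p861_2,
   p861_3,
   s4_5 (s0_1 p861_2),
   s4_5 (s0_1 p861_3),
   x7_6 (x7_5 (x7_4 (x3_2 (x3_1 (x3_0 (n5 (n4 (n2 (n1 (n0 p861_0)))))))))),
   x7_6 (x7_5 (x7_4 (x3_2 (x3_1 (x3_0 (n5 (n4 (n2 (n1 (n0 p861_1))))))))))],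
  [p861_8,
   p861_9,
   p861_10,
   p861_11,
   x7_6 (x7_5 (x7_4 (x3_2 (x3_1 (x3_0 (n5 (n2 (n1 (n0 p861_9))))))))),
   x7_6 (x7_5 (x7_4 (x3_2 (x3_1 (x3_0 (n5 (n2 (n1 (n0 p861_8))))))))),
   x7_6 (x7_5 (x7_4 (x3_2 (x3_1 (x3_0 (n5 (n2 (n1 (n0 p861_11))))))))),
   x7_6 (x7_5 (x7_4 (x3_2 (x3_1 (x3_0 (n5 (n2 (n1 (n0 p861_10)))))))))],
  [s4_5 (s0_1 p861_8),
   s4_5 (s0_1 p861_9),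
   x7_6 (x7_5 (x7_4 (s4_5 (x3_2 (x3_1 (x3_0 (s0_1 (n5 (n2 (n1 (n0 p861_9))))))))))),
   x7_6 (x7_5 (x7_4 (s4_5 (x3_2 (x3_1 (x3_0 (s0_1 (n5 (n2 (n1 (n0 p861_8))))))))))),
   s4_5 (s0_1 p861_10),
   s4_5 (s0_1 p861_11),
   x7_6 (x7_5 (x7_4 (s4_5 (x3_2 (x3_1 (x3_0 (s0_1 (n5 (n2 (n1 (n0 p861_11))))))))))),
   x7_6 (x7_5 (x7_4 (s4_5 (x3_2 (x3_1 (x3_0 (s0_1 (n5 (n2 (n1 (n0 p861_10)))))))))))],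
  [x6_7 (x6_5 (x6_4 (s3_7 (x2_7 (x2_1 (x2_0 (s2_6 (s1_5 (s0_4 (n7 (n1 (n0 p849_62)))))))))))),
   x6_7 (x6_5 (x6_4 (s3_7 (x2_7 (x2_1 (x2_0 (s2_6 (s1_5 (s0_4 (n7 (n1 (n0 p850_62)))))))))))),
   p861_26,
   p861_27,
   s4_5 (s0_1 p861_26),
   s4_5 (s0_1 p861_27),
   tr p855_38,
   tr p856_38],
  [tr p857_38,
   tr p858_38,
   p861_34,
   p861_35,
   s4_5 (s0_1 p861_34),
   s4_5 (s0_1 p861_35),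
   p861_38,
   p861_39],
  [p861_40,
   p861_41,
   x7_6 (x7_5 (x7_4 (x3_2 (x3_1 (x3_0 (n6 (n5 (n2 (n1 (n0 p861_41)))))))))),
   x7_6 (x7_5 (x7_4 (x3_2 (x3_1 (x3_0 (n6 (n5 (n2 (n1 (n0 p861_40)))))))))),
   p861_44,
   p861_45,
   x7_6 (x7_5 (x7_4 (x3_2 (x3_1 (x3_0 (n6 (n5 (n2 (n1 (n0 p861_45)))))))))),
   x7_6 (x7_5 (x7_4 (x3_2 (x3_1 (x3_0 (n6 (n5 (n2 (n1 (n0 p861_44))))))))))],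
  [s4_5 (s0_1 p861_40),
   s4_5 (s0_1 p861_41),
   s4_5 (s0_1 p861_44),
   s4_5 (s0_1 p861_45),
   x7_6 (x7_5 (x7_4 (s4_5 (x3_2 (x3_1 (x3_0 (s0_1 (n6 (n5 (n2 (n1 (n0 p861_41)))))))))))),
   x7_6 (x7_5 (x7_4 (s4_5 (x3_2 (x3_1 (x3_0 (s0_1 (n6 (n5 (n2 (n1 (n0 p861_40)))))))))))),
   x7_6 (x7_5 (x7_4 (s4_5 (x3_2 (x3_1 (x3_0 (s0_1 (n6 (n5 (n2 (n1 (n0 p861_45)))))))))))),
   x7_6 (x7_5 (x7_4 (s4_5 (x3_2 (x3_1 (x3_0 (s0_1 (n6 (n5 (n2 (n1 (n0 p861_44))))))))))))],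
  [p861_56,
   p861_57,
   p861_58,
   p861_59,
   s4_5 (s0_1 p861_58),
   s4_5 (s0_1 p861_59),
   x7_6 (x7_5 (x7_4 (x3_2 (x3_1 (x3_0 (n6 (n2 (n1 (n0 p861_56))))))))),
   x7_6 (x7_5 (x7_4 (x3_2 (x3_1 (x3_0 (n6 (n2 (n1 (n0 p861_57)))))))))]]

theorem k861 : eqNN c861 (slO 64 (D.chG 508 38) 8) = true := by decide +kernel

/-- The slices of the chunk 862. -/
noncomputable def c862 : List (List ℕ) := [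
  [p862_0,
   p862_1,
   p862_2,
   p862_3,
   s4_5 (s0_1 p862_2),
   s4_5 (s0_1 p862_3),
   x7_6 (x7_5 (x7_4 (x3_2 (x3_1 (x3_0 (n5 (n4 (n2 (n1 (n0 p862_0)))))))))),
   x7_6 (x7_5 (x7_4 (x3_2 (x3_1 (x3_0 (n5 (n4 (n2 (n1 (n0 p862_1))))))))))],
  [p862_8,
   p862_9,
   p862_10,
   p862_11,
   x7_6 (x7_5 (x7_4 (x3_2 (x3_1 (x3_0 (n5 (n2 (n1 (n0 p862_9))))))))),
   x7_6 (x7_5 (x7_4 (x3_2 (x3_1 (x3_0 (n5 (n2 (n1 (n0 p862_8))))))))),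
   x7_6 (x7_5 (x7_4 (x3_2 (x3_1 (x3_0 (n5 (n2 (n1 (n0 p862_11))))))))),
   x7_6 (x7_5 (x7_4 (x3_2 (x3_1 (x3_0 (n5 (n2 (n1 (n0 p862_10)))))))))],
  [s4_5 (s0_1 p862_8),
   s4_5 (s0_1 p862_9),
   x7_6 (x7_5 (x7_4 (s4_5 (x3_2 (x3_1 (x3_0 (s0_1 (n5 (n2 (n1 (n0 p862_9))))))))))),
   x7_6 (x7_5 (x7_4 (s4_5 (x3_2 (x3_1 (x3_0 (s0_1 (n5 (n2 (n1 (n0 p862_8))))))))))),
   s4_5 (s0_1 p862_10),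
   s4_5 (s0_1 p862_11),
   x7_6 (x7_5 (x7_4 (s4_5 (x3_2 (x3_1 (x3_0 (s0_1 (n5 (n2 (n1 (n0 p862_11))))))))))),
   x7_6 (x7_5 (x7_4 (s4_5 (x3_2 (x3_1 (x3_0 (s0_1 (n5 (n2 (n1 (n0 p862_10)))))))))))],
  [x6_7 (x6_5 (x6_4 (s3_7 (x2_7 (x2_1 (x2_0 (s2_6 (s1_5 (s0_4 (n7 (n1 (n0 p849_63)))))))))))),
   x6_7 (x6_5 (x6_4 (s3_7 (x2_7 (x2_1 (x2_0 (s2_6 (s1_5 (s0_4 (n7 (n1 (n0 p850_63)))))))))))),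
   p862_26,
   p862_27,
   s4_5 (s0_1 p862_26),
   s4_5 (s0_1 p862_27),
   tr p855_39,
   tr p856_39],
  [tr p857_39,
   tr p858_39,
   p862_34,
   p862_35,
   s4_5 (s0_1 p862_34),
   s4_5 (s0_1 p862_35),
   tr p861_39,
   p862_39],
  [p862_40,
   p862_41,
   x7_6 (x7_5 (x7_4 (x3_2 (x3_1 (x3_0 (n6 (n5 (n2 (n1 (n0 p862_41)))))))))),
   x7_6 (x7_5 (x7_4 (x3_2 (x3_1 (x3_0 (n6 (n5 (n2 (n1 (n0 p862_40)))))))))),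
   p862_44,
   p862_45,
   x7_6 (x7_5 (x7_4 (x3_2 (x3_1 (x3_0 (n6 (n5 (n2 (n1 (n0 p862_45)))))))))),
   x7_6 (x7_5 (x7_4 (x3_2 (x3_1 (x3_0 (n6 (n5 (n2 (n1 (n0 p862_44))))))))))],
  [s4_5 (s0_1 p862_40),
   s4_5 (s0_1 p862_41),
   s4_5 (s0_1 p862_44),
   s4_5 (s0_1 p862_45),
   x7_6 (x7_5 (x7_4 (s4_5 (x3_2 (x3_1 (x3_0 (s0_1 (n6 (n5 (n2 (n1 (n0 p862_41)))))))))))),
   x7_6 (x7_5 (x7_4 (s4_5 (x3_2 (x3_1 (x3_0 (s0_1 (n6 (n5 (n2 (n1 (n0 p862_40)))))))))))),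
   x7_6 (x7_5 (x7_4 (s4_5 (x3_2 (x3_1 (x3_0 (s0_1 (n6 (n5 (n2 (n1 (n0 p862_45)))))))))))),
   x7_6 (x7_5 (x7_4 (s4_5 (x3_2 (x3_1 (x3_0 (s0_1 (n6 (n5 (n2 (n1 (n0 p862_44))))))))))))],
  [s3_6 (s2_7 (s1_5 (s0_4 p861_57))),
   p862_57,
   p862_58,
   p862_59,
   s4_5 (s0_1 p862_58),
   s4_5 (s0_1 p862_59),
   x7_6 (x7_5 (x7_4 (x3_2 (x3_1 (x3_0 (s3_6 (s2_7 (s1_5 (s0_4 (n7 (n5 (n4 (n3 p861_57))))))))))))),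
   x7_6 (x7_5 (x7_4 (x3_2 (x3_1 (x3_0 (n6 (n2 (n1 (n0 p862_57)))))))))]]

theorem k862 : eqNN c862 (slO 64 (D.chG 508 39) 8) = true := by decide +kernel

/-- The slices of the chunk 863. -/
noncomputable def c863 : List (List ℕ) := [
  [tr p849_44,
   tr p850_44,
   tr p851_44,
   tr p852_44,
   s3_7 (s2_6 (s1_4 (s0_5 p851_50))),
   s3_7 (s2_6 (s1_4 (s0_5 p852_50))),
   x7_6 (x7_5 (x7_4 (x3_2 (x3_1 (x3_0 (s3_6 (s2_7 (s1_5 (s0_4 (n7 (n5 (n1 (n0 p849_59))))))))))))),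
   x7_6 (x7_5 (x7_4 (x3_2 (x3_1 (x3_0 (s3_6 (s2_7 (s1_5 (s0_4 (n7 (n5 (n1 (n0 p850_59)))))))))))))],
  [s3_6 (s2_7 (s1_5 (s0_4 p851_50))),
   s3_6 (s2_7 (s1_5 (s0_4 p852_50))),
   tr p853_44,
   tr p854_44,
   x6_7 (x6_5 (x6_4 (s3_7 (x2_7 (x2_1 (x2_0 (s2_6 (s1_4 (s0_5 (n7 (n5 (n1 p852_59)))))))))))),
   x6_7 (x6_5 (x6_4 (s3_7 (x2_7 (x2_1 (x2_0 (s2_6 (s1_4 (s0_5 (n7 (n5 (n1 p851_59)))))))))))),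
   x7_6 (x7_5 (x7_4 (x3_2 (x3_1 (x3_0 (s3_6 (s2_7 (s1_5 (s0_4 (n7 (n5 (n1 p854_59)))))))))))),
   x7_6 (x7_5 (x7_4 (x3_2 (x3_1 (x3_0 (s3_6 (s2_7 (s1_5 (s0_4 (n7 (n5 (n1 p853_59))))))))))))],
  [s3_6 (s2_7 (s1_4 (s0_5 p851_44))),
   s3_6 (s2_7 (s1_4 (s0_5 p852_44))),
   x6_7 (x6_5 (x6_4 (s3_7 (x2_7 (x2_1 (x2_0 (s2_6 (s1_5 (s0_4 (n7 (n4 (n1 p852_61)))))))))))),
   x6_7 (x6_5 (x6_4 (s3_7 (x2_7 (x2_1 (x2_0 (s2_6 (s1_5 (s0_4 (n7 (n4 (n1 p851_61)))))))))))),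
   s3_6 (s2_7 (s1_4 (s0_5 p853_44))),
   s3_6 (s2_7 (s1_4 (s0_5 p854_44))),
   x7_6 (x7_5 (x7_4 (x3_2 (x3_1 (x3_0 (s3_6 (s2_7 (s1_4 (s0_5 (n7 (n4 (n1 p854_61)))))))))))),
   x7_6 (x7_5 (x7_4 (x3_2 (x3_1 (x3_0 (s3_6 (s2_7 (s1_4 (s0_5 (n7 (n4 (n1 p853_61))))))))))))],
  [x6_7 (x6_5 (x6_4 (s3_7 (x2_7 (x2_1 (x2_0 (s2_6 (s1_4 (s0_5 (n7 (n5 (n1 (n0 p849_59))))))))))))),
   x6_7 (x6_5 (x6_4 (s3_7 (x2_7 (x2_1 (x2_0 (s2_6 (s1_4 (s0_5 (n7 (n5 (n1 (n0 p850_59))))))))))))),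
   x6_7 (x6_5 (x6_4 (s3_7 (x2_7 (x2_1 (x2_0 (s2_6 (s1_5 (s0_4 (n7 (n4 (n1 p854_61)))))))))))),
   x6_7 (x6_5 (x6_4 (s3_7 (x2_7 (x2_1 (x2_0 (s2_6 (s1_5 (s0_4 (n7 (n4 (n1 p853_61)))))))))))),
   x6_7 (x6_5 (x6_4 (s3_7 (x2_7 (x2_1 (x2_0 (s2_6 (s1_4 (s0_5 (n7 (n5 (n1 p854_59)))))))))))),
   x6_7 (x6_5 (x6_4 (s3_7 (x2_7 (x2_1 (x2_0 (s2_6 (s1_4 (s0_5 (n7 (n5 (n1 p853_59)))))))))))),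
   x7_6 (x7_5 (x7_4 (x3_2 (x3_1 (x3_0 (tr (n6 (n5 p855_47)))))))),
   x7_6 (x7_5 (x7_4 (x3_2 (x3_1 (x3_0 (tr (n6 (n5 p856_47))))))))],
  [x7_6 (x7_5 (x7_4 (x3_2 (x3_1 (x3_0 (tr (n6 (n5 (n2 (n1 (n0 p857_47))))))))))),
   x7_6 (x7_5 (x7_4 (x3_2 (x3_1 (x3_0 (tr (n6 (n5 (n2 (n1 (n0 p858_47))))))))))),
   tr p859_44,
   tr p860_44,
   s3_7 (s2_6 (s1_4 (s0_5 p859_50))),
   s3_7 (s2_6 (s1_4 (s0_5 p860_50))),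
   tr p861_44,
   tr p862_44],
  [s3_6 (s2_7 (s1_5 (s0_4 p859_50))),
   s3_6 (s2_7 (s1_5 (s0_4 p860_50))),
   x7_6 (x7_5 (x7_4 (x3_2 (x3_1 (x3_0 (s3_6 (s2_7 (s1_5 (s0_4 (n7 (n5 (n3 (n1 p860_59))))))))))))),
   x7_6 (x7_5 (x7_4 (x3_2 (x3_1 (x3_0 (s3_6 (s2_7 (s1_5 (s0_4 (n7 (n5 (n3 (n1 p859_59))))))))))))),
   p863_44,
   p863_45,
   s6_7 (s4_5 (s2_3 (s0_1 p863_60))),
   p863_47],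
  [s3_6 (s2_7 (s1_4 (s0_5 p859_44))),
   s3_6 (s2_7 (s1_4 (s0_5 p860_44))),
   p863_50,
   p863_51,
   x6_7 (x6_5 (x6_4 (s3_7 (x2_7 (x2_1 (x2_0 (s2_6 (s1_4 (s0_5 (n7 (n5 (n3 (n1 p860_59))))))))))))),
   x6_7 (x6_5 (x6_4 (s3_7 (x2_7 (x2_1 (x2_0 (s2_6 (s1_4 (s0_5 (n7 (n5 (n3 (n1 p859_59))))))))))))),
   s6_7 (s4_5 (s2_3 (s0_1 p863_58))),
   p863_55],
  [s3_6 (s2_7 (s1_4 (s0_5 p861_44))),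
   s3_6 (s2_7 (s1_4 (s0_5 p862_44))),
   p863_58,
   s6_7 (s4_5 (s2_3 (s0_1 p863_55))),
   p863_60,
   s6_7 (s4_5 (s2_3 (s0_1 p863_47))),
   x6_7 (x6_5 (x6_4 (s3_7 (x2_7 (x2_1 (x2_0 (s2_6 (s1_4 (s0_5 (n7 (n5 (n3 p861_59)))))))))))),
   x6_7 (x6_5 (x6_4 (s3_7 (x2_7 (x2_1 (x2_0 (s2_6 (s1_4 (s0_5 (n7 (n5 (n3 p862_59))))))))))))]]

theorem k863 : eqNN c863 (slO 64 (D.chG 508 44) 8) = true := by decide +kernel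

end Pool.Agent.Lib.MP_afdd4d_co.K10.E6
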