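import Pool.Agent.Lib.MP_afdd4d_co.K10.E6.Dat
import Pool.Agent.Lib.MP_afdd4d_co.K10.E6.Mk
import Pool.Agent.Lib.MP_afdd4d_co.K8.F6Bl5
import Pool.Agent.Lib.MP_afdd4d_co.K10.E6.P0
import Pool.Agent.Lib.MP_afdd4d_co.K10.E6.P1
import Pool.Agent.Lib.MP_afdd4d_co.K10.E6.P2
import Pool.Agent.Lib.MP_afdd4d_co.K10.E6.P3
import Pool.Agent.Lib.MP_afdd4d_co.K10.E6.P4
import Pool.Agent.Lib.MP_afdd4d_co.K10.E6.P5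
import Pool.Agent.Lib.MP_afdd4d_co.K10.E6.P6
import Pool.Agent.Lib.MP_afdd4d_co.K10.E6.P7
import Pool.Agent.Lib.MP_afdd4d_co.K10.E6.P8
import Pool.Agent.Lib.MP_afdd4d_co.K10.E6.P9
import Pool.Agent.Lib.MP_afdd4d_co.K10.E6.P10
import Pool.Agent.Lib.MP_afdd4d_co.K10.E6.P11
import Pool.Agent.Lib.MP_afdd4d_co.K10.E6.P12
import Pool.Agent.Lib.MP_afdd4d_co.K10.E6.P13
import Pool.Agent.Lib.MP_afdd4d_co.K10.E6.P14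
import Pool.Agent.Lib.MP_afdd4d_co.K10.E6.P15
import Pool.Agent.Lib.MP_afdd4d_co.K10.E6.P16
import Pool.Agent.Lib.MP_afdd4d_co.K10.E6.P17
import Pool.Agent.Lib.MP_afdd4d_co.K10.E6.P18
import Pool.Agent.Lib.MP_afdd4d_co.K10.E6.P19
import Pool.Agent.Lib.MP_afdd4d_co.K10.E6.P20
import Pool.Agent.Lib.MP_afdd4d_co.K10.E6.P21
import Pool.Agent.Lib.MP_afdd4d_co.K10.E6.P22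
import Pool.Agent.Lib.MP_afdd4d_co.K10.E6.P23
import Pool.Agent.Lib.MP_afdd4d_co.K10.E6.P24
import Pool.Agent.Lib.MP_afdd4d_co.K10.E6.P25
import Pool.Agent.Lib.MP_afdd4d_co.K10.E6.P26
import Pool.Agent.Lib.MP_afdd4d_co.K10.E6.P27
import Pool.Agent.Lib.MP_afdd4d_co.K10.E6.P28
import Pool.Agent.Lib.MP_afdd4d_co.K10.E6.P29
import Pool.Agent.Lib.MP_afdd4d_co.K10.E6.P30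
import Pool.Agent.Lib.MP_afdd4d_co.K10.E6.P31
import Pool.Agent.Lib.MP_afdd4d_co.K10.E6.P32

/-!
# Tables
-/

namespace Pool.Agent.Lib.MP_afdd4d_co.K10.E6

open K8

set_option maxRecDepth 100000
set_option exponentiation.threshold 10000000

/-- The slices of the chunk 864. -/
noncomputable def c864 : List (List ℕ) := [
  [tr p849_45,
   tr p850_45,
   tr p851_45,
   tr p852_45,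
   s3_7 (s2_6 (s1_4 (s0_5 p851_51))),
   s3_7 (s2_6 (s1_4 (s0_5 p852_51))),
   x7_6 (x7_5 (x7_4 (x3_2 (x3_1 (x3_0 (s3_6 (s2_7 (s1_5 (s0_4 (n7 (n5 (n1 (n0 p849_58))))))))))))),
   x7_6 (x7_5 (x7_4 (x3_2 (x3_1 (x3_0 (s3_6 (s2_7 (s1_5 (s0_4 (n7 (n5 (n1 (n0 p850_58)))))))))))))],
  [s3_6 (s2_7 (s1_5 (s0_4 p851_51))),
   s3_6 (s2_7 (s1_5 (s0_4 p852_51))),
   tr p853_45,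
   tr p854_45,
   x6_7 (x6_5 (x6_4 (s3_7 (x2_7 (x2_1 (x2_0 (s2_6 (s1_4 (s0_5 (n7 (n5 (n1 p852_58)))))))))))),
   x6_7 (x6_5 (x6_4 (s3_7 (x2_7 (x2_1 (x2_0 (s2_6 (s1_4 (s0_5 (n7 (n5 (n1 p851_58)))))))))))),
   x7_6 (x7_5 (x7_4 (x3_2 (x3_1 (x3_0 (s3_6 (s2_7 (s1_5 (s0_4 (n7 (n5 (n1 p854_58)))))))))))),
   x7_6 (x7_5 (x7_4 (x3_2 (x3_1 (x3_0 (s3_6 (s2_7 (s1_5 (s0_4 (n7 (n5 (n1 p853_58))))))))))))],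
  [s3_6 (s2_7 (s1_4 (s0_5 p851_45))),
   s3_6 (s2_7 (s1_4 (s0_5 p852_45))),
   x6_7 (x6_5 (x6_4 (s3_7 (x2_7 (x2_1 (x2_0 (s2_6 (s1_5 (s0_4 (n7 (n4 (n1 p852_60)))))))))))),
   x6_7 (x6_5 (x6_4 (s3_7 (x2_7 (x2_1 (x2_0 (s2_6 (s1_5 (s0_4 (n7 (n4 (n1 p851_60)))))))))))),
   s3_6 (s2_7 (s1_4 (s0_5 p853_45))),
   s3_6 (s2_7 (s1_4 (s0_5 p854_45))),
   x7_6 (x7_5 (x7_4 (x3_2 (x3_1 (x3_0 (s3_6 (s2_7 (s1_4 (s0_5 (n7 (n4 (n1 p854_60)))))))))))),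
   x7_6 (x7_5 (x7_4 (x3_2 (x3_1 (x3_0 (s3_6 (s2_7 (s1_4 (s0_5 (n7 (n4 (n1 p853_60))))))))))))],
  [x6_7 (x6_5 (x6_4 (s3_7 (x2_7 (x2_1 (x2_0 (s2_6 (s1_4 (s0_5 (n7 (n5 (n1 (n0 p849_58))))))))))))),
   x6_7 (x6_5 (x6_4 (s3_7 (x2_7 (x2_1 (x2_0 (s2_6 (s1_4 (s0_5 (n7 (n5 (n1 (n0 p850_58))))))))))))),
   x6_7 (x6_5 (x6_4 (s3_7 (x2_7 (x2_1 (x2_0 (s2_6 (s1_5 (s0_4 (n7 (n4 (n1 p854_60)))))))))))),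
   x6_7 (x6_5 (x6_4 (s3_7 (x2_7 (x2_1 (x2_0 (s2_6 (s1_5 (s0_4 (n7 (n4 (n1 p853_60)))))))))))),
   x6_7 (x6_5 (x6_4 (s3_7 (x2_7 (x2_1 (x2_0 (s2_6 (s1_4 (s0_5 (n7 (n5 (n1 p854_58)))))))))))),
   x6_7 (x6_5 (x6_4 (s3_7 (x2_7 (x2_1 (x2_0 (s2_6 (s1_4 (s0_5 (n7 (n5 (n1 p853_58)))))))))))),
   x7_6 (x7_5 (x7_4 (x3_2 (x3_1 (x3_0 (tr (n6 (n5 p855_46)))))))),
   x7_6 (x7_5 (x7_4 (x3_2 (x3_1 (x3_0 (tr (n6 (n5 p856_46))))))))],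
  [x7_6 (x7_5 (x7_4 (x3_2 (x3_1 (x3_0 (tr (n6 (n5 (n2 (n1 (n0 p857_46))))))))))),
   x7_6 (x7_5 (x7_4 (x3_2 (x3_1 (x3_0 (tr (n6 (n5 (n2 (n1 (n0 p858_46))))))))))),
   tr p859_45,
   tr p860_45,
   s3_7 (s2_6 (s1_4 (s0_5 p859_51))),
   s3_7 (s2_6 (s1_4 (s0_5 p860_51))),
   tr p861_45,
   tr p862_45],
  [s3_6 (s2_7 (s1_5 (s0_4 p859_51))),
   s3_6 (s2_7 (s1_5 (s0_4 p860_51))),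
   x7_6 (x7_5 (x7_4 (x3_2 (x3_1 (x3_0 (s3_6 (s2_7 (s1_5 (s0_4 (n7 (n5 (n3 (n1 p860_58))))))))))))),
   x7_6 (x7_5 (x7_4 (x3_2 (x3_1 (x3_0 (s3_6 (s2_7 (s1_5 (s0_4 (n7 (n5 (n3 (n1 p859_58))))))))))))),
   tr p863_45,
   p864_45,
   p864_46,
   x7_6 (x7_5 (x7_4 (x3_2 (x3_1 (x3_0 (s3_6 (s2_7 (s1_4 (s0_5 (n7 (n4 (n3 (n0 p863_60)))))))))))))],
  [s3_6 (s2_7 (s1_4 (s0_5 p859_45))),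
   s3_6 (s2_7 (s1_4 (s0_5 p860_45))),
   s3_6 (s2_7 (s1_5 (s0_4 p863_51))),
   p864_51,
   x6_7 (x6_5 (x6_4 (s3_7 (x2_7 (x2_1 (x2_0 (s2_6 (s1_4 (s0_5 (n7 (n5 (n3 (n1 p860_58))))))))))))),
   x6_7 (x6_5 (x6_4 (s3_7 (x2_7 (x2_1 (x2_0 (s2_6 (s1_4 (s0_5 (n7 (n5 (n3 (n1 p859_58))))))))))))),
   p864_54,
   x7_6 (x7_5 (x7_4 (x3_2 (x3_1 (x3_0 (s3_6 (s2_7 (s1_5 (s0_4 (n7 (n5 (n3 (n0 p863_58)))))))))))))],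
  [s3_6 (s2_7 (s1_4 (s0_5 p861_45))),
   s3_6 (s2_7 (s1_4 (s0_5 p862_45))),
   s6_7 (s4_5 (s2_3 (s0_1 p864_54))),
   x6_7 (x6_5 (x6_4 (s3_7 (x2_7 (x2_1 (x2_0 (s2_6 (s1_4 (s0_5 (n7 (n5 (n3 (n0 p863_58))))))))))))),
   s6_7 (s4_5 (s2_3 (s0_1 p864_46))),
   x6_7 (x6_5 (x6_4 (s3_7 (x2_7 (x2_1 (x2_0 (s2_6 (s1_5 (s0_4 (n7 (n4 (n3 (n0 p863_60))))))))))))),
   x6_7 (x6_5 (x6_4 (s3_7 (x2_7 (x2_1 (x2_0 (s2_6 (s1_4 (s0_5 (n7 (n5 (n3 p861_58)))))))))))),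
   x6_7 (x6_5 (x6_4 (s3_7 (x2_7 (x2_1 (x2_0 (s2_6 (s1_4 (s0_5 (n7 (n5 (n3 p862_58))))))))))))]]

theorem k864 : eqNN c864 (slO 64 (D.chG 508 45) 8) = true := by decide +kernel

/-- The slices of the chunk 865. -/
noncomputable def c865 : List (List ℕ) := [
  [p865_0,
   p865_1,
   s5_6 (s1_2 p865_1),
   p865_3,
   s4_6 (s0_2 p865_1),
   s4_5 (s0_1 p865_3),
   s4_6 (s0_2 p865_3),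
   x6_7 (x6_5 (x6_4 (x2_3 (x2_1 (x2_0 (n7 (n3 (n1 (n0 p865_31)))))))))],
  [s5_7 (s1_3 p865_1),
   s6_7 (s2_3 p865_3),
   s5_7 (s1_3 p865_3),
   x5_7 (x5_6 (x5_4 (x1_3 (x1_2 (x1_0 (n7 (n6 (n3 (n2 (n0 p865_1)))))))))),
   x7_6 (x7_5 (x7_4 (x3_2 (x3_1 (x3_0 (n6 (n5 (n2 (n1 (n0 p865_15)))))))))),
   p865_13,
   s5_6 (s1_2 p865_13),
   p865_15],
  [s4_7 (s0_3 p865_1),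
   s6_7 (s4_5 (s2_3 (s0_1 p865_3))),
   x7_6 (x7_5 (x7_4 (s4_5 (x3_2 (x3_1 (x3_0 (s0_1 (n6 (n5 (n2 (n1 (n0 p865_15)))))))))))),
   s6_7 (s2_3 p865_13),
   s5_7 (s4_7 (s1_3 (s0_3 p865_3))),
   x4_7 (x4_6 (x4_5 (x0_3 (x0_2 (x0_1 (n7 (n6 (n3 (n2 (n1 p865_1)))))))))),
   s5_6 (s4_6 (s1_2 (s0_2 p865_13))),
   s4_5 (s0_1 p865_15)],
  [s6_7 (s4_6 (s2_3 (s0_2 p865_3))),
   x7_6 (x7_5 (x7_4 (x3_2 (x3_1 (x3_0 (n6 (n2 (n1 (n0 p865_31))))))))),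
   s6_7 (s5_6 (s2_3 (s1_2 p865_13))),
   s6_7 (s2_3 p865_15),
   s4_7 (s0_3 p865_13),
   s6_7 (s4_5 (s2_3 (s0_1 p865_15))),
   s5_7 (x4_7 (x4_6 (x4_5 (s1_3 (x0_3 (x0_2 (x0_1 (n7 (n3 (n2 (n1 p865_3))))))))))),
   p865_31],
  [s5_7 (s4_6 (s1_3 (s0_2 p865_1))),
   x7_6 (x7_5 (x7_4 (s4_6 (x3_2 (x3_1 (x3_0 (s0_2 (n6 (n5 (n2 (n1 (n0 p865_15)))))))))))),
   s5_7 (s4_6 (s1_3 (s0_2 p865_3))),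
   s6_7 (s5_7 (s2_3 (s1_3 p865_13))),
   s6_7 (s4_7 (s2_3 (s0_3 p865_3))),
   s4_6 (s0_2 p865_13),
   s5_6 (x4_7 (x4_6 (x4_5 (s1_2 (x0_3 (x0_2 (x0_1 (n7 (n6 (n3 (n2 (n1 p865_1)))))))))))),
   s4_6 (s0_2 p865_15)],
  [s5_7 (s4_5 (s1_3 (s0_1 p865_3))),
   s5_7 (s1_3 p865_13),
   x6_7 (x6_5 (x6_4 (s5_7 (x2_3 (x2_1 (x2_0 (s1_3 (n7 (n3 (n1 (n0 p865_31))))))))))),
   s5_7 (s1_3 p865_15),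
   s5_7 (s4_6 (s1_3 (s0_2 p865_13))),
   s6_7 (x4_7 (x4_6 (x4_5 (s2_3 (x0_3 (x0_2 (x0_1 (n7 (n3 (n2 (n1 p865_3))))))))))),
   s5_7 (s4_6 (s1_3 (s0_2 p865_15))),
   s5_6 (s1_2 p865_31)],
  [s4_7 (s0_3 p865_3),
   s5_7 (s4_7 (s1_3 (s0_3 p865_13))),
   s6_7 (s5_6 (s4_7 (s2_3 (s1_2 (s0_3 p865_13))))),
   x4_7 (x4_6 (x4_5 (x0_3 (x0_2 (x0_1 (n7 (n3 (n2 (n1 p865_3))))))))),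
   x6_7 (x6_5 (x6_4 (s4_7 (x2_3 (x2_1 (x2_0 (s0_3 (n7 (n3 (n1 (n0 p865_31))))))))))),
   s5_7 (s4_7 (s1_3 (s0_3 p865_15))),
   s6_7 (s4_7 (s2_3 (s0_3 p865_15))),
   s4_6 (s0_2 p865_31)],
  [s5_7 (x4_7 (x4_6 (x4_5 (s1_3 (x0_3 (x0_2 (x0_1 (n7 (n6 (n3 (n2 (n1 p865_1)))))))))))),
   s6_7 (s4_6 (s2_3 (s0_2 p865_15))),
   s5_7 (s4_5 (s1_3 (s0_1 p865_15))),
   s5_7 (s1_3 p865_31),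
   s4_7 (s0_3 p865_15),
   s4_7 (s0_3 p865_31),
   s5_7 (s4_6 (s1_3 (s0_2 p865_31))),
   p865_63]]

theorem k865 : eqNN c865 (slO 64 (D.chG 1008 0) 8) = true := by decide +kernel

/-- The slices of the chunk 866. -/
noncomputable def c866 : List (List ℕ) := [
  [tr p865_1,
   p866_1,
   p866_2,
   p866_3,
   s4_5 (s0_1 p866_2),
   s4_5 (s0_1 p866_3),
   p866_6,
   p866_7],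
  [s6_7 (s2_3 p866_2),
   s6_7 (s2_3 p866_3),
   x6_7 (x6_5 (x6_4 (x2_3 (x2_1 (x2_0 (n7 (n5 (n3 (n1 (n0 p866_3)))))))))),
   x6_7 (x6_5 (x6_4 (x2_3 (x2_1 (x2_0 (n7 (n5 (n3 (n1 (n0 p866_2)))))))))),
   p866_12,
   x6_7 (x6_5 (x6_4 (x2_3 (x2_1 (x2_0 (n7 (n4 (n3 (n1 (n0 p866_28)))))))))),
   s6_7 (s4_5 (s2_3 (s0_1 p866_28))),
   x7_6 (x7_5 (x7_4 (x3_2 (x3_1 (x3_0 (n6 (n5 (n2 (n1 (n0 p866_12))))))))))],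
  [s6_7 (s4_5 (s2_3 (s0_1 p866_2))),
   s6_7 (s4_5 (s2_3 (s0_1 p866_3))),
   s6_7 (s2_3 p866_12),
   x6_7 (x6_5 (x6_4 (s4_5 (x2_3 (x2_1 (x2_0 (s0_1 (n7 (n4 (n3 (n1 (n0 p866_28)))))))))))),
   x6_7 (x6_5 (x6_4 (s4_5 (x2_3 (x2_1 (x2_0 (s0_1 (n7 (n5 (n3 (n1 (n0 p866_3)))))))))))),
   x6_7 (x6_5 (x6_4 (s4_5 (x2_3 (x2_1 (x2_0 (s0_1 (n7 (n5 (n3 (n1 (n0 p866_2)))))))))))),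
   s6_7 (s2_3 p866_28),
   x7_6 (x7_5 (x7_4 (s6_7 (x3_2 (x3_1 (x3_0 (s2_3 (n7 (n4 (n3 (n1 (n0 p866_12))))))))))))],
  [s6_7 (s2_3 p866_6),
   s6_7 (s2_3 p866_7),
   s4_5 (s0_1 p866_28),
   x6_7 (x6_5 (x6_4 (s4_5 (x2_3 (x2_1 (x2_0 (s0_1 (n7 (n4 (n3 (n1 (n0 p866_12)))))))))))),
   p866_28,
   x6_7 (x6_5 (x6_4 (x2_3 (x2_1 (x2_0 (n7 (n4 (n3 (n1 (n0 p866_12)))))))))),
   x6_7 (x6_5 (x6_4 (x2_3 (x2_1 (x2_0 (n7 (n3 (n1 (n0 p866_6))))))))),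
   x6_7 (x6_5 (x6_4 (x2_3 (x2_1 (x2_0 (n7 (n3 (n1 (n0 p866_7)))))))))],
  [x7_6 (x7_5 (x7_4 (x3_2 (x3_1 (x3_0 (n5 (n4 (n2 (n1 (n0 p866_38)))))))))),
   p866_33,
   s6_7 (s4_5 (s2_3 (s0_1 p866_48))),
   s6_7 (s2_3 p866_41),
   s6_7 (s2_3 p866_48),
   s6_7 (s4_5 (s2_3 (s0_1 p866_41))),
   p866_38,
   x7_6 (x7_5 (x7_4 (x3_2 (x3_1 (x3_0 (n5 (n4 (n2 (n1 (n0 p866_33))))))))))],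
  [s4_5 (s0_1 p866_48),
   p866_41,
   p866_42,
   x6_7 (x6_5 (x6_4 (s4_5 (x2_3 (x2_1 (x2_0 (s0_1 (n4 (n3 (n1 (n0 p866_60))))))))))),
   x7_6 (x7_5 (x7_4 (x3_2 (x3_1 (x3_0 (n5 (n2 (n1 (n0 p866_41))))))))),
   x7_6 (x7_5 (x7_4 (s4_5 (x3_2 (x3_1 (x3_0 (s0_1 (n4 (n2 (n1 (n0 p866_48))))))))))),
   s6_7 (s4_5 (s2_3 (s0_1 p866_60))),
   x7_6 (x7_5 (x7_4 (x3_2 (x3_1 (x3_0 (n5 (n2 (n1 (n0 p866_42)))))))))],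
  [p866_48,
   s4_5 (s0_1 p866_41),
   x7_6 (x7_5 (x7_4 (s4_5 (x3_2 (x3_1 (x3_0 (s0_1 (n5 (n2 (n1 (n0 p866_41))))))))))),
   x7_6 (x7_5 (x7_4 (x3_2 (x3_1 (x3_0 (n4 (n2 (n1 (n0 p866_48))))))))),
   s4_5 (s0_1 p866_42),
   x6_7 (x6_5 (x6_4 (x2_3 (x2_1 (x2_0 (n4 (n3 (n1 (n0 p866_60))))))))),
   s6_7 (s2_3 p866_60),
   x7_6 (x7_5 (x7_4 (s4_5 (x3_2 (x3_1 (x3_0 (s0_1 (n5 (n2 (n1 (n0 p866_42)))))))))))],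
  [s6_7 (s2_3 p866_38),
   x6_7 (x6_5 (x6_4 (x2_3 (x2_1 (x2_0 (n5 (n4 (n3 (n1 (n0 p866_33)))))))))),
   s4_5 (s0_1 p866_60),
   x6_7 (x6_5 (x6_4 (x2_3 (x2_1 (x2_0 (n5 (n3 (n1 (n0 p866_42))))))))),
   p866_60,
   x6_7 (x6_5 (x6_4 (s4_5 (x2_3 (x2_1 (x2_0 (s0_1 (n5 (n3 (n1 (n0 p866_42))))))))))),
   p866_62,
   tr p871_1]]

theorem k866 : eqNN c866 (slO 64 (D.chG 1008 1) 8) = true := by decide +kernel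

/-- The slices of the chunk 867. -/
noncomputable def c867 : List (List ℕ) := [
  [tr p865_3,
   tr p866_3,
   s3_7 (s2_5 (s1_6 (s0_4 p866_3))),
   p867_3,
   s3_7 (s2_4 (s1_5 (s0_6 p866_6))),
   p867_5,
   s5_6 (s1_2 p867_5),
   tr p868_3],
  [x6_7 (x6_5 (x6_4 (s5_6 (x3_2 (x3_1 (x3_0 (s3_6 (x2_6 (x2_1 (x2_0 (s2_5 (s1_7 (s0_4 (n7 (n5 (n3 (n1 (n0 p866_3)))))))))))))))))),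
   p867_9,
   s5_6 (s1_2 p867_9),
   x5_7 (x5_6 (x5_4 (s3_6 (s2_7 (x1_7 (x1_6 (x1_0 (s1_5 (s0_4 (n7 (n6 (n3 (n2 p866_3))))))))))))),
   p867_12,
   tr p870_3,
   s3_7 (s2_5 (s1_6 (s0_4 p870_3))),
   x7_6 (x7_5 (x7_4 (x3_2 (x3_1 (x3_0 (n6 (n5 (n2 (n1 (n0 p867_12))))))))))],
  [s3_4 (s2_6 (s1_5 (s0_7 p866_48))),
   x7_6 (x7_5 (x7_4 (x3_2 (x3_1 (x3_0 (n6 (n4 (n2 (n1 (n0 p867_20)))))))))),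
   p867_18,
   s3_6 (s2_7 (s1_5 (s0_4 p870_9))),
   p867_20,
   x7_6 (x7_5 (x7_4 (x3_2 (x3_1 (x3_0 (s3_4 (s2_6 (s1_5 (s0_7 (n7 (n6 (n5 (n3 (n2 p866_48)))))))))))))),
   x6_7 (x6_5 (x6_4 (s3_7 (x2_7 (x2_1 (x2_0 (s2_5 (s1_6 (s0_4 (n7 (n6 (n3 p870_9)))))))))))),
   x7_6 (x7_5 (x7_4 (x3_2 (x3_1 (x3_0 (n6 (n4 (n2 (n1 (n0 p867_18))))))))))],
  [s5_7 (s4_6 (s3_4 (s2_7 (s1_6 (s0_5 p867_20))))),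
   s3_6 (s2_7 (s1_5 (s0_4 p868_9))),
   x7_6 (x7_5 (x7_4 (x3_2 (x3_1 (x3_0 (n6 (n2 (n1 (n0 p867_28))))))))),
   x6_7 (x6_5 (x6_4 (s5_7 (x2_3 (x2_1 (x2_0 (s1_3 (n7 (n5 (n3 (n1 p867_18))))))))))),
   p867_28,
   x7_6 (x7_5 (x7_4 (x6_7 (x6_5 (x6_4 (s5_7 (x3_2 (x3_1 (x3_0 (x2_3 (x2_1 (x2_0 (s1_3 (n6 (n4 (n3 (n2 p867_18))))))))))))))))),
   s6_7 (x5_7 (x5_6 (x5_4 (s2_3 (x1_3 (x1_2 (x1_0 (n4 (n3 (n2 p867_20)))))))))),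
   x6_7 (x6_5 (x6_4 (s3_7 (x2_7 (x2_1 (x2_0 (s2_5 (s1_6 (s0_4 (n7 (n6 (n3 p868_9))))))))))))],
  [s3_4 (s2_5 (s1_6 (s0_7 p866_48))),
   s5_6 (s1_2 p867_18),
   x7_6 (x7_5 (x7_4 (s5_6 (x3_2 (x3_1 (x3_0 (s1_2 (n6 (n4 (n2 (n1 (n0 p867_20)))))))))))),
   s6_7 (s5_6 (s3_6 (s2_5 (s1_7 (s0_4 p870_9))))),
   s5_6 (s1_2 p867_20),
   x5_7 (x5_6 (x5_4 (s3_7 (s2_6 (x1_7 (x1_6 (x1_0 (s1_5 (s0_4 (n7 (n6 (n3 p870_9)))))))))))),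
   x7_6 (x7_5 (x7_4 (x3_2 (x3_1 (x3_0 (s3_4 (s2_5 (s1_6 (s0_7 (n7 (n6 (n5 (n3 (n2 p866_48)))))))))))))),
   x7_6 (x7_5 (x7_4 (s5_6 (x3_2 (x3_1 (x3_0 (s1_2 (n6 (n4 (n2 (n1 (n0 p867_18))))))))))))],
  [s5_7 (s4_7 (s3_4 (s2_6 (s1_7 (s0_5 p867_20))))),
   x6_7 (x6_5 (x6_4 (s5_7 (x2_3 (x2_1 (x2_0 (s1_3 (n7 (n4 (n3 (n1 p867_28))))))))))),
   s6_7 (s5_6 (s3_6 (s2_5 (s1_7 (s0_4 p868_9))))),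
   x7_6 (x7_5 (x7_4 (s6_7 (x5_7 (x5_6 (x5_4 (x3_2 (x3_1 (x3_0 (s2_3 (x1_3 (x1_2 (x1_0 (n7 (n5 (n3 (n1 p867_18))))))))))))))))),
   s5_6 (s1_2 p867_28),
   x7_6 (x7_5 (x7_4 (s5_7 (s4_7 (x3_2 (x3_1 (x3_0 (s3_4 (s2_6 (s1_7 (s0_5 (n7 (n6 (n5 (n3 p867_20))))))))))))))),
   s6_7 (x5_7 (x5_6 (x5_4 (s2_3 (x1_3 (x1_2 (x1_0 (n6 (n4 (n3 (n2 p867_18))))))))))),
   x5_7 (x5_6 (x5_4 (s3_7 (s2_6 (x1_7 (x1_6 (x1_0 (s1_5 (s0_4 (n7 (n6 (n3 p868_9))))))))))))],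
  [x6_7 (x6_5 (x6_4 (s5_7 (x2_3 (x2_1 (x2_0 (s1_3 (n7 (n4 (n3 (n1 p867_5))))))))))),
   x5_7 (x5_6 (x5_4 (s3_6 (s2_7 (x1_7 (x1_6 (x1_0 (s1_5 (s0_4 (n7 (n6 (n3 p870_3)))))))))))),
   x7_6 (x7_5 (x7_4 (x6_7 (x6_5 (x6_4 (s5_6 (s3_6 (x2_6 (x2_1 (x2_0 (s2_5 (s1_7 (s0_4 (n7 (n6 (n3 p870_3)))))))))))))))),
   s6_7 (x5_7 (x5_6 (x5_4 (s2_3 (x1_3 (x1_2 (x1_0 (n7 (n3 (n2 p867_5)))))))))),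
   s3_4 (s2_6 (s1_5 (s0_7 p868_48))),
   p867_53,
   s5_6 (s1_2 p867_53),
   x7_6 (x7_5 (x7_4 (x3_2 (x3_1 (x3_0 (s3_4 (s2_6 (s1_5 (s0_7 (n7 (n6 (n5 (n3 p868_48)))))))))))))],
  [x6_7 (x6_5 (x6_4 (s3_5 (x2_5 (x2_1 (x2_0 (s2_4 (s1_7 (s0_6 (n7 (n5 (n3 (n2 p866_6))))))))))))),
   x6_7 (x6_5 (x6_4 (s5_7 (x2_3 (x2_1 (x2_0 (s1_3 (n7 (n4 (n3 (n1 p867_12))))))))))),
   s6_7 (x5_7 (x5_6 (x5_4 (s2_3 (x1_3 (x1_2 (x1_0 (n7 (n4 (n3 (n2 p867_12))))))))))),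
   x5_7 (x5_6 (x5_4 (s3_6 (s2_7 (x1_7 (x1_6 (x1_0 (s1_5 (s0_4 (n7 (n6 (n3 p868_3)))))))))))),
   p867_60,
   x6_7 (x6_5 (x6_4 (s5_7 (s4_6 (s3_6 (x2_6 (x2_1 (x2_0 (s2_5 (s1_4 (s0_7 (n6 (n4 (n3 p868_48)))))))))))))),
   x7_6 (x7_5 (x7_4 (s6_7 (x5_7 (x5_6 (x5_4 (s4_6 (s3_6 (x2_6 (x2_1 (x2_0 (s2_5 (x1_6 (x1_5 (x1_0 (s1_4 (s0_7 (n6 (n4 (n3 p868_48)))))))))))))))))))),
   tr p871_3]]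

theorem k867 : eqNN c867 (slO 64 (D.chG 1008 3) 8) = true := by decide +kernel

end Pool.Agent.Lib.MP_afdd4d_co.K10.E6
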