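import Pool.Agent.Lib.MP_afdd4d_co.K10.E6.Dat
import Pool.Agent.Lib.MP_afdd4d_co.K10.E6.Mk
import Pool.Agent.Lib.MP_afdd4d_co.K8.F6Bl5
import Pool.Agent.Lib.MP_afdd4d_co.K10.E6.P0
import Pool.Agent.Lib.MP_afdd4d_co.K10.E6.P1
import Pool.Agent.Lib.MP_afdd4d_co.K10.E6.P2
import Pool.Agent.Lib.MP_afdd4d_co.K10.E6.P3
import Pool.Agent.Lib.MP_afdd4d_co.K10.E6.P4
import Pool.Agent.Lib.MP_afdd4d_co.K10.E6.P5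
import Pool.Agent.Lib.MP_afdd4d_co.K10.E6.P6
import Pool.Agent.Lib.MP_afdd4d_co.K10.E6.P7
import Pool.Agent.Lib.MP_afdd4d_co.K10.E6.P8
import Pool.Agent.Lib.MP_afdd4d_co.K10.E6.P9
import Pool.Agent.Lib.MP_afdd4d_co.K10.E6.P10
import Pool.Agent.Lib.MP_afdd4d_co.K10.E6.P11
import Pool.Agent.Lib.MP_afdd4d_co.K10.E6.P12
import Pool.Agent.Lib.MP_afdd4d_co.K10.E6.P13
import Pool.Agent.Lib.MP_afdd4d_co.K10.E6.P14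
import Pool.Agent.Lib.MP_afdd4d_co.K10.E6.P15
import Pool.Agent.Lib.MP_afdd4d_co.K10.E6.P16
import Pool.Agent.Lib.MP_afdd4d_co.K10.E6.P17
import Pool.Agent.Lib.MP_afdd4d_co.K10.E6.P18
import Pool.Agent.Lib.MP_afdd4d_co.K10.E6.P19
import Pool.Agent.Lib.MP_afdd4d_co.K10.E6.P20
import Pool.Agent.Lib.MP_afdd4d_co.K10.E6.P21
import Pool.Agent.Lib.MP_afdd4d_co.K10.E6.P22
import Pool.Agent.Lib.MP_afdd4d_co.K10.E6.P23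
import Pool.Agent.Lib.MP_afdd4d_co.K10.E6.P24
import Pool.Agent.Lib.MP_afdd4d_co.K10.E6.P25
import Pool.Agent.Lib.MP_afdd4d_co.K10.E6.P26
import Pool.Agent.Lib.MP_afdd4d_co.K10.E6.P27
import Pool.Agent.Lib.MP_afdd4d_co.K10.E6.P28
import Pool.Agent.Lib.MP_afdd4d_co.K10.E6.P29
import Pool.Agent.Lib.MP_afdd4d_co.K10.E6.P30
import Pool.Agent.Lib.MP_afdd4d_co.K10.E6.P31
import Pool.Agent.Lib.MP_afdd4d_co.K10.E6.P32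

/-!
# Tables
-/

namespace Pool.Agent.Lib.MP_afdd4d_co.K10.E6

open K8

set_option maxRecDepth 100000
set_option exponentiation.threshold 10000000

/-- The slices of the chunk 868. -/
noncomputable def c868 : List (List ℕ) := [
  [x6_7 (x6_5 (x6_4 (s3_7 (x2_7 (x2_1 (x2_0 (s2_6 (s1_5 (s0_4 (n7 (n3 (n1 (n0 p865_31))))))))))))),
   tr p866_7,
   s3_7 (s2_5 (s1_6 (s0_4 p866_7))),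
   p868_3,
   s3_7 (s2_4 (s1_5 (s0_6 p866_7))),
   s4_5 (s0_1 p868_3),
   s4_6 (s0_2 p868_3),
   p868_7],
  [s3_5 (s2_6 (s1_7 (s0_4 p866_42))),
   p868_9,
   s5_6 (s1_2 p868_9),
   x7_6 (x7_5 (x7_4 (x3_2 (x3_1 (x3_0 (s3_5 (s2_6 (s1_7 (s0_4 (n7 (n6 (n4 (n3 (n2 p866_42)))))))))))))),
   p868_12,
   tr p870_7,
   s3_7 (s2_5 (s1_6 (s0_4 p870_7))),
   x7_6 (x7_5 (x7_4 (x3_2 (x3_1 (x3_0 (n6 (n5 (n2 (n1 (n0 p868_12))))))))))],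
  [s5_6 (s4_7 (s3_5 (s2_7 (s1_4 (s0_6 p866_42))))),
   s4_5 (s0_1 p868_9),
   s4_5 (s0_1 p868_12),
   s3_7 (s2_6 (s1_4 (s0_5 p870_7))),
   s5_6 (s4_6 (s1_2 (s0_2 p868_9))),
   x7_6 (x7_5 (x7_4 (s5_6 (s4_7 (x3_2 (x3_1 (x3_0 (s3_5 (s2_7 (s1_4 (s0_6 (n7 (n6 (n4 (n3 (n2 p866_42)))))))))))))))),
   s5_6 (s4_5 (s3_7 (s2_5 (s1_4 (s0_6 p870_7))))),
   x7_6 (x7_5 (x7_4 (s4_5 (x3_2 (x3_1 (x3_0 (s0_1 (n6 (n5 (n2 (n1 (n0 p868_12))))))))))))],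
  [s4_6 (s0_2 p868_48),
   p868_25,
   s4_5 (s0_1 p868_28),
   s5_6 (s4_5 (s1_2 (s0_1 p868_53))),
   p868_28,
   s4_6 (s0_2 p868_53),
   x7_6 (x7_5 (x7_4 (s4_6 (x3_2 (x3_1 (x3_0 (s0_2 (n4 (n2 (n1 (n0 p868_48))))))))))),
   x7_6 (x7_5 (x7_4 (x3_2 (x3_1 (x3_0 (n6 (n2 (n1 (n0 p868_25)))))))))],
  [s3_5 (s2_4 (s1_7 (s0_6 p866_42))),
   s4_6 (s0_2 p868_12),
   s5_6 (s4_5 (s1_2 (s0_1 p868_9))),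
   s5_6 (s4_6 (s3_7 (s2_4 (s1_6 (s0_5 p870_7))))),
   s4_6 (s0_2 p868_9),
   s3_7 (s2_4 (s1_5 (s0_6 p870_7))),
   x7_6 (x7_5 (x7_4 (x3_2 (x3_1 (x3_0 (s3_5 (s2_4 (s1_7 (s0_6 (n7 (n6 (n4 (n3 (n2 p866_42)))))))))))))),
   x7_6 (x7_5 (x7_4 (s4_6 (x3_2 (x3_1 (x3_0 (s0_2 (n6 (n5 (n2 (n1 (n0 p868_12))))))))))))],
  [s4_5 (s0_1 p868_48),
   s5_6 (s4_5 (s1_2 (s0_1 p868_28))),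
   s5_6 (s1_2 p868_25),
   s4_5 (s0_1 p868_53),
   s5_6 (s1_2 p868_28),
   x7_6 (x7_5 (x7_4 (s4_5 (x3_2 (x3_1 (x3_0 (s0_1 (n4 (n2 (n1 (n0 p868_48))))))))))),
   s5_6 (s4_6 (s1_2 (s0_2 p868_53))),
   x7_6 (x7_5 (x7_4 (s5_6 (x3_2 (x3_1 (x3_0 (s1_2 (n6 (n2 (n1 (n0 p868_25)))))))))))],
  [p868_48,
   s4_6 (s0_2 p868_28),
   s5_6 (s4_6 (s1_2 (s0_2 p868_28))),
   x7_6 (x7_5 (x7_4 (x3_2 (x3_1 (x3_0 (n4 (n2 (n1 (n0 p868_48))))))))),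
   s4_6 (s0_2 p868_25),
   p868_53,
   s5_6 (s1_2 p868_53),
   x7_6 (x7_5 (x7_4 (s4_6 (x3_2 (x3_1 (x3_0 (s0_2 (n6 (n2 (n1 (n0 p868_25)))))))))))],
  [x4_7 (x4_6 (x4_5 (s3_5 (s2_6 (s1_7 (x0_7 (x0_6 (x0_5 (s0_4 (n5 (n3 (n2 p866_62)))))))))))),
   s4_6 (s0_2 p868_60),
   s4_5 (s0_1 p868_60),
   p868_59,
   p868_60,
   s4_5 (s0_1 p868_59),
   s4_6 (s0_2 p868_59),
   x6_7 (x6_5 (x6_4 (s3_7 (x2_7 (x2_1 (x2_0 (s2_6 (s1_5 (s0_4 (n7 p871_31))))))))))]]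

theorem k868 : eqNN c868 (slO 64 (D.chG 1008 7) 8) = true := by decide +kernel

/-- The slices of the chunk 869. -/
noncomputable def c869 : List (List ℕ) := [
  [x7_6 (x7_5 (x7_4 (x3_2 (x3_1 (x3_0 (tr (n6 (n5 (n2 (n1 (n0 p865_15))))))))))),
   tr p866_12,
   s3_7 (s2_5 (s1_6 (s0_4 p866_12))),
   tr p867_12,
   s3_7 (s2_4 (s1_5 (s0_6 p866_33))),
   s3_7 (s2_6 (s1_4 (s0_5 p867_18))),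
   s5_6 (s4_6 (s3_7 (s2_4 (s1_6 (s0_5 p867_18))))),
   tr p868_12],
  [s3_5 (s2_6 (s1_7 (s0_4 p866_33))),
   s3_6 (s2_7 (s1_5 (s0_4 p867_18))),
   s6_7 (s5_6 (s3_6 (s2_5 (s1_7 (s0_4 p867_18))))),
   x5_7 (x5_6 (x5_4 (s3_6 (s2_7 (x1_7 (x1_6 (x1_0 (s1_4 (s0_5 (n6 (n5 (n3 (n2 p866_60))))))))))))),
   p869_12,
   tr p870_12,
   s3_7 (s2_5 (s1_6 (s0_4 p870_12))),
   p869_15],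
  [s3_4 (s2_6 (s1_5 (s0_7 p866_12))),
   s3_6 (s2_7 (s1_4 (s0_5 p867_12))),
   p869_18,
   s3_6 (s2_7 (s1_5 (s0_4 p870_18))),
   s5_7 (s4_5 (s3_5 (s2_6 (s1_4 (s0_7 p867_18))))),
   x4_7 (x4_6 (x4_5 (s3_7 (s2_6 (s1_5 (x0_7 (x0_6 (x0_5 (s0_4 (n6 (n5 (n3 (n2 p866_60))))))))))))),
   s5_6 (s4_5 (s3_7 (s2_5 (s1_4 (s0_6 p870_33))))),
   p869_23],
  [s6_7 (s4_7 (s3_4 (s2_7 (s1_5 (s0_6 p867_18))))),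
   s3_6 (s2_7 (s1_4 (s0_5 p868_12))),
   s6_7 (s5_7 (s3_5 (s2_7 (s1_6 (s0_4 p870_33))))),
   s6_7 (s4_5 (s2_3 (s0_1 p869_23))),
   s3_4 (s2_6 (s1_5 (s0_7 p870_12))),
   s6_7 (s4_5 (s2_3 (s0_1 p869_15))),
   x4_7 (x4_6 (x4_5 (s3_5 (s2_6 (s1_7 (x0_7 (x0_6 (x0_5 (s0_4 (n7 (n6 (n3 p867_53)))))))))))),
   x6_7 (x6_5 (x6_4 (s3_7 (x2_7 (x2_1 (x2_0 (s2_4 (s1_5 (s0_6 (n7 (n6 (n3 p868_53))))))))))))],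
  [s3_5 (s2_4 (s1_7 (s0_6 p866_12))),
   s5_6 (s1_2 p869_18),
   s3_5 (s2_4 (s1_7 (s0_6 p867_12))),
   s6_7 (s5_6 (s3_6 (s2_5 (s1_7 (s0_4 p870_18))))),
   s6_7 (s4_5 (s3_5 (s2_4 (s1_6 (s0_7 p867_18))))),
   s3_7 (s2_4 (s1_5 (s0_6 p870_33))),
   x4_7 (x4_6 (x4_5 (s3_7 (s2_5 (s1_6 (x0_7 (x0_6 (x0_5 (s0_4 (n6 (n5 (n3 (n2 p866_60))))))))))))),
   s5_6 (s1_2 p869_23)],
  [s6_7 (s4_5 (s3_4 (s2_5 (s1_7 (s0_6 p867_18))))),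
   s3_5 (s2_6 (s1_7 (s0_4 p870_33))),
   s3_5 (s2_4 (s1_7 (s0_6 p868_12))),
   s6_7 (s5_7 (s4_5 (s2_3 (s1_3 (s0_1 p869_23))))),
   s3_5 (s2_4 (s1_7 (s0_6 p870_12))),
   s6_7 (s5_7 (x4_7 (x4_6 (x4_5 (s3_5 (s2_7 (s1_6 (x0_7 (x0_6 (x0_5 (s0_4 (n7 (n6 (n3 p867_53)))))))))))))),
   s5_7 (s4_6 (s1_3 (s0_2 p869_15))),
   x7_6 (x7_5 (x7_4 (s5_7 (s4_7 (x3_2 (x3_1 (x3_0 (s3_4 (s2_6 (s1_7 (s0_5 (n7 (n6 (n3 p868_53))))))))))))))],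
  [s3_4 (s2_6 (s1_5 (s0_7 p867_12))),
   s5_7 (s4_5 (s3_5 (s2_6 (s1_4 (s0_7 p870_18))))),
   s6_7 (s4_5 (s3_5 (s2_4 (s1_6 (s0_7 p870_18))))),
   x4_7 (x4_6 (x4_5 (s3_7 (s2_6 (s1_5 (x0_7 (x0_6 (x0_5 (s0_4 (n6 (n5 (n3 p867_60)))))))))))),
   s3_4 (s2_6 (s1_5 (s0_7 p868_12))),
   s4_7 (s0_3 p869_23),
   s5_6 (s4_7 (s1_2 (s0_3 p869_23))),
   x4_7 (x4_6 (x4_5 (s3_7 (s2_6 (s1_5 (x0_7 (x0_6 (x0_5 (s0_4 (n6 (n5 (n3 p868_60))))))))))))],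
  [x6_7 (x6_5 (x6_4 (s3_5 (x2_5 (x2_1 (x2_0 (s2_4 (s1_7 (s0_6 (n6 (n5 (n3 (n2 p866_60))))))))))))),
   s6_7 (s5_6 (s4_6 (s2_3 (s1_2 (s0_2 p869_23))))),
   s5_7 (s4_6 (s1_3 (s0_2 p869_23))),
   x5_7 (x5_6 (x5_4 (s3_6 (s2_7 (x1_7 (x1_6 (x1_0 (s1_4 (s0_5 (n6 (n5 (n3 p868_60)))))))))))),
   s4_7 (s0_3 p869_15),
   s6_7 (s5_7 (x4_7 (x4_6 (x4_5 (s3_5 (s2_7 (s1_6 (x0_7 (x0_6 (x0_5 (s0_4 (n7 (n6 (n3 p868_53)))))))))))))),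
   x4_7 (x4_6 (x4_5 (s3_5 (s2_6 (s1_7 (x0_7 (x0_6 (x0_5 (s0_4 (n7 (n6 (n3 p868_53)))))))))))),
   x7_6 (x7_5 (x7_4 (x3_2 (x3_1 (x3_0 (tr (n6 (n5 p871_15))))))))]]

theorem k869 : eqNN c869 (slO 64 (D.chG 1008 12) 8) = true := by decide +kernel

/-- The slices of the chunk 870. -/
noncomputable def c870 : List (List ℕ) := [
  [tr p865_13,
   x6_7 (x6_5 (x6_4 (s3_7 (x2_7 (x2_1 (x2_0 (s2_6 (s1_5 (s0_4 (n7 (n4 (n3 (n1 (n0 p866_28)))))))))))))),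
   s5_6 (s4_7 (s3_6 (s2_4 (s1_7 (s0_5 p866_28))))),
   p870_3,
   s5_7 (s4_6 (s3_6 (s2_5 (s1_4 (s0_7 p866_41))))),
   s6_7 (s4_5 (s2_3 (s0_1 p870_9))),
   x5_7 (x5_6 (x5_4 (s4_6 (x1_3 (x1_2 (x1_0 (s0_2 (n7 (n6 (n3 p870_9)))))))))),
   p870_7],
  [s3_5 (s2_6 (s1_7 (s0_4 p866_41))),
   p870_9,
   x6_7 (x6_5 (x6_4 (s3_7 (x2_7 (x2_1 (x2_0 (s2_6 (s1_5 (s0_4 (n7 (n4 (n3 (n1 p867_28))))))))))))),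
   x5_7 (x5_6 (x5_4 (s3_6 (s2_7 (x1_7 (x1_6 (x1_0 (s1_4 (s0_5 (n6 (n3 (n2 p866_41)))))))))))),
   p870_12,
   p870_13,
   p870_14,
   x7_6 (x7_5 (x7_4 (s5_6 (x3_2 (x3_1 (x3_0 (s1_2 (n6 (n5 (n2 (n1 p870_12)))))))))))],
  [s3_4 (s2_6 (s1_5 (s0_7 p866_28))),
   s6_7 (s4_5 (s2_3 (s0_1 p870_3))),
   p870_18,
   s5_7 (x4_7 (x4_6 (x4_5 (s1_3 (x0_3 (x0_2 (x0_1 (n5 (n2 p870_14))))))))),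
   x7_6 (x7_5 (x7_4 (x3_2 (x3_1 (x3_0 (s3_6 (s2_7 (s1_4 (s0_5 (n7 (n4 (n3 (n1 p867_28))))))))))))),
   x4_7 (x4_6 (x4_5 (s3_7 (s2_6 (s1_5 (x0_7 (x0_6 (x0_5 (s0_4 (n6 (n3 (n2 p866_41)))))))))))),
   p870_22,
   x7_6 (x7_5 (x7_4 (s5_6 (x3_2 (x3_1 (x3_0 (s1_2 (n5 (n4 (n2 (n1 p870_33)))))))))))],
  [x6_7 (x6_5 (x6_4 (s4_7 (x2_3 (x2_1 (x2_0 (s0_3 (n7 (n5 (n4 (n3 (n0 p870_9)))))))))))),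
   s6_7 (s4_5 (s2_3 (s0_1 p870_7))),
   s6_7 (s4_5 (s2_3 (s0_1 p870_22))),
   x6_7 (x6_5 (x6_4 (s4_7 (x2_3 (x2_1 (x2_0 (s0_3 (n5 (n4 (n3 (n0 p870_33))))))))))),
   s6_7 (s4_5 (s2_3 (s0_1 p870_14))),
   x6_7 (x6_5 (x6_4 (s4_7 (x2_3 (x2_1 (x2_0 (s0_3 (n7 (n4 (n3 (n0 p870_12))))))))))),
   s5_7 (x4_7 (x4_6 (x4_5 (s1_3 (x0_3 (x0_2 (x0_1 (n7 (n2 p870_3))))))))),
   x6_7 (x6_5 (x6_4 (s3_7 (x2_7 (x2_1 (x2_0 (s2_6 (s1_5 (s0_4 (n7 (n4 (n3 p868_28))))))))))))],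
  [x7_6 (x7_5 (x7_4 (x4_7 (x4_6 (x4_5 (x3_2 (x3_1 (x3_0 (s3_7 (s2_5 (s1_6 (x0_7 (x0_6 (x0_5 (s0_4 (n5 (n2 (n1 (n0 p866_41))))))))))))))))))),
   p870_33,
   s5_6 (s4_7 (s3_6 (s2_4 (s1_7 (s0_5 p867_28))))),
   s5_6 (s4_6 (s3_7 (s2_4 (s1_6 (s0_5 p870_22))))),
   x5_7 (x5_6 (x5_4 (s4_6 (x1_3 (x1_2 (x1_0 (s0_2 (n7 (n6 (n3 p870_3)))))))))),
   x6_7 (x6_5 (x6_4 (s4_7 (x2_3 (x2_1 (x2_0 (s0_3 (n7 (n3 (n0 p870_14)))))))))),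
   x7_6 (x7_5 (x7_4 (x3_2 (x3_1 (x3_0 (s3_4 (s2_5 (s1_6 (s0_7 (n6 (n5 (n3 (n2 p866_28))))))))))))),
   x7_6 (x7_5 (x7_4 (s5_6 (x3_2 (x3_1 (x3_0 (s1_2 (n6 (n4 (n2 (n1 p870_18)))))))))))],
  [x6_7 (x6_5 (x6_4 (s4_7 (x2_3 (x2_1 (x2_0 (s0_3 (n7 (n5 (n3 (n0 p870_3))))))))))),
   x5_7 (x5_6 (x5_4 (s4_6 (x1_3 (x1_2 (x1_0 (s0_2 (n7 (n4 (n3 p870_14)))))))))),
   s5_6 (s4_7 (s3_6 (s2_4 (s1_7 (s0_5 p868_28))))),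
   x5_7 (x5_6 (x5_4 (s4_6 (x1_3 (x1_2 (x1_0 (s0_2 (n7 (n4 (n3 p870_12)))))))))),
   x6_7 (x6_5 (x6_4 (s4_7 (x2_3 (x2_1 (x2_0 (s0_3 (n7 (n3 (n0 p870_22)))))))))),
   s5_7 (x4_7 (x4_6 (x4_5 (s1_3 (x0_3 (x0_2 (x0_1 (n6 (n2 p870_9))))))))),
   x5_7 (x5_6 (x5_4 (s4_6 (x1_3 (x1_2 (x1_0 (s0_2 (n7 (n6 (n3 p870_33)))))))))),
   x5_7 (x5_6 (x5_4 (s4_6 (x1_3 (x1_2 (x1_0 (s0_2 (n7 (n3 p870_7)))))))))],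
  [s3_4 (s2_6 (s1_5 (s0_7 p867_28))),
   s6_7 (s4_7 (s3_4 (s2_7 (s1_5 (s0_6 p870_22))))),
   p870_50,
   x6_7 (x6_5 (x6_4 (s3_5 (x2_5 (x2_1 (x2_0 (s2_4 (s1_7 (s0_6 (n6 (n5 (n3 p867_28)))))))))))),
   s3_4 (s2_6 (s1_5 (s0_7 p868_28))),
   s5_7 (x4_7 (x4_6 (x4_5 (s1_3 (x0_3 (x0_2 (x0_1 (n6 (n5 (n2 p870_12)))))))))),
   s5_7 (x4_7 (x4_6 (x4_5 (s1_3 (x0_3 (x0_2 (x0_1 (n7 (n5 (n2 p870_18)))))))))),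
   x7_6 (x7_5 (x7_4 (x3_2 (x3_1 (x3_0 (s3_4 (s2_5 (s1_6 (s0_7 (n6 (n5 (n3 p868_28))))))))))))],
  [x6_7 (x6_5 (x6_4 (s3_5 (x2_5 (x2_1 (x2_0 (s2_4 (s1_7 (s0_6 (n6 (n5 (n3 (n2 p866_28))))))))))))),
   x6_7 (x6_5 (x6_4 (s4_7 (x2_3 (x2_1 (x2_0 (s0_3 (n7 (n5 (n3 (n0 p870_18))))))))))),
   x5_7 (x5_6 (x5_4 (s4_6 (x1_3 (x1_2 (x1_0 (s0_2 (n6 (n4 (n3 p870_18)))))))))),
   x6_7 (x6_5 (x6_4 (s3_5 (x2_5 (x2_1 (x2_0 (s2_4 (s1_7 (s0_6 (n6 (n5 (n3 p868_28)))))))))))),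
   s5_7 (x4_7 (x4_6 (x4_5 (s1_3 (x0_3 (x0_2 (x0_1 (n7 (n6 (n2 p870_33)))))))))),
   x6_7 (x6_5 (x6_4 (s4_7 (x2_3 (x2_1 (x2_0 (s0_3 (n7 (n3 (n0 p870_7)))))))))),
   s5_7 (x4_7 (x4_6 (x4_5 (s1_3 (x0_3 (x0_2 (x0_1 (n7 (n2 p870_7))))))))),
   tr p871_13]]

theorem k870 : eqNN c870 (slO 64 (D.chG 1008 13) 8) = true := by decide +kernel

/-- The slices of the chunk 871. -/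
noncomputable def c871 : List (List ℕ) := [
  [tr p865_63,
   p871_1,
   s5_6 (s1_2 p871_1),
   p871_3,
   s4_6 (s0_2 p871_1),
   s4_5 (s0_1 p871_3),
   s4_6 (s0_2 p871_3),
   x6_7 (x6_5 (x6_4 (x2_3 (x2_1 (x2_0 (n7 p871_31))))))],
  [s5_7 (s1_3 p871_1),
   s6_7 (s2_3 p871_3),
   s5_7 (s1_3 p871_3),
   x5_7 (x5_6 (x5_4 (x1_3 (x1_2 (x1_0 (n7 (n6 p871_1))))))),
   x7_6 (x7_5 (x7_4 (x3_2 (x3_1 (x3_0 (n6 (n5 p871_15))))))),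
   p871_13,
   s5_6 (s1_2 p871_13),
   p871_15],
  [s4_7 (s0_3 p871_1),
   s6_7 (s4_5 (s2_3 (s0_1 p871_3))),
   x7_6 (x7_5 (x7_4 (s4_5 (x3_2 (x3_1 (x3_0 (s0_1 (n6 (n5 p871_15))))))))),
   s6_7 (s2_3 p871_13),
   s5_7 (s4_7 (s1_3 (s0_3 p871_3))),
   x4_7 (x4_6 (x4_5 (x0_3 (x0_2 (x0_1 (n7 (n6 p871_1))))))),
   s5_6 (s4_6 (s1_2 (s0_2 p871_13))),
   s4_5 (s0_1 p871_15)],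
  [s6_7 (s4_6 (s2_3 (s0_2 p871_3))),
   x7_6 (x7_5 (x7_4 (x3_2 (x3_1 (x3_0 (n6 p871_31)))))),
   s6_7 (s5_6 (s2_3 (s1_2 p871_13))),
   s6_7 (s2_3 p871_15),
   s4_7 (s0_3 p871_13),
   s6_7 (s4_5 (s2_3 (s0_1 p871_15))),
   s5_7 (x4_7 (x4_6 (x4_5 (s1_3 (x0_3 (x0_2 (x0_1 (n7 p871_3)))))))),
   p871_31],
  [s5_7 (s4_6 (s1_3 (s0_2 p871_1))),
   x7_6 (x7_5 (x7_4 (s4_6 (x3_2 (x3_1 (x3_0 (s0_2 (n6 (n5 p871_15))))))))),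
   s5_7 (s4_6 (s1_3 (s0_2 p871_3))),
   s6_7 (s5_7 (s2_3 (s1_3 p871_13))),
   s6_7 (s4_7 (s2_3 (s0_3 p871_3))),
   s4_6 (s0_2 p871_13),
   s5_6 (x4_7 (x4_6 (x4_5 (s1_2 (x0_3 (x0_2 (x0_1 (n7 (n6 p871_1))))))))),
   s4_6 (s0_2 p871_15)],
  [s5_7 (s4_5 (s1_3 (s0_1 p871_3))),
   s5_7 (s1_3 p871_13),
   x6_7 (x6_5 (x6_4 (s5_7 (x2_3 (x2_1 (x2_0 (s1_3 (n7 p871_31)))))))),
   s5_7 (s1_3 p871_15),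
   s5_7 (s4_6 (s1_3 (s0_2 p871_13))),
   s6_7 (x4_7 (x4_6 (x4_5 (s2_3 (x0_3 (x0_2 (x0_1 (n7 p871_3)))))))),
   s5_7 (s4_6 (s1_3 (s0_2 p871_15))),
   s5_6 (s1_2 p871_31)],
  [s4_7 (s0_3 p871_3),
   s5_7 (s4_7 (s1_3 (s0_3 p871_13))),
   s6_7 (s5_6 (s4_7 (s2_3 (s1_2 (s0_3 p871_13))))),
   x4_7 (x4_6 (x4_5 (x0_3 (x0_2 (x0_1 (n7 p871_3)))))),
   x6_7 (x6_5 (x6_4 (s4_7 (x2_3 (x2_1 (x2_0 (s0_3 (n7 p871_31)))))))),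
   s5_7 (s4_7 (s1_3 (s0_3 p871_15))),
   s6_7 (s4_7 (s2_3 (s0_3 p871_15))),
   s4_6 (s0_2 p871_31)],
  [s5_7 (x4_7 (x4_6 (x4_5 (s1_3 (x0_3 (x0_2 (x0_1 (n7 (n6 p871_1))))))))),
   s6_7 (s4_6 (s2_3 (s0_2 p871_15))),
   s5_7 (s4_5 (s1_3 (s0_1 p871_15))),
   s5_7 (s1_3 p871_31),
   s4_7 (s0_3 p871_15),
   s4_7 (s0_3 p871_31),
   s5_7 (s4_6 (s1_3 (s0_2 p871_31))),
   p871_63]]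

theorem k871 : eqNN c871 (slO 64 (D.chG 1008 63) 8) = true := by decide +kernel

end Pool.Agent.Lib.MP_afdd4d_co.K10.E6
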