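import Pool.Agent.Lib.MP_afdd4d_co.K10.E6.Dat
import Pool.Agent.Lib.MP_afdd4d_co.K10.E6.Mk
import Pool.Agent.Lib.MP_afdd4d_co.K8.F6Bl5
import Pool.Agent.Lib.MP_afdd4d_co.K10.E6.P0
import Pool.Agent.Lib.MP_afdd4d_co.K10.E6.P1
import Pool.Agent.Lib.MP_afdd4d_co.K10.E6.P2
import Pool.Agent.Lib.MP_afdd4d_co.K10.E6.P3
import Pool.Agent.Lib.MP_afdd4d_co.K10.E6.P4
import Pool.Agent.Lib.MP_afdd4d_co.K10.E6.P5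
import Pool.Agent.Lib.MP_afdd4d_co.K10.E6.P6
import Pool.Agent.Lib.MP_afdd4d_co.K10.E6.P7
import Pool.Agent.Lib.MP_afdd4d_co.K10.E6.P8
import Pool.Agent.Lib.MP_afdd4d_co.K10.E6.P9
import Pool.Agent.Lib.MP_afdd4d_co.K10.E6.P10
import Pool.Agent.Lib.MP_afdd4d_co.K10.E6.P11
import Pool.Agent.Lib.MP_afdd4d_co.K10.E6.P12
import Pool.Agent.Lib.MP_afdd4d_co.K10.E6.P13
import Pool.Agent.Lib.MP_afdd4d_co.K10.E6.P14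
import Pool.Agent.Lib.MP_afdd4d_co.K10.E6.P15
import Pool.Agent.Lib.MP_afdd4d_co.K10.E6.P16
import Pool.Agent.Lib.MP_afdd4d_co.K10.E6.P17
import Pool.Agent.Lib.MP_afdd4d_co.K10.E6.P18
import Pool.Agent.Lib.MP_afdd4d_co.K10.E6.P19
import Pool.Agent.Lib.MP_afdd4d_co.K10.E6.P20
import Pool.Agent.Lib.MP_afdd4d_co.K10.E6.P21
import Pool.Agent.Lib.MP_afdd4d_co.K10.E6.P22
import Pool.Agent.Lib.MP_afdd4d_co.K10.E6.P23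
import Pool.Agent.Lib.MP_afdd4d_co.K10.E6.P24
import Pool.Agent.Lib.MP_afdd4d_co.K10.E6.P25
import Pool.Agent.Lib.MP_afdd4d_co.K10.E6.P26
import Pool.Agent.Lib.MP_afdd4d_co.K10.E6.P27
import Pool.Agent.Lib.MP_afdd4d_co.K10.E6.P28
import Pool.Agent.Lib.MP_afdd4d_co.K10.E6.P29
import Pool.Agent.Lib.MP_afdd4d_co.K10.E6.P30
import Pool.Agent.Lib.MP_afdd4d_co.K10.E6.P31
import Pool.Agent.Lib.MP_afdd4d_co.K10.E6.P32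

/-!
# Tables
-/

namespace Pool.Agent.Lib.MP_afdd4d_co.K10.E6

open K8

set_option maxRecDepth 100000
set_option exponentiation.threshold 10000000

/-- The slices of the chunk 88. -/
noncomputable def c88 : List (List ℕ) := [
  [x7_6 (x7_5 (x7_4 (x3_2 (x3_1 (x3_0 (tr (n4 p82_15))))))),
   x7_6 (x7_5 (x7_4 (x3_2 (x3_1 (x3_0 (tr (n4 p83_15))))))),
   tr p84_12,
   tr p85_12,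
   s3_7 (s2_6 (s1_4 (s0_5 p84_18))),
   s3_7 (s2_6 (s1_4 (s0_5 p85_18))),
   tr p86_12,
   tr p87_12],
  [s3_6 (s2_7 (s1_5 (s0_4 p84_18))),
   s3_6 (s2_7 (s1_5 (s0_4 p85_18))),
   x7_6 (x7_5 (x7_4 (x3_2 (x3_1 (x3_0 (s3_6 (s2_7 (s1_5 (s0_4 (n4 (n0 p85_27))))))))))),
   x7_6 (x7_5 (x7_4 (x3_2 (x3_1 (x3_0 (s3_6 (s2_7 (s1_5 (s0_4 (n4 (n0 p84_27))))))))))),
   p88_12,
   p88_13,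
   s6_7 (s4_5 (s2_3 (s0_1 p88_28))),
   p88_15],
  [s3_6 (s2_7 (s1_4 (s0_5 p84_12))),
   s3_6 (s2_7 (s1_4 (s0_5 p85_12))),
   p88_18,
   p88_19,
   x6_7 (x6_5 (x6_4 (s3_7 (x2_7 (x2_1 (x2_0 (s2_6 (s1_4 (s0_5 (n4 (n0 p85_27))))))))))),
   x6_7 (x6_5 (x6_4 (s3_7 (x2_7 (x2_1 (x2_0 (s2_6 (s1_4 (s0_5 (n4 (n0 p84_27))))))))))),
   s6_7 (s4_5 (s2_3 (s0_1 p88_26))),
   p88_23],
  [s3_6 (s2_7 (s1_4 (s0_5 p86_12))),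
   s3_6 (s2_7 (s1_4 (s0_5 p87_12))),
   p88_26,
   s6_7 (s4_5 (s2_3 (s0_1 p88_23))),
   p88_28,
   s6_7 (s4_5 (s2_3 (s0_1 p88_15))),
   x6_7 (x6_5 (x6_4 (s3_7 (x2_7 (x2_1 (x2_0 (s2_6 (s1_4 (s0_5 (n4 (n1 (n0 p86_27)))))))))))),
   x6_7 (x6_5 (x6_4 (s3_7 (x2_7 (x2_1 (x2_0 (s2_6 (s1_4 (s0_5 (n4 (n1 (n0 p87_27))))))))))))],
  [tr p90_12,
   tr p91_12,
   tr p92_12,
   tr p93_12,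
   s3_7 (s2_6 (s1_4 (s0_5 p92_18))),
   s3_7 (s2_6 (s1_4 (s0_5 p93_18))),
   x7_6 (x7_5 (x7_4 (x3_2 (x3_1 (x3_0 (s3_6 (s2_7 (s1_5 (s0_4 (n4 (n3 p90_27))))))))))),
   x7_6 (x7_5 (x7_4 (x3_2 (x3_1 (x3_0 (s3_6 (s2_7 (s1_5 (s0_4 (n4 (n3 p91_27)))))))))))],
  [s3_6 (s2_7 (s1_5 (s0_4 p92_18))),
   s3_6 (s2_7 (s1_5 (s0_4 p93_18))),
   tr p94_12,
   tr p95_12,
   p88_44,
   p88_45,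
   x7_6 (x7_5 (x7_4 (x3_2 (x3_1 (x3_0 (s3_6 (s2_7 (s1_5 (s0_4 (n4 (n3 (n0 p95_27)))))))))))),
   x7_6 (x7_5 (x7_4 (x3_2 (x3_1 (x3_0 (s3_6 (s2_7 (s1_5 (s0_4 (n4 (n3 (n0 p94_27))))))))))))],
  [s3_6 (s2_7 (s1_4 (s0_5 p92_12))),
   s3_6 (s2_7 (s1_4 (s0_5 p93_12))),
   p88_50,
   p88_51,
   s3_6 (s2_7 (s1_4 (s0_5 p94_12))),
   s3_6 (s2_7 (s1_4 (s0_5 p95_12))),
   x7_6 (x7_5 (x7_4 (x3_2 (x3_1 (x3_0 (s3_6 (s2_7 (s1_4 (s0_5 (n5 (n3 (n0 p95_29)))))))))))),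
   x7_6 (x7_5 (x7_4 (x3_2 (x3_1 (x3_0 (s3_6 (s2_7 (s1_4 (s0_5 (n5 (n3 (n0 p94_29))))))))))))],
  [x6_7 (x6_5 (x6_4 (s3_7 (x2_7 (x2_1 (x2_0 (s2_6 (s1_4 (s0_5 (n4 (n3 p90_27))))))))))),
   x6_7 (x6_5 (x6_4 (s3_7 (x2_7 (x2_1 (x2_0 (s2_6 (s1_4 (s0_5 (n4 (n3 p91_27))))))))))),
   x6_7 (x6_5 (x6_4 (s3_7 (x2_7 (x2_1 (x2_0 (s2_6 (s1_5 (s0_4 (n5 (n3 (n0 p95_29)))))))))))),
   x6_7 (x6_5 (x6_4 (s3_7 (x2_7 (x2_1 (x2_0 (s2_6 (s1_5 (s0_4 (n5 (n3 (n0 p94_29)))))))))))),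
   x6_7 (x6_5 (x6_4 (s3_7 (x2_7 (x2_1 (x2_0 (s2_6 (s1_4 (s0_5 (n4 (n3 (n0 p95_27)))))))))))),
   x6_7 (x6_5 (x6_4 (s3_7 (x2_7 (x2_1 (x2_0 (s2_6 (s1_4 (s0_5 (n4 (n3 (n0 p94_27)))))))))))),
   x7_6 (x7_5 (x7_4 (x3_2 (x3_1 (x3_0 (tr (n4 (n2 (n1 (n0 p96_15)))))))))),
   x7_6 (x7_5 (x7_4 (x3_2 (x3_1 (x3_0 (tr (n4 (n2 (n1 (n0 p97_15))))))))))]]

theorem k88 : eqNN c88 (slO 64 (D.chG 16 12) 8) = true := by decide +kernel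

/-- The slices of the chunk 89. -/
noncomputable def c89 : List (List ℕ) := [
  [x7_6 (x7_5 (x7_4 (x3_2 (x3_1 (x3_0 (tr (n4 p82_14))))))),
   x7_6 (x7_5 (x7_4 (x3_2 (x3_1 (x3_0 (tr (n4 p83_14))))))),
   tr p84_13,
   tr p85_13,
   s3_7 (s2_6 (s1_4 (s0_5 p84_19))),
   s3_7 (s2_6 (s1_4 (s0_5 p85_19))),
   tr p86_13,
   tr p87_13],
  [s3_6 (s2_7 (s1_5 (s0_4 p84_19))),
   s3_6 (s2_7 (s1_5 (s0_4 p85_19))),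
   x7_6 (x7_5 (x7_4 (x3_2 (x3_1 (x3_0 (s3_6 (s2_7 (s1_5 (s0_4 (n4 (n0 p85_26))))))))))),
   x7_6 (x7_5 (x7_4 (x3_2 (x3_1 (x3_0 (s3_6 (s2_7 (s1_5 (s0_4 (n4 (n0 p84_26))))))))))),
   tr p88_13,
   p89_13,
   p89_14,
   x7_6 (x7_5 (x7_4 (x3_2 (x3_1 (x3_0 (s3_6 (s2_7 (s1_4 (s0_5 (n5 (n1 p88_28)))))))))))],
  [s3_6 (s2_7 (s1_4 (s0_5 p84_13))),
   s3_6 (s2_7 (s1_4 (s0_5 p85_13))),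
   s3_6 (s2_7 (s1_5 (s0_4 p88_19))),
   p89_19,
   x6_7 (x6_5 (x6_4 (s3_7 (x2_7 (x2_1 (x2_0 (s2_6 (s1_4 (s0_5 (n4 (n0 p85_26))))))))))),
   x6_7 (x6_5 (x6_4 (s3_7 (x2_7 (x2_1 (x2_0 (s2_6 (s1_4 (s0_5 (n4 (n0 p84_26))))))))))),
   p89_22,
   x7_6 (x7_5 (x7_4 (x3_2 (x3_1 (x3_0 (s3_6 (s2_7 (s1_5 (s0_4 (n4 (n1 p88_26)))))))))))],
  [s3_6 (s2_7 (s1_4 (s0_5 p86_13))),
   s3_6 (s2_7 (s1_4 (s0_5 p87_13))),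
   s6_7 (s4_5 (s2_3 (s0_1 p89_22))),
   x6_7 (x6_5 (x6_4 (s3_7 (x2_7 (x2_1 (x2_0 (s2_6 (s1_4 (s0_5 (n4 (n1 p88_26))))))))))),
   s6_7 (s4_5 (s2_3 (s0_1 p89_14))),
   x6_7 (x6_5 (x6_4 (s3_7 (x2_7 (x2_1 (x2_0 (s2_6 (s1_5 (s0_4 (n5 (n1 p88_28))))))))))),
   x6_7 (x6_5 (x6_4 (s3_7 (x2_7 (x2_1 (x2_0 (s2_6 (s1_4 (s0_5 (n4 (n1 (n0 p86_26)))))))))))),
   x6_7 (x6_5 (x6_4 (s3_7 (x2_7 (x2_1 (x2_0 (s2_6 (s1_4 (s0_5 (n4 (n1 (n0 p87_26))))))))))))],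
  [tr p90_13,
   tr p91_13,
   tr p92_13,
   tr p93_13,
   s3_7 (s2_6 (s1_4 (s0_5 p92_19))),
   s3_7 (s2_6 (s1_4 (s0_5 p93_19))),
   x7_6 (x7_5 (x7_4 (x3_2 (x3_1 (x3_0 (s3_6 (s2_7 (s1_5 (s0_4 (n4 (n3 p90_26))))))))))),
   x7_6 (x7_5 (x7_4 (x3_2 (x3_1 (x3_0 (s3_6 (s2_7 (s1_5 (s0_4 (n4 (n3 p91_26)))))))))))],
  [s3_6 (s2_7 (s1_5 (s0_4 p92_19))),
   s3_6 (s2_7 (s1_5 (s0_4 p93_19))),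
   tr p94_13,
   tr p95_13,
   p89_44,
   p89_45,
   x7_6 (x7_5 (x7_4 (x3_2 (x3_1 (x3_0 (s3_6 (s2_7 (s1_5 (s0_4 (n4 (n3 (n0 p95_26)))))))))))),
   x7_6 (x7_5 (x7_4 (x3_2 (x3_1 (x3_0 (s3_6 (s2_7 (s1_5 (s0_4 (n4 (n3 (n0 p94_26))))))))))))],
  [s3_6 (s2_7 (s1_4 (s0_5 p92_13))),
   s3_6 (s2_7 (s1_4 (s0_5 p93_13))),
   p89_50,
   p89_51,
   s3_6 (s2_7 (s1_4 (s0_5 p94_13))),
   s3_6 (s2_7 (s1_4 (s0_5 p95_13))),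
   x7_6 (x7_5 (x7_4 (x3_2 (x3_1 (x3_0 (s3_6 (s2_7 (s1_4 (s0_5 (n5 (n3 (n0 p95_28)))))))))))),
   x7_6 (x7_5 (x7_4 (x3_2 (x3_1 (x3_0 (s3_6 (s2_7 (s1_4 (s0_5 (n5 (n3 (n0 p94_28))))))))))))],
  [x6_7 (x6_5 (x6_4 (s3_7 (x2_7 (x2_1 (x2_0 (s2_6 (s1_4 (s0_5 (n4 (n3 p90_26))))))))))),
   x6_7 (x6_5 (x6_4 (s3_7 (x2_7 (x2_1 (x2_0 (s2_6 (s1_4 (s0_5 (n4 (n3 p91_26))))))))))),
   x6_7 (x6_5 (x6_4 (s3_7 (x2_7 (x2_1 (x2_0 (s2_6 (s1_5 (s0_4 (n5 (n3 (n0 p95_28)))))))))))),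
   x6_7 (x6_5 (x6_4 (s3_7 (x2_7 (x2_1 (x2_0 (s2_6 (s1_5 (s0_4 (n5 (n3 (n0 p94_28)))))))))))),
   x6_7 (x6_5 (x6_4 (s3_7 (x2_7 (x2_1 (x2_0 (s2_6 (s1_4 (s0_5 (n4 (n3 (n0 p95_26)))))))))))),
   x6_7 (x6_5 (x6_4 (s3_7 (x2_7 (x2_1 (x2_0 (s2_6 (s1_4 (s0_5 (n4 (n3 (n0 p94_26)))))))))))),
   x7_6 (x7_5 (x7_4 (x3_2 (x3_1 (x3_0 (tr (n4 (n2 (n1 (n0 p96_14)))))))))),
   x7_6 (x7_5 (x7_4 (x3_2 (x3_1 (x3_0 (tr (n4 (n2 (n1 (n0 p97_14))))))))))]]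

theorem k89 : eqNN c89 (slO 64 (D.chG 16 13) 8) = true := by decide +kernel

/-- The slices of the chunk 90. -/
noncomputable def c90 : List (List ℕ) := [
  [tr p82_32,
   tr p83_32,
   tr p84_32,
   tr p85_32,
   s3_7 (s2_6 (s1_4 (s0_5 p84_32))),
   s3_7 (s2_6 (s1_4 (s0_5 p85_32))),
   tr p86_32,
   tr p87_32],
  [s3_6 (s2_7 (s1_5 (s0_4 p84_32))),
   s3_6 (s2_7 (s1_5 (s0_4 p85_32))),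
   p90_10,
   p90_11,
   p90_12,
   p90_13,
   s6_7 (s2_3 p90_26),
   s6_7 (s2_3 p90_27)],
  [s3_6 (s2_7 (s1_4 (s0_5 p84_32))),
   s3_6 (s2_7 (s1_4 (s0_5 p85_32))),
   s6_7 (s2_3 p90_12),
   s6_7 (s2_3 p90_13),
   s4_5 (s0_1 p90_10),
   s4_5 (s0_1 p90_11),
   s6_7 (s4_5 (s2_3 (s0_1 p90_26))),
   s6_7 (s4_5 (s2_3 (s0_1 p90_27)))],
  [s3_6 (s2_7 (s1_5 (s0_4 p86_32))),
   s3_6 (s2_7 (s1_5 (s0_4 p87_32))),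
   p90_26,
   p90_27,
   s4_5 (s0_1 p90_26),
   s4_5 (s0_1 p90_27),
   x6_7 (x6_5 (x6_4 (s3_7 (x2_7 (x2_1 (x2_0 (s2_6 (s1_5 (s0_4 (n7 (n1 (n0 p86_56)))))))))))),
   x6_7 (x6_5 (x6_4 (s3_7 (x2_7 (x2_1 (x2_0 (s2_6 (s1_5 (s0_4 (n7 (n1 (n0 p87_56))))))))))))],
  [p90_32,
   p90_33,
   p90_34,
   p90_35,
   s4_5 (s0_1 p90_34),
   s4_5 (s0_1 p90_35),
   p90_38,
   s6_7 (s2_3 p90_57)],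
  [s6_7 (s2_3 p90_34),
   s6_7 (s2_3 p90_35),
   p90_42,
   p90_43,
   p90_44,
   p90_45,
   s6_7 (s2_3 p90_58),
   s6_7 (s2_3 p90_59)],
  [s6_7 (s4_5 (s2_3 (s0_1 p90_34))),
   s6_7 (s4_5 (s2_3 (s0_1 p90_35))),
   s6_7 (s2_3 p90_44),
   s6_7 (s2_3 p90_45),
   s4_5 (s0_1 p90_42),
   s4_5 (s0_1 p90_43),
   s6_7 (s4_5 (s2_3 (s0_1 p90_58))),
   s6_7 (s4_5 (s2_3 (s0_1 p90_59)))],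
  [s6_7 (s2_3 p90_38),
   p90_57,
   p90_58,
   p90_59,
   s4_5 (s0_1 p90_58),
   s4_5 (s0_1 p90_59),
   tr p96_32,
   tr p97_32]]

theorem k90 : eqNN c90 (slO 64 (D.chG 16 32) 8) = true := by decide +kernel

/-- The slices of the chunk 91. -/
noncomputable def c91 : List (List ℕ) := [
  [tr p82_33,
   tr p83_33,
   tr p84_33,
   tr p85_33,
   s3_7 (s2_6 (s1_4 (s0_5 p84_33))),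
   s3_7 (s2_6 (s1_4 (s0_5 p85_33))),
   tr p86_33,
   tr p87_33],
  [s3_6 (s2_7 (s1_5 (s0_4 p84_33))),
   s3_6 (s2_7 (s1_5 (s0_4 p85_33))),
   p91_10,
   p91_11,
   p91_12,
   p91_13,
   s6_7 (s2_3 p91_26),
   s6_7 (s2_3 p91_27)],
  [s3_6 (s2_7 (s1_4 (s0_5 p84_33))),
   s3_6 (s2_7 (s1_4 (s0_5 p85_33))),
   s6_7 (s2_3 p91_12),
   s6_7 (s2_3 p91_13),
   s4_5 (s0_1 p91_10),
   s4_5 (s0_1 p91_11),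
   s6_7 (s4_5 (s2_3 (s0_1 p91_26))),
   s6_7 (s4_5 (s2_3 (s0_1 p91_27)))],
  [s3_6 (s2_7 (s1_5 (s0_4 p86_33))),
   s3_6 (s2_7 (s1_5 (s0_4 p87_33))),
   p91_26,
   p91_27,
   s4_5 (s0_1 p91_26),
   s4_5 (s0_1 p91_27),
   x6_7 (x6_5 (x6_4 (s3_7 (x2_7 (x2_1 (x2_0 (s2_6 (s1_5 (s0_4 (n7 (n1 (n0 p86_57)))))))))))),
   x6_7 (x6_5 (x6_4 (s3_7 (x2_7 (x2_1 (x2_0 (s2_6 (s1_5 (s0_4 (n7 (n1 (n0 p87_57))))))))))))],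
  [tr p90_33,
   p91_33,
   p91_34,
   p91_35,
   s4_5 (s0_1 p91_34),
   s4_5 (s0_1 p91_35),
   x7_6 (x7_5 (x7_4 (x3_2 (x3_1 (x3_0 (s3_6 (s2_7 (s1_5 (s0_4 (n7 (n3 p90_57))))))))))),
   p91_39],
  [s6_7 (s2_3 p91_34),
   s6_7 (s2_3 p91_35),
   p91_42,
   p91_43,
   p91_44,
   p91_45,
   s6_7 (s2_3 p91_58),
   s6_7 (s2_3 p91_59)],
  [s6_7 (s4_5 (s2_3 (s0_1 p91_34))),
   s6_7 (s4_5 (s2_3 (s0_1 p91_35))),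
   s6_7 (s2_3 p91_44),
   s6_7 (s2_3 p91_45),
   s4_5 (s0_1 p91_42),
   s4_5 (s0_1 p91_43),
   s6_7 (s4_5 (s2_3 (s0_1 p91_58))),
   s6_7 (s4_5 (s2_3 (s0_1 p91_59)))],
  [x6_7 (x6_5 (x6_4 (s3_7 (x2_7 (x2_1 (x2_0 (s2_6 (s1_5 (s0_4 (n7 (n3 p90_57))))))))))),
   s6_7 (s2_3 p91_39),
   p91_58,
   p91_59,
   s4_5 (s0_1 p91_58),
   s4_5 (s0_1 p91_59),
   tr p96_33,
   tr p97_33]]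

theorem k91 : eqNN c91 (slO 64 (D.chG 16 33) 8) = true := by decide +kernel

end Pool.Agent.Lib.MP_afdd4d_co.K10.E6
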