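import Pool.Agent.Lib.MP_afdd4d_co.K10.E6.Dat
import Pool.Agent.Lib.MP_afdd4d_co.K10.E6.Mk
import Pool.Agent.Lib.MP_afdd4d_co.K8.F6Bl5
import Pool.Agent.Lib.MP_afdd4d_co.K10.E6.P0
import Pool.Agent.Lib.MP_afdd4d_co.K10.E6.P1
import Pool.Agent.Lib.MP_afdd4d_co.K10.E6.P2
import Pool.Agent.Lib.MP_afdd4d_co.K10.E6.P3
import Pool.Agent.Lib.MP_afdd4d_co.K10.E6.P4
import Pool.Agent.Lib.MP_afdd4d_co.K10.E6.P5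
import Pool.Agent.Lib.MP_afdd4d_co.K10.E6.P6
import Pool.Agent.Lib.MP_afdd4d_co.K10.E6.P7
import Pool.Agent.Lib.MP_afdd4d_co.K10.E6.P8
import Pool.Agent.Lib.MP_afdd4d_co.K10.E6.P9
import Pool.Agent.Lib.MP_afdd4d_co.K10.E6.P10
import Pool.Agent.Lib.MP_afdd4d_co.K10.E6.P11
import Pool.Agent.Lib.MP_afdd4d_co.K10.E6.P12
import Pool.Agent.Lib.MP_afdd4d_co.K10.E6.P13
import Pool.Agent.Lib.MP_afdd4d_co.K10.E6.P14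
import Pool.Agent.Lib.MP_afdd4d_co.K10.E6.P15
import Pool.Agent.Lib.MP_afdd4d_co.K10.E6.P16
import Pool.Agent.Lib.MP_afdd4d_co.K10.E6.P17
import Pool.Agent.Lib.MP_afdd4d_co.K10.E6.P18
import Pool.Agent.Lib.MP_afdd4d_co.K10.E6.P19
import Pool.Agent.Lib.MP_afdd4d_co.K10.E6.P20
import Pool.Agent.Lib.MP_afdd4d_co.K10.E6.P21
import Pool.Agent.Lib.MP_afdd4d_co.K10.E6.P22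
import Pool.Agent.Lib.MP_afdd4d_co.K10.E6.P23
import Pool.Agent.Lib.MP_afdd4d_co.K10.E6.P24
import Pool.Agent.Lib.MP_afdd4d_co.K10.E6.P25
import Pool.Agent.Lib.MP_afdd4d_co.K10.E6.P26
import Pool.Agent.Lib.MP_afdd4d_co.K10.E6.P27
import Pool.Agent.Lib.MP_afdd4d_co.K10.E6.P28
import Pool.Agent.Lib.MP_afdd4d_co.K10.E6.P29
import Pool.Agent.Lib.MP_afdd4d_co.K10.E6.P30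
import Pool.Agent.Lib.MP_afdd4d_co.K10.E6.P31
import Pool.Agent.Lib.MP_afdd4d_co.K10.E6.P32

/-!
# Tables
-/

namespace Pool.Agent.Lib.MP_afdd4d_co.K10.E6

open K8

set_option maxRecDepth 100000
set_option exponentiation.threshold 10000000

/-- The slices of the chunk 92. -/
noncomputable def c92 : List (List ℕ) := [
  [tr p82_34,
   tr p83_34,
   tr p84_34,
   tr p85_34,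
   x7_6 (x7_5 (x7_4 (x3_2 (x3_1 (x3_0 (s3_7 (s2_6 (s1_4 (s0_5 (n6 p84_34)))))))))),
   x7_6 (x7_5 (x7_4 (x3_2 (x3_1 (x3_0 (s3_7 (s2_6 (s1_4 (s0_5 (n6 p85_34)))))))))),
   tr p86_34,
   tr p87_34],
  [s3_6 (s2_7 (s1_5 (s0_4 p84_40))),
   s3_6 (s2_7 (s1_5 (s0_4 p85_40))),
   x7_6 (x7_5 (x7_4 (x3_2 (x3_1 (x3_0 (s3_6 (s2_7 (s1_5 (s0_4 (n7 (n0 p85_48))))))))))),
   x7_6 (x7_5 (x7_4 (x3_2 (x3_1 (x3_0 (s3_6 (s2_7 (s1_5 (s0_4 (n7 (n0 p84_48))))))))))),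
   p92_12,
   p92_13,
   x7_6 (x7_5 (x7_4 (s4_5 (x3_2 (x3_1 (x3_0 (s0_1 (n5 (n2 p92_19))))))))),
   x7_6 (x7_5 (x7_4 (s4_5 (x3_2 (x3_1 (x3_0 (s0_1 (n5 (n2 p92_18)))))))))],
  [s3_6 (s2_7 (s1_4 (s0_5 p84_48))),
   s3_6 (s2_7 (s1_4 (s0_5 p85_48))),
   p92_18,
   p92_19,
   x7_6 (x7_5 (x7_4 (x3_2 (x3_1 (x3_0 (s3_6 (s2_7 (s1_4 (s0_5 (n7 (n0 p85_40))))))))))),
   x7_6 (x7_5 (x7_4 (x3_2 (x3_1 (x3_0 (s3_6 (s2_7 (s1_4 (s0_5 (n7 (n0 p84_40))))))))))),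
   x7_6 (x7_5 (x7_4 (s4_5 (x3_2 (x3_1 (x3_0 (s0_1 (n4 (n2 p92_13))))))))),
   x7_6 (x7_5 (x7_4 (s4_5 (x3_2 (x3_1 (x3_0 (s0_1 (n4 (n2 p92_12)))))))))],
  [s3_6 (s2_7 (s1_5 (s0_4 p86_40))),
   s3_6 (s2_7 (s1_5 (s0_4 p87_40))),
   x6_7 (x6_5 (x6_4 (s3_7 (x2_7 (x2_1 (x2_0 (s2_6 (s1_4 (s0_5 (n7 (n5 (n1 p89_45)))))))))))),
   x6_7 (x6_5 (x6_4 (s3_7 (x2_7 (x2_1 (x2_0 (s2_6 (s1_4 (s0_5 (n7 (n5 (n1 p88_45)))))))))))),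
   x6_7 (x6_5 (x6_4 (s3_7 (x2_7 (x2_1 (x2_0 (s2_6 (s1_5 (s0_4 (n7 (n4 (n1 p89_51)))))))))))),
   x6_7 (x6_5 (x6_4 (s3_7 (x2_7 (x2_1 (x2_0 (s2_6 (s1_5 (s0_4 (n7 (n4 (n1 p88_51)))))))))))),
   x7_6 (x7_5 (x7_4 (x3_2 (x3_1 (x3_0 (s3_6 (s2_7 (s1_4 (s0_5 (n7 (n1 (n0 p86_40)))))))))))),
   x7_6 (x7_5 (x7_4 (x3_2 (x3_1 (x3_0 (s3_6 (s2_7 (s1_4 (s0_5 (n7 (n1 (n0 p87_40))))))))))))],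
  [tr p90_34,
   tr p91_34,
   p92_34,
   p92_35,
   p92_36,
   p92_37,
   x7_6 (x7_5 (x7_4 (x3_2 (x3_1 (x3_0 (s3_7 (s2_6 (s1_4 (s0_5 (n6 (n2 p90_34))))))))))),
   x7_6 (x7_5 (x7_4 (x3_2 (x3_1 (x3_0 (s3_7 (s2_6 (s1_4 (s0_5 (n6 (n2 p91_34)))))))))))],
  [p92_40,
   p92_41,
   p92_42,
   p92_43,
   x7_6 (x7_5 (x7_4 (s4_5 (x3_2 (x3_1 (x3_0 (s0_1 (n6 (n5 (n2 p92_49)))))))))),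
   p92_45,
   x7_6 (x7_5 (x7_4 (s4_5 (x3_2 (x3_1 (x3_0 (s0_1 (n6 (n5 (n2 p92_53)))))))))),
   x7_6 (x7_5 (x7_4 (s4_5 (x3_2 (x3_1 (x3_0 (s0_1 (n6 (n5 (n2 p92_52))))))))))],
  [x7_6 (x7_5 (x7_4 (s4_5 (x3_2 (x3_1 (x3_0 (s0_1 (n6 (n4 (n2 p92_45)))))))))),
   p92_49,
   x7_6 (x7_5 (x7_4 (s4_5 (x3_2 (x3_1 (x3_0 (s0_1 (n6 (n4 (n2 p92_41)))))))))),
   x7_6 (x7_5 (x7_4 (s4_5 (x3_2 (x3_1 (x3_0 (s0_1 (n6 (n4 (n2 p92_40)))))))))),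
   p92_52,
   p92_53,
   x7_6 (x7_5 (x7_4 (s4_5 (x3_2 (x3_1 (x3_0 (s0_1 (n6 (n4 (n2 p92_43)))))))))),
   x7_6 (x7_5 (x7_4 (s4_5 (x3_2 (x3_1 (x3_0 (s0_1 (n6 (n4 (n2 p92_42))))))))))],
  [x6_7 (x6_5 (x6_4 (s3_7 (x2_7 (x2_1 (x2_0 (s2_6 (s1_4 (s0_5 (n7 (n5 (n3 p90_45)))))))))))),
   x6_7 (x6_5 (x6_4 (s3_7 (x2_7 (x2_1 (x2_0 (s2_6 (s1_4 (s0_5 (n7 (n5 (n3 p91_45)))))))))))),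
   x7_6 (x7_5 (x7_4 (x6_7 (x6_5 (x6_4 (x3_2 (x3_1 (x3_0 (s3_7 (x2_7 (x2_1 (x2_0 (s2_6 (s1_5 (s0_4 (n6 (n4 (n2 (n0 p95_45))))))))))))))))))),
   x7_6 (x7_5 (x7_4 (x6_7 (x6_5 (x6_4 (x3_2 (x3_1 (x3_0 (s3_7 (x2_7 (x2_1 (x2_0 (s2_6 (s1_5 (s0_4 (n6 (n4 (n2 (n0 p94_45))))))))))))))))))),
   x6_7 (x6_5 (x6_4 (s3_7 (x2_7 (x2_1 (x2_0 (s2_6 (s1_4 (s0_5 (n7 (n5 (n3 (n0 p95_45))))))))))))),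
   x6_7 (x6_5 (x6_4 (s3_7 (x2_7 (x2_1 (x2_0 (s2_6 (s1_4 (s0_5 (n7 (n5 (n3 (n0 p94_45))))))))))))),
   tr p96_34,
   tr p97_34]]

theorem k92 : eqNN c92 (slO 64 (D.chG 16 34) 8) = true := by decide +kernel

/-- The slices of the chunk 93. -/
noncomputable def c93 : List (List ℕ) := [
  [tr p82_35,
   tr p83_35,
   tr p84_35,
   tr p85_35,
   x7_6 (x7_5 (x7_4 (x3_2 (x3_1 (x3_0 (s3_7 (s2_6 (s1_4 (s0_5 (n6 p84_35)))))))))),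
   x7_6 (x7_5 (x7_4 (x3_2 (x3_1 (x3_0 (s3_7 (s2_6 (s1_4 (s0_5 (n6 p85_35)))))))))),
   tr p86_35,
   tr p87_35],
  [s3_6 (s2_7 (s1_5 (s0_4 p84_41))),
   s3_6 (s2_7 (s1_5 (s0_4 p85_41))),
   x7_6 (x7_5 (x7_4 (x3_2 (x3_1 (x3_0 (s3_6 (s2_7 (s1_5 (s0_4 (n7 (n0 p85_49))))))))))),
   x7_6 (x7_5 (x7_4 (x3_2 (x3_1 (x3_0 (s3_6 (s2_7 (s1_5 (s0_4 (n7 (n0 p84_49))))))))))),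
   p93_12,
   p93_13,
   x7_6 (x7_5 (x7_4 (s4_5 (x3_2 (x3_1 (x3_0 (s0_1 (n5 (n2 p93_19))))))))),
   x7_6 (x7_5 (x7_4 (s4_5 (x3_2 (x3_1 (x3_0 (s0_1 (n5 (n2 p93_18)))))))))],
  [s3_6 (s2_7 (s1_4 (s0_5 p84_49))),
   s3_6 (s2_7 (s1_4 (s0_5 p85_49))),
   p93_18,
   p93_19,
   x7_6 (x7_5 (x7_4 (x3_2 (x3_1 (x3_0 (s3_6 (s2_7 (s1_4 (s0_5 (n7 (n0 p85_41))))))))))),
   x7_6 (x7_5 (x7_4 (x3_2 (x3_1 (x3_0 (s3_6 (s2_7 (s1_4 (s0_5 (n7 (n0 p84_41))))))))))),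
   x7_6 (x7_5 (x7_4 (s4_5 (x3_2 (x3_1 (x3_0 (s0_1 (n4 (n2 p93_13))))))))),
   x7_6 (x7_5 (x7_4 (s4_5 (x3_2 (x3_1 (x3_0 (s0_1 (n4 (n2 p93_12)))))))))],
  [s3_6 (s2_7 (s1_5 (s0_4 p86_41))),
   s3_6 (s2_7 (s1_5 (s0_4 p87_41))),
   x6_7 (x6_5 (x6_4 (s3_7 (x2_7 (x2_1 (x2_0 (s2_6 (s1_4 (s0_5 (n7 (n5 (n1 p89_44)))))))))))),
   x6_7 (x6_5 (x6_4 (s3_7 (x2_7 (x2_1 (x2_0 (s2_6 (s1_4 (s0_5 (n7 (n5 (n1 p88_44)))))))))))),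
   x6_7 (x6_5 (x6_4 (s3_7 (x2_7 (x2_1 (x2_0 (s2_6 (s1_5 (s0_4 (n7 (n4 (n1 p89_50)))))))))))),
   x6_7 (x6_5 (x6_4 (s3_7 (x2_7 (x2_1 (x2_0 (s2_6 (s1_5 (s0_4 (n7 (n4 (n1 p88_50)))))))))))),
   x7_6 (x7_5 (x7_4 (x3_2 (x3_1 (x3_0 (s3_6 (s2_7 (s1_4 (s0_5 (n7 (n1 (n0 p86_41)))))))))))),
   x7_6 (x7_5 (x7_4 (x3_2 (x3_1 (x3_0 (s3_6 (s2_7 (s1_4 (s0_5 (n7 (n1 (n0 p87_41))))))))))))],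
  [tr p90_35,
   tr p91_35,
   tr p92_35,
   p93_35,
   s3_7 (s2_6 (s1_4 (s0_5 p92_37))),
   p93_37,
   x7_6 (x7_5 (x7_4 (x3_2 (x3_1 (x3_0 (s3_7 (s2_6 (s1_4 (s0_5 (n6 (n2 p90_35))))))))))),
   x7_6 (x7_5 (x7_4 (x3_2 (x3_1 (x3_0 (s3_7 (s2_6 (s1_4 (s0_5 (n6 (n2 p91_35)))))))))))],
  [s3_6 (s2_7 (s1_5 (s0_4 p92_41))),
   p93_41,
   p93_42,
   p93_43,
   p93_44,
   x7_6 (x7_5 (x7_4 (x3_2 (x3_1 (x3_0 (s3_6 (s2_7 (s1_5 (s0_4 (n7 (n3 (n0 p92_49)))))))))))),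
   x7_6 (x7_5 (x7_4 (s4_5 (x3_2 (x3_1 (x3_0 (s0_1 (n6 (n5 (n2 p93_53)))))))))),
   x7_6 (x7_5 (x7_4 (s4_5 (x3_2 (x3_1 (x3_0 (s0_1 (n6 (n5 (n2 p93_52))))))))))],
  [s3_6 (s2_7 (s1_4 (s0_5 p92_49))),
   x7_6 (x7_5 (x7_4 (s4_5 (x3_2 (x3_1 (x3_0 (s0_1 (n6 (n4 (n2 p93_44)))))))))),
   x7_6 (x7_5 (x7_4 (s4_5 (x3_2 (x3_1 (x3_0 (s0_1 (n6 (n4 (n2 p93_41)))))))))),
   x7_6 (x7_5 (x7_4 (x3_2 (x3_1 (x3_0 (s3_6 (s2_7 (s1_4 (s0_5 (n7 (n3 (n0 p92_41)))))))))))),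
   p93_52,
   p93_53,
   x7_6 (x7_5 (x7_4 (s4_5 (x3_2 (x3_1 (x3_0 (s0_1 (n6 (n4 (n2 p93_43)))))))))),
   x7_6 (x7_5 (x7_4 (s4_5 (x3_2 (x3_1 (x3_0 (s0_1 (n6 (n4 (n2 p93_42))))))))))],
  [x6_7 (x6_5 (x6_4 (s3_7 (x2_7 (x2_1 (x2_0 (s2_6 (s1_4 (s0_5 (n7 (n5 (n3 p90_44)))))))))))),
   x6_7 (x6_5 (x6_4 (s3_7 (x2_7 (x2_1 (x2_0 (s2_6 (s1_4 (s0_5 (n7 (n5 (n3 p91_44)))))))))))),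
   x7_6 (x7_5 (x7_4 (x6_7 (x6_5 (x6_4 (x3_2 (x3_1 (x3_0 (s3_7 (x2_7 (x2_1 (x2_0 (s2_6 (s1_5 (s0_4 (n6 (n4 (n2 (n0 p95_44))))))))))))))))))),
   x7_6 (x7_5 (x7_4 (x6_7 (x6_5 (x6_4 (x3_2 (x3_1 (x3_0 (s3_7 (x2_7 (x2_1 (x2_0 (s2_6 (s1_5 (s0_4 (n6 (n4 (n2 (n0 p94_44))))))))))))))))))),
   x6_7 (x6_5 (x6_4 (s3_7 (x2_7 (x2_1 (x2_0 (s2_6 (s1_4 (s0_5 (n7 (n5 (n3 (n0 p95_44))))))))))))),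
   x6_7 (x6_5 (x6_4 (s3_7 (x2_7 (x2_1 (x2_0 (s2_6 (s1_4 (s0_5 (n7 (n5 (n3 (n0 p94_44))))))))))))),
   tr p96_35,
   tr p97_35]]

theorem k93 : eqNN c93 (slO 64 (D.chG 16 35) 8) = true := by decide +kernel

/-- The slices of the chunk 94. -/
noncomputable def c94 : List (List ℕ) := [
  [x7_6 (x7_5 (x7_4 (x3_2 (x3_1 (x3_0 (tr (n6 (n4 p82_47)))))))),
   x7_6 (x7_5 (x7_4 (x3_2 (x3_1 (x3_0 (tr (n6 (n4 p83_47)))))))),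
   tr p84_42,
   tr p85_42,
   s3_7 (s2_6 (s1_4 (s0_5 p84_52))),
   s3_7 (s2_6 (s1_4 (s0_5 p85_52))),
   tr p86_42,
   tr p87_42],
  [s3_6 (s2_7 (s1_5 (s0_4 p84_42))),
   s3_6 (s2_7 (s1_5 (s0_4 p85_42))),
   x6_7 (x6_5 (x6_4 (s3_7 (x2_7 (x2_1 (x2_0 (s2_6 (s1_5 (s0_4 (n7 (n4 (n0 p85_59)))))))))))),
   x6_7 (x6_5 (x6_4 (s3_7 (x2_7 (x2_1 (x2_0 (s2_6 (s1_5 (s0_4 (n7 (n4 (n0 p84_59)))))))))))),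
   p94_12,
   p94_13,
   s6_7 (s2_3 p94_26),
   s6_7 (s2_3 p94_27)],
  [s3_6 (s2_7 (s1_4 (s0_5 p84_52))),
   s3_6 (s2_7 (s1_4 (s0_5 p85_52))),
   s6_7 (s2_3 p94_12),
   s6_7 (s2_3 p94_13),
   x6_7 (x6_5 (x6_4 (s3_7 (x2_7 (x2_1 (x2_0 (s2_6 (s1_4 (s0_5 (n7 (n5 (n0 p85_61)))))))))))),
   x6_7 (x6_5 (x6_4 (s3_7 (x2_7 (x2_1 (x2_0 (s2_6 (s1_4 (s0_5 (n7 (n5 (n0 p84_61)))))))))))),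
   s6_7 (s2_3 p94_28),
   s6_7 (s2_3 p94_29)],
  [s3_6 (s2_7 (s1_5 (s0_4 p86_42))),
   s3_6 (s2_7 (s1_5 (s0_4 p87_42))),
   p94_26,
   p94_27,
   p94_28,
   p94_29,
   x6_7 (x6_5 (x6_4 (s3_7 (x2_7 (x2_1 (x2_0 (s2_6 (s1_5 (s0_4 (n7 (n4 (n1 (n0 p86_59))))))))))))),
   x6_7 (x6_5 (x6_4 (s3_7 (x2_7 (x2_1 (x2_0 (s2_6 (s1_5 (s0_4 (n7 (n4 (n1 (n0 p87_59)))))))))))))],
  [tr p90_42,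
   tr p91_42,
   tr p92_42,
   tr p93_42,
   s3_7 (s2_6 (s1_4 (s0_5 p92_52))),
   s3_7 (s2_6 (s1_4 (s0_5 p93_52))),
   x7_6 (x7_5 (x7_4 (x3_2 (x3_1 (x3_0 (s3_6 (s2_7 (s1_5 (s0_4 (n7 (n4 (n3 p90_59)))))))))))),
   x7_6 (x7_5 (x7_4 (x3_2 (x3_1 (x3_0 (s3_6 (s2_7 (s1_5 (s0_4 (n7 (n4 (n3 p91_59))))))))))))],
  [s3_6 (s2_7 (s1_5 (s0_4 p92_42))),
   s3_6 (s2_7 (s1_5 (s0_4 p93_42))),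
   p94_42,
   p94_43,
   p94_44,
   p94_45,
   s6_7 (s2_3 p94_58),
   p94_47],
  [s3_6 (s2_7 (s1_4 (s0_5 p92_52))),
   s3_6 (s2_7 (s1_4 (s0_5 p93_52))),
   s6_7 (s2_3 p94_44),
   s6_7 (s2_3 p94_45),
   p94_52,
   p94_53,
   s6_7 (s2_3 p94_60),
   p94_55],
  [x6_7 (x6_5 (x6_4 (s3_7 (x2_7 (x2_1 (x2_0 (s2_6 (s1_5 (s0_4 (n7 (n4 (n3 p90_59)))))))))))),
   x6_7 (x6_5 (x6_4 (s3_7 (x2_7 (x2_1 (x2_0 (s2_6 (s1_5 (s0_4 (n7 (n4 (n3 p91_59)))))))))))),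
   p94_58,
   s6_7 (s2_3 p94_47),
   p94_60,
   s6_7 (s2_3 p94_55),
   x7_6 (x7_5 (x7_4 (x3_2 (x3_1 (x3_0 (tr (n6 (n4 (n2 (n1 (n0 p96_47))))))))))),
   x7_6 (x7_5 (x7_4 (x3_2 (x3_1 (x3_0 (tr (n6 (n4 (n2 (n1 (n0 p97_47)))))))))))]]

theorem k94 : eqNN c94 (slO 64 (D.chG 16 42) 8) = true := by decide +kernel

/-- The slices of the chunk 95. -/
noncomputable def c95 : List (List ℕ) := [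
  [x7_6 (x7_5 (x7_4 (x3_2 (x3_1 (x3_0 (tr (n6 (n4 p82_46)))))))),
   x7_6 (x7_5 (x7_4 (x3_2 (x3_1 (x3_0 (tr (n6 (n4 p83_46)))))))),
   tr p84_43,
   tr p85_43,
   s3_7 (s2_6 (s1_4 (s0_5 p84_53))),
   s3_7 (s2_6 (s1_4 (s0_5 p85_53))),
   tr p86_43,
   tr p87_43],
  [s3_6 (s2_7 (s1_5 (s0_4 p84_43))),
   s3_6 (s2_7 (s1_5 (s0_4 p85_43))),
   x6_7 (x6_5 (x6_4 (s3_7 (x2_7 (x2_1 (x2_0 (s2_6 (s1_5 (s0_4 (n7 (n4 (n0 p85_58)))))))))))),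
   x6_7 (x6_5 (x6_4 (s3_7 (x2_7 (x2_1 (x2_0 (s2_6 (s1_5 (s0_4 (n7 (n4 (n0 p84_58)))))))))))),
   p95_12,
   p95_13,
   s6_7 (s2_3 p95_26),
   s6_7 (s2_3 p95_27)],
  [s3_6 (s2_7 (s1_4 (s0_5 p84_53))),
   s3_6 (s2_7 (s1_4 (s0_5 p85_53))),
   s6_7 (s2_3 p95_12),
   s6_7 (s2_3 p95_13),
   x6_7 (x6_5 (x6_4 (s3_7 (x2_7 (x2_1 (x2_0 (s2_6 (s1_4 (s0_5 (n7 (n5 (n0 p85_60)))))))))))),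
   x6_7 (x6_5 (x6_4 (s3_7 (x2_7 (x2_1 (x2_0 (s2_6 (s1_4 (s0_5 (n7 (n5 (n0 p84_60)))))))))))),
   s6_7 (s2_3 p95_28),
   s6_7 (s2_3 p95_29)],
  [s3_6 (s2_7 (s1_5 (s0_4 p86_43))),
   s3_6 (s2_7 (s1_5 (s0_4 p87_43))),
   p95_26,
   p95_27,
   p95_28,
   p95_29,
   x6_7 (x6_5 (x6_4 (s3_7 (x2_7 (x2_1 (x2_0 (s2_6 (s1_5 (s0_4 (n7 (n4 (n1 (n0 p86_58))))))))))))),
   x6_7 (x6_5 (x6_4 (s3_7 (x2_7 (x2_1 (x2_0 (s2_6 (s1_5 (s0_4 (n7 (n4 (n1 (n0 p87_58)))))))))))))],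
  [tr p90_43,
   tr p91_43,
   tr p92_43,
   tr p93_43,
   s3_7 (s2_6 (s1_4 (s0_5 p92_53))),
   s3_7 (s2_6 (s1_4 (s0_5 p93_53))),
   x7_6 (x7_5 (x7_4 (x3_2 (x3_1 (x3_0 (s3_6 (s2_7 (s1_5 (s0_4 (n7 (n4 (n3 p90_58)))))))))))),
   x7_6 (x7_5 (x7_4 (x3_2 (x3_1 (x3_0 (s3_6 (s2_7 (s1_5 (s0_4 (n7 (n4 (n3 p91_58))))))))))))],
  [s3_6 (s2_7 (s1_5 (s0_4 p92_43))),
   s3_6 (s2_7 (s1_5 (s0_4 p93_43))),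
   tr p94_43,
   p95_43,
   p95_44,
   p95_45,
   p95_46,
   x7_6 (x7_5 (x7_4 (x3_2 (x3_1 (x3_0 (s3_6 (s2_7 (s1_5 (s0_4 (n7 (n4 (n3 (n0 p94_58)))))))))))))],
  [s3_6 (s2_7 (s1_4 (s0_5 p92_53))),
   s3_6 (s2_7 (s1_4 (s0_5 p93_53))),
   s6_7 (s2_3 p95_44),
   s6_7 (s2_3 p95_45),
   s3_7 (s2_6 (s1_4 (s0_5 p94_53))),
   p95_53,
   p95_54,
   x7_6 (x7_5 (x7_4 (x3_2 (x3_1 (x3_0 (s3_6 (s2_7 (s1_4 (s0_5 (n7 (n5 (n3 (n0 p94_60)))))))))))))],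
  [x6_7 (x6_5 (x6_4 (s3_7 (x2_7 (x2_1 (x2_0 (s2_6 (s1_5 (s0_4 (n7 (n4 (n3 p90_58)))))))))))),
   x6_7 (x6_5 (x6_4 (s3_7 (x2_7 (x2_1 (x2_0 (s2_6 (s1_5 (s0_4 (n7 (n4 (n3 p91_58)))))))))))),
   s6_7 (s2_3 p95_46),
   x6_7 (x6_5 (x6_4 (s3_7 (x2_7 (x2_1 (x2_0 (s2_6 (s1_5 (s0_4 (n7 (n4 (n3 (n0 p94_58))))))))))))),
   s6_7 (s2_3 p95_54),
   x6_7 (x6_5 (x6_4 (s3_7 (x2_7 (x2_1 (x2_0 (s2_6 (s1_4 (s0_5 (n7 (n5 (n3 (n0 p94_60))))))))))))),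
   x7_6 (x7_5 (x7_4 (x3_2 (x3_1 (x3_0 (tr (n6 (n4 (n2 (n1 (n0 p96_46))))))))))),
   x7_6 (x7_5 (x7_4 (x3_2 (x3_1 (x3_0 (tr (n6 (n4 (n2 (n1 (n0 p97_46)))))))))))]]

theorem k95 : eqNN c95 (slO 64 (D.chG 16 43) 8) = true := by decide +kernel

end Pool.Agent.Lib.MP_afdd4d_co.K10.E6
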