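import Pool.Agent.Lib.MP_afdd4d_co.K10.E6.Dat
import Pool.Agent.Lib.MP_afdd4d_co.K10.E6.Mk
import Pool.Agent.Lib.MP_afdd4d_co.K8.F6Bl5
import Pool.Agent.Lib.MP_afdd4d_co.K10.E6.P0
import Pool.Agent.Lib.MP_afdd4d_co.K10.E6.P1
import Pool.Agent.Lib.MP_afdd4d_co.K10.E6.P2
import Pool.Agent.Lib.MP_afdd4d_co.K10.E6.P3
import Pool.Agent.Lib.MP_afdd4d_co.K10.E6.P4
import Pool.Agent.Lib.MP_afdd4d_co.K10.E6.P5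
import Pool.Agent.Lib.MP_afdd4d_co.K10.E6.P6
import Pool.Agent.Lib.MP_afdd4d_co.K10.E6.P7
import Pool.Agent.Lib.MP_afdd4d_co.K10.E6.P8
import Pool.Agent.Lib.MP_afdd4d_co.K10.E6.P9
import Pool.Agent.Lib.MP_afdd4d_co.K10.E6.P10
import Pool.Agent.Lib.MP_afdd4d_co.K10.E6.P11
import Pool.Agent.Lib.MP_afdd4d_co.K10.E6.P12
import Pool.Agent.Lib.MP_afdd4d_co.K10.E6.P13
import Pool.Agent.Lib.MP_afdd4d_co.K10.E6.P14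
import Pool.Agent.Lib.MP_afdd4d_co.K10.E6.P15
import Pool.Agent.Lib.MP_afdd4d_co.K10.E6.P16
import Pool.Agent.Lib.MP_afdd4d_co.K10.E6.P17
import Pool.Agent.Lib.MP_afdd4d_co.K10.E6.P18
import Pool.Agent.Lib.MP_afdd4d_co.K10.E6.P19
import Pool.Agent.Lib.MP_afdd4d_co.K10.E6.P20
import Pool.Agent.Lib.MP_afdd4d_co.K10.E6.P21
import Pool.Agent.Lib.MP_afdd4d_co.K10.E6.P22
import Pool.Agent.Lib.MP_afdd4d_co.K10.E6.P23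
import Pool.Agent.Lib.MP_afdd4d_co.K10.E6.P24
import Pool.Agent.Lib.MP_afdd4d_co.K10.E6.P25
import Pool.Agent.Lib.MP_afdd4d_co.K10.E6.P26
import Pool.Agent.Lib.MP_afdd4d_co.K10.E6.P27
import Pool.Agent.Lib.MP_afdd4d_co.K10.E6.P28
import Pool.Agent.Lib.MP_afdd4d_co.K10.E6.P29
import Pool.Agent.Lib.MP_afdd4d_co.K10.E6.P30
import Pool.Agent.Lib.MP_afdd4d_co.K10.E6.P31
import Pool.Agent.Lib.MP_afdd4d_co.K10.E6.P32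

/-!
# Tables
-/

namespace Pool.Agent.Lib.MP_afdd4d_co.K10.E6

open K8

set_option maxRecDepth 100000
set_option exponentiation.threshold 10000000

/-- The slices of the chunk 96. -/
noncomputable def c96 : List (List ℕ) := [
  [tr p82_62,
   tr p83_62,
   p96_2,
   p96_3,
   s4_5 (s0_1 p96_2),
   s4_5 (s0_1 p96_3),
   p96_6,
   p96_7],
  [s6_7 (s2_3 p96_2),
   s6_7 (s2_3 p96_3),
   x6_7 (x6_5 (x6_4 (x2_3 (x2_1 (x2_0 (n4 (n3 (n1 (n0 p96_3))))))))),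
   x6_7 (x6_5 (x6_4 (x2_3 (x2_1 (x2_0 (n4 (n3 (n1 (n0 p96_2))))))))),
   x7_6 (x7_5 (x7_4 (x3_2 (x3_1 (x3_0 (n4 (n2 (n1 (n0 p96_15))))))))),
   x7_6 (x7_5 (x7_4 (x3_2 (x3_1 (x3_0 (n4 (n2 (n1 (n0 p96_14))))))))),
   p96_14,
   p96_15],
  [s6_7 (s4_5 (s2_3 (s0_1 p96_2))),
   s6_7 (s4_5 (s2_3 (s0_1 p96_3))),
   x7_6 (x7_5 (x7_4 (s4_5 (x3_2 (x3_1 (x3_0 (s0_1 (n4 (n2 (n1 (n0 p96_15))))))))))),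
   x7_6 (x7_5 (x7_4 (s4_5 (x3_2 (x3_1 (x3_0 (s0_1 (n4 (n2 (n1 (n0 p96_14))))))))))),
   x6_7 (x6_5 (x6_4 (s4_5 (x2_3 (x2_1 (x2_0 (s0_1 (n4 (n3 (n1 (n0 p96_3))))))))))),
   x6_7 (x6_5 (x6_4 (s4_5 (x2_3 (x2_1 (x2_0 (s0_1 (n4 (n3 (n1 (n0 p96_2))))))))))),
   s4_5 (s0_1 p96_14),
   s4_5 (s0_1 p96_15)],
  [s6_7 (s2_3 p96_6),
   s6_7 (s2_3 p96_7),
   s6_7 (s2_3 p96_14),
   s6_7 (s2_3 p96_15),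
   s6_7 (s4_5 (s2_3 (s0_1 p96_14))),
   s6_7 (s4_5 (s2_3 (s0_1 p96_15))),
   x6_7 (x6_5 (x6_4 (x2_3 (x2_1 (x2_0 (n5 (n4 (n3 (n1 (n0 p96_6)))))))))),
   x6_7 (x6_5 (x6_4 (x2_3 (x2_1 (x2_0 (n5 (n4 (n3 (n1 (n0 p96_7))))))))))],
  [p96_32,
   p96_33,
   p96_34,
   p96_35,
   s4_5 (s0_1 p96_34),
   s4_5 (s0_1 p96_35),
   x7_6 (x7_5 (x7_4 (x3_2 (x3_1 (x3_0 (n6 (n2 (n1 (n0 p96_32))))))))),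
   x7_6 (x7_5 (x7_4 (x3_2 (x3_1 (x3_0 (n6 (n2 (n1 (n0 p96_33)))))))))],
  [s6_7 (s2_3 p96_34),
   s6_7 (s2_3 p96_35),
   x7_6 (x7_5 (x7_4 (x3_2 (x3_1 (x3_0 (n6 (n4 (n2 (n1 (n0 p96_47)))))))))),
   x7_6 (x7_5 (x7_4 (x3_2 (x3_1 (x3_0 (n6 (n4 (n2 (n1 (n0 p96_46)))))))))),
   x6_7 (x6_5 (x6_4 (s4_5 (x2_3 (x2_1 (x2_0 (s0_1 (n7 (n4 (n3 (n1 (n0 p96_35)))))))))))),
   x6_7 (x6_5 (x6_4 (s4_5 (x2_3 (x2_1 (x2_0 (s0_1 (n7 (n4 (n3 (n1 (n0 p96_34)))))))))))),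
   p96_46,
   p96_47],
  [s6_7 (s4_5 (s2_3 (s0_1 p96_34))),
   s6_7 (s4_5 (s2_3 (s0_1 p96_35))),
   x6_7 (x6_5 (x6_4 (x2_3 (x2_1 (x2_0 (n7 (n4 (n3 (n1 (n0 p96_35)))))))))),
   x6_7 (x6_5 (x6_4 (x2_3 (x2_1 (x2_0 (n7 (n4 (n3 (n1 (n0 p96_34)))))))))),
   x7_6 (x7_5 (x7_4 (s4_5 (x3_2 (x3_1 (x3_0 (s0_1 (n6 (n4 (n2 (n1 (n0 p96_47)))))))))))),
   x7_6 (x7_5 (x7_4 (s4_5 (x3_2 (x3_1 (x3_0 (s0_1 (n6 (n4 (n2 (n1 (n0 p96_46)))))))))))),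
   s4_5 (s0_1 p96_46),
   s4_5 (s0_1 p96_47)],
  [x6_7 (x6_5 (x6_4 (x2_3 (x2_1 (x2_0 (n7 (n3 (n1 (n0 p96_32))))))))),
   x6_7 (x6_5 (x6_4 (x2_3 (x2_1 (x2_0 (n7 (n3 (n1 (n0 p96_33))))))))),
   s6_7 (s2_3 p96_46),
   s6_7 (s2_3 p96_47),
   s6_7 (s4_5 (s2_3 (s0_1 p96_46))),
   s6_7 (s4_5 (s2_3 (s0_1 p96_47))),
   p96_62,
   p96_63]]

theorem k96 : eqNN c96 (slO 64 (D.chG 16 62) 8) = true := by decide +kernel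

/-- The slices of the chunk 97. -/
noncomputable def c97 : List (List ℕ) := [
  [tr p82_63,
   tr p83_63,
   p97_2,
   p97_3,
   s4_5 (s0_1 p97_2),
   s4_5 (s0_1 p97_3),
   p97_6,
   p97_7],
  [s6_7 (s2_3 p97_2),
   s6_7 (s2_3 p97_3),
   x6_7 (x6_5 (x6_4 (x2_3 (x2_1 (x2_0 (n4 (n3 (n1 (n0 p97_3))))))))),
   x6_7 (x6_5 (x6_4 (x2_3 (x2_1 (x2_0 (n4 (n3 (n1 (n0 p97_2))))))))),
   x7_6 (x7_5 (x7_4 (x3_2 (x3_1 (x3_0 (n4 (n2 (n1 (n0 p97_15))))))))),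
   x7_6 (x7_5 (x7_4 (x3_2 (x3_1 (x3_0 (n4 (n2 (n1 (n0 p97_14))))))))),
   p97_14,
   p97_15],
  [s6_7 (s4_5 (s2_3 (s0_1 p97_2))),
   s6_7 (s4_5 (s2_3 (s0_1 p97_3))),
   x7_6 (x7_5 (x7_4 (s4_5 (x3_2 (x3_1 (x3_0 (s0_1 (n4 (n2 (n1 (n0 p97_15))))))))))),
   x7_6 (x7_5 (x7_4 (s4_5 (x3_2 (x3_1 (x3_0 (s0_1 (n4 (n2 (n1 (n0 p97_14))))))))))),
   x6_7 (x6_5 (x6_4 (s4_5 (x2_3 (x2_1 (x2_0 (s0_1 (n4 (n3 (n1 (n0 p97_3))))))))))),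
   x6_7 (x6_5 (x6_4 (s4_5 (x2_3 (x2_1 (x2_0 (s0_1 (n4 (n3 (n1 (n0 p97_2))))))))))),
   s4_5 (s0_1 p97_14),
   s4_5 (s0_1 p97_15)],
  [s6_7 (s2_3 p97_6),
   s6_7 (s2_3 p97_7),
   s6_7 (s2_3 p97_14),
   s6_7 (s2_3 p97_15),
   s6_7 (s4_5 (s2_3 (s0_1 p97_14))),
   s6_7 (s4_5 (s2_3 (s0_1 p97_15))),
   x6_7 (x6_5 (x6_4 (x2_3 (x2_1 (x2_0 (n5 (n4 (n3 (n1 (n0 p97_6)))))))))),
   x6_7 (x6_5 (x6_4 (x2_3 (x2_1 (x2_0 (n5 (n4 (n3 (n1 (n0 p97_7))))))))))],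
  [p97_32,
   p97_33,
   p97_34,
   p97_35,
   s4_5 (s0_1 p97_34),
   s4_5 (s0_1 p97_35),
   x7_6 (x7_5 (x7_4 (x3_2 (x3_1 (x3_0 (n6 (n2 (n1 (n0 p97_32))))))))),
   x7_6 (x7_5 (x7_4 (x3_2 (x3_1 (x3_0 (n6 (n2 (n1 (n0 p97_33)))))))))],
  [s6_7 (s2_3 p97_34),
   s6_7 (s2_3 p97_35),
   x7_6 (x7_5 (x7_4 (x3_2 (x3_1 (x3_0 (n6 (n4 (n2 (n1 (n0 p97_47)))))))))),
   x7_6 (x7_5 (x7_4 (x3_2 (x3_1 (x3_0 (n6 (n4 (n2 (n1 (n0 p97_46)))))))))),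
   x6_7 (x6_5 (x6_4 (s4_5 (x2_3 (x2_1 (x2_0 (s0_1 (n7 (n4 (n3 (n1 (n0 p97_35)))))))))))),
   x6_7 (x6_5 (x6_4 (s4_5 (x2_3 (x2_1 (x2_0 (s0_1 (n7 (n4 (n3 (n1 (n0 p97_34)))))))))))),
   p97_46,
   p97_47],
  [s6_7 (s4_5 (s2_3 (s0_1 p97_34))),
   s6_7 (s4_5 (s2_3 (s0_1 p97_35))),
   x6_7 (x6_5 (x6_4 (x2_3 (x2_1 (x2_0 (n7 (n4 (n3 (n1 (n0 p97_35)))))))))),
   x6_7 (x6_5 (x6_4 (x2_3 (x2_1 (x2_0 (n7 (n4 (n3 (n1 (n0 p97_34)))))))))),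
   x7_6 (x7_5 (x7_4 (s4_5 (x3_2 (x3_1 (x3_0 (s0_1 (n6 (n4 (n2 (n1 (n0 p97_47)))))))))))),
   x7_6 (x7_5 (x7_4 (s4_5 (x3_2 (x3_1 (x3_0 (s0_1 (n6 (n4 (n2 (n1 (n0 p97_46)))))))))))),
   s4_5 (s0_1 p97_46),
   s4_5 (s0_1 p97_47)],
  [x6_7 (x6_5 (x6_4 (x2_3 (x2_1 (x2_0 (n7 (n3 (n1 (n0 p97_32))))))))),
   x6_7 (x6_5 (x6_4 (x2_3 (x2_1 (x2_0 (n7 (n3 (n1 (n0 p97_33))))))))),
   s6_7 (s2_3 p97_46),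
   s6_7 (s2_3 p97_47),
   s6_7 (s4_5 (s2_3 (s0_1 p97_46))),
   s6_7 (s4_5 (s2_3 (s0_1 p97_47))),
   tr p96_63,
   p97_63]]

theorem k97 : eqNN c97 (slO 64 (D.chG 16 63) 8) = true := by decide +kernel

/-- The slices of the chunk 98. -/
noncomputable def c98 : List (List ℕ) := [
  [p98_0,
   p98_1,
   p98_2,
   p98_3,
   p98_4,
   p98_5,
   p98_6,
   p98_7],
  [s6_7 (s2_3 p98_2),
   s6_7 (s2_3 p98_3),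
   p98_10,
   p98_11,
   p98_12,
   p98_13,
   p98_14,
   p98_15],
  [s6_7 (s2_3 p98_4),
   s6_7 (s2_3 p98_5),
   s6_7 (s2_3 p98_12),
   s6_7 (s2_3 p98_13),
   p98_20,
   p98_21,
   p98_22,
   p98_23],
  [s6_7 (s2_3 p98_6),
   s6_7 (s2_3 p98_7),
   s6_7 (s2_3 p98_14),
   s6_7 (s2_3 p98_15),
   s6_7 (s2_3 p98_22),
   s6_7 (s2_3 p98_23),
   p98_30,
   p98_31],
  [p98_32,
   p98_33,
   p98_34,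
   p98_35,
   p98_36,
   p98_37,
   p98_38,
   p98_39],
  [s6_7 (s2_3 p98_34),
   s6_7 (s2_3 p98_35),
   p98_42,
   p98_43,
   p98_44,
   p98_45,
   p98_46,
   p98_47],
  [s6_7 (s2_3 p98_36),
   s6_7 (s2_3 p98_37),
   s6_7 (s2_3 p98_44),
   s6_7 (s2_3 p98_45),
   p98_52,
   p98_53,
   p98_54,
   p98_55],
  [s6_7 (s2_3 p98_38),
   s6_7 (s2_3 p98_39),
   s6_7 (s2_3 p98_46),
   s6_7 (s2_3 p98_47),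
   s6_7 (s2_3 p98_54),
   s6_7 (s2_3 p98_55),
   p98_62,
   p98_63]]

theorem k98 : eqNN c98 (slO 64 (D.chG 20 0) 8) = true := by decide +kernel

/-- The slices of the chunk 99. -/
noncomputable def c99 : List (List ℕ) := [
  [tr p98_1,
   p99_1,
   p99_2,
   p99_3,
   p99_4,
   p99_5,
   p99_6,
   p99_7],
  [s6_7 (s2_3 p99_2),
   s6_7 (s2_3 p99_3),
   p99_10,
   p99_11,
   p99_12,
   p99_13,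
   p99_14,
   p99_15],
  [s6_7 (s2_3 p99_4),
   s6_7 (s2_3 p99_5),
   s6_7 (s2_3 p99_12),
   s6_7 (s2_3 p99_13),
   p99_20,
   p99_21,
   p99_22,
   p99_23],
  [s6_7 (s2_3 p99_6),
   s6_7 (s2_3 p99_7),
   s6_7 (s2_3 p99_14),
   s6_7 (s2_3 p99_15),
   s6_7 (s2_3 p99_22),
   s6_7 (s2_3 p99_23),
   p99_30,
   p99_31],
  [p99_32,
   p99_33,
   p99_34,
   p99_35,
   p99_36,
   p99_37,
   p99_38,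
   p99_39],
  [s6_7 (s2_3 p99_34),
   s6_7 (s2_3 p99_35),
   p99_42,
   p99_43,
   p99_44,
   p99_45,
   p99_46,
   p99_47],
  [s6_7 (s2_3 p99_36),
   s6_7 (s2_3 p99_37),
   s6_7 (s2_3 p99_44),
   s6_7 (s2_3 p99_45),
   p99_52,
   p99_53,
   p99_54,
   p99_55],
  [s6_7 (s2_3 p99_38),
   s6_7 (s2_3 p99_39),
   s6_7 (s2_3 p99_46),
   s6_7 (s2_3 p99_47),
   s6_7 (s2_3 p99_54),
   s6_7 (s2_3 p99_55),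
   p99_62,
   p99_63]]

theorem k99 : eqNN c99 (slO 64 (D.chG 20 1) 8) = true := by decide +kernel

end Pool.Agent.Lib.MP_afdd4d_co.K10.E6
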