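import Pool.Agent.Lib.MP_afdd4d_co.K10.E6.Dat
import Pool.Agent.Lib.MP_afdd4d_co.K10.E6.Mk
import Pool.Agent.Lib.MP_afdd4d_co.K8.F6Bl5
import Pool.Agent.Lib.MP_afdd4d_co.K10.E6.P0
import Pool.Agent.Lib.MP_afdd4d_co.K10.E6.P1
import Pool.Agent.Lib.MP_afdd4d_co.K10.E6.P2
import Pool.Agent.Lib.MP_afdd4d_co.K10.E6.P3
import Pool.Agent.Lib.MP_afdd4d_co.K10.E6.P4
import Pool.Agent.Lib.MP_afdd4d_co.K10.E6.P5
import Pool.Agent.Lib.MP_afdd4d_co.K10.E6.P6
import Pool.Agent.Lib.MP_afdd4d_co.K10.E6.P7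
import Pool.Agent.Lib.MP_afdd4d_co.K10.E6.P8
import Pool.Agent.Lib.MP_afdd4d_co.K10.E6.P9
import Pool.Agent.Lib.MP_afdd4d_co.K10.E6.P10
import Pool.Agent.Lib.MP_afdd4d_co.K10.E6.P11
import Pool.Agent.Lib.MP_afdd4d_co.K10.E6.P12
import Pool.Agent.Lib.MP_afdd4d_co.K10.E6.P13
import Pool.Agent.Lib.MP_afdd4d_co.K10.E6.P14
import Pool.Agent.Lib.MP_afdd4d_co.K10.E6.P15
import Pool.Agent.Lib.MP_afdd4d_co.K10.E6.P16
import Pool.Agent.Lib.MP_afdd4d_co.K10.E6.P17
import Pool.Agent.Lib.MP_afdd4d_co.K10.E6.P18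
import Pool.Agent.Lib.MP_afdd4d_co.K10.E6.P19
import Pool.Agent.Lib.MP_afdd4d_co.K10.E6.P20
import Pool.Agent.Lib.MP_afdd4d_co.K10.E6.P21
import Pool.Agent.Lib.MP_afdd4d_co.K10.E6.P22
import Pool.Agent.Lib.MP_afdd4d_co.K10.E6.P23
import Pool.Agent.Lib.MP_afdd4d_co.K10.E6.P24
import Pool.Agent.Lib.MP_afdd4d_co.K10.E6.P25
import Pool.Agent.Lib.MP_afdd4d_co.K10.E6.P26
import Pool.Agent.Lib.MP_afdd4d_co.K10.E6.P27
import Pool.Agent.Lib.MP_afdd4d_co.K10.E6.P28
import Pool.Agent.Lib.MP_afdd4d_co.K10.E6.P29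
import Pool.Agent.Lib.MP_afdd4d_co.K10.E6.P30
import Pool.Agent.Lib.MP_afdd4d_co.K10.E6.P31
import Pool.Agent.Lib.MP_afdd4d_co.K10.E6.P32

/-!
# Tables
-/

namespace Pool.Agent.Lib.MP_afdd4d_co.K10.E6

open K8

set_option maxRecDepth 100000
set_option exponentiation.threshold 10000000

/-- The slices of the chunk 100. -/
noncomputable def c100 : List (List ℕ) := [
  [tr p98_2,
   tr p99_2,
   p100_2,
   p100_3,
   p100_4,
   p100_5,
   p100_6,
   p100_7],
  [p100_8,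
   p100_9,
   tr p106_2,
   tr p107_2,
   p100_12,
   p100_13,
   p100_14,
   p100_15],
  [p100_16,
   p100_17,
   p100_18,
   p100_19,
   tr p112_2,
   tr p113_2,
   p100_22,
   p100_23],
  [p100_24,
   p100_25,
   p100_26,
   p100_27,
   p100_28,
   p100_29,
   tr p116_2,
   tr p117_2],
  [tr p118_2,
   tr p119_2,
   p100_34,
   p100_35,
   p100_36,
   p100_37,
   p100_38,
   p100_39],
  [p100_40,
   p100_41,
   tr p126_2,
   tr p127_2,
   p100_44,
   p100_45,
   p100_46,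
   p100_47],
  [p100_48,
   p100_49,
   p100_50,
   p100_51,
   tr p132_2,
   tr p133_2,
   p100_54,
   p100_55],
  [p100_56,
   p100_57,
   p100_58,
   p100_59,
   p100_60,
   p100_61,
   tr p136_2,
   tr p137_2]]

theorem k100 : eqNN c100 (slO 64 (D.chG 20 2) 8) = true := by decide +kernel

/-- The slices of the chunk 101. -/
noncomputable def c101 : List (List ℕ) := [
  [tr p98_3,
   tr p99_3,
   tr p100_3,
   p101_3,
   p101_4,
   p101_5,
   p101_6,
   p101_7],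
  [s3_6 (s2_7 (s1_5 (s0_4 p100_9))),
   p101_9,
   tr p106_3,
   tr p107_3,
   p101_12,
   p101_13,
   p101_14,
   p101_15],
  [p101_16,
   p101_17,
   p101_18,
   p101_19,
   tr p112_3,
   tr p113_3,
   p101_22,
   p101_23],
  [p101_24,
   p101_25,
   p101_26,
   p101_27,
   p101_28,
   p101_29,
   tr p116_3,
   tr p117_3],
  [tr p118_3,
   tr p119_3,
   p101_34,
   p101_35,
   p101_36,
   p101_37,
   p101_38,
   p101_39],
  [p101_40,
   p101_41,
   tr p126_3,
   tr p127_3,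
   p101_44,
   p101_45,
   p101_46,
   p101_47],
  [p101_48,
   p101_49,
   p101_50,
   p101_51,
   tr p132_3,
   tr p133_3,
   p101_54,
   p101_55],
  [p101_56,
   p101_57,
   p101_58,
   p101_59,
   p101_60,
   p101_61,
   tr p136_3,
   tr p137_3]]

theorem k101 : eqNN c101 (slO 64 (D.chG 20 3) 8) = true := by decide +kernel

/-- The slices of the chunk 102. -/
noncomputable def c102 : List (List ℕ) := [
  [tr p98_4,
   tr p99_4,
   tr p100_4,
   tr p101_4,
   p102_4,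
   p102_5,
   p102_6,
   p102_7],
  [s3_6 (s2_7 (s1_5 (s0_4 p100_16))),
   s3_6 (s2_7 (s1_5 (s0_4 p101_16))),
   tr p106_4,
   tr p107_4,
   p102_12,
   p102_13,
   p102_14,
   p102_15],
  [p102_16,
   p102_17,
   p102_18,
   p102_19,
   tr p112_4,
   tr p113_4,
   p102_22,
   p102_23],
  [p102_24,
   p102_25,
   p102_26,
   p102_27,
   p102_28,
   p102_29,
   tr p116_4,
   tr p117_4],
  [tr p118_4,
   tr p119_4,
   p102_34,
   p102_35,
   p102_36,
   p102_37,
   p102_38,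
   p102_39],
  [p102_40,
   p102_41,
   tr p126_4,
   tr p127_4,
   p102_44,
   p102_45,
   p102_46,
   p102_47],
  [p102_48,
   p102_49,
   p102_50,
   p102_51,
   tr p132_4,
   tr p133_4,
   p102_54,
   p102_55],
  [p102_56,
   p102_57,
   p102_58,
   p102_59,
   p102_60,
   p102_61,
   tr p136_4,
   tr p137_4]]

theorem k102 : eqNN c102 (slO 64 (D.chG 20 4) 8) = true := by decide +kernel

/-- The slices of the chunk 103. -/
noncomputable def c103 : List (List ℕ) := [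
  [tr p98_5,
   tr p99_5,
   tr p100_5,
   tr p101_5,
   tr p102_5,
   p103_5,
   p103_6,
   p103_7],
  [s3_6 (s2_7 (s1_5 (s0_4 p100_17))),
   s3_6 (s2_7 (s1_5 (s0_4 p101_17))),
   tr p106_5,
   tr p107_5,
   p103_12,
   p103_13,
   p103_14,
   p103_15],
  [s3_6 (s2_7 (s1_5 (s0_4 p102_17))),
   p103_17,
   p103_18,
   p103_19,
   tr p112_5,
   tr p113_5,
   p103_22,
   p103_23],
  [p103_24,
   p103_25,
   p103_26,
   p103_27,
   p103_28,
   p103_29,
   tr p116_5,
   tr p117_5],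
  [tr p118_5,
   tr p119_5,
   p103_34,
   p103_35,
   p103_36,
   p103_37,
   p103_38,
   p103_39],
  [p103_40,
   p103_41,
   tr p126_5,
   tr p127_5,
   p103_44,
   p103_45,
   p103_46,
   p103_47],
  [p103_48,
   p103_49,
   p103_50,
   p103_51,
   tr p132_5,
   tr p133_5,
   p103_54,
   p103_55],
  [p103_56,
   p103_57,
   p103_58,
   p103_59,
   p103_60,
   p103_61,
   tr p136_5,
   tr p137_5]]

theorem k103 : eqNN c103 (slO 64 (D.chG 20 5) 8) = true := by decide +kernel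

end Pool.Agent.Lib.MP_afdd4d_co.K10.E6
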