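import Pool.Agent.Lib.MP_afdd4d_co.K10.E6.Dat
import Pool.Agent.Lib.MP_afdd4d_co.K10.E6.Mk
import Pool.Agent.Lib.MP_afdd4d_co.K8.F6Bl5
import Pool.Agent.Lib.MP_afdd4d_co.K10.E6.P0
import Pool.Agent.Lib.MP_afdd4d_co.K10.E6.P1
import Pool.Agent.Lib.MP_afdd4d_co.K10.E6.P2
import Pool.Agent.Lib.MP_afdd4d_co.K10.E6.P3
import Pool.Agent.Lib.MP_afdd4d_co.K10.E6.P4
import Pool.Agent.Lib.MP_afdd4d_co.K10.E6.P5
import Pool.Agent.Lib.MP_afdd4d_co.K10.E6.P6
import Pool.Agent.Lib.MP_afdd4d_co.K10.E6.P7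
import Pool.Agent.Lib.MP_afdd4d_co.K10.E6.P8
import Pool.Agent.Lib.MP_afdd4d_co.K10.E6.P9
import Pool.Agent.Lib.MP_afdd4d_co.K10.E6.P10
import Pool.Agent.Lib.MP_afdd4d_co.K10.E6.P11
import Pool.Agent.Lib.MP_afdd4d_co.K10.E6.P12
import Pool.Agent.Lib.MP_afdd4d_co.K10.E6.P13
import Pool.Agent.Lib.MP_afdd4d_co.K10.E6.P14
import Pool.Agent.Lib.MP_afdd4d_co.K10.E6.P15
import Pool.Agent.Lib.MP_afdd4d_co.K10.E6.P16
import Pool.Agent.Lib.MP_afdd4d_co.K10.E6.P17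
import Pool.Agent.Lib.MP_afdd4d_co.K10.E6.P18
import Pool.Agent.Lib.MP_afdd4d_co.K10.E6.P19
import Pool.Agent.Lib.MP_afdd4d_co.K10.E6.P20
import Pool.Agent.Lib.MP_afdd4d_co.K10.E6.P21
import Pool.Agent.Lib.MP_afdd4d_co.K10.E6.P22
import Pool.Agent.Lib.MP_afdd4d_co.K10.E6.P23
import Pool.Agent.Lib.MP_afdd4d_co.K10.E6.P24
import Pool.Agent.Lib.MP_afdd4d_co.K10.E6.P25
import Pool.Agent.Lib.MP_afdd4d_co.K10.E6.P26
import Pool.Agent.Lib.MP_afdd4d_co.K10.E6.P27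
import Pool.Agent.Lib.MP_afdd4d_co.K10.E6.P28
import Pool.Agent.Lib.MP_afdd4d_co.K10.E6.P29
import Pool.Agent.Lib.MP_afdd4d_co.K10.E6.P30
import Pool.Agent.Lib.MP_afdd4d_co.K10.E6.P31
import Pool.Agent.Lib.MP_afdd4d_co.K10.E6.P32

/-!
# Tables
-/

namespace Pool.Agent.Lib.MP_afdd4d_co.K10.E6

open K8

set_option maxRecDepth 100000
set_option exponentiation.threshold 10000000

/-- The slices of the chunk 104. -/
noncomputable def c104 : List (List ℕ) := [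
  [tr p98_6,
   tr p99_6,
   tr p100_6,
   tr p101_6,
   tr p102_6,
   tr p103_6,
   p104_6,
   p104_7],
  [s3_6 (s2_7 (s1_5 (s0_4 p100_24))),
   s3_6 (s2_7 (s1_5 (s0_4 p101_24))),
   tr p106_6,
   tr p107_6,
   p104_12,
   p104_13,
   p104_14,
   p104_15],
  [s3_6 (s2_7 (s1_5 (s0_4 p102_24))),
   s3_6 (s2_7 (s1_5 (s0_4 p103_24))),
   p104_18,
   p104_19,
   tr p112_6,
   tr p113_6,
   p104_22,
   p104_23],
  [p104_24,
   p104_25,
   p104_26,
   p104_27,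
   p104_28,
   p104_29,
   tr p116_6,
   tr p117_6],
  [tr p118_6,
   tr p119_6,
   p104_34,
   p104_35,
   p104_36,
   p104_37,
   p104_38,
   p104_39],
  [p104_40,
   p104_41,
   tr p126_6,
   tr p127_6,
   p104_44,
   p104_45,
   p104_46,
   p104_47],
  [p104_48,
   p104_49,
   p104_50,
   p104_51,
   tr p132_6,
   tr p133_6,
   p104_54,
   p104_55],
  [p104_56,
   p104_57,
   p104_58,
   p104_59,
   p104_60,
   p104_61,
   tr p136_6,
   tr p137_6]]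

theorem k104 : eqNN c104 (slO 64 (D.chG 20 6) 8) = true := by decide +kernel

/-- The slices of the chunk 105. -/
noncomputable def c105 : List (List ℕ) := [
  [tr p98_7,
   tr p99_7,
   tr p100_7,
   tr p101_7,
   tr p102_7,
   tr p103_7,
   tr p104_7,
   p105_7],
  [s3_6 (s2_7 (s1_5 (s0_4 p100_25))),
   s3_6 (s2_7 (s1_5 (s0_4 p101_25))),
   tr p106_7,
   tr p107_7,
   p105_12,
   p105_13,
   p105_14,
   p105_15],
  [s3_6 (s2_7 (s1_5 (s0_4 p102_25))),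
   s3_6 (s2_7 (s1_5 (s0_4 p103_25))),
   p105_18,
   p105_19,
   tr p112_7,
   tr p113_7,
   p105_22,
   p105_23],
  [s3_6 (s2_7 (s1_5 (s0_4 p104_25))),
   p105_25,
   p105_26,
   p105_27,
   p105_28,
   p105_29,
   tr p116_7,
   tr p117_7],
  [tr p118_7,
   tr p119_7,
   p105_34,
   p105_35,
   p105_36,
   p105_37,
   p105_38,
   p105_39],
  [p105_40,
   p105_41,
   tr p126_7,
   tr p127_7,
   p105_44,
   p105_45,
   p105_46,
   p105_47],
  [p105_48,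
   p105_49,
   p105_50,
   p105_51,
   tr p132_7,
   tr p133_7,
   p105_54,
   p105_55],
  [p105_56,
   p105_57,
   p105_58,
   p105_59,
   p105_60,
   p105_61,
   tr p136_7,
   tr p137_7]]

theorem k105 : eqNN c105 (slO 64 (D.chG 20 7) 8) = true := by decide +kernel

/-- The slices of the chunk 106. -/
noncomputable def c106 : List (List ℕ) := [
  [tr p98_10,
   tr p99_10,
   p106_2,
   p106_3,
   p106_4,
   p106_5,
   p106_6,
   p106_7],
  [s6_7 (s2_3 p106_2),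
   s6_7 (s2_3 p106_3),
   p106_10,
   p106_11,
   p106_12,
   p106_13,
   p106_14,
   p106_15],
  [s6_7 (s2_3 p106_4),
   s6_7 (s2_3 p106_5),
   s6_7 (s2_3 p106_12),
   s6_7 (s2_3 p106_13),
   p106_20,
   p106_21,
   p106_22,
   p106_23],
  [s6_7 (s2_3 p106_6),
   s6_7 (s2_3 p106_7),
   s6_7 (s2_3 p106_14),
   s6_7 (s2_3 p106_15),
   s6_7 (s2_3 p106_22),
   s6_7 (s2_3 p106_23),
   p106_30,
   p106_31],
  [p106_32,
   p106_33,
   p106_34,
   p106_35,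
   p106_36,
   p106_37,
   p106_38,
   p106_39],
  [s6_7 (s2_3 p106_34),
   s6_7 (s2_3 p106_35),
   p106_42,
   p106_43,
   p106_44,
   p106_45,
   p106_46,
   p106_47],
  [s6_7 (s2_3 p106_36),
   s6_7 (s2_3 p106_37),
   s6_7 (s2_3 p106_44),
   s6_7 (s2_3 p106_45),
   p106_52,
   p106_53,
   p106_54,
   p106_55],
  [s6_7 (s2_3 p106_38),
   s6_7 (s2_3 p106_39),
   s6_7 (s2_3 p106_46),
   s6_7 (s2_3 p106_47),
   s6_7 (s2_3 p106_54),
   s6_7 (s2_3 p106_55),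
   p106_62,
   p106_63]]

theorem k106 : eqNN c106 (slO 64 (D.chG 20 10) 8) = true := by decide +kernel

/-- The slices of the chunk 107. -/
noncomputable def c107 : List (List ℕ) := [
  [tr p98_11,
   tr p99_11,
   p107_2,
   p107_3,
   p107_4,
   p107_5,
   p107_6,
   p107_7],
  [s6_7 (s2_3 p107_2),
   s6_7 (s2_3 p107_3),
   tr p106_11,
   p107_11,
   p107_12,
   p107_13,
   p107_14,
   p107_15],
  [s6_7 (s2_3 p107_4),
   s6_7 (s2_3 p107_5),
   s6_7 (s2_3 p107_12),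
   s6_7 (s2_3 p107_13),
   p107_20,
   p107_21,
   p107_22,
   p107_23],
  [s6_7 (s2_3 p107_6),
   s6_7 (s2_3 p107_7),
   s6_7 (s2_3 p107_14),
   s6_7 (s2_3 p107_15),
   s6_7 (s2_3 p107_22),
   s6_7 (s2_3 p107_23),
   p107_30,
   p107_31],
  [p107_32,
   p107_33,
   p107_34,
   p107_35,
   p107_36,
   p107_37,
   p107_38,
   p107_39],
  [s6_7 (s2_3 p107_34),
   s6_7 (s2_3 p107_35),
   p107_42,
   p107_43,
   p107_44,
   p107_45,
   p107_46,
   p107_47],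
  [s6_7 (s2_3 p107_36),
   s6_7 (s2_3 p107_37),
   s6_7 (s2_3 p107_44),
   s6_7 (s2_3 p107_45),
   p107_52,
   p107_53,
   p107_54,
   p107_55],
  [s6_7 (s2_3 p107_38),
   s6_7 (s2_3 p107_39),
   s6_7 (s2_3 p107_46),
   s6_7 (s2_3 p107_47),
   s6_7 (s2_3 p107_54),
   s6_7 (s2_3 p107_55),
   p107_62,
   p107_63]]

theorem k107 : eqNN c107 (slO 64 (D.chG 20 11) 8) = true := by decide +kernel

end Pool.Agent.Lib.MP_afdd4d_co.K10.E6
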