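import Pool.Agent.Lib.MP_afdd4d_co.K10.E6.Dat
import Pool.Agent.Lib.MP_afdd4d_co.K10.E6.Mk
import Pool.Agent.Lib.MP_afdd4d_co.K8.F6Bl5
import Pool.Agent.Lib.MP_afdd4d_co.K10.E6.P0
import Pool.Agent.Lib.MP_afdd4d_co.K10.E6.P1
import Pool.Agent.Lib.MP_afdd4d_co.K10.E6.P2
import Pool.Agent.Lib.MP_afdd4d_co.K10.E6.P3
import Pool.Agent.Lib.MP_afdd4d_co.K10.E6.P4
import Pool.Agent.Lib.MP_afdd4d_co.K10.E6.P5
import Pool.Agent.Lib.MP_afdd4d_co.K10.E6.P6
import Pool.Agent.Lib.MP_afdd4d_co.K10.E6.P7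
import Pool.Agent.Lib.MP_afdd4d_co.K10.E6.P8
import Pool.Agent.Lib.MP_afdd4d_co.K10.E6.P9
import Pool.Agent.Lib.MP_afdd4d_co.K10.E6.P10
import Pool.Agent.Lib.MP_afdd4d_co.K10.E6.P11
import Pool.Agent.Lib.MP_afdd4d_co.K10.E6.P12
import Pool.Agent.Lib.MP_afdd4d_co.K10.E6.P13
import Pool.Agent.Lib.MP_afdd4d_co.K10.E6.P14
import Pool.Agent.Lib.MP_afdd4d_co.K10.E6.P15
import Pool.Agent.Lib.MP_afdd4d_co.K10.E6.P16
import Pool.Agent.Lib.MP_afdd4d_co.K10.E6.P17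
import Pool.Agent.Lib.MP_afdd4d_co.K10.E6.P18
import Pool.Agent.Lib.MP_afdd4d_co.K10.E6.P19
import Pool.Agent.Lib.MP_afdd4d_co.K10.E6.P20
import Pool.Agent.Lib.MP_afdd4d_co.K10.E6.P21
import Pool.Agent.Lib.MP_afdd4d_co.K10.E6.P22
import Pool.Agent.Lib.MP_afdd4d_co.K10.E6.P23
import Pool.Agent.Lib.MP_afdd4d_co.K10.E6.P24
import Pool.Agent.Lib.MP_afdd4d_co.K10.E6.P25
import Pool.Agent.Lib.MP_afdd4d_co.K10.E6.P26
import Pool.Agent.Lib.MP_afdd4d_co.K10.E6.P27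
import Pool.Agent.Lib.MP_afdd4d_co.K10.E6.P28
import Pool.Agent.Lib.MP_afdd4d_co.K10.E6.P29
import Pool.Agent.Lib.MP_afdd4d_co.K10.E6.P30
import Pool.Agent.Lib.MP_afdd4d_co.K10.E6.P31
import Pool.Agent.Lib.MP_afdd4d_co.K10.E6.P32

/-!
# Tables
-/

namespace Pool.Agent.Lib.MP_afdd4d_co.K10.E6

open K8

set_option maxRecDepth 100000
set_option exponentiation.threshold 10000000

/-- The slices of the chunk 108. -/
noncomputable def c108 : List (List ℕ) := [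
  [tr p98_12,
   tr p99_12,
   tr p100_12,
   tr p101_12,
   tr p102_12,
   tr p103_12,
   tr p104_12,
   tr p105_12],
  [s3_6 (s2_7 (s1_5 (s0_4 p100_18))),
   s3_6 (s2_7 (s1_5 (s0_4 p101_18))),
   tr p106_12,
   tr p107_12,
   p108_12,
   p108_13,
   p108_14,
   p108_15],
  [s3_6 (s2_7 (s1_5 (s0_4 p102_18))),
   s3_6 (s2_7 (s1_5 (s0_4 p103_18))),
   p108_18,
   p108_19,
   tr p112_12,
   tr p113_12,
   p108_22,
   p108_23],
  [s3_6 (s2_7 (s1_5 (s0_4 p104_18))),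
   s3_6 (s2_7 (s1_5 (s0_4 p105_18))),
   p108_26,
   p108_27,
   p108_28,
   p108_29,
   tr p116_12,
   tr p117_12],
  [tr p118_12,
   tr p119_12,
   p108_34,
   p108_35,
   p108_36,
   p108_37,
   p108_38,
   p108_39],
  [p108_40,
   p108_41,
   tr p126_12,
   tr p127_12,
   p108_44,
   p108_45,
   p108_46,
   p108_47],
  [p108_48,
   p108_49,
   p108_50,
   p108_51,
   tr p132_12,
   tr p133_12,
   p108_54,
   p108_55],
  [p108_56,
   p108_57,
   p108_58,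
   p108_59,
   p108_60,
   p108_61,
   tr p136_12,
   tr p137_12]]

theorem k108 : eqNN c108 (slO 64 (D.chG 20 12) 8) = true := by decide +kernel

/-- The slices of the chunk 109. -/
noncomputable def c109 : List (List ℕ) := [
  [tr p98_13,
   tr p99_13,
   tr p100_13,
   tr p101_13,
   tr p102_13,
   tr p103_13,
   tr p104_13,
   tr p105_13],
  [s3_6 (s2_7 (s1_5 (s0_4 p100_19))),
   s3_6 (s2_7 (s1_5 (s0_4 p101_19))),
   tr p106_13,
   tr p107_13,
   tr p108_13,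
   p109_13,
   p109_14,
   p109_15],
  [s3_6 (s2_7 (s1_5 (s0_4 p102_19))),
   s3_6 (s2_7 (s1_5 (s0_4 p103_19))),
   s3_6 (s2_7 (s1_5 (s0_4 p108_19))),
   p109_19,
   tr p112_13,
   tr p113_13,
   p109_22,
   p109_23],
  [s3_6 (s2_7 (s1_5 (s0_4 p104_19))),
   s3_6 (s2_7 (s1_5 (s0_4 p105_19))),
   p109_26,
   p109_27,
   p109_28,
   p109_29,
   tr p116_13,
   tr p117_13],
  [tr p118_13,
   tr p119_13,
   p109_34,
   p109_35,
   p109_36,
   p109_37,
   p109_38,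
   p109_39],
  [p109_40,
   p109_41,
   tr p126_13,
   tr p127_13,
   p109_44,
   p109_45,
   p109_46,
   p109_47],
  [p109_48,
   p109_49,
   p109_50,
   p109_51,
   tr p132_13,
   tr p133_13,
   p109_54,
   p109_55],
  [p109_56,
   p109_57,
   p109_58,
   p109_59,
   p109_60,
   p109_61,
   tr p136_13,
   tr p137_13]]

theorem k109 : eqNN c109 (slO 64 (D.chG 20 13) 8) = true := by decide +kernel

/-- The slices of the chunk 110. -/
noncomputable def c110 : List (List ℕ) := [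
  [tr p98_14,
   tr p99_14,
   tr p100_14,
   tr p101_14,
   tr p102_14,
   tr p103_14,
   tr p104_14,
   tr p105_14],
  [s3_6 (s2_7 (s1_5 (s0_4 p100_26))),
   s3_6 (s2_7 (s1_5 (s0_4 p101_26))),
   tr p106_14,
   tr p107_14,
   tr p108_14,
   tr p109_14,
   p110_14,
   p110_15],
  [s3_6 (s2_7 (s1_5 (s0_4 p102_26))),
   s3_6 (s2_7 (s1_5 (s0_4 p103_26))),
   s3_6 (s2_7 (s1_5 (s0_4 p108_26))),
   s3_6 (s2_7 (s1_5 (s0_4 p109_26))),
   tr p112_14,
   tr p113_14,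
   p110_22,
   p110_23],
  [s3_6 (s2_7 (s1_5 (s0_4 p104_26))),
   s3_6 (s2_7 (s1_5 (s0_4 p105_26))),
   p110_26,
   p110_27,
   p110_28,
   p110_29,
   tr p116_14,
   tr p117_14],
  [tr p118_14,
   tr p119_14,
   p110_34,
   p110_35,
   p110_36,
   p110_37,
   p110_38,
   p110_39],
  [p110_40,
   p110_41,
   tr p126_14,
   tr p127_14,
   p110_44,
   p110_45,
   p110_46,
   p110_47],
  [p110_48,
   p110_49,
   p110_50,
   p110_51,
   tr p132_14,
   tr p133_14,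
   p110_54,
   p110_55],
  [p110_56,
   p110_57,
   p110_58,
   p110_59,
   p110_60,
   p110_61,
   tr p136_14,
   tr p137_14]]

theorem k110 : eqNN c110 (slO 64 (D.chG 20 14) 8) = true := by decide +kernel

/-- The slices of the chunk 111. -/
noncomputable def c111 : List (List ℕ) := [
  [tr p98_15,
   tr p99_15,
   tr p100_15,
   tr p101_15,
   tr p102_15,
   tr p103_15,
   tr p104_15,
   tr p105_15],
  [s3_6 (s2_7 (s1_5 (s0_4 p100_27))),
   s3_6 (s2_7 (s1_5 (s0_4 p101_27))),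
   tr p106_15,
   tr p107_15,
   tr p108_15,
   tr p109_15,
   tr p110_15,
   p111_15],
  [s3_6 (s2_7 (s1_5 (s0_4 p102_27))),
   s3_6 (s2_7 (s1_5 (s0_4 p103_27))),
   s3_6 (s2_7 (s1_5 (s0_4 p108_27))),
   s3_6 (s2_7 (s1_5 (s0_4 p109_27))),
   tr p112_15,
   tr p113_15,
   p111_22,
   p111_23],
  [s3_6 (s2_7 (s1_5 (s0_4 p104_27))),
   s3_6 (s2_7 (s1_5 (s0_4 p105_27))),
   s3_6 (s2_7 (s1_5 (s0_4 p110_27))),
   p111_27,
   p111_28,
   p111_29,
   tr p116_15,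
   tr p117_15],
  [tr p118_15,
   tr p119_15,
   p111_34,
   p111_35,
   p111_36,
   p111_37,
   p111_38,
   p111_39],
  [p111_40,
   p111_41,
   tr p126_15,
   tr p127_15,
   p111_44,
   p111_45,
   p111_46,
   p111_47],
  [p111_48,
   p111_49,
   p111_50,
   p111_51,
   tr p132_15,
   tr p133_15,
   p111_54,
   p111_55],
  [p111_56,
   p111_57,
   p111_58,
   p111_59,
   p111_60,
   p111_61,
   tr p136_15,
   tr p137_15]]

theorem k111 : eqNN c111 (slO 64 (D.chG 20 15) 8) = true := by decide +kernel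

end Pool.Agent.Lib.MP_afdd4d_co.K10.E6
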