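import Pool.Agent.Lib.MP_afdd4d_co.K10.E6.Dat
import Pool.Agent.Lib.MP_afdd4d_co.K10.E6.Mk
import Pool.Agent.Lib.MP_afdd4d_co.K8.F6Bl5
import Pool.Agent.Lib.MP_afdd4d_co.K10.E6.P0
import Pool.Agent.Lib.MP_afdd4d_co.K10.E6.P1
import Pool.Agent.Lib.MP_afdd4d_co.K10.E6.P2
import Pool.Agent.Lib.MP_afdd4d_co.K10.E6.P3
import Pool.Agent.Lib.MP_afdd4d_co.K10.E6.P4
import Pool.Agent.Lib.MP_afdd4d_co.K10.E6.P5
import Pool.Agent.Lib.MP_afdd4d_co.K10.E6.P6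
import Pool.Agent.Lib.MP_afdd4d_co.K10.E6.P7
import Pool.Agent.Lib.MP_afdd4d_co.K10.E6.P8
import Pool.Agent.Lib.MP_afdd4d_co.K10.E6.P9
import Pool.Agent.Lib.MP_afdd4d_co.K10.E6.P10
import Pool.Agent.Lib.MP_afdd4d_co.K10.E6.P11
import Pool.Agent.Lib.MP_afdd4d_co.K10.E6.P12
import Pool.Agent.Lib.MP_afdd4d_co.K10.E6.P13
import Pool.Agent.Lib.MP_afdd4d_co.K10.E6.P14
import Pool.Agent.Lib.MP_afdd4d_co.K10.E6.P15
import Pool.Agent.Lib.MP_afdd4d_co.K10.E6.P16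
import Pool.Agent.Lib.MP_afdd4d_co.K10.E6.P17
import Pool.Agent.Lib.MP_afdd4d_co.K10.E6.P18
import Pool.Agent.Lib.MP_afdd4d_co.K10.E6.P19
import Pool.Agent.Lib.MP_afdd4d_co.K10.E6.P20
import Pool.Agent.Lib.MP_afdd4d_co.K10.E6.P21
import Pool.Agent.Lib.MP_afdd4d_co.K10.E6.P22
import Pool.Agent.Lib.MP_afdd4d_co.K10.E6.P23
import Pool.Agent.Lib.MP_afdd4d_co.K10.E6.P24
import Pool.Agent.Lib.MP_afdd4d_co.K10.E6.P25
import Pool.Agent.Lib.MP_afdd4d_co.K10.E6.P26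
import Pool.Agent.Lib.MP_afdd4d_co.K10.E6.P27
import Pool.Agent.Lib.MP_afdd4d_co.K10.E6.P28
import Pool.Agent.Lib.MP_afdd4d_co.K10.E6.P29
import Pool.Agent.Lib.MP_afdd4d_co.K10.E6.P30
import Pool.Agent.Lib.MP_afdd4d_co.K10.E6.P31
import Pool.Agent.Lib.MP_afdd4d_co.K10.E6.P32

/-!
# Tables
-/

namespace Pool.Agent.Lib.MP_afdd4d_co.K10.E6

open K8

set_option maxRecDepth 100000
set_option exponentiation.threshold 10000000

/-- The slices of the chunk 112. -/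
noncomputable def c112 : List (List ℕ) := [
  [tr p98_20,
   tr p99_20,
   p112_2,
   p112_3,
   p112_4,
   p112_5,
   p112_6,
   p112_7],
  [s6_7 (s2_3 p112_2),
   s6_7 (s2_3 p112_3),
   tr p106_20,
   tr p107_20,
   p112_12,
   p112_13,
   p112_14,
   p112_15],
  [s6_7 (s2_3 p112_4),
   s6_7 (s2_3 p112_5),
   s6_7 (s2_3 p112_12),
   s6_7 (s2_3 p112_13),
   p112_20,
   p112_21,
   p112_22,
   p112_23],
  [s6_7 (s2_3 p112_6),
   s6_7 (s2_3 p112_7),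
   s6_7 (s2_3 p112_14),
   s6_7 (s2_3 p112_15),
   s6_7 (s2_3 p112_22),
   s6_7 (s2_3 p112_23),
   p112_30,
   p112_31],
  [p112_32,
   p112_33,
   p112_34,
   p112_35,
   p112_36,
   p112_37,
   p112_38,
   p112_39],
  [s6_7 (s2_3 p112_34),
   s6_7 (s2_3 p112_35),
   p112_42,
   p112_43,
   p112_44,
   p112_45,
   p112_46,
   p112_47],
  [s6_7 (s2_3 p112_36),
   s6_7 (s2_3 p112_37),
   s6_7 (s2_3 p112_44),
   s6_7 (s2_3 p112_45),
   p112_52,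
   p112_53,
   p112_54,
   p112_55],
  [s6_7 (s2_3 p112_38),
   s6_7 (s2_3 p112_39),
   s6_7 (s2_3 p112_46),
   s6_7 (s2_3 p112_47),
   s6_7 (s2_3 p112_54),
   s6_7 (s2_3 p112_55),
   p112_62,
   p112_63]]

theorem k112 : eqNN c112 (slO 64 (D.chG 20 20) 8) = true := by decide +kernel

/-- The slices of the chunk 113. -/
noncomputable def c113 : List (List ℕ) := [
  [tr p98_21,
   tr p99_21,
   p113_2,
   p113_3,
   p113_4,
   p113_5,
   p113_6,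
   p113_7],
  [s6_7 (s2_3 p113_2),
   s6_7 (s2_3 p113_3),
   tr p106_21,
   tr p107_21,
   p113_12,
   p113_13,
   p113_14,
   p113_15],
  [s6_7 (s2_3 p113_4),
   s6_7 (s2_3 p113_5),
   s6_7 (s2_3 p113_12),
   s6_7 (s2_3 p113_13),
   tr p112_21,
   p113_21,
   p113_22,
   p113_23],
  [s6_7 (s2_3 p113_6),
   s6_7 (s2_3 p113_7),
   s6_7 (s2_3 p113_14),
   s6_7 (s2_3 p113_15),
   s6_7 (s2_3 p113_22),
   s6_7 (s2_3 p113_23),
   p113_30,
   p113_31],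
  [p113_32,
   p113_33,
   p113_34,
   p113_35,
   p113_36,
   p113_37,
   p113_38,
   p113_39],
  [s6_7 (s2_3 p113_34),
   s6_7 (s2_3 p113_35),
   p113_42,
   p113_43,
   p113_44,
   p113_45,
   p113_46,
   p113_47],
  [s6_7 (s2_3 p113_36),
   s6_7 (s2_3 p113_37),
   s6_7 (s2_3 p113_44),
   s6_7 (s2_3 p113_45),
   p113_52,
   p113_53,
   p113_54,
   p113_55],
  [s6_7 (s2_3 p113_38),
   s6_7 (s2_3 p113_39),
   s6_7 (s2_3 p113_46),
   s6_7 (s2_3 p113_47),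
   s6_7 (s2_3 p113_54),
   s6_7 (s2_3 p113_55),
   p113_62,
   p113_63]]

theorem k113 : eqNN c113 (slO 64 (D.chG 20 21) 8) = true := by decide +kernel

/-- The slices of the chunk 114. -/
noncomputable def c114 : List (List ℕ) := [
  [tr p98_22,
   tr p99_22,
   tr p100_22,
   tr p101_22,
   tr p102_22,
   tr p103_22,
   tr p104_22,
   tr p105_22],
  [s3_6 (s2_7 (s1_5 (s0_4 p100_28))),
   s3_6 (s2_7 (s1_5 (s0_4 p101_28))),
   tr p106_22,
   tr p107_22,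
   tr p108_22,
   tr p109_22,
   tr p110_22,
   tr p111_22],
  [s3_6 (s2_7 (s1_5 (s0_4 p102_28))),
   s3_6 (s2_7 (s1_5 (s0_4 p103_28))),
   s3_6 (s2_7 (s1_5 (s0_4 p108_28))),
   s3_6 (s2_7 (s1_5 (s0_4 p109_28))),
   tr p112_22,
   tr p113_22,
   p114_22,
   p114_23],
  [s3_6 (s2_7 (s1_5 (s0_4 p104_28))),
   s3_6 (s2_7 (s1_5 (s0_4 p105_28))),
   s3_6 (s2_7 (s1_5 (s0_4 p110_28))),
   s3_6 (s2_7 (s1_5 (s0_4 p111_28))),
   p114_28,
   p114_29,
   tr p116_22,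
   tr p117_22],
  [tr p118_22,
   tr p119_22,
   p114_34,
   p114_35,
   p114_36,
   p114_37,
   p114_38,
   p114_39],
  [p114_40,
   p114_41,
   tr p126_22,
   tr p127_22,
   p114_44,
   p114_45,
   p114_46,
   p114_47],
  [p114_48,
   p114_49,
   p114_50,
   p114_51,
   tr p132_22,
   tr p133_22,
   p114_54,
   p114_55],
  [p114_56,
   p114_57,
   p114_58,
   p114_59,
   p114_60,
   p114_61,
   tr p136_22,
   tr p137_22]]

theorem k114 : eqNN c114 (slO 64 (D.chG 20 22) 8) = true := by decide +kernel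

/-- The slices of the chunk 115. -/
noncomputable def c115 : List (List ℕ) := [
  [tr p98_23,
   tr p99_23,
   tr p100_23,
   tr p101_23,
   tr p102_23,
   tr p103_23,
   tr p104_23,
   tr p105_23],
  [s3_6 (s2_7 (s1_5 (s0_4 p100_29))),
   s3_6 (s2_7 (s1_5 (s0_4 p101_29))),
   tr p106_23,
   tr p107_23,
   tr p108_23,
   tr p109_23,
   tr p110_23,
   tr p111_23],
  [s3_6 (s2_7 (s1_5 (s0_4 p102_29))),
   s3_6 (s2_7 (s1_5 (s0_4 p103_29))),
   s3_6 (s2_7 (s1_5 (s0_4 p108_29))),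
   s3_6 (s2_7 (s1_5 (s0_4 p109_29))),
   tr p112_23,
   tr p113_23,
   tr p114_23,
   p115_23],
  [s3_6 (s2_7 (s1_5 (s0_4 p104_29))),
   s3_6 (s2_7 (s1_5 (s0_4 p105_29))),
   s3_6 (s2_7 (s1_5 (s0_4 p110_29))),
   s3_6 (s2_7 (s1_5 (s0_4 p111_29))),
   s3_6 (s2_7 (s1_5 (s0_4 p114_29))),
   p115_29,
   tr p116_23,
   tr p117_23],
  [tr p118_23,
   tr p119_23,
   p115_34,
   p115_35,
   p115_36,
   p115_37,
   p115_38,
   p115_39],
  [p115_40,
   p115_41,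
   tr p126_23,
   tr p127_23,
   p115_44,
   p115_45,
   p115_46,
   p115_47],
  [p115_48,
   p115_49,
   p115_50,
   p115_51,
   tr p132_23,
   tr p133_23,
   p115_54,
   p115_55],
  [p115_56,
   p115_57,
   p115_58,
   p115_59,
   p115_60,
   p115_61,
   tr p136_23,
   tr p137_23]]

theorem k115 : eqNN c115 (slO 64 (D.chG 20 23) 8) = true := by decide +kernel

end Pool.Agent.Lib.MP_afdd4d_co.K10.E6
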