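import Pool.Agent.Lib.MP_afdd4d_co.K10.E6.Dat
import Pool.Agent.Lib.MP_afdd4d_co.K10.E6.Mk
import Pool.Agent.Lib.MP_afdd4d_co.K8.F6Bl5
import Pool.Agent.Lib.MP_afdd4d_co.K10.E6.P0
import Pool.Agent.Lib.MP_afdd4d_co.K10.E6.P1
import Pool.Agent.Lib.MP_afdd4d_co.K10.E6.P2
import Pool.Agent.Lib.MP_afdd4d_co.K10.E6.P3
import Pool.Agent.Lib.MP_afdd4d_co.K10.E6.P4
import Pool.Agent.Lib.MP_afdd4d_co.K10.E6.P5
import Pool.Agent.Lib.MP_afdd4d_co.K10.E6.P6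
import Pool.Agent.Lib.MP_afdd4d_co.K10.E6.P7
import Pool.Agent.Lib.MP_afdd4d_co.K10.E6.P8
import Pool.Agent.Lib.MP_afdd4d_co.K10.E6.P9
import Pool.Agent.Lib.MP_afdd4d_co.K10.E6.P10
import Pool.Agent.Lib.MP_afdd4d_co.K10.E6.P11
import Pool.Agent.Lib.MP_afdd4d_co.K10.E6.P12
import Pool.Agent.Lib.MP_afdd4d_co.K10.E6.P13
import Pool.Agent.Lib.MP_afdd4d_co.K10.E6.P14
import Pool.Agent.Lib.MP_afdd4d_co.K10.E6.P15
import Pool.Agent.Lib.MP_afdd4d_co.K10.E6.P16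
import Pool.Agent.Lib.MP_afdd4d_co.K10.E6.P17
import Pool.Agent.Lib.MP_afdd4d_co.K10.E6.P18
import Pool.Agent.Lib.MP_afdd4d_co.K10.E6.P19
import Pool.Agent.Lib.MP_afdd4d_co.K10.E6.P20
import Pool.Agent.Lib.MP_afdd4d_co.K10.E6.P21
import Pool.Agent.Lib.MP_afdd4d_co.K10.E6.P22
import Pool.Agent.Lib.MP_afdd4d_co.K10.E6.P23
import Pool.Agent.Lib.MP_afdd4d_co.K10.E6.P24
import Pool.Agent.Lib.MP_afdd4d_co.K10.E6.P25
import Pool.Agent.Lib.MP_afdd4d_co.K10.E6.P26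
import Pool.Agent.Lib.MP_afdd4d_co.K10.E6.P27
import Pool.Agent.Lib.MP_afdd4d_co.K10.E6.P28
import Pool.Agent.Lib.MP_afdd4d_co.K10.E6.P29
import Pool.Agent.Lib.MP_afdd4d_co.K10.E6.P30
import Pool.Agent.Lib.MP_afdd4d_co.K10.E6.P31
import Pool.Agent.Lib.MP_afdd4d_co.K10.E6.P32

/-!
# Tables
-/

namespace Pool.Agent.Lib.MP_afdd4d_co.K10.E6

open K8

set_option maxRecDepth 100000
set_option exponentiation.threshold 10000000

/-- The slices of the chunk 116. -/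
noncomputable def c116 : List (List ℕ) := [
  [tr p98_30,
   tr p99_30,
   p116_2,
   p116_3,
   p116_4,
   p116_5,
   p116_6,
   p116_7],
  [s6_7 (s2_3 p116_2),
   s6_7 (s2_3 p116_3),
   tr p106_30,
   tr p107_30,
   p116_12,
   p116_13,
   p116_14,
   p116_15],
  [s6_7 (s2_3 p116_4),
   s6_7 (s2_3 p116_5),
   s6_7 (s2_3 p116_12),
   s6_7 (s2_3 p116_13),
   tr p112_30,
   tr p113_30,
   p116_22,
   p116_23],
  [s6_7 (s2_3 p116_6),
   s6_7 (s2_3 p116_7),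
   s6_7 (s2_3 p116_14),
   s6_7 (s2_3 p116_15),
   s6_7 (s2_3 p116_22),
   s6_7 (s2_3 p116_23),
   p116_30,
   p116_31],
  [p116_32,
   p116_33,
   p116_34,
   p116_35,
   p116_36,
   p116_37,
   p116_38,
   p116_39],
  [s6_7 (s2_3 p116_34),
   s6_7 (s2_3 p116_35),
   p116_42,
   p116_43,
   p116_44,
   p116_45,
   p116_46,
   p116_47],
  [s6_7 (s2_3 p116_36),
   s6_7 (s2_3 p116_37),
   s6_7 (s2_3 p116_44),
   s6_7 (s2_3 p116_45),
   p116_52,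
   p116_53,
   p116_54,
   p116_55],
  [s6_7 (s2_3 p116_38),
   s6_7 (s2_3 p116_39),
   s6_7 (s2_3 p116_46),
   s6_7 (s2_3 p116_47),
   s6_7 (s2_3 p116_54),
   s6_7 (s2_3 p116_55),
   p116_62,
   p116_63]]

theorem k116 : eqNN c116 (slO 64 (D.chG 20 30) 8) = true := by decide +kernel

/-- The slices of the chunk 117. -/
noncomputable def c117 : List (List ℕ) := [
  [tr p98_31,
   tr p99_31,
   p117_2,
   p117_3,
   p117_4,
   p117_5,
   p117_6,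
   p117_7],
  [s6_7 (s2_3 p117_2),
   s6_7 (s2_3 p117_3),
   tr p106_31,
   tr p107_31,
   p117_12,
   p117_13,
   p117_14,
   p117_15],
  [s6_7 (s2_3 p117_4),
   s6_7 (s2_3 p117_5),
   s6_7 (s2_3 p117_12),
   s6_7 (s2_3 p117_13),
   tr p112_31,
   tr p113_31,
   p117_22,
   p117_23],
  [s6_7 (s2_3 p117_6),
   s6_7 (s2_3 p117_7),
   s6_7 (s2_3 p117_14),
   s6_7 (s2_3 p117_15),
   s6_7 (s2_3 p117_22),
   s6_7 (s2_3 p117_23),
   tr p116_31,
   p117_31],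
  [p117_32,
   p117_33,
   p117_34,
   p117_35,
   p117_36,
   p117_37,
   p117_38,
   p117_39],
  [s6_7 (s2_3 p117_34),
   s6_7 (s2_3 p117_35),
   p117_42,
   p117_43,
   p117_44,
   p117_45,
   p117_46,
   p117_47],
  [s6_7 (s2_3 p117_36),
   s6_7 (s2_3 p117_37),
   s6_7 (s2_3 p117_44),
   s6_7 (s2_3 p117_45),
   p117_52,
   p117_53,
   p117_54,
   p117_55],
  [s6_7 (s2_3 p117_38),
   s6_7 (s2_3 p117_39),
   s6_7 (s2_3 p117_46),
   s6_7 (s2_3 p117_47),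
   s6_7 (s2_3 p117_54),
   s6_7 (s2_3 p117_55),
   p117_62,
   p117_63]]

theorem k117 : eqNN c117 (slO 64 (D.chG 20 31) 8) = true := by decide +kernel

/-- The slices of the chunk 118. -/
noncomputable def c118 : List (List ℕ) := [
  [tr p98_32,
   tr p99_32,
   p118_2,
   p118_3,
   p118_4,
   p118_5,
   p118_6,
   p118_7],
  [s6_7 (s2_3 p118_2),
   s6_7 (s2_3 p118_3),
   tr p106_32,
   tr p107_32,
   p118_12,
   p118_13,
   p118_14,
   p118_15],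
  [s6_7 (s2_3 p118_4),
   s6_7 (s2_3 p118_5),
   s6_7 (s2_3 p118_12),
   s6_7 (s2_3 p118_13),
   tr p112_32,
   tr p113_32,
   p118_22,
   p118_23],
  [s6_7 (s2_3 p118_6),
   s6_7 (s2_3 p118_7),
   s6_7 (s2_3 p118_14),
   s6_7 (s2_3 p118_15),
   s6_7 (s2_3 p118_22),
   s6_7 (s2_3 p118_23),
   tr p116_32,
   tr p117_32],
  [p118_32,
   p118_33,
   p118_34,
   p118_35,
   p118_36,
   p118_37,
   p118_38,
   p118_39],
  [s6_7 (s2_3 p118_34),
   s6_7 (s2_3 p118_35),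
   p118_42,
   p118_43,
   p118_44,
   p118_45,
   p118_46,
   p118_47],
  [s6_7 (s2_3 p118_36),
   s6_7 (s2_3 p118_37),
   s6_7 (s2_3 p118_44),
   s6_7 (s2_3 p118_45),
   p118_52,
   p118_53,
   p118_54,
   p118_55],
  [s6_7 (s2_3 p118_38),
   s6_7 (s2_3 p118_39),
   s6_7 (s2_3 p118_46),
   s6_7 (s2_3 p118_47),
   s6_7 (s2_3 p118_54),
   s6_7 (s2_3 p118_55),
   p118_62,
   p118_63]]

theorem k118 : eqNN c118 (slO 64 (D.chG 20 32) 8) = true := by decide +kernel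

/-- The slices of the chunk 119. -/
noncomputable def c119 : List (List ℕ) := [
  [tr p98_33,
   tr p99_33,
   p119_2,
   p119_3,
   p119_4,
   p119_5,
   p119_6,
   p119_7],
  [s6_7 (s2_3 p119_2),
   s6_7 (s2_3 p119_3),
   tr p106_33,
   tr p107_33,
   p119_12,
   p119_13,
   p119_14,
   p119_15],
  [s6_7 (s2_3 p119_4),
   s6_7 (s2_3 p119_5),
   s6_7 (s2_3 p119_12),
   s6_7 (s2_3 p119_13),
   tr p112_33,
   tr p113_33,
   p119_22,
   p119_23],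
  [s6_7 (s2_3 p119_6),
   s6_7 (s2_3 p119_7),
   s6_7 (s2_3 p119_14),
   s6_7 (s2_3 p119_15),
   s6_7 (s2_3 p119_22),
   s6_7 (s2_3 p119_23),
   tr p116_33,
   tr p117_33],
  [tr p118_33,
   p119_33,
   p119_34,
   p119_35,
   p119_36,
   p119_37,
   p119_38,
   p119_39],
  [s6_7 (s2_3 p119_34),
   s6_7 (s2_3 p119_35),
   p119_42,
   p119_43,
   p119_44,
   p119_45,
   p119_46,
   p119_47],
  [s6_7 (s2_3 p119_36),
   s6_7 (s2_3 p119_37),
   s6_7 (s2_3 p119_44),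
   s6_7 (s2_3 p119_45),
   p119_52,
   p119_53,
   p119_54,
   p119_55],
  [s6_7 (s2_3 p119_38),
   s6_7 (s2_3 p119_39),
   s6_7 (s2_3 p119_46),
   s6_7 (s2_3 p119_47),
   s6_7 (s2_3 p119_54),
   s6_7 (s2_3 p119_55),
   p119_62,
   p119_63]]

theorem k119 : eqNN c119 (slO 64 (D.chG 20 33) 8) = true := by decide +kernel

end Pool.Agent.Lib.MP_afdd4d_co.K10.E6
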