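import Pool.Agent.Lib.MP_afdd4d_co.K10.E6.Dat
import Pool.Agent.Lib.MP_afdd4d_co.K10.E6.Mk
import Pool.Agent.Lib.MP_afdd4d_co.K8.F6Bl5
import Pool.Agent.Lib.MP_afdd4d_co.K10.E6.P0
import Pool.Agent.Lib.MP_afdd4d_co.K10.E6.P1
import Pool.Agent.Lib.MP_afdd4d_co.K10.E6.P2
import Pool.Agent.Lib.MP_afdd4d_co.K10.E6.P3
import Pool.Agent.Lib.MP_afdd4d_co.K10.E6.P4
import Pool.Agent.Lib.MP_afdd4d_co.K10.E6.P5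
import Pool.Agent.Lib.MP_afdd4d_co.K10.E6.P6
import Pool.Agent.Lib.MP_afdd4d_co.K10.E6.P7
import Pool.Agent.Lib.MP_afdd4d_co.K10.E6.P8
import Pool.Agent.Lib.MP_afdd4d_co.K10.E6.P9
import Pool.Agent.Lib.MP_afdd4d_co.K10.E6.P10
import Pool.Agent.Lib.MP_afdd4d_co.K10.E6.P11
import Pool.Agent.Lib.MP_afdd4d_co.K10.E6.P12
import Pool.Agent.Lib.MP_afdd4d_co.K10.E6.P13
import Pool.Agent.Lib.MP_afdd4d_co.K10.E6.P14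
import Pool.Agent.Lib.MP_afdd4d_co.K10.E6.P15
import Pool.Agent.Lib.MP_afdd4d_co.K10.E6.P16
import Pool.Agent.Lib.MP_afdd4d_co.K10.E6.P17
import Pool.Agent.Lib.MP_afdd4d_co.K10.E6.P18
import Pool.Agent.Lib.MP_afdd4d_co.K10.E6.P19
import Pool.Agent.Lib.MP_afdd4d_co.K10.E6.P20
import Pool.Agent.Lib.MP_afdd4d_co.K10.E6.P21
import Pool.Agent.Lib.MP_afdd4d_co.K10.E6.P22
import Pool.Agent.Lib.MP_afdd4d_co.K10.E6.P23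
import Pool.Agent.Lib.MP_afdd4d_co.K10.E6.P24
import Pool.Agent.Lib.MP_afdd4d_co.K10.E6.P25
import Pool.Agent.Lib.MP_afdd4d_co.K10.E6.P26
import Pool.Agent.Lib.MP_afdd4d_co.K10.E6.P27
import Pool.Agent.Lib.MP_afdd4d_co.K10.E6.P28
import Pool.Agent.Lib.MP_afdd4d_co.K10.E6.P29
import Pool.Agent.Lib.MP_afdd4d_co.K10.E6.P30
import Pool.Agent.Lib.MP_afdd4d_co.K10.E6.P31
import Pool.Agent.Lib.MP_afdd4d_co.K10.E6.P32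

/-!
# Tables
-/

namespace Pool.Agent.Lib.MP_afdd4d_co.K10.E6

open K8

set_option maxRecDepth 100000
set_option exponentiation.threshold 10000000

/-- The slices of the chunk 12. -/
noncomputable def c12 : List (List ℕ) := [
  [tr p7_9,
   tr p8_9,
   x7_6 (x7_5 (x7_4 (x3_2 (x3_1 (x3_0 (s3_7 (s2_5 (s1_6 (s0_4 (n4 p8_9)))))))))),
   tr p9_9,
   s3_7 (s2_4 (s1_5 (s0_6 p8_36))),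
   s3_7 (s2_6 (s1_4 (s0_5 p9_17))),
   x7_6 (x7_5 (x7_4 (s5_6 (s4_6 (x3_2 (x3_1 (x3_0 (s3_7 (s2_4 (s1_6 (s0_5 (n5 p9_17)))))))))))),
   tr p10_9],
  [tr p11_9,
   p12_9,
   p12_10,
   x7_6 (x7_5 (x7_4 (x3_2 (x3_1 (x3_0 (s3_7 (s2_5 (s1_6 (s0_4 (n4 (n0 p11_9))))))))))),
   p12_12,
   p12_13,
   p12_14,
   x7_6 (x7_5 (x7_4 (s5_6 (x3_2 (x3_1 (x3_0 (s1_2 (n4 (n0 p12_12)))))))))],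
  [s3_7 (s2_6 (s1_4 (s0_5 p11_17))),
   p12_17,
   p12_18,
   p12_19,
   p12_20,
   x7_6 (x7_5 (x7_4 (x3_2 (x3_1 (x3_0 (s3_7 (s2_6 (s1_4 (s0_5 (n5 (n0 p11_20))))))))))),
   p12_22,
   x7_6 (x7_5 (x7_4 (s5_6 (x3_2 (x3_1 (x3_0 (s1_2 (n6 (n0 p12_33)))))))))],
  [p12_24,
   p12_25,
   p12_26,
   p12_27,
   p12_28,
   p12_29,
   x7_6 (x7_5 (x7_4 (x3_2 (x3_1 (x3_0 (tr (n4 (n1 (n0 p15_10))))))))),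
   x7_6 (x7_5 (x7_4 (x3_2 (x3_1 (x3_0 (tr (n4 (n1 (n0 p16_10)))))))))],
  [s5_6 (s4_6 (s3_7 (s2_4 (s1_6 (s0_5 p11_20))))),
   p12_33,
   s5_6 (s4_6 (s3_7 (s2_4 (s1_6 (s0_5 p12_20))))),
   x7_6 (x7_5 (x7_4 (s5_6 (x3_2 (x3_1 (x3_0 (s1_2 (n5 (n0 p12_22))))))))),
   x7_6 (x7_5 (x7_4 (s5_6 (x3_2 (x3_1 (x3_0 (s1_2 (n5 (n0 p12_17))))))))),
   x7_6 (x7_5 (x7_4 (s5_6 (x3_2 (x3_1 (x3_0 (s1_2 (n5 (n0 p12_19))))))))),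
   x7_6 (x7_5 (x7_4 (s5_6 (s4_6 (x3_2 (x3_1 (x3_0 (s3_7 (s2_4 (s1_6 (s0_5 (n5 (n0 p11_17))))))))))))),
   x7_6 (x7_5 (x7_4 (s5_6 (x3_2 (x3_1 (x3_0 (s1_2 (n5 (n0 p12_18)))))))))],
  [s3_7 (s2_5 (s1_6 (s0_4 p15_10))),
   x7_6 (x7_5 (x7_4 (s5_6 (x3_2 (x3_1 (x3_0 (s1_2 (n5 (n4 (n0 p12_28)))))))))),
   s3_7 (s2_5 (s1_6 (s0_4 p16_10))),
   x7_6 (x7_5 (x7_4 (s5_6 (x3_2 (x3_1 (x3_0 (s1_2 (n5 (n4 (n0 p12_29)))))))))),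
   x7_6 (x7_5 (x7_4 (s5_6 (x3_2 (x3_1 (x3_0 (s1_2 (n5 (n4 (n0 p12_26)))))))))),
   x7_6 (x7_5 (x7_4 (s5_6 (x3_2 (x3_1 (x3_0 (s1_2 (n5 (n4 (n0 p12_24)))))))))),
   x7_6 (x7_5 (x7_4 (s5_6 (x3_2 (x3_1 (x3_0 (s1_2 (n5 (n4 (n0 p12_27)))))))))),
   x7_6 (x7_5 (x7_4 (s5_6 (x3_2 (x3_1 (x3_0 (s1_2 (n5 (n4 (n0 p12_25))))))))))],
  [p12_48,
   p12_49,
   p12_50,
   x7_6 (x7_5 (x7_4 (s5_6 (x3_2 (x3_1 (x3_0 (s1_2 (n6 (n5 (n0 p12_48)))))))))),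
   p12_52,
   p12_53,
   p12_54,
   x7_6 (x7_5 (x7_4 (s5_6 (x3_2 (x3_1 (x3_0 (s1_2 (n6 (n5 (n0 p12_52))))))))))],
  [tr p19_9,
   tr p20_9,
   x7_6 (x7_5 (x7_4 (x3_2 (x3_1 (x3_0 (s3_7 (s2_5 (s1_6 (s0_4 (n4 (n2 (n1 (n0 p20_9))))))))))))),
   tr p21_9,
   s3_7 (s2_4 (s1_5 (s0_6 p20_36))),
   s3_7 (s2_6 (s1_4 (s0_5 p21_17))),
   x7_6 (x7_5 (x7_4 (s5_6 (s4_6 (x3_2 (x3_1 (x3_0 (s3_7 (s2_4 (s1_6 (s0_5 (n5 (n2 (n1 (n0 p21_17))))))))))))))),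
   tr p22_9]]

theorem k12 : eqNN c12 (slO 64 (D.chG 1 9) 8) = true := by decide +kernel

/-- The slices of the chunk 13. -/
noncomputable def c13 : List (List ℕ) := [
  [tr p7_12,
   tr p8_12,
   s3_7 (s2_5 (s1_6 (s0_4 p8_12))),
   tr p9_12,
   s3_7 (s2_4 (s1_5 (s0_6 p8_33))),
   s3_7 (s2_6 (s1_4 (s0_5 p9_18))),
   s5_6 (s4_6 (s3_7 (s2_4 (s1_6 (s0_5 p9_18))))),
   tr p10_12],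
  [tr p11_12,
   tr p12_12,
   s3_7 (s2_5 (s1_6 (s0_4 p12_12))),
   x7_6 (x7_5 (x7_4 (x3_2 (x3_1 (x3_0 (tr (n4 (n0 p11_15)))))))),
   p13_12,
   p13_13,
   s5_6 (s1_2 p13_13),
   p13_15],
  [s3_7 (s2_6 (s1_4 (s0_5 p11_18))),
   s3_7 (s2_6 (s1_4 (s0_5 p12_18))),
   p13_18,
   p13_19,
   s5_6 (s4_5 (s3_7 (s2_5 (s1_4 (s0_6 p12_33))))),
   x7_6 (x7_5 (x7_4 (x3_2 (x3_1 (x3_0 (s3_7 (s2_6 (s1_4 (s0_5 (n5 (n0 p11_23))))))))))),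
   p13_22,
   p13_23],
  [p13_24,
   p13_25,
   p13_26,
   p13_27,
   p13_28,
   p13_29,
   p13_30,
   p13_31],
  [s5_6 (s4_6 (s3_7 (s2_4 (s1_6 (s0_5 p11_18))))),
   s5_6 (s1_2 p13_18),
   s5_6 (s4_6 (s3_7 (s2_4 (s1_6 (s0_5 p12_18))))),
   s5_6 (s1_2 p13_19),
   s3_7 (s2_4 (s1_5 (s0_6 p12_33))),
   s5_6 (s1_2 p13_22),
   x7_6 (x7_5 (x7_4 (s5_6 (s4_6 (x3_2 (x3_1 (x3_0 (s3_7 (s2_4 (s1_6 (s0_5 (n5 (n0 p11_23))))))))))))),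
   s5_6 (s1_2 p13_23)],
  [s5_6 (s1_2 p13_24),
   s5_6 (s1_2 p13_26),
   s5_6 (s1_2 p13_25),
   s5_6 (s1_2 p13_27),
   s5_6 (s1_2 p13_28),
   s5_6 (s1_2 p13_30),
   s5_6 (s1_2 p13_29),
   s5_6 (s1_2 p13_31)],
  [p13_48,
   p13_49,
   s5_6 (s1_2 p13_49),
   p13_51,
   p13_52,
   p13_53,
   s5_6 (s1_2 p13_53),
   p13_55],
  [tr p19_12,
   tr p20_12,
   s3_7 (s2_5 (s1_6 (s0_4 p20_12))),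
   tr p21_12,
   s3_7 (s2_4 (s1_5 (s0_6 p20_33))),
   s3_7 (s2_6 (s1_4 (s0_5 p21_18))),
   s5_6 (s4_6 (s3_7 (s2_4 (s1_6 (s0_5 p21_18))))),
   tr p22_12]]

theorem k13 : eqNN c13 (slO 64 (D.chG 1 12) 8) = true := by decide +kernel

/-- The slices of the chunk 14. -/
noncomputable def c14 : List (List ℕ) := [
  [tr p7_13,
   tr p8_13,
   x7_6 (x7_5 (x7_4 (x3_2 (x3_1 (x3_0 (s3_7 (s2_5 (s1_6 (s0_4 (n4 p8_13)))))))))),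
   tr p9_13,
   s3_7 (s2_4 (s1_5 (s0_6 p8_37))),
   s3_7 (s2_6 (s1_4 (s0_5 p9_19))),
   x7_6 (x7_5 (x7_4 (s5_6 (s4_6 (x3_2 (x3_1 (x3_0 (s3_7 (s2_4 (s1_6 (s0_5 (n5 p9_19)))))))))))),
   tr p10_13],
  [tr p11_13,
   tr p12_13,
   s3_7 (s2_5 (s1_6 (s0_4 p12_14))),
   x7_6 (x7_5 (x7_4 (x3_2 (x3_1 (x3_0 (s3_7 (s2_5 (s1_6 (s0_4 (n4 (n0 p11_13))))))))))),
   tr p13_13,
   p14_13,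
   p14_14,
   x7_6 (x7_5 (x7_4 (x3_2 (x3_1 (x3_0 (s3_7 (s2_5 (s1_6 (s0_4 (n4 (n0 p13_13)))))))))))],
  [s3_7 (s2_6 (s1_4 (s0_5 p11_19))),
   s3_7 (s2_6 (s1_4 (s0_5 p12_19))),
   s3_7 (s2_6 (s1_4 (s0_5 p13_19))),
   p14_19,
   x7_6 (x7_5 (x7_4 (x3_2 (x3_1 (x3_0 (s3_7 (s2_6 (s1_4 (s0_5 (n5 (n0 p12_22))))))))))),
   x7_6 (x7_5 (x7_4 (x3_2 (x3_1 (x3_0 (s3_7 (s2_6 (s1_4 (s0_5 (n5 (n0 p11_22))))))))))),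
   p14_22,
   x7_6 (x7_5 (x7_4 (x3_2 (x3_1 (x3_0 (s3_7 (s2_6 (s1_4 (s0_5 (n5 (n0 p13_22)))))))))))],
  [p14_24,
   p14_25,
   p14_26,
   p14_27,
   p14_28,
   p14_29,
   x7_6 (x7_5 (x7_4 (x3_2 (x3_1 (x3_0 (tr (n4 (n1 (n0 p15_14))))))))),
   x7_6 (x7_5 (x7_4 (x3_2 (x3_1 (x3_0 (tr (n4 (n1 (n0 p16_14)))))))))],
  [s5_6 (s4_6 (s3_7 (s2_4 (s1_6 (s0_5 p11_22))))),
   s5_6 (s4_6 (s3_7 (s2_4 (s1_6 (s0_5 p13_22))))),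
   s5_6 (s4_6 (s3_7 (s2_4 (s1_6 (s0_5 p12_22))))),
   s5_6 (s4_6 (s3_7 (s2_4 (s1_6 (s0_5 p14_22))))),
   x7_6 (x7_5 (x7_4 (s5_6 (s4_6 (x3_2 (x3_1 (x3_0 (s3_7 (s2_4 (s1_6 (s0_5 (n5 (n0 p12_19))))))))))))),
   x7_6 (x7_5 (x7_4 (s5_6 (x3_2 (x3_1 (x3_0 (s1_2 (n5 (n0 p14_19))))))))),
   x7_6 (x7_5 (x7_4 (s5_6 (s4_6 (x3_2 (x3_1 (x3_0 (s3_7 (s2_4 (s1_6 (s0_5 (n5 (n0 p11_19))))))))))))),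
   x7_6 (x7_5 (x7_4 (s5_6 (s4_6 (x3_2 (x3_1 (x3_0 (s3_7 (s2_4 (s1_6 (s0_5 (n5 (n0 p13_19)))))))))))))],
  [s3_7 (s2_5 (s1_6 (s0_4 p15_14))),
   x7_6 (x7_5 (x7_4 (s5_6 (x3_2 (x3_1 (x3_0 (s1_2 (n5 (n4 (n0 p14_28)))))))))),
   s3_7 (s2_5 (s1_6 (s0_4 p16_14))),
   x7_6 (x7_5 (x7_4 (s5_6 (x3_2 (x3_1 (x3_0 (s1_2 (n5 (n4 (n0 p14_29)))))))))),
   x7_6 (x7_5 (x7_4 (s5_6 (x3_2 (x3_1 (x3_0 (s1_2 (n5 (n4 (n0 p14_26)))))))))),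
   x7_6 (x7_5 (x7_4 (s5_6 (x3_2 (x3_1 (x3_0 (s1_2 (n5 (n4 (n0 p14_24)))))))))),
   x7_6 (x7_5 (x7_4 (s5_6 (x3_2 (x3_1 (x3_0 (s1_2 (n5 (n4 (n0 p14_27)))))))))),
   x7_6 (x7_5 (x7_4 (s5_6 (x3_2 (x3_1 (x3_0 (s1_2 (n5 (n4 (n0 p14_25))))))))))],
  [p14_48,
   p14_49,
   p14_50,
   x7_6 (x7_5 (x7_4 (s5_6 (x3_2 (x3_1 (x3_0 (s1_2 (n6 (n5 (n0 p14_48)))))))))),
   p14_52,
   p14_53,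
   p14_54,
   x7_6 (x7_5 (x7_4 (s5_6 (x3_2 (x3_1 (x3_0 (s1_2 (n6 (n5 (n0 p14_52))))))))))],
  [tr p19_13,
   tr p20_13,
   x7_6 (x7_5 (x7_4 (x3_2 (x3_1 (x3_0 (s3_7 (s2_5 (s1_6 (s0_4 (n4 (n2 (n1 (n0 p20_13))))))))))))),
   tr p21_13,
   s3_7 (s2_4 (s1_5 (s0_6 p20_37))),
   s3_7 (s2_6 (s1_4 (s0_5 p21_19))),
   x7_6 (x7_5 (x7_4 (s5_6 (s4_6 (x3_2 (x3_1 (x3_0 (s3_7 (s2_4 (s1_6 (s0_5 (n5 (n2 (n1 (n0 p21_19))))))))))))))),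
   tr p22_13]]

theorem k14 : eqNN c14 (slO 64 (D.chG 1 13) 8) = true := by decide +kernel

/-- The slices of the chunk 15. -/
noncomputable def c15 : List (List ℕ) := [
  [tr p7_24,
   tr p8_24,
   s3_7 (s2_5 (s1_6 (s0_4 p8_40))),
   tr p9_24,
   s5_6 (s4_5 (s3_7 (s2_5 (s1_4 (s0_6 p8_40))))),
   s3_7 (s2_6 (s1_4 (s0_5 p9_24))),
   s3_7 (s2_4 (s1_5 (s0_6 p9_48))),
   tr p10_24],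
  [tr p11_24,
   tr p12_24,
   p15_10,
   x7_6 (x7_5 (x7_4 (x3_2 (x3_1 (x3_0 (tr (n5 (n4 (n0 p11_30))))))))),
   tr p13_24,
   tr p14_24,
   p15_14,
   x7_6 (x7_5 (x7_4 (x3_2 (x3_1 (x3_0 (tr (n5 (n4 (n0 p13_30)))))))))],
  [s3_7 (s2_6 (s1_4 (s0_5 p11_24))),
   s3_7 (s2_6 (s1_4 (s0_5 p12_24))),
   s3_7 (s2_6 (s1_4 (s0_5 p13_24))),
   s3_7 (s2_6 (s1_4 (s0_5 p14_24))),
   s4_5 (s0_1 p15_10),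
   x7_6 (x7_5 (x7_4 (x3_2 (x3_1 (x3_0 (s3_7 (s2_6 (s1_4 (s0_5 (n5 (n4 (n0 p11_30)))))))))))),
   s4_5 (s0_1 p15_14),
   x7_6 (x7_5 (x7_4 (x3_2 (x3_1 (x3_0 (s3_7 (s2_6 (s1_4 (s0_5 (n5 (n4 (n0 p13_30))))))))))))],
  [p15_24,
   p15_25,
   p15_26,
   p15_27,
   s4_5 (s0_1 p15_26),
   s4_5 (s0_1 p15_27),
   p15_30,
   p15_31],
  [s3_7 (s2_4 (s1_5 (s0_6 p11_48))),
   s3_7 (s2_4 (s1_5 (s0_6 p13_48))),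
   s5_6 (s4_6 (s3_7 (s2_4 (s1_6 (s0_5 p12_48))))),
   s5_6 (s4_6 (s3_7 (s2_4 (s1_6 (s0_5 p14_48))))),
   s3_7 (s2_4 (s1_5 (s0_6 p12_48))),
   s3_7 (s2_4 (s1_5 (s0_6 p14_48))),
   x7_6 (x7_5 (x7_4 (x3_2 (x3_1 (x3_0 (s3_7 (s2_4 (s1_5 (s0_6 (n6 (n5 (n0 p11_51)))))))))))),
   x7_6 (x7_5 (x7_4 (x3_2 (x3_1 (x3_0 (s3_7 (s2_4 (s1_5 (s0_6 (n6 (n5 (n0 p13_51))))))))))))],
  [p15_40,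
   p15_41,
   p15_42,
   p15_43,
   p15_44,
   p15_45,
   p15_46,
   p15_47],
  [s4_5 (s0_1 p15_40),
   s4_5 (s0_1 p15_41),
   s4_5 (s0_1 p15_44),
   s4_5 (s0_1 p15_45),
   s4_5 (s0_1 p15_42),
   s4_5 (s0_1 p15_43),
   s4_5 (s0_1 p15_46),
   s4_5 (s0_1 p15_47)],
  [tr p19_24,
   tr p20_24,
   s3_7 (s2_5 (s1_6 (s0_4 p20_40))),
   tr p21_24,
   s5_6 (s4_5 (s3_7 (s2_5 (s1_4 (s0_6 p20_40))))),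
   s3_7 (s2_6 (s1_4 (s0_5 p21_24))),
   s3_7 (s2_4 (s1_5 (s0_6 p21_48))),
   tr p22_24]]

theorem k15 : eqNN c15 (slO 64 (D.chG 1 24) 8) = true := by decide +kernel

end Pool.Agent.Lib.MP_afdd4d_co.K10.E6
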