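import Pool.Agent.Lib.MP_afdd4d_co.K10.E6.Dat
import Pool.Agent.Lib.MP_afdd4d_co.K10.E6.Mk
import Pool.Agent.Lib.MP_afdd4d_co.K8.F6Bl5
import Pool.Agent.Lib.MP_afdd4d_co.K10.E6.P0
import Pool.Agent.Lib.MP_afdd4d_co.K10.E6.P1
import Pool.Agent.Lib.MP_afdd4d_co.K10.E6.P2
import Pool.Agent.Lib.MP_afdd4d_co.K10.E6.P3
import Pool.Agent.Lib.MP_afdd4d_co.K10.E6.P4
import Pool.Agent.Lib.MP_afdd4d_co.K10.E6.P5
import Pool.Agent.Lib.MP_afdd4d_co.K10.E6.P6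
import Pool.Agent.Lib.MP_afdd4d_co.K10.E6.P7
import Pool.Agent.Lib.MP_afdd4d_co.K10.E6.P8
import Pool.Agent.Lib.MP_afdd4d_co.K10.E6.P9
import Pool.Agent.Lib.MP_afdd4d_co.K10.E6.P10
import Pool.Agent.Lib.MP_afdd4d_co.K10.E6.P11
import Pool.Agent.Lib.MP_afdd4d_co.K10.E6.P12
import Pool.Agent.Lib.MP_afdd4d_co.K10.E6.P13
import Pool.Agent.Lib.MP_afdd4d_co.K10.E6.P14
import Pool.Agent.Lib.MP_afdd4d_co.K10.E6.P15
import Pool.Agent.Lib.MP_afdd4d_co.K10.E6.P16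
import Pool.Agent.Lib.MP_afdd4d_co.K10.E6.P17
import Pool.Agent.Lib.MP_afdd4d_co.K10.E6.P18
import Pool.Agent.Lib.MP_afdd4d_co.K10.E6.P19
import Pool.Agent.Lib.MP_afdd4d_co.K10.E6.P20
import Pool.Agent.Lib.MP_afdd4d_co.K10.E6.P21
import Pool.Agent.Lib.MP_afdd4d_co.K10.E6.P22
import Pool.Agent.Lib.MP_afdd4d_co.K10.E6.P23
import Pool.Agent.Lib.MP_afdd4d_co.K10.E6.P24
import Pool.Agent.Lib.MP_afdd4d_co.K10.E6.P25
import Pool.Agent.Lib.MP_afdd4d_co.K10.E6.P26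
import Pool.Agent.Lib.MP_afdd4d_co.K10.E6.P27
import Pool.Agent.Lib.MP_afdd4d_co.K10.E6.P28
import Pool.Agent.Lib.MP_afdd4d_co.K10.E6.P29
import Pool.Agent.Lib.MP_afdd4d_co.K10.E6.P30
import Pool.Agent.Lib.MP_afdd4d_co.K10.E6.P31
import Pool.Agent.Lib.MP_afdd4d_co.K10.E6.P32

/-!
# Tables
-/

namespace Pool.Agent.Lib.MP_afdd4d_co.K10.E6

open K8

set_option maxRecDepth 100000
set_option exponentiation.threshold 10000000

/-- The slices of the chunk 120. -/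
noncomputable def c120 : List (List ℕ) := [
  [tr p98_34,
   tr p99_34,
   tr p100_34,
   tr p101_34,
   tr p102_34,
   tr p103_34,
   tr p104_34,
   tr p105_34],
  [s3_6 (s2_7 (s1_5 (s0_4 p100_40))),
   s3_6 (s2_7 (s1_5 (s0_4 p101_40))),
   tr p106_34,
   tr p107_34,
   tr p108_34,
   tr p109_34,
   tr p110_34,
   tr p111_34],
  [s3_6 (s2_7 (s1_5 (s0_4 p102_40))),
   s3_6 (s2_7 (s1_5 (s0_4 p103_40))),
   s3_6 (s2_7 (s1_5 (s0_4 p108_40))),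
   s3_6 (s2_7 (s1_5 (s0_4 p109_40))),
   tr p112_34,
   tr p113_34,
   tr p114_34,
   tr p115_34],
  [s3_6 (s2_7 (s1_5 (s0_4 p104_40))),
   s3_6 (s2_7 (s1_5 (s0_4 p105_40))),
   s3_6 (s2_7 (s1_5 (s0_4 p110_40))),
   s3_6 (s2_7 (s1_5 (s0_4 p111_40))),
   s3_6 (s2_7 (s1_5 (s0_4 p114_40))),
   s3_6 (s2_7 (s1_5 (s0_4 p115_40))),
   tr p116_34,
   tr p117_34],
  [tr p118_34,
   tr p119_34,
   p120_34,
   p120_35,
   p120_36,
   p120_37,
   p120_38,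
   p120_39],
  [p120_40,
   p120_41,
   tr p126_34,
   tr p127_34,
   p120_44,
   p120_45,
   p120_46,
   p120_47],
  [p120_48,
   p120_49,
   p120_50,
   p120_51,
   tr p132_34,
   tr p133_34,
   p120_54,
   p120_55],
  [p120_56,
   p120_57,
   p120_58,
   p120_59,
   p120_60,
   p120_61,
   tr p136_34,
   tr p137_34]]

theorem k120 : eqNN c120 (slO 64 (D.chG 20 34) 8) = true := by decide +kernel

/-- The slices of the chunk 121. -/
noncomputable def c121 : List (List ℕ) := [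
  [tr p98_35,
   tr p99_35,
   tr p100_35,
   tr p101_35,
   tr p102_35,
   tr p103_35,
   tr p104_35,
   tr p105_35],
  [s3_6 (s2_7 (s1_5 (s0_4 p100_41))),
   s3_6 (s2_7 (s1_5 (s0_4 p101_41))),
   tr p106_35,
   tr p107_35,
   tr p108_35,
   tr p109_35,
   tr p110_35,
   tr p111_35],
  [s3_6 (s2_7 (s1_5 (s0_4 p102_41))),
   s3_6 (s2_7 (s1_5 (s0_4 p103_41))),
   s3_6 (s2_7 (s1_5 (s0_4 p108_41))),
   s3_6 (s2_7 (s1_5 (s0_4 p109_41))),
   tr p112_35,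
   tr p113_35,
   tr p114_35,
   tr p115_35],
  [s3_6 (s2_7 (s1_5 (s0_4 p104_41))),
   s3_6 (s2_7 (s1_5 (s0_4 p105_41))),
   s3_6 (s2_7 (s1_5 (s0_4 p110_41))),
   s3_6 (s2_7 (s1_5 (s0_4 p111_41))),
   s3_6 (s2_7 (s1_5 (s0_4 p114_41))),
   s3_6 (s2_7 (s1_5 (s0_4 p115_41))),
   tr p116_35,
   tr p117_35],
  [tr p118_35,
   tr p119_35,
   tr p120_35,
   p121_35,
   p121_36,
   p121_37,
   p121_38,
   p121_39],
  [s3_6 (s2_7 (s1_5 (s0_4 p120_41))),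
   p121_41,
   tr p126_35,
   tr p127_35,
   p121_44,
   p121_45,
   p121_46,
   p121_47],
  [p121_48,
   p121_49,
   p121_50,
   p121_51,
   tr p132_35,
   tr p133_35,
   p121_54,
   p121_55],
  [p121_56,
   p121_57,
   p121_58,
   p121_59,
   p121_60,
   p121_61,
   tr p136_35,
   tr p137_35]]

theorem k121 : eqNN c121 (slO 64 (D.chG 20 35) 8) = true := by decide +kernel

/-- The slices of the chunk 122. -/
noncomputable def c122 : List (List ℕ) := [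
  [tr p98_36,
   tr p99_36,
   tr p100_36,
   tr p101_36,
   tr p102_36,
   tr p103_36,
   tr p104_36,
   tr p105_36],
  [s3_6 (s2_7 (s1_5 (s0_4 p100_48))),
   s3_6 (s2_7 (s1_5 (s0_4 p101_48))),
   tr p106_36,
   tr p107_36,
   tr p108_36,
   tr p109_36,
   tr p110_36,
   tr p111_36],
  [s3_6 (s2_7 (s1_5 (s0_4 p102_48))),
   s3_6 (s2_7 (s1_5 (s0_4 p103_48))),
   s3_6 (s2_7 (s1_5 (s0_4 p108_48))),
   s3_6 (s2_7 (s1_5 (s0_4 p109_48))),
   tr p112_36,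
   tr p113_36,
   tr p114_36,
   tr p115_36],
  [s3_6 (s2_7 (s1_5 (s0_4 p104_48))),
   s3_6 (s2_7 (s1_5 (s0_4 p105_48))),
   s3_6 (s2_7 (s1_5 (s0_4 p110_48))),
   s3_6 (s2_7 (s1_5 (s0_4 p111_48))),
   s3_6 (s2_7 (s1_5 (s0_4 p114_48))),
   s3_6 (s2_7 (s1_5 (s0_4 p115_48))),
   tr p116_36,
   tr p117_36],
  [tr p118_36,
   tr p119_36,
   tr p120_36,
   tr p121_36,
   p122_36,
   p122_37,
   p122_38,
   p122_39],
  [s3_6 (s2_7 (s1_5 (s0_4 p120_48))),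
   s3_6 (s2_7 (s1_5 (s0_4 p121_48))),
   tr p126_36,
   tr p127_36,
   p122_44,
   p122_45,
   p122_46,
   p122_47],
  [p122_48,
   p122_49,
   p122_50,
   p122_51,
   tr p132_36,
   tr p133_36,
   p122_54,
   p122_55],
  [p122_56,
   p122_57,
   p122_58,
   p122_59,
   p122_60,
   p122_61,
   tr p136_36,
   tr p137_36]]

theorem k122 : eqNN c122 (slO 64 (D.chG 20 36) 8) = true := by decide +kernel

/-- The slices of the chunk 123. -/
noncomputable def c123 : List (List ℕ) := [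
  [tr p98_37,
   tr p99_37,
   tr p100_37,
   tr p101_37,
   tr p102_37,
   tr p103_37,
   tr p104_37,
   tr p105_37],
  [s3_6 (s2_7 (s1_5 (s0_4 p100_49))),
   s3_6 (s2_7 (s1_5 (s0_4 p101_49))),
   tr p106_37,
   tr p107_37,
   tr p108_37,
   tr p109_37,
   tr p110_37,
   tr p111_37],
  [s3_6 (s2_7 (s1_5 (s0_4 p102_49))),
   s3_6 (s2_7 (s1_5 (s0_4 p103_49))),
   s3_6 (s2_7 (s1_5 (s0_4 p108_49))),
   s3_6 (s2_7 (s1_5 (s0_4 p109_49))),
   tr p112_37,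
   tr p113_37,
   tr p114_37,
   tr p115_37],
  [s3_6 (s2_7 (s1_5 (s0_4 p104_49))),
   s3_6 (s2_7 (s1_5 (s0_4 p105_49))),
   s3_6 (s2_7 (s1_5 (s0_4 p110_49))),
   s3_6 (s2_7 (s1_5 (s0_4 p111_49))),
   s3_6 (s2_7 (s1_5 (s0_4 p114_49))),
   s3_6 (s2_7 (s1_5 (s0_4 p115_49))),
   tr p116_37,
   tr p117_37],
  [tr p118_37,
   tr p119_37,
   tr p120_37,
   tr p121_37,
   tr p122_37,
   p123_37,
   p123_38,
   p123_39],
  [s3_6 (s2_7 (s1_5 (s0_4 p120_49))),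
   s3_6 (s2_7 (s1_5 (s0_4 p121_49))),
   tr p126_37,
   tr p127_37,
   p123_44,
   p123_45,
   p123_46,
   p123_47],
  [s3_6 (s2_7 (s1_5 (s0_4 p122_49))),
   p123_49,
   p123_50,
   p123_51,
   tr p132_37,
   tr p133_37,
   p123_54,
   p123_55],
  [p123_56,
   p123_57,
   p123_58,
   p123_59,
   p123_60,
   p123_61,
   tr p136_37,
   tr p137_37]]

theorem k123 : eqNN c123 (slO 64 (D.chG 20 37) 8) = true := by decide +kernel

end Pool.Agent.Lib.MP_afdd4d_co.K10.E6
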