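import Pool.Agent.Lib.MP_afdd4d_co.K10.E6.Dat
import Pool.Agent.Lib.MP_afdd4d_co.K10.E6.Mk
import Pool.Agent.Lib.MP_afdd4d_co.K8.F6Bl5
import Pool.Agent.Lib.MP_afdd4d_co.K10.E6.P0
import Pool.Agent.Lib.MP_afdd4d_co.K10.E6.P1
import Pool.Agent.Lib.MP_afdd4d_co.K10.E6.P2
import Pool.Agent.Lib.MP_afdd4d_co.K10.E6.P3
import Pool.Agent.Lib.MP_afdd4d_co.K10.E6.P4
import Pool.Agent.Lib.MP_afdd4d_co.K10.E6.P5
import Pool.Agent.Lib.MP_afdd4d_co.K10.E6.P6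
import Pool.Agent.Lib.MP_afdd4d_co.K10.E6.P7
import Pool.Agent.Lib.MP_afdd4d_co.K10.E6.P8
import Pool.Agent.Lib.MP_afdd4d_co.K10.E6.P9
import Pool.Agent.Lib.MP_afdd4d_co.K10.E6.P10
import Pool.Agent.Lib.MP_afdd4d_co.K10.E6.P11
import Pool.Agent.Lib.MP_afdd4d_co.K10.E6.P12
import Pool.Agent.Lib.MP_afdd4d_co.K10.E6.P13
import Pool.Agent.Lib.MP_afdd4d_co.K10.E6.P14
import Pool.Agent.Lib.MP_afdd4d_co.K10.E6.P15
import Pool.Agent.Lib.MP_afdd4d_co.K10.E6.P16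
import Pool.Agent.Lib.MP_afdd4d_co.K10.E6.P17
import Pool.Agent.Lib.MP_afdd4d_co.K10.E6.P18
import Pool.Agent.Lib.MP_afdd4d_co.K10.E6.P19
import Pool.Agent.Lib.MP_afdd4d_co.K10.E6.P20
import Pool.Agent.Lib.MP_afdd4d_co.K10.E6.P21
import Pool.Agent.Lib.MP_afdd4d_co.K10.E6.P22
import Pool.Agent.Lib.MP_afdd4d_co.K10.E6.P23
import Pool.Agent.Lib.MP_afdd4d_co.K10.E6.P24
import Pool.Agent.Lib.MP_afdd4d_co.K10.E6.P25
import Pool.Agent.Lib.MP_afdd4d_co.K10.E6.P26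
import Pool.Agent.Lib.MP_afdd4d_co.K10.E6.P27
import Pool.Agent.Lib.MP_afdd4d_co.K10.E6.P28
import Pool.Agent.Lib.MP_afdd4d_co.K10.E6.P29
import Pool.Agent.Lib.MP_afdd4d_co.K10.E6.P30
import Pool.Agent.Lib.MP_afdd4d_co.K10.E6.P31
import Pool.Agent.Lib.MP_afdd4d_co.K10.E6.P32

/-!
# Tables
-/

namespace Pool.Agent.Lib.MP_afdd4d_co.K10.E6

open K8

set_option maxRecDepth 100000
set_option exponentiation.threshold 10000000

/-- The slices of the chunk 124. -/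
noncomputable def c124 : List (List ℕ) := [
  [tr p98_38,
   tr p99_38,
   tr p100_38,
   tr p101_38,
   tr p102_38,
   tr p103_38,
   tr p104_38,
   tr p105_38],
  [s3_6 (s2_7 (s1_5 (s0_4 p100_56))),
   s3_6 (s2_7 (s1_5 (s0_4 p101_56))),
   tr p106_38,
   tr p107_38,
   tr p108_38,
   tr p109_38,
   tr p110_38,
   tr p111_38],
  [s3_6 (s2_7 (s1_5 (s0_4 p102_56))),
   s3_6 (s2_7 (s1_5 (s0_4 p103_56))),
   s3_6 (s2_7 (s1_5 (s0_4 p108_56))),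
   s3_6 (s2_7 (s1_5 (s0_4 p109_56))),
   tr p112_38,
   tr p113_38,
   tr p114_38,
   tr p115_38],
  [s3_6 (s2_7 (s1_5 (s0_4 p104_56))),
   s3_6 (s2_7 (s1_5 (s0_4 p105_56))),
   s3_6 (s2_7 (s1_5 (s0_4 p110_56))),
   s3_6 (s2_7 (s1_5 (s0_4 p111_56))),
   s3_6 (s2_7 (s1_5 (s0_4 p114_56))),
   s3_6 (s2_7 (s1_5 (s0_4 p115_56))),
   tr p116_38,
   tr p117_38],
  [tr p118_38,
   tr p119_38,
   tr p120_38,
   tr p121_38,
   tr p122_38,
   tr p123_38,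
   p124_38,
   p124_39],
  [s3_6 (s2_7 (s1_5 (s0_4 p120_56))),
   s3_6 (s2_7 (s1_5 (s0_4 p121_56))),
   tr p126_38,
   tr p127_38,
   p124_44,
   p124_45,
   p124_46,
   p124_47],
  [s3_6 (s2_7 (s1_5 (s0_4 p122_56))),
   s3_6 (s2_7 (s1_5 (s0_4 p123_56))),
   p124_50,
   p124_51,
   tr p132_38,
   tr p133_38,
   p124_54,
   p124_55],
  [p124_56,
   p124_57,
   p124_58,
   p124_59,
   p124_60,
   p124_61,
   tr p136_38,
   tr p137_38]]

theorem k124 : eqNN c124 (slO 64 (D.chG 20 38) 8) = true := by decide +kernel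

/-- The slices of the chunk 125. -/
noncomputable def c125 : List (List ℕ) := [
  [tr p98_39,
   tr p99_39,
   tr p100_39,
   tr p101_39,
   tr p102_39,
   tr p103_39,
   tr p104_39,
   tr p105_39],
  [s3_6 (s2_7 (s1_5 (s0_4 p100_57))),
   s3_6 (s2_7 (s1_5 (s0_4 p101_57))),
   tr p106_39,
   tr p107_39,
   tr p108_39,
   tr p109_39,
   tr p110_39,
   tr p111_39],
  [s3_6 (s2_7 (s1_5 (s0_4 p102_57))),
   s3_6 (s2_7 (s1_5 (s0_4 p103_57))),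
   s3_6 (s2_7 (s1_5 (s0_4 p108_57))),
   s3_6 (s2_7 (s1_5 (s0_4 p109_57))),
   tr p112_39,
   tr p113_39,
   tr p114_39,
   tr p115_39],
  [s3_6 (s2_7 (s1_5 (s0_4 p104_57))),
   s3_6 (s2_7 (s1_5 (s0_4 p105_57))),
   s3_6 (s2_7 (s1_5 (s0_4 p110_57))),
   s3_6 (s2_7 (s1_5 (s0_4 p111_57))),
   s3_6 (s2_7 (s1_5 (s0_4 p114_57))),
   s3_6 (s2_7 (s1_5 (s0_4 p115_57))),
   tr p116_39,
   tr p117_39],
  [tr p118_39,
   tr p119_39,
   tr p120_39,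
   tr p121_39,
   tr p122_39,
   tr p123_39,
   tr p124_39,
   p125_39],
  [s3_6 (s2_7 (s1_5 (s0_4 p120_57))),
   s3_6 (s2_7 (s1_5 (s0_4 p121_57))),
   tr p126_39,
   tr p127_39,
   p125_44,
   p125_45,
   p125_46,
   p125_47],
  [s3_6 (s2_7 (s1_5 (s0_4 p122_57))),
   s3_6 (s2_7 (s1_5 (s0_4 p123_57))),
   p125_50,
   p125_51,
   tr p132_39,
   tr p133_39,
   p125_54,
   p125_55],
  [s3_6 (s2_7 (s1_5 (s0_4 p124_57))),
   p125_57,
   p125_58,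
   p125_59,
   p125_60,
   p125_61,
   tr p136_39,
   tr p137_39]]

theorem k125 : eqNN c125 (slO 64 (D.chG 20 39) 8) = true := by decide +kernel

/-- The slices of the chunk 126. -/
noncomputable def c126 : List (List ℕ) := [
  [tr p98_42,
   tr p99_42,
   p126_2,
   p126_3,
   p126_4,
   p126_5,
   p126_6,
   p126_7],
  [s6_7 (s2_3 p126_2),
   s6_7 (s2_3 p126_3),
   tr p106_42,
   tr p107_42,
   p126_12,
   p126_13,
   p126_14,
   p126_15],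
  [s6_7 (s2_3 p126_4),
   s6_7 (s2_3 p126_5),
   s6_7 (s2_3 p126_12),
   s6_7 (s2_3 p126_13),
   tr p112_42,
   tr p113_42,
   p126_22,
   p126_23],
  [s6_7 (s2_3 p126_6),
   s6_7 (s2_3 p126_7),
   s6_7 (s2_3 p126_14),
   s6_7 (s2_3 p126_15),
   s6_7 (s2_3 p126_22),
   s6_7 (s2_3 p126_23),
   tr p116_42,
   tr p117_42],
  [tr p118_42,
   tr p119_42,
   p126_34,
   p126_35,
   p126_36,
   p126_37,
   p126_38,
   p126_39],
  [s6_7 (s2_3 p126_34),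
   s6_7 (s2_3 p126_35),
   p126_42,
   p126_43,
   p126_44,
   p126_45,
   p126_46,
   p126_47],
  [s6_7 (s2_3 p126_36),
   s6_7 (s2_3 p126_37),
   s6_7 (s2_3 p126_44),
   s6_7 (s2_3 p126_45),
   p126_52,
   p126_53,
   p126_54,
   p126_55],
  [s6_7 (s2_3 p126_38),
   s6_7 (s2_3 p126_39),
   s6_7 (s2_3 p126_46),
   s6_7 (s2_3 p126_47),
   s6_7 (s2_3 p126_54),
   s6_7 (s2_3 p126_55),
   p126_62,
   p126_63]]

theorem k126 : eqNN c126 (slO 64 (D.chG 20 42) 8) = true := by decide +kernel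

/-- The slices of the chunk 127. -/
noncomputable def c127 : List (List ℕ) := [
  [tr p98_43,
   tr p99_43,
   p127_2,
   p127_3,
   p127_4,
   p127_5,
   p127_6,
   p127_7],
  [s6_7 (s2_3 p127_2),
   s6_7 (s2_3 p127_3),
   tr p106_43,
   tr p107_43,
   p127_12,
   p127_13,
   p127_14,
   p127_15],
  [s6_7 (s2_3 p127_4),
   s6_7 (s2_3 p127_5),
   s6_7 (s2_3 p127_12),
   s6_7 (s2_3 p127_13),
   tr p112_43,
   tr p113_43,
   p127_22,
   p127_23],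
  [s6_7 (s2_3 p127_6),
   s6_7 (s2_3 p127_7),
   s6_7 (s2_3 p127_14),
   s6_7 (s2_3 p127_15),
   s6_7 (s2_3 p127_22),
   s6_7 (s2_3 p127_23),
   tr p116_43,
   tr p117_43],
  [tr p118_43,
   tr p119_43,
   p127_34,
   p127_35,
   p127_36,
   p127_37,
   p127_38,
   p127_39],
  [s6_7 (s2_3 p127_34),
   s6_7 (s2_3 p127_35),
   tr p126_43,
   p127_43,
   p127_44,
   p127_45,
   p127_46,
   p127_47],
  [s6_7 (s2_3 p127_36),
   s6_7 (s2_3 p127_37),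
   s6_7 (s2_3 p127_44),
   s6_7 (s2_3 p127_45),
   p127_52,
   p127_53,
   p127_54,
   p127_55],
  [s6_7 (s2_3 p127_38),
   s6_7 (s2_3 p127_39),
   s6_7 (s2_3 p127_46),
   s6_7 (s2_3 p127_47),
   s6_7 (s2_3 p127_54),
   s6_7 (s2_3 p127_55),
   p127_62,
   p127_63]]

theorem k127 : eqNN c127 (slO 64 (D.chG 20 43) 8) = true := by decide +kernel

end Pool.Agent.Lib.MP_afdd4d_co.K10.E6
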