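import Pool.Agent.Lib.MP_afdd4d_co.K10.E6.Dat
import Pool.Agent.Lib.MP_afdd4d_co.K10.E6.Mk
import Pool.Agent.Lib.MP_afdd4d_co.K8.F6Bl5
import Pool.Agent.Lib.MP_afdd4d_co.K10.E6.P0
import Pool.Agent.Lib.MP_afdd4d_co.K10.E6.P1
import Pool.Agent.Lib.MP_afdd4d_co.K10.E6.P2
import Pool.Agent.Lib.MP_afdd4d_co.K10.E6.P3
import Pool.Agent.Lib.MP_afdd4d_co.K10.E6.P4
import Pool.Agent.Lib.MP_afdd4d_co.K10.E6.P5
import Pool.Agent.Lib.MP_afdd4d_co.K10.E6.P6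
import Pool.Agent.Lib.MP_afdd4d_co.K10.E6.P7
import Pool.Agent.Lib.MP_afdd4d_co.K10.E6.P8
import Pool.Agent.Lib.MP_afdd4d_co.K10.E6.P9
import Pool.Agent.Lib.MP_afdd4d_co.K10.E6.P10
import Pool.Agent.Lib.MP_afdd4d_co.K10.E6.P11
import Pool.Agent.Lib.MP_afdd4d_co.K10.E6.P12
import Pool.Agent.Lib.MP_afdd4d_co.K10.E6.P13
import Pool.Agent.Lib.MP_afdd4d_co.K10.E6.P14
import Pool.Agent.Lib.MP_afdd4d_co.K10.E6.P15
import Pool.Agent.Lib.MP_afdd4d_co.K10.E6.P16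
import Pool.Agent.Lib.MP_afdd4d_co.K10.E6.P17
import Pool.Agent.Lib.MP_afdd4d_co.K10.E6.P18
import Pool.Agent.Lib.MP_afdd4d_co.K10.E6.P19
import Pool.Agent.Lib.MP_afdd4d_co.K10.E6.P20
import Pool.Agent.Lib.MP_afdd4d_co.K10.E6.P21
import Pool.Agent.Lib.MP_afdd4d_co.K10.E6.P22
import Pool.Agent.Lib.MP_afdd4d_co.K10.E6.P23
import Pool.Agent.Lib.MP_afdd4d_co.K10.E6.P24
import Pool.Agent.Lib.MP_afdd4d_co.K10.E6.P25
import Pool.Agent.Lib.MP_afdd4d_co.K10.E6.P26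
import Pool.Agent.Lib.MP_afdd4d_co.K10.E6.P27
import Pool.Agent.Lib.MP_afdd4d_co.K10.E6.P28
import Pool.Agent.Lib.MP_afdd4d_co.K10.E6.P29
import Pool.Agent.Lib.MP_afdd4d_co.K10.E6.P30
import Pool.Agent.Lib.MP_afdd4d_co.K10.E6.P31
import Pool.Agent.Lib.MP_afdd4d_co.K10.E6.P32

/-!
# Tables
-/

namespace Pool.Agent.Lib.MP_afdd4d_co.K10.E6

open K8

set_option maxRecDepth 100000
set_option exponentiation.threshold 10000000

/-- The slices of the chunk 128. -/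
noncomputable def c128 : List (List ℕ) := [
  [tr p98_44,
   tr p99_44,
   tr p100_44,
   tr p101_44,
   tr p102_44,
   tr p103_44,
   tr p104_44,
   tr p105_44],
  [s3_6 (s2_7 (s1_5 (s0_4 p100_50))),
   s3_6 (s2_7 (s1_5 (s0_4 p101_50))),
   tr p106_44,
   tr p107_44,
   tr p108_44,
   tr p109_44,
   tr p110_44,
   tr p111_44],
  [s3_6 (s2_7 (s1_5 (s0_4 p102_50))),
   s3_6 (s2_7 (s1_5 (s0_4 p103_50))),
   s3_6 (s2_7 (s1_5 (s0_4 p108_50))),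
   s3_6 (s2_7 (s1_5 (s0_4 p109_50))),
   tr p112_44,
   tr p113_44,
   tr p114_44,
   tr p115_44],
  [s3_6 (s2_7 (s1_5 (s0_4 p104_50))),
   s3_6 (s2_7 (s1_5 (s0_4 p105_50))),
   s3_6 (s2_7 (s1_5 (s0_4 p110_50))),
   s3_6 (s2_7 (s1_5 (s0_4 p111_50))),
   s3_6 (s2_7 (s1_5 (s0_4 p114_50))),
   s3_6 (s2_7 (s1_5 (s0_4 p115_50))),
   tr p116_44,
   tr p117_44],
  [tr p118_44,
   tr p119_44,
   tr p120_44,
   tr p121_44,
   tr p122_44,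
   tr p123_44,
   tr p124_44,
   tr p125_44],
  [s3_6 (s2_7 (s1_5 (s0_4 p120_50))),
   s3_6 (s2_7 (s1_5 (s0_4 p121_50))),
   tr p126_44,
   tr p127_44,
   p128_44,
   p128_45,
   p128_46,
   p128_47],
  [s3_6 (s2_7 (s1_5 (s0_4 p122_50))),
   s3_6 (s2_7 (s1_5 (s0_4 p123_50))),
   p128_50,
   p128_51,
   tr p132_44,
   tr p133_44,
   p128_54,
   p128_55],
  [s3_6 (s2_7 (s1_5 (s0_4 p124_50))),
   s3_6 (s2_7 (s1_5 (s0_4 p125_50))),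
   p128_58,
   p128_59,
   p128_60,
   p128_61,
   tr p136_44,
   tr p137_44]]

theorem k128 : eqNN c128 (slO 64 (D.chG 20 44) 8) = true := by decide +kernel

/-- The slices of the chunk 129. -/
noncomputable def c129 : List (List ℕ) := [
  [tr p98_45,
   tr p99_45,
   tr p100_45,
   tr p101_45,
   tr p102_45,
   tr p103_45,
   tr p104_45,
   tr p105_45],
  [s3_6 (s2_7 (s1_5 (s0_4 p100_51))),
   s3_6 (s2_7 (s1_5 (s0_4 p101_51))),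
   tr p106_45,
   tr p107_45,
   tr p108_45,
   tr p109_45,
   tr p110_45,
   tr p111_45],
  [s3_6 (s2_7 (s1_5 (s0_4 p102_51))),
   s3_6 (s2_7 (s1_5 (s0_4 p103_51))),
   s3_6 (s2_7 (s1_5 (s0_4 p108_51))),
   s3_6 (s2_7 (s1_5 (s0_4 p109_51))),
   tr p112_45,
   tr p113_45,
   tr p114_45,
   tr p115_45],
  [s3_6 (s2_7 (s1_5 (s0_4 p104_51))),
   s3_6 (s2_7 (s1_5 (s0_4 p105_51))),
   s3_6 (s2_7 (s1_5 (s0_4 p110_51))),
   s3_6 (s2_7 (s1_5 (s0_4 p111_51))),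
   s3_6 (s2_7 (s1_5 (s0_4 p114_51))),
   s3_6 (s2_7 (s1_5 (s0_4 p115_51))),
   tr p116_45,
   tr p117_45],
  [tr p118_45,
   tr p119_45,
   tr p120_45,
   tr p121_45,
   tr p122_45,
   tr p123_45,
   tr p124_45,
   tr p125_45],
  [s3_6 (s2_7 (s1_5 (s0_4 p120_51))),
   s3_6 (s2_7 (s1_5 (s0_4 p121_51))),
   tr p126_45,
   tr p127_45,
   tr p128_45,
   p129_45,
   p129_46,
   p129_47],
  [s3_6 (s2_7 (s1_5 (s0_4 p122_51))),
   s3_6 (s2_7 (s1_5 (s0_4 p123_51))),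
   s3_6 (s2_7 (s1_5 (s0_4 p128_51))),
   p129_51,
   tr p132_45,
   tr p133_45,
   p129_54,
   p129_55],
  [s3_6 (s2_7 (s1_5 (s0_4 p124_51))),
   s3_6 (s2_7 (s1_5 (s0_4 p125_51))),
   p129_58,
   p129_59,
   p129_60,
   p129_61,
   tr p136_45,
   tr p137_45]]

theorem k129 : eqNN c129 (slO 64 (D.chG 20 45) 8) = true := by decide +kernel

/-- The slices of the chunk 130. -/
noncomputable def c130 : List (List ℕ) := [
  [tr p98_46,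
   tr p99_46,
   tr p100_46,
   tr p101_46,
   tr p102_46,
   tr p103_46,
   tr p104_46,
   tr p105_46],
  [s3_6 (s2_7 (s1_5 (s0_4 p100_58))),
   s3_6 (s2_7 (s1_5 (s0_4 p101_58))),
   tr p106_46,
   tr p107_46,
   tr p108_46,
   tr p109_46,
   tr p110_46,
   tr p111_46],
  [s3_6 (s2_7 (s1_5 (s0_4 p102_58))),
   s3_6 (s2_7 (s1_5 (s0_4 p103_58))),
   s3_6 (s2_7 (s1_5 (s0_4 p108_58))),
   s3_6 (s2_7 (s1_5 (s0_4 p109_58))),
   tr p112_46,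
   tr p113_46,
   tr p114_46,
   tr p115_46],
  [s3_6 (s2_7 (s1_5 (s0_4 p104_58))),
   s3_6 (s2_7 (s1_5 (s0_4 p105_58))),
   s3_6 (s2_7 (s1_5 (s0_4 p110_58))),
   s3_6 (s2_7 (s1_5 (s0_4 p111_58))),
   s3_6 (s2_7 (s1_5 (s0_4 p114_58))),
   s3_6 (s2_7 (s1_5 (s0_4 p115_58))),
   tr p116_46,
   tr p117_46],
  [tr p118_46,
   tr p119_46,
   tr p120_46,
   tr p121_46,
   tr p122_46,
   tr p123_46,
   tr p124_46,
   tr p125_46],
  [s3_6 (s2_7 (s1_5 (s0_4 p120_58))),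
   s3_6 (s2_7 (s1_5 (s0_4 p121_58))),
   tr p126_46,
   tr p127_46,
   tr p128_46,
   tr p129_46,
   p130_46,
   p130_47],
  [s3_6 (s2_7 (s1_5 (s0_4 p122_58))),
   s3_6 (s2_7 (s1_5 (s0_4 p123_58))),
   s3_6 (s2_7 (s1_5 (s0_4 p128_58))),
   s3_6 (s2_7 (s1_5 (s0_4 p129_58))),
   tr p132_46,
   tr p133_46,
   p130_54,
   p130_55],
  [s3_6 (s2_7 (s1_5 (s0_4 p124_58))),
   s3_6 (s2_7 (s1_5 (s0_4 p125_58))),
   p130_58,
   p130_59,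
   p130_60,
   p130_61,
   tr p136_46,
   tr p137_46]]

theorem k130 : eqNN c130 (slO 64 (D.chG 20 46) 8) = true := by decide +kernel

/-- The slices of the chunk 131. -/
noncomputable def c131 : List (List ℕ) := [
  [tr p98_47,
   tr p99_47,
   tr p100_47,
   tr p101_47,
   tr p102_47,
   tr p103_47,
   tr p104_47,
   tr p105_47],
  [s3_6 (s2_7 (s1_5 (s0_4 p100_59))),
   s3_6 (s2_7 (s1_5 (s0_4 p101_59))),
   tr p106_47,
   tr p107_47,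
   tr p108_47,
   tr p109_47,
   tr p110_47,
   tr p111_47],
  [s3_6 (s2_7 (s1_5 (s0_4 p102_59))),
   s3_6 (s2_7 (s1_5 (s0_4 p103_59))),
   s3_6 (s2_7 (s1_5 (s0_4 p108_59))),
   s3_6 (s2_7 (s1_5 (s0_4 p109_59))),
   tr p112_47,
   tr p113_47,
   tr p114_47,
   tr p115_47],
  [s3_6 (s2_7 (s1_5 (s0_4 p104_59))),
   s3_6 (s2_7 (s1_5 (s0_4 p105_59))),
   s3_6 (s2_7 (s1_5 (s0_4 p110_59))),
   s3_6 (s2_7 (s1_5 (s0_4 p111_59))),
   s3_6 (s2_7 (s1_5 (s0_4 p114_59))),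
   s3_6 (s2_7 (s1_5 (s0_4 p115_59))),
   tr p116_47,
   tr p117_47],
  [tr p118_47,
   tr p119_47,
   tr p120_47,
   tr p121_47,
   tr p122_47,
   tr p123_47,
   tr p124_47,
   tr p125_47],
  [s3_6 (s2_7 (s1_5 (s0_4 p120_59))),
   s3_6 (s2_7 (s1_5 (s0_4 p121_59))),
   tr p126_47,
   tr p127_47,
   tr p128_47,
   tr p129_47,
   tr p130_47,
   p131_47],
  [s3_6 (s2_7 (s1_5 (s0_4 p122_59))),
   s3_6 (s2_7 (s1_5 (s0_4 p123_59))),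
   s3_6 (s2_7 (s1_5 (s0_4 p128_59))),
   s3_6 (s2_7 (s1_5 (s0_4 p129_59))),
   tr p132_47,
   tr p133_47,
   p131_54,
   p131_55],
  [s3_6 (s2_7 (s1_5 (s0_4 p124_59))),
   s3_6 (s2_7 (s1_5 (s0_4 p125_59))),
   s3_6 (s2_7 (s1_5 (s0_4 p130_59))),
   p131_59,
   p131_60,
   p131_61,
   tr p136_47,
   tr p137_47]]

theorem k131 : eqNN c131 (slO 64 (D.chG 20 47) 8) = true := by decide +kernel

end Pool.Agent.Lib.MP_afdd4d_co.K10.E6
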