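import Pool.Agent.Lib.MP_afdd4d_co.K10.E6.Dat
import Pool.Agent.Lib.MP_afdd4d_co.K10.E6.Mk
import Pool.Agent.Lib.MP_afdd4d_co.K8.F6Bl5
import Pool.Agent.Lib.MP_afdd4d_co.K10.E6.P0
import Pool.Agent.Lib.MP_afdd4d_co.K10.E6.P1
import Pool.Agent.Lib.MP_afdd4d_co.K10.E6.P2
import Pool.Agent.Lib.MP_afdd4d_co.K10.E6.P3
import Pool.Agent.Lib.MP_afdd4d_co.K10.E6.P4
import Pool.Agent.Lib.MP_afdd4d_co.K10.E6.P5
import Pool.Agent.Lib.MP_afdd4d_co.K10.E6.P6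
import Pool.Agent.Lib.MP_afdd4d_co.K10.E6.P7
import Pool.Agent.Lib.MP_afdd4d_co.K10.E6.P8
import Pool.Agent.Lib.MP_afdd4d_co.K10.E6.P9
import Pool.Agent.Lib.MP_afdd4d_co.K10.E6.P10
import Pool.Agent.Lib.MP_afdd4d_co.K10.E6.P11
import Pool.Agent.Lib.MP_afdd4d_co.K10.E6.P12
import Pool.Agent.Lib.MP_afdd4d_co.K10.E6.P13
import Pool.Agent.Lib.MP_afdd4d_co.K10.E6.P14
import Pool.Agent.Lib.MP_afdd4d_co.K10.E6.P15
import Pool.Agent.Lib.MP_afdd4d_co.K10.E6.P16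
import Pool.Agent.Lib.MP_afdd4d_co.K10.E6.P17
import Pool.Agent.Lib.MP_afdd4d_co.K10.E6.P18
import Pool.Agent.Lib.MP_afdd4d_co.K10.E6.P19
import Pool.Agent.Lib.MP_afdd4d_co.K10.E6.P20
import Pool.Agent.Lib.MP_afdd4d_co.K10.E6.P21
import Pool.Agent.Lib.MP_afdd4d_co.K10.E6.P22
import Pool.Agent.Lib.MP_afdd4d_co.K10.E6.P23
import Pool.Agent.Lib.MP_afdd4d_co.K10.E6.P24
import Pool.Agent.Lib.MP_afdd4d_co.K10.E6.P25
import Pool.Agent.Lib.MP_afdd4d_co.K10.E6.P26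
import Pool.Agent.Lib.MP_afdd4d_co.K10.E6.P27
import Pool.Agent.Lib.MP_afdd4d_co.K10.E6.P28
import Pool.Agent.Lib.MP_afdd4d_co.K10.E6.P29
import Pool.Agent.Lib.MP_afdd4d_co.K10.E6.P30
import Pool.Agent.Lib.MP_afdd4d_co.K10.E6.P31
import Pool.Agent.Lib.MP_afdd4d_co.K10.E6.P32

/-!
# Tables
-/

namespace Pool.Agent.Lib.MP_afdd4d_co.K10.E6

open K8

set_option maxRecDepth 100000
set_option exponentiation.threshold 10000000

/-- The slices of the chunk 132. -/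
noncomputable def c132 : List (List ℕ) := [
  [tr p98_52,
   tr p99_52,
   p132_2,
   p132_3,
   p132_4,
   p132_5,
   p132_6,
   p132_7],
  [s6_7 (s2_3 p132_2),
   s6_7 (s2_3 p132_3),
   tr p106_52,
   tr p107_52,
   p132_12,
   p132_13,
   p132_14,
   p132_15],
  [s6_7 (s2_3 p132_4),
   s6_7 (s2_3 p132_5),
   s6_7 (s2_3 p132_12),
   s6_7 (s2_3 p132_13),
   tr p112_52,
   tr p113_52,
   p132_22,
   p132_23],
  [s6_7 (s2_3 p132_6),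
   s6_7 (s2_3 p132_7),
   s6_7 (s2_3 p132_14),
   s6_7 (s2_3 p132_15),
   s6_7 (s2_3 p132_22),
   s6_7 (s2_3 p132_23),
   tr p116_52,
   tr p117_52],
  [tr p118_52,
   tr p119_52,
   p132_34,
   p132_35,
   p132_36,
   p132_37,
   p132_38,
   p132_39],
  [s6_7 (s2_3 p132_34),
   s6_7 (s2_3 p132_35),
   tr p126_52,
   tr p127_52,
   p132_44,
   p132_45,
   p132_46,
   p132_47],
  [s6_7 (s2_3 p132_36),
   s6_7 (s2_3 p132_37),
   s6_7 (s2_3 p132_44),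
   s6_7 (s2_3 p132_45),
   p132_52,
   p132_53,
   p132_54,
   p132_55],
  [s6_7 (s2_3 p132_38),
   s6_7 (s2_3 p132_39),
   s6_7 (s2_3 p132_46),
   s6_7 (s2_3 p132_47),
   s6_7 (s2_3 p132_54),
   s6_7 (s2_3 p132_55),
   p132_62,
   p132_63]]

theorem k132 : eqNN c132 (slO 64 (D.chG 20 52) 8) = true := by decide +kernel

/-- The slices of the chunk 133. -/
noncomputable def c133 : List (List ℕ) := [
  [tr p98_53,
   tr p99_53,
   p133_2,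
   p133_3,
   p133_4,
   p133_5,
   p133_6,
   p133_7],
  [s6_7 (s2_3 p133_2),
   s6_7 (s2_3 p133_3),
   tr p106_53,
   tr p107_53,
   p133_12,
   p133_13,
   p133_14,
   p133_15],
  [s6_7 (s2_3 p133_4),
   s6_7 (s2_3 p133_5),
   s6_7 (s2_3 p133_12),
   s6_7 (s2_3 p133_13),
   tr p112_53,
   tr p113_53,
   p133_22,
   p133_23],
  [s6_7 (s2_3 p133_6),
   s6_7 (s2_3 p133_7),
   s6_7 (s2_3 p133_14),
   s6_7 (s2_3 p133_15),
   s6_7 (s2_3 p133_22),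
   s6_7 (s2_3 p133_23),
   tr p116_53,
   tr p117_53],
  [tr p118_53,
   tr p119_53,
   p133_34,
   p133_35,
   p133_36,
   p133_37,
   p133_38,
   p133_39],
  [s6_7 (s2_3 p133_34),
   s6_7 (s2_3 p133_35),
   tr p126_53,
   tr p127_53,
   p133_44,
   p133_45,
   p133_46,
   p133_47],
  [s6_7 (s2_3 p133_36),
   s6_7 (s2_3 p133_37),
   s6_7 (s2_3 p133_44),
   s6_7 (s2_3 p133_45),
   tr p132_53,
   p133_53,
   p133_54,
   p133_55],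
  [s6_7 (s2_3 p133_38),
   s6_7 (s2_3 p133_39),
   s6_7 (s2_3 p133_46),
   s6_7 (s2_3 p133_47),
   s6_7 (s2_3 p133_54),
   s6_7 (s2_3 p133_55),
   p133_62,
   p133_63]]

theorem k133 : eqNN c133 (slO 64 (D.chG 20 53) 8) = true := by decide +kernel

/-- The slices of the chunk 134. -/
noncomputable def c134 : List (List ℕ) := [
  [tr p98_54,
   tr p99_54,
   tr p100_54,
   tr p101_54,
   tr p102_54,
   tr p103_54,
   tr p104_54,
   tr p105_54],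
  [s3_6 (s2_7 (s1_5 (s0_4 p100_60))),
   s3_6 (s2_7 (s1_5 (s0_4 p101_60))),
   tr p106_54,
   tr p107_54,
   tr p108_54,
   tr p109_54,
   tr p110_54,
   tr p111_54],
  [s3_6 (s2_7 (s1_5 (s0_4 p102_60))),
   s3_6 (s2_7 (s1_5 (s0_4 p103_60))),
   s3_6 (s2_7 (s1_5 (s0_4 p108_60))),
   s3_6 (s2_7 (s1_5 (s0_4 p109_60))),
   tr p112_54,
   tr p113_54,
   tr p114_54,
   tr p115_54],
  [s3_6 (s2_7 (s1_5 (s0_4 p104_60))),
   s3_6 (s2_7 (s1_5 (s0_4 p105_60))),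
   s3_6 (s2_7 (s1_5 (s0_4 p110_60))),
   s3_6 (s2_7 (s1_5 (s0_4 p111_60))),
   s3_6 (s2_7 (s1_5 (s0_4 p114_60))),
   s3_6 (s2_7 (s1_5 (s0_4 p115_60))),
   tr p116_54,
   tr p117_54],
  [tr p118_54,
   tr p119_54,
   tr p120_54,
   tr p121_54,
   tr p122_54,
   tr p123_54,
   tr p124_54,
   tr p125_54],
  [s3_6 (s2_7 (s1_5 (s0_4 p120_60))),
   s3_6 (s2_7 (s1_5 (s0_4 p121_60))),
   tr p126_54,
   tr p127_54,
   tr p128_54,
   tr p129_54,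
   tr p130_54,
   tr p131_54],
  [s3_6 (s2_7 (s1_5 (s0_4 p122_60))),
   s3_6 (s2_7 (s1_5 (s0_4 p123_60))),
   s3_6 (s2_7 (s1_5 (s0_4 p128_60))),
   s3_6 (s2_7 (s1_5 (s0_4 p129_60))),
   tr p132_54,
   tr p133_54,
   p134_54,
   p134_55],
  [s3_6 (s2_7 (s1_5 (s0_4 p124_60))),
   s3_6 (s2_7 (s1_5 (s0_4 p125_60))),
   s3_6 (s2_7 (s1_5 (s0_4 p130_60))),
   s3_6 (s2_7 (s1_5 (s0_4 p131_60))),
   p134_60,
   p134_61,
   tr p136_54,
   tr p137_54]]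

theorem k134 : eqNN c134 (slO 64 (D.chG 20 54) 8) = true := by decide +kernel

/-- The slices of the chunk 135. -/
noncomputable def c135 : List (List ℕ) := [
  [tr p98_55,
   tr p99_55,
   tr p100_55,
   tr p101_55,
   tr p102_55,
   tr p103_55,
   tr p104_55,
   tr p105_55],
  [s3_6 (s2_7 (s1_5 (s0_4 p100_61))),
   s3_6 (s2_7 (s1_5 (s0_4 p101_61))),
   tr p106_55,
   tr p107_55,
   tr p108_55,
   tr p109_55,
   tr p110_55,
   tr p111_55],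
  [s3_6 (s2_7 (s1_5 (s0_4 p102_61))),
   s3_6 (s2_7 (s1_5 (s0_4 p103_61))),
   s3_6 (s2_7 (s1_5 (s0_4 p108_61))),
   s3_6 (s2_7 (s1_5 (s0_4 p109_61))),
   tr p112_55,
   tr p113_55,
   tr p114_55,
   tr p115_55],
  [s3_6 (s2_7 (s1_5 (s0_4 p104_61))),
   s3_6 (s2_7 (s1_5 (s0_4 p105_61))),
   s3_6 (s2_7 (s1_5 (s0_4 p110_61))),
   s3_6 (s2_7 (s1_5 (s0_4 p111_61))),
   s3_6 (s2_7 (s1_5 (s0_4 p114_61))),
   s3_6 (s2_7 (s1_5 (s0_4 p115_61))),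
   tr p116_55,
   tr p117_55],
  [tr p118_55,
   tr p119_55,
   tr p120_55,
   tr p121_55,
   tr p122_55,
   tr p123_55,
   tr p124_55,
   tr p125_55],
  [s3_6 (s2_7 (s1_5 (s0_4 p120_61))),
   s3_6 (s2_7 (s1_5 (s0_4 p121_61))),
   tr p126_55,
   tr p127_55,
   tr p128_55,
   tr p129_55,
   tr p130_55,
   tr p131_55],
  [s3_6 (s2_7 (s1_5 (s0_4 p122_61))),
   s3_6 (s2_7 (s1_5 (s0_4 p123_61))),
   s3_6 (s2_7 (s1_5 (s0_4 p128_61))),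
   s3_6 (s2_7 (s1_5 (s0_4 p129_61))),
   tr p132_55,
   tr p133_55,
   tr p134_55,
   p135_55],
  [s3_6 (s2_7 (s1_5 (s0_4 p124_61))),
   s3_6 (s2_7 (s1_5 (s0_4 p125_61))),
   s3_6 (s2_7 (s1_5 (s0_4 p130_61))),
   s3_6 (s2_7 (s1_5 (s0_4 p131_61))),
   s3_6 (s2_7 (s1_5 (s0_4 p134_61))),
   p135_61,
   tr p136_55,
   tr p137_55]]

theorem k135 : eqNN c135 (slO 64 (D.chG 20 55) 8) = true := by decide +kernel

end Pool.Agent.Lib.MP_afdd4d_co.K10.E6
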