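import Pool.Agent.Lib.MP_afdd4d_co.K10.E6.Dat
import Pool.Agent.Lib.MP_afdd4d_co.K10.E6.Mk
import Pool.Agent.Lib.MP_afdd4d_co.K8.F6Bl5
import Pool.Agent.Lib.MP_afdd4d_co.K10.E6.P0
import Pool.Agent.Lib.MP_afdd4d_co.K10.E6.P1
import Pool.Agent.Lib.MP_afdd4d_co.K10.E6.P2
import Pool.Agent.Lib.MP_afdd4d_co.K10.E6.P3
import Pool.Agent.Lib.MP_afdd4d_co.K10.E6.P4
import Pool.Agent.Lib.MP_afdd4d_co.K10.E6.P5
import Pool.Agent.Lib.MP_afdd4d_co.K10.E6.P6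
import Pool.Agent.Lib.MP_afdd4d_co.K10.E6.P7
import Pool.Agent.Lib.MP_afdd4d_co.K10.E6.P8
import Pool.Agent.Lib.MP_afdd4d_co.K10.E6.P9
import Pool.Agent.Lib.MP_afdd4d_co.K10.E6.P10
import Pool.Agent.Lib.MP_afdd4d_co.K10.E6.P11
import Pool.Agent.Lib.MP_afdd4d_co.K10.E6.P12
import Pool.Agent.Lib.MP_afdd4d_co.K10.E6.P13
import Pool.Agent.Lib.MP_afdd4d_co.K10.E6.P14
import Pool.Agent.Lib.MP_afdd4d_co.K10.E6.P15
import Pool.Agent.Lib.MP_afdd4d_co.K10.E6.P16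
import Pool.Agent.Lib.MP_afdd4d_co.K10.E6.P17
import Pool.Agent.Lib.MP_afdd4d_co.K10.E6.P18
import Pool.Agent.Lib.MP_afdd4d_co.K10.E6.P19
import Pool.Agent.Lib.MP_afdd4d_co.K10.E6.P20
import Pool.Agent.Lib.MP_afdd4d_co.K10.E6.P21
import Pool.Agent.Lib.MP_afdd4d_co.K10.E6.P22
import Pool.Agent.Lib.MP_afdd4d_co.K10.E6.P23
import Pool.Agent.Lib.MP_afdd4d_co.K10.E6.P24
import Pool.Agent.Lib.MP_afdd4d_co.K10.E6.P25
import Pool.Agent.Lib.MP_afdd4d_co.K10.E6.P26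
import Pool.Agent.Lib.MP_afdd4d_co.K10.E6.P27
import Pool.Agent.Lib.MP_afdd4d_co.K10.E6.P28
import Pool.Agent.Lib.MP_afdd4d_co.K10.E6.P29
import Pool.Agent.Lib.MP_afdd4d_co.K10.E6.P30
import Pool.Agent.Lib.MP_afdd4d_co.K10.E6.P31
import Pool.Agent.Lib.MP_afdd4d_co.K10.E6.P32

/-!
# Tables
-/

namespace Pool.Agent.Lib.MP_afdd4d_co.K10.E6

open K8

set_option maxRecDepth 100000
set_option exponentiation.threshold 10000000

/-- The slices of the chunk 136. -/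
noncomputable def c136 : List (List ℕ) := [
  [tr p98_62,
   tr p99_62,
   p136_2,
   p136_3,
   p136_4,
   p136_5,
   p136_6,
   p136_7],
  [s6_7 (s2_3 p136_2),
   s6_7 (s2_3 p136_3),
   tr p106_62,
   tr p107_62,
   p136_12,
   p136_13,
   p136_14,
   p136_15],
  [s6_7 (s2_3 p136_4),
   s6_7 (s2_3 p136_5),
   s6_7 (s2_3 p136_12),
   s6_7 (s2_3 p136_13),
   tr p112_62,
   tr p113_62,
   p136_22,
   p136_23],
  [s6_7 (s2_3 p136_6),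
   s6_7 (s2_3 p136_7),
   s6_7 (s2_3 p136_14),
   s6_7 (s2_3 p136_15),
   s6_7 (s2_3 p136_22),
   s6_7 (s2_3 p136_23),
   tr p116_62,
   tr p117_62],
  [tr p118_62,
   tr p119_62,
   p136_34,
   p136_35,
   p136_36,
   p136_37,
   p136_38,
   p136_39],
  [s6_7 (s2_3 p136_34),
   s6_7 (s2_3 p136_35),
   tr p126_62,
   tr p127_62,
   p136_44,
   p136_45,
   p136_46,
   p136_47],
  [s6_7 (s2_3 p136_36),
   s6_7 (s2_3 p136_37),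
   s6_7 (s2_3 p136_44),
   s6_7 (s2_3 p136_45),
   tr p132_62,
   tr p133_62,
   p136_54,
   p136_55],
  [s6_7 (s2_3 p136_38),
   s6_7 (s2_3 p136_39),
   s6_7 (s2_3 p136_46),
   s6_7 (s2_3 p136_47),
   s6_7 (s2_3 p136_54),
   s6_7 (s2_3 p136_55),
   p136_62,
   p136_63]]

theorem k136 : eqNN c136 (slO 64 (D.chG 20 62) 8) = true := by decide +kernel

/-- The slices of the chunk 137. -/
noncomputable def c137 : List (List ℕ) := [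
  [tr p98_63,
   tr p99_63,
   p137_2,
   p137_3,
   p137_4,
   p137_5,
   p137_6,
   p137_7],
  [s6_7 (s2_3 p137_2),
   s6_7 (s2_3 p137_3),
   tr p106_63,
   tr p107_63,
   p137_12,
   p137_13,
   p137_14,
   p137_15],
  [s6_7 (s2_3 p137_4),
   s6_7 (s2_3 p137_5),
   s6_7 (s2_3 p137_12),
   s6_7 (s2_3 p137_13),
   tr p112_63,
   tr p113_63,
   p137_22,
   p137_23],
  [s6_7 (s2_3 p137_6),
   s6_7 (s2_3 p137_7),
   s6_7 (s2_3 p137_14),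
   s6_7 (s2_3 p137_15),
   s6_7 (s2_3 p137_22),
   s6_7 (s2_3 p137_23),
   tr p116_63,
   tr p117_63],
  [tr p118_63,
   tr p119_63,
   p137_34,
   p137_35,
   p137_36,
   p137_37,
   p137_38,
   p137_39],
  [s6_7 (s2_3 p137_34),
   s6_7 (s2_3 p137_35),
   tr p126_63,
   tr p127_63,
   p137_44,
   p137_45,
   p137_46,
   p137_47],
  [s6_7 (s2_3 p137_36),
   s6_7 (s2_3 p137_37),
   s6_7 (s2_3 p137_44),
   s6_7 (s2_3 p137_45),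
   tr p132_63,
   tr p133_63,
   p137_54,
   p137_55],
  [s6_7 (s2_3 p137_38),
   s6_7 (s2_3 p137_39),
   s6_7 (s2_3 p137_46),
   s6_7 (s2_3 p137_47),
   s6_7 (s2_3 p137_54),
   s6_7 (s2_3 p137_55),
   tr p136_63,
   p137_63]]

theorem k137 : eqNN c137 (slO 64 (D.chG 20 63) 8) = true := by decide +kernel

/-- The slices of the chunk 138. -/
noncomputable def c138 : List (List ℕ) := [
  [p138_0,
   tr p139_0,
   tr p140_0,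
   p138_3,
   p138_4,
   p138_5,
   p138_6,
   p138_7],
  [tr p146_0,
   p138_9,
   p138_10,
   tr p147_0,
   p138_12,
   p138_13,
   p138_14,
   p138_15],
  [p138_16,
   tr p153_0,
   tr p154_0,
   p138_19,
   p138_20,
   p138_21,
   p138_22,
   p138_23],
  [tr p160_0,
   p138_25,
   p138_26,
   tr p161_0,
   p138_28,
   p138_29,
   p138_30,
   p138_31],
  [p138_32,
   p138_33,
   p138_34,
   p138_35,
   tr p166_0,
   p138_37,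
   p138_38,
   tr p169_0],
  [p138_40,
   p138_41,
   p138_42,
   p138_43,
   p138_44,
   tr p170_0,
   tr p171_0,
   p138_47],
  [p138_48,
   p138_49,
   p138_50,
   p138_51,
   tr p172_0,
   p138_53,
   p138_54,
   tr p175_0],
  [p138_56,
   p138_57,
   p138_58,
   p138_59,
   p138_60,
   tr p176_0,
   tr p177_0,
   p138_63]]

theorem k138 : eqNN c138 (slO 64 (D.chG 21 0) 8) = true := by decide +kernel

/-- The slices of the chunk 139. -/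
noncomputable def c139 : List (List ℕ) := [
  [p139_0,
   p139_1,
   p139_2,
   p139_3,
   p139_4,
   p139_5,
   p139_6,
   p139_7],
  [p139_8,
   x6_7 (x6_5 (x6_4 (s5_7 (x2_3 (x2_1 (x2_0 (s1_3 p139_0))))))),
   x6_7 (x6_5 (x6_4 (s5_7 (x2_3 (x2_1 (x2_0 (s1_3 (n4 p139_3)))))))),
   p139_11,
   p139_12,
   p139_13,
   p139_14,
   p139_15],
  [p139_16,
   p139_17,
   p139_18,
   p139_19,
   p139_20,
   p139_21,
   p139_22,
   p139_23],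
  [p139_24,
   x6_7 (x6_5 (x6_4 (s5_7 (x2_3 (x2_1 (x2_0 (s1_3 p139_16))))))),
   x6_7 (x6_5 (x6_4 (s5_7 (x2_3 (x2_1 (x2_0 (s1_3 (n4 p139_19)))))))),
   p139_27,
   p139_28,
   p139_29,
   p139_30,
   p139_31],
  [x6_7 (x6_5 (x6_4 (s5_7 (x2_3 (x2_1 (x2_0 (s1_3 (n5 p139_28)))))))),
   x6_7 (x6_5 (x6_4 (s5_7 (x2_3 (x2_1 (x2_0 (s1_3 (n5 p139_20)))))))),
   x6_7 (x6_5 (x6_4 (s5_7 (x2_3 (x2_1 (x2_0 (s1_3 (n5 (n4 p139_23))))))))),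
   x6_7 (x6_5 (x6_4 (s5_7 (x2_3 (x2_1 (x2_0 (s1_3 (n5 (n4 p139_31))))))))),
   p139_36,
   p139_37,
   p139_38,
   p139_39],
  [x6_7 (x6_5 (x6_4 (s5_7 (x2_3 (x2_1 (x2_0 (s1_3 (n5 p139_29)))))))),
   x6_7 (x6_5 (x6_4 (s5_7 (x2_3 (x2_1 (x2_0 (s1_3 (n5 p139_21)))))))),
   x6_7 (x6_5 (x6_4 (s5_7 (x2_3 (x2_1 (x2_0 (s1_3 (n5 (n4 p139_22))))))))),
   x6_7 (x6_5 (x6_4 (s5_7 (x2_3 (x2_1 (x2_0 (s1_3 (n5 (n4 p139_30))))))))),
   x6_7 (x6_5 (x6_4 (s5_7 (x2_3 (x2_1 (x2_0 (s1_3 (n7 (n5 p139_37))))))))),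
   p139_45,
   p139_46,
   x6_7 (x6_5 (x6_4 (s5_7 (x2_3 (x2_1 (x2_0 (s1_3 (n7 (n5 (n4 p139_38))))))))))],
  [x6_7 (x6_5 (x6_4 (s5_7 (x2_3 (x2_1 (x2_0 (s1_3 (n5 p139_12)))))))),
   x6_7 (x6_5 (x6_4 (s5_7 (x2_3 (x2_1 (x2_0 (s1_3 (n5 p139_4)))))))),
   x6_7 (x6_5 (x6_4 (s5_7 (x2_3 (x2_1 (x2_0 (s1_3 (n5 (n4 p139_7))))))))),
   x6_7 (x6_5 (x6_4 (s5_7 (x2_3 (x2_1 (x2_0 (s1_3 (n5 (n4 p139_15))))))))),
   p139_52,
   p139_53,
   p139_54,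
   p139_55],
  [x6_7 (x6_5 (x6_4 (s5_7 (x2_3 (x2_1 (x2_0 (s1_3 (n5 p139_13)))))))),
   x6_7 (x6_5 (x6_4 (s5_7 (x2_3 (x2_1 (x2_0 (s1_3 (n5 p139_5)))))))),
   x6_7 (x6_5 (x6_4 (s5_7 (x2_3 (x2_1 (x2_0 (s1_3 (n5 (n4 p139_6))))))))),
   x6_7 (x6_5 (x6_4 (s5_7 (x2_3 (x2_1 (x2_0 (s1_3 (n5 (n4 p139_14))))))))),
   x6_7 (x6_5 (x6_4 (s5_7 (x2_3 (x2_1 (x2_0 (s1_3 (n7 (n5 p139_53))))))))),
   p139_61,
   p139_62,
   x6_7 (x6_5 (x6_4 (s5_7 (x2_3 (x2_1 (x2_0 (s1_3 (n7 (n5 (n4 p139_54))))))))))]]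

theorem k139 : eqNN c139 (slO 64 (D.chG 21 1) 8) = true := by decide +kernel

end Pool.Agent.Lib.MP_afdd4d_co.K10.E6
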