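import Pool.Agent.Lib.MP_afdd4d_co.K10.E6.Dat
import Pool.Agent.Lib.MP_afdd4d_co.K10.E6.Mk
import Pool.Agent.Lib.MP_afdd4d_co.K8.F6Bl5
import Pool.Agent.Lib.MP_afdd4d_co.K10.E6.P0
import Pool.Agent.Lib.MP_afdd4d_co.K10.E6.P1
import Pool.Agent.Lib.MP_afdd4d_co.K10.E6.P2
import Pool.Agent.Lib.MP_afdd4d_co.K10.E6.P3
import Pool.Agent.Lib.MP_afdd4d_co.K10.E6.P4
import Pool.Agent.Lib.MP_afdd4d_co.K10.E6.P5
import Pool.Agent.Lib.MP_afdd4d_co.K10.E6.P6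
import Pool.Agent.Lib.MP_afdd4d_co.K10.E6.P7
import Pool.Agent.Lib.MP_afdd4d_co.K10.E6.P8
import Pool.Agent.Lib.MP_afdd4d_co.K10.E6.P9
import Pool.Agent.Lib.MP_afdd4d_co.K10.E6.P10
import Pool.Agent.Lib.MP_afdd4d_co.K10.E6.P11
import Pool.Agent.Lib.MP_afdd4d_co.K10.E6.P12
import Pool.Agent.Lib.MP_afdd4d_co.K10.E6.P13
import Pool.Agent.Lib.MP_afdd4d_co.K10.E6.P14
import Pool.Agent.Lib.MP_afdd4d_co.K10.E6.P15
import Pool.Agent.Lib.MP_afdd4d_co.K10.E6.P16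
import Pool.Agent.Lib.MP_afdd4d_co.K10.E6.P17
import Pool.Agent.Lib.MP_afdd4d_co.K10.E6.P18
import Pool.Agent.Lib.MP_afdd4d_co.K10.E6.P19
import Pool.Agent.Lib.MP_afdd4d_co.K10.E6.P20
import Pool.Agent.Lib.MP_afdd4d_co.K10.E6.P21
import Pool.Agent.Lib.MP_afdd4d_co.K10.E6.P22
import Pool.Agent.Lib.MP_afdd4d_co.K10.E6.P23
import Pool.Agent.Lib.MP_afdd4d_co.K10.E6.P24
import Pool.Agent.Lib.MP_afdd4d_co.K10.E6.P25
import Pool.Agent.Lib.MP_afdd4d_co.K10.E6.P26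
import Pool.Agent.Lib.MP_afdd4d_co.K10.E6.P27
import Pool.Agent.Lib.MP_afdd4d_co.K10.E6.P28
import Pool.Agent.Lib.MP_afdd4d_co.K10.E6.P29
import Pool.Agent.Lib.MP_afdd4d_co.K10.E6.P30
import Pool.Agent.Lib.MP_afdd4d_co.K10.E6.P31
import Pool.Agent.Lib.MP_afdd4d_co.K10.E6.P32

/-!
# Tables
-/

namespace Pool.Agent.Lib.MP_afdd4d_co.K10.E6

open K8

set_option maxRecDepth 100000
set_option exponentiation.threshold 10000000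

/-- The slices of the chunk 140. -/
noncomputable def c140 : List (List ℕ) := [
  [p140_0,
   tr p139_2,
   p140_2,
   p140_3,
   p140_4,
   p140_5,
   p140_6,
   p140_7],
  [p140_8,
   x6_7 (x6_5 (x6_4 (s5_7 (x2_3 (x2_1 (x2_0 (s1_3 (n0 p140_0)))))))),
   x6_7 (x6_5 (x6_4 (s5_7 (x2_3 (x2_1 (x2_0 (s1_3 (n4 (n0 p140_3))))))))),
   p140_11,
   p140_12,
   p140_13,
   p140_14,
   p140_15],
  [p140_16,
   p140_17,
   p140_18,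
   p140_19,
   p140_20,
   p140_21,
   p140_22,
   p140_23],
  [p140_24,
   x6_7 (x6_5 (x6_4 (s5_7 (x2_3 (x2_1 (x2_0 (s1_3 (n0 p140_16)))))))),
   x6_7 (x6_5 (x6_4 (s5_7 (x2_3 (x2_1 (x2_0 (s1_3 (n4 (n0 p140_19))))))))),
   p140_27,
   p140_28,
   p140_29,
   p140_30,
   p140_31],
  [x6_7 (x6_5 (x6_4 (s5_7 (x2_3 (x2_1 (x2_0 (s1_3 (n5 (n0 p140_28))))))))),
   x6_7 (x6_5 (x6_4 (s5_7 (x2_3 (x2_1 (x2_0 (s1_3 (n5 (n0 p140_20))))))))),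
   x6_7 (x6_5 (x6_4 (s5_7 (x2_3 (x2_1 (x2_0 (s1_3 (n5 (n4 (n0 p140_23)))))))))),
   x6_7 (x6_5 (x6_4 (s5_7 (x2_3 (x2_1 (x2_0 (s1_3 (n5 (n4 (n0 p140_31)))))))))),
   p140_36,
   p140_37,
   p140_38,
   p140_39],
  [x6_7 (x6_5 (x6_4 (s5_7 (x2_3 (x2_1 (x2_0 (s1_3 (n5 (n0 p140_29))))))))),
   x6_7 (x6_5 (x6_4 (s5_7 (x2_3 (x2_1 (x2_0 (s1_3 (n5 (n0 p140_21))))))))),
   x6_7 (x6_5 (x6_4 (s5_7 (x2_3 (x2_1 (x2_0 (s1_3 (n5 (n4 (n0 p140_22)))))))))),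
   x6_7 (x6_5 (x6_4 (s5_7 (x2_3 (x2_1 (x2_0 (s1_3 (n5 (n4 (n0 p140_30)))))))))),
   x6_7 (x6_5 (x6_4 (s5_7 (x2_3 (x2_1 (x2_0 (s1_3 (n7 (n5 (n0 p140_37)))))))))),
   p140_45,
   p140_46,
   x6_7 (x6_5 (x6_4 (s5_7 (x2_3 (x2_1 (x2_0 (s1_3 (n7 (n5 (n4 (n0 p140_38)))))))))))],
  [x6_7 (x6_5 (x6_4 (s5_7 (x2_3 (x2_1 (x2_0 (s1_3 (n5 (n0 p140_12))))))))),
   x6_7 (x6_5 (x6_4 (s5_7 (x2_3 (x2_1 (x2_0 (s1_3 (n5 (n0 p140_4))))))))),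
   x6_7 (x6_5 (x6_4 (s5_7 (x2_3 (x2_1 (x2_0 (s1_3 (n5 (n4 (n0 p140_7)))))))))),
   x6_7 (x6_5 (x6_4 (s5_7 (x2_3 (x2_1 (x2_0 (s1_3 (n5 (n4 (n0 p140_15)))))))))),
   p140_52,
   p140_53,
   p140_54,
   p140_55],
  [x6_7 (x6_5 (x6_4 (s5_7 (x2_3 (x2_1 (x2_0 (s1_3 (n5 (n0 p140_13))))))))),
   x6_7 (x6_5 (x6_4 (s5_7 (x2_3 (x2_1 (x2_0 (s1_3 (n5 (n0 p140_5))))))))),
   x6_7 (x6_5 (x6_4 (s5_7 (x2_3 (x2_1 (x2_0 (s1_3 (n5 (n4 (n0 p140_6)))))))))),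
   x6_7 (x6_5 (x6_4 (s5_7 (x2_3 (x2_1 (x2_0 (s1_3 (n5 (n4 (n0 p140_14)))))))))),
   x6_7 (x6_5 (x6_4 (s5_7 (x2_3 (x2_1 (x2_0 (s1_3 (n7 (n5 (n0 p140_53)))))))))),
   p140_61,
   p140_62,
   x6_7 (x6_5 (x6_4 (s5_7 (x2_3 (x2_1 (x2_0 (s1_3 (n7 (n5 (n4 (n0 p140_54)))))))))))]]

theorem k140 : eqNN c140 (slO 64 (D.chG 21 2) 8) = true := by decide +kernel

/-- The slices of the chunk 141. -/
noncomputable def c141 : List (List ℕ) := [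
  [tr p138_3,
   tr p139_3,
   tr p140_3,
   p141_3,
   p141_4,
   p141_5,
   p141_6,
   p141_7],
  [tr p146_3,
   x6_7 (x6_5 (x6_4 (s5_6 (x3_2 (x3_1 (x3_0 (s3_6 (x2_6 (x2_1 (x2_0 (s2_5 (s1_7 (s0_4 (n4 p138_10)))))))))))))),
   p141_10,
   tr p147_3,
   p141_12,
   p141_13,
   p141_14,
   p141_15],
  [p141_16,
   tr p153_3,
   tr p154_3,
   p141_19,
   p141_20,
   p141_21,
   p141_22,
   p141_23],
  [tr p160_3,
   p141_25,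
   p141_26,
   tr p161_3,
   p141_28,
   p141_29,
   p141_30,
   p141_31],
  [p141_32,
   p141_33,
   p141_34,
   p141_35,
   tr p166_3,
   p141_37,
   p141_38,
   tr p169_3],
  [p141_40,
   p141_41,
   p141_42,
   p141_43,
   p141_44,
   tr p170_3,
   tr p171_3,
   p141_47],
  [p141_48,
   p141_49,
   p141_50,
   p141_51,
   tr p172_3,
   p141_53,
   p141_54,
   tr p175_3],
  [p141_56,
   p141_57,
   p141_58,
   p141_59,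
   p141_60,
   tr p176_3,
   tr p177_3,
   p141_63]]

theorem k141 : eqNN c141 (slO 64 (D.chG 21 3) 8) = true := by decide +kernel

/-- The slices of the chunk 142. -/
noncomputable def c142 : List (List ℕ) := [
  [tr p138_4,
   tr p139_4,
   tr p140_4,
   tr p141_4,
   p142_4,
   p142_5,
   p142_6,
   p142_7],
  [tr p146_4,
   x6_7 (x6_5 (x6_4 (s5_6 (x3_2 (x3_1 (x3_0 (s3_6 (x2_6 (x2_1 (x2_0 (s2_5 (s1_7 (s0_4 (n7 p138_49)))))))))))))),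
   x6_7 (x6_5 (x6_4 (s5_6 (x3_2 (x3_1 (x3_0 (s3_6 (x2_6 (x2_1 (x2_0 (s2_5 (s1_7 (s0_4 (n7 (n0 p141_49))))))))))))))),
   tr p147_4,
   p142_12,
   p142_13,
   p142_14,
   p142_15],
  [p142_16,
   tr p153_4,
   tr p154_4,
   p142_19,
   p142_20,
   p142_21,
   p142_22,
   p142_23],
  [tr p160_4,
   p142_25,
   p142_26,
   tr p161_4,
   p142_28,
   p142_29,
   p142_30,
   p142_31],
  [p142_32,
   p142_33,
   p142_34,
   p142_35,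
   tr p166_4,
   p142_37,
   p142_38,
   tr p169_4],
  [p142_40,
   p142_41,
   p142_42,
   p142_43,
   p142_44,
   tr p170_4,
   tr p171_4,
   p142_47],
  [p142_48,
   p142_49,
   p142_50,
   p142_51,
   tr p172_4,
   p142_53,
   p142_54,
   tr p175_4],
  [p142_56,
   p142_57,
   p142_58,
   p142_59,
   p142_60,
   tr p176_4,
   tr p177_4,
   p142_63]]

theorem k142 : eqNN c142 (slO 64 (D.chG 21 4) 8) = true := by decide +kernel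

/-- The slices of the chunk 143. -/
noncomputable def c143 : List (List ℕ) := [
  [tr p138_5,
   tr p139_5,
   tr p140_5,
   tr p141_5,
   tr p142_5,
   p143_5,
   p143_6,
   p143_7],
  [tr p146_5,
   x6_7 (x6_5 (x6_4 (s5_6 (x3_2 (x3_1 (x3_0 (s3_6 (x2_6 (x2_1 (x2_0 (s2_5 (s1_7 (s0_4 (n7 p138_57)))))))))))))),
   x6_7 (x6_5 (x6_4 (s5_6 (x3_2 (x3_1 (x3_0 (s3_6 (x2_6 (x2_1 (x2_0 (s2_5 (s1_7 (s0_4 (n7 (n0 p141_57))))))))))))))),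
   tr p147_5,
   p143_12,
   p143_13,
   p143_14,
   p143_15],
  [p143_16,
   tr p153_5,
   tr p154_5,
   p143_19,
   p143_20,
   p143_21,
   p143_22,
   p143_23],
  [tr p160_5,
   p143_25,
   p143_26,
   tr p161_5,
   p143_28,
   p143_29,
   p143_30,
   p143_31],
  [p143_32,
   p143_33,
   p143_34,
   p143_35,
   tr p166_5,
   p143_37,
   p143_38,
   tr p169_5],
  [p143_40,
   p143_41,
   p143_42,
   p143_43,
   p143_44,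
   tr p170_5,
   tr p171_5,
   p143_47],
  [p143_48,
   x6_7 (x6_5 (x6_4 (s5_6 (x3_2 (x3_1 (x3_0 (s3_6 (x2_6 (x2_1 (x2_0 (s2_5 (s1_7 (s0_4 (n7 (n1 p142_57))))))))))))))),
   p143_50,
   p143_51,
   tr p172_5,
   p143_53,
   p143_54,
   tr p175_5],
  [p143_56,
   p143_57,
   p143_58,
   p143_59,
   p143_60,
   tr p176_5,
   tr p177_5,
   p143_63]]

theorem k143 : eqNN c143 (slO 64 (D.chG 21 5) 8) = true := by decide +kernel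

end Pool.Agent.Lib.MP_afdd4d_co.K10.E6
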