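import Pool.Agent.Lib.MP_afdd4d_co.K10.E6.Dat
import Pool.Agent.Lib.MP_afdd4d_co.K10.E6.Mk
import Pool.Agent.Lib.MP_afdd4d_co.K8.F6Bl5
import Pool.Agent.Lib.MP_afdd4d_co.K10.E6.P0
import Pool.Agent.Lib.MP_afdd4d_co.K10.E6.P1
import Pool.Agent.Lib.MP_afdd4d_co.K10.E6.P2
import Pool.Agent.Lib.MP_afdd4d_co.K10.E6.P3
import Pool.Agent.Lib.MP_afdd4d_co.K10.E6.P4
import Pool.Agent.Lib.MP_afdd4d_co.K10.E6.P5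
import Pool.Agent.Lib.MP_afdd4d_co.K10.E6.P6
import Pool.Agent.Lib.MP_afdd4d_co.K10.E6.P7
import Pool.Agent.Lib.MP_afdd4d_co.K10.E6.P8
import Pool.Agent.Lib.MP_afdd4d_co.K10.E6.P9
import Pool.Agent.Lib.MP_afdd4d_co.K10.E6.P10
import Pool.Agent.Lib.MP_afdd4d_co.K10.E6.P11
import Pool.Agent.Lib.MP_afdd4d_co.K10.E6.P12
import Pool.Agent.Lib.MP_afdd4d_co.K10.E6.P13
import Pool.Agent.Lib.MP_afdd4d_co.K10.E6.P14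
import Pool.Agent.Lib.MP_afdd4d_co.K10.E6.P15
import Pool.Agent.Lib.MP_afdd4d_co.K10.E6.P16
import Pool.Agent.Lib.MP_afdd4d_co.K10.E6.P17
import Pool.Agent.Lib.MP_afdd4d_co.K10.E6.P18
import Pool.Agent.Lib.MP_afdd4d_co.K10.E6.P19
import Pool.Agent.Lib.MP_afdd4d_co.K10.E6.P20
import Pool.Agent.Lib.MP_afdd4d_co.K10.E6.P21
import Pool.Agent.Lib.MP_afdd4d_co.K10.E6.P22
import Pool.Agent.Lib.MP_afdd4d_co.K10.E6.P23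
import Pool.Agent.Lib.MP_afdd4d_co.K10.E6.P24
import Pool.Agent.Lib.MP_afdd4d_co.K10.E6.P25
import Pool.Agent.Lib.MP_afdd4d_co.K10.E6.P26
import Pool.Agent.Lib.MP_afdd4d_co.K10.E6.P27
import Pool.Agent.Lib.MP_afdd4d_co.K10.E6.P28
import Pool.Agent.Lib.MP_afdd4d_co.K10.E6.P29
import Pool.Agent.Lib.MP_afdd4d_co.K10.E6.P30
import Pool.Agent.Lib.MP_afdd4d_co.K10.E6.P31
import Pool.Agent.Lib.MP_afdd4d_co.K10.E6.P32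

/-!
# Tables
-/

namespace Pool.Agent.Lib.MP_afdd4d_co.K10.E6

open K8

set_option maxRecDepth 100000
set_option exponentiation.threshold 10000000

/-- The slices of the chunk 144. -/
noncomputable def c144 : List (List ℕ) := [
  [tr p138_6,
   tr p139_6,
   tr p140_6,
   tr p141_6,
   tr p142_6,
   tr p143_6,
   p144_6,
   p144_7],
  [tr p146_6,
   x6_7 (x6_5 (x6_4 (s5_6 (x3_2 (x3_1 (x3_0 (s3_6 (x2_6 (x2_1 (x2_0 (s2_5 (s1_7 (s0_4 (n7 (n4 p138_58))))))))))))))),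
   x6_7 (x6_5 (x6_4 (s5_6 (x3_2 (x3_1 (x3_0 (s3_6 (x2_6 (x2_1 (x2_0 (s2_5 (s1_7 (s0_4 (n7 (n4 (n0 p141_58)))))))))))))))),
   tr p147_6,
   p144_12,
   p144_13,
   p144_14,
   p144_15],
  [p144_16,
   tr p153_6,
   tr p154_6,
   p144_19,
   p144_20,
   p144_21,
   p144_22,
   p144_23],
  [tr p160_6,
   p144_25,
   p144_26,
   tr p161_6,
   p144_28,
   p144_29,
   p144_30,
   p144_31],
  [p144_32,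
   p144_33,
   p144_34,
   p144_35,
   tr p166_6,
   p144_37,
   p144_38,
   tr p169_6],
  [p144_40,
   p144_41,
   p144_42,
   p144_43,
   p144_44,
   tr p170_6,
   tr p171_6,
   p144_47],
  [p144_48,
   x6_7 (x6_5 (x6_4 (s5_6 (x3_2 (x3_1 (x3_0 (s3_6 (x2_6 (x2_1 (x2_0 (s2_5 (s1_7 (s0_4 (n7 (n4 (n1 p142_58)))))))))))))))),
   p144_50,
   p144_51,
   tr p172_6,
   p144_53,
   p144_54,
   tr p175_6],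
  [p144_56,
   x6_7 (x6_5 (x6_4 (s5_6 (x3_2 (x3_1 (x3_0 (s3_6 (x2_6 (x2_1 (x2_0 (s2_5 (s1_7 (s0_4 (n7 (n4 (n1 p143_58)))))))))))))))),
   p144_58,
   p144_59,
   p144_60,
   tr p176_6,
   tr p177_6,
   p144_63]]

theorem k144 : eqNN c144 (slO 64 (D.chG 21 6) 8) = true := by decide +kernel

/-- The slices of the chunk 145. -/
noncomputable def c145 : List (List ℕ) := [
  [tr p138_7,
   tr p139_7,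
   tr p140_7,
   tr p141_7,
   tr p142_7,
   tr p143_7,
   tr p144_7,
   p145_7],
  [tr p146_7,
   x6_7 (x6_5 (x6_4 (s5_6 (x3_2 (x3_1 (x3_0 (s3_6 (x2_6 (x2_1 (x2_0 (s2_5 (s1_7 (s0_4 (n7 (n4 p138_50))))))))))))))),
   x6_7 (x6_5 (x6_4 (s5_6 (x3_2 (x3_1 (x3_0 (s3_6 (x2_6 (x2_1 (x2_0 (s2_5 (s1_7 (s0_4 (n7 (n4 (n0 p141_50)))))))))))))))),
   tr p147_7,
   p145_12,
   p145_13,
   p145_14,
   p145_15],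
  [p145_16,
   tr p153_7,
   tr p154_7,
   p145_19,
   p145_20,
   p145_21,
   p145_22,
   p145_23],
  [tr p160_7,
   p145_25,
   p145_26,
   tr p161_7,
   p145_28,
   p145_29,
   p145_30,
   p145_31],
  [p145_32,
   p145_33,
   p145_34,
   p145_35,
   tr p166_7,
   p145_37,
   p145_38,
   tr p169_7],
  [p145_40,
   p145_41,
   p145_42,
   p145_43,
   p145_44,
   tr p170_7,
   tr p171_7,
   p145_47],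
  [p145_48,
   x6_7 (x6_5 (x6_4 (s5_6 (x3_2 (x3_1 (x3_0 (s3_6 (x2_6 (x2_1 (x2_0 (s2_5 (s1_7 (s0_4 (n7 (n4 (n1 p142_50)))))))))))))))),
   p145_50,
   p145_51,
   tr p172_7,
   p145_53,
   p145_54,
   tr p175_7],
  [p145_56,
   x6_7 (x6_5 (x6_4 (s5_6 (x3_2 (x3_1 (x3_0 (s3_6 (x2_6 (x2_1 (x2_0 (s2_5 (s1_7 (s0_4 (n7 (n4 (n1 p143_50)))))))))))))))),
   x6_7 (x6_5 (x6_4 (s5_6 (x3_2 (x3_1 (x3_0 (s3_6 (x2_6 (x2_1 (x2_0 (s2_5 (s1_7 (s0_4 (n7 (n4 (n1 (n0 p144_50))))))))))))))))),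
   p145_59,
   p145_60,
   tr p176_7,
   tr p177_7,
   p145_63]]

theorem k145 : eqNN c145 (slO 64 (D.chG 21 7) 8) = true := by decide +kernel

/-- The slices of the chunk 146. -/
noncomputable def c146 : List (List ℕ) := [
  [p146_0,
   tr p139_8,
   tr p140_8,
   p146_3,
   p146_4,
   p146_5,
   p146_6,
   p146_7],
  [p146_8,
   x6_7 (x6_5 (x6_4 (s5_7 (x2_3 (x2_1 (x2_0 (s1_3 p146_0))))))),
   x6_7 (x6_5 (x6_4 (s5_7 (x2_3 (x2_1 (x2_0 (s1_3 (n4 p146_3)))))))),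
   p146_11,
   p146_12,
   p146_13,
   p146_14,
   p146_15],
  [p146_16,
   p146_17,
   p146_18,
   p146_19,
   p146_20,
   p146_21,
   p146_22,
   p146_23],
  [p146_24,
   x6_7 (x6_5 (x6_4 (s5_7 (x2_3 (x2_1 (x2_0 (s1_3 p146_16))))))),
   x6_7 (x6_5 (x6_4 (s5_7 (x2_3 (x2_1 (x2_0 (s1_3 (n4 p146_19)))))))),
   p146_27,
   p146_28,
   p146_29,
   p146_30,
   p146_31],
  [x6_7 (x6_5 (x6_4 (s5_7 (x2_3 (x2_1 (x2_0 (s1_3 (n5 p146_28)))))))),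
   x6_7 (x6_5 (x6_4 (s5_7 (x2_3 (x2_1 (x2_0 (s1_3 (n5 p146_20)))))))),
   x6_7 (x6_5 (x6_4 (s5_7 (x2_3 (x2_1 (x2_0 (s1_3 (n5 (n4 p146_23))))))))),
   x6_7 (x6_5 (x6_4 (s5_7 (x2_3 (x2_1 (x2_0 (s1_3 (n5 (n4 p146_31))))))))),
   p146_36,
   p146_37,
   p146_38,
   p146_39],
  [x6_7 (x6_5 (x6_4 (s5_7 (x2_3 (x2_1 (x2_0 (s1_3 (n5 p146_29)))))))),
   x6_7 (x6_5 (x6_4 (s5_7 (x2_3 (x2_1 (x2_0 (s1_3 (n5 p146_21)))))))),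
   x6_7 (x6_5 (x6_4 (s5_7 (x2_3 (x2_1 (x2_0 (s1_3 (n5 (n4 p146_22))))))))),
   x6_7 (x6_5 (x6_4 (s5_7 (x2_3 (x2_1 (x2_0 (s1_3 (n5 (n4 p146_30))))))))),
   x6_7 (x6_5 (x6_4 (s5_7 (x2_3 (x2_1 (x2_0 (s1_3 (n7 (n5 p146_37))))))))),
   p146_45,
   p146_46,
   x6_7 (x6_5 (x6_4 (s5_7 (x2_3 (x2_1 (x2_0 (s1_3 (n7 (n5 (n4 p146_38))))))))))],
  [x6_7 (x6_5 (x6_4 (s5_7 (x2_3 (x2_1 (x2_0 (s1_3 (n5 p146_12)))))))),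
   x6_7 (x6_5 (x6_4 (s5_7 (x2_3 (x2_1 (x2_0 (s1_3 (n5 p146_4)))))))),
   x6_7 (x6_5 (x6_4 (s5_7 (x2_3 (x2_1 (x2_0 (s1_3 (n5 (n4 p146_7))))))))),
   x6_7 (x6_5 (x6_4 (s5_7 (x2_3 (x2_1 (x2_0 (s1_3 (n5 (n4 p146_15))))))))),
   p146_52,
   p146_53,
   p146_54,
   p146_55],
  [x6_7 (x6_5 (x6_4 (s5_7 (x2_3 (x2_1 (x2_0 (s1_3 (n5 p146_13)))))))),
   x6_7 (x6_5 (x6_4 (s5_7 (x2_3 (x2_1 (x2_0 (s1_3 (n5 p146_5)))))))),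
   x6_7 (x6_5 (x6_4 (s5_7 (x2_3 (x2_1 (x2_0 (s1_3 (n5 (n4 p146_6))))))))),
   x6_7 (x6_5 (x6_4 (s5_7 (x2_3 (x2_1 (x2_0 (s1_3 (n5 (n4 p146_14))))))))),
   x6_7 (x6_5 (x6_4 (s5_7 (x2_3 (x2_1 (x2_0 (s1_3 (n7 (n5 p146_53))))))))),
   p146_61,
   p146_62,
   x6_7 (x6_5 (x6_4 (s5_7 (x2_3 (x2_1 (x2_0 (s1_3 (n7 (n5 (n4 p146_54))))))))))]]

theorem k146 : eqNN c146 (slO 64 (D.chG 21 8) 8) = true := by decide +kernel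

/-- The slices of the chunk 147. -/
noncomputable def c147 : List (List ℕ) := [
  [p147_0,
   tr p139_11,
   tr p140_11,
   p147_3,
   p147_4,
   p147_5,
   p147_6,
   p147_7],
  [tr p146_11,
   x6_7 (x6_5 (x6_4 (s5_7 (x2_3 (x2_1 (x2_0 (s1_3 (n0 p147_0)))))))),
   x6_7 (x6_5 (x6_4 (s5_7 (x2_3 (x2_1 (x2_0 (s1_3 (n4 (n0 p147_3))))))))),
   p147_11,
   p147_12,
   p147_13,
   p147_14,
   p147_15],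
  [p147_16,
   p147_17,
   p147_18,
   p147_19,
   p147_20,
   p147_21,
   p147_22,
   p147_23],
  [p147_24,
   x6_7 (x6_5 (x6_4 (s5_7 (x2_3 (x2_1 (x2_0 (s1_3 (n0 p147_16)))))))),
   x6_7 (x6_5 (x6_4 (s5_7 (x2_3 (x2_1 (x2_0 (s1_3 (n4 (n0 p147_19))))))))),
   p147_27,
   p147_28,
   p147_29,
   p147_30,
   p147_31],
  [x6_7 (x6_5 (x6_4 (s5_7 (x2_3 (x2_1 (x2_0 (s1_3 (n5 (n0 p147_28))))))))),
   x6_7 (x6_5 (x6_4 (s5_7 (x2_3 (x2_1 (x2_0 (s1_3 (n5 (n0 p147_20))))))))),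
   x6_7 (x6_5 (x6_4 (s5_7 (x2_3 (x2_1 (x2_0 (s1_3 (n5 (n4 (n0 p147_23)))))))))),
   x6_7 (x6_5 (x6_4 (s5_7 (x2_3 (x2_1 (x2_0 (s1_3 (n5 (n4 (n0 p147_31)))))))))),
   p147_36,
   p147_37,
   p147_38,
   p147_39],
  [x6_7 (x6_5 (x6_4 (s5_7 (x2_3 (x2_1 (x2_0 (s1_3 (n5 (n0 p147_29))))))))),
   x6_7 (x6_5 (x6_4 (s5_7 (x2_3 (x2_1 (x2_0 (s1_3 (n5 (n0 p147_21))))))))),
   x6_7 (x6_5 (x6_4 (s5_7 (x2_3 (x2_1 (x2_0 (s1_3 (n5 (n4 (n0 p147_22)))))))))),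
   x6_7 (x6_5 (x6_4 (s5_7 (x2_3 (x2_1 (x2_0 (s1_3 (n5 (n4 (n0 p147_30)))))))))),
   x6_7 (x6_5 (x6_4 (s5_7 (x2_3 (x2_1 (x2_0 (s1_3 (n7 (n5 (n0 p147_37)))))))))),
   p147_45,
   p147_46,
   x6_7 (x6_5 (x6_4 (s5_7 (x2_3 (x2_1 (x2_0 (s1_3 (n7 (n5 (n4 (n0 p147_38)))))))))))],
  [x6_7 (x6_5 (x6_4 (s5_7 (x2_3 (x2_1 (x2_0 (s1_3 (n5 (n0 p147_12))))))))),
   x6_7 (x6_5 (x6_4 (s5_7 (x2_3 (x2_1 (x2_0 (s1_3 (n5 (n0 p147_4))))))))),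
   x6_7 (x6_5 (x6_4 (s5_7 (x2_3 (x2_1 (x2_0 (s1_3 (n5 (n4 (n0 p147_7)))))))))),
   x6_7 (x6_5 (x6_4 (s5_7 (x2_3 (x2_1 (x2_0 (s1_3 (n5 (n4 (n0 p147_15)))))))))),
   p147_52,
   p147_53,
   p147_54,
   p147_55],
  [x6_7 (x6_5 (x6_4 (s5_7 (x2_3 (x2_1 (x2_0 (s1_3 (n5 (n0 p147_13))))))))),
   x6_7 (x6_5 (x6_4 (s5_7 (x2_3 (x2_1 (x2_0 (s1_3 (n5 (n0 p147_5))))))))),
   x6_7 (x6_5 (x6_4 (s5_7 (x2_3 (x2_1 (x2_0 (s1_3 (n5 (n4 (n0 p147_6)))))))))),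
   x6_7 (x6_5 (x6_4 (s5_7 (x2_3 (x2_1 (x2_0 (s1_3 (n5 (n4 (n0 p147_14)))))))))),
   x6_7 (x6_5 (x6_4 (s5_7 (x2_3 (x2_1 (x2_0 (s1_3 (n7 (n5 (n0 p147_53)))))))))),
   p147_61,
   p147_62,
   x6_7 (x6_5 (x6_4 (s5_7 (x2_3 (x2_1 (x2_0 (s1_3 (n7 (n5 (n4 (n0 p147_54)))))))))))]]

theorem k147 : eqNN c147 (slO 64 (D.chG 21 11) 8) = true := by decide +kernel

end Pool.Agent.Lib.MP_afdd4d_co.K10.E6
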