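import Pool.Agent.Lib.MP_afdd4d_co.K10.E6.Dat
import Pool.Agent.Lib.MP_afdd4d_co.K10.E6.Mk
import Pool.Agent.Lib.MP_afdd4d_co.K8.F6Bl5
import Pool.Agent.Lib.MP_afdd4d_co.K10.E6.P0
import Pool.Agent.Lib.MP_afdd4d_co.K10.E6.P1
import Pool.Agent.Lib.MP_afdd4d_co.K10.E6.P2
import Pool.Agent.Lib.MP_afdd4d_co.K10.E6.P3
import Pool.Agent.Lib.MP_afdd4d_co.K10.E6.P4
import Pool.Agent.Lib.MP_afdd4d_co.K10.E6.P5
import Pool.Agent.Lib.MP_afdd4d_co.K10.E6.P6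
import Pool.Agent.Lib.MP_afdd4d_co.K10.E6.P7
import Pool.Agent.Lib.MP_afdd4d_co.K10.E6.P8
import Pool.Agent.Lib.MP_afdd4d_co.K10.E6.P9
import Pool.Agent.Lib.MP_afdd4d_co.K10.E6.P10
import Pool.Agent.Lib.MP_afdd4d_co.K10.E6.P11
import Pool.Agent.Lib.MP_afdd4d_co.K10.E6.P12
import Pool.Agent.Lib.MP_afdd4d_co.K10.E6.P13
import Pool.Agent.Lib.MP_afdd4d_co.K10.E6.P14
import Pool.Agent.Lib.MP_afdd4d_co.K10.E6.P15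
import Pool.Agent.Lib.MP_afdd4d_co.K10.E6.P16
import Pool.Agent.Lib.MP_afdd4d_co.K10.E6.P17
import Pool.Agent.Lib.MP_afdd4d_co.K10.E6.P18
import Pool.Agent.Lib.MP_afdd4d_co.K10.E6.P19
import Pool.Agent.Lib.MP_afdd4d_co.K10.E6.P20
import Pool.Agent.Lib.MP_afdd4d_co.K10.E6.P21
import Pool.Agent.Lib.MP_afdd4d_co.K10.E6.P22
import Pool.Agent.Lib.MP_afdd4d_co.K10.E6.P23
import Pool.Agent.Lib.MP_afdd4d_co.K10.E6.P24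
import Pool.Agent.Lib.MP_afdd4d_co.K10.E6.P25
import Pool.Agent.Lib.MP_afdd4d_co.K10.E6.P26
import Pool.Agent.Lib.MP_afdd4d_co.K10.E6.P27
import Pool.Agent.Lib.MP_afdd4d_co.K10.E6.P28
import Pool.Agent.Lib.MP_afdd4d_co.K10.E6.P29
import Pool.Agent.Lib.MP_afdd4d_co.K10.E6.P30
import Pool.Agent.Lib.MP_afdd4d_co.K10.E6.P31
import Pool.Agent.Lib.MP_afdd4d_co.K10.E6.P32

/-!
# Tables
-/

namespace Pool.Agent.Lib.MP_afdd4d_co.K10.E6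

open K8

set_option maxRecDepth 100000
set_option exponentiation.threshold 10000000

/-- The slices of the chunk 148. -/
noncomputable def c148 : List (List ℕ) := [
  [tr p138_12,
   tr p139_12,
   tr p140_12,
   tr p141_12,
   tr p142_12,
   tr p143_12,
   tr p144_12,
   tr p145_12],
  [tr p146_12,
   x6_7 (x6_5 (x6_4 (s5_6 (x3_2 (x3_1 (x3_0 (s3_6 (x2_6 (x2_1 (x2_0 (s2_5 (s1_7 (s0_4 (n7 p138_48)))))))))))))),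
   x6_7 (x6_5 (x6_4 (s5_6 (x3_2 (x3_1 (x3_0 (s3_6 (x2_6 (x2_1 (x2_0 (s2_5 (s1_7 (s0_4 (n7 (n0 p141_48))))))))))))))),
   tr p147_12,
   p148_12,
   p148_13,
   p148_14,
   p148_15],
  [p148_16,
   tr p153_12,
   tr p154_12,
   p148_19,
   p148_20,
   p148_21,
   p148_22,
   p148_23],
  [tr p160_12,
   p148_25,
   p148_26,
   tr p161_12,
   p148_28,
   p148_29,
   p148_30,
   p148_31],
  [p148_32,
   p148_33,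
   p148_34,
   p148_35,
   tr p166_12,
   p148_37,
   p148_38,
   tr p169_12],
  [p148_40,
   p148_41,
   p148_42,
   p148_43,
   p148_44,
   tr p170_12,
   tr p171_12,
   p148_47],
  [p148_48,
   x6_7 (x6_5 (x6_4 (s5_6 (x3_2 (x3_1 (x3_0 (s3_6 (x2_6 (x2_1 (x2_0 (s2_5 (s1_7 (s0_4 (n7 (n1 p142_48))))))))))))))),
   x6_7 (x6_5 (x6_4 (s5_6 (x3_2 (x3_1 (x3_0 (s3_6 (x2_6 (x2_1 (x2_0 (s2_5 (s1_7 (s0_4 (n7 (n1 (n0 p145_48)))))))))))))))),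
   p148_51,
   tr p172_12,
   p148_53,
   p148_54,
   tr p175_12],
  [p148_56,
   x6_7 (x6_5 (x6_4 (s5_6 (x3_2 (x3_1 (x3_0 (s3_6 (x2_6 (x2_1 (x2_0 (s2_5 (s1_7 (s0_4 (n7 (n1 p143_48))))))))))))))),
   x6_7 (x6_5 (x6_4 (s5_6 (x3_2 (x3_1 (x3_0 (s3_6 (x2_6 (x2_1 (x2_0 (s2_5 (s1_7 (s0_4 (n7 (n1 (n0 p144_48)))))))))))))))),
   p148_59,
   p148_60,
   tr p176_12,
   tr p177_12,
   p148_63]]

theorem k148 : eqNN c148 (slO 64 (D.chG 21 12) 8) = true := by decide +kernel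

/-- The slices of the chunk 149. -/
noncomputable def c149 : List (List ℕ) := [
  [tr p138_13,
   tr p139_13,
   tr p140_13,
   tr p141_13,
   tr p142_13,
   tr p143_13,
   tr p144_13,
   tr p145_13],
  [tr p146_13,
   x6_7 (x6_5 (x6_4 (s5_6 (x3_2 (x3_1 (x3_0 (s3_6 (x2_6 (x2_1 (x2_0 (s2_5 (s1_7 (s0_4 (n7 p138_56)))))))))))))),
   x6_7 (x6_5 (x6_4 (s5_6 (x3_2 (x3_1 (x3_0 (s3_6 (x2_6 (x2_1 (x2_0 (s2_5 (s1_7 (s0_4 (n7 (n0 p141_56))))))))))))))),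
   tr p147_13,
   tr p148_13,
   p149_13,
   p149_14,
   p149_15],
  [p149_16,
   tr p153_13,
   tr p154_13,
   p149_19,
   p149_20,
   p149_21,
   p149_22,
   p149_23],
  [tr p160_13,
   p149_25,
   p149_26,
   tr p161_13,
   p149_28,
   p149_29,
   p149_30,
   p149_31],
  [p149_32,
   p149_33,
   p149_34,
   p149_35,
   tr p166_13,
   p149_37,
   p149_38,
   tr p169_13],
  [p149_40,
   p149_41,
   p149_42,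
   p149_43,
   p149_44,
   tr p170_13,
   tr p171_13,
   p149_47],
  [x6_7 (x6_5 (x6_4 (s5_6 (x3_2 (x3_1 (x3_0 (s3_6 (x2_6 (x2_1 (x2_0 (s2_5 (s1_7 (s0_4 (n7 (n1 p148_56))))))))))))))),
   x6_7 (x6_5 (x6_4 (s5_6 (x3_2 (x3_1 (x3_0 (s3_6 (x2_6 (x2_1 (x2_0 (s2_5 (s1_7 (s0_4 (n7 (n1 p142_56))))))))))))))),
   x6_7 (x6_5 (x6_4 (s5_6 (x3_2 (x3_1 (x3_0 (s3_6 (x2_6 (x2_1 (x2_0 (s2_5 (s1_7 (s0_4 (n7 (n1 (n0 p145_56)))))))))))))))),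
   p149_51,
   tr p172_13,
   p149_53,
   p149_54,
   tr p175_13],
  [p149_56,
   x6_7 (x6_5 (x6_4 (s5_6 (x3_2 (x3_1 (x3_0 (s3_6 (x2_6 (x2_1 (x2_0 (s2_5 (s1_7 (s0_4 (n7 (n1 p143_56))))))))))))))),
   x6_7 (x6_5 (x6_4 (s5_6 (x3_2 (x3_1 (x3_0 (s3_6 (x2_6 (x2_1 (x2_0 (s2_5 (s1_7 (s0_4 (n7 (n1 (n0 p144_56)))))))))))))))),
   p149_59,
   p149_60,
   tr p176_13,
   tr p177_13,
   p149_63]]

theorem k149 : eqNN c149 (slO 64 (D.chG 21 13) 8) = true := by decide +kernel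

/-- The slices of the chunk 150. -/
noncomputable def c150 : List (List ℕ) := [
  [tr p138_14,
   tr p139_14,
   tr p140_14,
   tr p141_14,
   tr p142_14,
   tr p143_14,
   tr p144_14,
   tr p145_14],
  [tr p146_14,
   x6_7 (x6_5 (x6_4 (s5_6 (x3_2 (x3_1 (x3_0 (s3_6 (x2_6 (x2_1 (x2_0 (s2_5 (s1_7 (s0_4 (n7 (n4 p138_59))))))))))))))),
   x6_7 (x6_5 (x6_4 (s5_6 (x3_2 (x3_1 (x3_0 (s3_6 (x2_6 (x2_1 (x2_0 (s2_5 (s1_7 (s0_4 (n7 (n4 (n0 p141_59)))))))))))))))),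
   tr p147_14,
   tr p148_14,
   tr p149_14,
   p150_14,
   p150_15],
  [p150_16,
   tr p153_14,
   tr p154_14,
   p150_19,
   p150_20,
   p150_21,
   p150_22,
   p150_23],
  [tr p160_14,
   p150_25,
   p150_26,
   tr p161_14,
   p150_28,
   p150_29,
   p150_30,
   p150_31],
  [p150_32,
   p150_33,
   p150_34,
   p150_35,
   tr p166_14,
   p150_37,
   p150_38,
   tr p169_14],
  [p150_40,
   p150_41,
   p150_42,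
   p150_43,
   p150_44,
   tr p170_14,
   tr p171_14,
   p150_47],
  [x6_7 (x6_5 (x6_4 (s5_6 (x3_2 (x3_1 (x3_0 (s3_6 (x2_6 (x2_1 (x2_0 (s2_5 (s1_7 (s0_4 (n7 (n4 (n1 p148_59)))))))))))))))),
   x6_7 (x6_5 (x6_4 (s5_6 (x3_2 (x3_1 (x3_0 (s3_6 (x2_6 (x2_1 (x2_0 (s2_5 (s1_7 (s0_4 (n7 (n4 (n1 p142_59)))))))))))))))),
   x6_7 (x6_5 (x6_4 (s5_6 (x3_2 (x3_1 (x3_0 (s3_6 (x2_6 (x2_1 (x2_0 (s2_5 (s1_7 (s0_4 (n7 (n4 (n1 (n0 p145_59))))))))))))))))),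
   p150_51,
   tr p172_14,
   p150_53,
   p150_54,
   tr p175_14],
  [x6_7 (x6_5 (x6_4 (s5_6 (x3_2 (x3_1 (x3_0 (s3_6 (x2_6 (x2_1 (x2_0 (s2_5 (s1_7 (s0_4 (n7 (n4 (n1 p149_59)))))))))))))))),
   x6_7 (x6_5 (x6_4 (s5_6 (x3_2 (x3_1 (x3_0 (s3_6 (x2_6 (x2_1 (x2_0 (s2_5 (s1_7 (s0_4 (n7 (n4 (n1 p143_59)))))))))))))))),
   x6_7 (x6_5 (x6_4 (s5_6 (x3_2 (x3_1 (x3_0 (s3_6 (x2_6 (x2_1 (x2_0 (s2_5 (s1_7 (s0_4 (n7 (n4 (n1 (n0 p144_59))))))))))))))))),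
   p150_59,
   p150_60,
   tr p176_14,
   tr p177_14,
   p150_63]]

theorem k150 : eqNN c150 (slO 64 (D.chG 21 14) 8) = true := by decide +kernel

/-- The slices of the chunk 151. -/
noncomputable def c151 : List (List ℕ) := [
  [tr p138_15,
   tr p139_15,
   tr p140_15,
   tr p141_15,
   tr p142_15,
   tr p143_15,
   tr p144_15,
   tr p145_15],
  [tr p146_15,
   x6_7 (x6_5 (x6_4 (s5_6 (x3_2 (x3_1 (x3_0 (s3_6 (x2_6 (x2_1 (x2_0 (s2_5 (s1_7 (s0_4 (n7 (n4 p138_51))))))))))))))),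
   x6_7 (x6_5 (x6_4 (s5_6 (x3_2 (x3_1 (x3_0 (s3_6 (x2_6 (x2_1 (x2_0 (s2_5 (s1_7 (s0_4 (n7 (n4 (n0 p141_51)))))))))))))))),
   tr p147_15,
   tr p148_15,
   tr p149_15,
   tr p150_15,
   p151_15],
  [p151_16,
   tr p153_15,
   tr p154_15,
   p151_19,
   p151_20,
   p151_21,
   p151_22,
   p151_23],
  [tr p160_15,
   p151_25,
   p151_26,
   tr p161_15,
   p151_28,
   p151_29,
   p151_30,
   p151_31],
  [p151_32,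
   p151_33,
   p151_34,
   p151_35,
   tr p166_15,
   p151_37,
   p151_38,
   tr p169_15],
  [p151_40,
   p151_41,
   p151_42,
   p151_43,
   p151_44,
   tr p170_15,
   tr p171_15,
   p151_47],
  [x6_7 (x6_5 (x6_4 (s5_6 (x3_2 (x3_1 (x3_0 (s3_6 (x2_6 (x2_1 (x2_0 (s2_5 (s1_7 (s0_4 (n7 (n4 (n1 p148_51)))))))))))))))),
   x6_7 (x6_5 (x6_4 (s5_6 (x3_2 (x3_1 (x3_0 (s3_6 (x2_6 (x2_1 (x2_0 (s2_5 (s1_7 (s0_4 (n7 (n4 (n1 p142_51)))))))))))))))),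
   x6_7 (x6_5 (x6_4 (s5_6 (x3_2 (x3_1 (x3_0 (s3_6 (x2_6 (x2_1 (x2_0 (s2_5 (s1_7 (s0_4 (n7 (n4 (n1 (n0 p145_51))))))))))))))))),
   p151_51,
   tr p172_15,
   p151_53,
   p151_54,
   tr p175_15],
  [x6_7 (x6_5 (x6_4 (s5_6 (x3_2 (x3_1 (x3_0 (s3_6 (x2_6 (x2_1 (x2_0 (s2_5 (s1_7 (s0_4 (n7 (n4 (n1 p149_51)))))))))))))))),
   x6_7 (x6_5 (x6_4 (s5_6 (x3_2 (x3_1 (x3_0 (s3_6 (x2_6 (x2_1 (x2_0 (s2_5 (s1_7 (s0_4 (n7 (n4 (n1 p143_51)))))))))))))))),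
   x6_7 (x6_5 (x6_4 (s5_6 (x3_2 (x3_1 (x3_0 (s3_6 (x2_6 (x2_1 (x2_0 (s2_5 (s1_7 (s0_4 (n7 (n4 (n1 (n0 p144_51))))))))))))))))),
   x6_7 (x6_5 (x6_4 (s5_6 (x3_2 (x3_1 (x3_0 (s3_6 (x2_6 (x2_1 (x2_0 (s2_5 (s1_7 (s0_4 (n7 (n4 (n1 (n0 p150_51))))))))))))))))),
   p151_60,
   tr p176_15,
   tr p177_15,
   p151_63]]

theorem k151 : eqNN c151 (slO 64 (D.chG 21 15) 8) = true := by decide +kernel

end Pool.Agent.Lib.MP_afdd4d_co.K10.E6
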