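import Pool.Agent.Lib.MP_afdd4d_co.K10.E6.Dat
import Pool.Agent.Lib.MP_afdd4d_co.K10.E6.Mk
import Pool.Agent.Lib.MP_afdd4d_co.K8.F6Bl5
import Pool.Agent.Lib.MP_afdd4d_co.K10.E6.P0
import Pool.Agent.Lib.MP_afdd4d_co.K10.E6.P1
import Pool.Agent.Lib.MP_afdd4d_co.K10.E6.P2
import Pool.Agent.Lib.MP_afdd4d_co.K10.E6.P3
import Pool.Agent.Lib.MP_afdd4d_co.K10.E6.P4
import Pool.Agent.Lib.MP_afdd4d_co.K10.E6.P5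
import Pool.Agent.Lib.MP_afdd4d_co.K10.E6.P6
import Pool.Agent.Lib.MP_afdd4d_co.K10.E6.P7
import Pool.Agent.Lib.MP_afdd4d_co.K10.E6.P8
import Pool.Agent.Lib.MP_afdd4d_co.K10.E6.P9
import Pool.Agent.Lib.MP_afdd4d_co.K10.E6.P10
import Pool.Agent.Lib.MP_afdd4d_co.K10.E6.P11
import Pool.Agent.Lib.MP_afdd4d_co.K10.E6.P12
import Pool.Agent.Lib.MP_afdd4d_co.K10.E6.P13
import Pool.Agent.Lib.MP_afdd4d_co.K10.E6.P14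
import Pool.Agent.Lib.MP_afdd4d_co.K10.E6.P15
import Pool.Agent.Lib.MP_afdd4d_co.K10.E6.P16
import Pool.Agent.Lib.MP_afdd4d_co.K10.E6.P17
import Pool.Agent.Lib.MP_afdd4d_co.K10.E6.P18
import Pool.Agent.Lib.MP_afdd4d_co.K10.E6.P19
import Pool.Agent.Lib.MP_afdd4d_co.K10.E6.P20
import Pool.Agent.Lib.MP_afdd4d_co.K10.E6.P21
import Pool.Agent.Lib.MP_afdd4d_co.K10.E6.P22
import Pool.Agent.Lib.MP_afdd4d_co.K10.E6.P23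
import Pool.Agent.Lib.MP_afdd4d_co.K10.E6.P24
import Pool.Agent.Lib.MP_afdd4d_co.K10.E6.P25
import Pool.Agent.Lib.MP_afdd4d_co.K10.E6.P26
import Pool.Agent.Lib.MP_afdd4d_co.K10.E6.P27
import Pool.Agent.Lib.MP_afdd4d_co.K10.E6.P28
import Pool.Agent.Lib.MP_afdd4d_co.K10.E6.P29
import Pool.Agent.Lib.MP_afdd4d_co.K10.E6.P30
import Pool.Agent.Lib.MP_afdd4d_co.K10.E6.P31
import Pool.Agent.Lib.MP_afdd4d_co.K10.E6.P32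

/-!
# Tables
-/

namespace Pool.Agent.Lib.MP_afdd4d_co.K10.E6

open K8

set_option maxRecDepth 100000
set_option exponentiation.threshold 10000000

/-- The slices of the chunk 152. -/
noncomputable def c152 : List (List ℕ) := [
  [tr p138_16,
   tr p139_16,
   tr p140_16,
   tr p141_16,
   tr p142_16,
   tr p143_16,
   tr p144_16,
   tr p145_16],
  [tr p146_16,
   x6_7 (x6_5 (x6_4 (s5_6 (x3_2 (x3_1 (x3_0 (s3_6 (x2_6 (x2_1 (x2_0 (s2_5 (s1_7 (s0_4 p138_25))))))))))))),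
   x6_7 (x6_5 (x6_4 (s5_6 (x3_2 (x3_1 (x3_0 (s3_6 (x2_6 (x2_1 (x2_0 (s2_5 (s1_7 (s0_4 (n0 p141_25)))))))))))))),
   tr p147_16,
   tr p148_16,
   tr p149_16,
   tr p150_16,
   tr p151_16],
  [p152_16,
   tr p153_16,
   tr p154_16,
   p152_19,
   p152_20,
   p152_21,
   p152_22,
   p152_23],
  [tr p160_16,
   p152_25,
   p152_26,
   tr p161_16,
   p152_28,
   p152_29,
   p152_30,
   p152_31],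
  [p152_32,
   p152_33,
   p152_34,
   p152_35,
   tr p166_16,
   p152_37,
   p152_38,
   tr p169_16],
  [p152_40,
   p152_41,
   p152_42,
   p152_43,
   p152_44,
   tr p170_16,
   tr p171_16,
   p152_47],
  [x6_7 (x6_5 (x6_4 (s5_6 (x3_2 (x3_1 (x3_0 (s3_6 (x2_6 (x2_1 (x2_0 (s2_5 (s1_7 (s0_4 (n1 p148_25)))))))))))))),
   x6_7 (x6_5 (x6_4 (s5_6 (x3_2 (x3_1 (x3_0 (s3_6 (x2_6 (x2_1 (x2_0 (s2_5 (s1_7 (s0_4 (n1 p142_25)))))))))))))),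
   x6_7 (x6_5 (x6_4 (s5_6 (x3_2 (x3_1 (x3_0 (s3_6 (x2_6 (x2_1 (x2_0 (s2_5 (s1_7 (s0_4 (n1 (n0 p145_25))))))))))))))),
   x6_7 (x6_5 (x6_4 (s5_6 (x3_2 (x3_1 (x3_0 (s3_6 (x2_6 (x2_1 (x2_0 (s2_5 (s1_7 (s0_4 (n1 (n0 p151_25))))))))))))))),
   tr p172_16,
   p152_53,
   p152_54,
   tr p175_16],
  [x6_7 (x6_5 (x6_4 (s5_6 (x3_2 (x3_1 (x3_0 (s3_6 (x2_6 (x2_1 (x2_0 (s2_5 (s1_7 (s0_4 (n1 p149_25)))))))))))))),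
   x6_7 (x6_5 (x6_4 (s5_6 (x3_2 (x3_1 (x3_0 (s3_6 (x2_6 (x2_1 (x2_0 (s2_5 (s1_7 (s0_4 (n1 p143_25)))))))))))))),
   x6_7 (x6_5 (x6_4 (s5_6 (x3_2 (x3_1 (x3_0 (s3_6 (x2_6 (x2_1 (x2_0 (s2_5 (s1_7 (s0_4 (n1 (n0 p144_25))))))))))))))),
   x6_7 (x6_5 (x6_4 (s5_6 (x3_2 (x3_1 (x3_0 (s3_6 (x2_6 (x2_1 (x2_0 (s2_5 (s1_7 (s0_4 (n1 (n0 p150_25))))))))))))))),
   p152_60,
   tr p176_16,
   tr p177_16,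
   p152_63]]

theorem k152 : eqNN c152 (slO 64 (D.chG 21 16) 8) = true := by decide +kernel

/-- The slices of the chunk 153. -/
noncomputable def c153 : List (List ℕ) := [
  [p153_0,
   tr p139_17,
   tr p140_17,
   p153_3,
   p153_4,
   p153_5,
   p153_6,
   p153_7],
  [tr p146_17,
   x6_7 (x6_5 (x6_4 (s5_7 (x2_3 (x2_1 (x2_0 (s1_3 p153_0))))))),
   x6_7 (x6_5 (x6_4 (s5_7 (x2_3 (x2_1 (x2_0 (s1_3 (n4 p153_3)))))))),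
   tr p147_17,
   p153_12,
   p153_13,
   p153_14,
   p153_15],
  [p153_16,
   p153_17,
   p153_18,
   p153_19,
   p153_20,
   p153_21,
   p153_22,
   p153_23],
  [p153_24,
   x6_7 (x6_5 (x6_4 (s5_7 (x2_3 (x2_1 (x2_0 (s1_3 p153_16))))))),
   x6_7 (x6_5 (x6_4 (s5_7 (x2_3 (x2_1 (x2_0 (s1_3 (n4 p153_19)))))))),
   p153_27,
   p153_28,
   p153_29,
   p153_30,
   p153_31],
  [x6_7 (x6_5 (x6_4 (s5_7 (x2_3 (x2_1 (x2_0 (s1_3 (n5 p153_28)))))))),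
   x6_7 (x6_5 (x6_4 (s5_7 (x2_3 (x2_1 (x2_0 (s1_3 (n5 p153_20)))))))),
   x6_7 (x6_5 (x6_4 (s5_7 (x2_3 (x2_1 (x2_0 (s1_3 (n5 (n4 p153_23))))))))),
   x6_7 (x6_5 (x6_4 (s5_7 (x2_3 (x2_1 (x2_0 (s1_3 (n5 (n4 p153_31))))))))),
   p153_36,
   p153_37,
   p153_38,
   p153_39],
  [x6_7 (x6_5 (x6_4 (s5_7 (x2_3 (x2_1 (x2_0 (s1_3 (n5 p153_29)))))))),
   x6_7 (x6_5 (x6_4 (s5_7 (x2_3 (x2_1 (x2_0 (s1_3 (n5 p153_21)))))))),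
   x6_7 (x6_5 (x6_4 (s5_7 (x2_3 (x2_1 (x2_0 (s1_3 (n5 (n4 p153_22))))))))),
   x6_7 (x6_5 (x6_4 (s5_7 (x2_3 (x2_1 (x2_0 (s1_3 (n5 (n4 p153_30))))))))),
   x6_7 (x6_5 (x6_4 (s5_7 (x2_3 (x2_1 (x2_0 (s1_3 (n7 (n5 p153_37))))))))),
   p153_45,
   p153_46,
   x6_7 (x6_5 (x6_4 (s5_7 (x2_3 (x2_1 (x2_0 (s1_3 (n7 (n5 (n4 p153_38))))))))))],
  [x6_7 (x6_5 (x6_4 (s5_7 (x2_3 (x2_1 (x2_0 (s1_3 (n5 p153_12)))))))),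
   x6_7 (x6_5 (x6_4 (s5_7 (x2_3 (x2_1 (x2_0 (s1_3 (n5 p153_4)))))))),
   x6_7 (x6_5 (x6_4 (s5_7 (x2_3 (x2_1 (x2_0 (s1_3 (n5 (n4 p153_7))))))))),
   x6_7 (x6_5 (x6_4 (s5_7 (x2_3 (x2_1 (x2_0 (s1_3 (n5 (n4 p153_15))))))))),
   p153_52,
   p153_53,
   p153_54,
   p153_55],
  [x6_7 (x6_5 (x6_4 (s5_7 (x2_3 (x2_1 (x2_0 (s1_3 (n5 p153_13)))))))),
   x6_7 (x6_5 (x6_4 (s5_7 (x2_3 (x2_1 (x2_0 (s1_3 (n5 p153_5)))))))),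
   x6_7 (x6_5 (x6_4 (s5_7 (x2_3 (x2_1 (x2_0 (s1_3 (n5 (n4 p153_6))))))))),
   x6_7 (x6_5 (x6_4 (s5_7 (x2_3 (x2_1 (x2_0 (s1_3 (n5 (n4 p153_14))))))))),
   x6_7 (x6_5 (x6_4 (s5_7 (x2_3 (x2_1 (x2_0 (s1_3 (n7 (n5 p153_53))))))))),
   p153_61,
   p153_62,
   x6_7 (x6_5 (x6_4 (s5_7 (x2_3 (x2_1 (x2_0 (s1_3 (n7 (n5 (n4 p153_54))))))))))]]

theorem k153 : eqNN c153 (slO 64 (D.chG 21 17) 8) = true := by decide +kernel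

/-- The slices of the chunk 154. -/
noncomputable def c154 : List (List ℕ) := [
  [p154_0,
   tr p139_18,
   tr p140_18,
   p154_3,
   p154_4,
   p154_5,
   p154_6,
   p154_7],
  [tr p146_18,
   x6_7 (x6_5 (x6_4 (s5_7 (x2_3 (x2_1 (x2_0 (s1_3 (n0 p154_0)))))))),
   x6_7 (x6_5 (x6_4 (s5_7 (x2_3 (x2_1 (x2_0 (s1_3 (n4 (n0 p154_3))))))))),
   tr p147_18,
   p154_12,
   p154_13,
   p154_14,
   p154_15],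
  [p154_16,
   tr p153_18,
   p154_18,
   p154_19,
   p154_20,
   p154_21,
   p154_22,
   p154_23],
  [p154_24,
   x6_7 (x6_5 (x6_4 (s5_7 (x2_3 (x2_1 (x2_0 (s1_3 (n0 p154_16)))))))),
   x6_7 (x6_5 (x6_4 (s5_7 (x2_3 (x2_1 (x2_0 (s1_3 (n4 (n0 p154_19))))))))),
   p154_27,
   p154_28,
   p154_29,
   p154_30,
   p154_31],
  [x6_7 (x6_5 (x6_4 (s5_7 (x2_3 (x2_1 (x2_0 (s1_3 (n5 (n0 p154_28))))))))),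
   x6_7 (x6_5 (x6_4 (s5_7 (x2_3 (x2_1 (x2_0 (s1_3 (n5 (n0 p154_20))))))))),
   x6_7 (x6_5 (x6_4 (s5_7 (x2_3 (x2_1 (x2_0 (s1_3 (n5 (n4 (n0 p154_23)))))))))),
   x6_7 (x6_5 (x6_4 (s5_7 (x2_3 (x2_1 (x2_0 (s1_3 (n5 (n4 (n0 p154_31)))))))))),
   p154_36,
   p154_37,
   p154_38,
   p154_39],
  [x6_7 (x6_5 (x6_4 (s5_7 (x2_3 (x2_1 (x2_0 (s1_3 (n5 (n0 p154_29))))))))),
   x6_7 (x6_5 (x6_4 (s5_7 (x2_3 (x2_1 (x2_0 (s1_3 (n5 (n0 p154_21))))))))),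
   x6_7 (x6_5 (x6_4 (s5_7 (x2_3 (x2_1 (x2_0 (s1_3 (n5 (n4 (n0 p154_22)))))))))),
   x6_7 (x6_5 (x6_4 (s5_7 (x2_3 (x2_1 (x2_0 (s1_3 (n5 (n4 (n0 p154_30)))))))))),
   x6_7 (x6_5 (x6_4 (s5_7 (x2_3 (x2_1 (x2_0 (s1_3 (n7 (n5 (n0 p154_37)))))))))),
   p154_45,
   p154_46,
   x6_7 (x6_5 (x6_4 (s5_7 (x2_3 (x2_1 (x2_0 (s1_3 (n7 (n5 (n4 (n0 p154_38)))))))))))],
  [x6_7 (x6_5 (x6_4 (s5_7 (x2_3 (x2_1 (x2_0 (s1_3 (n5 (n0 p154_12))))))))),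
   x6_7 (x6_5 (x6_4 (s5_7 (x2_3 (x2_1 (x2_0 (s1_3 (n5 (n0 p154_4))))))))),
   x6_7 (x6_5 (x6_4 (s5_7 (x2_3 (x2_1 (x2_0 (s1_3 (n5 (n4 (n0 p154_7)))))))))),
   x6_7 (x6_5 (x6_4 (s5_7 (x2_3 (x2_1 (x2_0 (s1_3 (n5 (n4 (n0 p154_15)))))))))),
   p154_52,
   p154_53,
   p154_54,
   p154_55],
  [x6_7 (x6_5 (x6_4 (s5_7 (x2_3 (x2_1 (x2_0 (s1_3 (n5 (n0 p154_13))))))))),
   x6_7 (x6_5 (x6_4 (s5_7 (x2_3 (x2_1 (x2_0 (s1_3 (n5 (n0 p154_5))))))))),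
   x6_7 (x6_5 (x6_4 (s5_7 (x2_3 (x2_1 (x2_0 (s1_3 (n5 (n4 (n0 p154_6)))))))))),
   x6_7 (x6_5 (x6_4 (s5_7 (x2_3 (x2_1 (x2_0 (s1_3 (n5 (n4 (n0 p154_14)))))))))),
   x6_7 (x6_5 (x6_4 (s5_7 (x2_3 (x2_1 (x2_0 (s1_3 (n7 (n5 (n0 p154_53)))))))))),
   p154_61,
   p154_62,
   x6_7 (x6_5 (x6_4 (s5_7 (x2_3 (x2_1 (x2_0 (s1_3 (n7 (n5 (n4 (n0 p154_54)))))))))))]]

theorem k154 : eqNN c154 (slO 64 (D.chG 21 18) 8) = true := by decide +kernel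

/-- The slices of the chunk 155. -/
noncomputable def c155 : List (List ℕ) := [
  [tr p138_19,
   tr p139_19,
   tr p140_19,
   tr p141_19,
   tr p142_19,
   tr p143_19,
   tr p144_19,
   tr p145_19],
  [tr p146_19,
   x6_7 (x6_5 (x6_4 (s5_6 (x3_2 (x3_1 (x3_0 (s3_6 (x2_6 (x2_1 (x2_0 (s2_5 (s1_7 (s0_4 (n4 p138_26)))))))))))))),
   x6_7 (x6_5 (x6_4 (s5_6 (x3_2 (x3_1 (x3_0 (s3_6 (x2_6 (x2_1 (x2_0 (s2_5 (s1_7 (s0_4 (n4 (n0 p141_26))))))))))))))),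
   tr p147_19,
   tr p148_19,
   tr p149_19,
   tr p150_19,
   tr p151_19],
  [tr p152_19,
   tr p153_19,
   tr p154_19,
   p155_19,
   p155_20,
   p155_21,
   p155_22,
   p155_23],
  [tr p160_19,
   x6_7 (x6_5 (x6_4 (s5_6 (x3_2 (x3_1 (x3_0 (s3_6 (x2_6 (x2_1 (x2_0 (s2_5 (s1_7 (s0_4 (n4 p152_26)))))))))))))),
   p155_26,
   tr p161_19,
   p155_28,
   p155_29,
   p155_30,
   p155_31],
  [p155_32,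
   p155_33,
   p155_34,
   p155_35,
   tr p166_19,
   p155_37,
   p155_38,
   tr p169_19],
  [p155_40,
   p155_41,
   p155_42,
   p155_43,
   p155_44,
   tr p170_19,
   tr p171_19,
   p155_47],
  [x6_7 (x6_5 (x6_4 (s5_6 (x3_2 (x3_1 (x3_0 (s3_6 (x2_6 (x2_1 (x2_0 (s2_5 (s1_7 (s0_4 (n4 (n1 p148_26))))))))))))))),
   x6_7 (x6_5 (x6_4 (s5_6 (x3_2 (x3_1 (x3_0 (s3_6 (x2_6 (x2_1 (x2_0 (s2_5 (s1_7 (s0_4 (n4 (n1 p142_26))))))))))))))),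
   x6_7 (x6_5 (x6_4 (s5_6 (x3_2 (x3_1 (x3_0 (s3_6 (x2_6 (x2_1 (x2_0 (s2_5 (s1_7 (s0_4 (n4 (n1 (n0 p145_26)))))))))))))))),
   x6_7 (x6_5 (x6_4 (s5_6 (x3_2 (x3_1 (x3_0 (s3_6 (x2_6 (x2_1 (x2_0 (s2_5 (s1_7 (s0_4 (n4 (n1 (n0 p151_26)))))))))))))))),
   tr p172_19,
   p155_53,
   p155_54,
   tr p175_19],
  [x6_7 (x6_5 (x6_4 (s5_6 (x3_2 (x3_1 (x3_0 (s3_6 (x2_6 (x2_1 (x2_0 (s2_5 (s1_7 (s0_4 (n4 (n1 p149_26))))))))))))))),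
   x6_7 (x6_5 (x6_4 (s5_6 (x3_2 (x3_1 (x3_0 (s3_6 (x2_6 (x2_1 (x2_0 (s2_5 (s1_7 (s0_4 (n4 (n1 p143_26))))))))))))))),
   x6_7 (x6_5 (x6_4 (s5_6 (x3_2 (x3_1 (x3_0 (s3_6 (x2_6 (x2_1 (x2_0 (s2_5 (s1_7 (s0_4 (n4 (n1 (n0 p144_26)))))))))))))))),
   x6_7 (x6_5 (x6_4 (s5_6 (x3_2 (x3_1 (x3_0 (s3_6 (x2_6 (x2_1 (x2_0 (s2_5 (s1_7 (s0_4 (n4 (n1 (n0 p150_26)))))))))))))))),
   p155_60,
   tr p176_19,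
   tr p177_19,
   p155_63]]

theorem k155 : eqNN c155 (slO 64 (D.chG 21 19) 8) = true := by decide +kernel

end Pool.Agent.Lib.MP_afdd4d_co.K10.E6
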