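import Pool.Agent.Lib.MP_afdd4d_co.K10.E6.Dat
import Pool.Agent.Lib.MP_afdd4d_co.K10.E6.Mk
import Pool.Agent.Lib.MP_afdd4d_co.K8.F6Bl5
import Pool.Agent.Lib.MP_afdd4d_co.K10.E6.P0
import Pool.Agent.Lib.MP_afdd4d_co.K10.E6.P1
import Pool.Agent.Lib.MP_afdd4d_co.K10.E6.P2
import Pool.Agent.Lib.MP_afdd4d_co.K10.E6.P3
import Pool.Agent.Lib.MP_afdd4d_co.K10.E6.P4
import Pool.Agent.Lib.MP_afdd4d_co.K10.E6.P5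
import Pool.Agent.Lib.MP_afdd4d_co.K10.E6.P6
import Pool.Agent.Lib.MP_afdd4d_co.K10.E6.P7
import Pool.Agent.Lib.MP_afdd4d_co.K10.E6.P8
import Pool.Agent.Lib.MP_afdd4d_co.K10.E6.P9
import Pool.Agent.Lib.MP_afdd4d_co.K10.E6.P10
import Pool.Agent.Lib.MP_afdd4d_co.K10.E6.P11
import Pool.Agent.Lib.MP_afdd4d_co.K10.E6.P12
import Pool.Agent.Lib.MP_afdd4d_co.K10.E6.P13
import Pool.Agent.Lib.MP_afdd4d_co.K10.E6.P14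
import Pool.Agent.Lib.MP_afdd4d_co.K10.E6.P15
import Pool.Agent.Lib.MP_afdd4d_co.K10.E6.P16
import Pool.Agent.Lib.MP_afdd4d_co.K10.E6.P17
import Pool.Agent.Lib.MP_afdd4d_co.K10.E6.P18
import Pool.Agent.Lib.MP_afdd4d_co.K10.E6.P19
import Pool.Agent.Lib.MP_afdd4d_co.K10.E6.P20
import Pool.Agent.Lib.MP_afdd4d_co.K10.E6.P21
import Pool.Agent.Lib.MP_afdd4d_co.K10.E6.P22
import Pool.Agent.Lib.MP_afdd4d_co.K10.E6.P23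
import Pool.Agent.Lib.MP_afdd4d_co.K10.E6.P24
import Pool.Agent.Lib.MP_afdd4d_co.K10.E6.P25
import Pool.Agent.Lib.MP_afdd4d_co.K10.E6.P26
import Pool.Agent.Lib.MP_afdd4d_co.K10.E6.P27
import Pool.Agent.Lib.MP_afdd4d_co.K10.E6.P28
import Pool.Agent.Lib.MP_afdd4d_co.K10.E6.P29
import Pool.Agent.Lib.MP_afdd4d_co.K10.E6.P30
import Pool.Agent.Lib.MP_afdd4d_co.K10.E6.P31
import Pool.Agent.Lib.MP_afdd4d_co.K10.E6.P32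

/-!
# Tables
-/

namespace Pool.Agent.Lib.MP_afdd4d_co.K10.E6

open K8

set_option maxRecDepth 100000
set_option exponentiation.threshold 10000000

/-- The slices of the chunk 156. -/
noncomputable def c156 : List (List ℕ) := [
  [tr p138_20,
   tr p139_20,
   tr p140_20,
   tr p141_20,
   tr p142_20,
   tr p143_20,
   tr p144_20,
   tr p145_20],
  [tr p146_20,
   x6_7 (x6_5 (x6_4 (s5_6 (x3_2 (x3_1 (x3_0 (s3_6 (x2_6 (x2_1 (x2_0 (s2_5 (s1_7 (s0_4 (n7 p138_33)))))))))))))),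
   x6_7 (x6_5 (x6_4 (s5_6 (x3_2 (x3_1 (x3_0 (s3_6 (x2_6 (x2_1 (x2_0 (s2_5 (s1_7 (s0_4 (n7 (n0 p141_33))))))))))))))),
   tr p147_20,
   tr p148_20,
   tr p149_20,
   tr p150_20,
   tr p151_20],
  [tr p152_20,
   tr p153_20,
   tr p154_20,
   tr p155_20,
   p156_20,
   p156_21,
   p156_22,
   p156_23],
  [tr p160_20,
   x6_7 (x6_5 (x6_4 (s5_6 (x3_2 (x3_1 (x3_0 (s3_6 (x2_6 (x2_1 (x2_0 (s2_5 (s1_7 (s0_4 (n7 p152_33)))))))))))))),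
   x6_7 (x6_5 (x6_4 (s5_6 (x3_2 (x3_1 (x3_0 (s3_6 (x2_6 (x2_1 (x2_0 (s2_5 (s1_7 (s0_4 (n7 (n0 p155_33))))))))))))))),
   tr p161_20,
   p156_28,
   p156_29,
   p156_30,
   p156_31],
  [p156_32,
   p156_33,
   p156_34,
   p156_35,
   tr p166_20,
   p156_37,
   p156_38,
   tr p169_20],
  [p156_40,
   p156_41,
   p156_42,
   p156_43,
   p156_44,
   tr p170_20,
   tr p171_20,
   p156_47],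
  [x6_7 (x6_5 (x6_4 (s5_6 (x3_2 (x3_1 (x3_0 (s3_6 (x2_6 (x2_1 (x2_0 (s2_5 (s1_7 (s0_4 (n7 (n1 p148_33))))))))))))))),
   x6_7 (x6_5 (x6_4 (s5_6 (x3_2 (x3_1 (x3_0 (s3_6 (x2_6 (x2_1 (x2_0 (s2_5 (s1_7 (s0_4 (n7 (n1 p142_33))))))))))))))),
   x6_7 (x6_5 (x6_4 (s5_6 (x3_2 (x3_1 (x3_0 (s3_6 (x2_6 (x2_1 (x2_0 (s2_5 (s1_7 (s0_4 (n7 (n1 (n0 p145_33)))))))))))))))),
   x6_7 (x6_5 (x6_4 (s5_6 (x3_2 (x3_1 (x3_0 (s3_6 (x2_6 (x2_1 (x2_0 (s2_5 (s1_7 (s0_4 (n7 (n1 (n0 p151_33)))))))))))))))),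
   tr p172_20,
   p156_53,
   p156_54,
   tr p175_20],
  [x6_7 (x6_5 (x6_4 (s5_6 (x3_2 (x3_1 (x3_0 (s3_6 (x2_6 (x2_1 (x2_0 (s2_5 (s1_7 (s0_4 (n7 (n1 p149_33))))))))))))))),
   x6_7 (x6_5 (x6_4 (s5_6 (x3_2 (x3_1 (x3_0 (s3_6 (x2_6 (x2_1 (x2_0 (s2_5 (s1_7 (s0_4 (n7 (n1 p143_33))))))))))))))),
   x6_7 (x6_5 (x6_4 (s5_6 (x3_2 (x3_1 (x3_0 (s3_6 (x2_6 (x2_1 (x2_0 (s2_5 (s1_7 (s0_4 (n7 (n1 (n0 p144_33)))))))))))))))),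
   x6_7 (x6_5 (x6_4 (s5_6 (x3_2 (x3_1 (x3_0 (s3_6 (x2_6 (x2_1 (x2_0 (s2_5 (s1_7 (s0_4 (n7 (n1 (n0 p150_33)))))))))))))))),
   p156_60,
   tr p176_20,
   tr p177_20,
   p156_63]]

theorem k156 : eqNN c156 (slO 64 (D.chG 21 20) 8) = true := by decide +kernel

/-- The slices of the chunk 157. -/
noncomputable def c157 : List (List ℕ) := [
  [tr p138_21,
   tr p139_21,
   tr p140_21,
   tr p141_21,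
   tr p142_21,
   tr p143_21,
   tr p144_21,
   tr p145_21],
  [tr p146_21,
   x6_7 (x6_5 (x6_4 (s5_6 (x3_2 (x3_1 (x3_0 (s3_6 (x2_6 (x2_1 (x2_0 (s2_5 (s1_7 (s0_4 (n7 p138_41)))))))))))))),
   x6_7 (x6_5 (x6_4 (s5_6 (x3_2 (x3_1 (x3_0 (s3_6 (x2_6 (x2_1 (x2_0 (s2_5 (s1_7 (s0_4 (n7 (n0 p141_41))))))))))))))),
   tr p147_21,
   tr p148_21,
   tr p149_21,
   tr p150_21,
   tr p151_21],
  [tr p152_21,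
   tr p153_21,
   tr p154_21,
   tr p155_21,
   tr p156_21,
   p157_21,
   p157_22,
   p157_23],
  [tr p160_21,
   x6_7 (x6_5 (x6_4 (s5_6 (x3_2 (x3_1 (x3_0 (s3_6 (x2_6 (x2_1 (x2_0 (s2_5 (s1_7 (s0_4 (n7 p152_41)))))))))))))),
   x6_7 (x6_5 (x6_4 (s5_6 (x3_2 (x3_1 (x3_0 (s3_6 (x2_6 (x2_1 (x2_0 (s2_5 (s1_7 (s0_4 (n7 (n0 p155_41))))))))))))))),
   tr p161_21,
   p157_28,
   p157_29,
   p157_30,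
   p157_31],
  [p157_32,
   x6_7 (x6_5 (x6_4 (s5_6 (x3_2 (x3_1 (x3_0 (s3_6 (x2_6 (x2_1 (x2_0 (s2_5 (s1_7 (s0_4 (n7 (n1 p156_41))))))))))))))),
   p157_34,
   p157_35,
   tr p166_21,
   p157_37,
   p157_38,
   tr p169_21],
  [p157_40,
   p157_41,
   p157_42,
   p157_43,
   p157_44,
   tr p170_21,
   tr p171_21,
   p157_47],
  [x6_7 (x6_5 (x6_4 (s5_6 (x3_2 (x3_1 (x3_0 (s3_6 (x2_6 (x2_1 (x2_0 (s2_5 (s1_7 (s0_4 (n7 (n1 p148_41))))))))))))))),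
   x6_7 (x6_5 (x6_4 (s5_6 (x3_2 (x3_1 (x3_0 (s3_6 (x2_6 (x2_1 (x2_0 (s2_5 (s1_7 (s0_4 (n7 (n1 p142_41))))))))))))))),
   x6_7 (x6_5 (x6_4 (s5_6 (x3_2 (x3_1 (x3_0 (s3_6 (x2_6 (x2_1 (x2_0 (s2_5 (s1_7 (s0_4 (n7 (n1 (n0 p145_41)))))))))))))))),
   x6_7 (x6_5 (x6_4 (s5_6 (x3_2 (x3_1 (x3_0 (s3_6 (x2_6 (x2_1 (x2_0 (s2_5 (s1_7 (s0_4 (n7 (n1 (n0 p151_41)))))))))))))))),
   tr p172_21,
   p157_53,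
   p157_54,
   tr p175_21],
  [x6_7 (x6_5 (x6_4 (s5_6 (x3_2 (x3_1 (x3_0 (s3_6 (x2_6 (x2_1 (x2_0 (s2_5 (s1_7 (s0_4 (n7 (n1 p149_41))))))))))))))),
   x6_7 (x6_5 (x6_4 (s5_6 (x3_2 (x3_1 (x3_0 (s3_6 (x2_6 (x2_1 (x2_0 (s2_5 (s1_7 (s0_4 (n7 (n1 p143_41))))))))))))))),
   x6_7 (x6_5 (x6_4 (s5_6 (x3_2 (x3_1 (x3_0 (s3_6 (x2_6 (x2_1 (x2_0 (s2_5 (s1_7 (s0_4 (n7 (n1 (n0 p144_41)))))))))))))))),
   x6_7 (x6_5 (x6_4 (s5_6 (x3_2 (x3_1 (x3_0 (s3_6 (x2_6 (x2_1 (x2_0 (s2_5 (s1_7 (s0_4 (n7 (n1 (n0 p150_41)))))))))))))))),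
   p157_60,
   tr p176_21,
   tr p177_21,
   p157_63]]

theorem k157 : eqNN c157 (slO 64 (D.chG 21 21) 8) = true := by decide +kernel

/-- The slices of the chunk 158. -/
noncomputable def c158 : List (List ℕ) := [
  [tr p138_22,
   tr p139_22,
   tr p140_22,
   tr p141_22,
   tr p142_22,
   tr p143_22,
   tr p144_22,
   tr p145_22],
  [tr p146_22,
   x6_7 (x6_5 (x6_4 (s5_6 (x3_2 (x3_1 (x3_0 (s3_6 (x2_6 (x2_1 (x2_0 (s2_5 (s1_7 (s0_4 (n7 (n4 p138_42))))))))))))))),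
   x6_7 (x6_5 (x6_4 (s5_6 (x3_2 (x3_1 (x3_0 (s3_6 (x2_6 (x2_1 (x2_0 (s2_5 (s1_7 (s0_4 (n7 (n4 (n0 p141_42)))))))))))))))),
   tr p147_22,
   tr p148_22,
   tr p149_22,
   tr p150_22,
   tr p151_22],
  [tr p152_22,
   tr p153_22,
   tr p154_22,
   tr p155_22,
   tr p156_22,
   tr p157_22,
   p158_22,
   p158_23],
  [tr p160_22,
   x6_7 (x6_5 (x6_4 (s5_6 (x3_2 (x3_1 (x3_0 (s3_6 (x2_6 (x2_1 (x2_0 (s2_5 (s1_7 (s0_4 (n7 (n4 p152_42))))))))))))))),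
   x6_7 (x6_5 (x6_4 (s5_6 (x3_2 (x3_1 (x3_0 (s3_6 (x2_6 (x2_1 (x2_0 (s2_5 (s1_7 (s0_4 (n7 (n4 (n0 p155_42)))))))))))))))),
   tr p161_22,
   p158_28,
   p158_29,
   p158_30,
   p158_31],
  [p158_32,
   x6_7 (x6_5 (x6_4 (s5_6 (x3_2 (x3_1 (x3_0 (s3_6 (x2_6 (x2_1 (x2_0 (s2_5 (s1_7 (s0_4 (n7 (n4 (n1 p156_42)))))))))))))))),
   p158_34,
   p158_35,
   tr p166_22,
   p158_37,
   p158_38,
   tr p169_22],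
  [p158_40,
   x6_7 (x6_5 (x6_4 (s5_6 (x3_2 (x3_1 (x3_0 (s3_6 (x2_6 (x2_1 (x2_0 (s2_5 (s1_7 (s0_4 (n7 (n4 (n1 p157_42)))))))))))))))),
   p158_42,
   p158_43,
   p158_44,
   tr p170_22,
   tr p171_22,
   p158_47],
  [x6_7 (x6_5 (x6_4 (s5_6 (x3_2 (x3_1 (x3_0 (s3_6 (x2_6 (x2_1 (x2_0 (s2_5 (s1_7 (s0_4 (n7 (n4 (n1 p148_42)))))))))))))))),
   x6_7 (x6_5 (x6_4 (s5_6 (x3_2 (x3_1 (x3_0 (s3_6 (x2_6 (x2_1 (x2_0 (s2_5 (s1_7 (s0_4 (n7 (n4 (n1 p142_42)))))))))))))))),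
   x6_7 (x6_5 (x6_4 (s5_6 (x3_2 (x3_1 (x3_0 (s3_6 (x2_6 (x2_1 (x2_0 (s2_5 (s1_7 (s0_4 (n7 (n4 (n1 (n0 p145_42))))))))))))))))),
   x6_7 (x6_5 (x6_4 (s5_6 (x3_2 (x3_1 (x3_0 (s3_6 (x2_6 (x2_1 (x2_0 (s2_5 (s1_7 (s0_4 (n7 (n4 (n1 (n0 p151_42))))))))))))))))),
   tr p172_22,
   p158_53,
   p158_54,
   tr p175_22],
  [x6_7 (x6_5 (x6_4 (s5_6 (x3_2 (x3_1 (x3_0 (s3_6 (x2_6 (x2_1 (x2_0 (s2_5 (s1_7 (s0_4 (n7 (n4 (n1 p149_42)))))))))))))))),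
   x6_7 (x6_5 (x6_4 (s5_6 (x3_2 (x3_1 (x3_0 (s3_6 (x2_6 (x2_1 (x2_0 (s2_5 (s1_7 (s0_4 (n7 (n4 (n1 p143_42)))))))))))))))),
   x6_7 (x6_5 (x6_4 (s5_6 (x3_2 (x3_1 (x3_0 (s3_6 (x2_6 (x2_1 (x2_0 (s2_5 (s1_7 (s0_4 (n7 (n4 (n1 (n0 p144_42))))))))))))))))),
   x6_7 (x6_5 (x6_4 (s5_6 (x3_2 (x3_1 (x3_0 (s3_6 (x2_6 (x2_1 (x2_0 (s2_5 (s1_7 (s0_4 (n7 (n4 (n1 (n0 p150_42))))))))))))))))),
   p158_60,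
   tr p176_22,
   tr p177_22,
   p158_63]]

theorem k158 : eqNN c158 (slO 64 (D.chG 21 22) 8) = true := by decide +kernel

/-- The slices of the chunk 159. -/
noncomputable def c159 : List (List ℕ) := [
  [tr p138_23,
   tr p139_23,
   tr p140_23,
   tr p141_23,
   tr p142_23,
   tr p143_23,
   tr p144_23,
   tr p145_23],
  [tr p146_23,
   x6_7 (x6_5 (x6_4 (s5_6 (x3_2 (x3_1 (x3_0 (s3_6 (x2_6 (x2_1 (x2_0 (s2_5 (s1_7 (s0_4 (n7 (n4 p138_34))))))))))))))),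
   x6_7 (x6_5 (x6_4 (s5_6 (x3_2 (x3_1 (x3_0 (s3_6 (x2_6 (x2_1 (x2_0 (s2_5 (s1_7 (s0_4 (n7 (n4 (n0 p141_34)))))))))))))))),
   tr p147_23,
   tr p148_23,
   tr p149_23,
   tr p150_23,
   tr p151_23],
  [tr p152_23,
   tr p153_23,
   tr p154_23,
   tr p155_23,
   tr p156_23,
   tr p157_23,
   tr p158_23,
   p159_23],
  [tr p160_23,
   x6_7 (x6_5 (x6_4 (s5_6 (x3_2 (x3_1 (x3_0 (s3_6 (x2_6 (x2_1 (x2_0 (s2_5 (s1_7 (s0_4 (n7 (n4 p152_34))))))))))))))),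
   x6_7 (x6_5 (x6_4 (s5_6 (x3_2 (x3_1 (x3_0 (s3_6 (x2_6 (x2_1 (x2_0 (s2_5 (s1_7 (s0_4 (n7 (n4 (n0 p155_34)))))))))))))))),
   tr p161_23,
   p159_28,
   p159_29,
   p159_30,
   p159_31],
  [p159_32,
   x6_7 (x6_5 (x6_4 (s5_6 (x3_2 (x3_1 (x3_0 (s3_6 (x2_6 (x2_1 (x2_0 (s2_5 (s1_7 (s0_4 (n7 (n4 (n1 p156_34)))))))))))))))),
   p159_34,
   p159_35,
   tr p166_23,
   p159_37,
   p159_38,
   tr p169_23],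
  [p159_40,
   x6_7 (x6_5 (x6_4 (s5_6 (x3_2 (x3_1 (x3_0 (s3_6 (x2_6 (x2_1 (x2_0 (s2_5 (s1_7 (s0_4 (n7 (n4 (n1 p157_34)))))))))))))))),
   x6_7 (x6_5 (x6_4 (s5_6 (x3_2 (x3_1 (x3_0 (s3_6 (x2_6 (x2_1 (x2_0 (s2_5 (s1_7 (s0_4 (n7 (n4 (n1 (n0 p158_34))))))))))))))))),
   p159_43,
   p159_44,
   tr p170_23,
   tr p171_23,
   p159_47],
  [x6_7 (x6_5 (x6_4 (s5_6 (x3_2 (x3_1 (x3_0 (s3_6 (x2_6 (x2_1 (x2_0 (s2_5 (s1_7 (s0_4 (n7 (n4 (n1 p148_34)))))))))))))))),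
   x6_7 (x6_5 (x6_4 (s5_6 (x3_2 (x3_1 (x3_0 (s3_6 (x2_6 (x2_1 (x2_0 (s2_5 (s1_7 (s0_4 (n7 (n4 (n1 p142_34)))))))))))))))),
   x6_7 (x6_5 (x6_4 (s5_6 (x3_2 (x3_1 (x3_0 (s3_6 (x2_6 (x2_1 (x2_0 (s2_5 (s1_7 (s0_4 (n7 (n4 (n1 (n0 p145_34))))))))))))))))),
   x6_7 (x6_5 (x6_4 (s5_6 (x3_2 (x3_1 (x3_0 (s3_6 (x2_6 (x2_1 (x2_0 (s2_5 (s1_7 (s0_4 (n7 (n4 (n1 (n0 p151_34))))))))))))))))),
   tr p172_23,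
   p159_53,
   p159_54,
   tr p175_23],
  [x6_7 (x6_5 (x6_4 (s5_6 (x3_2 (x3_1 (x3_0 (s3_6 (x2_6 (x2_1 (x2_0 (s2_5 (s1_7 (s0_4 (n7 (n4 (n1 p149_34)))))))))))))))),
   x6_7 (x6_5 (x6_4 (s5_6 (x3_2 (x3_1 (x3_0 (s3_6 (x2_6 (x2_1 (x2_0 (s2_5 (s1_7 (s0_4 (n7 (n4 (n1 p143_34)))))))))))))))),
   x6_7 (x6_5 (x6_4 (s5_6 (x3_2 (x3_1 (x3_0 (s3_6 (x2_6 (x2_1 (x2_0 (s2_5 (s1_7 (s0_4 (n7 (n4 (n1 (n0 p144_34))))))))))))))))),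
   x6_7 (x6_5 (x6_4 (s5_6 (x3_2 (x3_1 (x3_0 (s3_6 (x2_6 (x2_1 (x2_0 (s2_5 (s1_7 (s0_4 (n7 (n4 (n1 (n0 p150_34))))))))))))))))),
   p159_60,
   tr p176_23,
   tr p177_23,
   p159_63]]

theorem k159 : eqNN c159 (slO 64 (D.chG 21 23) 8) = true := by decide +kernel

end Pool.Agent.Lib.MP_afdd4d_co.K10.E6
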