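import Pool.Agent.Lib.MP_afdd4d_co.K10.E6.Dat
import Pool.Agent.Lib.MP_afdd4d_co.K10.E6.Mk
import Pool.Agent.Lib.MP_afdd4d_co.K8.F6Bl5
import Pool.Agent.Lib.MP_afdd4d_co.K10.E6.P0
import Pool.Agent.Lib.MP_afdd4d_co.K10.E6.P1
import Pool.Agent.Lib.MP_afdd4d_co.K10.E6.P2
import Pool.Agent.Lib.MP_afdd4d_co.K10.E6.P3
import Pool.Agent.Lib.MP_afdd4d_co.K10.E6.P4
import Pool.Agent.Lib.MP_afdd4d_co.K10.E6.P5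
import Pool.Agent.Lib.MP_afdd4d_co.K10.E6.P6
import Pool.Agent.Lib.MP_afdd4d_co.K10.E6.P7
import Pool.Agent.Lib.MP_afdd4d_co.K10.E6.P8
import Pool.Agent.Lib.MP_afdd4d_co.K10.E6.P9
import Pool.Agent.Lib.MP_afdd4d_co.K10.E6.P10
import Pool.Agent.Lib.MP_afdd4d_co.K10.E6.P11
import Pool.Agent.Lib.MP_afdd4d_co.K10.E6.P12
import Pool.Agent.Lib.MP_afdd4d_co.K10.E6.P13
import Pool.Agent.Lib.MP_afdd4d_co.K10.E6.P14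
import Pool.Agent.Lib.MP_afdd4d_co.K10.E6.P15
import Pool.Agent.Lib.MP_afdd4d_co.K10.E6.P16
import Pool.Agent.Lib.MP_afdd4d_co.K10.E6.P17
import Pool.Agent.Lib.MP_afdd4d_co.K10.E6.P18
import Pool.Agent.Lib.MP_afdd4d_co.K10.E6.P19
import Pool.Agent.Lib.MP_afdd4d_co.K10.E6.P20
import Pool.Agent.Lib.MP_afdd4d_co.K10.E6.P21
import Pool.Agent.Lib.MP_afdd4d_co.K10.E6.P22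
import Pool.Agent.Lib.MP_afdd4d_co.K10.E6.P23
import Pool.Agent.Lib.MP_afdd4d_co.K10.E6.P24
import Pool.Agent.Lib.MP_afdd4d_co.K10.E6.P25
import Pool.Agent.Lib.MP_afdd4d_co.K10.E6.P26
import Pool.Agent.Lib.MP_afdd4d_co.K10.E6.P27
import Pool.Agent.Lib.MP_afdd4d_co.K10.E6.P28
import Pool.Agent.Lib.MP_afdd4d_co.K10.E6.P29
import Pool.Agent.Lib.MP_afdd4d_co.K10.E6.P30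
import Pool.Agent.Lib.MP_afdd4d_co.K10.E6.P31
import Pool.Agent.Lib.MP_afdd4d_co.K10.E6.P32

/-!
# Tables
-/

namespace Pool.Agent.Lib.MP_afdd4d_co.K10.E6

open K8

set_option maxRecDepth 100000
set_option exponentiation.threshold 10000000

/-- The slices of the chunk 16. -/
noncomputable def c16 : List (List ℕ) := [
  [tr p7_25,
   tr p8_25,
   s3_7 (s2_5 (s1_6 (s0_4 p8_42))),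
   tr p9_25,
   s5_6 (s4_5 (s3_7 (s2_5 (s1_4 (s0_6 p8_42))))),
   s3_7 (s2_6 (s1_4 (s0_5 p9_25))),
   s3_7 (s2_4 (s1_5 (s0_6 p9_52))),
   tr p10_25],
  [tr p11_25,
   tr p12_25,
   p16_10,
   x7_6 (x7_5 (x7_4 (x3_2 (x3_1 (x3_0 (tr (n5 (n4 (n0 p11_31))))))))),
   tr p13_25,
   tr p14_25,
   p16_14,
   x7_6 (x7_5 (x7_4 (x3_2 (x3_1 (x3_0 (tr (n5 (n4 (n0 p13_31)))))))))],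
  [s3_7 (s2_6 (s1_4 (s0_5 p11_25))),
   s3_7 (s2_6 (s1_4 (s0_5 p12_25))),
   s3_7 (s2_6 (s1_4 (s0_5 p13_25))),
   s3_7 (s2_6 (s1_4 (s0_5 p14_25))),
   s4_5 (s0_1 p16_10),
   x7_6 (x7_5 (x7_4 (x3_2 (x3_1 (x3_0 (s3_7 (s2_6 (s1_4 (s0_5 (n5 (n4 (n0 p11_31)))))))))))),
   s4_5 (s0_1 p16_14),
   x7_6 (x7_5 (x7_4 (x3_2 (x3_1 (x3_0 (s3_7 (s2_6 (s1_4 (s0_5 (n5 (n4 (n0 p13_31))))))))))))],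
  [tr p15_25,
   p16_25,
   p16_26,
   p16_27,
   s4_5 (s0_1 p16_26),
   s4_5 (s0_1 p16_27),
   x7_6 (x7_5 (x7_4 (x3_2 (x3_1 (x3_0 (tr (n5 (n4 (n1 (n0 p15_31)))))))))),
   p16_31],
  [s3_7 (s2_4 (s1_5 (s0_6 p11_52))),
   s3_7 (s2_4 (s1_5 (s0_6 p13_52))),
   s5_6 (s4_6 (s3_7 (s2_4 (s1_6 (s0_5 p12_52))))),
   s5_6 (s4_6 (s3_7 (s2_4 (s1_6 (s0_5 p14_52))))),
   s3_7 (s2_4 (s1_5 (s0_6 p12_52))),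
   s3_7 (s2_4 (s1_5 (s0_6 p14_52))),
   x7_6 (x7_5 (x7_4 (x3_2 (x3_1 (x3_0 (s3_7 (s2_4 (s1_5 (s0_6 (n6 (n5 (n0 p11_55)))))))))))),
   x7_6 (x7_5 (x7_4 (x3_2 (x3_1 (x3_0 (s3_7 (s2_4 (s1_5 (s0_6 (n6 (n5 (n0 p13_55))))))))))))],
  [s3_7 (s2_5 (s1_6 (s0_4 p15_42))),
   p16_41,
   p16_42,
   p16_43,
   p16_44,
   x7_6 (x7_5 (x7_4 (x3_2 (x3_1 (x3_0 (s3_7 (s2_5 (s1_6 (s0_4 (n6 (n4 (n1 (n0 p15_47))))))))))))),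
   p16_46,
   p16_47],
  [s5_6 (s4_5 (s3_7 (s2_5 (s1_4 (s0_6 p15_42))))),
   s4_5 (s0_1 p16_41),
   s4_5 (s0_1 p16_44),
   x7_6 (x7_5 (x7_4 (s5_6 (s4_5 (x3_2 (x3_1 (x3_0 (s3_7 (s2_5 (s1_4 (s0_6 (n6 (n4 (n1 (n0 p15_47))))))))))))))),
   s4_5 (s0_1 p16_42),
   s4_5 (s0_1 p16_43),
   s4_5 (s0_1 p16_46),
   s4_5 (s0_1 p16_47)],
  [tr p19_25,
   tr p20_25,
   s3_7 (s2_5 (s1_6 (s0_4 p20_42))),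
   tr p21_25,
   s5_6 (s4_5 (s3_7 (s2_5 (s1_4 (s0_6 p20_42))))),
   s3_7 (s2_6 (s1_4 (s0_5 p21_25))),
   s3_7 (s2_4 (s1_5 (s0_6 p21_52))),
   tr p22_25]]

theorem k16 : eqNN c16 (slO 64 (D.chG 1 25) 8) = true := by decide +kernel

/-- The slices of the chunk 17. -/
noncomputable def c17 : List (List ℕ) := [
  [tr p7_26,
   tr p8_26,
   s3_7 (s2_5 (s1_6 (s0_4 p8_41))),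
   tr p9_26,
   x7_6 (x7_5 (x7_4 (s5_6 (s4_5 (x3_2 (x3_1 (x3_0 (s3_7 (s2_5 (s1_4 (s0_6 (n6 (n4 p8_41))))))))))))),
   x7_6 (x7_5 (x7_4 (x3_2 (x3_1 (x3_0 (s3_7 (s2_6 (s1_4 (s0_5 (n5 (n4 p9_26))))))))))),
   s3_7 (s2_4 (s1_5 (s0_6 p9_50))),
   tr p10_26],
  [tr p11_26,
   tr p12_26,
   x7_6 (x7_5 (x7_4 (x3_2 (x3_1 (x3_0 (tr (n5 (n4 (n0 p12_28))))))))),
   x7_6 (x7_5 (x7_4 (x3_2 (x3_1 (x3_0 (tr (n5 (n4 (n0 p11_28))))))))),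
   tr p13_26,
   tr p14_26,
   x7_6 (x7_5 (x7_4 (x3_2 (x3_1 (x3_0 (tr (n5 (n4 (n0 p14_28))))))))),
   x7_6 (x7_5 (x7_4 (x3_2 (x3_1 (x3_0 (tr (n5 (n4 (n0 p13_28)))))))))],
  [s3_7 (s2_6 (s1_4 (s0_5 p11_28))),
   s3_7 (s2_6 (s1_4 (s0_5 p12_28))),
   s3_7 (s2_6 (s1_4 (s0_5 p13_28))),
   s3_7 (s2_6 (s1_4 (s0_5 p14_28))),
   x7_6 (x7_5 (x7_4 (x3_2 (x3_1 (x3_0 (s3_7 (s2_6 (s1_4 (s0_5 (n5 (n4 (n0 p12_26)))))))))))),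
   x7_6 (x7_5 (x7_4 (x3_2 (x3_1 (x3_0 (s3_7 (s2_6 (s1_4 (s0_5 (n5 (n4 (n0 p11_26)))))))))))),
   x7_6 (x7_5 (x7_4 (x3_2 (x3_1 (x3_0 (s3_7 (s2_6 (s1_4 (s0_5 (n5 (n4 (n0 p14_26)))))))))))),
   x7_6 (x7_5 (x7_4 (x3_2 (x3_1 (x3_0 (s3_7 (s2_6 (s1_4 (s0_5 (n5 (n4 (n0 p13_26))))))))))))],
  [tr p15_26,
   tr p16_26,
   p17_26,
   p17_27,
   p17_28,
   p17_29,
   x7_6 (x7_5 (x7_4 (x3_2 (x3_1 (x3_0 (s3_7 (s2_6 (s1_4 (s0_5 (n5 (n4 (n1 (n0 p15_26))))))))))))),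
   x7_6 (x7_5 (x7_4 (x3_2 (x3_1 (x3_0 (s3_7 (s2_6 (s1_4 (s0_5 (n5 (n4 (n1 (n0 p16_26)))))))))))))],
  [s5_6 (s4_6 (s3_7 (s2_4 (s1_6 (s0_5 p11_49))))),
   s5_6 (s4_6 (s3_7 (s2_4 (s1_6 (s0_5 p13_49))))),
   s5_6 (s4_6 (s3_7 (s2_4 (s1_6 (s0_5 p12_49))))),
   s5_6 (s4_6 (s3_7 (s2_4 (s1_6 (s0_5 p14_49))))),
   s3_7 (s2_4 (s1_5 (s0_6 p12_50))),
   s3_7 (s2_4 (s1_5 (s0_6 p14_50))),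
   x7_6 (x7_5 (x7_4 (x3_2 (x3_1 (x3_0 (s3_7 (s2_4 (s1_5 (s0_6 (n6 (n5 (n0 p11_49)))))))))))),
   x7_6 (x7_5 (x7_4 (x3_2 (x3_1 (x3_0 (s3_7 (s2_4 (s1_5 (s0_6 (n6 (n5 (n0 p13_49))))))))))))],
  [s3_7 (s2_5 (s1_6 (s0_4 p15_41))),
   p17_41,
   s3_7 (s2_5 (s1_6 (s0_4 p16_41))),
   p17_43,
   p17_44,
   x7_6 (x7_5 (x7_4 (x3_2 (x3_1 (x3_0 (s3_7 (s2_5 (s1_6 (s0_4 (n6 (n4 (n1 (n0 p15_44))))))))))))),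
   p17_46,
   x7_6 (x7_5 (x7_4 (x3_2 (x3_1 (x3_0 (s3_7 (s2_5 (s1_6 (s0_4 (n6 (n4 (n1 (n0 p16_44)))))))))))))],
  [s5_6 (s4_5 (s3_7 (s2_5 (s1_4 (s0_6 p15_44))))),
   s5_6 (s4_5 (s3_7 (s2_5 (s1_4 (s0_6 p17_44))))),
   x7_6 (x7_5 (x7_4 (s4_5 (x3_2 (x3_1 (x3_0 (s0_1 (n6 (n4 (n1 (n0 p17_41))))))))))),
   x7_6 (x7_5 (x7_4 (s5_6 (s4_5 (x3_2 (x3_1 (x3_0 (s3_7 (s2_5 (s1_4 (s0_6 (n6 (n4 (n1 (n0 p15_41))))))))))))))),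
   s5_6 (s4_5 (s3_7 (s2_5 (s1_4 (s0_6 p16_44))))),
   x7_6 (x7_5 (x7_4 (s4_5 (x3_2 (x3_1 (x3_0 (s0_1 (n6 (n4 (n1 (n0 p17_46))))))))))),
   x7_6 (x7_5 (x7_4 (s4_5 (x3_2 (x3_1 (x3_0 (s0_1 (n6 (n4 (n1 (n0 p17_43))))))))))),
   x7_6 (x7_5 (x7_4 (s5_6 (s4_5 (x3_2 (x3_1 (x3_0 (s3_7 (s2_5 (s1_4 (s0_6 (n6 (n4 (n1 (n0 p16_41)))))))))))))))],
  [tr p19_26,
   tr p20_26,
   s3_7 (s2_5 (s1_6 (s0_4 p20_41))),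
   tr p21_26,
   x7_6 (x7_5 (x7_4 (s5_6 (s4_5 (x3_2 (x3_1 (x3_0 (s3_7 (s2_5 (s1_4 (s0_6 (n6 (n4 (n2 (n1 (n0 p20_41)))))))))))))))),
   x7_6 (x7_5 (x7_4 (x3_2 (x3_1 (x3_0 (s3_7 (s2_6 (s1_4 (s0_5 (n5 (n4 (n2 (n1 (n0 p21_26)))))))))))))),
   s3_7 (s2_4 (s1_5 (s0_6 p21_50))),
   tr p22_26]]

theorem k17 : eqNN c17 (slO 64 (D.chG 1 26) 8) = true := by decide +kernel

/-- The slices of the chunk 18. -/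
noncomputable def c18 : List (List ℕ) := [
  [tr p7_27,
   tr p8_27,
   s3_7 (s2_5 (s1_6 (s0_4 p8_43))),
   tr p9_27,
   x7_6 (x7_5 (x7_4 (s5_6 (s4_5 (x3_2 (x3_1 (x3_0 (s3_7 (s2_5 (s1_4 (s0_6 (n6 (n4 p8_43))))))))))))),
   x7_6 (x7_5 (x7_4 (x3_2 (x3_1 (x3_0 (s3_7 (s2_6 (s1_4 (s0_5 (n5 (n4 p9_27))))))))))),
   s3_7 (s2_4 (s1_5 (s0_6 p9_54))),
   tr p10_27],
  [tr p11_27,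
   tr p12_27,
   x7_6 (x7_5 (x7_4 (x3_2 (x3_1 (x3_0 (tr (n5 (n4 (n0 p12_29))))))))),
   x7_6 (x7_5 (x7_4 (x3_2 (x3_1 (x3_0 (tr (n5 (n4 (n0 p11_29))))))))),
   tr p13_27,
   tr p14_27,
   x7_6 (x7_5 (x7_4 (x3_2 (x3_1 (x3_0 (tr (n5 (n4 (n0 p14_29))))))))),
   x7_6 (x7_5 (x7_4 (x3_2 (x3_1 (x3_0 (tr (n5 (n4 (n0 p13_29)))))))))],
  [s3_7 (s2_6 (s1_4 (s0_5 p11_29))),
   s3_7 (s2_6 (s1_4 (s0_5 p12_29))),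
   s3_7 (s2_6 (s1_4 (s0_5 p13_29))),
   s3_7 (s2_6 (s1_4 (s0_5 p14_29))),
   x7_6 (x7_5 (x7_4 (x3_2 (x3_1 (x3_0 (s3_7 (s2_6 (s1_4 (s0_5 (n5 (n4 (n0 p12_27)))))))))))),
   x7_6 (x7_5 (x7_4 (x3_2 (x3_1 (x3_0 (s3_7 (s2_6 (s1_4 (s0_5 (n5 (n4 (n0 p11_27)))))))))))),
   x7_6 (x7_5 (x7_4 (x3_2 (x3_1 (x3_0 (s3_7 (s2_6 (s1_4 (s0_5 (n5 (n4 (n0 p14_27)))))))))))),
   x7_6 (x7_5 (x7_4 (x3_2 (x3_1 (x3_0 (s3_7 (s2_6 (s1_4 (s0_5 (n5 (n4 (n0 p13_27))))))))))))],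
  [tr p15_27,
   tr p16_27,
   tr p17_27,
   p18_27,
   s3_7 (s2_6 (s1_4 (s0_5 p17_29))),
   p18_29,
   x7_6 (x7_5 (x7_4 (x3_2 (x3_1 (x3_0 (s3_7 (s2_6 (s1_4 (s0_5 (n5 (n4 (n1 (n0 p15_27))))))))))))),
   x7_6 (x7_5 (x7_4 (x3_2 (x3_1 (x3_0 (s3_7 (s2_6 (s1_4 (s0_5 (n5 (n4 (n1 (n0 p16_27)))))))))))))],
  [s5_6 (s4_6 (s3_7 (s2_4 (s1_6 (s0_5 p11_53))))),
   s5_6 (s4_6 (s3_7 (s2_4 (s1_6 (s0_5 p13_53))))),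
   s5_6 (s4_6 (s3_7 (s2_4 (s1_6 (s0_5 p12_53))))),
   s5_6 (s4_6 (s3_7 (s2_4 (s1_6 (s0_5 p14_53))))),
   s3_7 (s2_4 (s1_5 (s0_6 p12_54))),
   s3_7 (s2_4 (s1_5 (s0_6 p14_54))),
   x7_6 (x7_5 (x7_4 (x3_2 (x3_1 (x3_0 (s3_7 (s2_4 (s1_5 (s0_6 (n6 (n5 (n0 p11_53)))))))))))),
   x7_6 (x7_5 (x7_4 (x3_2 (x3_1 (x3_0 (s3_7 (s2_4 (s1_5 (s0_6 (n6 (n5 (n0 p13_53))))))))))))],
  [s3_7 (s2_5 (s1_6 (s0_4 p15_43))),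
   s3_7 (s2_5 (s1_6 (s0_4 p17_43))),
   s3_7 (s2_5 (s1_6 (s0_4 p16_43))),
   p18_43,
   x7_6 (x7_5 (x7_4 (x3_2 (x3_1 (x3_0 (s3_7 (s2_5 (s1_6 (s0_4 (n6 (n4 (n1 (n0 p17_46))))))))))))),
   x7_6 (x7_5 (x7_4 (x3_2 (x3_1 (x3_0 (s3_7 (s2_5 (s1_6 (s0_4 (n6 (n4 (n1 (n0 p15_46))))))))))))),
   p18_46,
   x7_6 (x7_5 (x7_4 (x3_2 (x3_1 (x3_0 (s3_7 (s2_5 (s1_6 (s0_4 (n6 (n4 (n1 (n0 p16_46)))))))))))))],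
  [s5_6 (s4_5 (s3_7 (s2_5 (s1_4 (s0_6 p15_46))))),
   s5_6 (s4_5 (s3_7 (s2_5 (s1_4 (s0_6 p17_46))))),
   x7_6 (x7_5 (x7_4 (s5_6 (s4_5 (x3_2 (x3_1 (x3_0 (s3_7 (s2_5 (s1_4 (s0_6 (n6 (n4 (n1 (n0 p17_43))))))))))))))),
   x7_6 (x7_5 (x7_4 (s5_6 (s4_5 (x3_2 (x3_1 (x3_0 (s3_7 (s2_5 (s1_4 (s0_6 (n6 (n4 (n1 (n0 p15_43))))))))))))))),
   s5_6 (s4_5 (s3_7 (s2_5 (s1_4 (s0_6 p16_46))))),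
   s5_6 (s4_5 (s3_7 (s2_5 (s1_4 (s0_6 p18_46))))),
   x7_6 (x7_5 (x7_4 (s4_5 (x3_2 (x3_1 (x3_0 (s0_1 (n6 (n4 (n1 (n0 p18_43))))))))))),
   x7_6 (x7_5 (x7_4 (s5_6 (s4_5 (x3_2 (x3_1 (x3_0 (s3_7 (s2_5 (s1_4 (s0_6 (n6 (n4 (n1 (n0 p16_43)))))))))))))))],
  [tr p19_27,
   tr p20_27,
   s3_7 (s2_5 (s1_6 (s0_4 p20_43))),
   tr p21_27,
   x7_6 (x7_5 (x7_4 (s5_6 (s4_5 (x3_2 (x3_1 (x3_0 (s3_7 (s2_5 (s1_4 (s0_6 (n6 (n4 (n2 (n1 (n0 p20_43)))))))))))))))),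
   x7_6 (x7_5 (x7_4 (x3_2 (x3_1 (x3_0 (s3_7 (s2_6 (s1_4 (s0_5 (n5 (n4 (n2 (n1 (n0 p21_27)))))))))))))),
   s3_7 (s2_4 (s1_5 (s0_6 p21_54))),
   tr p22_27]]

theorem k18 : eqNN c18 (slO 64 (D.chG 1 27) 8) = true := by decide +kernel

/-- The slices of the chunk 19. -/
noncomputable def c19 : List (List ℕ) := [
  [tr p7_56,
   p19_1,
   s5_6 (s1_2 p19_1),
   p19_3,
   s4_6 (s0_2 p19_1),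
   s4_5 (s0_1 p19_3),
   s4_6 (s0_2 p19_3),
   tr p10_56],
  [p19_8,
   p19_9,
   s5_6 (s1_2 p19_9),
   x7_6 (x7_5 (x7_4 (x3_2 (x3_1 (x3_0 (n4 (n2 (n1 (n0 p19_8))))))))),
   p19_12,
   p19_13,
   s5_6 (s1_2 p19_13),
   x7_6 (x7_5 (x7_4 (x3_2 (x3_1 (x3_0 (n4 (n2 (n1 (n0 p19_12)))))))))],
  [s4_5 (s0_1 p19_8),
   s4_5 (s0_1 p19_9),
   s4_5 (s0_1 p19_12),
   s4_5 (s0_1 p19_13),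
   s5_6 (s4_6 (s1_2 (s0_2 p19_9))),
   x7_6 (x7_5 (x7_4 (s4_5 (x3_2 (x3_1 (x3_0 (s0_1 (n4 (n2 (n1 (n0 p19_8))))))))))),
   s5_6 (s4_6 (s1_2 (s0_2 p19_13))),
   x7_6 (x7_5 (x7_4 (s4_5 (x3_2 (x3_1 (x3_0 (s0_1 (n4 (n2 (n1 (n0 p19_12)))))))))))],
  [p19_24,
   p19_25,
   p19_26,
   p19_27,
   s4_5 (s0_1 p19_26),
   s4_5 (s0_1 p19_27),
   x7_6 (x7_5 (x7_4 (x3_2 (x3_1 (x3_0 (n5 (n4 (n2 (n1 (n0 p19_24)))))))))),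
   x7_6 (x7_5 (x7_4 (x3_2 (x3_1 (x3_0 (n5 (n4 (n2 (n1 (n0 p19_25))))))))))],
  [s4_6 (s0_2 p19_8),
   s4_6 (s0_2 p19_12),
   s5_6 (s4_5 (s1_2 (s0_1 p19_9))),
   s5_6 (s4_5 (s1_2 (s0_1 p19_13))),
   s4_6 (s0_2 p19_9),
   s4_6 (s0_2 p19_13),
   x7_6 (x7_5 (x7_4 (s4_6 (x3_2 (x3_1 (x3_0 (s0_2 (n4 (n2 (n1 (n0 p19_8))))))))))),
   x7_6 (x7_5 (x7_4 (s4_6 (x3_2 (x3_1 (x3_0 (s0_2 (n4 (n2 (n1 (n0 p19_12)))))))))))],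
  [s5_6 (s1_2 p19_24),
   s5_6 (s1_2 p19_26),
   s5_6 (s1_2 p19_25),
   s5_6 (s1_2 p19_27),
   s5_6 (s4_5 (s1_2 (s0_1 p19_26))),
   x7_6 (x7_5 (x7_4 (s5_6 (x3_2 (x3_1 (x3_0 (s1_2 (n5 (n4 (n2 (n1 (n0 p19_24)))))))))))),
   s5_6 (s4_5 (s1_2 (s0_1 p19_27))),
   x7_6 (x7_5 (x7_4 (s5_6 (x3_2 (x3_1 (x3_0 (s1_2 (n5 (n4 (n2 (n1 (n0 p19_25))))))))))))],
  [s4_6 (s0_2 p19_24),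
   s5_6 (s4_6 (s1_2 (s0_2 p19_26))),
   s4_6 (s0_2 p19_26),
   x7_6 (x7_5 (x7_4 (s4_6 (x3_2 (x3_1 (x3_0 (s0_2 (n5 (n4 (n2 (n1 (n0 p19_24)))))))))))),
   s4_6 (s0_2 p19_25),
   s5_6 (s4_6 (s1_2 (s0_2 p19_27))),
   s4_6 (s0_2 p19_27),
   x7_6 (x7_5 (x7_4 (s4_6 (x3_2 (x3_1 (x3_0 (s0_2 (n5 (n4 (n2 (n1 (n0 p19_25))))))))))))],
  [p19_56,
   p19_57,
   s5_6 (s1_2 p19_57),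
   p19_59,
   s4_6 (s0_2 p19_57),
   s4_5 (s0_1 p19_59),
   s4_6 (s0_2 p19_59),
   p19_63]]

theorem k19 : eqNN c19 (slO 64 (D.chG 1 56) 8) = true := by decide +kernel

end Pool.Agent.Lib.MP_afdd4d_co.K10.E6
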