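import Pool.Agent.Lib.MP_afdd4d_co.K10.E6.Dat
import Pool.Agent.Lib.MP_afdd4d_co.K10.E6.Mk
import Pool.Agent.Lib.MP_afdd4d_co.K8.F6Bl5
import Pool.Agent.Lib.MP_afdd4d_co.K10.E6.P0
import Pool.Agent.Lib.MP_afdd4d_co.K10.E6.P1
import Pool.Agent.Lib.MP_afdd4d_co.K10.E6.P2
import Pool.Agent.Lib.MP_afdd4d_co.K10.E6.P3
import Pool.Agent.Lib.MP_afdd4d_co.K10.E6.P4
import Pool.Agent.Lib.MP_afdd4d_co.K10.E6.P5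
import Pool.Agent.Lib.MP_afdd4d_co.K10.E6.P6
import Pool.Agent.Lib.MP_afdd4d_co.K10.E6.P7
import Pool.Agent.Lib.MP_afdd4d_co.K10.E6.P8
import Pool.Agent.Lib.MP_afdd4d_co.K10.E6.P9
import Pool.Agent.Lib.MP_afdd4d_co.K10.E6.P10
import Pool.Agent.Lib.MP_afdd4d_co.K10.E6.P11
import Pool.Agent.Lib.MP_afdd4d_co.K10.E6.P12
import Pool.Agent.Lib.MP_afdd4d_co.K10.E6.P13
import Pool.Agent.Lib.MP_afdd4d_co.K10.E6.P14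
import Pool.Agent.Lib.MP_afdd4d_co.K10.E6.P15
import Pool.Agent.Lib.MP_afdd4d_co.K10.E6.P16
import Pool.Agent.Lib.MP_afdd4d_co.K10.E6.P17
import Pool.Agent.Lib.MP_afdd4d_co.K10.E6.P18
import Pool.Agent.Lib.MP_afdd4d_co.K10.E6.P19
import Pool.Agent.Lib.MP_afdd4d_co.K10.E6.P20
import Pool.Agent.Lib.MP_afdd4d_co.K10.E6.P21
import Pool.Agent.Lib.MP_afdd4d_co.K10.E6.P22
import Pool.Agent.Lib.MP_afdd4d_co.K10.E6.P23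
import Pool.Agent.Lib.MP_afdd4d_co.K10.E6.P24
import Pool.Agent.Lib.MP_afdd4d_co.K10.E6.P25
import Pool.Agent.Lib.MP_afdd4d_co.K10.E6.P26
import Pool.Agent.Lib.MP_afdd4d_co.K10.E6.P27
import Pool.Agent.Lib.MP_afdd4d_co.K10.E6.P28
import Pool.Agent.Lib.MP_afdd4d_co.K10.E6.P29
import Pool.Agent.Lib.MP_afdd4d_co.K10.E6.P30
import Pool.Agent.Lib.MP_afdd4d_co.K10.E6.P31
import Pool.Agent.Lib.MP_afdd4d_co.K10.E6.P32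

/-!
# Tables
-/

namespace Pool.Agent.Lib.MP_afdd4d_co.K10.E6

open K8

set_option maxRecDepth 100000
set_option exponentiation.threshold 10000000

/-- The slices of the chunk 176. -/
noncomputable def c176 : List (List ℕ) := [
  [p176_0,
   tr p139_61,
   tr p140_61,
   p176_3,
   p176_4,
   p176_5,
   p176_6,
   p176_7],
  [tr p146_61,
   x6_7 (x6_5 (x6_4 (s5_7 (x2_3 (x2_1 (x2_0 (s1_3 (n3 (n1 p176_0))))))))),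
   x6_7 (x6_5 (x6_4 (s5_7 (x2_3 (x2_1 (x2_0 (s1_3 (n4 (n3 (n1 p176_3)))))))))),
   tr p147_61,
   p176_12,
   p176_13,
   p176_14,
   p176_15],
  [p176_16,
   tr p153_61,
   tr p154_61,
   p176_19,
   p176_20,
   p176_21,
   p176_22,
   p176_23],
  [tr p160_61,
   x6_7 (x6_5 (x6_4 (s5_7 (x2_3 (x2_1 (x2_0 (s1_3 (n3 (n1 p176_16))))))))),
   x6_7 (x6_5 (x6_4 (s5_7 (x2_3 (x2_1 (x2_0 (s1_3 (n4 (n3 (n1 p176_19)))))))))),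
   tr p161_61,
   p176_28,
   p176_29,
   p176_30,
   p176_31],
  [x6_7 (x6_5 (x6_4 (s5_7 (x2_3 (x2_1 (x2_0 (s1_3 (n5 (n3 (n1 p176_28)))))))))),
   x6_7 (x6_5 (x6_4 (s5_7 (x2_3 (x2_1 (x2_0 (s1_3 (n5 (n3 (n1 p176_20)))))))))),
   x6_7 (x6_5 (x6_4 (s5_7 (x2_3 (x2_1 (x2_0 (s1_3 (n5 (n4 (n3 (n1 p176_23))))))))))),
   x6_7 (x6_5 (x6_4 (s5_7 (x2_3 (x2_1 (x2_0 (s1_3 (n5 (n4 (n3 (n1 p176_31))))))))))),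
   tr p166_61,
   p176_37,
   p176_38,
   tr p169_61],
  [x6_7 (x6_5 (x6_4 (s5_7 (x2_3 (x2_1 (x2_0 (s1_3 (n5 (n3 (n1 p176_29)))))))))),
   x6_7 (x6_5 (x6_4 (s5_7 (x2_3 (x2_1 (x2_0 (s1_3 (n5 (n3 (n1 p176_21)))))))))),
   x6_7 (x6_5 (x6_4 (s5_7 (x2_3 (x2_1 (x2_0 (s1_3 (n5 (n4 (n3 (n1 p176_22))))))))))),
   x6_7 (x6_5 (x6_4 (s5_7 (x2_3 (x2_1 (x2_0 (s1_3 (n5 (n4 (n3 (n1 p176_30))))))))))),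
   x6_7 (x6_5 (x6_4 (s5_7 (x2_3 (x2_1 (x2_0 (s1_3 (n7 (n5 (n3 (n1 p176_37))))))))))),
   tr p170_61,
   tr p171_61,
   x6_7 (x6_5 (x6_4 (s5_7 (x2_3 (x2_1 (x2_0 (s1_3 (n7 (n5 (n4 (n3 (n1 p176_38))))))))))))],
  [x6_7 (x6_5 (x6_4 (s5_7 (x2_3 (x2_1 (x2_0 (s1_3 (n5 (n3 (n1 p176_12)))))))))),
   x6_7 (x6_5 (x6_4 (s5_7 (x2_3 (x2_1 (x2_0 (s1_3 (n5 (n3 (n1 p176_4)))))))))),
   x6_7 (x6_5 (x6_4 (s5_7 (x2_3 (x2_1 (x2_0 (s1_3 (n5 (n4 (n3 (n1 p176_7))))))))))),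
   x6_7 (x6_5 (x6_4 (s5_7 (x2_3 (x2_1 (x2_0 (s1_3 (n5 (n4 (n3 (n1 p176_15))))))))))),
   tr p172_61,
   p176_53,
   p176_54,
   tr p175_61],
  [x6_7 (x6_5 (x6_4 (s5_7 (x2_3 (x2_1 (x2_0 (s1_3 (n5 (n3 (n1 p176_13)))))))))),
   x6_7 (x6_5 (x6_4 (s5_7 (x2_3 (x2_1 (x2_0 (s1_3 (n5 (n3 (n1 p176_5)))))))))),
   x6_7 (x6_5 (x6_4 (s5_7 (x2_3 (x2_1 (x2_0 (s1_3 (n5 (n4 (n3 (n1 p176_6))))))))))),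
   x6_7 (x6_5 (x6_4 (s5_7 (x2_3 (x2_1 (x2_0 (s1_3 (n5 (n4 (n3 (n1 p176_14))))))))))),
   x6_7 (x6_5 (x6_4 (s5_7 (x2_3 (x2_1 (x2_0 (s1_3 (n7 (n5 (n3 (n1 p176_53))))))))))),
   p176_61,
   p176_62,
   x6_7 (x6_5 (x6_4 (s5_7 (x2_3 (x2_1 (x2_0 (s1_3 (n7 (n5 (n4 (n3 (n1 p176_54))))))))))))]]

theorem k176 : eqNN c176 (slO 64 (D.chG 21 61) 8) = true := by decide +kernel

/-- The slices of the chunk 177. -/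
noncomputable def c177 : List (List ℕ) := [
  [p177_0,
   tr p139_62,
   tr p140_62,
   p177_3,
   p177_4,
   p177_5,
   p177_6,
   p177_7],
  [tr p146_62,
   x6_7 (x6_5 (x6_4 (s5_7 (x2_3 (x2_1 (x2_0 (s1_3 (n3 (n1 (n0 p177_0)))))))))),
   x6_7 (x6_5 (x6_4 (s5_7 (x2_3 (x2_1 (x2_0 (s1_3 (n4 (n3 (n1 (n0 p177_3))))))))))),
   tr p147_62,
   p177_12,
   p177_13,
   p177_14,
   p177_15],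
  [p177_16,
   tr p153_62,
   tr p154_62,
   p177_19,
   p177_20,
   p177_21,
   p177_22,
   p177_23],
  [tr p160_62,
   x6_7 (x6_5 (x6_4 (s5_7 (x2_3 (x2_1 (x2_0 (s1_3 (n3 (n1 (n0 p177_16)))))))))),
   x6_7 (x6_5 (x6_4 (s5_7 (x2_3 (x2_1 (x2_0 (s1_3 (n4 (n3 (n1 (n0 p177_19))))))))))),
   tr p161_62,
   p177_28,
   p177_29,
   p177_30,
   p177_31],
  [x6_7 (x6_5 (x6_4 (s5_7 (x2_3 (x2_1 (x2_0 (s1_3 (n5 (n3 (n1 (n0 p177_28))))))))))),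
   x6_7 (x6_5 (x6_4 (s5_7 (x2_3 (x2_1 (x2_0 (s1_3 (n5 (n3 (n1 (n0 p177_20))))))))))),
   x6_7 (x6_5 (x6_4 (s5_7 (x2_3 (x2_1 (x2_0 (s1_3 (n5 (n4 (n3 (n1 (n0 p177_23)))))))))))),
   x6_7 (x6_5 (x6_4 (s5_7 (x2_3 (x2_1 (x2_0 (s1_3 (n5 (n4 (n3 (n1 (n0 p177_31)))))))))))),
   tr p166_62,
   p177_37,
   p177_38,
   tr p169_62],
  [x6_7 (x6_5 (x6_4 (s5_7 (x2_3 (x2_1 (x2_0 (s1_3 (n5 (n3 (n1 (n0 p177_29))))))))))),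
   x6_7 (x6_5 (x6_4 (s5_7 (x2_3 (x2_1 (x2_0 (s1_3 (n5 (n3 (n1 (n0 p177_21))))))))))),
   x6_7 (x6_5 (x6_4 (s5_7 (x2_3 (x2_1 (x2_0 (s1_3 (n5 (n4 (n3 (n1 (n0 p177_22)))))))))))),
   x6_7 (x6_5 (x6_4 (s5_7 (x2_3 (x2_1 (x2_0 (s1_3 (n5 (n4 (n3 (n1 (n0 p177_30)))))))))))),
   x6_7 (x6_5 (x6_4 (s5_7 (x2_3 (x2_1 (x2_0 (s1_3 (n7 (n5 (n3 (n1 (n0 p177_37)))))))))))),
   tr p170_62,
   tr p171_62,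
   x6_7 (x6_5 (x6_4 (s5_7 (x2_3 (x2_1 (x2_0 (s1_3 (n7 (n5 (n4 (n3 (n1 (n0 p177_38)))))))))))))],
  [x6_7 (x6_5 (x6_4 (s5_7 (x2_3 (x2_1 (x2_0 (s1_3 (n5 (n3 (n1 (n0 p177_12))))))))))),
   x6_7 (x6_5 (x6_4 (s5_7 (x2_3 (x2_1 (x2_0 (s1_3 (n5 (n3 (n1 (n0 p177_4))))))))))),
   x6_7 (x6_5 (x6_4 (s5_7 (x2_3 (x2_1 (x2_0 (s1_3 (n5 (n4 (n3 (n1 (n0 p177_7)))))))))))),
   x6_7 (x6_5 (x6_4 (s5_7 (x2_3 (x2_1 (x2_0 (s1_3 (n5 (n4 (n3 (n1 (n0 p177_15)))))))))))),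
   tr p172_62,
   p177_53,
   p177_54,
   tr p175_62],
  [x6_7 (x6_5 (x6_4 (s5_7 (x2_3 (x2_1 (x2_0 (s1_3 (n5 (n3 (n1 (n0 p177_13))))))))))),
   x6_7 (x6_5 (x6_4 (s5_7 (x2_3 (x2_1 (x2_0 (s1_3 (n5 (n3 (n1 (n0 p177_5))))))))))),
   x6_7 (x6_5 (x6_4 (s5_7 (x2_3 (x2_1 (x2_0 (s1_3 (n5 (n4 (n3 (n1 (n0 p177_6)))))))))))),
   x6_7 (x6_5 (x6_4 (s5_7 (x2_3 (x2_1 (x2_0 (s1_3 (n5 (n4 (n3 (n1 (n0 p177_14)))))))))))),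
   x6_7 (x6_5 (x6_4 (s5_7 (x2_3 (x2_1 (x2_0 (s1_3 (n7 (n5 (n3 (n1 (n0 p177_53)))))))))))),
   tr p176_62,
   p177_62,
   x6_7 (x6_5 (x6_4 (s5_7 (x2_3 (x2_1 (x2_0 (s1_3 (n7 (n5 (n4 (n3 (n1 (n0 p177_54)))))))))))))]]

theorem k177 : eqNN c177 (slO 64 (D.chG 21 62) 8) = true := by decide +kernel

/-- The slices of the chunk 178. -/
noncomputable def c178 : List (List ℕ) := [
  [p178_0,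
   tr p179_0,
   tr p180_0,
   p178_3,
   p178_4,
   p178_5,
   p178_6,
   p178_7],
  [s3_6 (s2_7 (s1_5 (s0_4 p180_0))),
   s6_7 (s2_3 p178_3),
   p178_10,
   tr p184_0,
   p178_12,
   p178_13,
   p178_14,
   p178_15],
  [s6_7 (s2_3 p178_4),
   s6_7 (s2_3 p178_5),
   s6_7 (s2_3 p178_12),
   s6_7 (s2_3 p178_13),
   tr p188_0,
   p178_21,
   tr p190_0,
   p178_23],
  [s6_7 (s2_3 p178_6),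
   s6_7 (s2_3 p178_7),
   s6_7 (s2_3 p178_14),
   s6_7 (s2_3 p178_15),
   s3_6 (s2_7 (s1_5 (s0_4 p190_0))),
   s6_7 (s2_3 p178_23),
   tr p192_0,
   p178_31],
  [p178_32,
   x7_6 (x7_5 (x7_4 (x3_2 (x3_1 (x3_0 (s3_7 (s2_5 (s1_6 (s0_4 (n1 p188_3)))))))))),
   p178_34,
   p178_35,
   s6_7 (s2_3 p178_48),
   s6_7 (s2_3 p178_49),
   s6_7 (s2_3 p178_56),
   s6_7 (s2_3 p178_57)],
  [s6_7 (s2_3 p178_34),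
   s6_7 (s2_3 p178_35),
   x7_6 (x7_5 (x7_4 (s6_7 (s5_6 (x3_2 (x3_1 (x3_0 (s3_6 (s2_5 (s1_7 (s0_4 (n1 (n0 p190_9))))))))))))),
   x7_6 (x7_5 (x7_4 (x3_2 (x3_1 (x3_0 (s3_7 (s2_5 (s1_6 (s0_4 (n1 (n0 p192_3))))))))))),
   p178_44,
   s6_7 (s2_3 p178_51),
   s6_7 (s2_3 p178_58),
   p178_47],
  [p178_48,
   p178_49,
   s6_7 (s2_3 p178_44),
   p178_51,
   tr p193_0,
   p178_53,
   p178_54,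
   tr p195_0],
  [p178_56,
   p178_57,
   p178_58,
   s6_7 (s2_3 p178_47),
   s6_7 (s2_3 p178_54),
   s3_6 (s2_7 (s1_5 (s0_4 p195_0))),
   tr p196_0,
   p178_63]]

theorem k178 : eqNN c178 (slO 64 (D.chG 23 0) 8) = true := by decide +kernel

/-- The slices of the chunk 179. -/
noncomputable def c179 : List (List ℕ) := [
  [p179_0,
   p179_1,
   p179_2,
   x7_6 (x7_5 (x7_4 (s5_6 (x3_2 (x3_1 (x3_0 (s1_2 p179_0))))))),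
   p179_4,
   p179_5,
   p179_6,
   x7_6 (x7_5 (x7_4 (s5_6 (x3_2 (x3_1 (x3_0 (s1_2 p179_4)))))))],
  [s6_7 (s2_3 p179_2),
   x6_7 (x6_5 (x6_4 (s5_7 (x2_3 (x2_1 (x2_0 (s1_3 p179_0))))))),
   x5_7 (x5_6 (x5_4 (x1_3 (x1_2 (x1_0 (n4 p179_0)))))),
   p179_11,
   p179_12,
   p179_13,
   x7_6 (x7_5 (x7_4 (s5_6 (x3_2 (x3_1 (x3_0 (s1_2 (n4 p179_13)))))))),
   p179_15],
  [s6_7 (s2_3 p179_4),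
   s6_7 (s2_3 p179_5),
   s6_7 (s2_3 p179_12),
   s6_7 (s2_3 p179_13),
   p179_20,
   p179_21,
   p179_22,
   s6_7 (s2_3 p179_29)],
  [s6_7 (s2_3 p179_6),
   x7_6 (x7_5 (x7_4 (x6_7 (x6_5 (x6_4 (s5_6 (x3_2 (x3_1 (x3_0 (x2_3 (x2_1 (x2_0 (s1_2 p179_4))))))))))))),
   x7_6 (x7_5 (x7_4 (x6_7 (x6_5 (x6_4 (s5_6 (x3_2 (x3_1 (x3_0 (x2_3 (x2_1 (x2_0 (s1_2 (n4 p179_13)))))))))))))),
   s6_7 (s2_3 p179_15),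
   s6_7 (s2_3 p179_22),
   p179_29,
   p179_30,
   x5_7 (x5_6 (x5_4 (x1_3 (x1_2 (x1_0 (n7 (n6 p179_21)))))))],
  [x7_6 (x7_5 (x7_4 (s5_6 (x3_2 (x3_1 (x3_0 (s1_2 (n5 p179_22)))))))),
   x6_7 (x6_5 (x6_4 (s5_7 (x2_3 (x2_1 (x2_0 (s1_3 (n5 p179_20)))))))),
   x7_6 (x7_5 (x7_4 (s6_7 (s5_7 (x3_2 (x3_1 (x3_0 (s2_3 (s1_3 (n5 p179_29)))))))))),
   x7_6 (x7_5 (x7_4 (s5_6 (x3_2 (x3_1 (x3_0 (s1_2 (n5 p179_21)))))))),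
   x5_7 (x5_6 (x5_4 (x1_3 (x1_2 (x1_0 (n6 (n4 p179_12))))))),
   x7_6 (x7_5 (x7_4 (s6_7 (s5_7 (x3_2 (x3_1 (x3_0 (s2_3 (s1_3 (n5 p179_4)))))))))),
   x7_6 (x7_5 (x7_4 (s6_7 (s5_7 (x3_2 (x3_1 (x3_0 (s2_3 (s1_3 (n5 p179_13)))))))))),
   x5_7 (x5_6 (x5_4 (x1_3 (x1_2 (x1_0 (n6 p179_5))))))],
  [x6_7 (x6_5 (x6_4 (s5_7 (x2_3 (x2_1 (x2_0 (s1_3 (n5 p179_29)))))))),
   x6_7 (x6_5 (x6_4 (s5_7 (x2_3 (x2_1 (x2_0 (s1_3 (n5 p179_21)))))))),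
   x6_7 (x6_5 (x6_4 (s5_7 (x2_3 (x2_1 (x2_0 (s1_3 (n5 (n4 p179_22))))))))),
   x6_7 (x6_5 (x6_4 (s5_7 (x2_3 (x2_1 (x2_0 (s1_3 (n5 (n4 p179_30))))))))),
   x5_7 (x5_6 (x5_4 (x1_3 (x1_2 (x1_0 (n6 (n4 p179_4))))))),
   x5_7 (x5_6 (x5_4 (x1_3 (x1_2 (x1_0 (n6 p179_15)))))),
   x5_7 (x5_6 (x5_4 (x1_3 (x1_2 (x1_0 (n6 (n4 p179_6))))))),
   x5_7 (x5_6 (x5_4 (x1_3 (x1_2 (x1_0 (n6 p179_13))))))],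
  [x6_7 (x6_5 (x6_4 (s5_7 (x2_3 (x2_1 (x2_0 (s1_3 (n5 p179_12)))))))),
   x6_7 (x6_5 (x6_4 (s5_7 (x2_3 (x2_1 (x2_0 (s1_3 (n5 p179_4)))))))),
   s6_7 (x5_7 (x5_6 (x5_4 (s2_3 (x1_3 (x1_2 (x1_0 (n6 (n4 p179_4))))))))),
   s6_7 (x5_7 (x5_6 (x5_4 (s2_3 (x1_3 (x1_2 (x1_0 (n6 p179_15)))))))),
   p179_52,
   p179_53,
   x7_6 (x7_5 (x7_4 (s5_6 (x3_2 (x3_1 (x3_0 (s1_2 (n6 (n5 p179_53))))))))),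
   p179_55],
  [x6_7 (x6_5 (x6_4 (s5_7 (x2_3 (x2_1 (x2_0 (s1_3 (n5 p179_13)))))))),
   s6_7 (x5_7 (x5_6 (x5_4 (s2_3 (x1_3 (x1_2 (x1_0 (n6 p179_5)))))))),
   s6_7 (x5_7 (x5_6 (x5_4 (s2_3 (x1_3 (x1_2 (x1_0 (n6 (n4 p179_6))))))))),
   s6_7 (x5_7 (x5_6 (x5_4 (s2_3 (x1_3 (x1_2 (x1_0 (n6 p179_13)))))))),
   x6_7 (x6_5 (x6_4 (s5_7 (x2_3 (x2_1 (x2_0 (s1_3 (n7 (n5 p179_53))))))))),
   s6_7 (s2_3 p179_55),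
   p179_62,
   x5_7 (x5_6 (x5_4 (x1_3 (x1_2 (x1_0 (n7 (n6 p179_53)))))))]]

theorem k179 : eqNN c179 (slO 64 (D.chG 23 1) 8) = true := by decide +kernel

end Pool.Agent.Lib.MP_afdd4d_co.K10.E6
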