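import Pool.Agent.Lib.MP_afdd4d_co.K10.E6.Dat
import Pool.Agent.Lib.MP_afdd4d_co.K10.E6.Mk
import Pool.Agent.Lib.MP_afdd4d_co.K8.F6Bl5
import Pool.Agent.Lib.MP_afdd4d_co.K10.E6.P0
import Pool.Agent.Lib.MP_afdd4d_co.K10.E6.P1
import Pool.Agent.Lib.MP_afdd4d_co.K10.E6.P2
import Pool.Agent.Lib.MP_afdd4d_co.K10.E6.P3
import Pool.Agent.Lib.MP_afdd4d_co.K10.E6.P4
import Pool.Agent.Lib.MP_afdd4d_co.K10.E6.P5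
import Pool.Agent.Lib.MP_afdd4d_co.K10.E6.P6
import Pool.Agent.Lib.MP_afdd4d_co.K10.E6.P7
import Pool.Agent.Lib.MP_afdd4d_co.K10.E6.P8
import Pool.Agent.Lib.MP_afdd4d_co.K10.E6.P9
import Pool.Agent.Lib.MP_afdd4d_co.K10.E6.P10
import Pool.Agent.Lib.MP_afdd4d_co.K10.E6.P11
import Pool.Agent.Lib.MP_afdd4d_co.K10.E6.P12
import Pool.Agent.Lib.MP_afdd4d_co.K10.E6.P13
import Pool.Agent.Lib.MP_afdd4d_co.K10.E6.P14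
import Pool.Agent.Lib.MP_afdd4d_co.K10.E6.P15
import Pool.Agent.Lib.MP_afdd4d_co.K10.E6.P16
import Pool.Agent.Lib.MP_afdd4d_co.K10.E6.P17
import Pool.Agent.Lib.MP_afdd4d_co.K10.E6.P18
import Pool.Agent.Lib.MP_afdd4d_co.K10.E6.P19
import Pool.Agent.Lib.MP_afdd4d_co.K10.E6.P20
import Pool.Agent.Lib.MP_afdd4d_co.K10.E6.P21
import Pool.Agent.Lib.MP_afdd4d_co.K10.E6.P22
import Pool.Agent.Lib.MP_afdd4d_co.K10.E6.P23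
import Pool.Agent.Lib.MP_afdd4d_co.K10.E6.P24
import Pool.Agent.Lib.MP_afdd4d_co.K10.E6.P25
import Pool.Agent.Lib.MP_afdd4d_co.K10.E6.P26
import Pool.Agent.Lib.MP_afdd4d_co.K10.E6.P27
import Pool.Agent.Lib.MP_afdd4d_co.K10.E6.P28
import Pool.Agent.Lib.MP_afdd4d_co.K10.E6.P29
import Pool.Agent.Lib.MP_afdd4d_co.K10.E6.P30
import Pool.Agent.Lib.MP_afdd4d_co.K10.E6.P31
import Pool.Agent.Lib.MP_afdd4d_co.K10.E6.P32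

/-!
# Tables
-/

namespace Pool.Agent.Lib.MP_afdd4d_co.K10.E6

open K8

set_option maxRecDepth 100000
set_option exponentiation.threshold 10000000

/-- The slices of the chunk 180. -/
noncomputable def c180 : List (List ℕ) := [
  [p180_0,
   tr p179_2,
   p180_2,
   x7_6 (x7_5 (x7_4 (s5_6 (x3_2 (x3_1 (x3_0 (s1_2 p180_0))))))),
   p180_4,
   p180_5,
   p180_6,
   x7_6 (x7_5 (x7_4 (s5_6 (x3_2 (x3_1 (x3_0 (s1_2 p180_4)))))))],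
  [p180_8,
   x6_7 (x6_5 (x6_4 (s5_7 (x2_3 (x2_1 (x2_0 (s1_3 (n0 p180_0)))))))),
   s6_7 (x5_7 (x5_6 (x5_4 (s2_3 (x1_3 (x1_2 (x1_0 (n4 (n0 p180_0))))))))),
   tr p184_2,
   p180_12,
   p180_13,
   x7_6 (x7_5 (x7_4 (s5_6 (x3_2 (x3_1 (x3_0 (s1_2 (n4 p180_13)))))))),
   p180_15],
  [p180_16,
   p180_17,
   p180_18,
   p180_19,
   p180_20,
   p180_21,
   p180_22,
   p180_23],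
  [p180_24,
   x6_7 (x6_5 (x6_4 (s5_7 (x2_3 (x2_1 (x2_0 (s1_3 (n0 p180_16)))))))),
   x6_7 (x6_5 (x6_4 (s5_7 (x2_3 (x2_1 (x2_0 (s1_3 (n4 (n0 p180_19))))))))),
   p180_27,
   s6_7 (x5_7 (x5_6 (x5_4 (s2_3 (x1_3 (x1_2 (x1_0 (n7 (n6 (n4 (n0 p180_22))))))))))),
   p180_29,
   p180_30,
   s6_7 (x5_7 (x5_6 (x5_4 (s2_3 (x1_3 (x1_2 (x1_0 (n7 (n6 (n0 p180_21))))))))))],
  [x7_6 (x7_5 (x7_4 (s5_6 (x3_2 (x3_1 (x3_0 (s1_2 (n5 p180_22)))))))),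
   x7_6 (x7_5 (x7_4 (s5_6 (x3_2 (x3_1 (x3_0 (s1_2 (n5 p180_20)))))))),
   x7_6 (x7_5 (x7_4 (s5_6 (x3_2 (x3_1 (x3_0 (s1_2 (n5 p180_23)))))))),
   x7_6 (x7_5 (x7_4 (s5_6 (x3_2 (x3_1 (x3_0 (s1_2 (n5 p180_21)))))))),
   x7_6 (x7_5 (x7_4 (s5_6 (x3_2 (x3_1 (x3_0 (s1_2 (n5 p180_18)))))))),
   x7_6 (x7_5 (x7_4 (s5_6 (x3_2 (x3_1 (x3_0 (s1_2 (n5 p180_16)))))))),
   x7_6 (x7_5 (x7_4 (s5_6 (x3_2 (x3_1 (x3_0 (s1_2 (n5 p180_19)))))))),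
   x7_6 (x7_5 (x7_4 (s5_6 (x3_2 (x3_1 (x3_0 (s1_2 (n5 p180_17))))))))],
  [x6_7 (x6_5 (x6_4 (s5_7 (x2_3 (x2_1 (x2_0 (s1_3 (n5 (n0 p180_29))))))))),
   x6_7 (x6_5 (x6_4 (s5_7 (x2_3 (x2_1 (x2_0 (s1_3 (n5 (n0 p180_21))))))))),
   x6_7 (x6_5 (x6_4 (s5_7 (x2_3 (x2_1 (x2_0 (s1_3 (n5 (n4 (n0 p180_22)))))))))),
   x7_6 (x7_5 (x7_4 (s5_6 (x3_2 (x3_1 (x3_0 (s1_2 (n5 (n4 p180_30))))))))),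
   s6_7 (x5_7 (x5_6 (x5_4 (s2_3 (x1_3 (x1_2 (x1_0 (n7 (n4 (n0 p180_16)))))))))),
   s6_7 (x5_7 (x5_6 (x5_4 (s2_3 (x1_3 (x1_2 (x1_0 (n7 (n0 p180_27))))))))),
   x7_6 (x7_5 (x7_4 (s5_6 (x3_2 (x3_1 (x3_0 (s1_2 (n5 (n4 p180_24))))))))),
   s6_7 (x5_7 (x5_6 (x5_4 (s2_3 (x1_3 (x1_2 (x1_0 (n7 (n0 p180_19)))))))))],
  [x6_7 (x6_5 (x6_4 (s5_7 (x2_3 (x2_1 (x2_0 (s1_3 (n5 (n0 p180_12))))))))),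
   x6_7 (x6_5 (x6_4 (s5_7 (x2_3 (x2_1 (x2_0 (s1_3 (n5 (n0 p180_4))))))))),
   s6_7 (x5_7 (x5_6 (x5_4 (s2_3 (x1_3 (x1_2 (x1_0 (n6 (n4 (n0 p180_4)))))))))),
   s6_7 (x5_7 (x5_6 (x5_4 (s2_3 (x1_3 (x1_2 (x1_0 (n6 (n0 p180_15))))))))),
   tr p193_2,
   p180_53,
   x7_6 (x7_5 (x7_4 (s5_6 (x3_2 (x3_1 (x3_0 (s1_2 (n6 (n5 p180_53))))))))),
   p180_55],
  [x6_7 (x6_5 (x6_4 (s5_7 (x2_3 (x2_1 (x2_0 (s1_3 (n5 (n0 p180_13))))))))),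
   s6_7 (x5_7 (x5_6 (x5_4 (s2_3 (x1_3 (x1_2 (x1_0 (n6 (n0 p180_5))))))))),
   s6_7 (x5_7 (x5_6 (x5_4 (s2_3 (x1_3 (x1_2 (x1_0 (n6 (n4 (n0 p180_6)))))))))),
   s6_7 (x5_7 (x5_6 (x5_4 (s2_3 (x1_3 (x1_2 (x1_0 (n6 (n0 p180_13))))))))),
   x6_7 (x6_5 (x6_4 (s5_7 (x2_3 (x2_1 (x2_0 (s1_3 (n7 (n5 (n0 p180_53)))))))))),
   p180_61,
   tr p196_2,
   s6_7 (x5_7 (x5_6 (x5_4 (s2_3 (x1_3 (x1_2 (x1_0 (n7 (n6 (n0 p180_53))))))))))]]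

theorem k180 : eqNN c180 (slO 64 (D.chG 23 2) 8) = true := by decide +kernel

/-- The slices of the chunk 181. -/
noncomputable def c181 : List (List ℕ) := [
  [tr p178_4,
   tr p179_4,
   tr p180_4,
   x7_6 (x7_5 (x7_4 (x3_2 (x3_1 (x3_0 (s3_7 (s2_5 (s1_6 (s0_4 p178_7))))))))),
   p181_4,
   tr p182_4,
   tr p183_4,
   p181_7],
  [s3_6 (s2_7 (s1_5 (s0_4 p180_16))),
   x6_7 (x6_5 (x6_4 (s5_6 (x3_2 (x3_1 (x3_0 (s3_6 (x2_6 (x2_1 (x2_0 (s2_5 (s1_7 (s0_4 (n7 p178_49)))))))))))))),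
   x5_7 (x5_6 (x5_4 (s3_7 (s2_6 (x1_7 (x1_6 (x1_0 (s1_5 (s0_4 (n6 (n4 (n0 p178_44)))))))))))),
   tr p184_4,
   tr p185_4,
   p181_13,
   p181_14,
   tr p187_4],
  [p181_16,
   s3_6 (s2_7 (s1_5 (s0_4 p182_16))),
   s3_6 (s2_7 (s1_5 (s0_4 p185_16))),
   p181_19,
   tr p188_4,
   tr p189_4,
   tr p190_4,
   tr p191_4],
  [s3_6 (s2_7 (s1_5 (s0_4 p183_16))),
   p181_25,
   p181_26,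
   s3_6 (s2_7 (s1_5 (s0_4 p187_16))),
   s3_6 (s2_7 (s1_5 (s0_4 p190_16))),
   s3_6 (s2_7 (s1_5 (s0_4 p191_16))),
   tr p192_4,
   x5_7 (x5_6 (x5_4 (s3_7 (s2_6 (x1_7 (x1_6 (x1_0 (s1_5 (s0_4 (n6 (n4 (n3 (n2 p189_44)))))))))))))],
  [x7_6 (x7_5 (x7_4 (x3_2 (x3_1 (x3_0 (s3_7 (s2_5 (s1_6 (s0_4 (n1 p190_7)))))))))),
   x7_6 (x7_5 (x7_4 (x3_2 (x3_1 (x3_0 (s3_7 (s2_5 (s1_6 (s0_4 (n1 p188_7)))))))))),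
   x7_6 (x7_5 (x7_4 (x3_2 (x3_1 (x3_0 (s3_7 (s2_5 (s1_6 (s0_4 (n1 p191_7)))))))))),
   x7_6 (x7_5 (x7_4 (x3_2 (x3_1 (x3_0 (s3_7 (s2_5 (s1_6 (s0_4 (n1 p189_7)))))))))),
   x7_6 (x7_5 (x7_4 (s6_7 (s5_6 (x3_2 (x3_1 (x3_0 (s3_6 (s2_5 (s1_7 (s0_4 (n1 p185_25)))))))))))),
   x7_6 (x7_5 (x7_4 (s6_7 (s5_6 (x3_2 (x3_1 (x3_0 (s3_6 (s2_5 (s1_7 (s0_4 (n1 p181_25)))))))))))),
   x7_6 (x7_5 (x7_4 (s6_7 (s5_6 (x3_2 (x3_1 (x3_0 (s3_6 (s2_5 (s1_7 (s0_4 (n1 p186_25)))))))))))),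
   x7_6 (x7_5 (x7_4 (s6_7 (s5_6 (x3_2 (x3_1 (x3_0 (s3_6 (s2_5 (s1_7 (s0_4 (n1 p182_25))))))))))))],
  [x7_6 (x7_5 (x7_4 (s6_7 (s5_6 (x3_2 (x3_1 (x3_0 (s3_6 (s2_5 (s1_7 (s0_4 (n1 (n0 p191_25))))))))))))),
   x6_7 (x6_5 (x6_4 (s5_6 (x3_2 (x3_1 (x3_0 (s3_6 (x2_6 (x2_1 (x2_0 (s2_5 (s1_7 (s0_4 (n7 (n1 p189_49))))))))))))))),
   x7_6 (x7_5 (x7_4 (s6_7 (s5_6 (x3_2 (x3_1 (x3_0 (s3_6 (s2_5 (s1_7 (s0_4 (n1 (n0 p190_25))))))))))))),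
   x7_6 (x7_5 (x7_4 (x3_2 (x3_1 (x3_0 (s3_7 (s2_5 (s1_6 (s0_4 (n1 (n0 p192_7))))))))))),
   p181_44,
   x5_7 (x5_6 (x5_4 (s3_7 (s2_6 (x1_7 (x1_6 (x1_0 (s1_5 (s0_4 (n6 (n4 (n2 p187_44)))))))))))),
   x7_6 (x7_5 (x7_4 (s6_7 (s5_6 (x3_2 (x3_1 (x3_0 (s3_6 (s2_5 (s1_7 (s0_4 (n1 (n0 p183_25))))))))))))),
   p181_47],
  [x5_7 (x5_6 (x5_4 (s3_6 (s2_7 (x1_7 (x1_6 (x1_0 (s1_5 (s0_4 (n7 (n4 (n2 (n0 p185_50))))))))))))),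
   p181_49,
   p181_50,
   x5_7 (x5_6 (x5_4 (s3_6 (s2_7 (x1_7 (x1_6 (x1_0 (s1_5 (s0_4 (n7 (n4 (n2 p187_50)))))))))))),
   tr p193_4,
   tr p194_4,
   x7_6 (x7_5 (x7_4 (x3_2 (x3_1 (x3_0 (s3_7 (s2_5 (s1_6 (s0_4 (n2 (n1 p194_7))))))))))),
   tr p195_4],
  [p181_56,
   x5_7 (x5_6 (x5_4 (s3_6 (s2_7 (x1_7 (x1_6 (x1_0 (s1_5 (s0_4 (n7 (n4 (n2 p182_50)))))))))))),
   x5_7 (x5_6 (x5_4 (s3_6 (s2_7 (x1_7 (x1_6 (x1_0 (s1_5 (s0_4 (n7 (n4 (n2 (n0 p183_50))))))))))))),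
   p181_59,
   x6_7 (x6_5 (x6_4 (s5_6 (x3_2 (x3_1 (x3_0 (s3_6 (x2_6 (x2_1 (x2_0 (s2_5 (s1_7 (s0_4 (n7 (n3 (n1 p194_49)))))))))))))))),
   s3_6 (s2_7 (s1_5 (s0_4 p195_16))),
   tr p196_4,
   x5_7 (x5_6 (x5_4 (s3_7 (s2_6 (x1_7 (x1_6 (x1_0 (s1_5 (s0_4 (n6 (n4 (n3 (n2 p194_44)))))))))))))]]

theorem k181 : eqNN c181 (slO 64 (D.chG 23 4) 8) = true := by decide +kernel

/-- The slices of the chunk 182. -/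
noncomputable def c182 : List (List ℕ) := [
  [tr p178_5,
   tr p179_5,
   tr p180_5,
   x7_6 (x7_5 (x7_4 (x3_2 (x3_1 (x3_0 (s3_7 (s2_5 (s1_6 (s0_4 p178_5))))))))),
   p182_4,
   p182_5,
   p182_6,
   x7_6 (x7_5 (x7_4 (s5_6 (x3_2 (x3_1 (x3_0 (s1_2 p182_4)))))))],
  [s3_6 (s2_7 (s1_5 (s0_4 p180_17))),
   x6_7 (x6_5 (x6_4 (s5_6 (x3_2 (x3_1 (x3_0 (s3_6 (x2_6 (x2_1 (x2_0 (s2_5 (s1_7 (s0_4 (n7 p178_57)))))))))))))),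
   x5_7 (x5_6 (x5_4 (s3_6 (s2_7 (x1_7 (x1_6 (x1_0 (s1_5 (s0_4 (n7 (n0 p178_57))))))))))),
   tr p184_5,
   p182_12,
   p182_13,
   x7_6 (x7_5 (x7_4 (s5_6 (x3_2 (x3_1 (x3_0 (s1_2 (n4 p182_13)))))))),
   p182_15],
  [p182_16,
   p182_17,
   p182_18,
   p182_19,
   tr p188_5,
   p182_21,
   tr p190_5,
   p182_23],
  [p182_24,
   p182_25,
   x7_6 (x7_5 (x7_4 (s5_6 (x3_2 (x3_1 (x3_0 (s1_2 (n6 (n4 p182_47))))))))),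
   p182_27,
   p182_28,
   p182_29,
   tr p192_5,
   x5_7 (x5_6 (x5_4 (s3_6 (s2_7 (x1_7 (x1_6 (x1_0 (s1_5 (s0_4 (n7 (n3 (n2 p189_57))))))))))))],
  [x7_6 (x7_5 (x7_4 (x3_2 (x3_1 (x3_0 (s3_7 (s2_5 (s1_6 (s0_4 (n1 p190_5)))))))))),
   x7_6 (x7_5 (x7_4 (x3_2 (x3_1 (x3_0 (s3_7 (s2_5 (s1_6 (s0_4 (n1 p188_5)))))))))),
   x7_6 (x7_5 (x7_4 (s5_6 (x3_2 (x3_1 (x3_0 (s1_2 (n5 p182_23)))))))),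
   x7_6 (x7_5 (x7_4 (s5_6 (x3_2 (x3_1 (x3_0 (s1_2 (n5 p182_21)))))))),
   x7_6 (x7_5 (x7_4 (s5_6 (x3_2 (x3_1 (x3_0 (s1_2 (n5 p182_18)))))))),
   x7_6 (x7_5 (x7_4 (s5_6 (x3_2 (x3_1 (x3_0 (s1_2 (n5 p182_16)))))))),
   x7_6 (x7_5 (x7_4 (s5_6 (x3_2 (x3_1 (x3_0 (s1_2 (n5 p182_19)))))))),
   x7_6 (x7_5 (x7_4 (s5_6 (x3_2 (x3_1 (x3_0 (s1_2 (n5 p182_17))))))))],
  [x7_6 (x7_5 (x7_4 (s5_6 (x3_2 (x3_1 (x3_0 (s1_2 (n5 (n4 p182_29))))))))),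
   x6_7 (x6_5 (x6_4 (s5_6 (x3_2 (x3_1 (x3_0 (s3_6 (x2_6 (x2_1 (x2_0 (s2_5 (s1_7 (s0_4 (n7 (n1 p189_57))))))))))))))),
   x7_6 (x7_5 (x7_4 (s5_6 (x3_2 (x3_1 (x3_0 (s1_2 (n5 (n4 p182_28))))))))),
   x7_6 (x7_5 (x7_4 (x3_2 (x3_1 (x3_0 (s3_7 (s2_5 (s1_6 (s0_4 (n1 (n0 p192_5))))))))))),
   x7_6 (x7_5 (x7_4 (s5_6 (x3_2 (x3_1 (x3_0 (s1_2 (n5 (n4 p182_25))))))))),
   x7_6 (x7_5 (x7_4 (s5_6 (x3_2 (x3_1 (x3_0 (s1_2 (n5 (n4 p182_27))))))))),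
   x7_6 (x7_5 (x7_4 (s5_6 (x3_2 (x3_1 (x3_0 (s1_2 (n5 (n4 p182_24))))))))),
   p182_47],
  [p182_48,
   x7_6 (x7_5 (x7_4 (s5_6 (x3_2 (x3_1 (x3_0 (s1_2 (n6 (n5 p182_50))))))))),
   p182_50,
   p182_51,
   tr p193_5,
   p182_53,
   x7_6 (x7_5 (x7_4 (s5_6 (x3_2 (x3_1 (x3_0 (s1_2 (n6 (n5 p182_53))))))))),
   tr p195_5],
  [x7_6 (x7_5 (x7_4 (s5_6 (x3_2 (x3_1 (x3_0 (s1_2 (n6 (n5 (n4 p182_59)))))))))),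
   p182_57,
   p182_58,
   p182_59,
   x6_7 (x6_5 (x6_4 (s5_6 (x3_2 (x3_1 (x3_0 (s3_6 (x2_6 (x2_1 (x2_0 (s2_5 (s1_7 (s0_4 (n7 (n3 (n1 p194_57)))))))))))))))),
   s3_6 (s2_7 (s1_5 (s0_4 p195_17))),
   tr p196_5,
   x5_7 (x5_6 (x5_4 (s3_6 (s2_7 (x1_7 (x1_6 (x1_0 (s1_5 (s0_4 (n7 (n3 (n2 p194_57))))))))))))]]

theorem k182 : eqNN c182 (slO 64 (D.chG 23 5) 8) = true := by decide +kernel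

/-- The slices of the chunk 183. -/
noncomputable def c183 : List (List ℕ) := [
  [tr p178_6,
   tr p179_6,
   tr p180_6,
   x7_6 (x7_5 (x7_4 (x3_2 (x3_1 (x3_0 (s3_7 (s2_5 (s1_6 (s0_4 p178_6))))))))),
   p183_4,
   tr p182_6,
   p183_6,
   x7_6 (x7_5 (x7_4 (s5_6 (x3_2 (x3_1 (x3_0 (s1_2 p183_4)))))))],
  [s3_6 (s2_7 (s1_5 (s0_4 p180_24))),
   x6_7 (x6_5 (x6_4 (s5_6 (x3_2 (x3_1 (x3_0 (s3_6 (x2_6 (x2_1 (x2_0 (s2_5 (s1_7 (s0_4 (n7 (n4 p178_58))))))))))))))),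
   x5_7 (x5_6 (x5_4 (s3_6 (s2_7 (x1_7 (x1_6 (x1_0 (s1_5 (s0_4 (n7 (n4 (n0 p178_58)))))))))))),
   tr p184_6,
   p183_12,
   p183_13,
   x7_6 (x7_5 (x7_4 (s5_6 (x3_2 (x3_1 (x3_0 (s1_2 (n4 p183_13)))))))),
   p183_15],
  [p183_16,
   s3_6 (s2_7 (s1_5 (s0_4 p182_24))),
   p183_18,
   p183_19,
   tr p188_6,
   p183_21,
   tr p190_6,
   p183_23],
  [p183_24,
   p183_25,
   x7_6 (x7_5 (x7_4 (s5_6 (x3_2 (x3_1 (x3_0 (s1_2 (n6 (n4 p183_47))))))))),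
   p183_27,
   p183_28,
   p183_29,
   tr p192_6,
   x5_7 (x5_6 (x5_4 (s3_6 (s2_7 (x1_7 (x1_6 (x1_0 (s1_5 (s0_4 (n7 (n4 (n3 (n2 p189_58)))))))))))))],
  [x7_6 (x7_5 (x7_4 (x3_2 (x3_1 (x3_0 (s3_7 (s2_5 (s1_6 (s0_4 (n1 p190_6)))))))))),
   x7_6 (x7_5 (x7_4 (x3_2 (x3_1 (x3_0 (s3_7 (s2_5 (s1_6 (s0_4 (n1 p188_6)))))))))),
   x7_6 (x7_5 (x7_4 (s5_6 (x3_2 (x3_1 (x3_0 (s1_2 (n5 p183_23)))))))),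
   x7_6 (x7_5 (x7_4 (s5_6 (x3_2 (x3_1 (x3_0 (s1_2 (n5 p183_21)))))))),
   x7_6 (x7_5 (x7_4 (s5_6 (x3_2 (x3_1 (x3_0 (s1_2 (n5 p183_18)))))))),
   x7_6 (x7_5 (x7_4 (s5_6 (x3_2 (x3_1 (x3_0 (s1_2 (n5 p183_16)))))))),
   x7_6 (x7_5 (x7_4 (s5_6 (x3_2 (x3_1 (x3_0 (s1_2 (n5 p183_19)))))))),
   x7_6 (x7_5 (x7_4 (s6_7 (s5_6 (x3_2 (x3_1 (x3_0 (s3_6 (s2_5 (s1_7 (s0_4 (n1 p182_24))))))))))))],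
  [x7_6 (x7_5 (x7_4 (s5_6 (x3_2 (x3_1 (x3_0 (s1_2 (n5 (n4 p183_29))))))))),
   x6_7 (x6_5 (x6_4 (s5_6 (x3_2 (x3_1 (x3_0 (s3_6 (x2_6 (x2_1 (x2_0 (s2_5 (s1_7 (s0_4 (n7 (n4 (n1 p189_58)))))))))))))))),
   x7_6 (x7_5 (x7_4 (s5_6 (x3_2 (x3_1 (x3_0 (s1_2 (n5 (n4 p183_28))))))))),
   x7_6 (x7_5 (x7_4 (x3_2 (x3_1 (x3_0 (s3_7 (s2_5 (s1_6 (s0_4 (n1 (n0 p192_6))))))))))),
   x7_6 (x7_5 (x7_4 (s5_6 (x3_2 (x3_1 (x3_0 (s1_2 (n5 (n4 p183_25))))))))),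
   x7_6 (x7_5 (x7_4 (s5_6 (x3_2 (x3_1 (x3_0 (s1_2 (n5 (n4 p183_27))))))))),
   x7_6 (x7_5 (x7_4 (s5_6 (x3_2 (x3_1 (x3_0 (s1_2 (n5 (n4 p183_24))))))))),
   p183_47],
  [p183_48,
   x7_6 (x7_5 (x7_4 (s5_6 (x3_2 (x3_1 (x3_0 (s1_2 (n6 (n5 p183_50))))))))),
   p183_50,
   p183_51,
   tr p193_6,
   p183_53,
   x7_6 (x7_5 (x7_4 (s5_6 (x3_2 (x3_1 (x3_0 (s1_2 (n6 (n5 p183_53))))))))),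
   tr p195_6],
  [x7_6 (x7_5 (x7_4 (s5_6 (x3_2 (x3_1 (x3_0 (s1_2 (n6 (n5 (n4 p183_59)))))))))),
   x5_7 (x5_6 (x5_4 (s3_6 (s2_7 (x1_7 (x1_6 (x1_0 (s1_5 (s0_4 (n7 (n4 (n2 p182_58)))))))))))),
   p183_58,
   p183_59,
   x6_7 (x6_5 (x6_4 (s5_6 (x3_2 (x3_1 (x3_0 (s3_6 (x2_6 (x2_1 (x2_0 (s2_5 (s1_7 (s0_4 (n7 (n4 (n3 (n1 p194_58))))))))))))))))),
   s3_6 (s2_7 (s1_5 (s0_4 p195_24))),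
   tr p196_6,
   x5_7 (x5_6 (x5_4 (s3_6 (s2_7 (x1_7 (x1_6 (x1_0 (s1_5 (s0_4 (n7 (n4 (n3 (n2 p194_58)))))))))))))]]

theorem k183 : eqNN c183 (slO 64 (D.chG 23 6) 8) = true := by decide +kernel

end Pool.Agent.Lib.MP_afdd4d_co.K10.E6
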