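import Pool.Agent.Lib.MP_afdd4d_co.K10.E6.Dat
import Pool.Agent.Lib.MP_afdd4d_co.K10.E6.Mk
import Pool.Agent.Lib.MP_afdd4d_co.K8.F6Bl5
import Pool.Agent.Lib.MP_afdd4d_co.K10.E6.P0
import Pool.Agent.Lib.MP_afdd4d_co.K10.E6.P1
import Pool.Agent.Lib.MP_afdd4d_co.K10.E6.P2
import Pool.Agent.Lib.MP_afdd4d_co.K10.E6.P3
import Pool.Agent.Lib.MP_afdd4d_co.K10.E6.P4
import Pool.Agent.Lib.MP_afdd4d_co.K10.E6.P5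
import Pool.Agent.Lib.MP_afdd4d_co.K10.E6.P6
import Pool.Agent.Lib.MP_afdd4d_co.K10.E6.P7
import Pool.Agent.Lib.MP_afdd4d_co.K10.E6.P8
import Pool.Agent.Lib.MP_afdd4d_co.K10.E6.P9
import Pool.Agent.Lib.MP_afdd4d_co.K10.E6.P10
import Pool.Agent.Lib.MP_afdd4d_co.K10.E6.P11
import Pool.Agent.Lib.MP_afdd4d_co.K10.E6.P12
import Pool.Agent.Lib.MP_afdd4d_co.K10.E6.P13
import Pool.Agent.Lib.MP_afdd4d_co.K10.E6.P14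
import Pool.Agent.Lib.MP_afdd4d_co.K10.E6.P15
import Pool.Agent.Lib.MP_afdd4d_co.K10.E6.P16
import Pool.Agent.Lib.MP_afdd4d_co.K10.E6.P17
import Pool.Agent.Lib.MP_afdd4d_co.K10.E6.P18
import Pool.Agent.Lib.MP_afdd4d_co.K10.E6.P19
import Pool.Agent.Lib.MP_afdd4d_co.K10.E6.P20
import Pool.Agent.Lib.MP_afdd4d_co.K10.E6.P21
import Pool.Agent.Lib.MP_afdd4d_co.K10.E6.P22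
import Pool.Agent.Lib.MP_afdd4d_co.K10.E6.P23
import Pool.Agent.Lib.MP_afdd4d_co.K10.E6.P24
import Pool.Agent.Lib.MP_afdd4d_co.K10.E6.P25
import Pool.Agent.Lib.MP_afdd4d_co.K10.E6.P26
import Pool.Agent.Lib.MP_afdd4d_co.K10.E6.P27
import Pool.Agent.Lib.MP_afdd4d_co.K10.E6.P28
import Pool.Agent.Lib.MP_afdd4d_co.K10.E6.P29
import Pool.Agent.Lib.MP_afdd4d_co.K10.E6.P30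
import Pool.Agent.Lib.MP_afdd4d_co.K10.E6.P31
import Pool.Agent.Lib.MP_afdd4d_co.K10.E6.P32

/-!
# Tables
-/

namespace Pool.Agent.Lib.MP_afdd4d_co.K10.E6

open K8

set_option maxRecDepth 100000
set_option exponentiation.threshold 10000000

/-- The slices of the chunk 184. -/
noncomputable def c184 : List (List ℕ) := [
  [p184_0,
   tr p179_11,
   p184_2,
   x7_6 (x7_5 (x7_4 (s5_6 (x3_2 (x3_1 (x3_0 (s1_2 (n0 p184_0)))))))),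
   p184_4,
   p184_5,
   p184_6,
   x7_6 (x7_5 (x7_4 (s5_6 (x3_2 (x3_1 (x3_0 (s1_2 (n0 p184_4))))))))],
  [s6_7 (s2_3 p184_2),
   x6_7 (x6_5 (x6_4 (s5_7 (x2_3 (x2_1 (x2_0 (s1_3 (n0 p184_0)))))))),
   x5_7 (x5_6 (x5_4 (x1_3 (x1_2 (x1_0 (n4 p184_0)))))),
   p184_11,
   p184_12,
   p184_13,
   x7_6 (x7_5 (x7_4 (s5_6 (x3_2 (x3_1 (x3_0 (s1_2 (n4 (n0 p184_13))))))))),
   p184_15],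
  [s6_7 (s2_3 p184_4),
   s6_7 (s2_3 p184_5),
   s6_7 (s2_3 p184_12),
   s6_7 (s2_3 p184_13),
   p184_20,
   p184_21,
   p184_22,
   s6_7 (s2_3 p184_29)],
  [s6_7 (s2_3 p184_6),
   x7_6 (x7_5 (x7_4 (x6_7 (x6_5 (x6_4 (s5_6 (x3_2 (x3_1 (x3_0 (x2_3 (x2_1 (x2_0 (s1_2 (n0 p184_4)))))))))))))),
   x7_6 (x7_5 (x7_4 (x6_7 (x6_5 (x6_4 (s5_6 (x3_2 (x3_1 (x3_0 (x2_3 (x2_1 (x2_0 (s1_2 (n4 (n0 p184_13))))))))))))))),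
   s6_7 (s2_3 p184_15),
   s6_7 (s2_3 p184_22),
   p184_29,
   p184_30,
   x5_7 (x5_6 (x5_4 (x1_3 (x1_2 (x1_0 (n7 (n6 p184_21)))))))],
  [x7_6 (x7_5 (x7_4 (s5_6 (x3_2 (x3_1 (x3_0 (s1_2 (n5 (n0 p184_22))))))))),
   x6_7 (x6_5 (x6_4 (s5_7 (x2_3 (x2_1 (x2_0 (s1_3 (n5 (n0 p184_20))))))))),
   x7_6 (x7_5 (x7_4 (s6_7 (s5_7 (x3_2 (x3_1 (x3_0 (s2_3 (s1_3 (n5 (n0 p184_29))))))))))),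
   x7_6 (x7_5 (x7_4 (s5_6 (x3_2 (x3_1 (x3_0 (s1_2 (n5 (n0 p184_21))))))))),
   x5_7 (x5_6 (x5_4 (x1_3 (x1_2 (x1_0 (n6 (n4 p184_12))))))),
   x7_6 (x7_5 (x7_4 (s6_7 (s5_7 (x3_2 (x3_1 (x3_0 (s2_3 (s1_3 (n5 (n0 p184_4))))))))))),
   x7_6 (x7_5 (x7_4 (s6_7 (s5_7 (x3_2 (x3_1 (x3_0 (s2_3 (s1_3 (n5 (n0 p184_13))))))))))),
   x5_7 (x5_6 (x5_4 (x1_3 (x1_2 (x1_0 (n6 p184_5))))))],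
  [x6_7 (x6_5 (x6_4 (s5_7 (x2_3 (x2_1 (x2_0 (s1_3 (n5 (n0 p184_29))))))))),
   x6_7 (x6_5 (x6_4 (s5_7 (x2_3 (x2_1 (x2_0 (s1_3 (n5 (n0 p184_21))))))))),
   x6_7 (x6_5 (x6_4 (s5_7 (x2_3 (x2_1 (x2_0 (s1_3 (n5 (n4 (n0 p184_22)))))))))),
   x6_7 (x6_5 (x6_4 (s5_7 (x2_3 (x2_1 (x2_0 (s1_3 (n5 (n4 (n0 p184_30)))))))))),
   x5_7 (x5_6 (x5_4 (x1_3 (x1_2 (x1_0 (n6 (n4 p184_4))))))),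
   x5_7 (x5_6 (x5_4 (x1_3 (x1_2 (x1_0 (n6 p184_15)))))),
   x5_7 (x5_6 (x5_4 (x1_3 (x1_2 (x1_0 (n6 (n4 p184_6))))))),
   x5_7 (x5_6 (x5_4 (x1_3 (x1_2 (x1_0 (n6 p184_13))))))],
  [s6_7 (x5_7 (x5_6 (x5_4 (s2_3 (x1_3 (x1_2 (x1_0 (n6 (n4 p184_12))))))))),
   x6_7 (x6_5 (x6_4 (s5_7 (x2_3 (x2_1 (x2_0 (s1_3 (n5 (n0 p184_4))))))))),
   s6_7 (x5_7 (x5_6 (x5_4 (s2_3 (x1_3 (x1_2 (x1_0 (n6 (n4 p184_4))))))))),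
   s6_7 (x5_7 (x5_6 (x5_4 (s2_3 (x1_3 (x1_2 (x1_0 (n6 p184_15)))))))),
   p184_52,
   p184_53,
   x7_6 (x7_5 (x7_4 (s5_6 (x3_2 (x3_1 (x3_0 (s1_2 (n6 (n5 (n0 p184_53)))))))))),
   p184_55],
  [x6_7 (x6_5 (x6_4 (s5_7 (x2_3 (x2_1 (x2_0 (s1_3 (n5 (n0 p184_13))))))))),
   s6_7 (x5_7 (x5_6 (x5_4 (s2_3 (x1_3 (x1_2 (x1_0 (n6 p184_5)))))))),
   s6_7 (x5_7 (x5_6 (x5_4 (s2_3 (x1_3 (x1_2 (x1_0 (n6 (n4 p184_6))))))))),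
   s6_7 (x5_7 (x5_6 (x5_4 (s2_3 (x1_3 (x1_2 (x1_0 (n6 p184_13)))))))),
   x6_7 (x6_5 (x6_4 (s5_7 (x2_3 (x2_1 (x2_0 (s1_3 (n7 (n5 (n0 p184_53)))))))))),
   s6_7 (s2_3 p184_55),
   p184_62,
   x5_7 (x5_6 (x5_4 (x1_3 (x1_2 (x1_0 (n7 (n6 p184_53)))))))]]

theorem k184 : eqNN c184 (slO 64 (D.chG 23 11) 8) = true := by decide +kernel

/-- The slices of the chunk 185. -/
noncomputable def c185 : List (List ℕ) := [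
  [tr p178_12,
   tr p179_12,
   tr p180_12,
   x7_6 (x7_5 (x7_4 (x3_2 (x3_1 (x3_0 (s3_7 (s2_5 (s1_6 (s0_4 (n4 p178_12)))))))))),
   p185_4,
   tr p182_12,
   tr p183_12,
   x7_6 (x7_5 (x7_4 (s5_6 (x3_2 (x3_1 (x3_0 (s1_2 (n0 p185_4))))))))],
  [s3_6 (s2_7 (s1_5 (s0_4 p180_18))),
   x6_7 (x6_5 (x6_4 (s5_6 (x3_2 (x3_1 (x3_0 (s3_6 (x2_6 (x2_1 (x2_0 (s2_5 (s1_7 (s0_4 (n7 p178_48)))))))))))))),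
   x5_7 (x5_6 (x5_4 (s3_6 (s2_7 (x1_7 (x1_6 (x1_0 (s1_5 (s0_4 (n7 (n4 (n0 p178_48)))))))))))),
   tr p184_12,
   p185_12,
   p185_13,
   x7_6 (x7_5 (x7_4 (s5_6 (x3_2 (x3_1 (x3_0 (s1_2 (n4 (n0 p185_13))))))))),
   p185_15],
  [p185_16,
   s3_6 (s2_7 (s1_5 (s0_4 p182_18))),
   p185_18,
   p185_19,
   tr p188_12,
   p185_21,
   tr p190_12,
   p185_23],
  [s3_6 (s2_7 (s1_5 (s0_4 p183_18))),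
   p185_25,
   x7_6 (x7_5 (x7_4 (s5_6 (x3_2 (x3_1 (x3_0 (s1_2 (n6 (n4 (n0 p185_47)))))))))),
   p185_27,
   p185_28,
   p185_29,
   tr p192_12,
   x5_7 (x5_6 (x5_4 (s3_6 (s2_7 (x1_7 (x1_6 (x1_0 (s1_5 (s0_4 (n7 (n4 (n3 (n2 p189_48)))))))))))))],
  [x7_6 (x7_5 (x7_4 (x3_2 (x3_1 (x3_0 (s3_7 (s2_5 (s1_6 (s0_4 (n4 (n1 p190_12))))))))))),
   x7_6 (x7_5 (x7_4 (x3_2 (x3_1 (x3_0 (s3_7 (s2_5 (s1_6 (s0_4 (n4 (n1 p188_12))))))))))),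
   x7_6 (x7_5 (x7_4 (s5_6 (x3_2 (x3_1 (x3_0 (s1_2 (n5 (n0 p185_23))))))))),
   x7_6 (x7_5 (x7_4 (s5_6 (x3_2 (x3_1 (x3_0 (s1_2 (n5 (n0 p185_21))))))))),
   x7_6 (x7_5 (x7_4 (s5_6 (x3_2 (x3_1 (x3_0 (s1_2 (n5 (n0 p185_18))))))))),
   x7_6 (x7_5 (x7_4 (s5_6 (x3_2 (x3_1 (x3_0 (s1_2 (n5 (n0 p185_16))))))))),
   x7_6 (x7_5 (x7_4 (s5_6 (x3_2 (x3_1 (x3_0 (s1_2 (n5 (n0 p185_19))))))))),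
   x7_6 (x7_5 (x7_4 (s6_7 (s5_6 (x3_2 (x3_1 (x3_0 (s3_6 (s2_5 (s1_7 (s0_4 (n4 (n1 p182_18)))))))))))))],
  [x7_6 (x7_5 (x7_4 (s5_6 (x3_2 (x3_1 (x3_0 (s1_2 (n5 (n4 (n0 p185_29)))))))))),
   x6_7 (x6_5 (x6_4 (s5_6 (x3_2 (x3_1 (x3_0 (s3_6 (x2_6 (x2_1 (x2_0 (s2_5 (s1_7 (s0_4 (n7 (n1 p189_48))))))))))))))),
   x7_6 (x7_5 (x7_4 (s5_6 (x3_2 (x3_1 (x3_0 (s1_2 (n5 (n4 (n0 p185_28)))))))))),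
   x7_6 (x7_5 (x7_4 (x3_2 (x3_1 (x3_0 (s3_7 (s2_5 (s1_6 (s0_4 (n4 (n1 (n0 p192_12)))))))))))),
   x7_6 (x7_5 (x7_4 (s5_6 (x3_2 (x3_1 (x3_0 (s1_2 (n5 (n4 (n0 p185_25)))))))))),
   x7_6 (x7_5 (x7_4 (s5_6 (x3_2 (x3_1 (x3_0 (s1_2 (n5 (n4 (n0 p185_27)))))))))),
   x7_6 (x7_5 (x7_4 (s6_7 (s5_6 (x3_2 (x3_1 (x3_0 (s3_6 (s2_5 (s1_7 (s0_4 (n4 (n1 (n0 p183_18)))))))))))))),
   p185_47],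
  [p185_48,
   x7_6 (x7_5 (x7_4 (s5_6 (x3_2 (x3_1 (x3_0 (s1_2 (n6 (n5 (n0 p185_50)))))))))),
   p185_50,
   p185_51,
   tr p193_12,
   p185_53,
   x7_6 (x7_5 (x7_4 (s5_6 (x3_2 (x3_1 (x3_0 (s1_2 (n6 (n5 (n0 p185_53)))))))))),
   tr p195_12],
  [x7_6 (x7_5 (x7_4 (s5_6 (x3_2 (x3_1 (x3_0 (s1_2 (n6 (n5 (n4 (n0 p185_59))))))))))),
   x5_7 (x5_6 (x5_4 (s3_6 (s2_7 (x1_7 (x1_6 (x1_0 (s1_5 (s0_4 (n7 (n4 (n2 p182_48)))))))))))),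
   x5_7 (x5_6 (x5_4 (s3_6 (s2_7 (x1_7 (x1_6 (x1_0 (s1_5 (s0_4 (n7 (n4 (n2 (n0 p183_48))))))))))))),
   p185_59,
   x6_7 (x6_5 (x6_4 (s5_6 (x3_2 (x3_1 (x3_0 (s3_6 (x2_6 (x2_1 (x2_0 (s2_5 (s1_7 (s0_4 (n7 (n3 (n1 p194_48)))))))))))))))),
   s3_6 (s2_7 (s1_5 (s0_4 p195_18))),
   tr p196_12,
   x5_7 (x5_6 (x5_4 (s3_6 (s2_7 (x1_7 (x1_6 (x1_0 (s1_5 (s0_4 (n7 (n4 (n3 (n2 p194_48)))))))))))))]]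

theorem k185 : eqNN c185 (slO 64 (D.chG 23 12) 8) = true := by decide +kernel

/-- The slices of the chunk 186. -/
noncomputable def c186 : List (List ℕ) := [
  [tr p178_13,
   tr p179_13,
   tr p180_13,
   x7_6 (x7_5 (x7_4 (x3_2 (x3_1 (x3_0 (s3_7 (s2_5 (s1_6 (s0_4 (n4 p178_14)))))))))),
   tr p181_13,
   tr p182_13,
   tr p183_13,
   x7_6 (x7_5 (x7_4 (x3_2 (x3_1 (x3_0 (s3_7 (s2_5 (s1_6 (s0_4 (n4 p181_14))))))))))],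
  [s3_6 (s2_7 (s1_5 (s0_4 p180_19))),
   x6_7 (x6_5 (x6_4 (s5_6 (x3_2 (x3_1 (x3_0 (s3_6 (x2_6 (x2_1 (x2_0 (s2_5 (s1_7 (s0_4 (n7 p178_56)))))))))))))),
   x5_7 (x5_6 (x5_4 (s3_7 (s2_6 (x1_7 (x1_6 (x1_0 (s1_5 (s0_4 (n6 (n0 p178_47))))))))))),
   tr p184_13,
   tr p185_13,
   p186_13,
   p186_14,
   tr p187_13],
  [s3_6 (s2_7 (s1_5 (s0_4 p181_19))),
   s3_6 (s2_7 (s1_5 (s0_4 p182_19))),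
   s3_6 (s2_7 (s1_5 (s0_4 p185_19))),
   p186_19,
   tr p188_13,
   tr p189_13,
   tr p190_13,
   tr p191_13],
  [s3_6 (s2_7 (s1_5 (s0_4 p183_19))),
   p186_25,
   p186_26,
   s3_6 (s2_7 (s1_5 (s0_4 p187_19))),
   s3_6 (s2_7 (s1_5 (s0_4 p190_19))),
   s3_6 (s2_7 (s1_5 (s0_4 p191_19))),
   tr p192_13,
   x5_7 (x5_6 (x5_4 (s3_7 (s2_6 (x1_7 (x1_6 (x1_0 (s1_5 (s0_4 (n6 (n3 (n2 p189_47))))))))))))],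
  [x7_6 (x7_5 (x7_4 (x3_2 (x3_1 (x3_0 (s3_7 (s2_5 (s1_6 (s0_4 (n4 (n1 p190_14))))))))))),
   x7_6 (x7_5 (x7_4 (x3_2 (x3_1 (x3_0 (s3_7 (s2_5 (s1_6 (s0_4 (n4 (n1 p188_14))))))))))),
   x7_6 (x7_5 (x7_4 (x3_2 (x3_1 (x3_0 (s3_7 (s2_5 (s1_6 (s0_4 (n4 (n1 p191_14))))))))))),
   x7_6 (x7_5 (x7_4 (x3_2 (x3_1 (x3_0 (s3_7 (s2_5 (s1_6 (s0_4 (n4 (n1 p189_14))))))))))),
   x5_7 (x5_6 (x5_4 (s3_7 (s2_6 (x1_7 (x1_6 (x1_0 (s1_5 (s0_4 (n6 (n2 (n0 p185_47)))))))))))),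
   x7_6 (x7_5 (x7_4 (s6_7 (s5_6 (x3_2 (x3_1 (x3_0 (s3_6 (s2_5 (s1_7 (s0_4 (n4 (n1 p181_26))))))))))))),
   x7_6 (x7_5 (x7_4 (s6_7 (s5_6 (x3_2 (x3_1 (x3_0 (s3_6 (s2_5 (s1_7 (s0_4 (n4 (n1 p186_26))))))))))))),
   x5_7 (x5_6 (x5_4 (s3_7 (s2_6 (x1_7 (x1_6 (x1_0 (s1_5 (s0_4 (n6 (n2 p182_47)))))))))))],
  [x7_6 (x7_5 (x7_4 (s6_7 (s5_6 (x3_2 (x3_1 (x3_0 (s3_6 (s2_5 (s1_7 (s0_4 (n4 (n1 (n0 p191_26)))))))))))))),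
   x6_7 (x6_5 (x6_4 (s5_6 (x3_2 (x3_1 (x3_0 (s3_6 (x2_6 (x2_1 (x2_0 (s2_5 (s1_7 (s0_4 (n7 (n1 p189_56))))))))))))))),
   x7_6 (x7_5 (x7_4 (s6_7 (s5_6 (x3_2 (x3_1 (x3_0 (s3_6 (s2_5 (s1_7 (s0_4 (n4 (n1 (n0 p190_26)))))))))))))),
   x7_6 (x7_5 (x7_4 (x3_2 (x3_1 (x3_0 (s3_7 (s2_5 (s1_6 (s0_4 (n4 (n1 (n0 p192_14)))))))))))),
   x5_7 (x5_6 (x5_4 (s3_7 (s2_6 (x1_7 (x1_6 (x1_0 (s1_5 (s0_4 (n6 (n2 (n0 p181_47)))))))))))),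
   x5_7 (x5_6 (x5_4 (s3_7 (s2_6 (x1_7 (x1_6 (x1_0 (s1_5 (s0_4 (n6 (n2 p187_47))))))))))),
   x5_7 (x5_6 (x5_4 (s3_7 (s2_6 (x1_7 (x1_6 (x1_0 (s1_5 (s0_4 (n6 (n2 (n0 p183_47)))))))))))),
   p186_47],
  [x5_7 (x5_6 (x5_4 (s3_6 (s2_7 (x1_7 (x1_6 (x1_0 (s1_5 (s0_4 (n7 (n2 (n0 p185_59)))))))))))),
   x6_7 (x6_5 (x6_4 (s5_6 (x3_2 (x3_1 (x3_0 (s3_6 (x2_6 (x2_1 (x2_0 (s2_5 (s1_7 (s0_4 (n7 (n1 p181_56))))))))))))))),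
   x5_7 (x5_6 (x5_4 (s3_6 (s2_7 (x1_7 (x1_6 (x1_0 (s1_5 (s0_4 (n7 (n2 (n0 p181_59)))))))))))),
   x5_7 (x5_6 (x5_4 (s3_6 (s2_7 (x1_7 (x1_6 (x1_0 (s1_5 (s0_4 (n7 (n2 p187_59))))))))))),
   tr p193_13,
   tr p194_13,
   x7_6 (x7_5 (x7_4 (x3_2 (x3_1 (x3_0 (s3_7 (s2_5 (s1_6 (s0_4 (n4 (n2 (n1 p194_14)))))))))))),
   tr p195_13],
  [p186_56,
   x5_7 (x5_6 (x5_4 (s3_6 (s2_7 (x1_7 (x1_6 (x1_0 (s1_5 (s0_4 (n7 (n2 p182_59))))))))))),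
   x5_7 (x5_6 (x5_4 (s3_6 (s2_7 (x1_7 (x1_6 (x1_0 (s1_5 (s0_4 (n7 (n2 (n0 p183_59)))))))))))),
   p186_59,
   x6_7 (x6_5 (x6_4 (s5_6 (x3_2 (x3_1 (x3_0 (s3_6 (x2_6 (x2_1 (x2_0 (s2_5 (s1_7 (s0_4 (n7 (n3 (n1 p194_56)))))))))))))))),
   s3_6 (s2_7 (s1_5 (s0_4 p195_19))),
   tr p196_13,
   x5_7 (x5_6 (x5_4 (s3_7 (s2_6 (x1_7 (x1_6 (x1_0 (s1_5 (s0_4 (n6 (n3 (n2 p194_47))))))))))))]]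

theorem k186 : eqNN c186 (slO 64 (D.chG 23 13) 8) = true := by decide +kernel

/-- The slices of the chunk 187. -/
noncomputable def c187 : List (List ℕ) := [
  [tr p178_15,
   tr p179_15,
   tr p180_15,
   x7_6 (x7_5 (x7_4 (x3_2 (x3_1 (x3_0 (s3_7 (s2_5 (s1_6 (s0_4 (n4 p178_15)))))))))),
   p187_4,
   tr p182_15,
   tr p183_15,
   x7_6 (x7_5 (x7_4 (s5_6 (x3_2 (x3_1 (x3_0 (s1_2 (n0 p187_4))))))))],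
  [s3_6 (s2_7 (s1_5 (s0_4 p180_27))),
   x6_7 (x6_5 (x6_4 (s5_6 (x3_2 (x3_1 (x3_0 (s3_6 (x2_6 (x2_1 (x2_0 (s2_5 (s1_7 (s0_4 (n7 (n4 p178_51))))))))))))))),
   x5_7 (x5_6 (x5_4 (s3_6 (s2_7 (x1_7 (x1_6 (x1_0 (s1_5 (s0_4 (n7 (n0 p178_51))))))))))),
   tr p184_15,
   tr p185_15,
   p187_13,
   x7_6 (x7_5 (x7_4 (s5_6 (x3_2 (x3_1 (x3_0 (s1_2 (n4 (n0 p187_13))))))))),
   p187_15],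
  [p187_16,
   s3_6 (s2_7 (s1_5 (s0_4 p182_27))),
   s3_6 (s2_7 (s1_5 (s0_4 p185_27))),
   p187_19,
   tr p188_15,
   p187_21,
   tr p190_15,
   p187_23],
  [s3_6 (s2_7 (s1_5 (s0_4 p183_27))),
   x7_6 (x7_5 (x7_4 (s5_6 (x3_2 (x3_1 (x3_0 (s1_2 (n6 (n4 (n0 p187_44)))))))))),
   x7_6 (x7_5 (x7_4 (s5_6 (x3_2 (x3_1 (x3_0 (s1_2 (n6 (n4 (n0 p187_47)))))))))),
   p187_27,
   p187_28,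
   p187_29,
   tr p192_15,
   x5_7 (x5_6 (x5_4 (s3_6 (s2_7 (x1_7 (x1_6 (x1_0 (s1_5 (s0_4 (n7 (n3 (n2 p189_51))))))))))))],
  [x7_6 (x7_5 (x7_4 (x3_2 (x3_1 (x3_0 (s3_7 (s2_5 (s1_6 (s0_4 (n4 (n1 p190_15))))))))))),
   x7_6 (x7_5 (x7_4 (x3_2 (x3_1 (x3_0 (s3_7 (s2_5 (s1_6 (s0_4 (n4 (n1 p188_15))))))))))),
   x7_6 (x7_5 (x7_4 (s5_6 (x3_2 (x3_1 (x3_0 (s1_2 (n5 (n0 p187_23))))))))),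
   x7_6 (x7_5 (x7_4 (s5_6 (x3_2 (x3_1 (x3_0 (s1_2 (n5 (n0 p187_21))))))))),
   x7_6 (x7_5 (x7_4 (s6_7 (s5_6 (x3_2 (x3_1 (x3_0 (s3_6 (s2_5 (s1_7 (s0_4 (n4 (n1 p185_27))))))))))))),
   x7_6 (x7_5 (x7_4 (s5_6 (x3_2 (x3_1 (x3_0 (s1_2 (n5 (n0 p187_16))))))))),
   x7_6 (x7_5 (x7_4 (s5_6 (x3_2 (x3_1 (x3_0 (s1_2 (n5 (n0 p187_19))))))))),
   x7_6 (x7_5 (x7_4 (s6_7 (s5_6 (x3_2 (x3_1 (x3_0 (s3_6 (s2_5 (s1_7 (s0_4 (n4 (n1 p182_27)))))))))))))],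
  [x7_6 (x7_5 (x7_4 (s5_6 (x3_2 (x3_1 (x3_0 (s1_2 (n5 (n4 (n0 p187_29)))))))))),
   x6_7 (x6_5 (x6_4 (s5_6 (x3_2 (x3_1 (x3_0 (s3_6 (x2_6 (x2_1 (x2_0 (s2_5 (s1_7 (s0_4 (n7 (n4 (n1 p189_51)))))))))))))))),
   x7_6 (x7_5 (x7_4 (s5_6 (x3_2 (x3_1 (x3_0 (s1_2 (n5 (n4 (n0 p187_28)))))))))),
   x7_6 (x7_5 (x7_4 (x3_2 (x3_1 (x3_0 (s3_7 (s2_5 (s1_6 (s0_4 (n4 (n1 (n0 p192_15)))))))))))),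
   p187_44,
   x7_6 (x7_5 (x7_4 (s5_6 (x3_2 (x3_1 (x3_0 (s1_2 (n5 (n4 (n0 p187_27)))))))))),
   x7_6 (x7_5 (x7_4 (s6_7 (s5_6 (x3_2 (x3_1 (x3_0 (s3_6 (s2_5 (s1_7 (s0_4 (n4 (n1 (n0 p183_27)))))))))))))),
   p187_47],
  [x5_7 (x5_6 (x5_4 (s3_6 (s2_7 (x1_7 (x1_6 (x1_0 (s1_5 (s0_4 (n7 (n2 (n0 p185_51)))))))))))),
   x7_6 (x7_5 (x7_4 (s5_6 (x3_2 (x3_1 (x3_0 (s1_2 (n6 (n5 (n0 p187_50)))))))))),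
   p187_50,
   p187_51,
   tr p193_15,
   p187_53,
   x7_6 (x7_5 (x7_4 (s5_6 (x3_2 (x3_1 (x3_0 (s1_2 (n6 (n5 (n0 p187_53)))))))))),
   tr p195_15],
  [x7_6 (x7_5 (x7_4 (s5_6 (x3_2 (x3_1 (x3_0 (s1_2 (n6 (n5 (n4 (n0 p187_59))))))))))),
   x5_7 (x5_6 (x5_4 (s3_6 (s2_7 (x1_7 (x1_6 (x1_0 (s1_5 (s0_4 (n7 (n2 p182_51))))))))))),
   x5_7 (x5_6 (x5_4 (s3_6 (s2_7 (x1_7 (x1_6 (x1_0 (s1_5 (s0_4 (n7 (n2 (n0 p183_51)))))))))))),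
   p187_59,
   x6_7 (x6_5 (x6_4 (s5_6 (x3_2 (x3_1 (x3_0 (s3_6 (x2_6 (x2_1 (x2_0 (s2_5 (s1_7 (s0_4 (n7 (n4 (n3 (n1 p194_51))))))))))))))))),
   s3_6 (s2_7 (s1_5 (s0_4 p195_27))),
   tr p196_15,
   x5_7 (x5_6 (x5_4 (s3_6 (s2_7 (x1_7 (x1_6 (x1_0 (s1_5 (s0_4 (n7 (n3 (n2 p194_51))))))))))))]]

theorem k187 : eqNN c187 (slO 64 (D.chG 23 15) 8) = true := by decide +kernel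

end Pool.Agent.Lib.MP_afdd4d_co.K10.E6
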