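import Pool.Agent.Lib.MP_afdd4d_co.K10.E6.Dat
import Pool.Agent.Lib.MP_afdd4d_co.K10.E6.Mk
import Pool.Agent.Lib.MP_afdd4d_co.K8.F6Bl5
import Pool.Agent.Lib.MP_afdd4d_co.K10.E6.P0
import Pool.Agent.Lib.MP_afdd4d_co.K10.E6.P1
import Pool.Agent.Lib.MP_afdd4d_co.K10.E6.P2
import Pool.Agent.Lib.MP_afdd4d_co.K10.E6.P3
import Pool.Agent.Lib.MP_afdd4d_co.K10.E6.P4
import Pool.Agent.Lib.MP_afdd4d_co.K10.E6.P5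
import Pool.Agent.Lib.MP_afdd4d_co.K10.E6.P6
import Pool.Agent.Lib.MP_afdd4d_co.K10.E6.P7
import Pool.Agent.Lib.MP_afdd4d_co.K10.E6.P8
import Pool.Agent.Lib.MP_afdd4d_co.K10.E6.P9
import Pool.Agent.Lib.MP_afdd4d_co.K10.E6.P10
import Pool.Agent.Lib.MP_afdd4d_co.K10.E6.P11
import Pool.Agent.Lib.MP_afdd4d_co.K10.E6.P12
import Pool.Agent.Lib.MP_afdd4d_co.K10.E6.P13
import Pool.Agent.Lib.MP_afdd4d_co.K10.E6.P14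
import Pool.Agent.Lib.MP_afdd4d_co.K10.E6.P15
import Pool.Agent.Lib.MP_afdd4d_co.K10.E6.P16
import Pool.Agent.Lib.MP_afdd4d_co.K10.E6.P17
import Pool.Agent.Lib.MP_afdd4d_co.K10.E6.P18
import Pool.Agent.Lib.MP_afdd4d_co.K10.E6.P19
import Pool.Agent.Lib.MP_afdd4d_co.K10.E6.P20
import Pool.Agent.Lib.MP_afdd4d_co.K10.E6.P21
import Pool.Agent.Lib.MP_afdd4d_co.K10.E6.P22
import Pool.Agent.Lib.MP_afdd4d_co.K10.E6.P23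
import Pool.Agent.Lib.MP_afdd4d_co.K10.E6.P24
import Pool.Agent.Lib.MP_afdd4d_co.K10.E6.P25
import Pool.Agent.Lib.MP_afdd4d_co.K10.E6.P26
import Pool.Agent.Lib.MP_afdd4d_co.K10.E6.P27
import Pool.Agent.Lib.MP_afdd4d_co.K10.E6.P28
import Pool.Agent.Lib.MP_afdd4d_co.K10.E6.P29
import Pool.Agent.Lib.MP_afdd4d_co.K10.E6.P30
import Pool.Agent.Lib.MP_afdd4d_co.K10.E6.P31
import Pool.Agent.Lib.MP_afdd4d_co.K10.E6.P32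

/-!
# Tables
-/

namespace Pool.Agent.Lib.MP_afdd4d_co.K10.E6

open K8

set_option maxRecDepth 100000
set_option exponentiation.threshold 10000000

/-- The slices of the chunk 188. -/
noncomputable def c188 : List (List ℕ) := [
  [p188_0,
   tr p179_20,
   tr p180_20,
   p188_3,
   p188_4,
   p188_5,
   p188_6,
   p188_7],
  [s3_6 (s2_7 (s1_5 (s0_4 p180_20))),
   s6_7 (s2_3 p188_3),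
   x5_7 (x5_6 (x5_4 (x1_3 (x1_2 (x1_0 (n4 (n3 (n2 (n0 p188_0))))))))),
   tr p184_20,
   p188_12,
   p188_13,
   p188_14,
   p188_15],
  [s6_7 (s2_3 p188_4),
   s6_7 (s2_3 p188_5),
   s6_7 (s2_3 p188_12),
   s6_7 (s2_3 p188_13),
   p188_20,
   p188_21,
   p188_22,
   p188_23],
  [s6_7 (s2_3 p188_6),
   s6_7 (s2_3 p188_7),
   s6_7 (s2_3 p188_14),
   s6_7 (s2_3 p188_15),
   s6_7 (s2_3 p188_22),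
   s6_7 (s2_3 p188_23),
   p188_30,
   x5_7 (x5_6 (x5_4 (x1_3 (x1_2 (x1_0 (n7 (n6 (n3 (n2 (n0 p188_21))))))))))],
  [p188_32,
   p188_33,
   p188_34,
   p188_35,
   x5_7 (x5_6 (x5_4 (x1_3 (x1_2 (x1_0 (n6 (n4 (n3 (n2 (n0 p188_12)))))))))),
   x5_7 (x5_6 (x5_4 (x1_3 (x1_2 (x1_0 (n6 (n3 (n2 (n0 p188_7))))))))),
   x5_7 (x5_6 (x5_4 (x1_3 (x1_2 (x1_0 (n6 (n4 (n3 (n2 (n0 p188_14)))))))))),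
   x5_7 (x5_6 (x5_4 (x1_3 (x1_2 (x1_0 (n6 (n3 (n2 (n0 p188_5)))))))))],
  [s6_7 (s2_3 p188_34),
   s6_7 (s2_3 p188_35),
   x5_7 (x5_6 (x5_4 (x1_3 (x1_2 (x1_0 (n4 (n3 (n2 (n0 p188_32))))))))),
   p188_43,
   x5_7 (x5_6 (x5_4 (x1_3 (x1_2 (x1_0 (n6 (n4 (n3 (n2 (n0 p188_4)))))))))),
   x5_7 (x5_6 (x5_4 (x1_3 (x1_2 (x1_0 (n6 (n3 (n2 (n0 p188_15))))))))),
   x5_7 (x5_6 (x5_4 (x1_3 (x1_2 (x1_0 (n6 (n4 (n3 (n2 (n0 p188_6)))))))))),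
   x5_7 (x5_6 (x5_4 (x1_3 (x1_2 (x1_0 (n6 (n3 (n2 (n0 p188_13)))))))))],
  [s6_7 (x5_7 (x5_6 (x5_4 (s2_3 (x1_3 (x1_2 (x1_0 (n6 (n4 (n3 (n2 (n0 p188_12)))))))))))),
   s6_7 (x5_7 (x5_6 (x5_4 (s2_3 (x1_3 (x1_2 (x1_0 (n6 (n3 (n2 (n0 p188_7))))))))))),
   s6_7 (x5_7 (x5_6 (x5_4 (s2_3 (x1_3 (x1_2 (x1_0 (n6 (n4 (n3 (n2 (n0 p188_4)))))))))))),
   s6_7 (x5_7 (x5_6 (x5_4 (s2_3 (x1_3 (x1_2 (x1_0 (n6 (n3 (n2 (n0 p188_15))))))))))),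
   tr p193_20,
   p188_53,
   p188_54,
   p188_55],
  [s6_7 (x5_7 (x5_6 (x5_4 (s2_3 (x1_3 (x1_2 (x1_0 (n6 (n4 (n3 (n2 (n0 p188_14)))))))))))),
   s6_7 (x5_7 (x5_6 (x5_4 (s2_3 (x1_3 (x1_2 (x1_0 (n6 (n3 (n2 (n0 p188_5))))))))))),
   s6_7 (x5_7 (x5_6 (x5_4 (s2_3 (x1_3 (x1_2 (x1_0 (n6 (n4 (n3 (n2 (n0 p188_6)))))))))))),
   s6_7 (x5_7 (x5_6 (x5_4 (s2_3 (x1_3 (x1_2 (x1_0 (n6 (n3 (n2 (n0 p188_13))))))))))),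
   s6_7 (s2_3 p188_54),
   s6_7 (s2_3 p188_55),
   tr p196_20,
   x5_7 (x5_6 (x5_4 (x1_3 (x1_2 (x1_0 (n7 (n6 (n3 (n2 (n0 p188_53))))))))))]]

theorem k188 : eqNN c188 (slO 64 (D.chG 23 20) 8) = true := by decide +kernel

/-- The slices of the chunk 189. -/
noncomputable def c189 : List (List ℕ) := [
  [tr p178_21,
   tr p179_21,
   tr p180_21,
   x7_6 (x7_5 (x7_4 (x3_2 (x3_1 (x3_0 (s3_7 (s2_5 (s1_6 (s0_4 (n6 p178_35)))))))))),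
   p189_4,
   tr p182_21,
   tr p183_21,
   p189_7],
  [s3_6 (s2_7 (s1_5 (s0_4 p180_21))),
   x7_6 (x7_5 (x7_4 (x6_7 (x6_5 (x6_4 (x3_2 (x3_1 (x3_0 (s3_7 (x2_7 (x2_1 (x2_0 (s2_5 (s1_6 (s0_4 (n6 p178_35)))))))))))))))),
   x5_7 (x5_6 (x5_4 (s3_7 (s2_6 (x1_7 (x1_6 (x1_0 (s1_5 (s0_4 (n7 (n6 (n0 p178_31)))))))))))),
   tr p184_21,
   tr p185_21,
   p189_13,
   p189_14,
   tr p187_21],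
  [s6_7 (s2_3 p189_4),
   s3_6 (s2_7 (s1_5 (s0_4 p182_21))),
   s3_6 (s2_7 (s1_5 (s0_4 p185_21))),
   s6_7 (s2_3 p189_13),
   tr p188_21,
   p189_21,
   tr p190_21,
   p189_23],
  [s3_6 (s2_7 (s1_5 (s0_4 p183_21))),
   s6_7 (s2_3 p189_7),
   s6_7 (s2_3 p189_14),
   s3_6 (s2_7 (s1_5 (s0_4 p187_21))),
   s3_6 (s2_7 (s1_5 (s0_4 p190_21))),
   s6_7 (s2_3 p189_23),
   tr p192_21,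
   p189_31],
  [p189_32,
   x7_6 (x7_5 (x7_4 (x3_2 (x3_1 (x3_0 (s3_7 (s2_5 (s1_6 (s0_4 (n6 (n1 p188_35))))))))))),
   p189_34,
   p189_35,
   s6_7 (s2_3 p189_48),
   s6_7 (s2_3 p189_49),
   s6_7 (s2_3 p189_56),
   s6_7 (s2_3 p189_57)],
  [s6_7 (s2_3 p189_34),
   s6_7 (s2_3 p189_35),
   x7_6 (x7_5 (x7_4 (s6_7 (s5_6 (x3_2 (x3_1 (x3_0 (s3_6 (s2_5 (s1_7 (s0_4 (n7 (n1 (n0 p190_41)))))))))))))),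
   x7_6 (x7_5 (x7_4 (x3_2 (x3_1 (x3_0 (s3_7 (s2_5 (s1_6 (s0_4 (n6 (n1 (n0 p192_35)))))))))))),
   p189_44,
   s6_7 (s2_3 p189_51),
   s6_7 (s2_3 p189_58),
   p189_47],
  [p189_48,
   p189_49,
   s6_7 (s2_3 p189_44),
   p189_51,
   tr p193_21,
   p189_53,
   p189_54,
   tr p195_21],
  [p189_56,
   p189_57,
   p189_58,
   s6_7 (s2_3 p189_47),
   s6_7 (s2_3 p189_54),
   s3_6 (s2_7 (s1_5 (s0_4 p195_21))),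
   tr p196_21,
   p189_63]]

theorem k189 : eqNN c189 (slO 64 (D.chG 23 21) 8) = true := by decide +kernel

/-- The slices of the chunk 190. -/
noncomputable def c190 : List (List ℕ) := [
  [p190_0,
   tr p179_22,
   tr p180_22,
   x7_6 (x7_5 (x7_4 (x3_2 (x3_1 (x3_0 (s3_7 (s2_5 (s1_6 (s0_4 (n6 p178_32)))))))))),
   p190_4,
   p190_5,
   p190_6,
   p190_7],
  [x5_7 (x5_6 (x5_4 (s3_7 (s2_6 (x1_7 (x1_6 (x1_0 (s1_5 (s0_4 (n7 (n6 (n4 (n0 p180_22))))))))))))),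
   p190_9,
   x5_7 (x5_6 (x5_4 (x1_3 (x1_2 (x1_0 (n4 (n3 (n2 (n0 p190_0))))))))),
   tr p184_22,
   p190_12,
   p190_13,
   p190_14,
   p190_15],
  [p190_16,
   s3_6 (s2_7 (s1_5 (s0_4 p182_28))),
   s3_6 (s2_7 (s1_5 (s0_4 p185_28))),
   p190_19,
   tr p188_22,
   p190_21,
   p190_22,
   p190_23],
  [s3_6 (s2_7 (s1_5 (s0_4 p183_28))),
   p190_25,
   p190_26,
   s3_6 (s2_7 (s1_5 (s0_4 p187_28))),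
   p190_28,
   x5_7 (x5_6 (x5_4 (x1_3 (x1_2 (x1_0 (n7 (n6 (n3 (n2 (n0 p190_23)))))))))),
   tr p192_22,
   x5_7 (x5_6 (x5_4 (x1_3 (x1_2 (x1_0 (n7 (n6 (n3 (n2 (n0 p190_21))))))))))],
  [p190_32,
   x7_6 (x7_5 (x7_4 (x3_2 (x3_1 (x3_0 (s3_7 (s2_5 (s1_6 (s0_4 (n6 (n1 p188_32))))))))))),
   x7_6 (x7_5 (x7_4 (x3_2 (x3_1 (x3_0 (s3_7 (s2_5 (s1_6 (s0_4 (n6 (n1 p191_32))))))))))),
   x7_6 (x7_5 (x7_4 (x3_2 (x3_1 (x3_0 (s3_7 (s2_5 (s1_6 (s0_4 (n6 (n1 p189_32))))))))))),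
   x5_7 (x5_6 (x5_4 (x1_3 (x1_2 (x1_0 (n6 (n4 (n3 (n2 (n0 p190_12)))))))))),
   x5_7 (x5_6 (x5_4 (x1_3 (x1_2 (x1_0 (n6 (n3 (n2 (n0 p190_7))))))))),
   x5_7 (x5_6 (x5_4 (x1_3 (x1_2 (x1_0 (n6 (n4 (n3 (n2 (n0 p190_14)))))))))),
   x5_7 (x5_6 (x5_4 (x1_3 (x1_2 (x1_0 (n6 (n3 (n2 (n0 p190_5)))))))))],
  [x7_6 (x7_5 (x7_4 (s6_7 (s5_6 (x3_2 (x3_1 (x3_0 (s3_6 (s2_5 (s1_7 (s0_4 (n7 (n1 (n0 p191_32)))))))))))))),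
   p190_41,
   x5_7 (x5_6 (x5_4 (x1_3 (x1_2 (x1_0 (n4 (n3 (n2 (n0 p190_32))))))))),
   x7_6 (x7_5 (x7_4 (x3_2 (x3_1 (x3_0 (s3_7 (s2_5 (s1_6 (s0_4 (n6 (n1 (n0 p192_32)))))))))))),
   x5_7 (x5_6 (x5_4 (x1_3 (x1_2 (x1_0 (n6 (n4 (n3 (n2 (n0 p190_4)))))))))),
   x5_7 (x5_6 (x5_4 (x1_3 (x1_2 (x1_0 (n6 (n3 (n2 (n0 p190_15))))))))),
   x5_7 (x5_6 (x5_4 (x1_3 (x1_2 (x1_0 (n6 (n4 (n3 (n2 (n0 p190_6)))))))))),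
   x5_7 (x5_6 (x5_4 (x1_3 (x1_2 (x1_0 (n6 (n3 (n2 (n0 p190_13)))))))))],
  [x5_7 (x5_6 (x5_4 (s3_6 (s2_7 (x1_7 (x1_6 (x1_0 (s1_5 (s0_4 (n7 (n6 (n4 (n2 (n0 p185_28)))))))))))))),
   x5_7 (x5_6 (x5_4 (x1_3 (x1_2 (x1_0 (n7 (n3 (n2 (n0 p190_25))))))))),
   x5_7 (x5_6 (x5_4 (x1_3 (x1_2 (x1_0 (n7 (n4 (n3 (n2 (n0 p190_16)))))))))),
   x5_7 (x5_6 (x5_4 (s3_6 (s2_7 (x1_7 (x1_6 (x1_0 (s1_5 (s0_4 (n7 (n6 (n4 (n2 p187_28))))))))))))),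
   tr p193_22,
   p190_53,
   p190_54,
   tr p195_22],
  [x5_7 (x5_6 (x5_4 (x1_3 (x1_2 (x1_0 (n7 (n4 (n3 (n2 (n0 p190_26)))))))))),
   x5_7 (x5_6 (x5_4 (s3_6 (s2_7 (x1_7 (x1_6 (x1_0 (s1_5 (s0_4 (n7 (n6 (n4 (n2 p182_28))))))))))))),
   x5_7 (x5_6 (x5_4 (s3_6 (s2_7 (x1_7 (x1_6 (x1_0 (s1_5 (s0_4 (n7 (n6 (n4 (n2 (n0 p183_28)))))))))))))),
   x5_7 (x5_6 (x5_4 (x1_3 (x1_2 (x1_0 (n7 (n3 (n2 (n0 p190_19))))))))),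
   p190_60,
   x5_7 (x5_6 (x5_4 (s3_7 (s2_6 (x1_7 (x1_6 (x1_0 (s1_5 (s0_4 (n7 (n6 (n4 (n3 (n2 p195_22)))))))))))))),
   tr p196_22,
   x5_7 (x5_6 (x5_4 (x1_3 (x1_2 (x1_0 (n7 (n6 (n3 (n2 (n0 p190_53))))))))))]]

theorem k190 : eqNN c190 (slO 64 (D.chG 23 22) 8) = true := by decide +kernel

/-- The slices of the chunk 191. -/
noncomputable def c191 : List (List ℕ) := [
  [tr p178_23,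
   s3_6 (s2_7 (s1_5 (s0_4 p179_29))),
   tr p180_23,
   x7_6 (x7_5 (x7_4 (x3_2 (x3_1 (x3_0 (s3_7 (s2_5 (s1_6 (s0_4 (n6 p178_34)))))))))),
   p191_4,
   tr p182_23,
   tr p183_23,
   p191_7],
  [s3_6 (s2_7 (s1_5 (s0_4 p180_29))),
   x6_7 (x6_5 (x6_4 (s5_6 (x3_2 (x3_1 (x3_0 (s3_6 (x2_6 (x2_1 (x2_0 (s2_5 (s1_7 (s0_4 (n7 (n4 p178_34))))))))))))))),
   x5_7 (x5_6 (x5_4 (s3_6 (s2_7 (x1_7 (x1_6 (x1_0 (s1_5 (s0_4 (n7 (n6 (n0 p178_23)))))))))))),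
   s3_6 (s2_7 (s1_5 (s0_4 p184_29))),
   tr p185_23,
   p191_13,
   p191_14,
   tr p187_23],
  [p191_16,
   s3_6 (s2_7 (s1_5 (s0_4 p182_29))),
   s3_6 (s2_7 (s1_5 (s0_4 p185_29))),
   p191_19,
   tr p188_23,
   tr p189_23,
   tr p190_23,
   p191_23],
  [s3_6 (s2_7 (s1_5 (s0_4 p183_29))),
   p191_25,
   p191_26,
   s3_6 (s2_7 (s1_5 (s0_4 p187_29))),
   x5_7 (x5_6 (x5_4 (s3_6 (s2_7 (x1_7 (x1_6 (x1_0 (s1_5 (s0_4 (n7 (n6 (n3 (n2 (n0 p190_23)))))))))))))),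
   p191_29,
   tr p192_23,
   x5_7 (x5_6 (x5_4 (s3_6 (s2_7 (x1_7 (x1_6 (x1_0 (s1_5 (s0_4 (n7 (n6 (n3 (n2 p189_23)))))))))))))],
  [p191_32,
   x7_6 (x7_5 (x7_4 (x3_2 (x3_1 (x3_0 (s3_7 (s2_5 (s1_6 (s0_4 (n6 (n1 p188_34))))))))))),
   p191_34,
   x7_6 (x7_5 (x7_4 (x3_2 (x3_1 (x3_0 (s3_7 (s2_5 (s1_6 (s0_4 (n6 (n1 p189_34))))))))))),
   x5_7 (x5_6 (x5_4 (s3_7 (s2_6 (x1_7 (x1_6 (x1_0 (s1_5 (s0_4 (n7 (n6 (n2 (n0 p185_29))))))))))))),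
   s6_7 (x5_7 (x5_6 (x5_4 (s2_3 (x1_3 (x1_2 (x1_0 (n7 (n3 (n2 p191_25)))))))))),
   s6_7 (x5_7 (x5_6 (x5_4 (s2_3 (x1_3 (x1_2 (x1_0 (n7 (n4 (n3 (n2 p191_26))))))))))),
   x5_7 (x5_6 (x5_4 (s3_7 (s2_6 (x1_7 (x1_6 (x1_0 (s1_5 (s0_4 (n7 (n6 (n2 p182_29))))))))))))],
  [p191_40,
   x6_7 (x6_5 (x6_4 (s5_6 (x3_2 (x3_1 (x3_0 (s3_6 (x2_6 (x2_1 (x2_0 (s2_5 (s1_7 (s0_4 (n7 (n4 (n1 p189_34)))))))))))))))),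
   s6_7 (x5_7 (x5_6 (x5_4 (s2_3 (x1_3 (x1_2 (x1_0 (n4 (n3 (n2 p191_32)))))))))),
   x7_6 (x7_5 (x7_4 (x3_2 (x3_1 (x3_0 (s3_7 (s2_5 (s1_6 (s0_4 (n6 (n1 (n0 p192_34)))))))))))),
   s6_7 (x5_7 (x5_6 (x5_4 (s2_3 (x1_3 (x1_2 (x1_0 (n7 (n4 (n3 (n2 p191_16))))))))))),
   x5_7 (x5_6 (x5_4 (s3_7 (s2_6 (x1_7 (x1_6 (x1_0 (s1_5 (s0_4 (n7 (n6 (n2 p187_29)))))))))))),
   x5_7 (x5_6 (x5_4 (s3_7 (s2_6 (x1_7 (x1_6 (x1_0 (s1_5 (s0_4 (n7 (n6 (n2 (n0 p183_29))))))))))))),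
   s6_7 (x5_7 (x5_6 (x5_4 (s2_3 (x1_3 (x1_2 (x1_0 (n7 (n3 (n2 p191_19))))))))))],
  [x5_7 (x5_6 (x5_4 (s3_6 (s2_7 (x1_7 (x1_6 (x1_0 (s1_5 (s0_4 (n7 (n6 (n2 (n0 p185_23))))))))))))),
   s6_7 (x5_7 (x5_6 (x5_4 (s2_3 (x1_3 (x1_2 (x1_0 (n6 (n3 (n2 p191_7)))))))))),
   s6_7 (x5_7 (x5_6 (x5_4 (s2_3 (x1_3 (x1_2 (x1_0 (n6 (n4 (n3 (n2 p191_4))))))))))),
   x5_7 (x5_6 (x5_4 (s3_6 (s2_7 (x1_7 (x1_6 (x1_0 (s1_5 (s0_4 (n7 (n6 (n2 p187_23)))))))))))),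
   s3_6 (s2_7 (s1_5 (s0_4 p193_29))),
   p191_53,
   x7_6 (x7_5 (x7_4 (x3_2 (x3_1 (x3_0 (s3_7 (s2_5 (s1_6 (s0_4 (n6 (n2 (n1 p194_34)))))))))))),
   tr p195_23],
  [s6_7 (x5_7 (x5_6 (x5_4 (s2_3 (x1_3 (x1_2 (x1_0 (n6 (n4 (n3 (n2 p191_14))))))))))),
   x5_7 (x5_6 (x5_4 (s3_6 (s2_7 (x1_7 (x1_6 (x1_0 (s1_5 (s0_4 (n7 (n6 (n2 p182_23)))))))))))),
   x5_7 (x5_6 (x5_4 (s3_6 (s2_7 (x1_7 (x1_6 (x1_0 (s1_5 (s0_4 (n7 (n6 (n2 (n0 p183_23))))))))))))),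
   s6_7 (x5_7 (x5_6 (x5_4 (s2_3 (x1_3 (x1_2 (x1_0 (n6 (n3 (n2 p191_13)))))))))),
   x6_7 (x6_5 (x6_4 (s5_6 (x3_2 (x3_1 (x3_0 (s3_6 (x2_6 (x2_1 (x2_0 (s2_5 (s1_7 (s0_4 (n7 (n4 (n3 (n1 p194_34))))))))))))))))),
   s3_6 (s2_7 (s1_5 (s0_4 p195_29))),
   s3_6 (s2_7 (s1_5 (s0_4 p196_29))),
   s6_7 (x5_7 (x5_6 (x5_4 (s2_3 (x1_3 (x1_2 (x1_0 (n7 (n6 (n3 (n2 p191_53)))))))))))]]

theorem k191 : eqNN c191 (slO 64 (D.chG 23 23) 8) = true := by decide +kernel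

end Pool.Agent.Lib.MP_afdd4d_co.K10.E6
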