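import Pool.Agent.Lib.MP_afdd4d_co.K10.E6.Dat
import Pool.Agent.Lib.MP_afdd4d_co.K10.E6.Mk
import Pool.Agent.Lib.MP_afdd4d_co.K8.F6Bl5
import Pool.Agent.Lib.MP_afdd4d_co.K10.E6.P0
import Pool.Agent.Lib.MP_afdd4d_co.K10.E6.P1
import Pool.Agent.Lib.MP_afdd4d_co.K10.E6.P2
import Pool.Agent.Lib.MP_afdd4d_co.K10.E6.P3
import Pool.Agent.Lib.MP_afdd4d_co.K10.E6.P4
import Pool.Agent.Lib.MP_afdd4d_co.K10.E6.P5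
import Pool.Agent.Lib.MP_afdd4d_co.K10.E6.P6
import Pool.Agent.Lib.MP_afdd4d_co.K10.E6.P7
import Pool.Agent.Lib.MP_afdd4d_co.K10.E6.P8
import Pool.Agent.Lib.MP_afdd4d_co.K10.E6.P9
import Pool.Agent.Lib.MP_afdd4d_co.K10.E6.P10
import Pool.Agent.Lib.MP_afdd4d_co.K10.E6.P11
import Pool.Agent.Lib.MP_afdd4d_co.K10.E6.P12
import Pool.Agent.Lib.MP_afdd4d_co.K10.E6.P13
import Pool.Agent.Lib.MP_afdd4d_co.K10.E6.P14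
import Pool.Agent.Lib.MP_afdd4d_co.K10.E6.P15
import Pool.Agent.Lib.MP_afdd4d_co.K10.E6.P16
import Pool.Agent.Lib.MP_afdd4d_co.K10.E6.P17
import Pool.Agent.Lib.MP_afdd4d_co.K10.E6.P18
import Pool.Agent.Lib.MP_afdd4d_co.K10.E6.P19
import Pool.Agent.Lib.MP_afdd4d_co.K10.E6.P20
import Pool.Agent.Lib.MP_afdd4d_co.K10.E6.P21
import Pool.Agent.Lib.MP_afdd4d_co.K10.E6.P22
import Pool.Agent.Lib.MP_afdd4d_co.K10.E6.P23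
import Pool.Agent.Lib.MP_afdd4d_co.K10.E6.P24
import Pool.Agent.Lib.MP_afdd4d_co.K10.E6.P25
import Pool.Agent.Lib.MP_afdd4d_co.K10.E6.P26
import Pool.Agent.Lib.MP_afdd4d_co.K10.E6.P27
import Pool.Agent.Lib.MP_afdd4d_co.K10.E6.P28
import Pool.Agent.Lib.MP_afdd4d_co.K10.E6.P29
import Pool.Agent.Lib.MP_afdd4d_co.K10.E6.P30
import Pool.Agent.Lib.MP_afdd4d_co.K10.E6.P31
import Pool.Agent.Lib.MP_afdd4d_co.K10.E6.P32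

/-!
# Tables
-/

namespace Pool.Agent.Lib.MP_afdd4d_co.K10.E6

open K8

set_option maxRecDepth 100000
set_option exponentiation.threshold 10000000

/-- The slices of the chunk 192. -/
noncomputable def c192 : List (List ℕ) := [
  [p192_0,
   tr p179_30,
   tr p180_30,
   p192_3,
   p192_4,
   p192_5,
   p192_6,
   p192_7],
  [s3_6 (s2_7 (s1_5 (s0_4 p180_30))),
   s6_7 (s2_3 p192_3),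
   x5_7 (x5_6 (x5_4 (x1_3 (x1_2 (x1_0 (n4 (n3 (n2 (n0 p192_0))))))))),
   tr p184_30,
   p192_12,
   p192_13,
   p192_14,
   p192_15],
  [s6_7 (s2_3 p192_4),
   s6_7 (s2_3 p192_5),
   s6_7 (s2_3 p192_12),
   s6_7 (s2_3 p192_13),
   tr p188_30,
   p192_21,
   p192_22,
   p192_23],
  [s6_7 (s2_3 p192_6),
   s6_7 (s2_3 p192_7),
   s6_7 (s2_3 p192_14),
   s6_7 (s2_3 p192_15),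
   s6_7 (s2_3 p192_22),
   s6_7 (s2_3 p192_23),
   p192_30,
   x5_7 (x5_6 (x5_4 (x1_3 (x1_2 (x1_0 (n7 (n6 (n3 (n2 (n0 p192_21))))))))))],
  [p192_32,
   x7_6 (x7_5 (x7_4 (x3_2 (x3_1 (x3_0 (s3_7 (s2_5 (s1_6 (s0_4 (n6 (n4 (n1 p188_43)))))))))))),
   p192_34,
   p192_35,
   x5_7 (x5_6 (x5_4 (x1_3 (x1_2 (x1_0 (n6 (n4 (n3 (n2 (n0 p192_12)))))))))),
   x5_7 (x5_6 (x5_4 (x1_3 (x1_2 (x1_0 (n6 (n3 (n2 (n0 p192_7))))))))),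
   x5_7 (x5_6 (x5_4 (x1_3 (x1_2 (x1_0 (n6 (n4 (n3 (n2 (n0 p192_14)))))))))),
   x5_7 (x5_6 (x5_4 (x1_3 (x1_2 (x1_0 (n6 (n3 (n2 (n0 p192_5)))))))))],
  [s6_7 (s2_3 p192_34),
   s6_7 (s2_3 p192_35),
   x5_7 (x5_6 (x5_4 (x1_3 (x1_2 (x1_0 (n4 (n3 (n2 (n0 p192_32))))))))),
   p192_43,
   x5_7 (x5_6 (x5_4 (x1_3 (x1_2 (x1_0 (n6 (n4 (n3 (n2 (n0 p192_4)))))))))),
   x5_7 (x5_6 (x5_4 (x1_3 (x1_2 (x1_0 (n6 (n3 (n2 (n0 p192_15))))))))),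
   x5_7 (x5_6 (x5_4 (x1_3 (x1_2 (x1_0 (n6 (n4 (n3 (n2 (n0 p192_6)))))))))),
   x5_7 (x5_6 (x5_4 (x1_3 (x1_2 (x1_0 (n6 (n3 (n2 (n0 p192_13)))))))))],
  [s6_7 (x5_7 (x5_6 (x5_4 (s2_3 (x1_3 (x1_2 (x1_0 (n6 (n4 (n3 (n2 (n0 p192_12)))))))))))),
   s6_7 (x5_7 (x5_6 (x5_4 (s2_3 (x1_3 (x1_2 (x1_0 (n6 (n3 (n2 (n0 p192_7))))))))))),
   s6_7 (x5_7 (x5_6 (x5_4 (s2_3 (x1_3 (x1_2 (x1_0 (n6 (n4 (n3 (n2 (n0 p192_4)))))))))))),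
   s6_7 (x5_7 (x5_6 (x5_4 (s2_3 (x1_3 (x1_2 (x1_0 (n6 (n3 (n2 (n0 p192_15))))))))))),
   tr p193_30,
   p192_53,
   p192_54,
   p192_55],
  [s6_7 (x5_7 (x5_6 (x5_4 (s2_3 (x1_3 (x1_2 (x1_0 (n6 (n4 (n3 (n2 (n0 p192_14)))))))))))),
   s6_7 (x5_7 (x5_6 (x5_4 (s2_3 (x1_3 (x1_2 (x1_0 (n6 (n3 (n2 (n0 p192_5))))))))))),
   s6_7 (x5_7 (x5_6 (x5_4 (s2_3 (x1_3 (x1_2 (x1_0 (n6 (n4 (n3 (n2 (n0 p192_6)))))))))))),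
   s6_7 (x5_7 (x5_6 (x5_4 (s2_3 (x1_3 (x1_2 (x1_0 (n6 (n3 (n2 (n0 p192_13))))))))))),
   s6_7 (s2_3 p192_54),
   s6_7 (s2_3 p192_55),
   tr p196_30,
   x5_7 (x5_6 (x5_4 (x1_3 (x1_2 (x1_0 (n7 (n6 (n3 (n2 (n0 p192_53))))))))))]]

theorem k192 : eqNN c192 (slO 64 (D.chG 23 30) 8) = true := by decide +kernel

/-- The slices of the chunk 193. -/
noncomputable def c193 : List (List ℕ) := [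
  [p193_0,
   tr p179_52,
   p193_2,
   x7_6 (x7_5 (x7_4 (s5_6 (x3_2 (x3_1 (x3_0 (s1_2 (n2 (n1 p193_0))))))))),
   p193_4,
   p193_5,
   p193_6,
   x7_6 (x7_5 (x7_4 (s5_6 (x3_2 (x3_1 (x3_0 (s1_2 (n2 (n1 p193_4)))))))))],
  [s6_7 (s2_3 p193_2),
   x6_7 (x6_5 (x6_4 (s5_7 (x2_3 (x2_1 (x2_0 (s1_3 (n3 (n1 p193_0))))))))),
   x5_7 (x5_6 (x5_4 (x1_3 (x1_2 (x1_0 (n4 (n3 (n2 (n0 p193_0))))))))),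
   tr p184_52,
   p193_12,
   p193_13,
   x7_6 (x7_5 (x7_4 (s5_6 (x3_2 (x3_1 (x3_0 (s1_2 (n4 (n2 (n1 p193_13)))))))))),
   p193_15],
  [s6_7 (s2_3 p193_4),
   s6_7 (s2_3 p193_5),
   s6_7 (s2_3 p193_12),
   s6_7 (s2_3 p193_13),
   p193_20,
   p193_21,
   p193_22,
   s6_7 (s2_3 p193_29)],
  [s6_7 (s2_3 p193_6),
   x7_6 (x7_5 (x7_4 (x6_7 (x6_5 (x6_4 (s5_6 (x3_2 (x3_1 (x3_0 (x2_3 (x2_1 (x2_0 (s1_2 (n2 (n1 p193_4))))))))))))))),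
   x7_6 (x7_5 (x7_4 (x6_7 (x6_5 (x6_4 (s5_6 (x3_2 (x3_1 (x3_0 (x2_3 (x2_1 (x2_0 (s1_2 (n4 (n2 (n1 p193_13)))))))))))))))),
   s6_7 (s2_3 p193_15),
   s6_7 (s2_3 p193_22),
   p193_29,
   p193_30,
   x5_7 (x5_6 (x5_4 (x1_3 (x1_2 (x1_0 (n7 (n6 (n3 (n2 (n0 p193_21))))))))))],
  [x7_6 (x7_5 (x7_4 (s5_6 (x3_2 (x3_1 (x3_0 (s1_2 (n5 (n2 (n1 p193_22)))))))))),
   x6_7 (x6_5 (x6_4 (s5_7 (x2_3 (x2_1 (x2_0 (s1_3 (n5 (n3 (n1 p193_20)))))))))),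
   x7_6 (x7_5 (x7_4 (s6_7 (s5_7 (x3_2 (x3_1 (x3_0 (s2_3 (s1_3 (n5 (n3 (n1 p193_29)))))))))))),
   x7_6 (x7_5 (x7_4 (s5_6 (x3_2 (x3_1 (x3_0 (s1_2 (n5 (n2 (n1 p193_21)))))))))),
   x5_7 (x5_6 (x5_4 (x1_3 (x1_2 (x1_0 (n6 (n4 (n3 (n2 (n0 p193_12)))))))))),
   x7_6 (x7_5 (x7_4 (s6_7 (s5_7 (x3_2 (x3_1 (x3_0 (s2_3 (s1_3 (n5 (n3 (n1 p193_4)))))))))))),
   x7_6 (x7_5 (x7_4 (s6_7 (s5_7 (x3_2 (x3_1 (x3_0 (s2_3 (s1_3 (n5 (n3 (n1 p193_13)))))))))))),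
   x5_7 (x5_6 (x5_4 (x1_3 (x1_2 (x1_0 (n6 (n3 (n2 (n0 p193_5)))))))))],
  [x6_7 (x6_5 (x6_4 (s5_7 (x2_3 (x2_1 (x2_0 (s1_3 (n5 (n3 (n1 p193_29)))))))))),
   x6_7 (x6_5 (x6_4 (s5_7 (x2_3 (x2_1 (x2_0 (s1_3 (n5 (n3 (n1 p193_21)))))))))),
   x6_7 (x6_5 (x6_4 (s5_7 (x2_3 (x2_1 (x2_0 (s1_3 (n5 (n4 (n3 (n1 p193_22))))))))))),
   x6_7 (x6_5 (x6_4 (s5_7 (x2_3 (x2_1 (x2_0 (s1_3 (n5 (n4 (n3 (n1 p193_30))))))))))),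
   x5_7 (x5_6 (x5_4 (x1_3 (x1_2 (x1_0 (n6 (n4 (n3 (n2 (n0 p193_4)))))))))),
   x5_7 (x5_6 (x5_4 (x1_3 (x1_2 (x1_0 (n6 (n3 (n2 (n0 p193_15))))))))),
   x5_7 (x5_6 (x5_4 (x1_3 (x1_2 (x1_0 (n6 (n4 (n3 (n2 (n0 p193_6)))))))))),
   x5_7 (x5_6 (x5_4 (x1_3 (x1_2 (x1_0 (n6 (n3 (n2 (n0 p193_13)))))))))],
  [x6_7 (x6_5 (x6_4 (s5_7 (x2_3 (x2_1 (x2_0 (s1_3 (n5 (n3 (n1 p193_12)))))))))),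
   x6_7 (x6_5 (x6_4 (s5_7 (x2_3 (x2_1 (x2_0 (s1_3 (n5 (n3 (n1 p193_4)))))))))),
   s6_7 (x5_7 (x5_6 (x5_4 (s2_3 (x1_3 (x1_2 (x1_0 (n6 (n4 (n3 (n2 (n0 p193_4)))))))))))),
   s6_7 (x5_7 (x5_6 (x5_4 (s2_3 (x1_3 (x1_2 (x1_0 (n6 (n3 (n2 (n0 p193_15))))))))))),
   p193_52,
   p193_53,
   x7_6 (x7_5 (x7_4 (s5_6 (x3_2 (x3_1 (x3_0 (s1_2 (n6 (n5 (n2 (n1 p193_53))))))))))),
   p193_55],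
  [x6_7 (x6_5 (x6_4 (s5_7 (x2_3 (x2_1 (x2_0 (s1_3 (n5 (n3 (n1 p193_13)))))))))),
   x6_7 (x6_5 (x6_4 (s5_7 (x2_3 (x2_1 (x2_0 (s1_3 (n5 (n3 (n1 p193_5)))))))))),
   x6_7 (x6_5 (x6_4 (s5_7 (x2_3 (x2_1 (x2_0 (s1_3 (n5 (n4 (n3 (n1 p193_6))))))))))),
   s6_7 (x5_7 (x5_6 (x5_4 (s2_3 (x1_3 (x1_2 (x1_0 (n6 (n3 (n2 (n0 p193_13))))))))))),
   x6_7 (x6_5 (x6_4 (s5_7 (x2_3 (x2_1 (x2_0 (s1_3 (n7 (n5 (n3 (n1 p193_53))))))))))),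
   s6_7 (s2_3 p193_55),
   p193_62,
   x5_7 (x5_6 (x5_4 (x1_3 (x1_2 (x1_0 (n7 (n6 (n3 (n2 (n0 p193_53))))))))))]]

theorem k193 : eqNN c193 (slO 64 (D.chG 23 52) 8) = true := by decide +kernel

/-- The slices of the chunk 194. -/
noncomputable def c194 : List (List ℕ) := [
  [tr p178_53,
   tr p179_53,
   tr p180_53,
   x7_6 (x7_5 (x7_4 (x3_2 (x3_1 (x3_0 (s3_7 (s2_5 (s1_6 (s0_4 (n6 (n5 p178_54))))))))))),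
   p194_4,
   tr p182_53,
   tr p183_53,
   p194_7],
  [s3_6 (s2_7 (s1_5 (s0_4 p180_53))),
   x7_6 (x7_5 (x7_4 (x6_7 (x6_5 (x6_4 (x3_2 (x3_1 (x3_0 (s3_7 (x2_7 (x2_1 (x2_0 (s2_5 (s1_6 (s0_4 (n6 (n5 p178_54))))))))))))))))),
   x5_7 (x5_6 (x5_4 (s3_7 (s2_6 (x1_7 (x1_6 (x1_0 (s1_5 (s0_4 (n7 (n6 (n0 p178_63)))))))))))),
   tr p184_53,
   tr p185_53,
   p194_13,
   p194_14,
   tr p187_53],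
  [s6_7 (s2_3 p194_4),
   s3_6 (s2_7 (s1_5 (s0_4 p182_53))),
   s3_6 (s2_7 (s1_5 (s0_4 p185_53))),
   s6_7 (s2_3 p194_13),
   tr p188_53,
   tr p189_53,
   tr p190_53,
   tr p191_53],
  [s3_6 (s2_7 (s1_5 (s0_4 p183_53))),
   s6_7 (s2_3 p194_7),
   s6_7 (s2_3 p194_14),
   s3_6 (s2_7 (s1_5 (s0_4 p187_53))),
   s3_6 (s2_7 (s1_5 (s0_4 p190_53))),
   s3_6 (s2_7 (s1_5 (s0_4 p191_53))),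
   tr p192_53,
   x5_7 (x5_6 (x5_4 (s3_7 (s2_6 (x1_7 (x1_6 (x1_0 (s1_5 (s0_4 (n7 (n6 (n3 (n2 p189_63)))))))))))))],
  [x7_6 (x7_5 (x7_4 (x3_2 (x3_1 (x3_0 (s3_7 (s2_5 (s1_6 (s0_4 (n6 (n5 (n1 p190_54)))))))))))),
   x7_6 (x7_5 (x7_4 (x3_2 (x3_1 (x3_0 (s3_7 (s2_5 (s1_6 (s0_4 (n6 (n5 (n1 p188_54)))))))))))),
   p194_34,
   x7_6 (x7_5 (x7_4 (x3_2 (x3_1 (x3_0 (s3_7 (s2_5 (s1_6 (s0_4 (n6 (n5 (n1 p189_54)))))))))))),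
   s6_7 (s2_3 p194_48),
   s6_7 (s2_3 p194_49),
   s6_7 (s2_3 p194_56),
   s6_7 (s2_3 p194_57)],
  [s6_7 (s2_3 p194_34),
   x7_6 (x7_5 (x7_4 (x6_7 (x6_5 (x6_4 (x3_2 (x3_1 (x3_0 (s3_7 (x2_7 (x2_1 (x2_0 (s2_5 (s1_6 (s0_4 (n6 (n5 (n1 p189_54)))))))))))))))))),
   x7_6 (x7_5 (x7_4 (s6_7 (s5_6 (x3_2 (x3_1 (x3_0 (s3_6 (s2_5 (s1_7 (s0_4 (n7 (n5 (n1 (n0 p190_60))))))))))))))),
   x7_6 (x7_5 (x7_4 (x3_2 (x3_1 (x3_0 (s3_7 (s2_5 (s1_6 (s0_4 (n6 (n5 (n1 (n0 p192_54))))))))))))),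
   p194_44,
   s6_7 (s2_3 p194_51),
   s6_7 (s2_3 p194_58),
   p194_47],
  [p194_48,
   p194_49,
   s6_7 (s2_3 p194_44),
   p194_51,
   tr p193_53,
   p194_53,
   p194_54,
   tr p195_53],
  [p194_56,
   p194_57,
   p194_58,
   s6_7 (s2_3 p194_47),
   s6_7 (s2_3 p194_54),
   s3_6 (s2_7 (s1_5 (s0_4 p195_53))),
   tr p196_53,
   p194_63]]

theorem k194 : eqNN c194 (slO 64 (D.chG 23 53) 8) = true := by decide +kernel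

/-- The slices of the chunk 195. -/
noncomputable def c195 : List (List ℕ) := [
  [p195_0,
   tr p179_55,
   tr p180_55,
   x7_6 (x7_5 (x7_4 (s5_6 (x3_2 (x3_1 (x3_0 (s1_2 (n2 (n1 p195_0))))))))),
   p195_4,
   p195_5,
   p195_6,
   x7_6 (x7_5 (x7_4 (s5_6 (x3_2 (x3_1 (x3_0 (s1_2 (n2 (n1 p195_4)))))))))],
  [s3_6 (s2_7 (s1_5 (s0_4 p180_61))),
   x6_7 (x6_5 (x6_4 (s5_7 (x2_3 (x2_1 (x2_0 (s1_3 (n3 (n1 (n0 p195_0)))))))))),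
   s6_7 (x5_7 (x5_6 (x5_4 (s2_3 (x1_3 (x1_2 (x1_0 (n4 (n3 (n2 p195_0)))))))))),
   tr p184_55,
   p195_12,
   p195_13,
   x7_6 (x7_5 (x7_4 (s5_6 (x3_2 (x3_1 (x3_0 (s1_2 (n4 (n2 (n1 p195_13)))))))))),
   p195_15],
  [p195_16,
   p195_17,
   p195_18,
   p195_19,
   tr p188_55,
   p195_21,
   p195_22,
   p195_23],
  [p195_24,
   x6_7 (x6_5 (x6_4 (s5_7 (x2_3 (x2_1 (x2_0 (s1_3 (n3 (n1 (n0 p195_16)))))))))),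
   x6_7 (x6_5 (x6_4 (s5_7 (x2_3 (x2_1 (x2_0 (s1_3 (n4 (n3 (n1 (n0 p195_19))))))))))),
   p195_27,
   s6_7 (x5_7 (x5_6 (x5_4 (s2_3 (x1_3 (x1_2 (x1_0 (n7 (n6 (n4 (n3 (n2 p195_22)))))))))))),
   p195_29,
   tr p192_55,
   s6_7 (x5_7 (x5_6 (x5_4 (s2_3 (x1_3 (x1_2 (x1_0 (n7 (n6 (n3 (n2 p195_21)))))))))))],
  [x7_6 (x7_5 (x7_4 (s5_6 (x3_2 (x3_1 (x3_0 (s1_2 (n5 (n2 (n1 p195_22)))))))))),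
   x7_6 (x7_5 (x7_4 (x3_2 (x3_1 (x3_0 (s3_7 (s2_5 (s1_6 (s0_4 (n6 (n5 (n1 p188_55)))))))))))),
   x7_6 (x7_5 (x7_4 (s5_6 (x3_2 (x3_1 (x3_0 (s1_2 (n5 (n2 (n1 p195_23)))))))))),
   x7_6 (x7_5 (x7_4 (s5_6 (x3_2 (x3_1 (x3_0 (s1_2 (n5 (n2 (n1 p195_21)))))))))),
   x7_6 (x7_5 (x7_4 (s5_6 (x3_2 (x3_1 (x3_0 (s1_2 (n5 (n2 (n1 p195_18)))))))))),
   x7_6 (x7_5 (x7_4 (s5_6 (x3_2 (x3_1 (x3_0 (s1_2 (n5 (n2 (n1 p195_16)))))))))),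
   x7_6 (x7_5 (x7_4 (s5_6 (x3_2 (x3_1 (x3_0 (s1_2 (n5 (n2 (n1 p195_19)))))))))),
   s6_7 (x5_7 (x5_6 (x5_4 (s2_3 (x1_3 (x1_2 (x1_0 (n7 (n3 (n2 p195_17))))))))))],
  [x6_7 (x6_5 (x6_4 (s5_7 (x2_3 (x2_1 (x2_0 (s1_3 (n5 (n3 (n1 (n0 p195_29))))))))))),
   x6_7 (x6_5 (x6_4 (s5_7 (x2_3 (x2_1 (x2_0 (s1_3 (n5 (n3 (n1 (n0 p195_21))))))))))),
   x6_7 (x6_5 (x6_4 (s5_7 (x2_3 (x2_1 (x2_0 (s1_3 (n5 (n4 (n3 (n1 (n0 p195_22)))))))))))),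
   x7_6 (x7_5 (x7_4 (x3_2 (x3_1 (x3_0 (s3_7 (s2_5 (s1_6 (s0_4 (n6 (n5 (n1 (n0 p192_55))))))))))))),
   s6_7 (x5_7 (x5_6 (x5_4 (s2_3 (x1_3 (x1_2 (x1_0 (n7 (n4 (n3 (n2 p195_16))))))))))),
   s6_7 (x5_7 (x5_6 (x5_4 (s2_3 (x1_3 (x1_2 (x1_0 (n7 (n3 (n2 p195_27)))))))))),
   s6_7 (x5_7 (x5_6 (x5_4 (s2_3 (x1_3 (x1_2 (x1_0 (n7 (n4 (n3 (n2 p195_24))))))))))),
   s6_7 (x5_7 (x5_6 (x5_4 (s2_3 (x1_3 (x1_2 (x1_0 (n7 (n3 (n2 p195_19))))))))))],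
  [s6_7 (x5_7 (x5_6 (x5_4 (s2_3 (x1_3 (x1_2 (x1_0 (n6 (n4 (n3 (n2 p195_12))))))))))),
   x6_7 (x6_5 (x6_4 (s5_7 (x2_3 (x2_1 (x2_0 (s1_3 (n5 (n3 (n1 (n0 p195_4))))))))))),
   s6_7 (x5_7 (x5_6 (x5_4 (s2_3 (x1_3 (x1_2 (x1_0 (n6 (n4 (n3 (n2 p195_4))))))))))),
   s6_7 (x5_7 (x5_6 (x5_4 (s2_3 (x1_3 (x1_2 (x1_0 (n6 (n3 (n2 p195_15)))))))))),
   tr p193_55,
   p195_53,
   x7_6 (x7_5 (x7_4 (s5_6 (x3_2 (x3_1 (x3_0 (s1_2 (n6 (n5 (n2 (n1 p195_53))))))))))),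
   p195_55],
  [x6_7 (x6_5 (x6_4 (s5_7 (x2_3 (x2_1 (x2_0 (s1_3 (n5 (n3 (n1 (n0 p195_13))))))))))),
   s6_7 (x5_7 (x5_6 (x5_4 (s2_3 (x1_3 (x1_2 (x1_0 (n6 (n3 (n2 p195_5)))))))))),
   s6_7 (x5_7 (x5_6 (x5_4 (s2_3 (x1_3 (x1_2 (x1_0 (n6 (n4 (n3 (n2 p195_6))))))))))),
   s6_7 (x5_7 (x5_6 (x5_4 (s2_3 (x1_3 (x1_2 (x1_0 (n6 (n3 (n2 p195_13)))))))))),
   x6_7 (x6_5 (x6_4 (s5_7 (x2_3 (x2_1 (x2_0 (s1_3 (n7 (n5 (n3 (n1 (n0 p195_53)))))))))))),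
   p195_61,
   tr p196_55,
   s6_7 (x5_7 (x5_6 (x5_4 (s2_3 (x1_3 (x1_2 (x1_0 (n7 (n6 (n3 (n2 p195_53)))))))))))]]

theorem k195 : eqNN c195 (slO 64 (D.chG 23 55) 8) = true := by decide +kernel

end Pool.Agent.Lib.MP_afdd4d_co.K10.E6
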