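import Pool.Agent.Lib.MP_afdd4d_co.K10.E6.Dat
import Pool.Agent.Lib.MP_afdd4d_co.K10.E6.Mk
import Pool.Agent.Lib.MP_afdd4d_co.K8.F6Bl5
import Pool.Agent.Lib.MP_afdd4d_co.K10.E6.P0
import Pool.Agent.Lib.MP_afdd4d_co.K10.E6.P1
import Pool.Agent.Lib.MP_afdd4d_co.K10.E6.P2
import Pool.Agent.Lib.MP_afdd4d_co.K10.E6.P3
import Pool.Agent.Lib.MP_afdd4d_co.K10.E6.P4
import Pool.Agent.Lib.MP_afdd4d_co.K10.E6.P5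
import Pool.Agent.Lib.MP_afdd4d_co.K10.E6.P6
import Pool.Agent.Lib.MP_afdd4d_co.K10.E6.P7
import Pool.Agent.Lib.MP_afdd4d_co.K10.E6.P8
import Pool.Agent.Lib.MP_afdd4d_co.K10.E6.P9
import Pool.Agent.Lib.MP_afdd4d_co.K10.E6.P10
import Pool.Agent.Lib.MP_afdd4d_co.K10.E6.P11
import Pool.Agent.Lib.MP_afdd4d_co.K10.E6.P12
import Pool.Agent.Lib.MP_afdd4d_co.K10.E6.P13
import Pool.Agent.Lib.MP_afdd4d_co.K10.E6.P14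
import Pool.Agent.Lib.MP_afdd4d_co.K10.E6.P15
import Pool.Agent.Lib.MP_afdd4d_co.K10.E6.P16
import Pool.Agent.Lib.MP_afdd4d_co.K10.E6.P17
import Pool.Agent.Lib.MP_afdd4d_co.K10.E6.P18
import Pool.Agent.Lib.MP_afdd4d_co.K10.E6.P19
import Pool.Agent.Lib.MP_afdd4d_co.K10.E6.P20
import Pool.Agent.Lib.MP_afdd4d_co.K10.E6.P21
import Pool.Agent.Lib.MP_afdd4d_co.K10.E6.P22
import Pool.Agent.Lib.MP_afdd4d_co.K10.E6.P23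
import Pool.Agent.Lib.MP_afdd4d_co.K10.E6.P24
import Pool.Agent.Lib.MP_afdd4d_co.K10.E6.P25
import Pool.Agent.Lib.MP_afdd4d_co.K10.E6.P26
import Pool.Agent.Lib.MP_afdd4d_co.K10.E6.P27
import Pool.Agent.Lib.MP_afdd4d_co.K10.E6.P28
import Pool.Agent.Lib.MP_afdd4d_co.K10.E6.P29
import Pool.Agent.Lib.MP_afdd4d_co.K10.E6.P30
import Pool.Agent.Lib.MP_afdd4d_co.K10.E6.P31
import Pool.Agent.Lib.MP_afdd4d_co.K10.E6.P32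

/-!
# Tables
-/

namespace Pool.Agent.Lib.MP_afdd4d_co.K10.E6

open K8

set_option maxRecDepth 100000
set_option exponentiation.threshold 10000000

/-- The slices of the chunk 196. -/
noncomputable def c196 : List (List ℕ) := [
  [p196_0,
   tr p179_62,
   p196_2,
   x7_6 (x7_5 (x7_4 (s5_6 (x3_2 (x3_1 (x3_0 (s1_2 (n2 (n1 (n0 p196_0)))))))))),
   p196_4,
   p196_5,
   p196_6,
   x7_6 (x7_5 (x7_4 (s5_6 (x3_2 (x3_1 (x3_0 (s1_2 (n2 (n1 (n0 p196_4))))))))))],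
  [s6_7 (s2_3 p196_2),
   x6_7 (x6_5 (x6_4 (s5_7 (x2_3 (x2_1 (x2_0 (s1_3 (n3 (n1 (n0 p196_0)))))))))),
   x5_7 (x5_6 (x5_4 (x1_3 (x1_2 (x1_0 (n4 (n3 (n2 (n0 p196_0))))))))),
   tr p184_62,
   p196_12,
   p196_13,
   x7_6 (x7_5 (x7_4 (s5_6 (x3_2 (x3_1 (x3_0 (s1_2 (n4 (n2 (n1 (n0 p196_13))))))))))),
   p196_15],
  [s6_7 (s2_3 p196_4),
   s6_7 (s2_3 p196_5),
   s6_7 (s2_3 p196_12),
   s6_7 (s2_3 p196_13),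
   p196_20,
   p196_21,
   p196_22,
   s6_7 (s2_3 p196_29)],
  [s6_7 (s2_3 p196_6),
   x7_6 (x7_5 (x7_4 (x6_7 (x6_5 (x6_4 (s5_6 (x3_2 (x3_1 (x3_0 (x2_3 (x2_1 (x2_0 (s1_2 (n2 (n1 (n0 p196_4)))))))))))))))),
   x7_6 (x7_5 (x7_4 (x6_7 (x6_5 (x6_4 (s5_6 (x3_2 (x3_1 (x3_0 (x2_3 (x2_1 (x2_0 (s1_2 (n4 (n2 (n1 (n0 p196_13))))))))))))))))),
   s6_7 (s2_3 p196_15),
   s6_7 (s2_3 p196_22),
   p196_29,
   p196_30,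
   x5_7 (x5_6 (x5_4 (x1_3 (x1_2 (x1_0 (n7 (n6 (n3 (n2 (n0 p196_21))))))))))],
  [x7_6 (x7_5 (x7_4 (s5_6 (x3_2 (x3_1 (x3_0 (s1_2 (n5 (n2 (n1 (n0 p196_22))))))))))),
   x6_7 (x6_5 (x6_4 (s5_7 (x2_3 (x2_1 (x2_0 (s1_3 (n5 (n3 (n1 (n0 p196_20))))))))))),
   x7_6 (x7_5 (x7_4 (s6_7 (s5_7 (x3_2 (x3_1 (x3_0 (s2_3 (s1_3 (n5 (n3 (n1 (n0 p196_29))))))))))))),
   x7_6 (x7_5 (x7_4 (s5_6 (x3_2 (x3_1 (x3_0 (s1_2 (n5 (n2 (n1 (n0 p196_21))))))))))),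
   x5_7 (x5_6 (x5_4 (x1_3 (x1_2 (x1_0 (n6 (n4 (n3 (n2 (n0 p196_12)))))))))),
   x7_6 (x7_5 (x7_4 (s6_7 (s5_7 (x3_2 (x3_1 (x3_0 (s2_3 (s1_3 (n5 (n3 (n1 (n0 p196_4))))))))))))),
   x7_6 (x7_5 (x7_4 (s6_7 (s5_7 (x3_2 (x3_1 (x3_0 (s2_3 (s1_3 (n5 (n3 (n1 (n0 p196_13))))))))))))),
   x5_7 (x5_6 (x5_4 (x1_3 (x1_2 (x1_0 (n6 (n3 (n2 (n0 p196_5)))))))))],
  [x6_7 (x6_5 (x6_4 (s5_7 (x2_3 (x2_1 (x2_0 (s1_3 (n5 (n3 (n1 (n0 p196_29))))))))))),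
   x6_7 (x6_5 (x6_4 (s5_7 (x2_3 (x2_1 (x2_0 (s1_3 (n5 (n3 (n1 (n0 p196_21))))))))))),
   x6_7 (x6_5 (x6_4 (s5_7 (x2_3 (x2_1 (x2_0 (s1_3 (n5 (n4 (n3 (n1 (n0 p196_22)))))))))))),
   x6_7 (x6_5 (x6_4 (s5_7 (x2_3 (x2_1 (x2_0 (s1_3 (n5 (n4 (n3 (n1 (n0 p196_30)))))))))))),
   x5_7 (x5_6 (x5_4 (x1_3 (x1_2 (x1_0 (n6 (n4 (n3 (n2 (n0 p196_4)))))))))),
   x5_7 (x5_6 (x5_4 (x1_3 (x1_2 (x1_0 (n6 (n3 (n2 (n0 p196_15))))))))),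
   x5_7 (x5_6 (x5_4 (x1_3 (x1_2 (x1_0 (n6 (n4 (n3 (n2 (n0 p196_6)))))))))),
   x5_7 (x5_6 (x5_4 (x1_3 (x1_2 (x1_0 (n6 (n3 (n2 (n0 p196_13)))))))))],
  [x6_7 (x6_5 (x6_4 (s5_7 (x2_3 (x2_1 (x2_0 (s1_3 (n5 (n3 (n1 (n0 p196_12))))))))))),
   x6_7 (x6_5 (x6_4 (s5_7 (x2_3 (x2_1 (x2_0 (s1_3 (n5 (n3 (n1 (n0 p196_4))))))))))),
   s6_7 (x5_7 (x5_6 (x5_4 (s2_3 (x1_3 (x1_2 (x1_0 (n6 (n4 (n3 (n2 (n0 p196_4)))))))))))),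
   s6_7 (x5_7 (x5_6 (x5_4 (s2_3 (x1_3 (x1_2 (x1_0 (n6 (n3 (n2 (n0 p196_15))))))))))),
   tr p193_62,
   p196_53,
   x7_6 (x7_5 (x7_4 (s5_6 (x3_2 (x3_1 (x3_0 (s1_2 (n6 (n5 (n2 (n1 (n0 p196_53)))))))))))),
   p196_55],
  [x6_7 (x6_5 (x6_4 (s5_7 (x2_3 (x2_1 (x2_0 (s1_3 (n5 (n3 (n1 (n0 p196_13))))))))))),
   s6_7 (x5_7 (x5_6 (x5_4 (s2_3 (x1_3 (x1_2 (x1_0 (n6 (n3 (n2 (n0 p196_5))))))))))),
   s6_7 (x5_7 (x5_6 (x5_4 (s2_3 (x1_3 (x1_2 (x1_0 (n6 (n4 (n3 (n2 (n0 p196_6)))))))))))),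
   s6_7 (x5_7 (x5_6 (x5_4 (s2_3 (x1_3 (x1_2 (x1_0 (n6 (n3 (n2 (n0 p196_13))))))))))),
   x6_7 (x6_5 (x6_4 (s5_7 (x2_3 (x2_1 (x2_0 (s1_3 (n7 (n5 (n3 (n1 (n0 p196_53)))))))))))),
   s6_7 (s2_3 p196_55),
   p196_62,
   x5_7 (x5_6 (x5_4 (x1_3 (x1_2 (x1_0 (n7 (n6 (n3 (n2 (n0 p196_53))))))))))]]

theorem k196 : eqNN c196 (slO 64 (D.chG 23 62) 8) = true := by decide +kernel

/-- The slices of the chunk 197. -/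
noncomputable def c197 : List (List ℕ) := [
  [p197_0,
   p197_1,
   p197_2,
   p197_3,
   s4_5 (s0_1 p197_2),
   s4_5 (s0_1 p197_3),
   p197_6,
   p197_7],
  [s6_7 (s2_3 p197_2),
   s6_7 (s2_3 p197_3),
   p197_10,
   p197_11,
   p197_12,
   p197_13,
   p197_14,
   p197_15],
  [s6_7 (s4_5 (s2_3 (s0_1 p197_2))),
   s6_7 (s4_5 (s2_3 (s0_1 p197_3))),
   s6_7 (s2_3 p197_12),
   s6_7 (s2_3 p197_13),
   s4_5 (s0_1 p197_10),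
   s4_5 (s0_1 p197_11),
   s4_5 (s0_1 p197_14),
   s4_5 (s0_1 p197_15)],
  [s6_7 (s2_3 p197_6),
   s6_7 (s2_3 p197_7),
   s6_7 (s2_3 p197_14),
   s6_7 (s2_3 p197_15),
   s6_7 (s4_5 (s2_3 (s0_1 p197_14))),
   s6_7 (s4_5 (s2_3 (s0_1 p197_15))),
   p197_30,
   p197_31],
  [p197_32,
   p197_33,
   p197_34,
   p197_35,
   s4_5 (s0_1 p197_34),
   s4_5 (s0_1 p197_35),
   p197_38,
   p197_39],
  [s6_7 (s2_3 p197_34),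
   s6_7 (s2_3 p197_35),
   p197_42,
   p197_43,
   p197_44,
   p197_45,
   p197_46,
   p197_47],
  [s6_7 (s4_5 (s2_3 (s0_1 p197_34))),
   s6_7 (s4_5 (s2_3 (s0_1 p197_35))),
   s6_7 (s2_3 p197_44),
   s6_7 (s2_3 p197_45),
   s4_5 (s0_1 p197_42),
   s4_5 (s0_1 p197_43),
   s4_5 (s0_1 p197_46),
   s4_5 (s0_1 p197_47)],
  [s6_7 (s2_3 p197_38),
   s6_7 (s2_3 p197_39),
   s6_7 (s2_3 p197_46),
   s6_7 (s2_3 p197_47),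
   s6_7 (s4_5 (s2_3 (s0_1 p197_46))),
   s6_7 (s4_5 (s2_3 (s0_1 p197_47))),
   p197_62,
   p197_63]]

theorem k197 : eqNN c197 (slO 64 (D.chG 28 0) 8) = true := by decide +kernel

/-- The slices of the chunk 198. -/
noncomputable def c198 : List (List ℕ) := [
  [tr p197_1,
   p198_1,
   p198_2,
   p198_3,
   s4_5 (s0_1 p198_2),
   s4_5 (s0_1 p198_3),
   p198_6,
   p198_7],
  [s6_7 (s2_3 p198_2),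
   s6_7 (s2_3 p198_3),
   p198_10,
   p198_11,
   p198_12,
   p198_13,
   p198_14,
   p198_15],
  [s6_7 (s4_5 (s2_3 (s0_1 p198_2))),
   s6_7 (s4_5 (s2_3 (s0_1 p198_3))),
   s6_7 (s2_3 p198_12),
   s6_7 (s2_3 p198_13),
   s4_5 (s0_1 p198_10),
   s4_5 (s0_1 p198_11),
   s4_5 (s0_1 p198_14),
   s4_5 (s0_1 p198_15)],
  [s6_7 (s2_3 p198_6),
   s6_7 (s2_3 p198_7),
   s6_7 (s2_3 p198_14),
   s6_7 (s2_3 p198_15),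
   s6_7 (s4_5 (s2_3 (s0_1 p198_14))),
   s6_7 (s4_5 (s2_3 (s0_1 p198_15))),
   p198_30,
   p198_31],
  [p198_32,
   p198_33,
   p198_34,
   p198_35,
   s4_5 (s0_1 p198_34),
   s4_5 (s0_1 p198_35),
   p198_38,
   p198_39],
  [s6_7 (s2_3 p198_34),
   s6_7 (s2_3 p198_35),
   p198_42,
   p198_43,
   p198_44,
   p198_45,
   p198_46,
   p198_47],
  [s6_7 (s4_5 (s2_3 (s0_1 p198_34))),
   s6_7 (s4_5 (s2_3 (s0_1 p198_35))),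
   s6_7 (s2_3 p198_44),
   s6_7 (s2_3 p198_45),
   s4_5 (s0_1 p198_42),
   s4_5 (s0_1 p198_43),
   s4_5 (s0_1 p198_46),
   s4_5 (s0_1 p198_47)],
  [s6_7 (s2_3 p198_38),
   s6_7 (s2_3 p198_39),
   s6_7 (s2_3 p198_46),
   s6_7 (s2_3 p198_47),
   s6_7 (s4_5 (s2_3 (s0_1 p198_46))),
   s6_7 (s4_5 (s2_3 (s0_1 p198_47))),
   p198_62,
   p198_63]]

theorem k198 : eqNN c198 (slO 64 (D.chG 28 1) 8) = true := by decide +kernel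

/-- The slices of the chunk 199. -/
noncomputable def c199 : List (List ℕ) := [
  [tr p197_2,
   tr p198_2,
   p199_2,
   p199_3,
   p199_4,
   p199_5,
   tr p201_2,
   tr p202_2],
  [p199_8,
   p199_9,
   tr p203_2,
   tr p204_2,
   p199_12,
   p199_13,
   p199_14,
   p199_15],
  [p199_16,
   p199_17,
   p199_18,
   p199_19,
   s3_7 (s2_6 (s1_4 (s0_5 p203_4))),
   s3_7 (s2_6 (s1_4 (s0_5 p204_4))),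
   p199_22,
   p199_23],
  [s3_6 (s2_7 (s1_5 (s0_4 p201_8))),
   s3_6 (s2_7 (s1_5 (s0_4 p202_8))),
   p199_26,
   p199_27,
   p199_28,
   p199_29,
   tr p209_2,
   tr p210_2],
  [tr p211_2,
   tr p212_2,
   p199_34,
   p199_35,
   p199_36,
   p199_37,
   tr p215_2,
   tr p216_2],
  [p199_40,
   p199_41,
   tr p217_2,
   tr p218_2,
   p199_44,
   p199_45,
   p199_46,
   p199_47],
  [p199_48,
   p199_49,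
   p199_50,
   p199_51,
   s3_7 (s2_6 (s1_4 (s0_5 p217_4))),
   s3_7 (s2_6 (s1_4 (s0_5 p218_4))),
   p199_54,
   p199_55],
  [s3_6 (s2_7 (s1_5 (s0_4 p215_8))),
   s3_6 (s2_7 (s1_5 (s0_4 p216_8))),
   p199_58,
   p199_59,
   p199_60,
   p199_61,
   tr p223_2,
   tr p224_2]]

theorem k199 : eqNN c199 (slO 64 (D.chG 28 2) 8) = true := by decide +kernel

end Pool.Agent.Lib.MP_afdd4d_co.K10.E6
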