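import Pool.Agent.Lib.MP_afdd4d_co.K10.E6.Dat
import Pool.Agent.Lib.MP_afdd4d_co.K10.E6.Mk
import Pool.Agent.Lib.MP_afdd4d_co.K8.F6Bl5
import Pool.Agent.Lib.MP_afdd4d_co.K10.E6.P0
import Pool.Agent.Lib.MP_afdd4d_co.K10.E6.P1
import Pool.Agent.Lib.MP_afdd4d_co.K10.E6.P2
import Pool.Agent.Lib.MP_afdd4d_co.K10.E6.P3
import Pool.Agent.Lib.MP_afdd4d_co.K10.E6.P4
import Pool.Agent.Lib.MP_afdd4d_co.K10.E6.P5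
import Pool.Agent.Lib.MP_afdd4d_co.K10.E6.P6
import Pool.Agent.Lib.MP_afdd4d_co.K10.E6.P7
import Pool.Agent.Lib.MP_afdd4d_co.K10.E6.P8
import Pool.Agent.Lib.MP_afdd4d_co.K10.E6.P9
import Pool.Agent.Lib.MP_afdd4d_co.K10.E6.P10
import Pool.Agent.Lib.MP_afdd4d_co.K10.E6.P11
import Pool.Agent.Lib.MP_afdd4d_co.K10.E6.P12
import Pool.Agent.Lib.MP_afdd4d_co.K10.E6.P13
import Pool.Agent.Lib.MP_afdd4d_co.K10.E6.P14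
import Pool.Agent.Lib.MP_afdd4d_co.K10.E6.P15
import Pool.Agent.Lib.MP_afdd4d_co.K10.E6.P16
import Pool.Agent.Lib.MP_afdd4d_co.K10.E6.P17
import Pool.Agent.Lib.MP_afdd4d_co.K10.E6.P18
import Pool.Agent.Lib.MP_afdd4d_co.K10.E6.P19
import Pool.Agent.Lib.MP_afdd4d_co.K10.E6.P20
import Pool.Agent.Lib.MP_afdd4d_co.K10.E6.P21
import Pool.Agent.Lib.MP_afdd4d_co.K10.E6.P22
import Pool.Agent.Lib.MP_afdd4d_co.K10.E6.P23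
import Pool.Agent.Lib.MP_afdd4d_co.K10.E6.P24
import Pool.Agent.Lib.MP_afdd4d_co.K10.E6.P25
import Pool.Agent.Lib.MP_afdd4d_co.K10.E6.P26
import Pool.Agent.Lib.MP_afdd4d_co.K10.E6.P27
import Pool.Agent.Lib.MP_afdd4d_co.K10.E6.P28
import Pool.Agent.Lib.MP_afdd4d_co.K10.E6.P29
import Pool.Agent.Lib.MP_afdd4d_co.K10.E6.P30
import Pool.Agent.Lib.MP_afdd4d_co.K10.E6.P31
import Pool.Agent.Lib.MP_afdd4d_co.K10.E6.P32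

/-!
# Tables
-/

namespace Pool.Agent.Lib.MP_afdd4d_co.K10.E6

open K8

set_option maxRecDepth 100000
set_option exponentiation.threshold 10000000

/-- The slices of the chunk 20. -/
noncomputable def c20 : List (List ℕ) := [
  [tr p7_57,
   tr p8_57,
   s3_7 (s2_5 (s1_6 (s0_4 p8_58))),
   tr p9_57,
   s5_6 (s4_5 (s3_7 (s2_5 (s1_4 (s0_6 p8_58))))),
   s3_7 (s2_6 (s1_4 (s0_5 p9_57))),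
   s3_7 (s2_4 (s1_5 (s0_6 p9_60))),
   tr p10_57],
  [p20_8,
   p20_9,
   x7_6 (x7_5 (x7_4 (x3_2 (x3_1 (x3_0 (n4 (n2 (n1 (n0 p20_9))))))))),
   x7_6 (x7_5 (x7_4 (x3_2 (x3_1 (x3_0 (n4 (n2 (n1 (n0 p20_8))))))))),
   p20_12,
   p20_13,
   x7_6 (x7_5 (x7_4 (x3_2 (x3_1 (x3_0 (n4 (n2 (n1 (n0 p20_13))))))))),
   x7_6 (x7_5 (x7_4 (x3_2 (x3_1 (x3_0 (n4 (n2 (n1 (n0 p20_12)))))))))],
  [s4_5 (s0_1 p20_8),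
   s4_5 (s0_1 p20_9),
   s4_5 (s0_1 p20_12),
   s4_5 (s0_1 p20_13),
   x7_6 (x7_5 (x7_4 (s4_5 (x3_2 (x3_1 (x3_0 (s0_1 (n4 (n2 (n1 (n0 p20_9))))))))))),
   x7_6 (x7_5 (x7_4 (s4_5 (x3_2 (x3_1 (x3_0 (s0_1 (n4 (n2 (n1 (n0 p20_8))))))))))),
   x7_6 (x7_5 (x7_4 (s4_5 (x3_2 (x3_1 (x3_0 (s0_1 (n4 (n2 (n1 (n0 p20_13))))))))))),
   x7_6 (x7_5 (x7_4 (s4_5 (x3_2 (x3_1 (x3_0 (s0_1 (n4 (n2 (n1 (n0 p20_12)))))))))))],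
  [p20_24,
   p20_25,
   p20_26,
   p20_27,
   s4_5 (s0_1 p20_26),
   s4_5 (s0_1 p20_27),
   x7_6 (x7_5 (x7_4 (x3_2 (x3_1 (x3_0 (n5 (n4 (n2 (n1 (n0 p20_24)))))))))),
   x7_6 (x7_5 (x7_4 (x3_2 (x3_1 (x3_0 (n5 (n4 (n2 (n1 (n0 p20_25))))))))))],
  [p20_32,
   p20_33,
   s4_5 (s0_1 p20_36),
   s4_5 (s0_1 p20_37),
   p20_36,
   p20_37,
   x7_6 (x7_5 (x7_4 (x3_2 (x3_1 (x3_0 (n6 (n2 (n1 (n0 p20_32))))))))),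
   x7_6 (x7_5 (x7_4 (x3_2 (x3_1 (x3_0 (n6 (n2 (n1 (n0 p20_33)))))))))],
  [p20_40,
   p20_41,
   p20_42,
   p20_43,
   x7_6 (x7_5 (x7_4 (x3_2 (x3_1 (x3_0 (n6 (n4 (n2 (n1 (n0 p20_41)))))))))),
   x7_6 (x7_5 (x7_4 (x3_2 (x3_1 (x3_0 (n6 (n4 (n2 (n1 (n0 p20_40)))))))))),
   x7_6 (x7_5 (x7_4 (x3_2 (x3_1 (x3_0 (n6 (n4 (n2 (n1 (n0 p20_43)))))))))),
   x7_6 (x7_5 (x7_4 (x3_2 (x3_1 (x3_0 (n6 (n4 (n2 (n1 (n0 p20_42))))))))))],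
  [s4_5 (s0_1 p20_40),
   s4_5 (s0_1 p20_41),
   x7_6 (x7_5 (x7_4 (s4_5 (x3_2 (x3_1 (x3_0 (s0_1 (n6 (n4 (n2 (n1 (n0 p20_41)))))))))))),
   x7_6 (x7_5 (x7_4 (s4_5 (x3_2 (x3_1 (x3_0 (s0_1 (n6 (n4 (n2 (n1 (n0 p20_40)))))))))))),
   s4_5 (s0_1 p20_42),
   s4_5 (s0_1 p20_43),
   x7_6 (x7_5 (x7_4 (s4_5 (x3_2 (x3_1 (x3_0 (s0_1 (n6 (n4 (n2 (n1 (n0 p20_43)))))))))))),
   x7_6 (x7_5 (x7_4 (s4_5 (x3_2 (x3_1 (x3_0 (s0_1 (n6 (n4 (n2 (n1 (n0 p20_42))))))))))))],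
  [tr p19_57,
   p20_57,
   p20_58,
   p20_59,
   s4_5 (s0_1 p20_58),
   s4_5 (s0_1 p20_59),
   p20_62,
   tr p22_57]]

theorem k20 : eqNN c20 (slO 64 (D.chG 1 57) 8) = true := by decide +kernel

/-- The slices of the chunk 21. -/
noncomputable def c21 : List (List ℕ) := [
  [tr p7_59,
   tr p8_59,
   s3_7 (s2_5 (s1_6 (s0_4 p8_59))),
   tr p9_59,
   s3_7 (s2_4 (s1_5 (s0_6 p8_62))),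
   s3_7 (s2_6 (s1_4 (s0_5 p9_61))),
   s5_6 (s4_6 (s3_7 (s2_4 (s1_6 (s0_5 p9_61))))),
   tr p10_59],
  [p21_8,
   p21_9,
   s5_6 (s1_2 p21_9),
   x7_6 (x7_5 (x7_4 (x3_2 (x3_1 (x3_0 (n4 (n2 (n1 (n0 p21_8))))))))),
   p21_12,
   p21_13,
   s5_6 (s1_2 p21_13),
   x7_6 (x7_5 (x7_4 (x3_2 (x3_1 (x3_0 (n4 (n2 (n1 (n0 p21_12)))))))))],
  [p21_16,
   p21_17,
   p21_18,
   p21_19,
   x7_6 (x7_5 (x7_4 (x3_2 (x3_1 (x3_0 (n5 (n2 (n1 (n0 p21_17))))))))),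
   x7_6 (x7_5 (x7_4 (x3_2 (x3_1 (x3_0 (n5 (n2 (n1 (n0 p21_16))))))))),
   x7_6 (x7_5 (x7_4 (x3_2 (x3_1 (x3_0 (n5 (n2 (n1 (n0 p21_19))))))))),
   x7_6 (x7_5 (x7_4 (x3_2 (x3_1 (x3_0 (n5 (n2 (n1 (n0 p21_18)))))))))],
  [p21_24,
   p21_25,
   p21_26,
   p21_27,
   x7_6 (x7_5 (x7_4 (x3_2 (x3_1 (x3_0 (n5 (n4 (n2 (n1 (n0 p21_26)))))))))),
   x7_6 (x7_5 (x7_4 (x3_2 (x3_1 (x3_0 (n5 (n4 (n2 (n1 (n0 p21_27)))))))))),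
   x7_6 (x7_5 (x7_4 (x3_2 (x3_1 (x3_0 (n5 (n4 (n2 (n1 (n0 p21_24)))))))))),
   x7_6 (x7_5 (x7_4 (x3_2 (x3_1 (x3_0 (n5 (n4 (n2 (n1 (n0 p21_25))))))))))],
  [s5_6 (s1_2 p21_16),
   s5_6 (s1_2 p21_18),
   s5_6 (s1_2 p21_17),
   s5_6 (s1_2 p21_19),
   x7_6 (x7_5 (x7_4 (s5_6 (x3_2 (x3_1 (x3_0 (s1_2 (n5 (n2 (n1 (n0 p21_17))))))))))),
   x7_6 (x7_5 (x7_4 (s5_6 (x3_2 (x3_1 (x3_0 (s1_2 (n5 (n2 (n1 (n0 p21_19))))))))))),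
   x7_6 (x7_5 (x7_4 (s5_6 (x3_2 (x3_1 (x3_0 (s1_2 (n5 (n2 (n1 (n0 p21_16))))))))))),
   x7_6 (x7_5 (x7_4 (s5_6 (x3_2 (x3_1 (x3_0 (s1_2 (n5 (n2 (n1 (n0 p21_18)))))))))))],
  [s5_6 (s1_2 p21_24),
   s5_6 (s1_2 p21_26),
   s5_6 (s1_2 p21_25),
   s5_6 (s1_2 p21_27),
   x7_6 (x7_5 (x7_4 (s5_6 (x3_2 (x3_1 (x3_0 (s1_2 (n5 (n4 (n2 (n1 (n0 p21_26)))))))))))),
   x7_6 (x7_5 (x7_4 (s5_6 (x3_2 (x3_1 (x3_0 (s1_2 (n5 (n4 (n2 (n1 (n0 p21_24)))))))))))),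
   x7_6 (x7_5 (x7_4 (s5_6 (x3_2 (x3_1 (x3_0 (s1_2 (n5 (n4 (n2 (n1 (n0 p21_27)))))))))))),
   x7_6 (x7_5 (x7_4 (s5_6 (x3_2 (x3_1 (x3_0 (s1_2 (n5 (n4 (n2 (n1 (n0 p21_25))))))))))))],
  [p21_48,
   s5_6 (s1_2 p21_50),
   p21_50,
   x7_6 (x7_5 (x7_4 (x3_2 (x3_1 (x3_0 (n6 (n5 (n2 (n1 (n0 p21_48)))))))))),
   p21_52,
   s5_6 (s1_2 p21_54),
   p21_54,
   x7_6 (x7_5 (x7_4 (x3_2 (x3_1 (x3_0 (n6 (n5 (n2 (n1 (n0 p21_52))))))))))],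
  [tr p19_59,
   tr p20_59,
   s3_7 (s2_5 (s1_6 (s0_4 p20_59))),
   p21_59,
   s3_7 (s2_4 (s1_5 (s0_6 p20_62))),
   p21_61,
   s5_6 (s1_2 p21_61),
   tr p22_59]]

theorem k21 : eqNN c21 (slO 64 (D.chG 1 59) 8) = true := by decide +kernel

/-- The slices of the chunk 22. -/
noncomputable def c22 : List (List ℕ) := [
  [tr p7_63,
   p22_1,
   s5_6 (s1_2 p22_1),
   p22_3,
   s4_6 (s0_2 p22_1),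
   s4_5 (s0_1 p22_3),
   s4_6 (s0_2 p22_3),
   tr p10_63],
  [p22_8,
   p22_9,
   s5_6 (s1_2 p22_9),
   x7_6 (x7_5 (x7_4 (x3_2 (x3_1 (x3_0 (n4 (n2 (n1 (n0 p22_8))))))))),
   p22_12,
   p22_13,
   s5_6 (s1_2 p22_13),
   x7_6 (x7_5 (x7_4 (x3_2 (x3_1 (x3_0 (n4 (n2 (n1 (n0 p22_12)))))))))],
  [s4_5 (s0_1 p22_8),
   s4_5 (s0_1 p22_9),
   s4_5 (s0_1 p22_12),
   s4_5 (s0_1 p22_13),
   s5_6 (s4_6 (s1_2 (s0_2 p22_9))),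
   x7_6 (x7_5 (x7_4 (s4_5 (x3_2 (x3_1 (x3_0 (s0_1 (n4 (n2 (n1 (n0 p22_8))))))))))),
   s5_6 (s4_6 (s1_2 (s0_2 p22_13))),
   x7_6 (x7_5 (x7_4 (s4_5 (x3_2 (x3_1 (x3_0 (s0_1 (n4 (n2 (n1 (n0 p22_12)))))))))))],
  [p22_24,
   p22_25,
   p22_26,
   p22_27,
   s4_5 (s0_1 p22_26),
   s4_5 (s0_1 p22_27),
   x7_6 (x7_5 (x7_4 (x3_2 (x3_1 (x3_0 (n5 (n4 (n2 (n1 (n0 p22_24)))))))))),
   x7_6 (x7_5 (x7_4 (x3_2 (x3_1 (x3_0 (n5 (n4 (n2 (n1 (n0 p22_25))))))))))],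
  [s4_6 (s0_2 p22_8),
   s4_6 (s0_2 p22_12),
   s5_6 (s4_5 (s1_2 (s0_1 p22_9))),
   s5_6 (s4_5 (s1_2 (s0_1 p22_13))),
   s4_6 (s0_2 p22_9),
   s4_6 (s0_2 p22_13),
   x7_6 (x7_5 (x7_4 (s4_6 (x3_2 (x3_1 (x3_0 (s0_2 (n4 (n2 (n1 (n0 p22_8))))))))))),
   x7_6 (x7_5 (x7_4 (s4_6 (x3_2 (x3_1 (x3_0 (s0_2 (n4 (n2 (n1 (n0 p22_12)))))))))))],
  [s5_6 (s1_2 p22_24),
   s5_6 (s1_2 p22_26),
   s5_6 (s1_2 p22_25),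
   s5_6 (s1_2 p22_27),
   s5_6 (s4_5 (s1_2 (s0_1 p22_26))),
   x7_6 (x7_5 (x7_4 (s5_6 (x3_2 (x3_1 (x3_0 (s1_2 (n5 (n4 (n2 (n1 (n0 p22_24)))))))))))),
   s5_6 (s4_5 (s1_2 (s0_1 p22_27))),
   x7_6 (x7_5 (x7_4 (s5_6 (x3_2 (x3_1 (x3_0 (s1_2 (n5 (n4 (n2 (n1 (n0 p22_25))))))))))))],
  [s4_6 (s0_2 p22_24),
   s5_6 (s4_6 (s1_2 (s0_2 p22_26))),
   s4_6 (s0_2 p22_26),
   x7_6 (x7_5 (x7_4 (s4_6 (x3_2 (x3_1 (x3_0 (s0_2 (n5 (n4 (n2 (n1 (n0 p22_24)))))))))))),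
   s4_6 (s0_2 p22_25),
   s5_6 (s4_6 (s1_2 (s0_2 p22_27))),
   s4_6 (s0_2 p22_27),
   x7_6 (x7_5 (x7_4 (s4_6 (x3_2 (x3_1 (x3_0 (s0_2 (n5 (n4 (n2 (n1 (n0 p22_25))))))))))))],
  [tr p19_63,
   p22_57,
   s5_6 (s1_2 p22_57),
   p22_59,
   s4_6 (s0_2 p22_57),
   s4_5 (s0_1 p22_59),
   s4_6 (s0_2 p22_59),
   p22_63]]

theorem k22 : eqNN c22 (slO 64 (D.chG 1 63) 8) = true := by decide +kernel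

/-- The slices of the chunk 23. -/
noncomputable def c23 : List (List ℕ) := [
  [p23_0,
   p23_1,
   p23_2,
   p23_3,
   s4_5 (s0_1 p23_2),
   s4_5 (s0_1 p23_3),
   p23_6,
   p23_7],
  [s6_7 (s2_3 p23_2),
   s6_7 (s2_3 p23_3),
   p23_10,
   p23_11,
   p23_12,
   p23_13,
   p23_14,
   p23_15],
  [s6_7 (s4_5 (s2_3 (s0_1 p23_2))),
   s6_7 (s4_5 (s2_3 (s0_1 p23_3))),
   s6_7 (s2_3 p23_12),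
   s6_7 (s2_3 p23_13),
   s4_5 (s0_1 p23_10),
   s4_5 (s0_1 p23_11),
   s4_5 (s0_1 p23_14),
   s4_5 (s0_1 p23_15)],
  [s6_7 (s2_3 p23_6),
   s6_7 (s2_3 p23_7),
   s6_7 (s2_3 p23_14),
   s6_7 (s2_3 p23_15),
   s6_7 (s4_5 (s2_3 (s0_1 p23_14))),
   s6_7 (s4_5 (s2_3 (s0_1 p23_15))),
   p23_30,
   p23_31],
  [p23_32,
   p23_33,
   p23_34,
   p23_35,
   s4_5 (s0_1 p23_34),
   s4_5 (s0_1 p23_35),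
   p23_38,
   p23_39],
  [s6_7 (s2_3 p23_34),
   s6_7 (s2_3 p23_35),
   p23_42,
   p23_43,
   p23_44,
   p23_45,
   p23_46,
   p23_47],
  [s6_7 (s4_5 (s2_3 (s0_1 p23_34))),
   s6_7 (s4_5 (s2_3 (s0_1 p23_35))),
   s6_7 (s2_3 p23_44),
   s6_7 (s2_3 p23_45),
   s4_5 (s0_1 p23_42),
   s4_5 (s0_1 p23_43),
   s4_5 (s0_1 p23_46),
   s4_5 (s0_1 p23_47)],
  [s6_7 (s2_3 p23_38),
   s6_7 (s2_3 p23_39),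
   s6_7 (s2_3 p23_46),
   s6_7 (s2_3 p23_47),
   s6_7 (s4_5 (s2_3 (s0_1 p23_46))),
   s6_7 (s4_5 (s2_3 (s0_1 p23_47))),
   p23_62,
   p23_63]]

theorem k23 : eqNN c23 (slO 64 (D.chG 3 0) 8) = true := by decide +kernel

end Pool.Agent.Lib.MP_afdd4d_co.K10.E6
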