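import Pool.Agent.Lib.MP_afdd4d_co.K10.E6.Dat
import Pool.Agent.Lib.MP_afdd4d_co.K10.E6.Mk
import Pool.Agent.Lib.MP_afdd4d_co.K8.F6Bl5
import Pool.Agent.Lib.MP_afdd4d_co.K10.E6.P0
import Pool.Agent.Lib.MP_afdd4d_co.K10.E6.P1
import Pool.Agent.Lib.MP_afdd4d_co.K10.E6.P2
import Pool.Agent.Lib.MP_afdd4d_co.K10.E6.P3
import Pool.Agent.Lib.MP_afdd4d_co.K10.E6.P4
import Pool.Agent.Lib.MP_afdd4d_co.K10.E6.P5
import Pool.Agent.Lib.MP_afdd4d_co.K10.E6.P6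
import Pool.Agent.Lib.MP_afdd4d_co.K10.E6.P7
import Pool.Agent.Lib.MP_afdd4d_co.K10.E6.P8
import Pool.Agent.Lib.MP_afdd4d_co.K10.E6.P9
import Pool.Agent.Lib.MP_afdd4d_co.K10.E6.P10
import Pool.Agent.Lib.MP_afdd4d_co.K10.E6.P11
import Pool.Agent.Lib.MP_afdd4d_co.K10.E6.P12
import Pool.Agent.Lib.MP_afdd4d_co.K10.E6.P13
import Pool.Agent.Lib.MP_afdd4d_co.K10.E6.P14
import Pool.Agent.Lib.MP_afdd4d_co.K10.E6.P15
import Pool.Agent.Lib.MP_afdd4d_co.K10.E6.P16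
import Pool.Agent.Lib.MP_afdd4d_co.K10.E6.P17
import Pool.Agent.Lib.MP_afdd4d_co.K10.E6.P18
import Pool.Agent.Lib.MP_afdd4d_co.K10.E6.P19
import Pool.Agent.Lib.MP_afdd4d_co.K10.E6.P20
import Pool.Agent.Lib.MP_afdd4d_co.K10.E6.P21
import Pool.Agent.Lib.MP_afdd4d_co.K10.E6.P22
import Pool.Agent.Lib.MP_afdd4d_co.K10.E6.P23
import Pool.Agent.Lib.MP_afdd4d_co.K10.E6.P24
import Pool.Agent.Lib.MP_afdd4d_co.K10.E6.P25
import Pool.Agent.Lib.MP_afdd4d_co.K10.E6.P26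
import Pool.Agent.Lib.MP_afdd4d_co.K10.E6.P27
import Pool.Agent.Lib.MP_afdd4d_co.K10.E6.P28
import Pool.Agent.Lib.MP_afdd4d_co.K10.E6.P29
import Pool.Agent.Lib.MP_afdd4d_co.K10.E6.P30
import Pool.Agent.Lib.MP_afdd4d_co.K10.E6.P31
import Pool.Agent.Lib.MP_afdd4d_co.K10.E6.P32

/-!
# Tables
-/

namespace Pool.Agent.Lib.MP_afdd4d_co.K10.E6

open K8

set_option maxRecDepth 100000
set_option exponentiation.threshold 10000000

/-- The slices of the chunk 200. -/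
noncomputable def c200 : List (List ℕ) := [
  [tr p197_3,
   tr p198_3,
   tr p199_3,
   p200_3,
   s3_7 (s2_6 (s1_4 (s0_5 p199_5))),
   p200_5,
   tr p201_3,
   tr p202_3],
  [s3_6 (s2_7 (s1_5 (s0_4 p199_9))),
   p200_9,
   tr p203_3,
   tr p204_3,
   p200_12,
   p200_13,
   p200_14,
   p200_15],
  [s3_6 (s2_7 (s1_4 (s0_5 p199_17))),
   p200_17,
   p200_18,
   p200_19,
   s3_7 (s2_6 (s1_4 (s0_5 p203_5))),
   s3_7 (s2_6 (s1_4 (s0_5 p204_5))),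
   p200_22,
   p200_23],
  [s3_6 (s2_7 (s1_5 (s0_4 p201_9))),
   s3_6 (s2_7 (s1_5 (s0_4 p202_9))),
   p200_26,
   p200_27,
   p200_28,
   p200_29,
   tr p209_3,
   tr p210_3],
  [tr p211_3,
   tr p212_3,
   p200_34,
   p200_35,
   p200_36,
   p200_37,
   tr p215_3,
   tr p216_3],
  [p200_40,
   p200_41,
   tr p217_3,
   tr p218_3,
   p200_44,
   p200_45,
   p200_46,
   p200_47],
  [p200_48,
   p200_49,
   p200_50,
   p200_51,
   s3_7 (s2_6 (s1_4 (s0_5 p217_5))),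
   s3_7 (s2_6 (s1_4 (s0_5 p218_5))),
   p200_54,
   p200_55],
  [s3_6 (s2_7 (s1_5 (s0_4 p215_9))),
   s3_6 (s2_7 (s1_5 (s0_4 p216_9))),
   p200_58,
   p200_59,
   p200_60,
   p200_61,
   tr p223_3,
   tr p224_3]]

theorem k200 : eqNN c200 (slO 64 (D.chG 28 3) 8) = true := by decide +kernel

/-- The slices of the chunk 201. -/
noncomputable def c201 : List (List ℕ) := [
  [tr p197_6,
   tr p198_6,
   p201_2,
   p201_3,
   s4_5 (s0_1 p201_2),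
   s4_5 (s0_1 p201_3),
   p201_6,
   p201_7],
  [p201_8,
   p201_9,
   p201_10,
   p201_11,
   p201_12,
   p201_13,
   p201_14,
   p201_15],
  [s4_5 (s0_1 p201_8),
   s4_5 (s0_1 p201_9),
   s4_5 (s0_1 p201_12),
   s4_5 (s0_1 p201_13),
   s4_5 (s0_1 p201_10),
   s4_5 (s0_1 p201_11),
   s4_5 (s0_1 p201_14),
   s4_5 (s0_1 p201_15)],
  [p201_24,
   p201_25,
   p201_26,
   p201_27,
   s4_5 (s0_1 p201_26),
   s4_5 (s0_1 p201_27),
   tr p209_6,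
   tr p210_6],
  [tr p211_6,
   tr p212_6,
   p201_34,
   p201_35,
   s4_5 (s0_1 p201_34),
   s4_5 (s0_1 p201_35),
   p201_38,
   p201_39],
  [p201_40,
   p201_41,
   p201_42,
   p201_43,
   p201_44,
   p201_45,
   p201_46,
   p201_47],
  [s4_5 (s0_1 p201_40),
   s4_5 (s0_1 p201_41),
   s4_5 (s0_1 p201_44),
   s4_5 (s0_1 p201_45),
   s4_5 (s0_1 p201_42),
   s4_5 (s0_1 p201_43),
   s4_5 (s0_1 p201_46),
   s4_5 (s0_1 p201_47)],
  [p201_56,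
   p201_57,
   p201_58,
   p201_59,
   s4_5 (s0_1 p201_58),
   s4_5 (s0_1 p201_59),
   tr p223_6,
   tr p224_6]]

theorem k201 : eqNN c201 (slO 64 (D.chG 28 6) 8) = true := by decide +kernel

/-- The slices of the chunk 202. -/
noncomputable def c202 : List (List ℕ) := [
  [tr p197_7,
   tr p198_7,
   p202_2,
   p202_3,
   s4_5 (s0_1 p202_2),
   s4_5 (s0_1 p202_3),
   tr p201_7,
   p202_7],
  [p202_8,
   p202_9,
   p202_10,
   p202_11,
   p202_12,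
   p202_13,
   p202_14,
   p202_15],
  [s4_5 (s0_1 p202_8),
   s4_5 (s0_1 p202_9),
   s4_5 (s0_1 p202_12),
   s4_5 (s0_1 p202_13),
   s4_5 (s0_1 p202_10),
   s4_5 (s0_1 p202_11),
   s4_5 (s0_1 p202_14),
   s4_5 (s0_1 p202_15)],
  [s3_6 (s2_7 (s1_5 (s0_4 p201_25))),
   p202_25,
   p202_26,
   p202_27,
   s4_5 (s0_1 p202_26),
   s4_5 (s0_1 p202_27),
   tr p209_7,
   tr p210_7],
  [tr p211_7,
   tr p212_7,
   p202_34,
   p202_35,
   s4_5 (s0_1 p202_34),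
   s4_5 (s0_1 p202_35),
   p202_38,
   p202_39],
  [p202_40,
   p202_41,
   p202_42,
   p202_43,
   p202_44,
   p202_45,
   p202_46,
   p202_47],
  [s4_5 (s0_1 p202_40),
   s4_5 (s0_1 p202_41),
   s4_5 (s0_1 p202_44),
   s4_5 (s0_1 p202_45),
   s4_5 (s0_1 p202_42),
   s4_5 (s0_1 p202_43),
   s4_5 (s0_1 p202_46),
   s4_5 (s0_1 p202_47)],
  [p202_56,
   p202_57,
   p202_58,
   p202_59,
   s4_5 (s0_1 p202_58),
   s4_5 (s0_1 p202_59),
   tr p223_7,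
   tr p224_7]]

theorem k202 : eqNN c202 (slO 64 (D.chG 28 7) 8) = true := by decide +kernel

/-- The slices of the chunk 203. -/
noncomputable def c203 : List (List ℕ) := [
  [tr p197_10,
   tr p198_10,
   p203_2,
   p203_3,
   p203_4,
   p203_5,
   tr p201_10,
   tr p202_10],
  [s6_7 (s2_3 p203_2),
   s6_7 (s2_3 p203_3),
   p203_10,
   p203_11,
   p203_12,
   p203_13,
   p203_14,
   p203_15],
  [s6_7 (s2_3 p203_4),
   s6_7 (s2_3 p203_5),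
   s6_7 (s2_3 p203_12),
   s6_7 (s2_3 p203_13),
   p203_20,
   p203_21,
   p203_22,
   p203_23],
  [s3_6 (s2_7 (s1_5 (s0_4 p201_10))),
   s3_6 (s2_7 (s1_5 (s0_4 p202_10))),
   s6_7 (s2_3 p203_14),
   s6_7 (s2_3 p203_15),
   s6_7 (s2_3 p203_22),
   s6_7 (s2_3 p203_23),
   tr p209_10,
   tr p210_10],
  [tr p211_10,
   tr p212_10,
   p203_34,
   p203_35,
   p203_36,
   p203_37,
   p203_38,
   p203_39],
  [s6_7 (s2_3 p203_34),
   s6_7 (s2_3 p203_35),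
   p203_42,
   p203_43,
   p203_44,
   p203_45,
   p203_46,
   p203_47],
  [s6_7 (s2_3 p203_36),
   s6_7 (s2_3 p203_37),
   s6_7 (s2_3 p203_44),
   s6_7 (s2_3 p203_45),
   p203_52,
   p203_53,
   p203_54,
   p203_55],
  [s6_7 (s2_3 p203_38),
   s6_7 (s2_3 p203_39),
   s6_7 (s2_3 p203_46),
   s6_7 (s2_3 p203_47),
   s6_7 (s2_3 p203_54),
   s6_7 (s2_3 p203_55),
   tr p223_10,
   tr p224_10]]

theorem k203 : eqNN c203 (slO 64 (D.chG 28 10) 8) = true := by decide +kernel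

end Pool.Agent.Lib.MP_afdd4d_co.K10.E6
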