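import Pool.Agent.Lib.MP_afdd4d_co.K10.E6.Dat
import Pool.Agent.Lib.MP_afdd4d_co.K10.E6.Mk
import Pool.Agent.Lib.MP_afdd4d_co.K8.F6Bl5
import Pool.Agent.Lib.MP_afdd4d_co.K10.E6.P0
import Pool.Agent.Lib.MP_afdd4d_co.K10.E6.P1
import Pool.Agent.Lib.MP_afdd4d_co.K10.E6.P2
import Pool.Agent.Lib.MP_afdd4d_co.K10.E6.P3
import Pool.Agent.Lib.MP_afdd4d_co.K10.E6.P4
import Pool.Agent.Lib.MP_afdd4d_co.K10.E6.P5
import Pool.Agent.Lib.MP_afdd4d_co.K10.E6.P6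
import Pool.Agent.Lib.MP_afdd4d_co.K10.E6.P7
import Pool.Agent.Lib.MP_afdd4d_co.K10.E6.P8
import Pool.Agent.Lib.MP_afdd4d_co.K10.E6.P9
import Pool.Agent.Lib.MP_afdd4d_co.K10.E6.P10
import Pool.Agent.Lib.MP_afdd4d_co.K10.E6.P11
import Pool.Agent.Lib.MP_afdd4d_co.K10.E6.P12
import Pool.Agent.Lib.MP_afdd4d_co.K10.E6.P13
import Pool.Agent.Lib.MP_afdd4d_co.K10.E6.P14
import Pool.Agent.Lib.MP_afdd4d_co.K10.E6.P15
import Pool.Agent.Lib.MP_afdd4d_co.K10.E6.P16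
import Pool.Agent.Lib.MP_afdd4d_co.K10.E6.P17
import Pool.Agent.Lib.MP_afdd4d_co.K10.E6.P18
import Pool.Agent.Lib.MP_afdd4d_co.K10.E6.P19
import Pool.Agent.Lib.MP_afdd4d_co.K10.E6.P20
import Pool.Agent.Lib.MP_afdd4d_co.K10.E6.P21
import Pool.Agent.Lib.MP_afdd4d_co.K10.E6.P22
import Pool.Agent.Lib.MP_afdd4d_co.K10.E6.P23
import Pool.Agent.Lib.MP_afdd4d_co.K10.E6.P24
import Pool.Agent.Lib.MP_afdd4d_co.K10.E6.P25
import Pool.Agent.Lib.MP_afdd4d_co.K10.E6.P26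
import Pool.Agent.Lib.MP_afdd4d_co.K10.E6.P27
import Pool.Agent.Lib.MP_afdd4d_co.K10.E6.P28
import Pool.Agent.Lib.MP_afdd4d_co.K10.E6.P29
import Pool.Agent.Lib.MP_afdd4d_co.K10.E6.P30
import Pool.Agent.Lib.MP_afdd4d_co.K10.E6.P31
import Pool.Agent.Lib.MP_afdd4d_co.K10.E6.P32

/-!
# Tables
-/

namespace Pool.Agent.Lib.MP_afdd4d_co.K10.E6

open K8

set_option maxRecDepth 100000
set_option exponentiation.threshold 10000000

/-- The slices of the chunk 204. -/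
noncomputable def c204 : List (List ℕ) := [
  [tr p197_11,
   tr p198_11,
   p204_2,
   p204_3,
   p204_4,
   p204_5,
   tr p201_11,
   tr p202_11],
  [s6_7 (s2_3 p204_2),
   s6_7 (s2_3 p204_3),
   tr p203_11,
   p204_11,
   p204_12,
   p204_13,
   p204_14,
   p204_15],
  [s6_7 (s2_3 p204_4),
   s6_7 (s2_3 p204_5),
   s6_7 (s2_3 p204_12),
   s6_7 (s2_3 p204_13),
   s3_7 (s2_6 (s1_4 (s0_5 p203_21))),
   p204_21,
   p204_22,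
   p204_23],
  [s3_6 (s2_7 (s1_5 (s0_4 p201_11))),
   s3_6 (s2_7 (s1_5 (s0_4 p202_11))),
   s6_7 (s2_3 p204_14),
   s6_7 (s2_3 p204_15),
   s6_7 (s2_3 p204_22),
   s6_7 (s2_3 p204_23),
   tr p209_11,
   tr p210_11],
  [tr p211_11,
   tr p212_11,
   p204_34,
   p204_35,
   p204_36,
   p204_37,
   p204_38,
   p204_39],
  [s6_7 (s2_3 p204_34),
   s6_7 (s2_3 p204_35),
   p204_42,
   p204_43,
   p204_44,
   p204_45,
   p204_46,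
   p204_47],
  [s6_7 (s2_3 p204_36),
   s6_7 (s2_3 p204_37),
   s6_7 (s2_3 p204_44),
   s6_7 (s2_3 p204_45),
   p204_52,
   p204_53,
   p204_54,
   p204_55],
  [s6_7 (s2_3 p204_38),
   s6_7 (s2_3 p204_39),
   s6_7 (s2_3 p204_46),
   s6_7 (s2_3 p204_47),
   s6_7 (s2_3 p204_54),
   s6_7 (s2_3 p204_55),
   tr p223_11,
   tr p224_11]]

theorem k204 : eqNN c204 (slO 64 (D.chG 28 11) 8) = true := by decide +kernel

/-- The slices of the chunk 205. -/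
noncomputable def c205 : List (List ℕ) := [
  [tr p197_12,
   tr p198_12,
   tr p199_12,
   tr p200_12,
   s3_7 (s2_6 (s1_4 (s0_5 p199_18))),
   s3_7 (s2_6 (s1_4 (s0_5 p200_18))),
   tr p201_12,
   tr p202_12],
  [s3_6 (s2_7 (s1_5 (s0_4 p199_18))),
   s3_6 (s2_7 (s1_5 (s0_4 p200_18))),
   tr p203_12,
   tr p204_12,
   p205_12,
   p205_13,
   p205_14,
   p205_15],
  [s3_6 (s2_7 (s1_4 (s0_5 p199_12))),
   s3_6 (s2_7 (s1_4 (s0_5 p200_12))),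
   p205_18,
   p205_19,
   s3_6 (s2_7 (s1_4 (s0_5 p203_12))),
   s3_6 (s2_7 (s1_4 (s0_5 p204_12))),
   p205_22,
   p205_23],
  [s3_6 (s2_7 (s1_4 (s0_5 p201_12))),
   s3_6 (s2_7 (s1_4 (s0_5 p202_12))),
   s6_7 (s4_5 (s2_3 (s0_1 p205_22))),
   s6_7 (s4_5 (s2_3 (s0_1 p205_23))),
   s6_7 (s4_5 (s2_3 (s0_1 p205_14))),
   s6_7 (s4_5 (s2_3 (s0_1 p205_15))),
   tr p209_12,
   tr p210_12],
  [tr p211_12,
   tr p212_12,
   p205_34,
   p205_35,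
   p205_36,
   p205_37,
   tr p215_12,
   tr p216_12],
  [s6_7 (s4_5 (s2_3 (s0_1 p205_36))),
   s6_7 (s4_5 (s2_3 (s0_1 p205_37))),
   tr p217_12,
   tr p218_12,
   p205_44,
   p205_45,
   p205_46,
   p205_47],
  [s6_7 (s4_5 (s2_3 (s0_1 p205_34))),
   s6_7 (s4_5 (s2_3 (s0_1 p205_35))),
   p205_50,
   p205_51,
   s3_6 (s2_7 (s1_4 (s0_5 p217_12))),
   s3_6 (s2_7 (s1_4 (s0_5 p218_12))),
   p205_54,
   p205_55],
  [s3_6 (s2_7 (s1_4 (s0_5 p215_12))),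
   s3_6 (s2_7 (s1_4 (s0_5 p216_12))),
   s6_7 (s4_5 (s2_3 (s0_1 p205_54))),
   s6_7 (s4_5 (s2_3 (s0_1 p205_55))),
   s6_7 (s4_5 (s2_3 (s0_1 p205_46))),
   s6_7 (s4_5 (s2_3 (s0_1 p205_47))),
   tr p223_12,
   tr p224_12]]

theorem k205 : eqNN c205 (slO 64 (D.chG 28 12) 8) = true := by decide +kernel

/-- The slices of the chunk 206. -/
noncomputable def c206 : List (List ℕ) := [
  [tr p197_13,
   tr p198_13,
   tr p199_13,
   tr p200_13,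
   s3_7 (s2_6 (s1_4 (s0_5 p199_19))),
   s3_7 (s2_6 (s1_4 (s0_5 p200_19))),
   tr p201_13,
   tr p202_13],
  [s3_6 (s2_7 (s1_5 (s0_4 p199_19))),
   s3_6 (s2_7 (s1_5 (s0_4 p200_19))),
   tr p203_13,
   tr p204_13,
   tr p205_13,
   p206_13,
   p206_14,
   p206_15],
  [s3_6 (s2_7 (s1_4 (s0_5 p199_13))),
   s3_6 (s2_7 (s1_4 (s0_5 p200_13))),
   s3_6 (s2_7 (s1_5 (s0_4 p205_19))),
   p206_19,
   s3_6 (s2_7 (s1_4 (s0_5 p203_13))),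
   s3_6 (s2_7 (s1_4 (s0_5 p204_13))),
   p206_22,
   p206_23],
  [s3_6 (s2_7 (s1_4 (s0_5 p201_13))),
   s3_6 (s2_7 (s1_4 (s0_5 p202_13))),
   s6_7 (s4_5 (s2_3 (s0_1 p206_22))),
   s6_7 (s4_5 (s2_3 (s0_1 p206_23))),
   s6_7 (s4_5 (s2_3 (s0_1 p206_14))),
   s6_7 (s4_5 (s2_3 (s0_1 p206_15))),
   tr p209_13,
   tr p210_13],
  [tr p211_13,
   tr p212_13,
   p206_34,
   p206_35,
   p206_36,
   p206_37,
   tr p215_13,
   tr p216_13],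
  [s6_7 (s4_5 (s2_3 (s0_1 p206_36))),
   s6_7 (s4_5 (s2_3 (s0_1 p206_37))),
   tr p217_13,
   tr p218_13,
   p206_44,
   p206_45,
   p206_46,
   p206_47],
  [s6_7 (s4_5 (s2_3 (s0_1 p206_34))),
   s6_7 (s4_5 (s2_3 (s0_1 p206_35))),
   p206_50,
   p206_51,
   s3_6 (s2_7 (s1_4 (s0_5 p217_13))),
   s3_6 (s2_7 (s1_4 (s0_5 p218_13))),
   p206_54,
   p206_55],
  [s3_6 (s2_7 (s1_4 (s0_5 p215_13))),
   s3_6 (s2_7 (s1_4 (s0_5 p216_13))),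
   s6_7 (s4_5 (s2_3 (s0_1 p206_54))),
   s6_7 (s4_5 (s2_3 (s0_1 p206_55))),
   s6_7 (s4_5 (s2_3 (s0_1 p206_46))),
   s6_7 (s4_5 (s2_3 (s0_1 p206_47))),
   tr p223_13,
   tr p224_13]]

theorem k206 : eqNN c206 (slO 64 (D.chG 28 13) 8) = true := by decide +kernel

/-- The slices of the chunk 207. -/
noncomputable def c207 : List (List ℕ) := [
  [tr p197_14,
   tr p198_14,
   tr p199_14,
   tr p200_14,
   s3_7 (s2_6 (s1_4 (s0_5 p199_22))),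
   s3_7 (s2_6 (s1_4 (s0_5 p200_22))),
   tr p201_14,
   tr p202_14],
  [s3_6 (s2_7 (s1_5 (s0_4 p199_26))),
   s3_6 (s2_7 (s1_5 (s0_4 p200_26))),
   tr p203_14,
   tr p204_14,
   tr p205_14,
   tr p206_14,
   p207_14,
   p207_15],
  [s3_6 (s2_7 (s1_4 (s0_5 p199_28))),
   s3_6 (s2_7 (s1_4 (s0_5 p200_28))),
   s3_7 (s2_6 (s1_4 (s0_5 p205_22))),
   s3_7 (s2_6 (s1_4 (s0_5 p206_22))),
   s3_7 (s2_6 (s1_4 (s0_5 p203_22))),
   s3_7 (s2_6 (s1_4 (s0_5 p204_22))),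
   p207_22,
   p207_23],
  [s3_6 (s2_7 (s1_5 (s0_4 p201_26))),
   s3_6 (s2_7 (s1_5 (s0_4 p202_26))),
   p207_26,
   p207_27,
   p207_28,
   p207_29,
   tr p209_14,
   tr p210_14],
  [tr p211_14,
   tr p212_14,
   p207_34,
   p207_35,
   p207_36,
   p207_37,
   tr p215_14,
   tr p216_14],
  [p207_40,
   p207_41,
   tr p217_14,
   tr p218_14,
   p207_44,
   p207_45,
   p207_46,
   p207_47],
  [p207_48,
   p207_49,
   p207_50,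
   p207_51,
   s3_7 (s2_6 (s1_4 (s0_5 p217_22))),
   s3_7 (s2_6 (s1_4 (s0_5 p218_22))),
   p207_54,
   p207_55],
  [s3_6 (s2_7 (s1_5 (s0_4 p215_26))),
   s3_6 (s2_7 (s1_5 (s0_4 p216_26))),
   p207_58,
   p207_59,
   p207_60,
   p207_61,
   tr p223_14,
   tr p224_14]]

theorem k207 : eqNN c207 (slO 64 (D.chG 28 14) 8) = true := by decide +kernel

end Pool.Agent.Lib.MP_afdd4d_co.K10.E6
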