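import Pool.Agent.Lib.MP_afdd4d_co.K10.E6.Dat
import Pool.Agent.Lib.MP_afdd4d_co.K10.E6.Mk
import Pool.Agent.Lib.MP_afdd4d_co.K8.F6Bl5
import Pool.Agent.Lib.MP_afdd4d_co.K10.E6.P0
import Pool.Agent.Lib.MP_afdd4d_co.K10.E6.P1
import Pool.Agent.Lib.MP_afdd4d_co.K10.E6.P2
import Pool.Agent.Lib.MP_afdd4d_co.K10.E6.P3
import Pool.Agent.Lib.MP_afdd4d_co.K10.E6.P4
import Pool.Agent.Lib.MP_afdd4d_co.K10.E6.P5
import Pool.Agent.Lib.MP_afdd4d_co.K10.E6.P6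
import Pool.Agent.Lib.MP_afdd4d_co.K10.E6.P7
import Pool.Agent.Lib.MP_afdd4d_co.K10.E6.P8
import Pool.Agent.Lib.MP_afdd4d_co.K10.E6.P9
import Pool.Agent.Lib.MP_afdd4d_co.K10.E6.P10
import Pool.Agent.Lib.MP_afdd4d_co.K10.E6.P11
import Pool.Agent.Lib.MP_afdd4d_co.K10.E6.P12
import Pool.Agent.Lib.MP_afdd4d_co.K10.E6.P13
import Pool.Agent.Lib.MP_afdd4d_co.K10.E6.P14
import Pool.Agent.Lib.MP_afdd4d_co.K10.E6.P15
import Pool.Agent.Lib.MP_afdd4d_co.K10.E6.P16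
import Pool.Agent.Lib.MP_afdd4d_co.K10.E6.P17
import Pool.Agent.Lib.MP_afdd4d_co.K10.E6.P18
import Pool.Agent.Lib.MP_afdd4d_co.K10.E6.P19
import Pool.Agent.Lib.MP_afdd4d_co.K10.E6.P20
import Pool.Agent.Lib.MP_afdd4d_co.K10.E6.P21
import Pool.Agent.Lib.MP_afdd4d_co.K10.E6.P22
import Pool.Agent.Lib.MP_afdd4d_co.K10.E6.P23
import Pool.Agent.Lib.MP_afdd4d_co.K10.E6.P24
import Pool.Agent.Lib.MP_afdd4d_co.K10.E6.P25
import Pool.Agent.Lib.MP_afdd4d_co.K10.E6.P26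
import Pool.Agent.Lib.MP_afdd4d_co.K10.E6.P27
import Pool.Agent.Lib.MP_afdd4d_co.K10.E6.P28
import Pool.Agent.Lib.MP_afdd4d_co.K10.E6.P29
import Pool.Agent.Lib.MP_afdd4d_co.K10.E6.P30
import Pool.Agent.Lib.MP_afdd4d_co.K10.E6.P31
import Pool.Agent.Lib.MP_afdd4d_co.K10.E6.P32

/-!
# Tables
-/

namespace Pool.Agent.Lib.MP_afdd4d_co.K10.E6

open K8

set_option maxRecDepth 100000
set_option exponentiation.threshold 10000000

/-- The slices of the chunk 208. -/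
noncomputable def c208 : List (List ℕ) := [
  [tr p197_15,
   tr p198_15,
   tr p199_15,
   tr p200_15,
   s3_7 (s2_6 (s1_4 (s0_5 p199_23))),
   s3_7 (s2_6 (s1_4 (s0_5 p200_23))),
   tr p201_15,
   tr p202_15],
  [s3_6 (s2_7 (s1_5 (s0_4 p199_27))),
   s3_6 (s2_7 (s1_5 (s0_4 p200_27))),
   tr p203_15,
   tr p204_15,
   tr p205_15,
   tr p206_15,
   tr p207_15,
   p208_15],
  [s3_6 (s2_7 (s1_4 (s0_5 p199_29))),
   s3_6 (s2_7 (s1_4 (s0_5 p200_29))),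
   s3_7 (s2_6 (s1_4 (s0_5 p205_23))),
   s3_7 (s2_6 (s1_4 (s0_5 p206_23))),
   s3_7 (s2_6 (s1_4 (s0_5 p203_23))),
   s3_7 (s2_6 (s1_4 (s0_5 p204_23))),
   s3_7 (s2_6 (s1_4 (s0_5 p207_23))),
   p208_23],
  [s3_6 (s2_7 (s1_5 (s0_4 p201_27))),
   s3_6 (s2_7 (s1_5 (s0_4 p202_27))),
   s3_6 (s2_7 (s1_5 (s0_4 p207_27))),
   p208_27,
   s3_6 (s2_7 (s1_4 (s0_5 p207_29))),
   p208_29,
   tr p209_15,
   tr p210_15],
  [tr p211_15,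
   tr p212_15,
   p208_34,
   p208_35,
   p208_36,
   p208_37,
   tr p215_15,
   tr p216_15],
  [p208_40,
   p208_41,
   tr p217_15,
   tr p218_15,
   p208_44,
   p208_45,
   p208_46,
   p208_47],
  [p208_48,
   p208_49,
   p208_50,
   p208_51,
   s3_7 (s2_6 (s1_4 (s0_5 p217_23))),
   s3_7 (s2_6 (s1_4 (s0_5 p218_23))),
   p208_54,
   p208_55],
  [s3_6 (s2_7 (s1_5 (s0_4 p215_27))),
   s3_6 (s2_7 (s1_5 (s0_4 p216_27))),
   p208_58,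
   p208_59,
   p208_60,
   p208_61,
   tr p223_15,
   tr p224_15]]

theorem k208 : eqNN c208 (slO 64 (D.chG 28 15) 8) = true := by decide +kernel

/-- The slices of the chunk 209. -/
noncomputable def c209 : List (List ℕ) := [
  [tr p197_30,
   tr p198_30,
   p209_2,
   p209_3,
   s4_5 (s0_1 p209_2),
   s4_5 (s0_1 p209_3),
   p209_6,
   p209_7],
  [s6_7 (s2_3 p209_2),
   s6_7 (s2_3 p209_3),
   p209_10,
   p209_11,
   p209_12,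
   p209_13,
   p209_14,
   p209_15],
  [s6_7 (s4_5 (s2_3 (s0_1 p209_2))),
   s6_7 (s4_5 (s2_3 (s0_1 p209_3))),
   s6_7 (s2_3 p209_12),
   s6_7 (s2_3 p209_13),
   s4_5 (s0_1 p209_10),
   s4_5 (s0_1 p209_11),
   s4_5 (s0_1 p209_14),
   s4_5 (s0_1 p209_15)],
  [s6_7 (s2_3 p209_6),
   s6_7 (s2_3 p209_7),
   s6_7 (s2_3 p209_14),
   s6_7 (s2_3 p209_15),
   s6_7 (s4_5 (s2_3 (s0_1 p209_14))),
   s6_7 (s4_5 (s2_3 (s0_1 p209_15))),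
   p209_30,
   p209_31],
  [p209_32,
   p209_33,
   p209_34,
   p209_35,
   s4_5 (s0_1 p209_34),
   s4_5 (s0_1 p209_35),
   p209_38,
   p209_39],
  [s6_7 (s2_3 p209_34),
   s6_7 (s2_3 p209_35),
   p209_42,
   p209_43,
   p209_44,
   p209_45,
   p209_46,
   p209_47],
  [s6_7 (s4_5 (s2_3 (s0_1 p209_34))),
   s6_7 (s4_5 (s2_3 (s0_1 p209_35))),
   s6_7 (s2_3 p209_44),
   s6_7 (s2_3 p209_45),
   s4_5 (s0_1 p209_42),
   s4_5 (s0_1 p209_43),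
   s4_5 (s0_1 p209_46),
   s4_5 (s0_1 p209_47)],
  [s6_7 (s2_3 p209_38),
   s6_7 (s2_3 p209_39),
   s6_7 (s2_3 p209_46),
   s6_7 (s2_3 p209_47),
   s6_7 (s4_5 (s2_3 (s0_1 p209_46))),
   s6_7 (s4_5 (s2_3 (s0_1 p209_47))),
   p209_62,
   p209_63]]

theorem k209 : eqNN c209 (slO 64 (D.chG 28 30) 8) = true := by decide +kernel

/-- The slices of the chunk 210. -/
noncomputable def c210 : List (List ℕ) := [
  [tr p197_31,
   tr p198_31,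
   p210_2,
   p210_3,
   s4_5 (s0_1 p210_2),
   s4_5 (s0_1 p210_3),
   p210_6,
   p210_7],
  [s6_7 (s2_3 p210_2),
   s6_7 (s2_3 p210_3),
   p210_10,
   p210_11,
   p210_12,
   p210_13,
   p210_14,
   p210_15],
  [s6_7 (s4_5 (s2_3 (s0_1 p210_2))),
   s6_7 (s4_5 (s2_3 (s0_1 p210_3))),
   s6_7 (s2_3 p210_12),
   s6_7 (s2_3 p210_13),
   s4_5 (s0_1 p210_10),
   s4_5 (s0_1 p210_11),
   s4_5 (s0_1 p210_14),
   s4_5 (s0_1 p210_15)],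
  [s6_7 (s2_3 p210_6),
   s6_7 (s2_3 p210_7),
   s6_7 (s2_3 p210_14),
   s6_7 (s2_3 p210_15),
   s6_7 (s4_5 (s2_3 (s0_1 p210_14))),
   s6_7 (s4_5 (s2_3 (s0_1 p210_15))),
   tr p209_31,
   p210_31],
  [p210_32,
   p210_33,
   p210_34,
   p210_35,
   s4_5 (s0_1 p210_34),
   s4_5 (s0_1 p210_35),
   p210_38,
   p210_39],
  [s6_7 (s2_3 p210_34),
   s6_7 (s2_3 p210_35),
   p210_42,
   p210_43,
   p210_44,
   p210_45,
   p210_46,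
   p210_47],
  [s6_7 (s4_5 (s2_3 (s0_1 p210_34))),
   s6_7 (s4_5 (s2_3 (s0_1 p210_35))),
   s6_7 (s2_3 p210_44),
   s6_7 (s2_3 p210_45),
   s4_5 (s0_1 p210_42),
   s4_5 (s0_1 p210_43),
   s4_5 (s0_1 p210_46),
   s4_5 (s0_1 p210_47)],
  [s6_7 (s2_3 p210_38),
   s6_7 (s2_3 p210_39),
   s6_7 (s2_3 p210_46),
   s6_7 (s2_3 p210_47),
   s6_7 (s4_5 (s2_3 (s0_1 p210_46))),
   s6_7 (s4_5 (s2_3 (s0_1 p210_47))),
   p210_62,
   p210_63]]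

theorem k210 : eqNN c210 (slO 64 (D.chG 28 31) 8) = true := by decide +kernel

/-- The slices of the chunk 211. -/
noncomputable def c211 : List (List ℕ) := [
  [tr p197_32,
   tr p198_32,
   p211_2,
   p211_3,
   s4_5 (s0_1 p211_2),
   s4_5 (s0_1 p211_3),
   p211_6,
   p211_7],
  [s6_7 (s2_3 p211_2),
   s6_7 (s2_3 p211_3),
   p211_10,
   p211_11,
   p211_12,
   p211_13,
   p211_14,
   p211_15],
  [s6_7 (s4_5 (s2_3 (s0_1 p211_2))),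
   s6_7 (s4_5 (s2_3 (s0_1 p211_3))),
   s6_7 (s2_3 p211_12),
   s6_7 (s2_3 p211_13),
   s4_5 (s0_1 p211_10),
   s4_5 (s0_1 p211_11),
   s4_5 (s0_1 p211_14),
   s4_5 (s0_1 p211_15)],
  [s6_7 (s2_3 p211_6),
   s6_7 (s2_3 p211_7),
   s6_7 (s2_3 p211_14),
   s6_7 (s2_3 p211_15),
   s6_7 (s4_5 (s2_3 (s0_1 p211_14))),
   s6_7 (s4_5 (s2_3 (s0_1 p211_15))),
   tr p209_32,
   tr p210_32],
  [p211_32,
   p211_33,
   p211_34,
   p211_35,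
   s4_5 (s0_1 p211_34),
   s4_5 (s0_1 p211_35),
   p211_38,
   p211_39],
  [s6_7 (s2_3 p211_34),
   s6_7 (s2_3 p211_35),
   p211_42,
   p211_43,
   p211_44,
   p211_45,
   p211_46,
   p211_47],
  [s6_7 (s4_5 (s2_3 (s0_1 p211_34))),
   s6_7 (s4_5 (s2_3 (s0_1 p211_35))),
   s6_7 (s2_3 p211_44),
   s6_7 (s2_3 p211_45),
   s4_5 (s0_1 p211_42),
   s4_5 (s0_1 p211_43),
   s4_5 (s0_1 p211_46),
   s4_5 (s0_1 p211_47)],
  [s6_7 (s2_3 p211_38),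
   s6_7 (s2_3 p211_39),
   s6_7 (s2_3 p211_46),
   s6_7 (s2_3 p211_47),
   s6_7 (s4_5 (s2_3 (s0_1 p211_46))),
   s6_7 (s4_5 (s2_3 (s0_1 p211_47))),
   p211_62,
   p211_63]]

theorem k211 : eqNN c211 (slO 64 (D.chG 28 32) 8) = true := by decide +kernel

end Pool.Agent.Lib.MP_afdd4d_co.K10.E6
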