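import Pool.Agent.Lib.MP_afdd4d_co.K10.E6.Dat
import Pool.Agent.Lib.MP_afdd4d_co.K10.E6.Mk
import Pool.Agent.Lib.MP_afdd4d_co.K8.F6Bl5
import Pool.Agent.Lib.MP_afdd4d_co.K10.E6.P0
import Pool.Agent.Lib.MP_afdd4d_co.K10.E6.P1
import Pool.Agent.Lib.MP_afdd4d_co.K10.E6.P2
import Pool.Agent.Lib.MP_afdd4d_co.K10.E6.P3
import Pool.Agent.Lib.MP_afdd4d_co.K10.E6.P4
import Pool.Agent.Lib.MP_afdd4d_co.K10.E6.P5
import Pool.Agent.Lib.MP_afdd4d_co.K10.E6.P6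
import Pool.Agent.Lib.MP_afdd4d_co.K10.E6.P7
import Pool.Agent.Lib.MP_afdd4d_co.K10.E6.P8
import Pool.Agent.Lib.MP_afdd4d_co.K10.E6.P9
import Pool.Agent.Lib.MP_afdd4d_co.K10.E6.P10
import Pool.Agent.Lib.MP_afdd4d_co.K10.E6.P11
import Pool.Agent.Lib.MP_afdd4d_co.K10.E6.P12
import Pool.Agent.Lib.MP_afdd4d_co.K10.E6.P13
import Pool.Agent.Lib.MP_afdd4d_co.K10.E6.P14
import Pool.Agent.Lib.MP_afdd4d_co.K10.E6.P15
import Pool.Agent.Lib.MP_afdd4d_co.K10.E6.P16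
import Pool.Agent.Lib.MP_afdd4d_co.K10.E6.P17
import Pool.Agent.Lib.MP_afdd4d_co.K10.E6.P18
import Pool.Agent.Lib.MP_afdd4d_co.K10.E6.P19
import Pool.Agent.Lib.MP_afdd4d_co.K10.E6.P20
import Pool.Agent.Lib.MP_afdd4d_co.K10.E6.P21
import Pool.Agent.Lib.MP_afdd4d_co.K10.E6.P22
import Pool.Agent.Lib.MP_afdd4d_co.K10.E6.P23
import Pool.Agent.Lib.MP_afdd4d_co.K10.E6.P24
import Pool.Agent.Lib.MP_afdd4d_co.K10.E6.P25
import Pool.Agent.Lib.MP_afdd4d_co.K10.E6.P26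
import Pool.Agent.Lib.MP_afdd4d_co.K10.E6.P27
import Pool.Agent.Lib.MP_afdd4d_co.K10.E6.P28
import Pool.Agent.Lib.MP_afdd4d_co.K10.E6.P29
import Pool.Agent.Lib.MP_afdd4d_co.K10.E6.P30
import Pool.Agent.Lib.MP_afdd4d_co.K10.E6.P31
import Pool.Agent.Lib.MP_afdd4d_co.K10.E6.P32

/-!
# Tables
-/

namespace Pool.Agent.Lib.MP_afdd4d_co.K10.E6

open K8

set_option maxRecDepth 100000
set_option exponentiation.threshold 10000000

/-- The slices of the chunk 212. -/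
noncomputable def c212 : List (List ℕ) := [
  [tr p197_33,
   tr p198_33,
   p212_2,
   p212_3,
   s4_5 (s0_1 p212_2),
   s4_5 (s0_1 p212_3),
   p212_6,
   p212_7],
  [s6_7 (s2_3 p212_2),
   s6_7 (s2_3 p212_3),
   p212_10,
   p212_11,
   p212_12,
   p212_13,
   p212_14,
   p212_15],
  [s6_7 (s4_5 (s2_3 (s0_1 p212_2))),
   s6_7 (s4_5 (s2_3 (s0_1 p212_3))),
   s6_7 (s2_3 p212_12),
   s6_7 (s2_3 p212_13),
   s4_5 (s0_1 p212_10),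
   s4_5 (s0_1 p212_11),
   s4_5 (s0_1 p212_14),
   s4_5 (s0_1 p212_15)],
  [s6_7 (s2_3 p212_6),
   s6_7 (s2_3 p212_7),
   s6_7 (s2_3 p212_14),
   s6_7 (s2_3 p212_15),
   s6_7 (s4_5 (s2_3 (s0_1 p212_14))),
   s6_7 (s4_5 (s2_3 (s0_1 p212_15))),
   tr p209_33,
   tr p210_33],
  [tr p211_33,
   p212_33,
   p212_34,
   p212_35,
   s4_5 (s0_1 p212_34),
   s4_5 (s0_1 p212_35),
   p212_38,
   p212_39],
  [s6_7 (s2_3 p212_34),
   s6_7 (s2_3 p212_35),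
   p212_42,
   p212_43,
   p212_44,
   p212_45,
   p212_46,
   p212_47],
  [s6_7 (s4_5 (s2_3 (s0_1 p212_34))),
   s6_7 (s4_5 (s2_3 (s0_1 p212_35))),
   s6_7 (s2_3 p212_44),
   s6_7 (s2_3 p212_45),
   s4_5 (s0_1 p212_42),
   s4_5 (s0_1 p212_43),
   s4_5 (s0_1 p212_46),
   s4_5 (s0_1 p212_47)],
  [s6_7 (s2_3 p212_38),
   s6_7 (s2_3 p212_39),
   s6_7 (s2_3 p212_46),
   s6_7 (s2_3 p212_47),
   s6_7 (s4_5 (s2_3 (s0_1 p212_46))),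
   s6_7 (s4_5 (s2_3 (s0_1 p212_47))),
   p212_62,
   p212_63]]

theorem k212 : eqNN c212 (slO 64 (D.chG 28 33) 8) = true := by decide +kernel

/-- The slices of the chunk 213. -/
noncomputable def c213 : List (List ℕ) := [
  [tr p197_34,
   tr p198_34,
   tr p199_34,
   tr p200_34,
   s3_7 (s2_6 (s1_4 (s0_5 p199_36))),
   s3_7 (s2_6 (s1_4 (s0_5 p200_36))),
   tr p201_34,
   tr p202_34],
  [s3_6 (s2_7 (s1_5 (s0_4 p199_40))),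
   s3_6 (s2_7 (s1_5 (s0_4 p200_40))),
   tr p203_34,
   tr p204_34,
   tr p205_34,
   tr p206_34,
   tr p207_34,
   tr p208_34],
  [s3_6 (s2_7 (s1_4 (s0_5 p199_48))),
   s3_6 (s2_7 (s1_4 (s0_5 p200_48))),
   s3_7 (s2_6 (s1_4 (s0_5 p205_36))),
   s3_7 (s2_6 (s1_4 (s0_5 p206_36))),
   s3_7 (s2_6 (s1_4 (s0_5 p203_36))),
   s3_7 (s2_6 (s1_4 (s0_5 p204_36))),
   s3_7 (s2_6 (s1_4 (s0_5 p207_36))),
   s3_7 (s2_6 (s1_4 (s0_5 p208_36)))],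
  [s3_6 (s2_7 (s1_5 (s0_4 p201_40))),
   s3_6 (s2_7 (s1_5 (s0_4 p202_40))),
   s3_6 (s2_7 (s1_5 (s0_4 p207_40))),
   s3_6 (s2_7 (s1_5 (s0_4 p208_40))),
   s3_6 (s2_7 (s1_4 (s0_5 p207_48))),
   s3_6 (s2_7 (s1_4 (s0_5 p208_48))),
   tr p209_34,
   tr p210_34],
  [tr p211_34,
   tr p212_34,
   p213_34,
   p213_35,
   p213_36,
   p213_37,
   tr p215_34,
   tr p216_34],
  [p213_40,
   p213_41,
   tr p217_34,
   tr p218_34,
   p213_44,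
   p213_45,
   p213_46,
   p213_47],
  [p213_48,
   p213_49,
   p213_50,
   p213_51,
   s3_7 (s2_6 (s1_4 (s0_5 p217_36))),
   s3_7 (s2_6 (s1_4 (s0_5 p218_36))),
   p213_54,
   p213_55],
  [s3_6 (s2_7 (s1_5 (s0_4 p215_40))),
   s3_6 (s2_7 (s1_5 (s0_4 p216_40))),
   p213_58,
   p213_59,
   p213_60,
   p213_61,
   tr p223_34,
   tr p224_34]]

theorem k213 : eqNN c213 (slO 64 (D.chG 28 34) 8) = true := by decide +kernel

/-- The slices of the chunk 214. -/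
noncomputable def c214 : List (List ℕ) := [
  [tr p197_35,
   tr p198_35,
   tr p199_35,
   tr p200_35,
   s3_7 (s2_6 (s1_4 (s0_5 p199_37))),
   s3_7 (s2_6 (s1_4 (s0_5 p200_37))),
   tr p201_35,
   tr p202_35],
  [s3_6 (s2_7 (s1_5 (s0_4 p199_41))),
   s3_6 (s2_7 (s1_5 (s0_4 p200_41))),
   tr p203_35,
   tr p204_35,
   tr p205_35,
   tr p206_35,
   tr p207_35,
   tr p208_35],
  [s3_6 (s2_7 (s1_4 (s0_5 p199_49))),
   s3_6 (s2_7 (s1_4 (s0_5 p200_49))),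
   s3_7 (s2_6 (s1_4 (s0_5 p205_37))),
   s3_7 (s2_6 (s1_4 (s0_5 p206_37))),
   s3_7 (s2_6 (s1_4 (s0_5 p203_37))),
   s3_7 (s2_6 (s1_4 (s0_5 p204_37))),
   s3_7 (s2_6 (s1_4 (s0_5 p207_37))),
   s3_7 (s2_6 (s1_4 (s0_5 p208_37)))],
  [s3_6 (s2_7 (s1_5 (s0_4 p201_41))),
   s3_6 (s2_7 (s1_5 (s0_4 p202_41))),
   s3_6 (s2_7 (s1_5 (s0_4 p207_41))),
   s3_6 (s2_7 (s1_5 (s0_4 p208_41))),
   s3_6 (s2_7 (s1_4 (s0_5 p207_49))),
   s3_6 (s2_7 (s1_4 (s0_5 p208_49))),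
   tr p209_35,
   tr p210_35],
  [tr p211_35,
   tr p212_35,
   tr p213_35,
   p214_35,
   s3_7 (s2_6 (s1_4 (s0_5 p213_37))),
   p214_37,
   tr p215_35,
   tr p216_35],
  [s3_6 (s2_7 (s1_5 (s0_4 p213_41))),
   p214_41,
   tr p217_35,
   tr p218_35,
   p214_44,
   p214_45,
   p214_46,
   p214_47],
  [s3_6 (s2_7 (s1_4 (s0_5 p213_49))),
   p214_49,
   p214_50,
   p214_51,
   s3_7 (s2_6 (s1_4 (s0_5 p217_37))),
   s3_7 (s2_6 (s1_4 (s0_5 p218_37))),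
   p214_54,
   p214_55],
  [s3_6 (s2_7 (s1_5 (s0_4 p215_41))),
   s3_6 (s2_7 (s1_5 (s0_4 p216_41))),
   p214_58,
   p214_59,
   p214_60,
   p214_61,
   tr p223_35,
   tr p224_35]]

theorem k214 : eqNN c214 (slO 64 (D.chG 28 35) 8) = true := by decide +kernel

/-- The slices of the chunk 215. -/
noncomputable def c215 : List (List ℕ) := [
  [tr p197_38,
   tr p198_38,
   p215_2,
   p215_3,
   s4_5 (s0_1 p215_2),
   s4_5 (s0_1 p215_3),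
   tr p201_38,
   tr p202_38],
  [p215_8,
   p215_9,
   tr p203_38,
   tr p204_38,
   p215_12,
   p215_13,
   p215_14,
   p215_15],
  [s4_5 (s0_1 p215_8),
   s4_5 (s0_1 p215_9),
   s4_5 (s0_1 p215_12),
   s4_5 (s0_1 p215_13),
   s3_7 (s2_6 (s1_4 (s0_5 p203_38))),
   s3_7 (s2_6 (s1_4 (s0_5 p204_38))),
   s4_5 (s0_1 p215_14),
   s4_5 (s0_1 p215_15)],
  [s3_6 (s2_7 (s1_5 (s0_4 p201_56))),
   s3_6 (s2_7 (s1_5 (s0_4 p202_56))),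
   p215_26,
   p215_27,
   s4_5 (s0_1 p215_26),
   s4_5 (s0_1 p215_27),
   tr p209_38,
   tr p210_38],
  [tr p211_38,
   tr p212_38,
   p215_34,
   p215_35,
   s4_5 (s0_1 p215_34),
   s4_5 (s0_1 p215_35),
   p215_38,
   p215_39],
  [p215_40,
   p215_41,
   p215_42,
   p215_43,
   p215_44,
   p215_45,
   p215_46,
   p215_47],
  [s4_5 (s0_1 p215_40),
   s4_5 (s0_1 p215_41),
   s4_5 (s0_1 p215_44),
   s4_5 (s0_1 p215_45),
   s4_5 (s0_1 p215_42),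
   s4_5 (s0_1 p215_43),
   s4_5 (s0_1 p215_46),
   s4_5 (s0_1 p215_47)],
  [p215_56,
   p215_57,
   p215_58,
   p215_59,
   s4_5 (s0_1 p215_58),
   s4_5 (s0_1 p215_59),
   tr p223_38,
   tr p224_38]]

theorem k215 : eqNN c215 (slO 64 (D.chG 28 38) 8) = true := by decide +kernel

end Pool.Agent.Lib.MP_afdd4d_co.K10.E6
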