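import Pool.Agent.Lib.MP_afdd4d_co.K10.E6.Dat
import Pool.Agent.Lib.MP_afdd4d_co.K10.E6.Mk
import Pool.Agent.Lib.MP_afdd4d_co.K8.F6Bl5
import Pool.Agent.Lib.MP_afdd4d_co.K10.E6.P0
import Pool.Agent.Lib.MP_afdd4d_co.K10.E6.P1
import Pool.Agent.Lib.MP_afdd4d_co.K10.E6.P2
import Pool.Agent.Lib.MP_afdd4d_co.K10.E6.P3
import Pool.Agent.Lib.MP_afdd4d_co.K10.E6.P4
import Pool.Agent.Lib.MP_afdd4d_co.K10.E6.P5
import Pool.Agent.Lib.MP_afdd4d_co.K10.E6.P6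
import Pool.Agent.Lib.MP_afdd4d_co.K10.E6.P7
import Pool.Agent.Lib.MP_afdd4d_co.K10.E6.P8
import Pool.Agent.Lib.MP_afdd4d_co.K10.E6.P9
import Pool.Agent.Lib.MP_afdd4d_co.K10.E6.P10
import Pool.Agent.Lib.MP_afdd4d_co.K10.E6.P11
import Pool.Agent.Lib.MP_afdd4d_co.K10.E6.P12
import Pool.Agent.Lib.MP_afdd4d_co.K10.E6.P13
import Pool.Agent.Lib.MP_afdd4d_co.K10.E6.P14
import Pool.Agent.Lib.MP_afdd4d_co.K10.E6.P15
import Pool.Agent.Lib.MP_afdd4d_co.K10.E6.P16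
import Pool.Agent.Lib.MP_afdd4d_co.K10.E6.P17
import Pool.Agent.Lib.MP_afdd4d_co.K10.E6.P18
import Pool.Agent.Lib.MP_afdd4d_co.K10.E6.P19
import Pool.Agent.Lib.MP_afdd4d_co.K10.E6.P20
import Pool.Agent.Lib.MP_afdd4d_co.K10.E6.P21
import Pool.Agent.Lib.MP_afdd4d_co.K10.E6.P22
import Pool.Agent.Lib.MP_afdd4d_co.K10.E6.P23
import Pool.Agent.Lib.MP_afdd4d_co.K10.E6.P24
import Pool.Agent.Lib.MP_afdd4d_co.K10.E6.P25
import Pool.Agent.Lib.MP_afdd4d_co.K10.E6.P26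
import Pool.Agent.Lib.MP_afdd4d_co.K10.E6.P27
import Pool.Agent.Lib.MP_afdd4d_co.K10.E6.P28
import Pool.Agent.Lib.MP_afdd4d_co.K10.E6.P29
import Pool.Agent.Lib.MP_afdd4d_co.K10.E6.P30
import Pool.Agent.Lib.MP_afdd4d_co.K10.E6.P31
import Pool.Agent.Lib.MP_afdd4d_co.K10.E6.P32

/-!
# Tables
-/

namespace Pool.Agent.Lib.MP_afdd4d_co.K10.E6

open K8

set_option maxRecDepth 100000
set_option exponentiation.threshold 10000000

/-- The slices of the chunk 216. -/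
noncomputable def c216 : List (List ℕ) := [
  [tr p197_39,
   tr p198_39,
   p216_2,
   p216_3,
   s4_5 (s0_1 p216_2),
   s4_5 (s0_1 p216_3),
   tr p201_39,
   tr p202_39],
  [p216_8,
   p216_9,
   tr p203_39,
   tr p204_39,
   p216_12,
   p216_13,
   p216_14,
   p216_15],
  [s4_5 (s0_1 p216_8),
   s4_5 (s0_1 p216_9),
   s4_5 (s0_1 p216_12),
   s4_5 (s0_1 p216_13),
   s3_7 (s2_6 (s1_4 (s0_5 p203_39))),
   s3_7 (s2_6 (s1_4 (s0_5 p204_39))),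
   s4_5 (s0_1 p216_14),
   s4_5 (s0_1 p216_15)],
  [s3_6 (s2_7 (s1_5 (s0_4 p201_57))),
   s3_6 (s2_7 (s1_5 (s0_4 p202_57))),
   p216_26,
   p216_27,
   s4_5 (s0_1 p216_26),
   s4_5 (s0_1 p216_27),
   tr p209_39,
   tr p210_39],
  [tr p211_39,
   tr p212_39,
   p216_34,
   p216_35,
   s4_5 (s0_1 p216_34),
   s4_5 (s0_1 p216_35),
   tr p215_39,
   p216_39],
  [p216_40,
   p216_41,
   p216_42,
   p216_43,
   p216_44,
   p216_45,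
   p216_46,
   p216_47],
  [s4_5 (s0_1 p216_40),
   s4_5 (s0_1 p216_41),
   s4_5 (s0_1 p216_44),
   s4_5 (s0_1 p216_45),
   s4_5 (s0_1 p216_42),
   s4_5 (s0_1 p216_43),
   s4_5 (s0_1 p216_46),
   s4_5 (s0_1 p216_47)],
  [s3_6 (s2_7 (s1_5 (s0_4 p215_57))),
   p216_57,
   p216_58,
   p216_59,
   s4_5 (s0_1 p216_58),
   s4_5 (s0_1 p216_59),
   tr p223_39,
   tr p224_39]]

theorem k216 : eqNN c216 (slO 64 (D.chG 28 39) 8) = true := by decide +kernel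

/-- The slices of the chunk 217. -/
noncomputable def c217 : List (List ℕ) := [
  [tr p197_42,
   tr p198_42,
   p217_2,
   p217_3,
   p217_4,
   p217_5,
   tr p201_42,
   tr p202_42],
  [s6_7 (s2_3 p217_2),
   s6_7 (s2_3 p217_3),
   tr p203_42,
   tr p204_42,
   p217_12,
   p217_13,
   p217_14,
   p217_15],
  [s6_7 (s2_3 p217_4),
   s6_7 (s2_3 p217_5),
   s6_7 (s2_3 p217_12),
   s6_7 (s2_3 p217_13),
   s3_7 (s2_6 (s1_4 (s0_5 p203_52))),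
   s3_7 (s2_6 (s1_4 (s0_5 p204_52))),
   p217_22,
   p217_23],
  [s3_6 (s2_7 (s1_5 (s0_4 p201_42))),
   s3_6 (s2_7 (s1_5 (s0_4 p202_42))),
   s6_7 (s2_3 p217_14),
   s6_7 (s2_3 p217_15),
   s6_7 (s2_3 p217_22),
   s6_7 (s2_3 p217_23),
   tr p209_42,
   tr p210_42],
  [tr p211_42,
   tr p212_42,
   p217_34,
   p217_35,
   p217_36,
   p217_37,
   tr p215_42,
   tr p216_42],
  [s6_7 (s2_3 p217_34),
   s6_7 (s2_3 p217_35),
   p217_42,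
   p217_43,
   p217_44,
   p217_45,
   p217_46,
   p217_47],
  [s6_7 (s2_3 p217_36),
   s6_7 (s2_3 p217_37),
   s6_7 (s2_3 p217_44),
   s6_7 (s2_3 p217_45),
   p217_52,
   p217_53,
   p217_54,
   p217_55],
  [s3_6 (s2_7 (s1_5 (s0_4 p215_42))),
   s3_6 (s2_7 (s1_5 (s0_4 p216_42))),
   s6_7 (s2_3 p217_46),
   s6_7 (s2_3 p217_47),
   s6_7 (s2_3 p217_54),
   s6_7 (s2_3 p217_55),
   tr p223_42,
   tr p224_42]]

theorem k217 : eqNN c217 (slO 64 (D.chG 28 42) 8) = true := by decide +kernel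

/-- The slices of the chunk 218. -/
noncomputable def c218 : List (List ℕ) := [
  [tr p197_43,
   tr p198_43,
   p218_2,
   p218_3,
   p218_4,
   p218_5,
   tr p201_43,
   tr p202_43],
  [s6_7 (s2_3 p218_2),
   s6_7 (s2_3 p218_3),
   tr p203_43,
   tr p204_43,
   p218_12,
   p218_13,
   p218_14,
   p218_15],
  [s6_7 (s2_3 p218_4),
   s6_7 (s2_3 p218_5),
   s6_7 (s2_3 p218_12),
   s6_7 (s2_3 p218_13),
   s3_7 (s2_6 (s1_4 (s0_5 p203_53))),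
   s3_7 (s2_6 (s1_4 (s0_5 p204_53))),
   p218_22,
   p218_23],
  [s3_6 (s2_7 (s1_5 (s0_4 p201_43))),
   s3_6 (s2_7 (s1_5 (s0_4 p202_43))),
   s6_7 (s2_3 p218_14),
   s6_7 (s2_3 p218_15),
   s6_7 (s2_3 p218_22),
   s6_7 (s2_3 p218_23),
   tr p209_43,
   tr p210_43],
  [tr p211_43,
   tr p212_43,
   p218_34,
   p218_35,
   p218_36,
   p218_37,
   tr p215_43,
   tr p216_43],
  [s6_7 (s2_3 p218_34),
   s6_7 (s2_3 p218_35),
   tr p217_43,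
   p218_43,
   p218_44,
   p218_45,
   p218_46,
   p218_47],
  [s6_7 (s2_3 p218_36),
   s6_7 (s2_3 p218_37),
   s6_7 (s2_3 p218_44),
   s6_7 (s2_3 p218_45),
   s3_7 (s2_6 (s1_4 (s0_5 p217_53))),
   p218_53,
   p218_54,
   p218_55],
  [s3_6 (s2_7 (s1_5 (s0_4 p215_43))),
   s3_6 (s2_7 (s1_5 (s0_4 p216_43))),
   s6_7 (s2_3 p218_46),
   s6_7 (s2_3 p218_47),
   s6_7 (s2_3 p218_54),
   s6_7 (s2_3 p218_55),
   tr p223_43,
   tr p224_43]]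

theorem k218 : eqNN c218 (slO 64 (D.chG 28 43) 8) = true := by decide +kernel

/-- The slices of the chunk 219. -/
noncomputable def c219 : List (List ℕ) := [
  [tr p197_44,
   tr p198_44,
   tr p199_44,
   tr p200_44,
   s3_7 (s2_6 (s1_4 (s0_5 p199_50))),
   s3_7 (s2_6 (s1_4 (s0_5 p200_50))),
   tr p201_44,
   tr p202_44],
  [s3_6 (s2_7 (s1_5 (s0_4 p199_50))),
   s3_6 (s2_7 (s1_5 (s0_4 p200_50))),
   tr p203_44,
   tr p204_44,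
   tr p205_44,
   tr p206_44,
   tr p207_44,
   tr p208_44],
  [s3_6 (s2_7 (s1_4 (s0_5 p199_44))),
   s3_6 (s2_7 (s1_4 (s0_5 p200_44))),
   s3_6 (s2_7 (s1_5 (s0_4 p205_50))),
   s3_6 (s2_7 (s1_5 (s0_4 p206_50))),
   s3_6 (s2_7 (s1_4 (s0_5 p203_44))),
   s3_6 (s2_7 (s1_4 (s0_5 p204_44))),
   s3_7 (s2_6 (s1_4 (s0_5 p207_50))),
   s3_7 (s2_6 (s1_4 (s0_5 p208_50)))],
  [s3_6 (s2_7 (s1_4 (s0_5 p201_44))),
   s3_6 (s2_7 (s1_4 (s0_5 p202_44))),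
   s3_6 (s2_7 (s1_5 (s0_4 p207_50))),
   s3_6 (s2_7 (s1_5 (s0_4 p208_50))),
   s3_6 (s2_7 (s1_4 (s0_5 p207_44))),
   s3_6 (s2_7 (s1_4 (s0_5 p208_44))),
   tr p209_44,
   tr p210_44],
  [tr p211_44,
   tr p212_44,
   tr p213_44,
   tr p214_44,
   s3_7 (s2_6 (s1_4 (s0_5 p213_50))),
   s3_7 (s2_6 (s1_4 (s0_5 p214_50))),
   tr p215_44,
   tr p216_44],
  [s3_6 (s2_7 (s1_5 (s0_4 p213_50))),
   s3_6 (s2_7 (s1_5 (s0_4 p214_50))),
   tr p217_44,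
   tr p218_44,
   p219_44,
   p219_45,
   p219_46,
   p219_47],
  [s3_6 (s2_7 (s1_4 (s0_5 p213_44))),
   s3_6 (s2_7 (s1_4 (s0_5 p214_44))),
   p219_50,
   p219_51,
   s3_6 (s2_7 (s1_4 (s0_5 p217_44))),
   s3_6 (s2_7 (s1_4 (s0_5 p218_44))),
   p219_54,
   p219_55],
  [s3_6 (s2_7 (s1_4 (s0_5 p215_44))),
   s3_6 (s2_7 (s1_4 (s0_5 p216_44))),
   s6_7 (s4_5 (s2_3 (s0_1 p219_54))),
   s6_7 (s4_5 (s2_3 (s0_1 p219_55))),
   s6_7 (s4_5 (s2_3 (s0_1 p219_46))),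
   s6_7 (s4_5 (s2_3 (s0_1 p219_47))),
   tr p223_44,
   tr p224_44]]

theorem k219 : eqNN c219 (slO 64 (D.chG 28 44) 8) = true := by decide +kernel

end Pool.Agent.Lib.MP_afdd4d_co.K10.E6
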