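import Pool.Agent.Lib.MP_afdd4d_co.K10.E6.Dat
import Pool.Agent.Lib.MP_afdd4d_co.K10.E6.Mk
import Pool.Agent.Lib.MP_afdd4d_co.K8.F6Bl5
import Pool.Agent.Lib.MP_afdd4d_co.K10.E6.P0
import Pool.Agent.Lib.MP_afdd4d_co.K10.E6.P1
import Pool.Agent.Lib.MP_afdd4d_co.K10.E6.P2
import Pool.Agent.Lib.MP_afdd4d_co.K10.E6.P3
import Pool.Agent.Lib.MP_afdd4d_co.K10.E6.P4
import Pool.Agent.Lib.MP_afdd4d_co.K10.E6.P5
import Pool.Agent.Lib.MP_afdd4d_co.K10.E6.P6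
import Pool.Agent.Lib.MP_afdd4d_co.K10.E6.P7
import Pool.Agent.Lib.MP_afdd4d_co.K10.E6.P8
import Pool.Agent.Lib.MP_afdd4d_co.K10.E6.P9
import Pool.Agent.Lib.MP_afdd4d_co.K10.E6.P10
import Pool.Agent.Lib.MP_afdd4d_co.K10.E6.P11
import Pool.Agent.Lib.MP_afdd4d_co.K10.E6.P12
import Pool.Agent.Lib.MP_afdd4d_co.K10.E6.P13
import Pool.Agent.Lib.MP_afdd4d_co.K10.E6.P14
import Pool.Agent.Lib.MP_afdd4d_co.K10.E6.P15
import Pool.Agent.Lib.MP_afdd4d_co.K10.E6.P16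
import Pool.Agent.Lib.MP_afdd4d_co.K10.E6.P17
import Pool.Agent.Lib.MP_afdd4d_co.K10.E6.P18
import Pool.Agent.Lib.MP_afdd4d_co.K10.E6.P19
import Pool.Agent.Lib.MP_afdd4d_co.K10.E6.P20
import Pool.Agent.Lib.MP_afdd4d_co.K10.E6.P21
import Pool.Agent.Lib.MP_afdd4d_co.K10.E6.P22
import Pool.Agent.Lib.MP_afdd4d_co.K10.E6.P23
import Pool.Agent.Lib.MP_afdd4d_co.K10.E6.P24
import Pool.Agent.Lib.MP_afdd4d_co.K10.E6.P25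
import Pool.Agent.Lib.MP_afdd4d_co.K10.E6.P26
import Pool.Agent.Lib.MP_afdd4d_co.K10.E6.P27
import Pool.Agent.Lib.MP_afdd4d_co.K10.E6.P28
import Pool.Agent.Lib.MP_afdd4d_co.K10.E6.P29
import Pool.Agent.Lib.MP_afdd4d_co.K10.E6.P30
import Pool.Agent.Lib.MP_afdd4d_co.K10.E6.P31
import Pool.Agent.Lib.MP_afdd4d_co.K10.E6.P32

/-!
# Tables
-/

namespace Pool.Agent.Lib.MP_afdd4d_co.K10.E6

open K8

set_option maxRecDepth 100000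
set_option exponentiation.threshold 10000000

/-- The slices of the chunk 220. -/
noncomputable def c220 : List (List ℕ) := [
  [tr p197_45,
   tr p198_45,
   tr p199_45,
   tr p200_45,
   s3_7 (s2_6 (s1_4 (s0_5 p199_51))),
   s3_7 (s2_6 (s1_4 (s0_5 p200_51))),
   tr p201_45,
   tr p202_45],
  [s3_6 (s2_7 (s1_5 (s0_4 p199_51))),
   s3_6 (s2_7 (s1_5 (s0_4 p200_51))),
   tr p203_45,
   tr p204_45,
   tr p205_45,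
   tr p206_45,
   tr p207_45,
   tr p208_45],
  [s3_6 (s2_7 (s1_4 (s0_5 p199_45))),
   s3_6 (s2_7 (s1_4 (s0_5 p200_45))),
   s3_6 (s2_7 (s1_5 (s0_4 p205_51))),
   s3_6 (s2_7 (s1_5 (s0_4 p206_51))),
   s3_6 (s2_7 (s1_4 (s0_5 p203_45))),
   s3_6 (s2_7 (s1_4 (s0_5 p204_45))),
   s3_7 (s2_6 (s1_4 (s0_5 p207_51))),
   s3_7 (s2_6 (s1_4 (s0_5 p208_51)))],
  [s3_6 (s2_7 (s1_4 (s0_5 p201_45))),
   s3_6 (s2_7 (s1_4 (s0_5 p202_45))),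
   s3_6 (s2_7 (s1_5 (s0_4 p207_51))),
   s3_6 (s2_7 (s1_5 (s0_4 p208_51))),
   s3_6 (s2_7 (s1_4 (s0_5 p207_45))),
   s3_6 (s2_7 (s1_4 (s0_5 p208_45))),
   tr p209_45,
   tr p210_45],
  [tr p211_45,
   tr p212_45,
   tr p213_45,
   tr p214_45,
   s3_7 (s2_6 (s1_4 (s0_5 p213_51))),
   s3_7 (s2_6 (s1_4 (s0_5 p214_51))),
   tr p215_45,
   tr p216_45],
  [s3_6 (s2_7 (s1_5 (s0_4 p213_51))),
   s3_6 (s2_7 (s1_5 (s0_4 p214_51))),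
   tr p217_45,
   tr p218_45,
   tr p219_45,
   p220_45,
   p220_46,
   p220_47],
  [s3_6 (s2_7 (s1_4 (s0_5 p213_45))),
   s3_6 (s2_7 (s1_4 (s0_5 p214_45))),
   s3_6 (s2_7 (s1_5 (s0_4 p219_51))),
   p220_51,
   s3_6 (s2_7 (s1_4 (s0_5 p217_45))),
   s3_6 (s2_7 (s1_4 (s0_5 p218_45))),
   p220_54,
   p220_55],
  [s3_6 (s2_7 (s1_4 (s0_5 p215_45))),
   s3_6 (s2_7 (s1_4 (s0_5 p216_45))),
   s6_7 (s4_5 (s2_3 (s0_1 p220_54))),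
   s6_7 (s4_5 (s2_3 (s0_1 p220_55))),
   s6_7 (s4_5 (s2_3 (s0_1 p220_46))),
   s6_7 (s4_5 (s2_3 (s0_1 p220_47))),
   tr p223_45,
   tr p224_45]]

theorem k220 : eqNN c220 (slO 64 (D.chG 28 45) 8) = true := by decide +kernel

/-- The slices of the chunk 221. -/
noncomputable def c221 : List (List ℕ) := [
  [tr p197_46,
   tr p198_46,
   tr p199_46,
   tr p200_46,
   s3_7 (s2_6 (s1_4 (s0_5 p199_54))),
   s3_7 (s2_6 (s1_4 (s0_5 p200_54))),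
   tr p201_46,
   tr p202_46],
  [s3_6 (s2_7 (s1_5 (s0_4 p199_58))),
   s3_6 (s2_7 (s1_5 (s0_4 p200_58))),
   tr p203_46,
   tr p204_46,
   tr p205_46,
   tr p206_46,
   tr p207_46,
   tr p208_46],
  [s3_6 (s2_7 (s1_4 (s0_5 p199_60))),
   s3_6 (s2_7 (s1_4 (s0_5 p200_60))),
   s3_7 (s2_6 (s1_4 (s0_5 p205_54))),
   s3_7 (s2_6 (s1_4 (s0_5 p206_54))),
   s3_7 (s2_6 (s1_4 (s0_5 p203_54))),
   s3_7 (s2_6 (s1_4 (s0_5 p204_54))),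
   s3_7 (s2_6 (s1_4 (s0_5 p207_54))),
   s3_7 (s2_6 (s1_4 (s0_5 p208_54)))],
  [s3_6 (s2_7 (s1_5 (s0_4 p201_58))),
   s3_6 (s2_7 (s1_5 (s0_4 p202_58))),
   s3_6 (s2_7 (s1_5 (s0_4 p207_58))),
   s3_6 (s2_7 (s1_5 (s0_4 p208_58))),
   s3_6 (s2_7 (s1_4 (s0_5 p207_60))),
   s3_6 (s2_7 (s1_4 (s0_5 p208_60))),
   tr p209_46,
   tr p210_46],
  [tr p211_46,
   tr p212_46,
   tr p213_46,
   tr p214_46,
   s3_7 (s2_6 (s1_4 (s0_5 p213_54))),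
   s3_7 (s2_6 (s1_4 (s0_5 p214_54))),
   tr p215_46,
   tr p216_46],
  [s3_6 (s2_7 (s1_5 (s0_4 p213_58))),
   s3_6 (s2_7 (s1_5 (s0_4 p214_58))),
   tr p217_46,
   tr p218_46,
   tr p219_46,
   tr p220_46,
   p221_46,
   p221_47],
  [s3_6 (s2_7 (s1_4 (s0_5 p213_60))),
   s3_6 (s2_7 (s1_4 (s0_5 p214_60))),
   s3_7 (s2_6 (s1_4 (s0_5 p219_54))),
   s3_7 (s2_6 (s1_4 (s0_5 p220_54))),
   s3_7 (s2_6 (s1_4 (s0_5 p217_54))),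
   s3_7 (s2_6 (s1_4 (s0_5 p218_54))),
   p221_54,
   p221_55],
  [s3_6 (s2_7 (s1_5 (s0_4 p215_58))),
   s3_6 (s2_7 (s1_5 (s0_4 p216_58))),
   p221_58,
   p221_59,
   p221_60,
   p221_61,
   tr p223_46,
   tr p224_46]]

theorem k221 : eqNN c221 (slO 64 (D.chG 28 46) 8) = true := by decide +kernel

/-- The slices of the chunk 222. -/
noncomputable def c222 : List (List ℕ) := [
  [tr p197_47,
   tr p198_47,
   tr p199_47,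
   tr p200_47,
   s3_7 (s2_6 (s1_4 (s0_5 p199_55))),
   s3_7 (s2_6 (s1_4 (s0_5 p200_55))),
   tr p201_47,
   tr p202_47],
  [s3_6 (s2_7 (s1_5 (s0_4 p199_59))),
   s3_6 (s2_7 (s1_5 (s0_4 p200_59))),
   tr p203_47,
   tr p204_47,
   tr p205_47,
   tr p206_47,
   tr p207_47,
   tr p208_47],
  [s3_6 (s2_7 (s1_4 (s0_5 p199_61))),
   s3_6 (s2_7 (s1_4 (s0_5 p200_61))),
   s3_7 (s2_6 (s1_4 (s0_5 p205_55))),
   s3_7 (s2_6 (s1_4 (s0_5 p206_55))),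
   s3_7 (s2_6 (s1_4 (s0_5 p203_55))),
   s3_7 (s2_6 (s1_4 (s0_5 p204_55))),
   s3_7 (s2_6 (s1_4 (s0_5 p207_55))),
   s3_7 (s2_6 (s1_4 (s0_5 p208_55)))],
  [s3_6 (s2_7 (s1_5 (s0_4 p201_59))),
   s3_6 (s2_7 (s1_5 (s0_4 p202_59))),
   s3_6 (s2_7 (s1_5 (s0_4 p207_59))),
   s3_6 (s2_7 (s1_5 (s0_4 p208_59))),
   s3_6 (s2_7 (s1_4 (s0_5 p207_61))),
   s3_6 (s2_7 (s1_4 (s0_5 p208_61))),
   tr p209_47,
   tr p210_47],
  [tr p211_47,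
   tr p212_47,
   tr p213_47,
   tr p214_47,
   s3_7 (s2_6 (s1_4 (s0_5 p213_55))),
   s3_7 (s2_6 (s1_4 (s0_5 p214_55))),
   tr p215_47,
   tr p216_47],
  [s3_6 (s2_7 (s1_5 (s0_4 p213_59))),
   s3_6 (s2_7 (s1_5 (s0_4 p214_59))),
   tr p217_47,
   tr p218_47,
   tr p219_47,
   tr p220_47,
   tr p221_47,
   p222_47],
  [s3_6 (s2_7 (s1_4 (s0_5 p213_61))),
   s3_6 (s2_7 (s1_4 (s0_5 p214_61))),
   s3_7 (s2_6 (s1_4 (s0_5 p219_55))),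
   s3_7 (s2_6 (s1_4 (s0_5 p220_55))),
   s3_7 (s2_6 (s1_4 (s0_5 p217_55))),
   s3_7 (s2_6 (s1_4 (s0_5 p218_55))),
   s3_7 (s2_6 (s1_4 (s0_5 p221_55))),
   p222_55],
  [s3_6 (s2_7 (s1_5 (s0_4 p215_59))),
   s3_6 (s2_7 (s1_5 (s0_4 p216_59))),
   s3_6 (s2_7 (s1_5 (s0_4 p221_59))),
   p222_59,
   s3_6 (s2_7 (s1_4 (s0_5 p221_61))),
   p222_61,
   tr p223_47,
   tr p224_47]]

theorem k222 : eqNN c222 (slO 64 (D.chG 28 47) 8) = true := by decide +kernel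

/-- The slices of the chunk 223. -/
noncomputable def c223 : List (List ℕ) := [
  [tr p197_62,
   tr p198_62,
   p223_2,
   p223_3,
   s4_5 (s0_1 p223_2),
   s4_5 (s0_1 p223_3),
   p223_6,
   p223_7],
  [s6_7 (s2_3 p223_2),
   s6_7 (s2_3 p223_3),
   p223_10,
   p223_11,
   p223_12,
   p223_13,
   p223_14,
   p223_15],
  [s6_7 (s4_5 (s2_3 (s0_1 p223_2))),
   s6_7 (s4_5 (s2_3 (s0_1 p223_3))),
   s6_7 (s2_3 p223_12),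
   s6_7 (s2_3 p223_13),
   s4_5 (s0_1 p223_10),
   s4_5 (s0_1 p223_11),
   s4_5 (s0_1 p223_14),
   s4_5 (s0_1 p223_15)],
  [s6_7 (s2_3 p223_6),
   s6_7 (s2_3 p223_7),
   s6_7 (s2_3 p223_14),
   s6_7 (s2_3 p223_15),
   s6_7 (s4_5 (s2_3 (s0_1 p223_14))),
   s6_7 (s4_5 (s2_3 (s0_1 p223_15))),
   tr p209_62,
   tr p210_62],
  [tr p211_62,
   tr p212_62,
   p223_34,
   p223_35,
   s4_5 (s0_1 p223_34),
   s4_5 (s0_1 p223_35),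
   p223_38,
   p223_39],
  [s6_7 (s2_3 p223_34),
   s6_7 (s2_3 p223_35),
   p223_42,
   p223_43,
   p223_44,
   p223_45,
   p223_46,
   p223_47],
  [s6_7 (s4_5 (s2_3 (s0_1 p223_34))),
   s6_7 (s4_5 (s2_3 (s0_1 p223_35))),
   s6_7 (s2_3 p223_44),
   s6_7 (s2_3 p223_45),
   s4_5 (s0_1 p223_42),
   s4_5 (s0_1 p223_43),
   s4_5 (s0_1 p223_46),
   s4_5 (s0_1 p223_47)],
  [s6_7 (s2_3 p223_38),
   s6_7 (s2_3 p223_39),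
   s6_7 (s2_3 p223_46),
   s6_7 (s2_3 p223_47),
   s6_7 (s4_5 (s2_3 (s0_1 p223_46))),
   s6_7 (s4_5 (s2_3 (s0_1 p223_47))),
   p223_62,
   p223_63]]

theorem k223 : eqNN c223 (slO 64 (D.chG 28 62) 8) = true := by decide +kernel

end Pool.Agent.Lib.MP_afdd4d_co.K10.E6
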