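import Pool.Agent.Lib.MP_afdd4d_co.K10.E6.Dat
import Pool.Agent.Lib.MP_afdd4d_co.K10.E6.Mk
import Pool.Agent.Lib.MP_afdd4d_co.K8.F6Bl5
import Pool.Agent.Lib.MP_afdd4d_co.K10.E6.P0
import Pool.Agent.Lib.MP_afdd4d_co.K10.E6.P1
import Pool.Agent.Lib.MP_afdd4d_co.K10.E6.P2
import Pool.Agent.Lib.MP_afdd4d_co.K10.E6.P3
import Pool.Agent.Lib.MP_afdd4d_co.K10.E6.P4
import Pool.Agent.Lib.MP_afdd4d_co.K10.E6.P5
import Pool.Agent.Lib.MP_afdd4d_co.K10.E6.P6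
import Pool.Agent.Lib.MP_afdd4d_co.K10.E6.P7
import Pool.Agent.Lib.MP_afdd4d_co.K10.E6.P8
import Pool.Agent.Lib.MP_afdd4d_co.K10.E6.P9
import Pool.Agent.Lib.MP_afdd4d_co.K10.E6.P10
import Pool.Agent.Lib.MP_afdd4d_co.K10.E6.P11
import Pool.Agent.Lib.MP_afdd4d_co.K10.E6.P12
import Pool.Agent.Lib.MP_afdd4d_co.K10.E6.P13
import Pool.Agent.Lib.MP_afdd4d_co.K10.E6.P14
import Pool.Agent.Lib.MP_afdd4d_co.K10.E6.P15
import Pool.Agent.Lib.MP_afdd4d_co.K10.E6.P16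
import Pool.Agent.Lib.MP_afdd4d_co.K10.E6.P17
import Pool.Agent.Lib.MP_afdd4d_co.K10.E6.P18
import Pool.Agent.Lib.MP_afdd4d_co.K10.E6.P19
import Pool.Agent.Lib.MP_afdd4d_co.K10.E6.P20
import Pool.Agent.Lib.MP_afdd4d_co.K10.E6.P21
import Pool.Agent.Lib.MP_afdd4d_co.K10.E6.P22
import Pool.Agent.Lib.MP_afdd4d_co.K10.E6.P23
import Pool.Agent.Lib.MP_afdd4d_co.K10.E6.P24
import Pool.Agent.Lib.MP_afdd4d_co.K10.E6.P25
import Pool.Agent.Lib.MP_afdd4d_co.K10.E6.P26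
import Pool.Agent.Lib.MP_afdd4d_co.K10.E6.P27
import Pool.Agent.Lib.MP_afdd4d_co.K10.E6.P28
import Pool.Agent.Lib.MP_afdd4d_co.K10.E6.P29
import Pool.Agent.Lib.MP_afdd4d_co.K10.E6.P30
import Pool.Agent.Lib.MP_afdd4d_co.K10.E6.P31
import Pool.Agent.Lib.MP_afdd4d_co.K10.E6.P32

/-!
# Tables
-/

namespace Pool.Agent.Lib.MP_afdd4d_co.K10.E6

open K8

set_option maxRecDepth 100000
set_option exponentiation.threshold 10000000

/-- The slices of the chunk 224. -/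
noncomputable def c224 : List (List ℕ) := [
  [tr p197_63,
   tr p198_63,
   p224_2,
   p224_3,
   s4_5 (s0_1 p224_2),
   s4_5 (s0_1 p224_3),
   p224_6,
   p224_7],
  [s6_7 (s2_3 p224_2),
   s6_7 (s2_3 p224_3),
   p224_10,
   p224_11,
   p224_12,
   p224_13,
   p224_14,
   p224_15],
  [s6_7 (s4_5 (s2_3 (s0_1 p224_2))),
   s6_7 (s4_5 (s2_3 (s0_1 p224_3))),
   s6_7 (s2_3 p224_12),
   s6_7 (s2_3 p224_13),
   s4_5 (s0_1 p224_10),
   s4_5 (s0_1 p224_11),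
   s4_5 (s0_1 p224_14),
   s4_5 (s0_1 p224_15)],
  [s6_7 (s2_3 p224_6),
   s6_7 (s2_3 p224_7),
   s6_7 (s2_3 p224_14),
   s6_7 (s2_3 p224_15),
   s6_7 (s4_5 (s2_3 (s0_1 p224_14))),
   s6_7 (s4_5 (s2_3 (s0_1 p224_15))),
   tr p209_63,
   tr p210_63],
  [tr p211_63,
   tr p212_63,
   p224_34,
   p224_35,
   s4_5 (s0_1 p224_34),
   s4_5 (s0_1 p224_35),
   p224_38,
   p224_39],
  [s6_7 (s2_3 p224_34),
   s6_7 (s2_3 p224_35),
   p224_42,
   p224_43,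
   p224_44,
   p224_45,
   p224_46,
   p224_47],
  [s6_7 (s4_5 (s2_3 (s0_1 p224_34))),
   s6_7 (s4_5 (s2_3 (s0_1 p224_35))),
   s6_7 (s2_3 p224_44),
   s6_7 (s2_3 p224_45),
   s4_5 (s0_1 p224_42),
   s4_5 (s0_1 p224_43),
   s4_5 (s0_1 p224_46),
   s4_5 (s0_1 p224_47)],
  [s6_7 (s2_3 p224_38),
   s6_7 (s2_3 p224_39),
   s6_7 (s2_3 p224_46),
   s6_7 (s2_3 p224_47),
   s6_7 (s4_5 (s2_3 (s0_1 p224_46))),
   s6_7 (s4_5 (s2_3 (s0_1 p224_47))),
   tr p223_63,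
   p224_63]]

theorem k224 : eqNN c224 (slO 64 (D.chG 28 63) 8) = true := by decide +kernel

/-- The slices of the chunk 225. -/
noncomputable def c225 : List (List ℕ) := [
  [p225_0,
   p225_1,
   p225_2,
   p225_3,
   s4_5 (s0_1 p225_2),
   s4_5 (s0_1 p225_3),
   p225_6,
   p225_7],
  [p225_8,
   p225_9,
   p225_10,
   p225_11,
   p225_12,
   p225_13,
   p225_14,
   p225_15],
  [s4_5 (s0_1 p225_8),
   s4_5 (s0_1 p225_9),
   s4_5 (s0_1 p225_12),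
   s4_5 (s0_1 p225_13),
   s4_5 (s0_1 p225_10),
   s4_5 (s0_1 p225_11),
   s4_5 (s0_1 p225_14),
   s4_5 (s0_1 p225_15)],
  [p225_24,
   p225_25,
   p225_26,
   p225_27,
   s4_5 (s0_1 p225_26),
   s4_5 (s0_1 p225_27),
   p225_30,
   p225_31],
  [p225_32,
   p225_33,
   p225_34,
   p225_35,
   s4_5 (s0_1 p225_34),
   s4_5 (s0_1 p225_35),
   p225_38,
   p225_39],
  [p225_40,
   p225_41,
   p225_42,
   p225_43,
   p225_44,
   p225_45,
   p225_46,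
   p225_47],
  [s4_5 (s0_1 p225_40),
   s4_5 (s0_1 p225_41),
   s4_5 (s0_1 p225_44),
   s4_5 (s0_1 p225_45),
   s4_5 (s0_1 p225_42),
   s4_5 (s0_1 p225_43),
   s4_5 (s0_1 p225_46),
   s4_5 (s0_1 p225_47)],
  [p225_56,
   p225_57,
   p225_58,
   p225_59,
   s4_5 (s0_1 p225_58),
   s4_5 (s0_1 p225_59),
   p225_62,
   p225_63]]

theorem k225 : eqNN c225 (slO 64 (D.chG 29 0) 8) = true := by decide +kernel

/-- The slices of the chunk 226. -/
noncomputable def c226 : List (List ℕ) := [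
  [tr p225_1,
   p226_1,
   p226_2,
   p226_3,
   s4_5 (s0_1 p226_2),
   s4_5 (s0_1 p226_3),
   p226_6,
   p226_7],
  [p226_8,
   p226_9,
   p226_10,
   p226_11,
   p226_12,
   p226_13,
   p226_14,
   p226_15],
  [s4_5 (s0_1 p226_8),
   s4_5 (s0_1 p226_9),
   s4_5 (s0_1 p226_12),
   s4_5 (s0_1 p226_13),
   s4_5 (s0_1 p226_10),
   s4_5 (s0_1 p226_11),
   s4_5 (s0_1 p226_14),
   s4_5 (s0_1 p226_15)],
  [p226_24,
   p226_25,
   p226_26,
   p226_27,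
   s4_5 (s0_1 p226_26),
   s4_5 (s0_1 p226_27),
   p226_30,
   p226_31],
  [p226_32,
   p226_33,
   p226_34,
   p226_35,
   s4_5 (s0_1 p226_34),
   s4_5 (s0_1 p226_35),
   p226_38,
   p226_39],
  [p226_40,
   p226_41,
   p226_42,
   p226_43,
   p226_44,
   p226_45,
   p226_46,
   p226_47],
  [s4_5 (s0_1 p226_40),
   s4_5 (s0_1 p226_41),
   s4_5 (s0_1 p226_44),
   s4_5 (s0_1 p226_45),
   s4_5 (s0_1 p226_42),
   s4_5 (s0_1 p226_43),
   s4_5 (s0_1 p226_46),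
   s4_5 (s0_1 p226_47)],
  [p226_56,
   p226_57,
   p226_58,
   p226_59,
   s4_5 (s0_1 p226_58),
   s4_5 (s0_1 p226_59),
   p226_62,
   p226_63]]

theorem k226 : eqNN c226 (slO 64 (D.chG 29 1) 8) = true := by decide +kernel

/-- The slices of the chunk 227. -/
noncomputable def c227 : List (List ℕ) := [
  [tr p225_2,
   tr p226_2,
   p227_2,
   p227_3,
   p227_4,
   p227_5,
   tr p229_2,
   tr p230_2],
  [p227_8,
   p227_9,
   p227_10,
   p227_11,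
   p227_12,
   p227_13,
   p227_14,
   p227_15],
  [p227_16,
   p227_17,
   p227_18,
   p227_19,
   p227_20,
   p227_21,
   p227_22,
   p227_23],
  [tr p239_2,
   tr p240_2,
   p227_26,
   p227_27,
   p227_28,
   p227_29,
   tr p243_2,
   tr p244_2],
  [tr p245_2,
   tr p246_2,
   p227_34,
   p227_35,
   p227_36,
   p227_37,
   tr p249_2,
   tr p250_2],
  [p227_40,
   p227_41,
   p227_42,
   p227_43,
   p227_44,
   p227_45,
   p227_46,
   p227_47],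
  [p227_48,
   p227_49,
   p227_50,
   p227_51,
   p227_52,
   p227_53,
   p227_54,
   p227_55],
  [tr p259_2,
   tr p260_2,
   p227_58,
   p227_59,
   p227_60,
   p227_61,
   tr p263_2,
   tr p264_2]]

theorem k227 : eqNN c227 (slO 64 (D.chG 29 2) 8) = true := by decide +kernel

end Pool.Agent.Lib.MP_afdd4d_co.K10.E6
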