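import Pool.Agent.Lib.MP_afdd4d_co.K10.E6.Dat
import Pool.Agent.Lib.MP_afdd4d_co.K10.E6.Mk
import Pool.Agent.Lib.MP_afdd4d_co.K8.F6Bl5
import Pool.Agent.Lib.MP_afdd4d_co.K10.E6.P0
import Pool.Agent.Lib.MP_afdd4d_co.K10.E6.P1
import Pool.Agent.Lib.MP_afdd4d_co.K10.E6.P2
import Pool.Agent.Lib.MP_afdd4d_co.K10.E6.P3
import Pool.Agent.Lib.MP_afdd4d_co.K10.E6.P4
import Pool.Agent.Lib.MP_afdd4d_co.K10.E6.P5
import Pool.Agent.Lib.MP_afdd4d_co.K10.E6.P6
import Pool.Agent.Lib.MP_afdd4d_co.K10.E6.P7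
import Pool.Agent.Lib.MP_afdd4d_co.K10.E6.P8
import Pool.Agent.Lib.MP_afdd4d_co.K10.E6.P9
import Pool.Agent.Lib.MP_afdd4d_co.K10.E6.P10
import Pool.Agent.Lib.MP_afdd4d_co.K10.E6.P11
import Pool.Agent.Lib.MP_afdd4d_co.K10.E6.P12
import Pool.Agent.Lib.MP_afdd4d_co.K10.E6.P13
import Pool.Agent.Lib.MP_afdd4d_co.K10.E6.P14
import Pool.Agent.Lib.MP_afdd4d_co.K10.E6.P15
import Pool.Agent.Lib.MP_afdd4d_co.K10.E6.P16
import Pool.Agent.Lib.MP_afdd4d_co.K10.E6.P17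
import Pool.Agent.Lib.MP_afdd4d_co.K10.E6.P18
import Pool.Agent.Lib.MP_afdd4d_co.K10.E6.P19
import Pool.Agent.Lib.MP_afdd4d_co.K10.E6.P20
import Pool.Agent.Lib.MP_afdd4d_co.K10.E6.P21
import Pool.Agent.Lib.MP_afdd4d_co.K10.E6.P22
import Pool.Agent.Lib.MP_afdd4d_co.K10.E6.P23
import Pool.Agent.Lib.MP_afdd4d_co.K10.E6.P24
import Pool.Agent.Lib.MP_afdd4d_co.K10.E6.P25
import Pool.Agent.Lib.MP_afdd4d_co.K10.E6.P26
import Pool.Agent.Lib.MP_afdd4d_co.K10.E6.P27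
import Pool.Agent.Lib.MP_afdd4d_co.K10.E6.P28
import Pool.Agent.Lib.MP_afdd4d_co.K10.E6.P29
import Pool.Agent.Lib.MP_afdd4d_co.K10.E6.P30
import Pool.Agent.Lib.MP_afdd4d_co.K10.E6.P31
import Pool.Agent.Lib.MP_afdd4d_co.K10.E6.P32

/-!
# Tables
-/

namespace Pool.Agent.Lib.MP_afdd4d_co.K10.E6

open K8

set_option maxRecDepth 100000
set_option exponentiation.threshold 10000000

/-- The slices of the chunk 228. -/
noncomputable def c228 : List (List ℕ) := [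
  [tr p225_3,
   tr p226_3,
   tr p227_3,
   p228_3,
   s3_7 (s2_6 (s1_4 (s0_5 p227_5))),
   p228_5,
   tr p229_3,
   tr p230_3],
  [p228_8,
   p228_9,
   p228_10,
   p228_11,
   p228_12,
   p228_13,
   p228_14,
   p228_15],
  [p228_16,
   p228_17,
   p228_18,
   p228_19,
   p228_20,
   p228_21,
   p228_22,
   p228_23],
  [tr p239_3,
   tr p240_3,
   p228_26,
   p228_27,
   p228_28,
   p228_29,
   tr p243_3,
   tr p244_3],
  [tr p245_3,
   tr p246_3,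
   p228_34,
   p228_35,
   p228_36,
   p228_37,
   tr p249_3,
   tr p250_3],
  [p228_40,
   p228_41,
   p228_42,
   p228_43,
   p228_44,
   p228_45,
   p228_46,
   p228_47],
  [p228_48,
   p228_49,
   p228_50,
   p228_51,
   p228_52,
   p228_53,
   p228_54,
   p228_55],
  [tr p259_3,
   tr p260_3,
   p228_58,
   p228_59,
   p228_60,
   p228_61,
   tr p263_3,
   tr p264_3]]

theorem k228 : eqNN c228 (slO 64 (D.chG 29 3) 8) = true := by decide +kernel

/-- The slices of the chunk 229. -/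
noncomputable def c229 : List (List ℕ) := [
  [tr p225_6,
   tr p226_6,
   p229_2,
   p229_3,
   s4_5 (s0_1 p229_2),
   s4_5 (s0_1 p229_3),
   p229_6,
   p229_7],
  [p229_8,
   p229_9,
   p229_10,
   p229_11,
   p229_12,
   p229_13,
   p229_14,
   p229_15],
  [s4_5 (s0_1 p229_8),
   s4_5 (s0_1 p229_9),
   s4_5 (s0_1 p229_12),
   s4_5 (s0_1 p229_13),
   s4_5 (s0_1 p229_10),
   s4_5 (s0_1 p229_11),
   s4_5 (s0_1 p229_14),
   s4_5 (s0_1 p229_15)],
  [p229_24,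
   p229_25,
   p229_26,
   p229_27,
   s4_5 (s0_1 p229_26),
   s4_5 (s0_1 p229_27),
   p229_30,
   p229_31],
  [p229_32,
   p229_33,
   p229_34,
   p229_35,
   s4_5 (s0_1 p229_34),
   s4_5 (s0_1 p229_35),
   p229_38,
   p229_39],
  [p229_40,
   p229_41,
   p229_42,
   p229_43,
   p229_44,
   p229_45,
   p229_46,
   p229_47],
  [s4_5 (s0_1 p229_40),
   s4_5 (s0_1 p229_41),
   s4_5 (s0_1 p229_44),
   s4_5 (s0_1 p229_45),
   s4_5 (s0_1 p229_42),
   s4_5 (s0_1 p229_43),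
   s4_5 (s0_1 p229_46),
   s4_5 (s0_1 p229_47)],
  [p229_56,
   p229_57,
   p229_58,
   p229_59,
   s4_5 (s0_1 p229_58),
   s4_5 (s0_1 p229_59),
   p229_62,
   p229_63]]

theorem k229 : eqNN c229 (slO 64 (D.chG 29 6) 8) = true := by decide +kernel

/-- The slices of the chunk 230. -/
noncomputable def c230 : List (List ℕ) := [
  [tr p225_7,
   tr p226_7,
   p230_2,
   p230_3,
   s4_5 (s0_1 p230_2),
   s4_5 (s0_1 p230_3),
   tr p229_7,
   p230_7],
  [p230_8,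
   p230_9,
   p230_10,
   p230_11,
   p230_12,
   p230_13,
   p230_14,
   p230_15],
  [s4_5 (s0_1 p230_8),
   s4_5 (s0_1 p230_9),
   s4_5 (s0_1 p230_12),
   s4_5 (s0_1 p230_13),
   s4_5 (s0_1 p230_10),
   s4_5 (s0_1 p230_11),
   s4_5 (s0_1 p230_14),
   s4_5 (s0_1 p230_15)],
  [p230_24,
   p230_25,
   p230_26,
   p230_27,
   s4_5 (s0_1 p230_26),
   s4_5 (s0_1 p230_27),
   p230_30,
   p230_31],
  [p230_32,
   p230_33,
   p230_34,
   p230_35,
   s4_5 (s0_1 p230_34),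
   s4_5 (s0_1 p230_35),
   p230_38,
   p230_39],
  [p230_40,
   p230_41,
   p230_42,
   p230_43,
   p230_44,
   p230_45,
   p230_46,
   p230_47],
  [s4_5 (s0_1 p230_40),
   s4_5 (s0_1 p230_41),
   s4_5 (s0_1 p230_44),
   s4_5 (s0_1 p230_45),
   s4_5 (s0_1 p230_42),
   s4_5 (s0_1 p230_43),
   s4_5 (s0_1 p230_46),
   s4_5 (s0_1 p230_47)],
  [p230_56,
   p230_57,
   p230_58,
   p230_59,
   s4_5 (s0_1 p230_58),
   s4_5 (s0_1 p230_59),
   p230_62,
   p230_63]]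

theorem k230 : eqNN c230 (slO 64 (D.chG 29 7) 8) = true := by decide +kernel

/-- The slices of the chunk 231. -/
noncomputable def c231 : List (List ℕ) := [
  [tr p225_8,
   tr p226_8,
   tr p227_8,
   tr p228_8,
   s3_7 (s2_6 (s1_4 (s0_5 p227_16))),
   s3_7 (s2_6 (s1_4 (s0_5 p228_16))),
   tr p229_8,
   tr p230_8],
  [p231_8,
   p231_9,
   p231_10,
   p231_11,
   p231_12,
   p231_13,
   p231_14,
   p231_15],
  [p231_16,
   p231_17,
   p231_18,
   p231_19,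
   p231_20,
   p231_21,
   p231_22,
   p231_23],
  [tr p239_8,
   tr p240_8,
   p231_26,
   p231_27,
   p231_28,
   p231_29,
   tr p243_8,
   tr p244_8],
  [tr p245_8,
   tr p246_8,
   p231_34,
   p231_35,
   p231_36,
   p231_37,
   tr p249_8,
   tr p250_8],
  [p231_40,
   p231_41,
   p231_42,
   p231_43,
   p231_44,
   p231_45,
   p231_46,
   p231_47],
  [p231_48,
   p231_49,
   p231_50,
   p231_51,
   p231_52,
   p231_53,
   p231_54,
   p231_55],
  [tr p259_8,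
   tr p260_8,
   p231_58,
   p231_59,
   p231_60,
   p231_61,
   tr p263_8,
   tr p264_8]]

theorem k231 : eqNN c231 (slO 64 (D.chG 29 8) 8) = true := by decide +kernel

end Pool.Agent.Lib.MP_afdd4d_co.K10.E6
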