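import Pool.Agent.Lib.MP_afdd4d_co.K10.E6.Dat
import Pool.Agent.Lib.MP_afdd4d_co.K10.E6.Mk
import Pool.Agent.Lib.MP_afdd4d_co.K8.F6Bl5
import Pool.Agent.Lib.MP_afdd4d_co.K10.E6.P0
import Pool.Agent.Lib.MP_afdd4d_co.K10.E6.P1
import Pool.Agent.Lib.MP_afdd4d_co.K10.E6.P2
import Pool.Agent.Lib.MP_afdd4d_co.K10.E6.P3
import Pool.Agent.Lib.MP_afdd4d_co.K10.E6.P4
import Pool.Agent.Lib.MP_afdd4d_co.K10.E6.P5
import Pool.Agent.Lib.MP_afdd4d_co.K10.E6.P6
import Pool.Agent.Lib.MP_afdd4d_co.K10.E6.P7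
import Pool.Agent.Lib.MP_afdd4d_co.K10.E6.P8
import Pool.Agent.Lib.MP_afdd4d_co.K10.E6.P9
import Pool.Agent.Lib.MP_afdd4d_co.K10.E6.P10
import Pool.Agent.Lib.MP_afdd4d_co.K10.E6.P11
import Pool.Agent.Lib.MP_afdd4d_co.K10.E6.P12
import Pool.Agent.Lib.MP_afdd4d_co.K10.E6.P13
import Pool.Agent.Lib.MP_afdd4d_co.K10.E6.P14
import Pool.Agent.Lib.MP_afdd4d_co.K10.E6.P15
import Pool.Agent.Lib.MP_afdd4d_co.K10.E6.P16
import Pool.Agent.Lib.MP_afdd4d_co.K10.E6.P17
import Pool.Agent.Lib.MP_afdd4d_co.K10.E6.P18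
import Pool.Agent.Lib.MP_afdd4d_co.K10.E6.P19
import Pool.Agent.Lib.MP_afdd4d_co.K10.E6.P20
import Pool.Agent.Lib.MP_afdd4d_co.K10.E6.P21
import Pool.Agent.Lib.MP_afdd4d_co.K10.E6.P22
import Pool.Agent.Lib.MP_afdd4d_co.K10.E6.P23
import Pool.Agent.Lib.MP_afdd4d_co.K10.E6.P24
import Pool.Agent.Lib.MP_afdd4d_co.K10.E6.P25
import Pool.Agent.Lib.MP_afdd4d_co.K10.E6.P26
import Pool.Agent.Lib.MP_afdd4d_co.K10.E6.P27
import Pool.Agent.Lib.MP_afdd4d_co.K10.E6.P28
import Pool.Agent.Lib.MP_afdd4d_co.K10.E6.P29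
import Pool.Agent.Lib.MP_afdd4d_co.K10.E6.P30
import Pool.Agent.Lib.MP_afdd4d_co.K10.E6.P31
import Pool.Agent.Lib.MP_afdd4d_co.K10.E6.P32

/-!
# Tables
-/

namespace Pool.Agent.Lib.MP_afdd4d_co.K10.E6

open K8

set_option maxRecDepth 100000
set_option exponentiation.threshold 10000000

/-- The slices of the chunk 232. -/
noncomputable def c232 : List (List ℕ) := [
  [tr p225_9,
   tr p226_9,
   tr p227_9,
   tr p228_9,
   s3_7 (s2_6 (s1_4 (s0_5 p227_17))),
   s3_7 (s2_6 (s1_4 (s0_5 p228_17))),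
   tr p229_9,
   tr p230_9],
  [tr p231_9,
   p232_9,
   p232_10,
   p232_11,
   p232_12,
   p232_13,
   p232_14,
   p232_15],
  [s3_7 (s2_6 (s1_4 (s0_5 p231_17))),
   p232_17,
   p232_18,
   p232_19,
   p232_20,
   p232_21,
   p232_22,
   p232_23],
  [tr p239_9,
   tr p240_9,
   p232_26,
   p232_27,
   p232_28,
   p232_29,
   tr p243_9,
   tr p244_9],
  [tr p245_9,
   tr p246_9,
   p232_34,
   p232_35,
   p232_36,
   p232_37,
   tr p249_9,
   tr p250_9],
  [p232_40,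
   p232_41,
   p232_42,
   p232_43,
   p232_44,
   p232_45,
   p232_46,
   p232_47],
  [p232_48,
   p232_49,
   p232_50,
   p232_51,
   p232_52,
   p232_53,
   p232_54,
   p232_55],
  [tr p259_9,
   tr p260_9,
   p232_58,
   p232_59,
   p232_60,
   p232_61,
   tr p263_9,
   tr p264_9]]

theorem k232 : eqNN c232 (slO 64 (D.chG 29 9) 8) = true := by decide +kernel

/-- The slices of the chunk 233. -/
noncomputable def c233 : List (List ℕ) := [
  [tr p225_10,
   tr p226_10,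
   tr p227_10,
   tr p228_10,
   s3_7 (s2_6 (s1_4 (s0_5 p227_20))),
   s3_7 (s2_6 (s1_4 (s0_5 p228_20))),
   tr p229_10,
   tr p230_10],
  [tr p231_10,
   tr p232_10,
   p233_10,
   p233_11,
   p233_12,
   p233_13,
   p233_14,
   p233_15],
  [s3_7 (s2_6 (s1_4 (s0_5 p231_20))),
   s3_7 (s2_6 (s1_4 (s0_5 p232_20))),
   p233_18,
   p233_19,
   p233_20,
   p233_21,
   p233_22,
   p233_23],
  [tr p239_10,
   tr p240_10,
   p233_26,
   p233_27,
   p233_28,
   p233_29,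
   tr p243_10,
   tr p244_10],
  [tr p245_10,
   tr p246_10,
   p233_34,
   p233_35,
   p233_36,
   p233_37,
   tr p249_10,
   tr p250_10],
  [p233_40,
   p233_41,
   p233_42,
   p233_43,
   p233_44,
   p233_45,
   p233_46,
   p233_47],
  [p233_48,
   p233_49,
   p233_50,
   p233_51,
   p233_52,
   p233_53,
   p233_54,
   p233_55],
  [tr p259_10,
   tr p260_10,
   p233_58,
   p233_59,
   p233_60,
   p233_61,
   tr p263_10,
   tr p264_10]]

theorem k233 : eqNN c233 (slO 64 (D.chG 29 10) 8) = true := by decide +kernel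

/-- The slices of the chunk 234. -/
noncomputable def c234 : List (List ℕ) := [
  [tr p225_11,
   tr p226_11,
   tr p227_11,
   tr p228_11,
   s3_7 (s2_6 (s1_4 (s0_5 p227_21))),
   s3_7 (s2_6 (s1_4 (s0_5 p228_21))),
   tr p229_11,
   tr p230_11],
  [tr p231_11,
   tr p232_11,
   tr p233_11,
   p234_11,
   p234_12,
   p234_13,
   p234_14,
   p234_15],
  [s3_7 (s2_6 (s1_4 (s0_5 p231_21))),
   s3_7 (s2_6 (s1_4 (s0_5 p232_21))),
   p234_18,
   p234_19,
   s3_7 (s2_6 (s1_4 (s0_5 p233_21))),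
   p234_21,
   p234_22,
   p234_23],
  [tr p239_11,
   tr p240_11,
   p234_26,
   p234_27,
   p234_28,
   p234_29,
   tr p243_11,
   tr p244_11],
  [tr p245_11,
   tr p246_11,
   p234_34,
   p234_35,
   p234_36,
   p234_37,
   tr p249_11,
   tr p250_11],
  [p234_40,
   p234_41,
   p234_42,
   p234_43,
   p234_44,
   p234_45,
   p234_46,
   p234_47],
  [p234_48,
   p234_49,
   p234_50,
   p234_51,
   p234_52,
   p234_53,
   p234_54,
   p234_55],
  [tr p259_11,
   tr p260_11,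
   p234_58,
   p234_59,
   p234_60,
   p234_61,
   tr p263_11,
   tr p264_11]]

theorem k234 : eqNN c234 (slO 64 (D.chG 29 11) 8) = true := by decide +kernel

/-- The slices of the chunk 235. -/
noncomputable def c235 : List (List ℕ) := [
  [tr p225_12,
   tr p226_12,
   tr p227_12,
   tr p228_12,
   s3_7 (s2_6 (s1_4 (s0_5 p227_18))),
   s3_7 (s2_6 (s1_4 (s0_5 p228_18))),
   tr p229_12,
   tr p230_12],
  [tr p231_12,
   tr p232_12,
   tr p233_12,
   tr p234_12,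
   p235_12,
   p235_13,
   p235_14,
   p235_15],
  [s3_7 (s2_6 (s1_4 (s0_5 p231_18))),
   s3_7 (s2_6 (s1_4 (s0_5 p232_18))),
   p235_18,
   p235_19,
   s3_7 (s2_6 (s1_4 (s0_5 p233_18))),
   s3_7 (s2_6 (s1_4 (s0_5 p234_18))),
   p235_22,
   p235_23],
  [tr p239_12,
   tr p240_12,
   p235_26,
   p235_27,
   p235_28,
   p235_29,
   tr p243_12,
   tr p244_12],
  [tr p245_12,
   tr p246_12,
   p235_34,
   p235_35,
   p235_36,
   p235_37,
   tr p249_12,
   tr p250_12],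
  [p235_40,
   p235_41,
   p235_42,
   p235_43,
   p235_44,
   p235_45,
   p235_46,
   p235_47],
  [p235_48,
   p235_49,
   p235_50,
   p235_51,
   p235_52,
   p235_53,
   p235_54,
   p235_55],
  [tr p259_12,
   tr p260_12,
   p235_58,
   p235_59,
   p235_60,
   p235_61,
   tr p263_12,
   tr p264_12]]

theorem k235 : eqNN c235 (slO 64 (D.chG 29 12) 8) = true := by decide +kernel

end Pool.Agent.Lib.MP_afdd4d_co.K10.E6
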