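import Pool.Agent.Lib.MP_afdd4d_co.K10.E6.Dat
import Pool.Agent.Lib.MP_afdd4d_co.K10.E6.Mk
import Pool.Agent.Lib.MP_afdd4d_co.K8.F6Bl5
import Pool.Agent.Lib.MP_afdd4d_co.K10.E6.P0
import Pool.Agent.Lib.MP_afdd4d_co.K10.E6.P1
import Pool.Agent.Lib.MP_afdd4d_co.K10.E6.P2
import Pool.Agent.Lib.MP_afdd4d_co.K10.E6.P3
import Pool.Agent.Lib.MP_afdd4d_co.K10.E6.P4
import Pool.Agent.Lib.MP_afdd4d_co.K10.E6.P5
import Pool.Agent.Lib.MP_afdd4d_co.K10.E6.P6
import Pool.Agent.Lib.MP_afdd4d_co.K10.E6.P7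
import Pool.Agent.Lib.MP_afdd4d_co.K10.E6.P8
import Pool.Agent.Lib.MP_afdd4d_co.K10.E6.P9
import Pool.Agent.Lib.MP_afdd4d_co.K10.E6.P10
import Pool.Agent.Lib.MP_afdd4d_co.K10.E6.P11
import Pool.Agent.Lib.MP_afdd4d_co.K10.E6.P12
import Pool.Agent.Lib.MP_afdd4d_co.K10.E6.P13
import Pool.Agent.Lib.MP_afdd4d_co.K10.E6.P14
import Pool.Agent.Lib.MP_afdd4d_co.K10.E6.P15
import Pool.Agent.Lib.MP_afdd4d_co.K10.E6.P16
import Pool.Agent.Lib.MP_afdd4d_co.K10.E6.P17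
import Pool.Agent.Lib.MP_afdd4d_co.K10.E6.P18
import Pool.Agent.Lib.MP_afdd4d_co.K10.E6.P19
import Pool.Agent.Lib.MP_afdd4d_co.K10.E6.P20
import Pool.Agent.Lib.MP_afdd4d_co.K10.E6.P21
import Pool.Agent.Lib.MP_afdd4d_co.K10.E6.P22
import Pool.Agent.Lib.MP_afdd4d_co.K10.E6.P23
import Pool.Agent.Lib.MP_afdd4d_co.K10.E6.P24
import Pool.Agent.Lib.MP_afdd4d_co.K10.E6.P25
import Pool.Agent.Lib.MP_afdd4d_co.K10.E6.P26
import Pool.Agent.Lib.MP_afdd4d_co.K10.E6.P27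
import Pool.Agent.Lib.MP_afdd4d_co.K10.E6.P28
import Pool.Agent.Lib.MP_afdd4d_co.K10.E6.P29
import Pool.Agent.Lib.MP_afdd4d_co.K10.E6.P30
import Pool.Agent.Lib.MP_afdd4d_co.K10.E6.P31
import Pool.Agent.Lib.MP_afdd4d_co.K10.E6.P32

/-!
# Tables
-/

namespace Pool.Agent.Lib.MP_afdd4d_co.K10.E6

open K8

set_option maxRecDepth 100000
set_option exponentiation.threshold 10000000

/-- The slices of the chunk 236. -/
noncomputable def c236 : List (List ℕ) := [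
  [tr p225_13,
   tr p226_13,
   tr p227_13,
   tr p228_13,
   s3_7 (s2_6 (s1_4 (s0_5 p227_19))),
   s3_7 (s2_6 (s1_4 (s0_5 p228_19))),
   tr p229_13,
   tr p230_13],
  [tr p231_13,
   tr p232_13,
   tr p233_13,
   tr p234_13,
   tr p235_13,
   p236_13,
   p236_14,
   p236_15],
  [s3_7 (s2_6 (s1_4 (s0_5 p231_19))),
   s3_7 (s2_6 (s1_4 (s0_5 p232_19))),
   s3_7 (s2_6 (s1_4 (s0_5 p235_19))),
   p236_19,
   s3_7 (s2_6 (s1_4 (s0_5 p233_19))),
   s3_7 (s2_6 (s1_4 (s0_5 p234_19))),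
   p236_22,
   p236_23],
  [tr p239_13,
   tr p240_13,
   p236_26,
   p236_27,
   p236_28,
   p236_29,
   tr p243_13,
   tr p244_13],
  [tr p245_13,
   tr p246_13,
   p236_34,
   p236_35,
   p236_36,
   p236_37,
   tr p249_13,
   tr p250_13],
  [p236_40,
   p236_41,
   p236_42,
   p236_43,
   p236_44,
   p236_45,
   p236_46,
   p236_47],
  [p236_48,
   p236_49,
   p236_50,
   p236_51,
   p236_52,
   p236_53,
   p236_54,
   p236_55],
  [tr p259_13,
   tr p260_13,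
   p236_58,
   p236_59,
   p236_60,
   p236_61,
   tr p263_13,
   tr p264_13]]

theorem k236 : eqNN c236 (slO 64 (D.chG 29 13) 8) = true := by decide +kernel

/-- The slices of the chunk 237. -/
noncomputable def c237 : List (List ℕ) := [
  [tr p225_14,
   tr p226_14,
   tr p227_14,
   tr p228_14,
   s3_7 (s2_6 (s1_4 (s0_5 p227_22))),
   s3_7 (s2_6 (s1_4 (s0_5 p228_22))),
   tr p229_14,
   tr p230_14],
  [tr p231_14,
   tr p232_14,
   tr p233_14,
   tr p234_14,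
   tr p235_14,
   tr p236_14,
   p237_14,
   p237_15],
  [s3_7 (s2_6 (s1_4 (s0_5 p231_22))),
   s3_7 (s2_6 (s1_4 (s0_5 p232_22))),
   s3_7 (s2_6 (s1_4 (s0_5 p235_22))),
   s3_7 (s2_6 (s1_4 (s0_5 p236_22))),
   s3_7 (s2_6 (s1_4 (s0_5 p233_22))),
   s3_7 (s2_6 (s1_4 (s0_5 p234_22))),
   p237_22,
   p237_23],
  [tr p239_14,
   tr p240_14,
   p237_26,
   p237_27,
   p237_28,
   p237_29,
   tr p243_14,
   tr p244_14],
  [tr p245_14,
   tr p246_14,
   p237_34,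
   p237_35,
   p237_36,
   p237_37,
   tr p249_14,
   tr p250_14],
  [p237_40,
   p237_41,
   p237_42,
   p237_43,
   p237_44,
   p237_45,
   p237_46,
   p237_47],
  [p237_48,
   p237_49,
   p237_50,
   p237_51,
   p237_52,
   p237_53,
   p237_54,
   p237_55],
  [tr p259_14,
   tr p260_14,
   p237_58,
   p237_59,
   p237_60,
   p237_61,
   tr p263_14,
   tr p264_14]]

theorem k237 : eqNN c237 (slO 64 (D.chG 29 14) 8) = true := by decide +kernel

/-- The slices of the chunk 238. -/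
noncomputable def c238 : List (List ℕ) := [
  [tr p225_15,
   tr p226_15,
   tr p227_15,
   tr p228_15,
   s3_7 (s2_6 (s1_4 (s0_5 p227_23))),
   s3_7 (s2_6 (s1_4 (s0_5 p228_23))),
   tr p229_15,
   tr p230_15],
  [tr p231_15,
   tr p232_15,
   tr p233_15,
   tr p234_15,
   tr p235_15,
   tr p236_15,
   tr p237_15,
   p238_15],
  [s3_7 (s2_6 (s1_4 (s0_5 p231_23))),
   s3_7 (s2_6 (s1_4 (s0_5 p232_23))),
   s3_7 (s2_6 (s1_4 (s0_5 p235_23))),
   s3_7 (s2_6 (s1_4 (s0_5 p236_23))),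
   s3_7 (s2_6 (s1_4 (s0_5 p233_23))),
   s3_7 (s2_6 (s1_4 (s0_5 p234_23))),
   s3_7 (s2_6 (s1_4 (s0_5 p237_23))),
   p238_23],
  [tr p239_15,
   tr p240_15,
   p238_26,
   p238_27,
   p238_28,
   p238_29,
   tr p243_15,
   tr p244_15],
  [tr p245_15,
   tr p246_15,
   p238_34,
   p238_35,
   p238_36,
   p238_37,
   tr p249_15,
   tr p250_15],
  [p238_40,
   p238_41,
   p238_42,
   p238_43,
   p238_44,
   p238_45,
   p238_46,
   p238_47],
  [p238_48,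
   p238_49,
   p238_50,
   p238_51,
   p238_52,
   p238_53,
   p238_54,
   p238_55],
  [tr p259_15,
   tr p260_15,
   p238_58,
   p238_59,
   p238_60,
   p238_61,
   tr p263_15,
   tr p264_15]]

theorem k238 : eqNN c238 (slO 64 (D.chG 29 15) 8) = true := by decide +kernel

/-- The slices of the chunk 239. -/
noncomputable def c239 : List (List ℕ) := [
  [tr p225_24,
   tr p226_24,
   p239_2,
   p239_3,
   s4_5 (s0_1 p239_2),
   s4_5 (s0_1 p239_3),
   tr p229_24,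
   tr p230_24],
  [p239_8,
   p239_9,
   p239_10,
   p239_11,
   p239_12,
   p239_13,
   p239_14,
   p239_15],
  [s4_5 (s0_1 p239_8),
   s4_5 (s0_1 p239_9),
   s4_5 (s0_1 p239_12),
   s4_5 (s0_1 p239_13),
   s4_5 (s0_1 p239_10),
   s4_5 (s0_1 p239_11),
   s4_5 (s0_1 p239_14),
   s4_5 (s0_1 p239_15)],
  [p239_24,
   p239_25,
   p239_26,
   p239_27,
   s4_5 (s0_1 p239_26),
   s4_5 (s0_1 p239_27),
   p239_30,
   p239_31],
  [p239_32,
   p239_33,
   p239_34,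
   p239_35,
   s4_5 (s0_1 p239_34),
   s4_5 (s0_1 p239_35),
   p239_38,
   p239_39],
  [p239_40,
   p239_41,
   p239_42,
   p239_43,
   p239_44,
   p239_45,
   p239_46,
   p239_47],
  [s4_5 (s0_1 p239_40),
   s4_5 (s0_1 p239_41),
   s4_5 (s0_1 p239_44),
   s4_5 (s0_1 p239_45),
   s4_5 (s0_1 p239_42),
   s4_5 (s0_1 p239_43),
   s4_5 (s0_1 p239_46),
   s4_5 (s0_1 p239_47)],
  [p239_56,
   p239_57,
   p239_58,
   p239_59,
   s4_5 (s0_1 p239_58),
   s4_5 (s0_1 p239_59),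
   p239_62,
   p239_63]]

theorem k239 : eqNN c239 (slO 64 (D.chG 29 24) 8) = true := by decide +kernel

end Pool.Agent.Lib.MP_afdd4d_co.K10.E6
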