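import Pool.Agent.Lib.MP_afdd4d_co.K10.E6.Dat
import Pool.Agent.Lib.MP_afdd4d_co.K10.E6.Mk
import Pool.Agent.Lib.MP_afdd4d_co.K8.F6Bl5
import Pool.Agent.Lib.MP_afdd4d_co.K10.E6.P0
import Pool.Agent.Lib.MP_afdd4d_co.K10.E6.P1
import Pool.Agent.Lib.MP_afdd4d_co.K10.E6.P2
import Pool.Agent.Lib.MP_afdd4d_co.K10.E6.P3
import Pool.Agent.Lib.MP_afdd4d_co.K10.E6.P4
import Pool.Agent.Lib.MP_afdd4d_co.K10.E6.P5
import Pool.Agent.Lib.MP_afdd4d_co.K10.E6.P6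
import Pool.Agent.Lib.MP_afdd4d_co.K10.E6.P7
import Pool.Agent.Lib.MP_afdd4d_co.K10.E6.P8
import Pool.Agent.Lib.MP_afdd4d_co.K10.E6.P9
import Pool.Agent.Lib.MP_afdd4d_co.K10.E6.P10
import Pool.Agent.Lib.MP_afdd4d_co.K10.E6.P11
import Pool.Agent.Lib.MP_afdd4d_co.K10.E6.P12
import Pool.Agent.Lib.MP_afdd4d_co.K10.E6.P13
import Pool.Agent.Lib.MP_afdd4d_co.K10.E6.P14
import Pool.Agent.Lib.MP_afdd4d_co.K10.E6.P15
import Pool.Agent.Lib.MP_afdd4d_co.K10.E6.P16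
import Pool.Agent.Lib.MP_afdd4d_co.K10.E6.P17
import Pool.Agent.Lib.MP_afdd4d_co.K10.E6.P18
import Pool.Agent.Lib.MP_afdd4d_co.K10.E6.P19
import Pool.Agent.Lib.MP_afdd4d_co.K10.E6.P20
import Pool.Agent.Lib.MP_afdd4d_co.K10.E6.P21
import Pool.Agent.Lib.MP_afdd4d_co.K10.E6.P22
import Pool.Agent.Lib.MP_afdd4d_co.K10.E6.P23
import Pool.Agent.Lib.MP_afdd4d_co.K10.E6.P24
import Pool.Agent.Lib.MP_afdd4d_co.K10.E6.P25
import Pool.Agent.Lib.MP_afdd4d_co.K10.E6.P26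
import Pool.Agent.Lib.MP_afdd4d_co.K10.E6.P27
import Pool.Agent.Lib.MP_afdd4d_co.K10.E6.P28
import Pool.Agent.Lib.MP_afdd4d_co.K10.E6.P29
import Pool.Agent.Lib.MP_afdd4d_co.K10.E6.P30
import Pool.Agent.Lib.MP_afdd4d_co.K10.E6.P31
import Pool.Agent.Lib.MP_afdd4d_co.K10.E6.P32

/-!
# Tables
-/

namespace Pool.Agent.Lib.MP_afdd4d_co.K10.E6

open K8

set_option maxRecDepth 100000
set_option exponentiation.threshold 10000000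

/-- The slices of the chunk 24. -/
noncomputable def c24 : List (List ℕ) := [
  [tr p23_1,
   p24_1,
   p24_2,
   p24_3,
   s4_5 (s0_1 p24_2),
   s4_5 (s0_1 p24_3),
   p24_6,
   p24_7],
  [s6_7 (s2_3 p24_2),
   s6_7 (s2_3 p24_3),
   p24_10,
   p24_11,
   p24_12,
   p24_13,
   p24_14,
   p24_15],
  [s6_7 (s4_5 (s2_3 (s0_1 p24_2))),
   s6_7 (s4_5 (s2_3 (s0_1 p24_3))),
   s6_7 (s2_3 p24_12),
   s6_7 (s2_3 p24_13),
   s4_5 (s0_1 p24_10),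
   s4_5 (s0_1 p24_11),
   s4_5 (s0_1 p24_14),
   s4_5 (s0_1 p24_15)],
  [s6_7 (s2_3 p24_6),
   s6_7 (s2_3 p24_7),
   s6_7 (s2_3 p24_14),
   s6_7 (s2_3 p24_15),
   s6_7 (s4_5 (s2_3 (s0_1 p24_14))),
   s6_7 (s4_5 (s2_3 (s0_1 p24_15))),
   p24_30,
   p24_31],
  [p24_32,
   p24_33,
   p24_34,
   p24_35,
   s4_5 (s0_1 p24_34),
   s4_5 (s0_1 p24_35),
   p24_38,
   p24_39],
  [s6_7 (s2_3 p24_34),
   s6_7 (s2_3 p24_35),
   p24_42,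
   p24_43,
   p24_44,
   p24_45,
   p24_46,
   p24_47],
  [s6_7 (s4_5 (s2_3 (s0_1 p24_34))),
   s6_7 (s4_5 (s2_3 (s0_1 p24_35))),
   s6_7 (s2_3 p24_44),
   s6_7 (s2_3 p24_45),
   s4_5 (s0_1 p24_42),
   s4_5 (s0_1 p24_43),
   s4_5 (s0_1 p24_46),
   s4_5 (s0_1 p24_47)],
  [s6_7 (s2_3 p24_38),
   s6_7 (s2_3 p24_39),
   s6_7 (s2_3 p24_46),
   s6_7 (s2_3 p24_47),
   s6_7 (s4_5 (s2_3 (s0_1 p24_46))),
   s6_7 (s4_5 (s2_3 (s0_1 p24_47))),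
   p24_62,
   p24_63]]

theorem k24 : eqNN c24 (slO 64 (D.chG 3 1) 8) = true := by decide +kernel

/-- The slices of the chunk 25. -/
noncomputable def c25 : List (List ℕ) := [
  [tr p23_2,
   tr p24_2,
   p25_2,
   p25_3,
   p25_4,
   p25_5,
   tr p27_2,
   tr p28_2],
  [p25_8,
   p25_9,
   tr p29_2,
   tr p30_2,
   p25_12,
   p25_13,
   p25_14,
   p25_15],
  [p25_16,
   p25_17,
   p25_18,
   p25_19,
   s3_7 (s2_6 (s1_4 (s0_5 p29_4))),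
   s3_7 (s2_6 (s1_4 (s0_5 p30_4))),
   p25_22,
   p25_23],
  [s3_6 (s2_7 (s1_5 (s0_4 p27_8))),
   s3_6 (s2_7 (s1_5 (s0_4 p28_8))),
   p25_26,
   p25_27,
   p25_28,
   p25_29,
   tr p35_2,
   tr p36_2],
  [tr p37_2,
   tr p38_2,
   p25_34,
   p25_35,
   p25_36,
   p25_37,
   tr p41_2,
   tr p42_2],
  [p25_40,
   p25_41,
   tr p43_2,
   tr p44_2,
   p25_44,
   p25_45,
   p25_46,
   p25_47],
  [p25_48,
   p25_49,
   p25_50,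
   p25_51,
   s3_7 (s2_6 (s1_4 (s0_5 p43_4))),
   s3_7 (s2_6 (s1_4 (s0_5 p44_4))),
   p25_54,
   p25_55],
  [s3_6 (s2_7 (s1_5 (s0_4 p41_8))),
   s3_6 (s2_7 (s1_5 (s0_4 p42_8))),
   p25_58,
   p25_59,
   p25_60,
   p25_61,
   tr p49_2,
   tr p50_2]]

theorem k25 : eqNN c25 (slO 64 (D.chG 3 2) 8) = true := by decide +kernel

/-- The slices of the chunk 26. -/
noncomputable def c26 : List (List ℕ) := [
  [tr p23_3,
   tr p24_3,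
   tr p25_3,
   p26_3,
   s3_7 (s2_6 (s1_4 (s0_5 p25_5))),
   p26_5,
   tr p27_3,
   tr p28_3],
  [s3_6 (s2_7 (s1_5 (s0_4 p25_9))),
   p26_9,
   tr p29_3,
   tr p30_3,
   p26_12,
   p26_13,
   p26_14,
   p26_15],
  [s3_6 (s2_7 (s1_4 (s0_5 p25_17))),
   p26_17,
   p26_18,
   p26_19,
   s3_7 (s2_6 (s1_4 (s0_5 p29_5))),
   s3_7 (s2_6 (s1_4 (s0_5 p30_5))),
   p26_22,
   p26_23],
  [s3_6 (s2_7 (s1_5 (s0_4 p27_9))),
   s3_6 (s2_7 (s1_5 (s0_4 p28_9))),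
   p26_26,
   p26_27,
   p26_28,
   p26_29,
   tr p35_3,
   tr p36_3],
  [tr p37_3,
   tr p38_3,
   p26_34,
   p26_35,
   p26_36,
   p26_37,
   tr p41_3,
   tr p42_3],
  [p26_40,
   p26_41,
   tr p43_3,
   tr p44_3,
   p26_44,
   p26_45,
   p26_46,
   p26_47],
  [p26_48,
   p26_49,
   p26_50,
   p26_51,
   s3_7 (s2_6 (s1_4 (s0_5 p43_5))),
   s3_7 (s2_6 (s1_4 (s0_5 p44_5))),
   p26_54,
   p26_55],
  [s3_6 (s2_7 (s1_5 (s0_4 p41_9))),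
   s3_6 (s2_7 (s1_5 (s0_4 p42_9))),
   p26_58,
   p26_59,
   p26_60,
   p26_61,
   tr p49_3,
   tr p50_3]]

theorem k26 : eqNN c26 (slO 64 (D.chG 3 3) 8) = true := by decide +kernel

/-- The slices of the chunk 27. -/
noncomputable def c27 : List (List ℕ) := [
  [tr p23_6,
   tr p24_6,
   p27_2,
   p27_3,
   s4_5 (s0_1 p27_2),
   s4_5 (s0_1 p27_3),
   p27_6,
   p27_7],
  [p27_8,
   p27_9,
   p27_10,
   p27_11,
   p27_12,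
   p27_13,
   p27_14,
   p27_15],
  [s4_5 (s0_1 p27_8),
   s4_5 (s0_1 p27_9),
   s4_5 (s0_1 p27_12),
   s4_5 (s0_1 p27_13),
   s4_5 (s0_1 p27_10),
   s4_5 (s0_1 p27_11),
   s4_5 (s0_1 p27_14),
   s4_5 (s0_1 p27_15)],
  [p27_24,
   p27_25,
   p27_26,
   p27_27,
   s4_5 (s0_1 p27_26),
   s4_5 (s0_1 p27_27),
   tr p35_6,
   tr p36_6],
  [tr p37_6,
   tr p38_6,
   p27_34,
   p27_35,
   s4_5 (s0_1 p27_34),
   s4_5 (s0_1 p27_35),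
   p27_38,
   p27_39],
  [p27_40,
   p27_41,
   p27_42,
   p27_43,
   p27_44,
   p27_45,
   p27_46,
   p27_47],
  [s4_5 (s0_1 p27_40),
   s4_5 (s0_1 p27_41),
   s4_5 (s0_1 p27_44),
   s4_5 (s0_1 p27_45),
   s4_5 (s0_1 p27_42),
   s4_5 (s0_1 p27_43),
   s4_5 (s0_1 p27_46),
   s4_5 (s0_1 p27_47)],
  [p27_56,
   p27_57,
   p27_58,
   p27_59,
   s4_5 (s0_1 p27_58),
   s4_5 (s0_1 p27_59),
   tr p49_6,
   tr p50_6]]

theorem k27 : eqNN c27 (slO 64 (D.chG 3 6) 8) = true := by decide +kernel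

end Pool.Agent.Lib.MP_afdd4d_co.K10.E6
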