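import Pool.Agent.Lib.MP_afdd4d_co.K10.E6.Dat
import Pool.Agent.Lib.MP_afdd4d_co.K10.E6.Mk
import Pool.Agent.Lib.MP_afdd4d_co.K8.F6Bl5
import Pool.Agent.Lib.MP_afdd4d_co.K10.E6.P0
import Pool.Agent.Lib.MP_afdd4d_co.K10.E6.P1
import Pool.Agent.Lib.MP_afdd4d_co.K10.E6.P2
import Pool.Agent.Lib.MP_afdd4d_co.K10.E6.P3
import Pool.Agent.Lib.MP_afdd4d_co.K10.E6.P4
import Pool.Agent.Lib.MP_afdd4d_co.K10.E6.P5
import Pool.Agent.Lib.MP_afdd4d_co.K10.E6.P6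
import Pool.Agent.Lib.MP_afdd4d_co.K10.E6.P7
import Pool.Agent.Lib.MP_afdd4d_co.K10.E6.P8
import Pool.Agent.Lib.MP_afdd4d_co.K10.E6.P9
import Pool.Agent.Lib.MP_afdd4d_co.K10.E6.P10
import Pool.Agent.Lib.MP_afdd4d_co.K10.E6.P11
import Pool.Agent.Lib.MP_afdd4d_co.K10.E6.P12
import Pool.Agent.Lib.MP_afdd4d_co.K10.E6.P13
import Pool.Agent.Lib.MP_afdd4d_co.K10.E6.P14
import Pool.Agent.Lib.MP_afdd4d_co.K10.E6.P15
import Pool.Agent.Lib.MP_afdd4d_co.K10.E6.P16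
import Pool.Agent.Lib.MP_afdd4d_co.K10.E6.P17
import Pool.Agent.Lib.MP_afdd4d_co.K10.E6.P18
import Pool.Agent.Lib.MP_afdd4d_co.K10.E6.P19
import Pool.Agent.Lib.MP_afdd4d_co.K10.E6.P20
import Pool.Agent.Lib.MP_afdd4d_co.K10.E6.P21
import Pool.Agent.Lib.MP_afdd4d_co.K10.E6.P22
import Pool.Agent.Lib.MP_afdd4d_co.K10.E6.P23
import Pool.Agent.Lib.MP_afdd4d_co.K10.E6.P24
import Pool.Agent.Lib.MP_afdd4d_co.K10.E6.P25
import Pool.Agent.Lib.MP_afdd4d_co.K10.E6.P26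
import Pool.Agent.Lib.MP_afdd4d_co.K10.E6.P27
import Pool.Agent.Lib.MP_afdd4d_co.K10.E6.P28
import Pool.Agent.Lib.MP_afdd4d_co.K10.E6.P29
import Pool.Agent.Lib.MP_afdd4d_co.K10.E6.P30
import Pool.Agent.Lib.MP_afdd4d_co.K10.E6.P31
import Pool.Agent.Lib.MP_afdd4d_co.K10.E6.P32

/-!
# Tables
-/

namespace Pool.Agent.Lib.MP_afdd4d_co.K10.E6

open K8

set_option maxRecDepth 100000
set_option exponentiation.threshold 10000000

/-- The slices of the chunk 240. -/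
noncomputable def c240 : List (List ℕ) := [
  [tr p225_25,
   tr p226_25,
   p240_2,
   p240_3,
   s4_5 (s0_1 p240_2),
   s4_5 (s0_1 p240_3),
   tr p229_25,
   tr p230_25],
  [p240_8,
   p240_9,
   p240_10,
   p240_11,
   p240_12,
   p240_13,
   p240_14,
   p240_15],
  [s4_5 (s0_1 p240_8),
   s4_5 (s0_1 p240_9),
   s4_5 (s0_1 p240_12),
   s4_5 (s0_1 p240_13),
   s4_5 (s0_1 p240_10),
   s4_5 (s0_1 p240_11),
   s4_5 (s0_1 p240_14),
   s4_5 (s0_1 p240_15)],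
  [tr p239_25,
   p240_25,
   p240_26,
   p240_27,
   s4_5 (s0_1 p240_26),
   s4_5 (s0_1 p240_27),
   p240_30,
   p240_31],
  [p240_32,
   p240_33,
   p240_34,
   p240_35,
   s4_5 (s0_1 p240_34),
   s4_5 (s0_1 p240_35),
   p240_38,
   p240_39],
  [p240_40,
   p240_41,
   p240_42,
   p240_43,
   p240_44,
   p240_45,
   p240_46,
   p240_47],
  [s4_5 (s0_1 p240_40),
   s4_5 (s0_1 p240_41),
   s4_5 (s0_1 p240_44),
   s4_5 (s0_1 p240_45),
   s4_5 (s0_1 p240_42),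
   s4_5 (s0_1 p240_43),
   s4_5 (s0_1 p240_46),
   s4_5 (s0_1 p240_47)],
  [p240_56,
   p240_57,
   p240_58,
   p240_59,
   s4_5 (s0_1 p240_58),
   s4_5 (s0_1 p240_59),
   p240_62,
   p240_63]]

theorem k240 : eqNN c240 (slO 64 (D.chG 29 25) 8) = true := by decide +kernel

/-- The slices of the chunk 241. -/
noncomputable def c241 : List (List ℕ) := [
  [tr p225_26,
   tr p226_26,
   tr p227_26,
   tr p228_26,
   s3_7 (s2_6 (s1_4 (s0_5 p227_28))),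
   s3_7 (s2_6 (s1_4 (s0_5 p228_28))),
   tr p229_26,
   tr p230_26],
  [tr p231_26,
   tr p232_26,
   tr p233_26,
   tr p234_26,
   tr p235_26,
   tr p236_26,
   tr p237_26,
   tr p238_26],
  [s3_7 (s2_6 (s1_4 (s0_5 p231_28))),
   s3_7 (s2_6 (s1_4 (s0_5 p232_28))),
   s3_7 (s2_6 (s1_4 (s0_5 p235_28))),
   s3_7 (s2_6 (s1_4 (s0_5 p236_28))),
   s3_7 (s2_6 (s1_4 (s0_5 p233_28))),
   s3_7 (s2_6 (s1_4 (s0_5 p234_28))),
   s3_7 (s2_6 (s1_4 (s0_5 p237_28))),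
   s3_7 (s2_6 (s1_4 (s0_5 p238_28)))],
  [tr p239_26,
   tr p240_26,
   p241_26,
   p241_27,
   p241_28,
   p241_29,
   tr p243_26,
   tr p244_26],
  [tr p245_26,
   tr p246_26,
   p241_34,
   p241_35,
   p241_36,
   p241_37,
   tr p249_26,
   tr p250_26],
  [p241_40,
   p241_41,
   p241_42,
   p241_43,
   p241_44,
   p241_45,
   p241_46,
   p241_47],
  [p241_48,
   p241_49,
   p241_50,
   p241_51,
   p241_52,
   p241_53,
   p241_54,
   p241_55],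
  [tr p259_26,
   tr p260_26,
   p241_58,
   p241_59,
   p241_60,
   p241_61,
   tr p263_26,
   tr p264_26]]

theorem k241 : eqNN c241 (slO 64 (D.chG 29 26) 8) = true := by decide +kernel

/-- The slices of the chunk 242. -/
noncomputable def c242 : List (List ℕ) := [
  [tr p225_27,
   tr p226_27,
   tr p227_27,
   tr p228_27,
   s3_7 (s2_6 (s1_4 (s0_5 p227_29))),
   s3_7 (s2_6 (s1_4 (s0_5 p228_29))),
   tr p229_27,
   tr p230_27],
  [tr p231_27,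
   tr p232_27,
   tr p233_27,
   tr p234_27,
   tr p235_27,
   tr p236_27,
   tr p237_27,
   tr p238_27],
  [s3_7 (s2_6 (s1_4 (s0_5 p231_29))),
   s3_7 (s2_6 (s1_4 (s0_5 p232_29))),
   s3_7 (s2_6 (s1_4 (s0_5 p235_29))),
   s3_7 (s2_6 (s1_4 (s0_5 p236_29))),
   s3_7 (s2_6 (s1_4 (s0_5 p233_29))),
   s3_7 (s2_6 (s1_4 (s0_5 p234_29))),
   s3_7 (s2_6 (s1_4 (s0_5 p237_29))),
   s3_7 (s2_6 (s1_4 (s0_5 p238_29)))],
  [tr p239_27,
   tr p240_27,
   tr p241_27,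
   p242_27,
   s3_7 (s2_6 (s1_4 (s0_5 p241_29))),
   p242_29,
   tr p243_27,
   tr p244_27],
  [tr p245_27,
   tr p246_27,
   p242_34,
   p242_35,
   p242_36,
   p242_37,
   tr p249_27,
   tr p250_27],
  [p242_40,
   p242_41,
   p242_42,
   p242_43,
   p242_44,
   p242_45,
   p242_46,
   p242_47],
  [p242_48,
   p242_49,
   p242_50,
   p242_51,
   p242_52,
   p242_53,
   p242_54,
   p242_55],
  [tr p259_27,
   tr p260_27,
   p242_58,
   p242_59,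
   p242_60,
   p242_61,
   tr p263_27,
   tr p264_27]]

theorem k242 : eqNN c242 (slO 64 (D.chG 29 27) 8) = true := by decide +kernel

/-- The slices of the chunk 243. -/
noncomputable def c243 : List (List ℕ) := [
  [tr p225_30,
   tr p226_30,
   p243_2,
   p243_3,
   s4_5 (s0_1 p243_2),
   s4_5 (s0_1 p243_3),
   tr p229_30,
   tr p230_30],
  [p243_8,
   p243_9,
   p243_10,
   p243_11,
   p243_12,
   p243_13,
   p243_14,
   p243_15],
  [s4_5 (s0_1 p243_8),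
   s4_5 (s0_1 p243_9),
   s4_5 (s0_1 p243_12),
   s4_5 (s0_1 p243_13),
   s4_5 (s0_1 p243_10),
   s4_5 (s0_1 p243_11),
   s4_5 (s0_1 p243_14),
   s4_5 (s0_1 p243_15)],
  [tr p239_30,
   tr p240_30,
   p243_26,
   p243_27,
   s4_5 (s0_1 p243_26),
   s4_5 (s0_1 p243_27),
   p243_30,
   p243_31],
  [p243_32,
   p243_33,
   p243_34,
   p243_35,
   s4_5 (s0_1 p243_34),
   s4_5 (s0_1 p243_35),
   p243_38,
   p243_39],
  [p243_40,
   p243_41,
   p243_42,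
   p243_43,
   p243_44,
   p243_45,
   p243_46,
   p243_47],
  [s4_5 (s0_1 p243_40),
   s4_5 (s0_1 p243_41),
   s4_5 (s0_1 p243_44),
   s4_5 (s0_1 p243_45),
   s4_5 (s0_1 p243_42),
   s4_5 (s0_1 p243_43),
   s4_5 (s0_1 p243_46),
   s4_5 (s0_1 p243_47)],
  [p243_56,
   p243_57,
   p243_58,
   p243_59,
   s4_5 (s0_1 p243_58),
   s4_5 (s0_1 p243_59),
   p243_62,
   p243_63]]

theorem k243 : eqNN c243 (slO 64 (D.chG 29 30) 8) = true := by decide +kernel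

end Pool.Agent.Lib.MP_afdd4d_co.K10.E6
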