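import Pool.Agent.Lib.MP_afdd4d_co.K10.E6.Dat
import Pool.Agent.Lib.MP_afdd4d_co.K10.E6.Mk
import Pool.Agent.Lib.MP_afdd4d_co.K8.F6Bl5
import Pool.Agent.Lib.MP_afdd4d_co.K10.E6.P0
import Pool.Agent.Lib.MP_afdd4d_co.K10.E6.P1
import Pool.Agent.Lib.MP_afdd4d_co.K10.E6.P2
import Pool.Agent.Lib.MP_afdd4d_co.K10.E6.P3
import Pool.Agent.Lib.MP_afdd4d_co.K10.E6.P4
import Pool.Agent.Lib.MP_afdd4d_co.K10.E6.P5
import Pool.Agent.Lib.MP_afdd4d_co.K10.E6.P6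
import Pool.Agent.Lib.MP_afdd4d_co.K10.E6.P7
import Pool.Agent.Lib.MP_afdd4d_co.K10.E6.P8
import Pool.Agent.Lib.MP_afdd4d_co.K10.E6.P9
import Pool.Agent.Lib.MP_afdd4d_co.K10.E6.P10
import Pool.Agent.Lib.MP_afdd4d_co.K10.E6.P11
import Pool.Agent.Lib.MP_afdd4d_co.K10.E6.P12
import Pool.Agent.Lib.MP_afdd4d_co.K10.E6.P13
import Pool.Agent.Lib.MP_afdd4d_co.K10.E6.P14
import Pool.Agent.Lib.MP_afdd4d_co.K10.E6.P15
import Pool.Agent.Lib.MP_afdd4d_co.K10.E6.P16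
import Pool.Agent.Lib.MP_afdd4d_co.K10.E6.P17
import Pool.Agent.Lib.MP_afdd4d_co.K10.E6.P18
import Pool.Agent.Lib.MP_afdd4d_co.K10.E6.P19
import Pool.Agent.Lib.MP_afdd4d_co.K10.E6.P20
import Pool.Agent.Lib.MP_afdd4d_co.K10.E6.P21
import Pool.Agent.Lib.MP_afdd4d_co.K10.E6.P22
import Pool.Agent.Lib.MP_afdd4d_co.K10.E6.P23
import Pool.Agent.Lib.MP_afdd4d_co.K10.E6.P24
import Pool.Agent.Lib.MP_afdd4d_co.K10.E6.P25
import Pool.Agent.Lib.MP_afdd4d_co.K10.E6.P26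
import Pool.Agent.Lib.MP_afdd4d_co.K10.E6.P27
import Pool.Agent.Lib.MP_afdd4d_co.K10.E6.P28
import Pool.Agent.Lib.MP_afdd4d_co.K10.E6.P29
import Pool.Agent.Lib.MP_afdd4d_co.K10.E6.P30
import Pool.Agent.Lib.MP_afdd4d_co.K10.E6.P31
import Pool.Agent.Lib.MP_afdd4d_co.K10.E6.P32

/-!
# Tables
-/

namespace Pool.Agent.Lib.MP_afdd4d_co.K10.E6

open K8

set_option maxRecDepth 100000
set_option exponentiation.threshold 10000000

/-- The slices of the chunk 244. -/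
noncomputable def c244 : List (List ℕ) := [
  [tr p225_31,
   tr p226_31,
   p244_2,
   p244_3,
   s4_5 (s0_1 p244_2),
   s4_5 (s0_1 p244_3),
   tr p229_31,
   tr p230_31],
  [p244_8,
   p244_9,
   p244_10,
   p244_11,
   p244_12,
   p244_13,
   p244_14,
   p244_15],
  [s4_5 (s0_1 p244_8),
   s4_5 (s0_1 p244_9),
   s4_5 (s0_1 p244_12),
   s4_5 (s0_1 p244_13),
   s4_5 (s0_1 p244_10),
   s4_5 (s0_1 p244_11),
   s4_5 (s0_1 p244_14),
   s4_5 (s0_1 p244_15)],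
  [tr p239_31,
   tr p240_31,
   p244_26,
   p244_27,
   s4_5 (s0_1 p244_26),
   s4_5 (s0_1 p244_27),
   tr p243_31,
   p244_31],
  [p244_32,
   p244_33,
   p244_34,
   p244_35,
   s4_5 (s0_1 p244_34),
   s4_5 (s0_1 p244_35),
   p244_38,
   p244_39],
  [p244_40,
   p244_41,
   p244_42,
   p244_43,
   p244_44,
   p244_45,
   p244_46,
   p244_47],
  [s4_5 (s0_1 p244_40),
   s4_5 (s0_1 p244_41),
   s4_5 (s0_1 p244_44),
   s4_5 (s0_1 p244_45),
   s4_5 (s0_1 p244_42),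
   s4_5 (s0_1 p244_43),
   s4_5 (s0_1 p244_46),
   s4_5 (s0_1 p244_47)],
  [p244_56,
   p244_57,
   p244_58,
   p244_59,
   s4_5 (s0_1 p244_58),
   s4_5 (s0_1 p244_59),
   p244_62,
   p244_63]]

theorem k244 : eqNN c244 (slO 64 (D.chG 29 31) 8) = true := by decide +kernel

/-- The slices of the chunk 245. -/
noncomputable def c245 : List (List ℕ) := [
  [tr p225_32,
   tr p226_32,
   p245_2,
   p245_3,
   s4_5 (s0_1 p245_2),
   s4_5 (s0_1 p245_3),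
   tr p229_32,
   tr p230_32],
  [p245_8,
   p245_9,
   p245_10,
   p245_11,
   p245_12,
   p245_13,
   p245_14,
   p245_15],
  [s4_5 (s0_1 p245_8),
   s4_5 (s0_1 p245_9),
   s4_5 (s0_1 p245_12),
   s4_5 (s0_1 p245_13),
   s4_5 (s0_1 p245_10),
   s4_5 (s0_1 p245_11),
   s4_5 (s0_1 p245_14),
   s4_5 (s0_1 p245_15)],
  [tr p239_32,
   tr p240_32,
   p245_26,
   p245_27,
   s4_5 (s0_1 p245_26),
   s4_5 (s0_1 p245_27),
   tr p243_32,
   tr p244_32],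
  [p245_32,
   p245_33,
   p245_34,
   p245_35,
   s4_5 (s0_1 p245_34),
   s4_5 (s0_1 p245_35),
   p245_38,
   p245_39],
  [p245_40,
   p245_41,
   p245_42,
   p245_43,
   p245_44,
   p245_45,
   p245_46,
   p245_47],
  [s4_5 (s0_1 p245_40),
   s4_5 (s0_1 p245_41),
   s4_5 (s0_1 p245_44),
   s4_5 (s0_1 p245_45),
   s4_5 (s0_1 p245_42),
   s4_5 (s0_1 p245_43),
   s4_5 (s0_1 p245_46),
   s4_5 (s0_1 p245_47)],
  [p245_56,
   p245_57,
   p245_58,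
   p245_59,
   s4_5 (s0_1 p245_58),
   s4_5 (s0_1 p245_59),
   p245_62,
   p245_63]]

theorem k245 : eqNN c245 (slO 64 (D.chG 29 32) 8) = true := by decide +kernel

/-- The slices of the chunk 246. -/
noncomputable def c246 : List (List ℕ) := [
  [tr p225_33,
   tr p226_33,
   p246_2,
   p246_3,
   s4_5 (s0_1 p246_2),
   s4_5 (s0_1 p246_3),
   tr p229_33,
   tr p230_33],
  [p246_8,
   p246_9,
   p246_10,
   p246_11,
   p246_12,
   p246_13,
   p246_14,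
   p246_15],
  [s4_5 (s0_1 p246_8),
   s4_5 (s0_1 p246_9),
   s4_5 (s0_1 p246_12),
   s4_5 (s0_1 p246_13),
   s4_5 (s0_1 p246_10),
   s4_5 (s0_1 p246_11),
   s4_5 (s0_1 p246_14),
   s4_5 (s0_1 p246_15)],
  [tr p239_33,
   tr p240_33,
   p246_26,
   p246_27,
   s4_5 (s0_1 p246_26),
   s4_5 (s0_1 p246_27),
   tr p243_33,
   tr p244_33],
  [tr p245_33,
   p246_33,
   p246_34,
   p246_35,
   s4_5 (s0_1 p246_34),
   s4_5 (s0_1 p246_35),
   p246_38,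
   p246_39],
  [p246_40,
   p246_41,
   p246_42,
   p246_43,
   p246_44,
   p246_45,
   p246_46,
   p246_47],
  [s4_5 (s0_1 p246_40),
   s4_5 (s0_1 p246_41),
   s4_5 (s0_1 p246_44),
   s4_5 (s0_1 p246_45),
   s4_5 (s0_1 p246_42),
   s4_5 (s0_1 p246_43),
   s4_5 (s0_1 p246_46),
   s4_5 (s0_1 p246_47)],
  [p246_56,
   p246_57,
   p246_58,
   p246_59,
   s4_5 (s0_1 p246_58),
   s4_5 (s0_1 p246_59),
   p246_62,
   p246_63]]

theorem k246 : eqNN c246 (slO 64 (D.chG 29 33) 8) = true := by decide +kernel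

/-- The slices of the chunk 247. -/
noncomputable def c247 : List (List ℕ) := [
  [tr p225_34,
   tr p226_34,
   tr p227_34,
   tr p228_34,
   s3_7 (s2_6 (s1_4 (s0_5 p227_36))),
   s3_7 (s2_6 (s1_4 (s0_5 p228_36))),
   tr p229_34,
   tr p230_34],
  [tr p231_34,
   tr p232_34,
   tr p233_34,
   tr p234_34,
   tr p235_34,
   tr p236_34,
   tr p237_34,
   tr p238_34],
  [s3_7 (s2_6 (s1_4 (s0_5 p231_36))),
   s3_7 (s2_6 (s1_4 (s0_5 p232_36))),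
   s3_7 (s2_6 (s1_4 (s0_5 p235_36))),
   s3_7 (s2_6 (s1_4 (s0_5 p236_36))),
   s3_7 (s2_6 (s1_4 (s0_5 p233_36))),
   s3_7 (s2_6 (s1_4 (s0_5 p234_36))),
   s3_7 (s2_6 (s1_4 (s0_5 p237_36))),
   s3_7 (s2_6 (s1_4 (s0_5 p238_36)))],
  [tr p239_34,
   tr p240_34,
   tr p241_34,
   tr p242_34,
   s3_7 (s2_6 (s1_4 (s0_5 p241_36))),
   s3_7 (s2_6 (s1_4 (s0_5 p242_36))),
   tr p243_34,
   tr p244_34],
  [tr p245_34,
   tr p246_34,
   p247_34,
   p247_35,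
   p247_36,
   p247_37,
   tr p249_34,
   tr p250_34],
  [p247_40,
   p247_41,
   p247_42,
   p247_43,
   p247_44,
   p247_45,
   p247_46,
   p247_47],
  [p247_48,
   p247_49,
   p247_50,
   p247_51,
   p247_52,
   p247_53,
   p247_54,
   p247_55],
  [tr p259_34,
   tr p260_34,
   p247_58,
   p247_59,
   p247_60,
   p247_61,
   tr p263_34,
   tr p264_34]]

theorem k247 : eqNN c247 (slO 64 (D.chG 29 34) 8) = true := by decide +kernel

end Pool.Agent.Lib.MP_afdd4d_co.K10.E6
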