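import Pool.Agent.Lib.MP_afdd4d_co.K10.E6.Dat
import Pool.Agent.Lib.MP_afdd4d_co.K10.E6.Mk
import Pool.Agent.Lib.MP_afdd4d_co.K8.F6Bl5
import Pool.Agent.Lib.MP_afdd4d_co.K10.E6.P0
import Pool.Agent.Lib.MP_afdd4d_co.K10.E6.P1
import Pool.Agent.Lib.MP_afdd4d_co.K10.E6.P2
import Pool.Agent.Lib.MP_afdd4d_co.K10.E6.P3
import Pool.Agent.Lib.MP_afdd4d_co.K10.E6.P4
import Pool.Agent.Lib.MP_afdd4d_co.K10.E6.P5
import Pool.Agent.Lib.MP_afdd4d_co.K10.E6.P6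
import Pool.Agent.Lib.MP_afdd4d_co.K10.E6.P7
import Pool.Agent.Lib.MP_afdd4d_co.K10.E6.P8
import Pool.Agent.Lib.MP_afdd4d_co.K10.E6.P9
import Pool.Agent.Lib.MP_afdd4d_co.K10.E6.P10
import Pool.Agent.Lib.MP_afdd4d_co.K10.E6.P11
import Pool.Agent.Lib.MP_afdd4d_co.K10.E6.P12
import Pool.Agent.Lib.MP_afdd4d_co.K10.E6.P13
import Pool.Agent.Lib.MP_afdd4d_co.K10.E6.P14
import Pool.Agent.Lib.MP_afdd4d_co.K10.E6.P15
import Pool.Agent.Lib.MP_afdd4d_co.K10.E6.P16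
import Pool.Agent.Lib.MP_afdd4d_co.K10.E6.P17
import Pool.Agent.Lib.MP_afdd4d_co.K10.E6.P18
import Pool.Agent.Lib.MP_afdd4d_co.K10.E6.P19
import Pool.Agent.Lib.MP_afdd4d_co.K10.E6.P20
import Pool.Agent.Lib.MP_afdd4d_co.K10.E6.P21
import Pool.Agent.Lib.MP_afdd4d_co.K10.E6.P22
import Pool.Agent.Lib.MP_afdd4d_co.K10.E6.P23
import Pool.Agent.Lib.MP_afdd4d_co.K10.E6.P24
import Pool.Agent.Lib.MP_afdd4d_co.K10.E6.P25
import Pool.Agent.Lib.MP_afdd4d_co.K10.E6.P26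
import Pool.Agent.Lib.MP_afdd4d_co.K10.E6.P27
import Pool.Agent.Lib.MP_afdd4d_co.K10.E6.P28
import Pool.Agent.Lib.MP_afdd4d_co.K10.E6.P29
import Pool.Agent.Lib.MP_afdd4d_co.K10.E6.P30
import Pool.Agent.Lib.MP_afdd4d_co.K10.E6.P31
import Pool.Agent.Lib.MP_afdd4d_co.K10.E6.P32

/-!
# Tables
-/

namespace Pool.Agent.Lib.MP_afdd4d_co.K10.E6

open K8

set_option maxRecDepth 100000
set_option exponentiation.threshold 10000000

/-- The slices of the chunk 248. -/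
noncomputable def c248 : List (List ℕ) := [
  [tr p225_35,
   tr p226_35,
   tr p227_35,
   tr p228_35,
   s3_7 (s2_6 (s1_4 (s0_5 p227_37))),
   s3_7 (s2_6 (s1_4 (s0_5 p228_37))),
   tr p229_35,
   tr p230_35],
  [tr p231_35,
   tr p232_35,
   tr p233_35,
   tr p234_35,
   tr p235_35,
   tr p236_35,
   tr p237_35,
   tr p238_35],
  [s3_7 (s2_6 (s1_4 (s0_5 p231_37))),
   s3_7 (s2_6 (s1_4 (s0_5 p232_37))),
   s3_7 (s2_6 (s1_4 (s0_5 p235_37))),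
   s3_7 (s2_6 (s1_4 (s0_5 p236_37))),
   s3_7 (s2_6 (s1_4 (s0_5 p233_37))),
   s3_7 (s2_6 (s1_4 (s0_5 p234_37))),
   s3_7 (s2_6 (s1_4 (s0_5 p237_37))),
   s3_7 (s2_6 (s1_4 (s0_5 p238_37)))],
  [tr p239_35,
   tr p240_35,
   tr p241_35,
   tr p242_35,
   s3_7 (s2_6 (s1_4 (s0_5 p241_37))),
   s3_7 (s2_6 (s1_4 (s0_5 p242_37))),
   tr p243_35,
   tr p244_35],
  [tr p245_35,
   tr p246_35,
   tr p247_35,
   p248_35,
   s3_7 (s2_6 (s1_4 (s0_5 p247_37))),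
   p248_37,
   tr p249_35,
   tr p250_35],
  [p248_40,
   p248_41,
   p248_42,
   p248_43,
   p248_44,
   p248_45,
   p248_46,
   p248_47],
  [p248_48,
   p248_49,
   p248_50,
   p248_51,
   p248_52,
   p248_53,
   p248_54,
   p248_55],
  [tr p259_35,
   tr p260_35,
   p248_58,
   p248_59,
   p248_60,
   p248_61,
   tr p263_35,
   tr p264_35]]

theorem k248 : eqNN c248 (slO 64 (D.chG 29 35) 8) = true := by decide +kernel

/-- The slices of the chunk 249. -/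
noncomputable def c249 : List (List ℕ) := [
  [tr p225_38,
   tr p226_38,
   p249_2,
   p249_3,
   s4_5 (s0_1 p249_2),
   s4_5 (s0_1 p249_3),
   tr p229_38,
   tr p230_38],
  [p249_8,
   p249_9,
   p249_10,
   p249_11,
   p249_12,
   p249_13,
   p249_14,
   p249_15],
  [s4_5 (s0_1 p249_8),
   s4_5 (s0_1 p249_9),
   s4_5 (s0_1 p249_12),
   s4_5 (s0_1 p249_13),
   s4_5 (s0_1 p249_10),
   s4_5 (s0_1 p249_11),
   s4_5 (s0_1 p249_14),
   s4_5 (s0_1 p249_15)],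
  [tr p239_38,
   tr p240_38,
   p249_26,
   p249_27,
   s4_5 (s0_1 p249_26),
   s4_5 (s0_1 p249_27),
   tr p243_38,
   tr p244_38],
  [tr p245_38,
   tr p246_38,
   p249_34,
   p249_35,
   s4_5 (s0_1 p249_34),
   s4_5 (s0_1 p249_35),
   p249_38,
   p249_39],
  [p249_40,
   p249_41,
   p249_42,
   p249_43,
   p249_44,
   p249_45,
   p249_46,
   p249_47],
  [s4_5 (s0_1 p249_40),
   s4_5 (s0_1 p249_41),
   s4_5 (s0_1 p249_44),
   s4_5 (s0_1 p249_45),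
   s4_5 (s0_1 p249_42),
   s4_5 (s0_1 p249_43),
   s4_5 (s0_1 p249_46),
   s4_5 (s0_1 p249_47)],
  [p249_56,
   p249_57,
   p249_58,
   p249_59,
   s4_5 (s0_1 p249_58),
   s4_5 (s0_1 p249_59),
   p249_62,
   p249_63]]

theorem k249 : eqNN c249 (slO 64 (D.chG 29 38) 8) = true := by decide +kernel

/-- The slices of the chunk 250. -/
noncomputable def c250 : List (List ℕ) := [
  [tr p225_39,
   tr p226_39,
   p250_2,
   p250_3,
   s4_5 (s0_1 p250_2),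
   s4_5 (s0_1 p250_3),
   tr p229_39,
   tr p230_39],
  [p250_8,
   p250_9,
   p250_10,
   p250_11,
   p250_12,
   p250_13,
   p250_14,
   p250_15],
  [s4_5 (s0_1 p250_8),
   s4_5 (s0_1 p250_9),
   s4_5 (s0_1 p250_12),
   s4_5 (s0_1 p250_13),
   s4_5 (s0_1 p250_10),
   s4_5 (s0_1 p250_11),
   s4_5 (s0_1 p250_14),
   s4_5 (s0_1 p250_15)],
  [tr p239_39,
   tr p240_39,
   p250_26,
   p250_27,
   s4_5 (s0_1 p250_26),
   s4_5 (s0_1 p250_27),
   tr p243_39,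
   tr p244_39],
  [tr p245_39,
   tr p246_39,
   p250_34,
   p250_35,
   s4_5 (s0_1 p250_34),
   s4_5 (s0_1 p250_35),
   tr p249_39,
   p250_39],
  [p250_40,
   p250_41,
   p250_42,
   p250_43,
   p250_44,
   p250_45,
   p250_46,
   p250_47],
  [s4_5 (s0_1 p250_40),
   s4_5 (s0_1 p250_41),
   s4_5 (s0_1 p250_44),
   s4_5 (s0_1 p250_45),
   s4_5 (s0_1 p250_42),
   s4_5 (s0_1 p250_43),
   s4_5 (s0_1 p250_46),
   s4_5 (s0_1 p250_47)],
  [p250_56,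
   p250_57,
   p250_58,
   p250_59,
   s4_5 (s0_1 p250_58),
   s4_5 (s0_1 p250_59),
   p250_62,
   p250_63]]

theorem k250 : eqNN c250 (slO 64 (D.chG 29 39) 8) = true := by decide +kernel

/-- The slices of the chunk 251. -/
noncomputable def c251 : List (List ℕ) := [
  [tr p225_40,
   tr p226_40,
   tr p227_40,
   tr p228_40,
   s3_7 (s2_6 (s1_4 (s0_5 p227_48))),
   s3_7 (s2_6 (s1_4 (s0_5 p228_48))),
   tr p229_40,
   tr p230_40],
  [tr p231_40,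
   tr p232_40,
   tr p233_40,
   tr p234_40,
   tr p235_40,
   tr p236_40,
   tr p237_40,
   tr p238_40],
  [s3_7 (s2_6 (s1_4 (s0_5 p231_48))),
   s3_7 (s2_6 (s1_4 (s0_5 p232_48))),
   s3_7 (s2_6 (s1_4 (s0_5 p235_48))),
   s3_7 (s2_6 (s1_4 (s0_5 p236_48))),
   s3_7 (s2_6 (s1_4 (s0_5 p233_48))),
   s3_7 (s2_6 (s1_4 (s0_5 p234_48))),
   s3_7 (s2_6 (s1_4 (s0_5 p237_48))),
   s3_7 (s2_6 (s1_4 (s0_5 p238_48)))],
  [tr p239_40,
   tr p240_40,
   tr p241_40,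
   tr p242_40,
   s3_7 (s2_6 (s1_4 (s0_5 p241_48))),
   s3_7 (s2_6 (s1_4 (s0_5 p242_48))),
   tr p243_40,
   tr p244_40],
  [tr p245_40,
   tr p246_40,
   tr p247_40,
   tr p248_40,
   s3_7 (s2_6 (s1_4 (s0_5 p247_48))),
   s3_7 (s2_6 (s1_4 (s0_5 p248_48))),
   tr p249_40,
   tr p250_40],
  [p251_40,
   p251_41,
   p251_42,
   p251_43,
   p251_44,
   p251_45,
   p251_46,
   p251_47],
  [p251_48,
   p251_49,
   p251_50,
   p251_51,
   p251_52,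
   p251_53,
   p251_54,
   p251_55],
  [tr p259_40,
   tr p260_40,
   p251_58,
   p251_59,
   p251_60,
   p251_61,
   tr p263_40,
   tr p264_40]]

theorem k251 : eqNN c251 (slO 64 (D.chG 29 40) 8) = true := by decide +kernel

end Pool.Agent.Lib.MP_afdd4d_co.K10.E6
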