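import Pool.Agent.Lib.MP_afdd4d_co.K10.E6.Dat
import Pool.Agent.Lib.MP_afdd4d_co.K10.E6.Mk
import Pool.Agent.Lib.MP_afdd4d_co.K8.F6Bl5
import Pool.Agent.Lib.MP_afdd4d_co.K10.E6.P0
import Pool.Agent.Lib.MP_afdd4d_co.K10.E6.P1
import Pool.Agent.Lib.MP_afdd4d_co.K10.E6.P2
import Pool.Agent.Lib.MP_afdd4d_co.K10.E6.P3
import Pool.Agent.Lib.MP_afdd4d_co.K10.E6.P4
import Pool.Agent.Lib.MP_afdd4d_co.K10.E6.P5
import Pool.Agent.Lib.MP_afdd4d_co.K10.E6.P6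
import Pool.Agent.Lib.MP_afdd4d_co.K10.E6.P7
import Pool.Agent.Lib.MP_afdd4d_co.K10.E6.P8
import Pool.Agent.Lib.MP_afdd4d_co.K10.E6.P9
import Pool.Agent.Lib.MP_afdd4d_co.K10.E6.P10
import Pool.Agent.Lib.MP_afdd4d_co.K10.E6.P11
import Pool.Agent.Lib.MP_afdd4d_co.K10.E6.P12
import Pool.Agent.Lib.MP_afdd4d_co.K10.E6.P13
import Pool.Agent.Lib.MP_afdd4d_co.K10.E6.P14
import Pool.Agent.Lib.MP_afdd4d_co.K10.E6.P15
import Pool.Agent.Lib.MP_afdd4d_co.K10.E6.P16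
import Pool.Agent.Lib.MP_afdd4d_co.K10.E6.P17
import Pool.Agent.Lib.MP_afdd4d_co.K10.E6.P18
import Pool.Agent.Lib.MP_afdd4d_co.K10.E6.P19
import Pool.Agent.Lib.MP_afdd4d_co.K10.E6.P20
import Pool.Agent.Lib.MP_afdd4d_co.K10.E6.P21
import Pool.Agent.Lib.MP_afdd4d_co.K10.E6.P22
import Pool.Agent.Lib.MP_afdd4d_co.K10.E6.P23
import Pool.Agent.Lib.MP_afdd4d_co.K10.E6.P24
import Pool.Agent.Lib.MP_afdd4d_co.K10.E6.P25
import Pool.Agent.Lib.MP_afdd4d_co.K10.E6.P26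
import Pool.Agent.Lib.MP_afdd4d_co.K10.E6.P27
import Pool.Agent.Lib.MP_afdd4d_co.K10.E6.P28
import Pool.Agent.Lib.MP_afdd4d_co.K10.E6.P29
import Pool.Agent.Lib.MP_afdd4d_co.K10.E6.P30
import Pool.Agent.Lib.MP_afdd4d_co.K10.E6.P31
import Pool.Agent.Lib.MP_afdd4d_co.K10.E6.P32

/-!
# Tables
-/

namespace Pool.Agent.Lib.MP_afdd4d_co.K10.E6

open K8

set_option maxRecDepth 100000
set_option exponentiation.threshold 10000000

/-- The slices of the chunk 252. -/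
noncomputable def c252 : List (List ℕ) := [
  [tr p225_41,
   tr p226_41,
   tr p227_41,
   tr p228_41,
   s3_7 (s2_6 (s1_4 (s0_5 p227_49))),
   s3_7 (s2_6 (s1_4 (s0_5 p228_49))),
   tr p229_41,
   tr p230_41],
  [tr p231_41,
   tr p232_41,
   tr p233_41,
   tr p234_41,
   tr p235_41,
   tr p236_41,
   tr p237_41,
   tr p238_41],
  [s3_7 (s2_6 (s1_4 (s0_5 p231_49))),
   s3_7 (s2_6 (s1_4 (s0_5 p232_49))),
   s3_7 (s2_6 (s1_4 (s0_5 p235_49))),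
   s3_7 (s2_6 (s1_4 (s0_5 p236_49))),
   s3_7 (s2_6 (s1_4 (s0_5 p233_49))),
   s3_7 (s2_6 (s1_4 (s0_5 p234_49))),
   s3_7 (s2_6 (s1_4 (s0_5 p237_49))),
   s3_7 (s2_6 (s1_4 (s0_5 p238_49)))],
  [tr p239_41,
   tr p240_41,
   tr p241_41,
   tr p242_41,
   s3_7 (s2_6 (s1_4 (s0_5 p241_49))),
   s3_7 (s2_6 (s1_4 (s0_5 p242_49))),
   tr p243_41,
   tr p244_41],
  [tr p245_41,
   tr p246_41,
   tr p247_41,
   tr p248_41,
   s3_7 (s2_6 (s1_4 (s0_5 p247_49))),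
   s3_7 (s2_6 (s1_4 (s0_5 p248_49))),
   tr p249_41,
   tr p250_41],
  [tr p251_41,
   p252_41,
   p252_42,
   p252_43,
   p252_44,
   p252_45,
   p252_46,
   p252_47],
  [s3_7 (s2_6 (s1_4 (s0_5 p251_49))),
   p252_49,
   p252_50,
   p252_51,
   p252_52,
   p252_53,
   p252_54,
   p252_55],
  [tr p259_41,
   tr p260_41,
   p252_58,
   p252_59,
   p252_60,
   p252_61,
   tr p263_41,
   tr p264_41]]

theorem k252 : eqNN c252 (slO 64 (D.chG 29 41) 8) = true := by decide +kernel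

/-- The slices of the chunk 253. -/
noncomputable def c253 : List (List ℕ) := [
  [tr p225_42,
   tr p226_42,
   tr p227_42,
   tr p228_42,
   s3_7 (s2_6 (s1_4 (s0_5 p227_52))),
   s3_7 (s2_6 (s1_4 (s0_5 p228_52))),
   tr p229_42,
   tr p230_42],
  [tr p231_42,
   tr p232_42,
   tr p233_42,
   tr p234_42,
   tr p235_42,
   tr p236_42,
   tr p237_42,
   tr p238_42],
  [s3_7 (s2_6 (s1_4 (s0_5 p231_52))),
   s3_7 (s2_6 (s1_4 (s0_5 p232_52))),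
   s3_7 (s2_6 (s1_4 (s0_5 p235_52))),
   s3_7 (s2_6 (s1_4 (s0_5 p236_52))),
   s3_7 (s2_6 (s1_4 (s0_5 p233_52))),
   s3_7 (s2_6 (s1_4 (s0_5 p234_52))),
   s3_7 (s2_6 (s1_4 (s0_5 p237_52))),
   s3_7 (s2_6 (s1_4 (s0_5 p238_52)))],
  [tr p239_42,
   tr p240_42,
   tr p241_42,
   tr p242_42,
   s3_7 (s2_6 (s1_4 (s0_5 p241_52))),
   s3_7 (s2_6 (s1_4 (s0_5 p242_52))),
   tr p243_42,
   tr p244_42],
  [tr p245_42,
   tr p246_42,
   tr p247_42,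
   tr p248_42,
   s3_7 (s2_6 (s1_4 (s0_5 p247_52))),
   s3_7 (s2_6 (s1_4 (s0_5 p248_52))),
   tr p249_42,
   tr p250_42],
  [tr p251_42,
   tr p252_42,
   p253_42,
   p253_43,
   p253_44,
   p253_45,
   p253_46,
   p253_47],
  [s3_7 (s2_6 (s1_4 (s0_5 p251_52))),
   s3_7 (s2_6 (s1_4 (s0_5 p252_52))),
   p253_50,
   p253_51,
   p253_52,
   p253_53,
   p253_54,
   p253_55],
  [tr p259_42,
   tr p260_42,
   p253_58,
   p253_59,
   p253_60,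
   p253_61,
   tr p263_42,
   tr p264_42]]

theorem k253 : eqNN c253 (slO 64 (D.chG 29 42) 8) = true := by decide +kernel

/-- The slices of the chunk 254. -/
noncomputable def c254 : List (List ℕ) := [
  [tr p225_43,
   tr p226_43,
   tr p227_43,
   tr p228_43,
   s3_7 (s2_6 (s1_4 (s0_5 p227_53))),
   s3_7 (s2_6 (s1_4 (s0_5 p228_53))),
   tr p229_43,
   tr p230_43],
  [tr p231_43,
   tr p232_43,
   tr p233_43,
   tr p234_43,
   tr p235_43,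
   tr p236_43,
   tr p237_43,
   tr p238_43],
  [s3_7 (s2_6 (s1_4 (s0_5 p231_53))),
   s3_7 (s2_6 (s1_4 (s0_5 p232_53))),
   s3_7 (s2_6 (s1_4 (s0_5 p235_53))),
   s3_7 (s2_6 (s1_4 (s0_5 p236_53))),
   s3_7 (s2_6 (s1_4 (s0_5 p233_53))),
   s3_7 (s2_6 (s1_4 (s0_5 p234_53))),
   s3_7 (s2_6 (s1_4 (s0_5 p237_53))),
   s3_7 (s2_6 (s1_4 (s0_5 p238_53)))],
  [tr p239_43,
   tr p240_43,
   tr p241_43,
   tr p242_43,
   s3_7 (s2_6 (s1_4 (s0_5 p241_53))),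
   s3_7 (s2_6 (s1_4 (s0_5 p242_53))),
   tr p243_43,
   tr p244_43],
  [tr p245_43,
   tr p246_43,
   tr p247_43,
   tr p248_43,
   s3_7 (s2_6 (s1_4 (s0_5 p247_53))),
   s3_7 (s2_6 (s1_4 (s0_5 p248_53))),
   tr p249_43,
   tr p250_43],
  [tr p251_43,
   tr p252_43,
   tr p253_43,
   p254_43,
   p254_44,
   p254_45,
   p254_46,
   p254_47],
  [s3_7 (s2_6 (s1_4 (s0_5 p251_53))),
   s3_7 (s2_6 (s1_4 (s0_5 p252_53))),
   p254_50,
   p254_51,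
   s3_7 (s2_6 (s1_4 (s0_5 p253_53))),
   p254_53,
   p254_54,
   p254_55],
  [tr p259_43,
   tr p260_43,
   p254_58,
   p254_59,
   p254_60,
   p254_61,
   tr p263_43,
   tr p264_43]]

theorem k254 : eqNN c254 (slO 64 (D.chG 29 43) 8) = true := by decide +kernel

/-- The slices of the chunk 255. -/
noncomputable def c255 : List (List ℕ) := [
  [tr p225_44,
   tr p226_44,
   tr p227_44,
   tr p228_44,
   s3_7 (s2_6 (s1_4 (s0_5 p227_50))),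
   s3_7 (s2_6 (s1_4 (s0_5 p228_50))),
   tr p229_44,
   tr p230_44],
  [tr p231_44,
   tr p232_44,
   tr p233_44,
   tr p234_44,
   tr p235_44,
   tr p236_44,
   tr p237_44,
   tr p238_44],
  [s3_7 (s2_6 (s1_4 (s0_5 p231_50))),
   s3_7 (s2_6 (s1_4 (s0_5 p232_50))),
   s3_7 (s2_6 (s1_4 (s0_5 p235_50))),
   s3_7 (s2_6 (s1_4 (s0_5 p236_50))),
   s3_7 (s2_6 (s1_4 (s0_5 p233_50))),
   s3_7 (s2_6 (s1_4 (s0_5 p234_50))),
   s3_7 (s2_6 (s1_4 (s0_5 p237_50))),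
   s3_7 (s2_6 (s1_4 (s0_5 p238_50)))],
  [tr p239_44,
   tr p240_44,
   tr p241_44,
   tr p242_44,
   s3_7 (s2_6 (s1_4 (s0_5 p241_50))),
   s3_7 (s2_6 (s1_4 (s0_5 p242_50))),
   tr p243_44,
   tr p244_44],
  [tr p245_44,
   tr p246_44,
   tr p247_44,
   tr p248_44,
   s3_7 (s2_6 (s1_4 (s0_5 p247_50))),
   s3_7 (s2_6 (s1_4 (s0_5 p248_50))),
   tr p249_44,
   tr p250_44],
  [tr p251_44,
   tr p252_44,
   tr p253_44,
   tr p254_44,
   p255_44,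
   p255_45,
   p255_46,
   p255_47],
  [s3_7 (s2_6 (s1_4 (s0_5 p251_50))),
   s3_7 (s2_6 (s1_4 (s0_5 p252_50))),
   p255_50,
   p255_51,
   s3_7 (s2_6 (s1_4 (s0_5 p253_50))),
   s3_7 (s2_6 (s1_4 (s0_5 p254_50))),
   p255_54,
   p255_55],
  [tr p259_44,
   tr p260_44,
   p255_58,
   p255_59,
   p255_60,
   p255_61,
   tr p263_44,
   tr p264_44]]

theorem k255 : eqNN c255 (slO 64 (D.chG 29 44) 8) = true := by decide +kernel

end Pool.Agent.Lib.MP_afdd4d_co.K10.E6
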