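import Pool.Agent.Lib.MP_afdd4d_co.K10.E6.Dat
import Pool.Agent.Lib.MP_afdd4d_co.K10.E6.Mk
import Pool.Agent.Lib.MP_afdd4d_co.K8.F6Bl5
import Pool.Agent.Lib.MP_afdd4d_co.K10.E6.P0
import Pool.Agent.Lib.MP_afdd4d_co.K10.E6.P1
import Pool.Agent.Lib.MP_afdd4d_co.K10.E6.P2
import Pool.Agent.Lib.MP_afdd4d_co.K10.E6.P3
import Pool.Agent.Lib.MP_afdd4d_co.K10.E6.P4
import Pool.Agent.Lib.MP_afdd4d_co.K10.E6.P5
import Pool.Agent.Lib.MP_afdd4d_co.K10.E6.P6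
import Pool.Agent.Lib.MP_afdd4d_co.K10.E6.P7
import Pool.Agent.Lib.MP_afdd4d_co.K10.E6.P8
import Pool.Agent.Lib.MP_afdd4d_co.K10.E6.P9
import Pool.Agent.Lib.MP_afdd4d_co.K10.E6.P10
import Pool.Agent.Lib.MP_afdd4d_co.K10.E6.P11
import Pool.Agent.Lib.MP_afdd4d_co.K10.E6.P12
import Pool.Agent.Lib.MP_afdd4d_co.K10.E6.P13
import Pool.Agent.Lib.MP_afdd4d_co.K10.E6.P14
import Pool.Agent.Lib.MP_afdd4d_co.K10.E6.P15
import Pool.Agent.Lib.MP_afdd4d_co.K10.E6.P16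
import Pool.Agent.Lib.MP_afdd4d_co.K10.E6.P17
import Pool.Agent.Lib.MP_afdd4d_co.K10.E6.P18
import Pool.Agent.Lib.MP_afdd4d_co.K10.E6.P19
import Pool.Agent.Lib.MP_afdd4d_co.K10.E6.P20
import Pool.Agent.Lib.MP_afdd4d_co.K10.E6.P21
import Pool.Agent.Lib.MP_afdd4d_co.K10.E6.P22
import Pool.Agent.Lib.MP_afdd4d_co.K10.E6.P23
import Pool.Agent.Lib.MP_afdd4d_co.K10.E6.P24
import Pool.Agent.Lib.MP_afdd4d_co.K10.E6.P25
import Pool.Agent.Lib.MP_afdd4d_co.K10.E6.P26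
import Pool.Agent.Lib.MP_afdd4d_co.K10.E6.P27
import Pool.Agent.Lib.MP_afdd4d_co.K10.E6.P28
import Pool.Agent.Lib.MP_afdd4d_co.K10.E6.P29
import Pool.Agent.Lib.MP_afdd4d_co.K10.E6.P30
import Pool.Agent.Lib.MP_afdd4d_co.K10.E6.P31
import Pool.Agent.Lib.MP_afdd4d_co.K10.E6.P32

/-!
# Tables
-/

namespace Pool.Agent.Lib.MP_afdd4d_co.K10.E6

open K8

set_option maxRecDepth 100000
set_option exponentiation.threshold 10000000

/-- The slices of the chunk 256. -/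
noncomputable def c256 : List (List ℕ) := [
  [tr p225_45,
   tr p226_45,
   tr p227_45,
   tr p228_45,
   s3_7 (s2_6 (s1_4 (s0_5 p227_51))),
   s3_7 (s2_6 (s1_4 (s0_5 p228_51))),
   tr p229_45,
   tr p230_45],
  [tr p231_45,
   tr p232_45,
   tr p233_45,
   tr p234_45,
   tr p235_45,
   tr p236_45,
   tr p237_45,
   tr p238_45],
  [s3_7 (s2_6 (s1_4 (s0_5 p231_51))),
   s3_7 (s2_6 (s1_4 (s0_5 p232_51))),
   s3_7 (s2_6 (s1_4 (s0_5 p235_51))),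
   s3_7 (s2_6 (s1_4 (s0_5 p236_51))),
   s3_7 (s2_6 (s1_4 (s0_5 p233_51))),
   s3_7 (s2_6 (s1_4 (s0_5 p234_51))),
   s3_7 (s2_6 (s1_4 (s0_5 p237_51))),
   s3_7 (s2_6 (s1_4 (s0_5 p238_51)))],
  [tr p239_45,
   tr p240_45,
   tr p241_45,
   tr p242_45,
   s3_7 (s2_6 (s1_4 (s0_5 p241_51))),
   s3_7 (s2_6 (s1_4 (s0_5 p242_51))),
   tr p243_45,
   tr p244_45],
  [tr p245_45,
   tr p246_45,
   tr p247_45,
   tr p248_45,
   s3_7 (s2_6 (s1_4 (s0_5 p247_51))),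
   s3_7 (s2_6 (s1_4 (s0_5 p248_51))),
   tr p249_45,
   tr p250_45],
  [tr p251_45,
   tr p252_45,
   tr p253_45,
   tr p254_45,
   tr p255_45,
   p256_45,
   p256_46,
   p256_47],
  [s3_7 (s2_6 (s1_4 (s0_5 p251_51))),
   s3_7 (s2_6 (s1_4 (s0_5 p252_51))),
   s3_7 (s2_6 (s1_4 (s0_5 p255_51))),
   p256_51,
   s3_7 (s2_6 (s1_4 (s0_5 p253_51))),
   s3_7 (s2_6 (s1_4 (s0_5 p254_51))),
   p256_54,
   p256_55],
  [tr p259_45,
   tr p260_45,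
   p256_58,
   p256_59,
   p256_60,
   p256_61,
   tr p263_45,
   tr p264_45]]

theorem k256 : eqNN c256 (slO 64 (D.chG 29 45) 8) = true := by decide +kernel

/-- The slices of the chunk 257. -/
noncomputable def c257 : List (List ℕ) := [
  [tr p225_46,
   tr p226_46,
   tr p227_46,
   tr p228_46,
   s3_7 (s2_6 (s1_4 (s0_5 p227_54))),
   s3_7 (s2_6 (s1_4 (s0_5 p228_54))),
   tr p229_46,
   tr p230_46],
  [tr p231_46,
   tr p232_46,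
   tr p233_46,
   tr p234_46,
   tr p235_46,
   tr p236_46,
   tr p237_46,
   tr p238_46],
  [s3_7 (s2_6 (s1_4 (s0_5 p231_54))),
   s3_7 (s2_6 (s1_4 (s0_5 p232_54))),
   s3_7 (s2_6 (s1_4 (s0_5 p235_54))),
   s3_7 (s2_6 (s1_4 (s0_5 p236_54))),
   s3_7 (s2_6 (s1_4 (s0_5 p233_54))),
   s3_7 (s2_6 (s1_4 (s0_5 p234_54))),
   s3_7 (s2_6 (s1_4 (s0_5 p237_54))),
   s3_7 (s2_6 (s1_4 (s0_5 p238_54)))],
  [tr p239_46,
   tr p240_46,
   tr p241_46,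
   tr p242_46,
   s3_7 (s2_6 (s1_4 (s0_5 p241_54))),
   s3_7 (s2_6 (s1_4 (s0_5 p242_54))),
   tr p243_46,
   tr p244_46],
  [tr p245_46,
   tr p246_46,
   tr p247_46,
   tr p248_46,
   s3_7 (s2_6 (s1_4 (s0_5 p247_54))),
   s3_7 (s2_6 (s1_4 (s0_5 p248_54))),
   tr p249_46,
   tr p250_46],
  [tr p251_46,
   tr p252_46,
   tr p253_46,
   tr p254_46,
   tr p255_46,
   tr p256_46,
   p257_46,
   p257_47],
  [s3_7 (s2_6 (s1_4 (s0_5 p251_54))),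
   s3_7 (s2_6 (s1_4 (s0_5 p252_54))),
   s3_7 (s2_6 (s1_4 (s0_5 p255_54))),
   s3_7 (s2_6 (s1_4 (s0_5 p256_54))),
   s3_7 (s2_6 (s1_4 (s0_5 p253_54))),
   s3_7 (s2_6 (s1_4 (s0_5 p254_54))),
   p257_54,
   p257_55],
  [tr p259_46,
   tr p260_46,
   p257_58,
   p257_59,
   p257_60,
   p257_61,
   tr p263_46,
   tr p264_46]]

theorem k257 : eqNN c257 (slO 64 (D.chG 29 46) 8) = true := by decide +kernel

/-- The slices of the chunk 258. -/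
noncomputable def c258 : List (List ℕ) := [
  [tr p225_47,
   tr p226_47,
   tr p227_47,
   tr p228_47,
   s3_7 (s2_6 (s1_4 (s0_5 p227_55))),
   s3_7 (s2_6 (s1_4 (s0_5 p228_55))),
   tr p229_47,
   tr p230_47],
  [tr p231_47,
   tr p232_47,
   tr p233_47,
   tr p234_47,
   tr p235_47,
   tr p236_47,
   tr p237_47,
   tr p238_47],
  [s3_7 (s2_6 (s1_4 (s0_5 p231_55))),
   s3_7 (s2_6 (s1_4 (s0_5 p232_55))),
   s3_7 (s2_6 (s1_4 (s0_5 p235_55))),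
   s3_7 (s2_6 (s1_4 (s0_5 p236_55))),
   s3_7 (s2_6 (s1_4 (s0_5 p233_55))),
   s3_7 (s2_6 (s1_4 (s0_5 p234_55))),
   s3_7 (s2_6 (s1_4 (s0_5 p237_55))),
   s3_7 (s2_6 (s1_4 (s0_5 p238_55)))],
  [tr p239_47,
   tr p240_47,
   tr p241_47,
   tr p242_47,
   s3_7 (s2_6 (s1_4 (s0_5 p241_55))),
   s3_7 (s2_6 (s1_4 (s0_5 p242_55))),
   tr p243_47,
   tr p244_47],
  [tr p245_47,
   tr p246_47,
   tr p247_47,
   tr p248_47,
   s3_7 (s2_6 (s1_4 (s0_5 p247_55))),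
   s3_7 (s2_6 (s1_4 (s0_5 p248_55))),
   tr p249_47,
   tr p250_47],
  [tr p251_47,
   tr p252_47,
   tr p253_47,
   tr p254_47,
   tr p255_47,
   tr p256_47,
   tr p257_47,
   p258_47],
  [s3_7 (s2_6 (s1_4 (s0_5 p251_55))),
   s3_7 (s2_6 (s1_4 (s0_5 p252_55))),
   s3_7 (s2_6 (s1_4 (s0_5 p255_55))),
   s3_7 (s2_6 (s1_4 (s0_5 p256_55))),
   s3_7 (s2_6 (s1_4 (s0_5 p253_55))),
   s3_7 (s2_6 (s1_4 (s0_5 p254_55))),
   s3_7 (s2_6 (s1_4 (s0_5 p257_55))),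
   p258_55],
  [tr p259_47,
   tr p260_47,
   p258_58,
   p258_59,
   p258_60,
   p258_61,
   tr p263_47,
   tr p264_47]]

theorem k258 : eqNN c258 (slO 64 (D.chG 29 47) 8) = true := by decide +kernel

/-- The slices of the chunk 259. -/
noncomputable def c259 : List (List ℕ) := [
  [tr p225_56,
   tr p226_56,
   p259_2,
   p259_3,
   s4_5 (s0_1 p259_2),
   s4_5 (s0_1 p259_3),
   tr p229_56,
   tr p230_56],
  [p259_8,
   p259_9,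
   p259_10,
   p259_11,
   p259_12,
   p259_13,
   p259_14,
   p259_15],
  [s4_5 (s0_1 p259_8),
   s4_5 (s0_1 p259_9),
   s4_5 (s0_1 p259_12),
   s4_5 (s0_1 p259_13),
   s4_5 (s0_1 p259_10),
   s4_5 (s0_1 p259_11),
   s4_5 (s0_1 p259_14),
   s4_5 (s0_1 p259_15)],
  [tr p239_56,
   tr p240_56,
   p259_26,
   p259_27,
   s4_5 (s0_1 p259_26),
   s4_5 (s0_1 p259_27),
   tr p243_56,
   tr p244_56],
  [tr p245_56,
   tr p246_56,
   p259_34,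
   p259_35,
   s4_5 (s0_1 p259_34),
   s4_5 (s0_1 p259_35),
   tr p249_56,
   tr p250_56],
  [p259_40,
   p259_41,
   p259_42,
   p259_43,
   p259_44,
   p259_45,
   p259_46,
   p259_47],
  [s4_5 (s0_1 p259_40),
   s4_5 (s0_1 p259_41),
   s4_5 (s0_1 p259_44),
   s4_5 (s0_1 p259_45),
   s4_5 (s0_1 p259_42),
   s4_5 (s0_1 p259_43),
   s4_5 (s0_1 p259_46),
   s4_5 (s0_1 p259_47)],
  [p259_56,
   p259_57,
   p259_58,
   p259_59,
   s4_5 (s0_1 p259_58),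
   s4_5 (s0_1 p259_59),
   p259_62,
   p259_63]]

theorem k259 : eqNN c259 (slO 64 (D.chG 29 56) 8) = true := by decide +kernel

end Pool.Agent.Lib.MP_afdd4d_co.K10.E6
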