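import Pool.Agent.Lib.MP_afdd4d_co.K10.E6.Dat
import Pool.Agent.Lib.MP_afdd4d_co.K10.E6.Mk
import Pool.Agent.Lib.MP_afdd4d_co.K8.F6Bl5
import Pool.Agent.Lib.MP_afdd4d_co.K10.E6.P0
import Pool.Agent.Lib.MP_afdd4d_co.K10.E6.P1
import Pool.Agent.Lib.MP_afdd4d_co.K10.E6.P2
import Pool.Agent.Lib.MP_afdd4d_co.K10.E6.P3
import Pool.Agent.Lib.MP_afdd4d_co.K10.E6.P4
import Pool.Agent.Lib.MP_afdd4d_co.K10.E6.P5
import Pool.Agent.Lib.MP_afdd4d_co.K10.E6.P6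
import Pool.Agent.Lib.MP_afdd4d_co.K10.E6.P7
import Pool.Agent.Lib.MP_afdd4d_co.K10.E6.P8
import Pool.Agent.Lib.MP_afdd4d_co.K10.E6.P9
import Pool.Agent.Lib.MP_afdd4d_co.K10.E6.P10
import Pool.Agent.Lib.MP_afdd4d_co.K10.E6.P11
import Pool.Agent.Lib.MP_afdd4d_co.K10.E6.P12
import Pool.Agent.Lib.MP_afdd4d_co.K10.E6.P13
import Pool.Agent.Lib.MP_afdd4d_co.K10.E6.P14
import Pool.Agent.Lib.MP_afdd4d_co.K10.E6.P15
import Pool.Agent.Lib.MP_afdd4d_co.K10.E6.P16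
import Pool.Agent.Lib.MP_afdd4d_co.K10.E6.P17
import Pool.Agent.Lib.MP_afdd4d_co.K10.E6.P18
import Pool.Agent.Lib.MP_afdd4d_co.K10.E6.P19
import Pool.Agent.Lib.MP_afdd4d_co.K10.E6.P20
import Pool.Agent.Lib.MP_afdd4d_co.K10.E6.P21
import Pool.Agent.Lib.MP_afdd4d_co.K10.E6.P22
import Pool.Agent.Lib.MP_afdd4d_co.K10.E6.P23
import Pool.Agent.Lib.MP_afdd4d_co.K10.E6.P24
import Pool.Agent.Lib.MP_afdd4d_co.K10.E6.P25
import Pool.Agent.Lib.MP_afdd4d_co.K10.E6.P26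
import Pool.Agent.Lib.MP_afdd4d_co.K10.E6.P27
import Pool.Agent.Lib.MP_afdd4d_co.K10.E6.P28
import Pool.Agent.Lib.MP_afdd4d_co.K10.E6.P29
import Pool.Agent.Lib.MP_afdd4d_co.K10.E6.P30
import Pool.Agent.Lib.MP_afdd4d_co.K10.E6.P31
import Pool.Agent.Lib.MP_afdd4d_co.K10.E6.P32

/-!
# Tables
-/

namespace Pool.Agent.Lib.MP_afdd4d_co.K10.E6

open K8

set_option maxRecDepth 100000
set_option exponentiation.threshold 10000000

/-- The slices of the chunk 260. -/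
noncomputable def c260 : List (List ℕ) := [
  [tr p225_57,
   tr p226_57,
   p260_2,
   p260_3,
   s4_5 (s0_1 p260_2),
   s4_5 (s0_1 p260_3),
   tr p229_57,
   tr p230_57],
  [p260_8,
   p260_9,
   p260_10,
   p260_11,
   p260_12,
   p260_13,
   p260_14,
   p260_15],
  [s4_5 (s0_1 p260_8),
   s4_5 (s0_1 p260_9),
   s4_5 (s0_1 p260_12),
   s4_5 (s0_1 p260_13),
   s4_5 (s0_1 p260_10),
   s4_5 (s0_1 p260_11),
   s4_5 (s0_1 p260_14),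
   s4_5 (s0_1 p260_15)],
  [tr p239_57,
   tr p240_57,
   p260_26,
   p260_27,
   s4_5 (s0_1 p260_26),
   s4_5 (s0_1 p260_27),
   tr p243_57,
   tr p244_57],
  [tr p245_57,
   tr p246_57,
   p260_34,
   p260_35,
   s4_5 (s0_1 p260_34),
   s4_5 (s0_1 p260_35),
   tr p249_57,
   tr p250_57],
  [p260_40,
   p260_41,
   p260_42,
   p260_43,
   p260_44,
   p260_45,
   p260_46,
   p260_47],
  [s4_5 (s0_1 p260_40),
   s4_5 (s0_1 p260_41),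
   s4_5 (s0_1 p260_44),
   s4_5 (s0_1 p260_45),
   s4_5 (s0_1 p260_42),
   s4_5 (s0_1 p260_43),
   s4_5 (s0_1 p260_46),
   s4_5 (s0_1 p260_47)],
  [tr p259_57,
   p260_57,
   p260_58,
   p260_59,
   s4_5 (s0_1 p260_58),
   s4_5 (s0_1 p260_59),
   p260_62,
   p260_63]]

theorem k260 : eqNN c260 (slO 64 (D.chG 29 57) 8) = true := by decide +kernel

/-- The slices of the chunk 261. -/
noncomputable def c261 : List (List ℕ) := [
  [tr p225_58,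
   tr p226_58,
   tr p227_58,
   tr p228_58,
   s3_7 (s2_6 (s1_4 (s0_5 p227_60))),
   s3_7 (s2_6 (s1_4 (s0_5 p228_60))),
   tr p229_58,
   tr p230_58],
  [tr p231_58,
   tr p232_58,
   tr p233_58,
   tr p234_58,
   tr p235_58,
   tr p236_58,
   tr p237_58,
   tr p238_58],
  [s3_7 (s2_6 (s1_4 (s0_5 p231_60))),
   s3_7 (s2_6 (s1_4 (s0_5 p232_60))),
   s3_7 (s2_6 (s1_4 (s0_5 p235_60))),
   s3_7 (s2_6 (s1_4 (s0_5 p236_60))),
   s3_7 (s2_6 (s1_4 (s0_5 p233_60))),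
   s3_7 (s2_6 (s1_4 (s0_5 p234_60))),
   s3_7 (s2_6 (s1_4 (s0_5 p237_60))),
   s3_7 (s2_6 (s1_4 (s0_5 p238_60)))],
  [tr p239_58,
   tr p240_58,
   tr p241_58,
   tr p242_58,
   s3_7 (s2_6 (s1_4 (s0_5 p241_60))),
   s3_7 (s2_6 (s1_4 (s0_5 p242_60))),
   tr p243_58,
   tr p244_58],
  [tr p245_58,
   tr p246_58,
   tr p247_58,
   tr p248_58,
   s3_7 (s2_6 (s1_4 (s0_5 p247_60))),
   s3_7 (s2_6 (s1_4 (s0_5 p248_60))),
   tr p249_58,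
   tr p250_58],
  [tr p251_58,
   tr p252_58,
   tr p253_58,
   tr p254_58,
   tr p255_58,
   tr p256_58,
   tr p257_58,
   tr p258_58],
  [s3_7 (s2_6 (s1_4 (s0_5 p251_60))),
   s3_7 (s2_6 (s1_4 (s0_5 p252_60))),
   s3_7 (s2_6 (s1_4 (s0_5 p255_60))),
   s3_7 (s2_6 (s1_4 (s0_5 p256_60))),
   s3_7 (s2_6 (s1_4 (s0_5 p253_60))),
   s3_7 (s2_6 (s1_4 (s0_5 p254_60))),
   s3_7 (s2_6 (s1_4 (s0_5 p257_60))),
   s3_7 (s2_6 (s1_4 (s0_5 p258_60)))],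
  [tr p259_58,
   tr p260_58,
   p261_58,
   p261_59,
   p261_60,
   p261_61,
   tr p263_58,
   tr p264_58]]

theorem k261 : eqNN c261 (slO 64 (D.chG 29 58) 8) = true := by decide +kernel

/-- The slices of the chunk 262. -/
noncomputable def c262 : List (List ℕ) := [
  [tr p225_59,
   tr p226_59,
   tr p227_59,
   tr p228_59,
   s3_7 (s2_6 (s1_4 (s0_5 p227_61))),
   s3_7 (s2_6 (s1_4 (s0_5 p228_61))),
   tr p229_59,
   tr p230_59],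
  [tr p231_59,
   tr p232_59,
   tr p233_59,
   tr p234_59,
   tr p235_59,
   tr p236_59,
   tr p237_59,
   tr p238_59],
  [s3_7 (s2_6 (s1_4 (s0_5 p231_61))),
   s3_7 (s2_6 (s1_4 (s0_5 p232_61))),
   s3_7 (s2_6 (s1_4 (s0_5 p235_61))),
   s3_7 (s2_6 (s1_4 (s0_5 p236_61))),
   s3_7 (s2_6 (s1_4 (s0_5 p233_61))),
   s3_7 (s2_6 (s1_4 (s0_5 p234_61))),
   s3_7 (s2_6 (s1_4 (s0_5 p237_61))),
   s3_7 (s2_6 (s1_4 (s0_5 p238_61)))],
  [tr p239_59,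
   tr p240_59,
   tr p241_59,
   tr p242_59,
   s3_7 (s2_6 (s1_4 (s0_5 p241_61))),
   s3_7 (s2_6 (s1_4 (s0_5 p242_61))),
   tr p243_59,
   tr p244_59],
  [tr p245_59,
   tr p246_59,
   tr p247_59,
   tr p248_59,
   s3_7 (s2_6 (s1_4 (s0_5 p247_61))),
   s3_7 (s2_6 (s1_4 (s0_5 p248_61))),
   tr p249_59,
   tr p250_59],
  [tr p251_59,
   tr p252_59,
   tr p253_59,
   tr p254_59,
   tr p255_59,
   tr p256_59,
   tr p257_59,
   tr p258_59],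
  [s3_7 (s2_6 (s1_4 (s0_5 p251_61))),
   s3_7 (s2_6 (s1_4 (s0_5 p252_61))),
   s3_7 (s2_6 (s1_4 (s0_5 p255_61))),
   s3_7 (s2_6 (s1_4 (s0_5 p256_61))),
   s3_7 (s2_6 (s1_4 (s0_5 p253_61))),
   s3_7 (s2_6 (s1_4 (s0_5 p254_61))),
   s3_7 (s2_6 (s1_4 (s0_5 p257_61))),
   s3_7 (s2_6 (s1_4 (s0_5 p258_61)))],
  [tr p259_59,
   tr p260_59,
   tr p261_59,
   p262_59,
   s3_7 (s2_6 (s1_4 (s0_5 p261_61))),
   p262_61,
   tr p263_59,
   tr p264_59]]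

theorem k262 : eqNN c262 (slO 64 (D.chG 29 59) 8) = true := by decide +kernel

/-- The slices of the chunk 263. -/
noncomputable def c263 : List (List ℕ) := [
  [tr p225_62,
   tr p226_62,
   p263_2,
   p263_3,
   s4_5 (s0_1 p263_2),
   s4_5 (s0_1 p263_3),
   tr p229_62,
   tr p230_62],
  [p263_8,
   p263_9,
   p263_10,
   p263_11,
   p263_12,
   p263_13,
   p263_14,
   p263_15],
  [s4_5 (s0_1 p263_8),
   s4_5 (s0_1 p263_9),
   s4_5 (s0_1 p263_12),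
   s4_5 (s0_1 p263_13),
   s4_5 (s0_1 p263_10),
   s4_5 (s0_1 p263_11),
   s4_5 (s0_1 p263_14),
   s4_5 (s0_1 p263_15)],
  [tr p239_62,
   tr p240_62,
   p263_26,
   p263_27,
   s4_5 (s0_1 p263_26),
   s4_5 (s0_1 p263_27),
   tr p243_62,
   tr p244_62],
  [tr p245_62,
   tr p246_62,
   p263_34,
   p263_35,
   s4_5 (s0_1 p263_34),
   s4_5 (s0_1 p263_35),
   tr p249_62,
   tr p250_62],
  [p263_40,
   p263_41,
   p263_42,
   p263_43,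
   p263_44,
   p263_45,
   p263_46,
   p263_47],
  [s4_5 (s0_1 p263_40),
   s4_5 (s0_1 p263_41),
   s4_5 (s0_1 p263_44),
   s4_5 (s0_1 p263_45),
   s4_5 (s0_1 p263_42),
   s4_5 (s0_1 p263_43),
   s4_5 (s0_1 p263_46),
   s4_5 (s0_1 p263_47)],
  [tr p259_62,
   tr p260_62,
   p263_58,
   p263_59,
   s4_5 (s0_1 p263_58),
   s4_5 (s0_1 p263_59),
   p263_62,
   p263_63]]

theorem k263 : eqNN c263 (slO 64 (D.chG 29 62) 8) = true := by decide +kernel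

end Pool.Agent.Lib.MP_afdd4d_co.K10.E6
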