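import Pool.Agent.Lib.MP_afdd4d_co.K10.E6.Dat
import Pool.Agent.Lib.MP_afdd4d_co.K10.E6.Mk
import Pool.Agent.Lib.MP_afdd4d_co.K8.F6Bl5
import Pool.Agent.Lib.MP_afdd4d_co.K10.E6.P0
import Pool.Agent.Lib.MP_afdd4d_co.K10.E6.P1
import Pool.Agent.Lib.MP_afdd4d_co.K10.E6.P2
import Pool.Agent.Lib.MP_afdd4d_co.K10.E6.P3
import Pool.Agent.Lib.MP_afdd4d_co.K10.E6.P4
import Pool.Agent.Lib.MP_afdd4d_co.K10.E6.P5
import Pool.Agent.Lib.MP_afdd4d_co.K10.E6.P6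
import Pool.Agent.Lib.MP_afdd4d_co.K10.E6.P7
import Pool.Agent.Lib.MP_afdd4d_co.K10.E6.P8
import Pool.Agent.Lib.MP_afdd4d_co.K10.E6.P9
import Pool.Agent.Lib.MP_afdd4d_co.K10.E6.P10
import Pool.Agent.Lib.MP_afdd4d_co.K10.E6.P11
import Pool.Agent.Lib.MP_afdd4d_co.K10.E6.P12
import Pool.Agent.Lib.MP_afdd4d_co.K10.E6.P13
import Pool.Agent.Lib.MP_afdd4d_co.K10.E6.P14
import Pool.Agent.Lib.MP_afdd4d_co.K10.E6.P15
import Pool.Agent.Lib.MP_afdd4d_co.K10.E6.P16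
import Pool.Agent.Lib.MP_afdd4d_co.K10.E6.P17
import Pool.Agent.Lib.MP_afdd4d_co.K10.E6.P18
import Pool.Agent.Lib.MP_afdd4d_co.K10.E6.P19
import Pool.Agent.Lib.MP_afdd4d_co.K10.E6.P20
import Pool.Agent.Lib.MP_afdd4d_co.K10.E6.P21
import Pool.Agent.Lib.MP_afdd4d_co.K10.E6.P22
import Pool.Agent.Lib.MP_afdd4d_co.K10.E6.P23
import Pool.Agent.Lib.MP_afdd4d_co.K10.E6.P24
import Pool.Agent.Lib.MP_afdd4d_co.K10.E6.P25
import Pool.Agent.Lib.MP_afdd4d_co.K10.E6.P26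
import Pool.Agent.Lib.MP_afdd4d_co.K10.E6.P27
import Pool.Agent.Lib.MP_afdd4d_co.K10.E6.P28
import Pool.Agent.Lib.MP_afdd4d_co.K10.E6.P29
import Pool.Agent.Lib.MP_afdd4d_co.K10.E6.P30
import Pool.Agent.Lib.MP_afdd4d_co.K10.E6.P31
import Pool.Agent.Lib.MP_afdd4d_co.K10.E6.P32

/-!
# Tables
-/

namespace Pool.Agent.Lib.MP_afdd4d_co.K10.E6

open K8

set_option maxRecDepth 100000
set_option exponentiation.threshold 10000000

/-- The slices of the chunk 264. -/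
noncomputable def c264 : List (List ℕ) := [
  [tr p225_63,
   tr p226_63,
   p264_2,
   p264_3,
   s4_5 (s0_1 p264_2),
   s4_5 (s0_1 p264_3),
   tr p229_63,
   tr p230_63],
  [p264_8,
   p264_9,
   p264_10,
   p264_11,
   p264_12,
   p264_13,
   p264_14,
   p264_15],
  [s4_5 (s0_1 p264_8),
   s4_5 (s0_1 p264_9),
   s4_5 (s0_1 p264_12),
   s4_5 (s0_1 p264_13),
   s4_5 (s0_1 p264_10),
   s4_5 (s0_1 p264_11),
   s4_5 (s0_1 p264_14),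
   s4_5 (s0_1 p264_15)],
  [tr p239_63,
   tr p240_63,
   p264_26,
   p264_27,
   s4_5 (s0_1 p264_26),
   s4_5 (s0_1 p264_27),
   tr p243_63,
   tr p244_63],
  [tr p245_63,
   tr p246_63,
   p264_34,
   p264_35,
   s4_5 (s0_1 p264_34),
   s4_5 (s0_1 p264_35),
   tr p249_63,
   tr p250_63],
  [p264_40,
   p264_41,
   p264_42,
   p264_43,
   p264_44,
   p264_45,
   p264_46,
   p264_47],
  [s4_5 (s0_1 p264_40),
   s4_5 (s0_1 p264_41),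
   s4_5 (s0_1 p264_44),
   s4_5 (s0_1 p264_45),
   s4_5 (s0_1 p264_42),
   s4_5 (s0_1 p264_43),
   s4_5 (s0_1 p264_46),
   s4_5 (s0_1 p264_47)],
  [tr p259_63,
   tr p260_63,
   p264_58,
   p264_59,
   s4_5 (s0_1 p264_58),
   s4_5 (s0_1 p264_59),
   tr p263_63,
   p264_63]]

theorem k264 : eqNN c264 (slO 64 (D.chG 29 63) 8) = true := by decide +kernel

/-- The slices of the chunk 265. -/
noncomputable def c265 : List (List ℕ) := [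
  [p265_0,
   p265_1,
   p265_2,
   p265_3,
   s4_5 (s0_1 p265_2),
   s4_5 (s0_1 p265_3),
   p265_6,
   p265_7],
  [s6_7 (s2_3 p265_2),
   s6_7 (s2_3 p265_3),
   p265_10,
   p265_11,
   p265_12,
   p265_13,
   p265_14,
   p265_15],
  [s6_7 (s4_5 (s2_3 (s0_1 p265_2))),
   s6_7 (s4_5 (s2_3 (s0_1 p265_3))),
   s6_7 (s2_3 p265_12),
   s6_7 (s2_3 p265_13),
   s4_5 (s0_1 p265_10),
   s4_5 (s0_1 p265_11),
   s4_5 (s0_1 p265_14),
   s4_5 (s0_1 p265_15)],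
  [s6_7 (s2_3 p265_6),
   s6_7 (s2_3 p265_7),
   s6_7 (s2_3 p265_14),
   s6_7 (s2_3 p265_15),
   s6_7 (s4_5 (s2_3 (s0_1 p265_14))),
   s6_7 (s4_5 (s2_3 (s0_1 p265_15))),
   p265_30,
   p265_31],
  [p265_32,
   p265_33,
   p265_34,
   p265_35,
   s4_5 (s0_1 p265_34),
   s4_5 (s0_1 p265_35),
   p265_38,
   p265_39],
  [s6_7 (s2_3 p265_34),
   s6_7 (s2_3 p265_35),
   p265_42,
   p265_43,
   p265_44,
   p265_45,
   p265_46,
   p265_47],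
  [s6_7 (s4_5 (s2_3 (s0_1 p265_34))),
   s6_7 (s4_5 (s2_3 (s0_1 p265_35))),
   s6_7 (s2_3 p265_44),
   s6_7 (s2_3 p265_45),
   s4_5 (s0_1 p265_42),
   s4_5 (s0_1 p265_43),
   s4_5 (s0_1 p265_46),
   s4_5 (s0_1 p265_47)],
  [s6_7 (s2_3 p265_38),
   s6_7 (s2_3 p265_39),
   s6_7 (s2_3 p265_46),
   s6_7 (s2_3 p265_47),
   s6_7 (s4_5 (s2_3 (s0_1 p265_46))),
   s6_7 (s4_5 (s2_3 (s0_1 p265_47))),
   p265_62,
   p265_63]]

theorem k265 : eqNN c265 (slO 64 (D.chG 31 0) 8) = true := by decide +kernel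

/-- The slices of the chunk 266. -/
noncomputable def c266 : List (List ℕ) := [
  [tr p265_1,
   p266_1,
   p266_2,
   p266_3,
   s4_5 (s0_1 p266_2),
   s4_5 (s0_1 p266_3),
   p266_6,
   p266_7],
  [s6_7 (s2_3 p266_2),
   s6_7 (s2_3 p266_3),
   p266_10,
   p266_11,
   p266_12,
   p266_13,
   p266_14,
   p266_15],
  [s6_7 (s4_5 (s2_3 (s0_1 p266_2))),
   s6_7 (s4_5 (s2_3 (s0_1 p266_3))),
   s6_7 (s2_3 p266_12),
   s6_7 (s2_3 p266_13),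
   s4_5 (s0_1 p266_10),
   s4_5 (s0_1 p266_11),
   s4_5 (s0_1 p266_14),
   s4_5 (s0_1 p266_15)],
  [s6_7 (s2_3 p266_6),
   s6_7 (s2_3 p266_7),
   s6_7 (s2_3 p266_14),
   s6_7 (s2_3 p266_15),
   s6_7 (s4_5 (s2_3 (s0_1 p266_14))),
   s6_7 (s4_5 (s2_3 (s0_1 p266_15))),
   p266_30,
   p266_31],
  [p266_32,
   p266_33,
   p266_34,
   p266_35,
   s4_5 (s0_1 p266_34),
   s4_5 (s0_1 p266_35),
   p266_38,
   p266_39],
  [s6_7 (s2_3 p266_34),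
   s6_7 (s2_3 p266_35),
   p266_42,
   p266_43,
   p266_44,
   p266_45,
   p266_46,
   p266_47],
  [s6_7 (s4_5 (s2_3 (s0_1 p266_34))),
   s6_7 (s4_5 (s2_3 (s0_1 p266_35))),
   s6_7 (s2_3 p266_44),
   s6_7 (s2_3 p266_45),
   s4_5 (s0_1 p266_42),
   s4_5 (s0_1 p266_43),
   s4_5 (s0_1 p266_46),
   s4_5 (s0_1 p266_47)],
  [s6_7 (s2_3 p266_38),
   s6_7 (s2_3 p266_39),
   s6_7 (s2_3 p266_46),
   s6_7 (s2_3 p266_47),
   s6_7 (s4_5 (s2_3 (s0_1 p266_46))),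
   s6_7 (s4_5 (s2_3 (s0_1 p266_47))),
   p266_62,
   p266_63]]

theorem k266 : eqNN c266 (slO 64 (D.chG 31 1) 8) = true := by decide +kernel

/-- The slices of the chunk 267. -/
noncomputable def c267 : List (List ℕ) := [
  [tr p265_2,
   tr p266_2,
   p267_2,
   p267_3,
   p267_4,
   p267_5,
   tr p269_2,
   tr p270_2],
  [p267_8,
   p267_9,
   tr p271_2,
   tr p272_2,
   p267_12,
   p267_13,
   p267_14,
   p267_15],
  [p267_16,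
   p267_17,
   p267_18,
   p267_19,
   s3_7 (s2_6 (s1_4 (s0_5 p271_4))),
   s3_7 (s2_6 (s1_4 (s0_5 p272_4))),
   p267_22,
   p267_23],
  [s3_6 (s2_7 (s1_5 (s0_4 p269_8))),
   s3_6 (s2_7 (s1_5 (s0_4 p270_8))),
   p267_26,
   p267_27,
   p267_28,
   p267_29,
   tr p277_2,
   tr p278_2],
  [tr p279_2,
   tr p280_2,
   p267_34,
   p267_35,
   p267_36,
   p267_37,
   tr p283_2,
   tr p284_2],
  [p267_40,
   p267_41,
   tr p285_2,
   tr p286_2,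
   p267_44,
   p267_45,
   p267_46,
   p267_47],
  [p267_48,
   p267_49,
   p267_50,
   p267_51,
   s3_7 (s2_6 (s1_4 (s0_5 p285_4))),
   s3_7 (s2_6 (s1_4 (s0_5 p286_4))),
   p267_54,
   p267_55],
  [s3_6 (s2_7 (s1_5 (s0_4 p283_8))),
   s3_6 (s2_7 (s1_5 (s0_4 p284_8))),
   p267_58,
   p267_59,
   p267_60,
   p267_61,
   tr p291_2,
   tr p292_2]]

theorem k267 : eqNN c267 (slO 64 (D.chG 31 2) 8) = true := by decide +kernel

end Pool.Agent.Lib.MP_afdd4d_co.K10.E6
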