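import Pool.Agent.Lib.MP_afdd4d_co.K10.E6.Dat
import Pool.Agent.Lib.MP_afdd4d_co.K10.E6.Mk
import Pool.Agent.Lib.MP_afdd4d_co.K8.F6Bl5
import Pool.Agent.Lib.MP_afdd4d_co.K10.E6.P0
import Pool.Agent.Lib.MP_afdd4d_co.K10.E6.P1
import Pool.Agent.Lib.MP_afdd4d_co.K10.E6.P2
import Pool.Agent.Lib.MP_afdd4d_co.K10.E6.P3
import Pool.Agent.Lib.MP_afdd4d_co.K10.E6.P4
import Pool.Agent.Lib.MP_afdd4d_co.K10.E6.P5
import Pool.Agent.Lib.MP_afdd4d_co.K10.E6.P6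
import Pool.Agent.Lib.MP_afdd4d_co.K10.E6.P7
import Pool.Agent.Lib.MP_afdd4d_co.K10.E6.P8
import Pool.Agent.Lib.MP_afdd4d_co.K10.E6.P9
import Pool.Agent.Lib.MP_afdd4d_co.K10.E6.P10
import Pool.Agent.Lib.MP_afdd4d_co.K10.E6.P11
import Pool.Agent.Lib.MP_afdd4d_co.K10.E6.P12
import Pool.Agent.Lib.MP_afdd4d_co.K10.E6.P13
import Pool.Agent.Lib.MP_afdd4d_co.K10.E6.P14
import Pool.Agent.Lib.MP_afdd4d_co.K10.E6.P15
import Pool.Agent.Lib.MP_afdd4d_co.K10.E6.P16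
import Pool.Agent.Lib.MP_afdd4d_co.K10.E6.P17
import Pool.Agent.Lib.MP_afdd4d_co.K10.E6.P18
import Pool.Agent.Lib.MP_afdd4d_co.K10.E6.P19
import Pool.Agent.Lib.MP_afdd4d_co.K10.E6.P20
import Pool.Agent.Lib.MP_afdd4d_co.K10.E6.P21
import Pool.Agent.Lib.MP_afdd4d_co.K10.E6.P22
import Pool.Agent.Lib.MP_afdd4d_co.K10.E6.P23
import Pool.Agent.Lib.MP_afdd4d_co.K10.E6.P24
import Pool.Agent.Lib.MP_afdd4d_co.K10.E6.P25
import Pool.Agent.Lib.MP_afdd4d_co.K10.E6.P26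
import Pool.Agent.Lib.MP_afdd4d_co.K10.E6.P27
import Pool.Agent.Lib.MP_afdd4d_co.K10.E6.P28
import Pool.Agent.Lib.MP_afdd4d_co.K10.E6.P29
import Pool.Agent.Lib.MP_afdd4d_co.K10.E6.P30
import Pool.Agent.Lib.MP_afdd4d_co.K10.E6.P31
import Pool.Agent.Lib.MP_afdd4d_co.K10.E6.P32

/-!
# Tables
-/

namespace Pool.Agent.Lib.MP_afdd4d_co.K10.E6

open K8

set_option maxRecDepth 100000
set_option exponentiation.threshold 10000000

/-- The slices of the chunk 268. -/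
noncomputable def c268 : List (List ℕ) := [
  [tr p265_3,
   tr p266_3,
   tr p267_3,
   p268_3,
   s3_7 (s2_6 (s1_4 (s0_5 p267_5))),
   p268_5,
   tr p269_3,
   tr p270_3],
  [s3_6 (s2_7 (s1_5 (s0_4 p267_9))),
   p268_9,
   tr p271_3,
   tr p272_3,
   p268_12,
   p268_13,
   p268_14,
   p268_15],
  [s3_6 (s2_7 (s1_4 (s0_5 p267_17))),
   p268_17,
   p268_18,
   p268_19,
   s3_7 (s2_6 (s1_4 (s0_5 p271_5))),
   s3_7 (s2_6 (s1_4 (s0_5 p272_5))),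
   p268_22,
   p268_23],
  [s3_6 (s2_7 (s1_5 (s0_4 p269_9))),
   s3_6 (s2_7 (s1_5 (s0_4 p270_9))),
   p268_26,
   p268_27,
   p268_28,
   p268_29,
   tr p277_3,
   tr p278_3],
  [tr p279_3,
   tr p280_3,
   p268_34,
   p268_35,
   p268_36,
   p268_37,
   tr p283_3,
   tr p284_3],
  [p268_40,
   p268_41,
   tr p285_3,
   tr p286_3,
   p268_44,
   p268_45,
   p268_46,
   p268_47],
  [p268_48,
   p268_49,
   p268_50,
   p268_51,
   s3_7 (s2_6 (s1_4 (s0_5 p285_5))),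
   s3_7 (s2_6 (s1_4 (s0_5 p286_5))),
   p268_54,
   p268_55],
  [s3_6 (s2_7 (s1_5 (s0_4 p283_9))),
   s3_6 (s2_7 (s1_5 (s0_4 p284_9))),
   p268_58,
   p268_59,
   p268_60,
   p268_61,
   tr p291_3,
   tr p292_3]]

theorem k268 : eqNN c268 (slO 64 (D.chG 31 3) 8) = true := by decide +kernel

/-- The slices of the chunk 269. -/
noncomputable def c269 : List (List ℕ) := [
  [tr p265_6,
   tr p266_6,
   p269_2,
   p269_3,
   s4_5 (s0_1 p269_2),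
   s4_5 (s0_1 p269_3),
   p269_6,
   p269_7],
  [p269_8,
   p269_9,
   p269_10,
   p269_11,
   p269_12,
   p269_13,
   p269_14,
   p269_15],
  [s4_5 (s0_1 p269_8),
   s4_5 (s0_1 p269_9),
   s4_5 (s0_1 p269_12),
   s4_5 (s0_1 p269_13),
   s4_5 (s0_1 p269_10),
   s4_5 (s0_1 p269_11),
   s4_5 (s0_1 p269_14),
   s4_5 (s0_1 p269_15)],
  [p269_24,
   p269_25,
   p269_26,
   p269_27,
   s4_5 (s0_1 p269_26),
   s4_5 (s0_1 p269_27),
   tr p277_6,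
   tr p278_6],
  [tr p279_6,
   tr p280_6,
   p269_34,
   p269_35,
   s4_5 (s0_1 p269_34),
   s4_5 (s0_1 p269_35),
   p269_38,
   p269_39],
  [p269_40,
   p269_41,
   p269_42,
   p269_43,
   p269_44,
   p269_45,
   p269_46,
   p269_47],
  [s4_5 (s0_1 p269_40),
   s4_5 (s0_1 p269_41),
   s4_5 (s0_1 p269_44),
   s4_5 (s0_1 p269_45),
   s4_5 (s0_1 p269_42),
   s4_5 (s0_1 p269_43),
   s4_5 (s0_1 p269_46),
   s4_5 (s0_1 p269_47)],
  [p269_56,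
   p269_57,
   p269_58,
   p269_59,
   s4_5 (s0_1 p269_58),
   s4_5 (s0_1 p269_59),
   tr p291_6,
   tr p292_6]]

theorem k269 : eqNN c269 (slO 64 (D.chG 31 6) 8) = true := by decide +kernel

/-- The slices of the chunk 270. -/
noncomputable def c270 : List (List ℕ) := [
  [tr p265_7,
   tr p266_7,
   p270_2,
   p270_3,
   s4_5 (s0_1 p270_2),
   s4_5 (s0_1 p270_3),
   tr p269_7,
   p270_7],
  [p270_8,
   p270_9,
   p270_10,
   p270_11,
   p270_12,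
   p270_13,
   p270_14,
   p270_15],
  [s4_5 (s0_1 p270_8),
   s4_5 (s0_1 p270_9),
   s4_5 (s0_1 p270_12),
   s4_5 (s0_1 p270_13),
   s4_5 (s0_1 p270_10),
   s4_5 (s0_1 p270_11),
   s4_5 (s0_1 p270_14),
   s4_5 (s0_1 p270_15)],
  [s3_6 (s2_7 (s1_5 (s0_4 p269_25))),
   p270_25,
   p270_26,
   p270_27,
   s4_5 (s0_1 p270_26),
   s4_5 (s0_1 p270_27),
   tr p277_7,
   tr p278_7],
  [tr p279_7,
   tr p280_7,
   p270_34,
   p270_35,
   s4_5 (s0_1 p270_34),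
   s4_5 (s0_1 p270_35),
   p270_38,
   p270_39],
  [p270_40,
   p270_41,
   p270_42,
   p270_43,
   p270_44,
   p270_45,
   p270_46,
   p270_47],
  [s4_5 (s0_1 p270_40),
   s4_5 (s0_1 p270_41),
   s4_5 (s0_1 p270_44),
   s4_5 (s0_1 p270_45),
   s4_5 (s0_1 p270_42),
   s4_5 (s0_1 p270_43),
   s4_5 (s0_1 p270_46),
   s4_5 (s0_1 p270_47)],
  [p270_56,
   p270_57,
   p270_58,
   p270_59,
   s4_5 (s0_1 p270_58),
   s4_5 (s0_1 p270_59),
   tr p291_7,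
   tr p292_7]]

theorem k270 : eqNN c270 (slO 64 (D.chG 31 7) 8) = true := by decide +kernel

/-- The slices of the chunk 271. -/
noncomputable def c271 : List (List ℕ) := [
  [tr p265_10,
   tr p266_10,
   p271_2,
   p271_3,
   p271_4,
   p271_5,
   tr p269_10,
   tr p270_10],
  [s6_7 (s2_3 p271_2),
   s6_7 (s2_3 p271_3),
   p271_10,
   p271_11,
   p271_12,
   p271_13,
   p271_14,
   p271_15],
  [s6_7 (s2_3 p271_4),
   s6_7 (s2_3 p271_5),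
   s6_7 (s2_3 p271_12),
   s6_7 (s2_3 p271_13),
   p271_20,
   p271_21,
   p271_22,
   p271_23],
  [s3_6 (s2_7 (s1_5 (s0_4 p269_10))),
   s3_6 (s2_7 (s1_5 (s0_4 p270_10))),
   s6_7 (s2_3 p271_14),
   s6_7 (s2_3 p271_15),
   s6_7 (s2_3 p271_22),
   s6_7 (s2_3 p271_23),
   tr p277_10,
   tr p278_10],
  [tr p279_10,
   tr p280_10,
   p271_34,
   p271_35,
   p271_36,
   p271_37,
   p271_38,
   p271_39],
  [s6_7 (s2_3 p271_34),
   s6_7 (s2_3 p271_35),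
   p271_42,
   p271_43,
   p271_44,
   p271_45,
   p271_46,
   p271_47],
  [s6_7 (s2_3 p271_36),
   s6_7 (s2_3 p271_37),
   s6_7 (s2_3 p271_44),
   s6_7 (s2_3 p271_45),
   p271_52,
   p271_53,
   p271_54,
   p271_55],
  [s6_7 (s2_3 p271_38),
   s6_7 (s2_3 p271_39),
   s6_7 (s2_3 p271_46),
   s6_7 (s2_3 p271_47),
   s6_7 (s2_3 p271_54),
   s6_7 (s2_3 p271_55),
   tr p291_10,
   tr p292_10]]

theorem k271 : eqNN c271 (slO 64 (D.chG 31 10) 8) = true := by decide +kernel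

end Pool.Agent.Lib.MP_afdd4d_co.K10.E6
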