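import Pool.Agent.Lib.MP_afdd4d_co.K10.E6.Dat
import Pool.Agent.Lib.MP_afdd4d_co.K10.E6.Mk
import Pool.Agent.Lib.MP_afdd4d_co.K8.F6Bl5
import Pool.Agent.Lib.MP_afdd4d_co.K10.E6.P0
import Pool.Agent.Lib.MP_afdd4d_co.K10.E6.P1
import Pool.Agent.Lib.MP_afdd4d_co.K10.E6.P2
import Pool.Agent.Lib.MP_afdd4d_co.K10.E6.P3
import Pool.Agent.Lib.MP_afdd4d_co.K10.E6.P4
import Pool.Agent.Lib.MP_afdd4d_co.K10.E6.P5
import Pool.Agent.Lib.MP_afdd4d_co.K10.E6.P6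
import Pool.Agent.Lib.MP_afdd4d_co.K10.E6.P7
import Pool.Agent.Lib.MP_afdd4d_co.K10.E6.P8
import Pool.Agent.Lib.MP_afdd4d_co.K10.E6.P9
import Pool.Agent.Lib.MP_afdd4d_co.K10.E6.P10
import Pool.Agent.Lib.MP_afdd4d_co.K10.E6.P11
import Pool.Agent.Lib.MP_afdd4d_co.K10.E6.P12
import Pool.Agent.Lib.MP_afdd4d_co.K10.E6.P13
import Pool.Agent.Lib.MP_afdd4d_co.K10.E6.P14
import Pool.Agent.Lib.MP_afdd4d_co.K10.E6.P15
import Pool.Agent.Lib.MP_afdd4d_co.K10.E6.P16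
import Pool.Agent.Lib.MP_afdd4d_co.K10.E6.P17
import Pool.Agent.Lib.MP_afdd4d_co.K10.E6.P18
import Pool.Agent.Lib.MP_afdd4d_co.K10.E6.P19
import Pool.Agent.Lib.MP_afdd4d_co.K10.E6.P20
import Pool.Agent.Lib.MP_afdd4d_co.K10.E6.P21
import Pool.Agent.Lib.MP_afdd4d_co.K10.E6.P22
import Pool.Agent.Lib.MP_afdd4d_co.K10.E6.P23
import Pool.Agent.Lib.MP_afdd4d_co.K10.E6.P24
import Pool.Agent.Lib.MP_afdd4d_co.K10.E6.P25
import Pool.Agent.Lib.MP_afdd4d_co.K10.E6.P26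
import Pool.Agent.Lib.MP_afdd4d_co.K10.E6.P27
import Pool.Agent.Lib.MP_afdd4d_co.K10.E6.P28
import Pool.Agent.Lib.MP_afdd4d_co.K10.E6.P29
import Pool.Agent.Lib.MP_afdd4d_co.K10.E6.P30
import Pool.Agent.Lib.MP_afdd4d_co.K10.E6.P31
import Pool.Agent.Lib.MP_afdd4d_co.K10.E6.P32

/-!
# Tables
-/

namespace Pool.Agent.Lib.MP_afdd4d_co.K10.E6

open K8

set_option maxRecDepth 100000
set_option exponentiation.threshold 10000000

/-- The slices of the chunk 272. -/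
noncomputable def c272 : List (List ℕ) := [
  [tr p265_11,
   tr p266_11,
   p272_2,
   p272_3,
   p272_4,
   p272_5,
   tr p269_11,
   tr p270_11],
  [s6_7 (s2_3 p272_2),
   s6_7 (s2_3 p272_3),
   tr p271_11,
   p272_11,
   p272_12,
   p272_13,
   p272_14,
   p272_15],
  [s6_7 (s2_3 p272_4),
   s6_7 (s2_3 p272_5),
   s6_7 (s2_3 p272_12),
   s6_7 (s2_3 p272_13),
   s3_7 (s2_6 (s1_4 (s0_5 p271_21))),
   p272_21,
   p272_22,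
   p272_23],
  [s3_6 (s2_7 (s1_5 (s0_4 p269_11))),
   s3_6 (s2_7 (s1_5 (s0_4 p270_11))),
   s6_7 (s2_3 p272_14),
   s6_7 (s2_3 p272_15),
   s6_7 (s2_3 p272_22),
   s6_7 (s2_3 p272_23),
   tr p277_11,
   tr p278_11],
  [tr p279_11,
   tr p280_11,
   p272_34,
   p272_35,
   p272_36,
   p272_37,
   p272_38,
   p272_39],
  [s6_7 (s2_3 p272_34),
   s6_7 (s2_3 p272_35),
   p272_42,
   p272_43,
   p272_44,
   p272_45,
   p272_46,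
   p272_47],
  [s6_7 (s2_3 p272_36),
   s6_7 (s2_3 p272_37),
   s6_7 (s2_3 p272_44),
   s6_7 (s2_3 p272_45),
   p272_52,
   p272_53,
   p272_54,
   p272_55],
  [s6_7 (s2_3 p272_38),
   s6_7 (s2_3 p272_39),
   s6_7 (s2_3 p272_46),
   s6_7 (s2_3 p272_47),
   s6_7 (s2_3 p272_54),
   s6_7 (s2_3 p272_55),
   tr p291_11,
   tr p292_11]]

theorem k272 : eqNN c272 (slO 64 (D.chG 31 11) 8) = true := by decide +kernel

/-- The slices of the chunk 273. -/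
noncomputable def c273 : List (List ℕ) := [
  [tr p265_12,
   tr p266_12,
   tr p267_12,
   tr p268_12,
   s3_7 (s2_6 (s1_4 (s0_5 p267_18))),
   s3_7 (s2_6 (s1_4 (s0_5 p268_18))),
   tr p269_12,
   tr p270_12],
  [s3_6 (s2_7 (s1_5 (s0_4 p267_18))),
   s3_6 (s2_7 (s1_5 (s0_4 p268_18))),
   tr p271_12,
   tr p272_12,
   p273_12,
   p273_13,
   p273_14,
   p273_15],
  [s3_6 (s2_7 (s1_4 (s0_5 p267_12))),
   s3_6 (s2_7 (s1_4 (s0_5 p268_12))),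
   p273_18,
   p273_19,
   s3_6 (s2_7 (s1_4 (s0_5 p271_12))),
   s3_6 (s2_7 (s1_4 (s0_5 p272_12))),
   p273_22,
   p273_23],
  [s3_6 (s2_7 (s1_4 (s0_5 p269_12))),
   s3_6 (s2_7 (s1_4 (s0_5 p270_12))),
   s6_7 (s4_5 (s2_3 (s0_1 p273_22))),
   s6_7 (s4_5 (s2_3 (s0_1 p273_23))),
   s6_7 (s4_5 (s2_3 (s0_1 p273_14))),
   s6_7 (s4_5 (s2_3 (s0_1 p273_15))),
   tr p277_12,
   tr p278_12],
  [tr p279_12,
   tr p280_12,
   p273_34,
   p273_35,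
   p273_36,
   p273_37,
   tr p283_12,
   tr p284_12],
  [s6_7 (s4_5 (s2_3 (s0_1 p273_36))),
   s6_7 (s4_5 (s2_3 (s0_1 p273_37))),
   tr p285_12,
   tr p286_12,
   p273_44,
   p273_45,
   p273_46,
   p273_47],
  [s6_7 (s4_5 (s2_3 (s0_1 p273_34))),
   s6_7 (s4_5 (s2_3 (s0_1 p273_35))),
   p273_50,
   p273_51,
   s3_6 (s2_7 (s1_4 (s0_5 p285_12))),
   s3_6 (s2_7 (s1_4 (s0_5 p286_12))),
   p273_54,
   p273_55],
  [s3_6 (s2_7 (s1_4 (s0_5 p283_12))),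
   s3_6 (s2_7 (s1_4 (s0_5 p284_12))),
   s6_7 (s4_5 (s2_3 (s0_1 p273_54))),
   s6_7 (s4_5 (s2_3 (s0_1 p273_55))),
   s6_7 (s4_5 (s2_3 (s0_1 p273_46))),
   s6_7 (s4_5 (s2_3 (s0_1 p273_47))),
   tr p291_12,
   tr p292_12]]

theorem k273 : eqNN c273 (slO 64 (D.chG 31 12) 8) = true := by decide +kernel

/-- The slices of the chunk 274. -/
noncomputable def c274 : List (List ℕ) := [
  [tr p265_13,
   tr p266_13,
   tr p267_13,
   tr p268_13,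
   s3_7 (s2_6 (s1_4 (s0_5 p267_19))),
   s3_7 (s2_6 (s1_4 (s0_5 p268_19))),
   tr p269_13,
   tr p270_13],
  [s3_6 (s2_7 (s1_5 (s0_4 p267_19))),
   s3_6 (s2_7 (s1_5 (s0_4 p268_19))),
   tr p271_13,
   tr p272_13,
   tr p273_13,
   p274_13,
   p274_14,
   p274_15],
  [s3_6 (s2_7 (s1_4 (s0_5 p267_13))),
   s3_6 (s2_7 (s1_4 (s0_5 p268_13))),
   s3_6 (s2_7 (s1_5 (s0_4 p273_19))),
   p274_19,
   s3_6 (s2_7 (s1_4 (s0_5 p271_13))),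
   s3_6 (s2_7 (s1_4 (s0_5 p272_13))),
   p274_22,
   p274_23],
  [s3_6 (s2_7 (s1_4 (s0_5 p269_13))),
   s3_6 (s2_7 (s1_4 (s0_5 p270_13))),
   s6_7 (s4_5 (s2_3 (s0_1 p274_22))),
   s6_7 (s4_5 (s2_3 (s0_1 p274_23))),
   s6_7 (s4_5 (s2_3 (s0_1 p274_14))),
   s6_7 (s4_5 (s2_3 (s0_1 p274_15))),
   tr p277_13,
   tr p278_13],
  [tr p279_13,
   tr p280_13,
   p274_34,
   p274_35,
   p274_36,
   p274_37,
   tr p283_13,
   tr p284_13],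
  [s6_7 (s4_5 (s2_3 (s0_1 p274_36))),
   s6_7 (s4_5 (s2_3 (s0_1 p274_37))),
   tr p285_13,
   tr p286_13,
   p274_44,
   p274_45,
   p274_46,
   p274_47],
  [s6_7 (s4_5 (s2_3 (s0_1 p274_34))),
   s6_7 (s4_5 (s2_3 (s0_1 p274_35))),
   p274_50,
   p274_51,
   s3_6 (s2_7 (s1_4 (s0_5 p285_13))),
   s3_6 (s2_7 (s1_4 (s0_5 p286_13))),
   p274_54,
   p274_55],
  [s3_6 (s2_7 (s1_4 (s0_5 p283_13))),
   s3_6 (s2_7 (s1_4 (s0_5 p284_13))),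
   s6_7 (s4_5 (s2_3 (s0_1 p274_54))),
   s6_7 (s4_5 (s2_3 (s0_1 p274_55))),
   s6_7 (s4_5 (s2_3 (s0_1 p274_46))),
   s6_7 (s4_5 (s2_3 (s0_1 p274_47))),
   tr p291_13,
   tr p292_13]]

theorem k274 : eqNN c274 (slO 64 (D.chG 31 13) 8) = true := by decide +kernel

/-- The slices of the chunk 275. -/
noncomputable def c275 : List (List ℕ) := [
  [tr p265_14,
   tr p266_14,
   tr p267_14,
   tr p268_14,
   s3_7 (s2_6 (s1_4 (s0_5 p267_22))),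
   s3_7 (s2_6 (s1_4 (s0_5 p268_22))),
   tr p269_14,
   tr p270_14],
  [s3_6 (s2_7 (s1_5 (s0_4 p267_26))),
   s3_6 (s2_7 (s1_5 (s0_4 p268_26))),
   tr p271_14,
   tr p272_14,
   tr p273_14,
   tr p274_14,
   p275_14,
   p275_15],
  [s3_6 (s2_7 (s1_4 (s0_5 p267_28))),
   s3_6 (s2_7 (s1_4 (s0_5 p268_28))),
   s3_7 (s2_6 (s1_4 (s0_5 p273_22))),
   s3_7 (s2_6 (s1_4 (s0_5 p274_22))),
   s3_7 (s2_6 (s1_4 (s0_5 p271_22))),
   s3_7 (s2_6 (s1_4 (s0_5 p272_22))),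
   p275_22,
   p275_23],
  [s3_6 (s2_7 (s1_5 (s0_4 p269_26))),
   s3_6 (s2_7 (s1_5 (s0_4 p270_26))),
   p275_26,
   p275_27,
   p275_28,
   p275_29,
   tr p277_14,
   tr p278_14],
  [tr p279_14,
   tr p280_14,
   p275_34,
   p275_35,
   p275_36,
   p275_37,
   tr p283_14,
   tr p284_14],
  [p275_40,
   p275_41,
   tr p285_14,
   tr p286_14,
   p275_44,
   p275_45,
   p275_46,
   p275_47],
  [p275_48,
   p275_49,
   p275_50,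
   p275_51,
   s3_7 (s2_6 (s1_4 (s0_5 p285_22))),
   s3_7 (s2_6 (s1_4 (s0_5 p286_22))),
   p275_54,
   p275_55],
  [s3_6 (s2_7 (s1_5 (s0_4 p283_26))),
   s3_6 (s2_7 (s1_5 (s0_4 p284_26))),
   p275_58,
   p275_59,
   p275_60,
   p275_61,
   tr p291_14,
   tr p292_14]]

theorem k275 : eqNN c275 (slO 64 (D.chG 31 14) 8) = true := by decide +kernel

end Pool.Agent.Lib.MP_afdd4d_co.K10.E6
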