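import Pool.Agent.Lib.MP_afdd4d_co.K10.E6.Dat
import Pool.Agent.Lib.MP_afdd4d_co.K10.E6.Mk
import Pool.Agent.Lib.MP_afdd4d_co.K8.F6Bl5
import Pool.Agent.Lib.MP_afdd4d_co.K10.E6.P0
import Pool.Agent.Lib.MP_afdd4d_co.K10.E6.P1
import Pool.Agent.Lib.MP_afdd4d_co.K10.E6.P2
import Pool.Agent.Lib.MP_afdd4d_co.K10.E6.P3
import Pool.Agent.Lib.MP_afdd4d_co.K10.E6.P4
import Pool.Agent.Lib.MP_afdd4d_co.K10.E6.P5
import Pool.Agent.Lib.MP_afdd4d_co.K10.E6.P6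
import Pool.Agent.Lib.MP_afdd4d_co.K10.E6.P7
import Pool.Agent.Lib.MP_afdd4d_co.K10.E6.P8
import Pool.Agent.Lib.MP_afdd4d_co.K10.E6.P9
import Pool.Agent.Lib.MP_afdd4d_co.K10.E6.P10
import Pool.Agent.Lib.MP_afdd4d_co.K10.E6.P11
import Pool.Agent.Lib.MP_afdd4d_co.K10.E6.P12
import Pool.Agent.Lib.MP_afdd4d_co.K10.E6.P13
import Pool.Agent.Lib.MP_afdd4d_co.K10.E6.P14
import Pool.Agent.Lib.MP_afdd4d_co.K10.E6.P15
import Pool.Agent.Lib.MP_afdd4d_co.K10.E6.P16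
import Pool.Agent.Lib.MP_afdd4d_co.K10.E6.P17
import Pool.Agent.Lib.MP_afdd4d_co.K10.E6.P18
import Pool.Agent.Lib.MP_afdd4d_co.K10.E6.P19
import Pool.Agent.Lib.MP_afdd4d_co.K10.E6.P20
import Pool.Agent.Lib.MP_afdd4d_co.K10.E6.P21
import Pool.Agent.Lib.MP_afdd4d_co.K10.E6.P22
import Pool.Agent.Lib.MP_afdd4d_co.K10.E6.P23
import Pool.Agent.Lib.MP_afdd4d_co.K10.E6.P24
import Pool.Agent.Lib.MP_afdd4d_co.K10.E6.P25
import Pool.Agent.Lib.MP_afdd4d_co.K10.E6.P26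
import Pool.Agent.Lib.MP_afdd4d_co.K10.E6.P27
import Pool.Agent.Lib.MP_afdd4d_co.K10.E6.P28
import Pool.Agent.Lib.MP_afdd4d_co.K10.E6.P29
import Pool.Agent.Lib.MP_afdd4d_co.K10.E6.P30
import Pool.Agent.Lib.MP_afdd4d_co.K10.E6.P31
import Pool.Agent.Lib.MP_afdd4d_co.K10.E6.P32

/-!
# Tables
-/

namespace Pool.Agent.Lib.MP_afdd4d_co.K10.E6

open K8

set_option maxRecDepth 100000
set_option exponentiation.threshold 10000000

/-- The slices of the chunk 276. -/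
noncomputable def c276 : List (List ℕ) := [
  [tr p265_15,
   tr p266_15,
   tr p267_15,
   tr p268_15,
   s3_7 (s2_6 (s1_4 (s0_5 p267_23))),
   s3_7 (s2_6 (s1_4 (s0_5 p268_23))),
   tr p269_15,
   tr p270_15],
  [s3_6 (s2_7 (s1_5 (s0_4 p267_27))),
   s3_6 (s2_7 (s1_5 (s0_4 p268_27))),
   tr p271_15,
   tr p272_15,
   tr p273_15,
   tr p274_15,
   tr p275_15,
   p276_15],
  [s3_6 (s2_7 (s1_4 (s0_5 p267_29))),
   s3_6 (s2_7 (s1_4 (s0_5 p268_29))),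
   s3_7 (s2_6 (s1_4 (s0_5 p273_23))),
   s3_7 (s2_6 (s1_4 (s0_5 p274_23))),
   s3_7 (s2_6 (s1_4 (s0_5 p271_23))),
   s3_7 (s2_6 (s1_4 (s0_5 p272_23))),
   s3_7 (s2_6 (s1_4 (s0_5 p275_23))),
   p276_23],
  [s3_6 (s2_7 (s1_5 (s0_4 p269_27))),
   s3_6 (s2_7 (s1_5 (s0_4 p270_27))),
   s3_6 (s2_7 (s1_5 (s0_4 p275_27))),
   p276_27,
   s3_6 (s2_7 (s1_4 (s0_5 p275_29))),
   p276_29,
   tr p277_15,
   tr p278_15],
  [tr p279_15,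
   tr p280_15,
   p276_34,
   p276_35,
   p276_36,
   p276_37,
   tr p283_15,
   tr p284_15],
  [p276_40,
   p276_41,
   tr p285_15,
   tr p286_15,
   p276_44,
   p276_45,
   p276_46,
   p276_47],
  [p276_48,
   p276_49,
   p276_50,
   p276_51,
   s3_7 (s2_6 (s1_4 (s0_5 p285_23))),
   s3_7 (s2_6 (s1_4 (s0_5 p286_23))),
   p276_54,
   p276_55],
  [s3_6 (s2_7 (s1_5 (s0_4 p283_27))),
   s3_6 (s2_7 (s1_5 (s0_4 p284_27))),
   p276_58,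
   p276_59,
   p276_60,
   p276_61,
   tr p291_15,
   tr p292_15]]

theorem k276 : eqNN c276 (slO 64 (D.chG 31 15) 8) = true := by decide +kernel

/-- The slices of the chunk 277. -/
noncomputable def c277 : List (List ℕ) := [
  [tr p265_30,
   tr p266_30,
   p277_2,
   p277_3,
   s4_5 (s0_1 p277_2),
   s4_5 (s0_1 p277_3),
   p277_6,
   p277_7],
  [s6_7 (s2_3 p277_2),
   s6_7 (s2_3 p277_3),
   p277_10,
   p277_11,
   p277_12,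
   p277_13,
   p277_14,
   p277_15],
  [s6_7 (s4_5 (s2_3 (s0_1 p277_2))),
   s6_7 (s4_5 (s2_3 (s0_1 p277_3))),
   s6_7 (s2_3 p277_12),
   s6_7 (s2_3 p277_13),
   s4_5 (s0_1 p277_10),
   s4_5 (s0_1 p277_11),
   s4_5 (s0_1 p277_14),
   s4_5 (s0_1 p277_15)],
  [s6_7 (s2_3 p277_6),
   s6_7 (s2_3 p277_7),
   s6_7 (s2_3 p277_14),
   s6_7 (s2_3 p277_15),
   s6_7 (s4_5 (s2_3 (s0_1 p277_14))),
   s6_7 (s4_5 (s2_3 (s0_1 p277_15))),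
   p277_30,
   p277_31],
  [p277_32,
   p277_33,
   p277_34,
   p277_35,
   s4_5 (s0_1 p277_34),
   s4_5 (s0_1 p277_35),
   p277_38,
   p277_39],
  [s6_7 (s2_3 p277_34),
   s6_7 (s2_3 p277_35),
   p277_42,
   p277_43,
   p277_44,
   p277_45,
   p277_46,
   p277_47],
  [s6_7 (s4_5 (s2_3 (s0_1 p277_34))),
   s6_7 (s4_5 (s2_3 (s0_1 p277_35))),
   s6_7 (s2_3 p277_44),
   s6_7 (s2_3 p277_45),
   s4_5 (s0_1 p277_42),
   s4_5 (s0_1 p277_43),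
   s4_5 (s0_1 p277_46),
   s4_5 (s0_1 p277_47)],
  [s6_7 (s2_3 p277_38),
   s6_7 (s2_3 p277_39),
   s6_7 (s2_3 p277_46),
   s6_7 (s2_3 p277_47),
   s6_7 (s4_5 (s2_3 (s0_1 p277_46))),
   s6_7 (s4_5 (s2_3 (s0_1 p277_47))),
   p277_62,
   p277_63]]

theorem k277 : eqNN c277 (slO 64 (D.chG 31 30) 8) = true := by decide +kernel

/-- The slices of the chunk 278. -/
noncomputable def c278 : List (List ℕ) := [
  [tr p265_31,
   tr p266_31,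
   p278_2,
   p278_3,
   s4_5 (s0_1 p278_2),
   s4_5 (s0_1 p278_3),
   p278_6,
   p278_7],
  [s6_7 (s2_3 p278_2),
   s6_7 (s2_3 p278_3),
   p278_10,
   p278_11,
   p278_12,
   p278_13,
   p278_14,
   p278_15],
  [s6_7 (s4_5 (s2_3 (s0_1 p278_2))),
   s6_7 (s4_5 (s2_3 (s0_1 p278_3))),
   s6_7 (s2_3 p278_12),
   s6_7 (s2_3 p278_13),
   s4_5 (s0_1 p278_10),
   s4_5 (s0_1 p278_11),
   s4_5 (s0_1 p278_14),
   s4_5 (s0_1 p278_15)],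
  [s6_7 (s2_3 p278_6),
   s6_7 (s2_3 p278_7),
   s6_7 (s2_3 p278_14),
   s6_7 (s2_3 p278_15),
   s6_7 (s4_5 (s2_3 (s0_1 p278_14))),
   s6_7 (s4_5 (s2_3 (s0_1 p278_15))),
   tr p277_31,
   p278_31],
  [p278_32,
   p278_33,
   p278_34,
   p278_35,
   s4_5 (s0_1 p278_34),
   s4_5 (s0_1 p278_35),
   p278_38,
   p278_39],
  [s6_7 (s2_3 p278_34),
   s6_7 (s2_3 p278_35),
   p278_42,
   p278_43,
   p278_44,
   p278_45,
   p278_46,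
   p278_47],
  [s6_7 (s4_5 (s2_3 (s0_1 p278_34))),
   s6_7 (s4_5 (s2_3 (s0_1 p278_35))),
   s6_7 (s2_3 p278_44),
   s6_7 (s2_3 p278_45),
   s4_5 (s0_1 p278_42),
   s4_5 (s0_1 p278_43),
   s4_5 (s0_1 p278_46),
   s4_5 (s0_1 p278_47)],
  [s6_7 (s2_3 p278_38),
   s6_7 (s2_3 p278_39),
   s6_7 (s2_3 p278_46),
   s6_7 (s2_3 p278_47),
   s6_7 (s4_5 (s2_3 (s0_1 p278_46))),
   s6_7 (s4_5 (s2_3 (s0_1 p278_47))),
   p278_62,
   p278_63]]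

theorem k278 : eqNN c278 (slO 64 (D.chG 31 31) 8) = true := by decide +kernel

/-- The slices of the chunk 279. -/
noncomputable def c279 : List (List ℕ) := [
  [tr p265_32,
   tr p266_32,
   p279_2,
   p279_3,
   s4_5 (s0_1 p279_2),
   s4_5 (s0_1 p279_3),
   p279_6,
   p279_7],
  [s6_7 (s2_3 p279_2),
   s6_7 (s2_3 p279_3),
   p279_10,
   p279_11,
   p279_12,
   p279_13,
   p279_14,
   p279_15],
  [s6_7 (s4_5 (s2_3 (s0_1 p279_2))),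
   s6_7 (s4_5 (s2_3 (s0_1 p279_3))),
   s6_7 (s2_3 p279_12),
   s6_7 (s2_3 p279_13),
   s4_5 (s0_1 p279_10),
   s4_5 (s0_1 p279_11),
   s4_5 (s0_1 p279_14),
   s4_5 (s0_1 p279_15)],
  [s6_7 (s2_3 p279_6),
   s6_7 (s2_3 p279_7),
   s6_7 (s2_3 p279_14),
   s6_7 (s2_3 p279_15),
   s6_7 (s4_5 (s2_3 (s0_1 p279_14))),
   s6_7 (s4_5 (s2_3 (s0_1 p279_15))),
   tr p277_32,
   tr p278_32],
  [p279_32,
   p279_33,
   p279_34,
   p279_35,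
   s4_5 (s0_1 p279_34),
   s4_5 (s0_1 p279_35),
   p279_38,
   p279_39],
  [s6_7 (s2_3 p279_34),
   s6_7 (s2_3 p279_35),
   p279_42,
   p279_43,
   p279_44,
   p279_45,
   p279_46,
   p279_47],
  [s6_7 (s4_5 (s2_3 (s0_1 p279_34))),
   s6_7 (s4_5 (s2_3 (s0_1 p279_35))),
   s6_7 (s2_3 p279_44),
   s6_7 (s2_3 p279_45),
   s4_5 (s0_1 p279_42),
   s4_5 (s0_1 p279_43),
   s4_5 (s0_1 p279_46),
   s4_5 (s0_1 p279_47)],
  [s6_7 (s2_3 p279_38),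
   s6_7 (s2_3 p279_39),
   s6_7 (s2_3 p279_46),
   s6_7 (s2_3 p279_47),
   s6_7 (s4_5 (s2_3 (s0_1 p279_46))),
   s6_7 (s4_5 (s2_3 (s0_1 p279_47))),
   p279_62,
   p279_63]]

theorem k279 : eqNN c279 (slO 64 (D.chG 31 32) 8) = true := by decide +kernel

end Pool.Agent.Lib.MP_afdd4d_co.K10.E6
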