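import Pool.Agent.Lib.MP_afdd4d_co.K10.E6.Dat
import Pool.Agent.Lib.MP_afdd4d_co.K10.E6.Mk
import Pool.Agent.Lib.MP_afdd4d_co.K8.F6Bl5
import Pool.Agent.Lib.MP_afdd4d_co.K10.E6.P0
import Pool.Agent.Lib.MP_afdd4d_co.K10.E6.P1
import Pool.Agent.Lib.MP_afdd4d_co.K10.E6.P2
import Pool.Agent.Lib.MP_afdd4d_co.K10.E6.P3
import Pool.Agent.Lib.MP_afdd4d_co.K10.E6.P4
import Pool.Agent.Lib.MP_afdd4d_co.K10.E6.P5
import Pool.Agent.Lib.MP_afdd4d_co.K10.E6.P6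
import Pool.Agent.Lib.MP_afdd4d_co.K10.E6.P7
import Pool.Agent.Lib.MP_afdd4d_co.K10.E6.P8
import Pool.Agent.Lib.MP_afdd4d_co.K10.E6.P9
import Pool.Agent.Lib.MP_afdd4d_co.K10.E6.P10
import Pool.Agent.Lib.MP_afdd4d_co.K10.E6.P11
import Pool.Agent.Lib.MP_afdd4d_co.K10.E6.P12
import Pool.Agent.Lib.MP_afdd4d_co.K10.E6.P13
import Pool.Agent.Lib.MP_afdd4d_co.K10.E6.P14
import Pool.Agent.Lib.MP_afdd4d_co.K10.E6.P15
import Pool.Agent.Lib.MP_afdd4d_co.K10.E6.P16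
import Pool.Agent.Lib.MP_afdd4d_co.K10.E6.P17
import Pool.Agent.Lib.MP_afdd4d_co.K10.E6.P18
import Pool.Agent.Lib.MP_afdd4d_co.K10.E6.P19
import Pool.Agent.Lib.MP_afdd4d_co.K10.E6.P20
import Pool.Agent.Lib.MP_afdd4d_co.K10.E6.P21
import Pool.Agent.Lib.MP_afdd4d_co.K10.E6.P22
import Pool.Agent.Lib.MP_afdd4d_co.K10.E6.P23
import Pool.Agent.Lib.MP_afdd4d_co.K10.E6.P24
import Pool.Agent.Lib.MP_afdd4d_co.K10.E6.P25
import Pool.Agent.Lib.MP_afdd4d_co.K10.E6.P26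
import Pool.Agent.Lib.MP_afdd4d_co.K10.E6.P27
import Pool.Agent.Lib.MP_afdd4d_co.K10.E6.P28
import Pool.Agent.Lib.MP_afdd4d_co.K10.E6.P29
import Pool.Agent.Lib.MP_afdd4d_co.K10.E6.P30
import Pool.Agent.Lib.MP_afdd4d_co.K10.E6.P31
import Pool.Agent.Lib.MP_afdd4d_co.K10.E6.P32

/-!
# Tables
-/

namespace Pool.Agent.Lib.MP_afdd4d_co.K10.E6

open K8

set_option maxRecDepth 100000
set_option exponentiation.threshold 10000000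

/-- The slices of the chunk 28. -/
noncomputable def c28 : List (List ℕ) := [
  [tr p23_7,
   tr p24_7,
   p28_2,
   p28_3,
   s4_5 (s0_1 p28_2),
   s4_5 (s0_1 p28_3),
   tr p27_7,
   p28_7],
  [p28_8,
   p28_9,
   p28_10,
   p28_11,
   p28_12,
   p28_13,
   p28_14,
   p28_15],
  [s4_5 (s0_1 p28_8),
   s4_5 (s0_1 p28_9),
   s4_5 (s0_1 p28_12),
   s4_5 (s0_1 p28_13),
   s4_5 (s0_1 p28_10),
   s4_5 (s0_1 p28_11),
   s4_5 (s0_1 p28_14),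
   s4_5 (s0_1 p28_15)],
  [s3_6 (s2_7 (s1_5 (s0_4 p27_25))),
   p28_25,
   p28_26,
   p28_27,
   s4_5 (s0_1 p28_26),
   s4_5 (s0_1 p28_27),
   tr p35_7,
   tr p36_7],
  [tr p37_7,
   tr p38_7,
   p28_34,
   p28_35,
   s4_5 (s0_1 p28_34),
   s4_5 (s0_1 p28_35),
   p28_38,
   p28_39],
  [p28_40,
   p28_41,
   p28_42,
   p28_43,
   p28_44,
   p28_45,
   p28_46,
   p28_47],
  [s4_5 (s0_1 p28_40),
   s4_5 (s0_1 p28_41),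
   s4_5 (s0_1 p28_44),
   s4_5 (s0_1 p28_45),
   s4_5 (s0_1 p28_42),
   s4_5 (s0_1 p28_43),
   s4_5 (s0_1 p28_46),
   s4_5 (s0_1 p28_47)],
  [p28_56,
   p28_57,
   p28_58,
   p28_59,
   s4_5 (s0_1 p28_58),
   s4_5 (s0_1 p28_59),
   tr p49_7,
   tr p50_7]]

theorem k28 : eqNN c28 (slO 64 (D.chG 3 7) 8) = true := by decide +kernel

/-- The slices of the chunk 29. -/
noncomputable def c29 : List (List ℕ) := [
  [tr p23_10,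
   tr p24_10,
   p29_2,
   p29_3,
   p29_4,
   p29_5,
   tr p27_10,
   tr p28_10],
  [s6_7 (s2_3 p29_2),
   s6_7 (s2_3 p29_3),
   p29_10,
   p29_11,
   p29_12,
   p29_13,
   p29_14,
   p29_15],
  [s6_7 (s2_3 p29_4),
   s6_7 (s2_3 p29_5),
   s6_7 (s2_3 p29_12),
   s6_7 (s2_3 p29_13),
   p29_20,
   p29_21,
   p29_22,
   p29_23],
  [s3_6 (s2_7 (s1_5 (s0_4 p27_10))),
   s3_6 (s2_7 (s1_5 (s0_4 p28_10))),
   s6_7 (s2_3 p29_14),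
   s6_7 (s2_3 p29_15),
   s6_7 (s2_3 p29_22),
   s6_7 (s2_3 p29_23),
   tr p35_10,
   tr p36_10],
  [tr p37_10,
   tr p38_10,
   p29_34,
   p29_35,
   p29_36,
   p29_37,
   p29_38,
   p29_39],
  [s6_7 (s2_3 p29_34),
   s6_7 (s2_3 p29_35),
   p29_42,
   p29_43,
   p29_44,
   p29_45,
   p29_46,
   p29_47],
  [s6_7 (s2_3 p29_36),
   s6_7 (s2_3 p29_37),
   s6_7 (s2_3 p29_44),
   s6_7 (s2_3 p29_45),
   p29_52,
   p29_53,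
   p29_54,
   p29_55],
  [s6_7 (s2_3 p29_38),
   s6_7 (s2_3 p29_39),
   s6_7 (s2_3 p29_46),
   s6_7 (s2_3 p29_47),
   s6_7 (s2_3 p29_54),
   s6_7 (s2_3 p29_55),
   tr p49_10,
   tr p50_10]]

theorem k29 : eqNN c29 (slO 64 (D.chG 3 10) 8) = true := by decide +kernel

/-- The slices of the chunk 30. -/
noncomputable def c30 : List (List ℕ) := [
  [tr p23_11,
   tr p24_11,
   p30_2,
   p30_3,
   p30_4,
   p30_5,
   tr p27_11,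
   tr p28_11],
  [s6_7 (s2_3 p30_2),
   s6_7 (s2_3 p30_3),
   tr p29_11,
   p30_11,
   p30_12,
   p30_13,
   p30_14,
   p30_15],
  [s6_7 (s2_3 p30_4),
   s6_7 (s2_3 p30_5),
   s6_7 (s2_3 p30_12),
   s6_7 (s2_3 p30_13),
   s3_7 (s2_6 (s1_4 (s0_5 p29_21))),
   p30_21,
   p30_22,
   p30_23],
  [s3_6 (s2_7 (s1_5 (s0_4 p27_11))),
   s3_6 (s2_7 (s1_5 (s0_4 p28_11))),
   s6_7 (s2_3 p30_14),
   s6_7 (s2_3 p30_15),
   s6_7 (s2_3 p30_22),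
   s6_7 (s2_3 p30_23),
   tr p35_11,
   tr p36_11],
  [tr p37_11,
   tr p38_11,
   p30_34,
   p30_35,
   p30_36,
   p30_37,
   p30_38,
   p30_39],
  [s6_7 (s2_3 p30_34),
   s6_7 (s2_3 p30_35),
   p30_42,
   p30_43,
   p30_44,
   p30_45,
   p30_46,
   p30_47],
  [s6_7 (s2_3 p30_36),
   s6_7 (s2_3 p30_37),
   s6_7 (s2_3 p30_44),
   s6_7 (s2_3 p30_45),
   p30_52,
   p30_53,
   p30_54,
   p30_55],
  [s6_7 (s2_3 p30_38),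
   s6_7 (s2_3 p30_39),
   s6_7 (s2_3 p30_46),
   s6_7 (s2_3 p30_47),
   s6_7 (s2_3 p30_54),
   s6_7 (s2_3 p30_55),
   tr p49_11,
   tr p50_11]]

theorem k30 : eqNN c30 (slO 64 (D.chG 3 11) 8) = true := by decide +kernel

/-- The slices of the chunk 31. -/
noncomputable def c31 : List (List ℕ) := [
  [tr p23_12,
   tr p24_12,
   tr p25_12,
   tr p26_12,
   s3_7 (s2_6 (s1_4 (s0_5 p25_18))),
   s3_7 (s2_6 (s1_4 (s0_5 p26_18))),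
   tr p27_12,
   tr p28_12],
  [s3_6 (s2_7 (s1_5 (s0_4 p25_18))),
   s3_6 (s2_7 (s1_5 (s0_4 p26_18))),
   tr p29_12,
   tr p30_12,
   p31_12,
   p31_13,
   p31_14,
   p31_15],
  [s3_6 (s2_7 (s1_4 (s0_5 p25_12))),
   s3_6 (s2_7 (s1_4 (s0_5 p26_12))),
   p31_18,
   p31_19,
   s3_6 (s2_7 (s1_4 (s0_5 p29_12))),
   s3_6 (s2_7 (s1_4 (s0_5 p30_12))),
   p31_22,
   p31_23],
  [s3_6 (s2_7 (s1_4 (s0_5 p27_12))),
   s3_6 (s2_7 (s1_4 (s0_5 p28_12))),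
   s6_7 (s4_5 (s2_3 (s0_1 p31_22))),
   s6_7 (s4_5 (s2_3 (s0_1 p31_23))),
   s6_7 (s4_5 (s2_3 (s0_1 p31_14))),
   s6_7 (s4_5 (s2_3 (s0_1 p31_15))),
   tr p35_12,
   tr p36_12],
  [tr p37_12,
   tr p38_12,
   p31_34,
   p31_35,
   p31_36,
   p31_37,
   tr p41_12,
   tr p42_12],
  [s6_7 (s4_5 (s2_3 (s0_1 p31_36))),
   s6_7 (s4_5 (s2_3 (s0_1 p31_37))),
   tr p43_12,
   tr p44_12,
   p31_44,
   p31_45,
   p31_46,
   p31_47],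
  [s6_7 (s4_5 (s2_3 (s0_1 p31_34))),
   s6_7 (s4_5 (s2_3 (s0_1 p31_35))),
   p31_50,
   p31_51,
   s3_6 (s2_7 (s1_4 (s0_5 p43_12))),
   s3_6 (s2_7 (s1_4 (s0_5 p44_12))),
   p31_54,
   p31_55],
  [s3_6 (s2_7 (s1_4 (s0_5 p41_12))),
   s3_6 (s2_7 (s1_4 (s0_5 p42_12))),
   s6_7 (s4_5 (s2_3 (s0_1 p31_54))),
   s6_7 (s4_5 (s2_3 (s0_1 p31_55))),
   s6_7 (s4_5 (s2_3 (s0_1 p31_46))),
   s6_7 (s4_5 (s2_3 (s0_1 p31_47))),
   tr p49_12,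
   tr p50_12]]

theorem k31 : eqNN c31 (slO 64 (D.chG 3 12) 8) = true := by decide +kernel

end Pool.Agent.Lib.MP_afdd4d_co.K10.E6
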