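import Pool.Agent.Lib.MP_afdd4d_co.K10.E6.Dat
import Pool.Agent.Lib.MP_afdd4d_co.K10.E6.Mk
import Pool.Agent.Lib.MP_afdd4d_co.K8.F6Bl5
import Pool.Agent.Lib.MP_afdd4d_co.K10.E6.P0
import Pool.Agent.Lib.MP_afdd4d_co.K10.E6.P1
import Pool.Agent.Lib.MP_afdd4d_co.K10.E6.P2
import Pool.Agent.Lib.MP_afdd4d_co.K10.E6.P3
import Pool.Agent.Lib.MP_afdd4d_co.K10.E6.P4
import Pool.Agent.Lib.MP_afdd4d_co.K10.E6.P5
import Pool.Agent.Lib.MP_afdd4d_co.K10.E6.P6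
import Pool.Agent.Lib.MP_afdd4d_co.K10.E6.P7
import Pool.Agent.Lib.MP_afdd4d_co.K10.E6.P8
import Pool.Agent.Lib.MP_afdd4d_co.K10.E6.P9
import Pool.Agent.Lib.MP_afdd4d_co.K10.E6.P10
import Pool.Agent.Lib.MP_afdd4d_co.K10.E6.P11
import Pool.Agent.Lib.MP_afdd4d_co.K10.E6.P12
import Pool.Agent.Lib.MP_afdd4d_co.K10.E6.P13
import Pool.Agent.Lib.MP_afdd4d_co.K10.E6.P14
import Pool.Agent.Lib.MP_afdd4d_co.K10.E6.P15
import Pool.Agent.Lib.MP_afdd4d_co.K10.E6.P16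
import Pool.Agent.Lib.MP_afdd4d_co.K10.E6.P17
import Pool.Agent.Lib.MP_afdd4d_co.K10.E6.P18
import Pool.Agent.Lib.MP_afdd4d_co.K10.E6.P19
import Pool.Agent.Lib.MP_afdd4d_co.K10.E6.P20
import Pool.Agent.Lib.MP_afdd4d_co.K10.E6.P21
import Pool.Agent.Lib.MP_afdd4d_co.K10.E6.P22
import Pool.Agent.Lib.MP_afdd4d_co.K10.E6.P23
import Pool.Agent.Lib.MP_afdd4d_co.K10.E6.P24
import Pool.Agent.Lib.MP_afdd4d_co.K10.E6.P25
import Pool.Agent.Lib.MP_afdd4d_co.K10.E6.P26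
import Pool.Agent.Lib.MP_afdd4d_co.K10.E6.P27
import Pool.Agent.Lib.MP_afdd4d_co.K10.E6.P28
import Pool.Agent.Lib.MP_afdd4d_co.K10.E6.P29
import Pool.Agent.Lib.MP_afdd4d_co.K10.E6.P30
import Pool.Agent.Lib.MP_afdd4d_co.K10.E6.P31
import Pool.Agent.Lib.MP_afdd4d_co.K10.E6.P32

/-!
# Tables
-/

namespace Pool.Agent.Lib.MP_afdd4d_co.K10.E6

open K8

set_option maxRecDepth 100000
set_option exponentiation.threshold 10000000

/-- The slices of the chunk 280. -/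
noncomputable def c280 : List (List ℕ) := [
  [tr p265_33,
   tr p266_33,
   p280_2,
   p280_3,
   s4_5 (s0_1 p280_2),
   s4_5 (s0_1 p280_3),
   p280_6,
   p280_7],
  [s6_7 (s2_3 p280_2),
   s6_7 (s2_3 p280_3),
   p280_10,
   p280_11,
   p280_12,
   p280_13,
   p280_14,
   p280_15],
  [s6_7 (s4_5 (s2_3 (s0_1 p280_2))),
   s6_7 (s4_5 (s2_3 (s0_1 p280_3))),
   s6_7 (s2_3 p280_12),
   s6_7 (s2_3 p280_13),
   s4_5 (s0_1 p280_10),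
   s4_5 (s0_1 p280_11),
   s4_5 (s0_1 p280_14),
   s4_5 (s0_1 p280_15)],
  [s6_7 (s2_3 p280_6),
   s6_7 (s2_3 p280_7),
   s6_7 (s2_3 p280_14),
   s6_7 (s2_3 p280_15),
   s6_7 (s4_5 (s2_3 (s0_1 p280_14))),
   s6_7 (s4_5 (s2_3 (s0_1 p280_15))),
   tr p277_33,
   tr p278_33],
  [tr p279_33,
   p280_33,
   p280_34,
   p280_35,
   s4_5 (s0_1 p280_34),
   s4_5 (s0_1 p280_35),
   p280_38,
   p280_39],
  [s6_7 (s2_3 p280_34),
   s6_7 (s2_3 p280_35),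
   p280_42,
   p280_43,
   p280_44,
   p280_45,
   p280_46,
   p280_47],
  [s6_7 (s4_5 (s2_3 (s0_1 p280_34))),
   s6_7 (s4_5 (s2_3 (s0_1 p280_35))),
   s6_7 (s2_3 p280_44),
   s6_7 (s2_3 p280_45),
   s4_5 (s0_1 p280_42),
   s4_5 (s0_1 p280_43),
   s4_5 (s0_1 p280_46),
   s4_5 (s0_1 p280_47)],
  [s6_7 (s2_3 p280_38),
   s6_7 (s2_3 p280_39),
   s6_7 (s2_3 p280_46),
   s6_7 (s2_3 p280_47),
   s6_7 (s4_5 (s2_3 (s0_1 p280_46))),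
   s6_7 (s4_5 (s2_3 (s0_1 p280_47))),
   p280_62,
   p280_63]]

theorem k280 : eqNN c280 (slO 64 (D.chG 31 33) 8) = true := by decide +kernel

/-- The slices of the chunk 281. -/
noncomputable def c281 : List (List ℕ) := [
  [tr p265_34,
   tr p266_34,
   tr p267_34,
   tr p268_34,
   s3_7 (s2_6 (s1_4 (s0_5 p267_36))),
   s3_7 (s2_6 (s1_4 (s0_5 p268_36))),
   tr p269_34,
   tr p270_34],
  [s3_6 (s2_7 (s1_5 (s0_4 p267_40))),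
   s3_6 (s2_7 (s1_5 (s0_4 p268_40))),
   tr p271_34,
   tr p272_34,
   tr p273_34,
   tr p274_34,
   tr p275_34,
   tr p276_34],
  [s3_6 (s2_7 (s1_4 (s0_5 p267_48))),
   s3_6 (s2_7 (s1_4 (s0_5 p268_48))),
   s3_7 (s2_6 (s1_4 (s0_5 p273_36))),
   s3_7 (s2_6 (s1_4 (s0_5 p274_36))),
   s3_7 (s2_6 (s1_4 (s0_5 p271_36))),
   s3_7 (s2_6 (s1_4 (s0_5 p272_36))),
   s3_7 (s2_6 (s1_4 (s0_5 p275_36))),
   s3_7 (s2_6 (s1_4 (s0_5 p276_36)))],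
  [s3_6 (s2_7 (s1_5 (s0_4 p269_40))),
   s3_6 (s2_7 (s1_5 (s0_4 p270_40))),
   s3_6 (s2_7 (s1_5 (s0_4 p275_40))),
   s3_6 (s2_7 (s1_5 (s0_4 p276_40))),
   s3_6 (s2_7 (s1_4 (s0_5 p275_48))),
   s3_6 (s2_7 (s1_4 (s0_5 p276_48))),
   tr p277_34,
   tr p278_34],
  [tr p279_34,
   tr p280_34,
   p281_34,
   p281_35,
   p281_36,
   p281_37,
   tr p283_34,
   tr p284_34],
  [p281_40,
   p281_41,
   tr p285_34,
   tr p286_34,
   p281_44,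
   p281_45,
   p281_46,
   p281_47],
  [p281_48,
   p281_49,
   p281_50,
   p281_51,
   s3_7 (s2_6 (s1_4 (s0_5 p285_36))),
   s3_7 (s2_6 (s1_4 (s0_5 p286_36))),
   p281_54,
   p281_55],
  [s3_6 (s2_7 (s1_5 (s0_4 p283_40))),
   s3_6 (s2_7 (s1_5 (s0_4 p284_40))),
   p281_58,
   p281_59,
   p281_60,
   p281_61,
   tr p291_34,
   tr p292_34]]

theorem k281 : eqNN c281 (slO 64 (D.chG 31 34) 8) = true := by decide +kernel

/-- The slices of the chunk 282. -/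
noncomputable def c282 : List (List ℕ) := [
  [tr p265_35,
   tr p266_35,
   tr p267_35,
   tr p268_35,
   s3_7 (s2_6 (s1_4 (s0_5 p267_37))),
   s3_7 (s2_6 (s1_4 (s0_5 p268_37))),
   tr p269_35,
   tr p270_35],
  [s3_6 (s2_7 (s1_5 (s0_4 p267_41))),
   s3_6 (s2_7 (s1_5 (s0_4 p268_41))),
   tr p271_35,
   tr p272_35,
   tr p273_35,
   tr p274_35,
   tr p275_35,
   tr p276_35],
  [s3_6 (s2_7 (s1_4 (s0_5 p267_49))),
   s3_6 (s2_7 (s1_4 (s0_5 p268_49))),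
   s3_7 (s2_6 (s1_4 (s0_5 p273_37))),
   s3_7 (s2_6 (s1_4 (s0_5 p274_37))),
   s3_7 (s2_6 (s1_4 (s0_5 p271_37))),
   s3_7 (s2_6 (s1_4 (s0_5 p272_37))),
   s3_7 (s2_6 (s1_4 (s0_5 p275_37))),
   s3_7 (s2_6 (s1_4 (s0_5 p276_37)))],
  [s3_6 (s2_7 (s1_5 (s0_4 p269_41))),
   s3_6 (s2_7 (s1_5 (s0_4 p270_41))),
   s3_6 (s2_7 (s1_5 (s0_4 p275_41))),
   s3_6 (s2_7 (s1_5 (s0_4 p276_41))),
   s3_6 (s2_7 (s1_4 (s0_5 p275_49))),
   s3_6 (s2_7 (s1_4 (s0_5 p276_49))),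
   tr p277_35,
   tr p278_35],
  [tr p279_35,
   tr p280_35,
   tr p281_35,
   p282_35,
   s3_7 (s2_6 (s1_4 (s0_5 p281_37))),
   p282_37,
   tr p283_35,
   tr p284_35],
  [s3_6 (s2_7 (s1_5 (s0_4 p281_41))),
   p282_41,
   tr p285_35,
   tr p286_35,
   p282_44,
   p282_45,
   p282_46,
   p282_47],
  [s3_6 (s2_7 (s1_4 (s0_5 p281_49))),
   p282_49,
   p282_50,
   p282_51,
   s3_7 (s2_6 (s1_4 (s0_5 p285_37))),
   s3_7 (s2_6 (s1_4 (s0_5 p286_37))),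
   p282_54,
   p282_55],
  [s3_6 (s2_7 (s1_5 (s0_4 p283_41))),
   s3_6 (s2_7 (s1_5 (s0_4 p284_41))),
   p282_58,
   p282_59,
   p282_60,
   p282_61,
   tr p291_35,
   tr p292_35]]

theorem k282 : eqNN c282 (slO 64 (D.chG 31 35) 8) = true := by decide +kernel

/-- The slices of the chunk 283. -/
noncomputable def c283 : List (List ℕ) := [
  [tr p265_38,
   tr p266_38,
   p283_2,
   p283_3,
   s4_5 (s0_1 p283_2),
   s4_5 (s0_1 p283_3),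
   tr p269_38,
   tr p270_38],
  [p283_8,
   p283_9,
   tr p271_38,
   tr p272_38,
   p283_12,
   p283_13,
   p283_14,
   p283_15],
  [s4_5 (s0_1 p283_8),
   s4_5 (s0_1 p283_9),
   s4_5 (s0_1 p283_12),
   s4_5 (s0_1 p283_13),
   s3_7 (s2_6 (s1_4 (s0_5 p271_38))),
   s3_7 (s2_6 (s1_4 (s0_5 p272_38))),
   s4_5 (s0_1 p283_14),
   s4_5 (s0_1 p283_15)],
  [s3_6 (s2_7 (s1_5 (s0_4 p269_56))),
   s3_6 (s2_7 (s1_5 (s0_4 p270_56))),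
   p283_26,
   p283_27,
   s4_5 (s0_1 p283_26),
   s4_5 (s0_1 p283_27),
   tr p277_38,
   tr p278_38],
  [tr p279_38,
   tr p280_38,
   p283_34,
   p283_35,
   s4_5 (s0_1 p283_34),
   s4_5 (s0_1 p283_35),
   p283_38,
   p283_39],
  [p283_40,
   p283_41,
   p283_42,
   p283_43,
   p283_44,
   p283_45,
   p283_46,
   p283_47],
  [s4_5 (s0_1 p283_40),
   s4_5 (s0_1 p283_41),
   s4_5 (s0_1 p283_44),
   s4_5 (s0_1 p283_45),
   s4_5 (s0_1 p283_42),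
   s4_5 (s0_1 p283_43),
   s4_5 (s0_1 p283_46),
   s4_5 (s0_1 p283_47)],
  [p283_56,
   p283_57,
   p283_58,
   p283_59,
   s4_5 (s0_1 p283_58),
   s4_5 (s0_1 p283_59),
   tr p291_38,
   tr p292_38]]

theorem k283 : eqNN c283 (slO 64 (D.chG 31 38) 8) = true := by decide +kernel

end Pool.Agent.Lib.MP_afdd4d_co.K10.E6
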