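import Pool.Agent.Lib.MP_afdd4d_co.K10.E6.Dat
import Pool.Agent.Lib.MP_afdd4d_co.K10.E6.Mk
import Pool.Agent.Lib.MP_afdd4d_co.K8.F6Bl5
import Pool.Agent.Lib.MP_afdd4d_co.K10.E6.P0
import Pool.Agent.Lib.MP_afdd4d_co.K10.E6.P1
import Pool.Agent.Lib.MP_afdd4d_co.K10.E6.P2
import Pool.Agent.Lib.MP_afdd4d_co.K10.E6.P3
import Pool.Agent.Lib.MP_afdd4d_co.K10.E6.P4
import Pool.Agent.Lib.MP_afdd4d_co.K10.E6.P5
import Pool.Agent.Lib.MP_afdd4d_co.K10.E6.P6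
import Pool.Agent.Lib.MP_afdd4d_co.K10.E6.P7
import Pool.Agent.Lib.MP_afdd4d_co.K10.E6.P8
import Pool.Agent.Lib.MP_afdd4d_co.K10.E6.P9
import Pool.Agent.Lib.MP_afdd4d_co.K10.E6.P10
import Pool.Agent.Lib.MP_afdd4d_co.K10.E6.P11
import Pool.Agent.Lib.MP_afdd4d_co.K10.E6.P12
import Pool.Agent.Lib.MP_afdd4d_co.K10.E6.P13
import Pool.Agent.Lib.MP_afdd4d_co.K10.E6.P14
import Pool.Agent.Lib.MP_afdd4d_co.K10.E6.P15
import Pool.Agent.Lib.MP_afdd4d_co.K10.E6.P16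
import Pool.Agent.Lib.MP_afdd4d_co.K10.E6.P17
import Pool.Agent.Lib.MP_afdd4d_co.K10.E6.P18
import Pool.Agent.Lib.MP_afdd4d_co.K10.E6.P19
import Pool.Agent.Lib.MP_afdd4d_co.K10.E6.P20
import Pool.Agent.Lib.MP_afdd4d_co.K10.E6.P21
import Pool.Agent.Lib.MP_afdd4d_co.K10.E6.P22
import Pool.Agent.Lib.MP_afdd4d_co.K10.E6.P23
import Pool.Agent.Lib.MP_afdd4d_co.K10.E6.P24
import Pool.Agent.Lib.MP_afdd4d_co.K10.E6.P25
import Pool.Agent.Lib.MP_afdd4d_co.K10.E6.P26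
import Pool.Agent.Lib.MP_afdd4d_co.K10.E6.P27
import Pool.Agent.Lib.MP_afdd4d_co.K10.E6.P28
import Pool.Agent.Lib.MP_afdd4d_co.K10.E6.P29
import Pool.Agent.Lib.MP_afdd4d_co.K10.E6.P30
import Pool.Agent.Lib.MP_afdd4d_co.K10.E6.P31
import Pool.Agent.Lib.MP_afdd4d_co.K10.E6.P32

/-!
# Tables
-/

namespace Pool.Agent.Lib.MP_afdd4d_co.K10.E6

open K8

set_option maxRecDepth 100000
set_option exponentiation.threshold 10000000

/-- The slices of the chunk 284. -/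
noncomputable def c284 : List (List ℕ) := [
  [tr p265_39,
   tr p266_39,
   p284_2,
   p284_3,
   s4_5 (s0_1 p284_2),
   s4_5 (s0_1 p284_3),
   tr p269_39,
   tr p270_39],
  [p284_8,
   p284_9,
   tr p271_39,
   tr p272_39,
   p284_12,
   p284_13,
   p284_14,
   p284_15],
  [s4_5 (s0_1 p284_8),
   s4_5 (s0_1 p284_9),
   s4_5 (s0_1 p284_12),
   s4_5 (s0_1 p284_13),
   s3_7 (s2_6 (s1_4 (s0_5 p271_39))),
   s3_7 (s2_6 (s1_4 (s0_5 p272_39))),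
   s4_5 (s0_1 p284_14),
   s4_5 (s0_1 p284_15)],
  [s3_6 (s2_7 (s1_5 (s0_4 p269_57))),
   s3_6 (s2_7 (s1_5 (s0_4 p270_57))),
   p284_26,
   p284_27,
   s4_5 (s0_1 p284_26),
   s4_5 (s0_1 p284_27),
   tr p277_39,
   tr p278_39],
  [tr p279_39,
   tr p280_39,
   p284_34,
   p284_35,
   s4_5 (s0_1 p284_34),
   s4_5 (s0_1 p284_35),
   tr p283_39,
   p284_39],
  [p284_40,
   p284_41,
   p284_42,
   p284_43,
   p284_44,
   p284_45,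
   p284_46,
   p284_47],
  [s4_5 (s0_1 p284_40),
   s4_5 (s0_1 p284_41),
   s4_5 (s0_1 p284_44),
   s4_5 (s0_1 p284_45),
   s4_5 (s0_1 p284_42),
   s4_5 (s0_1 p284_43),
   s4_5 (s0_1 p284_46),
   s4_5 (s0_1 p284_47)],
  [s3_6 (s2_7 (s1_5 (s0_4 p283_57))),
   p284_57,
   p284_58,
   p284_59,
   s4_5 (s0_1 p284_58),
   s4_5 (s0_1 p284_59),
   tr p291_39,
   tr p292_39]]

theorem k284 : eqNN c284 (slO 64 (D.chG 31 39) 8) = true := by decide +kernel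

/-- The slices of the chunk 285. -/
noncomputable def c285 : List (List ℕ) := [
  [tr p265_42,
   tr p266_42,
   p285_2,
   p285_3,
   p285_4,
   p285_5,
   tr p269_42,
   tr p270_42],
  [s6_7 (s2_3 p285_2),
   s6_7 (s2_3 p285_3),
   tr p271_42,
   tr p272_42,
   p285_12,
   p285_13,
   p285_14,
   p285_15],
  [s6_7 (s2_3 p285_4),
   s6_7 (s2_3 p285_5),
   s6_7 (s2_3 p285_12),
   s6_7 (s2_3 p285_13),
   s3_7 (s2_6 (s1_4 (s0_5 p271_52))),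
   s3_7 (s2_6 (s1_4 (s0_5 p272_52))),
   p285_22,
   p285_23],
  [s3_6 (s2_7 (s1_5 (s0_4 p269_42))),
   s3_6 (s2_7 (s1_5 (s0_4 p270_42))),
   s6_7 (s2_3 p285_14),
   s6_7 (s2_3 p285_15),
   s6_7 (s2_3 p285_22),
   s6_7 (s2_3 p285_23),
   tr p277_42,
   tr p278_42],
  [tr p279_42,
   tr p280_42,
   p285_34,
   p285_35,
   p285_36,
   p285_37,
   tr p283_42,
   tr p284_42],
  [s6_7 (s2_3 p285_34),
   s6_7 (s2_3 p285_35),
   p285_42,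
   p285_43,
   p285_44,
   p285_45,
   p285_46,
   p285_47],
  [s6_7 (s2_3 p285_36),
   s6_7 (s2_3 p285_37),
   s6_7 (s2_3 p285_44),
   s6_7 (s2_3 p285_45),
   p285_52,
   p285_53,
   p285_54,
   p285_55],
  [s3_6 (s2_7 (s1_5 (s0_4 p283_42))),
   s3_6 (s2_7 (s1_5 (s0_4 p284_42))),
   s6_7 (s2_3 p285_46),
   s6_7 (s2_3 p285_47),
   s6_7 (s2_3 p285_54),
   s6_7 (s2_3 p285_55),
   tr p291_42,
   tr p292_42]]

theorem k285 : eqNN c285 (slO 64 (D.chG 31 42) 8) = true := by decide +kernel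

/-- The slices of the chunk 286. -/
noncomputable def c286 : List (List ℕ) := [
  [tr p265_43,
   tr p266_43,
   p286_2,
   p286_3,
   p286_4,
   p286_5,
   tr p269_43,
   tr p270_43],
  [s6_7 (s2_3 p286_2),
   s6_7 (s2_3 p286_3),
   tr p271_43,
   tr p272_43,
   p286_12,
   p286_13,
   p286_14,
   p286_15],
  [s6_7 (s2_3 p286_4),
   s6_7 (s2_3 p286_5),
   s6_7 (s2_3 p286_12),
   s6_7 (s2_3 p286_13),
   s3_7 (s2_6 (s1_4 (s0_5 p271_53))),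
   s3_7 (s2_6 (s1_4 (s0_5 p272_53))),
   p286_22,
   p286_23],
  [s3_6 (s2_7 (s1_5 (s0_4 p269_43))),
   s3_6 (s2_7 (s1_5 (s0_4 p270_43))),
   s6_7 (s2_3 p286_14),
   s6_7 (s2_3 p286_15),
   s6_7 (s2_3 p286_22),
   s6_7 (s2_3 p286_23),
   tr p277_43,
   tr p278_43],
  [tr p279_43,
   tr p280_43,
   p286_34,
   p286_35,
   p286_36,
   p286_37,
   tr p283_43,
   tr p284_43],
  [s6_7 (s2_3 p286_34),
   s6_7 (s2_3 p286_35),
   tr p285_43,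
   p286_43,
   p286_44,
   p286_45,
   p286_46,
   p286_47],
  [s6_7 (s2_3 p286_36),
   s6_7 (s2_3 p286_37),
   s6_7 (s2_3 p286_44),
   s6_7 (s2_3 p286_45),
   s3_7 (s2_6 (s1_4 (s0_5 p285_53))),
   p286_53,
   p286_54,
   p286_55],
  [s3_6 (s2_7 (s1_5 (s0_4 p283_43))),
   s3_6 (s2_7 (s1_5 (s0_4 p284_43))),
   s6_7 (s2_3 p286_46),
   s6_7 (s2_3 p286_47),
   s6_7 (s2_3 p286_54),
   s6_7 (s2_3 p286_55),
   tr p291_43,
   tr p292_43]]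

theorem k286 : eqNN c286 (slO 64 (D.chG 31 43) 8) = true := by decide +kernel

/-- The slices of the chunk 287. -/
noncomputable def c287 : List (List ℕ) := [
  [tr p265_44,
   tr p266_44,
   tr p267_44,
   tr p268_44,
   s3_7 (s2_6 (s1_4 (s0_5 p267_50))),
   s3_7 (s2_6 (s1_4 (s0_5 p268_50))),
   tr p269_44,
   tr p270_44],
  [s3_6 (s2_7 (s1_5 (s0_4 p267_50))),
   s3_6 (s2_7 (s1_5 (s0_4 p268_50))),
   tr p271_44,
   tr p272_44,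
   tr p273_44,
   tr p274_44,
   tr p275_44,
   tr p276_44],
  [s3_6 (s2_7 (s1_4 (s0_5 p267_44))),
   s3_6 (s2_7 (s1_4 (s0_5 p268_44))),
   s3_6 (s2_7 (s1_5 (s0_4 p273_50))),
   s3_6 (s2_7 (s1_5 (s0_4 p274_50))),
   s3_6 (s2_7 (s1_4 (s0_5 p271_44))),
   s3_6 (s2_7 (s1_4 (s0_5 p272_44))),
   s3_7 (s2_6 (s1_4 (s0_5 p275_50))),
   s3_7 (s2_6 (s1_4 (s0_5 p276_50)))],
  [s3_6 (s2_7 (s1_4 (s0_5 p269_44))),
   s3_6 (s2_7 (s1_4 (s0_5 p270_44))),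
   s3_6 (s2_7 (s1_5 (s0_4 p275_50))),
   s3_6 (s2_7 (s1_5 (s0_4 p276_50))),
   s3_6 (s2_7 (s1_4 (s0_5 p275_44))),
   s3_6 (s2_7 (s1_4 (s0_5 p276_44))),
   tr p277_44,
   tr p278_44],
  [tr p279_44,
   tr p280_44,
   tr p281_44,
   tr p282_44,
   s3_7 (s2_6 (s1_4 (s0_5 p281_50))),
   s3_7 (s2_6 (s1_4 (s0_5 p282_50))),
   tr p283_44,
   tr p284_44],
  [s3_6 (s2_7 (s1_5 (s0_4 p281_50))),
   s3_6 (s2_7 (s1_5 (s0_4 p282_50))),
   tr p285_44,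
   tr p286_44,
   p287_44,
   p287_45,
   p287_46,
   p287_47],
  [s3_6 (s2_7 (s1_4 (s0_5 p281_44))),
   s3_6 (s2_7 (s1_4 (s0_5 p282_44))),
   p287_50,
   p287_51,
   s3_6 (s2_7 (s1_4 (s0_5 p285_44))),
   s3_6 (s2_7 (s1_4 (s0_5 p286_44))),
   p287_54,
   p287_55],
  [s3_6 (s2_7 (s1_4 (s0_5 p283_44))),
   s3_6 (s2_7 (s1_4 (s0_5 p284_44))),
   s6_7 (s4_5 (s2_3 (s0_1 p287_54))),
   s6_7 (s4_5 (s2_3 (s0_1 p287_55))),
   s6_7 (s4_5 (s2_3 (s0_1 p287_46))),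
   s6_7 (s4_5 (s2_3 (s0_1 p287_47))),
   tr p291_44,
   tr p292_44]]

theorem k287 : eqNN c287 (slO 64 (D.chG 31 44) 8) = true := by decide +kernel

end Pool.Agent.Lib.MP_afdd4d_co.K10.E6
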