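import Pool.Agent.Lib.MP_afdd4d_co.K10.E6.Dat
import Pool.Agent.Lib.MP_afdd4d_co.K10.E6.Mk
import Pool.Agent.Lib.MP_afdd4d_co.K8.F6Bl5
import Pool.Agent.Lib.MP_afdd4d_co.K10.E6.P0
import Pool.Agent.Lib.MP_afdd4d_co.K10.E6.P1
import Pool.Agent.Lib.MP_afdd4d_co.K10.E6.P2
import Pool.Agent.Lib.MP_afdd4d_co.K10.E6.P3
import Pool.Agent.Lib.MP_afdd4d_co.K10.E6.P4
import Pool.Agent.Lib.MP_afdd4d_co.K10.E6.P5
import Pool.Agent.Lib.MP_afdd4d_co.K10.E6.P6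
import Pool.Agent.Lib.MP_afdd4d_co.K10.E6.P7
import Pool.Agent.Lib.MP_afdd4d_co.K10.E6.P8
import Pool.Agent.Lib.MP_afdd4d_co.K10.E6.P9
import Pool.Agent.Lib.MP_afdd4d_co.K10.E6.P10
import Pool.Agent.Lib.MP_afdd4d_co.K10.E6.P11
import Pool.Agent.Lib.MP_afdd4d_co.K10.E6.P12
import Pool.Agent.Lib.MP_afdd4d_co.K10.E6.P13
import Pool.Agent.Lib.MP_afdd4d_co.K10.E6.P14
import Pool.Agent.Lib.MP_afdd4d_co.K10.E6.P15
import Pool.Agent.Lib.MP_afdd4d_co.K10.E6.P16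
import Pool.Agent.Lib.MP_afdd4d_co.K10.E6.P17
import Pool.Agent.Lib.MP_afdd4d_co.K10.E6.P18
import Pool.Agent.Lib.MP_afdd4d_co.K10.E6.P19
import Pool.Agent.Lib.MP_afdd4d_co.K10.E6.P20
import Pool.Agent.Lib.MP_afdd4d_co.K10.E6.P21
import Pool.Agent.Lib.MP_afdd4d_co.K10.E6.P22
import Pool.Agent.Lib.MP_afdd4d_co.K10.E6.P23
import Pool.Agent.Lib.MP_afdd4d_co.K10.E6.P24
import Pool.Agent.Lib.MP_afdd4d_co.K10.E6.P25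
import Pool.Agent.Lib.MP_afdd4d_co.K10.E6.P26
import Pool.Agent.Lib.MP_afdd4d_co.K10.E6.P27
import Pool.Agent.Lib.MP_afdd4d_co.K10.E6.P28
import Pool.Agent.Lib.MP_afdd4d_co.K10.E6.P29
import Pool.Agent.Lib.MP_afdd4d_co.K10.E6.P30
import Pool.Agent.Lib.MP_afdd4d_co.K10.E6.P31
import Pool.Agent.Lib.MP_afdd4d_co.K10.E6.P32

/-!
# Tables
-/

namespace Pool.Agent.Lib.MP_afdd4d_co.K10.E6

open K8

set_option maxRecDepth 100000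
set_option exponentiation.threshold 10000000

/-- The slices of the chunk 288. -/
noncomputable def c288 : List (List ℕ) := [
  [tr p265_45,
   tr p266_45,
   tr p267_45,
   tr p268_45,
   s3_7 (s2_6 (s1_4 (s0_5 p267_51))),
   s3_7 (s2_6 (s1_4 (s0_5 p268_51))),
   tr p269_45,
   tr p270_45],
  [s3_6 (s2_7 (s1_5 (s0_4 p267_51))),
   s3_6 (s2_7 (s1_5 (s0_4 p268_51))),
   tr p271_45,
   tr p272_45,
   tr p273_45,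
   tr p274_45,
   tr p275_45,
   tr p276_45],
  [s3_6 (s2_7 (s1_4 (s0_5 p267_45))),
   s3_6 (s2_7 (s1_4 (s0_5 p268_45))),
   s3_6 (s2_7 (s1_5 (s0_4 p273_51))),
   s3_6 (s2_7 (s1_5 (s0_4 p274_51))),
   s3_6 (s2_7 (s1_4 (s0_5 p271_45))),
   s3_6 (s2_7 (s1_4 (s0_5 p272_45))),
   s3_7 (s2_6 (s1_4 (s0_5 p275_51))),
   s3_7 (s2_6 (s1_4 (s0_5 p276_51)))],
  [s3_6 (s2_7 (s1_4 (s0_5 p269_45))),
   s3_6 (s2_7 (s1_4 (s0_5 p270_45))),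
   s3_6 (s2_7 (s1_5 (s0_4 p275_51))),
   s3_6 (s2_7 (s1_5 (s0_4 p276_51))),
   s3_6 (s2_7 (s1_4 (s0_5 p275_45))),
   s3_6 (s2_7 (s1_4 (s0_5 p276_45))),
   tr p277_45,
   tr p278_45],
  [tr p279_45,
   tr p280_45,
   tr p281_45,
   tr p282_45,
   s3_7 (s2_6 (s1_4 (s0_5 p281_51))),
   s3_7 (s2_6 (s1_4 (s0_5 p282_51))),
   tr p283_45,
   tr p284_45],
  [s3_6 (s2_7 (s1_5 (s0_4 p281_51))),
   s3_6 (s2_7 (s1_5 (s0_4 p282_51))),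
   tr p285_45,
   tr p286_45,
   tr p287_45,
   p288_45,
   p288_46,
   p288_47],
  [s3_6 (s2_7 (s1_4 (s0_5 p281_45))),
   s3_6 (s2_7 (s1_4 (s0_5 p282_45))),
   s3_6 (s2_7 (s1_5 (s0_4 p287_51))),
   p288_51,
   s3_6 (s2_7 (s1_4 (s0_5 p285_45))),
   s3_6 (s2_7 (s1_4 (s0_5 p286_45))),
   p288_54,
   p288_55],
  [s3_6 (s2_7 (s1_4 (s0_5 p283_45))),
   s3_6 (s2_7 (s1_4 (s0_5 p284_45))),
   s6_7 (s4_5 (s2_3 (s0_1 p288_54))),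
   s6_7 (s4_5 (s2_3 (s0_1 p288_55))),
   s6_7 (s4_5 (s2_3 (s0_1 p288_46))),
   s6_7 (s4_5 (s2_3 (s0_1 p288_47))),
   tr p291_45,
   tr p292_45]]

theorem k288 : eqNN c288 (slO 64 (D.chG 31 45) 8) = true := by decide +kernel

/-- The slices of the chunk 289. -/
noncomputable def c289 : List (List ℕ) := [
  [tr p265_46,
   tr p266_46,
   tr p267_46,
   tr p268_46,
   s3_7 (s2_6 (s1_4 (s0_5 p267_54))),
   s3_7 (s2_6 (s1_4 (s0_5 p268_54))),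
   tr p269_46,
   tr p270_46],
  [s3_6 (s2_7 (s1_5 (s0_4 p267_58))),
   s3_6 (s2_7 (s1_5 (s0_4 p268_58))),
   tr p271_46,
   tr p272_46,
   tr p273_46,
   tr p274_46,
   tr p275_46,
   tr p276_46],
  [s3_6 (s2_7 (s1_4 (s0_5 p267_60))),
   s3_6 (s2_7 (s1_4 (s0_5 p268_60))),
   s3_7 (s2_6 (s1_4 (s0_5 p273_54))),
   s3_7 (s2_6 (s1_4 (s0_5 p274_54))),
   s3_7 (s2_6 (s1_4 (s0_5 p271_54))),
   s3_7 (s2_6 (s1_4 (s0_5 p272_54))),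
   s3_7 (s2_6 (s1_4 (s0_5 p275_54))),
   s3_7 (s2_6 (s1_4 (s0_5 p276_54)))],
  [s3_6 (s2_7 (s1_5 (s0_4 p269_58))),
   s3_6 (s2_7 (s1_5 (s0_4 p270_58))),
   s3_6 (s2_7 (s1_5 (s0_4 p275_58))),
   s3_6 (s2_7 (s1_5 (s0_4 p276_58))),
   s3_6 (s2_7 (s1_4 (s0_5 p275_60))),
   s3_6 (s2_7 (s1_4 (s0_5 p276_60))),
   tr p277_46,
   tr p278_46],
  [tr p279_46,
   tr p280_46,
   tr p281_46,
   tr p282_46,
   s3_7 (s2_6 (s1_4 (s0_5 p281_54))),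
   s3_7 (s2_6 (s1_4 (s0_5 p282_54))),
   tr p283_46,
   tr p284_46],
  [s3_6 (s2_7 (s1_5 (s0_4 p281_58))),
   s3_6 (s2_7 (s1_5 (s0_4 p282_58))),
   tr p285_46,
   tr p286_46,
   tr p287_46,
   tr p288_46,
   p289_46,
   p289_47],
  [s3_6 (s2_7 (s1_4 (s0_5 p281_60))),
   s3_6 (s2_7 (s1_4 (s0_5 p282_60))),
   s3_7 (s2_6 (s1_4 (s0_5 p287_54))),
   s3_7 (s2_6 (s1_4 (s0_5 p288_54))),
   s3_7 (s2_6 (s1_4 (s0_5 p285_54))),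
   s3_7 (s2_6 (s1_4 (s0_5 p286_54))),
   p289_54,
   p289_55],
  [s3_6 (s2_7 (s1_5 (s0_4 p283_58))),
   s3_6 (s2_7 (s1_5 (s0_4 p284_58))),
   p289_58,
   p289_59,
   p289_60,
   p289_61,
   tr p291_46,
   tr p292_46]]

theorem k289 : eqNN c289 (slO 64 (D.chG 31 46) 8) = true := by decide +kernel

/-- The slices of the chunk 290. -/
noncomputable def c290 : List (List ℕ) := [
  [tr p265_47,
   tr p266_47,
   tr p267_47,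
   tr p268_47,
   s3_7 (s2_6 (s1_4 (s0_5 p267_55))),
   s3_7 (s2_6 (s1_4 (s0_5 p268_55))),
   tr p269_47,
   tr p270_47],
  [s3_6 (s2_7 (s1_5 (s0_4 p267_59))),
   s3_6 (s2_7 (s1_5 (s0_4 p268_59))),
   tr p271_47,
   tr p272_47,
   tr p273_47,
   tr p274_47,
   tr p275_47,
   tr p276_47],
  [s3_6 (s2_7 (s1_4 (s0_5 p267_61))),
   s3_6 (s2_7 (s1_4 (s0_5 p268_61))),
   s3_7 (s2_6 (s1_4 (s0_5 p273_55))),
   s3_7 (s2_6 (s1_4 (s0_5 p274_55))),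
   s3_7 (s2_6 (s1_4 (s0_5 p271_55))),
   s3_7 (s2_6 (s1_4 (s0_5 p272_55))),
   s3_7 (s2_6 (s1_4 (s0_5 p275_55))),
   s3_7 (s2_6 (s1_4 (s0_5 p276_55)))],
  [s3_6 (s2_7 (s1_5 (s0_4 p269_59))),
   s3_6 (s2_7 (s1_5 (s0_4 p270_59))),
   s3_6 (s2_7 (s1_5 (s0_4 p275_59))),
   s3_6 (s2_7 (s1_5 (s0_4 p276_59))),
   s3_6 (s2_7 (s1_4 (s0_5 p275_61))),
   s3_6 (s2_7 (s1_4 (s0_5 p276_61))),
   tr p277_47,
   tr p278_47],
  [tr p279_47,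
   tr p280_47,
   tr p281_47,
   tr p282_47,
   s3_7 (s2_6 (s1_4 (s0_5 p281_55))),
   s3_7 (s2_6 (s1_4 (s0_5 p282_55))),
   tr p283_47,
   tr p284_47],
  [s3_6 (s2_7 (s1_5 (s0_4 p281_59))),
   s3_6 (s2_7 (s1_5 (s0_4 p282_59))),
   tr p285_47,
   tr p286_47,
   tr p287_47,
   tr p288_47,
   tr p289_47,
   p290_47],
  [s3_6 (s2_7 (s1_4 (s0_5 p281_61))),
   s3_6 (s2_7 (s1_4 (s0_5 p282_61))),
   s3_7 (s2_6 (s1_4 (s0_5 p287_55))),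
   s3_7 (s2_6 (s1_4 (s0_5 p288_55))),
   s3_7 (s2_6 (s1_4 (s0_5 p285_55))),
   s3_7 (s2_6 (s1_4 (s0_5 p286_55))),
   s3_7 (s2_6 (s1_4 (s0_5 p289_55))),
   p290_55],
  [s3_6 (s2_7 (s1_5 (s0_4 p283_59))),
   s3_6 (s2_7 (s1_5 (s0_4 p284_59))),
   s3_6 (s2_7 (s1_5 (s0_4 p289_59))),
   p290_59,
   s3_6 (s2_7 (s1_4 (s0_5 p289_61))),
   p290_61,
   tr p291_47,
   tr p292_47]]

theorem k290 : eqNN c290 (slO 64 (D.chG 31 47) 8) = true := by decide +kernel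

/-- The slices of the chunk 291. -/
noncomputable def c291 : List (List ℕ) := [
  [tr p265_62,
   tr p266_62,
   p291_2,
   p291_3,
   s4_5 (s0_1 p291_2),
   s4_5 (s0_1 p291_3),
   p291_6,
   p291_7],
  [s6_7 (s2_3 p291_2),
   s6_7 (s2_3 p291_3),
   p291_10,
   p291_11,
   p291_12,
   p291_13,
   p291_14,
   p291_15],
  [s6_7 (s4_5 (s2_3 (s0_1 p291_2))),
   s6_7 (s4_5 (s2_3 (s0_1 p291_3))),
   s6_7 (s2_3 p291_12),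
   s6_7 (s2_3 p291_13),
   s4_5 (s0_1 p291_10),
   s4_5 (s0_1 p291_11),
   s4_5 (s0_1 p291_14),
   s4_5 (s0_1 p291_15)],
  [s6_7 (s2_3 p291_6),
   s6_7 (s2_3 p291_7),
   s6_7 (s2_3 p291_14),
   s6_7 (s2_3 p291_15),
   s6_7 (s4_5 (s2_3 (s0_1 p291_14))),
   s6_7 (s4_5 (s2_3 (s0_1 p291_15))),
   tr p277_62,
   tr p278_62],
  [tr p279_62,
   tr p280_62,
   p291_34,
   p291_35,
   s4_5 (s0_1 p291_34),
   s4_5 (s0_1 p291_35),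
   p291_38,
   p291_39],
  [s6_7 (s2_3 p291_34),
   s6_7 (s2_3 p291_35),
   p291_42,
   p291_43,
   p291_44,
   p291_45,
   p291_46,
   p291_47],
  [s6_7 (s4_5 (s2_3 (s0_1 p291_34))),
   s6_7 (s4_5 (s2_3 (s0_1 p291_35))),
   s6_7 (s2_3 p291_44),
   s6_7 (s2_3 p291_45),
   s4_5 (s0_1 p291_42),
   s4_5 (s0_1 p291_43),
   s4_5 (s0_1 p291_46),
   s4_5 (s0_1 p291_47)],
  [s6_7 (s2_3 p291_38),
   s6_7 (s2_3 p291_39),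
   s6_7 (s2_3 p291_46),
   s6_7 (s2_3 p291_47),
   s6_7 (s4_5 (s2_3 (s0_1 p291_46))),
   s6_7 (s4_5 (s2_3 (s0_1 p291_47))),
   p291_62,
   p291_63]]

theorem k291 : eqNN c291 (slO 64 (D.chG 31 62) 8) = true := by decide +kernel

end Pool.Agent.Lib.MP_afdd4d_co.K10.E6
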