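import Pool.Agent.Lib.MP_afdd4d_co.K10.E6.Dat
import Pool.Agent.Lib.MP_afdd4d_co.K10.E6.Mk
import Pool.Agent.Lib.MP_afdd4d_co.K8.F6Bl5
import Pool.Agent.Lib.MP_afdd4d_co.K10.E6.P0
import Pool.Agent.Lib.MP_afdd4d_co.K10.E6.P1
import Pool.Agent.Lib.MP_afdd4d_co.K10.E6.P2
import Pool.Agent.Lib.MP_afdd4d_co.K10.E6.P3
import Pool.Agent.Lib.MP_afdd4d_co.K10.E6.P4
import Pool.Agent.Lib.MP_afdd4d_co.K10.E6.P5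
import Pool.Agent.Lib.MP_afdd4d_co.K10.E6.P6
import Pool.Agent.Lib.MP_afdd4d_co.K10.E6.P7
import Pool.Agent.Lib.MP_afdd4d_co.K10.E6.P8
import Pool.Agent.Lib.MP_afdd4d_co.K10.E6.P9
import Pool.Agent.Lib.MP_afdd4d_co.K10.E6.P10
import Pool.Agent.Lib.MP_afdd4d_co.K10.E6.P11
import Pool.Agent.Lib.MP_afdd4d_co.K10.E6.P12
import Pool.Agent.Lib.MP_afdd4d_co.K10.E6.P13
import Pool.Agent.Lib.MP_afdd4d_co.K10.E6.P14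
import Pool.Agent.Lib.MP_afdd4d_co.K10.E6.P15
import Pool.Agent.Lib.MP_afdd4d_co.K10.E6.P16
import Pool.Agent.Lib.MP_afdd4d_co.K10.E6.P17
import Pool.Agent.Lib.MP_afdd4d_co.K10.E6.P18
import Pool.Agent.Lib.MP_afdd4d_co.K10.E6.P19
import Pool.Agent.Lib.MP_afdd4d_co.K10.E6.P20
import Pool.Agent.Lib.MP_afdd4d_co.K10.E6.P21
import Pool.Agent.Lib.MP_afdd4d_co.K10.E6.P22
import Pool.Agent.Lib.MP_afdd4d_co.K10.E6.P23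
import Pool.Agent.Lib.MP_afdd4d_co.K10.E6.P24
import Pool.Agent.Lib.MP_afdd4d_co.K10.E6.P25
import Pool.Agent.Lib.MP_afdd4d_co.K10.E6.P26
import Pool.Agent.Lib.MP_afdd4d_co.K10.E6.P27
import Pool.Agent.Lib.MP_afdd4d_co.K10.E6.P28
import Pool.Agent.Lib.MP_afdd4d_co.K10.E6.P29
import Pool.Agent.Lib.MP_afdd4d_co.K10.E6.P30
import Pool.Agent.Lib.MP_afdd4d_co.K10.E6.P31
import Pool.Agent.Lib.MP_afdd4d_co.K10.E6.P32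

/-!
# Tables
-/

namespace Pool.Agent.Lib.MP_afdd4d_co.K10.E6

open K8

set_option maxRecDepth 100000
set_option exponentiation.threshold 10000000

/-- The slices of the chunk 292. -/
noncomputable def c292 : List (List ℕ) := [
  [tr p265_63,
   tr p266_63,
   p292_2,
   p292_3,
   s4_5 (s0_1 p292_2),
   s4_5 (s0_1 p292_3),
   p292_6,
   p292_7],
  [s6_7 (s2_3 p292_2),
   s6_7 (s2_3 p292_3),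
   p292_10,
   p292_11,
   p292_12,
   p292_13,
   p292_14,
   p292_15],
  [s6_7 (s4_5 (s2_3 (s0_1 p292_2))),
   s6_7 (s4_5 (s2_3 (s0_1 p292_3))),
   s6_7 (s2_3 p292_12),
   s6_7 (s2_3 p292_13),
   s4_5 (s0_1 p292_10),
   s4_5 (s0_1 p292_11),
   s4_5 (s0_1 p292_14),
   s4_5 (s0_1 p292_15)],
  [s6_7 (s2_3 p292_6),
   s6_7 (s2_3 p292_7),
   s6_7 (s2_3 p292_14),
   s6_7 (s2_3 p292_15),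
   s6_7 (s4_5 (s2_3 (s0_1 p292_14))),
   s6_7 (s4_5 (s2_3 (s0_1 p292_15))),
   tr p277_63,
   tr p278_63],
  [tr p279_63,
   tr p280_63,
   p292_34,
   p292_35,
   s4_5 (s0_1 p292_34),
   s4_5 (s0_1 p292_35),
   p292_38,
   p292_39],
  [s6_7 (s2_3 p292_34),
   s6_7 (s2_3 p292_35),
   p292_42,
   p292_43,
   p292_44,
   p292_45,
   p292_46,
   p292_47],
  [s6_7 (s4_5 (s2_3 (s0_1 p292_34))),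
   s6_7 (s4_5 (s2_3 (s0_1 p292_35))),
   s6_7 (s2_3 p292_44),
   s6_7 (s2_3 p292_45),
   s4_5 (s0_1 p292_42),
   s4_5 (s0_1 p292_43),
   s4_5 (s0_1 p292_46),
   s4_5 (s0_1 p292_47)],
  [s6_7 (s2_3 p292_38),
   s6_7 (s2_3 p292_39),
   s6_7 (s2_3 p292_46),
   s6_7 (s2_3 p292_47),
   s6_7 (s4_5 (s2_3 (s0_1 p292_46))),
   s6_7 (s4_5 (s2_3 (s0_1 p292_47))),
   tr p291_63,
   p292_63]]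

theorem k292 : eqNN c292 (slO 64 (D.chG 31 63) 8) = true := by decide +kernel

/-- The slices of the chunk 293. -/
noncomputable def c293 : List (List ℕ) := [
  [p293_0,
   p293_1,
   s5_6 (s1_2 p293_1),
   p293_3,
   p293_4,
   p293_5,
   s5_6 (s1_2 p293_5),
   p293_7],
  [x6_7 (x6_5 (x6_4 (s5_7 (x2_3 (x2_1 (x2_0 (s1_3 (n4 (n0 p293_1))))))))),
   p293_9,
   s5_6 (s1_2 p293_9),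
   s6_7 (x5_7 (x5_6 (x5_4 (s2_3 (x1_3 (x1_2 (x1_0 (n0 p293_1)))))))),
   p293_12,
   p293_13,
   s5_6 (s1_2 p293_13),
   x7_6 (x7_5 (x7_4 (x3_2 (x3_1 (x3_0 (n4 p293_12))))))],
  [p293_16,
   p293_17,
   p293_18,
   p293_19,
   x7_6 (x7_5 (x7_4 (x3_2 (x3_1 (x3_0 (n5 p293_17)))))),
   x7_6 (x7_5 (x7_4 (x3_2 (x3_1 (x3_0 (n5 p293_16)))))),
   x7_6 (x7_5 (x7_4 (x3_2 (x3_1 (x3_0 (n5 p293_19)))))),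
   x7_6 (x7_5 (x7_4 (x3_2 (x3_1 (x3_0 (n5 p293_18))))))],
  [x6_7 (x6_5 (x6_4 (s5_7 (x2_3 (x2_1 (x2_0 (s1_3 (n4 (n0 p293_17))))))))),
   p293_25,
   p293_26,
   x6_7 (x6_5 (x6_4 (s5_7 (x2_3 (x2_1 (x2_0 (s1_3 (n0 p293_18)))))))),
   x7_6 (x7_5 (x7_4 (x3_2 (x3_1 (x3_0 (n5 (n4 p293_26))))))),
   x7_6 (x7_5 (x7_4 (x6_7 (x6_5 (x6_4 (s5_7 (x3_2 (x3_1 (x3_0 (x2_3 (x2_1 (x2_0 (s1_3 (n7 (n4 (n0 p293_18)))))))))))))))),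
   x7_6 (x7_5 (x7_4 (x6_7 (x6_5 (x6_4 (s5_7 (x3_2 (x3_1 (x3_0 (x2_3 (x2_1 (x2_0 (s1_3 (n7 (n0 p293_17))))))))))))))),
   x7_6 (x7_5 (x7_4 (x3_2 (x3_1 (x3_0 (n5 (n4 p293_25)))))))],
  [s5_6 (s1_2 p293_16),
   s5_6 (s1_2 p293_18),
   s5_6 (s1_2 p293_17),
   s5_6 (s1_2 p293_19),
   x7_6 (x7_5 (x7_4 (s5_6 (x3_2 (x3_1 (x3_0 (s1_2 (n5 p293_17)))))))),
   x7_6 (x7_5 (x7_4 (s5_6 (x3_2 (x3_1 (x3_0 (s1_2 (n5 p293_19)))))))),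
   x7_6 (x7_5 (x7_4 (s5_6 (x3_2 (x3_1 (x3_0 (s1_2 (n5 p293_16)))))))),
   x7_6 (x7_5 (x7_4 (s5_6 (x3_2 (x3_1 (x3_0 (s1_2 (n5 p293_18))))))))],
  [x7_6 (x7_5 (x7_4 (s6_7 (x5_7 (x5_6 (x5_4 (x3_2 (x3_1 (x3_0 (s2_3 (x1_3 (x1_2 (x1_0 (n4 (n0 p293_17))))))))))))))),
   s5_6 (s1_2 p293_26),
   s5_6 (s1_2 p293_25),
   x7_6 (x7_5 (x7_4 (s6_7 (x5_7 (x5_6 (x5_4 (x3_2 (x3_1 (x3_0 (s2_3 (x1_3 (x1_2 (x1_0 (n0 p293_18)))))))))))))),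
   x7_6 (x7_5 (x7_4 (s5_6 (x3_2 (x3_1 (x3_0 (s1_2 (n5 (n4 p293_26))))))))),
   s6_7 (x5_7 (x5_6 (x5_4 (s2_3 (x1_3 (x1_2 (x1_0 (n7 (n0 p293_17))))))))),
   s6_7 (x5_7 (x5_6 (x5_4 (s2_3 (x1_3 (x1_2 (x1_0 (n7 (n4 (n0 p293_18)))))))))),
   s6_7 (x5_7 (x5_6 (x5_4 (s2_3 (x1_3 (x1_2 (x1_0 (n7 (n0 p293_25)))))))))],
  [x6_7 (x6_5 (x6_4 (s5_7 (x2_3 (x2_1 (x2_0 (s1_3 (n5 (n4 (n0 p293_5)))))))))),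
   s6_7 (x5_7 (x5_6 (x5_4 (s2_3 (x1_3 (x1_2 (x1_0 (n6 (n0 p293_13))))))))),
   x7_6 (x7_5 (x7_4 (x6_7 (x6_5 (x6_4 (s5_7 (x3_2 (x3_1 (x3_0 (x2_3 (x2_1 (x2_0 (s1_3 (n6 (n0 p293_13))))))))))))))),
   s6_7 (x5_7 (x5_6 (x5_4 (s2_3 (x1_3 (x1_2 (x1_0 (n6 (n0 p293_5))))))))),
   p293_52,
   p293_53,
   s5_6 (s1_2 p293_53),
   x7_6 (x7_5 (x7_4 (x3_2 (x3_1 (x3_0 (n6 (n5 p293_52)))))))],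
  [s6_7 (x5_7 (x5_6 (x5_4 (s2_3 (x1_3 (x1_2 (x1_0 (n6 (n4 (n0 p293_4)))))))))),
   x6_7 (x6_5 (x6_4 (s5_7 (x2_3 (x2_1 (x2_0 (s1_3 (n5 (n4 (n0 p293_12)))))))))),
   s6_7 (x5_7 (x5_6 (x5_4 (s2_3 (x1_3 (x1_2 (x1_0 (n6 (n4 (n0 p293_12)))))))))),
   s6_7 (x5_7 (x5_6 (x5_4 (s2_3 (x1_3 (x1_2 (x1_0 (n6 (n0 p293_7))))))))),
   p293_60,
   x6_7 (x6_5 (x6_4 (s5_7 (x2_3 (x2_1 (x2_0 (s1_3 (n7 (n5 (n4 (n0 p293_52))))))))))),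
   s6_7 (x5_7 (x5_6 (x5_4 (s2_3 (x1_3 (x1_2 (x1_0 (n7 (n6 (n4 (n0 p293_52))))))))))),
   p293_63]]

theorem k293 : eqNN c293 (slO 64 (D.chG 48 0) 8) = true := by decide +kernel

/-- The slices of the chunk 294. -/
noncomputable def c294 : List (List ℕ) := [
  [tr p293_1,
   p294_1,
   p294_2,
   tr p295_1,
   tr p296_1,
   p294_5,
   p294_6,
   tr p298_1],
  [p294_8,
   tr p299_1,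
   x7_6 (x7_5 (x7_4 (x3_2 (x3_1 (x3_0 (tr (n0 p299_1))))))),
   x7_6 (x7_5 (x7_4 (x3_2 (x3_1 (x3_0 (n4 p294_8)))))),
   p294_12,
   p294_13,
   x7_6 (x7_5 (x7_4 (x3_2 (x3_1 (x3_0 (n4 p294_13)))))),
   x7_6 (x7_5 (x7_4 (x3_2 (x3_1 (x3_0 (n4 p294_12))))))],
  [tr p302_1,
   p294_17,
   p294_18,
   tr p305_1,
   x7_6 (x7_5 (x7_4 (x3_2 (x3_1 (x3_0 (n5 p294_17)))))),
   x7_6 (x7_5 (x7_4 (x3_2 (x3_1 (x3_0 (tr (n1 p302_1))))))),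
   x7_6 (x7_5 (x7_4 (x3_2 (x3_1 (x3_0 (tr (n1 p305_1))))))),
   x7_6 (x7_5 (x7_4 (x3_2 (x3_1 (x3_0 (n5 p294_18))))))],
  [p294_24,
   tr p306_1,
   tr p307_1,
   p294_27,
   x7_6 (x7_5 (x7_4 (x3_2 (x3_1 (x3_0 (tr (n1 (n0 p307_1)))))))),
   x7_6 (x7_5 (x7_4 (x3_2 (x3_1 (x3_0 (n5 (n4 p294_27))))))),
   x7_6 (x7_5 (x7_4 (x3_2 (x3_1 (x3_0 (n5 (n4 p294_24))))))),
   x7_6 (x7_5 (x7_4 (x3_2 (x3_1 (x3_0 (tr (n1 (n0 p306_1))))))))],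
  [s3_7 (s2_5 (s1_6 (s0_4 p302_2))),
   p294_33,
   p294_34,
   s3_7 (s2_5 (s1_6 (s0_4 p305_2))),
   x7_6 (x7_5 (x7_4 (x3_2 (x3_1 (x3_0 (n6 p294_34)))))),
   x7_6 (x7_5 (x7_4 (x3_2 (x3_1 (x3_0 (s3_7 (s2_5 (s1_6 (s0_4 (n1 p305_2)))))))))),
   x7_6 (x7_5 (x7_4 (x3_2 (x3_1 (x3_0 (s3_7 (s2_5 (s1_6 (s0_4 (n1 p302_2)))))))))),
   x7_6 (x7_5 (x7_4 (x3_2 (x3_1 (x3_0 (n6 p294_33))))))],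
  [x7_6 (x7_5 (x7_4 (x3_2 (x3_1 (x3_0 (n6 (n4 p294_45))))))),
   s3_7 (s2_5 (s1_6 (s0_4 p307_2))),
   s3_7 (s2_5 (s1_6 (s0_4 p306_2))),
   x7_6 (x7_5 (x7_4 (x3_2 (x3_1 (x3_0 (n6 (n4 p294_46))))))),
   x7_6 (x7_5 (x7_4 (x3_2 (x3_1 (x3_0 (s3_7 (s2_5 (s1_6 (s0_4 (n1 (n0 p307_2))))))))))),
   p294_45,
   p294_46,
   x7_6 (x7_5 (x7_4 (x3_2 (x3_1 (x3_0 (s3_7 (s2_5 (s1_6 (s0_4 (n1 (n0 p306_2)))))))))))],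
  [x7_6 (x7_5 (x7_4 (x5_7 (x5_6 (x5_4 (x3_2 (x3_1 (x3_0 (s3_6 (s2_7 (x1_7 (x1_6 (x1_0 (s1_5 (s0_4 (n1 (n0 p297_11))))))))))))))))),
   p294_49,
   x7_6 (x7_5 (x7_4 (x3_2 (x3_1 (x3_0 (n6 (n5 p294_49))))))),
   x5_7 (x5_6 (x5_4 (s3_6 (s2_7 (x1_7 (x1_6 (x1_0 (s1_5 (s0_4 (n2 p297_11)))))))))),
   p294_52,
   tr p309_1,
   x7_6 (x7_5 (x7_4 (x3_2 (x3_1 (x3_0 (tr (n2 (n1 p309_1)))))))),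
   x7_6 (x7_5 (x7_4 (x3_2 (x3_1 (x3_0 (n6 (n5 p294_52)))))))],
  [x5_7 (x5_6 (x5_4 (s3_6 (s2_7 (x1_7 (x1_6 (x1_0 (s1_5 (s0_4 (n2 (n0 p296_11))))))))))),
   p294_57,
   p294_58,
   x5_7 (x5_6 (x5_4 (s3_6 (s2_7 (x1_7 (x1_6 (x1_0 (s1_5 (s0_4 (n2 p298_11)))))))))),
   tr p310_1,
   p294_61,
   p294_62,
   tr p311_1]]

theorem k294 : eqNN c294 (slO 64 (D.chG 48 1) 8) = true := by decide +kernel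

/-- The slices of the chunk 295. -/
noncomputable def c295 : List (List ℕ) := [
  [tr p293_3,
   p295_1,
   s5_6 (s1_2 p295_1),
   p295_3,
   p295_4,
   p295_5,
   s5_6 (s1_2 p295_5),
   p295_7],
  [x6_7 (x6_5 (x6_4 (s5_7 (x2_3 (x2_1 (x2_0 (s1_3 (n4 p295_1)))))))),
   p295_9,
   s5_6 (s1_2 p295_9),
   s6_7 (x5_7 (x5_6 (x5_4 (s2_3 (x1_3 (x1_2 (x1_0 p295_1))))))),
   p295_12,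
   p295_13,
   s5_6 (s1_2 p295_13),
   x7_6 (x7_5 (x7_4 (x3_2 (x3_1 (x3_0 (n4 p295_12))))))],
  [p295_16,
   p295_17,
   p295_18,
   p295_19,
   x7_6 (x7_5 (x7_4 (x3_2 (x3_1 (x3_0 (n5 p295_17)))))),
   x7_6 (x7_5 (x7_4 (x3_2 (x3_1 (x3_0 (n5 p295_16)))))),
   x7_6 (x7_5 (x7_4 (x3_2 (x3_1 (x3_0 (n5 p295_19)))))),
   x7_6 (x7_5 (x7_4 (x3_2 (x3_1 (x3_0 (n5 p295_18))))))],
  [x6_7 (x6_5 (x6_4 (s5_7 (x2_3 (x2_1 (x2_0 (s1_3 (n4 p295_17)))))))),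
   p295_25,
   p295_26,
   x6_7 (x6_5 (x6_4 (s5_7 (x2_3 (x2_1 (x2_0 (s1_3 p295_18))))))),
   x7_6 (x7_5 (x7_4 (x3_2 (x3_1 (x3_0 (n5 (n4 p295_26))))))),
   x7_6 (x7_5 (x7_4 (x6_7 (x6_5 (x6_4 (s5_7 (x3_2 (x3_1 (x3_0 (x2_3 (x2_1 (x2_0 (s1_3 (n7 (n4 p295_18))))))))))))))),
   x7_6 (x7_5 (x7_4 (x6_7 (x6_5 (x6_4 (s5_7 (x3_2 (x3_1 (x3_0 (x2_3 (x2_1 (x2_0 (s1_3 (n7 p295_17)))))))))))))),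
   x7_6 (x7_5 (x7_4 (x3_2 (x3_1 (x3_0 (n5 (n4 p295_25)))))))],
  [s5_6 (s1_2 p295_16),
   s5_6 (s1_2 p295_18),
   s5_6 (s1_2 p295_17),
   s5_6 (s1_2 p295_19),
   x7_6 (x7_5 (x7_4 (s5_6 (x3_2 (x3_1 (x3_0 (s1_2 (n5 p295_17)))))))),
   s6_7 (x5_7 (x5_6 (x5_4 (s2_3 (x1_3 (x1_2 (x1_0 (n7 p295_19)))))))),
   x7_6 (x7_5 (x7_4 (s5_6 (x3_2 (x3_1 (x3_0 (s1_2 (n5 p295_16)))))))),
   x7_6 (x7_5 (x7_4 (s5_6 (x3_2 (x3_1 (x3_0 (s1_2 (n5 p295_18))))))))],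
  [x7_6 (x7_5 (x7_4 (s6_7 (x5_7 (x5_6 (x5_4 (x3_2 (x3_1 (x3_0 (s2_3 (x1_3 (x1_2 (x1_0 (n4 p295_17)))))))))))))),
   s5_6 (s1_2 p295_26),
   s5_6 (s1_2 p295_25),
   x7_6 (x7_5 (x7_4 (s6_7 (x5_7 (x5_6 (x5_4 (x3_2 (x3_1 (x3_0 (s2_3 (x1_3 (x1_2 (x1_0 p295_18))))))))))))),
   s6_7 (x5_7 (x5_6 (x5_4 (s2_3 (x1_3 (x1_2 (x1_0 (n7 (n4 p295_26))))))))),
   s6_7 (x5_7 (x5_6 (x5_4 (s2_3 (x1_3 (x1_2 (x1_0 (n7 p295_17)))))))),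
   s6_7 (x5_7 (x5_6 (x5_4 (s2_3 (x1_3 (x1_2 (x1_0 (n7 (n4 p295_18))))))))),
   s6_7 (x5_7 (x5_6 (x5_4 (s2_3 (x1_3 (x1_2 (x1_0 (n7 p295_25))))))))],
  [x6_7 (x6_5 (x6_4 (s5_7 (x2_3 (x2_1 (x2_0 (s1_3 (n5 (n4 p295_5))))))))),
   s6_7 (x5_7 (x5_6 (x5_4 (s2_3 (x1_3 (x1_2 (x1_0 (n6 p295_13)))))))),
   x7_6 (x7_5 (x7_4 (x6_7 (x6_5 (x6_4 (s5_7 (x3_2 (x3_1 (x3_0 (x2_3 (x2_1 (x2_0 (s1_3 (n6 p295_13)))))))))))))),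
   s6_7 (x5_7 (x5_6 (x5_4 (s2_3 (x1_3 (x1_2 (x1_0 (n6 p295_5)))))))),
   p295_52,
   p295_53,
   s5_6 (s1_2 p295_53),
   x7_6 (x7_5 (x7_4 (x3_2 (x3_1 (x3_0 (n6 (n5 p295_52)))))))],
  [s6_7 (x5_7 (x5_6 (x5_4 (s2_3 (x1_3 (x1_2 (x1_0 (n6 (n4 p295_4))))))))),
   x6_7 (x6_5 (x6_4 (s5_7 (x2_3 (x2_1 (x2_0 (s1_3 (n5 (n4 p295_12))))))))),
   s6_7 (x5_7 (x5_6 (x5_4 (s2_3 (x1_3 (x1_2 (x1_0 (n6 (n4 p295_12))))))))),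
   s6_7 (x5_7 (x5_6 (x5_4 (s2_3 (x1_3 (x1_2 (x1_0 (n6 p295_7)))))))),
   p295_60,
   x6_7 (x6_5 (x6_4 (s5_7 (x2_3 (x2_1 (x2_0 (s1_3 (n7 (n5 (n4 p295_52)))))))))),
   s6_7 (x5_7 (x5_6 (x5_4 (s2_3 (x1_3 (x1_2 (x1_0 (n7 (n6 (n4 p295_52)))))))))),
   p295_63]]

theorem k295 : eqNN c295 (slO 64 (D.chG 48 3) 8) = true := by decide +kernel

end Pool.Agent.Lib.MP_afdd4d_co.K10.E6
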