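import Pool.Agent.Lib.MP_afdd4d_co.K10.E6.Dat
import Pool.Agent.Lib.MP_afdd4d_co.K10.E6.Mk
import Pool.Agent.Lib.MP_afdd4d_co.K8.F6Bl5
import Pool.Agent.Lib.MP_afdd4d_co.K10.E6.P0
import Pool.Agent.Lib.MP_afdd4d_co.K10.E6.P1
import Pool.Agent.Lib.MP_afdd4d_co.K10.E6.P2
import Pool.Agent.Lib.MP_afdd4d_co.K10.E6.P3
import Pool.Agent.Lib.MP_afdd4d_co.K10.E6.P4
import Pool.Agent.Lib.MP_afdd4d_co.K10.E6.P5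
import Pool.Agent.Lib.MP_afdd4d_co.K10.E6.P6
import Pool.Agent.Lib.MP_afdd4d_co.K10.E6.P7
import Pool.Agent.Lib.MP_afdd4d_co.K10.E6.P8
import Pool.Agent.Lib.MP_afdd4d_co.K10.E6.P9
import Pool.Agent.Lib.MP_afdd4d_co.K10.E6.P10
import Pool.Agent.Lib.MP_afdd4d_co.K10.E6.P11
import Pool.Agent.Lib.MP_afdd4d_co.K10.E6.P12
import Pool.Agent.Lib.MP_afdd4d_co.K10.E6.P13
import Pool.Agent.Lib.MP_afdd4d_co.K10.E6.P14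
import Pool.Agent.Lib.MP_afdd4d_co.K10.E6.P15
import Pool.Agent.Lib.MP_afdd4d_co.K10.E6.P16
import Pool.Agent.Lib.MP_afdd4d_co.K10.E6.P17
import Pool.Agent.Lib.MP_afdd4d_co.K10.E6.P18
import Pool.Agent.Lib.MP_afdd4d_co.K10.E6.P19
import Pool.Agent.Lib.MP_afdd4d_co.K10.E6.P20
import Pool.Agent.Lib.MP_afdd4d_co.K10.E6.P21
import Pool.Agent.Lib.MP_afdd4d_co.K10.E6.P22
import Pool.Agent.Lib.MP_afdd4d_co.K10.E6.P23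
import Pool.Agent.Lib.MP_afdd4d_co.K10.E6.P24
import Pool.Agent.Lib.MP_afdd4d_co.K10.E6.P25
import Pool.Agent.Lib.MP_afdd4d_co.K10.E6.P26
import Pool.Agent.Lib.MP_afdd4d_co.K10.E6.P27
import Pool.Agent.Lib.MP_afdd4d_co.K10.E6.P28
import Pool.Agent.Lib.MP_afdd4d_co.K10.E6.P29
import Pool.Agent.Lib.MP_afdd4d_co.K10.E6.P30
import Pool.Agent.Lib.MP_afdd4d_co.K10.E6.P31
import Pool.Agent.Lib.MP_afdd4d_co.K10.E6.P32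

/-!
# Tables
-/

namespace Pool.Agent.Lib.MP_afdd4d_co.K10.E6

open K8

set_option maxRecDepth 100000
set_option exponentiation.threshold 10000000

/-- The slices of the chunk 296. -/
noncomputable def c296 : List (List ℕ) := [
  [tr p293_4,
   p296_1,
   s5_6 (s1_2 p296_1),
   tr p295_4,
   p296_4,
   p296_5,
   s5_6 (s1_2 p296_5),
   p296_7],
  [x7_6 (x7_5 (x7_4 (x3_2 (x3_1 (x3_0 (n4 p296_11)))))),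
   p296_9,
   s5_6 (s1_2 p296_9),
   p296_11,
   p296_12,
   p296_13,
   s5_6 (s1_2 p296_13),
   x7_6 (x7_5 (x7_4 (x3_2 (x3_1 (x3_0 (n4 p296_12))))))],
  [p296_16,
   p296_17,
   p296_18,
   p296_19,
   x7_6 (x7_5 (x7_4 (x3_2 (x3_1 (x3_0 (n5 p296_17)))))),
   x7_6 (x7_5 (x7_4 (x3_2 (x3_1 (x3_0 (n5 p296_16)))))),
   x7_6 (x7_5 (x7_4 (x3_2 (x3_1 (x3_0 (n5 p296_19)))))),
   x7_6 (x7_5 (x7_4 (x3_2 (x3_1 (x3_0 (n5 p296_18))))))],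
  [x7_6 (x7_5 (x7_4 (s5_6 (x3_2 (x3_1 (x3_0 (s1_2 (n6 (n4 p296_45))))))))),
   p296_25,
   p296_26,
   x7_6 (x7_5 (x7_4 (s5_6 (x3_2 (x3_1 (x3_0 (s1_2 (n6 (n4 p296_46))))))))),
   x7_6 (x7_5 (x7_4 (x3_2 (x3_1 (x3_0 (n5 (n4 p296_26))))))),
   s5_6 (s1_2 p296_46),
   s5_6 (s1_2 p296_45),
   x7_6 (x7_5 (x7_4 (x3_2 (x3_1 (x3_0 (n5 (n4 p296_25)))))))],
  [s5_6 (s1_2 p296_16),
   s5_6 (s1_2 p296_18),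
   s5_6 (s1_2 p296_17),
   s5_6 (s1_2 p296_19),
   x7_6 (x7_5 (x7_4 (s5_6 (x3_2 (x3_1 (x3_0 (s1_2 (n5 p296_17)))))))),
   x7_6 (x7_5 (x7_4 (s5_6 (x3_2 (x3_1 (x3_0 (s1_2 (n5 p296_19)))))))),
   x7_6 (x7_5 (x7_4 (s5_6 (x3_2 (x3_1 (x3_0 (s1_2 (n5 p296_16)))))))),
   x7_6 (x7_5 (x7_4 (s5_6 (x3_2 (x3_1 (x3_0 (s1_2 (n5 p296_18))))))))],
  [x7_6 (x7_5 (x7_4 (x3_2 (x3_1 (x3_0 (n6 (n4 p296_45))))))),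
   s5_6 (s1_2 p296_26),
   s5_6 (s1_2 p296_25),
   x7_6 (x7_5 (x7_4 (x3_2 (x3_1 (x3_0 (n6 (n4 p296_46))))))),
   x7_6 (x7_5 (x7_4 (s5_6 (x3_2 (x3_1 (x3_0 (s1_2 (n5 (n4 p296_26))))))))),
   p296_45,
   p296_46,
   x7_6 (x7_5 (x7_4 (s5_6 (x3_2 (x3_1 (x3_0 (s1_2 (n5 (n4 p296_25)))))))))],
  [x7_6 (x7_5 (x7_4 (x3_2 (x3_1 (x3_0 (n6 (n5 p296_51))))))),
   p296_49,
   s5_6 (s1_2 p296_49),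
   p296_51,
   p296_52,
   p296_53,
   s5_6 (s1_2 p296_53),
   x7_6 (x7_5 (x7_4 (x3_2 (x3_1 (x3_0 (n6 (n5 p296_52)))))))],
  [p296_56,
   s5_6 (s1_2 p296_58),
   p296_58,
   p296_59,
   tr p310_4,
   s5_6 (s1_2 p296_62),
   p296_62,
   tr p311_4]]

theorem k296 : eqNN c296 (slO 64 (D.chG 48 4) 8) = true := by decide +kernel

/-- The slices of the chunk 297. -/
noncomputable def c297 : List (List ℕ) := [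
  [tr p293_5,
   tr p294_5,
   s3_7 (s2_5 (s1_6 (s0_4 p294_6))),
   tr p295_5,
   tr p296_5,
   p297_5,
   p297_6,
   tr p298_5],
  [x7_6 (x7_5 (x7_4 (x3_2 (x3_1 (x3_0 (n4 p297_11)))))),
   tr p299_5,
   x7_6 (x7_5 (x7_4 (x3_2 (x3_1 (x3_0 (tr (n0 p299_5))))))),
   p297_11,
   p297_12,
   p297_13,
   x7_6 (x7_5 (x7_4 (x3_2 (x3_1 (x3_0 (n4 p297_13)))))),
   x7_6 (x7_5 (x7_4 (x3_2 (x3_1 (x3_0 (n4 p297_12))))))],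
  [tr p302_5,
   p297_17,
   p297_18,
   tr p305_5,
   x7_6 (x7_5 (x7_4 (x3_2 (x3_1 (x3_0 (n5 p297_17)))))),
   x7_6 (x7_5 (x7_4 (x3_2 (x3_1 (x3_0 (tr (n1 p302_5))))))),
   x7_6 (x7_5 (x7_4 (x3_2 (x3_1 (x3_0 (tr (n1 p305_5))))))),
   x7_6 (x7_5 (x7_4 (x3_2 (x3_1 (x3_0 (n5 p297_18))))))],
  [p297_24,
   tr p306_5,
   tr p307_5,
   p297_27,
   x7_6 (x7_5 (x7_4 (x3_2 (x3_1 (x3_0 (tr (n1 (n0 p307_5)))))))),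
   x7_6 (x7_5 (x7_4 (x3_2 (x3_1 (x3_0 (n5 (n4 p297_27))))))),
   x7_6 (x7_5 (x7_4 (x3_2 (x3_1 (x3_0 (n5 (n4 p297_24))))))),
   x7_6 (x7_5 (x7_4 (x3_2 (x3_1 (x3_0 (tr (n1 (n0 p306_5))))))))],
  [s3_7 (s2_5 (s1_6 (s0_4 p302_6))),
   p297_33,
   p297_34,
   s3_7 (s2_5 (s1_6 (s0_4 p305_6))),
   x7_6 (x7_5 (x7_4 (x3_2 (x3_1 (x3_0 (n6 p297_34)))))),
   x7_6 (x7_5 (x7_4 (x3_2 (x3_1 (x3_0 (s3_7 (s2_5 (s1_6 (s0_4 (n1 p305_6)))))))))),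
   x7_6 (x7_5 (x7_4 (x3_2 (x3_1 (x3_0 (s3_7 (s2_5 (s1_6 (s0_4 (n1 p302_6)))))))))),
   x7_6 (x7_5 (x7_4 (x3_2 (x3_1 (x3_0 (n6 p297_33))))))],
  [x7_6 (x7_5 (x7_4 (x3_2 (x3_1 (x3_0 (n6 (n4 p297_45))))))),
   s3_7 (s2_5 (s1_6 (s0_4 p307_6))),
   s3_7 (s2_5 (s1_6 (s0_4 p306_6))),
   x7_6 (x7_5 (x7_4 (x3_2 (x3_1 (x3_0 (n6 (n4 p297_46))))))),
   x7_6 (x7_5 (x7_4 (x3_2 (x3_1 (x3_0 (s3_7 (s2_5 (s1_6 (s0_4 (n1 (n0 p307_6))))))))))),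
   p297_45,
   p297_46,
   x7_6 (x7_5 (x7_4 (x3_2 (x3_1 (x3_0 (s3_7 (s2_5 (s1_6 (s0_4 (n1 (n0 p306_6)))))))))))],
  [p297_48,
   p297_49,
   x7_6 (x7_5 (x7_4 (x3_2 (x3_1 (x3_0 (n6 (n5 p297_49))))))),
   x7_6 (x7_5 (x7_4 (x3_2 (x3_1 (x3_0 (n6 (n5 p297_48))))))),
   p297_52,
   tr p309_5,
   x7_6 (x7_5 (x7_4 (x3_2 (x3_1 (x3_0 (tr (n2 (n1 p309_5)))))))),
   x7_6 (x7_5 (x7_4 (x3_2 (x3_1 (x3_0 (n6 (n5 p297_52)))))))],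
  [x5_7 (x5_6 (x5_4 (s3_6 (s2_7 (x1_7 (x1_6 (x1_0 (s1_5 (s0_4 (n7 (n2 (n0 p296_51)))))))))))),
   p297_57,
   p297_58,
   x5_7 (x5_6 (x5_4 (s3_6 (s2_7 (x1_7 (x1_6 (x1_0 (s1_5 (s0_4 (n7 (n2 p298_51))))))))))),
   tr p310_5,
   p297_61,
   p297_62,
   tr p311_5]]

theorem k297 : eqNN c297 (slO 64 (D.chG 48 5) 8) = true := by decide +kernel

/-- The slices of the chunk 298. -/
noncomputable def c298 : List (List ℕ) := [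
  [tr p293_7,
   p298_1,
   s5_6 (s1_2 p298_1),
   tr p295_7,
   tr p296_7,
   p298_5,
   s5_6 (s1_2 p298_5),
   p298_7],
  [x7_6 (x7_5 (x7_4 (x3_2 (x3_1 (x3_0 (n4 p298_11)))))),
   p298_9,
   s5_6 (s1_2 p298_9),
   p298_11,
   p298_12,
   p298_13,
   s5_6 (s1_2 p298_13),
   x7_6 (x7_5 (x7_4 (x3_2 (x3_1 (x3_0 (n4 p298_12))))))],
  [p298_16,
   p298_17,
   p298_18,
   p298_19,
   x7_6 (x7_5 (x7_4 (x3_2 (x3_1 (x3_0 (n5 p298_17)))))),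
   x7_6 (x7_5 (x7_4 (x3_2 (x3_1 (x3_0 (n5 p298_16)))))),
   x7_6 (x7_5 (x7_4 (x3_2 (x3_1 (x3_0 (n5 p298_19)))))),
   x7_6 (x7_5 (x7_4 (x3_2 (x3_1 (x3_0 (n5 p298_18))))))],
  [x7_6 (x7_5 (x7_4 (s5_6 (x3_2 (x3_1 (x3_0 (s1_2 (n6 (n4 p298_45))))))))),
   p298_25,
   p298_26,
   x7_6 (x7_5 (x7_4 (s5_6 (x3_2 (x3_1 (x3_0 (s1_2 (n6 (n4 p298_46))))))))),
   x7_6 (x7_5 (x7_4 (x3_2 (x3_1 (x3_0 (n5 (n4 p298_26))))))),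
   s5_6 (s1_2 p298_46),
   s5_6 (s1_2 p298_45),
   x7_6 (x7_5 (x7_4 (x3_2 (x3_1 (x3_0 (n5 (n4 p298_25)))))))],
  [s5_6 (s1_2 p298_16),
   s5_6 (s1_2 p298_18),
   s5_6 (s1_2 p298_17),
   s5_6 (s1_2 p298_19),
   x7_6 (x7_5 (x7_4 (s5_6 (x3_2 (x3_1 (x3_0 (s1_2 (n5 p298_17)))))))),
   x7_6 (x7_5 (x7_4 (s5_6 (x3_2 (x3_1 (x3_0 (s1_2 (n5 p298_19)))))))),
   x7_6 (x7_5 (x7_4 (s5_6 (x3_2 (x3_1 (x3_0 (s1_2 (n5 p298_16)))))))),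
   x7_6 (x7_5 (x7_4 (s5_6 (x3_2 (x3_1 (x3_0 (s1_2 (n5 p298_18))))))))],
  [x7_6 (x7_5 (x7_4 (x3_2 (x3_1 (x3_0 (n6 (n4 p298_45))))))),
   s5_6 (s1_2 p298_26),
   s5_6 (s1_2 p298_25),
   x7_6 (x7_5 (x7_4 (x3_2 (x3_1 (x3_0 (n6 (n4 p298_46))))))),
   x7_6 (x7_5 (x7_4 (s5_6 (x3_2 (x3_1 (x3_0 (s1_2 (n5 (n4 p298_26))))))))),
   p298_45,
   p298_46,
   x7_6 (x7_5 (x7_4 (s5_6 (x3_2 (x3_1 (x3_0 (s1_2 (n5 (n4 p298_25)))))))))],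
  [x7_6 (x7_5 (x7_4 (x3_2 (x3_1 (x3_0 (n6 (n5 p298_51))))))),
   p298_49,
   s5_6 (s1_2 p298_49),
   p298_51,
   p298_52,
   p298_53,
   s5_6 (s1_2 p298_53),
   x7_6 (x7_5 (x7_4 (x3_2 (x3_1 (x3_0 (n6 (n5 p298_52)))))))],
  [x5_7 (x5_6 (x5_4 (s3_6 (s2_7 (x1_7 (x1_6 (x1_0 (s1_5 (s0_4 (n7 (n2 (n0 p296_59)))))))))))),
   s5_6 (s1_2 p298_58),
   p298_58,
   p298_59,
   tr p310_7,
   s5_6 (s1_2 p298_62),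
   p298_62,
   tr p311_7]]

theorem k298 : eqNN c298 (slO 64 (D.chG 48 7) 8) = true := by decide +kernel

/-- The slices of the chunk 299. -/
noncomputable def c299 : List (List ℕ) := [
  [tr p293_9,
   p299_1,
   x7_6 (x7_5 (x7_4 (s5_6 (x3_2 (x3_1 (x3_0 (s1_2 (n0 p299_1)))))))),
   tr p295_9,
   tr p296_9,
   p299_5,
   x7_6 (x7_5 (x7_4 (s5_6 (x3_2 (x3_1 (x3_0 (s1_2 (n0 p299_5)))))))),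
   tr p298_9],
  [x6_7 (x6_5 (x6_4 (s5_7 (x2_3 (x2_1 (x2_0 (s1_3 (n4 (n0 p299_1))))))))),
   p299_9,
   p299_10,
   s6_7 (x5_7 (x5_6 (x5_4 (s2_3 (x1_3 (x1_2 (x1_0 p299_1))))))),
   p299_12,
   p299_13,
   p299_14,
   x7_6 (x7_5 (x7_4 (s5_6 (x3_2 (x3_1 (x3_0 (s1_2 (n4 (n0 p299_12)))))))))],
  [p299_16,
   p299_17,
   p299_18,
   p299_19,
   x7_6 (x7_5 (x7_4 (s5_6 (x3_2 (x3_1 (x3_0 (s1_2 (n6 (n0 p299_34))))))))),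
   x7_6 (x7_5 (x7_4 (s5_6 (x3_2 (x3_1 (x3_0 (s1_2 (n6 (n0 p299_32))))))))),
   x6_7 (x6_5 (x6_4 (s5_7 (x2_3 (x2_1 (x2_0 (s1_3 (n7 (n0 p299_35))))))))),
   x7_6 (x7_5 (x7_4 (s5_6 (x3_2 (x3_1 (x3_0 (s1_2 (n6 (n0 p299_33)))))))))],
  [x6_7 (x6_5 (x6_4 (s5_7 (x2_3 (x2_1 (x2_0 (s1_3 (n4 (n0 p299_17))))))))),
   p299_25,
   p299_26,
   x6_7 (x6_5 (x6_4 (s5_7 (x2_3 (x2_1 (x2_0 (s1_3 (n0 p299_18)))))))),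
   x6_7 (x6_5 (x6_4 (s5_7 (x2_3 (x2_1 (x2_0 (s1_3 (n7 (n4 (n0 p299_41)))))))))),
   x6_7 (x6_5 (x6_4 (s5_7 (x2_3 (x2_1 (x2_0 (s1_3 (n7 (n4 (n0 p299_33)))))))))),
   x6_7 (x6_5 (x6_4 (s5_7 (x2_3 (x2_1 (x2_0 (s1_3 (n7 (n0 p299_34))))))))),
   x6_7 (x6_5 (x6_4 (s5_7 (x2_3 (x2_1 (x2_0 (s1_3 (n7 (n0 p299_42)))))))))],
  [p299_32,
   p299_33,
   p299_34,
   p299_35,
   x7_6 (x7_5 (x7_4 (s5_6 (x3_2 (x3_1 (x3_0 (s1_2 (n5 (n0 p299_17))))))))),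
   s6_7 (x5_7 (x5_6 (x5_4 (s2_3 (x1_3 (x1_2 (x1_0 (n7 p299_19)))))))),
   s6_7 (x5_7 (x5_6 (x5_4 (s2_3 (x1_3 (x1_2 (x1_0 (n7 (n4 p299_16))))))))),
   x7_6 (x7_5 (x7_4 (s5_6 (x3_2 (x3_1 (x3_0 (s1_2 (n5 (n0 p299_18)))))))))],
  [s6_7 (x5_7 (x5_6 (x5_4 (s2_3 (x1_3 (x1_2 (x1_0 (n4 p299_34)))))))),
   p299_41,
   p299_42,
   s6_7 (x5_7 (x5_6 (x5_4 (s2_3 (x1_3 (x1_2 (x1_0 p299_33))))))),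
   s6_7 (x5_7 (x5_6 (x5_4 (s2_3 (x1_3 (x1_2 (x1_0 (n7 (n4 p299_26))))))))),
   s6_7 (x5_7 (x5_6 (x5_4 (s2_3 (x1_3 (x1_2 (x1_0 (n7 p299_17)))))))),
   s6_7 (x5_7 (x5_6 (x5_4 (s2_3 (x1_3 (x1_2 (x1_0 (n7 (n4 p299_18))))))))),
   s6_7 (x5_7 (x5_6 (x5_4 (s2_3 (x1_3 (x1_2 (x1_0 (n7 p299_25))))))))],
  [x6_7 (x6_5 (x6_4 (s5_7 (x2_3 (x2_1 (x2_0 (s1_3 (n5 (n4 (n0 p299_5)))))))))),
   s6_7 (x5_7 (x5_6 (x5_4 (s2_3 (x1_3 (x1_2 (x1_0 (n6 p299_13)))))))),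
   s6_7 (x5_7 (x5_6 (x5_4 (s2_3 (x1_3 (x1_2 (x1_0 (n6 (n4 p299_14))))))))),
   s6_7 (x5_7 (x5_6 (x5_4 (s2_3 (x1_3 (x1_2 (x1_0 (n6 p299_5)))))))),
   p299_52,
   p299_53,
   p299_54,
   x7_6 (x7_5 (x7_4 (s5_6 (x3_2 (x3_1 (x3_0 (s1_2 (n6 (n5 (n0 p299_52))))))))))],
  [x5_7 (x5_6 (x5_4 (s3_6 (s2_7 (x1_7 (x1_6 (x1_0 (s1_5 (s0_4 (n2 (n0 p296_9))))))))))),
   x6_7 (x6_5 (x6_4 (s5_7 (x2_3 (x2_1 (x2_0 (s1_3 (n5 (n4 (n0 p299_12)))))))))),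
   s6_7 (x5_7 (x5_6 (x5_4 (s2_3 (x1_3 (x1_2 (x1_0 (n6 (n4 p299_12))))))))),
   x5_7 (x5_6 (x5_4 (s3_6 (s2_7 (x1_7 (x1_6 (x1_0 (s1_5 (s0_4 (n2 p298_9)))))))))),
   tr p310_9,
   x6_7 (x6_5 (x6_4 (s5_7 (x2_3 (x2_1 (x2_0 (s1_3 (n7 (n5 (n4 (n0 p299_52))))))))))),
   s6_7 (x5_7 (x5_6 (x5_4 (s2_3 (x1_3 (x1_2 (x1_0 (n7 (n6 (n4 p299_52)))))))))),
   tr p311_9]]

theorem k299 : eqNN c299 (slO 64 (D.chG 48 9) 8) = true := by decide +kernel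

end Pool.Agent.Lib.MP_afdd4d_co.K10.E6
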