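import Pool.Agent.Lib.MP_afdd4d_co.K10.E6.Dat
import Pool.Agent.Lib.MP_afdd4d_co.K10.E6.Mk
import Pool.Agent.Lib.MP_afdd4d_co.K8.F6Bl5
import Pool.Agent.Lib.MP_afdd4d_co.K10.E6.P0
import Pool.Agent.Lib.MP_afdd4d_co.K10.E6.P1
import Pool.Agent.Lib.MP_afdd4d_co.K10.E6.P2
import Pool.Agent.Lib.MP_afdd4d_co.K10.E6.P3
import Pool.Agent.Lib.MP_afdd4d_co.K10.E6.P4
import Pool.Agent.Lib.MP_afdd4d_co.K10.E6.P5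
import Pool.Agent.Lib.MP_afdd4d_co.K10.E6.P6
import Pool.Agent.Lib.MP_afdd4d_co.K10.E6.P7
import Pool.Agent.Lib.MP_afdd4d_co.K10.E6.P8
import Pool.Agent.Lib.MP_afdd4d_co.K10.E6.P9
import Pool.Agent.Lib.MP_afdd4d_co.K10.E6.P10
import Pool.Agent.Lib.MP_afdd4d_co.K10.E6.P11
import Pool.Agent.Lib.MP_afdd4d_co.K10.E6.P12
import Pool.Agent.Lib.MP_afdd4d_co.K10.E6.P13
import Pool.Agent.Lib.MP_afdd4d_co.K10.E6.P14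
import Pool.Agent.Lib.MP_afdd4d_co.K10.E6.P15
import Pool.Agent.Lib.MP_afdd4d_co.K10.E6.P16
import Pool.Agent.Lib.MP_afdd4d_co.K10.E6.P17
import Pool.Agent.Lib.MP_afdd4d_co.K10.E6.P18
import Pool.Agent.Lib.MP_afdd4d_co.K10.E6.P19
import Pool.Agent.Lib.MP_afdd4d_co.K10.E6.P20
import Pool.Agent.Lib.MP_afdd4d_co.K10.E6.P21
import Pool.Agent.Lib.MP_afdd4d_co.K10.E6.P22
import Pool.Agent.Lib.MP_afdd4d_co.K10.E6.P23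
import Pool.Agent.Lib.MP_afdd4d_co.K10.E6.P24
import Pool.Agent.Lib.MP_afdd4d_co.K10.E6.P25
import Pool.Agent.Lib.MP_afdd4d_co.K10.E6.P26
import Pool.Agent.Lib.MP_afdd4d_co.K10.E6.P27
import Pool.Agent.Lib.MP_afdd4d_co.K10.E6.P28
import Pool.Agent.Lib.MP_afdd4d_co.K10.E6.P29
import Pool.Agent.Lib.MP_afdd4d_co.K10.E6.P30
import Pool.Agent.Lib.MP_afdd4d_co.K10.E6.P31
import Pool.Agent.Lib.MP_afdd4d_co.K10.E6.P32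

/-!
# Tables
-/

namespace Pool.Agent.Lib.MP_afdd4d_co.K10.E6

open K8

set_option maxRecDepth 100000
set_option exponentiation.threshold 10000000

/-- The slices of the chunk 300. -/
noncomputable def c300 : List (List ℕ) := [
  [tr p293_12,
   tr p294_12,
   s3_7 (s2_5 (s1_6 (s0_4 p294_12))),
   tr p295_12,
   tr p296_12,
   tr p297_12,
   s3_7 (s2_5 (s1_6 (s0_4 p297_12))),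
   tr p298_12],
  [x6_7 (x6_5 (x6_4 (s5_6 (x3_2 (x3_1 (x3_0 (s3_6 (x2_6 (x2_1 (x2_0 (s2_5 (s1_7 (s0_4 (n7 (n4 (n0 p294_57)))))))))))))))),
   tr p299_12,
   s3_7 (s2_5 (s1_6 (s0_4 p299_12))),
   x5_7 (x5_6 (x5_4 (s3_6 (s2_7 (x1_7 (x1_6 (x1_0 (s1_5 (s0_4 (n7 (n4 p294_58))))))))))),
   p300_12,
   p300_13,
   s5_6 (s1_2 p300_13),
   p300_15],
  [tr p302_12,
   p300_17,
   p300_18,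
   tr p305_12,
   p300_20,
   s5_6 (s1_2 p300_38),
   s5_6 (s1_2 p300_37),
   p300_23],
  [p300_24,
   tr p306_12,
   tr p307_12,
   p300_27,
   s5_6 (s1_2 p300_44),
   s5_6 (s1_2 p300_46),
   s5_6 (s1_2 p300_45),
   s5_6 (s1_2 p300_47)],
  [s3_7 (s2_5 (s1_6 (s0_4 p302_12))),
   s5_6 (s1_2 p300_18),
   s5_6 (s1_2 p300_17),
   s3_7 (s2_5 (s1_6 (s0_4 p305_12))),
   s5_6 (s1_2 p300_20),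
   p300_37,
   p300_38,
   s5_6 (s1_2 p300_23)],
  [s5_6 (s1_2 p300_24),
   s3_7 (s2_5 (s1_6 (s0_4 p307_12))),
   s3_7 (s2_5 (s1_6 (s0_4 p306_12))),
   s5_6 (s1_2 p300_27),
   p300_44,
   p300_45,
   p300_46,
   p300_47],
  [x6_7 (x6_5 (x6_4 (s5_6 (x3_2 (x3_1 (x3_0 (s3_6 (x2_6 (x2_1 (x2_0 (s2_5 (s1_7 (s0_4 (n7 (n4 (n1 (n0 p297_57))))))))))))))))),
   p300_49,
   s5_6 (s1_2 p300_49),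
   x5_7 (x5_6 (x5_4 (s3_6 (s2_7 (x1_7 (x1_6 (x1_0 (s1_5 (s0_4 (n7 (n4 (n2 p297_58)))))))))))),
   p300_52,
   tr p309_12,
   s3_7 (s2_5 (s1_6 (s0_4 p309_12))),
   p300_55],
  [x5_7 (x5_6 (x5_4 (s3_6 (s2_7 (x1_7 (x1_6 (x1_0 (s1_5 (s0_4 (n7 (n4 (n2 (n0 p296_58))))))))))))),
   p300_57,
   s5_6 (s1_2 p300_57),
   x5_7 (x5_6 (x5_4 (s3_6 (s2_7 (x1_7 (x1_6 (x1_0 (s1_5 (s0_4 (n7 (n4 (n2 p298_58)))))))))))),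
   tr p310_12,
   s5_6 (s1_2 p300_62),
   p300_62,
   tr p311_12]]

theorem k300 : eqNN c300 (slO 64 (D.chG 48 12) 8) = true := by decide +kernel

/-- The slices of the chunk 301. -/
noncomputable def c301 : List (List ℕ) := [
  [tr p293_13,
   tr p294_13,
   x7_6 (x7_5 (x7_4 (x3_2 (x3_1 (x3_0 (s3_7 (s2_5 (s1_6 (s0_4 (n4 p294_13)))))))))),
   tr p295_13,
   tr p296_13,
   tr p297_13,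
   x7_6 (x7_5 (x7_4 (x3_2 (x3_1 (x3_0 (s3_7 (s2_5 (s1_6 (s0_4 (n4 p297_13)))))))))),
   tr p298_13],
  [x6_7 (x6_5 (x6_4 (s5_6 (x3_2 (x3_1 (x3_0 (s3_6 (x2_6 (x2_1 (x2_0 (s2_5 (s1_7 (s0_4 (n7 (n4 (n0 p294_49)))))))))))))))),
   tr p299_13,
   s3_7 (s2_5 (s1_6 (s0_4 p299_14))),
   x5_7 (x5_6 (x5_4 (s3_6 (s2_7 (x1_7 (x1_6 (x1_0 (s1_5 (s0_4 (n7 p294_49)))))))))),
   tr p300_13,
   p301_13,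
   p301_14,
   x7_6 (x7_5 (x7_4 (x3_2 (x3_1 (x3_0 (s3_7 (s2_5 (s1_6 (s0_4 (n4 (n0 p300_13)))))))))))],
  [tr p302_13,
   p301_17,
   p301_18,
   tr p305_13,
   x7_6 (x7_5 (x7_4 (s5_6 (x3_2 (x3_1 (x3_0 (s1_2 (n6 (n0 p301_34))))))))),
   x7_6 (x7_5 (x7_4 (x3_2 (x3_1 (x3_0 (tr (n4 (n1 p302_14)))))))),
   x7_6 (x7_5 (x7_4 (x3_2 (x3_1 (x3_0 (tr (n4 (n1 p305_14)))))))),
   x7_6 (x7_5 (x7_4 (s5_6 (x3_2 (x3_1 (x3_0 (s1_2 (n6 (n0 p301_33)))))))))],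
  [x7_6 (x7_5 (x7_4 (s5_6 (x3_2 (x3_1 (x3_0 (s1_2 (n6 (n4 (n0 p301_45)))))))))),
   tr p306_13,
   tr p307_13,
   x7_6 (x7_5 (x7_4 (s5_6 (x3_2 (x3_1 (x3_0 (s1_2 (n6 (n4 (n0 p301_46)))))))))),
   x7_6 (x7_5 (x7_4 (x3_2 (x3_1 (x3_0 (tr (n4 (n1 (n0 p307_14))))))))),
   x7_6 (x7_5 (x7_4 (s5_6 (x3_2 (x3_1 (x3_0 (s1_2 (n6 (n4 (n0 p301_43)))))))))),
   x7_6 (x7_5 (x7_4 (s5_6 (x3_2 (x3_1 (x3_0 (s1_2 (n6 (n4 (n0 p301_40)))))))))),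
   x7_6 (x7_5 (x7_4 (x3_2 (x3_1 (x3_0 (tr (n4 (n1 (n0 p306_14)))))))))],
  [s3_7 (s2_5 (s1_6 (s0_4 p302_14))),
   p301_33,
   p301_34,
   s3_7 (s2_5 (s1_6 (s0_4 p305_14))),
   x7_6 (x7_5 (x7_4 (s5_6 (x3_2 (x3_1 (x3_0 (s1_2 (n5 (n0 p301_17))))))))),
   x7_6 (x7_5 (x7_4 (x3_2 (x3_1 (x3_0 (s3_7 (s2_5 (s1_6 (s0_4 (n4 (n1 p305_13))))))))))),
   x7_6 (x7_5 (x7_4 (x3_2 (x3_1 (x3_0 (s3_7 (s2_5 (s1_6 (s0_4 (n4 (n1 p302_13))))))))))),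
   x7_6 (x7_5 (x7_4 (s5_6 (x3_2 (x3_1 (x3_0 (s1_2 (n5 (n0 p301_18)))))))))],
  [p301_40,
   s3_7 (s2_5 (s1_6 (s0_4 p307_14))),
   s3_7 (s2_5 (s1_6 (s0_4 p306_14))),
   p301_43,
   x7_6 (x7_5 (x7_4 (x3_2 (x3_1 (x3_0 (s3_7 (s2_5 (s1_6 (s0_4 (n4 (n1 (n0 p307_13)))))))))))),
   p301_45,
   p301_46,
   x7_6 (x7_5 (x7_4 (x3_2 (x3_1 (x3_0 (s3_7 (s2_5 (s1_6 (s0_4 (n4 (n1 (n0 p306_13))))))))))))],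
  [x6_7 (x6_5 (x6_4 (s5_6 (x3_2 (x3_1 (x3_0 (s3_6 (x2_6 (x2_1 (x2_0 (s2_5 (s1_7 (s0_4 (n7 (n4 (n1 (n0 p297_49))))))))))))))))),
   p301_49,
   p301_50,
   x5_7 (x5_6 (x5_4 (s3_6 (s2_7 (x1_7 (x1_6 (x1_0 (s1_5 (s0_4 (n7 (n2 p297_49))))))))))),
   p301_52,
   tr p309_13,
   s3_7 (s2_5 (s1_6 (s0_4 p309_14))),
   x7_6 (x7_5 (x7_4 (s5_6 (x3_2 (x3_1 (x3_0 (s1_2 (n6 (n5 (n0 p301_52))))))))))],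
  [x5_7 (x5_6 (x5_4 (s3_6 (s2_7 (x1_7 (x1_6 (x1_0 (s1_5 (s0_4 (n7 (n2 (n0 p296_49)))))))))))),
   x6_7 (x6_5 (x6_4 (s5_6 (x3_2 (x3_1 (x3_0 (s3_6 (x2_6 (x2_1 (x2_0 (s2_5 (s1_7 (s0_4 (n7 (n4 (n1 (n0 p300_49))))))))))))))))),
   x5_7 (x5_6 (x5_4 (s3_6 (s2_7 (x1_7 (x1_6 (x1_0 (s1_5 (s0_4 (n7 (n2 (n0 p300_49)))))))))))),
   x5_7 (x5_6 (x5_4 (s3_6 (s2_7 (x1_7 (x1_6 (x1_0 (s1_5 (s0_4 (n7 (n2 p298_49))))))))))),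
   tr p310_13,
   x6_7 (x6_5 (x6_4 (s5_6 (x3_2 (x3_1 (x3_0 (s3_6 (x2_6 (x2_1 (x2_0 (s2_5 (s1_7 (s0_4 (n7 (n4 (n3 (n1 (n0 p308_49)))))))))))))))))),
   x5_7 (x5_6 (x5_4 (s3_6 (s2_7 (x1_7 (x1_6 (x1_0 (s1_5 (s0_4 (n7 (n3 (n2 (n0 p308_49))))))))))))),
   tr p311_13]]

theorem k301 : eqNN c301 (slO 64 (D.chG 48 13) 8) = true := by decide +kernel

/-- The slices of the chunk 302. -/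
noncomputable def c302 : List (List ℕ) := [
  [tr p293_16,
   p302_1,
   p302_2,
   tr p295_16,
   tr p296_16,
   p302_5,
   p302_6,
   tr p298_16],
  [x6_7 (x6_5 (x6_4 (s5_7 (x2_3 (x2_1 (x2_0 (s1_3 (n4 (n0 p302_1))))))))),
   tr p299_16,
   s3_7 (s2_5 (s1_6 (s0_4 p299_32))),
   x6_7 (x6_5 (x6_4 (s5_7 (x2_3 (x2_1 (x2_0 (s1_3 (n0 p302_2)))))))),
   p302_12,
   p302_13,
   p302_14,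
   x7_6 (x7_5 (x7_4 (x3_2 (x3_1 (x3_0 (s3_7 (s2_5 (s1_6 (s0_4 (n6 (n0 p300_38)))))))))))],
  [p302_16,
   p302_17,
   p302_18,
   p302_19,
   p302_20,
   p302_21,
   x6_7 (x6_5 (x6_4 (s5_7 (x2_3 (x2_1 (x2_0 (s1_3 (n7 (n0 p302_35))))))))),
   p302_23],
  [x6_7 (x6_5 (x6_4 (s5_7 (x2_3 (x2_1 (x2_0 (s1_3 (n4 (n0 p302_17))))))))),
   p302_25,
   p302_26,
   x6_7 (x6_5 (x6_4 (s5_7 (x2_3 (x2_1 (x2_0 (s1_3 (n0 p302_18)))))))),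
   x6_7 (x6_5 (x6_4 (s5_7 (x2_3 (x2_1 (x2_0 (s1_3 (n7 (n4 (n0 p302_41)))))))))),
   x6_7 (x6_5 (x6_4 (s5_7 (x2_3 (x2_1 (x2_0 (s1_3 (n7 (n4 (n0 p302_33)))))))))),
   x6_7 (x6_5 (x6_4 (s5_7 (x2_3 (x2_1 (x2_0 (s1_3 (n7 (n0 p302_34))))))))),
   x6_7 (x6_5 (x6_4 (s5_7 (x2_3 (x2_1 (x2_0 (s1_3 (n7 (n0 p302_42)))))))))],
  [x6_7 (x6_5 (x6_4 (s5_7 (x2_3 (x2_1 (x2_0 (s1_3 (n5 (n4 (n0 p302_21)))))))))),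
   p302_33,
   p302_34,
   p302_35,
   p302_36,
   p302_37,
   p302_38,
   p302_39],
  [x6_7 (x6_5 (x6_4 (s5_7 (x2_3 (x2_1 (x2_0 (s1_3 (n5 (n4 (n0 p302_20)))))))))),
   p302_41,
   p302_42,
   x6_7 (x6_5 (x6_4 (s5_7 (x2_3 (x2_1 (x2_0 (s1_3 (n5 (n0 p302_23))))))))),
   p302_44,
   x6_7 (x6_5 (x6_4 (s5_7 (x2_3 (x2_1 (x2_0 (s1_3 (n7 (n5 (n4 (n0 p302_36))))))))))),
   x6_7 (x6_5 (x6_4 (s5_7 (x2_3 (x2_1 (x2_0 (s1_3 (n7 (n5 (n0 p302_39)))))))))),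
   p302_47],
  [x6_7 (x6_5 (x6_4 (s5_7 (x2_3 (x2_1 (x2_0 (s1_3 (n5 (n4 (n0 p302_5)))))))))),
   x6_7 (x6_5 (x6_4 (s5_7 (x2_3 (x2_1 (x2_0 (s1_3 (n5 (n4 (n0 p302_13)))))))))),
   x6_7 (x6_5 (x6_4 (s5_7 (x2_3 (x2_1 (x2_0 (s1_3 (n5 (n0 p302_14))))))))),
   x6_7 (x6_5 (x6_4 (s5_7 (x2_3 (x2_1 (x2_0 (s1_3 (n5 (n0 p302_6))))))))),
   p302_52,
   tr p309_16,
   s3_7 (s2_5 (s1_6 (s0_4 p309_32))),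
   x7_6 (x7_5 (x7_4 (x3_2 (x3_1 (x3_0 (s3_7 (s2_5 (s1_6 (s0_4 (n6 (n2 (n1 p308_38))))))))))))],
  [x6_7 (x6_5 (x6_4 (s5_6 (x3_2 (x3_1 (x3_0 (s3_6 (x2_6 (x2_1 (x2_0 (s2_5 (s1_7 (s0_4 (n4 (n1 (n0 p296_16)))))))))))))))),
   x6_7 (x6_5 (x6_4 (s5_7 (x2_3 (x2_1 (x2_0 (s1_3 (n5 (n4 (n0 p302_12)))))))))),
   x5_7 (x5_6 (x5_4 (s3_6 (s2_7 (x1_7 (x1_6 (x1_0 (s1_5 (s0_4 (n6 (n4 (n2 (n0 p300_38))))))))))))),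
   x6_7 (x6_5 (x6_4 (s5_6 (x3_2 (x3_1 (x3_0 (s3_6 (x2_6 (x2_1 (x2_0 (s2_5 (s1_7 (s0_4 (n4 (n1 p298_16))))))))))))))),
   tr p310_16,
   x6_7 (x6_5 (x6_4 (s5_7 (x2_3 (x2_1 (x2_0 (s1_3 (n7 (n5 (n4 (n0 p302_52))))))))))),
   x5_7 (x5_6 (x5_4 (s3_6 (s2_7 (x1_7 (x1_6 (x1_0 (s1_5 (s0_4 (n6 (n4 (n3 (n2 (n0 p308_38)))))))))))))),
   tr p311_16]]

theorem k302 : eqNN c302 (slO 64 (D.chG 48 16) 8) = true := by decide +kernel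

/-- The slices of the chunk 303. -/
noncomputable def c303 : List (List ℕ) := [
  [tr p293_17,
   tr p294_17,
   s3_7 (s2_5 (s1_6 (s0_4 p294_34))),
   tr p295_17,
   tr p296_17,
   tr p297_17,
   s3_7 (s2_5 (s1_6 (s0_4 p297_34))),
   tr p298_17],
  [x6_7 (x6_5 (x6_4 (s5_6 (x3_2 (x3_1 (x3_0 (s3_6 (x2_6 (x2_1 (x2_0 (s2_5 (s1_7 (s0_4 (n4 (n0 p294_24))))))))))))))),
   tr p299_17,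
   s3_7 (s2_5 (s1_6 (s0_4 p299_34))),
   x5_7 (x5_6 (x5_4 (s3_6 (s2_7 (x1_7 (x1_6 (x1_0 (s1_5 (s0_4 (n6 p294_45)))))))))),
   tr p300_17,
   tr p301_17,
   s3_7 (s2_5 (s1_6 (s0_4 p301_34))),
   x7_6 (x7_5 (x7_4 (x3_2 (x3_1 (x3_0 (tr (n5 (n0 p300_20))))))))],
  [tr p302_17,
   p303_17,
   p303_18,
   tr p305_17,
   p303_20,
   x7_6 (x7_5 (x7_4 (x3_2 (x3_1 (x3_0 (tr (n5 (n1 p302_20)))))))),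
   x7_6 (x7_5 (x7_4 (x3_2 (x3_1 (x3_0 (tr (n5 (n1 p305_20)))))))),
   p303_23],
  [p303_24,
   tr p306_17,
   tr p307_17,
   p303_27,
   x7_6 (x7_5 (x7_4 (x3_2 (x3_1 (x3_0 (tr (n5 (n1 (n0 p307_20))))))))),
   x7_6 (x7_5 (x7_4 (x6_7 (x6_5 (x6_4 (s5_6 (s3_6 (x2_6 (x2_1 (x2_0 (s2_5 (s1_7 (s0_4 (n4 (n3 (n0 p304_40)))))))))))))))),
   x7_6 (x7_5 (x7_4 (x6_7 (x6_5 (x6_4 (s5_6 (s3_6 (x2_6 (x2_1 (x2_0 (s2_5 (s1_7 (s0_4 (n4 (n3 p303_40))))))))))))))),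
   x7_6 (x7_5 (x7_4 (x3_2 (x3_1 (x3_0 (tr (n5 (n1 (n0 p306_20)))))))))],
  [s3_7 (s2_5 (s1_6 (s0_4 p302_34))),
   p303_33,
   p303_34,
   s3_7 (s2_5 (s1_6 (s0_4 p305_34))),
   p303_36,
   x7_6 (x7_5 (x7_4 (x3_2 (x3_1 (x3_0 (s3_7 (s2_5 (s1_6 (s0_4 (n6 (n1 p305_36))))))))))),
   x7_6 (x7_5 (x7_4 (x3_2 (x3_1 (x3_0 (s3_7 (s2_5 (s1_6 (s0_4 (n6 (n1 p302_36))))))))))),
   p303_39],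
  [p303_40,
   s3_7 (s2_5 (s1_6 (s0_4 p307_34))),
   s3_7 (s2_5 (s1_6 (s0_4 p306_34))),
   p303_43,
   x7_6 (x7_5 (x7_4 (x3_2 (x3_1 (x3_0 (s3_7 (s2_5 (s1_6 (s0_4 (n6 (n1 (n0 p307_36)))))))))))),
   p303_45,
   p303_46,
   x5_7 (x5_6 (x5_4 (s3_6 (s2_7 (x1_7 (x1_6 (x1_0 (s1_5 (s0_4 (n6 (n3 p306_45)))))))))))],
  [x6_7 (x6_5 (x6_4 (s5_6 (x3_2 (x3_1 (x3_0 (s3_6 (x2_6 (x2_1 (x2_0 (s2_5 (s1_7 (s0_4 (n4 (n1 (n0 p297_24)))))))))))))))),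
   x5_7 (x5_6 (x5_4 (s3_6 (s2_7 (x1_7 (x1_6 (x1_0 (s1_5 (s0_4 (n6 (n2 p301_45))))))))))),
   x7_6 (x7_5 (x7_4 (x6_7 (x6_5 (x6_4 (s5_6 (s3_6 (x2_6 (x2_1 (x2_0 (s2_5 (s1_7 (s0_4 (n4 (n2 p301_40))))))))))))))),
   x5_7 (x5_6 (x5_4 (s3_6 (s2_7 (x1_7 (x1_6 (x1_0 (s1_5 (s0_4 (n6 (n2 p297_45))))))))))),
   tr p308_17,
   tr p309_17,
   s3_7 (s2_5 (s1_6 (s0_4 p309_34))),
   x7_6 (x7_5 (x7_4 (x3_2 (x3_1 (x3_0 (tr (n5 (n2 (n1 p308_20)))))))))],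
  [x5_7 (x5_6 (x5_4 (s3_6 (s2_7 (x1_7 (x1_6 (x1_0 (s1_5 (s0_4 (n6 (n2 (n0 p296_45)))))))))))),
   x6_7 (x6_5 (x6_4 (s5_6 (x3_2 (x3_1 (x3_0 (s3_6 (x2_6 (x2_1 (x2_0 (s2_5 (s1_7 (s0_4 (n4 (n1 (n0 p300_24)))))))))))))))),
   x5_7 (x5_6 (x5_4 (s3_6 (s2_7 (x1_7 (x1_6 (x1_0 (s1_5 (s0_4 (n6 (n2 (n0 p300_45)))))))))))),
   x5_7 (x5_6 (x5_4 (s3_6 (s2_7 (x1_7 (x1_6 (x1_0 (s1_5 (s0_4 (n6 (n2 p298_45))))))))))),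
   tr p310_17,
   x6_7 (x6_5 (x6_4 (s5_6 (x3_2 (x3_1 (x3_0 (s3_6 (x2_6 (x2_1 (x2_0 (s2_5 (s1_7 (s0_4 (n4 (n3 (n1 (n0 p308_24))))))))))))))))),
   x5_7 (x5_6 (x5_4 (s3_6 (s2_7 (x1_7 (x1_6 (x1_0 (s1_5 (s0_4 (n6 (n3 (n2 (n0 p308_45))))))))))))),
   tr p311_17]]

theorem k303 : eqNN c303 (slO 64 (D.chG 48 17) 8) = true := by decide +kernel

end Pool.Agent.Lib.MP_afdd4d_co.K10.E6
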