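import Pool.Agent.Lib.MP_afdd4d_co.K10.E6.Dat
import Pool.Agent.Lib.MP_afdd4d_co.K10.E6.Mk
import Pool.Agent.Lib.MP_afdd4d_co.K8.F6Bl5
import Pool.Agent.Lib.MP_afdd4d_co.K10.E6.P0
import Pool.Agent.Lib.MP_afdd4d_co.K10.E6.P1
import Pool.Agent.Lib.MP_afdd4d_co.K10.E6.P2
import Pool.Agent.Lib.MP_afdd4d_co.K10.E6.P3
import Pool.Agent.Lib.MP_afdd4d_co.K10.E6.P4
import Pool.Agent.Lib.MP_afdd4d_co.K10.E6.P5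
import Pool.Agent.Lib.MP_afdd4d_co.K10.E6.P6
import Pool.Agent.Lib.MP_afdd4d_co.K10.E6.P7
import Pool.Agent.Lib.MP_afdd4d_co.K10.E6.P8
import Pool.Agent.Lib.MP_afdd4d_co.K10.E6.P9
import Pool.Agent.Lib.MP_afdd4d_co.K10.E6.P10
import Pool.Agent.Lib.MP_afdd4d_co.K10.E6.P11
import Pool.Agent.Lib.MP_afdd4d_co.K10.E6.P12
import Pool.Agent.Lib.MP_afdd4d_co.K10.E6.P13
import Pool.Agent.Lib.MP_afdd4d_co.K10.E6.P14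
import Pool.Agent.Lib.MP_afdd4d_co.K10.E6.P15
import Pool.Agent.Lib.MP_afdd4d_co.K10.E6.P16
import Pool.Agent.Lib.MP_afdd4d_co.K10.E6.P17
import Pool.Agent.Lib.MP_afdd4d_co.K10.E6.P18
import Pool.Agent.Lib.MP_afdd4d_co.K10.E6.P19
import Pool.Agent.Lib.MP_afdd4d_co.K10.E6.P20
import Pool.Agent.Lib.MP_afdd4d_co.K10.E6.P21
import Pool.Agent.Lib.MP_afdd4d_co.K10.E6.P22
import Pool.Agent.Lib.MP_afdd4d_co.K10.E6.P23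
import Pool.Agent.Lib.MP_afdd4d_co.K10.E6.P24
import Pool.Agent.Lib.MP_afdd4d_co.K10.E6.P25
import Pool.Agent.Lib.MP_afdd4d_co.K10.E6.P26
import Pool.Agent.Lib.MP_afdd4d_co.K10.E6.P27
import Pool.Agent.Lib.MP_afdd4d_co.K10.E6.P28
import Pool.Agent.Lib.MP_afdd4d_co.K10.E6.P29
import Pool.Agent.Lib.MP_afdd4d_co.K10.E6.P30
import Pool.Agent.Lib.MP_afdd4d_co.K10.E6.P31
import Pool.Agent.Lib.MP_afdd4d_co.K10.E6.P32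

/-!
# Tables
-/

namespace Pool.Agent.Lib.MP_afdd4d_co.K10.E6

open K8

set_option maxRecDepth 100000
set_option exponentiation.threshold 10000000

/-- The slices of the chunk 308. -/
noncomputable def c308 : List (List ℕ) := [
  [tr p293_52,
   tr p294_52,
   s3_7 (s2_5 (s1_6 (s0_4 p294_52))),
   tr p295_52,
   tr p296_52,
   tr p297_52,
   s3_7 (s2_5 (s1_6 (s0_4 p297_52))),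
   tr p298_52],
  [x6_7 (x6_5 (x6_4 (s5_6 (x3_2 (x3_1 (x3_0 (s3_6 (x2_6 (x2_1 (x2_0 (s2_5 (s1_7 (s0_4 (n7 (n5 (n4 (n0 p294_61))))))))))))))))),
   tr p299_52,
   s3_7 (s2_5 (s1_6 (s0_4 p299_52))),
   x5_7 (x5_6 (x5_4 (s3_6 (s2_7 (x1_7 (x1_6 (x1_0 (s1_5 (s0_4 (n7 (n6 (n4 p294_62)))))))))))),
   tr p300_52,
   tr p301_52,
   s3_7 (s2_5 (s1_6 (s0_4 p301_52))),
   x7_6 (x7_5 (x7_4 (x3_2 (x3_1 (x3_0 (tr (n6 (n5 (n0 p300_55)))))))))],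
  [tr p302_52,
   p308_17,
   p308_18,
   tr p305_52,
   p308_20,
   s5_6 (s1_2 p308_38),
   s5_6 (s1_2 p308_37),
   p308_23],
  [p308_24,
   tr p306_52,
   tr p307_52,
   p308_27,
   s5_6 (s1_2 p308_44),
   s5_6 (s1_2 p308_46),
   s5_6 (s1_2 p308_45),
   s5_6 (s1_2 p308_47)],
  [s3_7 (s2_5 (s1_6 (s0_4 p302_52))),
   s5_6 (s1_2 p308_18),
   s5_6 (s1_2 p308_17),
   s3_7 (s2_5 (s1_6 (s0_4 p305_52))),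
   s5_6 (s1_2 p308_20),
   p308_37,
   p308_38,
   s5_6 (s1_2 p308_23)],
  [s5_6 (s1_2 p308_24),
   s3_7 (s2_5 (s1_6 (s0_4 p307_52))),
   s3_7 (s2_5 (s1_6 (s0_4 p306_52))),
   s5_6 (s1_2 p308_27),
   p308_44,
   p308_45,
   p308_46,
   p308_47],
  [x6_7 (x6_5 (x6_4 (s5_6 (x3_2 (x3_1 (x3_0 (s3_6 (x2_6 (x2_1 (x2_0 (s2_5 (s1_7 (s0_4 (n7 (n5 (n4 (n1 (n0 p297_61)))))))))))))))))),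
   p308_49,
   s5_6 (s1_2 p308_49),
   x5_7 (x5_6 (x5_4 (s3_6 (s2_7 (x1_7 (x1_6 (x1_0 (s1_5 (s0_4 (n7 (n6 (n4 (n2 p297_62))))))))))))),
   p308_52,
   tr p309_52,
   s3_7 (s2_5 (s1_6 (s0_4 p309_52))),
   p308_55],
  [x5_7 (x5_6 (x5_4 (s3_6 (s2_7 (x1_7 (x1_6 (x1_0 (s1_5 (s0_4 (n7 (n6 (n4 (n2 (n0 p296_62)))))))))))))),
   x7_6 (x7_5 (x7_4 (x6_7 (x6_5 (x6_4 (s5_6 (s3_6 (x2_6 (x2_1 (x2_0 (s2_5 (s1_7 (s0_4 (n7 (n6 (n4 (n2 (n0 p300_62)))))))))))))))))),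
   x5_7 (x5_6 (x5_4 (s3_6 (s2_7 (x1_7 (x1_6 (x1_0 (s1_5 (s0_4 (n7 (n6 (n4 (n2 (n0 p300_62)))))))))))))),
   x5_7 (x5_6 (x5_4 (s3_6 (s2_7 (x1_7 (x1_6 (x1_0 (s1_5 (s0_4 (n7 (n6 (n4 (n2 p298_62))))))))))))),
   tr p310_52,
   p308_61,
   s5_6 (s1_2 p308_61),
   tr p311_52]]

theorem k308 : eqNN c308 (slO 64 (D.chG 48 52) 8) = true := by decide +kernel

/-- The slices of the chunk 309. -/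
noncomputable def c309 : List (List ℕ) := [
  [tr p293_53,
   p309_1,
   x7_6 (x7_5 (x7_4 (s5_6 (x3_2 (x3_1 (x3_0 (s1_2 (n2 (n1 p309_1))))))))),
   tr p295_53,
   tr p296_53,
   p309_5,
   x7_6 (x7_5 (x7_4 (s5_6 (x3_2 (x3_1 (x3_0 (s1_2 (n2 (n1 p309_5))))))))),
   tr p298_53],
  [x6_7 (x6_5 (x6_4 (s5_7 (x2_3 (x2_1 (x2_0 (s1_3 (n4 (n3 (n1 (n0 p309_1))))))))))),
   tr p299_53,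
   s3_7 (s2_5 (s1_6 (s0_4 p299_54))),
   s6_7 (x5_7 (x5_6 (x5_4 (s2_3 (x1_3 (x1_2 (x1_0 (n3 (n2 p309_1))))))))),
   p309_12,
   p309_13,
   p309_14,
   x7_6 (x7_5 (x7_4 (s5_6 (x3_2 (x3_1 (x3_0 (s1_2 (n4 (n2 (n1 p309_12))))))))))],
  [p309_16,
   p309_17,
   p309_18,
   p309_19,
   x7_6 (x7_5 (x7_4 (s5_6 (x3_2 (x3_1 (x3_0 (s1_2 (n6 (n2 (n1 p309_34)))))))))),
   x7_6 (x7_5 (x7_4 (s5_6 (x3_2 (x3_1 (x3_0 (s1_2 (n6 (n2 (n1 p309_32)))))))))),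
   x7_6 (x7_5 (x7_4 (s5_6 (x3_2 (x3_1 (x3_0 (s1_2 (n6 (n2 (n1 p309_35)))))))))),
   x7_6 (x7_5 (x7_4 (s5_6 (x3_2 (x3_1 (x3_0 (s1_2 (n6 (n2 (n1 p309_33))))))))))],
  [x6_7 (x6_5 (x6_4 (s5_7 (x2_3 (x2_1 (x2_0 (s1_3 (n4 (n3 (n1 (n0 p309_17))))))))))),
   p309_25,
   p309_26,
   x6_7 (x6_5 (x6_4 (s5_7 (x2_3 (x2_1 (x2_0 (s1_3 (n3 (n1 (n0 p309_18)))))))))),
   x7_6 (x7_5 (x7_4 (s5_6 (x3_2 (x3_1 (x3_0 (s1_2 (n6 (n4 (n2 (n1 p309_41))))))))))),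
   x6_7 (x6_5 (x6_4 (s5_7 (x2_3 (x2_1 (x2_0 (s1_3 (n7 (n4 (n3 (n1 (n0 p309_33)))))))))))),
   x6_7 (x6_5 (x6_4 (s5_7 (x2_3 (x2_1 (x2_0 (s1_3 (n7 (n3 (n1 (n0 p309_34))))))))))),
   x6_7 (x6_5 (x6_4 (s5_7 (x2_3 (x2_1 (x2_0 (s1_3 (n7 (n3 (n1 (n0 p309_42)))))))))))],
  [p309_32,
   p309_33,
   p309_34,
   p309_35,
   x7_6 (x7_5 (x7_4 (s5_6 (x3_2 (x3_1 (x3_0 (s1_2 (n5 (n2 (n1 p309_17)))))))))),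
   s6_7 (x5_7 (x5_6 (x5_4 (s2_3 (x1_3 (x1_2 (x1_0 (n7 (n3 (n2 p309_19)))))))))),
   x7_6 (x7_5 (x7_4 (s5_6 (x3_2 (x3_1 (x3_0 (s1_2 (n5 (n2 (n1 p309_16)))))))))),
   x7_6 (x7_5 (x7_4 (s5_6 (x3_2 (x3_1 (x3_0 (s1_2 (n5 (n2 (n1 p309_18))))))))))],
  [s6_7 (x5_7 (x5_6 (x5_4 (s2_3 (x1_3 (x1_2 (x1_0 (n4 (n3 (n2 p309_34)))))))))),
   p309_41,
   p309_42,
   s6_7 (x5_7 (x5_6 (x5_4 (s2_3 (x1_3 (x1_2 (x1_0 (n3 (n2 p309_33))))))))),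
   s6_7 (x5_7 (x5_6 (x5_4 (s2_3 (x1_3 (x1_2 (x1_0 (n7 (n4 (n3 (n2 p309_26))))))))))),
   s6_7 (x5_7 (x5_6 (x5_4 (s2_3 (x1_3 (x1_2 (x1_0 (n7 (n3 (n2 p309_17)))))))))),
   s6_7 (x5_7 (x5_6 (x5_4 (s2_3 (x1_3 (x1_2 (x1_0 (n7 (n4 (n3 (n2 p309_18))))))))))),
   s6_7 (x5_7 (x5_6 (x5_4 (s2_3 (x1_3 (x1_2 (x1_0 (n7 (n3 (n2 p309_25))))))))))],
  [x6_7 (x6_5 (x6_4 (s5_7 (x2_3 (x2_1 (x2_0 (s1_3 (n5 (n4 (n3 (n1 (n0 p309_5)))))))))))),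
   s6_7 (x5_7 (x5_6 (x5_4 (s2_3 (x1_3 (x1_2 (x1_0 (n6 (n3 (n2 p309_13)))))))))),
   s6_7 (x5_7 (x5_6 (x5_4 (s2_3 (x1_3 (x1_2 (x1_0 (n6 (n4 (n3 (n2 p309_14))))))))))),
   s6_7 (x5_7 (x5_6 (x5_4 (s2_3 (x1_3 (x1_2 (x1_0 (n6 (n3 (n2 p309_5)))))))))),
   p309_52,
   p309_53,
   p309_54,
   x7_6 (x7_5 (x7_4 (s5_6 (x3_2 (x3_1 (x3_0 (s1_2 (n6 (n5 (n2 (n1 p309_52)))))))))))],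
  [x5_7 (x5_6 (x5_4 (s3_6 (s2_7 (x1_7 (x1_6 (x1_0 (s1_5 (s0_4 (n7 (n6 (n2 (n0 p296_53))))))))))))),
   x6_7 (x6_5 (x6_4 (s5_7 (x2_3 (x2_1 (x2_0 (s1_3 (n5 (n4 (n3 (n1 (n0 p309_12)))))))))))),
   s6_7 (x5_7 (x5_6 (x5_4 (s2_3 (x1_3 (x1_2 (x1_0 (n6 (n4 (n3 (n2 p309_12))))))))))),
   x5_7 (x5_6 (x5_4 (s3_6 (s2_7 (x1_7 (x1_6 (x1_0 (s1_5 (s0_4 (n7 (n6 (n2 p298_53)))))))))))),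
   tr p310_53,
   x6_7 (x6_5 (x6_4 (s5_7 (x2_3 (x2_1 (x2_0 (s1_3 (n7 (n5 (n4 (n3 (n1 (n0 p309_52))))))))))))),
   s6_7 (x5_7 (x5_6 (x5_4 (s2_3 (x1_3 (x1_2 (x1_0 (n7 (n6 (n4 (n3 (n2 p309_52)))))))))))),
   tr p311_53]]

theorem k309 : eqNN c309 (slO 64 (D.chG 48 53) 8) = true := by decide +kernel

/-- The slices of the chunk 310. -/
noncomputable def c310 : List (List ℕ) := [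
  [tr p293_60,
   p310_1,
   s5_6 (s1_2 p310_1),
   tr p295_60,
   p310_4,
   p310_5,
   s5_6 (s1_2 p310_5),
   p310_7],
  [x6_7 (x6_5 (x6_4 (s5_7 (x2_3 (x2_1 (x2_0 (s1_3 (n4 (n3 (n1 (n0 p310_1))))))))))),
   p310_9,
   s5_6 (s1_2 p310_9),
   s6_7 (x5_7 (x5_6 (x5_4 (s2_3 (x1_3 (x1_2 (x1_0 (n3 (n2 (n0 p310_1)))))))))),
   p310_12,
   p310_13,
   s5_6 (s1_2 p310_13),
   x7_6 (x7_5 (x7_4 (x3_2 (x3_1 (x3_0 (n4 (n2 (n1 (n0 p310_12)))))))))],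
  [p310_16,
   p310_17,
   p310_18,
   p310_19,
   x7_6 (x7_5 (x7_4 (x3_2 (x3_1 (x3_0 (n5 (n2 (n1 (n0 p310_17))))))))),
   x7_6 (x7_5 (x7_4 (x3_2 (x3_1 (x3_0 (n5 (n2 (n1 (n0 p310_16))))))))),
   x7_6 (x7_5 (x7_4 (x3_2 (x3_1 (x3_0 (n5 (n2 (n1 (n0 p310_19))))))))),
   x7_6 (x7_5 (x7_4 (x3_2 (x3_1 (x3_0 (n5 (n2 (n1 (n0 p310_18)))))))))],
  [x6_7 (x6_5 (x6_4 (s5_7 (x2_3 (x2_1 (x2_0 (s1_3 (n4 (n3 (n1 (n0 p310_17))))))))))),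
   p310_25,
   p310_26,
   x6_7 (x6_5 (x6_4 (s5_7 (x2_3 (x2_1 (x2_0 (s1_3 (n3 (n1 (n0 p310_18)))))))))),
   x7_6 (x7_5 (x7_4 (x3_2 (x3_1 (x3_0 (n5 (n4 (n2 (n1 (n0 p310_26)))))))))),
   x7_6 (x7_5 (x7_4 (x6_7 (x6_5 (x6_4 (s5_7 (x3_2 (x3_1 (x3_0 (x2_3 (x2_1 (x2_0 (s1_3 (n7 (n4 (n3 (n2 (n0 p310_18)))))))))))))))))),
   x7_6 (x7_5 (x7_4 (x6_7 (x6_5 (x6_4 (s5_7 (x3_2 (x3_1 (x3_0 (x2_3 (x2_1 (x2_0 (s1_3 (n7 (n3 (n2 (n0 p310_17))))))))))))))))),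
   x7_6 (x7_5 (x7_4 (x3_2 (x3_1 (x3_0 (n5 (n4 (n2 (n1 (n0 p310_25))))))))))],
  [s5_6 (s1_2 p310_16),
   s5_6 (s1_2 p310_18),
   s5_6 (s1_2 p310_17),
   s5_6 (s1_2 p310_19),
   x7_6 (x7_5 (x7_4 (s5_6 (x3_2 (x3_1 (x3_0 (s1_2 (n5 (n2 (n1 (n0 p310_17))))))))))),
   s6_7 (x5_7 (x5_6 (x5_4 (s2_3 (x1_3 (x1_2 (x1_0 (n7 (n3 (n2 (n0 p310_19))))))))))),
   x7_6 (x7_5 (x7_4 (s5_6 (x3_2 (x3_1 (x3_0 (s1_2 (n5 (n2 (n1 (n0 p310_16))))))))))),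
   x7_6 (x7_5 (x7_4 (s5_6 (x3_2 (x3_1 (x3_0 (s1_2 (n5 (n2 (n1 (n0 p310_18)))))))))))],
  [x7_6 (x7_5 (x7_4 (s6_7 (x5_7 (x5_6 (x5_4 (x3_2 (x3_1 (x3_0 (s2_3 (x1_3 (x1_2 (x1_0 (n4 (n3 (n1 (n0 p310_17))))))))))))))))),
   s5_6 (s1_2 p310_26),
   s5_6 (s1_2 p310_25),
   x7_6 (x7_5 (x7_4 (s6_7 (x5_7 (x5_6 (x5_4 (x3_2 (x3_1 (x3_0 (s2_3 (x1_3 (x1_2 (x1_0 (n3 (n1 (n0 p310_18)))))))))))))))),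
   s6_7 (x5_7 (x5_6 (x5_4 (s2_3 (x1_3 (x1_2 (x1_0 (n7 (n4 (n3 (n2 (n0 p310_26)))))))))))),
   s6_7 (x5_7 (x5_6 (x5_4 (s2_3 (x1_3 (x1_2 (x1_0 (n7 (n3 (n2 (n0 p310_17))))))))))),
   s6_7 (x5_7 (x5_6 (x5_4 (s2_3 (x1_3 (x1_2 (x1_0 (n7 (n4 (n3 (n2 (n0 p310_18)))))))))))),
   s6_7 (x5_7 (x5_6 (x5_4 (s2_3 (x1_3 (x1_2 (x1_0 (n7 (n3 (n2 (n0 p310_25)))))))))))],
  [x6_7 (x6_5 (x6_4 (s5_7 (x2_3 (x2_1 (x2_0 (s1_3 (n5 (n4 (n3 (n1 (n0 p310_5)))))))))))),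
   s6_7 (x5_7 (x5_6 (x5_4 (s2_3 (x1_3 (x1_2 (x1_0 (n6 (n3 (n2 (n0 p310_13))))))))))),
   x7_6 (x7_5 (x7_4 (x6_7 (x6_5 (x6_4 (s5_7 (x3_2 (x3_1 (x3_0 (x2_3 (x2_1 (x2_0 (s1_3 (n6 (n3 (n2 (n0 p310_13))))))))))))))))),
   s6_7 (x5_7 (x5_6 (x5_4 (s2_3 (x1_3 (x1_2 (x1_0 (n6 (n3 (n2 (n0 p310_5))))))))))),
   p310_52,
   p310_53,
   s5_6 (s1_2 p310_53),
   x7_6 (x7_5 (x7_4 (x3_2 (x3_1 (x3_0 (n6 (n5 (n2 (n1 (n0 p310_52))))))))))],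
  [s6_7 (x5_7 (x5_6 (x5_4 (s2_3 (x1_3 (x1_2 (x1_0 (n6 (n4 (n3 (n2 (n0 p310_4)))))))))))),
   x6_7 (x6_5 (x6_4 (s5_7 (x2_3 (x2_1 (x2_0 (s1_3 (n5 (n4 (n3 (n1 (n0 p310_12)))))))))))),
   s6_7 (x5_7 (x5_6 (x5_4 (s2_3 (x1_3 (x1_2 (x1_0 (n6 (n4 (n3 (n2 (n0 p310_12)))))))))))),
   s6_7 (x5_7 (x5_6 (x5_4 (s2_3 (x1_3 (x1_2 (x1_0 (n6 (n3 (n2 (n0 p310_7))))))))))),
   p310_60,
   x6_7 (x6_5 (x6_4 (s5_7 (x2_3 (x2_1 (x2_0 (s1_3 (n7 (n5 (n4 (n3 (n1 (n0 p310_52))))))))))))),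
   s6_7 (x5_7 (x5_6 (x5_4 (s2_3 (x1_3 (x1_2 (x1_0 (n7 (n6 (n4 (n3 (n2 (n0 p310_52))))))))))))),
   p310_63]]

theorem k310 : eqNN c310 (slO 64 (D.chG 48 60) 8) = true := by decide +kernel

/-- The slices of the chunk 311. -/
noncomputable def c311 : List (List ℕ) := [
  [tr p293_63,
   p311_1,
   s5_6 (s1_2 p311_1),
   tr p295_63,
   p311_4,
   p311_5,
   s5_6 (s1_2 p311_5),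
   p311_7],
  [x6_7 (x6_5 (x6_4 (s5_7 (x2_3 (x2_1 (x2_0 (s1_3 (n4 (n3 (n1 p311_1)))))))))),
   p311_9,
   s5_6 (s1_2 p311_9),
   s6_7 (x5_7 (x5_6 (x5_4 (s2_3 (x1_3 (x1_2 (x1_0 (n3 (n2 p311_1))))))))),
   p311_12,
   p311_13,
   s5_6 (s1_2 p311_13),
   x7_6 (x7_5 (x7_4 (x3_2 (x3_1 (x3_0 (n4 (n2 (n1 (n0 p311_12)))))))))],
  [p311_16,
   p311_17,
   p311_18,
   p311_19,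
   x7_6 (x7_5 (x7_4 (x3_2 (x3_1 (x3_0 (n5 (n2 (n1 (n0 p311_17))))))))),
   x7_6 (x7_5 (x7_4 (x3_2 (x3_1 (x3_0 (n5 (n2 (n1 (n0 p311_16))))))))),
   x7_6 (x7_5 (x7_4 (x3_2 (x3_1 (x3_0 (n5 (n2 (n1 (n0 p311_19))))))))),
   x7_6 (x7_5 (x7_4 (x3_2 (x3_1 (x3_0 (n5 (n2 (n1 (n0 p311_18)))))))))],
  [x6_7 (x6_5 (x6_4 (s5_7 (x2_3 (x2_1 (x2_0 (s1_3 (n4 (n3 (n1 p311_17)))))))))),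
   p311_25,
   p311_26,
   x6_7 (x6_5 (x6_4 (s5_7 (x2_3 (x2_1 (x2_0 (s1_3 (n3 (n1 p311_18))))))))),
   x7_6 (x7_5 (x7_4 (x3_2 (x3_1 (x3_0 (n5 (n4 (n2 (n1 (n0 p311_26)))))))))),
   x7_6 (x7_5 (x7_4 (x6_7 (x6_5 (x6_4 (s5_7 (x3_2 (x3_1 (x3_0 (x2_3 (x2_1 (x2_0 (s1_3 (n7 (n4 (n3 (n2 p311_18))))))))))))))))),
   x7_6 (x7_5 (x7_4 (x6_7 (x6_5 (x6_4 (s5_7 (x3_2 (x3_1 (x3_0 (x2_3 (x2_1 (x2_0 (s1_3 (n7 (n3 (n2 p311_17)))))))))))))))),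
   x7_6 (x7_5 (x7_4 (x3_2 (x3_1 (x3_0 (n5 (n4 (n2 (n1 (n0 p311_25))))))))))],
  [s5_6 (s1_2 p311_16),
   s5_6 (s1_2 p311_18),
   s5_6 (s1_2 p311_17),
   s5_6 (s1_2 p311_19),
   x7_6 (x7_5 (x7_4 (s5_6 (x3_2 (x3_1 (x3_0 (s1_2 (n5 (n2 (n1 (n0 p311_17))))))))))),
   s6_7 (x5_7 (x5_6 (x5_4 (s2_3 (x1_3 (x1_2 (x1_0 (n7 (n3 (n2 p311_19)))))))))),
   s6_7 (x5_7 (x5_6 (x5_4 (s2_3 (x1_3 (x1_2 (x1_0 (n7 (n4 (n3 (n2 p311_16))))))))))),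
   x7_6 (x7_5 (x7_4 (s5_6 (x3_2 (x3_1 (x3_0 (s1_2 (n5 (n2 (n1 (n0 p311_18)))))))))))],
  [x7_6 (x7_5 (x7_4 (s6_7 (x5_7 (x5_6 (x5_4 (x3_2 (x3_1 (x3_0 (s2_3 (x1_3 (x1_2 (x1_0 (n4 (n3 (n1 p311_17)))))))))))))))),
   s5_6 (s1_2 p311_26),
   s5_6 (s1_2 p311_25),
   x7_6 (x7_5 (x7_4 (s6_7 (x5_7 (x5_6 (x5_4 (x3_2 (x3_1 (x3_0 (s2_3 (x1_3 (x1_2 (x1_0 (n3 (n1 p311_18))))))))))))))),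
   s6_7 (x5_7 (x5_6 (x5_4 (s2_3 (x1_3 (x1_2 (x1_0 (n7 (n4 (n3 (n2 p311_26))))))))))),
   s6_7 (x5_7 (x5_6 (x5_4 (s2_3 (x1_3 (x1_2 (x1_0 (n7 (n3 (n2 p311_17)))))))))),
   s6_7 (x5_7 (x5_6 (x5_4 (s2_3 (x1_3 (x1_2 (x1_0 (n7 (n4 (n3 (n2 p311_18))))))))))),
   s6_7 (x5_7 (x5_6 (x5_4 (s2_3 (x1_3 (x1_2 (x1_0 (n7 (n3 (n2 p311_25))))))))))],
  [x6_7 (x6_5 (x6_4 (s5_7 (x2_3 (x2_1 (x2_0 (s1_3 (n5 (n4 (n3 (n1 p311_5))))))))))),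
   s6_7 (x5_7 (x5_6 (x5_4 (s2_3 (x1_3 (x1_2 (x1_0 (n6 (n3 (n2 p311_13)))))))))),
   x7_6 (x7_5 (x7_4 (x6_7 (x6_5 (x6_4 (s5_7 (x3_2 (x3_1 (x3_0 (x2_3 (x2_1 (x2_0 (s1_3 (n6 (n3 (n2 p311_13)))))))))))))))),
   s6_7 (x5_7 (x5_6 (x5_4 (s2_3 (x1_3 (x1_2 (x1_0 (n6 (n3 (n2 p311_5)))))))))),
   p311_52,
   p311_53,
   s5_6 (s1_2 p311_53),
   x7_6 (x7_5 (x7_4 (x3_2 (x3_1 (x3_0 (n6 (n5 (n2 (n1 (n0 p311_52))))))))))],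
  [s6_7 (x5_7 (x5_6 (x5_4 (s2_3 (x1_3 (x1_2 (x1_0 (n6 (n4 (n3 (n2 p311_4))))))))))),
   x6_7 (x6_5 (x6_4 (s5_7 (x2_3 (x2_1 (x2_0 (s1_3 (n5 (n4 (n3 (n1 p311_12))))))))))),
   s6_7 (x5_7 (x5_6 (x5_4 (s2_3 (x1_3 (x1_2 (x1_0 (n6 (n4 (n3 (n2 p311_12))))))))))),
   s6_7 (x5_7 (x5_6 (x5_4 (s2_3 (x1_3 (x1_2 (x1_0 (n6 (n3 (n2 p311_7)))))))))),
   tr p310_63,
   x6_7 (x6_5 (x6_4 (s5_7 (x2_3 (x2_1 (x2_0 (s1_3 (n7 (n5 (n4 (n3 (n1 p311_52)))))))))))),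
   s6_7 (x5_7 (x5_6 (x5_4 (s2_3 (x1_3 (x1_2 (x1_0 (n7 (n6 (n4 (n3 (n2 p311_52)))))))))))),
   p311_63]]

theorem k311 : eqNN c311 (slO 64 (D.chG 48 63) 8) = true := by decide +kernel

end Pool.Agent.Lib.MP_afdd4d_co.K10.E6
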