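import Pool.Agent.Lib.MP_afdd4d_co.K10.E6.Dat
import Pool.Agent.Lib.MP_afdd4d_co.K10.E6.Mk
import Pool.Agent.Lib.MP_afdd4d_co.K8.F6Bl5
import Pool.Agent.Lib.MP_afdd4d_co.K10.E6.P0
import Pool.Agent.Lib.MP_afdd4d_co.K10.E6.P1
import Pool.Agent.Lib.MP_afdd4d_co.K10.E6.P2
import Pool.Agent.Lib.MP_afdd4d_co.K10.E6.P3
import Pool.Agent.Lib.MP_afdd4d_co.K10.E6.P4
import Pool.Agent.Lib.MP_afdd4d_co.K10.E6.P5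
import Pool.Agent.Lib.MP_afdd4d_co.K10.E6.P6
import Pool.Agent.Lib.MP_afdd4d_co.K10.E6.P7
import Pool.Agent.Lib.MP_afdd4d_co.K10.E6.P8
import Pool.Agent.Lib.MP_afdd4d_co.K10.E6.P9
import Pool.Agent.Lib.MP_afdd4d_co.K10.E6.P10
import Pool.Agent.Lib.MP_afdd4d_co.K10.E6.P11
import Pool.Agent.Lib.MP_afdd4d_co.K10.E6.P12
import Pool.Agent.Lib.MP_afdd4d_co.K10.E6.P13
import Pool.Agent.Lib.MP_afdd4d_co.K10.E6.P14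
import Pool.Agent.Lib.MP_afdd4d_co.K10.E6.P15
import Pool.Agent.Lib.MP_afdd4d_co.K10.E6.P16
import Pool.Agent.Lib.MP_afdd4d_co.K10.E6.P17
import Pool.Agent.Lib.MP_afdd4d_co.K10.E6.P18
import Pool.Agent.Lib.MP_afdd4d_co.K10.E6.P19
import Pool.Agent.Lib.MP_afdd4d_co.K10.E6.P20
import Pool.Agent.Lib.MP_afdd4d_co.K10.E6.P21
import Pool.Agent.Lib.MP_afdd4d_co.K10.E6.P22
import Pool.Agent.Lib.MP_afdd4d_co.K10.E6.P23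
import Pool.Agent.Lib.MP_afdd4d_co.K10.E6.P24
import Pool.Agent.Lib.MP_afdd4d_co.K10.E6.P25
import Pool.Agent.Lib.MP_afdd4d_co.K10.E6.P26
import Pool.Agent.Lib.MP_afdd4d_co.K10.E6.P27
import Pool.Agent.Lib.MP_afdd4d_co.K10.E6.P28
import Pool.Agent.Lib.MP_afdd4d_co.K10.E6.P29
import Pool.Agent.Lib.MP_afdd4d_co.K10.E6.P30
import Pool.Agent.Lib.MP_afdd4d_co.K10.E6.P31
import Pool.Agent.Lib.MP_afdd4d_co.K10.E6.P32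

/-!
# Tables
-/

namespace Pool.Agent.Lib.MP_afdd4d_co.K10.E6

open K8

set_option maxRecDepth 100000
set_option exponentiation.threshold 10000000

/-- The slices of the chunk 312. -/
noncomputable def c312 : List (List ℕ) := [
  [p312_0,
   p312_1,
   s5_6 (s1_2 p312_1),
   p312_3,
   p312_4,
   p312_5,
   s5_6 (s1_2 p312_5),
   p312_7],
  [p312_8,
   p312_9,
   s5_6 (s1_2 p312_9),
   x7_6 (x7_5 (x7_4 (x3_2 (x3_1 (x3_0 (n4 p312_8)))))),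
   p312_12,
   p312_13,
   s5_6 (s1_2 p312_13),
   x7_6 (x7_5 (x7_4 (x3_2 (x3_1 (x3_0 (n4 p312_12))))))],
  [p312_16,
   p312_17,
   p312_18,
   p312_19,
   x7_6 (x7_5 (x7_4 (x3_2 (x3_1 (x3_0 (n5 p312_17)))))),
   x7_6 (x7_5 (x7_4 (x3_2 (x3_1 (x3_0 (n5 p312_16)))))),
   x7_6 (x7_5 (x7_4 (x3_2 (x3_1 (x3_0 (n5 p312_19)))))),
   x7_6 (x7_5 (x7_4 (x3_2 (x3_1 (x3_0 (n5 p312_18))))))],
  [p312_24,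
   p312_25,
   p312_26,
   p312_27,
   x7_6 (x7_5 (x7_4 (x3_2 (x3_1 (x3_0 (n5 (n4 p312_26))))))),
   x7_6 (x7_5 (x7_4 (x3_2 (x3_1 (x3_0 (n5 (n4 p312_27))))))),
   x7_6 (x7_5 (x7_4 (x3_2 (x3_1 (x3_0 (n5 (n4 p312_24))))))),
   x7_6 (x7_5 (x7_4 (x3_2 (x3_1 (x3_0 (n5 (n4 p312_25)))))))],
  [s5_6 (s1_2 p312_16),
   s5_6 (s1_2 p312_18),
   s5_6 (s1_2 p312_17),
   s5_6 (s1_2 p312_19),
   x7_6 (x7_5 (x7_4 (s5_6 (x3_2 (x3_1 (x3_0 (s1_2 (n5 p312_17)))))))),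
   x7_6 (x7_5 (x7_4 (s5_6 (x3_2 (x3_1 (x3_0 (s1_2 (n5 p312_19)))))))),
   x7_6 (x7_5 (x7_4 (s5_6 (x3_2 (x3_1 (x3_0 (s1_2 (n5 p312_16)))))))),
   x7_6 (x7_5 (x7_4 (s5_6 (x3_2 (x3_1 (x3_0 (s1_2 (n5 p312_18))))))))],
  [s5_6 (s1_2 p312_24),
   s5_6 (s1_2 p312_26),
   s5_6 (s1_2 p312_25),
   s5_6 (s1_2 p312_27),
   x7_6 (x7_5 (x7_4 (s5_6 (x3_2 (x3_1 (x3_0 (s1_2 (n5 (n4 p312_26))))))))),
   x7_6 (x7_5 (x7_4 (s5_6 (x3_2 (x3_1 (x3_0 (s1_2 (n5 (n4 p312_24))))))))),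
   x7_6 (x7_5 (x7_4 (s5_6 (x3_2 (x3_1 (x3_0 (s1_2 (n5 (n4 p312_27))))))))),
   x7_6 (x7_5 (x7_4 (s5_6 (x3_2 (x3_1 (x3_0 (s1_2 (n5 (n4 p312_25)))))))))],
  [p312_48,
   p312_49,
   s5_6 (s1_2 p312_49),
   x7_6 (x7_5 (x7_4 (x3_2 (x3_1 (x3_0 (n6 (n5 p312_48))))))),
   p312_52,
   p312_53,
   s5_6 (s1_2 p312_53),
   x7_6 (x7_5 (x7_4 (x3_2 (x3_1 (x3_0 (n6 (n5 p312_52)))))))],
  [p312_56,
   p312_57,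
   s5_6 (s1_2 p312_57),
   p312_59,
   p312_60,
   p312_61,
   s5_6 (s1_2 p312_61),
   p312_63]]

theorem k312 : eqNN c312 (slO 64 (D.chG 49 0) 8) = true := by decide +kernel

/-- The slices of the chunk 313. -/
noncomputable def c313 : List (List ℕ) := [
  [tr p312_1,
   p313_1,
   p313_2,
   tr p314_1,
   tr p315_1,
   p313_5,
   p313_6,
   tr p317_1],
  [p313_8,
   p313_9,
   x7_6 (x7_5 (x7_4 (x3_2 (x3_1 (x3_0 (n4 p313_9)))))),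
   x7_6 (x7_5 (x7_4 (x3_2 (x3_1 (x3_0 (n4 p313_8)))))),
   p313_12,
   p313_13,
   x7_6 (x7_5 (x7_4 (x3_2 (x3_1 (x3_0 (n4 p313_13)))))),
   x7_6 (x7_5 (x7_4 (x3_2 (x3_1 (x3_0 (n4 p313_12))))))],
  [p313_16,
   p313_17,
   p313_18,
   p313_19,
   x7_6 (x7_5 (x7_4 (x3_2 (x3_1 (x3_0 (n5 p313_17)))))),
   x7_6 (x7_5 (x7_4 (x3_2 (x3_1 (x3_0 (n5 p313_16)))))),
   x7_6 (x7_5 (x7_4 (x3_2 (x3_1 (x3_0 (n5 p313_19)))))),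
   x7_6 (x7_5 (x7_4 (x3_2 (x3_1 (x3_0 (n5 p313_18))))))],
  [p313_24,
   p313_25,
   p313_26,
   p313_27,
   x7_6 (x7_5 (x7_4 (x3_2 (x3_1 (x3_0 (n5 (n4 p313_26))))))),
   x7_6 (x7_5 (x7_4 (x3_2 (x3_1 (x3_0 (n5 (n4 p313_27))))))),
   x7_6 (x7_5 (x7_4 (x3_2 (x3_1 (x3_0 (n5 (n4 p313_24))))))),
   x7_6 (x7_5 (x7_4 (x3_2 (x3_1 (x3_0 (n5 (n4 p313_25)))))))],
  [p313_32,
   p313_33,
   p313_34,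
   p313_35,
   x7_6 (x7_5 (x7_4 (x3_2 (x3_1 (x3_0 (n6 p313_34)))))),
   x7_6 (x7_5 (x7_4 (x3_2 (x3_1 (x3_0 (n6 p313_35)))))),
   x7_6 (x7_5 (x7_4 (x3_2 (x3_1 (x3_0 (n6 p313_32)))))),
   x7_6 (x7_5 (x7_4 (x3_2 (x3_1 (x3_0 (n6 p313_33))))))],
  [p313_40,
   p313_41,
   p313_42,
   p313_43,
   x7_6 (x7_5 (x7_4 (x3_2 (x3_1 (x3_0 (n6 (n4 p313_41))))))),
   x7_6 (x7_5 (x7_4 (x3_2 (x3_1 (x3_0 (n6 (n4 p313_40))))))),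
   x7_6 (x7_5 (x7_4 (x3_2 (x3_1 (x3_0 (n6 (n4 p313_43))))))),
   x7_6 (x7_5 (x7_4 (x3_2 (x3_1 (x3_0 (n6 (n4 p313_42)))))))],
  [p313_48,
   p313_49,
   x7_6 (x7_5 (x7_4 (x3_2 (x3_1 (x3_0 (n6 (n5 p313_49))))))),
   x7_6 (x7_5 (x7_4 (x3_2 (x3_1 (x3_0 (n6 (n5 p313_48))))))),
   p313_52,
   p313_53,
   x7_6 (x7_5 (x7_4 (x3_2 (x3_1 (x3_0 (n6 (n5 p313_53))))))),
   x7_6 (x7_5 (x7_4 (x3_2 (x3_1 (x3_0 (n6 (n5 p313_52)))))))],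
  [tr p334_1,
   p313_57,
   p313_58,
   tr p336_1,
   tr p337_1,
   p313_61,
   p313_62,
   tr p339_1]]

theorem k313 : eqNN c313 (slO 64 (D.chG 49 1) 8) = true := by decide +kernel

/-- The slices of the chunk 314. -/
noncomputable def c314 : List (List ℕ) := [
  [tr p312_3,
   p314_1,
   s5_6 (s1_2 p314_1),
   p314_3,
   p314_4,
   p314_5,
   s5_6 (s1_2 p314_5),
   p314_7],
  [p314_8,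
   p314_9,
   s5_6 (s1_2 p314_9),
   x7_6 (x7_5 (x7_4 (x3_2 (x3_1 (x3_0 (n4 p314_8)))))),
   p314_12,
   p314_13,
   s5_6 (s1_2 p314_13),
   x7_6 (x7_5 (x7_4 (x3_2 (x3_1 (x3_0 (n4 p314_12))))))],
  [p314_16,
   p314_17,
   p314_18,
   p314_19,
   x7_6 (x7_5 (x7_4 (x3_2 (x3_1 (x3_0 (n5 p314_17)))))),
   x7_6 (x7_5 (x7_4 (x3_2 (x3_1 (x3_0 (n5 p314_16)))))),
   x7_6 (x7_5 (x7_4 (x3_2 (x3_1 (x3_0 (n5 p314_19)))))),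
   x7_6 (x7_5 (x7_4 (x3_2 (x3_1 (x3_0 (n5 p314_18))))))],
  [p314_24,
   p314_25,
   p314_26,
   p314_27,
   x7_6 (x7_5 (x7_4 (x3_2 (x3_1 (x3_0 (n5 (n4 p314_26))))))),
   x7_6 (x7_5 (x7_4 (x3_2 (x3_1 (x3_0 (n5 (n4 p314_27))))))),
   x7_6 (x7_5 (x7_4 (x3_2 (x3_1 (x3_0 (n5 (n4 p314_24))))))),
   x7_6 (x7_5 (x7_4 (x3_2 (x3_1 (x3_0 (n5 (n4 p314_25)))))))],
  [s5_6 (s1_2 p314_16),
   s5_6 (s1_2 p314_18),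
   s5_6 (s1_2 p314_17),
   s5_6 (s1_2 p314_19),
   x7_6 (x7_5 (x7_4 (s5_6 (x3_2 (x3_1 (x3_0 (s1_2 (n5 p314_17)))))))),
   x7_6 (x7_5 (x7_4 (s5_6 (x3_2 (x3_1 (x3_0 (s1_2 (n5 p314_19)))))))),
   x7_6 (x7_5 (x7_4 (s5_6 (x3_2 (x3_1 (x3_0 (s1_2 (n5 p314_16)))))))),
   x7_6 (x7_5 (x7_4 (s5_6 (x3_2 (x3_1 (x3_0 (s1_2 (n5 p314_18))))))))],
  [s5_6 (s1_2 p314_24),
   s5_6 (s1_2 p314_26),
   s5_6 (s1_2 p314_25),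
   s5_6 (s1_2 p314_27),
   x7_6 (x7_5 (x7_4 (s5_6 (x3_2 (x3_1 (x3_0 (s1_2 (n5 (n4 p314_26))))))))),
   x7_6 (x7_5 (x7_4 (s5_6 (x3_2 (x3_1 (x3_0 (s1_2 (n5 (n4 p314_24))))))))),
   x7_6 (x7_5 (x7_4 (s5_6 (x3_2 (x3_1 (x3_0 (s1_2 (n5 (n4 p314_27))))))))),
   x7_6 (x7_5 (x7_4 (s5_6 (x3_2 (x3_1 (x3_0 (s1_2 (n5 (n4 p314_25)))))))))],
  [p314_48,
   p314_49,
   s5_6 (s1_2 p314_49),
   x7_6 (x7_5 (x7_4 (x3_2 (x3_1 (x3_0 (n6 (n5 p314_48))))))),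
   p314_52,
   p314_53,
   s5_6 (s1_2 p314_53),
   x7_6 (x7_5 (x7_4 (x3_2 (x3_1 (x3_0 (n6 (n5 p314_52)))))))],
  [p314_56,
   p314_57,
   s5_6 (s1_2 p314_57),
   p314_59,
   p314_60,
   p314_61,
   s5_6 (s1_2 p314_61),
   p314_63]]

theorem k314 : eqNN c314 (slO 64 (D.chG 49 3) 8) = true := by decide +kernel

/-- The slices of the chunk 315. -/
noncomputable def c315 : List (List ℕ) := [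
  [tr p312_4,
   p315_1,
   s5_6 (s1_2 p315_1),
   tr p314_4,
   p315_4,
   p315_5,
   s5_6 (s1_2 p315_5),
   p315_7],
  [p315_8,
   p315_9,
   s5_6 (s1_2 p315_9),
   x7_6 (x7_5 (x7_4 (x3_2 (x3_1 (x3_0 (n4 p315_8)))))),
   p315_12,
   p315_13,
   s5_6 (s1_2 p315_13),
   x7_6 (x7_5 (x7_4 (x3_2 (x3_1 (x3_0 (n4 p315_12))))))],
  [p315_16,
   p315_17,
   p315_18,
   p315_19,
   x7_6 (x7_5 (x7_4 (x3_2 (x3_1 (x3_0 (n5 p315_17)))))),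
   x7_6 (x7_5 (x7_4 (x3_2 (x3_1 (x3_0 (n5 p315_16)))))),
   x7_6 (x7_5 (x7_4 (x3_2 (x3_1 (x3_0 (n5 p315_19)))))),
   x7_6 (x7_5 (x7_4 (x3_2 (x3_1 (x3_0 (n5 p315_18))))))],
  [p315_24,
   p315_25,
   p315_26,
   p315_27,
   x7_6 (x7_5 (x7_4 (x3_2 (x3_1 (x3_0 (n5 (n4 p315_26))))))),
   x7_6 (x7_5 (x7_4 (x3_2 (x3_1 (x3_0 (n5 (n4 p315_27))))))),
   x7_6 (x7_5 (x7_4 (x3_2 (x3_1 (x3_0 (n5 (n4 p315_24))))))),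
   x7_6 (x7_5 (x7_4 (x3_2 (x3_1 (x3_0 (n5 (n4 p315_25)))))))],
  [s5_6 (s1_2 p315_16),
   s5_6 (s1_2 p315_18),
   s5_6 (s1_2 p315_17),
   s5_6 (s1_2 p315_19),
   x7_6 (x7_5 (x7_4 (s5_6 (x3_2 (x3_1 (x3_0 (s1_2 (n5 p315_17)))))))),
   x7_6 (x7_5 (x7_4 (s5_6 (x3_2 (x3_1 (x3_0 (s1_2 (n5 p315_19)))))))),
   x7_6 (x7_5 (x7_4 (s5_6 (x3_2 (x3_1 (x3_0 (s1_2 (n5 p315_16)))))))),
   x7_6 (x7_5 (x7_4 (s5_6 (x3_2 (x3_1 (x3_0 (s1_2 (n5 p315_18))))))))],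
  [s5_6 (s1_2 p315_24),
   s5_6 (s1_2 p315_26),
   s5_6 (s1_2 p315_25),
   s5_6 (s1_2 p315_27),
   x7_6 (x7_5 (x7_4 (s5_6 (x3_2 (x3_1 (x3_0 (s1_2 (n5 (n4 p315_26))))))))),
   x7_6 (x7_5 (x7_4 (s5_6 (x3_2 (x3_1 (x3_0 (s1_2 (n5 (n4 p315_24))))))))),
   x7_6 (x7_5 (x7_4 (s5_6 (x3_2 (x3_1 (x3_0 (s1_2 (n5 (n4 p315_27))))))))),
   x7_6 (x7_5 (x7_4 (s5_6 (x3_2 (x3_1 (x3_0 (s1_2 (n5 (n4 p315_25)))))))))],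
  [p315_48,
   p315_49,
   s5_6 (s1_2 p315_49),
   x7_6 (x7_5 (x7_4 (x3_2 (x3_1 (x3_0 (n6 (n5 p315_48))))))),
   p315_52,
   p315_53,
   s5_6 (s1_2 p315_53),
   x7_6 (x7_5 (x7_4 (x3_2 (x3_1 (x3_0 (n6 (n5 p315_52)))))))],
  [p315_56,
   p315_57,
   s5_6 (s1_2 p315_57),
   p315_59,
   p315_60,
   p315_61,
   s5_6 (s1_2 p315_61),
   p315_63]]

theorem k315 : eqNN c315 (slO 64 (D.chG 49 4) 8) = true := by decide +kernel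

end Pool.Agent.Lib.MP_afdd4d_co.K10.E6
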