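import Pool.Agent.Lib.MP_afdd4d_co.K10.E6.Dat
import Pool.Agent.Lib.MP_afdd4d_co.K10.E6.Mk
import Pool.Agent.Lib.MP_afdd4d_co.K8.F6Bl5
import Pool.Agent.Lib.MP_afdd4d_co.K10.E6.P0
import Pool.Agent.Lib.MP_afdd4d_co.K10.E6.P1
import Pool.Agent.Lib.MP_afdd4d_co.K10.E6.P2
import Pool.Agent.Lib.MP_afdd4d_co.K10.E6.P3
import Pool.Agent.Lib.MP_afdd4d_co.K10.E6.P4
import Pool.Agent.Lib.MP_afdd4d_co.K10.E6.P5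
import Pool.Agent.Lib.MP_afdd4d_co.K10.E6.P6
import Pool.Agent.Lib.MP_afdd4d_co.K10.E6.P7
import Pool.Agent.Lib.MP_afdd4d_co.K10.E6.P8
import Pool.Agent.Lib.MP_afdd4d_co.K10.E6.P9
import Pool.Agent.Lib.MP_afdd4d_co.K10.E6.P10
import Pool.Agent.Lib.MP_afdd4d_co.K10.E6.P11
import Pool.Agent.Lib.MP_afdd4d_co.K10.E6.P12
import Pool.Agent.Lib.MP_afdd4d_co.K10.E6.P13
import Pool.Agent.Lib.MP_afdd4d_co.K10.E6.P14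
import Pool.Agent.Lib.MP_afdd4d_co.K10.E6.P15
import Pool.Agent.Lib.MP_afdd4d_co.K10.E6.P16
import Pool.Agent.Lib.MP_afdd4d_co.K10.E6.P17
import Pool.Agent.Lib.MP_afdd4d_co.K10.E6.P18
import Pool.Agent.Lib.MP_afdd4d_co.K10.E6.P19
import Pool.Agent.Lib.MP_afdd4d_co.K10.E6.P20
import Pool.Agent.Lib.MP_afdd4d_co.K10.E6.P21
import Pool.Agent.Lib.MP_afdd4d_co.K10.E6.P22
import Pool.Agent.Lib.MP_afdd4d_co.K10.E6.P23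
import Pool.Agent.Lib.MP_afdd4d_co.K10.E6.P24
import Pool.Agent.Lib.MP_afdd4d_co.K10.E6.P25
import Pool.Agent.Lib.MP_afdd4d_co.K10.E6.P26
import Pool.Agent.Lib.MP_afdd4d_co.K10.E6.P27
import Pool.Agent.Lib.MP_afdd4d_co.K10.E6.P28
import Pool.Agent.Lib.MP_afdd4d_co.K10.E6.P29
import Pool.Agent.Lib.MP_afdd4d_co.K10.E6.P30
import Pool.Agent.Lib.MP_afdd4d_co.K10.E6.P31
import Pool.Agent.Lib.MP_afdd4d_co.K10.E6.P32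

/-!
# Tables
-/

namespace Pool.Agent.Lib.MP_afdd4d_co.K10.E6

open K8

set_option maxRecDepth 100000
set_option exponentiation.threshold 10000000

/-- The slices of the chunk 316. -/
noncomputable def c316 : List (List ℕ) := [
  [tr p312_5,
   tr p313_5,
   s3_7 (s2_5 (s1_6 (s0_4 p313_6))),
   tr p314_5,
   tr p315_5,
   p316_5,
   p316_6,
   tr p317_5],
  [p316_8,
   p316_9,
   x7_6 (x7_5 (x7_4 (x3_2 (x3_1 (x3_0 (n4 p316_9)))))),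
   x7_6 (x7_5 (x7_4 (x3_2 (x3_1 (x3_0 (n4 p316_8)))))),
   p316_12,
   p316_13,
   x7_6 (x7_5 (x7_4 (x3_2 (x3_1 (x3_0 (n4 p316_13)))))),
   x7_6 (x7_5 (x7_4 (x3_2 (x3_1 (x3_0 (n4 p316_12))))))],
  [p316_16,
   p316_17,
   p316_18,
   p316_19,
   x7_6 (x7_5 (x7_4 (x3_2 (x3_1 (x3_0 (n5 p316_17)))))),
   x7_6 (x7_5 (x7_4 (x3_2 (x3_1 (x3_0 (n5 p316_16)))))),
   x7_6 (x7_5 (x7_4 (x3_2 (x3_1 (x3_0 (n5 p316_19)))))),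
   x7_6 (x7_5 (x7_4 (x3_2 (x3_1 (x3_0 (n5 p316_18))))))],
  [p316_24,
   p316_25,
   p316_26,
   p316_27,
   x7_6 (x7_5 (x7_4 (x3_2 (x3_1 (x3_0 (n5 (n4 p316_26))))))),
   x7_6 (x7_5 (x7_4 (x3_2 (x3_1 (x3_0 (n5 (n4 p316_27))))))),
   x7_6 (x7_5 (x7_4 (x3_2 (x3_1 (x3_0 (n5 (n4 p316_24))))))),
   x7_6 (x7_5 (x7_4 (x3_2 (x3_1 (x3_0 (n5 (n4 p316_25)))))))],
  [p316_32,
   p316_33,
   p316_34,
   p316_35,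
   x7_6 (x7_5 (x7_4 (x3_2 (x3_1 (x3_0 (n6 p316_34)))))),
   x7_6 (x7_5 (x7_4 (x3_2 (x3_1 (x3_0 (n6 p316_35)))))),
   x7_6 (x7_5 (x7_4 (x3_2 (x3_1 (x3_0 (n6 p316_32)))))),
   x7_6 (x7_5 (x7_4 (x3_2 (x3_1 (x3_0 (n6 p316_33))))))],
  [p316_40,
   p316_41,
   p316_42,
   p316_43,
   x7_6 (x7_5 (x7_4 (x3_2 (x3_1 (x3_0 (n6 (n4 p316_41))))))),
   x7_6 (x7_5 (x7_4 (x3_2 (x3_1 (x3_0 (n6 (n4 p316_40))))))),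
   x7_6 (x7_5 (x7_4 (x3_2 (x3_1 (x3_0 (n6 (n4 p316_43))))))),
   x7_6 (x7_5 (x7_4 (x3_2 (x3_1 (x3_0 (n6 (n4 p316_42)))))))],
  [p316_48,
   p316_49,
   x7_6 (x7_5 (x7_4 (x3_2 (x3_1 (x3_0 (n6 (n5 p316_49))))))),
   x7_6 (x7_5 (x7_4 (x3_2 (x3_1 (x3_0 (n6 (n5 p316_48))))))),
   p316_52,
   p316_53,
   x7_6 (x7_5 (x7_4 (x3_2 (x3_1 (x3_0 (n6 (n5 p316_53))))))),
   x7_6 (x7_5 (x7_4 (x3_2 (x3_1 (x3_0 (n6 (n5 p316_52)))))))],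
  [tr p334_5,
   p316_57,
   p316_58,
   tr p336_5,
   tr p337_5,
   p316_61,
   p316_62,
   tr p339_5]]

theorem k316 : eqNN c316 (slO 64 (D.chG 49 5) 8) = true := by decide +kernel

/-- The slices of the chunk 317. -/
noncomputable def c317 : List (List ℕ) := [
  [tr p312_7,
   p317_1,
   s5_6 (s1_2 p317_1),
   tr p314_7,
   tr p315_7,
   p317_5,
   s5_6 (s1_2 p317_5),
   p317_7],
  [p317_8,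
   p317_9,
   s5_6 (s1_2 p317_9),
   x7_6 (x7_5 (x7_4 (x3_2 (x3_1 (x3_0 (n4 p317_8)))))),
   p317_12,
   p317_13,
   s5_6 (s1_2 p317_13),
   x7_6 (x7_5 (x7_4 (x3_2 (x3_1 (x3_0 (n4 p317_12))))))],
  [p317_16,
   p317_17,
   p317_18,
   p317_19,
   x7_6 (x7_5 (x7_4 (x3_2 (x3_1 (x3_0 (n5 p317_17)))))),
   x7_6 (x7_5 (x7_4 (x3_2 (x3_1 (x3_0 (n5 p317_16)))))),
   x7_6 (x7_5 (x7_4 (x3_2 (x3_1 (x3_0 (n5 p317_19)))))),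
   x7_6 (x7_5 (x7_4 (x3_2 (x3_1 (x3_0 (n5 p317_18))))))],
  [p317_24,
   p317_25,
   p317_26,
   p317_27,
   x7_6 (x7_5 (x7_4 (x3_2 (x3_1 (x3_0 (n5 (n4 p317_26))))))),
   x7_6 (x7_5 (x7_4 (x3_2 (x3_1 (x3_0 (n5 (n4 p317_27))))))),
   x7_6 (x7_5 (x7_4 (x3_2 (x3_1 (x3_0 (n5 (n4 p317_24))))))),
   x7_6 (x7_5 (x7_4 (x3_2 (x3_1 (x3_0 (n5 (n4 p317_25)))))))],
  [s5_6 (s1_2 p317_16),
   s5_6 (s1_2 p317_18),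
   s5_6 (s1_2 p317_17),
   s5_6 (s1_2 p317_19),
   x7_6 (x7_5 (x7_4 (s5_6 (x3_2 (x3_1 (x3_0 (s1_2 (n5 p317_17)))))))),
   x7_6 (x7_5 (x7_4 (s5_6 (x3_2 (x3_1 (x3_0 (s1_2 (n5 p317_19)))))))),
   x7_6 (x7_5 (x7_4 (s5_6 (x3_2 (x3_1 (x3_0 (s1_2 (n5 p317_16)))))))),
   x7_6 (x7_5 (x7_4 (s5_6 (x3_2 (x3_1 (x3_0 (s1_2 (n5 p317_18))))))))],
  [s5_6 (s1_2 p317_24),
   s5_6 (s1_2 p317_26),
   s5_6 (s1_2 p317_25),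
   s5_6 (s1_2 p317_27),
   x7_6 (x7_5 (x7_4 (s5_6 (x3_2 (x3_1 (x3_0 (s1_2 (n5 (n4 p317_26))))))))),
   x7_6 (x7_5 (x7_4 (s5_6 (x3_2 (x3_1 (x3_0 (s1_2 (n5 (n4 p317_24))))))))),
   x7_6 (x7_5 (x7_4 (s5_6 (x3_2 (x3_1 (x3_0 (s1_2 (n5 (n4 p317_27))))))))),
   x7_6 (x7_5 (x7_4 (s5_6 (x3_2 (x3_1 (x3_0 (s1_2 (n5 (n4 p317_25)))))))))],
  [p317_48,
   p317_49,
   s5_6 (s1_2 p317_49),
   x7_6 (x7_5 (x7_4 (x3_2 (x3_1 (x3_0 (n6 (n5 p317_48))))))),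
   p317_52,
   p317_53,
   s5_6 (s1_2 p317_53),
   x7_6 (x7_5 (x7_4 (x3_2 (x3_1 (x3_0 (n6 (n5 p317_52)))))))],
  [p317_56,
   p317_57,
   s5_6 (s1_2 p317_57),
   p317_59,
   p317_60,
   p317_61,
   s5_6 (s1_2 p317_61),
   p317_63]]

theorem k317 : eqNN c317 (slO 64 (D.chG 49 7) 8) = true := by decide +kernel

/-- The slices of the chunk 318. -/
noncomputable def c318 : List (List ℕ) := [
  [tr p312_8,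
   tr p313_8,
   s3_7 (s2_5 (s1_6 (s0_4 p313_8))),
   tr p314_8,
   tr p315_8,
   tr p316_8,
   s3_7 (s2_5 (s1_6 (s0_4 p316_8))),
   tr p317_8],
  [p318_8,
   p318_9,
   s5_6 (s1_2 p318_9),
   p318_11,
   p318_12,
   p318_13,
   s5_6 (s1_2 p318_13),
   p318_15],
  [p318_16,
   p318_17,
   p318_18,
   p318_19,
   p318_20,
   p318_21,
   p318_22,
   p318_23],
  [p318_24,
   p318_25,
   p318_26,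
   p318_27,
   p318_28,
   p318_29,
   p318_30,
   p318_31],
  [s5_6 (s1_2 p318_16),
   s5_6 (s1_2 p318_18),
   s5_6 (s1_2 p318_17),
   s5_6 (s1_2 p318_19),
   s5_6 (s1_2 p318_20),
   s5_6 (s1_2 p318_22),
   s5_6 (s1_2 p318_21),
   s5_6 (s1_2 p318_23)],
  [s5_6 (s1_2 p318_24),
   s5_6 (s1_2 p318_26),
   s5_6 (s1_2 p318_25),
   s5_6 (s1_2 p318_27),
   s5_6 (s1_2 p318_28),
   s5_6 (s1_2 p318_30),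
   s5_6 (s1_2 p318_29),
   s5_6 (s1_2 p318_31)],
  [p318_48,
   p318_49,
   s5_6 (s1_2 p318_49),
   p318_51,
   p318_52,
   p318_53,
   s5_6 (s1_2 p318_53),
   p318_55],
  [tr p334_8,
   tr p335_8,
   s3_7 (s2_5 (s1_6 (s0_4 p335_8))),
   tr p336_8,
   tr p337_8,
   tr p338_8,
   s3_7 (s2_5 (s1_6 (s0_4 p338_8))),
   tr p339_8]]

theorem k318 : eqNN c318 (slO 64 (D.chG 49 8) 8) = true := by decide +kernel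

/-- The slices of the chunk 319. -/
noncomputable def c319 : List (List ℕ) := [
  [tr p312_9,
   tr p313_9,
   x7_6 (x7_5 (x7_4 (x3_2 (x3_1 (x3_0 (s3_7 (s2_5 (s1_6 (s0_4 (n4 p313_9)))))))))),
   tr p314_9,
   tr p315_9,
   tr p316_9,
   x7_6 (x7_5 (x7_4 (x3_2 (x3_1 (x3_0 (s3_7 (s2_5 (s1_6 (s0_4 (n4 p316_9)))))))))),
   tr p317_9],
  [tr p318_9,
   p319_9,
   p319_10,
   x7_6 (x7_5 (x7_4 (x3_2 (x3_1 (x3_0 (s3_7 (s2_5 (s1_6 (s0_4 (n4 (n0 p318_9))))))))))),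
   p319_12,
   p319_13,
   p319_14,
   x7_6 (x7_5 (x7_4 (s5_6 (x3_2 (x3_1 (x3_0 (s1_2 (n4 (n0 p319_12)))))))))],
  [p319_16,
   p319_17,
   p319_18,
   p319_19,
   x7_6 (x7_5 (x7_4 (s5_6 (x3_2 (x3_1 (x3_0 (s1_2 (n6 (n0 p319_34))))))))),
   x7_6 (x7_5 (x7_4 (s5_6 (x3_2 (x3_1 (x3_0 (s1_2 (n6 (n0 p319_32))))))))),
   x7_6 (x7_5 (x7_4 (s5_6 (x3_2 (x3_1 (x3_0 (s1_2 (n6 (n0 p319_35))))))))),
   x7_6 (x7_5 (x7_4 (s5_6 (x3_2 (x3_1 (x3_0 (s1_2 (n6 (n0 p319_33)))))))))],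
  [p319_24,
   p319_25,
   p319_26,
   p319_27,
   x7_6 (x7_5 (x7_4 (s5_6 (x3_2 (x3_1 (x3_0 (s1_2 (n6 (n4 (n0 p319_41)))))))))),
   x7_6 (x7_5 (x7_4 (s5_6 (x3_2 (x3_1 (x3_0 (s1_2 (n6 (n4 (n0 p319_43)))))))))),
   x7_6 (x7_5 (x7_4 (s5_6 (x3_2 (x3_1 (x3_0 (s1_2 (n6 (n4 (n0 p319_40)))))))))),
   x7_6 (x7_5 (x7_4 (s5_6 (x3_2 (x3_1 (x3_0 (s1_2 (n6 (n4 (n0 p319_42))))))))))],
  [p319_32,
   p319_33,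
   p319_34,
   p319_35,
   x7_6 (x7_5 (x7_4 (s5_6 (x3_2 (x3_1 (x3_0 (s1_2 (n5 (n0 p319_17))))))))),
   x7_6 (x7_5 (x7_4 (s5_6 (x3_2 (x3_1 (x3_0 (s1_2 (n5 (n0 p319_19))))))))),
   x7_6 (x7_5 (x7_4 (s5_6 (x3_2 (x3_1 (x3_0 (s1_2 (n5 (n0 p319_16))))))))),
   x7_6 (x7_5 (x7_4 (s5_6 (x3_2 (x3_1 (x3_0 (s1_2 (n5 (n0 p319_18)))))))))],
  [p319_40,
   p319_41,
   p319_42,
   p319_43,
   x7_6 (x7_5 (x7_4 (s5_6 (x3_2 (x3_1 (x3_0 (s1_2 (n5 (n4 (n0 p319_26)))))))))),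
   x7_6 (x7_5 (x7_4 (s5_6 (x3_2 (x3_1 (x3_0 (s1_2 (n5 (n4 (n0 p319_24)))))))))),
   x7_6 (x7_5 (x7_4 (s5_6 (x3_2 (x3_1 (x3_0 (s1_2 (n5 (n4 (n0 p319_27)))))))))),
   x7_6 (x7_5 (x7_4 (s5_6 (x3_2 (x3_1 (x3_0 (s1_2 (n5 (n4 (n0 p319_25))))))))))],
  [p319_48,
   p319_49,
   p319_50,
   x7_6 (x7_5 (x7_4 (s5_6 (x3_2 (x3_1 (x3_0 (s1_2 (n6 (n5 (n0 p319_48)))))))))),
   p319_52,
   p319_53,
   p319_54,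
   x7_6 (x7_5 (x7_4 (s5_6 (x3_2 (x3_1 (x3_0 (s1_2 (n6 (n5 (n0 p319_52))))))))))],
  [tr p334_9,
   tr p335_9,
   x7_6 (x7_5 (x7_4 (x3_2 (x3_1 (x3_0 (s3_7 (s2_5 (s1_6 (s0_4 (n4 (n2 (n1 (n0 p335_9))))))))))))),
   tr p336_9,
   tr p337_9,
   tr p338_9,
   x7_6 (x7_5 (x7_4 (x3_2 (x3_1 (x3_0 (s3_7 (s2_5 (s1_6 (s0_4 (n4 (n2 (n1 (n0 p338_9))))))))))))),
   tr p339_9]]

theorem k319 : eqNN c319 (slO 64 (D.chG 49 9) 8) = true := by decide +kernel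

end Pool.Agent.Lib.MP_afdd4d_co.K10.E6
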