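import Pool.Agent.Lib.MP_afdd4d_co.K10.E6.Dat
import Pool.Agent.Lib.MP_afdd4d_co.K10.E6.Mk
import Pool.Agent.Lib.MP_afdd4d_co.K8.F6Bl5
import Pool.Agent.Lib.MP_afdd4d_co.K10.E6.P0
import Pool.Agent.Lib.MP_afdd4d_co.K10.E6.P1
import Pool.Agent.Lib.MP_afdd4d_co.K10.E6.P2
import Pool.Agent.Lib.MP_afdd4d_co.K10.E6.P3
import Pool.Agent.Lib.MP_afdd4d_co.K10.E6.P4
import Pool.Agent.Lib.MP_afdd4d_co.K10.E6.P5
import Pool.Agent.Lib.MP_afdd4d_co.K10.E6.P6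
import Pool.Agent.Lib.MP_afdd4d_co.K10.E6.P7
import Pool.Agent.Lib.MP_afdd4d_co.K10.E6.P8
import Pool.Agent.Lib.MP_afdd4d_co.K10.E6.P9
import Pool.Agent.Lib.MP_afdd4d_co.K10.E6.P10
import Pool.Agent.Lib.MP_afdd4d_co.K10.E6.P11
import Pool.Agent.Lib.MP_afdd4d_co.K10.E6.P12
import Pool.Agent.Lib.MP_afdd4d_co.K10.E6.P13
import Pool.Agent.Lib.MP_afdd4d_co.K10.E6.P14
import Pool.Agent.Lib.MP_afdd4d_co.K10.E6.P15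
import Pool.Agent.Lib.MP_afdd4d_co.K10.E6.P16
import Pool.Agent.Lib.MP_afdd4d_co.K10.E6.P17
import Pool.Agent.Lib.MP_afdd4d_co.K10.E6.P18
import Pool.Agent.Lib.MP_afdd4d_co.K10.E6.P19
import Pool.Agent.Lib.MP_afdd4d_co.K10.E6.P20
import Pool.Agent.Lib.MP_afdd4d_co.K10.E6.P21
import Pool.Agent.Lib.MP_afdd4d_co.K10.E6.P22
import Pool.Agent.Lib.MP_afdd4d_co.K10.E6.P23
import Pool.Agent.Lib.MP_afdd4d_co.K10.E6.P24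
import Pool.Agent.Lib.MP_afdd4d_co.K10.E6.P25
import Pool.Agent.Lib.MP_afdd4d_co.K10.E6.P26
import Pool.Agent.Lib.MP_afdd4d_co.K10.E6.P27
import Pool.Agent.Lib.MP_afdd4d_co.K10.E6.P28
import Pool.Agent.Lib.MP_afdd4d_co.K10.E6.P29
import Pool.Agent.Lib.MP_afdd4d_co.K10.E6.P30
import Pool.Agent.Lib.MP_afdd4d_co.K10.E6.P31
import Pool.Agent.Lib.MP_afdd4d_co.K10.E6.P32

/-!
# Tables
-/

namespace Pool.Agent.Lib.MP_afdd4d_co.K10.E6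

open K8

set_option maxRecDepth 100000
set_option exponentiation.threshold 10000000

/-- The slices of the chunk 32. -/
noncomputable def c32 : List (List ℕ) := [
  [tr p23_13,
   tr p24_13,
   tr p25_13,
   tr p26_13,
   s3_7 (s2_6 (s1_4 (s0_5 p25_19))),
   s3_7 (s2_6 (s1_4 (s0_5 p26_19))),
   tr p27_13,
   tr p28_13],
  [s3_6 (s2_7 (s1_5 (s0_4 p25_19))),
   s3_6 (s2_7 (s1_5 (s0_4 p26_19))),
   tr p29_13,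
   tr p30_13,
   tr p31_13,
   p32_13,
   p32_14,
   p32_15],
  [s3_6 (s2_7 (s1_4 (s0_5 p25_13))),
   s3_6 (s2_7 (s1_4 (s0_5 p26_13))),
   s3_6 (s2_7 (s1_5 (s0_4 p31_19))),
   p32_19,
   s3_6 (s2_7 (s1_4 (s0_5 p29_13))),
   s3_6 (s2_7 (s1_4 (s0_5 p30_13))),
   p32_22,
   p32_23],
  [s3_6 (s2_7 (s1_4 (s0_5 p27_13))),
   s3_6 (s2_7 (s1_4 (s0_5 p28_13))),
   s6_7 (s4_5 (s2_3 (s0_1 p32_22))),
   s6_7 (s4_5 (s2_3 (s0_1 p32_23))),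
   s6_7 (s4_5 (s2_3 (s0_1 p32_14))),
   s6_7 (s4_5 (s2_3 (s0_1 p32_15))),
   tr p35_13,
   tr p36_13],
  [tr p37_13,
   tr p38_13,
   p32_34,
   p32_35,
   p32_36,
   p32_37,
   tr p41_13,
   tr p42_13],
  [s6_7 (s4_5 (s2_3 (s0_1 p32_36))),
   s6_7 (s4_5 (s2_3 (s0_1 p32_37))),
   tr p43_13,
   tr p44_13,
   p32_44,
   p32_45,
   p32_46,
   p32_47],
  [s6_7 (s4_5 (s2_3 (s0_1 p32_34))),
   s6_7 (s4_5 (s2_3 (s0_1 p32_35))),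
   p32_50,
   p32_51,
   s3_6 (s2_7 (s1_4 (s0_5 p43_13))),
   s3_6 (s2_7 (s1_4 (s0_5 p44_13))),
   p32_54,
   p32_55],
  [s3_6 (s2_7 (s1_4 (s0_5 p41_13))),
   s3_6 (s2_7 (s1_4 (s0_5 p42_13))),
   s6_7 (s4_5 (s2_3 (s0_1 p32_54))),
   s6_7 (s4_5 (s2_3 (s0_1 p32_55))),
   s6_7 (s4_5 (s2_3 (s0_1 p32_46))),
   s6_7 (s4_5 (s2_3 (s0_1 p32_47))),
   tr p49_13,
   tr p50_13]]

theorem k32 : eqNN c32 (slO 64 (D.chG 3 13) 8) = true := by decide +kernel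

/-- The slices of the chunk 33. -/
noncomputable def c33 : List (List ℕ) := [
  [tr p23_14,
   tr p24_14,
   tr p25_14,
   tr p26_14,
   s3_7 (s2_6 (s1_4 (s0_5 p25_22))),
   s3_7 (s2_6 (s1_4 (s0_5 p26_22))),
   tr p27_14,
   tr p28_14],
  [s3_6 (s2_7 (s1_5 (s0_4 p25_26))),
   s3_6 (s2_7 (s1_5 (s0_4 p26_26))),
   tr p29_14,
   tr p30_14,
   tr p31_14,
   tr p32_14,
   p33_14,
   p33_15],
  [s3_6 (s2_7 (s1_4 (s0_5 p25_28))),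
   s3_6 (s2_7 (s1_4 (s0_5 p26_28))),
   s3_7 (s2_6 (s1_4 (s0_5 p31_22))),
   s3_7 (s2_6 (s1_4 (s0_5 p32_22))),
   s3_7 (s2_6 (s1_4 (s0_5 p29_22))),
   s3_7 (s2_6 (s1_4 (s0_5 p30_22))),
   p33_22,
   p33_23],
  [s3_6 (s2_7 (s1_5 (s0_4 p27_26))),
   s3_6 (s2_7 (s1_5 (s0_4 p28_26))),
   p33_26,
   p33_27,
   p33_28,
   p33_29,
   tr p35_14,
   tr p36_14],
  [tr p37_14,
   tr p38_14,
   p33_34,
   p33_35,
   p33_36,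
   p33_37,
   tr p41_14,
   tr p42_14],
  [p33_40,
   p33_41,
   tr p43_14,
   tr p44_14,
   p33_44,
   p33_45,
   p33_46,
   p33_47],
  [p33_48,
   p33_49,
   p33_50,
   p33_51,
   s3_7 (s2_6 (s1_4 (s0_5 p43_22))),
   s3_7 (s2_6 (s1_4 (s0_5 p44_22))),
   p33_54,
   p33_55],
  [s3_6 (s2_7 (s1_5 (s0_4 p41_26))),
   s3_6 (s2_7 (s1_5 (s0_4 p42_26))),
   p33_58,
   p33_59,
   p33_60,
   p33_61,
   tr p49_14,
   tr p50_14]]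

theorem k33 : eqNN c33 (slO 64 (D.chG 3 14) 8) = true := by decide +kernel

/-- The slices of the chunk 34. -/
noncomputable def c34 : List (List ℕ) := [
  [tr p23_15,
   tr p24_15,
   tr p25_15,
   tr p26_15,
   s3_7 (s2_6 (s1_4 (s0_5 p25_23))),
   s3_7 (s2_6 (s1_4 (s0_5 p26_23))),
   tr p27_15,
   tr p28_15],
  [s3_6 (s2_7 (s1_5 (s0_4 p25_27))),
   s3_6 (s2_7 (s1_5 (s0_4 p26_27))),
   tr p29_15,
   tr p30_15,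
   tr p31_15,
   tr p32_15,
   tr p33_15,
   p34_15],
  [s3_6 (s2_7 (s1_4 (s0_5 p25_29))),
   s3_6 (s2_7 (s1_4 (s0_5 p26_29))),
   s3_7 (s2_6 (s1_4 (s0_5 p31_23))),
   s3_7 (s2_6 (s1_4 (s0_5 p32_23))),
   s3_7 (s2_6 (s1_4 (s0_5 p29_23))),
   s3_7 (s2_6 (s1_4 (s0_5 p30_23))),
   s3_7 (s2_6 (s1_4 (s0_5 p33_23))),
   p34_23],
  [s3_6 (s2_7 (s1_5 (s0_4 p27_27))),
   s3_6 (s2_7 (s1_5 (s0_4 p28_27))),
   s3_6 (s2_7 (s1_5 (s0_4 p33_27))),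
   p34_27,
   s3_6 (s2_7 (s1_4 (s0_5 p33_29))),
   p34_29,
   tr p35_15,
   tr p36_15],
  [tr p37_15,
   tr p38_15,
   p34_34,
   p34_35,
   p34_36,
   p34_37,
   tr p41_15,
   tr p42_15],
  [p34_40,
   p34_41,
   tr p43_15,
   tr p44_15,
   p34_44,
   p34_45,
   p34_46,
   p34_47],
  [p34_48,
   p34_49,
   p34_50,
   p34_51,
   s3_7 (s2_6 (s1_4 (s0_5 p43_23))),
   s3_7 (s2_6 (s1_4 (s0_5 p44_23))),
   p34_54,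
   p34_55],
  [s3_6 (s2_7 (s1_5 (s0_4 p41_27))),
   s3_6 (s2_7 (s1_5 (s0_4 p42_27))),
   p34_58,
   p34_59,
   p34_60,
   p34_61,
   tr p49_15,
   tr p50_15]]

theorem k34 : eqNN c34 (slO 64 (D.chG 3 15) 8) = true := by decide +kernel

/-- The slices of the chunk 35. -/
noncomputable def c35 : List (List ℕ) := [
  [tr p23_30,
   tr p24_30,
   p35_2,
   p35_3,
   s4_5 (s0_1 p35_2),
   s4_5 (s0_1 p35_3),
   p35_6,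
   p35_7],
  [s6_7 (s2_3 p35_2),
   s6_7 (s2_3 p35_3),
   p35_10,
   p35_11,
   p35_12,
   p35_13,
   p35_14,
   p35_15],
  [s6_7 (s4_5 (s2_3 (s0_1 p35_2))),
   s6_7 (s4_5 (s2_3 (s0_1 p35_3))),
   s6_7 (s2_3 p35_12),
   s6_7 (s2_3 p35_13),
   s4_5 (s0_1 p35_10),
   s4_5 (s0_1 p35_11),
   s4_5 (s0_1 p35_14),
   s4_5 (s0_1 p35_15)],
  [s6_7 (s2_3 p35_6),
   s6_7 (s2_3 p35_7),
   s6_7 (s2_3 p35_14),
   s6_7 (s2_3 p35_15),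
   s6_7 (s4_5 (s2_3 (s0_1 p35_14))),
   s6_7 (s4_5 (s2_3 (s0_1 p35_15))),
   p35_30,
   p35_31],
  [p35_32,
   p35_33,
   p35_34,
   p35_35,
   s4_5 (s0_1 p35_34),
   s4_5 (s0_1 p35_35),
   p35_38,
   p35_39],
  [s6_7 (s2_3 p35_34),
   s6_7 (s2_3 p35_35),
   p35_42,
   p35_43,
   p35_44,
   p35_45,
   p35_46,
   p35_47],
  [s6_7 (s4_5 (s2_3 (s0_1 p35_34))),
   s6_7 (s4_5 (s2_3 (s0_1 p35_35))),
   s6_7 (s2_3 p35_44),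
   s6_7 (s2_3 p35_45),
   s4_5 (s0_1 p35_42),
   s4_5 (s0_1 p35_43),
   s4_5 (s0_1 p35_46),
   s4_5 (s0_1 p35_47)],
  [s6_7 (s2_3 p35_38),
   s6_7 (s2_3 p35_39),
   s6_7 (s2_3 p35_46),
   s6_7 (s2_3 p35_47),
   s6_7 (s4_5 (s2_3 (s0_1 p35_46))),
   s6_7 (s4_5 (s2_3 (s0_1 p35_47))),
   p35_62,
   p35_63]]

theorem k35 : eqNN c35 (slO 64 (D.chG 3 30) 8) = true := by decide +kernel

end Pool.Agent.Lib.MP_afdd4d_co.K10.E6
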