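import Pool.Agent.Lib.MP_afdd4d_co.K10.E6.Dat
import Pool.Agent.Lib.MP_afdd4d_co.K10.E6.Mk
import Pool.Agent.Lib.MP_afdd4d_co.K8.F6Bl5
import Pool.Agent.Lib.MP_afdd4d_co.K10.E6.P0
import Pool.Agent.Lib.MP_afdd4d_co.K10.E6.P1
import Pool.Agent.Lib.MP_afdd4d_co.K10.E6.P2
import Pool.Agent.Lib.MP_afdd4d_co.K10.E6.P3
import Pool.Agent.Lib.MP_afdd4d_co.K10.E6.P4
import Pool.Agent.Lib.MP_afdd4d_co.K10.E6.P5
import Pool.Agent.Lib.MP_afdd4d_co.K10.E6.P6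
import Pool.Agent.Lib.MP_afdd4d_co.K10.E6.P7
import Pool.Agent.Lib.MP_afdd4d_co.K10.E6.P8
import Pool.Agent.Lib.MP_afdd4d_co.K10.E6.P9
import Pool.Agent.Lib.MP_afdd4d_co.K10.E6.P10
import Pool.Agent.Lib.MP_afdd4d_co.K10.E6.P11
import Pool.Agent.Lib.MP_afdd4d_co.K10.E6.P12
import Pool.Agent.Lib.MP_afdd4d_co.K10.E6.P13
import Pool.Agent.Lib.MP_afdd4d_co.K10.E6.P14
import Pool.Agent.Lib.MP_afdd4d_co.K10.E6.P15
import Pool.Agent.Lib.MP_afdd4d_co.K10.E6.P16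
import Pool.Agent.Lib.MP_afdd4d_co.K10.E6.P17
import Pool.Agent.Lib.MP_afdd4d_co.K10.E6.P18
import Pool.Agent.Lib.MP_afdd4d_co.K10.E6.P19
import Pool.Agent.Lib.MP_afdd4d_co.K10.E6.P20
import Pool.Agent.Lib.MP_afdd4d_co.K10.E6.P21
import Pool.Agent.Lib.MP_afdd4d_co.K10.E6.P22
import Pool.Agent.Lib.MP_afdd4d_co.K10.E6.P23
import Pool.Agent.Lib.MP_afdd4d_co.K10.E6.P24
import Pool.Agent.Lib.MP_afdd4d_co.K10.E6.P25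
import Pool.Agent.Lib.MP_afdd4d_co.K10.E6.P26
import Pool.Agent.Lib.MP_afdd4d_co.K10.E6.P27
import Pool.Agent.Lib.MP_afdd4d_co.K10.E6.P28
import Pool.Agent.Lib.MP_afdd4d_co.K10.E6.P29
import Pool.Agent.Lib.MP_afdd4d_co.K10.E6.P30
import Pool.Agent.Lib.MP_afdd4d_co.K10.E6.P31
import Pool.Agent.Lib.MP_afdd4d_co.K10.E6.P32

/-!
# Tables
-/

namespace Pool.Agent.Lib.MP_afdd4d_co.K10.E6

open K8

set_option maxRecDepth 100000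
set_option exponentiation.threshold 10000000

/-- The slices of the chunk 320. -/
noncomputable def c320 : List (List ℕ) := [
  [tr p312_12,
   tr p313_12,
   s3_7 (s2_5 (s1_6 (s0_4 p313_12))),
   tr p314_12,
   tr p315_12,
   tr p316_12,
   s3_7 (s2_5 (s1_6 (s0_4 p316_12))),
   tr p317_12],
  [tr p318_12,
   tr p319_12,
   s3_7 (s2_5 (s1_6 (s0_4 p319_12))),
   x7_6 (x7_5 (x7_4 (x3_2 (x3_1 (x3_0 (tr (n4 (n0 p318_15)))))))),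
   p320_12,
   p320_13,
   s5_6 (s1_2 p320_13),
   p320_15],
  [p320_16,
   p320_17,
   p320_18,
   p320_19,
   p320_20,
   p320_21,
   p320_22,
   p320_23],
  [p320_24,
   p320_25,
   p320_26,
   p320_27,
   p320_28,
   p320_29,
   p320_30,
   p320_31],
  [s5_6 (s1_2 p320_16),
   s5_6 (s1_2 p320_18),
   s5_6 (s1_2 p320_17),
   s5_6 (s1_2 p320_19),
   s5_6 (s1_2 p320_20),
   s5_6 (s1_2 p320_22),
   s5_6 (s1_2 p320_21),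
   s5_6 (s1_2 p320_23)],
  [s5_6 (s1_2 p320_24),
   s5_6 (s1_2 p320_26),
   s5_6 (s1_2 p320_25),
   s5_6 (s1_2 p320_27),
   s5_6 (s1_2 p320_28),
   s5_6 (s1_2 p320_30),
   s5_6 (s1_2 p320_29),
   s5_6 (s1_2 p320_31)],
  [p320_48,
   p320_49,
   s5_6 (s1_2 p320_49),
   p320_51,
   p320_52,
   p320_53,
   s5_6 (s1_2 p320_53),
   p320_55],
  [tr p334_12,
   tr p335_12,
   s3_7 (s2_5 (s1_6 (s0_4 p335_12))),
   tr p336_12,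
   tr p337_12,
   tr p338_12,
   s3_7 (s2_5 (s1_6 (s0_4 p338_12))),
   tr p339_12]]

theorem k320 : eqNN c320 (slO 64 (D.chG 49 12) 8) = true := by decide +kernel

/-- The slices of the chunk 321. -/
noncomputable def c321 : List (List ℕ) := [
  [tr p312_13,
   tr p313_13,
   x7_6 (x7_5 (x7_4 (x3_2 (x3_1 (x3_0 (s3_7 (s2_5 (s1_6 (s0_4 (n4 p313_13)))))))))),
   tr p314_13,
   tr p315_13,
   tr p316_13,
   x7_6 (x7_5 (x7_4 (x3_2 (x3_1 (x3_0 (s3_7 (s2_5 (s1_6 (s0_4 (n4 p316_13)))))))))),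
   tr p317_13],
  [tr p318_13,
   tr p319_13,
   s3_7 (s2_5 (s1_6 (s0_4 p319_14))),
   x7_6 (x7_5 (x7_4 (x3_2 (x3_1 (x3_0 (s3_7 (s2_5 (s1_6 (s0_4 (n4 (n0 p318_13))))))))))),
   tr p320_13,
   p321_13,
   p321_14,
   x7_6 (x7_5 (x7_4 (x3_2 (x3_1 (x3_0 (s3_7 (s2_5 (s1_6 (s0_4 (n4 (n0 p320_13)))))))))))],
  [p321_16,
   p321_17,
   p321_18,
   p321_19,
   x7_6 (x7_5 (x7_4 (s5_6 (x3_2 (x3_1 (x3_0 (s1_2 (n6 (n0 p321_34))))))))),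
   x7_6 (x7_5 (x7_4 (s5_6 (x3_2 (x3_1 (x3_0 (s1_2 (n6 (n0 p321_32))))))))),
   x7_6 (x7_5 (x7_4 (s5_6 (x3_2 (x3_1 (x3_0 (s1_2 (n6 (n0 p321_35))))))))),
   x7_6 (x7_5 (x7_4 (s5_6 (x3_2 (x3_1 (x3_0 (s1_2 (n6 (n0 p321_33)))))))))],
  [p321_24,
   p321_25,
   p321_26,
   p321_27,
   x7_6 (x7_5 (x7_4 (s5_6 (x3_2 (x3_1 (x3_0 (s1_2 (n6 (n4 (n0 p321_41)))))))))),
   x7_6 (x7_5 (x7_4 (s5_6 (x3_2 (x3_1 (x3_0 (s1_2 (n6 (n4 (n0 p321_43)))))))))),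
   x7_6 (x7_5 (x7_4 (s5_6 (x3_2 (x3_1 (x3_0 (s1_2 (n6 (n4 (n0 p321_40)))))))))),
   x7_6 (x7_5 (x7_4 (s5_6 (x3_2 (x3_1 (x3_0 (s1_2 (n6 (n4 (n0 p321_42))))))))))],
  [p321_32,
   p321_33,
   p321_34,
   p321_35,
   x7_6 (x7_5 (x7_4 (s5_6 (x3_2 (x3_1 (x3_0 (s1_2 (n5 (n0 p321_17))))))))),
   x7_6 (x7_5 (x7_4 (s5_6 (x3_2 (x3_1 (x3_0 (s1_2 (n5 (n0 p321_19))))))))),
   x7_6 (x7_5 (x7_4 (s5_6 (x3_2 (x3_1 (x3_0 (s1_2 (n5 (n0 p321_16))))))))),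
   x7_6 (x7_5 (x7_4 (s5_6 (x3_2 (x3_1 (x3_0 (s1_2 (n5 (n0 p321_18)))))))))],
  [p321_40,
   p321_41,
   p321_42,
   p321_43,
   x7_6 (x7_5 (x7_4 (s5_6 (x3_2 (x3_1 (x3_0 (s1_2 (n5 (n4 (n0 p321_26)))))))))),
   x7_6 (x7_5 (x7_4 (s5_6 (x3_2 (x3_1 (x3_0 (s1_2 (n5 (n4 (n0 p321_24)))))))))),
   x7_6 (x7_5 (x7_4 (s5_6 (x3_2 (x3_1 (x3_0 (s1_2 (n5 (n4 (n0 p321_27)))))))))),
   x7_6 (x7_5 (x7_4 (s5_6 (x3_2 (x3_1 (x3_0 (s1_2 (n5 (n4 (n0 p321_25))))))))))],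
  [p321_48,
   p321_49,
   p321_50,
   x7_6 (x7_5 (x7_4 (s5_6 (x3_2 (x3_1 (x3_0 (s1_2 (n6 (n5 (n0 p321_48)))))))))),
   p321_52,
   p321_53,
   p321_54,
   x7_6 (x7_5 (x7_4 (s5_6 (x3_2 (x3_1 (x3_0 (s1_2 (n6 (n5 (n0 p321_52))))))))))],
  [tr p334_13,
   tr p335_13,
   x7_6 (x7_5 (x7_4 (x3_2 (x3_1 (x3_0 (s3_7 (s2_5 (s1_6 (s0_4 (n4 (n2 (n1 (n0 p335_13))))))))))))),
   tr p336_13,
   tr p337_13,
   tr p338_13,
   x7_6 (x7_5 (x7_4 (x3_2 (x3_1 (x3_0 (s3_7 (s2_5 (s1_6 (s0_4 (n4 (n2 (n1 (n0 p338_13))))))))))))),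
   tr p339_13]]

theorem k321 : eqNN c321 (slO 64 (D.chG 49 13) 8) = true := by decide +kernel

/-- The slices of the chunk 322. -/
noncomputable def c322 : List (List ℕ) := [
  [tr p312_16,
   tr p313_16,
   s3_7 (s2_5 (s1_6 (s0_4 p313_32))),
   tr p314_16,
   tr p315_16,
   tr p316_16,
   s3_7 (s2_5 (s1_6 (s0_4 p316_32))),
   tr p317_16],
  [tr p318_16,
   tr p319_16,
   s3_7 (s2_5 (s1_6 (s0_4 p319_32))),
   x7_6 (x7_5 (x7_4 (x3_2 (x3_1 (x3_0 (tr (n5 (n0 p318_21)))))))),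
   tr p320_16,
   tr p321_16,
   s3_7 (s2_5 (s1_6 (s0_4 p321_32))),
   x7_6 (x7_5 (x7_4 (x3_2 (x3_1 (x3_0 (tr (n5 (n0 p320_21))))))))],
  [p322_16,
   p322_17,
   p322_18,
   p322_19,
   p322_20,
   p322_21,
   p322_22,
   p322_23],
  [p322_24,
   p322_25,
   p322_26,
   p322_27,
   p322_28,
   p322_29,
   p322_30,
   p322_31],
  [p322_32,
   p322_33,
   p322_34,
   p322_35,
   p322_36,
   p322_37,
   p322_38,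
   p322_39],
  [p322_40,
   p322_41,
   p322_42,
   p322_43,
   p322_44,
   p322_45,
   p322_46,
   p322_47],
  [tr p330_16,
   tr p331_16,
   s3_7 (s2_5 (s1_6 (s0_4 p331_32))),
   x7_6 (x7_5 (x7_4 (x3_2 (x3_1 (x3_0 (tr (n5 (n2 (n1 p330_21))))))))),
   tr p332_16,
   tr p333_16,
   s3_7 (s2_5 (s1_6 (s0_4 p333_32))),
   x7_6 (x7_5 (x7_4 (x3_2 (x3_1 (x3_0 (tr (n5 (n2 (n1 p332_21)))))))))],
  [tr p334_16,
   tr p335_16,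
   s3_7 (s2_5 (s1_6 (s0_4 p335_32))),
   tr p336_16,
   tr p337_16,
   tr p338_16,
   s3_7 (s2_5 (s1_6 (s0_4 p338_32))),
   tr p339_16]]

theorem k322 : eqNN c322 (slO 64 (D.chG 49 16) 8) = true := by decide +kernel

/-- The slices of the chunk 323. -/
noncomputable def c323 : List (List ℕ) := [
  [tr p312_17,
   tr p313_17,
   s3_7 (s2_5 (s1_6 (s0_4 p313_34))),
   tr p314_17,
   tr p315_17,
   tr p316_17,
   s3_7 (s2_5 (s1_6 (s0_4 p316_34))),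
   tr p317_17],
  [tr p318_17,
   tr p319_17,
   s3_7 (s2_5 (s1_6 (s0_4 p319_34))),
   x7_6 (x7_5 (x7_4 (x3_2 (x3_1 (x3_0 (tr (n5 (n0 p318_20)))))))),
   tr p320_17,
   tr p321_17,
   s3_7 (s2_5 (s1_6 (s0_4 p321_34))),
   x7_6 (x7_5 (x7_4 (x3_2 (x3_1 (x3_0 (tr (n5 (n0 p320_20))))))))],
  [tr p322_17,
   p323_17,
   p323_18,
   p323_19,
   p323_20,
   x7_6 (x7_5 (x7_4 (x3_2 (x3_1 (x3_0 (tr (n5 (n1 p322_20)))))))),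
   p323_22,
   p323_23],
  [p323_24,
   p323_25,
   p323_26,
   p323_27,
   p323_28,
   p323_29,
   p323_30,
   p323_31],
  [s3_7 (s2_5 (s1_6 (s0_4 p322_34))),
   p323_33,
   p323_34,
   p323_35,
   p323_36,
   p323_37,
   x7_6 (x7_5 (x7_4 (x3_2 (x3_1 (x3_0 (s3_7 (s2_5 (s1_6 (s0_4 (n6 (n1 p322_36))))))))))),
   p323_39],
  [p323_40,
   p323_41,
   p323_42,
   p323_43,
   p323_44,
   p323_45,
   p323_46,
   p323_47],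
  [tr p330_17,
   tr p331_17,
   s3_7 (s2_5 (s1_6 (s0_4 p331_34))),
   x7_6 (x7_5 (x7_4 (x3_2 (x3_1 (x3_0 (tr (n5 (n2 (n1 p330_20))))))))),
   tr p332_17,
   tr p333_17,
   s3_7 (s2_5 (s1_6 (s0_4 p333_34))),
   x7_6 (x7_5 (x7_4 (x3_2 (x3_1 (x3_0 (tr (n5 (n2 (n1 p332_20)))))))))],
  [tr p334_17,
   tr p335_17,
   s3_7 (s2_5 (s1_6 (s0_4 p335_34))),
   tr p336_17,
   tr p337_17,
   tr p338_17,
   s3_7 (s2_5 (s1_6 (s0_4 p338_34))),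
   tr p339_17]]

theorem k323 : eqNN c323 (slO 64 (D.chG 49 17) 8) = true := by decide +kernel

end Pool.Agent.Lib.MP_afdd4d_co.K10.E6
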