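import Pool.Agent.Lib.MP_afdd4d_co.K10.E6.Dat
import Pool.Agent.Lib.MP_afdd4d_co.K10.E6.Mk
import Pool.Agent.Lib.MP_afdd4d_co.K8.F6Bl5
import Pool.Agent.Lib.MP_afdd4d_co.K10.E6.P0
import Pool.Agent.Lib.MP_afdd4d_co.K10.E6.P1
import Pool.Agent.Lib.MP_afdd4d_co.K10.E6.P2
import Pool.Agent.Lib.MP_afdd4d_co.K10.E6.P3
import Pool.Agent.Lib.MP_afdd4d_co.K10.E6.P4
import Pool.Agent.Lib.MP_afdd4d_co.K10.E6.P5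
import Pool.Agent.Lib.MP_afdd4d_co.K10.E6.P6
import Pool.Agent.Lib.MP_afdd4d_co.K10.E6.P7
import Pool.Agent.Lib.MP_afdd4d_co.K10.E6.P8
import Pool.Agent.Lib.MP_afdd4d_co.K10.E6.P9
import Pool.Agent.Lib.MP_afdd4d_co.K10.E6.P10
import Pool.Agent.Lib.MP_afdd4d_co.K10.E6.P11
import Pool.Agent.Lib.MP_afdd4d_co.K10.E6.P12
import Pool.Agent.Lib.MP_afdd4d_co.K10.E6.P13
import Pool.Agent.Lib.MP_afdd4d_co.K10.E6.P14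
import Pool.Agent.Lib.MP_afdd4d_co.K10.E6.P15
import Pool.Agent.Lib.MP_afdd4d_co.K10.E6.P16
import Pool.Agent.Lib.MP_afdd4d_co.K10.E6.P17
import Pool.Agent.Lib.MP_afdd4d_co.K10.E6.P18
import Pool.Agent.Lib.MP_afdd4d_co.K10.E6.P19
import Pool.Agent.Lib.MP_afdd4d_co.K10.E6.P20
import Pool.Agent.Lib.MP_afdd4d_co.K10.E6.P21
import Pool.Agent.Lib.MP_afdd4d_co.K10.E6.P22
import Pool.Agent.Lib.MP_afdd4d_co.K10.E6.P23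
import Pool.Agent.Lib.MP_afdd4d_co.K10.E6.P24
import Pool.Agent.Lib.MP_afdd4d_co.K10.E6.P25
import Pool.Agent.Lib.MP_afdd4d_co.K10.E6.P26
import Pool.Agent.Lib.MP_afdd4d_co.K10.E6.P27
import Pool.Agent.Lib.MP_afdd4d_co.K10.E6.P28
import Pool.Agent.Lib.MP_afdd4d_co.K10.E6.P29
import Pool.Agent.Lib.MP_afdd4d_co.K10.E6.P30
import Pool.Agent.Lib.MP_afdd4d_co.K10.E6.P31
import Pool.Agent.Lib.MP_afdd4d_co.K10.E6.P32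

/-!
# Tables
-/

namespace Pool.Agent.Lib.MP_afdd4d_co.K10.E6

open K8

set_option maxRecDepth 100000
set_option exponentiation.threshold 10000000

/-- The slices of the chunk 324. -/
noncomputable def c324 : List (List ℕ) := [
  [tr p312_18,
   tr p313_18,
   s3_7 (s2_5 (s1_6 (s0_4 p313_33))),
   tr p314_18,
   tr p315_18,
   tr p316_18,
   s3_7 (s2_5 (s1_6 (s0_4 p316_33))),
   tr p317_18],
  [tr p318_18,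
   tr p319_18,
   s3_7 (s2_5 (s1_6 (s0_4 p319_33))),
   x7_6 (x7_5 (x7_4 (x3_2 (x3_1 (x3_0 (tr (n5 (n0 p318_23)))))))),
   tr p320_18,
   tr p321_18,
   s3_7 (s2_5 (s1_6 (s0_4 p321_33))),
   x7_6 (x7_5 (x7_4 (x3_2 (x3_1 (x3_0 (tr (n5 (n0 p320_23))))))))],
  [tr p322_18,
   tr p323_18,
   p324_18,
   p324_19,
   x7_6 (x7_5 (x7_4 (x3_2 (x3_1 (x3_0 (tr (n5 (n1 p323_23)))))))),
   x7_6 (x7_5 (x7_4 (x3_2 (x3_1 (x3_0 (tr (n5 (n1 p322_23)))))))),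
   p324_22,
   p324_23],
  [p324_24,
   p324_25,
   p324_26,
   p324_27,
   p324_28,
   p324_29,
   p324_30,
   p324_31],
  [s3_7 (s2_5 (s1_6 (s0_4 p322_33))),
   p324_33,
   s3_7 (s2_5 (s1_6 (s0_4 p323_33))),
   p324_35,
   x7_6 (x7_5 (x7_4 (x3_2 (x3_1 (x3_0 (s3_7 (s2_5 (s1_6 (s0_4 (n6 (n1 p323_39))))))))))),
   p324_37,
   x7_6 (x7_5 (x7_4 (x3_2 (x3_1 (x3_0 (s3_7 (s2_5 (s1_6 (s0_4 (n6 (n1 p322_39))))))))))),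
   p324_39],
  [p324_40,
   p324_41,
   p324_42,
   p324_43,
   p324_44,
   p324_45,
   p324_46,
   p324_47],
  [tr p330_18,
   tr p331_18,
   s3_7 (s2_5 (s1_6 (s0_4 p331_33))),
   x7_6 (x7_5 (x7_4 (x3_2 (x3_1 (x3_0 (tr (n5 (n2 (n1 p330_23))))))))),
   tr p332_18,
   tr p333_18,
   s3_7 (s2_5 (s1_6 (s0_4 p333_33))),
   x7_6 (x7_5 (x7_4 (x3_2 (x3_1 (x3_0 (tr (n5 (n2 (n1 p332_23)))))))))],
  [tr p334_18,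
   tr p335_18,
   s3_7 (s2_5 (s1_6 (s0_4 p335_33))),
   tr p336_18,
   tr p337_18,
   tr p338_18,
   s3_7 (s2_5 (s1_6 (s0_4 p338_33))),
   tr p339_18]]

theorem k324 : eqNN c324 (slO 64 (D.chG 49 18) 8) = true := by decide +kernel

/-- The slices of the chunk 325. -/
noncomputable def c325 : List (List ℕ) := [
  [tr p312_19,
   tr p313_19,
   s3_7 (s2_5 (s1_6 (s0_4 p313_35))),
   tr p314_19,
   tr p315_19,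
   tr p316_19,
   s3_7 (s2_5 (s1_6 (s0_4 p316_35))),
   tr p317_19],
  [tr p318_19,
   tr p319_19,
   s3_7 (s2_5 (s1_6 (s0_4 p319_35))),
   x7_6 (x7_5 (x7_4 (x3_2 (x3_1 (x3_0 (tr (n5 (n0 p318_22)))))))),
   tr p320_19,
   tr p321_19,
   s3_7 (s2_5 (s1_6 (s0_4 p321_35))),
   x7_6 (x7_5 (x7_4 (x3_2 (x3_1 (x3_0 (tr (n5 (n0 p320_22))))))))],
  [tr p322_19,
   tr p323_19,
   tr p324_19,
   p325_19,
   x7_6 (x7_5 (x7_4 (x3_2 (x3_1 (x3_0 (tr (n5 (n1 p323_22)))))))),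
   x7_6 (x7_5 (x7_4 (x3_2 (x3_1 (x3_0 (tr (n5 (n1 p322_22)))))))),
   p325_22,
   x7_6 (x7_5 (x7_4 (x3_2 (x3_1 (x3_0 (tr (n5 (n1 p324_22))))))))],
  [p325_24,
   p325_25,
   p325_26,
   p325_27,
   p325_28,
   p325_29,
   p325_30,
   p325_31],
  [s3_7 (s2_5 (s1_6 (s0_4 p322_35))),
   s3_7 (s2_5 (s1_6 (s0_4 p324_35))),
   s3_7 (s2_5 (s1_6 (s0_4 p323_35))),
   p325_35,
   x7_6 (x7_5 (x7_4 (x3_2 (x3_1 (x3_0 (s3_7 (s2_5 (s1_6 (s0_4 (n6 (n1 p323_37))))))))))),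
   p325_37,
   x7_6 (x7_5 (x7_4 (x3_2 (x3_1 (x3_0 (s3_7 (s2_5 (s1_6 (s0_4 (n6 (n1 p322_37))))))))))),
   x7_6 (x7_5 (x7_4 (x3_2 (x3_1 (x3_0 (s3_7 (s2_5 (s1_6 (s0_4 (n6 (n1 p324_37)))))))))))],
  [p325_40,
   p325_41,
   p325_42,
   p325_43,
   p325_44,
   p325_45,
   p325_46,
   p325_47],
  [tr p330_19,
   tr p331_19,
   s3_7 (s2_5 (s1_6 (s0_4 p331_35))),
   x7_6 (x7_5 (x7_4 (x3_2 (x3_1 (x3_0 (tr (n5 (n2 (n1 p330_22))))))))),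
   tr p332_19,
   tr p333_19,
   s3_7 (s2_5 (s1_6 (s0_4 p333_35))),
   x7_6 (x7_5 (x7_4 (x3_2 (x3_1 (x3_0 (tr (n5 (n2 (n1 p332_22)))))))))],
  [tr p334_19,
   tr p335_19,
   s3_7 (s2_5 (s1_6 (s0_4 p335_35))),
   tr p336_19,
   tr p337_19,
   tr p338_19,
   s3_7 (s2_5 (s1_6 (s0_4 p338_35))),
   tr p339_19]]

theorem k325 : eqNN c325 (slO 64 (D.chG 49 19) 8) = true := by decide +kernel

/-- The slices of the chunk 326. -/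
noncomputable def c326 : List (List ℕ) := [
  [tr p312_24,
   tr p313_24,
   s3_7 (s2_5 (s1_6 (s0_4 p313_40))),
   tr p314_24,
   tr p315_24,
   tr p316_24,
   s3_7 (s2_5 (s1_6 (s0_4 p316_40))),
   tr p317_24],
  [tr p318_24,
   tr p319_24,
   s3_7 (s2_5 (s1_6 (s0_4 p319_40))),
   x7_6 (x7_5 (x7_4 (x3_2 (x3_1 (x3_0 (tr (n5 (n4 (n0 p318_30))))))))),
   tr p320_24,
   tr p321_24,
   s3_7 (s2_5 (s1_6 (s0_4 p321_40))),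
   x7_6 (x7_5 (x7_4 (x3_2 (x3_1 (x3_0 (tr (n5 (n4 (n0 p320_30)))))))))],
  [tr p322_24,
   tr p323_24,
   tr p324_24,
   tr p325_24,
   x7_6 (x7_5 (x7_4 (x3_2 (x3_1 (x3_0 (tr (n5 (n4 (n1 p323_30))))))))),
   x7_6 (x7_5 (x7_4 (x3_2 (x3_1 (x3_0 (tr (n5 (n4 (n1 p322_30))))))))),
   x7_6 (x7_5 (x7_4 (x3_2 (x3_1 (x3_0 (tr (n5 (n4 (n1 p325_30))))))))),
   x7_6 (x7_5 (x7_4 (x3_2 (x3_1 (x3_0 (tr (n5 (n4 (n1 p324_30)))))))))],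
  [p326_24,
   p326_25,
   p326_26,
   p326_27,
   p326_28,
   p326_29,
   p326_30,
   p326_31],
  [s3_7 (s2_5 (s1_6 (s0_4 p322_40))),
   s3_7 (s2_5 (s1_6 (s0_4 p324_40))),
   s3_7 (s2_5 (s1_6 (s0_4 p323_40))),
   s3_7 (s2_5 (s1_6 (s0_4 p325_40))),
   x7_6 (x7_5 (x7_4 (x3_2 (x3_1 (x3_0 (s3_7 (s2_5 (s1_6 (s0_4 (n6 (n4 (n1 p323_45)))))))))))),
   x7_6 (x7_5 (x7_4 (x3_2 (x3_1 (x3_0 (s3_7 (s2_5 (s1_6 (s0_4 (n6 (n4 (n1 p325_45)))))))))))),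
   x7_6 (x7_5 (x7_4 (x3_2 (x3_1 (x3_0 (s3_7 (s2_5 (s1_6 (s0_4 (n6 (n4 (n1 p322_45)))))))))))),
   x7_6 (x7_5 (x7_4 (x3_2 (x3_1 (x3_0 (s3_7 (s2_5 (s1_6 (s0_4 (n6 (n4 (n1 p324_45))))))))))))],
  [p326_40,
   p326_41,
   p326_42,
   p326_43,
   p326_44,
   p326_45,
   p326_46,
   p326_47],
  [tr p330_24,
   tr p331_24,
   s3_7 (s2_5 (s1_6 (s0_4 p331_40))),
   x7_6 (x7_5 (x7_4 (x3_2 (x3_1 (x3_0 (tr (n5 (n4 (n2 (n1 p330_30)))))))))),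
   tr p332_24,
   tr p333_24,
   s3_7 (s2_5 (s1_6 (s0_4 p333_40))),
   x7_6 (x7_5 (x7_4 (x3_2 (x3_1 (x3_0 (tr (n5 (n4 (n2 (n1 p332_30))))))))))],
  [tr p334_24,
   tr p335_24,
   s3_7 (s2_5 (s1_6 (s0_4 p335_40))),
   tr p336_24,
   tr p337_24,
   tr p338_24,
   s3_7 (s2_5 (s1_6 (s0_4 p338_40))),
   tr p339_24]]

theorem k326 : eqNN c326 (slO 64 (D.chG 49 24) 8) = true := by decide +kernel

/-- The slices of the chunk 327. -/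
noncomputable def c327 : List (List ℕ) := [
  [tr p312_25,
   tr p313_25,
   s3_7 (s2_5 (s1_6 (s0_4 p313_42))),
   tr p314_25,
   tr p315_25,
   tr p316_25,
   s3_7 (s2_5 (s1_6 (s0_4 p316_42))),
   tr p317_25],
  [tr p318_25,
   tr p319_25,
   s3_7 (s2_5 (s1_6 (s0_4 p319_42))),
   x7_6 (x7_5 (x7_4 (x3_2 (x3_1 (x3_0 (tr (n5 (n4 (n0 p318_31))))))))),
   tr p320_25,
   tr p321_25,
   s3_7 (s2_5 (s1_6 (s0_4 p321_42))),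
   x7_6 (x7_5 (x7_4 (x3_2 (x3_1 (x3_0 (tr (n5 (n4 (n0 p320_31)))))))))],
  [tr p322_25,
   tr p323_25,
   tr p324_25,
   tr p325_25,
   x7_6 (x7_5 (x7_4 (x3_2 (x3_1 (x3_0 (tr (n5 (n4 (n1 p323_31))))))))),
   x7_6 (x7_5 (x7_4 (x3_2 (x3_1 (x3_0 (tr (n5 (n4 (n1 p322_31))))))))),
   x7_6 (x7_5 (x7_4 (x3_2 (x3_1 (x3_0 (tr (n5 (n4 (n1 p325_31))))))))),
   x7_6 (x7_5 (x7_4 (x3_2 (x3_1 (x3_0 (tr (n5 (n4 (n1 p324_31)))))))))],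
  [tr p326_25,
   p327_25,
   p327_26,
   p327_27,
   p327_28,
   p327_29,
   x7_6 (x7_5 (x7_4 (x3_2 (x3_1 (x3_0 (tr (n5 (n4 (n1 (n0 p326_31)))))))))),
   p327_31],
  [s3_7 (s2_5 (s1_6 (s0_4 p322_42))),
   s3_7 (s2_5 (s1_6 (s0_4 p324_42))),
   s3_7 (s2_5 (s1_6 (s0_4 p323_42))),
   s3_7 (s2_5 (s1_6 (s0_4 p325_42))),
   x7_6 (x7_5 (x7_4 (x3_2 (x3_1 (x3_0 (s3_7 (s2_5 (s1_6 (s0_4 (n6 (n4 (n1 p323_47)))))))))))),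
   x7_6 (x7_5 (x7_4 (x3_2 (x3_1 (x3_0 (s3_7 (s2_5 (s1_6 (s0_4 (n6 (n4 (n1 p325_47)))))))))))),
   x7_6 (x7_5 (x7_4 (x3_2 (x3_1 (x3_0 (s3_7 (s2_5 (s1_6 (s0_4 (n6 (n4 (n1 p322_47)))))))))))),
   x7_6 (x7_5 (x7_4 (x3_2 (x3_1 (x3_0 (s3_7 (s2_5 (s1_6 (s0_4 (n6 (n4 (n1 p324_47))))))))))))],
  [s3_7 (s2_5 (s1_6 (s0_4 p326_42))),
   p327_41,
   p327_42,
   p327_43,
   p327_44,
   x7_6 (x7_5 (x7_4 (x3_2 (x3_1 (x3_0 (s3_7 (s2_5 (s1_6 (s0_4 (n6 (n4 (n1 (n0 p326_47))))))))))))),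
   p327_46,
   p327_47],
  [tr p330_25,
   tr p331_25,
   s3_7 (s2_5 (s1_6 (s0_4 p331_42))),
   x7_6 (x7_5 (x7_4 (x3_2 (x3_1 (x3_0 (tr (n5 (n4 (n2 (n1 p330_31)))))))))),
   tr p332_25,
   tr p333_25,
   s3_7 (s2_5 (s1_6 (s0_4 p333_42))),
   x7_6 (x7_5 (x7_4 (x3_2 (x3_1 (x3_0 (tr (n5 (n4 (n2 (n1 p332_31))))))))))],
  [tr p334_25,
   tr p335_25,
   s3_7 (s2_5 (s1_6 (s0_4 p335_42))),
   tr p336_25,
   tr p337_25,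
   tr p338_25,
   s3_7 (s2_5 (s1_6 (s0_4 p338_42))),
   tr p339_25]]

theorem k327 : eqNN c327 (slO 64 (D.chG 49 25) 8) = true := by decide +kernel

end Pool.Agent.Lib.MP_afdd4d_co.K10.E6
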