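import Pool.Agent.Lib.MP_afdd4d_co.K10.E6.Dat
import Pool.Agent.Lib.MP_afdd4d_co.K10.E6.Mk
import Pool.Agent.Lib.MP_afdd4d_co.K8.F6Bl5
import Pool.Agent.Lib.MP_afdd4d_co.K10.E6.P0
import Pool.Agent.Lib.MP_afdd4d_co.K10.E6.P1
import Pool.Agent.Lib.MP_afdd4d_co.K10.E6.P2
import Pool.Agent.Lib.MP_afdd4d_co.K10.E6.P3
import Pool.Agent.Lib.MP_afdd4d_co.K10.E6.P4
import Pool.Agent.Lib.MP_afdd4d_co.K10.E6.P5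
import Pool.Agent.Lib.MP_afdd4d_co.K10.E6.P6
import Pool.Agent.Lib.MP_afdd4d_co.K10.E6.P7
import Pool.Agent.Lib.MP_afdd4d_co.K10.E6.P8
import Pool.Agent.Lib.MP_afdd4d_co.K10.E6.P9
import Pool.Agent.Lib.MP_afdd4d_co.K10.E6.P10
import Pool.Agent.Lib.MP_afdd4d_co.K10.E6.P11
import Pool.Agent.Lib.MP_afdd4d_co.K10.E6.P12
import Pool.Agent.Lib.MP_afdd4d_co.K10.E6.P13
import Pool.Agent.Lib.MP_afdd4d_co.K10.E6.P14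
import Pool.Agent.Lib.MP_afdd4d_co.K10.E6.P15
import Pool.Agent.Lib.MP_afdd4d_co.K10.E6.P16
import Pool.Agent.Lib.MP_afdd4d_co.K10.E6.P17
import Pool.Agent.Lib.MP_afdd4d_co.K10.E6.P18
import Pool.Agent.Lib.MP_afdd4d_co.K10.E6.P19
import Pool.Agent.Lib.MP_afdd4d_co.K10.E6.P20
import Pool.Agent.Lib.MP_afdd4d_co.K10.E6.P21
import Pool.Agent.Lib.MP_afdd4d_co.K10.E6.P22
import Pool.Agent.Lib.MP_afdd4d_co.K10.E6.P23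
import Pool.Agent.Lib.MP_afdd4d_co.K10.E6.P24
import Pool.Agent.Lib.MP_afdd4d_co.K10.E6.P25
import Pool.Agent.Lib.MP_afdd4d_co.K10.E6.P26
import Pool.Agent.Lib.MP_afdd4d_co.K10.E6.P27
import Pool.Agent.Lib.MP_afdd4d_co.K10.E6.P28
import Pool.Agent.Lib.MP_afdd4d_co.K10.E6.P29
import Pool.Agent.Lib.MP_afdd4d_co.K10.E6.P30
import Pool.Agent.Lib.MP_afdd4d_co.K10.E6.P31
import Pool.Agent.Lib.MP_afdd4d_co.K10.E6.P32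

/-!
# Tables
-/

namespace Pool.Agent.Lib.MP_afdd4d_co.K10.E6

open K8

set_option maxRecDepth 100000
set_option exponentiation.threshold 10000000

/-- The slices of the chunk 328. -/
noncomputable def c328 : List (List ℕ) := [
  [tr p312_26,
   tr p313_26,
   s3_7 (s2_5 (s1_6 (s0_4 p313_41))),
   tr p314_26,
   tr p315_26,
   tr p316_26,
   s3_7 (s2_5 (s1_6 (s0_4 p316_41))),
   tr p317_26],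
  [tr p318_26,
   tr p319_26,
   s3_7 (s2_5 (s1_6 (s0_4 p319_41))),
   x7_6 (x7_5 (x7_4 (x3_2 (x3_1 (x3_0 (tr (n5 (n4 (n0 p318_28))))))))),
   tr p320_26,
   tr p321_26,
   s3_7 (s2_5 (s1_6 (s0_4 p321_41))),
   x7_6 (x7_5 (x7_4 (x3_2 (x3_1 (x3_0 (tr (n5 (n4 (n0 p320_28)))))))))],
  [tr p322_26,
   tr p323_26,
   tr p324_26,
   tr p325_26,
   x7_6 (x7_5 (x7_4 (x3_2 (x3_1 (x3_0 (tr (n5 (n4 (n1 p323_28))))))))),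
   x7_6 (x7_5 (x7_4 (x3_2 (x3_1 (x3_0 (tr (n5 (n4 (n1 p322_28))))))))),
   x7_6 (x7_5 (x7_4 (x3_2 (x3_1 (x3_0 (tr (n5 (n4 (n1 p325_28))))))))),
   x7_6 (x7_5 (x7_4 (x3_2 (x3_1 (x3_0 (tr (n5 (n4 (n1 p324_28)))))))))],
  [tr p326_26,
   tr p327_26,
   p328_26,
   p328_27,
   p328_28,
   p328_29,
   x7_6 (x7_5 (x7_4 (x3_2 (x3_1 (x3_0 (tr (n5 (n4 (n1 (n0 p326_28)))))))))),
   x7_6 (x7_5 (x7_4 (x3_2 (x3_1 (x3_0 (tr (n5 (n4 (n1 (n0 p327_28))))))))))],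
  [s3_7 (s2_5 (s1_6 (s0_4 p322_41))),
   s3_7 (s2_5 (s1_6 (s0_4 p324_41))),
   s3_7 (s2_5 (s1_6 (s0_4 p323_41))),
   s3_7 (s2_5 (s1_6 (s0_4 p325_41))),
   x7_6 (x7_5 (x7_4 (x3_2 (x3_1 (x3_0 (s3_7 (s2_5 (s1_6 (s0_4 (n6 (n4 (n1 p323_44)))))))))))),
   x7_6 (x7_5 (x7_4 (x3_2 (x3_1 (x3_0 (s3_7 (s2_5 (s1_6 (s0_4 (n6 (n4 (n1 p325_44)))))))))))),
   x7_6 (x7_5 (x7_4 (x3_2 (x3_1 (x3_0 (s3_7 (s2_5 (s1_6 (s0_4 (n6 (n4 (n1 p322_44)))))))))))),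
   x7_6 (x7_5 (x7_4 (x3_2 (x3_1 (x3_0 (s3_7 (s2_5 (s1_6 (s0_4 (n6 (n4 (n1 p324_44))))))))))))],
  [s3_7 (s2_5 (s1_6 (s0_4 p326_41))),
   p328_41,
   s3_7 (s2_5 (s1_6 (s0_4 p327_41))),
   p328_43,
   p328_44,
   x7_6 (x7_5 (x7_4 (x3_2 (x3_1 (x3_0 (s3_7 (s2_5 (s1_6 (s0_4 (n6 (n4 (n1 (n0 p326_44))))))))))))),
   p328_46,
   x7_6 (x7_5 (x7_4 (x3_2 (x3_1 (x3_0 (s3_7 (s2_5 (s1_6 (s0_4 (n6 (n4 (n1 (n0 p327_44)))))))))))))],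
  [tr p330_26,
   tr p331_26,
   s3_7 (s2_5 (s1_6 (s0_4 p331_41))),
   x7_6 (x7_5 (x7_4 (x3_2 (x3_1 (x3_0 (tr (n5 (n4 (n2 (n1 p330_28)))))))))),
   tr p332_26,
   tr p333_26,
   s3_7 (s2_5 (s1_6 (s0_4 p333_41))),
   x7_6 (x7_5 (x7_4 (x3_2 (x3_1 (x3_0 (tr (n5 (n4 (n2 (n1 p332_28))))))))))],
  [tr p334_26,
   tr p335_26,
   s3_7 (s2_5 (s1_6 (s0_4 p335_41))),
   tr p336_26,
   tr p337_26,
   tr p338_26,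
   s3_7 (s2_5 (s1_6 (s0_4 p338_41))),
   tr p339_26]]

theorem k328 : eqNN c328 (slO 64 (D.chG 49 26) 8) = true := by decide +kernel

/-- The slices of the chunk 329. -/
noncomputable def c329 : List (List ℕ) := [
  [tr p312_27,
   tr p313_27,
   s3_7 (s2_5 (s1_6 (s0_4 p313_43))),
   tr p314_27,
   tr p315_27,
   tr p316_27,
   s3_7 (s2_5 (s1_6 (s0_4 p316_43))),
   tr p317_27],
  [tr p318_27,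
   tr p319_27,
   s3_7 (s2_5 (s1_6 (s0_4 p319_43))),
   x7_6 (x7_5 (x7_4 (x3_2 (x3_1 (x3_0 (tr (n5 (n4 (n0 p318_29))))))))),
   tr p320_27,
   tr p321_27,
   s3_7 (s2_5 (s1_6 (s0_4 p321_43))),
   x7_6 (x7_5 (x7_4 (x3_2 (x3_1 (x3_0 (tr (n5 (n4 (n0 p320_29)))))))))],
  [tr p322_27,
   tr p323_27,
   tr p324_27,
   tr p325_27,
   x7_6 (x7_5 (x7_4 (x3_2 (x3_1 (x3_0 (tr (n5 (n4 (n1 p323_29))))))))),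
   x7_6 (x7_5 (x7_4 (x3_2 (x3_1 (x3_0 (tr (n5 (n4 (n1 p322_29))))))))),
   x7_6 (x7_5 (x7_4 (x3_2 (x3_1 (x3_0 (tr (n5 (n4 (n1 p325_29))))))))),
   x7_6 (x7_5 (x7_4 (x3_2 (x3_1 (x3_0 (tr (n5 (n4 (n1 p324_29)))))))))],
  [tr p326_27,
   tr p327_27,
   tr p328_27,
   p329_27,
   x7_6 (x7_5 (x7_4 (x3_2 (x3_1 (x3_0 (tr (n5 (n4 (n1 (n0 p328_29)))))))))),
   p329_29,
   x7_6 (x7_5 (x7_4 (x3_2 (x3_1 (x3_0 (tr (n5 (n4 (n1 (n0 p326_29)))))))))),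
   x7_6 (x7_5 (x7_4 (x3_2 (x3_1 (x3_0 (tr (n5 (n4 (n1 (n0 p327_29))))))))))],
  [s3_7 (s2_5 (s1_6 (s0_4 p322_43))),
   s3_7 (s2_5 (s1_6 (s0_4 p324_43))),
   s3_7 (s2_5 (s1_6 (s0_4 p323_43))),
   s3_7 (s2_5 (s1_6 (s0_4 p325_43))),
   x7_6 (x7_5 (x7_4 (x3_2 (x3_1 (x3_0 (s3_7 (s2_5 (s1_6 (s0_4 (n6 (n4 (n1 p323_46)))))))))))),
   x7_6 (x7_5 (x7_4 (x3_2 (x3_1 (x3_0 (s3_7 (s2_5 (s1_6 (s0_4 (n6 (n4 (n1 p325_46)))))))))))),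
   x7_6 (x7_5 (x7_4 (x3_2 (x3_1 (x3_0 (s3_7 (s2_5 (s1_6 (s0_4 (n6 (n4 (n1 p322_46)))))))))))),
   x7_6 (x7_5 (x7_4 (x3_2 (x3_1 (x3_0 (s3_7 (s2_5 (s1_6 (s0_4 (n6 (n4 (n1 p324_46))))))))))))],
  [s3_7 (s2_5 (s1_6 (s0_4 p326_43))),
   s3_7 (s2_5 (s1_6 (s0_4 p328_43))),
   s3_7 (s2_5 (s1_6 (s0_4 p327_43))),
   p329_43,
   x7_6 (x7_5 (x7_4 (x3_2 (x3_1 (x3_0 (s3_7 (s2_5 (s1_6 (s0_4 (n6 (n4 (n1 (n0 p328_46))))))))))))),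
   x7_6 (x7_5 (x7_4 (x3_2 (x3_1 (x3_0 (s3_7 (s2_5 (s1_6 (s0_4 (n6 (n4 (n1 (n0 p326_46))))))))))))),
   p329_46,
   x7_6 (x7_5 (x7_4 (x3_2 (x3_1 (x3_0 (s3_7 (s2_5 (s1_6 (s0_4 (n6 (n4 (n1 (n0 p327_46)))))))))))))],
  [tr p330_27,
   tr p331_27,
   s3_7 (s2_5 (s1_6 (s0_4 p331_43))),
   x7_6 (x7_5 (x7_4 (x3_2 (x3_1 (x3_0 (tr (n5 (n4 (n2 (n1 p330_29)))))))))),
   tr p332_27,
   tr p333_27,
   s3_7 (s2_5 (s1_6 (s0_4 p333_43))),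
   x7_6 (x7_5 (x7_4 (x3_2 (x3_1 (x3_0 (tr (n5 (n4 (n2 (n1 p332_29))))))))))],
  [tr p334_27,
   tr p335_27,
   s3_7 (s2_5 (s1_6 (s0_4 p335_43))),
   tr p336_27,
   tr p337_27,
   tr p338_27,
   s3_7 (s2_5 (s1_6 (s0_4 p338_43))),
   tr p339_27]]

theorem k329 : eqNN c329 (slO 64 (D.chG 49 27) 8) = true := by decide +kernel

/-- The slices of the chunk 330. -/
noncomputable def c330 : List (List ℕ) := [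
  [tr p312_48,
   tr p313_48,
   s3_7 (s2_5 (s1_6 (s0_4 p313_48))),
   tr p314_48,
   tr p315_48,
   tr p316_48,
   s3_7 (s2_5 (s1_6 (s0_4 p316_48))),
   tr p317_48],
  [tr p318_48,
   tr p319_48,
   s3_7 (s2_5 (s1_6 (s0_4 p319_48))),
   x7_6 (x7_5 (x7_4 (x3_2 (x3_1 (x3_0 (tr (n6 (n5 (n0 p318_51))))))))),
   tr p320_48,
   tr p321_48,
   s3_7 (s2_5 (s1_6 (s0_4 p321_48))),
   x7_6 (x7_5 (x7_4 (x3_2 (x3_1 (x3_0 (tr (n6 (n5 (n0 p320_51)))))))))],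
  [p330_16,
   p330_17,
   p330_18,
   p330_19,
   p330_20,
   p330_21,
   p330_22,
   p330_23],
  [p330_24,
   p330_25,
   p330_26,
   p330_27,
   p330_28,
   p330_29,
   p330_30,
   p330_31],
  [s5_6 (s1_2 p330_16),
   s5_6 (s1_2 p330_18),
   s5_6 (s1_2 p330_17),
   s5_6 (s1_2 p330_19),
   s5_6 (s1_2 p330_20),
   s5_6 (s1_2 p330_22),
   s5_6 (s1_2 p330_21),
   s5_6 (s1_2 p330_23)],
  [s5_6 (s1_2 p330_24),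
   s5_6 (s1_2 p330_26),
   s5_6 (s1_2 p330_25),
   s5_6 (s1_2 p330_27),
   s5_6 (s1_2 p330_28),
   s5_6 (s1_2 p330_30),
   s5_6 (s1_2 p330_29),
   s5_6 (s1_2 p330_31)],
  [p330_48,
   p330_49,
   s5_6 (s1_2 p330_49),
   p330_51,
   p330_52,
   p330_53,
   s5_6 (s1_2 p330_53),
   p330_55],
  [tr p334_48,
   tr p335_48,
   s3_7 (s2_5 (s1_6 (s0_4 p335_48))),
   tr p336_48,
   tr p337_48,
   tr p338_48,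
   s3_7 (s2_5 (s1_6 (s0_4 p338_48))),
   tr p339_48]]

theorem k330 : eqNN c330 (slO 64 (D.chG 49 48) 8) = true := by decide +kernel

/-- The slices of the chunk 331. -/
noncomputable def c331 : List (List ℕ) := [
  [tr p312_49,
   tr p313_49,
   x7_6 (x7_5 (x7_4 (x3_2 (x3_1 (x3_0 (s3_7 (s2_5 (s1_6 (s0_4 (n6 (n5 p313_49))))))))))),
   tr p314_49,
   tr p315_49,
   tr p316_49,
   x7_6 (x7_5 (x7_4 (x3_2 (x3_1 (x3_0 (s3_7 (s2_5 (s1_6 (s0_4 (n6 (n5 p316_49))))))))))),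
   tr p317_49],
  [tr p318_49,
   tr p319_49,
   s3_7 (s2_5 (s1_6 (s0_4 p319_50))),
   x7_6 (x7_5 (x7_4 (x3_2 (x3_1 (x3_0 (s3_7 (s2_5 (s1_6 (s0_4 (n6 (n5 (n0 p318_49)))))))))))),
   tr p320_49,
   tr p321_49,
   s3_7 (s2_5 (s1_6 (s0_4 p321_50))),
   x7_6 (x7_5 (x7_4 (x3_2 (x3_1 (x3_0 (s3_7 (s2_5 (s1_6 (s0_4 (n6 (n5 (n0 p320_49))))))))))))],
  [p331_16,
   p331_17,
   p331_18,
   p331_19,
   x7_6 (x7_5 (x7_4 (s5_6 (x3_2 (x3_1 (x3_0 (s1_2 (n6 (n2 (n1 p331_34)))))))))),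
   x7_6 (x7_5 (x7_4 (s5_6 (x3_2 (x3_1 (x3_0 (s1_2 (n6 (n2 (n1 p331_32)))))))))),
   x7_6 (x7_5 (x7_4 (s5_6 (x3_2 (x3_1 (x3_0 (s1_2 (n6 (n2 (n1 p331_35)))))))))),
   x7_6 (x7_5 (x7_4 (s5_6 (x3_2 (x3_1 (x3_0 (s1_2 (n6 (n2 (n1 p331_33))))))))))],
  [p331_24,
   p331_25,
   p331_26,
   p331_27,
   x7_6 (x7_5 (x7_4 (s5_6 (x3_2 (x3_1 (x3_0 (s1_2 (n6 (n4 (n2 (n1 p331_41))))))))))),
   x7_6 (x7_5 (x7_4 (s5_6 (x3_2 (x3_1 (x3_0 (s1_2 (n6 (n4 (n2 (n1 p331_43))))))))))),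
   x7_6 (x7_5 (x7_4 (s5_6 (x3_2 (x3_1 (x3_0 (s1_2 (n6 (n4 (n2 (n1 p331_40))))))))))),
   x7_6 (x7_5 (x7_4 (s5_6 (x3_2 (x3_1 (x3_0 (s1_2 (n6 (n4 (n2 (n1 p331_42)))))))))))],
  [p331_32,
   p331_33,
   p331_34,
   p331_35,
   x7_6 (x7_5 (x7_4 (s5_6 (x3_2 (x3_1 (x3_0 (s1_2 (n5 (n2 (n1 p331_17)))))))))),
   x7_6 (x7_5 (x7_4 (s5_6 (x3_2 (x3_1 (x3_0 (s1_2 (n5 (n2 (n1 p331_19)))))))))),
   x7_6 (x7_5 (x7_4 (s5_6 (x3_2 (x3_1 (x3_0 (s1_2 (n5 (n2 (n1 p331_16)))))))))),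
   x7_6 (x7_5 (x7_4 (s5_6 (x3_2 (x3_1 (x3_0 (s1_2 (n5 (n2 (n1 p331_18))))))))))],
  [p331_40,
   p331_41,
   p331_42,
   p331_43,
   x7_6 (x7_5 (x7_4 (s5_6 (x3_2 (x3_1 (x3_0 (s1_2 (n5 (n4 (n2 (n1 p331_26))))))))))),
   x7_6 (x7_5 (x7_4 (s5_6 (x3_2 (x3_1 (x3_0 (s1_2 (n5 (n4 (n2 (n1 p331_24))))))))))),
   x7_6 (x7_5 (x7_4 (s5_6 (x3_2 (x3_1 (x3_0 (s1_2 (n5 (n4 (n2 (n1 p331_27))))))))))),
   x7_6 (x7_5 (x7_4 (s5_6 (x3_2 (x3_1 (x3_0 (s1_2 (n5 (n4 (n2 (n1 p331_25)))))))))))],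
  [tr p330_49,
   p331_49,
   p331_50,
   x7_6 (x7_5 (x7_4 (x3_2 (x3_1 (x3_0 (s3_7 (s2_5 (s1_6 (s0_4 (n6 (n5 (n2 (n1 p330_49))))))))))))),
   p331_52,
   p331_53,
   p331_54,
   x7_6 (x7_5 (x7_4 (s5_6 (x3_2 (x3_1 (x3_0 (s1_2 (n6 (n5 (n2 (n1 p331_52)))))))))))],
  [tr p334_49,
   tr p335_49,
   x7_6 (x7_5 (x7_4 (x3_2 (x3_1 (x3_0 (s3_7 (s2_5 (s1_6 (s0_4 (n6 (n5 (n2 (n1 (n0 p335_49)))))))))))))),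
   tr p336_49,
   tr p337_49,
   tr p338_49,
   x7_6 (x7_5 (x7_4 (x3_2 (x3_1 (x3_0 (s3_7 (s2_5 (s1_6 (s0_4 (n6 (n5 (n2 (n1 (n0 p338_49)))))))))))))),
   tr p339_49]]

theorem k331 : eqNN c331 (slO 64 (D.chG 49 49) 8) = true := by decide +kernel

end Pool.Agent.Lib.MP_afdd4d_co.K10.E6
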