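import Pool.Agent.Lib.MP_afdd4d_co.K10.E6.Dat
import Pool.Agent.Lib.MP_afdd4d_co.K10.E6.Mk
import Pool.Agent.Lib.MP_afdd4d_co.K8.F6Bl5
import Pool.Agent.Lib.MP_afdd4d_co.K10.E6.P0
import Pool.Agent.Lib.MP_afdd4d_co.K10.E6.P1
import Pool.Agent.Lib.MP_afdd4d_co.K10.E6.P2
import Pool.Agent.Lib.MP_afdd4d_co.K10.E6.P3
import Pool.Agent.Lib.MP_afdd4d_co.K10.E6.P4
import Pool.Agent.Lib.MP_afdd4d_co.K10.E6.P5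
import Pool.Agent.Lib.MP_afdd4d_co.K10.E6.P6
import Pool.Agent.Lib.MP_afdd4d_co.K10.E6.P7
import Pool.Agent.Lib.MP_afdd4d_co.K10.E6.P8
import Pool.Agent.Lib.MP_afdd4d_co.K10.E6.P9
import Pool.Agent.Lib.MP_afdd4d_co.K10.E6.P10
import Pool.Agent.Lib.MP_afdd4d_co.K10.E6.P11
import Pool.Agent.Lib.MP_afdd4d_co.K10.E6.P12
import Pool.Agent.Lib.MP_afdd4d_co.K10.E6.P13
import Pool.Agent.Lib.MP_afdd4d_co.K10.E6.P14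
import Pool.Agent.Lib.MP_afdd4d_co.K10.E6.P15
import Pool.Agent.Lib.MP_afdd4d_co.K10.E6.P16
import Pool.Agent.Lib.MP_afdd4d_co.K10.E6.P17
import Pool.Agent.Lib.MP_afdd4d_co.K10.E6.P18
import Pool.Agent.Lib.MP_afdd4d_co.K10.E6.P19
import Pool.Agent.Lib.MP_afdd4d_co.K10.E6.P20
import Pool.Agent.Lib.MP_afdd4d_co.K10.E6.P21
import Pool.Agent.Lib.MP_afdd4d_co.K10.E6.P22
import Pool.Agent.Lib.MP_afdd4d_co.K10.E6.P23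
import Pool.Agent.Lib.MP_afdd4d_co.K10.E6.P24
import Pool.Agent.Lib.MP_afdd4d_co.K10.E6.P25
import Pool.Agent.Lib.MP_afdd4d_co.K10.E6.P26
import Pool.Agent.Lib.MP_afdd4d_co.K10.E6.P27
import Pool.Agent.Lib.MP_afdd4d_co.K10.E6.P28
import Pool.Agent.Lib.MP_afdd4d_co.K10.E6.P29
import Pool.Agent.Lib.MP_afdd4d_co.K10.E6.P30
import Pool.Agent.Lib.MP_afdd4d_co.K10.E6.P31
import Pool.Agent.Lib.MP_afdd4d_co.K10.E6.P32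

/-!
# Tables
-/

namespace Pool.Agent.Lib.MP_afdd4d_co.K10.E6

open K8

set_option maxRecDepth 100000
set_option exponentiation.threshold 10000000

/-- The slices of the chunk 332. -/
noncomputable def c332 : List (List ℕ) := [
  [tr p312_52,
   tr p313_52,
   s3_7 (s2_5 (s1_6 (s0_4 p313_52))),
   tr p314_52,
   tr p315_52,
   tr p316_52,
   s3_7 (s2_5 (s1_6 (s0_4 p316_52))),
   tr p317_52],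
  [tr p318_52,
   tr p319_52,
   s3_7 (s2_5 (s1_6 (s0_4 p319_52))),
   x7_6 (x7_5 (x7_4 (x3_2 (x3_1 (x3_0 (tr (n6 (n5 (n0 p318_55))))))))),
   tr p320_52,
   tr p321_52,
   s3_7 (s2_5 (s1_6 (s0_4 p321_52))),
   x7_6 (x7_5 (x7_4 (x3_2 (x3_1 (x3_0 (tr (n6 (n5 (n0 p320_55)))))))))],
  [p332_16,
   p332_17,
   p332_18,
   p332_19,
   p332_20,
   p332_21,
   p332_22,
   p332_23],
  [p332_24,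
   p332_25,
   p332_26,
   p332_27,
   p332_28,
   p332_29,
   p332_30,
   p332_31],
  [s5_6 (s1_2 p332_16),
   s5_6 (s1_2 p332_18),
   s5_6 (s1_2 p332_17),
   s5_6 (s1_2 p332_19),
   s5_6 (s1_2 p332_20),
   s5_6 (s1_2 p332_22),
   s5_6 (s1_2 p332_21),
   s5_6 (s1_2 p332_23)],
  [s5_6 (s1_2 p332_24),
   s5_6 (s1_2 p332_26),
   s5_6 (s1_2 p332_25),
   s5_6 (s1_2 p332_27),
   s5_6 (s1_2 p332_28),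
   s5_6 (s1_2 p332_30),
   s5_6 (s1_2 p332_29),
   s5_6 (s1_2 p332_31)],
  [tr p330_52,
   tr p331_52,
   s3_7 (s2_5 (s1_6 (s0_4 p331_52))),
   x7_6 (x7_5 (x7_4 (x3_2 (x3_1 (x3_0 (tr (n6 (n5 (n2 (n1 p330_55)))))))))),
   p332_52,
   p332_53,
   s5_6 (s1_2 p332_53),
   p332_55],
  [tr p334_52,
   tr p335_52,
   s3_7 (s2_5 (s1_6 (s0_4 p335_52))),
   tr p336_52,
   tr p337_52,
   tr p338_52,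
   s3_7 (s2_5 (s1_6 (s0_4 p338_52))),
   tr p339_52]]

theorem k332 : eqNN c332 (slO 64 (D.chG 49 52) 8) = true := by decide +kernel

/-- The slices of the chunk 333. -/
noncomputable def c333 : List (List ℕ) := [
  [tr p312_53,
   tr p313_53,
   x7_6 (x7_5 (x7_4 (x3_2 (x3_1 (x3_0 (s3_7 (s2_5 (s1_6 (s0_4 (n6 (n5 p313_53))))))))))),
   tr p314_53,
   tr p315_53,
   tr p316_53,
   x7_6 (x7_5 (x7_4 (x3_2 (x3_1 (x3_0 (s3_7 (s2_5 (s1_6 (s0_4 (n6 (n5 p316_53))))))))))),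
   tr p317_53],
  [tr p318_53,
   tr p319_53,
   s3_7 (s2_5 (s1_6 (s0_4 p319_54))),
   x7_6 (x7_5 (x7_4 (x3_2 (x3_1 (x3_0 (s3_7 (s2_5 (s1_6 (s0_4 (n6 (n5 (n0 p318_53)))))))))))),
   tr p320_53,
   tr p321_53,
   s3_7 (s2_5 (s1_6 (s0_4 p321_54))),
   x7_6 (x7_5 (x7_4 (x3_2 (x3_1 (x3_0 (s3_7 (s2_5 (s1_6 (s0_4 (n6 (n5 (n0 p320_53))))))))))))],
  [p333_16,
   p333_17,
   p333_18,
   p333_19,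
   x7_6 (x7_5 (x7_4 (s5_6 (x3_2 (x3_1 (x3_0 (s1_2 (n6 (n2 (n1 p333_34)))))))))),
   x7_6 (x7_5 (x7_4 (s5_6 (x3_2 (x3_1 (x3_0 (s1_2 (n6 (n2 (n1 p333_32)))))))))),
   x7_6 (x7_5 (x7_4 (s5_6 (x3_2 (x3_1 (x3_0 (s1_2 (n6 (n2 (n1 p333_35)))))))))),
   x7_6 (x7_5 (x7_4 (s5_6 (x3_2 (x3_1 (x3_0 (s1_2 (n6 (n2 (n1 p333_33))))))))))],
  [p333_24,
   p333_25,
   p333_26,
   p333_27,
   x7_6 (x7_5 (x7_4 (s5_6 (x3_2 (x3_1 (x3_0 (s1_2 (n6 (n4 (n2 (n1 p333_41))))))))))),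
   x7_6 (x7_5 (x7_4 (s5_6 (x3_2 (x3_1 (x3_0 (s1_2 (n6 (n4 (n2 (n1 p333_43))))))))))),
   x7_6 (x7_5 (x7_4 (s5_6 (x3_2 (x3_1 (x3_0 (s1_2 (n6 (n4 (n2 (n1 p333_40))))))))))),
   x7_6 (x7_5 (x7_4 (s5_6 (x3_2 (x3_1 (x3_0 (s1_2 (n6 (n4 (n2 (n1 p333_42)))))))))))],
  [p333_32,
   p333_33,
   p333_34,
   p333_35,
   x7_6 (x7_5 (x7_4 (s5_6 (x3_2 (x3_1 (x3_0 (s1_2 (n5 (n2 (n1 p333_17)))))))))),
   x7_6 (x7_5 (x7_4 (s5_6 (x3_2 (x3_1 (x3_0 (s1_2 (n5 (n2 (n1 p333_19)))))))))),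
   x7_6 (x7_5 (x7_4 (s5_6 (x3_2 (x3_1 (x3_0 (s1_2 (n5 (n2 (n1 p333_16)))))))))),
   x7_6 (x7_5 (x7_4 (s5_6 (x3_2 (x3_1 (x3_0 (s1_2 (n5 (n2 (n1 p333_18))))))))))],
  [p333_40,
   p333_41,
   p333_42,
   p333_43,
   x7_6 (x7_5 (x7_4 (s5_6 (x3_2 (x3_1 (x3_0 (s1_2 (n5 (n4 (n2 (n1 p333_26))))))))))),
   x7_6 (x7_5 (x7_4 (s5_6 (x3_2 (x3_1 (x3_0 (s1_2 (n5 (n4 (n2 (n1 p333_24))))))))))),
   x7_6 (x7_5 (x7_4 (s5_6 (x3_2 (x3_1 (x3_0 (s1_2 (n5 (n4 (n2 (n1 p333_27))))))))))),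
   x7_6 (x7_5 (x7_4 (s5_6 (x3_2 (x3_1 (x3_0 (s1_2 (n5 (n4 (n2 (n1 p333_25)))))))))))],
  [tr p330_53,
   tr p331_53,
   s3_7 (s2_5 (s1_6 (s0_4 p331_54))),
   x7_6 (x7_5 (x7_4 (x3_2 (x3_1 (x3_0 (s3_7 (s2_5 (s1_6 (s0_4 (n6 (n5 (n2 (n1 p330_53))))))))))))),
   tr p332_53,
   p333_53,
   p333_54,
   x7_6 (x7_5 (x7_4 (x3_2 (x3_1 (x3_0 (s3_7 (s2_5 (s1_6 (s0_4 (n6 (n5 (n2 (n1 p332_53)))))))))))))],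
  [tr p334_53,
   tr p335_53,
   x7_6 (x7_5 (x7_4 (x3_2 (x3_1 (x3_0 (s3_7 (s2_5 (s1_6 (s0_4 (n6 (n5 (n2 (n1 (n0 p335_53)))))))))))))),
   tr p336_53,
   tr p337_53,
   tr p338_53,
   x7_6 (x7_5 (x7_4 (x3_2 (x3_1 (x3_0 (s3_7 (s2_5 (s1_6 (s0_4 (n6 (n5 (n2 (n1 (n0 p338_53)))))))))))))),
   tr p339_53]]

theorem k333 : eqNN c333 (slO 64 (D.chG 49 53) 8) = true := by decide +kernel

/-- The slices of the chunk 334. -/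
noncomputable def c334 : List (List ℕ) := [
  [tr p312_56,
   p334_1,
   s5_6 (s1_2 p334_1),
   tr p314_56,
   tr p315_56,
   p334_5,
   s5_6 (s1_2 p334_5),
   tr p317_56],
  [p334_8,
   p334_9,
   s5_6 (s1_2 p334_9),
   x7_6 (x7_5 (x7_4 (x3_2 (x3_1 (x3_0 (n4 (n2 (n1 (n0 p334_8))))))))),
   p334_12,
   p334_13,
   s5_6 (s1_2 p334_13),
   x7_6 (x7_5 (x7_4 (x3_2 (x3_1 (x3_0 (n4 (n2 (n1 (n0 p334_12)))))))))],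
  [p334_16,
   p334_17,
   p334_18,
   p334_19,
   x7_6 (x7_5 (x7_4 (x3_2 (x3_1 (x3_0 (n5 (n2 (n1 (n0 p334_17))))))))),
   x7_6 (x7_5 (x7_4 (x3_2 (x3_1 (x3_0 (n5 (n2 (n1 (n0 p334_16))))))))),
   x7_6 (x7_5 (x7_4 (x3_2 (x3_1 (x3_0 (n5 (n2 (n1 (n0 p334_19))))))))),
   x7_6 (x7_5 (x7_4 (x3_2 (x3_1 (x3_0 (n5 (n2 (n1 (n0 p334_18)))))))))],
  [p334_24,
   p334_25,
   p334_26,
   p334_27,
   x7_6 (x7_5 (x7_4 (x3_2 (x3_1 (x3_0 (n5 (n4 (n2 (n1 (n0 p334_26)))))))))),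
   x7_6 (x7_5 (x7_4 (x3_2 (x3_1 (x3_0 (n5 (n4 (n2 (n1 (n0 p334_27)))))))))),
   x7_6 (x7_5 (x7_4 (x3_2 (x3_1 (x3_0 (n5 (n4 (n2 (n1 (n0 p334_24)))))))))),
   x7_6 (x7_5 (x7_4 (x3_2 (x3_1 (x3_0 (n5 (n4 (n2 (n1 (n0 p334_25))))))))))],
  [s5_6 (s1_2 p334_16),
   s5_6 (s1_2 p334_18),
   s5_6 (s1_2 p334_17),
   s5_6 (s1_2 p334_19),
   x7_6 (x7_5 (x7_4 (s5_6 (x3_2 (x3_1 (x3_0 (s1_2 (n5 (n2 (n1 (n0 p334_17))))))))))),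
   x7_6 (x7_5 (x7_4 (s5_6 (x3_2 (x3_1 (x3_0 (s1_2 (n5 (n2 (n1 (n0 p334_19))))))))))),
   x7_6 (x7_5 (x7_4 (s5_6 (x3_2 (x3_1 (x3_0 (s1_2 (n5 (n2 (n1 (n0 p334_16))))))))))),
   x7_6 (x7_5 (x7_4 (s5_6 (x3_2 (x3_1 (x3_0 (s1_2 (n5 (n2 (n1 (n0 p334_18)))))))))))],
  [s5_6 (s1_2 p334_24),
   s5_6 (s1_2 p334_26),
   s5_6 (s1_2 p334_25),
   s5_6 (s1_2 p334_27),
   x7_6 (x7_5 (x7_4 (s5_6 (x3_2 (x3_1 (x3_0 (s1_2 (n5 (n4 (n2 (n1 (n0 p334_26)))))))))))),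
   x7_6 (x7_5 (x7_4 (s5_6 (x3_2 (x3_1 (x3_0 (s1_2 (n5 (n4 (n2 (n1 (n0 p334_24)))))))))))),
   x7_6 (x7_5 (x7_4 (s5_6 (x3_2 (x3_1 (x3_0 (s1_2 (n5 (n4 (n2 (n1 (n0 p334_27)))))))))))),
   x7_6 (x7_5 (x7_4 (s5_6 (x3_2 (x3_1 (x3_0 (s1_2 (n5 (n4 (n2 (n1 (n0 p334_25))))))))))))],
  [p334_48,
   p334_49,
   s5_6 (s1_2 p334_49),
   x7_6 (x7_5 (x7_4 (x3_2 (x3_1 (x3_0 (n6 (n5 (n2 (n1 (n0 p334_48)))))))))),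
   p334_52,
   p334_53,
   s5_6 (s1_2 p334_53),
   x7_6 (x7_5 (x7_4 (x3_2 (x3_1 (x3_0 (n6 (n5 (n2 (n1 (n0 p334_52))))))))))],
  [p334_56,
   p334_57,
   s5_6 (s1_2 p334_57),
   p334_59,
   p334_60,
   p334_61,
   s5_6 (s1_2 p334_61),
   p334_63]]

theorem k334 : eqNN c334 (slO 64 (D.chG 49 56) 8) = true := by decide +kernel

/-- The slices of the chunk 335. -/
noncomputable def c335 : List (List ℕ) := [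
  [tr p312_57,
   tr p313_57,
   s3_7 (s2_5 (s1_6 (s0_4 p313_58))),
   tr p314_57,
   tr p315_57,
   tr p316_57,
   s3_7 (s2_5 (s1_6 (s0_4 p316_58))),
   tr p317_57],
  [p335_8,
   p335_9,
   x7_6 (x7_5 (x7_4 (x3_2 (x3_1 (x3_0 (n4 (n2 (n1 (n0 p335_9))))))))),
   x7_6 (x7_5 (x7_4 (x3_2 (x3_1 (x3_0 (n4 (n2 (n1 (n0 p335_8))))))))),
   p335_12,
   p335_13,
   x7_6 (x7_5 (x7_4 (x3_2 (x3_1 (x3_0 (n4 (n2 (n1 (n0 p335_13))))))))),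
   x7_6 (x7_5 (x7_4 (x3_2 (x3_1 (x3_0 (n4 (n2 (n1 (n0 p335_12)))))))))],
  [p335_16,
   p335_17,
   p335_18,
   p335_19,
   x7_6 (x7_5 (x7_4 (x3_2 (x3_1 (x3_0 (n5 (n2 (n1 (n0 p335_17))))))))),
   x7_6 (x7_5 (x7_4 (x3_2 (x3_1 (x3_0 (n5 (n2 (n1 (n0 p335_16))))))))),
   x7_6 (x7_5 (x7_4 (x3_2 (x3_1 (x3_0 (n5 (n2 (n1 (n0 p335_19))))))))),
   x7_6 (x7_5 (x7_4 (x3_2 (x3_1 (x3_0 (n5 (n2 (n1 (n0 p335_18)))))))))],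
  [p335_24,
   p335_25,
   p335_26,
   p335_27,
   x7_6 (x7_5 (x7_4 (x3_2 (x3_1 (x3_0 (n5 (n4 (n2 (n1 (n0 p335_26)))))))))),
   x7_6 (x7_5 (x7_4 (x3_2 (x3_1 (x3_0 (n5 (n4 (n2 (n1 (n0 p335_27)))))))))),
   x7_6 (x7_5 (x7_4 (x3_2 (x3_1 (x3_0 (n5 (n4 (n2 (n1 (n0 p335_24)))))))))),
   x7_6 (x7_5 (x7_4 (x3_2 (x3_1 (x3_0 (n5 (n4 (n2 (n1 (n0 p335_25))))))))))],
  [p335_32,
   p335_33,
   p335_34,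
   p335_35,
   x7_6 (x7_5 (x7_4 (x3_2 (x3_1 (x3_0 (n6 (n2 (n1 (n0 p335_34))))))))),
   x7_6 (x7_5 (x7_4 (x3_2 (x3_1 (x3_0 (n6 (n2 (n1 (n0 p335_35))))))))),
   x7_6 (x7_5 (x7_4 (x3_2 (x3_1 (x3_0 (n6 (n2 (n1 (n0 p335_32))))))))),
   x7_6 (x7_5 (x7_4 (x3_2 (x3_1 (x3_0 (n6 (n2 (n1 (n0 p335_33)))))))))],
  [p335_40,
   p335_41,
   p335_42,
   p335_43,
   x7_6 (x7_5 (x7_4 (x3_2 (x3_1 (x3_0 (n6 (n4 (n2 (n1 (n0 p335_41)))))))))),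
   x7_6 (x7_5 (x7_4 (x3_2 (x3_1 (x3_0 (n6 (n4 (n2 (n1 (n0 p335_40)))))))))),
   x7_6 (x7_5 (x7_4 (x3_2 (x3_1 (x3_0 (n6 (n4 (n2 (n1 (n0 p335_43)))))))))),
   x7_6 (x7_5 (x7_4 (x3_2 (x3_1 (x3_0 (n6 (n4 (n2 (n1 (n0 p335_42))))))))))],
  [p335_48,
   p335_49,
   x7_6 (x7_5 (x7_4 (x3_2 (x3_1 (x3_0 (n6 (n5 (n2 (n1 (n0 p335_49)))))))))),
   x7_6 (x7_5 (x7_4 (x3_2 (x3_1 (x3_0 (n6 (n5 (n2 (n1 (n0 p335_48)))))))))),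
   p335_52,
   p335_53,
   x7_6 (x7_5 (x7_4 (x3_2 (x3_1 (x3_0 (n6 (n5 (n2 (n1 (n0 p335_53)))))))))),
   x7_6 (x7_5 (x7_4 (x3_2 (x3_1 (x3_0 (n6 (n5 (n2 (n1 (n0 p335_52))))))))))],
  [tr p334_57,
   p335_57,
   p335_58,
   tr p336_57,
   tr p337_57,
   p335_61,
   p335_62,
   tr p339_57]]

theorem k335 : eqNN c335 (slO 64 (D.chG 49 57) 8) = true := by decide +kernel

end Pool.Agent.Lib.MP_afdd4d_co.K10.E6
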