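import Pool.Agent.Lib.MP_afdd4d_co.K10.E6.Dat
import Pool.Agent.Lib.MP_afdd4d_co.K10.E6.Mk
import Pool.Agent.Lib.MP_afdd4d_co.K8.F6Bl5
import Pool.Agent.Lib.MP_afdd4d_co.K10.E6.P0
import Pool.Agent.Lib.MP_afdd4d_co.K10.E6.P1
import Pool.Agent.Lib.MP_afdd4d_co.K10.E6.P2
import Pool.Agent.Lib.MP_afdd4d_co.K10.E6.P3
import Pool.Agent.Lib.MP_afdd4d_co.K10.E6.P4
import Pool.Agent.Lib.MP_afdd4d_co.K10.E6.P5
import Pool.Agent.Lib.MP_afdd4d_co.K10.E6.P6
import Pool.Agent.Lib.MP_afdd4d_co.K10.E6.P7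
import Pool.Agent.Lib.MP_afdd4d_co.K10.E6.P8
import Pool.Agent.Lib.MP_afdd4d_co.K10.E6.P9
import Pool.Agent.Lib.MP_afdd4d_co.K10.E6.P10
import Pool.Agent.Lib.MP_afdd4d_co.K10.E6.P11
import Pool.Agent.Lib.MP_afdd4d_co.K10.E6.P12
import Pool.Agent.Lib.MP_afdd4d_co.K10.E6.P13
import Pool.Agent.Lib.MP_afdd4d_co.K10.E6.P14
import Pool.Agent.Lib.MP_afdd4d_co.K10.E6.P15
import Pool.Agent.Lib.MP_afdd4d_co.K10.E6.P16
import Pool.Agent.Lib.MP_afdd4d_co.K10.E6.P17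
import Pool.Agent.Lib.MP_afdd4d_co.K10.E6.P18
import Pool.Agent.Lib.MP_afdd4d_co.K10.E6.P19
import Pool.Agent.Lib.MP_afdd4d_co.K10.E6.P20
import Pool.Agent.Lib.MP_afdd4d_co.K10.E6.P21
import Pool.Agent.Lib.MP_afdd4d_co.K10.E6.P22
import Pool.Agent.Lib.MP_afdd4d_co.K10.E6.P23
import Pool.Agent.Lib.MP_afdd4d_co.K10.E6.P24
import Pool.Agent.Lib.MP_afdd4d_co.K10.E6.P25
import Pool.Agent.Lib.MP_afdd4d_co.K10.E6.P26
import Pool.Agent.Lib.MP_afdd4d_co.K10.E6.P27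
import Pool.Agent.Lib.MP_afdd4d_co.K10.E6.P28
import Pool.Agent.Lib.MP_afdd4d_co.K10.E6.P29
import Pool.Agent.Lib.MP_afdd4d_co.K10.E6.P30
import Pool.Agent.Lib.MP_afdd4d_co.K10.E6.P31
import Pool.Agent.Lib.MP_afdd4d_co.K10.E6.P32

/-!
# Tables
-/

namespace Pool.Agent.Lib.MP_afdd4d_co.K10.E6

open K8

set_option maxRecDepth 100000
set_option exponentiation.threshold 10000000

/-- The slices of the chunk 340. -/
noncomputable def c340 : List (List ℕ) := [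
  [p340_0,
   p340_1,
   s5_6 (s1_2 p340_1),
   p340_3,
   p340_4,
   p340_5,
   s5_6 (s1_2 p340_5),
   p340_7],
  [p340_8,
   p340_9,
   s5_6 (s1_2 p340_9),
   p340_11,
   p340_12,
   p340_13,
   s5_6 (s1_2 p340_13),
   p340_15],
  [p340_16,
   p340_17,
   p340_18,
   p340_19,
   p340_20,
   p340_21,
   p340_22,
   p340_23],
  [p340_24,
   p340_25,
   p340_26,
   p340_27,
   p340_28,
   p340_29,
   p340_30,
   p340_31],
  [s5_6 (s1_2 p340_16),
   s5_6 (s1_2 p340_18),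
   s5_6 (s1_2 p340_17),
   s5_6 (s1_2 p340_19),
   s5_6 (s1_2 p340_20),
   s5_6 (s1_2 p340_22),
   s5_6 (s1_2 p340_21),
   s5_6 (s1_2 p340_23)],
  [s5_6 (s1_2 p340_24),
   s5_6 (s1_2 p340_26),
   s5_6 (s1_2 p340_25),
   s5_6 (s1_2 p340_27),
   s5_6 (s1_2 p340_28),
   s5_6 (s1_2 p340_30),
   s5_6 (s1_2 p340_29),
   s5_6 (s1_2 p340_31)],
  [p340_48,
   p340_49,
   s5_6 (s1_2 p340_49),
   p340_51,
   p340_52,
   p340_53,
   s5_6 (s1_2 p340_53),
   p340_55],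
  [p340_56,
   p340_57,
   s5_6 (s1_2 p340_57),
   p340_59,
   p340_60,
   p340_61,
   s5_6 (s1_2 p340_61),
   p340_63]]

theorem k340 : eqNN c340 (slO 64 (D.chG 56 0) 8) = true := by decide +kernel

/-- The slices of the chunk 341. -/
noncomputable def c341 : List (List ℕ) := [
  [tr p340_1,
   p341_1,
   p341_2,
   tr p342_1,
   tr p343_1,
   p341_5,
   p341_6,
   tr p345_1],
  [tr p346_1,
   p341_9,
   p341_10,
   tr p348_1,
   tr p349_1,
   p341_13,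
   p341_14,
   tr p351_1],
  [p341_16,
   p341_17,
   p341_18,
   p341_19,
   p341_20,
   p341_21,
   p341_22,
   p341_23],
  [p341_24,
   p341_25,
   p341_26,
   p341_27,
   p341_28,
   p341_29,
   p341_30,
   p341_31],
  [p341_32,
   p341_33,
   p341_34,
   p341_35,
   p341_36,
   p341_37,
   p341_38,
   p341_39],
  [p341_40,
   p341_41,
   p341_42,
   p341_43,
   p341_44,
   p341_45,
   p341_46,
   p341_47],
  [tr p368_1,
   p341_49,
   p341_50,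
   tr p370_1,
   tr p371_1,
   p341_53,
   p341_54,
   tr p373_1],
  [tr p374_1,
   p341_57,
   p341_58,
   tr p376_1,
   tr p377_1,
   p341_61,
   p341_62,
   tr p379_1]]

theorem k341 : eqNN c341 (slO 64 (D.chG 56 1) 8) = true := by decide +kernel

/-- The slices of the chunk 342. -/
noncomputable def c342 : List (List ℕ) := [
  [tr p340_3,
   p342_1,
   s5_6 (s1_2 p342_1),
   p342_3,
   p342_4,
   p342_5,
   s5_6 (s1_2 p342_5),
   p342_7],
  [p342_8,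
   p342_9,
   s5_6 (s1_2 p342_9),
   p342_11,
   p342_12,
   p342_13,
   s5_6 (s1_2 p342_13),
   p342_15],
  [p342_16,
   p342_17,
   p342_18,
   p342_19,
   p342_20,
   p342_21,
   p342_22,
   p342_23],
  [p342_24,
   p342_25,
   p342_26,
   p342_27,
   p342_28,
   p342_29,
   p342_30,
   p342_31],
  [s5_6 (s1_2 p342_16),
   s5_6 (s1_2 p342_18),
   s5_6 (s1_2 p342_17),
   s5_6 (s1_2 p342_19),
   s5_6 (s1_2 p342_20),
   s5_6 (s1_2 p342_22),
   s5_6 (s1_2 p342_21),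
   s5_6 (s1_2 p342_23)],
  [s5_6 (s1_2 p342_24),
   s5_6 (s1_2 p342_26),
   s5_6 (s1_2 p342_25),
   s5_6 (s1_2 p342_27),
   s5_6 (s1_2 p342_28),
   s5_6 (s1_2 p342_30),
   s5_6 (s1_2 p342_29),
   s5_6 (s1_2 p342_31)],
  [p342_48,
   p342_49,
   s5_6 (s1_2 p342_49),
   p342_51,
   p342_52,
   p342_53,
   s5_6 (s1_2 p342_53),
   p342_55],
  [p342_56,
   p342_57,
   s5_6 (s1_2 p342_57),
   p342_59,
   p342_60,
   p342_61,
   s5_6 (s1_2 p342_61),
   p342_63]]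

theorem k342 : eqNN c342 (slO 64 (D.chG 56 3) 8) = true := by decide +kernel

/-- The slices of the chunk 343. -/
noncomputable def c343 : List (List ℕ) := [
  [tr p340_4,
   p343_1,
   s5_6 (s1_2 p343_1),
   tr p342_4,
   p343_4,
   p343_5,
   s5_6 (s1_2 p343_5),
   p343_7],
  [p343_8,
   p343_9,
   s5_6 (s1_2 p343_9),
   p343_11,
   p343_12,
   p343_13,
   s5_6 (s1_2 p343_13),
   p343_15],
  [p343_16,
   p343_17,
   p343_18,
   p343_19,
   p343_20,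
   p343_21,
   p343_22,
   p343_23],
  [p343_24,
   p343_25,
   p343_26,
   p343_27,
   p343_28,
   p343_29,
   p343_30,
   p343_31],
  [s5_6 (s1_2 p343_16),
   s5_6 (s1_2 p343_18),
   s5_6 (s1_2 p343_17),
   s5_6 (s1_2 p343_19),
   s5_6 (s1_2 p343_20),
   s5_6 (s1_2 p343_22),
   s5_6 (s1_2 p343_21),
   s5_6 (s1_2 p343_23)],
  [s5_6 (s1_2 p343_24),
   s5_6 (s1_2 p343_26),
   s5_6 (s1_2 p343_25),
   s5_6 (s1_2 p343_27),
   s5_6 (s1_2 p343_28),
   s5_6 (s1_2 p343_30),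
   s5_6 (s1_2 p343_29),
   s5_6 (s1_2 p343_31)],
  [p343_48,
   p343_49,
   s5_6 (s1_2 p343_49),
   p343_51,
   p343_52,
   p343_53,
   s5_6 (s1_2 p343_53),
   p343_55],
  [p343_56,
   p343_57,
   s5_6 (s1_2 p343_57),
   p343_59,
   p343_60,
   p343_61,
   s5_6 (s1_2 p343_61),
   p343_63]]

theorem k343 : eqNN c343 (slO 64 (D.chG 56 4) 8) = true := by decide +kernel

end Pool.Agent.Lib.MP_afdd4d_co.K10.E6
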