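import Pool.Agent.Lib.MP_afdd4d_co.K10.E6.Dat
import Pool.Agent.Lib.MP_afdd4d_co.K10.E6.Mk
import Pool.Agent.Lib.MP_afdd4d_co.K8.F6Bl5
import Pool.Agent.Lib.MP_afdd4d_co.K10.E6.P0
import Pool.Agent.Lib.MP_afdd4d_co.K10.E6.P1
import Pool.Agent.Lib.MP_afdd4d_co.K10.E6.P2
import Pool.Agent.Lib.MP_afdd4d_co.K10.E6.P3
import Pool.Agent.Lib.MP_afdd4d_co.K10.E6.P4
import Pool.Agent.Lib.MP_afdd4d_co.K10.E6.P5
import Pool.Agent.Lib.MP_afdd4d_co.K10.E6.P6
import Pool.Agent.Lib.MP_afdd4d_co.K10.E6.P7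
import Pool.Agent.Lib.MP_afdd4d_co.K10.E6.P8
import Pool.Agent.Lib.MP_afdd4d_co.K10.E6.P9
import Pool.Agent.Lib.MP_afdd4d_co.K10.E6.P10
import Pool.Agent.Lib.MP_afdd4d_co.K10.E6.P11
import Pool.Agent.Lib.MP_afdd4d_co.K10.E6.P12
import Pool.Agent.Lib.MP_afdd4d_co.K10.E6.P13
import Pool.Agent.Lib.MP_afdd4d_co.K10.E6.P14
import Pool.Agent.Lib.MP_afdd4d_co.K10.E6.P15
import Pool.Agent.Lib.MP_afdd4d_co.K10.E6.P16
import Pool.Agent.Lib.MP_afdd4d_co.K10.E6.P17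
import Pool.Agent.Lib.MP_afdd4d_co.K10.E6.P18
import Pool.Agent.Lib.MP_afdd4d_co.K10.E6.P19
import Pool.Agent.Lib.MP_afdd4d_co.K10.E6.P20
import Pool.Agent.Lib.MP_afdd4d_co.K10.E6.P21
import Pool.Agent.Lib.MP_afdd4d_co.K10.E6.P22
import Pool.Agent.Lib.MP_afdd4d_co.K10.E6.P23
import Pool.Agent.Lib.MP_afdd4d_co.K10.E6.P24
import Pool.Agent.Lib.MP_afdd4d_co.K10.E6.P25
import Pool.Agent.Lib.MP_afdd4d_co.K10.E6.P26
import Pool.Agent.Lib.MP_afdd4d_co.K10.E6.P27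
import Pool.Agent.Lib.MP_afdd4d_co.K10.E6.P28
import Pool.Agent.Lib.MP_afdd4d_co.K10.E6.P29
import Pool.Agent.Lib.MP_afdd4d_co.K10.E6.P30
import Pool.Agent.Lib.MP_afdd4d_co.K10.E6.P31
import Pool.Agent.Lib.MP_afdd4d_co.K10.E6.P32

/-!
# Tables
-/

namespace Pool.Agent.Lib.MP_afdd4d_co.K10.E6

open K8

set_option maxRecDepth 100000
set_option exponentiation.threshold 10000000

/-- The slices of the chunk 344. -/
noncomputable def c344 : List (List ℕ) := [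
  [tr p340_5,
   tr p341_5,
   s3_7 (s2_5 (s1_6 (s0_4 p341_6))),
   tr p342_5,
   tr p343_5,
   p344_5,
   p344_6,
   tr p345_5],
  [tr p346_5,
   p344_9,
   p344_10,
   tr p348_5,
   tr p349_5,
   p344_13,
   p344_14,
   tr p351_5],
  [p344_16,
   p344_17,
   p344_18,
   p344_19,
   p344_20,
   p344_21,
   p344_22,
   p344_23],
  [p344_24,
   p344_25,
   p344_26,
   p344_27,
   p344_28,
   p344_29,
   p344_30,
   p344_31],
  [p344_32,
   p344_33,
   p344_34,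
   p344_35,
   p344_36,
   p344_37,
   p344_38,
   p344_39],
  [p344_40,
   p344_41,
   p344_42,
   p344_43,
   p344_44,
   p344_45,
   p344_46,
   p344_47],
  [tr p368_5,
   p344_49,
   p344_50,
   tr p370_5,
   tr p371_5,
   p344_53,
   p344_54,
   tr p373_5],
  [tr p374_5,
   p344_57,
   p344_58,
   tr p376_5,
   tr p377_5,
   p344_61,
   p344_62,
   tr p379_5]]

theorem k344 : eqNN c344 (slO 64 (D.chG 56 5) 8) = true := by decide +kernel

/-- The slices of the chunk 345. -/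
noncomputable def c345 : List (List ℕ) := [
  [tr p340_7,
   p345_1,
   s5_6 (s1_2 p345_1),
   tr p342_7,
   tr p343_7,
   p345_5,
   s5_6 (s1_2 p345_5),
   p345_7],
  [p345_8,
   p345_9,
   s5_6 (s1_2 p345_9),
   p345_11,
   p345_12,
   p345_13,
   s5_6 (s1_2 p345_13),
   p345_15],
  [p345_16,
   p345_17,
   p345_18,
   p345_19,
   p345_20,
   p345_21,
   p345_22,
   p345_23],
  [p345_24,
   p345_25,
   p345_26,
   p345_27,
   p345_28,
   p345_29,
   p345_30,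
   p345_31],
  [s5_6 (s1_2 p345_16),
   s5_6 (s1_2 p345_18),
   s5_6 (s1_2 p345_17),
   s5_6 (s1_2 p345_19),
   s5_6 (s1_2 p345_20),
   s5_6 (s1_2 p345_22),
   s5_6 (s1_2 p345_21),
   s5_6 (s1_2 p345_23)],
  [s5_6 (s1_2 p345_24),
   s5_6 (s1_2 p345_26),
   s5_6 (s1_2 p345_25),
   s5_6 (s1_2 p345_27),
   s5_6 (s1_2 p345_28),
   s5_6 (s1_2 p345_30),
   s5_6 (s1_2 p345_29),
   s5_6 (s1_2 p345_31)],
  [p345_48,
   p345_49,
   s5_6 (s1_2 p345_49),
   p345_51,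
   p345_52,
   p345_53,
   s5_6 (s1_2 p345_53),
   p345_55],
  [p345_56,
   p345_57,
   s5_6 (s1_2 p345_57),
   p345_59,
   p345_60,
   p345_61,
   s5_6 (s1_2 p345_61),
   p345_63]]

theorem k345 : eqNN c345 (slO 64 (D.chG 56 7) 8) = true := by decide +kernel

/-- The slices of the chunk 346. -/
noncomputable def c346 : List (List ℕ) := [
  [tr p340_8,
   p346_1,
   s5_6 (s1_2 p346_1),
   tr p342_8,
   tr p343_8,
   p346_5,
   s5_6 (s1_2 p346_5),
   tr p345_8],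
  [p346_8,
   p346_9,
   s5_6 (s1_2 p346_9),
   p346_11,
   p346_12,
   p346_13,
   s5_6 (s1_2 p346_13),
   p346_15],
  [p346_16,
   p346_17,
   p346_18,
   p346_19,
   p346_20,
   p346_21,
   p346_22,
   p346_23],
  [p346_24,
   p346_25,
   p346_26,
   p346_27,
   p346_28,
   p346_29,
   p346_30,
   p346_31],
  [s5_6 (s1_2 p346_16),
   s5_6 (s1_2 p346_18),
   s5_6 (s1_2 p346_17),
   s5_6 (s1_2 p346_19),
   s5_6 (s1_2 p346_20),
   s5_6 (s1_2 p346_22),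
   s5_6 (s1_2 p346_21),
   s5_6 (s1_2 p346_23)],
  [s5_6 (s1_2 p346_24),
   s5_6 (s1_2 p346_26),
   s5_6 (s1_2 p346_25),
   s5_6 (s1_2 p346_27),
   s5_6 (s1_2 p346_28),
   s5_6 (s1_2 p346_30),
   s5_6 (s1_2 p346_29),
   s5_6 (s1_2 p346_31)],
  [p346_48,
   p346_49,
   s5_6 (s1_2 p346_49),
   p346_51,
   p346_52,
   p346_53,
   s5_6 (s1_2 p346_53),
   p346_55],
  [p346_56,
   p346_57,
   s5_6 (s1_2 p346_57),
   p346_59,
   p346_60,
   p346_61,
   s5_6 (s1_2 p346_61),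
   p346_63]]

theorem k346 : eqNN c346 (slO 64 (D.chG 56 8) 8) = true := by decide +kernel

/-- The slices of the chunk 347. -/
noncomputable def c347 : List (List ℕ) := [
  [tr p340_9,
   tr p341_9,
   s3_7 (s2_5 (s1_6 (s0_4 p341_10))),
   tr p342_9,
   tr p343_9,
   tr p344_9,
   s3_7 (s2_5 (s1_6 (s0_4 p344_10))),
   tr p345_9],
  [tr p346_9,
   p347_9,
   p347_10,
   tr p348_9,
   tr p349_9,
   p347_13,
   p347_14,
   tr p351_9],
  [p347_16,
   p347_17,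
   p347_18,
   p347_19,
   p347_20,
   p347_21,
   p347_22,
   p347_23],
  [p347_24,
   p347_25,
   p347_26,
   p347_27,
   p347_28,
   p347_29,
   p347_30,
   p347_31],
  [p347_32,
   p347_33,
   p347_34,
   p347_35,
   p347_36,
   p347_37,
   p347_38,
   p347_39],
  [p347_40,
   p347_41,
   p347_42,
   p347_43,
   p347_44,
   p347_45,
   p347_46,
   p347_47],
  [tr p368_9,
   p347_49,
   p347_50,
   tr p370_9,
   tr p371_9,
   p347_53,
   p347_54,
   tr p373_9],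
  [tr p374_9,
   p347_57,
   p347_58,
   tr p376_9,
   tr p377_9,
   p347_61,
   p347_62,
   tr p379_9]]

theorem k347 : eqNN c347 (slO 64 (D.chG 56 9) 8) = true := by decide +kernel

end Pool.Agent.Lib.MP_afdd4d_co.K10.E6
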