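import Pool.Agent.Lib.MP_afdd4d_co.K10.E6.Dat
import Pool.Agent.Lib.MP_afdd4d_co.K10.E6.Mk
import Pool.Agent.Lib.MP_afdd4d_co.K8.F6Bl5
import Pool.Agent.Lib.MP_afdd4d_co.K10.E6.P0
import Pool.Agent.Lib.MP_afdd4d_co.K10.E6.P1
import Pool.Agent.Lib.MP_afdd4d_co.K10.E6.P2
import Pool.Agent.Lib.MP_afdd4d_co.K10.E6.P3
import Pool.Agent.Lib.MP_afdd4d_co.K10.E6.P4
import Pool.Agent.Lib.MP_afdd4d_co.K10.E6.P5
import Pool.Agent.Lib.MP_afdd4d_co.K10.E6.P6
import Pool.Agent.Lib.MP_afdd4d_co.K10.E6.P7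
import Pool.Agent.Lib.MP_afdd4d_co.K10.E6.P8
import Pool.Agent.Lib.MP_afdd4d_co.K10.E6.P9
import Pool.Agent.Lib.MP_afdd4d_co.K10.E6.P10
import Pool.Agent.Lib.MP_afdd4d_co.K10.E6.P11
import Pool.Agent.Lib.MP_afdd4d_co.K10.E6.P12
import Pool.Agent.Lib.MP_afdd4d_co.K10.E6.P13
import Pool.Agent.Lib.MP_afdd4d_co.K10.E6.P14
import Pool.Agent.Lib.MP_afdd4d_co.K10.E6.P15
import Pool.Agent.Lib.MP_afdd4d_co.K10.E6.P16
import Pool.Agent.Lib.MP_afdd4d_co.K10.E6.P17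
import Pool.Agent.Lib.MP_afdd4d_co.K10.E6.P18
import Pool.Agent.Lib.MP_afdd4d_co.K10.E6.P19
import Pool.Agent.Lib.MP_afdd4d_co.K10.E6.P20
import Pool.Agent.Lib.MP_afdd4d_co.K10.E6.P21
import Pool.Agent.Lib.MP_afdd4d_co.K10.E6.P22
import Pool.Agent.Lib.MP_afdd4d_co.K10.E6.P23
import Pool.Agent.Lib.MP_afdd4d_co.K10.E6.P24
import Pool.Agent.Lib.MP_afdd4d_co.K10.E6.P25
import Pool.Agent.Lib.MP_afdd4d_co.K10.E6.P26
import Pool.Agent.Lib.MP_afdd4d_co.K10.E6.P27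
import Pool.Agent.Lib.MP_afdd4d_co.K10.E6.P28
import Pool.Agent.Lib.MP_afdd4d_co.K10.E6.P29
import Pool.Agent.Lib.MP_afdd4d_co.K10.E6.P30
import Pool.Agent.Lib.MP_afdd4d_co.K10.E6.P31
import Pool.Agent.Lib.MP_afdd4d_co.K10.E6.P32

/-!
# Tables
-/

namespace Pool.Agent.Lib.MP_afdd4d_co.K10.E6

open K8

set_option maxRecDepth 100000
set_option exponentiation.threshold 10000000

/-- The slices of the chunk 348. -/
noncomputable def c348 : List (List ℕ) := [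
  [tr p340_11,
   p348_1,
   s5_6 (s1_2 p348_1),
   tr p342_11,
   tr p343_11,
   p348_5,
   s5_6 (s1_2 p348_5),
   tr p345_11],
  [tr p346_11,
   p348_9,
   s5_6 (s1_2 p348_9),
   p348_11,
   p348_12,
   p348_13,
   s5_6 (s1_2 p348_13),
   p348_15],
  [p348_16,
   p348_17,
   p348_18,
   p348_19,
   p348_20,
   p348_21,
   p348_22,
   p348_23],
  [p348_24,
   p348_25,
   p348_26,
   p348_27,
   p348_28,
   p348_29,
   p348_30,
   p348_31],
  [s5_6 (s1_2 p348_16),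
   s5_6 (s1_2 p348_18),
   s5_6 (s1_2 p348_17),
   s5_6 (s1_2 p348_19),
   s5_6 (s1_2 p348_20),
   s5_6 (s1_2 p348_22),
   s5_6 (s1_2 p348_21),
   s5_6 (s1_2 p348_23)],
  [s5_6 (s1_2 p348_24),
   s5_6 (s1_2 p348_26),
   s5_6 (s1_2 p348_25),
   s5_6 (s1_2 p348_27),
   s5_6 (s1_2 p348_28),
   s5_6 (s1_2 p348_30),
   s5_6 (s1_2 p348_29),
   s5_6 (s1_2 p348_31)],
  [p348_48,
   p348_49,
   s5_6 (s1_2 p348_49),
   p348_51,
   p348_52,
   p348_53,
   s5_6 (s1_2 p348_53),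
   p348_55],
  [p348_56,
   p348_57,
   s5_6 (s1_2 p348_57),
   p348_59,
   p348_60,
   p348_61,
   s5_6 (s1_2 p348_61),
   p348_63]]

theorem k348 : eqNN c348 (slO 64 (D.chG 56 11) 8) = true := by decide +kernel

/-- The slices of the chunk 349. -/
noncomputable def c349 : List (List ℕ) := [
  [tr p340_12,
   p349_1,
   s5_6 (s1_2 p349_1),
   tr p342_12,
   tr p343_12,
   p349_5,
   s5_6 (s1_2 p349_5),
   tr p345_12],
  [tr p346_12,
   p349_9,
   s5_6 (s1_2 p349_9),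
   tr p348_12,
   p349_12,
   p349_13,
   s5_6 (s1_2 p349_13),
   p349_15],
  [p349_16,
   p349_17,
   p349_18,
   p349_19,
   p349_20,
   p349_21,
   p349_22,
   p349_23],
  [p349_24,
   p349_25,
   p349_26,
   p349_27,
   p349_28,
   p349_29,
   p349_30,
   p349_31],
  [s5_6 (s1_2 p349_16),
   s5_6 (s1_2 p349_18),
   s5_6 (s1_2 p349_17),
   s5_6 (s1_2 p349_19),
   s5_6 (s1_2 p349_20),
   s5_6 (s1_2 p349_22),
   s5_6 (s1_2 p349_21),
   s5_6 (s1_2 p349_23)],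
  [s5_6 (s1_2 p349_24),
   s5_6 (s1_2 p349_26),
   s5_6 (s1_2 p349_25),
   s5_6 (s1_2 p349_27),
   s5_6 (s1_2 p349_28),
   s5_6 (s1_2 p349_30),
   s5_6 (s1_2 p349_29),
   s5_6 (s1_2 p349_31)],
  [p349_48,
   p349_49,
   s5_6 (s1_2 p349_49),
   p349_51,
   p349_52,
   p349_53,
   s5_6 (s1_2 p349_53),
   p349_55],
  [p349_56,
   p349_57,
   s5_6 (s1_2 p349_57),
   p349_59,
   p349_60,
   p349_61,
   s5_6 (s1_2 p349_61),
   p349_63]]

theorem k349 : eqNN c349 (slO 64 (D.chG 56 12) 8) = true := by decide +kernel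

/-- The slices of the chunk 350. -/
noncomputable def c350 : List (List ℕ) := [
  [tr p340_13,
   tr p341_13,
   s3_7 (s2_5 (s1_6 (s0_4 p341_14))),
   tr p342_13,
   tr p343_13,
   tr p344_13,
   s3_7 (s2_5 (s1_6 (s0_4 p344_14))),
   tr p345_13],
  [tr p346_13,
   tr p347_13,
   s3_7 (s2_5 (s1_6 (s0_4 p347_14))),
   tr p348_13,
   tr p349_13,
   p350_13,
   p350_14,
   tr p351_13],
  [p350_16,
   p350_17,
   p350_18,
   p350_19,
   p350_20,
   p350_21,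
   p350_22,
   p350_23],
  [p350_24,
   p350_25,
   p350_26,
   p350_27,
   p350_28,
   p350_29,
   p350_30,
   p350_31],
  [p350_32,
   p350_33,
   p350_34,
   p350_35,
   p350_36,
   p350_37,
   p350_38,
   p350_39],
  [p350_40,
   p350_41,
   p350_42,
   p350_43,
   p350_44,
   p350_45,
   p350_46,
   p350_47],
  [tr p368_13,
   p350_49,
   p350_50,
   tr p370_13,
   tr p371_13,
   p350_53,
   p350_54,
   tr p373_13],
  [tr p374_13,
   p350_57,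
   p350_58,
   tr p376_13,
   tr p377_13,
   p350_61,
   p350_62,
   tr p379_13]]

theorem k350 : eqNN c350 (slO 64 (D.chG 56 13) 8) = true := by decide +kernel

/-- The slices of the chunk 351. -/
noncomputable def c351 : List (List ℕ) := [
  [tr p340_15,
   p351_1,
   s5_6 (s1_2 p351_1),
   tr p342_15,
   tr p343_15,
   p351_5,
   s5_6 (s1_2 p351_5),
   tr p345_15],
  [tr p346_15,
   p351_9,
   s5_6 (s1_2 p351_9),
   tr p348_15,
   tr p349_15,
   p351_13,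
   s5_6 (s1_2 p351_13),
   p351_15],
  [p351_16,
   p351_17,
   p351_18,
   p351_19,
   p351_20,
   p351_21,
   p351_22,
   p351_23],
  [p351_24,
   p351_25,
   p351_26,
   p351_27,
   p351_28,
   p351_29,
   p351_30,
   p351_31],
  [s5_6 (s1_2 p351_16),
   s5_6 (s1_2 p351_18),
   s5_6 (s1_2 p351_17),
   s5_6 (s1_2 p351_19),
   s5_6 (s1_2 p351_20),
   s5_6 (s1_2 p351_22),
   s5_6 (s1_2 p351_21),
   s5_6 (s1_2 p351_23)],
  [s5_6 (s1_2 p351_24),
   s5_6 (s1_2 p351_26),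
   s5_6 (s1_2 p351_25),
   s5_6 (s1_2 p351_27),
   s5_6 (s1_2 p351_28),
   s5_6 (s1_2 p351_30),
   s5_6 (s1_2 p351_29),
   s5_6 (s1_2 p351_31)],
  [p351_48,
   p351_49,
   s5_6 (s1_2 p351_49),
   p351_51,
   p351_52,
   p351_53,
   s5_6 (s1_2 p351_53),
   p351_55],
  [p351_56,
   p351_57,
   s5_6 (s1_2 p351_57),
   p351_59,
   p351_60,
   p351_61,
   s5_6 (s1_2 p351_61),
   p351_63]]

theorem k351 : eqNN c351 (slO 64 (D.chG 56 15) 8) = true := by decide +kernel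

end Pool.Agent.Lib.MP_afdd4d_co.K10.E6
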