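import Pool.Agent.Lib.MP_afdd4d_co.K10.E6.Dat
import Pool.Agent.Lib.MP_afdd4d_co.K10.E6.Mk
import Pool.Agent.Lib.MP_afdd4d_co.K8.F6Bl5
import Pool.Agent.Lib.MP_afdd4d_co.K10.E6.P0
import Pool.Agent.Lib.MP_afdd4d_co.K10.E6.P1
import Pool.Agent.Lib.MP_afdd4d_co.K10.E6.P2
import Pool.Agent.Lib.MP_afdd4d_co.K10.E6.P3
import Pool.Agent.Lib.MP_afdd4d_co.K10.E6.P4
import Pool.Agent.Lib.MP_afdd4d_co.K10.E6.P5
import Pool.Agent.Lib.MP_afdd4d_co.K10.E6.P6
import Pool.Agent.Lib.MP_afdd4d_co.K10.E6.P7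
import Pool.Agent.Lib.MP_afdd4d_co.K10.E6.P8
import Pool.Agent.Lib.MP_afdd4d_co.K10.E6.P9
import Pool.Agent.Lib.MP_afdd4d_co.K10.E6.P10
import Pool.Agent.Lib.MP_afdd4d_co.K10.E6.P11
import Pool.Agent.Lib.MP_afdd4d_co.K10.E6.P12
import Pool.Agent.Lib.MP_afdd4d_co.K10.E6.P13
import Pool.Agent.Lib.MP_afdd4d_co.K10.E6.P14
import Pool.Agent.Lib.MP_afdd4d_co.K10.E6.P15
import Pool.Agent.Lib.MP_afdd4d_co.K10.E6.P16
import Pool.Agent.Lib.MP_afdd4d_co.K10.E6.P17
import Pool.Agent.Lib.MP_afdd4d_co.K10.E6.P18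
import Pool.Agent.Lib.MP_afdd4d_co.K10.E6.P19
import Pool.Agent.Lib.MP_afdd4d_co.K10.E6.P20
import Pool.Agent.Lib.MP_afdd4d_co.K10.E6.P21
import Pool.Agent.Lib.MP_afdd4d_co.K10.E6.P22
import Pool.Agent.Lib.MP_afdd4d_co.K10.E6.P23
import Pool.Agent.Lib.MP_afdd4d_co.K10.E6.P24
import Pool.Agent.Lib.MP_afdd4d_co.K10.E6.P25
import Pool.Agent.Lib.MP_afdd4d_co.K10.E6.P26
import Pool.Agent.Lib.MP_afdd4d_co.K10.E6.P27
import Pool.Agent.Lib.MP_afdd4d_co.K10.E6.P28
import Pool.Agent.Lib.MP_afdd4d_co.K10.E6.P29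
import Pool.Agent.Lib.MP_afdd4d_co.K10.E6.P30
import Pool.Agent.Lib.MP_afdd4d_co.K10.E6.P31
import Pool.Agent.Lib.MP_afdd4d_co.K10.E6.P32

/-!
# Tables
-/

namespace Pool.Agent.Lib.MP_afdd4d_co.K10.E6

open K8

set_option maxRecDepth 100000
set_option exponentiation.threshold 10000000

/-- The slices of the chunk 352. -/
noncomputable def c352 : List (List ℕ) := [
  [tr p340_16,
   tr p341_16,
   s3_7 (s2_5 (s1_6 (s0_4 p341_32))),
   tr p342_16,
   tr p343_16,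
   tr p344_16,
   s3_7 (s2_5 (s1_6 (s0_4 p344_32))),
   tr p345_16],
  [tr p346_16,
   tr p347_16,
   s3_7 (s2_5 (s1_6 (s0_4 p347_32))),
   tr p348_16,
   tr p349_16,
   tr p350_16,
   s3_7 (s2_5 (s1_6 (s0_4 p350_32))),
   tr p351_16],
  [p352_16,
   p352_17,
   p352_18,
   p352_19,
   p352_20,
   p352_21,
   p352_22,
   p352_23],
  [p352_24,
   p352_25,
   p352_26,
   p352_27,
   p352_28,
   p352_29,
   p352_30,
   p352_31],
  [p352_32,
   p352_33,
   p352_34,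
   p352_35,
   p352_36,
   p352_37,
   p352_38,
   p352_39],
  [p352_40,
   p352_41,
   p352_42,
   p352_43,
   p352_44,
   p352_45,
   p352_46,
   p352_47],
  [tr p368_16,
   p352_49,
   p352_50,
   tr p370_16,
   tr p371_16,
   p352_53,
   p352_54,
   tr p373_16],
  [tr p374_16,
   p352_57,
   p352_58,
   tr p376_16,
   tr p377_16,
   p352_61,
   p352_62,
   tr p379_16]]

theorem k352 : eqNN c352 (slO 64 (D.chG 56 16) 8) = true := by decide +kernel

/-- The slices of the chunk 353. -/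
noncomputable def c353 : List (List ℕ) := [
  [tr p340_17,
   tr p341_17,
   s3_7 (s2_5 (s1_6 (s0_4 p341_34))),
   tr p342_17,
   tr p343_17,
   tr p344_17,
   s3_7 (s2_5 (s1_6 (s0_4 p344_34))),
   tr p345_17],
  [tr p346_17,
   tr p347_17,
   s3_7 (s2_5 (s1_6 (s0_4 p347_34))),
   tr p348_17,
   tr p349_17,
   tr p350_17,
   s3_7 (s2_5 (s1_6 (s0_4 p350_34))),
   tr p351_17],
  [tr p352_17,
   p353_17,
   p353_18,
   p353_19,
   p353_20,
   p353_21,
   p353_22,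
   p353_23],
  [p353_24,
   p353_25,
   p353_26,
   p353_27,
   p353_28,
   p353_29,
   p353_30,
   p353_31],
  [s3_7 (s2_5 (s1_6 (s0_4 p352_34))),
   p353_33,
   p353_34,
   p353_35,
   p353_36,
   p353_37,
   p353_38,
   p353_39],
  [p353_40,
   p353_41,
   p353_42,
   p353_43,
   p353_44,
   p353_45,
   p353_46,
   p353_47],
  [tr p368_17,
   p353_49,
   p353_50,
   tr p370_17,
   tr p371_17,
   p353_53,
   p353_54,
   tr p373_17],
  [tr p374_17,
   p353_57,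
   p353_58,
   tr p376_17,
   tr p377_17,
   p353_61,
   p353_62,
   tr p379_17]]

theorem k353 : eqNN c353 (slO 64 (D.chG 56 17) 8) = true := by decide +kernel

/-- The slices of the chunk 354. -/
noncomputable def c354 : List (List ℕ) := [
  [tr p340_18,
   tr p341_18,
   s3_7 (s2_5 (s1_6 (s0_4 p341_33))),
   tr p342_18,
   tr p343_18,
   tr p344_18,
   s3_7 (s2_5 (s1_6 (s0_4 p344_33))),
   tr p345_18],
  [tr p346_18,
   tr p347_18,
   s3_7 (s2_5 (s1_6 (s0_4 p347_33))),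
   tr p348_18,
   tr p349_18,
   tr p350_18,
   s3_7 (s2_5 (s1_6 (s0_4 p350_33))),
   tr p351_18],
  [tr p352_18,
   tr p353_18,
   p354_18,
   p354_19,
   p354_20,
   p354_21,
   p354_22,
   p354_23],
  [p354_24,
   p354_25,
   p354_26,
   p354_27,
   p354_28,
   p354_29,
   p354_30,
   p354_31],
  [s3_7 (s2_5 (s1_6 (s0_4 p352_33))),
   p354_33,
   s3_7 (s2_5 (s1_6 (s0_4 p353_33))),
   p354_35,
   p354_36,
   p354_37,
   p354_38,
   p354_39],
  [p354_40,
   p354_41,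
   p354_42,
   p354_43,
   p354_44,
   p354_45,
   p354_46,
   p354_47],
  [tr p368_18,
   p354_49,
   p354_50,
   tr p370_18,
   tr p371_18,
   p354_53,
   p354_54,
   tr p373_18],
  [tr p374_18,
   p354_57,
   p354_58,
   tr p376_18,
   tr p377_18,
   p354_61,
   p354_62,
   tr p379_18]]

theorem k354 : eqNN c354 (slO 64 (D.chG 56 18) 8) = true := by decide +kernel

/-- The slices of the chunk 355. -/
noncomputable def c355 : List (List ℕ) := [
  [tr p340_19,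
   tr p341_19,
   s3_7 (s2_5 (s1_6 (s0_4 p341_35))),
   tr p342_19,
   tr p343_19,
   tr p344_19,
   s3_7 (s2_5 (s1_6 (s0_4 p344_35))),
   tr p345_19],
  [tr p346_19,
   tr p347_19,
   s3_7 (s2_5 (s1_6 (s0_4 p347_35))),
   tr p348_19,
   tr p349_19,
   tr p350_19,
   s3_7 (s2_5 (s1_6 (s0_4 p350_35))),
   tr p351_19],
  [tr p352_19,
   tr p353_19,
   tr p354_19,
   p355_19,
   p355_20,
   p355_21,
   p355_22,
   p355_23],
  [p355_24,
   p355_25,
   p355_26,
   p355_27,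
   p355_28,
   p355_29,
   p355_30,
   p355_31],
  [s3_7 (s2_5 (s1_6 (s0_4 p352_35))),
   s3_7 (s2_5 (s1_6 (s0_4 p354_35))),
   s3_7 (s2_5 (s1_6 (s0_4 p353_35))),
   p355_35,
   p355_36,
   p355_37,
   p355_38,
   p355_39],
  [p355_40,
   p355_41,
   p355_42,
   p355_43,
   p355_44,
   p355_45,
   p355_46,
   p355_47],
  [tr p368_19,
   p355_49,
   p355_50,
   tr p370_19,
   tr p371_19,
   p355_53,
   p355_54,
   tr p373_19],
  [tr p374_19,
   p355_57,
   p355_58,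
   tr p376_19,
   tr p377_19,
   p355_61,
   p355_62,
   tr p379_19]]

theorem k355 : eqNN c355 (slO 64 (D.chG 56 19) 8) = true := by decide +kernel

end Pool.Agent.Lib.MP_afdd4d_co.K10.E6
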