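import Pool.Agent.Lib.MP_afdd4d_co.K10.E6.Dat
import Pool.Agent.Lib.MP_afdd4d_co.K10.E6.Mk
import Pool.Agent.Lib.MP_afdd4d_co.K8.F6Bl5
import Pool.Agent.Lib.MP_afdd4d_co.K10.E6.P0
import Pool.Agent.Lib.MP_afdd4d_co.K10.E6.P1
import Pool.Agent.Lib.MP_afdd4d_co.K10.E6.P2
import Pool.Agent.Lib.MP_afdd4d_co.K10.E6.P3
import Pool.Agent.Lib.MP_afdd4d_co.K10.E6.P4
import Pool.Agent.Lib.MP_afdd4d_co.K10.E6.P5
import Pool.Agent.Lib.MP_afdd4d_co.K10.E6.P6
import Pool.Agent.Lib.MP_afdd4d_co.K10.E6.P7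
import Pool.Agent.Lib.MP_afdd4d_co.K10.E6.P8
import Pool.Agent.Lib.MP_afdd4d_co.K10.E6.P9
import Pool.Agent.Lib.MP_afdd4d_co.K10.E6.P10
import Pool.Agent.Lib.MP_afdd4d_co.K10.E6.P11
import Pool.Agent.Lib.MP_afdd4d_co.K10.E6.P12
import Pool.Agent.Lib.MP_afdd4d_co.K10.E6.P13
import Pool.Agent.Lib.MP_afdd4d_co.K10.E6.P14
import Pool.Agent.Lib.MP_afdd4d_co.K10.E6.P15
import Pool.Agent.Lib.MP_afdd4d_co.K10.E6.P16
import Pool.Agent.Lib.MP_afdd4d_co.K10.E6.P17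
import Pool.Agent.Lib.MP_afdd4d_co.K10.E6.P18
import Pool.Agent.Lib.MP_afdd4d_co.K10.E6.P19
import Pool.Agent.Lib.MP_afdd4d_co.K10.E6.P20
import Pool.Agent.Lib.MP_afdd4d_co.K10.E6.P21
import Pool.Agent.Lib.MP_afdd4d_co.K10.E6.P22
import Pool.Agent.Lib.MP_afdd4d_co.K10.E6.P23
import Pool.Agent.Lib.MP_afdd4d_co.K10.E6.P24
import Pool.Agent.Lib.MP_afdd4d_co.K10.E6.P25
import Pool.Agent.Lib.MP_afdd4d_co.K10.E6.P26
import Pool.Agent.Lib.MP_afdd4d_co.K10.E6.P27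
import Pool.Agent.Lib.MP_afdd4d_co.K10.E6.P28
import Pool.Agent.Lib.MP_afdd4d_co.K10.E6.P29
import Pool.Agent.Lib.MP_afdd4d_co.K10.E6.P30
import Pool.Agent.Lib.MP_afdd4d_co.K10.E6.P31
import Pool.Agent.Lib.MP_afdd4d_co.K10.E6.P32

/-!
# Tables
-/

namespace Pool.Agent.Lib.MP_afdd4d_co.K10.E6

open K8

set_option maxRecDepth 100000
set_option exponentiation.threshold 10000000

/-- The slices of the chunk 356. -/
noncomputable def c356 : List (List ℕ) := [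
  [tr p340_20,
   tr p341_20,
   s3_7 (s2_5 (s1_6 (s0_4 p341_36))),
   tr p342_20,
   tr p343_20,
   tr p344_20,
   s3_7 (s2_5 (s1_6 (s0_4 p344_36))),
   tr p345_20],
  [tr p346_20,
   tr p347_20,
   s3_7 (s2_5 (s1_6 (s0_4 p347_36))),
   tr p348_20,
   tr p349_20,
   tr p350_20,
   s3_7 (s2_5 (s1_6 (s0_4 p350_36))),
   tr p351_20],
  [tr p352_20,
   tr p353_20,
   tr p354_20,
   tr p355_20,
   p356_20,
   p356_21,
   p356_22,
   p356_23],
  [p356_24,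
   p356_25,
   p356_26,
   p356_27,
   p356_28,
   p356_29,
   p356_30,
   p356_31],
  [s3_7 (s2_5 (s1_6 (s0_4 p352_36))),
   s3_7 (s2_5 (s1_6 (s0_4 p354_36))),
   s3_7 (s2_5 (s1_6 (s0_4 p353_36))),
   s3_7 (s2_5 (s1_6 (s0_4 p355_36))),
   p356_36,
   p356_37,
   p356_38,
   p356_39],
  [p356_40,
   p356_41,
   p356_42,
   p356_43,
   p356_44,
   p356_45,
   p356_46,
   p356_47],
  [tr p368_20,
   p356_49,
   p356_50,
   tr p370_20,
   tr p371_20,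
   p356_53,
   p356_54,
   tr p373_20],
  [tr p374_20,
   p356_57,
   p356_58,
   tr p376_20,
   tr p377_20,
   p356_61,
   p356_62,
   tr p379_20]]

theorem k356 : eqNN c356 (slO 64 (D.chG 56 20) 8) = true := by decide +kernel

/-- The slices of the chunk 357. -/
noncomputable def c357 : List (List ℕ) := [
  [tr p340_21,
   tr p341_21,
   s3_7 (s2_5 (s1_6 (s0_4 p341_38))),
   tr p342_21,
   tr p343_21,
   tr p344_21,
   s3_7 (s2_5 (s1_6 (s0_4 p344_38))),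
   tr p345_21],
  [tr p346_21,
   tr p347_21,
   s3_7 (s2_5 (s1_6 (s0_4 p347_38))),
   tr p348_21,
   tr p349_21,
   tr p350_21,
   s3_7 (s2_5 (s1_6 (s0_4 p350_38))),
   tr p351_21],
  [tr p352_21,
   tr p353_21,
   tr p354_21,
   tr p355_21,
   tr p356_21,
   p357_21,
   p357_22,
   p357_23],
  [p357_24,
   p357_25,
   p357_26,
   p357_27,
   p357_28,
   p357_29,
   p357_30,
   p357_31],
  [s3_7 (s2_5 (s1_6 (s0_4 p352_38))),
   s3_7 (s2_5 (s1_6 (s0_4 p354_38))),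
   s3_7 (s2_5 (s1_6 (s0_4 p353_38))),
   s3_7 (s2_5 (s1_6 (s0_4 p355_38))),
   s3_7 (s2_5 (s1_6 (s0_4 p356_38))),
   p357_37,
   p357_38,
   p357_39],
  [p357_40,
   p357_41,
   p357_42,
   p357_43,
   p357_44,
   p357_45,
   p357_46,
   p357_47],
  [tr p368_21,
   p357_49,
   p357_50,
   tr p370_21,
   tr p371_21,
   p357_53,
   p357_54,
   tr p373_21],
  [tr p374_21,
   p357_57,
   p357_58,
   tr p376_21,
   tr p377_21,
   p357_61,
   p357_62,
   tr p379_21]]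

theorem k357 : eqNN c357 (slO 64 (D.chG 56 21) 8) = true := by decide +kernel

/-- The slices of the chunk 358. -/
noncomputable def c358 : List (List ℕ) := [
  [tr p340_22,
   tr p341_22,
   s3_7 (s2_5 (s1_6 (s0_4 p341_37))),
   tr p342_22,
   tr p343_22,
   tr p344_22,
   s3_7 (s2_5 (s1_6 (s0_4 p344_37))),
   tr p345_22],
  [tr p346_22,
   tr p347_22,
   s3_7 (s2_5 (s1_6 (s0_4 p347_37))),
   tr p348_22,
   tr p349_22,
   tr p350_22,
   s3_7 (s2_5 (s1_6 (s0_4 p350_37))),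
   tr p351_22],
  [tr p352_22,
   tr p353_22,
   tr p354_22,
   tr p355_22,
   tr p356_22,
   tr p357_22,
   p358_22,
   p358_23],
  [p358_24,
   p358_25,
   p358_26,
   p358_27,
   p358_28,
   p358_29,
   p358_30,
   p358_31],
  [s3_7 (s2_5 (s1_6 (s0_4 p352_37))),
   s3_7 (s2_5 (s1_6 (s0_4 p354_37))),
   s3_7 (s2_5 (s1_6 (s0_4 p353_37))),
   s3_7 (s2_5 (s1_6 (s0_4 p355_37))),
   s3_7 (s2_5 (s1_6 (s0_4 p356_37))),
   p358_37,
   s3_7 (s2_5 (s1_6 (s0_4 p357_37))),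
   p358_39],
  [p358_40,
   p358_41,
   p358_42,
   p358_43,
   p358_44,
   p358_45,
   p358_46,
   p358_47],
  [tr p368_22,
   p358_49,
   p358_50,
   tr p370_22,
   tr p371_22,
   p358_53,
   p358_54,
   tr p373_22],
  [tr p374_22,
   p358_57,
   p358_58,
   tr p376_22,
   tr p377_22,
   p358_61,
   p358_62,
   tr p379_22]]

theorem k358 : eqNN c358 (slO 64 (D.chG 56 22) 8) = true := by decide +kernel

/-- The slices of the chunk 359. -/
noncomputable def c359 : List (List ℕ) := [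
  [tr p340_23,
   tr p341_23,
   s3_7 (s2_5 (s1_6 (s0_4 p341_39))),
   tr p342_23,
   tr p343_23,
   tr p344_23,
   s3_7 (s2_5 (s1_6 (s0_4 p344_39))),
   tr p345_23],
  [tr p346_23,
   tr p347_23,
   s3_7 (s2_5 (s1_6 (s0_4 p347_39))),
   tr p348_23,
   tr p349_23,
   tr p350_23,
   s3_7 (s2_5 (s1_6 (s0_4 p350_39))),
   tr p351_23],
  [tr p352_23,
   tr p353_23,
   tr p354_23,
   tr p355_23,
   tr p356_23,
   tr p357_23,
   tr p358_23,
   p359_23],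
  [p359_24,
   p359_25,
   p359_26,
   p359_27,
   p359_28,
   p359_29,
   p359_30,
   p359_31],
  [s3_7 (s2_5 (s1_6 (s0_4 p352_39))),
   s3_7 (s2_5 (s1_6 (s0_4 p354_39))),
   s3_7 (s2_5 (s1_6 (s0_4 p353_39))),
   s3_7 (s2_5 (s1_6 (s0_4 p355_39))),
   s3_7 (s2_5 (s1_6 (s0_4 p356_39))),
   s3_7 (s2_5 (s1_6 (s0_4 p358_39))),
   s3_7 (s2_5 (s1_6 (s0_4 p357_39))),
   p359_39],
  [p359_40,
   p359_41,
   p359_42,
   p359_43,
   p359_44,
   p359_45,
   p359_46,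
   p359_47],
  [tr p368_23,
   p359_49,
   p359_50,
   tr p370_23,
   tr p371_23,
   p359_53,
   p359_54,
   tr p373_23],
  [tr p374_23,
   p359_57,
   p359_58,
   tr p376_23,
   tr p377_23,
   p359_61,
   p359_62,
   tr p379_23]]

theorem k359 : eqNN c359 (slO 64 (D.chG 56 23) 8) = true := by decide +kernel

end Pool.Agent.Lib.MP_afdd4d_co.K10.E6
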