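import Pool.Agent.Lib.MP_afdd4d_co.K10.E6.Dat
import Pool.Agent.Lib.MP_afdd4d_co.K10.E6.Mk
import Pool.Agent.Lib.MP_afdd4d_co.K8.F6Bl5
import Pool.Agent.Lib.MP_afdd4d_co.K10.E6.P0
import Pool.Agent.Lib.MP_afdd4d_co.K10.E6.P1
import Pool.Agent.Lib.MP_afdd4d_co.K10.E6.P2
import Pool.Agent.Lib.MP_afdd4d_co.K10.E6.P3
import Pool.Agent.Lib.MP_afdd4d_co.K10.E6.P4
import Pool.Agent.Lib.MP_afdd4d_co.K10.E6.P5
import Pool.Agent.Lib.MP_afdd4d_co.K10.E6.P6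
import Pool.Agent.Lib.MP_afdd4d_co.K10.E6.P7
import Pool.Agent.Lib.MP_afdd4d_co.K10.E6.P8
import Pool.Agent.Lib.MP_afdd4d_co.K10.E6.P9
import Pool.Agent.Lib.MP_afdd4d_co.K10.E6.P10
import Pool.Agent.Lib.MP_afdd4d_co.K10.E6.P11
import Pool.Agent.Lib.MP_afdd4d_co.K10.E6.P12
import Pool.Agent.Lib.MP_afdd4d_co.K10.E6.P13
import Pool.Agent.Lib.MP_afdd4d_co.K10.E6.P14
import Pool.Agent.Lib.MP_afdd4d_co.K10.E6.P15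
import Pool.Agent.Lib.MP_afdd4d_co.K10.E6.P16
import Pool.Agent.Lib.MP_afdd4d_co.K10.E6.P17
import Pool.Agent.Lib.MP_afdd4d_co.K10.E6.P18
import Pool.Agent.Lib.MP_afdd4d_co.K10.E6.P19
import Pool.Agent.Lib.MP_afdd4d_co.K10.E6.P20
import Pool.Agent.Lib.MP_afdd4d_co.K10.E6.P21
import Pool.Agent.Lib.MP_afdd4d_co.K10.E6.P22
import Pool.Agent.Lib.MP_afdd4d_co.K10.E6.P23
import Pool.Agent.Lib.MP_afdd4d_co.K10.E6.P24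
import Pool.Agent.Lib.MP_afdd4d_co.K10.E6.P25
import Pool.Agent.Lib.MP_afdd4d_co.K10.E6.P26
import Pool.Agent.Lib.MP_afdd4d_co.K10.E6.P27
import Pool.Agent.Lib.MP_afdd4d_co.K10.E6.P28
import Pool.Agent.Lib.MP_afdd4d_co.K10.E6.P29
import Pool.Agent.Lib.MP_afdd4d_co.K10.E6.P30
import Pool.Agent.Lib.MP_afdd4d_co.K10.E6.P31
import Pool.Agent.Lib.MP_afdd4d_co.K10.E6.P32

/-!
# Tables
-/

namespace Pool.Agent.Lib.MP_afdd4d_co.K10.E6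

open K8

set_option maxRecDepth 100000
set_option exponentiation.threshold 10000000

/-- The slices of the chunk 36. -/
noncomputable def c36 : List (List ℕ) := [
  [tr p23_31,
   tr p24_31,
   p36_2,
   p36_3,
   s4_5 (s0_1 p36_2),
   s4_5 (s0_1 p36_3),
   p36_6,
   p36_7],
  [s6_7 (s2_3 p36_2),
   s6_7 (s2_3 p36_3),
   p36_10,
   p36_11,
   p36_12,
   p36_13,
   p36_14,
   p36_15],
  [s6_7 (s4_5 (s2_3 (s0_1 p36_2))),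
   s6_7 (s4_5 (s2_3 (s0_1 p36_3))),
   s6_7 (s2_3 p36_12),
   s6_7 (s2_3 p36_13),
   s4_5 (s0_1 p36_10),
   s4_5 (s0_1 p36_11),
   s4_5 (s0_1 p36_14),
   s4_5 (s0_1 p36_15)],
  [s6_7 (s2_3 p36_6),
   s6_7 (s2_3 p36_7),
   s6_7 (s2_3 p36_14),
   s6_7 (s2_3 p36_15),
   s6_7 (s4_5 (s2_3 (s0_1 p36_14))),
   s6_7 (s4_5 (s2_3 (s0_1 p36_15))),
   tr p35_31,
   p36_31],
  [p36_32,
   p36_33,
   p36_34,
   p36_35,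
   s4_5 (s0_1 p36_34),
   s4_5 (s0_1 p36_35),
   p36_38,
   p36_39],
  [s6_7 (s2_3 p36_34),
   s6_7 (s2_3 p36_35),
   p36_42,
   p36_43,
   p36_44,
   p36_45,
   p36_46,
   p36_47],
  [s6_7 (s4_5 (s2_3 (s0_1 p36_34))),
   s6_7 (s4_5 (s2_3 (s0_1 p36_35))),
   s6_7 (s2_3 p36_44),
   s6_7 (s2_3 p36_45),
   s4_5 (s0_1 p36_42),
   s4_5 (s0_1 p36_43),
   s4_5 (s0_1 p36_46),
   s4_5 (s0_1 p36_47)],
  [s6_7 (s2_3 p36_38),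
   s6_7 (s2_3 p36_39),
   s6_7 (s2_3 p36_46),
   s6_7 (s2_3 p36_47),
   s6_7 (s4_5 (s2_3 (s0_1 p36_46))),
   s6_7 (s4_5 (s2_3 (s0_1 p36_47))),
   p36_62,
   p36_63]]

theorem k36 : eqNN c36 (slO 64 (D.chG 3 31) 8) = true := by decide +kernel

/-- The slices of the chunk 37. -/
noncomputable def c37 : List (List ℕ) := [
  [tr p23_32,
   tr p24_32,
   p37_2,
   p37_3,
   s4_5 (s0_1 p37_2),
   s4_5 (s0_1 p37_3),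
   p37_6,
   p37_7],
  [s6_7 (s2_3 p37_2),
   s6_7 (s2_3 p37_3),
   p37_10,
   p37_11,
   p37_12,
   p37_13,
   p37_14,
   p37_15],
  [s6_7 (s4_5 (s2_3 (s0_1 p37_2))),
   s6_7 (s4_5 (s2_3 (s0_1 p37_3))),
   s6_7 (s2_3 p37_12),
   s6_7 (s2_3 p37_13),
   s4_5 (s0_1 p37_10),
   s4_5 (s0_1 p37_11),
   s4_5 (s0_1 p37_14),
   s4_5 (s0_1 p37_15)],
  [s6_7 (s2_3 p37_6),
   s6_7 (s2_3 p37_7),
   s6_7 (s2_3 p37_14),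
   s6_7 (s2_3 p37_15),
   s6_7 (s4_5 (s2_3 (s0_1 p37_14))),
   s6_7 (s4_5 (s2_3 (s0_1 p37_15))),
   tr p35_32,
   tr p36_32],
  [p37_32,
   p37_33,
   p37_34,
   p37_35,
   s4_5 (s0_1 p37_34),
   s4_5 (s0_1 p37_35),
   p37_38,
   p37_39],
  [s6_7 (s2_3 p37_34),
   s6_7 (s2_3 p37_35),
   p37_42,
   p37_43,
   p37_44,
   p37_45,
   p37_46,
   p37_47],
  [s6_7 (s4_5 (s2_3 (s0_1 p37_34))),
   s6_7 (s4_5 (s2_3 (s0_1 p37_35))),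
   s6_7 (s2_3 p37_44),
   s6_7 (s2_3 p37_45),
   s4_5 (s0_1 p37_42),
   s4_5 (s0_1 p37_43),
   s4_5 (s0_1 p37_46),
   s4_5 (s0_1 p37_47)],
  [s6_7 (s2_3 p37_38),
   s6_7 (s2_3 p37_39),
   s6_7 (s2_3 p37_46),
   s6_7 (s2_3 p37_47),
   s6_7 (s4_5 (s2_3 (s0_1 p37_46))),
   s6_7 (s4_5 (s2_3 (s0_1 p37_47))),
   p37_62,
   p37_63]]

theorem k37 : eqNN c37 (slO 64 (D.chG 3 32) 8) = true := by decide +kernel

/-- The slices of the chunk 38. -/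
noncomputable def c38 : List (List ℕ) := [
  [tr p23_33,
   tr p24_33,
   p38_2,
   p38_3,
   s4_5 (s0_1 p38_2),
   s4_5 (s0_1 p38_3),
   p38_6,
   p38_7],
  [s6_7 (s2_3 p38_2),
   s6_7 (s2_3 p38_3),
   p38_10,
   p38_11,
   p38_12,
   p38_13,
   p38_14,
   p38_15],
  [s6_7 (s4_5 (s2_3 (s0_1 p38_2))),
   s6_7 (s4_5 (s2_3 (s0_1 p38_3))),
   s6_7 (s2_3 p38_12),
   s6_7 (s2_3 p38_13),
   s4_5 (s0_1 p38_10),
   s4_5 (s0_1 p38_11),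
   s4_5 (s0_1 p38_14),
   s4_5 (s0_1 p38_15)],
  [s6_7 (s2_3 p38_6),
   s6_7 (s2_3 p38_7),
   s6_7 (s2_3 p38_14),
   s6_7 (s2_3 p38_15),
   s6_7 (s4_5 (s2_3 (s0_1 p38_14))),
   s6_7 (s4_5 (s2_3 (s0_1 p38_15))),
   tr p35_33,
   tr p36_33],
  [tr p37_33,
   p38_33,
   p38_34,
   p38_35,
   s4_5 (s0_1 p38_34),
   s4_5 (s0_1 p38_35),
   p38_38,
   p38_39],
  [s6_7 (s2_3 p38_34),
   s6_7 (s2_3 p38_35),
   p38_42,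
   p38_43,
   p38_44,
   p38_45,
   p38_46,
   p38_47],
  [s6_7 (s4_5 (s2_3 (s0_1 p38_34))),
   s6_7 (s4_5 (s2_3 (s0_1 p38_35))),
   s6_7 (s2_3 p38_44),
   s6_7 (s2_3 p38_45),
   s4_5 (s0_1 p38_42),
   s4_5 (s0_1 p38_43),
   s4_5 (s0_1 p38_46),
   s4_5 (s0_1 p38_47)],
  [s6_7 (s2_3 p38_38),
   s6_7 (s2_3 p38_39),
   s6_7 (s2_3 p38_46),
   s6_7 (s2_3 p38_47),
   s6_7 (s4_5 (s2_3 (s0_1 p38_46))),
   s6_7 (s4_5 (s2_3 (s0_1 p38_47))),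
   p38_62,
   p38_63]]

theorem k38 : eqNN c38 (slO 64 (D.chG 3 33) 8) = true := by decide +kernel

/-- The slices of the chunk 39. -/
noncomputable def c39 : List (List ℕ) := [
  [tr p23_34,
   tr p24_34,
   tr p25_34,
   tr p26_34,
   s3_7 (s2_6 (s1_4 (s0_5 p25_36))),
   s3_7 (s2_6 (s1_4 (s0_5 p26_36))),
   tr p27_34,
   tr p28_34],
  [s3_6 (s2_7 (s1_5 (s0_4 p25_40))),
   s3_6 (s2_7 (s1_5 (s0_4 p26_40))),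
   tr p29_34,
   tr p30_34,
   tr p31_34,
   tr p32_34,
   tr p33_34,
   tr p34_34],
  [s3_6 (s2_7 (s1_4 (s0_5 p25_48))),
   s3_6 (s2_7 (s1_4 (s0_5 p26_48))),
   s3_7 (s2_6 (s1_4 (s0_5 p31_36))),
   s3_7 (s2_6 (s1_4 (s0_5 p32_36))),
   s3_7 (s2_6 (s1_4 (s0_5 p29_36))),
   s3_7 (s2_6 (s1_4 (s0_5 p30_36))),
   s3_7 (s2_6 (s1_4 (s0_5 p33_36))),
   s3_7 (s2_6 (s1_4 (s0_5 p34_36)))],
  [s3_6 (s2_7 (s1_5 (s0_4 p27_40))),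
   s3_6 (s2_7 (s1_5 (s0_4 p28_40))),
   s3_6 (s2_7 (s1_5 (s0_4 p33_40))),
   s3_6 (s2_7 (s1_5 (s0_4 p34_40))),
   s3_6 (s2_7 (s1_4 (s0_5 p33_48))),
   s3_6 (s2_7 (s1_4 (s0_5 p34_48))),
   tr p35_34,
   tr p36_34],
  [tr p37_34,
   tr p38_34,
   p39_34,
   p39_35,
   p39_36,
   p39_37,
   tr p41_34,
   tr p42_34],
  [p39_40,
   p39_41,
   tr p43_34,
   tr p44_34,
   p39_44,
   p39_45,
   p39_46,
   p39_47],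
  [p39_48,
   p39_49,
   p39_50,
   p39_51,
   s3_7 (s2_6 (s1_4 (s0_5 p43_36))),
   s3_7 (s2_6 (s1_4 (s0_5 p44_36))),
   p39_54,
   p39_55],
  [s3_6 (s2_7 (s1_5 (s0_4 p41_40))),
   s3_6 (s2_7 (s1_5 (s0_4 p42_40))),
   p39_58,
   p39_59,
   p39_60,
   p39_61,
   tr p49_34,
   tr p50_34]]

theorem k39 : eqNN c39 (slO 64 (D.chG 3 34) 8) = true := by decide +kernel

end Pool.Agent.Lib.MP_afdd4d_co.K10.E6
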