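import Pool.Agent.Lib.MP_afdd4d_co.K10.E6.Dat
import Pool.Agent.Lib.MP_afdd4d_co.K10.E6.Mk
import Pool.Agent.Lib.MP_afdd4d_co.K8.F6Bl5
import Pool.Agent.Lib.MP_afdd4d_co.K10.E6.P0
import Pool.Agent.Lib.MP_afdd4d_co.K10.E6.P1
import Pool.Agent.Lib.MP_afdd4d_co.K10.E6.P2
import Pool.Agent.Lib.MP_afdd4d_co.K10.E6.P3
import Pool.Agent.Lib.MP_afdd4d_co.K10.E6.P4
import Pool.Agent.Lib.MP_afdd4d_co.K10.E6.P5
import Pool.Agent.Lib.MP_afdd4d_co.K10.E6.P6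
import Pool.Agent.Lib.MP_afdd4d_co.K10.E6.P7
import Pool.Agent.Lib.MP_afdd4d_co.K10.E6.P8
import Pool.Agent.Lib.MP_afdd4d_co.K10.E6.P9
import Pool.Agent.Lib.MP_afdd4d_co.K10.E6.P10
import Pool.Agent.Lib.MP_afdd4d_co.K10.E6.P11
import Pool.Agent.Lib.MP_afdd4d_co.K10.E6.P12
import Pool.Agent.Lib.MP_afdd4d_co.K10.E6.P13
import Pool.Agent.Lib.MP_afdd4d_co.K10.E6.P14
import Pool.Agent.Lib.MP_afdd4d_co.K10.E6.P15
import Pool.Agent.Lib.MP_afdd4d_co.K10.E6.P16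
import Pool.Agent.Lib.MP_afdd4d_co.K10.E6.P17
import Pool.Agent.Lib.MP_afdd4d_co.K10.E6.P18
import Pool.Agent.Lib.MP_afdd4d_co.K10.E6.P19
import Pool.Agent.Lib.MP_afdd4d_co.K10.E6.P20
import Pool.Agent.Lib.MP_afdd4d_co.K10.E6.P21
import Pool.Agent.Lib.MP_afdd4d_co.K10.E6.P22
import Pool.Agent.Lib.MP_afdd4d_co.K10.E6.P23
import Pool.Agent.Lib.MP_afdd4d_co.K10.E6.P24
import Pool.Agent.Lib.MP_afdd4d_co.K10.E6.P25
import Pool.Agent.Lib.MP_afdd4d_co.K10.E6.P26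
import Pool.Agent.Lib.MP_afdd4d_co.K10.E6.P27
import Pool.Agent.Lib.MP_afdd4d_co.K10.E6.P28
import Pool.Agent.Lib.MP_afdd4d_co.K10.E6.P29
import Pool.Agent.Lib.MP_afdd4d_co.K10.E6.P30
import Pool.Agent.Lib.MP_afdd4d_co.K10.E6.P31
import Pool.Agent.Lib.MP_afdd4d_co.K10.E6.P32

/-!
# Tables
-/

namespace Pool.Agent.Lib.MP_afdd4d_co.K10.E6

open K8

set_option maxRecDepth 100000
set_option exponentiation.threshold 10000000

/-- The slices of the chunk 360. -/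
noncomputable def c360 : List (List ℕ) := [
  [tr p340_24,
   tr p341_24,
   s3_7 (s2_5 (s1_6 (s0_4 p341_40))),
   tr p342_24,
   tr p343_24,
   tr p344_24,
   s3_7 (s2_5 (s1_6 (s0_4 p344_40))),
   tr p345_24],
  [tr p346_24,
   tr p347_24,
   s3_7 (s2_5 (s1_6 (s0_4 p347_40))),
   tr p348_24,
   tr p349_24,
   tr p350_24,
   s3_7 (s2_5 (s1_6 (s0_4 p350_40))),
   tr p351_24],
  [tr p352_24,
   tr p353_24,
   tr p354_24,
   tr p355_24,
   tr p356_24,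
   tr p357_24,
   tr p358_24,
   tr p359_24],
  [p360_24,
   p360_25,
   p360_26,
   p360_27,
   p360_28,
   p360_29,
   p360_30,
   p360_31],
  [s3_7 (s2_5 (s1_6 (s0_4 p352_40))),
   s3_7 (s2_5 (s1_6 (s0_4 p354_40))),
   s3_7 (s2_5 (s1_6 (s0_4 p353_40))),
   s3_7 (s2_5 (s1_6 (s0_4 p355_40))),
   s3_7 (s2_5 (s1_6 (s0_4 p356_40))),
   s3_7 (s2_5 (s1_6 (s0_4 p358_40))),
   s3_7 (s2_5 (s1_6 (s0_4 p357_40))),
   s3_7 (s2_5 (s1_6 (s0_4 p359_40)))],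
  [p360_40,
   p360_41,
   p360_42,
   p360_43,
   p360_44,
   p360_45,
   p360_46,
   p360_47],
  [tr p368_24,
   p360_49,
   p360_50,
   tr p370_24,
   tr p371_24,
   p360_53,
   p360_54,
   tr p373_24],
  [tr p374_24,
   p360_57,
   p360_58,
   tr p376_24,
   tr p377_24,
   p360_61,
   p360_62,
   tr p379_24]]

theorem k360 : eqNN c360 (slO 64 (D.chG 56 24) 8) = true := by decide +kernel

/-- The slices of the chunk 361. -/
noncomputable def c361 : List (List ℕ) := [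
  [tr p340_25,
   tr p341_25,
   s3_7 (s2_5 (s1_6 (s0_4 p341_42))),
   tr p342_25,
   tr p343_25,
   tr p344_25,
   s3_7 (s2_5 (s1_6 (s0_4 p344_42))),
   tr p345_25],
  [tr p346_25,
   tr p347_25,
   s3_7 (s2_5 (s1_6 (s0_4 p347_42))),
   tr p348_25,
   tr p349_25,
   tr p350_25,
   s3_7 (s2_5 (s1_6 (s0_4 p350_42))),
   tr p351_25],
  [tr p352_25,
   tr p353_25,
   tr p354_25,
   tr p355_25,
   tr p356_25,
   tr p357_25,
   tr p358_25,
   tr p359_25],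
  [tr p360_25,
   p361_25,
   p361_26,
   p361_27,
   p361_28,
   p361_29,
   p361_30,
   p361_31],
  [s3_7 (s2_5 (s1_6 (s0_4 p352_42))),
   s3_7 (s2_5 (s1_6 (s0_4 p354_42))),
   s3_7 (s2_5 (s1_6 (s0_4 p353_42))),
   s3_7 (s2_5 (s1_6 (s0_4 p355_42))),
   s3_7 (s2_5 (s1_6 (s0_4 p356_42))),
   s3_7 (s2_5 (s1_6 (s0_4 p358_42))),
   s3_7 (s2_5 (s1_6 (s0_4 p357_42))),
   s3_7 (s2_5 (s1_6 (s0_4 p359_42)))],
  [s3_7 (s2_5 (s1_6 (s0_4 p360_42))),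
   p361_41,
   p361_42,
   p361_43,
   p361_44,
   p361_45,
   p361_46,
   p361_47],
  [tr p368_25,
   p361_49,
   p361_50,
   tr p370_25,
   tr p371_25,
   p361_53,
   p361_54,
   tr p373_25],
  [tr p374_25,
   p361_57,
   p361_58,
   tr p376_25,
   tr p377_25,
   p361_61,
   p361_62,
   tr p379_25]]

theorem k361 : eqNN c361 (slO 64 (D.chG 56 25) 8) = true := by decide +kernel

/-- The slices of the chunk 362. -/
noncomputable def c362 : List (List ℕ) := [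
  [tr p340_26,
   tr p341_26,
   s3_7 (s2_5 (s1_6 (s0_4 p341_41))),
   tr p342_26,
   tr p343_26,
   tr p344_26,
   s3_7 (s2_5 (s1_6 (s0_4 p344_41))),
   tr p345_26],
  [tr p346_26,
   tr p347_26,
   s3_7 (s2_5 (s1_6 (s0_4 p347_41))),
   tr p348_26,
   tr p349_26,
   tr p350_26,
   s3_7 (s2_5 (s1_6 (s0_4 p350_41))),
   tr p351_26],
  [tr p352_26,
   tr p353_26,
   tr p354_26,
   tr p355_26,
   tr p356_26,
   tr p357_26,
   tr p358_26,
   tr p359_26],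
  [tr p360_26,
   tr p361_26,
   p362_26,
   p362_27,
   p362_28,
   p362_29,
   p362_30,
   p362_31],
  [s3_7 (s2_5 (s1_6 (s0_4 p352_41))),
   s3_7 (s2_5 (s1_6 (s0_4 p354_41))),
   s3_7 (s2_5 (s1_6 (s0_4 p353_41))),
   s3_7 (s2_5 (s1_6 (s0_4 p355_41))),
   s3_7 (s2_5 (s1_6 (s0_4 p356_41))),
   s3_7 (s2_5 (s1_6 (s0_4 p358_41))),
   s3_7 (s2_5 (s1_6 (s0_4 p357_41))),
   s3_7 (s2_5 (s1_6 (s0_4 p359_41)))],
  [s3_7 (s2_5 (s1_6 (s0_4 p360_41))),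
   p362_41,
   s3_7 (s2_5 (s1_6 (s0_4 p361_41))),
   p362_43,
   p362_44,
   p362_45,
   p362_46,
   p362_47],
  [tr p368_26,
   p362_49,
   p362_50,
   tr p370_26,
   tr p371_26,
   p362_53,
   p362_54,
   tr p373_26],
  [tr p374_26,
   p362_57,
   p362_58,
   tr p376_26,
   tr p377_26,
   p362_61,
   p362_62,
   tr p379_26]]

theorem k362 : eqNN c362 (slO 64 (D.chG 56 26) 8) = true := by decide +kernel

/-- The slices of the chunk 363. -/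
noncomputable def c363 : List (List ℕ) := [
  [tr p340_27,
   tr p341_27,
   s3_7 (s2_5 (s1_6 (s0_4 p341_43))),
   tr p342_27,
   tr p343_27,
   tr p344_27,
   s3_7 (s2_5 (s1_6 (s0_4 p344_43))),
   tr p345_27],
  [tr p346_27,
   tr p347_27,
   s3_7 (s2_5 (s1_6 (s0_4 p347_43))),
   tr p348_27,
   tr p349_27,
   tr p350_27,
   s3_7 (s2_5 (s1_6 (s0_4 p350_43))),
   tr p351_27],
  [tr p352_27,
   tr p353_27,
   tr p354_27,
   tr p355_27,
   tr p356_27,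
   tr p357_27,
   tr p358_27,
   tr p359_27],
  [tr p360_27,
   tr p361_27,
   tr p362_27,
   p363_27,
   p363_28,
   p363_29,
   p363_30,
   p363_31],
  [s3_7 (s2_5 (s1_6 (s0_4 p352_43))),
   s3_7 (s2_5 (s1_6 (s0_4 p354_43))),
   s3_7 (s2_5 (s1_6 (s0_4 p353_43))),
   s3_7 (s2_5 (s1_6 (s0_4 p355_43))),
   s3_7 (s2_5 (s1_6 (s0_4 p356_43))),
   s3_7 (s2_5 (s1_6 (s0_4 p358_43))),
   s3_7 (s2_5 (s1_6 (s0_4 p357_43))),
   s3_7 (s2_5 (s1_6 (s0_4 p359_43)))],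
  [s3_7 (s2_5 (s1_6 (s0_4 p360_43))),
   s3_7 (s2_5 (s1_6 (s0_4 p362_43))),
   s3_7 (s2_5 (s1_6 (s0_4 p361_43))),
   p363_43,
   p363_44,
   p363_45,
   p363_46,
   p363_47],
  [tr p368_27,
   p363_49,
   p363_50,
   tr p370_27,
   tr p371_27,
   p363_53,
   p363_54,
   tr p373_27],
  [tr p374_27,
   p363_57,
   p363_58,
   tr p376_27,
   tr p377_27,
   p363_61,
   p363_62,
   tr p379_27]]

theorem k363 : eqNN c363 (slO 64 (D.chG 56 27) 8) = true := by decide +kernel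

end Pool.Agent.Lib.MP_afdd4d_co.K10.E6
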