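import Pool.Agent.Lib.MP_afdd4d_co.K10.E6.Dat
import Pool.Agent.Lib.MP_afdd4d_co.K10.E6.Mk
import Pool.Agent.Lib.MP_afdd4d_co.K8.F6Bl5
import Pool.Agent.Lib.MP_afdd4d_co.K10.E6.P0
import Pool.Agent.Lib.MP_afdd4d_co.K10.E6.P1
import Pool.Agent.Lib.MP_afdd4d_co.K10.E6.P2
import Pool.Agent.Lib.MP_afdd4d_co.K10.E6.P3
import Pool.Agent.Lib.MP_afdd4d_co.K10.E6.P4
import Pool.Agent.Lib.MP_afdd4d_co.K10.E6.P5
import Pool.Agent.Lib.MP_afdd4d_co.K10.E6.P6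
import Pool.Agent.Lib.MP_afdd4d_co.K10.E6.P7
import Pool.Agent.Lib.MP_afdd4d_co.K10.E6.P8
import Pool.Agent.Lib.MP_afdd4d_co.K10.E6.P9
import Pool.Agent.Lib.MP_afdd4d_co.K10.E6.P10
import Pool.Agent.Lib.MP_afdd4d_co.K10.E6.P11
import Pool.Agent.Lib.MP_afdd4d_co.K10.E6.P12
import Pool.Agent.Lib.MP_afdd4d_co.K10.E6.P13
import Pool.Agent.Lib.MP_afdd4d_co.K10.E6.P14
import Pool.Agent.Lib.MP_afdd4d_co.K10.E6.P15
import Pool.Agent.Lib.MP_afdd4d_co.K10.E6.P16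
import Pool.Agent.Lib.MP_afdd4d_co.K10.E6.P17
import Pool.Agent.Lib.MP_afdd4d_co.K10.E6.P18
import Pool.Agent.Lib.MP_afdd4d_co.K10.E6.P19
import Pool.Agent.Lib.MP_afdd4d_co.K10.E6.P20
import Pool.Agent.Lib.MP_afdd4d_co.K10.E6.P21
import Pool.Agent.Lib.MP_afdd4d_co.K10.E6.P22
import Pool.Agent.Lib.MP_afdd4d_co.K10.E6.P23
import Pool.Agent.Lib.MP_afdd4d_co.K10.E6.P24
import Pool.Agent.Lib.MP_afdd4d_co.K10.E6.P25
import Pool.Agent.Lib.MP_afdd4d_co.K10.E6.P26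
import Pool.Agent.Lib.MP_afdd4d_co.K10.E6.P27
import Pool.Agent.Lib.MP_afdd4d_co.K10.E6.P28
import Pool.Agent.Lib.MP_afdd4d_co.K10.E6.P29
import Pool.Agent.Lib.MP_afdd4d_co.K10.E6.P30
import Pool.Agent.Lib.MP_afdd4d_co.K10.E6.P31
import Pool.Agent.Lib.MP_afdd4d_co.K10.E6.P32

/-!
# Tables
-/

namespace Pool.Agent.Lib.MP_afdd4d_co.K10.E6

open K8

set_option maxRecDepth 100000
set_option exponentiation.threshold 10000000

/-- The slices of the chunk 364. -/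
noncomputable def c364 : List (List ℕ) := [
  [tr p340_28,
   tr p341_28,
   s3_7 (s2_5 (s1_6 (s0_4 p341_44))),
   tr p342_28,
   tr p343_28,
   tr p344_28,
   s3_7 (s2_5 (s1_6 (s0_4 p344_44))),
   tr p345_28],
  [tr p346_28,
   tr p347_28,
   s3_7 (s2_5 (s1_6 (s0_4 p347_44))),
   tr p348_28,
   tr p349_28,
   tr p350_28,
   s3_7 (s2_5 (s1_6 (s0_4 p350_44))),
   tr p351_28],
  [tr p352_28,
   tr p353_28,
   tr p354_28,
   tr p355_28,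
   tr p356_28,
   tr p357_28,
   tr p358_28,
   tr p359_28],
  [tr p360_28,
   tr p361_28,
   tr p362_28,
   tr p363_28,
   p364_28,
   p364_29,
   p364_30,
   p364_31],
  [s3_7 (s2_5 (s1_6 (s0_4 p352_44))),
   s3_7 (s2_5 (s1_6 (s0_4 p354_44))),
   s3_7 (s2_5 (s1_6 (s0_4 p353_44))),
   s3_7 (s2_5 (s1_6 (s0_4 p355_44))),
   s3_7 (s2_5 (s1_6 (s0_4 p356_44))),
   s3_7 (s2_5 (s1_6 (s0_4 p358_44))),
   s3_7 (s2_5 (s1_6 (s0_4 p357_44))),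
   s3_7 (s2_5 (s1_6 (s0_4 p359_44)))],
  [s3_7 (s2_5 (s1_6 (s0_4 p360_44))),
   s3_7 (s2_5 (s1_6 (s0_4 p362_44))),
   s3_7 (s2_5 (s1_6 (s0_4 p361_44))),
   s3_7 (s2_5 (s1_6 (s0_4 p363_44))),
   p364_44,
   p364_45,
   p364_46,
   p364_47],
  [tr p368_28,
   p364_49,
   p364_50,
   tr p370_28,
   tr p371_28,
   p364_53,
   p364_54,
   tr p373_28],
  [tr p374_28,
   p364_57,
   p364_58,
   tr p376_28,
   tr p377_28,
   p364_61,
   p364_62,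
   tr p379_28]]

theorem k364 : eqNN c364 (slO 64 (D.chG 56 28) 8) = true := by decide +kernel

/-- The slices of the chunk 365. -/
noncomputable def c365 : List (List ℕ) := [
  [tr p340_29,
   tr p341_29,
   s3_7 (s2_5 (s1_6 (s0_4 p341_46))),
   tr p342_29,
   tr p343_29,
   tr p344_29,
   s3_7 (s2_5 (s1_6 (s0_4 p344_46))),
   tr p345_29],
  [tr p346_29,
   tr p347_29,
   s3_7 (s2_5 (s1_6 (s0_4 p347_46))),
   tr p348_29,
   tr p349_29,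
   tr p350_29,
   s3_7 (s2_5 (s1_6 (s0_4 p350_46))),
   tr p351_29],
  [tr p352_29,
   tr p353_29,
   tr p354_29,
   tr p355_29,
   tr p356_29,
   tr p357_29,
   tr p358_29,
   tr p359_29],
  [tr p360_29,
   tr p361_29,
   tr p362_29,
   tr p363_29,
   tr p364_29,
   p365_29,
   p365_30,
   p365_31],
  [s3_7 (s2_5 (s1_6 (s0_4 p352_46))),
   s3_7 (s2_5 (s1_6 (s0_4 p354_46))),
   s3_7 (s2_5 (s1_6 (s0_4 p353_46))),
   s3_7 (s2_5 (s1_6 (s0_4 p355_46))),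
   s3_7 (s2_5 (s1_6 (s0_4 p356_46))),
   s3_7 (s2_5 (s1_6 (s0_4 p358_46))),
   s3_7 (s2_5 (s1_6 (s0_4 p357_46))),
   s3_7 (s2_5 (s1_6 (s0_4 p359_46)))],
  [s3_7 (s2_5 (s1_6 (s0_4 p360_46))),
   s3_7 (s2_5 (s1_6 (s0_4 p362_46))),
   s3_7 (s2_5 (s1_6 (s0_4 p361_46))),
   s3_7 (s2_5 (s1_6 (s0_4 p363_46))),
   s3_7 (s2_5 (s1_6 (s0_4 p364_46))),
   p365_45,
   p365_46,
   p365_47],
  [tr p368_29,
   p365_49,
   p365_50,
   tr p370_29,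
   tr p371_29,
   p365_53,
   p365_54,
   tr p373_29],
  [tr p374_29,
   p365_57,
   p365_58,
   tr p376_29,
   tr p377_29,
   p365_61,
   p365_62,
   tr p379_29]]

theorem k365 : eqNN c365 (slO 64 (D.chG 56 29) 8) = true := by decide +kernel

/-- The slices of the chunk 366. -/
noncomputable def c366 : List (List ℕ) := [
  [tr p340_30,
   tr p341_30,
   s3_7 (s2_5 (s1_6 (s0_4 p341_45))),
   tr p342_30,
   tr p343_30,
   tr p344_30,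
   s3_7 (s2_5 (s1_6 (s0_4 p344_45))),
   tr p345_30],
  [tr p346_30,
   tr p347_30,
   s3_7 (s2_5 (s1_6 (s0_4 p347_45))),
   tr p348_30,
   tr p349_30,
   tr p350_30,
   s3_7 (s2_5 (s1_6 (s0_4 p350_45))),
   tr p351_30],
  [tr p352_30,
   tr p353_30,
   tr p354_30,
   tr p355_30,
   tr p356_30,
   tr p357_30,
   tr p358_30,
   tr p359_30],
  [tr p360_30,
   tr p361_30,
   tr p362_30,
   tr p363_30,
   tr p364_30,
   tr p365_30,
   p366_30,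
   p366_31],
  [s3_7 (s2_5 (s1_6 (s0_4 p352_45))),
   s3_7 (s2_5 (s1_6 (s0_4 p354_45))),
   s3_7 (s2_5 (s1_6 (s0_4 p353_45))),
   s3_7 (s2_5 (s1_6 (s0_4 p355_45))),
   s3_7 (s2_5 (s1_6 (s0_4 p356_45))),
   s3_7 (s2_5 (s1_6 (s0_4 p358_45))),
   s3_7 (s2_5 (s1_6 (s0_4 p357_45))),
   s3_7 (s2_5 (s1_6 (s0_4 p359_45)))],
  [s3_7 (s2_5 (s1_6 (s0_4 p360_45))),
   s3_7 (s2_5 (s1_6 (s0_4 p362_45))),
   s3_7 (s2_5 (s1_6 (s0_4 p361_45))),
   s3_7 (s2_5 (s1_6 (s0_4 p363_45))),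
   s3_7 (s2_5 (s1_6 (s0_4 p364_45))),
   p366_45,
   s3_7 (s2_5 (s1_6 (s0_4 p365_45))),
   p366_47],
  [tr p368_30,
   p366_49,
   p366_50,
   tr p370_30,
   tr p371_30,
   p366_53,
   p366_54,
   tr p373_30],
  [tr p374_30,
   p366_57,
   p366_58,
   tr p376_30,
   tr p377_30,
   p366_61,
   p366_62,
   tr p379_30]]

theorem k366 : eqNN c366 (slO 64 (D.chG 56 30) 8) = true := by decide +kernel

/-- The slices of the chunk 367. -/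
noncomputable def c367 : List (List ℕ) := [
  [tr p340_31,
   tr p341_31,
   s3_7 (s2_5 (s1_6 (s0_4 p341_47))),
   tr p342_31,
   tr p343_31,
   tr p344_31,
   s3_7 (s2_5 (s1_6 (s0_4 p344_47))),
   tr p345_31],
  [tr p346_31,
   tr p347_31,
   s3_7 (s2_5 (s1_6 (s0_4 p347_47))),
   tr p348_31,
   tr p349_31,
   tr p350_31,
   s3_7 (s2_5 (s1_6 (s0_4 p350_47))),
   tr p351_31],
  [tr p352_31,
   tr p353_31,
   tr p354_31,
   tr p355_31,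
   tr p356_31,
   tr p357_31,
   tr p358_31,
   tr p359_31],
  [tr p360_31,
   tr p361_31,
   tr p362_31,
   tr p363_31,
   tr p364_31,
   tr p365_31,
   tr p366_31,
   p367_31],
  [s3_7 (s2_5 (s1_6 (s0_4 p352_47))),
   s3_7 (s2_5 (s1_6 (s0_4 p354_47))),
   s3_7 (s2_5 (s1_6 (s0_4 p353_47))),
   s3_7 (s2_5 (s1_6 (s0_4 p355_47))),
   s3_7 (s2_5 (s1_6 (s0_4 p356_47))),
   s3_7 (s2_5 (s1_6 (s0_4 p358_47))),
   s3_7 (s2_5 (s1_6 (s0_4 p357_47))),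
   s3_7 (s2_5 (s1_6 (s0_4 p359_47)))],
  [s3_7 (s2_5 (s1_6 (s0_4 p360_47))),
   s3_7 (s2_5 (s1_6 (s0_4 p362_47))),
   s3_7 (s2_5 (s1_6 (s0_4 p361_47))),
   s3_7 (s2_5 (s1_6 (s0_4 p363_47))),
   s3_7 (s2_5 (s1_6 (s0_4 p364_47))),
   s3_7 (s2_5 (s1_6 (s0_4 p366_47))),
   s3_7 (s2_5 (s1_6 (s0_4 p365_47))),
   p367_47],
  [tr p368_31,
   p367_49,
   p367_50,
   tr p370_31,
   tr p371_31,
   p367_53,
   p367_54,
   tr p373_31],
  [tr p374_31,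
   p367_57,
   p367_58,
   tr p376_31,
   tr p377_31,
   p367_61,
   p367_62,
   tr p379_31]]

theorem k367 : eqNN c367 (slO 64 (D.chG 56 31) 8) = true := by decide +kernel

end Pool.Agent.Lib.MP_afdd4d_co.K10.E6
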