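import Pool.Agent.Lib.MP_afdd4d_co.K10.E6.Dat
import Pool.Agent.Lib.MP_afdd4d_co.K10.E6.Mk
import Pool.Agent.Lib.MP_afdd4d_co.K8.F6Bl5
import Pool.Agent.Lib.MP_afdd4d_co.K10.E6.P0
import Pool.Agent.Lib.MP_afdd4d_co.K10.E6.P1
import Pool.Agent.Lib.MP_afdd4d_co.K10.E6.P2
import Pool.Agent.Lib.MP_afdd4d_co.K10.E6.P3
import Pool.Agent.Lib.MP_afdd4d_co.K10.E6.P4
import Pool.Agent.Lib.MP_afdd4d_co.K10.E6.P5
import Pool.Agent.Lib.MP_afdd4d_co.K10.E6.P6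
import Pool.Agent.Lib.MP_afdd4d_co.K10.E6.P7
import Pool.Agent.Lib.MP_afdd4d_co.K10.E6.P8
import Pool.Agent.Lib.MP_afdd4d_co.K10.E6.P9
import Pool.Agent.Lib.MP_afdd4d_co.K10.E6.P10
import Pool.Agent.Lib.MP_afdd4d_co.K10.E6.P11
import Pool.Agent.Lib.MP_afdd4d_co.K10.E6.P12
import Pool.Agent.Lib.MP_afdd4d_co.K10.E6.P13
import Pool.Agent.Lib.MP_afdd4d_co.K10.E6.P14
import Pool.Agent.Lib.MP_afdd4d_co.K10.E6.P15
import Pool.Agent.Lib.MP_afdd4d_co.K10.E6.P16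
import Pool.Agent.Lib.MP_afdd4d_co.K10.E6.P17
import Pool.Agent.Lib.MP_afdd4d_co.K10.E6.P18
import Pool.Agent.Lib.MP_afdd4d_co.K10.E6.P19
import Pool.Agent.Lib.MP_afdd4d_co.K10.E6.P20
import Pool.Agent.Lib.MP_afdd4d_co.K10.E6.P21
import Pool.Agent.Lib.MP_afdd4d_co.K10.E6.P22
import Pool.Agent.Lib.MP_afdd4d_co.K10.E6.P23
import Pool.Agent.Lib.MP_afdd4d_co.K10.E6.P24
import Pool.Agent.Lib.MP_afdd4d_co.K10.E6.P25
import Pool.Agent.Lib.MP_afdd4d_co.K10.E6.P26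
import Pool.Agent.Lib.MP_afdd4d_co.K10.E6.P27
import Pool.Agent.Lib.MP_afdd4d_co.K10.E6.P28
import Pool.Agent.Lib.MP_afdd4d_co.K10.E6.P29
import Pool.Agent.Lib.MP_afdd4d_co.K10.E6.P30
import Pool.Agent.Lib.MP_afdd4d_co.K10.E6.P31
import Pool.Agent.Lib.MP_afdd4d_co.K10.E6.P32

/-!
# Tables
-/

namespace Pool.Agent.Lib.MP_afdd4d_co.K10.E6

open K8

set_option maxRecDepth 100000
set_option exponentiation.threshold 10000000

/-- The slices of the chunk 368. -/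
noncomputable def c368 : List (List ℕ) := [
  [tr p340_48,
   p368_1,
   s5_6 (s1_2 p368_1),
   tr p342_48,
   tr p343_48,
   p368_5,
   s5_6 (s1_2 p368_5),
   tr p345_48],
  [tr p346_48,
   p368_9,
   s5_6 (s1_2 p368_9),
   tr p348_48,
   tr p349_48,
   p368_13,
   s5_6 (s1_2 p368_13),
   tr p351_48],
  [p368_16,
   p368_17,
   p368_18,
   p368_19,
   p368_20,
   p368_21,
   p368_22,
   p368_23],
  [p368_24,
   p368_25,
   p368_26,
   p368_27,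
   p368_28,
   p368_29,
   p368_30,
   p368_31],
  [s5_6 (s1_2 p368_16),
   s5_6 (s1_2 p368_18),
   s5_6 (s1_2 p368_17),
   s5_6 (s1_2 p368_19),
   s5_6 (s1_2 p368_20),
   s5_6 (s1_2 p368_22),
   s5_6 (s1_2 p368_21),
   s5_6 (s1_2 p368_23)],
  [s5_6 (s1_2 p368_24),
   s5_6 (s1_2 p368_26),
   s5_6 (s1_2 p368_25),
   s5_6 (s1_2 p368_27),
   s5_6 (s1_2 p368_28),
   s5_6 (s1_2 p368_30),
   s5_6 (s1_2 p368_29),
   s5_6 (s1_2 p368_31)],
  [p368_48,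
   p368_49,
   s5_6 (s1_2 p368_49),
   p368_51,
   p368_52,
   p368_53,
   s5_6 (s1_2 p368_53),
   p368_55],
  [p368_56,
   p368_57,
   s5_6 (s1_2 p368_57),
   p368_59,
   p368_60,
   p368_61,
   s5_6 (s1_2 p368_61),
   p368_63]]

theorem k368 : eqNN c368 (slO 64 (D.chG 56 48) 8) = true := by decide +kernel

/-- The slices of the chunk 369. -/
noncomputable def c369 : List (List ℕ) := [
  [tr p340_49,
   tr p341_49,
   s3_7 (s2_5 (s1_6 (s0_4 p341_50))),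
   tr p342_49,
   tr p343_49,
   tr p344_49,
   s3_7 (s2_5 (s1_6 (s0_4 p344_50))),
   tr p345_49],
  [tr p346_49,
   tr p347_49,
   s3_7 (s2_5 (s1_6 (s0_4 p347_50))),
   tr p348_49,
   tr p349_49,
   tr p350_49,
   s3_7 (s2_5 (s1_6 (s0_4 p350_50))),
   tr p351_49],
  [tr p352_49,
   tr p353_49,
   tr p354_49,
   tr p355_49,
   tr p356_49,
   tr p357_49,
   tr p358_49,
   tr p359_49],
  [tr p360_49,
   tr p361_49,
   tr p362_49,
   tr p363_49,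
   tr p364_49,
   tr p365_49,
   tr p366_49,
   tr p367_49],
  [s3_7 (s2_5 (s1_6 (s0_4 p352_50))),
   s3_7 (s2_5 (s1_6 (s0_4 p354_50))),
   s3_7 (s2_5 (s1_6 (s0_4 p353_50))),
   s3_7 (s2_5 (s1_6 (s0_4 p355_50))),
   s3_7 (s2_5 (s1_6 (s0_4 p356_50))),
   s3_7 (s2_5 (s1_6 (s0_4 p358_50))),
   s3_7 (s2_5 (s1_6 (s0_4 p357_50))),
   s3_7 (s2_5 (s1_6 (s0_4 p359_50)))],
  [s3_7 (s2_5 (s1_6 (s0_4 p360_50))),
   s3_7 (s2_5 (s1_6 (s0_4 p362_50))),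
   s3_7 (s2_5 (s1_6 (s0_4 p361_50))),
   s3_7 (s2_5 (s1_6 (s0_4 p363_50))),
   s3_7 (s2_5 (s1_6 (s0_4 p364_50))),
   s3_7 (s2_5 (s1_6 (s0_4 p366_50))),
   s3_7 (s2_5 (s1_6 (s0_4 p365_50))),
   s3_7 (s2_5 (s1_6 (s0_4 p367_50)))],
  [tr p368_49,
   p369_49,
   p369_50,
   tr p370_49,
   tr p371_49,
   p369_53,
   p369_54,
   tr p373_49],
  [tr p374_49,
   p369_57,
   p369_58,
   tr p376_49,
   tr p377_49,
   p369_61,
   p369_62,
   tr p379_49]]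

theorem k369 : eqNN c369 (slO 64 (D.chG 56 49) 8) = true := by decide +kernel

/-- The slices of the chunk 370. -/
noncomputable def c370 : List (List ℕ) := [
  [tr p340_51,
   p370_1,
   s5_6 (s1_2 p370_1),
   tr p342_51,
   tr p343_51,
   p370_5,
   s5_6 (s1_2 p370_5),
   tr p345_51],
  [tr p346_51,
   p370_9,
   s5_6 (s1_2 p370_9),
   tr p348_51,
   tr p349_51,
   p370_13,
   s5_6 (s1_2 p370_13),
   tr p351_51],
  [p370_16,
   p370_17,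
   p370_18,
   p370_19,
   p370_20,
   p370_21,
   p370_22,
   p370_23],
  [p370_24,
   p370_25,
   p370_26,
   p370_27,
   p370_28,
   p370_29,
   p370_30,
   p370_31],
  [s5_6 (s1_2 p370_16),
   s5_6 (s1_2 p370_18),
   s5_6 (s1_2 p370_17),
   s5_6 (s1_2 p370_19),
   s5_6 (s1_2 p370_20),
   s5_6 (s1_2 p370_22),
   s5_6 (s1_2 p370_21),
   s5_6 (s1_2 p370_23)],
  [s5_6 (s1_2 p370_24),
   s5_6 (s1_2 p370_26),
   s5_6 (s1_2 p370_25),
   s5_6 (s1_2 p370_27),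
   s5_6 (s1_2 p370_28),
   s5_6 (s1_2 p370_30),
   s5_6 (s1_2 p370_29),
   s5_6 (s1_2 p370_31)],
  [tr p368_51,
   p370_49,
   s5_6 (s1_2 p370_49),
   p370_51,
   p370_52,
   p370_53,
   s5_6 (s1_2 p370_53),
   p370_55],
  [p370_56,
   p370_57,
   s5_6 (s1_2 p370_57),
   p370_59,
   p370_60,
   p370_61,
   s5_6 (s1_2 p370_61),
   p370_63]]

theorem k370 : eqNN c370 (slO 64 (D.chG 56 51) 8) = true := by decide +kernel

/-- The slices of the chunk 371. -/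
noncomputable def c371 : List (List ℕ) := [
  [tr p340_52,
   p371_1,
   s5_6 (s1_2 p371_1),
   tr p342_52,
   tr p343_52,
   p371_5,
   s5_6 (s1_2 p371_5),
   tr p345_52],
  [tr p346_52,
   p371_9,
   s5_6 (s1_2 p371_9),
   tr p348_52,
   tr p349_52,
   p371_13,
   s5_6 (s1_2 p371_13),
   tr p351_52],
  [p371_16,
   p371_17,
   p371_18,
   p371_19,
   p371_20,
   p371_21,
   p371_22,
   p371_23],
  [p371_24,
   p371_25,
   p371_26,
   p371_27,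
   p371_28,
   p371_29,
   p371_30,
   p371_31],
  [s5_6 (s1_2 p371_16),
   s5_6 (s1_2 p371_18),
   s5_6 (s1_2 p371_17),
   s5_6 (s1_2 p371_19),
   s5_6 (s1_2 p371_20),
   s5_6 (s1_2 p371_22),
   s5_6 (s1_2 p371_21),
   s5_6 (s1_2 p371_23)],
  [s5_6 (s1_2 p371_24),
   s5_6 (s1_2 p371_26),
   s5_6 (s1_2 p371_25),
   s5_6 (s1_2 p371_27),
   s5_6 (s1_2 p371_28),
   s5_6 (s1_2 p371_30),
   s5_6 (s1_2 p371_29),
   s5_6 (s1_2 p371_31)],
  [tr p368_52,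
   p371_49,
   s5_6 (s1_2 p371_49),
   tr p370_52,
   p371_52,
   p371_53,
   s5_6 (s1_2 p371_53),
   p371_55],
  [p371_56,
   p371_57,
   s5_6 (s1_2 p371_57),
   p371_59,
   p371_60,
   p371_61,
   s5_6 (s1_2 p371_61),
   p371_63]]

theorem k371 : eqNN c371 (slO 64 (D.chG 56 52) 8) = true := by decide +kernel

end Pool.Agent.Lib.MP_afdd4d_co.K10.E6
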