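import Pool.Agent.Lib.MP_afdd4d_co.K10.E6.Dat
import Pool.Agent.Lib.MP_afdd4d_co.K10.E6.Mk
import Pool.Agent.Lib.MP_afdd4d_co.K8.F6Bl5
import Pool.Agent.Lib.MP_afdd4d_co.K10.E6.P0
import Pool.Agent.Lib.MP_afdd4d_co.K10.E6.P1
import Pool.Agent.Lib.MP_afdd4d_co.K10.E6.P2
import Pool.Agent.Lib.MP_afdd4d_co.K10.E6.P3
import Pool.Agent.Lib.MP_afdd4d_co.K10.E6.P4
import Pool.Agent.Lib.MP_afdd4d_co.K10.E6.P5
import Pool.Agent.Lib.MP_afdd4d_co.K10.E6.P6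
import Pool.Agent.Lib.MP_afdd4d_co.K10.E6.P7
import Pool.Agent.Lib.MP_afdd4d_co.K10.E6.P8
import Pool.Agent.Lib.MP_afdd4d_co.K10.E6.P9
import Pool.Agent.Lib.MP_afdd4d_co.K10.E6.P10
import Pool.Agent.Lib.MP_afdd4d_co.K10.E6.P11
import Pool.Agent.Lib.MP_afdd4d_co.K10.E6.P12
import Pool.Agent.Lib.MP_afdd4d_co.K10.E6.P13
import Pool.Agent.Lib.MP_afdd4d_co.K10.E6.P14
import Pool.Agent.Lib.MP_afdd4d_co.K10.E6.P15
import Pool.Agent.Lib.MP_afdd4d_co.K10.E6.P16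
import Pool.Agent.Lib.MP_afdd4d_co.K10.E6.P17
import Pool.Agent.Lib.MP_afdd4d_co.K10.E6.P18
import Pool.Agent.Lib.MP_afdd4d_co.K10.E6.P19
import Pool.Agent.Lib.MP_afdd4d_co.K10.E6.P20
import Pool.Agent.Lib.MP_afdd4d_co.K10.E6.P21
import Pool.Agent.Lib.MP_afdd4d_co.K10.E6.P22
import Pool.Agent.Lib.MP_afdd4d_co.K10.E6.P23
import Pool.Agent.Lib.MP_afdd4d_co.K10.E6.P24
import Pool.Agent.Lib.MP_afdd4d_co.K10.E6.P25
import Pool.Agent.Lib.MP_afdd4d_co.K10.E6.P26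
import Pool.Agent.Lib.MP_afdd4d_co.K10.E6.P27
import Pool.Agent.Lib.MP_afdd4d_co.K10.E6.P28
import Pool.Agent.Lib.MP_afdd4d_co.K10.E6.P29
import Pool.Agent.Lib.MP_afdd4d_co.K10.E6.P30
import Pool.Agent.Lib.MP_afdd4d_co.K10.E6.P31
import Pool.Agent.Lib.MP_afdd4d_co.K10.E6.P32

/-!
# Tables
-/

namespace Pool.Agent.Lib.MP_afdd4d_co.K10.E6

open K8

set_option maxRecDepth 100000
set_option exponentiation.threshold 10000000

/-- The slices of the chunk 372. -/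
noncomputable def c372 : List (List ℕ) := [
  [tr p340_53,
   tr p341_53,
   s3_7 (s2_5 (s1_6 (s0_4 p341_54))),
   tr p342_53,
   tr p343_53,
   tr p344_53,
   s3_7 (s2_5 (s1_6 (s0_4 p344_54))),
   tr p345_53],
  [tr p346_53,
   tr p347_53,
   s3_7 (s2_5 (s1_6 (s0_4 p347_54))),
   tr p348_53,
   tr p349_53,
   tr p350_53,
   s3_7 (s2_5 (s1_6 (s0_4 p350_54))),
   tr p351_53],
  [tr p352_53,
   tr p353_53,
   tr p354_53,
   tr p355_53,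
   tr p356_53,
   tr p357_53,
   tr p358_53,
   tr p359_53],
  [tr p360_53,
   tr p361_53,
   tr p362_53,
   tr p363_53,
   tr p364_53,
   tr p365_53,
   tr p366_53,
   tr p367_53],
  [s3_7 (s2_5 (s1_6 (s0_4 p352_54))),
   s3_7 (s2_5 (s1_6 (s0_4 p354_54))),
   s3_7 (s2_5 (s1_6 (s0_4 p353_54))),
   s3_7 (s2_5 (s1_6 (s0_4 p355_54))),
   s3_7 (s2_5 (s1_6 (s0_4 p356_54))),
   s3_7 (s2_5 (s1_6 (s0_4 p358_54))),
   s3_7 (s2_5 (s1_6 (s0_4 p357_54))),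
   s3_7 (s2_5 (s1_6 (s0_4 p359_54)))],
  [s3_7 (s2_5 (s1_6 (s0_4 p360_54))),
   s3_7 (s2_5 (s1_6 (s0_4 p362_54))),
   s3_7 (s2_5 (s1_6 (s0_4 p361_54))),
   s3_7 (s2_5 (s1_6 (s0_4 p363_54))),
   s3_7 (s2_5 (s1_6 (s0_4 p364_54))),
   s3_7 (s2_5 (s1_6 (s0_4 p366_54))),
   s3_7 (s2_5 (s1_6 (s0_4 p365_54))),
   s3_7 (s2_5 (s1_6 (s0_4 p367_54)))],
  [tr p368_53,
   tr p369_53,
   s3_7 (s2_5 (s1_6 (s0_4 p369_54))),
   tr p370_53,
   tr p371_53,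
   p372_53,
   p372_54,
   tr p373_53],
  [tr p374_53,
   p372_57,
   p372_58,
   tr p376_53,
   tr p377_53,
   p372_61,
   p372_62,
   tr p379_53]]

theorem k372 : eqNN c372 (slO 64 (D.chG 56 53) 8) = true := by decide +kernel

/-- The slices of the chunk 373. -/
noncomputable def c373 : List (List ℕ) := [
  [tr p340_55,
   p373_1,
   s5_6 (s1_2 p373_1),
   tr p342_55,
   tr p343_55,
   p373_5,
   s5_6 (s1_2 p373_5),
   tr p345_55],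
  [tr p346_55,
   p373_9,
   s5_6 (s1_2 p373_9),
   tr p348_55,
   tr p349_55,
   p373_13,
   s5_6 (s1_2 p373_13),
   tr p351_55],
  [p373_16,
   p373_17,
   p373_18,
   p373_19,
   p373_20,
   p373_21,
   p373_22,
   p373_23],
  [p373_24,
   p373_25,
   p373_26,
   p373_27,
   p373_28,
   p373_29,
   p373_30,
   p373_31],
  [s5_6 (s1_2 p373_16),
   s5_6 (s1_2 p373_18),
   s5_6 (s1_2 p373_17),
   s5_6 (s1_2 p373_19),
   s5_6 (s1_2 p373_20),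
   s5_6 (s1_2 p373_22),
   s5_6 (s1_2 p373_21),
   s5_6 (s1_2 p373_23)],
  [s5_6 (s1_2 p373_24),
   s5_6 (s1_2 p373_26),
   s5_6 (s1_2 p373_25),
   s5_6 (s1_2 p373_27),
   s5_6 (s1_2 p373_28),
   s5_6 (s1_2 p373_30),
   s5_6 (s1_2 p373_29),
   s5_6 (s1_2 p373_31)],
  [tr p368_55,
   p373_49,
   s5_6 (s1_2 p373_49),
   tr p370_55,
   tr p371_55,
   p373_53,
   s5_6 (s1_2 p373_53),
   p373_55],
  [p373_56,
   p373_57,
   s5_6 (s1_2 p373_57),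
   p373_59,
   p373_60,
   p373_61,
   s5_6 (s1_2 p373_61),
   p373_63]]

theorem k373 : eqNN c373 (slO 64 (D.chG 56 55) 8) = true := by decide +kernel

/-- The slices of the chunk 374. -/
noncomputable def c374 : List (List ℕ) := [
  [tr p340_56,
   p374_1,
   s5_6 (s1_2 p374_1),
   tr p342_56,
   tr p343_56,
   p374_5,
   s5_6 (s1_2 p374_5),
   tr p345_56],
  [tr p346_56,
   p374_9,
   s5_6 (s1_2 p374_9),
   tr p348_56,
   tr p349_56,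
   p374_13,
   s5_6 (s1_2 p374_13),
   tr p351_56],
  [p374_16,
   p374_17,
   p374_18,
   p374_19,
   p374_20,
   p374_21,
   p374_22,
   p374_23],
  [p374_24,
   p374_25,
   p374_26,
   p374_27,
   p374_28,
   p374_29,
   p374_30,
   p374_31],
  [s5_6 (s1_2 p374_16),
   s5_6 (s1_2 p374_18),
   s5_6 (s1_2 p374_17),
   s5_6 (s1_2 p374_19),
   s5_6 (s1_2 p374_20),
   s5_6 (s1_2 p374_22),
   s5_6 (s1_2 p374_21),
   s5_6 (s1_2 p374_23)],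
  [s5_6 (s1_2 p374_24),
   s5_6 (s1_2 p374_26),
   s5_6 (s1_2 p374_25),
   s5_6 (s1_2 p374_27),
   s5_6 (s1_2 p374_28),
   s5_6 (s1_2 p374_30),
   s5_6 (s1_2 p374_29),
   s5_6 (s1_2 p374_31)],
  [tr p368_56,
   p374_49,
   s5_6 (s1_2 p374_49),
   tr p370_56,
   tr p371_56,
   p374_53,
   s5_6 (s1_2 p374_53),
   tr p373_56],
  [p374_56,
   p374_57,
   s5_6 (s1_2 p374_57),
   p374_59,
   p374_60,
   p374_61,
   s5_6 (s1_2 p374_61),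
   p374_63]]

theorem k374 : eqNN c374 (slO 64 (D.chG 56 56) 8) = true := by decide +kernel

/-- The slices of the chunk 375. -/
noncomputable def c375 : List (List ℕ) := [
  [tr p340_57,
   tr p341_57,
   s3_7 (s2_5 (s1_6 (s0_4 p341_58))),
   tr p342_57,
   tr p343_57,
   tr p344_57,
   s3_7 (s2_5 (s1_6 (s0_4 p344_58))),
   tr p345_57],
  [tr p346_57,
   tr p347_57,
   s3_7 (s2_5 (s1_6 (s0_4 p347_58))),
   tr p348_57,
   tr p349_57,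
   tr p350_57,
   s3_7 (s2_5 (s1_6 (s0_4 p350_58))),
   tr p351_57],
  [tr p352_57,
   tr p353_57,
   tr p354_57,
   tr p355_57,
   tr p356_57,
   tr p357_57,
   tr p358_57,
   tr p359_57],
  [tr p360_57,
   tr p361_57,
   tr p362_57,
   tr p363_57,
   tr p364_57,
   tr p365_57,
   tr p366_57,
   tr p367_57],
  [s3_7 (s2_5 (s1_6 (s0_4 p352_58))),
   s3_7 (s2_5 (s1_6 (s0_4 p354_58))),
   s3_7 (s2_5 (s1_6 (s0_4 p353_58))),
   s3_7 (s2_5 (s1_6 (s0_4 p355_58))),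
   s3_7 (s2_5 (s1_6 (s0_4 p356_58))),
   s3_7 (s2_5 (s1_6 (s0_4 p358_58))),
   s3_7 (s2_5 (s1_6 (s0_4 p357_58))),
   s3_7 (s2_5 (s1_6 (s0_4 p359_58)))],
  [s3_7 (s2_5 (s1_6 (s0_4 p360_58))),
   s3_7 (s2_5 (s1_6 (s0_4 p362_58))),
   s3_7 (s2_5 (s1_6 (s0_4 p361_58))),
   s3_7 (s2_5 (s1_6 (s0_4 p363_58))),
   s3_7 (s2_5 (s1_6 (s0_4 p364_58))),
   s3_7 (s2_5 (s1_6 (s0_4 p366_58))),
   s3_7 (s2_5 (s1_6 (s0_4 p365_58))),
   s3_7 (s2_5 (s1_6 (s0_4 p367_58)))],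
  [tr p368_57,
   tr p369_57,
   s3_7 (s2_5 (s1_6 (s0_4 p369_58))),
   tr p370_57,
   tr p371_57,
   tr p372_57,
   s3_7 (s2_5 (s1_6 (s0_4 p372_58))),
   tr p373_57],
  [tr p374_57,
   p375_57,
   p375_58,
   tr p376_57,
   tr p377_57,
   p375_61,
   p375_62,
   tr p379_57]]

theorem k375 : eqNN c375 (slO 64 (D.chG 56 57) 8) = true := by decide +kernel

end Pool.Agent.Lib.MP_afdd4d_co.K10.E6
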