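import Pool.Agent.Lib.MP_afdd4d_co.K10.E6.Dat
import Pool.Agent.Lib.MP_afdd4d_co.K10.E6.Mk
import Pool.Agent.Lib.MP_afdd4d_co.K8.F6Bl5
import Pool.Agent.Lib.MP_afdd4d_co.K10.E6.P0
import Pool.Agent.Lib.MP_afdd4d_co.K10.E6.P1
import Pool.Agent.Lib.MP_afdd4d_co.K10.E6.P2
import Pool.Agent.Lib.MP_afdd4d_co.K10.E6.P3
import Pool.Agent.Lib.MP_afdd4d_co.K10.E6.P4
import Pool.Agent.Lib.MP_afdd4d_co.K10.E6.P5
import Pool.Agent.Lib.MP_afdd4d_co.K10.E6.P6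
import Pool.Agent.Lib.MP_afdd4d_co.K10.E6.P7
import Pool.Agent.Lib.MP_afdd4d_co.K10.E6.P8
import Pool.Agent.Lib.MP_afdd4d_co.K10.E6.P9
import Pool.Agent.Lib.MP_afdd4d_co.K10.E6.P10
import Pool.Agent.Lib.MP_afdd4d_co.K10.E6.P11
import Pool.Agent.Lib.MP_afdd4d_co.K10.E6.P12
import Pool.Agent.Lib.MP_afdd4d_co.K10.E6.P13
import Pool.Agent.Lib.MP_afdd4d_co.K10.E6.P14
import Pool.Agent.Lib.MP_afdd4d_co.K10.E6.P15
import Pool.Agent.Lib.MP_afdd4d_co.K10.E6.P16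
import Pool.Agent.Lib.MP_afdd4d_co.K10.E6.P17
import Pool.Agent.Lib.MP_afdd4d_co.K10.E6.P18
import Pool.Agent.Lib.MP_afdd4d_co.K10.E6.P19
import Pool.Agent.Lib.MP_afdd4d_co.K10.E6.P20
import Pool.Agent.Lib.MP_afdd4d_co.K10.E6.P21
import Pool.Agent.Lib.MP_afdd4d_co.K10.E6.P22
import Pool.Agent.Lib.MP_afdd4d_co.K10.E6.P23
import Pool.Agent.Lib.MP_afdd4d_co.K10.E6.P24
import Pool.Agent.Lib.MP_afdd4d_co.K10.E6.P25
import Pool.Agent.Lib.MP_afdd4d_co.K10.E6.P26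
import Pool.Agent.Lib.MP_afdd4d_co.K10.E6.P27
import Pool.Agent.Lib.MP_afdd4d_co.K10.E6.P28
import Pool.Agent.Lib.MP_afdd4d_co.K10.E6.P29
import Pool.Agent.Lib.MP_afdd4d_co.K10.E6.P30
import Pool.Agent.Lib.MP_afdd4d_co.K10.E6.P31
import Pool.Agent.Lib.MP_afdd4d_co.K10.E6.P32

/-!
# Tables
-/

namespace Pool.Agent.Lib.MP_afdd4d_co.K10.E6

open K8

set_option maxRecDepth 100000
set_option exponentiation.threshold 10000000

/-- The slices of the chunk 376. -/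
noncomputable def c376 : List (List ℕ) := [
  [tr p340_59,
   p376_1,
   s5_6 (s1_2 p376_1),
   tr p342_59,
   tr p343_59,
   p376_5,
   s5_6 (s1_2 p376_5),
   tr p345_59],
  [tr p346_59,
   p376_9,
   s5_6 (s1_2 p376_9),
   tr p348_59,
   tr p349_59,
   p376_13,
   s5_6 (s1_2 p376_13),
   tr p351_59],
  [p376_16,
   p376_17,
   p376_18,
   p376_19,
   p376_20,
   p376_21,
   p376_22,
   p376_23],
  [p376_24,
   p376_25,
   p376_26,
   p376_27,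
   p376_28,
   p376_29,
   p376_30,
   p376_31],
  [s5_6 (s1_2 p376_16),
   s5_6 (s1_2 p376_18),
   s5_6 (s1_2 p376_17),
   s5_6 (s1_2 p376_19),
   s5_6 (s1_2 p376_20),
   s5_6 (s1_2 p376_22),
   s5_6 (s1_2 p376_21),
   s5_6 (s1_2 p376_23)],
  [s5_6 (s1_2 p376_24),
   s5_6 (s1_2 p376_26),
   s5_6 (s1_2 p376_25),
   s5_6 (s1_2 p376_27),
   s5_6 (s1_2 p376_28),
   s5_6 (s1_2 p376_30),
   s5_6 (s1_2 p376_29),
   s5_6 (s1_2 p376_31)],
  [tr p368_59,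
   p376_49,
   s5_6 (s1_2 p376_49),
   tr p370_59,
   tr p371_59,
   p376_53,
   s5_6 (s1_2 p376_53),
   tr p373_59],
  [tr p374_59,
   p376_57,
   s5_6 (s1_2 p376_57),
   p376_59,
   p376_60,
   p376_61,
   s5_6 (s1_2 p376_61),
   p376_63]]

theorem k376 : eqNN c376 (slO 64 (D.chG 56 59) 8) = true := by decide +kernel

/-- The slices of the chunk 377. -/
noncomputable def c377 : List (List ℕ) := [
  [tr p340_60,
   p377_1,
   s5_6 (s1_2 p377_1),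
   tr p342_60,
   tr p343_60,
   p377_5,
   s5_6 (s1_2 p377_5),
   tr p345_60],
  [tr p346_60,
   p377_9,
   s5_6 (s1_2 p377_9),
   tr p348_60,
   tr p349_60,
   p377_13,
   s5_6 (s1_2 p377_13),
   tr p351_60],
  [p377_16,
   p377_17,
   p377_18,
   p377_19,
   p377_20,
   p377_21,
   p377_22,
   p377_23],
  [p377_24,
   p377_25,
   p377_26,
   p377_27,
   p377_28,
   p377_29,
   p377_30,
   p377_31],
  [s5_6 (s1_2 p377_16),
   s5_6 (s1_2 p377_18),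
   s5_6 (s1_2 p377_17),
   s5_6 (s1_2 p377_19),
   s5_6 (s1_2 p377_20),
   s5_6 (s1_2 p377_22),
   s5_6 (s1_2 p377_21),
   s5_6 (s1_2 p377_23)],
  [s5_6 (s1_2 p377_24),
   s5_6 (s1_2 p377_26),
   s5_6 (s1_2 p377_25),
   s5_6 (s1_2 p377_27),
   s5_6 (s1_2 p377_28),
   s5_6 (s1_2 p377_30),
   s5_6 (s1_2 p377_29),
   s5_6 (s1_2 p377_31)],
  [tr p368_60,
   p377_49,
   s5_6 (s1_2 p377_49),
   tr p370_60,
   tr p371_60,
   p377_53,
   s5_6 (s1_2 p377_53),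
   tr p373_60],
  [tr p374_60,
   p377_57,
   s5_6 (s1_2 p377_57),
   tr p376_60,
   p377_60,
   p377_61,
   s5_6 (s1_2 p377_61),
   p377_63]]

theorem k377 : eqNN c377 (slO 64 (D.chG 56 60) 8) = true := by decide +kernel

/-- The slices of the chunk 378. -/
noncomputable def c378 : List (List ℕ) := [
  [tr p340_61,
   tr p341_61,
   s3_7 (s2_5 (s1_6 (s0_4 p341_62))),
   tr p342_61,
   tr p343_61,
   tr p344_61,
   s3_7 (s2_5 (s1_6 (s0_4 p344_62))),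
   tr p345_61],
  [tr p346_61,
   tr p347_61,
   s3_7 (s2_5 (s1_6 (s0_4 p347_62))),
   tr p348_61,
   tr p349_61,
   tr p350_61,
   s3_7 (s2_5 (s1_6 (s0_4 p350_62))),
   tr p351_61],
  [tr p352_61,
   tr p353_61,
   tr p354_61,
   tr p355_61,
   tr p356_61,
   tr p357_61,
   tr p358_61,
   tr p359_61],
  [tr p360_61,
   tr p361_61,
   tr p362_61,
   tr p363_61,
   tr p364_61,
   tr p365_61,
   tr p366_61,
   tr p367_61],
  [s3_7 (s2_5 (s1_6 (s0_4 p352_62))),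
   s3_7 (s2_5 (s1_6 (s0_4 p354_62))),
   s3_7 (s2_5 (s1_6 (s0_4 p353_62))),
   s3_7 (s2_5 (s1_6 (s0_4 p355_62))),
   s3_7 (s2_5 (s1_6 (s0_4 p356_62))),
   s3_7 (s2_5 (s1_6 (s0_4 p358_62))),
   s3_7 (s2_5 (s1_6 (s0_4 p357_62))),
   s3_7 (s2_5 (s1_6 (s0_4 p359_62)))],
  [s3_7 (s2_5 (s1_6 (s0_4 p360_62))),
   s3_7 (s2_5 (s1_6 (s0_4 p362_62))),
   s3_7 (s2_5 (s1_6 (s0_4 p361_62))),
   s3_7 (s2_5 (s1_6 (s0_4 p363_62))),
   s3_7 (s2_5 (s1_6 (s0_4 p364_62))),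
   s3_7 (s2_5 (s1_6 (s0_4 p366_62))),
   s3_7 (s2_5 (s1_6 (s0_4 p365_62))),
   s3_7 (s2_5 (s1_6 (s0_4 p367_62)))],
  [tr p368_61,
   tr p369_61,
   s3_7 (s2_5 (s1_6 (s0_4 p369_62))),
   tr p370_61,
   tr p371_61,
   tr p372_61,
   s3_7 (s2_5 (s1_6 (s0_4 p372_62))),
   tr p373_61],
  [tr p374_61,
   tr p375_61,
   s3_7 (s2_5 (s1_6 (s0_4 p375_62))),
   tr p376_61,
   tr p377_61,
   p378_61,
   p378_62,
   tr p379_61]]

theorem k378 : eqNN c378 (slO 64 (D.chG 56 61) 8) = true := by decide +kernel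

/-- The slices of the chunk 379. -/
noncomputable def c379 : List (List ℕ) := [
  [tr p340_63,
   p379_1,
   s5_6 (s1_2 p379_1),
   tr p342_63,
   tr p343_63,
   p379_5,
   s5_6 (s1_2 p379_5),
   tr p345_63],
  [tr p346_63,
   p379_9,
   s5_6 (s1_2 p379_9),
   tr p348_63,
   tr p349_63,
   p379_13,
   s5_6 (s1_2 p379_13),
   tr p351_63],
  [p379_16,
   p379_17,
   p379_18,
   p379_19,
   p379_20,
   p379_21,
   p379_22,
   p379_23],
  [p379_24,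
   p379_25,
   p379_26,
   p379_27,
   p379_28,
   p379_29,
   p379_30,
   p379_31],
  [s5_6 (s1_2 p379_16),
   s5_6 (s1_2 p379_18),
   s5_6 (s1_2 p379_17),
   s5_6 (s1_2 p379_19),
   s5_6 (s1_2 p379_20),
   s5_6 (s1_2 p379_22),
   s5_6 (s1_2 p379_21),
   s5_6 (s1_2 p379_23)],
  [s5_6 (s1_2 p379_24),
   s5_6 (s1_2 p379_26),
   s5_6 (s1_2 p379_25),
   s5_6 (s1_2 p379_27),
   s5_6 (s1_2 p379_28),
   s5_6 (s1_2 p379_30),
   s5_6 (s1_2 p379_29),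
   s5_6 (s1_2 p379_31)],
  [tr p368_63,
   p379_49,
   s5_6 (s1_2 p379_49),
   tr p370_63,
   tr p371_63,
   p379_53,
   s5_6 (s1_2 p379_53),
   tr p373_63],
  [tr p374_63,
   p379_57,
   s5_6 (s1_2 p379_57),
   tr p376_63,
   tr p377_63,
   p379_61,
   s5_6 (s1_2 p379_61),
   p379_63]]

theorem k379 : eqNN c379 (slO 64 (D.chG 56 63) 8) = true := by decide +kernel

end Pool.Agent.Lib.MP_afdd4d_co.K10.E6
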