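import Pool.Agent.Lib.MP_afdd4d_co.K10.E6.Dat
import Pool.Agent.Lib.MP_afdd4d_co.K10.E6.Mk
import Pool.Agent.Lib.MP_afdd4d_co.K8.F6Bl5
import Pool.Agent.Lib.MP_afdd4d_co.K10.E6.P0
import Pool.Agent.Lib.MP_afdd4d_co.K10.E6.P1
import Pool.Agent.Lib.MP_afdd4d_co.K10.E6.P2
import Pool.Agent.Lib.MP_afdd4d_co.K10.E6.P3
import Pool.Agent.Lib.MP_afdd4d_co.K10.E6.P4
import Pool.Agent.Lib.MP_afdd4d_co.K10.E6.P5
import Pool.Agent.Lib.MP_afdd4d_co.K10.E6.P6
import Pool.Agent.Lib.MP_afdd4d_co.K10.E6.P7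
import Pool.Agent.Lib.MP_afdd4d_co.K10.E6.P8
import Pool.Agent.Lib.MP_afdd4d_co.K10.E6.P9
import Pool.Agent.Lib.MP_afdd4d_co.K10.E6.P10
import Pool.Agent.Lib.MP_afdd4d_co.K10.E6.P11
import Pool.Agent.Lib.MP_afdd4d_co.K10.E6.P12
import Pool.Agent.Lib.MP_afdd4d_co.K10.E6.P13
import Pool.Agent.Lib.MP_afdd4d_co.K10.E6.P14
import Pool.Agent.Lib.MP_afdd4d_co.K10.E6.P15
import Pool.Agent.Lib.MP_afdd4d_co.K10.E6.P16
import Pool.Agent.Lib.MP_afdd4d_co.K10.E6.P17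
import Pool.Agent.Lib.MP_afdd4d_co.K10.E6.P18
import Pool.Agent.Lib.MP_afdd4d_co.K10.E6.P19
import Pool.Agent.Lib.MP_afdd4d_co.K10.E6.P20
import Pool.Agent.Lib.MP_afdd4d_co.K10.E6.P21
import Pool.Agent.Lib.MP_afdd4d_co.K10.E6.P22
import Pool.Agent.Lib.MP_afdd4d_co.K10.E6.P23
import Pool.Agent.Lib.MP_afdd4d_co.K10.E6.P24
import Pool.Agent.Lib.MP_afdd4d_co.K10.E6.P25
import Pool.Agent.Lib.MP_afdd4d_co.K10.E6.P26
import Pool.Agent.Lib.MP_afdd4d_co.K10.E6.P27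
import Pool.Agent.Lib.MP_afdd4d_co.K10.E6.P28
import Pool.Agent.Lib.MP_afdd4d_co.K10.E6.P29
import Pool.Agent.Lib.MP_afdd4d_co.K10.E6.P30
import Pool.Agent.Lib.MP_afdd4d_co.K10.E6.P31
import Pool.Agent.Lib.MP_afdd4d_co.K10.E6.P32

/-!
# Tables
-/

namespace Pool.Agent.Lib.MP_afdd4d_co.K10.E6

open K8

set_option maxRecDepth 100000
set_option exponentiation.threshold 10000000

/-- The slices of the chunk 380. -/
noncomputable def c380 : List (List ℕ) := [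
  [p380_0,
   p380_1,
   s5_6 (s1_2 p380_1),
   p380_3,
   p380_4,
   p380_5,
   s5_6 (s1_2 p380_5),
   p380_7],
  [p380_8,
   p380_9,
   s5_6 (s1_2 p380_9),
   p380_11,
   p380_12,
   p380_13,
   s5_6 (s1_2 p380_13),
   p380_15],
  [p380_16,
   p380_17,
   p380_18,
   p380_19,
   p380_20,
   p380_21,
   p380_22,
   p380_23],
  [p380_24,
   p380_25,
   p380_26,
   p380_27,
   p380_28,
   p380_29,
   p380_30,
   p380_31],
  [s5_6 (s1_2 p380_16),
   s5_6 (s1_2 p380_18),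
   s5_6 (s1_2 p380_17),
   s5_6 (s1_2 p380_19),
   s5_6 (s1_2 p380_20),
   s5_6 (s1_2 p380_22),
   s5_6 (s1_2 p380_21),
   s5_6 (s1_2 p380_23)],
  [s5_6 (s1_2 p380_24),
   s5_6 (s1_2 p380_26),
   s5_6 (s1_2 p380_25),
   s5_6 (s1_2 p380_27),
   s5_6 (s1_2 p380_28),
   s5_6 (s1_2 p380_30),
   s5_6 (s1_2 p380_29),
   s5_6 (s1_2 p380_31)],
  [p380_48,
   p380_49,
   s5_6 (s1_2 p380_49),
   p380_51,
   p380_52,
   p380_53,
   s5_6 (s1_2 p380_53),
   p380_55],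
  [p380_56,
   p380_57,
   s5_6 (s1_2 p380_57),
   p380_59,
   p380_60,
   p380_61,
   s5_6 (s1_2 p380_61),
   p380_63]]

theorem k380 : eqNN c380 (slO 64 (D.chG 57 0) 8) = true := by decide +kernel

/-- The slices of the chunk 381. -/
noncomputable def c381 : List (List ℕ) := [
  [tr p380_1,
   p381_1,
   p381_2,
   tr p382_1,
   tr p383_1,
   p381_5,
   p381_6,
   tr p385_1],
  [tr p386_1,
   p381_9,
   p381_10,
   tr p388_1,
   tr p389_1,
   p381_13,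
   p381_14,
   tr p391_1],
  [p381_16,
   p381_17,
   p381_18,
   p381_19,
   p381_20,
   p381_21,
   p381_22,
   p381_23],
  [p381_24,
   p381_25,
   p381_26,
   p381_27,
   p381_28,
   p381_29,
   p381_30,
   p381_31],
  [p381_32,
   p381_33,
   p381_34,
   p381_35,
   p381_36,
   p381_37,
   p381_38,
   p381_39],
  [p381_40,
   p381_41,
   p381_42,
   p381_43,
   p381_44,
   p381_45,
   p381_46,
   p381_47],
  [tr p408_1,
   p381_49,
   p381_50,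
   tr p410_1,
   tr p411_1,
   p381_53,
   p381_54,
   tr p413_1],
  [tr p414_1,
   p381_57,
   p381_58,
   tr p416_1,
   tr p417_1,
   p381_61,
   p381_62,
   tr p419_1]]

theorem k381 : eqNN c381 (slO 64 (D.chG 57 1) 8) = true := by decide +kernel

/-- The slices of the chunk 382. -/
noncomputable def c382 : List (List ℕ) := [
  [tr p380_3,
   p382_1,
   s5_6 (s1_2 p382_1),
   p382_3,
   p382_4,
   p382_5,
   s5_6 (s1_2 p382_5),
   p382_7],
  [p382_8,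
   p382_9,
   s5_6 (s1_2 p382_9),
   p382_11,
   p382_12,
   p382_13,
   s5_6 (s1_2 p382_13),
   p382_15],
  [p382_16,
   p382_17,
   p382_18,
   p382_19,
   p382_20,
   p382_21,
   p382_22,
   p382_23],
  [p382_24,
   p382_25,
   p382_26,
   p382_27,
   p382_28,
   p382_29,
   p382_30,
   p382_31],
  [s5_6 (s1_2 p382_16),
   s5_6 (s1_2 p382_18),
   s5_6 (s1_2 p382_17),
   s5_6 (s1_2 p382_19),
   s5_6 (s1_2 p382_20),
   s5_6 (s1_2 p382_22),
   s5_6 (s1_2 p382_21),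
   s5_6 (s1_2 p382_23)],
  [s5_6 (s1_2 p382_24),
   s5_6 (s1_2 p382_26),
   s5_6 (s1_2 p382_25),
   s5_6 (s1_2 p382_27),
   s5_6 (s1_2 p382_28),
   s5_6 (s1_2 p382_30),
   s5_6 (s1_2 p382_29),
   s5_6 (s1_2 p382_31)],
  [p382_48,
   p382_49,
   s5_6 (s1_2 p382_49),
   p382_51,
   p382_52,
   p382_53,
   s5_6 (s1_2 p382_53),
   p382_55],
  [p382_56,
   p382_57,
   s5_6 (s1_2 p382_57),
   p382_59,
   p382_60,
   p382_61,
   s5_6 (s1_2 p382_61),
   p382_63]]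

theorem k382 : eqNN c382 (slO 64 (D.chG 57 3) 8) = true := by decide +kernel

/-- The slices of the chunk 383. -/
noncomputable def c383 : List (List ℕ) := [
  [tr p380_4,
   p383_1,
   s5_6 (s1_2 p383_1),
   tr p382_4,
   p383_4,
   p383_5,
   s5_6 (s1_2 p383_5),
   p383_7],
  [p383_8,
   p383_9,
   s5_6 (s1_2 p383_9),
   p383_11,
   p383_12,
   p383_13,
   s5_6 (s1_2 p383_13),
   p383_15],
  [p383_16,
   p383_17,
   p383_18,
   p383_19,
   p383_20,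
   p383_21,
   p383_22,
   p383_23],
  [p383_24,
   p383_25,
   p383_26,
   p383_27,
   p383_28,
   p383_29,
   p383_30,
   p383_31],
  [s5_6 (s1_2 p383_16),
   s5_6 (s1_2 p383_18),
   s5_6 (s1_2 p383_17),
   s5_6 (s1_2 p383_19),
   s5_6 (s1_2 p383_20),
   s5_6 (s1_2 p383_22),
   s5_6 (s1_2 p383_21),
   s5_6 (s1_2 p383_23)],
  [s5_6 (s1_2 p383_24),
   s5_6 (s1_2 p383_26),
   s5_6 (s1_2 p383_25),
   s5_6 (s1_2 p383_27),
   s5_6 (s1_2 p383_28),
   s5_6 (s1_2 p383_30),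
   s5_6 (s1_2 p383_29),
   s5_6 (s1_2 p383_31)],
  [p383_48,
   p383_49,
   s5_6 (s1_2 p383_49),
   p383_51,
   p383_52,
   p383_53,
   s5_6 (s1_2 p383_53),
   p383_55],
  [p383_56,
   p383_57,
   s5_6 (s1_2 p383_57),
   p383_59,
   p383_60,
   p383_61,
   s5_6 (s1_2 p383_61),
   p383_63]]

theorem k383 : eqNN c383 (slO 64 (D.chG 57 4) 8) = true := by decide +kernel

end Pool.Agent.Lib.MP_afdd4d_co.K10.E6
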