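import Pool.Agent.Lib.MP_afdd4d_co.K10.E6.Dat
import Pool.Agent.Lib.MP_afdd4d_co.K10.E6.Mk
import Pool.Agent.Lib.MP_afdd4d_co.K8.F6Bl5
import Pool.Agent.Lib.MP_afdd4d_co.K10.E6.P0
import Pool.Agent.Lib.MP_afdd4d_co.K10.E6.P1
import Pool.Agent.Lib.MP_afdd4d_co.K10.E6.P2
import Pool.Agent.Lib.MP_afdd4d_co.K10.E6.P3
import Pool.Agent.Lib.MP_afdd4d_co.K10.E6.P4
import Pool.Agent.Lib.MP_afdd4d_co.K10.E6.P5
import Pool.Agent.Lib.MP_afdd4d_co.K10.E6.P6
import Pool.Agent.Lib.MP_afdd4d_co.K10.E6.P7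
import Pool.Agent.Lib.MP_afdd4d_co.K10.E6.P8
import Pool.Agent.Lib.MP_afdd4d_co.K10.E6.P9
import Pool.Agent.Lib.MP_afdd4d_co.K10.E6.P10
import Pool.Agent.Lib.MP_afdd4d_co.K10.E6.P11
import Pool.Agent.Lib.MP_afdd4d_co.K10.E6.P12
import Pool.Agent.Lib.MP_afdd4d_co.K10.E6.P13
import Pool.Agent.Lib.MP_afdd4d_co.K10.E6.P14
import Pool.Agent.Lib.MP_afdd4d_co.K10.E6.P15
import Pool.Agent.Lib.MP_afdd4d_co.K10.E6.P16
import Pool.Agent.Lib.MP_afdd4d_co.K10.E6.P17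
import Pool.Agent.Lib.MP_afdd4d_co.K10.E6.P18
import Pool.Agent.Lib.MP_afdd4d_co.K10.E6.P19
import Pool.Agent.Lib.MP_afdd4d_co.K10.E6.P20
import Pool.Agent.Lib.MP_afdd4d_co.K10.E6.P21
import Pool.Agent.Lib.MP_afdd4d_co.K10.E6.P22
import Pool.Agent.Lib.MP_afdd4d_co.K10.E6.P23
import Pool.Agent.Lib.MP_afdd4d_co.K10.E6.P24
import Pool.Agent.Lib.MP_afdd4d_co.K10.E6.P25
import Pool.Agent.Lib.MP_afdd4d_co.K10.E6.P26
import Pool.Agent.Lib.MP_afdd4d_co.K10.E6.P27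
import Pool.Agent.Lib.MP_afdd4d_co.K10.E6.P28
import Pool.Agent.Lib.MP_afdd4d_co.K10.E6.P29
import Pool.Agent.Lib.MP_afdd4d_co.K10.E6.P30
import Pool.Agent.Lib.MP_afdd4d_co.K10.E6.P31
import Pool.Agent.Lib.MP_afdd4d_co.K10.E6.P32

/-!
# Tables
-/

namespace Pool.Agent.Lib.MP_afdd4d_co.K10.E6

open K8

set_option maxRecDepth 100000
set_option exponentiation.threshold 10000000

/-- The slices of the chunk 384. -/
noncomputable def c384 : List (List ℕ) := [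
  [tr p380_5,
   tr p381_5,
   s3_7 (s2_5 (s1_6 (s0_4 p381_6))),
   tr p382_5,
   tr p383_5,
   p384_5,
   p384_6,
   tr p385_5],
  [tr p386_5,
   p384_9,
   p384_10,
   tr p388_5,
   tr p389_5,
   p384_13,
   p384_14,
   tr p391_5],
  [p384_16,
   p384_17,
   p384_18,
   p384_19,
   p384_20,
   p384_21,
   p384_22,
   p384_23],
  [p384_24,
   p384_25,
   p384_26,
   p384_27,
   p384_28,
   p384_29,
   p384_30,
   p384_31],
  [p384_32,
   p384_33,
   p384_34,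
   p384_35,
   p384_36,
   p384_37,
   p384_38,
   p384_39],
  [p384_40,
   p384_41,
   p384_42,
   p384_43,
   p384_44,
   p384_45,
   p384_46,
   p384_47],
  [tr p408_5,
   p384_49,
   p384_50,
   tr p410_5,
   tr p411_5,
   p384_53,
   p384_54,
   tr p413_5],
  [tr p414_5,
   p384_57,
   p384_58,
   tr p416_5,
   tr p417_5,
   p384_61,
   p384_62,
   tr p419_5]]

theorem k384 : eqNN c384 (slO 64 (D.chG 57 5) 8) = true := by decide +kernel

/-- The slices of the chunk 385. -/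
noncomputable def c385 : List (List ℕ) := [
  [tr p380_7,
   p385_1,
   s5_6 (s1_2 p385_1),
   tr p382_7,
   tr p383_7,
   p385_5,
   s5_6 (s1_2 p385_5),
   p385_7],
  [p385_8,
   p385_9,
   s5_6 (s1_2 p385_9),
   p385_11,
   p385_12,
   p385_13,
   s5_6 (s1_2 p385_13),
   p385_15],
  [p385_16,
   p385_17,
   p385_18,
   p385_19,
   p385_20,
   p385_21,
   p385_22,
   p385_23],
  [p385_24,
   p385_25,
   p385_26,
   p385_27,
   p385_28,
   p385_29,
   p385_30,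
   p385_31],
  [s5_6 (s1_2 p385_16),
   s5_6 (s1_2 p385_18),
   s5_6 (s1_2 p385_17),
   s5_6 (s1_2 p385_19),
   s5_6 (s1_2 p385_20),
   s5_6 (s1_2 p385_22),
   s5_6 (s1_2 p385_21),
   s5_6 (s1_2 p385_23)],
  [s5_6 (s1_2 p385_24),
   s5_6 (s1_2 p385_26),
   s5_6 (s1_2 p385_25),
   s5_6 (s1_2 p385_27),
   s5_6 (s1_2 p385_28),
   s5_6 (s1_2 p385_30),
   s5_6 (s1_2 p385_29),
   s5_6 (s1_2 p385_31)],
  [p385_48,
   p385_49,
   s5_6 (s1_2 p385_49),
   p385_51,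
   p385_52,
   p385_53,
   s5_6 (s1_2 p385_53),
   p385_55],
  [p385_56,
   p385_57,
   s5_6 (s1_2 p385_57),
   p385_59,
   p385_60,
   p385_61,
   s5_6 (s1_2 p385_61),
   p385_63]]

theorem k385 : eqNN c385 (slO 64 (D.chG 57 7) 8) = true := by decide +kernel

/-- The slices of the chunk 386. -/
noncomputable def c386 : List (List ℕ) := [
  [tr p380_8,
   p386_1,
   s5_6 (s1_2 p386_1),
   tr p382_8,
   tr p383_8,
   p386_5,
   s5_6 (s1_2 p386_5),
   tr p385_8],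
  [p386_8,
   p386_9,
   s5_6 (s1_2 p386_9),
   p386_11,
   p386_12,
   p386_13,
   s5_6 (s1_2 p386_13),
   p386_15],
  [p386_16,
   p386_17,
   p386_18,
   p386_19,
   p386_20,
   p386_21,
   p386_22,
   p386_23],
  [p386_24,
   p386_25,
   p386_26,
   p386_27,
   p386_28,
   p386_29,
   p386_30,
   p386_31],
  [s5_6 (s1_2 p386_16),
   s5_6 (s1_2 p386_18),
   s5_6 (s1_2 p386_17),
   s5_6 (s1_2 p386_19),
   s5_6 (s1_2 p386_20),
   s5_6 (s1_2 p386_22),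
   s5_6 (s1_2 p386_21),
   s5_6 (s1_2 p386_23)],
  [s5_6 (s1_2 p386_24),
   s5_6 (s1_2 p386_26),
   s5_6 (s1_2 p386_25),
   s5_6 (s1_2 p386_27),
   s5_6 (s1_2 p386_28),
   s5_6 (s1_2 p386_30),
   s5_6 (s1_2 p386_29),
   s5_6 (s1_2 p386_31)],
  [p386_48,
   p386_49,
   s5_6 (s1_2 p386_49),
   p386_51,
   p386_52,
   p386_53,
   s5_6 (s1_2 p386_53),
   p386_55],
  [p386_56,
   p386_57,
   s5_6 (s1_2 p386_57),
   p386_59,
   p386_60,
   p386_61,
   s5_6 (s1_2 p386_61),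
   p386_63]]

theorem k386 : eqNN c386 (slO 64 (D.chG 57 8) 8) = true := by decide +kernel

/-- The slices of the chunk 387. -/
noncomputable def c387 : List (List ℕ) := [
  [tr p380_9,
   tr p381_9,
   s3_7 (s2_5 (s1_6 (s0_4 p381_10))),
   tr p382_9,
   tr p383_9,
   tr p384_9,
   s3_7 (s2_5 (s1_6 (s0_4 p384_10))),
   tr p385_9],
  [tr p386_9,
   p387_9,
   p387_10,
   tr p388_9,
   tr p389_9,
   p387_13,
   p387_14,
   tr p391_9],
  [p387_16,
   p387_17,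
   p387_18,
   p387_19,
   p387_20,
   p387_21,
   p387_22,
   p387_23],
  [p387_24,
   p387_25,
   p387_26,
   p387_27,
   p387_28,
   p387_29,
   p387_30,
   p387_31],
  [p387_32,
   p387_33,
   p387_34,
   p387_35,
   p387_36,
   p387_37,
   p387_38,
   p387_39],
  [p387_40,
   p387_41,
   p387_42,
   p387_43,
   p387_44,
   p387_45,
   p387_46,
   p387_47],
  [tr p408_9,
   p387_49,
   p387_50,
   tr p410_9,
   tr p411_9,
   p387_53,
   p387_54,
   tr p413_9],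
  [tr p414_9,
   p387_57,
   p387_58,
   tr p416_9,
   tr p417_9,
   p387_61,
   p387_62,
   tr p419_9]]

theorem k387 : eqNN c387 (slO 64 (D.chG 57 9) 8) = true := by decide +kernel

end Pool.Agent.Lib.MP_afdd4d_co.K10.E6
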