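import Pool.Agent.Lib.MP_afdd4d_co.K10.E6.Dat
import Pool.Agent.Lib.MP_afdd4d_co.K10.E6.Mk
import Pool.Agent.Lib.MP_afdd4d_co.K8.F6Bl5
import Pool.Agent.Lib.MP_afdd4d_co.K10.E6.P0
import Pool.Agent.Lib.MP_afdd4d_co.K10.E6.P1
import Pool.Agent.Lib.MP_afdd4d_co.K10.E6.P2
import Pool.Agent.Lib.MP_afdd4d_co.K10.E6.P3
import Pool.Agent.Lib.MP_afdd4d_co.K10.E6.P4
import Pool.Agent.Lib.MP_afdd4d_co.K10.E6.P5
import Pool.Agent.Lib.MP_afdd4d_co.K10.E6.P6
import Pool.Agent.Lib.MP_afdd4d_co.K10.E6.P7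
import Pool.Agent.Lib.MP_afdd4d_co.K10.E6.P8
import Pool.Agent.Lib.MP_afdd4d_co.K10.E6.P9
import Pool.Agent.Lib.MP_afdd4d_co.K10.E6.P10
import Pool.Agent.Lib.MP_afdd4d_co.K10.E6.P11
import Pool.Agent.Lib.MP_afdd4d_co.K10.E6.P12
import Pool.Agent.Lib.MP_afdd4d_co.K10.E6.P13
import Pool.Agent.Lib.MP_afdd4d_co.K10.E6.P14
import Pool.Agent.Lib.MP_afdd4d_co.K10.E6.P15
import Pool.Agent.Lib.MP_afdd4d_co.K10.E6.P16
import Pool.Agent.Lib.MP_afdd4d_co.K10.E6.P17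
import Pool.Agent.Lib.MP_afdd4d_co.K10.E6.P18
import Pool.Agent.Lib.MP_afdd4d_co.K10.E6.P19
import Pool.Agent.Lib.MP_afdd4d_co.K10.E6.P20
import Pool.Agent.Lib.MP_afdd4d_co.K10.E6.P21
import Pool.Agent.Lib.MP_afdd4d_co.K10.E6.P22
import Pool.Agent.Lib.MP_afdd4d_co.K10.E6.P23
import Pool.Agent.Lib.MP_afdd4d_co.K10.E6.P24
import Pool.Agent.Lib.MP_afdd4d_co.K10.E6.P25
import Pool.Agent.Lib.MP_afdd4d_co.K10.E6.P26
import Pool.Agent.Lib.MP_afdd4d_co.K10.E6.P27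
import Pool.Agent.Lib.MP_afdd4d_co.K10.E6.P28
import Pool.Agent.Lib.MP_afdd4d_co.K10.E6.P29
import Pool.Agent.Lib.MP_afdd4d_co.K10.E6.P30
import Pool.Agent.Lib.MP_afdd4d_co.K10.E6.P31
import Pool.Agent.Lib.MP_afdd4d_co.K10.E6.P32

/-!
# Tables
-/

namespace Pool.Agent.Lib.MP_afdd4d_co.K10.E6

open K8

set_option maxRecDepth 100000
set_option exponentiation.threshold 10000000

/-- The slices of the chunk 388. -/
noncomputable def c388 : List (List ℕ) := [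
  [tr p380_11,
   p388_1,
   s5_6 (s1_2 p388_1),
   tr p382_11,
   tr p383_11,
   p388_5,
   s5_6 (s1_2 p388_5),
   tr p385_11],
  [tr p386_11,
   p388_9,
   s5_6 (s1_2 p388_9),
   p388_11,
   p388_12,
   p388_13,
   s5_6 (s1_2 p388_13),
   p388_15],
  [p388_16,
   p388_17,
   p388_18,
   p388_19,
   p388_20,
   p388_21,
   p388_22,
   p388_23],
  [p388_24,
   p388_25,
   p388_26,
   p388_27,
   p388_28,
   p388_29,
   p388_30,
   p388_31],
  [s5_6 (s1_2 p388_16),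
   s5_6 (s1_2 p388_18),
   s5_6 (s1_2 p388_17),
   s5_6 (s1_2 p388_19),
   s5_6 (s1_2 p388_20),
   s5_6 (s1_2 p388_22),
   s5_6 (s1_2 p388_21),
   s5_6 (s1_2 p388_23)],
  [s5_6 (s1_2 p388_24),
   s5_6 (s1_2 p388_26),
   s5_6 (s1_2 p388_25),
   s5_6 (s1_2 p388_27),
   s5_6 (s1_2 p388_28),
   s5_6 (s1_2 p388_30),
   s5_6 (s1_2 p388_29),
   s5_6 (s1_2 p388_31)],
  [p388_48,
   p388_49,
   s5_6 (s1_2 p388_49),
   p388_51,
   p388_52,
   p388_53,
   s5_6 (s1_2 p388_53),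
   p388_55],
  [p388_56,
   p388_57,
   s5_6 (s1_2 p388_57),
   p388_59,
   p388_60,
   p388_61,
   s5_6 (s1_2 p388_61),
   p388_63]]

theorem k388 : eqNN c388 (slO 64 (D.chG 57 11) 8) = true := by decide +kernel

/-- The slices of the chunk 389. -/
noncomputable def c389 : List (List ℕ) := [
  [tr p380_12,
   p389_1,
   s5_6 (s1_2 p389_1),
   tr p382_12,
   tr p383_12,
   p389_5,
   s5_6 (s1_2 p389_5),
   tr p385_12],
  [tr p386_12,
   p389_9,
   s5_6 (s1_2 p389_9),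
   tr p388_12,
   p389_12,
   p389_13,
   s5_6 (s1_2 p389_13),
   p389_15],
  [p389_16,
   p389_17,
   p389_18,
   p389_19,
   p389_20,
   p389_21,
   p389_22,
   p389_23],
  [p389_24,
   p389_25,
   p389_26,
   p389_27,
   p389_28,
   p389_29,
   p389_30,
   p389_31],
  [s5_6 (s1_2 p389_16),
   s5_6 (s1_2 p389_18),
   s5_6 (s1_2 p389_17),
   s5_6 (s1_2 p389_19),
   s5_6 (s1_2 p389_20),
   s5_6 (s1_2 p389_22),
   s5_6 (s1_2 p389_21),
   s5_6 (s1_2 p389_23)],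
  [s5_6 (s1_2 p389_24),
   s5_6 (s1_2 p389_26),
   s5_6 (s1_2 p389_25),
   s5_6 (s1_2 p389_27),
   s5_6 (s1_2 p389_28),
   s5_6 (s1_2 p389_30),
   s5_6 (s1_2 p389_29),
   s5_6 (s1_2 p389_31)],
  [p389_48,
   p389_49,
   s5_6 (s1_2 p389_49),
   p389_51,
   p389_52,
   p389_53,
   s5_6 (s1_2 p389_53),
   p389_55],
  [p389_56,
   p389_57,
   s5_6 (s1_2 p389_57),
   p389_59,
   p389_60,
   p389_61,
   s5_6 (s1_2 p389_61),
   p389_63]]

theorem k389 : eqNN c389 (slO 64 (D.chG 57 12) 8) = true := by decide +kernel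

/-- The slices of the chunk 390. -/
noncomputable def c390 : List (List ℕ) := [
  [tr p380_13,
   tr p381_13,
   s3_7 (s2_5 (s1_6 (s0_4 p381_14))),
   tr p382_13,
   tr p383_13,
   tr p384_13,
   s3_7 (s2_5 (s1_6 (s0_4 p384_14))),
   tr p385_13],
  [tr p386_13,
   tr p387_13,
   s3_7 (s2_5 (s1_6 (s0_4 p387_14))),
   tr p388_13,
   tr p389_13,
   p390_13,
   p390_14,
   tr p391_13],
  [p390_16,
   p390_17,
   p390_18,
   p390_19,
   p390_20,
   p390_21,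
   p390_22,
   p390_23],
  [p390_24,
   p390_25,
   p390_26,
   p390_27,
   p390_28,
   p390_29,
   p390_30,
   p390_31],
  [p390_32,
   p390_33,
   p390_34,
   p390_35,
   p390_36,
   p390_37,
   p390_38,
   p390_39],
  [p390_40,
   p390_41,
   p390_42,
   p390_43,
   p390_44,
   p390_45,
   p390_46,
   p390_47],
  [tr p408_13,
   p390_49,
   p390_50,
   tr p410_13,
   tr p411_13,
   p390_53,
   p390_54,
   tr p413_13],
  [tr p414_13,
   p390_57,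
   p390_58,
   tr p416_13,
   tr p417_13,
   p390_61,
   p390_62,
   tr p419_13]]

theorem k390 : eqNN c390 (slO 64 (D.chG 57 13) 8) = true := by decide +kernel

/-- The slices of the chunk 391. -/
noncomputable def c391 : List (List ℕ) := [
  [tr p380_15,
   p391_1,
   s5_6 (s1_2 p391_1),
   tr p382_15,
   tr p383_15,
   p391_5,
   s5_6 (s1_2 p391_5),
   tr p385_15],
  [tr p386_15,
   p391_9,
   s5_6 (s1_2 p391_9),
   tr p388_15,
   tr p389_15,
   p391_13,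
   s5_6 (s1_2 p391_13),
   p391_15],
  [p391_16,
   p391_17,
   p391_18,
   p391_19,
   p391_20,
   p391_21,
   p391_22,
   p391_23],
  [p391_24,
   p391_25,
   p391_26,
   p391_27,
   p391_28,
   p391_29,
   p391_30,
   p391_31],
  [s5_6 (s1_2 p391_16),
   s5_6 (s1_2 p391_18),
   s5_6 (s1_2 p391_17),
   s5_6 (s1_2 p391_19),
   s5_6 (s1_2 p391_20),
   s5_6 (s1_2 p391_22),
   s5_6 (s1_2 p391_21),
   s5_6 (s1_2 p391_23)],
  [s5_6 (s1_2 p391_24),
   s5_6 (s1_2 p391_26),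
   s5_6 (s1_2 p391_25),
   s5_6 (s1_2 p391_27),
   s5_6 (s1_2 p391_28),
   s5_6 (s1_2 p391_30),
   s5_6 (s1_2 p391_29),
   s5_6 (s1_2 p391_31)],
  [p391_48,
   p391_49,
   s5_6 (s1_2 p391_49),
   p391_51,
   p391_52,
   p391_53,
   s5_6 (s1_2 p391_53),
   p391_55],
  [p391_56,
   p391_57,
   s5_6 (s1_2 p391_57),
   p391_59,
   p391_60,
   p391_61,
   s5_6 (s1_2 p391_61),
   p391_63]]

theorem k391 : eqNN c391 (slO 64 (D.chG 57 15) 8) = true := by decide +kernel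

end Pool.Agent.Lib.MP_afdd4d_co.K10.E6
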