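import Pool.Agent.Lib.MP_afdd4d_co.K10.E6.Dat
import Pool.Agent.Lib.MP_afdd4d_co.K10.E6.Mk
import Pool.Agent.Lib.MP_afdd4d_co.K8.F6Bl5
import Pool.Agent.Lib.MP_afdd4d_co.K10.E6.P0
import Pool.Agent.Lib.MP_afdd4d_co.K10.E6.P1
import Pool.Agent.Lib.MP_afdd4d_co.K10.E6.P2
import Pool.Agent.Lib.MP_afdd4d_co.K10.E6.P3
import Pool.Agent.Lib.MP_afdd4d_co.K10.E6.P4
import Pool.Agent.Lib.MP_afdd4d_co.K10.E6.P5
import Pool.Agent.Lib.MP_afdd4d_co.K10.E6.P6
import Pool.Agent.Lib.MP_afdd4d_co.K10.E6.P7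
import Pool.Agent.Lib.MP_afdd4d_co.K10.E6.P8
import Pool.Agent.Lib.MP_afdd4d_co.K10.E6.P9
import Pool.Agent.Lib.MP_afdd4d_co.K10.E6.P10
import Pool.Agent.Lib.MP_afdd4d_co.K10.E6.P11
import Pool.Agent.Lib.MP_afdd4d_co.K10.E6.P12
import Pool.Agent.Lib.MP_afdd4d_co.K10.E6.P13
import Pool.Agent.Lib.MP_afdd4d_co.K10.E6.P14
import Pool.Agent.Lib.MP_afdd4d_co.K10.E6.P15
import Pool.Agent.Lib.MP_afdd4d_co.K10.E6.P16
import Pool.Agent.Lib.MP_afdd4d_co.K10.E6.P17
import Pool.Agent.Lib.MP_afdd4d_co.K10.E6.P18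
import Pool.Agent.Lib.MP_afdd4d_co.K10.E6.P19
import Pool.Agent.Lib.MP_afdd4d_co.K10.E6.P20
import Pool.Agent.Lib.MP_afdd4d_co.K10.E6.P21
import Pool.Agent.Lib.MP_afdd4d_co.K10.E6.P22
import Pool.Agent.Lib.MP_afdd4d_co.K10.E6.P23
import Pool.Agent.Lib.MP_afdd4d_co.K10.E6.P24
import Pool.Agent.Lib.MP_afdd4d_co.K10.E6.P25
import Pool.Agent.Lib.MP_afdd4d_co.K10.E6.P26
import Pool.Agent.Lib.MP_afdd4d_co.K10.E6.P27
import Pool.Agent.Lib.MP_afdd4d_co.K10.E6.P28
import Pool.Agent.Lib.MP_afdd4d_co.K10.E6.P29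
import Pool.Agent.Lib.MP_afdd4d_co.K10.E6.P30
import Pool.Agent.Lib.MP_afdd4d_co.K10.E6.P31
import Pool.Agent.Lib.MP_afdd4d_co.K10.E6.P32

/-!
# Tables
-/

namespace Pool.Agent.Lib.MP_afdd4d_co.K10.E6

open K8

set_option maxRecDepth 100000
set_option exponentiation.threshold 10000000

/-- The slices of the chunk 392. -/
noncomputable def c392 : List (List ℕ) := [
  [tr p380_16,
   tr p381_16,
   s3_7 (s2_5 (s1_6 (s0_4 p381_32))),
   tr p382_16,
   tr p383_16,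
   tr p384_16,
   s3_7 (s2_5 (s1_6 (s0_4 p384_32))),
   tr p385_16],
  [tr p386_16,
   tr p387_16,
   s3_7 (s2_5 (s1_6 (s0_4 p387_32))),
   tr p388_16,
   tr p389_16,
   tr p390_16,
   s3_7 (s2_5 (s1_6 (s0_4 p390_32))),
   tr p391_16],
  [p392_16,
   p392_17,
   p392_18,
   p392_19,
   p392_20,
   p392_21,
   p392_22,
   p392_23],
  [p392_24,
   p392_25,
   p392_26,
   p392_27,
   p392_28,
   p392_29,
   p392_30,
   p392_31],
  [p392_32,
   p392_33,
   p392_34,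
   p392_35,
   p392_36,
   p392_37,
   p392_38,
   p392_39],
  [p392_40,
   p392_41,
   p392_42,
   p392_43,
   p392_44,
   p392_45,
   p392_46,
   p392_47],
  [tr p408_16,
   p392_49,
   p392_50,
   tr p410_16,
   tr p411_16,
   p392_53,
   p392_54,
   tr p413_16],
  [tr p414_16,
   p392_57,
   p392_58,
   tr p416_16,
   tr p417_16,
   p392_61,
   p392_62,
   tr p419_16]]

theorem k392 : eqNN c392 (slO 64 (D.chG 57 16) 8) = true := by decide +kernel

/-- The slices of the chunk 393. -/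
noncomputable def c393 : List (List ℕ) := [
  [tr p380_17,
   tr p381_17,
   s3_7 (s2_5 (s1_6 (s0_4 p381_34))),
   tr p382_17,
   tr p383_17,
   tr p384_17,
   s3_7 (s2_5 (s1_6 (s0_4 p384_34))),
   tr p385_17],
  [tr p386_17,
   tr p387_17,
   s3_7 (s2_5 (s1_6 (s0_4 p387_34))),
   tr p388_17,
   tr p389_17,
   tr p390_17,
   s3_7 (s2_5 (s1_6 (s0_4 p390_34))),
   tr p391_17],
  [tr p392_17,
   p393_17,
   p393_18,
   p393_19,
   p393_20,
   p393_21,
   p393_22,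
   p393_23],
  [p393_24,
   p393_25,
   p393_26,
   p393_27,
   p393_28,
   p393_29,
   p393_30,
   p393_31],
  [s3_7 (s2_5 (s1_6 (s0_4 p392_34))),
   p393_33,
   p393_34,
   p393_35,
   p393_36,
   p393_37,
   p393_38,
   p393_39],
  [p393_40,
   p393_41,
   p393_42,
   p393_43,
   p393_44,
   p393_45,
   p393_46,
   p393_47],
  [tr p408_17,
   p393_49,
   p393_50,
   tr p410_17,
   tr p411_17,
   p393_53,
   p393_54,
   tr p413_17],
  [tr p414_17,
   p393_57,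
   p393_58,
   tr p416_17,
   tr p417_17,
   p393_61,
   p393_62,
   tr p419_17]]

theorem k393 : eqNN c393 (slO 64 (D.chG 57 17) 8) = true := by decide +kernel

/-- The slices of the chunk 394. -/
noncomputable def c394 : List (List ℕ) := [
  [tr p380_18,
   tr p381_18,
   s3_7 (s2_5 (s1_6 (s0_4 p381_33))),
   tr p382_18,
   tr p383_18,
   tr p384_18,
   s3_7 (s2_5 (s1_6 (s0_4 p384_33))),
   tr p385_18],
  [tr p386_18,
   tr p387_18,
   s3_7 (s2_5 (s1_6 (s0_4 p387_33))),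
   tr p388_18,
   tr p389_18,
   tr p390_18,
   s3_7 (s2_5 (s1_6 (s0_4 p390_33))),
   tr p391_18],
  [tr p392_18,
   tr p393_18,
   p394_18,
   p394_19,
   p394_20,
   p394_21,
   p394_22,
   p394_23],
  [p394_24,
   p394_25,
   p394_26,
   p394_27,
   p394_28,
   p394_29,
   p394_30,
   p394_31],
  [s3_7 (s2_5 (s1_6 (s0_4 p392_33))),
   p394_33,
   s3_7 (s2_5 (s1_6 (s0_4 p393_33))),
   p394_35,
   p394_36,
   p394_37,
   p394_38,
   p394_39],
  [p394_40,
   p394_41,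
   p394_42,
   p394_43,
   p394_44,
   p394_45,
   p394_46,
   p394_47],
  [tr p408_18,
   p394_49,
   p394_50,
   tr p410_18,
   tr p411_18,
   p394_53,
   p394_54,
   tr p413_18],
  [tr p414_18,
   p394_57,
   p394_58,
   tr p416_18,
   tr p417_18,
   p394_61,
   p394_62,
   tr p419_18]]

theorem k394 : eqNN c394 (slO 64 (D.chG 57 18) 8) = true := by decide +kernel

/-- The slices of the chunk 395. -/
noncomputable def c395 : List (List ℕ) := [
  [tr p380_19,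
   tr p381_19,
   s3_7 (s2_5 (s1_6 (s0_4 p381_35))),
   tr p382_19,
   tr p383_19,
   tr p384_19,
   s3_7 (s2_5 (s1_6 (s0_4 p384_35))),
   tr p385_19],
  [tr p386_19,
   tr p387_19,
   s3_7 (s2_5 (s1_6 (s0_4 p387_35))),
   tr p388_19,
   tr p389_19,
   tr p390_19,
   s3_7 (s2_5 (s1_6 (s0_4 p390_35))),
   tr p391_19],
  [tr p392_19,
   tr p393_19,
   tr p394_19,
   p395_19,
   p395_20,
   p395_21,
   p395_22,
   p395_23],
  [p395_24,
   p395_25,
   p395_26,
   p395_27,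
   p395_28,
   p395_29,
   p395_30,
   p395_31],
  [s3_7 (s2_5 (s1_6 (s0_4 p392_35))),
   s3_7 (s2_5 (s1_6 (s0_4 p394_35))),
   s3_7 (s2_5 (s1_6 (s0_4 p393_35))),
   p395_35,
   p395_36,
   p395_37,
   p395_38,
   p395_39],
  [p395_40,
   p395_41,
   p395_42,
   p395_43,
   p395_44,
   p395_45,
   p395_46,
   p395_47],
  [tr p408_19,
   p395_49,
   p395_50,
   tr p410_19,
   tr p411_19,
   p395_53,
   p395_54,
   tr p413_19],
  [tr p414_19,
   p395_57,
   p395_58,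
   tr p416_19,
   tr p417_19,
   p395_61,
   p395_62,
   tr p419_19]]

theorem k395 : eqNN c395 (slO 64 (D.chG 57 19) 8) = true := by decide +kernel

end Pool.Agent.Lib.MP_afdd4d_co.K10.E6
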