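import Pool.Agent.Lib.MP_afdd4d_co.K10.E6.Dat
import Pool.Agent.Lib.MP_afdd4d_co.K10.E6.Mk
import Pool.Agent.Lib.MP_afdd4d_co.K8.F6Bl5
import Pool.Agent.Lib.MP_afdd4d_co.K10.E6.P0
import Pool.Agent.Lib.MP_afdd4d_co.K10.E6.P1
import Pool.Agent.Lib.MP_afdd4d_co.K10.E6.P2
import Pool.Agent.Lib.MP_afdd4d_co.K10.E6.P3
import Pool.Agent.Lib.MP_afdd4d_co.K10.E6.P4
import Pool.Agent.Lib.MP_afdd4d_co.K10.E6.P5
import Pool.Agent.Lib.MP_afdd4d_co.K10.E6.P6
import Pool.Agent.Lib.MP_afdd4d_co.K10.E6.P7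
import Pool.Agent.Lib.MP_afdd4d_co.K10.E6.P8
import Pool.Agent.Lib.MP_afdd4d_co.K10.E6.P9
import Pool.Agent.Lib.MP_afdd4d_co.K10.E6.P10
import Pool.Agent.Lib.MP_afdd4d_co.K10.E6.P11
import Pool.Agent.Lib.MP_afdd4d_co.K10.E6.P12
import Pool.Agent.Lib.MP_afdd4d_co.K10.E6.P13
import Pool.Agent.Lib.MP_afdd4d_co.K10.E6.P14
import Pool.Agent.Lib.MP_afdd4d_co.K10.E6.P15
import Pool.Agent.Lib.MP_afdd4d_co.K10.E6.P16
import Pool.Agent.Lib.MP_afdd4d_co.K10.E6.P17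
import Pool.Agent.Lib.MP_afdd4d_co.K10.E6.P18
import Pool.Agent.Lib.MP_afdd4d_co.K10.E6.P19
import Pool.Agent.Lib.MP_afdd4d_co.K10.E6.P20
import Pool.Agent.Lib.MP_afdd4d_co.K10.E6.P21
import Pool.Agent.Lib.MP_afdd4d_co.K10.E6.P22
import Pool.Agent.Lib.MP_afdd4d_co.K10.E6.P23
import Pool.Agent.Lib.MP_afdd4d_co.K10.E6.P24
import Pool.Agent.Lib.MP_afdd4d_co.K10.E6.P25
import Pool.Agent.Lib.MP_afdd4d_co.K10.E6.P26
import Pool.Agent.Lib.MP_afdd4d_co.K10.E6.P27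
import Pool.Agent.Lib.MP_afdd4d_co.K10.E6.P28
import Pool.Agent.Lib.MP_afdd4d_co.K10.E6.P29
import Pool.Agent.Lib.MP_afdd4d_co.K10.E6.P30
import Pool.Agent.Lib.MP_afdd4d_co.K10.E6.P31
import Pool.Agent.Lib.MP_afdd4d_co.K10.E6.P32

/-!
# Tables
-/

namespace Pool.Agent.Lib.MP_afdd4d_co.K10.E6

open K8

set_option maxRecDepth 100000
set_option exponentiation.threshold 10000000

/-- The slices of the chunk 396. -/
noncomputable def c396 : List (List ℕ) := [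
  [tr p380_20,
   tr p381_20,
   s3_7 (s2_5 (s1_6 (s0_4 p381_36))),
   tr p382_20,
   tr p383_20,
   tr p384_20,
   s3_7 (s2_5 (s1_6 (s0_4 p384_36))),
   tr p385_20],
  [tr p386_20,
   tr p387_20,
   s3_7 (s2_5 (s1_6 (s0_4 p387_36))),
   tr p388_20,
   tr p389_20,
   tr p390_20,
   s3_7 (s2_5 (s1_6 (s0_4 p390_36))),
   tr p391_20],
  [tr p392_20,
   tr p393_20,
   tr p394_20,
   tr p395_20,
   p396_20,
   p396_21,
   p396_22,
   p396_23],
  [p396_24,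
   p396_25,
   p396_26,
   p396_27,
   p396_28,
   p396_29,
   p396_30,
   p396_31],
  [s3_7 (s2_5 (s1_6 (s0_4 p392_36))),
   s3_7 (s2_5 (s1_6 (s0_4 p394_36))),
   s3_7 (s2_5 (s1_6 (s0_4 p393_36))),
   s3_7 (s2_5 (s1_6 (s0_4 p395_36))),
   p396_36,
   p396_37,
   p396_38,
   p396_39],
  [p396_40,
   p396_41,
   p396_42,
   p396_43,
   p396_44,
   p396_45,
   p396_46,
   p396_47],
  [tr p408_20,
   p396_49,
   p396_50,
   tr p410_20,
   tr p411_20,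
   p396_53,
   p396_54,
   tr p413_20],
  [tr p414_20,
   p396_57,
   p396_58,
   tr p416_20,
   tr p417_20,
   p396_61,
   p396_62,
   tr p419_20]]

theorem k396 : eqNN c396 (slO 64 (D.chG 57 20) 8) = true := by decide +kernel

/-- The slices of the chunk 397. -/
noncomputable def c397 : List (List ℕ) := [
  [tr p380_21,
   tr p381_21,
   s3_7 (s2_5 (s1_6 (s0_4 p381_38))),
   tr p382_21,
   tr p383_21,
   tr p384_21,
   s3_7 (s2_5 (s1_6 (s0_4 p384_38))),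
   tr p385_21],
  [tr p386_21,
   tr p387_21,
   s3_7 (s2_5 (s1_6 (s0_4 p387_38))),
   tr p388_21,
   tr p389_21,
   tr p390_21,
   s3_7 (s2_5 (s1_6 (s0_4 p390_38))),
   tr p391_21],
  [tr p392_21,
   tr p393_21,
   tr p394_21,
   tr p395_21,
   tr p396_21,
   p397_21,
   p397_22,
   p397_23],
  [p397_24,
   p397_25,
   p397_26,
   p397_27,
   p397_28,
   p397_29,
   p397_30,
   p397_31],
  [s3_7 (s2_5 (s1_6 (s0_4 p392_38))),
   s3_7 (s2_5 (s1_6 (s0_4 p394_38))),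
   s3_7 (s2_5 (s1_6 (s0_4 p393_38))),
   s3_7 (s2_5 (s1_6 (s0_4 p395_38))),
   s3_7 (s2_5 (s1_6 (s0_4 p396_38))),
   p397_37,
   p397_38,
   p397_39],
  [p397_40,
   p397_41,
   p397_42,
   p397_43,
   p397_44,
   p397_45,
   p397_46,
   p397_47],
  [tr p408_21,
   p397_49,
   p397_50,
   tr p410_21,
   tr p411_21,
   p397_53,
   p397_54,
   tr p413_21],
  [tr p414_21,
   p397_57,
   p397_58,
   tr p416_21,
   tr p417_21,
   p397_61,
   p397_62,
   tr p419_21]]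

theorem k397 : eqNN c397 (slO 64 (D.chG 57 21) 8) = true := by decide +kernel

/-- The slices of the chunk 398. -/
noncomputable def c398 : List (List ℕ) := [
  [tr p380_22,
   tr p381_22,
   s3_7 (s2_5 (s1_6 (s0_4 p381_37))),
   tr p382_22,
   tr p383_22,
   tr p384_22,
   s3_7 (s2_5 (s1_6 (s0_4 p384_37))),
   tr p385_22],
  [tr p386_22,
   tr p387_22,
   s3_7 (s2_5 (s1_6 (s0_4 p387_37))),
   tr p388_22,
   tr p389_22,
   tr p390_22,
   s3_7 (s2_5 (s1_6 (s0_4 p390_37))),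
   tr p391_22],
  [tr p392_22,
   tr p393_22,
   tr p394_22,
   tr p395_22,
   tr p396_22,
   tr p397_22,
   p398_22,
   p398_23],
  [p398_24,
   p398_25,
   p398_26,
   p398_27,
   p398_28,
   p398_29,
   p398_30,
   p398_31],
  [s3_7 (s2_5 (s1_6 (s0_4 p392_37))),
   s3_7 (s2_5 (s1_6 (s0_4 p394_37))),
   s3_7 (s2_5 (s1_6 (s0_4 p393_37))),
   s3_7 (s2_5 (s1_6 (s0_4 p395_37))),
   s3_7 (s2_5 (s1_6 (s0_4 p396_37))),
   p398_37,
   s3_7 (s2_5 (s1_6 (s0_4 p397_37))),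
   p398_39],
  [p398_40,
   p398_41,
   p398_42,
   p398_43,
   p398_44,
   p398_45,
   p398_46,
   p398_47],
  [tr p408_22,
   p398_49,
   p398_50,
   tr p410_22,
   tr p411_22,
   p398_53,
   p398_54,
   tr p413_22],
  [tr p414_22,
   p398_57,
   p398_58,
   tr p416_22,
   tr p417_22,
   p398_61,
   p398_62,
   tr p419_22]]

theorem k398 : eqNN c398 (slO 64 (D.chG 57 22) 8) = true := by decide +kernel

/-- The slices of the chunk 399. -/
noncomputable def c399 : List (List ℕ) := [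
  [tr p380_23,
   tr p381_23,
   s3_7 (s2_5 (s1_6 (s0_4 p381_39))),
   tr p382_23,
   tr p383_23,
   tr p384_23,
   s3_7 (s2_5 (s1_6 (s0_4 p384_39))),
   tr p385_23],
  [tr p386_23,
   tr p387_23,
   s3_7 (s2_5 (s1_6 (s0_4 p387_39))),
   tr p388_23,
   tr p389_23,
   tr p390_23,
   s3_7 (s2_5 (s1_6 (s0_4 p390_39))),
   tr p391_23],
  [tr p392_23,
   tr p393_23,
   tr p394_23,
   tr p395_23,
   tr p396_23,
   tr p397_23,
   tr p398_23,
   p399_23],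
  [p399_24,
   p399_25,
   p399_26,
   p399_27,
   p399_28,
   p399_29,
   p399_30,
   p399_31],
  [s3_7 (s2_5 (s1_6 (s0_4 p392_39))),
   s3_7 (s2_5 (s1_6 (s0_4 p394_39))),
   s3_7 (s2_5 (s1_6 (s0_4 p393_39))),
   s3_7 (s2_5 (s1_6 (s0_4 p395_39))),
   s3_7 (s2_5 (s1_6 (s0_4 p396_39))),
   s3_7 (s2_5 (s1_6 (s0_4 p398_39))),
   s3_7 (s2_5 (s1_6 (s0_4 p397_39))),
   p399_39],
  [p399_40,
   p399_41,
   p399_42,
   p399_43,
   p399_44,
   p399_45,
   p399_46,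
   p399_47],
  [tr p408_23,
   p399_49,
   p399_50,
   tr p410_23,
   tr p411_23,
   p399_53,
   p399_54,
   tr p413_23],
  [tr p414_23,
   p399_57,
   p399_58,
   tr p416_23,
   tr p417_23,
   p399_61,
   p399_62,
   tr p419_23]]

theorem k399 : eqNN c399 (slO 64 (D.chG 57 23) 8) = true := by decide +kernel

end Pool.Agent.Lib.MP_afdd4d_co.K10.E6
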