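import Pool.Agent.Lib.MP_afdd4d_co.K10.E6.Geo
import Pool.Agent.Lib.MP_afdd4d_co.K10.E6.Lks
import Pool.Agent.Lib.MP_afdd4d_co.K10.E6.T1
import Pool.Agent.Lib.MP_afdd4d_co.K10.E6.T2
import Pool.Agent.Lib.MP_afdd4d_co.K10.E6.T3
import Pool.Agent.Lib.MP_afdd4d_co.K10.E6.T4
import Pool.Agent.Lib.MP_afdd4d_co.K10.E6.T5
import Pool.Agent.Lib.MP_afdd4d_co.K10.E6.T6
import Pool.Agent.Lib.MP_afdd4d_co.K10.E6.T7
import Pool.Agent.Lib.MP_afdd4d_co.K10.E6.T8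
import Pool.Agent.Lib.MP_afdd4d_co.K10.E6.T9
import Pool.Agent.Lib.MP_afdd4d_co.K10.E6.T10
import Pool.Agent.Lib.MP_afdd4d_co.K10.E6.T11
import Pool.Agent.Lib.MP_afdd4d_co.K10.E6.T12
import Pool.Agent.Lib.MP_afdd4d_co.K10.E6.T13
import Pool.Agent.Lib.MP_afdd4d_co.K10.E6.T14
import Pool.Agent.Lib.MP_afdd4d_co.K10.E6.T15
import Pool.Agent.Lib.MP_afdd4d_co.K10.E6.T16

/-!
# The tables
-/

namespace Pool.Agent.Lib.MP_afdd4d_co.K10.E6

open K8

set_option maxRecDepth 100000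
set_option exponentiation.threshold 10000000

/-- The tables. -/
noncomputable def D : TF where
  W := 64
  w := 23
  of := 2
  fo := 4194304
  kv := 22
  kb := 45
  tp := [[], l1, l2, l3, l4, l5, l6, l7, l8, l9, l10, l11, l12, l13, l14, l15, l16]
  tab := tab
  prg := prg

end Pool.Agent.Lib.MP_afdd4d_co.K10.E6
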