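import Pool.Agent.Lib.MP_afdd4d_co.K8.F6Chk
import Pool.Agent.Lib.MP_afdd4d_co.K10.E6.Dat
import Pool.Agent.Lib.MP_afdd4d_co.K10.E6.Q1
import Pool.Agent.Lib.MP_afdd4d_co.K10.E6.Q2
import Pool.Agent.Lib.MP_afdd4d_co.K10.E6.Q3
import Pool.Agent.Lib.MP_afdd4d_co.K10.E6.Q4
import Pool.Agent.Lib.MP_afdd4d_co.K10.E6.Q5
import Pool.Agent.Lib.MP_afdd4d_co.K10.E6.Q6
import Pool.Agent.Lib.MP_afdd4d_co.K10.E6.Q7
import Pool.Agent.Lib.MP_afdd4d_co.K10.E6.Q8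
import Pool.Agent.Lib.MP_afdd4d_co.K10.E6.Q9
import Pool.Agent.Lib.MP_afdd4d_co.K10.E6.Q10
import Pool.Agent.Lib.MP_afdd4d_co.K10.E6.Q11
import Pool.Agent.Lib.MP_afdd4d_co.K10.E6.Q12
import Pool.Agent.Lib.MP_afdd4d_co.K10.E6.Q13
import Pool.Agent.Lib.MP_afdd4d_co.K10.E6.Q14
import Pool.Agent.Lib.MP_afdd4d_co.K10.E6.Q15
import Pool.Agent.Lib.MP_afdd4d_co.K10.E6.Q16
import Pool.Agent.Lib.MP_afdd4d_co.K10.E6.Z1_0
import Pool.Agent.Lib.MP_afdd4d_co.K10.E6.Z1_1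
import Pool.Agent.Lib.MP_afdd4d_co.K10.E6.Z1_2
import Pool.Agent.Lib.MP_afdd4d_co.K10.E6.Z1_3
import Pool.Agent.Lib.MP_afdd4d_co.K10.E6.Z1_4
import Pool.Agent.Lib.MP_afdd4d_co.K10.E6.Z1_5
import Pool.Agent.Lib.MP_afdd4d_co.K10.E6.Z1_6
import Pool.Agent.Lib.MP_afdd4d_co.K10.E6.Z1_7
import Pool.Agent.Lib.MP_afdd4d_co.K10.E6.Z1_8
import Pool.Agent.Lib.MP_afdd4d_co.K10.E6.Z2_0
import Pool.Agent.Lib.MP_afdd4d_co.K10.E6.Z2_1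
import Pool.Agent.Lib.MP_afdd4d_co.K10.E6.Z2_2
import Pool.Agent.Lib.MP_afdd4d_co.K10.E6.Z2_3
import Pool.Agent.Lib.MP_afdd4d_co.K10.E6.Z2_4
import Pool.Agent.Lib.MP_afdd4d_co.K10.E6.Z2_5
import Pool.Agent.Lib.MP_afdd4d_co.K10.E6.Z2_6
import Pool.Agent.Lib.MP_afdd4d_co.K10.E6.Z2_7
import Pool.Agent.Lib.MP_afdd4d_co.K10.E6.Z2_8
import Pool.Agent.Lib.MP_afdd4d_co.K10.E6.Z2_9
import Pool.Agent.Lib.MP_afdd4d_co.K10.E6.Z3_0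
import Pool.Agent.Lib.MP_afdd4d_co.K10.E6.Z3_1
import Pool.Agent.Lib.MP_afdd4d_co.K10.E6.Z3_2
import Pool.Agent.Lib.MP_afdd4d_co.K10.E6.Z3_3
import Pool.Agent.Lib.MP_afdd4d_co.K10.E6.Z3_4
import Pool.Agent.Lib.MP_afdd4d_co.K10.E6.Z3_5
import Pool.Agent.Lib.MP_afdd4d_co.K10.E6.Z3_6
import Pool.Agent.Lib.MP_afdd4d_co.K10.E6.Z4_0
import Pool.Agent.Lib.MP_afdd4d_co.K10.E6.Z4_1
import Pool.Agent.Lib.MP_afdd4d_co.K10.E6.Z4_2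
import Pool.Agent.Lib.MP_afdd4d_co.K10.E6.Z4_3
import Pool.Agent.Lib.MP_afdd4d_co.K10.E6.Z4_4
import Pool.Agent.Lib.MP_afdd4d_co.K10.E6.Z4_5
import Pool.Agent.Lib.MP_afdd4d_co.K10.E6.Z5_0
import Pool.Agent.Lib.MP_afdd4d_co.K10.E6.Z5_1
import Pool.Agent.Lib.MP_afdd4d_co.K10.E6.Z5_2
import Pool.Agent.Lib.MP_afdd4d_co.K10.E6.Z5_3
import Pool.Agent.Lib.MP_afdd4d_co.K10.E6.Z5_4
import Pool.Agent.Lib.MP_afdd4d_co.K10.E6.Z5_5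
import Pool.Agent.Lib.MP_afdd4d_co.K10.E6.Z5_6
import Pool.Agent.Lib.MP_afdd4d_co.K10.E6.Z5_7
import Pool.Agent.Lib.MP_afdd4d_co.K10.E6.Z5_8
import Pool.Agent.Lib.MP_afdd4d_co.K10.E6.Z5_9
import Pool.Agent.Lib.MP_afdd4d_co.K10.E6.Z5_10
import Pool.Agent.Lib.MP_afdd4d_co.K10.E6.Z5_11
import Pool.Agent.Lib.MP_afdd4d_co.K10.E6.Z5_12
import Pool.Agent.Lib.MP_afdd4d_co.K10.E6.Z5_13
import Pool.Agent.Lib.MP_afdd4d_co.K10.E6.Z5_14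
import Pool.Agent.Lib.MP_afdd4d_co.K10.E6.Z5_15
import Pool.Agent.Lib.MP_afdd4d_co.K10.E6.Z5_16
import Pool.Agent.Lib.MP_afdd4d_co.K10.E6.Z6_0
import Pool.Agent.Lib.MP_afdd4d_co.K10.E6.Z6_1
import Pool.Agent.Lib.MP_afdd4d_co.K10.E6.Z6_2
import Pool.Agent.Lib.MP_afdd4d_co.K10.E6.Z6_3
import Pool.Agent.Lib.MP_afdd4d_co.K10.E6.Z6_4
import Pool.Agent.Lib.MP_afdd4d_co.K10.E6.Z7_0
import Pool.Agent.Lib.MP_afdd4d_co.K10.E6.Z7_1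
import Pool.Agent.Lib.MP_afdd4d_co.K10.E6.Z7_2
import Pool.Agent.Lib.MP_afdd4d_co.K10.E6.Z7_3
import Pool.Agent.Lib.MP_afdd4d_co.K10.E6.Z7_4
import Pool.Agent.Lib.MP_afdd4d_co.K10.E6.Z7_5
import Pool.Agent.Lib.MP_afdd4d_co.K10.E6.Z7_6
import Pool.Agent.Lib.MP_afdd4d_co.K10.E6.Z7_7
import Pool.Agent.Lib.MP_afdd4d_co.K10.E6.Z7_8
import Pool.Agent.Lib.MP_afdd4d_co.K10.E6.Z7_9
import Pool.Agent.Lib.MP_afdd4d_co.K10.E6.Z7_10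
import Pool.Agent.Lib.MP_afdd4d_co.K10.E6.Z7_11
import Pool.Agent.Lib.MP_afdd4d_co.K10.E6.Z7_12
import Pool.Agent.Lib.MP_afdd4d_co.K10.E6.Z7_13
import Pool.Agent.Lib.MP_afdd4d_co.K10.E6.Z7_14
import Pool.Agent.Lib.MP_afdd4d_co.K10.E6.Z7_15
import Pool.Agent.Lib.MP_afdd4d_co.K10.E6.Z7_16
import Pool.Agent.Lib.MP_afdd4d_co.K10.E6.Z7_17
import Pool.Agent.Lib.MP_afdd4d_co.K10.E6.Z7_18
import Pool.Agent.Lib.MP_afdd4d_co.K10.E6.Z7_19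
import Pool.Agent.Lib.MP_afdd4d_co.K10.E6.Z7_20
import Pool.Agent.Lib.MP_afdd4d_co.K10.E6.Z8_0
import Pool.Agent.Lib.MP_afdd4d_co.K10.E6.Z8_1
import Pool.Agent.Lib.MP_afdd4d_co.K10.E6.Z8_2
import Pool.Agent.Lib.MP_afdd4d_co.K10.E6.Z8_3
import Pool.Agent.Lib.MP_afdd4d_co.K10.E6.Z8_4
import Pool.Agent.Lib.MP_afdd4d_co.K10.E6.Z9_0
import Pool.Agent.Lib.MP_afdd4d_co.K10.E6.Z9_1
import Pool.Agent.Lib.MP_afdd4d_co.K10.E6.Z9_2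
import Pool.Agent.Lib.MP_afdd4d_co.K10.E6.Z9_3
import Pool.Agent.Lib.MP_afdd4d_co.K10.E6.Z9_4
import Pool.Agent.Lib.MP_afdd4d_co.K10.E6.Z10_0
import Pool.Agent.Lib.MP_afdd4d_co.K10.E6.Z10_1
import Pool.Agent.Lib.MP_afdd4d_co.K10.E6.Z10_2
import Pool.Agent.Lib.MP_afdd4d_co.K10.E6.Z10_3
import Pool.Agent.Lib.MP_afdd4d_co.K10.E6.Z10_4
import Pool.Agent.Lib.MP_afdd4d_co.K10.E6.Z10_5
import Pool.Agent.Lib.MP_afdd4d_co.K10.E6.Z10_6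
import Pool.Agent.Lib.MP_afdd4d_co.K10.E6.Z10_7
import Pool.Agent.Lib.MP_afdd4d_co.K10.E6.Z10_8
import Pool.Agent.Lib.MP_afdd4d_co.K10.E6.Z10_9
import Pool.Agent.Lib.MP_afdd4d_co.K10.E6.Z10_10
import Pool.Agent.Lib.MP_afdd4d_co.K10.E6.Z10_11
import Pool.Agent.Lib.MP_afdd4d_co.K10.E6.Z10_12
import Pool.Agent.Lib.MP_afdd4d_co.K10.E6.Z11_0
import Pool.Agent.Lib.MP_afdd4d_co.K10.E6.Z11_1
import Pool.Agent.Lib.MP_afdd4d_co.K10.E6.Z11_2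
import Pool.Agent.Lib.MP_afdd4d_co.K10.E6.Z11_3
import Pool.Agent.Lib.MP_afdd4d_co.K10.E6.Z11_4
import Pool.Agent.Lib.MP_afdd4d_co.K10.E6.Z12_0
import Pool.Agent.Lib.MP_afdd4d_co.K10.E6.Z12_1
import Pool.Agent.Lib.MP_afdd4d_co.K10.E6.Z12_2
import Pool.Agent.Lib.MP_afdd4d_co.K10.E6.Z12_3
import Pool.Agent.Lib.MP_afdd4d_co.K10.E6.Z12_4
import Pool.Agent.Lib.MP_afdd4d_co.K10.E6.Z12_5
import Pool.Agent.Lib.MP_afdd4d_co.K10.E6.Z12_6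
import Pool.Agent.Lib.MP_afdd4d_co.K10.E6.Z12_7
import Pool.Agent.Lib.MP_afdd4d_co.K10.E6.Z12_8
import Pool.Agent.Lib.MP_afdd4d_co.K10.E6.Z12_9
import Pool.Agent.Lib.MP_afdd4d_co.K10.E6.Z12_10
import Pool.Agent.Lib.MP_afdd4d_co.K10.E6.Z13_0
import Pool.Agent.Lib.MP_afdd4d_co.K10.E6.Z13_1
import Pool.Agent.Lib.MP_afdd4d_co.K10.E6.Z13_2
import Pool.Agent.Lib.MP_afdd4d_co.K10.E6.Z13_3
import Pool.Agent.Lib.MP_afdd4d_co.K10.E6.Z13_4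
import Pool.Agent.Lib.MP_afdd4d_co.K10.E6.Z13_5
import Pool.Agent.Lib.MP_afdd4d_co.K10.E6.Z13_6
import Pool.Agent.Lib.MP_afdd4d_co.K10.E6.Z13_7
import Pool.Agent.Lib.MP_afdd4d_co.K10.E6.Z13_8
import Pool.Agent.Lib.MP_afdd4d_co.K10.E6.Z13_9
import Pool.Agent.Lib.MP_afdd4d_co.K10.E6.Z13_10
import Pool.Agent.Lib.MP_afdd4d_co.K10.E6.Z13_11
import Pool.Agent.Lib.MP_afdd4d_co.K10.E6.Z13_12
import Pool.Agent.Lib.MP_afdd4d_co.K10.E6.Z13_13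
import Pool.Agent.Lib.MP_afdd4d_co.K10.E6.Z13_14
import Pool.Agent.Lib.MP_afdd4d_co.K10.E6.Z13_15
import Pool.Agent.Lib.MP_afdd4d_co.K10.E6.Z13_16
import Pool.Agent.Lib.MP_afdd4d_co.K10.E6.Z13_17
import Pool.Agent.Lib.MP_afdd4d_co.K10.E6.Z13_18
import Pool.Agent.Lib.MP_afdd4d_co.K10.E6.Z13_19
import Pool.Agent.Lib.MP_afdd4d_co.K10.E6.Z13_20
import Pool.Agent.Lib.MP_afdd4d_co.K10.E6.Z13_21
import Pool.Agent.Lib.MP_afdd4d_co.K10.E6.Z13_22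
import Pool.Agent.Lib.MP_afdd4d_co.K10.E6.Z13_23
import Pool.Agent.Lib.MP_afdd4d_co.K10.E6.Z14_0
import Pool.Agent.Lib.MP_afdd4d_co.K10.E6.Z14_1
import Pool.Agent.Lib.MP_afdd4d_co.K10.E6.Z14_2
import Pool.Agent.Lib.MP_afdd4d_co.K10.E6.Z14_3
import Pool.Agent.Lib.MP_afdd4d_co.K10.E6.Z14_4
import Pool.Agent.Lib.MP_afdd4d_co.K10.E6.Z14_5
import Pool.Agent.Lib.MP_afdd4d_co.K10.E6.Z14_6
import Pool.Agent.Lib.MP_afdd4d_co.K10.E6.Z14_7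
import Pool.Agent.Lib.MP_afdd4d_co.K10.E6.Z14_8
import Pool.Agent.Lib.MP_afdd4d_co.K10.E6.Z14_9
import Pool.Agent.Lib.MP_afdd4d_co.K10.E6.Z15_0
import Pool.Agent.Lib.MP_afdd4d_co.K10.E6.Z15_1
import Pool.Agent.Lib.MP_afdd4d_co.K10.E6.Z15_2
import Pool.Agent.Lib.MP_afdd4d_co.K10.E6.Z15_3
import Pool.Agent.Lib.MP_afdd4d_co.K10.E6.Z15_4
import Pool.Agent.Lib.MP_afdd4d_co.K10.E6.Z15_5
import Pool.Agent.Lib.MP_afdd4d_co.K10.E6.Z15_6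
import Pool.Agent.Lib.MP_afdd4d_co.K10.E6.Z15_7
import Pool.Agent.Lib.MP_afdd4d_co.K10.E6.Z15_8
import Pool.Agent.Lib.MP_afdd4d_co.K10.E6.Z15_9
import Pool.Agent.Lib.MP_afdd4d_co.K10.E6.Z15_10
import Pool.Agent.Lib.MP_afdd4d_co.K10.E6.Z15_11
import Pool.Agent.Lib.MP_afdd4d_co.K10.E6.Z15_12
import Pool.Agent.Lib.MP_afdd4d_co.K10.E6.Z16_0
import Pool.Agent.Lib.MP_afdd4d_co.K10.E6.Z16_1
import Pool.Agent.Lib.MP_afdd4d_co.K10.E6.Z16_2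
import Pool.Agent.Lib.MP_afdd4d_co.K10.E6.Z16_3
import Pool.Agent.Lib.MP_afdd4d_co.K10.E6.Z16_4

/-!
# The conditions
-/

namespace Pool.Agent.Lib.MP_afdd4d_co.K10.E6

open K8

set_option maxRecDepth 100000
set_option exponentiation.threshold 10000000

theorem num : D.numG = true := by decide +kernel

theorem zA1 : ∀ z < 1024, D.lbG 1 ls1 z = true := by
  have h1 : ∀ i < 180, D.lbG 1 ls1 (lnG 16 P1 i) = true :=
    frG_join (fun i => D.lbG 1 ls1 (lnG 16 P1 i)) (fun i hi => absurd hi (Nat.not_lt_zero i)) z1_0 rfl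
  have h2 : ∀ i < 360, D.lbG 1 ls1 (lnG 16 P1 i) = true :=
    frG_join (fun i => D.lbG 1 ls1 (lnG 16 P1 i)) h1 z1_1 rfl
  have h3 : ∀ i < 540, D.lbG 1 ls1 (lnG 16 P1 i) = true :=
    frG_join (fun i => D.lbG 1 ls1 (lnG 16 P1 i)) h2 z1_2 rfl
  have h4 : ∀ i < 720, D.lbG 1 ls1 (lnG 16 P1 i) = true :=
    frG_join (fun i => D.lbG 1 ls1 (lnG 16 P1 i)) h3 z1_3 rfl
  have h5 : ∀ i < 782, D.lbG 1 ls1 (lnG 16 P1 i) = true :=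
    frG_join (fun i => D.lbG 1 ls1 (lnG 16 P1 i)) h4 z1_4 rfl
  have h6 : ∀ i < 842, D.lbG 1 ls1 (lnG 16 P1 i) = true :=
    frG_join (fun i => D.lbG 1 ls1 (lnG 16 P1 i)) h5 z1_5 rfl
  have h7 : ∀ i < 907, D.lbG 1 ls1 (lnG 16 P1 i) = true :=
    frG_join (fun i => D.lbG 1 ls1 (lnG 16 P1 i)) h6 z1_6 rfl
  have h8 : ∀ i < 967, D.lbG 1 ls1 (lnG 16 P1 i) = true :=
    frG_join (fun i => D.lbG 1 ls1 (lnG 16 P1 i)) h7 z1_7 rfl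
  have h9 : ∀ i < 1024, D.lbG 1 ls1 (lnG 16 P1 i) = true :=
    frG_join (fun i => D.lbG 1 ls1 (lnG 16 P1 i)) h8 z1_8 rfl
  exact frG_all P1 1024 P1_ok _ h9

theorem zA2 : ∀ z < 1024, D.lbG 2 ls2 z = true := by
  have h1 : ∀ i < 111, D.lbG 2 ls2 (lnG 16 P2 i) = true :=
    frG_join (fun i => D.lbG 2 ls2 (lnG 16 P2 i)) (fun i hi => absurd hi (Nat.not_lt_zero i)) z2_0 rfl
  have h2 : ∀ i < 222, D.lbG 2 ls2 (lnG 16 P2 i) = true :=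
    frG_join (fun i => D.lbG 2 ls2 (lnG 16 P2 i)) h1 z2_1 rfl
  have h3 : ∀ i < 333, D.lbG 2 ls2 (lnG 16 P2 i) = true :=
    frG_join (fun i => D.lbG 2 ls2 (lnG 16 P2 i)) h2 z2_2 rfl
  have h4 : ∀ i < 444, D.lbG 2 ls2 (lnG 16 P2 i) = true :=
    frG_join (fun i => D.lbG 2 ls2 (lnG 16 P2 i)) h3 z2_3 rfl
  have h5 : ∀ i < 555, D.lbG 2 ls2 (lnG 16 P2 i) = true :=
    frG_join (fun i => D.lbG 2 ls2 (lnG 16 P2 i)) h4 z2_4 rfl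
  have h6 : ∀ i < 666, D.lbG 2 ls2 (lnG 16 P2 i) = true :=
    frG_join (fun i => D.lbG 2 ls2 (lnG 16 P2 i)) h5 z2_5 rfl
  have h7 : ∀ i < 777, D.lbG 2 ls2 (lnG 16 P2 i) = true :=
    frG_join (fun i => D.lbG 2 ls2 (lnG 16 P2 i)) h6 z2_6 rfl
  have h8 : ∀ i < 888, D.lbG 2 ls2 (lnG 16 P2 i) = true :=
    frG_join (fun i => D.lbG 2 ls2 (lnG 16 P2 i)) h7 z2_7 rfl
  have h9 : ∀ i < 999, D.lbG 2 ls2 (lnG 16 P2 i) = true :=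
    frG_join (fun i => D.lbG 2 ls2 (lnG 16 P2 i)) h8 z2_8 rfl
  have h10 : ∀ i < 1024, D.lbG 2 ls2 (lnG 16 P2 i) = true :=
    frG_join (fun i => D.lbG 2 ls2 (lnG 16 P2 i)) h9 z2_9 rfl
  exact frG_all P2 1024 P2_ok _ h10

theorem zA3 : ∀ z < 1024, D.lbG 3 ls3 z = true := by
  have h1 : ∀ i < 152, D.lbG 3 ls3 (lnG 16 P3 i) = true :=
    frG_join (fun i => D.lbG 3 ls3 (lnG 16 P3 i)) (fun i hi => absurd hi (Nat.not_lt_zero i)) z3_0 rfl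
  have h2 : ∀ i < 304, D.lbG 3 ls3 (lnG 16 P3 i) = true :=
    frG_join (fun i => D.lbG 3 ls3 (lnG 16 P3 i)) h1 z3_1 rfl
  have h3 : ∀ i < 456, D.lbG 3 ls3 (lnG 16 P3 i) = true :=
    frG_join (fun i => D.lbG 3 ls3 (lnG 16 P3 i)) h2 z3_2 rfl
  have h4 : ∀ i < 608, D.lbG 3 ls3 (lnG 16 P3 i) = true :=
    frG_join (fun i => D.lbG 3 ls3 (lnG 16 P3 i)) h3 z3_3 rfl
  have h5 : ∀ i < 760, D.lbG 3 ls3 (lnG 16 P3 i) = true :=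
    frG_join (fun i => D.lbG 3 ls3 (lnG 16 P3 i)) h4 z3_4 rfl
  have h6 : ∀ i < 912, D.lbG 3 ls3 (lnG 16 P3 i) = true :=
    frG_join (fun i => D.lbG 3 ls3 (lnG 16 P3 i)) h5 z3_5 rfl
  have h7 : ∀ i < 1024, D.lbG 3 ls3 (lnG 16 P3 i) = true :=
    frG_join (fun i => D.lbG 3 ls3 (lnG 16 P3 i)) h6 z3_6 rfl
  exact frG_all P3 1024 P3_ok _ h7

theorem zA4 : ∀ z < 1024, D.lbG 4 ls4 z = true := by
  have h1 : ∀ i < 178, D.lbG 4 ls4 (lnG 16 P4 i) = true :=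
    frG_join (fun i => D.lbG 4 ls4 (lnG 16 P4 i)) (fun i hi => absurd hi (Nat.not_lt_zero i)) z4_0 rfl
  have h2 : ∀ i < 356, D.lbG 4 ls4 (lnG 16 P4 i) = true :=
    frG_join (fun i => D.lbG 4 ls4 (lnG 16 P4 i)) h1 z4_1 rfl
  have h3 : ∀ i < 534, D.lbG 4 ls4 (lnG 16 P4 i) = true :=
    frG_join (fun i => D.lbG 4 ls4 (lnG 16 P4 i)) h2 z4_2 rfl
  have h4 : ∀ i < 712, D.lbG 4 ls4 (lnG 16 P4 i) = true :=
    frG_join (fun i => D.lbG 4 ls4 (lnG 16 P4 i)) h3 z4_3 rfl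
  have h5 : ∀ i < 890, D.lbG 4 ls4 (lnG 16 P4 i) = true :=
    frG_join (fun i => D.lbG 4 ls4 (lnG 16 P4 i)) h4 z4_4 rfl
  have h6 : ∀ i < 1024, D.lbG 4 ls4 (lnG 16 P4 i) = true :=
    frG_join (fun i => D.lbG 4 ls4 (lnG 16 P4 i)) h5 z4_5 rfl
  exact frG_all P4 1024 P4_ok _ h6

theorem zA5 : ∀ z < 1024, D.lbG 5 ls5 z = true := by
  have h1 : ∀ i < 62, D.lbG 5 ls5 (lnG 16 P5 i) = true :=
    frG_join (fun i => D.lbG 5 ls5 (lnG 16 P5 i)) (fun i hi => absurd hi (Nat.not_lt_zero i)) z5_0 rfl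
  have h2 : ∀ i < 124, D.lbG 5 ls5 (lnG 16 P5 i) = true :=
    frG_join (fun i => D.lbG 5 ls5 (lnG 16 P5 i)) h1 z5_1 rfl
  have h3 : ∀ i < 184, D.lbG 5 ls5 (lnG 16 P5 i) = true :=
    frG_join (fun i => D.lbG 5 ls5 (lnG 16 P5 i)) h2 z5_2 rfl
  have h4 : ∀ i < 244, D.lbG 5 ls5 (lnG 16 P5 i) = true :=
    frG_join (fun i => D.lbG 5 ls5 (lnG 16 P5 i)) h3 z5_3 rfl
  have h5 : ∀ i < 304, D.lbG 5 ls5 (lnG 16 P5 i) = true :=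
    frG_join (fun i => D.lbG 5 ls5 (lnG 16 P5 i)) h4 z5_4 rfl
  have h6 : ∀ i < 364, D.lbG 5 ls5 (lnG 16 P5 i) = true :=
    frG_join (fun i => D.lbG 5 ls5 (lnG 16 P5 i)) h5 z5_5 rfl
  have h7 : ∀ i < 424, D.lbG 5 ls5 (lnG 16 P5 i) = true :=
    frG_join (fun i => D.lbG 5 ls5 (lnG 16 P5 i)) h6 z5_6 rfl
  have h8 : ∀ i < 484, D.lbG 5 ls5 (lnG 16 P5 i) = true :=
    frG_join (fun i => D.lbG 5 ls5 (lnG 16 P5 i)) h7 z5_7 rfl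
  have h9 : ∀ i < 544, D.lbG 5 ls5 (lnG 16 P5 i) = true :=
    frG_join (fun i => D.lbG 5 ls5 (lnG 16 P5 i)) h8 z5_8 rfl
  have h10 : ∀ i < 604, D.lbG 5 ls5 (lnG 16 P5 i) = true :=
    frG_join (fun i => D.lbG 5 ls5 (lnG 16 P5 i)) h9 z5_9 rfl
  have h11 : ∀ i < 664, D.lbG 5 ls5 (lnG 16 P5 i) = true :=
    frG_join (fun i => D.lbG 5 ls5 (lnG 16 P5 i)) h10 z5_10 rfl
  have h12 : ∀ i < 724, D.lbG 5 ls5 (lnG 16 P5 i) = true :=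
    frG_join (fun i => D.lbG 5 ls5 (lnG 16 P5 i)) h11 z5_11 rfl
  have h13 : ∀ i < 784, D.lbG 5 ls5 (lnG 16 P5 i) = true :=
    frG_join (fun i => D.lbG 5 ls5 (lnG 16 P5 i)) h12 z5_12 rfl
  have h14 : ∀ i < 844, D.lbG 5 ls5 (lnG 16 P5 i) = true :=
    frG_join (fun i => D.lbG 5 ls5 (lnG 16 P5 i)) h13 z5_13 rfl
  have h15 : ∀ i < 904, D.lbG 5 ls5 (lnG 16 P5 i) = true :=
    frG_join (fun i => D.lbG 5 ls5 (lnG 16 P5 i)) h14 z5_14 rfl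
  have h16 : ∀ i < 964, D.lbG 5 ls5 (lnG 16 P5 i) = true :=
    frG_join (fun i => D.lbG 5 ls5 (lnG 16 P5 i)) h15 z5_15 rfl
  have h17 : ∀ i < 1024, D.lbG 5 ls5 (lnG 16 P5 i) = true :=
    frG_join (fun i => D.lbG 5 ls5 (lnG 16 P5 i)) h16 z5_16 rfl
  exact frG_all P5 1024 P5_ok _ h17

theorem zA6 : ∀ z < 1024, D.lbG 6 ls6 z = true := by
  have h1 : ∀ i < 208, D.lbG 6 ls6 (lnG 16 P6 i) = true :=
    frG_join (fun i => D.lbG 6 ls6 (lnG 16 P6 i)) (fun i hi => absurd hi (Nat.not_lt_zero i)) z6_0 rfl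
  have h2 : ∀ i < 416, D.lbG 6 ls6 (lnG 16 P6 i) = true :=
    frG_join (fun i => D.lbG 6 ls6 (lnG 16 P6 i)) h1 z6_1 rfl
  have h3 : ∀ i < 624, D.lbG 6 ls6 (lnG 16 P6 i) = true :=
    frG_join (fun i => D.lbG 6 ls6 (lnG 16 P6 i)) h2 z6_2 rfl
  have h4 : ∀ i < 832, D.lbG 6 ls6 (lnG 16 P6 i) = true :=
    frG_join (fun i => D.lbG 6 ls6 (lnG 16 P6 i)) h3 z6_3 rfl
  have h5 : ∀ i < 1024, D.lbG 6 ls6 (lnG 16 P6 i) = true :=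
    frG_join (fun i => D.lbG 6 ls6 (lnG 16 P6 i)) h4 z6_4 rfl
  exact frG_all P6 1024 P6_ok _ h5

theorem zA7 : ∀ z < 1024, D.lbG 7 ls7 z = true := by
  have h1 : ∀ i < 50, D.lbG 7 ls7 (lnG 16 P7 i) = true :=
    frG_join (fun i => D.lbG 7 ls7 (lnG 16 P7 i)) (fun i hi => absurd hi (Nat.not_lt_zero i)) z7_0 rfl
  have h2 : ∀ i < 100, D.lbG 7 ls7 (lnG 16 P7 i) = true :=
    frG_join (fun i => D.lbG 7 ls7 (lnG 16 P7 i)) h1 z7_1 rfl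
  have h3 : ∀ i < 150, D.lbG 7 ls7 (lnG 16 P7 i) = true :=
    frG_join (fun i => D.lbG 7 ls7 (lnG 16 P7 i)) h2 z7_2 rfl
  have h4 : ∀ i < 200, D.lbG 7 ls7 (lnG 16 P7 i) = true :=
    frG_join (fun i => D.lbG 7 ls7 (lnG 16 P7 i)) h3 z7_3 rfl
  have h5 : ∀ i < 250, D.lbG 7 ls7 (lnG 16 P7 i) = true :=
    frG_join (fun i => D.lbG 7 ls7 (lnG 16 P7 i)) h4 z7_4 rfl
  have h6 : ∀ i < 300, D.lbG 7 ls7 (lnG 16 P7 i) = true :=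
    frG_join (fun i => D.lbG 7 ls7 (lnG 16 P7 i)) h5 z7_5 rfl
  have h7 : ∀ i < 350, D.lbG 7 ls7 (lnG 16 P7 i) = true :=
    frG_join (fun i => D.lbG 7 ls7 (lnG 16 P7 i)) h6 z7_6 rfl
  have h8 : ∀ i < 400, D.lbG 7 ls7 (lnG 16 P7 i) = true :=
    frG_join (fun i => D.lbG 7 ls7 (lnG 16 P7 i)) h7 z7_7 rfl
  have h9 : ∀ i < 450, D.lbG 7 ls7 (lnG 16 P7 i) = true :=
    frG_join (fun i => D.lbG 7 ls7 (lnG 16 P7 i)) h8 z7_8 rfl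
  have h10 : ∀ i < 500, D.lbG 7 ls7 (lnG 16 P7 i) = true :=
    frG_join (fun i => D.lbG 7 ls7 (lnG 16 P7 i)) h9 z7_9 rfl
  have h11 : ∀ i < 550, D.lbG 7 ls7 (lnG 16 P7 i) = true :=
    frG_join (fun i => D.lbG 7 ls7 (lnG 16 P7 i)) h10 z7_10 rfl
  have h12 : ∀ i < 600, D.lbG 7 ls7 (lnG 16 P7 i) = true :=
    frG_join (fun i => D.lbG 7 ls7 (lnG 16 P7 i)) h11 z7_11 rfl
  have h13 : ∀ i < 650, D.lbG 7 ls7 (lnG 16 P7 i) = true :=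
    frG_join (fun i => D.lbG 7 ls7 (lnG 16 P7 i)) h12 z7_12 rfl
  have h14 : ∀ i < 700, D.lbG 7 ls7 (lnG 16 P7 i) = true :=
    frG_join (fun i => D.lbG 7 ls7 (lnG 16 P7 i)) h13 z7_13 rfl
  have h15 : ∀ i < 750, D.lbG 7 ls7 (lnG 16 P7 i) = true :=
    frG_join (fun i => D.lbG 7 ls7 (lnG 16 P7 i)) h14 z7_14 rfl
  have h16 : ∀ i < 800, D.lbG 7 ls7 (lnG 16 P7 i) = true :=
    frG_join (fun i => D.lbG 7 ls7 (lnG 16 P7 i)) h15 z7_15 rfl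
  have h17 : ∀ i < 850, D.lbG 7 ls7 (lnG 16 P7 i) = true :=
    frG_join (fun i => D.lbG 7 ls7 (lnG 16 P7 i)) h16 z7_16 rfl
  have h18 : ∀ i < 900, D.lbG 7 ls7 (lnG 16 P7 i) = true :=
    frG_join (fun i => D.lbG 7 ls7 (lnG 16 P7 i)) h17 z7_17 rfl
  have h19 : ∀ i < 950, D.lbG 7 ls7 (lnG 16 P7 i) = true :=
    frG_join (fun i => D.lbG 7 ls7 (lnG 16 P7 i)) h18 z7_18 rfl
  have h20 : ∀ i < 1000, D.lbG 7 ls7 (lnG 16 P7 i) = true :=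
    frG_join (fun i => D.lbG 7 ls7 (lnG 16 P7 i)) h19 z7_19 rfl
  have h21 : ∀ i < 1024, D.lbG 7 ls7 (lnG 16 P7 i) = true :=
    frG_join (fun i => D.lbG 7 ls7 (lnG 16 P7 i)) h20 z7_20 rfl
  exact frG_all P7 1024 P7_ok _ h21

theorem zA8 : ∀ z < 1024, D.lbG 8 ls8 z = true := by
  have h1 : ∀ i < 208, D.lbG 8 ls8 (lnG 16 P8 i) = true :=
    frG_join (fun i => D.lbG 8 ls8 (lnG 16 P8 i)) (fun i hi => absurd hi (Nat.not_lt_zero i)) z8_0 rfl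
  have h2 : ∀ i < 416, D.lbG 8 ls8 (lnG 16 P8 i) = true :=
    frG_join (fun i => D.lbG 8 ls8 (lnG 16 P8 i)) h1 z8_1 rfl
  have h3 : ∀ i < 624, D.lbG 8 ls8 (lnG 16 P8 i) = true :=
    frG_join (fun i => D.lbG 8 ls8 (lnG 16 P8 i)) h2 z8_2 rfl
  have h4 : ∀ i < 832, D.lbG 8 ls8 (lnG 16 P8 i) = true :=
    frG_join (fun i => D.lbG 8 ls8 (lnG 16 P8 i)) h3 z8_3 rfl
  have h5 : ∀ i < 1024, D.lbG 8 ls8 (lnG 16 P8 i) = true :=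
    frG_join (fun i => D.lbG 8 ls8 (lnG 16 P8 i)) h4 z8_4 rfl
  exact frG_all P8 1024 P8_ok _ h5

theorem zA9 : ∀ z < 1024, D.lbG 9 ls9 z = true := by
  have h1 : ∀ i < 208, D.lbG 9 ls9 (lnG 16 P9 i) = true :=
    frG_join (fun i => D.lbG 9 ls9 (lnG 16 P9 i)) (fun i hi => absurd hi (Nat.not_lt_zero i)) z9_0 rfl
  have h2 : ∀ i < 416, D.lbG 9 ls9 (lnG 16 P9 i) = true :=
    frG_join (fun i => D.lbG 9 ls9 (lnG 16 P9 i)) h1 z9_1 rfl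
  have h3 : ∀ i < 624, D.lbG 9 ls9 (lnG 16 P9 i) = true :=
    frG_join (fun i => D.lbG 9 ls9 (lnG 16 P9 i)) h2 z9_2 rfl
  have h4 : ∀ i < 832, D.lbG 9 ls9 (lnG 16 P9 i) = true :=
    frG_join (fun i => D.lbG 9 ls9 (lnG 16 P9 i)) h3 z9_3 rfl
  have h5 : ∀ i < 1024, D.lbG 9 ls9 (lnG 16 P9 i) = true :=
    frG_join (fun i => D.lbG 9 ls9 (lnG 16 P9 i)) h4 z9_4 rfl
  exact frG_all P9 1024 P9_ok _ h5

theorem zA10 : ∀ z < 1024, D.lbG 10 ls10 z = true := by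
  have h1 : ∀ i < 80, D.lbG 10 ls10 (lnG 16 P10 i) = true :=
    frG_join (fun i => D.lbG 10 ls10 (lnG 16 P10 i)) (fun i hi => absurd hi (Nat.not_lt_zero i)) z10_0 rfl
  have h2 : ∀ i < 160, D.lbG 10 ls10 (lnG 16 P10 i) = true :=
    frG_join (fun i => D.lbG 10 ls10 (lnG 16 P10 i)) h1 z10_1 rfl
  have h3 : ∀ i < 240, D.lbG 10 ls10 (lnG 16 P10 i) = true :=
    frG_join (fun i => D.lbG 10 ls10 (lnG 16 P10 i)) h2 z10_2 rfl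
  have h4 : ∀ i < 320, D.lbG 10 ls10 (lnG 16 P10 i) = true :=
    frG_join (fun i => D.lbG 10 ls10 (lnG 16 P10 i)) h3 z10_3 rfl
  have h5 : ∀ i < 400, D.lbG 10 ls10 (lnG 16 P10 i) = true :=
    frG_join (fun i => D.lbG 10 ls10 (lnG 16 P10 i)) h4 z10_4 rfl
  have h6 : ∀ i < 480, D.lbG 10 ls10 (lnG 16 P10 i) = true :=
    frG_join (fun i => D.lbG 10 ls10 (lnG 16 P10 i)) h5 z10_5 rfl
  have h7 : ∀ i < 558, D.lbG 10 ls10 (lnG 16 P10 i) = true :=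
    frG_join (fun i => D.lbG 10 ls10 (lnG 16 P10 i)) h6 z10_6 rfl
  have h8 : ∀ i < 636, D.lbG 10 ls10 (lnG 16 P10 i) = true :=
    frG_join (fun i => D.lbG 10 ls10 (lnG 16 P10 i)) h7 z10_7 rfl
  have h9 : ∀ i < 714, D.lbG 10 ls10 (lnG 16 P10 i) = true :=
    frG_join (fun i => D.lbG 10 ls10 (lnG 16 P10 i)) h8 z10_8 rfl
  have h10 : ∀ i < 792, D.lbG 10 ls10 (lnG 16 P10 i) = true :=
    frG_join (fun i => D.lbG 10 ls10 (lnG 16 P10 i)) h9 z10_9 rfl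
  have h11 : ∀ i < 870, D.lbG 10 ls10 (lnG 16 P10 i) = true :=
    frG_join (fun i => D.lbG 10 ls10 (lnG 16 P10 i)) h10 z10_10 rfl
  have h12 : ∀ i < 948, D.lbG 10 ls10 (lnG 16 P10 i) = true :=
    frG_join (fun i => D.lbG 10 ls10 (lnG 16 P10 i)) h11 z10_11 rfl
  have h13 : ∀ i < 1024, D.lbG 10 ls10 (lnG 16 P10 i) = true :=
    frG_join (fun i => D.lbG 10 ls10 (lnG 16 P10 i)) h12 z10_12 rfl
  exact frG_all P10 1024 P10_ok _ h13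

theorem zA11 : ∀ z < 1024, D.lbG 11 ls11 z = true := by
  have h1 : ∀ i < 208, D.lbG 11 ls11 (lnG 16 P11 i) = true :=
    frG_join (fun i => D.lbG 11 ls11 (lnG 16 P11 i)) (fun i hi => absurd hi (Nat.not_lt_zero i)) z11_0 rfl
  have h2 : ∀ i < 416, D.lbG 11 ls11 (lnG 16 P11 i) = true :=
    frG_join (fun i => D.lbG 11 ls11 (lnG 16 P11 i)) h1 z11_1 rfl
  have h3 : ∀ i < 624, D.lbG 11 ls11 (lnG 16 P11 i) = true :=
    frG_join (fun i => D.lbG 11 ls11 (lnG 16 P11 i)) h2 z11_2 rfl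
  have h4 : ∀ i < 832, D.lbG 11 ls11 (lnG 16 P11 i) = true :=
    frG_join (fun i => D.lbG 11 ls11 (lnG 16 P11 i)) h3 z11_3 rfl
  have h5 : ∀ i < 1024, D.lbG 11 ls11 (lnG 16 P11 i) = true :=
    frG_join (fun i => D.lbG 11 ls11 (lnG 16 P11 i)) h4 z11_4 rfl
  exact frG_all P11 1024 P11_ok _ h5

theorem zA12 : ∀ z < 1024, D.lbG 12 ls12 z = true := by
  have h1 : ∀ i < 116, D.lbG 12 ls12 (lnG 16 P12 i) = true :=
    frG_join (fun i => D.lbG 12 ls12 (lnG 16 P12 i)) (fun i hi => absurd hi (Nat.not_lt_zero i)) z12_0 rfl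
  have h2 : ∀ i < 232, D.lbG 12 ls12 (lnG 16 P12 i) = true :=
    frG_join (fun i => D.lbG 12 ls12 (lnG 16 P12 i)) h1 z12_1 rfl
  have h3 : ∀ i < 347, D.lbG 12 ls12 (lnG 16 P12 i) = true :=
    frG_join (fun i => D.lbG 12 ls12 (lnG 16 P12 i)) h2 z12_2 rfl
  have h4 : ∀ i < 462, D.lbG 12 ls12 (lnG 16 P12 i) = true :=
    frG_join (fun i => D.lbG 12 ls12 (lnG 16 P12 i)) h3 z12_3 rfl
  have h5 : ∀ i < 577, D.lbG 12 ls12 (lnG 16 P12 i) = true :=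
    frG_join (fun i => D.lbG 12 ls12 (lnG 16 P12 i)) h4 z12_4 rfl
  have h6 : ∀ i < 692, D.lbG 12 ls12 (lnG 16 P12 i) = true :=
    frG_join (fun i => D.lbG 12 ls12 (lnG 16 P12 i)) h5 z12_5 rfl
  have h7 : ∀ i < 784, D.lbG 12 ls12 (lnG 16 P12 i) = true :=
    frG_join (fun i => D.lbG 12 ls12 (lnG 16 P12 i)) h6 z12_6 rfl
  have h8 : ∀ i < 844, D.lbG 12 ls12 (lnG 16 P12 i) = true :=
    frG_join (fun i => D.lbG 12 ls12 (lnG 16 P12 i)) h7 z12_7 rfl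
  have h9 : ∀ i < 904, D.lbG 12 ls12 (lnG 16 P12 i) = true :=
    frG_join (fun i => D.lbG 12 ls12 (lnG 16 P12 i)) h8 z12_8 rfl
  have h10 : ∀ i < 964, D.lbG 12 ls12 (lnG 16 P12 i) = true :=
    frG_join (fun i => D.lbG 12 ls12 (lnG 16 P12 i)) h9 z12_9 rfl
  have h11 : ∀ i < 1024, D.lbG 12 ls12 (lnG 16 P12 i) = true :=
    frG_join (fun i => D.lbG 12 ls12 (lnG 16 P12 i)) h10 z12_10 rfl
  exact frG_all P12 1024 P12_ok _ h11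

theorem zA13 : ∀ z < 1024, D.lbG 13 ls13 z = true := by
  have h1 : ∀ i < 72, D.lbG 13 ls13 (lnG 16 P13 i) = true :=
    frG_join (fun i => D.lbG 13 ls13 (lnG 16 P13 i)) (fun i hi => absurd hi (Nat.not_lt_zero i)) z13_0 rfl
  have h2 : ∀ i < 144, D.lbG 13 ls13 (lnG 16 P13 i) = true :=
    frG_join (fun i => D.lbG 13 ls13 (lnG 16 P13 i)) h1 z13_1 rfl
  have h3 : ∀ i < 192, D.lbG 13 ls13 (lnG 16 P13 i) = true :=
    frG_join (fun i => D.lbG 13 ls13 (lnG 16 P13 i)) h2 z13_2 rfl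
  have h4 : ∀ i < 240, D.lbG 13 ls13 (lnG 16 P13 i) = true :=
    frG_join (fun i => D.lbG 13 ls13 (lnG 16 P13 i)) h3 z13_3 rfl
  have h5 : ∀ i < 286, D.lbG 13 ls13 (lnG 16 P13 i) = true :=
    frG_join (fun i => D.lbG 13 ls13 (lnG 16 P13 i)) h4 z13_4 rfl
  have h6 : ∀ i < 331, D.lbG 13 ls13 (lnG 16 P13 i) = true :=
    frG_join (fun i => D.lbG 13 ls13 (lnG 16 P13 i)) h5 z13_5 rfl
  have h7 : ∀ i < 376, D.lbG 13 ls13 (lnG 16 P13 i) = true :=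
    frG_join (fun i => D.lbG 13 ls13 (lnG 16 P13 i)) h6 z13_6 rfl
  have h8 : ∀ i < 421, D.lbG 13 ls13 (lnG 16 P13 i) = true :=
    frG_join (fun i => D.lbG 13 ls13 (lnG 16 P13 i)) h7 z13_7 rfl
  have h9 : ∀ i < 466, D.lbG 13 ls13 (lnG 16 P13 i) = true :=
    frG_join (fun i => D.lbG 13 ls13 (lnG 16 P13 i)) h8 z13_8 rfl
  have h10 : ∀ i < 514, D.lbG 13 ls13 (lnG 16 P13 i) = true :=
    frG_join (fun i => D.lbG 13 ls13 (lnG 16 P13 i)) h9 z13_9 rfl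
  have h11 : ∀ i < 562, D.lbG 13 ls13 (lnG 16 P13 i) = true :=
    frG_join (fun i => D.lbG 13 ls13 (lnG 16 P13 i)) h10 z13_10 rfl
  have h12 : ∀ i < 610, D.lbG 13 ls13 (lnG 16 P13 i) = true :=
    frG_join (fun i => D.lbG 13 ls13 (lnG 16 P13 i)) h11 z13_11 rfl
  have h13 : ∀ i < 646, D.lbG 13 ls13 (lnG 16 P13 i) = true :=
    frG_join (fun i => D.lbG 13 ls13 (lnG 16 P13 i)) h12 z13_12 rfl
  have h14 : ∀ i < 682, D.lbG 13 ls13 (lnG 16 P13 i) = true :=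
    frG_join (fun i => D.lbG 13 ls13 (lnG 16 P13 i)) h13 z13_13 rfl
  have h15 : ∀ i < 718, D.lbG 13 ls13 (lnG 16 P13 i) = true :=
    frG_join (fun i => D.lbG 13 ls13 (lnG 16 P13 i)) h14 z13_14 rfl
  have h16 : ∀ i < 754, D.lbG 13 ls13 (lnG 16 P13 i) = true :=
    frG_join (fun i => D.lbG 13 ls13 (lnG 16 P13 i)) h15 z13_15 rfl
  have h17 : ∀ i < 790, D.lbG 13 ls13 (lnG 16 P13 i) = true :=
    frG_join (fun i => D.lbG 13 ls13 (lnG 16 P13 i)) h16 z13_16 rfl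
  have h18 : ∀ i < 826, D.lbG 13 ls13 (lnG 16 P13 i) = true :=
    frG_join (fun i => D.lbG 13 ls13 (lnG 16 P13 i)) h17 z13_17 rfl
  have h19 : ∀ i < 862, D.lbG 13 ls13 (lnG 16 P13 i) = true :=
    frG_join (fun i => D.lbG 13 ls13 (lnG 16 P13 i)) h18 z13_18 rfl
  have h20 : ∀ i < 898, D.lbG 13 ls13 (lnG 16 P13 i) = true :=
    frG_join (fun i => D.lbG 13 ls13 (lnG 16 P13 i)) h19 z13_19 rfl
  have h21 : ∀ i < 934, D.lbG 13 ls13 (lnG 16 P13 i) = true :=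
    frG_join (fun i => D.lbG 13 ls13 (lnG 16 P13 i)) h20 z13_20 rfl
  have h22 : ∀ i < 970, D.lbG 13 ls13 (lnG 16 P13 i) = true :=
    frG_join (fun i => D.lbG 13 ls13 (lnG 16 P13 i)) h21 z13_21 rfl
  have h23 : ∀ i < 1006, D.lbG 13 ls13 (lnG 16 P13 i) = true :=
    frG_join (fun i => D.lbG 13 ls13 (lnG 16 P13 i)) h22 z13_22 rfl
  have h24 : ∀ i < 1024, D.lbG 13 ls13 (lnG 16 P13 i) = true :=
    frG_join (fun i => D.lbG 13 ls13 (lnG 16 P13 i)) h23 z13_23 rfl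
  exact frG_all P13 1024 P13_ok _ h24

theorem zA14 : ∀ z < 1024, D.lbG 14 ls14 z = true := by
  have h1 : ∀ i < 110, D.lbG 14 ls14 (lnG 16 P14 i) = true :=
    frG_join (fun i => D.lbG 14 ls14 (lnG 16 P14 i)) (fun i hi => absurd hi (Nat.not_lt_zero i)) z14_0 rfl
  have h2 : ∀ i < 220, D.lbG 14 ls14 (lnG 16 P14 i) = true :=
    frG_join (fun i => D.lbG 14 ls14 (lnG 16 P14 i)) h1 z14_1 rfl
  have h3 : ∀ i < 330, D.lbG 14 ls14 (lnG 16 P14 i) = true :=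
    frG_join (fun i => D.lbG 14 ls14 (lnG 16 P14 i)) h2 z14_2 rfl
  have h4 : ∀ i < 440, D.lbG 14 ls14 (lnG 16 P14 i) = true :=
    frG_join (fun i => D.lbG 14 ls14 (lnG 16 P14 i)) h3 z14_3 rfl
  have h5 : ∀ i < 550, D.lbG 14 ls14 (lnG 16 P14 i) = true :=
    frG_join (fun i => D.lbG 14 ls14 (lnG 16 P14 i)) h4 z14_4 rfl
  have h6 : ∀ i < 660, D.lbG 14 ls14 (lnG 16 P14 i) = true :=
    frG_join (fun i => D.lbG 14 ls14 (lnG 16 P14 i)) h5 z14_5 rfl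
  have h7 : ∀ i < 770, D.lbG 14 ls14 (lnG 16 P14 i) = true :=
    frG_join (fun i => D.lbG 14 ls14 (lnG 16 P14 i)) h6 z14_6 rfl
  have h8 : ∀ i < 880, D.lbG 14 ls14 (lnG 16 P14 i) = true :=
    frG_join (fun i => D.lbG 14 ls14 (lnG 16 P14 i)) h7 z14_7 rfl
  have h9 : ∀ i < 990, D.lbG 14 ls14 (lnG 16 P14 i) = true :=
    frG_join (fun i => D.lbG 14 ls14 (lnG 16 P14 i)) h8 z14_8 rfl
  have h10 : ∀ i < 1024, D.lbG 14 ls14 (lnG 16 P14 i) = true :=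
    frG_join (fun i => D.lbG 14 ls14 (lnG 16 P14 i)) h9 z14_9 rfl
  exact frG_all P14 1024 P14_ok _ h10

theorem zA15 : ∀ z < 1024, D.lbG 15 ls15 z = true := by
  have h1 : ∀ i < 83, D.lbG 15 ls15 (lnG 16 P15 i) = true :=
    frG_join (fun i => D.lbG 15 ls15 (lnG 16 P15 i)) (fun i hi => absurd hi (Nat.not_lt_zero i)) z15_0 rfl
  have h2 : ∀ i < 166, D.lbG 15 ls15 (lnG 16 P15 i) = true :=
    frG_join (fun i => D.lbG 15 ls15 (lnG 16 P15 i)) h1 z15_1 rfl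
  have h3 : ∀ i < 249, D.lbG 15 ls15 (lnG 16 P15 i) = true :=
    frG_join (fun i => D.lbG 15 ls15 (lnG 16 P15 i)) h2 z15_2 rfl
  have h4 : ∀ i < 332, D.lbG 15 ls15 (lnG 16 P15 i) = true :=
    frG_join (fun i => D.lbG 15 ls15 (lnG 16 P15 i)) h3 z15_3 rfl
  have h5 : ∀ i < 415, D.lbG 15 ls15 (lnG 16 P15 i) = true :=
    frG_join (fun i => D.lbG 15 ls15 (lnG 16 P15 i)) h4 z15_4 rfl
  have h6 : ∀ i < 498, D.lbG 15 ls15 (lnG 16 P15 i) = true :=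
    frG_join (fun i => D.lbG 15 ls15 (lnG 16 P15 i)) h5 z15_5 rfl
  have h7 : ∀ i < 581, D.lbG 15 ls15 (lnG 16 P15 i) = true :=
    frG_join (fun i => D.lbG 15 ls15 (lnG 16 P15 i)) h6 z15_6 rfl
  have h8 : ∀ i < 664, D.lbG 15 ls15 (lnG 16 P15 i) = true :=
    frG_join (fun i => D.lbG 15 ls15 (lnG 16 P15 i)) h7 z15_7 rfl
  have h9 : ∀ i < 745, D.lbG 15 ls15 (lnG 16 P15 i) = true :=
    frG_join (fun i => D.lbG 15 ls15 (lnG 16 P15 i)) h8 z15_8 rfl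
  have h10 : ∀ i < 826, D.lbG 15 ls15 (lnG 16 P15 i) = true :=
    frG_join (fun i => D.lbG 15 ls15 (lnG 16 P15 i)) h9 z15_9 rfl
  have h11 : ∀ i < 907, D.lbG 15 ls15 (lnG 16 P15 i) = true :=
    frG_join (fun i => D.lbG 15 ls15 (lnG 16 P15 i)) h10 z15_10 rfl
  have h12 : ∀ i < 988, D.lbG 15 ls15 (lnG 16 P15 i) = true :=
    frG_join (fun i => D.lbG 15 ls15 (lnG 16 P15 i)) h11 z15_11 rfl
  have h13 : ∀ i < 1024, D.lbG 15 ls15 (lnG 16 P15 i) = true :=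
    frG_join (fun i => D.lbG 15 ls15 (lnG 16 P15 i)) h12 z15_12 rfl
  exact frG_all P15 1024 P15_ok _ h13

theorem zA16 : ∀ z < 1024, D.lbG 16 ls16 z = true := by
  have h1 : ∀ i < 208, D.lbG 16 ls16 (lnG 16 P16 i) = true :=
    frG_join (fun i => D.lbG 16 ls16 (lnG 16 P16 i)) (fun i hi => absurd hi (Nat.not_lt_zero i)) z16_0 rfl
  have h2 : ∀ i < 416, D.lbG 16 ls16 (lnG 16 P16 i) = true :=
    frG_join (fun i => D.lbG 16 ls16 (lnG 16 P16 i)) h1 z16_1 rfl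
  have h3 : ∀ i < 624, D.lbG 16 ls16 (lnG 16 P16 i) = true :=
    frG_join (fun i => D.lbG 16 ls16 (lnG 16 P16 i)) h2 z16_2 rfl
  have h4 : ∀ i < 828, D.lbG 16 ls16 (lnG 16 P16 i) = true :=
    frG_join (fun i => D.lbG 16 ls16 (lnG 16 P16 i)) h3 z16_3 rfl
  have h5 : ∀ i < 1024, D.lbG 16 ls16 (lnG 16 P16 i) = true :=
    frG_join (fun i => D.lbG 16 ls16 (lnG 16 P16 i)) h4 z16_4 rfl
  exact frG_all P16 1024 P16_ok _ h5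

theorem tp_length : D.tp.length = 17 := rfl

theorem all_types (Q : ℕ → Prop) (h1 : Q 1) (h2 : Q 2) (h3 : Q 3) (h4 : Q 4) (h5 : Q 5) (h6 : Q 6) (h7 : Q 7) (h8 : Q 8) (h9 : Q 9) (h10 : Q 10) (h11 : Q 11) (h12 : Q 12) (h13 : Q 13) (h14 : Q 14) (h15 : Q 15) (h16 : Q 16) :
    ∀ τ, 0 < τ → τ < D.tp.length → Q τ := by
  intro τ h0 hh
  rw [tp_length] at hh
  interval_cases τ <;> assumption

theorem tyA : ∀ τ, 0 < τ → τ < D.tp.length → D.tyF 1 22 (D.L τ) = true :=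
  all_types _ ty1 ty2 ty3 ty4 ty5 ty6 ty7 ty8 ty9 ty10 ty11 ty12 ty13 ty14 ty15 ty16

theorem numOK : D.NumOK := TF.numG_spec num

/-- The conditions on the rows. -/
theorem rowsOK : D.RowsOK := by
  refine ⟨numOK, fun τ => ?_, rfl, ?_⟩
  · rcases Nat.eq_zero_or_pos τ with h1 | h1
    · rw [h1]
      exact TF.tyOK_nil
    · by_cases h2 : τ < D.tp.length
      · exact (TF.tyF_spec numOK (tyA τ h1 h2)).1
      · rw [TF.L_out τ (by omega)]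
        exact TF.tyOK_nil
  · exact all_types _ (fun z hz => (TF.lbG_spec (zA1 z hz)).1) (fun z hz => (TF.lbG_spec (zA2 z hz)).1) (fun z hz => (TF.lbG_spec (zA3 z hz)).1) (fun z hz => (TF.lbG_spec (zA4 z hz)).1) (fun z hz => (TF.lbG_spec (zA5 z hz)).1) (fun z hz => (TF.lbG_spec (zA6 z hz)).1) (fun z hz => (TF.lbG_spec (zA7 z hz)).1) (fun z hz => (TF.lbG_spec (zA8 z hz)).1) (fun z hz => (TF.lbG_spec (zA9 z hz)).1) (fun z hz => (TF.lbG_spec (zA10 z hz)).1) (fun z hz => (TF.lbG_spec (zA11 z hz)).1) (fun z hz => (TF.lbG_spec (zA12 z hz)).1) (fun z hz => (TF.lbG_spec (zA13 z hz)).1) (fun z hz => (TF.lbG_spec (zA14 z hz)).1) (fun z hz => (TF.lbG_spec (zA15 z hz)).1) (fun z hz => (TF.lbG_spec (zA16 z hz)).1)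

theorem prA : allN D.prG 1024 = true := by decide +kernel

theorem prOK : D.PrOK := TF.prG_spec prA

theorem psdOK : D.fd.PsdOK :=
  TF.psdOK_of rowsOK (fun τ => [F1, F1, F2, F3, F4, F5, F6, F7, F8, F9, F10, F11, F12, F13, F14, F15, F16].getD τ F1)
    (fun τ => [0, 231, 155, 118, 104, 248, 66, 290, 66, 85, 203, 73, 150, 301, 156, 197, 78].getD τ 0) (all_types _ pd1 pd2 pd3 pd4 pd5 pd6 pd7 pd8 pd9 pd10 pd11 pd12 pd13 pd14 pd15 pd16)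

theorem lsA_good : ∀ L ∈ lsA, L.ac.length = 10 ∧
    D.fd.Good L.ty L.ty L.ab fun k => L.ac.getD k 0 := by
  intro L hL
  unfold lsA at hL
  simp only [List.mem_cons, List.mem_append] at hL
  have hlt : ∀ τ, τ < 17 → τ < D.tp.length := fun τ h => h
  rcases hL with rfl | rfl | rfl | rfl | rfl | rfl | rfl | rfl | rfl | rfl | rfl | rfl | rfl | rfl | rfl | rfl | h | h | h | h | h | h | h | h | h | h | h | h | h | h | h | h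
  · exact TF.idL_good 1
  · exact TF.idL_good 2
  · exact TF.idL_good 3
  · exact TF.idL_good 4
  · exact TF.idL_good 5
  · exact TF.idL_good 6
  · exact TF.idL_good 7
  · exact TF.idL_good 8
  · exact TF.idL_good 9
  · exact TF.idL_good 10
  · exact TF.idL_good 11
  · exact TF.idL_good 12
  · exact TF.idL_good 13
  · exact TF.idL_good 14
  · exact TF.idL_good 15
  · exact TF.idL_good 16
  · exact TF.lis_of rowsOK (by norm_num) (hlt 1 (by norm_num)) ls1_ok zA1 L h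
  · exact TF.lis_of rowsOK (by norm_num) (hlt 2 (by norm_num)) ls2_ok zA2 L h
  · exact TF.lis_of rowsOK (by norm_num) (hlt 3 (by norm_num)) ls3_ok zA3 L h
  · exact TF.lis_of rowsOK (by norm_num) (hlt 4 (by norm_num)) ls4_ok zA4 L h
  · exact TF.lis_of rowsOK (by norm_num) (hlt 5 (by norm_num)) ls5_ok zA5 L h
  · exact TF.lis_of rowsOK (by norm_num) (hlt 6 (by norm_num)) ls6_ok zA6 L h
  · exact TF.lis_of rowsOK (by norm_num) (hlt 7 (by norm_num)) ls7_ok zA7 L h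
  · exact TF.lis_of rowsOK (by norm_num) (hlt 8 (by norm_num)) ls8_ok zA8 L h
  · exact TF.lis_of rowsOK (by norm_num) (hlt 9 (by norm_num)) ls9_ok zA9 L h
  · exact TF.lis_of rowsOK (by norm_num) (hlt 10 (by norm_num)) ls10_ok zA10 L h
  · exact TF.lis_of rowsOK (by norm_num) (hlt 11 (by norm_num)) ls11_ok zA11 L h
  · exact TF.lis_of rowsOK (by norm_num) (hlt 12 (by norm_num)) ls12_ok zA12 L h
  · exact TF.lis_of rowsOK (by norm_num) (hlt 13 (by norm_num)) ls13_ok zA13 L h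
  · exact TF.lis_of rowsOK (by norm_num) (hlt 14 (by norm_num)) ls14_ok zA14 L h
  · exact TF.lis_of rowsOK (by norm_num) (hlt 15 (by norm_num)) ls15_ok zA15 L h
  · exact TF.lis_of rowsOK (by norm_num) (hlt 16 (by norm_num)) ls16_ok zA16 L h

theorem iv0 : allN (D.ivG LT lsA (idL 1) 0) 1024 = true := by decide +kernel
theorem iv1 : allN (D.ivG LT lsA (idL 1) 1) 1024 = true := by decide +kernel
theorem iv2 : allN (D.ivG LT lsA (idL 1) 2) 1024 = true := by decide +kernel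
theorem iv3 : allN (D.ivG LT lsA (idL 1) 3) 1024 = true := by decide +kernel
theorem iv4 : allN (D.ivG LT lsA (idL 1) 4) 1024 = true := by decide +kernel

theorem invOK : D.fd.InvOK := by
  refine TF.inv_ok D LT lsA (idL 1) lsA_good fun i hi => ?_
  interval_cases i
  · exact iv0
  · exact iv1
  · exact iv2
  · exact iv3
  · exact iv4

theorem symOK : D.SymOK := by
  intro τ
  rcases Nat.eq_zero_or_pos τ with h1 | h1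
  · rw [h1]
    rfl
  · by_cases h2 : τ < D.tp.length
    · exact all_types (fun τ => symG D.W D.of (rwsG (D.L τ)) = true) (PD.sym pd1) (PD.sym pd2) (PD.sym pd3) (PD.sym pd4) (PD.sym pd5) (PD.sym pd6) (PD.sym pd7) (PD.sym pd8) (PD.sym pd9) (PD.sym pd10) (PD.sym pd11) (PD.sym pd12) (PD.sym pd13) (PD.sym pd14) (PD.sym pd15) (PD.sym pd16) τ h1 h2
    · rw [TF.L_out τ (by omega)]
      rfl

end Pool.Agent.Lib.MP_afdd4d_co.K10.E6
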