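import Pool.Agent.Lib.MP_afdd4d_co.K10.E6.Dat
import Pool.Agent.Lib.MP_afdd4d_co.K10.E6.C0
import Pool.Agent.Lib.MP_afdd4d_co.K10.E6.C1
import Pool.Agent.Lib.MP_afdd4d_co.K10.E6.C2
import Pool.Agent.Lib.MP_afdd4d_co.K10.E6.C3
import Pool.Agent.Lib.MP_afdd4d_co.K10.E6.C4
import Pool.Agent.Lib.MP_afdd4d_co.K10.E6.C5
import Pool.Agent.Lib.MP_afdd4d_co.K10.E6.C6
import Pool.Agent.Lib.MP_afdd4d_co.K10.E6.C7
import Pool.Agent.Lib.MP_afdd4d_co.K10.E6.C8
import Pool.Agent.Lib.MP_afdd4d_co.K10.E6.C9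
import Pool.Agent.Lib.MP_afdd4d_co.K10.E6.C10
import Pool.Agent.Lib.MP_afdd4d_co.K10.E6.C11
import Pool.Agent.Lib.MP_afdd4d_co.K10.E6.C12
import Pool.Agent.Lib.MP_afdd4d_co.K10.E6.C13
import Pool.Agent.Lib.MP_afdd4d_co.K10.E6.C14
import Pool.Agent.Lib.MP_afdd4d_co.K10.E6.C15
import Pool.Agent.Lib.MP_afdd4d_co.K10.E6.C16
import Pool.Agent.Lib.MP_afdd4d_co.K10.E6.C17
import Pool.Agent.Lib.MP_afdd4d_co.K10.E6.C18
import Pool.Agent.Lib.MP_afdd4d_co.K10.E6.C19
import Pool.Agent.Lib.MP_afdd4d_co.K10.E6.C20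
import Pool.Agent.Lib.MP_afdd4d_co.K10.E6.C21
import Pool.Agent.Lib.MP_afdd4d_co.K10.E6.C22
import Pool.Agent.Lib.MP_afdd4d_co.K10.E6.C23
import Pool.Agent.Lib.MP_afdd4d_co.K10.E6.C24
import Pool.Agent.Lib.MP_afdd4d_co.K10.E6.C25
import Pool.Agent.Lib.MP_afdd4d_co.K10.E6.C26
import Pool.Agent.Lib.MP_afdd4d_co.K10.E6.C27
import Pool.Agent.Lib.MP_afdd4d_co.K10.E6.C28
import Pool.Agent.Lib.MP_afdd4d_co.K10.E6.C29
import Pool.Agent.Lib.MP_afdd4d_co.K10.E6.C30
import Pool.Agent.Lib.MP_afdd4d_co.K10.E6.C31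
import Pool.Agent.Lib.MP_afdd4d_co.K10.E6.C32
import Pool.Agent.Lib.MP_afdd4d_co.K10.E6.C33
import Pool.Agent.Lib.MP_afdd4d_co.K10.E6.C34
import Pool.Agent.Lib.MP_afdd4d_co.K10.E6.C35
import Pool.Agent.Lib.MP_afdd4d_co.K10.E6.C36
import Pool.Agent.Lib.MP_afdd4d_co.K10.E6.C37
import Pool.Agent.Lib.MP_afdd4d_co.K10.E6.C38
import Pool.Agent.Lib.MP_afdd4d_co.K10.E6.C39
import Pool.Agent.Lib.MP_afdd4d_co.K10.E6.C40
import Pool.Agent.Lib.MP_afdd4d_co.K10.E6.C41
import Pool.Agent.Lib.MP_afdd4d_co.K10.E6.C42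
import Pool.Agent.Lib.MP_afdd4d_co.K10.E6.C43
import Pool.Agent.Lib.MP_afdd4d_co.K10.E6.C44
import Pool.Agent.Lib.MP_afdd4d_co.K10.E6.C45
import Pool.Agent.Lib.MP_afdd4d_co.K10.E6.C46
import Pool.Agent.Lib.MP_afdd4d_co.K10.E6.C47
import Pool.Agent.Lib.MP_afdd4d_co.K10.E6.C48
import Pool.Agent.Lib.MP_afdd4d_co.K10.E6.C49
import Pool.Agent.Lib.MP_afdd4d_co.K10.E6.C50
import Pool.Agent.Lib.MP_afdd4d_co.K10.E6.C51
import Pool.Agent.Lib.MP_afdd4d_co.K10.E6.C52
import Pool.Agent.Lib.MP_afdd4d_co.K10.E6.C53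
import Pool.Agent.Lib.MP_afdd4d_co.K10.E6.C54
import Pool.Agent.Lib.MP_afdd4d_co.K10.E6.C55
import Pool.Agent.Lib.MP_afdd4d_co.K10.E6.C56
import Pool.Agent.Lib.MP_afdd4d_co.K10.E6.C57
import Pool.Agent.Lib.MP_afdd4d_co.K10.E6.C58
import Pool.Agent.Lib.MP_afdd4d_co.K10.E6.C59
import Pool.Agent.Lib.MP_afdd4d_co.K10.E6.C60
import Pool.Agent.Lib.MP_afdd4d_co.K10.E6.C61
import Pool.Agent.Lib.MP_afdd4d_co.K10.E6.C62
import Pool.Agent.Lib.MP_afdd4d_co.K10.E6.C63
import Pool.Agent.Lib.MP_afdd4d_co.K10.E6.C64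
import Pool.Agent.Lib.MP_afdd4d_co.K10.E6.C65
import Pool.Agent.Lib.MP_afdd4d_co.K10.E6.C66
import Pool.Agent.Lib.MP_afdd4d_co.K10.E6.C67
import Pool.Agent.Lib.MP_afdd4d_co.K10.E6.C68
import Pool.Agent.Lib.MP_afdd4d_co.K10.E6.C69
import Pool.Agent.Lib.MP_afdd4d_co.K10.E6.C70
import Pool.Agent.Lib.MP_afdd4d_co.K10.E6.C71
import Pool.Agent.Lib.MP_afdd4d_co.K10.E6.C72
import Pool.Agent.Lib.MP_afdd4d_co.K10.E6.C73
import Pool.Agent.Lib.MP_afdd4d_co.K10.E6.C74
import Pool.Agent.Lib.MP_afdd4d_co.K10.E6.C75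
import Pool.Agent.Lib.MP_afdd4d_co.K10.E6.C76
import Pool.Agent.Lib.MP_afdd4d_co.K10.E6.C77
import Pool.Agent.Lib.MP_afdd4d_co.K10.E6.C78
import Pool.Agent.Lib.MP_afdd4d_co.K10.E6.C79
import Pool.Agent.Lib.MP_afdd4d_co.K10.E6.C80
import Pool.Agent.Lib.MP_afdd4d_co.K10.E6.C81
import Pool.Agent.Lib.MP_afdd4d_co.K10.E6.C82
import Pool.Agent.Lib.MP_afdd4d_co.K10.E6.C83
import Pool.Agent.Lib.MP_afdd4d_co.K10.E6.C84
import Pool.Agent.Lib.MP_afdd4d_co.K10.E6.C85
import Pool.Agent.Lib.MP_afdd4d_co.K10.E6.C86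
import Pool.Agent.Lib.MP_afdd4d_co.K10.E6.C87
import Pool.Agent.Lib.MP_afdd4d_co.K10.E6.C88
import Pool.Agent.Lib.MP_afdd4d_co.K10.E6.C89
import Pool.Agent.Lib.MP_afdd4d_co.K10.E6.C90
import Pool.Agent.Lib.MP_afdd4d_co.K10.E6.C91
import Pool.Agent.Lib.MP_afdd4d_co.K10.E6.C92
import Pool.Agent.Lib.MP_afdd4d_co.K10.E6.C93
import Pool.Agent.Lib.MP_afdd4d_co.K10.E6.C94
import Pool.Agent.Lib.MP_afdd4d_co.K10.E6.C95
import Pool.Agent.Lib.MP_afdd4d_co.K10.E6.C96
import Pool.Agent.Lib.MP_afdd4d_co.K10.E6.C97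
import Pool.Agent.Lib.MP_afdd4d_co.K10.E6.C98
import Pool.Agent.Lib.MP_afdd4d_co.K10.E6.C99
import Pool.Agent.Lib.MP_afdd4d_co.K10.E6.C100
import Pool.Agent.Lib.MP_afdd4d_co.K10.E6.C101
import Pool.Agent.Lib.MP_afdd4d_co.K10.E6.C102
import Pool.Agent.Lib.MP_afdd4d_co.K10.E6.C103
import Pool.Agent.Lib.MP_afdd4d_co.K10.E6.C104
import Pool.Agent.Lib.MP_afdd4d_co.K10.E6.C105
import Pool.Agent.Lib.MP_afdd4d_co.K10.E6.C106
import Pool.Agent.Lib.MP_afdd4d_co.K10.E6.C107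
import Pool.Agent.Lib.MP_afdd4d_co.K10.E6.C108
import Pool.Agent.Lib.MP_afdd4d_co.K10.E6.C109
import Pool.Agent.Lib.MP_afdd4d_co.K10.E6.C110
import Pool.Agent.Lib.MP_afdd4d_co.K10.E6.C111
import Pool.Agent.Lib.MP_afdd4d_co.K10.E6.C112
import Pool.Agent.Lib.MP_afdd4d_co.K10.E6.C113
import Pool.Agent.Lib.MP_afdd4d_co.K10.E6.C114
import Pool.Agent.Lib.MP_afdd4d_co.K10.E6.C115
import Pool.Agent.Lib.MP_afdd4d_co.K10.E6.C116
import Pool.Agent.Lib.MP_afdd4d_co.K10.E6.C117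
import Pool.Agent.Lib.MP_afdd4d_co.K10.E6.C118
import Pool.Agent.Lib.MP_afdd4d_co.K10.E6.C119
import Pool.Agent.Lib.MP_afdd4d_co.K10.E6.C120
import Pool.Agent.Lib.MP_afdd4d_co.K10.E6.C121
import Pool.Agent.Lib.MP_afdd4d_co.K10.E6.C122
import Pool.Agent.Lib.MP_afdd4d_co.K10.E6.C123
import Pool.Agent.Lib.MP_afdd4d_co.K10.E6.C124
import Pool.Agent.Lib.MP_afdd4d_co.K10.E6.C125
import Pool.Agent.Lib.MP_afdd4d_co.K10.E6.C126
import Pool.Agent.Lib.MP_afdd4d_co.K10.E6.C127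
import Pool.Agent.Lib.MP_afdd4d_co.K10.E6.C128
import Pool.Agent.Lib.MP_afdd4d_co.K10.E6.C129
import Pool.Agent.Lib.MP_afdd4d_co.K10.E6.C130
import Pool.Agent.Lib.MP_afdd4d_co.K10.E6.C131
import Pool.Agent.Lib.MP_afdd4d_co.K10.E6.C132
import Pool.Agent.Lib.MP_afdd4d_co.K10.E6.C133
import Pool.Agent.Lib.MP_afdd4d_co.K10.E6.C134
import Pool.Agent.Lib.MP_afdd4d_co.K10.E6.C135
import Pool.Agent.Lib.MP_afdd4d_co.K10.E6.C136
import Pool.Agent.Lib.MP_afdd4d_co.K10.E6.C137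
import Pool.Agent.Lib.MP_afdd4d_co.K10.E6.C138
import Pool.Agent.Lib.MP_afdd4d_co.K10.E6.C139
import Pool.Agent.Lib.MP_afdd4d_co.K10.E6.C140
import Pool.Agent.Lib.MP_afdd4d_co.K10.E6.C141
import Pool.Agent.Lib.MP_afdd4d_co.K10.E6.C142
import Pool.Agent.Lib.MP_afdd4d_co.K10.E6.C143
import Pool.Agent.Lib.MP_afdd4d_co.K10.E6.C144
import Pool.Agent.Lib.MP_afdd4d_co.K10.E6.C145
import Pool.Agent.Lib.MP_afdd4d_co.K10.E6.C146
import Pool.Agent.Lib.MP_afdd4d_co.K10.E6.C147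
import Pool.Agent.Lib.MP_afdd4d_co.K10.E6.C148
import Pool.Agent.Lib.MP_afdd4d_co.K10.E6.C149
import Pool.Agent.Lib.MP_afdd4d_co.K10.E6.C150
import Pool.Agent.Lib.MP_afdd4d_co.K10.E6.C151
import Pool.Agent.Lib.MP_afdd4d_co.K10.E6.C152
import Pool.Agent.Lib.MP_afdd4d_co.K10.E6.C153
import Pool.Agent.Lib.MP_afdd4d_co.K10.E6.C154
import Pool.Agent.Lib.MP_afdd4d_co.K10.E6.C155
import Pool.Agent.Lib.MP_afdd4d_co.K10.E6.C156
import Pool.Agent.Lib.MP_afdd4d_co.K10.E6.C157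
import Pool.Agent.Lib.MP_afdd4d_co.K10.E6.C158
import Pool.Agent.Lib.MP_afdd4d_co.K10.E6.C159
import Pool.Agent.Lib.MP_afdd4d_co.K10.E6.C160
import Pool.Agent.Lib.MP_afdd4d_co.K10.E6.C161
import Pool.Agent.Lib.MP_afdd4d_co.K10.E6.C162
import Pool.Agent.Lib.MP_afdd4d_co.K10.E6.C163
import Pool.Agent.Lib.MP_afdd4d_co.K10.E6.C164
import Pool.Agent.Lib.MP_afdd4d_co.K10.E6.C165
import Pool.Agent.Lib.MP_afdd4d_co.K10.E6.C166
import Pool.Agent.Lib.MP_afdd4d_co.K10.E6.C167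
import Pool.Agent.Lib.MP_afdd4d_co.K10.E6.C168
import Pool.Agent.Lib.MP_afdd4d_co.K10.E6.C169
import Pool.Agent.Lib.MP_afdd4d_co.K10.E6.C170
import Pool.Agent.Lib.MP_afdd4d_co.K10.E6.C171
import Pool.Agent.Lib.MP_afdd4d_co.K10.E6.C172
import Pool.Agent.Lib.MP_afdd4d_co.K10.E6.C173
import Pool.Agent.Lib.MP_afdd4d_co.K10.E6.C174
import Pool.Agent.Lib.MP_afdd4d_co.K10.E6.C175
import Pool.Agent.Lib.MP_afdd4d_co.K10.E6.C176
import Pool.Agent.Lib.MP_afdd4d_co.K10.E6.C177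
import Pool.Agent.Lib.MP_afdd4d_co.K10.E6.C178
import Pool.Agent.Lib.MP_afdd4d_co.K10.E6.C179
import Pool.Agent.Lib.MP_afdd4d_co.K10.E6.C180
import Pool.Agent.Lib.MP_afdd4d_co.K10.E6.C181
import Pool.Agent.Lib.MP_afdd4d_co.K10.E6.C182
import Pool.Agent.Lib.MP_afdd4d_co.K10.E6.C183
import Pool.Agent.Lib.MP_afdd4d_co.K10.E6.C184
import Pool.Agent.Lib.MP_afdd4d_co.K10.E6.C185
import Pool.Agent.Lib.MP_afdd4d_co.K10.E6.C186
import Pool.Agent.Lib.MP_afdd4d_co.K10.E6.C187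
import Pool.Agent.Lib.MP_afdd4d_co.K10.E6.C188
import Pool.Agent.Lib.MP_afdd4d_co.K10.E6.C189
import Pool.Agent.Lib.MP_afdd4d_co.K10.E6.C190
import Pool.Agent.Lib.MP_afdd4d_co.K10.E6.C191
import Pool.Agent.Lib.MP_afdd4d_co.K10.E6.C192
import Pool.Agent.Lib.MP_afdd4d_co.K10.E6.C193
import Pool.Agent.Lib.MP_afdd4d_co.K10.E6.C194
import Pool.Agent.Lib.MP_afdd4d_co.K10.E6.C195
import Pool.Agent.Lib.MP_afdd4d_co.K10.E6.C196
import Pool.Agent.Lib.MP_afdd4d_co.K10.E6.C197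
import Pool.Agent.Lib.MP_afdd4d_co.K10.E6.C198
import Pool.Agent.Lib.MP_afdd4d_co.K10.E6.C199
import Pool.Agent.Lib.MP_afdd4d_co.K10.E6.C200
import Pool.Agent.Lib.MP_afdd4d_co.K10.E6.C201
import Pool.Agent.Lib.MP_afdd4d_co.K10.E6.C202
import Pool.Agent.Lib.MP_afdd4d_co.K10.E6.C203
import Pool.Agent.Lib.MP_afdd4d_co.K10.E6.C204
import Pool.Agent.Lib.MP_afdd4d_co.K10.E6.C205
import Pool.Agent.Lib.MP_afdd4d_co.K10.E6.C206
import Pool.Agent.Lib.MP_afdd4d_co.K10.E6.C207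
import Pool.Agent.Lib.MP_afdd4d_co.K10.E6.C208
import Pool.Agent.Lib.MP_afdd4d_co.K10.E6.C209
import Pool.Agent.Lib.MP_afdd4d_co.K10.E6.C210
import Pool.Agent.Lib.MP_afdd4d_co.K10.E6.C211
import Pool.Agent.Lib.MP_afdd4d_co.K10.E6.C212
import Pool.Agent.Lib.MP_afdd4d_co.K10.E6.C213
import Pool.Agent.Lib.MP_afdd4d_co.K10.E6.C214
import Pool.Agent.Lib.MP_afdd4d_co.K10.E6.C215
import Pool.Agent.Lib.MP_afdd4d_co.K10.E6.C216
import Pool.Agent.Lib.MP_afdd4d_co.K10.E6.C217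

/-!
# The tables of the blocks
-/

namespace Pool.Agent.Lib.MP_afdd4d_co.K10.E6

open K8

set_option maxRecDepth 100000
set_option exponentiation.threshold 10000000

/-- The tables. -/
noncomputable def TB : List (List (List (List ℕ))) := [
  [c0, c1, c2, c3, c4, c5, c6, c7, c8, c9, c10, c11, c12, c13, c14, c15],
  [c16, c17, c18, c19, c20, c21, c22, c23, c24, c25, c26, c27, c28, c29, c30, c31],
  [c32, c33, c34, c35, c36, c37, c38, c39, c40, c41, c42, c43, c44, c45, c46, c47],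
  [c48, c49, c50, c51, c52, c53, c54, c55, c56, c57, c58, c59, c60, c61, c62, c63],
  [c64, c65, c66, c67, c68, c69, c70, c71, c72, c73, c74, c75, c76, c77, c78, c79],
  [c80, c81, c82, c83, c84, c85, c86, c87, c88, c89, c90, c91, c92, c93, c94, c95],
  [c96, c97, c98, c99, c100, c101, c102, c103, c104, c105, c106, c107, c108, c109, c110, c111],
  [c112, c113, c114, c115, c116, c117, c118, c119, c120, c121, c122, c123, c124, c125, c126,
   c127],
  [c128, c129, c130, c131, c132, c133, c134, c135, c136, c137, c138, c139, c140, c141, c142,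
   c143],
  [c144, c145, c146, c147, c148, c149, c150, c151, c152, c153, c154, c155, c156, c157, c158,
   c159],
  [c160, c161, c162, c163, c164, c165, c166, c167, c168, c169, c170, c171, c172, c173, c174,
   c175],
  [c176, c177, c178, c179, c180, c181, c182, c183, c184, c185, c186, c187, c188, c189, c190,
   c191],
  [c192, c193, c194, c195, c196, c197, c198, c199, c200, c201, c202, c203, c204, c205, c206,
   c207],
  [c208, c209, c210, c211, c212, c213, c214, c215, c216, c217, c218, c219, c220, c221, c222,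
   c223],
  [c224, c225, c226, c227, c228, c229, c230, c231, c232, c233, c234, c235, c236, c237, c238,
   c239],
  [c240, c241, c242, c243, c244, c245, c246, c247, c248, c249, c250, c251, c252, c253, c254,
   c255],
  [c256, c257, c258, c259, c260, c261, c262, c263, c264, c265, c266, c267, c268, c269, c270,
   c271],
  [c272, c273, c274, c275, c276, c277, c278, c279, c280, c281, c282, c283, c284, c285, c286,
   c287],
  [c288, c289, c290, c291, c292, c293, c294, c295, c296, c297, c298, c299, c300, c301, c302,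
   c303],
  [c304, c305, c306, c307, c308, c309, c310, c311, c312, c313, c314, c315, c316, c317, c318,
   c319],
  [c320, c321, c322, c323, c324, c325, c326, c327, c328, c329, c330, c331, c332, c333, c334,
   c335],
  [c336, c337, c338, c339, c340, c341, c342, c343, c344, c345, c346, c347, c348, c349, c350,
   c351],
  [c352, c353, c354, c355, c356, c357, c358, c359, c360, c361, c362, c363, c364, c365, c366,
   c367],
  [c368, c369, c370, c371, c372, c373, c374, c375, c376, c377, c378, c379, c380, c381, c382,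
   c383],
  [c384, c385, c386, c387, c388, c389, c390, c391, c392, c393, c394, c395, c396, c397, c398,
   c399],
  [c400, c401, c402, c403, c404, c405, c406, c407, c408, c409, c410, c411, c412, c413, c414,
   c415],
  [c416, c417, c418, c419, c420, c421, c422, c423, c424, c425, c426, c427, c428, c429, c430,
   c431],
  [c432, c433, c434, c435, c436, c437, c438, c439, c440, c441, c442, c443, c444, c445, c446,
   c447],
  [c448, c449, c450, c451, c452, c453, c454, c455, c456, c457, c458, c459, c460, c461, c462,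
   c463],
  [c464, c465, c466, c467, c468, c469, c470, c471, c472, c473, c474, c475, c476, c477, c478,
   c479],
  [c480, c481, c482, c483, c484, c485, c486, c487, c488, c489, c490, c491, c492, c493, c494,
   c495],
  [c496, c497, c498, c499, c500, c501, c502, c503, c504, c505, c506, c507, c508, c509, c510,
   c511],
  [c512, c513, c514, c515, c516, c517, c518, c519, c520, c521, c522, c523, c524, c525, c526,
   c527],
  [c528, c529, c530, c531, c532, c533, c534, c535, c536, c537, c538, c539, c540, c541, c542,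
   c543],
  [c544, c545, c546, c547, c548, c549, c550, c551, c552, c553, c554, c555, c556, c557, c558,
   c559],
  [c560, c561, c562, c563, c564, c565, c566, c567, c568, c569, c570, c571, c572, c573, c574,
   c575],
  [c576, c577, c578, c579, c580, c581, c582, c583, c584, c585, c586, c587, c588, c589, c590,
   c591],
  [c592, c593, c594, c595, c596, c597, c598, c599, c600, c601, c602, c603, c604, c605, c606,
   c607],
  [c608, c609, c610, c611, c612, c613, c614, c615, c616, c617, c618, c619, c620, c621, c622,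
   c623],
  [c624, c625, c626, c627, c628, c629, c630, c631, c632, c633, c634, c635, c636, c637, c638,
   c639],
  [c640, c641, c642, c643, c644, c645, c646, c647, c648, c649, c650, c651, c652, c653, c654,
   c655],
  [c656, c657, c658, c659, c660, c661, c662, c663, c664, c665, c666, c667, c668, c669, c670,
   c671],
  [c672, c673, c674, c675, c676, c677, c678, c679, c680, c681, c682, c683, c684, c685, c686,
   c687],
  [c688, c689, c690, c691, c692, c693, c694, c695, c696, c697, c698, c699, c700, c701, c702,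
   c703],
  [c704, c705, c706, c707, c708, c709, c710, c711, c712, c713, c714, c715, c716, c717, c718,
   c719],
  [c720, c721, c722, c723, c724, c725, c726, c727, c728, c729, c730, c731, c732, c733, c734,
   c735],
  [c736, c737, c738, c739, c740, c741, c742, c743, c744, c745, c746, c747, c748, c749, c750,
   c751],
  [c752, c753, c754, c755, c756, c757, c758, c759, c760, c761, c762, c763, c764, c765, c766,
   c767],
  [c768, c769, c770, c771, c772, c773, c774, c775, c776, c777, c778, c779, c780, c781, c782,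
   c783],
  [c784, c785, c786, c787, c788, c789, c790, c791, c792, c793, c794, c795, c796, c797, c798,
   c799],
  [c800, c801, c802, c803, c804, c805, c806, c807, c808, c809, c810, c811, c812, c813, c814,
   c815],
  [c816, c817, c818, c819, c820, c821, c822, c823, c824, c825, c826, c827, c828, c829, c830,
   c831],
  [c832, c833, c834, c835, c836, c837, c838, c839, c840, c841, c842, c843, c844, c845, c846,
   c847],
  [c848, c849, c850, c851, c852, c853, c854, c855, c856, c857, c858, c859, c860, c861, c862,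
   c863],
  [c864, c865, c866, c867, c868, c869, c870, c871]]

end Pool.Agent.Lib.MP_afdd4d_co.K10.E6
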