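import Pool.Agent.Lib.MP_afdd4d_co.K10.E6.Fin
import Pool.Agent.Lib.MP_afdd4d_co.K10.E6.B0
import Pool.Agent.Lib.MP_afdd4d_co.K10.E6.B1
import Pool.Agent.Lib.MP_afdd4d_co.K10.E6.B2
import Pool.Agent.Lib.MP_afdd4d_co.K10.E6.B3
import Pool.Agent.Lib.MP_afdd4d_co.K10.E6.B4
import Pool.Agent.Lib.MP_afdd4d_co.K10.E6.B5
import Pool.Agent.Lib.MP_afdd4d_co.K10.E6.B6
import Pool.Agent.Lib.MP_afdd4d_co.K10.E6.B7
import Pool.Agent.Lib.MP_afdd4d_co.K10.E6.B8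
import Pool.Agent.Lib.MP_afdd4d_co.K10.E6.B9
import Pool.Agent.Lib.MP_afdd4d_co.K10.E6.B10
import Pool.Agent.Lib.MP_afdd4d_co.K10.E6.B11
import Pool.Agent.Lib.MP_afdd4d_co.K10.E6.B12
import Pool.Agent.Lib.MP_afdd4d_co.K10.E6.B13
import Pool.Agent.Lib.MP_afdd4d_co.K10.E6.B14
import Pool.Agent.Lib.MP_afdd4d_co.K10.E6.B15
import Pool.Agent.Lib.MP_afdd4d_co.K10.E6.TbD

/-!
# The tables of the blocks
-/

namespace Pool.Agent.Lib.MP_afdd4d_co.K10.E6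

open K8

set_option maxRecDepth 100000
set_option exponentiation.threshold 10000000

theorem qs_ok : (E.qs.all fun q => decide (q.1 < 1024)) = true := by decide +kernel

theorem be_ok : ∀ x0 < 64, allN (E.beG D al tabA x0) 1024 = true := by
  have h1 := frG_join (fun i => allN (E.beG D al tabA i) 1024) (m := 4) (fun i hi => absurd hi (Nat.not_lt_zero i)) be0 rfl
  have h2 := frG_join (fun i => allN (E.beG D al tabA i) 1024) (m := 8) h1 be1 rfl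
  have h3 := frG_join (fun i => allN (E.beG D al tabA i) 1024) (m := 12) h2 be2 rfl
  have h4 := frG_join (fun i => allN (E.beG D al tabA i) 1024) (m := 16) h3 be3 rfl
  have h5 := frG_join (fun i => allN (E.beG D al tabA i) 1024) (m := 20) h4 be4 rfl
  have h6 := frG_join (fun i => allN (E.beG D al tabA i) 1024) (m := 24) h5 be5 rfl
  have h7 := frG_join (fun i => allN (E.beG D al tabA i) 1024) (m := 28) h6 be6 rfl
  have h8 := frG_join (fun i => allN (E.beG D al tabA i) 1024) (m := 32) h7 be7 rfl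
  have h9 := frG_join (fun i => allN (E.beG D al tabA i) 1024) (m := 36) h8 be8 rfl
  have h10 := frG_join (fun i => allN (E.beG D al tabA i) 1024) (m := 40) h9 be9 rfl
  have h11 := frG_join (fun i => allN (E.beG D al tabA i) 1024) (m := 44) h10 be10 rfl
  have h12 := frG_join (fun i => allN (E.beG D al tabA i) 1024) (m := 48) h11 be11 rfl
  have h13 := frG_join (fun i => allN (E.beG D al tabA i) 1024) (m := 52) h12 be12 rfl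
  have h14 := frG_join (fun i => allN (E.beG D al tabA i) 1024) (m := 56) h13 be13 rfl
  have h15 := frG_join (fun i => allN (E.beG D al tabA i) 1024) (m := 60) h14 be14 rfl
  exact frG_join (fun i => allN (E.beG D al tabA i) 1024) h15 be15 rfl

theorem eOK : E.OK D := BF.beG_spec E D al tabA (TF.auG_good lsA_good al al_ok) qs_ok be_ok

theorem tb0 : ∀ j < 16, ((TB.getD 0 []).getD j []) =
    slO 64 (D.chG (E.qs.getD (16 * 0 + j) (0, 0)).1 (E.qs.getD (16 * 0 + j) (0, 0)).2) 8 := by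
  intro j hj
  interval_cases j
  exacts [
    eqNN_eq _ _ k0, eqNN_eq _ _ k1, eqNN_eq _ _ k2, eqNN_eq _ _ k3, eqNN_eq _ _ k4,
    eqNN_eq _ _ k5, eqNN_eq _ _ k6, eqNN_eq _ _ k7, eqNN_eq _ _ k8, eqNN_eq _ _ k9,
    eqNN_eq _ _ k10, eqNN_eq _ _ k11, eqNN_eq _ _ k12, eqNN_eq _ _ k13, eqNN_eq _ _ k14,
    eqNN_eq _ _ k15]

theorem tb1 : ∀ j < 16, ((TB.getD 1 []).getD j []) =
    slO 64 (D.chG (E.qs.getD (16 * 1 + j) (0, 0)).1 (E.qs.getD (16 * 1 + j) (0, 0)).2) 8 := by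
  intro j hj
  interval_cases j
  exacts [
    eqNN_eq _ _ k16, eqNN_eq _ _ k17, eqNN_eq _ _ k18, eqNN_eq _ _ k19, eqNN_eq _ _ k20,
    eqNN_eq _ _ k21, eqNN_eq _ _ k22, eqNN_eq _ _ k23, eqNN_eq _ _ k24, eqNN_eq _ _ k25,
    eqNN_eq _ _ k26, eqNN_eq _ _ k27, eqNN_eq _ _ k28, eqNN_eq _ _ k29, eqNN_eq _ _ k30,
    eqNN_eq _ _ k31]

theorem tb2 : ∀ j < 16, ((TB.getD 2 []).getD j []) =
    slO 64 (D.chG (E.qs.getD (16 * 2 + j) (0, 0)).1 (E.qs.getD (16 * 2 + j) (0, 0)).2) 8 := by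
  intro j hj
  interval_cases j
  exacts [
    eqNN_eq _ _ k32, eqNN_eq _ _ k33, eqNN_eq _ _ k34, eqNN_eq _ _ k35, eqNN_eq _ _ k36,
    eqNN_eq _ _ k37, eqNN_eq _ _ k38, eqNN_eq _ _ k39, eqNN_eq _ _ k40, eqNN_eq _ _ k41,
    eqNN_eq _ _ k42, eqNN_eq _ _ k43, eqNN_eq _ _ k44, eqNN_eq _ _ k45, eqNN_eq _ _ k46,
    eqNN_eq _ _ k47]

theorem tb3 : ∀ j < 16, ((TB.getD 3 []).getD j []) =
    slO 64 (D.chG (E.qs.getD (16 * 3 + j) (0, 0)).1 (E.qs.getD (16 * 3 + j) (0, 0)).2) 8 := by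
  intro j hj
  interval_cases j
  exacts [
    eqNN_eq _ _ k48, eqNN_eq _ _ k49, eqNN_eq _ _ k50, eqNN_eq _ _ k51, eqNN_eq _ _ k52,
    eqNN_eq _ _ k53, eqNN_eq _ _ k54, eqNN_eq _ _ k55, eqNN_eq _ _ k56, eqNN_eq _ _ k57,
    eqNN_eq _ _ k58, eqNN_eq _ _ k59, eqNN_eq _ _ k60, eqNN_eq _ _ k61, eqNN_eq _ _ k62,
    eqNN_eq _ _ k63]

theorem tb4 : ∀ j < 16, ((TB.getD 4 []).getD j []) =
    slO 64 (D.chG (E.qs.getD (16 * 4 + j) (0, 0)).1 (E.qs.getD (16 * 4 + j) (0, 0)).2) 8 := by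
  intro j hj
  interval_cases j
  exacts [
    eqNN_eq _ _ k64, eqNN_eq _ _ k65, eqNN_eq _ _ k66, eqNN_eq _ _ k67, eqNN_eq _ _ k68,
    eqNN_eq _ _ k69, eqNN_eq _ _ k70, eqNN_eq _ _ k71, eqNN_eq _ _ k72, eqNN_eq _ _ k73,
    eqNN_eq _ _ k74, eqNN_eq _ _ k75, eqNN_eq _ _ k76, eqNN_eq _ _ k77, eqNN_eq _ _ k78,
    eqNN_eq _ _ k79]

theorem tb5 : ∀ j < 16, ((TB.getD 5 []).getD j []) =
    slO 64 (D.chG (E.qs.getD (16 * 5 + j) (0, 0)).1 (E.qs.getD (16 * 5 + j) (0, 0)).2) 8 := by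
  intro j hj
  interval_cases j
  exacts [
    eqNN_eq _ _ k80, eqNN_eq _ _ k81, eqNN_eq _ _ k82, eqNN_eq _ _ k83, eqNN_eq _ _ k84,
    eqNN_eq _ _ k85, eqNN_eq _ _ k86, eqNN_eq _ _ k87, eqNN_eq _ _ k88, eqNN_eq _ _ k89,
    eqNN_eq _ _ k90, eqNN_eq _ _ k91, eqNN_eq _ _ k92, eqNN_eq _ _ k93, eqNN_eq _ _ k94,
    eqNN_eq _ _ k95]

theorem tb6 : ∀ j < 16, ((TB.getD 6 []).getD j []) =
    slO 64 (D.chG (E.qs.getD (16 * 6 + j) (0, 0)).1 (E.qs.getD (16 * 6 + j) (0, 0)).2) 8 := by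
  intro j hj
  interval_cases j
  exacts [
    eqNN_eq _ _ k96, eqNN_eq _ _ k97, eqNN_eq _ _ k98, eqNN_eq _ _ k99, eqNN_eq _ _ k100,
    eqNN_eq _ _ k101, eqNN_eq _ _ k102, eqNN_eq _ _ k103, eqNN_eq _ _ k104, eqNN_eq _ _ k105,
    eqNN_eq _ _ k106, eqNN_eq _ _ k107, eqNN_eq _ _ k108, eqNN_eq _ _ k109, eqNN_eq _ _ k110,
    eqNN_eq _ _ k111]

theorem tb7 : ∀ j < 16, ((TB.getD 7 []).getD j []) =
    slO 64 (D.chG (E.qs.getD (16 * 7 + j) (0, 0)).1 (E.qs.getD (16 * 7 + j) (0, 0)).2) 8 := by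
  intro j hj
  interval_cases j
  exacts [
    eqNN_eq _ _ k112, eqNN_eq _ _ k113, eqNN_eq _ _ k114, eqNN_eq _ _ k115, eqNN_eq _ _ k116,
    eqNN_eq _ _ k117, eqNN_eq _ _ k118, eqNN_eq _ _ k119, eqNN_eq _ _ k120, eqNN_eq _ _ k121,
    eqNN_eq _ _ k122, eqNN_eq _ _ k123, eqNN_eq _ _ k124, eqNN_eq _ _ k125, eqNN_eq _ _ k126,
    eqNN_eq _ _ k127]

theorem tb8 : ∀ j < 16, ((TB.getD 8 []).getD j []) =
    slO 64 (D.chG (E.qs.getD (16 * 8 + j) (0, 0)).1 (E.qs.getD (16 * 8 + j) (0, 0)).2) 8 := by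
  intro j hj
  interval_cases j
  exacts [
    eqNN_eq _ _ k128, eqNN_eq _ _ k129, eqNN_eq _ _ k130, eqNN_eq _ _ k131, eqNN_eq _ _ k132,
    eqNN_eq _ _ k133, eqNN_eq _ _ k134, eqNN_eq _ _ k135, eqNN_eq _ _ k136, eqNN_eq _ _ k137,
    eqNN_eq _ _ k138, eqNN_eq _ _ k139, eqNN_eq _ _ k140, eqNN_eq _ _ k141, eqNN_eq _ _ k142,
    eqNN_eq _ _ k143]

theorem tb9 : ∀ j < 16, ((TB.getD 9 []).getD j []) =
    slO 64 (D.chG (E.qs.getD (16 * 9 + j) (0, 0)).1 (E.qs.getD (16 * 9 + j) (0, 0)).2) 8 := by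
  intro j hj
  interval_cases j
  exacts [
    eqNN_eq _ _ k144, eqNN_eq _ _ k145, eqNN_eq _ _ k146, eqNN_eq _ _ k147, eqNN_eq _ _ k148,
    eqNN_eq _ _ k149, eqNN_eq _ _ k150, eqNN_eq _ _ k151, eqNN_eq _ _ k152, eqNN_eq _ _ k153,
    eqNN_eq _ _ k154, eqNN_eq _ _ k155, eqNN_eq _ _ k156, eqNN_eq _ _ k157, eqNN_eq _ _ k158,
    eqNN_eq _ _ k159]

theorem tb10 : ∀ j < 16, ((TB.getD 10 []).getD j []) =
    slO 64 (D.chG (E.qs.getD (16 * 10 + j) (0, 0)).1 (E.qs.getD (16 * 10 + j) (0, 0)).2) 8 := by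
  intro j hj
  interval_cases j
  exacts [
    eqNN_eq _ _ k160, eqNN_eq _ _ k161, eqNN_eq _ _ k162, eqNN_eq _ _ k163, eqNN_eq _ _ k164,
    eqNN_eq _ _ k165, eqNN_eq _ _ k166, eqNN_eq _ _ k167, eqNN_eq _ _ k168, eqNN_eq _ _ k169,
    eqNN_eq _ _ k170, eqNN_eq _ _ k171, eqNN_eq _ _ k172, eqNN_eq _ _ k173, eqNN_eq _ _ k174,
    eqNN_eq _ _ k175]

theorem tb11 : ∀ j < 16, ((TB.getD 11 []).getD j []) =
    slO 64 (D.chG (E.qs.getD (16 * 11 + j) (0, 0)).1 (E.qs.getD (16 * 11 + j) (0, 0)).2) 8 := by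
  intro j hj
  interval_cases j
  exacts [
    eqNN_eq _ _ k176, eqNN_eq _ _ k177, eqNN_eq _ _ k178, eqNN_eq _ _ k179, eqNN_eq _ _ k180,
    eqNN_eq _ _ k181, eqNN_eq _ _ k182, eqNN_eq _ _ k183, eqNN_eq _ _ k184, eqNN_eq _ _ k185,
    eqNN_eq _ _ k186, eqNN_eq _ _ k187, eqNN_eq _ _ k188, eqNN_eq _ _ k189, eqNN_eq _ _ k190,
    eqNN_eq _ _ k191]

theorem tb12 : ∀ j < 16, ((TB.getD 12 []).getD j []) =
    slO 64 (D.chG (E.qs.getD (16 * 12 + j) (0, 0)).1 (E.qs.getD (16 * 12 + j) (0, 0)).2) 8 := by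
  intro j hj
  interval_cases j
  exacts [
    eqNN_eq _ _ k192, eqNN_eq _ _ k193, eqNN_eq _ _ k194, eqNN_eq _ _ k195, eqNN_eq _ _ k196,
    eqNN_eq _ _ k197, eqNN_eq _ _ k198, eqNN_eq _ _ k199, eqNN_eq _ _ k200, eqNN_eq _ _ k201,
    eqNN_eq _ _ k202, eqNN_eq _ _ k203, eqNN_eq _ _ k204, eqNN_eq _ _ k205, eqNN_eq _ _ k206,
    eqNN_eq _ _ k207]

theorem tb13 : ∀ j < 16, ((TB.getD 13 []).getD j []) =
    slO 64 (D.chG (E.qs.getD (16 * 13 + j) (0, 0)).1 (E.qs.getD (16 * 13 + j) (0, 0)).2) 8 := by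
  intro j hj
  interval_cases j
  exacts [
    eqNN_eq _ _ k208, eqNN_eq _ _ k209, eqNN_eq _ _ k210, eqNN_eq _ _ k211, eqNN_eq _ _ k212,
    eqNN_eq _ _ k213, eqNN_eq _ _ k214, eqNN_eq _ _ k215, eqNN_eq _ _ k216, eqNN_eq _ _ k217,
    eqNN_eq _ _ k218, eqNN_eq _ _ k219, eqNN_eq _ _ k220, eqNN_eq _ _ k221, eqNN_eq _ _ k222,
    eqNN_eq _ _ k223]

theorem tb14 : ∀ j < 16, ((TB.getD 14 []).getD j []) =
    slO 64 (D.chG (E.qs.getD (16 * 14 + j) (0, 0)).1 (E.qs.getD (16 * 14 + j) (0, 0)).2) 8 := by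
  intro j hj
  interval_cases j
  exacts [
    eqNN_eq _ _ k224, eqNN_eq _ _ k225, eqNN_eq _ _ k226, eqNN_eq _ _ k227, eqNN_eq _ _ k228,
    eqNN_eq _ _ k229, eqNN_eq _ _ k230, eqNN_eq _ _ k231, eqNN_eq _ _ k232, eqNN_eq _ _ k233,
    eqNN_eq _ _ k234, eqNN_eq _ _ k235, eqNN_eq _ _ k236, eqNN_eq _ _ k237, eqNN_eq _ _ k238,
    eqNN_eq _ _ k239]

theorem tb15 : ∀ j < 16, ((TB.getD 15 []).getD j []) =
    slO 64 (D.chG (E.qs.getD (16 * 15 + j) (0, 0)).1 (E.qs.getD (16 * 15 + j) (0, 0)).2) 8 := by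
  intro j hj
  interval_cases j
  exacts [
    eqNN_eq _ _ k240, eqNN_eq _ _ k241, eqNN_eq _ _ k242, eqNN_eq _ _ k243, eqNN_eq _ _ k244,
    eqNN_eq _ _ k245, eqNN_eq _ _ k246, eqNN_eq _ _ k247, eqNN_eq _ _ k248, eqNN_eq _ _ k249,
    eqNN_eq _ _ k250, eqNN_eq _ _ k251, eqNN_eq _ _ k252, eqNN_eq _ _ k253, eqNN_eq _ _ k254,
    eqNN_eq _ _ k255]

theorem tb16 : ∀ j < 16, ((TB.getD 16 []).getD j []) =
    slO 64 (D.chG (E.qs.getD (16 * 16 + j) (0, 0)).1 (E.qs.getD (16 * 16 + j) (0, 0)).2) 8 := by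
  intro j hj
  interval_cases j
  exacts [
    eqNN_eq _ _ k256, eqNN_eq _ _ k257, eqNN_eq _ _ k258, eqNN_eq _ _ k259, eqNN_eq _ _ k260,
    eqNN_eq _ _ k261, eqNN_eq _ _ k262, eqNN_eq _ _ k263, eqNN_eq _ _ k264, eqNN_eq _ _ k265,
    eqNN_eq _ _ k266, eqNN_eq _ _ k267, eqNN_eq _ _ k268, eqNN_eq _ _ k269, eqNN_eq _ _ k270,
    eqNN_eq _ _ k271]

theorem tb17 : ∀ j < 16, ((TB.getD 17 []).getD j []) =
    slO 64 (D.chG (E.qs.getD (16 * 17 + j) (0, 0)).1 (E.qs.getD (16 * 17 + j) (0, 0)).2) 8 := by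
  intro j hj
  interval_cases j
  exacts [
    eqNN_eq _ _ k272, eqNN_eq _ _ k273, eqNN_eq _ _ k274, eqNN_eq _ _ k275, eqNN_eq _ _ k276,
    eqNN_eq _ _ k277, eqNN_eq _ _ k278, eqNN_eq _ _ k279, eqNN_eq _ _ k280, eqNN_eq _ _ k281,
    eqNN_eq _ _ k282, eqNN_eq _ _ k283, eqNN_eq _ _ k284, eqNN_eq _ _ k285, eqNN_eq _ _ k286,
    eqNN_eq _ _ k287]

theorem tb18 : ∀ j < 16, ((TB.getD 18 []).getD j []) =
    slO 64 (D.chG (E.qs.getD (16 * 18 + j) (0, 0)).1 (E.qs.getD (16 * 18 + j) (0, 0)).2) 8 := by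
  intro j hj
  interval_cases j
  exacts [
    eqNN_eq _ _ k288, eqNN_eq _ _ k289, eqNN_eq _ _ k290, eqNN_eq _ _ k291, eqNN_eq _ _ k292,
    eqNN_eq _ _ k293, eqNN_eq _ _ k294, eqNN_eq _ _ k295, eqNN_eq _ _ k296, eqNN_eq _ _ k297,
    eqNN_eq _ _ k298, eqNN_eq _ _ k299, eqNN_eq _ _ k300, eqNN_eq _ _ k301, eqNN_eq _ _ k302,
    eqNN_eq _ _ k303]

theorem tb19 : ∀ j < 16, ((TB.getD 19 []).getD j []) =
    slO 64 (D.chG (E.qs.getD (16 * 19 + j) (0, 0)).1 (E.qs.getD (16 * 19 + j) (0, 0)).2) 8 := by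
  intro j hj
  interval_cases j
  exacts [
    eqNN_eq _ _ k304, eqNN_eq _ _ k305, eqNN_eq _ _ k306, eqNN_eq _ _ k307, eqNN_eq _ _ k308,
    eqNN_eq _ _ k309, eqNN_eq _ _ k310, eqNN_eq _ _ k311, eqNN_eq _ _ k312, eqNN_eq _ _ k313,
    eqNN_eq _ _ k314, eqNN_eq _ _ k315, eqNN_eq _ _ k316, eqNN_eq _ _ k317, eqNN_eq _ _ k318,
    eqNN_eq _ _ k319]

theorem tb20 : ∀ j < 16, ((TB.getD 20 []).getD j []) =
    slO 64 (D.chG (E.qs.getD (16 * 20 + j) (0, 0)).1 (E.qs.getD (16 * 20 + j) (0, 0)).2) 8 := by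
  intro j hj
  interval_cases j
  exacts [
    eqNN_eq _ _ k320, eqNN_eq _ _ k321, eqNN_eq _ _ k322, eqNN_eq _ _ k323, eqNN_eq _ _ k324,
    eqNN_eq _ _ k325, eqNN_eq _ _ k326, eqNN_eq _ _ k327, eqNN_eq _ _ k328, eqNN_eq _ _ k329,
    eqNN_eq _ _ k330, eqNN_eq _ _ k331, eqNN_eq _ _ k332, eqNN_eq _ _ k333, eqNN_eq _ _ k334,
    eqNN_eq _ _ k335]

theorem tb21 : ∀ j < 16, ((TB.getD 21 []).getD j []) =
    slO 64 (D.chG (E.qs.getD (16 * 21 + j) (0, 0)).1 (E.qs.getD (16 * 21 + j) (0, 0)).2) 8 := by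
  intro j hj
  interval_cases j
  exacts [
    eqNN_eq _ _ k336, eqNN_eq _ _ k337, eqNN_eq _ _ k338, eqNN_eq _ _ k339, eqNN_eq _ _ k340,
    eqNN_eq _ _ k341, eqNN_eq _ _ k342, eqNN_eq _ _ k343, eqNN_eq _ _ k344, eqNN_eq _ _ k345,
    eqNN_eq _ _ k346, eqNN_eq _ _ k347, eqNN_eq _ _ k348, eqNN_eq _ _ k349, eqNN_eq _ _ k350,
    eqNN_eq _ _ k351]

theorem tb22 : ∀ j < 16, ((TB.getD 22 []).getD j []) =
    slO 64 (D.chG (E.qs.getD (16 * 22 + j) (0, 0)).1 (E.qs.getD (16 * 22 + j) (0, 0)).2) 8 := by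
  intro j hj
  interval_cases j
  exacts [
    eqNN_eq _ _ k352, eqNN_eq _ _ k353, eqNN_eq _ _ k354, eqNN_eq _ _ k355, eqNN_eq _ _ k356,
    eqNN_eq _ _ k357, eqNN_eq _ _ k358, eqNN_eq _ _ k359, eqNN_eq _ _ k360, eqNN_eq _ _ k361,
    eqNN_eq _ _ k362, eqNN_eq _ _ k363, eqNN_eq _ _ k364, eqNN_eq _ _ k365, eqNN_eq _ _ k366,
    eqNN_eq _ _ k367]

theorem tb23 : ∀ j < 16, ((TB.getD 23 []).getD j []) =
    slO 64 (D.chG (E.qs.getD (16 * 23 + j) (0, 0)).1 (E.qs.getD (16 * 23 + j) (0, 0)).2) 8 := by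
  intro j hj
  interval_cases j
  exacts [
    eqNN_eq _ _ k368, eqNN_eq _ _ k369, eqNN_eq _ _ k370, eqNN_eq _ _ k371, eqNN_eq _ _ k372,
    eqNN_eq _ _ k373, eqNN_eq _ _ k374, eqNN_eq _ _ k375, eqNN_eq _ _ k376, eqNN_eq _ _ k377,
    eqNN_eq _ _ k378, eqNN_eq _ _ k379, eqNN_eq _ _ k380, eqNN_eq _ _ k381, eqNN_eq _ _ k382,
    eqNN_eq _ _ k383]

theorem tb24 : ∀ j < 16, ((TB.getD 24 []).getD j []) =
    slO 64 (D.chG (E.qs.getD (16 * 24 + j) (0, 0)).1 (E.qs.getD (16 * 24 + j) (0, 0)).2) 8 := by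
  intro j hj
  interval_cases j
  exacts [
    eqNN_eq _ _ k384, eqNN_eq _ _ k385, eqNN_eq _ _ k386, eqNN_eq _ _ k387, eqNN_eq _ _ k388,
    eqNN_eq _ _ k389, eqNN_eq _ _ k390, eqNN_eq _ _ k391, eqNN_eq _ _ k392, eqNN_eq _ _ k393,
    eqNN_eq _ _ k394, eqNN_eq _ _ k395, eqNN_eq _ _ k396, eqNN_eq _ _ k397, eqNN_eq _ _ k398,
    eqNN_eq _ _ k399]

theorem tb25 : ∀ j < 16, ((TB.getD 25 []).getD j []) =
    slO 64 (D.chG (E.qs.getD (16 * 25 + j) (0, 0)).1 (E.qs.getD (16 * 25 + j) (0, 0)).2) 8 := by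
  intro j hj
  interval_cases j
  exacts [
    eqNN_eq _ _ k400, eqNN_eq _ _ k401, eqNN_eq _ _ k402, eqNN_eq _ _ k403, eqNN_eq _ _ k404,
    eqNN_eq _ _ k405, eqNN_eq _ _ k406, eqNN_eq _ _ k407, eqNN_eq _ _ k408, eqNN_eq _ _ k409,
    eqNN_eq _ _ k410, eqNN_eq _ _ k411, eqNN_eq _ _ k412, eqNN_eq _ _ k413, eqNN_eq _ _ k414,
    eqNN_eq _ _ k415]

theorem tb26 : ∀ j < 16, ((TB.getD 26 []).getD j []) =
    slO 64 (D.chG (E.qs.getD (16 * 26 + j) (0, 0)).1 (E.qs.getD (16 * 26 + j) (0, 0)).2) 8 := by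
  intro j hj
  interval_cases j
  exacts [
    eqNN_eq _ _ k416, eqNN_eq _ _ k417, eqNN_eq _ _ k418, eqNN_eq _ _ k419, eqNN_eq _ _ k420,
    eqNN_eq _ _ k421, eqNN_eq _ _ k422, eqNN_eq _ _ k423, eqNN_eq _ _ k424, eqNN_eq _ _ k425,
    eqNN_eq _ _ k426, eqNN_eq _ _ k427, eqNN_eq _ _ k428, eqNN_eq _ _ k429, eqNN_eq _ _ k430,
    eqNN_eq _ _ k431]

theorem tb27 : ∀ j < 16, ((TB.getD 27 []).getD j []) =
    slO 64 (D.chG (E.qs.getD (16 * 27 + j) (0, 0)).1 (E.qs.getD (16 * 27 + j) (0, 0)).2) 8 := by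
  intro j hj
  interval_cases j
  exacts [
    eqNN_eq _ _ k432, eqNN_eq _ _ k433, eqNN_eq _ _ k434, eqNN_eq _ _ k435, eqNN_eq _ _ k436,
    eqNN_eq _ _ k437, eqNN_eq _ _ k438, eqNN_eq _ _ k439, eqNN_eq _ _ k440, eqNN_eq _ _ k441,
    eqNN_eq _ _ k442, eqNN_eq _ _ k443, eqNN_eq _ _ k444, eqNN_eq _ _ k445, eqNN_eq _ _ k446,
    eqNN_eq _ _ k447]

theorem tb28 : ∀ j < 16, ((TB.getD 28 []).getD j []) =
    slO 64 (D.chG (E.qs.getD (16 * 28 + j) (0, 0)).1 (E.qs.getD (16 * 28 + j) (0, 0)).2) 8 := by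
  intro j hj
  interval_cases j
  exacts [
    eqNN_eq _ _ k448, eqNN_eq _ _ k449, eqNN_eq _ _ k450, eqNN_eq _ _ k451, eqNN_eq _ _ k452,
    eqNN_eq _ _ k453, eqNN_eq _ _ k454, eqNN_eq _ _ k455, eqNN_eq _ _ k456, eqNN_eq _ _ k457,
    eqNN_eq _ _ k458, eqNN_eq _ _ k459, eqNN_eq _ _ k460, eqNN_eq _ _ k461, eqNN_eq _ _ k462,
    eqNN_eq _ _ k463]

theorem tb29 : ∀ j < 16, ((TB.getD 29 []).getD j []) =
    slO 64 (D.chG (E.qs.getD (16 * 29 + j) (0, 0)).1 (E.qs.getD (16 * 29 + j) (0, 0)).2) 8 := by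
  intro j hj
  interval_cases j
  exacts [
    eqNN_eq _ _ k464, eqNN_eq _ _ k465, eqNN_eq _ _ k466, eqNN_eq _ _ k467, eqNN_eq _ _ k468,
    eqNN_eq _ _ k469, eqNN_eq _ _ k470, eqNN_eq _ _ k471, eqNN_eq _ _ k472, eqNN_eq _ _ k473,
    eqNN_eq _ _ k474, eqNN_eq _ _ k475, eqNN_eq _ _ k476, eqNN_eq _ _ k477, eqNN_eq _ _ k478,
    eqNN_eq _ _ k479]

theorem tb30 : ∀ j < 16, ((TB.getD 30 []).getD j []) =
    slO 64 (D.chG (E.qs.getD (16 * 30 + j) (0, 0)).1 (E.qs.getD (16 * 30 + j) (0, 0)).2) 8 := by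
  intro j hj
  interval_cases j
  exacts [
    eqNN_eq _ _ k480, eqNN_eq _ _ k481, eqNN_eq _ _ k482, eqNN_eq _ _ k483, eqNN_eq _ _ k484,
    eqNN_eq _ _ k485, eqNN_eq _ _ k486, eqNN_eq _ _ k487, eqNN_eq _ _ k488, eqNN_eq _ _ k489,
    eqNN_eq _ _ k490, eqNN_eq _ _ k491, eqNN_eq _ _ k492, eqNN_eq _ _ k493, eqNN_eq _ _ k494,
    eqNN_eq _ _ k495]

theorem tb31 : ∀ j < 16, ((TB.getD 31 []).getD j []) =
    slO 64 (D.chG (E.qs.getD (16 * 31 + j) (0, 0)).1 (E.qs.getD (16 * 31 + j) (0, 0)).2) 8 := by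
  intro j hj
  interval_cases j
  exacts [
    eqNN_eq _ _ k496, eqNN_eq _ _ k497, eqNN_eq _ _ k498, eqNN_eq _ _ k499, eqNN_eq _ _ k500,
    eqNN_eq _ _ k501, eqNN_eq _ _ k502, eqNN_eq _ _ k503, eqNN_eq _ _ k504, eqNN_eq _ _ k505,
    eqNN_eq _ _ k506, eqNN_eq _ _ k507, eqNN_eq _ _ k508, eqNN_eq _ _ k509, eqNN_eq _ _ k510,
    eqNN_eq _ _ k511]

theorem tb32 : ∀ j < 16, ((TB.getD 32 []).getD j []) =
    slO 64 (D.chG (E.qs.getD (16 * 32 + j) (0, 0)).1 (E.qs.getD (16 * 32 + j) (0, 0)).2) 8 := by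
  intro j hj
  interval_cases j
  exacts [
    eqNN_eq _ _ k512, eqNN_eq _ _ k513, eqNN_eq _ _ k514, eqNN_eq _ _ k515, eqNN_eq _ _ k516,
    eqNN_eq _ _ k517, eqNN_eq _ _ k518, eqNN_eq _ _ k519, eqNN_eq _ _ k520, eqNN_eq _ _ k521,
    eqNN_eq _ _ k522, eqNN_eq _ _ k523, eqNN_eq _ _ k524, eqNN_eq _ _ k525, eqNN_eq _ _ k526,
    eqNN_eq _ _ k527]

theorem tb33 : ∀ j < 16, ((TB.getD 33 []).getD j []) =
    slO 64 (D.chG (E.qs.getD (16 * 33 + j) (0, 0)).1 (E.qs.getD (16 * 33 + j) (0, 0)).2) 8 := by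
  intro j hj
  interval_cases j
  exacts [
    eqNN_eq _ _ k528, eqNN_eq _ _ k529, eqNN_eq _ _ k530, eqNN_eq _ _ k531, eqNN_eq _ _ k532,
    eqNN_eq _ _ k533, eqNN_eq _ _ k534, eqNN_eq _ _ k535, eqNN_eq _ _ k536, eqNN_eq _ _ k537,
    eqNN_eq _ _ k538, eqNN_eq _ _ k539, eqNN_eq _ _ k540, eqNN_eq _ _ k541, eqNN_eq _ _ k542,
    eqNN_eq _ _ k543]

theorem tb34 : ∀ j < 16, ((TB.getD 34 []).getD j []) =
    slO 64 (D.chG (E.qs.getD (16 * 34 + j) (0, 0)).1 (E.qs.getD (16 * 34 + j) (0, 0)).2) 8 := by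
  intro j hj
  interval_cases j
  exacts [
    eqNN_eq _ _ k544, eqNN_eq _ _ k545, eqNN_eq _ _ k546, eqNN_eq _ _ k547, eqNN_eq _ _ k548,
    eqNN_eq _ _ k549, eqNN_eq _ _ k550, eqNN_eq _ _ k551, eqNN_eq _ _ k552, eqNN_eq _ _ k553,
    eqNN_eq _ _ k554, eqNN_eq _ _ k555, eqNN_eq _ _ k556, eqNN_eq _ _ k557, eqNN_eq _ _ k558,
    eqNN_eq _ _ k559]

theorem tb35 : ∀ j < 16, ((TB.getD 35 []).getD j []) =
    slO 64 (D.chG (E.qs.getD (16 * 35 + j) (0, 0)).1 (E.qs.getD (16 * 35 + j) (0, 0)).2) 8 := by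
  intro j hj
  interval_cases j
  exacts [
    eqNN_eq _ _ k560, eqNN_eq _ _ k561, eqNN_eq _ _ k562, eqNN_eq _ _ k563, eqNN_eq _ _ k564,
    eqNN_eq _ _ k565, eqNN_eq _ _ k566, eqNN_eq _ _ k567, eqNN_eq _ _ k568, eqNN_eq _ _ k569,
    eqNN_eq _ _ k570, eqNN_eq _ _ k571, eqNN_eq _ _ k572, eqNN_eq _ _ k573, eqNN_eq _ _ k574,
    eqNN_eq _ _ k575]

theorem tb36 : ∀ j < 16, ((TB.getD 36 []).getD j []) =
    slO 64 (D.chG (E.qs.getD (16 * 36 + j) (0, 0)).1 (E.qs.getD (16 * 36 + j) (0, 0)).2) 8 := by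
  intro j hj
  interval_cases j
  exacts [
    eqNN_eq _ _ k576, eqNN_eq _ _ k577, eqNN_eq _ _ k578, eqNN_eq _ _ k579, eqNN_eq _ _ k580,
    eqNN_eq _ _ k581, eqNN_eq _ _ k582, eqNN_eq _ _ k583, eqNN_eq _ _ k584, eqNN_eq _ _ k585,
    eqNN_eq _ _ k586, eqNN_eq _ _ k587, eqNN_eq _ _ k588, eqNN_eq _ _ k589, eqNN_eq _ _ k590,
    eqNN_eq _ _ k591]

theorem tb37 : ∀ j < 16, ((TB.getD 37 []).getD j []) =
    slO 64 (D.chG (E.qs.getD (16 * 37 + j) (0, 0)).1 (E.qs.getD (16 * 37 + j) (0, 0)).2) 8 := by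
  intro j hj
  interval_cases j
  exacts [
    eqNN_eq _ _ k592, eqNN_eq _ _ k593, eqNN_eq _ _ k594, eqNN_eq _ _ k595, eqNN_eq _ _ k596,
    eqNN_eq _ _ k597, eqNN_eq _ _ k598, eqNN_eq _ _ k599, eqNN_eq _ _ k600, eqNN_eq _ _ k601,
    eqNN_eq _ _ k602, eqNN_eq _ _ k603, eqNN_eq _ _ k604, eqNN_eq _ _ k605, eqNN_eq _ _ k606,
    eqNN_eq _ _ k607]

theorem tb38 : ∀ j < 16, ((TB.getD 38 []).getD j []) =
    slO 64 (D.chG (E.qs.getD (16 * 38 + j) (0, 0)).1 (E.qs.getD (16 * 38 + j) (0, 0)).2) 8 := by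
  intro j hj
  interval_cases j
  exacts [
    eqNN_eq _ _ k608, eqNN_eq _ _ k609, eqNN_eq _ _ k610, eqNN_eq _ _ k611, eqNN_eq _ _ k612,
    eqNN_eq _ _ k613, eqNN_eq _ _ k614, eqNN_eq _ _ k615, eqNN_eq _ _ k616, eqNN_eq _ _ k617,
    eqNN_eq _ _ k618, eqNN_eq _ _ k619, eqNN_eq _ _ k620, eqNN_eq _ _ k621, eqNN_eq _ _ k622,
    eqNN_eq _ _ k623]

theorem tb39 : ∀ j < 16, ((TB.getD 39 []).getD j []) =
    slO 64 (D.chG (E.qs.getD (16 * 39 + j) (0, 0)).1 (E.qs.getD (16 * 39 + j) (0, 0)).2) 8 := by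
  intro j hj
  interval_cases j
  exacts [
    eqNN_eq _ _ k624, eqNN_eq _ _ k625, eqNN_eq _ _ k626, eqNN_eq _ _ k627, eqNN_eq _ _ k628,
    eqNN_eq _ _ k629, eqNN_eq _ _ k630, eqNN_eq _ _ k631, eqNN_eq _ _ k632, eqNN_eq _ _ k633,
    eqNN_eq _ _ k634, eqNN_eq _ _ k635, eqNN_eq _ _ k636, eqNN_eq _ _ k637, eqNN_eq _ _ k638,
    eqNN_eq _ _ k639]

theorem tb40 : ∀ j < 16, ((TB.getD 40 []).getD j []) =
    slO 64 (D.chG (E.qs.getD (16 * 40 + j) (0, 0)).1 (E.qs.getD (16 * 40 + j) (0, 0)).2) 8 := by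
  intro j hj
  interval_cases j
  exacts [
    eqNN_eq _ _ k640, eqNN_eq _ _ k641, eqNN_eq _ _ k642, eqNN_eq _ _ k643, eqNN_eq _ _ k644,
    eqNN_eq _ _ k645, eqNN_eq _ _ k646, eqNN_eq _ _ k647, eqNN_eq _ _ k648, eqNN_eq _ _ k649,
    eqNN_eq _ _ k650, eqNN_eq _ _ k651, eqNN_eq _ _ k652, eqNN_eq _ _ k653, eqNN_eq _ _ k654,
    eqNN_eq _ _ k655]

theorem tb41 : ∀ j < 16, ((TB.getD 41 []).getD j []) =
    slO 64 (D.chG (E.qs.getD (16 * 41 + j) (0, 0)).1 (E.qs.getD (16 * 41 + j) (0, 0)).2) 8 := by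
  intro j hj
  interval_cases j
  exacts [
    eqNN_eq _ _ k656, eqNN_eq _ _ k657, eqNN_eq _ _ k658, eqNN_eq _ _ k659, eqNN_eq _ _ k660,
    eqNN_eq _ _ k661, eqNN_eq _ _ k662, eqNN_eq _ _ k663, eqNN_eq _ _ k664, eqNN_eq _ _ k665,
    eqNN_eq _ _ k666, eqNN_eq _ _ k667, eqNN_eq _ _ k668, eqNN_eq _ _ k669, eqNN_eq _ _ k670,
    eqNN_eq _ _ k671]

theorem tb42 : ∀ j < 16, ((TB.getD 42 []).getD j []) =
    slO 64 (D.chG (E.qs.getD (16 * 42 + j) (0, 0)).1 (E.qs.getD (16 * 42 + j) (0, 0)).2) 8 := by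
  intro j hj
  interval_cases j
  exacts [
    eqNN_eq _ _ k672, eqNN_eq _ _ k673, eqNN_eq _ _ k674, eqNN_eq _ _ k675, eqNN_eq _ _ k676,
    eqNN_eq _ _ k677, eqNN_eq _ _ k678, eqNN_eq _ _ k679, eqNN_eq _ _ k680, eqNN_eq _ _ k681,
    eqNN_eq _ _ k682, eqNN_eq _ _ k683, eqNN_eq _ _ k684, eqNN_eq _ _ k685, eqNN_eq _ _ k686,
    eqNN_eq _ _ k687]

theorem tb43 : ∀ j < 16, ((TB.getD 43 []).getD j []) =
    slO 64 (D.chG (E.qs.getD (16 * 43 + j) (0, 0)).1 (E.qs.getD (16 * 43 + j) (0, 0)).2) 8 := by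
  intro j hj
  interval_cases j
  exacts [
    eqNN_eq _ _ k688, eqNN_eq _ _ k689, eqNN_eq _ _ k690, eqNN_eq _ _ k691, eqNN_eq _ _ k692,
    eqNN_eq _ _ k693, eqNN_eq _ _ k694, eqNN_eq _ _ k695, eqNN_eq _ _ k696, eqNN_eq _ _ k697,
    eqNN_eq _ _ k698, eqNN_eq _ _ k699, eqNN_eq _ _ k700, eqNN_eq _ _ k701, eqNN_eq _ _ k702,
    eqNN_eq _ _ k703]

theorem tb44 : ∀ j < 16, ((TB.getD 44 []).getD j []) =
    slO 64 (D.chG (E.qs.getD (16 * 44 + j) (0, 0)).1 (E.qs.getD (16 * 44 + j) (0, 0)).2) 8 := by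
  intro j hj
  interval_cases j
  exacts [
    eqNN_eq _ _ k704, eqNN_eq _ _ k705, eqNN_eq _ _ k706, eqNN_eq _ _ k707, eqNN_eq _ _ k708,
    eqNN_eq _ _ k709, eqNN_eq _ _ k710, eqNN_eq _ _ k711, eqNN_eq _ _ k712, eqNN_eq _ _ k713,
    eqNN_eq _ _ k714, eqNN_eq _ _ k715, eqNN_eq _ _ k716, eqNN_eq _ _ k717, eqNN_eq _ _ k718,
    eqNN_eq _ _ k719]

theorem tb45 : ∀ j < 16, ((TB.getD 45 []).getD j []) =
    slO 64 (D.chG (E.qs.getD (16 * 45 + j) (0, 0)).1 (E.qs.getD (16 * 45 + j) (0, 0)).2) 8 := by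
  intro j hj
  interval_cases j
  exacts [
    eqNN_eq _ _ k720, eqNN_eq _ _ k721, eqNN_eq _ _ k722, eqNN_eq _ _ k723, eqNN_eq _ _ k724,
    eqNN_eq _ _ k725, eqNN_eq _ _ k726, eqNN_eq _ _ k727, eqNN_eq _ _ k728, eqNN_eq _ _ k729,
    eqNN_eq _ _ k730, eqNN_eq _ _ k731, eqNN_eq _ _ k732, eqNN_eq _ _ k733, eqNN_eq _ _ k734,
    eqNN_eq _ _ k735]

theorem tb46 : ∀ j < 16, ((TB.getD 46 []).getD j []) =
    slO 64 (D.chG (E.qs.getD (16 * 46 + j) (0, 0)).1 (E.qs.getD (16 * 46 + j) (0, 0)).2) 8 := by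
  intro j hj
  interval_cases j
  exacts [
    eqNN_eq _ _ k736, eqNN_eq _ _ k737, eqNN_eq _ _ k738, eqNN_eq _ _ k739, eqNN_eq _ _ k740,
    eqNN_eq _ _ k741, eqNN_eq _ _ k742, eqNN_eq _ _ k743, eqNN_eq _ _ k744, eqNN_eq _ _ k745,
    eqNN_eq _ _ k746, eqNN_eq _ _ k747, eqNN_eq _ _ k748, eqNN_eq _ _ k749, eqNN_eq _ _ k750,
    eqNN_eq _ _ k751]

theorem tb47 : ∀ j < 16, ((TB.getD 47 []).getD j []) =
    slO 64 (D.chG (E.qs.getD (16 * 47 + j) (0, 0)).1 (E.qs.getD (16 * 47 + j) (0, 0)).2) 8 := by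
  intro j hj
  interval_cases j
  exacts [
    eqNN_eq _ _ k752, eqNN_eq _ _ k753, eqNN_eq _ _ k754, eqNN_eq _ _ k755, eqNN_eq _ _ k756,
    eqNN_eq _ _ k757, eqNN_eq _ _ k758, eqNN_eq _ _ k759, eqNN_eq _ _ k760, eqNN_eq _ _ k761,
    eqNN_eq _ _ k762, eqNN_eq _ _ k763, eqNN_eq _ _ k764, eqNN_eq _ _ k765, eqNN_eq _ _ k766,
    eqNN_eq _ _ k767]

theorem tb48 : ∀ j < 16, ((TB.getD 48 []).getD j []) =
    slO 64 (D.chG (E.qs.getD (16 * 48 + j) (0, 0)).1 (E.qs.getD (16 * 48 + j) (0, 0)).2) 8 := by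
  intro j hj
  interval_cases j
  exacts [
    eqNN_eq _ _ k768, eqNN_eq _ _ k769, eqNN_eq _ _ k770, eqNN_eq _ _ k771, eqNN_eq _ _ k772,
    eqNN_eq _ _ k773, eqNN_eq _ _ k774, eqNN_eq _ _ k775, eqNN_eq _ _ k776, eqNN_eq _ _ k777,
    eqNN_eq _ _ k778, eqNN_eq _ _ k779, eqNN_eq _ _ k780, eqNN_eq _ _ k781, eqNN_eq _ _ k782,
    eqNN_eq _ _ k783]

theorem tb49 : ∀ j < 16, ((TB.getD 49 []).getD j []) =
    slO 64 (D.chG (E.qs.getD (16 * 49 + j) (0, 0)).1 (E.qs.getD (16 * 49 + j) (0, 0)).2) 8 := by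
  intro j hj
  interval_cases j
  exacts [
    eqNN_eq _ _ k784, eqNN_eq _ _ k785, eqNN_eq _ _ k786, eqNN_eq _ _ k787, eqNN_eq _ _ k788,
    eqNN_eq _ _ k789, eqNN_eq _ _ k790, eqNN_eq _ _ k791, eqNN_eq _ _ k792, eqNN_eq _ _ k793,
    eqNN_eq _ _ k794, eqNN_eq _ _ k795, eqNN_eq _ _ k796, eqNN_eq _ _ k797, eqNN_eq _ _ k798,
    eqNN_eq _ _ k799]

theorem tb50 : ∀ j < 16, ((TB.getD 50 []).getD j []) =
    slO 64 (D.chG (E.qs.getD (16 * 50 + j) (0, 0)).1 (E.qs.getD (16 * 50 + j) (0, 0)).2) 8 := by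
  intro j hj
  interval_cases j
  exacts [
    eqNN_eq _ _ k800, eqNN_eq _ _ k801, eqNN_eq _ _ k802, eqNN_eq _ _ k803, eqNN_eq _ _ k804,
    eqNN_eq _ _ k805, eqNN_eq _ _ k806, eqNN_eq _ _ k807, eqNN_eq _ _ k808, eqNN_eq _ _ k809,
    eqNN_eq _ _ k810, eqNN_eq _ _ k811, eqNN_eq _ _ k812, eqNN_eq _ _ k813, eqNN_eq _ _ k814,
    eqNN_eq _ _ k815]

theorem tb51 : ∀ j < 16, ((TB.getD 51 []).getD j []) =
    slO 64 (D.chG (E.qs.getD (16 * 51 + j) (0, 0)).1 (E.qs.getD (16 * 51 + j) (0, 0)).2) 8 := by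
  intro j hj
  interval_cases j
  exacts [
    eqNN_eq _ _ k816, eqNN_eq _ _ k817, eqNN_eq _ _ k818, eqNN_eq _ _ k819, eqNN_eq _ _ k820,
    eqNN_eq _ _ k821, eqNN_eq _ _ k822, eqNN_eq _ _ k823, eqNN_eq _ _ k824, eqNN_eq _ _ k825,
    eqNN_eq _ _ k826, eqNN_eq _ _ k827, eqNN_eq _ _ k828, eqNN_eq _ _ k829, eqNN_eq _ _ k830,
    eqNN_eq _ _ k831]

theorem tb52 : ∀ j < 16, ((TB.getD 52 []).getD j []) =
    slO 64 (D.chG (E.qs.getD (16 * 52 + j) (0, 0)).1 (E.qs.getD (16 * 52 + j) (0, 0)).2) 8 := by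
  intro j hj
  interval_cases j
  exacts [
    eqNN_eq _ _ k832, eqNN_eq _ _ k833, eqNN_eq _ _ k834, eqNN_eq _ _ k835, eqNN_eq _ _ k836,
    eqNN_eq _ _ k837, eqNN_eq _ _ k838, eqNN_eq _ _ k839, eqNN_eq _ _ k840, eqNN_eq _ _ k841,
    eqNN_eq _ _ k842, eqNN_eq _ _ k843, eqNN_eq _ _ k844, eqNN_eq _ _ k845, eqNN_eq _ _ k846,
    eqNN_eq _ _ k847]

theorem tb53 : ∀ j < 16, ((TB.getD 53 []).getD j []) =
    slO 64 (D.chG (E.qs.getD (16 * 53 + j) (0, 0)).1 (E.qs.getD (16 * 53 + j) (0, 0)).2) 8 := by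
  intro j hj
  interval_cases j
  exacts [
    eqNN_eq _ _ k848, eqNN_eq _ _ k849, eqNN_eq _ _ k850, eqNN_eq _ _ k851, eqNN_eq _ _ k852,
    eqNN_eq _ _ k853, eqNN_eq _ _ k854, eqNN_eq _ _ k855, eqNN_eq _ _ k856, eqNN_eq _ _ k857,
    eqNN_eq _ _ k858, eqNN_eq _ _ k859, eqNN_eq _ _ k860, eqNN_eq _ _ k861, eqNN_eq _ _ k862,
    eqNN_eq _ _ k863]

theorem tb54 : ∀ j < 8, ((TB.getD 54 []).getD j []) =
    slO 64 (D.chG (E.qs.getD (16 * 54 + j) (0, 0)).1 (E.qs.getD (16 * 54 + j) (0, 0)).2) 8 := by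
  intro j hj
  interval_cases j
  exacts [
    eqNN_eq _ _ k864, eqNN_eq _ _ k865, eqNN_eq _ _ k866, eqNN_eq _ _ k867, eqNN_eq _ _ k868,
    eqNN_eq _ _ k869, eqNN_eq _ _ k870, eqNN_eq _ _ k871]

theorem tb_ok : ∀ t < E.qs.length, ∀ z < 64, BE.tbH TB t z =
    slG D.W 8 (D.chG (E.qs.getD t (0, 0)).1 (E.qs.getD t (0, 0)).2) z := by
  refine BE.tbH_of TB 872 64 (fun t => D.chG (E.qs.getD t (0, 0)).1 (E.qs.getD t (0, 0)).2) ?_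
  intro i hi j hj hij
  have hi' : i < 55 := by omega
  interval_cases i
  · exact tb0 j (by omega)
  · exact tb1 j (by omega)
  · exact tb2 j (by omega)
  · exact tb3 j (by omega)
  · exact tb4 j (by omega)
  · exact tb5 j (by omega)
  · exact tb6 j (by omega)
  · exact tb7 j (by omega)
  · exact tb8 j (by omega)
  · exact tb9 j (by omega)
  · exact tb10 j (by omega)
  · exact tb11 j (by omega)
  · exact tb12 j (by omega)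
  · exact tb13 j (by omega)
  · exact tb14 j (by omega)
  · exact tb15 j (by omega)
  · exact tb16 j (by omega)
  · exact tb17 j (by omega)
  · exact tb18 j (by omega)
  · exact tb19 j (by omega)
  · exact tb20 j (by omega)
  · exact tb21 j (by omega)
  · exact tb22 j (by omega)
  · exact tb23 j (by omega)
  · exact tb24 j (by omega)
  · exact tb25 j (by omega)
  · exact tb26 j (by omega)
  · exact tb27 j (by omega)
  · exact tb28 j (by omega)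
  · exact tb29 j (by omega)
  · exact tb30 j (by omega)
  · exact tb31 j (by omega)
  · exact tb32 j (by omega)
  · exact tb33 j (by omega)
  · exact tb34 j (by omega)
  · exact tb35 j (by omega)
  · exact tb36 j (by omega)
  · exact tb37 j (by omega)
  · exact tb38 j (by omega)
  · exact tb39 j (by omega)
  · exact tb40 j (by omega)
  · exact tb41 j (by omega)
  · exact tb42 j (by omega)
  · exact tb43 j (by omega)
  · exact tb44 j (by omega)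
  · exact tb45 j (by omega)
  · exact tb46 j (by omega)
  · exact tb47 j (by omega)
  · exact tb48 j (by omega)
  · exact tb49 j (by omega)
  · exact tb50 j (by omega)
  · exact tb51 j (by omega)
  · exact tb52 j (by omega)
  · exact tb53 j (by omega)
  · exact tb54 j (by omega)

end Pool.Agent.Lib.MP_afdd4d_co.K10.E6
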